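import Pool.Agent.Work.MP_35beee_gt.PFace

/-!
Density of axes; a bound for the number of components of a multicurve.

Plan. `exists_hyp_arcs`: take `k`, `k'` nontrivial with all fixed points in small subarcs `U`, `W`
(conjugate any nontrivial element, `exists_smul_line_mem_arc`, `exists_smul_mem_arc`). High powers
of `k` and of `k⁻¹` map the complement of `U` into `U` (`tendsto_smul_circ` or `tendsto_pow` for the
two endpoints and the cyclic order); apply `hyp_of_two_arcs` to `k' ^ n * k ^ n`.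
`three_lines`: write `nrm (l i) = m i - s i • p` with `m i` orthogonal to `p`; then
`0 ≤ B (m₁+m₂+m₃) (m₁+m₂+m₃) ≤ (s₁+s₂+s₃)² - 3` because `B (nrm (l i)) (nrm (l j)) ≤ -1`.
`exists_multi_bound`: let `l` be the axis of `R i`. The bounded open sets of points of `l` at
distance `< 1/2` from another lift `m` on the left of `l` not separated from `l` by a third lift are
pairwise disjoint by `three_lines`, so they do not cover the connected line: there is a point of `l`
at distance `≥ 1/2` from all other lifts on the left of `l`. Let `y i` be the point at distance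
`1/4` on the left of it: no lift is closer to `y i` than `l`. The points `y i` are `η`-thick
(`exists_core_simple`, `exists_inj`). Take a maximal `r`-separated subfamily (`r` small); three
different `y i` cannot be within `r` of one point up to translation (the right sides of the three
lifts are pairwise disjoint, `three_lines`). So `n ≤ 2 N r`.
-/

namespace HRT

open Set Filter Topology Real

theorem GDense2_B {l m : Geo} (h : Nest l.rev m) : B (nrm l) (nrm m) ≤ -1 := by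
  obtain ⟨h1, h2, h3, h4, h5⟩ := (nest_iff_ends _ _).1 h
  have h6 := GNest_pos_of_ends h1 h2 h3 h4 h5
  have h7 := h.not_cross
  rw [cross_iff_abs_B, not_lt, B_comm, abs_of_pos h6, nrm_rev, B_neg_right, B_comm] at h7
  linarith

theorem three_lines {a b c : Geo} (hab : Nest a.rev b) (hbc : Nest b.rev c) (hac : Nest a.rev c)
    {p : Pt} (ha : 0 ≤ side a p.1) (hb : 0 ≤ side b p.1) (hc : 0 ≤ side c p.1) :
    √3 ≤ side a p.1 + side b p.1 + side c p.1 := by
  have h1 := GDense2_B hab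
  have h2 := GDense2_B hbc
  have h3 := GDense2_B hac
  have hp := p.2.1
  set v : V := nrm a + nrm b + nrm c + (side a p.1 + side b p.1 + side c p.1) • p.1 with hv
  have h4 : B p.1 v = 0 := by
    rw [B_comm]
    simp only [hv, B_add_left, B_smul_left, hp, side]
    ring
  have h5 : 0 ≤ B v v := by
    by_cases h0 : v = 0
    · simp [h0]
    · exact (B_pos_of_orth p h4 h0).le
  have h6 : B v v = 3 + 2 * (B (nrm a) (nrm b) + B (nrm b) (nrm c) + B (nrm a) (nrm c)) +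
      (side a p.1 + side b p.1 + side c p.1) ^ 2 := by
    simp only [hv, B_add_right, B_smul_right, B_add_left, B_smul_left, hp, B_comm p.1, side,
      B_nrm_nrm, B_comm (nrm b) (nrm a), B_comm (nrm c) (nrm a), B_comm (nrm c) (nrm b)]
    ring
  exact Real.sqrt_le_iff.2 ⟨by positivity, by linarith⟩

/-- A point on the right of a line is closer to every line in between. -/
theorem GDense2_lt {l m : Geo} (h : Nest l m) (hne : l ≠ m) {p : Pt} (hp : side l p.1 ≤ 0) :
    side l p.1 < side m p.1 := by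
  have h1 := h.pos_of_ne hne (p := pt l (fer l p.1)) (by simp)
  have h2 := abs_arsinh_side_le m (pt l (fer l p.1)) p
  rw [dist_comm, dist_foot, abs_of_nonpos (arsinh_nonpos_iff.2 hp)] at h2
  have h3 := arsinh_pos_iff.2 h1
  rw [← arsinh_lt_arsinh]
  linarith [le_abs_self (arsinh (side m (pt l (fer l p.1)).1) - arsinh (side m p.1))]

theorem GDense2_lt' {l m : Geo} (h : Nest l m) (hne : l ≠ m) {p : Pt} (hp : 0 ≤ side m p.1) :
    side l p.1 < side m p.1 := by
  have := GDense2_lt h.rev (fun e => hne (by simpa using (congrArg Geo.rev e).symm)) (p := p)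
    (by simpa using hp)
  simpa using this

theorem GDense2_pp {k : Isom} {m : Geo} {ξ η : Circ} (hξ : 0 < side m ξ.1) (hη : 0 < side m η.1)
    (h1 : ∀ ζ, ζ ≠ η → Tendsto (fun n : ℕ => k ^ n • ζ) atTop (𝓝 ξ))
    (h2 : ∀ ζ, ζ ≠ ξ → Tendsto (fun n : ℕ => k⁻¹ ^ n • ζ) atTop (𝓝 η)) :
    ∀ᶠ n : ℕ in atTop, Nest (k ^ n • m.rev) m := by
  have hc : Continuous fun ζ : Circ => side m ζ.1 :=
    continuous_side.comp (f := fun ζ : Circ => (m, ζ.1))
      (continuous_const.prodMk continuous_subtype_val)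
  have ne1 : ∀ {ζ : Circ}, 0 < side m ζ.1 → m.src ≠ ζ ∧ m.tgt ≠ ζ := fun {ζ} h =>
    ⟨fun e => by simp [← e] at h, fun e => by simp [← e] at h⟩
  have e1 := fun ζ h => ((hc.tendsto ξ).comp (h1 ζ h)).eventually (lt_mem_nhds hξ)
  have e2 := fun ζ h => ((hc.tendsto η).comp (h2 ζ h)).eventually (lt_mem_nhds hη)
  filter_upwards [e1 _ (ne1 hη).1, e1 _ (ne1 hη).2, e2 _ (ne1 hξ).1, e2 _ (ne1 hξ).2]
    with n a1 a2 a3 a4
  have key : ∀ ζ : Circ, 0 < side m (k⁻¹ ^ n • ζ).1 → side (k ^ n • m.rev) ζ.1 ≤ 0 := by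
    intro ζ h
    have := (side_smul_circ_neg (k ^ n) m.rev (k⁻¹ ^ n • ζ)).2 (by simpa using h)
    rw [inv_pow, smul_inv_smul] at this
    exact this.le
  refine (nest_iff_ends _ _).2 ⟨le_of_lt a2, le_of_lt a1, key _ a3, key _ a4, fun e => ?_⟩
  have h3 : k ^ n • m.tgt = m.tgt := congrArg Geo.src e
  have h4 : 0 < side m (k ^ n • m.tgt).1 := a2
  simp [h3] at h4

variable {Γ : Type*} [Group Γ] {ρ : Γ →* Isom} {N : ℝ → ℝ}

theorem GDense2_elt (hρ : Good ρ N) (m : Geo) :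
    ∃ k : Γ, ∀ᶠ n : ℕ in atTop, Nest (ρ k ^ n • m.rev) m ∧ Nest ((ρ k ^ n)⁻¹ • m.rev) m := by
  have hs : ∀ {ζ : Circ}, ζ ∈ arc m.tgt m.src → 0 < side m ζ.1 := fun h =>
    (side_pos_iff m _).2 (ccw.cyc (ccw.cyc h))
  have main : ∀ (k : Isom) (ξ η : Circ), ξ ∈ arc m.tgt m.src → η ∈ arc m.tgt m.src →
      (∀ ζ, ζ ≠ η → Tendsto (fun n : ℕ => k ^ n • ζ) atTop (𝓝 ξ)) →
      (∀ ζ, ζ ≠ ξ → Tendsto (fun n : ℕ => k⁻¹ ^ n • ζ) atTop (𝓝 η)) →
      ∀ᶠ n : ℕ in atTop, Nest (k ^ n • m.rev) m ∧ Nest ((k ^ n)⁻¹ • m.rev) m := by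
    intro k ξ η hξ hη h1 h2
    have := (GDense2_pp (hs hξ) (hs hη) h1 h2).and
      (GDense2_pp (k := k⁻¹) (hs hη) (hs hξ) h2 (by simpa using h1))
    simpa only [inv_pow] using this
  obtain ⟨g, hg, -⟩ := hρ.exists_fix_mem_arc m.ne
  rcases hρ.toDisc.hyp_or_par hg with h | h
  · obtain ⟨a, h1, h2⟩ := hρ.exists_smul_line_mem_arc m.ne.symm (ax (ρ g))
    have hk : Hyp (ρ (a * g * a⁻¹)) := by simpa using h.conj (ρ a)
    rw [← ax_conj' h] at h1 h2
    refine ⟨a * g * a⁻¹, main _ _ _ h2 h1 (fun ζ hζ => hk.tendsto_pow hζ) fun ζ hζ => ?_⟩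
    have := hk.inv.tendsto_pow (ξ := ζ) (by rwa [hk.ax_inv])
    rwa [hk.ax_inv] at this
  · obtain ⟨a, h1⟩ := hρ.exists_smul_mem_arc m.ne.symm (pfix (ρ g))
    obtain ⟨hk, e⟩ := h.conj (ρ a)
    rw [← e] at h1
    have e2 : ρ (a * g * a⁻¹) = ρ a * ρ g * (ρ a)⁻¹ := by simp
    refine ⟨a * g * a⁻¹, ?_⟩
    rw [e2]
    refine main _ _ _ h1 h1 (fun ζ _ => hk.tendsto_pow ζ) fun ζ _ => ?_
    have := hk.inv.1.tendsto_pow ζ
    rwa [hk.inv.2] at this

theorem Good.exists_hyp_arcs (hρ : Good ρ N) {a b c d : Circ} (hab : a ≠ b) (hcd : c ≠ d)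
    (hd : Disjoint (arc a b) (arc c d)) :
    ∃ g : Γ, Hyp (ρ g) ∧ (ax (ρ g)).src ∈ arc a b ∧ (ax (ρ g)).tgt ∈ arc c d := by
  have sub : ∀ {a b : Circ}, a ≠ b → ∃ m : Geo, ∀ ξ : Circ, 0 ≤ side m ξ.1 → ξ ∈ arc a b := by
    intro a b hab
    obtain ⟨x, hx⟩ := arc_nonempty hab
    obtain ⟨a', b', h1, h2⟩ := exists_arc_subset ((isOpen_arc a b).mem_nhds hx)
    refine ⟨Geo.mk' b' a' h1.ne13.symm, fun ξ h => h2 fun h3 => ?_⟩
    exact absurd ((side_neg_iff (Geo.mk' b' a' h1.ne13.symm) ξ).2 h3.cyc) h.not_gt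
  obtain ⟨m, hm⟩ := sub hab
  obtain ⟨l, hl⟩ := sub hcd
  have hd' : ∀ ξ : Circ, 0 ≤ side l ξ.1 → side m ξ.1 < 0 := fun ξ h =>
    lt_of_not_ge fun h' => Set.disjoint_left.1 hd (hm ξ h') (hl ξ h)
  have n1 : Nest l m.rev := (nest_iff_circ _ _).2 fun ξ h => by simpa using hd' ξ h.le
  have n2 : Nest m l.rev := by simpa using n1.rev
  obtain ⟨k, hk⟩ := GDense2_elt hρ m
  obtain ⟨k', hk'⟩ := GDense2_elt hρ l
  obtain ⟨n, ⟨a1, a2⟩, a3, a4⟩ := (hk.and hk').exists
  have e : ρ (k' ^ n * k ^ n) = ρ k' ^ n * ρ k ^ n := by simp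
  have b1 : Nest ((ρ k' ^ n * ρ k ^ n) • m.rev) l := by
    rw [mul_smul]
    exact ((nest_smul _).2 (a1.trans n2)).trans a3
  have b2 : Nest ((ρ k' ^ n * ρ k ^ n)⁻¹ • l.rev) m := by
    rw [mul_inv_rev, mul_smul]
    exact ((nest_smul _).2 (a4.trans n1)).trans a2
  obtain ⟨c1, c2, c3⟩ := hyp_of_two_arcs (((nest_smul _).2 n1).trans b1)
    (((nest_smul _).2 n2).trans b2) hd' fun h1 => by
      rw [h1, one_smul] at b1
      have h2 := hd' l.src (by simp)
      rw [n1.antisymm b1] at h2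
      simp at h2
  exact ⟨k' ^ n * k ^ n, e ▸ c1, e ▸ hm _ c3, e ▸ hl _ c2⟩

theorem Good.exists_hyp_cross (hρ : Good ρ N) (l : Geo) :
    ∃ g : Γ, Hyp (ρ g) ∧ Prim g ∧ Cross l (ax (ρ g)) := by
  obtain ⟨g, h1, h2, h3⟩ := hρ.exists_hyp_arcs l.ne l.ne.symm
    (Set.disjoint_left.2 fun ξ h h' => ccw.asymm h (ccw.cyc (ccw.cyc h')))
  obtain ⟨k, n, hn, rfl, h4, h5⟩ := hρ.toDisc.exists_root h1
  rw [map_pow, (h5.pow hn).2.1] at h2 h3
  exact ⟨k, h5, h4, (cross_iff_ccw _ _).2 (Or.inl ⟨h2, h3⟩)⟩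

/-- A point of a line of a system that is far from all lines of the system on its left. -/
theorem GDense2_far {L : Set Geo} (hL : Sys ρ L) {l : Geo} :
    ∃ t : ℝ, ∀ m ∈ L, Nest m l → m ≠ l → side m (pt l t).1 ≤ -(1 / 2) := by
  by_contra! H
  have neg : ∀ (m : Geo) (t : ℝ), Nest m l → m ≠ l → side m (pt l t).1 < 0 := fun m t h h' => by
    simpa using GDense2_lt' h h' (p := pt l t) (by simp)
  have ex : ∀ t : ℝ, ∃ m, (m ∈ L ∧ Nest m l ∧ m ≠ l ∧
      ∀ m' ∈ L, Nest m m' → Nest m' l → m' ≠ l → m = m') ∧ -(1 / 2) < side m (pt l t).1 := by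
    intro t
    have hf : {m | m ∈ L ∧ Nest m l ∧ m ≠ l ∧ -(1 / 2) < side m (pt l t).1}.Finite := by
      refine (hL.fin (pt l t) (1 / 2)).subset fun m hm => ⟨hm.1, ?_⟩
      rw [abs_le]
      exact ⟨hm.2.2.2.le, by linarith [neg m t hm.2.1 hm.2.2.1]⟩
    obtain ⟨m, ⟨h1, h2, h3, h4⟩, h5⟩ := hf.exists_maximalFor (fun m => side m (pt l t).1) _
      (H t)
    refine ⟨m, ⟨h1, h2, h3, fun m' a1 a2 a3 a4 => ?_⟩, h4⟩
    by_contra hne
    have h6 := GDense2_lt a2 hne (neg m t h2 h3).le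
    exact absurd (h5 ⟨a1, a3, a4, h4.trans h6⟩ h6.le) h6.not_ge
  choose μ hμ hμ' using ex
  have uniq : ∀ s t : ℝ, -(1 / 2) < side (μ s) (pt l t).1 → μ s = μ t := by
    intro s t h
    obtain ⟨a1, a2, a3, a4⟩ := hμ s
    obtain ⟨b1, b2, b3, b4⟩ := hμ t
    have c1 := neg _ t a2 a3
    have c2 := neg _ t b2 b3
    rcases nest_cases (hL.nc _ a1 _ b1) with h1 | h1 | h1 | h1
    · exact a4 _ b1 h1 b2 b3
    · exact (b4 _ a1 h1 a2 a3).symm
    · have h2 := three_lines (a := l) (b := (μ s).rev) (c := (μ t).rev) a2.rev h1 b2.rev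
        (p := pt l t) (by simp) (by simpa using c1.le) (by simpa using c2.le)
      have h3 : (1 : ℝ) ≤ √3 := Real.one_le_sqrt.2 (by norm_num)
      simp only [side_pt, side_rev] at h2
      linarith [hμ' t]
    · have := (h1.trans b2) (pt l t) (by simpa using c1)
      simp at this
  have lc : IsLocallyConstant μ := by
    rw [IsLocallyConstant.iff_eventually_eq]
    intro s
    have hc : Continuous fun t : ℝ => side (μ s) (pt l t).1 :=
      continuous_side.comp (f := fun t : ℝ => (μ s, (pt l t).1))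
        (continuous_const.prodMk (continuous_subtype_val.comp
          (continuous_pt.comp (f := fun t : ℝ => (l, t)) (continuous_const.prodMk continuous_id))))
    filter_upwards [hc.continuousAt.eventually (lt_mem_nhds (hμ' s))] with t ht
    exact (uniq s t ht).symm
  have bd : ∀ t, -(1 / 2) < side (μ 0) (pt l t).1 := fun t => by
    rw [lc.apply_eq_of_preconnectedSpace 0 t]
    exact hμ' t
  obtain ⟨-, a2, a3, -⟩ := hμ 0
  obtain ⟨-, -, c1, c2, -⟩ := (nest_iff_ends _ _).1 a2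
  have c3 := neg _ 0 a2 a3
  simp only [side_pt_eq] at bd c3
  have hκ : 0 < (√(-2 * B l.src.1 l.tgt.1))⁻¹ :=
    inv_pos.2 (Real.sqrt_pos.2 (by linarith [l.B_neg]))
  generalize (√(-2 * B l.src.1 l.tgt.1))⁻¹ = κ at bd c3 hκ
  generalize side (μ 0) l.src.1 = A at bd c3 c1
  generalize side (μ 0) l.tgt.1 = C at bd c3 c2
  have key : ∀ X : ℝ, X ≤ 0 → (∀ t, -(1 / 2) < κ * (exp t * X)) → X = 0 := by
    intro X h0 h
    by_contra hne
    have h1 : 0 < κ * -X := mul_pos hκ (neg_pos.2 (lt_of_le_of_ne h0 hne))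
    have h2 := h (log (κ * -X)⁻¹)
    rw [exp_log (inv_pos.2 h1)] at h2
    have h3 : κ * ((κ * -X)⁻¹ * X) = -1 := by
      have := hκ.ne'
      field_simp
    linarith
  have hA := key A c1 fun t => by
    have h1 := bd (-t)
    have h2 : κ * (exp (-t) * C) ≤ 0 :=
      mul_nonpos_of_nonneg_of_nonpos hκ.le (mul_nonpos_of_nonneg_of_nonpos (exp_pos _).le c2)
    rw [neg_neg, mul_add] at h1
    linarith
  have hC := key C c2 fun t => by
    have h1 := bd t
    rw [hA, mul_zero, zero_add] at h1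
    exact h1
  simp [hA, hC] at c3

theorem GDense2_pt {L : Set Geo} (hL : Sys ρ L) {l : Geo} (hl : l ∈ L) :
    ∃ (t : ℝ) (y : Pt), dist y (pt l t) = arsinh (1 / 2) / 2 ∧
      arsinh (side l y.1) = arsinh (1 / 2) / 2 ∧
      ∀ m ∈ L, arsinh (1 / 2) / 2 ≤ |arsinh (side m y.1)| := by
  obtain ⟨t, ht⟩ := GDense2_far hL (l := l)
  have hδ : 0 < arsinh (1 / 2) := arsinh_pos_iff.2 (by norm_num)
  set δ := arsinh (1 / 2) with hδd
  have h1 : dist (fermi l t (δ / 2)) (pt l t) = δ / 2 := by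
    rw [dist_fermi_pt, abs_of_pos (half_pos hδ)]
  have h2 : arsinh (side l (fermi l t (δ / 2)).1) = δ / 2 := by simp
  refine ⟨t, fermi l t (δ / 2), h1, h2, ?_⟩
  generalize fermi l t (δ / 2) = y at h1 h2
  have h3 : 0 < side l y.1 := arsinh_pos_iff.1 (h2 ▸ half_pos hδ)
  have left : ∀ m ∈ L, Nest m l → δ / 2 ≤ |arsinh (side m y.1)| := by
    intro m hm hn
    by_cases e : m = l
    · rw [e, h2]
      exact le_abs_self _
    · have h4 := arsinh_le_arsinh.2 (ht m hm hn e)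
      rw [arsinh_neg] at h4
      have h5 := abs_arsinh_side_le m y (pt l t)
      linarith [le_abs_self (arsinh (side m y.1) - arsinh (side m (pt l t).1)),
        neg_le_abs (arsinh (side m y.1))]
  have right : ∀ m, Nest l m → δ / 2 ≤ |arsinh (side m y.1)| := by
    intro m hn
    by_cases e : l = m
    · rw [← e, h2]
      exact le_abs_self _
    · have h4 := arsinh_le_arsinh.2 (GDense2_lt' hn e (hn y h3).le).le
      linarith [le_abs_self (arsinh (side m y.1))]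
  intro m hm
  rcases nest_cases (hL.nc _ hm _ hl) with h | h | h | h
  · exact left m hm h
  · exact right m h
  · simpa [arsinh_neg] using right m.rev (by simpa using h.rev)
  · simpa [arsinh_neg] using left m.rev (hL.rev m hm) h

theorem Good.exists_multi_bound (hρ : Good ρ N) :
    ∃ ξ : ℕ, ∀ (ι : Type) [Fintype ι] (R : ι → Γ), Multi ρ R → Fintype.card ι ≤ ξ := by
  classical
  have hδ : 0 < arsinh (1 / 2) := arsinh_pos_iff.2 (by norm_num)
  set δ := arsinh (1 / 2) with hδd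
  obtain ⟨C, hC⟩ := hρ.exists_core_simple
  obtain ⟨η, hη, hη'⟩ := hρ.toDisc.exists_inj o (C + δ / 2)
  obtain ⟨s, -, hs⟩ := hρ.exists_net (lt_min hη (show 0 < δ / 4 by positivity))
  refine ⟨2 * s.card, fun ι _ R hR => ?_⟩
  have hL := hR.sys hρ.toDisc
  have ex : ∀ i, ∃ q ∈ s, ∃ (l : Geo) (y : Pt), l ∈ lifts ρ (fun _ : Unit => R i) ∧
      arsinh (side l y.1) = δ / 2 ∧ (∀ m ∈ lifts ρ R, δ / 2 ≤ |arsinh (side m y.1)|) ∧
      dist y q < δ / 4 := by
    intro i
    obtain ⟨t, y, h1, h2, h3⟩ := GDense2_pt hL (l := ax (ρ (R i))) ⟨i, 1, Or.inl (by simp)⟩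
    obtain ⟨g, hg⟩ := hC _ (hR.1 i) t
    have h4 : Thick ρ (min η (δ / 4)) ((ρ g)⁻¹ • y) := fun γ hγ => by
      refine (min_le_left _ _).trans (hη' _ ?_ γ hγ)
      rw [← dist_smul (ρ g), smul_inv_smul]
      linarith [dist_triangle_right (ρ g • o) y (pt (ax (ρ (R i))) t)]
    obtain ⟨q, hq, k, hk⟩ := hs _ h4
    refine ⟨q, hq, ρ (g * k)⁻¹ • ax (ρ (R i)), ρ (g * k)⁻¹ • y, ⟨(), _, Or.inl rfl⟩, ?_,
      fun m hm => ?_, ?_⟩
    · rw [side_smul_pt, h2]
    · have := h3 _ (hL.smul (g * k) m hm)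
      rwa [← side_smul_pt (ρ (g * k)⁻¹), map_inv, inv_smul_smul, ← map_inv] at this
    · refine lt_of_eq_of_lt ?_ (hk.trans_le (min_le_right _ _))
      rw [← dist_smul (ρ k), map_inv, map_mul, mul_inv_rev, mul_smul, smul_inv_smul]
  choose q hq l y h1 h2 h3 h4 using ex
  have mem : ∀ i, l i ∈ lifts ρ R := fun i => by
    obtain ⟨_, g, hg⟩ := h1 i
    exact ⟨i, g, hg⟩
  have near : ∀ i j, q i = q j → 0 < side (l i) (y j).1 := fun i j e => by
    have a1 := abs_arsinh_side_le (l i) (y i) (y j)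
    have a2 := dist_triangle_right (y i) (y j) (q i)
    have a3 := h4 j
    rw [← e] at a3
    rw [← arsinh_pos_iff]
    linarith [le_abs_self (arsinh (side (l i) (y i).1) - arsinh (side (l i) (y j).1)), h2 i, h4 i]
  have nn : ∀ i j, i ≠ j → q i = q j → ¬ Nest (l i) (l j) := fun i j hij e hn => by
    have a1 := GDense2_lt' hn (fun e' => hij (hR.label_unique hρ.toDisc (h1 i) (e' ▸ h1 j)))
      (near j j rfl).le
    have a2 := h3 j _ (mem i)
    rw [abs_of_pos (arsinh_pos_iff.2 (near i j e)), ← h2 j] at a2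
    exact absurd (arsinh_lt_arsinh.2 a1) a2.not_gt
  have nest : ∀ i j, i ≠ j → q i = q j → Nest (l i).rev (l j) := fun i j hij e => by
    rcases nest_cases (hL.nc _ (mem i) _ (mem j)) with h | h | h | h
    · exact absurd h (nn i j hij e)
    · exact absurd h (nn j i hij.symm e.symm)
    · have := h _ (near i i rfl)
      rw [side_rev] at this
      linarith [near j i e.symm]
    · exact h
  have bd : ∀ i, 0 ≤ side (l i) (q i).1 ∧ side (l i) (q i).1 ≤ 1 / 2 := fun i => by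
    have a1 := abs_le.1 (abs_arsinh_side_le (l i) (y i) (q i))
    refine ⟨arsinh_nonneg_iff.1 ?_, arsinh_le_arsinh.1 ?_⟩ <;> linarith [a1.1, a1.2, h2 i, h4 i]
  refine Finset.card_le_mul_card_image_of_maps_to (f := q) (fun i _ => hq i) 2 fun b _ => ?_
  by_contra! H
  obtain ⟨i, j, k, hi, hj, hk, hij, hik, hjk⟩ := Finset.two_lt_card_iff.1 H
  rw [Finset.mem_filter] at hi hj hk
  have a1 := bd i
  have a2 := bd j
  have a3 := bd k
  rw [hi.2] at a1
  rw [hj.2] at a2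
  rw [hk.2] at a3
  have a4 := three_lines (nest i j hij (hi.2.trans hj.2.symm)) (nest j k hjk (hj.2.trans hk.2.symm))
    (nest i k hik (hi.2.trans hk.2.symm)) a1.1 a2.1 a3.1
  have a5 : (3 / 2 : ℝ) < √3 := Real.lt_sqrt_of_sq_lt (by norm_num)
  linarith [a1.2, a2.2, a3.2]

end HRT
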