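import Pool.Agent.Work.MP_35beee_gt.GQuat

-- merged part: Pool.Agent.Work.MP_35beee_gt.GTrans
section
/-!
Translations along a line.
See the header of `GQuat` for the plan.
-/

namespace HRT

open Matrix Set Filter Topology Real

/-- The translation by `t` along `l`. -/
noncomputable def trans (l : Geo) (t : ℝ) : Isom :=
  (exists_isom_line l l 0 t).choose

theorem trans_smul (l : Geo) (t : ℝ) : trans l t • l = l := (exists_isom_line l l 0 t).choose_spec.1

theorem sh_trans (l : Geo) (t : ℝ) : sh (trans l t) l = t := by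
  have h : trans l t • pt l 0 = pt l t := (exists_isom_line l l 0 t).choose_spec.2
  unfold sh
  rw [trans_smul, h, fer_pt]

theorem GTrans_sh_one (l : Geo) : sh 1 l = 0 := by
  unfold sh
  rw [one_smul, one_smul, fer_pt]

theorem GTrans_sh_inv (g : Isom) (l : Geo) : sh g⁻¹ (g • l) = -sh g l := by
  have h := sh_mul g⁻¹ g l
  rw [inv_mul_cancel, GTrans_sh_one] at h
  linarith

theorem GTrans_uniq {g h : Isom} {l : Geo} (hg : g • l = l) (hh : h • l = l)
    (hs : sh g l = sh h l) : g = h := by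
  have h1 : h⁻¹ • l = l := by
    conv_lhs => rw [← hh]
    rw [inv_smul_smul]
  have h2 : (h⁻¹ * g) • l = l := by rw [mul_smul, hg, h1]
  have h3 : sh h⁻¹ l = -sh h l := by
    have := GTrans_sh_inv h l
    rwa [hh] at this
  have h4 : sh (h⁻¹ * g) l = 0 := by
    rw [sh_mul, hg, h3, hs]; ring
  have h5 := eq_one_of_sh_eq_zero h2 h4
  rw [inv_mul_eq_one] at h5
  exact h5.symm

theorem GTrans_sh_rev {g : Isom} {l : Geo} (hg : g • l = l) : sh g l.rev = -sh g l := by
  have h1 : g • pt l.rev 0 = pt l.rev (-sh g l) := by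
    rw [pt_rev, pt_rev, neg_zero, neg_neg, smul_pt, hg, zero_add]
  have h2 : g • l.rev = l.rev := by rw [Geo.smul_rev, hg]
  conv_lhs => unfold sh
  rw [h2, h1, fer_pt]

theorem trans_add (l : Geo) (s t : ℝ) : trans l (s + t) = trans l s * trans l t := by
  refine GTrans_uniq (trans_smul l _) (by rw [mul_smul, trans_smul, trans_smul]) ?_
  rw [sh_mul, trans_smul, sh_trans, sh_trans, sh_trans]

theorem trans_zero (l : Geo) : trans l 0 = 1 :=
  eq_one_of_sh_eq_zero (trans_smul l 0) (sh_trans l 0)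

theorem trans_rev (l : Geo) (t : ℝ) : trans l.rev t = trans l (-t) := by
  refine GTrans_uniq (trans_smul l.rev t) (by rw [Geo.smul_rev, trans_smul]) ?_
  rw [sh_trans, GTrans_sh_rev (trans_smul l (-t)), sh_trans, neg_neg]

theorem GTrans_isLift_pos (l : Geo) {t : ℝ} (ht : 0 < t) :
    IsLift (trans l t) (cosh (t / 2)) (sinh (t / 2) • nrm l) := by
  obtain ⟨h1, h2⟩ := ax_eq_of_sh_pos (trans_smul l t) (by rw [sh_trans]; exact ht)
  have h3 : tl (trans l t) = t := by rw [← h1.sh_ax, h2, sh_trans]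
  have h4 := h1.isLift
  rwa [h2, h3] at h4

theorem trans_isLift (l : Geo) (t : ℝ) :
    IsLift (trans l t) (cosh (t / 2)) (sinh (t / 2) • nrm l) := by
  rcases lt_trichotomy t 0 with h | h | h
  · have h1 := GTrans_isLift_pos l.rev (neg_pos.mpr h)
    rw [trans_rev, neg_neg, nrm_rev, neg_div, cosh_neg, sinh_neg, neg_smul, smul_neg,
      neg_neg] at h1
    exact h1
  · subst h
    rw [trans_zero, zero_div, cosh_zero, sinh_zero, zero_smul]
    exact isLift_one
  · exact GTrans_isLift_pos l h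

theorem trans_conj (g : Isom) (l : Geo) (t : ℝ) : trans (g • l) t = g * trans l t * g⁻¹ := by
  refine GTrans_uniq (trans_smul _ t)
    (by rw [mul_smul, mul_smul, inv_smul_smul, trans_smul]) ?_
  rw [sh_trans, sh_mul, inv_smul_smul, sh_mul, trans_smul, sh_trans, GTrans_sh_inv]
  ring

theorem eq_trans_of_smul_eq {g : Isom} {l : Geo} (h : g • l = l) : g = trans l (sh g l) :=
  GTrans_uniq h (trans_smul l _) (sh_trans l _).symm

theorem continuous_trans : Continuous fun x : Geo × ℝ => trans x.1 x.2 := by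
  rw [continuous_iff_continuousAt]
  intro a
  refine tendsto_isom_iff.mpr fun v => ?_
  have h : ∀ x : Geo × ℝ, lin (trans x.1 x.2) v =
      qm (cosh (x.2 / 2)) (sinh (x.2 / 2) • nrm x.1) v := fun x => (trans_isLift x.1 x.2).2 v
  simp only [h]
  have hc : Continuous fun x : Geo × ℝ => cosh (x.2 / 2) := by fun_prop
  have hu : Continuous fun x : Geo × ℝ => sinh (x.2 / 2) • nrm x.1 :=
    (by fun_prop : Continuous fun x : Geo × ℝ => sinh (x.2 / 2)).smul
      (continuous_nrm.comp continuous_fst)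
  have hq : Continuous fun x : Geo × ℝ =>
      qm (cosh (x.2 / 2)) (sinh (x.2 / 2) • nrm x.1) v := by
    unfold qm
    refine (((hc.pow 2).add (hu.B' hu)).smul continuous_const).add
      ((continuous_const.mul hc).smul
        (continuous_cr.comp (hu.prodMk continuous_const))) |>.sub ?_
    exact (continuous_const.mul (hu.B' continuous_const)).smul hu
  exact hq.continuousAt

end HRT
end

-- merged part: Pool.Agent.Work.MP_35beee_gt.GStrip
section
-- merged part: Pool.Agent.Work.MP_35beee_gt.GDist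
section
/-!
Distance of lines, projections, visual size, twisting of a line across another one, lengths of
segments crossing a strip.

Plan. See the header of `GCross`. For `exit_proj`: a boundary point `ξ` seen from a point `p` at
distance `r` from `A` such that the ray from `p` to `ξ` moves away from `A`:
`cosh (fer ξ - fer p) ≤ coth r` (write `p = fermi`, `ξ` by `circ_eq`; the derivative of the signed
distance along the ray has the sign of `side A ξ + (B p ξ) * side A p`); here it is phrased for a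
line `l` crossing `A`: with crossing angle `θ`, at distance `u` from the crossing point
`sinh r = sinh u * sin θ`, `tanh (fer - xp) = tanh u * cos θ`, and `tanh (twist/2) = ± cos θ`.
-/

namespace HRT

open Matrix Set Filter Topology Real

/-- Distance of two non-crossing lines. -/
noncomputable def ldist (l m : Geo) : ℝ := arcosh |B (nrm l) (nrm m)|

theorem ldist_comm (l m : Geo) : ldist l m = ldist m l := by rw [ldist, ldist, B_comm]
@[simp] theorem ldist_rev_left (l m : Geo) : ldist l.rev m = ldist l m := by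
  rw [ldist, ldist, nrm_rev, B_neg_left, abs_neg]
@[simp] theorem ldist_rev_right (l m : Geo) : ldist l m.rev = ldist l m := by
  rw [ldist, ldist, nrm_rev, B_neg_right, abs_neg]
@[simp] theorem ldist_smul (g : Isom) (l m : Geo) : ldist (g • l) (g • m) = ldist l m := by
  rw [ldist, ldist, nrm_smul, nrm_smul, B_lin]
theorem ldist_nonneg {l m : Geo} (h : ¬ Cross l m) : 0 ≤ ldist l m := by
  rw [cross_iff_abs_B, not_lt] at h
  exact arcosh_nonneg h
theorem cosh_ldist {l m : Geo} (h : ¬ Cross l m) : cosh (ldist l m) = |B (nrm l) (nrm m)| := by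
  rw [cross_iff_abs_B, not_lt] at h
  exact cosh_arcosh h

theorem GDist_B (m : Geo) (u v : V) :
    B u v = B u m.tgt.1 / B m.src.1 m.tgt.1 * B m.src.1 v +
      B u m.src.1 / B m.src.1 m.tgt.1 * B m.tgt.1 v + side m u * side m v := by
  conv_lhs => rw [expand m u]
  rw [B_add_left, B_add_left, B_smul_left, B_smul_left, B_smul_left]
  rfl

theorem GDist_sinh_sq {l m : Geo} (h : ¬ Cross l m) :
    sinh (ldist l m) ^ 2 * -B m.src.1 m.tgt.1 = 2 * (side l m.src.1 * side l m.tgt.1) := by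
  have h1 := GDist_B m (nrm l) (nrm l)
  have h2 := m.B_neg.ne
  rw [B_nrm_nrm, B_comm m.src.1 (nrm l), B_comm m.tgt.1 (nrm l), side, B_comm (nrm m)] at h1
  rw [sinh_sq, cosh_ldist h, sq_abs]
  unfold side
  field_simp at h1
  linear_combination h1

theorem GDist_side_sq (l m : Geo) (t : ℝ) : side l (pt m t).1 ^ 2 * (2 * -B m.src.1 m.tgt.1) =
    (exp (-t) * side l m.src.1 + exp t * side l m.tgt.1) ^ 2 := by
  have h := m.B_neg
  rw [side_pt_eq, mul_pow, inv_pow, sq_sqrt (by linarith)]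
  field_simp [h.ne]

theorem GDist_le {l m : Geo} (h : ¬ Cross l m) {q : Pt} (hq : side m q.1 = 0) :
    ldist l m ≤ |arsinh (side l q.1)| := by
  rw [← sinh_le_sinh, ← abs_sinh, sinh_arsinh, ← eq_pt_of_side hq]
  refine (le_abs_self _).trans (sq_le_sq.1 ?_)
  have h1 := GDist_sinh_sq h
  have h2 := GDist_side_sq l m (fer m q.1)
  have h3 : exp (-fer m q.1) * exp (fer m q.1) = 1 := by rw [← exp_add, neg_add_cancel, exp_zero]
  refine le_of_mul_le_mul_right ?_ (show 0 < 2 * -B m.src.1 m.tgt.1 by linarith [m.B_neg])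
  have h4 := sq_nonneg (exp (-fer m q.1) * side l m.src.1 - exp (fer m q.1) * side l m.tgt.1)
  rw [h2]
  linear_combination 2 * h1 + h4 - 4 * (side l m.src.1 * side l m.tgt.1) * h3

theorem GDist_pos {l m : Geo} (h : 0 < side l m.src.1 * side l m.tgt.1) : 0 < ldist l m := by
  have hc : ¬ Cross l m := not_lt.2 h.le
  refine (ldist_nonneg hc).lt_of_ne fun h1 => ?_
  have h2 := GDist_sinh_sq hc
  rw [← h1, sinh_zero] at h2
  linarith

theorem GDist_min {l m : Geo} (h : 0 < side l m.src.1 * side l m.tgt.1) :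
    ∃ t, exp (-t) * side l m.src.1 = exp t * side l m.tgt.1 ∧
      |arsinh (side l (pt m t).1)| = ldist l m := by
  have hc : ¬ Cross l m := not_lt.2 h.le
  have h0 : 0 < side l m.src.1 / side l m.tgt.1 := div_pos_iff.2 (mul_pos_iff.1 h)
  obtain ⟨t, ht⟩ : ∃ t, exp t * exp t = side l m.src.1 / side l m.tgt.1 :=
    ⟨log (side l m.src.1 / side l m.tgt.1) / 2, by rw [← exp_add, add_halves, exp_log h0]⟩
  have h3 : exp (-t) * exp t = 1 := by rw [← exp_add, neg_add_cancel, exp_zero]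
  rw [eq_div_iff (right_ne_zero_of_mul h.ne')] at ht
  have h1 : exp (-t) * side l m.src.1 = exp t * side l m.tgt.1 := by
    linear_combination -exp (-t) * ht + exp t * side l m.tgt.1 * h3
  refine ⟨t, h1, sinh_injective ?_⟩
  rw [← abs_sinh, sinh_arsinh, ← abs_of_nonneg (sinh_nonneg_iff.2 (ldist_nonneg hc)),
    ← sq_eq_sq_iff_abs_eq_abs]
  refine mul_right_cancel₀ (show 0 < 2 * -B m.src.1 m.tgt.1 by linarith [m.B_neg]).ne' ?_
  rw [GDist_side_sq, h1]
  linear_combination -2 * GDist_sinh_sq hc + 4 * side l m.tgt.1 * ht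

theorem GDist_mediant {a b c d s t : ℝ} (hb : b < 0) (hd : d < 0) (hs : 0 ≤ s) (ht : 0 ≤ t)
    (hst : 0 < s + t) (h : a / b ≤ c / d) :
    a / b ≤ (s * a + t * c) / (s * b + t * d) ∧ (s * a + t * c) / (s * b + t * d) ≤ c / d := by
  have h1 : s * b + t * d < 0 := by
    rcases hs.eq_or_lt with e | e
    · rw [← e, zero_add] at hst
      rw [← e, zero_mul, zero_add]
      exact mul_neg_of_pos_of_neg hst hd
    · linarith [mul_neg_of_pos_of_neg e hb, mul_nonpos_of_nonneg_of_nonpos ht hd.le]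
  have h2 : a = a / b * b := (div_mul_cancel₀ a hb.ne).symm
  have h3 : c = c / d * d := (div_mul_cancel₀ c hd.ne).symm
  generalize a / b = x at h h2 ⊢
  generalize c / d = y at h h3 ⊢
  rw [le_div_iff_of_neg h1, div_le_iff_of_neg h1, h2, h3]
  have h4 := mul_nonneg (mul_nonneg ht (neg_nonneg.2 hd.le)) (sub_nonneg.2 h)
  have h5 := mul_nonneg (mul_nonneg hs (neg_nonneg.2 hb.le)) (sub_nonneg.2 h)
  constructor <;> linarith

theorem GDist_fer (l : Geo) {u v : V} (h1 : B u l.src.1 < 0) (h2 : B u l.tgt.1 < 0)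
    (h3 : B v l.src.1 < 0) (h4 : B v l.tgt.1 < 0) {s t : ℝ} (hs : 0 ≤ s) (ht : 0 ≤ t)
    (hst : 0 < s + t) : fer l (s • u + t • v) ∈ uIcc (fer l u) (fer l v) := by
  have h5 := div_pos_of_neg_of_neg h1 h2
  have h6 := div_pos_of_neg_of_neg h3 h4
  simp only [fer, B_add_left, B_smul_left]
  rcases le_total (B u l.src.1 / B u l.tgt.1) (B v l.src.1 / B v l.tgt.1) with h | h
  · obtain ⟨h7, h8⟩ := GDist_mediant h2 h4 hs ht hst h
    exact mem_uIcc.2 (Or.inl ⟨by linarith [log_le_log h5 h7],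
      by linarith [log_le_log (h5.trans_le h7) h8]⟩)
  · obtain ⟨h7, h8⟩ := GDist_mediant h4 h2 ht hs (by linarith) h
    rw [add_comm (t * _), add_comm (t * _)] at h7 h8
    exact mem_uIcc.2 (Or.inr ⟨by linarith [log_le_log h6 h7],
      by linarith [log_le_log (h6.trans_le h7) h8]⟩)

theorem GDist_fer_on {l m : Geo} (h1 : side l m.src.1 ≠ 0) (h2 : side l m.tgt.1 ≠ 0) {u : V}
    (hu : Fut u) (h0 : side m u = 0) : fer l u ∈ uIcc (fer l m.src.1) (fer l m.tgt.1) := by
  have h3 := expand m u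
  rw [h0, zero_smul, add_zero] at h3
  rw [ne_eq, side_eq_zero_iff, not_or] at h1 h2
  have h4 := congrFun h3 2
  rw [Pi.add_apply, Pi.smul_apply, Pi.smul_apply, m.src.2.2, m.tgt.2.2, smul_eq_mul, smul_eq_mul,
    mul_one, mul_one] at h4
  rw [h3]
  exact GDist_fer l (B_circ_neg h1.1) (B_circ_neg h1.2) (B_circ_neg h2.1) (B_circ_neg h2.2)
    (div_nonneg_of_nonpos (hu.B_nonpos m.tgt.fut) m.B_neg.le)
    (div_nonneg_of_nonpos (hu.B_nonpos m.src.fut) m.B_neg.le) (h4 ▸ hu.2)

theorem ldist_le {l m : Geo} (h : ¬ Cross l m) {p q : Pt} (hp : side l p.1 = 0)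
    (hq : side m q.1 = 0) : ldist l m ≤ dist p q := by
  have h1 := abs_arsinh_side_le l p q
  rw [hp, arsinh_zero, zero_sub, abs_neg] at h1
  exact (GDist_le h hq).trans h1
theorem ldist_le_arsinh {l m : Geo} (h : ¬ Cross l m) {q : Pt} (hq : side m q.1 = 0) :
    ldist l m ≤ |arsinh (side l q.1)| := by
  exact GDist_le h hq
theorem exists_dist_lt_ldist {l m : Geo} (h : ¬ Cross l m) {ε : ℝ} (hε : 0 < ε) :
    ∃ p q : Pt, side l p.1 = 0 ∧ side m q.1 = 0 ∧ dist p q < ldist l m + ε := by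
  have h0 := ldist_nonneg h
  suffices H : ∃ t, |arsinh (side l (pt m t).1)| < ldist l m + ε by
    obtain ⟨t, ht⟩ := H
    exact ⟨pt l (fer l (pt m t).1), pt m t, side_pt _ _, side_pt _ _, by
      rwa [dist_comm, dist_foot]⟩
  have h1 : ∀ (F : Filter ℝ) [F.NeBot], Tendsto (fun t => side l (pt m t).1) F (𝓝 0) →
      ∃ t, |arsinh (side l (pt m t).1)| < ldist l m + ε := fun F _ hF => by
    have h2 := hF.arsinh.abs
    rw [arsinh_zero, abs_zero] at h2
    exact (h2.eventually (gt_mem_nhds (by linarith))).exists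
  rcases (not_lt.1 h).eq_or_lt with h2 | h2
  · rcases mul_eq_zero.1 h2.symm with h3 | h3
    · refine h1 atBot ?_
      simp only [side_pt_eq, h3, mul_zero, zero_add]
      simpa using (tendsto_exp_atBot.mul_const (side l m.tgt.1)).const_mul
        (√(-2 * B m.src.1 m.tgt.1))⁻¹
    · refine h1 atTop ?_
      simp only [side_pt_eq, h3, mul_zero, add_zero]
      simpa using (tendsto_exp_neg_atTop_nhds_zero.mul_const (side l m.src.1)).const_mul
        (√(-2 * B m.src.1 m.tgt.1))⁻¹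
  · obtain ⟨t, -, ht⟩ := GDist_min h2
    exact ⟨t, by linarith⟩
/-- The common perpendicular. -/
theorem exists_perp {l m : Geo} (h : 0 < side l m.src.1 * side l m.tgt.1) :
    ∃ c : Geo, ∃ s : ℝ, side l (pt c s).1 = 0 ∧ side m (pt c (s + ldist l m)).1 = 0 ∧
      B (nrm c) (nrm l) = 0 ∧ B (nrm c) (nrm m) = 0 ∧ 0 < ldist l m := by
  have hc : ¬ Cross l m := not_lt.2 h.le
  have hd := GDist_pos h
  obtain ⟨t, h1, h2⟩ := GDist_min h
  have h3 : dist (pt l (fer l (pt m t).1)) (pt m t) = ldist l m := by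
    rw [dist_comm, dist_foot, h2]
  obtain ⟨c, s, h4, h5⟩ := exists_line_pt_pt (dist_pos.1 (h3 ▸ hd))
  rw [h3] at h5
  have h6 : side c (pt l (fer l (pt m t).1)).1 = 0 := by rw [← h4, side_pt]
  have h7 : side c (pt m t).1 = 0 := by rw [← h5, side_pt]
  have h8 : B (nrm c) (nrm l) = 0 := by
    have h9 := h7
    rw [← fermi_fer l (pt m t)] at h9
    change B (nrm c) (_ • _ + _ • _) = 0 at h9
    rw [B_add_right, B_smul_right, B_smul_right, show B (nrm c) _ = 0 from h6, mul_zero, zero_add,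
      sinh_arsinh] at h9
    refine (mul_eq_zero.1 h9).resolve_left fun h10 => ?_
    rw [h10, arsinh_zero, abs_zero] at h2
    exact hd.ne h2
  refine ⟨c, s, by rw [h4, side_pt], by rw [h5, side_pt], h8, ?_, hd⟩
  have h9 := GDist_B m (nrm l) (nrm c)
  have h10 : side m (nrm l) ≠ 0 := fun h11 => by
    have h12 := cosh_ldist hc
    rw [B_comm, show B (nrm m) (nrm l) = 0 from h11, abs_zero] at h12
    exact (cosh_pos _).ne' h12
  rw [side_pt_eq] at h7
  have h11 := (mul_eq_zero.1 h7).resolve_left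
    (inv_ne_zero (sqrt_pos.2 (by linarith [m.B_neg])).ne')
  have h12 : side l m.tgt.1 * side c m.src.1 + side l m.src.1 * side c m.tgt.1 = 0 := by
    refine mul_left_cancel₀ (exp_pos (-t)).ne' ?_
    linear_combination side l m.tgt.1 * h11 + side c m.tgt.1 * h1
  rw [B_comm (nrm l) (nrm c), h8, B_comm m.src.1 (nrm c), B_comm m.tgt.1 (nrm c)] at h9
  rw [B_comm]
  refine (mul_eq_zero.1 (?_ : side m (nrm l) * side m (nrm c) = 0)).resolve_left h10
  unfold side at h12 h9 ⊢
  linear_combination -h9 - (B m.src.1 m.tgt.1)⁻¹ * h12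
theorem proj_formula {l m : Geo} (h : 0 < side l m.src.1 * side l m.tgt.1) :
    sinh (|fer l m.src.1 - fer l m.tgt.1| / 2) * sinh (ldist l m) = 1 := by
  have hc : ¬ Cross l m := not_lt.2 h.le
  have h1 := GDist_sinh_sq hc
  have h2 : B m.src.1 m.tgt.1 = side l m.src.1 * side l m.tgt.1 *
      (1 - cosh (|fer l m.src.1 - fer l m.tgt.1|)) := by
    have h3 := cosh_dist (pt l (fer l m.src.1)) (pt l (fer l m.tgt.1))
    have h4 : B (nrm l) (pt l (fer l m.tgt.1)).1 = 0 := side_pt _ _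
    have h5 : B (pt l (fer l m.src.1)).1 (nrm l) = 0 := by
      rw [B_comm]
      exact side_pt _ _
    have h6 : |side l m.src.1| * |side l m.tgt.1| = side l m.src.1 * side l m.tgt.1 := by
      rw [← abs_mul, abs_of_pos h]
    rw [dist_pt] at h3
    conv_lhs => rw [circ_eq l (left_ne_zero_of_mul h.ne'), circ_eq l (right_ne_zero_of_mul h.ne')]
    simp only [B_add_left, B_add_right, B_smul_left, B_smul_right, h4, h5, B_nrm_nrm]
    rw [h3]
    linear_combination B (pt l (fer l m.src.1)).1 (pt l (fer l m.tgt.1)).1 * h6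
  generalize |fer l m.src.1 - fer l m.tgt.1| = x, abs_nonneg (fer l m.src.1 - fer l m.tgt.1) = hx
    at h2 ⊢
  have h3 : cosh x = 1 + 2 * sinh (x / 2) ^ 2 := by
    conv_lhs => rw [show x = 2 * (x / 2) by ring, cosh_two_mul, cosh_sq]
    ring
  have h4 : 0 ≤ sinh (x / 2) * sinh (ldist l m) :=
    mul_nonneg (sinh_nonneg_iff.2 (by linarith)) (sinh_nonneg_iff.2 (ldist_nonneg hc))
  refine (pow_eq_one_iff_of_nonneg h4 two_ne_zero).1 ?_
  refine mul_left_cancel₀ h.ne' ?_
  rw [h2, h3] at h1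
  linear_combination h1 / 2
theorem fer_mem_uIcc {l m : Geo} (h1 : side l m.src.1 ≠ 0) (h2 : side l m.tgt.1 ≠ 0) {p : Pt}
    (hp : side m p.1 = 0) : fer l p.1 ∈ uIcc (fer l m.src.1) (fer l m.tgt.1) := by
  exact GDist_fer_on h1 h2 p.fut hp
/-- Everything beyond `m`, seen from `l`, projects into the shadow of `m`. -/
theorem fer_mem_uIcc_of_nest {l m : Geo} (h : Nest m l) (h1 : side l m.src.1 ≠ 0)
    (h2 : side l m.tgt.1 ≠ 0) {v : V} (hv : Fut v) (hp : 0 ≤ side m v) :
    fer l v ∈ uIcc (fer l m.src.1) (fer l m.tgt.1) := by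
  obtain ⟨-, -, h3, h4, -⟩ := (nest_iff_ends m l).1 h
  have h5 : ∀ ξ : Circ, side l ξ.1 = 0 → side m ξ.1 ≤ 0 → side m ξ.1 < 0 ∧ B v ξ.1 < 0 :=
    fun ξ h6 h7 => by
      have h8 : side m ξ.1 < 0 := h7.lt_of_ne fun h9 => by
        rcases (side_eq_zero_iff m ξ).1 h9 with rfl | rfl
        exacts [h1 h6, h2 h6]
      refine ⟨h8, (hv.B_nonpos ξ.fut).lt_of_ne fun h9 => ?_⟩
      rw [hv.eq_smul_of_B_eq_zero ξ.fut h9, side, B_smul_right] at hp
      exact (mul_neg_of_pos_of_neg (div_pos hv.2 ξ.fut.2) h8).not_ge hp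
  obtain ⟨h6, h7⟩ := h5 _ (side_src l) h3
  obtain ⟨h8, h9⟩ := h5 _ (side_tgt l) h4
  have h10 : 0 < -side m (pt l (fer l v)).1 := by
    rw [side_pt_eq, neg_pos]
    exact mul_neg_of_pos_of_neg (inv_pos.2 (sqrt_pos.2 (by linarith [l.B_neg])))
      (add_neg (mul_neg_of_pos_of_neg (exp_pos _) h6) (mul_neg_of_pos_of_neg (exp_pos _) h8))
  have h11 := GDist_fer l (B_pt_circ_neg (pt l (fer l v)) _) (B_pt_circ_neg (pt l (fer l v)) _)
    h7 h9 hp h10.le (by linarith)
  rw [fer_pt, uIcc_self, mem_singleton_iff] at h11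
  rw [← h11]
  refine GDist_fer_on h1 h2 ?_ ?_
  · rcases hp.eq_or_lt with e | e
    · rw [← e, zero_smul, zero_add]
      exact hv.smul h10
    · exact ((pt l (fer l v)).fut.smul e).add (hv.smul h10)
  · unfold side
    rw [B_add_right, B_smul_right, B_smul_right]
    ring
theorem ldist_add_le {l m n : Geo} (h1 : Nest l m) (h2 : Nest m n) :
    ldist l m + ldist m n ≤ ldist l n := by
  refine le_of_forall_pos_lt_add fun ε hε => ?_
  obtain ⟨p, q, hp, hq, hd⟩ := exists_dist_lt_ldist (h1.trans h2).not_cross hε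
  obtain ⟨r, hr, h3⟩ := exists_mem_seg_B_eq_zero (p := q) (q := p) (n := nrm m)
    (not_lt.1 fun h => (h2 q h).ne' hq) (h1.nonneg p.fut hp.ge)
  have h4 := mem_seg_iff_dist.1 hr
  have h5 := ldist_le h1.not_cross hp h3
  have h6 := ldist_le h2.not_cross h3 hq
  rw [dist_comm q r, dist_comm r p, dist_comm q p] at h4
  linarith
theorem ldist_le_of_nest {l m : Geo} (h : Nest l m) {p q : Pt} (hp : 0 ≤ side l p.1)
    (hq : side m q.1 ≤ 0) : ldist l m ≤ dist p q := by
  obtain ⟨r, hr, h1⟩ := exists_mem_seg_B_eq_zero (p := q) (q := p) (n := nrm l)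
    (not_lt.1 fun h' => (h q h').not_ge hq) hp
  obtain ⟨s, hs, h2⟩ := exists_mem_seg_B_eq_zero (p := q) (q := r) (n := nrm m) hq
    (h.nonneg r.fut (ge_of_eq h1))
  have h3 := mem_seg_iff_dist.1 hr
  have h4 := mem_seg_iff_dist.1 hs
  have h5 := ldist_le h.not_cross h1 h2
  rw [dist_comm r s] at h5
  rw [dist_comm p q]
  linarith [dist_nonneg (x := q) (y := s), dist_nonneg (x := r) (y := p)]

end HRT
end

-- merged part: Pool.Agent.Work.MP_35beee_gt.GStrip
section
/-!
Visual size, twisting, crossing a strip.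
See the header of `GDist` for the plan.
-/

namespace HRT

open Matrix Set Filter Topology Real

theorem GStrip_visual {n0 n1 n2 x0 x1 y0 y1 : ℝ} (hn : n0 * n0 + n1 * n1 = 1 + n2 * n2)
    (hx : x0 * x0 + x1 * x1 = 1) (hy : y0 * y0 + y1 * y1 = 1) (h2 : 0 ≤ n2)
    (ha : n2 ≤ n0 * x0 + n1 * x1) (hb : n2 ≤ n0 * y0 + n1 * y1) :
    (1 - (x0 * y0 + x1 * y1)) * (1 + n2 ^ 2) ≤ 2 := by
  have h1 : (n0 * x0 + n1 * x1) ^ 2 + (n0 * x1 - n1 * x0) ^ 2 = 1 + n2 ^ 2 := by
    linear_combination (x0 * x0 + x1 * x1) * hn + (1 + n2 * n2) * hx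
  have h3 : (n0 * y0 + n1 * y1) ^ 2 + (n0 * y1 - n1 * y0) ^ 2 = 1 + n2 ^ 2 := by
    linear_combination (y0 * y0 + y1 * y1) * hn + (1 + n2 * n2) * hy
  have h4 : (x0 * y0 + x1 * y1) * (1 + n2 ^ 2) =
      (n0 * x0 + n1 * x1) * (n0 * y0 + n1 * y1) + (n0 * x1 - n1 * x0) * (n0 * y1 - n1 * y0) := by
    linear_combination (-(x0 * y0 + x1 * y1)) * hn
  have h5 := pow_le_pow_left₀ h2 ha 2
  have h6 := pow_le_pow_left₀ h2 hb 2
  have h7 := mul_le_mul ha hb h2 (h2.trans ha)
  generalize n0 * x0 + n1 * x1 = a at *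
  generalize n0 * y0 + n1 * y1 = b at *
  generalize n0 * x1 - n1 * x0 = a' at *
  generalize n0 * y1 - n1 * y0 = b' at *
  have h8 := sq_nonneg (a' + b')
  rw [sub_mul, h4]
  linarith

/-- Visual size of a half-plane that does not contain the base point. -/
theorem dist_le_of_side {l : Geo} (h : side l o.1 ≤ 0) {ξ η : Circ} (hξ : 0 ≤ side l ξ.1)
    (hη : 0 ≤ side l η.1) : dist ξ η ≤ 2 / √(1 + side l o.1 ^ 2) := by
  have hn := B_nrm_nrm l
  have ho : side l o.1 = -nrm l 2 := by rw [side, B_comm, B_o]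
  have hd := circ_dist_sq_le ξ η
  obtain ⟨hx, hx2⟩ := ξ.2
  obtain ⟨hy, hy2⟩ := η.2
  rw [ho] at h ⊢
  simp only [side, B, hx2, hy2] at hξ hη hx hy hn hd
  have key := GStrip_visual (n0 := nrm l 0) (n1 := nrm l 1) (n2 := nrm l 2) (x0 := ξ.1 0)
    (x1 := ξ.1 1) (y0 := η.1 0) (y1 := η.1 1) (by linarith) (by linarith) (by linarith)
    (by linarith) (by linarith) (by linarith)
  have hp : 0 < 1 + (-nrm l 2) ^ 2 := by positivity
  rw [le_div_iff₀ (sqrt_pos.2 hp), ← sq_le_sq₀ (by positivity) (by norm_num), mul_pow,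
    sq_sqrt hp.le]
  have h1 := mul_le_mul_of_nonneg_right hd hp.le
  linarith

theorem GStrip_cont (p : Pt) : Continuous fun l : Geo => side l p.1 :=
  continuous_nrm.B' continuous_const

theorem GStrip_gram (l : Geo) (p : Pt) :
    2 * (B l.src.1 p.1 * B l.tgt.1 p.1) = (1 + side l p.1 ^ 2) * -B l.src.1 l.tgt.1 := by
  have h1 := det3_sq l.src.1 l.tgt.1 p.1
  have h2 := l.B_neg.ne
  rw [l.src.2.1, l.tgt.2.1, p.2.1] at h1
  rw [side, nrm, B_smul_left, ← det3, mul_pow, h1]
  field_simp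
  ring

theorem isCompact_lines (p : Pt) (R : ℝ) : IsCompact {l : Geo | |side l p.1| ≤ R} := by
  have hc : IsClosed {x : Circ × Circ |
      2 * (B x.1.1 p.1 * B x.2.1 p.1) ≤ (1 + R ^ 2) * -B x.1.1 x.2.1} := by
    have h1 : Continuous fun x : Circ × Circ => x.1.1 := continuous_subtype_val.comp continuous_fst
    have h2 : Continuous fun x : Circ × Circ => x.2.1 := continuous_subtype_val.comp continuous_snd
    exact isClosed_le (continuous_const.mul ((h1.B' continuous_const).mul (h2.B' continuous_const)))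
      (continuous_const.mul (h1.B' h2).neg)
  have hK : IsCompact {l : Geo |
      2 * (B l.src.1 p.1 * B l.tgt.1 p.1) ≤ (1 + R ^ 2) * -B l.src.1 l.tgt.1} := by
    refine Subtype.isCompact_iff.2 ((congrArg IsCompact (Set.ext fun x => ?_)).mp hc.isCompact)
    refine ⟨fun hx => ⟨⟨x, fun he => ?_⟩, hx, rfl⟩, ?_⟩
    swap
    · rintro ⟨l, hl, rfl⟩
      exact hl
    · have h1 := B_pt_circ_neg p x.2
      have h2 : 2 * (B x.1.1 p.1 * B x.2.1 p.1) ≤ (1 + R ^ 2) * -B x.1.1 x.2.1 := hx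
      rw [he, x.2.2.1, B_comm] at h2
      have h3 := mul_pos_of_neg_of_neg h1 h1
      linarith
  refine hK.of_isClosed_subset (isClosed_le (GStrip_cont p).abs continuous_const) fun l hl => ?_
  have h1 : |side l p.1| ≤ R := hl
  have h2 : side l p.1 ^ 2 ≤ R ^ 2 := by
    rw [← sq_abs]
    exact pow_le_pow_left₀ (abs_nonneg _) h1 2
  change 2 * (B l.src.1 p.1 * B l.tgt.1 p.1) ≤ (1 + R ^ 2) * -B l.src.1 l.tgt.1
  rw [GStrip_gram]
  exact mul_le_mul_of_nonneg_right (by linarith) (by linarith [l.B_neg])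

theorem exists_bound_of_isCompact {K : Set Geo} (hK : IsCompact K) (p : Pt) :
    ∃ R, ∀ l ∈ K, |side l p.1| ≤ R := by
  exact hK.exists_bound_of_continuousOn (GStrip_cont p).continuousOn

open Classical in
/-- The signed twisting of a line `l` across `A` (in units of length): projection of the endpoint
on the right of `A` minus projection of the endpoint on the left. -/
noncomputable def twist (A l : Geo) : ℝ :=
  if side A l.src.1 < 0 then fer A l.src.1 - fer A l.tgt.1 else fer A l.tgt.1 - fer A l.src.1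

theorem GStrip_src {A l : Geo} (h : Cross A l) : side A l.src.1 ≠ 0 := left_ne_zero_of_mul h.ne

theorem GStrip_tgt {A l : Geo} (h : Cross A l) : side A l.tgt.1 ≠ 0 := right_ne_zero_of_mul h.ne

theorem GStrip_fer_rev {A : Geo} {ξ : Circ} (h : side A ξ.1 ≠ 0) :
    fer A.rev ξ.1 = -fer A ξ.1 := by
  rw [Ne, side_eq_zero_iff, not_or] at h
  exact fer_rev A (B_circ_neg h.1) (B_circ_neg h.2)

theorem twist_rev_right {A l : Geo} (h : Cross A l) : twist A l.rev = twist A l := by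
  unfold twist
  rw [Geo.src_rev, Geo.tgt_rev]
  rcases mul_neg_iff.1 h with ⟨h1, h2⟩ | ⟨h1, h2⟩
  · rw [if_pos h2, if_neg h1.not_gt]
  · rw [if_neg h2.not_gt, if_pos h1]

theorem twist_rev_left {A l : Geo} (h : Cross A l) : twist A.rev l = twist A l := by
  unfold twist
  rw [side_rev, GStrip_fer_rev (GStrip_src h), GStrip_fer_rev (GStrip_tgt h)]
  rcases mul_neg_iff.1 h with ⟨h1, -⟩ | ⟨h1, -⟩
  · rw [if_pos (by linarith), if_neg h1.not_gt]
    ring
  · rw [if_neg (by linarith), if_pos h1]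
    ring

theorem twist_smul (g : Isom) {A l : Geo} (h : Cross A l) : twist (g • A) (g • l) = twist A l := by
  unfold twist
  simp only [Geo.src_smul, Geo.tgt_smul, side_smul_circ_neg, fer_smul_circ g A (GStrip_src h),
    fer_smul_circ g A (GStrip_tgt h), add_sub_add_right_eq_sub]

theorem abs_twist {A l : Geo} : |twist A l| = |fer A l.src.1 - fer A l.tgt.1| := by
  unfold twist
  split_ifs
  · rfl
  · exact abs_sub_comm _ _

/-- The sine of the crossing angle, with sign. -/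
noncomputable def GStrip_k (A l : Geo) : ℝ :=
  2 * (√(-2 * B l.src.1 l.tgt.1))⁻¹ * exp (xp l A) * side A l.tgt.1

theorem GStrip_c (l : Geo) : 0 < √(-2 * B l.src.1 l.tgt.1) :=
  sqrt_pos.2 (by linarith [l.B_neg])

theorem GStrip_k_pos {A l : Geo} (h : Cross A l) : 0 < |GStrip_k A l| := by
  have h1 := GStrip_c l
  have h2 := GStrip_tgt h
  rw [abs_pos, GStrip_k]
  positivity

theorem GStrip_zero {A l : Geo} (h : Cross A l) :
    side A l.src.1 = -(exp (xp l A) ^ 2 * side A l.tgt.1) := by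
  have h1 := (side_pt_eq_zero_iff h.symm _).2 rfl
  rw [side_pt_eq, mul_eq_zero, or_iff_right (inv_ne_zero (GStrip_c l).ne'), exp_neg] at h1
  have h2 := (exp_pos (xp l A)).ne'
  field_simp at h1
  linarith

theorem GStrip_side {A l : Geo} (h : Cross A l) (t : ℝ) :
    side A (pt l t).1 = GStrip_k A l * sinh (t - xp l A) := by
  rw [side_pt_eq, GStrip_zero h, GStrip_k, sinh_eq, neg_sub, exp_sub, exp_sub, exp_neg]
  have h2 := (exp_pos (xp l A)).ne'
  have h3 := (exp_pos t).ne'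
  field_simp
  ring

theorem GStrip_abs_side {A l : Geo} (h : Cross A l) (t : ℝ) :
    |side A (pt l t).1| = |GStrip_k A l| * sinh |t - xp l A| := by
  rw [GStrip_side h, abs_mul, abs_sinh]

theorem GStrip_B_pt (A : Geo) (s t : ℝ) : B (pt A s).1 (pt A t).1 = -cosh (s - t) := by
  rw [← cosh_abs, ← dist_pt A s t, cosh_dist, neg_neg]

theorem GStrip_B_nrm (A : Geo) (s : ℝ) : B (nrm A) (pt A s).1 = 0 := side_pt A s

theorem GStrip_B_nrm' (A : Geo) (s : ℝ) : B (pt A s).1 (nrm A) = 0 := by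
  rw [B_comm, GStrip_B_nrm]

theorem GStrip_k_mul {A l : Geo} (h : Cross A l) :
    |GStrip_k A l| * cosh (|twist A l| / 2) = 1 := by
  have h0 : side A l.src.1 * side A l.tgt.1 < 0 := h
  have h1 : B l.src.1 l.tgt.1 = side A l.src.1 * side A l.tgt.1 *
      (cosh (fer A l.src.1 - fer A l.tgt.1) + 1) := by
    conv_lhs => rw [circ_eq A (GStrip_src h), circ_eq A (GStrip_tgt h)]
    simp only [B_add_left, B_add_right, B_smul_left, B_smul_right, GStrip_B_pt, GStrip_B_nrm,
      GStrip_B_nrm', B_nrm_nrm]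
    have h2 : |side A l.src.1| * |side A l.tgt.1| = -(side A l.src.1 * side A l.tgt.1) := by
      rw [← abs_mul, abs_of_neg h0]
    linear_combination (-cosh (fer A l.src.1 - fer A l.tgt.1)) * h2
  have h2 : cosh (fer A l.src.1 - fer A l.tgt.1) + 1 = 2 * cosh (|twist A l| / 2) ^ 2 := by
    rw [← cosh_abs, ← abs_twist]
    have h3 := cosh_two_mul (|twist A l| / 2)
    rw [mul_div_cancel₀ _ (two_ne_zero), sinh_sq] at h3
    linarith
  rw [h2] at h1
  have h3 := l.B_neg
  rw [← sq_eq_sq₀ (by positivity) zero_le_one, mul_pow, sq_abs, GStrip_k, mul_pow, mul_pow,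
    mul_pow, inv_pow, sq_sqrt (by linarith)]
  have h4 := h3.ne
  rw [GStrip_zero h] at h1
  field_simp
  linarith

/-- A line crossing `A` reaches every distance from `A`, on both sides of the crossing point. -/
theorem exists_side_eq {A l : Geo} (h : Cross A l) {w : ℝ} (hw : 0 ≤ w) :
    ∃ u ≥ 0, |side A (pt l (xp l A + u)).1| = sinh w ∧ |side A (pt l (xp l A - u)).1| = sinh w ∧
      ∀ t, |t - xp l A| ≤ u ↔ |side A (pt l t).1| ≤ sinh w := by
  have hk := GStrip_k_pos h
  have hw' : 0 ≤ sinh w := sinh_nonneg_iff.2 hw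
  have hu : 0 ≤ arsinh (sinh w / |GStrip_k A l|) := arsinh_nonneg_iff.2 (by positivity)
  have he : |GStrip_k A l| * sinh (arsinh (sinh w / |GStrip_k A l|)) = sinh w := by
    rw [sinh_arsinh]
    field_simp
  refine ⟨arsinh (sinh w / |GStrip_k A l|), hu, ?_, ?_, fun t => ?_⟩
  · rw [GStrip_abs_side h, add_sub_cancel_left, abs_of_nonneg hu, he]
  · rw [GStrip_abs_side h, sub_sub_cancel_left, abs_neg, abs_of_nonneg hu, he]
  · rw [GStrip_abs_side h, ← sinh_le_sinh, sinh_arsinh, le_div_iff₀ hk, mul_comm]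

/-- The time spent by a crossing line in the `w`-neighbourhood of `A`: at least the width, plus
the twisting up to a constant. -/
theorem time_in_strip {A l : Geo} (h : Cross A l) {w u : ℝ} (hw : 0 < w) (hu : 0 ≤ u)
    (hs : |side A (pt l (xp l A + u)).1| = sinh w) :
    w ≤ u ∧ w + |twist A l| / 2 ≤ u + 2 + arcosh (cosh w / sinh w) := by
  rw [GStrip_abs_side h, add_sub_cancel_left, abs_of_nonneg hu] at hs
  have h1 := GStrip_k_mul h
  have h2 : sinh u = sinh w * cosh (|twist A l| / 2) := by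
    rw [← hs]
    linear_combination (-sinh u) * h1
  have h3 : 0 < sinh w := sinh_pos_iff.2 hw
  have h4 := one_le_cosh (|twist A l| / 2)
  refine ⟨sinh_le_sinh.1 (h2 ▸ le_mul_of_one_le_right h3.le h4), ?_⟩
  have h5 : 1 ≤ cosh w / sinh w := (one_le_div h3).2 (sinh_lt_cosh w).le
  have h6 : cosh w / sinh w ≤ exp (arcosh (cosh w / sinh w)) := by
    rw [exp_arcosh h5]
    exact le_add_of_nonneg_right (sqrt_nonneg _)
  have h7 : ∀ x, exp x ≤ 2 * cosh x := fun x => by
    rw [cosh_eq]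
    linarith [exp_pos (-x)]
  have h8 : 2 * sinh u ≤ exp u := by
    rw [sinh_eq]
    linarith [exp_pos (-u)]
  have h9 : 2 ≤ exp 2 := by linarith [add_one_le_exp 2]
  rw [← exp_le_exp, exp_add, exp_add, exp_add]
  calc exp w * exp (|twist A l| / 2) ≤ 2 * cosh w * (2 * cosh (|twist A l| / 2)) :=
        mul_le_mul (h7 _) (h7 _) (exp_pos _).le (by positivity)
    _ = 2 * sinh u * 2 * (cosh w / sinh w) := by
        rw [h2]
        field_simp
    _ ≤ _ := by gcongr

/-- Outside the `w`-neighbourhood of `A` a crossing line projects close to its endpoint. -/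
theorem exit_proj {A l : Geo} (h : Cross A l) {w t : ℝ} (hw : 0 < w) (ht : xp l A ≤ t)
    (hs : sinh w ≤ |side A (pt l t).1|) :
    |fer A (pt l t).1 - fer A l.tgt.1| ≤ arcosh (cosh w / sinh w) := by
  have h3 : 0 < sinh w := sinh_pos_iff.2 hw
  have hβ := abs_pos.2 (GStrip_tgt h)
  have hc := GStrip_c l
  have hu : 0 ≤ sinh (t - xp l A) := sinh_nonneg_iff.2 (sub_nonneg.2 ht)
  have hp : (pt l t).1 = cosh (arsinh (side A (pt l t).1)) • (pt A (fer A (pt l t).1)).1 +
      sinh (arsinh (side A (pt l t).1)) • nrm A := congrArg Subtype.val (fermi_fer A (pt l t)).symm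
  have h1 : B (pt l t).1 l.tgt.1 = -(cosh (arsinh (side A (pt l t).1)) * |side A l.tgt.1| *
      cosh (fer A (pt l t).1 - fer A l.tgt.1)) + side A (pt l t).1 * side A l.tgt.1 := by
    conv_lhs => rw [hp, circ_eq A (GStrip_tgt h)]
    simp only [B_add_left, B_add_right, B_smul_left, B_smul_right, GStrip_B_pt, GStrip_B_nrm,
      GStrip_B_nrm', B_nrm_nrm, sinh_arsinh]
    ring
  have h2 : B (pt l t).1 l.tgt.1 =
      (√(-2 * B l.src.1 l.tgt.1))⁻¹ * (exp (-t) * B l.src.1 l.tgt.1) := by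
    simp only [pt, B_add_left, B_smul_left, l.tgt.2.1, mul_zero, add_zero]
  have h4 : |side A (pt l t).1| = 2 * (√(-2 * B l.src.1 l.tgt.1))⁻¹ * exp (xp l A) *
      |side A l.tgt.1| * sinh (t - xp l A) := by
    rw [GStrip_abs_side h, abs_of_nonneg (sub_nonneg.2 ht), GStrip_k, abs_mul,
      abs_of_nonneg (by positivity)]
  have h5 : -B (pt l t).1 l.tgt.1 * |side A (pt l t).1| ≤ |side A l.tgt.1| := by
    have h6 : -B (pt l t).1 l.tgt.1 * |side A (pt l t).1| =
        |side A l.tgt.1| * (exp (-(t - xp l A)) * sinh (t - xp l A)) := by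
      have h7 : B l.src.1 l.tgt.1 = -√(-2 * B l.src.1 l.tgt.1) ^ 2 / 2 := by
        rw [sq_sqrt (by linarith [l.B_neg])]
        ring
      rw [h2, h4, neg_sub, exp_sub, exp_neg]
      generalize √(-2 * B l.src.1 l.tgt.1) = c at *
      rw [h7]
      field_simp
    rw [h6]
    refine mul_le_of_le_one_right hβ.le ?_
    rw [exp_neg, inv_mul_le_iff₀ (exp_pos _), sinh_eq]
    linarith [exp_pos (t - xp l A), exp_pos (-(t - xp l A))]
  have h6 : side A (pt l t).1 * side A l.tgt.1 ≤ |side A (pt l t).1| * |side A l.tgt.1| := by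
    rw [← abs_mul]
    exact le_abs_self _
  have h7 : cosh (arsinh (side A (pt l t).1)) ^ 2 = |side A (pt l t).1| ^ 2 + 1 := by
    rw [cosh_sq, sinh_arsinh, sq_abs]
  have h8 := cosh_pos (arsinh (side A (pt l t).1))
  have h9 := cosh_pos (fer A (pt l t).1 - fer A l.tgt.1)
  rw [← arcosh_cosh (abs_nonneg (fer A (pt l t).1 - fer A l.tgt.1)), cosh_abs,
    arcosh_le_arcosh h9 (div_pos (cosh_pos w) h3), le_div_iff₀ h3]
  generalize cosh (arsinh (side A (pt l t).1)) = C at *
  generalize cosh (fer A (pt l t).1 - fer A l.tgt.1) = x at *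
  generalize side A (pt l t).1 * side A l.tgt.1 = y at *
  generalize |side A (pt l t).1| = S at *
  generalize |side A l.tgt.1| = b at *
  have hS : 0 < S := h3.trans_le hs
  have h10 : x * S ≤ C := by
    refine le_of_mul_le_mul_left ?_ (mul_pos h8 hβ)
    have h11 := mul_le_mul_of_nonneg_right h6 hS.le
    rw [h1] at h5
    have h12 : C * b * C = b * (S ^ 2 + 1) := by rw [← h7]; ring
    rw [h12]
    linarith
  have h13 : C * sinh w ≤ cosh w * S := by
    rw [← sq_le_sq₀ (by positivity) (by positivity), mul_pow, mul_pow, h7, cosh_sq]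
    have h14 := pow_le_pow_left₀ h3.le hs 2
    linarith
  refine le_of_mul_le_mul_right ?_ hS
  have h15 := mul_le_mul_of_nonneg_right h10 h3.le
  linarith

/-- Distance across a strip. -/
theorem dist_fermi_le (A : Geo) (s t r u : ℝ) :
    dist (fermi A s r) (fermi A t u) ≤ |r| + |u| + |s - t| := by
  have h := dist_triangle4 (fermi A s r) (pt A s) (pt A t) (fermi A t u)
  rw [dist_fermi_pt, dist_pt, dist_comm (pt A t), dist_fermi_pt] at h
  linarith

end HRT
end
end

-- merged part: Pool.Agent.Work.MP_35beee_gt.GDyn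
section
/-!
Dynamics and continuity of isometries: ping-pong, commuting elements, continuity of axes, the
length of a product of two translations, the Margulis constant.

Plan. `cosh_tl`: `cosh (tl g) = max 1 ((trace g - 1)/2)` (compute the trace in an adapted frame;
elliptic elements have trace `1 + 2 cos θ ≤ 3`). `hyp_of_nest`: `exists_fixed_carc` for `g` on the
closed left arc and for `g⁻¹` on the closed right arc. `tendsto_ax`: take a limit point in the
compact circle along ultrafilters; the multipliers `exp (± tl)` identify it.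
`band`: `Hyp.isLift`, `IsLift.mul`; the half trace of `g h` is
`cosh cosh + sinh sinh * B (nrm (ax g)) (nrm (ax h))`, and that pairing is `-cosh ldist` (sign: by
`exists_perp`, or `expand` and the signs of `nest_iff_ends`). Traces: `tr g = 4 c ^ 2 - 1`.
-/

namespace HRT

open Matrix Set Filter Topology Real

/-- The trace. -/
noncomputable def tr (g : Isom) : ℝ := lin g ![1, 0, 0] 0 + lin g ![0, 1, 0] 1 + lin g ![0, 0, 1] 2

theorem GDyn_tr {g : Isom} {c : ℝ} {u : V} (h : IsLift g c u) : tr g = 4 * c ^ 2 - 1 := by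
  have h1 := h.1
  simp only [tr, h.2, qm, B, cr_0, cr_1, cr_2, Pi.add_apply, Pi.sub_apply, Pi.smul_apply,
    smul_eq_mul, Matrix.cons_val] at h1 ⊢
  linear_combination -h1

theorem GDyn_lin (v : V) : Continuous fun g : Isom => lin g v :=
  continuous_lin2.comp (continuous_id.prodMk continuous_const)

theorem GDyn_tendsto {X : Type*} {F : Filter X} {v : X → V} {ξ : X → Circ} {η : Circ} {k : ℝ}
    (hk : k ≠ 0) (h1 : ∀ᶠ x in F, ∃ c : ℝ, v x = c • (ξ x).1) (h2 : Tendsto v F (𝓝 (k • η.1))) :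
    Tendsto ξ F (𝓝 η) := by
  have h3 : Tendsto (fun x => v x 2) F (𝓝 k) := by
    simpa only [Pi.smul_apply, η.2.2, smul_eq_mul, mul_one] using tendsto_pi_nhds.1 h2 2
  have h4 := (h3.inv₀ hk).smul h2
  rw [inv_smul_smul₀ hk] at h4
  refine tendsto_subtype_rng.2 (h4.congr' ?_)
  filter_upwards [h1, h3.eventually_ne hk] with x ⟨c, hc⟩ hx
  rw [hc, Pi.smul_apply, (ξ x).2.2, smul_eq_mul, mul_one] at hx
  rw [hc, Pi.smul_apply, (ξ x).2.2, smul_eq_mul, mul_one, inv_smul_smul₀ hx]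

theorem GDyn_proj {g : Isom} (h : Hyp g) : ∃ k : ℝ, k ≠ 0 ∧
    lin (g * g) o.1 - (1 + exp (-tl g)) • lin g o.1 + exp (-tl g) • o.1 = k • (ax g).tgt.1 := by
  have h1 : lin g (nrm (ax g)) = nrm (ax g) := by rw [← nrm_smul, h.smul_ax]
  have h2 : 1 < exp (tl g) := one_lt_exp_iff.2 h
  have h3 : exp (-tl g) < 1 := exp_lt_one_iff.2 (neg_lt_zero.2 h)
  refine ⟨B o.1 (ax g).src.1 / B (ax g).src.1 (ax g).tgt.1 *
    ((exp (tl g) - 1) * (exp (tl g) - exp (-tl g))), mul_ne_zero
      (div_ne_zero (B_pt_circ_neg _ _).ne (ax g).B_neg.ne)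
      (mul_pos (by linarith) (by linarith)).ne', ?_⟩
  have h4 := expand (ax g) o.1
  generalize B o.1 (ax g).src.1 / B (ax g).src.1 (ax g).tgt.1 = b at h4 ⊢
  generalize B o.1 (ax g).tgt.1 / B (ax g).src.1 (ax g).tgt.1 = a at h4
  generalize side (ax g) o.1 = c at h4
  rw [h4]
  simp only [lin_mul, lin_add, lin_smul, h1, h.lin_src, h.lin_tgt]
  module

theorem GDyn_tgt {X : Type*} {F : Filter X} {g : X → Isom} {a : Isom} (ht : Continuous tl)
    (ha : Hyp a) (h : Tendsto g F (𝓝 a)) :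
    Tendsto (fun x => (ax (g x)).tgt) F (𝓝 (ax a).tgt) := by
  obtain ⟨k, hk, h1⟩ := GDyn_proj ha
  have h2 : Continuous fun g : Isom =>
      lin (g * g) o.1 - (1 + exp (-tl g)) • lin g o.1 + exp (-tl g) • o.1 :=
    (((GDyn_lin _).comp (continuous_id.mul continuous_id)).sub
      ((continuous_const.add ht.neg.rexp).smul (GDyn_lin _))).add
      (ht.neg.rexp.smul continuous_const)
  refine GDyn_tendsto hk ?_ (h1 ▸ (h2.tendsto a).comp h)
  filter_upwards [((ht.tendsto a).comp h).eventually (lt_mem_nhds ha)] with x hx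
  obtain ⟨c, -, hc⟩ := GDyn_proj hx
  exact ⟨c, hc⟩

theorem GDyn_cr_self (s t : ℝ) (v : V) : cr (s • v) (t • v) = 0 := by
  apply V_ext <;> simp only [cr_0, cr_1, cr_2, Pi.smul_apply, smul_eq_mul, Pi.zero_apply] <;> ring

theorem GDyn_null_mul {g h : Isom} {ξ : Circ} {s t : ℝ} (hg : IsLift g 1 (s • ξ.1))
    (hh : IsLift h 1 (t • ξ.1)) : IsLift (g * h) 1 ((s + t) • ξ.1) := by
  have h1 := hg.mul hh
  rwa [B_smul_left, B_smul_right, ξ.2.1, mul_zero, mul_zero, add_zero, mul_one, one_smul, one_smul,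
    GDyn_cr_self, add_zero, ← add_smul, add_comm t] at h1

theorem GDyn_null_pow {g : Isom} {ξ : Circ} {t : ℝ} (hg : IsLift g 1 (t • ξ.1)) (n : ℕ) :
    IsLift (g ^ n) 1 ((n * t) • ξ.1) := by
  induction n with
  | zero => simpa only [pow_zero, Nat.cast_zero, zero_mul, zero_smul] using isLift_one
  | succ n ih => simpa only [pow_succ, Nat.cast_succ, add_mul, one_mul] using GDyn_null_mul ih hg

theorem GDyn_null_lin {g : Isom} {ξ : Circ} {t : ℝ} (hg : IsLift g 1 (t • ξ.1)) (x : V) :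
    lin g x = x + (2 * t) • cr ξ.1 x - (2 * t ^ 2 * B ξ.1 x) • ξ.1 := by
  rw [hg.2, qm, B_smul_left, B_smul_right, ξ.2.1, B_smul_left]
  apply V_ext <;> simp only [cr_0, cr_1, cr_2, Pi.add_apply, Pi.sub_apply, Pi.smul_apply,
    smul_eq_mul] <;> ring

theorem GDyn_step {g : Isom} {l : Geo} (hn : Nest (g • l) l) {ξ : Circ} (h : 0 ≤ side l ξ.1) :
    0 ≤ side l (g • ξ).1 :=
  hn.nonneg (Circ.fut _) (not_lt.1 fun h' => h.not_gt ((side_smul_circ_neg g l ξ).1 h'))

theorem GDyn_fix {g : Isom} {l : Geo} (hn : Nest (g • l) l) :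
    ∃ ξ : Circ, 0 ≤ side l ξ.1 ∧ g • ξ = ξ := by
  have h1 : ∀ ξ : Circ, ξ ∈ carc l.tgt l.src ↔ 0 ≤ side l ξ.1 := fun ξ => by
    rw [← not_lt, side_neg_iff]
    exact not_congr ⟨ccw.cyc, fun h => h.cyc.cyc⟩
  obtain ⟨ξ, h2, h3⟩ := exists_fixed_carc l.ne.symm (continuous_const_smul g)
    fun ξ h => (h1 _).2 (GDyn_step hn ((h1 _).1 h))
  exact ⟨ξ, (h1 _).1 h2, h3⟩

theorem GDyn_hyp {g : Isom} (hg : g ≠ 1) {ξ η : Circ} (h : ξ ≠ η) (h1 : g • ξ = ξ)
    (h2 : g • η = η) : Hyp g :=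
  (hyp_of_smul_eq (l := Geo.mk' ξ η h) (Geo.ext h1 h2) hg).1

theorem GDyn_sign {l m : Geo} (h1 : 0 < side l m.src.1) (h2 : 0 < side l m.tgt.1)
    (h3 : 0 ≤ side m l.src.1) : B (nrm l) (nrm m) < 0 := by
  have e1 : B m.src.1 l.src.1 < 0 := B_circ_neg fun h => h1.ne' (by rw [h, side_src])
  have e2 : B m.tgt.1 l.src.1 < 0 := B_circ_neg fun h => h2.ne' (by rw [h, side_src])
  have e3 := congrArg (B · l.src.1) (expand m (nrm l))
  simp only [B_add_left, B_smul_left] at e3
  have e4 := mul_pos_of_neg_of_neg (div_neg_of_pos_of_neg h1 m.B_neg) e2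
  have e5 := mul_pos_of_neg_of_neg (div_neg_of_pos_of_neg h2 m.B_neg) e1
  have e6 := side_src l
  unfold side at *
  rw [B_comm]
  exact neg_of_mul_neg_right (by linarith) h3

theorem continuous_tr : Continuous tr := by
  exact (((continuous_apply 0).comp (GDyn_lin _)).add ((continuous_apply 1).comp (GDyn_lin _))).add
    ((continuous_apply 2).comp (GDyn_lin _))

theorem cosh_tl (g : Isom) : cosh (tl g) = max 1 ((tr g - 1) / 2) := by
  obtain ⟨c, u, h⟩ := exists_lift g
  rw [GDyn_tr h]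
  rcases lt_or_ge |c| 1 with hc | hc
  · obtain ⟨p, hp⟩ := h.exists_fix hc
    rw [tl_eq_zero_of_fix hp, cosh_zero, max_eq_left]
    linarith [(sq_lt_one_iff_abs_lt_one c).2 hc]
  · rw [max_eq_right (by linarith [(one_le_sq_iff_one_le_abs c).2 hc]), ← mul_div_cancel₀ (tl g)
      two_ne_zero, cosh_two_mul, sinh_sq, h.cosh_tl hc, sq_abs]
    ring

theorem three_le_tr {g : Isom} (h : NoFix g) : 3 ≤ tr g := by
  obtain ⟨c, u, hl⟩ := exists_lift g
  have h1 : 1 ≤ |c| := not_lt.1 fun hc => (hl.exists_fix hc).elim h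
  rw [GDyn_tr hl]
  linarith [(one_le_sq_iff_one_le_abs c).2 h1]

theorem noFix_or_one_of_three_le_tr {g : Isom} (h : 3 ≤ tr g) : NoFix g ∨ g = 1 := by
  obtain ⟨c, u, hl⟩ := exists_lift g
  rw [GDyn_tr hl] at h
  rcases ((one_le_sq_iff_one_le_abs c).1 (by linarith)).eq_or_lt with hc | hc
  · by_cases hu : u = 0
    · refine Or.inr (isom_ext fun v => ?_)
      have h1 := hl.1
      rw [hl.2, lin_one, hu]
      rw [hu, B_zero_left, sub_zero] at h1
      apply V_ext <;> simp [qm, h1, cr_0, cr_1, cr_2]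
    · exact Or.inl (hl.par_iff.2 ⟨hc.symm, hu⟩).1
  · exact Or.inl (hl.hyp_iff.2 hc).noFix

theorem continuous_tl : Continuous tl := by
  have h1 : tl = fun g => arcosh (max 1 ((tr g - 1) / 2)) := funext fun g => by
    rw [← cosh_tl, arcosh_cosh (tl_nonneg g)]
  rw [h1]
  exact continuousOn_arcosh.comp_continuous
    (continuous_const.max ((continuous_tr.sub continuous_const).div_const 2)) fun g =>
      mem_Ici.2 (le_max_left _ _)

theorem tendsto_ax {X : Type*} {F : Filter X} {g : X → Isom} {a : Isom} (ha : Hyp a)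
    (h : Tendsto g F (𝓝 a)) : Tendsto (fun x => ax (g x)) F (𝓝 (ax a)) := by
  refine Geo.tendsto_iff.2 ⟨?_, GDyn_tgt continuous_tl ha h⟩
  have h1 := GDyn_tgt continuous_tl ha.inv h.inv
  rw [ha.ax_inv] at h1
  refine h1.congr' ?_
  filter_upwards [((continuous_tl.tendsto a).comp h).eventually (lt_mem_nhds ha)] with x hx
  rw [Hyp.ax_inv hx, Geo.tgt_rev]

theorem Hyp.tendsto_pow {g : Isom} (h : Hyp g) {ξ : Circ} (hξ : ξ ≠ (ax g).src) :
    Tendsto (fun n : ℕ => g ^ n • ξ) atTop (𝓝 (ax g).tgt) := by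
  have h1 : ∀ n : ℕ, g ^ n • ax g = ax g := fun n => by
    simpa only [zpow_natCast] using h.zpow_smul_ax n
  by_cases h2 : ξ = (ax g).tgt
  · refine tendsto_const_nhds.congr fun n => ?_
    rw [h2, ← Geo.tgt_smul, h1]
  have h3 : side (ax g) ξ.1 ≠ 0 := fun h3 => ((side_eq_zero_iff _ _).1 h3).elim hξ h2
  refine tendsto_tgt_of_fer _ (Eventually.of_forall fun n h4 => ?_) ?_
  · rw [← h1 n, side_eq_zero_iff, Geo.src_smul, Geo.tgt_smul, smul_left_cancel_iff,
      smul_left_cancel_iff] at h4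
    exact h4.elim hξ h2
  · refine (tendsto_atTop_add_const_left _ (fer (ax g) ξ.1)
      (tendsto_natCast_atTop_atTop.atTop_mul_const h)).congr fun n => ?_
    have h4 := fer_smul_circ (g ^ n) (ax g) h3
    have h5 := h.sh_zpow n
    rw [zpow_natCast, Int.cast_natCast] at h5
    rw [h1, h5] at h4
    exact h4.symm

theorem Par.tendsto_pow {g : Isom} (h : Par g) (ξ : Circ) :
    Tendsto (fun n : ℕ => g ^ n • ξ) atTop (𝓝 (pfix g)) := by
  by_cases h1 : ξ = pfix g
  · refine tendsto_const_nhds.congr fun n => ?_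
    rw [h1]
    exact (MulAction.mem_stabilizer_iff.1 (Subgroup.pow_mem _
      (MulAction.mem_stabilizer_iff.2 ((h.fix_iff _).2 rfl)) n)).symm
  obtain ⟨t, ht, hl⟩ := h.exists_isLift
  have h2 := B_circ_neg (Ne.symm h1)
  have h3 := tendsto_inv_atTop_nhds_zero_nat (𝕜 := ℝ)
  have h4 := (((h3.pow 2).smul_const ξ.1).add ((h3.mul_const (2 * t)).smul_const
    (cr (pfix g).1 ξ.1))).add_const ((-(2 * t ^ 2 * B (pfix g).1 ξ.1)) • (pfix g).1)
  rw [zero_pow two_ne_zero, zero_mul, zero_smul, zero_smul, zero_add, zero_add] at h4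
  refine GDyn_tendsto (neg_ne_zero.2 (mul_ne_zero (by positivity) h2.ne)) ?_ h4
  filter_upwards [eventually_ne_atTop 0] with n hn
  have h5 : (n : ℝ) ≠ 0 := Nat.cast_ne_zero.2 hn
  refine ⟨(n : ℝ)⁻¹ ^ 2 * lin (g ^ n) ξ.1 2, ?_⟩
  rw [mul_smul (_ ^ 2), ← lin_circ_val, GDyn_null_lin (GDyn_null_pow hl n)]
  match_scalars <;> field_simp

/-- A parabolic element moves all other boundary points in the same direction. -/
theorem Par.ccw_or {g : Isom} (h : Par g) :
    (∀ ξ, ξ ≠ pfix g → ccw (pfix g) ξ (g • ξ)) ∨ (∀ ξ, ξ ≠ pfix g → ccw (pfix g) (g • ξ) ξ) := by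
  obtain ⟨t, ht, hl⟩ := h.exists_isLift
  have h1 : ∀ ξ : Circ, lin g ξ.1 2 * det3 (pfix g).1 ξ.1 (g • ξ).1 =
      2 * t * B (pfix g).1 ξ.1 ^ 2 := fun ξ => by
    rw [det3, ← B_smul_right, ← lin_circ_val, GDyn_null_lin hl, B_sub_right, B_add_right,
      B_smul_right, B_smul_right, B_cr_left, B_cr_right, B_cr_cr, ξ.2.1, B_comm ξ.1]
    ring
  have h2 : ∀ ξ, ξ ≠ pfix g → 0 < B (pfix g).1 ξ.1 ^ 2 := fun ξ hξ =>
    sq_pos_of_neg (B_circ_neg hξ.symm)
  rcases ht.lt_or_gt with ht | ht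
  · refine Or.inr fun ξ hξ => ?_
    rw [ccw_iff, det3_swap, neg_pos]
    refine neg_of_mul_neg_left ?_ (lin_circ_pos g ξ).le
    rw [mul_comm, h1]
    exact mul_neg_of_neg_of_pos (by linarith) (h2 ξ hξ)
  · refine Or.inl fun ξ hξ => ?_
    rw [ccw_iff]
    refine pos_of_mul_pos_left ?_ (lin_circ_pos g ξ).le
    rw [mul_comm, h1]
    exact mul_pos (by linarith) (h2 ξ hξ)

theorem GDyn_attr {g : Isom} (h : Hyp g) {l : Geo} (hn : Nest (g • l) l) :
    0 ≤ side l (ax g).tgt.1 := by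
  obtain ⟨ξ, h1, h2⟩ : ∃ ξ : Circ, side l ξ.1 = 0 ∧ ξ ≠ (ax g).src := by
    by_cases h1 : l.src = (ax g).src
    · exact ⟨l.tgt, side_tgt l, h1 ▸ l.ne.symm⟩
    · exact ⟨l.src, side_src l, h1⟩
  have h3 : Continuous fun η : Circ => side l η.1 := continuous_const.B' continuous_subtype_val
  refine ge_of_tendsto' ((h3.tendsto _).comp (h.tendsto_pow h2)) fun n => ?_
  induction n with
  | zero => simpa only [Function.comp, pow_zero, one_smul] using h1.ge
  | succ n ih => simpa only [Function.comp, pow_succ', mul_smul] using GDyn_step hn ih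

/-- Ping-pong with one line. -/
theorem hyp_of_nest {g : Isom} {l : Geo} (hn : Nest (g • l) l) (h1 : g • l.src ≠ l.src)
    (h2 : g • l.tgt ≠ l.tgt) :
    Hyp g ∧ 0 < side l (ax g).tgt.1 ∧ side l (ax g).src.1 < 0 := by
  have hn' : Nest (g⁻¹ • l.rev) l.rev := by
    have h3 := (nest_smul g⁻¹).2 hn.rev
    rwa [← Geo.smul_rev, inv_smul_smul] at h3
  have h3 : ∀ ξ : Circ, g • ξ = ξ → side l ξ.1 ≠ 0 := fun ξ h h' =>
    ((side_eq_zero_iff _ _).1 h').elim (fun e => h1 (e ▸ h)) fun e => h2 (e ▸ h)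
  obtain ⟨ξ, a1, a2⟩ := GDyn_fix hn
  obtain ⟨η, b1, b2⟩ := GDyn_fix hn'
  rw [side_rev, neg_nonneg] at b1
  have hg : Hyp g := GDyn_hyp (fun h => h1 (by rw [h, one_smul]))
    (fun h : ξ = η => h3 ξ a2 (le_antisymm (h ▸ b1) a1)) a2 (inv_smul_eq_iff.1 b2).symm
  have h4 := GDyn_attr hg.inv hn'
  rw [hg.ax_inv, side_rev, neg_nonneg] at h4
  exact ⟨hg, (GDyn_attr hg hn).lt_of_ne' (h3 _ ((hg.fix_iff _).2 (Or.inr rfl))),
    h4.lt_of_ne (h3 _ ((hg.fix_iff _).2 (Or.inl rfl)))⟩

/-- Ping-pong with two lines whose left sides are disjoint at infinity. -/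
theorem hyp_of_two_arcs {g : Isom} {l m : Geo} (hl : Nest (g • l) l) (hm : Nest (g⁻¹ • m) m)
    (hd : ∀ ξ : Circ, 0 ≤ side l ξ.1 → side m ξ.1 < 0) (hg : g ≠ 1) :
    Hyp g ∧ 0 ≤ side l (ax g).tgt.1 ∧ 0 ≤ side m (ax g).src.1 := by
  obtain ⟨ξ, a1, a2⟩ := GDyn_fix hl
  obtain ⟨η, b1, b2⟩ := GDyn_fix hm
  have h1 : Hyp g := GDyn_hyp hg (fun h : ξ = η => (hd ξ a1).not_ge (h ▸ b1)) a2
    (inv_smul_eq_iff.1 b2).symm
  have h2 := GDyn_attr h1.inv hm
  rw [h1.ax_inv] at h2
  exact ⟨h1, GDyn_attr h1 hl, h2⟩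

theorem Hyp.nest_of_cross {g : Isom} (h : Hyp g) {l : Geo} (hc : ¬ Cross l (g • l))
    (h1 : 0 < side l (ax g).tgt.1) (h2 : side l (ax g).src.1 < 0) : Nest (g • l) l := by
  have h3 := (side_smul_circ_pos g l _).2 h1
  have h4 := (side_smul_circ_neg g l _).2 h2
  rw [(h.fix_iff _).2 (Or.inr rfl)] at h3
  rw [(h.fix_iff _).2 (Or.inl rfl)] at h4
  have h5 := xp_smul g (Cross.symm (mul_neg_of_neg_of_pos h2 h1))
  rw [h.smul_ax, h.sh_ax] at h5
  rw [nest_iff_xp (fun h6 => hc h6.symm) h3 h4 h1 h2, h5]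
  exact le_add_of_nonneg_right (tl_nonneg g)

theorem Hyp.of_commute {g h : Isom} (hg : Hyp g) (hh : NoFix h) (hc : Commute g h) :
    Hyp h ∧ (ax h = ax g ∨ ax h = (ax g).rev) := by
  refine hyp_of_smul_eq ?_ fun h1 => hh o (by rw [h1, one_smul])
  rw [← hg.ax_conj, ← hc.eq, mul_inv_cancel_right]

theorem Par.of_commute {g h : Isom} (hg : Par g) (hh : NoFix h) (hc : Commute g h) :
    Par h ∧ pfix h = pfix g := by
  rcases hh.hyp_or_par with h1 | h1
  · exact absurd hg (h1.of_commute hg.1 hc.symm).1.not_par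
  · refine ⟨h1, (hg.fix_iff _).1 ?_⟩
    rw [← (h1.conj g).2, hc.eq, mul_inv_cancel_right]

theorem commute_of_smul_eq {g h : Isom} {l : Geo} (hg : g • l = l) (hh : h • l = l) :
    Commute g h := by
  rw [eq_trans_of_smul_eq hg, eq_trans_of_smul_eq hh, commute_iff_eq, ← trans_add, ← trans_add,
    add_comm]

theorem Par.commute {g h : Isom} (hg : Par g) (hh : Par h) (he : pfix g = pfix h) :
    Commute g h := by
  obtain ⟨s, -, h1⟩ := hg.exists_isLift
  obtain ⟨t, -, h2⟩ := hh.exists_isLift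
  rw [he] at h1
  exact isom_ext fun v => by
    rw [(GDyn_null_mul h1 h2).2, (GDyn_null_mul h2 h1).2, add_comm s]

/-- The product of two translations whose axes bound a common region on their left. -/
theorem band {g h : Isom} (hg : Hyp g) (hh : Hyp h) (hn : Nest (ax g).rev (ax h))
    (h1 : side (ax g) (ax h).src.1 ≠ 0) (h2 : side (ax g) (ax h).tgt.1 ≠ 0) {x : ℝ}
    (hx : x = cosh (tl g / 2) * cosh (tl h / 2) -
      sinh (tl g / 2) * sinh (tl h / 2) * cosh (ldist (ax g) (ax h))) :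
    (|x| < 1 → ∃ p : Pt, (g * h) • p = p) ∧ (1 ≤ |x| → cosh (tl (g * h) / 2) = |x|) ∧
      g * h ≠ 1 := by
  obtain ⟨-, a2, a3, a4, -⟩ := (nest_iff_ends _ _).1 hn
  rw [side_rev, neg_nonpos] at a3 a4
  have h3 := GDyn_sign (a3.lt_of_ne' h1) (a4.lt_of_ne' h2) a2
  have h4 := cosh_ldist fun hc => hn.not_cross (cross_rev_left.2 hc)
  have h5 := hg.isLift.mul hh.isLift
  rw [B_smul_left, B_smul_right, ← neg_neg (B _ _), ← abs_of_neg h3, ← h4, mul_neg, mul_neg,
    ← mul_assoc, ← sub_eq_add_neg, ← hx] at h5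
  refine ⟨h5.exists_fix, h5.cosh_tl, fun h6 => h1 ?_⟩
  rw [← inv_eq_of_mul_eq_one_right h6, hg.ax_inv, Geo.src_rev, side_tgt]

end HRT
end
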