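import Pool.Agent.Work.MP_35beee_gt.PFace
import Pool.Agent.Work.MP_35beee_gt.GDyn

-- merged part: Pool.Agent.Work.MP_35beee_gt.GQuakeF
section
/-!
Twisting along a system of lines: the boundary map.

Plan. `exists_qmap`: fix `ξ`, `p`. If `sepS L p ξ` is finite, choose `q` off the lines on the ray
from `p` to `ξ` (or slightly beside it if the ray ends on a line of the system) with
`sepS L q ξ = ∅`, and put `F p ξ = qc p q • ξ` (independent of `q`: two such points `q`, `q'` are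
separated by no line or by one line ending at `ξ`, whose translations fix `ξ`). Otherwise take
`q n → ξ` on the ray and the limit of `qc p (q n) • ξ`, which is a Cauchy sequence by
`exists_side_qc_le` and `dist_le_of_side` (after moving `p` to `o`).
-/

namespace HRT

open Set Filter Topology Real

variable {Γ : Type*} [Group Γ] {ρ : Γ →* Isom} {L : Set Geo} {τ : Geo → ℝ}

/-- The boundary maps of the twist, for all base points. -/
structure IsQmap (ρ : Γ →* Isom) (L : Set Geo) (τ : Geo → ℝ) (F : Pt → Circ → Circ) : Prop where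
  base : ∀ p q, Off L p → Off L q → ∀ ξ, F p ξ = qc L τ p q • F q ξ
  fix : ∀ p, Off L p → ∀ ξ : Circ, sepS L p ξ.1 = ∅ → F p ξ = ξ
  stay : ∀ p, Off L p → ∀ ξ : Circ, ∀ l ∈ sepS L p ξ.1, (∀ m ∈ sepS L p ξ.1, Nest m l) →
    0 < side l (F p ξ).1
  smul : ∀ p, Off L p → ∀ (g : Γ) (ξ : Circ), F (ρ g • p) (ρ g • ξ) = ρ g • F p ξ

theorem GQuakeF_top {α : Type*} {R : α → α → Prop} (htr : ∀ a b c, R a b → R b c → R a c)
    (T : Finset α) (hne : T.Nonempty) (htot : ∀ a ∈ T, ∀ b ∈ T, R a b ∨ R b a) :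
    ∃ l ∈ T, ∀ m ∈ T, R m l := by
  induction hne using Finset.Nonempty.cons_induction with
  | singleton a =>
    refine ⟨a, Finset.mem_singleton_self a, fun m hm => ?_⟩
    rw [Finset.mem_singleton.mp hm]
    exact (htot a (Finset.mem_singleton_self a) a (Finset.mem_singleton_self a)).elim id id
  | cons a s ha hs ih =>
    obtain ⟨l, hl, htop⟩ := ih fun x hx y hy =>
      htot x (Finset.mem_cons_of_mem hx) y (Finset.mem_cons_of_mem hy)
    have haa := (htot a (Finset.mem_cons_self a s) a (Finset.mem_cons_self a s)).elim id id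
    rcases htot a (Finset.mem_cons_self a s) l (Finset.mem_cons_of_mem hl) with h | h
    · refine ⟨l, Finset.mem_cons_of_mem hl, fun m hm => ?_⟩
      rcases Finset.mem_cons.mp hm with rfl | hm
      exacts [h, htop m hm]
    · refine ⟨a, Finset.mem_cons_self a s, fun m hm => ?_⟩
      rcases Finset.mem_cons.mp hm with rfl | hm
      exacts [haa, htr _ _ _ (htop m hm) h]

theorem Sys.exists_first_circ (hL : Sys ρ L) {p : Pt} {ξ : Circ} (h : (sepS L p ξ.1).Nonempty) :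
    ∃ l ∈ sepS L p ξ.1, ∀ m ∈ sepS L p ξ.1, Nest m l := by
  obtain ⟨l0, hl0⟩ := h
  have hr : 0 < side l0 (fermi l0 0 1).1 := by
    rw [side_fermi]
    exact sinh_pos_iff.mpr one_pos
  have hfin : {m ∈ sepS L p ξ.1 | Nest l0 m}.Finite :=
    (hL.finite_sepS p (fermi l0 0 1)).subset fun m hm => ⟨hm.1.1, hm.1.2.1, hm.2 _ hr⟩
  obtain ⟨l, hl, htop⟩ := GQuakeF_top (R := Nest) (fun _ _ _ => Nest.trans) hfin.toFinset
    ⟨l0, hfin.mem_toFinset.mpr ⟨hl0, Nest.refl l0⟩⟩ fun a ha b hb =>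
      hL.nest_total ξ.fut (hfin.mem_toFinset.mp ha).1 (hfin.mem_toFinset.mp hb).1
  rw [hfin.mem_toFinset] at hl
  refine ⟨l, hl.1, fun m hm => ?_⟩
  rcases hL.nest_total ξ.fut hl0 hm with h1 | h1
  · exact htop m (hfin.mem_toFinset.mpr ⟨hm, h1⟩)
  · exact h1.trans hl.2

/-- Points that are on the side of `ξ` of every line for which `p` is. -/
def GQuakeF_W (L : Set Geo) (ξ : Circ) (p : Pt) : Set Pt :=
  {q | Off L q ∧ ∀ l ∈ L, 0 < side l ξ.1 → 0 < side l p.1 → 0 < side l q.1}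

/-- The filter of points going to `ξ` through the system. -/
def GQuakeF_fil (L : Set Geo) (ξ : Circ) : Filter Pt :=
  ⨅ p ∈ {p | Off L p}, 𝓟 (GQuakeF_W L ξ p)

theorem GQuakeF_ray (hL : Sys ρ L) {p : Pt} (hp : Off L p) (ξ : Circ) {S : Set Geo}
    (hS : S.Finite) (hξ : ∀ l ∈ S, 0 < side l ξ.1) :
    ∃ r ∈ GQuakeF_W L ξ p, ∀ l ∈ S, 0 < side l r.1 := by
  obtain ⟨A, s, hA, rfl⟩ := exists_line_pt_circ p ξ
  have hAL : A ∉ L := fun h => hp A h (by rw [← hA, side_pt])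
  have h1 : ∀ᶠ t in atTop, ∀ l ∈ S, 0 < side l (pt A t).1 := by
    rw [eventually_all_finite hS]
    intro l hl
    have := (toB_fermi_atTop A 0).eventually_pos (n := nrm l) (hξ l hl)
    simpa only [fermi_zero, side] using this
  obtain ⟨a, ha⟩ := eventually_atTop.mp (h1.and (eventually_ge_atTop s))
  obtain ⟨t, ht, hoff⟩ : ∃ t ∈ Icc a (a + 1), Off L (pt A t) := by
    by_contra h
    refine Icc_infinite (lt_add_one a) ((hL.finite_not_off hAL a (a + 1)).subset fun t ht => ?_)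
    exact ⟨ht, fun h' => h ⟨t, ht, h'⟩⟩
  obtain ⟨h2, h3⟩ := ha t ht.1
  refine ⟨pt A t, ⟨hoff, fun l _ hy hx => ?_⟩, h2⟩
  have hc : 0 < (√(-2 * B A.src.1 A.tgt.1))⁻¹ :=
    inv_pos.mpr (sqrt_pos.mpr (by linarith [A.B_neg]))
  rw [← hA, side_pt_eq, mul_pos_iff_of_pos_left hc] at hx
  rw [side_pt_eq, mul_pos_iff_of_pos_left hc]
  have e1 : exp (-t) = exp (s - t) * exp (-s) := by rw [← exp_add]; congr 1; ring
  have e2 : exp (s - t) * exp s ≤ exp t := by rw [← exp_add, exp_le_exp]; linarith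
  have e3 := mul_pos (exp_pos (s - t)) hx
  have e4 := mul_le_mul_of_nonneg_right e2 hy.le
  rw [e1]
  linarith

theorem GQuakeF_trans {ξ : Circ} {p q r : Pt} (h1 : q ∈ GQuakeF_W L ξ p)
    (h2 : r ∈ GQuakeF_W L ξ q) : r ∈ GQuakeF_W L ξ p :=
  ⟨h2.1, fun l hl hy hx => h2.2 l hl hy (h1.2 l hl hy hx)⟩

theorem GQuakeF_basis (hL : Sys ρ L) (ξ : Circ) :
    (GQuakeF_fil L ξ).HasBasis (fun p => Off L p) (GQuakeF_W L ξ) := by
  obtain ⟨p0, hp0, -⟩ := hL.exists_off_near o one_pos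
  refine hasBasis_biInf_principal (S := {p | Off L p}) (fun p hp p' _ => ?_) ⟨p0, hp0⟩
  obtain ⟨r, hr, hr'⟩ := GQuakeF_ray hL hp ξ (S := {l ∈ sepS L p p'.1 | 0 < side l ξ.1})
    ((hL.finite_sepS p p').subset fun l hl => hl.1) fun l hl => hl.2
  have hr2 : r ∈ GQuakeF_W L ξ p' := by
    refine ⟨hr.1, fun l hl hy hx => ?_⟩
    rcases lt_or_gt_of_ne (hp l hl) with h | h
    · exact hr' l ⟨⟨hl, h, hx⟩, hy⟩
    · exact hr.2 l hl hy h
  exact ⟨r, hr.1, fun x hx => GQuakeF_trans hr hx, fun x hx => GQuakeF_trans hr2 hx⟩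

theorem GQuakeF_neBot (hL : Sys ρ L) (ξ : Circ) : (GQuakeF_fil L ξ).NeBot :=
  (GQuakeF_basis hL ξ).neBot_iff.mpr fun {p} hp => ⟨p, hp, fun _ _ _ h => h⟩

theorem GQuakeF_fil_smul (hL : Sys ρ L) (g : Γ) (ξ : Circ) :
    Tendsto (fun r => ρ g • r) (GQuakeF_fil L ξ) (GQuakeF_fil L (ρ g • ξ)) := by
  rw [(GQuakeF_basis hL ξ).tendsto_iff (GQuakeF_basis hL _)]
  intro p hp
  refine ⟨ρ g⁻¹ • p, hL.Off_smul hp _, fun r hr => ⟨hL.Off_smul hr.1 g, fun l hl hy hx => ?_⟩⟩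
  have h1 : l = ρ g • ρ g⁻¹ • l := by rw [map_inv, smul_inv_smul]
  rw [h1, side_smul_circ_pos] at hy
  rw [← side_smul_pt (ρ g⁻¹)] at hx
  rw [h1, side_smul_pt]
  exact hr.2 _ (hL.smul _ l hl) hy hx

theorem GQuakeF_nonneg (hL : Sys ρ L) {ξ : Circ} {p q : Pt} (h : q ∈ GQuakeF_W L ξ p) {l : Geo}
    (hl : l ∈ sepS L p q.1) : 0 ≤ side l ξ.1 := by
  refine not_lt.mp fun h1 => ?_
  have := h.2 _ (hL.rev l hl.1) (by rw [side_rev]; linarith) (by rw [side_rev]; linarith [hl.2.1])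
  rw [side_rev] at this
  linarith [hl.2.2]

theorem GQuakeF_list (ξ : Circ) (s : List Geo) (hs : s.Pairwise fun l m => Nest m l ∧ m ≠ l)
    (h0 : ∀ l ∈ s, 0 ≤ side l ξ.1) :
    (s.map fun l => trans l (-τ l)).prod • ξ = ξ ∨ ∃ m ∈ s, 0 < side m ξ.1 ∧
      0 ≤ side m ((s.map fun l => trans l (-τ l)).prod • ξ).1 := by
  induction s with
  | nil => exact Or.inl (one_smul _ _)
  | cons l s ih =>
    rw [List.map_cons, List.prod_cons, mul_smul]
    have ih' := ih (List.Pairwise.of_cons hs) fun m hm => h0 m (List.mem_cons_of_mem _ hm)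
    rcases (h0 l List.mem_cons_self).lt_or_eq with h1 | h1
    · refine Or.inr ⟨l, List.mem_cons_self, h1, not_lt.mp fun h2 => ?_⟩
      have h3 := side_smul_circ_neg (trans l (-τ l)) l ((s.map fun l => trans l (-τ l)).prod • ξ)
      rw [trans_smul] at h3
      refine not_lt.mpr ?_ (h3.mp h2)
      rcases ih' with h4 | ⟨m, hm, -, h4⟩
      · rw [h4]
        exact h1.le
      · exact (List.rel_of_pairwise_cons hs hm).1.nonneg (Circ.fut _) h4
    · rcases ih' with h4 | ⟨m, hm, h4, -⟩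
      · left
        rw [h4]
        rcases (side_eq_zero_iff l ξ).mp h1.symm with h5 | h5 <;> rw [h5]
        · exact congrArg Geo.src (trans_smul l (-τ l))
        · exact congrArg Geo.tgt (trans_smul l (-τ l))
      · exact absurd h1 ((nest_iff_circ _ _).mp (List.rel_of_pairwise_cons hs hm).1 ξ h4).ne

theorem GQuakeF_cases (hL : Sys ρ L) {ξ : Circ} {q r : Pt} (h : r ∈ GQuakeF_W L ξ q) :
    qc L τ q r • ξ = ξ ∨ ∃ m ∈ sepS L q ξ.1, 0 ≤ side m (qc L τ q r • ξ).1 := by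
  rcases GQuakeF_list (τ := τ) ξ (srt L q r) (hL.pairwise_srt q r)
    (fun l hl => GQuakeF_nonneg hL h ((hL.mem_srt q r l).mp hl)) with h1 | ⟨m, hm, h1, h2⟩
  · exact Or.inl h1
  · have h3 := (hL.mem_srt q r m).mp hm
    exact Or.inr ⟨m, ⟨h3.1, h3.2.1, h1⟩, h2⟩

theorem GQuakeF_fix (hL : Sys ρ L) {ξ : Circ} {q r : Pt} (h0 : sepS L q ξ.1 = ∅)
    (h : r ∈ GQuakeF_W L ξ q) : qc L τ q r • ξ = ξ := by
  rcases GQuakeF_cases (τ := τ) hL h with h1 | ⟨m, hm, -⟩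
  · exact h1
  · rw [h0] at hm
    exact hm.elim

theorem GQuakeF_stay (hL : Sys ρ L) {ξ : Circ} {q r : Pt} {l : Geo} (hl : l ∈ sepS L q ξ.1)
    (hf : ∀ m ∈ sepS L q ξ.1, Nest m l) (h : r ∈ GQuakeF_W L ξ q) :
    0 ≤ side l (qc L τ q r • ξ).1 := by
  rcases GQuakeF_cases (τ := τ) hL h with h1 | ⟨m, hm, h1⟩
  · rw [h1]
    exact hl.2.2.le
  · exact (hf m hm).nonneg (Circ.fut _) h1

theorem GQuakeF_neg {ξ : Circ} {p q : Pt} (hp : Off L p) (h : q ∈ GQuakeF_W L ξ p) {l : Geo}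
    (hl : l ∈ sepS L q ξ.1) : side l p.1 < 0 :=
  lt_of_le_of_ne (not_lt.mp fun h1 => lt_asymm hl.2.1 (h.2 l hl.1 hl.2.2 h1)) (hp l hl.1)

theorem GQuakeF_nest (hL : Sys ρ L) {ξ : Circ} {p q : Pt} (hp : Off L p)
    (h : q ∈ GQuakeF_W L ξ p) {l m : Geo} (hl : l ∈ sepS L q ξ.1) (hm : m ∈ sepS L p q.1) :
    Nest l m := by
  rcases nest_cases (hL.nc l hl.1 m hm.1) with h1 | h1 | h1 | h1
  · exact h1
  · exact absurd (h1 q hm.2.2) (not_lt.mpr hl.2.1.le)
  · have h2 := (nest_iff_circ _ _).mp h1 ξ hl.2.2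
    rw [side_rev] at h2
    linarith [GQuakeF_nonneg hL h hm]
  · have h2 := h1 p (by rw [side_rev]; linarith [GQuakeF_neg hp h hl])
    linarith [hm.2.1]

theorem GQuakeF_long (hL : Sys ρ L) {ξ : Circ} {p : Pt} (hp : Off L p)
    (hne : ∀ q, Off L q → (sepS L q ξ.1).Nonempty) (N : ℕ) :
    ∃ q ∈ GQuakeF_W L ξ p, N ≤ (srt L p q).length := by
  induction N with
  | zero => exact ⟨p, ⟨hp, fun _ _ _ h => h⟩, Nat.zero_le _⟩
  | succ N ih =>
    obtain ⟨q, hq, hN⟩ := ih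
    obtain ⟨l, hl⟩ := hne q hq.1
    obtain ⟨r, hr, hlr⟩ := GQuakeF_ray hL hq.1 ξ (finite_singleton l)
      (fun m hm => by rw [mem_singleton_iff.mp hm]; exact hl.2.2)
    refine ⟨r, GQuakeF_trans hq hr, ?_⟩
    have h1 : (l :: srt L p q).Nodup := by
      rw [List.nodup_cons]
      refine ⟨fun h => lt_asymm hl.2.1 ((hL.mem_srt p q l).mp h).2.2, ?_⟩
      exact (hL.pairwise_srt p q).imp fun h => h.2.symm
    have h2 : l :: srt L p q ⊆ srt L p r := by
      intro m hm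
      rw [hL.mem_srt]
      rcases List.mem_cons.mp hm with rfl | hm
      · exact ⟨hl.1, GQuakeF_neg hp hq hl, hlr m rfl⟩
      · have h3 := (hL.mem_srt p q m).mp hm
        exact ⟨h3.1, h3.2.1, GQuakeF_nest hL hp hq hl h3 r (hlr l rfl)⟩
    have h3 := (h1.subperm h2).length_le
    rw [List.length_cons] at h3
    omega

theorem GQuakeF_small {x ε : ℝ} (hε : 0 < ε) (h : arsinh (2 / ε) < |arsinh x|) :
    2 / √(1 + x ^ 2) < ε := by
  have h1 : 2 / ε < |x| := by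
    rcases abs_cases x with h2 | h2
    · rw [abs_of_nonneg (arsinh_nonneg_iff.mpr h2.2), arsinh_lt_arsinh] at h
      rwa [h2.1]
    · rw [abs_of_neg (arsinh_neg_iff.mpr h2.2), ← arsinh_neg, arsinh_lt_arsinh] at h
      rwa [h2.1]
  have h2 : |x| ≤ √(1 + x ^ 2) := abs_le_sqrt (by linarith)
  rw [div_lt_iff₀ (by positivity), ← div_lt_iff₀' hε]
  exact h1.trans_le h2

theorem GQuakeF_conv (hL : Sys ρ L) (hτ : Wt ρ L τ) {p : Pt} (hp : Off L p) (ξ : Circ) :
    ∃ η : Circ, Tendsto (fun r => qc L τ p r • ξ) (GQuakeF_fil L ξ) (𝓝 η) := by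
  have hb := GQuakeF_basis hL ξ
  have := GQuakeF_neBot hL ξ
  by_cases hne : ∀ q, Off L q → (sepS L q ξ.1).Nonempty
  · obtain ⟨A, rfl⟩ := exists_smul_o p
    obtain ⟨w, hw, hside⟩ := exists_side_qc_le hL hτ
    have hc : Cauchy (map (fun r => A⁻¹ • qc L τ (A • o) r • ξ) (GQuakeF_fil L ξ)) := by
      rw [Metric.cauchy_iff]
      refine ⟨inferInstance, fun ε hε => ?_⟩
      obtain ⟨N, hN⟩ := exists_nat_gt (arsinh (2 / ε) / w + 1)
      obtain ⟨q, hq, hNq⟩ := GQuakeF_long hL hp hne N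
      obtain ⟨l, hl, hf⟩ := hL.exists_first_circ (hne q hq.1)
      obtain ⟨h1, h2⟩ := hside _ q hp hq.1 l hl.1 hl.2.1 fun m hm =>
        GQuakeF_nest hL hp hq hl ((hL.mem_srt _ q m).mp hm)
      have h3 : side (A⁻¹ • qc L τ (A • o) q • l) o.1 =
          side (qc L τ (A • o) q • l) (A • o).1 := by
        rw [← side_smul_pt A, smul_inv_smul]
      refine ⟨{η | 0 ≤ side (A⁻¹ • qc L τ (A • o) q • l) η.1}, ?_, fun x hx y hy => ?_⟩
      · rw [mem_map]
        filter_upwards [hb.mem_of_mem hq.1] with r hr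
        rw [mem_preimage, mem_ofPred_eq]
        refine not_lt.mp fun h4 => ?_
        rw [← qc_mul hL hτ hp hq.1 hr.1, mul_smul, side_smul_circ_neg, side_smul_circ_neg] at h4
        exact not_lt.mpr (GQuakeF_stay hL hl hf hr) h4
      · refine (dist_le_of_side (by rw [h3]; exact h1.le) hx hy).trans_lt
          (GQuakeF_small hε (lt_of_lt_of_le ?_ (h3 ▸ h2)))
        have h4 : (N : ℝ) ≤ (srt L (A • o) q).length := by exact_mod_cast hNq
        rw [← div_lt_iff₀ hw]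
        linarith
    obtain ⟨η, hη⟩ := CompleteSpace.complete hc
    refine ⟨A • η, ((show Tendsto _ _ _ from hη).const_smul A).congr fun r => ?_⟩
    rw [smul_inv_smul]
  · push Not at hne
    obtain ⟨q, hq, h0⟩ := hne
    refine ⟨qc L τ p q • ξ, tendsto_const_nhds.congr' ?_⟩
    filter_upwards [hb.mem_of_mem hq] with r hr
    rw [← qc_mul hL hτ hp hq hr.1, mul_smul, GQuakeF_fix hL h0 hr]

theorem exists_qmap (hL : Sys ρ L) (hτ : Wt ρ L τ) : ∃ F, IsQmap ρ L τ F := by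
  have hex : ∀ (p : Pt) (ξ : Circ), ∃ η : Circ, Off L p →
      Tendsto (fun r => qc L τ p r • ξ) (GQuakeF_fil L ξ) (𝓝 η) := by
    intro p ξ
    by_cases hp : Off L p
    · obtain ⟨η, hη⟩ := GQuakeF_conv hL hτ hp ξ
      exact ⟨η, fun _ => hη⟩
    · exact ⟨ξ, fun h => absurd h hp⟩
  choose F hF using hex
  have hbase : ∀ p q, Off L p → Off L q → ∀ ξ, F p ξ = qc L τ p q • F q ξ := by
    intro p q hp hq ξ
    have := GQuakeF_neBot hL ξ
    refine tendsto_nhds_unique (hF p ξ hp) (((hF q ξ hq).const_smul (qc L τ p q)).congr' ?_)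
    filter_upwards [(GQuakeF_basis hL ξ).mem_of_mem hp] with r hr
    rw [← mul_smul, qc_mul hL hτ hp hq hr.1]
  have hfix : ∀ p, Off L p → ∀ ξ : Circ, sepS L p ξ.1 = ∅ → F p ξ = ξ := by
    intro p hp ξ h
    have := GQuakeF_neBot hL ξ
    refine tendsto_nhds_unique (hF p ξ hp) (tendsto_const_nhds.congr' ?_)
    filter_upwards [(GQuakeF_basis hL ξ).mem_of_mem hp] with r hr
    exact (GQuakeF_fix hL h hr).symm
  refine ⟨F, hbase, hfix, fun p hp ξ l hl hfirst => ?_, fun p hp g ξ => ?_⟩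
  · obtain ⟨r, hr, hlr⟩ := GQuakeF_ray hL hp ξ (finite_singleton l)
      (fun m hm => by rw [mem_singleton_iff.mp hm]; exact hl.2.2)
    have hmem : l ∈ srt L p r := (hL.mem_srt p r l).mpr ⟨hl.1, hl.2.1, hlr l rfl⟩
    obtain ⟨l', s, hs⟩ := List.exists_cons_of_ne_nil (List.ne_nil_of_mem hmem)
    have hl' : l' = l := by
      have h1 := hL.pairwise_srt p r
      have h2 : l' ∈ sepS L p r.1 := (hL.mem_srt p r l').mp (hs ▸ List.mem_cons_self)
      rw [hs] at hmem h1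
      rcases List.mem_cons.mp hmem with h3 | h3
      · exact h3.symm
      · have h4 := (List.rel_of_pairwise_cons h1 h3).1
        exact (hfirst l' ⟨h2.1, h2.2.1, (nest_iff_circ _ _).mp h4 ξ hl.2.2⟩).antisymm h4
    rw [hl'] at hs
    obtain ⟨q, -, hq, hpq, -⟩ := hL.exists_first hp hr.1 hs
    have hlq : l ∈ sepS L p q.1 := (hL.mem_srt p q l).mp (hpq ▸ List.mem_cons_self)
    have hW : q ∈ GQuakeF_W L ξ p := by
      refine ⟨hq, fun m hm h1 h2 => lt_of_le_of_ne (not_lt.mp fun h3 => ?_) (hq m hm).symm⟩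
      have h4 : m.rev ∈ srt L p q := (hL.mem_srt p q _).mpr
        ⟨hL.rev m hm, by rw [side_rev]; linarith, by rw [side_rev]; linarith⟩
      rw [hpq, List.mem_singleton] at h4
      have h5 := hl.2.2
      rw [← h4, side_rev] at h5
      linarith
    have hqc : qc L τ p q = trans l (-τ l) := by
      rw [qc, hpq]
      simp
    rw [hbase p q hp hq, hqc]
    have key : 0 < side l (F q ξ).1 := by
      rcases (sepS L q ξ.1).eq_empty_or_nonempty with h | h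
      · rw [hfix q hq ξ h]
        exact hl.2.2
      · obtain ⟨m, hm, hmf⟩ := hL.exists_first_circ h
        have := GQuakeF_neBot hL ξ
        have h1 : 0 ≤ side m (F q ξ).1 := by
          have hc : Continuous fun η : Circ => side m η.1 :=
            continuous_const.B' continuous_subtype_val
          refine ge_of_tendsto ((hc.tendsto _).comp (hF q ξ hq)) ?_
          filter_upwards [(GQuakeF_basis hL ξ).mem_of_mem hq] with r hr
          exact GQuakeF_stay hL hm hmf hr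
        have h2 : Nest m l := GQuakeF_nest hL hp hW hm hlq
        rcases h1.lt_or_eq with h3 | h3
        · exact (nest_iff_circ _ _).mp h2 _ h3
        · have h4 : m ≠ l := fun h => by
            have := hm.2.1
            rw [h] at this
            linarith [hlq.2.2]
          have h5 : m ≠ l.rev := ((nest_iff_ends _ _).mp h2).2.2.2.2
          have h6 := hL.side_ne_zero hl.1 hm.1 h4 h5
          obtain ⟨h7, h8, -⟩ := (nest_iff_ends _ _).mp h2
          rcases (side_eq_zero_iff m _).mp h3.symm with h9 | h9 <;> rw [h9]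
          · exact lt_of_le_of_ne h7 fun h => by rw [← h, zero_mul] at h6; exact lt_irrefl _ h6
          · exact lt_of_le_of_ne h8 fun h => by rw [← h, mul_zero] at h6; exact lt_irrefl _ h6
    have := (side_smul_circ_pos (trans l (-τ l)) l (F q ξ)).mpr key
    rwa [trans_smul] at this
  · have := GQuakeF_neBot hL ξ
    refine tendsto_nhds_unique ((hF _ _ (hL.Off_smul hp g)).comp (GQuakeF_fil_smul hL g ξ))
      (((hF p ξ hp).const_smul (ρ g)).congr fun r => ?_)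
    rw [Function.comp_apply, qc_smul hL hτ, mul_smul, mul_smul, inv_smul_smul]

end HRT
end

-- merged part: Pool.Agent.Work.MP_35beee_gt.GQuakeH
section
/-!
Twisting along a system of lines: the boundary map is an orientation preserving homeomorphism.

Plan. `IsQmap.ccw`: for three distinct points there is a base point `q` such that no two of them
are beyond a common line as seen from `q` (two distinct points have only finitely many common
separating lines from `p`, by `gap` and `dist_le_of_side`; take the pair with most of them and `q`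
just beyond the last one). From `q` each point is fixed or stays in the open arc beyond its first
line, and these arcs are disjoint and do not contain the fixed ones. Then use `base`.
`IsQmap.surjective`: given `ζ`, walk: `q₀ = p`, `ζ₀ = ζ`; if `sepS L (q k) (ζ k)` is empty stop,
otherwise let `l` be its first line, `q (k+1)` just beyond `l`, `ζ (k+1) = trans l (τ l) • ζ k`.
If the walk does not stop, the arcs beyond the lines shrink to a point `ξ`, and `F p ξ` and `ζ`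
both lie beyond `qc p (q k) • l k` for all `k` (`exists_side_qc_le`).
`twist_qmap`: from a base point just to the right of `l`, points on the right of `l` are fixed or
stay in the shadow of a line of the system (length `≤ tl`, `shadow_le`); points on the left are
moved by `trans l (-τ l)` after such a map.
-/

namespace HRT

open Set Filter Topology Real

variable {Γ : Type*} [Group Γ] {ρ : Γ →* Isom} {L : Set Geo} {τ : Geo → ℝ} {F : Pt → Circ → Circ}

/-- A point just beyond the line `l`. -/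
def GQuakeH_Just (L : Set Geo) (l : Geo) (q : Pt) : Prop :=
  Off L q ∧ 0 < side l q.1 ∧ ∀ m ∈ L, Nest m l → 0 < side m q.1 → m = l

theorem GQuakeH_neg {p : Pt} (hp : Off L p) {l m : Geo} (hm : m ∈ L) (h : Nest m l)
    (hl : side l p.1 < 0) : side m p.1 < 0 :=
  lt_of_le_of_ne (not_lt.1 fun h1 => hl.not_gt (h p h1)) (hp m hm)

theorem GQuakeH_exists_just (hL : Sys ρ L) {l : Geo} (hl : l ∈ L) : ∃ q, GQuakeH_Just L l q := by
  obtain ⟨r, hr, h⟩ := hL.exists_off_left hl 0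
  obtain ⟨h1, h2, h3⟩ := h r hr le_rfl
  have h4 : l ∈ sepS L (fermi l 0 (-r)) (fermi l 0 r).1 := by rw [h3]; rfl
  refine ⟨_, h1, h4.2.2, fun m hm hn h5 => ?_⟩
  have h6 : m ∈ sepS L (fermi l 0 (-r)) (fermi l 0 r).1 := ⟨hm, GQuakeH_neg h2 hm hn h4.2.1, h5⟩
  rwa [h3] at h6

theorem GQuakeH_sep_pt (hL : Sys ρ L) {l : Geo} (hl : l ∈ L) {p q : Pt} (hq : GQuakeH_Just L l q)
    (hp : side l p.1 < 0) {m : Geo} :
    m ∈ sepS L p q.1 ↔ m ∈ L ∧ side m p.1 < 0 ∧ Nest l m := by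
  refine ⟨fun h => ⟨h.1, h.2.1, ?_⟩, fun h => ⟨h.1, h.2.1, h.2.2 q hq.2.1⟩⟩
  rcases hL.nest_total q.fut ⟨hl, hp, hq.2.1⟩ h with h1 | h1
  · exact h1
  · rw [hq.2.2 m h.1 h1 h.2.2]
    exact Nest.refl l

theorem GQuakeH_sep_circ (hL : Sys ρ L) {l : Geo} (hl : l ∈ L) {q : Pt} (hq : GQuakeH_Just L l q)
    {ξ : Circ} (hξ : 0 < side l ξ.1) {m : Geo} (hm : m ∈ sepS L q ξ.1) : Nest m l ∧ m ≠ l := by
  refine ⟨?_, fun h => hm.2.1.not_gt (h ▸ hq.2.1)⟩
  rcases nest_cases (hL.nc m hm.1 l hl) with h | h | h | h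
  · exact h
  · exact absurd (h q hq.2.1) hm.2.1.not_gt
  · have h1 := (nest_iff_circ _ _).1 h ξ hm.2.2
    rw [side_rev] at h1
    linarith
  · have h1 := hq.2.2 _ (hL.rev m hm.1) h (by rw [side_rev]; linarith [hm.2.1])
    rw [← h1, side_rev] at hξ
    linarith [hm.2.2]

theorem GQuakeH_move {l : Geo} {a a' b c : Circ} (ha : 0 < side l a.1) (ha' : 0 < side l a'.1)
    (hb : side l b.1 ≤ 0) (hc : side l c.1 ≤ 0) (h : ccw a b c) : ccw a' b c := by
  have h1 : 0 < side (Geo.mk' b c h.ne23) a.1 := (side_pos_iff _ _).2 h.cyc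
  refine ((side_pos_iff (Geo.mk' b c h.ne23) a').1 ?_).cyc.cyc
  have h0 : side l b.1 = 0 → side l c.1 = 0 → 0 < side (Geo.mk' b c h.ne23) a'.1 := by
    intro h2 h3
    rcases (side_eq_zero_iff _ _).1 h2 with h4 | h4 <;>
      rcases (side_eq_zero_iff _ _).1 h3 with h5 | h5
    · exact absurd (h4.trans h5.symm) h.ne23
    · rwa [show Geo.mk' b c h.ne23 = l from Geo.ext h4 h5]
    · rw [show Geo.mk' b c h.ne23 = l.rev from Geo.ext h4 h5, side_rev] at h1
      linarith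
    · exact absurd (h4.trans h5.symm) h.ne23
  have hn : ¬ Cross l (Geo.mk' b c h.ne23) := not_lt.2 (mul_nonneg_of_nonpos_of_nonpos hb hc)
  rcases nest_cases hn with h2 | h2 | h2 | h2
  · exact (nest_iff_circ _ _).1 h2 a' ha'
  · obtain ⟨h3, h4, -⟩ := (nest_iff_ends _ _).1 h2
    exact h0 (le_antisymm hb h3) (le_antisymm hc h4)
  · have h3 := (nest_iff_circ _ _).1 h2 a ha
    rw [side_rev] at h3
    linarith
  · obtain ⟨-, -, h3, h4, -⟩ := (nest_iff_ends _ _).1 h2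
    rw [side_rev, neg_nonpos] at h3 h4
    exact h0 (le_antisymm hb h3) (le_antisymm hc h4)

theorem GQuakeH_inner {T : Set Geo} (hT : T.Finite) (hne : T.Nonempty)
    (h : ∀ l ∈ T, ∀ m ∈ T, Nest l m ∨ Nest m l) : ∃ l ∈ T, ∀ m ∈ T, Nest l m := by
  induction T, hT using Set.Finite.induction_on with
  | empty => exact absurd hne not_nonempty_empty
  | @insert a s _ _ ih =>
    rcases s.eq_empty_or_nonempty with rfl | hs
    · refine ⟨a, mem_insert _ _, fun m hm => ?_⟩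
      rcases hm with rfl | hm
      exacts [Nest.refl _, hm.elim]
    obtain ⟨l, hl, h1⟩ := ih hs fun l hl m hm => h l (Or.inr hl) m (Or.inr hm)
    rcases h a (mem_insert _ _) l (Or.inr hl) with h2 | h2
    · refine ⟨a, mem_insert _ _, fun m hm => ?_⟩
      rcases hm with rfl | hm
      exacts [Nest.refl _, h2.trans (h1 m hm)]
    · refine ⟨l, Or.inr hl, fun m hm => ?_⟩
      rcases hm with rfl | hm
      exacts [h2, h1 m hm]

theorem GQuakeH_finite (hL : Sys ρ L) (p : Pt) {a b : Circ} (hab : a ≠ b) :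
    (sepS L p a.1 ∩ sepS L p b.1).Finite := by
  refine (hL.finite_sepS p (pt (Geo.mk' a b hab) 0)).subset fun l hl => ⟨hl.1.1, hl.1.2.1, ?_⟩
  rw [side_pt_eq]
  have h1 := (Geo.mk' a b hab).B_neg
  exact mul_pos (inv_pos.2 (sqrt_pos.2 (by linarith)))
    (add_pos (mul_pos (exp_pos _) hl.1.2.2) (mul_pos (exp_pos _) hl.2.2.2))

/-- At least two of the three points are on the left. -/
def GQuakeH_Two (a b c : Circ) (l : Geo) : Prop :=
  (0 < side l a.1 ∧ 0 < side l b.1) ∨ (0 < side l b.1 ∧ 0 < side l c.1) ∨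
    (0 < side l a.1 ∧ 0 < side l c.1)

theorem GQuakeH_common {a b c : Circ} {l m : Geo} (hl : GQuakeH_Two a b c l)
    (hm : GQuakeH_Two a b c m) : ∃ ξ : Circ, 0 < side l ξ.1 ∧ 0 < side m ξ.1 := by
  rcases hl with h | h | h <;> rcases hm with h' | h' | h'
  exacts [⟨a, h.1, h'.1⟩, ⟨b, h.2, h'.1⟩, ⟨a, h.1, h'.1⟩, ⟨b, h.1, h'.2⟩, ⟨b, h.1, h'.1⟩,
    ⟨c, h.2, h'.2⟩, ⟨a, h.1, h'.1⟩, ⟨c, h.2, h'.2⟩, ⟨a, h.1, h'.1⟩]

theorem GQuakeH_center (hL : Sys ρ L) {p : Pt} (hp : Off L p) {a b c : Circ} (h : ccw a b c) :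
    ∃ q, Off L q ∧ ∀ l ∈ L, side l q.1 < 0 → ¬ GQuakeH_Two a b c l := by
  set T := {l ∈ L | side l p.1 < 0 ∧ GQuakeH_Two a b c l} with hT
  rcases T.eq_empty_or_nonempty with h0 | h0
  · exact ⟨p, hp, fun l hl h1 h2 => (eq_empty_iff_forall_notMem.1 h0) l ⟨hl, h1, h2⟩⟩
  have hf : T.Finite := by
    refine (((GQuakeH_finite hL p h.ne12).union (GQuakeH_finite hL p h.ne23)).union
      (GQuakeH_finite hL p h.ne13)).subset ?_
    rintro l ⟨h1, h2, h3 | h3 | h3⟩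
    exacts [Or.inl (Or.inl ⟨⟨h1, h2, h3.1⟩, h1, h2, h3.2⟩),
      Or.inl (Or.inr ⟨⟨h1, h2, h3.1⟩, h1, h2, h3.2⟩), Or.inr ⟨⟨h1, h2, h3.1⟩, h1, h2, h3.2⟩]
  obtain ⟨l, hl, h1⟩ := GQuakeH_inner hf h0 fun l hl m hm => by
    obtain ⟨ξ, h1, h2⟩ := GQuakeH_common hl.2.2 hm.2.2
    exact hL.nest_total ξ.fut ⟨hl.1, hl.2.1, h1⟩ ⟨hm.1, hm.2.1, h2⟩
  obtain ⟨q, hq⟩ := GQuakeH_exists_just hL hl.1
  refine ⟨q, hq.1, fun m hm h2 h3 => ?_⟩
  obtain ⟨ξ, h4, h5⟩ := GQuakeH_common hl.2.2 h3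
  obtain ⟨h6, h7⟩ := GQuakeH_sep_circ hL hl.1 hq h4 ⟨hm, h2, h5⟩
  exact h7 (h6.antisymm (h1 m ⟨hm, GQuakeH_neg hp hm h6 hl.2.1, h3⟩))

theorem GQuakeH_mv (hL : Sys ρ L) (hF : IsQmap ρ L τ F) {q : Pt} (hq : Off L q) (x : Circ) :
    F q x = x ∨ ∃ l ∈ sepS L q x.1, 0 < side l (F q x).1 := by
  rcases (sepS L q x.1).eq_empty_or_nonempty with h | h
  · exact Or.inl (hF.fix q hq x h)
  · obtain ⟨l, hl, h1⟩ := hL.exists_first_circ h
    exact Or.inr ⟨l, hl, hF.stay q hq x l hl h1⟩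

theorem GQuakeH_out (hL : Sys ρ L) (hF : IsQmap ρ L τ F) {q : Pt} (hq : Off L q) {x y : Circ}
    (h : ∀ l ∈ sepS L q x.1, side l y.1 ≤ 0) : ∀ l ∈ sepS L q x.1, side l (F q y).1 ≤ 0 := by
  intro l hl
  rcases GQuakeH_mv hL hF hq y with h1 | ⟨m, hm, h1⟩
  · rw [h1]
    exact h l hl
  refine not_lt.1 fun h2 => ?_
  rcases hL.nest_total (F q y).fut ⟨hl.1, hl.2.1, h2⟩ ⟨hm.1, hm.2.1, h1⟩ with h3 | h3
  · exact (h m ⟨hm.1, hm.2.1, (nest_iff_circ _ _).1 h3 x hl.2.2⟩).not_gt hm.2.2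
  · exact (h l hl).not_gt ((nest_iff_circ _ _).1 h3 y hm.2.2)

theorem GQuakeH_step (hL : Sys ρ L) (hF : IsQmap ρ L τ F) {q : Pt} (hq : Off L q) {x y z : Circ}
    (hy : ∀ l ∈ sepS L q x.1, side l y.1 ≤ 0) (hz : ∀ l ∈ sepS L q x.1, side l z.1 ≤ 0)
    (h : ccw x y z) : ccw y z (F q x) := by
  rcases GQuakeH_mv hL hF hq x with h1 | ⟨m, hm, h1⟩
  · rw [h1]
    exact h.cyc
  · exact (GQuakeH_move hm.2.2 h1 (hy m hm) (hz m hm) h).cyc

theorem IsQmap.ccw (hL : Sys ρ L) (hτ : Wt ρ L τ) (hF : IsQmap ρ L τ F) {p : Pt} (hp : Off L p)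
    (a b c : Circ) (h : ccw a b c) : ccw (F p a) (F p b) (F p c) := by
  have _ := hτ
  obtain ⟨q, hq, h1⟩ := GQuakeH_center hL hp h
  rw [hF.base p q hp hq a, hF.base p q hp hq b, hF.base p q hp hq c, ccw_smul_iff]
  have ab : ∀ l ∈ sepS L q a.1, side l b.1 ≤ 0 :=
    fun l hl => not_lt.1 fun h2 => h1 l hl.1 hl.2.1 (Or.inl ⟨hl.2.2, h2⟩)
  have ac : ∀ l ∈ sepS L q a.1, side l c.1 ≤ 0 :=
    fun l hl => not_lt.1 fun h2 => h1 l hl.1 hl.2.1 (Or.inr (Or.inr ⟨hl.2.2, h2⟩))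
  have bc : ∀ l ∈ sepS L q b.1, side l c.1 ≤ 0 :=
    fun l hl => not_lt.1 fun h2 => h1 l hl.1 hl.2.1 (Or.inr (Or.inl ⟨hl.2.2, h2⟩))
  have ba : ∀ l ∈ sepS L q b.1, side l a.1 ≤ 0 :=
    fun l hl => not_lt.1 fun h2 => h1 l hl.1 hl.2.1 (Or.inl ⟨h2, hl.2.2⟩)
  have ca : ∀ l ∈ sepS L q c.1, side l a.1 ≤ 0 :=
    fun l hl => not_lt.1 fun h2 => h1 l hl.1 hl.2.1 (Or.inr (Or.inr ⟨h2, hl.2.2⟩))
  have cb : ∀ l ∈ sepS L q c.1, side l b.1 ≤ 0 :=
    fun l hl => not_lt.1 fun h2 => h1 l hl.1 hl.2.1 (Or.inr (Or.inl ⟨h2, hl.2.2⟩))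
  exact GQuakeH_step hL hF hq (GQuakeH_out hL hF hq ca) (GQuakeH_out hL hF hq cb)
    (GQuakeH_step hL hF hq bc (GQuakeH_out hL hF hq ba) (GQuakeH_step hL hF hq ab ac h))

/-- The state of the walk. -/
structure GQuakeH_St (L : Set Geo) (τ : Geo → ℝ) (p : Pt) (ζ : Circ) (x : Pt × Geo) : Prop where
  off : Off L x.1
  mem : x.2 ∈ sepS L x.1 ((qc L τ p x.1)⁻¹ • ζ).1
  first : ∀ m ∈ sepS L x.1 ((qc L τ p x.1)⁻¹ • ζ).1, Nest m x.2
  neg : side x.2 p.1 < 0
  last : ∀ m ∈ sepS L p x.1.1, Nest x.2 m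

theorem GQuakeH_next (hL : Sys ρ L) (hτ : Wt ρ L τ) {p : Pt} (hp : Off L p) {ζ : Circ}
    (hζ : ∀ q, Off L q → (sepS L q ((qc L τ p q)⁻¹ • ζ).1).Nonempty) {x : Pt × Geo}
    (hx : GQuakeH_St L τ p ζ x) : ∃ y, GQuakeH_St L τ p ζ y ∧ Nest y.2 x.2 ∧ y.2 ≠ x.2 ∧
      (sepS L p x.1.1).ncard + 1 ≤ (sepS L p y.1.1).ncard := by
  obtain ⟨q, l⟩ := x
  obtain ⟨h1, h2, h3, h4, h5⟩ := hx
  dsimp only at h1 h2 h3 h4 h5 ⊢
  obtain ⟨r, hr⟩ := GQuakeH_exists_just hL h2.1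
  obtain ⟨m, hm, hm'⟩ := hL.exists_first_circ (hζ r hr.1)
  have e1 : sepS L q r.1 = {l} := by
    refine eq_singleton_iff_unique_mem.2 ⟨⟨h2.1, h2.2.1, hr.2.1⟩, fun n hn => ?_⟩
    have h6 := ((GQuakeH_sep_pt hL h2.1 hr h2.2.1).1 hn).2.2
    exact (h3 n ⟨hn.1, hn.2.1, (nest_iff_circ _ _).1 h6 _ h2.2.2⟩).antisymm h6
  have e2 : 0 < side l ((qc L τ p r)⁻¹ • ζ).1 := by
    rw [← qc_mul hL hτ hp h1 hr.1, qc_of_single hL e1, mul_inv_rev, mul_smul,
      ← side_smul_circ_pos (trans l (-τ l)), trans_smul, smul_inv_smul]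
    exact h2.2.2
  obtain ⟨e3, e4⟩ := GQuakeH_sep_circ hL h2.1 hr e2 hm
  refine ⟨(r, m), ⟨hr.1, hm, hm', GQuakeH_neg hp hm.1 e3 h4, fun n hn =>
    e3.trans ((GQuakeH_sep_pt hL h2.1 hr h4).1 hn).2.2⟩, e3, e4, ?_⟩
  rw [← ncard_insert_of_notMem (a := l) (fun h => h2.2.1.not_gt h.2.2) (hL.finite_sepS p q)]
  refine ncard_le_ncard ?_ (hL.finite_sepS p r)
  rintro n (rfl | hn)
  · exact ⟨h2.1, h4, hr.2.1⟩
  · exact ⟨hn.1, hn.2.1, h5 n hn r hr.2.1⟩

theorem GQuakeH_ncard (hL : Sys ρ L) (p q : Pt) : (sepS L p q.1).ncard ≤ (srt L p q).length := by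
  classical
  rw [show sepS L p q.1 = ((srt L p q).toFinset : Set Geo) from
    Set.ext fun l => by rw [Finset.mem_coe, List.mem_toFinset, hL.mem_srt], ncard_coe_finset]
  exact List.toFinset_card_le _

theorem GQuakeH_close {p : Pt} {ξ η : Circ} {l : ℕ → Geo} {w : ℝ} (hw : 0 < w)
    (h1 : ∀ k, side (l k) p.1 < 0) (h2 : ∀ k : ℕ, ((k : ℝ) - 1) * w ≤ |arsinh (side (l k) p.1)|)
    (hξ : ∀ k, 0 < side (l k) ξ.1) (hη : ∀ k, 0 < side (l k) η.1) : ξ = η := by
  obtain ⟨g, rfl⟩ := exists_smul_o p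
  refine smul_left_cancel g⁻¹ (dist_le_zero.1 (not_lt.1 fun hd => ?_))
  obtain ⟨k, hk⟩ := exists_nat_gt (4 / (dist (g⁻¹ • ξ) (g⁻¹ • η) * w) + 1)
  have e1 : side (g⁻¹ • l k) o.1 = side (l k) (g • o).1 := by
    rw [← side_smul_pt g, smul_inv_smul]
  have e2 := dist_le_of_side (l := g⁻¹ • l k) (e1.trans_lt (h1 k)).le
    ((side_smul_circ_pos _ _ _).2 (hξ k)).le ((side_smul_circ_pos _ _ _).2 (hη k)).le
  have e3 := (h2 k).trans (GBdry_le_cosh _)
  rw [cosh_abs, cosh_arsinh] at e3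
  rw [e1, le_div_iff₀ (by positivity)] at e2
  rw [← lt_sub_iff_add_lt, div_lt_iff₀ (by positivity)] at hk
  have e4 := mul_le_mul_of_nonneg_left e3 hd.le
  linarith

theorem GQuakeH_seq {X : Type*} {P : X → Prop} {R : X → X → Prop} {x : X} (h0 : P x)
    (h : ∀ x, P x → ∃ y, P y ∧ R x y) : ∃ u : ℕ → X, ∀ k, P (u k) ∧ R (u k) (u (k + 1)) := by
  choose! f hf using h
  have h1 : ∀ k, P (f^[k] x) := fun k => by
    induction k with
    | zero => exact h0
    | succ k ih =>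
      rw [Function.iterate_succ_apply']
      exact (hf _ ih).1
  refine ⟨fun k => f^[k] x, fun k => ⟨h1 k, ?_⟩⟩
  beta_reduce
  rw [Function.iterate_succ_apply']
  exact (hf _ (h1 k)).2

theorem GQuakeH_limit (hL : Sys ρ L) {p : Pt} {l : ℕ → Geo} (h1 : ∀ k, l k ∈ L)
    (h2 : ∀ k, side (l k) p.1 < 0) (h3 : ∀ k, Nest (l (k + 1)) (l k))
    (h4 : ∀ k, l (k + 1) ≠ l k) : ∃ ξ : Circ, ∀ k, 0 < side (l k) ξ.1 := by
  have hcl : ∀ k, IsClosed {η : Circ | 0 ≤ side (l k) η.1} := fun k =>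
    isClosed_le continuous_const (continuous_const.B' continuous_subtype_val)
  obtain ⟨ξ, hξ⟩ := IsCompact.nonempty_iInter_of_sequence_nonempty_isCompact_isClosed
    (fun k => {η : Circ | 0 ≤ side (l k) η.1}) (fun k η h => (h3 k).nonneg η.fut h)
    (fun k => ⟨(l k).src, (side_src _).ge⟩) (hcl 0).isCompact hcl
  refine ⟨ξ, fun k => ?_⟩
  have e0 : 0 ≤ side (l k) ξ.1 := mem_iInter.1 hξ k
  have e1 : 0 ≤ side (l (k + 1)) ξ.1 := mem_iInter.1 hξ (k + 1)
  rcases e1.lt_or_eq with e2 | e2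
  · exact (nest_iff_circ _ _).1 (h3 k) ξ e2
  refine lt_of_le_of_ne e0 fun e3 => ?_
  have e4 := hL.side_ne_zero (h1 k) (h1 (k + 1)) (h4 k) fun h => by
    have h5 := h2 (k + 1)
    rw [h, side_rev] at h5
    linarith [h2 k]
  rcases (side_eq_zero_iff _ _).1 e2.symm with h5 | h5
  · rw [← h5, ← e3, zero_mul] at e4
    exact e4.false
  · rw [← h5, ← e3, mul_zero] at e4
    exact e4.false

theorem IsQmap.surjective (hL : Sys ρ L) (hτ : Wt ρ L τ) (hF : IsQmap ρ L τ F) {p : Pt}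
    (hp : Off L p) : Function.Surjective (F p) := by
  intro ζ
  by_contra hc
  have hζ : ∀ q, Off L q → (sepS L q ((qc L τ p q)⁻¹ • ζ).1).Nonempty := fun q hq =>
    nonempty_iff_ne_empty.2 fun h => hc ⟨(qc L τ p q)⁻¹ • ζ, by
      rw [hF.base p q hp hq, hF.fix q hq _ h, smul_inv_smul]⟩
  obtain ⟨l0, hl0, hl0'⟩ := hL.exists_first_circ (hζ p hp)
  have h0 : GQuakeH_St L τ p ζ (p, l0) :=
    ⟨hp, hl0, hl0', hl0.2.1, fun m hm => absurd hm.2.2 hm.2.1.not_gt⟩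
  obtain ⟨u, hu⟩ := GQuakeH_seq h0 fun x hx => GQuakeH_next hL hτ hp hζ hx
  have hk : ∀ k, k ≤ (sepS L p (u k).1.1).ncard := fun k => by
    induction k with
    | zero => exact Nat.zero_le _
    | succ k ih => exact (Nat.add_le_add_right ih 1).trans (hu k).2.2.2
  obtain ⟨ξ, hξ⟩ := GQuakeH_limit hL (l := fun k => (u k).2) (fun k => (hu k).1.mem.1)
    (fun k => (hu k).1.neg) (fun k => (hu k).2.1) fun k => (hu k).2.2.1
  obtain ⟨w, hw, hW⟩ := exists_side_qc_le hL hτ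
  have hW' := fun k => hW p _ hp (hu k).1.off _ (hu k).1.mem.1 (hu k).1.mem.2.1
    fun m hm => (hu k).1.last m ((hL.mem_srt _ _ _).1 hm)
  refine hc ⟨ξ, GQuakeH_close (l := fun k => qc L τ p (u k).1 • (u k).2) hw
    (fun k => (hW' k).1) (fun k => le_trans ?_ (hW' k).2) (fun k => ?_) fun k => ?_⟩
  · refine mul_le_mul_of_nonneg_right (sub_le_sub_right ?_ _) hw.le
    exact_mod_cast (hk k).trans (GQuakeH_ncard hL _ _)
  · rw [hF.base p _ hp (hu k).1.off, side_smul_circ_pos]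
    have h1 : (u k).2 ∈ sepS L (u k).1 ξ.1 := ⟨(hu k).1.mem.1, (hu k).1.mem.2.1, hξ k⟩
    refine hF.stay _ (hu k).1.off ξ _ h1 fun m hm => ?_
    rcases hL.nest_total ξ.fut hm h1 with h2 | h2
    · exact h2
    · exact (hu k).1.first m ⟨hm.1, hm.2.1, (nest_iff_circ _ _).1 h2 _ (hu k).1.mem.2.2⟩
  · rw [← smul_inv_smul (qc L τ p (u k).1) ζ, side_smul_circ_pos]
    exact (hu k).1.mem.2.2

end HRT
end

-- merged part: Pool.Agent.Work.MP_35beee_gt.GQuakeT
section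
/-!
Twisting along a system of lines: the marking and the change of twisting numbers.
See the header of `GQuakeH` for the plan.
-/

namespace HRT

open Set Filter Topology Real

variable {Γ : Type*} [Group Γ] {ρ : Γ →* Isom} {L : Set Geo} {τ : Geo → ℝ} {F : Pt → Circ → Circ}

theorem GQuakeT_nest {l A : Geo} (hc : ¬ Cross l A) {q : Pt} {ξ : Circ} (hq : 0 ≤ side A q.1)
    (hl : side l q.1 < 0) (h1 : 0 < side l ξ.1) (h2 : 0 < side A ξ.1) (h3 : ¬ Nest l.rev A) :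
    Nest l A := by
  rcases nest_cases hc with h | h | h | h
  · exact h
  · exact absurd (h.nonneg q.fut hq) (not_le.2 hl)
  · have := (nest_iff_circ _ _).1 h ξ h1
    rw [side_rev] at this
    linarith
  · exact absurd h h3

theorem GQuakeT_end {l A : Geo} (hc : ¬ Cross l A) {q : Pt} {ζ : Circ} (hq : side A q.1 ≤ 0)
    (hl : side l q.1 < 0) (h1 : 0 < side l ζ.1) (h2 : side A ζ.1 = 0) : Nest A l := by
  rcases nest_cases hc with h | h | h | h
  · have := (nest_iff_circ _ _).1 h ζ h1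
    linarith
  · exact h
  · have := (nest_iff_circ _ _).1 h ζ h1
    rw [side_rev] at this
    linarith
  · have := h q (by rw [side_rev]; linarith)
    linarith

theorem GQuakeT_fer_rev (A : Geo) {ξ : Circ} (h : side A ξ.1 ≠ 0) :
    fer A.rev ξ.1 = -fer A ξ.1 := by
  rw [Ne, side_eq_zero_iff, not_or] at h
  exact fer_rev A (B_circ_neg h.1) (B_circ_neg h.2)

theorem GQuakeT_left (hL : Sys ρ L) (hF : IsQmap ρ L τ F) {q : Pt} (hq : Off L q) {s : Γ}
    (hs : Hyp (ρ s)) {ξ : Circ} (hξ : 0 < side (ax (ρ s)) ξ.1)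
    (h : ∀ l ∈ sepS L q ξ.1, 0 < side (ax (ρ s)) l.src.1 * side (ax (ρ s)) l.tgt.1 ∧
      Nest l (ax (ρ s))) :
    0 < side (ax (ρ s)) (F q ξ).1 ∧
      |fer (ax (ρ s)) (F q ξ).1 - fer (ax (ρ s)) ξ.1| ≤ tl (ρ s) := by
  rcases (sepS L q ξ.1).eq_empty_or_nonempty with h0 | h0
  · rw [hF.fix q hq ξ h0, sub_self, abs_zero]
    exact ⟨hξ, tl_nonneg _⟩
  · obtain ⟨l, hl, hl'⟩ := hL.exists_first_circ h0
    obtain ⟨h1, h2⟩ := h l hl
    have h3 := hF.stay q hq ξ l hl hl'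
    have h4 := shadow_le hs h1 (hL.nc l hl.1 _ (hL.smul s l hl.1))
    have h5 := fer_mem_uIcc_of_nest h2 (left_ne_zero_of_mul h1.ne') (right_ne_zero_of_mul h1.ne')
      (F q ξ).fut h3.le
    have h6 := fer_mem_uIcc_of_nest h2 (left_ne_zero_of_mul h1.ne') (right_ne_zero_of_mul h1.ne')
      ξ.fut hl.2.2.le
    refine ⟨(nest_iff_circ _ _).1 h2 _ h3, ?_⟩
    rw [abs_le] at h4 ⊢
    rw [mem_uIcc] at h5 h6
    rcases h5 with h5 | h5 <;> rcases h6 with h6 | h6 <;> constructor <;> linarith [h5.1, h5.2,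
      h6.1, h6.2, h4.1, h4.2]

theorem GQuakeT_right (hL : Sys ρ L) (hF : IsQmap ρ L τ F) {q : Pt} (hq : Off L q) {s : Γ}
    (hs : Hyp (ρ s)) {ξ : Circ} (hξ : side (ax (ρ s)) ξ.1 < 0)
    (h : ∀ l ∈ sepS L q ξ.1, 0 < side (ax (ρ s)) l.src.1 * side (ax (ρ s)) l.tgt.1 ∧
      Nest l (ax (ρ s)).rev) :
    side (ax (ρ s)) (F q ξ).1 < 0 ∧
      |fer (ax (ρ s)) (F q ξ).1 - fer (ax (ρ s)) ξ.1| ≤ tl (ρ s) := by
  have hs' : Hyp (ρ s⁻¹) := by rw [map_inv]; exact hs.inv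
  have e : ax (ρ s⁻¹) = (ax (ρ s)).rev := by rw [map_inv]; exact hs.ax_inv
  have h1 := GQuakeT_left hL hF hq hs' (ξ := ξ) (by rw [e, side_rev]; linarith) fun l hl => by
    rw [e, side_rev, side_rev, neg_mul_neg]
    exact h l hl
  rw [e, side_rev, map_inv, tl_inv] at h1
  obtain ⟨h2, h3⟩ := h1
  have h4 : side (ax (ρ s)) (F q ξ).1 < 0 := by linarith
  rw [GQuakeT_fer_rev _ h4.ne, GQuakeT_fer_rev _ hξ.ne, neg_sub_neg, abs_sub_comm] at h3
  exact ⟨h4, h3⟩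

theorem GQuakeT_twist {A m m' : Geo} (hm : Cross A m) {φ : Circ → Circ} (e1 : m'.src = φ m.src)
    (e2 : m'.tgt = φ m.tgt) {T δ : ℝ}
    (hR : ∀ ξ : Circ, side A ξ.1 < 0 → side A (φ ξ).1 < 0 ∧ |fer A (φ ξ).1 - fer A ξ.1| ≤ T)
    (hL : ∀ ξ : Circ, 0 < side A ξ.1 → 0 < side A (φ ξ).1 ∧ |fer A (φ ξ).1 - fer A ξ.1 + δ| ≤ T) :
    Cross A m' ∧ |twist A m' - twist A m - δ| ≤ 2 * T := by
  unfold Cross twist
  rw [e1, e2]
  rcases mul_neg_iff.1 hm with ⟨h1, h2⟩ | ⟨h1, h2⟩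
  · obtain ⟨h3, h4⟩ := hL _ h1
    obtain ⟨h5, h6⟩ := hR _ h2
    refine ⟨mul_neg_of_pos_of_neg h3 h5, ?_⟩
    rw [if_neg h3.not_gt, if_neg h1.not_gt]
    rw [abs_le] at h4 h6 ⊢
    constructor <;> linarith [h4.1, h4.2, h6.1, h6.2]
  · obtain ⟨h3, h4⟩ := hR _ h1
    obtain ⟨h5, h6⟩ := hL _ h2
    refine ⟨mul_neg_of_neg_of_pos h3 h5, ?_⟩
    rw [if_pos h3, if_pos h1]
    rw [abs_le] at h4 h6 ⊢
    constructor <;> linarith [h4.1, h4.2, h6.1, h6.2]

/-- The twisted representation is a marked structure. -/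
theorem IsQmap.exists_mark (hL : Sys ρ L) (hτ : Wt ρ L τ) (hF : IsQmap ρ L τ F) {p : Pt}
    (hp : Off L p) : ∃ f : Circ ≃ₜ Circ, (∀ ξ, f ξ = F p ξ) ∧ IsMark ρ (qrep hL hτ hp) f := by
  obtain ⟨f, hf⟩ := exists_homeo_of_ccw (hF.surjective hL hτ hp) (hF.ccw hL hτ hp)
  refine ⟨f, hf, fun a b c h => ?_, fun γ ξ => ?_⟩
  · rw [hf, hf, hf]
    exact hF.ccw hL hτ hp a b c h
  · rw [hf, hf, qrep_apply, mul_smul, hF.base p _ hp (hL.Off_smul hp γ), hF.smul p hp]

/-- Lines not crossing the system are moved isometrically. -/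
theorem IsQmap.map_eq (hL : Sys ρ L) (hτ : Wt ρ L τ) (hF : IsQmap ρ L τ F) {p q : Pt}
    (hp : Off L p) (hq : Off L q) {f : Circ ≃ₜ Circ} (hf : ∀ ξ, f ξ = F p ξ) {A : Geo}
    (h1 : sepS L q A.src.1 = ∅) (h2 : sepS L q A.tgt.1 = ∅) : A.map f = qc L τ p q • A := by
  refine Geo.ext ?_ ?_
  · rw [Geo.src_map, Geo.src_smul, hf, hF.base p q hp hq, hF.fix q hq _ h1]
  · rw [Geo.tgt_map, Geo.tgt_smul, hf, hF.base p q hp hq, hF.fix q hq _ h2]

theorem GQuakeT_main (hL : Sys ρ L) (hτ : Wt ρ L τ) (hF : IsQmap ρ L τ F) {p q : Pt}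
    (hp : Off L p) (hq : Off L q) {f : Circ ≃ₜ Circ} (hf : ∀ ξ, f ξ = F p ξ) {A m : Geo}
    (h0 : ∀ ζ : Circ, side A ζ.1 = 0 → sepS L q ζ.1 = ∅) (hm : Cross A m) {T δ : ℝ}
    (h1 : ∀ ξ : Circ, side A ξ.1 < 0 → side A (F q ξ).1 < 0 ∧ |fer A (F q ξ).1 - fer A ξ.1| ≤ T)
    (h2 : ∀ ξ : Circ, 0 < side A ξ.1 →
      0 < side A (F q ξ).1 ∧ |fer A (F q ξ).1 - fer A ξ.1 + δ| ≤ T) :
    |twist (A.map f) (m.map f) - twist A m - δ| ≤ 2 * T := by
  obtain ⟨h3, h4⟩ := GQuakeT_twist (m' := (qc L τ p q)⁻¹ • m.map f) hm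
    (by rw [Geo.src_smul, Geo.src_map, hf, hF.base p q hp hq, inv_smul_smul])
    (by rw [Geo.tgt_smul, Geo.tgt_map, hf, hF.base p q hp hq, inv_smul_smul]) h1 h2
  rw [← twist_smul (qc L τ p q) h3, smul_inv_smul] at h4
  rwa [hF.map_eq hL hτ hp hq hf (h0 _ (side_src A)) (h0 _ (side_tgt A))]

/-- Twisting across a line of the system changes by the weight, up to twice the period. -/
theorem IsQmap.twist_sys (hL : Sys ρ L) (hτ : Wt ρ L τ) (hF : IsQmap ρ L τ F) {p : Pt}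
    (hp : Off L p) {f : Circ ≃ₜ Circ} (hf : ∀ ξ, f ξ = F p ξ) {s : Γ} (hs : Hyp (ρ s))
    (hsL : ax (ρ s) ∈ L) {m : Geo} (hm : Cross (ax (ρ s)) m) :
    |twist ((ax (ρ s)).map f) (m.map f) - twist (ax (ρ s)) m - τ (ax (ρ s))| ≤ 2 * tl (ρ s) := by
  obtain ⟨r, hr, h⟩ := hL.exists_off_left hsL 0
  obtain ⟨hq', hq, hsep⟩ := h r hr le_rfl
  generalize fermi (ax (ρ s)) 0 r = q' at hq' hsep
  generalize fermi (ax (ρ s)) 0 (-r) = q at hq hsep
  have hA : ax (ρ s) ∈ sepS L q q'.1 := by rw [hsep]; rfl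
  have huniq : ∀ l ∈ L, side l q.1 < 0 → 0 < side l q'.1 → l = ax (ρ s) := fun l h1 h2 h3 => by
    have : l ∈ sepS L q q'.1 := ⟨h1, h2, h3⟩
    rwa [hsep] at this
  refine GQuakeT_main hL hτ hF hp hq hf (fun ζ hζ => ?_) hm (fun ξ hξ => ?_) fun ξ hξ => ?_
  · refine eq_empty_of_forall_notMem fun l hl => ?_
    have h1 := GQuakeT_end (hL.nc l hl.1 _ hsL) hA.2.1.le hl.2.1 hl.2.2 hζ
    have h2 := hl.2.2
    rw [huniq l hl.1 hl.2.1 (h1 q' hA.2.2)] at h2
    exact h2.ne' hζ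
  · refine GQuakeT_right hL hF hq hs hξ fun l hl => ?_
    have h1 : l ≠ ax (ρ s) := by
      rintro rfl
      exact hξ.not_gt hl.2.2
    have h2 : l ≠ (ax (ρ s)).rev := by
      rintro rfl
      have := hl.2.1
      rw [side_rev] at this
      linarith [hA.2.1]
    refine ⟨hL.side_ne_zero hsL hl.1 h1 h2, GQuakeT_nest (hL.nc l hl.1 _ (hL.rev _ hsL))
      (by rw [side_rev]; linarith [hA.2.1]) hl.2.1 hl.2.2 (by rw [side_rev]; linarith) fun hn => ?_⟩
    exact h1 (huniq l hl.1 hl.2.1 (hn.rev q' hA.2.2))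
  · have h3 := GQuakeT_left hL hF hq' hs hξ fun l hl => by
      have h1 : l ≠ ax (ρ s) := by
        rintro rfl
        exact hA.2.2.not_gt hl.2.1
      have h2 : l ≠ (ax (ρ s)).rev := by
        rintro rfl
        have := hl.2.2
        rw [side_rev] at this
        linarith
      refine ⟨hL.side_ne_zero hsL hl.1 h1 h2, GQuakeT_nest (hL.nc l hl.1 _ hsL) hA.2.2.le
        hl.2.1 hl.2.2 hξ fun hn => h2 ?_⟩
      have h4 : side l.rev q.1 < 0 := lt_of_le_of_ne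
        (not_lt.1 fun h' => hA.2.1.not_gt (hn q h')) (hq _ (hL.rev l hl.1))
      rw [← huniq l.rev (hL.rev l hl.1) h4 (by rw [side_rev]; linarith [hl.2.1]), Geo.rev_rev]
    have h5 := fer_smul_circ (trans (ax (ρ s)) (-τ (ax (ρ s)))) (ax (ρ s)) h3.1.ne'
    have h6 := (side_smul_circ_pos (trans (ax (ρ s)) (-τ (ax (ρ s)))) (ax (ρ s)) _).2 h3.1
    rw [trans_smul] at h5 h6
    rw [hF.base q q' hq hq', qc_of_single hL hsep, h5, sh_trans]
    refine ⟨h6, le_of_eq_of_le ?_ h3.2⟩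
    congr 1
    ring

/-- Twisting across an axis disjoint from the system changes by at most twice the period. -/
theorem IsQmap.twist_disj (hL : Sys ρ L) (hτ : Wt ρ L τ) (hF : IsQmap ρ L τ F) {p : Pt}
    (hp : Off L p) {f : Circ ≃ₜ Circ} (hf : ∀ ξ, f ξ = F p ξ) {s : Γ} (hs : Hyp (ρ s))
    (hsL : ∀ l ∈ L, 0 < side (ax (ρ s)) l.src.1 * side (ax (ρ s)) l.tgt.1) {m : Geo}
    (hm : Cross (ax (ρ s)) m) :
    |twist ((ax (ρ s)).map f) (m.map f) - twist (ax (ρ s)) m| ≤ 2 * tl (ρ s) := by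
  have hA : ax (ρ s) ∉ L := fun h => by
    have := hsL _ h
    rw [side_src, zero_mul] at this
    exact this.false
  obtain ⟨t, ht, ht'⟩ := (Icc_infinite (zero_lt_one' ℝ)).exists_notMem_finite
    (hL.finite_not_off hA 0 1)
  have hq : Off L (pt (ax (ρ s)) t) := by
    by_contra h
    exact ht' ⟨ht, h⟩
  have h0 := side_pt (ax (ρ s)) t
  generalize pt (ax (ρ s)) t = q at hq h0
  have hc : ∀ l ∈ L, ¬ Cross l (ax (ρ s)) := fun l hl h => (hsL l hl).not_gt h.symm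
  rw [← sub_zero (_ - _)]
  refine GQuakeT_main hL hτ hF hp hq hf (fun ζ hζ => ?_) hm (fun ξ hξ => ?_) fun ξ hξ => ?_
  · refine eq_empty_of_forall_notMem fun l hl => ?_
    exact hl.2.1.not_ge ((GQuakeT_end (hc l hl.1) h0.le hl.2.1 hl.2.2 hζ).nonneg q.fut h0.ge)
  · refine GQuakeT_right hL hF hq hs hξ fun l hl => ⟨hsL l hl.1, GQuakeT_nest
      (fun h => hc l hl.1 (cross_rev_right.1 h)) (by rw [side_rev]; linarith) hl.2.1 hl.2.2
      (by rw [side_rev]; linarith) fun hn => ?_⟩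
    have := hn q (by rw [side_rev]; linarith [hl.2.1])
    rw [side_rev] at this
    linarith
  · rw [add_zero]
    refine GQuakeT_left hL hF hq hs hξ fun l hl => ⟨hsL l hl.1, GQuakeT_nest
      (hc l hl.1) h0.ge hl.2.1 hl.2.2 hξ fun hn => ?_⟩
    exact (hn q (by rw [side_rev]; linarith [hl.2.1])).ne' h0

end HRT
end

-- merged part: Pool.Agent.Work.MP_35beee_gt.GTwist
section
/-!
Dehn twists along a multicurve as automorphisms of the group.

Plan. Every `l ∈ lifts ρ R` is the axis of a unique conjugate `el l` of some `(R i)^{±1}`, and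
`trans l (-(k i * tl)) = ρ (el l ^ (-k i))`. If `ι` is empty take the identity. Otherwise fix a
lift `l₀` and base points just to the right of `l₀`, for `ρ` and for `σ` (`exists_off_left`).
Membership in `sepS L p₀ (g • p₀)` is then expressed by `Nest` relations with `l₀` and `g • l₀`, so
the lists for `ρ` and `σ` correspond under `Geo.map h` (`srt_eq`). Put
`φ g = (∏ el l ^ (-k)) * g`; it is a homomorphism by `qrep_mul` and injectivity of `ρ`, injective
because `qrep` is marked (`exists_mark`, `IsMark.disc`) and surjective by the reversed walk: by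
induction on the length of `srt L p q` there is `c`, with `ρ c = qc L τ p (ρ c⁻¹ • q)`; apply it to
`q = ρ g' • p₀` and take `g = c⁻¹ * g'`. Other base points: `qrep_base`, and `qc` takes values in
the image of `σ`.
-/

namespace HRT

open Set Filter Topology Real

variable {Γ : Type*} [Group Γ] {ρ : Γ →* Isom}

/-- `φ` is the twist of order `k i` along the curves `R i`. -/
def IsTw (ρ : Γ →* Isom) {ι : Type} (R : ι → Γ) (k : ι → ℤ) (φ : Γ ≃* Γ) : Prop :=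
  ∀ (σ : Γ →* Isom) (h : Circ ≃ₜ Circ), IsMark ρ σ h →
    ∀ (τ : Geo → ℝ) (hL : Sys σ (lifts σ R)) (hτ : Wt σ (lifts σ R) τ),
      (∀ (i : ι), ∀ l ∈ lifts σ fun _ : Unit => R i, τ l = k i * tl (σ (R i))) →
        ∀ (p : Pt) (hp : Off (lifts σ R) p), ∃ c : Γ, ∀ g : Γ,
          σ (φ g) = σ c * qrep hL hτ hp g * (σ c)⁻¹

section aux

variable {L : Set Geo} {τ : Geo → ℝ}

theorem GTwist_side (hL : Sys ρ L) {p q : Pt} (hp : Off L p) (hq : Off L q) {l₀ : Geo}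
    (h : sepS L p q.1 = {l₀}) {l : Geo} (hl : l ∈ L) :
    side l p.1 < 0 ↔ Nest l l₀ ∨ (Nest l l₀.rev ∧ l ≠ l₀.rev) := by
  have h0 : l₀ ∈ sepS L p q.1 := by rw [h]; rfl
  obtain ⟨h1, h2, h3⟩ := h0
  constructor
  · intro hs
    rcases nest_cases (hL.nc l hl l₀ h1) with hn | hn | hn | hn
    · exact Or.inl hn
    · have : l ∈ sepS L p q.1 := ⟨hl, hs, hn q h3⟩
      rw [h] at this
      rw [show l = l₀ from this]
      exact Or.inl (Nest.refl _)
    · refine Or.inr ⟨hn, fun e => ?_⟩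
      rw [e, side_rev] at hs
      linarith
    · have := hn p (by rw [side_rev]; linarith)
      linarith
  · intro hn
    by_contra hs
    have hs' : 0 < side l p.1 := lt_of_le_of_ne (not_lt.1 hs) (hp l hl).symm
    rcases hn with hn | ⟨hn, hne⟩
    · linarith [hn p hs']
    · rcases lt_or_gt_of_ne (hq l hl) with h4 | h4
      · have : l.rev ∈ sepS L p q.1 :=
          ⟨hL.rev l hl, by rw [side_rev]; linarith, by rw [side_rev]; linarith⟩
        rw [h] at this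
        exact hne (by rw [← show l.rev = l₀ from this, Geo.rev_rev])
      · have := hn q h4
        rw [side_rev] at this
        linarith

theorem GTwist_rev (hL : Sys ρ L) {p q : Pt} {l : Geo} (h : sepS L p q.1 = {l}) :
    sepS L q p.1 = {l.rev} := by
  ext m
  have e : m ∈ sepS L q p.1 ↔ m.rev ∈ sepS L p q.1 := by
    constructor
    · rintro ⟨h1, h2, h3⟩
      exact ⟨hL.rev m h1, by rw [side_rev]; linarith, by rw [side_rev]; linarith⟩
    · rintro ⟨h1, h2, h3⟩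
      rw [side_rev] at h2 h3
      exact ⟨hL.rev _ h1, by linarith, by linarith⟩
  rw [e, h, mem_singleton_iff, mem_singleton_iff]
  exact ⟨fun h => by rw [← h, Geo.rev_rev], fun h => by rw [h, Geo.rev_rev]⟩

theorem GTwist_smul_side (g : Isom) (l : Geo) (p : Pt) :
    side l (g • p).1 = side (g⁻¹ • l) p.1 := by
  rw [← side_smul_pt g (g⁻¹ • l) p, smul_inv_smul]

theorem GTwist_qc (hL : Sys ρ L) {e : Geo → Γ} (he : ∀ l ∈ L, trans l (-τ l) = ρ (e l))
    (p q : Pt) : qc L τ p q = ρ ((srt L p q).map e).prod := by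
  rw [qc, map_list_prod, List.map_map]
  exact congrArg List.prod
    (List.map_congr_left fun l hl => he l ((hL.mem_srt p q l).1 hl).1)

/-- The reversed walk. -/
theorem GTwist_walk (hL : Sys ρ L) (hτ : Wt ρ L τ) {e : Geo → Γ}
    (he : ∀ l ∈ L, trans l (-τ l) = ρ (e l)) (n : ℕ) : ∀ p q : Pt, Off L p → Off L q →
      (srt L p q).length = n → ∃ c : Γ, ρ c = qc L τ p (ρ c⁻¹ • q) := by
  induction n with
  | zero =>
    intro p q _ _ h
    refine ⟨1, ?_⟩
    rw [inv_one, map_one, one_smul, qc, List.length_eq_zero_iff.1 h]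
    rfl
  | succ n ih =>
    intro p q hp hq h
    obtain ⟨l, s, hs⟩ := List.exists_cons_of_length_eq_add_one h
    obtain ⟨r, -, hr, h1, h2⟩ := hL.exists_first hp hq hs
    have hsep : sepS L p r.1 = {l} := by
      ext m
      rw [← hL.mem_srt, h1, List.mem_singleton, mem_singleton_iff]
    have hl : l ∈ L := (show l ∈ sepS L p r.1 by rw [hsep]; rfl).1
    have hfix : ρ (e l) • l = l := by rw [← he l hl, trans_smul]
    have hsame : ∀ m ∈ L, side m (ρ (e l)⁻¹ • r).1 < 0 ↔ side m r.1 < 0 := by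
      intro m hm
      rw [GTwist_smul_side, map_inv, inv_inv,
        GTwist_side hL hr hp (GTwist_rev hL hsep) (hL.smul (e l) m hm),
        GTwist_side hL hr hp (GTwist_rev hL hsep) hm, Geo.rev_rev]
      have e1 : Nest (ρ (e l) • m) l.rev ↔ Nest m l.rev := by
        rw [← nest_smul (ρ (e l)) (l := m), Geo.smul_rev, hfix]
      have e2 : Nest (ρ (e l) • m) l ↔ Nest m l := by
        rw [← nest_smul (ρ (e l)) (l := m), hfix]
      have e3 : ρ (e l) • m ≠ l ↔ m ≠ l := by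
        rw [← (MulAction.injective (ρ (e l))).ne_iff (x := m), hfix]
      rw [e1, e2, e3]
    have hsrt : srt L r (ρ (e l)⁻¹ • q) = srt L (ρ (e l)⁻¹ • r) (ρ (e l)⁻¹ • q) := by
      refine hL.srt_eq (fun m => ?_) (hL.pairwise_srt _ _)
      rw [hL.mem_srt]
      exact ⟨fun h => ⟨h.1, (hsame m h.1).1 h.2.1, h.2.2⟩,
        fun h => ⟨h.1, (hsame m h.1).2 h.2.1, h.2.2⟩⟩
    obtain ⟨c, hc⟩ := ih r (ρ (e l)⁻¹ • q) hr (hL.Off_smul hq _) (by
      rw [hsrt, hL.srt_smul, List.length_map, h2]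
      rw [hs, List.length_cons] at h
      omega)
    refine ⟨e l * c, ?_⟩
    rw [← qc_mul hL hτ hp hr (hL.Off_smul hq _), qc_of_single hL hsep, he l hl, map_mul,
      mul_inv_rev, map_mul, mul_smul, ← hc]

end aux

/-- Group elements attached to the lifts. -/
theorem GTwist_el {ι : Type} {R : ι → Γ} (hR : Multi ρ R) (k : ι → ℤ) :
    ∃ e : Geo → Γ, ∀ l ∈ lifts ρ R, ∀ (σ : Γ →* Isom) (h : Circ ≃ₜ Circ), IsMark ρ σ h →
      ∀ τ : Geo → ℝ, (∀ (i : ι), ∀ l ∈ lifts σ fun _ : Unit => R i, τ l = k i * tl (σ (R i))) →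
        trans (l.map h) (-τ (l.map h)) = σ (e l) := by
  classical
  have key : ∀ l ∈ lifts ρ R, ∃ c : Γ, ∀ (σ : Γ →* Isom) (h : Circ ≃ₜ Circ), IsMark ρ σ h →
      ∀ τ : Geo → ℝ, (∀ (i : ι), ∀ l ∈ lifts σ fun _ : Unit => R i, τ l = k i * tl (σ (R i))) →
        trans (l.map h) (-τ (l.map h)) = σ c := by
    intro l hl
    obtain ⟨i, c, hc, rfl⟩ := (mem_lifts_iff fun i => (hR.1 i).hyp).1 hl
    have htl : ∀ σ : Γ →* Isom, tl (σ c) = tl (σ (R i)) := fun σ => by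
      rcases hc with hc | hc
      · obtain ⟨g, rfl⟩ := isConj_iff.1 hc
        exact tl_conj' _ _
      · obtain ⟨g, rfl⟩ := isConj_iff.1 hc
        rw [tl_conj', map_inv, tl_inv]
    refine ⟨c ^ (-k i), fun σ h hm τ hw => ?_⟩
    have hρc : Hyp (ρ c) := by
      rw [Hyp, htl]
      exact (hR.1 i).hyp
    obtain ⟨h1, h2⟩ := hm.hyp hρc
    have h3 : ax (σ c) ∈ lifts σ fun _ : Unit => R i :=
      (mem_lifts_iff fun _ => (hm.hyp (hR.1 i).hyp).1).2 ⟨(), c, hc, rfl⟩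
    rw [← h2, hw i _ h3, map_zpow, eq_trans_of_smul_eq (h1.zpow_smul_ax (-k i)), h1.sh_zpow, htl]
    congr 1
    push_cast
    ring
  choose! e he using key
  exact ⟨e, he⟩

/-- Corresponding base points. -/
theorem GTwist_base {ι : Type} {R : ι → Γ} (hR : Multi ρ R) (hL : Sys ρ (lifts ρ R)) :
    ∃ p : Pt, ∀ (σ : Γ →* Isom) (h : Circ ≃ₜ Circ), IsMark ρ σ h → Sys σ (lifts σ R) →
      ∃ q : Pt, Off (lifts σ R) q ∧
        ∀ l ∈ lifts ρ R, (side (l.map h) q.1 < 0 ↔ side l p.1 < 0) := by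
  rcases (lifts ρ R).eq_empty_or_nonempty with h0 | ⟨l₀, hl₀⟩
  · refine ⟨o, fun σ h _ hL' => ?_⟩
    obtain ⟨q, hq, -⟩ := hL'.exists_off_near o one_pos
    exact ⟨q, hq, fun l hl => by rw [h0] at hl; exact hl.elim⟩
  obtain ⟨r, hr, h1⟩ := hL.exists_off_left hl₀ 0
  obtain ⟨h2, h3, h4⟩ := h1 r hr le_rfl
  refine ⟨fermi l₀ 0 (-r), fun σ h hm hL' => ?_⟩
  have hmem := fun l => (hm.mem_lifts (fun i => (hR.1 i).hyp) l).2
  obtain ⟨r', hr', h5⟩ := hL'.exists_off_left (hmem l₀ hl₀) 0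
  obtain ⟨h6, h7, h8⟩ := h5 r' hr' le_rfl
  refine ⟨_, h7, fun l hl => ?_⟩
  rw [GTwist_side hL' h7 h6 h8 (hmem l hl), GTwist_side hL h3 h2 h4 hl, ← Geo.map_rev,
    hm.ori.nest, hm.ori.nest, (Geo.map_injective h).ne_iff]

theorem GTwist_srt {ι : Type} {R : ι → Γ} (hR : Multi ρ R) (hL : Sys ρ (lifts ρ R))
    {σ : Γ →* Isom} {h : Circ ≃ₜ Circ} (hm : IsMark ρ σ h) (hL' : Sys σ (lifts σ R)) {p q : Pt}
    (hs : ∀ l ∈ lifts ρ R, (side (l.map h) q.1 < 0 ↔ side l p.1 < 0)) (g : Γ) :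
    srt (lifts σ R) q (σ g • q) = (srt (lifts ρ R) p (ρ g • p)).map (Geo.map h) := by
  have hmem := hm.mem_lifts fun i => (hR.1 i).hyp
  have e1 : ∀ l ∈ lifts ρ R, 0 < side (l.map h) (σ g • q).1 ↔ 0 < side l (ρ g • p).1 := by
    intro l hl
    have := hs _ (hL.rev _ (hL.smul g⁻¹ l hl))
    rw [Geo.map_rev, side_rev, side_rev, hm.map_smul, neg_lt_zero, neg_lt_zero] at this
    rw [GTwist_smul_side, GTwist_smul_side, ← map_inv, ← map_inv, this]
  have e2 : ∀ l, l.map h ∈ sepS (lifts σ R) q (σ g • q).1 ↔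
      l ∈ sepS (lifts ρ R) p (ρ g • p).1 := fun l =>
    ⟨fun H => ⟨(hmem l).1 H.1, (hs l ((hmem l).1 H.1)).1 H.2.1, (e1 l ((hmem l).1 H.1)).1 H.2.2⟩,
      fun H => ⟨(hmem l).2 H.1, (hs l H.1).2 H.2.1, (e1 l H.1).2 H.2.2⟩⟩
  refine hL'.srt_eq (fun m => ?_) ?_
  · rw [← Geo.map_map_symm h m, e2, List.mem_map_of_injective (Geo.map_injective h), hL.mem_srt]
  · rw [List.pairwise_map]
    exact (hL.pairwise_srt _ _).imp fun H =>
      ⟨(hm.ori.nest _ _).2 H.1, (Geo.map_injective h).ne H.2⟩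

theorem exists_isTw (hρ : Disc ρ) {ι : Type} [Finite ι] {R : ι → Γ} (hR : Multi ρ R)
    (k : ι → ℤ) : ∃ φ : Γ ≃* Γ, IsTw ρ R k φ := by
  have hL := hR.sys hρ
  obtain ⟨e, he⟩ := GTwist_el hR k
  obtain ⟨p₀, hp₀⟩ := GTwist_base hR hL
  have hmem : ∀ {σ : Γ →* Isom} {h : Circ ≃ₜ Circ}, IsMark ρ σ h → ∀ τ : Geo → ℝ,
      (∀ (i : ι), ∀ l ∈ lifts σ fun _ : Unit => R i, τ l = k i * tl (σ (R i))) →
        ∀ m ∈ lifts σ R, trans m (-τ m) = σ (e (m.map h.symm)) := by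
    intro σ h hm τ hw m hm'
    have := he (m.map h.symm) ((hm.mem_lifts (fun i => (hR.1 i).hyp) _).1
      (by rwa [Geo.map_map_symm])) σ h hm τ hw
    rwa [Geo.map_map_symm] at this
  have key : ∀ (σ : Γ →* Isom) (h : Circ ≃ₜ Circ), IsMark ρ σ h →
      ∀ (τ : Geo → ℝ) (hL' : Sys σ (lifts σ R)) (hτ : Wt σ (lifts σ R) τ),
        (∀ (i : ι), ∀ l ∈ lifts σ fun _ : Unit => R i, τ l = k i * tl (σ (R i))) →
          ∃ (q : Pt) (hq : Off (lifts σ R) q), ∀ g : Γ,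
            σ (((srt (lifts ρ R) p₀ (ρ g • p₀)).map e).prod * g) = qrep hL' hτ hq g := by
    intro σ h hm τ hL' hτ hw
    obtain ⟨q, hq, hs⟩ := hp₀ σ h hm hL'
    refine ⟨q, hq, fun g => ?_⟩
    rw [qrep_apply, GTwist_qc hL' (hmem hm τ hw), GTwist_srt hR hL hm hL' hs, List.map_map,
      map_mul]
    congr 3
    exact List.map_congr_left fun l _ => by simp
  obtain ⟨τ₀, hw₀⟩ := hR.exists_weight hρ fun i => k i * tl (ρ (R i))
  have hτ₀ := Multi.wt hw₀
  obtain ⟨q₀, hq₀, h₀⟩ := key ρ _ (IsMark.refl ρ) τ₀ hL hτ₀ hw₀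
  let f : Γ →* Γ := MonoidHom.mk'
    (fun g => ((srt (lifts ρ R) p₀ (ρ g • p₀)).map e).prod * g) fun a b =>
      hρ.injective (by rw [map_mul ρ (_ * a), h₀, h₀, h₀, map_mul])
  have hf : ∀ g, ρ (f g) = qrep hL hτ₀ hq₀ g := h₀
  have hinj : Function.Injective f := by
    obtain ⟨F, hF⟩ := exists_qmap hL hτ₀
    obtain ⟨u, -, hu⟩ := hF.exists_mark hL hτ₀ hq₀
    exact fun a b hab => (hu.disc hρ).injective (by rw [← hf, ← hf, hab])
  have hsurj : Function.Surjective f := fun g => by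
    obtain ⟨c, hc⟩ := GTwist_walk hL hτ₀ (hmem (IsMark.refl ρ) τ₀ hw₀) _ q₀ (ρ g • q₀) hq₀
      (hL.Off_smul hq₀ g) rfl
    refine ⟨c⁻¹ * g, hρ.injective ?_⟩
    rw [hf, qrep_apply, map_mul, mul_smul, ← hc, map_inv, mul_inv_cancel_left]
  refine ⟨MulEquiv.ofBijective f ⟨hinj, hsurj⟩, fun σ h hm τ hL' hτ hw p hp => ?_⟩
  obtain ⟨q, hq, h1⟩ := key σ h hm τ hL' hτ hw
  refine ⟨((srt (lifts σ R) q p).map fun m => e (m.map h.symm)).prod, fun g => ?_⟩
  rw [← GTwist_qc hL' (hmem hm τ hw), ← qrep_base hL' hτ hq hp]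
  exact h1 g

end HRT
end

-- merged part: Pool.Agent.Work.MP_35beee_gt.GTwLen
section
/-!
Lengths before and after twisting.

Plan. Let `l₁, …, l_k` be the list, `A = ax (ρ g)`, and `[a i, b i]` the parameter interval on `A`
of the points within `wd (l i)` of `l i` (`exists_side_eq`). These intervals are disjoint and in
order, also together with their translates by `tl` (`xp_smul`), which gives `sum_le_tl` by
`time_in_strip`. For `tl_qrep_le'` one may move the base point along `A` (`tl_qrep_base`; the list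
is permuted cyclically, the summands are invariant) so that it is outside all these intervals, or
take the base point `pt A t` and cut the loop at `a 1`; the broken path
`a 1, τ₁ b 1, τ₁ a 2, τ₁ τ₂ b 2, …` has the required length by `dist_fermi_le` and `exit_proj`.
A convenient induction: for a list of nested lines crossed by `A` and parameters `s ≤ a 1`,
`b k ≤ u`, bound `dist (pt A s) (prod • pt A u)`.
-/

namespace HRT

open Set Filter Topology Real

variable {Γ : Type*} [Group Γ] {ρ : Γ →* Isom} {L : Set Geo} {τ wd : Geo → ℝ} {w : ℝ}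

/-- Disjoint neighbourhoods of widths `wd l ≥ w` of the lines of a system. -/
structure Wid (ρ : Γ →* Isom) (L : Set Geo) (wd : Geo → ℝ) (w : ℝ) : Prop where
  wt : Wt ρ L wd
  pos : 0 < w
  le : ∀ l ∈ L, w ≤ wd l
  disj : ∀ l ∈ L, ∀ m ∈ L, m ≠ l → m ≠ l.rev → wd l + wd m ≤ ldist l m

theorem Sys.exists_wid (hL : Sys ρ L) : ∃ w, Wid ρ L (fun _ => w) w := by
  obtain ⟨w, hw, h⟩ := hL.gap
  exact ⟨w / 2, ⟨fun _ _ _ => rfl, fun _ _ => rfl⟩, half_pos hw, fun _ _ => le_rfl,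
    fun l hl m hm h1 h2 => (add_halves w).le.trans (h l hl m hm h1 h2)⟩

theorem GTwLen_colW (hL : Sys ρ L) {r : Γ} (hr : Hyp (ρ r)) {l m : Geo}
    (hl : l ∈ lifts ρ fun _ : Unit => r) (hl' : l ∈ L) (hm : m ∈ L) (h1 : m ≠ l) (h2 : m ≠ l.rev) :
    colW (tl (ρ r)) ≤ ldist l m := by
  obtain ⟨_, c, hc, rfl⟩ := (mem_lifts_iff (R := fun _ : Unit => r) fun _ => hr).1 hl
  have ht : tl (ρ c) = tl (ρ r) := by
    rcases hc with hc | hc
    · obtain ⟨k, rfl⟩ := isConj_iff.1 hc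
      exact tl_conj' _ _
    · obtain ⟨k, rfl⟩ := isConj_iff.1 hc
      rw [tl_conj', map_inv, tl_inv]
  have hc' : Hyp (ρ c) := by
    unfold Hyp
    rw [ht]
    exact hr
  rw [← ht]
  exact colW_le hc' (hL.side_ne_zero hl' hm h1 h2) (hL.nc m hm _ (hL.smul c m hm))

/-- Half collars of a multicurve are disjoint. -/
theorem Multi.wid {ι : Type} {R : ι → Γ} (hρ : Disc ρ) (hR : Multi ρ R)
    (hW : ∀ (i : ι), ∀ l ∈ lifts ρ fun _ : Unit => R i, wd l = colW (tl (ρ (R i))) / 2)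
    (hw : 0 < w) (hle : ∀ i, w ≤ colW (tl (ρ (R i))) / 2) : Wid ρ (lifts ρ R) wd w := by
  refine ⟨Multi.wt hW, hw, ?_, ?_⟩
  · rintro l ⟨i, g, h⟩
    rw [hW i l ⟨(), g, h⟩]
    exact hle i
  · rintro l ⟨i, g, h⟩ m ⟨j, k, h'⟩ h1 h2
    have hS := (hR.comp (κ := ({i, j} : Set ι)) Subtype.val_injective).sys hρ
    have hl : l ∈ lifts ρ (R ∘ (Subtype.val : ({i, j} : Set ι) → ι)) := ⟨⟨i, by simp⟩, g, h⟩
    have hm : m ∈ lifts ρ (R ∘ (Subtype.val : ({i, j} : Set ι) → ι)) := ⟨⟨j, by simp⟩, k, h'⟩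
    have e1 := GTwLen_colW hS (hR.1 i).hyp ⟨(), g, h⟩ hl hm h1 h2
    have e2 := GTwLen_colW hS (hR.1 j).hyp ⟨(), k, h'⟩ hm hl h1.symm
      (fun e => h2 (by rw [e, Geo.rev_rev]))
    rw [ldist_comm] at e2
    rw [hW i l ⟨(), g, h⟩, hW j m ⟨(), k, h'⟩]
    linarith

/-- `A` crosses `l` from the right to the left. -/
def GTwLen_Tr (A l : Geo) : Prop := side l A.src.1 < 0 ∧ 0 < side l A.tgt.1

theorem GTwLen_Tr.cross {A l : Geo} (h : GTwLen_Tr A l) : Cross l A := mul_neg_of_neg_of_pos h.1 h.2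

theorem GTwLen_Tr.mono {A l : Geo} (h : GTwLen_Tr A l) :
    StrictMono fun t => side l (pt A t).1 := by
  intro s t hst
  simp only [side_pt_eq]
  have h0 : 0 < (√(-2 * B A.src.1 A.tgt.1))⁻¹ :=
    inv_pos.2 (sqrt_pos.2 (by linarith [A.B_neg]))
  refine mul_lt_mul_of_pos_left (add_lt_add ?_ ?_) h0
  · exact mul_lt_mul_of_neg_right (exp_lt_exp.2 (neg_lt_neg hst)) h.1
  · exact mul_lt_mul_of_pos_right (exp_lt_exp.2 hst) h.2

theorem GTwLen_Tr.zero {A l : Geo} (h : GTwLen_Tr A l) : side l (pt A (xp A l)).1 = 0 :=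
  (side_pt_eq_zero_iff h.cross.symm _).2 rfl

theorem GTwLen_of_sep {A l : Geo} {s t : ℝ} (hst : s < t) (h1 : side l (pt A s).1 < 0)
    (h2 : 0 < side l (pt A t).1) : GTwLen_Tr A l ∧ s < xp A l ∧ xp A l < t := by
  have hc : Cross A l := cross_of_side_mul_neg (mul_neg_of_neg_of_pos h1 h2)
  have hc' : side l A.src.1 * side l A.tgt.1 < 0 := hc.symm
  have h3 : 0 < side l A.tgt.1 := by
    by_contra h
    have h4 : side l A.tgt.1 < 0 := lt_of_le_of_ne (not_lt.1 h) fun e => by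
      rw [e, mul_zero] at hc'
      exact lt_irrefl _ hc'
    have h5 := (side_pt_mul_pos_iff hc s).1 (mul_pos_of_neg_of_neg h1 h4)
    have h6 := (side_pt_mul_pos_iff hc t).2 (h5.trans hst)
    exact lt_asymm h6 (mul_neg_of_pos_of_neg h2 h4)
  have hT : GTwLen_Tr A l := ⟨neg_of_mul_neg_left hc' h3.le, h3⟩
  exact ⟨hT, hT.mono.lt_iff_lt.1 (by simpa only [hT.zero] using h1),
    hT.mono.lt_iff_lt.1 (by simpa only [hT.zero] using h2)⟩

theorem GTwLen_Tr.ends {A l : Geo} (h : GTwLen_Tr A l) {v : ℝ} (hv : 0 < v) :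
    ∃ u ≥ 0, side l (pt A (xp A l + u)).1 = sinh v ∧ side l (pt A (xp A l - u)).1 = -sinh v := by
  obtain ⟨u, hu, h1, h2, -⟩ := exists_side_eq h.cross hv.le
  have e1 : 0 ≤ side l (pt A (xp A l + u)).1 :=
    h.zero.ge.trans (h.mono.monotone (by linarith))
  have e2 : side l (pt A (xp A l - u)).1 ≤ 0 :=
    (h.mono.monotone (by linarith)).trans h.zero.le
  rw [abs_of_nonneg e1] at h1
  rw [abs_of_nonpos e2] at h2
  exact ⟨u, hu, h1, by linarith⟩

theorem GTwLen_sep (hw : Wid ρ L wd w) {A l m : Geo} (hl : l ∈ L) (hm : m ∈ L)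
    (tl : GTwLen_Tr A l) (tm : GTwLen_Tr A m) (hn : Nest m l) (hne : m ≠ l) {a b : ℝ}
    (hb : side l (pt A b).1 = sinh (wd l)) (ha : side m (pt A a).1 = -sinh (wd m)) : b ≤ a := by
  by_contra hab
  have pl : 0 < wd l := hw.pos.trans_le (hw.le l hl)
  have pm : 0 < wd m := hw.pos.trans_le (hw.le m hm)
  have hx : xp A l ≤ xp A m := (nest_iff_xp hn.not_cross tm.2 tm.1 tl.2 tl.1).1 hn
  have h1 : xp A l < b := tl.mono.lt_iff_lt.1 (by
    simpa only [tl.zero, hb] using sinh_pos_iff.2 pl)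
  have h2 : a < xp A m := tm.mono.lt_iff_lt.1 (by
    simpa only [tm.zero, ha, neg_lt_zero] using sinh_pos_iff.2 pm)
  set q := pt A (max a (xp A l)) with hq
  have l0 : 0 ≤ side l q.1 := tl.zero.ge.trans (tl.mono.monotone (le_max_right _ _))
  have l1 : side l q.1 < sinh (wd l) := by
    rw [← hb]
    exact tl.mono (max_lt (not_le.1 hab) h1)
  have m0 : side m q.1 ≤ 0 := (tm.mono.monotone (max_le h2.le hx)).trans tm.zero.le
  have m1 : -sinh (wd m) ≤ side m q.1 := by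
    rw [← ha]
    exact tm.mono.monotone (le_max_left _ _)
  have d1 : |arsinh (side l q.1)| < wd l := by
    rw [abs_of_nonneg (arsinh_nonneg_iff.2 l0)]
    simpa only [arsinh_sinh] using arsinh_lt_arsinh.2 l1
  have d2 : |arsinh (side m q.1)| ≤ wd m := by
    rw [abs_of_nonpos (arsinh_nonpos_iff.2 m0)]
    have := arsinh_le_arsinh.2 m1
    rw [arsinh_neg, arsinh_sinh] at this
    linarith
  have hrev : m ≠ l.rev := fun e => by
    have := tm.2
    rw [e, side_rev] at this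
    linarith [tl.2]
  have h3 := hw.disj l hl m hm hne hrev
  have h4 := ldist_le (fun h => hn.not_cross h.symm) (side_pt l (fer l q.1)) (side_pt m (fer m q.1))
  have h5 := dist_triangle_left (pt l (fer l q.1)) (pt m (fer m q.1)) q
  rw [dist_foot, dist_foot] at h5
  linarith

theorem GTwLen_coth {v : ℝ} (hw : 0 < w) (h : w ≤ v) :
    arcosh (cosh v / sinh v) ≤ arcosh (cosh w / sinh w) := by
  have h1 : 0 < sinh w := sinh_pos_iff.2 hw
  have h2 : 0 < sinh v := sinh_pos_iff.2 (hw.trans_le h)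
  refine (arcosh_le_arcosh (div_pos (cosh_pos _) h2) (div_pos (cosh_pos _) h1)).2 ?_
  rw [div_le_div_iff₀ h2 h1]
  have := sinh_nonneg_iff.2 (sub_nonneg.2 h)
  rw [sinh_sub] at this
  linarith

theorem GTwLen_xp_rev {A l : Geo} (h : Cross A l) : xp A.rev l = -xp A l := by
  refine ((side_pt_eq_zero_iff (cross_rev_left.2 h) _).1 ?_).symm
  rw [pt_rev, neg_neg]
  exact (side_pt_eq_zero_iff h _).2 rfl

theorem GTwLen_across {A l : Geo} (h : GTwLen_Tr A l) {v u : ℝ} (hv : 0 < v) (hu : 0 ≤ u)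
    (h1 : side l (pt A (xp A l + u)).1 = sinh v) (h2 : side l (pt A (xp A l - u)).1 = -sinh v)
    (σ : ℝ) : dist (pt A (xp A l - u)) (trans l (-σ) • pt A (xp A l + u)) ≤
      2 * u + (|twist l A + σ| - |twist l A| + (4 + 4 * arcosh (cosh v / sinh v))) := by
  have hs : 0 < sinh v := sinh_pos_iff.2 hv
  have e1 := exit_proj h.cross hv (t := xp A l + u) (by linarith) (by rw [h1, abs_of_pos hs])
  have e2 := exit_proj (cross_rev_right.2 h.cross) hv (t := -(xp A l - u))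
    (by rw [GTwLen_xp_rev h.cross.symm]; linarith)
    (by rw [pt_rev, neg_neg, h2, abs_neg, abs_of_pos hs])
  rw [pt_rev, neg_neg, Geo.tgt_rev] at e2
  have e3 := (time_in_strip h.cross hv hu (by rw [h1, abs_of_pos hs])).2
  have e4 : twist l A = fer l A.src.1 - fer l A.tgt.1 := if_pos h.1
  have f1 := fermi_fer l (pt A (xp A l + u))
  have f2 := fermi_fer l (pt A (xp A l - u))
  rw [h1, arsinh_sinh] at f1
  rw [h2, arsinh_neg, arsinh_sinh] at f2
  generalize fer l (pt A (xp A l + u)).1 = fb at e1 f1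
  generalize fer l (pt A (xp A l - u)).1 = fa at e2 f2
  rw [← f1, ← f2, smul_fermi, trans_smul, sh_trans]
  have e5 := dist_fermi_le l fa (fb + -σ) (-v) v
  rw [abs_neg, abs_of_pos hv] at e5
  have e6 : |fa - (fb + -σ)| ≤ |twist l A + σ| + |fa - fer l A.src.1| + |fb - fer l A.tgt.1| := by
    have : fa - (fb + -σ) = (twist l A + σ) + (fa - fer l A.src.1) - (fb - fer l A.tgt.1) := by
      rw [e4]; ring
    rw [this]
    exact (abs_sub _ _).trans (add_le_add (abs_add_le _ _) le_rfl)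
  linarith

theorem GTwLen_walk (A : Geo) (a b f : Geo → ℝ) (σ : Geo → Isom) (s : List Geo)
    (hpw : s.Pairwise fun l m => b l ≤ a m)
    (hD : ∀ l ∈ s, dist (pt A (a l)) (σ l • pt A (b l)) ≤ b l - a l + f l) {s0 u0 : ℝ}
    (h1 : ∀ l ∈ s, s0 ≤ a l) (h2 : ∀ l ∈ s, b l ≤ u0) (h3 : s0 ≤ u0) :
    dist (pt A s0) ((s.map σ).prod • pt A u0) ≤ u0 - s0 + (s.map f).sum := by
  induction s generalizing s0 with
  | nil =>
    simp only [List.map_nil, List.prod_nil, one_smul, dist_pt, List.sum_nil, add_zero]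
    rw [abs_sub_comm, abs_of_nonneg (sub_nonneg.2 h3)]
  | cons l s ih =>
    rw [List.pairwise_cons] at hpw
    have k1 := ih hpw.2 (fun m hm => hD m (List.mem_cons_of_mem _ hm)) hpw.1
      (fun m hm => h2 m (List.mem_cons_of_mem _ hm)) (h2 l List.mem_cons_self)
    have k2 := hD l List.mem_cons_self
    have k3 : dist (pt A s0) (pt A (a l)) = a l - s0 := by
      rw [dist_pt, abs_sub_comm, abs_of_nonneg (sub_nonneg.2 (h1 l List.mem_cons_self))]
    rw [List.map_cons, List.prod_cons, List.map_cons, List.sum_cons, mul_smul]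
    have k4 := dist_triangle4 (pt A s0) (pt A (a l)) (σ l • pt A (b l))
      (σ l • (s.map σ).prod • pt A u0)
    rw [dist_smul] at k4
    linarith

theorem GTwLen_sum (a b f : Geo → ℝ) (s : List Geo) (hpw : s.Pairwise fun l m => b l ≤ a m)
    (hD : ∀ l ∈ s, f l ≤ b l - a l) {s0 u0 : ℝ}
    (h1 : ∀ l ∈ s, s0 ≤ a l) (h2 : ∀ l ∈ s, b l ≤ u0) (h3 : s0 ≤ u0) :
    (s.map f).sum ≤ u0 - s0 := by
  induction s generalizing s0 with
  | nil => simpa using h3
  | cons l s ih =>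
    rw [List.pairwise_cons] at hpw
    have k1 := ih hpw.2 (fun m hm => hD m (List.mem_cons_of_mem _ hm)) hpw.1
      (fun m hm => h2 m (List.mem_cons_of_mem _ hm)) (h2 l List.mem_cons_self)
    have k2 := hD l List.mem_cons_self
    have k3 := h1 l List.mem_cons_self
    rw [List.map_cons, List.sum_cons]
    linarith

theorem GTwLen_mem (hL : Sys ρ L) {g : Γ} (hg : Hyp (ρ g)) {t : ℝ} {l : Geo}
    (hl : l ∈ srt L (pt (ax (ρ g)) t) (ρ g • pt (ax (ρ g)) t)) :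
    l ∈ L ∧ GTwLen_Tr (ax (ρ g)) l ∧ t < xp (ax (ρ g)) l ∧ xp (ax (ρ g)) l < t + tl (ρ g) := by
  rw [hL.mem_srt, hg.smul_pt_ax] at hl
  exact ⟨hl.1, GTwLen_of_sep (lt_add_of_pos_right t hg) hl.2.1 hl.2.2⟩

theorem GTwLen_shift {g : Isom} (hg : Hyp g) {l : Geo} (h : GTwLen_Tr (ax g) l) :
    GTwLen_Tr (ax g) (g • l) ∧ xp (ax g) (g • l) = xp (ax g) l + tl g := by
  refine ⟨⟨?_, ?_⟩, ?_⟩
  · have := (side_smul_circ_neg g l (ax g).src).2 h.1
    rwa [← Geo.src_smul, hg.smul_ax] at this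
  · have := (side_smul_circ_pos g l (ax g).tgt).2 h.2
    rwa [← Geo.tgt_smul, hg.smul_ax] at this
  · have := xp_smul g h.cross.symm
    rwa [hg.smul_ax, hg.sh_ax] at this

theorem GTwLen_order (hL : Sys ρ L) {g : Γ} (hg : Hyp (ρ g)) (t : ℝ) :
    (srt L (pt (ax (ρ g)) t) (ρ g • pt (ax (ρ g)) t)).Pairwise
      fun l m => xp (ax (ρ g)) l ≤ xp (ax (ρ g)) m := by
  refine (hL.pairwise_srt _ _).imp_of_mem fun {l m} hl hm h => ?_
  obtain ⟨-, tl, -⟩ := GTwLen_mem hL hg hl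
  obtain ⟨-, tm, -⟩ := GTwLen_mem hL hg hm
  exact (nest_iff_xp h.1.not_cross tm.2 tm.1 tl.2 tl.1).1 h.1

theorem tl_qrep_le (hL : Sys ρ L) (hτ : Wt ρ L τ) {g : Γ} (hg : Hyp (ρ g)) {t : ℝ}
    (ht : Off L (pt (ax (ρ g)) t)) : tl (qrep hL hτ ht g) ≤ tl (ρ g) +
      ((srt L (pt (ax (ρ g)) t) (ρ g • pt (ax (ρ g)) t)).map fun l => |τ l|).sum := by
  have key := GTwLen_walk (ax (ρ g)) (xp (ax (ρ g))) (xp (ax (ρ g))) (fun l => |τ l|)
    (fun l => trans l (-τ l)) _ (GTwLen_order hL hg t) (fun l hl => by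
      rw [pt_xp (GTwLen_mem hL hg hl).2.1.cross.symm, smul_pt, trans_smul, sh_trans, dist_pt]
      simp) (s0 := t) (u0 := t + tl (ρ g)) (fun l hl => (GTwLen_mem hL hg hl).2.2.1.le)
    (fun l hl => (GTwLen_mem hL hg hl).2.2.2.le) (lt_add_of_pos_right t hg).le
  refine (tl_le _ (pt (ax (ρ g)) t)).trans ?_
  rw [qrep_apply, mul_smul, qc]
  rw [add_sub_cancel_left, ← hg.smul_pt_ax] at key
  exact key

/-- The parameter intervals of the neighbourhoods, in order within one period. -/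
theorem GTwLen_setup (hL : Sys ρ L) (hw : Wid ρ L wd w) {g : Γ} (hg : Hyp (ρ g)) (t : ℝ)
    {s : List Geo} (hs : srt L (pt (ax (ρ g)) t) (ρ g • pt (ax (ρ g)) t) = s) :
    ∃ (u : Geo → ℝ) (s0 : ℝ), (∀ l ∈ s, 0 ≤ u l ∧
        side l (pt (ax (ρ g)) (xp (ax (ρ g)) l + u l)).1 = sinh (wd l) ∧
        side l (pt (ax (ρ g)) (xp (ax (ρ g)) l - u l)).1 = -sinh (wd l)) ∧
      (s.Pairwise fun l m => xp (ax (ρ g)) l + u l ≤ xp (ax (ρ g)) m - u m) ∧
      (∀ l ∈ s, s0 ≤ xp (ax (ρ g)) l - u l) ∧ ∀ l ∈ s, xp (ax (ρ g)) l + u l ≤ s0 + tl (ρ g) := by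
  have hm : ∀ l ∈ s, _ := fun l hl => GTwLen_mem hL hg (t := t) (l := l) (hs ▸ hl)
  have h0 : ∀ l ∈ s, _ := fun l hl =>
    (hm l hl).2.1.ends (hw.pos.trans_le (hw.le l (hm l hl).1))
  choose! u u0 u1 u2 using h0
  have hp : s.Pairwise fun l m => xp (ax (ρ g)) l + u l ≤ xp (ax (ρ g)) m - u m := by
    refine (hs ▸ hL.pairwise_srt _ _).imp_of_mem fun {l m} hl hm' h => ?_
    exact GTwLen_sep hw (hm l hl).1 (hm m hm').1 (hm l hl).2.1 (hm m hm').2.1 h.1 h.2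
      (u1 l hl) (u2 m hm')
  cases s with
  | nil => exact ⟨u, 0, by simp, hp, by simp, by simp⟩
  | cons l₁ s =>
    refine ⟨u, xp (ax (ρ g)) l₁ - u l₁, fun l hl => ⟨u0 l hl, u1 l hl, u2 l hl⟩, hp, ?_, ?_⟩
    · intro l hl
      rcases List.mem_cons.1 hl with rfl | hl
      · exact le_rfl
      · have := (List.pairwise_cons.1 hp).1 l hl
        linarith [u0 l₁ List.mem_cons_self]
    · intro l hl
      obtain ⟨a1, a2, a3, a4⟩ := hm l₁ List.mem_cons_self
      obtain ⟨b1, b2, b3, b4⟩ := hm l hl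
      obtain ⟨c1, c2⟩ := GTwLen_shift hg a2
      have c3 := hL.smul g l₁ a1
      refine GTwLen_sep hw b1 c3 b2 c1
        ((nest_iff_xp (hL.nc _ c3 _ b1) c1.2 c1.1 b2.2 b2.1).2 (by linarith))
        (fun e => by rw [e] at c2; linarith) (u1 l hl) ?_
      rw [← hg.smul_pt_ax, side_smul_pt, hw.wt.smul g l₁ a1]
      exact u2 l₁ List.mem_cons_self

theorem sum_le_tl (hL : Sys ρ L) (hw : Wid ρ L wd w) {g : Γ} (hg : Hyp (ρ g)) {t : ℝ}
    (ht : Off L (pt (ax (ρ g)) t)) :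
    ((srt L (pt (ax (ρ g)) t) (ρ g • pt (ax (ρ g)) t)).map fun l =>
      2 * wd l + |twist l (ax (ρ g))| - (4 + 2 * arcosh (cosh w / sinh w))).sum ≤ tl (ρ g) := by
  obtain ⟨u, s0, h1, h2, h3, h4⟩ := GTwLen_setup hL hw hg t rfl
  refine (GTwLen_sum _ _ _ _ h2 (fun l hl => ?_) h3 h4 (lt_add_of_pos_right s0 hg).le).trans
    (by rw [add_sub_cancel_left])
  obtain ⟨a1, a2, -⟩ := GTwLen_mem hL hg hl
  have hv := hw.pos.trans_le (hw.le l a1)
  have e1 := (time_in_strip a2.cross hv (h1 l hl).1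
    (by rw [(h1 l hl).2.1, abs_of_pos (sinh_pos_iff.2 hv)])).2
  have e2 := GTwLen_coth hw.pos (hw.le l a1)
  linarith

theorem tl_qrep_le' (hL : Sys ρ L) (hτ : Wt ρ L τ) (hw : Wid ρ L wd w) {g : Γ} (hg : Hyp (ρ g))
    {t : ℝ} (ht : Off L (pt (ax (ρ g)) t)) : tl (qrep hL hτ ht g) ≤ tl (ρ g) +
      ((srt L (pt (ax (ρ g)) t) (ρ g • pt (ax (ρ g)) t)).map fun l =>
        |twist l (ax (ρ g)) + τ l| - |twist l (ax (ρ g))| +
          (4 + 4 * arcosh (cosh w / sinh w))).sum := by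
  obtain ⟨u, s0, h1, h2, h3, h4⟩ := GTwLen_setup hL hw hg t rfl
  have key := GTwLen_walk (ax (ρ g)) _ _ (fun l => |twist l (ax (ρ g)) + τ l| -
      |twist l (ax (ρ g))| + (4 + 4 * arcosh (cosh w / sinh w)))
    (fun l => trans l (-τ l)) _ h2 (fun l hl => by
      obtain ⟨a1, a2, -⟩ := GTwLen_mem hL hg hl
      have e1 := GTwLen_across a2 (hw.pos.trans_le (hw.le l a1)) (h1 l hl).1 (h1 l hl).2.1
        (h1 l hl).2.2 (τ l)
      have e2 := GTwLen_coth hw.pos (hw.le l a1)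
      linarith) h3 h4 (lt_add_of_pos_right s0 hg).le
  refine (tl_le _ (pt (ax (ρ g)) s0)).trans ?_
  rw [qrep_apply, mul_smul, qc]
  rw [add_sub_cancel_left, ← hg.smul_pt_ax s0] at key
  exact key

theorem GTwLen_zip (hL : Sys ρ L) (A m : Geo) (hm : m ∈ L ∧ GTwLen_Tr A m) (s : List Geo) :
    ∀ l : Geo, (∀ x ∈ l :: s, (x ∈ L ∧ GTwLen_Tr A x) ∧ xp A x ≤ xp A m) →
      ((l :: s).Pairwise fun x y => xp A x ≤ xp A y) →
      (List.zipWith ldist (l :: s) (s ++ [m])).sum ≤ xp A m - xp A l := by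
  have key : ∀ x y : Geo, x ∈ L ∧ GTwLen_Tr A x → y ∈ L ∧ GTwLen_Tr A y → xp A x ≤ xp A y →
      ldist x y ≤ xp A y - xp A x := fun x y hx hy h => by
    have := ldist_le (hL.nc x hx.1 y hy.1) hx.2.zero hy.2.zero
    rwa [dist_pt, abs_sub_comm, abs_of_nonneg (sub_nonneg.2 h)] at this
  induction s with
  | nil =>
    intro l h _
    simpa using key l m (h l List.mem_cons_self).1 hm (h l List.mem_cons_self).2
  | cons l' s ih =>
    intro l h hp
    rw [List.pairwise_cons] at hp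
    have k1 := ih l' (fun x hx => h x (List.mem_cons_of_mem _ hx)) hp.2
    have k2 := key l l' (h l List.mem_cons_self).1
      (h l' (List.mem_cons_of_mem _ List.mem_cons_self)).1 (hp.1 l' List.mem_cons_self)
    rw [List.cons_append, List.zipWith_cons_cons, List.sum_cons]
    linarith

/-- The length is at least the sum of the distances of consecutive lines. -/
theorem sum_ldist_le_tl (hL : Sys ρ L) {g : Γ} (hg : Hyp (ρ g)) {t : ℝ}
    (ht : Off L (pt (ax (ρ g)) t)) {l : Geo} {s : List Geo}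
    (hs : srt L (pt (ax (ρ g)) t) (ρ g • pt (ax (ρ g)) t) = l :: s) :
    (List.zipWith ldist (l :: s) (s ++ [ρ g • l])).sum ≤ tl (ρ g) := by
  have hm : ∀ x ∈ l :: s, _ := fun x hx => GTwLen_mem hL hg (t := t) (l := x) (hs ▸ hx)
  obtain ⟨a1, a2, a3, -⟩ := hm l List.mem_cons_self
  obtain ⟨c1, c2⟩ := GTwLen_shift hg a2
  have := GTwLen_zip hL (ax (ρ g)) (ρ g • l) ⟨hL.smul g l a1, c1⟩ s l
    (fun x hx => ⟨⟨(hm x hx).1, (hm x hx).2.1⟩, by linarith [(hm x hx).2.2.2]⟩)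
    (hs ▸ GTwLen_order hL hg t)
  linarith

end HRT
end

-- merged part: Pool.Agent.Work.MP_35beee_gt.GInter
section
/-!
Intersection numbers as counts of lifts crossing a fundamental segment of the axis.

Plan. For primitive hyperbolic `δ` the map `d ↦ ax (ρ d)` is a bijection from the conjugates of
`δ` to the translates of `ax (ρ δ)` (`eq_of_ax_eq`); conjugation by `g ^ n` shifts the crossing
parameter `xp` by `n * tl` (`xp_smul`, `sh_zpow`), so every class has exactly one representative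
with crossing parameter in `[t, t + tl)`. `inter_comm`: both sides count the orbits of `Γ` on
crossing pairs (translate of `ax g`, translate of `ax δ`).
-/

namespace HRT

open Set Filter Topology Real

variable {Γ : Type*} [Group Γ] {ρ : Γ →* Isom}

/-- Translates of the axis of `δ` crossing the axis of `g` in the fundamental segment starting at
the parameter `t`. -/
def xset (ρ : Γ →* Isom) (g δ : Γ) (t : ℝ) : Set Geo :=
  {l | (∃ k : Γ, l = ρ k • ax (ρ δ)) ∧ Cross (ax (ρ g)) l ∧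
    xp (ax (ρ g)) l ∈ Ico t (t + tl (ρ g))}

theorem GInter_card_rep {X : Type*} {r : X → X → Prop} (hr : Equivalence r) (S : Set X)
    (h1 : ∀ x, ∃ y ∈ S, r x y) (h2 : ∀ x ∈ S, ∀ y ∈ S, r x y → x = y) :
    Nat.card (Quot r) = Nat.card S := by
  symm
  refine Nat.card_eq_of_bijective (fun s : S => Quot.mk r s.1) ⟨fun a b h => ?_, fun q => ?_⟩
  · exact Subtype.ext (h2 _ a.2 _ b.2 (hr.eqvGen_iff.1 (Quot.eq.1 h)))
  · induction q using Quot.ind with
    | mk x =>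
      obtain ⟨y, hy, hxy⟩ := h1 x
      exact ⟨⟨y, hy⟩, (Quot.sound hxy).symm⟩

theorem GInter_card_map {X Y : Type*} {r : X → X → Prop} {s : Y → Y → Prop} (hs : Equivalence s)
    (f : X → Y) (hf : Function.Surjective f) (h : ∀ a b, r a b ↔ s (f a) (f b)) :
    Nat.card (Quot r) = Nat.card (Quot s) := by
  refine Nat.card_eq_of_bijective (Quot.map f fun a b hab => (h a b).1 hab)
    ⟨fun a b hab => ?_, fun q => ?_⟩
  · induction a using Quot.ind with
    | mk a =>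
      induction b using Quot.ind with
      | mk b => exact Quot.sound ((h a b).2 (hs.eqvGen_iff.1 (Quot.eq.1 hab)))
  · induction q using Quot.ind with
    | mk y =>
      obtain ⟨x, rfl⟩ := hf y
      exact ⟨Quot.mk r x, rfl⟩

theorem GInter_equiv (g : Γ) (P : Γ → Prop) :
    Equivalence fun d d' : {d : Γ // P d} => ∃ n : ℤ, d'.1 = g ^ n * d.1 * (g ^ n)⁻¹ := by
  refine ⟨fun x => ⟨0, by simp⟩, ?_, ?_⟩
  · rintro x y ⟨n, h⟩
    exact ⟨-n, by rw [h]; group⟩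
  · rintro x y z ⟨n, h⟩ ⟨m, h'⟩
    exact ⟨m + n, by rw [h', h]; group⟩

theorem GInter_link_conj {g h : Isom} (A : Isom) (H : Link g h) :
    Link (A * g * A⁻¹) (A * h * A⁻¹) := by
  obtain ⟨a, b, c, d, ha, hb, hc, hd, h1, h2⟩ := H
  refine ⟨A • a, A • b, A • c, A • d, ?_, ?_, ?_, ?_, (ccw_smul_iff A).2 h1, (ccw_smul_iff A).2 h2⟩
  · rw [mul_smul, mul_smul, inv_smul_smul, ha]
  · rw [mul_smul, mul_smul, inv_smul_smul, hb]
  · rw [mul_smul, mul_smul, inv_smul_smul, hc]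
  · rw [mul_smul, mul_smul, inv_smul_smul, hd]

theorem GInter_inv_fix (g : Isom) (a : Circ) : g⁻¹ • a = a ↔ g • a = a :=
  inv_smul_eq_iff.trans eq_comm

theorem GInter_link_inv_left {g h : Isom} : Link g⁻¹ h ↔ Link g h := by
  simp only [Link, GInter_inv_fix]

theorem GInter_link_inv_right {g h : Isom} : Link g h⁻¹ ↔ Link g h := by
  simp only [Link, GInter_inv_fix]

theorem GInter_hyp_conj {δ d : Γ} (hδ : Hyp (ρ δ)) (h : IsConj δ d) : Hyp (ρ d) := by
  obtain ⟨k, rfl⟩ := isConj_iff.1 h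
  unfold Hyp
  rwa [tl_conj']

theorem GInter_cross_zpow {g : Γ} (hg : Hyp (ρ g)) (n : ℤ) {l : Geo} (h : Cross (ax (ρ g)) l) :
    Cross (ax (ρ g)) (ρ (g ^ n) • l) ∧
      xp (ax (ρ g)) (ρ (g ^ n) • l) = xp (ax (ρ g)) l + n * tl (ρ g) := by
  have h1 : ρ (g ^ n) • ax (ρ g) = ax (ρ g) := by rw [map_zpow]; exact hg.zpow_smul_ax n
  have h2 := xp_smul (ρ (g ^ n)) h
  have h3 := (cross_smul (ρ (g ^ n))).2 h
  rw [h1] at h2 h3
  refine ⟨h3, ?_⟩
  rw [h2, map_zpow, hg.sh_zpow]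

theorem GInter_exists_shift {L : ℝ} (hL : 0 < L) (x t : ℝ) :
    ∃ n : ℤ, x + n * L ∈ Ico t (t + L) := by
  refine ⟨-toIcoDiv hL t x, ?_⟩
  have h := sub_toIcoDiv_zsmul_mem_Ico hL t x
  rw [zsmul_eq_mul] at h
  rw [Int.cast_neg, neg_mul, ← sub_eq_add_neg]
  exact h

theorem GInter_shift_eq_zero {L x t : ℝ} {n : ℤ} (h1 : x ∈ Ico t (t + L))
    (h2 : x + n * L ∈ Ico t (t + L)) : n = 0 := by
  have hL : 0 < L := by linarith [h1.1, h1.2]
  have h3 : (n : ℝ) < 1 := by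
    by_contra hc
    nlinarith [h1.1, h2.2]
  have h4 : (-1 : ℝ) < n := by
    by_contra hc
    nlinarith [h1.2, h2.1]
  have h5 : n < 1 := by exact_mod_cast h3
  have h6 : -1 < n := by exact_mod_cast h4
  omega

theorem GInter_pack {X : Type*} (f : X → ℝ) {w a : ℝ} (S : Finset X) :
    ∀ b : ℝ, a ≤ b → (∀ x ∈ S, a ≤ f x ∧ f x + w ≤ b) →
      (∀ x ∈ S, ∀ y ∈ S, x ≠ y → w ≤ |f x - f y|) → S.card * w ≤ b - a := by
  classical
  induction S using Finset.induction_on_max_value f with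
  | empty =>
    intro b hab _ _
    simpa using hab
  | insert m S hm hmax ih =>
    intro b _ h1 h2
    have h3 := h1 m (Finset.mem_insert_self m S)
    have h4 := ih (f m) h3.1 (fun x hx => ⟨(h1 x (Finset.mem_insert_of_mem hx)).1, ?_⟩)
      fun x hx y hy => h2 x (Finset.mem_insert_of_mem hx) y (Finset.mem_insert_of_mem hy)
    · rw [Finset.card_insert_of_notMem hm]
      push_cast
      linarith [h3.2]
    · have h5 := h2 m (Finset.mem_insert_self m S) x (Finset.mem_insert_of_mem hx)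
        fun h => hm (h ▸ hx)
      rw [abs_of_nonneg (sub_nonneg.2 (hmax x hx))] at h5
      linarith

/-- Translates of the axis of `δ` crossing the line `A` between two parameters. -/
def GInter_set (ρ : Γ →* Isom) (A : Geo) (δ : Γ) (a b : ℝ) : Set Geo :=
  {l | (∃ k : Γ, l = ρ k • ax (ρ δ)) ∧ Cross A l ∧ xp A l ∈ Ico a b}

theorem GInter_finite (hρ : Disc ρ) (A : Geo) {δ : Γ} (hδ : Hyp (ρ δ)) (a b : ℝ) :
    (GInter_set ρ A δ a b).Finite := by
  refine (hρ.finite_lifts hδ (pt A a) (sinh (b - a))).subset ?_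
  rintro l ⟨h1, h2, h3, h4⟩
  refine ⟨h1, ?_⟩
  have h5 := abs_arsinh_side_le l (pt A a) (pt A (xp A l))
  rw [(side_pt_eq_zero_iff h2 _).2 rfl, arsinh_zero, sub_zero, dist_pt, abs_sub_comm,
    abs_of_nonneg (sub_nonneg.2 h3)] at h5
  rw [← sinh_arsinh (side l (pt A a).1), abs_sinh]
  exact sinh_le_sinh.2 (by linarith)

theorem GInter_side_iff {A l : Geo} (h : Cross A l) {a b : ℝ} (hab : a ≤ b)
    (ha : side l (pt A a).1 ≠ 0) :
    side l (pt A a).1 * side l (pt A b).1 < 0 ↔ xp A l ∈ Ico a b := by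
  have h0 : side l A.tgt.1 ≠ 0 := by
    intro h0
    have h1 := h.symm
    rw [Cross, h0, mul_zero] at h1
    exact lt_irrefl _ h1
  have h1 := side_pt_mul_pos_iff h a
  have h2 := side_pt_mul_pos_iff h b
  have h3 : 0 < side l A.tgt.1 * side l A.tgt.1 := mul_self_pos.2 h0
  have h4 := mul_ne_zero ha h0
  generalize side l (pt A a).1 = x at *
  generalize side l (pt A b).1 = y at *
  generalize side l A.tgt.1 = z at *
  constructor
  · intro h5
    have h6 : (x * z) * (y * z) < 0 := by nlinarith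
    rcases mul_neg_iff.1 h6 with h7 | h7
    · have h8 := h2.2 ((h1.1 h7.1).trans_le hab)
      linarith [h7.2]
    · exact ⟨not_lt.1 fun h8 => by linarith [h1.2 h8, h7.1], h2.1 h7.2⟩
  · rintro ⟨h5, h6⟩
    have h7 : x * z < 0 := lt_of_le_of_ne (not_lt.1 fun h8 => by linarith [h1.1 h8]) h4
    have h8 := h2.2 h6
    have h9 : (x * y) * (z * z) < 0 := by nlinarith
    by_contra hc
    nlinarith

theorem inter_conj_left (g δ k : Γ) : inter ρ (k * g * k⁻¹) δ = inter ρ g δ := by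
  symm
  unfold inter
  refine GInter_card_map (GInter_equiv _ _) (fun d => ⟨k * d.1 * k⁻¹,
    d.2.1.trans (isConj_iff.2 ⟨k, rfl⟩), ?_⟩) (fun d => ⟨⟨k⁻¹ * d.1 * k⁻¹⁻¹,
    d.2.1.trans (isConj_iff.2 ⟨k⁻¹, rfl⟩), ?_⟩, Subtype.ext ?_⟩) fun a b => ?_
  · simp only [map_mul, map_inv]
    exact GInter_link_conj _ d.2.2
  · have h := GInter_link_conj (ρ k)⁻¹ d.2.2
    have e : (ρ k)⁻¹ * ρ (k * g * k⁻¹) * (ρ k)⁻¹⁻¹ = ρ g := by
      simp only [map_mul, map_inv]
      group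
    rw [e] at h
    simpa only [map_mul, map_inv] using h
  · change k * (k⁻¹ * d.1 * k⁻¹⁻¹) * k⁻¹ = d.1
    group
  · refine exists_congr fun n => ?_
    change _ ↔ k * b.1 * k⁻¹ = (k * g * k⁻¹) ^ n * (k * a.1 * k⁻¹) * ((k * g * k⁻¹) ^ n)⁻¹
    rw [conj_zpow]
    constructor
    · intro h
      rw [h]
      group
    · intro h
      calc b.1 = k⁻¹ * (k * b.1 * k⁻¹) * k := by group
        _ = _ := by rw [h]; group

theorem inter_conj_right (g δ k : Γ) : inter ρ g (k * δ * k⁻¹) = inter ρ g δ := by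
  have h : IsConj δ (k * δ * k⁻¹) := isConj_iff.2 ⟨k, rfl⟩
  unfold inter
  exact GInter_card_map (GInter_equiv _ _) (fun d => ⟨d.1, h.trans d.2.1, d.2.2⟩)
    (fun d => ⟨⟨d.1, h.symm.trans d.2.1, d.2.2⟩, rfl⟩) fun a b => Iff.rfl

theorem inter_inv_left (g δ : Γ) : inter ρ g⁻¹ δ = inter ρ g δ := by
  have h : ∀ d : Γ, Link (ρ g⁻¹) (ρ d) ↔ Link (ρ g) (ρ d) := fun d => by
    rw [map_inv, GInter_link_inv_left]
  unfold inter
  refine GInter_card_map (GInter_equiv _ _) (fun d => ⟨d.1, d.2.1, (h _).1 d.2.2⟩)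
    (fun d => ⟨⟨d.1, d.2.1, (h _).2 d.2.2⟩, rfl⟩) fun a b => ?_
  constructor
  · rintro ⟨n, hn⟩
    exact ⟨-n, by rw [hn]; group⟩
  · rintro ⟨n, hn⟩
    refine ⟨-n, ?_⟩
    change b.1 = g ^ n * a.1 * (g ^ n)⁻¹ at hn
    rw [hn]
    group

theorem inter_inv_right (g δ : Γ) : inter ρ g δ⁻¹ = inter ρ g δ := by
  have h : ∀ d : Γ, Link (ρ g) (ρ d⁻¹) ↔ Link (ρ g) (ρ d) := fun d => by
    rw [map_inv, GInter_link_inv_right]
  have h' : ∀ {a b : Γ}, IsConj a b → IsConj a⁻¹ b⁻¹ := fun {a b} hab => by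
    obtain ⟨k, rfl⟩ := isConj_iff.1 hab
    exact isConj_iff.2 ⟨k, by group⟩
  symm
  unfold inter
  refine GInter_card_map (GInter_equiv _ _) (fun d => ⟨d.1⁻¹, h' d.2.1, (h _).2 d.2.2⟩)
    (fun d => ⟨⟨d.1⁻¹, by simpa using h' d.2.1, (h _).2 d.2.2⟩, Subtype.ext (inv_inv _)⟩)
    fun a b => exists_congr fun n => ?_
  change _ ↔ b.1⁻¹ = g ^ n * a.1⁻¹ * (g ^ n)⁻¹
  rw [inv_eq_iff_eq_inv]
  refine Eq.congr_right ?_
  group

theorem inter_of_par {g : Γ} (hg : Par (ρ g)) (δ : Γ) : inter ρ g δ = 0 := by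
  unfold inter
  have : IsEmpty {d : Γ // IsConj δ d ∧ Link (ρ g) (ρ d)} := ⟨fun d => hg.not_link_left d.2.2⟩
  exact Nat.card_of_isEmpty

namespace Disc

variable (hρ : Disc ρ)
include hρ

theorem finite_xset {g δ : Γ} (hδ : Hyp (ρ δ)) (t : ℝ) : (xset ρ g δ t).Finite :=
  GInter_finite hρ _ hδ _ _

theorem inter_eq_ncard {g δ : Γ} (hg : Hyp (ρ g)) (hδ : Hyp (ρ δ)) (hp : Prim δ) (t : ℝ) :
    inter ρ g δ = (xset ρ g δ t).ncard := by
  have hc : ∀ d : {d : Γ // IsConj δ d ∧ Link (ρ g) (ρ d)}, Cross (ax (ρ g)) (ax (ρ d.1)) :=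
    fun d => (link_iff hg (GInter_hyp_conj hδ d.2.1)).1 d.2.2
  unfold inter
  rw [GInter_card_rep (GInter_equiv _ _)
    {d | xp (ax (ρ g)) (ax (ρ d.1)) ∈ Ico t (t + tl (ρ g))}, ← Nat.card_coe_set_eq]
  · refine Nat.card_eq_of_bijective (fun d => ⟨ax (ρ d.1.1), ?_, hc d.1, d.2⟩)
      ⟨fun a b h => ?_, fun l => ?_⟩
    · obtain ⟨k, hk⟩ := isConj_iff.1 d.1.2.1
      exact ⟨k, by rw [← hk, ax_conj' hδ]⟩
    · have hP : ∀ d : Γ, IsConj δ d → Prim d := fun d hd => by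
        obtain ⟨k, rfl⟩ := isConj_iff.1 hd
        exact hp.conj k
      exact Subtype.ext (Subtype.ext (hρ.eq_of_ax_eq (GInter_hyp_conj hδ a.1.2.1) (hP _ a.1.2.1)
        (GInter_hyp_conj hδ b.1.2.1) (hP _ b.1.2.1) (congrArg Subtype.val h)))
    · obtain ⟨l, ⟨k, rfl⟩, h1, h2⟩ := l
      have h3 : IsConj δ (k * δ * k⁻¹) := isConj_iff.2 ⟨k, rfl⟩
      refine ⟨⟨⟨k * δ * k⁻¹, h3, (link_iff hg (GInter_hyp_conj hδ h3)).2 ?_⟩, ?_⟩,
        Subtype.ext (ax_conj' hδ k)⟩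
      · rwa [ax_conj' hδ]
      · change xp _ (ax (ρ (k * δ * k⁻¹))) ∈ Ico _ _
        rwa [ax_conj' hδ]
  · intro d
    obtain ⟨n, hn⟩ := GInter_exists_shift hg (xp (ax (ρ g)) (ax (ρ d.1))) t
    have h1 := GInter_cross_zpow hg n (hc d)
    have h2 := GInter_hyp_conj hδ d.2.1
    have h3 : IsConj δ (g ^ n * d.1 * (g ^ n)⁻¹) := d.2.1.trans (isConj_iff.2 ⟨g ^ n, rfl⟩)
    rw [← ax_conj' h2] at h1
    refine ⟨⟨g ^ n * d.1 * (g ^ n)⁻¹, h3, (link_iff hg (GInter_hyp_conj hδ h3)).2 h1.1⟩, ?_, n, rfl⟩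
    change xp _ (ax (ρ (g ^ n * d.1 * (g ^ n)⁻¹))) ∈ Ico _ _
    rwa [h1.2]
  · rintro a ha b hb ⟨n, hn⟩
    have h1 := GInter_cross_zpow hg n (hc a)
    rw [← ax_conj' (GInter_hyp_conj hδ a.2.1), ← hn] at h1
    change xp _ (ax (ρ b.1)) ∈ Ico _ _ at hb
    rw [h1.2] at hb
    have h2 := GInter_shift_eq_zero ha hb
    apply Subtype.ext
    rw [hn, h2]
    simp

theorem inter_eq_zero_iff {g δ : Γ} (hg : Hyp (ρ g)) (hδ : Hyp (ρ δ)) (hp : Prim δ) :
    inter ρ g δ = 0 ↔ ∀ k : Γ, ¬ Cross (ax (ρ g)) (ρ k • ax (ρ δ)) := by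
  rw [hρ.inter_eq_ncard hg hδ hp 0, ncard_eq_zero (hρ.finite_xset hδ 0), eq_empty_iff_forall_notMem]
  constructor
  · intro h k hk
    obtain ⟨n, hn⟩ := GInter_exists_shift hg (xp (ax (ρ g)) (ρ k • ax (ρ δ))) 0
    have h1 := GInter_cross_zpow hg n hk
    refine h _ ⟨⟨g ^ n * k, ?_⟩, h1.1, by rwa [h1.2]⟩
    rw [map_mul, mul_smul]
  · rintro h l ⟨⟨k, rfl⟩, h1, -⟩
    exact h k h1

theorem GInter_double {g δ : Γ} (hg : Hyp (ρ g)) (hδ : Hyp (ρ δ)) (hp : Prim δ) :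
    inter ρ g δ = Nat.card (Quot fun k k' : {k : Γ // Cross (ax (ρ g)) (ρ k • ax (ρ δ))} =>
      ∃ n m : ℤ, k'.1 = g ^ n * k.1 * δ ^ m) := by
  have h3 : ∀ k : Γ, IsConj δ (k * δ * k⁻¹) := fun k => isConj_iff.2 ⟨k, rfl⟩
  symm
  unfold inter
  refine GInter_card_map (GInter_equiv _ _) (fun k => ⟨k.1 * δ * k.1⁻¹, h3 _,
    (link_iff hg (GInter_hyp_conj hδ (h3 _))).2 (by rw [ax_conj' hδ]; exact k.2)⟩)
    (fun d => ?_) fun a b => ?_
  · obtain ⟨k, hk⟩ := isConj_iff.1 d.2.1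
    have h1 := (link_iff hg (GInter_hyp_conj hδ d.2.1)).1 d.2.2
    rw [← hk, ax_conj' hδ] at h1
    exact ⟨⟨k, h1⟩, Subtype.ext hk⟩
  · constructor
    · rintro ⟨n, m, h⟩
      refine ⟨n, ?_⟩
      change b.1 * δ * b.1⁻¹ = g ^ n * (a.1 * δ * a.1⁻¹) * (g ^ n)⁻¹
      rw [h]
      group
    · rintro ⟨n, h⟩
      change b.1 * δ * b.1⁻¹ = g ^ n * (a.1 * δ * a.1⁻¹) * (g ^ n)⁻¹ at h
      have h1 : (g ^ n * a.1)⁻¹ * b.1 * δ * ((g ^ n * a.1)⁻¹ * b.1)⁻¹ = δ := by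
        calc _ = (g ^ n * a.1)⁻¹ * (b.1 * δ * b.1⁻¹) * (g ^ n * a.1) := by group
          _ = δ := by rw [h]; group
      have h2 := ax_conj' hδ ((g ^ n * a.1)⁻¹ * b.1)
      rw [h1] at h2
      obtain ⟨m, hm⟩ := Subgroup.mem_zpowers_iff.1 ((hρ.smul_ax_iff hδ hp _).1 h2.symm)
      exact ⟨n, m, by rw [hm]; group⟩

theorem inter_comm {g δ : Γ} (hg : Hyp (ρ g)) (hg' : Prim g) (hδ : Hyp (ρ δ)) (hp : Prim δ) :
    inter ρ g δ = inter ρ δ g := by
  have key : ∀ {A C : Geo} {k : Γ}, Cross A (ρ k • C) → Cross C (ρ k⁻¹ • A) := fun {A C k} h => by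
    have h1 := (cross_smul (ρ k⁻¹)).2 h.symm
    rwa [← mul_smul, ← map_mul, inv_mul_cancel, map_one, one_smul] at h1
  rw [hρ.GInter_double hg hδ hp, hρ.GInter_double hδ hg hg']
  refine Nat.card_congr (Quot.congr ⟨fun k => ⟨k.1⁻¹, key k.2⟩, fun k => ⟨k.1⁻¹, key k.2⟩,
    fun k => Subtype.ext (inv_inv _), fun k => Subtype.ext (inv_inv _)⟩ fun a b => ?_)
  constructor
  · rintro ⟨n, m, h⟩
    refine ⟨-m, -n, ?_⟩
    change b.1⁻¹ = δ ^ (-m) * a.1⁻¹ * g ^ (-n)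
    rw [h]
    group
  · rintro ⟨n, m, h⟩
    change b.1⁻¹ = δ ^ n * a.1⁻¹ * g ^ m at h
    refine ⟨-m, -n, ?_⟩
    rw [inv_eq_iff_eq_inv.1 h]
    group

theorem inter_pow {g δ : Γ} (hg : Hyp (ρ g)) (hδ : Hyp (ρ δ)) (hp : Prim δ) (n : ℕ) (hn : n ≠ 0) :
    inter ρ (g ^ n) δ = n * inter ρ g δ := by
  have key : ∀ m : ℕ, (GInter_set ρ (ax (ρ g)) δ 0 (m * tl (ρ g))).ncard = m * inter ρ g δ := by
    intro m
    induction m with
    | zero =>
      have h : GInter_set ρ (ax (ρ g)) δ 0 ((0 : ℕ) * tl (ρ g)) = ∅ := by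
        ext l
        simp [GInter_set]
      rw [h, ncard_empty, zero_mul]
    | succ m ih =>
      have h0 : 0 ≤ m * tl (ρ g) := mul_nonneg m.cast_nonneg hg.le
      have h : GInter_set ρ (ax (ρ g)) δ 0 ((m + 1 : ℕ) * tl (ρ g)) =
          GInter_set ρ (ax (ρ g)) δ 0 (m * tl (ρ g)) ∪ xset ρ g δ (m * tl (ρ g)) := by
        ext l
        simp only [GInter_set, xset, mem_ofPred_eq, mem_union, ← and_or_left]
        rw [← mem_union, Ico_union_Ico_eq_Ico h0 (le_add_of_nonneg_right hg.le), Nat.cast_succ,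
          add_mul, one_mul]
      rw [h, ncard_union_eq ?_ (GInter_finite hρ _ hδ _ _) (hρ.finite_xset hδ _), ih,
        ← hρ.inter_eq_ncard hg hδ hp, Nat.succ_mul]
      rw [Set.disjoint_left]
      rintro l ⟨-, -, -, h1⟩ ⟨-, -, h2, -⟩
      exact absurd h1 (not_lt.2 h2)
  obtain ⟨h1, h2, h3⟩ := hg.pow hn
  rw [← map_pow] at h1 h2 h3
  rw [hρ.inter_eq_ncard h1 hδ hp 0, ← key n, xset, h2, h3, zero_add]
  rfl

theorem inter_self {s : Γ} (hs : Simple ρ s) : inter ρ s s = 0 :=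
  (hρ.inter_eq_zero_iff hs.hyp hs.hyp hs.prim).2 hs.line

theorem GInter_ne_rev (A : Geo) (a b : Γ) : ρ a • A ≠ (ρ b • A).rev := by
  have h := hρ.smul_ne_rev (a * b⁻¹) (ρ b • A)
  rwa [← mul_smul, ← map_mul, inv_mul_cancel_right] at h

theorem GInter_sep {s : Γ} (hs : Simple ρ s) {A : Geo} {a b : Γ}
    (ha : Cross A (ρ a • ax (ρ s))) (hb : Cross A (ρ b • ax (ρ s)))
    (hne : ρ a • ax (ρ s) ≠ ρ b • ax (ρ s)) :
    colW (tl (ρ s)) ≤ |xp A (ρ a • ax (ρ s)) - xp A (ρ b • ax (ρ s))| := by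
  have hL := (multi_single hs).sys hρ
  have h1 := hL.side_ne_zero (l := ρ a • ax (ρ s)) (m := ρ b • ax (ρ s)) ⟨(), a, Or.inl rfl⟩
    ⟨(), b, Or.inl rfl⟩ hne.symm (hρ.GInter_ne_rev _ b a)
  have h2 : Hyp (ρ (a * s * a⁻¹)) := (hs.conj a).hyp
  have h3 := colW_le h2 (m := ρ b • ax (ρ s)) (by rwa [ax_conj' hs.hyp]) (by
    rw [← mul_smul, ← map_mul]
    exact hs.line.not_cross _ _)
  rw [ax_conj' hs.hyp, tl_conj'] at h3
  rw [← dist_pt A]
  exact h3.trans (ldist_le (hs.line.not_cross a b) ((side_pt_eq_zero_iff ha _).2 rfl)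
    ((side_pt_eq_zero_iff hb _).2 rfl))

/-- Crossing a simple closed curve costs the width of its collar. -/
theorem inter_mul_colW_le {g s : Γ} (hg : Hyp (ρ g)) (hs : Simple ρ s) :
    inter ρ g s * colW (tl (ρ s)) ≤ tl (ρ g) := by
  by_cases h0 : inter ρ g s = 0
  · rw [h0, Nat.cast_zero, zero_mul]
    exact hg.le
  obtain ⟨k, hk⟩ := not_forall.1 (mt (hρ.inter_eq_zero_iff hg hs.hyp hs.prim).2 h0)
  have hk := not_not.1 hk
  have h1 := GInter_cross_zpow hg 1 hk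
  rw [← mul_smul, ← map_mul, Int.cast_one, one_mul] at h1
  generalize xp (ax (ρ g)) (ρ k • ax (ρ s)) = t at h1
  have hf := hρ.finite_xset (g := g) hs.hyp t
  rw [hρ.inter_eq_ncard hg hs.hyp hs.prim t, ncard_eq_toFinset_card _ hf]
  have h2 := GInter_pack (xp (ax (ρ g))) (w := colW (tl (ρ s))) (a := t) hf.toFinset
    (t + tl (ρ g)) (le_add_of_nonneg_right hg.le) ?_ ?_
  · linarith
  · intro l hl
    obtain ⟨⟨a, rfl⟩, h3, h4, h5⟩ := hf.mem_toFinset.1 hl
    have h6 := hρ.GInter_sep hs h1.1 h3 fun h => by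
      rw [← h, h1.2] at h5
      exact lt_irrefl _ h5
    rw [h1.2, abs_of_nonneg (sub_nonneg.2 h5.le)] at h6
    exact ⟨h4, by linarith⟩
  · intro l hl m hm hne
    obtain ⟨⟨a, rfl⟩, h3, -⟩ := hf.mem_toFinset.1 hl
    obtain ⟨⟨b, rfl⟩, h4, -⟩ := hf.mem_toFinset.1 hm
    exact hρ.GInter_sep hs h3 h4 hne

theorem GInter_ncard_sepS {g s : Γ} (hg : Hyp (ρ g)) (hs : Simple ρ s) {t : ℝ}
    (ht : Off (lifts ρ fun _ : Unit => s) (pt (ax (ρ g)) t)) :
    (sepS (lifts ρ fun _ : Unit => s) (pt (ax (ρ g)) t) (ρ g • pt (ax (ρ g)) t).1).ncard =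
      inter ρ g s := by
  classical
  have hle : t ≤ t + tl (ρ g) := le_add_of_nonneg_right hg.le
  rw [hρ.inter_eq_ncard hg hs.hyp hs.prim t, hg.smul_pt_ax]
  symm
  refine ncard_congr (fun l _ => if side l (pt (ax (ρ g)) t).1 < 0 then l else l.rev) ?_ ?_ ?_
  · rintro l ⟨⟨k, rfl⟩, h1, h2⟩
    have h3 := ht _ ⟨(), k, Or.inl rfl⟩
    have h4 := (GInter_side_iff h1 hle h3).2 h2
    split_ifs with h5
    · exact ⟨⟨(), k, Or.inl rfl⟩, h5, pos_of_mul_neg_right h4 h5.le⟩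
    · have h6 := lt_of_le_of_ne (not_lt.1 h5) h3.symm
      refine ⟨⟨(), k, Or.inr rfl⟩, ?_, ?_⟩
      · rw [side_rev]
        linarith
      · rw [side_rev]
        linarith [neg_of_mul_neg_right h4 h6.le]
  · rintro l m ⟨⟨a, rfl⟩, -⟩ ⟨⟨b, rfl⟩, -⟩ h
    split_ifs at h
    · exact h
    · exact absurd h (hρ.GInter_ne_rev _ a b)
    · exact absurd h.symm (hρ.GInter_ne_rev _ b a)
    · simpa using congrArg Geo.rev h
  · rintro l ⟨⟨_, k, hk⟩, h1, h2⟩
    have h3 := mul_neg_of_neg_of_pos h1 h2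
    rcases hk with rfl | rfl
    · have h4 := cross_of_side_mul_neg h3
      exact ⟨_, ⟨⟨k, rfl⟩, h4, (GInter_side_iff h4 hle h1.ne).1 h3⟩, if_pos h1⟩
    · rw [side_rev, side_rev, neg_mul_neg] at h3
      rw [side_rev] at h1
      have h4 := cross_of_side_mul_neg h3
      have h5 : 0 < side (ρ k • ax (ρ s)) (pt (ax (ρ g)) t).1 := by linarith
      exact ⟨_, ⟨⟨k, rfl⟩, h4, (GInter_side_iff h4 hle h5.ne').1 h3⟩, if_neg (not_lt.2 h5.le)⟩

/-- Sums over the lines met by a fundamental segment of the axis. -/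
theorem sum_srt {ι : Type} [Fintype ι] {R : ι → Γ} (hR : Multi ρ R) {g : Γ} (hg : Hyp (ρ g))
    {t : ℝ} (ht : Off (lifts ρ R) (pt (ax (ρ g)) t)) {W : Geo → ℝ} {w : ι → ℝ}
    (hW : ∀ (i : ι), ∀ l ∈ lifts ρ fun _ : Unit => R i, W l = w i) :
    ((srt (lifts ρ R) (pt (ax (ρ g)) t) (ρ g • pt (ax (ρ g)) t)).map W).sum =
      ∑ i, w i * inter ρ g (R i) := by
  classical
  have hL := hR.sys hρ
  have hsub : ∀ i, (lifts ρ fun _ : Unit => R i) ⊆ lifts ρ R := fun i l ⟨_, k, hk⟩ => ⟨i, k, hk⟩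
  have hc : ∀ i, _ := fun i => hρ.GInter_ncard_sepS hg (hR.1 i) fun l hl => ht l (hsub i hl)
  generalize ρ g • pt (ax (ρ g)) t = q at hc ⊢
  generalize pt (ax (ρ g)) t = p at hc ⊢
  have hf : ∀ i, (sepS (lifts ρ fun _ : Unit => R i) p q.1).Finite := fun i =>
    (hL.finite_sepS p q).subset fun l hl => ⟨hsub i hl.1, hl.2⟩
  have hn : (srt (lifts ρ R) p q).Nodup := (hL.pairwise_srt p q).imp fun h => h.2.symm
  have he : (srt (lifts ρ R) p q).toFinset = Finset.univ.biUnion fun i => (hf i).toFinset := by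
    ext l
    simp only [List.mem_toFinset, hL.mem_srt, Finset.mem_biUnion, Finset.mem_univ, true_and,
      Finite.mem_toFinset]
    constructor
    · rintro ⟨⟨i, k, hk⟩, h⟩
      exact ⟨i, ⟨(), k, hk⟩, h⟩
    · rintro ⟨i, h⟩
      exact ⟨hsub i h.1, h.2⟩
  rw [← List.sum_toFinset W hn, he, Finset.sum_biUnion]
  · refine Finset.sum_congr rfl fun i _ => ?_
    rw [Finset.sum_congr rfl fun l hl => hW i l ((hf i).mem_toFinset.1 hl).1, Finset.sum_const,
      nsmul_eq_mul, mul_comm, ← hc i, ncard_eq_toFinset_card _ (hf i)]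
  · intro i _ j _ hij
    rw [Function.onFun, Finset.disjoint_left]
    intro l hi hj
    exact hij (hR.label_unique hρ ((hf i).mem_toFinset.1 hi).1 ((hf j).mem_toFinset.1 hj).1)

end Disc

end HRT
end

-- merged part: Pool.Agent.Work.MP_35beee_gt.GTwist2
section
/-!
Properties of Dehn twists.

Plan. Unfold `IsTw` with `σ = ρ`, the weight of `Multi.exists_weight`, and a convenient base point.
With `f` the marking from `ρ` to `ρ ∘ φ`, `ax (ρ (φ g)) = (ax (ρ g)).map f`, and a curve `s` not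
crossing the system has `(ax (ρ s)).map f = ρ e • ax (ρ s)` for some `e` (`IsQmap.map_eq`).
-/

namespace HRT

open Set Filter Topology Real

variable {Γ : Type*} [Group Γ] {ρ : Γ →* Isom}

variable {ι : Type} [Fintype ι] {R : ι → Γ} {k : ι → ℤ} {φ : Γ ≃* Γ}

theorem IsTw.of_mark (hφ : IsTw ρ R k φ) {σ : Γ →* Isom} {h : Circ ≃ₜ Circ} (hm : IsMark ρ σ h) :
    IsTw σ R k φ := fun σ' _ hm' => hφ σ' _ (hm.trans hm')

theorem GTwist2_ends {A l : Geo} (hc : ¬ Cross A l) {t : ℝ} (h : side l (pt A t).1 ≤ 0) :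
    side l A.src.1 ≤ 0 ∧ side l A.tgt.1 ≤ 0 := by
  have h1 : 0 ≤ side l A.src.1 * side l A.tgt.1 := not_lt.1 fun h' => hc (Cross.symm h')
  have h2 : 0 < (√(-2 * B A.src.1 A.tgt.1))⁻¹ :=
    inv_pos.2 (sqrt_pos.2 (by linarith [A.B_neg]))
  rw [side_pt_eq, mul_nonpos_iff_pos_imp_nonpos] at h
  have h3 := h.1 h2
  constructor
  · by_contra h4
    have h5 := not_le.1 h4
    linarith [mul_pos (exp_pos (-t)) h5,
      mul_nonneg (exp_pos t).le (nonneg_of_mul_nonneg_right h1 h5)]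
  · by_contra h4
    have h5 := not_le.1 h4
    linarith [mul_pos (exp_pos t) h5,
      mul_nonneg (exp_pos (-t)).le (nonneg_of_mul_nonneg_left h1 h5)]

theorem GTwist2_off {L : Set Geo} (hL : Sys ρ L) {A : Geo} (hA : A ∉ L) : ∃ t, Off L (pt A t) := by
  obtain ⟨t, h1, h2⟩ := (Icc_infinite (zero_lt_one' ℝ)).exists_notMem_finite
    (hL.finite_not_off hA 0 1)
  exact ⟨t, by_contra fun h => h2 ⟨h1, h⟩⟩

/-- A base point that is not separated from the ends of a line not crossing the system. -/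
theorem GTwist2_base {L : Set Geo} (hL : Sys ρ L) {A : Geo} (hA : ∀ l ∈ L, ¬ Cross A l) :
    ∃ p, Off L p ∧ sepS L p A.src.1 = ∅ ∧ sepS L p A.tgt.1 = ∅ := by
  obtain ⟨p, t, hp, h⟩ : ∃ p t, Off L p ∧ ∀ l ∈ L, side l p.1 < 0 → side l (pt A t).1 ≤ 0 := by
    by_cases h : A ∈ L
    · obtain ⟨r, hr, h1⟩ := hL.exists_off_left h 0
      obtain ⟨h2, -, h3⟩ := h1 r hr le_rfl
      refine ⟨_, 0, h2, fun l hl h4 => by_contra fun h5 => ?_⟩
      have e : ∀ s, side l (fermi A 0 s).1 =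
          cosh s * side l (pt A 0).1 + sinh s * side l (nrm A) := fun s => by
        rw [side, side, side, ← B_smul_right, ← B_smul_right, ← B_add_right]
        rfl
      have h6 := mul_pos (cosh_pos r) (not_le.1 h5)
      have h7 : l.rev ∈ sepS L (fermi A 0 (-r)) (fermi A 0 r).1 := by
        refine ⟨hL.rev l hl, ?_, by rwa [side_rev, neg_pos]⟩
        rw [e] at h4
        rw [side_rev, e, cosh_neg, sinh_neg]
        linarith
      rw [h3, mem_singleton_iff] at h7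
      refine h5 (le_of_eq ?_)
      rw [← neg_eq_zero, ← side_rev, h7, side_pt]
    · obtain ⟨t, ht⟩ := GTwist2_off hL h
      exact ⟨_, t, ht, fun l _ h => h.le⟩
  exact ⟨p, hp, eq_empty_of_forall_notMem fun l hl =>
      (GTwist2_ends (hA l hl.1) (h l hl.1 hl.2.1)).1.not_gt hl.2.2,
    eq_empty_of_forall_notMem fun l hl =>
      (GTwist2_ends (hA l hl.1) (h l hl.1 hl.2.1)).2.not_gt hl.2.2⟩

theorem GTwist2_data (hφ : IsTw ρ R k φ) (hρ : Disc ρ) (hR : Multi ρ R) :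
    ∃ (τ : Geo → ℝ) (hL : Sys ρ (lifts ρ R)) (hτ : Wt ρ (lifts ρ R) τ),
      (∀ (i : ι), ∀ l ∈ lifts ρ fun _ : Unit => R i, τ l = k i * tl (ρ (R i))) ∧
        ∀ (p : Pt) (hp : Off (lifts ρ R) p), ∃ c : Γ, ∀ g : Γ,
          ρ (φ g) = ρ c * qrep hL hτ hp g * (ρ c)⁻¹ := by
  obtain ⟨τ, hτ⟩ := hR.exists_weight hρ fun i => k i * tl (ρ (R i))
  exact ⟨τ, hR.sys hρ, Multi.wt hτ, hτ, hφ ρ _ (IsMark.refl ρ) τ _ _ hτ⟩

omit [Fintype ι] in
theorem GTwist2_nc (hρ : Disc ρ) (hR : Multi ρ R) {g : Γ} (hg : Hyp (ρ g))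
    (h0 : ∀ i, inter ρ g (R i) = 0) : ∀ l ∈ lifts ρ R, ¬ Cross (ax (ρ g)) l := by
  rintro l ⟨i, c, rfl | rfl⟩
  · exact (hρ.inter_eq_zero_iff hg (hR.1 i).hyp (hR.1 i).prim).1 (h0 i) c
  · rw [cross_rev_right]
    exact (hρ.inter_eq_zero_iff hg (hR.1 i).hyp (hR.1 i).prim).1 (h0 i) c

theorem GTwist2_lift {σ : Γ →* Isom} {f : Circ ≃ₜ Circ} (hm : IsMark ρ σ f) {c0 : Γ}
    (h : ∀ g, ρ (φ g) = ρ c0 * σ g * (ρ c0)⁻¹) {g : Γ} (hg : Hyp (ρ g)) (c : Γ) :
    ∃ c' : Γ, ρ c • ax (ρ (φ g)) = (ρ c' • ax (ρ g)).map f := by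
  refine ⟨φ.symm (c0 * c), ?_⟩
  have h1 := h (φ.symm (c0 * c))
  rw [φ.apply_symm_apply, map_mul, mul_assoc, mul_right_inj, eq_mul_inv_iff_mul_eq] at h1
  rw [hm.map_smul, ← (hm.hyp hg).2, h, (hm.hyp hg).1.ax_conj, ← mul_smul, h1]

theorem IsTw.exists_mark (hφ : IsTw ρ R k φ) (hρ : Disc ρ) (hR : Multi ρ R) :
    ∃ f, IsMark ρ (ρ.comp φ.toMonoidHom) f := by
  obtain ⟨τ, hL, hτ, -, h⟩ := GTwist2_data hφ hρ hR
  obtain ⟨p, hp, -⟩ := hL.exists_off_near o one_pos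
  obtain ⟨c, hc⟩ := h p hp
  obtain ⟨F, hF⟩ := exists_qmap hL hτ
  obtain ⟨f, -, hm⟩ := hF.exists_mark hL hτ hp
  have e : ρ.comp φ.toMonoidHom = (MulAut.conj (ρ c)).toMonoidHom.comp (qrep hL hτ hp) :=
    MonoidHom.ext hc
  exact ⟨_, e ▸ hm.trans (isMark_conj _ (ρ c))⟩

theorem IsTw.isConj (hφ : IsTw ρ R k φ) (hρ : Disc ρ) (hR : Multi ρ R) {g : Γ} (hg : Hyp (ρ g))
    (h0 : ∀ i, inter ρ g (R i) = 0) : IsConj g (φ g) := by
  obtain ⟨τ, hL, hτ, -, h⟩ := GTwist2_data hφ hρ hR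
  have hn := GTwist2_nc hρ hR hg h0
  obtain ⟨p, hp, h1, h2⟩ := GTwist2_base hL hn
  obtain ⟨c, hc⟩ := h p hp
  obtain ⟨F, hF⟩ := exists_qmap hL hτ
  obtain ⟨f, hf, hm⟩ := hF.exists_mark hL hτ hp
  obtain ⟨h3, h4⟩ := hm.hyp hg
  rw [hF.map_eq hL hτ hp hp hf h1 h2, qc_self hL, one_smul] at h4
  have e : qrep hL hτ hp g = ρ g := by
    refine (eq_trans_of_smul_eq h3.smul_ax).trans
      (Eq.trans ?_ (eq_trans_of_smul_eq hg.smul_ax).symm)
    rw [h3.sh_ax, hg.sh_ax, h4, tl_qrep_of_not_cross hL hτ hp hg hn]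
  refine isConj_iff.2 ⟨c, hρ.injective ?_⟩
  rw [hc, e, map_mul, map_mul, map_inv]

theorem IsTw.simple_iff (hφ : IsTw ρ R k φ) (hρ : Disc ρ) (hR : Multi ρ R) (g : Γ) :
    Simple ρ (φ g) ↔ Simple ρ g := by
  obtain ⟨f, hm⟩ := hφ.exists_mark hρ hR
  exact (simple_comp φ g).symm.trans (hm.simple_iff g)

theorem IsTw.inter_eq (hφ : IsTw ρ R k φ) (hρ : Disc ρ) (hR : Multi ρ R) (g δ : Γ) :
    inter ρ (φ g) (φ δ) = inter ρ g δ := by
  obtain ⟨f, hm⟩ := hφ.exists_mark hρ hR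
  exact (inter_comp φ g δ).symm.trans (hm.inter_eq g δ)

theorem IsTw.tl_le (hφ : IsTw ρ R k φ) (hρ : Disc ρ) (hR : Multi ρ R) {g : Γ} (hg : Hyp (ρ g)) :
    tl (ρ (φ g)) ≤ tl (ρ g) + ∑ i, |(k i : ℝ)| * tl (ρ (R i)) * inter ρ g (R i) := by
  obtain ⟨τ, hL, hτ, hw, h⟩ := GTwist2_data hφ hρ hR
  have h0 : ∀ i, 0 ≤ tl (ρ (R i)) := fun i => (hR.1 i).1.le
  by_cases hA : ax (ρ g) ∈ lifts ρ R
  · obtain ⟨p, hp, -⟩ := hL.exists_off_near o one_pos
    obtain ⟨c, hc⟩ := h p hp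
    rw [hc, tl_conj, tl_qrep_of_not_cross hL hτ hp hg (hL.nc _ hA)]
    exact le_add_of_nonneg_right (Finset.sum_nonneg fun i _ =>
      mul_nonneg (mul_nonneg (abs_nonneg _) (h0 i)) (Nat.cast_nonneg _))
  · obtain ⟨t, ht⟩ := GTwist2_off hL hA
    obtain ⟨c, hc⟩ := h _ ht
    rw [hc, tl_conj, ← hρ.sum_srt hR hg ht (W := fun l => |τ l|) fun i l hl => by
      rw [hw i l hl, abs_mul, abs_of_nonneg (h0 i)]]
    exact tl_qrep_le hL hτ hg ht

/-- The twisting number around a component changes by the order of the twist. -/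
theorem IsTw.twist_comp (hφ : IsTw ρ R k φ) (hρ : Disc ρ) (hR : Multi ρ R) {g : Γ}
    (hg : Hyp (ρ g)) (i : ι) {c : Γ} (hc : Cross (ax (ρ (R i))) (ρ c • ax (ρ (φ g)))) :
    ∃ c' : Γ, Cross (ax (ρ (R i))) (ρ c' • ax (ρ g)) ∧
      |twist (ax (ρ (R i))) (ρ c • ax (ρ (φ g))) - twist (ax (ρ (R i))) (ρ c' • ax (ρ g)) -
        k i * tl (ρ (R i))| ≤ 2 * tl (ρ (R i)) := by
  obtain ⟨τ, hL, hτ, hw, h⟩ := GTwist2_data hφ hρ hR
  have hA : ax (ρ (R i)) ∈ lifts ρ R := ⟨i, 1, Or.inl (by rw [map_one, one_smul])⟩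
  obtain ⟨p, hp, h1, h2⟩ := GTwist2_base hL (hL.nc _ hA)
  obtain ⟨c0, hc0⟩ := h p hp
  obtain ⟨F, hF⟩ := exists_qmap hL hτ
  obtain ⟨f, hf, hm⟩ := hF.exists_mark hL hτ hp
  have e := hF.map_eq hL hτ hp hp hf h1 h2
  rw [qc_self hL, one_smul] at e
  obtain ⟨c', hc'⟩ := GTwist2_lift hm hc0 hg c
  have h3 : Cross (ax (ρ (R i))) (ρ c' • ax (ρ g)) := by rwa [← hm.ori.cross, e, ← hc']
  have h4 := hF.twist_sys hL hτ hp hf (hR.1 i).hyp hA h3
  rw [e, ← hc', hw i _ ⟨(), 1, Or.inl (by rw [map_one, one_smul])⟩] at h4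
  exact ⟨c', h3, h4⟩

/-- The twisting number around a curve disjoint from the multicurve hardly changes. -/
theorem IsTw.twist_disj (hφ : IsTw ρ R k φ) (hρ : Disc ρ) (hR : Multi ρ R) {g s : Γ}
    (hg : Hyp (ρ g)) (hs : Hyp (ρ s)) (h0 : ∀ i, inter ρ s (R i) = 0)
    (h1 : ax (ρ s) ∉ lifts ρ R) {c : Γ} (hc : Cross (ax (ρ s)) (ρ c • ax (ρ (φ g)))) :
    ∃ c' : Γ, Cross (ax (ρ s)) (ρ c' • ax (ρ g)) ∧
      |twist (ax (ρ s)) (ρ c • ax (ρ (φ g))) - twist (ax (ρ s)) (ρ c' • ax (ρ g))| ≤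
        2 * tl (ρ s) := by
  obtain ⟨τ, hL, hτ, -, h⟩ := GTwist2_data hφ hρ hR
  have hn := GTwist2_nc hρ hR hs h0
  obtain ⟨p, hp, h2, h2'⟩ := GTwist2_base hL hn
  obtain ⟨c0, hc0⟩ := h p hp
  obtain ⟨F, hF⟩ := exists_qmap hL hτ
  obtain ⟨f, hf, hm⟩ := hF.exists_mark hL hτ hp
  have e := hF.map_eq hL hτ hp hp hf h2 h2'
  rw [qc_self hL, one_smul] at e
  obtain ⟨c', hc'⟩ := GTwist2_lift hm hc0 hg c
  have h3 : Cross (ax (ρ s)) (ρ c' • ax (ρ g)) := by rwa [← hm.ori.cross, e, ← hc']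
  have h5 : ∀ (i : ι) (d : Γ), side (ax (ρ s)) (ρ d • ax (ρ (R i))).src.1 *
      side (ax (ρ s)) (ρ d • ax (ρ (R i))).tgt.1 ≠ 0 := fun i d h6 => by
    have h7 : Hyp (ρ (d * R i * d⁻¹)) := by
      rw [Hyp, tl_conj']
      exact (hR.1 i).1
    rw [← ax_conj' (hR.1 i).hyp, mul_eq_zero] at h6
    have h8 := hρ.ax_eq_of_share hs h7 h6
    rw [ax_conj' (hR.1 i).hyp] at h8
    exact h1 ⟨i, d, h8.imp Eq.symm fun h9 => by rw [h9, Geo.rev_rev]⟩
  have h4 := hF.twist_disj hL hτ hp hf hs (fun l hl => (not_lt.1 (hn l hl)).lt_of_ne' (by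
    obtain ⟨i, d, rfl | rfl⟩ := hl
    · exact h5 i d
    · rw [mul_comm]
      exact h5 i d)) h3
  rw [e, ← hc'] at h4
  exact ⟨c', h3, h4⟩

end HRT
end

-- merged part: Pool.Agent.Work.MP_35beee_gt.GCur
section
/-!
Geodesic currents, laminations, intersection of a current with a closed geodesic.

Plan. `xs A I` is the set of lines crossing `A` from right to left at a parameter in `I`. It is
measurable because `xp A` is continuous on the open set of lines crossing `A`; for bounded `I` it is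
contained in a compact set of `isCompact_lines`. `measure_eq_of_zpow`: cut `D` and `E` into the
pieces `D ∩ φ^n ⁻¹' E`. `Geo` is an open subset of the compact space `Circ × Circ`.
-/

namespace HRT

open Set Filter Topology Real MeasureTheory

noncomputable instance : MeasurableSpace Geo := borel Geo
instance : BorelSpace Geo := ⟨rfl⟩

instance : PolishSpace Geo := by
  have : SecondCountableTopology Circ :=
    TopologicalSpace.Subtype.secondCountableTopology {ξ : V | B ξ ξ = 0 ∧ ξ 2 = 1}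
  have : PolishSpace (Circ × Circ) := inferInstance
  exact IsOpen.polishSpace (s := {l : Circ × Circ | l.1 ≠ l.2})
    (isOpen_ne_fun continuous_fst continuous_snd)

instance : SigmaCompactSpace Geo :=
  sigmaCompactSpace_of_locallyCompact_secondCountable

theorem measurable_smul_geo (g : Isom) : Measurable fun l : Geo => g • l :=
  (continuous_const_smul g).measurable

theorem measurable_rev : Measurable Geo.rev := Geo.continuous_rev.measurable

/-- Lines crossing `A` from right to left, at a parameter in `I`. -/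
def xs (A : Geo) (I : Set ℝ) : Set Geo :=
  {l | side A l.src.1 < 0 ∧ 0 < side A l.tgt.1 ∧ xp A l ∈ I}

theorem xs_cross {A l : Geo} {I : Set ℝ} (h : l ∈ xs A I) : Cross A l :=
  mul_neg_of_neg_of_pos h.1 h.2.1

theorem xs_mono (A : Geo) {I J : Set ℝ} (h : I ⊆ J) : xs A I ⊆ xs A J :=
  fun _ hl => ⟨hl.1, hl.2.1, h hl.2.2⟩

theorem Cross.mem_xs {A l : Geo} (h : Cross A l) : l ∈ xs A univ ∨ l.rev ∈ xs A univ := by
  rcases mul_neg_iff.1 h with ⟨h1, h2⟩ | ⟨h1, h2⟩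
  · exact Or.inr ⟨h2, h1, mem_univ _⟩
  · exact Or.inl ⟨h1, h2, mem_univ _⟩

theorem Cross.mem_xs' {A l : Geo} (h : Cross A l) : l ∈ xs A univ ∨ l ∈ xs A.rev univ := by
  rcases mul_neg_iff.1 h with ⟨h1, h2⟩ | ⟨h1, h2⟩
  · refine Or.inr ⟨?_, ?_, mem_univ _⟩
    · rw [side_rev]; linarith
    · rw [side_rev]; linarith
  · exact Or.inl ⟨h1, h2, mem_univ _⟩

theorem xp_rev_left {A l : Geo} (h : Cross A l) : xp A.rev l = -xp A l := by
  have h1 := gcross_neg A (left_ne_zero_of_mul (ne_of_lt h))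
  have h2 := gcross_neg A (right_ne_zero_of_mul (ne_of_lt h))
  rw [xp, xp, fer_rev A h1.1 h1.2, fer_rev A h2.1 h2.2]
  ring

theorem measurableSet_xs (A : Geo) {I : Set ℝ} (hI : MeasurableSet I) :
    MeasurableSet (xs A I) := by
  have c1 : Continuous fun l : Geo => side A l.src.1 :=
    continuous_const.B' GFermi_cs
  have c2 : Continuous fun l : Geo => side A l.tgt.1 :=
    continuous_const.B' GFermi_ct
  have hU : IsOpen {l : Geo | side A l.src.1 < 0 ∧ 0 < side A l.tgt.1} :=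
    (isOpen_lt c1 continuous_const).inter (isOpen_lt continuous_const c2)
  have hc : ContinuousOn (xp A) {l : Geo | side A l.src.1 < 0 ∧ 0 < side A l.tgt.1} := by
    intro l hl
    have h1 : Cross A l := mul_neg_of_neg_of_pos hl.1 hl.2
    exact ((continuousAt_xp h1).comp (f := fun m : Geo => (A, m))
      (continuousAt_const.prodMk continuousAt_id)).continuousWithinAt
  have hm := (MeasurableEmbedding.subtype_coe hU.measurableSet).measurableSet_image.2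
    (hc.domRestrict.measurable hI)
  convert hm using 1
  ext l
  constructor
  · rintro ⟨h1, h2, h3⟩
    exact ⟨⟨l, h1, h2⟩, h3, rfl⟩
  · rintro ⟨⟨l, h1, h2⟩, h3, rfl⟩
    exact ⟨h1, h2, h3⟩

theorem smul_mem_xs (g : Isom) (A l : Geo) (I : Set ℝ) :
    g • l ∈ xs (g • A) I ↔ l ∈ xs A ((fun t => t + sh g A) ⁻¹' I) := by
  simp only [xs, mem_ofPred_eq, Geo.src_smul, Geo.tgt_smul, side_smul_circ_neg, side_smul_circ_pos,
    mem_preimage]
  refine and_congr_right fun h1 => and_congr_right fun h2 => ?_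
  rw [xp_smul g (mul_neg_of_neg_of_pos h1 h2 : Cross A l)]

theorem rev_mem_xs (A l : Geo) (I : Set ℝ) :
    l.rev ∈ xs A.rev I ↔ l ∈ xs A ((fun t => -t) ⁻¹' I) := by
  simp only [xs, mem_ofPred_eq, Geo.src_rev, Geo.tgt_rev, side_rev, Left.neg_neg_iff,
    Left.neg_pos_iff, mem_preimage, xp_rev_right]
  constructor
  · rintro ⟨h1, h2, h3⟩
    rw [xp_rev_left (mul_neg_of_neg_of_pos h2 h1 : Cross A l)] at h3
    exact ⟨h2, h1, h3⟩
  · rintro ⟨h1, h2, h3⟩
    rw [xp_rev_left (mul_neg_of_neg_of_pos h1 h2 : Cross A l)]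
    exact ⟨h2, h1, h3⟩

theorem GCur_nest {A l m : Geo} (hl : l ∈ xs A univ) (hm : m ∈ xs A univ)
    (hc : ¬ Cross l m) : Nest l m ↔ xp A l ≤ xp A m := by
  have h1 := side_of_cross hl.1 hl.2.1
  have h2 := side_of_cross hm.1 hm.2.1
  rw [nest_iff_xp (A := A.rev) hc h1.1 h1.2 h2.1 h2.2, xp_rev_left (xs_cross hl),
    xp_rev_left (xs_cross hm), neg_le_neg_iff]

/-- Non-crossing lines are determined by their crossing parameter. -/
theorem eq_of_xp_eq {A l m : Geo} (hl : l ∈ xs A univ) (hm : m ∈ xs A univ) (hc : ¬ Cross l m)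
    (h : xp A l = xp A m) : l = m :=
  ((GCur_nest hl hm hc).2 h.le).antisymm ((GCur_nest hm hl fun h' => hc h'.symm).2 h.ge)

/-- Order of non-crossing lines along a transversal. -/
theorem nest_iff_xp_le {A l m : Geo} (hl : l ∈ xs A univ) (hm : m ∈ xs A univ)
    (hc : ¬ Cross l m) : Nest l m ↔ xp A l ≤ xp A m := GCur_nest hl hm hc

/-- Two fundamental sets of an invertible measure preserving map have the same measure. -/
theorem measure_eq_of_zpow {Y : Type*} [MeasurableSpace Y] {μ : Measure Y} (φ : ℤ → Y → Y)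
    (hφ : ∀ n, MeasurePreserving (φ n) μ μ) (h0 : ∀ y, φ 0 y = y)
    (hadd : ∀ m n y, φ (m + n) y = φ m (φ n y)) {D E : Set Y} (hD : MeasurableSet D)
    (hE : MeasurableSet E) (h1 : ∀ y ∈ D, ∃! n, φ n y ∈ E) (h2 : ∀ y ∈ E, ∃! n, φ n y ∈ D) :
    μ D = μ E := by
  have hinv : ∀ n y, φ (-n) (φ n y) = y := fun n y => by rw [← hadd, neg_add_cancel, h0]
  have eD : μ D = ∑' n : ℤ, μ (D ∩ φ n ⁻¹' E) := by
    rw [← measure_iUnion]
    · congr 1
      ext y
      simp only [mem_iUnion, mem_inter_iff, mem_preimage]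
      exact ⟨fun hy => (h1 y hy).exists.imp fun n hn => ⟨hy, hn⟩, fun ⟨_, hn⟩ => hn.1⟩
    · intro m n hmn
      refine Set.disjoint_left.2 fun y hm hn => hmn ?_
      exact (h1 y hm.1).unique hm.2 hn.2
    · exact fun n => hD.inter ((hφ n).measurable hE)
  have eE : μ E = ∑' n : ℤ, μ (E ∩ φ (-n) ⁻¹' D) := by
    rw [← measure_iUnion]
    · congr 1
      ext y
      simp only [mem_iUnion, mem_inter_iff, mem_preimage]
      refine ⟨fun hy => ?_, fun ⟨_, hn⟩ => hn.1⟩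
      obtain ⟨n, hn⟩ := (h2 y hy).exists
      exact ⟨-n, hy, by rwa [neg_neg]⟩
    · intro m n hmn
      refine Set.disjoint_left.2 fun y hm hn => hmn ?_
      exact neg_injective ((h2 y hm.1).unique hm.2 hn.2)
    · exact fun n => hE.inter ((hφ (-n)).measurable hD)
  rw [eD, eE]
  refine tsum_congr fun n => ?_
  rw [← (hφ n).measure_preimage (hE.inter ((hφ (-n)).measurable hD)).nullMeasurableSet]
  congr 1
  ext y
  simp only [mem_inter_iff, mem_preimage, hinv]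
  exact and_comm

variable {Γ : Type*} [Group Γ] {ρ : Γ →* Isom}

/-- Geodesic currents. -/
structure Cur (ρ : Γ →* Isom) (μ : Measure Geo) : Prop where
  fin : IsFiniteMeasureOnCompacts μ
  smul : ∀ g : Γ, MeasurePreserving (fun l : Geo => ρ g • l) μ μ
  rev : MeasurePreserving Geo.rev μ μ

/-- Geodesic laminations with compact support. -/
structure Lam (ρ : Γ →* Isom) (Λ : Set Geo) : Prop where
  closed : IsClosed Λ
  smul : ∀ (g : Γ), ∀ l ∈ Λ, ρ g • l ∈ Λ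
  rev : ∀ l ∈ Λ, l.rev ∈ Λ
  nc : ∀ l ∈ Λ, ∀ m ∈ Λ, ¬ Cross l m
  core : ∃ R, ∀ l ∈ Λ, InCore ρ R l

/-- Invariant Borel sets of lines. -/
structure InvS (ρ : Γ →* Isom) (E : Set Geo) : Prop where
  meas : MeasurableSet E
  smul : ∀ (g : Γ), ∀ l ∈ E, ρ g • l ∈ E
  rev : ∀ l ∈ E, l.rev ∈ E

/-- Ergodicity. -/
def Erg (ρ : Γ →* Isom) (μ : Measure Geo) : Prop := ∀ E, InvS ρ E → μ E = 0 ∨ μ Eᶜ = 0

/-- The intersection number of a current with the closed geodesic of `g`. -/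
noncomputable def ic (μ : Measure Geo) (g : Isom) : ℝ := μ.real (xs (ax g) (Ico 0 (tl g)))

/-- The current of a closed geodesic: counting measure on the oriented lifts. -/
noncomputable def cnt (ρ : Γ →* Isom) (s : Γ) : Measure Geo :=
  Measure.count.restrict (lifts ρ fun _ : Unit => s)

theorem ic_nonneg (μ : Measure Geo) (g : Isom) : 0 ≤ ic μ g := measureReal_nonneg

theorem Lam.inv {Λ : Set Geo} (h : Lam ρ Λ) : InvS ρ Λ := ⟨h.closed.measurableSet, h.smul, h.rev⟩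

theorem InvS.compl {E : Set Geo} (h : InvS ρ E) : InvS ρ Eᶜ := by
  refine ⟨h.meas.compl, fun g l hl h' => hl ?_, fun l hl h' => hl (h.rev _ h')⟩
  have := h.smul g⁻¹ _ h'
  rwa [map_inv, inv_smul_smul] at this

theorem InvS.inter {E F : Set Geo} (h : InvS ρ E) (h' : InvS ρ F) : InvS ρ (E ∩ F) :=
  ⟨h.meas.inter h'.meas, fun g l hl => ⟨h.smul g l hl.1, h'.smul g l hl.2⟩,
    fun l hl => ⟨h.rev l hl.1, h'.rev l hl.2⟩⟩

theorem InvS.iUnion {ι : Type*} [Countable ι] {E : ι → Set Geo} (h : ∀ i, InvS ρ (E i)) :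
    InvS ρ (⋃ i, E i) := by
  refine ⟨MeasurableSet.iUnion fun i => (h i).meas, fun g l hl => ?_, fun l hl => ?_⟩
  · obtain ⟨i, hi⟩ := mem_iUnion.1 hl
    exact mem_iUnion.2 ⟨i, (h i).smul g l hi⟩
  · obtain ⟨i, hi⟩ := mem_iUnion.1 hl
    exact mem_iUnion.2 ⟨i, (h i).rev l hi⟩

namespace Cur

variable {μ ν : Measure Geo}

theorem isLocallyFiniteMeasure (h : Cur ρ μ) : IsLocallyFiniteMeasure μ := by
  have := h.fin
  infer_instance

theorem sigmaFinite (h : Cur ρ μ) : SigmaFinite μ := by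
  have := h.isLocallyFiniteMeasure
  infer_instance

theorem xs_lt_top (h : Cur ρ μ) (A : Geo) {I : Set ℝ} (hI : Bornology.IsBounded I) :
    μ (xs A I) < ⊤ := by
  have := h.fin
  obtain ⟨R, hR⟩ := hI.exists_norm_le
  refine lt_of_le_of_lt (measure_mono ?_) (isCompact_lines (pt A 0) (sinh R)).measure_lt_top
  intro l hl
  have h1 := (side_pt_eq_zero_iff (xs_cross hl) (xp A l)).2 rfl
  have h2 := abs_arsinh_side_le l (pt A 0) (pt A (xp A l))
  rw [h1, arsinh_zero, sub_zero, dist_pt, zero_sub, abs_neg] at h2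
  have h3 : |arsinh (side l (pt A 0).1)| ≤ R := h2.trans (hR _ hl.2.2)
  have h4 := sinh_le_sinh.2 h3
  rwa [← abs_sinh, sinh_arsinh] at h4

theorem xs_smul (h : Cur ρ μ) (g : Γ) (A : Geo) {I : Set ℝ} (hI : MeasurableSet I) :
    μ (xs (ρ g • A) I) = μ (xs A ((fun t => t + sh (ρ g) A) ⁻¹' I)) := by
  rw [← (h.smul g).measure_preimage (measurableSet_xs _ hI).nullMeasurableSet]
  congr 1
  ext l
  exact smul_mem_xs (ρ g) A l I

theorem xs_rev (h : Cur ρ μ) (A : Geo) {I : Set ℝ} (hI : MeasurableSet I) :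
    μ (xs A.rev I) = μ (xs A ((fun t => -t) ⁻¹' I)) := by
  rw [← h.rev.measure_preimage (measurableSet_xs _ hI).nullMeasurableSet]
  congr 1
  ext l
  exact rev_mem_xs A l I

theorem restrict (h : Cur ρ μ) {E : Set Geo} (hE : InvS ρ E) : Cur ρ (μ.restrict E) := by
  have := h.fin
  refine ⟨inferInstance, fun g => ?_, ?_⟩
  · have e : (fun l : Geo => ρ g • l) ⁻¹' E = E := by
      ext l
      exact ⟨fun hl => by_contra fun h' => hE.compl.smul g l h' hl, hE.smul g l⟩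
    have h1 := (h.smul g).restrict_preimage hE.meas
    rwa [e] at h1
  · have e : Geo.rev ⁻¹' E = E := by
      ext l
      exact ⟨hE.rev l.rev, hE.rev l⟩
    have h1 := h.rev.restrict_preimage hE.meas
    rwa [e] at h1

theorem zero : Cur ρ 0 :=
  ⟨inferInstance, fun _ => ⟨measurable_smul_geo _, Measure.map_zero _⟩,
    ⟨measurable_rev, Measure.map_zero _⟩⟩

theorem add (h : Cur ρ μ) (h' : Cur ρ ν) : Cur ρ (μ + ν) := by
  have := h.fin
  have := h'.fin
  refine ⟨⟨fun K hK => ?_⟩, fun g => (h.smul g).add_measure (h'.smul g), h.rev.add_measure h'.rev⟩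
  rw [Measure.add_apply]
  exact ENNReal.add_lt_top.2 ⟨hK.measure_lt_top, hK.measure_lt_top⟩

theorem nnreal_smul (h : Cur ρ μ) (c : NNReal) : Cur ρ (c • μ) := by
  have := h.fin
  exact ⟨inferInstance, fun g => (h.smul g).smul_measure c, h.rev.smul_measure c⟩

theorem finsetSum {ι : Type*} (s : Finset ι) {μ : ι → Measure Geo} (h : ∀ i ∈ s, Cur ρ (μ i)) :
    Cur ρ (∑ i ∈ s, μ i) :=
  Finset.sum_induction μ (Cur ρ) (fun _ _ => Cur.add) Cur.zero h

/-- A set that is invariant up to null sets is almost equal to an invariant set. -/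
theorem exists_inv [Countable Γ] (h : Cur ρ μ) {E : Set Geo} (hE : MeasurableSet E)
    (h1 : ∀ g : Γ, (fun l : Geo => ρ g • l) ⁻¹' E =ᵐ[μ] E) (h2 : Geo.rev ⁻¹' E =ᵐ[μ] E) :
    ∃ E', InvS ρ E' ∧ E' =ᵐ[μ] E := by
  have hF : (E ∪ Geo.rev ⁻¹' E : Set Geo) =ᵐ[μ] E := by
    have := (EventuallyEq.refl (ae μ) E).union h2
    rwa [union_self] at this
  refine ⟨⋃ g : Γ, (fun l : Geo => ρ g • l) ⁻¹' (E ∪ Geo.rev ⁻¹' E), ⟨?_, ?_, ?_⟩, ?_⟩
  · exact MeasurableSet.iUnion fun g => measurable_smul_geo _ (hE.union (measurable_rev hE))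
  · intro k l hl
    obtain ⟨g, hg⟩ := mem_iUnion.1 hl
    refine mem_iUnion.2 ⟨g * k⁻¹, ?_⟩
    rw [mem_preimage, map_mul, map_inv, mul_smul, inv_smul_smul]
    exact hg
  · intro l hl
    obtain ⟨g, hg⟩ := mem_iUnion.1 hl
    exact mem_iUnion.2 ⟨g, Or.symm hg⟩
  · have := Filter.EventuallyEq.countable_iUnion fun g : Γ =>
      ((h.smul g).quasiMeasurePreserving.preimage_ae_eq hF).trans (h1 g)
    rwa [iUnion_const] at this

end Cur

end HRT
end

-- merged part: Pool.Agent.Work.MP_35beee_gt.GCurI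
section
/-!
Intersection numbers of currents with closed geodesics, atoms, null sets, the measures induced on a
transversal.

Plan. `ic_eq`: `measure_eq_of_zpow` for the powers of `ρ g` (`smul_mem_xs`, `Hyp.sh_zpow`).
`ic_inv`: `xs_rev`, `ic_eq`, and `-[0, tl) = (-tl, 0]`; use `measure_eq_of_zpow` again for half open
intervals of the other kind. `null_fix`: for `ξ = (ax g).src` the lines from `ξ` to a point of a
fundamental arc of `g` have disjoint translates under `g ^ n`, `n ≥ 0`, all in a compact set, so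
they are a null set; parabolic fixed points are excluded by `not_cusp_of_inCore`; the lines
`± ax g` are countably many. `atom`: a line in the core with trivial stabiliser has infinitely many
translates meeting a fixed ball. `posM_singular`: `xp A` is continuous and injective on
`Λ ∩ xs A univ` (`MeasurableSet.image_of_continuousOn_injOn`).
-/

namespace HRT

open Set Filter Topology Real MeasureTheory

variable {Γ : Type*} [Group Γ] {ρ : Γ →* Isom} {μ ν : Measure Geo} {Λ : Set Geo}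

theorem GCurI_zero (μ : Measure Geo) {g : Isom} (hg : ¬ Hyp g) : ic μ g = 0 := by
  have h0 : tl g = 0 := le_antisymm (not_lt.1 hg) (tl_nonneg g)
  have : xs (ax g) (Ico 0 (tl g)) = ∅ := by
    rw [h0, Ico_self]
    exact eq_empty_of_forall_notMem fun l hl => hl.2.2
  rw [ic, this, measureReal_empty]

theorem GCurI_mem {g : Γ} (hg : Hyp (ρ g)) (n : ℤ) (l : Geo) (I : Set ℝ) :
    ρ (g ^ n) • l ∈ xs (ax (ρ g)) I ↔
      l ∈ xs (ax (ρ g)) univ ∧ xp (ax (ρ g)) l + n • tl (ρ g) ∈ I := by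
  have h1 : ρ (g ^ n) • ax (ρ g) = ax (ρ g) := by rw [map_zpow]; exact hg.zpow_smul_ax n
  have h2 := smul_mem_xs (ρ (g ^ n)) (ax (ρ g)) l I
  rw [h1] at h2
  rw [h2, map_zpow, hg.sh_zpow, zsmul_eq_mul]
  exact ⟨fun h => ⟨⟨h.1, h.2.1, trivial⟩, h.2.2⟩, fun h => ⟨h.1.1, h.1.2.1, h.2⟩⟩

theorem GCurI_fund (h : Cur ρ μ) {g : Γ} (hg : Hyp (ρ g)) {I J : Set ℝ} (hI : MeasurableSet I)
    (hJ : MeasurableSet J) (h1 : ∀ x, ∃! n : ℤ, x + n • tl (ρ g) ∈ I)
    (h2 : ∀ x, ∃! n : ℤ, x + n • tl (ρ g) ∈ J) :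
    μ (xs (ax (ρ g)) I) = μ (xs (ax (ρ g)) J) := by
  refine measure_eq_of_zpow (fun n l => ρ (g ^ n) • l) (fun n => h.smul _) ?_ ?_
    (measurableSet_xs _ hI) (measurableSet_xs _ hJ) ?_ ?_
  · intro l
    simp
  · intro m n l
    simp only [zpow_add, map_mul, mul_smul]
  · intro l hl
    have hu := xs_mono _ (subset_univ I) hl
    simp only [GCurI_mem hg, hu, true_and]
    exact h2 _
  · intro l hl
    have hu := xs_mono _ (subset_univ J) hl
    simp only [GCurI_mem hg, hu, true_and]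
    exact h1 _

theorem ic_add (h : Cur ρ μ) (h' : Cur ρ ν) (g : Isom) : ic (μ + ν) g = ic μ g + ic ν g := by
  unfold ic
  exact measureReal_add_apply (h.xs_lt_top _ (Metric.isBounded_Ico _ _)).ne
    (h'.xs_lt_top _ (Metric.isBounded_Ico _ _)).ne

theorem ic_nnreal_smul (c : NNReal) (μ : Measure Geo) (g : Isom) : ic (c • μ) g = c * ic μ g := by
  unfold ic
  rw [measureReal_nnreal_smul_apply]

theorem ic_finsetSum {ι : Type*} (s : Finset ι) {μ : ι → Measure Geo} (h : ∀ i ∈ s, Cur ρ (μ i))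
    (g : Isom) : ic (∑ i ∈ s, μ i) g = ∑ i ∈ s, ic (μ i) g := by
  classical
  induction s using Finset.induction_on with
  | empty => simp [ic]
  | insert a s ha ih =>
    have h1 : ∀ i ∈ s, Cur ρ (μ i) := fun i hi => h i (Finset.mem_insert_of_mem hi)
    rw [Finset.sum_insert ha, Finset.sum_insert ha,
      ic_add (h a (Finset.mem_insert_self a s)) (Cur.finsetSum s h1), ih h1]

theorem Cur.ic_eq (h : Cur ρ μ) {g : Γ} (hg : Hyp (ρ g)) (t : ℝ) :
    ic μ (ρ g) = μ.real (xs (ax (ρ g)) (Ico t (t + tl (ρ g)))) := by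
  have h1 := GCurI_fund h hg (I := Ico 0 (0 + tl (ρ g))) (J := Ico t (t + tl (ρ g)))
    measurableSet_Ico measurableSet_Ico (fun x => existsUnique_add_zsmul_mem_Ico hg x 0)
    fun x => existsUnique_add_zsmul_mem_Ico hg x t
  rw [zero_add] at h1
  rw [ic, measureReal_def, measureReal_def, h1]

theorem Cur.ic_conj (h : Cur ρ μ) (g k : Γ) : ic μ (ρ (k * g * k⁻¹)) = ic μ (ρ g) := by
  by_cases hg : Hyp (ρ g)
  · rw [h.ic_eq hg (-sh (ρ k) (ax (ρ g))), ic, ax_conj' hg, tl_conj', measureReal_def,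
      measureReal_def, h.xs_smul k _ measurableSet_Ico, preimage_add_const_Ico]
    congr 4 <;> ring
  · rw [GCurI_zero μ hg, GCurI_zero μ]
    rwa [Hyp, tl_conj']

theorem Cur.ic_inv (h : Cur ρ μ) (g : Γ) : ic μ (ρ g⁻¹) = ic μ (ρ g) := by
  by_cases hg : Hyp (ρ g)
  · have h1 := GCurI_fund h hg (I := Ico 0 (0 + tl (ρ g)))
      (J := Ioc (-tl (ρ g)) (-tl (ρ g) + tl (ρ g)))
      measurableSet_Ico measurableSet_Ioc (fun x => existsUnique_add_zsmul_mem_Ico hg x 0)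
      fun x => existsUnique_add_zsmul_mem_Ioc hg x _
    rw [zero_add, neg_add_cancel] at h1
    have h2 : (fun t : ℝ => -t) ⁻¹' Ico 0 (tl (ρ g)) = Ioc (-tl (ρ g)) 0 := by
      ext t
      simp only [mem_preimage, mem_Ico, mem_Ioc]
      constructor <;> rintro ⟨h3, h4⟩ <;> constructor <;> linarith
    rw [ic, ic, map_inv, hg.ax_inv, tl_inv, measureReal_def, measureReal_def,
      h.xs_rev _ measurableSet_Ico, h1, h2]
  · rw [GCurI_zero μ hg, GCurI_zero μ]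
    rwa [Hyp, map_inv, tl_inv]

theorem Cur.ic_pow (h : Cur ρ μ) (g : Γ) (n : ℕ) : ic μ (ρ (g ^ n)) = n * ic μ (ρ g) := by
  by_cases hg : Hyp (ρ g)
  · have key : ∀ m : ℕ, μ.real (xs (ax (ρ g)) (Ico 0 (m * tl (ρ g)))) = m * ic μ (ρ g) := by
      intro m
      induction m with
      | zero =>
        have : xs (ax (ρ g)) (Ico 0 ((0 : ℕ) * tl (ρ g))) = ∅ := by
          rw [Nat.cast_zero, zero_mul, Ico_self]
          exact eq_empty_of_forall_notMem fun l hl => hl.2.2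
        rw [this, measureReal_empty, Nat.cast_zero, zero_mul]
      | succ m ih =>
        have h0 : 0 ≤ m * tl (ρ g) := mul_nonneg m.cast_nonneg hg.le
        have h1 : xs (ax (ρ g)) (Ico 0 ((m + 1 : ℕ) * tl (ρ g))) =
            xs (ax (ρ g)) (Ico 0 (m * tl (ρ g))) ∪
              xs (ax (ρ g)) (Ico (m * tl (ρ g)) (m * tl (ρ g) + tl (ρ g))) := by
          rw [Nat.cast_succ, add_mul, one_mul,
            ← Ico_union_Ico_eq_Ico h0 (le_add_of_nonneg_right hg.le)]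
          ext l
          simp only [xs, mem_ofPred_eq, mem_union]
          tauto
        rw [h1, measureReal_union _ (measurableSet_xs _ measurableSet_Ico)
          (h.xs_lt_top _ (Metric.isBounded_Ico _ _)).ne
          (h.xs_lt_top _ (Metric.isBounded_Ico _ _)).ne, ih, ← h.ic_eq hg, Nat.cast_succ, add_mul,
          one_mul]
        exact disjoint_left.2 fun l h2 h3 => h2.2.2.2.not_ge h3.2.2.1
    rcases eq_or_ne n 0 with rfl | hn
    · rw [GCurI_zero μ, Nat.cast_zero, zero_mul]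
      rw [pow_zero, map_one]
      exact fun h1 => GAx_ne_one h1 rfl
    · obtain ⟨-, h2, h3⟩ := hg.pow hn
      rw [← key n, ic, map_pow, h2, h3]
  · rw [GCurI_zero μ hg, GCurI_zero μ, mul_zero]
    rw [map_pow]
    exact fun h1 => hg (hyp_of_pow h1)

theorem Lam.ic_eq_zero (hΛ : Lam ρ Λ) (hμ : μ Λᶜ = 0) {g : Isom} (hg : ax g ∈ Λ) :
    ic μ g = 0 := by
  rw [ic, measureReal_def, measure_mono_null (fun l hl h1 => hΛ.nc _ hg l h1 (xs_cross hl)) hμ,
    ENNReal.toReal_zero]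

theorem GCurI_pres {L : Set Geo} {f : Geo → Geo} (hf : Measurable f) (hb : Function.Bijective f)
    (hL : ∀ l, f l ∈ L ↔ l ∈ L) :
    MeasurePreserving f (Measure.count.restrict L) (Measure.count.restrict L) := by
  refine ⟨hf, Measure.ext fun s hs => ?_⟩
  rw [Measure.map_apply hf hs, Measure.restrict_apply (hf hs), Measure.restrict_apply hs,
    ← Measure.count_injective_image hb.1]
  congr 1
  rw [← hb.2.image_preimage (s ∩ L)]
  congr 1
  ext l
  simp only [mem_inter_iff, mem_preimage, hL]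

theorem GCurI_rev {ι : Type} {R : ι → Γ} {l : Geo} (hl : l ∈ lifts ρ R) : l.rev ∈ lifts ρ R := by
  obtain ⟨i, g, rfl | rfl⟩ := hl
  · exact ⟨i, g, Or.inr rfl⟩
  · exact ⟨i, g, Or.inl rfl⟩

theorem Disc.cur_cnt (hρ : Disc ρ) {s : Γ} (hs : Hyp (ρ s)) : Cur ρ (cnt ρ s) := by
  refine ⟨⟨fun K hK => ?_⟩, fun g => GCurI_pres (measurable_smul_geo _)
    (MulAction.bijective (ρ g)) fun l => ⟨fun h1 => ?_, GSys_smul g⟩,
    GCurI_pres measurable_rev (Function.Involutive.bijective Geo.rev_rev)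
      fun l => ⟨fun h1 => GCurI_rev h1, GCurI_rev⟩⟩
  · obtain ⟨R, hR⟩ := exists_bound_of_isCompact hK o
    have hf := hρ.finite_lifts hs o R
    rw [cnt, Measure.restrict_apply hK.measurableSet, Measure.count_apply_lt_top]
    refine (hf.union (hf.image Geo.rev)).subset ?_
    rintro l ⟨h1, _, k, rfl | rfl⟩
    · exact Or.inl ⟨⟨k, rfl⟩, hR _ h1⟩
    · refine Or.inr ⟨_, ⟨⟨k, rfl⟩, ?_⟩, rfl⟩
      have h2 := hR _ h1
      rwa [side_rev, abs_neg] at h2
  · have h2 := GSys_smul g⁻¹ h1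
    rwa [map_inv, inv_smul_smul] at h2

theorem Disc.ic_cnt (hρ : Disc ρ) {s : Γ} (hs : Hyp (ρ s)) (hp : Prim s) {g : Γ}
    (hg : Hyp (ρ g)) : ic (cnt ρ s) (ρ g) = inter ρ g s := by
  classical
  have hf := hρ.finite_xset (g := g) hs 0
  have he : xs (ax (ρ g)) (Ico 0 (tl (ρ g))) ∩ (lifts ρ fun _ : Unit => s) =
      (fun l : Geo => if side (ax (ρ g)) l.src.1 < 0 then l else l.rev) '' xset ρ g s 0 := by
    ext l
    constructor
    · rintro ⟨h1, _, k, rfl | rfl⟩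
      · exact ⟨_, ⟨⟨k, rfl⟩, xs_cross h1, by rw [zero_add]; exact h1.2.2⟩, if_pos h1.1⟩
      · refine ⟨_, ⟨⟨k, rfl⟩, cross_rev_right.1 (xs_cross h1), ?_⟩, if_neg h1.2.1.not_gt⟩
        rw [zero_add, ← xp_rev_right]
        exact h1.2.2
    · rintro ⟨m, ⟨⟨k, rfl⟩, h1, h2⟩, rfl⟩
      rw [zero_add] at h2
      dsimp only
      split_ifs with h3
      · exact ⟨⟨h3, pos_of_mul_neg_right h1 h3.le, h2⟩, (), k, Or.inl rfl⟩
      · have h4 := lt_of_le_of_ne (not_lt.1 h3) (GStrip_src h1).symm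
        exact ⟨⟨neg_of_mul_neg_right h1 h4.le, h4, by rwa [xp_rev_right]⟩, (), k, Or.inr rfl⟩
  have hi : InjOn (fun l : Geo => if side (ax (ρ g)) l.src.1 < 0 then l else l.rev)
      (xset ρ g s 0) := by
    rintro l ⟨⟨a, rfl⟩, -⟩ m ⟨⟨b, rfl⟩, -⟩ h
    dsimp only at h
    split_ifs at h
    · exact h
    · exact absurd h (hρ.GInter_ne_rev _ a b)
    · exact absurd h.symm (hρ.GInter_ne_rev _ b a)
    · exact GSys_rev_inj h
  rw [ic, cnt, measureReal_def, Measure.restrict_apply (measurableSet_xs _ measurableSet_Ico), he,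
    hρ.inter_eq_ncard hg hs hp 0, Measure.count_apply (hf.image _).measurableSet,
    hi.encard_image, ← hf.cast_ncard_eq]
  simp

/-- Lines that start at the repelling point of a hyperbolic element are a null set. -/
theorem GCurI_src (h : Cur ρ μ) [NullSingletonClass μ] {g : Γ} (hg : Hyp (ρ g)) :
    μ {l | l.src = (ax (ρ g)).src} = 0 := by
  have := h.isLocallyFiniteMeasure
  refine le_antisymm (le_of_forall_gt_imp_ge_of_dense fun r hr => ?_) zero_le
  obtain ⟨U, hU, ho, hr'⟩ := Set.exists_isOpen_lt_of_lt {ax (ρ g)} r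
    (by rwa [measure_singleton] : μ {ax (ρ g)} < r)
  have h1 : {l : Geo | l.src = (ax (ρ g)).src} ⊆
      ⋃ k : ℕ, ⋂ n ≥ k, (fun l : Geo => ρ (g ^ n) • l) ⁻¹' U := by
    intro l hl
    have h2 : Tendsto (fun n : ℕ => ρ (g ^ n) • l) atTop (𝓝 (ax (ρ g))) := by
      refine Geo.tendsto_iff.2 ⟨?_, ?_⟩
      · refine tendsto_const_nhds.congr fun n => ?_
        have h3 := congrArg Geo.src (hg.zpow_smul_ax n)
        rw [zpow_natCast, Geo.src_smul] at h3
        rw [Geo.src_smul, map_pow, show l.src = (ax (ρ g)).src from hl, h3]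
      · simp only [Geo.tgt_smul, map_pow]
        exact hg.tendsto_pow fun h3 => l.ne (hl.trans h3.symm)
    obtain ⟨k, hk⟩ := eventually_atTop.1 (h2.eventually (ho.mem_nhds (hU rfl)))
    exact mem_iUnion.2 ⟨k, mem_iInter₂.2 hk⟩
  refine (measure_mono h1).trans ?_
  rw [Monotone.measure_iUnion fun a b hab => biInter_subset_biInter_left fun n hn => hab.trans hn]
  refine iSup_le fun k => (measure_mono (biInter_subset_of_mem (le_refl k))).trans ?_
  rw [(h.smul (g ^ k)).measure_preimage ho.measurableSet.nullMeasurableSet]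
  exact hr'.le

theorem GCurI_fix (h : Cur ρ μ) (hρ : Disc ρ) (hΛ : Lam ρ Λ) [NullSingletonClass μ] :
    μ {l | l ∈ Λ ∧ ∃ g : Γ, g ≠ 1 ∧ ρ g • l.src = l.src} = 0 := by
  have := hρ.countable
  obtain ⟨R, hR⟩ := hΛ.core
  have h1 : μ (⋃ g : {g : Γ // Hyp (ρ g)}, {l : Geo | l.src = (ax (ρ g.1)).src}) = 0 :=
    measure_iUnion_null fun g => GCurI_src h g.2
  refine measure_mono_null ?_ h1
  rintro l ⟨hl, g, hg, h2⟩
  rcases hρ.hyp_or_par hg with h3 | h3
  · rcases (h3.fix_iff _).1 h2 with h4 | h4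
    · exact mem_iUnion.2 ⟨⟨g, h3⟩, h4⟩
    · refine mem_iUnion.2 ⟨⟨g⁻¹, by rw [map_inv]; exact h3.inv⟩, ?_⟩
      rw [mem_ofPred_eq, GSys_ax_inv h3]
      exact h4
  · exact absurd ⟨g, h3, ((h3.fix_iff _).1 h2).symm⟩ (hρ.not_cusp_of_inCore (hR l hl)).1

/-- Almost no leaf has an endpoint fixed by a nontrivial element. -/
theorem Cur.null_fix (h : Cur ρ μ) (hρ : Disc ρ) (hΛ : Lam ρ Λ) [NullSingletonClass μ] :
    μ {l | l ∈ Λ ∧ ∃ g : Γ, g ≠ 1 ∧ (ρ g • l.src = l.src ∨ ρ g • l.tgt = l.tgt)} = 0 := by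
  have h1 := GCurI_fix h hρ hΛ
  refine measure_mono_null ?_ (measure_union_null h1 (h.rev.quasiMeasurePreserving.preimage_null h1))
  rintro l ⟨hl, g, hg, h2 | h2⟩
  · exact Or.inl ⟨hl, g, hg, h2⟩
  · exact Or.inr ⟨hΛ.rev l hl, g, hg, h2⟩

theorem GCurI_stab (h : Cur ρ μ) {R : ℝ} {l : Geo} (hR : InCore ρ R l) (h0 : μ {l} ≠ 0) :
    ∃ g : Γ, g ≠ 1 ∧ ρ g • l = l := by
  have := h.fin
  have hK := isCompact_lines o (sinh R)
  have hF := Measure.finite_const_le_meas_of_disjoint_iUnion μ (pos_iff_ne_zero.2 h0)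
    (As := fun m : Geo => {m} ∩ {l : Geo | |side l o.1| ≤ sinh R})
    (fun m => (measurableSet_singleton m).inter hK.measurableSet)
    (fun a b hab => (disjoint_singleton.2 hab).mono inter_subset_left inter_subset_left)
    ((measure_mono (iUnion_subset fun m => inter_subset_right)).trans_lt hK.measure_lt_top).ne
  have hG : {g : Γ | ∃ t, dist (ρ g • o) (pt l t) ≤ R}.Infinite := by
    intro hG
    obtain ⟨M, hM⟩ := (hG.image fun g => dist (pt l 0) (ρ g • o)).bddAbove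
    obtain ⟨g, hg⟩ := hR (M + R + 1)
    have h1 := hM ⟨g, ⟨_, hg⟩, rfl⟩
    have h2 := dist_triangle (pt l 0) (ρ g • o) (pt l (M + R + 1))
    rw [dist_pt, abs_sub_comm] at h2
    have h3 := le_abs_self (M + R + 1 - 0)
    dsimp only at h1
    linarith
  obtain ⟨a, -, b, -, hab, he⟩ := hG.exists_ne_map_eq_of_mapsTo (f := fun g => ρ g⁻¹ • l)
    (fun g ⟨t, ht⟩ => by
      have h1 : |side (ρ g⁻¹ • l) o.1| ≤ sinh R := by
        have h2 := side_smul_pt (ρ g⁻¹) l (ρ g • o)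
        rw [map_inv, inv_smul_smul] at h2
        have h3 := (abs_arsinh_side_le l (ρ g • o) (pt l t)).trans ht
        rw [side_pt, arsinh_zero, sub_zero] at h3
        rw [map_inv, h2, ← sinh_arsinh (side l (ρ g • o).1), abs_sinh]
        exact sinh_le_sinh.2 h3
      have h4 : μ {l} ≤ μ {ρ g⁻¹ • l} := by
        rw [← (h.smul g⁻¹).measure_preimage (s := {ρ g⁻¹ • l})
          (measurableSet_singleton _).nullMeasurableSet]
        exact measure_mono (singleton_subset_iff.2 rfl)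
      exact h4.trans (measure_mono (subset_inter Subset.rfl (singleton_subset_iff.2 h1)))) hF
  refine ⟨a * b⁻¹, fun h1 => hab (mul_inv_eq_one.1 h1), ?_⟩
  rw [map_mul, mul_smul, ← he, map_inv, smul_inv_smul]

/-- Atoms are closed leaves. -/
theorem Cur.atom (h : Cur ρ μ) (hρ : Disc ρ) (hΛ : Lam ρ Λ) {l : Geo} (hl : l ∈ Λ)
    (h0 : μ {l} ≠ 0) : ∃ s : Γ, Simple ρ s ∧ ax (ρ s) = l := by
  obtain ⟨R, hR⟩ := hΛ.core
  obtain ⟨g, hg, h1⟩ := GCurI_stab h (hR l hl) h0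
  obtain ⟨h2, h3⟩ := hyp_of_smul_eq h1 fun h2 => hg (hρ.injective (h2.trans (map_one ρ).symm))
  obtain ⟨c, hc, h4⟩ : ∃ c : Γ, Hyp (ρ c) ∧ ax (ρ c) = l := by
    rcases h3 with h3 | h3
    · exact ⟨g, h2, h3⟩
    · exact ⟨g⁻¹, by rw [map_inv]; exact h2.inv, by rw [GSys_ax_inv h2, h3, Geo.rev_rev]⟩
  obtain ⟨k, n, hn, rfl, hp, hk⟩ := hρ.exists_root hc
  rw [map_pow, (hk.pow hn).2.1] at h4
  refine ⟨k, simple_iff.2 ⟨hk, hp, fun a => ?_⟩, h4⟩
  rw [h4]
  exact hΛ.nc l hl _ (hΛ.smul a l hl)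

/-- The measure induced on a transversal. -/
noncomputable def posM (μ : Measure Geo) (A : Geo) : Measure ℝ :=
  (μ.restrict (xs A univ)).map (xp A)

theorem GCurI_cont (A : Geo) : ContinuousOn (xp A) (xs A univ) := fun _ hl =>
  ((continuousAt_xp (xs_cross hl)).comp_of_eq
    (continuous_const.prodMk continuous_id).continuousAt rfl).continuousWithinAt

theorem posM_apply (μ : Measure Geo) (A : Geo) {I : Set ℝ} (hI : MeasurableSet I) :
    posM μ A I = μ (xs A I) := by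
  have hm := measurableSet_xs A MeasurableSet.univ
  rw [posM, Measure.map_apply_of_aemeasurable ((GCurI_cont A).aemeasurable hm) hI,
    Measure.restrict_apply' hm]
  congr 1
  ext l
  exact ⟨fun h => ⟨h.2.1, h.2.2.1, h.1⟩, fun h => ⟨h.2.2, h.1, h.2.1, trivial⟩⟩

theorem Cur.posM_locFin (h : Cur ρ μ) (A : Geo) : IsLocallyFiniteMeasure (posM μ A) := by
  refine ⟨fun x => ⟨Ioo (x - 1) (x + 1), Ioo_mem_nhds (by linarith) (by linarith), ?_⟩⟩
  rw [posM_apply μ A measurableSet_Ioo]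
  exact h.xs_lt_top A (Metric.isBounded_Ioo _ _)

theorem Lam.posM_noAtoms (hΛ : Lam ρ Λ) (hμ : μ Λᶜ = 0) [NullSingletonClass μ] (A : Geo) :
    NullSingletonClass (posM μ A) := by
  refine ⟨fun x => ?_⟩
  rw [posM_apply μ A (measurableSet_singleton x)]
  have h1 : (xs A {x} ∩ Λ).Subsingleton := fun l hl m hm =>
    eq_of_xp_eq (xs_mono A (subset_univ _) hl.1) (xs_mono A (subset_univ _) hm.1)
      (hΛ.nc l hl.2 m hm.2) (hl.1.2.2.trans hm.1.2.2.symm)
  refine measure_mono_null (fun l hl => ?_) (measure_union_null (h1.measure_zero μ) hμ)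
  by_cases h2 : l ∈ Λ
  · exact Or.inl ⟨hl, h2⟩
  · exact Or.inr h2

theorem Lam.posM_singular (hΛ : Lam ρ Λ) (hμ : μ Λᶜ = 0) (hν : ν Λᶜ = 0) (h : μ ⟂ₘ ν) (A : Geo) :
    posM μ A ⟂ₘ posM ν A := by
  obtain ⟨s, hs, h1, h2⟩ := h
  have hi : InjOn (xp A) (Λ ∩ xs A univ) := fun l hl m hm he =>
    eq_of_xp_eq hl.2 hm.2 (hΛ.nc l hl.1 m hm.1) he
  have hT : MeasurableSet (xp A '' (s ∩ (Λ ∩ xs A univ))) :=
    (hs.inter (hΛ.closed.measurableSet.inter
      (measurableSet_xs A MeasurableSet.univ))).image_of_continuousOn_injOn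
      ((GCurI_cont A).mono fun l hl => hl.2.2) (hi.mono inter_subset_right)
  refine ⟨_, hT, ?_, ?_⟩
  · rw [posM_apply μ A hT]
    refine measure_mono_null (fun l hl => ?_) (measure_union_null h1 hμ)
    by_cases h3 : l ∈ Λ
    · obtain ⟨m, hm, he⟩ := hl.2.2
      exact Or.inl (hi hm.2 ⟨h3, xs_mono A (subset_univ _) hl⟩ he ▸ hm.1)
    · exact Or.inr h3
  · rw [posM_apply ν A hT.compl]
    refine measure_mono_null (fun l hl => ?_) (measure_union_null h2 hν)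
    by_cases h3 : l ∈ Λ
    · exact Or.inl fun h4 => hl.2.2 ⟨l, ⟨h4, h3, xs_mono A (subset_univ _) hl⟩, rfl⟩
    · exact Or.inr h3

end HRT
end

-- merged part: Pool.Agent.Work.MP_35beee_gt.SSep
section
/-!
Lines that separate two points; surgery on a closed geodesic that crosses itself.

Plan. `sep_pt`: `side_pt_eq`, `side_of_cross`, `side_pt_mul_pos_iff`. `ic_le_sep`: a line `m` of
`D = xs (ax g) (Ico 0 tl)` has `side m (g ^ n • x) > 0` for `n` very negative and `< 0` for `n` large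
(`ToB.eventually_pos`, `toB_fermi_atTop`, `Hyp.smul_fermi_ax`), so it is in `g ^ n • sep x (g • x)`
for some `n`; the translates of `D` are disjoint (`smul_mem_xs`, `Hyp.sh_zpow`).
`xs_single`: the lines through `pt A s` are `xs A {s}`, its reverse, `A` and `A.rev`
(`cross_of_common`), all of finite measure.
`exists_surgery`: let `A = ax g`, `T = tl g`, `k • A` cross `A` at `p = pt A s`. After replacing `k`
by `u = k * g ^ n` we have `u • q = p` with `q = pt A s'`, `s - T < s' < s` (`s' = s` would give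
`u = 1`). Let `v = g * u⁻¹`; it maps `p` to `pt A (s' + T)`. The element `v⁻¹ * u` maps `q` to
`u • pt A (s - T)`, a point of `u • A` at distance `T - (s - s')` from `p` that is not on `A`, so the
triangle inequality is strict (`mem_seg_iff_dist`); the masses are those of `Ico s' s` and
`Ioc (s - T) s'`, use `xs_single` for `u` and for `g`, and `Cur.ic_eq`.
-/

namespace HRT

open Set Filter Topology Real MeasureTheory

/-- Lines with `x` on the closed left side and `y` on the open right side. -/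
def sep (x y : Pt) : Set Geo := {m | 0 ≤ side m x.1 ∧ side m y.1 < 0}

theorem measurableSet_sep (x y : Pt) : MeasurableSet (sep x y) := by
  have c : ∀ z : Pt, Measurable fun m : Geo => side m z.1 := fun z =>
    (continuous_nrm.B' continuous_const).measurable
  exact (measurableSet_le measurable_const (c x)).inter (measurableSet_lt (c y) measurable_const)

theorem sep_subset (x y z : Pt) : sep x z ⊆ sep x y ∪ sep y z := by
  intro m hm
  rcases lt_or_ge (side m y.1) 0 with h | h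
  · exact Or.inl ⟨hm.1, h⟩
  · exact Or.inr ⟨h, hm.2⟩

theorem smul_mem_sep (g : Isom) (x y : Pt) (m : Geo) :
    g • m ∈ sep (g • x) (g • y) ↔ m ∈ sep x y := by
  simp only [sep, mem_ofPred_eq, side_smul_pt]

theorem sep_subset_near (x y : Pt) : sep x y ⊆ {m | |side m x.1| ≤ sinh (dist x y)} := by
  intro m hm
  have h1 := (le_abs_self _).trans (abs_arsinh_side_le m x y)
  have h2 := arsinh_neg_iff.2 hm.2
  rw [mem_ofPred_eq, abs_of_nonneg hm.1, ← sinh_arsinh (side m x.1), sinh_le_sinh]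
  linarith

theorem SSep_sign {A m : Geo} (h : m ∈ xs A univ) (t : ℝ) :
    side m (pt A t).1 < 0 ↔ xp A m < t := by
  have h1 := (side_of_cross h.1 h.2.1).2
  rw [← side_pt_mul_pos_iff (xs_cross h)]
  exact ⟨fun k => mul_pos_of_neg_of_neg k h1, fun k => neg_of_mul_pos_left k h1.le⟩

theorem SSep_mem {A m : Geo} {s t : ℝ} (h : s ≤ t) (h1 : 0 ≤ side m (pt A s).1)
    (h2 : side m (pt A t).1 < 0) : m ∈ xs A univ := by
  have hk := inv_pos.2 (GFermi_pos A)
  rw [side_pt_eq, mul_nonneg_iff_of_pos_left hk] at h1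
  rw [side_pt_eq] at h2
  have h3 := neg_of_mul_neg_right h2 hk.le
  have e : ∀ r a b : ℝ, exp r * (exp (-r) * a + exp r * b) = a + exp (2 * r) * b := fun r a b => by
    rw [mul_add, ← mul_assoc, ← exp_add, add_neg_cancel, exp_zero, one_mul, ← mul_assoc, ← exp_add,
      two_mul]
  have h4 := mul_nonneg (exp_pos s).le h1
  have h5 := mul_neg_of_pos_of_neg (exp_pos t) h3
  rw [e] at h4 h5
  have h6 : side m A.tgt.1 < 0 := not_le.1 fun k => by
    have := mul_le_mul_of_nonneg_right (exp_le_exp.2 (show 2 * s ≤ 2 * t by linarith)) k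
    linarith
  have h7 : 0 < side m A.src.1 := by linarith [mul_neg_of_pos_of_neg (exp_pos (2 * s)) h6]
  refine (Cross.symm (mul_neg_of_pos_of_neg h7 h6 : Cross m A)).mem_xs.resolve_right fun k => ?_
  have := (side_of_cross k.1 k.2.1).1
  rw [side_rev] at this
  linarith

theorem sep_pt (A : Geo) {s t : ℝ} (h : s ≤ t) : sep (pt A s) (pt A t) = xs A (Ico s t) := by
  ext m
  constructor
  · rintro ⟨h1, h2⟩
    have h3 := SSep_mem h h1 h2
    exact ⟨h3.1, h3.2.1, not_lt.1 fun k => h1.not_gt ((SSep_sign h3 s).2 k), (SSep_sign h3 t).1 h2⟩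
  · intro h1
    have h3 := xs_mono A (subset_univ _) h1
    exact ⟨not_lt.1 fun k => h1.2.2.1.not_gt ((SSep_sign h3 s).1 k), (SSep_sign h3 t).2 h1.2.2.2⟩

theorem sep_pt_rev (A : Geo) {s t : ℝ} (h : s ≤ t) :
    Geo.rev ⁻¹' sep (pt A t) (pt A s) = xs A (Ioc s t) := by
  have e : ∀ r, pt A r = pt A.rev (-r) := fun r => by rw [pt_rev, neg_neg]
  ext m
  have e2 : (fun r : ℝ => -r) ⁻¹' Ico (-t) (-s) = Ioc s t := by
    ext r
    simp only [mem_preimage, mem_Ico, mem_Ioc, neg_le_neg_iff, neg_lt_neg_iff, and_comm]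
  rw [e t, e s, sep_pt _ (neg_le_neg h), mem_preimage, rev_mem_xs, e2]

variable {Γ : Type*} [Group Γ] {ρ : Γ →* Isom} {μ : Measure Geo}

theorem Cur.sep_lt_top (h : Cur ρ μ) (x y : Pt) : μ (sep x y) < ⊤ := by
  have := h.fin
  exact (measure_mono (sep_subset_near x y)).trans_lt (isCompact_lines x _).measure_lt_top

theorem Cur.sep_smul (h : Cur ρ μ) (g : Γ) (x y : Pt) :
    μ (sep (ρ g • x) (ρ g • y)) = μ (sep x y) := by
  rw [← (h.smul g).measure_preimage (measurableSet_sep _ _).nullMeasurableSet]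
  exact congrArg μ (Set.ext (smul_mem_sep (ρ g) x y))

theorem SSep_cover {g : Isom} (hg : Hyp g) (x : Pt) {m : Geo} (hm : m ∈ xs (ax g) univ) :
    ∃ n : ℤ, g ^ n • m ∈ sep x (g • x) := by
  obtain ⟨h1, h2⟩ := side_of_cross hm.1 hm.2.1
  have e : ∀ n : ℤ, g ^ n • x =
      fermi (ax g) (fer (ax g) x.1 + n * tl g) (arsinh (side (ax g) x.1)) := fun n => by
    conv_lhs => rw [← fermi_fer (ax g) x]
    rw [smul_fermi, hg.zpow_smul_ax, hg.sh_zpow]
  have t1 := (tendsto_atBot_add_const_left _ (fer (ax g) x.1)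
    (((tendsto_intCast_atBot_iff (R := ℝ)).2 tendsto_id).atBot_mul_const hg)).eventually
    ((toB_fermi_atBot (ax g) (arsinh (side (ax g) x.1))).eventually_pos h1)
  have t2 := (tendsto_atTop_add_const_left _ (fer (ax g) x.1)
    ((tendsto_intCast_atTop_atTop (R := ℝ)).atTop_mul_const hg)).eventually
    ((toB_fermi_atTop (ax g) (arsinh (side (ax g) x.1))).eventually_pos (n := nrm m.rev)
      (show 0 < side m.rev _ by rw [side_rev]; linarith))
  obtain ⟨a, ha⟩ := t1.exists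
  obtain ⟨b, hb, hab⟩ := (t2.and (eventually_ge_atTop a)).exists
  rw [← e] at ha hb
  by_contra hn
  have key : ∀ n, a ≤ n → 0 ≤ side m (g ^ n • x).1 := by
    refine Int.le_induction ha.le fun n _ ih => not_lt.1 fun k => hn ⟨-n, ?_⟩
    rw [← smul_mem_sep (g ^ n), zpow_neg, smul_inv_smul, ← mul_smul, ← zpow_add_one]
    exact ⟨ih, k⟩
  have h3 : 0 < side m.rev (g ^ b • x).1 := hb
  rw [side_rev] at h3
  linarith [key b hab]

theorem Cur.ic_le_sep (h : Cur ρ μ) (g : Γ) (x : Pt) :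
    ic μ (ρ g) ≤ μ.real (sep x (ρ g • x)) := by
  by_cases hg : Hyp (ρ g)
  swap
  · rw [GCurI_zero μ hg]
    exact measureReal_nonneg
  refine ENNReal.toReal_mono (h.sep_lt_top _ _).ne ?_
  have hD := measurableSet_xs (ax (ρ g)) (measurableSet_Ico (a := 0) (b := tl (ρ g)))
  have hE := measurableSet_sep x (ρ g • x)
  generalize hI : Ico 0 (tl (ρ g)) = I at hD ⊢
  have hm : ∀ n : ℤ, MeasurableSet
      (sep x (ρ g • x) ∩ (fun l : Geo => ρ (g ^ (-n)) • l) ⁻¹' xs (ax (ρ g)) I) :=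
    fun n => hE.inter ((h.smul _).measurable hD)
  calc μ (xs (ax (ρ g)) I)
      ≤ μ (⋃ n : ℤ, (fun l : Geo => ρ (g ^ n) • l) ⁻¹'
        (sep x (ρ g • x) ∩ (fun l : Geo => ρ (g ^ (-n)) • l) ⁻¹' xs (ax (ρ g)) I)) := by
        refine measure_mono fun m hm => ?_
        obtain ⟨n, hn⟩ := SSep_cover hg x (xs_mono _ (subset_univ _) hm)
        refine mem_iUnion.2 ⟨n, by rwa [← map_zpow] at hn, ?_⟩
        rwa [mem_preimage, zpow_neg, map_inv, inv_smul_smul]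
    _ ≤ ∑' n : ℤ, μ (sep x (ρ g • x) ∩ (fun l : Geo => ρ (g ^ (-n)) • l) ⁻¹' xs (ax (ρ g)) I) :=
        (measure_iUnion_le _).trans_eq
          (tsum_congr fun n => (h.smul _).measure_preimage (hm n).nullMeasurableSet)
    _ ≤ μ (sep x (ρ g • x)) := by
        rw [← measure_iUnion _ hm]
        · exact measure_mono (iUnion_subset fun n => inter_subset_left)
        · intro a b hab
          refine Set.disjoint_left.2 fun y ha hb => hab (neg_injective ?_)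
          have h1 := ((GCurI_mem hg _ y I).1 ha.2).2
          have h2 := ((GCurI_mem hg _ y I).1 hb.2).2
          rw [← hI, ← zero_add (tl (ρ g))] at h1 h2
          rw [zero_add] at h1 h2
          refine (existsUnique_add_zsmul_mem_Ico hg (xp (ax (ρ g)) y) 0).unique ?_ ?_
          · rwa [zero_add]
          · rwa [zero_add]

theorem SSep_through (h : Cur ρ μ) (A : Geo) (s : ℝ) :
    μ {m | side m (pt A s).1 = 0} = 2 * μ (xs A {s}) + μ {A, A.rev} := by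
  have hm := measurableSet_xs A (measurableSet_singleton s)
  have e : {m | side m (pt A s).1 = 0} = (xs A {s} ∪ Geo.rev ⁻¹' xs A {s}) ∪ {A, A.rev} := by
    ext m
    constructor
    · intro h0
      by_cases h1 : m = A
      · exact Or.inr (Or.inl h1)
      by_cases h2 : m = A.rev
      · exact Or.inr (Or.inr h2)
      have h3 := cross_of_common (side_pt A s) h0 h1 h2
      have h4 := ((side_pt_eq_zero_iff h3 s).1 h0).symm
      exact Or.inl (h3.mem_xs.imp (fun k => ⟨k.1, k.2.1, h4⟩)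
        fun k => ⟨k.1, k.2.1, (xp_rev_right A m).trans h4⟩)
    · rintro ((k | k) | rfl | rfl)
      · exact (side_pt_eq_zero_iff (xs_cross k) s).2 k.2.2.symm
      · have := (side_pt_eq_zero_iff (xs_cross k) s).2 k.2.2.symm
        rwa [side_rev, neg_eq_zero] at this
      · exact side_pt _ s
      · rw [mem_ofPred_eq, side_rev, side_pt, neg_zero]
  rw [e, measure_union _ (toFinite _).measurableSet, measure_union _ (measurable_rev hm),
    h.rev.measure_preimage hm.nullMeasurableSet, two_mul]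
  · exact Set.disjoint_left.2 fun m k1 k2 => lt_asymm k1.1 k2.2.1
  · refine Set.disjoint_left.2 fun m k1 k2 => not_cross_self A ?_
    have k3 : Cross A m := k1.elim xs_cross fun k => cross_rev_right.1 (xs_cross k)
    rcases k2 with rfl | rfl
    · exact k3
    · exact cross_rev_right.1 k3

theorem Cur.xs_single (h : Cur ρ μ) {A : Geo} {s t : ℝ} {k : Γ} (hk : ρ k • pt A s = pt A t) :
    μ (xs A {s}) = μ (xs A {t}) := by
  have := h.fin
  have hm : MeasurableSet {m | side m (pt A t).1 = 0} :=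
    (isClosed_eq (continuous_nrm.B' continuous_const) continuous_const).measurableSet
  have h1 := (h.smul k).measure_preimage hm.nullMeasurableSet
  have e : (fun l : Geo => ρ k • l) ⁻¹' {m | side m (pt A t).1 = 0} =
      {m | side m (pt A s).1 = 0} := by
    ext m
    rw [mem_preimage, mem_ofPred_eq, mem_ofPred_eq, ← hk, side_smul_pt]
  rw [e, SSep_through h, SSep_through h,
    ENNReal.add_left_inj (toFinite _).isCompact.measure_lt_top.ne] at h1
  exact (ENNReal.mul_right_inj two_ne_zero ENNReal.ofNat_ne_top).1 h1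

theorem SSep_move (hρ : Disc ρ) {g : Γ} (hg : Hyp (ρ g)) (hs : ¬ SimpleLine ρ (ax (ρ g))) :
    ∃ (u : Γ) (s s' : ℝ), Cross (ax (ρ g)) (ρ u • ax (ρ g)) ∧
      ρ u • pt (ax (ρ g)) s' = pt (ax (ρ g)) s ∧ s - tl (ρ g) < s' ∧ s' < s := by
  obtain ⟨k, hk⟩ : ∃ k, Cross (ax (ρ g)) (ρ k • ax (ρ g)) := by
    by_contra h
    exact hs fun k hk => h ⟨k, hk⟩
  obtain ⟨n, hn⟩ := (existsUnique_add_zsmul_mem_Ioc hg
    (xp (ρ k • ax (ρ g)) (ax (ρ g)) - sh (ρ k) (ax (ρ g)))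
    (xp (ax (ρ g)) (ρ k • ax (ρ g)) - tl (ρ g))).exists
  rw [sub_add_cancel, zsmul_eq_mul] at hn
  have e1 : ρ (k * g ^ (-n)) • ax (ρ g) = ρ k • ax (ρ g) := by
    rw [map_mul, mul_smul, map_zpow, hg.zpow_smul_ax]
  have e2 : ρ (k * g ^ (-n)) • pt (ax (ρ g))
      (xp (ρ k • ax (ρ g)) (ax (ρ g)) - sh (ρ k) (ax (ρ g)) + n * tl (ρ g)) =
      pt (ax (ρ g)) (xp (ax (ρ g)) (ρ k • ax (ρ g))) := by
    rw [map_mul, mul_smul, map_zpow, smul_pt, hg.zpow_smul_ax, hg.sh_zpow, smul_pt, pt_xp hk]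
    congr 1
    push_cast
    ring
  refine ⟨k * g ^ (-n), _, _, e1.symm ▸ hk, e2, hn.1, hn.2.lt_of_ne fun e => ?_⟩
  rw [e] at e2
  rw [← e1, hρ.free _ _ e2, map_one, one_smul] at hk
  exact not_cross_self _ hk

theorem SSep_strict {A : Geo} {s s' : ℝ} (h : s' ≠ s) {y : Pt} (hy : side A y.1 ≠ 0) :
    dist (pt A s') y < dist (pt A s') (pt A s) + dist (pt A s) y := by
  refine (dist_triangle _ _ _).lt_of_ne fun e => ?_
  obtain ⟨a, b, -, -, h1⟩ := mem_seg_iff_dist.2 e.symm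
  have h2 := side_pt A s
  rw [h1, side, B_add_right, B_smul_right, B_smul_right, GFermi_np, mul_zero, zero_add] at h2
  rw [(mul_eq_zero.1 h2).resolve_right hy, zero_smul, add_zero] at h1
  have h3 : a ≠ 0 := fun k => by
    have := (pt A s).2.2
    rw [h1, k, zero_smul] at this
    exact lt_irrefl _ this
  have h4 := fer_pt A s
  rw [h1, fer_smul A h3, fer_pt] at h4
  exact h h4

theorem SSep_mass (A : Geo) {a b c : ℝ} (h1 : a < b) (h2 : b ≤ c)
    (h : μ (xs A {b}) = μ (xs A {a})) :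
    μ (xs A (Ico b c)) + μ (xs A (Ioc a b)) = μ (xs A (Ico a c)) := by
  rw [← posM_apply _ _ (measurableSet_singleton _),
    ← posM_apply _ _ (measurableSet_singleton _)] at h
  rw [← posM_apply _ _ measurableSet_Ico, ← posM_apply _ _ measurableSet_Ico,
    ← posM_apply _ _ measurableSet_Ioc, ← Ico_union_Ico_eq_Ico h1.le h2,
    measure_union Ico_disjoint_Ico_same measurableSet_Ico, ← Ioo_union_right h1,
    ← Ioo_union_left h1, measure_union (by simp) (measurableSet_singleton _),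
    measure_union (by simp) (measurableSet_singleton _), h, add_comm]

theorem exists_surgery (hρ : Disc ρ) (h : Cur ρ μ) {g : Γ} (hg : Hyp (ρ g))
    (hs : ¬ SimpleLine ρ (ax (ρ g))) : ∃ u v : Γ, v * u = g ∧ ∀ w, w = u ∨ w = v ∨ w = v⁻¹ * u →
      tl (ρ w) < tl (ρ g) ∧ ic μ (ρ w) ≤ ic μ (ρ g) := by
  obtain ⟨u, s, s', h1, h2, h3, h4⟩ := SSep_move hρ hg hs
  have fin : ∀ a b, μ (xs (ax (ρ g)) (Ico a b)) ≠ ⊤ := fun a b =>
    (h.xs_lt_top _ (Metric.isBounded_Ico _ _)).ne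
  have key : ∀ (w : Γ) (a b : ℝ), ρ w • pt (ax (ρ g)) a = pt (ax (ρ g)) b → a ≤ b →
      b < a + tl (ρ g) → tl (ρ w) < tl (ρ g) ∧ ic μ (ρ w) ≤ ic μ (ρ g) := by
    intro w a b k1 k2 k3
    constructor
    · refine (tl_le _ (pt (ax (ρ g)) a)).trans_lt ?_
      rw [k1, dist_pt, abs_sub_comm, abs_of_nonneg (sub_nonneg.2 k2)]
      linarith
    · refine (h.ic_le_sep w (pt (ax (ρ g)) a)).trans ?_
      rw [k1, sep_pt _ k2, h.ic_eq hg a]
      exact measureReal_mono (xs_mono _ (Ico_subset_Ico_right k3.le)) (fin _ _)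
  have e1 : ρ g • pt (ax (ρ g)) (s - tl (ρ g)) = pt (ax (ρ g)) s := by
    rw [hg.smul_pt_ax, sub_add_cancel]
  refine ⟨u, g * u⁻¹, inv_mul_cancel_right g u, ?_⟩
  rintro w (rfl | rfl | rfl)
  · exact key w s' s h2 h4.le (by linarith)
  · refine key _ s (s' + tl (ρ g)) ?_ (by linarith) (by linarith)
    rw [map_mul, mul_smul, ← h2, map_inv, inv_smul_smul, hg.smul_pt_ax]
  · have e2 : ρ ((g * u⁻¹)⁻¹ * u) • pt (ax (ρ g)) s' = ρ u • pt (ax (ρ g)) (s - tl (ρ g)) := by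
      rw [mul_inv_rev, inv_inv, map_mul, map_mul, mul_smul, mul_smul, h2, ← e1, map_inv,
        inv_smul_smul]
    constructor
    · refine (tl_le _ (pt (ax (ρ g)) s')).trans_lt ?_
      rw [e2]
      refine (SSep_strict h4.ne fun k => ?_).trans_eq ?_
      · have k1 := side_pt (ax (ρ g)) s
        rw [← h2] at k1
        rw [smul_pt, side_pt_eq_zero_iff h1.symm] at k k1
        linarith
      · rw [dist_pt, ← h2, dist_smul, dist_pt, abs_of_neg (sub_neg.2 h4), abs_of_pos (sub_pos.2 h3)]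
        ring
    · refine (h.ic_le_sep _ (pt (ax (ρ g)) s')).trans ?_
      rw [e2, h.ic_eq hg (s - tl (ρ g)), sub_add_cancel]
      refine ENNReal.toReal_mono (fin _ _) ((measure_mono (sep_subset _ (pt (ax (ρ g)) s) _)).trans
        ((measure_union_le _ _).trans_eq ?_))
      rw [← SSep_mass _ h3 h4.le ((h.xs_single h2).trans (h.xs_single e1).symm), sep_pt _ h4.le,
        ← sep_pt_rev _ h3.le, h.rev.measure_preimage (measurableSet_sep _ _).nullMeasurableSet,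
        ← h2, h.sep_smul]

end HRT
end

-- merged part: Pool.Agent.Work.MP_35beee_gt.STree
section
/-!
Elements that cross a system of lines; a simple one with small intersection number.

Plan. `thru_iff`: `hyp_of_nest` (`Sys.side_ne_zero`), `Hyp.nest_of_cross`, `Cross` is symmetric in
the orientation. `thru_or`: suppose that `u`, `v` and `v⁻¹ * u` are not `Thru`. For `m ∈ L` and
`w = u` or `v` there are three cases (`nest_cases`): `w • m = m`, (a) `Nest (w • m) m.rev`, (b)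
`Nest (w • m).rev m`; the case is the same for `w⁻¹` and for the line `w • m`, and (b) for `m` is
(a) for `m.rev`. If (a) holds for `u` and (b) for `v` at `m` then
`Nest (v⁻¹ • u • m) (v⁻¹ • m.rev)` and `Nest (v⁻¹ • m.rev) m`, and `v⁻¹ • u • m ≠ m`
(`smul_ne_rev`, `Nest.antisymm`). So this does not happen. Let `g = v * u`, `Nest (g • m) m`,
`g • m ≠ m`. Then `u • m ≠ m` and `v • u • m ≠ u • m`; so the case of `u` at `m`, of `u` and `v` at
`u • m`, of `v` and `u` at `g • m` are the same. Hence the case of `u` at `g ^ n • m` is the same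
for all integers `n`. In case (b) a fixed point `ξ` of `u` on the circle has
`0 ≤ side (g ^ n • m) ξ` for all `n`, so it is the attracting point of `g` (`Hyp.tendsto_pow` for
`g⁻¹`); in case (a) it is the repelling point. Then `u` preserves the axis of `g`
(`smul_ax_of_fix`, `hyp_of_smul_eq`), so it is `Thru` by `thru_iff`.
`exists_simple_le`: minimise `θ * tl + ic μ` over the `Thru` elements, `θ * tl g ≤ ε`
(`finite_spectrum`, `ic_conj`, `tl_conj'`); the minimiser is primitive (`exists_root`, `ic_pow`) and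
its axis is simple (`exists_surgery`, `thru_or`).
-/

namespace HRT

open Set Filter Topology Real MeasureTheory

variable {Γ : Type*} [Group Γ] {ρ : Γ →* Isom} {N : ℝ → ℝ} {L : Set Geo} {μ : Measure Geo}

/-- `g` moves a line of the system beyond itself. -/
def Thru (ρ : Γ →* Isom) (L : Set Geo) (g : Γ) : Prop :=
  ∃ m ∈ L, Nest (ρ g • m) m ∧ ρ g • m ≠ m

theorem STree_hyp (hL : Sys ρ L) (hρ : Disc ρ) {g : Γ} {m : Geo} (hm : m ∈ L)
    (h1 : Nest (ρ g • m) m) (h2 : ρ g • m ≠ m) :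
    Hyp (ρ g) ∧ 0 < side m (ax (ρ g)).tgt.1 ∧ side m (ax (ρ g)).src.1 < 0 := by
  have h3 := hL.side_ne_zero hm (hL.smul g m hm) h2 (hρ.smul_ne_rev g m)
  refine hyp_of_nest h1 (fun h => ?_) fun h => ?_
  · rw [Geo.src_smul, h, side_src, zero_mul] at h3
    exact lt_irrefl _ h3
  · rw [Geo.tgt_smul, h, side_tgt, mul_zero] at h3
    exact lt_irrefl _ h3

theorem Sys.thru_iff (hL : Sys ρ L) (hρ : Disc ρ) (g : Γ) :
    Thru ρ L g ↔ Hyp (ρ g) ∧ ∃ m ∈ L, Cross (ax (ρ g)) m := by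
  constructor
  · rintro ⟨m, hm, h1, h2⟩
    obtain ⟨h3, h4, h5⟩ := STree_hyp hL hρ hm h1 h2
    exact ⟨h3, m, hm, Cross.symm (mul_neg_of_neg_of_pos h5 h4)⟩
  · rintro ⟨h1, m, hm, h2⟩
    have key : ∀ l ∈ L, 0 < side l (ax (ρ g)).tgt.1 → side l (ax (ρ g)).src.1 < 0 →
        Thru ρ L g := by
      intro l hl h3 h4
      refine ⟨l, hl, h1.nest_of_cross (hL.nc l hl _ (hL.smul g l hl)) h3 h4, fun h5 => ?_⟩
      rcases (hyp_of_smul_eq h5 (GAx_ne_one h1)).2 with h6 | h6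
      · rw [h6, side_tgt] at h3
        exact lt_irrefl _ h3
      · rw [h6, Geo.tgt_rev, side_src] at h3
        exact lt_irrefl _ h3
    rcases mul_neg_iff.1 (Cross.symm h2) with ⟨h3, h4⟩ | ⟨h3, h4⟩
    · exact key m.rev (hL.rev m hm) (by rw [side_rev]; linarith) (by rw [side_rev]; linarith)
    · exact key m hm h4 h3

theorem Sys.thru_conj (hL : Sys ρ L) {g : Γ} (h : Thru ρ L g) (k : Γ) :
    Thru ρ L (k * g * k⁻¹) := by
  obtain ⟨m, hm, h1, h2⟩ := h
  have e : ρ (k * g * k⁻¹) • ρ k • m = ρ k • ρ g • m := by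
    rw [← mul_smul, ← map_mul, inv_mul_cancel_right, map_mul, mul_smul]
  refine ⟨ρ k • m, hL.smul k m hm, ?_, ?_⟩
  · rw [e, nest_smul]
    exact h1
  · rw [e]
    exact fun h3 => h2 (smul_left_cancel _ h3)

theorem STree_inv {w : Isom} {m : Geo} (h : Nest (w • m) m.rev) : Nest (w⁻¹ • m) m.rev := by
  have h1 := (nest_smul w⁻¹).2 h.rev
  rwa [Geo.rev_rev, ← Geo.smul_rev, inv_smul_smul] at h1

theorem STree_move {w : Isom} {m : Geo} (h : Nest (w • m) m.rev) :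
    Nest (w • w • m) (w • m).rev := by
  have h1 := (nest_smul w).2 h
  rwa [Geo.smul_rev] at h1

theorem STree_cases (hL : Sys ρ L) {w : Γ} (hw : ¬ Thru ρ L w) {m : Geo} (hm : m ∈ L)
    (h : ρ w • m ≠ m) : Nest (ρ w • m) m.rev ∨ Nest (ρ w • m.rev) m.rev.rev := by
  rcases nest_cases (hL.nc _ (hL.smul w m hm) m hm) with h1 | h1 | h1 | h1
  · exact absurd ⟨m, hm, h1, h⟩ hw
  · exact absurd ⟨m.rev, hL.rev m hm, h1.rev, fun h2 => h (GSys_rev_inj h2)⟩ hw
  · exact Or.inl h1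
  · exact Or.inr h1

theorem STree_key (hρ : Disc ρ) {u v : Γ} (hw : ¬ Thru ρ L (v⁻¹ * u)) {m : Geo} (hm : m ∈ L)
    (h1 : Nest (ρ u • m) m.rev) (h2 : Nest (ρ v • m.rev) m.rev.rev) : False := by
  have h3 : Nest (ρ v⁻¹ • m.rev) m := by
    have := STree_inv h2
    rwa [← map_inv, Geo.rev_rev] at this
  have h4 : Nest (ρ (v⁻¹ * u) • m) (ρ v⁻¹ • m.rev) := by
    rw [map_mul, mul_smul, nest_smul]
    exact h1
  refine hw ⟨m, hm, h4.trans h3, fun h5 => ?_⟩
  rw [h5] at h4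
  exact hρ.smul_ne_rev v⁻¹ m.rev (h3.antisymm h4)

theorem STree_step (hL : Sys ρ L) (hρ : Disc ρ) {u v : Γ} (hu : ¬ Thru ρ L u)
    (hv : ¬ Thru ρ L v) (hw : ¬ Thru ρ L (v⁻¹ * u)) {m : Geo} (hm : m ∈ L)
    (h1 : ρ v • ρ u • m ≠ ρ u • m) (h2 : ρ u • ρ v • ρ u • m ≠ ρ v • ρ u • m)
    (h : Nest (ρ u • m) m.rev) : Nest (ρ u • ρ v • ρ u • m) (ρ v • ρ u • m).rev := by
  have hm1 := hL.smul u m hm
  have hm2 := hL.smul v _ hm1
  have h3 := (STree_cases hL hv hm1 h1).resolve_right (STree_key hρ hw hm1 (STree_move h))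
  exact (STree_cases hL hu hm2 h2).resolve_right fun h4 =>
    STree_key hρ hw (hL.rev _ hm2) h4 (STree_move h3)

theorem STree_step_rev (hL : Sys ρ L) (hρ : Disc ρ) {u v : Γ} (hu : ¬ Thru ρ L u)
    (hv : ¬ Thru ρ L v) (hw : ¬ Thru ρ L (v⁻¹ * u)) {m : Geo} (hm : m ∈ L)
    (h1 : ρ v • ρ u • m ≠ ρ u • m) (h2 : ρ u • ρ v • ρ u • m ≠ ρ v • ρ u • m)
    (h : Nest (ρ u • m.rev) m.rev.rev) :
    Nest (ρ u • (ρ v • ρ u • m).rev) (ρ v • ρ u • m).rev.rev := by
  have h3 := STree_step hL hρ hu hv hw (hL.rev m hm)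
    (by simp only [Geo.smul_rev]; exact fun h3 => h1 (GSys_rev_inj h3))
    (by simp only [Geo.smul_rev]; exact fun h3 => h2 (GSys_rev_inj h3)) h
  simpa only [Geo.smul_rev] using h3

theorem STree_fix {w : Isom} {m : Geo} {ξ : Circ} (h : Nest (w • m) m.rev) (hξ : w • ξ = ξ) :
    side m ξ.1 ≤ 0 := by
  by_contra h1
  have h2 := (side_smul_circ_pos w m ξ).2 (not_le.1 h1)
  rw [hξ] at h2
  have h3 := h.nonneg ξ.fut h2.le
  rw [side_rev] at h3
  exact h1 (by linarith)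

theorem STree_lim {g : Isom} (hg : Hyp g) {m : Geo} {ξ : Circ} (h : 0 < side m (ax g).tgt.1)
    (h1 : ∀ n : ℕ, side ((g ^ n)⁻¹ • m) ξ.1 ≤ 0) : ξ = (ax g).src := by
  by_contra h2
  have h3 : Continuous fun η : Circ => side m η.1 := continuous_const.B' continuous_subtype_val
  refine h.not_ge (le_of_tendsto' ((h3.tendsto _).comp (hg.tendsto_pow h2)) fun n => ?_)
  by_contra h4
  have h5 := (side_smul_circ_pos (g ^ n)⁻¹ m (g ^ n • ξ)).2 (not_le.1 h4)
  rw [inv_smul_smul] at h5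
  exact h5.not_ge (h1 n)

theorem Sys.thru_or (hL : Sys ρ L) (hρ : Disc ρ) {u v : Γ} (h : Thru ρ L (v * u)) :
    Thru ρ L u ∨ Thru ρ L v ∨ Thru ρ L (v⁻¹ * u) := by
  by_contra hno
  simp only [not_or] at hno
  obtain ⟨hu, hv, hw⟩ := hno
  obtain ⟨g, hg⟩ : ∃ g, g = v * u := ⟨_, rfl⟩
  have eg : ∀ m : Geo, ρ g • m = ρ v • ρ u • m := fun m => by rw [hg, map_mul, mul_smul]
  rw [← hg] at h
  obtain ⟨S, hS⟩ : ∃ S : Set Geo, ∀ m, m ∈ S ↔ m ∈ L ∧ Nest (ρ g • m) m ∧ ρ g • m ≠ m :=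
    ⟨{m | m ∈ L ∧ Nest (ρ g • m) m ∧ ρ g • m ≠ m}, fun _ => Iff.rfl⟩
  have hz : ∀ (n : ℤ), ∀ m ∈ S, ρ (g ^ n) • m ∈ S := by
    intro n m hm
    obtain ⟨h1, h2, h3⟩ := (hS m).1 hm
    have e : ρ g • ρ (g ^ n) • m = ρ (g ^ n) • ρ g • m := by
      rw [← mul_smul, ← mul_smul, ← map_mul, ← map_mul, (Commute.self_zpow g n).eq]
    refine (hS _).2 ⟨hL.smul _ m h1, ?_, ?_⟩
    · rw [e, nest_smul]
      exact h2
    · rw [e]
      exact fun h4 => h3 (smul_left_cancel _ h4)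
  have a1 : ∀ m ∈ S, ρ u • m ≠ m := by
    intro m hm h4
    obtain ⟨h1, h2, h3⟩ := (hS m).1 hm
    rw [eg, h4] at h2 h3
    exact hv ⟨m, h1, h2, h3⟩
  have a2 : ∀ m ∈ S, ρ v • ρ u • m ≠ ρ u • m := by
    intro m hm h4
    obtain ⟨h1, h2, h3⟩ := (hS m).1 hm
    rw [eg, h4] at h2 h3
    exact hu ⟨m, h1, h2, h3⟩
  obtain ⟨m₀, hm₀⟩ := h
  have hu1 : u ≠ 1 := fun h1 => a1 m₀ ((hS _).2 hm₀) (by rw [h1, map_one, one_smul])
  obtain ⟨ξ, hξ⟩ : ∃ ξ : Circ, ρ u • ξ = ξ := by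
    rcases hρ.hyp_or_par hu1 with h1 | h1
    · exact ⟨_, (h1.fix_iff _).2 (Or.inl rfl)⟩
    · exact ⟨_, (h1.fix_iff _).2 rfl⟩
  obtain ⟨b1, b2, b3⟩ := STree_hyp hL hρ hm₀.1 hm₀.2.1 hm₀.2.2
  have hend : ξ = (ax (ρ g)).src ∨ ξ = (ax (ρ g)).tgt := by
    by_cases hc : ∃ m ∈ S, Nest (ρ u • m.rev) m.rev.rev
    · obtain ⟨m, hm, h1⟩ := hc
      obtain ⟨c1, c2, c3⟩ := (hS m).1 hm
      obtain ⟨-, -, c4⟩ := STree_hyp hL hρ c1 c2 c3
      have h2 : ∀ n : ℕ, Nest (ρ u • (ρ (g ^ (n : ℤ)) • m).rev) (ρ (g ^ (n : ℤ)) • m).rev.rev := by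
        intro n
        induction n with
        | zero => simpa only [Nat.cast_zero, zpow_zero, map_one, one_smul] using h1
        | succ n ih =>
          have e : ρ (g ^ ((n + 1 : ℕ) : ℤ)) • m = ρ v • ρ u • ρ (g ^ (n : ℤ)) • m := by
            rw [← eg, ← mul_smul, ← map_mul, zpow_natCast, zpow_natCast, pow_succ']
          have d1 := hz n m hm
          have d2 := hz ((n + 1 : ℕ) : ℤ) m hm
          rw [e] at d2 ⊢
          exact STree_step_rev hL hρ hu hv hw ((hS _).1 d1).1 (a2 _ d1) (a1 _ d2) ih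
      refine Or.inr ?_
      have h3 := STree_lim b1.inv (m := m.rev) (ξ := ξ)
        (by rw [b1.ax_inv, side_rev, Geo.tgt_rev]; linarith) fun n => by
          have h4 := STree_fix (h2 n) hξ
          rwa [zpow_natCast, map_pow, ← Geo.smul_rev, ← inv_inv (ρ g ^ n), ← inv_pow] at h4
      rwa [b1.ax_inv, Geo.src_rev] at h3
    · refine Or.inl (STree_lim b1 b2 fun n => ?_)
      have d1 := hz (-(n : ℤ)) m₀ ((hS _).2 hm₀)
      have h1 := (STree_cases hL hu ((hS _).1 d1).1 (a1 _ d1)).resolve_right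
        fun h2 => hc ⟨_, d1, h2⟩
      have h2 := STree_fix h1 hξ
      rwa [zpow_neg, zpow_natCast, map_inv, map_pow] at h2
  have h1 : ρ u • ax (ρ g) = ax (ρ g) := by
    refine hρ.smul_ax_of_fix b1 ?_
    rcases hend with h1 | h1
    · exact Or.inl (h1 ▸ hξ)
    · exact Or.inr (h1 ▸ hξ)
  obtain ⟨h2, h3⟩ := hyp_of_smul_eq h1 fun h2 => hu1 (hρ.injective (h2.trans (map_one ρ).symm))
  have h4 : Cross (ax (ρ g)) m₀ := Cross.symm (mul_neg_of_neg_of_pos b3 b2)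
  refine hu ((hL.thru_iff hρ u).2 ⟨h2, m₀, hm₀.1, ?_⟩)
  rcases h3 with h3 | h3
  · rwa [h3]
  · rwa [h3, cross_rev_left]

theorem Sys.exists_simple_le (hL : Sys ρ L) (hρ : Good ρ N) (hμ : Cur ρ μ) {g : Γ}
    (hg : Thru ρ L g) {ε : ℝ} (hε : 0 < ε) :
    ∃ d, Simple ρ d ∧ Thru ρ L d ∧ ic μ (ρ d) ≤ ic μ (ρ g) + ε := by
  classical
  have hd := hρ.toDisc
  have hg0 : 0 < tl (ρ g) := ((hL.thru_iff hd g).1 hg).1
  obtain ⟨θ, hθ, hθ'⟩ : ∃ θ > 0, θ * tl (ρ g) = ε :=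
    ⟨ε / tl (ρ g), div_pos hε hg0, div_mul_cancel₀ _ hg0.ne'⟩
  obtain ⟨F, hF⟩ : ∃ F : Γ → ℝ, ∀ e, F e = θ * tl (ρ e) + ic μ (ρ e) := ⟨_, fun _ => rfl⟩
  obtain ⟨s, hs⟩ := hρ.finite_spectrum (F g / θ)
  have h1 : ∀ e, Thru ρ L e → F e ≤ F g → ∃ f ∈ s.filter (Thru ρ L), F f = F e := by
    intro e he h2
    obtain ⟨f, hf, h3⟩ := hs e ((hL.thru_iff hd e).1 he).1 (by
      rw [le_div_iff₀ hθ]
      linarith [hF e, ic_nonneg μ (ρ e)])
    obtain ⟨k, rfl⟩ := isConj_iff.1 h3.symm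
    exact ⟨_, Finset.mem_filter.2 ⟨hf, hL.thru_conj he k⟩, by rw [hF, hF, tl_conj', hμ.ic_conj]⟩
  obtain ⟨f₀, hf₀, -⟩ := h1 g hg le_rfl
  obtain ⟨d, hd1, hd2⟩ := (s.filter (Thru ρ L)).exists_min_image F ⟨f₀, hf₀⟩
  have h2 : ∀ e, Thru ρ L e → F e ≤ F g → F d ≤ F e := by
    intro e he h3
    obtain ⟨f, hf, h4⟩ := h1 e he h3
    exact h4 ▸ hd2 f hf
  have h3 := h2 g hg le_rfl
  obtain ⟨h4, m, hm, h5⟩ := (hL.thru_iff hd d).1 (Finset.mem_filter.1 hd1).2
  obtain ⟨k, n, hn, rfl, hp, hk⟩ := hd.exists_root h4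
  obtain ⟨-, h6, h7⟩ := hk.pow hn
  rw [map_pow, h6] at h5
  have hk1 : Thru ρ L k := (hL.thru_iff hd k).2 ⟨hk, m, hm, h5⟩
  have hn1 : (1 : ℝ) ≤ n := by exact_mod_cast Nat.one_le_iff_ne_zero.2 hn
  have h8 : F k ≤ F (k ^ n) := by
    rw [hF, hF, hμ.ic_pow, map_pow, h7]
    exact add_le_add (mul_le_mul_of_nonneg_left (le_mul_of_one_le_left (tl_nonneg _) hn1) hθ.le)
      (le_mul_of_one_le_left (ic_nonneg _ _) hn1)
  refine ⟨k, simple_iff.2 ⟨hk, hp, ?_⟩, hk1, ?_⟩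
  · by_contra h9
    obtain ⟨u, v, e, H⟩ := exists_surgery hd hμ hk h9
    have key : ∀ w, w = u ∨ w = v ∨ w = v⁻¹ * u → ¬ Thru ρ L w := by
      intro w hw hw1
      obtain ⟨a1, a2⟩ := H w hw
      have a3 : F w < F k := by
        rw [hF, hF]
        exact add_lt_add_of_lt_of_le (mul_lt_mul_of_pos_left a1 hθ) a2
      have a4 := h2 w hw1 (by linarith)
      linarith
    rcases hL.thru_or hd (e ▸ hk1 : Thru ρ L (v * u)) with a | a | a
    · exact key _ (Or.inl rfl) a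
    · exact key _ (Or.inr (Or.inl rfl)) a
    · exact key _ (Or.inr (Or.inr rfl)) a
  · have h9 := mul_nonneg hθ.le (tl_nonneg (ρ k))
    linarith [hF k, hF g]

end HRT
end

-- merged part: Pool.Agent.Work.MP_35beee_gt.SSpike
section
/-!
A closed leaf that is not an atom is crossed by simple closed curves that carry little measure.

Plan. `near_le`: the sets `{m | |side m x| ≤ r}` have finite measure and decrease to the set of lines
through `x`; the same for the lines that do not pass through `x`.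
`exists_end`: `x = pt A 0`; leaves through `x` are `A`, `A.rev` (`cross_of_common`). Let
`p = fermi A 0 r` with `r` small. The set of leaves `m` with `Nest m A`, `side m p ≤ 0` is closed and
not empty (`exists_smul_line_mem_arc` for the left arc of a line `l'` with `Nest l' A`,
`side l' p < 0`); take `m` in it with `|side m p|` least (`isCompact_lines`), `y` the foot of the
perpendicular from `p`, `ξ` an end of `m` that is not an end of `A` (`not_cusp_of_inCore`). A leaf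
`m'` with `side m' ξ < 0` has `side m' y < 0`; `sep_subset x p y`; a leaf `m'` in `sep p y` meets
the segment from `p` to `y` at a point closer to `p` than `y`, which is on the left of `A`; so
`Nest m'.rev A` (impossible by minimality) or `Nest m' A`, and then `m'` meets the segment from `x`
to `p`.
`exists_arc_le`: let `l` be the line through `x = pt l s₀` with `l.tgt = ξ` (`exists_line_pt_circ`),
`z j = h j • pt l (t j)` within `R` of `o`, `t j ≥ j` (`exists_return`), `z` the limit along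
`hyperfilter ℕ`. For `t > s₀` the sets `sep x (pt l t)` and the reverse of `sep (pt l t) x` are in
the set of `exists_end` (`side_pt_eq`). The leaves through `z` are at most `m₀`, `m₀.rev`, and the
sign of `side m₀ (z j)` is constant along the ultrafilter, so `sep (z i) (z j)` has small measure
(`near_le`). `side A (pt l t)` tends to infinity; choose `i`, then `j` with
`arsinh (side A (pt l (t j))) > arsinh (side A (pt l (t i))) + 1 > 2`; the lines `h i • A`,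
`h j • A` are different and both have `z j` on the left (`abs_arsinh_side_le`); `nest_cases`, and
`g = (h i)⁻¹ * h j` or its inverse.
`exists_thru`: apply `exists_arc_le` to `A` and `A.rev` (`pt_rev`); take `g`, `g'` or `g * g'`.
-/

namespace HRT

open Set Filter Topology Real MeasureTheory

variable {Γ : Type*} [Group Γ] {ρ : Γ →* Isom} {N : ℝ → ℝ} {Λ : Set Geo} {μ : Measure Geo}

theorem SSpike_le (h0 : μ Λᶜ = 0) {S T : Set Geo} (h : ∀ m ∈ Λ, m ∈ S → m ∈ T) : μ S ≤ μ T := by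
  refine (measure_mono (t := T ∪ Λᶜ) fun m hm => ?_).trans ((measure_union_le _ _).trans ?_)
  · by_cases h1 : m ∈ Λ
    exacts [.inl (h m h1 hm), .inr h1]
  · rw [h0, add_zero]

theorem SSpike_thru (hΛ : Lam ρ Λ) {A m : Geo} (hA : A ∈ Λ) (hm : m ∈ Λ) {x : Pt}
    (h1 : side A x.1 = 0) (h2 : side m x.1 = 0) : m = A ∨ m = A.rev := by
  by_contra h
  exact hΛ.nc A hA m hm (cross_of_common h1 h2 (fun e => h (.inl e)) fun e => h (.inr e))

theorem SSpike_rev (hμ : Cur ρ μ) {A : Geo} (h : μ {A} = 0) : μ {A.rev} = 0 :=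
  le_antisymm ((measure_mono (t := Geo.rev ⁻¹' {A}) fun m hm => by
    rw [mem_singleton_iff.1 hm]; exact A.rev_rev).trans
      ((hμ.rev.measure_preimage_le _).trans h.le)) bot_le

theorem SSpike_in {l m : Geo} (h1 : 0 < side l m.src.1) (h2 : 0 < side l m.tgt.1) :
    Nest m l ∨ Nest m.rev l := by
  rcases nest_cases (l := m) (m := l) fun h => (mul_pos h1 h2).not_gt h.symm with h | h | h | h
  · exact .inl h
  · exact absurd ((nest_iff_ends _ _).1 h).2.2.1 h1.not_ge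
  · exact absurd ((nest_iff_ends _ _).1 h).1 (by simpa using h1)
  · exact .inr h

theorem SSpike_abs {a b : ℝ} (h : |arsinh a| ≤ b) : |a| ≤ sinh b := by
  rw [← sinh_arsinh a, abs_sinh]
  exact sinh_le_sinh.2 h

theorem SSpike_mono {l m : Geo} (h : 0 ≤ side m l.tgt.1) {s t : ℝ} (hst : s ≤ t) :
    exp s * side m (pt l s).1 ≤ exp t * side m (pt l t).1 := by
  have h1 : ∀ u, exp u * side m (pt l u).1 = (√(-2 * B l.src.1 l.tgt.1))⁻¹ *
      (side m l.src.1 + exp u * exp u * side m l.tgt.1) := fun u => by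
    have := (exp_pos u).ne'
    rw [side_pt_eq, exp_neg]
    field_simp
  rw [h1, h1]
  have := (GFermi_pos l).le
  gcongr

theorem SSpike_neg {l m : Geo} (h : ¬ Cross l m) {ξ : Circ} (h1 : ξ = m.src ∨ ξ = m.tgt)
    (h2 : side l ξ.1 < 0) (t : ℝ) : side l (pt m t).1 < 0 := by
  rw [side_pt_eq]
  refine mul_neg_of_pos_of_neg (inv_pos.2 (GFermi_pos m)) ?_
  rw [Cross, not_lt] at h
  rcases h1 with rfl | rfl
  · exact add_neg_of_neg_of_nonpos (mul_neg_of_pos_of_neg (exp_pos _) h2)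
      (mul_nonpos_of_nonneg_of_nonpos (exp_pos _).le (nonpos_of_mul_nonneg_right h h2))
  · exact add_neg_of_nonpos_of_neg (mul_nonpos_of_nonneg_of_nonpos (exp_pos _).le
      (nonpos_of_mul_nonneg_left h h2)) (mul_neg_of_pos_of_neg (exp_pos _) h2)

theorem SSpike_top {A l : Geo} (h : 0 < side A l.tgt.1) :
    Tendsto (fun t => side A (pt l t).1) atTop atTop := by
  simp only [side_pt_eq]
  exact ((tendsto_exp_neg_atTop_nhds_zero.mul_const _).add_atTop
    (tendsto_exp_atTop.atTop_mul_const h)).const_mul_atTop (inv_pos.2 (GFermi_pos l))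

theorem SSpike_const {X : Type*} (U : Ultrafilter X) (P : X → Prop) :
    ∃ W ∈ U, ∀ i ∈ W, ∀ j ∈ W, P i → P j :=
  (U.em P).elim (fun h => ⟨_, h, fun _ _ _ hj _ => hj⟩) fun h => ⟨_, h, fun _ hi _ _ h => (hi h).elim⟩

theorem SSpike_leaf (hρ : Good ρ N) (hΛ : Lam ρ Λ) {A : Geo} (hA : A ∈ Λ) (r : ℝ) :
    ∃ m ∈ Λ, Nest m A ∧ side m (fermi A 0 r).1 ≤ 0 := by
  obtain ⟨a, ha, ha'⟩ := exists_circ_left A 1
  obtain ⟨b, hb, hb'⟩ := exists_circ_left A 2
  have hab : a ≠ b := fun e => by rw [e, hb'] at ha'; norm_num at ha'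
  obtain ⟨l, h1, h2⟩ : ∃ l, Nest l A ∧ side l (fermi A 0 r).1 < 0 := by
    rcases SSpike_in (m := Geo.mk' a b hab) ha hb with h | h
    all_goals
      refine ⟨_, h, not_le.1 fun e => ?_⟩
      have := fer_mem_uIcc_of_nest h (by simp [ha.ne', hb.ne']) (by simp [ha.ne', hb.ne'])
        (Pt.fut _) e
      simp [ha', hb', mem_uIcc] at this
      norm_num at this
  obtain ⟨g, h3, h4⟩ := hρ.exists_smul_line_mem_arc l.ne.symm A
  have h5 := hΛ.smul g A hA
  rcases SSpike_in ((side_pos_iff l _).2 (ccw.cyc (ccw.cyc h3)))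
    ((side_pos_iff l _).2 (ccw.cyc (ccw.cyc h4))) with h | h
  exacts [⟨_, h5, h.trans h1, not_lt.1 fun e => h2.not_gt (h _ e)⟩,
    ⟨_, hΛ.rev _ h5, h.trans h1, not_lt.1 fun e => h2.not_gt (h _ e)⟩]

theorem SSpike_min (hρ : Good ρ N) (hΛ : Lam ρ Λ) {A : Geo} (hA : A ∈ Λ) (r : ℝ) :
    ∃ m ∈ Λ, Nest m A ∧ side m (fermi A 0 r).1 ≤ 0 ∧ ∀ m' ∈ Λ, Nest m' A →
      side m' (fermi A 0 r).1 ≤ 0 → |side m (fermi A 0 r).1| ≤ |side m' (fermi A 0 r).1| := by
  obtain ⟨m₀, h1, h2, h3⟩ := SSpike_leaf hρ hΛ hA r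
  generalize fermi A 0 r = p at *
  have hc : IsClosed {m | m ∈ Λ ∧ Nest m A ∧ side m p.1 ≤ 0} := by
    refine hΛ.closed.inter (IsClosed.inter (s₁ := {m | Nest m A}) ?_
      (isClosed_le (GStrip_cont p) continuous_const))
    rw [show {m | Nest m A} = ⋂ q : Pt, ⋂ _ : side A q.1 ≤ 0, {m | side m q.1 ≤ 0} by
      ext m
      simp only [Nest, mem_iInter, mem_ofPred_eq, ← not_lt, not_imp_not]]
    exact isClosed_iInter fun q => isClosed_iInter fun _ =>
      isClosed_le (GStrip_cont q) continuous_const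
  obtain ⟨m, ⟨h4, h5⟩, h6⟩ := ((isCompact_lines p |side m₀ p.1|).inter_left hc).exists_isMinOn
    ⟨m₀, ⟨h1, h2, h3⟩, le_refl |side m₀ p.1|⟩ (GStrip_cont p).abs.continuousOn
  refine ⟨m, h4.1, h4.2.1, h4.2.2, fun m' a b c => ?_⟩
  rcases le_total |side m' p.1| |side m₀ p.1| with h | h
  exacts [h6 ⟨⟨a, b, c⟩, h⟩, le_trans h5 h]

theorem Cur.near_le (hμ : Cur ρ μ) (x : Pt) {ε : ℝ} (hε : 0 < ε) :
    ∃ r > 0, μ {m | |side m x.1| ≤ r ∧ side m x.1 ≠ 0} ≤ ENNReal.ofReal ε := by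
  have := hμ.fin
  have hc := GStrip_cont x
  have h1 := tendsto_measure_iInter_atTop (μ := μ)
    (s := fun n : ℕ => {m | |side m x.1| ≤ 1 / ((n : ℝ) + 1) ∧ side m x.1 ≠ 0})
    (fun n => ((isClosed_le hc.abs continuous_const).measurableSet.inter
      (isOpen_ne_fun hc continuous_const).measurableSet).nullMeasurableSet)
    (fun a b h m hm => ⟨hm.1.trans (Nat.one_div_le_one_div h), hm.2⟩)
    ⟨0, ((measure_mono fun m hm => hm.1).trans_lt (isCompact_lines x _).measure_lt_top).ne⟩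
  rw [show (⋂ n : ℕ, {m : Geo | |side m x.1| ≤ 1 / ((n : ℝ) + 1) ∧ side m x.1 ≠ 0}) = ∅ from
    eq_empty_of_forall_notMem fun m hm => by
      obtain ⟨n, hn⟩ := exists_nat_one_div_lt (abs_pos.2 (mem_iInter.1 hm 0).2)
      exact (mem_iInter.1 hm n).1.not_gt hn, measure_empty] at h1
  obtain ⟨n, hn⟩ := (h1.eventually (eventually_le_nhds (ENNReal.ofReal_pos.2 hε))).exists
  exact ⟨_, Nat.one_div_pos_of_nat, hn⟩

section

variable (hρ : Good ρ N) (hΛ : Lam ρ Λ) (hμ : Cur ρ μ) (h0 : μ Λᶜ = 0)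
include hρ hΛ hμ h0

theorem exists_end {A : Geo} (hA : A ∈ Λ) (h1 : μ {A} = 0) {ε : ℝ} (hε : 0 < ε) :
    ∃ ξ : Circ, 0 < side A ξ.1 ∧ ¬ IsCusp ρ ξ ∧
      μ {m | 0 ≤ side m (pt A 0).1 ∧ side m ξ.1 < 0} ≤ ENNReal.ofReal ε := by
  obtain ⟨r, hr, h2⟩ := hμ.near_le (pt A 0) hε
  obtain ⟨m, hm, h3, h4, h5⟩ := SSpike_min hρ hΛ hA (arsinh r)
  have h6 : 0 < side A (fermi A 0 (arsinh r)).1 := by simpa using hr
  have h7 : sinh (dist (pt A 0) (fermi A 0 (arsinh r))) = r := by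
    rw [dist_comm, dist_fermi_pt, abs_of_pos (arsinh_pos_iff.2 hr), sinh_arsinh]
  generalize fermi A 0 (arsinh r) = p at *
  have hne : m ≠ A := fun e => h6.not_ge (e ▸ h4)
  obtain ⟨ξ, hξ, h8⟩ : ∃ ξ : Circ, (ξ = m.src ∨ ξ = m.tgt) ∧ 0 < side A ξ.1 := by
    obtain ⟨a, b, -, -, c⟩ := (nest_iff_ends _ _).1 h3
    by_contra h
    exact (GNest_eq_or (a.eq_of_not_lt' fun e => h ⟨_, .inl rfl, e⟩)
      (b.eq_of_not_lt' fun e => h ⟨_, .inr rfl, e⟩)).elim hne c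
  obtain ⟨R, hR⟩ := hΛ.core
  have h9 := hρ.toDisc.not_cusp_of_inCore (hR m hm)
  refine ⟨ξ, h8, by rcases hξ with rfl | rfl; exacts [h9.1, h9.2], le_trans (SSpike_le h0 (T :=
    {m | |side m (pt A 0).1| ≤ r ∧ side m (pt A 0).1 ≠ 0} ∪ {A.rev}) fun n hn ⟨a, b⟩ => ?_)
    ((measure_union_le _ _).trans (by rwa [SSpike_rev hμ h1, add_zero]))⟩
  have hnA : n ≠ A := fun e => h8.not_gt (e ▸ b)
  by_cases c : side n (pt A 0).1 = 0
  · exact .inr ((SSpike_thru hΛ hA hn (side_pt A 0) c).resolve_left hnA)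
  refine .inl ⟨?_, c⟩
  rcases lt_or_ge (side n p.1) 0 with d | d
  · exact h7 ▸ sep_subset_near _ _ ⟨a, d⟩
  exfalso
  have e := SSpike_neg (hΛ.nc n hn m hm) hξ b (fer m p.1)
  obtain ⟨z, hz, f⟩ := exists_mem_seg_B_eq_zero (n := nrm n) e.le d
  have hz' : 0 < side A z.1 := B_pos_of_mem_seg hz (h3.pos_of_ne hne (side_pt _ _).ge) h6
  rcases nest_cases (hΛ.nc n hn A hA) with h | h | h | h
  · exact (h.pos_of_ne hnA a).ne' (side_pt A 0)
  · exact (h z hz').ne' f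
  · exact hz'.not_ge (by simpa using h.nonneg z.fut f.ge)
  · have i := h5 _ (hΛ.rev n hn) h (by simpa using d)
    have j := abs_arsinh_side_le n p z
    have k : 0 < dist (pt m (fer m p.1)) z := dist_pos.2 fun e' => e.ne (e' ▸ f)
    rw [show side n z.1 = 0 from f, arsinh_zero, sub_zero] at j
    rw [mem_seg_iff_dist, dist_comm _ p, dist_comm _ p, dist_foot] at hz
    rw [side_rev, abs_neg, ← sinh_arsinh (side m p.1), abs_sinh] at i
    exact (sinh_le_sinh.1 (i.trans (SSpike_abs j))).not_gt (by linarith)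

theorem exists_arc_le {A : Geo} (hA : A ∈ Λ) (h1 : μ {A} = 0) {ε : ℝ} (hε : 0 < ε) :
    ∃ g : Γ, (Nest (ρ g • A) A ∧ ρ g • A ≠ A ∨ Nest (ρ g • A).rev A) ∧
      μ (sep (pt A 0) (ρ g • pt A 0)) ≤ ENNReal.ofReal ε := by
  have hε' : 0 < ε / 3 := by positivity
  obtain ⟨ξ, h2, h3, h4⟩ := exists_end hρ hΛ hμ h0 hA h1 hε'
  obtain ⟨l, s, hs, rfl⟩ := exists_line_pt_circ (pt A 0) ξ
  obtain ⟨R, hR⟩ := hρ.exists_return
  choose t ht k hk using fun j : ℕ => hR l h3 j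
  have ht' : Tendsto t (hyperfilter ℕ) atTop :=
    (tendsto_atTop_mono ht tendsto_natCast_atTop_atTop).mono_left Nat.hyperfilter_le_atTop
  obtain ⟨z, hz⟩ : ∃ z : ℕ → Pt, ∀ j, ρ (k j) • z j = pt l (t j) :=
    ⟨fun j => (ρ (k j))⁻¹ • pt l (t j), fun j => smul_inv_smul _ _⟩
  obtain ⟨y, -, hy⟩ := (isCompact_closedBall o R).ultrafilter_le_nhds' ((hyperfilter ℕ).map z)
    (Ultrafilter.mem_map.2 (univ_mem' fun j => by
      rw [mem_preimage, Metric.mem_closedBall', ← dist_smul (ρ (k j)), hz]; exact hk j))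
  obtain ⟨r, hr, h5⟩ := hμ.near_le y hε'
  obtain ⟨W, hW, h6⟩ : ∃ W ∈ hyperfilter ℕ, ∀ i ∈ W, ∀ j ∈ W, ∀ m ∈ Λ, m ∈ sep (z i) (z j) →
      side m y.1 ≠ 0 := by
    by_cases h : ∃ m₀ ∈ Λ, side m₀ y.1 = 0
    · obtain ⟨m₀, a, b⟩ := h
      obtain ⟨W, hW, c⟩ := SSpike_const (hyperfilter ℕ) fun j => 0 ≤ side m₀ (z j).1
      obtain ⟨W', hW', d⟩ := SSpike_const (hyperfilter ℕ) fun j => 0 ≤ side m₀.rev (z j).1
      refine ⟨_, inter_mem hW hW', fun i hi j hj m hm e f => ?_⟩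
      rcases SSpike_thru hΛ a hm b f with rfl | rfl
      exacts [e.2.not_ge (c i hi.1 j hj.1 e.1), e.2.not_ge (d i hi.2 j hj.2 e.1)]
    · exact ⟨_, univ_mem, fun _ _ _ _ m hm _ f => h ⟨m, hm, f⟩⟩
  have h7 : ∀ᶠ j in hyperfilter ℕ, j ∈ W ∧ s ≤ t j ∧ dist (z j) y ≤ min (arsinh r) (1 / 2) :=
    (show ∀ᶠ j in hyperfilter ℕ, j ∈ W from hW).and ((ht'.eventually_ge_atTop s).and
      (Tendsto.eventually hy (Metric.closedBall_mem_nhds y
        (lt_min (arsinh_pos_iff.2 hr) one_half_pos))))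
  have key : ∀ i j, (i ∈ W ∧ s ≤ t i ∧ dist (z i) y ≤ min (arsinh r) (1 / 2)) →
      (j ∈ W ∧ s ≤ t j ∧ dist (z j) y ≤ min (arsinh r) (1 / 2)) →
      μ (sep (pt A 0) (ρ (k i * (k j)⁻¹) • pt A 0)) ≤ ENNReal.ofReal ε := by
    rintro i j ⟨a1, a2, a3⟩ ⟨b1, b2, b3⟩
    have c1 : μ (sep (pt A 0) (pt l (t i))) ≤ ENNReal.ofReal (ε / 3) :=
      le_trans (measure_mono fun m hm => And.intro hm.1 (not_le.1 fun e => (mul_neg_of_pos_of_neg
        (exp_pos _) hm.2).not_ge ((mul_nonneg (exp_pos s).le (hs ▸ hm.1)).trans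
          (SSpike_mono e a2)))) h4
    have c2 : μ (sep (z i) (z j)) ≤ ENNReal.ofReal (ε / 3) := by
      refine le_trans (SSpike_le h0 fun m hm e => And.intro ?_ (h6 i a1 j b1 m hm e)) h5
      have d1 := abs_le.1 ((abs_arsinh_side_le m (z i) y).trans (a3.trans (min_le_left _ _)))
      have d2 := abs_le.1 ((abs_arsinh_side_le m (z j) y).trans (b3.trans (min_le_left _ _)))
      have d3 := arsinh_nonneg_iff.2 e.1
      have d4 := arsinh_neg_iff.2 e.2
      rw [← sinh_arsinh r]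
      exact SSpike_abs (abs_le.2 ⟨by linarith, by linarith⟩)
    have c3 : μ (sep (pt l (t j)) (pt A 0)) ≤ ENNReal.ofReal (ε / 3) := by
      refine (measure_mono fun m hm => ?_).trans ((hμ.rev.measure_preimage_le _).trans h4)
      refine ⟨by simpa using hm.2.le, not_le.1 fun e => ?_⟩
      have := SSpike_mono e b2
      rw [side_rev, side_rev, hs, mul_neg, mul_neg, neg_le_neg_iff] at this
      exact (mul_neg_of_pos_of_neg (exp_pos s) hm.2).not_ge
        ((mul_nonneg (exp_pos _).le hm.1).trans this)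
    rw [← hμ.sep_smul (k i), hz] at c2
    rw [← hμ.sep_smul (k i * (k j)⁻¹), ← hz j, ← mul_smul, ← map_mul, inv_mul_cancel_right] at c3
    refine ((measure_mono ((sep_subset _ _ _).trans
      (union_subset_union_right _ (sep_subset _ _ _)))).trans ((measure_union_le _ _).trans
      (add_le_add c1 ((measure_union_le _ _).trans (add_le_add c2 c3))))).trans_eq ?_
    rw [← ENNReal.ofReal_add hε'.le hε'.le, ← ENNReal.ofReal_add hε'.le (by positivity)]
    congr 1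
    ring
  have h8 := (SSpike_top h2).comp ht'
  obtain ⟨i, hi, h9⟩ := (h7.and (h8.eventually_ge_atTop (sinh 2))).exists
  obtain ⟨j, hj, h10⟩ := (h7.and (h8.eventually_ge_atTop
    (sinh (arsinh (side A (pt l (t i)).1) + 2)))).exists
  have e : ∀ j, side (ρ (k j)⁻¹ • A) (z j).1 = side A (pt l (t j)).1 := fun j => by
    rw [← side_smul_pt (ρ (k j)), hz, map_inv, smul_inv_smul]
  have e1 := abs_le.1 ((abs_arsinh_side_le (ρ (k i)⁻¹ • A) (z i) (z j)).trans
    ((dist_triangle_right _ _ y).trans (add_le_add (hi.2.2.trans (min_le_right _ _))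
      (hj.2.2.trans (min_le_right _ _)))))
  have e2 := arsinh_le_arsinh.2 h9
  have e3 := arsinh_le_arsinh.2 h10
  rw [arsinh_sinh, Function.comp_apply, ← e] at e2 e3
  rw [← e] at e3
  have e4 : 0 < side (ρ (k i)⁻¹ • A) (z j).1 := arsinh_pos_iff.1 (by linarith)
  have e5 : 0 < side (ρ (k j)⁻¹ • A) (z j).1 := arsinh_pos_iff.1 (by linarith)
  have e6 : ρ (k i)⁻¹ • A ≠ ρ (k j)⁻¹ • A := fun h => by
    rw [← h] at e3
    linarith
  have e7 : ∀ i j, ρ (k i)⁻¹ • ρ (k i * (k j)⁻¹) • A = ρ (k j)⁻¹ • A := fun i j => by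
    rw [← mul_smul, ← map_mul, inv_mul_cancel_left]
  rcases nest_cases (hΛ.nc _ (hΛ.smul (k i)⁻¹ A hA) _ (hΛ.smul (k j)⁻¹ A hA)) with h | h | h | h
  · exact ⟨_, .inl ⟨(nest_smul _).1 (e7 j i ▸ h), fun f => e6 (by rw [← e7 j i, f])⟩, key j i hj hi⟩
  · exact ⟨_, .inl ⟨(nest_smul _).1 (e7 i j ▸ h), fun f => e6 (by rw [← e7 i j, f])⟩, key i j hi hj⟩
  · exact absurd (h _ e4) (by simpa using e5.le)
  · exact ⟨_, .inr ((nest_smul _).1 (by rwa [Geo.smul_rev, e7 j i])), key j i hj hi⟩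

theorem exists_thru {s : Γ} (hA : ax (ρ s) ∈ Λ) (h1 : μ {ax (ρ s)} = 0) {ε : ℝ} (hε : 0 < ε) :
    ∃ g, Thru ρ (lifts ρ fun _ : Unit => s) g ∧ ic μ (ρ g) ≤ ε := by
  have hε' : 0 < ε / 2 := by positivity
  obtain ⟨g, h2, h3⟩ := exists_arc_le hρ hΛ hμ h0 hA h1 hε'
  obtain ⟨g', h4, h5⟩ := exists_arc_le hρ hΛ hμ h0 (hΛ.rev _ hA) (SSpike_rev hμ h1) hε'
  rw [pt_rev, neg_zero] at h5
  have h6 : ∀ k : Γ, μ (sep (pt (ax (ρ s)) 0) (ρ k • pt (ax (ρ s)) 0)) ≤ ENNReal.ofReal ε →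
      ic μ (ρ k) ≤ ε := fun k h =>
    (hμ.ic_le_sep k _).trans (ENNReal.toReal_le_of_le_ofReal hε.le h)
  have h7 := ENNReal.ofReal_le_ofReal (half_le_self hε.le)
  have h8 : ax (ρ s) ∈ lifts ρ fun _ : Unit => s := ⟨(), 1, .inl (by simp)⟩
  rcases h2 with h2 | h2
  · exact ⟨g, ⟨_, h8, h2⟩, h6 g (h3.trans h7)⟩
  rcases h4 with h4 | h4
  · exact ⟨g', ⟨_, GCurI_rev h8, h4⟩, h6 g' (h5.trans h7)⟩
  rw [Geo.smul_rev, Geo.rev_rev, ← nest_smul (ρ g), Geo.smul_rev, ← mul_smul, ← map_mul] at h4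
  refine ⟨g * g', ⟨_, h8, h4.trans h2, fun e => hρ.toDisc.smul_ne_rev g (ax (ρ s)) ?_⟩, h6 _ ?_⟩
  · rw [e] at h4
    rw [h4.antisymm h2, Geo.rev_rev, ← h4.antisymm h2]
  · rw [← hμ.sep_smul g, ← mul_smul, ← map_mul] at h5
    refine ((measure_mono (sep_subset _ _ _)).trans ((measure_union_le _ _).trans
      (add_le_add h3 h5))).trans_eq ?_
    rw [← ENNReal.ofReal_add hε'.le hε'.le, add_halves]

theorem exists_spike {s : Γ} (hs : Simple ρ s) (hA : ax (ρ s) ∈ Λ) (h1 : μ {ax (ρ s)} = 0)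
    {ε : ℝ} (hε : 0 < ε) : ∃ d, Simple ρ d ∧ inter ρ d s ≠ 0 ∧ ic μ (ρ d) ≤ ε := by
  have hL := (multi_single hs).sys hρ.toDisc
  obtain ⟨g, h2, h3⟩ := exists_thru hρ hΛ hμ h0 hA h1 (half_pos hε)
  obtain ⟨d, h4, h5, h6⟩ := hL.exists_simple_le hρ hμ h2 (half_pos hε)
  refine ⟨d, h4, fun e => ?_, by linarith⟩
  obtain ⟨h7, m, ⟨_, k, h8⟩, h9⟩ := (hL.thru_iff hρ.toDisc d).1 h5
  refine (hρ.toDisc.inter_eq_zero_iff h7 hs.hyp hs.prim).1 e k ?_
  rcases h8 with rfl | rfl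
  exacts [h9, cross_rev_right.1 h9]

end

end HRT
end
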