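import Pool.Agent.Work.MP_35beee_gt.PFace
import Pool.Agent.Work.MP_35beee_gt.GDense2
import Pool.Agent.Work.MP_35beee_gt.SSpike

-- merged part: Pool.Agent.Work.MP_35beee_gt.GCqs
section
/-!
Markings are coarsely Lipschitz along lines in the core.

Plan. `exists_step`: by equivariance (`fer_smul_circ`, `IsMark.map_smul`) assume that
`pt l (fer l ξ)` is within `R` of `o`. The triples `(l, ξ, η)` with this property and
`|fer l ξ - fer l η| ≤ 1` form a compact set on which `side l ξ`, `side l η` do not vanish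
(`isCompact_lines`, `circ_eq`: `ξ 2 = 1` bounds `|side l ξ|` from below; or argue with an
ultrafilter and `tendsto_fer_atTop`), and the quantities are continuous there
(`continuousAt_fer_circ`, `continuous_pt`). `cqs`: on each side `fer` is monotone for the cyclic
order (`ccw_iff_fer_right`, `ccw_iff_fer_left`, `Ori`); chain the points given by
`exists_circ_right`. `inCore`: the values `fer (l.map h) (h ξ_k)` for the points `ξ_k` on the
right with `fer l ξ_k = k` have steps `≤ C` and tend to `±∞` (`tendsto_tgt_of_fer`,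
`tendsto_fer_atTop`, also for `l.rev`). `tl_le`: apply `cqs` to `g ^ k • ξ` and `ξ`, divide by `k`.
`twist_le`: translate the left endpoint by a power of `g` to within `tl` of the right endpoint; use
`cqs`, `tl_le` for `h.symm` and the systole.
-/

namespace HRT

open Set Filter Topology Real

variable {Γ : Type*} [Group Γ] {ρ σ : Γ →* Isom} {h : Circ ≃ₜ Circ} {N : ℝ → ℝ}

theorem GCqs_lines {l : Geo} {t R : ℝ} (hR : dist o (pt l t) ≤ R) : |side l o.1| ≤ sinh R := by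
  have h2 := abs_arsinh_side_le l o (pt l t)
  rw [side_pt, arsinh_zero, sub_zero] at h2
  have h4 := sinh_le_sinh.2 (h2.trans hR)
  rwa [← abs_sinh, sinh_arsinh] at h4

theorem GCqs_low {l : Geo} {ξ : Circ} {R : ℝ} (h0 : side l ξ.1 ≠ 0)
    (hR : dist o (pt l (fer l ξ.1)) ≤ R) : exp (-R) ≤ |side l ξ.1| := by
  have h1 : -B (pt l (fer l ξ.1)).1 ξ.1 = |side l ξ.1| := by
    have h2 := congrArg (B (pt l (fer l ξ.1)).1) (circ_eq l h0)
    rw [B_add_right, B_smul_right, B_smul_right, GFermi_pn, (pt l (fer l ξ.1)).2.1] at h2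
    linarith
  have h3 := GMet_log_le o (pt l (fer l ξ.1)) ξ.fut
  rw [h1, B_o, neg_neg, ξ.2.2, log_one] at h3
  rw [← le_log_iff_exp_le (abs_pos.2 h0)]
  linarith

theorem GCqs_bound (hh : Ori h) (R : ℝ) : ∃ C : ℝ, 0 ≤ C ∧ ∀ (l : Geo) (ξ : Circ),
    side l ξ.1 ≠ 0 → dist o (pt l (fer l ξ.1)) ≤ R →
      dist o (pt (l.map h) (fer (l.map h) (h ξ).1)) ≤ C := by
  have hs : Continuous fun x : Geo × Circ => side x.1 x.2.1 :=
    Continuous.comp (g := fun y : Geo × V => side y.1 y.2)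
      (f := fun x : Geo × Circ => (x.1, x.2.1)) continuous_side
      (continuous_fst.prodMk (GCirc_val.comp continuous_snd))
  have hK : IsCompact ({l : Geo | |side l o.1| ≤ sinh R} ×ˢ (univ : Set Circ) ∩
      {x : Geo × Circ | exp (-R) ≤ |side x.1 x.2.1|}) :=
    ((isCompact_lines o _).prod isCompact_univ).inter_right
      (isClosed_le continuous_const hs.abs)
  have hm : Continuous fun x : Geo × Circ => (x.1.map h, h x.2) :=
    ((Geo.continuous_map h).comp continuous_fst).prodMk (h.continuous.comp continuous_snd)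
  obtain ⟨C, hC⟩ := hK.exists_bound_of_continuousOn
    (f := fun x => dist o (pt (x.1.map h) (fer (x.1.map h) (h x.2).1))) fun x hx => by
      have h0 : side (x.1.map h) (h x.2).1 ≠ 0 := fun e =>
        (abs_pos.1 ((exp_pos _).trans_le hx.2)) ((hh.side_zero _ _).1 e)
      have h1 : ContinuousAt (fun x : Geo × Circ => fer (x.1.map h) (h x.2).1) x :=
        ContinuousAt.comp (g := fun y : Geo × Circ => fer y.1 y.2.1)
          (f := fun x : Geo × Circ => (x.1.map h, h x.2)) (continuousAt_fer_circ h0)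
          hm.continuousAt
      have h2 : ContinuousAt
          (fun x : Geo × Circ => pt (x.1.map h) (fer (x.1.map h) (h x.2).1)) x :=
        ContinuousAt.comp (g := fun y : Geo × ℝ => pt y.1 y.2)
          (f := fun x : Geo × Circ => (x.1.map h, fer (x.1.map h) (h x.2).1))
          continuous_pt.continuousAt (hm.fst.continuousAt.prodMk h1)
      exact ContinuousAt.continuousWithinAt (Tendsto.dist tendsto_const_nhds h2)
  refine ⟨max C 0, le_max_right _ _, fun l ξ h0 hR => ?_⟩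
  exact ((le_abs_self _).trans (hC (l, ξ) ⟨⟨GCqs_lines hR, mem_univ _⟩, GCqs_low h0 hR⟩)).trans
    (le_max_left _ _)

theorem GCqs_ne (g : Isom) {l : Geo} {ξ : Circ} (h0 : side l ξ.1 ≠ 0) :
    side (g • l) (g • ξ).1 ≠ 0 := by
  rw [GLine_circ]
  exact mul_ne_zero (inv_ne_zero (lin_circ_pos g ξ).ne') h0

theorem GCqs_foot (g : Isom) {l : Geo} {ξ : Circ} (h0 : side l ξ.1 ≠ 0) :
    dist o (pt (g⁻¹ • l) (fer (g⁻¹ • l) (g⁻¹ • ξ).1)) = dist (g • o) (pt l (fer l ξ.1)) := by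
  rw [fer_smul_circ _ _ h0, ← smul_pt, ← dist_smul g, smul_inv_smul]

theorem GCqs_equiv (hm : IsMark ρ σ h) (R : ℝ) : ∃ C : ℝ, 0 ≤ C ∧ ∀ (l : Geo) (ξ : Circ) (g : Γ),
    side l ξ.1 ≠ 0 → dist (ρ g • o) (pt l (fer l ξ.1)) ≤ R →
      dist (σ g • o) (pt (l.map h) (fer (l.map h) (h ξ).1)) ≤ C := by
  obtain ⟨C, hC, H⟩ := GCqs_bound hm.ori R
  refine ⟨C, hC, fun l ξ g h0 hR => ?_⟩
  have h1 := H ((ρ g)⁻¹ • l) ((ρ g)⁻¹ • ξ) (GCqs_ne _ h0) (by rwa [GCqs_foot _ h0])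
  rwa [← map_inv, hm.map_smul, hm.2, map_inv,
    GCqs_foot _ fun e => h0 ((hm.ori.side_zero _ _).1 e)] at h1

theorem GCqs_arch {a C : ℝ} (h : ∀ n : ℕ, n * a ≤ C) : a ≤ 0 := by
  by_contra h0
  rw [not_le] at h0
  obtain ⟨n, hn⟩ := exists_nat_gt (C / a)
  exact (h n).not_gt ((div_lt_iff₀ h0).1 hn)

theorem GCqs_pow (hm : IsMark ρ σ h) (g : Γ) (n : ℤ) (ξ : Circ) :
    h (ρ g ^ n • ξ) = σ g ^ n • h ξ := by
  rw [← map_zpow, ← map_zpow, hm.2]

theorem GCqs_num {x x' τ υ C D ε n : ℝ} (hτ : 0 < τ) (hε : 0 < ε) (hυ : ε ≤ υ) (hC : 0 ≤ C)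
    (hD : τ ≤ D * υ) (h1 : |x - n * τ| ≤ τ) (h2 : |x' - n * υ| ≤ C * τ + C) :
    |x' / υ - x / τ| ≤ C * D + C / ε + 1 := by
  have hυ0 : 0 < υ := hε.trans_le hυ
  have h3 : |x / τ - n| ≤ 1 := by
    rw [div_sub' hτ.ne', abs_div, abs_of_pos hτ, div_le_one hτ, mul_comm]
    exact h1
  have h4 : |x' / υ - n| ≤ C * D + C / ε := by
    rw [div_sub' hυ0.ne', abs_div, abs_of_pos hυ0, div_le_iff₀ hυ0, mul_comm υ]
    have h5 : C ≤ C / ε * υ := by
      rw [div_mul_eq_mul_div, le_div_iff₀ hε]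
      exact mul_le_mul_of_nonneg_left hυ hC
    have h6 := mul_le_mul_of_nonneg_left hD hC
    linarith
  rw [abs_le] at h3 h4 ⊢
  constructor <;> linarith [h3.1, h3.2, h4.1, h4.2]

namespace IsMark

theorem exists_step (hm : IsMark ρ σ h) (R : ℝ) : ∃ C : ℝ, 0 ≤ C ∧ ∀ l, InCore ρ R l →
    ∀ ξ η : Circ, side l ξ.1 ≠ 0 → side l η.1 ≠ 0 → |fer l ξ.1 - fer l η.1| ≤ 1 →
      |fer (l.map h) (h ξ).1 - fer (l.map h) (h η).1| ≤ C ∧
        ∃ g : Γ, dist (σ g • o) (pt (l.map h) (fer (l.map h) (h ξ).1)) ≤ C := by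
  obtain ⟨C, hC, H⟩ := GCqs_equiv hm (R + 1)
  refine ⟨2 * C, by linarith, fun l hl ξ η hξ hη hd => ?_⟩
  obtain ⟨g, hg⟩ := hl (fer l ξ.1)
  have h1 := H l ξ g hξ (by linarith)
  have h2 := H l η g hη (by
    have := dist_triangle (ρ g • o) (pt l (fer l ξ.1)) (pt l (fer l η.1))
    rw [dist_pt] at this
    linarith)
  refine ⟨?_, g, by linarith⟩
  rw [← dist_pt (l.map h)]
  linarith [dist_triangle_left (pt (l.map h) (fer (l.map h) (h ξ).1))
    (pt (l.map h) (fer (l.map h) (h η).1)) (σ g • o)]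

theorem cqs (hm : IsMark ρ σ h) (R : ℝ) : ∃ C : ℝ, 0 ≤ C ∧ ∀ l, InCore ρ R l →
    ∀ ξ η : Circ, side l ξ.1 ≠ 0 → side l η.1 ≠ 0 →
      fer (l.map h) (h ξ).1 - fer (l.map h) (h η).1 ≤ C * max (fer l ξ.1 - fer l η.1) 0 + C := by
  obtain ⟨C, hC, H⟩ := hm.exists_step R
  refine ⟨3 * C, by linarith, fun l hl ξ η hξ hη => ?_⟩
  have key : ∀ (n : ℕ) (a b : Circ), side l a.1 < 0 → side l b.1 < 0 →
      fer l a.1 - fer l b.1 ≤ n →
      fer (l.map h) (h a).1 - fer (l.map h) (h b).1 ≤ C * n := by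
    intro n
    induction n with
    | zero =>
      intro a b ha hb hab
      rw [Nat.cast_zero, sub_nonpos, ← not_lt, ← ccw_iff_fer_right _ hb ha] at hab
      rwa [Nat.cast_zero, mul_zero, sub_nonpos, ← not_lt,
        ← ccw_iff_fer_right _ ((hm.ori.side_neg _ _).2 hb) ((hm.ori.side_neg _ _).2 ha),
        Geo.src_map, hm.ori.ccw_iff]
    | succ n ih =>
      intro a b ha hb hab
      obtain ⟨c, hc, e⟩ := exists_circ_right l (fer l b.1 + 1)
      push_cast at hab ⊢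
      have h1 := ih a c ha hc (by linarith)
      have h2 := (H l hl c b hc.ne hb.ne (by rw [e]; simp)).1
      linarith [le_abs_self (fer (l.map h) (h c).1 - fer (l.map h) (h b).1)]
  obtain ⟨a, ha, ea⟩ := exists_circ_right l (fer l ξ.1)
  obtain ⟨b, hb, eb⟩ := exists_circ_right l (fer l η.1)
  have h1 := (le_abs_self _).trans (H l hl ξ a hξ ha.ne (by rw [ea]; simp)).1
  have h2 := (le_abs_self _).trans (H l hl b η hb.ne hη (by rw [eb]; simp)).1
  have h3 := key ⌈max (fer l ξ.1 - fer l η.1) 0⌉₊ a b ha hb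
    (by rw [ea, eb]; exact (le_max_left _ _).trans (Nat.le_ceil _))
  have h4 := mul_le_mul_of_nonneg_left
    (Nat.ceil_lt_add_one (le_max_right (fer l ξ.1 - fer l η.1) 0)).le hC
  have h5 := mul_nonneg hC (le_max_right (fer l ξ.1 - fer l η.1) 0)
  linarith

theorem inCore (hm : IsMark ρ σ h) (R : ℝ) :
    ∃ R', ∀ l, InCore ρ R l → InCore σ R' (l.map h) := by
  obtain ⟨C, -, H⟩ := hm.exists_step R
  refine ⟨C, fun l hl t => ?_⟩
  obtain ⟨ξ, hξ, e⟩ := exists_circ_right (l.map h) t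
  obtain ⟨ξ, rfl⟩ := h.surjective ξ
  have h0 := ((hm.ori.side_neg _ _).1 hξ).ne
  have h1 := (H l hl ξ ξ h0 h0 (by simp)).2
  rwa [e] at h1

theorem tl_le_of_inCore (hm : IsMark ρ σ h) (R : ℝ) : ∃ C : ℝ, 0 < C ∧ ∀ g : Γ, Hyp (ρ g) →
    InCore ρ R (ax (ρ g)) → tl (σ g) ≤ C * tl (ρ g) := by
  obtain ⟨C, hC, H⟩ := hm.cqs R
  refine ⟨C + 1, by linarith, fun g hg hl => ?_⟩
  obtain ⟨hg', hax⟩ := hm.hyp hg
  obtain ⟨ξ, hξ, -⟩ := exists_circ_right (ax (ρ g)) 0
  have hξ' : side (ax (σ g)) (h ξ).1 < 0 := by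
    rw [hax]
    exact (hm.ori.side_neg _ _).2 hξ
  have hτ : 0 < tl (ρ g) := hg
  have h1 : tl (σ g) - C * tl (ρ g) ≤ 0 := GCqs_arch (C := C) fun n => by
    have h2 := H _ hl (ρ g ^ (n : ℤ) • ξ) ξ (GColl_zpow_neg hg n hξ).1.ne hξ.ne
    rw [← hax, GCqs_pow hm, (GColl_zpow_neg hg n hξ).2, (GColl_zpow_neg hg' n hξ').2,
      add_sub_cancel_left, add_sub_cancel_left, Int.cast_natCast,
      max_eq_left (by positivity)] at h2
    linarith
  linarith

/-- The form for simple closed curves. -/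
theorem cqs_simple (hm : IsMark ρ σ h) (hρ : Good ρ N) : ∃ C : ℝ, 0 ≤ C ∧ ∀ g, Simple ρ g →
    ∀ ξ η : Circ, side (ax (ρ g)) ξ.1 ≠ 0 → side (ax (ρ g)) η.1 ≠ 0 →
      fer (ax (σ g)) (h ξ).1 - fer (ax (σ g)) (h η).1 ≤
        C * max (fer (ax (ρ g)) ξ.1 - fer (ax (ρ g)) η.1) 0 + C := by
  obtain ⟨R, hR⟩ := hρ.exists_core_simple
  obtain ⟨C, hC, H⟩ := hm.cqs R
  refine ⟨C, hC, fun g hg => ?_⟩
  rw [(hm.hyp hg.hyp).2]
  exact H _ (hR g hg)

theorem tl_le (hm : IsMark ρ σ h) (hρ : Good ρ N) : ∃ C : ℝ, 0 < C ∧ ∀ g, Simple ρ g →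
    tl (σ g) ≤ C * tl (ρ g) ∧ tl (ρ g) ≤ C * tl (σ g) := by
  obtain ⟨R, hR⟩ := hρ.exists_core_simple
  obtain ⟨R', hR'⟩ := hm.inCore R
  obtain ⟨C, hC, H⟩ := hm.tl_le_of_inCore R
  obtain ⟨D, -, H'⟩ := hm.symm.tl_le_of_inCore R'
  refine ⟨max C D, lt_max_of_lt_left hC, fun g hg => ⟨?_, ?_⟩⟩
  · exact (H g hg.hyp (hR g hg)).trans
      (mul_le_mul_of_nonneg_right (le_max_left _ _) (tl_nonneg _))
  · refine (H' g (hm.hyp hg.hyp).1 ?_).trans
      (mul_le_mul_of_nonneg_right (le_max_right _ _) (tl_nonneg _))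
    rw [(hm.hyp hg.hyp).2]
    exact hR' _ (hR g hg)

theorem exists_sys (hm : IsMark ρ σ h) (hρ : Good ρ N) :
    ∃ ε > 0, ∀ g, Simple ρ g → ε ≤ tl (σ g) := by
  obtain ⟨C, hC, H⟩ := hm.tl_le hρ
  obtain ⟨ε, hε, hs⟩ := hρ.exists_systole
  refine ⟨ε / C, div_pos hε hC, fun g hg => ?_⟩
  rw [div_le_iff₀' hC]
  exact (hs g hg.hyp).trans (H g hg).2

theorem twist_le (hm : IsMark ρ σ h) (hρ : Good ρ N) : ∃ C : ℝ, 0 ≤ C ∧ ∀ g, Simple ρ g →
    ∀ l, Cross (ax (ρ g)) l →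
      |twist (ax (σ g)) (l.map h) / tl (σ g) - twist (ax (ρ g)) l / tl (ρ g)| ≤ C := by
  obtain ⟨C, hC, H⟩ := hm.cqs_simple hρ
  obtain ⟨D, hD, H'⟩ := hm.tl_le hρ
  obtain ⟨ε, hε, hs⟩ := hm.exists_sys hρ
  refine ⟨C * D + C / ε + 1, by positivity, fun g hg l hl => ?_⟩
  obtain ⟨hg', hax⟩ := hm.hyp hg.hyp
  have hτ : 0 < tl (ρ g) := hg.hyp
  have key : ∀ l : Geo, side (ax (ρ g)) l.src.1 < 0 → 0 < side (ax (ρ g)) l.tgt.1 →
      |twist (ax (σ g)) (l.map h) / tl (σ g) - twist (ax (ρ g)) l / tl (ρ g)| ≤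
        C * D + C / ε + 1 := by
    intro l l1 l2
    have l1' : side (ax (σ g)) (h l.src).1 < 0 := by
      rw [hax]
      exact (hm.ori.side_neg _ _).2 l1
    have l2' : 0 < side (ax (σ g)) (h l.tgt).1 := by
      rw [hax]
      exact (hm.ori.side_pos _ _).2 l2
    obtain ⟨n, n1, n2⟩ := GColl_exists_mul hτ (fer (ax (ρ g)) l.src.1 - fer (ax (ρ g)) l.tgt.1)
    obtain ⟨p1, p2⟩ := GColl_zpow_pos hg.hyp n l2
    have p3 := (GColl_zpow_pos hg' n l2').2
    have k1 := H g hg l.src (ρ g ^ n • l.tgt) l1.ne p1.ne'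
    have k2 := H g hg (ρ g ^ n • l.tgt) l.src p1.ne' l1.ne
    rw [GCqs_pow hm, p2, p3] at k1 k2
    rw [max_eq_right (by linarith)] at k1
    have k3 := mul_le_mul_of_nonneg_left (max_le (c := tl (ρ g))
      (show fer (ax (ρ g)) l.tgt.1 + n * tl (ρ g) - fer (ax (ρ g)) l.src.1 ≤ _ by linarith)
      hτ.le) hC
    have k4 := mul_nonneg hC hτ.le
    unfold twist
    rw [Geo.src_map, Geo.tgt_map, if_pos l1, if_pos l1']
    refine GCqs_num (n := n) hτ hε (hs g hg) hC (H' g hg).2 ?_ ?_ <;> rw [abs_le] <;>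
      constructor <;> linarith
  obtain ⟨l', l1, l2, rfl | rfl⟩ := GColl_orient hl
  · exact key _ l1 l2
  · have := key _ l1 l2
    rwa [Geo.map_rev, twist_rev_right hl,
      twist_rev_right (by rw [hax]; exact (hm.ori.cross _ _).2 hl)] at this

end IsMark

end HRT
end

-- merged part: Pool.Agent.Work.MP_35beee_gt.GUnif
section
/-!
Markings depend continuously on the holonomy; lengths vary uniformly.

Plan. The attracting fixed points of hyperbolic elements are dense (`exists_hyp_arcs`,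
`exists_arc_subset`) and `IsMark.hyp` determines the marking on them. `tendstoUniformly_mark`:
`tendsto_isom_iff`, `tendsto_ax`, and `tendstoUniformly_of_dense` for `h i ∘ h.symm`
(or for `h.symm ∘ h i`). `tl_sub_le`: let `l = ax (ρ g)`, `ξ_t` the point on the right of `l` with
`fer l ξ_t = t`, and `D h l ξ η = fer (l.map h) (h ξ) - fer (l.map h) (h η)`; this is invariant under
`Γ` (`fer_smul_circ`) and additive, and `D h l (g • ξ) ξ = tl (σ g)`. On the compact set of triples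
of `IsMark.exists_step` it depends continuously on the three image points, which stay uniformly
apart, so `|D (h i) - D h| ≤ ε` uniformly for steps of size `≤ 1`. Cut `[0, j tl]` into at most
`j tl + 1` steps, divide by `j`, and use `tl_le_of_inCore` for `h.symm`.
-/

namespace HRT

open Set Filter Topology Real

variable {Γ : Type*} [Group Γ] {ρ σ : Γ →* Isom} {h h' : Circ ≃ₜ Circ} {N : ℝ → ℝ}

theorem Good.dense_tgt (hρ : Good ρ N) :
    Dense {ξ : Circ | ∃ g : Γ, Hyp (ρ g) ∧ (ax (ρ g)).tgt = ξ} := by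
  refine dense_iff_inter_open.2 fun U hU ⟨ξ, hξ⟩ => ?_
  obtain ⟨a, b, h1, h2⟩ := exists_arc_subset (hU.mem_nhds hξ)
  obtain ⟨g, h3, -, h4⟩ := hρ.exists_hyp_arcs h1.ne13.symm h1.ne13
    (disjoint_left.2 fun c h5 h6 => ccw.asymm h6 (ccw.cyc (ccw.cyc h5)))
  exact ⟨_, h2 (garc_arc_subset a b h4), g, h3, rfl⟩

theorem IsMark.unique (hρ : Good ρ N) (hm : IsMark ρ σ h) (hm' : IsMark ρ σ h') : h = h' := by
  refine Homeomorph.ext (congrFun (Continuous.ext_on hρ.dense_tgt h.continuous h'.continuous ?_))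
  rintro _ ⟨g, hg, rfl⟩
  exact congrArg Geo.tgt ((hm.hyp hg).2.symm.trans (hm'.hyp hg).2)

theorem tendstoUniformly_mark (hρ : Good ρ N) {X : Type*} {F : Filter X} {s : X → Γ →* Isom}
    {k : X → Circ ≃ₜ Circ} (hk : ∀ x, IsMark ρ (s x) (k x)) (hm : IsMark ρ σ h)
    (hs : ∀ g, Tendsto (fun x => s x g) F (𝓝 (σ g))) :
    TendstoUniformly (fun x ξ => k x ξ) h F := by
  have := (tendstoUniformly_of_dense (F := F) (f := fun x ξ => k x (h.symm ξ))
    (fun x => (hm.symm.trans (hk x)).ori)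
    (h.surjective.denseRange.dense_image h.continuous hρ.dense_tgt) ?_).comp h
  · simpa [Function.comp_def] using this
  rintro _ ⟨_, ⟨g, hg, rfl⟩, rfl⟩
  have h1 := (Geo.continuous_tgt.tendsto _).comp (tendsto_ax (hm.hyp hg).1 (hs g))
  rw [(hm.hyp hg).2] at h1
  refine h1.congr fun x => ?_
  rw [Function.comp_apply, ((hk x).hyp hg).2, h.symm_apply_apply, Geo.tgt_map]

theorem GUnif_near (R : ℝ) {ε : ℝ} (hε : 0 < ε) : ∃ δ > 0, ∀ f : Circ ≃ₜ Circ,
    (∀ ξ, dist ξ (f ξ) < δ) → ∀ (l : Geo) (ξ : Circ), side l ξ.1 ≠ 0 →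
      dist o (pt l (fer l ξ.1)) ≤ R → |fer (l.map f) (f ξ).1 - fer l ξ.1| ≤ ε := by
  have hs : Continuous fun x : Geo × Circ => side x.1 x.2.1 :=
    Continuous.comp (g := fun y : Geo × V => side y.1 y.2)
      (f := fun x : Geo × Circ => (x.1, x.2.1)) continuous_side
      (continuous_fst.prodMk (GCirc_val.comp continuous_snd))
  have hK : IsCompact ({l : Geo | |side l o.1| ≤ sinh R} ×ˢ (univ : Set Circ) ∩
      {x : Geo × Circ | exp (-R) ≤ |side x.1 x.2.1|}) :=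
    ((isCompact_lines o _).prod isCompact_univ).inter_right
      (isClosed_le continuous_const hs.abs)
  obtain ⟨δ, hδ, H⟩ := Metric.mem_uniformity_dist.1 (hK.uniformContinuousAt_of_continuousAt
    (fun x : Geo × Circ => fer x.1 x.2.1) (fun x hx =>
      continuousAt_fer_circ (abs_pos.1 ((exp_pos _).trans_le hx.2))) (Metric.dist_mem_uniformity hε))
  refine ⟨δ, hδ, fun f hf l ξ h0 hR => ?_⟩
  have := H (a := (l, ξ)) (b := (l.map f, f ξ)) (max_lt (max_lt (hf _) (hf _)) (hf _))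
    ⟨⟨GCqs_lines hR, mem_univ _⟩, GCqs_low h0 hR⟩
  rw [abs_sub_comm]
  exact le_of_lt this

theorem GUnif_tl (hm : IsMark ρ σ h) {R ε : ℝ} (hε : 0 ≤ ε) (H : ∀ (l : Geo) (ξ : Circ),
    side l ξ.1 ≠ 0 → dist o (pt l (fer l ξ.1)) ≤ R + 1 → |fer (l.map h) (h ξ).1 - fer l ξ.1| ≤ ε)
    {g : Γ} (hg : Hyp (ρ g)) (hl : InCore ρ R (ax (ρ g))) :
    |tl (σ g) - tl (ρ g)| ≤ 2 * ε * tl (ρ g) := by
  obtain ⟨hg', hax⟩ := hm.hyp hg
  obtain ⟨l, e⟩ : ∃ l, l = ax (ρ g) := ⟨_, rfl⟩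
  rw [← e] at hl hax
  obtain ⟨E, hE⟩ : ∃ E : Circ → ℝ, ∀ ξ, E ξ = fer (l.map h) (h ξ).1 - fer l ξ.1 := ⟨_, fun _ => rfl⟩
  have step : ∀ a b : Circ, side l a.1 < 0 → side l b.1 < 0 → |fer l a.1 - fer l b.1| ≤ 1 →
      |E a - E b| ≤ 2 * ε := fun a b ha hb hd => by
    obtain ⟨u, hu⟩ := hl (fer l a.1)
    have k : ∀ c : Circ, side l c.1 < 0 → dist (ρ u • o) (pt l (fer l c.1)) ≤ R + 1 →
        |E c + (sh (σ u⁻¹) (l.map h) - sh (ρ u⁻¹) l)| ≤ ε := fun c hc hd => by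
      have := H (ρ u⁻¹ • l) (ρ u⁻¹ • c) (GCqs_ne _ hc.ne) (by rwa [map_inv, GCqs_foot _ hc.ne])
      rw [hm.map_smul, hm.2, fer_smul_circ _ _ hc.ne,
        fer_smul_circ _ _ ((hm.ori.side_neg _ _).2 hc).ne] at this
      rw [hE]
      convert this using 2
      ring
    have h1 := abs_le.1 (k a ha (by linarith))
    have h2 := abs_le.1 (k b hb (by
      have := dist_triangle (ρ u • o) (pt l (fer l a.1)) (pt l (fer l b.1))
      rw [dist_pt] at this
      linarith))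
    rw [abs_le]
    constructor <;> linarith [h1.1, h1.2, h2.1, h2.2]
  have key : ∀ (n : ℕ) (a b : Circ), side l a.1 < 0 → side l b.1 < 0 → fer l b.1 ≤ fer l a.1 →
      fer l a.1 - fer l b.1 ≤ n + 1 → |E a - E b| ≤ 2 * ε * (n + 1) := fun n => by
    induction n with
    | zero =>
      intro a b ha hb h1 h2
      simpa using step a b ha hb (abs_le.2 ⟨by linarith, by simpa using h2⟩)
    | succ n ih =>
      intro a b ha hb h1 h2
      rcases le_or_gt (fer l a.1 - fer l b.1) (n + 1) with h3 | h3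
      · exact (ih a b ha hb h1 h3).trans (mul_le_mul_of_nonneg_left (by push_cast; linarith)
          (by linarith))
      obtain ⟨c, hc, e⟩ := exists_circ_right l (fer l b.1 + 1)
      push_cast at h2 ⊢
      have h4 := ih a c ha hc (by linarith [n.cast_nonneg (α := ℝ)]) (by linarith)
      have h5 := step c b hc hb (by rw [e]; simp)
      linarith [abs_sub_le (E a) (E c) (E b)]
  obtain ⟨ξ, hξ, -⟩ := exists_circ_right l 0
  have hξ' : side (ax (σ g)) (h ξ).1 < 0 := by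
    rw [hax]
    exact (hm.ori.side_neg _ _).2 hξ
  have hτ : 0 < tl (ρ g) := hg
  refine sub_nonpos.1 (GCqs_arch (C := 4 * ε) fun n => ?_)
  subst e
  obtain ⟨p1, p2⟩ := GColl_zpow_neg hg n hξ
  have hn : (0 : ℝ) ≤ n * tl (ρ g) := by positivity
  rw [Int.cast_natCast] at p2
  have h2 := key ⌈n * tl (ρ g)⌉₊ _ ξ p1 hξ (by linarith)
    (by linarith [Nat.le_ceil (n * tl (ρ g))])
  rw [hE, hE, ← hax, GCqs_pow hm, p2, (GColl_zpow_neg hg' n hξ').2, Int.cast_natCast,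
    show ∀ a b c d : ℝ, a + n * c - (b + n * d) - (a - b) = n * (c - d) from fun _ _ _ _ => by ring,
    abs_mul, Nat.abs_cast] at h2
  have h3 := mul_le_mul_of_nonneg_left (Nat.ceil_lt_add_one hn).le hε
  linarith

theorem tl_sub_le {X : Type*} {F : Filter X} {s : X → Γ →* Isom} {k : X → Circ ≃ₜ Circ}
    (hk : ∀ x, IsMark ρ (s x) (k x)) (hm : IsMark ρ σ h)
    (hu : TendstoUniformly (fun x ξ => k x ξ) h F) (R : ℝ) {ε : ℝ} (hε : 0 < ε) :
    ∀ᶠ x in F, ∀ g : Γ, Hyp (ρ g) → InCore ρ R (ax (ρ g)) →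
      |tl (s x g) - tl (σ g)| ≤ ε * tl (σ g) := by
  obtain ⟨R', hR'⟩ := hm.inCore R
  obtain ⟨δ, hδ, H⟩ := GUnif_near (R' + 1) (half_pos hε)
  filter_upwards [Metric.tendstoUniformly_iff.1 hu δ hδ] with x hx g hg hl
  obtain ⟨hg', hax⟩ := hm.hyp hg
  have := GUnif_tl (hm.symm.trans (hk x)) (half_pos hε).le
    (H _ fun ξ => by simpa using hx (h.symm ξ)) hg' (hax ▸ hR' _ hl)
  linarith

theorem Rep.tendsto_iff {X : Type*} {F : Filter X} {s : X → Rep ρ} {y : Rep ρ} :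
    Tendsto s F (𝓝 y) ↔ ∀ g, Tendsto (fun x => (s x).1 g) F (𝓝 (y.1 g)) := by
  simp only [tendsto_isom_iff]
  rw [nhds_induced, tendsto_comap_iff, tendsto_pi_nhds]
  exact forall_congr' fun g => tendsto_pi_nhds

theorem Rep.eventually_tl (hρ : Good ρ N) (y : Rep ρ) {ε : ℝ} (hε : 0 < ε) :
    ∀ᶠ x in 𝓝 y, ∀ g, Simple ρ g → |tl (x.1 g) - tl (y.1 g)| ≤ ε * tl (y.1 g) := by
  choose k hk using fun x : Rep ρ => x.2
  obtain ⟨R, hR⟩ := hρ.exists_core_simple
  filter_upwards [tl_sub_le hk (hk y) (tendstoUniformly_mark hρ hk (hk y)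
    (Rep.tendsto_iff.1 tendsto_id)) R hε] with x hx g hg
  exact hx g hg.hyp (hR g hg)

end HRT
end

-- merged part: Pool.Agent.Work.MP_35beee_gt.GTh
section
/-!
The Thurston metric on the Teichmueller space, and the closure of the functions `psi b x`.

Plan. The quotient map is open: the saturation of an open set is the union of its images under
the homeomorphisms given by conjugation (`isMark_conj`, `IsMark.trans`); the relation is an
equivalence relation (`Quot.eq`, `Equivalence.eqvGen_iff`). `IsMark.tl_le` bounds the ratios.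
`Rep.eventually_tl` gives `tendsto_dTh`. The family `psi b x` is equicontinuous, so pointwise
convergence along an ultrafilter implies uniform convergence on compact sets
(`ContinuousMap.tendsto_iff_forall_isCompact_tendstoUniformlyOn`; cover a compact set by finitely
many neighbourhoods on which all functions vary by at most `ε`).
-/

namespace HRT

open Set Filter Topology Real

variable {Γ : Type*} [Group Γ] {ρ : Γ →* Isom} {N : ℝ → ℝ}

/-- The point of the Teichmueller space defined by a holonomy. -/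
def Rep.cls (x : Rep ρ) : Teich ρ := Quot.mk _ x

@[simp] theorem len_cls (x : Rep ρ) (g : Γ) : len x.cls g = tl (x.1 g) := rfl

theorem cls_surjective : Function.Surjective (Rep.cls : Rep ρ → Teich ρ) := Quot.mk_surjective

theorem continuous_cls : Continuous (Rep.cls : Rep ρ → Teich ρ) := continuous_quot_mk

theorem cls_eq_iff {x y : Rep ρ} : x.cls = y.cls ↔ ∃ A : Isom, ∀ g, y.1 g = A * x.1 g * A⁻¹ := by
  refine Quot.eq.trans (Equivalence.eqvGen_iff ⟨fun x => ⟨1, fun g => by simp⟩, ?_, ?_⟩)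
  · rintro x y ⟨A, hA⟩
    exact ⟨A⁻¹, fun g => by rw [hA]; group⟩
  · rintro x y z ⟨A, hA⟩ ⟨C, hC⟩
    exact ⟨C * A, fun g => by rw [hC, hA]; group⟩

/-- Conjugation of a holonomy. -/
def GTh_conj (A : Isom) (x : Rep ρ) : Rep ρ :=
  ⟨(MulAut.conj A).toMonoidHom.comp x.1, _, x.2.choose_spec.trans (isMark_conj _ A)⟩

theorem GTh_conj_cont (A : Isom) : Continuous (GTh_conj A : Rep ρ → Rep ρ) :=
  continuous_iff_continuousAt.2 fun _ => Rep.tendsto_iff.2 fun g =>
    ((Rep.tendsto_iff.1 tendsto_id g).const_mul A).mul_const A⁻¹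

theorem isOpenMap_cls : IsOpenMap (Rep.cls : Rep ρ → Teich ρ) := by
  intro U hU
  refine isQuotientMap_quot_mk.isOpen_preimage.1 ?_
  have : (Quot.mk _ ⁻¹' (Rep.cls '' U) : Set (Rep ρ)) = ⋃ A : Isom, GTh_conj A ⁻¹' U := by
    ext x
    rw [mem_iUnion]
    constructor
    · rintro ⟨y, hy, h⟩
      obtain ⟨A, hA⟩ := cls_eq_iff.1 (h.symm : x.cls = y.cls)
      refine ⟨A, ?_⟩
      rwa [mem_preimage, show GTh_conj A x = y from Subtype.ext (MonoidHom.ext fun g => (hA g).symm)]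
    · rintro ⟨A, hA⟩
      exact ⟨_, hA, (cls_eq_iff.2 ⟨A, fun _ => rfl⟩).symm⟩
  exact this ▸ isOpen_iUnion fun A => hU.preimage (GTh_conj_cont A)

theorem map_cls_nhds (x : Rep ρ) : Filter.map Rep.cls (𝓝 x) = 𝓝 x.cls := by
  exact isOpenMap_cls.map_nhds_eq continuous_cls.continuousAt

theorem continuous_len (g : Γ) : Continuous fun X : Teich ρ => len X g := by
  exact continuous_quot_lift _ (continuous_tl.comp (continuous_iff_continuousAt.2 fun x =>
    Rep.tendsto_iff.1 tendsto_id g))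

theorem len_pos (X : Teich ρ) {g : Γ} (hg : Hyp (ρ g)) : 0 < len X g := by
  obtain ⟨x, rfl⟩ := cls_surjective X
  exact (x.2.choose_spec.hyp hg).1

theorem len_conj (X : Teich ρ) (g k : Γ) : len X (k * g * k⁻¹) = len X g := by
  obtain ⟨x, rfl⟩ := cls_surjective X
  exact tl_conj' g k

theorem len_inv (X : Teich ρ) (g : Γ) : len X g⁻¹ = len X g := by
  obtain ⟨x, rfl⟩ := cls_surjective X
  rw [len_cls, len_cls, map_inv, tl_inv]

theorem eventually_len (hρ : Good ρ N) (Y : Teich ρ) {ε : ℝ} (hε : 0 < ε) :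
    ∀ᶠ X in 𝓝 Y, ∀ g, Simple ρ g → |len X g - len Y g| ≤ ε * len Y g := by
  obtain ⟨y, rfl⟩ := cls_surjective Y
  rw [← map_cls_nhds, eventually_map]
  exact Rep.eventually_tl hρ y hε

theorem bddAbove_ratios (hρ : Good ρ N) (X Y : Teich ρ) : BddAbove (ratios X Y) := by
  obtain ⟨x, rfl⟩ := cls_surjective X
  obtain ⟨y, rfl⟩ := cls_surjective Y
  obtain ⟨C, -, h⟩ := x.2.choose_spec.tl_le hρ
  obtain ⟨D, hD, h'⟩ := y.2.choose_spec.tl_le hρ
  refine ⟨D * C, ?_⟩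
  rintro _ ⟨g, hg, rfl⟩
  rw [div_le_iff₀ (len_pos _ hg.1), mul_assoc]
  exact (h' g hg).1.trans (mul_le_mul_of_nonneg_left (h g hg).2 hD.le)

section
variable (hρ : Good ρ N) (hs : ∃ g, Simple ρ g)
include hρ hs

theorem sSup_ratios_pos (X Y : Teich ρ) : 0 < sSup (ratios X Y) := by
  obtain ⟨g, hg⟩ := hs
  exact (div_pos (len_pos Y hg.1) (len_pos X hg.1)).trans_le
    (le_csSup (bddAbove_ratios hρ X Y) ⟨g, hg, rfl⟩)

theorem exp_dTh (X Y : Teich ρ) : exp (dTh X Y) = sSup (ratios X Y) :=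
  exp_log (sSup_ratios_pos hρ hs X Y)

theorem len_le_exp_dTh (X Y : Teich ρ) {g : Γ} (hg : Simple ρ g) :
    len Y g ≤ exp (dTh X Y) * len X g := by
  rw [exp_dTh hρ hs]
  exact (div_le_iff₀ (len_pos X hg.1)).1 (le_csSup (bddAbove_ratios hρ X Y) ⟨g, hg, rfl⟩)

theorem exp_dTh_le {X Y : Teich ρ} {C : ℝ} (h : ∀ g, Simple ρ g → len Y g ≤ C * len X g) :
    exp (dTh X Y) ≤ C := by
  rw [exp_dTh hρ hs]
  obtain ⟨g, hg⟩ := hs
  refine csSup_le ⟨_, g, hg, rfl⟩ ?_
  rintro _ ⟨g, hg, rfl⟩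
  exact (div_le_iff₀ (len_pos X hg.1)).2 (h g hg)

theorem dTh_self (X : Teich ρ) : dTh X X = 0 := by
  obtain ⟨g, hg⟩ := id hs
  refine (exp_eq_one_iff _).1 ((exp_dTh_le hρ hs fun g _ => (one_mul _).ge).antisymm ?_)
  exact (le_mul_iff_one_le_left (len_pos X hg.1)).1 (len_le_exp_dTh hρ hs X X hg)

theorem dTh_triangle (X Y Z : Teich ρ) : dTh X Z ≤ dTh X Y + dTh Y Z := by
  rw [← exp_le_exp, exp_add, mul_comm]
  refine exp_dTh_le hρ hs fun g hg => ?_
  rw [mul_assoc]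
  exact (len_le_exp_dTh hρ hs Y Z hg).trans
    (mul_le_mul_of_nonneg_left (len_le_exp_dTh hρ hs X Y hg) (exp_pos _).le)

theorem tendsto_dTh (Y : Teich ρ) : Tendsto (fun X => dTh X Y) (𝓝 Y) (𝓝 0) ∧
    Tendsto (fun X => dTh Y X) (𝓝 Y) (𝓝 0) := by
  have key : ∀ ε : ℝ, 0 < ε → ∀ᶠ X in 𝓝 Y, |dTh X Y| ≤ ε ∧ |dTh Y X| ≤ ε := fun ε hε => by
    have h1 : exp (-ε) < 1 := exp_lt_one_iff.2 (neg_neg_of_pos hε)
    have h2 : exp ε * exp (-ε) = 1 := by rw [← exp_add, add_neg_cancel, exp_zero]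
    refine (eventually_len hρ Y (sub_pos.2 h1)).mono fun X h => ?_
    have h3 : dTh X Y ≤ ε := exp_le_exp.1 (exp_dTh_le hρ hs fun g hg => by
      have h4 : exp (-ε) * len Y g ≤ len X g := by linarith [(abs_le.1 (h g hg)).1]
      have h5 := mul_le_mul_of_nonneg_left h4 (exp_pos ε).le
      rwa [← mul_assoc, h2, one_mul] at h5)
    have h4 : dTh Y X ≤ ε := exp_le_exp.1 (exp_dTh_le hρ hs fun g hg => by
      have h5 : 1 + (1 - exp (-ε)) ≤ exp ε := by
        linarith [add_one_le_exp ε, add_one_le_exp (-ε)]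
      have h6 := mul_le_mul_of_nonneg_right h5 (len_pos Y hg.1).le
      linarith [(abs_le.1 (h g hg)).2])
    have h5 := dTh_triangle hρ hs Y X Y
    rw [dTh_self hρ hs] at h5
    exact ⟨abs_le.2 ⟨by linarith, h3⟩, abs_le.2 ⟨by linarith, h4⟩⟩
  constructor <;> refine Metric.nhds_basis_closedBall.tendsto_right_iff.2 fun ε hε =>
    (key ε hε).mono fun X h => ?_
  · exact mem_closedBall_zero_iff.2 h.1
  · exact mem_closedBall_zero_iff.2 h.2

theorem GTh_cont {f : Teich ρ → ℝ} (h : ∀ z z', f z - f z' ≤ dTh z' z) : Continuous f := by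
  refine continuous_iff_continuousAt.2 fun y => ?_
  have h1 := (tendsto_dTh hρ hs y).1.const_sub (f y)
  have h2 := (tendsto_dTh hρ hs y).2.const_add (f y)
  rw [sub_zero] at h1
  rw [add_zero] at h2
  exact tendsto_of_tendsto_of_tendsto_of_le_of_le h1 h2 (fun z => by linarith [h y z])
    fun z => by linarith [h z y]

theorem GTh_lim (b : Teich ρ) {I : Type*} (U : Ultrafilter I) {f : I → Teich ρ → ℝ}
    (h : ∀ i z z', f i z - f i z' ≤ dTh z' z) (h0 : ∀ i, f i b = 0) :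
    ∃ g : C(Teich ρ, ℝ), ∀ z, Tendsto (fun i => f i z) U (𝓝 (g z)) := by
  choose g _ hg using fun z => (isCompact_Icc (a := -dTh z b) (b := dTh b z)).ultrafilter_le_nhds'
    (U.map fun i => f i z) (Ultrafilter.mem_map.2 (univ_mem' fun i =>
      ⟨by linarith [h i b z, h0 i], by linarith [h i z b, h0 i]⟩))
  exact ⟨⟨g, GTh_cont hρ hs fun z z' =>
    le_of_tendsto' (Tendsto.sub (hg z) (hg z')) fun i => h i z z'⟩, hg⟩

theorem psi_sub_le (b x z z' : Teich ρ) : psi b x z - psi b x z' ≤ dTh z' z := by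
  have := dTh_triangle hρ hs x z' z
  unfold psi
  linarith

theorem continuous_psi (b x : Teich ρ) : Continuous (psi b x) := by
  exact GTh_cont hρ hs (psi_sub_le hρ hs b x)

theorem continuous_psi_left (b z : Teich ρ) : Continuous fun x => psi b x z := by
  have key : ∀ w : Teich ρ, Continuous fun x => -dTh x w := fun w => GTh_cont hρ hs fun x y => by
    linarith [dTh_triangle hρ hs y x w]
  exact ((key b).sub (key z)).congr fun x => neg_sub_neg _ _

/-- A function with the Lipschitz bound of the functions `psi` is continuous. -/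
theorem continuous_of_sub_le {f : Teich ρ → ℝ} (h : ∀ z z', f z - f z' ≤ dTh z' z) :
    Continuous f := by
  exact GTh_cont hρ hs h

theorem exists_tendsto_psi (b : Teich ρ) {I : Type*} (U : Ultrafilter I) (x : I → Teich ρ) :
    ∃ f : C(Teich ρ, ℝ), ∀ z, Tendsto (fun n => psi b (x n) z) U (𝓝 (f z)) := by
  exact GTh_lim hρ hs b U (fun n => psi_sub_le hρ hs b (x n)) fun n => sub_self _

/-- For functions with the Lipschitz bound, pointwise convergence is compact convergence. -/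
theorem tendsto_iff_pointwise {I : Type*} {F : Filter I} {f : I → C(Teich ρ, ℝ)}
    {g : C(Teich ρ, ℝ)} (h : ∀ i z z', f i z - f i z' ≤ dTh z' z) :
    Tendsto f F (𝓝 g) ↔ ∀ z, Tendsto (fun i => f i z) F (𝓝 (g z)) := by
  refine ⟨fun H z => ((continuous_eval_const z).tendsto g).comp H, fun H =>
    ContinuousMap.tendsto_of_tendstoLocallyUniformly (Metric.tendstoLocallyUniformly_iff.2
      fun ε hε y => ?_)⟩
  have h3 : 0 < ε / 3 := by positivity
  refine ⟨_, ((tendsto_dTh hρ hs y).1.eventually_lt_const h3).and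
    (((tendsto_dTh hρ hs y).2.eventually_lt_const h3).and
      (Metric.tendsto_nhds.1 (g.continuous.tendsto y) _ h3)),
    (Metric.tendsto_nhds.1 (H y) _ h3).mono fun i hi z hz => ?_⟩
  obtain ⟨h4, h5, h6⟩ := hz
  rw [Real.dist_eq, abs_lt] at hi h6 ⊢
  constructor <;> linarith [h i z y, h i y z, hi.1, hi.2, h6.1, h6.2]

theorem GTh_mem (b : Teich ρ) {f : C(Teich ρ, ℝ)} {I : Type*} {F : Filter I}
    [F.NeBot] {x : I → Teich ρ} (h : ∀ z, Tendsto (fun n => psi b (x n) z) F (𝓝 (f z))) :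
    f ∈ closure (horoImage b) :=
  mem_closure_of_tendsto ((tendsto_iff_pointwise hρ hs
    (f := fun n => ⟨psi b (x n), continuous_psi hρ hs b _⟩)
    fun n => psi_sub_le hρ hs b (x n)).2 h) (.of_forall fun n => ⟨x n, fun _ => rfl⟩)

theorem mem_closure_horoImage (b : Teich ρ) (f : C(Teich ρ, ℝ)) : f ∈ closure (horoImage b) ↔
    ∃ U : Ultrafilter (Teich ρ), ∀ z, Tendsto (fun x => psi b x z) U (𝓝 (f z)) := by
  refine ⟨fun h => ?_, fun ⟨U, h⟩ => GTh_mem hρ hs b h⟩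
  let Ψ : Teich ρ → C(Teich ρ, ℝ) := fun x => ⟨psi b x, continuous_psi hρ hs b x⟩
  have : (comap Ψ (𝓝 f)).NeBot := comap_neBot_iff_frequently.2
    ((mem_closure_iff_frequently.1 h).mono fun g ⟨x, hx⟩ => ⟨x, (ContinuousMap.ext hx).symm⟩)
  exact ⟨Ultrafilter.of (comap Ψ (𝓝 f)), fun z => ((continuous_eval_const z).tendsto f).comp
    (tendsto_comap.mono_left (Ultrafilter.of_le _))⟩

theorem mem_closure_of_tendsto_psi (b : Teich ρ) {f : C(Teich ρ, ℝ)} {I : Type*} {F : Filter I}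
    [F.NeBot] {x : I → Teich ρ} (h : ∀ z, Tendsto (fun n => psi b (x n) z) F (𝓝 (f z))) :
    f ∈ closure (horoImage b) := by
  exact GTh_mem hρ hs b h

theorem sub_le_of_mem_closure (b : Teich ρ) {f : C(Teich ρ, ℝ)} (hf : f ∈ closure (horoImage b))
    (z z' : Teich ρ) : f z - f z' ≤ dTh z' z := by
  obtain ⟨U, h⟩ := (mem_closure_horoImage hρ hs b f).1 hf
  exact le_of_tendsto' ((h z).sub (h z')) fun x => psi_sub_le hρ hs b x z z'

theorem isCompact_closure_horoImage (b : Teich ρ) : IsCompact (closure (horoImage b)) := by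
  refine isCompact_iff_isCompact_univ.2 (isCompact_iff_ultrafilter_le_nhds.2 fun U _ => ?_)
  have h1 := fun f : closure (horoImage b) => sub_le_of_mem_closure hρ hs b f.2
  obtain ⟨g, hg⟩ := GTh_lim hρ hs b U (f := fun f => f.1) h1 fun f => by
    obtain ⟨W, h⟩ := (mem_closure_horoImage hρ hs b f.1).1 f.2
    exact tendsto_nhds_unique (h b) (tendsto_const_nhds.congr fun x => (sub_self _).symm)
  have h2 := (tendsto_iff_pointwise hρ hs h1).2 hg
  exact ⟨⟨g, isClosed_closure.mem_of_tendsto h2 (.of_forall fun f => f.2)⟩, mem_univ _,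
    tendsto_subtype_rng.2 h2⟩

end

end HRT
end

-- merged part: Pool.Agent.Work.MP_35beee_gt.GTwRep
section
/-!
Lengths after large real twists along a multicurve.

Plan. Let `z = qrep hL hτ hp` for the system `lifts ρ R` and the weight of `Multi.exists_weight`
(`exists_qmap`, `IsQmap.exists_mark`). Upper bound: `tl_qrep_le`, `tl_qrep_base`, `sum_srt`.
Lower bound: `sum_le_tl` for `z` and the system `lifts z R` with the half collars (`Multi.wid`; the
curves `R i` keep their lengths, `tl_qrep_of_not_cross`), `IsQmap.twist_sys` to compare the twists,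
`sum_le_tl` for `ρ` to bound the sum of the old twists, `inter_mul_colW_le` to bound the number of
crossings. A way to avoid matching lists: `sum_le_tl` is a sum over the finite set `sepS`
(`mem_srt`, `pairwise_srt`), and the summands are invariant under `g`; both sets are sets of
representatives for the action of the powers of `g` on the lifts crossing the axis. An alternative
for the lower bound: twisting back by `-t` recovers `ρ` up to conjugation, then `tl_qrep_le'`.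
For `y : Rep ρ` apply the result to `y.1` (`IsMark.disc`, `multi_iff`, `inter_eq`, `IsMark.trans`).
-/

namespace HRT

open Set Filter Topology Real

variable {Γ : Type*} [Group Γ] {ρ : Γ →* Isom} {ι : Type} [Fintype ι] {R : ι → Γ}

theorem GTwRep_tr {g : Γ} (hg : Hyp (ρ g)) (n : ℤ) {l : Geo} (h : GTwLen_Tr (ax (ρ g)) l) :
    GTwLen_Tr (ax (ρ g)) (ρ (g ^ n) • l) := by
  have h1 : ρ (g ^ n) • ax (ρ g) = ax (ρ g) := by rw [map_zpow]; exact hg.zpow_smul_ax n
  constructor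
  · have := (side_smul_circ_neg (ρ (g ^ n)) l (ax (ρ g)).src).2 h.1
    rwa [← Geo.src_smul, h1] at this
  · have := (side_smul_circ_pos (ρ (g ^ n)) l (ax (ρ g)).tgt).2 h.2
    rwa [← Geo.tgt_smul, h1] at this

/-- Sums over inequivalent crossing lines are bounded by the sum over a fundamental segment. -/
theorem GTwRep_sum {L : Set Geo} (hL : Sys ρ L) {g : Γ} (hg : Hyp (ρ g)) {t : ℝ}
    (ht : Off L (pt (ax (ρ g)) t)) (s : List Geo) (hs : s.Nodup)
    (h1 : ∀ l ∈ s, l ∈ L ∧ GTwLen_Tr (ax (ρ g)) l)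
    (h2 : ∀ l ∈ s, ∀ n : ℤ, ρ (g ^ n) • l ∈ s → n = 0) :
    (s.map fun l => |twist l (ax (ρ g))|).sum ≤
      ((srt L (pt (ax (ρ g)) t) (ρ g • pt (ax (ρ g)) t)).map fun l => |twist l (ax (ρ g))|).sum := by
  choose n hn using fun l => GInter_exists_shift hg (xp (ax (ρ g)) l) t
  have e : (s.map fun l => |twist l (ax (ρ g))|) =
      (s.map fun l => ρ (g ^ n l) • l).map fun l => |twist l (ax (ρ g))| := by
    rw [List.map_map]
    refine List.map_congr_left fun l hl => ?_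
    have h3 := twist_smul (ρ (g ^ n l)) (h1 l hl).2.cross
    rw [map_zpow, hg.zpow_smul_ax, ← map_zpow] at h3
    exact congrArg abs h3.symm
  have hnd : (s.map fun l => ρ (g ^ n l) • l).Nodup := hs.map_on fun l hl m hm h => by
    have h3 : ρ (g ^ (-n m + n l)) • l = m := by
      rw [zpow_add, map_mul, mul_smul, h, ← mul_smul, ← map_mul, ← zpow_add, neg_add_cancel,
        zpow_zero, map_one, one_smul]
    rw [← h3, h2 l hl (-n m + n l) (by rw [h3]; exact hm), zpow_zero, map_one, one_smul]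
  have hsub : (s.map fun l => ρ (g ^ n l) • l) ⊆
      srt L (pt (ax (ρ g)) t) (ρ g • pt (ax (ρ g)) t) := fun m hm => by
    obtain ⟨l, hl, rfl⟩ := List.mem_map.1 hm
    have h3 := GTwRep_tr hg (n l) (h1 l hl).2
    have h4 := (GInter_cross_zpow hg (n l) (h1 l hl).2.cross.symm).2
    have h5 := hL.smul (g ^ n l) l (h1 l hl).1
    have h6 := hn l
    rw [← h4] at h6
    rw [hL.mem_srt, hg.smul_pt_ax]
    exact ⟨h5, ((h3.mono.monotone h6.1).trans_eq h3.zero).lt_of_ne (ht _ h5),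
      h3.zero.symm.trans_lt (h3.mono h6.2)⟩
  obtain ⟨s', h3, h4⟩ := List.subperm_of_subset hnd hsub
  rw [e, ← (h3.map _).sum_eq]
  refine (h4.map _).sum_le_sum fun a ha => ?_
  obtain ⟨l, -, rfl⟩ := List.mem_map.1 ha
  exact abs_nonneg _

theorem GTwRep_w {a : ι → ℝ} (ha : ∀ i, 0 < a i) : ∃ w > 0, ∀ i, w ≤ a i := by
  have h0 : 0 ≤ ∑ i, (a i)⁻¹ := Finset.sum_nonneg fun i _ => (inv_pos.2 (ha i)).le
  refine ⟨(∑ i, (a i)⁻¹ + 1)⁻¹, by positivity, fun i => inv_le_of_inv_le₀ (ha i) ?_⟩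
  have := Finset.single_le_sum (f := fun i => (a i)⁻¹) (fun i _ => (inv_pos.2 (ha i)).le)
    (Finset.mem_univ i)
  linarith

theorem GTwRep_tw (hρ : Disc ρ) (hR : Multi ρ R) {w : ℝ} (hw : 0 < w)
    (hle : ∀ i, w ≤ colW (tl (ρ (R i))) / 2) {g : Γ} (hg : Hyp (ρ g)) {t : ℝ}
    (ht : Off (lifts ρ R) (pt (ax (ρ g)) t)) :
    ((srt (lifts ρ R) (pt (ax (ρ g)) t) (ρ g • pt (ax (ρ g)) t)).map
      fun l => |twist l (ax (ρ g))|).sum ≤
      tl (ρ g) + ∑ i, (4 + 2 * arcosh (cosh w / sinh w)) * inter ρ g (R i) := by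
  obtain ⟨wd, hwd⟩ := hR.exists_weight hρ fun i => colW (tl (ρ (R i))) / 2
  have hW := hR.wid hρ hwd hw hle
  have h1 := sum_le_tl (hR.sys hρ) hW hg ht
  rw [← hρ.sum_srt hR hg ht (W := fun _ => 4 + 2 * arcosh (cosh w / sinh w)) fun _ _ _ => rfl]
  refine le_trans ?_ (add_le_add_left h1 _)
  rw [← List.sum_map_add]
  refine List.sum_le_sum fun l hl => ?_
  have := hW.le l (GTwLen_mem (hR.sys hρ) hg hl).1
  linarith

theorem Disc.exists_twist (hρ : Disc ρ) (hR : Multi ρ R) : ∃ C : ℝ, 0 ≤ C ∧ ∀ t : ι → ℝ,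
    ∃ z : Rep ρ, ∀ g : Γ, Hyp (ρ g) →
      tl (z.1 g) ≤ tl (ρ g) + ∑ i, |t i| * inter ρ g (R i) ∧
        ∑ i, |t i| * inter ρ g (R i) ≤ tl (z.1 g) + C * tl (ρ g) := by
  have hL := hR.sys hρ
  have h0 : ∀ i, 0 < tl (ρ (R i)) := fun i => (hR.1 i).1
  obtain ⟨w, hw, hle⟩ := GTwRep_w (a := fun i => colW (tl (ρ (R i))) / 2)
    fun i => half_pos (colW_pos (h0 i))
  obtain ⟨K, hK⟩ : ∃ K, K = 4 + 2 * arcosh (cosh w / sinh w) := ⟨_, rfl⟩
  obtain ⟨M, hM⟩ : ∃ M, M = ∑ i, tl (ρ (R i)) := ⟨_, rfl⟩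
  have hK0 : 0 ≤ K := by
    have := arcosh_nonneg ((one_le_div (sinh_pos_iff.2 hw)).2 (sinh_lt_cosh w).le)
    linarith
  have hM0 : 0 ≤ M := hM ▸ Finset.sum_nonneg fun i _ => (h0 i).le
  have hM1 : ∀ i, tl (ρ (R i)) ≤ M := fun i =>
    hM ▸ Finset.single_le_sum (f := fun i => tl (ρ (R i))) (fun i _ => (h0 i).le) (Finset.mem_univ i)
  refine ⟨1 + ∑ _i : ι, (2 * K + 2 * M) / (2 * w), by positivity, fun t => ?_⟩
  obtain ⟨τ, hτ'⟩ := hR.exists_weight hρ t
  have hτ := Multi.wt hτ'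
  obtain ⟨p, hp, -⟩ := hL.exists_off_near o one_pos
  obtain ⟨F, hF⟩ := exists_qmap hL hτ
  obtain ⟨f, hf, hm⟩ := hF.exists_mark hL hτ hp
  refine ⟨⟨_, f, hm⟩, fun g hg => ?_⟩
  change tl (qrep hL hτ hp g) ≤ _ ∧ _ ≤ tl (qrep hL hτ hp g) + _
  by_cases hA : ax (ρ g) ∈ lifts ρ R
  · have h1 : ∀ i, inter ρ g (R i) = 0 := fun i =>
      (hρ.inter_eq_zero_iff hg (hR.1 i).hyp (hR.1 i).prim).2 fun k =>
        hL.nc _ hA _ ⟨i, k, Or.inl rfl⟩
    have := tl_nonneg (ρ g)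
    rw [tl_qrep_of_not_cross hL hτ hp hg (hL.nc _ hA)]
    simp only [h1, Nat.cast_zero, mul_zero, Finset.sum_const_zero, add_zero, le_refl, true_and]
    positivity
  obtain ⟨u, hu⟩ := GTwist2_off hL hA
  constructor
  · rw [tl_qrep_base hL hτ hp hu,
      ← hρ.sum_srt hR hg hu (W := fun l => |τ l|) fun i l hl => by rw [hτ' i l hl]]
    exact tl_qrep_le hL hτ hg hu
  have htl : ∀ i, tl (qrep hL hτ hp (R i)) = tl (ρ (R i)) := fun i =>
    tl_qrep_of_not_cross hL hτ hp (hR.1 i).hyp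
      (hL.nc _ ⟨i, 1, Or.inl (by rw [map_one, one_smul])⟩)
  have htw : ∀ l ∈ lifts ρ R, Cross l (ax (ρ g)) →
      |τ l| ≤ |twist (l.map f) ((ax (ρ g)).map f)| + |twist l (ax (ρ g))| + 2 * M := by
    intro l hl hc
    obtain ⟨i, c, hc', rfl⟩ := (mem_lifts_iff fun i => (hR.1 i).hyp).1 hl
    have h1 := GSys_tl (ρ := ρ) hc'
    have h2 := abs_le.1 (hF.twist_sys hL hτ hp hf (s := c) (h1.symm ▸ h0 i : 0 < tl (ρ c)) hl hc)
    have h3 := hM1 i
    have h4 := le_abs_self (twist ((ax (ρ c)).map f) ((ax (ρ g)).map f))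
    have h5 := neg_abs_le (twist ((ax (ρ c)).map f) ((ax (ρ g)).map f))
    have h6 := le_abs_self (twist (ax (ρ c)) (ax (ρ g)))
    have h7 := neg_abs_le (twist (ax (ρ c)) (ax (ρ g)))
    rw [abs_le]
    constructor <;> linarith [h2.1, h2.2]
  generalize qrep hL hτ hp = σ at hm htl
  have hσ := hm.disc hρ
  have hR' := (hm.multi_iff R).2 hR
  have hL' := hR'.sys hσ
  obtain ⟨hg', hax⟩ := hm.hyp hg
  obtain ⟨v, hv⟩ := GTwist2_off hL' (A := ax (σ g)) fun h =>
    hA ((hm.mem_lifts (fun i => (hR.1 i).hyp) _).1 (hax ▸ h))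
  have a1 := GTwRep_tw hρ hR hw hle hg hu
  have a2 := GTwRep_tw hσ hR' hw (fun i => (htl i).symm ▸ hle i) hg' hv
  have a3 := hσ.sum_srt hR' hg' hv (W := fun l => |τ (l.map f.symm)|) (w := fun i => |t i|)
    fun i l hl => by
      rw [hτ' i _ ((hm.symm.mem_lifts (R := fun _ : Unit => R i) (fun _ => (hR'.1 i).hyp) l).2 hl)]
  have a4 := hσ.sum_srt hR' hg' hv (W := fun _ => 2 * M) (w := fun _ => 2 * M) fun _ _ _ => rfl
  have hmem := fun l hl => GTwLen_mem hL' hg' (t := v) (l := l) hl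
  have hnd : (srt (lifts σ R) (pt (ax (σ g)) v) (σ g • pt (ax (σ g)) v)).Nodup :=
    (hL'.pairwise_srt _ _).imp fun h => h.2.symm
  generalize srt (lifts σ R) (pt (ax (σ g)) v) (σ g • pt (ax (σ g)) v) = s at a2 a3 a4 hmem hnd
  have hb : ∀ l ∈ s, l.map f.symm ∈ lifts ρ R ∧ GTwLen_Tr (ax (ρ g)) (l.map f.symm) := fun l hl => by
    obtain ⟨h1, h2, -⟩ := hmem l hl
    refine ⟨(hm.symm.mem_lifts (fun i => (hR'.1 i).hyp) l).2 h1, ?_, ?_⟩
    · rw [← hm.ori.side_neg, Geo.map_map_symm, ← Geo.src_map, ← hax]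
      exact h2.1
    · rw [← hm.ori.side_pos, Geo.map_map_symm, ← Geo.tgt_map, ← hax]
      exact h2.2
  have a5 := GTwRep_sum hL hg hu (s.map (Geo.map f.symm)) (hnd.map (Geo.map_injective _))
    (fun l hl => by
      obtain ⟨m, hm', rfl⟩ := List.mem_map.1 hl
      exact hb m hm')
    (fun l hl n hn => by
      obtain ⟨m, hm', rfl⟩ := List.mem_map.1 hl
      obtain ⟨m', hm'', e⟩ := List.mem_map.1 hn
      rw [← hm.symm.map_smul] at e
      obtain ⟨-, b1, b2, b3⟩ := hmem m hm'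
      obtain ⟨-, -, b4, b5⟩ := hmem m' hm''
      rw [Geo.map_injective _ e, (GInter_cross_zpow hg' n b1.cross.symm).2] at b4 b5
      exact GInter_shift_eq_zero ⟨b2.le, b3⟩ ⟨b4.le, b5⟩)
  have a6 : (s.map fun l => |τ (l.map f.symm)|).sum ≤ (s.map fun l => |twist l (ax (σ g))|).sum +
      ((s.map (Geo.map f.symm)).map fun l => |twist l (ax (ρ g))|).sum +
        (s.map fun _ => 2 * M).sum := by
    rw [List.map_map, ← List.sum_map_add, ← List.sum_map_add]
    refine List.sum_le_sum fun l hl => ?_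
    have := htw _ (hb l hl).1 (hb l hl).2.cross
    rwa [Geo.map_map_symm, ← hax] at this
  have a7 : ∑ i, (2 * K + 2 * M) * inter ρ g (R i) ≤
      (∑ _i : ι, (2 * K + 2 * M) / (2 * w)) * tl (ρ g) := by
    rw [Finset.sum_mul]
    refine Finset.sum_le_sum fun i _ => ?_
    have h1 := hρ.inter_mul_colW_le hg (hR.1 i)
    have h2 : (inter ρ g (R i) : ℝ) * (2 * w) ≤ inter ρ g (R i) * colW (tl (ρ (R i))) :=
      mul_le_mul_of_nonneg_left (by linarith [hle i]) (Nat.cast_nonneg _)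
    rw [div_mul_eq_mul_div, mul_div_assoc]
    exact mul_le_mul_of_nonneg_left ((le_div_iff₀ (by positivity)).2 (h2.trans h1)) (by positivity)
  simp only [hm.inter_eq, ← hK] at a1 a2 a3 a4
  have a8 : ∑ i, (2 * K + 2 * M) * inter ρ g (R i) = ∑ i, K * inter ρ g (R i) +
      ∑ i, K * inter ρ g (R i) + ∑ i, 2 * M * inter ρ g (R i) := by
    rw [← Finset.sum_add_distrib, ← Finset.sum_add_distrib]
    exact Finset.sum_congr rfl fun i _ => by ring
  rw [add_mul]
  linarith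

theorem Disc.exists_twist_teich (hρ : Disc ρ) (hR : Multi ρ R) (y : Teich ρ) :
    ∃ C : ℝ, 0 ≤ C ∧ ∀ t : ι → ℝ, ∃ z : Teich ρ, ∀ g : Γ, Hyp (ρ g) →
      len z g ≤ len y g + ∑ i, |t i| * inter ρ g (R i) ∧
        ∑ i, |t i| * inter ρ g (R i) ≤ len z g + C * len y g := by
  obtain ⟨⟨σ, h, hm⟩, rfl⟩ := cls_surjective y
  obtain ⟨C, hC, H⟩ := (hm.disc hρ).exists_twist ((hm.multi_iff R).2 hR)
  refine ⟨C, hC, fun t => ?_⟩
  obtain ⟨⟨z, k, hk⟩, hz⟩ := H t
  refine ⟨Rep.cls ⟨z, _, hm.trans hk⟩, fun g hg => ?_⟩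
  simpa only [len_cls, hm.inter_eq] using hz g (hm.hyp hg).1

end HRT
end
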