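import Pool.Agent.Work.MP_35beee_gt.SSpike
import Pool.Agent.Work.MP_35beee_gt.GTwRep
import Mathlib
import Pool.Agent.Work.MP_35beee_gt.GDense2
import Pool.Agent.Work.MP_35beee_gt.GDyn

-- merged part: Pool.Agent.Work.MP_35beee_gt.GMarked
section
-- merged part: Pool.Agent.Work.MP_35beee_gt.GLiou
section
/-!
The Liouville measure and its pull-back by a marking.

Plan. `exists_liou`: the map `(l, t) ↦ t • nrm l` on `Geo × Ioo 0 1` is continuous and injective,
hence a measurable embedding (`Continuous.measurableEmbedding`); let `L₀` be the image under the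
first projection of the pull-back (`Measure.comap`) of the volume of `V`, so `L₀ E` is the volume of
the cone over `nrm '' E`. Invariance as in `area_smul` (`nrm_smul`, `nrm_rev`; determinant `± 1`).
The measure `I ↦ L₀ (xs A I)` on the line is locally finite and invariant under translations
(`trans`, `smul_mem_xs`), so it is `κ • volume` (uniqueness of Haar measure), `κ` does not depend
on `A` (`exists_isom_line`) and `κ ≠ 0` (the cone over the open set `xs A (Ioo 0 1)` has interior: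
`nrm` is onto the unit spacelike vectors, and membership is given by open conditions; or cover
`Geo` by countably many `xs A univ`). Normalise. A plane has volume zero.
`real_arc`: `measure_eq_of_zpow` (the projection of the starting point is shifted by `tl`,
`ccw_iff_fer_right`). `ic_pull` follows from `real_arc` on both sides.
-/

namespace HRT

open Set Filter Topology Real MeasureTheory

/-- The cone over the normals of a set of lines. -/
def GLiou_cone (E : Set Geo) : Set V := {v | ∃ l ∈ E, ∃ s < 0, v = exp s • nrm l}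

theorem GLiou_inj : Function.Injective fun x : Geo × ℝ => exp x.2 • nrm x.1 := by
  rintro ⟨l, s⟩ ⟨m, t⟩ h
  have h0 : exp s • nrm l = exp t • nrm m := h
  have h1 : B (exp s • nrm l) (exp s • nrm l) = B (exp t • nrm m) (exp t • nrm m) := by rw [h0]
  simp only [B_smul_left, B_smul_right, B_nrm_nrm, mul_one, ← exp_add, exp_eq_exp] at h1
  obtain rfl : s = t := by linarith only [h1]
  rw [nrm_injective (smul_right_injective V (exp_pos s).ne' h0)]

theorem GLiou_cone_measure :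
    ∃ L : Measure Geo, ∀ E, MeasurableSet E → L E = volume (GLiou_cone E) := by
  have h : MeasurableEmbedding fun x : Geo × ℝ => exp x.2 • nrm x.1 :=
    ((continuous_exp.comp continuous_snd).smul
      (continuous_nrm.comp continuous_fst)).measurableEmbedding GLiou_inj
  refine ⟨((volume.comap fun x : Geo × ℝ => exp x.2 • nrm x.1).restrict (Prod.snd ⁻¹' Iio 0)).map
    Prod.fst, fun E hE => ?_⟩
  rw [Measure.map_apply measurable_fst hE, Measure.restrict_apply (measurable_fst hE),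
    h.comap_apply]
  congr 1
  ext v
  exact ⟨fun ⟨x, hx, e⟩ => ⟨x.1, hx.1, x.2, hx.2, e.symm⟩,
    fun ⟨l, hl, s, hs, e⟩ => ⟨(l, s), ⟨hl, hs⟩, e.symm⟩⟩

theorem GLiou_pres {L : Measure Geo} (hL : ∀ E, MeasurableSet E → L E = volume (GLiou_cone E))
    {f : Geo → Geo} (hf : Measurable f) (T : V →ₗ[ℝ] V) (hT : |LinearMap.det T| = 1)
    (h : ∀ l, nrm (f l) = T (nrm l)) (hs : Function.Surjective f) : MeasurePreserving f L L := by
  have h0 : LinearMap.det T ≠ 0 := fun h0 => by simp [h0] at hT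
  refine ⟨hf, Measure.ext fun E hE => ?_⟩
  have h1 : GLiou_cone (f ⁻¹' E) = T ⁻¹' GLiou_cone E := by
    ext v
    constructor
    · rintro ⟨l, hl, s, h2, rfl⟩
      exact ⟨f l, hl, s, h2, by rw [map_smul, h]⟩
    · rintro ⟨l, hl, s, h2, e⟩
      obtain ⟨m, rfl⟩ := hs l
      exact ⟨m, hl, s, h2, (T.equivOfDetNeZero h0).injective (e.trans (by rw [h, ← map_smul]; rfl))⟩
  rw [Measure.map_apply hf hE, hL _ (hf hE), hL _ hE, h1, Measure.addHaar_preimage_linearMap _ h0,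
    abs_inv, hT, inv_one, ENNReal.ofReal_one, one_mul]

theorem GLiou_pos : volume (GLiou_cone univ) ≠ 0 := by
  have h1 : Continuous fun v : V => B v v := continuous_id.B' continuous_id
  refine fun h => ((isOpen_Ioo (a := 0) (b := 1)).preimage h1).measure_ne_zero volume
    ⟨![1 / 2, 0, 0], by simp [B]; norm_num⟩ (measure_mono_null ?_ h)
  rintro v ⟨h2, h3⟩
  have h4 := sqrt_pos.2 h2
  obtain ⟨l, hl⟩ := exists_nrm_eq (n := (√(B v v))⁻¹ • v) (by
    rw [B_smul_left, B_smul_right, ← mul_assoc, ← mul_inv, mul_self_sqrt h2.le,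
      inv_mul_cancel₀ h2.ne'])
  refine ⟨l, trivial, log √(B v v), log_neg h4 (by rwa [sqrt_lt' one_pos, one_pow]), ?_⟩
  rw [exp_log h4, hl, smul_inv_smul₀ h4.ne']

theorem GLiou_open (A : Geo) {I : Set ℝ} (hI : IsOpen I) : IsOpen (xs A I) := by
  have h1 : IsOpen (xs A univ) := by
    simpa [xs, side, ofPred_and] using
      (isOpen_lt (continuous_const.B' GFermi_cs) continuous_const).inter
        (isOpen_lt continuous_const (continuous_const.B' GFermi_ct))
  convert (GCurI_cont A).isOpen_inter_preimage h1 hI using 1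
  ext l
  exact ⟨fun h => ⟨⟨h.1, h.2.1, trivial⟩, h.2.2⟩, fun h => ⟨h.1.1, h.1.2.1, h.2⟩⟩

theorem GLiou_cover (l : Geo) : ∃ A, l ∈ xs A univ := by
  obtain ⟨ξ, h1, -⟩ := exists_circ_right l 0
  obtain ⟨η, h2, -⟩ := exists_circ_left l 0
  have h3 := side_of_cross (l := l) (m := Geo.mk' ξ η fun h => by rw [h] at h1; linarith) h1 h2
  exact ⟨Geo.rev _, by rw [side_rev]; linarith [h3.1], by rw [side_rev]; linarith [h3.2], trivial⟩

theorem exists_liou : ∃ L : Measure Geo, IsFiniteMeasureOnCompacts L ∧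
    (∀ g : Isom, MeasurePreserving (fun l : Geo => g • l) L L) ∧ MeasurePreserving Geo.rev L L ∧
      (∀ (A : Geo) (I : Set ℝ), MeasurableSet I → L (xs A I) = volume I) ∧
        ∀ v : V, v ≠ 0 → L {l | side l v = 0} = 0 := by
  obtain ⟨L, hL⟩ := GLiou_cone_measure
  have hg : ∀ g : Isom, MeasurePreserving (fun l : Geo => g • l) L L := fun g =>
    GLiou_pres hL (measurable_smul_geo g) (Matrix.toLin' (g.1 : Matrix (Fin 3) (Fin 3) ℝ))
      (by rw [LinearMap.det_toLin', g.1.2, abs_one]) (nrm_smul g) (MulAction.surjective g)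
  have hr : MeasurePreserving Geo.rev L L :=
    GLiou_pres hL measurable_rev (-LinearMap.id)
      (by rw [← neg_one_smul ℝ, LinearMap.det_smul, LinearMap.det_id]; simp) nrm_rev
      fun l => ⟨l.rev, l.rev_rev⟩
  have hf : IsFiniteMeasureOnCompacts L := ⟨fun K hK => by
    obtain ⟨R, hR⟩ := (hK.image continuous_nrm).isBounded.exists_norm_le
    rw [hL K hK.measurableSet]
    refine lt_of_le_of_lt (measure_mono ?_)
      (measure_closedBall_lt_top (μ := volume) (x := (0 : V)) (r := R))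
    rintro _ ⟨l, hl, s, hs, rfl⟩
    rw [mem_closedBall_zero_iff, norm_smul, Real.norm_eq_abs, abs_of_pos (exp_pos s)]
    exact (mul_le_of_le_one_left (norm_nonneg _) (exp_le_one_iff.2 hs.le)).trans
      (hR _ (mem_image_of_mem _ hl))⟩
  have hc : Cur (MonoidHom.id Isom) L := ⟨hf, hg, hr⟩
  obtain ⟨A₀⟩ : Nonempty Geo := inferInstance
  have := hc.posM_locFin A₀
  have : (posM L A₀).IsAddLeftInvariant := (forall_measure_preimage_add_iff _).1 fun t I hI => by
    have h1 := hc.xs_smul (trans A₀ t) A₀ hI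
    rw [MonoidHom.id_apply, trans_smul, sh_trans] at h1
    rw [posM_apply _ _ hI, posM_apply _ _ (measurable_const_add t hI), h1]
    simp only [add_comm]
  obtain ⟨κ, hκ⟩ : ∃ κ : NNReal, posM L A₀ = κ • volume :=
    ⟨_, Measure.isAddLeftInvariant_eq_smul _ _⟩
  have h1 : ∀ (A : Geo) (I : Set ℝ), MeasurableSet I → L (xs A I) = κ • volume I := by
    intro A I hI
    obtain ⟨g, rfl, -⟩ := exists_isom_line A₀ A 0 0
    have h2 := hc.xs_smul g A₀ hI
    rw [MonoidHom.id_apply] at h2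
    rw [h2, ← posM_apply _ _ (measurable_add_const _ hI), hκ, Measure.smul_apply,
      measure_preimage_add_right]
  have h0 : κ ≠ 0 := by
    rintro rfl
    have h2 : L univ = 0 := measure_null_of_locally_null _ fun l _ => by
      obtain ⟨A, hA⟩ := GLiou_cover l
      exact ⟨xs A univ, mem_nhdsWithin_of_mem_nhds ((GLiou_open A isOpen_univ).mem_nhds hA),
        by rw [h1 A _ MeasurableSet.univ, zero_smul]⟩
    rw [hL _ MeasurableSet.univ] at h2
    exact GLiou_pos h2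
  refine ⟨κ⁻¹ • L, (hc.nnreal_smul _).fin, (hc.nnreal_smul _).smul, (hc.nnreal_smul _).rev,
    fun A I hI => by rw [Measure.smul_apply, h1 A I hI, inv_smul_smul₀ h0], fun v hv => ?_⟩
  have h2 : MeasurableSet {l | side l v = 0} :=
    (isClosed_eq (continuous_nrm.B' continuous_const) continuous_const).measurableSet
  let S : Submodule ℝ V :=
    { carrier := {w | B w v = 0}
      add_mem' := fun ha hb => by rw [mem_ofPred_eq, B_add_left, ha, hb, add_zero]
      zero_mem' := B_zero_left v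
      smul_mem' := fun c _ ha => by rw [mem_ofPred_eq, B_smul_left, ha, mul_zero] }
  have h3 : S ≠ ⊤ := fun h4 => hv (eq_of_B_eq fun w => by
    rw [B_zero_left, B_comm]
    exact (h4 ▸ Submodule.mem_top : w ∈ S))
  rw [Measure.smul_apply, hL _ h2, measure_mono_null _ (Measure.addHaar_submodule volume S h3),
    smul_zero]
  rintro _ ⟨l, hl, s, -, rfl⟩
  exact S.smul_mem _ hl

/-- The Liouville measure. -/
noncomputable def liou : Measure Geo := exists_liou.choose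

instance : IsFiniteMeasureOnCompacts liou := exists_liou.choose_spec.1
theorem liou_smul (g : Isom) : MeasurePreserving (fun l : Geo => g • l) liou liou :=
  exists_liou.choose_spec.2.1 g
theorem liou_rev : MeasurePreserving Geo.rev liou liou := exists_liou.choose_spec.2.2.1
theorem liou_xs (A : Geo) {I : Set ℝ} (hI : MeasurableSet I) : liou (xs A I) = volume I :=
  exists_liou.choose_spec.2.2.2.1 A I hI
theorem liou_side {v : V} (hv : v ≠ 0) : liou {l | side l v = 0} = 0 :=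
  exists_liou.choose_spec.2.2.2.2 v hv

theorem exists_liou_near (r : ℝ) : ∃ C : ℝ, 0 ≤ C ∧ ∀ (p : Pt) (E : Set Geo),
    (∀ l ∈ E, |side l p.1| ≤ r) → liou E ≤ ENNReal.ofReal C := by
  refine ⟨liou.real {l | |side l o.1| ≤ r}, measureReal_nonneg, fun p E hE => ?_⟩
  obtain ⟨g, rfl⟩ := exists_smul_o p
  have h := isCompact_lines o r
  rw [ofReal_measureReal h.measure_lt_top.ne,
    ← (liou_smul g⁻¹).measure_preimage h.measurableSet.nullMeasurableSet]
  refine measure_mono fun l hl => ?_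
  have := hE l hl
  rwa [← side_smul_pt g⁻¹, inv_smul_smul] at this

theorem ic_liou (g : Isom) : ic liou g = tl g := by
  rw [ic, measureReal_def, liou_xs _ measurableSet_Ico, Real.volume_Ico, sub_zero,
    ENNReal.toReal_ofReal (tl_nonneg g)]

variable {Γ : Type*} [Group Γ] {ρ σ : Γ →* Isom} {h : Circ ≃ₜ Circ} {μ : Measure Geo}

theorem cur_liou (ρ : Γ →* Isom) : Cur ρ liou := ⟨inferInstance, fun g => liou_smul (ρ g), liou_rev⟩

theorem GLiou_arc {g : Isom} (hg : Hyp g) {x : Circ} (hx : side (ax g) x.1 < 0) (ξ : Circ) :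
    ξ = x ∨ ξ ∈ arc x (g • x) ↔ side (ax g) ξ.1 < 0 ∧
      fer (ax g) ξ.1 ∈ Ico (fer (ax g) x.1) (fer (ax g) x.1 + tl g) := by
  have h1 := (side_smul_circ_neg g _ x).2 hx
  have h2 := fer_smul_circ g _ hx.ne
  rw [hg.smul_ax] at h1 h2
  rw [hg.sh_ax] at h2
  have h0 : 0 < tl g := hg
  have h3 := (ccw_iff_fer_right _ hx h1).2 (by linarith)
  rw [← h2]
  constructor
  · rintro (rfl | h)
    · exact ⟨hx, le_rfl, by linarith⟩
    · have h4 := (side_neg_iff _ _).2 (garc_nest h3 ((side_neg_iff _ _).1 h1) h)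
      exact ⟨h4, ((ccw_iff_fer_right _ hx h4).1 (h3.cyc.cyc.trans' (ccw.cyc h).cyc)).le,
        (ccw_iff_fer_right _ h4 h1).1 (h3.cyc.cyc.trans (ccw.cyc h).cyc).cyc⟩
  · rintro ⟨h4, h5, h6⟩
    rcases h5.eq_or_lt with h5 | h5
    · exact Or.inl (eq_of_fer_eq _ (mul_pos_of_neg_of_neg h4 hx) h5.symm)
    · exact Or.inr (((ccw_iff_fer_right _ hx h4).2 h5).trans' ((ccw_iff_fer_right _ h4 h1).2 h6))

theorem GLiou_meas (A : Geo) (x y : Circ) :
    MeasurableSet {l : Geo | (l.src = x ∨ l.src ∈ arc x y) ∧ 0 < side A l.tgt.1} :=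
  ((isClosed_eq Geo.continuous_src continuous_const).measurableSet.union
    ((isOpen_arc x y).preimage Geo.continuous_src).measurableSet).inter
    (isOpen_lt continuous_const (continuous_const.B' GFermi_ct)).measurableSet

/-- Another fundamental set for the lines crossing an axis. -/
theorem Cur.real_arc (hμ : Cur ρ μ) {g : Γ} (hg : Hyp (ρ g)) {x : Circ}
    (hx : side (ax (ρ g)) x.1 < 0) :
    μ {l | (l.src = x ∨ l.src ∈ arc x (ρ g • x)) ∧ 0 < side (ax (ρ g)) l.tgt.1} =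
      ENNReal.ofReal (ic μ (ρ g)) := by
  have h1 : ∀ (n : ℤ) (l : Geo), ρ (g ^ n) • l ∈
      {l : Geo | (l.src = x ∨ l.src ∈ arc x (ρ g • x)) ∧ 0 < side (ax (ρ g)) l.tgt.1} ↔
      l ∈ xs (ax (ρ g)) univ ∧ fer (ax (ρ g)) l.src.1 + n • tl (ρ g) ∈
        Ico (fer (ax (ρ g)) x.1) (fer (ax (ρ g)) x.1 + tl (ρ g)) := by
    intro n l
    have h2 := hg.zpow_smul_ax n
    have h3 := side_smul_circ_neg (ρ g ^ n) (ax (ρ g)) l.src
    have h4 := side_smul_circ_pos (ρ g ^ n) (ax (ρ g)) l.tgt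
    have h5 := fun h => fer_smul_circ (ρ g ^ n) (ax (ρ g)) (ξ := l.src) h
    rw [h2] at h3 h4 h5
    rw [mem_ofPred_eq, GLiou_arc hg hx, map_zpow, Geo.src_smul, Geo.tgt_smul, h3, h4, zsmul_eq_mul,
      ← hg.sh_zpow]
    exact ⟨fun h => ⟨⟨h.1.1, h.2, trivial⟩, h5 h.1.1.ne ▸ h.1.2⟩,
      fun h => ⟨⟨h.1.1, (h5 h.1.1.ne).symm ▸ h.2⟩, h.1.2.1⟩⟩
  rw [ic, ofReal_measureReal (hμ.xs_lt_top _ (Metric.isBounded_Ico _ _)).ne]
  refine measure_eq_of_zpow (fun n l => ρ (g ^ n) • l) (fun n => hμ.smul _) (fun l => by simp)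
    (fun m n l => by simp only [zpow_add, map_mul, mul_smul]) (GLiou_meas _ _ _)
    (measurableSet_xs _ measurableSet_Ico) (fun l hl => ?_) fun l hl => ?_
  · have hu := ((h1 0 l).1 (by simpa using hl)).1
    simp only [GCurI_mem hg, hu, true_and]
    simpa using existsUnique_add_zsmul_mem_Ico hg (xp (ax (ρ g)) l) 0
  · have hu := xs_mono _ (subset_univ _) hl
    simp only [h1, hu, true_and]
    exact existsUnique_add_zsmul_mem_Ico hg _ _

/-- A line crossing an axis has a neighbourhood whose mass is bounded by the intersection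
number. -/
theorem exists_nhds_le_ic {g : Γ} (hg : Hyp (ρ g)) {l : Geo} (hl : Cross l (ax (ρ g))) :
    ∃ O : Set Geo, IsOpen O ∧ l ∈ O ∧ ∀ μ, Cur ρ μ → μ O ≤ ENNReal.ofReal (ic μ (ρ g)) := by
  have h0 : 0 < tl (ρ g) := hg
  have h1 : ∀ l ∈ xs (ax (ρ g)) univ, ∃ O : Set Geo, IsOpen O ∧ l ∈ O ∧
      ∀ μ, Cur ρ μ → μ O ≤ ENNReal.ofReal (ic μ (ρ g)) := by
    intro l hl
    refine ⟨xs (ax (ρ g)) (Ioo (xp (ax (ρ g)) l - tl (ρ g) / 2)
      (xp (ax (ρ g)) l - tl (ρ g) / 2 + tl (ρ g))), GLiou_open _ isOpen_Ioo,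
      ⟨hl.1, hl.2.1, by linarith only [h0], by linarith⟩, fun μ hμ => ?_⟩
    rw [hμ.ic_eq hg (xp (ax (ρ g)) l - tl (ρ g) / 2),
      ofReal_measureReal (hμ.xs_lt_top _ (Metric.isBounded_Ico _ _)).ne]
    exact measure_mono (xs_mono _ Ioo_subset_Ico_self)
  rcases hl.symm.mem_xs with h | h
  · exact h1 l h
  · obtain ⟨O, h2, h3, h4⟩ := h1 _ h
    refine ⟨Geo.rev ⁻¹' O, h2.preimage Geo.continuous_rev, h3, fun μ hμ => ?_⟩
    rw [hμ.rev.measure_preimage h2.measurableSet.nullMeasurableSet]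
    exact h4 μ hμ

/-- The Liouville current of a marked structure. -/
noncomputable def pull (h : Circ ≃ₜ Circ) : Measure Geo := liou.map (Geo.map h.symm)

theorem GLiou_image (h : Circ ≃ₜ Circ) (E : Set Geo) : Geo.map h '' E = Geo.map h.symm ⁻¹' E :=
  congrFun (image_eq_preimage_of_inverse (Geo.map_symm_map h) (Geo.map_map_symm h)) E

theorem pull_apply (h : Circ ≃ₜ Circ) {E : Set Geo} (hE : MeasurableSet E) :
    pull h E = liou (Geo.map h '' E) := by
  rw [pull, Measure.map_apply (Geo.continuous_map _).measurable hE, GLiou_image]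

theorem pull_trans (h k : Circ ≃ₜ Circ) {E : Set Geo} (hE : MeasurableSet E) :
    pull (h.trans k) E = pull k (Geo.map h '' E) := by
  rw [pull_apply _ hE, pull_apply, image_image]
  · simp only [Geo.map_trans]
  · rw [GLiou_image]
    exact (Geo.continuous_map _).measurable hE

theorem IsMark.cur_pull (hm : IsMark ρ σ h) : Cur ρ (pull h) := by
  have h0 := (Geo.continuous_map h.symm).measurable
  refine ⟨⟨fun K hK => ?_⟩, fun g => ⟨measurable_smul_geo _, ?_⟩, measurable_rev, ?_⟩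
  · rw [pull_apply _ hK.measurableSet]
    exact (hK.image (Geo.continuous_map h)).measure_lt_top
  · rw [pull, Measure.map_map (measurable_smul_geo _) h0]
    conv_rhs => rw [← (liou_smul (σ g)).map_eq, Measure.map_map h0 (measurable_smul_geo _)]
    congr 1
    exact funext fun l => (hm.symm.map_smul g l).symm
  · rw [pull, Measure.map_map measurable_rev h0]
    conv_rhs => rw [← liou_rev.map_eq, Measure.map_map h0 measurable_rev]
    congr 1

theorem IsMark.ic_pull (hm : IsMark ρ σ h) (g : Γ) : ic (pull h) (ρ g) = tl (σ g) := by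
  by_cases hg : Hyp (ρ g)
  · obtain ⟨h1, h2⟩ := hm.hyp hg
    obtain ⟨x, hx, -⟩ := exists_circ_right (ax (ρ g)) 0
    have h3 := hm.cur_pull.real_arc hg hx
    have h4 := (cur_liou σ).real_arc h1 (x := h x) (by rw [h2]; exact (hm.ori.side_neg _ _).2 hx)
    rw [pull_apply _ (GLiou_meas _ _ _)] at h3
    rw [← ENNReal.ofReal_eq_ofReal_iff (ic_nonneg _ _) (tl_nonneg _), ← h3, ← ic_liou, ← h4]
    congr 1
    ext l
    obtain ⟨m, rfl⟩ : ∃ m : Geo, l = m.map h := ⟨_, (Geo.map_map_symm h l).symm⟩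
    rw [(Geo.map_injective h).mem_set_image, mem_ofPred_eq, mem_ofPred_eq, h2, Geo.tgt_map,
      hm.ori.side_pos, Geo.src_map, h.injective.eq_iff, ← hm.2, arc, arc, mem_ofPred_eq,
      mem_ofPred_eq, hm.ori.ccw_iff]
  · rw [GCurI_zero _ hg, ← ic_liou, GCurI_zero]
    rwa [hm.hyp_iff]

end HRT
end

-- merged part: Pool.Agent.Work.MP_35beee_gt.GBox
section
/-!
Liouville measure of boxes.

Plan. `box_near`: the diagonals `(a, c)` and `(b, d)` cross at a point `p`; move it to `o`. Then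
`c = -a`, `d = -b` in the first two coordinates. If `a · b ≥ 0`, a point `ξ` of the arc from `a` to
`b` and a point `η` of the arc from `c` to `d` have `ξ · η ≤ 0` (`cramer3`: `ξ` and `-η` are
nonnegative combinations of `a` and `b`), so `-B ξ η ≥ 1` and `|side l o| ≤ 1`. Otherwise do the
same for the other box. `side_le_of_cross`, `exists_side_le`: `circ_eq` (see the header of
`GCross`; `GStrip_side`, `proj_formula`).
`liou_quad`: with `X = fer A l.src`, `Y = fer A l.tgt`, `xp = (X + Y)/2`: the set is contained in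
`xs A [Y₀, X₀]` and two sets `X ≤ m ≤ Y`; conversely `xs A [Y₀, X₀]` is contained in the set and two
sets `Y ≤ m ≤ X`; use `side_le_of_cross`, `exists_liou_near`, `liou_xs`.
`liou_box_axis`: up to the null set of lines through an end of `A` (`liou_side`) the box is the
union of two sets of `liou_quad` (for `A`, and for `A.rev` after reversal) and of two sets of lines
with both ends on the same side (`exists_side_le`).
`liou_box_orbit`: hyperbolic case: `a` is on the right of the axis; lines ending on the left have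
mass at most `tl s` (`Cur.real_arc` for the group `Isom` and `MonoidHom.id`), the other ones are
handled by `exists_side_le` at `m = fer (s • a)`. Parabolic case: with the lift `(1, t ξ)` of
`Par.exists_isLift` compute; all lines of the box pass within a universal distance of the point
`p` on the line from `a` to `ξ` with `dist p (s • p) = 1` (move `ξ`, `a` to a standard position).
`exists_box_two`: `box_near` in the plane of `σ`; in the second case `p` is at bounded distance of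
`σ g • o` (`IsMark.inCore`), so the box is contained in the translate by `ρ g` of the compact
set `Geo.map h.symm '' {l | |side l o| ≤ r}`.
-/

namespace HRT

open Set Filter Topology Real MeasureTheory

/-- Lines from the arc `(a, b)` to the arc `(c, d)`. -/
def box (a b c d : Circ) : Set Geo := {l | l.src ∈ arc a b ∧ l.tgt ∈ arc c d}

theorem GBox_chart (s : Circ) : ∃ ψ : Circ → ℝ,
    (∀ x y, x ≠ s → y ≠ s → (ccw s x y ↔ ψ x < ψ y)) ∧
    ∀ x y z, x ≠ s → y ≠ s → z ≠ s → (ccw x y z ↔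
      (ψ x < ψ y ∧ ψ y < ψ z) ∨ (ψ y < ψ z ∧ ψ z < ψ x) ∨ (ψ z < ψ x ∧ ψ x < ψ y)) := by
  classical
  obtain ⟨φ, -, h2, -, h4, h5, -⟩ := garc_chart s
  refine ⟨fun x => if h : x ≠ s then (h2 x h).choose else 0, fun x y hx hy => ?_,
    fun x y z hx hy hz => ?_⟩
  · simp only [dif_pos hx, dif_pos hy]
    rw [← h4, (h2 x hx).choose_spec, (h2 y hy).choose_spec]
  · simp only [dif_pos hx, dif_pos hy, dif_pos hz]
    rw [← h5, (h2 x hx).choose_spec, (h2 y hy).choose_spec, (h2 z hz).choose_spec]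

theorem GBox_ne {A : Geo} {ξ : Circ} (h : side A ξ.1 ≠ 0) : ξ ≠ A.src := fun e =>
  h ((side_eq_zero_iff A ξ).2 (Or.inl e))

theorem GBox_arc1 {A : Geo} {a b ξ : Circ} (ha : 0 < side A a.1) (hb : side A b.1 < 0)
    (hξ : side A ξ.1 ≠ 0) : ccw a ξ b ↔
      (0 < side A ξ.1 ∧ fer A ξ.1 < fer A a.1) ∨ (side A ξ.1 < 0 ∧ fer A ξ.1 < fer A b.1) := by
  obtain ⟨ψ, h1, h2⟩ := GBox_chart A.src
  have na := GBox_ne ha.ne'
  have nb := GBox_ne hb.ne
  have nξ := GBox_ne hξ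
  have nt := A.ne.symm
  have e1 := (h1 _ _ nt na).1 ((side_pos_iff A a).1 ha)
  have e2 := (h1 _ _ nb nt).1 ((side_neg_iff A b).1 hb)
  rw [h2 _ _ _ na nξ nb]
  rcases lt_or_gt_of_ne hξ with h | h
  · have e3 := (h1 _ _ nξ nt).1 ((side_neg_iff A ξ).1 h)
    rw [← ccw_iff_fer_right A h hb, h1 _ _ nξ nb]
    constructor
    · rintro (h' | h' | h')
      · linarith [h'.1]
      · exact Or.inr ⟨h, h'.1⟩
      · linarith [h'.2]
    · rintro (h' | h')
      · linarith [h'.1]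
      · exact Or.inr (Or.inl ⟨h'.2, by linarith⟩)
  · have e3 := (h1 _ _ nt nξ).1 ((side_pos_iff A ξ).1 h)
    rw [← ccw_iff_fer_left A ha h, h1 _ _ na nξ]
    constructor
    · rintro (h' | h' | h')
      · exact Or.inl ⟨h, h'.1⟩
      · linarith [h'.1]
      · exact Or.inl ⟨h, h'.2⟩
    · rintro (h' | h')
      · exact Or.inr (Or.inr ⟨by linarith, h'.2⟩)
      · linarith [h'.1]

theorem GBox_arc2 {A : Geo} {c d η : Circ} (hc : side A c.1 < 0) (hd : 0 < side A d.1)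
    (hη : side A η.1 ≠ 0) : ccw c η d ↔
      (side A η.1 < 0 ∧ fer A c.1 < fer A η.1) ∨ (0 < side A η.1 ∧ fer A d.1 < fer A η.1) := by
  have h := GBox_arc1 (A := A.rev) (a := c) (b := d) (ξ := η) (by simpa using hc)
    (by simpa using hd) (by simpa using hη)
  rw [GStrip_fer_rev hη, GStrip_fer_rev hc.ne, GStrip_fer_rev hd.ne'] at h
  simpa using h

theorem GBox_key {A l : Geo} (h1 : side A l.src.1 ≠ 0) (h2 : side A l.tgt.1 ≠ 0) {m : ℝ}
    (hm : m ∈ uIcc (fer A l.src.1) (fer A l.tgt.1)) :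
    (1 + side l (pt A m).1 ^ 2) * (|side A l.src.1| * |side A l.tgt.1| *
      cosh (fer A l.src.1 - fer A l.tgt.1) - side A l.src.1 * side A l.tgt.1) ≤
      2 * (|side A l.src.1| * |side A l.tgt.1| * cosh (fer A l.src.1 - fer A l.tgt.1)) := by
  have e1 := circ_eq A h1
  have e2 := circ_eq A h2
  have g := GStrip_gram l (pt A m)
  generalize side A l.src.1 = a at e1 ⊢
  generalize side A l.tgt.1 = b at e2 ⊢
  generalize fer A l.src.1 = X at e1 hm ⊢
  generalize fer A l.tgt.1 = Y at e2 hm ⊢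
  rw [e1, e2] at g
  simp only [B_add_left, B_add_right, B_smul_left, B_smul_right, GStrip_B_pt, GStrip_B_nrm,
    GStrip_B_nrm', B_nrm_nrm] at g
  have c1 : 2 * (cosh (X - m) * cosh (Y - m)) = cosh (X - Y) + cosh (X + Y - 2 * m) := by
    rw [show X - Y = (X - m) - (Y - m) by ring, show X + Y - 2 * m = (X - m) + (Y - m) by ring,
      cosh_sub (X - m), cosh_add (X - m)]
    ring
  have c2 : cosh (X + Y - 2 * m) ≤ cosh (X - Y) := by
    rw [cosh_le_cosh, abs_le]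
    rcases mem_uIcc.1 hm with h | h
    · constructor <;> linarith only [h, neg_abs_le (X - Y), h.1, h.2]
    · constructor <;> linarith only [h, le_abs_self (X - Y), h.1, h.2]
  have p : 0 ≤ |a| * |b| := by positivity
  have c3 := mul_le_mul_of_nonneg_left c2 p
  linear_combination (-1 : ℝ) * g + (|a| * |b|) * c1 + c3

theorem GBox_cross {A l : Geo} (h : Cross A l) {m : ℝ}
    (hm : m ∈ uIcc (fer A l.src.1) (fer A l.tgt.1)) : |side l (pt A m).1| ≤ 1 := by
  have k := GBox_key (GStrip_src h) (GStrip_tgt h) hm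
  have h0 : side A l.src.1 * side A l.tgt.1 < 0 := h
  rw [← abs_mul, abs_of_neg h0] at k
  have c := one_le_cosh (fer A l.src.1 - fer A l.tgt.1)
  generalize side A l.src.1 * side A l.tgt.1 = q at k h0
  generalize cosh (fer A l.src.1 - fer A l.tgt.1) = C at k c
  rw [← sq_le_one_iff_abs_le_one]
  by_contra hc
  have a1 : 0 < -q * C := mul_pos (by linarith) (by linarith)
  have a2 := mul_pos (sub_pos.2 (not_le.1 hc)) (show 0 < -q * C - q by linarith)
  linarith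

theorem isOpen_box (a b c d : Circ) : IsOpen (box a b c d) :=
  ((isOpen_arc a b).preimage Geo.continuous_src).inter
    ((isOpen_arc c d).preimage Geo.continuous_tgt)

theorem Ori.image_box {h : Circ ≃ₜ Circ} (hh : Ori h) (a b c d : Circ) :
    Geo.map h '' box a b c d = box (h a) (h b) (h c) (h d) := by
  ext l
  constructor
  · rintro ⟨m, hm, rfl⟩
    exact ⟨hh _ _ _ hm.1, hh _ _ _ hm.2⟩
  · intro hl
    refine ⟨l.map h.symm, ⟨(hh.ccw_iff _ _ _).1 ?_, (hh.ccw_iff _ _ _).1 ?_⟩, Geo.map_map_symm h l⟩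
    · simpa [arc] using hl.1
    · simpa [arc] using hl.2

theorem GBox_four {P Q R S : Circ} (h1 : ccw P Q R) (h2 : ccw R S P) : ∃ a b c d : Circ,
    ccw a b c ∧ ccw a c d ∧ ccw a P b ∧ ccw c R d ∧ ccw b Q c ∧ ccw d S a := by
  obtain ⟨a, ha⟩ := arc_nonempty h2.ne23
  have ha' : ccw S a P := ha
  obtain ⟨φ, -, f2, -, f4, f5, -⟩ := garc_chart a
  obtain ⟨p, rfl⟩ := f2 P ha'.ne23.symm
  obtain ⟨s, rfl⟩ := f2 S ha'.ne12
  obtain ⟨r, rfl⟩ := f2 R fun e => h2.cyc.asymm (e ▸ ha')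
  obtain ⟨q, rfl⟩ := f2 Q fun e => (h1.trans h2.cyc.cyc).cyc.cyc.asymm (e ▸ ha')
  have e0 := (f4 _ _).1 ha'.cyc
  have e1 := (f5 _ _ _).1 h1
  have e2 := (f5 _ _ _).1 h2
  have e3 : p < r ∧ r < s := by
    rcases e2 with h | h | h
    · linarith [h.2]
    · linarith [h.1]
    · exact h
  have e4 : p < q ∧ q < r := by
    rcases e1 with h | h | h
    · exact h
    · linarith [h.2, e3.1]
    · linarith [h.1, e3.1]
  obtain ⟨e5, e6⟩ := e3
  obtain ⟨e7, e8⟩ := e4
  exact ⟨a, φ ((p + q) / 2), φ ((q + r) / 2), φ ((r + s) / 2), (f4 _ _).2 (by linarith),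
    (f4 _ _).2 (by linarith), (f4 _ _).2 (by linarith),
    (f5 _ _ _).2 (Or.inl ⟨by linarith, by linarith⟩), (f5 _ _ _).2 (Or.inl ⟨by linarith, by linarith⟩),
    ((f4 _ _).2 (by linarith)).cyc⟩

theorem exists_box_of_cross {l m : Geo} (h : Cross l m) : ∃ a b c d : Circ, ccw a b c ∧ ccw a c d ∧
    l ∈ box a b c d ∧ (m ∈ box b c d a ∨ m.rev ∈ box b c d a) := by
  rcases (cross_iff_ccw l m).1 h with ⟨h1, h2⟩ | ⟨h1, h2⟩
  · obtain ⟨a, b, c, d, e1, e2, e3, e4, e5, e6⟩ := GBox_four h1 h2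
    exact ⟨a, b, c, d, e1, e2, ⟨e3, e4⟩, Or.inl ⟨e5, e6⟩⟩
  · obtain ⟨a, b, c, d, e1, e2, e3, e4, e5, e6⟩ := GBox_four h1 h2
    exact ⟨a, b, c, d, e1, e2, ⟨e3, e4⟩, Or.inr ⟨e5, e6⟩⟩

theorem box_near {a b c d : Circ} (h1 : ccw a b c) (h2 : ccw a c d) : ∃ p : Pt,
    (∀ l ∈ box a b c d, |side l p.1| ≤ 1) ∨ ∀ l ∈ box b c d a, |side l p.1| ≤ 1 := by
  set A := Geo.mk' a c h1.ne13 with hA
  have hb : side A b.1 < 0 := (side_neg_iff A b).2 h1
  have hd : 0 < side A d.1 := (side_pos_iff A d).2 h2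
  refine ⟨pt A (fer A b.1), ?_⟩
  rcases le_total (fer A b.1) (fer A d.1) with h | h
  · refine Or.inl fun l hl => ?_
    have e1 : ccw a l.src b := hl.1
    have e2 : ccw c l.tgt d := hl.2
    have s1 : side A l.src.1 < 0 := (side_neg_iff A _).2 (e1.trans h1)
    have s2 : 0 < side A l.tgt.1 := (side_pos_iff A _).2 (e2.trans h2.cyc).cyc.cyc
    have f1 := (ccw_iff_fer_right A s1 hb).1 e1
    have f2 := (ccw_iff_fer_left A s2 hd).1 (e2.trans' h2.cyc).cyc.cyc
    exact GBox_cross (mul_neg_of_neg_of_pos s1 s2) (mem_uIcc.2 (Or.inl ⟨f1.le, by linarith⟩))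
  · refine Or.inr fun l hl => ?_
    have e1 : ccw b l.src c := hl.1
    have e2 : ccw d l.tgt a := hl.2
    have s1 : side A l.src.1 < 0 := (side_neg_iff A _).2 (e1.trans' h1.cyc).cyc.cyc
    have s2 : 0 < side A l.tgt.1 := (side_pos_iff A _).2 (h2.trans e2.cyc.cyc)
    have f1 := (ccw_iff_fer_right A hb s1).1 (e1.trans h1.cyc).cyc.cyc
    have f2 := (ccw_iff_fer_left A hd s2).1 e2.cyc.cyc
    exact GBox_cross (mul_neg_of_neg_of_pos s1 s2) (mem_uIcc.2 (Or.inr ⟨by linarith, f1.le⟩))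

theorem side_le_of_cross {A l : Geo} (h : Cross A l) {m : ℝ}
    (hm : m ∈ uIcc (fer A l.src.1) (fer A l.tgt.1)) : |side l (pt A m).1| ≤ 1 :=
  GBox_cross h hm

theorem exists_side_le {ε : ℝ} (hε : 0 < ε) : ∃ r : ℝ, ∀ (A l : Geo) (m : ℝ),
    side A l.src.1 ≠ 0 → side A l.tgt.1 ≠ 0 → m ∈ uIcc (fer A l.src.1) (fer A l.tgt.1) →
      ε ≤ |fer A l.src.1 - fer A l.tgt.1| → |side l (pt A m).1| ≤ r := by
  have h0 : 0 < cosh ε - 1 := sub_pos.2 (one_lt_cosh.2 hε.ne')
  refine ⟨1 + 2 / (cosh ε - 1), fun A l m h1 h2 hm hle => ?_⟩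
  have k := GBox_key h1 h2 hm
  have c : cosh ε ≤ cosh (fer A l.src.1 - fer A l.tgt.1) :=
    cosh_le_cosh.2 (by rwa [abs_of_pos hε])
  have p : 0 < |side A l.src.1| * |side A l.tgt.1| := mul_pos (abs_pos.2 h1) (abs_pos.2 h2)
  have q : side A l.src.1 * side A l.tgt.1 ≤ |side A l.src.1| * |side A l.tgt.1| := by
    rw [← abs_mul]
    exact le_abs_self _
  generalize |side A l.src.1| * |side A l.tgt.1| = P at k p q
  generalize side A l.src.1 * side A l.tgt.1 = Q at k q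
  generalize cosh (fer A l.src.1 - fer A l.tgt.1) = C at k c
  generalize side l (pt A m).1 = σ at k ⊢
  have a1 := mul_le_mul_of_nonneg_left q (show 0 ≤ 1 + σ ^ 2 by positivity)
  have a2 : P * ((σ ^ 2 - 1) * (C - 1)) ≤ P * 2 := by linarith
  have a3 := le_of_mul_le_mul_left a2 p
  have a4 : 0 < 2 / (cosh ε - 1) := by positivity
  by_cases hσ : |σ| ≤ 1
  · linarith only [a4, hσ]
  · have b1 : 1 < |σ| := not_le.1 hσ
    have b2 : |σ| ≤ σ ^ 2 := by
      rw [← sq_abs, sq]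
      exact le_mul_of_one_le_left (abs_nonneg _) b1.le
    have b3 := mul_le_mul_of_nonneg_left (sub_le_sub_right c 1) (show 0 ≤ σ ^ 2 - 1 by linarith)
    have b4 : σ ^ 2 - 1 ≤ 2 / (cosh ε - 1) := by
      rw [le_div_iff₀ h0]
      linarith
    linarith only [b2, b4]

theorem GBox_real {x : ENNReal} {y C : ℝ} (hy : 0 ≤ y) (hC : 0 ≤ C)
    (h1 : x ≤ ENNReal.ofReal y + ENNReal.ofReal C) (h2 : ENNReal.ofReal y ≤ x + ENNReal.ofReal C) :
    x ≠ ⊤ ∧ |x.toReal - y| ≤ C := by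
  have hx : x ≠ ⊤ := ne_top_of_le_ne_top (by finiteness) h1
  refine ⟨hx, ?_⟩
  lift x to NNReal using hx
  rw [← ENNReal.ofReal_add hy hC] at h1
  rw [← ENNReal.ofReal_coe_nnreal, ← ENNReal.ofReal_add x.coe_nonneg hC,
    ENNReal.ofReal_le_ofReal_iff (add_nonneg x.coe_nonneg hC)] at h2
  have h3 := ENNReal.toReal_le_of_le_ofReal (add_nonneg hy hC) h1
  rw [ENNReal.coe_toReal] at h3 ⊢
  rw [abs_le]
  constructor <;> linarith

theorem GBox_Icc (A : Geo) (u v : ℝ) : liou (xs A (Icc u v)) = ENNReal.ofReal (max (v - u) 0) := by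
  rw [liou_xs A measurableSet_Icc, volume_Icc, ENNReal.ofReal_max, ENNReal.ofReal_zero,
    max_eq_left zero_le]

theorem GBox_two {r C : ℝ} (hC : 0 ≤ C) (h : ∀ (p : Pt) (E : Set Geo),
    (∀ l ∈ E, |side l p.1| ≤ r) → liou E ≤ ENNReal.ofReal C) (p q : Pt) :
    liou {l | |side l p.1| ≤ r ∨ |side l q.1| ≤ r} ≤ ENNReal.ofReal (2 * C) := by
  rw [two_mul, ENNReal.ofReal_add hC hC]
  exact (measure_union_le {l | |side l p.1| ≤ r} {l | |side l q.1| ≤ r}).trans
    (add_le_add (h p _ fun _ hl => hl) (h q _ fun _ hl => hl))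

theorem GBox_null (A : Geo) : liou {l | side A l.src.1 = 0 ∨ side A l.tgt.1 = 0} = 0 := by
  have h : ∀ ξ : Circ, ξ.1 ≠ 0 := fun ξ e => by simpa [e] using ξ.2.2
  refine measure_mono_null (fun l hl => ?_)
    (measure_union_null (liou_side (h A.src)) (liou_side (h A.tgt)))
  rcases hl with hl | hl <;> rcases (side_eq_zero_iff A _).1 hl with e | e
  · exact Or.inl (e ▸ side_src l)
  · exact Or.inr (e ▸ side_src l)
  · exact Or.inl (e ▸ side_tgt l)
  · exact Or.inr (e ▸ side_tgt l)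

/-- A radius that works in both cases. -/
theorem GBox_rad {ε : ℝ} (hε : 0 < ε) : ∃ r : ℝ, ∀ (A l : Geo) (m : ℝ),
    side A l.src.1 ≠ 0 → side A l.tgt.1 ≠ 0 →
    ((fer A l.src.1 ≤ m ∧ m ≤ fer A l.tgt.1) ∨ (fer A l.tgt.1 ≤ m ∧ m ≤ fer A l.src.1)) →
      (Cross A l ∨ fer A l.src.1 + ε ≤ fer A l.tgt.1 ∨ fer A l.tgt.1 + ε ≤ fer A l.src.1) →
        |side l (pt A m).1| ≤ r := by
  obtain ⟨r, hr⟩ := exists_side_le hε
  refine ⟨max r 1, fun A l m h1 h2 hm h => ?_⟩
  rcases h with h | h | h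
  · exact (GBox_cross h (mem_uIcc.2 hm)).trans (le_max_right _ _)
  · exact (hr A l m h1 h2 (mem_uIcc.2 hm) (le_abs.2 (Or.inr (by linarith)))).trans (le_max_left _ _)
  · exact (hr A l m h1 h2 (mem_uIcc.2 hm) (le_abs.2 (Or.inl (by linarith)))).trans (le_max_left _ _)

theorem liou_quad : ∃ C : ℝ, 0 ≤ C ∧ ∀ (A : Geo) (X₀ Y₀ : ℝ),
    liou {l ∈ xs A univ | fer A l.src.1 < X₀ ∧ Y₀ < fer A l.tgt.1} ≠ ⊤ ∧
    |liou.real {l ∈ xs A univ | fer A l.src.1 < X₀ ∧ Y₀ < fer A l.tgt.1} - max (X₀ - Y₀) 0| ≤ C := by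
  obtain ⟨C, hC, hN⟩ := exists_liou_near 1
  refine ⟨2 * C, by positivity, fun A X₀ Y₀ => ?_⟩
  have hT := GBox_two hC hN (pt A X₀) (pt A Y₀)
  refine GBox_real (le_max_right _ _) (by positivity) ?_ ?_
  · rw [← GBox_Icc A]
    refine le_trans (measure_mono fun l hl => ?_) ((measure_union_le _ _).trans (add_le_add le_rfl hT))
    obtain ⟨h1, h2, h3⟩ := hl
    have hx : xp A l = (fer A l.src.1 + fer A l.tgt.1) / 2 := rfl
    by_cases a1 : Y₀ ≤ xp A l
    · by_cases a2 : xp A l ≤ X₀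
      · exact Or.inl ⟨h1.1, h1.2.1, a1, a2⟩
      · exact Or.inr (Or.inl (GBox_cross (xs_cross h1)
          (mem_uIcc.2 (Or.inl ⟨h2.le, by linarith only [h2, hx, a2, not_le.1 a2]⟩))))
    · exact Or.inr (Or.inr (GBox_cross (xs_cross h1)
        (mem_uIcc.2 (Or.inl ⟨by linarith [not_le.1 a1], h3.le⟩))))
  · rw [← GBox_Icc A]
    refine le_trans (measure_mono fun l hl => ?_) ((measure_union_le _ _).trans (add_le_add le_rfl hT))
    have hx : xp A l = (fer A l.src.1 + fer A l.tgt.1) / 2 := rfl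
    obtain ⟨a1, a2⟩ := hl.2.2
    by_cases h2 : fer A l.src.1 < X₀
    · by_cases h3 : Y₀ < fer A l.tgt.1
      · exact Or.inl ⟨⟨hl.1, hl.2.1, mem_univ _⟩, h2, h3⟩
      · exact Or.inr (Or.inr (GBox_cross (xs_cross hl)
          (mem_uIcc.2 (Or.inr ⟨not_lt.1 h3, by linarith only [hx, a1, h3, not_lt.1 h3]⟩))))
    · exact Or.inr (Or.inl (GBox_cross (xs_cross hl)
        (mem_uIcc.2 (Or.inr ⟨by linarith [not_lt.1 h2], not_lt.1 h2⟩))))

theorem liou_box_axis {ε : ℝ} (hε : 0 < ε) : ∃ C : ℝ, 0 ≤ C ∧ ∀ (A : Geo) (a b c d : Circ),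
    0 < side A a.1 → side A b.1 < 0 → side A c.1 < 0 → 0 < side A d.1 →
      fer A b.1 + ε ≤ fer A c.1 → fer A a.1 + ε ≤ fer A d.1 → liou (box a b c d) ≠ ⊤ ∧
        |liou.real (box a b c d) -
          (max (fer A b.1 - fer A d.1) 0 + max (fer A a.1 - fer A c.1) 0)| ≤ C := by
  obtain ⟨r, hr⟩ := GBox_rad hε
  obtain ⟨C, hC, hN⟩ := exists_liou_near r
  refine ⟨2 * C + 2 * C, by positivity, fun A a b c d ha hb hc hd hbc had => ?_⟩
  set S : Set Geo := xs A (Icc (fer A d.1) (fer A b.1)) ∪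
    Geo.rev ⁻¹' xs A (Icc (fer A c.1) (fer A a.1)) with hS
  set N : Set Geo :=
    ({l | |side l (pt A (fer A a.1)).1| ≤ r ∨ |side l (pt A (fer A b.1)).1| ≤ r} ∪
      {l | |side l (pt A (fer A c.1)).1| ≤ r ∨ |side l (pt A (fer A d.1)).1| ≤ r}) ∪
      {l | side A l.src.1 = 0 ∨ side A l.tgt.1 = 0} with hNd
  have mS : liou S = ENNReal.ofReal
      (max (fer A b.1 - fer A d.1) 0 + max (fer A a.1 - fer A c.1) 0) := by
    rw [hS, measure_union _ (measurable_rev (measurableSet_xs A measurableSet_Icc)),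
      liou_rev.measure_preimage (measurableSet_xs A measurableSet_Icc).nullMeasurableSet,
      GBox_Icc, GBox_Icc, ENNReal.ofReal_add (le_max_right _ _) (le_max_right _ _)]
    exact disjoint_left.2 fun l h1 h2 => lt_asymm h1.1 h2.2.1
  have mN : liou N ≤ ENNReal.ofReal (2 * C + 2 * C) := by
    refine (measure_union_le _ _).trans ?_
    rw [GBox_null, add_zero, ENNReal.ofReal_add (by positivity) (by positivity)]
    exact (measure_union_le _ _).trans (add_le_add (GBox_two hC hN _ _) (GBox_two hC hN _ _))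
  refine GBox_real (by positivity) (by positivity) ?_ ?_
  · rw [← mS]
    refine le_trans (measure_mono fun l hl => ?_) ((measure_union_le S N).trans (add_le_add le_rfl mN))
    by_cases h0 : side A l.src.1 = 0 ∨ side A l.tgt.1 = 0
    · exact Or.inr (Or.inr h0)
    obtain ⟨h1, h2⟩ := not_or.1 h0
    have hr' := fun m => hr A l m h1 h2
    rcases (GBox_arc1 ha hb h1).1 hl.1 with ⟨s1, f1⟩ | ⟨s1, f1⟩ <;>
      rcases (GBox_arc2 hc hd h2).1 hl.2 with ⟨s2, f2⟩ | ⟨s2, f2⟩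
    · have hx : xp A l.rev = (fer A l.tgt.1 + fer A l.src.1) / 2 := rfl
      have hcr : Cross A l := mul_neg_of_pos_of_neg s1 s2
      by_cases a1 : fer A c.1 ≤ xp A l.rev
      · by_cases a2 : xp A l.rev ≤ fer A a.1
        · exact Or.inl (Or.inr ⟨s2, s1, a1, a2⟩)
        · exact Or.inr (Or.inl (Or.inl (Or.inl
            (hr' _ (Or.inl ⟨f1.le, by linarith only [f1, hx, a2, not_le.1 a2]⟩) (Or.inl hcr)))))
      · exact Or.inr (Or.inl (Or.inr (Or.inl
          (hr' _ (Or.inl ⟨by linarith only [f2, hx, a1, not_le.1 a1], f2.le⟩) (Or.inl hcr)))))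
    · exact Or.inr (Or.inl (Or.inl (Or.inl
        (hr' _ (Or.inl ⟨f1.le, by linarith⟩) (Or.inr (Or.inl (by linarith)))))))
    · exact Or.inr (Or.inl (Or.inl (Or.inr
        (hr' _ (Or.inl ⟨f1.le, by linarith⟩) (Or.inr (Or.inl (by linarith)))))))
    · have hx : xp A l = (fer A l.src.1 + fer A l.tgt.1) / 2 := rfl
      have hcr : Cross A l := mul_neg_of_neg_of_pos s1 s2
      by_cases a1 : fer A d.1 ≤ xp A l
      · by_cases a2 : xp A l ≤ fer A b.1
        · exact Or.inl (Or.inl ⟨s1, s2, a1, a2⟩)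
        · exact Or.inr (Or.inl (Or.inl (Or.inr
            (hr' _ (Or.inl ⟨f1.le, by linarith only [f1, hx, a2, not_le.1 a2]⟩) (Or.inl hcr)))))
      · exact Or.inr (Or.inl (Or.inr (Or.inr
          (hr' _ (Or.inl ⟨by linarith [not_le.1 a1], f2.le⟩) (Or.inl hcr)))))
  · rw [← mS]
    refine le_trans (measure_mono fun l hl => ?_)
      ((measure_union_le _ N).trans (add_le_add le_rfl mN))
    rcases hl with ⟨s1, s2, a1, a2⟩ | ⟨s2, s1, a1, a2⟩
    · have hx : xp A l = (fer A l.src.1 + fer A l.tgt.1) / 2 := rfl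
      have hr' := fun m h => hr A l m s1.ne s2.ne' h (Or.inl (mul_neg_of_neg_of_pos s1 s2))
      by_cases f1 : fer A l.src.1 < fer A b.1
      · by_cases f2 : fer A d.1 < fer A l.tgt.1
        · exact Or.inl ⟨(GBox_arc1 ha hb s1.ne).2 (Or.inr ⟨s1, f1⟩),
            (GBox_arc2 hc hd s2.ne').2 (Or.inr ⟨s2, f2⟩)⟩
        · exact Or.inr (Or.inl (Or.inr (Or.inr
            (hr' _ (Or.inr ⟨not_lt.1 f2, by linarith only [a1, hx, f2, not_lt.1 f2]⟩)))))
      · exact Or.inr (Or.inl (Or.inl (Or.inr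
          (hr' _ (Or.inr ⟨by linarith only [a2, hx, f1, not_lt.1 f1], not_lt.1 f1⟩)))))
    · have hx : xp A l.rev = (fer A l.tgt.1 + fer A l.src.1) / 2 := rfl
      have s1' : 0 < side A l.src.1 := s1
      have s2' : side A l.tgt.1 < 0 := s2
      have hr' := fun m h => hr A l m s1'.ne' s2'.ne h (Or.inl (mul_neg_of_pos_of_neg s1' s2'))
      by_cases f1 : fer A l.src.1 < fer A a.1
      · by_cases f2 : fer A c.1 < fer A l.tgt.1
        · exact Or.inl ⟨(GBox_arc1 ha hb s1'.ne').2 (Or.inl ⟨s1', f1⟩),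
            (GBox_arc2 hc hd s2'.ne).2 (Or.inl ⟨s2', f2⟩)⟩
        · exact Or.inr (Or.inl (Or.inr (Or.inl
            (hr' _ (Or.inr ⟨not_lt.1 f2, by linarith only [a1, hx, f2, not_lt.1 f2]⟩)))))
      · exact Or.inr (Or.inl (Or.inl (Or.inl
          (hr' _ (Or.inr ⟨by linarith only [a2, hx, f1, not_lt.1 f1], not_lt.1 f1⟩)))))

theorem GBox_null_fer {g : Isom} {A : Geo} {t : ℝ}
    (hg : IsLift g 1 (t • A.tgt.1)) : fer A (g • A.src).1 = log (-2 * t ^ 2 * B A.src.1 A.tgt.1) / 2 ∧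
      ∃ k > 0, side A (g • A.src).1 = -(k * t) := by
  have hB := A.B_neg
  have hp := lin_circ_pos g A.src
  have e := GDyn_null_lin hg A.src.1
  have e1 : B (cr A.tgt.1 A.src.1) A.src.1 = 0 := B_cr_right _ _
  have e2 : B (cr A.tgt.1 A.src.1) A.tgt.1 = 0 := B_cr_left _ _
  have e3 : side A (cr A.tgt.1 A.src.1) = B A.src.1 A.tgt.1 := by
    rw [side, nrm, B_smul_left, B_cr_cr, A.src.2.1, A.tgt.2.1, B_comm A.tgt.1 A.src.1]
    field_simp [hB.ne]
    ring
  constructor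
  · rw [smul_circ_val, fer_smul A (inv_pos.2 hp).ne', e, fer]
    simp only [B_add_left, B_sub_left, B_smul_left, e1, e2, A.src.2.1, A.tgt.2.1,
      B_comm A.tgt.1 A.src.1]
    congr 2
    field_simp [hB.ne]
    ring
  · refine ⟨(lin g A.src.1 2)⁻¹ * (2 * -B A.src.1 A.tgt.1), mul_pos (inv_pos.2 hp) (by linarith), ?_⟩
    have e4 : side A (lin g A.src.1) = 2 * t * B A.src.1 A.tgt.1 := by
      have s1 := side_src A
      have s2 := side_tgt A
      rw [e]
      simp only [side, B_add_right, B_sub_right, B_smul_right] at s1 s2 e3 ⊢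
      rw [s1, s2, e3]
      ring
    rw [smul_circ_val, side, B_smul_right, ← side, e4]
    ring

theorem GBox_par {r : ℝ} (hr : ∀ (A l : Geo) (m : ℝ), side A l.src.1 ≠ 0 → side A l.tgt.1 ≠ 0 →
    ((fer A l.src.1 ≤ m ∧ m ≤ fer A l.tgt.1) ∨ (fer A l.tgt.1 ≤ m ∧ m ≤ fer A l.src.1)) →
      (Cross A l ∨ fer A l.src.1 + log 2 ≤ fer A l.tgt.1 ∨ fer A l.tgt.1 + log 2 ≤ fer A l.src.1) →
        |side l (pt A m).1| ≤ r) {s : Isom} {a : Circ} (hs : Par s)
    (h : ccw a (s • a) (s • s • a)) : ∃ (A : Geo) (p : Pt),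
      ∀ l ∈ box a (s • a) (s • s • a) (s⁻¹ • a),
        |side l p.1| ≤ r ∨ side A l.src.1 = 0 ∨ side A l.tgt.1 = 0 := by
  have hne : a ≠ pfix s := fun e => h.ne12 ((hs.fix_iff a).2 e).symm
  obtain ⟨t, ht, hl⟩ := hs.exists_isLift
  obtain ⟨A, rfl, hA⟩ : ∃ A : Geo, A.src = a ∧ A.tgt = pfix s := ⟨Geo.mk' a _ hne, rfl, rfl⟩
  rw [← hA] at hl
  have hB := A.B_neg
  obtain ⟨f1, k1, hk1, s1⟩ := GBox_null_fer hl
  obtain ⟨f2, k2, hk2, s2⟩ := GBox_null_fer (GDyn_null_mul hl hl)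
  obtain ⟨f3, k3, hk3, s3⟩ := GBox_null_fer (g := s⁻¹) (t := -t) (A := A)
    (by rw [neg_smul]; exact hl.inv)
  rw [mul_smul] at f2 s2
  have hpos : 0 < -2 * t ^ 2 * B A.src.1 A.tgt.1 :=
    mul_pos_of_neg_of_neg (by have := sq_pos_of_ne_zero ht; linarith only [this]) hB
  have f2' : fer A (s • s • A.src).1 = fer A (s • A.src).1 + log 2 := by
    rw [f1, f2, show -2 * (t + t) ^ 2 * B A.src.1 A.tgt.1 =
      2 ^ 2 * (-2 * t ^ 2 * B A.src.1 A.tgt.1) by ring, log_mul (by norm_num) hpos.ne', log_pow]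
    push_cast
    ring
  have f3' : fer A (s⁻¹ • A.src).1 = fer A (s • A.src).1 := by rw [f1, f3, neg_sq]
  have hl2 : 0 < log 2 := log_pos one_lt_two
  have ht0 : 0 < t := by
    by_contra hn
    have ht1 : t < 0 := lt_of_le_of_ne (not_lt.1 hn) ht
    have := (ccw_iff_fer_left A (by rw [s1]; linarith only [hk1, ht1, mul_pos_of_neg_of_neg (Mathlib.Tactic.Linarith.sub_neg_of_lt hk1) (Mathlib.Tactic.Linarith.sub_neg_of_lt ht1)]) (by rw [s2]; linarith only [hk2, ht1, mul_pos_of_neg_of_neg (Mathlib.Tactic.Linarith.sub_neg_of_lt hk2) (Mathlib.Tactic.Linarith.sub_neg_of_lt ht1)])).1 h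
    linarith only [f2', hl2, this]
  have r1 : side A (s • A.src).1 < 0 := by rw [s1]; linarith only [hk1, ht0, mul_pos_of_neg_of_neg (Mathlib.Tactic.Linarith.sub_neg_of_lt hk1) (Mathlib.Tactic.Linarith.sub_neg_of_lt ht0)]
  have r2 : side A (s • s • A.src).1 < 0 := by rw [s2]; linarith only [hk2, ht0, mul_pos_of_neg_of_neg (Mathlib.Tactic.Linarith.sub_neg_of_lt hk2) (Mathlib.Tactic.Linarith.sub_neg_of_lt ht0)]
  have r3 : 0 < side A (s⁻¹ • A.src).1 := by rw [s3]; linarith only [hk3, ht0, mul_pos_of_neg_of_neg (Mathlib.Tactic.Linarith.sub_neg_of_lt hk3) (Mathlib.Tactic.Linarith.sub_neg_of_lt ht0)]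
  refine ⟨A, pt A (fer A (s • A.src).1), fun l hl => ?_⟩
  by_cases h2 : side A l.tgt.1 = 0
  · exact Or.inr (Or.inr h2)
  have e1 : ccw A.src l.src (s • A.src) := hl.1
  have h1 : side A l.src.1 < 0 := (side_neg_iff A _).2 (e1.trans ((side_neg_iff A _).1 r1))
  have g1 := (ccw_iff_fer_right A h1 r1).1 e1
  refine Or.inl ?_
  rcases (GBox_arc2 r2 r3 h2).1 hl.2 with ⟨s4, g2⟩ | ⟨s4, g2⟩
  · exact hr A l _ h1.ne h2 (Or.inl ⟨g1.le, by linarith only [f2', hl2, g2]⟩) (Or.inr (Or.inl (by linarith only [f2', g1, g2])))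
  · exact hr A l _ h1.ne h2 (Or.inl ⟨g1.le, by linarith only [f3', g2]⟩) (Or.inl (mul_neg_of_neg_of_pos h1 s4))

theorem GBox_hyp {r ε : ℝ} (hε : 0 < ε) (hr : ∀ (A l : Geo) (m : ℝ), side A l.src.1 ≠ 0 →
    side A l.tgt.1 ≠ 0 →
    ((fer A l.src.1 ≤ m ∧ m ≤ fer A l.tgt.1) ∨ (fer A l.tgt.1 ≤ m ∧ m ≤ fer A l.src.1)) →
      (Cross A l ∨ fer A l.src.1 + ε ≤ fer A l.tgt.1 ∨ fer A l.tgt.1 + ε ≤ fer A l.src.1) →
        |side l (pt A m).1| ≤ r) {s : Isom} {a : Circ} (hs : ε ≤ tl s)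
    (h : ccw a (s • a) (s • s • a)) : ∃ (A : Geo) (u : ℝ) (p q : Pt),
      ∀ l ∈ box a (s • a) (s • s • a) (s⁻¹ • a), l ∈ xs A (Icc u (u + tl s)) ∨
        (|side l p.1| ≤ r ∨ |side l q.1| ≤ r) ∨ side A l.src.1 = 0 ∨ side A l.tgt.1 = 0 := by
  have hH : Hyp s := hε.trans_le hs
  have hT : 0 < tl s := hH
  set A := ax s with hA
  have hfer : ∀ ξ : Circ, side A ξ.1 ≠ 0 → fer A (s • ξ).1 = fer A ξ.1 + tl s := fun ξ hξ => by
    have := fer_smul_circ s A hξ
    rwa [hH.smul_ax, hH.sh_ax] at this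
  have hpos : ∀ ξ : Circ, 0 < side A (s • ξ).1 ↔ 0 < side A ξ.1 := fun ξ => by
    have := side_smul_circ_pos s A ξ
    rwa [hH.smul_ax] at this
  have hneg : ∀ ξ : Circ, side A (s • ξ).1 < 0 ↔ side A ξ.1 < 0 := fun ξ => by
    have := side_smul_circ_neg s A ξ
    rwa [hH.smul_ax] at this
  have ha0 : side A a.1 ≠ 0 := fun e =>
    h.ne12 ((hH.fix_iff a).2 ((side_eq_zero_iff A a).1 e)).symm
  have r0 : side A a.1 < 0 := by
    refine lt_of_le_of_ne (not_lt.1 fun p0 => ?_) ha0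
    have p1 := (hpos a).2 p0
    have p2 := (hpos _).2 p1
    have c1 := (ccw_iff_fer_left A p1 p0).2 (by rw [hfer a ha0]; linarith)
    have c2 := (ccw_iff_fer_left A p2 p1).2 (by rw [hfer _ p1.ne']; linarith)
    exact h.asymm (c2.trans' c1).cyc.cyc
  have r1 := (hneg a).2 r0
  have r2 := (hneg _).2 r1
  have r3 : side A (s⁻¹ • a).1 < 0 := (hneg _).1 (by rwa [smul_inv_smul])
  have f1 := hfer a ha0
  have f2 := hfer _ r1.ne
  have f3 := hfer _ r3.ne
  rw [smul_inv_smul] at f3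
  obtain ⟨ψ, c1, c2⟩ := GBox_chart A.src
  have n0 := GBox_ne r0.ne
  have n1 := GBox_ne r1.ne
  have n2 := GBox_ne r2.ne
  have n3 := GBox_ne r3.ne
  have nt := A.ne.symm
  have o1 := (c1 _ _ n3 n0).1 ((ccw_iff_fer_right A r3 r0).2 (by linarith only [hε, hs, f3]))
  have o2 := (c1 _ _ n0 n1).1 ((ccw_iff_fer_right A r0 r1).2 (by linarith))
  have o3 := (c1 _ _ n1 n2).1 ((ccw_iff_fer_right A r1 r2).2 (by linarith))
  have o4 := (c1 _ _ n1 nt).1 ((side_neg_iff A _).1 r1)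
  refine ⟨A, fer A a.1, pt A (fer A a.1), pt A (fer A a.1 + tl s), fun l hl => ?_⟩
  by_cases h0 : side A l.src.1 = 0 ∨ side A l.tgt.1 = 0
  · exact Or.inr (Or.inr h0)
  obtain ⟨h1, h2⟩ := not_or.1 h0
  have m1 := GBox_ne h1
  have m2 := GBox_ne h2
  have e1 : ψ a < ψ l.src ∧ ψ l.src < ψ (s • a) := by
    rcases (c2 _ _ _ n0 m1 n1).1 hl.1 with e | e | e
    · exact e
    · linarith only [o2, e, e.2]
    · linarith [e.1]
  have s1 : side A l.src.1 < 0 := (side_neg_iff A _).2 ((c1 _ _ m1 nt).2 (by linarith only [o4, e1, e1.2]))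
  have g1 := (ccw_iff_fer_right A r0 s1).1 ((c1 _ _ n0 m1).2 e1.1)
  have g2 := (ccw_iff_fer_right A s1 r1).1 ((c1 _ _ m1 n1).2 e1.2)
  rcases lt_or_gt_of_ne h2 with s2 | s2
  · refine Or.inr (Or.inl ?_)
    rcases (c2 _ _ _ n2 m2 n3).1 hl.2 with e | e | e
    · linarith only [o1, o3, e1, e, e.1, e.2]
    · have g3 := (ccw_iff_fer_right A s2 r3).1 ((c1 _ _ m2 n3).2 e.1)
      exact Or.inl (hr A l _ h1 h2 (Or.inr ⟨by linarith only [hε, hs, f3, g3], g1.le⟩) (Or.inr (Or.inr (by linarith only [hs, f3, g1, g3]))))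
    · have g3 := (ccw_iff_fer_right A r2 s2).1 ((c1 _ _ n2 m2).2 e.2)
      exact Or.inr (hr A l _ h1 h2 (Or.inl ⟨by linarith only [f1, g2], by linarith only [f2, g1, g2, g3]⟩)
        (Or.inr (Or.inl (by linarith only [hs, f2, g2, g3]))))
  · have hx : xp A l = (fer A l.src.1 + fer A l.tgt.1) / 2 := rfl
    have hcr : Cross A l := mul_neg_of_neg_of_pos s1 s2
    by_cases a1 : fer A a.1 ≤ xp A l
    · by_cases a2 : xp A l ≤ fer A a.1 + tl s
      · exact Or.inl ⟨s1, s2, a1, a2⟩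
      · exact Or.inr (Or.inl (Or.inr (hr A l _ h1 h2
          (Or.inl ⟨by linarith only [f1, g2], by linarith only [f1, g2, hx, a2, not_le.1 a2]⟩) (Or.inl hcr))))
    · exact Or.inr (Or.inl (Or.inl (hr A l _ h1 h2
        (Or.inr ⟨by linarith only [g1, hx, a1, not_le.1 a1], g1.le⟩) (Or.inl hcr))))

theorem liou_box_orbit {ε : ℝ} (hε : 0 < ε) : ∃ C : ℝ, 0 ≤ C ∧ ∀ (s : Isom) (a : Circ),
    (Par s ∨ ε ≤ tl s) → ccw a (s • a) (s • s • a) →
      liou (box a (s • a) (s • s • a) (s⁻¹ • a)) ≤ ENNReal.ofReal (tl s + C) := by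
  obtain ⟨r, hr⟩ := GBox_rad hε
  obtain ⟨r', hr'⟩ := GBox_rad (log_pos one_lt_two)
  obtain ⟨C, hC, hN⟩ := exists_liou_near r
  obtain ⟨C', hC', hN'⟩ := exists_liou_near r'
  refine ⟨2 * C + C', by positivity, fun s a hs h => ?_⟩
  have hT := tl_nonneg s
  rcases hs with hs | hs
  · obtain ⟨A, p, hp⟩ := GBox_par hr' hs h
    refine (measure_mono (t := {l | |side l p.1| ≤ r'} ∪
      {l | side A l.src.1 = 0 ∨ side A l.tgt.1 = 0}) hp).trans ((measure_union_le _ _).trans ?_)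
    rw [GBox_null, add_zero]
    exact (hN' p _ fun _ hl => hl).trans (ENNReal.ofReal_le_ofReal (by linarith))
  · obtain ⟨A, u, p, q, hp⟩ := GBox_hyp hε hr hs h
    refine (measure_mono (t := xs A (Icc u (u + tl s)) ∪
      ({l | |side l p.1| ≤ r ∨ |side l q.1| ≤ r} ∪
        {l | side A l.src.1 = 0 ∨ side A l.tgt.1 = 0})) hp).trans ((measure_union_le _ _).trans ?_)
    refine (add_le_add le_rfl (measure_union_le _ _)).trans ?_
    rw [GBox_null, add_zero, GBox_Icc, add_sub_cancel_left, max_eq_left hT]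
    refine (add_le_add le_rfl (GBox_two hC hN p q)).trans ?_
    rw [← ENNReal.ofReal_add hT (by positivity)]
    exact ENNReal.ofReal_le_ofReal (by linarith)

theorem exists_box_one : ∃ C : ℝ, ∀ h : Circ ≃ₜ Circ, Ori h → ∀ a b c d : Circ, ccw a b c →
    ccw a c d → pull h (box a b c d) ≤ ENNReal.ofReal C ∨
      pull h (box b c d a) ≤ ENNReal.ofReal C := by
  obtain ⟨C, -, hN⟩ := exists_liou_near 1
  refine ⟨C, fun h hh a b c d h1 h2 => ?_⟩
  obtain ⟨p, hp⟩ := box_near (hh _ _ _ h1) (hh _ _ _ h2)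
  rw [pull_apply h (isOpen_box _ _ _ _).measurableSet,
    pull_apply h (isOpen_box _ _ _ _).measurableSet, hh.image_box, hh.image_box]
  exact hp.imp (hN p _) (hN p _)

theorem GBox_arsinh {x : ℝ} (h : |x| ≤ 1) : |arsinh x| ≤ arsinh 1 := by
  rw [abs_le] at h ⊢
  exact ⟨by rw [← arsinh_neg]; exact arsinh_le_arsinh.2 h.1, arsinh_le_arsinh.2 h.2⟩

variable {Γ : Type*} [Group Γ] {ρ σ σ' : Γ →* Isom} {h h' : Circ ≃ₜ Circ}

theorem exists_box_two (hm : IsMark ρ σ h) (hm' : IsMark ρ σ' h') (R : ℝ) : ∃ C : ℝ,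
    ∀ a b c d : Circ, ccw a b c → ccw a c d → ∀ m ∈ box b c d a, InCore ρ R m →
      pull h (box a b c d) ≤ ENNReal.ofReal C ∨ pull h' (box b c d a) ≤ ENNReal.ofReal C := by
  obtain ⟨C, -, hN⟩ := exists_liou_near 1
  obtain ⟨R', hR'⟩ := hm.inCore R
  set K : Set Geo := Geo.map h.symm '' {l | |side l o.1| ≤ sinh (arsinh 1 + (R' + arsinh 1))}
    with hK
  have hKc : IsCompact K := (isCompact_lines o _).image (Geo.continuous_map _)
  have hcur := hm'.cur_pull
  have := hcur.fin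
  refine ⟨max C (pull h' K).toReal, fun a b c d h1 h2 m hmb hcore => ?_⟩
  obtain ⟨p, hp | hp⟩ := box_near (hm.ori _ _ _ h1) (hm.ori _ _ _ h2)
  · refine Or.inl ?_
    rw [pull_apply h (isOpen_box _ _ _ _).measurableSet, hm.ori.image_box]
    exact (hN p _ hp).trans (ENNReal.ofReal_le_ofReal (le_max_left _ _))
  refine Or.inr ?_
  rw [← hm.ori.image_box] at hp
  obtain ⟨g, hg⟩ := hR' m hcore (fer (m.map h) p.1)
  have d1 : dist p (pt (m.map h) (fer (m.map h) p.1)) ≤ arsinh 1 := by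
    rw [dist_foot]
    exact GBox_arsinh (hp _ ⟨m, hmb, rfl⟩)
  have d2 : dist (σ g • o) p ≤ R' + arsinh 1 :=
    (dist_triangle_right _ _ _).trans (add_le_add hg d1)
  have hsub : box b c d a ⊆ (fun l : Geo => ρ g⁻¹ • l) ⁻¹' K := by
    intro l hl
    refine ⟨(ρ g⁻¹ • l).map h, ?_, Geo.map_symm_map h _⟩
    have e1 : side ((ρ g⁻¹ • l).map h) o.1 = side (l.map h) (σ g • o).1 := by
      rw [hm.map_smul, ← side_smul_pt (σ g), map_inv, smul_inv_smul]
    have e2 := abs_arsinh_side_le (l.map h) (σ g • o) p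
    have e3 := GBox_arsinh (hp _ ⟨l, hl, rfl⟩)
    have e4 := abs_sub_abs_le_abs_sub (arsinh (side (l.map h) (σ g • o).1))
      (arsinh (side (l.map h) p.1))
    change |side ((ρ g⁻¹ • l).map h) o.1| ≤ _
    rw [e1, ← sinh_arsinh (side (l.map h) (σ g • o).1), abs_sinh, sinh_le_sinh]
    linarith only [d2, e2, e3, e4]
  refine (measure_mono hsub).trans ?_
  rw [(hcur.smul g⁻¹).measure_preimage hKc.measurableSet.nullMeasurableSet]
  exact (ENNReal.ofReal_toReal hKc.measure_lt_top.ne).symm.le.trans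
    (ENNReal.ofReal_le_ofReal (le_max_right _ _))

end HRT
end

-- merged part: Pool.Agent.Work.MP_35beee_gt.GULim
section
/-!
Limits of locally bounded families of measures along an ultrafilter.

Plan. Work on the locally compact space `W`. The function sending a compact set `K` to the limit
of `M n K` along `U` (`ENNReal` is compact; the limit is finite) is a `MeasureTheory.Content`. Its
measure `μ` satisfies `content K ≤ μ K` (`Content.le_outerMeasure_compacts`), and on open sets it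
is the supremum of the contents of compact subsets (`Content.outerMeasure_opens`,
`innerContent`). Take `ν = μ.map Subtype.val`. Invariance: the formula on open sets is invariant,
and a regular measure is determined by its values on open sets
(`Measure.OuterRegular.ext_isOpen`, or `Content.is_mul_left_invariant`-like lemmas
`innerContent_comap`, `outerMeasure_preimage`).
-/

namespace HRT

open Set Filter Topology MeasureTheory

/-- `ν` is the limit of `M n` along `U` on the open set `W`. -/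
structure IsULim {X I : Type*} [TopologicalSpace X] [MeasurableSpace X] (U : Ultrafilter I)
    (M : I → Measure X) (W : Set X) (ν : Measure X) : Prop where
  compl : ν Wᶜ = 0
  fin : ∀ K, IsCompact K → K ⊆ W → ν K < ⊤
  upper : ∀ K, IsCompact K → K ⊆ W → ∀ a, ν K < a → ∀ᶠ n in U, M n K < a
  lower : ∀ O, IsOpen O → O ⊆ W → ∀ a, a < ν O → ∀ᶠ n in U, a < M n O

theorem GULim_lim {I : Type*} (U : Ultrafilter I) (f : I → ENNReal) : ∃ a, Tendsto f U (𝓝 a) :=
  ⟨_, (U.map f).le_nhds_lim⟩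

theorem exists_isULim {X I : Type*} [MetricSpace X] [LocallyCompactSpace X]
    [SecondCountableTopology X] [MeasurableSpace X] [BorelSpace X] (U : Ultrafilter I)
    (M : I → Measure X) {W : Set X} (hW : IsOpen W)
    (hb : ∀ x ∈ W, ∃ O, IsOpen O ∧ x ∈ O ∧ ∃ C < ⊤, ∀ᶠ n in U, M n O ≤ C) :
    ∃ ν, IsULim U M W ν ∧ ∀ T : X ≃ₜ X, T ⁻¹' W = W → (∀ n, MeasurePreserving T (M n) (M n)) →
      MeasurePreserving T ν ν := by
  choose L hL using fun A : Set X => GULim_lim U fun n => M n A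
  have hfin : ∀ K, IsCompact K → K ⊆ W → L K < ⊤ := fun K hK hKW => by
    obtain ⟨C, hC, h⟩ : ∃ C < ⊤, ∀ᶠ n in U, M n K ≤ C := by
      refine hK.induction_on (p := fun s => ∃ C < ⊤, ∀ᶠ n in U, M n s ≤ C)
        ⟨0, ENNReal.zero_lt_top, Eventually.of_forall fun n => measure_empty.le⟩ ?_ ?_ ?_
      · rintro s t hst ⟨C, hC, h⟩
        exact ⟨C, hC, h.mono fun n hn => (measure_mono hst).trans hn⟩
      · rintro s t ⟨C, hC, h⟩ ⟨C', hC', h'⟩
        exact ⟨C + C', ENNReal.add_lt_top.2 ⟨hC, hC'⟩,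
          (h.and h').mono fun n hn => (measure_union_le s t).trans (add_le_add hn.1 hn.2)⟩
      · intro x hx
        obtain ⟨O, h1, h2, h3⟩ := hb x (hKW hx)
        exact ⟨O, mem_nhdsWithin_of_mem_nhds (h1.mem_nhds h2), h3⟩
    exact (le_of_tendsto (hL K) h).trans_lt hC
  have hc : ∀ K : TopologicalSpace.Compacts W, IsCompact (Subtype.val '' (K : Set W)) :=
    fun K => K.2.image continuous_subtype_val
  have hne : ∀ K : TopologicalSpace.Compacts W, L (Subtype.val '' (K : Set W)) ≠ ⊤ :=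
    fun K => (hfin _ (hc K) (Subtype.coe_image_subset W _)).ne
  obtain ⟨c, hcv⟩ : ∃ c : Content W, ∀ K, c K = L (Subtype.val '' (K : Set W)) := by
    refine ⟨⟨fun K => (L (Subtype.val '' (K : Set W))).toNNReal, fun K K' h => ?_,
      fun K K' h _ _ => ?_, fun K K' => ?_⟩, fun K => ENNReal.coe_toNNReal (hne K)⟩
    · exact ENNReal.toNNReal_mono (hne K') (le_of_tendsto_of_tendsto' (hL _) (hL _)
        fun n => measure_mono (image_mono h))
    · rw [← ENNReal.toNNReal_add (hne K) (hne K')]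
      refine congrArg _ (tendsto_nhds_unique (hL _) (((hL _).add (hL _)).congr fun n => ?_))
      rw [TopologicalSpace.Compacts.coe_sup, image_union,
        measure_union ((disjoint_image_iff Subtype.val_injective).2 h) (hc K').measurableSet]
    · rw [← ENNReal.toNNReal_add (hne K) (hne K')]
      refine ENNReal.toNNReal_mono (ENNReal.add_ne_top.2 ⟨hne K, hne K'⟩)
        (le_of_tendsto_of_tendsto' (hL _) ((hL _).add (hL _)) fun n => ?_)
      rw [TopologicalSpace.Compacts.coe_sup, image_union]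
      exact measure_union_le _ _
  have := hW.locallyCompactSpace
  have hν : ∀ A, MeasurableSet A →
      c.measure.map Subtype.val A = c.outerMeasure (Subtype.val ⁻¹' A) := fun A hA => by
    rw [Measure.map_apply measurable_subtype_coe hA, c.measure_apply (measurable_subtype_coe hA)]
  have hi : ∀ K, K ⊆ W → Subtype.val '' (Subtype.val ⁻¹' K : Set W) = K := fun K hK => by
    rw [Subtype.image_preimage_coe, inter_eq_right.2 hK]
  have hp : ∀ K, IsCompact K → K ⊆ W → IsCompact (Subtype.val ⁻¹' K : Set W) := fun K hK hKW => by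
    rwa [Subtype.isCompact_iff, hi K hKW]
  refine ⟨c.measure.map Subtype.val, ⟨?_, fun K hK hKW => ?_, fun K hK hKW a ha => ?_,
    fun O hO _ a ha => ?_⟩, fun T hT hM => ⟨T.measurable, ?_⟩⟩
  · rw [hν _ hW.measurableSet.compl, preimage_compl, Subtype.coe_preimage_self, compl_univ,
      measure_empty]
  · rw [hν _ hK.measurableSet]
    exact c.outerMeasure_lt_top_of_isCompact (hp K hK hKW)
  · have h1 := c.le_outerMeasure_compacts ⟨_, hp K hK hKW⟩
    rw [hcv, TopologicalSpace.Compacts.coe_mk, hi K hKW, ← hν _ hK.measurableSet] at h1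
    exact (hL K).eventually_lt_const (h1.trans_lt ha)
  · rw [hν _ hO.measurableSet, c.outerMeasure_of_isOpen _ (hO.preimage continuous_subtype_val)] at ha
    simp only [Content.innerContent, lt_iSup_iff] at ha
    obtain ⟨K, hK, ha⟩ := ha
    rw [hcv] at ha
    exact ((hL _).eventually_const_lt ha).mono fun n hn =>
      hn.trans_le (measure_mono (image_subset_iff.2 hK))
  · let T' : W ≃ₜ W := T.subtype fun x => (Set.ext_iff.1 hT x).symm
    have h1 : ∀ ⦃K : TopologicalSpace.Compacts W⦄, c (K.map T' T'.continuous) = c K := fun K => by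
      have e : Subtype.val '' (K.map T' T'.continuous : Set W) = T '' (Subtype.val '' (K : Set W)) := by
        rw [TopologicalSpace.Compacts.coe_map, image_image, image_image]
        rfl
      rw [hcv, hcv, e]
      refine tendsto_nhds_unique (hL _) ((hL _).congr fun n => ?_)
      rw [← (hM n).measure_preimage ((hc K).image T.continuous).measurableSet.nullMeasurableSet,
        T.preimage_image]
    refine Measure.ext fun A hA => ?_
    rw [Measure.map_apply T.measurable hA, hν _ hA, hν _ (T.measurable hA),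
      ← c.outerMeasure_preimage T' h1 (Subtype.val ⁻¹' A)]
    rfl

theorem IsULim.null {X I : Type*} [TopologicalSpace X] [SecondCountableTopology X]
    [MeasurableSpace X] {U : Ultrafilter I} {M : I → Measure X} {W : Set X} {ν : Measure X}
    (h : IsULim U M W ν) (hW : IsOpen W) {Z : Set X}
    (hZ : ∀ x ∈ Z, x ∈ W → ∃ O, IsOpen O ∧ x ∈ O ∧ Tendsto (fun n => M n O) U (𝓝 0)) :
    ν Z = 0 := by
  have h1 : ν (Z ∩ W) = 0 := by
    refine measure_null_of_locally_null _ fun x hx => ?_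
    obtain ⟨O, h1, h2, h3⟩ := hZ x hx.1 hx.2
    refine ⟨O ∩ W, mem_nhdsWithin_of_mem_nhds ((h1.inter hW).mem_nhds ⟨h2, hx.2⟩), ?_⟩
    by_contra h0
    obtain ⟨a, a1, a2⟩ := exists_between (pos_iff_ne_zero.2 h0)
    obtain ⟨n, b1, b2⟩ := ((h.lower _ (h1.inter hW) inter_subset_right a a2).and
      (h3.eventually_lt_const a1)).exists
    exact (b1.trans_le (measure_mono inter_subset_left)).not_gt b2
  refine measure_mono_null (fun x hx => ?_) (measure_union_null h1 h.compl)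
  by_cases hx' : x ∈ W
  · exact Or.inl ⟨hx, hx'⟩
  · exact Or.inr hx'

end HRT
end

-- merged part: Pool.Agent.Work.MP_35beee_gt.GArr
section
/-!
Finite families of closed geodesics that fill a lamination; the sequence of lifts met by a leaf.

Plan. `exists_arr`: the leaves meeting the ball of radius `R` around `o` form a compact set `K`;
cover it by the open sets `{l | Cross l (ax g) ∧ |xp l (ax g)| < n}` (`exists_hyp_cross`,
`continuousAt_xp`); on `K` the parameters of the points within `R` of `o` are bounded. Translate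
`pt l (t + D / 2)` to within `R` of `o`. Add `F` and all inverses, and choose one representative in
each conjugacy class (`Quotient.out`, `Finset.equivFin`).
`null_gen`: `null_fix`, and the countably many crossing points of two lifts lie on at most one
unoriented leaf each. `exists_enum`: the parameters `xp l A` form a set that is finite in bounded
intervals (`finite_lifts`) and unbounded in both directions (`Fill`; orient `A` by `mem_xs'`).
-/

namespace HRT

open Set Filter Topology Real MeasureTheory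

variable {Γ : Type*} [Group Γ] {ρ : Γ →* Isom} {N : ℝ → ℝ} {Λ : Set Geo} {ι : Type} {h : ι → Γ}
  {D : ℝ}

/-- Representatives of finitely many oriented primitive closed geodesics, closed under reversal. -/
structure Arr (ρ : Γ →* Isom) {ι : Type} (h : ι → Γ) : Prop where
  hyp : ∀ r, Hyp (ρ (h r))
  prim : ∀ r, Prim (h r)
  uniq : ∀ r r', IsConj (h r) (h r') → r = r'
  inv : ∀ r, ∃ r', IsConj (h r)⁻¹ (h r')

/-- Every leaf meets the lifts with gaps at most `D`. -/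
def Fill (ρ : Γ →* Isom) {ι : Type} (h : ι → Γ) (Λ : Set Geo) (D : ℝ) : Prop :=
  ∀ l ∈ Λ, ∀ t : ℝ, ∃ A ∈ lifts ρ h, Cross l A ∧ xp l A ∈ Ioc t (t + D)

/-- Generic lines. -/
def Gen (ρ : Γ →* Isom) {ι : Type} (h : ι → Γ) (l : Geo) : Prop :=
  (∀ g : Γ, g ≠ 1 → ρ g • l.src ≠ l.src ∧ ρ g • l.tgt ≠ l.tgt) ∧
    ∀ A ∈ lifts ρ h, ∀ A' ∈ lifts ρ h, l ∈ xs A univ → l ∈ xs A' univ → xp l A = xp l A' → A = A'

/-- The lifts met by `l`, in order. -/
structure IsEnum (ρ : Γ →* Isom) {ι : Type} (h : ι → Γ) (l : Geo) (e : ℤ → Geo) : Prop where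
  mem : ∀ t, e t ∈ lifts ρ h
  xs : ∀ t, l ∈ xs (e t) univ
  mono : StrictMono fun t => xp l (e t)
  surj : ∀ A ∈ lifts ρ h, l ∈ HRT.xs A univ → ∃ t, e t = A

theorem smul_mem_lifts (g : Γ) {A : Geo} (hA : A ∈ lifts ρ h) : ρ g • A ∈ lifts ρ h :=
  GSys_smul g hA

theorem rev_mem_lifts {A : Geo} (hA : A ∈ lifts ρ h) : A.rev ∈ lifts ρ h := by
  obtain ⟨i, g, rfl | rfl⟩ := hA
  · exact ⟨i, g, Or.inr rfl⟩
  · exact ⟨i, g, Or.inl (Geo.rev_rev _)⟩

theorem ax_mem_lifts (r : ι) : ax (ρ (h r)) ∈ lifts ρ h := ⟨r, 1, Or.inl (by simp)⟩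

theorem countable_lifts [Finite ι] (hρ : Disc ρ) : (lifts ρ h).Countable := by
  have := hρ.countable
  refine ((countable_range fun x : ι × Γ => ρ x.2 • ax (ρ (h x.1))).union
    (countable_range fun x : ι × Γ => (ρ x.2 • ax (ρ (h x.1))).rev)).mono ?_
  rintro A ⟨i, g, rfl | rfl⟩
  · exact Or.inl ⟨(i, g), rfl⟩
  · exact Or.inr ⟨(i, g), rfl⟩

theorem finite_lifts_near [Finite ι] (hρ : Disc ρ) (hh : ∀ r, Hyp (ρ (h r))) (p : Pt) (R : ℝ) :
    {A ∈ lifts ρ h | |side A p.1| ≤ R}.Finite := by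
  refine (finite_iUnion fun r : ι => (hρ.finite_lifts (hh r) p R).union
    ((hρ.finite_lifts (hh r) p R).image Geo.rev)).subset ?_
  rintro A ⟨⟨i, g, rfl | rfl⟩, hA⟩
  · exact mem_iUnion.2 ⟨i, Or.inl ⟨⟨g, rfl⟩, hA⟩⟩
  · refine mem_iUnion.2 ⟨i, Or.inr ⟨_, ⟨⟨g, rfl⟩, ?_⟩, rfl⟩⟩
    rwa [side_rev, abs_neg] at hA

theorem Arr.mem_lifts (ha : Arr ρ h) {A : Geo} :
    A ∈ lifts ρ h ↔ ∃ (r : ι) (g : Γ), A = ρ g • ax (ρ (h r)) := by
  constructor
  · rintro ⟨i, g, rfl | rfl⟩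
    · exact ⟨i, g, rfl⟩
    · obtain ⟨r', hr'⟩ := ha.inv i
      obtain ⟨c, hc⟩ := isConj_iff.1 hr'
      have hi : Hyp (ρ (h i)⁻¹) := by rw [map_inv]; exact (ha.hyp i).inv
      refine ⟨r', g * c⁻¹, ?_⟩
      rw [← hc, ax_conj' hi, GSys_ax_inv (ha.hyp i), ← mul_smul, ← map_mul, inv_mul_cancel_right,
        Geo.smul_rev]
  · rintro ⟨r, g, rfl⟩
    exact ⟨r, g, Or.inl rfl⟩

theorem Arr.label_unique (hρ : Disc ρ) (ha : Arr ρ h) {r r' : ι} {g : Γ}
    (he : ρ g • ax (ρ (h r)) = ax (ρ (h r'))) : r = r' ∧ g ∈ Subgroup.zpowers (h r) := by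
  have hc : IsConj (h r) (g * h r * g⁻¹) := isConj_iff.2 ⟨g, rfl⟩
  have h1 : g * h r * g⁻¹ = h r' :=
    hρ.eq_of_ax_eq (GInter_hyp_conj (ha.hyp r) hc) ((ha.prim r).conj g) (ha.hyp r') (ha.prim r')
      (by rw [ax_conj' (ha.hyp r), he])
  have h2 : r = r' := ha.uniq r r' (h1 ▸ hc)
  subst h2
  exact ⟨rfl, (hρ.smul_ax_iff (ha.hyp r) (ha.prim r) g).1 he⟩

theorem GArr_zpow {g : Γ} (hg : Hyp (ρ g)) (n : ℤ) (l : Geo) (I : Set ℝ) :
    ρ (g ^ n) • l ∈ xs (ax (ρ g)) I ↔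
      l ∈ xs (ax (ρ g)) ((fun t => t + n * tl (ρ g)) ⁻¹' I) := by
  have h1 : ρ (g ^ n) • ax (ρ g) = ax (ρ g) := by rw [map_zpow]; exact hg.zpow_smul_ax n
  have h2 : sh (ρ (g ^ n)) (ax (ρ g)) = n * tl (ρ g) := by rw [map_zpow]; exact hg.sh_zpow n
  rw [← h2, ← smul_mem_xs, h1]

/-- Normal form of a crossing. -/
theorem Arr.existsUnique_nf (hρ : Disc ρ) (ha : Arr ρ h) {A l : Geo} (hA : A ∈ lifts ρ h)
    (hl : l ∈ xs A univ) : ∃! x : ι × Γ, ρ x.2 • A = ax (ρ (h x.1)) ∧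
      ρ x.2 • l ∈ xs (ax (ρ (h x.1))) (Ico 0 (tl (ρ (h x.1)))) := by
  apply existsUnique_of_exists_of_unique
  · obtain ⟨r, k, rfl⟩ := ha.mem_lifts.1 hA
    have h1 : ρ k⁻¹ • l ∈ xs (ax (ρ (h r))) univ := by
      have := (smul_mem_xs (ρ k⁻¹) (ρ k • ax (ρ (h r))) l univ).2 hl
      rwa [map_inv, inv_smul_smul, ← map_inv] at this
    obtain ⟨n, hn⟩ := GInter_exists_shift (ha.hyp r) (xp (ax (ρ (h r))) (ρ k⁻¹ • l)) 0
    rw [zero_add] at hn
    refine ⟨(r, h r ^ n * k⁻¹), ?_, ?_⟩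
    · show ρ (h r ^ n * k⁻¹) • ρ k • ax (ρ (h r)) = ax (ρ (h r))
      rw [← mul_smul, ← map_mul, inv_mul_cancel_right, map_zpow]
      exact (ha.hyp r).zpow_smul_ax n
    · show ρ (h r ^ n * k⁻¹) • l ∈ xs (ax (ρ (h r))) (Ico 0 (tl (ρ (h r))))
      rw [map_mul, mul_smul, GArr_zpow (ha.hyp r)]
      exact ⟨h1.1, h1.2.1, hn⟩
  · rintro ⟨r, g⟩ ⟨r', g'⟩ ⟨h1, h2⟩ ⟨h3, h4⟩
    dsimp only at h1 h2 h3 h4
    have h5 : ρ (g' * g⁻¹) • ax (ρ (h r)) = ax (ρ (h r')) := by
      rw [← h1, ← mul_smul, ← map_mul, inv_mul_cancel_right, h3]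
    obtain ⟨rfl, n, hn⟩ := ha.label_unique hρ h5
    have h6 : g' = h r ^ n * g := by
      have hn' : h r ^ n = g' * g⁻¹ := hn
      rw [hn', inv_mul_cancel_right]
    rw [h6, map_mul, mul_smul, GArr_zpow (ha.hyp r)] at h4
    have h7 : n = 0 := GInter_shift_eq_zero (t := 0) (by rw [zero_add]; exact h2.2.2)
      (by rw [zero_add]; exact h4.2.2)
    rw [h6, h7, zpow_zero, one_mul]

theorem GArr_reps (T : Finset Γ) (hT : ∀ f ∈ T, Hyp (ρ f) ∧ Prim f) (hi : ∀ f ∈ T, f⁻¹ ∈ T) :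
    ∃ (n : ℕ) (h : Fin n → Γ), Arr ρ h ∧ ∀ f ∈ T, ∃ r, IsConj f (h r) := by
  classical
  set C := T.image ConjClasses.mk with hC
  have hex : ∀ c : C, ∃ f ∈ T, ConjClasses.mk f = c.1 := fun c => Finset.mem_image.1 c.2
  choose F hF1 hF2 using hex
  have key : ∀ f ∈ T, ∃ r, IsConj f (F (C.equivFin.symm r)) := fun f hf => by
    refine ⟨C.equivFin ⟨ConjClasses.mk f, Finset.mem_image_of_mem _ hf⟩, ?_⟩
    rw [Equiv.symm_apply_apply, ← ConjClasses.mk_eq_mk_iff_isConj, hF2]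
  refine ⟨C.card, fun r => F (C.equivFin.symm r),
    ⟨fun r => (hT _ (hF1 _)).1, fun r => (hT _ (hF1 _)).2, fun r r' hr => ?_,
      fun r => key _ (hi _ (hF1 _))⟩, key⟩
  rw [← ConjClasses.mk_eq_mk_iff_isConj, hF2, hF2] at hr
  exact C.equivFin.symm.injective (Subtype.ext hr)

theorem GArr_cover (hρ : Good ρ N) {K : Set Geo} (hK : IsCompact K) :
    ∃ (T : Finset Γ) (M : ℝ), (∀ f ∈ T, Hyp (ρ f) ∧ Prim f) ∧
      ∀ l ∈ K, ∃ f ∈ T, Cross l (ax (ρ f)) ∧ |xp l (ax (ρ f))| ≤ M := by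
  classical
  refine hK.induction_on (p := fun S => ∃ (T : Finset Γ) (M : ℝ), (∀ f ∈ T, Hyp (ρ f) ∧ Prim f) ∧
      ∀ l ∈ S, ∃ f ∈ T, Cross l (ax (ρ f)) ∧ |xp l (ax (ρ f))| ≤ M) ?_ ?_ ?_ ?_
  · exact ⟨∅, 0, by simp, by simp⟩
  · rintro S S' hS ⟨T, M, h1, h2⟩
    exact ⟨T, M, h1, fun l hl => h2 l (hS hl)⟩
  · rintro S S' ⟨T, M, h1, h2⟩ ⟨T', M', h3, h4⟩
    refine ⟨T ∪ T', max M M', fun f hf => (Finset.mem_union.1 hf).elim (h1 f) (h3 f), ?_⟩
    rintro l (hl | hl)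
    · obtain ⟨f, hf, h5, h6⟩ := h2 l hl
      exact ⟨f, Finset.mem_union_left _ hf, h5, h6.trans (le_max_left _ _)⟩
    · obtain ⟨f, hf, h5, h6⟩ := h4 l hl
      exact ⟨f, Finset.mem_union_right _ hf, h5, h6.trans (le_max_right _ _)⟩
  · intro l _
    obtain ⟨g, h1, h2, h3⟩ := hρ.exists_hyp_cross l
    have hc : Continuous fun m : Geo => (m, ax (ρ g)) := by fun_prop
    have e1 : ∀ᶠ m in 𝓝 l, Cross m (ax (ρ g)) := (isOpen_cross.preimage hc).mem_nhds h3
    have e2 : ContinuousAt (fun m : Geo => |xp m (ax (ρ g))|) l :=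
      (ContinuousAt.comp (f := fun m : Geo => (m, ax (ρ g))) (continuousAt_xp h3)
        hc.continuousAt).abs
    have e3 : ∀ᶠ m in 𝓝 l, |xp m (ax (ρ g))| < |xp l (ax (ρ g))| + 1 :=
      e2.eventually (gt_mem_nhds (lt_add_one _))
    refine ⟨_, mem_nhdsWithin_of_mem_nhds (e1.and e3), {g}, |xp l (ax (ρ g))| + 1, ?_, ?_⟩
    · intro f hf
      rw [Finset.mem_singleton.1 hf]
      exact ⟨h1, h2⟩
    · exact fun m hm => ⟨g, Finset.mem_singleton_self g, hm.1, hm.2.le⟩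

theorem GArr_fer_o (l : Geo) : fer l o.1 = 0 := by
  simp [fer, B_o, l.src.2.2, l.tgt.2.2]

theorem GArr_side_le {l : Geo} {p : Pt} {s R : ℝ} (h : dist p (pt l s) ≤ R) :
    |side l p.1| ≤ sinh R := by
  have h1 := abs_arsinh_side_le l p (pt l s)
  rw [side_pt, arsinh_zero, sub_zero] at h1
  have h2 := abs_le.1 (h1.trans h)
  rw [abs_le, ← sinh_neg]
  constructor
  · rw [← sinh_arsinh (side l p.1)]
    exact sinh_le_sinh.2 h2.1
  · rw [← sinh_arsinh (side l p.1)]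
    exact sinh_le_sinh.2 h2.2

theorem Good.exists_arr (hρ : Good ρ N) (hΛ : Lam ρ Λ) (F : Finset Γ)
    (hF : ∀ f ∈ F, Hyp (ρ f) ∧ Prim f) : ∃ (n : ℕ) (h : Fin n → Γ) (D : ℝ), Arr ρ h ∧ 0 < D ∧
      Fill ρ h Λ D ∧ ∀ f ∈ F, ∃ r, IsConj f (h r) := by
  classical
  obtain ⟨R, hR⟩ := hΛ.core
  obtain ⟨T, M, hT, hM⟩ := GArr_cover hρ (isCompact_lines o (sinh R))
  have hU : ∀ f ∈ T ∪ F, Hyp (ρ f) ∧ Prim f := fun f hf =>
    (Finset.mem_union.1 hf).elim (hT f) (hF f)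
  obtain ⟨n, h, ha, hr⟩ := GArr_reps (ρ := ρ) ((T ∪ F) ∪ (T ∪ F).image fun f => f⁻¹)
    (by
      intro f hf
      rcases Finset.mem_union.1 hf with hf | hf
      · exact hU f hf
      · obtain ⟨f', hf', rfl⟩ := Finset.mem_image.1 hf
        exact ⟨by rw [map_inv]; exact (hU f' hf').1.inv, (hU f' hf').2.inv⟩)
    (by
      intro f hf
      rcases Finset.mem_union.1 hf with hf | hf
      · exact Finset.mem_union_right _ (Finset.mem_image_of_mem _ hf)
      · obtain ⟨f', hf', rfl⟩ := Finset.mem_image.1 hf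
        rw [inv_inv]
        exact Finset.mem_union_left _ hf')
  refine ⟨n, h, 2 * (|M| + |R| + 1), ha, by positivity, fun l hl t => ?_,
    fun f hf => hr f (Finset.mem_union_left _ (Finset.mem_union_right _ hf))⟩
  obtain ⟨g, hg⟩ := hR l hl (t + (|M| + |R| + 1))
  have h1 : dist o (pt ((ρ g)⁻¹ • l) (t + (|M| + |R| + 1) + sh (ρ g)⁻¹ l)) ≤ R := by
    rw [← smul_pt, ← dist_smul (ρ g), smul_inv_smul]
    exact hg
  obtain ⟨f, hf, h2, h3⟩ := hM _ (GArr_side_le h1)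
  have h4 := (abs_fer_sub_le ((ρ g)⁻¹ • l) o _).trans h1
  rw [GArr_fer_o, fer_pt, zero_sub, abs_neg] at h4
  obtain ⟨r, hr'⟩ := hr f (Finset.mem_union_left _ (Finset.mem_union_left _ hf))
  have h5 : ax (ρ f) ∈ lifts ρ h := (mem_lifts_iff ha.hyp).2 ⟨r, f, Or.inl hr'.symm, rfl⟩
  have h6 : Cross l (ρ g • ax (ρ f)) := by
    rw [← cross_smul (ρ g)⁻¹, inv_smul_smul]
    exact h2
  refine ⟨ρ g • ax (ρ f), smul_mem_lifts g h5, h6, ?_⟩
  have h7 := xp_smul (ρ g)⁻¹ h6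
  rw [inv_smul_smul] at h7
  have h8 := abs_le.1 (h3.trans (le_abs_self M))
  have h9 := abs_le.1 (h4.trans (le_abs_self R))
  constructor <;> linarith only [h7, h8, h9, h8.1, h8.2, h9.1, h9.2]

theorem GArr_smul_xs (g : Isom) {A l : Geo} : g • l ∈ xs (g • A) univ ↔ l ∈ xs A univ := by
  rw [smul_mem_xs, preimage_univ]

theorem GArr_rev_xs {A l : Geo} : l.rev ∈ xs A.rev univ ↔ l ∈ xs A univ := by
  rw [rev_mem_xs, preimage_univ]

theorem GArr_xp_rev {A l : Geo} (h : Cross l A) : xp l.rev A.rev = -xp l A := by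
  rw [xp_rev_right, xp_rev_left h]

theorem Gen.smul {l : Geo} (hl : Gen ρ h l) (g : Γ) : Gen ρ h (ρ g • l) := by
  refine ⟨fun k hk => ?_, fun A hA A' hA' h1 h2 h3 => ?_⟩
  · have hk' : g⁻¹ * k * g ≠ 1 := fun e => hk (by
      have : k = g * (g⁻¹ * k * g) * g⁻¹ := by group
      rw [this, e, mul_one, mul_inv_cancel])
    obtain ⟨h1, h2⟩ := hl.1 _ hk'
    rw [map_mul, map_mul, map_inv, mul_smul, mul_smul, Ne, inv_smul_eq_iff] at h1 h2
    exact ⟨h1, h2⟩
  · obtain ⟨B₀, rfl⟩ : ∃ B₀, A = ρ g • B₀ := ⟨(ρ g)⁻¹ • A, (smul_inv_smul _ _).symm⟩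
    obtain ⟨B₁, rfl⟩ : ∃ B₁, A' = ρ g • B₁ := ⟨(ρ g)⁻¹ • A', (smul_inv_smul _ _).symm⟩
    have h4 := smul_mem_lifts g⁻¹ hA
    have h5 := smul_mem_lifts g⁻¹ hA'
    rw [map_inv, inv_smul_smul] at h4 h5
    rw [GArr_smul_xs] at h1 h2
    rw [xp_smul _ (xs_cross h1).symm, xp_smul _ (xs_cross h2).symm, add_left_inj] at h3
    rw [hl.2 _ h4 _ h5 h1 h2 h3]

theorem Gen.rev {l : Geo} (hl : Gen ρ h l) : Gen ρ h l.rev := by
  refine ⟨fun k hk => (hl.1 k hk).symm, fun A hA A' hA' h1 h2 h3 => ?_⟩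
  obtain ⟨B₀, rfl⟩ : ∃ B₀ : Geo, A = B₀.rev := ⟨A.rev, (Geo.rev_rev _).symm⟩
  obtain ⟨B₁, rfl⟩ : ∃ B₁ : Geo, A' = B₁.rev := ⟨A'.rev, (Geo.rev_rev _).symm⟩
  have h4 := rev_mem_lifts hA
  have h5 := rev_mem_lifts hA'
  rw [Geo.rev_rev] at h4 h5
  rw [GArr_rev_xs] at h1 h2
  rw [GArr_xp_rev (xs_cross h1).symm, GArr_xp_rev (xs_cross h2).symm, neg_inj] at h3
  rw [hl.2 _ h4 _ h5 h1 h2 h3]

theorem Gen.eq_one {l : Geo} (hl : Gen ρ h l) {g : Γ} (hg : ρ g • l = l) : g = 1 := by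
  by_contra hne
  exact (hl.1 g hne).1 (congrArg Geo.src hg)

theorem GArr_xp_iff {A A' l : Geo} (h1 : l ∈ xs A univ) (h2 : l ∈ xs A' univ) :
    xp l A = xp l A' ↔ side A' (pt A (xp A l)).1 = 0 := by
  rw [pt_xp (xs_cross h1), side_pt_eq_zero_iff (xs_cross h2).symm]

theorem GArr_meas (A A' : Geo) :
    MeasurableSet {l | l ∈ xs A univ → l ∈ xs A' univ → xp l A = xp l A' → A = A'} := by
  by_cases hA : A = A'
  · simp [hA]
  · have hc : IsClosed {t : ℝ | side A' (pt A t).1 = 0} := by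
      refine isClosed_eq ?_ continuous_const
      have h1 : Continuous fun t : ℝ => pt A t :=
        continuous_pt.comp (f := fun t : ℝ => (A, t)) (continuous_const.prodMk continuous_id)
      have h2 : Continuous fun t : ℝ => (pt A t).1 := GMet_cont_val.comp h1
      exact continuous_const.B' h2
    have e : {l | l ∈ xs A univ → l ∈ xs A' univ → xp l A = xp l A' → A = A'} =
        (xs A {t : ℝ | side A' (pt A t).1 = 0} ∩ xs A' univ)ᶜ := by
      ext l
      constructor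
      · rintro H ⟨h1, h2⟩
        have h3 := xs_mono A (subset_univ _) h1
        exact hA (H h3 h2 ((GArr_xp_iff h3 h2).2 h1.2.2))
      · exact fun H h1 h2 h3 => (H ⟨⟨h1.1, h1.2.1, (GArr_xp_iff h1 h2).1 h3⟩, h2⟩).elim
    rw [e]
    exact ((measurableSet_xs A hc.measurableSet).inter
      (measurableSet_xs A' MeasurableSet.univ)).compl

theorem measurableSet_gen [Finite ι] (hρ : Disc ρ) : MeasurableSet {l | Gen ρ h l} := by
  have := hρ.countable
  have hc := countable_lifts (h := h) hρ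
  have e : {l | Gen ρ h l} =
      (⋂ g : Γ, ⋂ _ : g ≠ 1, ({l : Geo | ρ g • l.src ≠ l.src} ∩ {l : Geo | ρ g • l.tgt ≠ l.tgt})) ∩
        ⋂ A ∈ lifts ρ h, ⋂ A' ∈ lifts ρ h,
          {l | l ∈ xs A univ → l ∈ xs A' univ → xp l A = xp l A' → A = A'} := by
    ext l
    simp only [Gen, mem_ofPred_eq, mem_inter_iff, mem_iInter]
  rw [e]
  refine MeasurableSet.inter (MeasurableSet.iInter fun g => MeasurableSet.iInter fun _ => ?_)
    (MeasurableSet.biInter hc fun A _ => MeasurableSet.biInter hc fun A' _ => GArr_meas A A')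
  exact ((isOpen_ne_fun (Geo.continuous_src.const_smul (ρ g)) Geo.continuous_src).inter
    (isOpen_ne_fun (Geo.continuous_tgt.const_smul (ρ g)) Geo.continuous_tgt)).measurableSet

theorem GArr_subsingleton (hΛ : Lam ρ Λ) {A A' : Geo} (hne : A ≠ A') :
    {l | l ∈ Λ ∧ l ∈ xs A univ ∧ l ∈ xs A' univ ∧ xp l A = xp l A'}.Subsingleton := by
  have key : ∀ l, l ∈ xs A univ → l ∈ xs A' univ → xp l A = xp l A' → xp A l = xp A A' := by
    intro l h1 h2 h3
    have h4 := (GArr_xp_iff h1 h2).1 h3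
    have h5 : A' ≠ A.rev := by
      rintro rfl
      have := h2.1
      rw [side_rev] at this
      linarith [h1.1]
    exact (side_pt_eq_zero_iff (cross_of_common (side_pt A _) h4 hne.symm h5) _).1 h4
  rintro l ⟨h0, h1, h2, h3⟩ m ⟨h0', h1', h2', h3'⟩
  exact eq_of_xp_eq h1 h1' (hΛ.nc l h0 m h0') (by rw [key l h1 h2 h3, key m h1' h2' h3'])

theorem Cur.null_gen [Finite ι] {μ : Measure Geo} (hμ : Cur ρ μ) (hρ : Disc ρ) (hΛ : Lam ρ Λ)
    [NullSingletonClass μ] : μ {l | l ∈ Λ ∧ ¬ Gen ρ h l} = 0 := by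
  have hc := countable_lifts (h := h) hρ
  have h2 : μ (⋃ A ∈ lifts ρ h, ⋃ A' ∈ lifts ρ h, ⋃ _ : A ≠ A',
      {l | l ∈ Λ ∧ l ∈ xs A univ ∧ l ∈ xs A' univ ∧ xp l A = xp l A'}) = 0 :=
    (measure_biUnion_null_iff hc).2 fun A _ => (measure_biUnion_null_iff hc).2 fun A' _ =>
      measure_iUnion_null fun hne => (GArr_subsingleton hΛ hne).measure_zero μ
  refine measure_mono_null ?_ (measure_union_null (hμ.null_fix hρ hΛ) h2)
  rintro l ⟨hl, hg⟩
  by_contra hn
  rw [mem_union, not_or] at hn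
  refine hg ⟨fun g hne => ⟨fun e => hn.1 ⟨hl, g, hne, Or.inl e⟩,
    fun e => hn.1 ⟨hl, g, hne, Or.inr e⟩⟩, fun A hA A' hA' h3 h4 h5 => ?_⟩
  by_contra hne
  refine hn.2 ?_
  simp only [mem_iUnion]
  exact ⟨A, hA, A', hA', hne, hl, h3, h4, h5⟩

theorem GArr_fill (hf : Fill ρ h Λ D) {l : Geo} (hl : l ∈ Λ) (t : ℝ) :
    ∃ A ∈ lifts ρ h, l ∈ xs A univ ∧ xp l A ∈ Ioc t (t + D) := by
  obtain ⟨A, hA, hc, ht⟩ := hf l hl t
  rcases hc.symm.mem_xs' with h1 | h1
  · exact ⟨A, hA, h1, ht⟩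
  · exact ⟨A.rev, rev_mem_lifts hA, h1, by rwa [xp_rev_right]⟩

theorem GArr_finite [Finite ι] (hρ : Disc ρ) (ha : Arr ρ h) (l : Geo) (a b : ℝ) :
    {A | (A ∈ lifts ρ h ∧ l ∈ xs A univ) ∧ xp l A ∈ Icc a b}.Finite := by
  refine (finite_lifts_near hρ ha.hyp (pt l a) (sinh (b - a))).subset ?_
  rintro A ⟨⟨h1, h2⟩, h3, h4⟩
  refine ⟨h1, GArr_side_le (s := xp A l) ?_⟩
  rw [pt_xp (xs_cross h2), dist_pt, abs_sub_comm, abs_of_nonneg (sub_nonneg.2 h3)]
  linarith

theorem GArr_enum {X : Type*} (f : X → ℝ) (hi : Function.Injective f)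
    (hfin : ∀ a b : ℝ, {x | f x ∈ Icc a b}.Finite) (h1 : ∀ x, ∃ y, f x < f y)
    (h2 : ∀ x, ∃ y, f y < f x) (x₀ : X) :
    ∃ e : ℤ → X, StrictMono (fun t => f (e t)) ∧ Function.Surjective e ∧ e 0 = x₀ := by
  let : LinearOrder X := LinearOrder.lift' f hi
  let : LocallyFiniteOrder X := LocallyFiniteOrder.ofFiniteIcc fun a b => hfin (f a) (f b)
  let := LinearLocallyFiniteOrder.succOrder X
  let := LinearLocallyFiniteOrder.predOrder X
  have : NoMaxOrder X := ⟨h1⟩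
  have : NoMinOrder X := ⟨h2⟩
  have : Nonempty X := ⟨x₀⟩
  let φ : X ≃o ℤ := orderIsoIntOfLinearSuccPredArch
  refine ⟨fun t => φ.symm (t + φ x₀), fun s t hst => ?_, fun x => ⟨φ x - φ x₀, by simp⟩, by simp⟩
  exact φ.symm.strictMono (show s + φ x₀ < t + φ x₀ by omega)

theorem exists_enum [Finite ι] (hρ : Disc ρ) (ha : Arr ρ h) (hf : Fill ρ h Λ D) {l : Geo}
    (hl : l ∈ Λ) (hg : Gen ρ h l) {A : Geo} (hA : A ∈ lifts ρ h) (hx : l ∈ xs A univ) :
    ∃ e, IsEnum ρ h l e ∧ e 0 = A := by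
  obtain ⟨e, h1, h2, h3⟩ := GArr_enum
    (fun x : {A : Geo // A ∈ lifts ρ h ∧ l ∈ xs A univ} => xp l x.1)
    (fun x y hxy => Subtype.ext (hg.2 _ x.2.1 _ y.2.1 x.2.2 y.2.2 hxy))
    (fun a b => ((GArr_finite hρ ha l a b).preimage Subtype.val_injective.injOn).subset
      fun x hx => ⟨x.2, hx⟩)
    (fun x => by
      obtain ⟨A', h1, h2, h3⟩ := GArr_fill hf hl (xp l x.1)
      exact ⟨⟨A', h1, h2⟩, h3.1⟩)
    (fun x => by
      obtain ⟨A', h1, h2, h3⟩ := GArr_fill hf hl (xp l x.1 - D - 1)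
      exact ⟨⟨A', h1, h2⟩, by linarith [h3.2]⟩) ⟨A, hA, hx⟩
  refine ⟨fun t => (e t).1, ⟨fun t => (e t).2.1, fun t => (e t).2.2, h1, fun A' h4 h5 => ?_⟩,
    congrArg Subtype.val h3⟩
  obtain ⟨t, ht⟩ := h2 ⟨A', h4, h5⟩
  exact ⟨t, congrArg Subtype.val ht⟩

namespace IsEnum

variable {l : Geo} {e e' : ℤ → Geo}

theorem injective (he : IsEnum ρ h l e) : Function.Injective e :=
  fun s t hst => he.mono.injective (show xp l (e s) = xp l (e t) by rw [hst])

theorem shift (he : IsEnum ρ h l e) (s : ℤ) : IsEnum ρ h l fun t => e (t + s) := by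
  refine ⟨fun t => he.mem _, fun t => he.xs _, fun a b hab => he.mono (by omega), fun A h1 h2 => ?_⟩
  obtain ⟨t, ht⟩ := he.surj A h1 h2
  exact ⟨t - s, by rw [sub_add_cancel, ht]⟩

theorem smul (he : IsEnum ρ h l e) (g : Γ) : IsEnum ρ h (ρ g • l) fun t => ρ g • e t := by
  refine ⟨fun t => smul_mem_lifts g (he.mem t), fun t => (GArr_smul_xs _).2 (he.xs t),
    fun a b hab => ?_, fun A h1 h2 => ?_⟩
  · have := he.mono hab
    dsimp only at this ⊢
    rw [xp_smul _ (xs_cross (he.xs a)).symm, xp_smul _ (xs_cross (he.xs b)).symm]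
    linarith
  · obtain ⟨B₀, rfl⟩ : ∃ B₀, A = ρ g • B₀ := ⟨(ρ g)⁻¹ • A, (smul_inv_smul _ _).symm⟩
    have h3 := smul_mem_lifts g⁻¹ h1
    rw [map_inv, inv_smul_smul] at h3
    obtain ⟨t, ht⟩ := he.surj B₀ h3 ((GArr_smul_xs _).1 h2)
    exact ⟨t, by rw [ht]⟩

theorem rev (he : IsEnum ρ h l e) : IsEnum ρ h l.rev fun t => (e (-t)).rev := by
  refine ⟨fun t => rev_mem_lifts (he.mem _), fun t => GArr_rev_xs.2 (he.xs _),
    fun a b hab => ?_, fun A h1 h2 => ?_⟩
  · have := he.mono (show -b < -a by omega)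
    dsimp only at this ⊢
    rw [GArr_xp_rev (xs_cross (he.xs _)).symm, GArr_xp_rev (xs_cross (he.xs _)).symm]
    linarith
  · obtain ⟨B₀, rfl⟩ : ∃ B₀ : Geo, A = B₀.rev := ⟨A.rev, (Geo.rev_rev _).symm⟩
    have h3 := rev_mem_lifts h1
    rw [Geo.rev_rev] at h3
    obtain ⟨t, ht⟩ := he.surj B₀ h3 (GArr_rev_xs.1 h2)
    exact ⟨-t, by rw [neg_neg, ht]⟩

theorem GArr_succ_le (he : IsEnum ρ h l e) (he' : IsEnum ρ h l e') {t : ℤ} (ht : e t = e' t) :
    xp l (e' (t + 1)) ≤ xp l (e (t + 1)) := by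
  obtain ⟨s, hs⟩ := he'.surj _ (he.mem (t + 1)) (he.xs (t + 1))
  have h1 : xp l (e t) < xp l (e (t + 1)) := he.mono (by omega)
  rw [ht, ← hs] at h1
  have h2 : t < s := he'.mono.lt_iff_lt.1 h1
  rw [← hs]
  exact he'.mono.monotone (by omega)

theorem GArr_pred_le (he : IsEnum ρ h l e) (he' : IsEnum ρ h l e') {t : ℤ} (ht : e t = e' t) :
    xp l (e (t - 1)) ≤ xp l (e' (t - 1)) := by
  obtain ⟨s, hs⟩ := he'.surj _ (he.mem (t - 1)) (he.xs (t - 1))
  have h1 : xp l (e (t - 1)) < xp l (e t) := he.mono (by omega)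
  rw [ht, ← hs] at h1
  have h2 : s < t := he'.mono.lt_iff_lt.1 h1
  rw [← hs]
  exact he'.mono.monotone (by omega)

theorem GArr_eq (he : IsEnum ρ h l e) (he' : IsEnum ρ h l e') {t : ℤ}
    (ht : xp l (e t) = xp l (e' t)) : e t = e' t := by
  obtain ⟨s, hs⟩ := he'.surj _ (he.mem t) (he.xs t)
  rw [← hs] at ht ⊢
  rw [he'.mono.injective ht]

theorem unique (he : IsEnum ρ h l e) (he' : IsEnum ρ h l e') (h0 : e 0 = e' 0) : e = e' := by
  funext t
  induction t using Int.induction_on with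
  | zero => exact h0
  | succ n ih => exact he.GArr_eq he' (le_antisymm (he'.GArr_succ_le he ih.symm)
      (he.GArr_succ_le he' ih))
  | pred n ih => exact he.GArr_eq he' (le_antisymm (he.GArr_pred_le he' ih)
      (he'.GArr_pred_le he ih.symm))

theorem GArr_step (he : IsEnum ρ h l e) (hf : Fill ρ h Λ D) (hl : l ∈ Λ) (t : ℤ) (n : ℕ) :
    xp l (e (t + n)) ≤ xp l (e t) + D * n := by
  induction n with
  | zero => simp
  | succ n ih =>
    obtain ⟨A, h1, h2, h3⟩ := GArr_fill hf hl (xp l (e (t + n)))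
    obtain ⟨s, rfl⟩ := he.surj A h1 h2
    have h4 : t + n < s := he.mono.lt_iff_lt.1 h3.1
    have h5 : xp l (e (t + (n + 1 : ℕ))) ≤ xp l (e s) := he.mono.monotone (by push_cast; omega)
    push_cast at h5 ⊢
    linarith [h3.2]

theorem GArr_le (he : IsEnum ρ h l e) (hf : Fill ρ h Λ D) (hl : l ∈ Λ) {s t : ℤ} (hst : t ≤ s) :
    |xp l (e s) - xp l (e t)| ≤ D * |(s : ℝ) - t| := by
  obtain ⟨n, rfl⟩ := Int.le.dest hst
  have h1 : xp l (e t) ≤ xp l (e (t + n)) := he.mono.monotone hst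
  rw [abs_of_nonneg (sub_nonneg.2 h1)]
  push_cast
  rw [add_sub_cancel_left, Nat.abs_cast]
  linarith [he.GArr_step hf hl t n]

theorem abs_sub_le (he : IsEnum ρ h l e) (hf : Fill ρ h Λ D) (hl : l ∈ Λ) (s t : ℤ) :
    |xp l (e s) - xp l (e t)| ≤ D * |(s : ℝ) - t| := by
  rcases le_total t s with hst | hst
  · exact he.GArr_le hf hl hst
  · rw [abs_sub_comm, abs_sub_comm (s : ℝ)]
    exact he.GArr_le hf hl hst

end IsEnum

end HRT
end

-- merged part: Pool.Agent.Work.MP_35beee_gt.GLimA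
section
/-!
Degenerating marked structures: the rescaled Liouville currents have a limit, a measured
lamination off the nodes.

Plan. `small_of_cross_self`: if `l` crosses `g • l` take boxes by `exists_box_of_cross`; by
`exists_box_one` and the ultrafilter property one of the two boxes has bounded mass eventually;
pull the second box back by `g` (and reversal). `small_of_cross`: `exists_nhds_le_ic`, `ic_pull`.
`le_of_fix`: let `s` fix `l.tgt` (else reverse) but not `l.src`; replacing `s` by `s⁻¹` there is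
`a` with `ccw a (s • a) (s • s • a)`, `l.src ∈ arc a (s • a)` and `l.tgt` in the opposite arc
(`Par.ccw_or`, `ccw_iff_fer_right`, `ccw_iff_fer_left`; take `a` just before `l.src`); apply
`liou_box_orbit` in the plane of `σ n`. `exists_lim`: `exists_isULim` on the complement of the
lifts (closed, as they are locally finite), local bounds from `Cover` for simple lines. By
`IsULim.null` the limit is carried by the set of simple lines with no end at a cusp, that neither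
cross a lift nor share an end with it; this set is contained in the closed set `Core ρ α R w`
(`exists_core`, `colW_le`), which is disjoint from the lifts; so `ν` is finite on compact sets.
-/

namespace HRT

open Set Filter Topology Real MeasureTheory

variable {Γ : Type*} [Group Γ] {ρ : Γ →* Isom} {N : ℝ → ℝ} {ι I : Type} {α : ι → Γ}
  {U : Ultrafilter I} {c : I → ℝ} {σ : I → Γ →* Isom} {k : I → Circ ≃ₜ Circ}

/-- A family of marked structures in which lengths off the nodes `α` grow at most like `c`. -/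
structure Deg (ρ : Γ →* Isom) {ι I : Type} (α : ι → Γ) (U : Ultrafilter I) (c : I → ℝ)
    (σ : I → Γ →* Isom) (k : I → Circ ≃ₜ Circ) : Prop where
  mark : ∀ n, IsMark ρ (σ n) (k n)
  top : Tendsto c U atTop
  sys : ∃ ε > 0, ∀ n g, Simple ρ g → ε ≤ tl (σ n g)
  node : ∀ a, Tendsto (fun n => tl (σ n (α a)) / c n) U (𝓝 0)
  bdd : ∀ β, Simple ρ β → (∀ a, inter ρ β (α a) = 0) → ∃ C, ∀ᶠ n in U, tl (σ n β) ≤ C * c n

/-- Simple lines disjoint from the nodes are seen by simple closed curves disjoint from the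
nodes. -/
def Cover (ρ : Γ →* Isom) {ι : Type} (α : ι → Γ) : Prop :=
  ∀ l, SimpleLine ρ l → (∀ m ∈ lifts ρ α, ¬ Cross l m) →
    l ∈ lifts ρ α ∨ IsCusp ρ l.src ∨ IsCusp ρ l.tgt ∨
      ∃ β, Simple ρ β ∧ (∀ a, inter ρ β (α a) = 0) ∧ (Cross l (ax (ρ β)) ∨
        ((side (ax (ρ β)) l.src.1 = 0 ∨ side (ax (ρ β)) l.tgt.1 = 0) ∧
          l ≠ ax (ρ β) ∧ l ≠ (ax (ρ β)).rev))

/-- The rescaled Liouville currents. -/
noncomputable def resc (c : I → ℝ) (k : I → Circ ≃ₜ Circ) (n : I) : Measure Geo :=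
  ENNReal.ofReal (c n)⁻¹ • pull (k n)

/-- Simple lines in the core that stay away from the nodes. -/
def Core (ρ : Γ →* Isom) {ι : Type} (α : ι → Γ) (R w : ℝ) : Set Geo :=
  {l | SimpleLine ρ l ∧ InCore ρ R l ∧ ∀ m ∈ lifts ρ α, cosh w ≤ |B (nrm m) (nrm l)|}

theorem GLimA_lift (hα : Multi ρ α) {m : Geo} (hm : m ∈ lifts ρ α) : ∃ a s, Simple ρ s ∧
    (∀ τ : Γ →* Isom, tl (τ s) = tl (τ (α a))) ∧ ax (ρ s) = m := by
  obtain ⟨a, s, h1, h2⟩ := (mem_lifts_iff fun a => (hα.1 a).hyp).1 hm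
  rcases h1 with h1 | h1
  · obtain ⟨g, rfl⟩ := isConj_iff.1 h1
    exact ⟨a, _, (hα.1 a).conj g, fun τ => tl_conj' _ _, h2⟩
  · obtain ⟨g, rfl⟩ := isConj_iff.1 h1
    exact ⟨a, _, (hα.1 a).inv.conj g, fun τ => by rw [tl_conj', map_inv, tl_inv], h2⟩

theorem GLimA_zero {O : Set Geo} {f : I → ℝ} (h : ∀ᶠ n in U, resc c k n O ≤ ENNReal.ofReal (f n))
    (hf : Tendsto f U (𝓝 0)) : Tendsto (fun n => resc c k n O) U (𝓝 0) :=
  tendsto_of_tendsto_of_tendsto_of_le_of_le' tendsto_const_nhds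
    (ENNReal.ofReal_zero ▸ ENNReal.tendsto_ofReal hf) (Eventually.of_forall fun _ => zero_le) h

theorem GLimA_orbit {g : Isom} {ξ x : Circ} (hξ : g • ξ = ξ) (h : ccw ξ x (g • x)) :
    ∃ a, ccw a (g • a) (g • g • a) ∧ x ∈ arc a (g • a) ∧ ξ ∈ arc (g • g • a) (g⁻¹ • a) := by
  have hξ' : g⁻¹ • ξ = ξ := inv_smul_eq_iff.2 hξ.symm
  have f1 : ∀ {y z}, ccw ξ y z → ccw ξ (g • y) (g • z) := fun h => by
    have := (ccw_smul_iff g).2 h
    rwa [hξ] at this
  have f2 : ∀ {y z}, ccw ξ y z → ccw ξ (g⁻¹ • y) (g⁻¹ • z) := fun h => by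
    have := (ccw_smul_iff g⁻¹).2 h
    rwa [hξ'] at this
  have h1 := f2 h
  rw [inv_smul_smul] at h1
  obtain ⟨a, ha⟩ := arc_nonempty h1.ne23
  have h2 : ccw ξ a x := (ccw.trans' ha h1.cyc).cyc.cyc
  have h3 := f1 (ccw.trans ha h1.cyc).cyc.cyc
  rw [smul_inv_smul] at h3
  have h4 := h2.trans h3
  have h5 := f2 h4
  rw [inv_smul_smul] at h5
  exact ⟨a, h4.trans' (f1 h4), h2.trans' h3, ((h5.trans h4).trans (f1 h4)).cyc.cyc⟩

theorem GLimA_share {g : Isom} (hg : Hyp g) {l : Geo}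
    (h : side (ax g) l.src.1 = 0 ∨ side (ax g) l.tgt.1 = 0) (h1 : l ≠ ax g)
    (h2 : l ≠ (ax g).rev) :
    (g • l.src = l.src ∧ g • l.tgt ≠ l.tgt) ∨ (g • l.src ≠ l.src ∧ g • l.tgt = l.tgt) := by
  rw [side_eq_zero_iff, side_eq_zero_iff, ← hg.fix_iff, ← hg.fix_iff] at h
  have h3 : ¬ (g • l.src = l.src ∧ g • l.tgt = l.tgt) := by
    rw [hg.fix_iff, hg.fix_iff]
    rintro ⟨a | a, b | b⟩
    · exact l.ne (a.trans b.symm)
    · exact h1 (Geo.ext a b)
    · exact h2 (Geo.ext a b)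
    · exact l.ne (a.trans b.symm)
  tauto

theorem isClosed_lifts [Finite ι] (hρ : Disc ρ) (hα : ∀ a, Hyp (ρ (α a))) :
    IsClosed (lifts ρ α) := by
  refine isOpen_compl_iff.1 (isOpen_iff_mem_nhds.2 fun l hl => ?_)
  have h1 : Continuous fun m : Geo => |side m o.1| :=
    (continuous_side.comp (continuous_id.prodMk continuous_const)).abs
  filter_upwards [(isOpen_lt h1 continuous_const).mem_nhds (lt_add_one |side l o.1|),
    (finite_lifts_near hρ hα o (|side l o.1| + 1)).isClosed.isOpen_compl.mem_nhds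
      fun h => hl h.1] with m h2 h3 hm using h3 ⟨hm, h2.le⟩

theorem isClosed_core (hρ : Disc ρ) (R w : ℝ) : IsClosed (Core ρ α R w) := by
  refine isClosed_simpleLine.inter ((hρ.isClosed_inCore R).inter ?_)
  have h : IsClosed (⋂ m ∈ lifts ρ α, {l : Geo | cosh w ≤ |B (nrm m) (nrm l)|}) :=
    isClosed_biInter fun m _ =>
      isClosed_le continuous_const (continuous_const.B' continuous_nrm).abs
  exact (congrArg IsClosed (Set.ext fun l => mem_iInter₂)).mp h

theorem exists_core_const [Finite ι] (hρ : Good ρ N) (hα : Multi ρ α) : ∃ R w : ℝ, 0 < w ∧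
    ∀ l, SimpleLine ρ l → ¬ IsCusp ρ l.src → ¬ IsCusp ρ l.tgt →
      (∀ m ∈ lifts ρ α, 0 < side m l.src.1 * side m l.tgt.1) → l ∈ Core ρ α R w := by
  obtain ⟨R, hR⟩ := hρ.exists_core
  obtain ⟨L, hL⟩ := (finite_range fun a => tl (ρ (α a))).bddAbove
  have hw : 0 < colW (max L 1) := colW_pos (lt_max_of_lt_right one_pos)
  refine ⟨R, _, hw, fun l h1 h2 h3 h4 => ⟨h1, hR l h1 h2 h3, fun m hm => ?_⟩⟩
  obtain ⟨a, s, hs, ht, rfl⟩ := GLimA_lift hα hm
  have h5 := h4 _ hm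
  have h6 : colW (max L 1) ≤ colW (tl (ρ s)) :=
    colW_anti hs.hyp (le_max_of_le_left ((ht ρ).trans_le (hL ⟨a, rfl⟩)))
  rw [← cosh_ldist h5.le.not_gt, cosh_le_cosh, abs_of_pos hw]
  exact (h6.trans (colW_le hs.hyp h5 (h1 s))).trans (le_abs_self _)

namespace Deg

theorem GLimA_le (hd : Deg ρ α U c σ k) {O : Set Geo} {f : I → ℝ}
    (h : ∀ᶠ n in U, pull (k n) O ≤ ENNReal.ofReal (f n)) :
    ∀ᶠ n in U, resc c k n O ≤ ENNReal.ofReal (f n / c n) := by
  filter_upwards [h, hd.top.eventually_ge_atTop 0] with n h1 h2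
  rw [resc, Measure.smul_apply, smul_eq_mul, div_eq_inv_mul, ENNReal.ofReal_mul (inv_nonneg.2 h2)]
  exact mul_le_mul_right h1 _

theorem GLimA_fix0 (hd : Deg ρ α U c σ k) {l : Geo} {s : Γ} (hs : Par (ρ s) ∨ Simple ρ s)
    (h1 : ccw l.tgt l.src (ρ s • l.src)) (h2 : ρ s • l.tgt = l.tgt) :
    ∃ O, IsOpen O ∧ l ∈ O ∧ ∃ C : ℝ, ∀ n, pull (k n) O ≤ ENNReal.ofReal (tl (σ n s) + C) := by
  obtain ⟨a, a1, a2, a3⟩ := GLimA_orbit h2 h1
  obtain ⟨ε, hε, hsys⟩ := hd.sys
  obtain ⟨C, -, hC⟩ := liou_box_orbit hε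
  refine ⟨box a (ρ s • a) (ρ s • ρ s • a) ((ρ s)⁻¹ • a), isOpen_box _ _ _ _, ⟨a2, a3⟩, C,
    fun n => ?_⟩
  have hm := hd.mark n
  have a4 := hm.1 _ _ _ a1
  rw [pull_apply _ (isOpen_box _ _ _ _).measurableSet, hm.ori.image_box, ← map_inv]
  simp only [hm.2] at a4 ⊢
  rw [map_inv]
  exact hC _ _ (hs.imp (fun h => (hm.par h).1) (hsys n s)) a4

theorem GLimA_fix (hd : Deg ρ α U c σ k) {l : Geo} {s : Γ} (hs : Par (ρ s) ∨ Simple ρ s)
    (h1 : ρ s • l.src ≠ l.src) (h2 : ρ s • l.tgt = l.tgt) :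
    ∃ O, IsOpen O ∧ l ∈ O ∧ ∃ C : ℝ, ∀ n, pull (k n) O ≤ ENNReal.ofReal (tl (σ n s) + C) := by
  rcases ccw_total l.ne.symm h1.symm
    (fun h => l.ne (smul_left_cancel (ρ s) (h.symm.trans h2.symm))) with h | h
  · exact hd.GLimA_fix0 hs h h2
  · have h3 : (ρ s)⁻¹ • l.tgt = l.tgt := inv_smul_eq_iff.2 h2.symm
    have h4 := (ccw_smul_iff (ρ s)⁻¹).2 h
    rw [h3, inv_smul_smul] at h4
    have := hd.GLimA_fix0 (l := l) (s := s⁻¹)
      (hs.imp (fun h => by rw [map_inv]; exact h.inv.1) Simple.inv)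
      (by rwa [map_inv]) (by rwa [map_inv])
    simpa only [map_inv, tl_inv] using this

theorem small_of_cross_self (hd : Deg ρ α U c σ k) {l : Geo} (hl : ¬ SimpleLine ρ l) :
    ∃ O, IsOpen O ∧ l ∈ O ∧ Tendsto (fun n => resc c k n O) U (𝓝 0) := by
  obtain ⟨g, hg⟩ := not_forall.1 hl
  obtain ⟨a, b, c', d, h1, h2, h3, h4⟩ := exists_box_of_cross (not_not.1 hg)
  obtain ⟨C, hC⟩ := exists_box_one
  have h0 : Tendsto (fun n => C / c n) U (𝓝 0) := hd.top.const_div_atTop C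
  have ho := isOpen_box b c' d a
  have hg' : Continuous fun m : Geo => ρ g • m := continuous_const_smul _
  rcases Ultrafilter.eventually_or.1 (Eventually.of_forall (f := U)
    fun n => hC (k n) (hd.mark n).ori a b c' d h1 h2) with h | h
  · exact ⟨_, isOpen_box _ _ _ _, h3, GLimA_zero (hd.GLimA_le h) h0⟩
  rcases h4 with h4 | h4
  · refine ⟨_, ho.preimage hg', h4, GLimA_zero (hd.GLimA_le (h.mono fun n hn => ?_)) h0⟩
    rwa [((hd.mark n).cur_pull.smul g).measure_preimage ho.measurableSet.nullMeasurableSet]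
  · have ho' := ho.preimage Geo.continuous_rev
    refine ⟨_, ho'.preimage hg', h4, GLimA_zero (hd.GLimA_le (h.mono fun n hn => ?_)) h0⟩
    rwa [((hd.mark n).cur_pull.smul g).measure_preimage ho'.measurableSet.nullMeasurableSet,
      (hd.mark n).cur_pull.rev.measure_preimage ho.measurableSet.nullMeasurableSet]

theorem le_of_cross (hd : Deg ρ α U c σ k) {l : Geo} {s : Γ} (hs : Hyp (ρ s))
    (hl : Cross l (ax (ρ s))) :
    ∃ O, IsOpen O ∧ l ∈ O ∧ ∀ᶠ n in U, resc c k n O ≤ ENNReal.ofReal (tl (σ n s) / c n) := by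
  obtain ⟨O, h1, h2, h3⟩ := exists_nhds_le_ic hs hl
  exact ⟨O, h1, h2, hd.GLimA_le (Eventually.of_forall fun n =>
    (hd.mark n).ic_pull s ▸ h3 _ (hd.mark n).cur_pull)⟩

theorem le_of_fix (hd : Deg ρ α U c σ k) {l : Geo} {s : Γ} (hs : Par (ρ s) ∨ Simple ρ s)
    (hl : (ρ s • l.src = l.src ∧ ρ s • l.tgt ≠ l.tgt) ∨
      (ρ s • l.src ≠ l.src ∧ ρ s • l.tgt = l.tgt)) : ∃ O, IsOpen O ∧ l ∈ O ∧ ∃ C : ℝ,
        ∀ᶠ n in U, resc c k n O ≤ ENNReal.ofReal ((tl (σ n s) + C) / c n) := by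
  rcases hl with hl | hl
  · obtain ⟨O, h1, h2, C, h3⟩ := hd.GLimA_fix (l := l.rev) hs hl.2 hl.1
    refine ⟨_, h1.preimage Geo.continuous_rev, h2, C,
      hd.GLimA_le (Eventually.of_forall fun n => ?_)⟩
    rw [(hd.mark n).cur_pull.rev.measure_preimage h1.measurableSet.nullMeasurableSet]
    exact h3 n
  · obtain ⟨O, h1, h2, C, h3⟩ := hd.GLimA_fix hs hl.1 hl.2
    exact ⟨O, h1, h2, C, hd.GLimA_le (Eventually.of_forall h3)⟩

theorem GLimA_bad (hd : Deg ρ α U c σ k) (hα : Multi ρ α) {Z : Set Geo}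
    (hZ : ∀ l, SimpleLine ρ l → ¬ IsCusp ρ l.src → ¬ IsCusp ρ l.tgt →
      (∀ m ∈ lifts ρ α, 0 < side m l.src.1 * side m l.tgt.1) → l ∈ Z) :
    ∀ l ∈ Zᶜ, l ∈ (lifts ρ α)ᶜ →
      ∃ O, IsOpen O ∧ l ∈ O ∧ Tendsto (fun n => resc c k n O) U (𝓝 0) := by
  intro l hl hl'
  have key : ∀ s, (Par (ρ s) ∨ Simple ρ s) → Tendsto (fun n => tl (σ n s) / c n) U (𝓝 0) →
      (ρ s • l.src = l.src ∧ ρ s • l.tgt ≠ l.tgt) ∨ (ρ s • l.src ≠ l.src ∧ ρ s • l.tgt = l.tgt) →
      ∃ O, IsOpen O ∧ l ∈ O ∧ Tendsto (fun n => resc c k n O) U (𝓝 0) := by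
    intro s h1 h2 h3
    obtain ⟨O, a1, a2, C, a3⟩ := hd.le_of_fix h1 h3
    refine ⟨O, a1, a2, GLimA_zero a3 ?_⟩
    simpa only [add_div, add_zero] using h2.add (hd.top.const_div_atTop C)
  have hp : ∀ u, Par (ρ u) → Tendsto (fun n => tl (σ n u) / c n) U (𝓝 0) := fun u hu => by
    simp only [fun n => ((hd.mark n).par hu).1.2, zero_div]
    exact tendsto_const_nhds
  by_cases h1 : SimpleLine ρ l
  swap
  · exact hd.small_of_cross_self h1
  by_cases h2 : IsCusp ρ l.src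
  · obtain ⟨u, hu, e⟩ := h2
    exact key u (.inl hu) (hp u hu) (.inl ⟨(hu.fix_iff _).2 e.symm,
      fun h => l.ne (e.symm.trans ((hu.fix_iff _).1 h).symm)⟩)
  by_cases h3 : IsCusp ρ l.tgt
  · obtain ⟨u, hu, e⟩ := h3
    exact key u (.inl hu) (hp u hu) (.inr ⟨fun h => l.ne (((hu.fix_iff _).1 h).trans e),
      (hu.fix_iff _).2 e.symm⟩)
  obtain ⟨m, hm⟩ := not_forall.1 fun h => hl (hZ l h1 h2 h3 h)
  obtain ⟨hm, h4⟩ := Classical.not_imp.1 hm
  obtain ⟨a, s, hs, ht, rfl⟩ := GLimA_lift hα hm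
  have h5 : Tendsto (fun n => tl (σ n s) / c n) U (𝓝 0) := by
    simpa only [ht] using hd.node a
  rcases (not_lt.1 h4).lt_or_eq with h6 | h6
  · obtain ⟨O, a1, a2, a3⟩ := hd.le_of_cross hs.hyp (Cross.symm h6)
    exact ⟨O, a1, a2, GLimA_zero a3 h5⟩
  · exact key s (.inr hs) h5 (GLimA_share hs.hyp (mul_eq_zero.1 h6) (fun h => hl' (h ▸ hm))
      fun h => hl' (h ▸ rev_mem_lifts hm))

theorem exists_lim [Finite ι] (hd : Deg ρ α U c σ k) (hρ : Good ρ N) (hα : Multi ρ α)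
    (hc : Cover ρ α) : ∃ ν : Measure Geo, Cur ρ ν ∧ IsULim U (resc c k) (lifts ρ α)ᶜ ν ∧
      ∃ R w : ℝ, 0 < w ∧ ν (Core ρ α R w)ᶜ = 0 := by
  obtain ⟨R, w, hw, hcore⟩ := exists_core_const hρ hα
  have hW := (isClosed_lifts hρ.toDisc fun a => (hα.1 a).hyp).isOpen_compl
  have hbad := hd.GLimA_bad hα hcore
  obtain ⟨ν, h1, h2⟩ := exists_isULim U (resc c k) hW fun l hl => by
    by_cases h : l ∈ Core ρ α R w
    swap
    · obtain ⟨O, a1, a2, a3⟩ := hbad l h hl
      exact ⟨O, a1, a2, 1, ENNReal.one_lt_top, a3.eventually_le_const one_pos⟩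
    have hn := hρ.toDisc.not_cusp_of_inCore h.2.1
    obtain ⟨β, b1, b2, b3⟩ := (((hc l h.1 fun m hm hx => by
      rw [cross_comm, cross_iff_abs_B] at hx
      exact absurd ((one_le_cosh w).trans (h.2.2 m hm)) hx.not_ge).resolve_left hl).resolve_left
        hn.1).resolve_left hn.2
    obtain ⟨C, hC⟩ := hd.bdd β b1 b2
    have hC' : ∀ᶠ n in U, tl (σ n β) / c n ≤ C := by
      filter_upwards [hC, hd.top.eventually_gt_atTop 0] with n a1 a2 using (div_le_iff₀ a2).2 a1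
    rcases b3 with b3 | ⟨b3, b4, b5⟩
    · obtain ⟨O, a1, a2, a3⟩ := hd.le_of_cross b1.hyp b3
      refine ⟨O, a1, a2, ENNReal.ofReal C, ENNReal.ofReal_lt_top, ?_⟩
      filter_upwards [a3, hC'] with n a4 a5 using a4.trans (ENNReal.ofReal_le_ofReal a5)
    · obtain ⟨O, a1, a2, D, a3⟩ := hd.le_of_fix (.inr b1) (GLimA_share b1.hyp b3 b4 b5)
      refine ⟨O, a1, a2, ENNReal.ofReal (C + 1), ENNReal.ofReal_lt_top, ?_⟩
      filter_upwards [a3, hC', (hd.top.const_div_atTop D).eventually_le_const one_pos]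
        with n a4 a5 a6
      exact a4.trans (ENNReal.ofReal_le_ofReal (by rw [add_div]; exact add_le_add a5 a6))
  have h0 : ν (Core ρ α R w)ᶜ = 0 := h1.null hW hbad
  refine ⟨ν, ⟨⟨fun K hK => ?_⟩, fun g => ?_, ?_⟩, h1, R, w, hw, h0⟩
  · rw [← measure_inter_conull h0]
    refine h1.fin _ (hK.inter_right (isClosed_core hρ.toDisc R w)) fun l hl hm => ?_
    have := hl.2.2.2 l hm
    rw [B_nrm_nrm, abs_one] at this
    exact absurd (one_lt_cosh.2 hw.ne') this.not_gt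
  · refine h2 (Homeomorph.smul (ρ g)) (Set.ext fun l => not_congr ⟨fun h => ?_, smul_mem_lifts g⟩)
      fun n => ((hd.mark n).cur_pull.smul g).smul_measure _
    have := smul_mem_lifts g⁻¹ h
    rwa [map_inv, Homeomorph.smul_apply, inv_smul_smul] at this
  · exact h2 ⟨⟨Geo.rev, Geo.rev, Geo.rev_rev, Geo.rev_rev⟩, Geo.continuous_rev, Geo.continuous_rev⟩
      (Set.ext fun l => not_congr ⟨rev_mem_lifts, rev_mem_lifts⟩)
      fun n => (hd.mark n).cur_pull.rev.smul_measure _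

end Deg

end HRT
end

-- merged part: Pool.Agent.Work.MP_35beee_gt.MUniB
section
/-!
Uniform convergence of the masses of blocks along lines of the core.

Plan. The limit `ν` is finite only on compact sets that miss the lifts of `α`. `core_side`:
`cosh_ldist`, `ldist_le_arsinh`. The set `K` of lines through a point `p` with `dist o p ≤ R` and
`sinh w ≤ |side m p|` for all lifts `m` is compact and misses the lifts; let `C₀ = ν K`. By
invariance the lines through `pt A t`, `A ∈ Core`, have `ν`-mass at most `C₀`.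
`block_lim`: the open set `O = xs A (Ioo t (t+T))` misses the lifts. A compact subset of `O` has an
open neighbourhood with compact closure in `O`, which is eventually contained in
`xs (A n) (Ico (t n) (t n + T))` (`continuousAt_xp`, `isOpen_cross`, tube lemma); use inner
regularity of `ν` on the open set `O` (it is locally finite there; or exhaust `O` by an increasing
sequence of such open sets) and `lower`. The compact sets `K δ` of lines meeting the closed
`δ`-neighbourhood of the segment `pt A '' [t, t+T]` miss the lifts for `δ < w`, and decrease to the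
set `K 0` of lines meeting the segment. By reversal `2 * M n (xs (A n) ..) ≤ M n (K δ)` eventually,
and `K 0` is contained in `O`, the reverse of `O`, and the lines through the two endpoints
(`cross_of_common`, `side_pt_eq_zero_iff`). `block`: otherwise (ultrafilter) choose bad pairs,
translate `pt (A n) (t n)` to within `R` of `o` (`smul_mem_xs`, `smul_pt`; `|t| ≤ dist o (pt A t)`
as `fer A o = 0`), take the limit (`isCompact_lines`, `isClosed_core`) and apply `block_lim` to `M`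
and to the constant family `ν`. `ic_le_of_block`: cover `j` periods by `⌈j tl / T⌉` blocks, which
lie in `j + j₀` periods; `ic_pow`, `Hyp.pow`; divide by `j`. `le_ic_of_block`: the first one for
a multiple of `liou` (`liou_xs`, `ic_liou`).
-/

namespace HRT

open Set Filter Topology Real MeasureTheory

variable {Γ : Type*} [Group Γ] {ρ : Γ →* Isom} {ι I : Type} {α : ι → Γ} {U : Ultrafilter I}
  {R w : ℝ} {M : I → Measure Geo} {μ ν : Measure Geo}

theorem Core.smul {l : Geo} (h : l ∈ Core ρ α R w) (g : Γ) : ρ g • l ∈ Core ρ α R w := by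
  refine ⟨h.1.smul g, h.2.1.smul g, fun m hm => ?_⟩
  have h1 := h.2.2 _ (smul_mem_lifts g⁻¹ hm)
  rw [← B_lin (ρ g), ← nrm_smul, ← nrm_smul, map_inv, smul_inv_smul] at h1
  exact h1

theorem core_side {A m : Geo} (h : A ∈ Core ρ α R w) (hw : 0 < w) (hm : m ∈ lifts ρ α) (t : ℝ) :
    sinh w ≤ |side m (pt A t).1| := by
  have h1 := h.2.2 m hm
  have h2 : ¬ Cross m A := by
    rw [cross_iff_abs_B, not_lt]
    exact (one_le_cosh w).trans h1
  rw [← cosh_ldist h2, cosh_le_cosh, abs_of_pos hw, abs_of_nonneg (ldist_nonneg h2)] at h1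
  have h3 := sinh_le_sinh.2 (h1.trans (ldist_le_arsinh h2 (side_pt A t)))
  rwa [← abs_sinh, sinh_arsinh] at h3

theorem MUniB_near {l : Geo} {p q : Pt} {a b : ℝ} (h1 : |side l p.1| ≤ sinh a)
    (h2 : dist p q ≤ b) : |side l q.1| ≤ sinh (a + b) := by
  have h3 := abs_arsinh_side_le l q p
  have h4 : |arsinh (side l p.1)| ≤ a := by
    rw [← sinh_le_sinh, ← abs_sinh, sinh_arsinh]
    exact h1
  have h5 : |arsinh (side l q.1)| ≤ a + b := by
    have h6 := abs_sub_abs_le_abs_sub (arsinh (side l q.1)) (arsinh (side l p.1))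
    rw [dist_comm] at h3
    linarith
  have h7 := sinh_le_sinh.2 h5
  rwa [← abs_sinh, sinh_arsinh] at h7

theorem MUniB_near0 {l : Geo} {p q : Pt} {b : ℝ} (h1 : side l p.1 = 0)
    (h2 : dist p q ≤ b) : |side l q.1| ≤ sinh b := by
  have h3 := MUniB_near (a := 0) (by rw [h1, abs_zero, sinh_zero]) h2
  rwa [zero_add] at h3

/-- Exhaustion of a set by a directed family of open sets. -/
theorem MUniB_exhaust {X : Type*} [TopologicalSpace X] [SecondCountableTopology X]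
    [MeasurableSpace X] (ν : Measure X) {O : Set X} {P : Set X → Prop} (h0 : P ∅)
    (hu : ∀ s t, P s → P t → P (s ∪ t)) (ho : ∀ s, P s → IsOpen s)
    (hc : ∀ x ∈ O, ∃ s, P s ∧ x ∈ s) {a : ENNReal} (ha : a < ν O) : ∃ s, P s ∧ a < ν s := by
  obtain ⟨T, h1, h2, h3⟩ := TopologicalSpace.isOpen_sUnion_countable {s | P s} ho
  obtain ⟨f, hf⟩ := (h1.insert ∅).exists_eq_range (insert_nonempty _ _)
  have h4 : ∀ i, P (f i) := fun i => by
    have h5 : f i ∈ insert ∅ T := by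
      rw [hf]
      exact mem_range_self i
    rcases h5 with h5 | h5
    · rw [h5]
      exact h0
    · exact h2 h5
  have h6 : O ⊆ ⋃ i, f i := fun x hx => by
    obtain ⟨s, hs, hx⟩ := hc x hx
    have h7 : x ∈ ⋃₀ T := by
      rw [h3]
      exact ⟨s, hs, hx⟩
    obtain ⟨s, hs, hx⟩ := h7
    have h8 : s ∈ range f := by
      rw [← hf]
      exact mem_insert_of_mem _ hs
    obtain ⟨i, rfl⟩ := h8
    exact mem_iUnion.2 ⟨i, hx⟩
  have h9 := ha.trans_le (measure_mono h6)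
  rw [measure_iUnion_eq_iSup_accumulate, lt_iSup_iff] at h9
  obtain ⟨i, hi⟩ := h9
  refine ⟨_, ?_, hi⟩
  clear hi
  induction i with
  | zero =>
    rw [accumulate_zero_nat]
    exact h4 0
  | succ i ih =>
    rw [accumulate_succ]
    exact hu _ _ ih (h4 _)

theorem MUniB_open (T : ℝ) :
    IsOpen {x : (Geo × ℝ) × Geo | x.2 ∈ xs x.1.1 (Ioo x.1.2 (x.1.2 + T))} := by
  rw [isOpen_iff_mem_nhds]
  rintro ⟨⟨A, t⟩, l⟩ ⟨h1, h2, h3, h4⟩
  have c0 : Continuous fun x : (Geo × ℝ) × Geo => x.1.1 := continuous_fst.fst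
  have c1 : Continuous fun x : (Geo × ℝ) × Geo => side x.1.1 x.2.src.1 :=
    Continuous.comp (g := fun x : Geo × V => side x.1 x.2)
      (f := fun x : (Geo × ℝ) × Geo => (x.1.1, x.2.src.1)) continuous_side
      (c0.prodMk (GFermi_cs.comp continuous_snd))
  have c2 : Continuous fun x : (Geo × ℝ) × Geo => side x.1.1 x.2.tgt.1 :=
    Continuous.comp (g := fun x : Geo × V => side x.1 x.2)
      (f := fun x : (Geo × ℝ) × Geo => (x.1.1, x.2.tgt.1)) continuous_side
      (c0.prodMk (GFermi_ct.comp continuous_snd))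
  have c3 : ContinuousAt (fun x : (Geo × ℝ) × Geo => xp x.1.1 x.2) ((A, t), l) :=
    ContinuousAt.comp (g := fun x : Geo × Geo => xp x.1 x.2)
      (f := fun x : (Geo × ℝ) × Geo => (x.1.1, x.2)) (x := ((A, t), l))
      (continuousAt_xp (mul_neg_of_neg_of_pos h1 h2)) (c0.prodMk continuous_snd).continuousAt
  have c4 : Continuous fun x : (Geo × ℝ) × Geo => x.1.2 := continuous_fst.snd
  have e1 := c1.continuousAt.eventually_lt (x₀ := ((A, t), l)) continuousAt_const h1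
  have e2 := continuousAt_const.eventually_lt (x₀ := ((A, t), l)) c2.continuousAt h2
  have e3 := c4.continuousAt.eventually_lt c3 h3
  have e4 := c3.eventually_lt (c4.add continuous_const).continuousAt h4
  filter_upwards [e1, e2, e3, e4] with x a1 a2 a3 a4
  exact ⟨a1, a2, a3, a4⟩

theorem MUniB_nhds {A l : Geo} {t T : ℝ} (hl : l ∈ xs A (Ioo t (t + T))) :
    ∃ s, IsOpen s ∧ l ∈ s ∧ ∀ᶠ x : Geo × ℝ in 𝓝 (A, t), s ⊆ xs x.1 (Ico x.2 (x.2 + T)) := by
  have h0 : ((A, t), l) ∈ {x : (Geo × ℝ) × Geo | x.2 ∈ xs x.1.1 (Ioo x.1.2 (x.1.2 + T))} := hl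
  obtain ⟨s, s', h1, h2, h3, h4, h5⟩ := isOpen_prod_iff.1 (MUniB_open T) _ _ h0
  refine ⟨s', h2, h4, ?_⟩
  filter_upwards [h1.mem_nhds h3] with x hx m hm
  have h6 := h5 (mk_mem_prod hx hm)
  have h7 : m ∈ xs x.1 (Ioo x.2 (x.2 + T)) := h6
  exact xs_mono _ Ioo_subset_Ico_self h7

/-- Lines that pass close to a segment of `A`. -/
def MUniB_K (A : Geo) (t T δ : ℝ) : Set Geo :=
  {l | ∃ u ∈ Icc 0 T, |side l (pt A (t + u)).1| ≤ sinh δ}

theorem MUniB_cont (A : Geo) (t : ℝ) :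
    Continuous fun x : ℝ × Geo => |side x.2 (pt A (t + x.1)).1| := by
  have c1 : Continuous fun x : ℝ × Geo => pt A (t + x.1) :=
    Continuous.comp (g := fun x : Geo × ℝ => pt x.1 x.2)
      (f := fun x : ℝ × Geo => (A, t + x.1)) continuous_pt
      (continuous_const.prodMk (continuous_const.add continuous_fst))
  exact (Continuous.comp (g := fun x : Geo × V => side x.1 x.2)
    (f := fun x : ℝ × Geo => (x.2, (pt A (t + x.1)).1)) continuous_side
    (continuous_snd.prodMk (GMet_cont_val.comp c1))).abs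

theorem MUniB_K_compact (A : Geo) (t T δ : ℝ) : IsCompact (MUniB_K A t T δ) := by
  have h1 : IsCompact {x : ℝ × Geo | x.1 ∈ Icc 0 T ∧ |side x.2 (pt A (t + x.1)).1| ≤ sinh δ} := by
    refine ((isCompact_Icc (a := 0) (b := T)).prod
      (isCompact_lines (pt A t) (sinh (δ + T)))).of_isClosed_subset
      ((isClosed_Icc.preimage continuous_fst).inter
        (isClosed_le (MUniB_cont A t) continuous_const)) ?_
    rintro ⟨u, l⟩ ⟨h2, h3⟩
    refine ⟨h2, MUniB_near h3 ?_⟩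
    rw [dist_pt, add_sub_cancel_left, abs_of_nonneg h2.1]
    exact h2.2
  convert h1.image continuous_snd using 1
  ext l
  constructor
  · rintro ⟨u, h2, h3⟩
    exact ⟨(u, l), ⟨h2, h3⟩, rfl⟩
  · rintro ⟨⟨u, l⟩, ⟨h2, h3⟩, rfl⟩
    exact ⟨u, h2, h3⟩

theorem MUniB_K_sub {A : Geo} (h : A ∈ Core ρ α R w) (hw : 0 < w) (t T : ℝ) {δ : ℝ}
    (hδ : δ < w) : MUniB_K A t T δ ⊆ (lifts ρ α)ᶜ := by
  rintro l ⟨u, -, h2⟩ hl
  exact absurd ((core_side h hw hl _).trans h2) (not_le.2 (sinh_lt_sinh.2 hδ))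

theorem MUniB_K_mono (A : Geo) (t T : ℝ) {δ ε : ℝ} (h : δ ≤ ε) :
    MUniB_K A t T δ ⊆ MUniB_K A t T ε := by
  rintro l ⟨u, h1, h2⟩
  exact ⟨u, h1, h2.trans (sinh_le_sinh.2 h)⟩

theorem MUniB_xs_sub (A : Geo) (t T : ℝ) : xs A (Icc t (t + T)) ⊆ MUniB_K A t T 0 := by
  intro l hl
  refine ⟨xp A l - t, ⟨sub_nonneg.2 hl.2.2.1, sub_le_iff_le_add'.2 hl.2.2.2⟩, ?_⟩
  rw [add_sub_cancel, (side_pt_eq_zero_iff (xs_cross hl) _).2 rfl, abs_zero, sinh_zero]

theorem MUniB_K_inter (A : Geo) (t : ℝ) {T : ℝ} (hT : 0 ≤ T) {d : ℕ → ℝ}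
    (hd : Tendsto d atTop (𝓝 0)) : ⋂ i, MUniB_K A t T (d i) ⊆ MUniB_K A t T 0 := by
  intro l hl
  have c1 : Continuous fun u : ℝ => |side l (pt A (t + u)).1| :=
    Continuous.comp (g := fun x : ℝ × Geo => |side x.2 (pt A (t + x.1)).1|)
      (f := fun u : ℝ => (u, l)) (MUniB_cont A t) (continuous_id.prodMk continuous_const)
  obtain ⟨u, h1, h2⟩ := (isCompact_Icc (a := 0) (b := T)).exists_isMinOn
    (nonempty_Icc.2 hT) c1.continuousOn
  refine ⟨u, h1, ge_of_tendsto' ((continuous_sinh.tendsto 0).comp hd) fun i => ?_⟩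
  obtain ⟨v, h3, h4⟩ := mem_iInter.1 hl i
  exact (h2 h3).trans h4

theorem MUniB_K_zero (A : Geo) (t T : ℝ) : MUniB_K A t T 0 ⊆
    (xs A (Ioo t (t + T)) ∪ Geo.rev ⁻¹' xs A (Ioo t (t + T))) ∪
      ({l | side l (pt A t).1 = 0} ∪ {l | side l (pt A (t + T)).1 = 0}) := by
  rintro l ⟨u, h1, h2⟩
  rw [sinh_zero, abs_nonpos_iff] at h2
  by_cases h3 : side l (pt A t).1 = 0
  · exact Or.inr (Or.inl h3)
  by_cases h4 : side l (pt A (t + T)).1 = 0
  · exact Or.inr (Or.inr h4)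
  have h5 : u ≠ 0 := by
    rintro rfl
    rw [add_zero] at h2
    exact h3 h2
  have h6 : u ≠ T := by
    rintro rfl
    exact h4 h2
  have h7 : Cross A l := by
    refine cross_of_common (side_pt A _) h2 ?_ ?_
    · rintro rfl
      exact h3 (side_pt _ _)
    · rintro rfl
      exact h3 (by rw [side_rev, side_pt, neg_zero])
  have h8 := (side_pt_eq_zero_iff h7 _).1 h2
  have h9 : xp A l ∈ Ioo t (t + T) := by
    rw [← h8]
    exact ⟨lt_add_of_pos_right _ (lt_of_le_of_ne h1.1 h5.symm),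
      add_lt_add_right (lt_of_le_of_ne h1.2 h6) _⟩
  rcases h7.mem_xs with h | h
  · exact Or.inl (Or.inl ⟨h.1, h.2.1, h9⟩)
  · exact Or.inl (Or.inr ⟨h.1, h.2.1, by rwa [xp_rev_right]⟩)

theorem MUniB_two (hμ : MeasurePreserving Geo.rev μ μ) (A : Geo) {J : Set ℝ}
    (hJ : MeasurableSet J) : μ (xs A J ∪ Geo.rev ⁻¹' xs A J) = 2 * μ (xs A J) := by
  have h1 := measurableSet_xs A hJ
  rw [measure_union _ (measurable_rev h1), hμ.measure_preimage h1.nullMeasurableSet, two_mul]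
  refine Set.disjoint_left.2 fun l h2 h3 => ?_
  exact lt_asymm h2.1 h3.2.1

theorem MUniB_close (A₀ : Geo) (t₀ T : ℝ) {δ : ℝ} (hδ : 0 < δ) : ∀ᶠ x : Geo × ℝ in 𝓝 (A₀, t₀),
    xs x.1 (Ico x.2 (x.2 + T)) ∪ Geo.rev ⁻¹' xs x.1 (Ico x.2 (x.2 + T)) ⊆ MUniB_K A₀ t₀ T δ := by
  have c1 : Continuous fun z : (Geo × ℝ) × ℝ => pt z.1.1 (z.1.2 + z.2) :=
    Continuous.comp (g := fun x : Geo × ℝ => pt x.1 x.2)
      (f := fun z : (Geo × ℝ) × ℝ => (z.1.1, z.1.2 + z.2)) continuous_pt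
      (continuous_fst.fst.prodMk (continuous_fst.snd.add continuous_snd))
  have c2 : Continuous fun z : (Geo × ℝ) × ℝ => pt A₀ (t₀ + z.2) :=
    Continuous.comp (g := fun x : Geo × ℝ => pt x.1 x.2)
      (f := fun z : (Geo × ℝ) × ℝ => (A₀, t₀ + z.2)) continuous_pt
      (continuous_const.prodMk (continuous_const.add continuous_snd))
  have h1 : ∀ᶠ x : Geo × ℝ in 𝓝 (A₀, t₀), ∀ u ∈ Icc 0 T,
      dist (pt x.1 (x.2 + u)) (pt A₀ (t₀ + u)) < δ := by
    refine (isCompact_Icc (a := 0) (b := T)).eventually_forall_of_forall_eventually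
      (P := fun (x : Geo × ℝ) u => dist (pt x.1 (x.2 + u)) (pt A₀ (t₀ + u)) < δ) fun u _ => ?_
    refine (c1.dist c2).continuousAt.eventually_lt continuousAt_const ?_
    rw [dist_self]
    exact hδ
  filter_upwards [h1] with x hx
  have h2 : xs x.1 (Ico x.2 (x.2 + T)) ⊆ MUniB_K A₀ t₀ T δ := fun l hl => by
    obtain ⟨u, h3, h4⟩ := MUniB_xs_sub x.1 x.2 T (xs_mono _ Ico_subset_Icc_self hl)
    rw [sinh_zero, abs_nonpos_iff] at h4
    exact ⟨u, h3, MUniB_near0 h4 (hx u h3).le⟩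
  refine union_subset h2 fun l hl => ?_
  obtain ⟨u, h3, h4⟩ := h2 hl
  rw [side_rev, abs_neg] at h4
  exact ⟨u, h3, h4⟩

theorem block_lim [Finite ι] (hρ : Disc ρ) (hα : ∀ a, Hyp (ρ (α a))) (hw : 0 < w)
    (hM : ∀ n, MeasurePreserving Geo.rev (M n) (M n)) (hν : MeasurePreserving Geo.rev ν ν)
    (hl : IsULim U M (lifts ρ α)ᶜ ν) {A : I → Geo} {t : I → ℝ} {A₀ : Geo} {t₀ T : ℝ}
    (hA : Tendsto A U (𝓝 A₀)) (ht : Tendsto t U (𝓝 t₀)) (h0 : A₀ ∈ Core ρ α R w) (hT : 0 < T) :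
    (∀ a < ν (xs A₀ (Ioo t₀ (t₀ + T))), ∀ᶠ n in U, a < M n (xs (A n) (Ico (t n) (t n + T)))) ∧
      ∀ a > ν (xs A₀ (Ioo t₀ (t₀ + T))) + ν {l | side l (pt A₀ t₀).1 = 0} +
        ν {l | side l (pt A₀ (t₀ + T)).1 = 0},
          ∀ᶠ n in U, M n (xs (A n) (Ico (t n) (t n + T))) < a := by
  have hx : Tendsto (fun n => (A n, t n)) U (𝓝 (A₀, t₀)) := hA.prodMk_nhds ht
  have hO : xs A₀ (Ioo t₀ (t₀ + T)) ⊆ (lifts ρ α)ᶜ :=
    ((xs_mono _ Ioo_subset_Icc_self).trans (MUniB_xs_sub A₀ t₀ T)).trans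
      (MUniB_K_sub h0 hw t₀ T hw)
  constructor
  · intro a ha
    obtain ⟨s, ⟨h1, h2, h3⟩, h4⟩ := MUniB_exhaust ν (P := fun s => IsOpen s ∧ s ⊆ (lifts ρ α)ᶜ ∧
        ∀ᶠ n in U, s ⊆ xs (A n) (Ico (t n) (t n + T)))
      ⟨isOpen_empty, empty_subset _, Eventually.of_forall fun _ => empty_subset _⟩
      (fun s s' hs hs' => ⟨hs.1.union hs'.1, union_subset hs.2.1 hs'.2.1,
        (hs.2.2.and hs'.2.2).mono fun n hn => union_subset hn.1 hn.2⟩)
      (fun s hs => hs.1) (fun l hl => by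
        obtain ⟨s, h5, h6, h7⟩ := MUniB_nhds hl
        exact ⟨s ∩ xs A₀ (Ioo t₀ (t₀ + T)), ⟨h5.inter (GLiou_open _ isOpen_Ioo),
          inter_subset_right.trans hO, (hx.eventually h7).mono fun n hn =>
            inter_subset_left.trans hn⟩, h6, hl⟩) ha
    filter_upwards [h3, hl.lower s h1 h2 a h4] with n h5 h6
    exact h6.trans_le (measure_mono h5)
  · intro a ha
    have hd : Tendsto (fun i : ℕ => w / 2 * (1 / ((i : ℝ) + 1))) atTop (𝓝 0) := by
      simpa using (tendsto_one_div_add_atTop_nhds_zero_nat (𝕜 := ℝ)).const_mul (w / 2)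
    have hp : ∀ i : ℕ, 0 < w / 2 * (1 / ((i : ℝ) + 1)) := fun i => by positivity
    have hanti : ∀ i j : ℕ, i ≤ j → w / 2 * (1 / ((j : ℝ) + 1)) ≤ w / 2 * (1 / ((i : ℝ) + 1)) :=
      fun i j h => mul_le_mul_of_nonneg_left (Nat.one_div_le_one_div h) (half_pos hw).le
    have hlt : ∀ i : ℕ, w / 2 * (1 / ((i : ℝ) + 1)) < w := fun i => by
      have h1 := hanti 0 i (Nat.zero_le i)
      rw [Nat.cast_zero, zero_add, div_one, mul_one] at h1
      linarith only [hw, h1]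
    have h1 := tendsto_measure_iInter_atTop (μ := ν)
      (s := fun i : ℕ => MUniB_K A₀ t₀ T (w / 2 * (1 / ((i : ℝ) + 1))))
      (fun i => (MUniB_K_compact _ _ _ _).measurableSet.nullMeasurableSet)
      (fun i j h => MUniB_K_mono _ _ _ (hanti i j h))
      ⟨0, (hl.fin _ (MUniB_K_compact _ _ _ _) (MUniB_K_sub h0 hw _ _ (hlt 0))).ne⟩
    have h2 : ν (⋂ i : ℕ, MUniB_K A₀ t₀ T (w / 2 * (1 / ((i : ℝ) + 1)))) < 2 * a := by
      refine lt_of_le_of_lt ?_ (ENNReal.mul_lt_mul_right two_ne_zero ENNReal.ofNat_ne_top ha)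
      refine (measure_mono ((MUniB_K_inter A₀ t₀ hT.le hd).trans (MUniB_K_zero A₀ t₀ T))).trans ?_
      refine (measure_union_le _ _).trans ?_
      rw [MUniB_two hν _ measurableSet_Ioo, add_assoc, mul_add]
      refine add_le_add le_rfl ((measure_union_le _ _).trans ?_)
      rw [two_mul]
      exact le_self_add
    obtain ⟨i, hi⟩ := (h1.eventually (gt_mem_nhds h2)).exists
    filter_upwards [hx (MUniB_close A₀ t₀ T (hp i)),
      hl.upper _ (MUniB_K_compact _ _ _ _) (MUniB_K_sub h0 hw _ _ (hlt i)) _ hi] with n h3 h4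
    have h5 := (measure_mono h3).trans_lt h4
    rw [MUniB_two (hM n) _ measurableSet_Ico] at h5
    exact (ENNReal.mul_lt_mul_iff_right two_ne_zero ENNReal.ofNat_ne_top).1 h5

theorem MUniB_shift {g : Isom} (h : MeasurePreserving (fun l : Geo => g • l) μ μ) (A : Geo)
    (t T : ℝ) : μ (xs (g • A) (Ico (t + sh g A) (t + sh g A + T))) = μ (xs A (Ico t (t + T))) := by
  rw [← h.measure_preimage (measurableSet_xs _ measurableSet_Ico).nullMeasurableSet]
  congr 1
  ext l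
  rw [mem_preimage, smul_mem_xs, preimage_add_const_Ico, add_sub_cancel_right, add_right_comm,
    add_sub_cancel_right]

theorem MUniB_move {A : Geo} (h : A ∈ Core ρ α R w) (t : ℝ) :
    ∃ g : Γ, dist o (pt (ρ g • A) (t + sh (ρ g) A)) ≤ R := by
  obtain ⟨g, hg⟩ := h.2.1 t
  refine ⟨g⁻¹, ?_⟩
  rw [← smul_pt, ← dist_smul (ρ g), map_inv, smul_inv_smul]
  exact hg

theorem MUniB_point (hw : 0 < w) (h1 : ∀ g : Γ, MeasurePreserving (fun l : Geo => ρ g • l) ν ν)
    (hf : ∀ K, IsCompact K → K ⊆ (lifts ρ α)ᶜ → ν K < ⊤) (R : ℝ) :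
    ∃ C < ⊤, ∀ A ∈ Core ρ α R w, ∀ t, ν {l | side l (pt A t).1 = 0} ≤ C := by
  have c1 : ∀ m : Geo, Continuous fun x : Pt × Geo => |side m x.1.1| := fun m =>
    (continuous_const.B' (GMet_cont_val.comp continuous_fst)).abs
  have c2 : Continuous fun x : Pt × Geo => side x.2 x.1.1 :=
    Continuous.comp (g := fun x : Geo × V => side x.1 x.2)
      (f := fun x : Pt × Geo => (x.2, x.1.1)) continuous_side
      (continuous_snd.prodMk (GMet_cont_val.comp continuous_fst))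
  have h2 : IsCompact {x : Pt × Geo | (x.1 ∈ Metric.closedBall o R ∧
      x ∈ ⋂ m ∈ lifts ρ α, {x : Pt × Geo | sinh w ≤ |side m x.1.1|}) ∧ side x.2 x.1.1 = 0} := by
    refine ((isCompact_closedBall o R).prod (isCompact_lines o (sinh R))).of_isClosed_subset
      (((Metric.isClosed_closedBall.preimage continuous_fst).inter
        (isClosed_biInter fun m _ => isClosed_le continuous_const (c1 m))).inter
        (isClosed_eq c2 continuous_const)) ?_
    rintro ⟨p, l⟩ ⟨⟨h3, -⟩, h4⟩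
    exact ⟨h3, MUniB_near0 h4 h3⟩
  refine ⟨_, hf _ (h2.image continuous_snd) ?_, fun A hA t => ?_⟩
  · rintro _ ⟨⟨p, l⟩, ⟨⟨-, h3⟩, h4⟩, rfl⟩ hl
    have h5 : sinh w ≤ |side l p.1| := mem_iInter₂.1 h3 l hl
    have h6 : side l p.1 = 0 := h4
    rw [h6, abs_zero] at h5
    exact absurd h5 (not_le.2 (sinh_pos_iff.2 hw))
  · obtain ⟨g, hg⟩ := MUniB_move hA t
    rw [← (h1 g).measure_preimage (h2.image continuous_snd).measurableSet.nullMeasurableSet]
    refine measure_mono fun l hl => ⟨(pt (ρ g • A) (t + sh (ρ g) A), ρ g • l),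
      ⟨⟨Metric.mem_closedBall'.2 hg, mem_iInter₂.2 fun m hm => core_side (Core.smul hA g) hw hm _⟩,
        ?_⟩, rfl⟩
    change side (ρ g • l) (pt (ρ g • A) (t + sh (ρ g) A)).1 = 0
    rw [← smul_pt, side_smul_pt]
    exact hl

theorem MUniB_le_add {x : ENNReal} (hx : x ≠ ⊤) {f : I → ENNReal}
    (h : ∀ a < x, ∀ᶠ n in U, a < f n) : ∀ᶠ n in U, x ≤ f n + 1 := by
  by_cases h0 : x = 0
  · rw [h0]
    exact Eventually.of_forall fun _ => zero_le
  filter_upwards [h _ (ENNReal.sub_lt_self hx h0 one_ne_zero)] with n hn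
  exact tsub_le_iff_right.1 hn.le

theorem block [Finite ι] (hρ : Disc ρ) (hα : ∀ a, Hyp (ρ (α a))) (hw : 0 < w)
    (hM : ∀ n, Cur ρ (M n)) (h1 : ∀ g : Γ, MeasurePreserving (fun l : Geo => ρ g • l) ν ν)
    (h2 : MeasurePreserving Geo.rev ν ν) (hl : IsULim U M (lifts ρ α)ᶜ ν) (R : ℝ) :
    ∃ C : ℝ, 0 ≤ C ∧ ∀ T > 0, ∀ᶠ n in U, ∀ A ∈ Core ρ α R w, ∀ t,
      M n (xs A (Ico t (t + T))) ≤ ν (xs A (Ico t (t + T))) + ENNReal.ofReal C ∧
        ν (xs A (Ico t (t + T))) ≤ M n (xs A (Ico t (t + T))) + ENNReal.ofReal C := by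
  obtain ⟨C, hC, h3⟩ := MUniB_point hw h1 hl.fin R
  have hC' : C + C + 1 + 1 ≠ ⊤ := by
    have := hC.ne
    finiteness
  refine ⟨(C + C + 1 + 1).toReal, ENNReal.toReal_nonneg, fun T hT => ?_⟩
  rw [ENNReal.ofReal_toReal hC']
  by_contra hbad
  have h4 : ∀ᶠ n in U, ∃ x : Geo × ℝ, (x.1 ∈ Core ρ α R w ∧ dist o (pt x.1 x.2) ≤ R) ∧
      ¬ (M n (xs x.1 (Ico x.2 (x.2 + T))) ≤ ν (xs x.1 (Ico x.2 (x.2 + T))) + (C + C + 1 + 1) ∧
        ν (xs x.1 (Ico x.2 (x.2 + T))) ≤ M n (xs x.1 (Ico x.2 (x.2 + T))) + (C + C + 1 + 1)) := by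
    filter_upwards [Ultrafilter.eventually_not.2 hbad] with n hn
    by_contra h5
    refine hn fun A hA t => ?_
    by_contra h6
    obtain ⟨g, hg⟩ := MUniB_move hA t
    refine h5 ⟨(ρ g • A, t + sh (ρ g) A), ⟨Core.smul hA g, hg⟩, ?_⟩
    dsimp only
    rw [MUniB_shift ((hM n).smul g), MUniB_shift (h1 g)]
    exact h6
  obtain ⟨x, hx⟩ := h4.choice
  have hK : IsCompact (({l : Geo | |side l o.1| ≤ sinh R} ∩ Core ρ α R w) ×ˢ Icc (-R) R) :=
    ((isCompact_lines o _).inter_right (isClosed_core hρ R w)).prod isCompact_Icc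
  obtain ⟨⟨A₀, t₀⟩, h5, h6⟩ := hK.ultrafilter_le_nhds' (U.map x) (by
    refine Ultrafilter.mem_map.2 (Ultrafilter.mem_coe.1 (hx.mono fun n hn => ?_))
    refine ⟨⟨MUniB_near0 (side_pt _ (x n).2) (by rw [dist_comm]; exact hn.1.2), hn.1.1⟩, ?_⟩
    have h7 := (abs_fer_sub_le (x n).1 o (pt (x n).1 (x n).2)).trans hn.1.2
    rw [GArr_fer_o, fer_pt, zero_sub, abs_neg] at h7
    exact abs_le.1 h7)
  have h7 : Tendsto x U (𝓝 (A₀, t₀)) := h6
  have hA : Tendsto (fun n => (x n).1) U (𝓝 A₀) := (continuous_fst.tendsto _).comp h7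
  have ht : Tendsto (fun n => (x n).2) U (𝓝 t₀) := (continuous_snd.tendsto _).comp h7
  have h0 : A₀ ∈ Core ρ α R w := h5.1.2
  have hl' : IsULim U (fun _ => ν) (lifts ρ α)ᶜ ν :=
    ⟨hl.compl, hl.fin, fun _ _ _ _ h => Eventually.of_forall fun _ => h,
      fun _ _ _ _ h => Eventually.of_forall fun _ => h⟩
  obtain ⟨a1, a2⟩ := block_lim hρ hα hw (fun n => (hM n).rev) h2 hl hA ht h0 hT
  obtain ⟨b1, b2⟩ := block_lim hρ hα hw (fun _ => h2) h2 hl' hA ht h0 hT
  have hfin : ν (xs A₀ (Ioo t₀ (t₀ + T))) ≠ ⊤ :=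
    ((measure_mono ((xs_mono _ Ioo_subset_Icc_self).trans (MUniB_xs_sub A₀ t₀ T))).trans_lt
      (hl.fin _ (MUniB_K_compact _ _ _ _) (MUniB_K_sub h0 hw t₀ T hw))).ne
  have h8 : ν (xs A₀ (Ioo t₀ (t₀ + T))) + (C + C + 1) > ν (xs A₀ (Ioo t₀ (t₀ + T))) +
      ν {l | side l (pt A₀ t₀).1 = 0} + ν {l | side l (pt A₀ (t₀ + T)).1 = 0} := by
    rw [add_assoc (ν _)]
    refine ENNReal.add_lt_add_left hfin ((add_le_add (h3 _ h0 _) (h3 _ h0 _)).trans_lt ?_)
    exact ENNReal.lt_add_right (ENNReal.add_ne_top.2 ⟨hC.ne, hC.ne⟩) one_ne_zero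
  obtain ⟨n, h9, c1, c2, c3, c4⟩ := (hx.and ((a2 _ h8).and ((b2 _ h8).and
    ((MUniB_le_add hfin a1).and (MUniB_le_add hfin b1))))).exists
  refine h9.2 ⟨c1.le.trans ((add_le_add c4 le_rfl).trans (le_of_eq ?_)),
    c2.le.trans ((add_le_add c3 le_rfl).trans (le_of_eq ?_))⟩
  · ring
  · ring

theorem MUniB_pow (hμ : Cur ρ μ) {g : Γ} (hg : Hyp (ρ g)) (j : ℕ) :
    μ (xs (ax (ρ g)) (Ico 0 (j * tl (ρ g)))) = ENNReal.ofReal (j * ic μ (ρ g)) := by
  rcases eq_or_ne j 0 with rfl | hj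
  · simp [xs]
  · obtain ⟨-, h1, h2⟩ := hg.pow hj
    rw [← hμ.ic_pow, map_pow, ic, h1, h2,
      ofReal_measureReal (hμ.xs_lt_top _ (Metric.isBounded_Ico _ _)).ne]

theorem MUniB_sum {A : Geo} {T : ℝ} {C : ENNReal} (hT : 0 < T)
    (h : ∀ t, μ (xs A (Ico t (t + T))) ≤ ν (xs A (Ico t (t + T))) + C) (N : ℕ) :
    μ (xs A (Ico 0 (N * T))) ≤ ν (xs A (Ico 0 (N * T))) + N * C := by
  induction N with
  | zero => simp [xs]
  | succ N ih =>
    have h1 : Ico 0 (((N + 1 : ℕ) : ℝ) * T) = Ico 0 (N * T) ∪ Ico (N * T) (N * T + T) := by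
      rw [Ico_union_Ico_eq_Ico (by positivity) (by linarith), Nat.cast_succ, add_mul, one_mul]
    have h2 := measure_union_le (μ := posM μ A) (Ico 0 (N * T)) (Ico (N * T) (N * T + T))
    have h3 := measure_union (μ := posM ν A) (Ico_disjoint_Ico_same (a := 0) (b := N * T)
      (c := N * T + T)) measurableSet_Ico
    rw [← h1, posM_apply _ _ measurableSet_Ico, posM_apply _ _ measurableSet_Ico,
      posM_apply _ _ measurableSet_Ico] at h2 h3
    rw [h3]
    refine h2.trans ((add_le_add ih (h _)).trans (le_of_eq ?_))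
    rw [Nat.cast_succ]
    ring

theorem ic_le_of_block (hμ : Cur ρ μ) (hν : Cur ρ ν) {g : Γ} (hg : Hyp (ρ g)) {T C : ℝ}
    (hT : 0 < T) (hC : 0 ≤ C) (h : ∀ t, μ (xs (ax (ρ g)) (Ico t (t + T))) ≤
      ν (xs (ax (ρ g)) (Ico t (t + T))) + ENNReal.ofReal C) :
    ic μ (ρ g) ≤ ic ν (ρ g) + C / T * tl (ρ g) := by
  have h0 : 0 < tl (ρ g) := hg
  obtain ⟨k, hk⟩ := exists_nat_ge (T / tl (ρ g))
  rw [div_le_iff₀ h0] at hk
  have h1 := ic_nonneg ν (ρ g)
  have key : ∀ j : ℕ, j * ic μ (ρ g) ≤ (j + k) * ic ν (ρ g) + (j * tl (ρ g) / T + 1) * C := by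
    intro j
    have h2 : 0 ≤ j * tl (ρ g) / T := by positivity
    have h3 := Nat.le_ceil (j * tl (ρ g) / T)
    have h4 := (Nat.ceil_lt_add_one h2).le
    generalize ⌈j * tl (ρ g) / T⌉₊ = N at h3 h4
    have h5 : j * tl (ρ g) ≤ N * T := by rwa [div_le_iff₀ hT] at h3
    have h6 : N * T ≤ ((j + k : ℕ) : ℝ) * tl (ρ g) := by
      have h7 := mul_le_mul_of_nonneg_right h4 hT.le
      rw [add_mul, div_mul_cancel₀ _ hT.ne', one_mul] at h7
      rw [Nat.cast_add, add_mul]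
      linarith only [hk, h7]
    have h7 := ((measure_mono (xs_mono _ (Ico_subset_Ico_right h5))).trans
      (MUniB_sum hT h N)).trans
      (add_le_add (measure_mono (xs_mono _ (Ico_subset_Ico_right h6))) le_rfl)
    rw [MUniB_pow hμ hg, MUniB_pow hν hg, ← ENNReal.ofReal_natCast N,
      ← ENNReal.ofReal_mul (Nat.cast_nonneg _), ← ENNReal.ofReal_add (by positivity)
      (by positivity), ENNReal.ofReal_le_ofReal_iff (by positivity), Nat.cast_add] at h7
    exact h7.trans (add_le_add le_rfl (mul_le_mul_of_nonneg_right h4 hC))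
  have h2 := (tendsto_const_div_atTop_nhds_zero_nat (k * ic ν (ρ g) + C)).const_add
    (ic ν (ρ g) + C / T * tl (ρ g))
  rw [add_zero] at h2
  refine ge_of_tendsto h2 ((eventually_gt_atTop 0).mono fun j hj => ?_)
  have h3 : (0 : ℝ) < j := Nat.cast_pos.2 hj
  refine le_of_mul_le_mul_left ((key j).trans (le_of_eq ?_)) h3
  field_simp
  ring

theorem le_ic_of_block (hμ : Cur ρ μ) {g : Γ} (hg : Hyp (ρ g)) {T δ : ℝ} (hT : 0 < T)
    (h : ∀ t, ENNReal.ofReal δ ≤ μ (xs (ax (ρ g)) (Ico t (t + T)))) :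
    δ / T * tl (ρ g) ≤ ic μ (ρ g) := by
  have h0 : 0 < tl (ρ g) := hg
  rcases le_total δ 0 with hδ | hδ
  · exact (mul_nonpos_of_nonpos_of_nonneg (div_nonpos_of_nonpos_of_nonneg hδ hT.le) h0.le).trans
      (ic_nonneg _ _)
  have h1 : 0 ≤ δ / T := div_nonneg hδ hT.le
  have h2 := ic_le_of_block ((cur_liou ρ).nnreal_smul (δ / T).toNNReal) hμ hg hT le_rfl fun t => by
    rw [ENNReal.ofReal_zero, add_zero, Measure.coe_nnreal_smul_apply,
      liou_xs _ measurableSet_Ico, Real.volume_Ico, add_sub_cancel_left]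
    refine le_trans (le_of_eq ?_) (h t)
    change ENNReal.ofReal (δ / T) * _ = _
    rw [← ENNReal.ofReal_mul h1, div_mul_cancel₀ _ hT.ne']
  rwa [ic_nnreal_smul, ic_liou, Real.coe_toNNReal _ h1, zero_div, zero_mul, add_zero] at h2

end HRT
end

-- merged part: Pool.Agent.Work.MP_35beee_gt.GMarked
section
/-!
Finitely many long leaf segments: marked crossings, neighbours along a transversal, and times at
which both neighbours are close and not bad.

Plan. `tag_unique`: `Gen.eq_one`, `smul_ne_rev`, `IsEnum.injective`. On a lift `A` the marked leaves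
are invariant under the stabiliser of `A` and have finitely many crossing parameters in a bounded
interval (the crossing point is `g • pt (l j) (xp (l j) (e j t))`, `finite_near`), so neighbours
exist. `card_gap_le`: the normal forms (`existsUnique_nf`) of the crossings `(e j t, l j)` with a
gap `> δ` on the right are different marked leaves, so their parameters in `[0, tl)` are
`δ`-separated on each of the finitely many axes. `exists_fine`: the map from `t` to the tag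
`(orientation, j', t')` of the right neighbour is injective; so at most `b + 2 K + 4 b` times are not
fine (`b` the number of bad times), and `[0, L)` contains `L / 3` disjoint triples.
-/

namespace HRT

open Set Filter Topology Real

variable {Γ : Type*} [Group Γ] {ρ : Γ →* Isom} {Λ : Set Geo} {ι : Type} {h : ι → Γ}
  {κ : Type} {l : κ → Geo} {e : κ → ℤ → Geo}

/-- A line or its reverse. -/
def ori (b : Bool) (m : Geo) : Geo := if b then m else m.rev

@[simp] theorem ori_true (m : Geo) : ori true m = m := rfl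
@[simp] theorem ori_false (m : Geo) : ori false m = m.rev := rfl
theorem smul_ori (g : Isom) (b : Bool) (m : Geo) : g • ori b m = ori b (g • m) := by
  cases b <;> rfl
theorem ori_rev (b : Bool) (m : Geo) : (ori b m).rev = ori (!b) m := by
  cases b <;> rfl

/-- Generic leaves in different orbits, with the sequences of lifts they meet. -/
structure Fam (ρ : Γ →* Isom) {ι : Type} (h : ι → Γ) (Λ : Set Geo) {κ : Type} (l : κ → Geo)
    (e : κ → ℤ → Geo) : Prop where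
  mem : ∀ j, l j ∈ Λ
  gen : ∀ j, Gen ρ h (l j)
  enum : ∀ j, IsEnum ρ h (l j) (e j)
  orb : ∀ (i j : κ) (g : Γ) (b : Bool), ori b (ρ g • l i) = l j → i = j

/-- The leaves crossing `A` at a translate of a crossing `(l j, e j t)` with `t ∈ P j`. -/
def Mk (ρ : Γ →* Isom) {κ : Type} (l : κ → Geo) (e : κ → ℤ → Geo) (P : κ → Set ℤ) (A : Geo) :
    Set Geo :=
  {m | ∃ j, ∃ t ∈ P j, ∃ (g : Γ) (b : Bool), m = ori b (ρ g • l j) ∧ A = ori b (ρ g • e j t)}

/-- `m'` follows `m` along `A` in the set `M`. -/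
def Nb (M : Set Geo) (A m m' : Geo) : Prop :=
  m ∈ M ∧ m' ∈ M ∧ xp A m < xp A m' ∧ ∀ m'' ∈ M, xp A m'' ∉ Ioo (xp A m) (xp A m')

theorem Mk_mono {P Q : κ → Set ℤ} (hPQ : ∀ j, P j ⊆ Q j) (A : Geo) :
    Mk ρ l e P A ⊆ Mk ρ l e Q A := by
  rintro m ⟨j, t, ht, H⟩
  exact ⟨j, t, hPQ j ht, H⟩

theorem smul_mem_Mk {P : κ → Set ℤ} {A m : Geo} (hm : m ∈ Mk ρ l e P A) (g : Γ) :
    ρ g • m ∈ Mk ρ l e P (ρ g • A) := by
  obtain ⟨j, t, ht, k, b, rfl, rfl⟩ := hm
  exact ⟨j, t, ht, g * k, b, by rw [smul_ori, map_mul, mul_smul],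
    by rw [smul_ori, map_mul, mul_smul]⟩

theorem rev_mem_Mk {P : κ → Set ℤ} {A m : Geo} (hm : m ∈ Mk ρ l e P A) :
    m.rev ∈ Mk ρ l e P A.rev := by
  obtain ⟨j, t, ht, k, b, rfl, rfl⟩ := hm
  exact ⟨j, t, ht, k, !b, ori_rev _ _, ori_rev _ _⟩

theorem GMarked_xp_rev {A m : Geo} (h : Cross A m) : xp A.rev m.rev = -xp A m := by
  rw [xp_rev_right, xp_rev_left h]

theorem GMarked_pt (g : Isom) (b : Bool) {A m : Geo} (h : Cross A m) :
    pt (ori b (g • A)) (xp (ori b (g • A)) (ori b (g • m))) = g • pt A (xp A m) := by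
  have h1 : pt (g • A) (xp (g • A) (g • m)) = g • pt A (xp A m) := by rw [smul_pt, xp_smul g h]
  cases b
  · rw [ori_false, ori_false, GMarked_xp_rev ((cross_smul g).2 h), pt_rev, neg_neg, h1]
  · exact h1

theorem GMarked_inv (g : Γ) (m : Geo) : ρ g⁻¹ • ρ g • m = m := by rw [map_inv, inv_smul_smul]

theorem GMarked_inv' (g : Γ) (m : Geo) : ρ g • ρ g⁻¹ • m = m := by rw [map_inv, smul_inv_smul]

theorem GMarked_self {P : κ → Set ℤ} {j : κ} {t : ℤ} (ht : t ∈ P j) :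
    l j ∈ Mk ρ l e P (e j t) := ⟨j, t, ht, 1, true, by simp, by simp⟩

theorem GMarked_left {M : Set Geo} {A m₁ m₂ m : Geo} (h₁ : Nb M A m₁ m) (h₂ : Nb M A m₂ m) :
    xp A m₁ = xp A m₂ :=
  le_antisymm (not_lt.1 fun h => h₂.2.2.2 m₁ h₁.1 ⟨h, h₁.2.2.1⟩)
    (not_lt.1 fun h => h₁.2.2.2 m₂ h₂.1 ⟨h, h₂.2.2.1⟩)

theorem GMarked_right {M : Set Geo} {A m₁ m₂ m : Geo} (h₁ : Nb M A m m₁) (h₂ : Nb M A m m₂) :
    xp A m₁ = xp A m₂ :=
  le_antisymm (not_lt.1 fun h => h₁.2.2.2 m₂ h₂.2.1 ⟨h₂.2.2.1, h⟩)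
    (not_lt.1 fun h => h₂.2.2.2 m₁ h₁.2.1 ⟨h₁.2.2.1, h⟩)

namespace Fam

theorem mem_xs (hF : Fam ρ h Λ l e) (hΛ : Lam ρ Λ) {P : κ → Set ℤ} {A m : Geo}
    (hm : m ∈ Mk ρ l e P A) : m ∈ Λ ∧ Gen ρ h m ∧ m ∈ xs A univ ∧ A ∈ lifts ρ h := by
  obtain ⟨j, t, -, g, b, rfl, rfl⟩ := hm
  have h1 := hΛ.smul g _ (hF.mem j)
  have h2 := (hF.gen j).smul g
  have h3 : ρ g • l j ∈ xs (ρ g • e j t) univ := (smul_mem_xs _ _ _ _).2 ((hF.enum j).xs t)
  have h4 := smul_mem_lifts g ((hF.enum j).mem t)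
  cases b
  · exact ⟨hΛ.rev _ h1, h2.rev, (rev_mem_xs _ _ _).2 h3, rev_mem_lifts h4⟩
  · exact ⟨h1, h2, h3, h4⟩

theorem line_unique (hF : Fam ρ h Λ l e) (hρ : Disc ρ) {i j : κ} {g g' : Γ} {b b' : Bool}
    (h1 : ori b (ρ g • l i) = ori b' (ρ g' • l j)) : i = j ∧ g = g' ∧ b = b' := by
  have h2 : ori b (ρ (g'⁻¹ * g) • l i) = ori b' (l j) := by
    rw [map_mul, mul_smul, ← smul_ori, h1, smul_ori, GMarked_inv]
  have h3 : ∀ {k : κ}, ρ (g'⁻¹ * g) • l k = l k → g = g' := fun h =>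
    (inv_mul_eq_one.1 ((hF.gen _).eq_one h)).symm
  have h4 : ori (!b) (ρ (g'⁻¹ * g) • l i) = ori (!b') (l j) := by rw [← ori_rev, h2, ori_rev]
  cases b'
  · obtain rfl := hF.orb i j _ _ h4
    cases b
    · exact ⟨rfl, h3 h4, rfl⟩
    · exact (hρ.smul_ne_rev _ _ h2).elim
  · obtain rfl := hF.orb i j _ _ h2
    cases b
    · exact (hρ.smul_ne_rev _ _ h4).elim
    · exact ⟨rfl, h3 h2, rfl⟩

theorem tag_unique (hF : Fam ρ h Λ l e) (hρ : Disc ρ) {i j : κ} {g g' : Γ} {b b' : Bool} {s t : ℤ}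
    (h1 : ori b (ρ g • l i) = ori b' (ρ g' • l j))
    (h2 : ori b (ρ g • e i s) = ori b' (ρ g' • e j t)) : i = j ∧ g = g' ∧ b = b' ∧ s = t := by
  obtain ⟨rfl, rfl, rfl⟩ := hF.line_unique hρ h1
  refine ⟨rfl, rfl, rfl, (hF.enum i).injective (MulAction.injective (ρ g) ?_)⟩
  cases b
  · exact congrArg Geo.rev h2
  · exact h2

theorem nb_smul (hF : Fam ρ h Λ l e) (hΛ : Lam ρ Λ) {P : κ → Set ℤ} {A m m' : Geo}
    (hn : Nb (Mk ρ l e P A) A m m') (g : Γ) :
    Nb (Mk ρ l e P (ρ g • A)) (ρ g • A) (ρ g • m) (ρ g • m') := by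
  have key : ∀ {n : Geo}, n ∈ Mk ρ l e P A → xp (ρ g • A) (ρ g • n) = xp A n + sh (ρ g) A :=
    fun hn => xp_smul _ (xs_cross (hF.mem_xs hΛ hn).2.2.1)
  refine ⟨smul_mem_Mk hn.1 g, smul_mem_Mk hn.2.1 g, ?_, fun n h1 h2 => ?_⟩
  · rw [key hn.1, key hn.2.1]
    exact add_lt_add_left hn.2.2.1 _
  · have h3 := smul_mem_Mk h1 g⁻¹
    rw [GMarked_inv] at h3
    rw [← GMarked_inv' (ρ := ρ) g n, key hn.1, key hn.2.1, key h3] at h2
    exact hn.2.2.2 _ h3 ⟨by linarith [h2.1], by linarith [h2.2]⟩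

theorem nb_rev (hF : Fam ρ h Λ l e) (hΛ : Lam ρ Λ) {P : κ → Set ℤ} {A m m' : Geo}
    (hn : Nb (Mk ρ l e P A) A m m') : Nb (Mk ρ l e P A.rev) A.rev m'.rev m.rev := by
  have key : ∀ {n : Geo}, n ∈ Mk ρ l e P A → xp A.rev n.rev = -xp A n :=
    fun hn => GMarked_xp_rev (xs_cross (hF.mem_xs hΛ hn).2.2.1)
  refine ⟨rev_mem_Mk hn.2.1, rev_mem_Mk hn.1, ?_, fun n h1 h2 => ?_⟩
  · rw [key hn.1, key hn.2.1]
    exact neg_lt_neg hn.2.2.1
  · have h3 := rev_mem_Mk h1
    rw [Geo.rev_rev] at h3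
    have h4 := key h3
    rw [Geo.rev_rev] at h4
    rw [key hn.1, key hn.2.1, h4] at h2
    exact hn.2.2.2 _ h3 ⟨by linarith [h2.2], by linarith [h2.1]⟩

theorem GMarked_finite [Finite κ] (hF : Fam ρ h Λ l e) (hρ : Disc ρ) {P : κ → Set ℤ}
    (hP : ∀ j, (P j).Finite) (A : Geo) (a b : ℝ) :
    {m ∈ Mk ρ l e P A | xp A m ∈ Ioc a b}.Finite := by
  refine (finite_iUnion fun j : κ => (hP j).biUnion fun t _ => finite_iUnion fun c : Bool =>
    (hρ.finite_near (pt A a) (pt (e j t) (xp (e j t) (l j))) (b - a)).image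
      fun g => ori c (ρ g • l j)).subset ?_
  rintro m ⟨⟨j, t, ht, g, c, rfl, hA⟩, hm⟩
  have h1 : dist (pt A a) (ρ g • pt (e j t) (xp (e j t) (l j))) ≤ b - a := by
    rw [← GMarked_pt (ρ g) c (xs_cross ((hF.enum j).xs t)), ← hA, dist_pt, abs_sub_comm,
      abs_of_pos (sub_pos.2 hm.1)]
    exact sub_le_sub_right hm.2 _
  simp only [mem_iUnion]
  exact ⟨j, t, ht, c, g, h1, rfl⟩

theorem GMarked_next [Finite κ] (hF : Fam ρ h Λ l e) (hρ : Disc ρ) (hΛ : Lam ρ Λ) (ha : Arr ρ h)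
    {P : κ → Set ℤ} (hP : ∀ j, (P j).Finite) {A m : Geo} (hm : m ∈ Mk ρ l e P A) :
    ∃ m', Nb (Mk ρ l e P A) A m m' := by
  obtain ⟨-, -, hx, hA⟩ := hF.mem_xs hΛ hm
  obtain ⟨u, hu, rfl⟩ : ∃ u : Γ, Hyp (ρ u) ∧ A = ax (ρ u) := by
    obtain ⟨r, k, rfl⟩ := ha.mem_lifts.1 hA
    refine ⟨k * h r * k⁻¹, ?_, (ax_conj' (ha.hyp r) k).symm⟩
    rw [map_mul, map_mul, map_inv]
    exact (ha.hyp r).conj _
  have h1 := smul_mem_Mk hm u
  have h2 := xp_smul (ρ u) (xs_cross hx)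
  rw [hu.smul_ax] at h1 h2
  rw [hu.sh_ax] at h2
  obtain ⟨m', ⟨h3, h4⟩, h5⟩ := exists_min_image _ (xp (ax (ρ u)))
    (hF.GMarked_finite hρ hP _ (xp (ax (ρ u)) m) (xp (ax (ρ u)) m + tl (ρ u)))
    ⟨ρ u • m, h1, by rw [h2]; exact lt_add_of_pos_right _ hu, h2.le⟩
  exact ⟨m', hm, h3, h4.1, fun n hn h6 =>
    not_lt.2 (h5 n ⟨hn, h6.1, h6.2.le.trans h4.2⟩) h6.2⟩

theorem GMarked_eq (hF : Fam ρ h Λ l e) (hΛ : Lam ρ Λ) {P : κ → Set ℤ} {A m m' : Geo}
    (hm : m ∈ Mk ρ l e P A) (hm' : m' ∈ Mk ρ l e P A) (hx : xp A m = xp A m') : m = m' :=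
  eq_of_xp_eq (hF.mem_xs hΛ hm).2.2.1 (hF.mem_xs hΛ hm').2.2.1
    (hΛ.nc _ (hF.mem_xs hΛ hm).1 _ (hF.mem_xs hΛ hm').1) hx

theorem GMarked_time (hF : Fam ρ h Λ l e) {j : κ} {u : Γ} {s t : ℤ} (h1 : ρ u • e j s = e j t)
    (h2 : ρ u • l j = l j) : s = t := by
  rw [(hF.gen j).eq_one h2, map_one, one_smul] at h1
  exact (hF.enum j).injective h1

theorem exists_nb [Finite κ] (hF : Fam ρ h Λ l e) (hρ : Disc ρ) (hΛ : Lam ρ Λ) (ha : Arr ρ h)
    {P : κ → Set ℤ} (hP : ∀ j, (P j).Finite) {A m : Geo} (hm : m ∈ Mk ρ l e P A) :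
    (∃ m', Nb (Mk ρ l e P A) A m m') ∧ ∃ m', Nb (Mk ρ l e P A) A m' m := by
  refine ⟨hF.GMarked_next hρ hΛ ha hP hm, ?_⟩
  obtain ⟨m', h1⟩ := hF.GMarked_next hρ hΛ ha hP (rev_mem_Mk hm)
  have h2 := hF.nb_rev hΛ h1
  rw [Geo.rev_rev, Geo.rev_rev] at h2
  exact ⟨m'.rev, h2⟩

end Fam

/-- Times at which both neighbours are close and not bad. -/
def Fine (ρ : Γ →* Isom) {κ : Type} (l : κ → Geo) (e : κ → ℤ → Geo) (L : ℤ) (Bad : κ → Set ℤ)
    (δ : ℝ) (j : κ) (t : ℤ) : Prop :=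
  t ∈ Ico 0 L \ Bad j ∧ ∃ mR mL : Geo,
    Nb (Mk ρ l e (fun _ => Ico 0 L) (e j t)) (e j t) (l j) mR ∧
    Nb (Mk ρ l e (fun _ => Ico 0 L) (e j t)) (e j t) mL (l j) ∧
    xp (e j t) mR - xp (e j t) (l j) ≤ δ ∧ xp (e j t) (l j) - xp (e j t) mL ≤ δ ∧
    mR ∈ Mk ρ l e (fun i => Ico 0 L \ Bad i) (e j t) ∧
    mL ∈ Mk ρ l e (fun i => Ico 0 L \ Bad i) (e j t)

theorem card_gap_le [Finite ι] (hρ : Disc ρ) (hΛ : Lam ρ Λ) (ha : Arr ρ h) {δ : ℝ} (hδ : 0 < δ) :
    ∃ K : ℝ, ∀ (κ : Type) (l : κ → Geo) (e : κ → ℤ → Geo), Fam ρ h Λ l e → ∀ (P : κ → Set ℤ)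
      (j : κ) (s : Finset ℤ), (∀ t ∈ s, t ∈ P j) →
      ((∀ t ∈ s, ∀ m ∈ Mk ρ l e P (e j t), xp (e j t) m ∉
          Ioc (xp (e j t) (l j)) (xp (e j t) (l j) + δ)) ∨
        ∀ t ∈ s, ∀ m ∈ Mk ρ l e P (e j t), xp (e j t) m ∉
          Ico (xp (e j t) (l j) - δ) (xp (e j t) (l j))) → (s.card : ℝ) ≤ K := by
  classical
  have := Fintype.ofFinite ι
  refine ⟨∑ r, (tl (ρ (h r)) + δ) / δ, fun κ l e hF P j s hs hgap => ?_⟩
  choose x hx using fun t : ℤ =>
    (ha.existsUnique_nf hρ ((hF.enum j).mem t) ((hF.enum j).xs t)).exists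
  rw [Finset.card_eq_sum_card_fiberwise (f := fun t => (x t).1) (t := Finset.univ)
    fun _ _ => Finset.mem_univ _]
  push_cast
  refine Finset.sum_le_sum fun r _ => ?_
  rw [le_div_iff₀ hδ]
  have hM : ∀ t ∈ s, (x t).1 = r → ρ (x t).2 • l j ∈ Mk ρ l e P (ax (ρ (h r))) := by
    rintro t ht rfl
    rw [← (hx t).1]
    exact smul_mem_Mk (GMarked_self (hs t ht)) _
  have hT : ∀ t, (x t).1 = r → ∀ m ∈ Mk ρ l e P (ax (ρ (h r))), ∃ m' ∈ Mk ρ l e P (e j t),
      xp (e j t) m' - xp (e j t) (l j) =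
        xp (ax (ρ (h r))) m - xp (ax (ρ (h r))) (ρ (x t).2 • l j) := by
    rintro t rfl m hm
    rw [← (hx t).1] at hm ⊢
    have h1 := smul_mem_Mk hm (x t).2⁻¹
    rw [GMarked_inv] at h1
    refine ⟨_, h1, ?_⟩
    have h2 := xp_smul (ρ (x t).2) (xs_cross (hF.mem_xs hΛ h1).2.2.1)
    rw [GMarked_inv'] at h2
    rw [h2, xp_smul _ (xs_cross ((hF.enum j).xs t))]
    ring
  have hlt : ∀ t ∈ s, (x t).1 = r → ∀ t' ∈ s, (x t').1 = r →
      xp (ax (ρ (h r))) (ρ (x t).2 • l j) < xp (ax (ρ (h r))) (ρ (x t').2 • l j) →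
      δ ≤ xp (ax (ρ (h r))) (ρ (x t').2 • l j) - xp (ax (ρ (h r))) (ρ (x t).2 • l j) := by
    intro t ht hr t' ht' hr' hlt
    refine not_lt.1 fun hlt' => ?_
    rcases hgap with H | H
    · obtain ⟨m', h1, h2⟩ := hT t hr _ (hM t' ht' hr')
      exact H t ht m' h1 ⟨by linarith, by linarith⟩
    · obtain ⟨m', h1, h2⟩ := hT t' hr' _ (hM t ht hr)
      exact H t' ht' m' h1 ⟨by linarith, by linarith⟩
  have := GInter_pack (fun t => xp (ax (ρ (h r))) (ρ (x t).2 • l j)) (w := δ) (a := 0)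
    (s.filter fun t => (x t).1 = r) (tl (ρ (h r)) + δ) (add_nonneg (tl_nonneg _) hδ.le) ?_ ?_
  · rwa [sub_zero] at this
  · intro t ht
    obtain ⟨-, rfl⟩ := Finset.mem_filter.1 ht
    exact ⟨(hx t).2.2.2.1, add_le_add_left (hx t).2.2.2.2.le _⟩
  · intro t ht t' ht' hne
    obtain ⟨h1, h2⟩ := Finset.mem_filter.1 ht
    obtain ⟨h3, h4⟩ := Finset.mem_filter.1 ht'
    rcases lt_trichotomy (xp (ax (ρ (h r))) (ρ (x t).2 • l j))
      (xp (ax (ρ (h r))) (ρ (x t').2 • l j)) with H | H | H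
    · rw [abs_sub_comm]
      exact (hlt t h1 h2 t' h3 h4 H).trans (le_abs_self _)
    · have h5 := hF.GMarked_eq hΛ (hM t h1 h2) (hM t' h3 h4) H
      refine (hne (hF.GMarked_time (j := j) (u := (x t').2⁻¹ * (x t).2) ?_ ?_)).elim
      · rw [map_mul, mul_smul, (hx t).1, h2, ← h4, ← (hx t').1, GMarked_inv]
      · rw [map_mul, mul_smul, h5, GMarked_inv]
    · exact (hlt t' h3 h4 t h1 h2 H).trans (le_abs_self _)

theorem GMarked_tag [Fintype κ] {Q : κ → Set ℤ} (hQ : ∀ i, (Q i).Finite) {j : κ} (s : Finset ℤ)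
    (m : ℤ → Geo) (hm : ∀ t ∈ s, m t ∈ Mk ρ l e Q (e j t))
    (hi : ∀ t ∈ s, ∀ t' ∈ s, ∀ u : Γ, ρ u • e j t = e j t' → ρ u • m t = m t' → t = t') :
    (s.card : ℝ) ≤ 2 * ∑ i, ((Q i).ncard : ℝ) := by
  classical
  have h1 : ∀ t : s, ∃ (y : Bool × Σ _ : κ, ℤ) (g : Γ), y.2.2 ∈ Q y.2.1 ∧
      m t = ori y.1 (ρ g • l y.2.1) ∧ e j t = ori y.1 (ρ g • e y.2.1 y.2.2) := fun t => by
    obtain ⟨i, t', h1, g, b, h2⟩ := hm t t.2
    exact ⟨(b, ⟨i, t'⟩), g, h1, h2⟩
  choose y g h1 h2 h3 using h1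
  have h4 := Finset.card_le_card_of_injOn (s := Finset.univ)
    (t := Finset.univ ×ˢ Finset.univ.sigma fun i => (hQ i).toFinset) y
    (fun t _ => by simpa using h1 t) (fun t _ t' _ hy => by
      refine Subtype.ext (hi t t.2 t' t'.2 (g t' * (g t)⁻¹) ?_ ?_)
      · rw [h3, h3, map_mul, mul_smul, smul_ori, smul_ori, GMarked_inv, hy]
      · rw [h2, h2, map_mul, mul_smul, smul_ori, smul_ori, GMarked_inv, hy])
  rw [Finset.card_product, Finset.card_sigma, Finset.card_univ, Finset.card_univ, Fintype.card_coe,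
    Fintype.card_bool] at h4
  simp only [ncard_eq_toFinset_card _ (hQ _)]
  exact_mod_cast h4

theorem GMarked_triple {F : ℤ → Prop} {L : ℤ} {s : Finset ℤ}
    (hs : ∀ t, 0 ≤ t → t < L → ¬ F t → t ∈ s) (hL : 3 * (s.card : ℤ) + 2 < L) :
    ∃ t, F t ∧ F (t + 1) ∧ F (t + 2) := by
  by_contra hn
  have h1 := Finset.card_le_card_of_surjOn (t := Finset.Ico 0 (L / 3)) (s := s) (fun t => t / 3)
    (fun n hn' => by
      obtain ⟨h1, h2⟩ := Finset.mem_Ico.1 hn'
      by_cases a0 : F (3 * n)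
      · by_cases a1 : F (3 * n + 1)
        · exact ⟨3 * n + 2, hs _ (by omega) (by omega) fun a2 => hn ⟨_, a0, a1, a2⟩,
            by simp only; omega⟩
        · exact ⟨3 * n + 1, hs _ (by omega) (by omega) a1, by simp only; omega⟩
      · exact ⟨3 * n, hs _ (by omega) (by omega) a0, by simp only; omega⟩)
  rw [Int.card_Ico] at h1
  omega

theorem exists_fine [Finite ι] (hρ : Disc ρ) (hΛ : Lam ρ Λ) (ha : Arr ρ h) {δ : ℝ} (hδ : 0 < δ) :
    ∃ K : ℝ, ∀ (κ : Type) [Fintype κ] (l : κ → Geo) (e : κ → ℤ → Geo), Fam ρ h Λ l e →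
      ∀ (L : ℤ) (Bad : κ → Set ℤ), 15 * ∑ i, ((Ico 0 L ∩ Bad i).ncard : ℝ) + K < L →
        ∀ j, ∃ t, Fine ρ l e L Bad δ j t ∧ Fine ρ l e L Bad δ j (t + 1) ∧
          Fine ρ l e L Bad δ j (t + 2) := by
  classical
  obtain ⟨K, hK⟩ := card_gap_le hρ hΛ ha hδ
  refine ⟨6 * K + 2, fun κ _ l e hF L Bad hL j => ?_⟩
  have hP : ∀ _ : κ, (Ico 0 L).Finite := fun _ => finite_Ico 0 L
  have hQ : ∀ i : κ, (Ico 0 L ∩ Bad i).Finite := fun _ => (finite_Ico 0 L).inter_of_left _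
  have hnb : ∀ t : ℤ, ∃ mR mL : Geo, t ∈ Ico 0 L →
      Nb (Mk ρ l e (fun _ => Ico 0 L) (e j t)) (e j t) (l j) mR ∧
      Nb (Mk ρ l e (fun _ => Ico 0 L) (e j t)) (e j t) mL (l j) := fun t => by
    by_cases ht : t ∈ Ico 0 L
    · obtain ⟨⟨mR, h1⟩, mL, h2⟩ := hF.exists_nb hρ hΛ ha hP (GMarked_self (j := j) ht)
      exact ⟨mR, mL, fun _ => ⟨h1, h2⟩⟩
    · exact ⟨l j, l j, fun h => (ht h).elim⟩
  choose mR mL hnb using hnb
  have hsplit : ∀ {A m : Geo}, m ∈ Mk ρ l e (fun _ => Ico 0 L) A →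
      m ∉ Mk ρ l e (fun i => Ico 0 L \ Bad i) A → m ∈ Mk ρ l e (fun i => Ico 0 L ∩ Bad i) A := by
    rintro A m ⟨i, t, ht, H⟩ hn
    exact ⟨i, t, ⟨ht, not_not.1 fun hb => hn ⟨i, t, ⟨ht, hb⟩, H⟩⟩, H⟩
  have hI : ∀ {p : ℤ → Prop} [DecidablePred p] {t : ℤ}, t ∈ (Finset.Ico 0 L).filter p →
      t ∈ Ico 0 L ∧ p t := fun ht =>
    ⟨Finset.mem_Ico.1 (Finset.mem_filter.1 ht).1, (Finset.mem_filter.1 ht).2⟩
  set s1 := (hQ j).toFinset with hs1
  set s2 := (Finset.Ico 0 L).filter fun t => δ < xp (e j t) (mR t) - xp (e j t) (l j) with hs2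
  set s3 := (Finset.Ico 0 L).filter fun t => δ < xp (e j t) (l j) - xp (e j t) (mL t) with hs3
  set s4 := (Finset.Ico 0 L).filter
    fun t => mR t ∉ Mk ρ l e (fun i => Ico 0 L \ Bad i) (e j t) with hs4
  set s5 := (Finset.Ico 0 L).filter
    fun t => mL t ∉ Mk ρ l e (fun i => Ico 0 L \ Bad i) (e j t) with hs5
  have c1 : (s1.card : ℝ) ≤ ∑ i, ((Ico 0 L ∩ Bad i).ncard : ℝ) := by
    rw [hs1, ← ncard_eq_toFinset_card _ (hQ j)]
    exact Finset.single_le_sum (f := fun i => ((Ico 0 L ∩ Bad i).ncard : ℝ))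
      (fun _ _ => Nat.cast_nonneg _) (Finset.mem_univ j)
  have c2 : (s2.card : ℝ) ≤ K := hK κ l e hF (fun _ => Ico 0 L) j s2 (fun t ht => (hI ht).1)
    (Or.inl fun t ht m hm h1 =>
      (hnb t (hI ht).1).1.2.2.2 m hm ⟨h1.1, by linarith [h1.2, (hI ht).2]⟩)
  have c3 : (s3.card : ℝ) ≤ K := hK κ l e hF (fun _ => Ico 0 L) j s3 (fun t ht => (hI ht).1)
    (Or.inr fun t ht m hm h1 =>
      (hnb t (hI ht).1).2.2.2.2 m hm ⟨by linarith [h1.1, (hI ht).2], h1.2⟩)
  have c4 : (s4.card : ℝ) ≤ 2 * ∑ i, ((Ico 0 L ∩ Bad i).ncard : ℝ) :=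
    GMarked_tag hQ s4 mR (fun t ht => hsplit (hnb t (hI ht).1).1.2.1 (hI ht).2)
      fun t ht t' ht' u h1 h2 => by
        have h3 := hF.nb_smul hΛ (hnb t (hI ht).1).1 u
        rw [h1, h2] at h3
        have h4 := (hnb t' (hI ht').1).1
        exact hF.GMarked_time h1 (hF.GMarked_eq hΛ h3.1 h4.1 (GMarked_left h3 h4))
  have c5 : (s5.card : ℝ) ≤ 2 * ∑ i, ((Ico 0 L ∩ Bad i).ncard : ℝ) :=
    GMarked_tag hQ s5 mL (fun t ht => hsplit (hnb t (hI ht).1).2.1 (hI ht).2)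
      fun t ht t' ht' u h1 h2 => by
        have h3 := hF.nb_smul hΛ (hnb t (hI ht).1).2 u
        rw [h1, h2] at h3
        have h4 := (hnb t' (hI ht').1).2
        exact hF.GMarked_time h1 (hF.GMarked_eq hΛ h3.2.1 h4.2.1 (GMarked_right h3 h4))
  refine GMarked_triple (L := L) (s := s1 ∪ s2 ∪ s3 ∪ s4 ∪ s5) (fun t h0 h1 hn => ?_) ?_
  · by_contra hc
    simp only [Finset.mem_union, not_or, hs1, hs2, hs3, hs4, hs5, Finset.mem_filter,
      Finset.mem_Ico, h0, h1, true_and, not_lt, not_not, Finite.mem_toFinset, mem_inter_iff,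
      mem_Ico] at hc
    obtain ⟨⟨⟨⟨a1, a2⟩, a3⟩, a4⟩, a5⟩ := hc
    exact hn ⟨⟨⟨h0, h1⟩, a1⟩, mR t, mL t, (hnb t ⟨h0, h1⟩).1, (hnb t ⟨h0, h1⟩).2, a2, a3, a4, a5⟩
  · have h1 : (s1 ∪ s2 ∪ s3 ∪ s4 ∪ s5).card ≤ s1.card + s2.card + s3.card + s4.card + s5.card :=
      (Finset.card_union_le _ _).trans (add_le_add_left ((Finset.card_union_le _ _).trans
        (add_le_add_left ((Finset.card_union_le _ _).trans
          (add_le_add_left (Finset.card_union_le _ _) _)) _)) _)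
    have h2 : ((s1 ∪ s2 ∪ s3 ∪ s4 ∪ s5).card : ℝ) ≤
        s1.card + s2.card + s3.card + s4.card + s5.card := by exact_mod_cast h1
    have h3 : 3 * ((s1 ∪ s2 ∪ s3 ∪ s4 ∪ s5).card : ℝ) + 2 < L := by linarith only [hL, c1, c2, c3, c4, c5, h2]
    exact_mod_cast h3

end HRT
end
end

-- merged part: Pool.Agent.Work.MP_35beee_gt.GStairC
section
-- merged part: Pool.Agent.Work.MP_35beee_gt.GStair
section
/-!
Staircases: periodic paths that follow nested lines `l k` and jump from `l k` to `l (k+1)` along a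
transversal `n k`. The two sides of a staircase.

Plan. `hyp`: `hyp_of_nest` for each `l k` (`Nest (l (k+q)) (l k)`). `exists_strip`: the endpoints
of `g ^ j • l 0` tend to the endpoints of the axis (`Hyp.tendsto_pow`, also for `g⁻¹`), so by
`dist_le_of_side` (or `toB_of_between`) every point is eventually on the right of `l k`, `k → ∞`,
and on the left, `k → -∞`, locally uniformly (`Nest.pos_of_ne`: a point strictly between `l a` and
`l b` has a neighbourhood that meets only the strips `a ≤ k < b`). `Above` is the complement of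
the locally finite union of the closed sets `strip k ∩ {side (n k) ≤ 0}`. A point off the path in
the open strip `k` is off `n k` (`n k ∩ strip k` is the jump, `side_pt_mul_pos_iff`); a point of
`l k` off the piece lies in the strips `k - 1` and `k` only and `side (n (k-1))`, `side (n k)` have
the same sign there (on `l k` the function `side (n j)` is positive exactly before `xp (l k) (n j)`,
by `side_of_cross`). At infinity: a boundary point `ξ` other than the ends of the axis lies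
strictly between `l a` and `l b` for some `a < b`; along an ultrafilter the points stay in one strip
`k`, so `0 ≤ side (l k) ξ`, `side (l (k+1)) ξ ≤ 0`, `0 ≤ side (n k) ξ`; then `same_sign`.
`same_sign`: with `fer`/`ccw` on the circle: the arc from `(l k).src` to `(l (k+1)).src` contains
no endpoint of `A` or `C`, and these two points are on the left of both.
-/

namespace HRT

open Set Filter Topology Real

theorem GStair_cyc {a b c d s t s' t' ξ : Circ} (h1 : ccw a s b) (h2 : ccw a s' b)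
    (h3 : ccw a b t) (h4 : ccw a b t') (h5 : ccw d s c) (h6 : ccw d c t) (h7 : ccw d c t')
    (h8 : ¬ ccw a ξ b) (h9 : ¬ ccw d c ξ) :
    (ccw s ξ t ∧ ccw s' ξ t') ∨ (ccw s t ξ ∧ ccw s' t' ξ) := by
  obtain ⟨φ, -, k2, -, k4, k5, -⟩ := garc_chart s
  obtain ⟨a, rfl⟩ := k2 a h1.ne12
  obtain ⟨b, rfl⟩ := k2 b h1.ne23.symm
  obtain ⟨c, rfl⟩ := k2 c h5.ne23.symm
  obtain ⟨d, rfl⟩ := k2 d h5.ne12
  obtain ⟨t, rfl⟩ := k2 t fun e => h1.asymm (e ▸ h3)
  obtain ⟨t', rfl⟩ := k2 t' fun e => h1.asymm (e ▸ h4)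
  obtain ⟨ξ, rfl⟩ := k2 ξ fun e => h8 (e ▸ h1)
  have e1 := (k4 _ _).1 h1.cyc
  have e5 := (k4 _ _).1 h5.cyc
  rw [k5] at h3 h4 h6 h7 h8 h9
  by_cases hs : s' = s
  · simp only [hs, k4]
    grind
  · obtain ⟨s', rfl⟩ := k2 s' hs
    rw [k5] at h2
    simp only [k4, k5]
    grind

theorem GStair_neg {l m : Geo} (h : Nest m l) {ξ : Circ} (h1 : side l ξ.1 < 0) :
    side m ξ.1 < 0 := by
  have := (nest_iff_circ _ _).1 h.rev ξ (by rw [side_rev]; linarith)
  rw [side_rev] at this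
  linarith

theorem GStair_cross {l m : Geo} (h1 : side l m.src.1 < 0) (h2 : 0 < side l m.tgt.1) :
    Cross l m := mul_neg_of_neg_of_pos h1 h2

theorem GStair_up {A m : Geo} (h1 : side m A.src.1 < 0) (h2 : 0 < side m A.tgt.1) (t : ℝ) :
    (0 ≤ side m (pt A t).1 ↔ xp A m ≤ t) ∧ (side m (pt A t).1 ≤ 0 ↔ t ≤ xp A m) := by
  have hc := (GStair_cross h1 h2).symm
  have e1 := side_pt_mul_pos_iff hc t
  have e2 := side_pt_eq_zero_iff hc t
  rw [mul_pos_iff_of_pos_right h2] at e1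
  refine ⟨?_, by rw [← not_lt, e1, not_lt]⟩
  rw [le_iff_lt_or_eq, le_iff_lt_or_eq, e1, eq_comm, e2, eq_comm]

theorem GStair_down {A m : Geo} (h1 : side m A.src.1 < 0) (h2 : 0 < side m A.tgt.1) (t : ℝ) :
    (0 ≤ side A (pt m t).1 ↔ t ≤ xp m A) ∧ (side A (pt m t).1 ≤ 0 ↔ xp m A ≤ t) := by
  obtain ⟨h3, h4⟩ := side_of_cross h1 h2
  have := GStair_up (A := m) (m := A.rev) (by rw [side_rev]; linarith)
    (by rw [side_rev]; linarith) t
  rw [side_rev, xp_rev_right, neg_nonneg, neg_nonpos] at this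
  exact this.symm

theorem GStair_image (a : Isom) (l : Geo) (S : Set ℝ) :
    pt (a • l) '' ((fun t => t + sh a l) '' S) = (fun p => a • p) '' (pt l '' S) := by
  simp only [image_image, smul_pt]

theorem GStair_far {g : Isom} (h : Hyp g) {l : Geo} (h1 : side l (ax g).src.1 ≠ 0)
    (h2 : 0 < side l (ax g).tgt.1) (p : Pt) : ∃ j : ℕ, 0 < side l (g ^ j • p).1 := by
  have k1 : l.src ≠ (ax g).src := fun e => h1 (e ▸ side_src l)
  have k2 : l.tgt ≠ (ax g).src := fun e => h1 (e ▸ side_tgt l)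
  exact ((toB_of_tendsto_smul l.ne (h.tendsto_pow k1) (h.tendsto_pow k2) p).eventually_pos
    (n := nrm l) h2).exists

theorem GStair_far_circ {g : Isom} (h : Hyp g) {l : Geo} (h2 : 0 < side l (ax g).tgt.1) {ξ : Circ}
    (hξ : ξ ≠ (ax g).src) : ∃ j : ℕ, 0 < side l (g ^ j • ξ).1 := by
  have hc : Continuous fun η : Circ => side l η.1 := continuous_const.B' GCirc_val
  exact (((hc.tendsto _).comp (h.tendsto_pow hξ)).eventually (lt_mem_nhds h2)).exists

/-- Two transversals of a strip have the same sides at infinity inside the strip. -/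
theorem same_sign {l m A C : Geo} (h : Nest m l) (hA : side l A.src.1 < 0)
    (hA' : 0 < side m A.tgt.1) (hC : side l C.src.1 < 0) (hC' : 0 < side m C.tgt.1) {ξ : Circ}
    (h1 : 0 ≤ side l ξ.1) (h2 : side m ξ.1 ≤ 0) : 0 < side A ξ.1 * side C ξ.1 := by
  have hn := (nest_iff_circ m l).1 h
  have h3 := GStair_neg h hA
  rcases GStair_cyc ((side_neg_iff _ _).1 hA) ((side_neg_iff _ _).1 hC)
    ((side_pos_iff _ _).1 (hn _ hA')) ((side_pos_iff _ _).1 (hn _ hC')) ((side_neg_iff _ _).1 h3)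
    ((side_pos_iff _ _).1 hA') ((side_pos_iff _ _).1 hC')
    (fun h' => h1.not_gt ((side_neg_iff _ _).2 h'))
    (fun h' => h2.not_gt ((side_pos_iff _ _).2 h')) with ⟨k1, k2⟩ | ⟨k1, k2⟩
  · exact mul_pos_of_neg_of_neg ((side_neg_iff _ _).2 k1) ((side_neg_iff _ _).2 k2)
  · exact mul_pos ((side_pos_iff _ _).2 k1) ((side_pos_iff _ _).2 k2)

/-- A staircase with period `g`. -/
structure Stair (g : Isom) (q : ℕ) (l n : ℤ → Geo) : Prop where
  q_pos : 0 < q
  nest : ∀ k, Nest (l (k + 1)) (l k)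
  ne : ∀ k, l (k + 1) ≠ l k
  src : ∀ k, side (l k) (n k).src.1 < 0
  tgt : ∀ k, 0 < side (l (k + 1)) (n k).tgt.1
  per_l : ∀ k, g • l k = l (k + q)
  per_n : ∀ k, g • n k = n (k + q)
  fix : ∀ k, g • (l k).src ≠ (l k).src ∧ g • (l k).tgt ≠ (l k).tgt

/-- The part of the path on `l k`. -/
def piece (l n : ℤ → Geo) (k : ℤ) : Set Pt :=
  pt (l k) '' uIcc (xp (l k) (n (k - 1))) (xp (l k) (n k))

/-- The part of the path on `n k`. -/
def jump (l n : ℤ → Geo) (k : ℤ) : Set Pt :=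
  pt (n k) '' Icc (xp (n k) (l k)) (xp (n k) (l (k + 1)))

/-- The path of a staircase. -/
def path (l n : ℤ → Geo) : Set Pt := ⋃ k, piece l n k ∪ jump l n k

/-- The closed strip between consecutive lines. -/
def strip (l : ℤ → Geo) (k : ℤ) : Set Pt :=
  {p | 0 ≤ side (l k) p.1 ∧ side (l (k + 1)) p.1 ≤ 0}

/-- The left side of the path. -/
def Above (l n : ℤ → Geo) : Set Pt := {p | ∀ k, p ∈ strip l k → 0 < side (n k) p.1}

/-- The right side of the path. -/
def Below (l n : ℤ → Geo) : Set Pt := {p | ∀ k, p ∈ strip l k → side (n k) p.1 < 0}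

namespace Stair

variable {g : Isom} {q : ℕ} {l n : ℤ → Geo} (h : Stair g q l n)
include h

theorem nest_of_le {j k : ℤ} (hjk : j ≤ k) : Nest (l k) (l j) := by
  induction k, hjk using Int.leInduction with
  | base => exact Nest.refl _
  | succ k _ ih => exact (h.nest k).trans ih
theorem tgt' (k : ℤ) : 0 < side (l k) (n k).tgt.1 := by
  exact (nest_iff_circ _ _).1 (h.nest k) _ (h.tgt k)
theorem src' (k : ℤ) : side (l (k + 1)) (n k).src.1 < 0 := by
  exact GStair_neg (h.nest k) (h.src k)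
theorem xp_lt (k : ℤ) : xp (n k) (l k) < xp (n k) (l (k + 1)) := by
  have hc := (h.nest k).not_cross
  refine not_le.1 fun hle => h.ne k ((h.nest k).antisymm ?_)
  exact (nest_iff_xp (fun e => hc e.symm) (h.tgt' k) (h.src k) (h.tgt k) (h.src' k)).2 hle
theorem GStair_pp (k : ℤ) :
    Hyp g ∧ 0 < side (l k) (ax g).tgt.1 ∧ side (l k) (ax g).src.1 < 0 :=
  hyp_of_nest (by rw [h.per_l]; exact h.nest_of_le (by omega)) (h.fix k).1 (h.fix k).2
theorem hyp : Hyp g := by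
  exact (h.GStair_pp 0).1
theorem side_ax (k : ℤ) : side (l k) (ax g).src.1 < 0 ∧ 0 < side (l k) (ax g).tgt.1 := by
  exact (h.GStair_pp k).2.symm
theorem smul (a : Isom) : Stair (a * g * a⁻¹) q (fun k => a • l k) fun k => a • n k := by
  refine ⟨h.q_pos, fun k => (nest_smul a).2 (h.nest k),
    fun k e => h.ne k (smul_left_cancel a e), fun k => (side_smul_circ_neg a _ _).2 (h.src k),
    fun k => (side_smul_circ_pos a _ _).2 (h.tgt k), fun k => ?_, fun k => ?_, fun k => ?_⟩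
  · rw [mul_smul, mul_smul, inv_smul_smul, h.per_l]
  · rw [mul_smul, mul_smul, inv_smul_smul, h.per_n]
  · simp only [Geo.src_smul, Geo.tgt_smul, mul_smul, inv_smul_smul]
    exact ⟨fun e => (h.fix k).1 (smul_left_cancel a e), fun e => (h.fix k).2 (smul_left_cancel a e)⟩
omit h in
theorem GStair_zpow {m : ℤ → Geo} (hm : ∀ k, g • m k = m (k + q)) (j k : ℤ) :
    g ^ j • m k = m (k + j * q) := by
  induction j using Int.induction_on with
  | zero => simp
  | succ j ih =>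
    rw [add_comm (j : ℤ) 1, zpow_add, zpow_one, mul_smul, ih, hm]
    congr 1
    ring
  | pred j ih =>
    rw [sub_eq_neg_add, zpow_add, zpow_neg_one, mul_smul, ih, inv_smul_eq_iff, hm]
    congr 1
    ring
theorem GStair_prev (k : ℤ) :
    side (l k) (n (k - 1)).src.1 < 0 ∧ 0 < side (l k) (n (k - 1)).tgt.1 := by
  have h1 := h.src' (k - 1)
  have h2 := h.tgt (k - 1)
  rw [sub_add_cancel] at h1 h2
  exact ⟨h1, h2⟩
theorem zpow_l (j k : ℤ) : g ^ j • l k = l (k + j * q) := by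
  exact GStair_zpow h.per_l j k
theorem zpow_n (j k : ℤ) : g ^ j • n k = n (k + j * q) := by
  exact GStair_zpow h.per_n j k
theorem piece_smul (a : Isom) (k : ℤ) :
    piece (fun k => a • l k) (fun k => a • n k) k = (fun p => a • p) '' piece l n k := by
  simp only [piece]
  rw [xp_smul a (GStair_cross (h.GStair_prev k).1 (h.GStair_prev k).2),
    xp_smul a (GStair_cross (h.src k) (h.tgt' k)), ← image_add_const_uIcc, GStair_image]
theorem jump_smul (a : Isom) (k : ℤ) :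
    jump (fun k => a • l k) (fun k => a • n k) k = (fun p => a • p) '' jump l n k := by
  simp only [jump]
  rw [xp_smul a (GStair_cross (h.src k) (h.tgt' k)).symm,
    xp_smul a (GStair_cross (h.src' k) (h.tgt k)).symm, ← image_add_const_Icc, GStair_image]
theorem path_smul (a : Isom) :
    path (fun k => a • l k) (fun k => a • n k) = (fun p => a • p) '' path l n := by
  simp only [path, h.piece_smul, h.jump_smul, image_iUnion, image_union]
theorem exists_between (p : Pt) : ∃ a b : ℤ, 0 < side (l a) p.1 ∧ side (l b) p.1 < 0 := by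
  obtain ⟨h1, h2⟩ := h.side_ax 0
  obtain ⟨i, hi⟩ := GStair_far h.hyp h1.ne h2 p
  obtain ⟨j, hj⟩ := GStair_far h.hyp.inv (l := (l 0).rev)
    (by rw [h.hyp.ax_inv, side_rev, Geo.src_rev]; linarith)
    (by rw [h.hyp.ax_inv, side_rev, Geo.tgt_rev]; linarith) p
  refine ⟨0 + -(i : ℤ) * q, 0 + j * q, ?_, ?_⟩
  · rwa [← h.zpow_l, ← side_smul_pt (g ^ i), zpow_neg, zpow_natCast, smul_inv_smul]
  · rw [← h.zpow_l, ← side_smul_pt (g⁻¹ ^ j), inv_pow, zpow_natCast, inv_smul_smul, ← inv_pow]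
    rw [side_rev] at hj
    linarith
theorem exists_between_circ {ξ : Circ} (hξ : side (ax g) ξ.1 ≠ 0) :
    ∃ a b : ℤ, 0 < side (l a) ξ.1 ∧ side (l b) ξ.1 < 0 := by
  obtain ⟨h1, h2⟩ := h.side_ax 0
  obtain ⟨i, hi⟩ := GStair_far_circ h.hyp h2 (ξ := ξ) fun e => hξ (e ▸ side_src _)
  obtain ⟨j, hj⟩ := GStair_far_circ h.hyp.inv (l := (l 0).rev)
    (by rw [h.hyp.ax_inv, side_rev, Geo.tgt_rev]; linarith) (ξ := ξ)
    (by rw [h.hyp.ax_inv, Geo.src_rev]; exact fun e => hξ (e ▸ side_tgt _))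
  refine ⟨0 + -(i : ℤ) * q, 0 + j * q, ?_, ?_⟩
  · rwa [← h.zpow_l, ← side_smul_circ_pos (g ^ i), zpow_neg, zpow_natCast, smul_inv_smul]
  · rw [← h.zpow_l, ← side_smul_circ_neg (g⁻¹ ^ j), inv_pow, zpow_natCast, inv_smul_smul,
      ← inv_pow]
    rw [side_rev] at hj
    linarith
theorem exists_strip (p : Pt) : ∃ k, p ∈ strip l k := by
  obtain ⟨a, b, ha, hb⟩ := h.exists_between p
  obtain ⟨k, h1, h2⟩ := Int.exists_greatest_of_bdd (P := fun k => 0 ≤ side (l k) p.1)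
    ⟨b, fun k hk => not_lt.1 fun e => hb.not_ge ((h.nest_of_le e.le).nonneg p.fut hk)⟩ ⟨a, ha.le⟩
  exact ⟨k, h1, (not_le.1 fun e => absurd (h2 _ e) (by omega)).le⟩
theorem mem_jump_iff (k : ℤ) (p : Pt) : p ∈ jump l n k ↔ p ∈ strip l k ∧ side (n k) p.1 = 0 := by
  constructor
  · rintro ⟨t, ht, rfl⟩
    exact ⟨⟨(GStair_up (h.src k) (h.tgt' k) t).1.2 ht.1,
      (GStair_up (h.src' k) (h.tgt k) t).2.2 ht.2⟩, side_pt _ _⟩
  · rintro ⟨⟨h1, h2⟩, h3⟩
    rw [← eq_pt_of_side h3] at h1 h2 ⊢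
    exact ⟨_, ⟨(GStair_up (h.src k) (h.tgt' k) _).1.1 h1,
      (GStair_up (h.src' k) (h.tgt k) _).2.1 h2⟩, rfl⟩
theorem mem_piece_iff (k : ℤ) (p : Pt) : p ∈ piece l n k ↔
    side (l k) p.1 = 0 ∧ side (n (k - 1)) p.1 * side (n k) p.1 ≤ 0 := by
  have key : ∀ t, t ∈ uIcc (xp (l k) (n (k - 1))) (xp (l k) (n k)) ↔
      side (n (k - 1)) (pt (l k) t).1 * side (n k) (pt (l k) t).1 ≤ 0 := fun t => by
    obtain ⟨a1, a2⟩ := GStair_down (h.GStair_prev k).1 (h.GStair_prev k).2 t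
    obtain ⟨b1, b2⟩ := GStair_down (h.src k) (h.tgt' k) t
    rw [mem_uIcc, mul_nonpos_iff, a1, a2, b1, b2]
    tauto
  constructor
  · rintro ⟨t, ht, rfl⟩
    exact ⟨side_pt _ _, (key t).1 ht⟩
  · rintro ⟨h1, h2⟩
    rw [← eq_pt_of_side h1] at h2 ⊢
    exact ⟨_, (key _).2 h2, rfl⟩

end Stair

end HRT
end

-- merged part: Pool.Agent.Work.MP_35beee_gt.GStairS
section
/-!
The two sides of a staircase. See the header of `GStair` for the plan.
`isPreconnected_path`: consecutive pieces and jumps share an endpoint (`pt_xp`); use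
`IsPreconnected.iUnion_of_chain` or an increasing union. The orbit of a point of the path under
`g ^ j` tends to the ends of the axis.
-/

namespace HRT

open Set Filter Topology Real

theorem GStairS_side (m : Geo) : Continuous fun p : Pt => side m p.1 :=
  continuous_const.B' GMet_cont_val

theorem GStairS_pt (m : Geo) : Continuous (pt m) :=
  Continuous.comp (g := fun x : Geo × ℝ => pt x.1 x.2) (f := fun t : ℝ => (m, t)) continuous_pt
    (continuous_const.prodMk continuous_id)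

theorem GStairS_closed (l : ℤ → Geo) (k : ℤ) : IsClosed (strip l k) :=
  (isClosed_le continuous_const (GStairS_side (l k))).inter
    (isClosed_le (GStairS_side (l (k + 1))) continuous_const)

theorem GStairS_top (m : Geo) : ToB atTop (pt m) m.tgt := by
  have := toB_fermi_atTop m 0
  simpa only [fermi_zero] using this

theorem GStairS_bot (m : Geo) : ToB atBot (pt m) m.src := by
  have := toB_fermi_atBot m 0
  simpa only [fermi_zero] using this

theorem GStairS_orbit {g : Isom} (hg : Hyp g) (p : Pt) :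
    ToB atTop (fun j : ℤ => g ^ j • p) (ax g).tgt ∧
      ToB atBot (fun j : ℤ => g ^ j • p) (ax g).src := by
  have e : ∀ j : ℤ, g ^ j • pt (ax g) 0 = pt (ax g) (j * tl g) := fun j => by
    rw [smul_pt, hg.zpow_smul_ax, hg.sh_zpow, zero_add]
  have d : ∀ j : ℤ, dist (pt (ax g) (j * tl g)) (g ^ j • p) ≤ dist (pt (ax g) 0) p := fun j => by
    rw [← e, dist_smul]
  have t1 : Tendsto (fun j : ℤ => (j : ℝ) * tl g) atTop atTop :=
    tendsto_intCast_atTop_atTop.atTop_mul_const hg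
  have t2 : Tendsto (fun j : ℤ => (j : ℝ) * tl g) atBot atBot :=
    (tendsto_intCast_atBot_iff.2 tendsto_id).atBot_mul_const hg
  have a1 : ToB atTop (fun j : ℤ => pt (ax g) (j * tl g)) (ax g).tgt :=
    Tendsto.comp (g := fun t => kl (pt (ax g) t)) (GStairS_top (ax g)) t1
  have a2 : ToB atBot (fun j : ℤ => pt (ax g) (j * tl g)) (ax g).src :=
    Tendsto.comp (g := fun t => kl (pt (ax g) t)) (GStairS_bot (ax g)) t2
  exact ⟨a1.of_dist_le (Eventually.of_forall d), a2.of_dist_le (Eventually.of_forall d)⟩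

namespace Stair

variable {g : Isom} {q : ℕ} {l n : ℤ → Geo} (h : Stair g q l n)
include h

theorem GStairS_range {a b k : ℤ} {p : Pt} (ha : 0 < side (l a) p.1) (hb : side (l b) p.1 < 0)
    (hk : p ∈ strip l k) : k ∈ Ico a b := by
  constructor
  · by_contra hlt
    have := h.nest_of_le (show k + 1 ≤ a by omega) p ha
    exact absurd hk.2 (not_le.2 this)
  · by_contra hlt
    have := (h.nest_of_le (show b ≤ k by omega)).nonneg p.fut hk.1
    exact absurd this (not_le.2 hb)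

theorem GStairS_open {P : ℤ → Set Pt} (hP : ∀ k, IsOpen (P k)) :
    IsOpen {p | ∀ k, p ∈ strip l k → p ∈ P k} := by
  refine isOpen_iff_mem_nhds.2 fun p hp => ?_
  obtain ⟨a, b, ha, hb⟩ := h.exists_between p
  have h1 : ∀ᶠ x in 𝓝 p, 0 < side (l a) x.1 :=
    (isOpen_lt continuous_const (GStairS_side (l a))).mem_nhds ha
  have h2 : ∀ᶠ x in 𝓝 p, side (l b) x.1 < 0 :=
    (isOpen_lt (GStairS_side (l b)) continuous_const).mem_nhds hb
  have h3 : ∀ᶠ x in 𝓝 p, ∀ k ∈ Ico a b, x ∈ (strip l k)ᶜ ∪ P k := by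
    refine (eventually_all_finite (finite_Ico a b)).2 fun k _ => ?_
    refine ((GStairS_closed l k).isOpen_compl.union (hP k)).mem_nhds ?_
    by_cases hk : p ∈ strip l k
    · exact Or.inr (hp k hk)
    · exact Or.inl hk
  filter_upwards [h1, h2, h3] with x x1 x2 x3 k hk
  exact (x3 k (h.GStairS_range x1 x2 hk)).resolve_left fun hn => hn hk

theorem GStairS_lt {p : Pt} (hp : p ∉ path l n) {j k : ℤ} (hj : p ∈ strip l j)
    (hk : p ∈ strip l k) (hjk : j < k) : 0 < side (n j) p.1 * side (n k) p.1 := by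
  have e : k = j + 1 := by
    by_contra hne
    have h1 := (h.nest_of_le (show j + 1 + 1 ≤ k by omega)).nonneg p.fut hk.1
    exact absurd hj.2 (not_le.2 ((h.nest (j + 1)).pos_of_ne (h.ne (j + 1)) h1))
  subst e
  by_contra hle
  refine hp (mem_iUnion.2 ⟨j + 1, Or.inl ((h.mem_piece_iff (j + 1) p).2
    ⟨le_antisymm hj.2 hk.1, ?_⟩)⟩)
  rw [add_sub_cancel_right]
  exact not_lt.1 hle

theorem GStairS_same {p : Pt} (hp : p ∉ path l n) {j k : ℤ} (hj : p ∈ strip l j)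
    (hk : p ∈ strip l k) : 0 < side (n j) p.1 * side (n k) p.1 := by
  rcases lt_trichotomy j k with hlt | rfl | hlt
  · exact h.GStairS_lt hp hj hk hlt
  · refine mul_self_pos.2 fun h0 => hp (mem_iUnion.2 ⟨j, Or.inr ?_⟩)
    exact (h.mem_jump_iff j p).2 ⟨hj, h0⟩
  · rw [mul_comm]
    exact h.GStairS_lt hp hk hj hlt

theorem GStairS_inf {X : Type*} {F : Filter X} [F.NeBot] {p : X → Pt} {ξ : Circ}
    (hξ : ToB F p ξ) (h0 : side (ax g) ξ.1 ≠ 0) : ∃ (k : ℤ) (U : Ultrafilter X), ↑U ≤ F ∧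
      (∀ᶠ x in U, p x ∈ strip l k) ∧ 0 < side (ax g) ξ.1 * side (n k) ξ.1 := by
  obtain ⟨a, b, ha, hb⟩ := h.exists_between_circ h0
  have h1 : ∀ᶠ x in F, 0 < side (l a) (p x).1 := hξ.eventually_pos (n := nrm (l a)) ha
  have h2 : ∀ᶠ x in F, 0 < side (l b).rev (p x).1 :=
    hξ.eventually_pos (n := nrm (l b).rev) (show 0 < side (l b).rev ξ.1 by
      rw [side_rev]; linarith)
  have hU : (Ultrafilter.of F : Filter X) ≤ F := Ultrafilter.of_le F
  have h3 : (⋃ k ∈ Ico a b, {x | p x ∈ strip l k}) ∈ Ultrafilter.of F := by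
    refine hU ?_
    filter_upwards [h1, h2] with x x1 x2
    obtain ⟨k, hk⟩ := h.exists_strip (p x)
    rw [side_rev] at x2
    exact mem_biUnion (h.GStairS_range x1 (by linarith) hk) hk
  obtain ⟨k, -, hk⟩ := (Ultrafilter.finite_biUnion_mem_iff (finite_Ico a b)).1 h3
  have hk' : ∀ᶠ x in (Ultrafilter.of F : Filter X), p x ∈ strip l k := hk
  refine ⟨k, Ultrafilter.of F, hU, hk', ?_⟩
  have s1 : 0 ≤ side (l k) ξ.1 :=
    (hξ.mono hU).nonneg (n := nrm (l k)) (hk'.mono fun x hx => hx.1)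
  have s2 : 0 ≤ side (l (k + 1)).rev ξ.1 :=
    (hξ.mono hU).nonneg (n := nrm (l (k + 1)).rev) (hk'.mono fun x hx =>
      show 0 ≤ side (l (k + 1)).rev (p x).1 by rw [side_rev]; linarith [hx.2])
  rw [side_rev] at s2
  exact same_sign (h.nest k) (h.side_ax k).1 (h.side_ax (k + 1)).2 (h.src k) (h.tgt k) s1
    (by linarith)

theorem GStairS_cross (k : ℤ) : Cross (l k) (n k) := mul_neg_of_neg_of_pos (h.src k) (h.tgt' k)

theorem GStairS_cross' (k : ℤ) : Cross (l (k + 1)) (n k) :=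
  mul_neg_of_neg_of_pos (h.src' k) (h.tgt k)

theorem isOpen_above : IsOpen (Above l n) := by
  exact h.GStairS_open (P := fun k => {p | 0 < side (n k) p.1}) fun k =>
    isOpen_lt continuous_const (GStairS_side (n k))
theorem isOpen_below : IsOpen (Below l n) := by
  exact h.GStairS_open (P := fun k => {p | side (n k) p.1 < 0}) fun k =>
    isOpen_lt (GStairS_side (n k)) continuous_const
theorem disjoint_above_below : Disjoint (Above l n) (Below l n) := by
  refine Set.disjoint_left.2 fun p h1 h2 => ?_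
  obtain ⟨k, hk⟩ := h.exists_strip p
  exact lt_asymm (h1 k hk) (h2 k hk)
theorem above_or_below {p : Pt} (hp : p ∉ path l n) : p ∈ Above l n ∨ p ∈ Below l n := by
  obtain ⟨j, hj⟩ := h.exists_strip p
  rcases lt_trichotomy 0 (side (n j) p.1) with h0 | h0 | h0
  · exact Or.inl fun k hk => (mul_pos_iff_of_pos_left h0).1 (h.GStairS_same hp hj hk)
  · have := h.GStairS_same hp hj hj
    rw [← h0, zero_mul] at this
    exact absurd this (lt_irrefl 0)
  · refine Or.inr fun k hk => ?_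
    by_contra hn
    exact absurd (h.GStairS_same hp hj hk)
      (not_lt.2 (mul_nonpos_of_nonpos_of_nonneg h0.le (not_lt.1 hn)))
theorem side_nonneg_of_above {X : Type*} {F : Filter X} [F.NeBot] {p : X → Pt} {ξ : Circ}
    (hξ : ToB F p ξ) (hp : ∀ᶠ x in F, p x ∈ Above l n) : 0 ≤ side (ax g) ξ.1 := by
  by_contra hn
  have hn' := not_le.1 hn
  obtain ⟨k, U, hU, h1, h2⟩ := h.GStairS_inf hξ hn'.ne
  have s : 0 ≤ side (n k) ξ.1 := by
    refine (hξ.mono hU).nonneg (n := nrm (n k)) ?_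
    filter_upwards [h1, hU hp] with x x1 x2 using (x2 k x1).le
  exact absurd h2 (not_lt.2 (mul_nonpos_of_nonpos_of_nonneg hn'.le s))
theorem side_nonpos_of_below {X : Type*} {F : Filter X} [F.NeBot] {p : X → Pt} {ξ : Circ}
    (hξ : ToB F p ξ) (hp : ∀ᶠ x in F, p x ∈ Below l n) : side (ax g) ξ.1 ≤ 0 := by
  by_contra hn
  have hn' := not_le.1 hn
  obtain ⟨k, U, hU, h1, h2⟩ := h.GStairS_inf hξ hn'.ne'
  have s : 0 ≤ side (n k).rev ξ.1 := by
    refine (hξ.mono hU).nonneg (n := nrm (n k).rev) ?_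
    filter_upwards [h1, hU hp] with x x1 x2
    have := x2 k x1
    change 0 ≤ side (n k).rev (p x).1
    rw [side_rev]
    linarith
  rw [side_rev] at s
  exact absurd h2 (not_lt.2 (mul_nonpos_of_nonneg_of_nonpos hn'.le (by linarith)))
theorem isPreconnected_path : IsPreconnected (path l n) := by
  refine IsPreconnected.iUnion_of_chain (fun k => ?_) fun k => ?_
  · refine IsPreconnected.union (pt (l k) (xp (l k) (n k))) ⟨_, right_mem_uIcc, rfl⟩
      ⟨_, left_mem_Icc.2 (h.xp_lt k).le, (pt_xp (h.GStairS_cross k)).symm⟩ ?_ ?_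
    · exact isPreconnected_uIcc.image _ (GStairS_pt _).continuousOn
    · exact isPreconnected_Icc.image _ (GStairS_pt _).continuousOn
  · refine ⟨pt (n k) (xp (n k) (l (k + 1))), Or.inr ⟨_, right_mem_Icc.2 (h.xp_lt k).le, rfl⟩,
      Or.inl ⟨xp (l (k + 1)) (n k), ?_, pt_xp (h.GStairS_cross' k)⟩⟩
    rw [Order.succ_eq_add_one, add_sub_cancel_right]
    exact left_mem_uIcc

/-- A line crossing the axis meets the path. -/
theorem exists_mem_path {m : Geo} (hm : Cross (ax g) m) : ∃ t, pt m t ∈ path l n := by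
  by_contra hn
  push Not at hn
  have hc : IsPreconnected (range (pt m)) := isPreconnected_range (GStairS_pt m)
  rcases hc.subset_or_subset h.isOpen_above h.isOpen_below h.disjoint_above_below
    (by rintro _ ⟨t, rfl⟩; exact h.above_or_below (hn t)) with hs | hs
  · have h1 := h.side_nonneg_of_above (GStairS_top m) (Eventually.of_forall fun t => hs ⟨t, rfl⟩)
    have h2 := h.side_nonneg_of_above (GStairS_bot m) (Eventually.of_forall fun t => hs ⟨t, rfl⟩)
    exact absurd hm (not_lt.2 (mul_nonneg h2 h1))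
  · have h1 := h.side_nonpos_of_below (GStairS_top m) (Eventually.of_forall fun t => hs ⟨t, rfl⟩)
    have h2 := h.side_nonpos_of_below (GStairS_bot m) (Eventually.of_forall fun t => hs ⟨t, rfl⟩)
    exact absurd hm (not_lt.2 (mul_nonneg_of_nonpos_of_nonpos h2 h1))

/-- Staircases with disjoint paths have non-crossing axes. -/
theorem not_cross {g' : Isom} {q' : ℕ} {l' n' : ℤ → Geo} (h' : Stair g' q' l' n')
    (hd : Disjoint (path l n) (path l' n')) : ¬ Cross (ax g) (ax g') := by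
  obtain ⟨o1, o2⟩ := GStairS_orbit h'.hyp (pt (l' 0) (xp (l' 0) (n' 0)))
  have hm : ∀ j : ℤ, g' ^ j • pt (l' 0) (xp (l' 0) (n' 0)) ∈ path l' n' := fun j => by
    rw [smul_pt, ← xp_smul _ (h'.GStairS_cross 0), h'.zpow_l, h'.zpow_n]
    exact mem_iUnion.2 ⟨_, Or.inl ⟨_, right_mem_uIcc, rfl⟩⟩
  rcases h'.isPreconnected_path.subset_or_subset h.isOpen_above h.isOpen_below
    h.disjoint_above_below
    (fun p hp => h.above_or_below fun hq => Set.disjoint_left.1 hd hq hp) with hs | hs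
  · have h1 := h.side_nonneg_of_above o1 (Eventually.of_forall fun j => hs (hm j))
    have h2 := h.side_nonneg_of_above o2 (Eventually.of_forall fun j => hs (hm j))
    exact not_lt.2 (mul_nonneg h2 h1)
  · have h1 := h.side_nonpos_of_below o1 (Eventually.of_forall fun j => hs (hm j))
    have h2 := h.side_nonpos_of_below o2 (Eventually.of_forall fun j => hs (hm j))
    exact not_lt.2 (mul_nonneg_of_nonpos_of_nonpos h2 h1)

end Stair

end HRT
end

-- merged part: Pool.Agent.Work.MP_35beee_gt.GStairC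
section
/-!
Counting lines and measuring leaves that cross the axis of a staircase.

Plan. `cross_of_inner`, `inner_unique`: let `m` meet a jump only if it is `± n k`. On the closed
interval `m ∩ strip k` the sign `σ k ∈ {+,0,-}` of `side (n k)` is constant. At a point of
`m ∩ l k` chirality gives `σ k ≤ σ (k-1)` (first case of `Chir`; reversed in the second case). If
`m` crosses the inside of the piece `k` then `σ (k-1)` and `σ k` are opposite and nonzero, so all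
signs on one side of `l k` are `+` and all signs on the other side are `-`: the two halves of `m`
are in `Above` and `Below`. Conclude with `side_nonneg_of_above`, `side_nonpos_of_below`.
`card_le`, `le_card`: translate by powers of `g` (`zpow_l`, `xp_smul`, `Hyp.sh_zpow`). A line of `W`
crossing the axis meets the path: in a jump (then it is `± n k`; the endpoints of the pieces are in
the jumps) or inside a piece. Conversely the map sending `(k, m)`, `m ∈ inner W k` not `± ax g`, to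
the translate of `m` with crossing parameter in `[0, tl)` is injective.
`ic_eq`: `measure_eq_of_zpow` for `xs (ax g) [0, tl) ∩ Λ₀` and the union of the `xs (n k) (..) ∩ Λ₀`,
`0 ≤ k < q`, where `Λ₀` is `Λ` without the countably many `± l k`. A leaf `m ∈ Λ₀` crossing the axis
from right to left is nested with all `l k` (`nest_cases`: orient), so it lies strictly between
`l k` and `l (k+1)` for exactly one `k`; then `same_sign` compares `ax g` and `n k`.
-/

namespace HRT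

open Set Filter Topology Real MeasureTheory

/-- All pieces are run through in the same direction. -/
def Chir (l n : ℤ → Geo) : Prop :=
  (∀ k, xp (l k) (n (k - 1)) ≤ xp (l k) (n k)) ∨ ∀ k, xp (l k) (n k) ≤ xp (l k) (n (k - 1))

/-- Lines of `W` crossing the inside of a piece. -/
def inner (W : Set Geo) (l n : ℤ → Geo) (k : ℤ) : Set Geo :=
  {m ∈ W | Cross (l k) m ∧ xp (l k) m ∈ uIoo (xp (l k) (n (k - 1))) (xp (l k) (n k))}

/-- A line that meets a jump only if it contains it. -/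
def Clean (l n : ℤ → Geo) (m : Geo) : Prop :=
  ∀ k, ∀ p ∈ jump l n k, side m p.1 = 0 → m = n k ∨ m = (n k).rev

theorem GStairC_nonneg_iff (L m : Geo) (t : ℝ) :
    0 ≤ side L (pt m t).1 ↔ 0 ≤ side L m.src.1 + exp (2 * t) * side L m.tgt.1 := by
  have h0 : 0 < (√(-2 * B m.src.1 m.tgt.1))⁻¹ := inv_pos.2 (gcross_k_pos m)
  have h1 : exp t = exp (-t) * exp (2 * t) := by rw [← exp_add]; congr 1; ring
  rw [side_pt_eq, h1, mul_assoc (exp (-t)), ← mul_add, mul_nonneg_iff_of_pos_left h0,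
    mul_nonneg_iff_of_pos_left (exp_pos _)]

theorem GStairC_conv {L m : Geo} {s t u : ℝ} (hu : u ∈ uIcc s t) (hs : 0 ≤ side L (pt m s).1)
    (ht : 0 ≤ side L (pt m t).1) : 0 ≤ side L (pt m u).1 := by
  wlog hst : s ≤ t generalizing s t
  · exact this (uIcc_comm s t ▸ hu) ht hs (not_le.1 hst).le
  rw [uIcc_of_le hst] at hu
  rw [GStairC_nonneg_iff] at hs ht ⊢
  have h1 : exp (2 * s) ≤ exp (2 * u) := exp_le_exp.2 (by linarith [hu.1])
  have h2 : exp (2 * u) ≤ exp (2 * t) := exp_le_exp.2 (by linarith [hu.2])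
  rcases le_total 0 (side L m.tgt.1) with h | h
  · linarith only [hs, h1, h, mul_le_mul_of_nonneg_right h1 h]
  · linarith only [ht, h2, h, mul_le_mul_of_nonpos_right h2 h]

theorem GStairC_cont (L m : Geo) : Continuous fun t => side L (pt m t).1 :=
  continuous_side.comp (f := fun t : ℝ => (L, (pt m t).1))
    (continuous_const.prodMk (continuous_subtype_val.comp
      (continuous_pt.comp (f := fun t : ℝ => (m, t)) (continuous_const.prodMk continuous_id))))

theorem GStairC_ivt {L m : Geo} {e s t : ℝ} (he : e ≠ 0) (hs : 0 ≤ e * side L (pt m s).1)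
    (ht : e * side L (pt m t).1 ≤ 0) : ∃ u ∈ uIcc s t, side L (pt m u).1 = 0 := by
  have h := intermediate_value_uIcc (a := s) (b := t)
    (f := fun t => e * side L (pt m t).1) (continuous_const.mul (GStairC_cont L m)).continuousOn
  obtain ⟨u, hu, h0⟩ := h (mem_uIcc.2 (Or.inr ⟨ht, hs⟩))
  exact ⟨u, hu, (mul_eq_zero.1 h0).resolve_left he⟩

theorem GStairC_strip_conv {l : ℤ → Geo} {k : ℤ} {m : Geo} {s t u : ℝ} (hu : u ∈ uIcc s t)
    (hs : pt m s ∈ strip l k) (ht : pt m t ∈ strip l k) : pt m u ∈ strip l k := by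
  refine ⟨GStairC_conv hu hs.1 ht.1, ?_⟩
  have h := GStairC_conv (L := (l (k + 1)).rev) hu (by rw [side_rev]; linarith [hs.2])
    (by rw [side_rev]; linarith [ht.2])
  rw [side_rev] at h
  linarith

theorem GStairC_nonpos {l m : Geo} (h : Nest l m) {p : Pt} (hp : side m p.1 ≤ 0) :
    side l p.1 ≤ 0 := not_lt.1 fun h' => hp.not_gt (h p h')

theorem GStairC_same {m A : Geo} (h : m = A ∨ m = A.rev) {v : V} :
    side m v = 0 ↔ side A v = 0 := by
  rcases h with rfl | rfl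
  · rfl
  · rw [side_rev, neg_eq_zero]

theorem GStairC_pos_iff {L A : Geo} (h1 : side L A.src.1 < 0) (h2 : 0 < side L A.tgt.1) (t : ℝ) :
    (0 < side A (pt L t).1 ↔ t < xp L A) ∧ (side A (pt L t).1 < 0 ↔ xp L A < t) := by
  have hc : Cross L A := mul_neg_of_neg_of_pos h1 h2
  have h3 := (side_of_cross h1 h2).2
  have h4 : side A (pt L t).1 < 0 ↔ xp L A < t := by
    rw [← side_pt_mul_pos_iff hc]
    exact ⟨fun h => mul_pos_of_neg_of_neg h h3, fun h => by
      by_contra h5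
      exact h.not_ge (mul_nonpos_of_nonneg_of_nonpos (not_lt.1 h5) h3.le)⟩
  refine ⟨⟨fun h => ?_, fun h => ?_⟩, h4⟩
  · rcases lt_trichotomy t (xp L A) with h5 | h5 | h5
    · exact h5
    · exact absurd ((side_pt_eq_zero_iff hc t).2 h5) h.ne'
    · exact absurd (h4.2 h5) h.not_gt
  · rcases lt_trichotomy (side A (pt L t).1) 0 with h5 | h5 | h5
    · exact absurd (h4.1 h5) h.not_gt
    · exact absurd ((side_pt_eq_zero_iff hc t).1 h5) h.ne
    · exact h5

theorem GStairC_cross_smul (a : Isom) {l m : Geo} (h : Cross l m) : Cross (a • l) (a • m) := by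
  rcases mul_neg_iff.1 h with ⟨h1, h2⟩ | ⟨h1, h2⟩
  · exact mul_neg_of_pos_of_neg ((side_smul_circ_pos a l m.src).2 h1)
      ((side_smul_circ_neg a l m.tgt).2 h2)
  · exact mul_neg_of_neg_of_pos ((side_smul_circ_neg a l m.src).2 h1)
      ((side_smul_circ_pos a l m.tgt).2 h2)

theorem GStairC_shift {g : Isom} (hg : Hyp g) (j : ℤ) {m : Geo} (h : Cross (ax g) m) :
    Cross (ax g) (g ^ j • m) ∧ xp (ax g) (g ^ j • m) = xp (ax g) m + j * tl g := by
  have h1 := GStairC_cross_smul (g ^ j) h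
  have h2 := xp_smul (g ^ j) h
  rw [hg.zpow_smul_ax] at h1 h2
  exact ⟨h1, by rw [h2, hg.sh_zpow]⟩

/-- A line between two lines crossing `A`. -/
theorem GStairC_btw {A a b m : Geo} (ha : a ∈ xs A univ) (hb : b ∈ xs A univ) (h1 : ¬ Cross a m)
    (h2 : ¬ Cross m b) (h3 : m ≠ a) (h4 : m ≠ b) {I : Set ℝ} (hI : Ioo (xp A a) (xp A b) ⊆ I)
    (hI' : I ⊆ Icc (xp A a) (xp A b)) : m ∈ xs A I ↔ Nest a m ∧ Nest m b := by
  constructor
  · intro hm
    have hm' : m ∈ xs A univ := xs_mono A (subset_univ _) hm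
    exact ⟨(nest_iff_xp_le ha hm' h1).2 (hI' hm.2.2).1, (nest_iff_xp_le hm' hb h2).2 (hI' hm.2.2).2⟩
  · rintro ⟨n1, n2⟩
    have e1 : 0 < side m A.src.1 := (nest_iff_circ _ _).1 n1 _ (side_of_cross ha.1 ha.2.1).1
    have e2 : 0 < side m.rev A.tgt.1 := (nest_iff_circ _ _).1 n2.rev _ (by
      rw [side_rev]; linarith [(side_of_cross hb.1 hb.2.1).2])
    have e3 := side_of_cross (l := m.rev) (m := A) (by rw [side_rev]; linarith) e2
    have hm : m ∈ xs A univ := ⟨e3.2, e3.1, mem_univ _⟩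
    refine ⟨e3.2, e3.1, hI ⟨lt_of_le_of_ne ((nest_iff_xp_le ha hm h1).1 n1) fun e => ?_,
      lt_of_le_of_ne ((nest_iff_xp_le hm hb h2).1 n2) fun e => ?_⟩⟩
    · exact h3 (eq_of_xp_eq ha hm h1 e).symm
    · exact h4 (eq_of_xp_eq hm hb h2 e)

theorem GStairC_rev_mem {L A : Geo} (h1 : side L A.src.1 < 0) (h2 : 0 < side L A.tgt.1) :
    L.rev ∈ xs A univ :=
  ⟨(side_of_cross h1 h2).2, (side_of_cross h1 h2).1, mem_univ _⟩

theorem GStairC_xs_add {Γ : Type*} [Group Γ] {ρ : Γ →* Isom} {μ : Measure Geo} (hμ : Cur ρ μ)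
    (A : Geo) {a b c : ℝ} (hab : a ≤ b) (hbc : b ≤ c) :
    μ.real (xs A (Ico a c)) = μ.real (xs A (Ico a b)) + μ.real (xs A (Ico b c)) := by
  have h1 : xs A (Ico a c) = xs A (Ico a b) ∪ xs A (Ico b c) := by
    rw [← Ico_union_Ico_eq_Ico hab hbc]
    ext m
    simp only [xs, mem_ofPred_eq, mem_union]
    tauto
  rw [h1, measureReal_union _ (measurableSet_xs A measurableSet_Ico)
    (hμ.xs_lt_top A (Metric.isBounded_Ico _ _)).ne (hμ.xs_lt_top A (Metric.isBounded_Ico _ _)).ne]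
  exact disjoint_left.2 fun m h h' => h.2.2.2.not_ge h'.2.2.1

namespace Stair

variable {g : Isom} {q : ℕ} {l n : ℤ → Geo}

theorem GStairC_prev (h : Stair g q l n) (k : ℤ) :
    side (l k) (n (k - 1)).src.1 < 0 ∧ 0 < side (l k) (n (k - 1)).tgt.1 := by
  have h1 := h.src' (k - 1)
  have h2 := h.tgt (k - 1)
  rw [sub_add_cancel] at h1 h2
  exact ⟨h1, h2⟩

theorem GStairC_cross (h : Stair g q l n) (k : ℤ) : Cross (l k) (n k) :=
  mul_neg_of_neg_of_pos (h.src k) (h.tgt' k)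

theorem GStairC_cross' (h : Stair g q l n) (k : ℤ) : Cross (l k) (n (k - 1)) :=
  mul_neg_of_neg_of_pos (h.GStairC_prev k).1 (h.GStairC_prev k).2

theorem GStairC_strips (h : Stair g q l n) {k : ℤ} {p : Pt} (hp : side (l k) p.1 = 0) :
    p ∈ strip l k ∧ p ∈ strip l (k - 1) := by
  refine ⟨⟨hp.ge, GStairC_nonpos (h.nest k) hp.le⟩,
    (h.nest_of_le (by omega : k - 1 ≤ k)).nonneg p.fut hp.ge, ?_⟩
  rw [sub_add_cancel]
  exact hp.le

/-- Chirality as a sign. -/
theorem GStairC_chir (h : Stair g q l n) (hc : Chir l n) : ∃ e : ℝ, (e = 1 ∨ e = -1) ∧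
    ∀ (k : ℤ) (p : Pt), side (l k) p.1 = 0 →
      (0 < e * side (n (k - 1)) p.1 → 0 < e * side (n k) p.1) ∧
        (e * side (n k) p.1 < 0 → e * side (n (k - 1)) p.1 < 0) := by
  have key : ∀ (k : ℤ) (p : Pt), side (l k) p.1 = 0 → ∃ t,
      ((0 < side (n (k - 1)) p.1 ↔ t < xp (l k) (n (k - 1))) ∧
        (side (n (k - 1)) p.1 < 0 ↔ xp (l k) (n (k - 1)) < t)) ∧
      ((0 < side (n k) p.1 ↔ t < xp (l k) (n k)) ∧ (side (n k) p.1 < 0 ↔ xp (l k) (n k) < t)) := by
    intro k p hp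
    refine ⟨fer (l k) p.1, ?_⟩
    have h1 := GStairC_pos_iff (h.GStairC_prev k).1 (h.GStairC_prev k).2 (fer (l k) p.1)
    have h2 := GStairC_pos_iff (h.src k) (h.tgt' k) (fer (l k) p.1)
    rw [eq_pt_of_side hp] at h1 h2
    exact ⟨h1, h2⟩
  rcases hc with hc | hc
  · refine ⟨1, Or.inl rfl, fun k p hp => ?_⟩
    obtain ⟨t, ⟨h1, h2⟩, h3, h4⟩ := key k p hp
    simp only [one_mul]
    exact ⟨fun h => h3.2 ((h1.1 h).trans_le (hc k)), fun h => h2.2 ((hc k).trans_lt (h4.1 h))⟩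
  · refine ⟨-1, Or.inr rfl, fun k p hp => ?_⟩
    obtain ⟨t, ⟨h1, h2⟩, h3, h4⟩ := key k p hp
    simp only [neg_mul, one_mul, neg_pos, neg_lt_zero]
    exact ⟨fun h => h4.2 ((hc k).trans_lt (h2.1 h)), fun h => h1.2 ((h3.1 h).trans_le (hc k))⟩

theorem GStairC_inner_mul (h : Stair g q l n) {W : Set Geo} {m : Geo} {k : ℤ}
    (hk : m ∈ inner W l n k) :
    side (n (k - 1)) (pt (l k) (xp (l k) m)).1 * side (n k) (pt (l k) (xp (l k) m)).1 < 0 := by
  have h1 := GStairC_pos_iff (h.GStairC_prev k).1 (h.GStairC_prev k).2 (xp (l k) m)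
  have h2 := GStairC_pos_iff (h.src k) (h.tgt' k) (xp (l k) m)
  have h3 := hk.2.2
  rw [uIoo_eq_union] at h3
  rcases h3 with h3 | h3
  · exact mul_neg_of_neg_of_pos (h1.2.2 h3.1) (h2.1.2 h3.2)
  · exact mul_neg_of_pos_of_neg (h1.1.2 h3.2) (h2.2.2 h3.1)

/-- The sign of `side (n k)` is constant on a clean line inside the strip `k`. -/
theorem GStairC_const (h : Stair g q l n) {m : Geo} (hm : Clean l n m) {k : ℤ} {e s t : ℝ}
    (hs : pt m s ∈ strip l k) (ht : pt m t ∈ strip l k) (h0 : 0 < e * side (n k) (pt m s).1) :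
    0 < e * side (n k) (pt m t).1 := by
  by_contra hc
  have he : e ≠ 0 := fun h1 => by simp [h1] at h0
  obtain ⟨u, hu, h1⟩ := GStairC_ivt he h0.le (not_lt.1 hc)
  have h2 := hm k _ ((h.mem_jump_iff k _).2 ⟨GStairC_strip_conv hu hs ht, h1⟩) (side_pt m u)
  rw [(GStairC_same h2).1 (side_pt m s), mul_zero] at h0
  exact h0.false

/-- The signs along a clean line through the inside of a piece. -/
theorem GStairC_signs (h : Stair g q l n) {e : ℝ} (he : e = 1 ∨ e = -1)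
    (hc : ∀ (k : ℤ) (p : Pt), side (l k) p.1 = 0 →
      (0 < e * side (n (k - 1)) p.1 → 0 < e * side (n k) p.1) ∧
        (e * side (n k) p.1 < 0 → e * side (n (k - 1)) p.1 < 0))
    {m : Geo} (hm : Clean l n m) {k : ℤ} (hk : m ∈ inner univ l n k) :
    (∀ j, k ≤ j → ∀ t, pt m t ∈ strip l j → 0 < e * side (n j) (pt m t).1) ∧
      ∀ j, j ≤ k - 1 → ∀ t, pt m t ∈ strip l j → e * side (n j) (pt m t).1 < 0 := by
  have h1 := h.GStairC_inner_mul hk
  rw [pt_xp hk.2.1] at h1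
  have h0 : side (l k) (pt m (xp m (l k))).1 = 0 := (side_pt_eq_zero_iff hk.2.1.symm _).2 rfl
  generalize xp m (l k) = s at h1 h0
  have h2 : e * side (n (k - 1)) (pt m s).1 * (e * side (n k) (pt m s).1) < 0 := by
    rcases he with rfl | rfl <;> linarith
  have h3 : e * side (n (k - 1)) (pt m s).1 < 0 ∧ 0 < e * side (n k) (pt m s).1 := by
    rcases mul_neg_iff.1 h2 with h4 | h4
    · exact absurd ((hc k _ h0).1 h4.1) h4.2.not_gt
    · exact h4
  constructor
  · intro j hj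
    induction j, hj using Int.leInduction with
    | base => exact fun t ht => h.GStairC_const hm (h.GStairC_strips h0).1 ht h3.2
    | succ j hj ih =>
      intro t ht
      obtain ⟨u, -, hu⟩ := GStairC_ivt (L := l (j + 1)) (m := m) (s := t) (t := s) one_ne_zero
        (by rw [one_mul]; exact ht.1)
        (by rw [one_mul]; exact GStairC_nonpos (h.nest_of_le (by omega)) h0.le)
      have h4 := h.GStairC_strips hu
      have h5 := (hc _ _ hu).1
      rw [add_sub_cancel_right] at h4 h5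
      exact h.GStairC_const hm h4.1 ht (h5 (ih u h4.2))
  · have key : ∀ {j : ℤ} {s t : ℝ}, pt m s ∈ strip l j → pt m t ∈ strip l j →
        e * side (n j) (pt m s).1 < 0 → e * side (n j) (pt m t).1 < 0 := by
      intro j s t hs ht h4
      have h5 := h.GStairC_const hm (e := -e) hs ht (by linarith)
      linarith
    intro j hj
    induction j, hj using Int.leInductionDown with
    | base => exact fun t ht => key (h.GStairC_strips h0).2 ht h3.1
    | pred j hj ih =>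
      intro t ht
      have ht' := ht.2
      rw [sub_add_cancel] at ht'
      obtain ⟨u, -, hu⟩ := GStairC_ivt (L := l j) (m := m) (s := s) (t := t) one_ne_zero
        (by rw [one_mul]; exact (h.nest_of_le (by omega)).nonneg (Pt.fut _) h0.ge)
        (by rw [one_mul]; exact ht')
      have h4 := h.GStairC_strips hu
      exact key h4.2 ht ((hc _ _ hu).2 (ih u h4.1))

theorem GStairC_of_path (h : Stair g q l n) {m : Geo} (hm : Clean l n m) {t : ℝ}
    (ht : pt m t ∈ path l n) : ∃ k, m ∈ inner univ l n k ∨ m = n k ∨ m = (n k).rev := by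
  obtain ⟨k, hk | hk⟩ := mem_iUnion.1 ht
  · have j1 : pt (l k) (xp (l k) (n k)) ∈ jump l n k :=
      (h.mem_jump_iff k _).2 ⟨(h.GStairC_strips (side_pt _ _)).1,
        (side_pt_eq_zero_iff (h.GStairC_cross k) _).2 rfl⟩
    have j2 : pt (l k) (xp (l k) (n (k - 1))) ∈ jump l n (k - 1) :=
      (h.mem_jump_iff (k - 1) _).2 ⟨(h.GStairC_strips (side_pt _ _)).2,
        (side_pt_eq_zero_iff (h.GStairC_cross' k) _).2 rfl⟩
    by_cases h1 : m = l k ∨ m = (l k).rev
    · exact ⟨k, Or.inr (hm k _ j1 ((GStairC_same h1).2 (side_pt _ _)))⟩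
    obtain ⟨s, hs, h2⟩ := hk
    have h3 : side m (pt (l k) s).1 = 0 := by rw [h2, side_pt]
    have h4 : Cross (l k) m :=
      cross_of_common (side_pt _ s) h3 (not_or.1 h1).1 (not_or.1 h1).2
    have h5 := (side_pt_eq_zero_iff h4 s).1 h3
    by_cases h6 : s = xp (l k) (n k)
    · exact ⟨k, Or.inr (hm k _ j1 (h6 ▸ h3))⟩
    by_cases h7 : s = xp (l k) (n (k - 1))
    · exact ⟨k - 1, Or.inr (hm _ _ j2 (h7 ▸ h3))⟩
    refine ⟨k, Or.inl ⟨mem_univ _, h4, ?_⟩⟩
    rw [← h5]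
    rcases mem_uIcc.1 hs with h8 | h8
    · exact mem_uIoo_of_lt (lt_of_le_of_ne h8.1 (Ne.symm h7)) (lt_of_le_of_ne h8.2 h6)
    · exact mem_uIoo_of_gt (lt_of_le_of_ne h8.1 (Ne.symm h6)) (lt_of_le_of_ne h8.2 h7)
  · exact ⟨k, Or.inr (hm k _ hk (side_pt m t))⟩

theorem GStairC_inner_smul (h : Stair g q l n) {W : Set Geo}
    (hW : ∀ (j : ℤ), ∀ m ∈ W, g ^ j • m ∈ W) {m : Geo} {k : ℤ} (hk : m ∈ inner W l n k) (j : ℤ) :
    g ^ j • m ∈ inner W l n (k + j * q) := by
  have h1 := GStairC_cross_smul (g ^ j) hk.2.1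
  have h2 := xp_smul (g ^ j) hk.2.1
  have h3 := xp_smul (g ^ j) (h.GStairC_cross k)
  have h4 := xp_smul (g ^ j) (h.GStairC_cross' k)
  rw [h.zpow_l] at h1 h2 h3 h4
  rw [h.zpow_n] at h3 h4
  refine ⟨hW j m hk.1, h1, ?_⟩
  rw [show k + j * q - 1 = k - 1 + j * q by ring, h2, h3, h4]
  have h5 := hk.2.2
  rw [uIoo_eq_union] at h5
  rcases h5 with h5 | h5
  · exact mem_uIoo_of_lt (by linarith [h5.1]) (by linarith [h5.2])
  · exact mem_uIoo_of_gt (by linarith [h5.1]) (by linarith [h5.2])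

theorem cross_of_inner (h : Stair g q l n) (hc : Chir l n) {m : Geo} (hm : Clean l n m) {k : ℤ}
    (hk : m ∈ inner univ l n k) (h1 : side (ax g) m.src.1 ≠ 0) (h2 : side (ax g) m.tgt.1 ≠ 0) :
    Cross (ax g) m := by
  obtain ⟨e, he, hc⟩ := h.GStairC_chir hc
  obtain ⟨up, down⟩ := h.GStairC_signs he hc hm hk
  have key : ∀ {F : Filter ℝ} [F.NeBot] {ξ : Circ}, ToB F (fun t => pt m t) ξ →
      (0 < side (l k) ξ.1 → 0 ≤ e * side (ax g) ξ.1) ∧
        (side (l k) ξ.1 < 0 → e * side (ax g) ξ.1 ≤ 0) := by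
    intro F _ ξ hξ
    constructor
    · intro h0
      have h3 : ∀ᶠ t in F, ∀ j, pt m t ∈ strip l j → 0 < e * side (n j) (pt m t).1 := by
        filter_upwards [hξ.eventually_pos h0] with t ht j hj
        refine up j (not_lt.1 fun h4 => ?_) t hj
        exact hj.2.not_gt (h.nest_of_le (by omega : j + 1 ≤ k) _ ht)
      rcases he with rfl | rfl
      · simp only [one_mul] at h3 ⊢
        exact h.side_nonneg_of_above hξ h3
      · simp only [neg_mul, one_mul, neg_pos, neg_nonneg] at h3 ⊢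
        exact h.side_nonpos_of_below hξ h3
    · intro h0
      have h3 : ∀ᶠ t in F, ∀ j, pt m t ∈ strip l j → e * side (n j) (pt m t).1 < 0 := by
        have h5 : 0 < side (l k).rev ξ.1 := by rw [side_rev]; linarith
        filter_upwards [hξ.eventually_pos h5] with t ht j hj
        refine down j (not_lt.1 fun h4 => ?_) t hj
        have h6 := (h.nest_of_le (by omega : k ≤ j)).nonneg (Pt.fut _) hj.1
        have h7 : 0 < side (l k).rev (pt m t).1 := ht
        rw [side_rev] at h7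
        linarith
      rcases he with rfl | rfl
      · simp only [one_mul] at h3 ⊢
        exact h.side_nonpos_of_below hξ h3
      · simp only [neg_mul, one_mul, neg_lt_zero, neg_nonpos] at h3 ⊢
        exact h.side_nonneg_of_above hξ h3
  have t1 := toB_fermi_atTop m 0
  have t2 := toB_fermi_atBot m 0
  simp only [fermi_zero] at t1 t2
  have h3 : e * side (ax g) m.src.1 * (e * side (ax g) m.tgt.1) ≤ 0 := by
    rcases mul_neg_iff.1 hk.2.1 with h4 | h4
    · exact mul_nonpos_of_nonneg_of_nonpos ((key t2).1 h4.1) ((key t1).2 h4.2)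
    · exact mul_nonpos_of_nonpos_of_nonneg ((key t2).2 h4.1) ((key t1).1 h4.2)
  refine lt_of_le_of_ne ?_ (mul_ne_zero h1 h2)
  rcases he with rfl | rfl <;> linarith

theorem inner_unique (h : Stair g q l n) (hc : Chir l n) {m : Geo} (hm : Clean l n m) {j k : ℤ}
    (hj : m ∈ inner univ l n j) (hk : m ∈ inner univ l n k) : j = k := by
  wlog hjk : j < k generalizing j k
  · rcases (not_lt.1 hjk).eq_or_lt with h1 | h1
    · exact h1.symm
    · exact (this hk hj h1).symm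
  obtain ⟨e, he, hc⟩ := h.GStairC_chir hc
  have h0 : side (l k) (pt m (xp m (l k))).1 = 0 := (side_pt_eq_zero_iff hk.2.1.symm _).2 rfl
  have h1 := (h.GStairC_strips h0).2
  exact absurd ((h.GStairC_signs he hc hm hj).1 _ (by omega) _ h1)
    ((h.GStairC_signs he hc hm hk).2 _ le_rfl _ h1).not_gt

theorem card_le (h : Stair g q l n) {W : Set Geo} (hW : ∀ (j : ℤ), ∀ m ∈ W, g ^ j • m ∈ W)
    (hc : ∀ m ∈ W, Clean l n m) (hf : ∀ k, (inner W l n k).Finite) :
    {m ∈ W | Cross (ax g) m ∧ xp (ax g) m ∈ Ico 0 (tl g)}.ncard ≤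
      ∑ k ∈ Finset.range q, (inner W l n k).ncard + 2 * q := by
  have hq : (0 : ℤ) < q := Int.natCast_pos.2 h.q_pos
  have key : ∀ m ∈ {m ∈ W | Cross (ax g) m ∧ xp (ax g) m ∈ Ico 0 (tl g)}, ∃ j : ℤ,
      g ^ j • m ∈ ⋃ k ∈ Finset.range q, inner W l n k ∪ {n k, (n k).rev} := by
    rintro m ⟨hm, h1, -⟩
    obtain ⟨t, ht⟩ := h.exists_mem_path h1
    obtain ⟨k, hk⟩ := h.GStairC_of_path (hc m hm) ht
    have h2 : (((k % q).toNat : ℕ) : ℤ) = k + -(k / q) * q := by
      rw [Int.toNat_of_nonneg (Int.emod_nonneg _ hq.ne'), Int.emod_def]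
      ring
    refine ⟨-(k / q), mem_biUnion (x := (k % q).toNat) (Finset.mem_range.2 ?_) ?_⟩
    · have := Int.emod_lt_of_pos k hq
      have := Int.emod_nonneg k hq.ne'
      omega
    rw [h2]
    rcases hk with hk | rfl | rfl
    · exact Or.inl (h.GStairC_inner_smul hW ⟨hm, hk.2⟩ _)
    · exact Or.inr (Or.inl (h.zpow_n _ _))
    · exact Or.inr (Or.inr (by rw [Geo.smul_rev, h.zpow_n]; rfl))
  choose! j hj using key
  have h0 : 0 < tl g := h.hyp
  refine (ncard_le_ncard_of_injOn (fun m => g ^ j m • m) hj (fun m hm m' hm' e => ?_)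
    ((Finset.range q).finite_toSet.biUnion fun k _ => (hf k).union (toFinite _))).trans ?_
  · have h1 := (GStairC_shift h.hyp (j m) hm.2.1).2
    have h2 := (GStairC_shift h.hyp (j m') hm'.2.1).2
    have e' : g ^ j m • m = g ^ j m' • m' := e
    rw [e', h2] at h1
    have h3 : ((j m - j m' : ℤ) : ℝ) < (1 : ℤ) := by
      push_cast
      (refine lt_of_not_ge fun h_nl => ?_; linarith only [h_nl, h1, hm, hm', h0, hm.2.2.1, hm'.2.2.2, mul_nonneg_of_nonpos_of_nonpos (le_of_lt (Mathlib.Tactic.Linarith.sub_neg_of_lt h0)) (Mathlib.Tactic.Linarith.sub_nonpos_of_le h_nl)])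
    have h4 : ((j m' - j m : ℤ) : ℝ) < (1 : ℤ) := by
      push_cast
      (refine lt_of_not_ge fun h_nl => ?_; linarith only [h_nl, h1, hm', hm, h0, hm'.2.2.1, hm.2.2.2, mul_nonneg_of_nonpos_of_nonpos (le_of_lt (Mathlib.Tactic.Linarith.sub_neg_of_lt h0)) (Mathlib.Tactic.Linarith.sub_nonpos_of_le h_nl)])
    have h5 : j m = j m' := by
      have := Int.cast_lt.1 h3
      have := Int.cast_lt.1 h4
      omega
    rw [h5] at e'
    exact smul_left_cancel _ e'
  · refine (Finset.set_ncard_biUnion_le _ _).trans ?_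
    rw [mul_comm, ← smul_eq_mul, ← Finset.card_range q, ← Finset.sum_const, Finset.card_range,
      ← Finset.sum_add_distrib]
    refine Finset.sum_le_sum fun k _ => (ncard_union_le _ _).trans (Nat.add_le_add_left ?_ _)
    exact (ncard_insert_le _ _).trans (by rw [ncard_singleton])

theorem le_card (h : Stair g q l n) (hc : Chir l n) {W : Set Geo}
    (hW : ∀ (j : ℤ), ∀ m ∈ W, g ^ j • m ∈ W) (hc' : ∀ m ∈ W, Clean l n m)
    (ha : ∀ m ∈ W, side (ax g) m.src.1 = 0 ∨ side (ax g) m.tgt.1 = 0 → m = ax g ∨ m = (ax g).rev)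
    (hf : {m ∈ W | Cross (ax g) m ∧ xp (ax g) m ∈ Ico 0 (tl g)}.Finite) :
    ∑ k ∈ Finset.range q, (inner W l n k).ncard ≤
      {m ∈ W | Cross (ax g) m ∧ xp (ax g) m ∈ Ico 0 (tl g)}.ncard + 2 * q := by
  have h0 : 0 < tl g := h.hyp
  set I : ℕ → Set Geo := fun k => inner W l n k \ {ax g, (ax g).rev} with hI
  have hcr : ∀ k, ∀ m ∈ I k, Cross (ax g) m := fun k m hm =>
    h.cross_of_inner hc (hc' m hm.1.1) ⟨mem_univ _, hm.1.2⟩
      (fun e => hm.2 (ha m hm.1.1 (Or.inl e))) fun e => hm.2 (ha m hm.1.1 (Or.inr e))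
  have huniq : ∀ j k : ℕ, j < q → k < q → ∀ m ∈ I j, ∀ i : ℤ, g ^ i • m ∈ I k → i = 0 ∧ j = k := by
    intro j k hj hk m hm i hi
    have h1 := h.inner_unique hc (hc' _ hi.1.1)
      ⟨mem_univ _, (h.GStairC_inner_smul hW hm.1 i).2⟩ ⟨mem_univ _, hi.1.2⟩
    have h2 : i = 0 := by
      rcases lt_trichotomy i 0 with h3 | h3 | h3
      · nlinarith [Int.natCast_nonneg k, Int.ofNat_lt.2 hj]
      · exact h3
      · nlinarith [Int.natCast_nonneg j, Int.ofNat_lt.2 hk]
    subst h2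
    exact ⟨rfl, by omega⟩
  set φ : Geo → Geo := fun m => g ^ (-⌊xp (ax g) m / tl g⌋) • m with hφ
  have hmap : ∀ m ∈ ⋃ k ∈ Finset.range q, I k,
      φ m ∈ {m ∈ W | Cross (ax g) m ∧ xp (ax g) m ∈ Ico 0 (tl g)} := by
    intro m hm
    obtain ⟨k, -, hk⟩ := mem_iUnion₂.1 hm
    obtain ⟨h1, h2⟩ := GStairC_shift h.hyp (-⌊xp (ax g) m / tl g⌋) (hcr k m hk)
    refine ⟨hW _ m hk.1.1, h1, ?_⟩
    have h3 := (le_div_iff₀ h0).1 (Int.floor_le (xp (ax g) m / tl g))
    have h4 := (div_lt_iff₀ h0).1 (Int.lt_floor_add_one (xp (ax g) m / tl g))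
    rw [h2]
    push_cast
    constructor <;> linarith only [h3, h4]
  have hinj : InjOn φ (⋃ k ∈ Finset.range q, I k) := by
    intro m hm m' hm' e
    obtain ⟨j, hj, hj'⟩ := mem_iUnion₂.1 hm
    obtain ⟨k, hk, hk'⟩ := mem_iUnion₂.1 hm'
    have e1 : g ^ (⌊xp (ax g) m' / tl g⌋ + -⌊xp (ax g) m / tl g⌋) • m = m' := by
      rw [zpow_add, mul_smul]
      refine (congrArg (fun x => g ^ ⌊xp (ax g) m' / tl g⌋ • x) e).trans ?_
      simp only [hφ, zpow_neg, smul_inv_smul]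
    have h1 := (huniq j k (Finset.mem_range.1 hj) (Finset.mem_range.1 hk) m hj' _ (e1 ▸ hk')).1
    rwa [h1, zpow_zero, one_smul] at e1
  have hfin : (⋃ k ∈ Finset.range q, I k).Finite := Finite.of_injOn hmap hinj hf
  have hfin' : ∀ k ∈ (Finset.range q : Set ℕ), (I k).Finite := fun k hk =>
    hfin.subset (subset_biUnion_of_mem (u := I) hk)
  have hsum : (⋃ k ∈ Finset.range q, I k).ncard = ∑ k ∈ Finset.range q, (I k).ncard := by
    rw [← finsum_mem_coe_finset]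
    refine (Finset.range q).finite_toSet.ncard_biUnion hfin' fun j hj k hk hjk => ?_
    exact disjoint_left.2 fun m h1 h2 => hjk (huniq j k (Finset.mem_range.1 hj)
      (Finset.mem_range.1 hk) m h1 0 (by rwa [zpow_zero, one_smul])).2
  refine le_trans ?_ (Nat.add_le_add_right (ncard_le_ncard_of_injOn φ hmap hinj hf) _)
  rw [hsum, mul_comm, ← smul_eq_mul, ← Finset.card_range q, ← Finset.sum_const, Finset.card_range,
    ← Finset.sum_add_distrib]
  refine Finset.sum_le_sum fun k hk => ?_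
  refine (ncard_le_ncard (subset_sdiff_union (inner W l n k) {ax g, (ax g).rev})
    ((hfin' k hk).union (toFinite _))).trans ((ncard_union_le _ _).trans (Nat.add_le_add_left ?_ _))
  exact (ncard_insert_le _ _).trans (by rw [ncard_singleton])

variable {Γ : Type*} [Group Γ] {ρ : Γ →* Isom} {μ : Measure Geo} {Λ : Set Geo}

theorem ic_eq {γ : Γ} (h : Stair (ρ γ) q l n) (hμ : Cur ρ μ) [NullSingletonClass μ]
    (hΛ : Lam ρ Λ) (h0 : μ Λᶜ = 0) (hl : ∀ k, l k ∈ Λ) :
    ic μ (ρ γ) = ∑ k ∈ Finset.range q,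
      μ.real (xs (n k) (Ioo (xp (n k) (l k)) (xp (n k) (l (k + 1))))) := by
  have hA : ∀ k, (l k).rev ∈ xs (ax (ρ γ)) univ := fun k =>
    GStairC_rev_mem (h.side_ax k).1 (h.side_ax k).2
  have hmono : ∀ j k, j ≤ k → xp (ax (ρ γ)) (l j) ≤ xp (ax (ρ γ)) (l k) := fun j k hjk =>
    by simpa only [xp_rev_right] using (nest_iff_xp_le (hA j) (hA k)
      (h.nest_of_le hjk).rev.not_cross).1 (h.nest_of_le hjk).rev
  have hae : ∀ᵐ m ∂μ, m ∈ Λ ∧ ∀ k, m ≠ (l k).rev := by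
    refine Filter.Eventually.and h0 (ae_all_iff.2 fun k => ?_)
    simpa only [ae_iff, not_not, ofPred_eq_eq_singleton] using measure_singleton (μ := μ) (l k).rev
  have h1 : ∀ k, μ.real (xs (n k) (Ioo (xp (n k) (l k)) (xp (n k) (l (k + 1))))) =
      μ.real (xs (ax (ρ γ)) (Ico (xp (ax (ρ γ)) (l k)) (xp (ax (ρ γ)) (l (k + 1))))) := by
    intro k
    refine measureReal_congr ?_
    filter_upwards [hae] with m hm
    have c1 := hΛ.nc _ (hΛ.rev _ (hl k)) m hm.1
    have c2 := hΛ.nc m hm.1 _ (hΛ.rev _ (hl (k + 1)))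
    have e1 := GStairC_btw (GStairC_rev_mem (h.src k) (h.tgt' k))
      (GStairC_rev_mem (h.src' k) (h.tgt k)) c1 c2 (hm.2 _) (hm.2 _) Subset.rfl Ioo_subset_Icc_self
    have e2 := GStairC_btw (hA k) (hA (k + 1)) c1 c2 (hm.2 _) (hm.2 _) Ioo_subset_Ico_self
      Ico_subset_Icc_self
    simp only [xp_rev_right] at e1 e2
    exact propext (e1.trans e2.symm)
  have h2 : ∀ r : ℕ, ∑ k ∈ Finset.range r,
      μ.real (xs (n k) (Ioo (xp (n k) (l k)) (xp (n k) (l (k + 1))))) =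
        μ.real (xs (ax (ρ γ)) (Ico (xp (ax (ρ γ)) (l 0)) (xp (ax (ρ γ)) (l r)))) := by
    intro r
    induction r with
    | zero => simp [xs]
    | succ r ih =>
      rw [Finset.sum_range_succ, ih, h1, Nat.cast_succ,
        GStairC_xs_add hμ _ (hmono 0 r (by omega)) (hmono r (r + 1) (by omega))]
  have h3 := (GStairC_shift h.hyp 1 (cross_comm.1 (mul_neg_of_neg_of_pos (h.side_ax 0).1
    (h.side_ax 0).2))).2
  rw [h.zpow_l, zero_add, one_mul, Int.cast_one, one_mul] at h3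
  rw [h2, h3, hμ.ic_eq h.hyp]

end Stair

end HRT
end
end
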