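import Mathlib
import Pool.Agent.Work.MP_35beee_gt.GMarked

-- merged part: Pool.Agent.Work.MP_35beee_gt.GErg
section
/-!
Abstract ergodic lemmas.

Plan. `measurePreserving_piece`: cut the section into the countably many pieces on which the
target sheet and the transformation are constant; the images of the pieces form a partition.
`tendsto_avg_of_flip`: `T` is invertible with inverse `J ∘ T ∘ J`. By von Neumann
(`ContinuousLinearMap.tendsto_birkhoffAverage_orthogonalProjection` for the composition operator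
on `Lp ℝ 2 m`) the averages converge in `L²` to the projection `P f` on the invariant functions.
Composition with `J` is a unitary involution that preserves the invariant functions and fixes `f`,
so it fixes `P f`. A function that is almost everywhere invariant under `T` and `J` is almost
everywhere constant: saturate `{x | c < P f x}` under the countable group generated by `T` and `J`.
The constant is the mean (the averages have the same integral as `f`).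
`card_sun_le`: greedy choice of disjoint intervals from the left (induction on the left end).
-/

namespace HRT

open Set Filter Topology MeasureTheory

/-- The measure on a finite union of sheets. -/
noncomputable def secM {Y ι : Type*} [MeasurableSpace Y] [Fintype ι] [MeasurableSpace ι]
    (μ : Measure Y) (S : ι → Set Y) : Measure (ι × Y) :=
  ∑ r, (μ.restrict (S r)).map (Prod.mk r)

section
variable {Y ι : Type*} [MeasurableSpace Y] [Fintype ι] [MeasurableSpace ι]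
  [DiscreteMeasurableSpace ι]

theorem GErg_meas {E : Set (ι × Y)} (h : ∀ r, MeasurableSet (Prod.mk r ⁻¹' E)) :
    MeasurableSet E := by
  have e : E = ⋃ r, {r} ×ˢ (Prod.mk r ⁻¹' E) := by
    ext ⟨r, y⟩
    simp
  rw [e]
  exact MeasurableSet.iUnion fun r => (MeasurableSet.singleton r).prod (h r)

theorem secM_apply (μ : Measure Y) (S : ι → Set Y) {E : Set (ι × Y)} (hE : MeasurableSet E) :
    secM μ S E = ∑ r, μ (Prod.mk r ⁻¹' E ∩ S r) := by
  unfold secM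
  rw [Measure.finsetSum_apply]
  refine Finset.sum_congr rfl fun r _ => ?_
  rw [Measure.map_apply measurable_prodMk_left hE, Measure.restrict_apply (measurable_prodMk_left hE)]

theorem secM_compl (μ : Measure Y) {S : ι → Set Y} (hS : ∀ r, MeasurableSet (S r)) :
    secM μ S {x | x.2 ∈ S x.1}ᶜ = 0 := by
  rw [secM_apply μ S (GErg_meas (E := {x | x.2 ∈ S x.1}) fun r => hS r).compl]
  refine Finset.sum_eq_zero fun r _ => ?_
  exact measure_mono_null (t := ∅) (fun y hy => hy.1 hy.2) measure_empty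

theorem secM_null (μ : Measure Y) (S : ι → Set Y) {Z : Set Y} (hZ : μ Z = 0) :
    secM μ S {x | x.2 ∈ Z} = 0 := by
  obtain ⟨Z', h1, h2, h3⟩ := exists_measurable_superset_of_null hZ
  refine measure_mono_null (t := {x | x.2 ∈ Z'}) (fun x hx => h1 hx) ?_
  rw [secM_apply μ S (E := {x | x.2 ∈ Z'}) (measurable_snd h2)]
  exact Finset.sum_eq_zero fun r _ => measure_mono_null inter_subset_left h3

open Classical in
theorem measurePreserving_piece {G : Type*} [Countable G] {μ : Measure Y} (a : G → Y ≃ᵐ Y)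
    (ha : ∀ g, MeasurePreserving (a g) μ μ) {S : ι → Set Y} (hS : ∀ r, MeasurableSet (S r))
    (k : ι × Y → ι) (c : ι × Y → G)
    (hk : ∀ r r' g, MeasurableSet {y | y ∈ S r ∧ k (r, y) = r' ∧ c (r, y) = g})
    (hb : BijOn (fun x => (k x, a (c x) x.2)) {x | x.2 ∈ S x.1} {x | x.2 ∈ S x.1}) :
    MeasurePreserving (fun x : ι × Y => if x.2 ∈ S x.1 then (k x, a (c x) x.2) else x)
      (secM μ S) (secM μ S) := by
  obtain ⟨P, hP⟩ : ∃ P : ι → ι → G → Set Y,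
      ∀ r r' g y, y ∈ P r r' g ↔ y ∈ S r ∧ k (r, y) = r' ∧ c (r, y) = g := ⟨_, fun _ _ _ _ => Iff.rfl⟩
  have mP : ∀ r r' g, MeasurableSet (P r r' g) := fun r r' g => by
    rw [show P r r' g = _ from Set.ext (hP r r' g)]
    exact hk r r' g
  obtain ⟨Φ, hΦ⟩ : ∃ Φ : ι × Y → ι × Y,
      Φ = fun x => if x.2 ∈ S x.1 then (k x, a (c x) x.2) else x := ⟨_, rfl⟩
  rw [← hΦ]
  have e1 : ∀ (E : Set (ι × Y)) r, Prod.mk r ⁻¹' (Φ ⁻¹' E) ∩ S r =
      ⋃ q : ι × G, P r q.1 q.2 ∩ a q.2 ⁻¹' (Prod.mk q.1 ⁻¹' E) := fun E r => by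
    ext y
    simp only [mem_inter_iff, mem_preimage, mem_iUnion, hP, hΦ]
    constructor
    · rintro ⟨h1, h2⟩
      rw [if_pos h2] at h1
      exact ⟨(_, _), ⟨h2, rfl, rfl⟩, h1⟩
    · rintro ⟨⟨r', g⟩, ⟨h2, rfl, rfl⟩, h1⟩
      rw [if_pos h2]
      exact ⟨h1, h2⟩
  have m1 : ∀ {E : Set (ι × Y)}, MeasurableSet E → ∀ r (q : ι × G),
      MeasurableSet (P r q.1 q.2 ∩ a q.2 ⁻¹' (Prod.mk q.1 ⁻¹' E)) := fun hE r q =>
    (mP _ _ _).inter ((a q.2).measurable (measurable_prodMk_left hE))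
  have mΦ : Measurable Φ := fun E hE => GErg_meas fun r => by
    rw [← inter_union_compl (Prod.mk r ⁻¹' (Φ ⁻¹' E)) (S r), e1]
    refine (MeasurableSet.iUnion (m1 hE r)).union ?_
    have : Prod.mk r ⁻¹' (Φ ⁻¹' E) ∩ (S r)ᶜ = Prod.mk r ⁻¹' E ∩ (S r)ᶜ := by
      ext y
      simp only [mem_inter_iff, mem_preimage, mem_compl_iff, hΦ]
      exact and_congr_left fun h => by rw [if_neg h]
    rw [this]
    exact (measurable_prodMk_left hE).inter (hS r).compl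
  refine ⟨mΦ, Measure.ext fun E hE => ?_⟩
  rw [Measure.map_apply mΦ hE, secM_apply μ S (mΦ hE), secM_apply μ S hE]
  have e2 : ∀ r', Prod.mk r' ⁻¹' E ∩ S r' =
      ⋃ q : ι × G, a q.2 '' P q.1 r' q.2 ∩ Prod.mk r' ⁻¹' E := fun r' => by
    ext y'
    simp only [mem_inter_iff, mem_iUnion, mem_image, hP, Prod.exists]
    constructor
    · rintro ⟨h1, h2⟩
      obtain ⟨⟨r, y⟩, h3, h4⟩ := hb.surjOn (show (r', y') ∈ {x : ι × Y | x.2 ∈ S x.1} from h2)
      exact ⟨r, c (r, y), ⟨y, ⟨h3, congrArg Prod.fst h4, rfl⟩, congrArg Prod.snd h4⟩, h1⟩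
    · rintro ⟨r, g, ⟨y, ⟨h2, rfl, rfl⟩, rfl⟩, h1⟩
      exact ⟨h1, hb.mapsTo (show (r, y) ∈ {x : ι × Y | x.2 ∈ S x.1} from h2)⟩
  have s1 : ∀ r, μ (Prod.mk r ⁻¹' (Φ ⁻¹' E) ∩ S r) =
      ∑ r', ∑' g, μ (a g '' P r r' g ∩ Prod.mk r' ⁻¹' E) := fun r => by
    rw [e1, measure_iUnion _ (m1 hE r), ENNReal.tsum_prod', tsum_fintype]
    · refine Finset.sum_congr rfl fun r' _ => tsum_congr fun g => ?_
      rw [← (ha g).measure_preimage_equiv (a g '' P r r' g ∩ _), preimage_inter,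
        preimage_image_eq _ (a g).injective]
    · intro q q' hq
      refine disjoint_left.2 fun y h1 h2 => hq ?_
      obtain ⟨-, h3, h4⟩ := (hP _ _ _ _).1 h1.1
      obtain ⟨-, h5, h6⟩ := (hP _ _ _ _).1 h2.1
      exact Prod.ext (h3.symm.trans h5) (h4.symm.trans h6)
  have s2 : ∀ r', μ (Prod.mk r' ⁻¹' E ∩ S r') =
      ∑ r, ∑' g, μ (a g '' P r r' g ∩ Prod.mk r' ⁻¹' E) := fun r' => by
    rw [e2, measure_iUnion _ fun q : ι × G =>
      ((a q.2).measurableSet_image.2 (mP q.1 r' q.2)).inter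
        (measurable_prodMk_left (x := r') hE), ENNReal.tsum_prod', tsum_fintype]
    rintro ⟨r, g⟩ ⟨r2, g2⟩ hq
    refine disjoint_left.2 ?_
    rintro _ ⟨⟨y, h1, rfl⟩, -⟩ ⟨⟨y2, h2, h⟩, -⟩
    obtain ⟨h3, h4, rfl⟩ := (hP r r' g y).1 h1
    obtain ⟨h5, h6, rfl⟩ := (hP r2 r' g2 y2).1 h2
    have h7 : (r, y) = (r2, y2) := hb.injOn (show (r, y) ∈ {x : ι × Y | x.2 ∈ S x.1} from h3)
      (show (r2, y2) ∈ {x : ι × Y | x.2 ∈ S x.1} from h5) (Prod.ext (h4.trans h6.symm) h.symm)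
    exact hq (Prod.ext (Prod.ext_iff.1 h7).1 (congrArg c h7))
  simp only [s1, s2]
  exact Finset.sum_comm

end

section
variable {X : Type*} [MeasurableSpace X] {m : Measure X} [IsFiniteMeasure m] {T J : X → X}

theorem GErg_hilb {E : Type*} [NormedAddCommGroup E] [InnerProductSpace ℝ E] [CompleteSpace E]
    (U V : E →ₗᵢ[ℝ] E) (hVV : ∀ h, V (V h) = h) (hUV : ∀ h, U (V (U h)) = V h) {F : E}
    (hF : V F = F) : ∃ g, U g = g ∧ V g = g ∧
      Tendsto (fun M : ℕ => (M : ℝ)⁻¹ • ∑ k ∈ Finset.range M, U^[k] F) atTop (𝓝 g) := by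
  have h := U.toContinuousLinearMap.tendsto_birkhoffAverage_orthogonalProjection
    U.norm_toContinuousLinearMap_le F
  have hK : ∀ x, x ∈ U.toContinuousLinearMap.eqLocus (1 : E →L[ℝ] E) ↔ U x = x := fun x => Iff.rfl
  have hV : ∀ x, U x = x → U (V x) = V x := fun x hx => by
    have := hUV x
    rwa [hx] at this
  have h1 : U _ = _ := (hK _).1 (Submodule.starProjection_apply_mem _ F)
  refine ⟨_, h1, (Submodule.eq_starProjection_of_mem_of_inner_eq_zero ((hK _).2 (hV _ h1))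
    fun w hw => ?_).symm, h⟩
  have := Submodule.starProjection_inner_eq_zero F (V w) ((hK _).2 (hV _ ((hK _).1 hw)))
  rwa [← V.inner_map_map, hVV, map_sub, hF] at this

omit [IsFiniteMeasure m] in
theorem GErg_sat (hT : MeasurePreserving T m m) (hJ : MeasurePreserving J m m)
    (hJJ : ∀ x, J (J x) = x) (hTJ : ∀ x, T (J (T x)) = J x) {A : Set X} (hA : MeasurableSet A)
    (h1 : T ⁻¹' A =ᵐ[m] A) (h2 : J ⁻¹' A =ᵐ[m] A) :
    ∃ B, MeasurableSet B ∧ T ⁻¹' B = B ∧ J ⁻¹' B = B ∧ B =ᵐ[m] A := by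
  obtain ⟨w, w0, w1, w2⟩ : ∃ w : List Bool → Set X, w [] = A ∧ (∀ l, w (true :: l) = T ⁻¹' w l) ∧
      ∀ l, w (false :: l) = J ⁻¹' w l :=
    ⟨fun l => l.foldr (fun b s => (bif b then T else J) ⁻¹' s) A, rfl, fun _ => rfl, fun _ => rfl⟩
  have hw : ∀ l, MeasurableSet (w l) ∧ w l =ᵐ[m] A := fun l => by
    induction l with
    | nil => rw [w0]; exact ⟨hA, EventuallyEq.rfl⟩
    | cons b l ih =>
      cases b
      · rw [w2]
        exact ⟨hJ.measurable ih.1, (hJ.quasiMeasurePreserving.preimage_ae_eq ih.2).trans h2⟩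
      · rw [w1]
        exact ⟨hT.measurable ih.1, (hT.quasiMeasurePreserving.preimage_ae_eq ih.2).trans h1⟩
  have a1 : ∀ x ∈ ⋂ l, w l, T x ∈ ⋂ l, w l := fun x hx => mem_iInter.2 fun l => by
    have := mem_iInter.1 hx (true :: l)
    rwa [w1] at this
  have a2 : ∀ x ∈ ⋂ l, w l, J x ∈ ⋂ l, w l := fun x hx => mem_iInter.2 fun l => by
    have := mem_iInter.1 hx (false :: l)
    rwa [w2] at this
  refine ⟨⋂ l, w l, MeasurableSet.iInter fun l => (hw l).1,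
    Subset.antisymm (fun x hx => ?_) a1, Subset.antisymm (fun x hx => ?_) a2, ?_⟩
  · have := a2 _ (a1 _ (a2 _ hx))
    rwa [hTJ, hJJ] at this
  · have := a2 _ hx
    rwa [hJJ] at this
  · have := Filter.EventuallyEq.countable_iInter fun l => (hw l).2
    rwa [iInter_const] at this

theorem GErg_l1 (h : Lp ℝ 2 m) :
    ∫ x, |h x| ∂m ≤ ‖h‖ * ‖(memLp_const (1 : ℝ) : MemLp (fun _ : X => (1 : ℝ)) 2 m).toLp _‖ := by
  rw [← norm_abs_eq_norm h]
  refine le_trans (le_of_eq ?_) (real_inner_le_norm _ _)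
  rw [L2.inner_def]
  refine integral_congr_ae ?_
  filter_upwards [Lp.coeFn_abs h,
    (memLp_const (1 : ℝ) : MemLp (fun _ : X => (1 : ℝ)) 2 m).coeFn_toLp] with x h1 h2
  rw [h1, h2]
  simp

theorem GErg_int (hT : MeasurePreserving T m m) {f : X → ℝ} (hf : Measurable f) {C : ℝ}
    (hb : ∀ x, |f x| ≤ C) (M : ℕ) : Integrable (fun x => ∑ t ∈ Finset.range M, f (T^[t] x)) m ∧
      ∫ x, ∑ t ∈ Finset.range M, f (T^[t] x) ∂m = M * ∫ x, f x ∂m := by
  have h1 : ∀ t, Integrable (fun x => f (T^[t] x)) m := fun t =>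
    Integrable.of_bound (hf.comp (hT.iterate t).measurable).aestronglyMeasurable C
      (Eventually.of_forall fun x => hb _)
  have h2 : ∀ t, ∫ x, f (T^[t] x) ∂m = ∫ x, f x ∂m := fun t => by
    rw [← integral_map (hT.iterate t).measurable.aemeasurable hf.aestronglyMeasurable,
      (hT.iterate t).map_eq]
  refine ⟨integrable_finsetSum _ fun t _ => h1 t, ?_⟩
  rw [integral_finsetSum _ fun t _ => h1 t]
  simp [h2]

theorem GErg_const (hT : MeasurePreserving T m m) (hJ : MeasurePreserving J m m)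
    (hJJ : ∀ x, J (J x) = x) (hTJ : ∀ x, T (J (T x)) = J x)
    (herg : ∀ E, MeasurableSet E → T ⁻¹' E = E → J ⁻¹' E = E → m E = 0 ∨ m Eᶜ = 0)
    {f : X → ℝ} (hf : Measurable f) (hb : ∀ x, |f x| ≤ 1) (hfJ : ∀ x, f (J x) = f x) :
    ∃ c : ℝ, Tendsto (fun M : ℕ => ∫ x, |(∑ t ∈ Finset.range M, f (T^[t] x)) / M - c| ∂m)
      atTop (𝓝 0) := by
  have hfL : MemLp f 2 m := MemLp.of_bound hf.aestronglyMeasurable 1 (Eventually.of_forall hb)
  obtain ⟨U, hU⟩ : ∃ U : Lp ℝ 2 m →ₗᵢ[ℝ] Lp ℝ 2 m, ∀ h, U h =ᵐ[m] h ∘ T :=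
    ⟨Lp.compMeasurePreservingₗᵢ ℝ T hT, fun h => Lp.coeFn_compMeasurePreserving h hT⟩
  obtain ⟨V, hV⟩ : ∃ V : Lp ℝ 2 m →ₗᵢ[ℝ] Lp ℝ 2 m, ∀ h, V h =ᵐ[m] h ∘ J :=
    ⟨Lp.compMeasurePreservingₗᵢ ℝ J hJ, fun h => Lp.coeFn_compMeasurePreserving h hJ⟩
  have qT := hT.quasiMeasurePreserving
  have qJ := hJ.quasiMeasurePreserving
  obtain ⟨g, g1, g2, hg⟩ := GErg_hilb U V (F := hfL.toLp f)
    (fun h => Lp.ext (((hV _).trans (qJ.ae_eq_comp (hV h))).trans
      (Eventually.of_forall fun x => congrArg h (hJJ x))))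
    (fun h => Lp.ext ((((hU _).trans (qT.ae_eq_comp ((hV _).trans (qJ.ae_eq_comp (hU h))))).trans
      (Eventually.of_forall fun x => congrArg h (hTJ x))).trans (hV h).symm))
    (Lp.ext ((((hV _).trans (qJ.ae_eq_comp hfL.coeFn_toLp)).trans
      (Eventually.of_forall hfJ)).trans hfL.coeFn_toLp.symm))
  have e1 : g ∘ T =ᵐ[m] g := by
    have := hU g
    rw [g1] at this
    exact this.symm
  have e2 : g ∘ J =ᵐ[m] g := by
    have := hV g
    rw [g2] at this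
    exact this.symm
  obtain ⟨c, hc⟩ := exists_eventuallyEq_const_of_forall_separating (l := ae m) (f := (g : X → ℝ))
    MeasurableSet fun s hs => by
    obtain ⟨B, b1, b2, b3, b4⟩ := GErg_sat hT hJ hJJ hTJ
      ((Lp.stronglyMeasurable g).measurable hs) (e1.preimage s) (e2.preimage s)
    rcases herg B b1 b2 b3 with h | h
    · right
      filter_upwards [b4.mem_iff, measure_eq_zero_iff_ae_notMem.1 h] with x h1 h2
      exact fun h3 => h2 (h1.2 h3)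
    · left
      filter_upwards [b4.mem_iff, measure_eq_zero_iff_ae_notMem.1 h] with x h1 h2
      exact h1.1 (not_not.1 h2)
  have hit : ∀ t, (U^[t] (hfL.toLp f) : Lp ℝ 2 m) =ᵐ[m] fun x => f (T^[t] x) := fun t => by
    induction t with
    | zero => exact hfL.coeFn_toLp
    | succ t ih =>
      rw [Function.iterate_succ_apply']
      exact (hU _).trans (qT.ae_eq_comp ih)
  refine ⟨c, ?_⟩
  have lim := (tendsto_iff_norm_sub_tendsto_zero.1 hg).mul_const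
    ‖(memLp_const (1 : ℝ) : MemLp (fun _ : X => (1 : ℝ)) 2 m).toLp _‖
  rw [zero_mul] at lim
  refine squeeze_zero (fun M => integral_nonneg fun x => abs_nonneg _) (fun M => ?_) lim
  refine le_trans (le_of_eq (integral_congr_ae ?_)) (GErg_l1 _)
  filter_upwards [Lp.coeFn_sub ((M : ℝ)⁻¹ • ∑ k ∈ Finset.range M, U^[k] (hfL.toLp f)) g,
    Lp.coeFn_smul (M : ℝ)⁻¹ (∑ k ∈ Finset.range M, U^[k] (hfL.toLp f)),
    Lp.coeFn_fun_finsetSum (Finset.range M) fun k => U^[k] (hfL.toLp f), hc,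
    ae_all_iff.2 hit] with x h1 h2 h3 h4 h5
  rw [h1, Pi.sub_apply, h2, Pi.smul_apply, h3, h4, smul_eq_mul, inv_mul_eq_div]
  simp only [h5, Function.const_apply]

/-- Mean ergodic theorem for a transformation with a time reversal. -/
theorem tendsto_avg_of_flip (hT : MeasurePreserving T m m) (hJ : MeasurePreserving J m m)
    (hJJ : ∀ x, J (J x) = x) (hTJ : ∀ x, T (J (T x)) = J x)
    (herg : ∀ E, MeasurableSet E → T ⁻¹' E = E → J ⁻¹' E = E → m E = 0 ∨ m Eᶜ = 0)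
    {f : X → ℝ} (hf : Measurable f) (hb : ∀ x, |f x| ≤ 1) (hfJ : ∀ x, f (J x) = f x) :
    Tendsto (fun M : ℕ => ∫ x, |(∑ t ∈ Finset.range M, f (T^[t] x)) / M -
      (∫ y, f y ∂m) / m.real univ| ∂m) atTop (𝓝 0) := by
  obtain ⟨c, hc⟩ := GErg_const hT hJ hJJ hTJ herg hf hb hfJ
  by_cases hm : m = 0
  · simp [hm]
  have hm' : m.real univ ≠ 0 := by
    rwa [Ne, measureReal_eq_zero_iff, Measure.measure_univ_eq_zero]
  have h1 : |∫ y, f y ∂m - m.real univ * c| ≤ 0 := by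
    refine ge_of_tendsto hc ?_
    filter_upwards [eventually_gt_atTop 0] with M hM
    obtain ⟨h2, h3⟩ := GErg_int hT hf hb M
    have hM' : (M : ℝ) ≠ 0 := by exact_mod_cast hM.ne'
    refine le_trans (le_of_eq ?_) abs_integral_le_integral_abs
    rw [integral_sub (h2.div_const _) (integrable_const _), integral_div, h3, integral_const,
      mul_div_cancel_left₀ _ hM', smul_eq_mul]
  rw [sub_eq_zero.1 (abs_nonpos_iff.1 h1), mul_div_cancel_left₀ _ hm']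
  exact hc

/-- A point with a small ergodic sum. -/
theorem exists_sum_le (hT : MeasurePreserving T m m) (hm : m ≠ 0) {F : X → ℝ} (hF : Measurable F)
    {C : ℝ} (hb : ∀ x, |F x| ≤ C) {ε : ℝ} (hε : ∫ x, F x ∂m ≤ ε * m.real univ) {Z : Set X}
    (hZ : m Z = 0) (L : ℕ) : ∃ x ∉ Z, ∑ t ∈ Finset.range L, F (T^[t] x) ≤ ε * L := by
  obtain ⟨h1, h2⟩ := GErg_int hT hF hb L
  obtain ⟨x, hx, h3⟩ := exists_notMem_null_le_average hm h1 hZ
  refine ⟨x, hx, h3.trans ?_⟩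
  have hm' : 0 < m.real univ := lt_of_le_of_ne measureReal_nonneg (by
    rwa [Ne, eq_comm, measureReal_eq_zero_iff, Measure.measure_univ_eq_zero])
  rw [average_eq, h2, smul_eq_mul, inv_mul_le_iff₀ hm']
  refine (mul_le_mul_of_nonneg_left hε (Nat.cast_nonneg L)).trans (le_of_eq ?_)
  ring

end

theorem GErg_split {F : ℤ → ℝ} {a b c : ℤ} (h1 : a ≤ b) (h2 : b ≤ c) :
    ∑ t ∈ Finset.Ico a c, F t = ∑ t ∈ Finset.Ico a b, F t + ∑ t ∈ Finset.Ico b c, F t := by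
  rw [← Finset.Ico_union_Ico_eq_Ico h1 h2, Finset.sum_union (Finset.Ico_disjoint_Ico_consecutive _ _ _)]

theorem GErg_sun {F G : ℤ → ℝ} {L : ℤ}
    (h : ∀ a < L, ∃ b, a < b ∧ b ≤ L ∧ ∑ t ∈ Finset.Ico a b, G t ≤ ∑ t ∈ Finset.Ico a b, F t)
    (n : ℕ) : ∀ a, L - a ≤ n → ∑ t ∈ Finset.Ico a L, G t ≤ ∑ t ∈ Finset.Ico a L, F t := by
  induction n with
  | zero =>
    intro a ha
    rw [Finset.Ico_eq_empty_of_le (by omega), Finset.sum_empty, Finset.sum_empty]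
  | succ n ih =>
    intro a ha
    by_cases haL : a < L
    · obtain ⟨b, h1, h2, h3⟩ := h a haL
      rw [GErg_split h1.le h2, GErg_split h1.le h2]
      exact add_le_add h3 (ih b (by omega))
    · rw [Finset.Ico_eq_empty haL, Finset.sum_empty, Finset.sum_empty]

theorem GErg_tele (g : ℤ → ℝ) {a b : ℤ} (hab : a ≤ b) :
    ∑ t ∈ Finset.Ico a b, (g (t + 1) - g t) = g b - g a := by
  induction b, hab using Int.leInduction with
  | base => simp
  | succ b hb ih =>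
    rw [← Finset.insert_Ico_right_eq_Ico_add_one hb, Finset.sum_insert Finset.right_notMem_Ico, ih]
    ring

theorem GErg_shift {f : ℤ → ℝ} (hb : ∀ t, |f t| ≤ 1) {a b : ℤ} (hab : a ≤ b) (i : ℕ) :
    |∑ t ∈ Finset.Ico a b, (f (t + i) - f t)| ≤ 2 * i := by
  induction i with
  | zero => simp
  | succ i ih =>
    have h := GErg_tele (fun t => f (t + i)) hab
    have e : ∑ t ∈ Finset.Ico a b, (f (t + (i + 1 : ℕ)) - f t) =
        ∑ t ∈ Finset.Ico a b, (f (t + i) - f t) + (f (b + i) - f (a + i)) := by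
      rw [← h, ← Finset.sum_add_distrib]
      refine Finset.sum_congr rfl fun t _ => ?_
      rw [Nat.cast_succ, add_right_comm t 1, add_assoc]
      ring
    have h1 := abs_le.1 (hb (b + i))
    have h2 := abs_le.1 (hb (a + i))
    rw [e, abs_le] at *
    push_cast
    constructor <;> linarith [ih.1, ih.2]

open Classical in
/-- Rising sun lemma for finite sequences. -/
theorem card_sun_le {F : ℤ → ℝ} (h0 : ∀ t, 0 ≤ F t) (L : ℤ) (η : ℝ) :
    (((Finset.Ico 0 L).filter fun a => ∃ b, a < b ∧ b ≤ L ∧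
      η * (b - a) < ∑ t ∈ Finset.Ico a b, F t).card : ℝ) * η ≤ ∑ t ∈ Finset.Ico 0 L, F t := by
  rcases le_total η 0 with hη | hη
  · exact (mul_nonpos_of_nonneg_of_nonpos (Nat.cast_nonneg _) hη).trans
      (Finset.sum_nonneg fun t _ => h0 t)
  rw [← nsmul_eq_mul, ← Finset.sum_const, Finset.sum_filter]
  refine GErg_sun (fun a ha => ?_) L.toNat 0 (by omega)
  by_cases h : ∃ b, a < b ∧ b ≤ L ∧ η * (b - a) < ∑ t ∈ Finset.Ico a b, F t
  · obtain ⟨b, h1, h2, h3⟩ := h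
    refine ⟨b, h1, h2, le_trans ?_ h3.le⟩
    refine (Finset.sum_le_card_nsmul _ _ η fun t _ => ?_).trans (le_of_eq ?_)
    · split_ifs
      · exact le_rfl
      · exact hη
    · have : ((Finset.Ico a b).card : ℝ) = b - a := by
        exact_mod_cast Int.card_Ico_of_le a b h1.le
      rw [nsmul_eq_mul, this, mul_comm]
  · refine ⟨a + 1, by omega, by omega, ?_⟩
    rw [Finset.Ico_add_one_right_eq_Icc, Finset.Icc_self, Finset.sum_singleton, Finset.sum_singleton,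
      if_neg h]
    exact h0 a

/-- From block averages to sums over long intervals. -/
theorem abs_sum_sub_le {f : ℤ → ℝ} (hb : ∀ t, |f t| ≤ 1) (c : ℝ) {M : ℕ} (hM : 0 < M) {a b : ℤ}
    (hab : a ≤ b) : |∑ t ∈ Finset.Ico a b, f t - c * (b - a)| ≤
      ∑ t ∈ Finset.Ico a b, |(∑ i ∈ Finset.range M, f (t + i)) / M - c| + 2 * M := by
  have hM' : (0 : ℝ) < M := by exact_mod_cast hM
  have hc : ((Finset.Ico a b).card : ℝ) = b - a := by
    exact_mod_cast Int.card_Ico_of_le a b hab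
  have e : ∑ t ∈ Finset.Ico a b, f t - c * (b - a) =
      ∑ t ∈ Finset.Ico a b, ((∑ i ∈ Finset.range M, f (t + i)) / M - c) -
        (∑ i ∈ Finset.range M, ∑ t ∈ Finset.Ico a b, (f (t + i) - f t)) / M := by
    rw [Finset.sum_comm, Finset.sum_div, ← Finset.sum_sub_distrib, ← hc, mul_comm, ← nsmul_eq_mul,
      ← Finset.sum_const, ← Finset.sum_sub_distrib]
    refine Finset.sum_congr rfl fun t _ => ?_
    rw [Finset.sum_sub_distrib, Finset.sum_const, Finset.card_range, nsmul_eq_mul]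
    field_simp
    ring
  rw [e]
  refine (abs_sub _ _).trans (add_le_add (Finset.abs_sum_le_sum_abs _ _) ?_)
  rw [abs_div, abs_of_pos hM', div_le_iff₀ hM']
  refine (Finset.abs_sum_le_sum_abs _ _).trans
    ((Finset.sum_le_card_nsmul _ _ (2 * (M : ℝ)) fun i hi => (GErg_shift hb hab i).trans ?_).trans
      (le_of_eq ?_))
  · have : (i : ℝ) ≤ M := by exact_mod_cast (Finset.mem_range.1 hi).le
    linarith
  · rw [Finset.card_range, nsmul_eq_mul, mul_comm]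

end HRT
end

-- merged part: Pool.Agent.Work.MP_35beee_gt.GSec
section
/-!
The cross-section given by a filling family, its return map `T` and its time reversal `J`.

Plan. For `x = (r, l)` in the section let `e` be the enumeration with `e 0 = ax (h r)`
(`exists_enum`, `IsEnum.unique`); `T x` is the normal form (`existsUnique_nf`) of `(e 1, l)`, `J x`
the normal form of `((ax (h r)).rev, l.rev)`; off the section both are the identity. Apply
`measurePreserving_piece` with `G = Γ`. Measurability of the pieces: `e 1 = A` means that `l`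
crosses `A` after `ax (h r)` and no lift (countably many) crosses in between; `A ↦ xp l A` is
continuous in `l` on the open set of lines crossing `A`. The inverse of `T` uses `e (-1)`.
For an invariant `E` take `E' = {l | ∃ g r, (r, g • l) ∈ E ∩ section ∨ (r, (g • l).rev) ∈ E ∩ section}`:
two points of the section on translates of the same unoriented leaf differ by a power of `T` and
possibly `J`.
-/

namespace HRT

open Set Filter Topology Real MeasureTheory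

variable {Γ : Type*} [Group Γ] {ρ : Γ →* Isom} {Λ : Set Geo} {n : ℕ} {h : Fin n → Γ} {D : ℝ}

/-- The sheets of the cross-section. -/
def sheet (ρ : Γ →* Isom) {ι : Type} (h : ι → Γ) (Λ : Set Geo) (r : ι) : Set Geo :=
  {l | l ∈ Λ ∧ Gen ρ h l ∧ l ∈ xs (ax (ρ (h r))) (Ico 0 (tl (ρ (h r))))}

theorem measurableSet_sheet (hρ : Disc ρ) (hΛ : Lam ρ Λ) (r : Fin n) :
    MeasurableSet (sheet ρ h Λ r) := by
  exact hΛ.closed.measurableSet.inter
    ((measurableSet_gen hρ).inter (measurableSet_xs _ measurableSet_Ico))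

theorem Cur.measure_sheet {μ : Measure Geo} (hμ : Cur ρ μ) (hρ : Disc ρ) (hΛ : Lam ρ Λ)
    [NullSingletonClass μ] (h0 : μ Λᶜ = 0) (r : Fin n) :
    μ.real (sheet ρ h Λ r) = ic μ (ρ (h r)) := by
  have h1 : ∀ᵐ l ∂μ, l ∈ Λ := h0
  have h2 : ∀ᵐ l ∂μ, ¬ (l ∈ Λ ∧ ¬ Gen ρ h l) := by
    rw [ae_iff]
    simpa only [not_not] using hμ.null_gen (h := h) hρ hΛ
  unfold ic
  refine measureReal_congr ?_
  filter_upwards [h1, h2] with l a b
  have c : Gen ρ h l := by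
    by_contra c
    exact b ⟨a, c⟩
  exact propext ⟨fun k => k.2.2, fun k => ⟨a, c, k⟩⟩

theorem Cur.isFiniteMeasure_secM {μ : Measure Geo} (hμ : Cur ρ μ) :
    IsFiniteMeasure (secM μ (sheet ρ h Λ)) := by
  refine ⟨?_⟩
  rw [secM_apply _ _ MeasurableSet.univ]
  refine ENNReal.sum_lt_top.2 fun r _ => ?_
  refine lt_of_le_of_lt (measure_mono fun l hl => hl.2.2.2)
    (hμ.xs_lt_top (ax (ρ (h r))) (Metric.isBounded_Ico 0 (tl (ρ (h r)))))

theorem Cur.secM_ne_zero {μ : Measure Geo} (hμ : Cur ρ μ) (hρ : Disc ρ) (hΛ : Lam ρ Λ)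
    (ha : Arr ρ h) (hD : Fill ρ h Λ D) [NullSingletonClass μ] (h0 : μ Λᶜ = 0) (hne : μ ≠ 0) :
    secM μ (sheet ρ h Λ) ≠ 0 := by
  intro hz
  have := hρ.countable
  have h1 : ∀ r, μ (sheet ρ h Λ r) = 0 := by
    have h2 : secM μ (sheet ρ h Λ) univ = 0 := by rw [hz]; rfl
    rw [secM_apply _ _ MeasurableSet.univ, Finset.sum_eq_zero_iff] at h2
    intro r
    simpa using h2 r (Finset.mem_univ r)
  have h3 : μ (⋃ x : Fin n × Γ, (fun l : Geo => ρ x.2 • l) ⁻¹' sheet ρ h Λ x.1) = 0 :=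
    measure_iUnion_null fun x => by
      rw [(hμ.smul x.2).measure_preimage (measurableSet_sheet hρ hΛ x.1).nullMeasurableSet, h1]
  apply hne
  rw [← Measure.measure_univ_eq_zero]
  refine measure_mono_null ?_
    (measure_union_null h0 (measure_union_null (hμ.null_gen (h := h) hρ hΛ) h3))
  intro l _
  by_cases a : l ∈ Λ
  · by_cases b : Gen ρ h l
    · obtain ⟨A, hA, hc, -⟩ := hD l a 0
      have key : ∃ A ∈ lifts ρ h, l ∈ xs A univ := by
        rcases hc.symm.mem_xs' with k | k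
        · exact ⟨A, hA, k⟩
        · exact ⟨A.rev, rev_mem_lifts hA, k⟩
      obtain ⟨A, hA, k⟩ := key
      obtain ⟨x, hx, -⟩ := ha.existsUnique_nf hρ hA k
      exact Or.inr (Or.inr (mem_iUnion.2 ⟨x, hΛ.smul _ _ a, b.smul _, hx.2⟩))
    · exact Or.inr (Or.inl ⟨a, b⟩)
  · exact Or.inl a

/-- The return map and the time reversal. -/
structure IsSec (ρ : Γ →* Isom) {n : ℕ} (h : Fin n → Γ) (Λ : Set Geo)
    (T J : Fin n × Geo → Fin n × Geo) : Prop where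
  presT : ∀ μ, Cur ρ μ → MeasurePreserving T (secM μ (sheet ρ h Λ)) (secM μ (sheet ρ h Λ))
  presJ : ∀ μ, Cur ρ μ → MeasurePreserving J (secM μ (sheet ρ h Λ)) (secM μ (sheet ρ h Λ))
  invol : ∀ x, J (J x) = x
  flip : ∀ x, T (J (T x)) = J x
  iter : ∀ x, x.2 ∈ sheet ρ h Λ x.1 → ∀ e, IsEnum ρ h x.2 e → e 0 = ax (ρ (h x.1)) → ∀ t : ℕ,
    (T^[t] x).2 ∈ sheet ρ h Λ (T^[t] x).1 ∧
      ∃ g : Γ, (T^[t] x).2 = ρ g • x.2 ∧ ax (ρ (h (T^[t] x).1)) = ρ g • e t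
  rev : ∀ x, x.2 ∈ sheet ρ h Λ x.1 → IsConj (h x.1)⁻¹ (h (J x).1)
  off : ∀ x, x.2 ∉ sheet ρ h Λ x.1 → J x = x
  sat : ∀ E, MeasurableSet E → T ⁻¹' E = E → J ⁻¹' E = E →
    ∃ E', InvS ρ E' ∧ ∀ x : Fin n × Geo, x.2 ∈ sheet ρ h Λ x.1 → (x ∈ E ↔ x.2 ∈ E')

/-- A generic leaf together with a lift that it crosses. -/
def GSec_Flag (ρ : Γ →* Isom) (h : Fin n → Γ) (Λ : Set Geo) (A l : Geo) : Prop :=
  l ∈ Λ ∧ Gen ρ h l ∧ A ∈ lifts ρ h ∧ l ∈ xs A univ

/-- Normal form data. -/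
def GSec_NF (ρ : Γ →* Isom) (h : Fin n → Γ) (A l : Geo) (x : Fin n × Γ) : Prop :=
  ρ x.2 • A = ax (ρ (h x.1)) ∧ ρ x.2 • l ∈ xs (ax (ρ (h x.1))) (Ico 0 (tl (ρ (h x.1))))

open Classical in
/-- A choice of normal form data. -/
noncomputable def GSec_nf (ρ : Γ →* Isom) (h : Fin n → Γ) (r : Fin n) (A l : Geo) : Fin n × Γ :=
  if H : ∃ x, GSec_NF ρ h A l x then H.choose else (r, 1)

open Classical in
/-- A choice of enumeration. -/
noncomputable def GSec_en (ρ : Γ →* Isom) (h : Fin n → Γ) (A l : Geo) : ℤ → Geo :=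
  if H : ∃ e, IsEnum ρ h l e ∧ e 0 = A then H.choose else fun _ => A

/-- The point `y` of the section is the normal form of the flag `(A, l)`. -/
def GSec_P (ρ : Γ →* Isom) (h : Fin n → Γ) (A l : Geo) (y : Fin n × Geo) : Prop :=
  ∃ g : Γ, GSec_NF ρ h A l (y.1, g) ∧ y.2 = ρ g • l

theorem GSec_nf_iff (hρ : Disc ρ) (ha : Arr ρ h) {A l : Geo} (hf : GSec_Flag ρ h Λ A l) (r : Fin n)
    (x : Fin n × Γ) : GSec_nf ρ h r A l = x ↔ GSec_NF ρ h A l x := by
  have hu := ha.existsUnique_nf hρ hf.2.2.1 hf.2.2.2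
  have he : ∃ x, GSec_NF ρ h A l x := hu.exists
  have h1 : GSec_NF ρ h A l (GSec_nf ρ h r A l) := by
    unfold GSec_nf
    rw [dif_pos he]
    exact he.choose_spec
  exact ⟨fun k => k ▸ h1, fun k => hu.unique h1 k⟩

theorem GSec_en_eq {l : Geo} {e : ℤ → Geo} (he : IsEnum ρ h l e) : GSec_en ρ h (e 0) l = e := by
  have H : ∃ e', IsEnum ρ h l e' ∧ e' 0 = e 0 := ⟨e, he, rfl⟩
  unfold GSec_en
  rw [dif_pos H]
  exact H.choose_spec.1.unique he H.choose_spec.2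

theorem GSec_xs_smul (g : Isom) {A l : Geo} (k : l ∈ xs A univ) : g • l ∈ xs (g • A) univ :=
  (smul_mem_xs g A l univ).2 k

theorem GSec_Flag.smul (hΛ : Lam ρ Λ) {A l : Geo} (hf : GSec_Flag ρ h Λ A l) (g : Γ) :
    GSec_Flag ρ h Λ (ρ g • A) (ρ g • l) :=
  ⟨hΛ.smul _ _ hf.1, hf.2.1.smul g, smul_mem_lifts g hf.2.2.1, GSec_xs_smul _ hf.2.2.2⟩

theorem GSec_Flag.rev (hΛ : Lam ρ Λ) {A l : Geo} (hf : GSec_Flag ρ h Λ A l) :
    GSec_Flag ρ h Λ A.rev l.rev :=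
  ⟨hΛ.rev _ hf.1, hf.2.1.rev, rev_mem_lifts hf.2.2.1, (rev_mem_xs A l univ).2 hf.2.2.2⟩

theorem GSec_Flag.enum {A l : Geo} (hf : GSec_Flag ρ h Λ A l) {e : ℤ → Geo} (he : IsEnum ρ h l e)
    (t : ℤ) : GSec_Flag ρ h Λ (e t) l := ⟨hf.1, hf.2.1, he.mem t, he.xs t⟩

theorem GSec_flag_of_mem {x : Fin n × Geo} (hx : x.2 ∈ sheet ρ h Λ x.1) :
    GSec_Flag ρ h Λ (ax (ρ (h x.1))) x.2 :=
  ⟨hx.1, hx.2.1, ax_mem_lifts _, xs_mono _ (subset_univ _) hx.2.2⟩

theorem GSec_P_self {x : Fin n × Geo} (hx : x.2 ∈ sheet ρ h Λ x.1) :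
    GSec_P ρ h (ax (ρ (h x.1))) x.2 x :=
  ⟨1, ⟨by simp, by simpa using hx.2.2⟩, by simp⟩

theorem GSec_P.mem (hΛ : Lam ρ Λ) {A l : Geo} (hf : GSec_Flag ρ h Λ A l) {y : Fin n × Geo}
    (hy : GSec_P ρ h A l y) : y.2 ∈ sheet ρ h Λ y.1 := by
  obtain ⟨g, h1, h2⟩ := hy
  rw [h2]
  exact ⟨hΛ.smul _ _ hf.1, hf.2.1.smul g, h1.2⟩

theorem GSec_P.unique (hρ : Disc ρ) (ha : Arr ρ h) {A l : Geo} (hf : GSec_Flag ρ h Λ A l)
    {y z : Fin n × Geo} (hy : GSec_P ρ h A l y) (hz : GSec_P ρ h A l z) : y = z := by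
  obtain ⟨g, h1, h2⟩ := hy
  obtain ⟨g', h3, h4⟩ := hz
  have := (ha.existsUnique_nf hρ hf.2.2.1 hf.2.2.2).unique h1 h3
  obtain ⟨h5, h6⟩ := Prod.ext_iff.1 this
  exact Prod.ext h5 (by rw [h2, h4]; exact congrArg (fun g => ρ g • l) h6)

theorem GSec_P.of_smul {A l : Geo} {g : Γ} {y : Fin n × Geo}
    (hy : GSec_P ρ h (ρ g • A) (ρ g • l) y) : GSec_P ρ h A l y := by
  obtain ⟨g', ⟨h1, h2⟩, h3⟩ := hy
  refine ⟨g' * g, ⟨?_, ?_⟩, ?_⟩
  · simpa only [map_mul, mul_smul] using h1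
  · simpa only [map_mul, mul_smul] using h2
  · simpa only [map_mul, mul_smul] using h3

theorem GSec_P_nf (hρ : Disc ρ) (ha : Arr ρ h) {A l : Geo} (hf : GSec_Flag ρ h Λ A l) (r : Fin n) :
    GSec_P ρ h A l ((GSec_nf ρ h r A l).1, ρ (GSec_nf ρ h r A l).2 • l) :=
  ⟨_, (GSec_nf_iff hρ ha hf r _).1 rfl, rfl⟩

/-- Normal form data of the crossing number `s`. -/
noncomputable def GSec_d (ρ : Γ →* Isom) (h : Fin n → Γ) (s : ℤ) (x : Fin n × Geo) : Fin n × Γ :=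
  GSec_nf ρ h x.1 (GSec_en ρ h (ax (ρ (h x.1))) x.2 s) x.2

/-- Normal form data of the reversed crossing. -/
noncomputable def GSec_j (ρ : Γ →* Isom) (h : Fin n → Γ) (x : Fin n × Geo) : Fin n × Γ :=
  GSec_nf ρ h x.1 (ax (ρ (h x.1))).rev x.2.rev

theorem GSec_step (hρ : Disc ρ) (ha : Arr ρ h) (hΛ : Lam ρ Λ) {l : Geo} {e : ℤ → Geo} {t : ℤ}
    (hf : GSec_Flag ρ h Λ (e t) l) (he : IsEnum ρ h l e) {y : Fin n × Geo}
    (hy : GSec_P ρ h (e t) l y) (s : ℤ) :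
    GSec_P ρ h (e (s + t)) l ((GSec_d ρ h s y).1, ρ (GSec_d ρ h s y).2 • y.2) := by
  obtain ⟨g, ⟨h1, -⟩, h2⟩ := hy
  have he' := (he.shift t).smul g
  have h3 := GSec_en_eq he'
  simp only [zero_add] at h3
  rw [h1, ← h2] at h3
  refine GSec_P.of_smul (g := g) ?_
  unfold GSec_d
  rw [h3, h2]
  exact GSec_P_nf hρ ha ((hf.enum he _).smul hΛ g) _

theorem GSec_jstep (hρ : Disc ρ) (ha : Arr ρ h) (hΛ : Lam ρ Λ) {A l : Geo}
    (hf : GSec_Flag ρ h Λ A l) {y : Fin n × Geo} (hy : GSec_P ρ h A l y) :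
    GSec_P ρ h A.rev l.rev ((GSec_j ρ h y).1, ρ (GSec_j ρ h y).2 • y.2.rev) := by
  obtain ⟨g, ⟨h1, -⟩, h2⟩ := hy
  refine GSec_P.of_smul (g := g) ?_
  unfold GSec_j
  rw [← h1, h2, Geo.smul_rev, Geo.smul_rev]
  exact GSec_P_nf hρ ha ((hf.smul hΛ g).rev hΛ) _

theorem GSec_open (A : Geo) : IsOpen (xs A univ) := by
  have h1 : Continuous fun l : Geo => side A l.src.1 :=
    Continuous.comp (g := fun x : Geo × V => side x.1 x.2) (f := fun l : Geo => (A, l.src.1))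
      continuous_side (continuous_const.prodMk GFermi_cs)
  have h2 : Continuous fun l : Geo => side A l.tgt.1 :=
    Continuous.comp (g := fun x : Geo × V => side x.1 x.2) (f := fun l : Geo => (A, l.tgt.1))
      continuous_side (continuous_const.prodMk GFermi_ct)
  have h3 := (isOpen_lt h1 (continuous_const (y := (0 : ℝ)))).inter
    (isOpen_lt (continuous_const (y := (0 : ℝ))) h2)
  convert h3 using 1
  ext l
  simp [xs]

theorem GSec_meas_lt (A A' : Geo) :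
    MeasurableSet {l | l ∈ xs A univ ∧ l ∈ xs A' univ ∧ xp l A < xp l A'} := by
  have hc : ∀ A : Geo, ContinuousOn (fun l => xp l A) (xs A univ) := fun A l hl =>
    (ContinuousAt.comp (g := fun x : Geo × Geo => xp x.1 x.2) (f := fun l : Geo => (l, A))
      (continuousAt_xp (xs_cross hl).symm)
      (continuous_id.prodMk continuous_const).continuousAt).continuousWithinAt
  have h1 : ContinuousOn (fun l => xp l A' - xp l A) (xs A univ ∩ xs A' univ) :=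
    ((hc A').mono inter_subset_right).sub ((hc A).mono inter_subset_left)
  have h2 := h1.isOpen_inter_preimage ((GSec_open A).inter (GSec_open A')) (isOpen_Ioi (a := 0))
  convert h2.measurableSet using 1
  ext l
  simp only [mem_ofPred_eq, mem_inter_iff, mem_preimage, mem_Ioi, sub_pos, and_assoc]

theorem GSec_one_iff {l : Geo} {e : ℤ → Geo} (he : IsEnum ρ h l e) {A : Geo}
    (hA : A ∈ lifts ρ h) : e 1 = A ↔
      (l ∈ xs (e 0) univ ∧ l ∈ xs A univ ∧ xp l (e 0) < xp l A) ∧ ∀ C ∈ lifts ρ h,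
        ¬ ((l ∈ xs (e 0) univ ∧ l ∈ xs C univ ∧ xp l (e 0) < xp l C) ∧
          (l ∈ xs C univ ∧ l ∈ xs A univ ∧ xp l C < xp l A)) := by
  constructor
  · rintro rfl
    refine ⟨⟨he.xs 0, he.xs 1, he.mono zero_lt_one⟩, ?_⟩
    rintro C hC ⟨⟨-, h1, h2⟩, -, -, h3⟩
    obtain ⟨t, rfl⟩ := he.surj C hC h1
    have h4 := he.mono.lt_iff_lt.1 h2
    have h5 := he.mono.lt_iff_lt.1 h3
    omega
  · rintro ⟨⟨-, h1, h2⟩, h3⟩
    obtain ⟨t, rfl⟩ := he.surj A hA h1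
    have h4 := he.mono.lt_iff_lt.1 h2
    by_contra h5
    have h6 : 1 < t := by
      rcases lt_or_eq_of_le (show 1 ≤ t by omega) with k | k
      · exact k
      · exact absurd (congrArg e k) h5
    exact h3 (e 1) (he.mem 1) ⟨⟨he.xs 0, he.xs 1, he.mono zero_lt_one⟩, he.xs 1, h1, he.mono h6⟩

theorem GSec_meas_d (hρ : Disc ρ) (hΛ : Lam ρ Λ) (ha : Arr ρ h) (hD : Fill ρ h Λ D)
    (r r' : Fin n) (g : Γ) : MeasurableSet {y | y ∈ sheet ρ h Λ r ∧
      (GSec_d ρ h 1 (r, y)).1 = r' ∧ (GSec_d ρ h 1 (r, y)).2 = g} := by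
  have hA : ρ g⁻¹ • ax (ρ (h r')) ∈ lifts ρ h := smul_mem_lifts _ (ax_mem_lifts _)
  set A := ρ g⁻¹ • ax (ρ (h r')) with hAd
  have h1 : MeasurableSet {l | ∀ C ∈ lifts ρ h,
      ¬ ((l ∈ xs (ax (ρ (h r))) univ ∧ l ∈ xs C univ ∧ xp l (ax (ρ (h r))) < xp l C) ∧
        (l ∈ xs C univ ∧ l ∈ xs A univ ∧ xp l C < xp l A))} := by
    have := MeasurableSet.biInter (countable_lifts (h := h) hρ) fun C _ =>
      ((GSec_meas_lt (ax (ρ (h r))) C).inter (GSec_meas_lt C A)).compl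
    convert this using 1
    ext l
    simp only [mem_ofPred_eq, mem_iInter, mem_compl_iff, mem_inter_iff]
  have h2 := (measurableSet_sheet (h := h) hρ hΛ r).inter
    (((GSec_meas_lt (ax (ρ (h r))) A).inter h1).inter
      (measurable_smul_geo (ρ g)
        (measurableSet_xs (ax (ρ (h r'))) (measurableSet_Ico (a := 0) (b := tl (ρ (h r')))))))
  convert h2 using 1
  ext l
  refine and_congr_right fun hl => ?_
  have hf : GSec_Flag ρ h Λ (ax (ρ (h r))) l := GSec_flag_of_mem (x := (r, l)) hl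
  obtain ⟨e, he, h0⟩ := exists_enum hρ ha hD hf.1 hf.2.1 hf.2.2.1 hf.2.2.2
  have h3 : GSec_d ρ h 1 (r, l) = GSec_nf ρ h r (e 1) l := by
    unfold GSec_d
    simp only
    rw [← h0, GSec_en_eq he]
  have h4 := GSec_one_iff he hA
  rw [h0] at h4
  rw [h3, ← Prod.ext_iff (y := (r', g)), GSec_nf_iff hρ ha (hf.enum he 1)]
  refine and_congr (Iff.trans ?_ h4) Iff.rfl
  rw [hAd, map_inv, eq_inv_smul_iff]

theorem GSec_meas_j (hρ : Disc ρ) (hΛ : Lam ρ Λ) (ha : Arr ρ h)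
    (r r' : Fin n) (g : Γ) : MeasurableSet {y | y ∈ sheet ρ h Λ r ∧
      (GSec_j ρ h (r, y)).1 = r' ∧ (GSec_j ρ h (r, y)).2 = g} := by
  have h2 := (measurableSet_sheet (h := h) hρ hΛ r).inter
    ((MeasurableSet.const (ρ g • (ax (ρ (h r))).rev = ax (ρ (h r')))).inter
      (((measurable_smul_geo (ρ g)).comp measurable_rev)
        (measurableSet_xs (ax (ρ (h r'))) (measurableSet_Ico (a := 0) (b := tl (ρ (h r')))))))
  convert h2 using 1
  ext l
  refine and_congr_right fun hl => ?_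
  have hf : GSec_Flag ρ h Λ (ax (ρ (h r))) l := GSec_flag_of_mem (x := (r, l)) hl
  unfold GSec_j
  rw [← Prod.ext_iff (y := (r', g)), GSec_nf_iff hρ ha (hf.rev hΛ)]
  rfl

/-- The action of a group element as a measurable equivalence. -/
noncomputable def GSec_a (ρ : Γ →* Isom) (g : Γ) : Geo ≃ᵐ Geo where
  toFun l := ρ g • l
  invFun l := (ρ g)⁻¹ • l
  left_inv l := inv_smul_smul _ l
  right_inv l := smul_inv_smul _ l
  measurable_toFun := measurable_smul_geo _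
  measurable_invFun := measurable_smul_geo _

/-- Reversal followed by the action. -/
noncomputable def GSec_b (ρ : Γ →* Isom) (g : Γ) : Geo ≃ᵐ Geo where
  toFun l := ρ g • l.rev
  invFun l := ((ρ g)⁻¹ • l).rev
  left_inv l := by simp
  right_inv l := by simp
  measurable_toFun := (measurable_smul_geo _).comp measurable_rev
  measurable_invFun := measurable_rev.comp (measurable_smul_geo _)

theorem exists_isSec (hρ : Disc ρ) (hΛ : Lam ρ Λ) (ha : Arr ρ h) (hD : Fill ρ h Λ D) :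
    ∃ T J, IsSec ρ h Λ T J := by
  classical
  have := hρ.countable
  let t : ℤ → Fin n × Geo → Fin n × Geo := fun s x =>
    ((GSec_d ρ h s x).1, ρ (GSec_d ρ h s x).2 • x.2)
  let j : Fin n × Geo → Fin n × Geo := fun x => ((GSec_j ρ h x).1, ρ (GSec_j ρ h x).2 • x.2.rev)
  let T : Fin n × Geo → Fin n × Geo := fun x => if x.2 ∈ sheet ρ h Λ x.1 then t 1 x else x
  let J : Fin n × Geo → Fin n × Geo := fun x => if x.2 ∈ sheet ρ h Λ x.1 then j x else x
  have hen : ∀ x : Fin n × Geo, x.2 ∈ sheet ρ h Λ x.1 → ∃ e, IsEnum ρ h x.2 e ∧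
      e 0 = ax (ρ (h x.1)) ∧ GSec_Flag ρ h Λ (e 0) x.2 ∧ GSec_P ρ h (e 0) x.2 x := fun x hx => by
    have hf := GSec_flag_of_mem hx
    obtain ⟨e, he, h0⟩ := exists_enum hρ ha hD hf.1 hf.2.1 hf.2.2.1 hf.2.2.2
    exact ⟨e, he, h0, h0 ▸ hf, h0 ▸ GSec_P_self hx⟩
  have hT : ∀ {l : Geo} {e : ℤ → Geo} {s : ℤ}, GSec_Flag ρ h Λ (e s) l → IsEnum ρ h l e →
      ∀ {y}, GSec_P ρ h (e s) l y → GSec_P ρ h (e (1 + s)) l (T y) := fun hf he y hy => by
    simp only [T, if_pos (hy.mem hΛ hf)]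
    exact GSec_step hρ ha hΛ hf he hy 1
  have hJ : ∀ {A l : Geo}, GSec_Flag ρ h Λ A l → ∀ {y}, GSec_P ρ h A l y →
      GSec_P ρ h A.rev l.rev (J y) := fun hf y hy => by
    simp only [J, if_pos (hy.mem hΛ hf)]
    exact GSec_jstep hρ ha hΛ hf hy
  have htm : ∀ s, MapsTo (t s) {x | x.2 ∈ sheet ρ h Λ x.1} {x | x.2 ∈ sheet ρ h Λ x.1} :=
    fun s x hx => by
      obtain ⟨e, he, -, hf, hp⟩ := hen x hx
      exact (GSec_step hρ ha hΛ hf he hp s).mem hΛ (hf.enum he _)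
  have hti : ∀ s s', s + s' = 0 → ∀ x : Fin n × Geo, x.2 ∈ sheet ρ h Λ x.1 →
      t s (t s' x) = x := fun s s' hs x hx => by
    obtain ⟨e, he, -, hf, hp⟩ := hen x hx
    have h1 := GSec_step hρ ha hΛ (hf.enum he _) he (GSec_step hρ ha hΛ hf he hp s') s
    rw [add_zero, hs] at h1
    exact h1.unique hρ ha hf hp
  have hjm : MapsTo j {x | x.2 ∈ sheet ρ h Λ x.1} {x | x.2 ∈ sheet ρ h Λ x.1} := fun x hx =>
    (GSec_jstep hρ ha hΛ (GSec_flag_of_mem hx) (GSec_P_self hx)).mem hΛ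
      ((GSec_flag_of_mem hx).rev hΛ)
  have hjj : ∀ x : Fin n × Geo, x.2 ∈ sheet ρ h Λ x.1 → j (j x) = x := fun x hx => by
    have hf := GSec_flag_of_mem hx
    have h1 := GSec_jstep hρ ha hΛ (hf.rev hΛ) (GSec_jstep hρ ha hΛ hf (GSec_P_self hx))
    exact GSec_P.unique hρ ha hf h1 (GSec_P_self hx)
  have hS : ∀ r, MeasurableSet (sheet ρ h Λ r) := measurableSet_sheet hρ hΛ
  refine ⟨T, J, fun μ hμ => ?_, fun μ hμ => ?_, fun x => ?_, fun x => ?_, ?_, fun x hx => ?_,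
    fun x hx => if_neg hx, fun E hE h1 h2 => ?_⟩
  · exact measurePreserving_piece (GSec_a ρ) hμ.smul hS (fun x => (GSec_d ρ h 1 x).1)
      (fun x => (GSec_d ρ h 1 x).2) (GSec_meas_d hρ hΛ ha hD)
      (InvOn.bijOn (f' := t (-1)) ⟨hti (-1) 1 rfl, hti 1 (-1) rfl⟩ (htm 1) (htm (-1)))
  · exact measurePreserving_piece (GSec_b ρ) (fun g => (hμ.smul g).comp hμ.rev) hS
      (fun x => (GSec_j ρ h x).1) (fun x => (GSec_j ρ h x).2) (GSec_meas_j hρ hΛ ha)
      (InvOn.bijOn (f' := j) ⟨hjj, hjj⟩ hjm hjm)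
  · by_cases hx : x.2 ∈ sheet ρ h Λ x.1
    · have hf := GSec_flag_of_mem hx
      exact GSec_P.unique hρ ha hf (hJ (hf.rev hΛ) (hJ hf (GSec_P_self hx))) (GSec_P_self hx)
    · simp only [J, if_neg hx]
  · by_cases hx : x.2 ∈ sheet ρ h Λ x.1
    · obtain ⟨e, he, -, hf, hp⟩ := hen x hx
      have h1 := hJ (hf.enum he _) (hT hf he hp)
      rw [show (1 + 0 : ℤ) = -(-1) by norm_num] at h1
      have h2 := hT (e := fun t => (e (-t)).rev) (s := -1) ((hf.enum he (-(-1))).rev hΛ) he.rev h1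
      simp only [add_neg_cancel, neg_zero] at h2
      exact GSec_P.unique hρ ha (hf.rev hΛ) h2 (hJ hf hp)
    · simp only [T, J, if_neg hx]
  · intro x hx e he h0 s
    have hf : GSec_Flag ρ h Λ (e 0) x.2 := h0 ▸ GSec_flag_of_mem hx
    have h1 : GSec_P ρ h (e s) x.2 (T^[s] x) := by
      induction s with
      | zero => exact h0 ▸ GSec_P_self hx
      | succ s ih =>
        rw [Function.iterate_succ_apply', Nat.cast_succ, add_comm]
        exact hT (hf.enum he _) he ih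
    refine ⟨h1.mem hΛ (hf.enum he _), ?_⟩
    obtain ⟨g, h2, h3⟩ := h1
    exact ⟨g, h3, h2.1.symm⟩
  · obtain ⟨g, ⟨h1, -⟩, -⟩ := hJ (GSec_flag_of_mem hx) (GSec_P_self hx)
    obtain ⟨r, hr⟩ := ha.inv x.1
    obtain ⟨c, hc⟩ := isConj_iff.1 hr
    have h2 : ax (ρ (h r)) = ρ c • (ax (ρ (h x.1))).rev := by
      rw [← hc, map_mul, map_mul, map_inv, map_inv, (ha.hyp x.1).inv.ax_conj, (ha.hyp x.1).ax_inv]
    have h3 : ρ (g * c⁻¹) • ax (ρ (h r)) = ax (ρ (h (J x).1)) := by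
      rw [h2, map_mul, map_inv, mul_smul, inv_smul_smul]
      exact h1
    rw [← (ha.label_unique hρ h3).1]
    exact hr
  · have hTE : ∀ y, T y ∈ E ↔ y ∈ E := fun y => by rw [← mem_preimage, h1]
    have hJE : ∀ y, J y ∈ E ↔ y ∈ E := fun y => by rw [← mem_preimage, h2]
    have key : ∀ x : Fin n × Geo, x.2 ∈ sheet ρ h Λ x.1 → ∀ (r : Fin n) (g : Γ),
        ρ g • x.2 ∈ sheet ρ h Λ r → (r, ρ g • x.2) ∈ E → x ∈ E := fun x hx r g hr hE => by
      obtain ⟨e, he, -, hf, hp⟩ := hen x hx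
      have h3 : ∀ (s : ℤ) y, GSec_P ρ h (e s) x.2 y → (y ∈ E ↔ x ∈ E) := fun s => by
        induction s using Int.induction_on with
        | zero => exact fun y hy => by rw [hy.unique hρ ha hf hp]
        | succ s ih =>
          intro y hy
          have h4 := GSec_P_nf hρ ha (hf.enum he s) r
          have h5 := hT (hf.enum he _) he h4
          rw [add_comm] at h5
          rw [hy.unique hρ ha (hf.enum he _) h5, hTE, ih _ h4]
        | pred s ih =>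
          intro y hy
          have h5 := hT (hf.enum he _) he hy
          rw [add_sub_cancel] at h5
          rw [← hTE, ih _ h5]
      have h6 := (GSec_flag_of_mem (x := (r, ρ g • x.2)) hr).smul hΛ g⁻¹
      simp only [map_inv, inv_smul_smul] at h6
      obtain ⟨s, hs⟩ := he.surj _ h6.2.2.1 h6.2.2.2
      refine (h3 s _ (GSec_P.of_smul (g := g) ?_)).1 hE
      rw [hs, smul_inv_smul]
      exact GSec_P_self (x := (r, ρ g • x.2)) hr
    let F : Fin n → Set Geo := fun r => sheet ρ h Λ r ∩ Prod.mk r ⁻¹' E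
    have hF : ∀ r, MeasurableSet (F r) := fun r => (hS r).inter (measurable_prodMk_left hE)
    refine ⟨⋃ x : Fin n × Γ, (fun l : Geo => ρ x.2 • l) ⁻¹' F x.1 ∪
      (fun l : Geo => ρ x.2 • l.rev) ⁻¹' F x.1, ⟨?_, fun g l hl => ?_, fun l hl => ?_⟩,
      fun x hx => ⟨fun k => ?_, fun k => ?_⟩⟩
    · exact MeasurableSet.iUnion fun x => (measurable_smul_geo _ (hF _)).union
        (((measurable_smul_geo _).comp measurable_rev) (hF _))
    · obtain ⟨x, k⟩ := mem_iUnion.1 hl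
      refine mem_iUnion.2 ⟨(x.1, x.2 * g⁻¹), ?_⟩
      simpa only [mem_union, mem_preimage, map_mul, map_inv, mul_smul, ← Geo.smul_rev,
        inv_smul_smul] using k
    · obtain ⟨x, k⟩ := mem_iUnion.1 hl
      exact mem_iUnion.2 ⟨x, k.symm⟩
    · exact mem_iUnion.2 ⟨(x.1, 1), Or.inl (by simpa [F] using ⟨hx, k⟩)⟩
    · obtain ⟨y, k | k⟩ := mem_iUnion.1 k
      · exact key x hx y.1 y.2 k.1 k.2
      · have hf := GSec_flag_of_mem (x := (y.1, ρ y.2 • x.2.rev)) k.1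
        have h3 := hJ hf (GSec_P_self (x := (y.1, ρ y.2 • x.2.rev)) k.1)
        have h4 := h3.mem hΛ (hf.rev hΛ)
        have h5 := (hJE _).2 k.2
        obtain ⟨g, -, h6⟩ := h3
        have h7 : (J (y.1, ρ y.2 • x.2.rev)).2 = ρ (g * y.2) • x.2 := by
          rw [h6, map_mul, mul_smul]
          rfl
        refine key x hx (J (y.1, ρ y.2 • x.2.rev)).1 (g * y.2) (h7 ▸ h4) ?_
        rw [← h7]
        exact h5

theorem IsSec.erg {T J : Fin n × Geo → Fin n × Geo} (hs : IsSec ρ h Λ T J) (hρ : Disc ρ)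
    (hΛ : Lam ρ Λ) {μ : Measure Geo} (he : Erg ρ μ) (E : Set (Fin n × Geo)) (hE : MeasurableSet E)
    (h1 : T ⁻¹' E = E) (h2 : J ⁻¹' E = E) :
    secM μ (sheet ρ h Λ) E = 0 ∨ secM μ (sheet ρ h Λ) Eᶜ = 0 := by
  obtain ⟨E', hE', hx⟩ := hs.sat E hE h1 h2
  rcases he E' hE' with k | k
  · left
    rw [secM_apply _ _ hE]
    exact Finset.sum_eq_zero fun r _ =>
      measure_mono_null (fun l hl => (hx (r, l) hl.2).1 hl.1) k
  · right
    rw [secM_apply _ _ hE.compl]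
    exact Finset.sum_eq_zero fun r _ =>
      measure_mono_null (fun l hl c => hl.1 ((hx (r, l) hl.2).2 c)) k

end HRT
end

-- merged part: Pool.Agent.Work.MP_35beee_gt.GDens
section
/-!
One-sided density points for mutually singular measures on the line.

Plan. Choose a compact `K ⊆ Icc a b` with `σ K = 0` and `ρ (Icc a b \ K)` small, and `δ` such
that the closed `2δ`-neighbourhood of `K` has small `σ`-measure. The set of `s` for which some
`h ≤ δ` violates the inequality on the right is open (the functions `(s, h) ↦ ρ (Ioo s (s+h))`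
are continuous: no atoms). A compact subset of the bad part of `K` is covered by finitely many
open intervals `I` inside the neighbourhood with `ε ρ I < σ I` (enlarge a bad interval slightly to
the left); from a finite family of open intervals one extracts a subfamily with the same union
that splits into two disjoint families. So `ε ρ (bad ∩ K) ≤ 2 σ (neighbourhood)`. The points `s`
with `ρ (Ioo s (s+h)) = 0` for some `h > 0` form a null set (countably many maximal null intervals;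
or: for rationals `p < q` with `ρ (Ioo p q) = 0` consider `sInf` of the null intervals ending at
`q`). Alternatively push `ρ + σ + volume` to Lebesgue measure by its distribution function and use
`IsUnifLocDoublingMeasure.ae_tendsto_measure_inter_div`. The left side follows by symmetry.
-/

namespace HRT

open Set Filter Topology MeasureTheory

/-- Rising sun inequality for compact sets. -/
theorem GDens_sun {ρ τ : Measure ℝ} (h0 : ∀ x, ρ {x} = 0) (c : ENNReal) {K : Set ℝ}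
    (hK : IsCompact K) (h : ∀ s ∈ K, ∃ y > s, c * ρ (Ioo s y) ≤ τ (Ioo s y)) :
    c * ρ K ≤ τ univ := by
  set T : Set ℝ := {x | c * ρ (K ∩ Iio x) ≤ τ (Iio x)} with hT
  have hne : T.Nonempty := by
    obtain ⟨m, hm⟩ := hK.bddBelow
    refine ⟨m, ?_⟩
    have : K ∩ Iio m = ∅ := eq_empty_of_forall_notMem fun x hx => not_lt.2 (hm hx.1) hx.2
    simp [hT, this]
  have hnb : ¬ BddAbove T := by
    intro hb
    obtain ⟨u, hu, hlim, huT⟩ := exists_seq_tendsto_sSup hne hb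
    set x := sSup T with hx
    have hxT : x ∈ T := by
      have e : K ∩ Iio x = ⋃ n, K ∩ Iio (u n) := by
        apply Subset.antisymm
        · intro z hz
          obtain ⟨n, hn⟩ := (hlim.eventually (lt_mem_nhds (show z < x from hz.2))).exists
          exact mem_iUnion.2 ⟨n, hz.1, hn⟩
        · exact iUnion_subset fun n => inter_subset_inter_right _
            (Iio_subset_Iio (le_csSup hb (huT n)))
      have hmono : Monotone fun n => K ∩ Iio (u n) := fun m n hmn =>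
        inter_subset_inter_right _ (Iio_subset_Iio (hu hmn))
      change c * ρ (K ∩ Iio x) ≤ τ (Iio x)
      rw [e, hmono.measure_iUnion, ENNReal.mul_iSup]
      exact iSup_le fun n => le_trans (huT n) (measure_mono (Iio_subset_Iio (le_csSup hb (huT n))))
    obtain ⟨y, hxy, hy⟩ : ∃ y > x, c * ρ (K ∩ Ico x y) ≤ τ (Ico x y) := by
      by_cases hxK : x ∈ K
      · obtain ⟨y, hxy, hy⟩ := h x hxK
        refine ⟨y, hxy, le_trans (mul_le_mul_right ?_ c) (hy.trans (measure_mono Ioo_subset_Ico_self))⟩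
        calc ρ (K ∩ Ico x y) ≤ ρ ({x} ∪ Ioo x y) := measure_mono fun z hz => by
              rcases eq_or_lt_of_le hz.2.1 with h1 | h1
              · exact Or.inl h1.symm
              · exact Or.inr ⟨h1, hz.2.2⟩
          _ ≤ ρ {x} + ρ (Ioo x y) := measure_union_le _ _
          _ = ρ (Ioo x y) := by rw [h0, zero_add]
      · obtain ⟨l, y, hxy, hsub⟩ := mem_nhds_iff_exists_Ioo_subset.1
          (hK.isClosed.isOpen_compl.mem_nhds hxK)
        refine ⟨y, hxy.2, ?_⟩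
        have : K ∩ Ico x y = ∅ := eq_empty_of_forall_notMem fun z hz =>
          hsub ⟨hxy.1.trans_le hz.2.1, hz.2.2⟩ hz.1
        simp [this]
    have hyT : y ∈ T := by
      have e : Iio y = Iio x ∪ Ico x y := (Iio_union_Ico_eq_Iio hxy.le).symm
      have hd : Disjoint (Iio x) (Ico x y) := disjoint_left.2 fun z hz hz' => not_lt.2 hz'.1 hz
      change c * ρ (K ∩ Iio y) ≤ τ (Iio y)
      rw [e, measure_union hd measurableSet_Ico, inter_union_distrib_left]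
      refine (mul_le_mul_right (measure_union_le _ _) c).trans ?_
      rw [mul_add]
      exact add_le_add hxT hy
    exact absurd (le_csSup hb hyT) (not_le.2 hxy)
  obtain ⟨m, hm⟩ := hK.bddAbove
  obtain ⟨x, hxT, hmx⟩ := not_bddAbove_iff.1 hnb m
  have e : K ∩ Iio x = K := inter_eq_left.2 fun z hz => (hm hz).trans_lt hmx
  have : c * ρ (K ∩ Iio x) ≤ τ (Iio x) := hxT
  rw [e] at this
  exact this.trans (measure_mono (subset_univ _))

theorem GDens_sun_left {ρ τ : Measure ℝ} (h0 : ∀ x, ρ {x} = 0) (c : ENNReal) {K : Set ℝ}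
    (hK : IsCompact K) (h : ∀ s ∈ K, ∃ y < s, c * ρ (Ioo y s) ≤ τ (Ioo y s)) :
    c * ρ K ≤ τ univ := by
  have hm : ∀ (μ : Measure ℝ) (S : Set ℝ), μ.map (MeasurableEquiv.neg ℝ) S = μ (-S) :=
    fun μ S => MeasurableEquiv.map_apply _ _
  have := GDens_sun (ρ := ρ.map (MeasurableEquiv.neg ℝ)) (τ := τ.map (MeasurableEquiv.neg ℝ))
    (fun x => by rw [hm, neg_singleton, h0]) c hK.neg (fun s hs => by
      obtain ⟨y, hy, hle⟩ := h (-s) hs
      refine ⟨-y, by linarith, ?_⟩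
      rw [hm, hm, neg_Ioo, neg_neg]
      exact hle)
  rwa [hm, hm, neg_neg, neg_univ] at this

theorem GDens_inner {ρ : Measure ℝ} [IsLocallyFiniteMeasure ρ] (c M : ENNReal) {B : Set ℝ}
    (hB : MeasurableSet B) (hfin : ρ B ≠ ⊤) (h : ∀ K ⊆ B, IsCompact K → c * ρ K ≤ M) :
    c * ρ B ≤ M := by
  rw [hB.measure_eq_iSup_isCompact_of_ne_top hfin]
  simp only [ENNReal.mul_iSup]
  exact iSup_le fun K => iSup_le fun hK => iSup_le fun hc => h K hK hc

theorem GDens_cdf (ρ : Measure ℝ) [IsLocallyFiniteMeasure ρ] [NullSingletonClass ρ] :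
    ∃ F : ℝ → ℝ, Continuous F ∧ ∀ s y, s ≤ y → ρ.real (Ioo s y) = F y - F s := by
  have hi : ∀ a b : ℝ, IntervalIntegrable (fun _ : ℝ => (1 : ℝ)) ρ a b :=
    fun a b => continuous_const.intervalIntegrable a b
  refine ⟨fun x => ∫ _ in (0 : ℝ)..x, (1 : ℝ) ∂ρ, intervalIntegral.continuous_primitive hi 0,
    fun s y hsy => ?_⟩
  rw [intervalIntegral.integral_interval_sub_left (hi _ _) (hi _ _),
    intervalIntegral.integral_of_le hsy, setIntegral_const, smul_eq_mul, mul_one]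
  exact measureReal_congr Ioo_ae_eq_Ioc

theorem GDens_meas {Φ : ℝ × ℝ → ℝ} (hΦ : Continuous Φ) (δ : ℝ) :
    MeasurableSet {s | ∃ u ∈ Ioc 0 δ, 0 ≤ Φ (s, u)} := by
  have e : {s | ∃ u ∈ Ioc 0 δ, 0 ≤ Φ (s, u)} = ⋃ n : ℕ, Prod.fst ''
      {p : ℝ × Icc (1 / ((n : ℝ) + 1)) δ | 0 ≤ Φ (p.1, p.2)} := by
    ext s
    simp only [mem_ofPred_eq, mem_iUnion, mem_image]
    constructor
    · rintro ⟨u, hu, h⟩
      obtain ⟨n, hn⟩ := exists_nat_one_div_lt hu.1
      exact ⟨n, (s, ⟨u, hn.le, hu.2⟩), h, rfl⟩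
    · rintro ⟨n, ⟨s', u⟩, h, rfl⟩
      exact ⟨u, ⟨lt_of_lt_of_le Nat.one_div_pos_of_nat u.2.1, u.2.2⟩, h⟩
  rw [e]
  refine MeasurableSet.iUnion fun n => IsClosed.measurableSet ?_
  refine isClosedMap_fst_of_compactSpace _ (isClosed_le continuous_const ?_)
  exact hΦ.comp (continuous_fst.prodMk (continuous_subtype_val.comp continuous_snd))

theorem exists_dens {ρ σ : Measure ℝ} [IsLocallyFiniteMeasure ρ] [IsLocallyFiniteMeasure σ]
    [NullSingletonClass ρ] [NullSingletonClass σ] (h : ρ ⟂ₘ σ) {ε η : ℝ} (hε : 0 < ε) (hη : 0 < η) (a b : ℝ) :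
    ∃ δ > 0, ∃ G : Set ℝ, MeasurableSet G ∧ ρ.real (Icc a b \ G) ≤ η ∧ ∀ s ∈ G, ∀ u ∈ Ioc 0 δ,
      0 < ρ.real (Ioo s (s + u)) ∧ σ.real (Ioo s (s + u)) ≤ ε * ρ.real (Ioo s (s + u)) ∧
        0 < ρ.real (Ioo (s - u) s) ∧ σ.real (Ioo (s - u) s) ≤ ε * ρ.real (Ioo (s - u) s) := by
  obtain ⟨A, hA, hρA, hσA⟩ := h
  have hη3 : 0 < η / 3 := by positivity
  have hIcc : ρ (Icc a b) ≠ ⊤ := isCompact_Icc.measure_lt_top.ne
  have hIA : ρ (Icc a b \ A) ≠ ⊤ := ne_top_of_le_ne_top hIcc (measure_mono sdiff_subset)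
  have hη4 : ENNReal.ofReal (η / 3) ≠ 0 := (ENNReal.ofReal_pos.2 hη3).ne'
  obtain ⟨K, hKA, hK, hKρ⟩ := (measurableSet_Icc.diff hA).exists_isCompact_sdiff_lt hIA hη4
  have hσK : σ K = 0 := measure_mono_null (fun x hx => (hKA hx).2) hσA
  have hlim := tendsto_measure_cthickening_of_isCompact (μ := σ) hK
  rw [hσK] at hlim
  have hpos : (0 : ENNReal) < ENNReal.ofReal ε * ENNReal.ofReal (η / 3) :=
    ENNReal.mul_pos (ENNReal.ofReal_pos.2 hε).ne' hη4
  obtain ⟨δ, hδV, hδ⟩ : ∃ δ, σ (Metric.cthickening δ K) <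
      ENNReal.ofReal ε * ENNReal.ofReal (η / 3) ∧ 0 < δ :=
    (((hlim.eventually (gt_mem_nhds hpos)).filter_mono nhdsWithin_le_nhds).and
      (self_mem_nhdsWithin (s := Ioi (0 : ℝ)))).exists
  obtain ⟨F, hF, hFρ⟩ := GDens_cdf ρ
  obtain ⟨F', hF', hFσ⟩ := GDens_cdf σ
  set B₁ : Set ℝ := {s | ∃ u ∈ Ioc 0 δ, 0 ≤ (fun p : ℝ × ℝ =>
    (F' (p.1 + p.2) - F' p.1) - ε * (F (p.1 + p.2) - F p.1)) (s, u)} with hB₁
  set B₂ : Set ℝ := {s | ∃ u ∈ Ioc 0 δ, 0 ≤ (fun p : ℝ × ℝ =>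
    (F' p.1 - F' (p.1 - p.2)) - ε * (F p.1 - F (p.1 - p.2))) (s, u)} with hB₂
  have m₁ : MeasurableSet B₁ := GDens_meas (Φ := fun p : ℝ × ℝ =>
    (F' (p.1 + p.2) - F' p.1) - ε * (F (p.1 + p.2) - F p.1)) (by fun_prop) δ
  have m₂ : MeasurableSet B₂ := GDens_meas (Φ := fun p : ℝ × ℝ =>
    (F' p.1 - F' (p.1 - p.2)) - ε * (F p.1 - F (p.1 - p.2))) (by fun_prop) δ
  have hconv : ∀ s y : ℝ, Ioo s y ⊆ Metric.cthickening δ K → s ≤ y →
      0 ≤ (F' y - F' s) - ε * (F y - F s) →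
      ENNReal.ofReal ε * ρ (Ioo s y) ≤ σ.restrict (Metric.cthickening δ K) (Ioo s y) := by
    intro s y hsub hsy hle
    rw [← hFρ s y hsy, ← hFσ s y hsy] at hle
    rw [Measure.restrict_eq_self _ hsub, ← ofReal_measureReal (μ := ρ) measure_Ioo_lt_top.ne,
      ← ofReal_measureReal (μ := σ) measure_Ioo_lt_top.ne, ← ENNReal.ofReal_mul hε.le]
    exact ENNReal.ofReal_le_ofReal (by linarith)
  have hfinK : ∀ B : Set ℝ, ρ (K ∩ B) ≠ ⊤ := fun B =>
    ne_top_of_le_ne_top hK.measure_lt_top.ne (measure_mono inter_subset_left)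
  have hcancel : ∀ B : Set ℝ, ENNReal.ofReal ε * ρ B ≤ σ.restrict (Metric.cthickening δ K) univ →
      ρ B ≤ ENNReal.ofReal (η / 3) := by
    intro B hB
    rw [Measure.restrict_apply_univ] at hB
    exact (ENNReal.mul_le_mul_iff_right (ENNReal.ofReal_pos.2 hε).ne' ENNReal.ofReal_ne_top).1
      (hB.trans hδV.le)
  have r₁ : ρ (K ∩ B₁) ≤ ENNReal.ofReal (η / 3) := by
    refine hcancel _ (GDens_inner _ _ (hK.measurableSet.inter m₁) (hfinK _) fun K' hK' hc => ?_)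
    refine GDens_sun measure_singleton _ hc fun s hs => ?_
    obtain ⟨hsK, u, hu, hle⟩ := hK' hs
    refine ⟨s + u, by linarith [hu.1], hconv _ _ (fun z hz => ?_) (by linarith [hu.1]) hle⟩
    refine Metric.mem_cthickening_of_dist_le z s δ K hsK ?_
    rw [Real.dist_eq, abs_le]
    constructor <;> linarith [hz.1, hz.2, hu.1, hu.2]
  have r₂ : ρ (K ∩ B₂) ≤ ENNReal.ofReal (η / 3) := by
    refine hcancel _ (GDens_inner _ _ (hK.measurableSet.inter m₂) (hfinK _) fun K' hK' hc => ?_)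
    refine GDens_sun_left measure_singleton _ hc fun s hs => ?_
    obtain ⟨hsK, u, hu, hle⟩ := hK' hs
    refine ⟨s - u, by linarith [hu.1], hconv _ _ (fun z hz => ?_) (by linarith [hu.1]) hle⟩
    refine Metric.mem_cthickening_of_dist_le z s δ K hsK ?_
    rw [Real.dist_eq, abs_le]
    constructor <;> linarith [hz.1, hz.2, hu.1, hu.2]
  refine ⟨δ, hδ, K \ (B₁ ∪ B₂), hK.measurableSet.diff (m₁.union m₂), ?_, fun s hs u hu => ?_⟩
  · have hsub : Icc a b \ (K \ (B₁ ∪ B₂)) ⊆ (A ∪ (Icc a b \ A) \ K) ∪ (K ∩ B₁ ∪ K ∩ B₂) := by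
      intro z hz
      by_cases hzK : z ∈ K
      · have : z ∈ B₁ ∪ B₂ := by
          by_contra hn
          exact hz.2 ⟨hzK, hn⟩
        exact Or.inr (this.imp (fun h => ⟨hzK, h⟩) fun h => ⟨hzK, h⟩)
      · by_cases hzA : z ∈ A
        · exact Or.inl (Or.inl hzA)
        · exact Or.inl (Or.inr ⟨⟨hz.1, hzA⟩, hzK⟩)
    have hle : ρ (Icc a b \ (K \ (B₁ ∪ B₂))) ≤ ENNReal.ofReal η := by
      refine (measure_mono hsub).trans ((measure_union_le _ _).trans ?_)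
      refine (add_le_add (measure_union_le _ _) (measure_union_le _ _)).trans ?_
      rw [hρA, zero_add]
      refine (add_le_add hKρ.le (add_le_add r₁ r₂)).trans ?_
      rw [← ENNReal.ofReal_add hη3.le hη3.le, ← ENNReal.ofReal_add hη3.le (by positivity)]
      exact ENNReal.ofReal_le_ofReal (by linarith)
    exact ENNReal.toReal_le_of_le_ofReal hη.le hle
  · have h1 : (F' (s + u) - F' s) - ε * (F (s + u) - F s) < 0 :=
      not_le.1 fun hle => hs.2 (Or.inl ⟨u, hu, hle⟩)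
    have h2 : (F' s - F' (s - u)) - ε * (F s - F (s - u)) < 0 :=
      not_le.1 fun hle => hs.2 (Or.inr ⟨u, hu, hle⟩)
    rw [← hFρ _ _ (by linarith [hu.1]), ← hFσ _ _ (by linarith [hu.1])] at h1 h2
    have p1 : 0 ≤ σ.real (Ioo s (s + u)) := measureReal_nonneg
    have p2 : 0 ≤ σ.real (Ioo (s - u) s) := measureReal_nonneg
    exact ⟨(mul_pos_iff_of_pos_left hε).1 (by linarith), by linarith,
      (mul_pos_iff_of_pos_left hε).1 (by linarith), by linarith⟩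

end HRT
end

-- merged part: Pool.Agent.Work.MP_35beee_gt.GGood
section
/-!
Good crossings: density points, away from the other lines, with long return times. Most points of
the cross-section are good.

Plan. Invariance: `Cur.xs_smul`, `Cur.xs_rev`, `xp_smul`, `smul_pt`, `xp_rev_left`, `pt_rev`.
`exists_good`: on each sheet (finitely many) treat the three conditions separately.
`DensAt`: `exists_dens` for `posM μ A`, `posM ν A`. `ClearAt`: the lines of `Z` meeting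
`pt A '' [-1, tl + 1]` are finitely many and each meets `A` at most once; the `δ`-neighbourhoods of
these finitely many parameters have small measure (no atoms). `FarAt`: if the condition fails for
`g` with `δ ≤ 1` then `g` moves `pt A s` by at most `N₀ + 1` (the point `pt l (xp l (g⁻¹ • A))` is
mapped to `pt A (xp A (g • l))`, `pt_xp`), so `g` lies in a finite set; for each such `g` the
measurable sets `{l ∈ sheet | Cross A (g • l) ∧ |xp A (g • l) - xp A l| ≤ 1/(k+1)}` decrease to the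
empty set (`eq_of_xp_eq`, `Gen.eq_one`, `smul_ne_rev`).
-/

namespace HRT

open Set Filter Topology Real MeasureTheory

variable {Γ : Type*} [Group Γ] {ρ : Γ →* Isom} {Λ : Set Geo} {μ ν : Measure Geo}

/-- `s` is a two-sided density point of `μ` against `ν` on `A`. -/
def DensAt (μ ν : Measure Geo) (ε δ : ℝ) (A : Geo) (s : ℝ) : Prop :=
  ∀ u ∈ Ioc 0 δ, 0 < μ.real (xs A (Ioo s (s + u))) ∧
    ν.real (xs A (Ioo s (s + u))) ≤ ε * μ.real (xs A (Ioo s (s + u))) ∧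
      0 < μ.real (xs A (Ioo (s - u) s)) ∧
        ν.real (xs A (Ioo (s - u) s)) ≤ ε * μ.real (xs A (Ioo (s - u) s))

/-- No other line of `Z` meets `A` near the parameter `s`. -/
def ClearAt (Z : Set Geo) (δ : ℝ) (A : Geo) (s : ℝ) : Prop :=
  ∀ C ∈ Z, C ≠ A → C ≠ A.rev → ∀ u ∈ Icc (s - δ) (s + δ), side C (pt A u).1 ≠ 0

/-- Returns of `l` close to its crossing with `A` take a long time. -/
def FarAt (ρ : Γ →* Isom) (δ N₀ : ℝ) (l A : Geo) : Prop :=
  ∀ g : Γ, g ≠ 1 → Cross A (ρ g • l) → |xp A (ρ g • l) - xp A l| ≤ δ →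
    N₀ ≤ |xp l (ρ g⁻¹ • A) - xp l A|

/-- Good crossings. -/
structure GoodSt (ρ : Γ →* Isom) (μ ν : Measure Geo) (Z : Set Geo) (ε δ N₀ : ℝ) (l A : Geo) :
    Prop where
  dens : DensAt μ ν ε δ A (xp A l)
  clear : ClearAt Z δ A (xp A l)
  far : FarAt ρ δ N₀ l A

variable {Z : Set Geo} {ε δ N₀ : ℝ} {l A : Geo}

theorem GGood_smul (hμ : Cur ρ μ) (g : Γ) (A : Geo) (a b : ℝ) :
    μ.real (xs (ρ g • A) (Ioo (a + sh (ρ g) A) (b + sh (ρ g) A))) = μ.real (xs A (Ioo a b)) := by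
  rw [Measure.real, hμ.xs_smul g A measurableSet_Ioo, preimage_add_const_Ioo,
    add_sub_cancel_right, add_sub_cancel_right, Measure.real]

theorem GGood_rev (hμ : Cur ρ μ) (A : Geo) (a b : ℝ) :
    μ.real (xs A.rev (Ioo (-b) (-a))) = μ.real (xs A (Ioo a b)) := by
  have e : (fun t : ℝ => -t) ⁻¹' Ioo (-b) (-a) = Ioo a b := by
    ext t
    simp only [mem_preimage, mem_Ioo, neg_lt_neg_iff]
    exact and_comm
  rw [Measure.real, hμ.xs_rev A measurableSet_Ioo, e, Measure.real]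

theorem DensAt.smul {s : ℝ} (h : DensAt μ ν ε δ A s) (hμ : Cur ρ μ) (hν : Cur ρ ν) (g : Γ) :
    DensAt μ ν ε δ (ρ g • A) (s + sh (ρ g) A) := by
  intro u hu
  have e1 : s + sh (ρ g) A + u = s + u + sh (ρ g) A := by ring
  have e2 : s + sh (ρ g) A - u = s - u + sh (ρ g) A := by ring
  rw [e1, e2, GGood_smul hμ, GGood_smul hν, GGood_smul hμ, GGood_smul hν]
  exact h u hu

theorem DensAt.rev {s : ℝ} (h : DensAt μ ν ε δ A s) (hμ : Cur ρ μ) (hν : Cur ρ ν) :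
    DensAt μ ν ε δ A.rev (-s) := by
  intro u hu
  have e1 : -s + u = -(s - u) := by ring
  have e2 : -s - u = -(s + u) := by ring
  rw [e1, e2, GGood_rev hμ, GGood_rev hν, GGood_rev hμ, GGood_rev hν]
  obtain ⟨h1, h2, h3, h4⟩ := h u hu
  exact ⟨h3, h4, h1, h2⟩

theorem ClearAt.smul {s : ℝ} (h : ClearAt Z δ A s) (hZ : ∀ (g : Γ), ∀ C ∈ Z, ρ g • C ∈ Z)
    (g : Γ) : ClearAt Z δ (ρ g • A) (s + sh (ρ g) A) := by
  intro C hC h1 h2 u hu
  have e : C = ρ g • (ρ g⁻¹ • C) := by rw [map_inv, smul_inv_smul]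
  have h3 := h (ρ g⁻¹ • C) (hZ _ C hC) (fun h0 => h1 (by rw [e, h0]))
    (fun h0 => h2 (by rw [e, h0, Geo.smul_rev])) (u - sh (ρ g) A)
    ⟨by linarith [hu.1], by linarith [hu.2]⟩
  rwa [← side_smul_pt (ρ g), ← e, smul_pt, sub_add_cancel] at h3

theorem ClearAt.rev {s : ℝ} (h : ClearAt Z δ A s) : ClearAt Z δ A.rev (-s) := by
  intro C hC h1 h2 u hu
  rw [pt_rev]
  exact h C hC h2 h1 (-u) ⟨by linarith [hu.2], by linarith [hu.1]⟩

theorem ClearAt.subset {s : ℝ} (h : ClearAt Z δ A s) {Z' : Set Geo} (hZ : Z' ⊆ Z) :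
    ClearAt Z' δ A s := fun C hC => h C (hZ hC)

theorem GoodSt.mono (h : GoodSt ρ μ ν Z ε δ N₀ l A) {δ' : ℝ} (hδ : δ' ≤ δ) :
    GoodSt ρ μ ν Z ε δ' N₀ l A :=
  ⟨fun u hu => h.dens u ⟨hu.1, hu.2.trans hδ⟩,
    fun C hC h1 h2 u hu => h.clear C hC h1 h2 u ⟨by linarith [hu.1], by linarith [hu.2]⟩,
    fun g hg hc h1 => h.far g hg hc (h1.trans hδ)⟩

theorem GGood_cross {g : Γ} (h : Cross A (ρ g • l)) : Cross l (ρ g⁻¹ • A) := by
  rw [← cross_smul (ρ g), map_inv, smul_inv_smul]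
  exact h.symm

theorem GoodSt.smul (h : GoodSt ρ μ ν Z ε δ N₀ l A) (hμ : Cur ρ μ) (hν : Cur ρ ν)
    (hZ : ∀ (g : Γ), ∀ C ∈ Z, ρ g • C ∈ Z) (hc : Cross A l) (g : Γ) :
    GoodSt ρ μ ν Z ε δ N₀ (ρ g • l) (ρ g • A) := by
  refine ⟨?_, ?_, fun k hk h1 h2 => ?_⟩
  · rw [xp_smul _ hc]
    exact h.dens.smul hμ hν g
  · rw [xp_smul _ hc]
    exact h.clear.smul hZ g
  · have e1 : ρ k • ρ g • l = ρ g • ρ (g⁻¹ * k * g) • l := by
      rw [← mul_smul, ← mul_smul, ← map_mul, ← map_mul]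
      congr 2
      group
    have e2 : ρ k⁻¹ • ρ g • A = ρ g • ρ (g⁻¹ * k * g)⁻¹ • A := by
      rw [← mul_smul, ← mul_smul, ← map_mul, ← map_mul]
      congr 2
      group
    have hk' : g⁻¹ * k * g ≠ 1 := fun h0 => hk (by
      have : k = g * (g⁻¹ * k * g) * g⁻¹ := by group
      rw [this, h0, mul_one, mul_inv_cancel])
    rw [e1, cross_smul] at h1
    rw [e1, xp_smul _ h1, xp_smul _ hc, add_sub_add_right_eq_sub] at h2
    rw [e2, xp_smul _ (GGood_cross h1), xp_smul _ hc.symm, add_sub_add_right_eq_sub]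
    exact h.far _ hk' h1 h2

theorem GoodSt.rev (h : GoodSt ρ μ ν Z ε δ N₀ l A) (hμ : Cur ρ μ) (hν : Cur ρ ν)
    (hc : Cross A l) : GoodSt ρ μ ν Z ε δ N₀ l.rev A.rev := by
  refine ⟨?_, ?_, fun k hk h1 h2 => ?_⟩
  · rw [xp_rev_right, xp_rev_left hc]
    exact h.dens.rev hμ hν
  · rw [xp_rev_right, xp_rev_left hc]
    exact h.clear.rev
  · rw [Geo.smul_rev, cross_rev_left, cross_rev_right] at h1
    rw [Geo.smul_rev, xp_rev_right, xp_rev_right, xp_rev_left h1, xp_rev_left hc, neg_sub_neg,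
      abs_sub_comm] at h2
    rw [Geo.smul_rev, xp_rev_right, xp_rev_right, xp_rev_left (GGood_cross h1),
      xp_rev_left hc.symm, neg_sub_neg, abs_sub_comm]
    exact h.far k hk h1 h2

theorem GGood_meas_xp (A : Geo) : Measurable (xp A) := by
  have h : ∀ {f : Geo → V}, Continuous f → Measurable fun m => fer A (f m) := fun hf =>
    (((hf.B' continuous_const).measurable.div (hf.B' continuous_const).measurable).log).div_const 2
  exact ((h GFermi_cs).add (h GFermi_ct)).div_const 2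

theorem GGood_dens (hΛ : Lam ρ Λ) (hμ : Cur ρ μ) (hν : Cur ρ ν) [NullSingletonClass μ]
    [NullSingletonClass ν] (h0 : μ Λᶜ = 0) (h0' : ν Λᶜ = 0) (hs : μ ⟂ₘ ν) (hε : 0 < ε) {η : ℝ}
    (hη : 0 < η) {S : Set Geo} {a b : ℝ} (hS : S ⊆ xs A (Icc a b)) :
    ∀ᶠ δ in 𝓝[>] (0 : ℝ), ∃ Bad : Set Geo, MeasurableSet Bad ∧ μ (Bad ∩ S) ≤ ENNReal.ofReal η ∧
      ∀ l ∈ S, l ∉ Bad → DensAt μ ν ε δ A (xp A l) := by
  have := hμ.posM_locFin A
  have := hν.posM_locFin A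
  have := hΛ.posM_noAtoms h0 A
  have := hΛ.posM_noAtoms h0' A
  obtain ⟨δ₀, hδ₀, G, hG, h1, h2⟩ := exists_dens (hΛ.posM_singular h0 h0' hs A) hε hη a b
  filter_upwards [Ioc_mem_nhdsGT hδ₀] with δ hδ
  refine ⟨xs A Gᶜ, measurableSet_xs A hG.compl, ?_, fun l hl hB u hu => ?_⟩
  · have h3 : xs A Gᶜ ∩ S ⊆ xs A (Icc a b \ G) :=
      fun l hl => ⟨hl.1.1, hl.1.2.1, (hS hl.2).2.2, hl.1.2.2⟩
    refine (measure_mono h3).trans ?_
    rw [← posM_apply μ A (measurableSet_Icc.diff hG)]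
    exact (ENNReal.le_ofReal_iff_toReal_le
      ((measure_mono sdiff_subset).trans_lt measure_Icc_lt_top).ne hη.le).mpr h1
  · have h3 : xp A l ∈ G := by
      by_contra h4
      exact hB ⟨(hS hl).1, (hS hl).2.1, h4⟩
    have h4 := h2 _ h3 u ⟨hu.1, hu.2.trans hδ.2⟩
    simp only [Measure.real, posM_apply _ A measurableSet_Ioo] at h4
    exact h4

theorem GGood_fin (hZ : ∀ (p : Pt) (R : ℝ), {C ∈ Z | |side C p.1| ≤ R}.Finite) (A : Geo)
    (a b : ℝ) :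
    {u ∈ Icc a b | ∃ C ∈ Z, C ≠ A ∧ C ≠ A.rev ∧ side C (pt A u).1 = 0}.Finite := by
  refine ((hZ (pt A a) (sinh (b - a))).image (xp A)).subset ?_
  rintro u ⟨hu, C, hC, h1, h2, h3⟩
  refine ⟨C, ⟨hC, ?_⟩, ((side_pt_eq_zero_iff (cross_of_common (side_pt A u) h3 h1 h2) u).mp h3).symm⟩
  have h4 := abs_arsinh_side_le C (pt A a) (pt A u)
  rw [h3, arsinh_zero, sub_zero, dist_pt, abs_sub_comm, abs_of_nonneg (sub_nonneg.mpr hu.1)] at h4
  rw [← sinh_arsinh (side C (pt A a).1), abs_sinh]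
  exact sinh_le_sinh.mpr (h4.trans (by linarith [hu.2]))

theorem GGood_clear (hΛ : Lam ρ Λ) (hμ : Cur ρ μ) [NullSingletonClass μ] (h0 : μ Λᶜ = 0)
    (hZ : ∀ (p : Pt) (R : ℝ), {C ∈ Z | |side C p.1| ≤ R}.Finite) {η : ℝ}
    (hη : 0 < η) {S : Set Geo} {a b : ℝ} (hS : S ⊆ xs A (Icc a b)) :
    ∀ᶠ δ in 𝓝[>] (0 : ℝ), ∃ Bad : Set Geo, MeasurableSet Bad ∧ μ (Bad ∩ S) ≤ ENNReal.ofReal η ∧
      ∀ l ∈ S, l ∉ Bad → ClearAt Z δ A (xp A l) := by
  have := hμ.posM_locFin A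
  have := hΛ.posM_noAtoms h0 A
  have hT := GGood_fin hZ A (a - 1) (b + 1)
  have h1 := tendsto_measure_cthickening_of_isCompact (μ := posM μ A) hT.isCompact
  rw [hT.measure_zero] at h1
  have h2 := (h1.mono_left (nhdsWithin_le_nhds (s := Ioi 0))).eventually
    (Iic_mem_nhds (ENNReal.ofReal_pos.mpr hη))
  filter_upwards [h2, Ioc_mem_nhdsGT (one_pos (α := ℝ))] with δ h3 hδ
  have hm := (Metric.isClosed_cthickening (δ := δ) (E := {u ∈ Icc (a - 1) (b + 1) |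
    ∃ C ∈ Z, C ≠ A ∧ C ≠ A.rev ∧ side C (pt A u).1 = 0})).measurableSet
  refine ⟨_, measurableSet_xs A hm, (measure_mono inter_subset_left).trans ?_,
    fun l hl hB C hC h4 h5 u hu h6 => hB ⟨(hS hl).1, (hS hl).2.1, ?_⟩⟩
  · rw [← posM_apply μ A hm]
    exact h3
  · have h7 := (hS hl).2.2
    refine Metric.mem_cthickening_of_dist_le _ u _ _
      ⟨⟨by linarith [hu.1, h7.1, hδ.2], by linarith [hu.2, h7.2, hδ.2]⟩, C, hC, h4, h5, h6⟩ ?_
    rw [Real.dist_eq, abs_le]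
    exact ⟨by linarith [hu.2], by linarith [hu.1]⟩

theorem GGood_dist {g : Γ} (hc : Cross A l) (h1 : Cross A (ρ g • l)) :
    dist (pt A (xp A l)) (ρ g • pt A (xp A l)) ≤
      |xp A (ρ g • l) - xp A l| + |xp l (ρ g⁻¹ • A) - xp l A| := by
  have e : ρ g • pt l (xp l (ρ g⁻¹ • A)) = pt A (xp A (ρ g • l)) := by
    rw [smul_pt, ← xp_smul _ (GGood_cross h1), map_inv, smul_inv_smul, pt_xp h1]
  refine (dist_triangle _ (pt A (xp A (ρ g • l))) _).trans (add_le_add (le_of_eq ?_) (le_of_eq ?_))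
  · rw [dist_pt, abs_sub_comm]
  · rw [← e, dist_smul, pt_xp hc, dist_pt]

theorem GGood_far (hρ : Disc ρ) (hΛ : Lam ρ Λ) (hμ : Cur ρ μ) (N₀ : ℝ) {η : ℝ} (hη : 0 < η)
    {S : Set Geo} (hm : MeasurableSet S) {a b : ℝ} (hS : S ⊆ xs A (Icc a b)) (hS' : S ⊆ Λ)
    (hg : ∀ l ∈ S, ∀ g : Γ, ρ g • l = l → g = 1) :
    ∀ᶠ δ in 𝓝[>] (0 : ℝ), ∃ Bad : Set Geo, MeasurableSet Bad ∧ μ (Bad ∩ S) ≤ ENNReal.ofReal η ∧
      ∀ l ∈ S, l ∉ Bad → FarAt ρ δ N₀ l A := by
  have hF := (hρ.proper (pt A a) (2 * (b - a) + (1 + N₀))).subset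
    (sdiff_subset (t := {1}))
  obtain ⟨P, hP⟩ : ∃ P : Γ → ℝ → Set Geo,
      P = fun g δ => {l | Cross A (ρ g • l) ∧ |xp A (ρ g • l) - xp A l| ≤ δ} := ⟨_, rfl⟩
  have hPm : ∀ g δ, MeasurableSet (P g δ) := by
    intro g δ
    rw [hP]
    refine MeasurableSet.inter (isOpen_cross.preimage
      (continuous_const.prodMk (continuous_const_smul (ρ g)))).measurableSet ?_
    exact measurableSet_le (continuous_abs.measurable.comp
      (((GGood_meas_xp A).comp (measurable_smul_geo (ρ g))).sub (GGood_meas_xp A))) measurable_const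
  have hfin : μ S < ⊤ := (measure_mono hS).trans_lt (hμ.xs_lt_top A (Metric.isBounded_Icc a b))
  have h1 : ∀ g : Γ, g ≠ 1 → Tendsto (fun δ => μ (P g δ ∩ S)) (𝓝[>] 0) (𝓝 0) := by
    intro g hg1
    have h2 := tendsto_measure_biInter_gt (μ := μ) (s := fun δ : ℝ => P g δ ∩ S) (a := 0)
      (fun δ _ => ((hPm g δ).inter hm).nullMeasurableSet)
      (fun i j _ hij l hl => by
        rw [hP] at hl ⊢
        exact ⟨⟨hl.1.1, hl.1.2.trans hij⟩, hl.2⟩)
      ⟨1, one_pos, ((measure_mono inter_subset_right).trans_lt hfin).ne⟩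
    have h3 : ⋂ δ > (0 : ℝ), P g δ ∩ S = ∅ := by
      refine eq_empty_of_forall_notMem fun l hl => ?_
      simp only [mem_iInter, hP, mem_inter_iff, mem_ofPred_eq] at hl
      obtain ⟨⟨hc, -⟩, hlS⟩ := hl 1 one_pos
      have h4 : xp A l = xp A (ρ g • l) :=
        (sub_eq_zero.mp (abs_nonpos_iff.mp (le_of_forall_pos_le_add fun δ hδ => by
          rw [zero_add]
          exact (hl δ hδ).1.2))).symm
      have h5 : l ∈ xs A univ := xs_mono A (subset_univ _) (hS hlS)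
      have h6 := hΛ.nc l (hS' hlS) _ (hΛ.smul g l (hS' hlS))
      rcases hc.mem_xs with h7 | h7
      · exact hg1 (hg l hlS g (eq_of_xp_eq h5 h7 h6 h4).symm)
      · have h8 := eq_of_xp_eq h5 h7 (by rwa [cross_rev_right]) (by rwa [xp_rev_right])
        exact hρ.smul_ne_rev g l (by conv_rhs => rw [h8, Geo.rev_rev])
    rw [h3, measure_empty] at h2
    exact h2
  have h2 := tendsto_finsetSum hF.toFinset fun g hg => h1 g (hF.mem_toFinset.mp hg).2
  rw [Finset.sum_const_zero] at h2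
  filter_upwards [h2.eventually (Iic_mem_nhds (ENNReal.ofReal_pos.mpr hη)),
    Ioc_mem_nhdsGT (one_pos (α := ℝ))] with δ h3 hδ
  refine ⟨⋃ g ∈ hF.toFinset, P g δ, Finset.measurableSet_biUnion _ fun g _ => hPm g δ, ?_,
    fun l hl hB g hg1 hc h4 => ?_⟩
  · rw [iUnion₂_inter]
    exact (measure_biUnion_finset_le _ _).trans h3
  · by_contra h5
    refine hB (mem_iUnion₂.mpr ⟨g, hF.mem_toFinset.mpr ⟨?_, hg1⟩, by rw [hP]; exact ⟨hc, h4⟩⟩)
    have h6 := GGood_dist (xs_cross (hS hl)) hc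
    have h7 := (hS hl).2.2
    have h8 : dist (pt A a) (pt A (xp A l)) ≤ b - a := by
      rw [dist_pt, abs_sub_comm, abs_of_nonneg (sub_nonneg.mpr h7.1)]
      linarith [h7.2]
    have h9 := dist_triangle4 (pt A a) (pt A (xp A l)) (ρ g • pt A (xp A l)) (ρ g • pt A a)
    rw [dist_smul, dist_comm (pt A (xp A l)) (pt A a)] at h9
    show dist (pt A a) (ρ g • pt A a) ≤ 2 * (b - a) + (1 + N₀)
    linarith [hδ.2, not_le.mp h5]

theorem exists_good {n : ℕ} {h : Fin n → Γ} (hρ : Disc ρ) (hΛ : Lam ρ Λ) (hμ : Cur ρ μ)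
    (hν : Cur ρ ν) [NullSingletonClass μ] [NullSingletonClass ν] (h0 : μ Λᶜ = 0) (h0' : ν Λᶜ = 0)
    (hs : μ ⟂ₘ ν) (hZ : ∀ (p : Pt) (R : ℝ), {C ∈ Z | |side C p.1| ≤ R}.Finite) (hε : 0 < ε)
    (N₀ : ℝ) {η : ℝ} (hη : 0 < η) : ∃ δ > 0, ∃ G : Set (Fin n × Geo), MeasurableSet G ∧
      (secM μ (sheet ρ h Λ)).real Gᶜ ≤ η ∧ ∀ x ∈ G, x.2 ∈ sheet ρ h Λ x.1 →
        GoodSt ρ μ ν Z ε δ N₀ x.2 (ax (ρ (h x.1))) := by
  have hη' : 0 < η / (3 * (n + 1)) := by positivity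
  have key : ∀ r : Fin n, ∀ᶠ δ in 𝓝[>] (0 : ℝ), ∃ Bad : Set Geo, MeasurableSet Bad ∧
      μ (Bad ∩ sheet ρ h Λ r) ≤ ENNReal.ofReal (η / (n + 1)) ∧
      ∀ l ∈ sheet ρ h Λ r, l ∉ Bad → GoodSt ρ μ ν Z ε δ N₀ l (ax (ρ (h r))) := by
    intro r
    have hS : sheet ρ h Λ r ⊆ xs (ax (ρ (h r))) (Icc 0 (tl (ρ (h r)))) :=
      fun l hl => xs_mono _ Ico_subset_Icc_self hl.2.2
    filter_upwards [GGood_dens hΛ hμ hν h0 h0' hs hε hη' hS, GGood_clear hΛ hμ h0 hZ hη' hS,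
      GGood_far hρ hΛ hμ N₀ hη' (measurableSet_sheet hρ hΛ r) hS (fun l hl => hl.1)
        (fun l hl g hg => hl.2.1.eq_one hg)] with δ ⟨B1, m1, k1, p1⟩ ⟨B2, m2, k2, p2⟩
        ⟨B3, m3, k3, p3⟩
    refine ⟨B1 ∪ B2 ∪ B3, (m1.union m2).union m3, ?_, fun l hl hB =>
      ⟨p1 l hl fun hb => hB (Or.inl (Or.inl hb)), p2 l hl fun hb => hB (Or.inl (Or.inr hb)),
        p3 l hl fun hb => hB (Or.inr hb)⟩⟩
    rw [union_inter_distrib_right, union_inter_distrib_right]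
    refine (measure_union_le _ _).trans ((add_le_add ((measure_union_le _ _).trans
      (add_le_add k1 k2)) k3).trans (le_of_eq ?_))
    rw [← ENNReal.ofReal_add hη'.le hη'.le, ← ENNReal.ofReal_add (by positivity) hη'.le]
    congr 1
    field_simp
    ring
  obtain ⟨δ, hδ1, hδ⟩ := ((eventually_all.mpr key).and self_mem_nhdsWithin).exists
  choose Bad hm hk hp using hδ1
  have hG : MeasurableSet {x : Fin n × Geo | x.2 ∈ Bad x.1} := by
    have e : {x : Fin n × Geo | x.2 ∈ Bad x.1} = ⋃ r, {r} ×ˢ Bad r := by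
      ext x
      simp only [mem_ofPred_eq, mem_iUnion, mem_prod, mem_singleton_iff, exists_eq_left']
    rw [e]
    exact MeasurableSet.iUnion fun r => (measurableSet_singleton r).prod (hm r)
  refine ⟨δ, hδ, {x | x.2 ∈ Bad x.1}ᶜ, hG.compl, ?_, fun x hx hx' => hp x.1 x.2 hx' hx⟩
  rw [compl_compl, Measure.real, secM_apply _ _ hG]
  refine ENNReal.toReal_le_of_le_ofReal hη.le ((Finset.sum_le_sum fun r _ => hk r).trans ?_)
  rw [← ENNReal.ofReal_sum_of_nonneg fun _ _ => by positivity]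
  refine ENNReal.ofReal_le_ofReal ?_
  rw [Finset.sum_const, Finset.card_univ, Fintype.card_fin, nsmul_eq_mul, mul_div_assoc',
    div_le_iff₀ (by positivity)]
  nlinarith

end HRT
end

-- merged part: Pool.Agent.Work.MP_35beee_gt.GLeaf
section
/-!
Long generic leaf segments with few bad times.

Plan. Let `T`, `J` be given by `exists_isSec`, `m = secM μ (sheet ρ h Λ)`, `m.real univ = tot μ ρ h`
(`measure_sheet`), and `f r x = 1` if `h x.1` is conjugate to `h r` or to its inverse, else `0`;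
`∫ f r = 2 * ic μ (h r)` (`Arr.uniq`, `Arr.inv`, `ic_conj`, `ic_inv`; `h r` is not conjugate to its
inverse by `smul_ne_rev`). If `μ` is ergodic choose `M` (`tendsto_avg_of_flip`, `IsSec.erg`) such
that `F₁ = ∑ r, |average of f r over M steps - c r|` has integral `≤ η * tot`; otherwise `F₁ = 0`.
Take `G` from `exists_good` and apply `exists_sum_le` to `F₁ + indicator Gᶜ`, avoiding the null set
of points off the section or with `x.2 ∉ E`. `Bad` is the set of times `t` with `T^[t] x ∉ G` or in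
the exceptional set of `card_sun_le` (with the threshold `θ`); take `η` with `2η + 2η/θ ≤ θ`.
`IsSec.iter` and `GoodSt.smul` transport goodness to `(l, e t)`, and `f r (T^[t] x) = 1` iff
`e t ∈ lifts ρ fun _ => h r`. Finish with `abs_sum_sub_le`.
-/

namespace HRT

open Set Filter Topology Real MeasureTheory

variable {Γ : Type*} [Group Γ] {ρ : Γ →* Isom} {Λ : Set Geo} {μ ν : Measure Geo}

/-- The total mass of the cross-section. -/
noncomputable def tot (μ : Measure Geo) (ρ : Γ →* Isom) {n : ℕ} (h : Fin n → Γ) : ℝ :=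
  ∑ r, ic μ (ρ (h r))

open Classical in
theorem GLeaf_real {n : ℕ} {h : Fin n → Γ} (hρ : Disc ρ) (hΛ : Lam ρ Λ) (hμ : Cur ρ μ)
    [NullSingletonClass μ] (h0 : μ Λᶜ = 0) (S : Set (Fin n)) :
    (secM μ (sheet ρ h Λ)).real (Prod.fst ⁻¹' S) = ∑ r, if r ∈ S then ic μ (ρ (h r)) else 0 := by
  have hfin : ∀ r, μ (sheet ρ h Λ r) ≠ ⊤ := fun r =>
    ((measure_mono fun l hl => hl.2.2).trans_lt (hμ.xs_lt_top _ (Metric.isBounded_Ico _ _))).ne
  rw [measureReal_def, secM_apply _ _ (measurable_fst (MeasurableSet.of_discrete)),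
    ENNReal.toReal_sum fun r _ => ne_top_of_le_ne_top (hfin r) (measure_mono inter_subset_right)]
  refine Finset.sum_congr rfl fun r _ => ?_
  split_ifs with hr
  · have h1 : Prod.mk r ⁻¹' (Prod.fst ⁻¹' S) ∩ sheet ρ h Λ r = sheet ρ h Λ r :=
      inter_eq_right.2 fun _ _ => hr
    rw [← hμ.measure_sheet hρ hΛ h0 r, measureReal_def, h1]
  · have h1 : Prod.mk r ⁻¹' (Prod.fst ⁻¹' S) ∩ sheet ρ h Λ r = ∅ :=
      eq_empty_of_forall_notMem fun _ hl => hr hl.1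
    rw [h1, measure_empty, ENNReal.toReal_zero]

theorem GLeaf_tot {n : ℕ} {h : Fin n → Γ} (hρ : Disc ρ) (hΛ : Lam ρ Λ) (hμ : Cur ρ μ)
    [NullSingletonClass μ] (h0 : μ Λᶜ = 0) : (secM μ (sheet ρ h Λ)).real univ = tot μ ρ h := by
  simpa [tot] using GLeaf_real (h := h) hρ hΛ hμ h0 univ

theorem tot_pos {n : ℕ} {h : Fin n → Γ} {D : ℝ} (hρ : Disc ρ) (hΛ : Lam ρ Λ) (ha : Arr ρ h)
    (hD : Fill ρ h Λ D) (hμ : Cur ρ μ) [NullSingletonClass μ] (h0 : μ Λᶜ = 0) (hne : μ ≠ 0) :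
    0 < tot μ ρ h := by
  have := hμ.isFiniteMeasure_secM (h := h) (Λ := Λ)
  rw [← GLeaf_tot hρ hΛ hμ h0]
  exact ENNReal.toReal_pos (Measure.measure_univ_ne_zero.2 (hμ.secM_ne_zero hρ hΛ ha hD h0 hne))
    (measure_ne_top _ _)

theorem GLeaf_smul_iff {ι : Type} {h : ι → Γ} (g : Γ) (A : Geo) :
    ρ g • A ∈ lifts ρ h ↔ A ∈ lifts ρ h := by
  refine ⟨fun H => ?_, smul_mem_lifts g⟩
  have := smul_mem_lifts g⁻¹ H
  rwa [map_inv, inv_smul_smul] at this

theorem GLeaf_rev_iff {ι : Type} {h : ι → Γ} (A : Geo) : A.rev ∈ lifts ρ h ↔ A ∈ lifts ρ h :=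
  ⟨fun H => A.rev_rev ▸ rev_mem_lifts H, rev_mem_lifts⟩

theorem GLeaf_ax {g k : Γ} (hg : Hyp (ρ g)) (hc : IsConj g⁻¹ k) :
    ∃ c : Γ, k = c * g⁻¹ * c⁻¹ ∧ ax (ρ k) = ρ c • (ax (ρ g)).rev := by
  obtain ⟨c, rfl⟩ := isConj_iff.1 hc
  have hg' : Hyp (ρ g⁻¹) := by
    rw [map_inv]
    exact hg.inv
  exact ⟨c, rfl, by rw [ax_conj' hg', map_inv, hg.ax_inv]⟩

open Classical in
/-- The indicator of the two sheets of an unoriented curve. -/
noncomputable def GLeafF (ρ : Γ →* Isom) {n : ℕ} (h : Fin n → Γ) (r : Fin n) (x : Fin n × Geo) :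
    ℝ := if ax (ρ (h x.1)) ∈ lifts ρ fun _ : Unit => h r then 1 else 0

theorem GLeaf_meas {n : ℕ} (h : Fin n → Γ) (r : Fin n) : Measurable (GLeafF ρ h r) := by
  classical
  exact (Measurable.of_discrete (f := fun r' : Fin n =>
    if ax (ρ (h r')) ∈ lifts ρ fun _ : Unit => h r then (1 : ℝ) else 0)).comp measurable_fst

theorem GLeaf_abs {n : ℕ} (h : Fin n → Γ) (r : Fin n) (x : Fin n × Geo) :
    |GLeafF ρ h r x| ≤ 1 := by
  unfold GLeafF
  split_ifs <;> simp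

theorem GLeaf_int {n : ℕ} {h : Fin n → Γ} (hρ : Disc ρ) (hΛ : Lam ρ Λ) (ha : Arr ρ h)
    (hμ : Cur ρ μ) [NullSingletonClass μ] (h0 : μ Λᶜ = 0) (r : Fin n) :
    ∫ x, GLeafF ρ h r x ∂secM μ (sheet ρ h Λ) = 2 * ic μ (ρ (h r)) := by
  classical
  obtain ⟨r', hr'⟩ := ha.inv r
  obtain ⟨c, h1, h2⟩ := GLeaf_ax (ha.hyp r) hr'
  have h3 : (ax (ρ (h r))).rev = ρ c⁻¹ • ax (ρ (h r')) := by rw [h2, map_inv, inv_smul_smul]
  have hne : r ≠ r' := by
    rintro rfl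
    exact hρ.smul_ne_rev c⁻¹ _ h3.symm
  have h4 : ∀ s, (ax (ρ (h s)) ∈ lifts ρ fun _ : Unit => h r) ↔ s ∈ ({r, r'} : Finset (Fin n)) := by
    intro s
    rw [Finset.mem_insert, Finset.mem_singleton]
    constructor
    · rintro ⟨_, g, h5 | h5⟩
      · exact Or.inl (ha.label_unique hρ h5.symm).1.symm
      · rw [← Geo.smul_rev, h3, ← mul_smul, ← map_mul] at h5
        exact Or.inr (ha.label_unique hρ h5.symm).1.symm
    · rintro (rfl | rfl)
      · exact ax_mem_lifts (h := fun _ : Unit => h s) ()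
      · rw [h2, GLeaf_smul_iff, GLeaf_rev_iff]
        exact ax_mem_lifts (h := fun _ : Unit => h r) ()
  have h6 : GLeafF ρ h r =
      (Prod.fst ⁻¹' (({r, r'} : Finset (Fin n)) : Set (Fin n))).indicator 1 := by
    funext x
    simp only [GLeafF, h4, indicator, mem_preimage, Finset.mem_coe, Pi.one_apply]
  rw [h6, integral_indicator_one (measurable_fst MeasurableSet.of_discrete),
    GLeaf_real hρ hΛ hμ h0]
  simp only [Finset.mem_coe]
  rw [Finset.sum_ite_mem, Finset.univ_inter, Finset.sum_pair hne, h1, hμ.ic_conj, hμ.ic_inv,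
    two_mul]

theorem GLeaf_avg {X : Type*} [MeasurableSpace X] {m : Measure X} [IsFiniteMeasure m]
    {T : X → X} (hT : Measurable T) {ι : Type*} [Fintype ι] {f : ι → X → ℝ}
    (hf : ∀ r, Measurable (f r)) (hb : ∀ r x, |f r x| ≤ 1) (c : ι → ℝ) {P : Prop}
    (hP : P → ∀ r, Tendsto (fun M : ℕ => ∫ x, |(∑ t ∈ Finset.range M, f r (T^[t] x)) / M - c r| ∂m)
      atTop (𝓝 0)) {η : ℝ} (hη : 0 < η) : ∃ M : ℕ, 0 < M ∧ ∃ F : X → ℝ, Measurable F ∧
      (∀ x, 0 ≤ F x) ∧ (∃ C, ∀ x, |F x| ≤ C) ∧ ∫ x, F x ∂m ≤ η ∧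
        (P → ∀ r x, |(∑ t ∈ Finset.range M, f r (T^[t] x)) / M - c r| ≤ F x) := by
  by_cases hp : P
  swap
  · exact ⟨1, one_pos, fun _ => 0, measurable_const, fun _ => le_rfl, ⟨0, fun _ => by simp⟩,
      by simpa using hη.le, fun h => absurd h hp⟩
  have h1 := tendsto_finsetSum Finset.univ fun r _ => hP hp r
  rw [Finset.sum_const_zero] at h1
  obtain ⟨M, hM, hM'⟩ := ((eventually_gt_atTop 0).and (h1.eventually (ge_mem_nhds hη))).exists
  have hm : ∀ r, Measurable fun x => |(∑ t ∈ Finset.range M, f r (T^[t] x)) / M - c r| := fun r =>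
    (((Finset.measurable_sum _ fun t _ => (hf r).comp (hT.iterate t)).div_const _).sub_const _).abs
  have hbd : ∀ r x, |(∑ t ∈ Finset.range M, f r (T^[t] x)) / M - c r| ≤ 1 + |c r| := by
    intro r x
    refine (abs_sub _ _).trans (add_le_add ?_ le_rfl)
    rw [abs_div, Nat.abs_cast, div_le_one (Nat.cast_pos.2 hM)]
    refine (Finset.abs_sum_le_sum_abs _ _).trans ?_
    simpa using Finset.sum_le_card_nsmul (Finset.range M) _ 1 fun t _ => hb r (T^[t] x)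
  refine ⟨M, hM, fun x => ∑ r, |(∑ t ∈ Finset.range M, f r (T^[t] x)) / M - c r|,
    Finset.measurable_sum _ fun r _ => hm r, fun x => Finset.sum_nonneg fun r _ => abs_nonneg _,
    ⟨∑ r, (1 + |c r|), fun x => ?_⟩, ?_, fun _ r x => Finset.single_le_sum
      (f := fun r => |(∑ t ∈ Finset.range M, f r (T^[t] x)) / M - c r|) (fun r _ => abs_nonneg _)
      (Finset.mem_univ r)⟩
  · rw [abs_of_nonneg (Finset.sum_nonneg fun r _ => abs_nonneg _)]
    exact Finset.sum_le_sum fun r _ => hbd r x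
  · rw [integral_finsetSum _ fun r _ => Integrable.of_bound (hm r).aestronglyMeasurable (1 + |c r|)
      (Eventually.of_forall fun x => by rw [Real.norm_eq_abs, abs_abs]; exact hbd r x)]
    exact hM'

theorem GLeaf_sum (g : ℕ → ℝ) (L : ℕ) :
    ∑ t ∈ Finset.Ico (0 : ℤ) L, g t.toNat = ∑ t ∈ Finset.range L, g t := by
  refine Finset.sum_nbij' (fun t => t.toNat) (fun t => (t : ℤ)) ?_ ?_ ?_ ?_ fun _ _ => rfl <;>
    simp only [Finset.mem_Ico, Finset.mem_range] <;> omega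

theorem GLeaf_card {F : ℤ → ℝ} (h0 : ∀ t, 0 ≤ F t) (B : Set ℤ) (L : ℕ) {θ : ℝ} (hθ : 0 < θ)
    (h : ∑ t ∈ Finset.Ico (0 : ℤ) L, (F t + B.indicator 1 t) ≤ θ ^ 2 / (θ + 1) * L) :
    ((Ico (0 : ℤ) L ∩ (B ∪ {a | ∃ b : ℤ, a < b ∧ b ≤ L ∧
      θ * (b - a) < ∑ t ∈ Finset.Ico a b, F t})).ncard : ℝ) ≤ θ * L := by
  classical
  have h1 := card_sun_le h0 L θ
  have h2 : (((Finset.Ico (0 : ℤ) L).filter fun t => t ∈ B).card : ℝ) =
      ∑ t ∈ Finset.Ico (0 : ℤ) L, B.indicator 1 t := by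
    rw [Finset.card_filter]
    push_cast
    rfl
  have h3 : Ico (0 : ℤ) L ∩ (B ∪ {a | ∃ b : ℤ, a < b ∧ b ≤ L ∧
      θ * (b - a) < ∑ t ∈ Finset.Ico a b, F t}) = ↑(((Finset.Ico (0 : ℤ) L).filter fun t => t ∈ B) ∪
        (Finset.Ico (0 : ℤ) L).filter fun a => ∃ b : ℤ, a < b ∧ b ≤ L ∧
          θ * (b - a) < ∑ t ∈ Finset.Ico a b, F t) := by
    ext t
    simp only [mem_inter_iff, mem_union, mem_ofPred_eq, Finset.coe_union, Finset.coe_filter,
      Finset.mem_Ico, mem_Ico, and_or_left]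
  rw [h3, ncard_coe_finset]
  refine (Nat.cast_le.2 (Finset.card_union_le _ _)).trans ?_
  rw [Nat.cast_add, h2]
  rw [Finset.sum_add_distrib] at h
  have h4 : 0 ≤ ∑ t ∈ Finset.Ico (0 : ℤ) L, F t := Finset.sum_nonneg fun t _ => h0 t
  have h5 : (0 : ℝ) ≤ ∑ t ∈ Finset.Ico (0 : ℤ) L, B.indicator 1 t := h2 ▸ Nat.cast_nonneg _
  have h6 : θ ^ 2 / (θ + 1) * L * (θ + 1) = θ * L * θ := by field_simp
  refine le_of_mul_le_mul_right ?_ hθ
  rw [← h6, add_mul]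
  generalize θ ^ 2 / (θ + 1) * L = K at h ⊢
  have h7 := mul_le_mul_of_nonneg_right (le_trans (le_add_of_nonneg_left h4) h) hθ.le
  linarith

open Classical in
theorem exists_leaf {n : ℕ} {h : Fin n → Γ} {D : ℝ} (hρ : Disc ρ) (hΛ : Lam ρ Λ) (ha : Arr ρ h)
    (hD : Fill ρ h Λ D) (hμ : Cur ρ μ) (hν : Cur ρ ν) [NullSingletonClass μ]
    [NullSingletonClass ν] (h0 : μ Λᶜ = 0) (h0' : ν Λᶜ = 0) (hne : μ ≠ 0) (hs : μ ⟂ₘ ν)
    {Z : Set Geo} (hZ : ∀ (g : Γ), ∀ C ∈ Z, ρ g • C ∈ Z)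
    (hZ' : ∀ (p : Pt) (R : ℝ), {C ∈ Z | |side C p.1| ≤ R}.Finite) {E : Set Geo} (hE : μ Eᶜ = 0)
    {ε θ : ℝ} (hε : 0 < ε) (hθ : 0 < θ) : ∃ M : ℕ, ∀ N₀ : ℝ, ∃ δ > 0, ∀ L : ℕ,
      ∃ (l : Geo) (e : ℤ → Geo) (Bad : Set ℤ), l ∈ Λ ∧ l ∈ E ∧ Gen ρ h l ∧ IsEnum ρ h l e ∧
        ((Ico (0 : ℤ) L ∩ Bad).ncard : ℝ) ≤ θ * L ∧
        (∀ t ∈ Ico (0 : ℤ) L \ Bad, GoodSt ρ μ ν Z ε δ N₀ l (e t)) ∧
        (Erg ρ μ → ∀ r, ∀ a ∈ Ico (0 : ℤ) L \ Bad, ∀ b : ℤ, a ≤ b → b ≤ L →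
          |∑ t ∈ Finset.Ico a b, (if e t ∈ lifts ρ fun _ : Unit => h r then (1 : ℝ) else 0) -
            2 * ic μ (ρ (h r)) / tot μ ρ h * (b - a)| ≤ θ * (b - a) + 2 * M) := by
  have := hμ.isFiniteMeasure_secM (h := h) (Λ := Λ)
  obtain ⟨T, J, hsec⟩ := exists_isSec hρ hΛ ha hD
  have htot := tot_pos hρ hΛ ha hD hμ h0 hne
  have hT := hsec.presT μ hμ
  have hη : 0 < θ ^ 2 / (θ + 1) / 2 * tot μ ρ h := by positivity
  have hJ : ∀ r x, GLeafF ρ h r (J x) = GLeafF ρ h r x := fun r x => by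
    by_cases hx : x.2 ∈ sheet ρ h Λ x.1
    · obtain ⟨c, -, hc⟩ := GLeaf_ax (ha.hyp x.1) (hsec.rev x hx)
      simp only [GLeafF, hc, GLeaf_smul_iff, GLeaf_rev_iff]
    · rw [hsec.off x hx]
  obtain ⟨M, hM, F, hF, hF0, ⟨C, hC⟩, hFi, hFe⟩ := GLeaf_avg (m := secM μ (sheet ρ h Λ))
    hT.measurable (GLeaf_meas h) (GLeaf_abs h) (fun r => 2 * ic μ (ρ (h r)) / tot μ ρ h)
    (P := Erg ρ μ) (fun he r => by
      have h1 := tendsto_avg_of_flip hT (hsec.presJ μ hμ) hsec.invol hsec.flip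
        (hsec.erg hρ hΛ he) (GLeaf_meas h r) (GLeaf_abs h r) (hJ r)
      rwa [GLeaf_int hρ hΛ ha hμ h0, GLeaf_tot hρ hΛ hμ h0] at h1) hη
  refine ⟨M, fun N₀ => ?_⟩
  obtain ⟨δ, hδ, G, hG, hGm, hGg⟩ := exists_good (h := h) hρ hΛ hμ hν h0 h0' hs hZ' hε N₀ hη
  refine ⟨δ, hδ, fun L => ?_⟩
  obtain ⟨x, hx, hsum⟩ := exists_sum_le hT (hμ.secM_ne_zero hρ hΛ ha hD h0 hne)
    (F := fun x => F x + Gᶜ.indicator 1 x) (hF.add (measurable_one.indicator hG.compl)) (C := C + 1)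
    (fun x => (abs_add_le _ _).trans (add_le_add (hC x) (by
      by_cases hx : x ∈ Gᶜ <;> simp [hx]))) (ε := θ ^ 2 / (θ + 1)) (by
      rw [integral_add (Integrable.of_bound hF.aestronglyMeasurable C (Eventually.of_forall hC))
        (g := Gᶜ.indicator 1) ((integrable_const (1 : ℝ)).indicator hG.compl),
        integral_indicator_one hG.compl, GLeaf_tot hρ hΛ hμ h0]
      linarith)
    (measure_union_null (secM_compl μ (measurableSet_sheet hρ hΛ)) (secM_null μ _ hE)) L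
  have hx1 : x.2 ∈ sheet ρ h Λ x.1 := not_not.1 fun h1 => hx (Or.inl h1)
  have hx2 : x.2 ∈ E := not_not.1 fun h1 => hx (Or.inr h1)
  obtain ⟨e, he, he0⟩ := exists_enum hρ ha hD hx1.1 hx1.2.1 (ax_mem_lifts x.1)
    (xs_mono _ (subset_univ _) hx1.2.2)
  have hit := hsec.iter x hx1 e he he0
  refine ⟨x.2, e, {t | T^[t.toNat] x ∈ Gᶜ} ∪ {a | ∃ b : ℤ, a < b ∧ b ≤ L ∧
    θ * (b - a) < ∑ t ∈ Finset.Ico a b, F (T^[t.toNat] x)}, hx1.1, hx2, hx1.2.1, he, ?_,
    fun t ht => ?_, fun herg r a ha' b hab hb => ?_⟩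
  · rw [← GLeaf_sum] at hsum
    exact GLeaf_card (fun t => hF0 _) _ L hθ hsum
  · obtain ⟨h1, g, h2, h3⟩ := hit t.toNat
    have h4 := (hGg _ (not_not.1 fun h5 => ht.2 (Or.inl h5)) h1).smul hμ hν hZ
      (xs_cross h1.2.2) g⁻¹
    rwa [h2, h3, map_inv, inv_smul_smul, inv_smul_smul, Int.toNat_of_nonneg ht.1.1] at h4
  · refine (abs_sum_sub_le (fun t => by split_ifs <;> simp) _ hM hab).trans (add_le_add ?_ le_rfl)
    refine le_trans (Finset.sum_le_sum fun t ht => ?_ : _ ≤ ∑ t ∈ Finset.Ico a b,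
      F (T^[t.toNat] x)) ?_
    · have h1 : 0 ≤ t := ha'.1.1.trans (Finset.mem_Ico.1 ht).1
      refine le_trans (le_of_eq ?_) (hFe herg r _)
      congr 3
      refine Finset.sum_congr rfl fun i _ => ?_
      obtain ⟨-, g, -, h3⟩ := hit (i + t.toNat)
      rw [← Function.iterate_add_apply, GLeafF, h3, Nat.cast_add, Int.toNat_of_nonneg h1,
        add_comm t]
      simp only [GLeaf_smul_iff]
    · rcases hab.eq_or_lt with rfl | h1
      · simp
      · exact not_lt.1 fun h2 => ha'.2 (Or.inr ⟨b, h1, hb, h2⟩)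

end HRT
end

-- merged part: Pool.Agent.Work.MP_35beee_gt.GBuild
section
/-!
Closed chains: follow the leaf `l j` from the time `i k` to the time `o k`, jump to the left
neighbour, and so on.

Plan. `same_leaf`: if the neighbour had the label `i ≠ j` then for the open interval `I` between
them `μ i I ≤ ν j I ≤ ε μ j I ≤ ε ν i I ≤ ε² μ i I` with `0 < μ i I` (`GoodSt.smul`, `GoodSt.rev`
transport goodness to the neighbour). `exists_chain`: let `t` be fine, with neighbours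
`mR = ori bR (γR • l j)`, `e j t = ori bR (γR • e j a)` and `mL = ori bL (γL • l j)`,
`e j t = ori bL (γL • e j d)`; by `far`, `N₀ ≤ D * |a - t|`, `N₀ ≤ D * |d - t|`, `N₀ ≤ D * |a - d|`
(the last one at the time `a`, the gap is at most `δ`; `IsEnum.abs_sub_le`).
Case `bR = true`: `q = 1`, `g = γR⁻¹`, `β k = g ^ k`, `s k = true`, `i k = t`, `o k = a`.
Case `bL = true`: `q = 1`, `g = γL`, `β k = g ^ k`, `s k = true`, `i k = d`, `o k = t`.
Otherwise use `chain_two`: a left chord `(x, x')`, i.e. `(γL • l j).rev` is the left neighbour on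
`e j x = (γL • e j x').rev`, and a right chord `(y, y')`, i.e. `(γR • l j).rev` is the right
neighbour on `e j y = (γR • e j y').rev`, give `q = 2`, `g = γL * γR`, `β (2m) = g ^ m`,
`β (2m+1) = g ^ m * γL`, `s (2m) = true`, `s (2m+1) = false`, `i (2m) = y'`, `o (2m) = x`,
`i (2m+1) = x'`, `o (2m+1) = y`. A right chord `(y, y')` for `γR` is also a right chord `(y', y)`
for `γR⁻¹` (`nb_smul`, `nb_rev`). If `t ∉ uIcc a d` take `(x, x') = (t, d)`, `(y, y') = (a, t)`.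
Otherwise `d < t < a` (type `+`) or `a < t < d` (type `-`). Two of the three fine times `t < t'`
have the same type, and `t' - t ≤ 2 < N₀ / D`. Type `+`: `(x, x') = (t', d')`, `(y, y') = (t, a)`.
Type `-`: `(x, x') = (t, d)`, `(y, y') = (t', a')`.
-/

namespace HRT

open Set Filter Topology Real MeasureTheory

variable {Γ : Type*} [Group Γ] {ρ : Γ →* Isom} {Λ : Set Geo} {ι : Type} {h : ι → Γ}
  {κ : Type} {l : κ → Geo} {e : κ → ℤ → Geo}

/-- The data of a closed chain. -/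
structure ChD (Γ : Type*) where
  /-- the number of pieces in a period -/
  q : ℕ
  /-- the period -/
  g : Γ
  /-- the translate used for the piece -/
  β : ℤ → Γ
  /-- the orientation -/
  s : ℤ → Bool
  /-- entry time -/
  i : ℤ → ℤ
  /-- exit time -/
  o : ℤ → ℤ

/-- The lines of a chain. -/
noncomputable def ChD.line (c : ChD Γ) (ρ : Γ →* Isom) (m : Geo) (k : ℤ) : Geo :=
  ori (c.s k) (ρ (c.β k) • m)

/-- The transversals of a chain (crossed by the lines from right to left). -/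
noncomputable def ChD.tr (c : ChD Γ) (ρ : Γ →* Isom) (a : ℤ → Geo) (k : ℤ) : Geo :=
  ori (c.s k) (ρ (c.β k) • a (c.o k))

/-- The total number of time steps in a period. -/
def ChD.len (c : ChD Γ) : ℕ := ∑ k ∈ Finset.range c.q, (c.o k - c.i k).natAbs

/-- Closed chains along the leaf `l j`. -/
structure IsChain (ρ : Γ →* Isom) {κ : Type} (l : κ → Geo) (e : κ → ℤ → Geo) (L : ℤ)
    (Bad : κ → Set ℤ) (δ : ℝ) (j : κ) (c : ChD Γ) : Prop where
  q_pos : 0 < c.q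
  q_le : c.q ≤ 2
  per_β : ∀ k, c.β (k + c.q) = c.g * c.β k
  per_s : ∀ k, c.s (k + c.q) = c.s k
  per_i : ∀ k, c.i (k + c.q) = c.i k
  per_o : ∀ k, c.o (k + c.q) = c.o k
  entry : ∀ k, c.tr ρ (e j) k = ori (c.s (k + 1)) (ρ (c.β (k + 1)) • e j (c.i (k + 1)))
  nb : ∀ k, Nb (Mk ρ l e (fun _ => Ico 0 L) (c.tr ρ (e j) k)) (c.tr ρ (e j) k)
    (c.line ρ (l j) (k + 1)) (c.line ρ (l j) k)
  gap : ∀ k, xp (c.tr ρ (e j) k) (c.line ρ (l j) k) -
    xp (c.tr ρ (e j) k) (c.line ρ (l j) (k + 1)) ≤ δ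
  mem_i : ∀ k, c.i k ∈ Ico 0 L \ Bad j
  mem_o : ∀ k, c.o k ∈ Ico 0 L \ Bad j
  disj : ∀ k k', (uIcc (c.i k) (c.o k) ∩ uIcc (c.i k') (c.o k')).Nonempty → (c.q : ℤ) ∣ k - k'
  chir : (∀ k, if c.s k then c.i k ≤ c.o k else c.o k ≤ c.i k) ∨
    ∀ k, if c.s k then c.o k ≤ c.i k else c.i k ≤ c.o k

variable {L : ℤ} {Bad : κ → Set ℤ} {δ : ℝ}

/-- `m'` is the left neighbour of `m` on `A` and it is close. -/
def GBuild_J (ρ : Γ →* Isom) {κ : Type} (l : κ → Geo) (e : κ → ℤ → Geo) (L : ℤ) (δ : ℝ)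
    (A m' m : Geo) : Prop :=
  Nb (Mk ρ l e (fun _ => Ico 0 L) A) A m' m ∧ xp A m - xp A m' ≤ δ

theorem GBuild_smul (hF : Fam ρ h Λ l e) (hΛ : Lam ρ Λ) {A m' m : Geo}
    (hJ : GBuild_J ρ l e L δ A m' m) (g : Γ) :
    GBuild_J ρ l e L δ (ρ g • A) (ρ g • m') (ρ g • m) := by
  refine ⟨hF.nb_smul hΛ hJ.1 g, ?_⟩
  rw [xp_smul _ (xs_cross (hF.mem_xs hΛ hJ.1.1).2.2.1),
    xp_smul _ (xs_cross (hF.mem_xs hΛ hJ.1.2.1).2.2.1)]
  linarith [hJ.2]

theorem GBuild_rev (hF : Fam ρ h Λ l e) (hΛ : Lam ρ Λ) {A m' m : Geo}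
    (hJ : GBuild_J ρ l e L δ A m' m) : GBuild_J ρ l e L δ A.rev m.rev m'.rev := by
  refine ⟨hF.nb_rev hΛ hJ.1, ?_⟩
  rw [xp_rev_right, xp_rev_right, xp_rev_left (xs_cross (hF.mem_xs hΛ hJ.1.1).2.2.1),
    xp_rev_left (xs_cross (hF.mem_xs hΛ hJ.1.2.1).2.2.1)]
  linarith [hJ.2]

theorem chain_one (hF : Fam ρ h Λ l e) (hΛ : Lam ρ Λ) {j : κ} {g : Γ} {t d : ℤ}
    (ht : t ∈ Ico 0 L \ Bad j) (hd : d ∈ Ico 0 L \ Bad j) (he : e j t = ρ g • e j d)
    (hn : Nb (Mk ρ l e (fun _ => Ico 0 L) (e j t)) (e j t) (ρ g • l j) (l j))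
    (hg : xp (e j t) (l j) - xp (e j t) (ρ g • l j) ≤ δ) :
    ∃ c : ChD Γ, IsChain ρ l e L Bad δ j c ∧ c.len = (t - d).natAbs := by
  have key : ∀ k : ℤ, GBuild_J ρ l e L δ (ρ (g ^ k) • e j t) (ρ (g ^ (k + 1)) • l j)
      (ρ (g ^ k) • l j) := fun k => by
    rw [zpow_add_one, map_mul, mul_smul]
    exact GBuild_smul hF hΛ ⟨hn, hg⟩ _
  refine ⟨⟨1, g, fun k => g ^ k, fun _ => true, fun _ => d, fun _ => t⟩,
    ⟨one_pos, one_le_two, fun k => ?_, fun _ => rfl, fun _ => rfl, fun _ => rfl, fun k => ?_,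
      fun k => (key k).1, fun k => (key k).2, fun _ => hd, fun _ => ht, fun _ _ _ => one_dvd _,
      (le_total d t).imp (fun h _ => h) fun h _ => h⟩, by simp [ChD.len]⟩
  · change g ^ (k + 1) = g * g ^ k
    rw [add_comm, zpow_one_add]
  · change ρ (g ^ k) • e j t = ρ (g ^ (k + 1)) • e j d
    rw [zpow_add_one, map_mul, mul_smul, ← he]

theorem chain_two (hF : Fam ρ h Λ l e) (hΛ : Lam ρ Λ) {j : κ} {γL γR : Γ} {x x' y y' : ℤ}
    (hx : x ∈ Ico 0 L \ Bad j) (hx' : x' ∈ Ico 0 L \ Bad j) (hy : y ∈ Ico 0 L \ Bad j)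
    (hy' : y' ∈ Ico 0 L \ Bad j) (eL : e j x = (ρ γL • e j x').rev)
    (eR : e j y = (ρ γR • e j y').rev)
    (nL : Nb (Mk ρ l e (fun _ => Ico 0 L) (e j x)) (e j x) (ρ γL • l j).rev (l j))
    (nR : Nb (Mk ρ l e (fun _ => Ico 0 L) (e j y)) (e j y) (l j) (ρ γR • l j).rev)
    (gL : xp (e j x) (l j) - xp (e j x) (ρ γL • l j).rev ≤ δ)
    (gR : xp (e j y) (ρ γR • l j).rev - xp (e j y) (l j) ≤ δ)
    (hd : Disjoint (uIcc y' x) (uIcc x' y)) (hc : (y' ≤ x ∧ y ≤ x') ∨ (x ≤ y' ∧ x' ≤ y)) :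
    ∃ c : ChD Γ, IsChain ρ l e L Bad δ j c ∧ c.len = (x - y').natAbs + (y - x').natAbs := by
  let c : ChD Γ := ⟨2, γL * γR,
    fun k => if k % 2 = 0 then (γL * γR) ^ (k / 2) else (γL * γR) ^ (k / 2) * γL,
    fun k => decide (k % 2 = 0), fun k => if k % 2 = 0 then y' else x',
    fun k => if k % 2 = 0 then x else y⟩
  have e0 : ∀ k : ℤ, k % 2 = 0 → c.β k = (γL * γR) ^ (k / 2) ∧ c.s k = true ∧ c.i k = y' ∧
      c.o k = x := fun k hk => by simp [c, hk]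
  have e1 : ∀ k : ℤ, k % 2 = 1 → c.β k = (γL * γR) ^ (k / 2) * γL ∧ c.s k = false ∧ c.i k = x' ∧
      c.o k = y := fun k hk => by simp [c, hk]
  have key : ∀ k, c.tr ρ (e j) k = ori (c.s (k + 1)) (ρ (c.β (k + 1)) • e j (c.i (k + 1))) ∧
      GBuild_J ρ l e L δ (c.tr ρ (e j) k) (c.line ρ (l j) (k + 1)) (c.line ρ (l j) k) := by
    intro k
    rcases Int.emod_two_eq_zero_or_one k with hk | hk
    · obtain ⟨a1, a2, -, a4⟩ := e0 k hk
      obtain ⟨b1, b2, b3, -⟩ := e1 (k + 1) (by omega)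
      rw [show (k + 1) / 2 = k / 2 by omega] at b1
      simp only [ChD.tr, ChD.line, a1, a2, a4, b1, b2, b3, ori_true, ori_false, map_mul, mul_smul,
        ← Geo.smul_rev (ρ ((γL * γR) ^ (k / 2)))]
      exact ⟨by rw [eL], GBuild_smul hF hΛ ⟨nL, gL⟩ _⟩
    · obtain ⟨a1, a2, -, a4⟩ := e1 k hk
      obtain ⟨b1, b2, b3, -⟩ := e0 (k + 1) (by omega)
      rw [show (k + 1) / 2 = k / 2 + 1 by omega, zpow_add_one, ← mul_assoc] at b1
      simp only [ChD.tr, ChD.line, a1, a2, a4, b1, b2, b3, ori_true, ori_false]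
      rw [map_mul _ _ γR, mul_smul, mul_smul, ← Geo.smul_rev, ← Geo.smul_rev]
      exact ⟨by rw [eR, Geo.rev_rev], GBuild_smul hF hΛ (GBuild_rev hF hΛ ⟨nR, gR⟩) _⟩
  have hp : ∀ k : ℤ, (k + (2 : ℕ)) % 2 = k % 2 := fun k => by push_cast; omega
  refine ⟨c, ⟨two_pos, le_rfl, fun k => ?_, fun k => ?_, fun k => ?_, fun k => ?_,
    fun k => (key k).1, fun k => (key k).2.1, fun k => (key k).2.2, fun k => ?_, fun k => ?_,
    fun k k' hk => ?_, ?_⟩, ?_⟩
  · simp only [c, hp]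
    rw [show (k + (2 : ℕ)) / 2 = 1 + k / 2 by push_cast; omega, zpow_one_add]
    split_ifs
    exacts [rfl, mul_assoc _ _ _]
  · simp only [c, hp]
  · simp only [c, hp]
  · simp only [c, hp]
  · rcases Int.emod_two_eq_zero_or_one k with hk | hk
    · rwa [(e0 k hk).2.2.1]
    · rwa [(e1 k hk).2.2.1]
  · rcases Int.emod_two_eq_zero_or_one k with hk | hk
    · rwa [(e0 k hk).2.2.2]
    · rwa [(e1 k hk).2.2.2]
  · change ((2 : ℕ) : ℤ) ∣ _
    rcases Int.emod_two_eq_zero_or_one k with h1 | h1 <;>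
      rcases Int.emod_two_eq_zero_or_one k' with h2 | h2
    · omega
    · rw [(e0 k h1).2.2.1, (e0 k h1).2.2.2, (e1 k' h2).2.2.1, (e1 k' h2).2.2.2] at hk
      exact absurd hd (not_disjoint_iff_nonempty_inter.2 hk)
    · rw [(e1 k h1).2.2.1, (e1 k h1).2.2.2, (e0 k' h2).2.2.1, (e0 k' h2).2.2.2] at hk
      exact absurd hd.symm (not_disjoint_iff_nonempty_inter.2 hk)
    · omega
  · refine hc.imp (fun h k => ?_) fun h k => ?_ <;>
      rcases Int.emod_two_eq_zero_or_one k with hk | hk <;> simp [c, hk, h.1, h.2]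
  · simp [ChD.len, c, Finset.sum_range_succ]

theorem GBuild_xp_ori (A m : Geo) (b : Bool) : xp A (ori b m) = xp A m := by
  cases b
  exacts [xp_rev_right _ _, rfl]

theorem GBuild_cross (g : Isom) (b c : Bool) {A m : Geo} :
    Cross (ori b (g • A)) (ori c (g • m)) ↔ Cross A m := by
  cases b <;> cases c <;> simp

theorem GBuild_abs (g : Isom) (b c c' : Bool) {A m m' : Geo} (h1 : Cross A m) (h2 : Cross A m') :
    |xp (ori b (g • A)) (ori c (g • m)) - xp (ori b (g • A)) (ori c' (g • m'))| =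
      |xp A m - xp A m'| := by
  rw [GBuild_xp_ori, GBuild_xp_ori]
  cases b
  · rw [ori_false, xp_rev_left ((cross_smul g).2 h1), xp_rev_left ((cross_smul g).2 h2),
      xp_smul g h1, xp_smul g h2, ← abs_neg]
    congr 1
    ring
  · rw [ori_true, xp_smul g h1, xp_smul g h2, add_sub_add_right_eq_sub]

theorem GBuild_far {D N₀ : ℝ} (hF : Fam ρ h Λ l e) (hD : Fill ρ h Λ D) {j : κ} {a a' : ℤ}
    (hf : FarAt ρ δ N₀ (l j) (e j a)) {g g' : Γ} {b b' : Bool} {A : Geo}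
    (h1 : A = ori b (ρ g • e j a)) (h2 : A = ori b' (ρ g' • e j a'))
    (hne : xp A (ori b' (ρ g' • l j)) ≠ xp A (ori b (ρ g • l j)))
    (hd : |xp A (ori b' (ρ g' • l j)) - xp A (ori b (ρ g • l j))| ≤ δ) :
    N₀ ≤ D * |(a' : ℝ) - a| := by
  have e1 : ρ g' • l j = ρ g • ρ (g⁻¹ * g') • l j := by
    rw [← mul_smul, ← map_mul, mul_inv_cancel_left]
  have c1 : Cross A (ori b' (ρ g' • l j)) := by
    rw [h2, GBuild_cross]
    exact xs_cross ((hF.enum j).xs a')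
  rw [e1, h1, GBuild_cross] at c1
  have h3 := hf (g⁻¹ * g') (fun e0 => hne (by
    rw [GBuild_xp_ori, GBuild_xp_ori, e1, e0, map_one, one_smul])) c1 (by
      rwa [e1, h1, GBuild_abs _ _ _ _ c1 (xs_cross ((hF.enum j).xs a))] at hd)
  have e2 : xp (l j) (ρ (g⁻¹ * g')⁻¹ • e j a) = xp (l j) (e j a') := by
    rw [← GBuild_xp_ori _ _ b, mul_inv_rev, inv_inv, map_mul, mul_smul, ← smul_ori, ← h1, h2,
      smul_ori, map_inv, inv_smul_smul, GBuild_xp_ori]
  rw [e2] at h3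
  exact h3.trans ((hF.enum j).abs_sub_le hD (hF.mem j) a' a)

theorem GBuild_dens {μ ν μ' ν' : Measure Geo} {ε : ℝ} (hε : ε < 1) {A : Geo} {s s' : ℝ}
    (h1 : DensAt μ ν ε δ A s) (h2 : DensAt μ' ν' ε δ A s') (hν : Cur ρ ν) (hν' : Cur ρ ν')
    (l1 : μ ≤ ν') (l2 : μ' ≤ ν) (hs : s < s') (hd : s' - s ≤ δ) : False := by
  obtain ⟨a1, a2, -⟩ := h1 (s' - s) ⟨sub_pos.2 hs, hd⟩
  obtain ⟨-, -, a3, a4⟩ := h2 (s' - s) ⟨sub_pos.2 hs, hd⟩
  rw [add_sub_cancel] at a1 a2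
  rw [sub_sub_cancel] at a3 a4
  have a5 : μ.real (xs A (Ioo s s')) ≤ ν'.real (xs A (Ioo s s')) :=
    ENNReal.toReal_mono (hν'.xs_lt_top A (Metric.isBounded_Ioo _ _)).ne (l1 _)
  have a6 : μ'.real (xs A (Ioo s s')) ≤ ν.real (xs A (Ioo s s')) :=
    ENNReal.toReal_mono (hν.xs_lt_top A (Metric.isBounded_Ioo _ _)).ne (l2 _)
  linarith [mul_lt_of_lt_one_left a1 hε, mul_lt_of_lt_one_left a3 hε]

/-- Left chords. -/
def GBuild_LC (ρ : Γ →* Isom) {κ : Type} (l : κ → Geo) (e : κ → ℤ → Geo) (L : ℤ) (Bad : κ → Set ℤ)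
    (δ : ℝ) (j : κ) (x x' : ℤ) : Prop :=
  x ∈ Ico 0 L \ Bad j ∧ x' ∈ Ico 0 L \ Bad j ∧ ∃ γ : Γ, e j x = (ρ γ • e j x').rev ∧
    GBuild_J ρ l e L δ (e j x) (ρ γ • l j).rev (l j)

/-- Right chords. -/
def GBuild_RC (ρ : Γ →* Isom) {κ : Type} (l : κ → Geo) (e : κ → ℤ → Geo) (L : ℤ) (Bad : κ → Set ℤ)
    (δ : ℝ) (j : κ) (y y' : ℤ) : Prop :=
  y ∈ Ico 0 L \ Bad j ∧ y' ∈ Ico 0 L \ Bad j ∧ ∃ γ : Γ, e j y = (ρ γ • e j y').rev ∧
    GBuild_J ρ l e L δ (e j y) (l j) (ρ γ • l j).rev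

theorem GBuild_symm (hF : Fam ρ h Λ l e) (hΛ : Lam ρ Λ) {j : κ} {y y' : ℤ}
    (hR : GBuild_RC ρ l e L Bad δ j y y') : GBuild_RC ρ l e L Bad δ j y' y := by
  obtain ⟨h1, h2, γ, h3, h4⟩ := hR
  have h5 : e j y' = (ρ γ⁻¹ • e j y).rev := by
    rw [h3, Geo.smul_rev, Geo.rev_rev, map_inv, inv_smul_smul]
  have h6 := GBuild_smul hF hΛ (GBuild_rev hF hΛ h4) γ⁻¹
  rw [Geo.smul_rev, ← h5, Geo.rev_rev, Geo.smul_rev, map_inv, inv_smul_smul, ← map_inv] at h6
  exact ⟨h2, h1, γ⁻¹, h5, h6⟩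

theorem GBuild_two {D N₀ : ℝ} (hF : Fam ρ h Λ l e) (hΛ : Lam ρ Λ) (hD0 : 0 < D) {j : κ}
    {x x' y y' u v : ℤ} (hL : GBuild_LC ρ l e L Bad δ j x x') (hR : GBuild_RC ρ l e L Bad δ j y y')
    (hc : (y' ≤ x ∧ y ≤ x' ∧ (x < y ∨ x' < y')) ∨ (x ≤ y' ∧ x' ≤ y ∧ (y < x ∨ y' < x')))
    (hN : N₀ ≤ D * |(u : ℝ) - v|) (hu : |u - v| ≤ |x - y'| + |y - x'| + 4) :
    ∃ c : ChD Γ, IsChain ρ l e L Bad δ j c ∧ N₀ ≤ D * (c.len + 4) := by
  obtain ⟨a1, a2, γL, a3, a4⟩ := hL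
  obtain ⟨b1, b2, γR, b3, b4⟩ := hR
  obtain ⟨c, h1, h2⟩ := chain_two hF hΛ a1 a2 b1 b2 a3 b3 a4.1 b4.1 a4.2 b4.2
    (Set.disjoint_left.2 fun z h1 h2 => by
      rw [mem_uIcc] at h1 h2
      omega) (hc.imp (fun h => ⟨h.1, h.2.1⟩) fun h => ⟨h.1, h.2.1⟩)
  refine ⟨c, h1, hN.trans (mul_le_mul_of_nonneg_left ?_ hD0.le)⟩
  rw [h2, Nat.cast_add, Nat.cast_natAbs, Nat.cast_natAbs]
  exact_mod_cast hu

section
variable [Fintype κ] [DecidableEq κ] {μ : κ → Measure Geo} {Z : Set Geo} {ε N₀ D : ℝ}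

theorem same_leaf (hF : Fam ρ h Λ l e) (hΛ : Lam ρ Λ) (hμ : ∀ j, Cur ρ (μ j))
    (hZ : ∀ (g : Γ), ∀ C ∈ Z, ρ g • C ∈ Z) (hε0 : 0 ≤ ε) (hε : ε < 1)
    (hG : ∀ j, ∀ t ∈ Ico 0 L \ Bad j,
      GoodSt ρ (μ j) (∑ i ∈ Finset.univ.erase j, μ i) Z ε δ N₀ (l j) (e j t))
    {i j : κ} {s t : ℤ} (hs : s ∈ Ico 0 L \ Bad i) (ht : t ∈ Ico 0 L \ Bad j) {g : Γ} {b : Bool}
    (he : e j t = ori b (ρ g • e i s)) (hne : ori b (ρ g • l i) ≠ l j)
    (hd : |xp (e j t) (ori b (ρ g • l i)) - xp (e j t) (l j)| ≤ δ) : i = j := by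
  by_contra hij
  have hc : ∀ i, Cur ρ (∑ k ∈ Finset.univ.erase i, μ k) := fun i =>
    Cur.finsetSum _ fun k _ => hμ k
  have hle : ∀ i j, i ≠ j → μ i ≤ ∑ k ∈ Finset.univ.erase j, μ k := fun i j hij =>
    Finset.single_le_sum (f := μ) (fun _ _ => Measure.zero_le _)
      (Finset.mem_erase.2 ⟨hij, Finset.mem_univ _⟩)
  have c1 := xs_cross ((hF.enum i).xs s)
  have h1 := (hG i s hs).smul (hμ i) (hc i) hZ c1 g
  have h2 : DensAt (μ i) (∑ k ∈ Finset.univ.erase i, μ k) ε δ (e j t)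
      (xp (e j t) (ori b (ρ g • l i))) := by
    rw [he]
    cases b
    exacts [(h1.rev (hμ i) (hc i) ((cross_smul _).2 c1)).dens, h1.dens]
  obtain ⟨h3, -, h4, -⟩ := hF.mem_xs hΛ (P := fun _ => univ) (A := e j t)
    ⟨i, s, mem_univ _, g, b, rfl, he⟩
  rw [abs_le] at hd
  rcases lt_trichotomy (xp (e j t) (ori b (ρ g • l i))) (xp (e j t) (l j)) with h5 | h5 | h5
  · exact GBuild_dens hε h2 (hG j t ht).dens (hc i) (hc j) (hle i j hij) (hle j i (Ne.symm hij)) h5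
      (by linarith)
  · exact hne (eq_of_xp_eq h4 ((hF.enum j).xs t) (hΛ.nc _ h3 _ (hF.mem j)) h5)
  · exact GBuild_dens hε (hG j t ht).dens h2 (hc j) (hc i) (hle j i (Ne.symm hij)) (hle i j hij) h5
      hd.2

theorem exists_chain (hρ : Disc ρ) (hF : Fam ρ h Λ l e) (hΛ : Lam ρ Λ) (hD : Fill ρ h Λ D)
    (hD0 : 0 < D) (hN : 2 * D < N₀) (hμ : ∀ j, Cur ρ (μ j))
    (hZ : ∀ (g : Γ), ∀ C ∈ Z, ρ g • C ∈ Z) (hε0 : 0 ≤ ε) (hε : ε < 1)
    (hG : ∀ j, ∀ t ∈ Ico 0 L \ Bad j,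
      GoodSt ρ (μ j) (∑ i ∈ Finset.univ.erase j, μ i) Z ε δ N₀ (l j) (e j t))
    {j : κ} {t : ℤ} (h0 : Fine ρ l e L Bad (δ / 2) j t) (h1 : Fine ρ l e L Bad (δ / 2) j (t + 1))
    (h2 : Fine ρ l e L Bad (δ / 2) j (t + 2)) :
    ∃ c : ChD Γ, IsChain ρ l e L Bad δ j c ∧ N₀ ≤ D * (c.len + 4) := by
  have key : ∀ t, Fine ρ l e L Bad (δ / 2) j t →
      (∃ c : ChD Γ, IsChain ρ l e L Bad δ j c ∧ N₀ ≤ D * (c.len + 4)) ∨
      ∃ a d, GBuild_LC ρ l e L Bad δ j t d ∧ GBuild_RC ρ l e L Bad δ j t a ∧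
        N₀ ≤ D * |(a : ℝ) - t| ∧ N₀ ≤ D * |(d : ℝ) - t| ∧
        ((d + 3 ≤ t ∧ t + 3 ≤ a) ∨ (a + 3 ≤ t ∧ t + 3 ≤ d)) := by
    rintro t ⟨ht, _, _, nR, nL, gR, gL, ⟨iR, a, ha, γR, bR, rfl, eR⟩, iL, d, hd, γL, bL, rfl, eL⟩
    have pR := nR.2.2.1
    have pL := nL.2.2.1
    have dR : |xp (e j t) (ori bR (ρ γR • l iR)) - xp (e j t) (l j)| ≤ δ :=
      abs_le.2 ⟨by linarith, by linarith⟩
    have dL : |xp (e j t) (ori bL (ρ γL • l iL)) - xp (e j t) (l j)| ≤ δ :=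
      abs_le.2 ⟨by linarith, by linarith⟩
    obtain rfl := same_leaf hF hΛ hμ hZ hε0 hε hG ha ht eR (fun e0 => pR.ne' (by rw [e0])) dR
    obtain rfl := same_leaf hF hΛ hμ hZ hε0 hε hG hd ht eL (fun e0 => pL.ne (by rw [e0])) dL
    have e1 : e iL t = ori true (ρ 1 • e iL t) := by simp
    have fR := GBuild_far hF hD (hG _ t ht).far e1 eR (by simpa using pR.ne') (by simpa using dR)
    have fL := GBuild_far hF hD (hG _ t ht).far e1 eL (by simpa using pL.ne) (by simpa using dL)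
    have fM := GBuild_far hF hD (hG _ d hd).far eL eR (pL.trans pR).ne'
      (abs_le.2 ⟨by linarith, by linarith⟩)
    have jR : GBuild_J ρ l e L δ (e iL t) (l iL) (ori bR (ρ γR • l iL)) := ⟨nR, by linarith⟩
    have jL : GBuild_J ρ l e L δ (e iL t) (ori bL (ρ γL • l iL)) (l iL) := ⟨nL, by linarith⟩
    have one : ∀ {c : ChD Γ} {u v : ℤ}, N₀ ≤ D * |(u : ℝ) - v| → c.len = (u - v).natAbs →
        N₀ ≤ D * (c.len + 4) := fun h1 h2 => by
      refine h1.trans (mul_le_mul_of_nonneg_left ?_ hD0.le)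
      rw [h2, Nat.cast_natAbs]
      push_cast
      linarith
    have big : ∀ {u v : ℤ}, N₀ ≤ D * |(u : ℝ) - v| → 2 < |u - v| := fun h1 => by
      have h2 := lt_of_mul_lt_mul_left ((mul_comm 2 D ▸ hN).trans_le h1) hD0.le
      exact_mod_cast h2
    cases bR
    · cases bL
      · have hL : GBuild_LC ρ l e L Bad δ iL t d := ⟨ht, hd, γL, eL, jL⟩
        have hR : GBuild_RC ρ l e L Bad δ iL t a := ⟨ht, ha, γR, eR, jR⟩
        have b1 := lt_abs.1 (big fR)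
        have b2 := lt_abs.1 (big fL)
        by_cases hc : (d + 3 ≤ t ∧ t + 3 ≤ a) ∨ (a + 3 ≤ t ∧ t + 3 ≤ d)
        · exact Or.inr ⟨a, d, hL, hR, fR, fL, hc⟩
        · exact Or.inl (GBuild_two hF hΛ hD0 hL (GBuild_symm hF hΛ hR) (by omega) fM (by simp))
      · obtain ⟨c, h1, h2⟩ := chain_one hF hΛ ht hd eL jL.1 jL.2
        exact Or.inl ⟨c, h1, one (abs_sub_comm (d : ℝ) t ▸ fL) h2⟩
    · have h3 := GBuild_smul hF hΛ jR γR⁻¹
      have h4 : e iL a = ρ γR⁻¹ • e iL t := by rw [eR, ori_true, map_inv, inv_smul_smul]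
      rw [← h4, ori_true, map_inv, inv_smul_smul, ← map_inv] at h3
      obtain ⟨c, h1, h2⟩ := chain_one hF hΛ ha ht h4 h3.1 h3.2
      exact Or.inl ⟨c, h1, one fR h2⟩
  have pl : ∀ {t t' a d' : ℤ}, GBuild_LC ρ l e L Bad δ j t' d' → GBuild_RC ρ l e L Bad δ j t a →
      N₀ ≤ D * |(a : ℝ) - t| → t < t' → t' ≤ t + 2 → t + 3 ≤ a → d' + 3 ≤ t' →
      ∃ c : ChD Γ, IsChain ρ l e L Bad δ j c ∧ N₀ ≤ D * (c.len + 4) :=
    fun {t t' a d'} hL hR hN _ _ _ _ => GBuild_two hF hΛ hD0 hL hR (by omega) hN (by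
      rw [abs_of_nonneg (a := a - t) (by omega), abs_of_nonpos (a := t' - a) (by omega),
        abs_of_nonneg (a := t - d') (by omega)]
      omega)
  have mi : ∀ {t t' a' d : ℤ}, GBuild_LC ρ l e L Bad δ j t d → GBuild_RC ρ l e L Bad δ j t' a' →
      N₀ ≤ D * |(d : ℝ) - t| → t < t' → t' ≤ t + 2 → t + 3 ≤ d → a' + 3 ≤ t' →
      ∃ c : ChD Γ, IsChain ρ l e L Bad δ j c ∧ N₀ ≤ D * (c.len + 4) :=
    fun {t t' a' d} hL hR hN _ _ _ _ => GBuild_two hF hΛ hD0 hL hR (by omega) hN (by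
      rw [abs_of_nonneg (a := d - t) (by omega), abs_of_nonneg (a := t - a') (by omega),
        abs_of_nonpos (a := t' - d) (by omega)]
      omega)
  rcases key _ h0 with hc | ⟨a₀, d₀, l0, r0, u0, v0, c0⟩
  · exact hc
  rcases key _ h1 with hc | ⟨a₁, d₁, l1, r1, u1, v1, c1⟩
  · exact hc
  rcases key _ h2 with hc | ⟨a₂, d₂, l2, r2, u2, v2, c2⟩
  · exact hc
  rcases c0 with c0 | c0 <;> rcases c1 with c1 | c1
  · exact pl l1 r0 u0 (by omega) (by omega) c0.2 c1.1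
  · rcases c2 with c2 | c2
    · exact pl l2 r0 u0 (by omega) (by omega) c0.2 c2.1
    · exact mi l1 r2 v1 (by omega) (by omega) c1.2 c2.1
  · rcases c2 with c2 | c2
    · exact pl l2 r1 u1 (by omega) (by omega) c1.2 c2.1
    · exact mi l0 r2 v0 (by omega) (by omega) c0.2 c2.1
  · exact mi l0 r1 v0 (by omega) (by omega) c0.2 c1.1

end

end HRT
end

-- merged part: Pool.Agent.Work.MP_35beee_gt.GChain
section
/-!
The staircase of a closed chain; different chains and different translates are disjoint.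

Plan. `stair`: `nest_iff_xp_le`, `side_of_cross`; the period `g` is nontrivial because the lines
are strictly nested, so `Gen` gives `fix`. The piece `k` is the translate by `β k` of the segment
of `l j` between the crossings with `e j (i k)` and `e j (o k)` (`piece_eq`); the jump `k` is the
part of `tr k` between two neighbours, of length at most `δ`, so `ClearAt` gives `clean`.
`eq_of_mem_path`: let `p` be a common point. Piece and piece: the two leaves are equal up to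
orientation (`cross_of_common`), `line_unique`; the time intervals meet (`IsEnum.mono`; if two
intervals `uIcc (xp (i k)) (xp (o k))` of parameters meet then so do the integer intervals, as one
contains an endpoint of the other), so `disj` gives `k - k' = m q` and `γ = g ^ m`.
Piece and jump: `p` is the crossing of a translate of `l j'` with `tr k`, at a time between `i k'`
and `o k'` (`IsEnum.surj`), so it is a marked crossing in the closed jump, hence an endpoint of the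
jump (`nb`, `eq_of_xp_eq`), which is in a piece. Jump and jump: by `clean` both lie on the same
line, so an endpoint of one of them is in the other one.
-/

namespace HRT

open Set Filter Topology Real MeasureTheory

variable {Γ : Type*} [Group Γ] {ρ : Γ →* Isom} {Λ : Set Geo} {ι : Type} {h : ι → Γ}
  {κ : Type} {l : κ → Geo} {e : κ → ℤ → Geo} {L : ℤ} {Bad : κ → Set ℤ} {δ : ℝ} {j : κ} {c : ChD Γ}

/-- The transversals of the staircase of a chain. -/
noncomputable def ChD.nn (c : ChD Γ) (ρ : Γ →* Isom) (a : ℤ → Geo) (k : ℤ) : Geo :=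
  (c.tr ρ a k).rev

/-- Change of parameters under a translation and a reversal. -/
noncomputable def GChain_F (b : Bool) (g : Isom) (m : Geo) (t : ℝ) : ℝ :=
  if b then t + sh g m else -(t + sh g m)

theorem GChain_pt (b : Bool) (g : Isom) (m : Geo) (t : ℝ) :
    pt (ori b (g • m)) (GChain_F b g m t) = g • pt m t := by
  cases b
  · simp only [GChain_F, ori_false, pt_rev, smul_pt, Bool.false_eq_true, if_false, neg_neg]
  · simp only [GChain_F, ori_true, smul_pt, if_true]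

theorem GChain_xp_ori (b : Bool) (m A : Geo) : xp m (ori b A) = xp m A := by
  cases b
  · exact xp_rev_right m A
  · rfl

theorem GChain_xp (b b' : Bool) (g : Isom) {m A : Geo} (h : Cross m A) :
    xp (ori b (g • m)) (ori b' (g • A)) = GChain_F b g m (xp m A) := by
  rw [GChain_xp_ori]
  cases b
  · simp only [GChain_F, ori_false, Bool.false_eq_true, if_false]
    rw [xp_rev_left ((cross_smul g).2 h), xp_smul g h]
  · simp only [GChain_F, ori_true, if_true]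
    exact xp_smul g h

theorem GChain_image (b : Bool) (g : Isom) (m : Geo) (x y : ℝ) :
    uIcc (GChain_F b g m x) (GChain_F b g m y) = GChain_F b g m '' uIcc x y := by
  ext t
  cases b
  · simp only [GChain_F, Bool.false_eq_true, if_false, mem_image, mem_uIcc]
    constructor
    · intro ht
      refine ⟨-t - sh g m, ?_, by ring⟩
      rcases ht with ht | ht
      · exact Or.inr ⟨by linarith [ht.2], by linarith [ht.1]⟩
      · exact Or.inl ⟨by linarith [ht.2], by linarith [ht.1]⟩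
    · rintro ⟨u, hu | hu, rfl⟩
      · exact Or.inr ⟨by linarith [hu.2], by linarith [hu.1]⟩
      · exact Or.inl ⟨by linarith [hu.2], by linarith [hu.1]⟩
  · simp only [GChain_F, if_true, mem_image, mem_uIcc]
    constructor
    · intro ht
      refine ⟨t - sh g m, ?_, by ring⟩
      rcases ht with ht | ht
      · exact Or.inl ⟨by linarith [ht.1], by linarith [ht.2]⟩
      · exact Or.inr ⟨by linarith [ht.1], by linarith [ht.2]⟩
    · rintro ⟨u, hu | hu, rfl⟩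
      · exact Or.inl ⟨by linarith [hu.1], by linarith [hu.2]⟩
      · exact Or.inr ⟨by linarith [hu.1], by linarith [hu.2]⟩

theorem GChain_side_ori (b : Bool) {m : Geo} {v : V} : side (ori b m) v = 0 ↔ side m v = 0 := by
  cases b
  · simp only [ori_false, side_rev, neg_eq_zero]
  · rfl

theorem GChain_pt_inj {m : Geo} {s t : ℝ} (h : pt m s = pt m t) : s = t := by
  rw [← fer_pt m s, h, fer_pt]

theorem GChain_meet {x : ℤ → ℝ} (hx : StrictMono x) {a b a' b' : ℤ} {u : ℝ}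
    (h1 : u ∈ uIcc (x a) (x b)) (h2 : u ∈ uIcc (x a') (x b')) :
    (uIcc a b ∩ uIcc a' b').Nonempty := by
  rw [uIcc, ← hx.monotone.map_inf, ← hx.monotone.map_sup] at h1 h2
  have e1 := hx.le_iff_le.1 (h1.1.trans h2.2)
  have e2 := hx.le_iff_le.1 (h2.1.trans h1.2)
  exact ⟨(a ⊓ b) ⊔ (a' ⊓ b'), ⟨le_sup_left, sup_le inf_le_sup e2⟩, le_sup_right,
    sup_le e1 inf_le_sup⟩

theorem GChain_between {x : ℤ → ℝ} (hx : StrictMono x) {a b t : ℤ}
    (h1 : x t ∈ uIcc (x a) (x b)) : t ∈ uIcc a b := by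
  rw [uIcc, ← hx.monotone.map_inf, ← hx.monotone.map_sup] at h1
  exact ⟨hx.le_iff_le.1 h1.1, hx.le_iff_le.1 h1.2⟩

theorem GChain_cross (hF : Fam ρ h Λ l e) (j : κ) (t : ℤ) : Cross (e j t) (l j) :=
  xs_cross ((hF.enum j).xs t)

theorem GChain_eq_or (hΛ : Lam ρ Λ) {m m' : Geo} (hm : m ∈ Λ) (hm' : m' ∈ Λ) {p : Pt}
    (h1 : side m p.1 = 0) (h2 : side m' p.1 = 0) : ∃ b, m' = ori b m := by
  by_contra hne
  exact hΛ.nc m hm m' hm'
    (cross_of_common h1 h2 (fun e => hne ⟨true, e⟩) fun e => hne ⟨false, e⟩)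

namespace IsChain

theorem GChain_xs (hc : IsChain ρ l e L Bad δ j c) (hF : Fam ρ h Λ l e) (hΛ : Lam ρ Λ) (k : ℤ) :
    c.line ρ (l j) (k + 1) ∈ xs (c.tr ρ (e j) k) univ ∧
      c.line ρ (l j) k ∈ xs (c.tr ρ (e j) k) univ ∧ c.tr ρ (e j) k ∈ lifts ρ h :=
  ⟨(hF.mem_xs hΛ (hc.nb k).1).2.2.1, (hF.mem_xs hΛ (hc.nb k).2.1).2.2⟩

theorem GChain_in (hc : IsChain ρ l e L Bad δ j c) (hF : Fam ρ h Λ l e) (k : ℤ) :
    xp (c.line ρ (l j) k) (c.nn ρ (e j) (k - 1)) =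
      GChain_F (c.s k) (ρ (c.β k)) (l j) (xp (l j) (e j (c.i k))) := by
  have h1 := hc.entry (k - 1)
  rw [sub_add_cancel] at h1
  rw [ChD.nn, xp_rev_right, h1]
  exact GChain_xp _ _ _ (GChain_cross hF j _).symm

theorem GChain_out (hF : Fam ρ h Λ l e) (k : ℤ) :
    xp (c.line ρ (l j) k) (c.nn ρ (e j) k) =
      GChain_F (c.s k) (ρ (c.β k)) (l j) (xp (l j) (e j (c.o k))) := by
  rw [ChD.nn, xp_rev_right]
  exact GChain_xp _ _ _ (GChain_cross hF j _).symm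

theorem GChain_jump (hc : IsChain ρ l e L Bad δ j c) (hF : Fam ρ h Λ l e) (hΛ : Lam ρ Λ) (k : ℤ)
    (p : Pt) : p ∈ jump (c.line ρ (l j)) (c.nn ρ (e j)) k ↔
      ∃ v ∈ Icc (xp (c.tr ρ (e j) k) (c.line ρ (l j) (k + 1)))
        (xp (c.tr ρ (e j) k) (c.line ρ (l j) k)), pt (c.tr ρ (e j) k) v = p := by
  obtain ⟨h1, h2, -⟩ := hc.GChain_xs hF hΛ k
  simp only [jump, ChD.nn, xp_rev_left (xs_cross h1), xp_rev_left (xs_cross h2), mem_image, pt_rev]
  constructor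
  · rintro ⟨u, hu, rfl⟩
    exact ⟨-u, ⟨by linarith [hu.2], by linarith [hu.1]⟩, rfl⟩
  · rintro ⟨v, hv, rfl⟩
    exact ⟨-v, ⟨by linarith [hv.2], by linarith [hv.1]⟩, by rw [neg_neg]⟩

theorem GChain_end1 (hc : IsChain ρ l e L Bad δ j c) (hF : Fam ρ h Λ l e) (hΛ : Lam ρ Λ) (k : ℤ) :
    pt (c.tr ρ (e j) k) (xp (c.tr ρ (e j) k) (c.line ρ (l j) (k + 1))) ∈
      piece (c.line ρ (l j)) (c.nn ρ (e j)) (k + 1) := by
  rw [pt_xp (xs_cross (hc.GChain_xs hF hΛ k).1)]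
  refine ⟨_, ?_, rfl⟩
  rw [add_sub_cancel_right, ChD.nn, xp_rev_right]
  exact left_mem_uIcc

theorem GChain_end2 (hc : IsChain ρ l e L Bad δ j c) (hF : Fam ρ h Λ l e) (hΛ : Lam ρ Λ) (k : ℤ) :
    pt (c.tr ρ (e j) k) (xp (c.tr ρ (e j) k) (c.line ρ (l j) k)) ∈
      piece (c.line ρ (l j)) (c.nn ρ (e j)) k := by
  rw [pt_xp (xs_cross (hc.GChain_xs hF hΛ k).2.1)]
  refine ⟨_, ?_, rfl⟩
  rw [ChD.nn, ChD.nn, xp_rev_right _ (c.tr ρ (e j) k)]
  exact right_mem_uIcc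

theorem line_mem (hF : Fam ρ h Λ l e) (hΛ : Lam ρ Λ) (k : ℤ) :
    c.line ρ (l j) k ∈ Λ ∧ Gen ρ h (c.line ρ (l j) k) := by
  have h1 := hΛ.smul (c.β k) _ (hF.mem j)
  have h2 := (hF.gen j).smul (c.β k)
  unfold ChD.line
  cases c.s k
  · exact ⟨hΛ.rev _ h1, h2.rev⟩
  · exact ⟨h1, h2⟩

theorem stair (hc : IsChain ρ l e L Bad δ j c) (hF : Fam ρ h Λ l e) (hΛ : Lam ρ Λ) :
    Stair (ρ c.g) c.q (c.line ρ (l j)) (c.nn ρ (e j)) := by
  have hm := line_mem (c := c) (j := j) hF hΛ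
  have hn : ∀ k, Nest (c.line ρ (l j) (k + 1)) (c.line ρ (l j) k) := fun k =>
    (nest_iff_xp_le (hc.GChain_xs hF hΛ k).1 (hc.GChain_xs hF hΛ k).2.1
      (hΛ.nc _ (hm _).1 _ (hm _).1)).2 (hc.nb k).2.2.1.le
  have hne : ∀ k, c.line ρ (l j) (k + 1) ≠ c.line ρ (l j) k := fun k e =>
    (hc.nb k).2.2.1.ne (by rw [e])
  have hp : ∀ k, ρ c.g • c.line ρ (l j) k = c.line ρ (l j) (k + c.q) := fun k => by
    rw [ChD.line, ChD.line, smul_ori, hc.per_s, hc.per_β, map_mul, mul_smul]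
  have hch : ∀ (n : ℕ) (k : ℤ), Nest (c.line ρ (l j) (k + n)) (c.line ρ (l j) k) := fun n k => by
    induction n with
    | zero => simpa using Nest.refl _
    | succ n ih =>
      rw [Nat.cast_succ, ← add_assoc]
      exact (hn _).trans ih
  have hg : c.g ≠ 1 := fun e => by
    have h1 := hp 0
    have h2 := hch (c.q - 1) (0 + 1)
    rw [e, map_one, one_smul] at h1
    rw [Nat.cast_pred hc.q_pos, show (0 : ℤ) + 1 + (c.q - 1) = 0 + c.q by ring, ← h1] at h2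
    exact hne 0 ((hn 0).antisymm h2)
  refine ⟨hc.q_pos, hn, hne, fun k => ?_, fun k => ?_, hp, fun k => ?_, fun k => (hm k).2.1 _ hg⟩
  · have h1 := (hc.GChain_xs hF hΛ k).2.1
    exact (side_of_cross h1.1 h1.2.1).2
  · have h1 := (hc.GChain_xs hF hΛ k).1
    exact (side_of_cross h1.1 h1.2.1).1
  · rw [ChD.nn, ChD.nn, ChD.tr, ChD.tr, Geo.smul_rev, smul_ori, hc.per_s, hc.per_β, hc.per_o,
      map_mul, mul_smul]

theorem zpow_β (hc : IsChain ρ l e L Bad δ j c) (m k : ℤ) :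
    c.β (k + m * c.q) = c.g ^ m * c.β k := by
  have step : ∀ m : ℤ, c.β (k + (m + 1) * c.q) = c.g * c.β (k + m * c.q) := fun m => by
    rw [← hc.per_β]
    congr 1
    ring
  induction m using Int.induction_on with
  | zero => simp
  | succ m ih => rw [step, ih, add_comm (m : ℤ) 1, zpow_one_add, mul_assoc]
  | pred m ih =>
    have h1 := step (-(m : ℤ) - 1)
    rw [sub_add_cancel, ih] at h1
    rw [eq_inv_mul_of_mul_eq h1.symm]
    group

theorem piece_eq (hc : IsChain ρ l e L Bad δ j c) (hF : Fam ρ h Λ l e) (k : ℤ) :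
    piece (c.line ρ (l j)) (c.nn ρ (e j)) k = (fun u => ρ (c.β k) • pt (l j) u) ''
      uIcc (xp (l j) (e j (c.i k))) (xp (l j) (e j (c.o k))) := by
  rw [piece, hc.GChain_in hF, GChain_out hF, GChain_image, image_image]
  exact image_congr fun u _ => GChain_pt _ _ _ u

theorem chir' (hc : IsChain ρ l e L Bad δ j c) (hF : Fam ρ h Λ l e) :
    Chir (c.line ρ (l j)) (c.nn ρ (e j)) := by
  have hm := (hF.enum j).mono.monotone
  refine hc.chir.imp (fun h1 k => ?_) fun h1 k => ?_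
  all_goals
    have h2 := h1 k
    rw [hc.GChain_in hF, GChain_out hF]
    unfold GChain_F
    split_ifs at h2 ⊢ <;> linarith [hm h2]

theorem clean (hc : IsChain ρ l e L Bad δ j c) (hF : Fam ρ h Λ l e) (hΛ : Lam ρ Λ) {Z : Set Geo}
    (hZ : ∀ (g : Γ), ∀ C ∈ Z, ρ g • C ∈ Z)
    (hG : ∀ t ∈ Ico 0 L \ Bad j, ClearAt Z δ (e j t) (xp (e j t) (l j))) {C : Geo} (hC : C ∈ Z) :
    Clean (c.line ρ (l j)) (c.nn ρ (e j)) C := by
  intro k p hp h0
  obtain ⟨v, hv, rfl⟩ := (hc.GChain_jump hF hΛ k p).1 hp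
  have h1 : ClearAt Z δ (c.tr ρ (e j) k) (xp (c.tr ρ (e j) k) (c.line ρ (l j) k)) := by
    have h2 := (hG _ (hc.mem_o k)).smul hZ (c.β k)
    rw [ChD.tr, ChD.line, GChain_xp _ _ _ (GChain_cross hF j _)]
    unfold GChain_F
    cases c.s k
    · exact h2.rev
    · exact h2
  have h3 := hc.gap k
  have h4 := (hc.nb k).2.2.1
  by_contra hne
  rw [not_or, ChD.nn, Geo.rev_rev] at hne
  exact h1 C hC hne.2 hne.1 v ⟨by linarith [hv.1], by linarith [hv.2]⟩ h0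

theorem GChain_pp (hc : IsChain ρ l e L Bad δ j c) {j' : κ} {c' : ChD Γ}
    (hc' : IsChain ρ l e L Bad δ j' c') (hρ : Disc ρ) (hF : Fam ρ h Λ l e) (hΛ : Lam ρ Λ)
    (hjj : j = j' → c = c') {γ : Γ} {p : Pt} {k k' : ℤ}
    (hp : p ∈ piece (c'.line ρ (l j')) (c'.nn ρ (e j')) k')
    (hq : ρ γ • p ∈ piece (c.line ρ (l j)) (c.nn ρ (e j)) k) :
    j = j' ∧ γ ∈ Subgroup.zpowers c.g := by
  rw [hc'.piece_eq hF] at hp
  rw [hc.piece_eq hF] at hq
  obtain ⟨u', hu', rfl⟩ := hp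
  obtain ⟨u, hu, hq⟩ := hq
  simp only [← mul_smul, ← map_mul] at hq
  obtain ⟨b, hb⟩ := GChain_eq_or hΛ (hΛ.smul (c.β k) _ (hF.mem j))
    (hΛ.smul (γ * c'.β k') _ (hF.mem j')) (p := ρ (c.β k) • pt (l j) u)
    (by rw [side_smul_pt, side_pt]) (by rw [hq, side_smul_pt, side_pt])
  obtain ⟨rfl, h2, -⟩ := hF.line_unique hρ (b := true) hb
  obtain rfl := hjj rfl
  rw [h2, smul_left_cancel_iff] at hq
  obtain rfl := GChain_pt_inj hq
  obtain ⟨m, hm⟩ := hc.disj k k' (GChain_meet (hF.enum j').mono hu hu')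
  have h3 := hc.zpow_β m k'
  rw [show k' + m * c.q = k by linarith, ← h2] at h3
  exact ⟨rfl, m, (mul_right_cancel h3).symm⟩

theorem GChain_pj (hc : IsChain ρ l e L Bad δ j c) {j' : κ} {c' : ChD Γ}
    (hc' : IsChain ρ l e L Bad δ j' c') (hF : Fam ρ h Λ l e) (hΛ : Lam ρ Λ)
    {γ : Γ} {p : Pt} {k k' : ℤ} (hp : p ∈ piece (c'.line ρ (l j')) (c'.nn ρ (e j')) k')
    (hq : ρ γ • p ∈ jump (c.line ρ (l j)) (c.nn ρ (e j)) k) :
    ∃ k'', ρ γ • p ∈ piece (c.line ρ (l j)) (c.nn ρ (e j)) k'' := by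
  rw [hc'.piece_eq hF] at hp
  obtain ⟨u', hu', rfl⟩ := hp
  obtain ⟨v, hv, hq⟩ := (hc.GChain_jump hF hΛ k _).1 hq
  obtain ⟨-, h2, h3⟩ := hc.GChain_xs hF hΛ k
  have hn := hc.nb k
  have e1 := hc.GChain_end1 hF hΛ k
  have e2 := hc.GChain_end2 hF hΛ k
  have hL := (line_mem (c := c) (j := j) hF hΛ k).1
  simp only at hq ⊢
  rw [← hq]
  rw [← mul_smul, ← map_mul] at hq
  generalize γ * c'.β k' = a at hq
  generalize c.tr ρ (e j) k = T at hv hq h2 h3 hn e1 e2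
  have hm := hΛ.smul a _ (hF.mem j')
  have s1 : side T (pt T v).1 = 0 := side_pt T v
  have s2 : side (ρ a • l j') (pt T v).1 = 0 := by rw [hq, side_smul_pt, side_pt]
  have hx : Cross T (ρ a • l j') := by
    refine cross_of_common s1 s2 (fun e => ?_) fun e => ?_
    · exact hΛ.nc _ hm _ hL (e ▸ xs_cross h2)
    · exact hΛ.nc _ hm _ hL (e ▸ cross_rev_left.2 (xs_cross h2))
  obtain ⟨b, t, ht⟩ : ∃ (b : Bool) (t : ℤ), T = ori b (ρ a • e j' t) := by
    rcases hx.mem_xs' with h4 | h4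
    · obtain ⟨t, ht⟩ := ((hF.enum j').smul a).surj T h3 h4
      exact ⟨true, t, ht.symm⟩
    · obtain ⟨t, ht⟩ := ((hF.enum j').smul a).surj T.rev (rev_mem_lifts h3) h4
      exact ⟨false, t, by rw [ori_false, ht, Geo.rev_rev]⟩
  have s3 : side (e j' t) (pt (l j') u').1 = 0 := by
    rw [hq] at s1
    rw [ht, GChain_side_ori, side_smul_pt] at s1
    exact s1
  rw [(side_pt_eq_zero_iff (GChain_cross hF j' t).symm u').1 s3] at hu'
  have h5 : t ∈ Ico 0 L := (ordConnected_Ico.uIcc_subset (hc'.mem_i k').1 (hc'.mem_o k').1)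
    (GChain_between (hF.enum j').mono hu')
  have h6 := hn.2.2.2 (ori b (ρ a • l j')) ⟨j', t, h5, a, b, rfl, ht⟩
  rw [GChain_xp_ori, ← (side_pt_eq_zero_iff hx v).1 s2] at h6
  rcases hv.1.eq_or_lt with h7 | h7
  · exact ⟨_, h7 ▸ e1⟩
  rcases hv.2.eq_or_lt with h8 | h8
  · exact ⟨_, h8 ▸ e2⟩
  exact absurd ⟨h7, h8⟩ h6

theorem GChain_jj (hc : IsChain ρ l e L Bad δ j c) {j' : κ} {c' : ChD Γ}
    (hc' : IsChain ρ l e L Bad δ j' c') (hF : Fam ρ h Λ l e) (hΛ : Lam ρ Λ)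
    (hG : ∀ t ∈ Ico 0 L \ Bad j, ClearAt (lifts ρ h) δ (e j t) (xp (e j t) (l j)))
    {γ : Γ} {p : Pt} {k k' : ℤ} (hp : p ∈ jump (c'.line ρ (l j')) (c'.nn ρ (e j')) k')
    (hq : ρ γ • p ∈ jump (c.line ρ (l j)) (c.nn ρ (e j)) k) :
    ∃ (p' : Pt) (k'' : ℤ), (p' ∈ piece (c'.line ρ (l j')) (c'.nn ρ (e j')) k'' ∧
      ρ γ • p' ∈ jump (c.line ρ (l j)) (c.nn ρ (e j)) k) ∨
      (p' ∈ jump (c'.line ρ (l j')) (c'.nn ρ (e j')) k' ∧
        ρ γ • p' ∈ piece (c.line ρ (l j)) (c.nn ρ (e j)) k'') := by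
  have J := hc.GChain_jump hF hΛ k
  have J' := hc'.GChain_jump hF hΛ k'
  obtain ⟨t, ht, rfl⟩ := (J' p).1 hp
  have hcl := hc.clean hF hΛ (fun g C hC => smul_mem_lifts g hC) hG
    (smul_mem_lifts γ (hc'.GChain_xs hF hΛ k').2.2) k _ hq (by rw [side_smul_pt, side_pt])
  obtain ⟨v, hv, hq⟩ := (J _).1 hq
  have e1 := hc.GChain_end1 hF hΛ k
  have e1' := hc'.GChain_end1 hF hΛ k'
  have e2' := hc'.GChain_end2 hF hΛ k'
  rw [ChD.nn, Geo.rev_rev] at hcl
  generalize c.tr ρ (e j) k = T at *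
  generalize c'.tr ρ (e j') k' = T' at *
  rcases hcl with hcl | hcl
  · have key : ∀ u, ρ γ • pt T' u = pt T (-(u + sh (ρ γ) T')) := fun u => by
      rw [smul_pt, hcl, pt_rev]
    rw [key] at hq
    obtain rfl := GChain_pt_inj hq
    rcases le_total (xp T (c.line ρ (l j) (k + 1)))
      (-(xp T' (c'.line ρ (l j') k') + sh (ρ γ) T')) with h1 | h1
    · exact ⟨_, _, Or.inl ⟨e2', (J _).2 ⟨_, ⟨h1, by linarith [hv.2, ht.2]⟩, (key _).symm⟩⟩⟩
    · refine ⟨pt T' (-xp T (c.line ρ (l j) (k + 1)) - sh (ρ γ) T'), k + 1,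
        Or.inr ⟨(J' _).2 ⟨_, ⟨by linarith [hv.1, ht.1], by linarith⟩, rfl⟩, ?_⟩⟩
      rw [key, sub_add_cancel, neg_neg]
      exact e1
  · have key : ∀ u, ρ γ • pt T' u = pt T (u + sh (ρ γ) T') := fun u => by
      rw [smul_pt, hcl]
    rw [key] at hq
    obtain rfl := GChain_pt_inj hq
    rcases le_total (xp T (c.line ρ (l j) (k + 1)))
      (xp T' (c'.line ρ (l j') (k' + 1)) + sh (ρ γ) T') with h1 | h1
    · exact ⟨_, _, Or.inl ⟨e1', (J _).2 ⟨_, ⟨h1, by linarith [hv.2, ht.1]⟩, (key _).symm⟩⟩⟩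
    · refine ⟨pt T' (xp T (c.line ρ (l j) (k + 1)) - sh (ρ γ) T'), k + 1,
        Or.inr ⟨(J' _).2 ⟨_, ⟨by linarith, by linarith [hv.1, ht.2]⟩, rfl⟩, ?_⟩⟩
      rw [key, sub_add_cancel]
      exact e1

theorem eq_of_mem_path (hc : IsChain ρ l e L Bad δ j c) {j' : κ} {c' : ChD Γ}
    (hc' : IsChain ρ l e L Bad δ j' c') (hρ : Disc ρ) (hF : Fam ρ h Λ l e) (hΛ : Lam ρ Λ)
    (hG : ∀ t ∈ Ico 0 L \ Bad j, ClearAt (lifts ρ h) δ (e j t) (xp (e j t) (l j)))
    (hjj : j = j' → c = c') {γ : Γ} {p : Pt} (hp : p ∈ path (c'.line ρ (l j')) (c'.nn ρ (e j')))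
    (hq : ρ γ • p ∈ path (c.line ρ (l j)) (c.nn ρ (e j))) :
    j = j' ∧ γ ∈ Subgroup.zpowers c.g := by
  have jp : ∀ {p : Pt} {k k' : ℤ}, p ∈ jump (c'.line ρ (l j')) (c'.nn ρ (e j')) k' →
      ρ γ • p ∈ piece (c.line ρ (l j)) (c.nn ρ (e j)) k → j = j' ∧ γ ∈ Subgroup.zpowers c.g :=
    fun {p k k'} hp hq => by
      have e1 : ρ γ⁻¹ • ρ γ • p = p := by rw [map_inv, inv_smul_smul]
      obtain ⟨k'', h1⟩ := hc'.GChain_pj hc hF hΛ (γ := γ⁻¹) (k := k') hq (by rwa [e1])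
      rw [e1] at h1
      exact hc.GChain_pp hc' hρ hF hΛ hjj h1 hq
  have pj : ∀ {p : Pt} {k k' : ℤ}, p ∈ piece (c'.line ρ (l j')) (c'.nn ρ (e j')) k' →
      ρ γ • p ∈ jump (c.line ρ (l j)) (c.nn ρ (e j)) k → j = j' ∧ γ ∈ Subgroup.zpowers c.g :=
    fun hp hq => by
      obtain ⟨k'', h1⟩ := hc.GChain_pj hc' hF hΛ hp hq
      exact hc.GChain_pp hc' hρ hF hΛ hjj hp h1
  obtain ⟨k', hp | hp⟩ := mem_iUnion.1 hp <;> obtain ⟨k, hq | hq⟩ := mem_iUnion.1 hq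
  · exact hc.GChain_pp hc' hρ hF hΛ hjj hp hq
  · exact pj hp hq
  · exact jp hp hq
  · obtain ⟨p', k'', h1 | h1⟩ := hc.GChain_jj hc' hF hΛ hG hp hq
    · exact pj h1.1 h1.2
    · exact jp h1.1 h1.2

theorem not_cross (hc : IsChain ρ l e L Bad δ j c) {j' : κ} {c' : ChD Γ}
    (hc' : IsChain ρ l e L Bad δ j' c') (hρ : Disc ρ) (hF : Fam ρ h Λ l e) (hΛ : Lam ρ Λ)
    (hG : ∀ t ∈ Ico 0 L \ Bad j, ClearAt (lifts ρ h) δ (e j t) (xp (e j t) (l j)))
    (hjj : j = j' → c = c') (γ : Γ) : ¬ Cross (ax (ρ c.g)) (ρ γ • ax (ρ c'.g)) := by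
  have h1 := hc.stair hF hΛ
  have h2 := hc'.stair hF hΛ
  by_cases hd : Disjoint (path (c.line ρ (l j)) (c.nn ρ (e j)))
      (path (fun k => ρ γ • c'.line ρ (l j') k) fun k => ρ γ • c'.nn ρ (e j') k)
  · rw [← h2.hyp.ax_conj]
    exact h1.not_cross (h2.smul (ρ γ)) hd
  · rw [h2.path_smul, not_disjoint_iff] at hd
    obtain ⟨_, hq, p, hp, rfl⟩ := hd
    obtain ⟨h3, m, rfl⟩ := hc.eq_of_mem_path hc' hρ hF hΛ hG hjj hp hq
    rw [← hjj h3, map_zpow, h1.hyp.zpow_smul_ax]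
    exact not_cross_self _

/-- Closed leaves in `Z` do not cross the axis. -/
theorem not_cross_leaf (hc : IsChain ρ l e L Bad δ j c) (hF : Fam ρ h Λ l e) (hΛ : Lam ρ Λ)
    {Z : Set Geo} (hZ : ∀ (g : Γ), ∀ C ∈ Z, ρ g • C ∈ Z)
    (hG : ∀ t ∈ Ico 0 L \ Bad j, ClearAt Z δ (e j t) (xp (e j t) (l j))) {C : Geo} (hC : C ∈ Z)
    (hCΛ : C ∈ Λ) {s : Γ} (hs : s ≠ 1) (hsC : ρ s • C = C) : ¬ Cross (ax (ρ c.g)) C := by
  intro hx
  obtain ⟨t, ht⟩ := (hc.stair hF hΛ).exists_mem_path hx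
  obtain ⟨k, hk | hk⟩ := mem_iUnion.1 ht
  · obtain ⟨hL, hg⟩ := line_mem (c := c) (j := j) hF hΛ k
    obtain ⟨u, -, hu⟩ := hk
    obtain ⟨b, hb⟩ := GChain_eq_or hΛ hCΛ hL (side_pt C t) (by rw [← hu, side_pt])
    exact hs (hg.eq_one (by rw [hb, smul_ori, hsC]))
  · have h1 := xs_cross (hc.GChain_xs hF hΛ k).2.1
    have hL := (line_mem (c := c) (j := j) hF hΛ k).1
    rcases hc.clean hF hΛ hZ hG hC k _ hk (side_pt C t) with h2 | h2
    · exact hΛ.nc _ hCΛ _ hL (h2 ▸ cross_rev_left.2 h1)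
    · exact hΛ.nc _ hCΛ _ hL (h2 ▸ h1)

end IsChain

end HRT
end

-- merged part: Pool.Agent.Work.MP_35beee_gt.GChainI
section
/-!
Intersection numbers of the period of a closed chain.

Plan. `ic_le`: `Stair.ic_eq` for both currents; the jump `k` is an interval with an endpoint at
the good crossing `(line k, tr k)` (`GoodSt.smul`, `GoodSt.rev`, `Cur.xs_rev`), of length in
`(0, δ]`. `inter_sub_le`: `inter_eq_ncard` with `t = 0` and `Stair.card_le`, `Stair.le_card` for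
`W` the set of translates of `ax (ρ f)` (`W ⊆ lifts ρ h`, `ax_eq_of_share`). The lines of `W`
crossing the inside of the piece `k` correspond to the times strictly between `i k` and `o k` with
`e j t ∈ lifts ρ fun _ => f` (a lift or its reverse is in `W`, not both, by `smul_ne_rev`).
-/

namespace HRT

open Set Filter Topology Real MeasureTheory

variable {Γ : Type*} [Group Γ] {ρ : Γ →* Isom} {Λ : Set Geo} {ι : Type} {h : ι → Γ}
  {κ : Type} {l : κ → Geo} {e : κ → ℤ → Geo} {L : ℤ} {Bad : κ → Set ℤ} {δ : ℝ} {j : κ} {c : ChD Γ}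

theorem GChainI_cross (g : Isom) (b b' : Bool) {m A : Geo} :
    Cross (ori b (g • m)) (ori b' (g • A)) ↔ Cross m A := by
  cases b <;> cases b' <;> simp

theorem GChainI_xp (g : Isom) (b b' : Bool) {m A : Geo} (hx : Cross m A) :
    xp (ori b (g • m)) (ori b' (g • A)) = (if b then 1 else -1) * (xp m A + sh g m) := by
  have h1 : Cross (g • m) (g • A) := (cross_smul g).mpr hx
  cases b <;> cases b' <;>
    simp [xp_rev_right, xp_rev_left h1, xp_smul g hx]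

theorem GChainI_dens {μ ν : Measure Geo} (hμ : Cur ρ μ) (hν : Cur ρ ν) {ε : ℝ} {A m : Geo}
    (hx : Cross A m) (hd : DensAt μ ν ε δ A (xp A m)) (g : Γ) (b : Bool) :
    DensAt μ ν ε δ (ori b (ρ g • A)).rev (xp (ori b (ρ g • A)).rev (ori b (ρ g • m))) := by
  rw [ori_rev, GChainI_xp (ρ g) (!b) b hx]
  cases b
  · simpa using hd.smul hμ hν g
  · simpa only [Bool.not_true, ori_false, Bool.false_eq_true, if_false, neg_one_mul] using
      (hd.smul hμ hν g).rev hμ hν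

theorem GChainI_uIoo {F : ℤ → ℝ} (hF : StrictMono F) (b : Bool) (s : ℝ) (t i o : ℤ) :
    (if b then 1 else -1) * (F t + s) ∈
      uIoo ((if b then 1 else -1) * (F i + s)) ((if b then 1 else -1) * (F o + s)) ↔
        t ∈ Finset.Ioo (min i o) (max i o) := by
  cases b
  · simp only [uIoo, mem_Ioo, inf_lt_iff, lt_sup_iff, Finset.mem_Ioo, Bool.false_eq_true,
      if_false, neg_one_mul, neg_lt_neg_iff, add_lt_add_iff_right, hF.lt_iff_lt]
    exact and_comm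
  · simp only [uIoo, mem_Ioo, inf_lt_iff, lt_sup_iff, Finset.mem_Ioo, if_true, one_mul,
      add_lt_add_iff_right, hF.lt_iff_lt]

theorem GChainI_count (P : ℤ → Prop) [DecidablePred P] (a b : ℤ) :
    |(((Finset.Ioo a b).filter P).card : ℝ) -
      ∑ t ∈ Finset.Ico a b, (if P t then (1 : ℝ) else 0)| ≤ 1 := by
  rw [Finset.sum_boole]
  have h1 : ((Finset.Ioo a b).filter P).card ≤ ((Finset.Ico a b).filter P).card :=
    Finset.card_le_card (Finset.filter_subset_filter P Finset.Ioo_subset_Ico_self)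
  have h2 : ((Finset.Ico a b).filter P).card ≤ ((Finset.Ioo a b).filter P).card + 1 := by
    refine le_trans (Finset.card_le_card ?_) (Finset.card_insert_le a _)
    intro t ht
    simp only [Finset.mem_filter, Finset.mem_Ico, Finset.mem_insert, Finset.mem_Ioo] at ht ⊢
    rcases ht.1.1.eq_or_lt with h | h
    · exact Or.inl h.symm
    · exact Or.inr ⟨⟨h, ht.1.2⟩, ht.2⟩
  have h3 : (((Finset.Ioo a b).filter P).card : ℝ) ≤ ((Finset.Ico a b).filter P).card := by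
    exact_mod_cast h1
  have h4 : (((Finset.Ico a b).filter P).card : ℝ) ≤ ((Finset.Ioo a b).filter P).card + 1 := by
    exact_mod_cast h2
  rw [abs_le]
  constructor <;> linarith

namespace IsChain

open Classical in
theorem GChainI_inner (hc : IsChain ρ l e L Bad δ j c) (hρ : Disc ρ) (hF : Fam ρ h Λ l e) (r : ι)
    (k : ℤ) :
    (inner {m | ∃ a : Γ, m = ρ a • ax (ρ (h r))} (c.line ρ (l j)) (c.nn ρ (e j)) k).Finite ∧
      (inner {m | ∃ a : Γ, m = ρ a • ax (ρ (h r))} (c.line ρ (l j)) (c.nn ρ (e j)) k).ncard =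
        ((Finset.Ioo (min (c.i k) (c.o k)) (max (c.i k) (c.o k))).filter fun t =>
          e j t ∈ lifts ρ fun _ : Unit => h r).card := by
  set W : Set Geo := {m | ∃ a : Γ, m = ρ a • ax (ρ (h r))} with hW
  have he := hF.enum j
  have hx : ∀ t, Cross (l j) (e j t) := fun t => (xs_cross (he.xs t)).symm
  have h1 : ∀ (b : Bool) (t : ℤ), xp (c.line ρ (l j) k) (ori b (ρ (c.β k) • e j t)) =
      (if c.s k then 1 else -1) * (xp (l j) (e j t) + sh (ρ (c.β k)) (l j)) :=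
    fun b t => GChainI_xp _ _ _ (hx t)
  have h2 : xp (c.line ρ (l j) k) (c.nn ρ (e j) k) =
      (if c.s k then 1 else -1) * (xp (l j) (e j (c.o k)) + sh (ρ (c.β k)) (l j)) := by
    rw [ChD.nn, xp_rev_right]
    exact h1 _ _
  have h3 : xp (c.line ρ (l j) k) (c.nn ρ (e j) (k - 1)) =
      (if c.s k then 1 else -1) * (xp (l j) (e j (c.i k)) + sh (ρ (c.β k)) (l j)) := by
    rw [ChD.nn, xp_rev_right, hc.entry, sub_add_cancel]
    exact h1 _ _
  have h4 : ∀ (b : Bool) (t : ℤ), xp (c.line ρ (l j) k) (ori b (ρ (c.β k) • e j t)) ∈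
      uIoo (xp (c.line ρ (l j) k) (c.nn ρ (e j) (k - 1)))
        (xp (c.line ρ (l j) k) (c.nn ρ (e j) k)) ↔
      t ∈ Finset.Ioo (min (c.i k) (c.o k)) (max (c.i k) (c.o k)) := by
    intro b t
    rw [h1, h2, h3]
    exact GChainI_uIoo he.mono _ _ _ _ _
  set φ : ℤ → Geo := fun t => ori (decide (ρ (c.β k) • e j t ∈ W)) (ρ (c.β k) • e j t) with hφ
  have hinj : Function.Injective φ := by
    intro t t' htt
    have h5 := congrArg (xp (c.line ρ (l j) k)) htt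
    simp only [hφ, h1] at h5
    have h6 : (if c.s k then (1 : ℝ) else -1) ≠ 0 := by split_ifs <;> norm_num
    exact he.mono.injective (add_right_cancel (mul_left_cancel₀ h6 h5))
  have him : inner W (c.line ρ (l j)) (c.nn ρ (e j)) k =
      φ '' ((Finset.Ioo (min (c.i k) (c.o k)) (max (c.i k) (c.o k))).filter fun t =>
        e j t ∈ lifts ρ fun _ : Unit => h r : Finset ℤ) := by
    ext m
    constructor
    · rintro ⟨⟨a, ha⟩, hm1, hm2⟩
      have hA : ρ ((c.β k)⁻¹ * a) • ax (ρ (h r)) ∈ lifts ρ h := smul_mem_lifts _ (ax_mem_lifts r)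
      have hm : ρ (c.β k) • ρ ((c.β k)⁻¹ * a) • ax (ρ (h r)) = m := by
        rw [← mul_smul, ← map_mul, mul_inv_cancel_left, ha]
      have hcr : Cross (l j) (ρ ((c.β k)⁻¹ * a) • ax (ρ (h r))) := by
        rw [← GChainI_cross (ρ (c.β k)) (c.s k) true, ori_true, hm]
        exact hm1
      rcases hcr.symm.mem_xs' with h5 | h5
      · obtain ⟨t, ht⟩ := he.surj _ hA h5
        have h6 : ρ (c.β k) • e j t = m := by rw [ht, hm]
        refine ⟨t, ?_, ?_⟩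
        · rw [Finset.mem_coe, Finset.mem_filter, ← h4 true, ori_true, h6, ht]
          exact ⟨hm2, (), _, Or.inl rfl⟩
        · have h7 : m ∈ W := ⟨a, ha⟩
          simp only [hφ, h6, h7, decide_true, ori_true]
      · obtain ⟨t, ht⟩ := he.surj _ (rev_mem_lifts hA) h5
        have h6 : ρ (c.β k) • e j t = m.rev := by rw [ht, Geo.smul_rev, hm]
        refine ⟨t, ?_, ?_⟩
        · rw [Finset.mem_coe, Finset.mem_filter, ← h4 true, ori_true, h6, ht, xp_rev_right]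
          exact ⟨hm2, (), _, Or.inr rfl⟩
        · have h7 : m.rev ∉ W := by
            rintro ⟨a', ha'⟩
            exact hρ.GInter_ne_rev (ax (ρ (h r))) a' a (by rw [← ha, ha'])
          simp only [hφ, h6, h7, decide_false, ori_false, Geo.rev_rev]
    · rintro ⟨t, ht, rfl⟩
      rw [Finset.mem_coe, Finset.mem_filter] at ht
      refine ⟨?_, (GChainI_cross _ _ _).mpr (hx t), (h4 _ t).mpr ht.1⟩
      by_cases h5 : ρ (c.β k) • e j t ∈ W
      · simp only [hφ, h5, decide_true, ori_true]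
      · simp only [hφ, h5, decide_false, ori_false]
        obtain ⟨_, a, ha | ha⟩ := ht.2
        · exact (h5 ⟨c.β k * a, by rw [ha, map_mul, mul_smul]⟩).elim
        · exact ⟨c.β k * a, by rw [ha, map_mul, mul_smul, Geo.smul_rev, Geo.rev_rev]⟩
  rw [him]
  exact ⟨(Finset.finite_toSet _).image _, by
    rw [Set.ncard_image_of_injective _ hinj, Set.ncard_coe_finset]⟩

theorem ic_le (hc : IsChain ρ l e L Bad δ j c) (hF : Fam ρ h Λ l e) (hΛ : Lam ρ Λ)
    {μ ν : Measure Geo} (hμ : Cur ρ μ) (hν : Cur ρ ν) [NullSingletonClass μ]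
    [NullSingletonClass ν] (h0 : μ Λᶜ = 0) (h0' : ν Λᶜ = 0) {ε : ℝ}
    (hG : ∀ t ∈ Ico 0 L \ Bad j, DensAt μ ν ε δ (e j t) (xp (e j t) (l j))) :
    0 < ic μ (ρ c.g) ∧ ic ν (ρ c.g) ≤ ε * ic μ (ρ c.g) := by
  have hs := hc.stair hF hΛ
  have hl : ∀ k, c.line ρ (l j) k ∈ Λ := fun k => (IsChain.line_mem hF hΛ k).1
  have key : ∀ k : ℤ, 0 < μ.real (xs (c.nn ρ (e j) k) (Ioo (xp (c.nn ρ (e j) k) (c.line ρ (l j) k))
      (xp (c.nn ρ (e j) k) (c.line ρ (l j) (k + 1))))) ∧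
      ν.real (xs (c.nn ρ (e j) k) (Ioo (xp (c.nn ρ (e j) k) (c.line ρ (l j) k))
        (xp (c.nn ρ (e j) k) (c.line ρ (l j) (k + 1))))) ≤
      ε * μ.real (xs (c.nn ρ (e j) k) (Ioo (xp (c.nn ρ (e j) k) (c.line ρ (l j) k))
        (xp (c.nn ρ (e j) k) (c.line ρ (l j) (k + 1))))) := by
    intro k
    have h1 : DensAt μ ν ε δ (c.nn ρ (e j) k) (xp (c.nn ρ (e j) k) (c.line ρ (l j) k)) :=
      GChainI_dens hμ hν (xs_cross ((hF.enum j).xs _)) (hG _ (hc.mem_o k)) (c.β k) (c.s k)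
    have h2 := xp_rev_left (xs_cross (hF.mem_xs hΛ (hc.nb k).1).2.2.1)
    have h3 := xp_rev_left (xs_cross (hF.mem_xs hΛ (hc.nb k).2.1).2.2.1)
    have h4 := hc.gap k
    have h5 := h1 (xp (c.nn ρ (e j) k) (c.line ρ (l j) (k + 1)) -
      xp (c.nn ρ (e j) k) (c.line ρ (l j) k))
      ⟨sub_pos.mpr (hs.xp_lt k), by rw [ChD.nn, h2, h3]; linarith⟩
    rw [add_sub_cancel] at h5
    exact ⟨h5.1, h5.2.1⟩
  rw [hs.ic_eq hμ hΛ h0 hl, hs.ic_eq hν hΛ h0' hl, Finset.mul_sum]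
  exact ⟨Finset.sum_pos (fun k _ => (key k).1) (Finset.nonempty_range_iff.mpr hc.q_pos.ne'),
    Finset.sum_le_sum fun k _ => (key k).2⟩

open Classical in
theorem inter_sub_le (hc : IsChain ρ l e L Bad δ j c) (hρ : Disc ρ) (hF : Fam ρ h Λ l e)
    (hΛ : Lam ρ Λ) (ha : Arr ρ h)
    (hG : ∀ t ∈ Ico 0 L \ Bad j, ClearAt (lifts ρ h) δ (e j t) (xp (e j t) (l j))) (r : ι) :
    |(inter ρ c.g (h r) : ℝ) - ∑ k ∈ Finset.range c.q,
      ∑ t ∈ Finset.Ico (min (c.i k) (c.o k)) (max (c.i k) (c.o k)),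
        (if e j t ∈ lifts ρ fun _ : Unit => h r then (1 : ℝ) else 0)| ≤ 6 := by
  have hs := hc.stair hF hΛ
  set W : Set Geo := {m | ∃ a : Γ, m = ρ a • ax (ρ (h r))} with hW
  have hx : xset ρ c.g (h r) 0 =
      {m ∈ W | Cross (ax (ρ c.g)) m ∧ xp (ax (ρ c.g)) m ∈ Ico 0 (tl (ρ c.g))} := by
    rw [xset, zero_add]
    rfl
  have h1 : ∀ (n : ℤ), ∀ m ∈ W, ρ c.g ^ n • m ∈ W := by
    rintro n m ⟨a, rfl⟩
    exact ⟨c.g ^ n * a, by rw [map_mul, map_zpow, mul_smul]⟩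
  have h2 : ∀ m ∈ W, Clean (c.line ρ (l j)) (c.nn ρ (e j)) m := by
    rintro m ⟨a, rfl⟩
    exact hc.clean hF hΛ (fun g C hC => smul_mem_lifts g hC) hG
      (smul_mem_lifts a (ax_mem_lifts r))
  have h3 : ∀ m ∈ W, side (ax (ρ c.g)) m.src.1 = 0 ∨ side (ax (ρ c.g)) m.tgt.1 = 0 →
      m = ax (ρ c.g) ∨ m = (ax (ρ c.g)).rev := by
    rintro m ⟨a, rfl⟩
    rw [← ax_conj' (ha.hyp r)]
    refine hρ.ax_eq_of_share hs.hyp ?_
    rw [map_mul, map_mul, map_inv]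
    exact (ha.hyp r).conj _
  have h4 := hs.card_le h1 h2 fun k => (hc.GChainI_inner hρ hF r k).1
  have h5 := hs.le_card (hc.chir' hF) h1 h2 h3 (hx ▸ hρ.finite_xset (ha.hyp r) 0)
  rw [← hx, ← hρ.inter_eq_ncard hs.hyp (ha.hyp r) (ha.prim r) 0] at h4 h5
  have h6 : ∀ k : ℤ, |((inner W (c.line ρ (l j)) (c.nn ρ (e j)) k).ncard : ℝ) -
      ∑ t ∈ Finset.Ico (min (c.i k) (c.o k)) (max (c.i k) (c.o k)),
        (if e j t ∈ lifts ρ fun _ : Unit => h r then (1 : ℝ) else 0)| ≤ 1 := by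
    intro k
    rw [(hc.GChainI_inner hρ hF r k).2]
    exact GChainI_count _ _ _
  have h7 := (Finset.abs_sum_le_sum_abs _ (Finset.range c.q)).trans
    (Finset.sum_le_sum fun (k : ℕ) _ => h6 k)
  rw [Finset.sum_sub_distrib, Finset.sum_const, Finset.card_range, nsmul_eq_mul, mul_one,
    abs_le] at h7
  have h8 : (c.q : ℝ) ≤ 2 := by exact_mod_cast hc.q_le
  have h9 : (inter ρ c.g (h r) : ℝ) ≤ ∑ k ∈ Finset.range c.q,
      ((inner W (c.line ρ (l j)) (c.nn ρ (e j)) k).ncard : ℝ) + 2 * c.q := by exact_mod_cast h4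
  have h10 : ∑ k ∈ Finset.range c.q, ((inner W (c.line ρ (l j)) (c.nn ρ (e j)) k).ncard : ℝ) ≤
      inter ρ c.g (h r) + 2 * c.q := by exact_mod_cast h5
  rw [abs_le]
  constructor <;> linarith [h7.1, h7.2]

end IsChain

end HRT
end

-- merged part: Pool.Agent.Work.MP_35beee_gt.GLM
section
/-!
Disjoint simple closed curves approximating mutually singular measured laminations.

Plan. `exists_invS`: for `i ≠ j` a set that is null for `μ i` and conull for `μ j` can be replaced by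
the intersection of its translates and their reverses (countably many); intersect over all pairs.
`exists_periods`: `exists_arr` for `F`, `Z = lifts ρ h ∪ lifts ρ S`, `ν j = ∑ i ≠ j, μ i`,
`ε' = min ε (1/2)`. Choose `θ` with `15 * card κ * θ ≤ 1/2` and `tot (μ j) * θ ≤ ε`; `exists_leaf`
gives `M j`; choose `N₀ > 2 D` with `tot (μ j) * (6 + 4 M j) ≤ ε * (N₀ / D - 4)`; take the least
`δ`, the constant `K` of `exists_fine` for `δ / 2`, and `L > 2 K`. The leaves form a `Fam` because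
the sets `E j` are disjoint and invariant. `exists_chain` gives chains `c j`; the weight is
`tot (μ j) / (2 * len)`; use `ic_le`, `inter_sub_le`, `not_cross`, `not_cross_leaf`
(`inter_conj_right`, `ic_conj` to pass from `h r` to `f`).
`exists_LM`: replace the periods by their primitive roots (`exists_root`, `Hyp.pow`, `ic_pow`,
`inter_pow`) and use `multi_iff`: if two axes agree up to translation and reversal then the
elements are conjugate up to inversion (`eq_of_ax_eq`), against the inequalities for `ic`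
(`Lam.ic_eq_zero` for the curves `S s`).
-/

namespace HRT

open Set Filter Topology Real MeasureTheory

variable {Γ : Type*} [Group Γ] {ρ : Γ →* Isom} {N : ℝ → ℝ} {Λ : Set Geo}
  {κ : Type} [Fintype κ] {μ : κ → Measure Geo}

theorem GLM_core [Countable Γ] {ν : Measure Geo} (hν : Cur ρ ν) {s : Set Geo}
    (hs : MeasurableSet s) (h0 : ν sᶜ = 0) : ∃ A, InvS ρ A ∧ A ⊆ s ∧ ν Aᶜ = 0 := by
  have hm : MeasurableSet (s ∩ Geo.rev ⁻¹' s) := hs.inter (measurable_rev hs)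
  have hz : ν (s ∩ Geo.rev ⁻¹' s)ᶜ = 0 := by
    rw [compl_inter, ← preimage_compl]
    refine measure_union_null h0 ?_
    rw [hν.rev.measure_preimage hs.compl.nullMeasurableSet, h0]
  refine ⟨⋂ g : Γ, (fun l : Geo => ρ g • l) ⁻¹' (s ∩ Geo.rev ⁻¹' s), ⟨?_, ?_, ?_⟩, ?_, ?_⟩
  · exact MeasurableSet.iInter fun g => measurable_smul_geo _ hm
  · intro k l hl
    refine mem_iInter.2 fun g => ?_
    have h1 := mem_iInter.1 hl (g * k)
    rwa [mem_preimage, map_mul, mul_smul] at h1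
  · intro l hl
    refine mem_iInter.2 fun g => ?_
    have h1 := mem_iInter.1 hl g
    exact ⟨h1.2, h1.1⟩
  · intro l hl
    have h1 := (mem_iInter.1 hl 1).1
    simpa using h1
  · rw [compl_iInter]
    refine measure_iUnion_null fun g => ?_
    rw [← preimage_compl, (hν.smul g).measure_preimage hm.compl.nullMeasurableSet, hz]

theorem exists_invS (hρ : Disc ρ) (hμ : ∀ j, Cur ρ (μ j)) (hs : ∀ i j, i ≠ j → μ i ⟂ₘ μ j) :
    ∃ E : κ → Set Geo, (∀ j, InvS ρ (E j) ∧ μ j (E j)ᶜ = 0) ∧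
      ∀ i j, i ≠ j → Disjoint (E i) (E j) := by
  have : Countable Γ := hρ.countable
  have h1 : ∀ i j, ∃ A, InvS ρ A ∧ (i ≠ j → μ i A = 0 ∧ μ j Aᶜ = 0) := fun i j => by
    by_cases hij : i = j
    · exact ⟨∅, ⟨MeasurableSet.empty, fun _ _ h => h.elim, fun _ h => h.elim⟩, fun h => absurd hij h⟩
    · obtain ⟨s, h1, h2, h3⟩ := hs i j hij
      obtain ⟨A, a1, a2, a3⟩ := GLM_core (hμ j) h1 h3
      exact ⟨A, a1, fun _ => ⟨measure_mono_null a2 h2, a3⟩⟩
  choose A hA hA' using h1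
  refine ⟨fun j => (⋃ i : {i // i ≠ j}, (A i j ∩ (A j i)ᶜ)ᶜ)ᶜ, fun j => ⟨?_, ?_⟩,
    fun i j hij => ?_⟩
  · exact (InvS.iUnion fun i => ((hA _ _).inter (hA _ _).compl).compl).compl
  · rw [compl_compl]
    refine measure_iUnion_null fun i => ?_
    rw [compl_inter, compl_compl]
    exact measure_union_null (hA' i j i.2).2 (hA' j i i.2.symm).1
  · refine Set.disjoint_left.2 fun l h1 h2 => ?_
    simp only [mem_compl_iff, mem_iUnion, not_exists, not_not] at h1 h2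
    exact (h1 ⟨j, hij.symm⟩).2 (h2 ⟨i, hij⟩).1

theorem GLM_theta (T : κ → ℝ) (hT : ∀ j, 0 ≤ T j) {ε : ℝ} (hε : 0 < ε) :
    ∃ θ : ℝ, 0 < θ ∧ 15 * Fintype.card κ * θ ≤ 1 / 2 ∧ ∀ j, T j * θ ≤ ε := by
  have h1 : 0 ≤ ∑ j, T j := Finset.sum_nonneg fun j _ => hT j
  have h2 : (0 : ℝ) < 30 * Fintype.card κ + 1 := by positivity
  have h3 : 0 < ∑ j, T j + 1 := by linarith
  refine ⟨min (1 / (30 * Fintype.card κ + 1)) (ε / (∑ j, T j + 1)),
    lt_min (one_div_pos.2 h2) (div_pos hε h3), ?_, fun j => ?_⟩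
  · refine (mul_le_mul_of_nonneg_left (min_le_left _ _) (by positivity)).trans ?_
    rw [mul_one_div, div_le_iff₀ h2]
    linarith
  · refine (mul_le_mul_of_nonneg_left (min_le_right _ _) (hT j)).trans ?_
    have h4 := Finset.single_le_sum (fun i _ => hT i) (Finset.mem_univ j)
    rw [← mul_div_assoc, div_le_iff₀ h3, mul_comm]
    exact mul_le_mul_of_nonneg_left (by linarith) hε.le

theorem GLM_final {T n I A a θ M ε : ℝ} (hT : 0 < T) (hn : 0 < n) (h1 : |I - A| ≤ 6)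
    (h2 : |A - 2 * a / T * n| ≤ θ * n + 4 * M) (h3 : T * (6 + 4 * M) ≤ ε * n) (h4 : T * θ ≤ ε) :
    |T / (2 * n) * I - a| ≤ ε := by
  have e : T / (2 * n) * I - a = T / (2 * n) * (I - 2 * a / T * n) := by
    field_simp
  have h5 : |I - 2 * a / T * n| ≤ 6 + (θ * n + 4 * M) := (abs_sub_le _ A _).trans (add_le_add h1 h2)
  have h6 := mul_le_mul_of_nonneg_right h4 hn.le
  rw [e, abs_mul, abs_of_pos (div_pos hT (by positivity)), div_mul_eq_mul_div,
    div_le_iff₀ (by positivity)]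
  refine (mul_le_mul_of_nonneg_left h5 hT.le).trans ?_
  linarith

omit [Fintype κ] in
theorem GLM_sum {l : κ → Geo} {e : κ → ℤ → Geo} {L : ℤ} {Bad : κ → Set ℤ} {δ : ℝ} {j : κ}
    {c : ChD Γ} (hc : IsChain ρ l e L Bad δ j c) {φ : ℤ → ℝ} {a θ M : ℝ} (hM : 0 ≤ M)
    (H : ∀ x ∈ Ico (0 : ℤ) L \ Bad j, ∀ y : ℤ, x ≤ y → y ≤ L →
      |∑ t ∈ Finset.Ico x y, φ t - a * (y - x)| ≤ θ * (y - x) + 2 * M) :
    |∑ k ∈ Finset.range c.q, ∑ t ∈ Finset.Ico (min (c.i k) (c.o k)) (max (c.i k) (c.o k)), φ t -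
      a * c.len| ≤ θ * c.len + 4 * M := by
  have h1 : ∀ k : ℤ, |∑ t ∈ Finset.Ico (min (c.i k) (c.o k)) (max (c.i k) (c.o k)), φ t -
      a * ((c.o k - c.i k).natAbs : ℝ)| ≤ θ * ((c.o k - c.i k).natAbs : ℝ) + 2 * M := fun k => by
    rw [Nat.cast_natAbs, Int.cast_abs, Int.cast_sub]
    rcases le_total (c.i k) (c.o k) with h | h
    · rw [min_eq_left h, max_eq_right h, abs_of_nonneg (sub_nonneg.2 (Int.cast_le.2 h))]
      exact H _ (hc.mem_i k) _ h (hc.mem_o k).1.2.le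
    · rw [min_eq_right h, max_eq_left h, abs_sub_comm (c.o k : ℝ),
        abs_of_nonneg (sub_nonneg.2 (Int.cast_le.2 h))]
      exact H _ (hc.mem_o k) _ h (hc.mem_i k).1.2.le
  have h2 : (c.q : ℝ) ≤ 2 := by exact_mod_cast hc.q_le
  have h3 := mul_le_mul_of_nonneg_right h2 hM
  rw [ChD.len, Nat.cast_sum, Finset.mul_sum, ← Finset.sum_sub_distrib]
  refine (Finset.abs_sum_le_sum_abs _ _).trans ((Finset.sum_le_sum fun (k : ℕ) _ => h1 k).trans ?_)
  rw [Finset.sum_add_distrib, ← Finset.mul_sum, Finset.sum_const, Finset.card_range, nsmul_eq_mul]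
  linarith

theorem exists_periods (hρ : Good ρ N) (hΛ : Lam ρ Λ) (hμ : ∀ j, Cur ρ (μ j))
    (hn : ∀ j, NullSingletonClass (μ j)) (h0 : ∀ j, μ j Λᶜ = 0) (hne : ∀ j, μ j ≠ 0)
    (hs : ∀ i j, i ≠ j → μ i ⟂ₘ μ j) {σ : Type} [Finite σ] {S : σ → Γ} (hS : ∀ s, Hyp (ρ (S s)))
    (hSΛ : ∀ s, ax (ρ (S s)) ∈ Λ) (F : Finset Γ) (hF : ∀ f ∈ F, Hyp (ρ f) ∧ Prim f) {ε : ℝ}
    (hε : 0 < ε) : ∃ g : κ → Γ, (∀ j, Hyp (ρ (g j))) ∧
      (∀ i j (γ : Γ), ¬ Cross (ax (ρ (g i))) (ρ γ • ax (ρ (g j)))) ∧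
      (∀ i s (γ : Γ), ¬ Cross (ax (ρ (g i))) (ρ γ • ax (ρ (S s)))) ∧
      (∀ j, 0 < ic (μ j) (ρ (g j))) ∧
      (∀ i j, i ≠ j → ic (μ i) (ρ (g j)) ≤ ε * ic (μ j) (ρ (g j))) ∧
      ∀ j, Erg ρ (μ j) → ∃ w > 0, ∀ f ∈ F, |w * inter ρ (g j) f - ic (μ j) (ρ f)| ≤ ε := by
  classical
  have hd := hρ.toDisc
  obtain ⟨n, h, D, ha, hD0, hD, hFr⟩ := hρ.exists_arr hΛ F hF
  obtain ⟨E, hE, hEd⟩ := exists_invS hd hμ hs
  have hZ : ∀ (g : Γ), ∀ C ∈ lifts ρ h ∪ lifts ρ S, ρ g • C ∈ lifts ρ h ∪ lifts ρ S :=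
    fun g C hC => hC.imp (smul_mem_lifts g) (smul_mem_lifts g)
  have hZ' : ∀ (p : Pt) (R : ℝ), {C ∈ lifts ρ h ∪ lifts ρ S | |side C p.1| ≤ R}.Finite :=
    fun p R => ((finite_lifts_near hd ha.hyp p R).union (finite_lifts_near hd hS p R)).subset
      fun C hC => hC.1.imp (fun h1 => ⟨h1, hC.2⟩) fun h1 => ⟨h1, hC.2⟩
  have hν : ∀ j, Cur ρ (∑ i ∈ Finset.univ.erase j, μ i) := fun j =>
    Cur.finsetSum _ fun i _ => hμ i
  have hνn : ∀ j, NullSingletonClass (∑ i ∈ Finset.univ.erase j, μ i) := fun j => ⟨fun x => by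
    rw [Measure.finsetSum_apply]
    exact Finset.sum_eq_zero fun i _ => (hn i).measure_singleton x⟩
  have hν0 : ∀ j, (∑ i ∈ Finset.univ.erase j, μ i) Λᶜ = 0 := fun j => by
    rw [Measure.finsetSum_apply]
    exact Finset.sum_eq_zero fun i _ => h0 i
  have hνs : ∀ j, μ j ⟂ₘ ∑ i ∈ Finset.univ.erase j, μ i := fun j =>
    ⟨(E j)ᶜ, (hE j).1.meas.compl, (hE j).2, by
      rw [compl_compl, Measure.finsetSum_apply]
      exact Finset.sum_eq_zero fun i hi => measure_mono_null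
        (hEd i j (Finset.ne_of_mem_erase hi)).subset_compl_left (hE i).2⟩
  have hT : ∀ j, 0 < tot (μ j) ρ h := fun j =>
    have := hn j
    tot_pos hd hΛ ha hD (hμ j) (h0 j) (hne j)
  have hε' : 0 < min ε (1 / 2) := lt_min hε one_half_pos
  have hε1 : min ε (1 / 2) < 1 := (min_le_right _ _).trans_lt one_half_lt_one
  obtain ⟨θ, hθ, hθ1, hθ2⟩ := GLM_theta (fun j => tot (μ j) ρ h) (fun j => (hT j).le) hε
  choose M hM using fun j =>
    have := hn j
    have := hνn j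
    exists_leaf hd hΛ ha hD (hμ j) (hν j) (h0 j) (hν0 j) (hne j) (hνs j) hZ hZ' (hE j).2 hε' hθ
  obtain ⟨X, hX0, hX⟩ : ∃ X : ℝ, 0 ≤ X ∧ ∀ j, tot (μ j) ρ h * (6 + 4 * M j) ≤ ε * X := by
    have h1 : ∀ j, 0 ≤ tot (μ j) ρ h * (6 + 4 * M j) := fun j =>
      mul_nonneg (hT j).le (by positivity)
    refine ⟨(∑ j, tot (μ j) ρ h * (6 + 4 * M j)) / ε,
      div_nonneg (Finset.sum_nonneg fun j _ => h1 j) hε.le, fun j => ?_⟩
    rw [mul_div_cancel₀ _ hε.ne']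
    exact Finset.single_le_sum (fun i _ => h1 i) (Finset.mem_univ j)
  choose δ' hδ' hM using fun j => hM j (D * (X + 4))
  obtain ⟨δ, hδ, hδδ⟩ : ∃ δ > 0, ∀ j, δ ≤ δ' j := by
    rcases isEmpty_or_nonempty κ with hκ | hκ
    · exact ⟨1, one_pos, fun i => hκ.elim i⟩
    · obtain ⟨i, hi⟩ := Finite.exists_min δ'
      exact ⟨_, hδ' i, hi⟩
  obtain ⟨K, hK⟩ := exists_fine hd hΛ ha (half_pos hδ)
  obtain ⟨L, hL⟩ := exists_nat_gt (2 * K)
  choose l e Bad h1 h2 h3 h4 h5 h6 h7 using fun j => hM j L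
  have hFam : Fam ρ h Λ l e := ⟨h1, h3, h4, fun i j g b hb => by
    by_contra hij
    refine Set.disjoint_left.1 (hEd i j hij) ?_ (h2 j)
    rw [← hb]
    cases b
    · exact (hE i).1.rev _ ((hE i).1.smul g _ (h2 i))
    · exact (hE i).1.smul g _ (h2 i)⟩
  have hG : ∀ j, ∀ t ∈ Ico (0 : ℤ) L \ Bad j, GoodSt ρ (μ j) (∑ i ∈ Finset.univ.erase j, μ i)
      (lifts ρ h ∪ lifts ρ S) (min ε (1 / 2)) δ (D * (X + 4)) (l j) (e j t) :=
    fun j t ht => (h6 j t ht).mono (hδδ j)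
  have hB : 15 * ∑ i, ((Ico (0 : ℤ) L ∩ Bad i).ncard : ℝ) + K < (L : ℤ) := by
    have a1 : ∑ i, ((Ico (0 : ℤ) L ∩ Bad i).ncard : ℝ) ≤ Fintype.card κ * (θ * L) := by
      refine (Finset.sum_le_sum fun i _ => h5 i).trans ?_
      rw [Finset.sum_const, Finset.card_univ, nsmul_eq_mul]
    have a2 := mul_le_mul_of_nonneg_right hθ1 (Nat.cast_nonneg (α := ℝ) L)
    rw [Int.cast_natCast]
    linarith
  choose t f0 f1 f2 using hK κ l e hFam L Bad hB
  choose c hc hlen using fun j => exists_chain hd hFam hΛ hD hD0 (N₀ := D * (X + 4))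
    (by nlinarith [mul_nonneg hD0.le hX0]) hμ hZ hε'.le hε1 hG (f0 j) (f1 j) (f2 j)
  have hC : ∀ j, ∀ t ∈ Ico (0 : ℤ) L \ Bad j,
      ClearAt (lifts ρ h) δ (e j t) (xp (e j t) (l j)) :=
    fun j t ht => (hG j t ht).clear.subset subset_union_left
  have hI := fun j =>
    have := hn j
    have := hνn j
    (hc j).ic_le hFam hΛ (hμ j) (hν j) (h0 j) (hν0 j) fun t ht => (hG j t ht).dens
  refine ⟨fun j => (c j).g, fun j => ((hc j).stair hFam hΛ).hyp, fun i j γ => ?_, fun i s γ => ?_,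
    fun j => (hI j).1, fun i j hij => ?_, fun j hj => ?_⟩
  · exact (hc i).not_cross (hc j) hd hFam hΛ (hC i) (fun hij => by rw [hij]) γ
  · have a1 : Hyp (ρ (γ * S s * γ⁻¹)) := GInter_hyp_conj (hS s) (isConj_iff.2 ⟨γ, rfl⟩)
    refine (hc i).not_cross_leaf hFam hΛ hZ (fun t ht => (hG i t ht).clear)
      (Or.inr (smul_mem_lifts γ (ax_mem_lifts s))) (hΛ.smul γ _ (hSΛ s)) (s := γ * S s * γ⁻¹)
      (fun h => GAx_ne_one a1 (by rw [h, map_one])) ?_
    rw [← ax_conj' (hS s)]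
    exact a1.smul_ax
  · have a1 := (hI j).2
    rw [ic_finsetSum _ fun i _ => hμ i] at a1
    refine (Finset.single_le_sum (f := fun i => ic (μ i) (ρ (c j).g)) (fun i _ => ic_nonneg _ _)
      (Finset.mem_erase.2 ⟨hij, Finset.mem_univ i⟩)).trans (a1.trans ?_)
    exact mul_le_mul_of_nonneg_right (min_le_left _ _) (ic_nonneg _ _)
  · have a1 : X ≤ (c j).len := by
      have := le_of_mul_le_mul_left (hlen j) hD0
      linarith
    have a2 : tot (μ j) ρ h * (6 + 4 * M j) ≤ ε * (c j).len :=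
      (hX j).trans (mul_le_mul_of_nonneg_left a1 hε.le)
    have a3 : (0 : ℝ) < (c j).len :=
      (mul_pos_iff_of_pos_left hε).1 ((mul_pos (hT j) (by positivity)).trans_le a2)
    refine ⟨tot (μ j) ρ h / (2 * (c j).len), div_pos (hT j) (by positivity), fun f hf => ?_⟩
    obtain ⟨r, hr⟩ := hFr f hf
    obtain ⟨k, hk⟩ := isConj_iff.1 hr
    have b1 := (hc j).inter_sub_le hd hFam hΛ ha (hC j) r
    have b2 := GLM_sum (hc j) (by positivity) (h7 j hj r)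
    rw [← hk, inter_conj_right] at b1
    rw [← hk, (hμ j).ic_conj] at b2
    exact GLM_final (hT j) a3 b1 b2 a2 (hθ2 j)

theorem GLM_ic_eq (hρ : Disc ρ) {a b γ : Γ} (ha : Simple ρ a) (hb : Simple ρ b)
    (h : ρ γ • ax (ρ b) = ax (ρ a) ∨ ρ γ • ax (ρ b) = (ax (ρ a)).rev) {ν : Measure Geo}
    (hν : Cur ρ ν) : ic ν (ρ a) = ic ν (ρ b) := by
  have hc := hb.conj γ
  rw [← ax_conj' hb.hyp, ← GSys_ax_inv ha.hyp] at h
  rw [← hν.ic_conj b γ]
  rcases h with h | h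
  · rw [hρ.eq_of_ax_eq hc.hyp hc.prim ha.hyp ha.prim h]
  · rw [hρ.eq_of_ax_eq hc.hyp hc.prim ha.inv.hyp ha.inv.prim h, hν.ic_inv]

/-- Simultaneous approximation of mutually singular measured laminations by disjoint curves. -/
theorem exists_LM (hρ : Good ρ N) (hΛ : Lam ρ Λ) (hμ : ∀ j, Cur ρ (μ j))
    (hn : ∀ j, NullSingletonClass (μ j)) (h0 : ∀ j, μ j Λᶜ = 0) (hne : ∀ j, μ j ≠ 0)
    (hs : ∀ i j, i ≠ j → μ i ⟂ₘ μ j) {σ : Type} [Finite σ] {S : σ → Γ} (hS : Multi ρ S)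
    (hSΛ : ∀ s, ax (ρ (S s)) ∈ Λ) (F : Finset Γ) (hF : ∀ f ∈ F, Hyp (ρ f) ∧ Prim f) {ε : ℝ}
    (hε : 0 < ε) : ∃ g : κ → Γ, Multi ρ (Sum.elim g S) ∧ (∀ j, 0 < ic (μ j) (ρ (g j))) ∧
      (∀ i j, i ≠ j → ic (μ i) (ρ (g j)) ≤ ε * ic (μ j) (ρ (g j))) ∧
      ∀ j, Erg ρ (μ j) → ∃ w > 0, ∀ f ∈ F, |w * inter ρ f (g j) - ic (μ j) (ρ f)| ≤ ε := by
  have hd := hρ.toDisc
  have hε' : 0 < min ε (1 / 2) := lt_min hε one_half_pos
  obtain ⟨g, g1, g2, g3, g4, g5, g6⟩ := exists_periods hρ hΛ hμ hn h0 hne hs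
    (fun s => (hS.1 s).hyp) hSΛ F hF hε'
  choose k n hn0 hk hp hh using fun j => hd.exists_root (g1 j)
  have hn1 : ∀ j, (0 : ℝ) < n j := fun j => Nat.cast_pos.2 (Nat.pos_of_ne_zero (hn0 j))
  have ea : ∀ j, ax (ρ (g j)) = ax (ρ (k j)) := fun j => by
    rw [← hk, map_pow, ((hh j).pow (hn0 j)).2.1]
  have ei : ∀ i j, ic (μ i) (ρ (g j)) = n j * ic (μ i) (ρ (k j)) := fun i j => by
    rw [← hk, (hμ i).ic_pow]
  simp only [ea] at g2 g3
  have k4 : ∀ j, 0 < ic (μ j) (ρ (k j)) := fun j =>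
    (mul_pos_iff_of_pos_left (hn1 j)).1 (ei j j ▸ g4 j)
  have k5 : ∀ i j, i ≠ j → ic (μ i) (ρ (k j)) ≤ min ε (1 / 2) * ic (μ j) (ρ (k j)) :=
    fun i j hij => by
      have a1 := g5 i j hij
      rw [ei, ei, mul_left_comm] at a1
      exact le_of_mul_le_mul_left a1 (hn1 j)
  have ks : ∀ j, Simple ρ (k j) := fun j => simple_iff.2 ⟨hh j, hp j, g2 j j⟩
  have hz : ∀ i s, ic (μ i) (ρ (S s)) = 0 := fun i s => hΛ.ic_eq_zero (h0 i) (hSΛ s)
  refine ⟨k, (multi_iff hd).2 ⟨?_, ?_⟩, k4, fun i j hij => (k5 i j hij).trans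
    (mul_le_mul_of_nonneg_right (min_le_left _ _) (ic_nonneg _ _)), fun j hj => ?_⟩
  · rintro (j | s)
    · exact ks j
    · exact hS.1 s
  · rintro (i | s) (j | s') hij γ
    · have hij' : i ≠ j := fun h => hij (by rw [h])
      refine ⟨g2 i j γ, not_or.1 fun h => ?_⟩
      have a1 := k5 i j hij'
      have a2 := k5 j i hij'.symm
      have a3 := GLM_ic_eq hd (ks i) (ks j) h (hμ i)
      have a4 := GLM_ic_eq hd (ks i) (ks j) h (hμ j)
      have a5 := mul_le_mul_of_nonneg_right (min_le_right ε (1 / 2)) (k4 i).le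
      have a6 := mul_le_mul_of_nonneg_right (min_le_right ε (1 / 2)) (k4 j).le
      linarith [k4 i]
    · refine ⟨g3 i s' γ, not_or.1 fun h => ?_⟩
      have a3 := GLM_ic_eq hd (ks i) (hS.1 s') h (hμ i)
      exact (k4 i).ne' (a3.trans (hz i s'))
    · refine ⟨fun h => g3 j s γ⁻¹ ?_, not_or.1 fun h => ?_⟩
      · have h1 := (cross_smul (ρ γ)⁻¹).2 h.symm
        rwa [inv_smul_smul, ← map_inv] at h1
      · have a3 := GLM_ic_eq hd (hS.1 s) (ks j) h (hμ j)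
        exact (k4 j).ne' (a3.symm.trans (hz j s))
    · exact ((multi_iff hd).1 hS).2 s s' (fun h => hij (by rw [h])) γ
  · obtain ⟨w, hw, H⟩ := g6 j hj
    refine ⟨w * n j, mul_pos hw (hn1 j), fun f hf => ?_⟩
    have a1 := (H f hf).trans (min_le_left _ _)
    rw [← hk, hd.inter_pow (hh j) (hF f hf).1 (hF f hf).2 _ (hn0 j),
      hd.inter_comm (hh j) (hp j) (hF f hf).1 (hF f hf).2, Nat.cast_mul, ← mul_assoc] at a1
    exact a1

end HRT
end
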