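import Pool.Agent.Work.MP_35beee_gt.GDefs

/-!
The data that describe the horofunctions of the reversed Thurston metric.
-/

namespace HRT

open Set

variable {Γ : Type*} [Group Γ]

/-- Essential simple closed curves (as group elements). -/
abbrev SC (ρ : Γ →* Isom) : Type _ := {γ : Γ // Simple ρ γ}

/-- Limits of tuples of weighted length functions of the components of multicurves: tuples of
disjoint measured laminations, seen through their length functions. -/
def WT (ρ : Γ →* Isom) (ι : Type) : Set (ι → Teich ρ → ℝ) :=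
  closure {w | ∃ (R : ι → Γ) (s : ι → ℝ), Multi ρ R ∧ (∀ i, 0 ≤ s i) ∧
    w = fun i z => s i * len z (R i)}

/-- Augmented Teichmueller space: limits of length functions that are infinite only on curves that
cross a curve of length zero. -/
def Aug (ρ : Γ →* Isom) : Set (SC ρ → ENNReal) :=
  {y | y ∈ closure (range fun (x : Teich ρ) (β : SC ρ) => ENNReal.ofReal (len x β.1)) ∧
    ∀ γ, y γ = ⊤ → ∃ α, y α = 0 ∧ inter ρ γ.1 α.1 ≠ 0}

/-- Limits of tuples of weighted intersection functions of the components of multicurves in the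
part of the surface where `y` is positive and finite. -/
def ET {ρ : Γ →* Isom} (y : SC ρ → ENNReal) (κ : Type) : Set (κ → SC ρ → ℝ) :=
  closure {η | ∃ (q : κ → SC ρ) (s : κ → ℝ), Multi ρ (fun j => (q j).1) ∧
    (∀ j, 0 < y (q j) ∧ y (q j) < ⊤) ∧ (∀ j, 0 ≤ s j) ∧
      η = fun j β => s j * inter ρ β.1 (q j).1}

/-- The numbers whose supremum is the value at `z`. -/
def vals {ρ : Γ →* Isom} (y : SC ρ → ENNReal) {m r : ℕ} (w : Fin m ⊕ Fin r → Teich ρ → ℝ)
    (η : Fin r → SC ρ → ℝ) (z : Teich ρ) : Set ℝ :=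
  range (fun a => w (Sum.inl a) z) ∪
    {v | ∃ β, 0 < y β ∧ y β < ⊤ ∧ v = (∑ j, w (Sum.inr j) z * η j β) / (y β).toReal}

/-- The explicit family of functions. -/
def Expl {ρ : Γ →* Isom} (b : Teich ρ) (h : Teich ρ → ℝ) : Prop :=
  ∃ y ∈ Aug ρ, ∃ (m r : ℕ) (α : Fin m → SC ρ), Multi ρ (fun a => (α a).1) ∧ (∀ a, y (α a) = 0) ∧
    ∃ w ∈ WT ρ (Fin m ⊕ Fin r), ∃ η ∈ ET y (Fin r), ∃ F : Teich ρ → ℝ,
      (∀ z, IsLUB (vals y w η z) (F z)) ∧ 0 < F b ∧ ∀ z, h z = Real.log (F z / F b)

end HRT
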