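import Pool.Agent.Work.MP_35beee_gt.GDefs

-- merged part: Pool.Agent.Work.MP_35beee_gt.GIso
section
-- merged part: Pool.Agent.Work.MP_35beee_gt.GLin
section
/-!
Linear algebra of Minkowski space.

Plan. Everything is coordinates plus the reversed Cauchy-Schwarz inequality.
`exists_isom`: take the matrix of `f`; a future unit timelike `q` has `B (f q) (f p) = B q p < 0`,
so `f q` is future directed. `exists_isom_frame`: send the basis `p, u, cr p u` to `q, v, cr q v`
(same Gram matrix, same determinant).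
-/

namespace HRT

open Matrix Set Filter Topology

theorem B_comm (u v : V) : B u v = B v u := by simp only [B]; ring
@[simp] theorem B_add_left (u v w : V) : B (u + v) w = B u w + B v w := by
  simp only [B, Pi.add_apply]; ring
@[simp] theorem B_add_right (u v w : V) : B u (v + w) = B u v + B u w := by
  simp only [B, Pi.add_apply]; ring
@[simp] theorem B_sub_left (u v w : V) : B (u - v) w = B u w - B v w := by
  simp only [B, Pi.sub_apply]; ring
@[simp] theorem B_sub_right (u v w : V) : B u (v - w) = B u v - B u w := by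
  simp only [B, Pi.sub_apply]; ring
@[simp] theorem B_smul_left (t : ℝ) (u v : V) : B (t • u) v = t * B u v := by
  simp only [B, Pi.smul_apply, smul_eq_mul]; ring
@[simp] theorem B_smul_right (t : ℝ) (u v : V) : B u (t • v) = t * B u v := by
  simp only [B, Pi.smul_apply, smul_eq_mul]; ring
@[simp] theorem B_neg_left (u v : V) : B (-u) v = -B u v := by
  simp only [B, Pi.neg_apply]; ring
@[simp] theorem B_neg_right (u v : V) : B u (-v) = -B u v := by
  simp only [B, Pi.neg_apply]; ring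
@[simp] theorem B_zero_left (v : V) : B 0 v = 0 := by simp [B]
@[simp] theorem B_zero_right (v : V) : B v 0 = 0 := by simp [B]

theorem eq_of_B_eq {u v : V} (h : ∀ w, B u w = B v w) : u = v := by
  have h0 := h ![1, 0, 0]
  have h1 := h ![0, 1, 0]
  have h2 := h ![0, 0, 1]
  simp [B] at h0 h1 h2
  funext i
  fin_cases i <;> simpa

theorem continuous_B : Continuous fun x : V × V => B x.1 x.2 := by
  unfold B; fun_prop

theorem _root_.Continuous.B' {X : Type*} [TopologicalSpace X] {f g : X → V} (hf : Continuous f)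
    (hg : Continuous g) : Continuous fun x => B (f x) (g x) :=
  continuous_B.comp (hf.prodMk hg)

theorem _root_.Filter.Tendsto.B' {X : Type*} {F : Filter X} {f g : X → V} {u v : V}
    (hf : Tendsto f F (𝓝 u)) (hg : Tendsto g F (𝓝 v)) :
    Tendsto (fun x => B (f x) (g x)) F (𝓝 (B u v)) :=
  (continuous_B.tendsto (u, v)).comp (hf.prodMk_nhds hg)

/-- Lorentz cross product. -/
def cr (u v : V) : V := ![u 1 * v 2 - u 2 * v 1, u 2 * v 0 - u 0 * v 2, u 1 * v 0 - u 0 * v 1]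

theorem cr_0 (u v : V) : cr u v 0 = u 1 * v 2 - u 2 * v 1 := rfl
theorem cr_1 (u v : V) : cr u v 1 = u 2 * v 0 - u 0 * v 2 := rfl
theorem cr_2 (u v : V) : cr u v 2 = u 1 * v 0 - u 0 * v 1 := rfl

/-- Coordinatewise equality; follow by
`simp only [B, cr_0, cr_1, cr_2, Pi.add_apply, Pi.sub_apply, Pi.neg_apply, Pi.smul_apply,
smul_eq_mul]` and `ring`. -/
theorem V_ext {u v : V} (h0 : u 0 = v 0) (h1 : u 1 = v 1) (h2 : u 2 = v 2) : u = v := by
  funext i
  fin_cases i
  exacts [h0, h1, h2]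

/-- The determinant of three vectors. -/
def det3 (u v w : V) : ℝ := B (cr u v) w

theorem det3_eq (u v w : V) : det3 u v w = (Matrix.of ![u, v, w]).det := by
  simp [det3, B, cr, Matrix.det_fin_three]; ring

theorem ccw_iff (a b c : Circ) : ccw a b c ↔ 0 < det3 a.1 b.1 c.1 := by rw [det3_eq]; rfl

theorem det3_cyc (u v w : V) : det3 u v w = det3 v w u := by simp [det3, B, cr]; ring
theorem det3_swap (u v w : V) : det3 u w v = -det3 u v w := by simp [det3, B, cr]; ring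
theorem cr_anti (u v : V) : cr v u = -cr u v := by
  funext i; fin_cases i <;> simp [cr] <;> ring
@[simp] theorem B_cr_left (u v : V) : B (cr u v) u = 0 := by simp [B, cr]; ring
@[simp] theorem B_cr_right (u v : V) : B (cr u v) v = 0 := by simp [B, cr]; ring
theorem B_cr_cr (u v u' v' : V) :
    B (cr u v) (cr u' v') = B u v' * B v u' - B u u' * B v v' := by simp [B, cr]; ring
theorem cr_cr (u v w : V) : cr (cr u v) w = B v w • u - B u w • v := by
  funext i; fin_cases i <;> simp [B, cr] <;> ring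
theorem det3_sq (u v w : V) : det3 u v w ^ 2 =
    B u u * B v w ^ 2 + B v v * B u w ^ 2 + B w w * B u v ^ 2 - B u u * B v v * B w w -
      2 * B u v * B v w * B u w := by simp [det3, B, cr]; ring
theorem cramer3 (u v w x : V) :
    det3 u v w • x = det3 x v w • u + det3 u x w • v + det3 u v x • w := by
  funext i; fin_cases i <;> simp [det3, B, cr] <;> ring
theorem continuous_cr : Continuous fun x : V × V => cr x.1 x.2 := by
  refine continuous_pi fun i => ?_
  fin_cases i <;> simp [cr] <;> fun_prop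

theorem lin_add (g : Isom) (u v : V) : lin g (u + v) = lin g u + lin g v := by
  unfold lin slAct; rw [mulVec_add]
theorem lin_neg (g : Isom) (u : V) : lin g (-u) = -lin g u := by
  unfold lin slAct; rw [mulVec_neg]
theorem lin_sub (g : Isom) (u v : V) : lin g (u - v) = lin g u - lin g v := by
  unfold lin slAct; rw [mulVec_sub]
theorem lin_zero (g : Isom) : lin g 0 = 0 := by
  unfold lin slAct; rw [mulVec_zero]
@[simp] theorem lin_inv_lin (g : Isom) (v : V) : lin g⁻¹ (lin g v) = v := by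
  rw [← lin_mul, inv_mul_cancel, lin_one]
@[simp] theorem lin_lin_inv (g : Isom) (v : V) : lin g (lin g⁻¹ v) = v := by
  rw [← lin_mul, mul_inv_cancel, lin_one]
theorem B_lin_left (g : Isom) (u v : V) : B (lin g u) v = B u (lin g⁻¹ v) := by
  rw [← B_lin g u (lin g⁻¹ v), lin_lin_inv]
theorem smul_pt_val (g : Isom) (p : Pt) : (g • p).1 = lin g p.1 := rfl
theorem smul_circ_val (g : Isom) (ξ : Circ) : (g • ξ).1 = (lin g ξ.1 2)⁻¹ • lin g ξ.1 := rfl
theorem lin_circ_val (g : Isom) (ξ : Circ) : lin g ξ.1 = lin g ξ.1 2 • (g • ξ).1 := by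
  rw [smul_circ_val, smul_smul, mul_inv_cancel₀ (lin_circ_pos g ξ).ne', one_smul]

theorem continuous_lin (g : Isom) : Continuous (lin g) := by
  unfold lin slAct
  exact continuous_const.matrix_mulVec continuous_id

theorem GLin_det3_mulVec (M : Matrix (Fin 3) (Fin 3) ℝ) (u v w : V) :
    det3 (M *ᵥ u) (M *ᵥ v) (M *ᵥ w) = M.det * det3 u v w := by
  rw [det3_eq, det3_eq]
  have h : Matrix.of ![M *ᵥ u, M *ᵥ v, M *ᵥ w] = Matrix.of ![u, v, w] * Mᵀ := by
    ext i j
    fin_cases i <;> simp [Matrix.mul_apply, mulVec, dotProduct, mul_comm]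
  rw [h, det_mul, det_transpose, mul_comm]

theorem det3_lin (g : Isom) (u v w : V) : det3 (lin g u) (lin g v) (lin g w) = det3 u v w := by
  have h := GLin_det3_mulVec (g.1 : Matrix (Fin 3) (Fin 3) ℝ) u v w
  rw [g.1.2, one_mul] at h
  exact h

theorem lin_cr (g : Isom) (u v : V) : lin g (cr u v) = cr (lin g u) (lin g v) := by
  refine eq_of_B_eq fun w => ?_
  have h := det3_lin g u v (lin g⁻¹ w)
  rw [lin_lin_inv] at h
  rw [B_lin_left]
  exact h.symm

theorem isom_ext {g h : Isom} (H : ∀ v, lin g v = lin h v) : g = h := by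
  refine Subtype.ext (Subtype.ext ?_)
  ext i j
  have h1 := congrFun (H (Pi.single j 1)) i
  simpa [lin, slAct] using h1

theorem GLin_B_neg {u v : V} (hu : B u u < 0) (hu2 : 0 < u 2) (hv : B v v ≤ 0) (hv2 : 0 < v 2) :
    B u v < 0 := by
  simp only [B] at hu hv ⊢
  have h1 : (u 0 * v 0 + u 1 * v 1) ^ 2 ≤ (u 0 * u 0 + u 1 * u 1) * (v 0 * v 0 + v 1 * v 1) := by
    linarith only [sq_nonneg (u 0 * v 1 - u 1 * v 0), sq_nonneg (u (0 : Fin (3 : ℕ)) * v (1 : Fin (3 : ℕ)) - u (1 : Fin (3 : ℕ)) * v (0 : Fin (3 : ℕ)))]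
  have h2 : (u 0 * u 0 + u 1 * u 1) * (v 0 * v 0 + v 1 * v 1) ≤
      (u 0 * u 0 + u 1 * u 1) * (v 2 * v 2) :=
    mul_le_mul_of_nonneg_left (by linarith) (add_nonneg (mul_self_nonneg _) (mul_self_nonneg _))
  have h3 : (u 0 * u 0 + u 1 * u 1) * (v 2 * v 2) < (u 2 * u 2) * (v 2 * v 2) :=
    mul_lt_mul_of_pos_right (by linarith) (mul_pos hv2 hv2)
  have h4 : (u 0 * v 0 + u 1 * v 1) ^ 2 < (u 2 * v 2) ^ 2 := by
    calc _ < (u 2 * u 2) * (v 2 * v 2) := lt_of_le_of_lt (h1.trans h2) h3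
      _ = _ := by ring
  have h5 := abs_lt_of_sq_lt_sq h4 (mul_pos hu2 hv2).le
  linarith only [h5, le_abs_self (u 0 * v 0 + u 1 * v 1)]

theorem GLin_eq_zero {v : V} (hv : B v v ≤ 0) (h2 : v 2 = 0) : v = 0 := by
  simp only [B, h2] at hv
  have h0 : v 0 * v 0 = 0 := by nlinarith [mul_self_nonneg (v 0), mul_self_nonneg (v 1)]
  have h1 : v 1 * v 1 = 0 := by nlinarith [mul_self_nonneg (v 0), mul_self_nonneg (v 1)]
  exact V_ext (mul_self_eq_zero.1 h0) (mul_self_eq_zero.1 h1) h2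

theorem GLin_pos_of_B_neg {u v : V} (hu : B u u < 0) (hu2 : 0 < u 2) (hv : B v v ≤ 0)
    (h : B u v < 0) : 0 < v 2 := by
  rcases lt_trichotomy (v 2) 0 with h2 | h2 | h2
  · have h3 := GLin_B_neg (v := -v) hu hu2 (by simpa using hv) (by simpa using h2)
    rw [B_neg_right] at h3
    linarith
  · rw [GLin_eq_zero hv h2, B_zero_right] at h
    exact absurd h (lt_irrefl _)
  · exact h2

/-- A linear map preserving `B`, one future timelike vector and the determinant is an isometry. -/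
theorem exists_isom (f : V →ₗ[ℝ] V) (hB : ∀ u v, B (f u) (f v) = B u v)
    (hdet : LinearMap.det f = 1) (p : Pt) (hp : 0 < f p.1 2) : ∃ g : Isom, ∀ v, lin g v = f v := by
  have hM : ∀ v, LinearMap.toMatrix' f *ᵥ v = f v := fun v => by
    rw [← Matrix.toLin'_apply, Matrix.toLin'_toMatrix']
  have hd : (LinearMap.toMatrix' f).det = 1 := by rw [LinearMap.det_toMatrix', hdet]
  have hs : ∀ v, slAct ⟨LinearMap.toMatrix' f, hd⟩ v = f v := hM
  refine ⟨⟨⟨LinearMap.toMatrix' f, hd⟩, fun u v => ?_, fun q hq hq2 => ?_⟩, hs⟩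
  · rw [hs, hs, hB]
  · rw [hs]
    have hpp : B (f p.1) (f p.1) < 0 := by rw [hB, p.2.1]; norm_num
    refine GLin_pos_of_B_neg hpp hp (by rw [hB, hq]; norm_num) ?_
    rw [hB]
    exact GLin_B_neg (by rw [p.2.1]; norm_num) p.2.2 (by rw [hq]; norm_num) hq2

theorem GLin_gram (p u x y : V) : B (cr p u) x * B (cr p u) y =
    -(B p p * (B u u * B x y - B u x * B u y) - B p u * (B p u * B x y - B u y * B p x) +
      B p y * (B p u * B u x - B u u * B p x)) := by
  simp only [B, cr_0, cr_1, cr_2]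
  ring

/-- Two frames with the same Gram matrix and orientation differ by an isometry. -/
theorem exists_isom_frame {p q : Pt} {u v : V} (hu : B u u = 1) (hv : B v v = 1)
    (hpu : B p.1 u = 0) (hqv : B q.1 v = 0) : ∃ g : Isom, g • p = q ∧ lin g u = v := by
  have hp := p.2.1
  have hq := q.2.1
  have hup : B u p.1 = 0 := by rw [B_comm, hpu]
  have hvq : B v q.1 = 0 := by rw [B_comm, hqv]
  have hn : B (cr p.1 u) (cr p.1 u) = 1 := by rw [B_cr_cr, hpu, hup, hp, hu]; norm_num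
  have hm : B (cr q.1 v) (cr q.1 v) = 1 := by rw [B_cr_cr, hqv, hvq, hq, hv]; norm_num
  have hqm : B q.1 (cr q.1 v) = 0 := by rw [B_comm, B_cr_left]
  have hvm : B v (cr q.1 v) = 0 := by rw [B_comm, B_cr_right]
  let f : V →ₗ[ℝ] V :=
    { toFun := fun x => (-B p.1 x) • q.1 + B u x • v + B (cr p.1 u) x • cr q.1 v
      map_add' := fun x y => by
        simp only [B_add_right, neg_add, add_smul]
        abel
      map_smul' := fun t x => by
        simp only [B_smul_right, RingHom.id_apply, smul_add, smul_smul, mul_neg] }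
  have hf : ∀ x, f x = (-B p.1 x) • q.1 + B u x • v + B (cr p.1 u) x • cr q.1 v := fun _ => rfl
  have hfp : f p.1 = q.1 := by simp [hf, hp, hup]
  have hfu : f u = v := by simp [hf, hu, hpu]
  have hfn : f (cr p.1 u) = cr q.1 v := by
    rw [hf, hn, B_comm p.1, B_comm u, B_cr_left, B_cr_right]
    simp
  have hB : ∀ x y, B (f x) (f y) = B x y := fun x y => by
    have h1 := GLin_gram p.1 u x y
    rw [hp, hu, hpu] at h1
    simp only [hf, B_add_left, B_add_right, B_smul_left, B_smul_right, hq, hv, hqv, hvq, hm, hqm,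
      hvm, B_cr_left, B_cr_right]
    linear_combination h1
  have hdet : LinearMap.det f = 1 := by
    have hM : ∀ v, LinearMap.toMatrix' f *ᵥ v = f v := fun v => by
      rw [← Matrix.toLin'_apply, Matrix.toLin'_toMatrix']
    have h1 := GLin_det3_mulVec (LinearMap.toMatrix' f) p.1 u (cr p.1 u)
    rw [hM, hM, hM, hfp, hfu, hfn, LinearMap.det_toMatrix', det3, det3, hn, hm, mul_one] at h1
    exact h1.symm
  obtain ⟨g, hg⟩ := exists_isom f hB hdet p (by rw [hfp]; exact q.2.2)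
  exact ⟨g, Subtype.ext (by rw [smul_pt_val, hg, hfp]), by rw [hg, hfu]⟩

/-- Nonzero future directed causal vectors. -/
def Fut (v : V) : Prop := B v v ≤ 0 ∧ 0 < v 2

theorem Pt.fut (p : Pt) : Fut p.1 := ⟨by rw [p.2.1]; norm_num, p.2.2⟩
theorem Circ.fut (ξ : Circ) : Fut ξ.1 := ⟨ξ.2.1.le, by rw [ξ.2.2]; norm_num⟩

theorem Fut.B_nonpos {u v : V} (hu : Fut u) (hv : Fut v) : B u v ≤ 0 := by
  obtain ⟨hu, hu2⟩ := hu
  obtain ⟨hv, hv2⟩ := hv
  simp only [B] at hu hv ⊢
  have h1 : (u 0 * v 0 + u 1 * v 1) ^ 2 ≤ (u 0 * u 0 + u 1 * u 1) * (v 0 * v 0 + v 1 * v 1) := by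
    linarith only [sq_nonneg (u 0 * v 1 - u 1 * v 0), sq_nonneg (u (0 : Fin (3 : ℕ)) * v (1 : Fin (3 : ℕ)) - u (1 : Fin (3 : ℕ)) * v (0 : Fin (3 : ℕ)))]
  have h2 : (u 0 * u 0 + u 1 * u 1) * (v 0 * v 0 + v 1 * v 1) ≤ (u 2 * u 2) * (v 2 * v 2) :=
    mul_le_mul (by linarith) (by linarith) (add_nonneg (mul_self_nonneg _) (mul_self_nonneg _))
      (mul_self_nonneg _)
  have h4 : (u 0 * v 0 + u 1 * v 1) ^ 2 ≤ (u 2 * v 2) ^ 2 := by
    calc _ ≤ (u 2 * u 2) * (v 2 * v 2) := h1.trans h2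
      _ = _ := by ring
  have h5 := abs_le_of_sq_le_sq h4 (mul_pos hu2 hv2).le
  linarith [le_abs_self (u 0 * v 0 + u 1 * v 1)]

theorem GLin_orth_nonneg {u n : V} (hu : Fut u) (h : B n u = 0) : 0 ≤ B n n := by
  obtain ⟨hu, hu2⟩ := hu
  simp only [B] at hu h ⊢
  have h1 : (n 0 * u 0 + n 1 * u 1) ^ 2 ≤ (n 0 * n 0 + n 1 * n 1) * (u 0 * u 0 + u 1 * u 1) := by
    linarith only [sq_nonneg (n 0 * u 1 - n 1 * u 0), sq_nonneg (n (0 : Fin (3 : ℕ)) * u (1 : Fin (3 : ℕ)) - n (1 : Fin (3 : ℕ)) * u (0 : Fin (3 : ℕ)))]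
  have h2 : (n 0 * n 0 + n 1 * n 1) * (u 0 * u 0 + u 1 * u 1) ≤
      (n 0 * n 0 + n 1 * n 1) * (u 2 * u 2) :=
    mul_le_mul_of_nonneg_left (by linarith) (add_nonneg (mul_self_nonneg _) (mul_self_nonneg _))
  have h3 : n 0 * u 0 + n 1 * u 1 = n 2 * u 2 := by linarith only [h]
  rw [h3] at h1
  have h4 : (n 2 * n 2) * (u 2 * u 2) ≤ (n 0 * n 0 + n 1 * n 1) * (u 2 * u 2) := by
    calc _ = (n 2 * u 2) ^ 2 := by ring
      _ ≤ _ := h1.trans h2
  have h5 := le_of_mul_le_mul_right h4 (mul_pos hu2 hu2)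
  linarith

theorem Fut.mul_le_sq {u v : V} (hu : Fut u) (hv : Fut v) : B u u * B v v ≤ B u v ^ 2 := by
  have h := GLin_orth_nonneg hu (B_cr_left u v)
  rw [B_cr_cr, B_comm v u] at h
  linarith only [h]

theorem Fut.B_neg {u v : V} (hu : Fut u) (hv : Fut v) (h : B u u < 0) : B u v < 0 := by
  exact GLin_B_neg h hu.2 hv.1 hv.2

theorem Fut.eq_smul_of_B_eq_zero {u v : V} (hu : Fut u) (hv : Fut v) (h : B u v = 0) :
    u = (u 2 / v 2) • v := by
  have h2 : (u - (u 2 / v 2) • v) 2 = 0 := by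
    have := hv.2.ne'
    simp only [Pi.sub_apply, Pi.smul_apply, smul_eq_mul]
    field_simp
    ring
  have h1 : B (u - (u 2 / v 2) • v) (u - (u 2 / v 2) • v) ≤ 0 := by
    simp only [B_sub_left, B_sub_right, B_smul_left, B_smul_right, B_comm v u, h]
    linarith only [hu, hv, hu.1, mul_nonneg (mul_self_nonneg (u 2 / v 2)) (neg_nonneg.2 hv.1), mul_self_nonneg (u (2 : Fin (3 : ℕ)) / v (2 : Fin (3 : ℕ)))]
  exact sub_eq_zero.1 (GLin_eq_zero h1 h2)

theorem Fut.lin {v : V} (hv : Fut v) (g : Isom) : Fut (lin g v) := by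
  have he : B (![0, 0, 1] : V) ![0, 0, 1] = -1 := by simp [B]
  have hq := lin_pt g⁻¹ ⟨![0, 0, 1], he, by simp⟩
  have h1 := GLin_B_neg (by rw [hq.1]; norm_num) hq.2 hv.1 hv.2
  rw [B_comm, ← B_lin_left] at h1
  refine ⟨by rw [B_lin]; exact hv.1, ?_⟩
  simpa [B] using h1

theorem Fut.add {u v : V} (hu : Fut u) (hv : Fut v) : Fut (u + v) := by
  refine ⟨?_, add_pos hu.2 hv.2⟩
  simp only [B_add_left, B_add_right]
  linarith [hu.1, hv.1, hu.B_nonpos hv, hv.B_nonpos hu]

theorem Fut.smul {v : V} (hv : Fut v) {t : ℝ} (ht : 0 < t) : Fut (t • v) := by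
  refine ⟨?_, mul_pos ht hv.2⟩
  simp only [B_smul_left, B_smul_right]
  exact mul_nonpos_of_nonneg_of_nonpos ht.le (mul_nonpos_of_nonneg_of_nonpos ht.le hv.1)

/-- A causal vector is future directed iff it pairs negatively with a point. -/
theorem fut_of_B_neg {v : V} (hv : B v v ≤ 0) (p : Pt) (h : B p.1 v < 0) : Fut v := by
  exact ⟨hv, GLin_pos_of_B_neg (by rw [p.2.1]; norm_num) p.2.2 hv h⟩

/-- The orthogonal complement of a point is positive definite. -/
theorem B_pos_of_orth (p : Pt) {v : V} (h : B p.1 v = 0) (hv : v ≠ 0) : 0 < B v v := by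
  by_contra hc
  have hc : B v v ≤ 0 := not_lt.1 hc
  have hp : B p.1 p.1 < 0 := by rw [p.2.1]; norm_num
  rcases lt_trichotomy (v 2) 0 with h2 | h2 | h2
  · have h3 := GLin_B_neg (v := -v) hp p.2.2 (by simpa using hc) (by simpa using h2)
    rw [B_neg_right, h] at h3
    simp at h3
  · exact hv (GLin_eq_zero hc h2)
  · exact (GLin_B_neg hp p.2.2 hc h2).ne h

theorem one_le_neg_B (p q : Pt) : 1 ≤ -B p.1 q.1 := by
  have h1 := p.fut.mul_le_sq q.fut
  have h2 := p.fut.B_nonpos q.fut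
  rw [p.2.1, q.2.1] at h1
  (refine le_of_not_gt fun h_nl => ?_; linarith only [h_nl, h1, h2, mul_nonneg_of_nonpos_of_nonpos (Mathlib.Tactic.Linarith.sub_nonpos_of_le h2) (le_of_lt (Mathlib.Tactic.Linarith.sub_neg_of_lt h_nl))])

theorem eq_of_neg_B_eq_one {p q : Pt} (h : -B p.1 q.1 = 1) : p = q := by
  have h0 : B p.1 q.1 = -1 := by linarith
  by_contra hne
  have h1 : p.1 - q.1 ≠ 0 := fun h2 => hne (Subtype.ext (sub_eq_zero.1 h2))
  have h2 := B_pos_of_orth p (v := p.1 - q.1) (by rw [B_sub_right, p.2.1, h0, sub_self]) h1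
  simp only [B_sub_left, B_sub_right, p.2.1, q.2.1, B_comm q.1 p.1, h0] at h2
  norm_num at h2

theorem B_pt_circ_neg (p : Pt) (ξ : Circ) : B p.1 ξ.1 < 0 := p.fut.B_neg ξ.fut (by
  rw [p.2.1]; norm_num)

theorem B_circ_neg {ξ η : Circ} (h : ξ ≠ η) : B ξ.1 η.1 < 0 := by
  refine lt_of_le_of_ne (ξ.fut.B_nonpos η.fut) fun h0 => h (Subtype.ext ?_)
  have h1 := ξ.fut.eq_smul_of_B_eq_zero η.fut h0
  rwa [ξ.2.2, η.2.2, div_one, one_smul] at h1

/-- The base point. -/
def o : Pt := ⟨![0, 0, 1], by simp [B], by simp⟩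

theorem B_o (v : V) : B o.1 v = -v 2 := by simp [o, B]

open Classical in
/-- Normalisation of a future timelike vector. -/
noncomputable def toPt (v : V) : Pt :=
  if h : B ((√(-B v v))⁻¹ • v) ((√(-B v v))⁻¹ • v) = -1 ∧ 0 < ((√(-B v v))⁻¹ • v) 2 then
    ⟨_, h⟩ else o

theorem toPt_val {v : V} (h : B v v < 0) (h2 : 0 < v 2) : (toPt v).1 = (√(-B v v))⁻¹ • v := by
  have h3 : 0 < √(-B v v) := Real.sqrt_pos.2 (by linarith)
  have h4 : √(-B v v) * √(-B v v) = -B v v := Real.mul_self_sqrt (by linarith)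
  have h5 : B ((√(-B v v))⁻¹ • v) ((√(-B v v))⁻¹ • v) = -1 ∧ 0 < ((√(-B v v))⁻¹ • v) 2 := by
    refine ⟨?_, mul_pos (inv_pos.2 h3) h2⟩
    rw [B_smul_left, B_smul_right]
    generalize √(-B v v) = s at h3 h4
    field_simp
    linarith
  unfold toPt
  rw [dif_pos h5]

open Classical in
/-- Normalisation of a future null vector. -/
noncomputable def toCirc (v : V) : Circ :=
  if h : B ((v 2)⁻¹ • v) ((v 2)⁻¹ • v) = 0 ∧ ((v 2)⁻¹ • v) 2 = 1 then ⟨_, h⟩
  else ⟨![1, 0, 1], by simp [B], by simp⟩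

theorem toCirc_val {v : V} (h : B v v = 0) (h2 : v 2 ≠ 0) : (toCirc v).1 = (v 2)⁻¹ • v := by
  have h5 : B ((v 2)⁻¹ • v) ((v 2)⁻¹ • v) = 0 ∧ ((v 2)⁻¹ • v) 2 = 1 := by
    refine ⟨?_, inv_mul_cancel₀ h2⟩
    rw [B_smul_left, B_smul_right, h, mul_zero, mul_zero]
  unfold toCirc
  rw [dif_pos h5]

end HRT
end

-- merged part: Pool.Agent.Work.MP_35beee_gt.GMet
section
/-!
The metric of the hyperbolic plane, segments.

Plan. Triangle inequality: with `x = -B p q`, `y = -B q r`, `z = -B p r`, the Gram identity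
`det3_sq` gives `1 + 2xyz - x^2 - y^2 - z^2 = det^2 ≥ 0`, i.e. `(z - xy)^2 ≤ (x^2-1)(y^2-1)`, so
`z ≤ cosh (a + b)`; equality iff `q` is on the segment. The metric topology is the subspace
topology: `hd` is continuous, and `-B p q ≤ 1 + δ` forces `q` close to `p` (`q 2` is bounded, and
`B (p-q) (p-q) = 2(-B p q - 1)`; or move `p` to `o` by an isometry, which is a homeomorphism).
Closed balls around `o` are `{q | q 2 ≤ cosh R}`, closed and bounded in `V`.
A segment is the image of `[0,1]` under `t ↦ toPt ((1-t) p + t q)`.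
-/

namespace HRT

open Matrix Set Filter Topology

theorem GMet_cosh (p q : Pt) : Real.cosh (hd p q) = -B p.1 q.1 :=
  Real.cosh_arcosh (one_le_neg_B p q)

theorem GMet_nonneg (p q : Pt) : 0 ≤ hd p q := Real.arcosh_nonneg (one_le_neg_B p q)

theorem GMet_gram (p q r : Pt) :
    (-B p.1 r.1 - B p.1 q.1 * B q.1 r.1) ^ 2 ≤ (B p.1 q.1 ^ 2 - 1) * (B q.1 r.1 ^ 2 - 1) := by
  have h := det3_sq p.1 q.1 r.1
  rw [p.2.1, q.2.1, r.2.1] at h
  nlinarith only [h, sq_nonneg (det3 p.1 q.1 r.1)]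

theorem hd_triangle (p q r : Pt) : hd p r ≤ hd p q + hd q r := by
  have ha := GMet_nonneg p q
  have hb := GMet_nonneg q r
  have hc := GMet_nonneg p r
  have h1 : Real.cosh (hd p r) ≤ Real.cosh (hd p q + hd q r) := by
    have h2 := GMet_gram p q r
    have e1 : B p.1 q.1 = -Real.cosh (hd p q) := by rw [GMet_cosh, neg_neg]
    have e2 : B q.1 r.1 = -Real.cosh (hd q r) := by rw [GMet_cosh, neg_neg]
    rw [← GMet_cosh, e1, e2, neg_sq, neg_sq, ← Real.sinh_sq, ← Real.sinh_sq, ← mul_pow,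
      neg_mul_neg] at h2
    have h3 := abs_le_of_sq_le_sq h2
      (mul_nonneg (Real.sinh_nonneg_iff.2 ha) (Real.sinh_nonneg_iff.2 hb))
    rw [Real.cosh_add]
    linarith [le_abs_self (Real.cosh (hd p r) - Real.cosh (hd p q) * Real.cosh (hd q r))]
  rwa [Real.cosh_le_cosh, abs_of_nonneg hc, abs_of_nonneg (add_nonneg ha hb)] at h1

theorem hd_self (p : Pt) : hd p p = 0 := by
  rw [hd, p.2.1, neg_neg, Real.arcosh_zero]

theorem GMet_one_le (p : Pt) : 1 ≤ p.1 2 := by
  have h := one_le_neg_B o p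
  rwa [B_o, neg_neg] at h

theorem GMet_close (p q : Pt) {D : ℝ} (hD : -B p.1 q.1 - 1 ≤ D) (i : Fin 3) :
    (q.1 i - p.1 i) ^ 2 ≤ (4 * D ^ 2 + 6 * D) * p.1 2 ^ 2 := by
  have h1 := GMet_gram o p q
  rw [B_o, B_o] at h1
  have h2 := one_le_neg_B p q
  have h3 := GMet_one_le p
  have h4 : B (q.1 - p.1) (q.1 - p.1) = 2 * (-B p.1 q.1 - 1) := by
    rw [B_sub_left, B_sub_right, B_sub_right, p.2.1, q.2.1, B_comm q.1 p.1]
    ring
  obtain ⟨d, hd⟩ : ∃ d, d = -B p.1 q.1 - 1 := ⟨_, rfl⟩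
  have h5 : B p.1 q.1 = -(d + 1) := by rw [hd]; ring
  rw [h5] at h1 h2 h4 hD
  have d0 : 0 ≤ d := by linarith
  have dD : d ≤ D := by linarith
  have h6 : 1 ≤ p.1 2 ^ 2 := one_le_pow₀ h3
  have h7 : (q.1 2 - p.1 2) ^ 2 ≤ (4 * d ^ 2 + 4 * d) * p.1 2 ^ 2 := by
    nlinarith only [h2, h1, sq_nonneg (q.1 2 - p.1 2 - 2 * d * p.1 2), mul_nonneg d0 d0]
  have h8 : (q.1 0 - p.1 0) ^ 2 + (q.1 1 - p.1 1) ^ 2 = (q.1 2 - p.1 2) ^ 2 + 2 * d := by
    simp only [B, Pi.sub_apply] at h4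
    linear_combination h4
  have h9 : (4 * d ^ 2 + 6 * d) * p.1 2 ^ 2 ≤ (4 * D ^ 2 + 6 * D) * p.1 2 ^ 2 := by
    gcongr
  have h10 : d ≤ d * p.1 2 ^ 2 := le_mul_of_one_le_right d0 h6
  refine le_trans ?_ h9
  fin_cases i
  · show (q.1 0 - p.1 0) ^ 2 ≤ _
    nlinarith only [h7, h8, h10, sq_nonneg (q.1 1 - p.1 1)]
  · show (q.1 1 - p.1 1) ^ 2 ≤ _
    nlinarith only [h7, h8, h10, sq_nonneg (q.1 0 - p.1 0)]
  · show (q.1 2 - p.1 2) ^ 2 ≤ _
    linarith only [h2, h7, h10]

theorem GMet_cont_val : Continuous fun q : Pt => q.1 := continuous_subtype_val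

theorem GMet_cont (p : Pt) : Continuous (hd p) :=
  Real.continuousOn_arcosh.comp_continuous (continuous_const.B' GMet_cont_val).neg
    fun q => one_le_neg_B p q

theorem hd_comm (p q : Pt) : hd p q = hd q p := by rw [hd, hd, B_comm]

theorem hd_isOpen_iff (s : Set Pt) :
    IsOpen s ↔ ∀ p ∈ s, ∃ ε > 0, ∀ q, hd p q < ε → q ∈ s := by
  constructor
  · intro hs p hp
    obtain ⟨t, ht, rfl⟩ := isOpen_induced_iff.1 hs
    obtain ⟨δ, hδ, h1⟩ := Metric.isOpen_iff.1 ht p.1 hp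
    have hc : Continuous fun e : ℝ =>
        (4 * (Real.cosh e - 1) ^ 2 + 6 * (Real.cosh e - 1)) * p.1 2 ^ 2 := by fun_prop
    have h2 : ∀ᶠ e in 𝓝 (0 : ℝ),
        (4 * (Real.cosh e - 1) ^ 2 + 6 * (Real.cosh e - 1)) * p.1 2 ^ 2 < δ ^ 2 :=
      hc.continuousAt.eventually_lt continuousAt_const (by simpa using pow_pos hδ 2)
    obtain ⟨ε, hε, h3⟩ := Metric.eventually_nhds_iff.1 h2
    refine ⟨ε, hε, fun q hq => h1 ?_⟩
    rw [Metric.mem_ball, dist_pi_lt_iff hδ]
    intro i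
    have h4 := h3 (y := hd p q)
      (by rwa [Real.dist_eq, sub_zero, abs_of_nonneg (GMet_nonneg p q)])
    rw [GMet_cosh] at h4
    rw [Real.dist_eq]
    exact abs_lt_of_sq_lt_sq ((GMet_close p q le_rfl i).trans_lt h4) hδ.le
  · intro h
    rw [isOpen_iff_forall_mem_open]
    intro p hp
    obtain ⟨ε, hε, h1⟩ := h p hp
    exact ⟨{q | hd p q < ε}, h1, isOpen_lt (GMet_cont p) continuous_const,
      show hd p p < ε by rwa [hd_self]⟩

theorem eq_of_hd_eq_zero (p q : Pt) (h : hd p q = 0) : p = q :=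
  eq_of_neg_B_eq_one ((Real.arcosh_eq_zero_iff (one_le_neg_B p q)).1 h)

noncomputable instance ptMetric : MetricSpace Pt :=
  MetricSpace.ofDistTopology hd hd_self hd_comm hd_triangle hd_isOpen_iff eq_of_hd_eq_zero

theorem dist_eq_hd (p q : Pt) : dist p q = hd p q := rfl

theorem cosh_dist (p q : Pt) : Real.cosh (dist p q) = -B p.1 q.1 := GMet_cosh p q

theorem dist_le_dist_iff (p q r s : Pt) : dist p q ≤ dist r s ↔ -B p.1 q.1 ≤ -B r.1 s.1 :=
  Real.arcosh_le_arcosh (one_pos.trans_le (one_le_neg_B p q)) (one_pos.trans_le (one_le_neg_B r s))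

theorem dist_lt_dist_iff (p q r s : Pt) : dist p q < dist r s ↔ -B p.1 q.1 < -B r.1 s.1 :=
  Real.arcosh_lt_arcosh (one_pos.trans_le (one_le_neg_B p q)) (one_pos.trans_le (one_le_neg_B r s))

theorem GMet_closedEmb : IsClosedEmbedding fun q : Pt => q.1 := by
  have h1 : IsClosed {v : V | B v v = -1 ∧ 0 < v 2} := by
    have h2 : {v : V | B v v = -1 ∧ 0 < v 2} = {v : V | B v v = -1} ∩ {v : V | 1 ≤ v 2} :=
      Set.ext fun v => ⟨fun h => ⟨h.1, GMet_one_le ⟨v, h⟩⟩, fun h => ⟨h.1, one_pos.trans_le h.2⟩⟩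
    rw [h2]
    exact (isClosed_eq (continuous_id.B' continuous_id) continuous_const).inter
      (isClosed_le continuous_const (continuous_apply 2))
  exact h1.isClosedEmbedding_subtypeVal

instance : ProperSpace Pt := by
  refine ⟨fun p r => ?_⟩
  set M := (4 * (Real.cosh r - 1) ^ 2 + 6 * (Real.cosh r - 1)) * p.1 2 ^ 2
  refine (GMet_closedEmb.isCompact_preimage
    (isCompact_closedBall p.1 √M)).of_isClosed_subset Metric.isClosed_closedBall fun q hq => ?_
  rw [Set.mem_preimage, Metric.mem_closedBall, dist_pi_le_iff (Real.sqrt_nonneg _)]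
  intro i
  rw [Metric.mem_closedBall'] at hq
  have h1 : -B p.1 q.1 - 1 ≤ Real.cosh r - 1 := by
    rw [← cosh_dist, sub_le_sub_iff_right, Real.cosh_le_cosh, abs_of_nonneg dist_nonneg]
    exact hq.trans (le_abs_self r)
  rw [Real.dist_eq]
  exact Real.abs_le_sqrt (GMet_close p q h1 i)

instance : IsIsometricSMul Isom Pt :=
  ⟨fun g => Isometry.of_dist_eq fun p q =>
    congrArg (fun t => Real.arcosh (-t)) (B_lin g p.1 q.1)⟩

theorem exists_smul_o (p : Pt) : ∃ g : Isom, g • o = p := by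
  have h1 : 0 < 1 + p.1 1 ^ 2 := by positivity
  have h2 := Real.sq_sqrt h1.le
  have h3 := (Real.sqrt_pos.2 h1).ne'
  have h4 := p.2.1
  have h5 : B (![p.1 2, 0, p.1 0] : V) ![p.1 2, 0, p.1 0] = 1 + p.1 1 ^ 2 := by
    simp only [B] at h4
    simp [B]
    linear_combination -h4
  have h6 : B p.1 ![p.1 2, 0, p.1 0] = 0 := by
    simp [B]
    ring
  obtain ⟨g, hg, -⟩ := exists_isom_frame (p := o) (q := p) (u := ![1, 0, 0])
    (v := (√(1 + p.1 1 ^ 2))⁻¹ • ![p.1 2, 0, p.1 0]) (by simp [B])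
    (by rw [B_smul_left, B_smul_right, h5]; field_simp; exact h2.symm)
    (by rw [B_o]; simp) (by rw [B_smul_right, h6, mul_zero])
  exact ⟨g, hg⟩

theorem GMet_log_le (p q : Pt) {v : V} (hv : Fut v) :
    Real.log (-B p.1 v) - Real.log (-B q.1 v) ≤ dist p q := by
  have ha : 0 < -B p.1 v := neg_pos.2 (p.fut.B_neg hv (by rw [p.2.1]; norm_num))
  have hb : 0 < -B q.1 v := neg_pos.2 (q.fut.B_neg hv (by rw [q.2.1]; norm_num))
  have h := det3_sq p.1 q.1 v
  have e1 : B p.1 q.1 = -Real.cosh (dist p q) := by rw [cosh_dist, neg_neg]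
  rw [p.2.1, q.2.1, e1] at h
  have h1 := Real.sinh_sq (dist p q)
  have h2 : B v v * Real.sinh (dist p q) ^ 2 ≤ 0 :=
    mul_nonpos_of_nonpos_of_nonneg hv.1 (sq_nonneg _)
  have h3 : (-B p.1 v - Real.cosh (dist p q) * -B q.1 v) ^ 2 ≤
      (Real.sinh (dist p q) * -B q.1 v) ^ 2 := by
    rw [h1] at h2
    rw [mul_pow, h1]
    nlinarith only [h, h2, sq_nonneg (det3 p.1 q.1 v)]
  have h4 := abs_le_of_sq_le_sq h3 (mul_nonneg (Real.sinh_nonneg_iff.2 dist_nonneg) hb.le)
  have h5 : -B p.1 v ≤ Real.exp (dist p q) * -B q.1 v := by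
    rw [← Real.cosh_add_sinh]
    linarith [le_abs_self (-B p.1 v - Real.cosh (dist p q) * -B q.1 v)]
  have h6 := Real.log_le_log ha h5
  rw [Real.log_mul (Real.exp_pos _).ne' hb.ne', Real.log_exp] at h6
  linarith

/-- Busemann functions are one-Lipschitz. -/
theorem abs_log_B_le (p q : Pt) {v : V} (hv : Fut v) :
    |Real.log (-B p.1 v) - Real.log (-B q.1 v)| ≤ dist p q := by
  have h1 := GMet_log_le p q hv
  have h2 := GMet_log_le q p hv
  rw [dist_comm] at h2
  exact abs_le.2 ⟨by linarith, h1⟩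

theorem tl_eq (g : Isom) : tl g = ⨅ p : Pt, dist p (g • p) := rfl

theorem tl_nonneg (g : Isom) : 0 ≤ tl g := Real.iInf_nonneg fun _ => GMet_nonneg _ _

theorem tl_le (g : Isom) (p : Pt) : tl g ≤ dist p (g • p) :=
  ciInf_le (f := fun p : Pt => hd p (g • p)) ⟨0, by rintro _ ⟨q, rfl⟩; exact GMet_nonneg _ _⟩ p

/-- The geodesic segment between two points. -/
def seg (p q : Pt) : Set Pt := {r | ∃ s t : ℝ, 0 ≤ s ∧ 0 ≤ t ∧ r.1 = s • p.1 + t • q.1}

theorem left_mem_seg (p q : Pt) : p ∈ seg p q := ⟨1, 0, by norm_num, le_rfl, by simp⟩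
theorem right_mem_seg (p q : Pt) : q ∈ seg p q := ⟨0, 1, le_rfl, by norm_num, by simp⟩

theorem seg_comm (p q : Pt) : seg p q = seg q p := by
  ext r
  constructor <;> rintro ⟨s, t, hs, ht, h⟩ <;> exact ⟨t, s, ht, hs, by rw [h, add_comm]⟩

/-- The point of the segment at distance `a` from `p`. -/
noncomputable def GMet_w (p q : Pt) (a : ℝ) : V :=
  (Real.sinh (dist p q - a) / Real.sinh (dist p q)) • p.1 +
    (Real.sinh a / Real.sinh (dist p q)) • q.1

theorem GMet_w_self {p q : Pt} (hc : 0 < dist p q) (a : ℝ) :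
    B (GMet_w p q a) (GMet_w p q a) = -1 := by
  have e1 : B p.1 q.1 = -Real.cosh (dist p q) := by rw [cosh_dist, neg_neg]
  have h0 := (Real.sinh_pos_iff.2 hc).ne'
  simp only [GMet_w, B_add_left, B_add_right, B_smul_left, B_smul_right, p.2.1, q.2.1,
    B_comm q.1 p.1, e1, Real.sinh_sub]
  field_simp
  linear_combination (-Real.sinh (dist p q) ^ 2) * Real.cosh_sq a +
    Real.sinh a ^ 2 * Real.cosh_sq (dist p q)

theorem GMet_w_left {p q : Pt} (hc : 0 < dist p q) (a : ℝ) :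
    -B p.1 (GMet_w p q a) = Real.cosh a := by
  have e1 : B p.1 q.1 = -Real.cosh (dist p q) := by rw [cosh_dist, neg_neg]
  have h0 := (Real.sinh_pos_iff.2 hc).ne'
  simp only [GMet_w, B_add_right, B_smul_right, p.2.1, e1, Real.sinh_sub]
  field_simp
  ring

theorem GMet_w_pt {p q : Pt} (hc : 0 < dist p q) {a : ℝ} (h0 : 0 ≤ a) (h1 : a ≤ dist p q) :
    ∃ r ∈ seg p q, r.1 = GMet_w p q a := by
  have h2 := GMet_w_self hc a
  have h3 : Fut (GMet_w p q a) := fut_of_B_neg (by rw [h2]; norm_num) p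
    (neg_pos.1 (by rw [GMet_w_left hc]; exact Real.cosh_pos a))
  have h4 := (Real.sinh_pos_iff.2 hc).le
  exact ⟨⟨_, h2, h3.2⟩, ⟨_, _, div_nonneg (Real.sinh_nonneg_iff.2 (sub_nonneg.2 h1)) h4,
    div_nonneg (Real.sinh_nonneg_iff.2 h0) h4, rfl⟩, rfl⟩

theorem GMet_eq_w {p q r : Pt} (hc : 0 < dist p q) (h : dist p r + dist r q = dist p q) :
    r.1 = GMet_w p q (dist p r) := by
  have h0 := (Real.sinh_pos_iff.2 hc).ne'
  have h1 : B r.1 (GMet_w p q (dist p r)) = -1 := by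
    have e1 : B r.1 p.1 = -Real.cosh (dist p r) := by rw [cosh_dist, neg_neg, B_comm]
    have e2 : B r.1 q.1 = -Real.cosh (dist r q) := by rw [cosh_dist, neg_neg]
    have e3 : dist p q - dist p r = dist r q := by linarith
    have e4 := Real.sinh_add (dist p r) (dist r q)
    rw [h] at e4
    simp only [GMet_w, B_add_right, B_smul_right, e1, e2, e3]
    field_simp
    linear_combination e4
  by_contra hne
  have h2 := B_pos_of_orth r (v := r.1 - GMet_w p q (dist p r))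
    (by rw [B_sub_right, h1, r.2.1, sub_self]) (sub_ne_zero.2 hne)
  rw [B_sub_left, B_sub_right, B_sub_right, r.2.1, GMet_w_self hc, B_comm _ r.1, h1] at h2
  norm_num at h2

theorem mem_seg_iff_dist {p q r : Pt} : r ∈ seg p q ↔ dist p r + dist r q = dist p q := by
  constructor
  · rintro ⟨s, t, hs, ht, h⟩
    have e1 : B p.1 q.1 = -Real.cosh (dist p q) := by rw [cosh_dist, neg_neg]
    have h1 := r.2.1
    have h2 := cosh_dist p r
    have h3 := cosh_dist r q
    rw [h] at h1 h2 h3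
    simp only [B_add_left, B_add_right, B_smul_left, B_smul_right, p.2.1, q.2.1,
      B_comm q.1 p.1, e1] at h1 h2 h3
    have hs0 : ∀ x y : Pt, 0 ≤ Real.sinh (dist x y) := fun x y =>
      Real.sinh_nonneg_iff.2 dist_nonneg
    have h4 : Real.sinh (dist p r) = t * Real.sinh (dist p q) := by
      rw [← sq_eq_sq₀ (hs0 _ _) (mul_nonneg ht (hs0 _ _)), mul_pow, Real.sinh_sq, Real.sinh_sq, h2]
      linear_combination -h1
    have h5 : Real.sinh (dist r q) = s * Real.sinh (dist p q) := by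
      rw [← sq_eq_sq₀ (hs0 _ _) (mul_nonneg hs (hs0 _ _)), mul_pow, Real.sinh_sq, Real.sinh_sq, h3]
      linear_combination -h1
    refine Real.cosh_injOn (add_nonneg dist_nonneg dist_nonneg) dist_nonneg ?_
    rw [Real.cosh_add, h2, h3, h4, h5]
    linear_combination s * t * Real.sinh_sq (dist p q) - Real.cosh (dist p q) * h1
  · intro h
    rcases (dist_nonneg (x := p) (y := q)).eq_or_lt with hc | hc
    · have h1 : dist p r = 0 := by
        linarith [dist_nonneg (x := p) (y := r), dist_nonneg (x := r) (y := q)]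
      rw [← dist_eq_zero.1 h1]
      exact left_mem_seg p q
    · obtain ⟨r', h1, h2⟩ := GMet_w_pt hc (dist_nonneg (x := p) (y := r))
        (by linarith [dist_nonneg (x := r) (y := q)])
      rwa [show r = r' from Subtype.ext ((GMet_eq_w hc h).trans h2.symm)]

theorem smul_mem_seg {p q r : Pt} (g : Isom) (h : r ∈ seg p q) : g • r ∈ seg (g • p) (g • q) := by
  obtain ⟨s, t, hs, ht, h⟩ := h
  exact ⟨s, t, hs, ht, by rw [smul_pt_val, smul_pt_val, smul_pt_val, h, lin_add, lin_smul, lin_smul]⟩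

theorem isPreconnected_seg (p q : Pt) : IsPreconnected (seg p q) := by
  rcases (dist_nonneg (x := p) (y := q)).eq_or_lt with hc | hc
  · refine Set.Subsingleton.isPreconnected fun r hr r' hr' => ?_
    have h1 : ∀ x ∈ seg p q, p = x := fun x hx => dist_eq_zero.1 (by
      linarith [mem_seg_iff_dist.1 hx, dist_nonneg (x := p) (y := x), dist_nonneg (x := x) (y := q)])
    exact (h1 r hr).symm.trans (h1 r' hr')
  · rw [← GMet_closedEmb.isInducing.isPreconnected_image]
    have h1 : (fun q : Pt => q.1) '' seg p q = GMet_w p q '' Set.Icc 0 (dist p q) := by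
      ext v
      constructor
      · rintro ⟨r, hr, rfl⟩
        have h2 := mem_seg_iff_dist.1 hr
        exact ⟨dist p r, ⟨dist_nonneg, by linarith [dist_nonneg (x := r) (y := q)]⟩,
          (GMet_eq_w hc h2).symm⟩
      · rintro ⟨a, ha, rfl⟩
        exact GMet_w_pt hc ha.1 ha.2
    rw [h1]
    refine isPreconnected_Icc.image _ (Continuous.continuousOn ?_)
    unfold GMet_w
    fun_prop

theorem exists_mem_seg_dist (p q : Pt) {t : ℝ} (h0 : 0 ≤ t) (h1 : t ≤ dist p q) :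
    ∃ r ∈ seg p q, dist p r = t := by
  rcases (dist_nonneg (x := p) (y := q)).eq_or_lt with hc | hc
  · exact ⟨p, left_mem_seg p q, by rw [dist_self]; linarith⟩
  · obtain ⟨r, h2, h3⟩ := GMet_w_pt hc h0 h1
    refine ⟨r, h2, Real.cosh_injOn dist_nonneg h0 ?_⟩
    rw [cosh_dist, h3, GMet_w_left hc]

theorem exists_mem_seg_B_eq_zero {p q : Pt} {n : V} (hp : B n p.1 ≤ 0) (hq : 0 ≤ B n q.1) :
    ∃ r ∈ seg p q, B n r.1 = 0 :=
  (isPreconnected_seg p q).intermediate_value (left_mem_seg p q) (right_mem_seg p q)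
    (f := fun r : Pt => B n r.1) (continuous_const.B' GMet_cont_val).continuousOn ⟨hp, hq⟩

theorem B_pos_of_mem_seg {p q r : Pt} {n : V} (h : r ∈ seg p q) (hp : 0 < B n p.1)
    (hq : 0 < B n q.1) : 0 < B n r.1 := by
  obtain ⟨s, t, hs, ht, h⟩ := h
  have h1 := r.2.2
  rw [h] at h1 ⊢
  rw [B_add_right, B_smul_right, B_smul_right]
  rcases hs.eq_or_lt with rfl | hs
  · rcases ht.eq_or_lt with rfl | ht
    · simp at h1
    · positivity
  · positivity

theorem B_nonneg_of_mem_seg {p q r : Pt} {n : V} (h : r ∈ seg p q) (hp : 0 ≤ B n p.1)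
    (hq : 0 ≤ B n q.1) : 0 ≤ B n r.1 := by
  obtain ⟨s, t, hs, ht, h⟩ := h
  rw [h, B_add_right, B_smul_right, B_smul_right]
  positivity

end HRT
end

-- merged part: Pool.Agent.Work.MP_35beee_gt.GTop
section
/-!
Topology of the isometry group, convergence to the circle at infinity, north-south dynamics.

Plan. `Isom` has the subspace topology from `SL(3,ℝ)`, i.e. from matrices. If `dist o (g • o) ≤ R`
all entries of `g` are bounded by `cosh R` or so (columns: `B`-norms are `1, 1, -1` and the last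
row is controlled through `g⁻¹ = J gᵀ J`), the set is closed in the matrix space.
Boundary: `kl p` is the Klein model. If `dist o p → ∞` then `B (kl p) (kl p) = -(p 2)⁻² → 0`.
For `tendsto_smul_circ`: `-B (lin g ζ) (g • o) = ζ 2 = 1` and
`lin g ζ 2 = -B ζ (g⁻¹ • o) ≥ c (g⁻¹ • o) 2 → ∞`, so `B (g • ζ) (kl (g • o)) → 0`.
-/

namespace HRT

open Matrix Set Filter Topology

instance : IsTopologicalGroup Isom := inferInstance

/-- The matrix of an isometry. -/
def GTop_mat (g : Isom) : Matrix (Fin 3) (Fin 3) ℝ := g.1.1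

theorem GTop_mat_apply (g : Isom) (i j : Fin 3) : GTop_mat g i j = lin g (Pi.single j 1) i := by
  show _ = (GTop_mat g *ᵥ Pi.single j 1) i
  rw [mulVec_single_one]
  rfl

theorem GTop_closed : IsClosed (isomG : Set (SpecialLinearGroup (Fin 3) ℝ)) := by
  have hc : ∀ v : V, Continuous fun g : SpecialLinearGroup (Fin 3) ℝ => slAct g v := fun v =>
    continuous_subtype_val.matrix_mulVec continuous_const
  have : (isomG : Set (SpecialLinearGroup (Fin 3) ℝ)) =
      (⋂ u : V, ⋂ v : V, {g | B (slAct g u) (slAct g v) = B u v}) ∩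
        ⋂ p : Pt, {g | 0 ≤ slAct g p.1 2} := by
    ext g
    simp only [mem_inter_iff, mem_iInter, mem_ofPred_eq]
    constructor
    · intro h
      exact ⟨h.1, fun p => (h.2 p.1 p.2.1 p.2.2).le⟩
    · rintro ⟨h1, h2⟩
      refine ⟨h1, fun p hp h => lt_of_le_of_ne (h2 ⟨p, hp, h⟩) fun e => ?_⟩
      have h3 := (h1 p p).trans hp
      simp only [B, ← e] at h3
      linarith only [h3, mul_self_nonneg (slAct g p 0), mul_self_nonneg (slAct g p 1), mul_self_nonneg (slAct g p (1 : Fin (3 : ℕ))), mul_self_nonneg (slAct g p (0 : Fin (3 : ℕ)))]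
  rw [this]
  exact (isClosed_iInter fun u => isClosed_iInter fun v =>
    isClosed_eq ((hc u).B' (hc v)) continuous_const).inter
      (isClosed_iInter fun p => isClosed_le continuous_const ((continuous_apply 2).comp (hc p.1)))

theorem GTop_emb : IsClosedEmbedding GTop_mat :=
  SpecialLinearGroup.isClosedEmbedding_val.comp GTop_closed.isClosedEmbedding_subtypeVal

theorem GTop_cont : Continuous fun x : Isom × V => lin x.1 x.2 :=
  (GTop_emb.continuous.comp continuous_fst).matrix_mulVec continuous_snd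

theorem tendsto_isom_iff {X : Type*} {F : Filter X} {g : X → Isom} {a : Isom} :
    Tendsto g F (𝓝 a) ↔ ∀ v, Tendsto (fun x => lin (g x) v) F (𝓝 (lin a v)) := by
  constructor
  · intro h v
    have h1 : Continuous fun g : Isom => lin g v :=
      GTop_emb.continuous.matrix_mulVec continuous_const
    exact (h1.tendsto a).comp h
  · intro h
    rw [GTop_emb.isInducing.tendsto_nhds_iff]
    refine tendsto_pi_nhds.2 fun i => tendsto_pi_nhds.2 fun j => ?_
    simp only [Function.comp_apply, GTop_mat_apply]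
    exact tendsto_pi_nhds.1 (h _) i

theorem continuous_lin2 : Continuous fun x : Isom × V => lin x.1 x.2 := by
  exact GTop_cont

instance : ContinuousSMul Isom Pt := by
  refine ⟨Continuous.subtype_mk ?_ fun x : Isom × Pt => lin_pt x.1 x.2⟩
  exact GTop_cont.comp (continuous_fst.prodMk (continuous_subtype_val.comp continuous_snd))

instance : ContinuousSMul Isom Circ := by
  have h : Continuous fun x : Isom × Circ => lin x.1 x.2.1 :=
    GTop_cont.comp (continuous_fst.prodMk (continuous_subtype_val.comp continuous_snd))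
  refine ⟨Continuous.subtype_mk ?_ fun x : Isom × Circ => lin_circ x.1 x.2⟩
  exact (((continuous_apply 2).comp h).inv₀ fun x => (lin_circ_pos x.1 x.2).ne').smul h

theorem GTop_bound (g : Isom) {C : ℝ} (h : -B o.1 (g • o).1 ≤ C) (i j : Fin 3) :
    GTop_mat g i j ∈ Icc (-(1 + C)) (1 + C) := by
  have h1 : (g⁻¹ • o).1 2 ≤ C := by
    rw [smul_pt_val, B_comm, B_lin_left, B_o, neg_neg] at h
    exact h
  obtain ⟨h2, h3⟩ := (g⁻¹ • o).2
  have h4 : lin g (Pi.single j 1) 2 = -B (Pi.single j 1) (g⁻¹ • o).1 := by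
    rw [smul_pt_val, ← B_lin_left, B_comm, B_o, neg_neg]
  have h5 := B_lin g (Pi.single j 1) (Pi.single j 1)
  generalize (g⁻¹ • o).1 = w at h1 h2 h3 h4
  rw [GTop_mat_apply]
  generalize lin g (Pi.single j 1) = a at h4 h5
  have h6 : w 2 * w 2 ≤ C * C := mul_self_le_mul_self h3.le h1
  have h7 : a 2 * a 2 ≤ C * C ∧ B a a ≤ 1 := by
    rw [h4, h5]
    simp only [B] at h2
    fin_cases j <;> simp [B] <;> linarith only [h2, h6, mul_self_nonneg (w 0), mul_self_nonneg (w 1), mul_self_nonneg (w (1 : Fin (3 : ℕ))), mul_self_nonneg (w (0 : Fin (3 : ℕ)))]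
  have h8 : a i ^ 2 ≤ (1 + C) ^ 2 := by
    obtain ⟨h8, h9⟩ := h7
    simp only [B] at h9
    have h10 : 0 ≤ C := h3.le.trans h1
    fin_cases i
    · show a 0 ^ 2 ≤ _
      linarith only [h1, h3, h8, h9, mul_self_nonneg (a 1), mul_self_nonneg (a (1 : Fin (3 : ℕ)))]
    · show a 1 ^ 2 ≤ _
      linarith only [h1, h3, h8, h9, mul_self_nonneg (a 0), mul_self_nonneg (a (0 : Fin (3 : ℕ)))]
    · show a 2 ^ 2 ≤ _
      linarith only [h1, h3, h8]
  exact abs_le.1 (abs_le_of_sq_le_sq' h8 (by linarith) |> abs_le.2)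

theorem isCompact_isom_ball (p q : Pt) (R : ℝ) : IsCompact {g : Isom | dist p (g • q) ≤ R} := by
  let C := Real.cosh (dist o p + R + dist q o)
  have hK : IsCompact (Set.pi univ fun _ : Fin 3 => Set.pi univ fun _ : Fin 3 =>
      Icc (-(1 + C)) (1 + C)) :=
    isCompact_univ_pi fun _ => isCompact_univ_pi fun _ => isCompact_Icc
  refine (GTop_emb.isCompact_preimage hK).of_isClosed_subset
    (isClosed_le (continuous_const.dist (continuous_id.smul continuous_const)) continuous_const)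
    fun g hg i _ j _ => GTop_bound g ?_ i j
  have h1 : dist o (g • o) ≤ dist o p + R + dist q o := by
    have := dist_triangle4 o p (g • q) (g • o)
    rw [dist_smul] at this
    exact this.trans (add_le_add_left (add_le_add_right hg _) _)
  rw [← cosh_dist, Real.cosh_le_cosh, abs_of_nonneg dist_nonneg]
  exact h1.trans (le_abs_self _)

noncomputable instance circMetric : MetricSpace Circ := Subtype.metricSpace

instance : CompactSpace Circ := by
  refine isCompact_iff_compactSpace.1 (?_ : IsCompact {ξ : V | B ξ ξ = 0 ∧ ξ 2 = 1})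
  refine (isCompact_closedBall (0 : V) 1).of_isClosed_subset
    ((isClosed_eq (continuous_id.B' continuous_id) continuous_const).inter
      (isClosed_eq (continuous_apply 2) continuous_const)) ?_
  rintro ξ ⟨h1, h2⟩
  rw [mem_closedBall_zero_iff, pi_norm_le_iff_of_nonneg zero_le_one]
  simp only [B, h2] at h1
  intro i
  rw [Real.norm_eq_abs, ← sq_le_one_iff_abs_le_one]
  fin_cases i
  · show ξ 0 ^ 2 ≤ 1
    nlinarith [mul_self_nonneg (ξ 1)]
  · show ξ 1 ^ 2 ≤ 1
    nlinarith [mul_self_nonneg (ξ 0)]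
  · show ξ 2 ^ 2 ≤ 1
    rw [h2, one_pow]

theorem GTop_circ (ξ η : Circ) :
    2 * -B ξ.1 η.1 = (ξ.1 0 - η.1 0) ^ 2 + (ξ.1 1 - η.1 1) ^ 2 := by
  obtain ⟨h1, h2⟩ := ξ.2
  obtain ⟨h3, h4⟩ := η.2
  simp only [B, h2, h4] at h1 h3 ⊢
  linear_combination -h1 - h3

theorem circ_dist_sq_le (ξ η : Circ) : dist ξ η ^ 2 ≤ 2 * -B ξ.1 η.1 := by
  rw [GTop_circ]
  refine (Real.le_sqrt dist_nonneg (by positivity)).1 ?_
  refine (dist_pi_le_iff (f := ξ.1) (g := η.1) (Real.sqrt_nonneg _)).2 fun i => ?_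
  rw [Real.dist_eq]
  refine Real.abs_le_sqrt ?_
  fin_cases i
  · exact le_add_of_nonneg_right (sq_nonneg _)
  · exact le_add_of_nonneg_left (sq_nonneg _)
  · show (ξ.1 2 - η.1 2) ^ 2 ≤ _
    rw [ξ.2.2, η.2.2, sub_self, zero_pow two_ne_zero]
    positivity

theorem neg_B_le_circ_dist_sq (ξ η : Circ) : -B ξ.1 η.1 ≤ dist ξ η ^ 2 := by
  have h : ∀ i, (ξ.1 i - η.1 i) ^ 2 ≤ dist ξ η ^ 2 := fun i => by
    rw [← sq_abs, ← Real.dist_eq]
    exact pow_le_pow_left₀ dist_nonneg (dist_le_pi_dist ξ.1 η.1 i) 2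
  linarith only [h, GTop_circ ξ η, h 0, h 1]

theorem GTop_fix {g : Isom} {u v w : V} (h : det3 u v w ≠ 0) (hu : lin g u = u)
    (hv : lin g v = v) (hw : lin g w = w) : g = 1 := by
  refine isom_ext fun x => smul_right_injective V h ?_
  show det3 u v w • lin g x = det3 u v w • lin 1 x
  rw [lin_one, ← lin_smul, cramer3, lin_add, lin_add, lin_smul, lin_smul, lin_smul, hu, hv, hw]

theorem GTop_eig {g : Isom} {a : Circ} (ha : g • a = a) : lin g a.1 = lin g a.1 2 • a.1 := by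
  conv_lhs => rw [lin_circ_val, ha]

/-- An isometry fixing three boundary points is the identity. -/
theorem eq_one_of_fix_three {g : Isom} {a b c : Circ} (hab : a ≠ b) (hbc : b ≠ c) (hac : a ≠ c)
    (ha : g • a = a) (hb : g • b = b) (hc : g • c = c) : g = 1 := by
  have key : ∀ {x y : Circ}, x ≠ y → g • x = x → g • y = y → lin g x.1 2 * lin g y.1 2 = 1 := by
    intro x y hxy hx hy
    have h := B_lin g x.1 y.1
    rw [GTop_eig hx, GTop_eig hy, B_smul_left, B_smul_right, ← mul_assoc] at h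
    exact mul_right_cancel₀ (B_circ_neg hxy).ne (h.trans (one_mul _).symm)
  have k3 : ∀ {x y z : Circ}, x ≠ y → y ≠ z → x ≠ z → g • x = x → g • y = y → g • z = z →
      lin g x.1 = x.1 := by
    intro x y z h1 h2 h3 hx hy hz
    have e1 := key h1 hx hy
    have e2 := key h2 hy hz
    have e3 := key h3 hx hz
    have e4 : lin g x.1 2 * lin g x.1 2 = 1 := by
      linear_combination (lin g x.1 2 * lin g z.1 2) * e1 + e3 - (lin g x.1 2) ^ 2 * e2
    rcases mul_self_eq_one_iff.1 e4 with e | e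
    · rw [GTop_eig hx, e, one_smul]
    · linarith [lin_circ_pos g x]
  refine GTop_fix (fun e => ?_) (k3 hab hbc hac ha hb hc) (k3 hbc hac.symm hab.symm hb hc ha)
    (k3 hac.symm hab hbc.symm hc ha hb)
  have h := det3_sq a.1 b.1 c.1
  rw [e, a.2.1, b.2.1, c.2.1] at h
  have := mul_neg_of_pos_of_neg (mul_pos_of_neg_of_neg (B_circ_neg hab) (B_circ_neg hbc))
    (B_circ_neg hac)
  linarith

theorem eq_one_of_fix_pt_circ {g : Isom} {p : Pt} {ξ : Circ} (hp : g • p = p) (hξ : g • ξ = ξ) :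
    g = 1 := by
  have h1 : lin g p.1 = p.1 := congrArg Subtype.val hp
  have h0 := (B_pt_circ_neg p ξ).ne
  have h2 : lin g ξ.1 = ξ.1 := by
    have h := B_lin g p.1 ξ.1
    rw [h1, GTop_eig hξ, B_smul_right] at h
    rw [GTop_eig hξ, mul_right_cancel₀ h0 (h.trans (one_mul _).symm), one_smul]
  refine GTop_fix (w := cr p.1 ξ.1) ?_ h1 h2 (by rw [lin_cr, h1, h2])
  rw [det3, B_cr_cr, ξ.2.1, mul_zero, sub_zero, B_comm ξ.1]
  exact mul_ne_zero h0 h0

theorem eq_one_of_fix_two_pt {g : Isom} {p q : Pt} (hpq : p ≠ q) (hp : g • p = p)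
    (hq : g • q = q) : g = 1 := by
  have h1 : lin g p.1 = p.1 := congrArg Subtype.val hp
  have h2 : lin g q.1 = q.1 := congrArg Subtype.val hq
  refine GTop_fix (w := cr p.1 q.1) ?_ h1 h2 (by rw [lin_cr, h1, h2])
  rw [det3, B_cr_cr, p.2.1, q.2.1, B_comm q.1]
  have h3 : 1 < -B p.1 q.1 :=
    lt_of_le_of_ne (one_le_neg_B p q) fun e => hpq (eq_of_neg_B_eq_one e.symm)
  nlinarith

theorem eq_of_smul_circ_eq {g h : Isom} (H : ∀ ξ : Circ, g • ξ = h • ξ) : g = h := by
  have key : ∀ ξ : Circ, (h⁻¹ * g) • ξ = ξ := fun ξ => by rw [mul_smul, H, inv_smul_smul]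
  let a : Circ := ⟨![1, 0, 1], by simp [B], by simp⟩
  let b : Circ := ⟨![0, 1, 1], by simp [B], by simp⟩
  let c : Circ := ⟨![-1, 0, 1], by simp [B], by simp⟩
  have := eq_one_of_fix_three (a := a) (b := b) (c := c)
    (fun e => by simpa [a, b] using congrFun (congrArg Subtype.val e) 0)
    (fun e => by simpa [b, c] using congrFun (congrArg Subtype.val e) 0)
    (fun e => by
      have h0 : (1 : ℝ) = -1 := congrFun (congrArg Subtype.val e) 0
      linarith) (key a) (key b) (key c)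
  exact (inv_mul_eq_one.1 this).symm

end HRT
end

-- merged part: Pool.Agent.Work.MP_35beee_gt.GCirc
section
/-!
The cyclic order of the circle at infinity.

Plan. `exists_param`: move `ξ` to `(1,0,1)` by a rotation (or do it directly) and use the
stereographic parametrisation `t ↦ ((t²-1)/(t²+1), -2t/(t²+1), 1)` up to sign; then
`det3 (φ r) (φ s) (φ t)` is a positive multiple of `(s-r)(t-s)(t-r)` and `det3 ξ (φ s) (φ t)` of
`t - s`. All order statements reduce to the order of the real line through this chart.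
-/

namespace HRT

open Matrix Set Filter Topology

theorem ccw.cyc {a b c : Circ} (h : ccw a b c) : ccw b c a := by
  rw [ccw_iff] at *; rwa [← det3_cyc]

theorem ccw.asymm {a b c : Circ} (h : ccw a b c) : ¬ ccw a c b := by
  rw [ccw_iff] at *; rw [det3_swap]; linarith

theorem ccw.ne12 {a b c : Circ} (h : ccw a b c) : a ≠ b := by
  rintro rfl
  rw [ccw_iff, det3_cyc, det3, B_cr_left] at h
  exact lt_irrefl _ h

theorem ccw.ne23 {a b c : Circ} (h : ccw a b c) : b ≠ c := h.cyc.ne12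

theorem ccw.ne13 {a b c : Circ} (h : ccw a b c) : a ≠ c := h.cyc.cyc.ne12.symm

theorem ccw_total {a b c : Circ} (hab : a ≠ b) (hbc : b ≠ c) (hac : a ≠ c) :
    ccw a b c ∨ ccw a c b := by
  have h1 := B_circ_neg hab
  have h2 := B_circ_neg hbc
  have h3 := B_circ_neg hac
  have h4 := det3_sq a.1 b.1 c.1
  rw [a.2.1, b.2.1, c.2.1] at h4
  have h5 : B a.1 b.1 * B b.1 c.1 * B a.1 c.1 < 0 :=
    mul_neg_of_pos_of_neg (mul_pos_of_neg_of_neg h1 h2) h3
  have h6 : det3 a.1 b.1 c.1 ≠ 0 := by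
    intro h
    rw [h] at h4
    linarith only [h4, h5]
  rw [ccw_iff, ccw_iff, det3_swap a.1 b.1 c.1]
  rcases lt_or_gt_of_ne h6 with h | h
  · exact Or.inr (by linarith)
  · exact Or.inl h

theorem GCirc_sq (ξ : Circ) : ξ.1 0 ^ 2 + ξ.1 1 ^ 2 = 1 := by
  have h := ξ.2.1
  simp only [B, ξ.2.2] at h
  linarith only [h]

theorem GCirc_val : Continuous fun ξ : Circ => ξ.1 := continuous_subtype_val

/-- The stereographic parametrisation, as a vector. -/
noncomputable def GCircVec (ξ : Circ) (t : ℝ) : V :=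
  ![(ξ.1 0 * (t ^ 2 - 1) + ξ.1 1 * (2 * t)) / (t ^ 2 + 1),
    (ξ.1 1 * (t ^ 2 - 1) - ξ.1 0 * (2 * t)) / (t ^ 2 + 1), 1]

theorem GCircVec_0 (ξ : Circ) (t : ℝ) :
    GCircVec ξ t 0 = (ξ.1 0 * (t ^ 2 - 1) + ξ.1 1 * (2 * t)) / (t ^ 2 + 1) := rfl

theorem GCircVec_1 (ξ : Circ) (t : ℝ) :
    GCircVec ξ t 1 = (ξ.1 1 * (t ^ 2 - 1) - ξ.1 0 * (2 * t)) / (t ^ 2 + 1) := rfl

theorem GCircVec_2 (ξ : Circ) (t : ℝ) : GCircVec ξ t 2 = 1 := rfl

theorem GCirc_pos (t : ℝ) : 0 < t ^ 2 + 1 := by positivity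

/-- The stereographic parametrisation. -/
noncomputable def GCircPhi (ξ : Circ) (t : ℝ) : Circ :=
  ⟨GCircVec ξ t, by
    have h := GCirc_sq ξ
    have h1 := (GCirc_pos t).ne'
    simp only [B, GCircVec_0, GCircVec_1, GCircVec_2]
    field_simp
    linear_combination (t ^ 2 + 1) ^ 2 * h, rfl⟩

/-- The stereographic projection. -/
noncomputable def GCircPsi (ξ η : Circ) : ℝ := (ξ.1 0 * η.1 1 - ξ.1 1 * η.1 0) / B ξ.1 η.1

theorem GCirc_B (ξ : Circ) (t : ℝ) : B ξ.1 (GCircVec ξ t) = -(2 / (t ^ 2 + 1)) := by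
  have h := GCirc_sq ξ
  have h1 := (GCirc_pos t).ne'
  simp only [B, GCircVec_0, GCircVec_1, GCircVec_2, ξ.2.2]
  field_simp
  linear_combination (t ^ 2 - 1) * h

theorem GCirc_det2 (ξ : Circ) (s t : ℝ) : det3 ξ.1 (GCircVec ξ s) (GCircVec ξ t) =
    4 * (t - s) / ((s ^ 2 + 1) * (t ^ 2 + 1)) := by
  have h := GCirc_sq ξ
  have h1 := (GCirc_pos t).ne'
  have h2 := (GCirc_pos s).ne'
  simp only [det3, B, cr_0, cr_1, cr_2, GCircVec_0, GCircVec_1, GCircVec_2, ξ.2.2]
  field_simp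
  linear_combination (4 * (t - s)) * h

theorem GCirc_det3 (ξ : Circ) (r s t : ℝ) :
    det3 (GCircVec ξ r) (GCircVec ξ s) (GCircVec ξ t) =
      4 * ((s - r) * (t - s) * (t - r)) / ((r ^ 2 + 1) * (s ^ 2 + 1) * (t ^ 2 + 1)) := by
  have h := GCirc_sq ξ
  have h1 := (GCirc_pos t).ne'
  have h2 := (GCirc_pos s).ne'
  have h3 := (GCirc_pos r).ne'
  simp only [det3, B, cr_0, cr_1, cr_2, GCircVec_0, GCircVec_1, GCircVec_2]
  field_simp
  linear_combination (4 * ((s - r) * (t - s) * (t - r))) * h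

theorem GCirc_ne (ξ : Circ) (t : ℝ) : GCircPhi ξ t ≠ ξ := by
  intro h
  have h1 := GCirc_B ξ t
  have h2 : GCircVec ξ t = ξ.1 := congrArg Subtype.val h
  rw [h2, ξ.2.1] at h1
  have h3 : 0 < 2 / (t ^ 2 + 1) := by positivity
  linarith only [h1, h3]

theorem GCirc_left (ξ : Circ) (t : ℝ) : GCircPsi ξ (GCircPhi ξ t) = t := by
  have h := GCirc_sq ξ
  have h1 := (GCirc_pos t).ne'
  show (ξ.1 0 * GCircVec ξ t 1 - ξ.1 1 * GCircVec ξ t 0) / B ξ.1 (GCircVec ξ t) = t
  rw [GCirc_B, GCircVec_0, GCircVec_1]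
  field_simp
  linear_combination (2 * t) * h

theorem GCirc_right {ξ η : Circ} (hne : η ≠ ξ) : GCircPhi ξ (GCircPsi ξ η) = η := by
  have h := GCirc_sq ξ
  have h' := GCirc_sq η
  have h1 := (B_circ_neg hne.symm).ne
  have h2 : B ξ.1 η.1 = ξ.1 0 * η.1 0 + ξ.1 1 * η.1 1 - 1 := by
    simp only [B, ξ.2.2, η.2.2, mul_one]
  have h3 : GCircPsi ξ η * B ξ.1 η.1 = ξ.1 0 * η.1 1 - ξ.1 1 * η.1 0 := div_mul_cancel₀ _ h1
  have h4 : (GCircPsi ξ η ^ 2 + 1) * B ξ.1 η.1 = -2 := by
    refine mul_right_cancel₀ h1 ?_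
    have : (GCircPsi ξ η ^ 2 + 1) * B ξ.1 η.1 * B ξ.1 η.1 =
        (GCircPsi ξ η * B ξ.1 η.1) ^ 2 + B ξ.1 η.1 ^ 2 := by ring
    rw [this, h3, h2]
    linear_combination (η.1 0 ^ 2 + η.1 1 ^ 2) * h + h'
  have h5 := (GCirc_pos (GCircPsi ξ η)).ne'
  refine Subtype.ext (V_ext ?_ ?_ η.2.2.symm)
  · show GCircVec ξ (GCircPsi ξ η) 0 = _
    rw [GCircVec_0, div_eq_iff h5]
    refine mul_right_cancel₀ h1 ?_
    linear_combination (ξ.1 0 - η.1 0) * h4 + 2 * ξ.1 1 * h3 - 2 * ξ.1 0 * h2 - 2 * η.1 0 * h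
  · show GCircVec ξ (GCircPsi ξ η) 1 = _
    rw [GCircVec_1, div_eq_iff h5]
    refine mul_right_cancel₀ h1 ?_
    linear_combination (ξ.1 1 - η.1 1) * h4 - 2 * ξ.1 0 * h3 - 2 * ξ.1 1 * h2 - 2 * η.1 1 * h

theorem GCirc_cont (ξ : Circ) : Continuous (GCircPhi ξ) := by
  refine Continuous.subtype_mk (continuous_pi fun i => ?_) _
  fin_cases i
  · exact Continuous.div (f := fun t : ℝ => ξ.1 0 * (t ^ 2 - 1) + ξ.1 1 * (2 * t))
      (g := fun t : ℝ => t ^ 2 + 1) (by fun_prop) (by fun_prop) fun t => (GCirc_pos t).ne'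
  · exact Continuous.div (f := fun t : ℝ => ξ.1 1 * (t ^ 2 - 1) - ξ.1 0 * (2 * t))
      (g := fun t : ℝ => t ^ 2 + 1) (by fun_prop) (by fun_prop) fun t => (GCirc_pos t).ne'
  · exact continuous_const (y := (1 : ℝ))

theorem GCirc_contOn (ξ : Circ) : ContinuousOn (GCircPsi ξ) {ξ}ᶜ := by
  have h0 : Continuous fun η : Circ => η.1 0 := (continuous_apply 0).comp GCirc_val
  have h1 : Continuous fun η : Circ => η.1 1 := (continuous_apply 1).comp GCirc_val
  refine ContinuousOn.div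
    ((continuous_const.mul h1).sub (continuous_const.mul h0)).continuousOn
    (continuous_const.B' GCirc_val).continuousOn fun η hη => ?_
  exact (B_circ_neg (Ne.symm hη)).ne

/-- The chart. -/
noncomputable def GCircChart (ξ : Circ) : OpenPartialHomeomorph ℝ Circ where
  toFun := GCircPhi ξ
  invFun := GCircPsi ξ
  source := univ
  target := {ξ}ᶜ
  map_source' t _ := GCirc_ne ξ t
  map_target' _ _ := mem_univ _
  left_inv' t _ := GCirc_left ξ t
  right_inv' _ h := GCirc_right h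
  open_source := isOpen_univ
  open_target := isOpen_compl_singleton
  continuousOn_toFun := (GCirc_cont ξ).continuousOn
  continuousOn_invFun := GCirc_contOn ξ

theorem GCirc_tendsto (ξ : Circ) {F : Filter ℝ} (hF : Tendsto (fun t : ℝ => t ^ 2) F atTop) :
    Tendsto (GCircPhi ξ) F (𝓝 ξ) := by
  have h1 : Tendsto (fun t : ℝ => 4 / (t ^ 2 + 1)) F (𝓝 0) :=
    Tendsto.div_atTop tendsto_const_nhds (tendsto_atTop_add_const_right _ _ hF)
  have h2 : Tendsto (fun t : ℝ => √(4 / (t ^ 2 + 1))) F (𝓝 0) := by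
    simpa using h1.sqrt
  refine tendsto_iff_dist_tendsto_zero.2 (squeeze_zero (fun _ => dist_nonneg) (fun t => ?_) h2)
  refine Real.le_sqrt_of_sq_le ?_
  rw [dist_comm]
  refine (circ_dist_sq_le ξ (GCircPhi ξ t)).trans (le_of_eq ?_)
  show 2 * -B ξ.1 (GCircVec ξ t) = _
  rw [GCirc_B]
  ring

theorem GCirc_lt_iff (ξ : Circ) (s t : ℝ) : ccw ξ (GCircPhi ξ s) (GCircPhi ξ t) ↔ s < t := by
  rw [ccw_iff]
  show 0 < det3 ξ.1 (GCircVec ξ s) (GCircVec ξ t) ↔ _
  rw [GCirc_det2, div_pos_iff_of_pos_right (mul_pos (GCirc_pos s) (GCirc_pos t))]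
  constructor <;> intro h <;> linarith

theorem GCirc_three (ξ : Circ) {r s t : ℝ} (h1 : r < s) (h2 : s < t) :
    ccw (GCircPhi ξ r) (GCircPhi ξ s) (GCircPhi ξ t) := by
  rw [ccw_iff]
  show 0 < det3 (GCircVec ξ r) (GCircVec ξ s) (GCircVec ξ t)
  rw [GCirc_det3]
  exact div_pos (mul_pos four_pos (mul_pos (mul_pos (sub_pos.2 h1) (sub_pos.2 h2))
    (sub_pos.2 (h1.trans h2)))) (mul_pos (mul_pos (GCirc_pos r) (GCirc_pos s)) (GCirc_pos t))

theorem GCirc_lt {a b c : Circ} (h : ccw a b c) : GCircPsi a b < GCircPsi a c := by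
  rw [← GCirc_lt_iff a, GCirc_right h.ne12.symm, GCirc_right h.ne13.symm]
  exact h

theorem ccw.trans {a b c d : Circ} (h1 : ccw a b c) (h2 : ccw a c d) : ccw a b d := by
  rw [← GCirc_right h1.ne12.symm, ← GCirc_right h2.ne13.symm, GCirc_lt_iff]
  exact (GCirc_lt h1).trans (GCirc_lt h2)

theorem ccw.trans' {a b c d : Circ} (h1 : ccw a b c) (h2 : ccw a c d) : ccw b c d := by
  have h := GCirc_three a (GCirc_lt h1) (GCirc_lt h2)
  rwa [GCirc_right h1.ne12.symm, GCirc_right h1.ne13.symm, GCirc_right h2.ne13.symm] at h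

theorem ccw_smul_iff (g : Isom) {a b c : Circ} : ccw (g • a) (g • b) (g • c) ↔ ccw a b c := by
  have h : ∀ (x y z : ℝ) (u v w : V),
      det3 (x • u) (y • v) (z • w) = x * y * z * det3 u v w := by
    intro x y z u v w
    simp only [det3, B, cr_0, cr_1, cr_2, Pi.smul_apply, smul_eq_mul]
    ring
  rw [ccw_iff, ccw_iff, smul_circ_val, smul_circ_val, smul_circ_val, h, det3_lin]
  exact mul_pos_iff_of_pos_left (mul_pos (mul_pos (inv_pos.2 (lin_circ_pos g a))
    (inv_pos.2 (lin_circ_pos g b))) (inv_pos.2 (lin_circ_pos g c)))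

theorem isOpen_ccw : IsOpen {t : Circ × Circ × Circ | ccw t.1 t.2.1 t.2.2} := by
  simp only [ccw_iff]
  refine isOpen_lt continuous_const ?_
  exact (continuous_cr.comp ((GCirc_val.comp continuous_fst).prodMk
    (GCirc_val.comp (continuous_fst.comp continuous_snd)))).B'
      (GCirc_val.comp (continuous_snd.comp continuous_snd))

theorem eventually_ccw {X : Type*} {F : Filter X} {a b c : X → Circ} {a' b' c' : Circ}
    (ha : Tendsto a F (𝓝 a')) (hb : Tendsto b F (𝓝 b')) (hc : Tendsto c F (𝓝 c'))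
    (h : ccw a' b' c') : ∀ᶠ x in F, ccw (a x) (b x) (c x) := by
  exact (ha.prodMk_nhds (hb.prodMk_nhds hc)).eventually
    (isOpen_ccw.mem_nhds (show (a', b', c') ∈ _ from h))

/-- A chart of the circle minus a point. -/
theorem exists_param (ξ : Circ) : ∃ φ : ℝ → Circ, IsOpenEmbedding φ ∧ range φ = {ξ}ᶜ ∧
    (∀ s t, ccw ξ (φ s) (φ t) ↔ s < t) ∧
    (∀ r s t, r < s → s < t → ccw (φ r) (φ s) (φ t)) ∧
    Tendsto φ atTop (𝓝 ξ) ∧ Tendsto φ atBot (𝓝 ξ) := by
  refine ⟨GCircPhi ξ, (GCircChart ξ).isOpenEmbedding rfl, ?_, GCirc_lt_iff ξ,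
    fun r s t => GCirc_three ξ, GCirc_tendsto ξ (tendsto_pow_atTop two_ne_zero),
    GCirc_tendsto ξ ?_⟩
  · refine Subset.antisymm ?_ fun η hη => ⟨_, GCirc_right hη⟩
    rintro _ ⟨t, rfl⟩
    exact GCirc_ne ξ t
  · simpa [Function.comp_def] using
      (tendsto_pow_atTop (α := ℝ) two_ne_zero).comp tendsto_neg_atBot_atTop

end HRT
end

-- merged part: Pool.Agent.Work.MP_35beee_gt.GLine
section
/-!
Oriented lines, Fermi coordinates.

An oriented line `l` is a pair of distinct boundary points `l.src`, `l.tgt`. `nrm l` is the unit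
normal pointing to the LEFT, `side l v = B (nrm l) v` (`= sinh` of the signed distance for points),
`pt l t` is the unit speed parametrisation, `fer l v` the parameter of the orthogonal projection
of a point or boundary point, `fermi l t r` the point at signed distance `r` over `pt l t`.

Plan. `a = l.src`, `b = l.tgt`, `n = nrm l` form a basis with `B a a = B b b = B a n = B b n = 0`,
`B n n = 1`, `B a b < 0`; every `v` is `(B v b / B a b) a + (B v a / B a b) b + (B v n) n`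
(`expand`). All formulas are computations in this basis.
-/

namespace HRT

open Matrix Set Filter Topology Real

/-- Oriented lines. -/
def Geo : Type := {l : Circ × Circ // l.1 ≠ l.2}

noncomputable instance geoMetric : MetricSpace Geo := Subtype.metricSpace

/-- Starting point at infinity. -/
def Geo.src (l : Geo) : Circ := l.1.1
/-- End point at infinity. -/
def Geo.tgt (l : Geo) : Circ := l.1.2
/-- The line from `a` to `b`. -/
def Geo.mk' (a b : Circ) (h : a ≠ b) : Geo := ⟨(a, b), h⟩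
/-- The reversed line. -/
def Geo.rev (l : Geo) : Geo := ⟨(l.tgt, l.src), l.2.symm⟩

theorem Geo.ne (l : Geo) : l.src ≠ l.tgt := l.2
@[ext] theorem Geo.ext {l m : Geo} (h1 : l.src = m.src) (h2 : l.tgt = m.tgt) : l = m :=
  Subtype.ext (Prod.ext h1 h2)
@[simp] theorem Geo.src_mk' (a b : Circ) (h : a ≠ b) : (Geo.mk' a b h).src = a := rfl
@[simp] theorem Geo.tgt_mk' (a b : Circ) (h : a ≠ b) : (Geo.mk' a b h).tgt = b := rfl
@[simp] theorem Geo.src_rev (l : Geo) : l.rev.src = l.tgt := rfl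
@[simp] theorem Geo.tgt_rev (l : Geo) : l.rev.tgt = l.src := rfl
@[simp] theorem Geo.rev_rev (l : Geo) : l.rev.rev = l := rfl
theorem Geo.rev_ne (l : Geo) : l.rev ≠ l := fun h => l.ne (congrArg Geo.tgt h)

noncomputable instance actGeo : MulAction Isom Geo where
  smul g l := ⟨(g • l.src, g • l.tgt), fun h => l.ne (smul_left_cancel g h)⟩
  one_smul l := Geo.ext (one_smul Isom l.src) (one_smul Isom l.tgt)
  mul_smul g h l := Geo.ext (mul_smul g h l.src) (mul_smul g h l.tgt)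

@[simp] theorem Geo.src_smul (g : Isom) (l : Geo) : (g • l).src = g • l.src := rfl
@[simp] theorem Geo.tgt_smul (g : Isom) (l : Geo) : (g • l).tgt = g • l.tgt := rfl
theorem Geo.smul_rev (g : Isom) (l : Geo) : g • l.rev = (g • l).rev := rfl

theorem Geo.continuous_src : Continuous Geo.src := continuous_fst.comp continuous_subtype_val
theorem Geo.continuous_tgt : Continuous Geo.tgt := continuous_snd.comp continuous_subtype_val

theorem Geo.tendsto_iff {X : Type*} {F : Filter X} {l : X → Geo} {m : Geo} :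
    Tendsto l F (𝓝 m) ↔ Tendsto (fun x => (l x).src) F (𝓝 m.src) ∧
      Tendsto (fun x => (l x).tgt) F (𝓝 m.tgt) :=
  tendsto_subtype_rng.trans (Prod.tendsto_iff _ _)

theorem Geo.continuous_rev : Continuous Geo.rev :=
  (Geo.continuous_tgt.prodMk Geo.continuous_src).subtype_mk _

instance : ContinuousSMul Isom Geo :=
  ⟨((continuous_fst.smul (Geo.continuous_src.comp continuous_snd)).prodMk
    (continuous_fst.smul (Geo.continuous_tgt.comp continuous_snd))).subtype_mk _⟩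

instance : LocallyCompactSpace Geo :=
  IsOpen.locallyCompactSpace (s := {l : Circ × Circ | l.1 ≠ l.2})
    (isOpen_ne_fun continuous_fst continuous_snd)

instance : SecondCountableTopology Geo := by
  have : SecondCountableTopology Circ :=
    TopologicalSpace.Subtype.secondCountableTopology {ξ : V | B ξ ξ = 0 ∧ ξ 2 = 1}
  exact TopologicalSpace.Subtype.secondCountableTopology {l : Circ × Circ | l.1 ≠ l.2}

theorem Geo.B_neg (l : Geo) : B l.src.1 l.tgt.1 < 0 := B_circ_neg l.ne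

/-- Unit normal, pointing to the left. -/
noncomputable def nrm (l : Geo) : V := (-B l.src.1 l.tgt.1)⁻¹ • cr l.src.1 l.tgt.1

/-- Positive on the left of `l`, negative on the right. -/
noncomputable def side (l : Geo) (v : V) : ℝ := B (nrm l) v

theorem GLine_side (l : Geo) (v : V) :
    side l v = (-B l.src.1 l.tgt.1)⁻¹ * det3 l.src.1 l.tgt.1 v := B_smul_left _ _ _

theorem GLine_pos (l : Geo) : 0 < (-B l.src.1 l.tgt.1)⁻¹ := inv_pos.2 (neg_pos.2 l.B_neg)

theorem GLine_cr_smul (s t : ℝ) (u v : V) : cr (s • u) (t • v) = (s * t) • cr u v := by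
  apply V_ext <;> simp only [cr_0, cr_1, cr_2, Pi.smul_apply, smul_eq_mul] <;> ring

theorem B_nrm_nrm (l : Geo) : B (nrm l) (nrm l) = 1 := by
  have h := l.B_neg.ne
  rw [nrm, B_smul_left, B_smul_right, B_cr_cr, l.src.2.1, B_comm l.tgt.1 l.src.1]
  field_simp
  ring
@[simp] theorem side_src (l : Geo) : side l l.src.1 = 0 := by
  rw [side, nrm, B_smul_left, B_cr_left, mul_zero]
@[simp] theorem side_tgt (l : Geo) : side l l.tgt.1 = 0 := by
  rw [side, nrm, B_smul_left, B_cr_right, mul_zero]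
theorem nrm_rev (l : Geo) : nrm l.rev = -nrm l := by
  rw [nrm, nrm, Geo.src_rev, Geo.tgt_rev, cr_anti l.src.1, B_comm l.tgt.1, smul_neg]
@[simp] theorem side_rev (l : Geo) (v : V) : side l.rev v = -side l v := by
  rw [side, side, nrm_rev, B_neg_left]
theorem nrm_smul (g : Isom) (l : Geo) : nrm (g • l) = lin g (nrm l) := by
  have h := l.B_neg.ne
  have h1 := (lin_circ_pos g l.src).ne'
  have h2 := (lin_circ_pos g l.tgt).ne'
  rw [nrm, nrm, Geo.src_smul, Geo.tgt_smul, smul_circ_val, smul_circ_val, GLine_cr_smul,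
    B_smul_left, B_smul_right, B_lin, lin_smul, lin_cr, smul_smul]
  congr 1
  field_simp
theorem side_lin (g : Isom) (l : Geo) (v : V) : side (g • l) (lin g v) = side l v := by
  rw [side, side, nrm_smul, B_lin]
@[simp] theorem side_smul_pt (g : Isom) (l : Geo) (p : Pt) :
    side (g • l) (g • p).1 = side l p.1 := side_lin g l p.1
theorem GLine_circ (g : Isom) (l : Geo) (ξ : Circ) :
    side (g • l) (g • ξ).1 = (lin g ξ.1 2)⁻¹ * side l ξ.1 := by
  rw [← side_lin g l ξ.1, smul_circ_val, side, side, B_smul_right]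
theorem side_smul_circ_pos (g : Isom) (l : Geo) (ξ : Circ) :
    0 < side (g • l) (g • ξ).1 ↔ 0 < side l ξ.1 := by
  rw [GLine_circ, mul_pos_iff_of_pos_left (inv_pos.2 (lin_circ_pos g ξ))]
theorem side_smul_circ_neg (g : Isom) (l : Geo) (ξ : Circ) :
    side (g • l) (g • ξ).1 < 0 ↔ side l ξ.1 < 0 := by
  rw [← neg_pos, ← neg_pos (a := side l ξ.1), ← side_rev, ← side_rev, ← Geo.smul_rev,
    side_smul_circ_pos]
theorem side_pos_iff (l : Geo) (ξ : Circ) : 0 < side l ξ.1 ↔ ccw l.src l.tgt ξ := by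
  rw [GLine_side, mul_pos_iff_of_pos_left (GLine_pos l), ccw_iff]
theorem side_neg_iff (l : Geo) (ξ : Circ) : side l ξ.1 < 0 ↔ ccw l.src ξ l.tgt := by
  rw [← neg_pos, ← side_rev, side_pos_iff]
  exact ⟨fun h => h.cyc, fun h => h.cyc.cyc⟩
theorem side_eq_zero_iff (l : Geo) (ξ : Circ) : side l ξ.1 = 0 ↔ ξ = l.src ∨ ξ = l.tgt := by
  constructor
  · intro h
    by_contra hc
    rw [not_or] at hc
    rcases ccw_total l.ne (Ne.symm hc.2) (Ne.symm hc.1) with h1 | h1
    · exact ((side_pos_iff l ξ).2 h1).ne' h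
    · exact ((side_neg_iff l ξ).2 h1).ne h
  · rintro (rfl | rfl)
    exacts [side_src l, side_tgt l]
theorem nrm_injective : Function.Injective nrm := by
  intro l m h
  have hs : ∀ v, side l v = side m v := fun v => by rw [side, side, h]
  have h1 := (side_eq_zero_iff l m.src).1 (by rw [hs, side_src])
  have h2 := (side_eq_zero_iff l m.tgt).1 (by rw [hs, side_tgt])
  rcases h1 with h1 | h1 <;> rcases h2 with h2 | h2
  · exact absurd (h1.trans h2.symm) m.ne
  · exact Geo.ext h1.symm h2.symm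
  · exfalso
    have h3 : m = l.rev := Geo.ext h1 h2
    have h4 := hs (nrm l)
    rw [h3, side_rev, side, B_nrm_nrm] at h4
    norm_num at h4
  · exact absurd (h1.trans h2.symm) m.ne
theorem exists_nrm_eq {n : V} (hn : B n n = 1) : ∃ l, nrm l = n := by
  have hn' : n 0 ^ 2 + n 1 ^ 2 = 1 + n 2 ^ 2 := by
    simp only [B] at hn
    linear_combination hn
  obtain ⟨R, hR⟩ : ∃ R : ℝ, R = 1 + n 2 ^ 2 := ⟨_, rfl⟩
  have R0 : R ≠ 0 := by rw [hR]; positivity
  have key : ∀ e : ℝ, e ^ 2 = 1 → B ![(n 2 * n 0 - e * n 1) / R, (n 2 * n 1 + e * n 0) / R, 1]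
      ![(n 2 * n 0 - e * n 1) / R, (n 2 * n 1 + e * n 0) / R, 1] = 0 := fun e he => by
    simp only [B, cons_val_zero, cons_val_one, cons_val_two, Nat.succ_eq_add_one, Nat.reduceAdd,
      tail_cons, head_cons]
    field_simp
    rw [hR]
    linear_combination (n 0 ^ 2 + n 1 ^ 2) * he + (1 + n 2 ^ 2) * hn'
  let a : Circ := ⟨_, key 1 (by norm_num), rfl⟩
  let b : Circ := ⟨_, key (-1) (by norm_num), rfl⟩
  have a0 : a.1 0 = (n 2 * n 0 - 1 * n 1) / R := rfl
  have a1 : a.1 1 = (n 2 * n 1 + 1 * n 0) / R := rfl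
  have a2 : a.1 2 = 1 := rfl
  have b0 : b.1 0 = (n 2 * n 0 - -1 * n 1) / R := rfl
  have b1 : b.1 1 = (n 2 * n 1 + -1 * n 0) / R := rfl
  have b2 : b.1 2 = 1 := rfl
  have hB : B a.1 b.1 = -(2 / R) := by
    rw [B, a0, a1, a2, b0, b1, b2]
    field_simp
    rw [hR]
    linear_combination (n 2 ^ 2 - 1) * hn'
  have hab : a ≠ b := fun h => by
    rw [h, b.2.1] at hB
    exact (div_ne_zero two_ne_zero R0) (by linarith only [hB])
  refine ⟨Geo.mk' a b hab, ?_⟩
  rw [nrm, Geo.src_mk', Geo.tgt_mk', hB, neg_neg, inv_div]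
  apply V_ext <;> simp only [cr_0, cr_1, cr_2, Pi.smul_apply, smul_eq_mul, a0, a1, a2, b0, b1, b2]
  · field_simp
    ring
  · field_simp
    ring
  · field_simp
    rw [hR]
    linear_combination 2 * n 2 * hn'
theorem continuous_nrm : Continuous nrm := by
  have h1 : Continuous fun l : Geo => l.src.1 := continuous_subtype_val.comp Geo.continuous_src
  have h2 : Continuous fun l : Geo => l.tgt.1 := continuous_subtype_val.comp Geo.continuous_tgt
  exact ((h1.B' h2).neg.inv₀ fun l => (neg_pos.2 l.B_neg).ne').smul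
    (continuous_cr.comp (h1.prodMk h2))
theorem continuous_side : Continuous fun x : Geo × V => side x.1 x.2 :=
  (continuous_nrm.comp continuous_fst).B' continuous_snd

theorem expand (l : Geo) (v : V) : v = (B v l.tgt.1 / B l.src.1 l.tgt.1) • l.src.1 +
    (B v l.src.1 / B l.src.1 l.tgt.1) • l.tgt.1 + side l v • nrm l := by
  have h := l.B_neg.ne
  have h1 := cramer3 l.src.1 l.tgt.1 (cr l.src.1 l.tgt.1) v
  simp only [det3, B_cr_cr, l.src.2.1, l.tgt.2.1, B_comm l.tgt.1 l.src.1] at h1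
  have h2 : B l.src.1 l.tgt.1 * B l.src.1 l.tgt.1 - 0 * 0 ≠ 0 := by simpa using h
  rw [side, nrm, B_smul_left, smul_smul]
  apply smul_right_injective V h2
  beta_reduce
  rw [h1, smul_add, smul_add, smul_smul, smul_smul, smul_smul]
  congr 1
  · congr 1 <;> congr 1 <;> field_simp <;> ring
  · congr 1
    field_simp
    ring

end HRT
end

-- merged part: Pool.Agent.Work.MP_35beee_gt.GBdry
section
/-!
Convergence to the circle at infinity.
See the header of `GTop` for the plan.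
-/

namespace HRT

open Matrix Set Filter Topology

/-- Klein coordinates. -/
noncomputable def kl (p : Pt) : V := (p.1 2)⁻¹ • p.1

/-- Convergence of points of the plane to a boundary point. -/
def ToB {X : Type*} (F : Filter X) (p : X → Pt) (ξ : Circ) : Prop :=
  Tendsto (fun x => kl (p x)) F (𝓝 ξ.1)

theorem GBdry_one_le (p : Pt) : 1 ≤ p.1 2 := by
  have h := one_le_neg_B o p
  rwa [B_o, neg_neg] at h

theorem GBdry_kl_two (p : Pt) : kl p 2 = 1 := by
  rw [kl, Pi.smul_apply, smul_eq_mul, inv_mul_cancel₀ p.2.2.ne']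

theorem GBdry_kl_eq (p : Pt) : p.1 = p.1 2 • kl p := by
  rw [kl, smul_smul, mul_inv_cancel₀ p.2.2.ne', one_smul]

theorem GBdry_kl_fut (p : Pt) : Fut (kl p) := p.fut.smul (inv_pos.2 p.2.2)

theorem GBdry_B_kl (p : Pt) : -B (kl p) (kl p) = (p.1 2)⁻¹ ^ 2 := by
  rw [kl, B_smul_left, B_smul_right, p.2.1]
  ring

theorem GBdry_B_left (p : Pt) (v : V) : B p.1 v = p.1 2 * B (kl p) v := by
  rw [← B_smul_left, ← GBdry_kl_eq]

theorem GBdry_B_right (v : V) (p : Pt) : B v p.1 = p.1 2 * B v (kl p) := by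
  rw [← B_smul_right, ← GBdry_kl_eq]

theorem GBdry_dist_le {u v : V} (hu : Fut u) (hv : Fut v) (hu2 : u 2 = 1) (hv2 : v 2 = 1) :
    dist u v ≤ √(2 * -B u v) := by
  have h1 := hu.1
  have h2 := hv.1
  simp only [B, hu2, hv2] at h1 h2
  have h3 : (u 0 - v 0) ^ 2 + (u 1 - v 1) ^ 2 ≤ 2 * -B u v := by
    simp only [B, hu2, hv2]
    linarith
  refine (dist_pi_le_iff (Real.sqrt_nonneg _)).2 fun i => ?_
  rw [Real.dist_eq]
  refine Real.abs_le_sqrt ?_
  have h4 := sq_nonneg (u 0 - v 0)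
  have h5 := sq_nonneg (u 1 - v 1)
  fin_cases i
  · change (u 0 - v 0) ^ 2 ≤ _
    linarith
  · change (u 1 - v 1) ^ 2 ≤ _
    linarith
  · change (u 2 - v 2) ^ 2 ≤ _
    rw [hu2, hv2]
    linarith

theorem GBdry_tend {X : Type*} {F : Filter X} {u v : X → V} {a : V} (h : Tendsto u F (𝓝 a))
    (hu : ∀ x, Fut (u x) ∧ u x 2 = 1) (hv : ∀ x, Fut (v x) ∧ v x 2 = 1) {f : X → ℝ}
    (hf : Tendsto f F (𝓝 0)) (hle : ∀ᶠ x in F, -B (u x) (v x) ≤ f x) : Tendsto v F (𝓝 a) := by
  have h1 : Tendsto (fun x => √(2 * f x)) F (𝓝 0) := by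
    simpa using (hf.const_mul 2).sqrt
  refine h.congr_dist (squeeze_zero' (Eventually.of_forall fun x => dist_nonneg) ?_ h1)
  filter_upwards [hle] with x hx
  exact (GBdry_dist_le (hu x).1 (hv x).1 (hu x).2 (hv x).2).trans
    (Real.sqrt_le_sqrt (by linarith))

theorem GBdry_le_cosh (x : ℝ) : x ≤ 2 * Real.cosh x := by
  rw [Real.cosh_eq]
  linarith only [Real.add_one_le_exp x, Real.exp_pos (-x)]

theorem GBdry_log_cosh {x : ℝ} (hx : 0 ≤ x) : Real.log (Real.cosh x) ≤ x := by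
  rw [Real.log_le_iff_le_exp (Real.cosh_pos x), Real.cosh_eq]
  linarith only [hx, Real.exp_le_exp.2 (show -x ≤ x by linarith)]

section
variable {X : Type*} {F : Filter X} {p q : X → Pt} {ξ η : Circ}

theorem ToB.mono {F' : Filter X} (h : ToB F p ξ) (hF : F' ≤ F) : ToB F' p ξ :=
  Tendsto.mono_left h hF

theorem ToB.unique [F.NeBot] (h : ToB F p ξ) (h' : ToB F p η) : ξ = η :=
  Subtype.ext (tendsto_nhds_unique h h')

theorem GBdry_inv (h : ToB F p ξ) : Tendsto (fun x => ((p x).1 2)⁻¹) F (𝓝 0) := by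
  have h1 := (Tendsto.B' h h).neg.sqrt
  rw [ξ.2.1, neg_zero, Real.sqrt_zero] at h1
  refine h1.congr fun x => ?_
  rw [GBdry_B_kl, Real.sqrt_sq (inv_pos.2 (p x).2.2).le]

theorem GBdry_top (h : ToB F p ξ) : Tendsto (fun x => (p x).1 2) F atTop := by
  have h1 : Tendsto (fun x => ((p x).1 2)⁻¹) F (𝓝[>] 0) :=
    tendsto_nhdsWithin_iff.2 ⟨GBdry_inv h, Eventually.of_forall fun x => inv_pos.2 (p x).2.2⟩
  exact h1.inv_tendsto_nhdsGT_zero.congr fun x => inv_inv _

theorem GBdry_negB (h : ToB F p ξ) {v : X → V} {a : V} (hv : Tendsto v F (𝓝 a))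
    (ha : B ξ.1 a < 0) : Tendsto (fun x => -B (p x).1 (v x)) F atTop := by
  refine ((GBdry_top h).atTop_mul_pos (neg_pos.2 ha) (Tendsto.B' h hv).neg).congr fun x => ?_
  rw [GBdry_B_left, mul_neg]

theorem ToB.tendsto_dist (h : ToB F p ξ) (r : Pt) :
    Tendsto (fun x => dist r (p x)) F atTop := by
  have h1 := Real.tendsto_log_atTop.comp (GBdry_negB h (tendsto_const_nhds (x := r.1))
    (by rw [B_comm]; exact B_pt_circ_neg r ξ))
  refine tendsto_atTop_mono (fun x => ?_) h1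
  rw [Function.comp_apply, B_comm, ← cosh_dist]
  exact GBdry_log_cosh dist_nonneg

theorem exists_toB (U : Ultrafilter X) (r : Pt)
    (h : Tendsto (fun x => dist r (p x)) U atTop) : ∃ ξ, ToB U p ξ := by
  have h1 : Tendsto (fun x => (p x).1 2) U atTop := by
    refine tendsto_atTop_mono (fun x => ?_)
      ((tendsto_atTop_add_const_right _ (-dist r o) h).atTop_div_const two_pos)
    have h2 := GBdry_le_cosh (dist o (p x))
    rw [cosh_dist, B_o, neg_neg] at h2
    linarith only [h2, dist_triangle r o (p x)]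
  have h2 : ∀ x, kl (p x) ∈ Metric.closedBall o.1 2 := fun x => by
    have h3 := GBdry_dist_le (GBdry_kl_fut (p x)) o.fut (GBdry_kl_two _) rfl
    rw [B_comm, B_o, neg_neg, GBdry_kl_two] at h3
    exact h3.trans (Real.sqrt_le_iff.2 ⟨by norm_num, by norm_num⟩)
  obtain ⟨a, -, ha⟩ := (isCompact_closedBall o.1 2).ultrafilter_le_nhds (U.map fun x => kl (p x))
    (le_principal_iff.2 (mem_map.2 (Eventually.of_forall h2)))
  have ha' : Tendsto (fun x => kl (p x)) U (𝓝 a) := ha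
  refine ⟨⟨a, ?_, ?_⟩, ha'⟩
  · have h3 := (Tendsto.B' ha' ha').neg
    simp only [GBdry_B_kl] at h3
    have h4 := tendsto_nhds_unique h3 (h1.inv_tendsto_atTop.pow 2)
    linarith
  · have h3 := (continuous_apply 2).continuousAt.tendsto.comp ha'
    exact tendsto_nhds_unique h3 (tendsto_const_nhds.congr fun x => (GBdry_kl_two _).symm)

theorem ToB.of_dist_le (h : ToB F p ξ) {C : ℝ} (hC : ∀ᶠ x in F, dist (p x) (q x) ≤ C) :
    ToB F q ξ := by
  have h1 := (GBdry_inv h).mul_const (Real.cosh C)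
  rw [zero_mul] at h1
  refine GBdry_tend h (fun x => ⟨GBdry_kl_fut _, GBdry_kl_two _⟩)
    (fun x => ⟨GBdry_kl_fut _, GBdry_kl_two _⟩) h1 ?_
  filter_upwards [hC] with x hx
  have h2 : Real.cosh (dist (p x) (q x)) ≤ Real.cosh C := by
    rw [Real.cosh_le_cosh, abs_of_nonneg dist_nonneg]
    exact hx.trans (le_abs_self _)
  have h3 := neg_nonneg.2 ((p x).fut.B_nonpos (GBdry_kl_fut (q x)))
  have h4 := mul_le_mul_of_nonneg_right (GBdry_one_le (q x)) h3
  rw [cosh_dist, GBdry_B_right] at h2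
  rw [kl, B_smul_left, ← mul_neg]
  exact mul_le_mul_of_nonneg_left (by linarith) (inv_pos.2 (p x).2.2).le

theorem ToB.smul (h : ToB F p ξ) (g : Isom) : ToB F (fun x => g • p x) (g • ξ) := by
  have h1 := (continuous_lin g).continuousAt.tendsto.comp h
  have h2 := (((continuous_apply 2).continuousAt.tendsto.comp h1).inv₀
    (lin_circ_pos g ξ).ne').smul h1
  refine h2.congr fun x => ?_
  have h3 : lin g (p x).1 = (p x).1 2 • lin g (kl (p x)) := by
    rw [← lin_smul, ← GBdry_kl_eq]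
  change (lin g (kl (p x)) 2)⁻¹ • lin g (kl (p x)) = (lin g (p x).1 2)⁻¹ • lin g (p x).1
  rw [h3, Pi.smul_apply, smul_eq_mul, smul_smul, _root_.mul_inv_rev,
    inv_mul_cancel_right₀ (p x).2.2.ne']

theorem ToB.eventually_pos (h : ToB F p ξ) {n : V} (hn : 0 < B n ξ.1) :
    ∀ᶠ x in F, 0 < B n (p x).1 := by
  filter_upwards [(Tendsto.B' (tendsto_const_nhds (x := n)) h).eventually (lt_mem_nhds hn)]
    with x hx
  rw [GBdry_B_right]
  exact mul_pos (p x).2.2 hx

theorem ToB.nonneg [F.NeBot] (h : ToB F p ξ) {n : V} (hn : ∀ᶠ x in F, 0 ≤ B n (p x).1) :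
    0 ≤ B n ξ.1 := by
  refine ge_of_tendsto (Tendsto.B' (tendsto_const_nhds (x := n)) h) ?_
  filter_upwards [hn] with x hx
  rw [GBdry_B_right] at hx
  exact nonneg_of_mul_nonneg_right hx (p x).2.2

/-- Going to `ξ`, the pairing with any other boundary point blows up. -/
theorem ToB.tendsto_neg_B (h : ToB F p ξ) (hne : η ≠ ξ) :
    Tendsto (fun x => -B (p x).1 η.1) F atTop := by
  exact GBdry_negB h tendsto_const_nhds (B_circ_neg hne.symm)

/-- North-south dynamics. -/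
theorem tendsto_smul_circ {g : X → Isom} (h1 : ToB F (fun x => g x • o) ξ)
    (h2 : ToB F (fun x => (g x)⁻¹ • o) η) {z : X → Circ} {ζ : Circ} (hz : Tendsto z F (𝓝 ζ))
    (hne : ζ ≠ η) : Tendsto (fun x => g x • z x) F (𝓝 ξ) := by
  have h3 := (GBdry_negB h2 (tendsto_subtype_rng.1 hz) (B_circ_neg hne.symm)).inv_tendsto_atTop
  refine tendsto_subtype_rng.2 (GBdry_tend h1 (fun x => ⟨GBdry_kl_fut _, GBdry_kl_two _⟩)
    (fun x => ⟨Circ.fut _, (g x • z x).2.2⟩) h3 (Eventually.of_forall fun x => ?_))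
  have h4 : -B ((g x)⁻¹ • o).1 (z x).1 = lin (g x) (z x).1 2 := by
    rw [smul_pt_val, B_lin_left, inv_inv, B_o, neg_neg]
  have h5 := inv_le_one_of_one_le₀ (GBdry_one_le (g x • o))
  have h6 := mul_le_mul_of_nonneg_right h5 (inv_pos.2 (lin_circ_pos (g x) (z x))).le
  rw [Pi.inv_apply, h4, kl, B_smul_left, smul_circ_val, B_smul_right]
  nth_rewrite 2 [smul_pt_val]
  rw [B_lin, B_o, (z x).2.2]
  linarith only [h6]

/-- Points on geodesics whose two endpoints tend to `ξ` tend to `ξ`. -/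
theorem toB_of_between {u v : X → Circ} (hu : Tendsto u F (𝓝 ξ)) (hv : Tendsto v F (𝓝 ξ))
    (hp : ∀ x, ∃ s t : ℝ, 0 ≤ s ∧ 0 ≤ t ∧ (p x).1 = s • (u x).1 + t • (v x).1) : ToB F p ξ := by
  have hu' := tendsto_subtype_rng.1 hu
  have h1 := (Tendsto.B' hu' (tendsto_subtype_rng.1 hv)).neg
  rw [ξ.2.1, neg_zero] at h1
  refine GBdry_tend hu' (fun x => ⟨Circ.fut _, (u x).2.2⟩)
    (fun x => ⟨GBdry_kl_fut _, GBdry_kl_two _⟩) h1 (Eventually.of_forall fun x => ?_)
  obtain ⟨s, t, hs, -, h2⟩ := hp x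
  have h3 : (p x).1 2 = s + t := by
    rw [h2, Pi.add_apply, Pi.smul_apply, Pi.smul_apply, (u x).2.2, (v x).2.2, smul_eq_mul,
      smul_eq_mul, mul_one, mul_one]
  have h4 : B (u x).1 (p x).1 = t * B (u x).1 (v x).1 := by
    rw [h2, B_add_right, B_smul_right, B_smul_right, (u x).2.1, mul_zero, zero_add]
  have h5 := mul_nonneg hs (neg_nonneg.2 ((u x).fut.B_nonpos (v x).fut))
  rw [kl, B_smul_right, ← mul_neg, inv_mul_le_iff₀ (p x).2.2, h3, h4]
  linarith

theorem GBdry_mid {u v : Circ} (huv : u ≠ v) :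
    ∃ (r : Pt) (c : ℝ), 0 ≤ c ∧ r.1 = c • (u.1 + v.1) := by
  refine ⟨toPt (u.1 + v.1), _, inv_nonneg.2 (Real.sqrt_nonneg _), toPt_val ?_ (u.fut.add v.fut).2⟩
  rw [B_add_left, B_add_right, B_add_right, u.2.1, v.2.1, B_comm v.1]
  linarith only [huv, B_circ_neg huv]

theorem toB_of_tendsto_smul {g : X → Isom} {u v : Circ} (huv : u ≠ v)
    (hu : Tendsto (fun x => g x • u) F (𝓝 ξ)) (hv : Tendsto (fun x => g x • v) F (𝓝 ξ)) (r : Pt) :
    ToB F (fun x => g x • r) ξ := by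
  obtain ⟨r0, c, hc, hr⟩ := GBdry_mid huv
  have h1 : ToB F (fun x => g x • r0) ξ := by
    refine toB_of_between hu hv fun x => ⟨c * lin (g x) u.1 2, c * lin (g x) v.1 2,
      mul_nonneg hc (lin_circ_pos _ _).le, mul_nonneg hc (lin_circ_pos _ _).le, ?_⟩
    rw [smul_pt_val, hr, lin_smul, lin_add, smul_add, mul_smul, mul_smul, ← lin_circ_val,
      ← lin_circ_val]
  exact h1.of_dist_le (C := dist r0 r) (Eventually.of_forall fun x => (dist_smul _ _ _).le)

end

theorem GBdry_prod (g : Isom) (a b : Circ) :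
    -B a.1 b.1 = lin g a.1 2 * lin g b.1 2 * -B (g • a).1 (g • b).1 := by
  rw [← B_lin g]
  conv_lhs => rw [lin_circ_val g a, lin_circ_val g b, B_smul_left, B_smul_right]
  ring

theorem GBdry_two (a b : Circ) : -B a.1 b.1 ≤ 2 := by
  have h1 := a.2.1
  have h2 := b.2.1
  simp only [B, a.2.2, b.2.2] at h1 h2 ⊢
  linarith only [h1, h2, sq_nonneg (a.1 0 + b.1 0), sq_nonneg (a.1 1 + b.1 1)]

theorem GBdry_up (g : Isom) (a b : Circ) {δ : ℝ} (hδ : 0 < δ) (h : δ ≤ dist (g • a) (g • b)) :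
    lin g a.1 2 * lin g b.1 2 ≤ 4 / δ ^ 2 := by
  have h1 := (pow_le_pow_left₀ hδ.le h 2).trans (circ_dist_sq_le _ _)
  have h2 := GBdry_two a b
  rw [GBdry_prod g] at h2
  have h3 := mul_le_mul_of_nonneg_left h1 (mul_pos (lin_circ_pos g a) (lin_circ_pos g b)).le
  rw [le_div_iff₀ (pow_pos hδ 2)]
  linarith only [h2, h3]

theorem GBdry_bd (a : Circ) {b c : Circ} (hbc : b ≠ c) {δ : ℝ} (hδ : 0 < δ) :
    ∃ K : ℝ, ∀ g : Isom, δ ≤ dist (g • a) (g • b) → δ ≤ dist (g • a) (g • c) →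
      lin g a.1 2 ≤ K := by
  have h0 : 0 < -B b.1 c.1 := neg_pos.2 (B_circ_neg hbc)
  refine ⟨√(2 * (4 / δ ^ 2 * (4 / δ ^ 2)) / -B b.1 c.1), fun g h1 h2 => Real.le_sqrt_of_sq_le ?_⟩
  have h3 := mul_le_mul (GBdry_up g a b hδ h1) (GBdry_up g a c hδ h2)
    (mul_pos (lin_circ_pos g a) (lin_circ_pos g c)).le (by positivity)
  have h4 : -B b.1 c.1 ≤ lin g b.1 2 * lin g c.1 2 * 2 := by
    rw [GBdry_prod g]
    exact mul_le_mul_of_nonneg_left (GBdry_two _ _)
      (mul_pos (lin_circ_pos g b) (lin_circ_pos g c)).le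
  have h5 := mul_le_mul_of_nonneg_left h4 (sq_nonneg (lin g a.1 2))
  rw [le_div_iff₀ h0]
  linarith only [h3, h5]

/-- The action on triples of boundary points is proper. -/
theorem exists_bound_of_triple {a b c : Circ} (hab : a ≠ b) (hbc : b ≠ c) (hac : a ≠ c) {δ : ℝ}
    (hδ : 0 < δ) : ∃ R : ℝ, ∀ g : Isom, δ ≤ dist (g • a) (g • b) → δ ≤ dist (g • b) (g • c) →
      δ ≤ dist (g • a) (g • c) → dist o (g • o) ≤ R := by
  obtain ⟨K, hK⟩ := GBdry_bd a hbc hδ
  obtain ⟨K', hK'⟩ := GBdry_bd b hac hδ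
  obtain ⟨r, t, ht, hr⟩ := GBdry_mid hab
  refine ⟨2 * (t * (K + K')) + dist r o, fun g h1 h2 h3 => ?_⟩
  have h4 := GBdry_le_cosh (dist o (g • r))
  rw [cosh_dist, B_o, neg_neg, smul_pt_val, hr, lin_smul, lin_add, Pi.smul_apply, Pi.add_apply,
    smul_eq_mul] at h4
  have h5 := mul_le_mul_of_nonneg_left
    (add_le_add (hK g h1 h3) (hK' g (by rwa [dist_comm]) h2)) ht
  have h6 := dist_triangle o (g • r) (g • o)
  rw [dist_smul] at h6
  linarith only [h4, h5, h6]

end HRT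
end

-- merged part: Pool.Agent.Work.MP_35beee_gt.GFermi
section
/-!
Unit speed parametrisation of lines and Fermi coordinates.
See the header of `GLine` for the plan.
-/

namespace HRT

open Matrix Set Filter Topology Real

theorem GFermi_pos (l : Geo) : 0 < √(-2 * B l.src.1 l.tgt.1) :=
  sqrt_pos.2 (by linarith only [l.B_neg])

theorem GFermi_sq (l : Geo) : √(-2 * B l.src.1 l.tgt.1) ^ 2 = -2 * B l.src.1 l.tgt.1 :=
  sq_sqrt (by linarith [l.B_neg])

theorem GFermi_ns (l : Geo) : B (nrm l) l.src.1 = 0 := side_src l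

theorem GFermi_nt (l : Geo) : B (nrm l) l.tgt.1 = 0 := side_tgt l

theorem GFermi_ext (l : Geo) {u v : V} (h1 : B u l.src.1 = B v l.src.1)
    (h2 : B u l.tgt.1 = B v l.tgt.1) (h3 : side l u = side l v) : u = v := by
  rw [expand l u, h1, h2, h3, ← expand]

theorem GFermi_norm (l : Geo) (v : V) :
    B l.src.1 l.tgt.1 * (B v v - side l v ^ 2) = 2 * (B v l.src.1 * B v l.tgt.1) := by
  have h := congrArg (B v) (expand l v)
  have hβ := l.B_neg.ne
  rw [B_add_right, B_add_right, B_smul_right, B_smul_right, B_smul_right, B_comm v (nrm l)] at h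
  rw [h, side]
  field_simp
  ring

theorem GFermi_abs {d x : ℝ} (hd : 0 ≤ d) (h : cosh d = cosh x) : d = |x| := by
  rw [← abs_of_nonneg hd]
  exact le_antisymm (cosh_le_cosh.1 h.le) (cosh_le_cosh.1 h.ge)

theorem GFermi_ne {l : Geo} {ξ : Circ} (h : side l ξ.1 ≠ 0) :
    B ξ.1 l.src.1 ≠ 0 ∧ B ξ.1 l.tgt.1 ≠ 0 :=
  ⟨(B_circ_neg fun e => h ((side_eq_zero_iff l ξ).2 (Or.inl e))).ne,
    (B_circ_neg fun e => h ((side_eq_zero_iff l ξ).2 (Or.inr e))).ne⟩

theorem GFermi_cs : Continuous fun l : Geo => l.src.1 :=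
  continuous_subtype_val.comp Geo.continuous_src

theorem GFermi_ct : Continuous fun l : Geo => l.tgt.1 :=
  continuous_subtype_val.comp Geo.continuous_tgt

theorem GFermi_toB {F : Filter ℝ} {p : ℝ → Pt} {ξ : Circ} {c : ℝ → ℝ} {k : ℝ} (hc : ∀ t, c t ≠ 0)
    (hk : k ≠ 0) (h : Tendsto (fun t => c t • (p t).1) F (𝓝 (k • ξ.1))) : ToB F p ξ := by
  have h1 := (((continuous_apply 2).tendsto _).comp h).inv₀ (by simpa [ξ.2.2] using hk)
  have h2 := h1.smul h
  simp only [Pi.smul_apply, ξ.2.2, smul_eq_mul, mul_one, inv_smul_smul₀ hk] at h2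
  refine h2.congr fun t => ?_
  simp only [Function.comp, Pi.smul_apply, smul_eq_mul, kl, smul_smul, _root_.mul_inv_rev, mul_assoc,
    inv_mul_cancel₀ (hc t), mul_one]

theorem GFermi_line {u v : V} (h : 0 < B (cr u v) (cr u v)) :
    ∃ l, side l u = 0 ∧ side l v = 0 := by
  obtain ⟨l, hl⟩ := exists_nrm_eq (n := (√(B (cr u v) (cr u v)))⁻¹ • cr u v) (by
    rw [B_smul_left, B_smul_right, ← mul_assoc, ← mul_inv, mul_self_sqrt h.le,
      inv_mul_cancel₀ h.ne'])
  exact ⟨l, by simp [side, hl], by simp [side, hl]⟩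

theorem pt_aux (l : Geo) (t : ℝ) :
    B ((√(-2 * B l.src.1 l.tgt.1))⁻¹ • (exp (-t) • l.src.1 + exp t • l.tgt.1))
      ((√(-2 * B l.src.1 l.tgt.1))⁻¹ • (exp (-t) • l.src.1 + exp t • l.tgt.1)) = -1 ∧
    0 < ((√(-2 * B l.src.1 l.tgt.1))⁻¹ • (exp (-t) • l.src.1 + exp t • l.tgt.1)) 2 := by
  have h1 := GFermi_pos l
  have h2 := GFermi_sq l
  have h3 : exp (-t) * exp t = 1 := by rw [← exp_add, neg_add_cancel, exp_zero]
  generalize √(-2 * B l.src.1 l.tgt.1) = σ at h1 h2
  constructor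
  · simp only [B_smul_left, B_smul_right, B_add_left, B_add_right, l.src.2.1, l.tgt.2.1,
      B_comm l.tgt.1 l.src.1]
    field_simp
    linear_combination 2 * B l.src.1 l.tgt.1 * h3 + h2
  · simp only [Pi.smul_apply, Pi.add_apply, smul_eq_mul, l.src.2.2, l.tgt.2.2]
    positivity

/-- Unit speed parametrisation. -/
noncomputable def pt (l : Geo) (t : ℝ) : Pt := ⟨_, pt_aux l t⟩

/-- Parameter of the orthogonal projection. -/
noncomputable def fer (l : Geo) (v : V) : ℝ := log (B v l.src.1 / B v l.tgt.1) / 2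

theorem GFermi_val (l : Geo) (t : ℝ) : (pt l t).1 =
    (√(-2 * B l.src.1 l.tgt.1))⁻¹ • (exp (-t) • l.src.1 + exp t • l.tgt.1) := rfl

@[simp] theorem side_pt (l : Geo) (t : ℝ) : side l (pt l t).1 = 0 := by
  rw [side, GFermi_val]
  simp only [B_smul_right, B_add_right, GFermi_ns, GFermi_nt, mul_zero, add_zero]

theorem GFermi_np (l : Geo) (t : ℝ) : B (nrm l) (pt l t).1 = 0 := side_pt l t

theorem GFermi_pn (l : Geo) (t : ℝ) : B (pt l t).1 (nrm l) = 0 := by rw [B_comm, GFermi_np]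

theorem GFermi_ps (l : Geo) (t : ℝ) :
    B (pt l t).1 l.src.1 = -(√(-2 * B l.src.1 l.tgt.1) / 2 * exp t) := by
  have h1 := GFermi_pos l
  have h2 := GFermi_sq l
  rw [GFermi_val]
  generalize √(-2 * B l.src.1 l.tgt.1) = σ at h1 h2
  simp only [B_smul_left, B_add_left, l.src.2.1, B_comm l.tgt.1 l.src.1]
  field_simp
  linear_combination exp t * h2

theorem GFermi_pt (l : Geo) (t : ℝ) :
    B (pt l t).1 l.tgt.1 = -(√(-2 * B l.src.1 l.tgt.1) / 2 * exp (-t)) := by
  have h1 := GFermi_pos l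
  have h2 := GFermi_sq l
  rw [GFermi_val]
  generalize √(-2 * B l.src.1 l.tgt.1) = σ at h1 h2
  simp only [B_smul_left, B_add_left, l.tgt.2.1]
  field_simp
  linear_combination exp (-t) * h2

theorem GFermi_pp (l : Geo) (s t : ℝ) : B (pt l s).1 (pt l t).1 = -cosh (s - t) := by
  have h1 := GFermi_pos l
  rw [GFermi_val l t, B_smul_right, B_add_right, B_smul_right, B_smul_right, GFermi_ps, GFermi_pt,
    cosh_eq, neg_sub, sub_eq_add_neg s, sub_eq_add_neg t, exp_add, exp_add]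
  generalize √(-2 * B l.src.1 l.tgt.1) = σ at h1
  field_simp
  ring

theorem fermi_aux (l : Geo) (t r : ℝ) :
    B (cosh r • (pt l t).1 + sinh r • nrm l) (cosh r • (pt l t).1 + sinh r • nrm l) = -1 ∧
      0 < (cosh r • (pt l t).1 + sinh r • nrm l) 2 := by
  have h : B (cosh r • (pt l t).1 + sinh r • nrm l) (cosh r • (pt l t).1 + sinh r • nrm l) =
      -1 := by
    simp only [B_smul_left, B_smul_right, B_add_left, B_add_right, (pt l t).2.1, GFermi_pn,
      GFermi_np, B_nrm_nrm]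
    linear_combination -cosh_sq r
  refine ⟨h, (fut_of_B_neg (by rw [h]; norm_num) (pt l t) ?_).2⟩
  simp only [B_smul_right, B_add_right, (pt l t).2.1, GFermi_pn]
  linarith [cosh_pos r]

/-- Fermi coordinates. -/
noncomputable def fermi (l : Geo) (t r : ℝ) : Pt := ⟨_, fermi_aux l t r⟩

theorem GFermi_fval (l : Geo) (t r : ℝ) :
    (fermi l t r).1 = cosh r • (pt l t).1 + sinh r • nrm l := rfl

theorem GFermi_fs (l : Geo) (t r : ℝ) :
    B (fermi l t r).1 l.src.1 = -(cosh r * (√(-2 * B l.src.1 l.tgt.1) / 2 * exp t)) := by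
  rw [GFermi_fval, B_add_left, B_smul_left, B_smul_left, GFermi_ps, GFermi_ns]
  ring

theorem GFermi_fer (l : Geo) (t r : ℝ) : fer l (fermi l t r).1 = t := by
  have h1 := GFermi_pos l
  have h2 := cosh_pos r
  rw [fer, GFermi_fs, GFermi_fval, B_add_left, B_smul_left, B_smul_left, GFermi_pt, GFermi_nt,
    mul_zero, add_zero, mul_neg, neg_div_neg_eq, mul_div_mul_left _ _ h2.ne',
    mul_div_mul_left _ _ (half_pos h1).ne', ← exp_sub, log_exp]
  ring

@[simp] theorem fermi_zero (l : Geo) (t : ℝ) : fermi l t 0 = pt l t := by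
  exact Subtype.ext (by rw [GFermi_fval]; simp)
@[simp] theorem fer_pt (l : Geo) (t : ℝ) : fer l (pt l t).1 = t := by
  rw [← fermi_zero, GFermi_fer]
@[simp] theorem fer_fermi (l : Geo) (t r : ℝ) : fer l (fermi l t r).1 = t := by
  exact GFermi_fer l t r
@[simp] theorem side_fermi (l : Geo) (t r : ℝ) : side l (fermi l t r).1 = sinh r := by
  rw [side, GFermi_fval]
  simp only [B_smul_right, B_add_right, GFermi_np, B_nrm_nrm, mul_zero, zero_add, mul_one]
theorem fermi_fer (l : Geo) (p : Pt) : fermi l (fer l p.1) (arsinh (side l p.1)) = p := by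
  have h1 := GFermi_pos l
  have h2 := GFermi_sq l
  have hx := B_pt_circ_neg p l.src
  have hy := B_pt_circ_neg p l.tgt
  have hβ := l.B_neg
  have h3 := GFermi_norm l p.1
  rw [p.2.1] at h3
  have h4 : exp (fer l p.1) * exp (fer l p.1) = B p.1 l.src.1 / B p.1 l.tgt.1 := by
    rw [← exp_add, fer, add_halves, exp_log (div_pos_of_neg_of_neg hx hy)]
  have h5 : cosh (arsinh (side l p.1)) ^ 2 = side l p.1 ^ 2 + 1 := by rw [cosh_sq, sinh_arsinh]
  have h6 : exp (-fer l p.1) * exp (fer l p.1) = 1 := by rw [← exp_add, neg_add_cancel, exp_zero]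
  have h7 := cosh_pos (arsinh (side l p.1))
  have h8 := exp_pos (fer l p.1)
  have e1 : B (fermi l (fer l p.1) (arsinh (side l p.1))).1 l.src.1 = B p.1 l.src.1 := by
    rw [GFermi_fs, neg_eq_iff_eq_neg]
    refine (sq_eq_sq₀ (by positivity) (by linarith only [hx])).1 (mul_left_cancel₀ hy.ne ?_)
    rw [eq_div_iff hy.ne] at h4
    generalize √(-2 * B l.src.1 l.tgt.1) = σ at h1 h2
    generalize cosh (arsinh (side l p.1)) = c at h5
    linear_combination c ^ 2 * σ ^ 2 / 4 * h4 + B p.1 l.src.1 * σ ^ 2 / 4 * h5 +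
      B p.1 l.src.1 * (side l p.1 ^ 2 + 1) / 4 * h2 + B p.1 l.src.1 / 2 * h3
  refine Subtype.ext (GFermi_ext l e1 (mul_left_cancel₀ hx.ne ?_) ?_)
  · have h9 := GFermi_norm l (fermi l (fer l p.1) (arsinh (side l p.1))).1
    rw [(fermi l _ _).2.1, e1, side_fermi, sinh_arsinh] at h9
    linear_combination (h3 - h9) / 2
  · rw [side_fermi, sinh_arsinh]
theorem eq_pt_of_side {l : Geo} {p : Pt} (h : side l p.1 = 0) : pt l (fer l p.1) = p := by
  have h1 := fermi_fer l p
  rwa [h, arsinh_zero, fermi_zero] at h1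
theorem cosh_dist_fermi (l : Geo) (t r s u : ℝ) :
    cosh (dist (fermi l t r) (fermi l s u)) = cosh r * cosh u * cosh (t - s) - sinh r * sinh u := by
  rw [cosh_dist, GFermi_fval, GFermi_fval]
  simp only [B_smul_left, B_smul_right, B_add_left, B_add_right, GFermi_pp, GFermi_pn,
    GFermi_np, B_nrm_nrm]
  ring
@[simp] theorem dist_pt (l : Geo) (s t : ℝ) : dist (pt l s) (pt l t) = |s - t| := by
  exact GFermi_abs dist_nonneg (by rw [cosh_dist, GFermi_pp, neg_neg])
theorem dist_fermi_pt (l : Geo) (t r : ℝ) : dist (fermi l t r) (pt l t) = |r| := by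
  refine GFermi_abs dist_nonneg ?_
  rw [← fermi_zero, cosh_dist_fermi]
  simp
theorem dist_foot (l : Geo) (p : Pt) : dist p (pt l (fer l p.1)) = |arsinh (side l p.1)| := by
  rw [← dist_fermi_pt l (fer l p.1), fermi_fer]
theorem abs_arsinh_side_le (l : Geo) (p q : Pt) :
    |arsinh (side l p.1) - arsinh (side l q.1)| ≤ dist p q := by
  refine (cosh_le_cosh.1 ?_).trans (abs_of_nonneg dist_nonneg).le
  have h := cosh_dist_fermi l (fer l p.1) (arsinh (side l p.1)) (fer l q.1) (arsinh (side l q.1))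
  rw [fermi_fer, fermi_fer] at h
  rw [h, cosh_sub]
  nlinarith only [one_le_cosh (fer l p.1 - fer l q.1),
    mul_pos (cosh_pos (arsinh (side l p.1))) (cosh_pos (arsinh (side l q.1)))]
theorem abs_fer_sub_le (l : Geo) (p q : Pt) : |fer l p.1 - fer l q.1| ≤ dist p q := by
  refine (cosh_le_cosh.1 ?_).trans (abs_of_nonneg dist_nonneg).le
  have h := cosh_dist_fermi l (fer l p.1) (arsinh (side l p.1)) (fer l q.1) (arsinh (side l q.1))
  rw [fermi_fer, fermi_fer] at h
  have h1 := one_le_cosh (arsinh (side l p.1) - arsinh (side l q.1))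
  rw [cosh_sub] at h1
  have h2 := one_le_mul_of_one_le_of_one_le (one_le_cosh (arsinh (side l p.1)))
    (one_le_cosh (arsinh (side l q.1)))
  rw [h]
  linarith only [h1, h2, mul_nonneg (sub_nonneg.2 h2) (sub_nonneg.2 (one_le_cosh (fer l p.1 - fer l q.1)))]
theorem pt_mem_seg (l : Geo) {r s t : ℝ} (h1 : r ≤ s) (h2 : s ≤ t) :
    pt l s ∈ seg (pt l r) (pt l t) := by
  rw [mem_seg_iff_dist, dist_pt, dist_pt, dist_pt, abs_of_nonpos (by linarith),
    abs_of_nonpos (by linarith), abs_of_nonpos (by linarith)]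
  ring
theorem exists_of_mem_seg_pt {l : Geo} {r t : ℝ} (h : r ≤ t) {p : Pt}
    (hp : p ∈ seg (pt l r) (pt l t)) : ∃ s, r ≤ s ∧ s ≤ t ∧ p = pt l s := by
  have h1 : side l p.1 = 0 := by
    obtain ⟨a, b, -, -, e⟩ := hp
    rw [e, side, B_add_right, B_smul_right, B_smul_right, GFermi_np, GFermi_np]
    ring
  have h2 := mem_seg_iff_dist.1 hp
  rw [← eq_pt_of_side h1, dist_pt, dist_pt, dist_pt, abs_of_nonpos (sub_nonpos.2 h)] at h2
  refine ⟨fer l p.1, ?_, ?_, (eq_pt_of_side h1).symm⟩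
  · linarith only [h2, le_abs_self (r - fer l p.1), neg_abs_le (fer l p.1 - t)]
  · linarith only [h2, neg_abs_le (r - fer l p.1), le_abs_self (fer l p.1 - t)]
theorem pt_rev (l : Geo) (t : ℝ) : pt l.rev t = pt l (-t) := by
  refine Subtype.ext ?_
  rw [GFermi_val, GFermi_val, Geo.src_rev, Geo.tgt_rev, B_comm l.tgt.1, neg_neg, add_comm]
theorem fer_rev (l : Geo) {v : V} (h1 : B v l.src.1 < 0) (h2 : B v l.tgt.1 < 0) :
    fer l.rev v = -fer l v := by
  rw [fer, fer, Geo.src_rev, Geo.tgt_rev, log_div h1.ne h2.ne, log_div h2.ne h1.ne]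
  ring
theorem fer_smul (l : Geo) {c : ℝ} (hc : c ≠ 0) (v : V) : fer l (c • v) = fer l v := by
  rw [fer, fer, B_smul_left, B_smul_left, mul_div_mul_left _ _ hc]

/-- The shift of parameters under an isometry. -/
noncomputable def sh (g : Isom) (l : Geo) : ℝ := fer (g • l) (g • pt l 0).1

theorem GFermi_lin0 (g : Isom) (l : Geo) {v : V} (h1 : B v l.src.1 ≠ 0) (h2 : B v l.tgt.1 ≠ 0) :
    fer (g • l) (lin g v) =
      fer l v + (log (lin g l.src.1 2)⁻¹ - log (lin g l.tgt.1 2)⁻¹) / 2 := by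
  have a1 := inv_ne_zero (lin_circ_pos g l.src).ne'
  have a2 := inv_ne_zero (lin_circ_pos g l.tgt).ne'
  rw [fer, fer, Geo.src_smul, Geo.tgt_smul, smul_circ_val, smul_circ_val, B_smul_right,
    B_smul_right, B_lin, B_lin, log_div (mul_ne_zero a1 h1) (mul_ne_zero a2 h2), log_mul a1 h1,
    log_mul a2 h2, log_div h1 h2]
  ring

theorem GFermi_lin (g : Isom) (l : Geo) {v : V} (h1 : B v l.src.1 ≠ 0) (h2 : B v l.tgt.1 ≠ 0) :
    fer (g • l) (lin g v) = fer l v + sh g l := by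
  rw [GFermi_lin0 g l h1 h2, sh, smul_pt_val,
    GFermi_lin0 g l (B_pt_circ_neg _ l.src).ne (B_pt_circ_neg _ l.tgt).ne, fer_pt, zero_add]

theorem GFermi_smul (g : Isom) (l : Geo) (t r : ℝ) :
    g • fermi l t r = fermi (g • l) (t + sh g l) r := by
  rw [← fermi_fer (g • l) (g • fermi l t r), side_smul_pt, side_fermi, arsinh_sinh, smul_pt_val,
    GFermi_lin g l (B_pt_circ_neg _ l.src).ne (B_pt_circ_neg _ l.tgt).ne, fer_fermi]

theorem smul_pt (g : Isom) (l : Geo) (t : ℝ) : g • pt l t = pt (g • l) (t + sh g l) := by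
  rw [← fermi_zero, ← fermi_zero, GFermi_smul]
theorem smul_fermi (g : Isom) (l : Geo) (t r : ℝ) :
    g • fermi l t r = fermi (g • l) (t + sh g l) r := by
  exact GFermi_smul g l t r
theorem fer_smul_pt (g : Isom) (l : Geo) (p : Pt) :
    fer (g • l) (g • p).1 = fer l p.1 + sh g l := by
  exact GFermi_lin g l (B_pt_circ_neg p l.src).ne (B_pt_circ_neg p l.tgt).ne
theorem fer_smul_circ (g : Isom) (l : Geo) {ξ : Circ} (h : side l ξ.1 ≠ 0) :
    fer (g • l) (g • ξ).1 = fer l ξ.1 + sh g l := by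
  rw [smul_circ_val, fer_smul _ (inv_ne_zero (lin_circ_pos g ξ).ne')]
  exact GFermi_lin g l (GFermi_ne h).1 (GFermi_ne h).2

theorem continuous_pt : Continuous fun x : Geo × ℝ => pt x.1 x.2 := by
  have h1 : Continuous fun x : Geo × ℝ => x.1.src.1 := GFermi_cs.comp continuous_fst
  have h2 : Continuous fun x : Geo × ℝ => x.1.tgt.1 := GFermi_ct.comp continuous_fst
  refine Continuous.subtype_mk (Continuous.smul (Continuous.inv₀ ?_ fun x => (GFermi_pos x.1).ne')
    ((continuous_snd.neg.rexp.smul h1).add (continuous_snd.rexp.smul h2))) _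
  exact (continuous_const.mul (h1.B' h2)).sqrt
theorem continuous_fer_pt : Continuous fun x : Geo × Pt => fer x.1 x.2.1 := by
  have h0 : Continuous fun x : Geo × Pt => x.2.1 := continuous_subtype_val.comp continuous_snd
  refine Continuous.div_const (Continuous.log (Continuous.div
    (h0.B' (GFermi_cs.comp continuous_fst)) (h0.B' (GFermi_ct.comp continuous_fst))
    fun x => (B_pt_circ_neg x.2 x.1.tgt).ne) fun x => ?_) 2
  exact div_ne_zero (B_pt_circ_neg x.2 x.1.src).ne (B_pt_circ_neg x.2 x.1.tgt).ne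
theorem continuousAt_fer_circ {l : Geo} {ξ : Circ} (h : side l ξ.1 ≠ 0) :
    ContinuousAt (fun x : Geo × Circ => fer x.1 x.2.1) (l, ξ) := by
  have h0 : Continuous fun x : Geo × Circ => x.2.1 := continuous_subtype_val.comp continuous_snd
  exact ContinuousAt.div_const (ContinuousAt.log (ContinuousAt.div
    (h0.B' (GFermi_cs.comp continuous_fst)).continuousAt
    (h0.B' (GFermi_ct.comp continuous_fst)).continuousAt (GFermi_ne h).2)
    (div_ne_zero (GFermi_ne h).1 (GFermi_ne h).2)) 2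
theorem toB_fermi_atTop (l : Geo) (r : ℝ) : ToB atTop (fun t => fermi l t r) l.tgt := by
  refine GFermi_toB (c := fun t => exp (-t)) (k := cosh r * (√(-2 * B l.src.1 l.tgt.1))⁻¹)
    (fun t => (exp_pos _).ne') (mul_pos (cosh_pos r) (inv_pos.2 (GFermi_pos l))).ne' ?_
  have h1 := tendsto_exp_neg_atTop_nhds_zero
  have h2 := ((((h1.mul h1).smul_const l.src.1).add_const l.tgt.1).const_smul
    (cosh r * (√(-2 * B l.src.1 l.tgt.1))⁻¹)).add (h1.smul_const (sinh r • nrm l))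
  simp only [zero_mul, zero_smul, zero_add, add_zero] at h2
  refine h2.congr fun t => ?_
  have h3 : exp (-t) * exp t = 1 := by rw [← exp_add, neg_add_cancel, exp_zero]
  rw [GFermi_fval, GFermi_val]
  funext i
  simp only [Pi.add_apply, Pi.smul_apply, smul_eq_mul]
  linear_combination -(cosh r * (√(-2 * B l.src.1 l.tgt.1))⁻¹ * l.tgt.1 i) * h3
theorem toB_fermi_atBot (l : Geo) (r : ℝ) : ToB atBot (fun t => fermi l t r) l.src := by
  refine ((toB_fermi_atTop l.rev (-r)).comp tendsto_neg_atBot_atTop).congr fun t => congrArg kl ?_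
  refine Subtype.ext ?_
  rw [GFermi_fval, GFermi_fval, pt_rev, nrm_rev, neg_neg, cosh_neg, sinh_neg, neg_smul_neg]

theorem exists_line_pt_pt {p q : Pt} (h : p ≠ q) :
    ∃ (l : Geo) (s : ℝ), pt l s = p ∧ pt l (s + dist p q) = q := by
  have h1 : 0 < B (cr p.1 q.1) (cr p.1 q.1) := by
    have h2 := (one_le_neg_B p q).lt_of_ne fun e => h (eq_of_neg_B_eq_one e.symm)
    rw [B_cr_cr, p.2.1, q.2.1, B_comm q.1]
    linarith only [h2, mul_pos_of_neg_of_neg (Mathlib.Tactic.Linarith.sub_neg_of_lt h2) (Mathlib.Tactic.Linarith.sub_neg_of_lt h2)]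
  obtain ⟨l, h2, h3⟩ := GFermi_line h1
  obtain ⟨s, rfl⟩ : ∃ s, pt l s = p := ⟨_, eq_pt_of_side h2⟩
  obtain ⟨t, rfl⟩ : ∃ s, pt l s = q := ⟨_, eq_pt_of_side h3⟩
  rw [dist_pt]
  rcases le_total s t with h4 | h4
  · exact ⟨l, s, rfl, by rw [abs_of_nonpos (sub_nonpos.2 h4)]; congr 1; ring⟩
  · exact ⟨l.rev, -s, by rw [pt_rev, neg_neg], by
      rw [abs_of_nonneg (sub_nonneg.2 h4), pt_rev]; congr 1; ring⟩
theorem exists_line_pt_circ (p : Pt) (ξ : Circ) : ∃ (l : Geo) (s : ℝ), pt l s = p ∧ l.tgt = ξ := by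
  have h1 : 0 < B (cr p.1 ξ.1) (cr p.1 ξ.1) := by
    rw [B_cr_cr, ξ.2.1, B_comm ξ.1, mul_zero, sub_zero]
    exact mul_pos_of_neg_of_neg (B_pt_circ_neg p ξ) (B_pt_circ_neg p ξ)
  obtain ⟨l, h2, h3⟩ := GFermi_line h1
  rcases (side_eq_zero_iff l ξ).1 h3 with h4 | h4
  · exact ⟨l.rev, _, eq_pt_of_side (by rw [side_rev, h2, neg_zero]), h4.symm⟩
  · exact ⟨l, _, eq_pt_of_side h2, h4.symm⟩
theorem exists_isom_line (l m : Geo) (s t : ℝ) : ∃ g : Isom, g • l = m ∧ g • pt l s = pt m t := by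
  obtain ⟨g, h1, h2⟩ := exists_isom_frame (B_nrm_nrm l) (B_nrm_nrm m) (GFermi_pn l s)
    (GFermi_pn m t)
  exact ⟨g, nrm_injective ((nrm_smul g l).trans h2), h1⟩

end HRT
end

-- merged part: Pool.Agent.Work.MP_35beee_gt.GArc
section
/-!
Arcs of the circle at infinity.
See the header of `GCirc` for the plan.
-/

namespace HRT

open Matrix Set Filter Topology

/-- The open arc from `a` to `b`, counterclockwise. -/
def arc (a b : Circ) : Set Circ := {c | ccw a c b}

/-- The closed arc from `a` to `b`, counterclockwise (for `a ≠ b`). -/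
def carc (a b : Circ) : Set Circ := {c | ¬ ccw a b c}

theorem garc_chart (ξ : Circ) : ∃ φ : ℝ → Circ, IsOpenEmbedding φ ∧
    (∀ c, c ≠ ξ → ∃ t, φ t = c) ∧ (∀ t, φ t ≠ ξ) ∧ (∀ s t, ccw ξ (φ s) (φ t) ↔ s < t) ∧
    (∀ r s t, ccw (φ r) (φ s) (φ t) ↔ (r < s ∧ s < t) ∨ (s < t ∧ t < r) ∨ (t < r ∧ r < s)) ∧
    Tendsto φ atTop (𝓝 ξ) ∧ Tendsto φ atBot (𝓝 ξ) := by
  obtain ⟨φ, h1, h2, h3, h4, h5, h6⟩ := exists_param ξ
  refine ⟨φ, h1, fun c hc => ?_, fun t => ?_, h3, fun r s t => ⟨fun h => ?_, ?_⟩, h5, h6⟩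
  · have : c ∈ range φ := by rw [h2]; exact hc
    exact this
  · have : φ t ∈ ({ξ}ᶜ : Set Circ) := h2 ▸ mem_range_self t
    exact this
  · have e1 : r ≠ s := fun e => h.ne12 (congrArg φ e)
    have e2 : s ≠ t := fun e => h.ne23 (congrArg φ e)
    have e3 : r ≠ t := fun e => h.ne13 (congrArg φ e)
    rcases lt_or_gt_of_ne e1 with a1 | a1 <;> rcases lt_or_gt_of_ne e2 with a2 | a2 <;>
      rcases lt_or_gt_of_ne e3 with a3 | a3
    · exact Or.inl ⟨a1, a2⟩
    · exact Or.inl ⟨a1, a2⟩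
    · exact absurd (h4 r t s a3 a2) h.asymm
    · exact Or.inr (Or.inr ⟨a3, a1⟩)
    · exact absurd (h4 s r t a1 a3).cyc h.asymm
    · exact Or.inr (Or.inl ⟨a2, a3⟩)
    · exact absurd (h4 t s r a2 a1).cyc.cyc h.asymm
    · exact absurd (h4 t s r a2 a1).cyc.cyc h.asymm
  · rintro (⟨a1, a2⟩ | ⟨a1, a2⟩ | ⟨a1, a2⟩)
    · exact h4 r s t a1 a2
    · exact (h4 s t r a1 a2).cyc.cyc
    · exact (h4 t r s a1 a2).cyc

theorem garc_nest {a b p q z : Circ} (h1 : ccw a p q) (h2 : ccw a q b) (h3 : ccw p z q) :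
    ccw a z b :=
  (h1.cyc.cyc.trans h3.cyc.cyc).cyc.trans h2

theorem mem_carc {a b c : Circ} (hab : a ≠ b) : c ∈ carc a b ↔ c = a ∨ c = b ∨ ccw a c b := by
  constructor
  · intro h
    by_cases h1 : c = a
    · exact Or.inl h1
    by_cases h2 : c = b
    · exact Or.inr (Or.inl h2)
    exact Or.inr (Or.inr ((ccw_total hab (Ne.symm h2) (Ne.symm h1)).resolve_left h))
  · rintro (rfl | rfl | h)
    · exact fun h => h.ne13 rfl
    · exact fun h => h.ne23 rfl
    · exact h.asymm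

theorem garc_arc_subset (a b : Circ) : arc a b ⊆ carc a b := fun _ h => ccw.asymm h

theorem isOpen_arc (a b : Circ) : IsOpen (arc a b) :=
  isOpen_ccw.preimage (f := fun c : Circ => (a, c, b)) (by fun_prop)

theorem isClosed_carc (a b : Circ) : IsClosed (carc a b) :=
  (isOpen_ccw.preimage (f := fun c : Circ => (a, b, c)) (by fun_prop)).isClosed_compl

theorem garc_arc_eq {a : Circ} {φ : ℝ → Circ} (h2 : ∀ c, c ≠ a → ∃ t, φ t = c)
    (h4 : ∀ s t, ccw a (φ s) (φ t) ↔ s < t) (t : ℝ) : arc a (φ t) = φ '' Iio t := by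
  ext c
  constructor
  · intro h
    obtain ⟨s, rfl⟩ := h2 c (ccw.ne12 h).symm
    exact ⟨s, (h4 s t).1 h, rfl⟩
  · rintro ⟨s, hs, rfl⟩
    exact (h4 s t).2 hs

theorem garc_carc_eq {η : Circ} {φ : ℝ → Circ} (h2 : ∀ c, c ≠ η → ∃ t, φ t = c)
    (h4 : ∀ s t, ccw η (φ s) (φ t) ↔ s < t)
    (h5 : ∀ r s t, ccw (φ r) (φ s) (φ t) ↔ (r < s ∧ s < t) ∨ (s < t ∧ t < r) ∨ (t < r ∧ r < s))
    {r t : ℝ} (hrt : r < t) : carc (φ r) (φ t) = φ '' Icc r t := by
  ext c
  constructor
  · intro h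
    have hc : c ≠ η := by
      rintro rfl
      exact h ((h4 r t).2 hrt).cyc
    obtain ⟨s, rfl⟩ := h2 c hc
    refine ⟨s, ⟨?_, ?_⟩, rfl⟩
    · by_contra hs
      exact h ((h5 r t s).2 (Or.inr (Or.inr ⟨not_le.1 hs, hrt⟩)))
    · by_contra hs
      exact h ((h5 r t s).2 (Or.inl ⟨hrt, not_le.1 hs⟩))
  · rintro ⟨s, ⟨h6, h7⟩, rfl⟩ h
    rcases (h5 r t s).1 h with ⟨a1, a2⟩ | ⟨a1, a2⟩ | ⟨a1, a2⟩ <;> linarith only [h7, a2, a1, h6]

theorem arc_nonempty {a b : Circ} (hab : a ≠ b) : (arc a b).Nonempty := by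
  obtain ⟨φ, -, h2, -, h4, -⟩ := garc_chart a
  obtain ⟨t, rfl⟩ := h2 b hab.symm
  exact ⟨φ (t - 1), (h4 _ _).2 (by linarith)⟩

theorem closure_arc {a b : Circ} (hab : a ≠ b) : closure (arc a b) = carc a b := by
  refine Subset.antisymm (closure_minimal (garc_arc_subset a b) (isClosed_carc a b)) ?_
  obtain ⟨φ, h1, h2, -, h4, -, -, h7⟩ := garc_chart a
  obtain ⟨t, rfl⟩ := h2 b hab.symm
  intro c hc
  rcases (mem_carc hab).1 hc with rfl | rfl | hc
  · refine mem_closure_of_tendsto h7 ?_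
    filter_upwards [eventually_lt_atBot t] with s hs using (h4 s t).2 hs
  · rw [garc_arc_eq h2 h4]
    refine image_closure_subset_closure_image h1.continuous ⟨t, ?_, rfl⟩
    rw [closure_Iio]
    exact le_refl t
  · exact subset_closure hc

theorem isPreconnected_arc (a b : Circ) : IsPreconnected (arc a b) := by
  by_cases hab : a = b
  · have : arc a b = ∅ := eq_empty_of_forall_notMem fun c hc => ccw.ne13 hc hab
    rw [this]
    exact isPreconnected_empty
  obtain ⟨φ, h1, h2, -, h4, -⟩ := garc_chart a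
  obtain ⟨t, rfl⟩ := h2 b (Ne.symm hab)
  rw [garc_arc_eq h2 h4]
  exact isPreconnected_Iio.image φ h1.continuous.continuousOn

theorem isPreconnected_carc {a b : Circ} (hab : a ≠ b) : IsPreconnected (carc a b) := by
  rw [← closure_arc hab]
  exact (isPreconnected_arc a b).closure

theorem exists_arc_subset {ξ : Circ} {U : Set Circ} (hU : U ∈ 𝓝 ξ) :
    ∃ a b, ccw a ξ b ∧ carc a b ⊆ U := by
  obtain ⟨ψ, -, -, h0, -⟩ := garc_chart ξ
  obtain ⟨φ, h1, h2, -, h4, h5, -⟩ := garc_chart (ψ 0)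
  obtain ⟨t, rfl⟩ := h2 ξ (h0 0).symm
  obtain ⟨r, u, -, h7, h8⟩ :=
    exists_Icc_mem_subset_of_mem_nhds (h1.continuous.continuousAt.preimage_mem_nhds hU)
  rw [Icc_mem_nhds_iff] at h7
  refine ⟨φ r, φ u, (h5 _ _ _).2 (Or.inl h7), ?_⟩
  rw [garc_carc_eq h2 h4 h5 (h7.1.trans h7.2)]
  exact image_subset_iff.2 h8

/-- A gap of a closed set with at least two points. -/
theorem exists_gap {S : Set Circ} (hS : IsClosed S) (h2 : S.Nontrivial) {ξ : Circ} (hξ : ξ ∉ S) :
    ∃ a ∈ S, ∃ b ∈ S, ccw a ξ b ∧ ∀ c ∈ S, ¬ ccw a c b := by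
  obtain ⟨φ, k1, k2, -, k4, k5, k6, k7⟩ := garc_chart ξ
  have hn : Sᶜ ∈ 𝓝 ξ := hS.isOpen_compl.mem_nhds hξ
  obtain ⟨M0, hM0⟩ := eventually_atTop.1 (k6.eventually hn)
  obtain ⟨m0, hm0⟩ := eventually_atBot.1 (k7.eventually hn)
  have hT : IsCompact (φ ⁻¹' S) := by
    refine isCompact_Icc.of_isClosed_subset (hS.preimage k1.continuous) (s := Icc m0 M0) ?_
    intro s hs
    constructor
    · by_contra h
      exact hm0 s (not_le.1 h).le hs
    · by_contra h
      exact hM0 s (not_le.1 h).le hs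
  have hsurj : ∀ c ∈ S, ∃ s, φ s = c := fun c hc => k2 c fun e => hξ (e ▸ hc)
  obtain ⟨x, hx, y, hy, hxy⟩ := h2
  obtain ⟨u, rfl⟩ := hsurj x hx
  obtain ⟨v, rfl⟩ := hsurj y hy
  obtain ⟨m, hm, hm'⟩ := hT.exists_isLeast ⟨u, hx⟩
  obtain ⟨M, hM, hM'⟩ := hT.exists_isGreatest ⟨u, hx⟩
  have hlt : m < M := by
    have e : u ≠ v := fun e => hxy (congrArg φ e)
    rcases lt_or_gt_of_ne e with h | h
    · exact (hm' hx).trans_lt (h.trans_le (hM' hy))
    · exact (hm' hy).trans_lt (h.trans_le (hM' hx))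
  refine ⟨φ M, hM, φ m, hm, ((k4 m M).2 hlt).cyc.cyc, fun c hc h => ?_⟩
  obtain ⟨s, rfl⟩ := hsurj c hc
  have a1 := hm' hc
  have a2 := hM' hc
  rcases (k5 M s m).1 h with ⟨b1, b2⟩ | ⟨b1, b2⟩ | ⟨b1, b2⟩ <;> linarith only [a2, b1, a1, b2]

/-- A continuous map of a closed arc into itself has a fixed point. -/
theorem exists_fixed_carc {a b : Circ} (hab : a ≠ b) {f : Circ → Circ} (hf : Continuous f)
    (hm : MapsTo f (carc a b) (carc a b)) : ∃ c ∈ carc a b, f c = c := by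
  obtain ⟨η, hη⟩ := arc_nonempty hab.symm
  have hη' : ccw η a b := ccw.cyc hη
  obtain ⟨φ, h1, h2, -, h4, h5, -⟩ := garc_chart η
  obtain ⟨r, rfl⟩ := h2 a hη'.ne12.symm
  obtain ⟨t, rfl⟩ := h2 b hη'.ne13.symm
  have hrt : r < t := (h4 r t).1 hη'
  rw [garc_carc_eq h2 h4 h5 hrt] at hm ⊢
  have hg : ∀ s ∈ Icc r t, ∃ u ∈ Icc r t, φ u = f (φ s) := fun s hs => hm ⟨s, hs, rfl⟩
  choose! g g1 g2 using hg
  have hc : ContinuousOn g (Icc r t) := by
    rw [h1.isInducing.continuousOn_iff]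
    exact (hf.comp h1.continuous).continuousOn.congr g2
  obtain ⟨s, hs, hfix⟩ := exists_mem_Icc_isFixedPt_of_mapsTo hc hrt.le g1
  refine ⟨φ s, ⟨s, hs, rfl⟩, ?_⟩
  rw [← g2 s hs, hfix.eq]

theorem ccw_iff_of_ccw {f : Circ → Circ} (hf : ∀ a b c, ccw a b c → ccw (f a) (f b) (f c))
    (a b c : Circ) : ccw (f a) (f b) (f c) ↔ ccw a b c := by
  refine ⟨fun h => ?_, hf a b c⟩
  refine (ccw_total (fun e => h.ne12 (congrArg f e)) (fun e => h.ne23 (congrArg f e))
    (fun e => h.ne13 (congrArg f e))).resolve_right fun h' => h.asymm (hf _ _ _ h')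

theorem injective_of_ccw {f : Circ → Circ} (hf : ∀ a b c, ccw a b c → ccw (f a) (f b) (f c)) :
    Function.Injective f := by
  intro a b h
  by_contra hab
  obtain ⟨c, hc⟩ := arc_nonempty hab
  exact (hf a c b hc).ne13 h

/-- A bijection preserving the cyclic order is a homeomorphism. -/
theorem exists_homeo_of_ccw {f : Circ → Circ} (hs : Function.Surjective f)
    (hf : ∀ a b c, ccw a b c → ccw (f a) (f b) (f c)) : ∃ h : Circ ≃ₜ Circ, ∀ ξ, h ξ = f ξ := by
  have hc : Continuous f := by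
    refine continuous_iff_continuousAt.2 fun ξ U hU => ?_
    obtain ⟨a', b', h1, h2⟩ := exists_arc_subset hU
    obtain ⟨a, rfl⟩ := hs a'
    obtain ⟨b, rfl⟩ := hs b'
    refine mem_map.2 (mem_of_superset
      ((isOpen_arc a b).mem_nhds ((ccw_iff_of_ccw hf a ξ b).1 h1)) fun c hc => ?_)
    exact h2 (garc_arc_subset _ _ (hf a c b hc))
  exact ⟨Continuous.homeoOfEquivCompactToT2
    (f := Equiv.ofBijective f ⟨injective_of_ccw hf, hs⟩) hc, fun _ => rfl⟩

/-- Order preserving maps that tend to the identity on a dense set do so uniformly. -/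
theorem tendstoUniformly_of_dense {X : Type*} {F : Filter X} {f : X → Circ → Circ}
    (hf : ∀ x a b c, ccw a b c → ccw (f x a) (f x b) (f x c)) {D : Set Circ} (hD : Dense D)
    (h : ∀ ξ ∈ D, Tendsto (fun x => f x ξ) F (𝓝 ξ)) : TendstoUniformly f id F := by
  rw [← tendstoLocallyUniformly_iff_tendstoUniformly_of_compactSpace,
    Metric.tendstoLocallyUniformly_iff]
  intro ε hε ξ
  obtain ⟨a, b, h1, h2⟩ := exists_arc_subset (Metric.ball_mem_nhds ξ (half_pos hε))
  obtain ⟨p, p1, p2⟩ := hD.inter_open_nonempty _ (isOpen_arc a ξ) (arc_nonempty h1.ne12)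
  obtain ⟨q, q1, q2⟩ := hD.inter_open_nonempty _ (isOpen_arc ξ b) (arc_nonempty h1.ne23)
  have q1' : ccw ξ q b := q1
  have p1' : ccw a p ξ := p1
  have e1 : ccw a q b := (h1.cyc.cyc.trans q1'.cyc.cyc).cyc
  have e2 : ccw a ξ q := h1.cyc.cyc.trans' q1'.cyc.cyc
  have e3 : ccw a p q := p1'.trans e2
  have e4 : ccw p ξ q := p1'.trans' e2
  refine ⟨arc p q, (isOpen_arc p q).mem_nhds e4, ?_⟩
  filter_upwards [eventually_ccw tendsto_const_nhds (h p p2) (h q q2) e3,
    eventually_ccw tendsto_const_nhds (h q q2) tendsto_const_nhds e1] with x x1 x2 y hy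
  have y1 := h2 (garc_arc_subset _ _ (garc_nest e3 e1 hy))
  have y2 := h2 (garc_arc_subset _ _ (garc_nest x1 x2 (hf x p y q hy)))
  exact dist_triangle_right y (f x y) ξ |>.trans_lt (by
    rw [Metric.mem_ball] at y1 y2
    linarith only [y1, y2])

/-- Short arcs: two close points cut off an arc of small diameter. -/
theorem small_arc {ε : ℝ} (hε : 0 < ε) : ∃ δ > 0, ∀ a b : Circ, a ≠ b → dist a b < δ →
    (∀ c ∈ carc a b, dist a c < ε) ∨ (∀ c ∈ carc b a, dist a c < ε) := by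
  have h0 : ∀ ξ : Circ, ∃ a b, ccw a ξ b ∧ carc a b ⊆ Metric.ball ξ (ε / 2) :=
    fun ξ => exists_arc_subset (Metric.ball_mem_nhds ξ (half_pos hε))
  choose u v h1 h2 using h0
  obtain ⟨δ, hδ, h3⟩ := lebesgue_number_lemma_of_metric (s := (univ : Set Circ)) isCompact_univ
    (c := fun ξ => arc (u ξ) (v ξ)) (fun ξ => isOpen_arc _ _)
    (fun ξ _ => mem_iUnion.2 ⟨ξ, h1 ξ⟩)
  refine ⟨δ, hδ, fun a b hab hd => ?_⟩
  obtain ⟨ξ, hξ⟩ := h3 a (mem_univ a)
  have ha : ccw (u ξ) a (v ξ) := hξ (Metric.mem_ball_self hδ)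
  have hb : ccw (u ξ) b (v ξ) := hξ (Metric.mem_ball'.2 hd)
  have key : ∀ c, ccw (u ξ) c (v ξ) → dist a c < ε := fun c hc => by
    have y1 := h2 ξ (garc_arc_subset _ _ ha)
    have y2 := h2 ξ (garc_arc_subset _ _ hc)
    rw [Metric.mem_ball] at y1 y2
    linarith only [y1, y2, dist_triangle_right a c ξ]
  rcases ccw_total ha.ne12 hab hb.ne12 with h | h
  · refine Or.inl fun c hc => key c ?_
    rcases (mem_carc hab).1 hc with rfl | rfl | hc
    · exact ha
    · exact hb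
    · exact garc_nest h hb hc
  · refine Or.inr fun c hc => key c ?_
    rcases (mem_carc hab.symm).1 hc with rfl | rfl | hc
    · exact hb
    · exact ha
    · exact garc_nest h ha hc

end HRT
end

-- merged part: Pool.Agent.Work.MP_35beee_gt.GCross
section
/-!
Relative position of two lines: crossing, nesting, distance, projection, visual size.

Plan. A boundary point `ξ` other than the endpoints of `l` is a positive multiple of
`pt l (fer l ξ) ± nrm l` (`circ_eq`). For a line `m` with such endpoints `u`, `v` put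
`s = fer l u`, `t = fer l v`; if they are on opposite sides, `B (nrm l) (nrm m) = ± tanh ((s-t)/2)`
and the lines meet at `pt l ((s+t)/2)`; on the same side `|B (nrm l) (nrm m)| = coth (|s-t|/2)`.
`side m (pt l t)` is a positive multiple of `exp (-t) * side m l.src + exp t * side m l.tgt`.
-/

namespace HRT

open Matrix Set Filter Topology Real

theorem gcross_B_src_nrm (l : Geo) : B (nrm l) l.src.1 = 0 := side_src l

theorem gcross_B_tgt_nrm (l : Geo) : B (nrm l) l.tgt.1 = 0 := side_tgt l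

theorem gcross_gram (l : Geo) (v w : V) : B v w =
    (B v l.tgt.1 * B l.src.1 w + B v l.src.1 * B l.tgt.1 w) / B l.src.1 l.tgt.1 +
      side l v * side l w := by
  conv_lhs => rw [expand l v]
  simp only [B_add_left, B_smul_left, side]
  ring

theorem gcross_k_pos (l : Geo) : 0 < √(-2 * B l.src.1 l.tgt.1) :=
  sqrt_pos.2 (by linarith [l.B_neg])

theorem gcross_k_sq (l : Geo) : √(-2 * B l.src.1 l.tgt.1) ^ 2 = -2 * B l.src.1 l.tgt.1 :=
  sq_sqrt (by linarith [l.B_neg])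

theorem gcross_neg (l : Geo) {ξ : Circ} (h : side l ξ.1 ≠ 0) :
    B ξ.1 l.src.1 < 0 ∧ B ξ.1 l.tgt.1 < 0 :=
  ⟨B_circ_neg fun e => h ((side_eq_zero_iff l ξ).2 (Or.inl e)),
    B_circ_neg fun e => h ((side_eq_zero_iff l ξ).2 (Or.inr e))⟩

theorem gcross_exp (l : Geo) {ξ : Circ} (h : side l ξ.1 ≠ 0) :
    exp (fer l ξ.1) ^ 2 * B ξ.1 l.tgt.1 = B ξ.1 l.src.1 := by
  obtain ⟨h1, h2⟩ := gcross_neg l h
  have h3 : exp (fer l ξ.1) ^ 2 = B ξ.1 l.src.1 / B ξ.1 l.tgt.1 := by
    rw [sq, ← exp_add, fer, add_halves, exp_log (div_pos_of_neg_of_neg h1 h2)]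
  rw [h3, div_mul_cancel₀ _ h2.ne]

theorem gcross_coord (l : Geo) {ξ : Circ} (h : side l ξ.1 ≠ 0) :
    B ξ.1 l.tgt.1 / B l.src.1 l.tgt.1 =
      |side l ξ.1| * ((√(-2 * B l.src.1 l.tgt.1))⁻¹ * exp (-fer l ξ.1)) ∧
    B ξ.1 l.src.1 / B l.src.1 l.tgt.1 =
      |side l ξ.1| * ((√(-2 * B l.src.1 l.tgt.1))⁻¹ * exp (fer l ξ.1)) := by
  obtain ⟨h1, h2⟩ := gcross_neg l h
  have h3 := gcross_exp l h
  have h4 := gcross_gram l ξ.1 ξ.1
  rw [ξ.2.1, B_comm l.src.1 ξ.1, B_comm l.tgt.1 ξ.1] at h4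
  have h5 := gcross_k_pos l
  have h6 := gcross_k_sq l
  have h7 := l.B_neg
  have h8 := exp_pos (fer l ξ.1)
  have h9 : 0 < |side l ξ.1| := abs_pos.2 h
  have h10 : |side l ξ.1| ^ 2 = side l ξ.1 * side l ξ.1 := by rw [sq_abs, sq]
  rw [exp_neg]
  generalize √(-2 * B l.src.1 l.tgt.1) = k at *
  generalize exp (fer l ξ.1) = E at *
  generalize |side l ξ.1| = a at *
  generalize B ξ.1 l.tgt.1 = Q at *
  generalize B ξ.1 l.src.1 = P at *
  generalize B l.src.1 l.tgt.1 = b at *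
  have h11 : a ^ 2 * b = -2 * (P * Q) := by
    rw [h10]
    field_simp [h7.ne] at h4
    linarith only [h4]
  have h12 : (a * k) ^ 2 = (-2 * Q * E) ^ 2 := by
    have : (a * k) ^ 2 = -2 * (a ^ 2 * b) := by rw [mul_pow, h6]; ring
    rw [this, h11, ← h3]
    ring
  have h13 : a * k = -2 * Q * E :=
    (pow_left_inj₀ (by positivity) (by linarith only [h8, h2, mul_pos_of_neg_of_neg (Mathlib.Tactic.Linarith.sub_neg_of_lt h8) (Mathlib.Tactic.Linarith.sub_neg_of_lt h2)]) two_ne_zero).1 h12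
  have h14 : b = -(k ^ 2) / 2 := by linarith only [h6]
  constructor
  · rw [h14]
    field_simp
    linarith only [h13]
  · rw [h14, ← h3]
    field_simp
    linear_combination (-1 : ℝ) * h13

theorem gcross_det (a b n : V) (x y s x' y' s' : ℝ) :
    det3 a (x • a + y • b + s • n) (x' • a + y' • b + s' • n) = (y * s' - s * y') * det3 a b n := by
  simp only [det3, B, cr_0, cr_1, cr_2, Pi.add_apply, Pi.smul_apply, smul_eq_mul]
  ring

theorem gcross_ccw (l : Geo) {ξ η : Circ} (hξ : side l ξ.1 ≠ 0) (hη : side l η.1 ≠ 0) :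
    ccw l.src ξ η ↔ 0 < |side l ξ.1| * exp (fer l ξ.1) * side l η.1 -
      side l ξ.1 * (|side l η.1| * exp (fer l η.1)) := by
  have h1 : 0 < det3 l.src.1 l.tgt.1 (nrm l) := by
    have h2 := B_nrm_nrm l
    have h3 := l.B_neg
    have h4 : 0 < (-B l.src.1 l.tgt.1)⁻¹ := inv_pos.2 (by linarith)
    have h6 : (-B l.src.1 l.tgt.1)⁻¹ * det3 l.src.1 l.tgt.1 (nrm l) = 1 := by
      rw [det3, ← B_smul_left]
      exact h2
    exact (pos_iff_pos_of_mul_pos (h6.symm ▸ one_pos)).1 h4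
  have h5 := inv_pos.2 (gcross_k_pos l)
  have h7 := gcross_det l.src.1 l.tgt.1 (nrm l) (B ξ.1 l.tgt.1 / B l.src.1 l.tgt.1)
    (B ξ.1 l.src.1 / B l.src.1 l.tgt.1) (side l ξ.1) (B η.1 l.tgt.1 / B l.src.1 l.tgt.1)
    (B η.1 l.src.1 / B l.src.1 l.tgt.1) (side l η.1)
  rw [← expand l ξ.1, ← expand l η.1, (gcross_coord l hξ).2, (gcross_coord l hη).2] at h7
  have h8 : det3 l.src.1 ξ.1 η.1 = (√(-2 * B l.src.1 l.tgt.1))⁻¹ * det3 l.src.1 l.tgt.1 (nrm l) *
      (|side l ξ.1| * exp (fer l ξ.1) * side l η.1 -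
        side l ξ.1 * (|side l η.1| * exp (fer l η.1))) := by
    rw [h7]
    ring
  rw [ccw_iff, h8, mul_pos_iff_of_pos_left (mul_pos h5 h1)]

theorem gcross_exists (l : Geo) (t e : ℝ) (he : e * e = 1) :
    ∃ ξ : Circ, 0 < e * side l ξ.1 ∧ fer l ξ.1 = t := by
  have h0 : B (nrm l) (pt l t).1 = 0 := side_pt l t
  have h1 : B ((pt l t).1 + e • nrm l) ((pt l t).1 + e • nrm l) = 0 := by
    simp only [B_add_left, B_add_right, B_smul_left, B_smul_right, (pt l t).2.1, B_nrm_nrm, h0,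
      B_comm (pt l t).1 (nrm l)]
    linarith
  have h2 : Fut ((pt l t).1 + e • nrm l) := fut_of_B_neg h1.le (pt l t) (by
    simp only [B_add_right, B_smul_right, (pt l t).2.1, h0, B_comm (pt l t).1 (nrm l)]
    norm_num)
  have h3 := h2.2
  refine ⟨toCirc ((pt l t).1 + e • nrm l), ?_, ?_⟩
  · rw [toCirc_val h1 h3.ne', side, B_smul_right, B_add_right, B_smul_right, h0, B_nrm_nrm,
      zero_add, mul_one, mul_left_comm, he, mul_one]
    exact inv_pos.2 h3
  · rw [toCirc_val h1 h3.ne', fer_smul l (inv_pos.2 h3).ne', fer, B_add_left, B_add_left,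
      B_smul_left, B_smul_left, gcross_B_src_nrm, gcross_B_tgt_nrm, mul_zero, add_zero, add_zero]
    exact fer_pt l t

theorem circ_eq (l : Geo) {ξ : Circ} (h : side l ξ.1 ≠ 0) :
    ξ.1 = |side l ξ.1| • (pt l (fer l ξ.1)).1 + side l ξ.1 • nrm l := by
  obtain ⟨h1, h2⟩ := gcross_coord l h
  conv_lhs => rw [expand l ξ.1]
  rw [h1, h2]
  show _ = |side l ξ.1| • ((√(-2 * B l.src.1 l.tgt.1))⁻¹ •
    (exp (-fer l ξ.1) • l.src.1 + exp (fer l ξ.1) • l.tgt.1)) + side l ξ.1 • nrm l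
  simp only [smul_add, smul_smul]

theorem side_pt_eq (l m : Geo) (t : ℝ) : side m (pt l t).1 =
    (√(-2 * B l.src.1 l.tgt.1))⁻¹ * (exp (-t) * side m l.src.1 + exp t * side m l.tgt.1) := by
  show B (nrm m) ((√(-2 * B l.src.1 l.tgt.1))⁻¹ • (exp (-t) • l.src.1 + exp t • l.tgt.1)) = _
  simp only [B_smul_right, B_add_right, side]

/-- On the right of `l` the projection increases counterclockwise. -/
theorem ccw_iff_fer_right (l : Geo) {ξ η : Circ} (hξ : side l ξ.1 < 0) (hη : side l η.1 < 0) :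
    ccw l.src ξ η ↔ fer l ξ.1 < fer l η.1 := by
  have h : -side l ξ.1 * exp (fer l ξ.1) * side l η.1 -
      side l ξ.1 * (-side l η.1 * exp (fer l η.1)) =
      side l ξ.1 * side l η.1 * (exp (fer l η.1) - exp (fer l ξ.1)) := by ring
  rw [gcross_ccw l hξ.ne hη.ne, abs_of_neg hξ, abs_of_neg hη, h,
    mul_pos_iff_of_pos_left (mul_pos_of_neg_of_neg hξ hη), sub_pos, exp_lt_exp]

/-- On the left of `l` the projection decreases counterclockwise. -/
theorem ccw_iff_fer_left (l : Geo) {ξ η : Circ} (hξ : 0 < side l ξ.1) (hη : 0 < side l η.1) :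
    ccw l.src ξ η ↔ fer l η.1 < fer l ξ.1 := by
  have h : side l ξ.1 * exp (fer l ξ.1) * side l η.1 -
      side l ξ.1 * (side l η.1 * exp (fer l η.1)) =
      side l ξ.1 * side l η.1 * (exp (fer l ξ.1) - exp (fer l η.1)) := by ring
  rw [gcross_ccw l hξ.ne' hη.ne', abs_of_pos hξ, abs_of_pos hη, h,
    mul_pos_iff_of_pos_left (mul_pos hξ hη), sub_pos, exp_lt_exp]

theorem exists_circ_right (l : Geo) (t : ℝ) : ∃ ξ : Circ, side l ξ.1 < 0 ∧ fer l ξ.1 = t := by
  obtain ⟨ξ, h1, h2⟩ := gcross_exists l t (-1) (by norm_num)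
  exact ⟨ξ, by linarith, h2⟩

theorem exists_circ_left (l : Geo) (t : ℝ) : ∃ ξ : Circ, 0 < side l ξ.1 ∧ fer l ξ.1 = t := by
  obtain ⟨ξ, h1, h2⟩ := gcross_exists l t 1 (by norm_num)
  exact ⟨ξ, by linarith, h2⟩

theorem eq_of_fer_eq (l : Geo) {ξ η : Circ} (h : 0 < side l ξ.1 * side l η.1)
    (hf : fer l ξ.1 = fer l η.1) : ξ = η := by
  have h1 : side l ξ.1 ≠ 0 := left_ne_zero_of_mul h.ne'
  have h2 : side l η.1 ≠ 0 := right_ne_zero_of_mul h.ne'
  have h3 : |side l η.1| * side l ξ.1 = |side l ξ.1| * side l η.1 := by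
    rcases mul_pos_iff.1 h with k | k
    · rw [abs_of_pos k.1, abs_of_pos k.2, mul_comm]
    · rw [abs_of_neg k.1, abs_of_neg k.2]
      ring
  have h4 : |side l η.1| • ξ.1 = |side l ξ.1| • η.1 := by
    have k1 := circ_eq l h1
    have k2 := circ_eq l h2
    rw [hf] at k1
    calc |side l η.1| • ξ.1 = |side l η.1| • (|side l ξ.1| • (pt l (fer l η.1)).1 +
          side l ξ.1 • nrm l) := congrArg _ k1
      _ = |side l ξ.1| • (|side l η.1| • (pt l (fer l η.1)).1 + side l η.1 • nrm l) := by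
          simp only [smul_add, smul_smul, h3, mul_comm |side l η.1| |side l ξ.1|]
      _ = _ := congrArg _ k2.symm
  have h5 := congrFun h4 2
  simp only [Pi.smul_apply, smul_eq_mul, ξ.2.2, η.2.2, mul_one] at h5
  rw [h5] at h4
  exact Subtype.ext (smul_right_injective V (abs_pos.2 h1).ne' h4)

theorem tendsto_tgt_of_fer {X : Type*} {F : Filter X} (l : Geo) {ξ : X → Circ}
    (h0 : ∀ᶠ x in F, side l (ξ x).1 ≠ 0) (h : Tendsto (fun x => fer l (ξ x).1) F atTop) :
    Tendsto ξ F (𝓝 l.tgt) := by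
  rw [tendsto_iff_dist_tendsto_zero]
  have h1 : Tendsto (fun x => 2 * exp (-fer l (ξ x).1)) F (𝓝 0) := by
    simpa using (tendsto_exp_neg_atTop_nhds_zero.comp h).const_mul 2
  refine squeeze_zero' (Eventually.of_forall fun _ => dist_nonneg) (h0.mono fun x hx => ?_) h1
  have h2 := circ_dist_sq_le (ξ x) l.tgt
  have h3 := gcross_exp l hx
  have h4 : -B (ξ x).1 l.src.1 ≤ 2 := by
    have k1 := (ξ x).2.1
    have k2 := l.src.2.1
    simp only [B, (ξ x).2.2, l.src.2.2] at k1 k2 ⊢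
    nlinarith [sq_nonneg ((ξ x).1 0 + l.src.1 0), sq_nonneg ((ξ x).1 1 + l.src.1 1)]
  have h5 := exp_pos (fer l (ξ x).1)
  refine le_of_sq_le_sq (h2.trans ?_) (by positivity)
  rw [exp_neg, mul_pow, inv_pow, ← div_eq_mul_inv, le_div_iff₀ (by positivity)]
  nlinarith

theorem tendsto_fer_atTop {X : Type*} {F : Filter X} (l : Geo) {ξ : X → Circ}
    (h0 : ∀ᶠ x in F, side l (ξ x).1 ≠ 0) (h : Tendsto ξ F (𝓝 l.tgt)) :
    Tendsto (fun x => fer l (ξ x).1) F atTop := by
  have h1 : Tendsto (fun x => (ξ x).1) F (𝓝 l.tgt.1) :=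
    (continuous_subtype_val.tendsto l.tgt).comp h
  have h2 : B l.tgt.1 l.src.1 ≠ 0 := by
    rw [B_comm]
    exact l.B_neg.ne
  have h3 := (h1.B' (tendsto_const_nhds (x := l.tgt.1))).div
    (h1.B' (tendsto_const_nhds (x := l.src.1))) h2
  rw [l.tgt.2.1, zero_div] at h3
  have h4 : Tendsto (fun x => exp (-(2 * fer l (ξ x).1))) F (𝓝 0) := by
    refine h3.congr' (h0.mono fun x hx => ?_)
    have k1 := gcross_exp l hx
    have k2 := (gcross_neg l hx).2.ne
    have k3 := (exp_pos (fer l (ξ x).1)).ne'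
    simp only [Pi.div_apply]
    rw [← k1, exp_neg, two_mul, exp_add]
    field_simp
  rw [tendsto_exp_comp_nhds_zero, tendsto_neg_atBot_iff] at h4
  exact (tendsto_const_mul_atTop_of_pos two_pos).1 h4

/-- Two lines cross: the endpoints of `m` are on opposite sides of `l`. -/
def Cross (l m : Geo) : Prop := side l m.src.1 * side l m.tgt.1 < 0

theorem cross_iff_ccw (l m : Geo) : Cross l m ↔
    (ccw l.src m.src l.tgt ∧ ccw l.tgt m.tgt l.src) ∨
      (ccw l.src m.tgt l.tgt ∧ ccw l.tgt m.src l.src) := by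
  rw [Cross, mul_neg_iff, or_comm, side_neg_iff, side_neg_iff, side_pos_iff, side_pos_iff]
  exact or_congr (and_congr_right fun _ => ⟨ccw.cyc, fun h => h.cyc.cyc⟩)
    ⟨fun h => ⟨h.2, h.1.cyc⟩, fun h => ⟨h.2.cyc.cyc, h.1⟩⟩
theorem Cross.symm {l m : Geo} (h : Cross l m) : Cross m l := by
  rw [cross_iff_ccw] at h ⊢
  rcases h with ⟨h1, h2⟩ | ⟨h1, h2⟩
  · exact Or.inr ⟨h1.trans' h2.cyc.cyc, (h1.trans h2.cyc.cyc).cyc.cyc⟩
  · exact Or.inl ⟨(h1.trans h2.cyc.cyc).cyc.cyc, h1.trans' h2.cyc.cyc⟩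
theorem cross_comm {l m : Geo} : Cross l m ↔ Cross m l := ⟨Cross.symm, Cross.symm⟩
@[simp] theorem cross_rev_left {l m : Geo} : Cross l.rev m ↔ Cross l m := by
  simp [Cross]
@[simp] theorem cross_rev_right {l m : Geo} : Cross l m.rev ↔ Cross l m := by
  simp [Cross, mul_comm]
@[simp] theorem cross_smul (g : Isom) {l m : Geo} : Cross (g • l) (g • m) ↔ Cross l m := by
  simp only [cross_iff_ccw, Geo.src_smul, Geo.tgt_smul, ccw_smul_iff]
theorem not_cross_self (l : Geo) : ¬ Cross l l := by simp [Cross]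
theorem cross_iff_abs_B (l m : Geo) : Cross l m ↔ |B (nrm l) (nrm m)| < 1 := by
  have h1 := gcross_gram l (nrm m) (nrm m)
  have h2 := l.B_neg
  rw [B_nrm_nrm, B_comm l.src.1 (nrm m), B_comm l.tgt.1 (nrm m)] at h1
  rw [cross_comm, ← sq_lt_one_iff_abs_lt_one, Cross]
  simp only [side] at h1 ⊢
  have h3 : 1 - B (nrm l) (nrm m) ^ 2 =
      2 * (B (nrm m) l.src.1 * B (nrm m) l.tgt.1) / B l.src.1 l.tgt.1 := by
    linear_combination h1
  rw [← sub_pos (b := B (nrm l) (nrm m) ^ 2), h3, div_pos_iff]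
  constructor
  · intro h
    exact Or.inr ⟨by linarith only [h], h2⟩
  · rintro (h | h)
    · linarith only [h2, h, h.2]
    · linarith [h.1]
theorem isOpen_cross : IsOpen {x : Geo × Geo | Cross x.1 x.2} := by
  have h1 : Continuous fun x : Geo × Geo => side x.1 x.2.src.1 :=
    Continuous.comp (g := fun x : Geo × V => side x.1 x.2)
      (f := fun x : Geo × Geo => (x.1, x.2.src.1)) continuous_side (continuous_fst.prodMk
      (continuous_subtype_val.comp (Geo.continuous_src.comp continuous_snd)))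
  have h2 : Continuous fun x : Geo × Geo => side x.1 x.2.tgt.1 :=
    Continuous.comp (g := fun x : Geo × V => side x.1 x.2)
      (f := fun x : Geo × Geo => (x.1, x.2.tgt.1)) continuous_side (continuous_fst.prodMk
      (continuous_subtype_val.comp (Geo.continuous_tgt.comp continuous_snd)))
  exact isOpen_lt (h1.mul h2) continuous_const
/-- If `m` goes from the right of `l` to the left, then `l` goes from the left of `m` to the
right. -/
theorem side_of_cross {l m : Geo} (h1 : side l m.src.1 < 0) (h2 : 0 < side l m.tgt.1) :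
    0 < side m l.src.1 ∧ side m l.tgt.1 < 0 := by
  rw [side_neg_iff] at h1
  rw [side_pos_iff] at h2
  rw [side_pos_iff, side_neg_iff]
  exact ⟨(h1.trans h2).cyc, h1.trans' h2⟩

/-- Parameter on `l` of the crossing point with `m`. -/
noncomputable def xp (l m : Geo) : ℝ := (fer l m.src.1 + fer l m.tgt.1) / 2

theorem gcross_key {l m : Geo} (h : Cross l m) (t : ℝ) : side m (pt l t).1 =
    (√(-2 * B l.src.1 l.tgt.1))⁻¹ * (exp t - exp (2 * xp l m - t)) * side m l.tgt.1 := by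
  have h1 : side l m.src.1 ≠ 0 := left_ne_zero_of_mul (ne_of_lt h)
  have h2 : side l m.tgt.1 ≠ 0 := right_ne_zero_of_mul (ne_of_lt h)
  have h3 := congrArg (side m) (circ_eq l h1)
  have h4 := congrArg (side m) (circ_eq l h2)
  rw [side_src, side, B_add_right, B_smul_right, B_smul_right, ← side] at h3
  rw [side_tgt, side, B_add_right, B_smul_right, B_smul_right, ← side] at h4
  have h5 : side m (pt l (fer l m.src.1)).1 + side m (pt l (fer l m.tgt.1)).1 = 0 := by
    refine mul_left_cancel₀ (mul_ne_zero h1 h2) ?_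
    rcases mul_neg_iff.1 h with k | k
    · rw [abs_of_pos k.1] at h3
      rw [abs_of_neg k.2] at h4
      linear_combination (-side l m.tgt.1) * h3 + side l m.src.1 * h4
    · rw [abs_of_neg k.1] at h3
      rw [abs_of_pos k.2] at h4
      linear_combination side l m.tgt.1 * h3 - side l m.src.1 * h4
  rw [side_pt_eq, side_pt_eq, ← mul_add, mul_eq_zero,
    or_iff_right (inv_pos.2 (gcross_k_pos l)).ne', exp_neg, exp_neg] at h5
  have h6 : exp (2 * xp l m - t) = exp (fer l m.src.1) * exp (fer l m.tgt.1) * exp (-t) := by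
    rw [← exp_add, ← exp_add, xp]
    congr 1
    ring
  have h7 : side m l.src.1 = -(exp (fer l m.src.1) * exp (fer l m.tgt.1)) * side m l.tgt.1 := by
    have k1 := exp_pos (fer l m.src.1)
    have k2 := exp_pos (fer l m.tgt.1)
    refine mul_left_cancel₀ (add_pos k1 k2).ne' ?_
    field_simp at h5
    linear_combination h5
  rw [side_pt_eq, h6, h7]
  ring

theorem side_pt_eq_zero_iff {l m : Geo} (h : Cross l m) (t : ℝ) :
    side m (pt l t).1 = 0 ↔ t = xp l m := by
  have h1 : side m l.tgt.1 ≠ 0 := right_ne_zero_of_mul (ne_of_lt h.symm)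
  rw [gcross_key h, mul_eq_zero, or_iff_left h1, mul_eq_zero,
    or_iff_right (inv_pos.2 (gcross_k_pos l)).ne', sub_eq_zero, exp_eq_exp]
  constructor <;> intro k <;> linarith only [k]
theorem side_pt_mul_pos_iff {l m : Geo} (h : Cross l m) (t : ℝ) :
    0 < side m (pt l t).1 * side m l.tgt.1 ↔ xp l m < t := by
  have h1 : side m l.tgt.1 ≠ 0 := right_ne_zero_of_mul (ne_of_lt h.symm)
  rw [gcross_key h, mul_assoc, mul_pos_iff_of_pos_right (mul_self_pos.2 h1),
    mul_pos_iff_of_pos_left (inv_pos.2 (gcross_k_pos l)), sub_pos, exp_lt_exp]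
  constructor <;> intro k <;> linarith only [k]
theorem pt_xp {l m : Geo} (h : Cross l m) : pt l (xp l m) = pt m (xp m l) := by
  have h1 := eq_pt_of_side ((side_pt_eq_zero_iff h _).2 rfl)
  have h2 : side l (pt m (fer m (pt l (xp l m)).1)).1 = 0 := by rw [h1, side_pt]
  rw [← (side_pt_eq_zero_iff h.symm _).1 h2, h1]
theorem xp_rev_right (l m : Geo) : xp l m.rev = xp l m := by simp [xp, add_comm]
theorem xp_smul (g : Isom) {l m : Geo} (h : Cross l m) :
    xp (g • l) (g • m) = xp l m + sh g l := by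
  rw [xp, xp, Geo.src_smul, Geo.tgt_smul, fer_smul_circ g l (left_ne_zero_of_mul (ne_of_lt h)),
    fer_smul_circ g l (right_ne_zero_of_mul (ne_of_lt h))]
  ring
theorem continuousAt_xp {l m : Geo} (h : Cross l m) :
    ContinuousAt (fun x : Geo × Geo => xp x.1 x.2) (l, m) := by
  have h1 : ContinuousAt (fun x : Geo × Geo => fer x.1 x.2.src.1) (l, m) :=
    ContinuousAt.comp (g := fun x : Geo × Circ => fer x.1 x.2.1)
      (f := fun x : Geo × Geo => (x.1, x.2.src))
      (continuousAt_fer_circ (left_ne_zero_of_mul (ne_of_lt h)))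
      (continuous_fst.prodMk (Geo.continuous_src.comp continuous_snd)).continuousAt
  have h2 : ContinuousAt (fun x : Geo × Geo => fer x.1 x.2.tgt.1) (l, m) :=
    ContinuousAt.comp (g := fun x : Geo × Circ => fer x.1 x.2.1)
      (f := fun x : Geo × Geo => (x.1, x.2.tgt))
      (continuousAt_fer_circ (right_ne_zero_of_mul (ne_of_lt h)))
      (continuous_fst.prodMk (Geo.continuous_tgt.comp continuous_snd)).continuousAt
  exact (h1.add h2).div_const 2
theorem cross_of_common {l m : Geo} {p : Pt} (hl : side l p.1 = 0) (hm : side m p.1 = 0)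
    (h1 : m ≠ l) (h2 : m ≠ l.rev) : Cross l m := by
  have k1 : B p.1 (nrm l) = 0 := (B_comm _ _).trans hl
  have k2 : B p.1 (nrm m) = 0 := (B_comm _ _).trans hm
  have k3 := B_pos_of_orth p (v := nrm l - nrm m) (by rw [B_sub_right, k1, k2, sub_self])
    (sub_ne_zero.2 fun e => h1 (nrm_injective e).symm)
  have k4 := B_pos_of_orth p (v := nrm l + nrm m) (by rw [B_add_right, k1, k2, add_zero])
    fun e => h2 (nrm_injective (by rw [nrm_rev]; exact eq_neg_of_add_eq_zero_right e))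
  simp only [B_sub_left, B_sub_right, B_add_left, B_add_right, B_nrm_nrm,
    B_comm (nrm m) (nrm l)] at k3 k4
  rw [cross_iff_abs_B, abs_lt]
  constructor <;> linarith only [k4, k3]
theorem cross_of_side_mul_neg {l m : Geo} {s t : ℝ}
    (h : side m (pt l s).1 * side m (pt l t).1 < 0) : Cross l m := by
  refine Cross.symm (not_le.1 fun k => absurd h (not_lt.2 ?_))
  rw [side_pt_eq, side_pt_eq, mul_mul_mul_comm]
  refine mul_nonneg (mul_self_nonneg _) ?_
  have k1 := mul_nonneg (mul_pos (exp_pos (-s)) (exp_pos (-t))).le (mul_self_nonneg (side m l.src.1))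
  have k2 := mul_nonneg (mul_pos (exp_pos s) (exp_pos t)).le (mul_self_nonneg (side m l.tgt.1))
  have k3 := mul_nonneg (add_pos (mul_pos (exp_pos (-s)) (exp_pos t))
    (mul_pos (exp_pos s) (exp_pos (-t)))).le k
  linarith

end HRT
end

-- merged part: Pool.Agent.Work.MP_35beee_gt.GNest
section
/-!
Nested half-planes.
See the header of `GCross` for the plan.
-/

namespace HRT

open Matrix Set Filter Topology Real

/-- The open half-plane on the left of `l` is contained in that of `m`. -/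
def Nest (l m : Geo) : Prop := ∀ p : Pt, 0 < side l p.1 → 0 < side m p.1

theorem Nest.refl (l : Geo) : Nest l l := fun _ h => h
theorem Nest.trans {l m n : Geo} (h1 : Nest l m) (h2 : Nest m n) : Nest l n :=
  fun p hp => h2 p (h1 p hp)
theorem GNest_coord (l m : Geo) (v : V) : side m v =
    B v l.tgt.1 / B l.src.1 l.tgt.1 * side m l.src.1 +
      B v l.src.1 / B l.src.1 l.tgt.1 * side m l.tgt.1 + side l v * B (nrm m) (nrm l) := by
  have h := congrArg (B (nrm m)) (expand l v)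
  simp only [B_add_right, B_smul_right] at h
  exact h

theorem GNest_sq (l m : Geo) : B (nrm m) (nrm l) ^ 2 =
    1 + 2 * (side m l.src.1 * side m l.tgt.1 / (-B l.src.1 l.tgt.1)) := by
  have h := GNest_coord l m (nrm m)
  have h1 : side m (nrm m) = 1 := B_nrm_nrm m
  have h2 : side l (nrm m) = B (nrm m) (nrm l) := B_comm _ _
  have h3 : B (nrm m) l.tgt.1 = side m l.tgt.1 := rfl
  have h4 : B (nrm m) l.src.1 = side m l.src.1 := rfl
  rw [h1, h2, h3, h4] at h
  rw [div_neg]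
  have : side m l.src.1 * side m l.tgt.1 / B l.src.1 l.tgt.1 =
      side m l.tgt.1 / B l.src.1 l.tgt.1 * side m l.src.1 := by ring
  have h5 : side m l.src.1 / B l.src.1 l.tgt.1 * side m l.tgt.1 =
      side m l.tgt.1 / B l.src.1 l.tgt.1 * side m l.src.1 := by ring
  rw [this]
  rw [h5] at h
  linarith only [h, sq (B (nrm m) (nrm l))]

theorem GNest_ne_zero {l m : Geo} (h : 0 ≤ side m l.src.1 * side m l.tgt.1) :
    B (nrm m) (nrm l) ≠ 0 := by
  intro h0
  have h1 := GNest_sq l m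
  have h2 : 0 ≤ side m l.src.1 * side m l.tgt.1 / (-B l.src.1 l.tgt.1) :=
    div_nonneg h (by linarith only [l.B_neg])
  rw [h0] at h1
  linarith only [h1, h2, sq (0 : ℝ)]

theorem GNest_le {l m : Geo} (h1 : 0 ≤ side m l.src.1) (h2 : 0 ≤ side m l.tgt.1) {v : V}
    (hv : Fut v) : side l v * B (nrm m) (nrm l) ≤ side m v := by
  have h := GNest_coord l m v
  have a1 : 0 ≤ B v l.tgt.1 / B l.src.1 l.tgt.1 :=
    div_nonneg_of_nonpos (hv.B_nonpos l.tgt.fut) l.B_neg.le
  have a2 : 0 ≤ B v l.src.1 / B l.src.1 l.tgt.1 :=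
    div_nonneg_of_nonpos (hv.B_nonpos l.src.fut) l.B_neg.le
  linarith only [h, a1, h1, a2, h2, mul_nonneg a1 h1, mul_nonneg a2 h2]

theorem GNest_of_pos {l m : Geo} (h1 : 0 ≤ side m l.src.1) (h2 : 0 ≤ side m l.tgt.1)
    (h3 : 0 < B (nrm m) (nrm l)) : Nest l m :=
  fun p hp => (mul_pos hp h3).trans_le (GNest_le h1 h2 p.fut)

theorem GNest_time {l m : Geo} (h : Nest l m) {v : V} (hv : B v v < 0) (h2 : 0 < v 2)
    (h0 : 0 < side l v) : 0 < side m v := by
  have hs : 0 < (√(-B v v))⁻¹ := inv_pos.2 (sqrt_pos.2 (by linarith))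
  have e : ∀ k : Geo, side k (toPt v).1 = (√(-B v v))⁻¹ * side k v := fun k => by
    rw [toPt_val hv h2]; exact B_smul_right _ _ _
  have := h (toPt v) (by rw [e]; exact mul_pos hs h0)
  rw [e] at this
  exact (pos_iff_pos_of_mul_pos this).1 hs

theorem GNest_left (l : Geo) : ∃ u : Pt, 0 < side l u.1 :=
  ⟨fermi l 0 1, by rw [side_fermi]; exact sinh_pos_iff.2 one_pos⟩

theorem GNest_nonneg {l m : Geo} (h : Nest l m) {v : V} (hv : Fut v) (h0 : 0 ≤ side l v) :
    0 ≤ side m v := by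
  obtain ⟨u, hu⟩ := GNest_left l
  have hmu := h u hu
  by_contra hneg
  push Not at hneg
  have he : 0 < -side m v / side m u.1 := div_pos (by linarith) hmu
  obtain ⟨e, hee⟩ : ∃ e, e = -side m v / side m u.1 := ⟨_, rfl⟩
  rw [← hee] at he
  have hf : Fut (v + e • u.1) := hv.add (u.fut.smul he)
  have hs : ∀ k : Geo, side k (v + e • u.1) = side k v + e * side k u.1 := fun k => by
    simp only [side, B_add_right, B_smul_right]
  have ht : B (v + e • u.1) (v + e • u.1) < 0 := by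
    have b1 := hv.1
    have b2 : e * B v u.1 ≤ 0 := mul_nonpos_of_nonneg_of_nonpos he.le (hv.B_nonpos u.fut)
    have b3 := mul_pos he he
    simp only [B_add_left, B_add_right, B_smul_left, B_smul_right, u.2.1]
    rw [B_comm u.1 v]
    linarith only [b1, b2, b3]
  have := GNest_time h ht hf.2 (by rw [hs]; linarith [mul_pos he hu])
  rw [hs, hee, div_mul_cancel₀ _ hmu.ne'] at this
  linarith

theorem GNest_rev {l m : Geo} (h : Nest l m) : Nest m.rev l.rev := by
  intro p hp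
  rw [side_rev] at hp ⊢
  by_contra hneg
  have := GNest_nonneg h p.fut (by linarith)
  linarith

theorem GNest_eq_or {l m : Geo} (h1 : side m l.src.1 = 0) (h2 : side m l.tgt.1 = 0) :
    l = m ∨ l = m.rev := by
  rw [side_eq_zero_iff] at h1 h2
  rcases h1 with h1 | h1 <;> rcases h2 with h2 | h2
  · exact absurd (h1.trans h2.symm) l.ne
  · exact Or.inl (Geo.ext h1 h2)
  · exact Or.inr (Geo.ext h1 h2)
  · exact absurd (h1.trans h2.symm) l.ne

theorem GNest_pos_of_ends {l m : Geo} (h1 : 0 ≤ side m l.src.1) (h2 : 0 ≤ side m l.tgt.1)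
    (h3 : side l m.src.1 ≤ 0) (h4 : side l m.tgt.1 ≤ 0) (h5 : l ≠ m.rev) :
    0 < B (nrm m) (nrm l) := by
  by_contra hc
  have hc' : B (nrm m) (nrm l) < 0 :=
    lt_of_le_of_ne (not_lt.1 hc) (GNest_ne_zero (mul_nonneg h1 h2))
  have a1 := GNest_le h1 h2 m.src.fut
  have a2 := GNest_le h1 h2 m.tgt.fut
  rw [side_src] at a1
  rw [side_tgt] at a2
  have z1 : side l m.src.1 = 0 := by
    by_contra hz
    linarith only [a1, h3, hz, hc', mul_pos_of_neg_of_neg (lt_of_le_of_ne h3 hz) hc']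
  have z2 : side l m.tgt.1 = 0 := by
    by_contra hz
    linarith [mul_pos_of_neg_of_neg (lt_of_le_of_ne h4 hz) hc']
  rcases GNest_eq_or z1 z2 with e | e
  · rw [e, B_nrm_nrm] at hc'
    linarith
  · exact h5 (by rw [e, Geo.rev_rev])

theorem nest_iff_ends (l m : Geo) : Nest l m ↔ 0 ≤ side m l.src.1 ∧ 0 ≤ side m l.tgt.1 ∧
    side l m.src.1 ≤ 0 ∧ side l m.tgt.1 ≤ 0 ∧ l ≠ m.rev := by
  constructor
  · intro h
    have r1 := GNest_nonneg (GNest_rev h) m.src.fut (by simp)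
    have r2 := GNest_nonneg (GNest_rev h) m.tgt.fut (by simp)
    rw [side_rev] at r1 r2
    refine ⟨GNest_nonneg h l.src.fut (by simp), GNest_nonneg h l.tgt.fut (by simp), by linarith,
      by linarith, fun e => ?_⟩
    obtain ⟨u, hu⟩ := GNest_left l
    have := h u hu
    rw [e, side_rev] at hu
    linarith
  · rintro ⟨h1, h2, h3, h4, h5⟩
    exact GNest_of_pos h1 h2 (GNest_pos_of_ends h1 h2 h3 h4 h5)
theorem nest_iff_circ (l m : Geo) :
    Nest l m ↔ ∀ ξ : Circ, 0 < side l ξ.1 → 0 < side m ξ.1 := by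
  constructor
  · intro h ξ hξ
    obtain ⟨h1, h2, h3, h4, h5⟩ := (nest_iff_ends l m).1 h
    exact (mul_pos hξ (GNest_pos_of_ends h1 h2 h3 h4 h5)).trans_le (GNest_le h1 h2 ξ.fut)
  · intro h p hp
    have key : ∀ w : V, B w w = 1 → B w p.1 = 0 → B w (nrm l) = 0 →
        0 < side m p.1 + side m w := by
      intro w h1 h2 h3
      have h2' : B p.1 w = 0 := by rw [B_comm, h2]
      have hn : B (p.1 + w) (p.1 + w) = 0 := by
        simp only [B_add_left, B_add_right, p.2.1, h1, h2, h2']; norm_num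
      have hf : Fut (p.1 + w) := fut_of_B_neg hn.le p (by
        simp only [B_add_right, p.2.1, h2']; norm_num)
      have e : ∀ k : Geo, side k (toCirc (p.1 + w)).1 =
          ((p.1 + w) 2)⁻¹ * (side k p.1 + side k w) := fun k => by
        rw [toCirc_val hn hf.2.ne']
        simp only [side, B_add_right, B_smul_right]
      have h4 : side l w = 0 := by rw [side, B_comm, h3]
      have hi : 0 < ((p.1 + w) 2)⁻¹ := inv_pos.2 hf.2
      have := h (toCirc (p.1 + w)) (by rw [e, h4, add_zero]; exact mul_pos hi hp)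
      rw [e] at this
      exact (pos_iff_pos_of_mul_pos this).1 hi
    have hd : 0 < B (cr p.1 (nrm l)) (cr p.1 (nrm l)) := by
      rw [B_cr_cr, p.2.1, B_nrm_nrm, B_comm p.1]
      linarith [mul_self_nonneg (B (nrm l) p.1)]
    obtain ⟨d, hdd⟩ : ∃ d, d = B (cr p.1 (nrm l)) (cr p.1 (nrm l)) := ⟨_, rfl⟩
    rw [← hdd] at hd
    have hu : B ((√d)⁻¹ • cr p.1 (nrm l)) ((√d)⁻¹ • cr p.1 (nrm l)) = 1 := by
      rw [B_smul_left, B_smul_right, ← hdd, ← mul_assoc, ← mul_inv, mul_self_sqrt hd.le,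
        inv_mul_cancel₀ hd.ne']
    have k1 := key _ hu (by simp) (by simp)
    have k2 := key (-((√d)⁻¹ • cr p.1 (nrm l))) (by rw [B_neg_left, B_neg_right, neg_neg, hu])
      (by simp) (by simp)
    have e : side m (-((√d)⁻¹ • cr p.1 (nrm l))) = -side m ((√d)⁻¹ • cr p.1 (nrm l)) :=
      B_neg_right _ _
    linarith only [k1, k2, e]
theorem Nest.antisymm {l m : Geo} (h1 : Nest l m) (h2 : Nest m l) : l = m := by
  obtain ⟨a1, a2, -, -, a5⟩ := (nest_iff_ends l m).1 h1
  obtain ⟨-, -, b3, b4, -⟩ := (nest_iff_ends m l).1 h2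
  exact (GNest_eq_or (le_antisymm b3 a1) (le_antisymm b4 a2)).resolve_right a5
theorem Nest.rev {l m : Geo} (h : Nest l m) : Nest m.rev l.rev := by
  exact GNest_rev h
@[simp] theorem nest_smul (g : Isom) {l m : Geo} : Nest (g • l) (g • m) ↔ Nest l m := by
  constructor
  · intro h p hp
    have := h (g • p) (by rwa [side_smul_pt])
    rwa [side_smul_pt] at this
  · intro h p hp
    rw [← smul_inv_smul g p, side_smul_pt] at hp ⊢
    exact h _ hp
theorem Nest.not_cross {l m : Geo} (h : Nest l m) : ¬ Cross l m := by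
  obtain ⟨-, -, a3, a4, -⟩ := (nest_iff_ends l m).1 h
  exact not_lt.2 (mul_nonneg_of_nonpos_of_nonpos a3 a4)
theorem Nest.nonneg {l m : Geo} (h : Nest l m) {v : V} (hv : Fut v) (h0 : 0 ≤ side l v) :
    0 ≤ side m v := by
  exact GNest_nonneg h hv h0
theorem Nest.pos_of_ne {l m : Geo} (h : Nest l m) (hne : l ≠ m) {p : Pt} (h0 : 0 ≤ side l p.1) :
    0 < side m p.1 := by
  rcases h0.lt_or_eq with h0 | h0
  · exact h p h0
  obtain ⟨a1, a2, -, -, a5⟩ := (nest_iff_ends l m).1 h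
  have hc := GNest_coord l m p.1
  rw [← h0, zero_mul, add_zero] at hc
  have b1 : 0 < B p.1 l.tgt.1 / B l.src.1 l.tgt.1 :=
    div_pos_of_neg_of_neg (B_pt_circ_neg p _) l.B_neg
  have b2 : 0 < B p.1 l.src.1 / B l.src.1 l.tgt.1 :=
    div_pos_of_neg_of_neg (B_pt_circ_neg p _) l.B_neg
  have c1 := mul_nonneg b1.le a1
  have c2 := mul_nonneg b2.le a2
  by_contra hn
  have z1 : side m l.src.1 = 0 := by
    by_contra hz
    linarith only [hc, c2, hn, b1, a1, hz, mul_pos b1 (lt_of_le_of_ne a1 (Ne.symm hz))]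
  have z2 : side m l.tgt.1 = 0 := by
    by_contra hz
    linarith only [hc, c1, hn, b2, a2, hz, mul_pos b2 (lt_of_le_of_ne a2 (Ne.symm hz))]
  exact (GNest_eq_or z1 z2).elim hne a5
theorem nest_cases {l m : Geo} (h : ¬ Cross l m) :
    Nest l m ∨ Nest m l ∨ Nest l m.rev ∨ Nest l.rev m := by
  have h' : 0 ≤ side m l.src.1 * side m l.tgt.1 := not_lt.1 fun hc => h (Cross.symm hc)
  rcases (GNest_ne_zero h').lt_or_gt with hc | hc <;>
    rcases mul_nonneg_iff.1 h' with ⟨a1, a2⟩ | ⟨a1, a2⟩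
  · refine Or.inr (Or.inr (Or.inr (GNest_of_pos a2 a1 ?_)))
    rw [nrm_rev, B_neg_right]; linarith
  · refine Or.inr (Or.inr (Or.inl (GNest_of_pos ?_ ?_ ?_)))
    · rw [side_rev]; linarith
    · rw [side_rev]; linarith
    · rw [nrm_rev, B_neg_left]; linarith
  · exact Or.inl (GNest_of_pos a1 a2 hc)
  · refine Or.inr (Or.inl (GNest_rev (l := l.rev) (m := m.rev) (GNest_of_pos ?_ ?_ ?_)))
    · rw [side_rev, Geo.src_rev]; linarith
    · rw [side_rev, Geo.tgt_rev]; linarith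
    · rw [nrm_rev, nrm_rev, B_neg_left, B_neg_right]; linarith
/-- Two non-crossing lines with a point on the left of both and a point on the right of both. -/
theorem nest_or_nest {l m : Geo} (h : ¬ Cross l m) {u v : V} (hu : Fut u) (hv : Fut v)
    (h1 : 0 < side l u) (h2 : 0 < side m u) (h3 : side l v < 0) (h4 : side m v < 0) :
    Nest l m ∨ Nest m l := by
  rcases nest_cases h with h0 | h0 | h0 | h0
  · exact Or.inl h0
  · exact Or.inr h0
  · have := h0.nonneg hu h1.le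
    rw [side_rev] at this
    linarith
  · have := h0.nonneg hv (by rw [side_rev]; linarith)
    linarith
/-- Order of nested lines along a transversal going from right to left. -/
theorem nest_iff_xp {A l m : Geo} (h : ¬ Cross l m) (hl : 0 < side l A.tgt.1)
    (hl' : side l A.src.1 < 0) (hm : 0 < side m A.tgt.1) (hm' : side m A.src.1 < 0) :
    Nest l m ↔ xp A m ≤ xp A l := by
  have cl : Cross A l := Cross.symm (mul_neg_of_neg_of_pos hl' hl)
  have cm : Cross A m := Cross.symm (mul_neg_of_neg_of_pos hm' hm)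
  have el : ∀ t, 0 < side l (pt A t).1 ↔ xp A l < t := fun t => by
    rw [← side_pt_mul_pos_iff cl t, mul_pos_iff_of_pos_right hl]
  have em : ∀ t, 0 < side m (pt A t).1 ↔ xp A m < t := fun t => by
    rw [← side_pt_mul_pos_iff cm t, mul_pos_iff_of_pos_right hm]
  constructor
  · intro hn
    exact le_of_forall_gt_imp_ge_of_dense fun t ht => ((em t).1 (hn _ ((el t).2 ht))).le
  · intro hx
    rcases nest_or_nest h A.tgt.fut A.src.fut hl hm hl' hm' with h0 | h0
    · exact h0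
    · by_cases e : m = l
      · rw [e]; exact Nest.refl l
      · have := h0.pos_of_ne e (p := pt A (xp A m)) ((side_pt_eq_zero_iff cm _).2 rfl).ge
        exact absurd ((el _).1 this) (not_lt.2 hx)

end HRT
end

-- merged part: Pool.Agent.Work.MP_35beee_gt.GIso
section
/-!
Classification of isometries: elliptic, parabolic, hyperbolic; axes and translation lengths.

Plan. `det (g - 1) = 0` (as `gᵀ J g = J`, `det g = 1`, odd dimension), so `g` fixes a vector
`w ≠ 0`. Timelike `w`: a fixed point. Null `w`: a fixed boundary point with multiplier one.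
Spacelike `w = nrm l`: `g • l = l` by `nrm_smul`, `nrm_injective`. If `g • l = l` then `g` acts by
`fermi l t r ↦ fermi l (t + sh g l) r`, and `cosh_dist_fermi` gives the displacement, hence
`tl g = |sh g l|`. If `g` fixes exactly one boundary point `ξ` and no point, complete `ξ` to a
frame `ξ, η, n` (`expand` for the line from `ξ` to `η`): `g n = n + c ξ`,
`g η = η + c' n + (c²/2..) ξ`, a one-parameter unipotent group.
-/

namespace HRT

open Matrix Set Filter Topology Real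

/-- Hyperbolic. -/
def Hyp (g : Isom) : Prop := 0 < tl g

/-- No fixed point in the plane. -/
def NoFix (g : Isom) : Prop := ∀ p : Pt, g • p ≠ p

/-- Parabolic. -/
def Par (g : Isom) : Prop := NoFix g ∧ tl g = 0

theorem Hyp.noFix {g : Isom} (h : Hyp g) : NoFix g := by
  intro p hp
  have h1 := tl_le g p
  rw [hp, dist_self] at h1
  exact absurd h (not_lt.2 h1)

theorem NoFix.hyp_or_par {g : Isom} (h : NoFix g) : Hyp g ∨ Par g := by
  exact (tl_nonneg g).lt_or_eq.imp id fun h0 => ⟨h, h0.symm⟩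

theorem Hyp.not_par {g : Isom} (h : Hyp g) : ¬ Par g := fun h' => h.ne' h'.2

theorem tl_eq_zero_of_fix {g : Isom} {p : Pt} (h : g • p = p) : tl g = 0 := by
  have h1 := tl_le g p
  rw [h, dist_self] at h1
  exact h1.antisymm (tl_nonneg g)

theorem noFix_of_fix_circ {g : Isom} (hg : g ≠ 1) {ξ : Circ} (h : g • ξ = ξ) : NoFix g :=
  fun _ hp => hg (eq_one_of_fix_pt_circ hp h)

theorem tl_of_smul_eq {g : Isom} {l : Geo} (h : g • l = l) : tl g = |sh g l| := by
  refine le_antisymm ((tl_le g (pt l 0)).trans_eq ?_) ?_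
  · rw [smul_pt, h, dist_pt, zero_add, zero_sub, abs_neg]
  · have : Nonempty Pt := ⟨o⟩
    rw [tl_eq]
    refine le_ciInf fun p => le_trans (le_of_eq ?_) (abs_fer_sub_le l p (g • p))
    have h1 := fer_smul_pt g l p
    rw [h] at h1
    rw [h1, sub_add_cancel_left, abs_neg]

theorem eq_one_of_sh_eq_zero {g : Isom} {l : Geo} (h : g • l = l) (h0 : sh g l = 0) : g = 1 := by
  refine eq_one_of_fix_pt_circ (p := pt l 0) ?_ (congrArg Geo.src h)
  rw [smul_pt, h, h0, add_zero]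

theorem sh_mul (g h : Isom) (l : Geo) : sh (g * h) l = sh g (h • l) + sh h l := by
  rw [sh, mul_smul, mul_smul, fer_smul_pt, add_comm]
  rfl

theorem exists_fix_of_smul_eq_rev {g : Isom} {l : Geo} (h : g • l = l.rev) :
    ∃ p : Pt, g • p = p := by
  refine ⟨pt l (-sh g l / 2), ?_⟩
  rw [smul_pt, h, pt_rev]
  congr 1
  ring

theorem GIso_vec (g : Isom) : ∃ w : V, w ≠ 0 ∧ lin g w = w := by
  have h0 := congrFun (lin_cr g ![0, 1, 0] ![0, 0, 1]) 0
  have h1 := congrFun (lin_cr g ![0, 0, 1] ![1, 0, 0]) 1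
  have h2 := congrFun (lin_cr g ![1, 0, 0] ![0, 1, 0]) 2
  have h3 := g.1.det_coe
  obtain ⟨w, hw, e⟩ := (Matrix.exists_mulVec_eq_zero_iff
    (M := (g.1 : Matrix (Fin 3) (Fin 3) ℝ) - 1)).2 (by
      simp [lin, slAct, cr, mulVec, dotProduct, Fin.sum_univ_three] at h0 h1 h2
      rw [det_fin_three] at h3 ⊢
      simp
      linear_combination h3 + h0 + h1 - h2)
  rw [sub_mulVec, one_mulVec, sub_eq_zero] at e
  exact ⟨w, hw, e⟩

theorem GIso_tri (g : Isom) :
    (∃ p : Pt, g • p = p) ∨ (∃ ξ : Circ, lin g ξ.1 = ξ.1) ∨ ∃ l : Geo, g • l = l := by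
  obtain ⟨w, hw, e⟩ := GIso_vec g
  have h2 : B w w ≤ 0 → w 2 ≠ 0 := fun h h2 => hw (by
    simp only [B, h2] at h
    exact V_ext (by rw [Pi.zero_apply]; nlinarith [mul_self_nonneg (w 0), mul_self_nonneg (w 1)])
      (by rw [Pi.zero_apply]; nlinarith [mul_self_nonneg (w 0), mul_self_nonneg (w 1)]) h2)
  rcases lt_trichotomy (B w w) 0 with h | h | h
  · rcases lt_or_gt_of_ne (h2 h.le) with h3 | h3
    · refine Or.inl ⟨toPt (-w), Subtype.ext ?_⟩
      rw [smul_pt_val, toPt_val (by simpa using h) (by simpa using h3), lin_smul, lin_neg, e]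
    · refine Or.inl ⟨toPt w, Subtype.ext ?_⟩
      rw [smul_pt_val, toPt_val h h3, lin_smul, e]
  · refine Or.inr (Or.inl ⟨toCirc w, ?_⟩)
    rw [toCirc_val h (h2 h.le), lin_smul, e]
  · obtain ⟨l, hl⟩ := exists_nrm_eq (n := (√(B w w))⁻¹ • w) (by
      rw [B_smul_left, B_smul_right, ← mul_assoc, ← mul_inv, Real.mul_self_sqrt h.le,
        inv_mul_cancel₀ h.ne'])
    refine Or.inr (Or.inr ⟨l, nrm_injective ?_⟩)
    rw [nrm_smul, hl, lin_smul, e]

theorem GIso_null {g : Isom} {ξ : Circ} (h : lin g ξ.1 = ξ.1) : tl g = 0 := by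
  obtain ⟨l, -, -, rfl⟩ := exists_line_pt_circ o ξ
  have hB := l.B_neg
  have h1 : B l.tgt.1 (lin g l.src.1) = B l.src.1 l.tgt.1 := by
    conv_lhs => rw [← h, B_lin, B_comm]
  have key : ∀ t : ℝ, cosh (tl g) ≤
      1 + B l.src.1 (lin g l.src.1) / (2 * B l.src.1 l.tgt.1) * exp (-t) ^ 2 := fun t => by
    refine (cosh_le_cosh.2 (abs_le_abs_of_nonneg (tl_nonneg g) (tl_le g (pt l t)))).trans_eq ?_
    have h2 : (pt l t).1 =
        (√(-2 * B l.src.1 l.tgt.1))⁻¹ • (exp (-t) • l.src.1 + exp t • l.tgt.1) := rfl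
    have h3 : exp t * exp (-t) = 1 := by rw [← exp_add, add_neg_cancel, exp_zero]
    rw [cosh_dist, smul_pt_val, h2, lin_smul, B_smul_left, B_smul_right, ← mul_assoc, ← mul_inv,
      Real.mul_self_sqrt (by linarith only [hB]), lin_add, lin_smul, lin_smul, h]
    simp only [B_add_left, B_add_right, B_smul_left, B_smul_right, h1, l.tgt.2.1]
    have h4 := hB.ne
    field_simp
    linear_combination 2 * B l.src.1 l.tgt.1 * h3
  have h2 := ge_of_tendsto' (((tendsto_exp_neg_atTop_nhds_zero.pow 2).const_mul _).const_add 1) key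
  by_contra h3
  have h4 := one_lt_cosh.2 h3
  simp at h2
  linarith only [h4, h2]

theorem Hyp.exists_axis {g : Isom} (h : Hyp g) : ∃ l : Geo, g • l = l ∧ sh g l = tl g := by
  rcases GIso_tri g with ⟨p, hp⟩ | ⟨ξ, hξ⟩ | ⟨l, hl⟩
  · exact absurd hp (h.noFix p)
  · exact absurd (GIso_null hξ) h.ne'
  · rcases le_total 0 (sh g l) with h0 | h0
    · exact ⟨l, hl, by rw [tl_of_smul_eq hl, abs_of_nonneg h0]⟩
    · have h1 : g • l.rev = l.rev := by rw [Geo.smul_rev, hl]
      have h2 := smul_pt g l.rev 0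
      rw [h1, pt_rev, pt_rev, neg_zero, smul_pt, hl] at h2
      have h3 := congrArg (fun p : Pt => fer l p.1) h2
      simp only [fer_pt] at h3
      exact ⟨l.rev, h1, by rw [tl_of_smul_eq hl, abs_of_nonpos h0]; linarith⟩

theorem Par.exists_fix {g : Isom} (h : Par g) :
    ∃ ξ : Circ, lin g ξ.1 = ξ.1 ∧ ∀ η : Circ, g • η = η ↔ η = ξ := by
  have key : ∀ l : Geo, g • l ≠ l := fun l hl => h.1 o (by
    rw [eq_one_of_sh_eq_zero hl (abs_eq_zero.1 ((tl_of_smul_eq hl).symm.trans h.2)), one_smul])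
  rcases GIso_tri g with ⟨p, hp⟩ | ⟨ξ, hξ⟩ | ⟨l, hl⟩
  · exact absurd hp (h.1 p)
  · have h1 : g • ξ = ξ := Subtype.ext (by rw [smul_circ_val, hξ, ξ.2.2, inv_one, one_smul])
    exact ⟨ξ, hξ, fun η => ⟨fun hη => by_contra fun hne =>
      key (Geo.mk' η ξ hne) (Geo.ext hη h1), fun hη => hη ▸ h1⟩⟩
  · exact absurd hl (key l)

end HRT
end
end

-- merged part: Pool.Agent.Work.MP_35beee_gt.GAx
section
/-!
Axes and parabolic fixed points.
See the header of `GIso` for the plan.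
-/

namespace HRT

open Matrix Set Filter Topology Real

instance : Nonempty Geo := ⟨(exists_line_pt_circ o (toCirc 0)).choose⟩

open Classical in
/-- The oriented axis of a hyperbolic isometry. -/
noncomputable def ax (g : Isom) : Geo :=
  if h : Hyp g then h.exists_axis.choose else Classical.arbitrary Geo

open Classical in
/-- The fixed point of a parabolic isometry. -/
noncomputable def pfix (g : Isom) : Circ := if h : Par g then h.exists_fix.choose else toCirc 0

section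
variable {g : Isom}

theorem Hyp.smul_ax (h : Hyp g) : g • ax g = ax g := by
  rw [ax, dif_pos h]; exact h.exists_axis.choose_spec.1
theorem Hyp.sh_ax (h : Hyp g) : sh g (ax g) = tl g := by
  rw [ax, dif_pos h]; exact h.exists_axis.choose_spec.2
theorem Par.lin_pfix (h : Par g) : lin g (pfix g).1 = (pfix g).1 := by
  rw [pfix, dif_pos h]; exact h.exists_fix.choose_spec.1
theorem Par.fix_iff (h : Par g) (η : Circ) : g • η = η ↔ η = pfix g := by
  rw [pfix, dif_pos h]; exact h.exists_fix.choose_spec.2 η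

theorem GAx_ne_one (h : Hyp g) : g ≠ 1 := fun h1 => h.noFix o (by rw [h1, one_smul])

theorem GAx_fix {l : Geo} (h1 : g ≠ 1) (h : g • l = l) (ξ : Circ) :
    g • ξ = ξ ↔ ξ = l.src ∨ ξ = l.tgt := by
  have hs : g • l.src = l.src := congrArg Geo.src h
  have ht : g • l.tgt = l.tgt := congrArg Geo.tgt h
  constructor
  · intro hξ
    by_contra hn
    push Not at hn
    exact h1 (eq_one_of_fix_three l.ne hn.2.symm hn.1.symm hs ht hξ)
  · rintro (rfl | rfl)
    exacts [hs, ht]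

theorem GAx_eq_or_rev {l m : Geo} (h1 : g ≠ 1) (hl : g • l = l) (hm : g • m = m) :
    m = l ∨ m = l.rev := by
  have hs := (GAx_fix h1 hl m.src).mp (congrArg Geo.src hm)
  have ht := (GAx_fix h1 hl m.tgt).mp (congrArg Geo.tgt hm)
  have hne := m.ne
  rcases hs with hs | hs <;> rcases ht with ht | ht
  · exact absurd (hs.trans ht.symm) hne
  · exact Or.inl (Geo.ext hs ht)
  · exact Or.inr (Geo.ext hs ht)
  · exact absurd (hs.trans ht.symm) hne

theorem GAx_sh_one (l : Geo) : sh 1 l = 0 := by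
  rw [sh, one_smul, one_smul, fer_pt]

theorem GAx_sh_rev (g : Isom) (l : Geo) : sh g l.rev = -sh g l := by
  have h1 := smul_pt g l.rev 0
  rw [pt_rev, neg_zero, smul_pt, Geo.smul_rev, pt_rev] at h1
  have h2 := congrArg (fun p : Pt => fer (g • l) p.1) h1
  simp only [fer_pt] at h2
  linarith only [h2]

theorem GAx_sh_inv (g : Isom) (l : Geo) : sh g⁻¹ (g • l) = -sh g l := by
  have h := sh_mul g⁻¹ g l
  rw [inv_mul_cancel, GAx_sh_one] at h
  linarith only [h]

theorem ax_eq_of_sh_pos {l : Geo} (h : g • l = l) (h0 : 0 < sh g l) : Hyp g ∧ ax g = l := by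
  have hg : Hyp g := by
    rw [Hyp, tl_of_smul_eq h]
    exact abs_pos.mpr h0.ne'
  refine ⟨hg, (GAx_eq_or_rev (GAx_ne_one hg) h hg.smul_ax).resolve_right fun h1 => ?_⟩
  have h2 := hg.sh_ax
  rw [h1, GAx_sh_rev] at h2
  have h3 : 0 < tl g := hg
  linarith only [h0, h2, h3]
theorem Hyp.fix_iff (h : Hyp g) (ξ : Circ) : g • ξ = ξ ↔ ξ = (ax g).src ∨ ξ = (ax g).tgt := by
  exact GAx_fix (GAx_ne_one h) h.smul_ax ξ
theorem hyp_of_smul_eq {l : Geo} (h : g • l = l) (h1 : g ≠ 1) :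
    Hyp g ∧ (ax g = l ∨ ax g = l.rev) := by
  have hg : Hyp g := by
    rw [Hyp, tl_of_smul_eq h]
    exact abs_pos.mpr fun h0 => h1 (eq_one_of_sh_eq_zero h h0)
  exact ⟨hg, GAx_eq_or_rev h1 h hg.smul_ax⟩
theorem Hyp.smul_pt_ax (h : Hyp g) (t : ℝ) : g • pt (ax g) t = pt (ax g) (t + tl g) := by
  rw [smul_pt, h.smul_ax, h.sh_ax]
theorem Hyp.smul_fermi_ax (h : Hyp g) (t r : ℝ) :
    g • fermi (ax g) t r = fermi (ax g) (t + tl g) r := by
  rw [smul_fermi, h.smul_ax, h.sh_ax]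
theorem Hyp.side_lin (h : Hyp g) (v : V) : side (ax g) (lin g v) = side (ax g) v := by
  have h1 := HRT.side_lin g (ax g) v
  rwa [h.smul_ax] at h1
theorem GAx_lin_ends (h : Hyp g) : lin g (ax g).tgt.1 = exp (tl g) • (ax g).tgt.1 ∧
    lin g (ax g).src.1 = exp (-tl g) • (ax g).src.1 := by
  have hs := lin_circ_val g (ax g).src
  have ht := lin_circ_val g (ax g).tgt
  rw [(h.fix_iff _).mpr (Or.inl rfl)] at hs
  rw [(h.fix_iff _).mpr (Or.inr rfl)] at ht
  have h1 : lin g ((√(-2 * B (ax g).src.1 (ax g).tgt.1))⁻¹ •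
      (exp (-0) • (ax g).src.1 + exp 0 • (ax g).tgt.1)) =
      (√(-2 * B (ax g).src.1 (ax g).tgt.1))⁻¹ •
        (exp (-(0 + tl g)) • (ax g).src.1 + exp (0 + tl g) • (ax g).tgt.1) :=
    congrArg Subtype.val (h.smul_pt_ax 0)
  have hB := (ax g).B_neg
  have hk : (√(-2 * B (ax g).src.1 (ax g).tgt.1))⁻¹ ≠ 0 :=
    inv_ne_zero (Real.sqrt_pos.mpr (by linarith only [hB])).ne'
  rw [lin_smul, lin_add, lin_smul, lin_smul, hs, ht, neg_zero, exp_zero, one_smul, one_smul,
    zero_add] at h1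
  have h2 := smul_right_injective V hk h1
  have h3 := congrArg (fun v => B (ax g).src.1 v) h2
  have h4 := congrArg (fun v => B v (ax g).tgt.1) h2
  simp only [B_add_left, B_add_right, B_smul_left, B_smul_right, (ax g).src.2.1, (ax g).tgt.2.1,
    mul_zero, zero_add, add_zero] at h3 h4
  rw [ht, hs, mul_right_cancel₀ hB.ne h3, mul_right_cancel₀ hB.ne h4]
  exact ⟨rfl, rfl⟩

theorem Hyp.lin_tgt (h : Hyp g) : lin g (ax g).tgt.1 = exp (tl g) • (ax g).tgt.1 := by
  exact (GAx_lin_ends h).1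
theorem Hyp.lin_src (h : Hyp g) : lin g (ax g).src.1 = exp (-tl g) • (ax g).src.1 := by
  exact (GAx_lin_ends h).2
theorem Hyp.sinh_dist (h : Hyp g) (p : Pt) :
    sinh (dist p (g • p) / 2) = √(1 + side (ax g) p.1 ^ 2) * sinh (tl g / 2) := by
  have h1 : cosh (dist p (g • p)) =
      (1 + side (ax g) p.1 ^ 2) * cosh (tl g) - side (ax g) p.1 ^ 2 := by
    have h2 := cosh_dist_fermi (ax g) (fer (ax g) p.1) (arsinh (side (ax g) p.1))
      (fer (ax g) p.1 + tl g) (arsinh (side (ax g) p.1))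
    rw [← h.smul_fermi_ax, fermi_fer, sinh_arsinh, cosh_arsinh, Real.mul_self_sqrt (by positivity),
      sub_add_cancel_left, cosh_neg] at h2
    rw [h2]
    ring
  have h3 : ∀ x : ℝ, cosh x = 1 + 2 * sinh (x / 2) ^ 2 := fun x => by
    have := cosh_two_mul (x / 2)
    rw [mul_div_cancel₀ _ two_ne_zero, cosh_sq] at this
    linarith only [this]
  rw [h3 (dist p (g • p)), h3 (tl g)] at h1
  have h4 : 0 ≤ sinh (dist p (g • p) / 2) := sinh_nonneg_iff.mpr (by positivity)
  have h5 : 0 ≤ sinh (tl g / 2) := sinh_nonneg_iff.mpr (by linarith only [tl_nonneg g])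
  refine (sq_eq_sq₀ h4 (by positivity)).mp ?_
  rw [mul_pow, Real.sq_sqrt (by positivity)]
  linarith only [h1]
theorem Hyp.tl_lt_dist (h : Hyp g) {p : Pt} (hp : side (ax g) p.1 ≠ 0) :
    tl g < dist p (g • p) := by
  have h1 := h.sinh_dist p
  have h0 : 0 < tl g := h
  have h2 : 0 < sinh (tl g / 2) := sinh_pos_iff.mpr (by linarith only [h0])
  have h3 : 1 < √(1 + side (ax g) p.1 ^ 2) :=
    Real.lt_sqrt_of_sq_lt (by have := sq_pos_of_ne_zero hp; linarith only [this])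
  have h4 : sinh (tl g / 2) < sinh (dist p (g • p) / 2) := by
    rw [h1]
    exact lt_mul_of_one_lt_left h2 h3
  linarith only [h4, sinh_lt_sinh.mp h4]
theorem Hyp.dist_ax (h : Hyp g) (t : ℝ) : dist (pt (ax g) t) (g • pt (ax g) t) = tl g := by
  rw [h.smul_pt_ax, dist_pt, sub_add_cancel_left, abs_neg, abs_of_nonneg (tl_nonneg g)]
theorem tl_inv (g : Isom) : tl g⁻¹ = tl g := by
  rw [tl_eq, tl_eq]
  congr 1
  funext p
  rw [← dist_smul g, smul_inv_smul, dist_comm]
theorem Hyp.inv (h : Hyp g) : Hyp g⁻¹ := by rw [Hyp, tl_inv]; exact h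
theorem Hyp.ax_inv (h : Hyp g) : ax g⁻¹ = (ax g).rev := by
  refine (ax_eq_of_sh_pos ?_ ?_).2
  · rw [Geo.smul_rev, inv_smul_eq_iff.mpr h.smul_ax.symm]
  · have h1 := GAx_sh_inv g (ax g)
    rw [h.smul_ax] at h1
    rw [GAx_sh_rev, h1, neg_neg, h.sh_ax]
    exact h
theorem Hyp.conj (h : Hyp g) (A : Isom) : Hyp (A * g * A⁻¹) := by rw [Hyp, tl_conj]; exact h
theorem Hyp.ax_conj (h : Hyp g) (A : Isom) : ax (A * g * A⁻¹) = A • ax g := by
  refine (ax_eq_of_sh_pos ?_ ?_).2
  · rw [mul_smul, mul_smul, inv_smul_smul, h.smul_ax]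
  · rw [sh_mul, sh_mul, inv_smul_smul, h.smul_ax, GAx_sh_inv, h.sh_ax]
    have h0 : 0 < tl g := h
    linarith
theorem Hyp.zpow_smul_ax (h : Hyp g) (n : ℤ) : g ^ n • ax g = ax g := by
  exact (MulAction.stabilizer Isom (ax g)).zpow_mem h.smul_ax n
theorem Hyp.sh_zpow (h : Hyp g) (n : ℤ) : sh (g ^ n) (ax g) = n * tl g := by
  induction n using Int.induction_on with
  | zero => simp [GAx_sh_one]
  | succ n ih =>
    rw [_root_.zpow_add_one, sh_mul, h.smul_ax, ih, h.sh_ax]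
    push_cast
    ring
  | pred n ih =>
    have h1 := GAx_sh_inv g (ax g)
    rw [h.smul_ax] at h1
    rw [_root_.zpow_sub_one, sh_mul, inv_smul_eq_iff.mpr h.smul_ax.symm, ih, h1, h.sh_ax]
    push_cast
    ring
theorem Hyp.tl_zpow (h : Hyp g) (n : ℤ) : tl (g ^ n) = |(n : ℝ)| * tl g := by
  rw [tl_of_smul_eq (h.zpow_smul_ax n), h.sh_zpow, abs_mul, abs_of_nonneg (tl_nonneg g)]
theorem Hyp.pow (h : Hyp g) {n : ℕ} (hn : n ≠ 0) :
    Hyp (g ^ n) ∧ ax (g ^ n) = ax g ∧ tl (g ^ n) = n * tl g := by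
  have h1 := h.zpow_smul_ax n
  have h2 := h.sh_zpow n
  have h3 := h.tl_zpow n
  rw [zpow_natCast] at h1 h2 h3
  rw [Int.cast_natCast] at h2 h3
  rw [Nat.abs_cast] at h3
  have h4 := ax_eq_of_sh_pos h1 (by
    rw [h2]
    exact mul_pos (Nat.cast_pos.mpr (Nat.pos_of_ne_zero hn)) h)
  exact ⟨h4.1, h4.2, h3⟩
theorem GAx_hyp_of_zpow {n : ℤ} (h : Hyp (g ^ n)) : Hyp g := by
  have h1 := h.ax_conj g
  rw [show g * g ^ n * g⁻¹ = g ^ n by group] at h1
  refine (hyp_of_smul_eq h1.symm fun h2 => GAx_ne_one h ?_).1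
  rw [h2, _root_.one_zpow]

theorem hyp_of_pow {n : ℕ} (h : Hyp (g ^ n)) : Hyp g := by
  rw [← zpow_natCast] at h
  exact GAx_hyp_of_zpow h
theorem Par.inv (h : Par g) : Par g⁻¹ ∧ pfix g⁻¹ = pfix g := by
  have h1 : Par g⁻¹ := ⟨fun p hp => h.1 p (inv_smul_eq_iff.mp hp).symm, by rw [tl_inv, h.2]⟩
  exact ⟨h1, ((h1.fix_iff _).mp (inv_smul_eq_iff.mpr ((h.fix_iff _).mpr rfl).symm)).symm⟩
theorem Par.conj (h : Par g) (A : Isom) :
    Par (A * g * A⁻¹) ∧ pfix (A * g * A⁻¹) = A • pfix g := by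
  have h1 : Par (A * g * A⁻¹) := by
    refine ⟨fun p hp => h.1 (A⁻¹ • p) ?_, by rw [tl_conj, h.2]⟩
    rw [mul_smul, mul_smul] at hp
    exact eq_inv_smul_iff.mpr hp
  refine ⟨h1, ((h1.fix_iff _).mp ?_).symm⟩
  rw [mul_smul, mul_smul, inv_smul_smul, (h.fix_iff _).mpr rfl]
/-- The unipotent one-parameter group attached to a null vector and a unit normal. -/
noncomputable def GAx_U (a n : V) (t : ℝ) (v : V) : V :=
  v + (t * B v n - t ^ 2 / 2 * B v a) • a - (t * B v a) • n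

theorem GAx_U_add {a n : V} (haa : B a a = 0) (hna : B n a = 0) (hnn : B n n = 1) (s t : ℝ)
    (v : V) : GAx_U a n s (GAx_U a n t v) = GAx_U a n (s + t) v := by
  have han : B a n = 0 := by rw [B_comm, hna]
  simp only [GAx_U, B_add_left, B_sub_left, B_smul_left, haa, hna, hnn, han]
  module

theorem GAx_unip {ξ : Circ} (h : lin g ξ.1 = ξ.1) :
    ∃ (n : V) (c : ℝ), B n ξ.1 = 0 ∧ B n n = 1 ∧ ∀ v, lin g v = GAx_U ξ.1 n c v := by
  obtain ⟨l, -, -, hl⟩ := exists_line_pt_circ o ξ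
  have hs : l.rev.src = ξ := hl
  generalize l.rev = m at hs
  subst hs
  have hex := expand m
  have hβ := m.B_neg
  have haa := m.src.2.1
  have hbb := m.tgt.2.1
  have hna : B (nrm m) m.src.1 = 0 := side_src m
  have hnb : B (nrm m) m.tgt.1 = 0 := side_tgt m
  have hnn := B_nrm_nrm m
  have hcr : cr (nrm m) m.src.1 = -m.src.1 := by
    have h1 := cr_cr m.src.1 m.tgt.1 m.src.1
    rw [haa, zero_smul, sub_zero, B_comm] at h1
    have h2 : cr (nrm m) m.src.1 =
        (-B m.src.1 m.tgt.1)⁻¹ • cr (cr m.src.1 m.tgt.1) m.src.1 := by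
      unfold nrm
      apply V_ext <;> simp only [cr_0, cr_1, cr_2, Pi.smul_apply, smul_eq_mul] <;> ring
    rw [h2, h1, smul_smul, inv_neg, neg_mul, inv_mul_cancel₀ hβ.ne, neg_smul, one_smul]
  simp only [side] at hex
  generalize nrm m = n at *
  generalize m.src.1 = a at *
  generalize m.tgt.1 = b at *
  have han : B a n = 0 := by rw [B_comm, hna]
  have hbn : B b n = 0 := by rw [B_comm, hnb]
  have hba : B b a = B a b := B_comm _ _
  have hB : ∀ v, B (lin g v) a = B v a := fun v => by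
    conv_lhs => rw [← h, B_lin]
  obtain ⟨c, s, hn⟩ : ∃ c s : ℝ, lin g n = c • a + s • n := by
    have h1 := hex (lin g n)
    rw [hB, hna, zero_div, zero_smul, add_zero] at h1
    exact ⟨_, _, h1⟩
  have hs : s = 1 := by
    have h1 := lin_cr g n a
    have h2 : cr (c • a + s • n) a = s • cr n a := by
      apply V_ext <;> simp only [cr_0, cr_1, cr_2, Pi.smul_apply, Pi.add_apply, smul_eq_mul] <;> ring
    rw [hcr, lin_neg, h, hn, h2, hcr] at h1
    have h3 := congrArg (fun v => B v b) h1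
    simp only [B_neg_left, B_smul_left] at h3
    exact mul_right_cancel₀ hβ.ne (by linarith only [h3])
  rw [hs, one_smul] at hn
  obtain ⟨x, z, hb⟩ : ∃ x z : ℝ, lin g b = x • a + b + z • n := by
    have h1 := hex (lin g b)
    rw [hB, hba, div_self hβ.ne, one_smul] at h1
    exact ⟨_, _, h1⟩
  have hz : z = -(c * B a b) := by
    have h1 := B_lin g n b
    rw [hn, hb] at h1
    simp only [B_add_left, B_add_right, B_smul_left, B_smul_right, haa, hna, hnn, han, hnb] at h1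
    linarith only [h1]
  have hx : x = -(c ^ 2 / 2 * B a b) := by
    have h1 := B_lin g b b
    rw [hb, hz] at h1
    simp only [B_add_left, B_add_right, B_smul_left, B_smul_right, haa, hna, hnn, han, hnb, hbn,
      hbb, hba] at h1
    exact mul_right_cancel₀ hβ.ne (by linarith only [h1])
  refine ⟨n, c, hna, hnn, fun v => ?_⟩
  obtain ⟨p, q, r, rfl⟩ : ∃ p q r : ℝ, v = p • a + q • b + r • n := ⟨_, _, _, hex v⟩
  simp only [GAx_U, lin_add, lin_smul, h, hn, hb, hx, hz, B_add_left, B_smul_left, haa, hna, hnn,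
    han, hbn, hba]
  module

theorem Par.exists_kappa (h : Par g) : ∃ κ > 0, ∀ (p : Pt) (n : ℤ),
    cosh (dist p (g ^ n • p)) = 1 + (n : ℝ) ^ 2 * κ * B p.1 (pfix g).1 ^ 2 := by
  obtain ⟨n, c, hna, hnn, hU⟩ := GAx_unip h.lin_pfix
  have haa := (pfix g).2.1
  have h0 : ∀ v, GAx_U (pfix g).1 n 0 v = v := fun v => by simp [GAx_U]
  have hc : c ≠ 0 := by
    rintro rfl
    exact h.1 o (Subtype.ext (by rw [smul_pt_val, hU, h0]))
  have hinv : ∀ v, lin g⁻¹ v = GAx_U (pfix g).1 n (-c) v := fun v => by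
    have h1 : lin g (GAx_U (pfix g).1 n (-c) v) = v := by
      rw [hU, GAx_U_add haa hna hnn, add_neg_cancel, h0]
    conv_lhs => rw [← h1, lin_inv_lin]
  have hz : ∀ (k : ℤ) (v : V), lin (g ^ k) v = GAx_U (pfix g).1 n (k * c) v := by
    intro k
    induction k using Int.induction_on with
    | zero =>
      intro v
      rw [zpow_zero, lin_one, Int.cast_zero, zero_mul, h0]
    | succ k ih =>
      intro v
      rw [_root_.zpow_add_one, lin_mul, ih, hU, GAx_U_add haa hna hnn]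
      congr 1
      push_cast
      ring
    | pred k ih =>
      intro v
      rw [_root_.zpow_sub_one, lin_mul, ih, hinv, GAx_U_add haa hna hnn]
      congr 1
      push_cast
      ring
  refine ⟨c ^ 2 / 2, by positivity, fun p k => ?_⟩
  rw [cosh_dist, smul_pt_val, hz]
  simp only [GAx_U, B_add_right, B_sub_right, B_smul_right, p.2.1]
  ring
theorem Par.zpow (h : Par g) {n : ℤ} (hn : n ≠ 0) : Par (g ^ n) ∧ pfix (g ^ n) = pfix g := by
  have h1 : NoFix (g ^ n) := by
    intro p hp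
    obtain ⟨κ, hκ, h2⟩ := h.exists_kappa
    have h3 := h2 p n
    rw [hp, dist_self, cosh_zero] at h3
    have h4 : (n : ℝ) ≠ 0 := by exact_mod_cast hn
    have h5 := (B_pt_circ_neg p (pfix g)).ne
    have h6 : 0 < (n : ℝ) ^ 2 * κ * B p.1 (pfix g).1 ^ 2 := by positivity
    linarith only [h3, h6]
  have h2 : Par (g ^ n) :=
    h1.hyp_or_par.resolve_left fun h3 => (GAx_hyp_of_zpow h3).not_par h
  exact ⟨h2, ((h2.fix_iff _).mp
    ((MulAction.stabilizer Isom (pfix g)).zpow_mem ((h.fix_iff _).mpr rfl) n)).symm⟩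

theorem GAx_ne {a b c d : Circ} (h1 : ccw a c b) (h2 : ccw b d a) : c ≠ d := by
  rintro rfl
  exact h1.asymm h2.cyc.cyc

theorem link_iff {g h : Isom} (hg : Hyp g) (hh : Hyp h) : Link g h ↔ Cross (ax g) (ax h) := by
  constructor
  · rintro ⟨a, b, c, d, ha, hb, hc, hd, h1, h2⟩
    have h3 : Cross (Geo.mk' a b h1.ne13) (Geo.mk' c d (GAx_ne h1 h2)) :=
      (cross_iff_ccw _ _).mpr (Or.inl ⟨h1, h2⟩)
    have h4 := GAx_eq_or_rev (l := Geo.mk' a b h1.ne13) (GAx_ne_one hg) (Geo.ext ha hb) hg.smul_ax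
    have h5 := GAx_eq_or_rev (l := Geo.mk' c d (GAx_ne h1 h2)) (GAx_ne_one hh) (Geo.ext hc hd)
      hh.smul_ax
    rcases h4 with h4 | h4 <;> rcases h5 with h5 | h5 <;> rw [h4, h5] <;> simpa using h3
  · intro hc
    have g1 := (hg.fix_iff _).mpr (Or.inl rfl)
    have g2 := (hg.fix_iff _).mpr (Or.inr rfl)
    have k1 := (hh.fix_iff _).mpr (Or.inl rfl)
    have k2 := (hh.fix_iff _).mpr (Or.inr rfl)
    rcases (cross_iff_ccw _ _).mp hc with h1 | h1
    · exact ⟨_, _, _, _, g1, g2, k1, k2, h1.1, h1.2⟩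
    · exact ⟨_, _, _, _, g1, g2, k2, k1, h1.1, h1.2⟩
theorem Par.not_link_left {g h : Isom} (hg : Par g) : ¬ Link g h := by
  rintro ⟨a, b, c, d, ha, hb, -, -, h1, -⟩
  exact h1.ne13 (((hg.fix_iff _).mp ha).trans ((hg.fix_iff _).mp hb).symm)
theorem Par.not_link_right {g h : Isom} (hh : Par h) : ¬ Link g h := by
  rintro ⟨a, b, c, d, -, -, hc, hd, h1, h2⟩
  exact GAx_ne h1 h2 (((hh.fix_iff _).mp hc).trans ((hh.fix_iff _).mp hd).symm)

end

end HRT
end

-- merged part: Pool.Agent.Work.MP_35beee_gt.GQuat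
section
/-!
Split quaternion lifts `(c, u)`, `c ^ 2 - B u u = 1`, of isometries (this is `SL(2,ℝ)`; `c` is the
half trace) and reflections.

Plan. `qm c u` is linear, preserves `B`, has determinant `(c^2 - B u u)^3` and
`-B o (qm c u o) = c^2 + B u u + 2 (u 2)^2 > 0`; use `exists_isom`. Surjectivity: an isometry fixing
`o` is a rotation `qt (cos a) (sin a • o)`, a translation along `l` is `qt (cosh a) (sinh a • nrm l)`,
and every isometry is a product of two such (`exists_line_pt_pt`).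
-/

namespace HRT

open Matrix Set Filter Topology Real

/-- The action of a split quaternion. -/
def qm (c : ℝ) (u x : V) : V := (c ^ 2 + B u u) • x + (2 * c) • cr u x - (2 * B u x) • u

/-- The reflection in the line with unit normal `n`. -/
def rf (n x : V) : V := x - (2 * B x n) • n

theorem qm_qm (c c' : ℝ) (u u' x : V) :
    qm c u (qm c' u' x) = qm (c * c' + B u u') (c • u' + c' • u + cr u u') x := by
  apply V_ext <;> simp only [qm, B, cr_0, cr_1, cr_2, Pi.add_apply, Pi.sub_apply,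
    Pi.smul_apply, smul_eq_mul] <;> ring

theorem B_qm (c : ℝ) (u x y : V) : B (qm c u x) (qm c u y) = (c ^ 2 - B u u) ^ 2 * B x y := by
  simp only [qm, B, cr_0, cr_1, cr_2, Pi.add_apply, Pi.sub_apply, Pi.smul_apply, smul_eq_mul]
  ring

theorem qnorm_mul (c c' : ℝ) (u u' : V) :
    (c * c' + B u u') ^ 2 - B (c • u' + c' • u + cr u u') (c • u' + c' • u + cr u u') =
      (c ^ 2 - B u u) * (c' ^ 2 - B u' u') := by
  simp only [B, cr_0, cr_1, cr_2, Pi.add_apply, Pi.smul_apply, smul_eq_mul]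
  ring

theorem qm_neg (c : ℝ) (u x : V) : qm (-c) (-u) x = qm c u x := by
  apply V_ext <;> simp only [qm, B, cr_0, cr_1, cr_2, Pi.add_apply, Pi.sub_apply, Pi.neg_apply,
    Pi.smul_apply, smul_eq_mul] <;> ring

theorem rf_rf_self {n : V} (hn : B n n = 1) (x : V) : rf n (rf n x) = x := by
  simp only [rf, B_sub_left, B_smul_left, hn]
  module

theorem B_rf {n : V} (hn : B n n = 1) (x y : V) : B (rf n x) (rf n y) = B x y := by
  simp only [rf, B_sub_left, B_sub_right, B_smul_left, B_smul_right, hn, B_comm n y]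
  ring

theorem rf_rf {n m : V} (hn : B n n = 1) (hm : B m m = 1) (x : V) :
    rf n (rf m x) = qm (B n m) (cr n m) x := by
  have h : (B n n * B m m) • x - (2 * B n n * B x m) • m - (2 * B m m * B x n) • n +
      (4 * B x m * B m n) • n = qm (B n m) (cr n m) x := by
    apply V_ext <;> simp only [qm, B, cr_0, cr_1, cr_2, Pi.add_apply, Pi.sub_apply,
      Pi.smul_apply, smul_eq_mul] <;> ring
  rw [← h, hn, hm]
  simp only [rf, B_sub_left, B_smul_left]
  module

theorem Fut.rf {n v : V} (hn : B n n = 1) (hv : Fut v) : Fut (rf n v) := by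
  refine ⟨by rw [B_rf hn]; exact hv.1, ?_⟩
  have h1 : B (HRT.rf n o.1) (HRT.rf n o.1) < 0 := by
    rw [B_rf hn, o.2.1]
    norm_num
  have h2 : HRT.rf n o.1 2 = 1 + 2 * n 2 ^ 2 := by
    simp only [HRT.rf, B_o, Pi.sub_apply, Pi.smul_apply, smul_eq_mul]
    have : o.1 2 = 1 := rfl
    rw [this]
    ring
  have h3 := Fut.B_neg ⟨h1.le, by rw [h2]; positivity⟩ hv h1
  rw [← B_rf hn, rf_rf_self hn, B_o] at h3
  linarith

theorem det3_rf {n : V} (hn : B n n = 1) (u v w : V) :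
    det3 (rf n u) (rf n v) (rf n w) = -det3 u v w := by
  have h : det3 (rf n u) (rf n v) (rf n w) = (1 - 2 * B n n) * det3 u v w := by
    simp only [det3, rf, B, cr_0, cr_1, cr_2, Pi.sub_apply, Pi.smul_apply, smul_eq_mul]
    ring
  rw [h, hn]
  ring

theorem lin_rf (g : Isom) (n x : V) : lin g (rf n x) = rf (lin g n) (lin g x) := by
  simp only [rf, lin_sub, lin_smul, B_lin]

/-- `(c, u)` is a lift of `g`. -/
def IsLift (g : Isom) (c : ℝ) (u : V) : Prop := c ^ 2 - B u u = 1 ∧ ∀ x, lin g x = qm c u x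

/-- The matrix of `qm c u`. -/
def GQuat_mat (c : ℝ) (u : V) : Matrix (Fin 3) (Fin 3) ℝ :=
  !![c ^ 2 + B u u - 2 * u 0 * u 0, -(2 * c * u 2) - 2 * u 1 * u 0, 2 * c * u 1 + 2 * u 2 * u 0;
    2 * c * u 2 - 2 * u 0 * u 1, c ^ 2 + B u u - 2 * u 1 * u 1, -(2 * c * u 0) + 2 * u 2 * u 1;
    2 * c * u 1 - 2 * u 0 * u 2, -(2 * c * u 0) - 2 * u 1 * u 2, c ^ 2 + B u u + 2 * u 2 * u 2]

theorem GQuat_o2 (c : ℝ) (u : V) : qm c u o.1 2 = c ^ 2 + u 0 ^ 2 + u 1 ^ 2 + u 2 ^ 2 := by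
  simp only [qm, B, cr_2, o, Pi.add_apply, Pi.sub_apply, Pi.smul_apply, smul_eq_mul,
    Matrix.cons_val_zero, Matrix.cons_val_one, Matrix.cons_val]
  ring

theorem GQuat_add (c : ℝ) (u x y : V) : qm c u (x + y) = qm c u x + qm c u y := by
  apply V_ext <;> simp only [qm, B, cr_0, cr_1, cr_2, Pi.add_apply, Pi.sub_apply,
    Pi.smul_apply, smul_eq_mul] <;> ring

theorem GQuat_smul (c t : ℝ) (u x : V) : qm c u (t • x) = t • qm c u x := by
  apply V_ext <;> simp only [qm, B, cr_0, cr_1, cr_2, Pi.add_apply, Pi.sub_apply,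
    Pi.smul_apply, smul_eq_mul] <;> ring

theorem GQuat_zero (c : ℝ) (x : V) : qm c 0 x = c ^ 2 • x := by
  apply V_ext <;> simp [qm, cr_0, cr_1, cr_2]

theorem GQuat_self (c : ℝ) (u : V) : qm c u u = (c ^ 2 - B u u) • u := by
  apply V_ext <;> simp only [qm, B, cr_0, cr_1, cr_2, Pi.add_apply, Pi.sub_apply,
    Pi.smul_apply, smul_eq_mul] <;> ring

theorem exists_of_qnorm {c : ℝ} {u : V} (h : c ^ 2 - B u u = 1) : ∃ g : Isom, IsLift g c u := by
  have hf : ∀ x, Matrix.toLin' (GQuat_mat c u) x = qm c u x := by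
    intro x
    apply V_ext <;> simp [GQuat_mat, qm, B, cr_0, cr_1, cr_2, Matrix.toLin'_apply, Matrix.mulVec,
      dotProduct, Fin.sum_univ_three] <;> ring
  have hd : (GQuat_mat c u).det = (c ^ 2 - B u u) ^ 3 := by
    simp [GQuat_mat, B, Matrix.det_fin_three]
    ring
  obtain ⟨g, hg⟩ := exists_isom (Matrix.toLin' (GQuat_mat c u))
    (fun x y => by rw [hf, hf, B_qm, h]; ring) (by rw [LinearMap.det_toLin', hd, h]; ring) o (by
      rw [hf, GQuat_o2]
      simp only [B] at h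
      linarith only [h, sq_nonneg (u 0), sq_nonneg (u 1), mul_self_nonneg (u (1 : Fin (3 : ℕ))), mul_self_nonneg (u (0 : Fin (3 : ℕ)))])
  exact ⟨g, h, fun x => by rw [hg, hf]⟩

theorem GQuat_mul {g h : Isom} {c c' : ℝ} {u u' : V} (hg : IsLift g c u) (hh : IsLift h c' u') :
    IsLift (g * h) (c * c' + B u u') (c • u' + c' • u + cr u u') :=
  ⟨by rw [qnorm_mul, hg.1, hh.1, one_mul], fun x => by rw [lin_mul, hh.2, hg.2, qm_qm]⟩

theorem GQuat_boost (p : Pt) : ∃ c u, c ^ 2 - B u u = 1 ∧ qm c u o.1 = p.1 := by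
  obtain ⟨p, h1, h2⟩ := p
  obtain ⟨c, c0, hc⟩ : ∃ c : ℝ, 0 < c ∧ 2 * c ^ 2 = p 2 + 1 :=
    ⟨√((p 2 + 1) / 2), Real.sqrt_pos.2 (by linarith only [h2]), by
      rw [Real.sq_sqrt (by linarith)]; ring⟩
  obtain ⟨a, ha⟩ : ∃ a : ℝ, 2 * c * a = p 0 := ⟨p 0 / (2 * c), by field_simp⟩
  obtain ⟨b, hb⟩ : ∃ b : ℝ, -(2 * c * b) = p 1 := ⟨-(p 1 / (2 * c)), by field_simp⟩
  simp only [B] at h1
  have h3 : c ^ 2 - (b * b + a * a) = 1 := by
    have h4 : c ^ 2 * (c ^ 2 - (b * b + a * a) - 1) = 0 := by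
      have h5 : p 2 = 2 * c ^ 2 - 1 := by linarith only [hc]
      rw [← ha, ← hb, h5] at h1
      linear_combination (-1 / 4 : ℝ) * h1
    have := (mul_eq_zero.1 h4).resolve_left (by positivity)
    linarith only [this]
  refine ⟨c, ![b, a, 0], by simpa [B] using h3, ?_⟩
  apply V_ext <;> simp only [qm, B, cr_0, cr_1, cr_2, o, Pi.add_apply, Pi.sub_apply,
    Pi.smul_apply, smul_eq_mul, Matrix.cons_val_zero, Matrix.cons_val_one, Matrix.cons_val] <;>
    linarith only [ha, hb, hc, h3]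

theorem GQuat_rot {g : Isom} (h : g • o = o) : ∃ c u, IsLift g c u := by
  have ho : lin g ![0, 0, 1] = ![0, 0, 1] := congrArg Subtype.val h
  have h1 := B_lin g ![1, 0, 0] ![1, 0, 0]
  have h2 := B_lin g ![1, 0, 0] ![0, 0, 1]
  have h3 := lin_cr g ![0, 0, 1] ![1, 0, 0]
  have h4 : cr ![0, 0, 1] ![1, 0, 0] = ![0, 1, 0] := by apply V_ext <;> simp [cr_0, cr_1, cr_2]
  have h5 : ∀ x : V, lin g x = x 0 • lin g ![1, 0, 0] + x 1 • lin g ![0, 1, 0] +
      x 2 • lin g ![0, 0, 1] := by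
    intro x
    rw [← lin_smul, ← lin_smul, ← lin_smul, ← lin_add, ← lin_add]
    congr 1
    apply V_ext <;> simp
  rw [h4, ho] at h3
  rw [ho] at h2
  rw [h3, ho] at h5
  generalize lin g ![1, 0, 0] = v at h1 h2 h5
  have v2 : v 2 = 0 := by simpa [B] using h2
  have v1 : v 0 * v 0 + v 1 * v 1 = 1 := by simpa [B, v2] using h1
  obtain ⟨c, s, e1, e2, e3⟩ : ∃ c s : ℝ, c ^ 2 + s * s = 1 ∧ c ^ 2 - s * s = v 0 ∧
      2 * c * s = v 1 := by
    by_cases hv : v 0 = -1
    · refine ⟨0, 1, by ring, by rw [hv]; ring, ?_⟩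
      rw [hv] at v1
      have : v 1 * v 1 = 0 := by linarith only [v1]
      rw [mul_self_eq_zero.1 this]
      ring
    · have hv' : -1 < v 0 := lt_of_le_of_ne (by (refine le_of_not_gt fun h_nl => ?_; linarith only [h_nl, v1, mul_self_nonneg (v 1), mul_self_nonneg (v (1 : Fin (3 : ℕ))), mul_pos_of_neg_of_neg (Mathlib.Tactic.Linarith.sub_neg_of_lt h_nl) (Mathlib.Tactic.Linarith.sub_neg_of_lt h_nl)])) (Ne.symm hv)
      obtain ⟨c, c0, hc⟩ : ∃ c : ℝ, 0 < c ∧ 2 * c ^ 2 = v 0 + 1 :=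
        ⟨√((v 0 + 1) / 2), Real.sqrt_pos.2 (by linarith only [hv']), by
          rw [Real.sq_sqrt (by linarith only [hv'])]; ring⟩
      obtain ⟨s, hs⟩ : ∃ s : ℝ, 2 * c * s = v 1 := ⟨v 1 / (2 * c), by field_simp⟩
      have h6 : c ^ 2 * (c ^ 2 + s * s - 1) = 0 := by
        have h7 : v 0 = 2 * c ^ 2 - 1 := by linarith only [hc]
        rw [← hs, h7] at v1
        linear_combination (1 / 4 : ℝ) * v1
      have := (mul_eq_zero.1 h6).resolve_left (by positivity)
      exact ⟨c, s, by linarith only [this], by linarith only [hc, this], hs⟩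
  refine ⟨c, ![0, 0, s], by simpa [B] using e1, fun x => ?_⟩
  rw [h5]
  apply V_ext <;> simp [qm, B, cr_0, cr_1, cr_2, v2, ← e2, ← e3]
  · ring
  · ring
  · linear_combination (-x 2) * e1

theorem exists_lift (g : Isom) : ∃ c u, IsLift g c u := by
  obtain ⟨c, u, h1, h2⟩ := GQuat_boost (g • o)
  obtain ⟨a, ha⟩ := exists_of_qnorm h1
  have h3 : (a⁻¹ * g) • o = o := by
    rw [mul_smul, inv_smul_eq_iff]
    exact Subtype.ext (h2.symm.trans (ha.2 _).symm)
  obtain ⟨c', u', h4⟩ := GQuat_rot h3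
  have := GQuat_mul ha h4
  rw [mul_inv_cancel_left] at this
  exact ⟨_, _, this⟩

theorem IsLift.neg {g : Isom} {c : ℝ} {u : V} (h : IsLift g c u) : IsLift g (-c) (-u) := by
  refine ⟨?_, fun x => by rw [qm_neg, h.2]⟩
  rw [B_neg_left, B_neg_right, neg_neg, neg_sq]
  exact h.1

theorem GQuat_four {a b c d a' b' c' d' : ℝ} (h : 0 < a' * a' + b' * b' + c' * c' + d' * d')
    (aa : a * a = a' * a') (bb : b * b = b' * b') (cc : c * c = c' * c') (dd : d * d = d' * d')
    (ab : a * b = a' * b') (ac : a * c = a' * c') (ad : a * d = a' * d') (bc : b * c = b' * c')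
    (bd : b * d = b' * d') (cd : c * d = c' * d') :
    (a' = a ∧ b' = b ∧ c' = c ∧ d' = d) ∨ (a' = -a ∧ b' = -b ∧ c' = -c ∧ d' = -d) := by
  obtain ⟨S, hS⟩ : ∃ S, S = a' * a' + b' * b' + c' * c' + d' * d' := ⟨_, rfl⟩
  obtain ⟨t, ht⟩ : ∃ t, t = a * a' + b * b' + c * c' + d * d' := ⟨_, rfl⟩
  have e1 : S * a' = t * a := by
    rw [hS, ht]
    linear_combination (-a') * aa - b' * ab - c' * ac - d' * ad
  have e2 : S * b' = t * b := by
    rw [hS, ht]
    linear_combination (-a') * ab - b' * bb - c' * bc - d' * bd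
  have e3 : S * c' = t * c := by
    rw [hS, ht]
    linear_combination (-a') * ac - b' * bc - c' * cc - d' * cd
  have e4 : S * d' = t * d := by
    rw [hS, ht]
    linear_combination (-a') * ad - b' * bd - c' * cd - d' * dd
  have e5 : t * t = S * S := by
    linear_combination t * ht - S * hS - a' * e1 - b' * e2 - c' * e3 - d' * e4
  have hS0 : S ≠ 0 := by rw [hS]; exact h.ne'
  rcases mul_self_eq_mul_self_iff.1 e5 with rfl | rfl
  · exact Or.inl ⟨mul_left_cancel₀ hS0 e1, mul_left_cancel₀ hS0 e2, mul_left_cancel₀ hS0 e3,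
      mul_left_cancel₀ hS0 e4⟩
  · exact Or.inr ⟨mul_left_cancel₀ hS0 (by linarith only [e1]), mul_left_cancel₀ hS0 (by linarith only [e2]),
      mul_left_cancel₀ hS0 (by linarith only [e3]), mul_left_cancel₀ hS0 (by linarith only [e4])⟩

theorem IsLift.unique {g : Isom} {c c' : ℝ} {u u' : V} (h : IsLift g c u) (h' : IsLift g c' u') :
    (c' = c ∧ u' = u) ∨ (c' = -c ∧ u' = -u) := by
  have e : ∀ x i, qm c u x i = qm c' u' x i := fun x i => by rw [← h.2, ← h'.2]
  have n1 := h.1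
  have n2 := h'.1
  have m00 := e ![1, 0, 0] 0
  have m10 := e ![1, 0, 0] 1
  have m20 := e ![1, 0, 0] 2
  have m01 := e ![0, 1, 0] 0
  have m11 := e ![0, 1, 0] 1
  have m21 := e ![0, 1, 0] 2
  have m02 := e ![0, 0, 1] 0
  have m12 := e ![0, 0, 1] 1
  have m22 := e ![0, 0, 1] 2
  simp only [qm, B, cr_0, cr_1, cr_2, Pi.add_apply, Pi.sub_apply, Pi.smul_apply, smul_eq_mul,
    Matrix.cons_val_zero, Matrix.cons_val_one, Matrix.cons_val]
    at m00 m10 m20 m01 m11 m21 m02 m12 m22 n1 n2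
  have key := GQuat_four (a := c) (b := u 0) (c := u 1) (d := u 2) (a' := c') (b' := u' 0)
    (c' := u' 1) (d' := u' 2) (by linarith only [n2, mul_self_nonneg (u' 0), mul_self_nonneg (u' 1), mul_self_nonneg (u' (1 : Fin (3 : ℕ))), mul_self_nonneg (u' (0 : Fin (3 : ℕ)))])
    (by linarith only [n1, n2, m00, m11, m22]) (by linarith only [n1, n2, m00, m11, m22]) (by linarith only [n1, n2, m00, m11, m22]) (by linarith only [n1, n2, m00, m11, m22]) (by linarith only [m21, m12]) (by linarith only [m20, m02])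
    (by linarith only [m10, m01]) (by linarith only [m10, m01]) (by linarith only [m20, m02]) (by linarith only [m21, m12])
  rcases key with ⟨k0, k1, k2, k3⟩ | ⟨k0, k1, k2, k3⟩
  · exact Or.inl ⟨k0, V_ext k1 k2 k3⟩
  · exact Or.inr ⟨k0, V_ext k1 k2 k3⟩

theorem IsLift.mul {g h : Isom} {c c' : ℝ} {u u' : V} (hg : IsLift g c u) (hh : IsLift h c' u') :
    IsLift (g * h) (c * c' + B u u') (c • u' + c' • u + cr u u') := by
  exact GQuat_mul hg hh

theorem IsLift.inv {g : Isom} {c : ℝ} {u : V} (hg : IsLift g c u) : IsLift g⁻¹ c (-u) := by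
  refine ⟨by rw [B_neg_left, B_neg_right, neg_neg]; exact hg.1, fun x => ?_⟩
  obtain ⟨y, rfl⟩ : ∃ y, x = lin g y := ⟨_, (lin_lin_inv g x).symm⟩
  have h1 : c • u + c • -u + cr (-u) u = 0 := by
    apply V_ext <;> simp [cr_0, cr_1, cr_2] <;> ring
  have h2 : c * c + B (-u) u = 1 := by
    rw [B_neg_left, ← hg.1]
    ring
  rw [lin_inv_lin, hg.2, qm_qm, h1, h2, GQuat_zero, one_pow, one_smul]

theorem IsLift.conj {g : Isom} {c : ℝ} {u : V} (hg : IsLift g c u) (A : Isom) :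
    IsLift (A * g * A⁻¹) c (lin A u) := by
  refine ⟨by rw [B_lin]; exact hg.1, fun x => ?_⟩
  obtain ⟨y, rfl⟩ : ∃ y, x = lin A y := ⟨_, (lin_lin_inv A x).symm⟩
  rw [lin_mul, lin_mul, lin_inv_lin, hg.2]
  simp only [qm, lin_sub, lin_add, lin_smul, lin_cr, B_lin]

theorem isLift_one : IsLift 1 1 0 := by
  exact ⟨by simp, fun x => by rw [lin_one, GQuat_zero, one_pow, one_smul]⟩

theorem IsLift.cosh_dist {g : Isom} {c : ℝ} {u : V} (hg : IsLift g c u) (p : Pt) :
    cosh (dist p (g • p)) = c ^ 2 + B u u + 2 * B u p.1 ^ 2 := by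
  rw [HRT.cosh_dist, smul_pt_val, hg.2]
  simp only [qm, B_sub_right, B_add_right, B_smul_right, p.2.1, B_comm p.1 (cr u p.1), B_cr_right,
    B_comm p.1 u]
  ring

theorem IsLift.exists_fix {g : Isom} {c : ℝ} {u : V} (hg : IsLift g c u) (hc : |c| < 1) :
    ∃ p : Pt, g • p = p := by
  have key : ∀ {c : ℝ} {u : V}, IsLift g c u → B u u < 0 → 0 < u 2 → ∃ p : Pt, g • p = p := by
    intro c u hg h1 h2
    refine ⟨toPt u, Subtype.ext ?_⟩
    rw [smul_pt_val, toPt_val h1 h2, lin_smul, hg.2, GQuat_self, hg.1, one_smul]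
  have h1 : B u u < 0 := by
    have := hg.1
    have := (sq_lt_one_iff_abs_lt_one c).2 hc
    linarith
  have h2 : u 2 ≠ 0 := by
    intro h0
    simp only [B, h0] at h1
    linarith only [h1, mul_self_nonneg (u 0), mul_self_nonneg (u 1), mul_self_nonneg (u (1 : Fin (3 : ℕ))), mul_self_nonneg (u (0 : Fin (3 : ℕ)))]
  rcases h2.lt_or_gt with h | h
  · exact key hg.neg (by simpa using h1) (by simpa using h)
  · exact key hg h1 h

theorem GQuat_near {u : V} (hu : 0 ≤ B u u) {δ : ℝ} (hδ : 0 < δ) :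
    ∃ p : Pt, 2 * B u p.1 ^ 2 ≤ δ := by
  obtain ⟨R, hR⟩ : ∃ R, R = u 0 * u 0 + u 1 * u 1 := ⟨_, rfl⟩
  have h1 : u 2 * u 2 ≤ R := by
    simp only [B] at hu
    linarith
  have h0 : 0 ≤ R := (mul_self_nonneg _).trans h1
  obtain ⟨v, hv⟩ : ∃ v : V, v = ![u 0 * u 2, u 1 * u 2, R + δ] := ⟨_, rfl⟩
  have h2 : -B v v = (R + δ) ^ 2 - R * (u 2 * u 2) := by
    simp [hv, B, hR]
    ring
  have h3 : B u v = -(δ * u 2) := by
    simp [hv, B, hR]
    ring
  have h4 : 2 * R * δ + δ ^ 2 ≤ -B v v := by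
    have := mul_le_mul_of_nonneg_left h1 h0
    linarith
  have h5 : 0 < -B v v := lt_of_lt_of_le (by positivity) h4
  refine ⟨toPt v, ?_⟩
  rw [toPt_val (by linarith) (by simp [hv]; linarith), B_smul_right, h3, mul_pow, inv_pow,
    Real.sq_sqrt h5.le, ← mul_assoc, mul_comm 2, mul_assoc, inv_mul_le_iff₀ h5]
  have h6 := mul_le_mul_of_nonneg_right h4 hδ.le
  have h7 := mul_le_mul_of_nonneg_left h1 (sq_nonneg δ)
  have h8 : 0 ≤ δ ^ 3 := by positivity
  linarith only [h6, h7, h8]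

theorem IsLift.cosh_tl {g : Isom} {c : ℝ} {u : V} (hg : IsLift g c u) (hc : 1 ≤ |c|) :
    cosh (tl g / 2) = |c| := by
  have h0 := hg.1
  have h1 : 1 ≤ c ^ 2 := (one_le_sq_iff_one_le_abs c).2 hc
  have h2 : cosh (tl g) ≤ 2 * c ^ 2 - 1 := by
    refine le_of_forall_pos_le_add fun δ hδ => ?_
    obtain ⟨p, hp⟩ := GQuat_near (u := u) (by linarith) hδ
    have h3 : cosh (tl g) ≤ cosh (dist p (g • p)) := by
      rw [cosh_le_cosh, abs_of_nonneg (tl_nonneg g), abs_of_nonneg dist_nonneg]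
      exact tl_le g p
    rw [hg.cosh_dist] at h3
    linarith
  have h3 : arcosh (2 * c ^ 2 - 1) ≤ tl g := by
    have : Nonempty Pt := ⟨o⟩
    refine le_ciInf fun p => ?_
    have h4 := hg.cosh_dist p
    rw [HRT.cosh_dist] at h4
    refine (arcosh_le_arcosh (by linarith only [h1]) ?_).2 ?_
    · linarith only [one_le_neg_B p (g • p)]
    · nlinarith only [h0, h4, sq_nonneg (B u p.1)]
  have h4 : 2 * c ^ 2 - 1 ≤ cosh (tl g) := by
    rw [← cosh_arcosh (x := 2 * c ^ 2 - 1) (by linarith), cosh_le_cosh,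
      abs_of_nonneg (tl_nonneg g), abs_of_nonneg (arcosh_nonneg (by linarith))]
    exact h3
  have h5 := cosh_two_mul (tl g / 2)
  have h6 := cosh_sq (tl g / 2)
  rw [mul_div_cancel₀ _ (two_ne_zero)] at h5
  refine (pow_left_inj₀ (cosh_pos _).le (abs_nonneg c) two_ne_zero).1 ?_
  rw [sq_abs]
  linarith only [h4, h5, h6, h2]

theorem IsLift.hyp_iff {g : Isom} {c : ℝ} {u : V} (hg : IsLift g c u) : Hyp g ↔ 1 < |c| := by
  rcases lt_or_ge |c| 1 with h | h
  · obtain ⟨p, hp⟩ := hg.exists_fix h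
    exact iff_of_false (fun h' => h'.noFix p hp) (not_lt.2 h.le)
  · rw [← hg.cosh_tl h, one_lt_cosh]
    exact ⟨fun h' => (half_pos h').ne', fun h' => lt_of_le_of_ne (tl_nonneg g) fun h0 =>
      h' (by rw [← h0, zero_div])⟩

theorem IsLift.par_iff {g : Isom} {c : ℝ} {u : V} (hg : IsLift g c u) :
    Par g ↔ |c| = 1 ∧ u ≠ 0 := by
  constructor
  · intro h
    have h1 : 1 ≤ |c| := not_lt.1 fun h1 => (hg.exists_fix h1).elim h.1
    have h2 : |c| = 1 := by rw [← hg.cosh_tl h1, h.2, zero_div, cosh_zero]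
    refine ⟨h2, ?_⟩
    rintro rfl
    refine h.1 o (Subtype.ext ?_)
    rw [smul_pt_val, hg.2, GQuat_zero, ← sq_abs, h2, one_pow, one_smul]
  · rintro ⟨h1, h2⟩
    have h3 : c ^ 2 = 1 := by rw [← sq_abs, h1, one_pow]
    have h4 : B u u = 0 := by linarith only [h3, hg, hg.1]
    refine ⟨fun p hp => ?_, le_antisymm (not_lt.1 fun h => (hg.hyp_iff.1 h).ne' h1) (tl_nonneg g)⟩
    have h5 := hg.cosh_dist p
    rw [hp, dist_self, cosh_zero, h3, h4] at h5
    have h6 : B u p.1 = 0 := pow_eq_zero_iff (two_ne_zero) |>.1 (by linarith only [h5])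
    exact (B_pos_of_orth p (by rw [B_comm, h6]) h2).ne' h4

theorem GQuat_cr_smul (t : ℝ) (u v : V) : cr (t • u) v = t • cr u v := by
  apply V_ext <;> simp only [cr_0, cr_1, cr_2, Pi.smul_apply, smul_eq_mul] <;> ring

theorem Hyp.isLift {g : Isom} (h : Hyp g) :
    IsLift g (cosh (tl g / 2)) (sinh (tl g / 2) • nrm (ax g)) := by
  have n1 := B_nrm_nrm (ax g)
  have hn : lin g (nrm (ax g)) = nrm (ax g) := by rw [← nrm_smul, h.smul_ax]
  have ha := h.lin_src
  have hb := h.lin_tgt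
  have e0 := cosh_sq_sub_sinh_sq (tl g / 2)
  have e1 : exp (tl g) = (cosh (tl g / 2) + sinh (tl g / 2)) ^ 2 := by
    rw [cosh_add_sinh, sq, ← exp_add, add_halves]
  have e2 : exp (-tl g) = (cosh (tl g / 2) - sinh (tl g / 2)) ^ 2 := by
    rw [cosh_sub_sinh, sq, ← exp_add, ← neg_add, add_halves]
  rw [e1] at hb
  rw [e2] at ha
  generalize cosh (tl g / 2) = c at *
  generalize sinh (tl g / 2) = s at *
  generalize ax g = l at *
  have hB := l.B_neg.ne
  have c1 : cr (nrm l) l.src.1 = -l.src.1 := by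
    rw [nrm, GQuat_cr_smul, cr_cr, l.src.2.1, B_comm l.tgt.1, zero_smul, sub_zero, smul_smul,
      inv_neg, neg_mul, inv_mul_cancel₀ hB, neg_one_smul]
  have c2 : cr (nrm l) l.tgt.1 = l.tgt.1 := by
    rw [nrm, GQuat_cr_smul, cr_cr, l.tgt.2.1, zero_smul, zero_sub, ← neg_smul, smul_smul,
      inv_mul_cancel₀ (neg_ne_zero.2 hB), one_smul]
  have c3 : cr (nrm l) (nrm l) = 0 := by apply V_ext <;> simp [cr_0, cr_1, cr_2] <;> ring
  have s1 : B (nrm l) l.src.1 = 0 := side_src l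
  have s2 : B (nrm l) l.tgt.1 = 0 := side_tgt l
  refine ⟨by rw [B_smul_left, B_smul_right, n1]; linarith only [e0], fun x => ?_⟩
  have q1 : lin g l.src.1 = qm c (s • nrm l) l.src.1 := by
    rw [ha]
    simp only [qm, GQuat_cr_smul, c1, s1, n1, B_smul_left, B_smul_right]
    module
  have q2 : lin g l.tgt.1 = qm c (s • nrm l) l.tgt.1 := by
    rw [hb]
    simp only [qm, GQuat_cr_smul, c2, s2, n1, B_smul_left, B_smul_right]
    module
  have q3 : lin g (nrm l) = qm c (s • nrm l) (nrm l) := by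
    have : qm c (s • nrm l) (nrm l) = (c ^ 2 - s ^ 2) • nrm l := by
      simp only [qm, GQuat_cr_smul, c3, n1, B_smul_left, B_smul_right]
      module
    rw [hn, this, e0, one_smul]
  rw [expand l x]
  simp only [lin_add, lin_smul, GQuat_add, GQuat_smul, q1, q2, q3]

theorem Par.exists_isLift {g : Isom} (h : Par g) :
    ∃ t : ℝ, t ≠ 0 ∧ IsLift g 1 (t • (pfix g).1) := by
  have key : ∀ u : V, IsLift g 1 u → ∃ t : ℝ, t ≠ 0 ∧ IsLift g 1 (t • (pfix g).1) := by
    intro u hu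
    have h1 : B u u = 0 := by linarith [hu.1]
    have h2 : u 2 ≠ 0 := by
      intro h0
      refine (hu.par_iff.1 h).2 ?_
      simp only [B, h0] at h1
      exact V_ext (by simp only [Pi.zero_apply]; nlinarith [mul_self_nonneg (u 1)])
        (by simp only [Pi.zero_apply]; nlinarith [mul_self_nonneg (u 0)]) h0
    have h3 : lin g (toCirc u).1 = (toCirc u).1 := by
      rw [toCirc_val h1 h2, lin_smul, hu.2, GQuat_self, hu.1, one_smul]
    have h4 : toCirc u = pfix g := (h.fix_iff _).1 (Subtype.ext (by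
      rw [smul_circ_val, h3, (toCirc u).2.2, inv_one, one_smul]))
    refine ⟨u 2, h2, ?_⟩
    rwa [← h4, toCirc_val h1 h2, smul_smul, mul_inv_cancel₀ h2, one_smul]
  obtain ⟨c, u, hu⟩ := exists_lift g
  rcases abs_eq (zero_le_one) |>.1 (hu.par_iff.1 h).1 with rfl | rfl
  · exact key u hu
  · exact key (-u) (by simpa using hu.neg)

end HRT
end
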