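import Pool.Agent.Work.MP_35beee_gt.GDyn
import Pool.Agent.Work.MP_35beee_gt.GQuat

-- merged part: Pool.Agent.Work.MP_35beee_gt.GArea
section
-- merged part: Pool.Agent.Work.MP_35beee_gt.GMarg
section
/-!
The Margulis constant.

Plan. Margulis: conjugate the point to `o`; a non-elliptic element moving `o` by little is close to the
identity matrix (compactness of balls and `trace ≥ 3`); `‖[g,h] - 1‖ ≤ 8 ‖g - 1‖ ‖h - 1‖` near
the identity; a nontrivial element of `S` of minimal `‖g - 1‖` commutes with all small elements;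
commuting non-elliptic elements have the same fixed points on the circle, and two elements of `S`
with the same fixed points commute (same axis, or the same unipotent group).
With lifts `(c, u)`, `c ≥ 1` (`GQuat`): `cosh dist = c^2 + B u u + 2 (B u p)^2`
is close to one iff `u` is small in the Euclidean norm attached to `p`, and the lift of a
commutator has vector part quadratic in `u, u'`.
-/

namespace HRT

open Matrix Set Filter Topology Real

/-- The positive definite form attached to a point. -/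
def gmargE (p : Pt) (u : V) : ℝ := B u u + 2 * B u p.1 ^ 2

theorem gmarg_nonneg (p : Pt) (u : V) : 0 ≤ gmargE p u := by
  have h1 : B p.1 (u + B u p.1 • p.1) = 0 := by
    rw [B_add_right, B_smul_right, p.2.1, B_comm]; ring
  have h2 : B (u + B u p.1 • p.1) (u + B u p.1 • p.1) = B u u + B u p.1 ^ 2 := by
    simp only [B_add_left, B_add_right, B_smul_left, B_smul_right, p.2.1, B_comm p.1 u]; ring
  have h3 : 0 ≤ B (u + B u p.1 • p.1) (u + B u p.1 • p.1) := by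
    by_cases h : u + B u p.1 • p.1 = 0
    · rw [h, B_zero_left]
    · exact (B_pos_of_orth p h1 h).le
  unfold gmargE
  nlinarith only [h2, h3, sq_nonneg (B u p.1)]

theorem gmarg_add (p : Pt) (x y : V) : gmargE p (x + y) ≤ 2 * gmargE p x + 2 * gmargE p y := by
  have h := gmarg_nonneg p (x - y)
  simp only [gmargE, B_add_left, B_add_right, B_sub_left, B_sub_right] at h ⊢
  linarith only [h]

theorem gmarg_smul (p : Pt) (t : ℝ) (x : V) : gmargE p (t • x) = t ^ 2 * gmargE p x := by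
  simp only [gmargE, B_smul_left, B_smul_right]; ring

theorem gmarg_cr (p : Pt) (u v : V) : gmargE p (cr u v) ≤ gmargE p u * gmargE p v := by
  have h1 := det3_sq u v p.1
  have h2 := B_cr_cr u v u v
  rw [p.2.1, det3] at h1
  rw [B_comm v u] at h2
  unfold gmargE
  rw [h1, h2]
  nlinarith only [sq_nonneg (B u v + 2 * B u p.1 * B v p.1)]

theorem gmarg_B_le (p : Pt) (u : V) : B u u ≤ gmargE p u := by
  unfold gmargE
  nlinarith only [sq_nonneg (B u p.1)]

theorem gmarg_one_le {g : Isom} {c : ℝ} {u : V} (hg : IsLift g c u) (h : g ≠ 1 → NoFix g) :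
    1 ≤ |c| := by
  by_cases h1 : g = 1
  · subst h1
    rcases isLift_one.unique hg with h2 | h2 <;> simp [h2.1]
  · by_contra h2
    obtain ⟨p, hp⟩ := hg.exists_fix (not_le.1 h2)
    exact h h1 p hp

theorem gmarg_le_cosh {g : Isom} {c : ℝ} {u : V} (hg : IsLift g c u) (hc : 1 ≤ |c|) (p : Pt) :
    gmargE p u ≤ cosh (dist p (g • p)) - 1 := by
  have h1 : 1 ≤ c ^ 2 := by linarith only [hc, sq_abs c, mul_nonneg_of_nonpos_of_nonpos (Mathlib.Tactic.Linarith.sub_nonpos_of_le hc) (Mathlib.Tactic.Linarith.sub_nonpos_of_le hc)]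
  rw [hg.cosh_dist, gmargE]
  linarith

theorem gmarg_comm {g h : Isom} {c c' : ℝ} {u u' : V} (hg : IsLift g c u) (hh : IsLift h c' u')
    (p : Pt) (h1 : gmargE p u ≤ 1 / 64) (h2 : gmargE p u' ≤ 1 / 64) :
    cosh (dist p ((g * h * (h * g)⁻¹) • p)) - 1 ≤ gmargE p u / 2 := by
  have hl := (hg.mul hh).mul (hh.mul hg).inv
  have ha := (hg.mul hh).1
  have hz : (c * c' + B u u') • -(c' • u + c • u' + cr u' u) +
      (c' * c + B u' u) • (c • u' + c' • u + cr u u') +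
      cr (c • u' + c' • u + cr u u') (-(c' • u + c • u' + cr u' u)) =
      (2 * (c * c' + B u u')) • cr u u' + (2 : ℝ) • cr (c • u' + c' • u) (cr u u') := by
    apply V_ext <;> simp only [B, cr_0, cr_1, cr_2, Pi.add_apply, Pi.neg_apply,
      Pi.smul_apply, smul_eq_mul] <;> ring
  rw [hz] at hl
  have e0 := gmarg_nonneg p u
  have e0' := gmarg_nonneg p u'
  have hc : c ^ 2 ≤ 2 := by linarith only [h1, hg, hg.1, gmarg_B_le p u]
  have hc' : c' ^ 2 ≤ 2 := by linarith only [h2, hh, hh.1, gmarg_B_le p u']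
  have hw := gmarg_cr p u u'
  have hw0 := gmarg_nonneg p (cr u u')
  have hw1 : gmargE p (cr u u') ≤ gmargE p u / 64 := by linarith only [hw, h2, e0, mul_nonneg_of_nonpos_of_nonpos (Mathlib.Tactic.Linarith.sub_nonpos_of_le h2) (Mathlib.Tactic.Linarith.sub_nonpos_of_le e0)]
  have hm : gmargE p (c • u' + c' • u) ≤ 1 / 8 := by
    have := gmarg_add p (c • u') (c' • u)
    rw [gmarg_smul, gmarg_smul] at this
    linarith only [hc, hc', this, h2, h1, mul_nonneg_of_nonpos_of_nonpos (Mathlib.Tactic.Linarith.sub_nonpos_of_le (sq_nonneg c)) (Mathlib.Tactic.Linarith.sub_nonpos_of_le h2), mul_nonneg_of_nonpos_of_nonpos (Mathlib.Tactic.Linarith.sub_nonpos_of_le (sq_nonneg c')) (Mathlib.Tactic.Linarith.sub_nonpos_of_le h1)]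
  have ha2 : (c * c' + B u u') ^ 2 ≤ 3 / 2 := by
    linarith only [h1, ha, hw1, hm, gmarg_B_le p (c • u' + c' • u + cr u u'), gmarg_add p (c • u' + c' • u) (cr u u')]
  have h3 := gmarg_add p ((2 * (c * c' + B u u')) • cr u u')
    ((2 : ℝ) • cr (c • u' + c' • u) (cr u u'))
  rw [gmarg_smul, gmarg_smul, mul_pow] at h3
  have h4 := gmarg_cr p (c • u' + c' • u) (cr u u')
  have h5 := mul_le_mul_of_nonneg_right hm hw0
  have h6 := mul_le_mul_of_nonneg_right ha2 hw0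
  have h7 := hl.1
  rw [hl.cosh_dist]
  generalize (2 * (c * c' + B u u')) • cr u u' + (2 : ℝ) • cr (c • u' + c' • u) (cr u u') = z at *
  have h8 : gmargE p z ≤ gmargE p u / 4 := by linarith only [e0, hw1, h4, h5, h6, h3]
  unfold gmargE at h8 ⊢
  nlinarith only [h7, h8, sq_nonneg (B z p.1)]

theorem gmarg_cr_eq_zero {g h : Isom} {c c' : ℝ} {u u' : V} (hg : IsLift g c u)
    (hh : IsLift h c' u') (hn : g * h ≠ 1 → NoFix (g * h)) (hc : g * h = h * g) : cr u u' = 0 := by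
  have h1 := hg.mul hh
  have h2 := hh.mul hg
  have h3 := gmarg_one_le h1 hn
  rw [← hc, B_comm u' u, mul_comm c' c, cr_anti u u'] at h2
  rcases h1.unique h2 with h4 | h4
  · have h5 : (2 : ℝ) • cr u u' = 0 := by
      rw [two_smul]
      linear_combination (exp := 1) -h4.2
    exact (smul_eq_zero.1 h5).resolve_left two_ne_zero
  · have : c * c' + B u u' = 0 := by linarith only [h4, h4.1]
    rw [this, abs_zero] at h3
    linarith

theorem gmarg_par {u₀ u : V} (h0 : u₀ ≠ 0) (h : cr u₀ u = 0) : ∃ t : ℝ, u = t • u₀ := by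
  obtain ⟨w, hw⟩ : ∃ w, B u₀ w ≠ 0 := by
    by_contra hn
    push Not at hn
    exact h0 (eq_of_B_eq fun w => by rw [hn, B_zero_left])
  have h1 := cr_cr u₀ u w
  have h2 : cr 0 w = 0 := by apply V_ext <;> simp [cr_0, cr_1, cr_2]
  rw [h, h2, eq_comm, sub_eq_zero] at h1
  refine ⟨(B u₀ w)⁻¹ * B u w, ?_⟩
  rw [mul_smul, h1, smul_smul, inv_mul_cancel₀ hw, one_smul]

theorem gmarg_commute {g h : Isom} {c c' s t : ℝ} {u : V} (hg : IsLift g c (s • u))
    (hh : IsLift h c' (t • u)) : Commute g h := by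
  refine isom_ext fun v => ?_
  rw [(hg.mul hh).2, (hh.mul hg).2]
  apply V_ext <;> simp only [qm, B, cr_0, cr_1, cr_2, Pi.add_apply, Pi.sub_apply,
    Pi.smul_apply, smul_eq_mul] <;> ring

theorem exists_marg : ∃ η > 0, η ≤ 1 ∧ ∀ S : Subgroup Isom, (∀ g ∈ S, g ≠ 1 → NoFix g) →
    (∀ (p : Pt) (R : ℝ), {g : Isom | g ∈ S ∧ dist p (g • p) ≤ R}.Finite) →
      ∀ (p : Pt), ∀ g ∈ S, ∀ h ∈ S, dist p (g • p) ≤ η → dist p (h • p) ≤ η → Commute g h := by
  refine ⟨min 1 (arcosh (65 / 64)), lt_min one_pos (arcosh_pos (by norm_num)), min_le_left _ _,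
    fun S hS hfin p g hg h hh h1 h2 => ?_⟩
  set η := min 1 (arcosh (65 / 64)) with hη
  by_cases hg1 : g = 1
  · rw [hg1]; exact Commute.one_left h
  have hsm : ∀ k ∈ S, dist p (k • p) ≤ η → ∀ c u, IsLift k c u → gmargE p u ≤ 1 / 64 := by
    intro k hk hd c u hl
    have h3 := gmarg_le_cosh hl (gmarg_one_le hl (hS k hk)) p
    have h4 : cosh (dist p (k • p)) ≤ cosh (arcosh (65 / 64)) := by
      rw [cosh_le_cosh, abs_of_nonneg dist_nonneg]
      exact (hd.trans (min_le_right _ _)).trans (le_abs_self _)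
    rw [cosh_arcosh (by norm_num)] at h4
    linarith only [h3, h4]
  obtain ⟨g₀, ⟨⟨hg₀, hd₀⟩, hne⟩, hmin⟩ := Set.exists_min_image
    ({k : Isom | k ∈ S ∧ dist p (k • p) ≤ η} \ {1}) (fun k => dist p (k • p))
    (hfin p η).sdiff ⟨g, ⟨hg, h1⟩, hg1⟩
  obtain ⟨c₀, u₀, hl₀⟩ := exists_lift g₀
  have hpos : 1 < cosh (dist p (g₀ • p)) :=
    one_lt_cosh.2 (dist_pos.2 (hS g₀ hg₀ hne p).symm).ne'
  have hu₀ : u₀ ≠ 0 := by
    rintro rfl
    have h3 := hl₀.1
    rw [hl₀.cosh_dist] at hpos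
    simp only [B_zero_left] at h3 hpos
    linarith
  have key : ∀ k ∈ S, dist p (k • p) ≤ η → ∃ c t : ℝ, IsLift k c (t • u₀) := by
    intro k hk hd
    obtain ⟨c, u, hl⟩ := exists_lift k
    have h3 := gmarg_comm hl₀ hl p (hsm g₀ hg₀ hd₀ _ _ hl₀) (hsm k hk hd _ _ hl)
    have h4 := gmarg_le_cosh hl₀ (gmarg_one_le hl₀ (hS g₀ hg₀)) p
    have h5 : dist p ((g₀ * k * (k * g₀)⁻¹) • p) < dist p (g₀ • p) := by
      have : cosh (dist p ((g₀ * k * (k * g₀)⁻¹) • p)) < cosh (dist p (g₀ • p)) := by linarith only [hpos, h3, h4]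
      rwa [cosh_lt_cosh, abs_of_nonneg dist_nonneg, abs_of_nonneg dist_nonneg] at this
    have h6 : g₀ * k * (k * g₀)⁻¹ = 1 := by
      by_contra hn
      exact absurd (hmin _ ⟨⟨S.mul_mem (S.mul_mem hg₀ hk) (S.inv_mem (S.mul_mem hk hg₀)),
        h5.le.trans hd₀⟩, hn⟩) (not_le.2 h5)
    obtain ⟨t, rfl⟩ := gmarg_par hu₀
      (gmarg_cr_eq_zero hl₀ hl (hS _ (S.mul_mem hg₀ hk)) (mul_inv_eq_one.1 h6))
    exact ⟨c, t, hl⟩
  obtain ⟨c, s, hl⟩ := key g hg h1
  obtain ⟨c', t, hl'⟩ := key h hh h2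
  exact gmarg_commute hl hl'

/-- The Margulis constant. -/
noncomputable def marg : ℝ := exists_marg.choose

theorem marg_pos : 0 < marg := exists_marg.choose_spec.1
theorem marg_le_one : marg ≤ 1 := exists_marg.choose_spec.2.1

end HRT
end

-- merged part: Pool.Agent.Work.MP_35beee_gt.GArea
section
/-!
Area: invariance, the packing bound, the area of triangles.

Plan. `cone U` is the set in the definition of `area`; `cone (g • U) = lin g '' cone U` and
`lin g` has determinant one (`MeasureTheory.Measure.addHaar_image_linearMap`). The cone of an open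
set is open (it is the preimage under the continuous map `v ↦ toPt v` on the open set
`-1 < B v v < 0, 0 < v 2`), the cone of a bounded set is bounded. Cones of disjoint sets are
disjoint and `cone (U ∩ F) = cone U ∩ cone F`. Packing: for `p ∈ s` the balls of radius `r/2` have
pairwise disjoint translates; `area (ball p) ≤ ∑ g, area (g • ball p ∩ F)`, and the sum over all
`(p, g)` is at most `area F` (use `volume.restrict (cone F)`, no measurability of `F` is needed).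
Triangles: a point of the cone over `tri u v w` is `a u + b v + c w` with `a, b, c ≥ 0` and
`-B ≤ 1`. If `det3 u v w = 0` the set lies in a plane. Otherwise the pairings `-B u v`, `-B v w`,
`-B u w` are positive; rescale `u, v, w` so that they are all `1`; then `ab + bc + ca ≤ 1/2`,
`det3 ^ 2 ≤ 3` by `det3_sq` and `Fut.mul_le_sq`, and the region `a, b, c ≥ 0`,
`ab + bc + ca ≤ 1` has finite volume (if `a ∈ [n, n+1]` is the largest, `b, c ≤ 1/n`).
-/

namespace HRT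

open Matrix Set Filter Topology MeasureTheory

/-- The cone over a set of points. -/
def gArea_cone (U : Set Pt) : Set V := {v : V | ∃ p ∈ U, ∃ t ∈ Set.Ioo (0 : ℝ) 1, v = t • p.1}

theorem gArea_eq (U : Set Pt) : area U = volume (gArea_cone U) := rfl

theorem gArea_cone_mono {U W : Set Pt} (h : U ⊆ W) : gArea_cone U ⊆ gArea_cone W := by
  rintro v ⟨p, hp, ht⟩
  exact ⟨p, h hp, ht⟩

theorem gArea_unique {p q : Pt} {s t : ℝ} (hs : 0 < s) (ht : 0 < t) (h : s • p.1 = t • q.1) :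
    p = q := by
  have h1 : B (s • p.1) (s • p.1) = B (t • q.1) (t • q.1) := by rw [h]
  simp only [B_smul_left, B_smul_right, p.2.1, q.2.1] at h1
  have h2 : s = t := by nlinarith
  subst h2
  exact Subtype.ext (smul_right_injective V hs.ne' h)

theorem gArea_cone_inter (U W : Set Pt) : gArea_cone (U ∩ W) = gArea_cone U ∩ gArea_cone W := by
  refine Subset.antisymm (subset_inter (gArea_cone_mono inter_subset_left)
    (gArea_cone_mono inter_subset_right)) ?_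
  rintro v ⟨⟨p, hp, s, hs, h1⟩, ⟨q, hq, t, ht, h2⟩⟩
  obtain rfl := gArea_unique hs.1 ht.1 (h1.symm.trans h2)
  exact ⟨p, ⟨hp, hq⟩, s, hs, h1⟩

theorem gArea_cone_ball (q : Pt) {r : ℝ} (hr : 0 < r) : gArea_cone (Metric.ball q r) =
    {v | -1 < B v v ∧ B v v < 0 ∧ 0 < v 2 ∧ -B v q.1 < Real.cosh r * √(-B v v)} := by
  ext v
  constructor
  · rintro ⟨p, hp, t, ⟨h0, h1⟩, rfl⟩
    have h2 : B (t • p.1) (t • p.1) = -(t * t) := by
      simp only [B_smul_left, B_smul_right, p.2.1]; ring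
    have h3 : -B p.1 q.1 < Real.cosh r := by
      rw [← cosh_dist, Real.cosh_lt_cosh, abs_of_nonneg dist_nonneg, abs_of_pos hr]
      exact hp
    refine ⟨by rw [h2]; linarith only [h1, h0, mul_pos_of_neg_of_neg (Mathlib.Tactic.Linarith.sub_neg_of_lt h0) (Mathlib.Tactic.Linarith.sub_neg_of_lt h1)], by rw [h2]; nlinarith, mul_pos h0 p.2.2, ?_⟩
    rw [h2, neg_neg, Real.sqrt_mul_self h0.le, B_smul_left]
    nlinarith
  · rintro ⟨h1, h2, h3, h4⟩
    have h5 : 0 < √(-B v v) := Real.sqrt_pos.2 (by linarith)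
    refine ⟨toPt v, ?_, √(-B v v), ⟨h5, ?_⟩, ?_⟩
    · rw [Metric.mem_ball, ← abs_of_nonneg (dist_nonneg (x := toPt v) (y := q)), ← abs_of_pos hr,
        ← Real.cosh_lt_cosh, cosh_dist, toPt_val h2 h3, B_smul_left, ← mul_neg, inv_mul_lt_iff₀ h5]
      linarith
    · rw [Real.sqrt_lt' one_pos]; linarith
    · rw [toPt_val h2 h3, smul_smul, mul_inv_cancel₀ h5.ne', one_smul]

theorem gArea_isOpen (q : Pt) {r : ℝ} (hr : 0 < r) : IsOpen (gArea_cone (Metric.ball q r)) := by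
  rw [gArea_cone_ball q hr]
  have h1 : Continuous fun v : V => B v v := continuous_id.B' continuous_id
  have h2 : Continuous fun v : V => B v q.1 := continuous_id.B' continuous_const
  exact (isOpen_lt continuous_const h1).inter ((isOpen_lt h1 continuous_const).inter
    ((isOpen_lt continuous_const (continuous_apply 2)).inter
      (isOpen_lt h2.neg (continuous_const.mul h1.neg.sqrt))))

theorem area_mono {U W : Set Pt} (h : U ⊆ W) : area U ≤ area W :=
  measure_mono (gArea_cone_mono h)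

theorem area_smul (g : Isom) (U : Set Pt) : area ((fun p => g • p) '' U) = area U := by
  have h : gArea_cone ((fun p => g • p) '' U) =
      Matrix.toLin' (g.1 : Matrix (Fin 3) (Fin 3) ℝ) '' gArea_cone U := by
    ext v
    constructor
    · rintro ⟨_, ⟨p, hp, rfl⟩, t, ht, rfl⟩
      exact ⟨t • p.1, ⟨p, hp, t, ht, rfl⟩, lin_smul g t p.1⟩
    · rintro ⟨_, ⟨p, hp, t, ht, rfl⟩, rfl⟩
      exact ⟨g • p, ⟨p, hp, rfl⟩, t, ht, lin_smul g t p.1⟩
  rw [gArea_eq, gArea_eq, h, Measure.addHaar_image_linearMap, LinearMap.det_toLin', g.1.2]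
  simp

theorem area_iUnion_le {ι : Type*} [Countable ι] (U : ι → Set Pt) :
    area (⋃ i, U i) ≤ ∑' i, area (U i) := by
  refine le_trans (measure_mono ?_) (measure_iUnion_le fun i => gArea_cone (U i))
  rintro v ⟨p, hp, ht⟩
  obtain ⟨i, hi⟩ := mem_iUnion.1 hp
  exact mem_iUnion.2 ⟨i, p, hi, ht⟩

theorem area_ball_pos {r : ℝ} (hr : 0 < r) : 0 < area (Metric.ball o r) :=
  (gArea_isOpen o hr).measure_pos volume
    ⟨_, o, Metric.mem_ball_self hr, 1 / 2, ⟨by norm_num, by norm_num⟩, rfl⟩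

theorem area_ball_lt_top (r : ℝ) : area (Metric.ball o r) < ⊤ := by
  refine lt_of_le_of_lt (measure_mono ?_)
    (measure_closedBall_lt_top (μ := volume) (x := (0 : V)) (r := Real.cosh r))
  rintro _ ⟨p, hp, t, ⟨h0, h1⟩, rfl⟩
  have hr : 0 < r := dist_nonneg.trans_lt hp
  have h3 : p.1 2 < Real.cosh r := by
    have : -B p.1 o.1 < Real.cosh r := by
      rw [← cosh_dist, Real.cosh_lt_cosh, abs_of_nonneg dist_nonneg, abs_of_pos hr]
      exact hp
    rwa [B_comm, B_o, neg_neg] at this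
  have h4 := p.2.1
  have h5 := p.2.2
  simp only [B] at h4
  have h6 : ‖p.1‖ ≤ Real.cosh r := by
    refine (pi_norm_le_iff_of_nonneg (Real.cosh_pos r).le).2 fun i => ?_
    refine le_trans (abs_le_of_sq_le_sq ?_ h5.le) h3.le
    fin_cases i
    · show p.1 0 ^ 2 ≤ p.1 2 ^ 2
      nlinarith only [h0, h1, h4, mul_self_nonneg (p.1 1)]
    · show p.1 1 ^ 2 ≤ p.1 2 ^ 2
      nlinarith only [h0, h1, h4, mul_self_nonneg (p.1 0)]
    · exact le_rfl
  rw [mem_closedBall_zero_iff, norm_smul, Real.norm_eq_abs, abs_of_pos h0]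
  exact (mul_le_of_le_one_left (norm_nonneg _) h1.le).trans h6

theorem gArea_ball (p : Pt) (r : ℝ) : area (Metric.ball p r) = area (Metric.ball o r) := by
  obtain ⟨g, rfl⟩ := exists_smul_o p
  rw [← area_smul g (Metric.ball o r), ← Metric.smul_ball]
  rfl

variable {Γ : Type*} [Group Γ]

/-- A finite set of points whose orbits are `r`-separated. -/
def Sep (ρ : Γ →* Isom) (r : ℝ) (s : Finset Pt) : Prop :=
  ∀ p ∈ s, ∀ q ∈ s, ∀ g : Γ, (p ≠ q ∨ g ≠ 1) → r ≤ dist p (ρ g • q)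

/-- The packing bound coming from an area bound. -/
noncomputable def packN (A r : ℝ) : ℝ := A / (area (Metric.ball o (r / 2))).toReal

theorem pack_of_area [Countable Γ] (ρ : Γ →* Isom) {F : Set Pt} {A : ℝ} (hA : 0 ≤ A)
    (hF : area F ≤ ENNReal.ofReal A) (hc : ∀ p : Pt, ∃ g : Γ, ρ g • p ∈ F) {r : ℝ} (hr : 0 < r)
    {s : Finset Pt} (hs : Sep ρ r s) : (s.card : ℝ) ≤ packN A r := by
  have hr2 : 0 < r / 2 := half_pos hr
  let D : s × Γ → Set V := fun x => gArea_cone (Metric.ball (ρ x.2 • x.1.1) (r / 2))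
  have hD : ∀ x, MeasurableSet (D x) := fun x => (gArea_isOpen _ hr2).measurableSet
  have hdis : Pairwise (Function.onFun Disjoint D) := by
    rintro ⟨p, g⟩ ⟨q, h⟩ hne
    refine Set.disjoint_iff_inter_eq_empty.2 ?_
    rw [← gArea_cone_inter]
    refine eq_empty_of_forall_notMem ?_
    rintro v ⟨z, ⟨h1, h2⟩, -⟩
    have h3 : dist (ρ g • p.1) (ρ h • q.1) < r := by
      have := dist_triangle_left (ρ g • p.1) (ρ h • q.1) z
      rw [Metric.mem_ball] at h1 h2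
      linarith only [h1, h2, this]
    have h4 : dist p.1 (ρ (g⁻¹ * h) • q.1) = dist (ρ g • p.1) (ρ h • q.1) := by
      rw [← dist_smul (ρ g), smul_smul, ← map_mul, mul_inv_cancel_left]
    refine absurd (hs p.1 p.2 q.1 q.2 (g⁻¹ * h) ?_) (by rw [h4]; exact not_le.2 h3)
    by_contra hcon
    push Not at hcon
    exact hne (Prod.ext (Subtype.ext hcon.1) (inv_mul_eq_one.1 hcon.2))
  have h1 := tsum_measure_le_measure_univ (μ := volume.restrict (gArea_cone F))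
    (fun x => (hD x).nullMeasurableSet) (hdis.mono fun _ _ h => h.aedisjoint)
  rw [Measure.restrict_apply_univ, ENNReal.tsum_prod', tsum_fintype] at h1
  have h2 : ∀ p : s, area (Metric.ball o (r / 2)) ≤
      ∑' g : Γ, volume.restrict (gArea_cone F) (D (p, g)) := fun p => by
    rw [← gArea_ball p.1]
    refine le_trans (area_mono (W := ⋃ g : Γ,
      (fun z => (ρ g)⁻¹ • z) '' (Metric.ball (ρ g • p.1) (r / 2) ∩ F)) fun z hz => ?_)
      ((area_iUnion_le _).trans (le_of_eq (tsum_congr fun g => ?_)))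
    · obtain ⟨g, hg⟩ := hc z
      refine mem_iUnion.2 ⟨g, ρ g • z, ⟨?_, hg⟩, inv_smul_smul _ _⟩
      rwa [Metric.mem_ball, dist_smul]
    · rw [area_smul, gArea_eq, gArea_cone_inter, Measure.restrict_apply (hD _)]
  have h3 := (Finset.sum_le_sum fun p (_ : p ∈ Finset.univ) => h2 p).trans (h1.trans hF)
  rw [Finset.sum_const, Finset.card_univ, Fintype.card_coe, nsmul_eq_mul] at h3
  have h4 := ENNReal.toReal_mono ENNReal.ofReal_ne_top h3
  rw [ENNReal.toReal_mul, ENNReal.toReal_natCast, ENNReal.toReal_ofReal hA] at h4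
  rw [packN, le_div_iff₀ (ENNReal.toReal_pos (area_ball_pos hr2).ne' (area_ball_lt_top _).ne)]
  exact h4

/-- The triangle with vertices in the plane or at infinity. -/
def tri (u v w : V) : Set Pt :=
  {p | ∃ a b c : ℝ, 0 ≤ a ∧ 0 ≤ b ∧ 0 ≤ c ∧ p.1 = a • u + b • v + c • w}

/-- The region below the quadric in the positive octant. -/
def gArea_R : Set V := {x | (∀ i, 0 ≤ x i) ∧ x 0 * x 1 + x 1 * x 2 + x 0 * x 2 ≤ 1}

/-- The boxes covering the region. -/
def gArea_box (i : Fin 3) (n : ℕ) : Set V :=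
  Set.pi univ fun j => if j = i then Icc (n : ℝ) (n + 1) else Icc 0 (2 / ((n : ℝ) + 1))

theorem gArea_box_vol (i : Fin 3) (n : ℕ) :
    volume (gArea_box i n) = ENNReal.ofReal (4 * (1 / ((n + 1 : ℕ) : ℝ) ^ 2)) := by
  have h : ENNReal.ofReal (2 / ((n : ℝ) + 1)) * ENNReal.ofReal (2 / ((n : ℝ) + 1)) =
      ENNReal.ofReal (4 * (1 / ((n + 1 : ℕ) : ℝ) ^ 2)) := by
    rw [← ENNReal.ofReal_mul (by positivity)]
    congr 1
    push_cast
    field_simp
    norm_num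
  rw [gArea_box, volume_pi_pi, Fin.prod_univ_three, ← h]
  fin_cases i <;> simp

theorem gArea_R_lt_top : volume gArea_R < ⊤ := by
  have hsub : gArea_R ⊆ ⋃ i : Fin 3, ⋃ n : ℕ, gArea_box i n := by
    rintro x ⟨h0, h1⟩
    obtain ⟨i, hi⟩ := Finite.exists_max x
    refine mem_iUnion.2 ⟨i, mem_iUnion.2 ⟨⌊x i⌋₊, fun j _ => ?_⟩⟩
    have h2 := Nat.floor_le (h0 i)
    dsimp only
    split_ifs with hj
    · rw [hj]
      exact ⟨h2, (Nat.lt_floor_add_one _).le⟩
    · have h3 : x j * x i ≤ 1 := by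
        have a01 := mul_nonneg (h0 0) (h0 1)
        have a12 := mul_nonneg (h0 1) (h0 2)
        have a02 := mul_nonneg (h0 0) (h0 2)
        fin_cases i <;> fin_cases j <;> simp at hj ⊢ <;> linarith only [h1, a12, a02, a01]
      have h4 : x j ≤ 1 := by (refine le_of_not_gt fun h_nl => ?_; linarith only [h_nl, h3, hi, h2, hi j, h0 j, mul_nonneg_of_nonpos_of_nonpos (Mathlib.Tactic.Linarith.sub_nonpos_of_le (Mathlib.Tactic.Linarith.natCast_nonneg ℝ ⌊x i⌋₊)) (le_of_lt (Mathlib.Tactic.Linarith.sub_neg_of_lt h_nl)), mul_nonneg_of_nonpos_of_nonpos (Mathlib.Tactic.Linarith.sub_nonpos_of_le h2) (le_of_lt (Mathlib.Tactic.Linarith.sub_neg_of_lt h_nl))])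
      refine ⟨h0 j, ?_⟩
      rw [le_div_iff₀ (by positivity)]
      (refine le_of_not_gt fun h_nl => ?_; linarith only [h_nl, h2, h3, h4, h0 j, mul_nonneg_of_nonpos_of_nonpos (Mathlib.Tactic.Linarith.sub_nonpos_of_le (Mathlib.Tactic.Linarith.natCast_nonneg ℝ ⌊x i⌋₊)) (Mathlib.Tactic.Linarith.sub_nonpos_of_le h3), mul_nonneg_of_nonpos_of_nonpos (Mathlib.Tactic.Linarith.sub_nonpos_of_le (Mathlib.Tactic.Linarith.natCast_nonneg ℝ ⌊x i⌋₊)) (Mathlib.Tactic.Linarith.sub_nonpos_of_le h4), mul_nonneg_of_nonpos_of_nonpos (Mathlib.Tactic.Linarith.sub_nonpos_of_le (Mathlib.Tactic.Linarith.natCast_nonneg ℝ ⌊x i⌋₊)) (le_of_lt (Mathlib.Tactic.Linarith.sub_neg_of_lt h_nl)), mul_nonneg_of_nonpos_of_nonpos (Mathlib.Tactic.Linarith.sub_nonpos_of_le h2) (le_of_lt (Mathlib.Tactic.Linarith.sub_neg_of_lt h_nl))])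
  refine lt_of_le_of_lt ((measure_mono hsub).trans (measure_iUnion_le _)) ?_
  rw [tsum_fintype]
  refine ENNReal.sum_lt_top.2 fun i _ => lt_of_le_of_lt (measure_iUnion_le _) ?_
  simp only [gArea_box_vol]
  exact (((summable_nat_add_iff 1).2
    (Real.summable_one_div_nat_pow.2 one_lt_two)).mul_left 4).tsum_ofReal_lt_top

theorem gArea_lin (u v w x : V) :
    Matrix.toLin' (Matrix.of ![u, v, w])ᵀ x = x 0 • u + x 1 • v + x 2 • w := by
  funext i
  simp [Matrix.toLin'_apply, Matrix.mulVec, dotProduct, Fin.sum_univ_three, mul_comm]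

theorem gArea_tri_le {u v w : V} {S : Set V} (h : ∀ x : V, (∀ i, 0 ≤ x i) →
    -1 ≤ B (x 0 • u + x 1 • v + x 2 • w) (x 0 • u + x 1 • v + x 2 • w) → x ∈ S) :
    area (tri u v w) ≤ ENNReal.ofReal |det3 u v w| * volume S := by
  have h1 := Measure.addHaar_image_linearMap volume (Matrix.toLin' (Matrix.of ![u, v, w])ᵀ) S
  rw [LinearMap.det_toLin', Matrix.det_transpose, ← det3_eq] at h1
  rw [← h1]
  refine measure_mono ?_
  rintro _ ⟨p, ⟨a, b, c, ha, hb, hc, hp⟩, t, ⟨h0, ht⟩, rfl⟩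
  have h2 : (![t * a, t * b, t * c] : V) 0 • u + (![t * a, t * b, t * c] : V) 1 • v +
      (![t * a, t * b, t * c] : V) 2 • w = t • p.1 := by
    rw [hp]
    simp [smul_smul]
  refine ⟨![t * a, t * b, t * c], h _ (fun i => ?_) ?_, by rw [gArea_lin, h2]⟩
  · fin_cases i
    exacts [mul_nonneg h0.le ha, mul_nonneg h0.le hb, mul_nonneg h0.le hc]
  · rw [h2]
    simp only [B_smul_left, B_smul_right, p.2.1]
    linarith only [ht, h0, mul_pos_of_neg_of_neg (Mathlib.Tactic.Linarith.sub_neg_of_lt h0) (Mathlib.Tactic.Linarith.sub_neg_of_lt ht)]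

theorem gArea_tri_norm {u v w : V} (hu : Fut u) (hv : Fut v) (hw : Fut w) (h1 : B u v = -1)
    (h2 : B v w = -1) (h3 : B u w = -1) :
    area (tri u v w) ≤ ENNReal.ofReal 2 * volume gArea_R := by
  refine (gArea_tri_le (S := gArea_R) fun x hx h => ⟨hx, ?_⟩).trans ?_
  · simp only [B_add_left, B_add_right, B_smul_left, B_smul_right, B_comm v u, B_comm w v,
      B_comm w u, h1, h2, h3] at h
    have a0 := mul_nonneg (mul_self_nonneg (x 0)) (neg_nonneg.2 hu.1)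
    have a1 := mul_nonneg (mul_self_nonneg (x 1)) (neg_nonneg.2 hv.1)
    have a2 := mul_nonneg (mul_self_nonneg (x 2)) (neg_nonneg.2 hw.1)
    linarith only [h, a0, a1, a2]
  · gcongr
    refine abs_le_of_sq_le_sq ?_ (by norm_num)
    have h4 := hu.mul_le_sq hv
    rw [h1] at h4
    have h5 := mul_le_mul_of_nonneg_right h4 (neg_nonneg.2 hw.1)
    rw [det3_sq, h1, h2, h3]
    linarith only [h5, hu, hv, hu.1, hv.1]

theorem gArea_tri_smul (u v w : V) {a b c : ℝ} (ha : 0 < a) (hb : 0 < b) (hc : 0 < c) :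
    tri u v w ⊆ tri (a • u) (b • v) (c • w) := by
  rintro p ⟨x, y, z, hx, hy, hz, hp⟩
  refine ⟨x / a, y / b, z / c, by positivity, by positivity, by positivity, ?_⟩
  rw [hp, smul_smul, smul_smul, smul_smul, div_mul_cancel₀ _ ha.ne', div_mul_cancel₀ _ hb.ne',
    div_mul_cancel₀ _ hc.ne']

theorem gArea_B_neg {u v w : V} (hu : Fut u) (hv : Fut v) (h : det3 u v w ≠ 0) : B u v < 0 := by
  refine lt_of_le_of_ne (hu.B_nonpos hv) fun h0 => h ?_
  rw [hu.eq_smul_of_B_eq_zero hv h0]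
  simp only [det3, B, cr_0, cr_1, cr_2, Pi.smul_apply, smul_eq_mul]
  ring

theorem exists_area_tri_le : ∃ C : ℝ, 0 ≤ C ∧ ∀ u v w : V, Fut u → Fut v → Fut w →
    area (tri u v w) ≤ ENNReal.ofReal C := by
  refine ⟨2 * (volume gArea_R).toReal, by positivity, fun u v w hu hv hw => ?_⟩
  by_cases h : det3 u v w = 0
  · refine (gArea_tri_le (S := univ) fun _ _ _ => mem_univ _).trans ?_
    rw [h]
    simp
  have hz := neg_pos.2 (gArea_B_neg hu hv h)
  have hx := neg_pos.2 (gArea_B_neg hv hw (by rwa [← det3_cyc]))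
  have hy := neg_pos.2 (gArea_B_neg hw hu (by rwa [det3_cyc]))
  rw [B_comm w u] at hy
  obtain ⟨x, hx0, ex⟩ : ∃ x : ℝ, 0 < x ∧ B v w = -(x * x) :=
    ⟨√(-B v w), Real.sqrt_pos.2 hx, by rw [Real.mul_self_sqrt hx.le, neg_neg]⟩
  obtain ⟨y, hy0, ey⟩ : ∃ y : ℝ, 0 < y ∧ B u w = -(y * y) :=
    ⟨√(-B u w), Real.sqrt_pos.2 hy, by rw [Real.mul_self_sqrt hy.le, neg_neg]⟩
  obtain ⟨z, hz0, ez⟩ : ∃ z : ℝ, 0 < z ∧ B u v = -(z * z) :=
    ⟨√(-B u v), Real.sqrt_pos.2 hz, by rw [Real.mul_self_sqrt hz.le, neg_neg]⟩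
  have ha : 0 < x / (y * z) := by positivity
  have hb : 0 < y / (x * z) := by positivity
  have hc : 0 < z / (x * y) := by positivity
  rw [ENNReal.ofReal_mul (by norm_num), ENNReal.ofReal_toReal gArea_R_lt_top.ne]
  refine (area_mono (gArea_tri_smul u v w ha hb hc)).trans
    (gArea_tri_norm (hu.smul ha) (hv.smul hb) (hw.smul hc) ?_ ?_ ?_)
  · rw [B_smul_left, B_smul_right, ez]; field_simp
  · rw [B_smul_left, B_smul_right, ex]; field_simp
  · rw [B_smul_left, B_smul_right, ey]; field_simp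

end HRT
end

-- merged part: Pool.Agent.Work.MP_35beee_gt.GDisc
section
/-!
Free and properly discontinuous actions (`Disc`), with a packing bound (`Good`).

Plan. `finite_lifts`: a lift `ρ γ • ax (ρ g)` near `p` contains a point `ρ γ • pt t`; after
changing `γ` by a power of `g`, `t ∈ [0, tl]`, so `γ` lies in a finite set.
`ax_eq_of_share`: the lines `g ^ n • ax h` stay at bounded distance from a point of `ax g`
(for one sign of `n`; they converge to `± ax g`), so two of them coincide; then a power of `g`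
preserves `ax h`. `pfix_ne`: the conjugates of `u` by powers of `g` move a point by less and less
(`Par.exists_kappa`, `Hyp.lin_tgt`). Roots: the shifts `sh (ρ h) (ax (ρ g))` of the stabiliser form
a discrete subgroup of `ℝ` on which `sh` is injective; take the least positive one. The same for a
cusp with the parameter `t` of `Par.exists_isLift` (additive by `IsLift.mul`).
-/

namespace HRT

open Set Filter Topology Real

variable {Γ : Type*} [Group Γ]

/-- A free and properly discontinuous action. -/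
structure Disc (ρ : Γ →* Isom) : Prop where
  free : ∀ (γ : Γ) (p : Pt), ρ γ • p = p → γ = 1
  proper : ∀ (p : Pt) (R : ℝ), {γ : Γ | dist p (ρ γ • p) ≤ R}.Finite

/-- A free and properly discontinuous action with the packing bound `N`. -/
structure Good (ρ : Γ →* Isom) (N : ℝ → ℝ) : Prop extends Disc ρ where
  pack : ∀ r : ℝ, 0 < r → ∀ s : Finset Pt, Sep ρ r s → (s.card : ℝ) ≤ N r

/-- Not a proper power. -/
def Prim (γ : Γ) : Prop := ∀ (δ : Γ) (n : ℕ), δ ^ n = γ → n = 1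

/-- A line none of whose translates crosses it. -/
def SimpleLine (ρ : Γ →* Isom) (l : Geo) : Prop := ∀ g : Γ, ¬ Cross l (ρ g • l)

/-- A boundary point fixed by a parabolic element. -/
def IsCusp (ρ : Γ →* Isom) (ξ : Circ) : Prop := ∃ u : Γ, Par (ρ u) ∧ pfix (ρ u) = ξ

variable {ρ : Γ →* Isom}

theorem Lattice.disc (h : Lattice ρ) : Disc ρ := ⟨h.1, h.2.1⟩

theorem ax_conj' {g : Γ} (h : Hyp (ρ g)) (k : Γ) : ax (ρ (k * g * k⁻¹)) = ρ k • ax (ρ g) := by
  rw [map_mul, map_mul, map_inv, h.ax_conj]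

theorem tl_conj' (g k : Γ) : tl (ρ (k * g * k⁻¹)) = tl (ρ g) := by
  rw [map_mul, map_mul, map_inv, tl_conj]

theorem simple_iff {γ : Γ} : Simple ρ γ ↔ Hyp (ρ γ) ∧ Prim γ ∧ SimpleLine ρ (ax (ρ γ)) := by
  have key : Hyp (ρ γ) → ∀ g : Γ,
      (Link (ρ γ) (ρ (g * γ * g⁻¹)) ↔ Cross (ax (ρ γ)) (ρ g • ax (ρ γ))) := by
    intro h g
    have h2 : Hyp (ρ (g * γ * g⁻¹)) := by
      rw [map_mul, map_mul, map_inv]
      exact h.conj _
    rw [link_iff h h2, ax_conj' h]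
  constructor
  · rintro ⟨h1, h2, h3⟩
    exact ⟨h1, h2, fun g hc => h3 g ((key h1 g).2 hc)⟩
  · rintro ⟨h1, h2, h3⟩
    exact ⟨h1, h2, fun g hc => h3 g ((key h1 g).1 hc)⟩

theorem Simple.hyp {γ : Γ} (h : Simple ρ γ) : Hyp (ρ γ) := h.1
theorem Simple.prim {γ : Γ} (h : Simple ρ γ) : Prim γ := h.2.1
theorem Simple.line {γ : Γ} (h : Simple ρ γ) : SimpleLine ρ (ax (ρ γ)) := (simple_iff.1 h).2.2

theorem Prim.conj {γ : Γ} (h : Prim γ) (g : Γ) : Prim (g * γ * g⁻¹) := by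
  intro δ n hδ
  apply h (g⁻¹ * δ * g⁻¹⁻¹) n
  rw [conj_pow, hδ]
  group
theorem Prim.inv {γ : Γ} (h : Prim γ) : Prim γ⁻¹ := by
  intro δ n hδ
  apply h δ⁻¹ n
  rw [inv_pow, hδ, inv_inv]
theorem Prim.map {γ : Γ} (h : Prim γ) (φ : Γ ≃* Γ) : Prim (φ γ) := by
  intro δ n hδ
  apply h (φ.symm δ) n
  rw [← map_pow, hδ, MulEquiv.symm_apply_apply]
theorem SimpleLine.smul {l : Geo} (h : SimpleLine ρ l) (g : Γ) : SimpleLine ρ (ρ g • l) := by
  intro k hc
  apply h (g⁻¹ * k * g)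
  have h2 := (cross_smul (ρ g)⁻¹).2 hc
  rw [inv_smul_smul, ← mul_smul, ← mul_smul] at h2
  rwa [map_mul, map_mul, map_inv]
theorem SimpleLine.rev {l : Geo} (h : SimpleLine ρ l) : SimpleLine ρ l.rev := by
  intro k hc
  apply h k
  rwa [Geo.smul_rev, cross_rev_left, cross_rev_right] at hc
theorem SimpleLine.not_cross {l : Geo} (h : SimpleLine ρ l) (g k : Γ) :
    ¬ Cross (ρ g • l) (ρ k • l) := by
  intro hc
  apply h (g⁻¹ * k)
  have h2 := (cross_smul (ρ g)⁻¹).2 hc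
  rw [inv_smul_smul, ← mul_smul] at h2
  rwa [map_mul, map_inv]
theorem isClosed_simpleLine : IsClosed {l : Geo | SimpleLine ρ l} := by
  have : {l : Geo | SimpleLine ρ l} =
      ⋂ g : Γ, ((fun l : Geo => (l, ρ g • l)) ⁻¹' {x : Geo × Geo | Cross x.1 x.2})ᶜ := by
    ext l
    simp [SimpleLine]
  rw [this]
  refine isClosed_iInter fun g => IsOpen.isClosed_compl ?_
  exact isOpen_cross.preimage (continuous_id.prodMk (continuous_const_smul (ρ g)))
theorem Simple.conj {γ : Γ} (h : Simple ρ γ) (g : Γ) : Simple ρ (g * γ * g⁻¹) := by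
  refine simple_iff.2 ⟨?_, h.prim.conj g, ?_⟩
  · rw [map_mul, map_mul, map_inv]
    exact h.hyp.conj _
  · rw [ax_conj' h.hyp]
    exact h.line.smul g
theorem Simple.inv {γ : Γ} (h : Simple ρ γ) : Simple ρ γ⁻¹ := by
  refine simple_iff.2 ⟨?_, h.prim.inv, ?_⟩
  · rw [map_inv]
    exact h.hyp.inv
  · rw [map_inv, h.hyp.ax_inv]
    exact h.line.rev
theorem IsCusp.smul {ξ : Circ} (h : IsCusp ρ ξ) (g : Γ) : IsCusp ρ (ρ g • ξ) := by
  obtain ⟨u, hu, rfl⟩ := h
  refine ⟨g * u * g⁻¹, ?_⟩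
  rw [map_mul, map_mul, map_inv]
  exact hu.conj (ρ g)

namespace Disc

variable (hρ : Disc ρ)
include hρ

theorem injective : Function.Injective ρ := by
  rw [injective_iff_map_eq_one]
  intro γ h
  exact hρ.free γ o (by rw [h, one_smul])
theorem countable : Countable Γ := by
  have h : (⋃ n : ℕ, {γ : Γ | dist o (ρ γ • o) ≤ (n : ℝ)}) = univ := by
    refine eq_univ_of_forall fun γ => ?_
    obtain ⟨n, hn⟩ := exists_nat_ge (dist o (ρ γ • o))
    exact mem_iUnion.2 ⟨n, hn⟩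
  rw [← countable_univ_iff, ← h]
  exact countable_iUnion fun n => (hρ.proper o n).countable
theorem noFix {γ : Γ} (h : γ ≠ 1) : NoFix (ρ γ) := fun p hp => h (hρ.free γ p hp)
theorem hyp_or_par {γ : Γ} (h : γ ≠ 1) : Hyp (ρ γ) ∨ Par (ρ γ) := (hρ.noFix h).hyp_or_par
theorem finite_near (p q : Pt) (R : ℝ) : {γ : Γ | dist p (ρ γ • q) ≤ R}.Finite := by
  refine (hρ.proper p (R + dist q p)).subset fun γ hγ => ?_
  have h1 : dist p (ρ γ • q) ≤ R := hγ
  have h2 := dist_triangle p (ρ γ • q) (ρ γ • p)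
  rw [dist_smul] at h2
  show dist p (ρ γ • p) ≤ R + dist q p
  linarith
theorem exists_card_near_le (p : Pt) (R : ℝ) :
    ∃ M : ℕ, ∀ q : Pt, {γ : Γ | dist p (ρ γ • q) ≤ R}.ncard ≤ M := by
  refine ⟨{γ : Γ | dist p (ρ γ • p) ≤ 2 * R}.ncard, fun q => ?_⟩
  rcases {γ : Γ | dist p (ρ γ • q) ≤ R}.eq_empty_or_nonempty with h | ⟨γ0, h0⟩
  · rw [h, ncard_empty]
    exact Nat.zero_le _
  · refine ncard_le_ncard_of_injOn (fun γ => γ * γ0⁻¹) ?_ ?_ (hρ.proper p (2 * R))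
    · intro γ hγ
      have h1 : dist p (ρ γ • q) ≤ R := hγ
      have h2 : dist p (ρ γ0 • q) ≤ R := h0
      have h3 : dist (ρ γ • q) (ρ (γ * γ0⁻¹) • p) = dist p (ρ γ0 • q) := by
        rw [map_mul, mul_smul, dist_smul, ← dist_smul (ρ γ0) q, ← mul_smul, ← map_mul,
          mul_inv_cancel, map_one, one_smul, dist_comm]
      have h4 := dist_triangle p (ρ γ • q) (ρ (γ * γ0⁻¹) • p)
      show dist p (ρ (γ * γ0⁻¹) • p) ≤ 2 * R
      linarith only [h1, h2, h3, h4]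
    · intro a _ b _ hab
      exact mul_right_cancel hab
theorem exists_inj (p : Pt) (R : ℝ) :
    ∃ η > 0, ∀ q : Pt, dist p q ≤ R → ∀ γ : Γ, γ ≠ 1 → η ≤ dist q (ρ γ • q) := by
  have hK : IsCompact (Metric.closedBall p R) := isCompact_closedBall p R
  have h1 : ∀ γ : Γ, γ ≠ 1 → ∃ η > 0, ∀ q : Pt, dist p q ≤ R → η ≤ dist q (ρ γ • q) := by
    intro γ hγ
    rcases (Metric.closedBall p R).eq_empty_or_nonempty with h | hne
    · refine ⟨1, one_pos, fun q hq => ?_⟩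
      have : q ∈ Metric.closedBall p R := by rwa [Metric.mem_closedBall, dist_comm]
      rw [h] at this
      exact this.elim
    · have hc : Continuous fun q : Pt => dist q (ρ γ • q) :=
        continuous_id.dist (continuous_const_smul (ρ γ))
      obtain ⟨q0, -, hq0⟩ := hK.exists_isMinOn hne hc.continuousOn
      refine ⟨dist q0 (ρ γ • q0), dist_pos.2 fun h => hγ (hρ.free γ q0 h.symm), fun q hq => ?_⟩
      have : q ∈ Metric.closedBall p R := by rwa [Metric.mem_closedBall, dist_comm]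
      exact hq0 this
  have h2 : ∀ s : Set Γ, s.Finite →
      ∃ η > 0, ∀ q : Pt, dist p q ≤ R → ∀ γ ∈ s, γ ≠ 1 → η ≤ dist q (ρ γ • q) := by
    intro s hs
    induction s, hs using Set.Finite.induction_on with
    | empty => exact ⟨1, one_pos, fun q _ γ hγ => hγ.elim⟩
    | @insert a s _ _ ih =>
      obtain ⟨η, hη, H⟩ := ih
      by_cases ha : a = 1
      · refine ⟨η, hη, fun q hq γ hγ hne => ?_⟩
        rcases hγ with rfl | hγ
        · exact (hne ha).elim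
        · exact H q hq γ hγ hne
      · obtain ⟨η', hη', H'⟩ := h1 a ha
        refine ⟨min η η', lt_min hη hη', fun q hq γ hγ hne => ?_⟩
        rcases hγ with rfl | hγ
        · exact (min_le_right _ _).trans (H' q hq)
        · exact (min_le_left _ _).trans (H q hq γ hγ hne)
  obtain ⟨η, hη, H⟩ := h2 _ (hρ.proper p (2 * R + 1))
  refine ⟨min η 1, lt_min hη one_pos, fun q hq γ hγ => ?_⟩
  by_cases hs : dist p (ρ γ • p) ≤ 2 * R + 1
  · exact (min_le_left _ _).trans (H q hq γ hs hγ)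
  · have h3 := dist_triangle4 p q (ρ γ • q) (ρ γ • p)
    rw [dist_smul, dist_comm q p] at h3
    refine (min_le_right _ _).trans ?_
    linarith [not_le.1 hs]
theorem conj (A : Isom) : Disc ((MulAut.conj A).toMonoidHom.comp ρ) := by
  have key : ∀ (γ : Γ) (p : Pt),
      ((MulAut.conj A).toMonoidHom.comp ρ) γ • p = A • (ρ γ • (A⁻¹ • p)) := by
    intro γ p
    simp [mul_smul]
  constructor
  · intro γ p h
    rw [key] at h
    refine hρ.free γ (A⁻¹ • p) ?_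
    conv_rhs => rw [← h]
    rw [inv_smul_smul]
  · intro p R
    refine (hρ.proper (A⁻¹ • p) R).subset fun γ hγ => ?_
    have h : dist p (((MulAut.conj A).toMonoidHom.comp ρ) γ • p) ≤ R := hγ
    rw [key, ← dist_smul A⁻¹, inv_smul_smul] at h
    exact h
theorem comp (φ : Γ ≃* Γ) : Disc (ρ.comp φ.toMonoidHom) := by
  constructor
  · intro γ p h
    have h2 : φ γ = 1 := hρ.free (φ γ) p h
    exact (map_eq_one_iff φ φ.injective).1 h2
  · intro p R
    exact (hρ.proper p R).preimage (f := φ) φ.injective.injOn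
theorem commute_of_small {p : Pt} {g h : Γ} (hg : dist p (ρ g • p) ≤ marg)
    (hh : dist p (ρ h • p) ≤ marg) : Commute g h := by
  have H := exists_marg.choose_spec.2.2 ρ.range
    (by
      rintro _ ⟨γ, rfl⟩ hne
      exact hρ.noFix fun h1 => hne (by rw [h1, map_one]))
    (by
      intro q R
      refine ((hρ.proper q R).image ρ).subset ?_
      rintro _ ⟨⟨γ, rfl⟩, hγ⟩
      exact ⟨γ, hγ, rfl⟩)
    p (ρ g) ⟨g, rfl⟩ (ρ h) ⟨h, rfl⟩ hg hh
  apply hρ.injective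
  rw [map_mul, map_mul]
  exact H
theorem smul_ne_rev (g : Γ) (l : Geo) : ρ g • l ≠ l.rev := by
  intro h
  obtain ⟨p, hp⟩ := exists_fix_of_smul_eq_rev h
  rw [hρ.free g p hp, map_one, one_smul] at h
  exact l.rev_ne h.symm

end Disc

theorem Lattice.good (h : Lattice ρ) : ∃ A : ℝ, 0 ≤ A ∧ Good ρ (packN A) := by
  obtain ⟨F, hF, hc⟩ := h.2.2
  have := h.disc.countable
  refine ⟨(area F).toReal, ENNReal.toReal_nonneg, h.disc, fun r hr s hs => ?_⟩
  exact pack_of_area ρ ENNReal.toReal_nonneg (ENNReal.ofReal_toReal hF.ne).ge hc hr hs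

end HRT
end

-- merged part: Pool.Agent.Work.MP_35beee_gt.GStab
section
/-!
Lifts of closed geodesics, stabilisers of axes and cusps, roots.
See the header of `GDisc` for the plan.
-/

namespace HRT

open Set Filter Topology Real

variable {Γ : Type*} [Group Γ] {ρ : Γ →* Isom}

theorem GStab_le_cosh (x : ℝ) (hx : 0 ≤ x) : x ≤ cosh x :=
  (Real.self_le_sinh_iff.2 hx).trans (Real.sinh_lt_cosh x).le

/-- A discrete additive parameter on a subgroup has a generator. -/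
theorem GStab_cyclic (S : Subgroup Γ) (φ : Γ → ℝ)
    (hmul : ∀ a ∈ S, ∀ b ∈ S, φ (a * b) = φ a + φ b) (h0 : ∀ a ∈ S, φ a = 0 → a = 1)
    (hfin : ∀ R : ℝ, {a : Γ | a ∈ S ∧ |φ a| ≤ R}.Finite) {a0 : Γ} (ha0 : a0 ∈ S) (hne : a0 ≠ 1) :
    ∃ k ∈ S, 0 < φ k ∧ ∀ a ∈ S, ∃ n : ℤ, a = k ^ n ∧ φ a = n * φ k := by
  let F : S →* Multiplicative ℝ := MonoidHom.mk' (fun a => Multiplicative.ofAdd (φ a.1))
    (fun a b => by
      rw [← ofAdd_add, ← hmul a.1 a.2 b.1 b.2]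
      rfl)
  have hz : ∀ a ∈ S, ∀ n : ℤ, φ (a ^ n) = n * φ a := by
    intro a ha n
    have h1 := congrArg Multiplicative.toAdd (map_zpow F ⟨a, ha⟩ n)
    rw [toAdd_zpow, zsmul_eq_mul] at h1
    exact h1
  obtain ⟨a1, ha1, hp1⟩ : ∃ a1 ∈ S, 0 < φ a1 := by
    rcases lt_or_gt_of_ne (fun h => hne (h0 a0 ha0 h)) with h | h
    · refine ⟨a0 ^ (-1 : ℤ), S.zpow_mem ha0 _, ?_⟩
      rw [hz a0 ha0]
      push_cast
      linarith
    · exact ⟨a0, ha0, h⟩
  have hf : {a : Γ | a ∈ S ∧ 0 < φ a ∧ φ a ≤ φ a1}.Finite :=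
    (hfin (φ a1)).subset fun a ha => ⟨ha.1, by rw [abs_of_pos ha.2.1]; exact ha.2.2⟩
  obtain ⟨k, ⟨hk, hk0, hk1⟩, hmin⟩ := Set.exists_min_image _ φ hf ⟨a1, ha1, hp1, le_rfl⟩
  refine ⟨k, hk, hk0, fun a ha => ?_⟩
  have hb : a * k ^ (-⌊φ a / φ k⌋) ∈ S := S.mul_mem ha (S.zpow_mem hk _)
  have hφ : φ (a * k ^ (-⌊φ a / φ k⌋)) = φ a - ⌊φ a / φ k⌋ * φ k := by
    rw [hmul a ha _ (S.zpow_mem hk _), hz k hk]
    push_cast
    ring
  have h1 : (⌊φ a / φ k⌋ : ℝ) * φ k ≤ φ a := (le_div_iff₀ hk0).1 (Int.floor_le _)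
  have h2 : φ a < ((⌊φ a / φ k⌋ : ℝ) + 1) * φ k := (div_lt_iff₀ hk0).1 (Int.lt_floor_add_one _)
  have h3 : φ (a * k ^ (-⌊φ a / φ k⌋)) = 0 := by
    by_contra h
    have h4 : 0 < φ (a * k ^ (-⌊φ a / φ k⌋)) := lt_of_le_of_ne (by rw [hφ]; linarith only [h1]) (Ne.symm h)
    have h5 := hmin _ ⟨hb, h4, by rw [hφ]; linarith only [hk1, h2]⟩
    rw [hφ] at h5
    linarith only [h2, h5]
  refine ⟨⌊φ a / φ k⌋, ?_, by rw [hφ] at h3; linarith only [h1, h3]⟩
  have h6 := h0 _ hb h3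
  rw [zpow_neg, mul_inv_eq_one] at h6
  exact h6

theorem GStab_zpow_pt {g : Isom} (h : Hyp g) (n : ℤ) (t : ℝ) :
    g ^ n • pt (ax g) t = pt (ax g) (t + n * tl g) := by
  rw [smul_pt, h.zpow_smul_ax, h.sh_zpow]

theorem GStab_pow_pt {g : Isom} (h : Hyp g) (n : ℕ) (t : ℝ) :
    g ^ n • pt (ax g) t = pt (ax g) (t + n * tl g) := by
  have := GStab_zpow_pt h n t
  rwa [zpow_natCast, Int.cast_natCast] at this

theorem GStab_ne_one {g : Isom} (h : Hyp g) : g ≠ 1 := by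
  rintro rfl
  exact h.noFix o (one_smul _ _)

theorem GStab_B_pt_tgt (l : Geo) (t : ℝ) : B (pt l t).1 l.tgt.1 =
    exp (-t) * ((√(-2 * B l.src.1 l.tgt.1))⁻¹ * B l.src.1 l.tgt.1) := by
  show B ((√(-2 * B l.src.1 l.tgt.1))⁻¹ • (exp (-t) • l.src.1 + exp t • l.tgt.1)) l.tgt.1 = _
  rw [B_smul_left, B_add_left, B_smul_left, B_smul_left, l.tgt.2.1]
  ring

theorem GStab_lift_unique {g : Isom} {ξ : Circ} {t t' : ℝ} (h : IsLift g 1 (t • ξ.1))
    (h' : IsLift g 1 (t' • ξ.1)) : t' = t := by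
  rcases h.unique h' with ⟨-, h1⟩ | ⟨h1, -⟩
  · have := congrFun h1 2
    simpa [ξ.2.2] using this
  · norm_num at h1

theorem GStab_lift_mul {g h : Isom} {ξ : Circ} {t t' : ℝ} (hg : IsLift g 1 (t • ξ.1))
    (hh : IsLift h 1 (t' • ξ.1)) : IsLift (g * h) 1 ((t + t') • ξ.1) := by
  have h1 := hg.mul hh
  have h2 : (1 : ℝ) * 1 + B (t • ξ.1) (t' • ξ.1) = 1 := by
    rw [B_smul_left, B_smul_right, ξ.2.1]
    ring
  have h3 : (1 : ℝ) • (t' • ξ.1) + (1 : ℝ) • (t • ξ.1) + cr (t • ξ.1) (t' • ξ.1) =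
      (t + t') • ξ.1 := by
    apply V_ext <;>
      simp only [Pi.add_apply, Pi.smul_apply, smul_eq_mul, cr_0, cr_1, cr_2] <;> ring
  rwa [h2, h3] at h1

namespace Disc

variable (hρ : Disc ρ)
include hρ

theorem finite_lifts {g : Γ} (hg : Hyp (ρ g)) (p : Pt) (R : ℝ) :
    {l : Geo | (∃ γ : Γ, l = ρ γ • ax (ρ g)) ∧ |side l p.1| ≤ R}.Finite := by
  refine ((hρ.finite_near p (pt (ax (ρ g)) 0) (arsinh R + tl (ρ g))).image
    fun γ => ρ γ • ax (ρ g)).subset ?_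
  rintro l ⟨⟨γ, rfl⟩, hl⟩
  have hT : 0 < tl (ρ g) := hg
  obtain ⟨q, rfl⟩ : ∃ q : Pt, p = ρ γ • q := ⟨(ρ γ)⁻¹ • p, (smul_inv_smul _ _).symm⟩
  rw [side_smul_pt] at hl
  refine ⟨γ * g ^ ⌊fer (ax (ρ g)) q.1 / tl (ρ g)⌋, ?_, ?_⟩
  · show dist (ρ γ • q) (ρ (γ * g ^ ⌊fer (ax (ρ g)) q.1 / tl (ρ g)⌋) • pt (ax (ρ g)) 0) ≤ _
    rw [map_mul, map_zpow, mul_smul, dist_smul, GStab_zpow_pt hg]
    have h1 : (⌊fer (ax (ρ g)) q.1 / tl (ρ g)⌋ : ℝ) * tl (ρ g) ≤ fer (ax (ρ g)) q.1 :=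
      (le_div_iff₀ hT).1 (Int.floor_le _)
    have h2 : fer (ax (ρ g)) q.1 < ((⌊fer (ax (ρ g)) q.1 / tl (ρ g)⌋ : ℝ) + 1) * tl (ρ g) :=
      (div_lt_iff₀ hT).1 (Int.lt_floor_add_one _)
    refine (dist_triangle _ (pt (ax (ρ g)) (fer (ax (ρ g)) q.1)) _).trans (add_le_add ?_ ?_)
    · rw [dist_foot, abs_le, ← Real.arsinh_neg, Real.arsinh_le_arsinh, Real.arsinh_le_arsinh]
      exact abs_le.1 hl
    · rw [dist_pt, abs_le]
      constructor <;> linarith only [hT, h1, h2]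
  · show ρ (γ * g ^ ⌊fer (ax (ρ g)) q.1 / tl (ρ g)⌋) • ax (ρ g) = _
    rw [map_mul, map_zpow, mul_smul, hg.zpow_smul_ax]

theorem GStab_share {g h : Γ} (hg : Hyp (ρ g)) (hh : Hyp (ρ h))
    (hs : side (ax (ρ h)) (ax (ρ g)).src.1 = 0) :
    ax (ρ h) = ax (ρ g) ∨ ax (ρ h) = (ax (ρ g)).rev := by
  have hT : 0 < tl (ρ g) := hg
  have hf := hρ.finite_lifts hh (pt (ax (ρ g)) 0)
    |(√(-2 * B (ax (ρ g)).src.1 (ax (ρ g)).tgt.1))⁻¹ * side (ax (ρ h)) (ax (ρ g)).tgt.1|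
  obtain ⟨n, m, hnm, he⟩ := Set.Finite.exists_lt_map_eq_of_forall_mem
    (f := fun n : ℕ => ρ g ^ n • ax (ρ h)) (fun n => by
      refine ⟨⟨g ^ n, by rw [map_pow]⟩, ?_⟩
      have h1 : pt (ax (ρ g)) 0 = ρ g ^ n • pt (ax (ρ g)) (-(n * tl (ρ g))) := by
        rw [GStab_pow_pt hg, neg_add_cancel]
      rw [h1, side_smul_pt, side_pt_eq, hs, mul_zero, zero_add, mul_left_comm, abs_mul,
        abs_of_pos (exp_pos _)]
      refine mul_le_of_le_one_left (abs_nonneg _) (exp_le_one_iff.2 ?_)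
      have : 0 ≤ (n : ℝ) * tl (ρ g) := by positivity
      linarith) hf
  obtain ⟨k, rfl⟩ := Nat.exists_eq_add_of_lt hnm
  have h2 : ρ g ^ (k + 1) • ax (ρ h) = ax (ρ h) := by
    simp only [add_assoc] at he
    rw [pow_add, mul_smul] at he
    exact (smul_left_cancel _ he).symm
  obtain ⟨h3, h4, -⟩ := hg.pow (Nat.succ_ne_zero k)
  rcases (hyp_of_smul_eq h2 (GStab_ne_one h3)).2 with h5 | h5
  · exact Or.inl (h5.symm.trans h4)
  · right
    rw [← h4, h5, Geo.rev_rev]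

theorem ax_eq_of_share {g h : Γ} (hg : Hyp (ρ g)) (hh : Hyp (ρ h))
    (hs : side (ax (ρ g)) (ax (ρ h)).src.1 = 0 ∨ side (ax (ρ g)) (ax (ρ h)).tgt.1 = 0) :
    ax (ρ h) = ax (ρ g) ∨ ax (ρ h) = (ax (ρ g)).rev := by
  have h1 : side (ax (ρ h)) (ax (ρ g)).src.1 = 0 ∨ side (ax (ρ h)) (ax (ρ g)).tgt.1 = 0 := by
    rcases hs with hs | hs <;> rcases (side_eq_zero_iff _ _).1 hs with h1 | h1
    · left; rw [← h1, side_src]
    · right; rw [← h1, side_src]
    · left; rw [← h1, side_tgt]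
    · right; rw [← h1, side_tgt]
  rcases h1 with h1 | h1
  · exact hρ.GStab_share hg hh h1
  · have hg' : Hyp (ρ g⁻¹) := by rw [map_inv]; exact hg.inv
    have ha : ax (ρ g⁻¹) = (ax (ρ g)).rev := by rw [map_inv, hg.ax_inv]
    have h2 := hρ.GStab_share hg' hh (by rw [ha, Geo.src_rev]; exact h1)
    rw [ha, Geo.rev_rev] at h2
    exact h2.symm

theorem GStab_cusp {g u : Γ} (hg : Hyp (ρ g)) (hu : Par (ρ u)) :
    pfix (ρ u) ≠ (ax (ρ g)).tgt := by
  intro he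
  have hT : 0 < tl (ρ g) := hg
  obtain ⟨κ, hκ, hk⟩ := hu.exists_kappa
  set c : ℝ := (√(-2 * B (ax (ρ g)).src.1 (ax (ρ g)).tgt.1))⁻¹ *
    B (ax (ρ g)).src.1 (ax (ρ g)).tgt.1 with hc
  have hB := (ax (ρ g)).B_neg
  have hc0 : c ≠ 0 :=
    mul_ne_zero (inv_ne_zero (Real.sqrt_pos.2 (by linarith only [hB])).ne') hB.ne
  have key : ∀ n : ℕ, cosh (dist (pt (ax (ρ g)) 0) (ρ ((g ^ n)⁻¹ * u * g ^ n) • pt (ax (ρ g)) 0))
      = 1 + κ * (exp (-(n * tl (ρ g))) * c) ^ 2 := by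
    intro n
    have h1 := hk (pt (ax (ρ g)) (n * tl (ρ g))) 1
    rw [he, GStab_B_pt_tgt, zpow_one] at h1
    rw [← dist_smul (ρ g ^ n), map_mul, map_mul, map_inv, map_pow, mul_smul, mul_smul,
      smul_inv_smul, GStab_pow_pt hg, zero_add, h1]
    push_cast
    ring
  refine Set.infinite_of_injective_forall_mem (f := fun n : ℕ => (g ^ n)⁻¹ * u * g ^ n)
    (fun n m hnm => ?_) (fun n => ?_) (hρ.proper (pt (ax (ρ g)) 0) (1 + κ * c ^ 2))
  · have h1 := key n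
    simp only at hnm
    rw [hnm, key m, add_right_inj, mul_right_inj' hκ.ne', mul_pow _ c, mul_pow _ c,
      mul_left_inj' (pow_ne_zero 2 hc0), pow_left_inj₀ (exp_pos _).le (exp_pos _).le two_ne_zero,
      exp_eq_exp, neg_inj, mul_left_inj' hT.ne', Nat.cast_inj] at h1
    exact h1.symm
  · refine (GStab_le_cosh _ dist_nonneg).trans ?_
    rw [key n, mul_pow _ c]
    have h1 : exp (-(n * tl (ρ g))) ≤ 1 := by
      refine exp_le_one_iff.2 ?_
      have : 0 ≤ (n : ℝ) * tl (ρ g) := by positivity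
      linarith
    have h2 : exp (-(n * tl (ρ g))) ^ 2 ≤ 1 := pow_le_one₀ (exp_pos _).le h1
    have h3 : exp (-(n * tl (ρ g))) ^ 2 * c ^ 2 ≤ c ^ 2 := mul_le_of_le_one_left (sq_nonneg c) h2
    have h4 := mul_le_mul_of_nonneg_left h3 hκ.le
    linarith only [h4]

theorem side_ne_zero_of_cusp {g : Γ} (hg : Hyp (ρ g)) {ξ : Circ} (hξ : IsCusp ρ ξ) :
    side (ax (ρ g)) ξ.1 ≠ 0 := by
  obtain ⟨u, hu, rfl⟩ := hξ
  intro h0
  rcases (side_eq_zero_iff _ _).1 h0 with h1 | h1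
  · have hg' : Hyp (ρ g⁻¹) := by rw [map_inv]; exact hg.inv
    refine hρ.GStab_cusp hg' hu ?_
    rw [map_inv, hg.ax_inv, Geo.tgt_rev]
    exact h1
  · exact hρ.GStab_cusp hg hu h1

theorem GStab_gen {g : Γ} (hg : Hyp (ρ g)) : ∃ k : Γ, Hyp (ρ k) ∧ ax (ρ k) = ax (ρ g) ∧
    ∀ a : Γ, ρ a • ax (ρ g) = ax (ρ g) →
      ∃ n : ℤ, a = k ^ n ∧ sh (ρ a) (ax (ρ g)) = n * tl (ρ k) := by
  have hne : g ≠ 1 := by
    rintro rfl
    exact GStab_ne_one hg (map_one ρ)
  obtain ⟨k, hk, hk0, H⟩ := GStab_cyclic ((MulAction.stabilizer Isom (ax (ρ g))).comap ρ)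
    (fun a => sh (ρ a) (ax (ρ g)))
    (fun a _ b hb => by
      have hb' : ρ b • ax (ρ g) = ax (ρ g) := hb
      simp only [map_mul, sh_mul, hb'])
    (fun a ha h0 => hρ.injective ((eq_one_of_sh_eq_zero ha h0).trans (map_one ρ).symm))
    (fun R => (hρ.proper (pt (ax (ρ g)) 0) R).subset fun a ha => by
      have ha' : ρ a • ax (ρ g) = ax (ρ g) := ha.1
      show dist _ _ ≤ R
      rw [smul_pt, ha', dist_pt, zero_add, zero_sub, abs_neg]
      exact ha.2)
    (a0 := g) hg.smul_ax hne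
  obtain ⟨h1, h2⟩ := ax_eq_of_sh_pos (l := ax (ρ g)) hk hk0
  refine ⟨k, h1, h2, fun a ha => ?_⟩
  obtain ⟨n, h3, h4⟩ := H a ha
  refine ⟨n, h3, ?_⟩
  rw [h4, ← h1.sh_ax, h2]

omit hρ in
theorem GStab_nat {A : Geo} {k g : Γ} (hk : Hyp (ρ k))
    (H : ∀ a : Γ, ρ a • A = A → ∃ n : ℤ, a = k ^ n ∧ sh (ρ a) A = n * tl (ρ k))
    (hg : Hyp (ρ g)) (hA : ax (ρ g) = A) :
    ∃ n : ℕ, n ≠ 0 ∧ k ^ n = g ∧ tl (ρ g) = n * tl (ρ k) := by
  subst hA
  obtain ⟨n, h1, h2⟩ := H g hg.smul_ax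
  rw [hg.sh_ax] at h2
  have hT : 0 < tl (ρ g) := hg
  have hK : 0 < tl (ρ k) := hk
  have h3 : (0 : ℝ) < n := by
    rw [h2] at hT
    exact (mul_pos_iff_of_pos_right hK).1 hT
  have h4 : 0 < n := by exact_mod_cast h3
  obtain ⟨m, rfl⟩ := Int.eq_ofNat_of_zero_le h4.le
  refine ⟨m, by omega, ?_, by exact_mod_cast h2⟩
  rw [← zpow_natCast]
  exact h1.symm

theorem exists_root {g : Γ} (hg : Hyp (ρ g)) :
    ∃ (k : Γ) (n : ℕ), n ≠ 0 ∧ k ^ n = g ∧ Prim k ∧ Hyp (ρ k) := by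
  obtain ⟨k, hk, hA, H⟩ := hρ.GStab_gen hg
  obtain ⟨n, hn, h1, -⟩ := GStab_nat hk H hg rfl
  refine ⟨k, n, hn, h1, fun δ m hm => ?_, hk⟩
  have hm0 : m ≠ 0 := by
    rintro rfl
    rw [pow_zero] at hm
    subst hm
    exact GStab_ne_one hk (map_one ρ)
  have he : ρ δ ^ m = ρ k := by rw [← map_pow, hm]
  have hδ : Hyp (ρ δ) := hyp_of_pow (n := m) (by rw [he]; exact hk)
  obtain ⟨-, h2, h3⟩ := hδ.pow hm0
  rw [he] at h2 h3
  obtain ⟨j, -, -, h4⟩ := GStab_nat hk H hδ (h2.symm.trans hA)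
  have hK : 0 < tl (ρ k) := hk
  rw [h4, ← mul_assoc] at h3
  have h5 : (m : ℝ) * j = 1 := by
    have h6 : ((m : ℝ) * j) * tl (ρ k) = 1 * tl (ρ k) := by rw [one_mul]; exact h3.symm
    exact mul_right_cancel₀ hK.ne' h6
  have h7 : m * j = 1 := by exact_mod_cast h5
  exact Nat.eq_one_of_mul_eq_one_right h7

theorem smul_ax_iff {g : Γ} (hg : Hyp (ρ g)) (hp : Prim g) (h : Γ) :
    ρ h • ax (ρ g) = ax (ρ g) ↔ h ∈ Subgroup.zpowers g := by
  constructor
  · intro hh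
    obtain ⟨k, hk, -, H⟩ := hρ.GStab_gen hg
    obtain ⟨n, -, h1, -⟩ := GStab_nat hk H hg rfl
    have h2 := hp k n h1
    rw [h2, pow_one] at h1
    subst h1
    obtain ⟨m, h3, -⟩ := H h hh
    exact ⟨m, h3.symm⟩
  · rintro ⟨n, rfl⟩
    show ρ (g ^ n) • ax (ρ g) = ax (ρ g)
    rw [map_zpow, hg.zpow_smul_ax]

theorem eq_of_ax_eq {g h : Γ} (hg : Hyp (ρ g)) (hp : Prim g) (hh : Hyp (ρ h)) (hp' : Prim h)
    (he : ax (ρ g) = ax (ρ h)) : g = h := by
  obtain ⟨k, hk, -, H⟩ := hρ.GStab_gen hg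
  obtain ⟨n, -, h1, -⟩ := GStab_nat hk H hg rfl
  obtain ⟨m, -, h2, -⟩ := GStab_nat hk H hh he.symm
  rw [← h1, ← h2, hp k n h1, hp' k m h2]

theorem smul_ax_of_fix {g h : Γ} (hg : Hyp (ρ g))
    (hf : ρ h • (ax (ρ g)).src = (ax (ρ g)).src ∨ ρ h • (ax (ρ g)).tgt = (ax (ρ g)).tgt) :
    ρ h • ax (ρ g) = ax (ρ g) := by
  have hg' : Hyp (ρ (h * g * h⁻¹)) := by
    rw [map_mul, map_mul, map_inv]
    exact hg.conj _
  have h1 := hρ.ax_eq_of_share hg hg' (by
    rw [ax_conj' hg, Geo.src_smul, Geo.tgt_smul]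
    rcases hf with hf | hf
    · left; rw [hf, side_src]
    · right; rw [hf, side_tgt])
  rw [ax_conj' hg] at h1
  exact h1.resolve_right (hρ.smul_ne_rev h _)

theorem exists_cusp_gen {ξ : Circ} (hξ : IsCusp ρ ξ) : ∃ u : Γ, Par (ρ u) ∧ pfix (ρ u) = ξ ∧
    ∀ h : Γ, ρ h • ξ = ξ ↔ h ∈ Subgroup.zpowers u := by
  have hpar : ∀ a : Γ, ρ a • ξ = ξ → a ≠ 1 → Par (ρ a) ∧ pfix (ρ a) = ξ := by
    intro a ha h1
    rcases hρ.hyp_or_par h1 with h2 | h2
    · exact absurd ((side_eq_zero_iff _ _).2 ((h2.fix_iff ξ).1 ha))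
        (hρ.side_ne_zero_of_cusp h2 hξ)
    · exact ⟨h2, ((h2.fix_iff ξ).1 ha).symm⟩
  have hex : ∀ a : Γ, ∃ t : ℝ, ρ a • ξ = ξ → IsLift (ρ a) 1 (t • ξ.1) := by
    intro a
    by_cases ha : ρ a • ξ = ξ
    · by_cases h1 : a = 1
      · refine ⟨0, fun _ => ?_⟩
        rw [h1, map_one, zero_smul]
        exact isLift_one
      · obtain ⟨h2, h3⟩ := hpar a ha h1
        obtain ⟨t, -, ht⟩ := h2.exists_isLift
        rw [h3] at ht
        exact ⟨t, fun _ => ht⟩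
    · exact ⟨0, fun h => absurd h ha⟩
  choose φ hφ using hex
  obtain ⟨u, hu, hu'⟩ := hξ
  have hne : u ≠ 1 := by
    rintro rfl
    exact hu.1 o (by rw [map_one, one_smul])
  obtain ⟨k, hk, hk0, H⟩ := GStab_cyclic ((MulAction.stabilizer Isom ξ).comap ρ) φ
    (fun a ha b hb => by
      have h1 := GStab_lift_mul (hφ a ha) (hφ b hb)
      rw [← map_mul] at h1
      exact GStab_lift_unique h1 (hφ _ (Subgroup.mul_mem _ ha hb)))
    (fun a ha h0 => by
      have h1 := hφ a ha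
      rw [h0, zero_smul] at h1
      exact hρ.injective ((isom_ext fun v => (h1.2 v).trans (isLift_one.2 v).symm).trans
        (map_one ρ).symm))
    (fun R => (hρ.proper o (1 + 2 * R ^ 2)).subset fun a ha => by
      refine (GStab_le_cosh _ dist_nonneg).trans ?_
      rw [(hφ a ha.1).cosh_dist, B_smul_left, B_smul_left, B_smul_right, ξ.2.1, B_comm, B_o,
        ξ.2.2]
      have h1 := sq_le_sq' (abs_le.1 ha.2).1 (abs_le.1 ha.2).2
      linarith only [h1])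
    (a0 := u) ((hu.fix_iff ξ).2 hu'.symm) hne
  have hk1 : k ≠ 1 := by
    rintro rfl
    have h1 := hφ 1 hk
    rw [map_one] at h1
    have h2 : IsLift (1 : Isom) 1 ((0 : ℝ) • ξ.1) := by
      rw [zero_smul]
      exact isLift_one
    exact hk0.ne' (GStab_lift_unique h2 h1)
  obtain ⟨h1, h2⟩ := hpar k hk hk1
  refine ⟨k, h1, h2, fun h => ⟨fun hh => ?_, ?_⟩⟩
  · obtain ⟨n, h3, -⟩ := H h hh
    exact ⟨n, h3.symm⟩
  · rintro ⟨n, rfl⟩
    exact Subgroup.zpow_mem ((MulAction.stabilizer Isom ξ).comap ρ) hk n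

/-- Short curves do not cross. -/
theorem not_cross_of_short {g h : Γ} (hg : Hyp (ρ g)) (hh : Hyp (ρ h)) (h1 : tl (ρ g) ≤ marg)
    (h2 : tl (ρ h) ≤ marg) : ¬ Cross (ax (ρ g)) (ax (ρ h)) := by
  intro hc
  have h3 : dist (pt (ax (ρ g)) (xp (ax (ρ g)) (ax (ρ h))))
      (ρ g • pt (ax (ρ g)) (xp (ax (ρ g)) (ax (ρ h)))) ≤ marg := by
    rw [hg.dist_ax]
    exact h1
  have h4 : dist (pt (ax (ρ g)) (xp (ax (ρ g)) (ax (ρ h))))
      (ρ h • pt (ax (ρ g)) (xp (ax (ρ g)) (ax (ρ h)))) ≤ marg := by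
    rw [pt_xp hc, hh.dist_ax]
    exact h2
  rcases (hg.of_commute hh.noFix ((hρ.commute_of_small h3 h4).map ρ)).2 with h5 | h5
  · rw [h5] at hc
    exact not_cross_self _ hc
  · rw [h5, cross_rev_right] at hc
    exact not_cross_self _ hc

end Disc

end HRT
end

-- merged part: Pool.Agent.Work.MP_35beee_gt.GMark
section
/-!
Markings: everything defined by the cyclic order is invariant.

Plan. Signs of `side l ξ` are given by `ccw` (`side_pos_iff`, ...). Freeness: a nontrivial `ρ γ`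
fixes a boundary point, so does `σ γ`; if it also fixes a point it is the identity, and then
`ρ γ` acts trivially on the circle. Properness: if `σ γ` moves `o` by at most `R` then the images
of three boundary points stay uniformly separated (compactness of balls of `Isom`), also after
applying `h.symm` (uniform continuity of `h`), and `exists_bound_of_triple` applies. Hyperbolic
means two fixed points; the attracting one is recognised by `Hyp.tendsto_pow`.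
-/

namespace HRT

open Set Filter Topology Real

/-- The image of a line under a homeomorphism of the circle. -/
def Geo.map (h : Circ ≃ₜ Circ) (l : Geo) : Geo :=
  ⟨(h l.src, h l.tgt), fun e => l.ne (h.injective e)⟩

@[simp] theorem Geo.src_map (h : Circ ≃ₜ Circ) (l : Geo) : (l.map h).src = h l.src := rfl
@[simp] theorem Geo.tgt_map (h : Circ ≃ₜ Circ) (l : Geo) : (l.map h).tgt = h l.tgt := rfl
theorem Geo.map_rev (h : Circ ≃ₜ Circ) (l : Geo) : l.rev.map h = (l.map h).rev := rfl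
@[simp] theorem Geo.map_symm_map (h : Circ ≃ₜ Circ) (l : Geo) : (l.map h).map h.symm = l :=
  Geo.ext (by simp) (by simp)
@[simp] theorem Geo.map_map_symm (h : Circ ≃ₜ Circ) (l : Geo) : (l.map h.symm).map h = l :=
  Geo.ext (by simp) (by simp)
theorem Geo.map_trans (h k : Circ ≃ₜ Circ) (l : Geo) : l.map (h.trans k) = (l.map h).map k := rfl
theorem Geo.map_injective (h : Circ ≃ₜ Circ) : Function.Injective (Geo.map h) :=
  Function.LeftInverse.injective (Geo.map_symm_map h)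
theorem Geo.continuous_map (h : Circ ≃ₜ Circ) : Continuous (Geo.map h) := by
  exact Continuous.subtype_mk
    ((h.continuous.comp Geo.continuous_src).prodMk (h.continuous.comp Geo.continuous_tgt)) _

/-- Orientation preserving. -/
def Ori (h : Circ ≃ₜ Circ) : Prop := ∀ a b c, ccw a b c → ccw (h a) (h b) (h c)

namespace Ori

variable {h : Circ ≃ₜ Circ} (hh : Ori h)
include hh

theorem ccw_iff (a b c : Circ) : ccw (h a) (h b) (h c) ↔ ccw a b c := ccw_iff_of_ccw hh a b c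
theorem symm : Ori h.symm := by
  intro a b c H
  rw [← hh.ccw_iff]
  simpa using H
theorem side_pos (l : Geo) (ξ : Circ) : 0 < side (l.map h) (h ξ).1 ↔ 0 < side l ξ.1 := by
  rw [side_pos_iff, side_pos_iff, Geo.src_map, Geo.tgt_map, hh.ccw_iff]
theorem side_neg (l : Geo) (ξ : Circ) : side (l.map h) (h ξ).1 < 0 ↔ side l ξ.1 < 0 := by
  rw [side_neg_iff, side_neg_iff, Geo.src_map, Geo.tgt_map, hh.ccw_iff]
theorem side_zero (l : Geo) (ξ : Circ) : side (l.map h) (h ξ).1 = 0 ↔ side l ξ.1 = 0 := by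
  rw [side_eq_zero_iff, side_eq_zero_iff, Geo.src_map, Geo.tgt_map, h.injective.eq_iff,
    h.injective.eq_iff]
theorem cross (l m : Geo) : Cross (l.map h) (m.map h) ↔ Cross l m := by
  simp only [cross_iff_ccw, Geo.src_map, Geo.tgt_map, hh.ccw_iff]
theorem nest (l m : Geo) : Nest (l.map h) (m.map h) ↔ Nest l m := by
  rw [nest_iff_circ, nest_iff_circ, h.surjective.forall]
  simp only [hh.side_pos]

end Ori

variable {Γ : Type*} [Group Γ] {ρ σ τ : Γ →* Isom} {h k : Circ ≃ₜ Circ}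

theorem IsMark.ori (hm : IsMark ρ σ h) : Ori h := hm.1
theorem IsMark.refl (ρ : Γ →* Isom) : IsMark ρ ρ (Homeomorph.refl Circ) :=
  ⟨fun _ _ _ h => h, fun _ _ => rfl⟩
theorem IsMark.symm (hm : IsMark ρ σ h) : IsMark σ ρ h.symm := by
  refine ⟨hm.ori.symm, fun γ ξ => h.injective ?_⟩
  rw [hm.2, h.apply_symm_apply, h.apply_symm_apply]
theorem IsMark.trans (hm : IsMark ρ σ h) (hk : IsMark σ τ k) : IsMark ρ τ (h.trans k) := by
  refine ⟨fun a b c H => hk.1 _ _ _ (hm.1 a b c H), fun γ ξ => ?_⟩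
  rw [Homeomorph.trans_apply, Homeomorph.trans_apply, hm.2, hk.2]
theorem IsMark.map_smul (hm : IsMark ρ σ h) (γ : Γ) (l : Geo) :
    (ρ γ • l).map h = σ γ • l.map h := Geo.ext (hm.2 γ l.src) (hm.2 γ l.tgt)
theorem isMark_conj (ρ : Γ →* Isom) (A : Isom) :
    IsMark ρ ((MulAut.conj A).toMonoidHom.comp ρ) (Homeomorph.smul A) := by
  refine ⟨fun a b c H => (ccw_smul_iff A).2 H, fun γ ξ => ?_⟩
  change A • ρ γ • ξ = (A * ρ γ * A⁻¹) • A • ξ
  rw [mul_smul, mul_smul, inv_smul_smul]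
theorem IsMark.comp (hm : IsMark ρ σ h) (φ : Γ →* Γ) : IsMark (ρ.comp φ) (σ.comp φ) h :=
  ⟨hm.1, fun γ ξ => hm.2 (φ γ) ξ⟩
theorem IsMark.gmark_eq_one (hm : IsMark ρ σ h) {γ : Γ} (e : σ γ = 1) : ρ γ = 1 :=
  eq_of_smul_circ_eq fun ξ => h.injective (by rw [hm.2, e, one_smul, one_smul])
theorem gmark_sep (h : Circ ≃ₜ Circ) {K : Set Isom} (hK : IsCompact K) {a b : Circ} (hab : a ≠ b) :
    ∃ δ > 0, ∀ g ∈ K, δ ≤ dist (h.symm (g • h a)) (h.symm (g • h b)) := by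
  have hc : Continuous fun g : Isom => dist (h.symm (g • h a)) (h.symm (g • h b)) :=
    (h.symm.continuous.comp (continuous_id.smul continuous_const)).dist
      (h.symm.continuous.comp (continuous_id.smul continuous_const))
  exact hK.exists_forall_le' hc.continuousOn fun g _ => dist_pos.2 fun e =>
    hab (h.injective (smul_left_cancel g (h.symm.injective e)))
theorem IsMark.disc (hm : IsMark ρ σ h) (hρ : Disc ρ) : Disc σ := by
  refine ⟨fun γ p hp => ?_, fun p R => ?_⟩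
  · by_contra hne
    obtain ⟨ξ, hξ⟩ : ∃ ξ : Circ, ρ γ • ξ = ξ := by
      rcases hρ.hyp_or_par hne with H | H
      · exact ⟨_, (H.fix_iff _).2 (Or.inl rfl)⟩
      · exact ⟨_, (H.fix_iff _).2 rfl⟩
    have h1 : σ γ = 1 := eq_one_of_fix_pt_circ hp (ξ := h ξ) (by rw [← hm.2, hξ])
    exact hne (hρ.free γ p (by rw [hm.gmark_eq_one h1, one_smul]))
  · obtain ⟨φ, -, -, hφ, -⟩ := exists_param (toCirc 0)
    have hc : ccw (toCirc 0) (φ 0) (φ 1) := (hφ 0 1).2 one_pos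
    have hK := isCompact_isom_ball p p R
    obtain ⟨δ₁, p1, h1⟩ := gmark_sep h hK hc.ne12
    obtain ⟨δ₂, p2, h2⟩ := gmark_sep h hK hc.ne23
    obtain ⟨δ₃, p3, h3⟩ := gmark_sep h hK hc.ne13
    obtain ⟨R', hR⟩ := exists_bound_of_triple hc.ne12 hc.ne23 hc.ne13
      (lt_min p1 (lt_min p2 p3))
    have e : ∀ (γ : Γ) (ξ : Circ), h.symm (σ γ • h ξ) = ρ γ • ξ := fun γ ξ => by
      rw [← hm.2, h.symm_apply_apply]
    refine (hρ.proper o R').subset fun γ hγ => hR (ρ γ) ?_ ?_ ?_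
    · have := h1 _ hγ
      rw [e, e] at this
      exact (min_le_left _ _).trans this
    · have := h2 _ hγ
      rw [e, e] at this
      exact ((min_le_right _ _).trans (min_le_left _ _)).trans this
    · have := h3 _ hγ
      rw [e, e] at this
      exact ((min_le_right _ _).trans (min_le_right _ _)).trans this
theorem IsMark.hyp (hm : IsMark ρ σ h) {γ : Γ} (hγ : Hyp (ρ γ)) :
    Hyp (σ γ) ∧ ax (σ γ) = (ax (ρ γ)).map h := by
  have h1 : σ γ • (ax (ρ γ)).map h = (ax (ρ γ)).map h := by rw [← hm.map_smul, hγ.smul_ax]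
  have h2 : σ γ ≠ 1 := fun e => hγ.noFix o (by rw [hm.gmark_eq_one e, one_smul])
  obtain ⟨h3, h4 | h4⟩ := hyp_of_smul_eq h1 h2
  · exact ⟨h3, h4⟩
  · exfalso
    obtain ⟨ξ, hξ⟩ := arc_nonempty (ax (ρ γ)).ne
    have hξ' : ccw (ax (ρ γ)).src ξ (ax (ρ γ)).tgt := hξ
    have t1 := (h.continuous.tendsto _).comp (hγ.tendsto_pow hξ'.ne12.symm)
    have t2 := h3.tendsto_pow (ξ := h ξ) (by
      rw [h4, Geo.src_rev, Geo.tgt_map]
      exact fun e => hξ'.ne23 (h.injective e))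
    have e : (h ∘ fun n : ℕ => ρ γ ^ n • ξ) = fun n : ℕ => σ γ ^ n • h ξ := by
      funext n
      rw [Function.comp_apply, ← map_pow, ← map_pow, hm.2]
    rw [e] at t1
    have t3 := tendsto_nhds_unique t1 t2
    rw [h4, Geo.tgt_rev, Geo.src_map] at t3
    exact (ax (ρ γ)).ne (h.injective t3).symm
theorem IsMark.hyp_iff (hm : IsMark ρ σ h) (γ : Γ) : Hyp (σ γ) ↔ Hyp (ρ γ) :=
  ⟨fun H => (hm.symm.hyp H).1, fun H => (hm.hyp H).1⟩
theorem IsMark.par (hm : IsMark ρ σ h) {γ : Γ} (hγ : Par (ρ γ)) :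
    Par (σ γ) ∧ pfix (σ γ) = h (pfix (ρ γ)) := by
  have h1 : σ γ • h (pfix (ρ γ)) = h (pfix (ρ γ)) := by rw [← hm.2, (hγ.fix_iff _).2 rfl]
  have h2 : σ γ ≠ 1 := fun e => hγ.1 o (by rw [hm.gmark_eq_one e, one_smul])
  rcases (noFix_of_fix_circ h2 h1).hyp_or_par with H | H
  · exact absurd hγ ((hm.hyp_iff γ).1 H).not_par
  · exact ⟨H, ((H.fix_iff _).1 h1).symm⟩
theorem IsMark.isCusp_iff (hm : IsMark ρ σ h) (ξ : Circ) : IsCusp σ (h ξ) ↔ IsCusp ρ ξ := by
  constructor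
  · rintro ⟨u, hu, e⟩
    obtain ⟨h1, h2⟩ := hm.symm.par hu
    exact ⟨u, h1, by rw [h2, e, h.symm_apply_apply]⟩
  · rintro ⟨u, hu, e⟩
    obtain ⟨h1, h2⟩ := hm.par hu
    exact ⟨u, h1, by rw [h2, e]⟩
theorem IsMark.gmark_link (hm : IsMark ρ σ h) {γ δ : Γ} (H : Link (ρ γ) (ρ δ)) :
    Link (σ γ) (σ δ) := by
  obtain ⟨a, b, c, d, ha, hb, hc, hd, h1, h2⟩ := H
  exact ⟨h a, h b, h c, h d, by rw [← hm.2, ha], by rw [← hm.2, hb], by rw [← hm.2, hc],
    by rw [← hm.2, hd], hm.1 _ _ _ h1, hm.1 _ _ _ h2⟩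
theorem IsMark.link_iff (hm : IsMark ρ σ h) (γ δ : Γ) :
    Link (σ γ) (σ δ) ↔ Link (ρ γ) (ρ δ) := by
  exact ⟨hm.symm.gmark_link, hm.gmark_link⟩
theorem IsMark.simple_iff (hm : IsMark ρ σ h) (γ : Γ) : Simple σ γ ↔ Simple ρ γ := by
  have h1 : 0 < tl (σ γ) ↔ 0 < tl (ρ γ) := hm.hyp_iff γ
  simp only [Simple, h1, hm.link_iff]
theorem IsMark.simpleLine_iff (hm : IsMark ρ σ h) (l : Geo) :
    SimpleLine σ (l.map h) ↔ SimpleLine ρ l := by
  simp only [SimpleLine, ← hm.map_smul, hm.ori.cross]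
theorem IsMark.inter_eq (hm : IsMark ρ σ h) (γ δ : Γ) : inter σ γ δ = inter ρ γ δ := by
  refine Nat.card_congr (Quot.congr (Equiv.subtypeEquivRight fun d => ?_) fun a b => Iff.rfl)
  rw [hm.link_iff]
theorem IsMark.multi_iff (hm : IsMark ρ σ h) {ι : Type} (R : ι → Γ) : Multi σ R ↔ Multi ρ R := by
  simp only [Multi, hm.simple_iff, hm.link_iff]
theorem simple_comp (φ : Γ ≃* Γ) (γ : Γ) : Simple (ρ.comp φ.toMonoidHom) γ ↔ Simple ρ (φ γ) := by
  have h1 : (∀ (δ : Γ) (n : ℕ), δ ^ n = γ → n = 1) ↔ ∀ (δ : Γ) (n : ℕ), δ ^ n = φ γ → n = 1 := by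
    rw [φ.surjective.forall (p := fun δ => ∀ n : ℕ, δ ^ n = φ γ → n = 1)]
    simp only [← map_pow, φ.injective.eq_iff]
  have h2 : (∀ g : Γ, ¬ Link (ρ (φ γ)) (ρ (φ (g * γ * g⁻¹)))) ↔
      ∀ g : Γ, ¬ Link (ρ (φ γ)) (ρ (g * φ γ * g⁻¹)) := by
    rw [φ.surjective.forall (p := fun g => ¬ Link (ρ (φ γ)) (ρ (g * φ γ * g⁻¹)))]
    simp only [map_mul φ, map_inv φ]
  exact and_congr Iff.rfl (and_congr h1 h2)
theorem inter_comp (φ : Γ ≃* Γ) (γ δ : Γ) :
    inter (ρ.comp φ.toMonoidHom) γ δ = inter ρ (φ γ) (φ δ) := by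
  refine Nat.card_congr (Quot.congr (Equiv.subtypeEquiv φ.toEquiv fun d => ?_) fun a b => ?_)
  · refine and_congr ⟨fun H => φ.toMonoidHom.map_isConj H, fun H => ?_⟩ Iff.rfl
    simpa using φ.symm.toMonoidHom.map_isConj H
  · refine exists_congr fun n => ?_
    change _ ↔ φ b.1 = φ γ ^ n * φ a.1 * (φ γ ^ n)⁻¹
    rw [← map_zpow, ← map_inv, ← map_mul, ← map_mul, φ.injective.eq_iff]
theorem Good.conj {N : ℝ → ℝ} (hρ : Good ρ N) (A : Isom) :
    Good ((MulAut.conj A).toMonoidHom.comp ρ) N := by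
  refine ⟨hρ.toDisc.conj A, fun r hr s hs => ?_⟩
  have h1 := hρ.pack r hr (s.map (MulAction.toPerm A⁻¹).toEmbedding) ?_
  · rwa [Finset.card_map] at h1
  · intro p hp q hq g hg
    obtain ⟨p', hp', rfl⟩ := Finset.mem_map.1 hp
    obtain ⟨q', hq', rfl⟩ := Finset.mem_map.1 hq
    have h2 := hs p' hp' q' hq' g (hg.imp_left fun H e => H (by rw [e]))
    change r ≤ dist p' ((A * ρ g * A⁻¹) • q') at h2
    change r ≤ dist (A⁻¹ • p') (ρ g • A⁻¹ • q')
    rwa [← dist_smul A, smul_inv_smul, ← mul_smul, ← mul_smul]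
theorem Good.comp {N : ℝ → ℝ} (hρ : Good ρ N) (φ : Γ ≃* Γ) : Good (ρ.comp φ.toMonoidHom) N := by
  refine ⟨hρ.toDisc.comp φ, fun r hr s hs => hρ.pack r hr s fun p hp q hq g hg => ?_⟩
  have h2 := hs p hp q hq (φ.symm g) (hg.imp_right fun H e => H (by simpa using e))
  change r ≤ dist p (ρ (φ (φ.symm g)) • q) at h2
  rwa [φ.apply_symm_apply] at h2

end HRT
end

-- merged part: Pool.Agent.Work.MP_35beee_gt.GColl
section
/-!
Collars, twisting numbers, the nearest translate of a simple line.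

Plan. `shadow_le`: if the shadow of `m` on `ax g` were longer than `tl g`, the endpoints of `m` and
`g • m` would be linked (`ccw_iff_fer_right/left`). `colW_le` then follows from `proj_formula`.
`Disc.band_eq`: in `band`, `|x| < 1` is impossible (free action, `g h ≠ 1`), and `x < 1`: if
`b ≤ a` are the half lengths, `colW_le` for the shorter element gives `cosh D ≥ coth b`, so
`x ≤ cosh b * exp (-a) < 1`.
`twist_sub_le`: choose `n` with `R l - tl g < R (g^n m) ≤ R l` for the projections `R` of the right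
endpoints and compare the left endpoints, also for `n - 1` and `n + 1`.
`IsMark.exists_twist_shift`: on each side `x ↦ fer (h ξ_x) / tl` is increasing and commutes with
`x ↦ x + 1`.
`exists_nearest`: let `M = ⌊N 1⌋₊ + 1`, `Δ = ε / M`, `r ≥ 1` with `cosh r * sinh (Δ/2) ≥ sinh (1/2)`
and `r ≤ log (1/ε) + C`; the `M` points `fermi l (j Δ) r` are not `1`-separated, and elements
preserving `l` cannot be responsible. So a translate `g • l ≠ l` has a point on its left which is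
on the left of `l`; use `nest_cases` and replace `g` by `g⁻¹` in one case.
-/

namespace HRT

open Set Filter Topology Real

/-- The width of the elementary collar. -/
noncomputable def colW (ε : ℝ) : ℝ := arsinh (1 / sinh (ε / 2))

theorem colW_pos {ε : ℝ} (h : 0 < ε) : 0 < colW ε := by
  unfold colW
  rw [arsinh_pos_iff]
  exact one_div_pos.2 (sinh_pos_iff.2 (half_pos h))

theorem colW_anti {ε δ : ℝ} (h : 0 < ε) (hle : ε ≤ δ) : colW δ ≤ colW ε := by
  unfold colW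
  rw [arsinh_le_arsinh]
  exact one_div_le_one_div_of_le (sinh_pos_iff.2 (half_pos h)) (sinh_le_sinh.2 (by linarith only [hle]))

theorem GColl_sinh_half {ε : ℝ} (h : 0 ≤ ε) (h1 : ε ≤ 1) : sinh (ε / 2) ≤ ε := by
  have h2 : 1 - ε / 2 ≤ exp (-(ε / 2)) := by linarith only [add_one_le_exp (-(ε / 2))]
  have h3 : exp (ε / 2) * exp (-(ε / 2)) = 1 := by rw [← exp_add, add_neg_cancel, exp_zero]
  have h4 : exp (ε / 2) ≤ 1 + ε := by
    by_contra hc
    have h5 := mul_lt_mul_of_pos_right (not_le.1 hc) (exp_pos (-(ε / 2)))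
    have h6 := mul_le_mul_of_nonneg_left h2 (show 0 ≤ 1 + ε by linarith only [h])
    linarith only [h3, h5, h6, h, h1, mul_nonneg_of_nonpos_of_nonpos (Mathlib.Tactic.Linarith.sub_nonpos_of_le h) (Mathlib.Tactic.Linarith.sub_nonpos_of_le h1)]
  rw [sinh_eq]
  linarith only [h, h2, h4]

theorem log_le_colW {ε : ℝ} (h : 0 < ε) (h1 : ε ≤ 1) : log (1 / ε) ≤ colW ε := by
  unfold colW
  rw [← sinh_le_sinh, sinh_arsinh, sinh_log (one_div_pos.2 h)]
  have h2 : 1 / ε ≤ 1 / sinh (ε / 2) :=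
    one_div_le_one_div_of_le (sinh_pos_iff.2 (half_pos h)) (GColl_sinh_half h.le h1)
  have h3 : 0 < 1 / ε := one_div_pos.2 h
  have h4 : 0 < (1 / ε)⁻¹ := inv_pos.2 h3
  linarith only [h2, h3, h4]

theorem GColl_cross {a : Circ} {l m : Geo} (h1 : ccw a l.src m.src) (h2 : ccw a m.src l.tgt)
    (h3 : ccw a l.tgt m.tgt) : Cross l m :=
  (cross_iff_ccw l m).2 (Or.inl ⟨h1.trans' h2, ((h1.trans h2).trans' h3).cyc⟩)

theorem shadow_le {g : Isom} (hg : Hyp g) {m : Geo}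
    (hs : 0 < side (ax g) m.src.1 * side (ax g) m.tgt.1) (hc : ¬ Cross m (g • m)) :
    |fer (ax g) m.src.1 - fer (ax g) m.tgt.1| ≤ tl g := by
  have hA := hg.smul_ax
  have hτ : 0 < tl g := hg
  have key : ∀ m : Geo, 0 < side (ax g) m.src.1 * side (ax g) m.tgt.1 → ¬ Cross m (g • m) →
      fer (ax g) m.tgt.1 - fer (ax g) m.src.1 ≤ tl g := by
    intro m hs hc
    by_contra hlt
    have hlt := not_le.1 hlt
    have h1 : side (ax g) m.src.1 ≠ 0 := left_ne_zero_of_mul hs.ne'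
    have h2 : side (ax g) m.tgt.1 ≠ 0 := right_ne_zero_of_mul hs.ne'
    have f1 := fer_smul_circ g (ax g) h1
    have f2 := fer_smul_circ g (ax g) h2
    rw [hA, hg.sh_ax] at f1 f2
    apply hc
    rcases pos_and_pos_or_neg_and_neg_of_mul_pos hs with ⟨p1, p2⟩ | ⟨p1, p2⟩
    · have q1 := (side_smul_circ_pos g (ax g) m.src).2 p1
      have q2 := (side_smul_circ_pos g (ax g) m.tgt).2 p2
      rw [hA] at q1 q2
      have := GColl_cross (a := (ax g).src) (l := (g • m).rev) (m := m.rev)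
        ((ccw_iff_fer_left _ q2 p2).2 (by rw [f2]; linarith))
        ((ccw_iff_fer_left _ p2 q1).2 (by rw [f1]; exact by simpa using by linarith))
        ((ccw_iff_fer_left _ q1 p1).2 (by rw [f1]; exact by simpa using by linarith))
      simpa using this.symm
    · have q1 := (side_smul_circ_neg g (ax g) m.src).2 p1
      have q2 := (side_smul_circ_neg g (ax g) m.tgt).2 p2
      rw [hA] at q1 q2
      exact GColl_cross (a := (ax g).src) (l := m) (m := g • m)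
        ((ccw_iff_fer_right _ p1 q1).2 (by rw [f1]; linarith))
        ((ccw_iff_fer_right _ q1 p2).2 (by rw [f1]; linarith))
        ((ccw_iff_fer_right _ p2 q2).2 (by rw [f2]; linarith))
  rw [abs_le]
  have k1 := key m hs hc
  have k2 := key m.rev (by rw [mul_comm]; exact hs) (by rw [Geo.smul_rev]; simpa using hc)
  simp only [Geo.src_rev, Geo.tgt_rev] at k2
  constructor <;> linarith

theorem colW_le {g : Isom} (hg : Hyp g) {m : Geo}
    (hs : 0 < side (ax g) m.src.1 * side (ax g) m.tgt.1) (hc : ¬ Cross m (g • m)) :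
    colW (tl g) ≤ ldist (ax g) m := by
  have h1 := shadow_le hg hs hc
  have h2 := proj_formula hs
  have h3 : 0 ≤ sinh (|fer (ax g) m.src.1 - fer (ax g) m.tgt.1| / 2) :=
    sinh_nonneg_iff.2 (by positivity)
  have h4 : 0 < sinh (|fer (ax g) m.src.1 - fer (ax g) m.tgt.1| / 2) :=
    lt_of_le_of_ne h3 fun h0 => by rw [← h0, zero_mul] at h2; exact zero_ne_one h2
  unfold colW
  rw [← sinh_le_sinh, sinh_arsinh, eq_one_div_of_mul_eq_one_right h2]
  exact one_div_le_one_div_of_le h4 (sinh_le_sinh.2 (by linarith only [h1]))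

theorem GColl_zpow_neg {g : Isom} (hg : Hyp g) (n : ℤ) {ξ : Circ} (h : side (ax g) ξ.1 < 0) :
    side (ax g) (g ^ n • ξ).1 < 0 ∧ fer (ax g) (g ^ n • ξ).1 = fer (ax g) ξ.1 + n * tl g := by
  have h1 := (side_smul_circ_neg (g ^ n) (ax g) ξ).2 h
  have h2 := fer_smul_circ (g ^ n) (ax g) h.ne
  rw [hg.zpow_smul_ax] at h1 h2
  rw [hg.sh_zpow] at h2
  exact ⟨h1, h2⟩

theorem GColl_zpow_pos {g : Isom} (hg : Hyp g) (n : ℤ) {ξ : Circ} (h : 0 < side (ax g) ξ.1) :
    0 < side (ax g) (g ^ n • ξ).1 ∧ fer (ax g) (g ^ n • ξ).1 = fer (ax g) ξ.1 + n * tl g := by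
  have h1 := (side_smul_circ_pos (g ^ n) (ax g) ξ).2 h
  have h2 := fer_smul_circ (g ^ n) (ax g) h.ne'
  rw [hg.zpow_smul_ax] at h1 h2
  rw [hg.sh_zpow] at h2
  exact ⟨h1, h2⟩

theorem GColl_cross_of_fer {A l m : Geo} (l1 : side A l.src.1 < 0) (l2 : 0 < side A l.tgt.1)
    (m1 : side A m.src.1 < 0) (m2 : 0 < side A m.tgt.1) (h1 : fer A l.src.1 < fer A m.src.1)
    (h2 : fer A m.tgt.1 < fer A l.tgt.1) : Cross l m :=
  GColl_cross (a := A.src) ((ccw_iff_fer_right _ l1 m1).2 h1)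
    (((side_neg_iff _ _).1 m1).trans ((side_pos_iff _ _).1 l2)) ((ccw_iff_fer_left _ l2 m2).2 h2)

theorem GColl_exists_mul {τ : ℝ} (hτ : 0 < τ) (x : ℝ) : ∃ n : ℤ, x < n * τ ∧ n * τ ≤ x + τ := by
  refine ⟨⌊x / τ⌋ + 1, ?_, ?_⟩
  · rw [← div_lt_iff₀ hτ]
    push_cast
    exact Int.lt_floor_add_one _
  · have := (le_div_iff₀ hτ).1 (Int.floor_le (x / τ))
    push_cast
    linarith only [this]

theorem GColl_orient {A l : Geo} (h : Cross A l) :
    ∃ l' : Geo, side A l'.src.1 < 0 ∧ 0 < side A l'.tgt.1 ∧ (l' = l ∨ l' = l.rev) := by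
  rcases mul_neg_iff.1 h with ⟨h1, h2⟩ | ⟨h1, h2⟩
  · exact ⟨l.rev, h2, h1, Or.inr rfl⟩
  · exact ⟨l, h1, h2, Or.inl rfl⟩

theorem twist_sub_le {g : Isom} (hg : Hyp g) {l m : Geo} (hl : Cross (ax g) l)
    (hm : Cross (ax g) m) (hc : ∀ n : ℤ, ¬ Cross l (g ^ n • m)) :
    |twist (ax g) l - twist (ax g) m| ≤ tl g := by
  have hτ : 0 < tl g := hg
  have key : ∀ l m : Geo, side (ax g) l.src.1 < 0 → 0 < side (ax g) l.tgt.1 →
      side (ax g) m.src.1 < 0 → 0 < side (ax g) m.tgt.1 → (∀ n : ℤ, ¬ Cross l (g ^ n • m)) →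
      |twist (ax g) l - twist (ax g) m| ≤ tl g := by
    intro l m l1 l2 m1 m2 hc
    have h0 : ∀ n : ℤ, ¬ (fer (ax g) l.src.1 - fer (ax g) m.src.1 < n * tl g ∧
        n * tl g < fer (ax g) l.tgt.1 - fer (ax g) m.tgt.1) ∧
        ¬ (fer (ax g) l.tgt.1 - fer (ax g) m.tgt.1 < n * tl g ∧
        n * tl g < fer (ax g) l.src.1 - fer (ax g) m.src.1) := by
      intro n
      obtain ⟨q1, f1⟩ := GColl_zpow_neg hg n m1
      obtain ⟨q2, f2⟩ := GColl_zpow_pos hg n m2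
      refine ⟨fun h => hc n ?_, fun h => hc n ?_⟩
      · exact GColl_cross_of_fer (m := g ^ n • m) l1 l2 q1 q2
          (by rw [Geo.src_smul, f1]; linarith [h.1]) (by rw [Geo.tgt_smul, f2]; linarith [h.2])
      · exact (GColl_cross_of_fer (l := g ^ n • m) q1 q2 l1 l2
          (by rw [Geo.src_smul, f1]; linarith [h.2])
          (by rw [Geo.tgt_smul, f2]; linarith [h.1])).symm
    unfold twist
    rw [if_pos l1, if_pos m1, abs_le]
    constructor
    · by_contra hlt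
      obtain ⟨n, hn1, hn2⟩ := GColl_exists_mul hτ (fer (ax g) l.src.1 - fer (ax g) m.src.1)
      exact (h0 n).1 ⟨hn1, by linarith [not_le.1 hlt]⟩
    · by_contra hlt
      obtain ⟨n, hn1, hn2⟩ := GColl_exists_mul hτ (fer (ax g) l.tgt.1 - fer (ax g) m.tgt.1)
      exact (h0 n).2 ⟨hn1, by linarith [not_le.1 hlt]⟩
  obtain ⟨l', l1, l2, l3⟩ := GColl_orient hl
  obtain ⟨m', m1, m2, m3⟩ := GColl_orient hm
  have := key l' m' l1 l2 m1 m2 fun n => by
    rcases l3 with rfl | rfl <;> rcases m3 with rfl | rfl <;> simpa [Geo.smul_rev] using hc n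
  rcases l3 with rfl | rfl <;> rcases m3 with rfl | rfl <;>
    simpa only [twist_rev_right hl, twist_rev_right hm] using this

variable {Γ : Type*} [Group Γ] {ρ σ : Γ →* Isom}

theorem GColl_sides (hρ : Disc ρ) {g h : Γ} (hg : Hyp (ρ g)) (hh : Hyp (ρ h))
    (hn : Nest (ax (ρ g)).rev (ax (ρ h))) (hne : ax (ρ h) ≠ (ax (ρ g)).rev)
    (hne' : ax (ρ h) ≠ ax (ρ g)) :
    0 < side (ax (ρ g)) (ax (ρ h)).src.1 * side (ax (ρ g)) (ax (ρ h)).tgt.1 ∧
      0 < side (ax (ρ h)) (ax (ρ g)).src.1 * side (ax (ρ h)) (ax (ρ g)).tgt.1 := by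
  obtain ⟨n1, n2, n3, n4, -⟩ := (nest_iff_ends _ _).1 hn
  rw [Geo.src_rev] at n1
  rw [Geo.tgt_rev] at n2
  rw [side_rev, neg_nonpos] at n3 n4
  have k1 := mt (hρ.ax_eq_of_share hg hh) (not_or.2 ⟨hne', hne⟩)
  have k2 := mt (hρ.ax_eq_of_share hh hg)
    (not_or.2 ⟨hne'.symm, fun e => hne (by rw [e, Geo.rev_rev])⟩)
  rw [not_or] at k1 k2
  exact ⟨mul_pos (lt_of_le_of_ne n3 (Ne.symm k1.1)) (lt_of_le_of_ne n4 (Ne.symm k1.2)),
    mul_pos (lt_of_le_of_ne n2 (Ne.symm k2.1)) (lt_of_le_of_ne n1 (Ne.symm k2.2))⟩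

theorem GColl_cosh_le {ε D : ℝ} (h : 0 < ε) (hD : colW ε ≤ D) :
    cosh (ε / 2) ≤ sinh (ε / 2) * cosh D := by
  have h1 : 0 < sinh (ε / 2) := sinh_pos_iff.2 (half_pos h)
  unfold colW at hD
  rw [← sinh_le_sinh, sinh_arsinh, div_le_iff₀ h1] at hD
  refine (mul_self_le_mul_self_iff (cosh_pos _).le (mul_pos h1 (cosh_pos D)).le).2 ?_
  have h2 := cosh_sq' (ε / 2)
  have h3 := cosh_sq' D
  have h4 : 1 ≤ (sinh D * sinh (ε / 2)) ^ 2 := one_le_pow₀ hD
  have h5 : sinh (ε / 2) * cosh D * (sinh (ε / 2) * cosh D) =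
      sinh (ε / 2) ^ 2 + (sinh D * sinh (ε / 2)) ^ 2 := by
    linear_combination sinh (ε / 2) ^ 2 * h3
  rw [h5, ← pow_two, h2]
  linarith only [h4]

theorem GColl_lt_one {a b D : ℝ} (ha : 0 < a) (hab : a ≤ b) (h : cosh a ≤ sinh a * D) :
    cosh a * cosh b - sinh a * sinh b * D < 1 := by
  have h1 : 0 ≤ sinh b := sinh_nonneg_iff.2 (by linarith)
  have h2 := mul_le_mul_of_nonneg_left h h1
  have h3 : cosh a < exp a := by
    rw [← cosh_add_sinh]
    linarith [sinh_pos_iff.2 ha]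
  have h4 : cosh a * exp (-b) < exp b * exp (-b) :=
    mul_lt_mul_of_pos_right (h3.trans_le (exp_le_exp.2 hab)) (exp_pos _)
  rw [← exp_add, add_neg_cancel, exp_zero, ← cosh_sub_sinh] at h4
  linarith

/-- The length of the band sum, and the sharp collar lemma. -/
theorem Disc.band_eq (hρ : Disc ρ) {g h : Γ} (hg : Hyp (ρ g)) (hh : Hyp (ρ h))
    (hn : Nest (ax (ρ g)).rev (ax (ρ h))) (hne : ax (ρ h) ≠ (ax (ρ g)).rev)
    (hne' : ax (ρ h) ≠ ax (ρ g))
    (h1 : ¬ Cross (ax (ρ h)) (ρ g • ax (ρ h))) (h2 : ¬ Cross (ax (ρ g)) (ρ h • ax (ρ g))) :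
    cosh (tl (ρ (g * h)) / 2) =
      sinh (tl (ρ g) / 2) * sinh (tl (ρ h) / 2) * cosh (ldist (ax (ρ g)) (ax (ρ h))) -
        cosh (tl (ρ g) / 2) * cosh (tl (ρ h) / 2) := by
  obtain ⟨s1, s2⟩ := GColl_sides hρ hg hh hn hne hne'
  have c1 := GColl_cosh_le hg (colW_le hg s1 h1)
  have c2 := GColl_cosh_le hh (colW_le hh s2 h2)
  rw [ldist_comm] at c2
  obtain ⟨b1, b2, b3⟩ := band hg hh hn (left_ne_zero_of_mul s1.ne') (right_ne_zero_of_mul s1.ne')
    rfl
  have ha : 0 < tl (ρ g) / 2 := half_pos hg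
  have hb : 0 < tl (ρ h) / 2 := half_pos hh
  rw [map_mul]
  generalize tl (ρ g) / 2 = a at *
  generalize tl (ρ h) / 2 = b at *
  generalize cosh (ldist (ax (ρ g)) (ax (ρ h))) = D at *
  have hx : cosh a * cosh b - sinh a * sinh b * D < 1 := by
    rcases le_total a b with hab | hab
    · have := GColl_lt_one ha hab c1
      linarith
    · have := GColl_lt_one hb hab c2
      linarith
  have hx1 : 1 ≤ |cosh a * cosh b - sinh a * sinh b * D| := by
    by_contra hlt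
    obtain ⟨p, hp⟩ := b1 (not_le.1 hlt)
    rw [← map_mul] at hp b3
    exact b3 (by rw [hρ.free _ p hp, map_one])
  rw [b2 hx1]
  rcases le_abs.1 hx1 with h3 | h3
  · exact absurd hx (not_lt.2 h3)
  · rw [abs_of_neg (by linarith)]
    ring

theorem Disc.band_le (hρ : Disc ρ) {g h : Γ} (hg : Hyp (ρ g)) (hh : Hyp (ρ h))
    (hn : Nest (ax (ρ g)).rev (ax (ρ h))) (hne : ax (ρ h) ≠ (ax (ρ g)).rev)
    (hne' : ax (ρ h) ≠ ax (ρ g))
    (h1 : ¬ Cross (ax (ρ h)) (ρ g • ax (ρ h))) (h2 : ¬ Cross (ax (ρ g)) (ρ h • ax (ρ g)))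
    (hg1 : tl (ρ g) ≤ 1) (hh1 : tl (ρ h) ≤ 1) :
    tl (ρ (g * h)) / 2 + log (1 / tl (ρ g)) + log (1 / tl (ρ h)) ≤
      ldist (ax (ρ g)) (ax (ρ h)) := by
  have h0 := hρ.band_eq hg hh hn hne hne' h1 h2
  have hD : 0 ≤ ldist (ax (ρ g)) (ax (ρ h)) := by
    have := ldist_nonneg hn.not_cross
    rwa [ldist_rev_left] at this
  have ha : 0 < tl (ρ g) := hg
  have hb : 0 < tl (ρ h) := hh
  have sa := GColl_sinh_half ha.le hg1
  have sb := GColl_sinh_half hb.le hh1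
  have pa : 0 < sinh (tl (ρ g) / 2) := sinh_pos_iff.2 (half_pos ha)
  have pb : 0 < sinh (tl (ρ h) / 2) := sinh_pos_iff.2 (half_pos hb)
  have qa := sinh_lt_cosh (tl (ρ g) / 2)
  have qb := sinh_lt_cosh (tl (ρ h) / 2)
  generalize tl (ρ (g * h)) / 2 = T at *
  generalize ldist (ax (ρ g)) (ax (ρ h)) = D at *
  generalize tl (ρ g) = a at *
  generalize tl (ρ h) = b at *
  have e1 : sinh (a / 2) * sinh (b / 2) ≤ a * b := mul_le_mul sa sb pb.le ha.le
  have e2 : sinh (a / 2) * sinh (b / 2) ≤ cosh (a / 2) * cosh (b / 2) :=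
    mul_le_mul qa.le qb.le pb.le (cosh_pos _).le
  have e3 : exp (-D) ≤ 1 := exp_le_one_iff.2 (by linarith only [hD])
  have e4 : 0 < sinh (a / 2) * sinh (b / 2) := mul_pos pa pb
  have e5 := mul_le_mul_of_nonneg_left e3 e4.le
  have e6 := mul_le_mul_of_nonneg_right e1 (exp_pos D).le
  have e7 : exp T ≤ a * b * exp D := by
    rw [cosh_eq T, cosh_eq D] at h0
    linarith only [h0, e2, e4, e5, e6, exp_pos (-T)]
  have e8 := log_le_log (exp_pos T) e7
  rw [log_exp, log_mul (mul_pos ha hb).ne' (exp_pos D).ne', log_mul ha.ne' hb.ne', log_exp] at e8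
  rw [one_div, one_div, log_inv, log_inv]
  linarith only [e8]

theorem GColl_shift {X : Type*} {P : X → Prop} {x y : X → ℝ} {τ υ : ℝ} (hτ : 0 < τ) (hυ : 0 < υ)
    (h1 : ∀ a b, P a → P b → (x a < x b ↔ y a < y b))
    (h2 : ∀ a, P a → ∀ n : ℤ, ∃ b, P b ∧ x b = x a + n * τ ∧ y b = y a + n * υ) :
    ∃ c : ℝ, ∀ a, P a → |y a / υ - x a / τ - c| ≤ 1 := by
  by_cases he : ∃ a, P a
  · obtain ⟨a, ha⟩ := he
    refine ⟨y a / υ - x a / τ, fun b hb => ?_⟩
    obtain ⟨n, hn1, hn2⟩ := GColl_exists_mul hτ (x b - x a)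
    obtain ⟨b1, p1, q1, r1⟩ := h2 a ha n
    obtain ⟨b2, p2, q2, r2⟩ := h2 a ha (n - 1)
    push_cast at q2 r2
    have e1 : y b < y b1 := (h1 _ _ hb p1).1 (by linarith)
    have e2 : y b2 ≤ y b :=
      not_lt.1 fun hlt => absurd ((h1 _ _ hb p2).2 hlt) (not_lt.2 (by linarith))
    have f1 : (x b - x a) / τ < n := (div_lt_iff₀ hτ).2 hn1
    have f2 : (n : ℝ) - 1 ≤ (x b - x a) / τ := (le_div_iff₀ hτ).2 (by linarith)
    have f3 : (y b - y a) / υ < n := (div_lt_iff₀ hυ).2 (by linarith only [r1, e1])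
    have f4 : (n : ℝ) - 1 ≤ (y b - y a) / υ := (le_div_iff₀ hυ).2 (by linarith only [r2, e2])
    rw [sub_div] at f1 f2 f3 f4
    rw [abs_le]
    constructor <;> linarith only [f1, f4, f2, f3]
  · exact ⟨0, fun a ha => absurd ⟨a, ha⟩ he⟩

theorem IsMark.exists_twist_shift {h : Circ ≃ₜ Circ} (hm : IsMark ρ σ h) {s : Γ}
    (hs : Hyp (ρ s)) : ∃ t : ℝ, ∀ l : Geo, Cross (ax (ρ s)) l →
      |twist (ax (σ s)) (l.map h) / tl (σ s) - twist (ax (ρ s)) l / tl (ρ s) - t| ≤ 2 := by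
  obtain ⟨hs', hax⟩ := hm.hyp hs
  have hτ : 0 < tl (ρ s) := hs
  have hτ' : 0 < tl (σ s) := hs'
  have hsrc : (ax (σ s)).src = h (ax (ρ s)).src := by rw [hax, Geo.src_map]
  have hpow : ∀ (n : ℤ) (ξ : Circ), h (ρ s ^ n • ξ) = σ s ^ n • h ξ := fun n ξ => by
    rw [← map_zpow, ← map_zpow, hm.2]
  have neg : ∀ {ξ : Circ}, side (ax (ρ s)) ξ.1 < 0 → side (ax (σ s)) (h ξ).1 < 0 := fun hξ => by
    rw [hax]; exact (hm.ori.side_neg _ _).2 hξ
  have pos : ∀ {ξ : Circ}, 0 < side (ax (ρ s)) ξ.1 → 0 < side (ax (σ s)) (h ξ).1 := fun hξ => by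
    rw [hax]; exact (hm.ori.side_pos _ _).2 hξ
  obtain ⟨c, hc⟩ := GColl_shift (P := fun ξ : Circ => side (ax (ρ s)) ξ.1 < 0)
    (x := fun ξ => fer (ax (ρ s)) ξ.1) (y := fun ξ => fer (ax (σ s)) (h ξ).1) hτ hτ'
    (fun ξ η hξ hη => by
      rw [← ccw_iff_fer_right _ hξ hη, ← ccw_iff_fer_right _ (neg hξ) (neg hη), hsrc,
        hm.ori.ccw_iff])
    (fun ξ hξ n => ⟨ρ s ^ n • ξ, (GColl_zpow_neg hs n hξ).1, (GColl_zpow_neg hs n hξ).2, by
      rw [hpow]; exact (GColl_zpow_neg hs' n (neg hξ)).2⟩)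
  obtain ⟨d, hd⟩ := GColl_shift (P := fun ξ : Circ => 0 < side (ax (ρ s)) ξ.1)
    (x := fun ξ => fer (ax (ρ s)) ξ.1) (y := fun ξ => fer (ax (σ s)) (h ξ).1) hτ hτ'
    (fun ξ η hξ hη => by
      rw [← ccw_iff_fer_left _ hη hξ, ← ccw_iff_fer_left _ (pos hη) (pos hξ), hsrc,
        hm.ori.ccw_iff])
    (fun ξ hξ n => ⟨ρ s ^ n • ξ, (GColl_zpow_pos hs n hξ).1, (GColl_zpow_pos hs n hξ).2, by
      rw [hpow]; exact (GColl_zpow_pos hs' n (pos hξ)).2⟩)
  have key : ∀ l : Geo, side (ax (ρ s)) l.src.1 < 0 → 0 < side (ax (ρ s)) l.tgt.1 →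
      |twist (ax (σ s)) (l.map h) / tl (σ s) - twist (ax (ρ s)) l / tl (ρ s) - (c - d)| ≤ 2 := by
    intro l l1 l2
    have k1 := abs_le.1 (hc _ l1)
    have k2 := abs_le.1 (hd _ l2)
    unfold twist
    rw [Geo.src_map, Geo.tgt_map, if_pos l1, if_pos (neg l1), sub_div, sub_div, abs_le]
    constructor <;> linarith only [k1, k2, k1.1, k1.2, k2.1, k2.2]
  refine ⟨c - d, fun l hl => ?_⟩
  obtain ⟨l', l1, l2, rfl | rfl⟩ := GColl_orient hl
  · exact key _ l1 l2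
  · have := key _ l1 l2
    rwa [Geo.map_rev, twist_rev_right hl,
      twist_rev_right (by rw [hax]; exact (hm.ori.cross _ _).2 hl)] at this

theorem GColl_far (l : Geo) {Δ r s t : ℝ} (hΔ : 0 < Δ) (hr : exp r * Δ = 4) (h : Δ ≤ |s - t|) :
    1 ≤ dist (fermi l s r) (fermi l t r) := by
  have h1 := cosh_dist_fermi l s r t r
  have h2 : cosh Δ ≤ cosh (s - t) := cosh_le_cosh.2 (by rwa [abs_of_pos hΔ])
  have h3 : 1 + Δ ^ 2 / 2 ≤ cosh Δ := by
    have e1 := cosh_two_mul (Δ / 2)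
    have e2 := cosh_sq' (Δ / 2)
    have e3 : Δ / 2 ≤ sinh (Δ / 2) := self_le_sinh_iff.2 (by linarith only [hΔ])
    have e4 := pow_le_pow_left₀ (by linarith only [hΔ]) e3 2
    rw [show 2 * (Δ / 2) = Δ by ring] at e1
    linarith only [e1, e2, e4]
  have h4 : 2 ≤ cosh r * Δ := by
    have e1 := mul_pos (exp_pos (-r)) hΔ
    rw [cosh_eq]
    linarith only [hr, e1]
  have h5 := pow_le_pow_left₀ (by norm_num) h4 2
  have h6 := mul_le_mul_of_nonneg_left (h3.trans h2) (sq_nonneg (cosh r))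
  have h7 := cosh_sq' r
  have h8 : cosh 1 < 3 := by
    have := cosh_add_sinh 1
    linarith only [this, exp_one_lt_three, sinh_pos_iff.2 one_pos]
  have h9 : cosh 1 ≤ cosh (dist (fermi l s r) (fermi l t r)) := by
    rw [h1]
    linarith only [h5, h6, h7, h8]
  rwa [cosh_le_cosh, abs_one, abs_of_nonneg dist_nonneg] at h9

theorem exists_nearest (Γ : Type*) [Group Γ] (N : ℝ → ℝ) : ∃ C : ℝ, 0 ≤ C ∧
    ∀ (ρ : Γ →* Isom), Good ρ N → ∀ (l : Geo), SimpleLine ρ l → ∀ ε : ℝ, 0 < ε → ε ≤ 1 →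
      (∀ g : Γ, ρ g • l = l → g = 1 ∨ ε ≤ tl (ρ g)) → ∀ t : ℝ,
        ∃ g : Γ, ρ g • l ≠ l ∧ dist (pt l t) (ρ g • pt l t) ≤ 2 * log (1 / ε) + C ∧
          (Nest (ρ g • l) l ∨ Nest (ρ g • l).rev l) := by
  classical
  obtain ⟨M, hMN, hM0⟩ : ∃ M : ℕ, N 1 < M ∧ 0 < M :=
    ⟨⌊N 1⌋₊ + 1, by push_cast; exact Nat.lt_floor_add_one _, Nat.succ_pos _⟩
  have hM1 : (1 : ℝ) ≤ M := by exact_mod_cast hM0
  have hlog : 1 ≤ log (4 * (M : ℝ)) := by
    rw [le_log_iff_exp_le (by linarith only [hM1])]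
    linarith only [hM1, exp_one_lt_three]
  refine ⟨2 * log (4 * M) + 3, by linarith, fun ρ hρ l hl ε hε hε1 hst t => ?_⟩
  obtain ⟨Δ, hΔ, hΔM⟩ : ∃ Δ : ℝ, 0 < Δ ∧ M * Δ = ε := ⟨ε / M, by positivity, by field_simp⟩
  obtain ⟨r, hr⟩ : ∃ r : ℝ, r = log (1 / ε) + log (4 * M) := ⟨_, rfl⟩
  have hr1 : 1 ≤ r := by
    have : 0 ≤ log (1 / ε) := log_nonneg (one_le_one_div hε hε1)
    linarith only [hlog, hr, this]
  have hr2 : exp r * Δ = 4 := by
    rw [hr, exp_add, exp_log (by positivity), exp_log (by positivity), ← hΔM]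
    field_simp
  have hinj : Function.Injective fun j : ℕ => fermi l (t + j * Δ) r := fun i j hij => by
    have h1 := congrArg (fun p : Pt => fer l p.1) hij
    simp only [fer_fermi, add_right_inj] at h1
    exact_mod_cast mul_right_cancel₀ hΔ.ne' h1
  have hns : ¬ Sep ρ 1 ((Finset.range M).image fun j : ℕ => fermi l (t + j * Δ) r) := fun hsep => by
    have h1 := hρ.pack 1 one_pos _ hsep
    rw [Finset.card_image_of_injective _ hinj, Finset.card_range] at h1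
    linarith only [hMN, h1]
  simp only [Sep, Finset.forall_mem_image, not_forall, not_le, Finset.mem_range] at hns
  obtain ⟨i, hi, j, hj, g, hg, hd⟩ := hns
  have bd : ∀ k : ℕ, k < M → 0 ≤ (k : ℝ) * Δ ∧ (k : ℝ) * Δ + Δ ≤ ε := fun k hk => by
    have h1 : (k : ℝ) + 1 ≤ M := by exact_mod_cast hk
    have h2 := mul_le_mul_of_nonneg_right h1 hΔ.le
    exact ⟨by positivity, by linarith only [hΔM, h2]⟩
  obtain ⟨i0, i1⟩ := bd i hi
  obtain ⟨j0, j1⟩ := bd j hj
  have hne : ρ g • l ≠ l := fun he => by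
    rw [smul_fermi, he] at hd
    refine absurd hd (not_lt.2 (GColl_far l hΔ hr2 ?_))
    by_cases hg1 : g = 1
    · have hsh : sh (ρ g) l = 0 := by
        have := tl_of_smul_eq he
        rw [hg1, map_one, tl_eq_zero_of_fix (one_smul Isom o)] at this
        rw [hg1, map_one]
        exact abs_eq_zero.1 this.symm
      have hij : i ≠ j := by
        rintro rfl
        exact hg.elim (fun h => h rfl) fun h => h hg1
      rw [hsh]
      rcases lt_or_gt_of_ne hij with h | h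
      · have h1 : (i : ℝ) + 1 ≤ j := by exact_mod_cast h
        have h2 := mul_le_mul_of_nonneg_right h1 hΔ.le
        exact le_abs.2 (Or.inr (by linarith only [h2]))
      · have h1 : (j : ℝ) + 1 ≤ i := by exact_mod_cast h
        have h2 := mul_le_mul_of_nonneg_right h1 hΔ.le
        exact le_abs.2 (Or.inl (by linarith only [h2]))
    · have h1 := (hst g he).resolve_left hg1
      rw [tl_of_smul_eq he] at h1
      rcases le_abs.1 h1 with h | h
      · exact le_abs.2 (Or.inr (by linarith only [i1, j0, h]))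
      · exact le_abs.2 (Or.inl (by linarith only [i0, j1, h]))
  have hdist : dist (pt l t) (ρ g • pt l t) ≤ 2 * log (1 / ε) + (2 * log (4 * M) + 3) := by
    have h1 := dist_fermi_le l t (t + i * Δ) 0 r
    have h2 := dist_fermi_le l (t + j * Δ) t r 0
    rw [fermi_zero, abs_zero, abs_of_pos (by linarith only [hr1] : 0 < r)] at h1 h2
    rw [abs_of_nonpos (by linarith only [i0])] at h1
    rw [abs_of_nonneg (by linarith only [j0]), ← dist_smul (ρ g)] at h2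
    have h3 := dist_triangle4 (pt l t) (fermi l (t + i * Δ) r) (ρ g • fermi l (t + j * Δ) r)
      (ρ g • pt l t)
    linarith only [hε1, hΔ, hr, hd, i1, j1, h1, h2, h3]
  have hs1 : 0 < side (ρ g • l) (ρ g • fermi l (t + j * Δ) r).1 := by
    rw [side_smul_pt, side_fermi]
    exact sinh_pos_iff.2 (by linarith only [hr1])
  have hs2 : 0 < side l (ρ g • fermi l (t + j * Δ) r).1 := by
    have h1 := (abs_le.1 (abs_arsinh_side_le l (fermi l (t + i * Δ) r)
      (ρ g • fermi l (t + j * Δ) r))).2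
    rw [side_fermi, arsinh_sinh] at h1
    exact arsinh_pos_iff.1 (by linarith only [hr1, hd, h1])
  rcases nest_cases (hl g) with h | h | h | h
  · refine ⟨g⁻¹, fun he => hne ?_, ?_, Or.inl ?_⟩
    · rw [map_inv, inv_smul_eq_iff] at he
      exact he.symm
    · rw [← dist_smul (ρ g), map_inv, smul_inv_smul, dist_comm]
      exact hdist
    · rw [← nest_smul (ρ g), map_inv, smul_inv_smul]
      exact h
  · exact ⟨g, hne, hdist, Or.inl h⟩
  · have h1 := h _ hs2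
    rw [side_rev] at h1
    linarith only [hs1, h1]
  · exact ⟨g, hne, hdist, Or.inr h.rev⟩

end HRT
end

-- merged part: Pool.Agent.Work.MP_35beee_gt.GSys
section
/-!
Locally finite invariant systems of disjoint lines (the lifts of a multicurve), the lines
separating two points, in order.

Plan. `Multi.sys`: `finite_lifts`, `ax_eq_of_share` and `colW_le`. The lines separating `p` from
`q` meet the segment, so they are finitely many, and they are nested by `nest_or_nest`.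
-/

namespace HRT

open Set Filter Topology Real

variable {Γ : Type*} [Group Γ] {ρ σ : Γ →* Isom}

/-- An invariant, symmetric, locally finite, uniformly separated family of disjoint lines. -/
structure Sys (ρ : Γ →* Isom) (L : Set Geo) : Prop where
  smul : ∀ (g : Γ), ∀ l ∈ L, ρ g • l ∈ L
  rev : ∀ l ∈ L, l.rev ∈ L
  nc : ∀ l ∈ L, ∀ m ∈ L, ¬ Cross l m
  fin : ∀ (p : Pt) (R : ℝ), {l ∈ L | |side l p.1| ≤ R}.Finite
  gap : ∃ w > 0, ∀ l ∈ L, ∀ m ∈ L, m ≠ l → m ≠ l.rev → w ≤ ldist l m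

/-- The oriented lifts of a family of curves. -/
def lifts (ρ : Γ →* Isom) {ι : Type} (R : ι → Γ) : Set Geo :=
  {l | ∃ (i : ι) (g : Γ), l = ρ g • ax (ρ (R i)) ∨ l = (ρ g • ax (ρ (R i))).rev}

theorem GSys_ax_inv {g : Γ} (h : Hyp (ρ g)) : ax (ρ g⁻¹) = (ax (ρ g)).rev := by
  rw [map_inv, h.ax_inv]

theorem GSys_rev_inj {l m : Geo} (h : l.rev = m.rev) : l = m := by
  simpa using congrArg Geo.rev h

theorem GSys_move {g k : Γ} {l m : Geo} (h : ρ k • m = ρ g • l) : ρ (g⁻¹ * k) • m = l := by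
  rw [map_mul, map_inv, mul_smul, h, inv_smul_smul]

theorem GSys_mem {ι : Type} {R : ι → Γ} (hR : ∀ i, Hyp (ρ (R i))) {l : Geo} :
    l ∈ lifts ρ R ↔ ∃ (i : ι) (c : Γ), (IsConj (R i) c ∨ IsConj (R i)⁻¹ c) ∧ ax (ρ c) = l := by
  have hi : ∀ i, Hyp (ρ (R i)⁻¹) := fun i => by rw [map_inv]; exact (hR i).inv
  constructor
  · rintro ⟨i, g, rfl | rfl⟩
    · exact ⟨i, g * R i * g⁻¹, Or.inl (isConj_iff.2 ⟨g, rfl⟩), ax_conj' (hR i) g⟩
    · refine ⟨i, g * (R i)⁻¹ * g⁻¹, Or.inr (isConj_iff.2 ⟨g, rfl⟩), ?_⟩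
      rw [ax_conj' (hi i), GSys_ax_inv (hR i), Geo.smul_rev]
  · rintro ⟨i, c, hc | hc, rfl⟩ <;> obtain ⟨g, rfl⟩ := isConj_iff.1 hc
    · exact ⟨i, g, Or.inl (ax_conj' (hR i) g)⟩
    · refine ⟨i, g, Or.inr ?_⟩
      rw [ax_conj' (hi i), GSys_ax_inv (hR i), Geo.smul_rev]

theorem GSys_tl {a c : Γ} (h : IsConj a c ∨ IsConj a⁻¹ c) : tl (ρ c) = tl (ρ a) := by
  rcases h with h | h <;> obtain ⟨g, rfl⟩ := isConj_iff.1 h
  · exact tl_conj' a g
  · rw [tl_conj', map_inv, tl_inv]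

theorem multi_iff {ι : Type} {R : ι → Γ} (hρ : Disc ρ) : Multi ρ R ↔ (∀ i, Simple ρ (R i)) ∧
    ∀ i j, i ≠ j → ∀ g : Γ, ¬ Cross (ax (ρ (R i))) (ρ g • ax (ρ (R j))) ∧
      ρ g • ax (ρ (R j)) ≠ ax (ρ (R i)) ∧ ρ g • ax (ρ (R j)) ≠ (ax (ρ (R i))).rev := by
  refine and_congr_right fun hS => forall_congr' fun i => forall_congr' fun j =>
    forall_congr' fun _ => forall_congr' fun g => ?_
  have hc := (hS j).conj g
  rw [link_iff (hS i).hyp hc.hyp, ← ax_conj' (hS j).hyp g, ← GSys_ax_inv (hS i).hyp]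
  refine and_congr_right fun _ => and_congr (not_congr ⟨fun h => ?_, fun h => ?_⟩)
    (not_congr ⟨fun h => ?_, fun h => ?_⟩)
  · rw [← h]
  · exact hρ.eq_of_ax_eq (hS i).hyp (hS i).prim hc.hyp hc.prim h.symm
  · rw [← h]
  · exact hρ.eq_of_ax_eq (hS i).inv.hyp (hS i).inv.prim hc.hyp hc.prim h.symm

theorem multi_single {s : Γ} (hs : Simple ρ s) : Multi ρ fun _ : Unit => s :=
  ⟨fun _ => hs, fun _ _ h => absurd (Subsingleton.elim _ _) h⟩

theorem Multi.comp {ι κ : Type} {R : ι → Γ} (h : Multi ρ R) {e : κ → ι}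
    (he : Function.Injective e) : Multi ρ (R ∘ e) :=
  ⟨fun i => h.1 (e i), fun i j hij => h.2 (e i) (e j) fun h' => hij (he h')⟩

theorem GSys_nc {ι : Type} {R : ι → Γ} (hρ : Disc ρ) (h : Multi ρ R) (i j : ι) (g k : Γ) :
    ¬ Cross (ρ g • ax (ρ (R i))) (ρ k • ax (ρ (R j))) := by
  by_cases hij : i = j
  · subst hij
    exact (h.1 i).line.not_cross g k
  · intro hc
    refine (((multi_iff hρ).1 h).2 i j hij (g⁻¹ * k)).1 ?_
    rwa [← cross_smul (ρ g)⁻¹, inv_smul_smul, ← mul_smul, ← map_inv, ← map_mul] at hc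

theorem GSys_smul {ι : Type} {R : ι → Γ} (g : Γ) {l : Geo} (hl : l ∈ lifts ρ R) :
    ρ g • l ∈ lifts ρ R := by
  obtain ⟨i, k, rfl | rfl⟩ := hl
  · exact ⟨i, g * k, Or.inl (by rw [map_mul, mul_smul])⟩
  · exact ⟨i, g * k, Or.inr (by rw [map_mul, mul_smul, Geo.smul_rev])⟩

theorem GSys_nc' {ι : Type} {R : ι → Γ} (hρ : Disc ρ) (h : Multi ρ R) {l m : Geo}
    (hl : l ∈ lifts ρ R) (hm : m ∈ lifts ρ R) : ¬ Cross l m := by
  obtain ⟨i, g, rfl | rfl⟩ := hl <;> obtain ⟨j, k, rfl | rfl⟩ := hm <;>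
    simpa only [cross_rev_left, cross_rev_right] using GSys_nc hρ h i j g k

theorem Multi.sys {ι : Type} [Finite ι] {R : ι → Γ} (hρ : Disc ρ) (h : Multi ρ R) :
    Sys ρ (lifts ρ R) := by
  have hR : ∀ i, Hyp (ρ (R i)) := fun i => (h.1 i).hyp
  refine ⟨fun g l hl => GSys_smul g hl, ?_, fun l hl m hm => GSys_nc' hρ h hl hm,
    fun p r => ?_, ?_⟩
  · rintro l ⟨i, k, rfl | rfl⟩
    · exact ⟨i, k, Or.inr rfl⟩
    · exact ⟨i, k, Or.inl rfl⟩
  · refine (finite_iUnion fun i => (hρ.finite_lifts (hR i) p r).union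
      ((hρ.finite_lifts (hR i) p r).image Geo.rev)).subset ?_
    rintro l ⟨⟨i, k, rfl | rfl⟩, hl⟩
    · exact mem_iUnion.2 ⟨i, Or.inl ⟨⟨k, rfl⟩, hl⟩⟩
    · rw [side_rev, abs_neg] at hl
      exact mem_iUnion.2 ⟨i, Or.inr ⟨_, ⟨⟨k, rfl⟩, hl⟩, rfl⟩⟩
  · obtain ⟨w, w0, hw⟩ : ∃ w > 0, ∀ i, w ≤ colW (tl (ρ (R i))) := by
      rcases isEmpty_or_nonempty ι with hι | hι
      · exact ⟨1, one_pos, fun i => hι.elim i⟩
      · obtain ⟨i, hi⟩ := Finite.exists_min fun i => colW (tl (ρ (R i)))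
        exact ⟨_, colW_pos (hR i), hi⟩
    refine ⟨w, w0, fun l hl m hm h1 h2 => ?_⟩
    have hlm := GSys_nc' hρ h hl hm
    obtain ⟨i, c, hc, rfl⟩ := (GSys_mem hR).1 hl
    have hc' : Hyp (ρ c) := by rw [Hyp, GSys_tl hc]; exact hR i
    have hmm := GSys_nc' hρ h hm (GSys_smul c hm)
    obtain ⟨j, d, hd, rfl⟩ := (GSys_mem hR).1 hm
    have hd' : Hyp (ρ d) := by rw [Hyp, GSys_tl hd]; exact hR j
    refine (hw i).trans ?_
    rw [← GSys_tl hc]
    refine colW_le hc' (lt_of_le_of_ne (not_lt.1 hlm) fun h0 => ?_) hmm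
    exact (hρ.ax_eq_of_share hc' hd' (mul_eq_zero.1 h0.symm)).elim h1 h2

theorem Multi.label_unique {ι : Type} {R : ι → Γ} (hρ : Disc ρ) (h : Multi ρ R) {i j : ι}
    {l : Geo} (hi : l ∈ lifts ρ fun _ : Unit => R i) (hj : l ∈ lifts ρ fun _ : Unit => R j) :
    i = j := by
  by_contra hij
  have H := ((multi_iff hρ).1 h).2 i j hij
  obtain ⟨u, g, hg⟩ := hi
  obtain ⟨v, k, hk⟩ := hj
  rcases hg with rfl | rfl <;> rcases hk with hk | hk
  · exact (H (g⁻¹ * k)).2.1 (GSys_move hk.symm)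
  · exact (H (g⁻¹ * k)).2.2 (GSys_move (congrArg Geo.rev hk).symm)
  · exact (H (g⁻¹ * k)).2.2 (GSys_move hk.symm)
  · exact (H (g⁻¹ * k)).2.1 (GSys_move (GSys_rev_inj hk).symm)

theorem mem_lifts_iff {ι : Type} {R : ι → Γ} (hR : ∀ i, Hyp (ρ (R i))) {l : Geo} :
    l ∈ lifts ρ R ↔ ∃ (i : ι) (c : Γ), (IsConj (R i) c ∨ IsConj (R i)⁻¹ c) ∧ ax (ρ c) = l :=
  GSys_mem hR

theorem IsMark.mem_lifts {h : Circ ≃ₜ Circ} (hm : IsMark ρ σ h) {ι : Type} {R : ι → Γ}
    (hR : ∀ i, Hyp (ρ (R i))) (l : Geo) : l.map h ∈ lifts σ R ↔ l ∈ lifts ρ R := by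
  refine exists_congr fun i => exists_congr fun g => ?_
  rw [(hm.hyp (hR i)).2, ← hm.map_smul, ← Geo.map_rev, (Geo.map_injective h).eq_iff,
    (Geo.map_injective h).eq_iff]

/-- A weight on the lifts given by a weight on the components. -/
theorem Multi.exists_weight {ι : Type} {R : ι → Γ} (hρ : Disc ρ) (h : Multi ρ R) (t : ι → ℝ) :
    ∃ τ : Geo → ℝ, ∀ (i : ι), ∀ l ∈ lifts ρ fun _ : Unit => R i, τ l = t i := by
  classical
  refine ⟨fun l => if H : ∃ i, l ∈ lifts ρ fun _ : Unit => R i then t H.choose else 0,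
    fun i l hl => ?_⟩
  have H : ∃ i, l ∈ lifts ρ fun _ : Unit => R i := ⟨i, hl⟩
  beta_reduce
  rw [dif_pos H, h.label_unique hρ H.choose_spec hl]

end HRT
end

-- merged part: Pool.Agent.Work.MP_35beee_gt.GSrt
section
/-!
The lines of a system separating two points, in order. They meet the segment, so they are
finitely many, and they are nested by `nest_or_nest`.
-/

namespace HRT

open Set Filter Topology Real

variable {Γ : Type*} [Group Γ] {ρ σ : Γ →* Isom}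

/-- Points off the lines. -/
def Off (L : Set Geo) (p : Pt) : Prop := ∀ l ∈ L, side l p.1 ≠ 0

/-- Lines with `p` on the right and `v` on the left. -/
def sepS (L : Set Geo) (p : Pt) (v : V) : Set Geo := {l ∈ L | side l p.1 < 0 ∧ 0 < side l v}

open Classical in
/-- The lines separating `p` from `q`, in the order in which they are met. -/
noncomputable def srt (L : Set Geo) (p q : Pt) : List Geo :=
  if h : ∃ s : List Geo, (∀ l, l ∈ s ↔ l ∈ sepS L p q.1) ∧ s.Pairwise fun l m => Nest m l ∧ m ≠ l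
  then h.choose else []

theorem GSrt_sort {α : Type*} (r : α → α → Prop) (ht : ∀ a b c, r a b → r b c → r a c)
    {S : Set α} (hS : S.Finite) (htot : ∀ a ∈ S, ∀ b ∈ S, r a b ∨ r b a) :
    ∃ s : List α, (∀ a, a ∈ s ↔ a ∈ S) ∧ s.Pairwise fun a b => r a b ∧ b ≠ a := by
  classical
  have _ := hS.fintype
  refine ⟨((Finset.univ : Finset S).toList.mergeSort fun a b => decide (r a.1 b.1)).map
    Subtype.val, fun a => by simp, List.pairwise_map.2 ?_⟩
  have h1 := List.pairwise_mergeSort (le := fun a b : S => decide (r a.1 b.1))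
    (fun a b c h h' => by simpa using ht _ _ _ (by simpa using h) (by simpa using h'))
    (fun a b => by simpa using htot _ a.2 _ b.2) (Finset.univ : Finset S).toList
  have h2 : ((Finset.univ : Finset S).toList.mergeSort fun a b => decide (r a.1 b.1)).Nodup :=
    (List.mergeSort_perm _ _).nodup_iff.2 (Finset.nodup_toList _)
  exact (h1.and h2).imp fun h => ⟨by simpa using h.1, fun e => h.2 (Subtype.ext e.symm)⟩

theorem GSrt_share {l m : Geo} {ξ : Circ} (hl : side l ξ.1 = 0) (hm : side m ξ.1 = 0) :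
    ldist l m = 0 := by
  have h := congrArg (B (nrm m)) (expand l (nrm m))
  rw [B_nrm_nrm, B_add_right, B_add_right, B_smul_right, B_smul_right, B_smul_right,
    B_comm (nrm m) (nrm l), side] at h
  have h1 : B (nrm l) (nrm m) * B (nrm l) (nrm m) = 1 := by
    rcases (side_eq_zero_iff l ξ).1 hl with rfl | rfl
    · rw [side] at hm
      rw [hm] at h
      simpa using h.symm
    · rw [side] at hm
      rw [hm] at h
      simpa using h.symm
  have h2 : |B (nrm l) (nrm m)| = 1 := by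
    rcases mul_self_eq_one_iff.1 h1 with h3 | h3 <;> simp [h3]
  rw [ldist, h2]
  simp [arcosh]

theorem GSrt_abs {l : Geo} {p q : Pt} (h : side l p.1 * side l q.1 ≤ 0) :
    |side l p.1| ≤ sinh (dist p q) := by
  have h1 := abs_le.1 (abs_arsinh_side_le l p q)
  rw [← sinh_arsinh (side l p.1), abs_sinh, sinh_le_sinh]
  rcases lt_trichotomy (side l p.1) 0 with h2 | h2 | h2
  · have h3 := arsinh_nonneg_iff.2 (nonneg_of_mul_nonpos_right h h2)
    rw [abs_of_neg (arsinh_neg_iff.2 h2)]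
    linarith [h1.1]
  · rw [h2, arsinh_zero, abs_zero]
    exact dist_nonneg
  · have h3 := arsinh_nonpos_iff.2 (nonpos_of_mul_nonpos_right h h2)
    rw [abs_of_pos (arsinh_pos_iff.2 h2)]
    linarith [h1.2]

theorem GSrt_side {l : Geo} {p q r : Pt} {s t : ℝ} (h : q.1 = s • p.1 + t • r.1) :
    side l q.1 = s * side l p.1 + t * side l r.1 := by
  rw [side, side, side, h, B_add_right, B_smul_right, B_smul_right]

theorem GSrt_two {l A : Geo} {s t : ℝ} (hs : side l (pt A s).1 = 0) (ht : side l (pt A t).1 = 0)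
    (hne : s ≠ t) : A = l ∨ A = l.rev := by
  have h0 : (√(-2 * B A.src.1 A.tgt.1))⁻¹ ≠ 0 :=
    inv_ne_zero (sqrt_pos.2 (by linarith [A.B_neg])).ne'
  rw [side_pt_eq] at hs ht
  have h1 := (mul_eq_zero.1 hs).resolve_left h0
  have h2 := (mul_eq_zero.1 ht).resolve_left h0
  have h3 : exp (-t) * exp s - exp (-s) * exp t ≠ 0 := by
    rw [← exp_add, ← exp_add, sub_ne_zero]
    intro h
    have h4 := exp_injective h
    exact hne (by linarith only [h4])
  have h4 : side l A.tgt.1 = 0 := by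
    refine (mul_eq_zero.1 ?_).resolve_left h3
    linear_combination exp (-t) * h1 - exp (-s) * h2
  have h5 : side l A.src.1 = 0 := by
    rw [h4, mul_zero, add_zero] at h1
    exact (mul_eq_zero.1 h1).resolve_left (exp_pos _).ne'
  rcases (side_eq_zero_iff l _).1 h5 with h6 | h6 <;>
    rcases (side_eq_zero_iff l _).1 h4 with h7 | h7
  · exact absurd (h6.trans h7.symm) A.ne
  · exact Or.inl (Geo.ext h6 h7)
  · exact Or.inr (Geo.ext h6 h7)
  · exact absurd (h6.trans h7.symm) A.ne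

theorem GSrt_chain {w : ℝ} (s : List Geo) (l : Geo)
    (h1 : (l :: s).Pairwise fun l m => Nest m l ∧ m ≠ l)
    (h2 : ∀ a ∈ l :: s, ∀ b ∈ l :: s, b ≠ a → w ≤ ldist a b) :
    ∃ m ∈ l :: s, Nest m l ∧ (s.length : ℝ) * w ≤ ldist m l := by
  induction s generalizing l with
  | nil =>
    exact ⟨l, List.mem_cons_self, Nest.refl l, by simpa using ldist_nonneg (not_cross_self l)⟩
  | cons a s ih =>
    obtain ⟨h3, h4⟩ := List.pairwise_cons.1 h1
    obtain ⟨m, hm, h5, h6⟩ := ih a h4 fun x hx y hy =>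
      h2 x (List.mem_cons_of_mem _ hx) y (List.mem_cons_of_mem _ hy)
    have h7 := h3 a List.mem_cons_self
    have h8 := h2 l List.mem_cons_self a (List.mem_cons_of_mem _ List.mem_cons_self) h7.2
    refine ⟨m, List.mem_cons_of_mem _ hm, h5.trans h7.1, ?_⟩
    rw [List.length_cons, Nat.cast_add, Nat.cast_one]
    linarith [ldist_add_le h5 h7.1, ldist_comm a l]

namespace Sys

variable {L : Set Geo} (hL : Sys ρ L)
include hL

theorem GSrt_far : ∃ r > 0, ∀ l ∈ L, ∀ m ∈ L, m ≠ l → m ≠ l.rev → ∀ p q : Pt, side l q.1 = 0 →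
    dist p q ≤ r → 0 < side m p.1 * side m q.1 := by
  obtain ⟨w, hw, h⟩ := hL.gap
  refine ⟨w / 2, half_pos hw, fun l hl m hm h1 h2 p q hq hd => ?_⟩
  have h3 := (h l hl m hm h1 h2).trans
    ((ldist_comm l m).le.trans (ldist_le_arsinh (hL.nc m hm l hl) hq))
  have h4 := abs_le.1 ((abs_arsinh_side_le m p q).trans hd)
  rcases le_abs.1 h3 with h5 | h5
  · exact mul_pos (arsinh_pos_iff.1 (by linarith only [hw, h4, h5, h4.1])) (arsinh_pos_iff.1 (by linarith only [hw, h5]))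
  · exact mul_pos_of_neg_of_neg (arsinh_neg_iff.1 (by linarith only [hw, h4, h5, h4.2]))
      (arsinh_neg_iff.1 (by linarith only [hw, h5]))

theorem GSrt_off : ∃ r > 0, ∀ l ∈ L, ∀ p q : Pt, side l q.1 = 0 → side l p.1 ≠ 0 →
    dist p q ≤ r → Off L p := by
  obtain ⟨r, hr, h⟩ := hL.GSrt_far
  refine ⟨r, hr, fun l hl p q hq hp hd m hm => ?_⟩
  by_cases h1 : m = l
  · rwa [h1]
  by_cases h2 : m = l.rev
  · rw [h2, side_rev]
    exact neg_ne_zero.2 hp
  exact left_ne_zero_of_mul (h l hl m hm h1 h2 p q hq hd).ne'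

theorem Off_smul {p : Pt} (hp : Off L p) (g : Γ) : Off L (ρ g • p) := by
  intro l hl
  have h := hp _ (hL.smul g⁻¹ l hl)
  rwa [← side_smul_pt (ρ g), map_inv, smul_inv_smul] at h
theorem side_ne_zero {l m : Geo} (hl : l ∈ L) (hm : m ∈ L) (h1 : m ≠ l) (h2 : m ≠ l.rev) :
    0 < side l m.src.1 * side l m.tgt.1 := by
  obtain ⟨w, hw, h⟩ := hL.gap
  have h3 := h l hl m hm h1 h2
  refine (not_lt.1 (hL.nc l hl m hm)).lt_of_ne' (mul_ne_zero (fun h4 => ?_) fun h4 => ?_)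
  · rw [GSrt_share h4 (side_src m)] at h3
    linarith
  · rw [GSrt_share h4 (side_tgt m)] at h3
    linarith
theorem finite_sepS (p q : Pt) : (sepS L p q.1).Finite := by
  exact (hL.fin p (sinh (dist p q))).subset fun l hl =>
    ⟨hl.1, GSrt_abs (mul_neg_of_neg_of_pos hl.2.1 hl.2.2).le⟩
theorem nest_total {p : Pt} {v : V} (hv : Fut v) {l m : Geo} (hl : l ∈ sepS L p v)
    (hm : m ∈ sepS L p v) : Nest l m ∨ Nest m l := by
  exact nest_or_nest (hL.nc l hl.1 m hm.1) hv p.fut hl.2.2 hm.2.2 hl.2.1 hm.2.1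
theorem GSrt_spec (p q : Pt) : (∀ l, l ∈ srt L p q ↔ l ∈ sepS L p q.1) ∧
    (srt L p q).Pairwise fun l m => Nest m l ∧ m ≠ l := by
  have h : ∃ s : List Geo, (∀ l, l ∈ s ↔ l ∈ sepS L p q.1) ∧
      s.Pairwise fun l m => Nest m l ∧ m ≠ l :=
    GSrt_sort (fun l m => Nest m l) (fun _ _ _ h h' => h'.trans h) (hL.finite_sepS p q)
      fun _ ha _ hb => hL.nest_total q.fut hb ha
  rw [srt, dif_pos h]
  exact h.choose_spec
theorem mem_srt (p q : Pt) (l : Geo) : l ∈ srt L p q ↔ l ∈ sepS L p q.1 := by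
  exact (hL.GSrt_spec p q).1 l
theorem pairwise_srt (p q : Pt) : (srt L p q).Pairwise fun l m => Nest m l ∧ m ≠ l := by
  exact (hL.GSrt_spec p q).2
theorem srt_eq {p q : Pt} {s : List Geo} (h1 : ∀ l, l ∈ s ↔ l ∈ sepS L p q.1)
    (h2 : s.Pairwise fun l m => Nest m l ∧ m ≠ l) : srt L p q = s := by
  have h3 := hL.pairwise_srt p q
  refine List.Perm.eq_of_pairwise (fun a b _ _ h h' => h'.1.antisymm h.1) h3 h2 ?_
  refine (List.perm_ext_iff_of_nodup (h3.imp fun h => h.2.symm) (h2.imp fun h => h.2.symm)).2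
    fun l => ?_
  rw [hL.mem_srt, h1]
theorem srt_smul (g : Γ) (p q : Pt) :
    srt L (ρ g • p) (ρ g • q) = (srt L p q).map fun l => ρ g • l := by
  refine hL.srt_eq (fun l => ?_) (List.pairwise_map.2 ((hL.pairwise_srt p q).imp fun h =>
    ⟨(nest_smul _).2 h.1, fun e => h.2 (smul_left_cancel _ e)⟩))
  rw [List.mem_map]
  constructor
  · rintro ⟨m, hm, rfl⟩
    obtain ⟨h1, h2, h3⟩ := (hL.mem_srt p q m).1 hm
    exact ⟨hL.smul g m h1, by rwa [side_smul_pt], by rwa [side_smul_pt]⟩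
  · rintro ⟨h1, h2, h3⟩
    obtain ⟨m, rfl⟩ : ∃ m, l = ρ g • m := ⟨(ρ g)⁻¹ • l, (smul_inv_smul _ _).symm⟩
    have h4 := hL.smul g⁻¹ _ h1
    rw [map_inv, inv_smul_smul] at h4
    rw [side_smul_pt] at h2 h3
    exact ⟨m, (hL.mem_srt p q m).2 ⟨h4, h2, h3⟩, rfl⟩
theorem srt_append {p q r : Pt} (hq : Off L q) (h : q ∈ seg p r) :
    srt L p r = srt L p q ++ srt L q r := by
  obtain ⟨s, t, hs, ht, h⟩ := h
  have h1 : ∀ l ∈ sepS L p q.1, l ∈ sepS L p r.1 := fun l hl => by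
    refine ⟨hl.1, hl.2.1, ?_⟩
    have h2 := hl.2.2
    rw [GSrt_side h] at h2
    by_contra h3
    linarith [mul_nonpos_of_nonneg_of_nonpos hs hl.2.1.le,
      mul_nonpos_of_nonneg_of_nonpos ht (not_lt.1 h3)]
  have h2 : ∀ l ∈ sepS L q r.1, l ∈ sepS L p r.1 := fun l hl => by
    refine ⟨hl.1, ?_, hl.2.2⟩
    have h2 := hl.2.1
    rw [GSrt_side h] at h2
    by_contra h3
    linarith [mul_nonneg hs (not_lt.1 h3), mul_nonneg ht hl.2.2.le]
  refine hL.srt_eq (fun l => ?_) (List.pairwise_append.2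
    ⟨hL.pairwise_srt p q, hL.pairwise_srt q r, fun l hl m hm => ?_⟩)
  · rw [List.mem_append, hL.mem_srt, hL.mem_srt]
    refine ⟨fun hl => hl.elim (h1 l) (h2 l), fun hl => ?_⟩
    rcases (hq l hl.1).lt_or_gt with h3 | h3
    · exact Or.inr ⟨hl.1, h3, hl.2.2⟩
    · exact Or.inl ⟨hl.1, hl.2.1, h3⟩
  · rw [hL.mem_srt] at hl hm
    refine ⟨(hL.nest_total r.fut (h1 l hl) (h2 m hm)).resolve_left fun h3 => ?_, fun h3 => ?_⟩
    · exact (h3 q hl.2.2).not_gt hm.2.1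
    · exact hl.2.2.not_gt (h3 ▸ hm.2.1)
/-- On a line that is not in the system only finitely many points of a bounded part are on the
lines of the system. -/
theorem finite_not_off {A : Geo} (hA : A ∉ L) (a b : ℝ) :
    {t ∈ Icc a b | ¬ Off L (pt A t)}.Finite := by
  refine ((hL.fin (pt A a) (sinh (b - a))).biUnion
    (t := fun l => {t | side l (pt A t).1 = 0}) fun l hl => ?_).subset fun t ht => ?_
  · refine Set.Subsingleton.finite fun s hs t ht => by_contra fun hne => hA ?_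
    rcases GSrt_two hs ht hne with h | h
    · exact h ▸ hl.1
    · exact h ▸ hL.rev l hl.1
  · obtain ⟨l, hl⟩ := not_forall.1 ht.2
    obtain ⟨h1, h2⟩ := Classical.not_imp.1 hl
    have h3 := not_not.1 h2
    refine mem_biUnion (x := l) ⟨h1, (GSrt_abs (q := pt A t) (by rw [h3, mul_zero])).trans ?_⟩ h3
    rw [sinh_le_sinh, dist_pt, abs_sub_comm, abs_of_nonneg (sub_nonneg.2 ht.1.1)]
    linarith [ht.1.2]
theorem exists_off_near (p : Pt) {ε : ℝ} (hε : 0 < ε) : ∃ q, Off L q ∧ dist p q < ε := by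
  by_cases hp : Off L p
  · exact ⟨p, hp, by simpa using hε⟩
  obtain ⟨l, hl⟩ := not_forall.1 hp
  obtain ⟨h1, h2⟩ := Classical.not_imp.1 hl
  have h3 := eq_pt_of_side (not_not.1 h2)
  obtain ⟨r, hr, h⟩ := hL.GSrt_off
  have h4 : 0 < min r (ε / 2) := lt_min hr (half_pos hε)
  refine ⟨fermi l (fer l p.1) (min r (ε / 2)), h l h1 _ (pt l (fer l p.1)) (side_pt _ _) ?_ ?_, ?_⟩
  · rw [side_fermi]
    exact (sinh_pos_iff.2 h4).ne'
  · rw [dist_fermi_pt, abs_of_pos h4]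
    exact min_le_left _ _
  · have h5 := dist_fermi_pt l (fer l p.1) (min r (ε / 2))
    rw [h3, dist_comm, abs_of_pos h4] at h5
    rw [h5]
    exact (min_le_right _ _).trans_lt (half_lt_self hε)
/-- A point just to the left of a line of the system. -/
theorem exists_off_left {l : Geo} (hl : l ∈ L) (t : ℝ) : ∃ r > 0, ∀ s, 0 < s → s ≤ r →
    Off L (fermi l t s) ∧ Off L (fermi l t (-s)) ∧
      sepS L (fermi l t (-s)) (fermi l t s).1 = {l} := by
  obtain ⟨r, hr, h⟩ := hL.GSrt_off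
  obtain ⟨r', hr', h'⟩ := hL.GSrt_far
  refine ⟨min r r', lt_min hr hr', fun s hs hsr => ?_⟩
  have d1 : dist (fermi l t s) (pt l t) = s := by rw [dist_fermi_pt, abs_of_pos hs]
  have d2 : dist (fermi l t (-s)) (pt l t) = s := by rw [dist_fermi_pt, abs_neg, abs_of_pos hs]
  have s1 : 0 < side l (fermi l t s).1 := by
    rw [side_fermi]
    exact sinh_pos_iff.2 hs
  have s2 : side l (fermi l t (-s)).1 < 0 := by
    rw [side_fermi]
    exact sinh_neg_iff.2 (neg_neg_of_pos hs)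
  have r1 := hsr.trans (min_le_left _ _)
  have r2 := hsr.trans (min_le_right _ _)
  refine ⟨h l hl _ _ (side_pt l t) s1.ne' (d1.le.trans r1),
    h l hl _ _ (side_pt l t) s2.ne (d2.le.trans r1),
    eq_singleton_iff_unique_mem.2 ⟨⟨hl, s2, s1⟩, fun m hm => by_contra fun h1 => ?_⟩⟩
  have h2 : m ≠ l.rev := fun h2 => by
    have h3 := hm.2.2
    rw [h2, side_rev] at h3
    linarith
  have h3 := h' l hl m hm.1 h1 h2 _ _ (side_pt l t) (d1.le.trans r2)
  have h4 := h' l hl m hm.1 h1 h2 _ _ (side_pt l t) (d2.le.trans r2)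
  exact (neg_of_mul_pos_right h4 hm.2.1.le).not_gt (pos_of_mul_pos_right h3 hm.2.2.le)
/-- Splitting off the first separating line. -/
theorem exists_first {p q : Pt} (hp : Off L p) (hq : Off L q) {l : Geo} {s : List Geo}
    (h : srt L p q = l :: s) :
    ∃ r ∈ seg p q, Off L r ∧ srt L p r = [l] ∧ srt L r q = s := by
  obtain ⟨r, hr, h1⟩ := hL.GSrt_off
  obtain ⟨r', hr', h2⟩ := hL.GSrt_far
  have hl := (hL.mem_srt p q l).1 (h ▸ List.mem_cons_self)
  obtain ⟨x, ⟨a, b, ha, hb, hx⟩, hx0⟩ := exists_mem_seg_B_eq_zero hl.2.1.le hl.2.2.le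
  have hx1 : side l x.1 = 0 := hx0
  have hxq : 0 < dist x q := dist_pos.2 fun e => hl.2.2.ne' (e ▸ hx1)
  have h0 : 0 < min (min r r') (dist x q) := lt_min (lt_min hr hr') hxq
  obtain ⟨y, ⟨c, d, hc, hd, hy⟩, hxy⟩ := exists_mem_seg_dist x q h0.le (min_le_right _ _)
  have hys : y ∈ seg p q := ⟨c * a, c * b + d, mul_nonneg hc ha, add_nonneg (mul_nonneg hc hb) hd,
    by rw [hy, hx, smul_add, smul_smul, smul_smul, add_smul, add_assoc]⟩
  have hd0 : 0 < d := hd.lt_of_ne' fun e => by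
    rw [e, zero_smul, add_zero] at hy
    have h3 := y.2.1
    rw [hy, B_smul_left, B_smul_right, x.2.1] at h3
    have h4 : c = 1 := by nlinarith
    rw [h4, one_smul] at hy
    rw [Subtype.ext hy, dist_self] at hxy
    exact h0.ne hxy
  have hy0 : 0 < side l y.1 := by
    rw [GSrt_side hy, hx1, mul_zero, zero_add]
    exact mul_pos hd0 hl.2.2
  have hyx : dist y x ≤ min r r' := by
    rw [dist_comm, hxy]
    exact min_le_left _ _
  have hoff := h1 l hl.1 y x hx1 hy0.ne' (hyx.trans (min_le_left _ _))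
  have happ := hL.srt_append hoff hys
  have h3 : srt L p y = [l] := by
    refine hL.srt_eq (fun m => ?_) (List.pairwise_singleton _ _)
    rw [List.mem_singleton]
    refine ⟨fun e => e ▸ ⟨hl.1, hl.2.1, hy0⟩, fun hm => by_contra fun h4 => ?_⟩
    have h5 : m ≠ l.rev := fun h5 => by
      have h6 := hm.2.2
      rw [h5, side_rev] at h6
      linarith
    have h6 := pos_of_mul_pos_right
      (h2 l hl.1 m hm.1 h4 h5 y x hx1 (hyx.trans (min_le_right _ _))) hm.2.2.le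
    have h7 : m ∈ l :: s := by
      rw [← h, happ]
      exact List.mem_append_left _ ((hL.mem_srt p y m).2 hm)
    have h8 := hL.pairwise_srt p q
    rw [h] at h8
    exact ((List.pairwise_cons.1 h8).1 m ((List.mem_cons.1 h7).resolve_left h4)).1 x h6 |>.ne' hx1
  refine ⟨y, hys, hoff, h3, ?_⟩
  rw [h, h3] at happ
  exact (List.cons.inj happ).2.symm
theorem length_mul_le : ∃ w > 0, ∀ p q : Pt,
    (((srt L p q).length : ℝ) - 1) * w ≤ dist p q := by
  obtain ⟨w, hw, h⟩ := hL.gap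
  refine ⟨w, hw, fun p q => ?_⟩
  have h1 := hL.pairwise_srt p q
  have h2 := fun l => (hL.mem_srt p q l).1
  generalize srt L p q = s at h1 h2
  cases s with
  | nil =>
    rw [List.length_nil, Nat.cast_zero]
    linarith [dist_nonneg (x := p) (y := q)]
  | cons l s =>
    obtain ⟨m, hm, h3, h4⟩ := GSrt_chain (w := w) s l h1 fun a ha b hb hne =>
      h a (h2 a ha).1 b (h2 b hb).1 hne fun e => by
        have h5 := (h2 b hb).2.1
        rw [e, side_rev] at h5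
        linarith [(h2 a ha).2.1]
    rw [List.length_cons, Nat.cast_add, Nat.cast_one, add_sub_cancel_right, dist_comm]
    exact h4.trans (ldist_le_of_nest h3 (h2 m hm).2.2.le (h2 l List.mem_cons_self).2.1.le)

end Sys

end HRT
end

-- merged part: Pool.Agent.Work.MP_35beee_gt.GQuake
section
/-!
Twisting along a system of lines with real parameters: the cocycle.

`qc L τ p q` is the product of the translations by `-τ l` along the lines `l` separating `p`
from `q` (oriented with `p` on the right), in the order in which they are met.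

Plan. `qc_mul`: induction on the length of `srt L q r` with `exists_first`; for one line `l` either
`srt L p r = srt L p q ++ [l]`, or `srt L p q = srt L p r ++ [l.rev]` and `trans_rev` cancels.
-/

namespace HRT

open Set Filter Topology Real

variable {Γ : Type*} [Group Γ] {ρ : Γ →* Isom}

/-- An invariant weight on a system of lines. -/
structure Wt (ρ : Γ →* Isom) (L : Set Geo) (τ : Geo → ℝ) : Prop where
  smul : ∀ (g : Γ), ∀ l ∈ L, τ (ρ g • l) = τ l
  rev : ∀ l ∈ L, τ l.rev = τ l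

theorem Multi.wt {ι : Type} {R : ι → Γ} {t : ι → ℝ} {τ : Geo → ℝ}
    (h : ∀ (i : ι), ∀ l ∈ lifts ρ fun _ : Unit => R i, τ l = t i) : Wt ρ (lifts ρ R) τ := by
  constructor
  · rintro g l ⟨i, a, hl⟩
    rw [h i l ⟨(), a, hl⟩]
    refine h i _ ⟨(), g * a, ?_⟩
    rw [map_mul, mul_smul]
    exact hl.imp (fun e => by rw [e]) fun e => by rw [e, Geo.smul_rev]
  · rintro l ⟨i, a, hl⟩
    rw [h i l ⟨(), a, hl⟩]
    exact h i _ ⟨(), a, hl.symm.imp (fun e => by rw [e, Geo.rev_rev]) fun e => by rw [e]⟩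

/-- The twisting cocycle. -/
noncomputable def qc (L : Set Geo) (τ : Geo → ℝ) (p q : Pt) : Isom :=
  ((srt L p q).map fun l => trans l (-τ l)).prod

variable {L : Set Geo} {τ : Geo → ℝ}

theorem qc_of_empty (hL : Sys ρ L) {p q : Pt} (h : sepS L p q.1 = ∅) : qc L τ p q = 1 := by
  rw [qc, hL.srt_eq (s := []) (by simp [h]) List.Pairwise.nil]
  rfl

theorem qc_of_single (hL : Sys ρ L) {p q : Pt} {l : Geo} (h : sepS L p q.1 = {l}) :
    qc L τ p q = trans l (-τ l) := by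
  rw [qc, hL.srt_eq (s := [l]) (by simp [h]) (List.pairwise_singleton _ _)]
  simp

theorem qc_self (hL : Sys ρ L) (p : Pt) : qc L τ p p = 1 := by
  exact qc_of_empty hL (eq_empty_of_forall_notMem fun l h => lt_asymm h.2.1 h.2.2)

theorem GQuake_pos (hL : Sys ρ L) {q r : Pt} (hr : Off L r) {m : Geo} (hm : m ∈ L)
    (h : 0 < side m q.1) (h0 : m.rev ∉ sepS L q r.1) : 0 < side m r.1 :=
  (hr m hm).lt_or_gt.resolve_left fun h' => h0 ⟨hL.rev m hm, by simpa, by simpa⟩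

theorem GQuake_append (hL : Sys ρ L) {p q r : Pt} (hq : Off L q)
    (h1 : sepS L p q.1 ⊆ sepS L p r.1) (h2 : sepS L q r.1 ⊆ sepS L p r.1) :
    qc L τ p r = qc L τ p q * qc L τ q r := by
  rw [qc, qc, qc, ← List.prod_append, ← List.map_append, hL.srt_eq (s := srt L p q ++ srt L q r)]
  · intro l
    rw [List.mem_append, hL.mem_srt, hL.mem_srt]
    exact ⟨fun h => h.elim (@h1 l) (@h2 l), fun h => (hq l h.1).lt_or_gt.symm.imp
      (fun h' => ⟨h.1, h.2.1, h'⟩) fun h' => ⟨h.1, h', h.2.2⟩⟩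
  · refine List.pairwise_append.2 ⟨hL.pairwise_srt _ _, hL.pairwise_srt _ _, fun l hl m hm => ?_⟩
    rw [hL.mem_srt] at hl hm
    exact ⟨(hL.nest_total r.fut (h1 hl) (h2 hm)).resolve_left fun h =>
      lt_asymm hm.2.1 (h q hl.2.2), fun e => lt_asymm hm.2.1 (e ▸ hl.2.2)⟩

theorem GQuake_step0 (hL : Sys ρ L) {p q r : Pt} (hq : Off L q) (hr : Off L r) {l : Geo}
    (h : sepS L q r.1 = {l}) (hl : side l p.1 < 0) :
    qc L τ p r = qc L τ p q * trans l (-τ l) := by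
  have h0 : l ∈ sepS L q r.1 := h ▸ rfl
  rw [← qc_of_single hL h]
  refine GQuake_append hL hq (fun m hm => ⟨hm.1, hm.2.1, GQuake_pos hL hr hm.1 hm.2.2 fun e => ?_⟩)
    fun m hm => ?_
  · rw [h, mem_singleton_iff] at e
    rw [← e, side_rev] at hl
    linarith [hm.2.1]
  · rw [h, mem_singleton_iff] at hm
    exact hm ▸ ⟨h0.1, hl, h0.2.2⟩

theorem GQuake_step (hL : Sys ρ L) (hτ : Wt ρ L τ) {p q r : Pt} (hp : Off L p) (hq : Off L q)
    (hr : Off L r) {l : Geo} (h : sepS L q r.1 = {l}) :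
    qc L τ p q * trans l (-τ l) = qc L τ p r := by
  have h0 : l ∈ sepS L q r.1 := h ▸ rfl
  rcases (hp l h0.1).lt_or_gt with hl | hl
  · exact (GQuake_step0 hL hq hr h hl).symm
  have key : ∀ {u v : Pt} {m : Geo}, m ∈ sepS L u v.1 → m.rev ∈ sepS L v u.1 := fun hm =>
    ⟨hL.rev _ hm.1, by simpa using hm.2.2, by simpa using hm.2.1⟩
  have h1 : sepS L r q.1 = {l.rev} := by
    refine eq_singleton_iff_unique_mem.2 ⟨key h0, fun m hm => ?_⟩
    have h2 := key hm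
    rw [h, mem_singleton_iff] at h2
    rw [← h2, Geo.rev_rev]
  rw [GQuake_step0 hL hr hq h1 (by simpa), hτ.rev l h0.1, trans_rev, mul_assoc, ← trans_add,
    neg_add_cancel, trans_zero, mul_one]

theorem qc_mul (hL : Sys ρ L) (hτ : Wt ρ L τ) {p q r : Pt} (hp : Off L p) (hq : Off L q)
    (hr : Off L r) : qc L τ p q * qc L τ q r = qc L τ p r := by
  generalize hs : srt L q r = s
  induction s generalizing q with
  | nil =>
    have h0 : ∀ m, m ∉ sepS L q r.1 := fun m hm => by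
      rw [← hL.mem_srt, hs] at hm
      exact List.not_mem_nil hm
    rw [GQuake_append hL hq (p := p) (r := r) (fun m hm => ⟨hm.1, hm.2.1,
      GQuake_pos hL hr hm.1 hm.2.2 (h0 _)⟩) fun m hm => absurd hm (h0 m)]
  | cons l s ih =>
    obtain ⟨u, -, hu, h1, h2⟩ := hL.exists_first hq hr hs
    have h3 : qc L τ q r = trans l (-τ l) * qc L τ u r := by
      rw [qc, qc, hs, h2, List.map_cons, List.prod_cons]
    have h4 : sepS L q u.1 = {l} := Set.ext fun m => by rw [← hL.mem_srt, h1]; simp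
    rw [h3, ← mul_assoc, GQuake_step hL hτ hp hq hu h4, ih hu h2]

theorem qc_smul (hL : Sys ρ L) (hτ : Wt ρ L τ) (g : Γ) (p q : Pt) :
    qc L τ (ρ g • p) (ρ g • q) = ρ g * qc L τ p q * (ρ g)⁻¹ := by
  rw [qc, qc, hL.srt_smul, ← MulAut.conj_apply, map_list_prod, List.map_map, List.map_map]
  refine congrArg _ (List.map_congr_left fun l hl => ?_)
  rw [Function.comp_apply, Function.comp_apply, hτ.smul g l ((hL.mem_srt p q l).1 hl).1,
    trans_conj, MulAut.conj_apply]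

theorem qrep_mul (hL : Sys ρ L) (hτ : Wt ρ L τ) {p : Pt} (hp : Off L p) (g h : Γ) :
    qc L τ p (ρ (g * h) • p) * ρ (g * h) =
      qc L τ p (ρ g • p) * ρ g * (qc L τ p (ρ h • p) * ρ h) := by
  rw [map_mul, mul_smul, ← qc_mul hL hτ hp (hL.Off_smul hp g)
    (hL.Off_smul (hL.Off_smul hp h) g), qc_smul hL hτ]
  group

/-- The twisted representation, based at `p`. -/
noncomputable def qrep (hL : Sys ρ L) (hτ : Wt ρ L τ) {p : Pt} (hp : Off L p) : Γ →* Isom :=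
  MonoidHom.mk' (fun g => qc L τ p (ρ g • p) * ρ g) (qrep_mul hL hτ hp)

theorem qrep_apply (hL : Sys ρ L) (hτ : Wt ρ L τ) {p : Pt} (hp : Off L p) (g : Γ) :
    qrep hL hτ hp g = qc L τ p (ρ g • p) * ρ g := rfl

theorem qrep_base (hL : Sys ρ L) (hτ : Wt ρ L τ) {p q : Pt} (hp : Off L p) (hq : Off L q) (g : Γ) :
    qrep hL hτ hp g = qc L τ p q * qrep hL hτ hq g * (qc L τ p q)⁻¹ := by
  rw [qrep_apply, qrep_apply, ← mul_assoc, qc_mul hL hτ hp hq (hL.Off_smul hq g),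
    ← qc_mul hL hτ hp (hL.Off_smul hp g) (hL.Off_smul hq g), qc_smul hL hτ]
  group

theorem tl_qrep_base (hL : Sys ρ L) (hτ : Wt ρ L τ) {p q : Pt} (hp : Off L p) (hq : Off L q)
    (g : Γ) : tl (qrep hL hτ hp g) = tl (qrep hL hτ hq g) := by
  rw [qrep_base hL hτ hp hq, tl_conj]

theorem continuous_qc {X : Type*} [TopologicalSpace X] {T : X → Geo → ℝ}
    (hT : ∀ l, Continuous fun x => T x l) (p q : Pt) : Continuous fun x => qc L (T x) p q := by
  exact continuous_list_prod (f := fun l x => trans l (-T x l)) _ fun l _ =>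
    continuous_trans.comp (continuous_const.prodMk (hT l).neg)

/-- Elements whose axis does not cross the system keep their length. -/
theorem tl_qrep_of_not_cross (hL : Sys ρ L) (hτ : Wt ρ L τ) {p : Pt} (hp : Off L p) {g : Γ}
    (hg : Hyp (ρ g)) (hc : ∀ l ∈ L, ¬ Cross (ax (ρ g)) l) : tl (qrep hL hτ hp g) = tl (ρ g) := by
  suffices h : ∃ q, Off L q ∧ ∀ l, l ∉ sepS L q (ρ g • q).1 by
    obtain ⟨q, hq, h⟩ := h
    rw [tl_qrep_base hL hτ hp hq, qrep_apply, qc_of_empty hL (eq_empty_of_forall_notMem h), one_mul]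
  by_cases hA : ax (ρ g) ∈ L
  · obtain ⟨w, hw, hgap⟩ := hL.gap
    obtain ⟨r, hr, h⟩ := hL.exists_off_left hA 0
    have hs : 0 < min r (w / 2) := lt_min hr (half_pos hw)
    have hs' : |min r (w / 2)| < w := by
      rw [abs_of_pos hs]
      exact (min_le_right _ _).trans_lt (half_lt_self hw)
    refine ⟨_, (h _ hs (min_le_left _ _)).1, ?_⟩
    generalize min r (w / 2) = s at hs hs'
    rintro l ⟨hl, h1, h2⟩
    rw [hg.smul_fermi_ax] at h2
    have h3 : w ≤ ldist l (ax (ρ g)) := by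
      refine hgap l hl _ hA (fun e => ?_) fun e => ?_
      · rw [← e, side_fermi] at h1 h2
        exact lt_asymm h1 h2
      · rw [← neg_pos, ← side_rev, ← e, side_fermi] at h1
        rw [← neg_lt_zero, ← side_rev, ← e, side_fermi] at h2
        exact lt_asymm h1 h2
    have key : ∀ t, |arsinh (side l (fermi (ax (ρ g)) t s).1) -
        arsinh (side l (pt (ax (ρ g)) t).1)| < |arsinh (side l (pt (ax (ρ g)) t).1)| := fun t =>
      (((abs_arsinh_side_le l _ _).trans_eq (dist_fermi_pt _ t s)).trans_lt hs').trans_le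
        (h3.trans (ldist_le_arsinh (hL.nc l hl _ hA) (side_pt _ t)))
    refine hc l hl (cross_of_side_mul_neg (s := 0) (t := 0 + tl (ρ g))
      (mul_neg_of_neg_of_pos ?_ ?_))
    · have h4 := key 0
      rw [← arsinh_neg_iff] at h1 ⊢
      by_contra h5
      rw [abs_of_nonneg (not_lt.1 h5)] at h4
      linarith only [h1, h4, (abs_lt.1 h4).1]
    · have h4 := key (0 + tl (ρ g))
      rw [← arsinh_pos_iff] at h2 ⊢
      by_contra h5
      rw [abs_of_nonpos (not_lt.1 h5)] at h4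
      linarith [(abs_lt.1 h4).2]
  · obtain ⟨t, h1, h2⟩ := (Icc_infinite (zero_lt_one' ℝ)).exists_notMem_finite
      (hL.finite_not_off hA 0 1)
    refine ⟨pt (ax (ρ g)) t, by_contra fun h => h2 ⟨h1, h⟩, ?_⟩
    rintro l ⟨hl, h3, h4⟩
    rw [hg.smul_pt_ax] at h4
    exact hc l hl (cross_of_side_mul_neg (mul_neg_of_neg_of_pos h3 h4))

theorem GQuake_chain {w : ℝ} (hgap : ∀ l ∈ L, ∀ m ∈ L, m ≠ l → m ≠ l.rev → w ≤ ldist l m)
    {l : Geo} (hl : l ∈ L) (s : List Geo) (m : Geo)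
    (h1 : (m :: s).Pairwise fun l m => Nest m l ∧ m ≠ l)
    (h2 : ∀ n ∈ m :: s, n ∈ L ∧ Nest l n ∧ l ≠ n) :
    Nest (((m :: s).map fun l => trans l (-τ l)).prod • l) m ∧
      ((m :: s).length : ℝ) * w ≤ ldist (((m :: s).map fun l => trans l (-τ l)).prod • l) m := by
  have key : ∀ a ∈ L, ∀ b ∈ L, Nest a b → a ≠ b → w ≤ ldist a b := fun a ha b hb h h' =>
    (hgap b hb a ha h' ((nest_iff_ends a b).1 h).2.2.2.2).trans_eq (ldist_comm _ _)
  induction s generalizing m with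
  | nil =>
    obtain ⟨h3, h4, h5⟩ := h2 m List.mem_cons_self
    rw [List.map_singleton, List.prod_singleton]
    conv => enter [1, 2]; rw [← trans_smul m (-τ m)]
    conv => enter [2, 2, 2]; rw [← trans_smul m (-τ m)]
    rw [nest_smul, ldist_smul]
    exact ⟨h4, by simpa using key l hl m h3 h4 h5⟩
  | cons n s ih =>
    obtain ⟨h3, h4⟩ := ih n (List.pairwise_cons.1 h1).2 fun a ha => h2 a (List.mem_cons_of_mem _ ha)
    obtain ⟨h5, h6⟩ := (List.pairwise_cons.1 h1).1 n List.mem_cons_self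
    have h7 := key n (h2 n (by simp)).1 m (h2 m List.mem_cons_self).1 h5 h6
    rw [List.map_cons, List.prod_cons, mul_smul]
    conv => enter [1, 2]; rw [← trans_smul m (-τ m)]
    conv => enter [2, 2, 2]; rw [← trans_smul m (-τ m)]
    rw [nest_smul, ldist_smul, List.length_cons, Nat.cast_succ]
    exact ⟨h3.trans h5, by linarith [ldist_add_le h3 h5]⟩

/-- The images of the separating lines are nested and keep their mutual distances. -/
theorem exists_side_qc_le (hL : Sys ρ L) (hτ : Wt ρ L τ) : ∃ w > 0, ∀ p q : Pt, Off L p → Off L q →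
    ∀ l ∈ L, side l q.1 < 0 → (∀ m ∈ srt L p q, Nest l m) →
      side (qc L τ p q • l) p.1 < 0 ∧
        (((srt L p q).length : ℝ) - 1) * w ≤ |arsinh (side (qc L τ p q • l) p.1)| := by
  obtain ⟨w, hw, hgap⟩ := hL.gap
  refine ⟨w, hw, fun p q hp _ l hl hlq hn => ?_⟩
  have h1 := hL.mem_srt p q
  have h2 := hL.pairwise_srt p q
  rw [qc]
  generalize srt L p q = s at hn h1 h2
  cases s with
  | nil =>
    rw [List.map_nil, List.prod_nil, one_smul]
    refine ⟨(hp l hl).lt_or_gt.resolve_right fun h => List.not_mem_nil ((h1 l.rev).2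
      ⟨hL.rev l hl, by simpa, by simpa⟩), le_trans ?_ (abs_nonneg _)⟩
    simpa using hw.le
  | cons m s =>
    obtain ⟨h3, h4⟩ := GQuake_chain (τ := τ) hgap hl s m h2 fun n hn' =>
      ⟨((h1 n).1 hn').1, hn n hn', fun e => lt_asymm hlq (e ▸ ((h1 n).1 hn').2.2)⟩
    have h5 := ((h1 m).1 List.mem_cons_self).2.1
    generalize ((m :: s).map fun l => trans l (-τ l)).prod • l = n at h3 h4 ⊢
    refine ⟨not_le.1 fun h => (h3.nonneg p.fut h).not_gt h5, ?_⟩
    rw [← dist_foot, dist_comm]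
    refine le_trans ?_ (h4.trans (ldist_le_of_nest h3 (side_pt _ _).ge h5.le))
    gcongr
    linarith

end HRT
end
end

-- merged part: Pool.Agent.Work.MP_35beee_gt.PFace
section
-- merged part: Pool.Agent.Work.MP_35beee_gt.PObj
section
/-!
Positive lifts of isometries without fixed point in the plane.

`qv g` is the vector part of the lift of `g` with scalar part `qch g = cosh (tl g / 2) ≥ 1`.
`Ins g v` says that `v` is on the inner side of `g`: for hyperbolic `g` the right side of the axis,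
for parabolic `g` everything except the fixed point (positive parabolic) or nothing (negative).
On the circle the inner side is the set of points moved counterclockwise. The complement of the
inner side on the circle is the gap of `g`: the closed arc from `lo g` (attracting point) to
`hi g` (repelling point).

Plan. `isLift_qv`: `Hyp.isLift`, `Par.exists_isLift` give existence; `IsLift.unique` and
`qch ≥ 1` give uniqueness (`qv_eq`). `ins_iff_ccw`: hyperbolic case: `fer_smul_circ`, `Hyp.sh_ax`,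
`ccw_iff_fer_right`, `ccw_iff_fer_left` and `ccw.trans'`; parabolic case with `qv g = t • ζ`:
`det3 ζ x (g x) = 2 t B ζ x ^ 2` (expand `qm`, `B_cr_cr`). `sinh_sq_dist`: `IsLift.cosh_dist` and
`cosh d = 1 + 2 sinh (d/2) ^ 2`. The marking lemmas use `IsMark.hyp`, `IsMark.par`, `ins_iff_ccw`
(`IsMark.disc` gives `NoFix (σ γ)`; or directly: `σ γ ≠ 1` fixes a boundary point).
-/

namespace HRT

open Set Filter Topology Real

/-- Scalar part of the positive lift. -/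
noncomputable def qch (g : Isom) : ℝ := cosh (tl g / 2)

/-- Norm of the vector part of the positive lift. -/
noncomputable def qsh (g : Isom) : ℝ := sinh (tl g / 2)

open Classical in
/-- Vector part of the positive lift. -/
noncomputable def qv (g : Isom) : V := if h : ∃ u, IsLift g (qch g) u then h.choose else 0

open Classical in
/-- Attracting fixed point. -/
noncomputable def lo (g : Isom) : Circ := if Hyp g then (ax g).tgt else pfix g

open Classical in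
/-- Repelling fixed point. -/
noncomputable def hi (g : Isom) : Circ := if Hyp g then (ax g).src else pfix g

/-- The inner side of `g`. -/
def Ins (g : Isom) (v : V) : Prop := B (qv g) v < 0

/-- Hyperbolic, or parabolic and turning counterclockwise. -/
def Pos (g : Isom) : Prop := NoFix g ∧ ∃ ξ : Circ, Ins g ξ.1

variable {g : Isom}

theorem one_le_qch (g : Isom) : 1 ≤ qch g := by
  exact one_le_cosh _

theorem qsh_nonneg (g : Isom) : 0 ≤ qsh g := by
  exact sinh_nonneg_iff.2 (by linarith only [tl_nonneg g])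

theorem qch_sq (g : Isom) : qch g ^ 2 = 1 + qsh g ^ 2 := by
  exact cosh_sq' _

theorem Hyp.qsh_pos (h : Hyp g) : 0 < qsh g := by
  exact sinh_pos_iff.2 (half_pos h)

theorem Par.qsh_eq (h : Par g) : qsh g = 0 ∧ qch g = 1 := by
  simp [qsh, qch, h.2]

theorem qch_inv (g : Isom) : qch g⁻¹ = qch g := by
  rw [qch, qch, tl_inv]

theorem qsh_inv (g : Isom) : qsh g⁻¹ = qsh g := by
  rw [qsh, qsh, tl_inv]

theorem qch_conj (A g : Isom) : qch (A * g * A⁻¹) = qch g := by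
  rw [qch, qch, tl_conj]

theorem qsh_conj (A g : Isom) : qsh (A * g * A⁻¹) = qsh g := by
  rw [qsh, qsh, tl_conj]

theorem NoFix.inv (h : NoFix g) : NoFix g⁻¹ := by
  exact fun p hp => h p (inv_smul_eq_iff.1 hp).symm

theorem NoFix.conj (h : NoFix g) (A : Isom) : NoFix (A * g * A⁻¹) := by
  intro p hp
  refine h (A⁻¹ • p) ?_
  rw [mul_smul, mul_smul] at hp
  exact eq_inv_smul_iff.2 hp

theorem NoFix.isLift_qv (h : NoFix g) : IsLift g (qch g) (qv g) := by
  have h1 : ∃ u, IsLift g (qch g) u := by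
    rcases h.hyp_or_par with h | h
    · exact ⟨_, h.isLift⟩
    · obtain ⟨t, -, ht⟩ := h.exists_isLift
      exact ⟨_, by rw [h.qsh_eq.2]; exact ht⟩
  rw [qv, dif_pos h1]
  exact h1.choose_spec

theorem qv_eq {c : ℝ} {u : V} (h : IsLift g c u) (hc : 1 ≤ c) : qch g = c ∧ qv g = u := by
  have h0 : qch g = c := by
    rw [qch, h.cosh_tl (hc.trans (le_abs_self c)), abs_of_nonneg (by linarith)]
  have h1 : ∃ u, IsLift g (qch g) u := ⟨u, h0.symm ▸ h⟩
  refine ⟨h0, ?_⟩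
  rw [qv, dif_pos h1]
  rcases h.unique h1.choose_spec with h2 | h2
  · exact h2.2
  · linarith [h2.1]

theorem NoFix.B_qv (h : NoFix g) : B (qv g) (qv g) = qsh g ^ 2 := by
  linarith [h.isLift_qv.1, qch_sq g]

theorem NoFix.qv_ne_zero (h : NoFix g) : qv g ≠ 0 := by
  intro h0
  have h1 := h.isLift_qv
  rw [h0] at h1
  have h2 : qch g ^ 2 = 1 := by simpa using h1.1
  refine h o (Subtype.ext ?_)
  rw [smul_pt_val, h1.2, GQuat_zero, h2, one_smul]

theorem Hyp.qv_eq (h : Hyp g) : qv g = qsh g • nrm (ax g) := by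
  exact (HRT.qv_eq h.isLift (one_le_qch g)).2

theorem Par.qv_eq (h : Par g) : ∃ t : ℝ, t ≠ 0 ∧ qv g = t • (pfix g).1 := by
  obtain ⟨t, ht, hl⟩ := h.exists_isLift
  exact ⟨t, ht, (HRT.qv_eq hl le_rfl).2⟩

theorem NoFix.qv_inv (h : NoFix g) : qv g⁻¹ = -qv g := by
  exact (HRT.qv_eq h.isLift_qv.inv (one_le_qch g)).2

theorem NoFix.qv_conj (h : NoFix g) (A : Isom) : qv (A * g * A⁻¹) = lin A (qv g) := by
  exact (HRT.qv_eq (h.isLift_qv.conj A) (one_le_qch g)).2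

theorem NoFix.lin_qv (h : NoFix g) : lin g (qv g) = qv g := by
  rw [h.isLift_qv.2, GQuat_self, h.isLift_qv.1, one_smul]

theorem NoFix.B_qv_lin (h : NoFix g) (v : V) : B (qv g) (lin g v) = B (qv g) v := by
  conv_lhs => rw [← h.lin_qv]
  exact B_lin g _ _

theorem NoFix.sinh_sq_dist (h : NoFix g) (p : Pt) :
    sinh (dist p (g • p) / 2) ^ 2 = qsh g ^ 2 + B (qv g) p.1 ^ 2 := by
  have h1 := h.isLift_qv.cosh_dist p
  have h2 := cosh_two_mul (dist p (g • p) / 2)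
  rw [mul_div_cancel₀ _ two_ne_zero, cosh_sq'] at h2
  linarith only [h1, h2, h, h.B_qv, qch_sq g]

theorem Hyp.lo_eq (h : Hyp g) : lo g = (ax g).tgt := by
  exact if_pos h

theorem Hyp.hi_eq (h : Hyp g) : hi g = (ax g).src := by
  exact if_pos h

theorem Par.lo_eq (h : Par g) : lo g = pfix g := by
  exact if_neg fun h1 => Hyp.not_par h1 h

theorem Par.hi_eq (h : Par g) : hi g = pfix g := by
  exact if_neg fun h1 => Hyp.not_par h1 h

theorem Hyp.lo_ne_hi (h : Hyp g) : lo g ≠ hi g := by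
  rw [h.lo_eq, h.hi_eq]
  exact (ax g).ne.symm

theorem NoFix.fix_iff (h : NoFix g) (ξ : Circ) : g • ξ = ξ ↔ ξ = lo g ∨ ξ = hi g := by
  rcases h.hyp_or_par with h | h
  · rw [h.lo_eq, h.hi_eq, h.fix_iff, or_comm]
  · rw [h.lo_eq, h.hi_eq, h.fix_iff, or_self]

theorem NoFix.lo_inv (h : NoFix g) : lo g⁻¹ = hi g := by
  rcases h.hyp_or_par with h | h
  · rw [h.inv.lo_eq, h.hi_eq, h.ax_inv, Geo.tgt_rev]
  · rw [h.inv.1.lo_eq, h.hi_eq, h.inv.2]

theorem NoFix.hi_inv (h : NoFix g) : hi g⁻¹ = lo g := by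
  rcases h.hyp_or_par with h | h
  · rw [h.inv.hi_eq, h.lo_eq, h.ax_inv, Geo.src_rev]
  · rw [h.inv.1.hi_eq, h.lo_eq, h.inv.2]

theorem NoFix.lo_conj (h : NoFix g) (A : Isom) : lo (A * g * A⁻¹) = A • lo g := by
  rcases h.hyp_or_par with h | h
  · rw [(h.conj A).lo_eq, h.lo_eq, h.ax_conj, Geo.tgt_smul]
  · rw [(h.conj A).1.lo_eq, h.lo_eq, (h.conj A).2]

theorem NoFix.hi_conj (h : NoFix g) (A : Isom) : hi (A * g * A⁻¹) = A • hi g := by
  rcases h.hyp_or_par with h | h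
  · rw [(h.conj A).hi_eq, h.hi_eq, h.ax_conj, Geo.src_smul]
  · rw [(h.conj A).1.hi_eq, h.hi_eq, (h.conj A).2]

theorem PObj_hyp (h : Hyp g) (v : V) : B (qv g) v = qsh g * side (ax g) v := by
  rw [h.qv_eq, B_smul_left, side]

theorem PObj_zero (h : NoFix g) (ξ : Circ) : B (qv g) ξ.1 = 0 ↔ ξ = lo g ∨ ξ = hi g := by
  rcases h.hyp_or_par with h | h
  · rw [PObj_hyp h, mul_eq_zero, or_iff_right h.qsh_pos.ne', side_eq_zero_iff, h.lo_eq, h.hi_eq,
      or_comm]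
  · obtain ⟨t, ht, e⟩ := h.qv_eq
    rw [e, B_smul_left, mul_eq_zero, or_iff_right ht, h.lo_eq, h.hi_eq, or_self]
    constructor
    · intro h0
      by_contra hne
      exact (B_circ_neg (Ne.symm hne)).ne h0
    · rintro rfl
      exact (pfix g).2.1

theorem NoFix.B_qv_lo (h : NoFix g) : B (qv g) (lo g).1 = 0 := by
  exact (PObj_zero h _).2 (Or.inl rfl)

theorem NoFix.B_qv_hi (h : NoFix g) : B (qv g) (hi g).1 = 0 := by
  exact (PObj_zero h _).2 (Or.inr rfl)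

theorem NoFix.B_qv_eq_zero_iff (h : NoFix g) (ξ : Circ) :
    B (qv g) ξ.1 = 0 ↔ ξ = lo g ∨ ξ = hi g := by
  exact PObj_zero h ξ

theorem NoFix.tendsto_pow (h : NoFix g) {ξ : Circ} (hξ : ξ ≠ hi g) :
    Tendsto (fun n : ℕ => g ^ n • ξ) atTop (𝓝 (lo g)) := by
  rcases h.hyp_or_par with h | h
  · rw [h.lo_eq]
    exact h.tendsto_pow (h.hi_eq ▸ hξ)
  · rw [h.lo_eq]
    exact h.tendsto_pow ξ

theorem Hyp.ins_iff (h : Hyp g) (v : V) : Ins g v ↔ side (ax g) v < 0 := by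
  rw [Ins, PObj_hyp h]
  exact ⟨fun h1 => neg_of_mul_neg_right h1 h.qsh_pos.le, mul_neg_of_pos_of_neg h.qsh_pos⟩

theorem Hyp.ins_inv_iff (h : Hyp g) (v : V) : Ins g⁻¹ v ↔ 0 < side (ax g) v := by
  rw [h.inv.ins_iff, h.ax_inv, side_rev, neg_lt_zero]

theorem Hyp.ins_circ (h : Hyp g) (ξ : Circ) : Ins g ξ.1 ↔ ccw (hi g) ξ (lo g) := by
  rw [h.ins_iff, side_neg_iff, h.lo_eq, h.hi_eq]

theorem Hyp.pos (h : Hyp g) : Pos g := by
  obtain ⟨ξ, hξ, -⟩ := exists_circ_right (ax g) 0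
  exact ⟨h.noFix, ξ, (h.ins_iff _).2 hξ⟩

theorem Par.pos_iff (h : Par g) : Pos g ↔ Fut (qv g) := by
  obtain ⟨t, ht, e⟩ := h.qv_eq
  constructor
  · rintro ⟨-, ξ, hξ⟩
    rw [Ins, e, B_smul_left] at hξ
    rw [e]
    refine (pfix g).fut.smul (lt_of_le_of_ne (not_lt.1 fun h1 => ?_) ht.symm)
    exact hξ.not_ge (mul_nonneg_of_nonpos_of_nonpos h1.le ((pfix g).fut.B_nonpos ξ.fut))
  · intro hf
    have h1 : 0 < t := by simpa [e, (pfix g).2.2] using hf.2
    refine ⟨h.1, GCircPhi (pfix g) 0, ?_⟩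
    rw [Ins, e, B_smul_left]
    exact mul_neg_of_pos_of_neg h1 (B_circ_neg (GCirc_ne _ _).symm)

theorem Par.pos_or (h : Par g) : Pos g ∨ Pos g⁻¹ := by
  obtain ⟨t, ht, e⟩ := h.qv_eq
  rw [h.pos_iff, h.inv.1.pos_iff, h.1.qv_inv, e, ← neg_smul]
  rcases ht.lt_or_gt with h1 | h1
  · exact Or.inr ((pfix g).fut.smul (neg_pos.2 h1))
  · exact Or.inl ((pfix g).fut.smul h1)

theorem Par.not_pos_inv (h : Par g) (hp : Pos g) : ¬ Pos g⁻¹ := by
  intro h1
  have h2 := (h.inv.1.pos_iff.1 h1).2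
  rw [h.1.qv_inv, Pi.neg_apply] at h2
  linarith [(h.pos_iff.1 hp).2]

theorem Par.ins_circ (h : Par g) (hp : Pos g) (ξ : Circ) : Ins g ξ.1 ↔ ξ ≠ lo g := by
  have h1 := (h.pos_iff.1 hp).B_nonpos ξ.fut
  have h2 := PObj_zero h.1 ξ
  rw [h.hi_eq, ← h.lo_eq, or_self] at h2
  rw [Ins, Ne, ← h2]
  exact ⟨ne_of_lt, lt_of_le_of_ne h1⟩

theorem Par.ins_pt (h : Par g) (hp : Pos g) (p : Pt) : Ins g p.1 := by
  rw [Ins, B_comm]
  exact p.fut.B_neg (h.pos_iff.1 hp) (by rw [p.2.1]; norm_num)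

theorem PObj_smul (g : Isom) {c : ℝ} (hc : 0 < c) (v : V) : Ins g (c • v) ↔ Ins g v := by
  rw [Ins, Ins, B_smul_right]
  exact ⟨fun h1 => neg_of_mul_neg_right h1 hc.le, mul_neg_of_pos_of_neg hc⟩

theorem PObj_conj (h : NoFix g) (A : Isom) (ξ : Circ) :
    Ins (A * g * A⁻¹) (A • ξ).1 ↔ Ins g ξ.1 := by
  rw [smul_circ_val, PObj_smul _ (inv_pos.2 (lin_circ_pos A ξ)), Ins, h.qv_conj, B_lin, Ins]

theorem Pos.conj (h : Pos g) (A : Isom) : Pos (A * g * A⁻¹) := by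
  obtain ⟨h1, ξ, hξ⟩ := h
  exact ⟨h1.conj A, A • ξ, (PObj_conj h1 A ξ).2 hξ⟩

theorem isOpen_ins (g : Isom) : IsOpen {ξ : Circ | Ins g ξ.1} := by
  exact isOpen_lt (continuous_const.B' GCirc_val) continuous_const

theorem NoFix.ins_conj (h : NoFix g) (A : Isom) (v : V) :
    Ins (A * g * A⁻¹) (lin A v) ↔ Ins g v := by
  rw [Ins, h.qv_conj, B_lin, Ins]

theorem NoFix.ins_conj_circ (h : NoFix g) (A : Isom) (ξ : Circ) :
    Ins (A * g * A⁻¹) (A • ξ).1 ↔ Ins g ξ.1 := by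
  exact PObj_conj h A ξ

theorem NoFix.ins_zpow_circ (h : NoFix g) (n : ℤ) (ξ : Circ) :
    Ins g (g ^ n • ξ).1 ↔ Ins g ξ.1 := by
  have h1 := PObj_conj h (g ^ n) ξ
  rwa [show g ^ n * g * (g ^ n)⁻¹ = g by group] at h1

theorem PObj_det (c : ℝ) (u z : V) {x : V} (hx : B x x = 0) :
    det3 z x (qm c u x) = 2 * B u x * (c * B z x - det3 z x u) := by
  rw [det3, det3, qm, B_sub_right, B_add_right, B_smul_right, B_smul_right, B_smul_right,
    B_cr_right, B_cr_cr, hx, B_comm x u]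
  ring

theorem PObj_lt {c a b d D : ℝ} (hc : 1 ≤ c) (ha : a < 0) (hb : b < 0) (hd : 0 ≤ d)
    (hD : D ^ 2 = (c ^ 2 - 1) * a ^ 2 - 2 * a * b * d) : c * a - D < 0 := by
  have h1 : 0 ≤ a * b * d := mul_nonneg (mul_pos_of_neg_of_neg ha hb).le hd
  have h2 : 0 < a ^ 2 := sq_pos_of_neg ha
  have h3 : D ^ 2 < (-(c * a)) ^ 2 := by linarith only [hD, h1, h2]
  have h4 : 0 ≤ -(c * a) := by
    rw [neg_nonneg]
    exact mul_nonpos_of_nonneg_of_nonpos (by linarith only [hc]) ha.le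
  linarith only [h3, h4, (abs_lt.1 (abs_lt_of_sq_lt_sq h3 h4)).1]

theorem PObj_ccw (h : NoFix g) {ξ ζ : Circ} (hξ : Ins g ξ.1) (hζ : ¬ Ins g ζ.1) :
    ccw ζ ξ (g • ξ) := by
  have hne : ζ ≠ ξ := fun e => hζ (e ▸ hξ)
  have h1 : qch g * B ζ.1 ξ.1 - det3 ζ.1 ξ.1 (qv g) < 0 := PObj_lt (D := det3 ζ.1 ξ.1 (qv g)) (one_le_qch g) (B_circ_neg hne) hξ
    (not_lt.1 hζ) (by
      rw [det3_sq, ζ.2.1, ξ.2.1, h.B_qv, qch_sq, B_comm ξ.1 (qv g), B_comm ζ.1 (qv g)]
      ring)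
  have h2 := PObj_det (qch g) (qv g) ζ.1 ξ.2.1
  rw [← h.isLift_qv.2, lin_circ_val, det3, B_smul_right, ← det3] at h2
  rw [ccw_iff]
  refine pos_of_mul_pos_left ?_ (lin_circ_pos g ξ).le
  rw [mul_comm, h2]
  exact mul_pos_of_neg_of_neg (mul_neg_of_pos_of_neg two_pos hξ) h1

theorem PObj_lo (h : NoFix g) : ¬ Ins g (lo g).1 := h.B_qv_lo.not_lt

theorem PObj_one (h : NoFix g) (ξ : Circ) : Ins g (g • ξ).1 ↔ Ins g ξ.1 := by
  simpa using h.ins_zpow_circ 1 ξ

theorem PObj_three (h : NoFix g) {ξ : Circ} (hξ : Ins g ξ.1) : ccw ξ (g • ξ) (g • g • ξ) :=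
  (PObj_ccw h hξ (PObj_lo h)).trans' (PObj_ccw h ((PObj_one h ξ).2 hξ) (PObj_lo h))

/-- The inner side is the set of points moved counterclockwise. -/
theorem NoFix.ins_iff_ccw (h : NoFix g) (ξ : Circ) :
    Ins g ξ.1 ↔ ccw ξ (g • ξ) (g • g • ξ) := by
  refine ⟨PObj_three h, fun hc => ?_⟩
  rcases lt_trichotomy (B (qv g) ξ.1) 0 with h1 | h1 | h1
  · exact h1
  · exact (hc.ne12 ((h.fix_iff ξ).2 ((PObj_zero h ξ).1 h1)).symm).elim
  · have h2 : Ins g⁻¹ ξ.1 := by rwa [Ins, h.qv_inv, B_neg_left, neg_lt_zero]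
    have h3 := (ccw_smul_iff g).2 ((ccw_smul_iff g).2 (PObj_three h.inv h2))
    simp only [smul_inv_smul] at h3
    exact (hc.asymm h3.cyc.cyc).elim

/-- An inner point, its image, and a point of the gap are in counterclockwise order. -/
theorem NoFix.ccw_smul (h : NoFix g) {ξ ζ : Circ} (hξ : Ins g ξ.1) (hζ : ¬ Ins g ζ.1) :
    ccw ξ (g • ξ) ζ := by
  exact (PObj_ccw h hξ hζ).cyc

theorem NoFix.ccw_zpow (h : NoFix g) {ξ ζ : Circ} (hξ : Ins g ξ.1) (hζ : ¬ Ins g ζ.1) {m n : ℤ}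
    (hmn : m < n) : ccw (g ^ m • ξ) (g ^ n • ξ) ζ := by
  have h1 : ∀ k : ℤ, ccw ζ (g ^ k • ξ) (g ^ (k + 1) • ξ) := fun k => by
    rw [add_comm, zpow_one_add, mul_smul]
    exact PObj_ccw h ((h.ins_zpow_circ k ξ).2 hξ) hζ
  have h2 : m + 1 ≤ n := hmn
  refine ccw.cyc ?_
  induction n, h2 using Int.leInduction with
  | base => exact h1 m
  | succ k hk ih => exact (ih hk).trans (h1 k)

theorem PObj_ne {ξ ζ : Circ} (hξ : Ins g ξ.1) (hζ : ¬ Ins g ζ.1) : ξ ≠ ζ :=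
  fun e => hζ (e ▸ hξ)

theorem PObj_gap {ξ η ζ ζ' : Circ} (hξ : Ins g ξ.1) (hη : Ins g η.1)
    (hζ : ¬ Ins g ζ.1) (hζ' : ¬ Ins g ζ'.1) (hc : ccw ξ η ζ) : ccw ξ η ζ' := by
  refine (ccw_total hc.ne12 (PObj_ne hη hζ') (PObj_ne hξ hζ')).resolve_right fun h1 => ?_
  have h2 := (ccw_iff _ _ _).1 (h1.trans' hc)
  have h3 := (ccw_iff _ _ _).1 (h1.trans hc)
  have h4 := congrArg (B (qv g)) (cramer3 ξ.1 η.1 ζ.1 ζ'.1)
  rw [ccw_iff] at hc h1
  simp only [B_add_right, B_smul_right] at h4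
  rw [det3_swap ξ.1 ζ'.1 η.1] at h4
  have h5 := mul_nonneg hc.le (not_lt.1 hζ')
  have h6 := mul_nonneg h1.le (not_lt.1 hζ)
  have h7 := mul_neg_of_pos_of_neg h2 hξ
  have h8 := mul_neg_of_pos_of_neg h3 hη
  linarith only [h4, h5, h6, h7, h8]

/-- The gap is an arc: seen from two inner points all its points are in the same position. -/
theorem NoFix.ccw_gap (h : NoFix g) {ξ η ζ ζ' : Circ} (hξ : Ins g ξ.1) (hη : Ins g η.1)
    (hζ : ¬ Ins g ζ.1) (hζ' : ¬ Ins g ζ'.1) : ccw ξ η ζ ↔ ccw ξ η ζ' := by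
  exact ⟨PObj_gap hξ hη hζ hζ', PObj_gap hξ hη hζ' hζ⟩

theorem PObj_beyond (h : NoFix g) {ξ η : Circ} (hξ : Ins g ξ.1) (hη : Ins g η.1) :
    ∃ n : ℤ, ccw η (g ^ n • ξ) (lo g) := by
  have hl := PObj_lo h
  by_cases h0 : ξ = η
  · exact ⟨1, by rw [zpow_one, h0]; exact h.ccw_smul hη hl⟩
  rcases ccw_total h0 (PObj_ne hη hl) (PObj_ne hξ hl) with h1 | h1
  · have h2 := h.tendsto_pow (ξ := ξ) fun e => h.B_qv_hi.not_lt (e ▸ hξ)
    obtain ⟨n, h3, h4⟩ := ((eventually_ccw tendsto_const_nhds tendsto_const_nhds h2 h1).and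
      (eventually_gt_atTop 0)).exists
    have h5 := h.ccw_zpow hξ hl (m := 0) (n := n) (by exact_mod_cast h4)
    rw [zpow_zero, one_smul] at h5
    rw [← zpow_natCast] at h3
    exact ⟨n, h3.trans' h5⟩
  · exact ⟨0, by rw [zpow_zero, one_smul]; exact h1.cyc.cyc⟩

/-- The translates of the half-open arc from `ξ` to `g • ξ` cover the inner side. -/
theorem NoFix.exists_zpow (h : NoFix g) {ξ η : Circ} (hξ : Ins g ξ.1) (hη : Ins g η.1) :
    ∃ n : ℤ, η = g ^ n • ξ ∨ ccw (g ^ n • ξ) η (g ^ (n + 1) • ξ) := by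
  have hl := PObj_lo h
  obtain ⟨N, hN⟩ := PObj_beyond h hξ hη
  obtain ⟨M, hM⟩ := PObj_beyond h hη hξ
  have h1 : g ^ (-M) • lo g = lo g :=
    MulAction.mem_stabilizer_iff.1 (Subgroup.zpow_mem _
      (MulAction.mem_stabilizer_iff.2 ((h.fix_iff _).2 (Or.inl rfl))) _)
  have h2 := (ccw_smul_iff (g ^ (-M))).2 hM
  rw [h1, smul_smul (g ^ (-M)) (g ^ M), ← zpow_add, neg_add_cancel, zpow_zero, one_smul] at h2
  obtain ⟨n, h3, h4⟩ := Int.exists_greatest_of_bdd
    (P := fun n : ℤ => ¬ ccw (lo g) η (g ^ n • ξ))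
    ⟨N, fun k hk => not_lt.1 fun h5 => hk (hN.cyc.cyc.trans (h.ccw_zpow hξ hl h5).cyc.cyc)⟩
    ⟨-M, h2.cyc.cyc.asymm⟩
  have h5 : ccw (lo g) η (g ^ (n + 1) • ξ) := by
    by_contra h5
    linarith [h4 _ h5]
  refine ⟨n, or_iff_not_imp_left.2 fun h6 => ?_⟩
  have h7 := (h.ins_zpow_circ n ξ).2 hξ
  exact ((ccw_total h5.ne12 h6 fun e => hl (e ▸ h7)).resolve_left h3).trans' h5

/-- A point of the plane with nonzero level can be moved to any level of the same sign. -/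
theorem Pos.exists_level (h : Pos g) {t : ℝ} (ht : 0 < t) : ∃ p : Pt, -B (qv g) p.1 = t := by
  rcases h.1.hyp_or_par with h1 | h1
  · refine ⟨fermi (ax g) 0 (arsinh (-(t / qsh g))), ?_⟩
    rw [PObj_hyp h1, side_fermi, sinh_arsinh, mul_neg, neg_neg, mul_div_cancel₀ _ h1.qsh_pos.ne']
  · obtain ⟨s, -, e⟩ := h1.qv_eq
    have hs : 0 < s := by simpa [e, (pfix g).2.2] using (h1.pos_iff.1 h).2
    obtain ⟨l, -, -, hl⟩ := exists_line_pt_circ o (pfix g)
    have hk := GFermi_pos l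
    refine ⟨pt l (-log (t / (s * (√(-2 * B l.src.1 l.tgt.1) / 2)))), ?_⟩
    rw [e, B_smul_left, B_comm, ← hl, GFermi_pt, neg_neg, exp_log (by positivity)]
    generalize √(-2 * B l.src.1 l.tgt.1) = k at hk
    field_simp

variable {Γ : Type*} [Group Γ] {ρ σ : Γ →* Isom} {f : Circ ≃ₜ Circ}

theorem IsMark.noFix (hm : IsMark ρ σ f) {γ : Γ} (h : NoFix (ρ γ)) : NoFix (σ γ) := by
  rcases h.hyp_or_par with h | h
  · exact (hm.hyp h).1.noFix
  · exact (hm.par h).1.1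

theorem IsMark.ins_iff (hm : IsMark ρ σ f) {γ : Γ} (h : NoFix (ρ γ)) (ξ : Circ) :
    Ins (σ γ) (f ξ).1 ↔ Ins (ρ γ) ξ.1 := by
  rw [(hm.noFix h).ins_iff_ccw, h.ins_iff_ccw, ← hm.2, ← hm.2, hm.ori.ccw_iff]

theorem IsMark.lo_eq (hm : IsMark ρ σ f) {γ : Γ} (h : NoFix (ρ γ)) : lo (σ γ) = f (lo (ρ γ)) := by
  rcases h.hyp_or_par with h | h
  · rw [(hm.hyp h).1.lo_eq, h.lo_eq, (hm.hyp h).2, Geo.tgt_map]
  · rw [(hm.par h).1.lo_eq, h.lo_eq, (hm.par h).2]

theorem IsMark.hi_eq (hm : IsMark ρ σ f) {γ : Γ} (h : NoFix (ρ γ)) : hi (σ γ) = f (hi (ρ γ)) := by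
  rcases h.hyp_or_par with h | h
  · rw [(hm.hyp h).1.hi_eq, h.hi_eq, (hm.hyp h).2, Geo.src_map]
  · rw [(hm.par h).1.hi_eq, h.hi_eq, (hm.par h).2]

theorem IsMark.pos (hm : IsMark ρ σ f) {γ : Γ} (h : Pos (ρ γ)) : Pos (σ γ) := by
  obtain ⟨h1, ξ, hξ⟩ := h
  exact ⟨hm.noFix h1, f ξ, (hm.ins_iff h1 ξ).2 hξ⟩

end HRT
end

-- merged part: Pool.Agent.Work.MP_35beee_gt.PFace
section
/-!
Pairs of isometries with disjoint gaps.

`Face g h`: the gaps of `g` and `h` are disjoint. `TT g h = -B (qv g) (qv h)`; for hyperbolic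
elements it is `sinh * sinh * cosh (distance of the axes)`.

Plan. `Face.lt_TT`: hyperbolic pair: `Nest (ax g).rev`-type relations (`nest_iff_ends`,
`GNest_sq`); a parabolic member: `qv` is a positive multiple of `lo`, use `Ins`.
`Face.le_TT_of_not_ins`: write `qv a = -(T / s²) • qv b + y` with `y` orthogonal to `qv b`, timelike
and future directed (`B y (lo b) < 0`), so `-B (qv a) q ≥ √(-B y y)` by `Fut.mul_le_sq`.
`det3_qv_pos`: the matrix `B (u i) (ξ j)` with `ξ j = lo` has zero diagonal and negative entries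
elsewhere; its determinant is `-det3 u * det3 ξ` (product formula, `det3_eq`) and equals
`a12 a23 a31 + a13 a21 a32 < 0`. The version with a boundary point is the same computation.
`ptolemy`: `cramer3` gives `l1 u1 + l3 u3 = l2 u2 + l4 u4` with positive determinants `l i`; pair
with each `u i`: `l3 T13 = l2 T12 + l4 T14 + l1 s1²` and so on; multiply two such inequalities.
`TT_conj`: expand `qm`. `TT_le`: decompose at `p`: `u = β p + v` with `v` orthogonal to `p`,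
Cauchy-Schwarz on the orthogonal complement (`B_pos_of_orth`, or move `p` to `o`).
`exists_close`: `v = qch b • qv a + qch a • qv b` has `B v v ≤ -4` and `B v (lo a) < 0`, take
`p = toPt v` and `sinh_sq_dist`; `qch a, qch b ≤ C`.
-/

namespace HRT

open Set Filter Topology Real

/-- The gaps are disjoint. -/
def Face (g h : Isom) : Prop := NoFix g ∧ NoFix h ∧ ∀ ξ : Circ, Ins g ξ.1 ∨ Ins h ξ.1

/-- The weighted distance of two elements. -/
noncomputable def TT (g h : Isom) : ℝ := -B (qv g) (qv h)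

/-- Counterclockwise order of three elements. -/
def Ord3 (g h k : Isom) : Prop := ccw (lo g) (lo h) (lo k)

variable {a b c d : Isom}

theorem Face.symm (h : Face a b) : Face b a := by
  exact ⟨h.2.1, h.1, fun ξ => (h.2.2 ξ).symm⟩

theorem PFace_not_lo (h : NoFix a) : ¬ Ins a (lo a).1 := by
  unfold Ins
  rw [h.B_qv_lo]
  exact lt_irrefl 0

theorem PFace_not_hi (h : NoFix a) : ¬ Ins a (hi a).1 := by
  unfold Ins
  rw [h.B_qv_hi]
  exact lt_irrefl 0

theorem Face.pos (h : Face a b) : Pos a := by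
  exact ⟨h.1, lo b, (h.2.2 _).resolve_right (PFace_not_lo h.2.1)⟩

theorem Face.ins_lo (h : Face a b) : Ins a (lo b).1 := by
  exact (h.2.2 _).resolve_right (PFace_not_lo h.2.1)

theorem Face.ins_hi (h : Face a b) : Ins a (hi b).1 := by
  exact (h.2.2 _).resolve_right (PFace_not_hi h.2.1)

theorem Face.ins (h : Face a b) {ξ : Circ} (hξ : ¬ Ins b ξ.1) : Ins a ξ.1 := by
  exact (h.2.2 _).resolve_right hξ

theorem Face.ne (h : Face a b) : a ≠ b := by
  intro e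
  have h1 := h.ins_lo
  rw [← e] at h1
  exact PFace_not_lo h.1 h1

theorem Face.ne_inv (h : Face a b) : a ≠ b⁻¹ := by
  intro e
  have h1 := h.ins_hi
  rw [← h.2.1.lo_inv, ← e] at h1
  exact PFace_not_lo h.1 h1

theorem Face.lo_ne (h : Face a b) : lo a ≠ lo b := by
  intro e
  have h1 := h.ins_lo
  rw [← e] at h1
  exact PFace_not_lo h.1 h1

theorem Face.conj (h : Face a b) (A : Isom) : Face (A * a * A⁻¹) (A * b * A⁻¹) := by
  refine ⟨h.1.conj A, h.2.1.conj A, fun ξ => ?_⟩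
  rw [← smul_inv_smul A ξ, h.1.ins_conj_circ, h.2.1.ins_conj_circ]
  exact h.2.2 _

/-- Splitting of `qv a` into a future timelike vector and a negative multiple of `qv b`. -/
theorem PFace_split (ha : NoFix a) (hb : Hyp b) (h1 : Ins a (lo b).1) (h2 : Ins a (hi b).1)
    (h3 : Ins b (lo a).1) : ∃ (y : V) (τ : ℝ), Fut y ∧ B y y < 0 ∧ B y (qv b) = 0 ∧ τ < 0 ∧
      qv a = y + τ • qv b := by
  have hs := hb.qsh_pos
  have hn := (ax b).B_neg
  rw [hb.lo_eq] at h1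
  rw [hb.hi_eq] at h2
  unfold Ins at h1 h2 h3
  obtain ⟨α, hα⟩ : ∃ α, α = B (qv a) (ax b).tgt.1 / B (ax b).src.1 (ax b).tgt.1 := ⟨_, rfl⟩
  obtain ⟨β, hβ⟩ : ∃ β, β = B (qv a) (ax b).src.1 / B (ax b).src.1 (ax b).tgt.1 := ⟨_, rfl⟩
  have hα0 : 0 < α := hα ▸ div_pos_of_neg_of_neg h1 hn
  have hβ0 : 0 < β := hβ ▸ div_pos_of_neg_of_neg h2 hn
  have he := expand (ax b) (qv a)
  rw [← hα, ← hβ] at he
  obtain ⟨y, hy⟩ : ∃ y, y = α • (ax b).src.1 + β • (ax b).tgt.1 := ⟨_, rfl⟩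
  have hf : Fut y := hy ▸ ((ax b).src.fut.smul hα0).add ((ax b).tgt.fut.smul hβ0)
  have hyy : B y y < 0 := by
    have : B y y = 2 * (α * β) * B (ax b).src.1 (ax b).tgt.1 := by
      rw [hy]
      simp only [B_add_left, B_add_right, B_smul_left, B_smul_right, (ax b).src.2.1,
        (ax b).tgt.2.1, B_comm (ax b).tgt.1 (ax b).src.1]
      ring
    rw [this]
    exact mul_neg_of_pos_of_neg (by positivity) hn
  have hq : qv a = y + (side (ax b) (qv a) / qsh b) • qv b := by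
    rw [hb.qv_eq, smul_smul, div_mul_cancel₀ _ hs.ne', hy]
    exact he
  refine ⟨y, _, hf, hyy, ?_, ?_, hq⟩
  · have e1 : B (nrm (ax b)) (ax b).src.1 = 0 := side_src _
    have e2 : B (nrm (ax b)) (ax b).tgt.1 = 0 := side_tgt _
    rw [B_comm, hb.qv_eq, hy, B_smul_left, B_add_right, B_smul_right, B_smul_right, e1, e2]
    ring
  · have e1 := ha.B_qv_lo
    rw [hq, B_add_left, B_smul_left] at e1
    have e2 := hf.B_neg (lo a).fut hyy
    by_contra hc
    have := mul_nonpos_of_nonneg_of_nonpos (not_lt.1 hc) h3.le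
    linarith only [e1, e2, this]

theorem Face.PFace_split (h : Face a b) (hb : Hyp b) : ∃ (y : V) (τ : ℝ), Fut y ∧ B y y < 0 ∧
    B y (qv b) = 0 ∧ τ < 0 ∧ qv a = y + τ • qv b :=
  HRT.PFace_split h.1 hb h.ins_lo h.ins_hi h.symm.ins_lo

theorem PFace_ins_of_split {y v : V} {τ : ℝ} (hf : Fut y) (hyy : B y y < 0) (hτ : τ < 0)
    (hq : qv a = y + τ • qv b) (hv : Fut v) (hp : ¬ Ins b v) : Ins a v := by
  unfold Ins at hp ⊢
  rw [hq, B_add_left, B_smul_left]
  have h1 := hf.B_neg hv hyy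
  have h2 := mul_nonpos_of_nonpos_of_nonneg hτ.le (not_lt.1 hp)
  linarith

theorem face_iff_ends (ha : Pos a) (hb : Pos b) :
    Face a b ↔ Ins a (lo b).1 ∧ Ins a (hi b).1 ∧ Ins b (lo a).1 ∧ Ins b (hi a).1 := by
  refine ⟨fun h => ⟨h.ins_lo, h.ins_hi, h.symm.ins_lo, h.symm.ins_hi⟩, ?_⟩
  rintro ⟨h1, h2, h3, -⟩
  refine ⟨ha.1, hb.1, fun ξ => ?_⟩
  by_cases hξ : Ins b ξ.1
  · exact Or.inr hξ
  left
  rcases hb.1.hyp_or_par with hh | hp
  · obtain ⟨y, τ, hf, hyy, -, hτ, hq⟩ := PFace_split ha.1 hh h1 h2 h3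
    exact PFace_ins_of_split hf hyy hτ hq ξ.fut hξ
  · rw [hp.ins_circ hb, not_not] at hξ
    rw [hξ]
    exact h1

theorem face_iff_nest (ha : Hyp a) (hb : Hyp b) :
    Face a b ↔ Nest (ax b) (ax a).rev ∧ side (ax a) (ax b).src.1 ≠ 0 ∧
      side (ax a) (ax b).tgt.1 ≠ 0 := by
  rw [nest_iff_circ]
  constructor
  · intro h
    refine ⟨fun ξ hξ => ?_, ?_, ?_⟩
    · have h1 : ¬ Ins b ξ.1 := by
        rw [hb.ins_iff]
        exact not_lt.2 hξ.le
      have h2 := (ha.ins_iff _).1 (h.ins h1)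
      rw [side_rev]
      linarith
    · have h1 := h.ins_hi
      rw [hb.hi_eq, ha.ins_iff] at h1
      exact h1.ne
    · have h1 := h.ins_lo
      rw [hb.lo_eq, ha.ins_iff] at h1
      exact h1.ne
  · rintro ⟨h1, h2, h3⟩
    refine ⟨ha.noFix, hb.noFix, fun ξ => ?_⟩
    rw [ha.ins_iff, hb.ins_iff]
    rcases lt_trichotomy (side (ax b) ξ.1) 0 with h | h | h
    · exact Or.inr h
    · left
      have h4 := ((nest_iff_circ _ _).2 h1).nonneg ξ.fut h.ge
      rw [side_rev] at h4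
      have h5 : side (ax a) ξ.1 ≠ 0 := by
        rcases (side_eq_zero_iff _ _).1 h with e | e
        · rw [e]
          exact h2
        · rw [e]
          exact h3
      exact lt_of_le_of_ne (by linarith) h5
    · left
      have h4 := h1 ξ h
      rw [side_rev] at h4
      linarith

theorem Face.not_cross (h : Face a b) (ha : Hyp a) (hb : Hyp b) : ¬ Cross (ax a) (ax b) := by
  have h1 := ((face_iff_nest ha hb).1 h).1.not_cross
  rw [cross_rev_right, cross_comm] at h1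
  exact h1

/-- Gap of `a` inside the inner side of `m`, gap of `b` inside the outer side of `m`. -/
theorem Face.trans_inv {m : Isom} (hm : Hyp m) (h1 : Face a m) (h2 : Face m⁻¹ b) : Face a b := by
  refine ⟨h1.1, h2.2.1, fun ξ => ?_⟩
  by_cases hξ : Ins b ξ.1
  · exact Or.inr hξ
  left
  have h3 := (hm.ins_inv_iff _).1 (h2.ins hξ)
  apply h1.ins
  rw [hm.ins_iff]
  exact not_lt.2 h3.le

theorem PFace_par (hb : Par b) (hp : Pos b) : ∃ t : ℝ, 0 < t ∧ qv b = t • (lo b).1 := by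
  obtain ⟨t, -, ht⟩ := hb.qv_eq
  have h1 := ((hb.pos_iff).1 hp).2
  rw [ht, Pi.smul_apply, smul_eq_mul, (pfix b).2.2, mul_one] at h1
  exact ⟨t, h1, by rw [hb.lo_eq, ht]⟩

theorem Face.PFace_ins_fut (h : Face a b) {v : V} (hv : Fut v) (hp : ¬ Ins b v) : Ins a v := by
  rcases h.2.1.hyp_or_par with hh | hpar
  · obtain ⟨y, τ, hf, hyy, -, hτ, hq⟩ := h.PFace_split hh
    exact PFace_ins_of_split hf hyy hτ hq hv hp
  · obtain ⟨t, ht, hq⟩ := PFace_par hpar h.symm.pos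
    unfold Ins at hp ⊢
    rw [hq, B_smul_left] at hp
    have h1 := hv.B_nonpos (lo b).fut
    have h2 : B v (lo b).1 = 0 := by
      rw [B_comm] at h1 ⊢
      refine le_antisymm h1 ?_
      by_contra hc
      exact hp (mul_neg_of_pos_of_neg ht (not_le.1 hc))
    have h3 := hv.eq_smul_of_B_eq_zero (lo b).fut h2
    have h4 : 0 < v 2 / (lo b).1 2 := div_pos hv.2 (lo b).fut.2
    rw [h3, B_smul_right]
    exact mul_neg_of_pos_of_neg h4 h.ins_lo

theorem Face.ins_pt (h : Face a b) {p : Pt} (hp : ¬ Ins b p.1) : Ins a p.1 := by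
  exact h.PFace_ins_fut p.fut hp

theorem Face.ins_fut (h : Face a b) {v : V} (hv : Fut v) (hp : ¬ Ins b v) : Ins a v := by
  exact h.PFace_ins_fut hv hp

/-- If the gap of `b` lies inside the gap of `m`, the inner side of `m` lies in that of `b`. -/
theorem Face.ins_of_inv {m : Isom} (hm : Hyp m) (h : Face m⁻¹ b) {v : V} (hv : Fut v)
    (hp : B (qv m) v ≤ 0) : Ins b v := by
  apply h.symm.ins_fut hv
  unfold Ins
  rw [hm.noFix.qv_inv, B_neg_left]
  linarith only [hp]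

theorem TT_comm (a b : Isom) : TT a b = TT b a := by
  unfold TT
  rw [B_comm]

theorem TT_conj_conj (ha : NoFix a) (hb : NoFix b) (A : Isom) :
    TT (A * a * A⁻¹) (A * b * A⁻¹) = TT a b := by
  unfold TT
  rw [ha.qv_conj, hb.qv_conj, B_lin]

theorem PFace_split_facts (ha : NoFix a) (hb : NoFix b) {y : V} {τ : ℝ} (hy : B y (qv b) = 0)
    (hq : qv a = y + τ • qv b) :
    TT a b = -τ * qsh b ^ 2 ∧ qsh a ^ 2 = B y y + τ ^ 2 * qsh b ^ 2 := by
  constructor
  · unfold TT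
    rw [hq, B_add_left, B_smul_left, hy, hb.B_qv]
    ring
  · rw [← ha.B_qv, hq]
    simp only [B_add_left, B_add_right, B_smul_left, B_smul_right, hy, B_comm (qv b) y, hb.B_qv]
    ring

theorem PFace_split_lt (ha : NoFix a) (hb : NoFix b) {y : V} {τ : ℝ} (hyy : B y y < 0)
    (hy : B y (qv b) = 0) (hτ : τ < 0) (hq : qv a = y + τ • qv b) : qsh a < -τ * qsh b := by
  have h1 := (PFace_split_facts ha hb hy hq).2
  refine lt_of_pow_lt_pow_left₀ 2 (mul_nonneg (by linarith) (qsh_nonneg b)) ?_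
  rw [h1, mul_pow, neg_sq]
  linarith

theorem Face.lt_TT (h : Face a b) : qsh a * qsh b < TT a b := by
  rcases h.2.1.hyp_or_par with hh | hpar
  · obtain ⟨y, τ, -, hyy, hy, hτ, hq⟩ := h.PFace_split hh
    have h1 := PFace_split_lt h.1 h.2.1 hyy hy hτ hq
    rw [(PFace_split_facts h.1 h.2.1 hy hq).1]
    have h2 := mul_lt_mul_of_pos_right h1 hh.qsh_pos
    linarith
  · obtain ⟨t, ht, hq⟩ := PFace_par hpar h.symm.pos
    rw [hpar.qsh_eq.1, mul_zero]
    unfold TT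
    rw [hq, B_smul_right]
    have := mul_neg_of_pos_of_neg ht h.ins_lo
    linarith

theorem Face.PFace_TT_pos (h : Face a b) : 0 < TT a b :=
  lt_of_le_of_lt (mul_nonneg (qsh_nonneg a) (qsh_nonneg b)) h.lt_TT

theorem Face.TT_eq (h : Face a b) (ha : Hyp a) (hb : Hyp b) :
    TT a b = qsh a * qsh b * cosh (ldist (ax a) (ax b)) := by
  have h1 := h.PFace_TT_pos
  have h2 : TT a b = qsh a * qsh b * -B (nrm (ax a)) (nrm (ax b)) := by
    unfold TT
    rw [ha.qv_eq, hb.qv_eq, B_smul_left, B_smul_right]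
    ring
  rw [h2] at h1
  have h3 := (mul_pos_iff_of_pos_left (mul_pos ha.qsh_pos hb.qsh_pos)).1 h1
  rw [cosh_ldist (h.not_cross ha hb), abs_of_neg (by linarith), h2]

theorem TT_conj (ha : NoFix a) (hb : NoFix b) :
    TT a (b * a * b⁻¹) = 2 * TT a b ^ 2 - qsh a ^ 2 - 2 * qsh a ^ 2 * qsh b ^ 2 := by
  unfold TT
  rw [ha.qv_conj, hb.isLift_qv.2, qm, B_sub_right, B_add_right, B_smul_right, B_smul_right,
    B_smul_right, B_comm (qv a) (cr (qv b) (qv a)), B_cr_right, ha.B_qv, hb.B_qv, qch_sq,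
    B_comm (qv b) (qv a)]
  ring

theorem TT_conj_inv (ha : NoFix a) (hb : NoFix b) :
    TT a (b⁻¹ * a * b) = 2 * TT a b ^ 2 - qsh a ^ 2 - 2 * qsh a ^ 2 * qsh b ^ 2 := by
  have h1 := TT_conj ha hb.inv
  rw [inv_inv, qsh_inv] at h1
  rw [h1]
  unfold TT
  rw [hb.qv_inv, B_neg_right]
  ring

theorem sq_le_TT (hb : NoFix b) (h : Face a (b * a * b⁻¹)) :
    qsh a ^ 2 + qsh a ^ 2 * qsh b ^ 2 ≤ TT a b ^ 2 := by
  have h1 := h.lt_TT
  rw [qsh_conj, TT_conj h.1 hb] at h1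
  linarith only [h1]

theorem TT_le (ha : NoFix a) (hb : NoFix b) (p : Pt) :
    TT a b ≤ B (qv a) p.1 * B (qv b) p.1 +
      √(qsh a ^ 2 + B (qv a) p.1 ^ 2) * √(qsh b ^ 2 + B (qv b) p.1 ^ 2) := by
  have h1 := det3_sq (qv a) (qv b) p.1
  rw [ha.B_qv, hb.B_qv, p.2.1] at h1
  have h2 : (TT a b - B (qv a) p.1 * B (qv b) p.1) ^ 2 ≤
      (qsh a ^ 2 + B (qv a) p.1 ^ 2) * (qsh b ^ 2 + B (qv b) p.1 ^ 2) := by
    unfold TT
    have := sq_nonneg (det3 (qv a) (qv b) p.1)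
    rw [h1] at this
    linarith only [this]
  have h3 := Real.abs_le_sqrt h2
  rw [Real.sqrt_mul (by positivity)] at h3
  linarith [le_abs_self (TT a b - B (qv a) p.1 * B (qv b) p.1)]

theorem Face.TT_le_of_not_ins (h : Face a b) {p : Pt} (hp : ¬ Ins b p.1) :
    TT a b ≤ qsh b * √(qsh a ^ 2 + B (qv a) p.1 ^ 2) := by
  rcases h.2.1.hyp_or_par with hh | hpar
  swap
  · exact absurd (hpar.ins_pt h.symm.pos p) hp
  obtain ⟨y, τ, hf, hyy, hy, hτ, hq⟩ := h.PFace_split hh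
  obtain ⟨h1, h2⟩ := PFace_split_facts h.1 h.2.1 hy hq
  have h3 := hf.mul_le_sq p.fut
  rw [p.2.1] at h3
  have h4 := hf.B_neg p.fut hyy
  have h5 : B (qv a) p.1 ≤ B y p.1 := by
    rw [hq, B_add_left, B_smul_left]
    have := mul_nonpos_of_nonpos_of_nonneg hτ.le (not_lt.1 hp)
    linarith
  have h6 : B y p.1 ^ 2 ≤ B (qv a) p.1 ^ 2 := by
    rw [← neg_sq (B y p.1), ← neg_sq (B (qv a) p.1)]
    exact pow_le_pow_left₀ (by linarith) (by linarith) 2
  have h7 : -τ * qsh b ≤ √(qsh a ^ 2 + B (qv a) p.1 ^ 2) := by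
    apply Real.le_sqrt_of_sq_le
    rw [mul_pow, neg_sq]
    linarith
  have h8 := mul_le_mul_of_nonneg_left h7 (qsh_nonneg b)
  rw [h1]
  linarith

/-- Nested elements seen from `a`: the outer one is closer. -/
theorem Face.TT_lt_of_nest {m : Isom} (hm : Hyp m) (hb : Hyp b) (h1 : Face a m)
    (h2 : Face m⁻¹ b) : TT a m / qsh m < TT a b / qsh b := by
  obtain ⟨y, τ, hf, hyy, hy, hτ, hq⟩ := h1.PFace_split hm
  obtain ⟨z, υ, hf', hzz, hz, hυ, hq'⟩ := h2.symm.PFace_split hm.inv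
  have h3 := (PFace_split_facts h1.1 h1.2.1 hy hq).1
  have h4 := PFace_split_lt h2.2.1 h2.1 hzz hz hυ hq'
  rw [qsh_inv] at h4
  rw [hm.noFix.qv_inv] at hq' hz
  rw [B_neg_right, neg_eq_zero] at hz
  have h5 : TT a b = -B y z + τ * υ * qsh m ^ 2 := by
    unfold TT
    rw [hq, hq']
    simp only [B_add_left, B_add_right, B_smul_left, B_smul_right, B_neg_right, hy,
      B_comm (qv m) z, hz, hm.noFix.B_qv]
    ring
  have h6 := hf.B_neg hf' hyy
  have hs := hm.qsh_pos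
  have h7 : TT a m / qsh m = -τ * qsh m := by
    rw [h3]
    field_simp
  rw [h7, lt_div_iff₀ hb.qsh_pos, h5]
  have h8 := mul_lt_mul_of_pos_left h4 (mul_pos (neg_pos.2 hτ) hs)
  linarith only [h6, h8]

theorem ccw_gaps (hab : Face a b) (hbc : Face b c) (hca : Face c a) {ξ η ζ : Circ}
    (hξ : ¬ Ins a ξ.1) (hη : ¬ Ins b η.1) (hζ : ¬ Ins c ζ.1) : ccw ξ η ζ ↔ Ord3 a b c := by
  have e : ∀ x y z : Circ, ccw x y z ↔ ccw y z x := fun x y z => ⟨ccw.cyc, fun h => h.cyc.cyc⟩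
  unfold Ord3
  rw [hbc.2.1.ccw_gap (hca.ins hξ) (hbc.symm.ins hη) hζ (PFace_not_lo hbc.2.1), e,
    hab.1.ccw_gap (hab.ins hη) hca.symm.ins_lo hξ (PFace_not_lo hab.1), e,
    hab.2.1.ccw_gap hbc.ins_lo hab.symm.ins_lo hη (PFace_not_lo hab.2.1), e]

theorem ccw_gaps_pt (hab : Face a b) {ξ η ζ : Circ} (hξ : ¬ Ins a ξ.1) (hη : ¬ Ins b η.1)
    (ha : Ins a ζ.1) (hb : Ins b ζ.1) : ccw ξ η ζ ↔ ccw (lo a) (lo b) ζ := by
  have e : ∀ x y z : Circ, ccw x y z ↔ ccw y z x := fun x y z => ⟨ccw.cyc, fun h => h.cyc.cyc⟩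
  rw [e, hab.1.ccw_gap (hab.ins hη) ha hξ (PFace_not_lo hab.1), e,
    hab.2.1.ccw_gap hb hab.symm.ins_lo hη (PFace_not_lo hab.2.1), e]

theorem ord3_total (hab : Face a b) (hbc : Face b c) (hca : Face c a) :
    Ord3 a b c ∨ Ord3 a c b := by
  exact ccw_total hab.lo_ne hbc.lo_ne hca.lo_ne.symm

theorem Ord3.conj (h : Ord3 a b c) (ha : NoFix a) (hb : NoFix b) (hc : NoFix c) (A : Isom) :
    Ord3 (A * a * A⁻¹) (A * b * A⁻¹) (A * c * A⁻¹) := by
  unfold Ord3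
  rw [ha.lo_conj, hb.lo_conj, hc.lo_conj, ccw_smul_iff]
  exact h

theorem Face.ord3_conj (h : Face a b) : Ord3 a b (a * b * a⁻¹) := by
  unfold Ord3
  rw [h.2.1.lo_conj]
  exact (h.1.ccw_smul h.ins_lo (PFace_not_lo h.1)).cyc.cyc

theorem PFace_det_mul (u v w x y z : V) : det3 u v w * det3 x y z =
    B u x * B v z * B w y + B u y * B v x * B w z + B u z * B v y * B w x -
      B u x * B v y * B w z - B u y * B v z * B w x - B u z * B v x * B w y := by
  simp only [det3, B, cr_0, cr_1, cr_2]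
  ring

theorem PFace_det_pos {u v w x y z : V} (h1 : B u x = 0) (h2 : B v y = 0) (h3 : B w z = 0)
    (h12 : B u y < 0) (h13 : B u z < 0) (h21 : B v x < 0) (h23 : B v z < 0) (h31 : B w x < 0)
    (h32 : B w y < 0) (hd : 0 < det3 x y z) : 0 < det3 u v w := by
  have h := PFace_det_mul u v w x y z
  rw [h1, h2, h3] at h
  have e1 := mul_neg_of_pos_of_neg (mul_pos_of_neg_of_neg h12 h23) h31
  have e2 := mul_neg_of_pos_of_neg (mul_pos_of_neg_of_neg h13 h21) h32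
  have e3 : 0 < det3 u v w * det3 x y z := by
    rw [h]
    linarith only [e1, e2]
  exact (mul_pos_iff_of_pos_right hd).1 e3

theorem det3_qv_pos (hab : Face a b) (hbc : Face b c) (hca : Face c a) (h : Ord3 a b c) :
    0 < det3 (qv a) (qv b) (qv c) := by
  exact PFace_det_pos hab.1.B_qv_lo hbc.1.B_qv_lo hca.1.B_qv_lo hab.ins_lo hca.symm.ins_lo
    hab.symm.ins_lo hbc.ins_lo hca.ins_lo hbc.symm.ins_lo ((ccw_iff _ _ _).1 h)

theorem det3_qv_circ_pos (hab : Face a b) {ξ : Circ} (ha : Ins a ξ.1) (hb : Ins b ξ.1)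
    (h : ccw (lo a) (lo b) ξ) : 0 < det3 (qv a) (qv b) ξ.1 := by
  exact PFace_det_pos hab.1.B_qv_lo hab.2.1.B_qv_lo ξ.2.1 hab.ins_lo ha hab.symm.ins_lo hb
    (B_circ_neg h.ne13.symm) (B_circ_neg h.ne23.symm) ((ccw_iff _ _ _).1 h)

theorem PFace_mul_lt {k l x y z w : ℝ} (hk : 0 < k) (hl : 0 < l) (hx : 0 < x) (hy : 0 < y)
    (h1 : k * x < l * z) (h2 : l * y < k * w) : x * y < z * w := by
  have h3 := mul_lt_mul'' h1 h2 (mul_pos hk hx).le (mul_pos hl hy).le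
  have h4 : k * l * (x * y) < k * l * (z * w) := by linarith
  exact lt_of_mul_lt_mul_left h4 (mul_pos hk hl).le

theorem ptolemy (hab : Face a b) (hac : Face a c) (had : Face a d) (hbc : Face b c)
    (hbd : Face b d) (hcd : Face c d) (h1 : Ord3 a b c) (h2 : Ord3 c d a) :
    TT a b * TT c d < TT a c * TT b d ∧ TT a d * TT b c < TT a c * TT b d := by
  have o2 : Ord3 a c d := ccw.cyc (ccw.cyc h2)
  have o3 : Ord3 a b d := ccw.trans h1 o2
  have o1 : Ord3 b c d := ccw.trans' h1 o2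
  have l1 := det3_qv_pos hbc hcd hbd.symm o1
  have l2 := det3_qv_pos hac hcd had.symm o2
  have l3 := det3_qv_pos hab hbd had.symm o3
  have l4 := det3_qv_pos hab hbc hac.symm h1
  have hcr := cramer3 (qv a) (qv b) (qv c) (qv d)
  rw [det3_cyc (qv d) (qv b) (qv c), det3_swap (qv a) (qv c) (qv d)] at hcr
  generalize det3 (qv b) (qv c) (qv d) = k1 at l1 hcr
  generalize det3 (qv a) (qv c) (qv d) = k2 at l2 hcr
  generalize det3 (qv a) (qv b) (qv d) = k3 at l3 hcr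
  generalize det3 (qv a) (qv b) (qv c) = k4 at l4 hcr
  have ea := congrArg (B (qv a)) hcr
  have eb := congrArg (B (qv b)) hcr
  have ed := congrArg (B (qv d)) hcr
  simp only [B_add_right, B_smul_right, hab.1.B_qv, hbc.1.B_qv, had.2.1.B_qv,
    B_comm (qv b) (qv a), B_comm (qv d) (qv a), B_comm (qv d) (qv b),
    B_comm (qv d) (qv c)] at ea eb ed
  have tab := hab.PFace_TT_pos
  have tad := had.PFace_TT_pos
  have tbc := hbc.PFace_TT_pos
  have tcd := hcd.PFace_TT_pos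
  have sa := mul_nonneg l1.le (sq_nonneg (qsh a))
  have sb := mul_nonneg l2.le (sq_nonneg (qsh b))
  have sd := mul_nonneg l4.le (sq_nonneg (qsh d))
  have p1 := mul_pos l2 tab
  have p2 := mul_pos l4 tad
  have p3 := mul_pos l1 tab
  have p4 := mul_pos l1 tad
  constructor
  · refine PFace_mul_lt l2 l3 tab tcd ?_ ?_
    · unfold TT at *
      linarith only [ea, sa, p2]
    · unfold TT at *
      linarith
  · refine PFace_mul_lt l4 l3 tad tbc ?_ ?_
    · unfold TT at *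
      linarith
    · unfold TT at *
      linarith only [eb, sb, p3]

theorem PFace_fut {v : V} (hv : B v v < 0) (ξ : Circ) (h : B v ξ.1 < 0) : Fut v := by
  refine ⟨hv.le, ?_⟩
  by_contra hc
  have h0 : v 2 ≠ 0 := by
    intro h0
    simp only [B, h0] at hv
    linarith only [hv, mul_self_nonneg (v 0), mul_self_nonneg (v 1), mul_self_nonneg (v (1 : Fin (3 : ℕ))), mul_self_nonneg (v (0 : Fin (3 : ℕ)))]
  have h1 : Fut (-v) := by
    refine ⟨by rw [B_neg_left, B_neg_right, neg_neg]; exact hv.le, ?_⟩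
    rw [Pi.neg_apply]
    have := lt_of_le_of_ne (not_lt.1 hc) h0
    linarith
  have h2 := h1.B_nonpos ξ.fut
  rw [B_neg_left] at h2
  linarith

theorem PFace_dist_le (ha : NoFix a) (p : Pt) {C D : ℝ} (h1 : qch a ≤ C)
    (h2 : |B (qv a) p.1| ≤ D) : dist p (a • p) ≤ 2 * (1 + C ^ 2 + D ^ 2) := by
  have h3 := ha.sinh_sq_dist p
  have h4 : dist p (a • p) / 2 ≤ sinh (dist p (a • p) / 2) :=
    Real.self_le_sinh_iff.2 (by positivity)
  have h5 : qch a ^ 2 ≤ C ^ 2 := pow_le_pow_left₀ (by linarith only [one_le_qch a]) h1 2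
  have h6 : B (qv a) p.1 ^ 2 ≤ D ^ 2 := by
    rw [← sq_abs]
    exact pow_le_pow_left₀ (abs_nonneg _) h2 2
  rw [qch_sq] at h5
  linarith only [h3, h4, h5, h6, sq_nonneg (sinh (dist p (a • p) / 2) - 1), sq_nonneg ((1 : ℝ) * sinh (dist p (a • p) / (2 : ℝ)) - (1 : ℝ) * (1 : ℝ)), sq_nonneg D, sq_nonneg (qsh a)]

theorem PFace_abs_le {C x y s t r : ℝ} (hx : 1 ≤ x) (hy : 1 ≤ y) (hs : x ^ 2 = 1 + s ^ 2)
    (h1 : x * y + 1 ≤ t) (h2 : t ≤ C) (hr0 : 0 ≤ r) (hr : r ≤ 1) :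
    |r * (y * s ^ 2 + x * -t)| ≤ C ^ 3 + C ^ 2 := by
  have hxC : x ≤ C := by linarith only [hy, h1, h2, hx, mul_nonneg_of_nonpos_of_nonpos (Mathlib.Tactic.Linarith.sub_nonpos_of_le hx) (Mathlib.Tactic.Linarith.sub_nonpos_of_le hy)]
  have hyC : y ≤ C := by linarith only [hx, h1, h2, hy, mul_nonneg_of_nonpos_of_nonpos (Mathlib.Tactic.Linarith.sub_nonpos_of_le hx) (Mathlib.Tactic.Linarith.sub_nonpos_of_le hy)]
  have ht : 0 ≤ t := by linarith only [hx, hy, h1, mul_nonneg_of_nonpos_of_nonpos (Mathlib.Tactic.Linarith.sub_nonpos_of_le hx) (Mathlib.Tactic.Linarith.sub_nonpos_of_le hy)]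
  have hC : 0 ≤ C := by linarith
  have h3 : s ^ 2 ≤ C ^ 2 := by linarith only [hx, hs, h1, h2, hy, hxC, mul_nonneg_of_nonpos_of_nonpos (Mathlib.Tactic.Linarith.sub_nonpos_of_le (sq_nonneg x)) (Mathlib.Tactic.Linarith.sub_nonpos_of_le hy), mul_nonneg_of_nonpos_of_nonpos (Mathlib.Tactic.Linarith.sub_nonpos_of_le hx) (Mathlib.Tactic.Linarith.sub_nonpos_of_le h1), mul_nonneg_of_nonpos_of_nonpos (Mathlib.Tactic.Linarith.sub_nonpos_of_le hx) (Mathlib.Tactic.Linarith.sub_nonpos_of_le h2), mul_nonneg_of_nonpos_of_nonpos (Mathlib.Tactic.Linarith.sub_nonpos_of_le hxC) (Mathlib.Tactic.Linarith.sub_nonpos_of_le hxC)]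
  have h4 : y * s ^ 2 ≤ C * C ^ 2 := mul_le_mul hyC h3 (sq_nonneg s) hC
  have h5 : x * t ≤ C * C := mul_le_mul hxC h2 ht hC
  have h6 : 0 ≤ y * s ^ 2 := by positivity
  have h7 : 0 ≤ x * t := by positivity
  have h8 : |y * s ^ 2 + x * -t| ≤ C ^ 3 + C ^ 2 := by
    rw [abs_le]
    constructor <;> linarith only [h4, h5, h6, h7, mul_self_nonneg C]
  rw [abs_mul, abs_of_nonneg hr0]
  exact le_trans (mul_le_of_le_one_left (abs_nonneg _) hr) h8

/-- A point moved boundedly by both elements. -/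
theorem exists_close (C : ℝ) : ∃ R : ℝ, ∀ a b : Isom, Face a b →
    qch a * qch b + 1 ≤ TT a b → TT a b ≤ C →
      ∃ p : Pt, dist p (a • p) ≤ R ∧ dist p (b • p) ≤ R := by
  refine ⟨2 * (1 + C ^ 2 + (C ^ 3 + C ^ 2) ^ 2), fun a b h h1 h2 => ?_⟩
  have ca := one_le_qch a
  have cb := one_le_qch b
  have hT : B (qv a) (qv b) = -TT a b := by
    unfold TT
    ring
  obtain ⟨v, hv⟩ : ∃ v, v = qch b • qv a + qch a • qv b := ⟨_, rfl⟩
  have hvv : B v v ≤ -1 := by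
    have e : B v v = qch b ^ 2 * qsh a ^ 2 + qch a ^ 2 * qsh b ^ 2 -
        2 * (qch a * qch b) * TT a b := by
      rw [hv]
      simp only [B_add_left, B_add_right, B_smul_left, B_smul_right, h.1.B_qv, h.2.1.B_qv,
        B_comm (qv b) (qv a), hT]
      ring
    have e1 : qsh a ^ 2 = qch a ^ 2 - 1 := by rw [qch_sq]; ring
    have e2 : qsh b ^ 2 = qch b ^ 2 - 1 := by rw [qch_sq]; ring
    have e3 : 0 < qch a * qch b := by positivity
    have e4 := mul_le_mul_of_nonneg_left h1 e3.le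
    rw [e, e1, e2]
    linarith only [e1, e2, e3, e4, sq_nonneg (qsh b), sq_nonneg (qsh a)]
  have hf : Fut v := by
    refine PFace_fut (by linarith) (lo a) ?_
    rw [hv, B_add_left, B_smul_left, B_smul_left, h.1.B_qv_lo, mul_zero, zero_add]
    exact mul_neg_of_pos_of_neg (by linarith) h.symm.ins_lo
  have hp := toPt_val (v := v) (by linarith) hf.2
  have hr0 : 0 ≤ (√(-B v v))⁻¹ := by positivity
  have hr : (√(-B v v))⁻¹ ≤ 1 := inv_le_one_of_one_le₀ (Real.one_le_sqrt.2 (by linarith))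
  generalize (√(-B v v))⁻¹ = r at hp hr0 hr
  refine ⟨toPt v, PFace_dist_le h.1 _ (by linarith only [h1, h2, cb, ca, mul_nonneg_of_nonpos_of_nonpos (Mathlib.Tactic.Linarith.sub_nonpos_of_le ca) (Mathlib.Tactic.Linarith.sub_nonpos_of_le cb)]) ?_, PFace_dist_le h.2.1 _ (by linarith only [h1, h2, ca, cb, mul_nonneg_of_nonpos_of_nonpos (Mathlib.Tactic.Linarith.sub_nonpos_of_le ca) (Mathlib.Tactic.Linarith.sub_nonpos_of_le cb)]) ?_⟩
  · rw [hp, hv, B_smul_right, B_add_right, B_smul_right, B_smul_right, h.1.B_qv, hT]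
    exact PFace_abs_le ca cb (qch_sq a) h1 h2 hr0 hr
  · rw [hp, hv, B_smul_right, B_add_right, B_smul_right, B_smul_right, h.2.1.B_qv,
      B_comm (qv b) (qv a), hT, add_comm]
    exact PFace_abs_le cb ca (qch_sq b) (by linarith) h2 hr0 hr

variable {Γ : Type*} [Group Γ] {ρ σ : Γ →* Isom} {f : Circ ≃ₜ Circ}

theorem IsMark.face (hm : IsMark ρ σ f) {γ δ : Γ} (h : Face (ρ γ) (ρ δ)) : Face (σ γ) (σ δ) := by
  refine ⟨hm.noFix h.1, hm.noFix h.2.1, fun ξ => ?_⟩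
  rw [← f.apply_symm_apply ξ, hm.ins_iff h.1, hm.ins_iff h.2.1]
  exact h.2.2 _

theorem IsMark.face_iff (hm : IsMark ρ σ f) (γ δ : Γ) :
    Face (σ γ) (σ δ) ↔ Face (ρ γ) (ρ δ) := ⟨hm.symm.face, hm.face⟩

theorem IsMark.ord3_iff (hm : IsMark ρ σ f) {γ δ ε : Γ} (h1 : NoFix (ρ γ)) (h2 : NoFix (ρ δ))
    (h3 : NoFix (ρ ε)) : Ord3 (σ γ) (σ δ) (σ ε) ↔ Ord3 (ρ γ) (ρ δ) (ρ ε) := by
  unfold Ord3
  rw [hm.lo_eq h1, hm.lo_eq h2, hm.lo_eq h3, hm.ori.ccw_iff]

end HRT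
end

-- merged part: Pool.Agent.Work.MP_35beee_gt.GThick
section
/-!
Thick part, systole, cusps, the compact core, finiteness of the length spectrum, density of
fixed points, for an action with a packing bound.

Plan. `exists_net`: a maximal `η`-separated finite set of `η`-thick points.
`exists_systole`, `finite_cusps`: for a primitive hyperbolic `g` with `tl ≤ marg / 4` (or a
generator of a cusp) choose a point moved by exactly `marg / 2` by `g` and by at least that much by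
its nonzero powers (`Hyp.sinh_dist`, `Par.exists_kappa`); by `commute_of_small` it is
`marg / 2`-thick; so a conjugate of `g` moves `o` by a bounded amount.
`thin_structure`: for `η ≤ marg / 9` below the systole, a point that is not `η`-thick is moved by
less than `η` by a parabolic element; its cusp is unique and locally constant.
`exists_core`: if `u` is parabolic with fixed point `ξ` off the ends of `l` and moves `p ∈ l` by less
than a universal constant then `l` and `u • l` cross (`|B n (u n)| < 1`: with the lift `(1, tξ)`,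
`B n (u n) = 1 - 2 t² (B ξ n)²`, `cosh dist = 1 + 2 t² (B ξ p)²`, and `0 < |B ξ n| ≤ |B ξ p|`).
`finite_spectrum`, `exists_return`: a line is connected, so if a ray is thin it stays with one cusp
and ends there (`ToB.tendsto_neg_B`).
`exists_fix_mem_arc`: take `p = fermi l 0 T` far on the left of the line `l` bounding the arc. A ball
of radius `R₀` around `p` contains more than `N 1` points at mutual distance `≥ 1`, so some `g ≠ 1`
moves `p` by at most `2 R₀ + 1`. If all fixed points of `g` were on the right of `l`, then `g` would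
move a point at bounded distance of `pt l 0` by about `exp (-T)`, against `exists_inj`
(for `ξ` on the right, `-B p ξ ≥ c exp T * -B (pt l 0) ξ`; use `IsLift.cosh_dist`).
-/

namespace HRT

open Set Filter Topology Real

variable {Γ : Type*} [Group Γ] {ρ : Γ →* Isom} {N : ℝ → ℝ}

/-- Points moved by at least `η` by all nontrivial elements. -/
def Thick (ρ : Γ →* Isom) (η : ℝ) (p : Pt) : Prop := ∀ g : Γ, g ≠ 1 → η ≤ dist p (ρ g • p)

/-- Lines that stay within `R` of the orbit of the base point. -/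
def InCore (ρ : Γ →* Isom) (R : ℝ) (l : Geo) : Prop :=
  ∀ t : ℝ, ∃ g : Γ, dist (ρ g • o) (pt l t) ≤ R

theorem gThick_dist_conj (g k : Γ) (p : Pt) :
    dist (ρ g • p) (ρ k • ρ g • p) = dist p (ρ (g⁻¹ * k * g) • p) := by
  rw [← dist_smul (ρ g) p, map_mul, map_mul, map_inv, mul_smul, mul_smul, smul_inv_smul]

theorem gThick_B_tgt (l : Geo) : ∃ c > 0, ∀ t, B (pt l t).1 l.tgt.1 = -(c * exp (-t)) := by
  have h := l.B_neg
  have h1 : 0 < √(-2 * B l.src.1 l.tgt.1) := Real.sqrt_pos.2 (by linarith)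
  refine ⟨(√(-2 * B l.src.1 l.tgt.1))⁻¹ * -B l.src.1 l.tgt.1,
    mul_pos (inv_pos.2 h1) (by linarith), fun t => ?_⟩
  change B ((√(-2 * B l.src.1 l.tgt.1))⁻¹ • (exp (-t) • l.src.1 + exp t • l.tgt.1)) l.tgt.1 = _
  rw [B_smul_left, B_add_left, B_smul_left, B_smul_left, l.tgt.2.1]
  ring

theorem gThick_exists_B (ξ : Circ) {x : ℝ} (hx : 0 < x) : ∃ p : Pt, B p.1 ξ.1 ^ 2 = x := by
  obtain ⟨l, -, -, rfl⟩ := exists_line_pt_circ o ξ
  obtain ⟨c, hc, h⟩ := gThick_B_tgt l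
  refine ⟨pt l (-log (√x / c)), ?_⟩
  rw [h, neg_neg, exp_log (by positivity), neg_sq, mul_div_cancel₀ _ hc.ne', sq_sqrt hx.le]

theorem gThick_le_of_cosh {a b : ℝ} (hb : 0 ≤ b) (h : cosh a ≤ cosh b) : a ≤ b :=
  (le_abs_self a).trans ((cosh_le_cosh.1 h).trans (abs_of_nonneg hb).le)

theorem gThick_par_ne {u : Γ} (h : Par (ρ u)) : u ≠ 1 := by
  rintro rfl
  exact h.1 o (by rw [map_one, one_smul])

theorem gThick_move {p : Pt} {g k : Γ} {R m : ℝ} (h : dist (ρ g • o) p ≤ R)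
    (hk : dist p (ρ k • p) ≤ m) : dist o (ρ (g⁻¹ * k * g) • o) ≤ 2 * R + m := by
  rw [← gThick_dist_conj]
  have h1 := dist_triangle4 (ρ g • o) p (ρ k • p) (ρ k • ρ g • o)
  rw [dist_smul, dist_comm p (ρ g • o)] at h1
  linarith

theorem gThick_hyp (hρ : Disc ρ) {k : Γ} (hk : Hyp (ρ k)) (hp : Prim k) (h : tl (ρ k) ≤ marg) :
    ∃ p : Pt, dist p (ρ k • p) ≤ marg ∧ Thick ρ marg p := by
  have h0 : 0 < sinh (tl (ρ k) / 2) := sinh_pos_iff.2 (half_pos hk)
  have h1 : 1 ≤ sinh (marg / 2) / sinh (tl (ρ k) / 2) := by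
    rw [le_div_iff₀ h0, one_mul]
    exact sinh_le_sinh.2 (by linarith only [h])
  obtain ⟨p, hp'⟩ : ∃ p : Pt, √(1 + side (ax (ρ k)) p.1 ^ 2) =
      sinh (marg / 2) / sinh (tl (ρ k) / 2) := by
    refine ⟨fermi (ax (ρ k)) 0 (arcosh (sinh (marg / 2) / sinh (tl (ρ k) / 2))), ?_⟩
    rw [side_fermi, add_comm, ← cosh_sq, sqrt_sq (cosh_pos _).le, cosh_arcosh h1]
  have h2 : dist p (ρ k • p) = marg := by
    have := hk.sinh_dist p
    rw [hp', div_mul_cancel₀ _ h0.ne'] at this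
    linarith only [this, sinh_injective this]
  refine ⟨p, h2.le, fun g hg => ?_⟩
  by_contra hlt
  have hc := hρ.commute_of_small h2.le (not_le.1 hlt).le
  obtain ⟨hgh, hax⟩ := hk.of_commute (hρ.noFix hg) (hc.map ρ)
  have h3 : ρ g • ax (ρ k) = ax (ρ k) := by
    rcases hax with hax | hax
    · rw [← hax, hgh.smul_ax]
    · rw [← Geo.rev_rev (ax (ρ k)), Geo.smul_rev, ← hax, hgh.smul_ax]
  obtain ⟨n, rfl⟩ := Subgroup.mem_zpowers_iff.1 ((hρ.smul_ax_iff hk hp g).1 h3)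
  have hn : n ≠ 0 := by
    rintro rfl
    exact hg (zpow_zero k)
  have h4 : tl (ρ k) ≤ tl (ρ (k ^ n)) := by
    rw [map_zpow, hk.tl_zpow]
    refine le_mul_of_one_le_left (tl_nonneg _) ?_
    rw [← Int.cast_abs]
    exact_mod_cast Int.one_le_abs hn
  have h5 : side (ax (ρ (k ^ n))) p.1 ^ 2 = side (ax (ρ k)) p.1 ^ 2 := by
    rcases hax with hax | hax <;> rw [hax]
    rw [side_rev, neg_sq]
  have h6 := hgh.sinh_dist p
  rw [h5] at h6
  have h7 : sinh (dist p (ρ k • p) / 2) ≤ sinh (dist p (ρ (k ^ n) • p) / 2) := by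
    rw [h6, hk.sinh_dist p]
    exact mul_le_mul_of_nonneg_left (sinh_le_sinh.2 (by linarith only [h4])) (sqrt_nonneg _)
  rw [sinh_le_sinh, h2] at h7
  exact hlt (by linarith only [hlt, h7])

theorem gThick_par (hρ : Disc ρ) {u : Γ} (hu : Par (ρ u))
    (hs : ∀ h : Γ, ρ h • pfix (ρ u) = pfix (ρ u) → h ∈ Subgroup.zpowers u) :
    ∃ p : Pt, dist p (ρ u • p) ≤ marg ∧ Thick ρ marg p := by
  obtain ⟨κ, hκ, h⟩ := hu.exists_kappa
  have h0 : 0 < cosh marg - 1 := sub_pos.2 (one_lt_cosh.2 marg_pos.ne')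
  obtain ⟨p, hp⟩ := gThick_exists_B (pfix (ρ u)) (div_pos h0 hκ)
  have h1 : ∀ n : ℤ, cosh (dist p (ρ (u ^ n) • p)) = 1 + (n : ℝ) ^ 2 * (cosh marg - 1) := by
    intro n
    rw [map_zpow, h, hp, mul_assoc, mul_div_cancel₀ _ hκ.ne']
  have h2 : dist p (ρ u • p) ≤ marg := by
    refine gThick_le_of_cosh marg_pos.le ?_
    have := h1 1
    rw [zpow_one] at this
    rw [this]
    simp
  refine ⟨p, h2, fun g hg => ?_⟩
  by_contra hlt
  have hc := hρ.commute_of_small h2 (not_le.1 hlt).le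
  obtain ⟨hgp, hfix⟩ := hu.of_commute (hρ.noFix hg) (hc.map ρ)
  obtain ⟨n, rfl⟩ := Subgroup.mem_zpowers_iff.1 (hs g ((hgp.fix_iff _).2 hfix.symm))
  have hn : n ≠ 0 := by
    rintro rfl
    exact hg (zpow_zero u)
  refine hlt (gThick_le_of_cosh dist_nonneg ?_)
  have h3 : (1 : ℝ) ≤ (n : ℝ) ^ 2 := by exact_mod_cast (by positivity : 0 < n ^ 2)
  rw [h1]
  linarith only [h0, h3, mul_nonneg_of_nonpos_of_nonpos (le_of_lt (Mathlib.Tactic.Linarith.sub_neg_of_lt h0)) (Mathlib.Tactic.Linarith.sub_nonpos_of_le h3)]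

theorem gThick_near {u : Isom} (hu : Par u) {p q : Pt} (h : dist p q ≤ 1) :
    cosh (dist q (u • q)) - 1 ≤ exp 1 ^ 2 * (cosh (dist p (u • p)) - 1) := by
  obtain ⟨κ, hκ, h0⟩ := hu.exists_kappa
  have h1 := h0 p 1
  have h2 := h0 q 1
  rw [zpow_one] at h1 h2
  have hp := neg_pos.2 (B_pt_circ_neg p (pfix u))
  have hq := neg_pos.2 (B_pt_circ_neg q (pfix u))
  have h3 := (abs_le.1 ((abs_log_B_le p q (pfix u).fut).trans h)).1
  have h4 : -B q.1 (pfix u).1 ≤ exp 1 * -B p.1 (pfix u).1 := by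
    rw [← exp_log hp, ← exp_log hq, ← exp_add, exp_le_exp]
    linarith
  have h5 := mul_le_mul_of_nonneg_left (pow_le_pow_left₀ hq.le h4 2) hκ.le
  rw [h1, h2]
  push_cast
  linarith only [h5]

theorem Thick.smul {η : ℝ} {p : Pt} (h : Thick ρ η p) (g : Γ) : Thick ρ η (ρ g • p) := by
  intro k hk
  rw [gThick_dist_conj]
  refine h _ fun h1 => hk ?_
  have : k = g * (g⁻¹ * k * g) * g⁻¹ := by group
  rw [this, h1, mul_one, mul_inv_cancel]

theorem InCore.smul {R : ℝ} {l : Geo} (h : InCore ρ R l) (g : Γ) : InCore ρ R (ρ g • l) := by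
  intro t
  obtain ⟨k, hk⟩ := h (t - sh (ρ g) l)
  refine ⟨g * k, ?_⟩
  rwa [← dist_smul (ρ g), smul_pt, sub_add_cancel, ← mul_smul, ← map_mul] at hk

theorem InCore.rev {R : ℝ} {l : Geo} (h : InCore ρ R l) : InCore ρ R l.rev := by
  intro t
  rw [pt_rev]
  exact h _

theorem Disc.isClosed_inCore (hρ : Disc ρ) (R : ℝ) : IsClosed {l : Geo | InCore ρ R l} := by
  have hK : IsClosed (⋃ g : Γ, Metric.closedBall (ρ g • o) R) := by
    refine LocallyFinite.isClosed_iUnion (fun p => ⟨Metric.closedBall p 1,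
      Metric.closedBall_mem_nhds p one_pos, (hρ.finite_near p o (1 + R)).subset ?_⟩)
      fun _ => Metric.isClosed_closedBall
    rintro g ⟨q, h1, h2⟩
    exact (dist_triangle_left _ _ q).trans (add_le_add h2 h1)
  have : {l : Geo | InCore ρ R l} =
      ⋂ t : ℝ, (fun l => pt l t) ⁻¹' ⋃ g : Γ, Metric.closedBall (ρ g • o) R := by
    ext l
    simp only [InCore, mem_ofPred_eq, mem_iInter, mem_preimage, mem_iUnion, Metric.mem_closedBall']
  rw [this]
  exact isClosed_iInter fun t =>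
    hK.preimage (continuous_pt.comp (continuous_id.prodMk continuous_const))

theorem Disc.not_cusp_of_inCore (hρ : Disc ρ) {R : ℝ} {l : Geo} (h : InCore ρ R l) :
    ¬ IsCusp ρ l.src ∧ ¬ IsCusp ρ l.tgt := by
  have key : ∀ l : Geo, InCore ρ R l → ¬ IsCusp ρ l.tgt := by
    rintro l h ⟨u, hu, he⟩
    obtain ⟨η, hη, hi⟩ := hρ.exists_inj o R
    have ht : ∀ t, η ≤ dist (pt l t) (ρ u • pt l t) := by
      intro t
      obtain ⟨g, hg⟩ := h t
      have h1 : Thick ρ η ((ρ g)⁻¹ • pt l t) := hi _ (by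
        rwa [← dist_smul (ρ g), smul_inv_smul])
      have h2 := h1.smul g
      rw [smul_inv_smul] at h2
      exact h2 u (gThick_par_ne hu)
    obtain ⟨κ, -, h0⟩ := hu.exists_kappa
    obtain ⟨c, -, hc⟩ := gThick_B_tgt l
    have h1 : Tendsto (fun t : ℝ => 1 + κ * (-(c * exp (-t))) ^ 2) atTop
        (𝓝 (1 + κ * (-(c * 0)) ^ 2)) :=
      (((tendsto_exp_neg_atTop_nhds_zero.const_mul c).neg.pow 2).const_mul κ).const_add 1
    have h2 : cosh η ≤ 1 + κ * (-(c * 0)) ^ 2 := by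
      refine ge_of_tendsto' h1 fun t => ?_
      have h3 := h0 (pt l t) 1
      rw [zpow_one, he, hc, Int.cast_one, one_pow, one_mul] at h3
      rw [← h3, cosh_le_cosh, abs_of_pos hη, abs_of_nonneg dist_nonneg]
      exact ht t
    have := one_lt_cosh.2 hη.ne'
    simp at h2
    linarith
  exact ⟨key l.rev h.rev, key l h⟩

theorem exists_cusp_const : ∃ η > 0, ∀ (u : Isom) (l : Geo) (t : ℝ), Par u →
    side l (pfix u).1 ≠ 0 → dist (pt l t) (u • pt l t) < η → Cross l (u • l) := by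
  refine ⟨1, one_pos, fun u l t hu hs hd => ?_⟩
  obtain ⟨τ, hτ, hl⟩ := hu.exists_isLift
  have h1 : cosh (dist (pt l t) (u • pt l t)) < 3 := by
    have h2 : cosh (dist (pt l t) (u • pt l t)) < cosh 1 := by
      rwa [cosh_lt_cosh, abs_of_nonneg dist_nonneg, abs_one]
    have h3 : exp (-1) ≤ 1 := exp_le_one_iff.2 (by norm_num)
    rw [cosh_eq 1] at h2
    linarith only [h2, h3, exp_one_lt_d9]
  have h0 := (pfix u).2.1
  rw [hl.cosh_dist, B_smul_left, B_smul_right, h0, B_smul_left] at h1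
  have h2 : B (nrm l) (nrm (u • l)) = 1 - 2 * (τ * side l (pfix u).1) ^ 2 := by
    rw [nrm_smul, hl.2, qm, B_sub_right, B_add_right, B_smul_right, B_smul_right, B_smul_right,
      B_nrm_nrm, B_comm (nrm l) (cr _ _), B_cr_right, B_smul_left, B_smul_right, h0, B_smul_left,
      B_smul_right, B_comm (pfix u).1, side]
    ring
  have h3 : side l (pfix u).1 ^ 2 ≤ B (pfix u).1 (pt l t).1 ^ 2 := by
    have h4 : B (pfix u).1 (pt l t).1 =
        |side l (pfix u).1| * B (pt l (fer l (pfix u).1)).1 (pt l t).1 := by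
      have h5 : B (nrm l) (pt l t).1 = 0 := side_pt l t
      conv_lhs => rw [circ_eq l hs]
      rw [B_add_left, B_smul_left, B_smul_left, h5, mul_zero, add_zero]
    have h5 := one_le_neg_B (pt l (fer l (pfix u).1)) (pt l t)
    rw [h4, mul_pow, sq_abs]
    exact le_mul_of_one_le_right (sq_nonneg _) (by linarith only [h5, mul_nonneg_of_nonpos_of_nonpos (Mathlib.Tactic.Linarith.sub_nonpos_of_le h5) (Mathlib.Tactic.Linarith.sub_nonpos_of_le h5)])
  have h4 : 0 < (τ * side l (pfix u).1) ^ 2 := by positivity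
  have h5 := mul_le_mul_of_nonneg_left h3 (sq_nonneg τ)
  rw [cross_iff_abs_B, h2, abs_lt]
  constructor <;> linarith only [h1, h5, h4]

namespace Good

variable (hρ : Good ρ N)
include hρ

theorem exists_net {η : ℝ} (hη : 0 < η) : ∃ s : Finset Pt, (s.card : ℝ) ≤ N η ∧
    ∀ p, Thick ρ η p → ∃ q ∈ s, ∃ g : Γ, dist p (ρ g • q) < η := by
  classical
  let C : Set ℕ := {n | ∃ s : Finset Pt, Sep ρ η s ∧ s.card = n}
  have hb : BddAbove C := ⟨⌈N η⌉₊, by
    rintro _ ⟨s, hs, rfl⟩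
    exact_mod_cast (hρ.pack η hη s hs).trans (Nat.le_ceil _)⟩
  obtain ⟨s, hs, hc⟩ := Nat.sSup_mem (s := C) ⟨0, ∅, fun _ h => by simp at h, rfl⟩ hb
  refine ⟨s, hρ.pack η hη s hs, fun p hp => ?_⟩
  by_contra hn
  push Not at hn
  have hps : p ∉ s := fun h => by
    have := hn p h 1
    rw [map_one, one_smul, dist_self] at this
    linarith only [hη, this]
  have h1 : Sep ρ η (insert p s) := by
    intro a ha b hb g hg
    rcases Finset.mem_insert.1 ha with rfl | ha' <;> rcases Finset.mem_insert.1 hb with rfl | hb'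
    · exact hp g (hg.resolve_left fun h => h rfl)
    · exact hn b hb' g
    · have := hn a ha' g⁻¹
      rwa [← dist_smul (ρ g), map_inv, smul_inv_smul, dist_comm] at this
    · exact hs a ha' b hb' g hg
  have h2 := le_csSup hb (show (insert p s).card ∈ C from ⟨_, h1, rfl⟩)
  rw [Finset.card_insert_of_notMem hps, hc] at h2
  omega

theorem exists_thick_bound {η : ℝ} (hη : 0 < η) :
    ∃ R, ∀ p, Thick ρ η p → ∃ g : Γ, dist (ρ g • o) p ≤ R := by
  obtain ⟨s, -, hs⟩ := hρ.exists_net hη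
  refine ⟨∑ q ∈ s, dist o q + η, fun p hp => ?_⟩
  obtain ⟨q, hq, g, hg⟩ := hs p hp
  have h1 := dist_triangle (ρ g • o) (ρ g • q) p
  have h2 := Finset.single_le_sum (f := fun q => dist o q) (fun _ _ => dist_nonneg) hq
  rw [dist_smul, dist_comm (ρ g • q) p] at h1
  exact ⟨g, by linarith⟩

theorem exists_systole : ∃ ε > 0, ∀ g : Γ, Hyp (ρ g) → ε ≤ tl (ρ g) := by
  obtain ⟨R, hR⟩ := hρ.exists_thick_bound marg_pos
  have h1 : ∀ᶠ ε in 𝓝[>] (0 : ℝ), ∀ γ ∈ {γ : Γ | dist o (ρ γ • o) ≤ 2 * R + marg},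
      Hyp (ρ γ) → ε ≤ tl (ρ γ) := by
    refine (eventually_all_finite (hρ.proper o _)).2 fun γ _ => ?_
    by_cases h : Hyp (ρ γ)
    · exact mem_of_superset (mem_nhdsWithin_of_mem_nhds (Iic_mem_nhds h)) fun _ h' _ => h'
    · exact Eventually.of_forall fun _ h' => absurd h' h
  have h2 : ∀ᶠ ε in 𝓝[>] (0 : ℝ), ε ≤ marg := mem_nhdsWithin_of_mem_nhds (Iic_mem_nhds marg_pos)
  obtain ⟨ε, ⟨h3, h4⟩, h5⟩ := ((h1.and h2).and self_mem_nhdsWithin).exists
  refine ⟨ε, h5, fun g hg => ?_⟩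
  obtain ⟨k, n, hn, rfl, hp, hk⟩ := hρ.toDisc.exists_root hg
  have h6 : ε ≤ tl (ρ k) := by
    rcases le_total (tl (ρ k)) marg with h | h
    · obtain ⟨p, h7, h8⟩ := gThick_hyp hρ.toDisc hk hp h
      obtain ⟨a, ha⟩ := hR p h8
      have h9 := tl_conj' (ρ := ρ) k a⁻¹
      rw [inv_inv] at h9
      rw [← h9]
      exact h3 _ (gThick_move ha h7) (by rwa [Hyp, h9])
    · exact h4.trans h
  rw [map_pow, (hk.pow hn).2.2]
  exact h6.trans (le_mul_of_one_le_left (tl_nonneg _) (Nat.one_le_cast.2 (Nat.pos_of_ne_zero hn)))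

theorem finite_cusps : ∃ s : Finset Circ, ∀ ξ, IsCusp ρ ξ → ∃ ζ ∈ s, ∃ g : Γ, ξ = ρ g • ζ := by
  classical
  obtain ⟨R, hR⟩ := hρ.exists_thick_bound marg_pos
  refine ⟨(hρ.proper o (2 * R + marg)).toFinset.image fun γ => pfix (ρ γ), fun ξ hξ => ?_⟩
  obtain ⟨u, hu, rfl, hs⟩ := hρ.toDisc.exists_cusp_gen hξ
  obtain ⟨p, h1, h2⟩ := gThick_par hρ.toDisc hu fun h => (hs h).1
  obtain ⟨a, ha⟩ := hR p h2
  refine ⟨_, Finset.mem_image_of_mem _ ((Set.Finite.mem_toFinset _).2 (gThick_move ha h1)), a, ?_⟩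
  have := (hu.conj (ρ a)⁻¹).2
  rw [inv_inv] at this
  rw [map_mul, map_mul, map_inv, this, smul_inv_smul]

theorem thin_structure : ∃ η > 0, ∃ c : Pt → Circ,
    (∀ p, ¬ Thick ρ η p → ∃ u : Γ, Par (ρ u) ∧ pfix (ρ u) = c p ∧ dist p (ρ u • p) < η) ∧
    (∀ p (u : Γ), Par (ρ u) → dist p (ρ u • p) < η → pfix (ρ u) = c p) ∧
    ∀ p q, ¬ Thick ρ η p → ¬ Thick ρ η q → dist p q ≤ 1 → c p = c q := by
  obtain ⟨ε, hε, hsys⟩ := hρ.exists_systole
  have h0 : exp 1 ^ 2 * (cosh 0 - 1) < cosh marg - 1 := by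
    rw [cosh_zero, sub_self, mul_zero]
    exact sub_pos.2 (one_lt_cosh.2 marg_pos.ne')
  have h1 : ∀ᶠ η in 𝓝[>] (0 : ℝ), exp 1 ^ 2 * (cosh η - 1) < cosh marg - 1 :=
    mem_nhdsWithin_of_mem_nhds (ContinuousAt.eventually_lt
      (f := fun η => exp 1 ^ 2 * (cosh η - 1)) (by fun_prop) continuousAt_const h0)
  have h2 : ∀ᶠ η in 𝓝[>] (0 : ℝ), η ≤ marg := mem_nhdsWithin_of_mem_nhds (Iic_mem_nhds marg_pos)
  have h3 : ∀ᶠ η in 𝓝[>] (0 : ℝ), η ≤ ε := mem_nhdsWithin_of_mem_nhds (Iic_mem_nhds hε)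
  obtain ⟨η, ⟨⟨h4, h5⟩, h6⟩, hη⟩ := (((h1.and h2).and h3).and self_mem_nhdsWithin).exists
  have hη : 0 < η := hη
  have same : ∀ {p : Pt} {u v : Γ}, Par (ρ u) → Par (ρ v) → dist p (ρ u • p) ≤ marg →
      dist p (ρ v • p) ≤ marg → pfix (ρ v) = pfix (ρ u) := fun hu hv h h' =>
    (hu.of_commute hv.1 ((hρ.toDisc.commute_of_small h h').map ρ)).2
  have hc : ∀ p : Pt, ∃ ξ : Circ, ∀ u : Γ, Par (ρ u) → dist p (ρ u • p) < η → pfix (ρ u) = ξ := by
    intro p
    by_cases h : ∃ u : Γ, Par (ρ u) ∧ dist p (ρ u • p) < η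
    · obtain ⟨u, hu, hd⟩ := h
      exact ⟨_, fun v hv hd' => same hu hv (hd.le.trans h5) (hd'.le.trans h5)⟩
    · exact ⟨pfix 1, fun u hu hd => absurd ⟨u, hu, hd⟩ h⟩
  choose c hc using hc
  have hthin : ∀ p, ¬ Thick ρ η p →
      ∃ u : Γ, Par (ρ u) ∧ pfix (ρ u) = c p ∧ dist p (ρ u • p) < η := by
    intro p hp
    unfold Thick at hp
    push Not at hp
    obtain ⟨u, hu, hd⟩ := hp
    have hu' : Par (ρ u) := (hρ.toDisc.hyp_or_par hu).resolve_left fun h => by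
      linarith [hsys u h, tl_le (ρ u) p]
    exact ⟨u, hu', hc p u hu' hd, hd⟩
  refine ⟨η, hη, c, hthin, hc, fun p q hp hq hpq => ?_⟩
  obtain ⟨u, hu, e1, d1⟩ := hthin p hp
  obtain ⟨v, hv, e2, d2⟩ := hthin q hq
  rw [← e1, ← e2]
  refine same hv hu (d2.le.trans h5) (gThick_le_of_cosh marg_pos.le ?_)
  have h7 : cosh (dist p (ρ u • p)) ≤ cosh η := by
    rw [cosh_le_cosh, abs_of_pos hη, abs_of_nonneg dist_nonneg]
    exact d1.le
  have h8 := mul_le_mul_of_nonneg_left (sub_le_sub_right h7 1) (sq_nonneg (exp 1))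
  linarith only [h4, h8, hu, hpq, gThick_near hu hpq]

end Good

end HRT
end

-- merged part: Pool.Agent.Work.MP_35beee_gt.GDense
section
/-!
Density of fixed points and of orbits on the circle.
See the header of `GThick` for the plan.
-/

namespace HRT

open Set Filter Topology Real

variable {Γ : Type*} [Group Γ] {ρ : Γ →* Isom} {N : ℝ → ℝ}

theorem GDense_one_add (m : Geo) (p : Pt) :
    (1 + side m p.1 ^ 2) * -B m.src.1 m.tgt.1 = 2 * (B p.1 m.src.1 * B p.1 m.tgt.1) := by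
  have h0 := m.B_neg.ne
  have h1 := congrArg (B p.1) (expand m p.1)
  rw [p.2.1, B_add_right, B_add_right, B_smul_right, B_smul_right, B_smul_right,
    B_comm p.1 (nrm m)] at h1
  change _ = _ + side m p.1 * side m p.1 at h1
  field_simp at h1
  linear_combination h1

theorem GDense_disp {g : Isom} (hg : NoFix g) : ∃ (ξ η : Circ) (κ : ℝ), 0 ≤ κ ∧ g • ξ = ξ ∧
    g • η = η ∧ ∀ p : Pt, cosh (dist p (g • p)) = 1 + κ * (B p.1 ξ.1 * B p.1 η.1) := by
  rcases hg.hyp_or_par with h | h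
  · have h0 := neg_pos.2 (ax g).B_neg
    refine ⟨(ax g).src, (ax g).tgt, 4 * sinh (tl g / 2) ^ 2 / -B (ax g).src.1 (ax g).tgt.1,
      by positivity, (h.fix_iff _).2 (Or.inl rfl), (h.fix_iff _).2 (Or.inr rfl), fun p => ?_⟩
    have h1 : cosh (dist p (g • p)) = 1 + 2 * sinh (dist p (g • p) / 2) ^ 2 := by
      conv_lhs => rw [show dist p (g • p) = 2 * (dist p (g • p) / 2) by ring]
      rw [cosh_two_mul, cosh_sq']
      ring
    rw [h1, h.sinh_dist, mul_pow, sq_sqrt (by positivity), div_mul_eq_mul_div, add_right_inj,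
      eq_div_iff h0.ne']
    linear_combination 2 * sinh (tl g / 2) ^ 2 * GDense_one_add (ax g) p
  · obtain ⟨κ, h0, h1⟩ := h.exists_kappa
    refine ⟨pfix g, pfix g, κ, h0.le, (h.fix_iff _).2 rfl, (h.fix_iff _).2 rfl, fun p => ?_⟩
    simpa [sq] using h1 p 1

theorem GDense_far (l : Geo) {T : ℝ} (hT : 0 ≤ T) {ξ : Circ} (h : side l ξ.1 ≤ 0) :
    cosh T * -B (pt l 0).1 ξ.1 ≤ -B (fermi l 0 T).1 ξ.1 := by
  have h1 : B (fermi l 0 T).1 ξ.1 = cosh T * B (pt l 0).1 ξ.1 + sinh T * side l ξ.1 := by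
    change B (cosh T • (pt l 0).1 + sinh T • nrm l) ξ.1 = _
    rw [B_add_left, B_smul_left, B_smul_left]
    rfl
  have h2 := mul_nonneg (sinh_nonneg_iff.2 hT) (neg_nonneg.2 h)
  rw [h1]
  linarith

theorem GDense_left {a b c : Circ} (h : c ∈ arc a b) : arc a c ⊆ arc a b :=
  fun _ hx => ccw.trans hx h

theorem GDense_right {a b c : Circ} (h : c ∈ arc a b) : arc c b ⊆ arc a b :=
  fun _ hx => (ccw.trans (ccw.cyc (ccw.cyc h)) (ccw.cyc (ccw.cyc hx))).cyc

theorem GDense_disj {a b c x : Circ} (h : c ∈ arc a b) (h1 : x ∈ arc a c) (h2 : x ∈ arc c b) :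
    False :=
  ccw.asymm h1 (ccw.trans' (ccw.cyc (ccw.cyc h)) (ccw.cyc (ccw.cyc h2)))

theorem GDense_same (hρ : Disc ρ) {g h : Γ} (hg : Hyp (ρ g)) (hh : Hyp (ρ h))
    (hs : (ax (ρ g)).src = (ax (ρ h)).src) : (ax (ρ g)).tgt = (ax (ρ h)).tgt := by
  rcases hρ.ax_eq_of_share hg hh (Or.inl (by rw [← hs, side_src])) with h1 | h1
  · rw [h1]
  · rw [h1, Geo.src_rev] at hs
    exact absurd hs (Geo.ne _)

namespace Good

variable (hρ : Good ρ N)
include hρ

theorem GDense_move : ∃ R : ℝ, ∀ p : Pt, ∃ g : Γ, g ≠ 1 ∧ dist p (ρ g • p) ≤ R := by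
  classical
  obtain ⟨n, hn⟩ := exists_nat_gt (N 1)
  refine ⟨2 * n + 1, fun p => ?_⟩
  obtain ⟨m, s, rfl, -⟩ := exists_line_pt_circ p (toCirc 0)
  have hinj : Function.Injective fun i : ℕ => pt m (s + i) := fun i j h => by
    have h1 := dist_pt m (s + i) (s + j)
    rw [show pt m (s + i) = pt m (s + j) from h, dist_self, eq_comm, abs_eq_zero] at h1
    exact_mod_cast (by linarith only [h1] : (i : ℝ) = j)
  have h1 : ¬ Sep ρ 1 ((Finset.range n).image fun i : ℕ => pt m (s + i)) := fun h => by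
    have h2 := hρ.pack 1 one_pos _ h
    rw [Finset.card_image_of_injective _ hinj, Finset.card_range] at h2
    linarith
  unfold Sep at h1
  push Not at h1
  obtain ⟨p', hp', q', hq', g, h2, h3⟩ := h1
  obtain ⟨i, hi, rfl⟩ := Finset.mem_image.1 hp'
  obtain ⟨j, hj, rfl⟩ := Finset.mem_image.1 hq'
  have h4 : ∀ k ∈ Finset.range n, dist (pt m s) (pt m (s + k)) ≤ n := fun k hk => by
    rw [dist_pt, sub_add_cancel_left, abs_neg, Nat.abs_cast]
    exact_mod_cast (Finset.mem_range.1 hk).le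
  refine ⟨g, ?_, ?_⟩
  · rintro rfl
    rw [map_one, one_smul, dist_pt, add_sub_add_left_eq_sub, ← Int.cast_natCast i,
      ← Int.cast_natCast j, ← Int.cast_sub, ← Int.cast_abs, ← Int.cast_one, Int.cast_lt,
      Int.abs_lt_one_iff] at h3
    exact h2.elim (fun h => h (by rw [show i = j by omega])) fun h => h rfl
  · have h5 := dist_triangle4 (pt m s) (pt m (s + i)) (ρ g • pt m (s + j)) (ρ g • pt m s)
    rw [dist_smul, dist_comm (pt m (s + j))] at h5
    linarith [h4 i hi, h4 j hj]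

theorem exists_fix_mem_arc {a b : Circ} (hab : a ≠ b) :
    ∃ g : Γ, g ≠ 1 ∧ ∃ ξ ∈ arc a b, ρ g • ξ = ξ := by
  by_contra hc
  obtain ⟨l, hl⟩ : ∃ l, l = (Geo.mk' a b hab).rev := ⟨_, rfl⟩
  have h1 : ∀ g : Γ, g ≠ 1 → ∀ ξ : Circ, ρ g • ξ = ξ → side l ξ.1 ≤ 0 := fun g hg ξ hξ => by
    rw [hl, side_rev, neg_nonpos]
    refine not_lt.1 fun h => hc ⟨g, hg, ξ, ?_, hξ⟩
    rw [side_neg_iff, Geo.src_mk', Geo.tgt_mk'] at h
    exact h
  obtain ⟨R, hR⟩ := hρ.GDense_move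
  obtain ⟨η, h0, hη⟩ := hρ.toDisc.exists_inj (pt l 0) 0
  have h2 : 0 < cosh η - 1 := sub_pos.2 (one_lt_cosh.2 h0.ne')
  obtain ⟨K, hK⟩ : ∃ K, K = cosh R / (cosh η - 1) := ⟨_, rfl⟩
  have hK0 : 0 < K := hK ▸ div_pos (cosh_pos R) h2
  have h3 : K < cosh (2 * K) := by
    rw [cosh_eq]
    linarith only [add_one_le_exp (2 * K), exp_pos (-(2 * K))]
  obtain ⟨g, hg, h4⟩ := hR (fermi l 0 (2 * K))
  obtain ⟨ξ, ζ, κ, hκ, f1, f2, h5⟩ := GDense_disp (hρ.toDisc.noFix hg)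
  have h6 := GDense_far l (T := 2 * K) (by positivity) (h1 g hg ξ f1)
  have h7 := GDense_far l (T := 2 * K) (by positivity) (h1 g hg ζ f2)
  have h8 := neg_pos.2 (B_pt_circ_neg (pt l 0) ξ)
  have h9 := neg_pos.2 (B_pt_circ_neg (pt l 0) ζ)
  have e1 := mul_le_mul h6 h7 (by positivity) (le_trans (by positivity) h6)
  have e2 : cosh η ≤ cosh (dist (pt l 0) (ρ g • pt l 0)) :=
    cosh_le_cosh.2 (by
      rw [abs_of_pos h0, abs_of_nonneg dist_nonneg]; exact hη _ (dist_self _).le g hg)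
  have e3 : cosh (dist (fermi l 0 (2 * K)) (ρ g • fermi l 0 (2 * K))) ≤ cosh R :=
    cosh_le_cosh.2 (by rw [abs_of_nonneg dist_nonneg]; exact h4.trans (le_abs_self R))
  rw [h5] at e2 e3
  have e4 : cosh R = K * (cosh η - 1) := by rw [hK]; field_simp
  have e5 := mul_le_mul_of_nonneg_left e1 hκ
  have e6 : K * (cosh η - 1) < cosh (2 * K) * cosh (2 * K) * (cosh η - 1) :=
    mul_lt_mul_of_pos_right (h3.trans_le (le_mul_of_one_le_right (cosh_pos _).le (one_le_cosh _)))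
      h2
  have e7 := mul_le_mul_of_nonneg_left (sub_le_iff_le_add'.2 e2)
    (mul_self_nonneg (cosh (2 * K)))
  linarith only [e3, e4, e5, e6, e7]

theorem GDense_step {a b : Circ} (hab : a ≠ b) (l : Geo) :
    (∃ g : Γ, (ρ g • l).src ∈ arc a b ∧ (ρ g • l).tgt ∈ arc a b) ∨
      ∃ k : Γ, Hyp (ρ k) ∧ (ax (ρ k)).tgt ∈ arc a b ∧
        ((ax (ρ k)).src = l.src ∨ (ax (ρ k)).src = l.tgt) := by
  have key : ∀ (k : Γ) (ζ : Circ), ζ ∈ arc a b →
      Tendsto (fun n : ℕ => ρ k ^ n • l.src) atTop (𝓝 ζ) →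
      Tendsto (fun n : ℕ => ρ k ^ n • l.tgt) atTop (𝓝 ζ) →
      ∃ g : Γ, (ρ g • l).src ∈ arc a b ∧ (ρ g • l).tgt ∈ arc a b := fun k ζ hζ h1 h2 => by
    obtain ⟨n, h3, h4⟩ := ((h1.eventually ((isOpen_arc a b).mem_nhds hζ)).and
      (h2.eventually ((isOpen_arc a b).mem_nhds hζ))).exists
    exact ⟨k ^ n, by rw [map_pow]; exact h3, by rw [map_pow]; exact h4⟩
  have key2 : ∀ k : Γ, Hyp (ρ k) → (ax (ρ k)).tgt ∈ arc a b →
      (∃ g : Γ, (ρ g • l).src ∈ arc a b ∧ (ρ g • l).tgt ∈ arc a b) ∨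
      ∃ k : Γ, Hyp (ρ k) ∧ (ax (ρ k)).tgt ∈ arc a b ∧
        ((ax (ρ k)).src = l.src ∨ (ax (ρ k)).src = l.tgt) := fun k hk hζ => by
    by_cases h : (ax (ρ k)).src = l.src ∨ (ax (ρ k)).src = l.tgt
    · exact Or.inr ⟨k, hk, hζ, h⟩
    · exact Or.inl (key k _ hζ (hk.tendsto_pow fun h' => h (Or.inl h'.symm))
        (hk.tendsto_pow fun h' => h (Or.inr h'.symm)))
  obtain ⟨g, hg, ζ, hζ, hf⟩ := hρ.exists_fix_mem_arc hab
  rcases hρ.toDisc.hyp_or_par hg with h | h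
  · rcases (h.fix_iff ζ).1 hf with rfl | rfl
    · exact key2 g⁻¹ (by rw [map_inv]; exact h.inv) (by rw [map_inv, h.ax_inv]; exact hζ)
    · exact key2 g h hζ
  · obtain rfl := (h.fix_iff ζ).1 hf
    exact Or.inl (key g _ hζ (h.tendsto_pow _) (h.tendsto_pow _))

theorem GDense_line {a b : Circ} (hab : a ≠ b) (l : Geo) :
    ∃ g : Γ, (ρ g • l).src ∈ arc a b ∧ (ρ g • l).tgt ∈ arc a b := by
  obtain ⟨c, hc⟩ := arc_nonempty hab
  obtain ⟨d, hd⟩ := arc_nonempty (ccw.ne23 hc)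
  rcases hρ.GDense_step (ccw.ne12 hc) l with ⟨g, h1, h2⟩ | ⟨k1, a1, b1, c1⟩
  · exact ⟨g, GDense_left hc h1, GDense_left hc h2⟩
  rcases hρ.GDense_step (ccw.ne12 hd) l with ⟨g, h1, h2⟩ | ⟨k2, a2, b2, c2⟩
  · exact ⟨g, GDense_right hc (GDense_left hd h1), GDense_right hc (GDense_left hd h2)⟩
  rcases hρ.GDense_step (ccw.ne23 hd) l with ⟨g, h1, h2⟩ | ⟨k3, a3, b3, c3⟩
  · exact ⟨g, GDense_right hc (GDense_right hd h1), GDense_right hc (GDense_right hd h2)⟩
  exfalso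
  have n12 : (ax (ρ k1)).src ≠ (ax (ρ k2)).src := fun h =>
    GDense_disj hc b1 (GDense_same hρ.toDisc a1 a2 h ▸ GDense_left hd b2)
  have n13 : (ax (ρ k1)).src ≠ (ax (ρ k3)).src := fun h =>
    GDense_disj hc b1 (GDense_same hρ.toDisc a1 a3 h ▸ GDense_right hd b3)
  have n23 : (ax (ρ k2)).src ≠ (ax (ρ k3)).src := fun h =>
    GDense_disj hd b2 (GDense_same hρ.toDisc a2 a3 h ▸ b3)
  rcases c1 with c1 | c1 <;> rcases c2 with c2 | c2 <;> rcases c3 with c3 | c3 <;>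
    first
    | exact n12 (c1.trans c2.symm)
    | exact n13 (c1.trans c3.symm)
    | exact n23 (c2.trans c3.symm)

theorem exists_smul_mem_arc {a b : Circ} (hab : a ≠ b) (ξ : Circ) :
    ∃ g : Γ, ρ g • ξ ∈ arc a b := by
  obtain ⟨l, -, -, rfl⟩ := exists_line_pt_circ o ξ
  obtain ⟨g, -, h⟩ := hρ.GDense_line hab l
  exact ⟨g, h⟩

theorem exists_smul_line_mem_arc {a b : Circ} (hab : a ≠ b) (l : Geo) :
    ∃ g : Γ, (ρ g • l).src ∈ arc a b ∧ (ρ g • l).tgt ∈ arc a b :=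
  hρ.GDense_line hab l

theorem dense_orbit (ξ : Circ) : Dense (range fun g : Γ => ρ g • ξ) := by
  intro x
  rw [mem_closure_iff_nhds]
  intro U hU
  obtain ⟨a, b, h1, h2⟩ := exists_arc_subset hU
  obtain ⟨g, hg⟩ := hρ.exists_smul_mem_arc h1.ne13 ξ
  exact ⟨_, h2 ((mem_carc h1.ne13).2 (Or.inr (Or.inr hg))), g, rfl⟩

end Good

end HRT
end

-- merged part: Pool.Agent.Work.MP_35beee_gt.GCore
section
/-!
The compact core, recurrence, finiteness of the length spectrum.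
See the header of `GThick` for the plan.
-/

namespace HRT

open Set Filter Topology Real

variable {Γ : Type*} [Group Γ] {ρ : Γ →* Isom} {N : ℝ → ℝ}

namespace Good

variable (hρ : Good ρ N)
include hρ

theorem exists_core : ∃ R, ∀ l : Geo, SimpleLine ρ l → ¬ IsCusp ρ l.src → ¬ IsCusp ρ l.tgt →
    InCore ρ R l := by
  obtain ⟨η, hη, h1⟩ := exists_cusp_const
  obtain ⟨ε, hε, h2⟩ := hρ.exists_systole
  obtain ⟨R, hR⟩ := hρ.exists_thick_bound (lt_min hη hε)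
  refine ⟨R, fun l hl hs ht t => hR _ fun g hg => ?_⟩
  by_contra hlt
  rw [not_le] at hlt
  rcases hρ.toDisc.hyp_or_par hg with hh | hp
  · exact absurd ((h2 g hh).trans (tl_le _ _)) (hlt.trans_le (min_le_right _ _)).not_ge
  · refine hl g (h1 _ l t hp (fun h0 => ?_) (hlt.trans_le (min_le_left _ _)))
    rcases (side_eq_zero_iff l _).1 h0 with h | h
    · exact hs ⟨g, hp, h⟩
    · exact ht ⟨g, hp, h⟩

theorem exists_core_simple : ∃ R, ∀ γ : Γ, Simple ρ γ → InCore ρ R (ax (ρ γ)) := by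
  obtain ⟨R, hR⟩ := hρ.exists_core
  exact ⟨R, fun γ hγ => hR _ hγ.line
    (fun h => hρ.toDisc.side_ne_zero_of_cusp hγ.hyp h (side_src _))
    (fun h => hρ.toDisc.side_ne_zero_of_cusp hγ.hyp h (side_tgt _))⟩

theorem exists_return : ∃ R, ∀ l : Geo, ¬ IsCusp ρ l.tgt → ∀ T : ℝ, ∃ t ≥ T, ∃ g : Γ,
    dist (ρ g • o) (pt l t) ≤ R := by
  obtain ⟨η, hη, c, h1, -, h3⟩ := hρ.thin_structure
  obtain ⟨R, hR⟩ := hρ.exists_thick_bound hη
  refine ⟨R, fun l hl T => ?_⟩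
  by_contra hno
  have hthin : ∀ t ≥ T, ¬ Thick ρ η (pt l t) := fun t ht h => hno ⟨t, ht, hR _ h⟩
  have hc : ∀ (n : ℕ) (t : ℝ), T ≤ t → t ≤ T + n → c (pt l t) = c (pt l T) := by
    intro n
    induction n with
    | zero =>
      intro t h h'
      rw [le_antisymm (by simpa using h') h]
    | succ n ih =>
      intro t h h'
      push_cast at h'
      have hn : (0 : ℝ) ≤ n := Nat.cast_nonneg n
      rw [← ih (max T (t - 1)) (le_max_left _ _) (max_le (by linarith) (by linarith))]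
      refine h3 _ _ (hthin t h) (hthin _ (le_max_left _ _)) ?_
      rw [dist_pt, abs_of_nonneg (sub_nonneg.2 (max_le h (by linarith)))]
      linarith [le_max_right T (t - 1)]
  obtain ⟨u, hu, hu', -⟩ := h1 _ (hthin T le_rfl)
  have hcusp : IsCusp ρ (c (pt l T)) := ⟨u, hu, hu'⟩
  obtain ⟨v, hv, hv', hgen⟩ := hρ.toDisc.exists_cusp_gen hcusp
  obtain ⟨κ, hκ, hk⟩ := hv.exists_kappa
  have hne : c (pt l T) ≠ l.tgt := fun h => hl (h ▸ hcusp)
  have hlim := (toB_fermi_atTop l 0).tendsto_neg_B hne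
  simp only [fermi_zero] at hlim
  obtain ⟨t, ht1, ht2⟩ := ((hlim.eventually_ge_atTop (max 1 (cosh η / κ))).and
    (eventually_ge_atTop T)).exists
  obtain ⟨w, hw, hw', hd⟩ := h1 _ (hthin t ht2)
  obtain ⟨n, hn⟩ := exists_nat_ge (t - T)
  rw [hc n t ht2 (by linarith)] at hw'
  obtain ⟨m, rfl⟩ := Subgroup.mem_zpowers_iff.1 ((hgen w).1 ((hw.fix_iff _).2 hw'.symm))
  have hm : m ≠ 0 := by
    rintro rfl
    exact hw.1 o (by simp)
  have hm1 : (1 : ℝ) ≤ (m : ℝ) ^ 2 := by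
    have : 1 ≤ m ^ 2 := (one_le_sq_iff_one_le_abs m).2 (Int.one_le_abs hm)
    exact_mod_cast this
  have e1 := hk (pt l t) m
  rw [← map_zpow, hv'] at e1
  have e2 : cosh (dist (pt l t) (ρ (v ^ m) • pt l t)) < cosh η := by
    rw [cosh_lt_cosh, abs_of_nonneg dist_nonneg, abs_of_pos hη]
    exact hd
  have e3 := (le_max_left _ _).trans ht1
  have e4 := (div_le_iff₀ hκ).1 ((le_max_right _ _).trans ht1)
  generalize B (pt l t).1 (c (pt l T)).1 = x at e1 e3 e4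
  have e5 : -x ≤ x ^ 2 := by linarith only [e3, mul_nonneg_of_nonpos_of_nonpos (Mathlib.Tactic.Linarith.sub_nonpos_of_le e3) (Mathlib.Tactic.Linarith.sub_nonpos_of_le e3)]
  have e6 : -x * κ ≤ x ^ 2 * κ := mul_le_mul_of_nonneg_right e5 hκ.le
  have e7 : 1 * (x ^ 2 * κ) ≤ (m : ℝ) ^ 2 * (x ^ 2 * κ) :=
    mul_le_mul_of_nonneg_right hm1 (by positivity)
  linarith only [e2, e1, e4, e6, e7]

theorem finite_spectrum (L : ℝ) : ∃ s : Finset Γ, ∀ g : Γ, Hyp (ρ g) → tl (ρ g) ≤ L →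
    ∃ f ∈ s, IsConj f g := by
  obtain ⟨R, hR⟩ := hρ.exists_return
  refine ⟨(hρ.proper o (R + L + R)).toFinset, fun g hg hL => ?_⟩
  obtain ⟨t, -, k, hk⟩ := hR (ax (ρ g))
    (fun h => hρ.toDisc.side_ne_zero_of_cusp hg h (side_tgt _)) 0
  refine ⟨k⁻¹ * g * k, ?_, isConj_iff.2 ⟨k, by group⟩⟩
  rw [Finite.mem_toFinset, mem_ofPred_eq, ← dist_smul (ρ k), ← mul_smul, ← map_mul,
    show k * (k⁻¹ * g * k) = g * k by group, map_mul, mul_smul]
  have h1 := dist_triangle4 (ρ k • o) (pt (ax (ρ g)) t) (ρ g • pt (ax (ρ g)) t) (ρ g • ρ k • o)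
  rw [hg.dist_ax, dist_smul, dist_comm (pt _ t)] at h1
  linarith

end Good

end HRT
end

-- merged part: Pool.Agent.Work.MP_35beee_gt.MLimA
section
/-!
An equivariant map of the circle that preserves the cyclic order is onto, if parabolic elements go
to elements of translation length zero.

Plan. `exists_mem_fib`: for `η` not in the range, `x < y :↔ ccw (f x) (f y) η` is a strict linear
order. If `η` is in no fibre, each `ξ` lies in an arc `(a, b)` all of whose points are `< b`; by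
compactness there are finitely many such `b`, and the largest one is `<` another one.
`lim_side`: for each `c` with `ccw ζ c p` eventually `ccw ζ (w' j) c`; so `det3 (f ζ) (f c) y' ≤ 0`,
put `c = w i` and pass to the limit; symmetric; `ccw_total`. `not_tendsto`: the infinitely many
`x ≠ ξ` with `A • f x ≠ f ζ` fall into two classes (`ρ (g j) • x` on the right or on the left of
`ζ` along the ultrafilter), and `lim_side` says `A • f x` is constant on each class.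
`fib_cusp`: `P = σ u` fixes `z = f ξ`, is not `1` and has `tl = 0`, so it is parabolic
(`noFix_of_fix_circ`); up to inversion `ccw z η (P • η)` for all `η ≠ z` (`Par.ccw_or`). Let
`η ≠ z` be in the fibre, `x ≠ ξ`, `y = f x`. In the chart `exists_param z` the points `P ^ n • η`
are increasing and tend to `±∞` (`Par.tendsto_pow`), so some `P ^ n • η` is in `carc y (P • y)`;
it is in the fibre as well; take `b ∈ arc ξ x`, `a ∈ arc (ρ u • x) ξ`.
`fib_not_cusp`: let `l.tgt = ξ`, `g j` with `ρ (g j) • o` within `R` of `pt l (t j)`, `t j ≥ j`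
(`exists_return`), `V = hyperfilter ℕ`. The lines `(ρ (g j))⁻¹ • l` stay in a compact set
(`isCompact_lines`), with limit from `ζ'` to `ζ`, `ζ' ≠ ζ`; `(ρ (g j))⁻¹ • x → ζ'` for all `x ≠ ξ`
(`exists_toB`, `tendsto_smul_circ`, `toB_fermi_atTop`, `ToB.of_dist_le`). If `σ (g j)` is bounded
along `V` use `isCompact_isom_ball` and `not_tendsto`. Otherwise all points but one tend to one
point `z` under `(σ (g j))⁻¹`; one of `η`, `f ξ` shows `z ∈ fib f ζ`, and some `f x` shows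
`z ∈ fib f ζ'` (`mem_fib_of_tendsto`).
-/

namespace HRT

open Set Filter Topology Real

/-- The points between the left and the right limit of `f` at `ξ`. -/
def fib (f : Circ → Circ) (ξ : Circ) : Set Circ :=
  {η | ∀ a b, ccw a ξ b → η ∈ carc (f a) (f b)}

variable {f : Circ → Circ}

theorem MLimA_lim {X : Type*} {F : Filter X} [F.NeBot] {a b c : X → Circ} {a' b' c' : Circ}
    (ha : Tendsto a F (𝓝 a')) (hb : Tendsto b F (𝓝 b')) (hc : Tendsto c F (𝓝 c'))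
    (h : ∀ᶠ x in F, ¬ ccw (a x) (b x) (c x)) : ¬ ccw a' b' c' := fun h1 =>
  let ⟨_, h2, h3⟩ := (h.and (eventually_ccw ha hb hc h1)).exists
  h2 h3

section

variable (hf : ∀ a b c, ccw a b c → ccw (f a) (f b) (f c))
include hf

theorem self_mem_fib (ξ : Circ) : f ξ ∈ fib f ξ := by
  exact fun a b h => (hf _ _ _ h).asymm

theorem exists_mem_fib (η : Circ) : ∃ ξ, η ∈ fib f ξ := by
  by_contra hn
  simp only [fib, carc, not_exists, mem_ofPred_eq, not_forall, not_not] at hn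
  choose a b h1 h2 using hn
  obtain ⟨t, ht⟩ := isCompact_univ.elim_finite_subcover (fun ξ => arc (a ξ) (b ξ))
    (fun ξ => isOpen_arc _ _) fun ξ _ => mem_iUnion.2 ⟨ξ, h1 ξ⟩
  obtain ⟨x, hx, -⟩ := mem_iUnion₂.1 (ht (mem_univ η))
  obtain ⟨y, -, hy⟩ := t.exists_max_image (fun ξ => GCircPsi η (f (b ξ))) ⟨x, hx⟩
  obtain ⟨z, hz, h3⟩ := mem_iUnion₂.1 (ht (mem_univ (b y)))
  exact (hy z hz).not_gt (GCirc_lt ((hf _ _ _ h3).trans' (h2 z)).cyc.cyc)

theorem eq_of_mem_fib {ξ ζ η : Circ} (h1 : η ∈ fib f ξ) (h2 : η ∈ fib f ζ) : ξ = ζ := by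
  by_contra hne
  obtain ⟨b, hb⟩ := arc_nonempty hne
  obtain ⟨c, hc⟩ := arc_nonempty (ccw.ne23 hb)
  obtain ⟨d, hd⟩ := arc_nonempty (Ne.symm hne)
  obtain ⟨a, ha⟩ := arc_nonempty (ccw.ne23 hd)
  change ccw _ _ _ at ha hb hc hd
  have o1 : ccw ξ b d := hb.trans hd.cyc.cyc
  have o2 : ccw ξ b a := o1.trans ha.cyc.cyc
  have o3 : ccw ζ d b := hd.trans hb.cyc.cyc
  have o4 : ccw ζ d c := o3.trans hc.cyc.cyc
  have o5 : ccw d a b := ha.trans o1.cyc.cyc
  have o6 : ccw d b c := o3.trans' hc.cyc.cyc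
  refine h2 c d o4.cyc.cyc ?_
  rcases (mem_carc (hf _ _ _ o5).ne23).1 (h1 a b o2.cyc.cyc) with rfl | rfl | h
  · exact hf _ _ _ (o5.trans o6).cyc.cyc
  · exact hf _ _ _ o6.cyc.cyc
  · exact (garc_nest (hf _ _ _ o5) (hf _ _ _ o6) h).cyc.cyc

theorem lim_side {X Y : Type*} {F : Filter X} {G : Filter Y} [F.NeBot] [G.NeBot] {w : X → Circ}
    {w' : Y → Circ} {ζ p y y' : Circ} (h1 : Tendsto w F (𝓝 ζ)) (h2 : Tendsto w' G (𝓝 ζ))
    (h3 : (∀ᶠ i in F, ccw ζ (w i) p) ∧ (∀ᶠ j in G, ccw ζ (w' j) p) ∨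
      (∀ᶠ i in F, ccw p (w i) ζ) ∧ ∀ᶠ j in G, ccw p (w' j) ζ)
    (h4 : Tendsto (fun i => f (w i)) F (𝓝 y)) (h5 : Tendsto (fun j => f (w' j)) G (𝓝 y')) :
    y = y' ∨ y = f ζ ∨ y' = f ζ := by
  have c : ∀ x : Circ, Tendsto (fun _ => x) F (𝓝 x) := fun _ => tendsto_const_nhds
  have c' : ∀ x : Circ, Tendsto (fun _ => x) G (𝓝 x) := fun _ => tendsto_const_nhds
  by_contra hn
  simp only [not_or] at hn
  rcases h3 with ⟨a1, a2⟩ | ⟨a1, a2⟩ <;>
    rcases ccw_total (Ne.symm hn.2.1) hn.1 (Ne.symm hn.2.2) with o | o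
  · exact MLimA_lim (c _) h4 (c _) (a1.mono fun i hi => MLimA_lim (c' _) (c' _) h5
      ((a2.and (eventually_ccw (c' _) (c' _) h2 hi.cyc)).mono fun j hj =>
        (hf _ _ _ (hj.1.cyc.cyc.trans' hj.2.cyc)).asymm)) o
  · exact MLimA_lim (c' _) h5 (c' _) (a2.mono fun i hi => MLimA_lim (c _) (c _) h4
      ((a1.and (eventually_ccw (c _) (c _) h1 hi.cyc)).mono fun j hj =>
        (hf _ _ _ (hj.1.cyc.cyc.trans' hj.2.cyc)).asymm)) o
  · exact MLimA_lim h5 (c' _) (c' _) (a2.mono fun i hi => MLimA_lim (c _) (c _) h4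
      ((a1.and (eventually_ccw (c _) (c _) h1 hi)).mono fun j hj =>
        (hf _ _ _ (hj.2.trans' hj.1)).asymm)) o.cyc.cyc
  · exact MLimA_lim h4 (c _) (c _) (a1.mono fun i hi => MLimA_lim (c' _) (c' _) h5
      ((a2.and (eventually_ccw (c' _) (c' _) h2 hi)).mono fun j hj =>
        (hf _ _ _ (hj.2.trans' hj.1)).asymm)) o.cyc.cyc

end

theorem mem_fib_of_tendsto {X : Type*} {F : Filter X} [F.NeBot] {w y : X → Circ} {ζ z : Circ}
    (h1 : Tendsto w F (𝓝 ζ)) (h2 : Tendsto y F (𝓝 z)) (h3 : ∀ i, y i ∈ fib f (w i))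
    (hf : ∀ a b c, ccw a b c → ccw (f a) (f b) (f c)) : z ∈ fib f ζ := by
  exact fun a b h => MLimA_lim tendsto_const_nhds tendsto_const_nhds h2
    ((eventually_ccw tendsto_const_nhds h1 tendsto_const_nhds h).mono fun i hi => h3 i a b hi)

variable {Γ : Type*} [Group Γ] {ρ σ : Γ →* Isom} {N : ℝ → ℝ}

theorem smul_mem_fib (he : ∀ g ξ, f (ρ g • ξ) = σ g • f ξ) {ξ η : Circ} (h : η ∈ fib f ξ)
    (g : Γ) : σ g • η ∈ fib f (ρ g • ξ) := by
  intro a b h1 h2
  obtain ⟨a, rfl⟩ := MulAction.surjective (ρ g) a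
  obtain ⟨b, rfl⟩ := MulAction.surjective (ρ g) b
  rw [he, he, ccw_smul_iff] at h2
  exact h a b ((ccw_smul_iff _).1 h1) h2

section

variable (hf : ∀ a b c, ccw a b c → ccw (f a) (f b) (f c)) (he : ∀ g ξ, f (ρ g • ξ) = σ g • f ξ)
include hf he

theorem not_tendsto {X : Type*} {V : Ultrafilter X} {g : X → Γ} {ξ ζ : Circ}
    (h : ∀ x, x ≠ ξ → Tendsto (fun j => ρ (g j) • x) V (𝓝 ζ)) (A : Isom) :
    ¬ Tendsto (fun j => σ (g j)) V (𝓝 A) := by
  intro hA
  obtain ⟨φ, h1, -, h2, -⟩ := garc_chart ξ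
  have h3 : ∀ t, Tendsto (fun j => f (ρ (g j) • φ t)) V (𝓝 (A • f (φ t))) := fun t => by
    simpa only [he] using hA.smul_const (f (φ t))
  have hp := GCirc_ne ζ 0
  generalize GCircPhi ζ 0 = p at hp
  have h4 : ∀ t, A • f (φ t) ≠ f ζ → (¬ ∀ᶠ j in V, ccw ζ (ρ (g j) • φ t) p) →
      ∀ᶠ j in V, ccw p (ρ (g j) • φ t) ζ := by
    intro t a1 a2
    have a3 : ¬ ∀ᶠ j in V, ρ (g j) • φ t = ζ := fun a3 => a1 (tendsto_nhds_unique (h3 t)
      (tendsto_const_nhds.congr' (a3.mono fun j hj => by simp only [hj])))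
    filter_upwards [Ultrafilter.eventually_not.2 a2, Ultrafilter.eventually_not.2 a3,
      (h _ (h2 t)).eventually_ne hp.symm] with j b1 b2 b3
    exact ((ccw_total (Ne.symm b2) b3 hp.symm).resolve_left b1).cyc
  have h5 : ∀ s t, A • f (φ s) = A • f (φ t) → s = t := fun s t e =>
    h1.injective (injective_of_ccw hf (MulAction.injective A e))
  refine not_injective_infinite_finite
    (fun t : ℝ => (A • f (φ t) = f ζ, ∀ᶠ j in V, ccw ζ (ρ (g j) • φ t) p)) fun s t e => h5 s t ?_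
  obtain ⟨e1, e2⟩ := Prod.ext_iff.1 e
  dsimp only at e1 e2
  by_cases a1 : A • f (φ s) = f ζ
  · exact a1.trans (e1 ▸ a1).symm
  have a2 : ¬ A • f (φ t) = f ζ := e1 ▸ a1
  refine ((lim_side hf (p := p) (h _ (h2 s)) (h _ (h2 t)) ?_ (h3 s) (h3 t)).resolve_right
    fun a3 => a3.elim a1 a2)
  by_cases a3 : ∀ᶠ j in V, ccw ζ (ρ (g j) • φ s) p
  · exact Or.inl ⟨a3, e2 ▸ a3⟩
  · exact Or.inr ⟨h4 s a1 a3, h4 t a2 (e2 ▸ a3)⟩

theorem MLimA_cusp {u : Γ} {ξ η : Circ} (h1 : Par (σ u)) (h2 : Pos (σ u))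
    (h3 : σ u • f ξ = f ξ) (h : η ∈ fib f ξ) : η = f ξ := by
  by_contra hne
  have e : f ξ = lo (σ u) := h1.lo_eq ▸ (h1.fix_iff _).1 h3
  have h4 : ∀ y, y ≠ f ξ → Ins (σ u) y.1 := fun y hy => (h1.ins_circ h2 y).2 (e ▸ hy)
  have h5 := h4 _ ((injective_of_ccw hf).ne (GCirc_ne ξ 0))
  obtain ⟨n, h6⟩ := h1.1.exists_zpow h5 (h4 η hne)
  have h7 := h1.1.ccw_zpow h5 (PObj_lo h1.1) (lt_add_one n)
  rw [← map_zpow, ← map_zpow, ← he, ← he] at h6 h7
  rw [← e, ccw_iff_of_ccw hf] at h7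
  obtain ⟨b, hb⟩ := arc_nonempty h7.ne13.symm
  have h8 := hf _ _ _ (ccw.trans' hb h7.cyc.cyc).cyc.cyc
  refine h _ b (ccw.trans hb h7.cyc.cyc).cyc.cyc ?_
  rcases h6 with rfl | h6
  · exact h8
  · exact h8.trans h6.cyc.cyc

theorem fib_cusp {u : Γ} (hu : Par (ρ u)) (h0 : tl (σ u) = 0) {η : Circ}
    (h : η ∈ fib f (pfix (ρ u))) : η = f (pfix (ρ u)) := by
  have h1 := (hu.fix_iff _).2 rfl
  have h2 : σ u • f (pfix (ρ u)) = f (pfix (ρ u)) := by rw [← he, h1]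
  have h3 : Par (σ u) := ⟨noFix_of_fix_circ (fun e => GCirc_ne _ 0 ((hu.fix_iff _).1
    (injective_of_ccw hf (by rw [he, e, one_smul])))) h2, h0⟩
  rcases h3.pos_or with h4 | h4
  · exact MLimA_cusp hf he h3 h4 h2 h
  · rw [← map_inv] at h4
    refine MLimA_cusp hf he (by rw [map_inv]; exact h3.inv.1) h4 ?_ h
    rw [map_inv, inv_smul_eq_iff, h2]

theorem fib_not_cusp (hρ : Good ρ N) {ξ η : Circ} (hξ : ¬ IsCusp ρ ξ) (h : η ∈ fib f ξ) :
    η = f ξ := by
  by_contra hne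
  obtain ⟨l, -, -, rfl⟩ := exists_line_pt_circ o ξ
  obtain ⟨R, hR⟩ := hρ.exists_return
  choose t h1 g h2 using fun j : ℕ => hR l hξ j
  have h3 : ToB (hyperfilter ℕ) (fun j => (ρ (g j))⁻¹⁻¹ • o) l.tgt := by
    refine ToB.of_dist_le (p := fun j => fermi l (t j) 0) (C := R) ((toB_fermi_atTop l 0).comp
      ((tendsto_atTop_mono h1 tendsto_natCast_atTop_atTop).mono_left Nat.hyperfilter_le_atTop))
      (Eventually.of_forall fun j => ?_)
    rw [fermi_zero, inv_inv, dist_comm]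
    exact h2 j
  have d : ∀ A : Isom, dist o (A⁻¹ • o) = dist o (A • o) := fun A => by
    rw [← dist_smul A, smul_inv_smul, dist_comm]
  obtain ⟨ζ, h4⟩ := exists_toB (p := fun j => (ρ (g j))⁻¹ • o) (hyperfilter ℕ) o
    ((h3.tendsto_dist o).congr fun j => d _)
  have h5 : ∀ x, x ≠ l.tgt → Tendsto (fun j => ρ (g j)⁻¹ • x) (hyperfilter ℕ) (𝓝 ζ) :=
    fun x hx => by simpa only [map_inv] using tendsto_smul_circ h4 h3 tendsto_const_nhds hx
  obtain ⟨m, -, h6⟩ := (isCompact_lines o (sinh R)).ultrafilter_le_nhds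
    ((hyperfilter ℕ).map fun j => ρ (g j)⁻¹ • l) (le_principal_iff.2 (mem_map.2
      (Eventually.of_forall fun j => by
        have a1 := (abs_arsinh_side_le l _ _).trans (h2 j)
        rw [side_pt, arsinh_zero, sub_zero] at a1
        show |side (ρ (g j)⁻¹ • l) o.1| ≤ _
        rw [← side_smul_pt (ρ (g j)), map_inv, smul_inv_smul, ← sinh_arsinh (side _ _), abs_sinh]
        exact sinh_le_sinh.2 a1)))
  obtain ⟨h7, h8⟩ := Geo.tendsto_iff.1 (show Tendsto (fun j => ρ (g j)⁻¹ • l) _ (𝓝 m) from h6)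
  simp only [Geo.src_smul, Geo.tgt_smul] at h7 h8
  obtain rfl := tendsto_nhds_unique h7 (h5 _ l.ne)
  by_cases hb : ∃ C, ∀ᶠ j in hyperfilter ℕ, dist o (σ (g j)⁻¹ • o) ≤ C
  · obtain ⟨C, hC⟩ := hb
    obtain ⟨A, -, hA⟩ := (isCompact_isom_ball o o C).ultrafilter_le_nhds
      ((hyperfilter ℕ).map fun j => σ (g j)⁻¹) (le_principal_iff.2 (mem_map.2 hC))
    exact not_tendsto hf he h5 A hA
  have h9 : Tendsto (fun j => dist o (σ (g j)⁻¹ • o)) (hyperfilter ℕ) atTop :=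
    tendsto_atTop.2 fun C => (Ultrafilter.eventually_not.2 fun h => hb ⟨C, h⟩).mono
      fun j hj => (not_le.1 hj).le
  obtain ⟨z, a1⟩ := exists_toB _ o h9
  obtain ⟨z', a2⟩ := exists_toB (p := fun j => (σ (g j)⁻¹)⁻¹ • o) _ o
    (h9.congr fun j => (d _).symm)
  have a3 : ∀ x ζ y, Tendsto (fun j => ρ (g j)⁻¹ • x) (hyperfilter ℕ) (𝓝 ζ) → y ∈ fib f x →
      y ≠ z' → z ∈ fib f ζ := fun x ζ y b1 b2 b3 => mem_fib_of_tendsto b1
    (tendsto_smul_circ a1 a2 tendsto_const_nhds b3) (fun j => smul_mem_fib he b2 _) hf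
  refine m.ne (eq_of_mem_fib hf (η := z) ?_ ?_)
  · obtain ⟨x, hx⟩ := arc_nonempty l.ne
    by_cases b1 : f x = z'
    · exact a3 _ _ _ h7 (self_mem_fib hf _) (b1 ▸ (injective_of_ccw hf).ne (ccw.ne12 hx))
    · exact a3 _ _ _ (h5 x (ccw.ne23 hx)) (self_mem_fib hf _) b1
  · by_cases b1 : η = z'
    · exact a3 _ _ _ h8 (self_mem_fib hf _) (b1 ▸ Ne.symm hne)
    · exact a3 _ _ _ h8 h b1

theorem surjective_of_equivariant (hρ : Good ρ N) (h0 : ∀ u, Par (ρ u) → tl (σ u) = 0) :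
    Function.Surjective f := by
  intro η
  obtain ⟨ξ, h⟩ := exists_mem_fib hf η
  refine ⟨ξ, Eq.symm ?_⟩
  by_cases hξ : IsCusp ρ ξ
  · obtain ⟨u, hu, rfl⟩ := hξ
    exact fib_cusp hf he hu (h0 u hu) h
  · exact fib_not_cusp hf he hρ hξ h

end

end HRT
end
end

-- merged part: Pool.Agent.Work.MP_35beee_gt.PFrameA
section
/-!
Auxiliary facts for `PFrame`: isometries from Gram matrices, transitivity on triples.
-/

namespace HRT

open Set Filter Topology Real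

theorem PFrame_fut {p ξ : V} (hp : B p p ≤ 0) (hξ : Fut ξ) (h : B p ξ < 0) : Fut p := by
  refine ⟨hp, lt_of_not_ge fun h2 => ?_⟩
  rcases h2.eq_or_lt with h3 | h3
  · simp only [B, h3] at hp h
    have h4 : p 0 = 0 := by nlinarith [mul_self_nonneg (p 0), mul_self_nonneg (p 1)]
    have h5 : p 1 = 0 := by nlinarith [mul_self_nonneg (p 0), mul_self_nonneg (p 1)]
    simp [h4, h5] at h
  · have h4 : Fut (-p) := ⟨by simpa using hp, by simpa using h3⟩
    have := h4.B_nonpos hξ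
    rw [B_neg_left] at this
    linarith

theorem PFrame_gram {u₁ u₂ u₃ v₁ v₂ v₃ : V} (hd : det3 u₁ u₂ u₃ ≠ 0)
    (hd' : det3 v₁ v₂ v₃ = det3 u₁ u₂ u₃) (h11 : B v₁ v₁ = B u₁ u₁) (h22 : B v₂ v₂ = B u₂ u₂)
    (h33 : B v₃ v₃ = B u₃ u₃) (h12 : B v₁ v₂ = B u₁ u₂) (h23 : B v₂ v₃ = B u₂ u₃)
    (h13 : B v₁ v₃ = B u₁ u₃) {x y : ℝ} (hz : B (x • u₁ + y • u₂) (x • u₁ + y • u₂) < 0)
    (hz' : 0 < (x • u₁ + y • u₂) 2) (hz'' : 0 < (x • v₁ + y • v₂) 2) :
    ∃ A : Isom, lin A u₁ = v₁ ∧ lin A u₂ = v₂ ∧ lin A u₃ = v₃ := by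
  set D := det3 u₁ u₂ u₃ with hD
  let f : V →ₗ[ℝ] V :=
    { toFun := fun p => D⁻¹ • (det3 u₂ u₃ p • v₁ + det3 u₃ u₁ p • v₂ + det3 u₁ u₂ p • v₃)
      map_add' := fun p q => by
        simp only [det3, B_add_right, add_smul, smul_add]
        abel
      map_smul' := fun t p => by
        simp only [det3, B_smul_right, RingHom.id_apply]
        module }
  have hf : ∀ p, f p = D⁻¹ • (det3 u₂ u₃ p • v₁ + det3 u₃ u₁ p • v₂ + det3 u₁ u₂ p • v₃) :=
    fun _ => rfl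
  have z1 : ∀ u v : V, det3 u v u = 0 := B_cr_left
  have z2 : ∀ u v : V, det3 u v v = 0 := B_cr_right
  have f1 : f u₁ = v₁ := by
    rw [hf, z1, z2, ← det3_cyc, ← hD]
    simp [smul_smul, hd]
  have f2 : f u₂ = v₂ := by
    rw [hf, z1, z2, det3_cyc u₃, ← hD]
    simp [smul_smul, hd]
  have f3 : f u₃ = v₃ := by
    rw [hf, z1, z2, ← hD]
    simp [smul_smul, hd]
  have ex : ∀ p : V, ∃ a b c : ℝ, p = a • u₁ + b • u₂ + c • u₃ := fun p =>
    ⟨D⁻¹ * det3 p u₂ u₃, D⁻¹ * det3 u₁ p u₃, D⁻¹ * det3 u₁ u₂ p, by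
      simp only [mul_smul, ← smul_add]
      rw [← cramer3, smul_smul, inv_mul_cancel₀ hd, one_smul]⟩
  have hB : ∀ p q, B (f p) (f q) = B p q := fun p q => by
    obtain ⟨a, b, c, rfl⟩ := ex p
    obtain ⟨a', b', c', rfl⟩ := ex q
    simp only [map_add, map_smul, f1, f2, f3, B_add_left, B_add_right, B_smul_left, B_smul_right,
      B_comm v₂ v₁, B_comm v₃ v₁, B_comm v₃ v₂, B_comm u₂ u₁, B_comm u₃ u₁, B_comm u₃ u₂,
      h11, h22, h33, h12, h23, h13]
  have hdet : LinearMap.det f = 1 := by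
    have h1 := (Pi.basisFun ℝ (Fin 3)).det_comp f ![u₁, u₂, u₃]
    have h2 : f ∘ ![u₁, u₂, u₃] = ![v₁, v₂, v₃] := by
      funext i
      fin_cases i <;> simp [f1, f2, f3]
    rw [h2, Pi.basisFun_det_apply, Pi.basisFun_det_apply, ← det3_eq, ← det3_eq, hd', ← hD] at h1
    exact mul_right_cancel₀ hd (by rw [one_mul, ← h1])
  obtain ⟨A, hA⟩ := exists_isom f hB hdet (toPt (x • u₁ + y • u₂)) (by
    rw [toPt_val hz hz', map_smul, map_add, map_smul, map_smul, f1, f2]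
    exact mul_pos (inv_pos.2 (Real.sqrt_pos.2 (neg_pos.2 hz))) hz'')
  exact ⟨A, by rw [hA, f1], by rw [hA, f2], by rw [hA, f3]⟩

theorem PFrame_scale {x y z : Circ} (h : ccw x y z) : ∃ a b c : ℝ, 0 < a ∧ 0 < b ∧ 0 < c ∧
    B (a • x.1) (b • y.1) = -1 ∧ B (b • y.1) (c • z.1) = -1 ∧ B (a • x.1) (c • z.1) = -1 ∧
    det3 (a • x.1) (b • y.1) (c • z.1) = √2 := by
  have hz := neg_pos.2 (B_circ_neg h.ne12)
  have hx := neg_pos.2 (B_circ_neg h.ne23)
  have hy := neg_pos.2 (B_circ_neg h.ne13)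
  obtain ⟨p, hp0, ep⟩ : ∃ p : ℝ, 0 < p ∧ B y.1 z.1 = -(p * p) :=
    ⟨√(-B y.1 z.1), Real.sqrt_pos.2 hx, by rw [Real.mul_self_sqrt hx.le, neg_neg]⟩
  obtain ⟨q, hq0, eq⟩ : ∃ q : ℝ, 0 < q ∧ B x.1 z.1 = -(q * q) :=
    ⟨√(-B x.1 z.1), Real.sqrt_pos.2 hy, by rw [Real.mul_self_sqrt hy.le, neg_neg]⟩
  obtain ⟨r, hr0, er⟩ : ∃ r : ℝ, 0 < r ∧ B x.1 y.1 = -(r * r) :=
    ⟨√(-B x.1 y.1), Real.sqrt_pos.2 hz, by rw [Real.mul_self_sqrt hz.le, neg_neg]⟩
  have ha : 0 < p / (q * r) := by positivity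
  have hb : 0 < q / (p * r) := by positivity
  have hc : 0 < r / (p * q) := by positivity
  have e1 : B ((p / (q * r)) • x.1) ((q / (p * r)) • y.1) = -1 := by
    rw [B_smul_left, B_smul_right, er]; field_simp
  have e2 : B ((q / (p * r)) • y.1) ((r / (p * q)) • z.1) = -1 := by
    rw [B_smul_left, B_smul_right, ep]; field_simp
  have e3 : B ((p / (q * r)) • x.1) ((r / (p * q)) • z.1) = -1 := by
    rw [B_smul_left, B_smul_right, eq]; field_simp
  refine ⟨_, _, _, ha, hb, hc, e1, e2, e3, ?_⟩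
  have h1 := det3_sq ((p / (q * r)) • x.1) ((q / (p * r)) • y.1) ((r / (p * q)) • z.1)
  rw [e1, e2, e3] at h1
  simp only [B_smul_left, B_smul_right, x.2.1, y.2.1, z.2.1, mul_zero, zero_mul] at h1
  have h2 : ∀ (a b c : ℝ) (u v w : V), det3 (a • u) (b • v) (c • w) = a * b * c * det3 u v w := by
    intro a b c u v w
    simp only [det3, B, cr_0, cr_1, cr_2, Pi.smul_apply, smul_eq_mul]
    ring
  have h3 : 0 < det3 ((p / (q * r)) • x.1) ((q / (p * r)) • y.1) ((r / (p * q)) • z.1) := by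
    rw [h2]
    have := (ccw_iff _ _ _).1 h
    positivity
  rw [← Real.sqrt_sq h3.le, h1]
  norm_num

theorem PFrame_triple {x y z x' y' z' : Circ} (h : ccw x y z) (h' : ccw x' y' z') :
    ∃ A : Isom, A • x = x' ∧ A • y = y' ∧ A • z = z' := by
  obtain ⟨a, b, c, ha, hb, hc, e1, e2, e3, e4⟩ := PFrame_scale h
  obtain ⟨a', b', c', ha', hb', hc', e1', e2', e3', e4'⟩ := PFrame_scale h'
  have n : ∀ (t : ℝ) (ξ : Circ), B (t • ξ.1) (t • ξ.1) = 0 := fun t ξ => by simp [ξ.2.1]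
  obtain ⟨A, h1, h2, h3⟩ := PFrame_gram (u₁ := a • x.1) (u₂ := b • y.1) (u₃ := c • z.1)
    (v₁ := a' • x'.1) (v₂ := b' • y'.1) (v₃ := c' • z'.1) (x := 1) (y := 1)
    (by rw [e4]; positivity) (by rw [e4, e4']) (by rw [n, n]) (by rw [n, n]) (by rw [n, n])
    (by rw [e1, e1']) (by rw [e2, e2']) (by rw [e3, e3'])
    (by rw [one_smul, one_smul, B_add_left, B_add_right, B_add_right, n, n, B_comm (b • y.1), e1]
        norm_num)
    (by simp only [one_smul, Pi.add_apply, Pi.smul_apply, x.2.2, y.2.2, smul_eq_mul]; positivity)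
    (by simp only [one_smul, Pi.add_apply, Pi.smul_apply, x'.2.2, y'.2.2, smul_eq_mul]; positivity)
  have key : ∀ {s t : ℝ} {ξ η : Circ}, 0 < s → 0 < t → lin A (s • ξ.1) = t • η.1 → A • ξ = η := by
    intro s t ξ η hs ht e
    have e' : lin A ξ.1 = (s⁻¹ * t) • η.1 := by
      rw [mul_smul, ← e, lin_smul, smul_smul, inv_mul_cancel₀ hs.ne', one_smul]
    refine Subtype.ext ?_
    rw [smul_circ_val, e', Pi.smul_apply, η.2.2, smul_eq_mul, mul_one, smul_smul,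
      inv_mul_cancel₀ (by positivity), one_smul]
  exact ⟨A, key ha ha' h1, key hb hb' h2, key hc hc' h3⟩

theorem PFrame_det_smul (A : Isom) (x y : Circ) (q : Pt) : ∃ t : ℝ, 0 < t ∧
    det3 x.1 y.1 q.1 = t * det3 (A • x).1 (A • y).1 (A • q).1 := by
  refine ⟨lin A x.1 2 * lin A y.1 2, mul_pos (lin_circ_pos A x) (lin_circ_pos A y), ?_⟩
  rw [← det3_lin A, smul_pt_val]
  conv_lhs => rw [lin_circ_val A x, lin_circ_val A y]
  simp only [det3, B, cr_0, cr_1, cr_2, Pi.smul_apply, smul_eq_mul]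
  ring

theorem PFrame_split {x y z ξ : Circ} (h : ccw x y z) (hx : ξ ≠ x) (hy : ξ ≠ y) (hz : ξ ≠ z) :
    ccw x ξ y ∨ ccw y ξ z ∨ ccw z ξ x := by
  rcases ccw_total hx.symm hy h.ne12 with h1 | h1
  · exact Or.inl h1
  rcases ccw_total hy.symm hz h.ne23 with h2 | h2
  · exact Or.inr (Or.inl h2)
  exact Or.inr (Or.inr (h1.cyc.cyc.trans h2.cyc.cyc).cyc.cyc)

theorem PFrame_ins1 {g : Isom} (h : Pos g) {ξ η : Circ} (hη : Ins g η.1) (hc : ccw (hi g) ξ η) :
    Ins g ξ.1 := by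
  rcases h.1.hyp_or_par with k | k
  · exact (k.ins_circ ξ).2 (hc.trans ((k.ins_circ η).1 hη))
  · rw [k.ins_circ h, k.lo_eq, ← k.hi_eq]
    exact hc.ne12.symm

theorem PFrame_ins2 {g : Isom} (h : Pos g) {ξ η : Circ} (hη : Ins g η.1) (hc : ccw η ξ (lo g)) :
    Ins g ξ.1 := by
  rcases h.1.hyp_or_par with k | k
  · exact (k.ins_circ ξ).2 (((k.ins_circ η).1 hη).cyc.cyc.trans hc.cyc.cyc).cyc
  · rw [k.ins_circ h]
    exact hc.ne23

theorem PFrame_lo {g : Isom} (h : NoFix g) : ¬ Ins g (lo g).1 := fun k => k.ne h.B_qv_lo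

theorem PFrame_hi {g : Isom} (h : NoFix g) : ¬ Ins g (hi g).1 := fun k => k.ne h.B_qv_hi

theorem PFrame_face {g h : Isom} (hg : NoFix g) (hh : NoFix h) {x y : ℝ} (hx : 0 ≤ x) (hy : 0 ≤ y)
    (hz : B (x • qv g + y • qv h) (x • qv g + y • qv h) < 0) {p : V} (hp : Fut p)
    (hp' : B (x • qv g + y • qv h) p < 0) : Face g h := by
  refine ⟨hg, hh, fun ξ => ?_⟩
  have h1 := (PFrame_fut hz.le hp hp').B_neg ξ.fut hz
  by_contra! H
  obtain ⟨h2, h3⟩ := H
  rw [B_add_left, B_smul_left, B_smul_left] at h1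
  linarith [mul_nonneg hx (not_lt.1 h2), mul_nonneg hy (not_lt.1 h3)]

/-- A future vector orthogonal to `qv a` in the span of `qv a`, `qv b`. -/
theorem PFrame_vec {a b : Isom} (h : Face a b) : ∃ p : V, Fut p ∧ B (qv a) p = 0 ∧
    B (qv b) p < 0 ∧ B (cr (qv a) (qv b)) p = 0 := by
  have hT := h.lt_TT
  have h0 := mul_nonneg (qsh_nonneg a) (qsh_nonneg b)
  have e : B (qv a) (qv b) = -TT a b := by simp [TT]
  have h1 : B (qv a) (TT a b • qv a + qsh a ^ 2 • qv b) = 0 := by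
    rw [B_add_right, B_smul_right, B_smul_right, h.1.B_qv, e]
    ring
  have h2 : B (qv b) (TT a b • qv a + qsh a ^ 2 • qv b) = (qsh a * qsh b) ^ 2 - TT a b ^ 2 := by
    rw [B_add_right, B_smul_right, B_smul_right, h.2.1.B_qv, B_comm, e]
    ring
  have h3 : (qsh a * qsh b) ^ 2 - TT a b ^ 2 < 0 := by linarith only [hT, h0, mul_pos_of_neg_of_neg (Mathlib.Tactic.Linarith.sub_neg_of_lt hT) (Mathlib.Tactic.Linarith.sub_neg_of_lt hT), mul_nonneg_of_nonpos_of_nonpos (le_of_lt (Mathlib.Tactic.Linarith.sub_neg_of_lt hT)) (Mathlib.Tactic.Linarith.sub_nonpos_of_le h0)]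
  refine ⟨TT a b • qv a + qsh a ^ 2 • qv b, PFrame_fut ?_ (lo b).fut ?_, h1, h2 ▸ h3, by simp⟩
  · rw [B_add_left, B_smul_left, B_smul_left, h1, h2, mul_zero, zero_add]
    exact mul_nonpos_of_nonneg_of_nonpos (sq_nonneg _) h3.le
  · rw [B_add_left, B_smul_left, B_smul_left, h.2.1.B_qv_lo, mul_zero, add_zero]
    exact mul_neg_of_pos_of_neg (h0.trans_lt hT) h.ins_lo

end HRT
end
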