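import Pool.Agent.Work.MP_35beee_gt.VAsym
import Pool.Agent.Work.MP_35beee_gt.PFace

-- merged part: Pool.Agent.Work.MP_35beee_gt.PAdj
section
/-!
Adjacent objects (boundary components of one complementary region), simple pairs.

Plan. `Adj.trans`: apply `tri` to `a`, `c`; each bad case makes `a`, `c`, or an inverse separate
one of the two given pairs, or contradicts `Ins`; if `m` separates `a` from `c`, apply `tri` to `m`
and `b`. `finite_sep`: choose a point `q` outside all separating `m` (a point of the axis of `b`,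
or a point with `-B (qv b) q < 1` if `b` is parabolic, `ins_of_level_lt`), and a point `q'` in the
same way for `a`; every separating axis meets the segment from `q'` to `q`
(`exists_mem_seg_B_eq_zero`), use `finite_level` or `Sys.finite_sepS`. `exists_adj`: take an
element of the finite set of separating objects whose own set of separating objects has least
cardinality (`Face.trans_inv`). `exists_top`: the objects `m` having `p` inside and the gap of `a`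
inside their gap separate `p` from a point outside `a`. `not_IL`: if `c` is not adjacent or equal
to `a`, then `c` and `d` both lie in the gap of one object that is adjacent or equal to `a`
(`tri`, `exists_adj`), use `ccw_gaps`, `ccw_gaps_pt`, `NoFix.ccw_gap`.
`exists_spair`: the set of values `TT a' b'` over adjacent pairs with `a' ∈ Q` has a least element
(`fin`, `finite_TT`, `TT_conj_conj`); if a translate interlaces a least pair then all four objects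
are adjacent (`not_IL`), pairwise distinct, and `ptolemy` gives a smaller pair.
-/

namespace HRT

open Set Filter Topology Real

variable {Γ : Type*} [Group Γ] {ρ σ : Γ →* Isom} {N : ℝ → ℝ} {O : Set Γ} {a b c d : Γ}

/-- `m` separates `a` from `b`. -/
def Sepa (ρ : Γ →* Isom) (m a b : Γ) : Prop :=
  Hyp (ρ m) ∧ Face (ρ a) (ρ m) ∧ Face (ρ m⁻¹) (ρ b)

/-- Two objects that face each other and are not separated by an object. -/
def Adj (ρ : Γ →* Isom) (O : Set Γ) (a b : Γ) : Prop :=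
  a ∈ O ∧ b ∈ O ∧ Face (ρ a) (ρ b) ∧ ∀ m ∈ O, ¬ Sepa ρ m a b

/-- The pair `(c, d)` interlaces the pair `(a, b)`. -/
def IL (ρ : Γ →* Isom) (a b c d : Γ) : Prop := Ord3 (ρ a) (ρ c) (ρ b) ∧ Ord3 (ρ b) (ρ d) (ρ a)

/-- An adjacent pair that is not interlaced by its translates. -/
def SPair (ρ : Γ →* Isom) (O : Set Γ) (a b : Γ) : Prop :=
  Adj ρ O a b ∧ ∀ g : Γ, ¬ IL ρ a b (g * a * g⁻¹) (g * b * g⁻¹) ∧
    ¬ IL ρ a b (g * b * g⁻¹) (g * a * g⁻¹)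

theorem PAdj_cj (ρ : Γ →* Isom) (g a : Γ) : ρ (g * a * g⁻¹) = ρ g * ρ a * (ρ g)⁻¹ := by
  rw [map_mul, map_mul, map_inv]

theorem PAdj_ni (ha : NoFix (ρ a)) {v : V} (h : Ins (ρ a) v) : ¬ Ins (ρ a⁻¹) v := by
  unfold Ins at h ⊢
  rw [map_inv, ha.qv_inv, B_neg_left]
  linarith

theorem PAdj_ni' (ha : NoFix (ρ a)) {v : V} (h : Ins (ρ a⁻¹) v) : ¬ Ins (ρ a) v :=
  fun h' => PAdj_ni ha h' h

theorem PAdj_lo {y : Isom} (hy : NoFix y) : ¬ Ins y (lo y).1 := by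
  unfold Ins
  rw [hy.B_qv_lo]
  exact lt_irrefl _

theorem PAdj_lo' (ha : NoFix (ρ a)) : ¬ Ins (ρ a⁻¹) (lo (ρ a)).1 := by
  unfold Ins
  rw [map_inv, ha.qv_inv, B_neg_left, ha.B_qv_lo, neg_zero]
  exact lt_irrefl _

theorem PAdj_hinv (h : Hyp (ρ a)) : Hyp (ρ a⁻¹) := by
  rw [map_inv]
  exact h.inv

theorem PAdj_both {x : Isom} (h1 : Face x (ρ a)) (h2 : Face x (ρ a⁻¹)) : False :=
  PAdj_ni h1.2.1 h1.symm.ins_lo h2.symm.ins_lo

theorem PAdj_self (h : Face (ρ a⁻¹) (ρ a)) : False :=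
  h.ne_inv (map_inv ρ a)

theorem PAdj_gap {x y : Isom} (h : Face x y) {ξ : Circ} (h1 : ¬ Ins x ξ.1) (h2 : ¬ Ins y ξ.1) :
    False := h1 (h.ins h2)

theorem PAdj_tr {m : Γ} {x y : Isom} (hm : Hyp (ρ m)) (h1 : Face x (ρ m))
    (h2 : Face (ρ m⁻¹) y) : Face x y := by
  rw [map_inv] at h2
  exact Face.trans_inv hm h1 h2

theorem PAdj_arc {y : Isom} (hy : Pos y) {ξ η : Circ} (h1 : Ins y ξ.1) (h2 : ccw ξ η (lo y)) :
    Ins y η.1 := by
  rcases hy.1.hyp_or_par with h | h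
  · rw [h.ins_circ] at h1 ⊢
    exact (h1.cyc.cyc.trans h2.cyc.cyc).cyc
  · rw [h.ins_circ hy]
    exact h2.ne23

theorem Sepa.symm {m : Γ} (h : Sepa ρ m a b) : Sepa ρ m⁻¹ b a := by
  exact ⟨PAdj_hinv h.1, h.2.2.symm, by rw [inv_inv]; exact h.2.1.symm⟩

theorem Sepa.conj {m : Γ} (h : Sepa ρ m a b) (g : Γ) :
    Sepa ρ (g * m * g⁻¹) (g * a * g⁻¹) (g * b * g⁻¹) := by
  have e : (g * m * g⁻¹)⁻¹ = g * m⁻¹ * g⁻¹ := by group
  refine ⟨?_, ?_, ?_⟩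
  · rw [PAdj_cj]
    exact h.1.conj _
  · rw [PAdj_cj, PAdj_cj]
    exact h.2.1.conj _
  · rw [e, PAdj_cj, PAdj_cj]
    exact h.2.2.conj _

theorem IL.swap (h : IL ρ a b c d) : IL ρ b a d c := by
  exact h.symm

theorem IL.rot (h : IL ρ a b c d) : IL ρ c d b a := by
  obtain ⟨h1, h2⟩ := h
  exact ⟨ccw.trans' h1 (ccw.cyc (ccw.cyc h2)),
    ccw.cyc (ccw.cyc (ccw.trans h1 (ccw.cyc (ccw.cyc h2))))⟩

theorem IL.conj (h : IL ρ a b c d) (ha : NoFix (ρ a)) (hb : NoFix (ρ b)) (hc : NoFix (ρ c))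
    (hd : NoFix (ρ d)) (g : Γ) :
    IL ρ (g * a * g⁻¹) (g * b * g⁻¹) (g * c * g⁻¹) (g * d * g⁻¹) := by
  unfold IL
  simp only [PAdj_cj]
  exact ⟨h.1.conj ha hc hb _, h.2.conj hb hd ha _⟩

theorem Adj.face (h : Adj ρ O a b) : Face (ρ a) (ρ b) := h.2.2.1

theorem Adj.symm (hO : OSys ρ O) (h : Adj ρ O a b) : Adj ρ O b a := by
  exact ⟨h.2.1, h.1, h.face.symm, fun m hm hs => h.2.2.2 m⁻¹ (hO.inv m hm hs.1) hs.symm⟩

theorem Adj.conj (hO : OSys ρ O) (h : Adj ρ O a b) (g : Γ) :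
    Adj ρ O (g * a * g⁻¹) (g * b * g⁻¹) := by
  refine ⟨hO.conj a h.1 g, hO.conj b h.2.1 g, ?_, fun m hm hs => ?_⟩
  · rw [PAdj_cj, PAdj_cj]
    exact h.face.conj _
  · have h1 := hs.conj g⁻¹
    have e : ∀ x : Γ, g⁻¹ * (g * x * g⁻¹) * g⁻¹⁻¹ = x := fun x => by group
    rw [e, e] at h1
    exact h.2.2.2 _ (hO.conj m hm g⁻¹) h1

theorem Adj.trans (hO : OSys ρ O) (hρ : Disc ρ) (h1 : Adj ρ O a b) (h2 : Adj ρ O b c)
    (hne : a ≠ c) : Adj ρ O a c := by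
  have ha := hO.noFix h1.1
  have hb := hO.noFix h1.2.1
  have hc := hO.noFix h2.2.1
  refine ⟨h1.1, h2.2.1, ?_, ?_⟩
  · rcases hO.tri hρ h1.1 h2.2.1 with e | t | ⟨h, e | t⟩ | ⟨h, t⟩ | ⟨-, -, t⟩
    · exact (hne e).elim
    · exact t
    · exact (PAdj_both h2.face (e ▸ h1.face.symm)).elim
    · exact (h1.2.2.2 c⁻¹ (hO.inv c h2.2.1 h)
        ⟨PAdj_hinv h, t, by rw [inv_inv]; exact h2.face.symm⟩).elim
    · exact (h2.2.2.2 a h1.1 ⟨h, h1.face.symm, t⟩).elim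
    · exact (PAdj_gap t (PAdj_ni ha h1.face.ins_lo) (PAdj_ni hc h2.face.symm.ins_lo)).elim
  · rintro m hm ⟨h, s1, s2⟩
    rcases hO.tri hρ hm h1.2.1 with e | t | ⟨-, e | t⟩ | ⟨-, t⟩ | ⟨-, -, t⟩
    · exact PAdj_both h2.face.symm (e ▸ s2.symm)
    · exact h2.2.2.2 m hm ⟨h, t.symm, s2⟩
    · exact PAdj_both h1.face (e ▸ s1)
    · exact PAdj_gap t (PAdj_ni' h.noFix s2.ins_lo) (PAdj_ni hb h2.face.ins_lo)
    · exact h1.2.2.2 m hm ⟨h, s1, t⟩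
    · exact PAdj_gap t (PAdj_ni h.noFix s1.symm.ins_lo) (PAdj_ni hb h1.face.symm.ins_lo)

theorem Adj.mono {O' : Set Γ} (h : Adj ρ O a b) (hs : O' ⊆ O) (ha : a ∈ O') (hb : b ∈ O') :
    Adj ρ O' a b := by
  exact ⟨ha, hb, h.face, fun m hm => h.2.2.2 m (hs hm)⟩

theorem SPair.symm (hO : OSys ρ O) (h : SPair ρ O a b) : SPair ρ O b a := by
  exact ⟨h.1.symm hO, fun g => ⟨fun t => (h.2 g).1 t.swap, fun t => (h.2 g).2 t.swap⟩⟩

theorem SPair.conj (hO : OSys ρ O) (h : SPair ρ O a b) (g : Γ) :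
    SPair ρ O (g * a * g⁻¹) (g * b * g⁻¹) := by
  have ha := hO.conj a h.1.1 g
  have hb := hO.conj b h.1.2.1 g
  have e : ∀ x : Γ, g⁻¹ * (g * x * g⁻¹) * g⁻¹⁻¹ = x := fun x => by group
  refine ⟨h.1.conj hO g, fun k => ?_⟩
  have e' : ∀ x : Γ, g⁻¹ * (k * (g * x * g⁻¹) * k⁻¹) * g⁻¹⁻¹ =
      g⁻¹ * k * g * x * (g⁻¹ * k * g)⁻¹ := fun x => by group
  have hc := hO.noFix (hO.conj _ ha k)
  have hd := hO.noFix (hO.conj _ hb k)
  refine ⟨fun t => ?_, fun t => ?_⟩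
  · have t' := t.conj (hO.noFix ha) (hO.noFix hb) hc hd g⁻¹
    rw [e, e, e', e'] at t'
    exact (h.2 _).1 t'
  · have t' := t.conj (hO.noFix ha) (hO.noFix hb) hd hc g⁻¹
    rw [e, e, e', e'] at t'
    exact (h.2 _).2 t'

theorem IsMark.adj {f : Circ ≃ₜ Circ} (hm : IsMark ρ σ f) (h : Adj ρ O a b) : Adj σ O a b := by
  exact ⟨h.1, h.2.1, hm.face h.face, fun m hm' hs => h.2.2.2 m hm'
    ⟨(hm.hyp_iff m).1 hs.1, (hm.face_iff _ _).1 hs.2.1, (hm.face_iff _ _).1 hs.2.2⟩⟩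

/-- A point inside every object that faces `b`. -/
theorem PAdj_pt (hO : OSys ρ O) (hρ : Disc ρ) (hb : b ∈ O) :
    ∃ q : Pt, ∀ x ∈ O, Face (ρ x) (ρ b) → Ins (ρ x) q.1 := by
  rcases (hO.noFix hb).hyp_or_par with h | h
  · obtain ⟨q, hq⟩ := (PAdj_hinv h).pos.exists_level one_pos
    have h1 : Ins (ρ b⁻¹) q.1 := by
      unfold Ins
      linarith
    exact ⟨q, fun x _ hx => hx.ins_pt (PAdj_ni' h.noFix h1)⟩
  · obtain ⟨q, hq⟩ := (hO.pos b hb).exists_level one_half_pos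
    exact ⟨q, fun x hx hf => hO.ins_of_level_lt hρ hx hb hf h (by rw [hq]; norm_num)⟩

theorem PAdj_fin (hO : OSys ρ O) (hρ : Disc ρ) (p q : Pt) :
    {m ∈ O | Hyp (ρ m) ∧ Ins (ρ m) p.1 ∧ ¬ Ins (ρ m) q.1}.Finite := by
  refine Set.Finite.of_finite_image (f := fun m => ax (ρ m))
    (((hO.sys hρ).fin p (sinh (dist p q))).subset ?_) ?_
  · rintro _ ⟨m, ⟨hm, h, h1, h2⟩, rfl⟩
    rw [h.ins_iff] at h1 h2
    exact ⟨⟨m, hm, h, rfl⟩, GSrt_abs (mul_nonpos_of_nonpos_of_nonneg h1.le (not_lt.1 h2))⟩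
  · rintro m ⟨hm, h, -⟩ m' ⟨hm', h', -⟩ he
    refine hO.lo_inj hρ hm hm' ?_
    rw [h.lo_eq, h'.lo_eq]
    exact congrArg Geo.tgt he

theorem PAdj_side (hO : OSys ρ O) (hρ : Disc ρ) {m : Γ} (hm : m ∈ O) (h : Hyp (ρ m))
    (h2 : Adj ρ O c d) (hf : Face (ρ m⁻¹) (ρ c)) : ¬ Ins (ρ m) (lo (ρ d)).1 := by
  have hd := hO.noFix h2.2.1
  rcases hO.tri hρ hm h2.2.1 with e | t | ⟨-, e | t⟩ | ⟨-, t⟩ | ⟨-, -, t⟩
  · rw [e]
    exact PAdj_lo hd
  · exact (h2.2.2.2 m⁻¹ (hO.inv m hm h) ⟨PAdj_hinv h, hf.symm, by rwa [inv_inv]⟩).elim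
  · rw [e]
    exact PAdj_lo' hd
  · exact (PAdj_gap t (PAdj_ni' h.noFix hf.ins_lo) (PAdj_ni hd h2.face.symm.ins_lo)).elim
  · exact PAdj_ni' h.noFix t.ins_lo
  · exact PAdj_ni' h.noFix (t.ins (PAdj_lo' hd))

namespace OSys

theorem finite_sep (hO : OSys ρ O) (hρ : Disc ρ) (ha : a ∈ O) (hb : b ∈ O) :
    {m ∈ O | Sepa ρ m a b}.Finite := by
  obtain ⟨p, hp⟩ := PAdj_pt hO hρ ha
  obtain ⟨q, hq⟩ := PAdj_pt hO hρ hb
  refine (PAdj_fin hO hρ p q).subset ?_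
  rintro m ⟨hm, h, s1, s2⟩
  exact ⟨hm, h, hp m hm s1.symm, PAdj_ni' h.noFix (hq _ (hO.inv m hm h) s2)⟩

theorem exists_adj (hO : OSys ρ O) (hρ : Disc ρ) (ha : a ∈ O) (hb : b ∈ O)
    (h : Face (ρ a) (ρ b)) : ∃ m, Adj ρ O a m ∧ (m = b ∨ Sepa ρ m a b) := by
  induction hn : {m ∈ O | Sepa ρ m a b}.ncard using Nat.strong_induction_on generalizing b with
  | _ n ih =>
    by_cases h0 : ∀ m ∈ O, ¬ Sepa ρ m a b
    · exact ⟨b, ⟨ha, hb, h, h0⟩, Or.inl rfl⟩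
    · push Not at h0
      obtain ⟨m, hm, hs⟩ := h0
      have hsub : ∀ x, Sepa ρ x a m → Sepa ρ x a b := fun x hx =>
        ⟨hx.1, hx.2.1, PAdj_tr hs.1 hx.2.2 hs.2.2⟩
      have hlt : {x ∈ O | Sepa ρ x a m}.ncard < n := by
        rw [← hn]
        refine Set.ncard_lt_ncard ⟨fun x hx => ⟨hx.1, hsub x hx.2⟩, fun hc => ?_⟩
          (hO.finite_sep hρ ha hb)
        exact PAdj_self (hc ⟨hm, hs⟩).2.2.2
      obtain ⟨x, hx, e | t⟩ := ih _ hlt hm hs.2.1 rfl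
      · exact ⟨x, hx, Or.inr (e ▸ hs)⟩
      · exact ⟨x, hx, Or.inr (hsub x t)⟩

/-- Every object has an adjacent object. -/
theorem exists_adj' (hO : OSys ρ O) (hρ : Good ρ N) (ha : a ∈ O) : ∃ b, Adj ρ O a b := by
  have hn := hO.noFix ha
  obtain ⟨_, ⟨g, rfl⟩, hg⟩ := (hρ.dense_orbit (lo (ρ a))).exists_mem_open (isOpen_ins (ρ a))
    (hO.pos a ha).2
  have hc := hO.conj a ha g
  have hg' : Ins (ρ a) (lo (ρ (g * a * g⁻¹))).1 := by
    rw [PAdj_cj, hn.lo_conj]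
    exact hg
  generalize g * a * g⁻¹ = c at hc hg'
  have hcn := hO.noFix hc
  rcases hO.tri hρ.toDisc ha hc with e | t | ⟨h, e | t⟩ | ⟨-, t⟩ | ⟨-, -, t⟩
  · exact (PAdj_lo hcn (e ▸ hg')).elim
  · exact (hO.exists_adj hρ.toDisc ha hc t).imp fun _ h => h.1
  · exact (PAdj_lo' hcn (e ▸ hg')).elim
  · exact (hO.exists_adj hρ.toDisc ha (hO.inv c hc h) t).imp fun _ h => h.1
  · exact (PAdj_ni hn hg' t.ins_lo).elim
  · exact (PAdj_ni hn hg' (t.ins (PAdj_lo' hcn))).elim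

/-- An object that bounds the region of the point `p`. -/
theorem exists_top (hO : OSys ρ O) (hρ : Disc ρ) (hne : O.Nonempty) {p : Pt}
    (hp : ∀ m ∈ O, B (qv (ρ m)) p.1 ≠ 0) :
    ∃ a ∈ O, Ins (ρ a) p.1 ∧ ∀ b, Adj ρ O a b → Ins (ρ b) p.1 := by
  have key : ∀ x ∈ O, ¬ Ins (ρ x) p.1 → Hyp (ρ x) ∧ Ins (ρ x⁻¹) p.1 := by
    intro x hx hi
    rcases (hO.noFix hx).hyp_or_par with h | h
    · refine ⟨h, ?_⟩
      unfold Ins at hi ⊢
      rw [map_inv, h.noFix.qv_inv, B_neg_left]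
      exact neg_neg_of_pos (lt_of_le_of_ne (not_lt.1 hi) (hp x hx).symm)
    · exact (hi (h.ins_pt (hO.pos x hx) p)).elim
  have hS : ∃ a, a ∈ O ∧ Ins (ρ a) p.1 := by
    obtain ⟨x, hx⟩ := hne
    by_cases hi : Ins (ρ x) p.1
    · exact ⟨x, hx, hi⟩
    · exact ⟨x⁻¹, hO.inv x hx (key x hx hi).1, (key x hx hi).2⟩
  obtain ⟨a, ⟨ha, hi⟩, hmin⟩ := exists_minimalFor_of_wellFoundedLT
    (fun a => a ∈ O ∧ Ins (ρ a) p.1)
    (fun a => {m ∈ O | Hyp (ρ m) ∧ Ins (ρ m) p.1 ∧ Face (ρ m⁻¹) (ρ a)}.ncard) hS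
  refine ⟨a, ha, hi, fun b hb => ?_⟩
  by_contra hn
  obtain ⟨h, h'⟩ := key b hb.2.1 hn
  have hb' := hO.inv b hb.2.1 h
  have hf : Face (ρ b⁻¹⁻¹) (ρ a) := by
    rw [inv_inv]
    exact hb.face.symm
  have hfin : {m ∈ O | Hyp (ρ m) ∧ Ins (ρ m) p.1 ∧ Face (ρ m⁻¹) (ρ a)}.Finite := by
    obtain ⟨q, hq⟩ := PAdj_pt hO hρ ha
    refine (PAdj_fin hO hρ p q).subset ?_
    rintro m ⟨hm, h1, h2, h3⟩
    exact ⟨hm, h1, h2, PAdj_ni' h1.noFix (hq _ (hO.inv m hm h1) h3)⟩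
  have hlt : {m ∈ O | Hyp (ρ m) ∧ Ins (ρ m) p.1 ∧ Face (ρ m⁻¹) (ρ b⁻¹)}.ncard <
      {m ∈ O | Hyp (ρ m) ∧ Ins (ρ m) p.1 ∧ Face (ρ m⁻¹) (ρ a)}.ncard := by
    refine Set.ncard_lt_ncard ⟨fun x hx => ⟨hx.1, hx.2.1, hx.2.2.1,
      PAdj_tr (PAdj_hinv h) hx.2.2.2 hf⟩, fun hc => ?_⟩ hfin
    exact PAdj_self (hc ⟨hb', PAdj_hinv h, h', hf⟩).2.2.2
  exact hlt.not_ge (hmin ⟨hb', h'⟩ hlt.le)

/-- Two objects that both bound the region of a point are equal or adjacent. -/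
theorem adj_of_top (hO : OSys ρ O) (hρ : Disc ρ) (ha : a ∈ O) (hb : b ∈ O) {p : Pt}
    (h1 : Ins (ρ a) p.1) (h2 : Ins (ρ b) p.1) (h3 : ∀ m, Adj ρ O a m → Ins (ρ m) p.1)
    (h4 : ∀ m, Adj ρ O b m → Ins (ρ m) p.1) : a = b ∨ Adj ρ O a b := by
  have key : ∀ y ∈ O, (∀ m, Adj ρ O y m → Ins (ρ m) p.1) → ∀ x ∈ O, Face (ρ y) (ρ x) →
      Ins (ρ x) p.1 := by
    intro y hy H x hx hf
    obtain ⟨m, hm, e | ⟨s1, -, s2⟩⟩ := hO.exists_adj hρ hy hx hf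
    · exact e ▸ H m hm
    · rw [map_inv] at s2
      exact Face.ins_of_inv s1 s2 p.fut (le_of_lt (H m hm))
  have han := hO.noFix ha
  have hbn := hO.noFix hb
  rcases hO.tri hρ ha hb with e | t | ⟨h, e | t⟩ | ⟨h, t⟩ | ⟨-, -, t⟩
  · exact Or.inl e
  · refine Or.inr ⟨ha, hb, t, ?_⟩
    rintro m hm ⟨s1, s2, s3⟩
    exact PAdj_ni s1.noFix (key a ha h3 m hm s2) (key b hb h4 _ (hO.inv m hm s1) s3.symm)
  · exact (PAdj_ni hbn h2 (e ▸ h1)).elim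
  · exact (PAdj_ni hbn h2 (key a ha h3 _ (hO.inv b hb h) t)).elim
  · exact (PAdj_ni han h1 (key b hb h4 _ (hO.inv a ha h) t.symm)).elim
  · exact (PAdj_ni han h1 (t.ins_pt (PAdj_ni hbn h2))).elim

theorem not_IL (hO : OSys ρ O) (hρ : Disc ρ) (h1 : Adj ρ O a b) (h2 : Adj ρ O c d)
    (h3 : a ≠ c) (h4 : ¬ Adj ρ O a c) : ¬ IL ρ a b c d := by
  rintro ⟨o1, o2⟩
  have han := hO.noFix h1.1
  have hcn := hO.noFix h2.1
  have hc1 : ¬ Ins (ρ c⁻¹) (lo (ρ c)).1 := PAdj_lo' hcn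
  have hc2 : ¬ Ins (ρ c⁻¹) (lo (ρ d)).1 := PAdj_ni hcn h2.face.ins_lo
  have key : ∃ m, (m = a ∨ Adj ρ O a m) ∧ ¬ Ins (ρ m) (lo (ρ c)).1 ∧
      ¬ Ins (ρ m) (lo (ρ d)).1 := by
    rcases hO.tri hρ h1.1 h2.1 with e | t | ⟨h, e | t⟩ | ⟨h, t⟩ | ⟨-, -, t⟩
    · exact (h3 e).elim
    · obtain ⟨m, hm, e | ⟨s1, -, s2⟩⟩ := hO.exists_adj hρ h1.1 h2.1 t
      · exact (h4 (e ▸ hm)).elim
      · exact ⟨m, Or.inr hm, PAdj_ni' s1.noFix s2.ins_lo, PAdj_side hO hρ hm.2.1 s1 h2 s2⟩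
    · exact ⟨c⁻¹, Or.inl e.symm, hc1, hc2⟩
    · obtain ⟨m, hm, e | ⟨s1, -, s2⟩⟩ := hO.exists_adj hρ h1.1 (hO.inv c h2.1 h) t
      · exact ⟨c⁻¹, Or.inr (e ▸ hm), hc1, hc2⟩
      · exact ⟨m, Or.inr hm, PAdj_ni' s1.noFix (s2.ins hc1), PAdj_ni' s1.noFix (s2.ins hc2)⟩
    · exact ⟨a, Or.inl rfl, PAdj_ni' han t.ins_lo, PAdj_side hO hρ h1.1 h h2 t⟩
    · exact ⟨a, Or.inl rfl, PAdj_ni' han (t.ins hc1), PAdj_ni' han (t.ins hc2)⟩
  obtain ⟨m, e | hm, k1, k2⟩ := key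
  · exact k2 (e ▸ PAdj_arc (hO.pos a h1.1) h1.face.ins_lo o2)
  · by_cases e : m = b
    · exact k1 (e ▸ PAdj_arc (hO.pos b h1.2.1) h1.face.symm.ins_lo o1)
    · have hmb := (hm.symm hO).trans hO hρ h1 e
      exact ccw.asymm o1 (((hO.noFix hm.2.1).ccw_gap hm.face.symm.ins_lo hmb.face.ins_lo k1 k2).2
        (ccw.cyc (ccw.cyc o2)))

theorem exists_spair (hO : OSys ρ O) (hρ : Good ρ N) {Q : Set Γ}
    (h1 : ∀ x ∈ Q, ∀ g : Γ, g * x * g⁻¹ ∈ Q) (h2 : ∀ x ∈ Q, ∀ y, Adj ρ O x y → y ∈ Q)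
    (ha : a ∈ Q) (h : Adj ρ O a b) :
    ∃ x ∈ Q, ∃ y, SPair ρ O x y ∧ TT (ρ x) (ρ y) ≤ TT (ρ a) (ρ b) := by
  have hD := hρ.toDisc
  have cj : ∀ x ∈ O, ∀ y ∈ O, ∀ g : Γ,
      TT (ρ (g * x * g⁻¹)) (ρ (g * y * g⁻¹)) = TT (ρ x) (ρ y) := by
    intro x hx y hy g
    rw [PAdj_cj, PAdj_cj, TT_conj_conj (hO.noFix hx) (hO.noFix hy)]
  have hfin : {t | t ≤ TT (ρ a) (ρ b) ∧ ∃ x ∈ Q, ∃ y, Adj ρ O x y ∧ TT (ρ x) (ρ y) = t}.Finite := by
    obtain ⟨s, hs⟩ := hO.fin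
    choose! F hF using fun f (hf : f ∈ O) => hO.finite_TT hρ hf (TT (ρ a) (ρ b))
    refine (s.finite_toSet.biUnion fun f _ =>
      (F f).finite_toSet.image fun z => TT (ρ f) (ρ z)).subset ?_
    rintro _ ⟨ht, x, -, y, hxy, rfl⟩
    obtain ⟨f, hf, hc⟩ := hs x hxy.1
    obtain ⟨g, hg⟩ := isConj_iff.1 hc.symm
    have h3 := hxy.conj hO g
    have h4 := cj x hxy.1 y hxy.2.1 g
    rw [hg] at h3 h4
    obtain ⟨k, hk⟩ := hF f h3.1 _ h3.2.1 h3.face (h4 ▸ ht)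
    refine mem_biUnion hf ⟨_, hk, ?_⟩
    have h5 := cj f h3.1 _ h3.2.1 (f ^ k)
    rw [show f ^ k * f * (f ^ k)⁻¹ = f by group] at h5
    exact h5.trans h4
  obtain ⟨_, ⟨ht, x, hx, y, hxy, rfl⟩, hmin⟩ := Set.exists_min_image _ id hfin
    ⟨_, le_rfl, a, ha, b, h, rfl⟩
  have hm : ∀ x' ∈ Q, ∀ y', Adj ρ O x' y' → TT (ρ x) (ρ y) ≤ TT (ρ x') (ρ y') := by
    intro x' hx' y' h'
    rcases le_total (TT (ρ x') (ρ y')) (TT (ρ a) (ρ b)) with hl | hl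
    · exact hmin _ ⟨hl, x', hx', y', h', rfl⟩
    · exact ht.trans hl
  have key : ∀ c d, Adj ρ O c d → TT (ρ c) (ρ d) = TT (ρ x) (ρ y) → ¬ IL ρ x y c d := by
    intro c d hcd he hil
    have n1 : x ≠ c := fun e => ccw.ne12 hil.1 (by rw [e])
    have n2 : y ≠ c := fun e => ccw.ne23 hil.1 (by rw [e])
    have n3 : y ≠ d := fun e => ccw.ne12 hil.2 (by rw [e])
    have n4 : x ≠ d := fun e => ccw.ne23 hil.2 (by rw [e])
    have a1 : Adj ρ O x c := by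
      by_contra hn
      exact hO.not_IL hD hxy hcd n1 hn hil
    have a2 := (hxy.symm hO).trans hO hD a1 n2
    have a3 := a1.trans hO hD hcd n4
    have a4 := a2.trans hO hD hcd n3
    have hp := (ptolemy a1.face hxy.face a3.face a2.face.symm hcd.face a4.face hil.1 hil.2).1
    have h0 : 0 < TT (ρ x) (ρ y) :=
      (mul_nonneg (qsh_nonneg _) (qsh_nonneg _)).trans_lt hxy.face.lt_TT
    have b1 := hm x hx c a1
    have b2 := hm y (h2 x hx y hxy) d a4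
    rw [he] at hp
    exact hp.not_ge (mul_le_mul b1 b2 h0.le (h0.le.trans b1))
  refine ⟨x, hx, y, ⟨hxy, fun g => ⟨key _ _ (hxy.conj hO g) (cj x hxy.1 y hxy.2.1 g),
    key _ _ ((hxy.symm hO).conj hO g) ?_⟩⟩, ht⟩
  rw [cj y hxy.2.1 x hxy.1 g, TT_comm]

end OSys

end HRT
end

-- merged part: Pool.Agent.Work.MP_35beee_gt.PFan
section
/-!
Frames of objects: flips, fans, the tree of frames of one region.

`FO a b`: `a`, `b`, `(a * b)⁻¹` are objects and form a frame. `FT a b x y`: the pair `x`, `y` is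
obtained from `a`, `b` by rotations and flips.

Plan. `FO.adj`: the ends of a separating `m` lie in two different open arcs of the frame
(`Frame.cases`, `nc`, `ends_ne`), contradiction with `Frame.cross_of_arcs` (rotated or for the
reversed line). `FT.conj_left`: flip, rotate, flip: from `a`, `b` one gets `a`, `c` with
`c = (a * b)⁻¹` and then `a`, `a * b * a⁻¹`; the inverse move in the same way.
`FO.fan`: the objects `a ^ k * b * a ^ (-k)`, `a ^ k * c * a ^ (-k)` alternate along the inner side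
of `a` (`NoFix.exists_zpow`, `Frame.ord3`). `FO.reach`: descent. If `o` is not an entry of the
current frame, it lies in one of the three arcs, say between `x` and `y` with third entry `z`;
flip; the new third entry `z' = y * z * y⁻¹` has `TT z' o < TT z o` (by `Frame.lift`,
`qv z - qv z' = 2 • cr (qv x) (qv y)`; `det3_qv_pos`), and the sum of `TT` with `o` over the
entries takes finitely many values below a bound (`OSys.finite_TT`, `TT_conj_conj`).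
`FO.not_IL`: call a frame a child of `x`, `y` if it comes from the flip; by induction all frames
reached from `a`, `b` without undoing a flip have their entries in one closed arc of the first
frame (`Frame.face_conj`, `Face.ord3_conj`); every `FT` frame is such a descendant (the parent of a
descendant is a descendant or the root). `FO.code`: by `fan`, `o` is an entry next to `a` or lies
between `x` and `z = (a * x)⁻¹`; translate the pair `a`, `o` by `x` and by `z⁻¹`: no interlacing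
forces `o` to be at or after `x⁻¹ * a * x` and at or before `z * a * z⁻¹`, which are equal.
`FO.cover`: among the finitely many objects adjacent or equal to `a` with level at most that of `a`
(`finite_level`) take one of least level; the lines from its `lo` to the `lo` of its fan tend to its axis on one side and to its `lo` on the other, so `p`
lies between two consecutive ones; `Frame.level_lt`, `mem_tri_iff`.
-/

namespace HRT

open Set Filter Topology Real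

variable {Γ : Type*} [Group Γ] {ρ σ : Γ →* Isom} {N : ℝ → ℝ} {O : Set Γ} {a b x y : Γ}

/-- A frame of objects. -/
def FO (ρ : Γ →* Isom) (O : Set Γ) (a b : Γ) : Prop :=
  a ∈ O ∧ b ∈ O ∧ (a * b)⁻¹ ∈ O ∧ Frame (ρ a) (ρ b) (ρ (a * b)⁻¹)

/-- Pairs obtained by rotations and flips. -/
inductive FT (a b : Γ) : Γ → Γ → Prop
  | refl : FT a b a b
  | rot {x y : Γ} : FT a b x y → FT a b y (x * y)⁻¹
  | flip {x y : Γ} : FT a b x y → FT a b y x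

theorem FT.trans {u v : Γ} (h1 : FT a b x y) (h2 : FT x y u v) : FT a b u v := by
  induction h2 with
  | refl => exact h1
  | rot _ ih => exact ih.rot
  | flip _ ih => exact ih.flip

theorem PFan_rr (h : FT a b x y) : FT a b (x * y)⁻¹ x := by
  have h1 := h.rot.rot
  rwa [show (y * (x * y)⁻¹)⁻¹ = x by group] at h1

theorem FT.symm (h : FT a b x y) : FT x y a b := by
  induction h with
  | refl => exact FT.refl
  | @rot x y _ ih =>
    refine FT.trans ?_ ih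
    have h1 := PFan_rr (FT.refl (a := y) (b := (x * y)⁻¹))
    rwa [show (y * (x * y)⁻¹)⁻¹ = x by group] at h1
  | flip _ ih => exact FT.trans FT.refl.flip ih

theorem FT.conj (h : FT a b x y) (g : Γ) :
    FT (g * a * g⁻¹) (g * b * g⁻¹) (g * x * g⁻¹) (g * y * g⁻¹) := by
  induction h with
  | refl => exact FT.refl
  | @rot x y _ ih =>
    have h1 := ih.rot
    rwa [show (g * x * g⁻¹ * (g * y * g⁻¹))⁻¹ = g * (x * y)⁻¹ * g⁻¹ by group] at h1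
  | flip _ ih => exact ih.flip

theorem FT.map {Δ : Type*} [Group Δ] (h : FT a b x y) (φ : Γ →* Δ) :
    FT (φ a) (φ b) (φ x) (φ y) := by
  induction h with
  | refl => exact FT.refl
  | @rot x y _ ih =>
    rw [map_inv, map_mul]
    exact ih.rot
  | flip _ ih => exact ih.flip

theorem PFan_next (h : FT a b x y) : FT a b x (x * y)⁻¹ := (PFan_rr h).flip

theorem PFan_left (a b : Γ) : FT a b a (a * b * a⁻¹) := by
  have h1 := PFan_next (PFan_next (FT.refl (a := a) (b := b)))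
  rwa [show (a * (a * b)⁻¹)⁻¹ = a * b * a⁻¹ by group] at h1

theorem FT.of_mem {w : Γ} (hw : w ∈ Subgroup.closure {a, b}) :
    FT a b (w * a * w⁻¹) (w * b * w⁻¹) := by
  induction hw using Subgroup.closure_induction with
  | mem w hw =>
    rcases hw with rfl | rfl
    · rw [mul_inv_cancel_right]
      exact PFan_left _ _
    · rw [mul_inv_cancel_right]
      exact (FT.refl.flip.trans (PFan_left _ _)).flip
  | one => simpa using FT.refl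
  | mul u v _ _ hu hv =>
    have e : ∀ x : Γ, u * v * x * (u * v)⁻¹ = u * (v * x * v⁻¹) * u⁻¹ := fun x => by group
    rw [e, e]
    exact hu.trans (hv.conj u)
  | inv u _ hu =>
    have e : ∀ x : Γ, u⁻¹ * (u * x * u⁻¹) * u⁻¹⁻¹ = x := fun x => by group
    have h1 := (hu.conj u⁻¹).symm
    rwa [e, e] at h1

theorem PFan_R {u v : Γ}
    (h : (u = a ∧ v = b) ∨ (u = b ∧ v = (a * b)⁻¹) ∨ (u = (a * b)⁻¹ ∧ v = a)) :
    (v = a ∧ (u * v)⁻¹ = b) ∨ (v = b ∧ (u * v)⁻¹ = (a * b)⁻¹) ∨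
      (v = (a * b)⁻¹ ∧ (u * v)⁻¹ = a) := by
  rcases h with ⟨rfl, rfl⟩ | ⟨rfl, rfl⟩ | ⟨rfl, rfl⟩
  · exact Or.inr (Or.inl ⟨rfl, rfl⟩)
  · exact Or.inr (Or.inr ⟨rfl, by group⟩)
  · exact Or.inl ⟨rfl, by group⟩

theorem FT.exists_conj (h : FT a b x y) : ∃ w ∈ Subgroup.closure {a, b}, ∃ u v : Γ,
    ((u = a ∧ v = b) ∨ (u = b ∧ v = (a * b)⁻¹) ∨ (u = (a * b)⁻¹ ∧ v = a)) ∧
      ((x = w * u * w⁻¹ ∧ y = w * v * w⁻¹) ∨ (y = w * u * w⁻¹ ∧ x = w * v * w⁻¹)) := by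
  induction h with
  | refl => exact ⟨1, one_mem _, a, b, Or.inl ⟨rfl, rfl⟩, Or.inl ⟨by simp, by simp⟩⟩
  | rot _ ih =>
    obtain ⟨w, hw, u, v, h1, ⟨rfl, rfl⟩ | ⟨rfl, rfl⟩⟩ := ih
    · exact ⟨w, hw, v, (u * v)⁻¹, PFan_R h1, Or.inl ⟨rfl, by group⟩⟩
    · have ha : a ∈ Subgroup.closure {a, b} := Subgroup.subset_closure (Or.inl rfl)
      have hb : b ∈ Subgroup.closure {a, b} := Subgroup.subset_closure (Or.inr rfl)
      have hu : u ∈ Subgroup.closure {a, b} := by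
        rcases h1 with ⟨e, -⟩ | ⟨e, -⟩ | ⟨e, -⟩ <;> rw [e]
        · exact ha
        · exact hb
        · exact inv_mem (mul_mem ha hb)
      have h2 := PFan_R (PFan_R h1)
      rw [show (v * (u * v)⁻¹)⁻¹ = u by group] at h2
      exact ⟨w * u⁻¹, mul_mem hw (inv_mem hu), (u * v)⁻¹, u, h2, Or.inr ⟨by group, by group⟩⟩
  | flip _ ih =>
    obtain ⟨w, hw, u, v, h1, h2⟩ := ih
    exact ⟨w, hw, u, v, h1, h2.symm⟩

theorem FO.rot (h : FO ρ O a b) : FO ρ O b (a * b)⁻¹ := by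
  rw [FO, show (b * (a * b)⁻¹)⁻¹ = a by group]
  exact ⟨h.2.1, h.2.2.1, h.1, h.2.2.2.rot⟩

theorem FO.flip (hO : OSys ρ O) (h : FO ρ O a b) : FO ρ O b a := by
  rw [FO, show (b * a)⁻¹ = b * (a * b)⁻¹ * b⁻¹ by group, PAdj_cj]
  exact ⟨h.2.1, h.1, hO.conj _ h.2.2.1 b, h.2.2.2.flip⟩

theorem FO.conj (hO : OSys ρ O) (h : FO ρ O a b) (g : Γ) :
    FO ρ O (g * a * g⁻¹) (g * b * g⁻¹) := by
  rw [FO, show (g * a * g⁻¹ * (g * b * g⁻¹))⁻¹ = g * (a * b)⁻¹ * g⁻¹ by group, PAdj_cj, PAdj_cj,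
    PAdj_cj]
  exact ⟨hO.conj _ h.1 g, hO.conj _ h.2.1 g, hO.conj _ h.2.2.1 g, h.2.2.2.conj _⟩

theorem FO.ft (hO : OSys ρ O) (h : FO ρ O a b) (h1 : FT a b x y) : FO ρ O x y := by
  induction h1 with
  | refl => exact h
  | rot _ ih => exact ih.rot
  | flip _ ih => exact ih.flip hO

theorem FO.adj (hO : OSys ρ O) (hρ : Disc ρ) (h : FO ρ O a b) : Adj ρ O a b := by
  obtain ⟨ha, hb, hc, hf⟩ := h
  refine ⟨ha, hb, hf.2.1, ?_⟩
  rintro m hm ⟨h0, s1, s2⟩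
  have hn := h0.noFix
  have nc : ∀ g : Γ, ¬ Cross (ax (ρ m)) (ρ g • ax (ρ m)) := (hO.simple hρ hm h0).line
  have s3 := s2
  rw [map_inv] at s3
  have k1 := (h0.ins_circ _).1 s1.symm.ins_hi
  have k2 := (h0.inv.ins_circ _).1 s3.ins_lo
  rw [hn.lo_inv, hn.hi_inv] at k2
  have k3 := k1.trans' k2.cyc.cyc
  have k4 := k1.trans k2.cyc.cyc
  have k5 : Ins (ρ b) (hi (ρ m)).1 := by
    rw [← hn.lo_inv]
    exact s3.symm.ins_lo
  have k6 : Ins (ρ (a * b)⁻¹) (hi (ρ m)).1 := by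
    rcases hO.POs_side hρ hc hm (fun e => PAdj_both (e ▸ hf.2.2.1) s2.symm)
      (fun e => PAdj_both hf.2.2.2.symm (e ▸ s1)) with t | t
    · exact t.2
    · exact (POs_not_ins (hO.noFix hc) (hf.ins_of_arc k3).2.2 t.2.1).elim
  rcases hf.cases (hi (ρ m)) with t | t | t | t | t | t
  · exact t s1.ins_hi
  · exact t k5
  · exact t k6
  · exact k4.asymm t.cyc
  · rw [h0.hi_eq] at t
    rw [h0.lo_eq] at k3
    exact (hf.cross_of_arcs t k3).elim (nc b) (nc a)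
  · rw [h0.hi_eq] at t
    rw [h0.lo_eq] at k3
    have t' := hf.rot.rot.cross_of_arcs (l := (ax (ρ m)).rev) k3 t
    simp only [Geo.smul_rev, cross_rev_left, cross_rev_right] at t'
    exact t'.elim (nc a) (nc _)

theorem PFan_mid {p q r ξ : Circ} (h1 : ccw p q r) (h2 : ccw p ξ r) :
    ccw p ξ q ∨ ξ = q ∨ ccw q ξ r := by
  by_cases e : ξ = q
  · exact Or.inr (Or.inl e)
  rcases ccw_total h2.ne12 e h1.ne12 with t | t
  · exact Or.inl t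
  · exact Or.inr (Or.inr (t.trans' h2))

theorem PFan_fan (hO : OSys ρ O) (h : FO ρ O a b) {ξ : Circ} (hξ : Ins (ρ a) ξ.1) :
    ∃ x, FT a b a x ∧ (ξ = lo (ρ x) ∨ ccw (lo (ρ x)) ξ (lo (ρ (a * x)⁻¹))) := by
  have hb := hO.noFix h.2.1
  obtain ⟨n, hn⟩ := (hO.noFix h.1).exists_zpow h.2.2.2.2.1.ins_lo hξ
  have h1 : FT a b a (a ^ n * b * (a ^ n)⁻¹) := by
    have h0 : a ∈ Subgroup.closure {a, b} := Subgroup.subset_closure (Or.inl rfl)
    have h2 := FT.of_mem (Subgroup.zpow_mem _ h0 n)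
    rwa [show a ^ n * a * (a ^ n)⁻¹ = a by group] at h2
  rw [add_comm n, zpow_one_add, mul_smul, ← map_zpow, ← POs_lo hb] at hn
  generalize a ^ n * b * (a ^ n)⁻¹ = x at h1 hn
  have f1 := h.ft hO h1
  have h2 := PFan_next h1
  have f2 := h.ft hO h2
  rw [← POs_lo (hO.noFix f1.2.1), show a * x * a⁻¹ = (a * (a * x)⁻¹)⁻¹ by group] at hn
  rcases hn with t | t
  · exact ⟨x, h1, Or.inl t⟩
  rcases PFan_mid (ccw.trans' f1.2.2.2.ord3 f2.2.2.2.ord3) t with t | t | t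
  · exact ⟨x, h1, Or.inr t⟩
  · exact ⟨_, h2, Or.inl t⟩
  · exact ⟨_, h2, Or.inr t⟩

/-- The fan at `a`. -/
theorem FO.fan (hO : OSys ρ O) (h : FO ρ O a b) {ξ : Circ} (hξ : Ins (ρ a) ξ.1) :
    ∃ x, FT a b a x ∧ (¬ Ins (ρ x) ξ.1 ∨ ccw (hi (ρ x)) ξ (lo (ρ (a * x)⁻¹))) := by
  obtain ⟨x, h1, h2⟩ := PFan_fan hO h hξ
  have f1 := h.ft hO h1
  have hx := hO.noFix f1.2.1
  refine ⟨x, h1, or_iff_not_imp_left.2 fun h3 => ?_⟩
  rw [not_not] at h3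
  rcases h2 with rfl | h2
  · exact (PAdj_lo hx h3).elim
  · exact ((hx.ccw_gap h3 f1.2.2.2.2.2.1.ins_lo (PAdj_lo hx) (PFace_not_hi hx)).1 h2.cyc).cyc.cyc

theorem PFan_lt {c : Γ} (hO : OSys ρ O) (h : FO ρ O x y) (h1 : Face (ρ c) (ρ x))
    (h2 : Face (ρ c) (ρ y)) (h3 : Ord3 (ρ x) (ρ c) (ρ y)) :
    TT (ρ c) (ρ (y * x)⁻¹) < TT (ρ c) (ρ (x * y)⁻¹) := by
  have h4 := det3_qv_pos h1.symm h2 h.2.2.2.2.1.symm h3
  rw [det3_swap, det3, B_comm] at h4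
  unfold TT
  rw [h.2.2.2.lift.2, (h.flip hO).2.2.2.lift.2, cr_anti (qv (ρ x)) (qv (ρ y))]
  simp only [B_add_right, B_neg_right]
  linarith

theorem PFan_rank {c : Γ} (hO : OSys ρ O) (hρ : Good ρ N) (hc : c ∈ O) :
    ∃ μ : Γ → ℕ, ∀ u ∈ O, ∀ v, Face (ρ c) (ρ u) → TT (ρ c) (ρ u) < TT (ρ c) (ρ v) → μ u < μ v := by
  refine ⟨fun v => {t | t < TT (ρ c) (ρ v) ∧
    ∃ u ∈ O, Face (ρ c) (ρ u) ∧ TT (ρ c) (ρ u) = t}.ncard, fun u hu v h1 h2 => ?_⟩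
  refine Set.ncard_lt_ncard ⟨fun t ht => ⟨ht.1.trans h2, ht.2⟩,
    fun hs => lt_irrefl _ (hs ⟨h2, u, hu, h1, rfl⟩).1⟩ ?_
  obtain ⟨s, hs⟩ := hO.finite_TT hρ hc (TT (ρ c) (ρ v))
  refine (s.finite_toSet.image fun z => TT (ρ c) (ρ z)).subset ?_
  rintro _ ⟨ht, z, hz, h3, rfl⟩
  obtain ⟨k, hk⟩ := hs z hz h3 ht.le
  refine ⟨_, hk, ?_⟩
  have h5 := TT_conj_conj h3.1 h3.2.1 (ρ (c ^ k))
  rwa [← PAdj_cj, ← PAdj_cj, show c ^ k * c * (c ^ k)⁻¹ = c by group] at h5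

theorem FO.reach (hO : OSys ρ O) (hρ : Good ρ N) (h : FO ρ O a b) {c : Γ} (hc : Adj ρ O a c) :
    ∃ x, FT a b c x := by
  by_contra hno
  have hd := hρ.toDisc
  have ne : ∀ x y, FT a b x y → c ≠ x := fun x y t e => hno ⟨y, e ▸ t⟩
  have ad : ∀ x y, FT a b x y → Adj ρ O c x := by
    intro x y t
    induction t with
    | refl => exact hc.symm hO
    | rot t ih => exact ih.trans hO hd ((h.ft hO t).adj hO hd) (ne _ _ t.flip)
    | flip t ih => exact ih.trans hO hd ((h.ft hO t).adj hO hd) (ne _ _ t.flip)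
  obtain ⟨μ, hμ⟩ := PFan_rank hO hρ hc.2.1
  have step : ∀ x y, FT a b x y → Ord3 (ρ x) (ρ c) (ρ y) → μ (y * x)⁻¹ < μ (x * y)⁻¹ :=
    fun x y t o3 => hμ _ (ad _ _ (PFan_rr t.flip)).2.1 _ (ad _ _ (PFan_rr t.flip)).face
      (PFan_lt hO (h.ft hO t) (ad _ _ t).face (ad _ _ t.flip).face o3)
  obtain ⟨⟨x, y⟩, t, hmin⟩ := exists_minimalFor_of_wellFoundedLT
    (fun q : Γ × Γ => FT a b q.1 q.2) (fun q => μ q.1 + μ q.2 + μ (q.1 * q.2)⁻¹)
    ⟨(a, b), FT.refl⟩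
  replace t : FT a b x y := t
  have hm : ∀ u v, FT a b u v → μ x + μ y + μ (x * y)⁻¹ ≤ μ u + μ v + μ (u * v)⁻¹ :=
    fun u v t' => not_lt.1 fun hl => hl.not_ge (hmin (j := (u, v)) t' hl.le)
  rcases PFrame_split (h.ft hO t).2.2.2.ord3 (ad _ _ t).face.lo_ne (ad _ _ t.flip).face.lo_ne
    (ad _ _ (PFan_rr t)).face.lo_ne with o3 | o3 | o3
  · have h1 := step _ _ t o3
    have h2 := hm _ _ t.flip
    omega
  · have h1 := step _ _ t.rot o3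
    have h2 := hm _ _ t.rot.flip
    rw [show (y * (x * y)⁻¹)⁻¹ = x by group] at h1
    omega
  · have h1 := step _ _ (PFan_rr t) o3
    have h2 := hm _ _ (PFan_rr t).flip
    rw [show ((x * y)⁻¹ * x)⁻¹ = y by group] at h1
    omega

/-- The pairs obtained without going back across an edge. -/
inductive PFanD (a b : Γ) : Γ → Γ → Prop
  | refl : PFanD a b a b
  | left {x y : Γ} : PFanD a b x y → PFanD a b (x * y)⁻¹ y
  | right {x y : Γ} : PFanD a b x y → PFanD a b x (x * y)⁻¹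

/-- The rotations of such pairs. -/
def PFanR (a b x y : Γ) : Prop :=
  PFanD a b x y ∨ PFanD a b (x * y)⁻¹ x ∨ PFanD a b y (x * y)⁻¹

theorem PFanR.rot (h : PFanR a b x y) : PFanR a b y (x * y)⁻¹ := by
  rw [PFanR, show (y * (x * y)⁻¹)⁻¹ = x by group]
  rcases h with h | h | h
  · exact Or.inr (Or.inl h)
  · exact Or.inr (Or.inr h)
  · exact Or.inl h

theorem PFanR.flip (h : PFanR a b x y) : PFanR a b y x ∨ PFanR b a y x := by
  rcases h with h | h | h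
  · cases h with
    | refl => exact Or.inr (Or.inl PFanD.refl)
    | left h => exact Or.inl (PFanR.rot (Or.inl h))
    | @right _ v h =>
      have h1 := (PFanR.rot (Or.inl h)).rot
      rw [show (v * (x * v)⁻¹)⁻¹ = x by group] at h1
      exact Or.inl h1
  · have h1 := h.left
    rw [show ((x * y)⁻¹ * x)⁻¹ = y by group] at h1
    exact Or.inl (Or.inl h1)
  · have h1 := h.right
    rw [show (y * (x * y)⁻¹)⁻¹ = x by group] at h1
    exact Or.inl (Or.inl h1)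

theorem PFan_all (h : FT a b x y) : PFanR a b x y ∨ PFanR b a x y := by
  induction h with
  | refl => exact Or.inl (Or.inl PFanD.refl)
  | rot _ ih => exact ih.imp PFanR.rot PFanR.rot
  | flip _ ih => exact ih.elim PFanR.flip fun t => t.flip.symm

theorem PFanD.inv (hO : OSys ρ O) (h : FO ρ O a b) (h1 : PFanD a b x y) :
    FO ρ O x y ∧ (∀ ξ, ccw (lo (ρ y)) ξ (lo (ρ x)) → ccw (lo (ρ b)) ξ (lo (ρ a))) ∧
      ¬ Ord3 (ρ a) (ρ x) (ρ b) ∧ ¬ Ord3 (ρ a) (ρ y) (ρ b) := by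
  induction h1 with
  | refl => exact ⟨h, fun _ t => t, fun t => t.ne12 rfl, fun t => t.ne23 rfl⟩
  | left _ ih =>
    obtain ⟨f, i1, -, i3⟩ := ih
    have o3 := ccw.cyc f.2.2.2.ord3
    exact ⟨f.rot.flip hO, fun ξ t => i1 ξ (t.trans o3), (i1 _ o3).cyc.cyc.asymm, i3⟩
  | @right x y _ ih =>
    obtain ⟨f, i1, i2, -⟩ := ih
    have o3 := ccw.cyc f.2.2.2.ord3
    exact ⟨f.ft hO (PFan_next FT.refl), fun ξ t => i1 ξ (o3.cyc.cyc.trans t.cyc.cyc).cyc, i2,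
      (i1 _ o3).cyc.cyc.asymm⟩

theorem PFanR.not (hO : OSys ρ O) (h : FO ρ O a b) (h1 : PFanR a b x y) :
    ¬ Ord3 (ρ a) (ρ x) (ρ b) := by
  rcases h1 with t | t | t
  · exact (t.inv hO h).2.2.1
  · exact (t.inv hO h).2.2.2
  · have h2 := (t.left.inv hO h).2.2.1
    rwa [show (y * (x * y)⁻¹)⁻¹ = x by group] at h2

theorem FO.not_IL (hO : OSys ρ O) (h : FO ρ O a b) (h1 : FT a b x y) : ¬ IL ρ a b x y := by
  rintro ⟨o1, o2⟩
  rcases PFan_all h1 with t | t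
  · exact t.not hO h o1
  · exact t.rot.not hO (h.flip hO) o2

theorem FO.code (hO : OSys ρ O) (hρ : Disc ρ) (h : FO ρ O a b) {c : Γ} (hc : SPair ρ O a c) :
    FT a b a c ∨ ∃ x, FT a b a x ∧ c = x * a * x⁻¹ := by
  have ac := hc.1
  obtain ⟨x, h1, h2⟩ := PFan_fan hO h ac.face.ins_lo
  have f1 := h.ft hO h1
  have h3 := PFan_next h1
  have f2 := h.ft hO h3
  by_cases e1 : x = c
  · exact Or.inl (e1 ▸ h1)
  by_cases e2 : (a * x)⁻¹ = c
  · exact Or.inl (e2 ▸ h3)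
  have xc := ((f1.adj hO hρ).symm hO).trans hO hρ ac e1
  have zc := ((f2.adj hO hρ).symm hO).trans hO hρ ac e2
  have o1 := h2.resolve_left xc.face.lo_ne.symm
  refine Or.inr ⟨_, h3, ?_⟩
  by_contra e3
  have ha := hO.noFix h.1
  have hcn := hO.noFix ac.2.1
  have o2 : ccw _ _ _ := f1.2.2.2.face_conj.2.2.2
  have e4 : lo ((ρ x)⁻¹ * ρ a * ρ x) = (ρ x)⁻¹ • lo (ρ a) := by
    simpa using ha.lo_conj (ρ x)⁻¹
  have e5 : (ρ x)⁻¹ • lo (ρ a) = ρ (a * x)⁻¹ • lo (ρ a) := by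
    rw [map_inv, map_mul, mul_inv_rev, mul_smul, inv_smul_eq_iff.2 (POs_smul_lo ha).symm]
  rw [e4] at o2
  have e6 : lo (ρ c) ≠ (ρ x)⁻¹ • lo (ρ a) := fun e =>
    e3 (hO.lo_inj hρ ac.2.1 (hO.conj a h.1 _) (by rw [POs_lo ha, ← e5, e]))
  rcases ccw_total o1.ne12 e6 o2.ne12 with t | t
  · have hx := xc.face.1
    have k1 := (ccw_smul_iff (ρ x)).2 t
    rw [smul_inv_smul, POs_smul_lo hx] at k1
    have k2 := (hx.ccw_smul xc.face.ins_lo (PAdj_lo hx)).cyc.cyc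
    have k3 := (hx.ccw_smul f1.2.2.2.2.1.symm.ins_lo (PAdj_lo hx)).cyc.cyc
    refine (hc.2 x).1 ⟨?_, ?_⟩
    · rw [Ord3, POs_lo ha]
      exact ((k2.trans k1).trans' k3).cyc
    · rw [Ord3, POs_lo hcn]
      exact k2.trans' k1
  · have hz := zc.face.1
    have az := f2.2.2.2.2.1.symm
    have t' := (t.trans' o1).cyc.cyc
    rw [e5] at t'
    generalize (a * x)⁻¹ = z at t' hz az zc
    have e7 : (ρ z)⁻¹ • lo (ρ z) = lo (ρ z) := inv_smul_eq_iff.2 (POs_smul_lo hz).symm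
    have k1 := (ccw_smul_iff (ρ z)⁻¹).2 t'
    have k2 := (ccw_smul_iff (ρ z)⁻¹).2 (hz.ccw_smul zc.face.ins_lo (PAdj_lo hz)).cyc.cyc
    have k3 := (ccw_smul_iff (ρ z)⁻¹).2 (hz.ccw_smul az.ins_lo (PAdj_lo hz)).cyc.cyc
    rw [inv_smul_smul, e7] at k1 k2 k3
    refine (hc.2 z⁻¹).2 ⟨?_, ?_⟩
    · rw [Ord3, POs_lo hcn, map_inv]
      exact k1.trans' k2
    · rw [Ord3, POs_lo ha, map_inv]
      exact (k3.trans' (k1.trans k2)).cyc.cyc

theorem FO.cover (hO : OSys ρ O) (hρ : Disc ρ) {p : Pt} (ha : a ∈ O) (h1 : Ins (ρ a) p.1)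
    (h2 : ∀ c, Adj ρ O a c → Ins (ρ c) p.1) {n : Γ → Γ}
    (h3 : ∀ c, c = a ∨ Adj ρ O a c → FO ρ O c (n c)) :
    ∃ c x, (c = a ∨ Adj ρ O a c) ∧ FT c (n c) c x ∧
      p ∈ tri (lo (ρ c)).1 (lo (ρ x)).1 (lo (ρ (c * x)⁻¹)).1 := by
  have hi : ∀ c, c = a ∨ Adj ρ O a c → Ins (ρ c) p.1 := by
    rintro c (rfl | t)
    · exact h1
    · exact h2 c t
  obtain ⟨c, ⟨hc, hc'⟩, hmin⟩ := Set.exists_min_image
    {c | (c = a ∨ Adj ρ O a c) ∧ -B (qv (ρ c)) p.1 ≤ -B (qv (ρ a)) p.1}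
    (fun c => -B (qv (ρ c)) p.1)
    ((hO.finite_level hρ p (-B (qv (ρ a)) p.1)).subset fun c hc =>
      ⟨(h3 c hc.1).1, by rw [abs_of_neg (hi c hc.1)]; exact hc.2⟩) ⟨a, Or.inl rfl, le_rfl⟩
  obtain ⟨l, s, hp, hl⟩ := exists_line_pt_circ p (lo (ρ c))
  obtain ⟨α, β, hα, e⟩ : ∃ α β : ℝ, 0 < α ∧ p.1 = α • l.src.1 + β • (lo (ρ c)).1 := by
    refine ⟨(√(-2 * B l.src.1 l.tgt.1))⁻¹ * exp (-s), (√(-2 * B l.src.1 l.tgt.1))⁻¹ * exp s,
      mul_pos (inv_pos.2 (GFermi_pos l)) (exp_pos _), ?_⟩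
    rw [← hp, GFermi_val, smul_add, smul_smul, smul_smul, hl]
  generalize l.src = η at e
  have f0 := h3 c hc
  have hη : Ins (ρ c) η.1 := by
    have h4 := hi c hc
    rw [Ins, e, B_add_right, B_smul_right, B_smul_right, (hO.noFix f0.1).B_qv_lo, mul_zero,
      add_zero] at h4
    exact neg_of_mul_neg_right h4 hα.le
  obtain ⟨x, t1, t2⟩ := PFan_fan hO f0 hη
  have f1 := f0.ft hO t1
  have o3 : ccw _ _ _ := f1.2.2.2.ord3
  have hx : x = a ∨ Adj ρ O a x := by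
    rcases hc with rfl | hc
    · exact Or.inr (f1.adj hO hρ)
    · exact or_iff_not_imp_left.2 fun e => hc.trans hO hρ (f1.adj hO hρ) (Ne.symm e)
  refine ⟨c, x, hc, t1, (mem_tri_iff o3 p).2 ⟨?_, not_lt.1 fun hlt => ?_, ?_⟩⟩
  · rw [e, det3, B_add_right, B_smul_right, B_smul_right, B_cr_left, mul_zero, add_zero]
    refine mul_nonneg hα.le ?_
    rcases t2 with rfl | t2
    · exact (B_cr_right _ _).ge
    · exact ((ccw_iff _ _ _).1 (t2.trans o3.cyc).cyc.cyc).le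
  · have h4 := f1.2.2.2.level_lt (hi x hx) hlt
    exact h4.not_ge (hmin x ⟨hx, h4.le.trans hc'⟩)
  · rw [e, det3, B_add_right, B_smul_right, B_smul_right, B_cr_right, mul_zero, add_zero]
    refine mul_nonneg hα.le ?_
    rcases t2 with rfl | t2
    · exact ((ccw_iff _ _ _).1 o3.cyc.cyc).le
    · exact ((ccw_iff _ _ _).1 (t2.trans' o3.cyc).cyc).le

end HRT
end

-- merged part: Pool.Agent.Work.MP_35beee_gt.PChain
section
/-!
A simple pair of objects lies in an embedded pair of pants.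

Plan. Fix a simple pair `a`, `b`. An arc is a translate of the pair, in either order
(`Arc`); arcs are adjacent pairs and two arcs never interlace. The partners of an object `z` are
the `w` with `Arc z w`. A chain along `γ` is a family `z : ℤ → Γ` of objects that face `γ`, with
`z (j + p) = γ * z j * γ⁻¹` (`p = 1` or `2`), `Arc (z j) (z (j + 1))`,
`Ord3 (z j) (z (j + 1)) γ`, and property K: no partner `w` of `z j` has
`Ord3 (z j) (z (j + 1)) w` and `Ord3 w (z (j - 1)) (z j)`. The `z j` tend to `lo γ` and `hi γ`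
(`NoFix.tendsto_pow`), so the inner side of `γ` on the circle is covered by the gaps of the `z j`
and the open arcs from `hi (z j)` to `lo (z (j + 1))`.
(1) No object `m` crosses `ax γ`: its inner end is not in a gap (`nc`, `ends_ne`), so `m` or `m⁻¹`
separates two consecutive `z j`.
(2) If `z'` is a chain along `γ'` (objects of `O`, so by (1) each gap is inside `γ` or inside the
gap of `γ`) and the axes cross, some arc `z' j`, `z' (j ± 1)` has one member inside `γ` and the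
other in the gap of `γ`; the inner member is some `z i` (contradicts K), lies between two
consecutive `z i` (interlaced arcs), or is not adjacent to the `z i` (some `z i` or inverse
separates the arc, `OSys.tri`).
(3) Confinement: two chains along the same `γ` agree up to a shift. All members are adjacent or
equal; `z'` leaves every interval between consecutive `z i`, the leaving arc does not interlace, so
`z' j = z i` for some `i`, `j`; by K on both chains the neighbours agree too; induction.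
This gives `stab` for `γ` (if `g` fixes `lo γ` then `g * γ * g⁻¹ = γ` by `exists_root`,
`smul_ax_iff`, `smul_ax_of_fix`, `exists_cusp_gen`) and the non-conjugacy of two chains.
(4) `γ` is not conjugate to `a` or `b`: otherwise `γ` has a partner `w`, which lies between two
consecutive `z i` (interlaced), is some `z i` (K), or is separated from `γ`.
Case `a`, `b` not conjugate: `x = b`, `y = (a * b)⁻¹`, `OSys.frame`; the chain along `y` is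
`y ^ j * a * y ^ (-j)`, `y ^ j * b * y ^ (-j)`; note `y * a * y⁻¹ = b⁻¹ * a * b`; the partners of
`a` are the `a ^ k * b * a ^ (-k)` (`mem_zpowers`), K from `NoFix.ccw_zpow`.
Case `b = t * a * t⁻¹`: the partners of `a` are `a ^ k * b * a ^ (-k)` and
`a ^ k * t⁻¹ * a * t * a ^ (-k)`; these are distinct (else `u = t * a ^ k` has `u ^ 2` in
`zpowers a`, so `u` fixes `lo a` or `u ^ 2 = 1`). Replace `t` by `t * a ^ j` so that
`t⁻¹ * a * t` lies between `b` and `a * b * a⁻¹` (`NoFix.exists_zpow`). Put `x = t`,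
`y = (a * t)⁻¹`, so `y * a * y⁻¹ = t⁻¹ * a * t` and `y⁻¹ * a * y = a * b * a⁻¹`. For `ξ` in the gap
of `a` the points `t⁻¹ • ξ`, `ξ`, `t • ξ` are in counterclockwise order (`ccw_gaps`), so
`NoFix.ins_iff_ccw` gives `Face a t`; the same for `y`; the gap of `t` lies between `b` and
`t⁻¹ * a * t`, that of `y` between `t⁻¹ * a * t` and `a * b * a⁻¹`. Chains of period one.
A parabolic `x` or `y` is a `CuspGen`, so its class is already in `O`; else `OSys.union`.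
-/

namespace HRT

open Set Filter Topology Real

variable {Γ : Type*} [Group Γ] {ρ : Γ →* Isom} {O : Set Γ} {a b : Γ}

/-- A translate of the pair, in either order. -/
def PChainArc (a b u v : Γ) : Prop :=
  ∃ g : Γ, (u = g * a * g⁻¹ ∧ v = g * b * g⁻¹) ∨ (u = g * b * g⁻¹ ∧ v = g * a * g⁻¹)

/-- Three consecutive members of a chain along `γ`. -/
def PChainCor (ρ : Γ →* Isom) (a b γ t u v : Γ) : Prop :=
  PChainArc a b t u ∧ PChainArc a b u v ∧ Ins (ρ γ) (lo (ρ u)).1 ∧ Ord3 (ρ u) (ρ v) (ρ γ) ∧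
    ∀ w, PChainArc a b u w → Ord3 (ρ u) (ρ v) (ρ w) → ¬ Ord3 (ρ u) (ρ w) (ρ t)

/-- A chain along `γ`. -/
structure PChainCh (ρ : Γ →* Isom) (a b γ : Γ) (z : ℤ → Γ) : Prop where
  pos : Pos (ρ γ)
  cor : ∀ j, PChainCor ρ a b γ (z (j - 1)) (z j) (z (j + 1))
  orb : ∀ n : ℤ, ∃ j, z j = γ ^ n * z 0 * (γ ^ n)⁻¹

variable {γ γ' t u v w : Γ} {z z' : ℤ → Γ}

theorem PChainArc.symm (h : PChainArc a b u v) : PChainArc a b v u := by
  obtain ⟨g, h⟩ := h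
  exact ⟨g, h.symm.imp And.symm And.symm⟩

theorem PChainArc.conj (h : PChainArc a b u v) (k : Γ) :
    PChainArc a b (k * u * k⁻¹) (k * v * k⁻¹) := by
  obtain ⟨g, ⟨rfl, rfl⟩ | ⟨rfl, rfl⟩⟩ := h
  · exact ⟨k * g, Or.inl ⟨by group, by group⟩⟩
  · exact ⟨k * g, Or.inr ⟨by group, by group⟩⟩

theorem PChain_self (a b : Γ) : PChainArc a b a b := ⟨1, Or.inl ⟨by group, by group⟩⟩

theorem PChain_ind {P : ℤ → Prop} (h : ∀ j, P j ↔ P (j + 1)) (i j : ℤ) (hi : P i) : P j := by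
  have h0 : ∀ j, P j ↔ P 0 := fun j => by
    induction j using Int.induction_on with
    | zero => rfl
    | succ n ih => rw [← h, ih]
    | pred n ih => rw [h, sub_add_cancel, ih]
  exact (h0 j).2 ((h0 i).1 hi)

theorem PChain_lt {g : Isom} (hg : NoFix g) {ξ : Circ} (hξ : Ins g ξ.1) {m n : ℤ}
    (h : ccw (lo g) (g ^ m • ξ) (g ^ n • ξ)) : m < n := by
  rcases lt_trichotomy m n with h1 | h1 | h1
  · exact h1
  · exact (h.ne23 (by rw [h1])).elim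
  · exact (h.asymm (hg.ccw_zpow hξ (PObj_lo hg) h1).cyc.cyc).elim

theorem PChain_lo (hv : NoFix (ρ v)) (u : Γ) (k : ℤ) :
    lo (ρ (u ^ k * v * (u ^ k)⁻¹)) = ρ u ^ k • lo (ρ v) := by
  rw [POs_lo hv, map_zpow]

theorem PChain_K (hf : Face (ρ u) (ρ v)) (k : ℤ)
    (h1 : Ord3 (ρ u) (ρ v) (ρ (u ^ k * v * (u ^ k)⁻¹))) :
    ¬ Ord3 (ρ u) (ρ (u ^ k * v * (u ^ k)⁻¹)) (ρ (u * v * u⁻¹)) := by
  intro h2
  rw [Ord3, PChain_lo hf.2.1] at h1 h2
  rw [POs_lo hf.2.1] at h2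
  have h3 := PChain_lt hf.1 hf.ins_lo (m := 0) (n := k) (by simpa using h1)
  have h4 := PChain_lt hf.1 hf.ins_lo (m := k) (n := 1) (by simpa using h2)
  omega

theorem PChain_free (hO : OSys ρ O) (hu : u ∈ O) (hf : Face (ρ u) (ρ v)) {g : Γ}
    (h1 : g * u * g⁻¹ = u) (h2 : g * v * g⁻¹ = v) : g = 1 := by
  obtain ⟨k, rfl⟩ := Subgroup.mem_zpowers_iff.mp (hO.mem_zpowers hu h1)
  have h3 := PChain_lo hf.2.1 u k
  rw [h2] at h3
  have h4 : ∀ m n : ℤ, ρ u ^ m • lo (ρ v) = ρ u ^ n • lo (ρ v) → ¬ m < n := fun m n e hl =>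
    (hf.1.ccw_zpow hf.ins_lo (PObj_lo hf.1) hl).ne12 e
  have h5 := h4 0 k (by simpa using h3)
  have h6 := h4 k 0 (by simpa using h3.symm)
  rw [show k = 0 by omega, zpow_zero]

theorem PChain_swap (hO : OSys ρ O) (hρ : Disc ρ) (hu : u ∈ O) (hf : Face (ρ u) (ρ v)) {g : Γ}
    (h1 : g * u * g⁻¹ = v) (h2 : g * v * g⁻¹ = u) : False := by
  have h3 : g * g = 1 := PChain_free hO hu hf
    (by rw [show g * g * u * (g * g)⁻¹ = g * (g * u * g⁻¹) * g⁻¹ by group, h1, h2])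
    (by rw [show g * g * v * (g * g)⁻¹ = g * (g * v * g⁻¹) * g⁻¹ by group, h2, h1])
  have h4 : g ≠ 1 := by
    rintro rfl
    exact hf.ne (by rw [← h1, one_mul, inv_one, mul_one])
  have h5 := POs_zpow (hρ.noFix h4) (k := -1)
    (by rw [zpow_neg_one, inv_eq_of_mul_eq_one_right h3])
  omega

theorem PChain_lim {g : Isom} (hg : NoFix g) {ξ : Circ} (hξ : Ins g ξ.1) {U : Set Circ}
    (hU : IsOpen U) (h : lo g ∈ U ∨ hi g ∈ U) : ∃ n : ℤ, g ^ n • ξ ∈ U := by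
  rcases h with h | h
  · obtain ⟨n, hn⟩ := ((hg.tendsto_pow (ξ := ξ) fun e => PFace_not_hi hg (e ▸ hξ)).eventually
      (hU.mem_nhds h)).exists
    exact ⟨n, by rwa [zpow_natCast]⟩
  · rw [← hg.lo_inv] at h
    obtain ⟨n, hn⟩ := ((hg.inv.tendsto_pow (ξ := ξ) fun e => PFace_not_lo hg
      (by rwa [e, hg.hi_inv] at hξ)).eventually (hU.mem_nhds h)).exists
    exact ⟨-n, by rwa [zpow_neg, zpow_natCast, ← inv_pow]⟩

theorem PChain_side (hO : OSys ρ O) (hρ : Disc ρ) {m : Γ} (hm : m ∈ O) (h : Adj ρ O u w)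
    (hu : Ins (ρ m) (lo (ρ u)).1 ∨ u = m) : Ins (ρ m) (lo (ρ w)).1 ∨ w = m := by
  have hw := hO.noFix h.2.1
  rcases hu with hu | rfl
  · rcases hO.tri hρ hm h.2.1 with e | f | ⟨-, e | f⟩ | ⟨h1, f⟩ | ⟨-, -, f⟩
    · exact Or.inr e.symm
    · exact Or.inl f.ins_lo
    · exact (PAdj_ni hw h.face.symm.ins_lo (e ▸ hu)).elim
    · exact Or.inl (f.ins (PAdj_lo' hw))
    · exact (PAdj_side hO hρ hm h1 (h.symm hO) f hu).elim
    · exact (PAdj_gap f (PAdj_ni (hO.noFix hm) hu) (PAdj_ni hw h.face.symm.ins_lo)).elim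
  · exact Or.inl h.face.ins_lo

section

variable (hO : OSys ρ O) (hρ : Disc ρ) (h : SPair ρ O a b)
include hO h

theorem PChainArc.spair (hu : PChainArc a b u v) : SPair ρ O u v := by
  obtain ⟨g, ⟨rfl, rfl⟩ | ⟨rfl, rfl⟩⟩ := hu
  · exact h.conj hO g
  · exact (h.symm hO).conj hO g

theorem PChainArc.adj (hu : PChainArc a b u v) : Adj ρ O u v := (hu.spair hO h).1

theorem PChainArc.not_IL (h1 : PChainArc a b u v) (h2 : PChainArc a b t w) : ¬ IL ρ u v t w := by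
  have hs := (h1.spair hO h).2
  obtain ⟨g, h1⟩ := h1
  obtain ⟨k, h2⟩ := h2
  have e : ∀ x, k * x * k⁻¹ = (k * g⁻¹) * (g * x * g⁻¹) * (k * g⁻¹)⁻¹ := fun x => by group
  rcases h1 with ⟨rfl, rfl⟩ | ⟨rfl, rfl⟩ <;> rcases h2 with ⟨rfl, rfl⟩ | ⟨rfl, rfl⟩ <;>
    rw [e a, e b]
  exacts [(hs _).1, (hs _).2, (hs _).2, (hs _).1]

theorem PChainCor.conj (hγ : NoFix (ρ γ)) (hc : PChainCor ρ a b γ t u v) (g : Γ) :
    PChainCor ρ a b (g * γ * g⁻¹) (g * t * g⁻¹) (g * u * g⁻¹) (g * v * g⁻¹) := by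
  obtain ⟨h1, h2, h3, h4, h5⟩ := hc
  have nt := hO.noFix (h1.adj hO h).1
  have nu := hO.noFix (h2.adj hO h).1
  have nv := hO.noFix (h2.adj hO h).2.1
  refine ⟨h1.conj g, h2.conj g, ?_, ?_, fun w hw o1 o2 => ?_⟩
  · rw [POs_lo nu, POs_conj, hγ.ins_conj_circ]
    exact h3
  · rw [Ord3, POs_lo nu, POs_lo nv, POs_lo hγ, ccw_smul_iff]
    exact h4
  · obtain ⟨w, rfl⟩ : ∃ w', w = g * w' * g⁻¹ := ⟨g⁻¹ * w * g, by group⟩
    have hw' := hw.conj g⁻¹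
    simp only [← mul_assoc, inv_mul_cancel, one_mul, inv_inv, inv_mul_cancel_right] at hw'
    have nw := hO.noFix (hw'.adj hO h).2.1
    rw [Ord3, POs_lo nu, POs_lo nw] at o1 o2
    rw [POs_lo nv, ccw_smul_iff] at o1
    rw [POs_lo nt, ccw_smul_iff] at o2
    exact h5 w hw' o1 o2

theorem PChainCh.conj (hc : PChainCh ρ a b γ z) (g : Γ) :
    PChainCh ρ a b (g * γ * g⁻¹) fun j => g * z j * g⁻¹ := by
  refine ⟨?_, fun j => (hc.cor j).conj hO h hc.pos.1 g, fun n => (hc.orb n).imp fun j hj => ?_⟩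
  · rw [POs_conj]
    exact hc.pos.conj _
  · rw [hj, conj_zpow]
    group

theorem PChainCh.mem (hc : PChainCh ρ a b γ z) (j : ℤ) : z j ∈ O := ((hc.cor j).2.1.adj hO h).1

theorem PChainCh.orb' (hc : PChainCh ρ a b γ z) (n : ℤ) :
    ∃ j, lo (ρ (z j)) = ρ γ ^ n • lo (ρ (z 0)) :=
  (hc.orb n).imp fun j hj => by rw [hj, PChain_lo (hO.noFix (hc.mem hO h 0))]

theorem PChainCh.lim (hc : PChainCh ρ a b γ z) {U : Set Circ} (hU : IsOpen U)
    (h1 : lo (ρ γ) ∈ U ∨ hi (ρ γ) ∈ U) : ∃ j, lo (ρ (z j)) ∈ U := by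
  obtain ⟨n, hn⟩ := PChain_lim hc.pos.1 (hc.cor 0).2.2.1 hU h1
  exact (hc.orb' hO h n).imp fun j hj => by rwa [hj]

theorem PChainCh.cover (hc : PChainCh ρ a b γ z) {ξ : Circ} (hξ : Ins (ρ γ) ξ.1) :
    ∃ j, ξ = lo (ρ (z j)) ∨ ccw (lo (ρ (z j))) ξ (lo (ρ (z (j + 1)))) := by
  by_contra hn
  push Not at hn
  have h1 : ∀ j, ccw (lo (ρ γ)) (lo (ρ (z j))) ξ ↔ ccw (lo (ρ γ)) (lo (ρ (z (j + 1)))) ξ := by
    intro j
    have o := ccw.cyc (ccw.cyc (hc.cor j).2.2.2.1)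
    exact ⟨fun h2 => (ccw_total o.ne13 (hn _).1.symm h2.ne13).resolve_right fun h3 =>
      (hn j).2 (h2.trans' h3), o.trans⟩
  have h0 := (hc.cor 0).2.2.1
  obtain ⟨n, h2⟩ := hc.pos.1.exists_zpow h0 hξ
  have h3 := hc.pos.1.ccw_zpow h0 (PObj_lo hc.pos.1) (lt_add_one n)
  obtain ⟨i, hi⟩ := hc.orb' hO h n
  obtain ⟨j, hj⟩ := hc.orb' hO h (n + 1)
  rw [← hi, ← hj] at h2 h3
  have h4 := h2.resolve_left (hn i).1
  exact (h4.trans' h3).cyc.cyc.asymm (PChain_ind h1 i j (h4.trans h3).cyc.cyc)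

omit hO h in
theorem PChainCh.ind (hc : PChainCh ρ a b γ z) {P : Γ → Prop}
    (hP : ∀ i j, PChainArc a b (z i) (z j) → P (z i) → P (z j)) (i j : ℤ) : P (z i) → P (z j) :=
  PChain_ind (P := fun j => P (z j))
    (fun j => ⟨hP _ _ (hc.cor j).2.1, hP _ _ (hc.cor j).2.1.symm⟩) i j

omit hO h in
theorem PChainCh.ord (hc : PChainCh ρ a b γ z) (j : ℤ) {ξ : Circ} (hξ : ¬ Ins (ρ γ) ξ.1) :
    ccw (lo (ρ (z j))) (lo (ρ (z (j + 1)))) ξ ∧ ccw (lo (ρ (z j))) ξ (lo (ρ (z (j - 1)))) := by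
  have h1 : ∀ j, ccw (lo (ρ (z j))) (lo (ρ (z (j + 1)))) ξ := fun j =>
    PObj_gap (hc.cor j).2.2.1 (hc.cor (j + 1)).2.2.1 (PObj_lo hc.pos.1) hξ (hc.cor j).2.2.2.1
  have h2 := h1 (j - 1)
  rw [sub_add_cancel] at h2
  exact ⟨h1 j, h2.cyc⟩

theorem PChainCh.cross (hc : PChainCh ρ a b γ z) (hγ : Hyp (ρ γ)) (hu : Hyp (ρ u))
    (h1 : Cross (ax (ρ u)) (ax (ρ γ))) :
    ∃ i j, Ins (ρ u) (lo (ρ (z i))).1 ∧ Ins (ρ u⁻¹) (lo (ρ (z j))).1 := by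
  rw [Cross, ← hγ.lo_eq, ← hγ.hi_eq, mul_neg_iff, ← hu.ins_iff, ← hu.ins_iff, ← hu.ins_inv_iff,
    ← hu.ins_inv_iff, ← map_inv] at h1
  obtain ⟨i, hi⟩ := hc.lim hO h (isOpen_ins (ρ u)) (h1.imp And.right And.left)
  obtain ⟨j, hj⟩ := hc.lim hO h (isOpen_ins (ρ u⁻¹)) (h1.symm.imp And.right And.left)
  exact ⟨i, j, hi, hj⟩

include hρ

theorem PChainCh.ins (hc : PChainCh ρ a b γ z) (h1 : PChainArc a b u w)
    (hu : Ins (ρ γ) (lo (ρ u)).1) : Ins (ρ γ) (lo (ρ w)).1 := by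
  by_contra hw
  obtain ⟨j, e | o⟩ := hc.cover hO h hu
  · obtain rfl := hO.lo_inj hρ (h1.adj hO h).1 (hc.mem hO h j) e
    exact (hc.cor j).2.2.2.2 w h1 (hc.ord j hw).1 (hc.ord j hw).2
  · exact (hc.cor j).2.1.not_IL hO h h1 ⟨o, (hc.ord j hw).1.cyc⟩

theorem PChainCh.not_arc (hc : PChainCh ρ a b γ z) : ¬ IsConj a γ ∧ ¬ IsConj b γ := by
  have h1 : ∀ w, ¬ PChainArc a b γ w := fun w hw =>
    PObj_lo hc.pos.1 (hc.ins hO hρ h hw.symm (hw.adj hO h).face.ins_lo)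
  refine ⟨fun h2 => ?_, fun h2 => ?_⟩ <;> obtain ⟨g, hg⟩ := isConj_iff.mp h2
  · exact h1 _ ⟨g, Or.inl ⟨hg.symm, rfl⟩⟩
  · exact h1 _ ⟨g, Or.inr ⟨hg.symm, rfl⟩⟩

theorem PChainCh.nc (hc : PChainCh ρ a b γ z) (hγ : Hyp (ρ γ)) {m : Γ} (hm : m ∈ O)
    (h1 : Hyp (ρ m)) : ¬ Cross (ax (ρ m)) (ax (ρ γ)) := by
  intro h2
  obtain ⟨i, j, hi, hj⟩ := hc.cross hO h hγ h1 h2
  rcases hc.ind (P := fun w => Ins (ρ m) (lo (ρ w)).1 ∨ w = m)
    (fun i j h3 => PChain_side hO hρ hm (h3.adj hO h)) i j (Or.inl hi) with h3 | h3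
  · exact PAdj_ni h1.noFix h3 hj
  · rw [h3] at hj
    exact PAdj_lo' h1.noFix hj

theorem PChainCh.nc' (hc : PChainCh ρ a b γ z) (hc' : PChainCh ρ a b γ' z') (hγ : Hyp (ρ γ))
    (hγ' : Hyp (ρ γ')) (g : Γ) : ¬ Cross (ρ g • ax (ρ γ)) (ax (ρ γ')) := by
  intro h2
  have h1 := POs_hyp hγ (Or.inl (POs_isConj g γ))
  rw [← ax_conj' hγ] at h2
  obtain ⟨i, j, hi, hj⟩ := hc'.cross hO h hγ' h1 h2
  exact PAdj_ni h1.noFix (hc'.ind (P := fun w => Ins (ρ (g * γ * g⁻¹)) (lo (ρ w)).1)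
    (fun i j h3 => (hc.conj hO h g).ins hO hρ h h3) i j hi) hj

theorem PChainCh.vertex (hc : PChainCh ρ a b γ z) (hc' : PChainCh ρ a b γ' z')
    (e : lo (ρ γ') = lo (ρ γ)) (h0 : Ins (ρ γ) (lo (ρ (z' 0))).1) : ∃ i j, z i = z' j := by
  by_contra hn
  push Not at hn
  have h1 : ∀ i j, lo (ρ (z i)) ≠ lo (ρ (z' j)) := fun i j e =>
    hn i j (hO.lo_inj hρ (hc.mem hO h i) (hc'.mem hO h j) e)
  obtain ⟨i, o | o⟩ := hc.cover hO h h0
  · exact h1 _ _ o.symm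
  obtain ⟨j, hj⟩ := hc'.lim hO h (isOpen_arc (lo (ρ (z (i + 1)))) (lo (ρ (z i))))
    (Or.inl (by rw [e]; exact ccw.cyc (hc.cor i).2.2.2.1))
  refine ccw.asymm (ccw.cyc (ccw.cyc hj)) (hc'.ind
    (P := fun w => ccw (lo (ρ (z i))) (lo (ρ w)) (lo (ρ (z (i + 1))))) (fun k l h3 h4 => ?_) 0 j o)
  exact (ccw_total (h1 _ _) (h1 _ _).symm h4.ne13).resolve_right fun h5 =>
    (hc.cor i).2.1.not_IL hO h h3 ⟨h4, h5.cyc⟩

theorem PChainCh.edge (hc : PChainCh ρ a b γ z) (hc' : PChainCh ρ a b γ' z')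
    (e : lo (ρ γ') = lo (ρ γ)) : ∃ i j, z i = z' j ∧ z (i + 1) = z' (j + 1) := by
  have n1 := PObj_lo hc.pos.1
  have n2 := PObj_lo hc'.pos.1
  have h0 := (hc.cor 0).2.2.1
  have h0' := (hc'.cor 0).2.2.1
  have h1 : ∃ i j, z i = z' j := by
    by_cases h2 : lo (ρ (z 0)) = lo (ρ (z' 0))
    · exact hc.vertex hO hρ h hc' e (h2 ▸ h0)
    rcases ccw_total h2 (e ▸ PObj_ne h0' n2) (PObj_ne h0 n1) with h3 | h3
    · exact hc.vertex hO hρ h hc' e (PAdj_arc hc.pos h0 h3)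
    · obtain ⟨i, j, h4⟩ := hc'.vertex hO hρ h hc e.symm (PAdj_arc hc'.pos h0' (e ▸ h3.cyc.cyc))
      exact ⟨j, i, h4.symm⟩
  obtain ⟨i, j, h1⟩ := h1
  refine ⟨i, j, h1, hO.lo_inj hρ (hc.mem hO h _) (hc'.mem hO h _) ?_⟩
  by_contra h2
  obtain ⟨o1, o2⟩ := hc.ord i n1
  obtain ⟨o3, o4⟩ := hc'.ord j n2
  rw [e, ← h1] at o3 o4
  rcases ccw_total o1.ne12 h2 o3.ne12 with h3 | h3
  · exact (hc.cor i).2.2.2.2 _ (h1 ▸ (hc'.cor j).2.1) h3 (o3.trans o2)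
  · rw [h1] at h3 o1 o4
    exact (hc'.cor j).2.2.2.2 _ (h1 ▸ (hc.cor i).2.1) h3 (o1.trans o4)

theorem PChainCh.osys (hc : PChainCh ρ a b γ z)
    (hs : ∀ g : Γ, ρ g • lo (ρ γ) = lo (ρ γ) → g ∈ Subgroup.zpowers γ) {O' : Set Γ}
    (hO' : OSys ρ O') (h1 : Hyp (ρ γ) → ∀ m ∈ O', Hyp (ρ m) → ¬ Cross (ax (ρ m)) (ax (ρ γ))) :
    OSys ρ (O' ∪ cls ρ γ) := by
  rcases hc.pos.1.hyp_or_par with h2 | h2
  · refine hO'.union hρ (simple_iff.mpr ⟨h2, fun δ n hn => ?_, fun g h3 => ?_⟩) (h1 h2)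
    · have h3 : δ * γ * δ⁻¹ = γ := by
        rw [← hn]
        group
      obtain ⟨m, hm⟩ := Subgroup.mem_zpowers_iff.mp (hs δ (by rw [← POs_lo hc.pos.1, h3]))
      have h4 : m * n = 1 := POs_zpow hc.pos.1 (by rw [zpow_mul, hm, zpow_natCast, hn])
      have h5 := Int.eq_one_or_neg_one_of_mul_eq_one' h4
      omega
    · exact hc.nc' hO hρ h hc h2 h2 g h3.symm
  · rwa [union_eq_left.mpr (hO'.cls_subset (hO'.cusp γ ⟨h2, hc.pos, hs⟩))]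

theorem PChain_per (hγ : Pos (ρ γ)) {p : ℤ} (hp : 0 < p) (h1 : ∀ j, z (j + p) = γ * z j * γ⁻¹)
    (h2 : ∀ j, 0 ≤ j → j < p → PChainCor ρ a b γ (z (j - 1)) (z j) (z (j + 1)))
    (h3 : ∀ i j, IsConj (z j) (z i) → p ∣ i - j) : PChainCh ρ a b γ z ∧
      ∀ g : Γ, ρ g • lo (ρ γ) = lo (ρ γ) → g ∈ Subgroup.zpowers γ := by
  have h4 : ∀ n j : ℤ, z (j + p * n) = γ ^ n * z j * (γ ^ n)⁻¹ := by
    intro n
    induction n using Int.induction_on with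
    | zero => simp
    | succ n ih =>
      intro j
      rw [mul_add, mul_one, ← add_assoc, h1, ih]
      group
    | pred n ih =>
      intro j
      have h5 := h1 (j - p)
      rw [sub_add_cancel] at h5
      rw [show j + p * (-(n : ℤ) - 1) = j - p + p * -(n : ℤ) by ring, ih, h5]
      group
  have hc : PChainCh ρ a b γ z := by
    refine ⟨hγ, fun j => ?_, fun n => ⟨_, h4 n 0⟩⟩
    have h5 := (h2 _ (Int.emod_nonneg j hp.ne') (Int.emod_lt_of_pos j hp)).conj hO h hγ.1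
      (γ ^ (j / p))
    have h6 := Int.emod_add_mul_ediv j p
    rwa [← h4, ← h4, ← h4, h6, sub_add_eq_add_sub, h6, add_right_comm, h6,
      show γ ^ (j / p) * γ * (γ ^ (j / p))⁻¹ = γ by group] at h5
  refine ⟨hc, fun g hg => ?_⟩
  obtain ⟨i, j, e1, e2⟩ := hc.edge hO hρ h (hc.conj hO h g) (by rw [POs_lo hγ.1, hg])
  obtain ⟨n, hn⟩ := h3 i j (e1 ▸ POs_isConj g (z j))
  obtain rfl : i = j + p * n := by omega
  rw [add_right_comm, h4] at e2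
  rw [h4] at e1
  have h5 := PChain_free hO (hc.mem hO h j) ((hc.cor j).2.1.adj hO h).face (g := (γ ^ n)⁻¹ * g)
    (by rw [show (γ ^ n)⁻¹ * g * z j * ((γ ^ n)⁻¹ * g)⁻¹ = (γ ^ n)⁻¹ * (g * z j * g⁻¹) * γ ^ n by
      group, ← e1]; group)
    (by rw [show (γ ^ n)⁻¹ * g * z (j + 1) * ((γ ^ n)⁻¹ * g)⁻¹ =
      (γ ^ n)⁻¹ * (g * z (j + 1) * g⁻¹) * γ ^ n by group, ← e2]; group)
  exact Subgroup.mem_zpowers_iff.mpr ⟨n, inv_mul_eq_one.mp h5⟩

theorem PChain_one (e1 : γ * a * γ⁻¹ = v) (e2 : γ⁻¹ * a * γ = w) (h1 : PChainArc a b a v)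
    (o1 : Ord3 (ρ a) (ρ v) (ρ w)) (o2 : Ord3 (ρ a) (ρ w) (ρ (a * v * a⁻¹)))
    (h2 : ∀ u, PChainArc a b a u →
      ∃ k : ℤ, u = a ^ k * v * (a ^ k)⁻¹ ∨ u = a ^ k * w * (a ^ k)⁻¹) :
    Face (ρ a) (ρ γ) ∧ PChainCh ρ a b γ (fun j => γ ^ j * a * (γ ^ j)⁻¹) ∧
      ∀ g : Γ, ρ g • lo (ρ γ) = lo (ρ γ) → g ∈ Subgroup.zpowers γ := by
  have h3 : PChainArc a b w a := by
    have := h1.conj γ⁻¹
    rwa [← e1, inv_inv, e2, show γ⁻¹ * (γ * a * γ⁻¹) * γ = a by group] at this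
  have a1 := h1.adj hO h
  have a2 := h3.adj hO h
  have a3 := a2.trans hO hρ a1 fun e => ccw.ne23 o1 (by rw [e])
  have na := a1.face.1
  have nγ : NoFix (ρ γ) := hρ.noFix (by
    rintro rfl
    exact a1.face.ne (by rw [← e1, one_mul, inv_one, mul_one]))
  have f1 : Face (ρ a) (ρ γ) := by
    refine ⟨na, nγ, fun ξ => or_iff_not_imp_left.mpr fun hξ => ?_⟩
    have b1 : ¬ Ins (ρ v) (ρ γ • ξ).1 := by rwa [← e1, POs_conj, na.ins_conj_circ]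
    have b2 : ¬ Ins (ρ w) (ρ γ⁻¹ • ξ).1 := by
      have := na.ins_conj_circ (ρ γ⁻¹) ξ
      rwa [← POs_conj, inv_inv, e2, ← this.not] at *
    have b3 := (ccw_smul_iff (ρ γ)).2 ((ccw_gaps a1.face a3.face.symm a2.face hξ b1 b2).2 o1)
    rw [map_inv, smul_inv_smul] at b3
    exact (nγ.ins_iff_ccw ξ).2 b3.cyc.cyc
  refine ⟨f1, PChain_per hO hρ h f1.symm.pos one_pos (fun j => by group) (fun j j0 j1 => ?_)
    fun i j _ => one_dvd _⟩
  obtain rfl : j = 0 := by omega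
  simp only [zero_sub, zero_add, zpow_neg, zpow_one, zpow_zero, inv_inv, one_mul, inv_one, mul_one,
    e1, e2]
  refine ⟨h3, h1, f1.symm.ins_lo, ?_, fun u hu o3 o4 => ?_⟩
  · rw [Ord3, ← e1, POs_lo na]
    exact nγ.ccw_smul f1.symm.ins_lo (PObj_lo nγ)
  · obtain ⟨k, rfl | rfl⟩ := h2 u hu
    · exact PChain_K a1.face k o3 (ccw.trans o4 o2)
    · have b1 := o2.conj na a2.face.1 (hO.noFix (hO.conj _ a1.2.1 a)) (ρ a⁻¹)
      have b2 := (a2.conj hO a⁻¹).face.symm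
      rw [← POs_conj, ← POs_conj, ← POs_conj, show a⁻¹ * (a * v * a⁻¹) * a⁻¹⁻¹ = v by group] at b1
      rw [show a⁻¹ * a * a⁻¹⁻¹ = a by group] at b1 b2
      have b3 := PChain_K b2 (k + 1)
      rw [show a ^ (k + 1) * (a⁻¹ * w * a⁻¹⁻¹) * (a ^ (k + 1))⁻¹ = a ^ k * w * (a ^ k)⁻¹ by group,
        show a * (a⁻¹ * w * a⁻¹⁻¹) * a⁻¹ = w by group] at b3
      exact b3 (ccw.trans b1 o3) o4

theorem PChain_two (hn : ¬ IsConj a b) : ∃ z, PChainCh ρ a b (a * b)⁻¹ z ∧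
    ∀ g : Γ, ρ g • lo (ρ (a * b)⁻¹) = lo (ρ (a * b)⁻¹) → g ∈ Subgroup.zpowers (a * b)⁻¹ := by
  have hf := hO.frame hρ h.1.1 h.1.2.1 h.1.face
  obtain ⟨-, f1, -, o1⟩ := hf.face_conj
  rw [← map_inv, ← map_mul, ← map_mul] at f1 o1
  generalize hy : (a * b)⁻¹ = y at hf o1
  have e1 : y ^ (-1 : ℤ) * b * (y ^ (-1 : ℤ))⁻¹ = a * b * a⁻¹ := by
    rw [← hy]
    group
  have e2 : y ^ (1 : ℤ) * a * (y ^ (1 : ℤ))⁻¹ = b⁻¹ * a * b := by
    rw [← hy]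
    group
  refine ⟨fun j => y ^ (j / 2) * (if j % 2 = 0 then a else b) * (y ^ (j / 2))⁻¹,
    PChain_per hO hρ h hf.2.2.2.pos two_pos (fun j => ?_) (fun j j0 j1 => ?_) fun i j h1 => ?_⟩
  · rw [show (j + 2) / 2 = j / 2 + 1 by omega, show (j + 2) % 2 = j % 2 by omega]
    group
  · obtain rfl | rfl : j = 0 ∨ j = 1 := by omega
    · norm_num only [if_true, if_false, e1, zpow_zero, one_mul, inv_one, mul_one]
      refine ⟨⟨a, Or.inr ⟨rfl, by group⟩⟩, PChain_self a b, hf.2.2.2.ins_lo, hf.ord3, ?_⟩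
      rintro _ ⟨g, ⟨e, rfl⟩ | ⟨e, rfl⟩⟩
      · obtain ⟨k, rfl⟩ := Subgroup.mem_zpowers_iff.mp (hO.mem_zpowers h.1.1 e.symm)
        exact PChain_K h.1.face k
      · exact (hn (e ▸ POs_isConj g b).symm).elim
    · norm_num only [if_true, if_false, e2, zpow_zero, one_mul, inv_one, mul_one]
      refine ⟨PChain_self a b, ⟨b⁻¹, Or.inr ⟨by group, by group⟩⟩, hf.2.2.1.symm.ins_lo, o1, ?_⟩
      rintro _ ⟨g, ⟨e, rfl⟩ | ⟨e, rfl⟩⟩
      · exact (hn (e ▸ POs_isConj g a)).elim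
      · obtain ⟨k, rfl⟩ := Subgroup.mem_zpowers_iff.mp (hO.mem_zpowers h.1.2.1 e.symm)
        have b3 := PChain_K f1 (k + 1)
        rwa [show b ^ (k + 1) * (b⁻¹ * a * b) * (b ^ (k + 1))⁻¹ = b ^ k * a * (b ^ k)⁻¹ by group,
          show b * (b⁻¹ * a * b) * b⁻¹ = a by group] at b3
  · have h2 := ((POs_isConj _ _).trans h1).trans (POs_isConj _ _).symm
    split_ifs at h2
    · omega
    · exact (hn h2).elim
    · exact (hn h2.symm).elim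
    · omega

theorem PChain_norm (hc : IsConj a b) : ∃ t : Γ, t * a * t⁻¹ = b ∧
    Ord3 (ρ a) (ρ b) (ρ (t⁻¹ * a * t)) ∧ Ord3 (ρ a) (ρ (t⁻¹ * a * t)) (ρ (a * b * a⁻¹)) := by
  obtain ⟨t, e⟩ := isConj_iff.mp hc
  have hf := h.1.face
  have h1 := (h.1.conj hO t⁻¹).symm hO
  rw [show t⁻¹ * b * t⁻¹⁻¹ = a by rw [← e]; group] at h1
  obtain ⟨n, h2 | h2⟩ := hf.1.exists_zpow hf.ins_lo h1.face.ins_lo
  · rw [← PChain_lo hf.2.1] at h2
    have h3 := hO.lo_inj hρ h1.2.1 (hO.conj b h.1.2.1 _) h2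
    refine (PChain_swap hO hρ h.1.1 hf (g := t * a ^ n) (by rw [← e]; group) ?_).elim
    rw [show t * a ^ n * b * (t * a ^ n)⁻¹ = t * (a ^ n * b * (a ^ n)⁻¹) * t⁻¹ by group, ← h3]
    group
  · have h3 := (ccw_smul_iff (ρ a ^ (-n))).2 h2
    rw [← PChain_lo h1.face.2.1, smul_smul, smul_smul, ← zpow_add, ← zpow_add, neg_add_cancel,
      neg_add_cancel_left, zpow_zero, one_smul, zpow_one] at h3
    have h4 := hf.ord3_conj
    rw [← POs_conj] at h4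
    refine ⟨t * a ^ n, by rw [← e]; group, ?_⟩
    rw [show (t * a ^ n)⁻¹ * a * (t * a ^ n) = a ^ (-n) * (t⁻¹ * a * t⁻¹⁻¹) * (a ^ (-n))⁻¹ by group]
    rw [← POs_lo hf.2.1] at h3
    exact ⟨(h3.trans h4.cyc).cyc.cyc, (h3.trans' h4.cyc).cyc.cyc⟩

end

theorem SPair.exists_frame (hO : OSys ρ O) (hρ : Disc ρ) (h : SPair ρ O a b) :
    ∃ x y : Γ, Frame (ρ a) (ρ x) (ρ y) ∧ (x = b ∨ b = x * a * x⁻¹) ∧
      OSys ρ (O ∪ cls ρ x ∪ cls ρ y) ∧ ¬ IsConj a x ∧ ¬ IsConj x y ∧ ¬ IsConj y a := by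
  have ha := h.1.1
  have hf := h.1.face
  by_cases hc : IsConj a b
  swap
  · obtain ⟨z, h1, h2⟩ := PChain_two hO hρ h hc
    obtain ⟨h3, h4⟩ := h1.not_arc hO hρ h
    refine ⟨b, (a * b)⁻¹, hO.frame hρ ha h.1.2.1 hf, Or.inl rfl, ?_, hc, h4, fun e => h3 e.symm⟩
    rw [union_eq_left.mpr (hO.cls_subset h.1.2.1)]
    exact h1.osys hO hρ h h2 hO fun h5 m => h1.nc hO hρ h h5
  obtain ⟨t, e, o1, o2⟩ := PChain_norm hO hρ h hc
  have h0 : ∀ u, PChainArc a b a u →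
      ∃ k : ℤ, u = a ^ k * b * (a ^ k)⁻¹ ∨ u = a ^ k * (t⁻¹ * a * t) * (a ^ k)⁻¹ := by
    rintro _ ⟨g, ⟨e1, rfl⟩ | ⟨e1, rfl⟩⟩
    · obtain ⟨k, rfl⟩ := Subgroup.mem_zpowers_iff.mp (hO.mem_zpowers ha e1.symm)
      exact ⟨k, Or.inl rfl⟩
    · obtain ⟨k, hk⟩ := Subgroup.mem_zpowers_iff.mp (hO.mem_zpowers ha (g := g * t)
        (by rw [show g * t * a * (g * t)⁻¹ = g * (t * a * t⁻¹) * g⁻¹ by group, e, ← e1]))
      exact ⟨k, Or.inr (by rw [hk]; group)⟩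
  have hA : PChainArc a b a (t⁻¹ * a * t) := ⟨t⁻¹, Or.inr ⟨by rw [← e]; group, by group⟩⟩
  have nc := (hA.adj hO h).face.2.1
  have o3 := o1.conj hf.1 hf.2.1 nc (ρ a)
  rw [← POs_conj, ← POs_conj, ← POs_conj, mul_inv_cancel_right] at o3
  have e1 : (a * t)⁻¹ * a * (a * t)⁻¹⁻¹ = t⁻¹ * a * t := by group
  obtain ⟨f1, c1, s1⟩ := PChain_one hO hρ h e rfl (PChain_self a b) o1 o2 h0
  obtain ⟨f2, c2, s2⟩ := PChain_one hO hρ h (γ := (a * t)⁻¹) (w := a * b * a⁻¹) e1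
    (by rw [← e]; group) hA o2 o3 fun u hu => by
      obtain ⟨k, rfl | rfl⟩ := h0 u hu
      · exact ⟨k - 1, Or.inr (by group)⟩
      · exact ⟨k, Or.inl rfl⟩
  refine ⟨t, (a * t)⁻¹, ⟨by rw [← map_mul, ← map_mul, mul_inv_cancel, map_one], f1,
    ⟨f1.2.1, f2.2.1, fun ξ => or_iff_not_imp_left.mpr fun h1 => ?_⟩, f2.symm⟩, Or.inr e.symm, ?_,
    (c1.not_arc hO hρ h).1, fun h1 => ?_, fun h1 => (c2.not_arc hO hρ h).1 h1.symm⟩
  · by_contra h2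
    have h3 := (c1.ord 0 h1).2
    have h4 := (c2.ord 0 h2).1
    simp only [zero_sub, zero_add, zpow_neg, zpow_one, zpow_zero, inv_inv, one_mul, inv_one,
      mul_one] at h3 h4
    rw [inv_inv] at e1
    rw [e1] at h4
    exact h3.asymm h4
  · refine c2.osys hO hρ h s2 (c1.osys hO hρ h s1 hO fun h5 m => c1.nc hO hρ h h5) ?_
    rintro h5 m (hm | hm) h6
    · exact c2.nc hO hρ h h5 hm h6
    · have h7 : Hyp (ρ t) := by rwa [Hyp, tl_of_mem_cls hm] at h6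
      obtain ⟨g, hg | hg⟩ := POs_ax h7 hm
      · exact hg ▸ c1.nc' hO hρ h c2 h7 h5 g
      · rw [hg, cross_rev_left]
        exact c1.nc' hO hρ h c2 h7 h5 g
  · obtain ⟨g, hg⟩ := isConj_iff.mp h1
    obtain ⟨i, j, e2, e3⟩ := c2.edge hO hρ h (c1.conj hO h g) (by rw [hg])
    generalize (a * t)⁻¹ = y at e1 e2 e3
    refine PChain_swap hO hρ ha hf (g := t * (y ^ i)⁻¹ * g * t ^ j) ?_ ?_
    · rw [show t * (y ^ i)⁻¹ * g * t ^ j * a * (t * (y ^ i)⁻¹ * g * t ^ j)⁻¹ =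
        t * (y ^ i)⁻¹ * (g * (t ^ j * a * (t ^ j)⁻¹) * g⁻¹) * y ^ i * t⁻¹ by group, ← e2, ← e]
      group
    · rw [← e, show t * (y ^ i)⁻¹ * g * t ^ j * (t * a * t⁻¹) * (t * (y ^ i)⁻¹ * g * t ^ j)⁻¹ =
        t * (y ^ i)⁻¹ * (g * (t ^ (j + 1) * a * (t ^ (j + 1))⁻¹) * g⁻¹) * y ^ i * t⁻¹ by group,
        ← e3, show t * (y ^ i)⁻¹ * (y ^ (i + 1) * a * (y ^ (i + 1))⁻¹) * y ^ i * t⁻¹ =
        t * (y * a * y⁻¹) * t⁻¹ by group, e1]
      group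

end HRT
end
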