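import Pool.Agent.Work.MP_35beee_gt.MDefs

/-!
Measured laminations and Thurston's boundary, seen through length functions.
-/

namespace HRT

open Set

variable {Γ : Type*} [Group Γ]

/-- Measured laminations: limits of weighted length functions of simple closed curves. -/
def ML (ρ : Γ →* Isom) : Set (Teich ρ → ℝ) :=
  closure {w | ∃ (γ : Γ) (s : ℝ), Simple ρ γ ∧ 0 ≤ s ∧ w = fun z => s * len z γ}

/-- Projective measured laminations, as normalised logarithms of length functions. -/
def PML {ρ : Γ →* Isom} (b : Teich ρ) : Set C(Teich ρ, ℝ) :=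
  {f | ∃ w ∈ ML ρ, 0 < w b ∧ ∀ z, f z = Real.log (w z / w b)}

/-- The measured laminations whose length function is at most `exp f`. -/
def below {ρ : Γ →* Isom} (f : Teich ρ → ℝ) : Set (Teich ρ → ℝ) :=
  {w | w ∈ ML ρ ∧ ∀ z, w z ≤ Real.exp (f z)}

end HRT
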