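import Pool.Agent.Work.MP_35beee_gt.GMarked
import Pool.Agent.Work.MP_35beee_gt.PFace

-- merged part: Pool.Agent.Work.MP_35beee_gt.MBox
section
/-!
The Liouville measure of a box is the logarithm of a cross ratio.

Plan. `liou_box`: let `A` be the line from `d` to `c`; then `arc c d` is the left side of `A`, the
points `a`, `b` are on the right, `fer A a < fer A b` and `crs a b c d = fer A b - fer A a` (unfold
`fer`). Apply `Cur.real_arc` for the group `Isom`, `MonoidHom.id` and `g = trans A (fer b - fer a)`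
(`ax_eq_of_sh_pos`, `eq_of_fer_eq`, `ic_liou`); the lines that start at `a` are a null set
(`liou_side`). `exp_crs`: Ptolemy; with `A` as above write `a`, `b` by `circ_eq` or `expand`
(`gcross_gram`, `gcross_coord`): `B a b * B c d` is computed from `fer A a`, `fer A b`; with
`t = crs a b c d` one finds `exp (crs b c d a) = exp t / (exp t - 1)`. `crs_orbit`: the cross ratio
does not change if the vectors are scaled, so use `v k = lin (s ^ k) a`; by invariance
`exp crs = B (v 0) (v 2) / B (v 0) (v 1)`, and Cayley-Hamilton `s ^ 2 - tr s • s + tr s - s⁻¹ = 0`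
(or `IsLift`) gives `B (v 0) (v 2) = (tr s + 1) * B (v 0) (v 1)`; `cosh_tl` bounds `tr s`. The order
`ccw a (s • s • a) (s⁻¹ • a)` comes from a fixed point of `s` on the circle.
-/

namespace HRT

open Set Filter Topology Real MeasureTheory

/-- The logarithm of the cross ratio. -/
noncomputable def crs (a b c d : Circ) : ℝ :=
  (log (-B a.1 c.1) + log (-B b.1 d.1) - log (-B a.1 d.1) - log (-B b.1 c.1)) / 2

theorem MBox_fer {a b c d : Circ} (hdc : d ≠ c) (ha : side (Geo.mk' d c hdc) a.1 ≠ 0)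
    (hb : side (Geo.mk' d c hdc) b.1 ≠ 0) :
    crs a b c d = fer (Geo.mk' d c hdc) b.1 - fer (Geo.mk' d c hdc) a.1 := by
  obtain ⟨h1, h2⟩ := gcross_neg _ ha
  obtain ⟨h3, h4⟩ := gcross_neg _ hb
  simp only [Geo.src_mk', Geo.tgt_mk'] at h1 h2 h3 h4
  simp only [crs, fer, Geo.src_mk', Geo.tgt_mk', log_neg_eq_log]
  rw [log_div h1.ne h2.ne, log_div h3.ne h4.ne]
  ring

theorem MBox_side {a b c d : Circ} (h1 : ccw a b c) (h2 : ccw a c d) :
    side (Geo.mk' d c h2.ne23.symm) a.1 < 0 ∧ side (Geo.mk' d c h2.ne23.symm) b.1 < 0 ∧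
      fer (Geo.mk' d c h2.ne23.symm) a.1 < fer (Geo.mk' d c h2.ne23.symm) b.1 := by
  have ha : side (Geo.mk' d c h2.ne23.symm) a.1 < 0 := (side_neg_iff _ _).2 h2.cyc.cyc
  have hb : side (Geo.mk' d c h2.ne23.symm) b.1 < 0 :=
    (side_neg_iff _ _).2 (h1.trans' h2).cyc.cyc
  exact ⟨ha, hb, (ccw_iff_fer_right _ ha hb).1 (h1.trans h2).cyc.cyc⟩

theorem crs_pos {a b c d : Circ} (h1 : ccw a b c) (h2 : ccw a c d) : 0 < crs a b c d := by
  obtain ⟨ha, hb, h⟩ := MBox_side h1 h2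
  rw [MBox_fer _ ha.ne hb.ne]
  linarith

theorem MBox_move (A : Geo) {x y : Circ} (h : 0 < side A x.1 * side A y.1) :
    trans A (fer A y.1 - fer A x.1) • x = y := by
  have hx : side A x.1 ≠ 0 := left_ne_zero_of_mul h.ne'
  have h0 := trans_smul A (fer A y.1 - fer A x.1)
  have h1 := fer_smul_circ (trans A (fer A y.1 - fer A x.1)) A hx
  have h2 := side_smul_circ_pos (trans A (fer A y.1 - fer A x.1)) A x
  have h3 := side_smul_circ_neg (trans A (fer A y.1 - fer A x.1)) A x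
  rw [h0] at h1 h2 h3
  rw [sh_trans] at h1
  refine eq_of_fer_eq A ?_ (by linarith only [h1])
  rcases pos_and_pos_or_neg_and_neg_of_mul_pos h with ⟨h4, h5⟩ | ⟨h4, h5⟩
  · exact mul_pos (h2.2 h4) h5
  · exact mul_pos_of_neg_of_neg (h3.2 h4) h5

theorem liou_box {a b c d : Circ} (h1 : ccw a b c) (h2 : ccw a c d) :
    liou (box a b c d) = ENNReal.ofReal (crs a b c d) := by
  obtain ⟨ha, hb, h⟩ := MBox_side h1 h2
  rw [MBox_fer _ ha.ne hb.ne]
  set A := Geo.mk' d c h2.ne23.symm with hA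
  set g := trans A (fer A b.1 - fer A a.1) with hg
  have h0 : g • A = A := trans_smul _ _
  have h3 : sh g A = fer A b.1 - fer A a.1 := sh_trans _ _
  obtain ⟨h4, h5⟩ := ax_eq_of_sh_pos h0 (by rw [h3]; linarith only [h])
  have h6 : g • a = b := MBox_move A (mul_pos_of_neg_of_neg ha hb)
  have h7 := Cur.real_arc (ρ := MonoidHom.id Isom) (cur_liou _) (g := g) h4 (x := a)
    (by simpa [h5] using ha)
  simp only [MonoidHom.id_apply, h5, h6] at h7
  rw [ic_liou, tl_of_smul_eq h0, h3, abs_of_pos (by linarith only [h])] at h7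
  rw [← h7]
  have ha0 : a.1 ≠ 0 := fun e => by simpa [e] using a.2.2
  refine le_antisymm (measure_mono fun l hl => ⟨Or.inr hl.1, ?_⟩) ?_
  · exact (side_pos_iff _ _).2 (ccw.cyc (ccw.cyc hl.2))
  · calc _ ≤ liou (box a b c d ∪ {l | side l a.1 = 0}) := by
          refine measure_mono fun l hl => ?_
          rcases hl.1 with h8 | h8
          · exact Or.inr ((side_eq_zero_iff l a).2 (Or.inl h8.symm))
          · exact Or.inl ⟨h8, ((side_pos_iff _ _).1 hl.2).cyc⟩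
      _ ≤ liou (box a b c d) + liou {l | side l a.1 = 0} := measure_union_le _ _
      _ = liou (box a b c d) := by rw [liou_side ha0, add_zero]

theorem MBox_exp {a b c d : Circ} (h1 : a ≠ c) (h2 : b ≠ d) (h3 : a ≠ d) (h4 : b ≠ c) :
    exp (crs a b c d) ^ 2 = B a.1 c.1 * B b.1 d.1 / (B a.1 d.1 * B b.1 c.1) := by
  have e1 := B_circ_neg h1
  have e2 := B_circ_neg h2
  have e3 := B_circ_neg h3
  have e4 := B_circ_neg h4
  rw [← exp_nat_mul, crs]
  push_cast
  rw [mul_div_cancel₀ _ two_ne_zero, exp_sub, exp_sub, exp_add, exp_log (by linarith),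
    exp_log (by linarith), exp_log (by linarith), exp_log (by linarith)]
  field_simp

theorem MBox_B (ξ : Circ) (r s : ℝ) : B (GCircVec ξ r) (GCircVec ξ s) =
    -(2 * (s - r) ^ 2 / ((r ^ 2 + 1) * (s ^ 2 + 1))) := by
  have h := GCirc_sq ξ
  have h1 := (GCirc_pos r).ne'
  have h2 := (GCirc_pos s).ne'
  simp only [B, GCircVec_0, GCircVec_1, GCircVec_2]
  field_simp
  linear_combination ((r ^ 2 - 1) * (s ^ 2 - 1) + 4 * r * s) * h

theorem exp_crs {a b c d : Circ} (h1 : ccw a b c) (h2 : ccw a c d) :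
    exp (-crs a b c d) + exp (-crs b c d a) = 1 := by
  have h3 := h1.trans h2
  have h4 := h1.trans' h2
  have e1 := MBox_exp h1.ne13 h4.ne13 h2.ne13 h1.ne23
  have e2 := MBox_exp h4.ne13 h1.ne13.symm h1.ne12.symm h2.ne23
  have hr := GCirc_lt h1
  have hs := GCirc_lt h2
  have hb : b.1 = GCircVec a (GCircPsi a b) := congrArg Subtype.val (GCirc_right h1.ne12.symm).symm
  have hc : c.1 = GCircVec a (GCircPsi a c) := congrArg Subtype.val (GCirc_right h1.ne13.symm).symm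
  have hd : d.1 = GCircVec a (GCircPsi a d) := congrArg Subtype.val (GCirc_right h2.ne13.symm).symm
  generalize GCircPsi a b = r at *
  generalize GCircPsi a c = s at *
  generalize GCircPsi a d = t at *
  rw [B_comm c.1 a.1, B_comm b.1 a.1] at e2
  rw [hb, hc, hd] at e1 e2
  simp only [GCirc_B, MBox_B] at e1 e2
  have p1 := (GCirc_pos r).ne'
  have p2 := (GCirc_pos s).ne'
  have p3 := (GCirc_pos t).ne'
  have q1 : 0 < s - r := by linarith only [hr]
  have q2 : 0 < t - s := by linarith only [hs]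
  have q3 : 0 < t - r := by linarith only [hr, hs]
  have f1 : exp (crs a b c d) = (t - r) / (s - r) := by
    refine (pow_left_inj₀ (exp_pos _).le (div_pos q3 q1).le two_ne_zero).1 ?_
    rw [e1]
    field_simp
  have f2 : exp (crs b c d a) = (t - r) / (t - s) := by
    refine (pow_left_inj₀ (exp_pos _).le (div_pos q3 q2).le two_ne_zero).1 ?_
    rw [e2]
    field_simp
  rw [exp_neg, exp_neg, f1, f2]
  field_simp
  ring

theorem pull_box {h : Circ ≃ₜ Circ} (hh : Ori h) {a b c d : Circ} (h1 : ccw a b c)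
    (h2 : ccw a c d) : pull h (box a b c d) = ENNReal.ofReal (crs (h a) (h b) (h c) (h d)) := by
  rw [pull_apply h (isOpen_box a b c d).measurableSet, hh.image_box,
    liou_box (hh _ _ _ h1) (hh _ _ _ h2)]

/-- If a box is not too heavy, the opposite box is not too light. -/
theorem exists_le_pull_box (C : ℝ) : ∃ δ > 0, ∀ h : Circ ≃ₜ Circ, Ori h → ∀ a b c d : Circ,
    ccw a b c → ccw a c d → pull h (box a b c d) ≤ ENNReal.ofReal C →
      ENNReal.ofReal δ ≤ pull h (box b c d a) := by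
  have hC : 0 < max C 1 := lt_of_lt_of_le one_pos (le_max_right _ _)
  have h0 : exp (-max C 1) < 1 := exp_lt_one_iff.2 (by linarith)
  have h1 : 0 < 1 - exp (-max C 1) := by linarith
  refine ⟨-log (1 - exp (-max C 1)), neg_pos.2 (log_neg h1 (by linarith [exp_pos (-max C 1)])),
    fun h hh a b c d h2 h3 h4 => ?_⟩
  rw [pull_box hh h2 h3] at h4
  rw [pull_box hh (h2.trans' h3) (h2.trans h3).cyc]
  have h5 : crs (h a) (h b) (h c) (h d) ≤ max C 1 :=
    (ENNReal.ofReal_le_ofReal_iff hC.le).1 (h4.trans (ENNReal.ofReal_le_ofReal (le_max_left _ _)))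
  have h6 := exp_crs (hh _ _ _ h2) (hh _ _ _ h3)
  have h7 : exp (-max C 1) ≤ exp (-crs (h a) (h b) (h c) (h d)) := exp_le_exp.2 (by linarith)
  refine ENNReal.ofReal_le_ofReal ?_
  rw [neg_le, le_log_iff_exp_le h1]
  linarith

theorem MBox_order {s : Isom} (hs : NoFix s) {a : Circ} (h : ccw a (s • a) (s • s • a)) :
    ccw a (s • s • a) (s⁻¹ • a) := by
  obtain ⟨ξ, hξ⟩ : ∃ ξ : Circ, s • ξ = ξ := by
    rcases hs.hyp_or_par with h1 | h1
    · exact ⟨_, (h1.fix_iff _).2 (Or.inl rfl)⟩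
    · exact ⟨_, (h1.fix_iff _).2 rfl⟩
  have n0 : a ≠ ξ := fun e => h.ne12 (by rw [e, hξ])
  have n1 : ∀ x, x ≠ ξ → s • x ≠ ξ := fun x hx e => hx (smul_left_cancel s (e.trans hξ.symm))
  have n2 : s⁻¹ • a ≠ ξ := fun e => n0 (by rw [← hξ, ← e, smul_inv_smul])
  obtain ⟨ψ, h1, h2⟩ := GBox_chart ξ
  have h3 : ∀ x y, x ≠ ξ → y ≠ ξ → (ψ (s • x) < ψ (s • y) ↔ ψ x < ψ y) := by
    intro x y hx hy
    rw [← h1 _ _ hx hy, ← h1 _ _ (n1 x hx) (n1 y hy), ← ccw_smul_iff s (a := ξ) (b := x), hξ]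
  have h4 := (h2 _ _ _ n0 (n1 _ n0) (n1 _ (n1 _ n0))).1 h
  have h5 := h3 _ _ n0 (n1 _ n0)
  have h6 := h3 _ _ (n1 _ n0) n0
  have h7 := h3 _ _ n2 n0
  rw [smul_inv_smul] at h7
  have h8 : ψ a < ψ (s • a) := by
    rcases h4 with h4 | h4 | h4
    · exact h4.1
    · exact h5.1 h4.1
    · exact h4.2
  exact (h2 _ _ _ n0 (n1 _ (n1 _ n0)) n2).2 (Or.inr (Or.inr ⟨h7.1 h8, h8.trans (h5.2 h8)⟩))

theorem MBox_qm {a : V} (ha : B a a = 0) (c : ℝ) (u : V) : B a (qm c u a) = -2 * B u a ^ 2 := by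
  rw [qm, B_sub_right, B_add_right, B_smul_right, B_smul_right, B_smul_right, ha, B_comm a (cr u a),
    B_cr_right, B_comm a u]
  ring

theorem MBox_orbit {s : Isom} {c : ℝ} {u : V} (hs : IsLift s c u) {a : Circ}
    (h1 : ccw a (s • a) (s • s • a)) (h2 : ccw a (s • s • a) (s⁻¹ • a)) :
    exp (crs a (s • a) (s • s • a) (s⁻¹ • a)) = 4 * c ^ 2 := by
  have e := MBox_exp h1.ne13 (h1.trans' h2).ne13 h2.ne13 h1.ne23
  have k1 : B a.1 (lin s (lin s a.1)) = 4 * c ^ 2 * B a.1 (lin s a.1) := by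
    have h3 := (hs.mul hs).2 a.1
    rw [lin_mul] at h3
    rw [h3, hs.2, MBox_qm a.2.1, MBox_qm a.2.1, B_add_left, B_add_left, B_smul_left]
    have h4 : B (cr u u) a.1 = 0 := by
      simp only [B, cr_0, cr_1, cr_2]
      ring
    rw [h4]
    ring
  have k2 : B a.1 (lin s⁻¹ a.1) = B a.1 (lin s a.1) := by rw [← B_lin_left, B_comm]
  have k3 : B (lin s a.1) (lin s⁻¹ a.1) = B a.1 (lin s (lin s a.1)) := by
    rw [← B_lin_left, B_comm]
  have k4 : B (lin s a.1) (lin s (lin s a.1)) = B a.1 (lin s a.1) := B_lin _ _ _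
  have k5 : B a.1 (lin s a.1) ≠ 0 := by
    rw [lin_circ_val, B_smul_right]
    exact mul_ne_zero (lin_circ_pos s a).ne' (B_circ_neg h1.ne12).ne
  have p1 := (lin_circ_pos s a).ne'
  have p2 := (lin_circ_pos s (s • a)).ne'
  have p3 := (lin_circ_pos s⁻¹ a).ne'
  rw [smul_circ_val s (s • a), smul_circ_val s⁻¹ a] at e
  generalize lin s (s • a).1 2 = x at e p2
  rw [smul_circ_val s a, lin_smul] at e
  simp only [B_smul_left, B_smul_right, k3, k2, k4, k1] at e
  refine (pow_left_inj₀ (exp_pos _).le (by positivity) two_ne_zero).1 ?_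
  rw [e]
  field_simp

theorem liou_box_orbit' {s : Isom} (hs : NoFix s) {a : Circ} (h : ccw a (s • a) (s • s • a)) :
    liou (box a (s • a) (s • s • a) (s⁻¹ • a)) ≤ ENNReal.ofReal (tl s + 2) := by
  have h2 := MBox_order hs h
  obtain ⟨c, u, hl⟩ := exists_lift s
  have hc : 1 ≤ |c| := by
    by_contra h3
    obtain ⟨p, hp⟩ := hl.exists_fix (not_le.1 h3)
    exact hs p hp
  rw [liou_box h h2]
  refine ENNReal.ofReal_le_ofReal (exp_le_exp.1 ?_)
  have h4 : cosh (tl s / 2) ≤ exp (tl s / 2) := by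
    rw [cosh_eq]
    have := exp_le_exp.2 (show -(tl s / 2) ≤ tl s / 2 by linarith only [tl_nonneg s])
    linarith only [this]
  have h5 : (2 : ℝ) ≤ exp 1 := by linarith [add_one_le_exp (1 : ℝ)]
  have h6 : exp (tl s + 2) = (exp 1 * exp (tl s / 2)) ^ 2 := by
    rw [← exp_add, ← exp_nat_mul]
    congr 1
    push_cast
    ring
  rw [MBox_orbit hl h h2, h6, ← sq_abs c, ← hl.cosh_tl hc]
  have h7 : 2 * cosh (tl s / 2) ≤ exp 1 * exp (tl s / 2) :=
    mul_le_mul h5 h4 (cosh_pos _).le (exp_pos _).le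
  calc 4 * cosh (tl s / 2) ^ 2 = (2 * cosh (tl s / 2)) ^ 2 := by ring
    _ ≤ _ := pow_le_pow_left₀ (by positivity) h7 2

theorem MBox_disj {a b c d x : Circ} (h1 : ccw a b c) (h2 : ccw a c d) (h3 : x ∈ carc a b) :
    x ∉ carc c d := by
  intro h4
  by_cases hx : x = a
  · exact h4 (hx ▸ h2.cyc)
  obtain ⟨ψ, k1, k2⟩ := GBox_chart a
  have nb := h1.ne12.symm
  have nc := h1.ne13.symm
  have nd := h2.ne13.symm
  have e1 := (k1 _ _ nb nc).1 h1
  have e3 : ψ x ≤ ψ b := not_lt.1 fun e => h3 ((k1 _ _ nb hx).2 e)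
  exact h4 ((k2 _ _ _ nc nd hx).2 (Or.inr (Or.inr ⟨by linarith, (k1 _ _ nc nd).1 h2⟩)))

theorem isCompact_cbox {a b c d : Circ} (h1 : ccw a b c) (h2 : ccw a c d) :
    IsCompact {l : Geo | l.src ∈ carc a b ∧ l.tgt ∈ carc c d} := by
  have h3 : IsCompact (carc a b ×ˢ carc c d) :=
    (isClosed_carc a b).isCompact.prod (isClosed_carc c d).isCompact
  have h4 : IsInducing (Subtype.val : Geo → Circ × Circ) := IsInducing.subtypeVal
  refine h4.isCompact_preimage' h3 ?_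
  rintro ⟨x, y⟩ ⟨hx, hy⟩
  exact ⟨⟨(x, y), fun e => MBox_disj h1 h2 hx (by simpa [show x = y from e] using hy)⟩, rfl⟩

/-- Boxes are a basis of neighbourhoods. -/
theorem exists_box_subset {l : Geo} {O : Set Geo} (hO : O ∈ 𝓝 l) : ∃ a b c d : Circ,
    ccw a b c ∧ ccw a c d ∧ l ∈ box a b c d ∧
      {m : Geo | m.src ∈ carc a b ∧ m.tgt ∈ carc c d} ⊆ O := by
  have h4 : IsInducing (Subtype.val : Geo → Circ × Circ) := IsInducing.subtypeVal
  obtain ⟨S, hS, hSO⟩ := mem_comap.1 ((h4.nhds_eq_comap l).ge hO)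
  obtain ⟨U, hU, W, hW, hUW⟩ := mem_nhds_prod_iff.1 hS
  obtain ⟨U', W', hU', hW', hd⟩ := t2_separation_nhds l.ne
  obtain ⟨a, b, hab, k1⟩ := exists_arc_subset (inter_mem hU hU')
  obtain ⟨c, d, hcd, k2⟩ := exists_arc_subset (inter_mem hW hW')
  have n : ∀ x, x ∈ carc a b → x ∈ carc c d → False := fun x e1 e2 =>
    Set.disjoint_left.1 hd (k1 e1).2 (k2 e2).2
  refine ⟨a, b, c, d, ?_, ?_, ⟨hab, hcd⟩, fun m hm => hSO (hUW ⟨(k1 hm.1).1, (k2 hm.2).1⟩)⟩
  · by_contra e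
    exact n c e ((mem_carc hcd.ne13).2 (Or.inl rfl))
  · by_contra e
    exact n a ((mem_carc hab.ne13).2 (Or.inl rfl)) fun e' => e e'.cyc.cyc

theorem box_subset_xs {a b c d : Circ} (h1 : ccw a b c) (h2 : ccw a c d) {l : Geo}
    (hl : l ∈ box a b c d) : {m : Geo | m.src ∈ carc b c ∧ m.tgt ∈ carc d a} ⊆ xs l univ := by
  intro m hm
  have hx : ccw a l.src b := hl.1
  have hy : ccw c l.tgt d := hl.2
  obtain ⟨ψ, k1, k2⟩ := GBox_chart l.src
  have na := hx.ne12
  have nb := hx.ne23.symm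
  have nc : c ≠ l.src := fun e => hx.asymm (e ▸ h1)
  have nd : d ≠ l.src := fun e => hx.asymm (e ▸ h1.trans h2)
  have ny := l.ne.symm
  have e1 := (k1 _ _ nb na).1 hx.cyc
  have e2 : ψ b < ψ c ∧ ψ c < ψ a := by
    rcases (k2 _ _ _ na nb nc).1 h1 with e | e | e
    · exact absurd e.1 (by linarith)
    · exact e
    · exact absurd e.2 (by linarith)
  have e3 : ψ c < ψ d ∧ ψ d < ψ a := by
    rcases (k2 _ _ _ na nc nd).1 h2 with e | e | e
    · exact absurd e.1 (by linarith)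
    · exact e
    · exact absurd e.2 (by linarith)
  have e4 : ψ c < ψ l.tgt ∧ ψ l.tgt < ψ d := by
    rcases (k2 _ _ _ nc ny nd).1 hy with e | e | e
    · exact e
    · exact absurd e.2 (by linarith)
    · exact absurd e.1 (by linarith)
  have np : m.src ≠ l.src := fun e => hm.1 (e ▸ ((k1 _ _ nb nc).2 e2.1).cyc)
  have nq : m.tgt ≠ l.src := fun e => hm.2 (e ▸ ((k1 _ _ nd na).2 e3.2).cyc)
  have e5 : ψ m.src ≤ ψ c := not_lt.1 fun e => hm.1 ((k2 _ _ _ nb nc np).2 (Or.inl ⟨e2.1, e⟩))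
  have e6 : ψ d ≤ ψ m.tgt :=
    not_lt.1 fun e => hm.2 ((k2 _ _ _ nd na nq).2 (Or.inr (Or.inr ⟨e, e3.2⟩)))
  exact ⟨(side_neg_iff _ _).2 ((k1 _ _ np ny).2 (by linarith)),
    (side_pos_iff _ _).2 ((k1 _ _ ny nq).2 (by linarith)), mem_univ _⟩

/-- The isometries act transitively on positively oriented triples. -/
theorem exists_isom_triple {a b c a' b' c' : Circ} (h : ccw a b c) (h' : ccw a' b' c') :
    ∃ g : Isom, g • a = a' ∧ g • b = b' ∧ g • c = c' := by
  obtain ⟨g, hg, -⟩ := exists_isom_line (Geo.mk' a b h.ne12) (Geo.mk' a' b' h'.ne12) 0 0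
  set A := Geo.mk' a' b' h'.ne12 with hA
  have h1 : 0 < side A (g • c).1 := by
    rw [← hg, side_smul_circ_pos]
    exact (side_pos_iff _ _).2 h
  have h2 : 0 < side A c'.1 := (side_pos_iff _ _).2 h'
  have h3 := trans_smul A (fer A c'.1 - fer A (g • c).1)
  refine ⟨trans A (fer A c'.1 - fer A (g • c).1) * g, ?_, ?_, ?_⟩
  · rw [mul_smul, show g • a = A.src from congrArg Geo.src hg]
    exact congrArg Geo.src h3
  · rw [mul_smul, show g • b = A.tgt from congrArg Geo.tgt hg]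
    exact congrArg Geo.tgt h3
  · rw [mul_smul]
    exact MBox_move A (mul_pos h1 h2)

end HRT
end

-- merged part: Pool.Agent.Work.MP_35beee_gt.MUniA
section
/-!
Markings with bounded rescaled lengths off a multicurve: local bounds and the limit measure.

Plan. Copy the proofs in `GLimA` (`GLimA_fix0`, `GLimA_fix`, `le_of_fix`, `small_of_cross_self`,
`exists_lim`), with `liou_box_orbit'` in place of `liou_box_orbit`. `loc`: a line is not simple
(`exists_box_one`), or crosses a lift of `α` (a conjugate `s` of `α a` or of its inverse,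
`GLimA_lift`; `bdd` applies to `α a` by `inter_self`, `multi_iff`, `inter_eq_zero_iff`;
`exists_nhds_le_ic`, `ic_pull`), or `Cover` applies. `Th.mem_core`: `exists_core_const`,
`side_ne_zero_of_cusp`, `ax_eq_of_share`, `inter_eq_zero_iff`.
-/

namespace HRT

open Set Filter Topology Real MeasureTheory

variable {Γ : Type*} [Group Γ] {ρ : Γ →* Isom} {N : ℝ → ℝ} {ι I : Type} {α : ι → Γ}
  {U : Ultrafilter I} {c : I → ℝ} {σ : I → Γ →* Isom} {k : I → Circ ≃ₜ Circ}

/-- Simple curves that do not cross the multicurve and are not components of it. -/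
def Th (ρ : Γ →* Isom) {ι : Type} (α : ι → Γ) (β : Γ) : Prop :=
  Simple ρ β ∧ (∀ a, inter ρ β (α a) = 0) ∧ ax (ρ β) ∉ lifts ρ α

/-- Markings whose rescaled lengths are bounded off the multicurve. -/
structure Bdd (ρ : Γ →* Isom) {ι I : Type} (α : ι → Γ) (U : Ultrafilter I) (c : I → ℝ)
    (σ : I → Γ →* Isom) (k : I → Circ ≃ₜ Circ) : Prop where
  mark : ∀ n, IsMark ρ (σ n) (k n)
  one_le : ∀ᶠ n in U, 1 ≤ c n
  bdd : ∀ β, Simple ρ β → (∀ a, inter ρ β (α a) = 0) → ∃ C, ∀ᶠ n in U, tl (σ n β) ≤ C * c n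

theorem MUniA_noFix {τ : Γ →* Isom} {h : Circ ≃ₜ Circ} (hm : IsMark ρ τ h) {s : Γ}
    (hs : NoFix (ρ s)) : NoFix (τ s) := by
  rcases hs.hyp_or_par with h | h
  · exact (hm.hyp h).1.noFix
  · exact (hm.par h).1.1

theorem MUniA_fix0 {l : Geo} {s : Γ} (hs : NoFix (ρ s)) (h1 : ccw l.tgt l.src (ρ s • l.src))
    (h2 : ρ s • l.tgt = l.tgt) : ∃ O, IsOpen O ∧ l ∈ O ∧
    ∀ (τ : Γ →* Isom) (h : Circ ≃ₜ Circ), IsMark ρ τ h →
      pull h O ≤ ENNReal.ofReal (tl (τ s) + 2) := by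
  obtain ⟨a, a1, a2, a3⟩ := GLimA_orbit h2 h1
  refine ⟨box a (ρ s • a) (ρ s • ρ s • a) ((ρ s)⁻¹ • a), isOpen_box _ _ _ _, ⟨a2, a3⟩,
    fun τ h hm => ?_⟩
  have a4 := hm.1 _ _ _ a1
  rw [pull_apply _ (isOpen_box _ _ _ _).measurableSet, hm.ori.image_box, ← map_inv]
  simp only [hm.2] at a4 ⊢
  rw [map_inv]
  exact liou_box_orbit' (MUniA_noFix hm hs) a4

theorem MUniA_fix {l : Geo} {s : Γ} (hs : NoFix (ρ s)) (h1 : ρ s • l.src ≠ l.src)
    (h2 : ρ s • l.tgt = l.tgt) : ∃ O, IsOpen O ∧ l ∈ O ∧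
    ∀ (τ : Γ →* Isom) (h : Circ ≃ₜ Circ), IsMark ρ τ h →
      pull h O ≤ ENNReal.ofReal (tl (τ s) + 2) := by
  rcases ccw_total l.ne.symm h1.symm
    (fun h => l.ne (smul_left_cancel (ρ s) (h.symm.trans h2.symm))) with h | h
  · exact MUniA_fix0 hs h h2
  · have h3 : (ρ s)⁻¹ • l.tgt = l.tgt := inv_smul_eq_iff.2 h2.symm
    have h4 := (ccw_smul_iff (ρ s)⁻¹).2 h
    rw [h3, inv_smul_smul] at h4
    have := MUniA_fix0 (ρ := ρ) (l := l) (s := s⁻¹)
      (by rw [map_inv]; exact fun p hp => hs p (inv_smul_eq_iff.1 hp).symm)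
      (by rwa [map_inv]) (by rwa [map_inv])
    simpa only [map_inv, tl_inv] using this

theorem MUniA_le (hd : Bdd ρ α U c σ k) {O : Set Geo} {C D : ℝ} (hD : 0 ≤ D)
    (h : ∀ᶠ n in U, pull (k n) O ≤ ENNReal.ofReal (C * c n + D)) :
    ∀ᶠ n in U, resc c k n O ≤ ENNReal.ofReal (C + D) := by
  filter_upwards [h, hd.one_le] with n h1 h2
  have h3 : 0 < c n := one_pos.trans_le h2
  rw [resc, Measure.smul_apply, smul_eq_mul]
  refine (mul_le_mul_right h1 _).trans ?_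
  rw [← ENNReal.ofReal_mul (inv_nonneg.2 h3.le)]
  refine ENNReal.ofReal_le_ofReal ?_
  rw [mul_add, mul_comm C, inv_mul_cancel_left₀ h3.ne']
  exact add_le_add_right (mul_le_of_le_one_left hD (inv_le_one_of_one_le₀ h2)) C

theorem exists_th_core [Finite ι] (hρ : Good ρ N) (hα : Multi ρ α) :
    ∃ R w : ℝ, 0 < w ∧ ∀ β, Th ρ α β → ax (ρ β) ∈ Core ρ α R w := by
  obtain ⟨R, w, hw, h⟩ := exists_core_const hρ hα
  refine ⟨R, w, hw, fun β hβ => h _ hβ.1.line
    (fun h => hρ.toDisc.side_ne_zero_of_cusp hβ.1.hyp h (side_src _))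
    (fun h => hρ.toDisc.side_ne_zero_of_cusp hβ.1.hyp h (side_tgt _)) fun m hm => ?_⟩
  refine lt_of_le_of_ne (not_lt.1 fun h1 : Cross m _ => ?_) fun h1 => ?_
  · obtain ⟨a, g, h2⟩ := hm
    refine (hρ.toDisc.inter_eq_zero_iff hβ.1.hyp (hα.1 a).hyp (hα.1 a).prim).1 (hβ.2.1 a) g ?_
    rcases h2 with rfl | rfl
    · exact h1.symm
    · exact (cross_rev_left.1 h1).symm
  · obtain ⟨a, s, hs, -, rfl⟩ := GLimA_lift hα hm
    rcases hρ.toDisc.ax_eq_of_share hs.hyp hβ.1.hyp (mul_eq_zero.1 h1.symm) with h2 | h2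
    · exact hβ.2.2 (h2 ▸ hm)
    · exact hβ.2.2 (h2 ▸ rev_mem_lifts hm)

/-- A line that shares exactly one end with the fixed points of `s`. -/
theorem exists_nhds_le_of_fix {l : Geo} {s : Γ} (hs : NoFix (ρ s))
    (hl : (ρ s • l.src = l.src ∧ ρ s • l.tgt ≠ l.tgt) ∨
      (ρ s • l.src ≠ l.src ∧ ρ s • l.tgt = l.tgt)) : ∃ O, IsOpen O ∧ l ∈ O ∧
    ∀ (τ : Γ →* Isom) (h : Circ ≃ₜ Circ), IsMark ρ τ h →
      pull h O ≤ ENNReal.ofReal (tl (τ s) + 2) := by
  rcases hl with hl | hl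
  · obtain ⟨O, h1, h2, h3⟩ := MUniA_fix (l := l.rev) hs hl.2 hl.1
    refine ⟨_, h1.preimage Geo.continuous_rev, h2, fun τ h hm => ?_⟩
    rw [hm.cur_pull.rev.measure_preimage h1.measurableSet.nullMeasurableSet]
    exact h3 τ h hm
  · exact MUniA_fix hs hl.1 hl.2

theorem Bdd.cur_resc (hd : Bdd ρ α U c σ k) (n : I) : Cur ρ (resc c k n) := by
  have h := (hd.mark n).cur_pull
  have := h.fin
  exact ⟨.smul _ ENNReal.ofReal_ne_top, fun g => (h.smul g).smul_measure _, h.rev.smul_measure _⟩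

theorem Bdd.ic_resc (hd : Bdd ρ α U c σ k) :
    ∀ᶠ n in U, ∀ g, ic (resc c k n) (ρ g) = tl (σ n g) / c n := by
  filter_upwards [hd.one_le] with n hn g
  rw [← (hd.mark n).ic_pull g, ic, ic, resc, measureReal_ennreal_smul_apply,
    ENNReal.toReal_ofReal (inv_nonneg.2 (zero_le_one.trans hn)), div_eq_inv_mul]

theorem Bdd.loc (hd : Bdd ρ α U c σ k) (hρ : Disc ρ) (hα : Multi ρ α) (hc : Cover ρ α) {l : Geo}
    (hl : l ∉ lifts ρ α) : ∃ O, IsOpen O ∧ l ∈ O ∧ ∃ C : ℝ,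
      ∀ᶠ n in U, resc c k n O ≤ ENNReal.ofReal C := by
  have hcross : ∀ s C, Hyp (ρ s) → (∀ᶠ n in U, tl (σ n s) ≤ C * c n) → Cross l (ax (ρ s)) →
      ∃ O, IsOpen O ∧ l ∈ O ∧ ∃ C : ℝ, ∀ᶠ n in U, resc c k n O ≤ ENNReal.ofReal C := by
    intro s C h1 h2 h3
    obtain ⟨O, a1, a2, a3⟩ := exists_nhds_le_ic h1 h3
    refine ⟨O, a1, a2, _, MUniA_le hd (C := C) le_rfl (h2.mono fun n hn => ?_)⟩
    refine (a3 _ (hd.mark n).cur_pull).trans (ENNReal.ofReal_le_ofReal ?_)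
    rwa [(hd.mark n).ic_pull, add_zero]
  have hfix : ∀ s C, NoFix (ρ s) → (∀ᶠ n in U, tl (σ n s) ≤ C * c n) →
      (ρ s • l.src = l.src ∧ ρ s • l.tgt ≠ l.tgt) ∨ (ρ s • l.src ≠ l.src ∧ ρ s • l.tgt = l.tgt) →
      ∃ O, IsOpen O ∧ l ∈ O ∧ ∃ C : ℝ, ∀ᶠ n in U, resc c k n O ≤ ENNReal.ofReal C := by
    intro s C h1 h2 h3
    obtain ⟨O, a1, a2, a3⟩ := exists_nhds_le_of_fix h1 h3
    exact ⟨O, a1, a2, _, MUniA_le hd (C := C) zero_le_two (h2.mono fun n hn =>
      (a3 _ _ (hd.mark n)).trans (ENNReal.ofReal_le_ofReal (add_le_add_left hn 2)))⟩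
  have hp : ∀ u, Par (ρ u) → ∀ᶠ n in U, tl (σ n u) ≤ 0 * c n := fun u hu =>
    Eventually.of_forall fun n => by rw [((hd.mark n).par hu).1.2, zero_mul]
  by_cases h1 : SimpleLine ρ l
  swap
  · obtain ⟨g, hg⟩ := not_forall.1 h1
    obtain ⟨a, b, c', d, h1, h2, h3, h4⟩ := exists_box_of_cross (not_not.1 hg)
    obtain ⟨C, hC⟩ := exists_box_one
    have key : ∀ O, (∀ᶠ n in U, pull (k n) O ≤ ENNReal.ofReal C) →
        ∃ C : ℝ, ∀ᶠ n in U, resc c k n O ≤ ENNReal.ofReal C := fun O h =>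
      ⟨_, MUniA_le hd (C := 0) (abs_nonneg C) (h.mono fun n hn => hn.trans
        (ENNReal.ofReal_le_ofReal (by rw [zero_mul, zero_add]; exact le_abs_self C)))⟩
    have ho := isOpen_box b c' d a
    have hg' : Continuous fun m : Geo => ρ g • m := continuous_const_smul _
    rcases Ultrafilter.eventually_or.1 (Eventually.of_forall (f := U)
      fun n => hC (k n) (hd.mark n).ori a b c' d h1 h2) with h | h
    · exact ⟨_, isOpen_box _ _ _ _, h3, key _ h⟩
    rcases h4 with h4 | h4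
    · refine ⟨_, ho.preimage hg', h4, key _ (h.mono fun n hn => ?_)⟩
      rwa [((hd.mark n).cur_pull.smul g).measure_preimage ho.measurableSet.nullMeasurableSet]
    · have ho' := ho.preimage Geo.continuous_rev
      refine ⟨_, ho'.preimage hg', h4, key _ (h.mono fun n hn => ?_)⟩
      rwa [((hd.mark n).cur_pull.smul g).measure_preimage ho'.measurableSet.nullMeasurableSet,
        (hd.mark n).cur_pull.rev.measure_preimage ho.measurableSet.nullMeasurableSet]
  by_cases h2 : ∃ m ∈ lifts ρ α, Cross l m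
  · obtain ⟨m, hm, h2⟩ := h2
    obtain ⟨a, s, hs, ht, rfl⟩ := GLimA_lift hα hm
    obtain ⟨C, hC⟩ := hd.bdd (α a) (hα.1 a) fun a' =>
      (hρ.inter_eq_zero_iff (hα.1 a).hyp (hα.1 a').hyp (hα.1 a').prim).2 fun g =>
        GSys_nc' hρ hα (ax_mem_lifts a) (smul_mem_lifts g (ax_mem_lifts a'))
    exact hcross s C hs.hyp (by simpa only [ht] using hC) h2
  rcases (hc l h1 fun m hm hx => h2 ⟨m, hm, hx⟩).resolve_left hl with
    ⟨u, hu, e⟩ | ⟨u, hu, e⟩ | ⟨β, b1, b2, b3⟩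
  · exact hfix u 0 hu.1 (hp u hu) (.inl ⟨(hu.fix_iff _).2 e.symm,
      fun h => l.ne (e.symm.trans ((hu.fix_iff _).1 h).symm)⟩)
  · exact hfix u 0 hu.1 (hp u hu) (.inr ⟨fun h => l.ne (((hu.fix_iff _).1 h).trans e),
      (hu.fix_iff _).2 e.symm⟩)
  · obtain ⟨C, hC⟩ := hd.bdd β b1 b2
    rcases b3 with b3 | ⟨b3, b4, b5⟩
    · exact hcross β C b1.hyp hC b3
    · exact hfix β C b1.hyp.noFix hC (GLimA_share b1.hyp b3 b4 b5)

theorem Bdd.le_of_isCompact (hd : Bdd ρ α U c σ k) (hρ : Disc ρ) (hα : Multi ρ α)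
    (hc : Cover ρ α) {K : Set Geo} (hK : IsCompact K) (hl : ∀ l ∈ K, l ∉ lifts ρ α) :
    ∃ C : ℝ, ∀ᶠ n in U, resc c k n K ≤ ENNReal.ofReal C := by
  refine hK.induction_on (p := fun K => ∃ C : ℝ, ∀ᶠ n in U, resc c k n K ≤ ENNReal.ofReal C)
    ⟨0, Eventually.of_forall fun n => by simp⟩ ?_ ?_ fun l hl' => ?_
  · rintro s t hst ⟨C, hC⟩
    exact ⟨C, hC.mono fun n hn => (measure_mono hst).trans hn⟩
  · rintro s t ⟨C, hC⟩ ⟨D, hD⟩
    refine ⟨|C| + |D|, ?_⟩
    filter_upwards [hC, hD] with n h1 h2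
    rw [ENNReal.ofReal_add (abs_nonneg _) (abs_nonneg _)]
    exact (measure_union_le _ _).trans (add_le_add
      (h1.trans (ENNReal.ofReal_le_ofReal (le_abs_self _)))
      (h2.trans (ENNReal.ofReal_le_ofReal (le_abs_self _))))
  · obtain ⟨O, h1, h2, h3⟩ := hd.loc hρ hα hc (hl l hl')
    exact ⟨O, mem_nhdsWithin_of_mem_nhds (h1.mem_nhds h2), h3⟩

theorem Bdd.exists_lim [Finite ι] (hd : Bdd ρ α U c σ k) (hρ : Disc ρ) (hα : Multi ρ α)
    (hc : Cover ρ α) : ∃ ν : Measure Geo, IsULim U (resc c k) (lifts ρ α)ᶜ ν ∧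
      (∀ g : Γ, MeasurePreserving (fun l : Geo => ρ g • l) ν ν) ∧
        MeasurePreserving Geo.rev ν ν := by
  have hW := (isClosed_lifts hρ fun a => (hα.1 a).hyp).isOpen_compl
  obtain ⟨ν, h1, h2⟩ := exists_isULim U (resc c k) hW fun l hl => by
    obtain ⟨O, a1, a2, C, a3⟩ := hd.loc hρ hα hc hl
    exact ⟨O, a1, a2, ENNReal.ofReal C, ENNReal.ofReal_lt_top, a3⟩
  refine ⟨ν, h1, fun g => ?_, ?_⟩
  · refine h2 (Homeomorph.smul (ρ g)) (Set.ext fun l => not_congr ⟨fun h => ?_, smul_mem_lifts g⟩)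
      fun n => (hd.cur_resc n).smul g
    have := smul_mem_lifts g⁻¹ h
    rwa [map_inv, Homeomorph.smul_apply, inv_smul_smul] at this
  · exact h2 ⟨⟨Geo.rev, Geo.rev, Geo.rev_rev, Geo.rev_rev⟩, Geo.continuous_rev, Geo.continuous_rev⟩
      (Set.ext fun l => not_congr ⟨rev_mem_lifts, rev_mem_lifts⟩)
      fun n => (hd.cur_resc n).rev

end HRT
end

-- merged part: Pool.Agent.Work.MP_35beee_gt.MUni
section
/-!
Uniform convergence of lengths of simple curves in the complement of a multicurve.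

Plan. `uni`: take `ν` from `Bdd.exists_lim` and `C` from `block`, `T` with `2 C / T ≤ η`. For `n`,
`m` in the large set, `ic_le_of_block` (constant `2 C`) gives
`tl (σ n β) / c n ≤ tl (σ m β) / c m + η * tl (ρ β)`; pass to the limit in `m`.
`exists_block_ge`: a line `A` of the core has a box neighbourhood of bounded mass (`loc`,
`exists_box_subset`), the opposite box has mass at least `δ` (`exists_le_pull_box`), and its lines
cross all lines of a compact neighbourhood of `A` at bounded parameters (`box_subset_xs`,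
`isCompact_cbox`, `continuousAt_xp`). Compactness of the core lines near `o`, invariance
(`Cur.xs_smul`, `smul_pt`, `|t| ≤ dist o (pt A t)` as `fer A o = 0`). `phi`: `le_ic_of_block`.
-/

namespace HRT

open Set Filter Topology Real MeasureTheory

variable {Γ : Type*} [Group Γ] {ρ : Γ →* Isom} {N : ℝ → ℝ} {ι I : Type} {α : ι → Γ}
  {U : Ultrafilter I} {c : I → ℝ} {σ : I → Γ →* Isom} {k : I → Circ ≃ₜ Circ}

theorem Bdd.uni [Finite ι] (hd : Bdd ρ α U c σ k) (hρ : Good ρ N) (hα : Multi ρ α)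
    (hc : Cover ρ α) {A : Γ → ℝ}
    (hA : ∀ β, Th ρ α β → Tendsto (fun n => tl (σ n β) / c n) U (𝓝 (A β))) {η : ℝ} (hη : 0 < η) :
    ∀ᶠ n in U, ∀ β, Th ρ α β → |tl (σ n β) / c n - A β| ≤ η * tl (ρ β) := by
  obtain ⟨R, w, hw, hcore⟩ := exists_th_core hρ hα
  obtain ⟨ν, hl, h1, h2⟩ := hd.exists_lim hρ.toDisc hα hc
  obtain ⟨C, hC, hb⟩ := block hρ.toDisc (fun a => (hα.1 a).hyp) hw hd.cur_resc h1 h2 hl R
  have hT : 0 < (2 * C + 1) / η := by positivity
  have hE := (hb _ hT).and hd.ic_resc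
  have hη' : (C + C) / ((2 * C + 1) / η) ≤ η := by
    rw [div_le_iff₀ hT, mul_div_cancel₀ _ hη.ne']
    linarith only []
  have key : ∀ n m β, Th ρ α β →
      ((∀ A ∈ Core ρ α R w, ∀ t, resc c k n (xs A (Ico t (t + (2 * C + 1) / η))) ≤
        ν (xs A (Ico t (t + (2 * C + 1) / η))) + ENNReal.ofReal C ∧
        ν (xs A (Ico t (t + (2 * C + 1) / η))) ≤
          resc c k n (xs A (Ico t (t + (2 * C + 1) / η))) + ENNReal.ofReal C) ∧
        ∀ g, ic (resc c k n) (ρ g) = tl (σ n g) / c n) →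
      ((∀ A ∈ Core ρ α R w, ∀ t, resc c k m (xs A (Ico t (t + (2 * C + 1) / η))) ≤
        ν (xs A (Ico t (t + (2 * C + 1) / η))) + ENNReal.ofReal C ∧
        ν (xs A (Ico t (t + (2 * C + 1) / η))) ≤
          resc c k m (xs A (Ico t (t + (2 * C + 1) / η))) + ENNReal.ofReal C) ∧
        ∀ g, ic (resc c k m) (ρ g) = tl (σ m g) / c m) →
      tl (σ n β) / c n ≤ tl (σ m β) / c m + η * tl (ρ β) := by
    intro n m β hβ hn hm
    have h3 := ic_le_of_block (hd.cur_resc n) (hd.cur_resc m) hβ.1.hyp hT (add_nonneg hC hC)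
      fun t => by
        rw [ENNReal.ofReal_add hC hC, ← add_assoc]
        exact (hn.1 _ (hcore β hβ) t).1.trans (add_le_add_left (hm.1 _ (hcore β hβ) t).2 _)
    rw [hn.2, hm.2] at h3
    exact h3.trans (add_le_add_right (mul_le_mul_of_nonneg_right hη' hβ.1.hyp.le) _)
  filter_upwards [hE] with n hn β hβ
  have h4 : tl (σ n β) / c n - η * tl (ρ β) ≤ A β :=
    ge_of_tendsto (hA β hβ) (hE.mono fun m hm => by linarith only [key, hβ, hn, hm, key n m β hβ hn hm])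
  have h5 : A β ≤ tl (σ n β) / c n + η * tl (ρ β) :=
    le_of_tendsto (hA β hβ) (hE.mono fun m hm => key m n β hβ hm hn)
  rw [abs_le]
  constructor <;> linarith only [h5, h4]

theorem MUni_not_mem {R w : ℝ} (hw : 0 < w) {A : Geo} (hA : A ∈ Core ρ α R w) :
    A ∉ lifts ρ α := fun h => by
  have h1 := hA.2.2 A h
  rw [B_nrm_nrm, abs_one] at h1
  exact absurd (one_lt_cosh.2 hw.ne') h1.not_gt

theorem MUni_loc (hd : Bdd ρ α U (fun _ => 1) σ k) (hρ : Disc ρ) (hα : Multi ρ α)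
    (hc : Cover ρ α) {A₀ : Geo} (h0 : A₀ ∉ lifts ρ α) : ∃ W ∈ 𝓝 A₀, ∃ δ > 0, ∃ S : ℝ,
      ∀ᶠ n in U, ∀ A ∈ W, ENNReal.ofReal δ ≤ pull (k n) (xs A (Icc (-S) S)) := by
  obtain ⟨O, hO, hAO, C, hC⟩ := hd.loc hρ hα hc h0
  obtain ⟨a, b, e, d, h1, h2, hbox, hsub⟩ := exists_box_subset (hO.mem_nhds hAO)
  obtain ⟨δ, hδ, hop⟩ := exists_le_pull_box C
  obtain ⟨W, hW, hWs, hWc⟩ := local_compact_nhds ((isOpen_box a b e d).mem_nhds hbox)
  have h3 : ccw b e d := h1.trans' h2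
  have h4 : ccw b d a := (h1.trans h2).cyc
  have hK := isCompact_cbox h3 h4
  have hcont : ContinuousOn (fun x : Geo × Geo => xp x.1 x.2)
      (W ×ˢ {l : Geo | l.src ∈ carc b e ∧ l.tgt ∈ carc d a}) := fun x hx =>
    (continuousAt_xp (xs_cross (box_subset_xs h1 h2 (hWs hx.1) hx.2))).continuousWithinAt
  obtain ⟨S, hS⟩ := (hWc.prod hK).exists_bound_of_continuousOn hcont
  refine ⟨W, hW, δ, hδ, S, ?_⟩
  filter_upwards [hC] with n hn A hA
  have h5 : pull (k n) (box a b e d) ≤ ENNReal.ofReal C := by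
    refine le_trans (measure_mono fun l hl => hsub ?_) (le_trans (le_of_eq ?_) hn)
    · exact ⟨garc_arc_subset _ _ hl.1, garc_arc_subset _ _ hl.2⟩
    · simp [resc]
  refine (hop (k n) (hd.mark n).ori a b e d h1 h2 h5).trans (measure_mono fun l hl => ?_)
  have h6 : l ∈ {l : Geo | l.src ∈ carc b e ∧ l.tgt ∈ carc d a} :=
    ⟨garc_arc_subset _ _ hl.1, garc_arc_subset _ _ hl.2⟩
  have h7 := box_subset_xs h1 h2 (hWs hA) h6
  exact ⟨h7.1, h7.2.1, abs_le.1 (hS (A, l) ⟨hA, h6⟩)⟩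

theorem MUni_cpt (hd : Bdd ρ α U (fun _ => 1) σ k) (hρ : Disc ρ) (hα : Multi ρ α)
    (hc : Cover ρ α) {K : Set Geo} (hK : IsCompact K) (h0 : ∀ A ∈ K, A ∉ lifts ρ α) :
    ∃ δ > 0, ∃ S : ℝ, ∀ᶠ n in U, ∀ A ∈ K, ENNReal.ofReal δ ≤ pull (k n) (xs A (Icc (-S) S)) := by
  refine hK.induction_on (p := fun K => ∃ δ > 0, ∃ S : ℝ, ∀ᶠ n in U, ∀ A ∈ K,
    ENNReal.ofReal δ ≤ pull (k n) (xs A (Icc (-S) S))) ?_ ?_ ?_ ?_
  · exact ⟨1, one_pos, 0, Eventually.of_forall fun n A hA => hA.elim⟩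
  · rintro s t hst ⟨δ, hδ, S, h⟩
    exact ⟨δ, hδ, S, h.mono fun n hn A hA => hn A (hst hA)⟩
  · rintro s t ⟨δ, hδ, S, h⟩ ⟨δ', hδ', S', h'⟩
    refine ⟨min δ δ', lt_min hδ hδ', max S S', ?_⟩
    filter_upwards [h, h'] with n hn hn' A hA
    rcases hA with hA | hA
    · exact (ENNReal.ofReal_le_ofReal (min_le_left _ _)).trans ((hn A hA).trans (measure_mono
        (xs_mono A (Icc_subset_Icc (neg_le_neg (le_max_left _ _)) (le_max_left _ _)))))
    · exact (ENNReal.ofReal_le_ofReal (min_le_right _ _)).trans ((hn' A hA).trans (measure_mono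
        (xs_mono A (Icc_subset_Icc (neg_le_neg (le_max_right _ _)) (le_max_right _ _)))))
  · intro A hA
    obtain ⟨W, hW, h⟩ := MUni_loc hd hρ hα hc (h0 A hA)
    exact ⟨W, mem_nhdsWithin_of_mem_nhds hW, h⟩

theorem Bdd.exists_block_ge (hd : Bdd ρ α U (fun _ => 1) σ k) (hρ : Disc ρ) (hα : Multi ρ α)
    (hc : Cover ρ α) (R : ℝ) {w : ℝ} (hw : 0 < w) : ∃ δ > 0, ∃ T > 0, ∀ᶠ n in U,
      ∀ A ∈ Core ρ α R w, ∀ t, ENNReal.ofReal δ ≤ pull (k n) (xs A (Ico t (t + T))) := by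
  obtain ⟨δ, hδ, S, h⟩ := MUni_cpt hd hρ hα hc
    ((isCompact_lines o (sinh R)).inter_right (isClosed_core (α := α) hρ R w))
    fun A hA => MUni_not_mem hw hA.2
  refine ⟨δ, hδ, 2 * (|S| + |R|) + 1, by positivity, ?_⟩
  filter_upwards [h] with n hn A hA t
  obtain ⟨g, hg⟩ := hA.2.1 (t + (|S| + |R|))
  have h1 : dist o (pt (ρ g⁻¹ • A) (t + (|S| + |R|) + sh (ρ g⁻¹) A)) ≤ R := by
    rw [← smul_pt, ← dist_smul (ρ g), map_inv, smul_inv_smul]
    exact hg
  have h2 := abs_fer_sub_le (ρ g⁻¹ • A) o (pt (ρ g⁻¹ • A) (t + (|S| + |R|) + sh (ρ g⁻¹) A))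
  rw [GArr_fer_o, fer_pt, zero_sub, abs_neg] at h2
  have h3 := abs_le.1 (h2.trans h1)
  have h4 := hn _ ⟨GCqs_lines h1, Core.smul hA g⁻¹⟩
  rw [(hd.mark n).cur_pull.xs_smul g⁻¹ A measurableSet_Icc] at h4
  refine h4.trans (measure_mono (xs_mono A fun u hu => ?_))
  obtain ⟨h5, h6⟩ : -S ≤ u + sh (ρ g⁻¹) A ∧ u + sh (ρ g⁻¹) A ≤ S := hu
  constructor <;> linarith only [h3, h5, h6, le_abs_self S, le_abs_self R, h3.1, h3.2]

theorem Bdd.phi [Finite ι] (hd : Bdd ρ α U (fun _ => 1) σ k) (hρ : Good ρ N) (hα : Multi ρ α)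
    (hc : Cover ρ α) : ∃ δ > 0, ∀ᶠ n in U, ∀ β, Th ρ α β → δ * tl (ρ β) ≤ tl (σ n β) := by
  obtain ⟨R, w, hw, hcore⟩ := exists_th_core hρ hα
  obtain ⟨δ, hδ, T, hT, h⟩ := hd.exists_block_ge hρ.toDisc hα hc R hw
  refine ⟨δ / T, div_pos hδ hT, ?_⟩
  filter_upwards [h] with n hn β hβ
  rw [← (hd.mark n).ic_pull]
  exact le_ic_of_block (hd.mark n).cur_pull hβ.1.hyp hT (hn _ (hcore β hβ))

end HRT
end

-- merged part: Pool.Agent.Work.MP_35beee_gt.GPair
section
/-!
The pairing of a current with a current carried by lines in the core; the length of a current.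

Plan. `exists_bump`: `χ₀ p = max 0 (R + 1 - dist o p)`, `S p = ∑ᶠ g, χ₀ (ρ g • p)` is a locally finite
sum, invariant, `≥ 1` within `R` of the orbit; take `χ = χ₀ / max S 1`.
`integral_cnt`: the oriented lifts of `s` are the `g • A` and their reverses, `g ∈ Γ / ⟨s⟩`
(`smul_ax_iff`); `wt ν χ (g • A) = ∫ χ (g • pt A t) d(posM ν A)` and the same for the reverse; sum
over `Γ` = cosets times powers of `s` and unfold over `[0, tl)` (`lintegral_tsum`; it is easier to
work with `lintegral` and `ENNReal.ofReal`). `continuous_wt`: dominated convergence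
(`continuous_of_dominated` or sequences; `Geo` is metrizable): for `m` with no end in common with
`l` the condition `m ∈ xs l univ` is locally constant in `l` and `pt l (xp l m)` is continuous; the
integrand vanishes unless `m` meets the ball of radius `R + 1` (`isCompact_lines`).
`IsULim.tendsto_integral`: layer cake (`lintegral_eq_lintegral_meas_lt`, `..._le`) is awkward along
ultrafilters; instead squeeze `f` between the step functions `δ ∑ j, indicator {f > (j+1) δ}` and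
`δ ∑ j, indicator {f ≥ j δ}` on the compact support (finitely many `j`).
-/

namespace HRT

open Set Filter Topology Real MeasureTheory

variable {Γ : Type*} [Group Γ] {ρ σ : Γ →* Isom} {μ ν : Measure Geo}

/-- A partition of unity on the points within `R` of the orbit of `o`. -/
structure Bump (ρ : Γ →* Isom) (R : ℝ) (χ : Pt → ℝ) : Prop where
  cont : Continuous χ
  nonneg : ∀ p, 0 ≤ χ p
  le_one : ∀ p, χ p ≤ 1
  supp : ∀ p, R + 1 ≤ dist o p → χ p = 0
  pos : ∀ p, dist o p ≤ R → 0 < χ p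
  sum : ∀ p, (∃ g : Γ, dist (ρ g • o) p ≤ R) → ∑ᶠ g : Γ, χ (ρ g • p) = 1

theorem Disc.exists_bump (hρ : Disc ρ) (R : ℝ) : ∃ χ, Bump ρ R χ := by
  set c : Pt → ℝ := fun p => min 1 (max 0 (R + 1 - dist o p)) with hc
  have hcc : Continuous c := continuous_const.min
    (continuous_const.max (continuous_const.sub (continuous_const.dist continuous_id)))
  have hc0 : ∀ p, 0 ≤ c p := fun p => le_min zero_le_one (le_max_left _ _)
  have hcs : ∀ p, R + 1 ≤ dist o p → c p = 0 := fun p h => by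
    simp only [hc]
    rw [max_eq_left (by linarith), min_eq_right zero_le_one]
  have hc1 : ∀ p, dist o p ≤ R → c p = 1 := fun p h =>
    min_eq_left (le_max_of_le_right (by linarith))
  have hfin : ∀ p, Function.HasFiniteSupport fun g : Γ => c (ρ g • p) := fun p =>
    (hρ.finite_near o p (R + 1)).subset fun g hg => le_of_not_gt fun h => hg (hcs _ h.le)
  set S : Pt → ℝ := fun p => ∑ᶠ g : Γ, c (ρ g • p) with hS
  have hSc : Continuous S := by
    refine continuous_finsum (fun g => hcc.comp (continuous_const_smul _)) fun p =>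
      ⟨Metric.ball p 1, Metric.ball_mem_nhds _ one_pos,
        (hρ.finite_near o p (R + 2)).subset ?_⟩
    rintro g ⟨q, hq, hq'⟩
    have h1 : dist o (ρ g • q) ≤ R + 1 := le_of_not_gt fun h => hq (hcs _ h.le)
    have h2 := dist_triangle o (ρ g • q) (ρ g • p)
    rw [dist_smul] at h2
    have h3 : dist q p < 1 := hq'
    show dist o (ρ g • p) ≤ R + 2
    linarith
  have hinv : ∀ (k : Γ) p, S (ρ k • p) = S p := fun k p => by
    simp only [hS, ← mul_smul, ← map_mul]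
    exact finsum_comp_equiv (Equiv.mulRight k) (f := fun g => c (ρ g • p))
  have hm : ∀ p, 0 < max (S p) 1 := fun p => lt_max_of_lt_right one_pos
  refine ⟨fun p => c p / max (S p) 1, hcc.div (hSc.max continuous_const) fun p => (hm p).ne',
    fun p => div_nonneg (hc0 p) (hm p).le,
    fun p => (div_le_one (hm p)).2 (le_max_of_le_right (min_le_left _ _)),
    fun p h => by rw [hcs p h, zero_div],
    fun p h => by rw [hc1 p h]; exact div_pos one_pos (hm p), ?_⟩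
  rintro p ⟨g, hg⟩
  have h1 : c (ρ g⁻¹ • p) = 1 := hc1 _ (by
    rwa [← dist_smul (ρ g), map_inv, smul_inv_smul])
  have h2 : 1 ≤ S p := h1 ▸ single_le_finsum g⁻¹ (hfin p) fun _ => hc0 _
  simp only [hinv, max_eq_left h2, div_eq_mul_inv]
  rw [← finsum_mul]
  exact mul_inv_cancel₀ (one_pos.trans_le h2).ne'

/-- The mass of the lines crossing `l`, weighted by `χ` at the crossing point. -/
noncomputable def wt (ν : Measure Geo) (χ : Pt → ℝ) (l : Geo) : ℝ :=
  ∫ m in xs l univ, χ (pt l (xp l m)) ∂ν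

/-- The pairing of two currents. -/
noncomputable def pairC (χ : Pt → ℝ) (ν μ : Measure Geo) : ℝ := (∫ l, wt ν χ l ∂μ) / 2

variable {R : ℝ} {χ : Pt → ℝ}

theorem GPair_side_le {l : Geo} {p : Pt} {s R : ℝ} (h : dist p (pt l s) ≤ R) :
    |side l p.1| ≤ sinh R := by
  have h1 := abs_arsinh_side_le l p (pt l s)
  rw [side_pt, arsinh_zero, sub_zero] at h1
  have h2 := abs_le.1 (h1.trans h)
  rw [abs_le, ← sinh_neg]
  constructor
  · rw [← sinh_arsinh (side l p.1)]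
    exact sinh_le_sinh.2 h2.1
  · rw [← sinh_arsinh (side l p.1)]
    exact sinh_le_sinh.2 h2.2

/-- The integrand of the pairing. -/
noncomputable def GPair_G (χ : Pt → ℝ) (x : Geo × Geo) : ℝ :=
  {x : Geo × Geo | x.2 ∈ xs x.1 univ}.indicator (fun x => χ (pt x.1 (xp x.1 x.2))) x

theorem GPair_of_mem (χ : Pt → ℝ) {l m : Geo} (h : m ∈ xs l univ) :
    GPair_G χ (l, m) = χ (pt l (xp l m)) :=
  indicator_of_mem (s := {x : Geo × Geo | x.2 ∈ xs x.1 univ}) (a := (l, m)) h _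

theorem GPair_of_notMem (χ : Pt → ℝ) {l m : Geo} (h : m ∉ xs l univ) : GPair_G χ (l, m) = 0 :=
  indicator_of_notMem (s := {x : Geo × Geo | x.2 ∈ xs x.1 univ}) (a := (l, m)) h _

theorem GPair_side {X : Type*} [TopologicalSpace X] {f : X → Geo} {g : X → V} (hf : Continuous f)
    (hg : Continuous g) : Continuous fun x => side (f x) (g x) :=
  continuous_side.comp (f := fun x => (f x, g x)) (hf.prodMk hg)

theorem GPair_cs : Continuous fun x : Geo × Geo => side x.1 x.2.src.1 :=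
  GPair_side continuous_fst (GFermi_cs.comp' continuous_snd)

theorem GPair_ct : Continuous fun x : Geo × Geo => side x.1 x.2.tgt.1 :=
  GPair_side continuous_fst (GFermi_ct.comp' continuous_snd)

theorem GPair_open : IsOpen {x : Geo × Geo | x.2 ∈ xs x.1 univ} := by
  have h : {x : Geo × Geo | x.2 ∈ xs x.1 univ} =
      {x | side x.1 x.2.src.1 < 0} ∩ {x | 0 < side x.1 x.2.tgt.1} := by
    ext x
    exact ⟨fun h => ⟨h.1, h.2.1⟩, fun h => ⟨h.1, h.2, mem_univ _⟩⟩
  rw [h]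
  exact (isOpen_lt GPair_cs continuous_const).inter (isOpen_lt continuous_const GPair_ct)

theorem GPair_cont (hc : Continuous χ) {x : Geo × Geo} (hx : x.2 ∈ xs x.1 univ) :
    ContinuousAt (fun x : Geo × Geo => χ (pt x.1 (xp x.1 x.2))) x :=
  hc.continuousAt.comp (continuous_pt.continuousAt.comp
    (f := fun x : Geo × Geo => (x.1, xp x.1 x.2))
    (continuousAt_fst.prodMk (continuousAt_xp (xs_cross hx))))

theorem GPair_contG (hc : Continuous χ) {x : Geo × Geo} (hx : x.2 ∈ xs x.1 univ) :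
    ContinuousAt (GPair_G χ) x := by
  refine (GPair_cont hc hx).congr ?_
  filter_upwards [GPair_open.mem_nhds hx] with y hy
  exact (GPair_of_mem χ hy).symm

theorem GPair_meas (hc : Continuous χ) : Measurable (GPair_G χ) := by
  classical
  have h := ContinuousOn.measurable_piecewise (s := {x : Geo × Geo | x.2 ∈ xs x.1 univ})
    (f := fun x : Geo × Geo => χ (pt x.1 (xp x.1 x.2))) (g := 0)
    (fun x hx => (GPair_cont hc hx).continuousWithinAt) continuousOn_const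
    GPair_open.measurableSet
  rw [piecewise_eq_indicator] at h
  exact h

theorem GPair_meas' (hc : Continuous χ) (l : Geo) : Measurable fun m => GPair_G χ (l, m) :=
  (GPair_meas hc).comp measurable_prodMk_left

theorem GPair_wt (ν : Measure Geo) (χ : Pt → ℝ) (l : Geo) :
    wt ν χ l = ∫ m, GPair_G χ (l, m) ∂ν := by
  rw [wt, ← integral_indicator (measurableSet_xs l MeasurableSet.univ)]
  rfl

theorem Bump.GPair_nonneg (hχ : Bump ρ R χ) (x : Geo × Geo) : 0 ≤ GPair_G χ x :=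
  indicator_nonneg (fun _ _ => hχ.nonneg _) x

theorem Bump.GPair_le_one (hχ : Bump ρ R χ) (x : Geo × Geo) : GPair_G χ x ≤ 1 :=
  indicator_apply_le' (fun _ => hχ.le_one _) fun _ => zero_le_one

theorem Bump.GPair_supp (hχ : Bump ρ R χ) {l m : Geo} (h : GPair_G χ (l, m) ≠ 0) :
    |side l o.1| ≤ sinh (R + 1) ∧ |side m o.1| ≤ sinh (R + 1) := by
  have hm : m ∈ xs l univ := by
    by_contra hm
    exact h (GPair_of_notMem χ hm)
  rw [GPair_of_mem χ hm] at h
  have hd : dist o (pt l (xp l m)) ≤ R + 1 := le_of_not_gt fun h' => h (hχ.supp _ h'.le)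
  refine ⟨GPair_side_le hd, ?_⟩
  rw [pt_xp (xs_cross hm)] at hd
  exact GPair_side_le hd

theorem Bump.GPair_bound (hχ : Bump ρ R χ) (l m : Geo) : ‖GPair_G χ (l, m)‖ ≤
    {m : Geo | |side m o.1| ≤ sinh (R + 1)}.indicator (fun _ => (1 : ℝ)) m := by
  rw [Real.norm_of_nonneg (hχ.GPair_nonneg _)]
  by_cases h : GPair_G χ (l, m) = 0
  · rw [h]
    exact indicator_nonneg (fun _ _ => zero_le_one) m
  · rw [indicator_of_mem (s := {m : Geo | |side m o.1| ≤ sinh (R + 1)}) (hχ.GPair_supp h).2]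
    exact hχ.GPair_le_one _

theorem GPair_intK (hν : Cur ρ ν) {K : Set Geo} (hK : IsCompact K) (c : ℝ) :
    Integrable (K.indicator fun _ => c) ν := by
  have := hν.fin
  exact (integrable_indicator_iff hK.measurableSet).2
    (integrableOn_const hK.measure_lt_top.ne)

theorem Bump.GPair_int (hχ : Bump ρ R χ) (hν : Cur ρ ν) (l : Geo) :
    Integrable (fun m => GPair_G χ (l, m)) ν :=
  (GPair_intK hν (isCompact_lines o _) 1).mono' (GPair_meas' hχ.cont l).aestronglyMeasurable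
    (Eventually.of_forall (hχ.GPair_bound l))

theorem GPair_map_supp {f : Geo → Geo} (hf : Continuous f) {l : Geo} (hl : l ∈ μ.support) :
    f l ∈ (μ.map f).support :=
  (Measure.mem_support_iff_forall _).2 fun _ hO =>
    ((Measure.mem_support_iff_forall _).1 hl _ (hf.continuousAt.preimage_mem_nhds hO)).trans_le
      (Measure.le_map_apply hf.measurable.aemeasurable _)

theorem GPair_rev (χ : Pt → ℝ) (l m : Geo) : GPair_G χ (l.rev, m.rev) = GPair_G χ (l, m) := by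
  have h : m.rev ∈ xs l.rev univ ↔ m ∈ xs l univ := by rw [rev_mem_xs, preimage_univ]
  by_cases hm : m ∈ xs l univ
  · rw [GPair_of_mem χ hm, GPair_of_mem χ (h.2 hm), pt_rev, xp_rev_right,
      xp_rev_left (xs_cross hm), neg_neg]
  · rw [GPair_of_notMem χ hm, GPair_of_notMem χ (mt h.1 hm)]

theorem GPair_smul (χ : Pt → ℝ) (g : Isom) {l m : Geo} (hm : m ∈ xs l univ) :
    GPair_G χ (g • l, g • m) = χ (g • pt l (xp l m)) := by
  have h : g • m ∈ xs (g • l) univ := by rwa [smul_mem_xs, preimage_univ]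
  rw [GPair_of_mem χ h, xp_smul g (xs_cross hm), smul_pt]

theorem Bump.GPair_sum (hχ : Bump ρ R χ) (hρ : Disc ρ) {p : Pt}
    (hp : ∃ g : Γ, dist (ρ g • o) p ≤ R) : ∑' g : Γ, ENNReal.ofReal (χ (ρ g • p)) = 1 := by
  have hf : Function.HasFiniteSupport fun g : Γ => χ (ρ g • p) :=
    (hρ.finite_near o p (R + 1)).subset fun g hg => le_of_not_gt fun h => hg (hχ.supp _ h.le)
  rw [← ENNReal.ofReal_tsum_of_nonneg (fun g => hχ.nonneg _) (summable_of_hasFiniteSupport hf),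
    tsum_eq_finsum hf, hχ.sum p hp, ENNReal.ofReal_one]

theorem GPair_unfold (hρ : Disc ρ) {s : Γ} (hs : Hyp (ρ s)) (hp : Prim s) (χ : Pt → ℝ)
    (m : Geo) :
    ∑' l : range fun g : Γ => ρ g • ax (ρ s), ENNReal.ofReal (GPair_G χ (l, m)) =
      ∑' g : Γ, (xs (ax (ρ s)) (Ico 0 (tl (ρ s)))).indicator
        (fun m' => ENNReal.ofReal (GPair_G χ (ρ g • ax (ρ s), ρ g • m'))) (ρ g⁻¹ • m) := by
  have hD : ∀ {g : Γ}, (xs (ax (ρ s)) (Ico 0 (tl (ρ s)))).indicator
      (fun m' => ENNReal.ofReal (GPair_G χ (ρ g • ax (ρ s), ρ g • m'))) (ρ g⁻¹ • m) ≠ 0 →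
        ρ g⁻¹ • m ∈ xs (ax (ρ s)) (Ico 0 (tl (ρ s))) := fun h => mem_of_indicator_ne_zero h
  refine tsum_eq_tsum_of_ne_zero_bij (fun g => ⟨ρ g.1 • ax (ρ s), g.1, rfl⟩) ?_ ?_ ?_
  · rintro ⟨g, hg⟩ ⟨k, hk⟩ he
    have h1 := hD hg
    have h2 := hD hk
    have h3 : ρ g • ax (ρ s) = ρ k • ax (ρ s) := congrArg Subtype.val he
    have h4 : ρ (k⁻¹ * g) • ax (ρ s) = ax (ρ s) := by
      rw [map_mul, mul_smul, h3, map_inv, inv_smul_smul]
    obtain ⟨n, hn⟩ := Subgroup.mem_zpowers_iff.1 ((hρ.smul_ax_iff hs hp _).1 h4)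
    have h5 : ρ k⁻¹ • m = ρ (s ^ n) • ρ g⁻¹ • m := by
      rw [hn, ← mul_smul, ← map_mul, mul_inv_cancel_right]
    rw [h5, GCurI_mem hs, zsmul_eq_mul] at h2
    have h6 : n = 0 := GInter_shift_eq_zero (t := 0) (by rw [zero_add]; exact h1.2.2)
      (by rw [zero_add]; exact h2.2)
    rw [h6, zpow_zero] at hn
    exact Subtype.ext (inv_mul_eq_one.1 hn.symm).symm
  · rintro ⟨_, g, rfl⟩ hl
    have hm : m ∈ xs (ρ g • ax (ρ s)) univ := by
      by_contra hm
      exact hl (by simp only [GPair_of_notMem χ hm, ENNReal.ofReal_zero])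
    have h1 : ρ g⁻¹ • m ∈ xs (ax (ρ s)) univ := by
      have h2 := (smul_mem_xs (ρ g) (ax (ρ s)) (ρ g⁻¹ • m) univ).1
        (by rwa [map_inv, smul_inv_smul])
      rwa [preimage_univ] at h2
    obtain ⟨n, hn⟩ := GInter_exists_shift hs (xp (ax (ρ s)) (ρ g⁻¹ • m)) 0
    rw [zero_add, ← zsmul_eq_mul] at hn
    have h3 : ρ (g * (s ^ n)⁻¹)⁻¹ • m ∈ xs (ax (ρ s)) (Ico 0 (tl (ρ s))) := by
      rw [mul_inv_rev, inv_inv, map_mul, mul_smul]
      exact (GCurI_mem hs n _ _).2 ⟨h1, hn⟩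
    have h4 : ρ (g * (s ^ n)⁻¹) • ax (ρ s) = ρ g • ax (ρ s) := by
      rw [map_mul, mul_smul, ← zpow_neg, map_zpow, hs.zpow_smul_ax]
    refine ⟨⟨g * (s ^ n)⁻¹, ?_⟩, Subtype.ext h4⟩
    rw [Function.mem_support, indicator_of_mem h3, map_inv, smul_inv_smul, h4]
    exact hl
  · rintro ⟨g, hg⟩
    rw [indicator_of_mem (hD hg), map_inv, smul_inv_smul]

theorem Bump.GPair_orbit (hχ : Bump ρ R χ) (hρ : Disc ρ) (hν : Cur ρ ν) {s : Γ} (hs : Hyp (ρ s))
    (hp : Prim s) (hc : InCore ρ R (ax (ρ s))) :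
    ∑' l : range fun g : Γ => ρ g • ax (ρ s), ∫⁻ m, ENNReal.ofReal (GPair_G χ (l, m)) ∂ν =
      ν (xs (ax (ρ s)) (Ico 0 (tl (ρ s)))) := by
  have := hρ.countable
  have := (countable_range fun g : Γ => ρ g • ax (ρ s)).to_subtype
  have hD := measurableSet_xs (ax (ρ s)) (measurableSet_Ico (a := 0) (b := tl (ρ s)))
  have hH : ∀ g : Γ, Measurable ((xs (ax (ρ s)) (Ico 0 (tl (ρ s)))).indicator
      fun m' => ENNReal.ofReal (GPair_G χ (ρ g • ax (ρ s), ρ g • m'))) := fun g =>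
    (((GPair_meas' hχ.cont _).comp (measurable_smul_geo (ρ g))).ennreal_ofReal).indicator hD
  rw [← lintegral_tsum fun l => (GPair_meas' hχ.cont _).ennreal_ofReal.aemeasurable]
  simp only [GPair_unfold hρ hs hp]
  rw [lintegral_tsum fun g => ((hH g).fun_comp (measurable_smul_geo (ρ g⁻¹))).aemeasurable]
  simp only [fun g : Γ => (hν.smul g⁻¹).lintegral_comp (hH g)]
  rw [← lintegral_tsum fun g => (hH g).aemeasurable, ← lintegral_indicator_one hD]
  refine lintegral_congr fun m => ?_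
  by_cases hm : m ∈ xs (ax (ρ s)) (Ico 0 (tl (ρ s)))
  · simp only [indicator_of_mem hm, GPair_smul χ _ (xs_mono _ (subset_univ _) hm), Pi.one_apply]
    exact hχ.GPair_sum hρ (hc _)
  · simp only [indicator_of_notMem hm, tsum_zero]

theorem Bump.wt_nonneg (hχ : Bump ρ R χ) (ν : Measure Geo) (l : Geo) : 0 ≤ wt ν χ l :=
  integral_nonneg fun _ => hχ.nonneg _

theorem Bump.exists_wt_le (hχ : Bump ρ R χ) (hν : Cur ρ ν) : ∃ C, ∀ l, wt ν χ l ≤ C :=
  ⟨_, fun l => by
    rw [GPair_wt]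
    exact integral_mono (hχ.GPair_int hν l) (GPair_intK hν (isCompact_lines o _) 1) fun m =>
      (le_abs_self _).trans (hχ.GPair_bound l m)⟩

theorem Bump.exists_wt_eq_zero (hχ : Bump ρ R χ) :
    ∃ K : Set Geo, IsCompact K ∧ ∀ ν : Measure Geo, ∀ l ∉ K, wt ν χ l = 0 := by
  refine ⟨_, isCompact_lines o (sinh (R + 1)), fun ν l hl => ?_⟩
  have h : ∀ m, GPair_G χ (l, m) = 0 := fun m => by
    by_contra h
    exact hl (hχ.GPair_supp h).1
  simp only [GPair_wt, h, integral_zero]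

theorem Bump.measurable_wt (hχ : Bump ρ R χ) (hν : Cur ρ ν) : Measurable (wt ν χ) := by
  have := hν.sigmaFinite
  rw [funext (GPair_wt ν χ)]
  exact (GPair_meas hχ.cont).stronglyMeasurable.integral_prod_right'.measurable

theorem Bump.integrable_wt (hχ : Bump ρ R χ) (hν : Cur ρ ν) (hμ : Cur ρ μ) :
    Integrable (wt ν χ) μ := by
  obtain ⟨C, hC⟩ := hχ.exists_wt_le hν
  obtain ⟨K, hK, h0⟩ := hχ.exists_wt_eq_zero
  refine (GPair_intK hμ hK C).mono' (hχ.measurable_wt hν).aestronglyMeasurable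
    (Eventually.of_forall fun l => ?_)
  rw [Real.norm_of_nonneg (hχ.wt_nonneg ν l)]
  by_cases hl : l ∈ K
  · rw [indicator_of_mem hl]
    exact hC l
  · rw [indicator_of_notMem hl, h0 ν l hl]

theorem Bump.continuous_wt (hχ : Bump ρ R χ) (hν : Cur ρ ν)
    (h0 : ∀ ξ : Circ, ν {m | side m ξ.1 = 0} = 0) : Continuous (wt ν χ) := by
  rw [funext (GPair_wt ν χ)]
  refine continuous_iff_continuousAt.2 fun l => continuousAt_of_dominated
    (Eventually.of_forall fun l' => (GPair_meas' hχ.cont l').aestronglyMeasurable)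
    (Eventually.of_forall fun l' => Eventually.of_forall (hχ.GPair_bound l'))
    (GPair_intK hν (isCompact_lines o _) 1) ?_
  have h1 : ∀ᵐ m ∂ν, ¬ side m l.src.1 = 0 := by
    rw [ae_iff]
    simpa only [not_not] using h0 l.src
  have h2 : ∀ᵐ m ∂ν, ¬ side m l.tgt.1 = 0 := by
    rw [ae_iff]
    simpa only [not_not] using h0 l.tgt
  filter_upwards [h1, h2] with m h1 h2
  have hc : Continuous fun l' : Geo => (l', m) := continuous_id.prodMk continuous_const
  by_cases hm : m ∈ xs l univ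
  · exact (GPair_contG hχ.cont (x := (l, m)) hm).comp (f := fun l' : Geo => (l', m))
      hc.continuousAt
  · rw [side_eq_zero_iff, not_or] at h1 h2
    have h3 : side l m.src.1 ≠ 0 := fun h =>
      ((side_eq_zero_iff _ _).1 h).elim (fun h => h1.1 h.symm) fun h => h2.1 h.symm
    have h4 : side l m.tgt.1 ≠ 0 := fun h =>
      ((side_eq_zero_iff _ _).1 h).elim (fun h => h1.2 h.symm) fun h => h2.2 h.symm
    have h5 : ∀ᶠ l' in 𝓝 l, m ∉ xs l' univ := by
      rcases h3.lt_or_gt with h3 | h3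
      · have h6 : side l m.tgt.1 < 0 :=
          h4.lt_or_gt.resolve_right fun h => hm ⟨h3, h, mem_univ _⟩
        filter_upwards [(isOpen_lt (GPair_side continuous_id' continuous_const)
          continuous_const).mem_nhds h6] with l' h h'
        exact h'.2.1.not_gt h
      · filter_upwards [(isOpen_lt continuous_const
          (GPair_side continuous_id' continuous_const)).mem_nhds h3] with l' h h'
        exact h'.1.not_gt h
    refine (continuousAt_const (y := (0 : ℝ))).congr ?_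
    filter_upwards [h5] with l' h
    exact (GPair_of_notMem χ h).symm

/-- Unfolding. -/
theorem Bump.pairC_cnt (hχ : Bump ρ R χ) (hρ : Disc ρ) (hν : Cur ρ ν) {s : Γ} (hs : Hyp (ρ s))
    (hp : Prim s) (hc : InCore ρ R (ax (ρ s))) : pairC χ ν (cnt ρ s) = ic ν (ρ s) := by
  have := hρ.countable
  have hW : ∀ l, ENNReal.ofReal (wt ν χ l) = ∫⁻ m, ENNReal.ofReal (GPair_G χ (l, m)) ∂ν :=
    fun l => by
      rw [GPair_wt, ofReal_integral_eq_lintegral_ofReal (hχ.GPair_int hν l)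
        (Eventually.of_forall fun m => hχ.GPair_nonneg _)]
  have hrev : ∀ l : Geo, ∫⁻ m, ENNReal.ofReal (GPair_G χ (l.rev, m)) ∂ν =
      ∫⁻ m, ENNReal.ofReal (GPair_G χ (l, m)) ∂ν := fun l => by
    rw [← hν.rev.lintegral_comp (GPair_meas' hχ.cont l.rev).ennreal_ofReal]
    simp only [GPair_rev]
  have hO := countable_range fun g : Γ => ρ g • ax (ρ s)
  have hL : (lifts ρ fun _ : Unit => s) = (range fun g : Γ => ρ g • ax (ρ s)) ∪
      Geo.rev '' range fun g : Γ => ρ g • ax (ρ s) := by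
    ext l
    constructor
    · rintro ⟨_, g, rfl | rfl⟩
      · exact Or.inl ⟨g, rfl⟩
      · exact Or.inr ⟨_, ⟨g, rfl⟩, rfl⟩
    · rintro (⟨g, rfl⟩ | ⟨_, ⟨g, rfl⟩, rfl⟩)
      · exact ⟨(), g, Or.inl rfl⟩
      · exact ⟨(), g, Or.inr rfl⟩
  have hd : Disjoint (range fun g : Γ => ρ g • ax (ρ s))
      (Geo.rev '' range fun g : Γ => ρ g • ax (ρ s)) := by
    rw [disjoint_left]
    rintro _ ⟨g, rfl⟩ ⟨_, ⟨k, rfl⟩, h⟩
    exact hρ.GInter_ne_rev _ g k h.symm
  rw [pairC, integral_eq_lintegral_of_nonneg_ae (Eventually.of_forall (hχ.wt_nonneg ν))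
    (hχ.measurable_wt hν).aestronglyMeasurable, cnt, hL,
    lintegral_union (hO.image _).measurableSet hd, lintegral_countable _ hO,
    lintegral_countable _ (hO.image _)]
  simp only [Measure.count_singleton, mul_one, hW]
  rw [tsum_image (fun l => ∫⁻ m, ENNReal.ofReal (GPair_G χ (l, m)) ∂ν)
    (Function.Involutive.injective Geo.rev_rev).injOn]
  simp only [hrev]
  rw [hχ.GPair_orbit hρ hν hs hp hc, ← two_mul, ENNReal.toReal_mul, ENNReal.toReal_ofNat, ic,
    measureReal_def]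
  ring

theorem Bump.pairC_add (hχ : Bump ρ R χ) (hν : Cur ρ ν) {μ' : Measure Geo} (hμ : Cur ρ μ)
    (hμ' : Cur ρ μ') : pairC χ ν (μ + μ') = pairC χ ν μ + pairC χ ν μ' := by
  rw [pairC, pairC, pairC, integral_add_measure (hχ.integrable_wt hν hμ) (hχ.integrable_wt hν hμ'),
    add_div]

theorem pairC_smul (χ : Pt → ℝ) (ν μ : Measure Geo) (c : NNReal) :
    pairC χ ν (c • μ) = c * pairC χ ν μ := by
  rw [pairC, pairC, integral_smul_nnreal_measure, NNReal.smul_def, smul_eq_mul, mul_div_assoc]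

theorem Bump.pairC_finsetSum (hχ : Bump ρ R χ) (hν : Cur ρ ν) {ι : Type*} (s : Finset ι)
    {μ : ι → Measure Geo} (hμ : ∀ i ∈ s, Cur ρ (μ i)) :
    pairC χ ν (∑ i ∈ s, μ i) = ∑ i ∈ s, pairC χ ν (μ i) := by
  simp only [pairC]
  rw [integral_finsetSum_measure fun i hi => hχ.integrable_wt hν (hμ i hi), Finset.sum_div]

/-- A crossing of the supports forces a lower bound near the first line. -/
theorem Bump.exists_le_wt (hχ : Bump ρ R χ) (hν : Cur ρ ν) {l m : Geo} (hm : m ∈ ν.support)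
    (hc : Cross l m) (hp : dist o (pt l (xp l m)) ≤ R) :
    ∃ δ > 0, ∃ O, IsOpen O ∧ l ∈ O ∧ ∀ l' ∈ O, δ ≤ wt ν χ l' := by
  wlog hx : m ∈ xs l univ generalizing m
  · refine this (m := m.rev) ?_ (cross_rev_right.2 hc) (by rwa [xp_rev_right])
      (hc.mem_xs.resolve_left hx)
    have h := GPair_map_supp Geo.continuous_rev hm
    rwa [hν.rev.map_eq] at h
  have := hν.fin
  have h1 : 0 < GPair_G χ (l, m) := by
    rw [GPair_of_mem χ hx]
    exact hχ.pos _ hp
  have h2 : ∀ᶠ y in 𝓝 (l, m), GPair_G χ (l, m) / 2 < GPair_G χ y :=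
    (GPair_contG hχ.cont (x := (l, m)) hx).eventually (lt_mem_nhds (half_lt_self h1))
  obtain ⟨O, V, hO, hlO, hV, hmV, hOV⟩ := mem_nhds_prod_iff'.1 h2
  have h3 : ν V < ⊤ := by
    refine (measure_mono fun m' hm' => ?_).trans_lt
      (isCompact_lines o (sinh (R + 1))).measure_lt_top
    exact (hχ.GPair_supp ((half_pos h1).trans (hOV (mk_mem_prod hlO hm'))).ne').2
  have h4 : 0 < ν.real V := ENNReal.toReal_pos
    ((Measure.mem_support_iff_forall _).1 hm V (hV.mem_nhds hmV)).ne' h3.ne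
  refine ⟨ν.real V * (GPair_G χ (l, m) / 2), mul_pos h4 (half_pos h1), O, hO, hlO,
    fun l' hl' => ?_⟩
  rw [GPair_wt, ← smul_eq_mul, ← integral_indicator_const _ hV.measurableSet]
  refine integral_mono ((integrable_indicator_iff hV.measurableSet).2
    (integrableOn_const h3.ne)) (hχ.GPair_int hν l') fun m' => ?_
  exact indicator_apply_le' (fun hm' => (hOV (mk_mem_prod hl' hm')).le)
    fun _ => hχ.GPair_nonneg _

theorem pull_side (h : Circ ≃ₜ Circ) (ξ : Circ) : pull h {m | side m ξ.1 = 0} = 0 := by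
  have hc : Continuous fun m : Geo => side m ξ.1 := GPair_side continuous_id' continuous_const
  rw [pull_apply h (isClosed_eq hc continuous_const).measurableSet]
  have h1 : (h ξ).1 ≠ 0 := fun e => by
    have h2 := (h ξ).2.2
    rw [e] at h2
    exact zero_ne_one h2
  refine measure_mono_null ?_ (liou_side h1)
  rintro _ ⟨m, hm, rfl⟩
  rcases (side_eq_zero_iff _ _).1 hm with rfl | rfl
  · exact side_src (m.map h)
  · exact side_tgt (m.map h)

theorem support_pull (h : Circ ≃ₜ Circ) : (pull h).support = univ := by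
  have h0 : liou ≠ 0 := fun e => by
    have h1 := liou_xs (Classical.arbitrary Geo) MeasurableSet.univ
    rw [e, Real.volume_univ] at h1
    exact ENNReal.zero_ne_top h1
  obtain ⟨m, hm⟩ := Measure.nonempty_support h0
  refine eq_univ_of_forall fun l => ?_
  obtain ⟨g, hg, -⟩ := exists_isom_line m (l.map h) 0 0
  have h1 := GPair_map_supp (continuous_const_smul g) hm
  rw [(liou_smul g).map_eq, hg] at h1
  have h2 := GPair_map_supp (Geo.continuous_map h.symm) h1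
  rwa [Geo.map_symm_map] at h2

theorem Bump.pairC_pull_pos (hχ : Bump ρ R χ) {h : Circ ≃ₜ Circ} (hm : IsMark ρ σ h)
    (hμ : Cur ρ μ) (h0 : μ {l | InCore ρ R l}ᶜ = 0) (hρ : Disc ρ) (hne : μ ≠ 0) :
    0 < pairC χ (pull h) μ := by
  obtain ⟨l₀, hl₀⟩ := Measure.nonempty_support hne
  have hc : InCore ρ R l₀ := Measure.support_subset_of_isClosed (hρ.isClosed_inCore R) h0 hl₀
  obtain ⟨g, hg⟩ := hc 0
  have h1 := GPair_map_supp (continuous_const_smul (ρ g⁻¹)) hl₀
  rw [(hμ.smul g⁻¹).map_eq] at h1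
  have h2 : dist o (pt (ρ g⁻¹ • l₀) (0 + sh (ρ g⁻¹) l₀)) ≤ R := by
    rwa [← smul_pt, ← dist_smul (ρ g), map_inv, smul_inv_smul]
  generalize 0 + sh (ρ g⁻¹) l₀ = t at h2
  generalize ρ g⁻¹ • l₀ = l at h1 h2
  obtain ⟨a, ha, ha'⟩ := exists_circ_right l t
  obtain ⟨b, hb, hb'⟩ := exists_circ_left l t
  have hab : a ≠ b := fun e => by
    rw [e] at ha
    exact ha.not_gt hb
  obtain ⟨δ, hδ, O, hO, hlO, hw⟩ := hχ.exists_le_wt hm.cur_pull (l := l) (m := Geo.mk' a b hab)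
    (by rw [support_pull]; exact mem_univ _) (mul_neg_of_neg_of_pos ha hb)
    (by rwa [xp, Geo.src_mk', Geo.tgt_mk', ha', hb', add_self_div_two])
  refine half_pos ((integral_pos_iff_support_of_nonneg (hχ.wt_nonneg _)
    (hχ.integrable_wt hm.cur_pull hμ)).2 ?_)
  exact ((Measure.mem_support_iff_forall _).1 h1 O (hO.mem_nhds hlO)).trans_le
    (measure_mono fun l' hl' => (hδ.trans_le (hw l' hl')).ne')

theorem GPair_stepA {δ z : ℝ} (hδ : 0 ≤ δ) {a : ℕ → ℝ} (h0 : ∀ j, 0 ≤ a j)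
    (h : ∀ j : ℕ, j * δ < z → a j = δ) (N : ℕ) : min z (N * δ) ≤ ∑ j ∈ Finset.range N, a j := by
  induction N with
  | zero => simp
  | succ N ih =>
    rw [Finset.sum_range_succ]
    push_cast
    rcases lt_or_ge (N * δ) z with h1 | h1
    · rw [min_eq_right h1.le] at ih
      rw [h N h1]
      exact (min_le_right _ _).trans (by linarith)
    · rw [min_eq_left h1] at ih
      exact (min_le_left _ _).trans (by linarith [h0 N])

theorem GPair_stepB {δ z : ℝ} (hδ : 0 ≤ δ) (hz : 0 ≤ z) {a : ℕ → ℝ} (h0 : ∀ j, a j ≤ δ)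
    (h : ∀ j : ℕ, z < (j + 1) * δ → a j = 0) (N : ℕ) :
    ∑ j ∈ Finset.range N, a j ≤ min z (N * δ) := by
  induction N with
  | zero => simp [hz]
  | succ N ih =>
    rw [Finset.sum_range_succ]
    push_cast
    have h2 := ih.trans (min_le_left _ _)
    have h3 := ih.trans (min_le_right _ _)
    refine le_min ?_ (by linarith [h0 N])
    rcases lt_or_ge z ((N + 1) * δ) with h1 | h1
    · rw [h N h1]
      linarith
    · linarith [h0 N]

theorem GPair_step {X : Type*} [MeasurableSpace X] (m : Measure X) {S : ℕ → Set X}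
    (hS : ∀ j, MeasurableSet (S j)) (hf : ∀ j, m (S j) < ⊤) (δ : ℝ) (N : ℕ) :
    Integrable (fun x => ∑ j ∈ Finset.range N, (S j).indicator (fun _ => δ) x) m ∧
      ∫ x, ∑ j ∈ Finset.range N, (S j).indicator (fun _ => δ) x ∂m =
        ∑ j ∈ Finset.range N, m.real (S j) * δ := by
  have h : ∀ j ∈ Finset.range N, Integrable ((S j).indicator fun _ => δ) m := fun j _ =>
    (integrable_indicator_iff (hS j)).2 (integrableOn_const (hf j).ne)
  refine ⟨integrable_finsetSum _ h, ?_⟩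
  rw [integral_finsetSum _ h]
  exact Finset.sum_congr rfl fun j _ => by rw [integral_indicator_const _ (hS j), smul_eq_mul]

theorem GPair_squeeze {X : Type*} [MetricSpace X] [MeasurableSpace X] [BorelSpace X]
    {m : Measure X} {f : X → ℝ} (hf : Continuous f) (h0 : ∀ x, 0 ≤ f x) {K : Set X}
    (hK : IsCompact K) (hs : ∀ x ∉ K, f x = 0) (hm : m K < ⊤) {δ : ℝ} (hδ : 0 < δ) {N : ℕ}
    (hN : ∀ x, f x ≤ N * δ) :
    (∫ x, f x ∂m ≤ ∑ j ∈ Finset.range N, m.real (K ∩ {x | j * δ ≤ f x}) * δ ∧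
      ∑ j ∈ Finset.range N, m.real (K ∩ {x | j * δ ≤ f x}) * δ ≤ ∫ x, f x ∂m + m.real K * δ) ∧
    (∑ j ∈ Finset.range N, m.real {x | (j + 1) * δ < f x} * δ ≤ ∫ x, f x ∂m ∧
      ∫ x, f x ∂m - m.real K * δ ≤ ∑ j ∈ Finset.range N, m.real {x | (j + 1) * δ < f x} * δ) := by
  have hp : ∀ j : ℕ, 0 ≤ j * δ := fun j => by positivity
  have hin : ∀ x, 0 < f x → x ∈ K := fun x hx => by
    by_contra h
    exact hx.ne' (hs x h)
  have hi : ∀ c : ℝ, Integrable (K.indicator fun _ => c) m := fun c =>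
    (integrable_indicator_iff hK.measurableSet).2 (integrableOn_const hm.ne)
  have hfi : Integrable f m := by
    refine (hi (N * δ)).mono' hf.aestronglyMeasurable (Eventually.of_forall fun x => ?_)
    rw [Real.norm_of_nonneg (h0 x)]
    by_cases hx : x ∈ K
    · rw [indicator_of_mem hx]
      exact hN x
    · rw [indicator_of_notMem hx, hs x hx]
  have hk : ∫ x, K.indicator (fun _ => δ) x ∂m = m.real K * δ := by
    rw [integral_indicator_const _ hK.measurableSet, smul_eq_mul]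
  have hn : ∀ (S : Set X) x, 0 ≤ S.indicator (fun _ => δ) x := fun S x =>
    indicator_nonneg (fun _ _ => hδ.le) x
  have hl : ∀ (S : Set X) x, S.indicator (fun _ => δ) x ≤ δ := fun S x =>
    indicator_apply_le' (fun _ => le_rfl) fun _ => hδ.le
  obtain ⟨h1, h2⟩ := GPair_step m (S := fun j => K ∩ {x | j * δ ≤ f x})
    (fun j => hK.measurableSet.inter (isClosed_le continuous_const hf).measurableSet)
    (fun j => (measure_mono inter_subset_left).trans_lt hm) δ N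
  obtain ⟨h3, h4⟩ := GPair_step m (S := fun j => {x | (j + 1) * δ < f x})
    (fun j => (isOpen_lt continuous_const hf).measurableSet)
    (fun j => (measure_mono fun x (hx : (j + 1) * δ < f x) =>
      hin x (by linarith [hp j])).trans_lt hm) δ N
  rw [← h2, ← h4, ← hk, ← integral_add hfi (hi δ), ← integral_sub hfi (hi δ)]
  refine ⟨⟨integral_mono hfi h1 fun x => ?_, integral_mono h1 (hfi.add (hi δ)) fun x => ?_⟩,
    integral_mono h3 hfi fun x => ?_, integral_mono (hfi.sub (hi δ)) h3 fun x => ?_⟩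
  · refine (le_min le_rfl (hN x)).trans (GPair_stepA hδ.le (fun j => hn _ x) (fun j hj => ?_) N)
    exact indicator_of_mem (mem_inter (hin x ((hp j).trans_lt hj)) hj.le) _
  · refine (GPair_stepB hδ.le (add_nonneg (h0 x) (hn K x)) (fun j => hl _ x) (fun j hj => ?_)
      N).trans (min_le_left _ _)
    refine indicator_of_notMem (fun hx => ?_) _
    have h5 : j * δ ≤ f x := hx.2
    rw [indicator_of_mem hx.1] at hj
    linarith
  · refine (GPair_stepB hδ.le (h0 x) (fun j => hl _ x) (fun j hj => ?_) N).trans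
      (min_le_left _ _)
    exact indicator_of_notMem (s := {x | (j + 1) * δ < f x}) (fun hx => hj.not_gt hx) _
  · refine (le_min le_rfl ((sub_le_self _ (hn K x)).trans (hN x))).trans
      (GPair_stepA hδ.le (fun j => hn _ x) (fun j hj => ?_) N)
    have hx := hin x (by linarith [hp j, hn K x])
    rw [indicator_of_mem hx] at hj
    have h5 : (j + 1) * δ < f x := by linarith
    exact indicator_of_mem (s := {x | (j + 1) * δ < f x}) h5 _

theorem IsULim.tendsto_integral {X I : Type*} [MetricSpace X] [MeasurableSpace X] [BorelSpace X]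
    {U : Ultrafilter I} {M : I → Measure X} {μ : Measure X} (h : IsULim U M univ μ) {f : X → ℝ}
    (hf : Continuous f) (h0 : ∀ x, 0 ≤ f x) {K : Set X} (hK : IsCompact K)
    (hs : ∀ x ∉ K, f x = 0) : Tendsto (fun n => ∫ x, f x ∂M n) U (𝓝 (∫ x, f x ∂μ)) := by
  have hμ := h.fin K hK (subset_univ _)
  obtain ⟨C, hC⟩ := hK.exists_bound_of_continuousOn hf.continuousOn
  refine Metric.tendsto_nhds.2 fun ε hε => ?_
  have hk : 0 ≤ μ.real K := measureReal_nonneg
  obtain ⟨δ, hδ, hδ'⟩ : ∃ δ > 0, μ.real K * δ < ε / 2 :=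
    ⟨ε / 2 / (μ.real K + 1), by positivity, by
      rw [← mul_div_assoc, div_lt_iff₀ (by positivity)]
      linarith only [hε]⟩
  obtain ⟨N, hN⟩ := exists_nat_ge (C / δ)
  have hN0 : 0 ≤ N * δ := by positivity
  have hN' : ∀ x, f x ≤ N * δ := fun x => by
    by_cases hx : x ∈ K
    · exact ((le_abs_self _).trans (hC x hx)).trans ((div_le_iff₀ hδ).1 hN)
    · rwa [hs x hx]
  obtain ⟨η, hη, hη'⟩ : ∃ η > 0, N * δ * η < ε / 2 :=
    ⟨ε / 2 / (N * δ + 1), by positivity, by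
      rw [← mul_div_assoc, div_lt_iff₀ (by positivity)]
      linarith only [hε]⟩
  have hsub : ∀ j : ℕ, {x | (j + 1) * δ < f x} ⊆ K := fun j x (hx : (j + 1) * δ < f x) => by
    by_contra hx'
    rw [hs x hx'] at hx
    exact hx.not_ge (by positivity)
  have e1 := h.upper K hK (subset_univ _) ⊤ hμ
  have e2 : ∀ᶠ n in U, ∀ j ∈ Finset.range N,
      (M n).real (K ∩ {x | j * δ ≤ f x}) ≤ μ.real (K ∩ {x | j * δ ≤ f x}) + η := by
    refine (Finset.range N).eventually_all.2 fun j _ => ?_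
    have h1 : μ (K ∩ {x | j * δ ≤ f x}) ≠ ⊤ := ((measure_mono inter_subset_left).trans_lt hμ).ne
    filter_upwards [h.upper _ (hK.inter_right (isClosed_le continuous_const hf)) (subset_univ _)
      (ENNReal.ofReal (μ.real (K ∩ {x | j * δ ≤ f x}) + η))
      ((ENNReal.lt_ofReal_iff_toReal_lt h1).2 (lt_add_of_pos_right _ hη))] with n hn
    exact ((ENNReal.lt_ofReal_iff_toReal_lt hn.ne_top).1 hn).le
  have e3 : ∀ᶠ n in U, ∀ j ∈ Finset.range N,
      μ.real {x | (j + 1) * δ < f x} - η ≤ (M n).real {x | (j + 1) * δ < f x} := by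
    refine (Finset.range N).eventually_all.2 fun j _ => ?_
    rcases lt_or_ge (μ.real {x | (j + 1) * δ < f x} - η) 0 with h1 | h1
    · exact Eventually.of_forall fun n => h1.le.trans measureReal_nonneg
    · filter_upwards [e1, h.lower _ (isOpen_lt continuous_const hf) (subset_univ _)
        (ENNReal.ofReal (μ.real {x | (j + 1) * δ < f x} - η))
        ((ENNReal.ofReal_lt_iff_lt_toReal h1 ((measure_mono (hsub j)).trans_lt hμ).ne).2
          (sub_lt_self _ hη))] with n hn hn'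
      exact ((ENNReal.ofReal_lt_iff_lt_toReal h1
        ((measure_mono (hsub j)).trans_lt hn).ne).1 hn').le
  obtain ⟨⟨-, a2⟩, -, a4⟩ := GPair_squeeze hf h0 hK hs hμ hδ hN'
  filter_upwards [e1, e2, e3] with n e1 e2 e3
  obtain ⟨⟨b1, -⟩, b3, -⟩ := GPair_squeeze hf h0 hK hs e1 hδ hN'
  have c1 := Finset.sum_le_sum fun j hj => mul_le_mul_of_nonneg_right (e2 j hj) hδ.le
  have c2 := Finset.sum_le_sum fun j hj => mul_le_mul_of_nonneg_right (e3 j hj) hδ.le
  simp only [add_mul _ η, sub_mul _ η, Finset.sum_add_distrib, Finset.sum_sub_distrib,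
    Finset.sum_const, Finset.card_range, nsmul_eq_mul] at c1 c2
  rw [Real.dist_eq, abs_lt]
  constructor <;> linarith only [hδ', hη', a4, b3, c2, a2, b1, c1]

end HRT
end

-- merged part: Pool.Agent.Work.MP_35beee_gt.GMl
section
/-!
Limits of weighted multicurves are measured laminations.

Plan. `cnt_le`: put `⌈tl⌉` points on a period of the axis at mutual distance `≤ 1`; a lift meeting
the ball has a translate of one of these points near `o` (`exists_card_near_le`, systole).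
`tendsto_ic`: for `j` periods, the open set `xs A (Ioo 0 (j tl))` has `μ`-mass at least
`j * ic - C`, and the compact set of lines meeting `pt A '' [0, j tl]` has `μ`-mass at most
`2 j * ic + C` and `M n`-mass at least `2 j * ic (M n) g`, with `C` independent of `j`.
`lam_ulimSet`: `isOpen_cross`, `Multi.sys`, `exists_core_simple`, `isClosed_inCore`.
`eventually_ic_le`: otherwise, cutting several periods of the axis into blocks of length `T`, some
block carries `ν`-mass `≥ ε T / 2`. Translate its starting point to within `R` of `o` and take the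
limit `A ∈ ulimSet` of the axes. The compact sets of lines meeting the closed `δ`-neighbourhood of
the limit segment eventually contain the block, and decrease to the set of lines meeting the
segment, whose mass is at most `ν {A, A.rev} ≤ ν {l | |side l o| ≤ sinh R}`. Take `T` large.
`eventually_le_ic`: `pairC_cnt`, `exists_le_wt` after a translation.
-/

namespace HRT

open Set Filter Topology Real MeasureTheory

variable {Γ : Type*} [Group Γ] {ρ σ : Γ →* Isom} {N : ℝ → ℝ} {I κ : Type} {U : Ultrafilter I}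

theorem GMl_count {S : Set Γ} (hS : S.Finite) (f : Γ → Geo) {M : ℕ} (h : S.ncard ≤ M) :
    Measure.count (f '' S) ≤ M := by
  rw [Measure.count_apply_finite _ (hS.image f), ← ncard_eq_toFinset_card _ (hS.image f)]
  exact_mod_cast (ncard_image_le hS).trans h

theorem GMl_open (A : Geo) {J : Set ℝ} (hJ : IsOpen J) : IsOpen (xs A J) := by
  refine isOpen_iff_mem_nhds.2 fun l hl => ?_
  filter_upwards [(isOpen_lt (continuous_const.B' GFermi_cs) continuous_const).mem_nhds hl.1,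
    (isOpen_lt continuous_const (continuous_const.B' GFermi_ct)).mem_nhds hl.2.1,
    ((continuousAt_xp (xs_cross hl)).comp (f := fun m : Geo => (A, m))
      (continuousAt_const.prodMk continuousAt_id)).preimage_mem_nhds (hJ.mem_nhds hl.2.2)]
    with m h1 h2 h3 using ⟨h1, h2, h3⟩

theorem GMl_per {μ : Measure Geo} (h : Cur ρ μ) {g : Γ} (hg : Hyp (ρ g)) (j : ℕ) (t : ℝ) :
    μ (xs (ax (ρ g)) (Ico t (t + j * tl (ρ g)))) = ENNReal.ofReal (j * ic μ (ρ g)) := by
  rcases eq_or_ne j 0 with rfl | hj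
  · rw [Nat.cast_zero, zero_mul, zero_mul, add_zero, Ico_self, ENNReal.ofReal_zero]
    exact measure_mono_null (fun l hl => hl.2.2) measure_empty
  obtain ⟨h1, h2, h3⟩ := hg.pow hj
  rw [← h.ic_pow, h.ic_eq (by rwa [map_pow]) t, map_pow, h2, h3,
    ofReal_measureReal (h.xs_lt_top _ (Metric.isBounded_Ico _ _)).ne]

theorem GMl_near {l : Geo} {p q : Pt} {D : ℝ} (h : side l p.1 = 0) (hd : dist q p ≤ D) :
    |side l q.1| ≤ sinh D := by
  have h2 := abs_arsinh_side_le l q p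
  rw [h, arsinh_zero, sub_zero] at h2
  have h4 := sinh_le_sinh.2 (h2.trans hd)
  rwa [← abs_sinh, sinh_arsinh] at h4

/-- Pairs of lines that meet within distance `D` of `q`. -/
def GMlG (q : Pt) (D : ℝ) : Set (Geo × Geo) :=
  {x | ∃ p : Pt, dist q p ≤ D ∧ side x.1 p.1 = 0 ∧ side x.2 p.1 = 0}

theorem GMl_mem {A l : Geo} {q : Pt} {D : ℝ} (h : Cross A l) (hd : dist q (pt A (xp A l)) ≤ D) :
    (A, l) ∈ GMlG q D :=
  ⟨_, hd, side_pt _ _, (side_pt_eq_zero_iff h _).2 rfl⟩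

theorem GMl_cpt (q : Pt) (D : ℝ) : IsCompact (GMlG q D) := by
  have hp : Continuous fun z : (Geo × Geo) × Pt => z.2.1 :=
    continuous_subtype_val.comp continuous_snd
  have h := ((((isCompact_lines q (sinh D)).prod (isCompact_lines q (sinh D))).prod
    (isCompact_closedBall q D)).inter_right
      ((isClosed_eq (continuous_side.comp (continuous_fst.fst.prodMk hp))
        (continuous_const (y := 0))).inter (isClosed_eq
          (continuous_side.comp (continuous_fst.snd.prodMk hp))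
          (continuous_const (y := 0))))).image continuous_fst
  refine (congrArg IsCompact (Set.ext fun x => ⟨?_, ?_⟩)).mp h
  · rintro ⟨z, ⟨⟨-, h1⟩, h2, h3⟩, rfl⟩
    exact ⟨z.2, Metric.mem_closedBall'.1 h1, h2, h3⟩
  · rintro ⟨p, h1, h2, h3⟩
    exact ⟨(x, p), ⟨⟨⟨GMl_near h2 h1, GMl_near h3 h1⟩, Metric.mem_closedBall'.2 h1⟩, h2, h3⟩, rfl⟩

theorem GMl_seg (A : Geo) (D : ℝ) : ∃ K, IsCompact K ∧ xs A (Icc 0 D) ⊆ K ∧
    K ⊆ xs A (Icc 0 D) ∪ {A, A.rev} := by
  refine ⟨_, ((((GMl_cpt (pt A (D / 2)) (D / 2)).inter_right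
    ((isClosed_singleton (x := A)).preimage continuous_fst)).image continuous_snd).inter_right
      ((isClosed_le (continuous_const.B' GFermi_cs) (continuous_const (y := 0))).inter
        (isClosed_le (continuous_const (y := 0)) (continuous_const.B' GFermi_ct)))),
    fun l hl => ⟨⟨(A, l), ⟨GMl_mem (xs_cross hl) ?_, rfl⟩, rfl⟩, hl.1.le, hl.2.1.le⟩, ?_⟩
  · rw [dist_pt, abs_le]
    constructor <;> linarith only [hl, hl.2.2.1, hl.2.2.2]
  · rintro l ⟨⟨⟨A', l⟩, ⟨⟨p, h1, h2, h3⟩, rfl⟩, rfl⟩, h4, h5⟩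
    by_cases e1 : l = A'
    · exact .inr (.inl e1)
    by_cases e2 : l = A'.rev
    · exact .inr (.inr e2)
    have h6 : Cross A' l := cross_of_common h2 h3 e1 e2
    rw [← eq_pt_of_side h2] at h1 h3
    rw [(side_pt_eq_zero_iff h6 _).1 h3, dist_pt, abs_le] at h1
    exact .inl ⟨lt_of_le_of_ne h4 (left_ne_zero_of_mul (ne_of_lt h6)),
      lt_of_le_of_ne h5 (right_ne_zero_of_mul (ne_of_lt h6)).symm, by linarith only [h1, h1.2],
      by linarith only [h1, h1.1]⟩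

theorem GMl_core {R : ℝ} (hR : ∀ γ : Γ, Simple ρ γ → InCore ρ R (ax (ρ γ))) {α : κ → Γ}
    (hα : ∀ i, Simple ρ (α i)) {l : Geo} (hl : l ∈ lifts ρ α) : InCore ρ R l := by
  obtain ⟨i, g, rfl | rfl⟩ := hl
  exacts [(hR _ (hα i)).smul g, ((hR _ (hα i)).smul g).rev]

theorem GMl_block {ν : Measure Geo} (hν : Cur ρ ν) {g : Γ} (hg : Hyp (ρ g)) {ε T : ℝ} (hε : 0 ≤ ε)
    (hT : 0 < T) (h : ε * tl (ρ g) < ic ν (ρ g)) :
    ∃ t, ENNReal.ofReal (ε * T / 2) < ν (xs (ax (ρ g)) (Ico t (t + T))) := by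
  by_contra hn
  simp only [not_exists, not_lt] at hn
  have key : ∀ j : ℕ, ν (xs (ax (ρ g)) (Ico 0 (j * T))) ≤ ENNReal.ofReal (j * (ε * T / 2)) := by
    intro j
    induction j with
    | zero =>
      rw [Nat.cast_zero, zero_mul, Ico_self]
      exact (measure_mono_null (fun l hl => hl.2.2) measure_empty).trans_le zero_le
    | succ j ih =>
      rw [Nat.cast_succ, add_mul, add_mul, one_mul, one_mul,
        ENNReal.ofReal_add (by positivity) (by positivity)]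
      refine le_trans (measure_mono fun l hl => ?_)
        ((measure_union_le _ _).trans (add_le_add ih (hn (j * T))))
      rcases lt_or_ge (xp (ax (ρ g)) l) (j * T) with h1 | h1
      exacts [.inl ⟨hl.1, hl.2.1, hl.2.2.1, h1⟩, .inr ⟨hl.1, hl.2.1, h1, hl.2.2.2⟩]
  have hτ : 0 < tl (ρ g) := hg
  obtain ⟨k, hk⟩ := exists_nat_gt (T / tl (ρ g))
  have hk0 : (0 : ℝ) < k := lt_trans (by positivity) hk
  rw [div_lt_iff₀ hτ] at hk
  have h1 := Nat.le_ceil (k * tl (ρ g) / T)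
  have h2 := Nat.ceil_lt_add_one (show 0 ≤ k * tl (ρ g) / T by positivity)
  generalize ⌈k * tl (ρ g) / T⌉₊ = j at h1 h2
  rw [div_le_iff₀ hT] at h1
  rw [div_add_one hT.ne', lt_div_iff₀ hT] at h2
  have h3 := ((GMl_per hν hg k 0).ge.trans
    (measure_mono (xs_mono _ (Ico_subset_Ico_right (by linarith))))).trans (key j)
  rw [ENNReal.ofReal_le_ofReal_iff (by positivity)] at h3
  have h4 := mul_lt_mul_of_pos_left h hk0
  have h5 := mul_le_mul_of_nonneg_left h2.le hε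
  have h6 := mul_le_mul_of_nonneg_left hk.le hε
  linarith only [h3, h4, h5, h6]

theorem Good.cnt_le (hρ : Good ρ N) (r : ℝ) : ∃ C : ℝ, 0 ≤ C ∧ ∀ s : Γ, Hyp (ρ s) →
    cnt ρ s {l | |side l o.1| ≤ r} ≤ ENNReal.ofReal (C * tl (ρ s)) := by
  obtain ⟨M, hM⟩ := hρ.toDisc.exists_card_near_le o (arsinh r + 1)
  obtain ⟨ε, hε, hsys⟩ := hρ.exists_systole
  refine ⟨(1 + ε⁻¹) * (M + M), by positivity, fun s hs => ?_⟩
  have hE : IsClosed {l : Geo | |side l o.1| ≤ r} := (isCompact_lines o r).isClosed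
  have key : ∀ g : Γ, |side (ρ g • ax (ρ s)) o.1| ≤ r → ∃ j ∈ Finset.range ⌈tl (ρ s)⌉₊, ∃ γ : Γ,
      dist o (ρ γ • pt (ax (ρ s)) j) ≤ arsinh r + 1 ∧ ρ γ • ax (ρ s) = ρ g • ax (ρ s) := by
    intro g hg
    have h1 := side_smul_pt (ρ g) (ax (ρ s)) ((ρ g)⁻¹ • o)
    rw [smul_inv_smul] at h1
    have h2 := dist_foot (ax (ρ s)) ((ρ g)⁻¹ • o)
    have h3 : |arsinh (side (ax (ρ s)) ((ρ g)⁻¹ • o).1)| ≤ arsinh r := by
      rw [← h1, abs_le, ← arsinh_neg, arsinh_le_arsinh, arsinh_le_arsinh]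
      exact abs_le.1 hg
    generalize fer (ax (ρ s)) ((ρ g)⁻¹ • o).1 = t at h2
    obtain ⟨n, ⟨h4, h5⟩, -⟩ := existsUnique_sub_zsmul_mem_Ico hs t 0
    rw [zsmul_eq_mul] at h4 h5
    have h6 := Nat.floor_le h4
    have h7 := Nat.lt_floor_add_one (t - n * tl (ρ s))
    refine ⟨⌊t - n * tl (ρ s)⌋₊, Finset.mem_range.2 (Nat.lt_ceil.2 (by linarith only [h5, h6])), g * s ^ n,
      ?_, by rw [map_mul, map_zpow, mul_smul, hs.zpow_smul_ax]⟩
    rw [map_mul, map_zpow, mul_smul, smul_pt, hs.zpow_smul_ax, hs.sh_zpow,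
      ← dist_smul (ρ g)⁻¹, inv_smul_smul]
    refine (dist_triangle _ (pt (ax (ρ s)) t) _).trans (add_le_add (h2.trans_le h3) ?_)
    rw [dist_pt, abs_le]
    constructor <;> linarith only [h6, h7]
  have hsub : {l : Geo | |side l o.1| ≤ r} ∩ (lifts ρ fun _ : Unit => s) ⊆
      ⋃ j ∈ Finset.range ⌈tl (ρ s)⌉₊,
        ((fun γ => ρ γ • ax (ρ s)) '' {γ | dist o (ρ γ • pt (ax (ρ s)) j) ≤ arsinh r + 1} ∪
        (fun γ => (ρ γ • ax (ρ s)).rev) ''
          {γ | dist o (ρ γ • pt (ax (ρ s)) j) ≤ arsinh r + 1}) := by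
    rintro l ⟨h1, _, g, rfl | rfl⟩
    · obtain ⟨j, hj, γ, h2, h3⟩ := key g h1
      exact mem_iUnion₂.2 ⟨j, hj, .inl ⟨γ, h2, h3⟩⟩
    · obtain ⟨j, hj, γ, h2, h3⟩ := key g (by simpa using h1)
      exact mem_iUnion₂.2 ⟨j, hj, .inr ⟨γ, h2, congrArg Geo.rev h3⟩⟩
  rw [cnt, Measure.restrict_apply hE.measurableSet]
  refine ((measure_mono hsub).trans (measure_biUnion_finset_le _ _)).trans
    ((Finset.sum_le_card_nsmul _ _ ((M : ENNReal) + M) fun j _ => (measure_union_le _ _).trans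
      (add_le_add (GMl_count (hρ.toDisc.finite_near _ _ _) _ (hM _))
        (GMl_count (hρ.toDisc.finite_near _ _ _) _ (hM _)))).trans ?_)
  rw [Finset.card_range, nsmul_eq_mul, ← Nat.cast_add, ← Nat.cast_mul, ← ENNReal.ofReal_natCast]
  refine ENNReal.ofReal_le_ofReal ?_
  have h1 := (Nat.ceil_lt_add_one (tl_nonneg (ρ s))).le
  have h2 : 1 ≤ ε⁻¹ * tl (ρ s) := by
    rw [← div_eq_inv_mul, one_le_div hε]
    exact hsys s hs
  push_cast
  rw [mul_right_comm]
  exact mul_le_mul_of_nonneg_right (by linarith only [h1, h2]) (by positivity)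

theorem IsULim.tendsto_ic {M : I → Measure Geo} {μ : Measure Geo} (h : IsULim U M univ μ)
    (hM : ∀ n, Cur ρ (M n)) (hμ : Cur ρ μ) (g : Γ) :
    Tendsto (fun n => ic (M n) (ρ g)) U (𝓝 (ic μ (ρ g))) := by
  by_cases hg : Hyp (ρ g)
  swap
  · simp only [GCurI_zero _ hg]
    exact tendsto_const_nhds
  have hτ : 0 < tl (ρ g) := hg
  have ha := ic_nonneg μ (ρ g)
  refine tendsto_order.2 ⟨fun b hb => ?_, fun b hb => ?_⟩
  · rcases lt_or_ge b 0 with h0 | h0
    · exact Eventually.of_forall fun n => h0.trans_le (ic_nonneg _ _)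
    obtain ⟨j, hj⟩ := exists_nat_gt (b / (ic μ (ρ g) - b))
    rw [div_lt_iff₀ (sub_pos.2 hb)] at hj
    have h1 : ENNReal.ofReal ((j + 1 : ℕ) * b) <
        μ (xs (ax (ρ g)) (Ioo 0 (0 + (j + 1 : ℕ) * tl (ρ g)))) := by
      refine lt_of_lt_of_le ?_ ((GMl_per hμ hg j (tl (ρ g))).ge.trans
        (measure_mono (xs_mono _ (Ico_subset_Ioo_left hτ |>.trans (Ioo_subset_Ioo_right ?_)))))
      · rw [ENNReal.ofReal_lt_ofReal_iff_of_nonneg (by positivity)]
        push_cast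
        linarith
      · push_cast
        linarith
    filter_upwards [h.lower _ (GMl_open _ isOpen_Ioo) (subset_univ _) _ h1] with n hn
    have h2 := hn.trans_le ((measure_mono (xs_mono _ Ioo_subset_Ico_self)).trans
      (GMl_per (hM n) hg (j + 1) 0).le)
    rw [ENNReal.ofReal_lt_ofReal_iff_of_nonneg (by positivity)] at h2
    exact lt_of_mul_lt_mul_left h2 (by positivity)
  · have := hμ.fin
    have hC : μ {ax (ρ g), (ax (ρ g)).rev} ≠ ⊤ := (toFinite _).isCompact.measure_lt_top.ne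
    have hC0 : 0 ≤ μ.real {ax (ρ g), (ax (ρ g)).rev} := measureReal_nonneg
    obtain ⟨j, hj⟩ := exists_nat_gt
      ((ic μ (ρ g) + μ.real {ax (ρ g), (ax (ρ g)).rev}) / (b - ic μ (ρ g)))
    rw [div_lt_iff₀ (sub_pos.2 hb)] at hj
    obtain ⟨K, hK, h1, h2⟩ := GMl_seg (ax (ρ g)) (j * tl (ρ g))
    have h3 : μ K < ENNReal.ofReal (j * b) := by
      refine lt_of_le_of_lt ((measure_mono h2).trans ((measure_union_le _ _).trans (add_le_add
        ((measure_mono (xs_mono _ (Icc_subset_Ico_right ?_))).trans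
          (GMl_per hμ hg (j + 1) 0).le) (ofReal_measureReal hC).ge))) ?_
      · push_cast
        linarith
      · rw [← ENNReal.ofReal_add (by positivity) hC0,
          ENNReal.ofReal_lt_ofReal_iff_of_nonneg (by positivity)]
        push_cast
        linarith
    filter_upwards [h.upper K hK (subset_univ _) _ h3] with n hn
    have h4 := ((GMl_per (hM n) hg j 0).ge.trans (measure_mono
      ((xs_mono _ (by rw [zero_add]; exact Ico_subset_Icc_self)).trans h1))).trans_lt hn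
    rw [ENNReal.ofReal_lt_ofReal_iff_of_nonneg (mul_nonneg j.cast_nonneg (ic_nonneg _ _))] at h4
    exact lt_of_mul_lt_mul_left h4 j.cast_nonneg

/-- The limit of a family of sets of lines along an ultrafilter. -/
def ulimSet (U : Ultrafilter I) (L : I → Set Geo) : Set Geo :=
  {l | ∀ O ∈ 𝓝 l, ∀ᶠ n in U, (O ∩ L n).Nonempty}

variable {β : I → κ → Γ} {w : I → κ → NNReal}

theorem lam_ulimSet [Finite κ] (hρ : Good ρ N) (hβ : ∀ n, Multi ρ (β n)) :
    Lam ρ (ulimSet U fun n => lifts ρ (β n)) := by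
  refine ⟨isOpen_compl_iff.1 (isOpen_iff_mem_nhds.2 fun l hl => ?_), fun g l hl O hO => ?_,
    fun l hl O hO => ?_, fun l hl m hm hc => ?_, ?_⟩
  · obtain ⟨O, hO⟩ := not_forall.1 hl
    obtain ⟨h1, h2⟩ := Classical.not_imp.1 hO
    filter_upwards [eventually_mem_nhds_iff.2 h1] with m hm h3 using h2 (h3 O hm)
  · filter_upwards [hl _ ((continuous_const_smul (ρ g)).continuousAt.preimage_mem_nhds hO)]
      with n ⟨m, h1, h2⟩ using ⟨_, h1, GSys_smul g h2⟩
  · filter_upwards [hl _ (Geo.continuous_rev.continuousAt.preimage_mem_nhds hO)]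
      with n ⟨m, h1, h2⟩ using ⟨_, h1, GCurI_rev h2⟩
  · obtain ⟨O, h1, O', h2, h3⟩ := mem_nhds_prod_iff.1 (isOpen_cross.mem_nhds (x := (l, m)) hc)
    obtain ⟨n, ⟨a, a1, a2⟩, b, b1, b2⟩ := ((hl O h1).and (hm O' h2)).exists
    have h4 := h3 (mk_mem_prod a1 b1)
    simp only [mem_ofPred_eq] at h4
    exact ((hβ n).sys hρ.toDisc).nc a a2 b b2 h4
  · obtain ⟨R, hR⟩ := hρ.exists_core_simple
    refine ⟨R, fun l hl => not_not.1 fun h => ?_⟩
    obtain ⟨n, m, h1, h2⟩ :=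
      (hl _ ((hρ.toDisc.isClosed_inCore R).isOpen_compl.mem_nhds h)).exists
    exact h1 (GMl_core hR (hβ n).1 h2)

theorem exists_ml (hρ : Good ρ N) (hβ : ∀ n, Multi ρ (β n))
    (hw : ∀ i, ∃ C : ℝ, ∀ᶠ n in U, w n i * tl (ρ (β n i)) ≤ C) :
    ∃ lam : κ → Measure Geo, ∀ i, Cur ρ (lam i) ∧
      IsULim U (fun n => w n i • cnt ρ (β n i)) univ (lam i) ∧
        lam i (ulimSet U fun n => lifts ρ (β n))ᶜ = 0 := by
  have key : ∀ i, ∃ lam, Cur ρ lam ∧ IsULim U (fun n => w n i • cnt ρ (β n i)) univ lam ∧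
      lam (ulimSet U fun n => lifts ρ (β n))ᶜ = 0 := by
    intro i
    obtain ⟨C, hC⟩ := hw i
    have hc : ∀ n, Cur ρ (w n i • cnt ρ (β n i)) := fun n =>
      (hρ.toDisc.cur_cnt ((hβ n).1 i).hyp).nnreal_smul _
    obtain ⟨ν, h1, h2⟩ := exists_isULim U (fun n => w n i • cnt ρ (β n i)) isOpen_univ
      fun l _ => by
        obtain ⟨D, hD, h⟩ := hρ.cnt_le (|side l o.1| + 1)
        refine ⟨{m | |side m o.1| < |side l o.1| + 1}, isOpen_lt
          (continuous_side.comp (continuous_id.prodMk continuous_const)).abs continuous_const,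
          lt_add_one |side l o.1|, ENNReal.ofReal (D * C), ENNReal.ofReal_lt_top, hC.mono fun n hn => ?_⟩
        rw [Measure.coe_nnreal_smul_apply]
        refine (mul_le_mul_right (le_trans (measure_mono fun m hm => ?_)
          (h _ ((hβ n).1 i).hyp)) _).trans ?_
        · exact le_of_lt (a := |side m o.1|) hm
        rw [← ENNReal.ofReal_coe_nnreal, ← ENNReal.ofReal_mul (w n i).coe_nonneg, mul_left_comm]
        exact ENNReal.ofReal_le_ofReal (mul_le_mul_of_nonneg_left hn hD)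
    refine ⟨ν, ⟨⟨fun K hK => h1.fin K hK (subset_univ _)⟩, fun g =>
      h2 (Homeomorph.smul (ρ g)) rfl fun n => (hc n).smul g,
      h2 ⟨⟨Geo.rev, Geo.rev, Geo.rev_rev, Geo.rev_rev⟩, Geo.continuous_rev, Geo.continuous_rev⟩ rfl
        fun n => (hc n).rev⟩, h1, h1.null isOpen_univ fun l hl _ => ?_⟩
    obtain ⟨O, hO⟩ := not_forall.1 hl
    obtain ⟨h3, h4⟩ := Classical.not_imp.1 hO
    refine ⟨interior O, isOpen_interior, mem_interior_iff_mem_nhds.2 h3,
      tendsto_const_nhds.congr' ((Ultrafilter.eventually_not.2 h4).mono fun n hn => ?_)⟩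
    have h5 : interior O ∩ (lifts ρ fun _ : Unit => β n i) = ∅ :=
      eq_empty_of_forall_notMem fun m ⟨a, _, b⟩ => hn ⟨m, interior_subset a, i, b⟩
    simp only [Measure.coe_nnreal_smul_apply, cnt,
      Measure.restrict_apply isOpen_interior.measurableSet, h5, measure_empty, mul_zero]
  choose lam h using key
  exact ⟨lam, h⟩

theorem tendsto_inter (hρ : Good ρ N) {s : I → Γ} (hs : ∀ n, Simple ρ (s n)) {v : I → NNReal}
    {lam : Measure Geo} (hl : Cur ρ lam) (h : IsULim U (fun n => v n • cnt ρ (s n)) univ lam)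
    {g : Γ} (hg : Hyp (ρ g)) :
    Tendsto (fun n => (v n : ℝ) * inter ρ g (s n)) U (𝓝 (ic lam (ρ g))) := by
  refine (h.tendsto_ic (fun n => (hρ.toDisc.cur_cnt (hs n).hyp).nnreal_smul _) hl g).congr
    fun n => ?_
  rw [ic_nnreal_smul, hρ.toDisc.ic_cnt (hs n).hyp (hs n).prim hg]

theorem tendsto_tl_pairC (hρ : Good ρ N) {s : I → Γ} (hs : ∀ n, Simple ρ (s n)) {v : I → NNReal}
    {lam : Measure Geo} (h : IsULim U (fun n => v n • cnt ρ (s n)) univ lam) {R : ℝ} {χ : Pt → ℝ}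
    (hχ : Bump ρ R χ) (hR : ∀ g, Simple ρ g → InCore ρ R (ax (ρ g))) {k : Circ ≃ₜ Circ}
    (hm : IsMark ρ σ k) :
    Tendsto (fun n => (v n : ℝ) * tl (σ (s n))) U (𝓝 (pairC χ (pull k) lam)) := by
  obtain ⟨K, hK, h0⟩ := hχ.exists_wt_eq_zero
  refine ((h.tendsto_integral (hχ.continuous_wt hm.cur_pull (pull_side k)) (hχ.wt_nonneg _) hK
    (h0 _)).div_const 2).congr fun n => ?_
  rw [← hm.ic_pull, ← hχ.pairC_cnt hρ.toDisc hm.cur_pull (hs n).hyp (hs n).prim (hR _ (hs n)),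
    ← pairC_smul, pairC]

/-- The curves almost do not cross a current carried by their limit. -/
theorem eventually_ic_le [Finite κ] (hρ : Good ρ N) (hβ : ∀ n, Multi ρ (β n)) {ν : Measure Geo}
    (hν : Cur ρ ν) (h0 : ν (ulimSet U fun n => lifts ρ (β n))ᶜ = 0) {ε : ℝ} (hε : 0 < ε) :
    ∀ᶠ n in U, ∀ i, ic ν (ρ (β n i)) ≤ ε * tl (ρ (β n i)) := by
  refine eventually_all.2 fun i => not_not.1 fun hne => ?_
  obtain ⟨R, hR⟩ := hρ.exists_core_simple
  have := hν.isLocallyFiniteMeasure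
  have hC : ν {l | |side l o.1| ≤ sinh R} ≠ ⊤ := (isCompact_lines o _).measure_lt_top.ne
  obtain ⟨T, hT, hT'⟩ : ∃ T > 0, ν.real {l | |side l o.1| ≤ sinh R} < ε * T / 2 := by
    have : 0 ≤ ν.real {l | |side l o.1| ≤ sinh R} := measureReal_nonneg
    refine ⟨2 * (ν.real {l | |side l o.1| ≤ sinh R} + 1) / ε, by positivity, ?_⟩
    rw [mul_div_cancel₀ _ hε.ne']
    linarith only []
  have h1 : ∀ᶠ n in U, ∃ A, A ∈ lifts ρ (β n) ∧ |side A o.1| ≤ sinh R ∧
      ENNReal.ofReal (ε * T / 2) < ν (Prod.mk A ⁻¹' GMlG o (R + T)) := by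
    filter_upwards [Ultrafilter.eventually_not.2 hne] with n hn
    obtain ⟨t, ht⟩ := GMl_block hν ((hβ n).1 i).hyp hε.le hT (not_le.1 hn)
    obtain ⟨g, hg⟩ := hR _ ((hβ n).1 i) t
    rw [← dist_smul (ρ g)⁻¹, inv_smul_smul, smul_pt, ← map_inv] at hg
    refine ⟨ρ g⁻¹ • ax (ρ (β n i)), ⟨i, _, .inl rfl⟩, GMl_near (side_pt _ _) hg,
      ht.trans_le (le_of_eq_of_le ?_ (measure_mono (s := xs (ρ g⁻¹ • ax (ρ (β n i)))
        (Ico (t + sh (ρ g⁻¹) (ax (ρ (β n i)))) (t + sh (ρ g⁻¹) (ax (ρ (β n i))) + T)))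
          fun l hl => ?_))⟩
    · rw [hν.xs_smul _ _ measurableSet_Ico, preimage_add_const_Ico]
      congr 3 <;> ring
    · refine GMl_mem (xs_cross hl) ((dist_triangle _ _ _).trans (add_le_add hg ?_))
      rw [dist_pt, abs_le]
      constructor <;> linarith only [hl, hT, hl.2.2.1, hl.2.2.2]
  obtain ⟨A, hA⟩ := h1.choice
  obtain ⟨A', a1, a2⟩ := (isCompact_lines o (sinh R)).ultrafilter_le_nhds (U.map A)
    (le_principal_iff.2 (hA.mono fun n hn => hn.2.1))
  have a3 : Tendsto A U (𝓝 A') := a2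
  have a4 : A' ∈ ulimSet U fun n => lifts ρ (β n) := fun O hO => by
    filter_upwards [a3.eventually hO, hA] with n b1 b2 using ⟨_, b1, b2.1⟩
  have a5 : ν (Prod.mk A' ⁻¹' GMlG o (R + T)) < ENNReal.ofReal (ε * T / 2) := by
    rw [← measure_inter_conull h0]
    refine lt_of_le_of_lt (measure_mono (t := {l | |side l o.1| ≤ sinh R}) ?_) ?_
    · rintro l ⟨⟨p, -, b1, b2⟩, b3⟩
      by_cases e1 : l = A'
      · exact e1 ▸ a1
      by_cases e2 : l = A'.rev
      · rw [e2, mem_ofPred_eq, side_rev, abs_neg]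
        exact a1
      exact absurd (cross_of_common b1 b2 e1 e2) ((lam_ulimSet hρ hβ).nc _ a4 _ b3)
    · rw [← ofReal_measureReal hC, ENNReal.ofReal_lt_ofReal_iff_of_nonneg measureReal_nonneg]
      exact hT'
  obtain ⟨O, b1, b2, b3⟩ := Set.exists_isOpen_lt_of_lt _ _ a5
  have b4 := (((GMl_cpt o (R + T)).inter_right
    (b2.isClosed_compl.preimage continuous_snd)).image continuous_fst).isClosed.isOpen_compl
  obtain ⟨n, c1, c2⟩ := ((a3.eventually (b4.mem_nhds
    (by rintro ⟨x, ⟨c1, c2⟩, rfl⟩; exact c2 (b1 c1)))).and hA).exists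
  exact (c2.2.2.trans_le (measure_mono fun l hl =>
    not_not.1 fun h => c1 ⟨(A n, l), ⟨hl, h⟩, rfl⟩)).asymm b3

/-- If the supports cross, the curves cross the current at a definite rate. -/
theorem eventually_le_ic (hρ : Good ρ N) {s : I → Γ} (hs : ∀ n, Simple ρ (s n)) {v : I → NNReal}
    {lam ν : Measure Geo} (hl : Cur ρ lam) (h : IsULim U (fun n => v n • cnt ρ (s n)) univ lam)
    (hν : Cur ρ ν) {l m : Geo} (h1 : l ∈ lam.support) (h2 : m ∈ ν.support) (hc : Cross l m) :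
    ∃ δ > 0, ∀ᶠ n in U, δ ≤ (v n : ℝ) * ic ν (ρ (s n)) := by
  obtain ⟨R, hR⟩ := hρ.exists_core_simple
  obtain ⟨χ, hχ⟩ := hρ.toDisc.exists_bump (max R (dist o (pt l (xp l m))))
  obtain ⟨δ, hδ, O, a1, a2, a3⟩ := hχ.exists_le_wt hν h2 hc (le_max_right _ _)
  obtain ⟨a, a4, a5, a6⟩ := ENNReal.lt_iff_exists_real_btwn.1
    ((Measure.mem_support_iff_forall l).1 h1 O (a1.mem_nhds a2))
  refine ⟨δ * a / 2, by have := ENNReal.ofReal_pos.1 a5; positivity, ?_⟩
  filter_upwards [h.lower O a1 (subset_univ _) _ a6] with n hn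
  have b1 := hχ.integrable_wt hν ((hρ.toDisc.cur_cnt (hs n).hyp).nnreal_smul (v n))
  have b2 := mul_meas_ge_le_integral_of_nonneg (Eventually.of_forall (hχ.wt_nonneg ν)) b1 δ
  have b3 := (ENNReal.ofReal_le_iff_le_toReal (b1.measure_ge_lt_top hδ).ne).1
    (hn.le.trans (measure_mono a3))
  rw [← hχ.pairC_cnt hρ.toDisc hν (hs n).hyp (hs n).prim
    fun t => (hR _ (hs n) t).imp fun g hg => hg.trans (le_max_left _ _), ← pairC_smul, pairC]
  exact div_le_div_of_nonneg_right ((mul_le_mul_of_nonneg_left b3 hδ.le).trans b2) two_pos.le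

end HRT
end

-- merged part: Pool.Agent.Work.MP_35beee_gt.GLimB
section
/-!
Lengths and twists in the limit.

Plan. `tendsto_tl`: if the axis `A` is a lift of a node both sides vanish (`node`, `tl_conj'`,
`tl_inv`, `eq_of_ax_eq`; lines of `Core` do not cross `A`). Otherwise, for `j ≥ 1` periods, the open
set `xs A (Ioo 0 (j tl))` minus the lifts has `ν`-mass at least `j * ic - C`, and the compact set
`K` of lines meeting the closed segment `pt A '' [0, j tl]` is disjoint from the lifts, has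
`ν`-mass at most `2 j * ic + C` and `resc`-mass at least `2 j * tl (σ n β) / c n` (`ic_pull`,
`Cur.ic_eq`, `Cur.xs_rev`), with `C` independent of `j`. `tendsto_atom`: take `a` on the left and
`b` on the right of `A`, and the boxes `box (s^(-j) • a) (s^(-j) • b) (s^j • b) (s^j • a)`; their
closures are compact, decrease to `{A}` and are disjoint from the lifts for large `j`. By
`liou_box_axis` in the plane of `σ n` (`Ori.image_box`, `sys`) the mass of the box is
`|τ n|` up to `2 j tl (σ n s) + C`, where `τ n` is the twist of the image of the line from `b` to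
`a`. `not_cross`: `exists_box_of_cross`, and `exists_box_two` for the images of the boxes under
`f n` (`pull_trans`); the line `m.map (f n)` is simple with no end at a cusp
(`IsMark.simpleLine_iff`, `IsMark.isCusp_iff`, `not_cusp_of_inCore`), so it is in the core.
-/

namespace HRT

open Set Filter Topology Real MeasureTheory

variable {Γ : Type*} [Group Γ] {ρ : Γ →* Isom} {N : ℝ → ℝ} {ι I : Type} {α : ι → Γ}
  {U : Ultrafilter I} {c : I → ℝ} {σ : I → Γ →* Isom} {k : I → Circ ≃ₜ Circ} {ν : Measure Geo}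

theorem GLimB_per {μ : Measure Geo} (h : Cur ρ μ) {g : Γ} (hg : Hyp (ρ g)) (t : ℝ) (j : ℕ) :
    μ (xs (ax (ρ g)) (Ico t (t + j * tl (ρ g)))) = ENNReal.ofReal (j * ic μ (ρ g)) := by
  rw [← ENNReal.ofReal_toReal (h.xs_lt_top _ (Metric.isBounded_Ico _ _)).ne]
  congr 1
  rcases eq_or_ne j 0 with rfl | hj
  · have : xs (ax (ρ g)) (Ico t (t + (0 : ℕ) * tl (ρ g))) = ∅ :=
      eq_empty_of_forall_notMem fun l hl => by simpa using hl.2.2
    rw [this]
    simp
  · obtain ⟨h1, h2, h3⟩ := hg.pow hj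
    rw [← map_pow] at h1 h2 h3
    have := h.ic_eq h1 t
    rw [h.ic_pow, h2, h3] at this
    exact this.symm

theorem GLimB_resc (hd : Deg ρ α U c σ k) {n : I} (hn : 0 < c n) {g : Γ} (hg : Hyp (ρ g)) (j : ℕ) :
    resc c k n (xs (ax (ρ g)) (Ico 0 (0 + j * tl (ρ g)))) =
      ENNReal.ofReal (j * (tl (σ n g) / c n)) := by
  rw [resc, Measure.smul_apply, GLimB_per (hd.mark n).cur_pull hg, (hd.mark n).ic_pull, smul_eq_mul,
    ← ENNReal.ofReal_mul (inv_nonneg.2 hn.le)]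
  congr 1
  ring

theorem GLimB_open (A : Geo) {J : Set ℝ} (hJ : IsOpen J) : IsOpen (xs A J) := by
  have h1 : IsOpen (xs A univ) := by
    have e : xs A univ = {l | side A l.src.1 < 0} ∩ {l | 0 < side A l.tgt.1} :=
      Set.ext fun l => by simp [xs]
    have c1 : Continuous fun l : Geo => side A l.src.1 := continuous_const.B' GFermi_cs
    have c2 : Continuous fun l : Geo => side A l.tgt.1 := continuous_const.B' GFermi_ct
    rw [e]
    exact (isOpen_lt c1 continuous_const).inter (isOpen_lt continuous_const c2)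
  have h2 := (GCurI_cont A).isOpen_inter_preimage h1 hJ
  convert h2 using 1
  ext l
  simp only [xs, mem_inter_iff, mem_setOf_eq, mem_univ, and_true, mem_preimage, and_assoc]

theorem GLimB_compact (A : Geo) (S : ℝ) : ∃ K, IsCompact K ∧ xs A (Icc 0 S) ⊆ K ∧
    K ⊆ xs A (Icc 0 S) ∪ {A, A.rev} := by
  have hp : Continuous fun x : Geo × ℝ => (pt A x.2).1 :=
    continuous_subtype_val.comp (continuous_pt.comp (continuous_const.prodMk continuous_snd))
  have h1 : IsClosed {x : Geo × ℝ | side x.1 (pt A x.2).1 = 0 ∧ side A x.1.src.1 ≤ 0 ∧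
      0 ≤ side A x.1.tgt.1} :=
    (isClosed_eq (continuous_side.comp (continuous_fst.prodMk hp)) continuous_const).inter
      ((isClosed_le (continuous_side.comp (continuous_const.prodMk (GFermi_cs.comp continuous_fst)))
        continuous_const).inter (isClosed_le continuous_const
          (continuous_side.comp (continuous_const.prodMk (GFermi_ct.comp continuous_fst)))))
  refine ⟨_, ((((isCompact_lines (pt A 0) (sinh S)).prod (isCompact_Icc (a := 0) (b := S))).inter_right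
    h1).image continuous_fst), fun l hl => ?_, ?_⟩
  · have h2 := (side_pt_eq_zero_iff (xs_cross hl) _).2 rfl
    refine ⟨(l, xp A l), ⟨⟨?_, hl.2.2⟩, h2, hl.1.le, hl.2.1.le⟩, rfl⟩
    have h3 := abs_arsinh_side_le l (pt A 0) (pt A (xp A l))
    rw [h2, arsinh_zero, sub_zero, dist_pt, zero_sub, abs_neg, abs_of_nonneg hl.2.2.1] at h3
    have h4 := sinh_le_sinh.2 (h3.trans hl.2.2.2)
    rw [← abs_sinh, sinh_arsinh] at h4
    exact h4
  · rintro _ ⟨⟨l, s⟩, ⟨⟨_, h2⟩, h3, h4, h5⟩, rfl⟩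
    by_cases e : l = A
    · exact .inr (.inl e)
    by_cases e' : l = A.rev
    · exact .inr (.inr e')
    have hc : Cross A l := cross_of_common (side_pt A s) h3 e e'
    exact .inl ⟨lt_of_le_of_ne h4 (GStrip_src hc), lt_of_le_of_ne h5 (right_ne_zero_of_mul hc.ne).symm,
      (side_pt_eq_zero_iff hc s).1 h3 ▸ h2⟩

theorem GLimB_node (hd : Deg ρ α U c σ k) (hρ : Disc ρ) (hα : Multi ρ α) {β : Γ} (hβ : Simple ρ β)
    (h : ax (ρ β) ∈ lifts ρ α) : Tendsto (fun n => tl (σ n β) / c n) U (𝓝 0) := by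
  obtain ⟨a, d, h1, h2⟩ := (mem_lifts_iff (fun i => (hα.1 i).hyp)).1 h
  have h3 : Simple ρ d := by
    rcases h1 with h1 | h1
    · obtain ⟨g, rfl⟩ := isConj_iff.1 h1
      exact (hα.1 a).conj g
    · obtain ⟨g, rfl⟩ := isConj_iff.1 h1
      exact (hα.1 a).inv.conj g
  rw [← hρ.eq_of_ax_eq h3.hyp h3.prim hβ.hyp hβ.prim h2]
  simpa only [GSys_tl h1] using hd.node a

theorem GLimB_core {R w : ℝ} (hw : 0 < w) {l m : Geo} (hl : l ∈ Core ρ α R w)
    (hm : m ∈ lifts ρ α) : ¬ Cross m l ∧ l ≠ m := by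
  have h1 := (one_lt_cosh.2 hw.ne').trans_le (hl.2.2 m hm)
  refine ⟨fun h => ((cross_iff_abs_B m l).1 h).asymm h1, ?_⟩
  rintro rfl
  rw [B_nrm_nrm, abs_one] at h1
  exact h1.false

theorem Deg.tendsto_tl [Finite ι] (hd : Deg ρ α U c σ k) (hρ : Disc ρ) (hα : Multi ρ α)
    (hν : Cur ρ ν) (hl : IsULim U (resc c k) (lifts ρ α)ᶜ ν) {R w : ℝ} (hw : 0 < w)
    (h0 : ν (Core ρ α R w)ᶜ = 0) {β : Γ} (hβ : Simple ρ β) (hi : ∀ a, inter ρ β (α a) = 0) :
    Tendsto (fun n => tl (σ n β) / c n) U (𝓝 (ic ν (ρ β))) := by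
  have hpos : ∀ᶠ n in U, 0 < c n := hd.top.eventually_gt_atTop 0
  by_cases hA : ax (ρ β) ∈ lifts ρ α
  · have : ic ν (ρ β) = 0 := by
      rw [ic, measureReal_def, measure_mono_null (fun l h1 h2 => (GLimB_core hw h2 hA).1 (xs_cross h1))
        h0, ENNReal.toReal_zero]
    rw [this]
    exact GLimB_node hd hρ hα hβ hA
  have hnc : ∀ m ∈ lifts ρ α, ¬ Cross (ax (ρ β)) m := by
    rintro _ ⟨a, g, rfl | rfl⟩
    · exact (hρ.inter_eq_zero_iff hβ.hyp (hα.1 a).hyp (hα.1 a).prim).1 (hi a) g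
    · rw [cross_rev_right]
      exact (hρ.inter_eq_zero_iff hβ.hyp (hα.1 a).hyp (hα.1 a).prim).1 (hi a) g
  have hT : 0 < tl (ρ β) := hβ.hyp
  have hL := ic_nonneg ν (ρ β)
  refine tendsto_order.2 ⟨fun a ha => ?_, fun a ha => ?_⟩
  · rcases lt_or_ge a 0 with h1 | h1
    · exact hpos.mono fun n hn => h1.trans_le (div_nonneg (tl_nonneg _) hn.le)
    obtain ⟨j, hj⟩ := exists_nat_gt (a / (ic ν (ρ β) - a))
    rw [div_lt_iff₀ (sub_pos.2 ha)] at hj
    have h2 : ENNReal.ofReal (((j + 1 : ℕ) : ℝ) * a) <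
        ν (xs (ax (ρ β)) (Ioo 0 (0 + (j + 1 : ℕ) * tl (ρ β)))) := by
      refine lt_of_lt_of_le ?_ (measure_mono (xs_mono _ (show Ico (tl (ρ β))
        (tl (ρ β) + j * tl (ρ β)) ⊆ _ from fun x hx => ⟨hT.trans_le hx.1, by
          push_cast; linarith [hx.2]⟩)))
      rw [GLimB_per hν hβ.hyp, ENNReal.ofReal_lt_ofReal_iff_of_nonneg (by positivity)]
      push_cast
      linarith
    filter_upwards [hpos, hl.lower _ (GLimB_open _ isOpen_Ioo)
      (fun l h3 h4 => hnc l h4 (xs_cross h3)) _ h2] with n hn h3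
    have h4 := h3.trans_le (measure_mono (xs_mono _ Ioo_subset_Ico_self))
    rw [GLimB_resc hd hn hβ.hyp, ENNReal.ofReal_lt_ofReal_iff_of_nonneg (by positivity)] at h4
    exact lt_of_mul_lt_mul_left h4 (by positivity)
  · have := hν.fin
    have hC : ν {ax (ρ β), (ax (ρ β)).rev} ≠ ⊤ := (toFinite _).isCompact.measure_lt_top.ne
    set C := (ν {ax (ρ β), (ax (ρ β)).rev}).toReal with hCd
    have hC0 : 0 ≤ C := ENNReal.toReal_nonneg
    obtain ⟨j, hj⟩ := exists_nat_gt ((ic ν (ρ β) + C) / (a - ic ν (ρ β)))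
    rw [div_lt_iff₀ (sub_pos.2 ha)] at hj
    obtain ⟨K, k1, k2, k3⟩ := GLimB_compact (ax (ρ β)) (0 + j * tl (ρ β))
    have h1 : (ic ν (ρ β)) * (j + 1) + C < j * a := by linarith only [hj]
    have h2 : ν K < ENNReal.ofReal (j * a) := by
      refine ((measure_mono k3).trans (measure_union_le _ _)).trans_lt ?_
      refine lt_of_le_of_lt (add_le_add_left (measure_mono (xs_mono _ (show _ ⊆ Ico 0
        (0 + (j + 1 : ℕ) * tl (ρ β)) from fun x hx => ⟨hx.1, by
          push_cast; linarith [hx.2]⟩))) _) ?_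
      rw [GLimB_per hν hβ.hyp, ← ENNReal.ofReal_toReal hC, ← ENNReal.ofReal_add (by positivity) hC0,
        ENNReal.ofReal_lt_ofReal_iff_of_nonneg (by positivity)]
      push_cast
      linarith
    filter_upwards [hpos, hl.upper K k1 (fun l h3 h4 => by
      rcases k3 h3 with h5 | rfl | rfl
      · exact hnc l h4 (xs_cross h5)
      · exact hA h4
      · exact hA (rev_mem_lifts h4)) _ h2] with n hn h3
    have h4 := (measure_mono ((xs_mono _ Ico_subset_Icc_self).trans k2)).trans_lt h3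
    rw [GLimB_resc hd hn hβ.hyp, ENNReal.ofReal_lt_ofReal_iff_of_nonneg
      (mul_nonneg j.cast_nonneg (div_nonneg (tl_nonneg _) hn.le))] at h4
    exact lt_of_mul_lt_mul_left h4 j.cast_nonneg

theorem GLimB_shrink {ξ η : Circ} (hne : ξ ≠ η) {u v : ℕ → Circ} (hu : Tendsto u atTop (𝓝 ξ))
    (hv : Tendsto v atTop (𝓝 ξ)) (h : ∀ j, ccw (v j) η (u j)) {S : Set Circ} (hS : S ∈ 𝓝 ξ) :
    ∀ᶠ j in atTop, arc (u j) (v j) ⊆ S := by
  obtain ⟨p, q, h1, h2⟩ := exists_arc_subset (inter_mem hS (compl_singleton_mem_nhds hne))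
  filter_upwards [eventually_ccw tendsto_const_nhds hu tendsto_const_nhds h1,
    eventually_ccw tendsto_const_nhds hv tendsto_const_nhds h1] with j h3 h4 z hz
  rcases ccw_total h3.ne12 (h j).ne13.symm h4.ne12 with h5 | h5
  · exact (h2 (garc_arc_subset _ _ (garc_nest h5 h4 hz))).1
  · exact ((h2 (garc_arc_subset _ _ (garc_nest h5 h3 (h j)))).2 rfl).elim

/-- The boxes around an axis. -/
def GLimB_box (g : Isom) (l : Geo) (j : ℕ) : Set Geo :=
  box (g ^ (-j : ℤ) • l.tgt) (g ^ (-j : ℤ) • l.src) (g ^ (j : ℤ) • l.src) (g ^ (j : ℤ) • l.tgt)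

theorem GLimB_ccw {A : Geo} {a b : Circ} (ha : 0 < side A a.1) (hb : side A b.1 < 0) :
    ccw a A.src b ∧ ccw b A.tgt a :=
  ⟨(((side_neg_iff A b).1 hb).trans ((side_pos_iff A a).1 ha)).cyc.cyc,
    ((side_neg_iff A b).1 hb).trans' ((side_pos_iff A a).1 ha)⟩

theorem GLimB_mem {g : Isom} (hg : Hyp g) {l : Geo} (h1 : side (ax g) l.src.1 < 0)
    (h2 : 0 < side (ax g) l.tgt.1) (j : ℕ) : ax g ∈ GLimB_box g l j :=
  ⟨(GLimB_ccw (GColl_zpow_pos hg _ h2).1 (GColl_zpow_neg hg _ h1).1).1,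
    (GLimB_ccw (GColl_zpow_pos hg _ h2).1 (GColl_zpow_neg hg _ h1).1).2⟩

theorem GLimB_small {g : Isom} (hg : Hyp g) {l : Geo} (h1 : side (ax g) l.src.1 < 0)
    (h2 : 0 < side (ax g) l.tgt.1) {K : Set Geo} (hK : K ∈ 𝓝 (ax g)) :
    ∀ᶠ j in atTop, GLimB_box g l j ⊆ K := by
  obtain ⟨K', h3, h4⟩ := (mem_nhds_subtype _ _ _).1 hK
  obtain ⟨S, h5, S', h6, h7⟩ := mem_nhds_prod_iff.1 h3
  have t1 : ∀ ξ : Circ, side (ax g) ξ.1 ≠ 0 →
      Tendsto (fun j : ℕ => g ^ (j : ℤ) • ξ) atTop (𝓝 (ax g).tgt) := fun ξ h => by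
    simpa only [zpow_natCast] using hg.tendsto_pow fun e => h (by rw [e, side_src])
  have t2 : ∀ ξ : Circ, side (ax g) ξ.1 ≠ 0 →
      Tendsto (fun j : ℕ => g ^ (-j : ℤ) • ξ) atTop (𝓝 (ax g).src) := fun ξ h => by
    have := hg.inv.tendsto_pow (ξ := ξ) fun e => h (by rw [e, hg.ax_inv, Geo.src_rev, side_tgt])
    simpa only [zpow_neg, zpow_natCast, inv_pow, hg.ax_inv, Geo.tgt_rev] using this
  filter_upwards [GLimB_shrink (ax g).ne (t2 _ h2.ne') (t2 _ h1.ne)
    (fun j => (GLimB_ccw (GColl_zpow_pos hg _ h2).1 (GColl_zpow_neg hg _ h1).1).2) h5,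
    GLimB_shrink (ax g).ne.symm (t1 _ h1.ne) (t1 _ h2.ne')
    (fun j => (GLimB_ccw (GColl_zpow_pos hg _ h2).1 (GColl_zpow_neg hg _ h1).1).1) h6]
    with j a1 a2 m hm
  exact h4 (h7 ⟨a1 hm.1, a2 hm.2⟩)

theorem GLimB_est {ε : ℝ} (hε : 0 < ε) : ∃ C : ℝ, ∀ g : Isom, ε ≤ tl g → ∀ l : Geo,
    side (ax g) l.src.1 < 0 → 0 < side (ax g) l.tgt.1 → ∀ j : ℕ, 1 ≤ j →
      liou (GLimB_box g l j) ≠ ⊤ ∧
        |liou.real (GLimB_box g l j) - abs (twist (ax g) l)| ≤ 2 * j * tl g + C := by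
  obtain ⟨C, _, hC⟩ := liou_box_axis hε
  refine ⟨C, fun g hg l h1 h2 j hj => ?_⟩
  have hy : Hyp g := hε.trans_le hg
  obtain ⟨a1, a2⟩ := GColl_zpow_pos hy (-j : ℤ) h2
  obtain ⟨b1, b2⟩ := GColl_zpow_neg hy (-j : ℤ) h1
  obtain ⟨c1, c2⟩ := GColl_zpow_neg hy (j : ℤ) h1
  obtain ⟨d1, d2⟩ := GColl_zpow_pos hy (j : ℤ) h2
  have hj' : (1 : ℝ) ≤ j := by exact_mod_cast hj
  have h3 : ε ≤ j * tl g := hg.trans (le_mul_of_one_le_left (tl_nonneg g) hj')
  push_cast at a2 b2 c2 d2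
  obtain ⟨e1, e2⟩ := hC (ax g) _ _ _ _ a1 b1 c1 d1 (by linarith only [hε, h3, b2, c2]) (by linarith only [hε, h3, a2, d2])
  refine ⟨e1, ?_⟩
  rw [a2, b2, c2, d2] at e2
  rw [twist, if_pos h1]
  change |liou.real (GLimB_box g l j) - _| ≤ C at e2
  rw [abs_le] at e2 ⊢
  generalize liou.real (GLimB_box g l j) = x at e2 ⊢
  rcases abs_cases (fer (ax g) l.src.1 - fer (ax g) l.tgt.1) with h4 | h4 <;>
    rcases max_cases (fer (ax g) l.src.1 + -j * tl g - (fer (ax g) l.tgt.1 + j * tl g)) 0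
      with h5 | h5 <;>
    rcases max_cases (fer (ax g) l.tgt.1 + -j * tl g - (fer (ax g) l.src.1 + j * tl g)) 0
      with h6 | h6 <;>
    constructor <;> linarith only [hε, h3, h5, h6, e2, h4, e2.1, e2.2, h4.1, h4.2, h5.1, h5.2, h6.1, h6.2]

theorem GLimB_mass (hd : Deg ρ α U c σ k) {s : Γ} (hs : Simple ρ s)
    (h0 : Tendsto (fun n => tl (σ n s) / c n) U (𝓝 0)) {l : Geo} (h1 : side (ax (ρ s)) l.src.1 < 0)
    (h2 : 0 < side (ax (ρ s)) l.tgt.1) {j : ℕ} (hj : 1 ≤ j) {δ : ℝ} (hδ : 0 < δ) :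
    ∀ᶠ n in U, ∃ x : ℝ, 0 ≤ x ∧ resc c k n (GLimB_box (ρ s) l j) = ENNReal.ofReal x ∧
      |x - |twist (ax (σ n s)) (l.map (k n))| / c n| < δ := by
  obtain ⟨ε, hε, hsys⟩ := hd.sys
  obtain ⟨C, hC⟩ := GLimB_est hε
  have h3 : Tendsto (fun n => 2 * j * (tl (σ n s) / c n) + C / c n) U (𝓝 (2 * j * 0 + 0)) :=
    (h0.const_mul _).add (tendsto_const_nhds.div_atTop hd.top)
  rw [mul_zero, add_zero] at h3
  filter_upwards [hd.top.eventually_gt_atTop 0, h3.eventually_lt_const hδ] with n hn h4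
  have hm := hd.mark n
  have e1 := (hm.hyp hs.hyp).2
  have e2 : ∀ (i : ℤ) (ξ : Circ), k n (ρ s ^ i • ξ) = σ n s ^ i • k n ξ := fun i ξ => by
    rw [← map_zpow, hm.2, map_zpow]
  obtain ⟨a1, a2⟩ := hC (σ n s) (hsys n s hs) (l.map (k n))
    (by rw [e1]; exact (hm.ori.side_neg _ _).2 h1) (by rw [e1]; exact (hm.ori.side_pos _ _).2 h2) j hj
  have e3 : pull (k n) (GLimB_box (ρ s) l j) = liou (GLimB_box (σ n s) (l.map (k n)) j) := by
    rw [GLimB_box, pull_apply _ (isOpen_box _ _ _ _).measurableSet, hm.ori.image_box, e2, e2, e2, e2]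
    rfl
  refine ⟨liou.real (GLimB_box (σ n s) (l.map (k n)) j) / c n,
    div_nonneg measureReal_nonneg hn.le, ?_, ?_⟩
  · rw [resc, Measure.smul_apply, e3, smul_eq_mul, div_eq_inv_mul,
      ENNReal.ofReal_mul (inv_nonneg.2 hn.le), measureReal_def, ENNReal.ofReal_toReal a1]
  · rw [← sub_div, abs_div, abs_of_pos hn]
    refine lt_of_le_of_lt ((div_le_div_of_nonneg_right a2 hn.le).trans_eq ?_) h4
    ring

theorem Deg.tendsto_atom [Finite ι] (hd : Deg ρ α U c σ k) (hρ : Disc ρ) (hα : Multi ρ α)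
    (hν : Cur ρ ν) (hl : IsULim U (resc c k) (lifts ρ α)ᶜ ν) {s : Γ} (hs : Simple ρ s)
    (hsα : ax (ρ s) ∉ lifts ρ α) (h0 : Tendsto (fun n => tl (σ n s) / c n) U (𝓝 0)) {l : Geo}
    (hc : Cross (ax (ρ s)) l) :
    Tendsto (fun n => |twist (ax (σ n s)) (l.map (k n))| / c n) U (𝓝 (ν.real {ax (ρ s)})) := by
  obtain ⟨l', h1, h2, h3⟩ := GColl_orient hc
  have e : ∀ n, twist (ax (σ n s)) (l.map (k n)) = twist (ax (σ n s)) (l'.map (k n)) := by
    intro n
    rcases h3 with rfl | rfl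
    · rfl
    · rw [Geo.map_rev, twist_rev_right]
      rw [((hd.mark n).hyp hs.hyp).2]
      exact ((hd.mark n).ori.cross _ _).2 hc
  simp only [e]
  have hW : IsOpen (lifts ρ α)ᶜ := (isClosed_lifts hρ fun a => (hα.1 a).hyp).isOpen_compl
  have := hν.fin
  have := hν.isLocallyFiniteMeasure
  have hfin : ν {ax (ρ s)} ≠ ⊤ := isCompact_singleton.measure_lt_top.ne
  refine tendsto_order.2 ⟨fun a ha => ?_, fun a ha => ?_⟩
  · obtain ⟨r, r1, r2⟩ := exists_between ha
    rcases lt_or_ge r 0 with h4 | h4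
    · exact (hd.top.eventually_gt_atTop 0).mono fun n hn =>
        (r1.trans h4).trans_le (div_nonneg (abs_nonneg _) hn.le)
    have h5 : ENNReal.ofReal r < ν (GLimB_box (ρ s) l' 1 ∩ (lifts ρ α)ᶜ) :=
      ((ENNReal.ofReal_lt_iff_lt_toReal h4 hfin).2 r2).trans_le
        (measure_mono (singleton_subset_iff.2 ⟨GLimB_mem hs.hyp h1 h2 1, hsα⟩))
    filter_upwards [hl.lower _ ((isOpen_box _ _ _ _).inter hW) inter_subset_right _ h5,
      GLimB_mass hd hs h0 h1 h2 le_rfl (sub_pos.2 r1)] with n a1 ⟨x, _, a3, a4⟩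
    have a5 := a1.trans_le (measure_mono inter_subset_left)
    change _ < resc c k n (GLimB_box (ρ s) l' 1) at a5
    rw [a3, ENNReal.ofReal_lt_ofReal_iff_of_nonneg h4] at a5
    linarith only [a5, a4, (abs_lt.1 a4).2]
  · obtain ⟨r, r1, r2⟩ := exists_between ha
    obtain ⟨O, o1, o2, o3⟩ := Set.exists_isOpen_lt_of_lt {ax (ρ s)} (ENNReal.ofReal r)
      ((ENNReal.lt_ofReal_iff_toReal_lt hfin).2 r1)
    obtain ⟨K, k1, k2, k3⟩ := exists_compact_subset (o2.inter hW) ⟨o1 rfl, hsα⟩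
    obtain ⟨j, j1, j2⟩ := ((GLimB_small hs.hyp h1 h2 (mem_interior_iff_mem_nhds.1 k2)).and
      (eventually_ge_atTop 1)).exists
    filter_upwards [hl.upper K k1 (k3.trans inter_subset_right) _
      ((measure_mono (k3.trans inter_subset_left)).trans_lt o3),
      GLimB_mass hd hs h0 h1 h2 j2 (sub_pos.2 r2)] with n a1 ⟨x, a2, a3, a4⟩
    have a5 := (measure_mono j1).trans_lt a1
    rw [a3, ENNReal.ofReal_lt_ofReal_iff_of_nonneg a2] at a5
    linarith only [a5, a4, (abs_lt.1 a4).1]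

/-- The limits for two base structures do not cross. -/
theorem not_cross_of_lim [Finite ι] (hρ : Good ρ N) (hα : Multi ρ α) {φ : I → Γ ≃* Γ}
    {f : I → Circ ≃ₜ Circ} (hf : ∀ n, IsMark ρ (ρ.comp (φ n).toMonoidHom) (f n))
    (hc : Tendsto c U atTop) {z z' : Γ →* Isom} {h h' : Circ ≃ₜ Circ} (hz : IsMark ρ z h)
    (hz' : IsMark ρ z' h') {ν ν' : Measure Geo}
    (hl : IsULim U (resc c fun n => (f n).trans h) (lifts ρ α)ᶜ ν)
    (hl' : IsULim U (resc c fun n => (f n).trans h') (lifts ρ α)ᶜ ν') {R w : ℝ} (hw : 0 < w)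
    {l m : Geo} (h1 : l ∈ ν.support) (h2 : m ∈ ν'.support) (h3 : l ∈ Core ρ α R w)
    (h4 : m ∈ Core ρ α R w) (hr : MeasurePreserving Geo.rev ν' ν') : ¬ Cross l m := by
  intro hx
  have hW : IsOpen (lifts ρ α)ᶜ := (isClosed_lifts hρ.toDisc fun a => (hα.1 a).hyp).isOpen_compl
  obtain ⟨a, b, c', d, b1, b2, b3, b4⟩ := exists_box_of_cross hx
  have n1 : ∀ m ∈ Core ρ α R w, m ∉ lifts ρ α := fun m hm e => (GLimB_core hw hm e).2 rfl
  obtain ⟨m', m1, m2, m3, m4, m5⟩ : ∃ m' ∈ box b c' d a, m' ∈ ν'.support ∧ SimpleLine ρ m' ∧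
      InCore ρ R m' ∧ m' ∉ lifts ρ α := by
    rcases b4 with b4 | b4
    · exact ⟨m, b4, h2, h4.1, h4.2.1, n1 m h4⟩
    · refine ⟨m.rev, b4, ?_, h4.1.rev, h4.2.1.rev, fun e => n1 m h4 (rev_mem_lifts e)⟩
      rw [Measure.support_eq_forall_isOpen] at h2 ⊢
      intro O o1 o2
      rw [← hr.measure_preimage o2.measurableSet.nullMeasurableSet]
      exact h2 _ o1 (o2.preimage Geo.continuous_rev)
  obtain ⟨R', hR'⟩ := hρ.exists_core
  obtain ⟨C, hC⟩ := exists_box_two hz hz' R'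
  have key : ∀ {h : Circ ≃ₜ Circ} {ν : Measure Geo} {l : Geo} {a b c' d : Circ},
      IsULim U (resc c fun n => (f n).trans h) (lifts ρ α)ᶜ ν → l ∈ ν.support → l ∉ lifts ρ α →
      l ∈ box a b c' d → ∀ᶠ n in U,
        ENNReal.ofReal C < pull h (box (f n a) (f n b) (f n c') (f n d)) := by
    intro h ν l a b c' d hl s1 s2 s3
    have o1 := (isOpen_box a b c' d).inter hW
    obtain ⟨δ, d1, d2⟩ := exists_between
      ((Measure.mem_support_iff_forall l).1 s1 _ (o1.mem_nhds ⟨s3, s2⟩))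
    have t1 : Tendsto (fun n => ENNReal.ofReal ((c n)⁻¹ * C)) U (𝓝 (ENNReal.ofReal (0 * C))) :=
      ENNReal.tendsto_ofReal ((tendsto_inv_atTop_zero.comp hc).mul_const C)
    rw [zero_mul, ENNReal.ofReal_zero] at t1
    filter_upwards [hl.lower _ o1 inter_subset_right _ d2, t1.eventually_lt_const d1,
      hc.eventually_gt_atTop 0] with n a1 a2 a3
    have a4 := (a2.trans a1).trans_le (measure_mono inter_subset_left)
    rw [resc, Measure.smul_apply, pull_trans _ _ (isOpen_box _ _ _ _).measurableSet,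
      (hf n).ori.image_box, smul_eq_mul, ENNReal.ofReal_mul (inv_nonneg.2 a3.le)] at a4
    exact lt_of_not_ge fun e => a4.not_ge (by gcongr)
  obtain ⟨n, k1, k2⟩ := ((key hl h1 (n1 l h3) b3).and (key hl' m2 m5 m1)).exists
  have cu : ∀ ξ, IsCusp ρ (f n ξ) → IsCusp ρ ξ := by
    rintro ξ ⟨u, u1, u2⟩
    refine ((hf n).isCusp_iff ξ).1 ⟨(φ n).symm u, ?_⟩
    have : (ρ.comp (φ n).toMonoidHom) ((φ n).symm u) = ρ u := congrArg ρ ((φ n).apply_symm_apply u)
    rw [this]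
    exact ⟨u1, u2⟩
  have c1 := hρ.toDisc.not_cusp_of_inCore m4
  have c2 : InCore ρ R' (m'.map (f n)) := hR' _ (fun g => by
    have := ((hf n).simpleLine_iff m').2 m3 ((φ n).symm g)
    rwa [show (ρ.comp (φ n).toMonoidHom) ((φ n).symm g) = ρ g from
      congrArg ρ ((φ n).apply_symm_apply g)] at this)
    (fun e => c1.1 (cu _ e)) fun e => c1.2 (cu _ e)
  rcases hC _ _ _ _ ((hf n).1 _ _ _ b1) ((hf n).1 _ _ _ b2) (m'.map (f n))
    ((hf n).ori.image_box _ _ _ _ ▸ mem_image_of_mem _ m1) c2 with e | e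
  · exact k1.not_ge e
  · exact k2.not_ge e

end HRT
end

-- merged part: Pool.Agent.Work.MP_35beee_gt.ULimA
section
/-!
Limits of rescaled Liouville currents without a lower bound for the systole.
-/

namespace HRT

open Set Filter Topology Real MeasureTheory

variable {Γ : Type*} [Group Γ] {ρ : Γ →* Isom} {N : ℝ → ℝ} {ι I : Type} {α : ι → Γ}
  {U : Ultrafilter I} {c : I → ℝ} {σ : I → Γ →* Isom} {k : I → Circ ≃ₜ Circ} {ν : Measure Geo}

/-- A family of marked structures in which lengths off the nodes `α` grow at most like `c`. -/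
structure Deg0 (ρ : Γ →* Isom) {ι I : Type} (α : ι → Γ) (U : Ultrafilter I) (c : I → ℝ)
    (σ : I → Γ →* Isom) (k : I → Circ ≃ₜ Circ) : Prop where
  mark : ∀ n, IsMark ρ (σ n) (k n)
  top : Tendsto c U atTop
  node : ∀ a, Tendsto (fun n => tl (σ n (α a)) / c n) U (𝓝 0)
  bdd : ∀ β, Simple ρ β → (∀ a, inter ρ β (α a) = 0) → ∃ C, ∀ᶠ n in U, tl (σ n β) ≤ C * c n

namespace Deg0

theorem GLimA_le (hd : Deg0 ρ α U c σ k) {O : Set Geo} {f : I → ℝ}
    (h : ∀ᶠ n in U, pull (k n) O ≤ ENNReal.ofReal (f n)) :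
    ∀ᶠ n in U, resc c k n O ≤ ENNReal.ofReal (f n / c n) := by
  filter_upwards [h, hd.top.eventually_ge_atTop 0] with n h1 h2
  rw [resc, Measure.smul_apply, smul_eq_mul, div_eq_inv_mul, ENNReal.ofReal_mul (inv_nonneg.2 h2)]
  exact mul_le_mul_right h1 _

theorem GLimA_fix0 (hd : Deg0 ρ α U c σ k) {l : Geo} {s : Γ} (hs : Par (ρ s) ∨ Simple ρ s)
    (h1 : ccw l.tgt l.src (ρ s • l.src)) (h2 : ρ s • l.tgt = l.tgt) :
    ∃ O, IsOpen O ∧ l ∈ O ∧ ∃ C : ℝ, ∀ n, pull (k n) O ≤ ENNReal.ofReal (tl (σ n s) + C) := by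
  obtain ⟨a, a1, a2, a3⟩ := GLimA_orbit h2 h1
  refine ⟨box a (ρ s • a) (ρ s • ρ s • a) ((ρ s)⁻¹ • a), isOpen_box _ _ _ _, ⟨a2, a3⟩, 2,
    fun n => ?_⟩
  have hm := hd.mark n
  have a4 := hm.1 _ _ _ a1
  rw [pull_apply _ (isOpen_box _ _ _ _).measurableSet, hm.ori.image_box, ← map_inv]
  simp only [hm.2] at a4 ⊢
  rw [map_inv]
  exact liou_box_orbit' (hs.elim (fun h => (hm.par h).1.1) fun h => (hm.hyp h.hyp).1.noFix) a4

theorem GLimA_fix (hd : Deg0 ρ α U c σ k) {l : Geo} {s : Γ} (hs : Par (ρ s) ∨ Simple ρ s)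
    (h1 : ρ s • l.src ≠ l.src) (h2 : ρ s • l.tgt = l.tgt) :
    ∃ O, IsOpen O ∧ l ∈ O ∧ ∃ C : ℝ, ∀ n, pull (k n) O ≤ ENNReal.ofReal (tl (σ n s) + C) := by
  rcases ccw_total l.ne.symm h1.symm
    (fun h => l.ne (smul_left_cancel (ρ s) (h.symm.trans h2.symm))) with h | h
  · exact hd.GLimA_fix0 hs h h2
  · have h3 : (ρ s)⁻¹ • l.tgt = l.tgt := inv_smul_eq_iff.2 h2.symm
    have h4 := (ccw_smul_iff (ρ s)⁻¹).2 h
    rw [h3, inv_smul_smul] at h4
    have := hd.GLimA_fix0 (l := l) (s := s⁻¹)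
      (hs.imp (fun h => by rw [map_inv]; exact h.inv.1) Simple.inv)
      (by rwa [map_inv]) (by rwa [map_inv])
    simpa only [map_inv, tl_inv] using this

theorem small_of_cross_self (hd : Deg0 ρ α U c σ k) {l : Geo} (hl : ¬ SimpleLine ρ l) :
    ∃ O, IsOpen O ∧ l ∈ O ∧ Tendsto (fun n => resc c k n O) U (𝓝 0) := by
  obtain ⟨g, hg⟩ := not_forall.1 hl
  obtain ⟨a, b, c', d, h1, h2, h3, h4⟩ := exists_box_of_cross (not_not.1 hg)
  obtain ⟨C, hC⟩ := exists_box_one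
  have h0 : Tendsto (fun n => C / c n) U (𝓝 0) := hd.top.const_div_atTop C
  have ho := isOpen_box b c' d a
  have hg' : Continuous fun m : Geo => ρ g • m := continuous_const_smul _
  rcases Ultrafilter.eventually_or.1 (Eventually.of_forall (f := U)
    fun n => hC (k n) (hd.mark n).ori a b c' d h1 h2) with h | h
  · exact ⟨_, isOpen_box _ _ _ _, h3, GLimA_zero (hd.GLimA_le h) h0⟩
  rcases h4 with h4 | h4
  · refine ⟨_, ho.preimage hg', h4, GLimA_zero (hd.GLimA_le (h.mono fun n hn => ?_)) h0⟩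
    rwa [((hd.mark n).cur_pull.smul g).measure_preimage ho.measurableSet.nullMeasurableSet]
  · have ho' := ho.preimage Geo.continuous_rev
    refine ⟨_, ho'.preimage hg', h4, GLimA_zero (hd.GLimA_le (h.mono fun n hn => ?_)) h0⟩
    rwa [((hd.mark n).cur_pull.smul g).measure_preimage ho'.measurableSet.nullMeasurableSet,
      (hd.mark n).cur_pull.rev.measure_preimage ho.measurableSet.nullMeasurableSet]

theorem le_of_cross (hd : Deg0 ρ α U c σ k) {l : Geo} {s : Γ} (hs : Hyp (ρ s))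
    (hl : Cross l (ax (ρ s))) :
    ∃ O, IsOpen O ∧ l ∈ O ∧ ∀ᶠ n in U, resc c k n O ≤ ENNReal.ofReal (tl (σ n s) / c n) := by
  obtain ⟨O, h1, h2, h3⟩ := exists_nhds_le_ic hs hl
  exact ⟨O, h1, h2, hd.GLimA_le (Eventually.of_forall fun n =>
    (hd.mark n).ic_pull s ▸ h3 _ (hd.mark n).cur_pull)⟩

theorem le_of_fix (hd : Deg0 ρ α U c σ k) {l : Geo} {s : Γ} (hs : Par (ρ s) ∨ Simple ρ s)
    (hl : (ρ s • l.src = l.src ∧ ρ s • l.tgt ≠ l.tgt) ∨
      (ρ s • l.src ≠ l.src ∧ ρ s • l.tgt = l.tgt)) : ∃ O, IsOpen O ∧ l ∈ O ∧ ∃ C : ℝ,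
        ∀ᶠ n in U, resc c k n O ≤ ENNReal.ofReal ((tl (σ n s) + C) / c n) := by
  rcases hl with hl | hl
  · obtain ⟨O, h1, h2, C, h3⟩ := hd.GLimA_fix (l := l.rev) hs hl.2 hl.1
    refine ⟨_, h1.preimage Geo.continuous_rev, h2, C,
      hd.GLimA_le (Eventually.of_forall fun n => ?_)⟩
    rw [(hd.mark n).cur_pull.rev.measure_preimage h1.measurableSet.nullMeasurableSet]
    exact h3 n
  · obtain ⟨O, h1, h2, C, h3⟩ := hd.GLimA_fix hs hl.1 hl.2
    exact ⟨O, h1, h2, C, hd.GLimA_le (Eventually.of_forall h3)⟩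

theorem GLimA_bad (hd : Deg0 ρ α U c σ k) (hα : Multi ρ α) {Z : Set Geo}
    (hZ : ∀ l, SimpleLine ρ l → ¬ IsCusp ρ l.src → ¬ IsCusp ρ l.tgt →
      (∀ m ∈ lifts ρ α, 0 < side m l.src.1 * side m l.tgt.1) → l ∈ Z) :
    ∀ l ∈ Zᶜ, l ∈ (lifts ρ α)ᶜ →
      ∃ O, IsOpen O ∧ l ∈ O ∧ Tendsto (fun n => resc c k n O) U (𝓝 0) := by
  intro l hl hl'
  have key : ∀ s, (Par (ρ s) ∨ Simple ρ s) → Tendsto (fun n => tl (σ n s) / c n) U (𝓝 0) →
      (ρ s • l.src = l.src ∧ ρ s • l.tgt ≠ l.tgt) ∨ (ρ s • l.src ≠ l.src ∧ ρ s • l.tgt = l.tgt) →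
      ∃ O, IsOpen O ∧ l ∈ O ∧ Tendsto (fun n => resc c k n O) U (𝓝 0) := by
    intro s h1 h2 h3
    obtain ⟨O, a1, a2, C, a3⟩ := hd.le_of_fix h1 h3
    refine ⟨O, a1, a2, GLimA_zero a3 ?_⟩
    simpa only [add_div, add_zero] using h2.add (hd.top.const_div_atTop C)
  have hp : ∀ u, Par (ρ u) → Tendsto (fun n => tl (σ n u) / c n) U (𝓝 0) := fun u hu => by
    simp only [fun n => ((hd.mark n).par hu).1.2, zero_div]
    exact tendsto_const_nhds
  by_cases h1 : SimpleLine ρ l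
  swap
  · exact hd.small_of_cross_self h1
  by_cases h2 : IsCusp ρ l.src
  · obtain ⟨u, hu, e⟩ := h2
    exact key u (.inl hu) (hp u hu) (.inl ⟨(hu.fix_iff _).2 e.symm,
      fun h => l.ne (e.symm.trans ((hu.fix_iff _).1 h).symm)⟩)
  by_cases h3 : IsCusp ρ l.tgt
  · obtain ⟨u, hu, e⟩ := h3
    exact key u (.inl hu) (hp u hu) (.inr ⟨fun h => l.ne (((hu.fix_iff _).1 h).trans e),
      (hu.fix_iff _).2 e.symm⟩)
  obtain ⟨m, hm⟩ := not_forall.1 fun h => hl (hZ l h1 h2 h3 h)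
  obtain ⟨hm, h4⟩ := Classical.not_imp.1 hm
  obtain ⟨a, s, hs, ht, rfl⟩ := GLimA_lift hα hm
  have h5 : Tendsto (fun n => tl (σ n s) / c n) U (𝓝 0) := by
    simpa only [ht] using hd.node a
  rcases (not_lt.1 h4).lt_or_eq with h6 | h6
  · obtain ⟨O, a1, a2, a3⟩ := hd.le_of_cross hs.hyp (Cross.symm h6)
    exact ⟨O, a1, a2, GLimA_zero a3 h5⟩
  · exact key s (.inr hs) h5 (GLimA_share hs.hyp (mul_eq_zero.1 h6) (fun h => hl' (h ▸ hm))
      fun h => hl' (h ▸ rev_mem_lifts hm))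

theorem exists_lim [Finite ι] (hd : Deg0 ρ α U c σ k) (hρ : Good ρ N) (hα : Multi ρ α)
    (hc : Cover ρ α) : ∃ ν : Measure Geo, Cur ρ ν ∧ IsULim U (resc c k) (lifts ρ α)ᶜ ν ∧
      ∃ R w : ℝ, 0 < w ∧ ν (Core ρ α R w)ᶜ = 0 := by
  obtain ⟨R, w, hw, hcore⟩ := exists_core_const hρ hα
  have hW := (isClosed_lifts hρ.toDisc fun a => (hα.1 a).hyp).isOpen_compl
  have hbad := hd.GLimA_bad hα hcore
  obtain ⟨ν, h1, h2⟩ := exists_isULim U (resc c k) hW fun l hl => by
    by_cases h : l ∈ Core ρ α R w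
    swap
    · obtain ⟨O, a1, a2, a3⟩ := hbad l h hl
      exact ⟨O, a1, a2, 1, ENNReal.one_lt_top, a3.eventually_le_const one_pos⟩
    have hn := hρ.toDisc.not_cusp_of_inCore h.2.1
    obtain ⟨β, b1, b2, b3⟩ := (((hc l h.1 fun m hm hx => by
      rw [cross_comm, cross_iff_abs_B] at hx
      exact absurd ((one_le_cosh w).trans (h.2.2 m hm)) hx.not_ge).resolve_left hl).resolve_left
        hn.1).resolve_left hn.2
    obtain ⟨C, hC⟩ := hd.bdd β b1 b2
    have hC' : ∀ᶠ n in U, tl (σ n β) / c n ≤ C := by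
      filter_upwards [hC, hd.top.eventually_gt_atTop 0] with n a1 a2 using (div_le_iff₀ a2).2 a1
    rcases b3 with b3 | ⟨b3, b4, b5⟩
    · obtain ⟨O, a1, a2, a3⟩ := hd.le_of_cross b1.hyp b3
      refine ⟨O, a1, a2, ENNReal.ofReal C, ENNReal.ofReal_lt_top, ?_⟩
      filter_upwards [a3, hC'] with n a4 a5 using a4.trans (ENNReal.ofReal_le_ofReal a5)
    · obtain ⟨O, a1, a2, D, a3⟩ := hd.le_of_fix (.inr b1) (GLimA_share b1.hyp b3 b4 b5)
      refine ⟨O, a1, a2, ENNReal.ofReal (C + 1), ENNReal.ofReal_lt_top, ?_⟩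
      filter_upwards [a3, hC', (hd.top.const_div_atTop D).eventually_le_const one_pos]
        with n a4 a5 a6
      exact a4.trans (ENNReal.ofReal_le_ofReal (by rw [add_div]; exact add_le_add a5 a6))
  have h0 : ν (Core ρ α R w)ᶜ = 0 := h1.null hW hbad
  refine ⟨ν, ⟨⟨fun K hK => ?_⟩, fun g => ?_, ?_⟩, h1, R, w, hw, h0⟩
  · rw [← measure_inter_conull h0]
    refine h1.fin _ (hK.inter_right (isClosed_core hρ.toDisc R w)) fun l hl hm => ?_
    have := hl.2.2.2 l hm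
    rw [B_nrm_nrm, abs_one] at this
    exact absurd (one_lt_cosh.2 hw.ne') this.not_gt
  · refine h2 (Homeomorph.smul (ρ g)) (Set.ext fun l => not_congr ⟨fun h => ?_, smul_mem_lifts g⟩)
      fun n => ((hd.mark n).cur_pull.smul g).smul_measure _
    have := smul_mem_lifts g⁻¹ h
    rwa [map_inv, Homeomorph.smul_apply, inv_smul_smul] at this
  · exact h2 ⟨⟨Geo.rev, Geo.rev, Geo.rev_rev, Geo.rev_rev⟩, Geo.continuous_rev, Geo.continuous_rev⟩
      (Set.ext fun l => not_congr ⟨rev_mem_lifts, rev_mem_lifts⟩)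
      fun n => (hd.mark n).cur_pull.rev.smul_measure _

end Deg0

theorem ULimA_resc (hd : Deg0 ρ α U c σ k) {n : I} (hn : 0 < c n) {g : Γ} (hg : Hyp (ρ g)) (j : ℕ) :
    resc c k n (xs (ax (ρ g)) (Ico 0 (0 + j * tl (ρ g)))) =
      ENNReal.ofReal (j * (tl (σ n g) / c n)) := by
  rw [resc, Measure.smul_apply, GLimB_per (hd.mark n).cur_pull hg, (hd.mark n).ic_pull, smul_eq_mul,
    ← ENNReal.ofReal_mul (inv_nonneg.2 hn.le)]
  congr 1
  ring

theorem ULimA_node (hd : Deg0 ρ α U c σ k) (hρ : Disc ρ) (hα : Multi ρ α) {β : Γ} (hβ : Simple ρ β)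
    (h : ax (ρ β) ∈ lifts ρ α) : Tendsto (fun n => tl (σ n β) / c n) U (𝓝 0) := by
  obtain ⟨a, d, h1, h2⟩ := (mem_lifts_iff (fun i => (hα.1 i).hyp)).1 h
  have h3 : Simple ρ d := by
    rcases h1 with h1 | h1
    · obtain ⟨g, rfl⟩ := isConj_iff.1 h1
      exact (hα.1 a).conj g
    · obtain ⟨g, rfl⟩ := isConj_iff.1 h1
      exact (hα.1 a).inv.conj g
  rw [← hρ.eq_of_ax_eq h3.hyp h3.prim hβ.hyp hβ.prim h2]
  simpa only [GSys_tl h1] using hd.node a

theorem Deg0.tendsto_tl [Finite ι] (hd : Deg0 ρ α U c σ k) (hρ : Disc ρ) (hα : Multi ρ α)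
    (hν : Cur ρ ν) (hl : IsULim U (resc c k) (lifts ρ α)ᶜ ν) {R w : ℝ} (hw : 0 < w)
    (h0 : ν (Core ρ α R w)ᶜ = 0) {β : Γ} (hβ : Simple ρ β) (hi : ∀ a, inter ρ β (α a) = 0) :
    Tendsto (fun n => tl (σ n β) / c n) U (𝓝 (ic ν (ρ β))) := by
  have hpos : ∀ᶠ n in U, 0 < c n := hd.top.eventually_gt_atTop 0
  by_cases hA : ax (ρ β) ∈ lifts ρ α
  · have : ic ν (ρ β) = 0 := by
      rw [ic, measureReal_def, measure_mono_null (fun l h1 h2 => (GLimB_core hw h2 hA).1 (xs_cross h1))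
        h0, ENNReal.toReal_zero]
    rw [this]
    exact ULimA_node hd hρ hα hβ hA
  have hnc : ∀ m ∈ lifts ρ α, ¬ Cross (ax (ρ β)) m := by
    rintro _ ⟨a, g, rfl | rfl⟩
    · exact (hρ.inter_eq_zero_iff hβ.hyp (hα.1 a).hyp (hα.1 a).prim).1 (hi a) g
    · rw [cross_rev_right]
      exact (hρ.inter_eq_zero_iff hβ.hyp (hα.1 a).hyp (hα.1 a).prim).1 (hi a) g
  have hT : 0 < tl (ρ β) := hβ.hyp
  have hL := ic_nonneg ν (ρ β)
  refine tendsto_order.2 ⟨fun a ha => ?_, fun a ha => ?_⟩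
  · rcases lt_or_ge a 0 with h1 | h1
    · exact hpos.mono fun n hn => h1.trans_le (div_nonneg (tl_nonneg _) hn.le)
    obtain ⟨j, hj⟩ := exists_nat_gt (a / (ic ν (ρ β) - a))
    rw [div_lt_iff₀ (sub_pos.2 ha)] at hj
    have h2 : ENNReal.ofReal (((j + 1 : ℕ) : ℝ) * a) <
        ν (xs (ax (ρ β)) (Ioo 0 (0 + (j + 1 : ℕ) * tl (ρ β)))) := by
      refine lt_of_lt_of_le ?_ (measure_mono (xs_mono _ (show Ico (tl (ρ β))
        (tl (ρ β) + j * tl (ρ β)) ⊆ _ from fun x hx => ⟨hT.trans_le hx.1, by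
          push_cast; linarith [hx.2]⟩)))
      rw [GLimB_per hν hβ.hyp, ENNReal.ofReal_lt_ofReal_iff_of_nonneg (by positivity)]
      push_cast
      linarith
    filter_upwards [hpos, hl.lower _ (GLimB_open _ isOpen_Ioo)
      (fun l h3 h4 => hnc l h4 (xs_cross h3)) _ h2] with n hn h3
    have h4 := h3.trans_le (measure_mono (xs_mono _ Ioo_subset_Ico_self))
    rw [ULimA_resc hd hn hβ.hyp, ENNReal.ofReal_lt_ofReal_iff_of_nonneg (by positivity)] at h4
    exact lt_of_mul_lt_mul_left h4 (by positivity)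
  · have := hν.fin
    have hC : ν {ax (ρ β), (ax (ρ β)).rev} ≠ ⊤ := (toFinite _).isCompact.measure_lt_top.ne
    set C := (ν {ax (ρ β), (ax (ρ β)).rev}).toReal with hCd
    have hC0 : 0 ≤ C := ENNReal.toReal_nonneg
    obtain ⟨j, hj⟩ := exists_nat_gt ((ic ν (ρ β) + C) / (a - ic ν (ρ β)))
    rw [div_lt_iff₀ (sub_pos.2 ha)] at hj
    obtain ⟨K, k1, k2, k3⟩ := GLimB_compact (ax (ρ β)) (0 + j * tl (ρ β))
    have h1 : (ic ν (ρ β)) * (j + 1) + C < j * a := by linarith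
    have h2 : ν K < ENNReal.ofReal (j * a) := by
      refine ((measure_mono k3).trans (measure_union_le _ _)).trans_lt ?_
      refine lt_of_le_of_lt (add_le_add_left (measure_mono (xs_mono _ (show _ ⊆ Ico 0
        (0 + (j + 1 : ℕ) * tl (ρ β)) from fun x hx => ⟨hx.1, by
          push_cast; linarith [hx.2]⟩))) _) ?_
      rw [GLimB_per hν hβ.hyp, ← ENNReal.ofReal_toReal hC, ← ENNReal.ofReal_add (by positivity) hC0,
        ENNReal.ofReal_lt_ofReal_iff_of_nonneg (by positivity)]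
      push_cast
      linarith
    filter_upwards [hpos, hl.upper K k1 (fun l h3 h4 => by
      rcases k3 h3 with h5 | rfl | rfl
      · exact hnc l h4 (xs_cross h5)
      · exact hA h4
      · exact hA (rev_mem_lifts h4)) _ h2] with n hn h3
    have h4 := (measure_mono ((xs_mono _ Ico_subset_Icc_self).trans k2)).trans_lt h3
    rw [ULimA_resc hd hn hβ.hyp, ENNReal.ofReal_lt_ofReal_iff_of_nonneg
      (mul_nonneg j.cast_nonneg (div_nonneg (tl_nonneg _) hn.le))] at h4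
    exact lt_of_mul_lt_mul_left h4 j.cast_nonneg

end HRT
end
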