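import Pool.Agent.Work.MP_35beee_gt.UTop
import Pool.Agent.Work.MP_35beee_gt.PChain
import Pool.Agent.Work.MP_35beee_gt.ULimA
import Pool.Agent.Work.MP_35beee_gt.GTwRep
import Pool.Agent.Work.MP_35beee_gt.GMarked
import Pool.Agent.Work.MP_35beee_gt.MDefs
import Pool.Agent.Work.MP_35beee_gt.TDefs
import Pool.Agent.Work.MP_35beee_gt.PFace
import Pool.Agent.Work.MP_35beee_gt.GLM
import Pool.Agent.Work.MP_35beee_gt.SSpike
import Mathlib

-- merged part: Pool.Agent.Work.MP_35beee_gt.PCC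
section
/-!
Change of coordinates: pants decompositions with the same combinatorics differ by a mapping class.

Plan. `exists_len`: induction over the orbits of `gl`; twist along a dual curve of `E d`
(`IsPants.exists_dual`, `exists_flow` for the single curve): only the length of the class of `E d`
changes, continuously, and it tends to infinity; intermediate value theorem.
`exists_glue`: let `L` be the set of axes of the objects in the marking `σ` (`OSys.sys`), with weight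
`τ d` on the class of `E d` (`PG.mem_cls_iff`). Choose for each vertex a point `p d` in the interior
of the triangle of `lo (E d)`, `lo (E (nx d))`, `lo (E (nx (nx d)))`; it is inside all objects that
are adjacent or equal to `E d`, so no axis separates `p d` from `E d • p d` (`adj_of_top` and its
converse), and exactly one axis, that of `E d`, separates `p d` from `t d • p (gl d)`. For the
quake `σ'` based at `p d₀` put `A d = qc (p d₀) (p d)`; `qc_mul`, `qc_smul`, `qc_of_empty`,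
`qc_of_single`.
`exists_mod`: markings `x`, `x'` with equal lengths; `Frame.exists_conj` gives `A d` (one for each
vertex) with `A d * x (E d) * (A d)⁻¹ = x' (E' d)`. Then `A d * x (t d) * (A (gl d))⁻¹ * (x' (t' d))⁻¹`
commutes with `x' (E' d)`, so it is `trans (ax (x' (E' d))) (τ d)`, and `τ (gl d) = τ d`; it is `1` at
a cusp. Use `exists_glue` to remove it. `walk_ind` shows that `A d₀ * x g * (A d)⁻¹` is in the range
of `x'`, and conversely; so conjugation by `A d₀` maps the range of `x` onto the range of `x'`.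
-/

namespace HRT

open Set Filter Topology Real

variable {Γ : Type*} [Group Γ] {ρ : Γ →* Isom} {N : ℝ → ℝ} {D : Type} {nx gl : Equiv.Perm D}
  {E t E' t' : D → Γ}

theorem PCC_cont (g : Γ) : Continuous fun x : Rep ρ => tl (x.1 g) := by
  refine continuous_tl.comp (continuous_iff_continuousAt.2 fun x => tendsto_isom_iff.2 fun v => ?_)
  have h : Continuous (fun σ γ v => lin (σ.1 γ) v : Rep ρ → Γ → V → V) := continuous_induced_dom
  exact ((continuous_apply v).comp ((continuous_apply g).comp h)).continuousAt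

theorem PCC_step (h : PG ρ nx gl E t) (hρ : Good ρ N) {L : ℝ} (x : Rep ρ) {d : D}
    (hd : Hyp (ρ (E d))) (hx : tl (x.1 (E d)) ≤ L) : ∃ y : Rep ρ, ∀ e, Hyp (ρ (E e)) →
      tl (y.1 (E e)) = L ∨ (e ≠ d ∧ tl (y.1 (E e)) = tl (x.1 (E e))) := by
  have hD := hρ.toDisc
  obtain ⟨δ, hδ, hc, h0⟩ := h.toIsPants.exists_dual hρ (PPants_self E d) hd
  obtain ⟨F, hF, hF0, h1, -, h2⟩ := exists_flow hD (multi_single hδ) x
  obtain ⟨C, hC⟩ := h2 _ hd
  have hi : (1 : ℝ) ≤ inter ρ (E d) δ := by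
    have : inter ρ (E d) δ ≠ 0 := fun e =>
      (hD.inter_eq_zero_iff hd hδ.hyp hδ.prim).1 e 1 (by simpa using hc)
    exact_mod_cast Nat.one_le_iff_ne_zero.2 this
  have hcont : Continuous fun s : ℝ => tl ((F fun _ => s).1 (E d)) :=
    (PCC_cont (E d)).comp (hF.comp (continuous_pi fun _ => continuous_id))
  have hm : L ∈ Icc (tl ((F fun _ => (0 : ℝ)).1 (E d))) (tl ((F fun _ => L + C).1 (E d))) := by
    refine ⟨?_, ?_⟩
    · rw [show (fun _ : Unit => (0 : ℝ)) = 0 from rfl, hF0]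
      exact hx
    · have h3 := hC fun _ => L + C
      rw [Fintype.sum_unique] at h3
      have h4 := le_abs_self (L + C)
      have h5 := mul_le_mul_of_nonneg_left hi (abs_nonneg (L + C))
      linarith only [h3, h4, h5]
  obtain ⟨s, hs⟩ := intermediate_value_univ _ _ hcont hm
  refine ⟨F fun _ => s, fun e he => ?_⟩
  by_cases hm : E e ∈ cls ρ (E d)
  · exact Or.inl ((tl_of_mem_cls hm _).trans hs)
  · refine Or.inr ⟨fun e' => hm (e' ▸ mem_cls_self _), h1 _ _ he fun _ => ?_⟩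
    rw [hD.inter_comm he (h.sys.simple hD (PPants_self E e) he).prim hδ.hyp hδ.prim]
    exact h0 _ (PPants_self E e) hm he

theorem PG.exists_len (h : PG ρ nx gl E t) (hρ : Good ρ N) {L : ℝ} (hL : ∀ d, tl (ρ (E d)) ≤ L) :
    ∃ x : Rep ρ, ∀ d, Hyp (ρ (E d)) → tl (x.1 (E d)) = L := by
  classical
  have := h.finite
  have := Fintype.ofFinite D
  have key : ∀ s : Finset D, ∃ x : Rep ρ, ∀ d, Hyp (ρ (E d)) →
      tl (x.1 (E d)) ≤ L ∧ (d ∈ s → tl (x.1 (E d)) = L) := by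
    intro s
    induction s using Finset.induction_on with
    | empty => exact ⟨⟨ρ, _, IsMark.refl ρ⟩, fun d _ => ⟨hL d, fun hd => absurd hd (by simp)⟩⟩
    | insert d s _ ih =>
      obtain ⟨x, hx⟩ := ih
      by_cases hd : Hyp (ρ (E d))
      · obtain ⟨y, hy⟩ := PCC_step h hρ x hd (hx d hd).1
        refine ⟨y, fun e he => ?_⟩
        rcases hy e he with h1 | ⟨h1, h2⟩
        · exact ⟨h1.le, fun _ => h1⟩
        · rw [h2]
          exact ⟨(hx e he).1, fun h3 => (hx e he).2 ((Finset.mem_insert.1 h3).resolve_left h1)⟩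
      · refine ⟨x, fun e he => ⟨(hx e he).1, fun h3 => (hx e he).2 ?_⟩⟩
        exact (Finset.mem_insert.1 h3).resolve_left fun e' => hd (e' ▸ he)
  obtain ⟨x, hx⟩ := key Finset.univ
  exact ⟨x, fun d hd => (hx d hd).2 (Finset.mem_univ d)⟩

/-- The point `p` is in the region bounded by `a`. -/
def PCC_Top (ρ : Γ →* Isom) (O : Set Γ) (a : Γ) (p : Pt) : Prop :=
  a ∈ O ∧ Ins (ρ a) p.1 ∧ ∀ m, Adj ρ O a m → Ins (ρ m) p.1

/-- The objects which have the region bounded by `a` on their inner side. -/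
def PCC_S (ρ : Γ →* Isom) (a m : Γ) : Prop :=
  m = a ∨ Face (ρ a) (ρ m) ∨ (Hyp (ρ a) ∧ Face (ρ a⁻¹) (ρ m))

section

variable {O : Set Γ} {a b m : Γ} {p q : Pt}

theorem PCC_ins (hO : OSys ρ O) (hρ : Disc ρ) (h : PCC_Top ρ O a p) (hm : m ∈ O)
    (hs : PCC_S ρ a m) : Ins (ρ m) p.1 := by
  rcases hs with rfl | hs | ⟨h1, h2⟩
  · exact h.2.1
  · obtain ⟨c, hc, rfl | h1⟩ := hO.exists_adj hρ h.1 hm hs
    · exact h.2.2 _ hc
    · exact Face.ins_of_inv h1.1 (map_inv ρ c ▸ h1.2.2) p.fut (h.2.2 _ hc).le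
  · exact Face.ins_of_inv h1 (map_inv ρ a ▸ h2) p.fut h.2.1.le

theorem PCC_or (hO : OSys ρ O) (hρ : Disc ρ) (ha : a ∈ O) (hm : m ∈ O) :
    PCC_S ρ a m ∨ PCC_S ρ a m⁻¹ := by
  rcases hO.tri hρ ha hm with h | h | ⟨-, h | h⟩ | h | h
  · exact Or.inl (Or.inl h.symm)
  · exact Or.inl (Or.inr (Or.inl h))
  · exact Or.inr (Or.inl h.symm)
  · exact Or.inr (Or.inr (Or.inl h))
  · exact Or.inl (Or.inr (Or.inr h))
  · exact Or.inr (Or.inr (Or.inr ⟨h.1, h.2.2⟩))

theorem PCC_inv (h : Hyp (ρ m)) (v : V) : Ins (ρ m⁻¹) v ↔ 0 < side (ax (ρ m)) v := by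
  rw [map_inv, h.ins_inv_iff]

theorem PCC_off (hO : OSys ρ O) (hρ : Disc ρ) (h : PCC_Top ρ O a p) : Off (axes ρ O) p := by
  rintro _ ⟨m, hm, h1, rfl⟩
  rcases PCC_or hO hρ h.1 hm with hs | hs
  · exact ((h1.ins_iff _).1 (PCC_ins hO hρ h hm hs)).ne
  · exact ((PCC_inv h1 _).1 (PCC_ins hO hρ h (hO.inv m hm h1) hs)).ne'

theorem PCC_S_of (hO : OSys ρ O) (hρ : Disc ρ) (h : PCC_Top ρ O a p) (hm : m ∈ O)
    (h1 : Hyp (ρ m)) (h2 : side (ax (ρ m)) p.1 < 0) : PCC_S ρ a m :=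
  (PCC_or hO hρ h.1 hm).resolve_right fun hs =>
    lt_asymm h2 ((PCC_inv h1 _).1 (PCC_ins hO hρ h (hO.inv m hm h1) hs))

theorem PCC_empty (hO : OSys ρ O) (hρ : Disc ρ) (h : PCC_Top ρ O a p) (h' : PCC_Top ρ O a q) :
    sepS (axes ρ O) p q.1 = ∅ := by
  refine eq_empty_of_forall_notMem ?_
  rintro _ ⟨⟨m, hm, h1, rfl⟩, h2, h3⟩
  exact lt_asymm h3 ((h1.ins_iff _).1 (PCC_ins hO hρ h' hm (PCC_S_of hO hρ h hm h1 h2)))

theorem PCC_single (hO : OSys ρ O) (hρ : Disc ρ) (ha : Hyp (ρ a)) (h : PCC_Top ρ O a p)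
    (h' : PCC_Top ρ O a⁻¹ q) : sepS (axes ρ O) p q.1 = {ax (ρ a)} := by
  refine eq_singleton_iff_unique_mem.2
    ⟨⟨⟨a, h.1, ha, rfl⟩, (ha.ins_iff _).1 h.2.1, (PCC_inv ha _).1 h'.2.1⟩, ?_⟩
  rintro _ ⟨⟨m, hm, h1, rfl⟩, h2, h3⟩
  have h4 : ¬ PCC_S ρ a⁻¹ m := fun hs =>
    lt_asymm h3 ((h1.ins_iff _).1 (PCC_ins hO hρ h' hm hs))
  rcases PCC_S_of hO hρ h hm h1 h2 with rfl | hs | hs
  · rfl
  · exact absurd (Or.inr (Or.inr ⟨POs_hyp_inv ha, by rwa [inv_inv]⟩)) h4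
  · exact absurd (Or.inr (Or.inl hs.2)) h4

theorem PCC_adj (hO : OSys ρ O) (hρ : Disc ρ) (h : PCC_Top ρ O a p) (hb : Adj ρ O a b) :
    PCC_Top ρ O b p := by
  refine ⟨hb.2.1, h.2.2 b hb, fun m hm => ?_⟩
  by_cases e : a = m
  · exact e ▸ h.2.1
  · exact h.2.2 m (hb.trans hO hρ hm e)

theorem PCC_conj (hO : OSys ρ O) (h : PCC_Top ρ O a p) (g : Γ) :
    PCC_Top ρ O (g * a * g⁻¹) (ρ g • p) := by
  have key : ∀ c ∈ O, Ins (ρ c) p.1 → Ins (ρ (g * c * g⁻¹)) (ρ g • p).1 := fun c hc hi => by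
    rw [POs_conj]
    exact ((hO.noFix hc).ins_conj (ρ g) p.1).2 hi
  refine ⟨hO.conj a h.1 g, key a h.1 h.2.1, fun m hm => ?_⟩
  have h1 := hm.conj hO g⁻¹
  have e1 : g⁻¹ * (g * a * g⁻¹) * g⁻¹⁻¹ = a := by group
  have e2 : g * (g⁻¹ * m * g⁻¹⁻¹) * g⁻¹ = m := by group
  rw [e1] at h1
  have := key _ h1.2.1 (h.2.2 _ h1)
  rwa [e2] at this

theorem PCC_exists (hO : OSys ρ O) (hρ : Disc ρ) (ha : a ∈ O) : ∃ p, PCC_Top ρ O a p := by
  rcases (hO.noFix ha).hyp_or_par with h1 | h1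
  · obtain ⟨r, hr, H⟩ := (hO.sys hρ).exists_off_left ⟨a, ha, h1, rfl⟩ 0
    obtain ⟨-, h2, h3⟩ := H r hr le_rfl
    have h4 : ax (ρ a) ∈ sepS (axes ρ O) (fermi (ax (ρ a)) 0 (-r)) (fermi (ax (ρ a)) 0 r).1 := by
      rw [h3]
      rfl
    refine ⟨fermi (ax (ρ a)) 0 (-r), ha, (h1.ins_iff _).2 h4.2.1, fun m hm => ?_⟩
    rcases (hO.noFix hm.2.1).hyp_or_par with h5 | h5
    · rw [h5.ins_iff]
      refine lt_of_le_of_ne (not_lt.1 fun h6 => ?_) (h2 _ ⟨m, hm.2.1, h5, rfl⟩)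
      have h7 : Ins (ρ m) (fermi (ax (ρ a)) 0 r).1 :=
        hm.face.symm.ins_pt fun h8 => lt_asymm h4.2.2 ((h1.ins_iff _).1 h8)
      have h8 : (ax (ρ m)).rev ∈
          sepS (axes ρ O) (fermi (ax (ρ a)) 0 (-r)) (fermi (ax (ρ a)) 0 r).1 :=
        ⟨(hO.sys hρ).rev _ ⟨m, hm.2.1, h5, rfl⟩, by rw [side_rev]; linarith, by
          rw [side_rev]; linarith [(h5.ins_iff _).1 h7]⟩
      rw [h3, mem_singleton_iff] at h8
      have h9 := hm.face.symm.ins_lo
      rw [h5.ins_iff, h1.lo_eq, ← h8, Geo.tgt_rev, side_src] at h9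
      exact lt_irrefl _ h9
    · exact h5.ins_pt (hO.pos m hm.2.1) _
  · obtain ⟨q, hq⟩ := PAdj_pt hO hρ ha
    exact ⟨q, ha, h1.ins_pt (hO.pos a ha) q, fun m hm => hq m hm.2.1 hm.face.symm⟩

end

theorem PCC_wt (h : PG ρ nx gl E t) (hρ : Disc ρ) {τ : D → ℝ} (hτ : ∀ d, τ (gl d) = τ d) :
    ∃ w : Geo → ℝ, Wt ρ (axes ρ (objs E)) w ∧
      ∀ d, Hyp (ρ (E d)) → w (ax (ρ (E d))) = τ d := by
  classical
  let w : Geo → ℝ := fun l =>
    if hl : ∃ d, Hyp (ρ (E d)) ∧ ∃ g : Γ, l = ρ g • ax (ρ (E d)) then τ hl.choose else 0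
  have hw : ∀ d, Hyp (ρ (E d)) → ∀ g : Γ, w (ρ g • ax (ρ (E d))) = τ d := by
    intro d hd g
    have hl : ∃ d', Hyp (ρ (E d')) ∧ ∃ g' : Γ, ρ g • ax (ρ (E d)) = ρ g' • ax (ρ (E d')) :=
      ⟨d, hd, g, rfl⟩
    obtain ⟨hd', g', e⟩ := hl.choose_spec
    simp only [w, dif_pos hl]
    congr 1
    generalize hl.choose = d' at hd' e
    rw [← ax_conj' hd, ← ax_conj' hd'] at e
    have e' := h.sys.lo_inj hρ (mem_objs E d g) (mem_objs E d' g') (by
      rw [(GInter_hyp_conj hd (POs_isConj g _)).lo_eq,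
        (GInter_hyp_conj hd' (POs_isConj g' _)).lo_eq, e])
    exact (h.toIsPants.PPants_eq e').1.symm
  have hL : ∀ l ∈ axes ρ (objs E), ∃ d, Hyp (ρ (E d)) ∧ ∃ g : Γ, l = ρ g • ax (ρ (E d)) := by
    rintro _ ⟨a, ⟨d, hc⟩, ha, rfl⟩
    have hd := GInter_hyp_conj ha hc.symm
    obtain ⟨g, rfl⟩ := isConj_iff.1 hc
    exact ⟨d, hd, g, ax_conj' hd g⟩
  refine ⟨w, ⟨fun k l hl => ?_, fun l hl => ?_⟩, fun d hd => ?_⟩
  · obtain ⟨d, hd, g, rfl⟩ := hL l hl
    rw [smul_smul, ← map_mul, hw d hd, hw d hd]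
  · obtain ⟨d, hd, g, rfl⟩ := hL l hl
    have hd' : Hyp (ρ (E (gl d))) := GInter_hyp_conj (POs_hyp_inv hd) (h.PPants_gl hd)
    have e : (E d)⁻¹ = t d * E (gl d) * (t d)⁻¹ := by rw [h.hyp d hd]; group
    rw [← Geo.smul_rev, ← GSys_ax_inv hd, e, ax_conj' hd', smul_smul, ← map_mul, hw _ hd', hτ,
      hw d hd]
  · simpa using hw d hd 1

theorem PCC_glue (h : PG ρ nx gl E t) (hρ : Disc ρ) {τ : D → ℝ} (hτ : ∀ d, τ (gl d) = τ d) :
    ∃ (σ : Γ →* Isom) (f : Circ ≃ₜ Circ) (A : D → Isom), IsMark ρ σ f ∧ (∀ d, A (nx d) = A d) ∧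
      (∀ d, σ (E d) = A d * ρ (E d) * (A d)⁻¹) ∧
      (∀ d, Hyp (ρ (E d)) →
        σ (t d) = A d * (trans (ax (ρ (E d))) (τ d) * ρ (t d)) * (A (gl d))⁻¹) := by
  have hO := h.sys
  have hL := hO.sys hρ
  obtain ⟨w, hw, hwd⟩ := PCC_wt h hρ (τ := fun d => -τ d) fun d => by rw [hτ]
  choose p hp using fun d => PCC_exists hO hρ (PPants_self E d)
  obtain ⟨d₀⟩ := h.ne
  have off := fun d => PCC_off hO hρ (hp d)
  obtain ⟨F, hF⟩ := exists_qmap hL hw
  obtain ⟨f, -, hf⟩ := hF.exists_mark hL hw (off d₀)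
  have key : ∀ (g : Γ) (d e : D), qrep hL hw (off d₀) g =
      qc (axes ρ (objs E)) w (p d₀) (p d) *
        (qc (axes ρ (objs E)) w (p d) (ρ g • p e) * ρ g) *
        (qc (axes ρ (objs E)) w (p d₀) (p e))⁻¹ := by
    intro g d e
    rw [qrep_apply, eq_mul_inv_iff_mul_eq, ← mul_assoc,
      qc_mul hL hw (off d₀) (off d) (hL.Off_smul (off e) g),
      ← qc_mul hL hw (off d₀) (hL.Off_smul (off d₀) g) (hL.Off_smul (off e) g), qc_smul hL hw]
    group
  refine ⟨_, f, fun d => qc (axes ρ (objs E)) w (p d₀) (p d), hf, fun d => ?_, fun d => ?_,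
    fun d hd => ?_⟩
  · have h1 : Adj ρ (objs E) (E d) (E (nx d)) :=
      h.toIsPants.adj hρ ⟨d, 1, Or.inl ⟨by simp, by simp⟩⟩
    beta_reduce
    rw [← qc_mul hL hw (off d₀) (off d) (off (nx d)),
      qc_of_empty hL (PCC_empty hO hρ (PCC_adj hO hρ (hp d) h1) (hp _)), mul_one]
  · have h1 := PCC_conj hO (hp d) (E d)
    rw [mul_inv_cancel_right] at h1
    rw [key _ d d, qc_of_empty hL (PCC_empty hO hρ (hp d) h1), one_mul]
  · have h1 := PCC_conj hO (hp (gl d)) (t d)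
    have e : t d * E (gl d) * (t d)⁻¹ = (E d)⁻¹ := by rw [h.hyp d hd]; group
    rw [e] at h1
    rw [key _ d (gl d), qc_of_single hL (PCC_single hO hρ hd (hp d) h1), hwd d hd, neg_neg]

theorem PG.exists_glue (h : PG ρ nx gl E t) (hρ : Disc ρ) (x : Rep ρ) {τ : D → ℝ}
    (hτ : ∀ d, τ (gl d) = τ d) : ∃ (y : Rep ρ) (A : D → Isom), (∀ d, A (nx d) = A d) ∧
      (∀ d, y.1 (E d) = A d * x.1 (E d) * (A d)⁻¹) ∧
      (∀ d, Hyp (ρ (E d)) →
        y.1 (t d) = A d * (trans (ax (x.1 (E d))) (τ d) * x.1 (t d)) * (A (gl d))⁻¹) := by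
  obtain ⟨k, hk⟩ := x.2
  obtain ⟨σ, f, A, hf, h1, h2, h3⟩ := PCC_glue (h.mark hk) (hk.disc hρ) hτ
  exact ⟨⟨σ, _, hk.trans hf⟩, A, h1, h2, fun d hd => h3 d (hk.hyp hd).1⟩

theorem PCC_uniq {a b c A A' : Isom} (h : Frame a b c) (h1 : A * a * A⁻¹ = A' * a * A'⁻¹)
    (h2 : A * b * A⁻¹ = A' * b * A'⁻¹) (h3 : A * c * A⁻¹ = A' * c * A'⁻¹) : A = A' := by
  have key : ∀ x : Isom, NoFix x → A * x * A⁻¹ = A' * x * A'⁻¹ → (A⁻¹ * A') • lo x = lo x := by
    intro x hx e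
    rw [mul_smul, inv_smul_eq_iff, ← hx.lo_conj, ← hx.lo_conj, e]
  have k1 := key a h.2.1.1 h1
  have k2 := key b h.2.2.1.1 h2
  have k3 := key c h.2.2.2.1 h3
  by_contra hne
  have hn := noFix_of_fix_circ (fun e => hne (inv_mul_eq_one.1 e)) k1
  rw [hn.fix_iff] at k1 k2 k3
  have n1 := h.2.1.lo_ne
  have n2 := h.2.2.1.lo_ne
  have n3 := h.2.2.2.lo_ne
  rcases k1 with k1 | k1 <;> rcases k2 with k2 | k2 <;> rcases k3 with k3 | k3 <;>
    first
    | exact n1 (k1.trans k2.symm)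
    | exact n2 (k2.trans k3.symm)
    | exact n3 (k3.trans k1.symm)

theorem PCC_range (h : PG ρ nx gl E t) (hρ : Good ρ N) {x y : Γ →* Isom} {M : D → Isom}
    (h1 : ∀ d, M (nx d) = M d) (h2 : ∀ d, y (E' d) = M d * x (E d) * (M d)⁻¹)
    (h3 : ∀ d, y (t' d) = M d * x (t d) * (M (gl d))⁻¹) (d₀ d : D) (g : Γ) :
    ∃ g', y g' = M d₀ * x g * (M d)⁻¹ := by
  refine h.walk_ind hρ (P := fun d g => ∃ g', y g' = M d₀ * x g * (M d)⁻¹) (d₀ := d₀) (g₀ := 1)
    ⟨1, by simp⟩ ?_ ?_ ?_ ?_ d g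
  · rintro d g ⟨g', e⟩
    exact ⟨g', by rw [h1, e]⟩
  · rintro d g ⟨g', e⟩
    exact ⟨g' * E' d, by rw [map_mul, map_mul, e, h2]; group⟩
  · rintro d g ⟨g', e⟩
    exact ⟨g' * (E' d)⁻¹, by rw [map_mul, map_mul, map_inv, map_inv, e, h2]; group⟩
  · rintro d g ⟨g', e⟩
    exact ⟨g' * t' d, by rw [map_mul, map_mul, e, h3]; group⟩

theorem PCC_match (h : PG ρ nx gl E t) (h' : PG ρ nx gl E' t') (hρ : Good ρ N) :
    ∃ (x y : Rep ρ) (M : D → Isom), (∀ d, M (nx d) = M d) ∧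
      (∀ d, y.1 (E' d) = M d * x.1 (E d) * (M d)⁻¹) ∧
      ∀ d, y.1 (t' d) = M d * x.1 (t d) * (M (gl d))⁻¹ := by
  have hD := hρ.toDisc
  have := h.finite
  obtain ⟨L, hL⟩ := (Set.finite_range fun d => tl (ρ (E d)) + tl (ρ (E' d))).bddAbove
  have hL' : ∀ d, tl (ρ (E d)) + tl (ρ (E' d)) ≤ L := fun d => hL ⟨d, rfl⟩
  obtain ⟨x, hx⟩ := h.exists_len hρ (L := L) fun d => by linarith [hL' d, tl_nonneg (ρ (E' d))]
  obtain ⟨z, hz⟩ := h'.exists_len hρ (L := L) fun d => by linarith [hL' d, tl_nonneg (ρ (E d))]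
  obtain ⟨k, hk⟩ := x.2
  obtain ⟨k', hk'⟩ := z.2
  have hh : ∀ d, Hyp (ρ (E d)) ↔ Hyp (ρ (E' d)) := fun d => by
    rw [h.hyp_iff hD, h'.hyp_iff hD]
  have htl : ∀ d, tl (x.1 (E d)) = tl (z.1 (E' d)) := fun d => by
    by_cases hd : Hyp (ρ (E d))
    · rw [hx d hd, hz d ((hh d).1 hd)]
    · have h1 : ¬ 0 < tl (x.1 (E d)) := fun e => hd ((hk.hyp_iff _).1 e)
      have h2 : ¬ 0 < tl (z.1 (E' d)) := fun e => hd ((hh d).2 ((hk'.hyp_iff _).1 e))
      linarith [tl_nonneg (x.1 (E d)), tl_nonneg (z.1 (E' d)), not_lt.1 h1, not_lt.1 h2]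
  choose A a1 a2 a3 using fun d => (hk.frame (h.frame d)).exists_conj (hk'.frame (h'.frame d))
    (htl _) (htl _) (htl _)
  have hA : ∀ d, A (nx d) = A d := fun d => by
    refine PCC_uniq (hk.frame (h.frame (nx d))) ((a1 _).trans (a2 d).symm)
      ((a2 _).trans (a3 d).symm) ((a3 _).trans ?_)
    rw [h.cube, a1]
  let u : D → Isom := fun d => A d * x.1 (t d) * (A (gl d))⁻¹ * (z.1 (t' d))⁻¹
  have hu : ∀ d, Hyp (ρ (E d)) →
      u d = trans (ax (z.1 (E' d))) (sh (u d) (ax (z.1 (E' d)))) := fun d hd => by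
    have hd' := (hh d).1 hd
    refine eq_trans_of_smul_eq ?_
    rw [← (hk'.hyp hd').1.ax_conj]
    congr 1
    have e1 := a1 (gl d)
    rw [h.hyp d hd, h'.hyp d hd'] at e1
    simp only [map_mul, map_inv] at e1
    have e2 : z.1 (E' d) = z.1 (t' d) * (A (gl d) * ((x.1 (t d))⁻¹ * (x.1 (E d))⁻¹ * x.1 (t d)) *
        (A (gl d))⁻¹)⁻¹ * (z.1 (t' d))⁻¹ := by rw [e1]; group
    calc u d * z.1 (E' d) * (u d)⁻¹ = A d * x.1 (E d) * (A d)⁻¹ := by
          rw [e2]
          simp only [u]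
          group
      _ = z.1 (E' d) := a1 d
  have hτ : ∀ d, sh (u (gl d)) (ax (z.1 (E' (gl d)))) = sh (u d) (ax (z.1 (E' d))) := fun d => by
    by_cases hd : Hyp (ρ (E d))
    · have hd' := (hk'.hyp ((hh d).1 hd)).1
      have e1 : u (gl d) = (z.1 (t' d))⁻¹ * (u d)⁻¹ * (z.1 (t' d))⁻¹⁻¹ := by
        simp only [u, h.invol, h.t_inv, h'.t_inv, map_inv]
        group
      have e2 : ax (z.1 (E' (gl d))) = (z.1 (t' d))⁻¹ • (ax (z.1 (E' d))).rev := by
        rw [h'.hyp d ((hh d).1 hd), ← hd'.ax_inv, ← hd'.inv.ax_conj, inv_inv, map_mul, map_mul,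
          map_inv, map_inv]
      set s := sh (u d) (ax (z.1 (E' d)))
      have e3 : (u d)⁻¹ = trans (ax (z.1 (E' d))).rev s := by
        rw [hu d hd, trans_rev, inv_eq_iff_mul_eq_one, ← trans_add, add_neg_cancel, trans_zero]
      rw [e1, e2, e3, ← trans_conj, sh_trans]
    · rw [(h.par d hd).1]
  obtain ⟨y, C, c1, c2, c3⟩ := h'.exists_glue hD z (τ := fun d => sh (u d) (ax (z.1 (E' d)))) hτ
  refine ⟨x, y, fun d => C d * A d, fun d => by simp only [c1, hA], fun d => ?_, fun d => ?_⟩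
  · rw [c2, ← a1]
    group
  · by_cases hd : Hyp (ρ (E d))
    · rw [c3 d ((hh d).1 hd), ← hu d hd]
      simp only [u]
      group
    · rw [(h.par d hd).1, (h.par d hd).2, (h'.par d fun e => hd ((hh d).2 e)).2]
      simp

theorem PG.exists_mod (h : PG ρ nx gl E t) (h' : PG ρ nx gl E' t') (hρ : Good ρ N) :
    ∃ φ : Γ ≃* Γ, IsMod ρ φ ∧ ∀ d, IsConj (φ (E d)) (E' d) := by
  obtain ⟨x, y, M, h1, h2, h3⟩ := PCC_match h h' hρ
  obtain ⟨d₀⟩ := h.ne
  obtain ⟨k, hk⟩ := x.2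
  obtain ⟨k', hk'⟩ := y.2
  have hx := (hk.disc hρ.toDisc).injective
  have hy := (hk'.disc hρ.toDisc).injective
  have r1 := PCC_range h hρ h1 h2 h3 d₀
  have r2 := PCC_range (x := y.1) (y := x.1) (M := fun d => (M d)⁻¹) (E' := E) (t' := t) h' hρ
    (fun d => by rw [h1]) (fun d => by rw [h2]; group) (fun d => by rw [h3]; group) d₀ d₀
  choose φ hφ using r1 d₀
  let φ' : Γ →* Γ := MonoidHom.mk' φ fun a b => hy (by rw [map_mul, hφ, hφ, hφ, map_mul]; group)
  have hb : Function.Bijective φ' := by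
    refine ⟨fun a b e => hx ?_, fun g => ?_⟩
    · have e' : y.1 (φ a) = y.1 (φ b) := congrArg y.1 e
      rw [hφ, hφ] at e'
      exact mul_left_cancel (mul_right_cancel e')
    · obtain ⟨a, ha⟩ := r2 g
      refine ⟨a, hy ?_⟩
      change y.1 (φ a) = _
      rw [hφ, ha]
      group
  refine ⟨MulEquiv.ofBijective φ' hb, ?_, fun d => ?_⟩
  · have e : (MulAut.conj (M d₀)).toMonoidHom.comp x.1 =
        y.1.comp (MulEquiv.ofBijective φ' hb).toMonoidHom := MonoidHom.ext fun g => (hφ g).symm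
    have m1 := isMark_conj x.1 (M d₀)
    rw [e] at m1
    exact ⟨_, (hk.trans m1).trans (hk'.comp _).symm⟩
  · obtain ⟨g, hg⟩ := r1 d 1
    refine (isConj_iff.2 ⟨g, hy ?_⟩).symm
    change _ = y.1 (φ (E d))
    rw [hφ, map_mul, map_mul, map_inv, hg, h2, map_one]
    group

end HRT
end

-- merged part: Pool.Agent.Work.MP_35beee_gt.PArea
section
/-!
Area: a uniform packing bound for all markings; the number of pairs of pants is an invariant.

Plan. `good_rep`: in every marking the translates of the `2 * card D` triangles of the pairs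
`E d`, `E (nx d)` and `E (nx d)`, `E d` and of the axes of the `E d` (area zero, `area_line`) cover the
plane (`IsPants.cover`, `IsPants.mark`); `pack_of_area`, `exists_area_tri_le`.
`tri_unique`: two ideal triangles whose interiors meet and whose sides do not interlace have the
same vertices; `IsPants.not_IL`, `mp_rot`, `OSys.lo_inj`. `card_eq`: almost every point lies in the
interior of exactly one triangle, and a triangle is of the form `g • T d` or `g • T' d` for exactly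
three triples; count `∑ area (T ∩ g • S)` over the triangles `T` of one decomposition, `S` of the
other, and `g`, in two ways (`area_tri_circ`, `area_smul`; the cone over a triangle is measurable,
`mem_tri_iff`). Alternatively choose one dart in each orbit of `nx`.
-/

namespace HRT

open Set Filter Topology Real

variable {Γ : Type*} [Group Γ] {ρ : Γ →* Isom} {N : ℝ → ℝ} {D D' : Type} {nx : Equiv.Perm D}
  {nx' : Equiv.Perm D'} {E : D → Γ} {E' : D' → Γ}

/-- The open ideal triangle. -/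
def PAreaO (x y z : Circ) : Set Pt :=
  {p | 0 < det3 x.1 y.1 p.1 ∧ 0 < det3 y.1 z.1 p.1 ∧ 0 < det3 z.1 x.1 p.1}

/-- The open triangle of a pair. -/
def PAreaT (ρ : Γ →* Isom) (a b : Γ) : Set Pt := PAreaO (lo (ρ a)) (lo (ρ b)) (lo (ρ (a * b)⁻¹))

/-- The second dart of an index. -/
def PAreaN (nx : Equiv.Perm D) (i : D × Bool) : D := if i.2 then nx i.1 else nx (nx i.1)

/-- The triangle of an index. -/
def PAreaS (ρ : Γ →* Isom) (nx : Equiv.Perm D) (E : D → Γ) (x : (D × Bool) × Γ) : Set Pt :=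
  PAreaT ρ (x.2 * E x.1.1 * x.2⁻¹) (x.2 * E (PAreaN nx x.1) * x.2⁻¹)

/-- A line, or nothing. -/
def PAreaL (n : V) : Set Pt := {p | n ≠ 0 ∧ B n p.1 = 0}

/-- The exceptional set. -/
def PAreaZ (ρ : Γ →* Isom) : Set Pt :=
  (⋃ m, PAreaL (qv (ρ m))) ∪ ⋃ a, ⋃ b, PAreaL (cr (lo (ρ a)).1 (lo (ρ b)).1)

theorem PArea_union (U W : Set Pt) : area (U ∪ W) ≤ area U + area W := by
  refine le_trans (MeasureTheory.measure_mono ?_)
    (MeasureTheory.measure_union_le (gArea_cone U) (gArea_cone W))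
  rintro v ⟨p, hp | hp, ht⟩
  exacts [Or.inl ⟨p, hp, ht⟩, Or.inr ⟨p, hp, ht⟩]

theorem PArea_null (n : V) : area (PAreaL n) = 0 := by
  by_cases hn : n = 0
  · simp [PAreaL, hn, area]
  let f : V →ₗ[ℝ] ℝ := ⟨⟨B n, B_add_right _⟩, fun t v => B_smul_right t _ v⟩
  have h1 : LinearMap.ker f ≠ ⊤ := fun e => hn (eq_of_B_eq fun w => by
    have : w ∈ LinearMap.ker f := e ▸ Submodule.mem_top
    exact Eq.trans this (B_zero_left w).symm)
  refine MeasureTheory.measure_mono_null ?_ (MeasureTheory.Measure.addHaar_submodule _ _ h1)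
  rintro _ ⟨p, hp, t, -, rfl⟩
  exact (LinearMap.ker f).smul_mem t hp.2

theorem PArea_null_iUnion {ι : Type*} [Countable ι] {U : ι → Set Pt} (h : ∀ i, area (U i) = 0) :
    area (⋃ i, U i) = 0 :=
  nonpos_iff_eq_zero.1 ((area_iUnion_le U).trans (by simp [h]))

theorem PArea_Z [Countable Γ] (ρ : Γ →* Isom) : area (PAreaZ ρ) = 0 :=
  nonpos_iff_eq_zero.1 ((PArea_union _ _).trans (by
    rw [PArea_null_iUnion fun _ => PArea_null _,
      PArea_null_iUnion fun _ => PArea_null_iUnion fun _ => PArea_null _, add_zero]))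

theorem PArea_pos {x y : Circ} (h : x ≠ y) {p : Pt} (h1 : 0 ≤ det3 x.1 y.1 p.1)
    (h2 : p ∉ PAreaL (cr x.1 y.1)) : 0 < det3 x.1 y.1 p.1 := by
  refine lt_of_le_of_ne h1 fun e => h2 ⟨fun h3 => ?_, e.symm⟩
  have h4 := B_cr_cr x.1 y.1 x.1 y.1
  rw [h3, B_zero_left, x.2.1, zero_mul, sub_zero] at h4
  exact (mul_pos_of_neg_of_neg (B_circ_neg h) (B_circ_neg h.symm)).ne h4

theorem PArea_T : ∃ T : ENNReal, 0 < T ∧ T < ⊤ ∧ ∀ x y z, ccw x y z → area (PAreaO x y z) = T := by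
  obtain ⟨T, h1, h2, r, -, h3⟩ := area_tri_circ
  refine ⟨T, h1, h2, fun x y z h => ?_⟩
  rw [← (h3 x y z h).1]
  refine le_antisymm (area_mono fun p hp => (mem_tri_iff h p).2 ⟨hp.1.le, hp.2.1.le, hp.2.2.le⟩) ?_
  refine (area_mono (W := PAreaO x y z ∪ (PAreaL (cr x.1 y.1) ∪ (PAreaL (cr y.1 z.1) ∪
    PAreaL (cr z.1 x.1)))) fun p hp => ?_).trans ((PArea_union _ _).trans
      (add_le_of_nonpos_right ((PArea_union _ _).trans ?_)))
  · obtain ⟨a1, a2, a3⟩ := (mem_tri_iff h p).1 hp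
    refine or_iff_not_imp_right.2 fun h4 => ?_
    simp only [mem_union, not_or] at h4
    exact ⟨PArea_pos h.ne12 a1 h4.1, PArea_pos h.ne23 a2 h4.2.1, PArea_pos h.ne13.symm a3 h4.2.2⟩
  · rw [PArea_null, zero_add]
    exact (PArea_union _ _).trans (by simp [PArea_null])

theorem PArea_isOpen (x y z : Circ) : IsOpen (PAreaO x y z) := by
  have : ∀ u v : V, IsOpen {q : Pt | 0 < det3 u v q.1} := fun u v =>
    isOpen_lt continuous_const (continuous_const.B' continuous_subtype_val)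
  exact (this _ _).inter ((this _ _).inter (this _ _))

theorem PArea_cone {U : Set Pt} (hU : IsOpen U) : MeasurableSet (gArea_cone U) := by
  refine (isOpen_iff_forall_mem_open.2 ?_).measurableSet
  rintro v ⟨p, hp, ht⟩
  obtain ⟨r, hr, h⟩ := Metric.isOpen_iff.1 hU p hp
  exact ⟨_, gArea_cone_mono h, gArea_isOpen p hr, p, Metric.mem_ball_self hr, ht⟩

open MeasureTheory in
theorem PArea_count {ι : Type*} [Countable ι] {S : ι → Set Pt} {A Z : Set Pt} (hA : IsOpen A)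
    (hS : ∀ i, IsOpen (S i)) (hZ : area Z = 0) (h : ∀ p ∉ Z, ∃ i j k, i ≠ j ∧ i ≠ k ∧ j ≠ k ∧
      ∀ l, p ∈ S l ↔ l = i ∨ l = j ∨ l = k) : ∑' i, area (A ∩ S i) = 3 * area A := by
  classical
  have h1 : ∀ i, area (A ∩ S i) = ∫⁻ v in gArea_cone A, (gArea_cone (S i)).indicator 1 v :=
    fun i => by
      rw [lintegral_indicator_one (PArea_cone (hS i)), Measure.restrict_apply (PArea_cone (hS i)),
        inter_comm (gArea_cone _), ← gArea_cone_inter, gArea_eq]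
  simp only [h1]
  rw [← lintegral_tsum fun i => (measurable_one.indicator (PArea_cone (hS i))).aemeasurable,
    gArea_eq, ← setLIntegral_const]
  refine setLIntegral_congr_fun_ae (PArea_cone hA) ?_
  filter_upwards [measure_eq_zero_iff_ae_notMem.1 hZ]
  rintro _ hv ⟨p, -, t, ht, rfl⟩
  obtain ⟨i, j, k, a1, a2, a3, h2⟩ := h p fun hp => hv ⟨p, hp, t, ht, rfl⟩
  have h3 : ∀ l, t • p.1 ∈ gArea_cone (S l) ↔ l ∈ ({i, j, k} : Finset ι) := fun l => by
    simp only [Finset.mem_insert, Finset.mem_singleton, ← h2]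
    exact ⟨fun ⟨q, hq, s, hs, e⟩ => gArea_unique ht.1 hs.1 e ▸ hq, fun hp => ⟨p, hp, t, ht, rfl⟩⟩
  rw [tsum_eq_sum (s := {i, j, k}) fun l hl => indicator_of_notMem (mt (h3 l).1 hl) _,
    Finset.sum_congr rfl fun l hl => indicator_of_mem ((h3 l).2 hl) _]
  simp [Finset.card_eq_three.2 ⟨i, j, k, a1, a2, a3, rfl⟩]

theorem PArea_O_smul (A : Isom) (x y z : Circ) :
    PAreaO (A • x) (A • y) (A • z) = (fun p => A • p) '' PAreaO x y z := by
  have k1 : ∀ (x y : Circ) (q : Pt), 0 < det3 (A • x).1 (A • y).1 (A • q).1 ↔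
      0 < det3 x.1 y.1 q.1 := fun x y q => by
    obtain ⟨t, ht, e⟩ := PFrame_det_smul A x y q
    rw [e, mul_pos_iff_of_pos_left ht]
  ext q
  obtain ⟨q, rfl⟩ := MulAction.surjective A q
  rw [(MulAction.injective A).mem_set_image]
  exact and_congr (k1 _ _ _) (and_congr (k1 _ _ _) (k1 _ _ _))

theorem PArea_edge {u w x y z : Circ} (h : ccw x y z) {p : Pt} (hp : p ∈ PAreaO x y z)
    (h1 : 0 < det3 u.1 w.1 p.1) (hx : ccw u x w) (hy : ¬ ccw w y u) (hz : ¬ ccw w z u) : False := by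
  obtain ⟨r, s, t, a1, a2, a3, e⟩ := (mem_tri_iff h p).2 ⟨hp.1.le, hp.2.1.le, hp.2.2.le⟩
  rw [ccw_iff] at hx hy hz
  rw [det3_swap u.1 w.1 x.1] at hx
  rw [← det3_cyc u.1 w.1] at hy hz
  rw [e, det3, B_add_right, B_add_right, B_smul_right, B_smul_right, B_smul_right] at h1
  have b1 := mul_nonpos_of_nonneg_of_nonpos a1 (neg_pos.1 hx).le
  have b2 := mul_nonpos_of_nonneg_of_nonpos a2 (not_lt.1 hy)
  have b3 := mul_nonpos_of_nonneg_of_nonpos a3 (not_lt.1 hz)
  unfold det3 at b1 b2 b3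
  linarith

theorem PArea_rot {a b : Γ} {p : Pt} (hp : p ∈ PAreaT ρ a b) : p ∈ PAreaT ρ b (a * b)⁻¹ := by
  rw [PAreaT, show (b * (a * b)⁻¹)⁻¹ = a by group]
  exact ⟨hp.2.1, hp.2.2, hp.1⟩

namespace IsPants

variable {a b c d : Γ} {p : Pt}

theorem PArea_mp (h : IsPants ρ nx E) (x : (D × Bool) × Γ) :
    MP nx E (x.2 * E x.1.1 * x.2⁻¹) (x.2 * E (PAreaN nx x.1) * x.2⁻¹) := by
  obtain ⟨⟨d, _ | _⟩, g⟩ := x
  · exact ⟨nx (nx d), g, Or.inr ⟨rfl, by rw [h.cube]⟩⟩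
  · exact ⟨d, g, Or.inl ⟨rfl, rfl⟩⟩

theorem PArea_idx (h : IsPants ρ nx E) (hm : MP nx E a b) : ∃ x : (D × Bool) × Γ,
    x.2 * E x.1.1 * x.2⁻¹ = a ∧ x.2 * E (PAreaN nx x.1) * x.2⁻¹ = b := by
  obtain ⟨d, g, rfl, rfl | rfl⟩ := h.PPants_nf hm
  exacts [⟨((d, true), g), rfl, rfl⟩, ⟨((d, false), g), rfl, rfl⟩]

theorem PArea_inj (h : IsPants ρ nx E) (hρ : Disc ρ) {x y : (D × Bool) × Γ}
    (e1 : x.2 * E x.1.1 * x.2⁻¹ = y.2 * E y.1.1 * y.2⁻¹)
    (e2 : x.2 * E (PAreaN nx x.1) * x.2⁻¹ = y.2 * E (PAreaN nx y.1) * y.2⁻¹) : x = y := by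
  have h1 := h.adj hρ (h.PArea_mp x)
  obtain ⟨⟨d, s⟩, g⟩ := x
  obtain ⟨⟨d', s'⟩, g'⟩ := y
  obtain rfl : d = d' := (h.PPants_eq e1).1
  obtain rfl : s = s' := by
    have h2 := (h.PPants_eq e2).1
    cases s <;> cases s'
    exacts [rfl, (h.nx_ne _ h2).elim, (h.nx_ne _ h2.symm).elim, rfl]
  have h2 := PChain_free h.sys h1.1 h1.face (g := g' * g⁻¹) (by
    rw [show ∀ x, g' * g⁻¹ * (g * x * g⁻¹) * (g' * g⁻¹)⁻¹ = g' * x * g'⁻¹ from fun x => by group]
    exact e1.symm) (by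
    rw [show ∀ x, g' * g⁻¹ * (g * x * g⁻¹) * (g' * g⁻¹)⁻¹ = g' * x * g'⁻¹ from fun x => by group]
    exact e2.symm)
  rw [mul_inv_eq_one.1 h2]

theorem PArea_smul (h : IsPants ρ nx E) (hρ : Disc ρ) (i : D × Bool) (k g : Γ) :
    PAreaS ρ nx E (i, k * g) = (fun p => ρ k • p) '' PAreaS ρ nx E (i, g) := by
  obtain ⟨-, -, -, -, h1, h2, -⟩ := h.fo hρ (h.PArea_mp (i, g))
  rw [PAreaS, PAreaS, PAreaT, PAreaT, ← PArea_O_smul, ← POs_lo h1.1, ← POs_lo h2.1,
    ← POs_lo h2.2.1]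
  congr 3 <;> group

theorem PArea_cover (h : IsPants ρ nx E) (hρ : Disc ρ) (hp : p ∉ PAreaZ ρ) :
    ∃ a b, MP nx E a b ∧ p ∈ PAreaT ρ a b := by
  simp only [PAreaZ, mem_union, mem_iUnion, not_or, not_exists] at hp
  obtain ⟨a, b, hm, h1⟩ := h.cover hρ fun m hm e => hp.1 m ⟨(h.sys.noFix hm).qv_ne_zero, e⟩
  have h2 : ccw _ _ _ := (h.fo hρ hm).2.2.2.ord3
  obtain ⟨a1, a2, a3⟩ := (mem_tri_iff h2 p).1 h1
  exact ⟨a, b, hm, PArea_pos h2.ne12 a1 (hp.2 _ _), PArea_pos h2.ne23 a2 (hp.2 _ _),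
    PArea_pos h2.ne13.symm a3 (hp.2 _ _)⟩

theorem PArea_vertex (h : IsPants ρ nx E) (hρ : Good ρ N) (h1 : MP nx E a b) (h2 : MP nx E c d)
    (p1 : p ∈ PAreaT ρ a b) (p2 : p ∈ PAreaT ρ c d) : c = a ∨ c = b ∨ c = (a * b)⁻¹ := by
  have hd := hρ.toDisc
  have key : ∀ a b, MP nx E a b → p ∈ PAreaT ρ a b → ¬ Ord3 (ρ a) (ρ c) (ρ b) := by
    intro a b h1 p1 o1
    have h3 := h.mp_rot hd (h.mp_rot hd h2)
    rw [show (d * (c * d)⁻¹)⁻¹ = c by group] at h3
    exact PArea_edge (h.fo hd h2).2.2.2.ord3 p2 p1.1 o1 (fun o2 => h.not_IL hρ h1 h2 ⟨o1, o2⟩)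
      fun o2 => h.not_IL hρ h1 h3.symm ⟨o1, o2⟩
  by_contra hn
  simp only [not_or] at hn
  obtain ⟨a1, a2, a3, a4⟩ := h.fo hd h1
  have hc := (h.fo hd h2).1
  rcases PFrame_split a4.ord3 (fun e => hn.1 (h.sys.lo_inj hd hc a1 e))
    (fun e => hn.2.1 (h.sys.lo_inj hd hc a2 e))
    (fun e => hn.2.2 (h.sys.lo_inj hd hc a3 e)) with o | o | o
  · exact key _ _ h1 p1 o
  · exact key _ _ (h.mp_rot hd h1) (PArea_rot p1) o
  · have h3 := key _ _ (h.mp_rot hd (h.mp_rot hd h1)) (PArea_rot (PArea_rot p1))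
    rw [show (b * (a * b)⁻¹)⁻¹ = a by group] at h3
    exact h3 o

theorem PArea_same (h : IsPants ρ nx E) (hρ : Good ρ N) (h1 : MP nx E a b) (h2 : MP nx E a d)
    (p1 : p ∈ PAreaT ρ a b) (p2 : p ∈ PAreaT ρ a d) : d = b := by
  have hd := hρ.toDisc
  rcases h.PArea_vertex hρ h1 (h.mp_rot hd h2) p1 (PArea_rot p2) with e | e | e
  · exact ((h.adj hd h2).face.ne (by rw [e])).elim
  · exact e
  · have h3 := p2.1
    rw [e, det3_cyc, det3_swap, ← det3_cyc p.1, det3_cyc p.1] at h3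
    exact (lt_asymm p1.2.2 (neg_pos.1 h3)).elim

theorem PArea_three (h : IsPants ρ nx E) (hρ : Good ρ N) (hp : p ∉ PAreaZ ρ) :
    ∃ i j k, i ≠ j ∧ i ≠ k ∧ j ≠ k ∧ ∀ l, p ∈ PAreaS ρ nx E l ↔ l = i ∨ l = j ∨ l = k := by
  have hd := hρ.toDisc
  obtain ⟨a, b, m1, p1⟩ := h.PArea_cover hd hp
  have m2 := h.mp_rot hd m1
  have m3 := h.mp_rot hd m2
  have p2 := PArea_rot p1
  have p3 := PArea_rot p2
  obtain ⟨-, f1, f2, f3⟩ := (h.fo hd m1).2.2.2
  obtain ⟨i, i1, i2⟩ := h.PArea_idx m1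
  obtain ⟨j, j1, j2⟩ := h.PArea_idx m2
  obtain ⟨k, k1, k2⟩ := h.PArea_idx m3
  refine ⟨i, j, k, fun e => f1.ne (by rw [← i1, e, j1]), fun e => f3.ne (by rw [← k1, ← e, i1]),
    fun e => f2.ne (by rw [← k1, ← e, j1]), fun l => ⟨fun hl => ?_, ?_⟩⟩
  · have m4 := h.PArea_mp l
    rw [PAreaS] at hl
    rcases h.PArea_vertex hρ m1 m4 p1 hl with e | e | e <;> rw [e] at m4 hl
    · exact Or.inl (h.PArea_inj hd (e.trans i1.symm) ((h.PArea_same hρ m1 m4 p1 hl).trans i2.symm))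
    · exact Or.inr (Or.inl (h.PArea_inj hd (e.trans j1.symm)
        ((h.PArea_same hρ m2 m4 p2 hl).trans j2.symm)))
    · exact Or.inr (Or.inr (h.PArea_inj hd (e.trans k1.symm)
        ((h.PArea_same hρ m3 m4 p3 hl).trans k2.symm)))
  · rintro (rfl | rfl | rfl)
    · rwa [PAreaS, i1, i2]
    · rwa [PAreaS, j1, j2]
    · rwa [PAreaS, k1, k2]

end IsPants

theorem IsPants.good_rep (h : IsPants ρ nx E) (hρ : Disc ρ) :
    ∃ M : ℝ → ℝ, ∀ x : Rep ρ, Good x.1 M := by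
  obtain ⟨T, -, hT, h1⟩ := PArea_T
  have := h.finite
  have := hρ.countable
  have := Fintype.ofFinite D
  refine ⟨packN (Fintype.card (D × Bool) * T).toReal, fun x => ?_⟩
  obtain ⟨σ, f, hm⟩ := x
  have h2 := h.mark hm
  have h3 := hm.disc hρ
  refine ⟨h3, fun r hr s hs => pack_of_area σ
    (F := (⋃ i : D × Bool, PAreaS σ nx E (i, 1)) ∪ PAreaZ σ) ENNReal.toReal_nonneg ?_
    (fun p => ?_) hr hs⟩
  · rw [ENNReal.ofReal_toReal (ENNReal.mul_ne_top (ENNReal.natCast_ne_top _) hT.ne)]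
    refine (PArea_union _ _).trans ?_
    rw [PArea_Z, add_zero]
    refine (area_iUnion_le _).trans (le_of_eq ?_)
    have h4 : ∀ x, area (PAreaS σ nx E x) = T := fun x =>
      h1 _ _ _ (h2.fo h3 (h2.PArea_mp x)).2.2.2.ord3
    simp only [h4]
    rw [tsum_fintype, Finset.sum_const, Finset.card_univ, nsmul_eq_mul]
  · by_cases hp : p ∈ PAreaZ σ
    · exact ⟨1, Or.inr (by rwa [map_one, one_smul])⟩
    · obtain ⟨a, b, h4, h5⟩ := h2.PArea_cover h3 hp
      obtain ⟨⟨i, g⟩, rfl, rfl⟩ := h2.PArea_idx h4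
      obtain ⟨q, hq, rfl⟩ := (h2.PArea_smul h3 i g 1).subset (by
        rw [mul_one]
        exact h5)
      exact ⟨g⁻¹, Or.inl (mem_iUnion.2 ⟨i, by rwa [map_inv, inv_smul_smul]⟩)⟩

theorem IsPants.card_eq (h : IsPants ρ nx E) (h' : IsPants ρ nx' E') (hρ : Good ρ N) :
    Nat.card D = Nat.card D' := by
  obtain ⟨T, h0, hT, h1⟩ := PArea_T
  have hd := hρ.toDisc
  have := h.finite
  have := h'.finite
  have := hd.countable
  have := Fintype.ofFinite D
  have := Fintype.ofFinite D'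
  have e1 := fun i : D × Bool => PArea_count (A := PAreaS ρ nx E (i, 1))
    (S := PAreaS ρ nx' E') (PArea_isOpen _ _ _)
    (fun x => PArea_isOpen _ _ _) (PArea_Z ρ) fun p hp => h'.PArea_three hρ hp
  have e2 := fun i : D' × Bool => PArea_count (A := PAreaS ρ nx' E' (i, 1))
    (S := PAreaS ρ nx E) (PArea_isOpen _ _ _)
    (fun x => PArea_isOpen _ _ _) (PArea_Z ρ) fun p hp => h.PArea_three hρ hp
  have e3 : ∑' i : D × Bool, ∑' x, area (PAreaS ρ nx E (i, 1) ∩ PAreaS ρ nx' E' x) =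
      ∑' i : D' × Bool, ∑' x, area (PAreaS ρ nx' E' (i, 1) ∩ PAreaS ρ nx E x) := by
    simp only [ENNReal.tsum_prod' (β := Γ)]
    rw [ENNReal.tsum_comm]
    refine tsum_congr fun j => tsum_congr fun i => ?_
    rw [← (Equiv.inv Γ).tsum_eq]
    refine tsum_congr fun g => ?_
    rw [← area_smul (ρ g), image_inter (MulAction.injective _), ← h.PArea_smul hd,
      ← h'.PArea_smul hd, Equiv.inv_apply, mul_one, mul_inv_cancel, inter_comm]
  have e4 : ∀ x, area (PAreaS ρ nx E x) = T := fun x =>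
    h1 _ _ _ (h.fo hd (h.PArea_mp x)).2.2.2.ord3
  have e5 : ∀ x, area (PAreaS ρ nx' E' x) = T := fun x =>
    h1 _ _ _ (h'.fo hd (h'.PArea_mp x)).2.2.2.ord3
  rw [tsum_congr e1, tsum_congr e2] at e3
  simp only [e4, e5] at e3
  rw [tsum_fintype, tsum_fintype, Finset.sum_const, Finset.sum_const, Finset.card_univ,
    Finset.card_univ, nsmul_eq_mul, nsmul_eq_mul, ENNReal.mul_left_inj
      (mul_ne_zero three_ne_zero h0.ne') (ENNReal.mul_ne_top ENNReal.ofNat_ne_top hT.ne),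
    Nat.cast_inj, Fintype.card_prod, Fintype.card_prod, Fintype.card_bool] at e3
  rw [Nat.card_eq_fintype_card, Nat.card_eq_fintype_card]
  omega

end HRT
end

-- merged part: Pool.Agent.Work.MP_35beee_gt.PDM
section
/-!
Compactness modulo mapping classes, and approximation of one multicurve by translates of another.

Plan. `exists_dm`: `exists_uniform`, `exists_bers`; the number of darts is constant (`card_eq`), so
along `U` the permutations `nx`, `gl` are constant (`IsPants.exists_pg`); fix one decomposition with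
this structure, `PG.exists_mod`, `OSys.exists_multi`, `exists_duals`, and compose with
`Duals.exists_norm` for the marking `(x n).act _`.
`Arrow.trans`: apply the first relation to the finite set of the markings `z.act _`.
`arrow_move`: for `E`, `E'` as in `PG.move` twist `n` times about `E' d` (`exists_isTw` for the single
curve, `IsTw.abs_tl_sub_le`, `IsTw.isConj`); the other darts keep their lengths (parabolic elements
have length zero in all markings); `E (gl d)` is conjugate to `(E d)⁻¹`.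
`arrow`: extend both multicurves to pants decompositions (`Good.exists_pants`, `exists_pg`). The
numbers of darts agree (`card_eq`), the fixed points of the two involutions correspond (both
represent the conjugacy classes of `CuspGen`), so there is a bijection of darts that respects the
involutions and matches the dart of `R i` with the dart of `Q i`; `PG.reindex`, `exists_moves`,
`PG.move`, `PG.flip`, `PG.exists_mod`; give weight zero to the other darts.
-/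

namespace HRT

open Set Filter Topology Real

variable {Γ : Type*} [Group Γ] {ρ : Γ →* Isom} {N : ℝ → ℝ}

theorem PDM_pants (hρ : Good ρ N) :
    ∃ (n : ℕ) (nx : Equiv.Perm (Fin n)) (E : Fin n → Γ), IsPants ρ nx E := by
  obtain ⟨n, nx, E, h, -⟩ :=
    hρ.exists_pants (ι := Empty) (R := Empty.elim) ⟨fun i => i.elim, fun i => i.elim⟩
  exact ⟨n, nx, E, h⟩

theorem Good.exists_uniform (hρ : Good ρ N) : ∃ M : ℝ → ℝ, ∀ x : Rep ρ, Good x.1 M := by
  obtain ⟨n, nx, E, h⟩ := PDM_pants hρ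
  exact h.good_rep hρ.toDisc

theorem PDM_bers (hρ : Good ρ N) : ∃ (n : ℕ) (L : ℝ), ∀ x : Rep ρ,
    ∃ (nx gl : Equiv.Perm (Fin n)) (E t : Fin n → Γ), PG ρ nx gl E t ∧
      ∀ d, tl (x.1 (E d)) ≤ L := by
  obtain ⟨M, hM⟩ := hρ.exists_uniform
  obtain ⟨L, hL⟩ := hρ.exists_bers hM
  obtain ⟨n₀, nx₀, E₀, h₀⟩ := PDM_pants hρ
  refine ⟨n₀, L, fun x => ?_⟩
  obtain ⟨n, nx, E, h, hl⟩ := hL x
  obtain rfl : n = n₀ := by simpa using h.card_eq h₀ hρ
  obtain ⟨gl, t, hg⟩ := h.exists_pg hρ.toDisc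
  exact ⟨nx, gl, E, t, hg, hl⟩

theorem PDM_map (φ : Γ ≃* Γ) {a b : Γ} (h : IsConj a b) : IsConj (φ a) (φ b) :=
  φ.toMonoidHom.map_isConj h

theorem PDM_norm (hρ : Good ρ N) {D ι : Type} [Finite ι] {nx gl : Equiv.Perm D}
    {E t E' t' : D → Γ} (h : PG ρ nx gl E t) (h' : PG ρ nx gl E' t') {P δ : ι → Γ}
    (hd : Duals ρ P δ) (hO : objs E = Obj ρ P) (x : Rep ρ) {L : ℝ}
    (hL : ∀ d, tl (x.1 (E' d)) ≤ L) : ∃ φ : Γ ≃* Γ, IsMod ρ φ ∧
      ∀ i, tl (x.1 (φ (P i))) ≤ 4 * L ∧ |tw x.1 (φ (P i)) (φ (δ i))| ≤ 4 * L := by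
  obtain ⟨ψ, hψ, hc⟩ := h.exists_mod h' hρ
  obtain ⟨χ, hχ, h1, h2⟩ := hd.exists_norm hρ.toDisc (x.act hψ)
  refine ⟨χ.trans ψ, hχ.trans hψ, fun i => ?_⟩
  have hi : P i ∈ objs E := by
    rw [hO]
    exact Or.inl ⟨i, mem_cls_self _⟩
  obtain ⟨d, hd'⟩ := hi
  have e1 : tl ((x.act hψ).1 (P i)) ≤ L := by
    rw [POs_tl hd', Rep.act_apply, ← POs_tl (hc d)]
    exact hL d
  have e2 : IsConj (P i) (χ (P i)) :=
    h1 _ (hd.multi.1 i).hyp fun j =>
      CTw_zero hρ.toDisc hd.multi (hd.multi.sys hρ.toDisc) (hd.multi.1 i).hyp (CTw_ax' i) j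
  have e3 : tl ((x.act hψ).1 (χ (P i))) = tl ((x.act hψ).1 (P i)) := POs_tl e2 _
  have e4 := tl_nonneg ((x.act hψ).1 (P i))
  refine ⟨?_, (h2 i).trans (by linarith)⟩
  change tl ((x.act hψ).1 (χ (P i))) ≤ 4 * L
  linarith only [hψ, e1, e3, e4]

theorem Good.exists_dm (hρ : Good ρ N) {I : Type} (U : Ultrafilter I) (x : I → Rep ρ) :
    ∃ (k : ℕ) (P δ : Fin k → Γ) (L : ℝ) (φ : I → Γ ≃* Γ), Duals ρ P δ ∧ IsMax ρ P ∧
      (∀ n, IsMod ρ (φ n)) ∧ ∀ᶠ n in U, ∀ i, tl ((x n).1 (φ n (P i))) ≤ L ∧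
        |tw (x n).1 (φ n (P i)) (φ n (δ i))| ≤ L := by
  obtain ⟨n, L, hL⟩ := PDM_bers hρ
  choose nx gl E t hP hE using fun j : I => hL (x j)
  obtain ⟨c, hc⟩ := (U.map fun j => (nx j, gl j)).eq_pure_of_finite
  have hev : ∀ᶠ j in U, (nx j, gl j) = c := by
    have : {c} ∈ U.map fun j => (nx j, gl j) := by
      rw [hc]
      exact Ultrafilter.mem_pure.2 rfl
    exact this
  obtain ⟨j₀, hj₀⟩ := hev.exists
  obtain ⟨k, P, hM, hO⟩ := (hP j₀).sys.exists_multi hρ.toDisc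
  obtain ⟨δ, hδ⟩ := hρ.exists_duals hM
  have key : ∀ j, ∃ φ : Γ ≃* Γ, IsMod ρ φ ∧ ((nx j, gl j) = c → ∀ i,
      tl ((x j).1 (φ (P i))) ≤ 4 * L ∧ |tw (x j).1 (φ (P i)) (φ (δ i))| ≤ 4 * L) := by
    intro j
    by_cases hj : (nx j, gl j) = c
    · have e := hj₀.trans hj.symm
      have h0 := hP j₀
      rw [show nx j₀ = nx j from (Prod.ext_iff.1 e).1, show gl j₀ = gl j from (Prod.ext_iff.1 e).2]
        at h0
      obtain ⟨φ, h1, h2⟩ := PDM_norm hρ h0 (hP j) hδ hO (x j) (hE j)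
      exact ⟨φ, h1, fun _ => h2⟩
    · exact ⟨_, IsMod.refl ρ, fun h => absurd h hj⟩
  choose φ h1 h2 using key
  exact ⟨k, P, δ, 4 * L, φ, hδ, ⟨n, nx j₀, E j₀, (hP j₀).toIsPants, hO⟩, h1,
    hev.mono fun j hj => h2 j hj⟩

/-- Weighted lengths of `Q` are limits of weighted lengths of translates of `R`. -/
def Arrow (ρ : Γ →* Isom) {ι : Type} (R Q : ι → Γ) : Prop :=
  ∀ (s : ι → ℝ) (Z : Finset (Rep ρ)) (ε : ℝ), (∀ i, 0 ≤ s i) → 0 < ε →
    ∃ (φ : Γ ≃* Γ) (u : ι → ℝ), IsMod ρ φ ∧ (∀ i, 0 ≤ u i) ∧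
      ∀ i, ∀ z ∈ Z, |u i * tl (z.1 (φ (R i))) - s i * tl (z.1 (Q i))| ≤ ε

theorem Arrow.trans {ι : Type} {R Q S : ι → Γ} (h1 : Arrow ρ R Q) (h2 : Arrow ρ Q S) :
    Arrow ρ R S := by
  classical
  intro s Z ε hs hε
  obtain ⟨ψ, u, hψ, hu, h⟩ := h2 s Z (ε / 2) hs (half_pos hε)
  obtain ⟨φ, v, hφ, hv, h'⟩ := h1 u (Z.image fun z => z.act hψ) (ε / 2) hu (half_pos hε)
  refine ⟨φ.trans ψ, v, hφ.trans hψ, hv, fun i z hz => ?_⟩
  have a := h i z hz
  have b := h' i (z.act hψ) (Finset.mem_image_of_mem _ hz)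
  rw [Rep.act_apply, Rep.act_apply] at b
  rw [MulEquiv.trans_apply]
  exact (abs_sub_le _ _ _).trans ((add_le_add b a).trans (add_halves ε).le)

theorem PDM_conj {ι : Type} {R Q : ι → Γ} {φ : Γ ≃* Γ} (hφ : IsMod ρ φ)
    (h : ∀ i, IsConj (φ (R i)) (Q i)) : Arrow ρ R Q := by
  intro s Z ε hs hε
  refine ⟨φ, s, hφ, hs, fun i z _ => ?_⟩
  rw [POs_tl (h i), sub_self, abs_zero]
  exact hε.le

theorem PDM_comp {ι κ : Type} {R Q : κ → Γ} (h : Arrow ρ R Q) {e : ι → κ}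
    (he : Function.Injective e) : Arrow ρ (R ∘ e) (Q ∘ e) := by
  intro s Z ε hs hε
  have h0 : ∀ j, 0 ≤ Function.extend e s 0 j := by
    intro j
    by_cases hj : ∃ i, e i = j
    · obtain ⟨i, rfl⟩ := hj
      rw [he.extend_apply]
      exact hs i
    · rw [Function.extend_apply' _ _ _ hj]
      exact le_rfl
  obtain ⟨φ, u, hφ, hu, h1⟩ := h (Function.extend e s 0) Z ε h0 hε
  refine ⟨φ, u ∘ e, hφ, fun i => hu _, fun i z hz => ?_⟩
  have := h1 (e i) z hz
  rw [he.extend_apply] at this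
  exact this

theorem PDM_tl_zero (z : Rep ρ) {g : Γ} (h : ¬ Hyp (ρ g)) : tl (z.1 g) = 0 := by
  obtain ⟨f, hf⟩ := z.2
  exact le_antisymm (not_lt.1 fun h1 => h ((hf.hyp_iff g).1 h1)) (tl_nonneg _)

theorem PDM_inter_zero {O : Set Γ} (hO : OSys ρ O) (hρ : Disc ρ) {a b : Γ} (ha : a ∈ O)
    (hb : b ∈ O) (h1 : Hyp (ρ a)) (h2 : Hyp (ρ b)) : inter ρ a b = 0 := by
  refine (hρ.inter_eq_zero_iff h1 h2 (hO.simple hρ hb h2).prim).2 fun k => ?_
  have h3 : Hyp (ρ (k * b * k⁻¹)) := by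
    rw [POs_conj]
    exact h2.conj _
  have := hO.nc a ha _ (hO.conj b hb k) h1 h3
  rwa [POs_conj, h2.ax_conj] at this

theorem PDM_est {s a l c m n ε : ℝ} (hs : 0 ≤ s) (hm : 1 ≤ m) (hn : 0 < n)
    (h : |a - n * l * m| ≤ c) (hc : s * c ≤ ε * n) (hε : 0 < ε) :
    |s / (n * m) * a - s * l| ≤ ε := by
  have h1 : 0 < n * m := mul_pos hn (by linarith)
  have e : s / (n * m) * a - s * l = s / (n * m) * (a - n * l * m) := by
    field_simp
  rw [e, abs_mul, abs_of_nonneg (div_nonneg hs h1.le), div_mul_eq_mul_div, div_le_iff₀ h1]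
  have h2 : ε * n ≤ ε * (n * m) :=
    mul_le_mul_of_nonneg_left (le_mul_of_one_le_right hn.le hm) hε.le
  exact (mul_le_mul_of_nonneg_left h hs).trans (hc.trans h2)

theorem PDM_move (hρ : Disc ρ) {D : Type} {nx nx' gl : Equiv.Perm D} {E t E' t' : D → Γ}
    (h : PG ρ nx gl E t) (h' : PG ρ nx' gl E' t') {d : D}
    (hc : ∀ e, e ≠ d → e ≠ gl d → IsConj (E e) (E' e)) (hi : inter ρ (E d) (E' d) ≠ 0) :
    Arrow ρ E E' := by
  classical
  have hd : Hyp (ρ (E d)) :=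
    (h.sys.noFix (PPants_self E d)).hyp_or_par.resolve_right fun hp => hi (inter_of_par hp _)
  have hd' : Hyp (ρ (E' d)) := (h'.hyp_iff hρ d).2 ((h.hyp_iff hρ d).1 hd)
  have hM := multi_single (h'.sys.simple hρ (PPants_self E' d) hd')
  choose C hC using fun z : Rep ρ => IsTw.abs_tl_sub_le hρ hM z hd
  intro s Z ε hs hε
  obtain ⟨K, hK⟩ := (Z.image C).finite_toSet.bddAbove
  obtain ⟨n, hn⟩ := exists_nat_gt ((s d + s (gl d)) * |K| / ε)
  have hs2 : 0 ≤ (s d + s (gl d)) * |K| := mul_nonneg (add_nonneg (hs _) (hs _)) (abs_nonneg K)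
  have hn0 : (0 : ℝ) < n := (div_nonneg hs2 hε.le).trans_lt hn
  rw [div_lt_iff₀ hε] at hn
  obtain ⟨φ, hφ⟩ := exists_isTw hρ hM fun _ => (n : ℤ)
  have hm : (1 : ℝ) ≤ inter ρ (E d) (E' d) := by exact_mod_cast Nat.one_le_iff_ne_zero.2 hi
  have key : ∀ z ∈ Z, |tl (z.1 (φ (E d))) - n * tl (z.1 (E' d)) * inter ρ (E d) (E' d)| ≤ |K| := by
    intro z hz
    have h1 := hC z _ φ hφ
    rw [Fintype.sum_unique, Int.cast_natCast, abs_of_pos hn0] at h1
    exact h1.trans ((hK (Finset.mem_coe.2 (Finset.mem_image_of_mem C hz))).trans (le_abs_self K))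
  refine ⟨φ, fun e => if e = d ∨ e = gl d then s e / (n * inter ρ (E d) (E' d)) else s e,
    hφ.isMod hρ hM, fun e => ?_, fun e z hz => ?_⟩
  · beta_reduce
    split_ifs
    · exact div_nonneg (hs e) (mul_nonneg hn0.le (Nat.cast_nonneg _))
    · exact hs e
  · beta_reduce
    split_ifs with he
    · have h2 := mul_nonneg (hs d) (abs_nonneg K)
      have h3 := mul_nonneg (hs (gl d)) (abs_nonneg K)
      rcases he with rfl | rfl
      · exact PDM_est (hs _) hm hn0 (key z hz) (by linarith) hε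
      · rw [POs_tl (PDM_map φ (h.PPants_gl hd)), POs_tl (h'.PPants_gl hd'), map_inv, map_inv,
          map_inv, tl_inv, tl_inv]
        exact PDM_est (hs _) hm hn0 (key z hz) (by linarith) hε
    · have h1 := hc e (fun e1 => he (Or.inl e1)) fun e1 => he (Or.inr e1)
      have h2 : tl (z.1 (φ (E e))) = tl (z.1 (E e)) := by
        by_cases hh : Hyp (ρ (E e))
        · exact POs_tl (hφ.isConj hρ hM hh fun _ =>
            PDM_inter_zero h'.sys hρ ⟨e, h1.symm⟩ (PPants_self E' d) hh hd') _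
        · rw [PDM_tl_zero z hh, PDM_tl_zero z fun h3 => hh (((hφ.isMod hρ hM).hyp_iff _).1 h3)]
      rw [h2, POs_tl h1, sub_self, abs_zero]
      exact hε.le

theorem PDM_moves (hρ : Good ρ N) {D : Type} [DecidableEq D] {nx nx' gl : Equiv.Perm D}
    {E t : D → Γ} (h : PG ρ nx gl E t) (hm : Relation.ReflTransGen (Move gl) nx nx') :
    ∃ E' t', PG ρ nx' gl E' t' ∧ Arrow ρ E E' := by
  induction hm with
  | refl => exact ⟨E, t, h, PDM_conj (IsMod.refl ρ) fun _ => IsConj.refl _⟩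
  | tail _ h2 ih =>
    obtain ⟨E₁, t₁, h3, h4⟩ := ih
    obtain ⟨d, x, y, a1, a2, a3, a4, a5, rfl⟩ := h2
    obtain ⟨E₂, t₂, h5, h6, h7⟩ := h3.move hρ a1 a2 a3 a4 a5
    exact ⟨E₂, t₂, h5, h4.trans (PDM_move hρ.toDisc h3 h5 h6 h7)⟩

theorem PDM_pg (hρ : Good ρ N) {D : Type} {nx nx' gl : Equiv.Perm D} {E t E' t' : D → Γ}
    (h : PG ρ nx gl E t) (h' : PG ρ nx' gl E' t') : Arrow ρ E E' := by
  classical
  have := h.toIsPants.finite
  obtain ⟨nx₁, h1, h2⟩ := exists_moves h.invol (h.triv hρ) (h'.triv hρ)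
  obtain ⟨E₁, t₁, h3, h4⟩ := PDM_moves hρ h h1
  obtain ⟨E₂, t₂, h5, h6⟩ := h3.flip hρ.toDisc h2
  obtain ⟨φ, h7, h8⟩ := h5.exists_mod h' hρ
  exact h4.trans (PDM_conj h7 fun d => (PDM_map φ (h6 d)).trans (h8 d))

/-- Normal form of an involution with marked points in different free orbits. -/
theorem PDM_invol {D ι : Type} [Finite D] {gl : Equiv.Perm D} (hgl : ∀ d, gl (gl d) = d)
    {a : ι → D} (ha : Function.Injective a) (hb : ∀ i j, a i ≠ gl (a j)) :
    ∃ (T : Set D) (w : {d // gl d = d} ⊕ T ⊕ T ≃ D) (b : ι → T), Function.Injective b ∧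
      (∀ f, gl (w (Sum.inl f)) = w (Sum.inl f)) ∧
      (∀ u, gl (w (Sum.inr (Sum.inl u))) = w (Sum.inr (Sum.inr u))) ∧
      (∀ u, gl (w (Sum.inr (Sum.inr u))) = w (Sum.inr (Sum.inl u))) ∧
      ∀ i, w (Sum.inr (Sum.inl (b i))) = a i := by
  obtain ⟨n, ⟨r⟩⟩ := Finite.exists_equiv_fin D
  let T : Set D := {d | gl d ≠ d ∧ (d ∈ range a ∨ (gl d ∉ range a ∧ r d < r (gl d)))}
  have h1 : ∀ d ∈ T, gl d ∉ T := by
    rintro d ⟨-, h⟩ ⟨-, h'⟩
    rw [hgl] at h'
    rcases h with ⟨i, rfl⟩ | h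
    · rcases h' with ⟨j, hj⟩ | h'
      · exact hb j i hj
      · exact h'.1 ⟨i, rfl⟩
    · rcases h' with h' | h'
      · exact h.1 h'
      · exact lt_asymm h.2 h'.2
  have h2 : ∀ d, gl d ≠ d → d ∉ T → gl d ∈ T := by
    intro d hd hT
    refine ⟨by rw [hgl]; exact hd.symm, ?_⟩
    rw [hgl]
    by_cases h3 : gl d ∈ range a
    · exact Or.inl h3
    · refine Or.inr ⟨fun h4 => hT ⟨hd, Or.inl h4⟩, ?_⟩
      exact lt_of_le_of_ne (not_lt.1 fun h4 => hT ⟨hd, Or.inr ⟨h3, h4⟩⟩) (r.injective.ne hd)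
  let w : {d // gl d = d} ⊕ T ⊕ T → D :=
    Sum.elim Subtype.val (Sum.elim Subtype.val fun u => gl u.1)
  have hw : Function.Bijective w := by
    constructor
    · rintro (f | u | u) (f' | u' | u') e
      · exact congrArg _ (Subtype.ext e)
      · exact absurd (show gl u'.1 = u'.1 from (show f.1 = u'.1 from e) ▸ f.2) u'.2.1
      · have e1 : f.1 = gl u'.1 := e
        have e2 := f.2
        rw [e1, hgl] at e2
        exact absurd e2.symm u'.2.1
      · exact absurd (show gl u.1 = u.1 from (show u.1 = f'.1 from e).symm ▸ f'.2) u.2.1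
      · exact congrArg _ (congrArg _ (Subtype.ext e))
      · exact absurd ((show u.1 = gl u'.1 from e) ▸ u.2) (h1 _ u'.2)
      · have e1 : gl u.1 = f'.1 := e
        have e2 := f'.2
        rw [← e1, hgl] at e2
        exact absurd e2.symm u.2.1
      · exact absurd ((show gl u.1 = u'.1 from e).symm ▸ u'.2) (h1 _ u.2)
      · exact congrArg _ (congrArg _ (Subtype.ext (gl.injective e)))
    · intro d
      by_cases h3 : gl d = d
      · exact ⟨Sum.inl ⟨d, h3⟩, rfl⟩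
      · by_cases h4 : d ∈ T
        · exact ⟨Sum.inr (Sum.inl ⟨d, h4⟩), rfl⟩
        · exact ⟨Sum.inr (Sum.inr ⟨gl d, h2 d h3 h4⟩), hgl d⟩
  exact ⟨T, Equiv.ofBijective w hw, fun i => ⟨a i, (hb i i).symm, Or.inl ⟨i, rfl⟩⟩,
    fun i j e => ha (congrArg Subtype.val e), fun f => f.2, fun u => rfl, fun u => hgl u.1,
    fun i => rfl⟩

theorem PDM_equiv {D D' ι : Type} [Finite D] [Finite D'] [Finite ι] {gl : Equiv.Perm D}
    {gl' : Equiv.Perm D'}
    (hgl : ∀ d, gl (gl d) = d) (hgl' : ∀ d, gl' (gl' d) = d) {a : ι → D} {a' : ι → D'}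
    (ha : Function.Injective a) (hb : ∀ i j, a i ≠ gl (a j)) (ha' : Function.Injective a')
    (hb' : ∀ i j, a' i ≠ gl' (a' j)) (hc : Nat.card D = Nat.card D')
    (hf : Nat.card {d // gl d = d} = Nat.card {d // gl' d = d}) :
    ∃ e : D ≃ D', (∀ d, e (gl d) = gl' (e d)) ∧ ∀ i, e (a i) = a' i := by
  obtain ⟨T, w, b, h1, h2, h3, h4, h5⟩ := PDM_invol hgl ha hb
  obtain ⟨T', w', b', h1', h2', h3', h4', h5'⟩ := PDM_invol hgl' ha' hb'
  have c1 := Nat.card_congr w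
  have c2 := Nat.card_congr w'
  rw [Nat.card_sum, Nat.card_sum] at c1 c2
  obtain ⟨eF⟩ := Finite.card_eq.1 hf
  obtain ⟨eT⟩ := Finite.card_eq.1 (show Nat.card T = Nat.card T' by omega)
  obtain ⟨σ, hσ⟩ := Equiv.Perm.exists_extending_pair _ _ h1 (eT.symm.injective.comp h1')
  refine ⟨w.symm.trans ((eF.sumCongr ((σ.trans eT).sumCongr (σ.trans eT))).trans w'),
    fun d => ?_, fun i => ?_⟩
  · obtain ⟨x, rfl⟩ := w.surjective d
    rcases x with f | u | u
    · rw [h2]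
      simp [h2']
    · rw [h3]
      simp [h3']
    · rw [h4]
      simp [h4']
  · rw [← h5, ← h5']
    simp [hσ]

theorem PDM_fix (hρ : Disc ρ) {D D' : Type} {nx gl : Equiv.Perm D} {nx' gl' : Equiv.Perm D'}
    {E t : D → Γ} {E' t' : D' → Γ} (h : PG ρ nx gl E t) (h' : PG ρ nx' gl' E' t') :
    Nat.card {d // gl d = d} ≤ Nat.card {d // gl' d = d} := by
  have := h'.toIsPants.finite
  have key : ∀ f : {d // gl d = d}, ∃ f' : {d // gl' d = d}, IsConj (E' f'.1) (E f.1) := by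
    intro f
    have h1 : ¬ Hyp (ρ (E f.1)) := fun h2 => (h.hyp_iff hρ _).1 h2 f.2
    obtain ⟨d, hd⟩ := h'.sys.cusp _ (h.sys.cuspGen (PPants_self E f.1) h1)
    exact ⟨⟨d, (h'.par d fun h2 => h1 (GInter_hyp_conj h2 hd)).1⟩, hd⟩
  choose F hF using key
  refine Nat.card_le_card_of_injective F fun f g e => Subtype.ext (h.uniq _ _ ?_)
  exact (hF f).symm.trans (e ▸ hF g)

theorem PDM_darts (hρ : Disc ρ) {D ι : Type} {nx gl : Equiv.Perm D} {E t : D → Γ}
    (h : PG ρ nx gl E t) {R : ι → Γ} (hR : Multi ρ R) {a : ι → D}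
    (ha : ∀ i, IsConj (E (a i)) (R i)) :
    Function.Injective a ∧ ∀ i j, a i ≠ gl (a j) := by
  constructor
  · intro i j e
    by_contra hne
    obtain ⟨g, hg⟩ := isConj_iff.1 ((ha j).symm.trans (e ▸ ha i))
    exact (hR.2 i j hne g).2.1 hg.symm
  · intro i j e
    have h1 : Hyp (ρ (E (a j))) := GInter_hyp_conj (hR.1 j).hyp (ha j).symm
    by_cases hij : j = i
    · subst hij
      exact (h.hyp_iff hρ _).1 h1 e.symm
    · have h2 := h.PPants_gl h1
      rw [← e] at h2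
      obtain ⟨g, hg⟩ := isConj_iff.1 ((ha i).symm.trans (h2.symm.trans (POs_inv (ha j))))
      exact (hR.2 j i hij g).2.2 hg.symm

theorem Good.arrow (hρ : Good ρ N) {ι : Type} [Finite ι] {R Q : ι → Γ} (hR : Multi ρ R)
    (hQ : Multi ρ Q) : Arrow ρ R Q := by
  obtain ⟨n, nx, E, h, hE⟩ := hρ.exists_pants hR
  obtain ⟨n', nx', E', h', hE'⟩ := hρ.exists_pants hQ
  obtain ⟨gl, t, hg⟩ := h.exists_pg hρ.toDisc
  obtain ⟨gl', t', hg'⟩ := h'.exists_pg hρ.toDisc
  choose a ha using hE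
  choose a' ha' using hE'
  obtain ⟨a1, a2⟩ := PDM_darts hρ.toDisc hg hR ha
  obtain ⟨b1, b2⟩ := PDM_darts hρ.toDisc hg' hQ ha'
  obtain ⟨e, e1, e2⟩ := PDM_equiv hg.invol hg'.invol a1 a2 b1 b2 (h.card_eq h' hρ)
    (le_antisymm (PDM_fix hρ.toDisc hg hg') (PDM_fix hρ.toDisc hg' hg))
  have h1 := hg'.reindex e
  have e3 : e.trans (gl'.trans e.symm) = gl := Equiv.ext fun d => by
    rw [Equiv.trans_apply, Equiv.trans_apply, ← e1, e.symm_apply_apply]
  rw [e3] at h1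
  have h2 : Arrow ρ R (E ∘ a) := PDM_conj (IsMod.refl ρ) fun i => (ha i).symm
  have h3 : Arrow ρ ((E' ∘ e) ∘ a) Q := PDM_conj (IsMod.refl ρ) fun i => by
    change IsConj (E' (e (a i))) (Q i)
    rw [e2]
    exact ha' i
  exact h2.trans ((PDM_comp (PDM_pg hρ hg h1) a1).trans h3)

end HRT
end

-- merged part: Pool.Agent.Work.MP_35beee_gt.MEst
section
/-!
The main estimate: asymptotics of the Thurston distance from a degenerating marking `y n` to a
marking `z n`.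

Plan. Write `ε a = tl (y n (α a))`, `Λ a = log (1 / ε a)`. A simple curve with no crossing is in
the class of a node or satisfies `Th`.
`dual_le`: `exists_seq` for `Obj ρ α` and the fixed curve `δ a` (all crossed objects are in the class
of `α a`), `XSeq.tl_le`, `exists_arc` (finitely many fixed curves, `ybdd`), `twist_sub_le`.
`thick_le`: `Bdd.uni` for `z` with scale `c` and for `y` with scale one, `Bdd.phi`.
`upper`: for a simple `μ` that crosses a node take the sequence `m i`, the curves `x i`, `y i` of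
`exists_arc` (their `z`-length is at most `(F + η) c` times their `y`-length by `thick_le`), and
write `W i` for `r * max`. With `tw_le`, `tw_conj`:
`|tw z (m i) μ| + tl (z (m i)) ≤ (F + η) c (|tw y (m i) μ| + 2 Λ i + C)`, and
`ldist z ≤ (F + η) c W i + C`, while `exists_le_tl` gives
`tl (y μ) ≥ ∑ (|tw y (m i) μ| + W i + Λ i + Λ (i + 1) - C)`. The sums of `Λ i` and `Λ (i + 1)` over a
period agree, and all `Λ` tend to infinity, so the constants are negligible.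
`lower`: the curves `α a`, `δ a` (`dual_le`, `exists_le_tl_dual`) and the curves with `Th`.
-/

namespace HRT

open Set Filter Topology Real

variable {Γ : Type*} [Group Γ] {ρ : Γ →* Isom} {N : ℝ → ℝ} {ι I : Type} {α δ : ι → Γ}
  {U : Ultrafilter I} {c : I → ℝ} {y z : I → Rep ρ}

/-- A family of markings that pinches the multicurve `α` and is bounded elsewhere. -/
structure Pinch (ρ : Γ →* Isom) {ι I : Type} (α δ : ι → Γ) (U : Ultrafilter I) (y : I → Rep ρ) :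
    Prop where
  duals : Duals ρ α δ
  cover : Cover ρ α
  node : ∀ a, Tendsto (fun n => tl ((y n).1 (α a))) U (𝓝 0)
  bdd : ∀ β, Simple ρ β → (∀ a, inter ρ β (α a) = 0) → ∃ C, ∀ᶠ n in U, tl ((y n).1 β) ≤ C
  tw : ∀ a, ∃ C, ∀ᶠ n in U, |tw (y n).1 (α a) (δ a)| ≤ C

/-- The weight of a node. -/
noncomputable def nodeW (y z : Γ →* Isom) (a d : Γ) : ℝ :=
  max (tl (z a) / tl (y a)) (|tw z a d| / (2 * log (1 / tl (y a))))

theorem MEst_pos (x : Rep ρ) {g : Γ} (hg : Hyp (ρ g)) : 0 < tl (x.1 g) := by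
  obtain ⟨f, hf⟩ := x.2
  exact (hf.hyp hg).1

theorem MEst_cross (x : Rep ρ) {g k : Γ} (hg : Hyp (ρ g)) (hk : Hyp (ρ k))
    (h : Cross (ax (ρ g)) (ax (ρ k))) : Cross (ax (x.1 g)) (ax (x.1 k)) := by
  obtain ⟨f, hf⟩ := x.2
  rw [(hf.hyp hg).2, (hf.hyp hk).2]
  exact (hf.ori.cross _ _).2 h

theorem MEst_nodeW_nonneg (y z : Γ →* Isom) (a d : Γ) : 0 ≤ nodeW y z a d :=
  le_max_of_le_left (div_nonneg (tl_nonneg _) (tl_nonneg _))

/-- The dual curve of an object in the class of a node. -/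
theorem MEst_node (h : Duals ρ α δ) {a : ι} {m : Γ} (hm : m ∈ cls ρ (α a)) :
    ∃ u : Γ, Cross (ax (ρ m)) (ax (ρ (u * δ a * u⁻¹))) ∧
      ∀ x : Rep ρ, tw x.1 m (u * δ a * u⁻¹) = tw x.1 (α a) (δ a) := by
  have h1 := (h.multi.1 a).hyp
  have h2 := (h.simple a).hyp
  rcases hm with hm | ⟨-, hm⟩
  · obtain ⟨u, rfl⟩ := isConj_iff.1 hm
    refine ⟨u, ?_, fun x => ?_⟩
    · rw [ax_conj' h1, ax_conj' h2, cross_smul]
      exact h.cross a
    · exact (tw_conj x.1 (MEst_pos x h1) (MEst_pos x h2) (MEst_cross x h1 h2 (h.cross a)) u).1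
  · obtain ⟨u, rfl⟩ := isConj_iff.1 hm
    have h3 : Cross (ax (ρ (α a)⁻¹)) (ax (ρ (δ a))) := by
      rw [GSys_ax_inv h1, cross_rev_left]
      exact h.cross a
    have h4 := POs_hyp_inv h1
    refine ⟨u, ?_, fun x => ?_⟩
    · rw [ax_conj' h4, ax_conj' h2, cross_smul]
      exact h3
    · rw [(tw_conj x.1 (MEst_pos x h4) (MEst_pos x h2) (MEst_cross x h4 h2 h3) u).1]
      exact (tw_conj x.1 (MEst_pos x h1) (MEst_pos x h2) (MEst_cross x h1 h2 (h.cross a)) 1).2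

theorem MEst_obj {m : Γ} (hm : m ∈ Obj ρ α) (hh : Hyp (ρ m)) : ∃ a, m ∈ cls ρ (α a) := by
  rcases hm with hm | hm
  · exact hm
  · exact absurd hm.1 hh.not_par

theorem MEst_mem (a : ι) : α a ∈ Obj ρ α := Or.inl ⟨a, mem_cls_self _⟩

theorem MEst_xcross {O : Set Γ} {g : Γ} {p : ℕ} {m : ℤ → Γ} (h : XSeq ρ O g p m) (i : ℤ) :
    Cross (ax (ρ (m i))) (ax (ρ g)) :=
  mul_neg_of_neg_of_pos (h.chain.src i) (h.chain.tgt i)

theorem MEst_par (x : Rep ρ) {g : Γ} (hg : Par (ρ g)) : tl (x.1 g) = 0 := by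
  obtain ⟨f, hf⟩ := x.2
  exact (hf.par hg).1.2

theorem Pinch.MEst_small (h : Pinch ρ α δ U y) (a : ι) :
    ∀ᶠ n in U, tl ((y n).1 (α a)) ≤ 1 :=
  (h.node a).eventually (ge_mem_nhds one_pos)

theorem Pinch.MEst_log (h : Pinch ρ α δ U y) (a : ι) :
    Tendsto (fun n => log (1 / tl ((y n).1 (α a)))) U atTop := by
  have h1 : Tendsto (fun n => tl ((y n).1 (α a))) U (𝓝[>] 0) :=
    tendsto_nhdsWithin_iff.2 ⟨h.node a, Eventually.of_forall fun n =>
      MEst_pos (y n) (h.duals.multi.1 a).hyp⟩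
  have h2 := tendsto_log_atTop.comp (tendsto_inv_nhdsGT_zero.comp h1)
  refine h2.congr fun n => ?_
  simp only [Function.comp, one_div]

theorem Pinch.MEst_off (h : Pinch ρ α δ U y) {x : Γ} (hx : Off2 ρ (Obj ρ α) x) :
    ∃ C, ∀ᶠ n in U, tl ((y n).1 x) ≤ C := by
  rcases hx with hx | ⟨h1, h2⟩
  · exact ⟨0, Eventually.of_forall fun n => (MEst_par (y n) hx).le⟩
  · exact h.bdd x h1 fun a => h2 _ (MEst_mem a) (h.duals.multi.1 a).hyp

theorem MEst_inter_ne (hρ : Disc ρ) {s d : Γ} (hs : Simple ρ s) (hd : Simple ρ d)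
    (hc : Cross (ax (ρ s)) (ax (ρ d))) : inter ρ d s ≠ 0 := by
  intro h0
  have := (hρ.inter_eq_zero_iff hd.hyp hs.hyp hs.prim).1 h0 1
  rw [map_one, one_smul] at this
  exact this hc.symm

theorem MEst_ldist (x : Rep ρ) {a b : Γ} (ha : Hyp (ρ a)) :
    ldist (ax (x.1 a⁻¹)) (ax (x.1 b)) = ldist (ax (x.1 a)) (ax (x.1 b)) := by
  rw [GSys_ax_inv (ρ := x.1) (MEst_pos x ha), ldist_rev_left]

theorem MEst_tl_inv (x : Rep ρ) (a : Γ) : tl (x.1 a⁻¹) = tl (x.1 a) := by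
  rw [map_inv, tl_inv]

theorem Pinch.dual_le [Finite ι] (h : Pinch ρ α δ U y) (hρ : Good ρ N) (a : ι) : ∃ C : ℝ,
    ∀ᶠ n in U, tl ((y n).1 (δ a)) ≤
      inter ρ (δ a) (α a) * (2 * log (1 / tl ((y n).1 (α a)))) + C := by
  have hO := osys_obj hρ h.duals.multi
  have hα := h.duals.multi.1
  have hδ := h.duals.simple a
  obtain ⟨p, m, hx⟩ := hO.exists_seq hρ.toDisc hδ.hyp
    ⟨α a, MEst_mem a, (hα a).hyp, MEst_inter_ne hρ.toDisc (hα a) hδ (h.duals.cross a)⟩
  have hm : ∀ i : ℕ, i < p → m i ∈ cls ρ (α a) := by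
    intro i hi
    obtain ⟨b, hb⟩ := MEst_obj (hx.mem i) (hx.hyp i)
    by_cases hba : b = a
    · exact hba ▸ hb
    · exfalso
      have h1 := hx.count (α b) (MEst_mem b) (hα b).hyp
      rw [h.duals.disj a b hba] at h1
      have h2 : {i : ℕ | i < p ∧ m i ∈ cls ρ (α b)}.Finite :=
        (Set.finite_lt_nat p).subset fun j hj => hj.1
      rw [Set.ncard_eq_zero h2] at h1
      exact (Set.eq_empty_iff_forall_notMem.1 h1) i ⟨hi, hb⟩
  have hp : (inter ρ (δ a) (α a) : ℝ) = p := by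
    rw [← hx.count (α a) (MEst_mem a) (hα a).hyp]
    have : {i : ℕ | i < p ∧ m i ∈ cls ρ (α a)} = (Finset.range p : Set ℕ) := by
      ext i
      simp only [mem_ofPred_eq, Finset.coe_range, mem_Iio]
      exact ⟨fun h => h.1, fun h => ⟨h, hm i h⟩⟩
    rw [this, Set.ncard_coe_finset, Finset.card_range]
  have hm' : ∀ i : ℕ, i < p → m (i + 1) ∈ cls ρ (α a) := by
    intro i hi
    rcases Nat.lt_or_ge (i + 1) p with h1 | h1
    · exact_mod_cast hm (i + 1) h1
    · have h2 : (i : ℤ) + 1 = 0 + (p : ℤ) := by omega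
      rw [h2, hx.per 0]
      exact cls_conj (hm 0 hx.chain.pos) _
  obtain ⟨C, hC⟩ := exists_arc Γ
  have h3 := fun i : ℤ => hC ρ _ _ _ hO hρ.toDisc (hx.spair hO hρ.toDisc hδ i)
    (POs_hyp_inv (hx.hyp i)) (hx.hyp (i + 1))
  choose x1 x2 r hx1 hx2 hr0 hr1 hr using h3
  choose B1 hB1 using fun i => h.MEst_off (hx1 i)
  choose B2 hB2 using fun i => h.MEst_off (hx2 i)
  obtain ⟨T, hT⟩ := h.tw a
  refine ⟨∑ i ∈ Finset.range p, (T + 2 + C 1 + max (B1 i) (B2 i)), ?_⟩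
  have e1 : ∀ᶠ n in U, ∀ i ∈ Finset.range p, tl ((y n).1 (x1 i)) ≤ B1 i ∧
      tl ((y n).1 (x2 i)) ≤ B2 i :=
    (Finset.eventually_all _).2 fun i _ => (hB1 i).and (hB2 i)
  filter_upwards [e1, hT, h.MEst_small a] with n hn hT hs
  obtain ⟨f, hf⟩ := (y n).2
  refine (hx.tl_le hO hρ.toDisc hf).trans ?_
  have e2 : (inter ρ (δ a) (α a) : ℝ) * (2 * log (1 / tl ((y n).1 (α a)))) =
      ∑ i ∈ Finset.range p, 2 * log (1 / tl ((y n).1 (α a))) := by
    rw [hp, Finset.sum_const, Finset.card_range, nsmul_eq_mul]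
  rw [e2, ← Finset.sum_add_distrib]
  refine Finset.sum_le_sum fun i hi => ?_
  have hi' := Finset.mem_range.1 hi
  have t1 := tl_of_mem_cls (hm i hi') (y n).1
  have t2 := tl_of_mem_cls (hm' i hi') (y n).1
  obtain ⟨u, hu1, hu2⟩ := MEst_node h.duals (hm i hi')
  have hδy : Simple (y n).1 (δ a) := (hf.simple_iff _).2 hδ
  have t3 : |twist (ax ((y n).1 (m i))) (ax ((y n).1 (δ a))) -
      twist (ax ((y n).1 (m i))) (ax ((y n).1 (u * δ a * u⁻¹)))| ≤ tl ((y n).1 (m i)) := by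
    refine twist_sub_le (MEst_pos (y n) (hx.hyp i))
      (MEst_cross (y n) (hx.hyp i) hδ.hyp (MEst_xcross hx i))
      (MEst_cross (y n) (hx.hyp i) (hδ.conj u).hyp hu1) fun k => ?_
    rw [ax_conj' hδy.hyp, ← mul_smul, ← map_zpow, ← map_mul]
    exact hδy.line _
  have t4 : |twist (ax ((y n).1 (m i))) (ax ((y n).1 (u * δ a * u⁻¹)))| ≤ T := by
    have := hu2 (y n)
    unfold HRT.tw at this
    rw [this]
    exact hT
  have t5 := (hr i (y n).1 f hf).2 (by rw [MEst_tl_inv, t1]; exact hs) (by rw [t2]; exact hs)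
  rw [MEst_ldist (y n) (hx.hyp i), MEst_tl_inv, t1, t2] at t5
  have t6 : r i * max (tl ((y n).1 (x1 i))) (tl ((y n).1 (x2 i))) ≤ max (B1 i) (B2 i) :=
    (mul_le_of_le_one_left (le_max_of_le_left (tl_nonneg _)) (hr1 i)).trans
      (max_le_max (hn i hi).1 (hn i hi).2)
  have t7 := abs_sub_abs_le_abs_sub (twist (ax ((y n).1 (m i))) (ax ((y n).1 (δ a))))
    (twist (ax ((y n).1 (m i))) (ax ((y n).1 (u * δ a * u⁻¹))))
  have t8 := (abs_le.1 t5).2
  linarith only [hs, t1, t3, t4, t6, t7, t8]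

/-- The weight of a node is bounded by the Lipschitz constant. -/
theorem Pinch.nodeW_le [Finite ι] (h : Pinch ρ α δ U y) (hρ : Good ρ N) (hc : Tendsto c U atTop)
    (hs : ∃ ε > 0, ∀ n g, Simple ρ g → ε ≤ tl ((z n).1 g))
    (hb : ∀ᶠ n in U, ∀ g, Simple ρ g → tl ((z n).1 g) ≤ c n * tl ((y n).1 g)) (a : ι) {η : ℝ}
    (hη : 0 < η) : ∀ᶠ n in U, nodeW (y n).1 (z n).1 (α a) (δ a) ≤ (1 + η) * c n := by
  obtain ⟨ε, hε, hs⟩ := hs
  obtain ⟨C, hC⟩ := h.dual_le hρ a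
  obtain ⟨D, hD⟩ := exists_le_tl_dual hρ.toDisc hε
  have hα := h.duals.multi.1 a
  have hδ := h.duals.simple a
  have hi : (1 : ℝ) ≤ inter ρ (δ a) (α a) := by
    exact_mod_cast Nat.one_le_iff_ne_zero.2 (MEst_inter_ne hρ.toDisc hα hδ (h.duals.cross a))
  filter_upwards [hb, hC, h.MEst_small a, hc.eventually_ge_atTop 1,
    (h.MEst_log a).eventually_ge_atTop ((|C| + |D| + 2) / η)] with n hb hC h1 h2 h3
  have h4 := MEst_pos (y n) hα.hyp
  have h5 := hb _ hα
  have h6 := hb _ hδ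
  have h7 := hD (z n) _ _ hα hδ (h.duals.cross a) (hs n _ hα)
  have hK : 0 < |C| + |D| + 2 := by positivity
  have hL : 0 < log (1 / tl ((y n).1 (α a))) := (div_pos hK hη).trans_le h3
  rw [div_le_iff₀ hη] at h3
  unfold nodeW
  generalize log (1 / tl ((y n).1 (α a))) = L at *
  refine max_le ?_ ?_
  · rw [div_le_iff₀ h4]
    have := mul_nonneg (mul_nonneg hη.le (zero_le_one.trans h2)) h4.le
    linarith only [h5, this]
  · rw [div_le_iff₀ (by positivity)]
    have h8 : tl ((z n).1 (α a)) ≤ c n := h5.trans (mul_le_of_le_one_right (by linarith) h1)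
    have h9 : tl ((z n).1 (δ a)) ≤ inter ρ (δ a) (α a) * (c n * (2 * L + |C|)) := by
      have h10 := mul_le_mul_of_nonneg_left hC (zero_le_one.trans h2)
      have h11 : C ≤ inter ρ (δ a) (α a) * |C| :=
        (le_abs_self C).trans (le_mul_of_one_le_left (abs_nonneg C) hi)
      have h12 := mul_le_mul_of_nonneg_left h11 (zero_le_one.trans h2)
      linarith
    have h13 := le_of_mul_le_mul_left (h7.trans h9) (zero_lt_one.trans_le hi)
    have h14 : D ≤ c n * |D| := (le_abs_self D).trans (le_mul_of_one_le_left (abs_nonneg D) h2)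
    have h15 := mul_le_mul_of_nonneg_left h3 (zero_le_one.trans h2)
    have h16 := mul_nonneg (zero_le_one.trans h2) (mul_nonneg hL.le hη.le)
    linarith only [h8, h13, h14, h15, h16]

variable {ω : ι → ℝ} {A Y : Γ → ℝ} {F : ℝ}

/-- Limit data. -/
structure MLimit (ρ : Γ →* Isom) {ι I : Type} (α δ : ι → Γ) (U : Ultrafilter I) (c : I → ℝ)
    (y z : I → Rep ρ) (ω : ι → ℝ) (A Y : Γ → ℝ) : Prop where
  top : Tendsto c U atTop
  sys : ∃ ε > 0, ∀ n g, Simple ρ g → ε ≤ tl ((z n).1 g)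
  node : ∀ a, Tendsto (fun n => nodeW (y n).1 (z n).1 (α a) (δ a) / c n) U (𝓝 (ω a))
  zlim : ∀ β, Th ρ α β → Tendsto (fun n => tl ((z n).1 β) / c n) U (𝓝 (A β))
  ylim : ∀ β, Th ρ α β → Tendsto (fun n => tl ((y n).1 β)) U (𝓝 (Y β))

theorem MEst_cases (hρ : Disc ρ) (hα : Multi ρ α) {β : Γ} (hβ : Simple ρ β)
    (h0 : ∀ a, inter ρ β (α a) = 0) : (∃ a, β ∈ cls ρ (α a)) ∨ Th ρ α β := by
  by_cases h : ax (ρ β) ∈ lifts ρ α
  · left
    obtain ⟨a, g, hg | hg⟩ := h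
    · refine ⟨a, ?_⟩
      rw [← ax_conj' (hα.1 a).hyp] at hg
      rw [hρ.eq_of_ax_eq hβ.hyp hβ.prim ((hα.1 a).conj g).hyp ((hα.1 a).conj g).prim hg]
      exact cls_conj (mem_cls_self _) g
    · refine ⟨a, ?_⟩
      rw [← ax_conj' (hα.1 a).hyp, ← GSys_ax_inv ((hα.1 a).conj g).hyp] at hg
      rw [hρ.eq_of_ax_eq hβ.hyp hβ.prim ((hα.1 a).conj g).inv.hyp ((hα.1 a).conj g).inv.prim hg]
      exact POs_inv_mem (hα.1 a).hyp (cls_conj (mem_cls_self _) g)
  · exact Or.inr ⟨hβ, h0, h⟩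

theorem MLimit.MEst_node (hl : MLimit ρ α δ U c y z ω A Y) (a : ι) {G : ℝ} (hG : ω a < G) :
    ∀ᶠ n in U, nodeW (y n).1 (z n).1 (α a) (δ a) ≤ G * c n := by
  filter_upwards [(hl.node a).eventually (gt_mem_nhds hG), hl.top.eventually_gt_atTop 0] with n h1 h2
  exact ((div_lt_iff₀ h2).1 h1).le

theorem MEst_node_tl (x w : Rep ρ) {a d : Γ} (ha : Hyp (ρ a)) {K : ℝ}
    (h : nodeW x.1 w.1 a d ≤ K) : tl (w.1 a) ≤ K * tl (x.1 a) :=
  (div_le_iff₀ (MEst_pos x ha)).1 ((le_max_left _ _).trans h)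

theorem Pinch.MEst_bddy (h : Pinch ρ α δ U y) :
    Bdd ρ α U (fun _ => 1) (fun n => (y n).1) fun n => (y n).2.choose :=
  ⟨fun n => (y n).2.choose_spec, Eventually.of_forall fun _ => le_rfl, fun β h1 h2 => by
    simpa only [mul_one] using h.bdd β h1 h2⟩

theorem Pinch.MEst_bddz (h : Pinch ρ α δ U y) (hρ : Disc ρ) (hl : MLimit ρ α δ U c y z ω A Y) :
    Bdd ρ α U c (fun n => (z n).1) fun n => (z n).2.choose := by
  refine ⟨fun n => (z n).2.choose_spec, hl.top.eventually_ge_atTop 1, fun β h1 h2 => ?_⟩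
  rcases MEst_cases hρ h.duals.multi h1 h2 with ⟨a, ha⟩ | ht
  · refine ⟨ω a + 1, ?_⟩
    filter_upwards [hl.MEst_node a (lt_add_one _), h.MEst_small a] with n h3 h4
    rw [tl_of_mem_cls ha]
    exact (MEst_node_tl (y n) (z n) (h.duals.multi.1 a).hyp h3).trans
      (mul_le_of_le_one_right ((MEst_nodeW_nonneg _ _ _ _).trans h3) h4)
  · refine ⟨A β + 1, ?_⟩
    filter_upwards [(hl.zlim β ht).eventually (gt_mem_nhds (lt_add_one _)),
      hl.top.eventually_gt_atTop 0] with n h3 h4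
    exact ((div_lt_iff₀ h4).1 h3).le

theorem MEst_alg {a Y F L t q e d η : ℝ} (ht : 0 < t) (hd : 0 < d) (he : 2 * e ≤ d)
    (he2 : (|F| + 1) * e ≤ η * d) (hη : 0 < η)
    (h1 : |q - a| ≤ e * t) (h2 : |L - Y| ≤ e * t) (h3 : d * t ≤ L) (h4 : a / Y ≤ F) :
    q ≤ (F + η) * L := by
  have h5 := abs_le.1 h2
  have h6 := mul_le_mul_of_nonneg_right he ht.le
  have h7 := mul_pos hd ht
  have hY : 0 < Y := by linarith only [h3, h5, h6, h7]
  rw [div_le_iff₀ hY] at h4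
  have h8 : F * (Y - L) ≤ |F| * (e * t) := by
    refine (le_abs_self _).trans ?_
    rw [abs_mul, abs_sub_comm]
    exact mul_le_mul_of_nonneg_left h2 (abs_nonneg F)
  have h9 := mul_le_mul_of_nonneg_right he2 ht.le
  have h10 := mul_le_mul_of_nonneg_left h3 hη.le
  have h11 := (abs_le.1 h1).2
  linarith

theorem Pinch.thick_le [Finite ι] (h : Pinch ρ α δ U y) (hρ : Good ρ N)
    (hl : MLimit ρ α δ U c y z ω A Y) (h1 : ∀ a, ω a ≤ F) (h2 : ∀ β, Th ρ α β → A β / Y β ≤ F)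
    {η : ℝ} (hη : 0 < η) : ∀ᶠ n in U, ∀ β, Simple ρ β → (∀ a, inter ρ β (α a) = 0) →
      tl ((z n).1 β) ≤ (F + η) * c n * tl ((y n).1 β) := by
  obtain ⟨d, hd, hphi⟩ := h.MEst_bddy.phi hρ h.duals.multi h.cover
  have hF : 0 < |F| + 1 := by positivity
  have he : 0 < min (d / 2) (η * d / (|F| + 1)) := lt_min (half_pos hd) (by positivity)
  have hz := (h.MEst_bddz hρ.toDisc hl).uni hρ h.duals.multi h.cover hl.zlim he
  have hy := h.MEst_bddy.uni hρ h.duals.multi h.cover (A := Y)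
    (fun β hβ => by simpa only [div_one] using hl.ylim β hβ) he
  have hn : ∀ᶠ n in U, ∀ a, nodeW (y n).1 (z n).1 (α a) (δ a) ≤ (F + η) * c n :=
    eventually_all.2 fun a => hl.MEst_node a (by linarith [h1 a])
  filter_upwards [hphi, hz, hy, hn, hl.top.eventually_gt_atTop 0] with n h3 h4 h5 h6 h7 β hβ h0
  rcases MEst_cases hρ.toDisc h.duals.multi hβ h0 with ⟨a, ha⟩ | ht
  · rw [tl_of_mem_cls ha, tl_of_mem_cls ha]
    exact MEst_node_tl (y n) (z n) (h.duals.multi.1 a).hyp (h6 a)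
  · have h8 := h5 β ht
    rw [div_one] at h8
    have h9 := MEst_alg hβ.hyp hd (by linarith only [min_le_left (d / 2) (η * d / (|F| + 1))])
      (by
        have := min_le_right (d / 2) (η * d / (|F| + 1))
        rwa [le_div_iff₀ hF, mul_comm] at this) hη (h4 β ht) h8 (h3 β ht) (h2 β ht)
    rw [div_le_iff₀ h7] at h9
    linarith

theorem MEst_shift {f : ℤ → ℝ} {p : ℕ} (h : f (0 + p) = f 0) :
    ∑ i ∈ Finset.range p, f (i + 1) = ∑ i ∈ Finset.range p, f i := by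
  have h1 := Finset.sum_range_succ (fun i : ℕ => f i) p
  have h2 := Finset.sum_range_succ' (fun i : ℕ => f i) p
  simp only [Nat.cast_add, Nat.cast_one, Nat.cast_zero] at h2
  rw [zero_add] at h
  linarith only [h, h1, h2]

theorem MEst_fin {p : ℕ} {t W L : ℤ → ℝ} {a b G c K1 K2 M η : ℝ} (hper : L (0 + p) = L 0)
    (ht : ∀ i, 0 ≤ t i) (hW : ∀ i, 0 ≤ W i) (hL : ∀ i, M ≤ L i) (hG : 0 ≤ G) (hc : 0 ≤ c)
    (hη : 0 < η) (hM : G * K1 + K2 ≤ η * (2 * M - K1))
    (h1 : ∑ i ∈ Finset.range p, (t i + W i + L i + L (i + 1) - K1) ≤ a)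
    (h2 : b ≤ ∑ i ∈ Finset.range p, c * (G * (t i + W i + 2 * L i) + K2)) :
    b ≤ (G + η) * c * a := by
  have e1 : ∑ i ∈ Finset.range p, (t i + W i + L i + L (i + 1) - K1) =
      ∑ i ∈ Finset.range p, (t i + W i + 2 * L i - K1) := by
    simp only [two_mul, Finset.sum_sub_distrib, Finset.sum_add_distrib, MEst_shift hper, add_assoc]
  rw [e1] at h1
  refine h2.trans (le_trans ?_ (mul_le_mul_of_nonneg_left h1 (mul_nonneg (by linarith) hc)))
  rw [Finset.mul_sum]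
  refine Finset.sum_le_sum fun i _ => ?_
  have h3 : 2 * M - K1 ≤ t i + W i + 2 * L i - K1 := by linarith [ht i, hW i, hL i]
  have h4 := mul_le_mul_of_nonneg_left h3 hη.le
  have h5 : G * (t i + W i + 2 * L i) + K2 ≤ (G + η) * (t i + W i + 2 * L i - K1) := by linarith
  have h6 := mul_le_mul_of_nonneg_left h5 hc
  linarith

theorem MEst_tw (x w : Rep ρ) {s d g : Γ} (hs : Hyp (ρ s)) (hd : Hyp (ρ d)) (hg : Hyp (ρ g))
    (h1 : Cross (ax (ρ s)) (ax (ρ d))) (h2 : Cross (ax (ρ s)) (ax (ρ g))) {K T L : ℝ}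
    (hK : 0 ≤ K) (h3 : tl (x.1 s) ≤ 1) (h4 : tl (w.1 s) ≤ K * tl (x.1 s))
    (h5 : |tw w.1 s d| ≤ K * (2 * L)) (h6 : |tw x.1 s d| ≤ T) :
    |tw w.1 s g| + tl (w.1 s) ≤ K * (|tw x.1 s g| + 2 * L + (T + 5)) := by
  have h7 := tw_le x w hs hd hg h1 h2
  have h8 := MEst_pos x hs
  have h9 : tl (w.1 s) ≤ K := h4.trans (mul_le_of_le_one_right hK h3)
  have h10 : tl (w.1 s) * ((|tw x.1 s g| + |tw x.1 s d|) / tl (x.1 s)) ≤
      K * (|tw x.1 s g| + T) := by
    have h11 : 0 ≤ (|tw x.1 s g| + |tw x.1 s d|) / tl (x.1 s) := by positivity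
    refine (mul_le_mul_of_nonneg_right h4 h11).trans ?_
    rw [mul_assoc, mul_div_cancel₀ _ h8.ne']
    exact mul_le_mul_of_nonneg_left (by linarith only [h6]) hK
  linarith only [h5, h7, h9, h10]

theorem Pinch.upper [Finite ι] (h : Pinch ρ α δ U y) (hρ : Good ρ N)
    (hl : MLimit ρ α δ U c y z ω A Y) (h1 : ∀ a, ω a ≤ F) (h2 : ∀ β, Th ρ α β → A β / Y β ≤ F)
    {η : ℝ} (hη : 0 < η) : ∀ᶠ n in U, ∀ μ, Simple ρ μ →
      tl ((z n).1 μ) ≤ (F + η) * c n * tl ((y n).1 μ) := by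
  have hO := osys_obj hρ h.duals.multi
  have hα := h.duals.multi.1
  obtain ⟨C, hC⟩ := exists_arc Γ
  obtain ⟨κ, hκ0, hκ⟩ := exists_le_tl
  obtain ⟨ε, hε, hs⟩ := hl.sys
  choose T0 hT0 using h.tw
  obtain ⟨T, hT⟩ := (finite_range T0).bddAbove
  have hη2 := half_pos hη
  set G := F + η / 2 with hG
  obtain ⟨M, hM0, hM1, hM2⟩ : ∃ M : ℝ, 0 < M ∧ 1 + C 1 ≤ 2 * M ∧
      G * (C 1 + κ) + (G * (T + 5) + |C ε|) ≤ η / 2 * (2 * M - (C 1 + κ)) := by
    refine ⟨max (max 1 (1 + C 1)) ((G * (C 1 + κ) + (G * (T + 5) + |C ε|) +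
      η / 2 * (C 1 + κ)) / η), ?_, ?_, ?_⟩
    · exact lt_max_of_lt_left (lt_max_of_lt_left one_pos)
    · have h3 := le_max_left (max 1 (1 + C 1)) ((G * (C 1 + κ) + (G * (T + 5) + |C ε|) +
        η / 2 * (C 1 + κ)) / η)
      linarith only [h3, le_max_left 1 (1 + C 1), le_max_right 1 (1 + C 1)]
    · have h3 := le_max_right (max 1 (1 + C 1)) ((G * (C 1 + κ) + (G * (T + 5) + |C ε|) +
        η / 2 * (C 1 + κ)) / η)
      rw [div_le_iff₀ hη] at h3
      linarith only [h3]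
  have e1 : ∀ᶠ n in U, ∀ a, nodeW (y n).1 (z n).1 (α a) (δ a) ≤ G * c n ∧
      tl ((y n).1 (α a)) ≤ 1 ∧ M ≤ log (1 / tl ((y n).1 (α a))) ∧
        |HRT.tw (y n).1 (α a) (δ a)| ≤ T :=
    eventually_all.2 fun a => (hl.MEst_node a (by linarith only [hη, hG, h1, h1 a])).and ((h.MEst_small a).and
      (((h.MEst_log a).eventually_ge_atTop M).and
        ((hT0 a).mono fun n hn => hn.trans (hT ⟨a, rfl⟩))))
  filter_upwards [e1, h.thick_le hρ hl h1 h2 hη2, hl.top.eventually_ge_atTop 1] with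
    n hn hth hc μ hμ
  have hc0 : 0 ≤ c n := zero_le_one.trans hc
  by_cases h0 : ∀ a, inter ρ μ (α a) = 0
  · refine (hth μ hμ h0).trans ?_
    exact mul_le_mul_of_nonneg_right (mul_le_mul_of_nonneg_right (by linarith only [hη]) hc0) (tl_nonneg _)
  obtain ⟨a₀, ha₀⟩ := not_forall.1 h0
  have hGc : 0 ≤ G * c n := (MEst_nodeW_nonneg _ _ _ _).trans (hn a₀).1
  have hG0 : 0 ≤ G := nonneg_of_mul_nonneg_left hGc (zero_lt_one.trans_le hc)
  obtain ⟨p, m, hx⟩ := hO.exists_seq hρ.toDisc hμ.hyp ⟨α a₀, MEst_mem a₀, (hα a₀).hyp, ha₀⟩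
  choose a ha using fun i => MEst_obj (hx.mem i) (hx.hyp i)
  have h3 := fun i : ℤ => hC ρ _ _ _ hO hρ.toDisc (hx.spair hO hρ.toDisc hμ i)
    (POs_hyp_inv (hx.hyp i)) (hx.hyp (i + 1))
  choose x1 x2 r hx1 hx2 hr0 hr1 hr using h3
  obtain ⟨f, hf⟩ := (y n).2
  obtain ⟨k, hk⟩ := (z n).2
  have ty := fun i => tl_of_mem_cls (ha i) (y n).1
  have tz := fun i => tl_of_mem_cls (ha i) (z n).1
  have hoff : ∀ x, Off2 ρ (Obj ρ α) x → tl ((z n).1 x) ≤ G * c n * tl ((y n).1 x) := by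
    rintro x (hp | ⟨h4, h5⟩)
    · rw [MEst_par (z n) hp, MEst_par (y n) hp, mul_zero]
    · exact hth x h4 fun b => h5 _ (MEst_mem b) (hα b).hyp
  have hW : ∀ i, 0 ≤ r i * max (tl ((y n).1 (x1 i))) (tl ((y n).1 (x2 i))) := fun i =>
    mul_nonneg (hr0 i) (le_max_of_le_left (tl_nonneg _))
  have hL : ∀ i, M ≤ log (1 / tl ((y n).1 (m i))) := fun i => by
    rw [ty]
    exact (hn (a i)).2.2.1
  have hsm : ∀ i, tl ((y n).1 (m i)) ≤ 1 := fun i => by
    rw [ty]
    exact (hn (a i)).2.1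
  have hld : ∀ i, r i * max (tl ((y n).1 (x1 i))) (tl ((y n).1 (x2 i))) +
      log (1 / tl ((y n).1 (m i))) + log (1 / tl ((y n).1 (m (i + 1)))) - C 1 ≤
        ldist (ax ((y n).1 (m i))) (ax ((y n).1 (m (i + 1)))) := fun i => by
    have t5 := (hr i (y n).1 f hf).2 (by rw [MEst_tl_inv]; exact hsm i) (hsm (i + 1))
    rw [MEst_ldist (y n) (hx.hyp i), MEst_tl_inv] at t5
    linarith only [t5, (abs_le.1 t5).1]
  have hlow := hκ _ p _ (hx.chain_mark hf) fun i => by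
    linarith only [hM1, hld, hW, hL, hld i, hW i, hL i, hL (i + 1)]
  have e2 : F + η = G + η / 2 := by rw [hG]; ring
  rw [e2]
  refine MEst_fin (p := p) (t := fun i => |HRT.tw (y n).1 (m i) μ|)
    (W := fun i => r i * max (tl ((y n).1 (x1 i))) (tl ((y n).1 (x2 i))))
    (L := fun i => log (1 / tl ((y n).1 (m i)))) ?_ (fun i => abs_nonneg _) hW hL hG0 hc0 hη2
    hM2 (le_trans (Finset.sum_le_sum fun i _ => ?_) hlow)
    ((hx.tl_le hO hρ.toDisc hk).trans (Finset.sum_le_sum fun i _ => ?_))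
  · show log (1 / tl ((y n).1 (m (0 + p)))) = log (1 / tl ((y n).1 (m 0)))
    rw [hx.per 0, tl_conj']
  · have := hld i
    unfold HRT.tw
    linarith only [this]
  · obtain ⟨u, hu1, hu2⟩ := MEst_node h.duals (ha i)
    have hLi : 0 < 2 * log (1 / tl ((y n).1 (α (a i)))) := by linarith only [hM0, hn, (hn (a i)).2.2.1]
    have s1 := MEst_tw (y n) (z n) (hx.hyp i) ((h.duals.simple (a i)).conj u).hyp hμ.hyp hu1
      (MEst_xcross hx i) (T := T) (L := log (1 / tl ((y n).1 (m i)))) hGc (hsm i)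
      (by
        rw [ty, tz]
        exact MEst_node_tl (y n) (z n) (hα _).hyp (hn (a i)).1)
      (by
        rw [hu2, ty]
        exact (div_le_iff₀ hLi).1 ((le_max_right _ _).trans (hn (a i)).1))
      (by
        rw [hu2]
        exact (hn (a i)).2.2.2)
    have s2 := (hr i (z n).1 k hk).1 ε hε
      (by rw [MEst_tl_inv, tz]; exact hs n _ (hα _)) (by rw [tz]; exact hs n _ (hα _))
    rw [MEst_ldist (z n) (hx.hyp i)] at s2
    have s3 : max (tl ((z n).1 (x1 i))) (tl ((z n).1 (x2 i))) ≤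
        G * c n * max (tl ((y n).1 (x1 i))) (tl ((y n).1 (x2 i))) :=
      max_le ((hoff _ (hx1 i)).trans (mul_le_mul_of_nonneg_left (le_max_left _ _) hGc))
        ((hoff _ (hx2 i)).trans (mul_le_mul_of_nonneg_left (le_max_right _ _) hGc))
    have s4 := mul_le_mul_of_nonneg_left s3 (hr0 i)
    have s5 : C ε ≤ c n * |C ε| := (le_abs_self _).trans (le_mul_of_one_le_left (abs_nonneg _) hc)
    unfold HRT.tw at s1 ⊢
    linarith only [s1, s2, s4, s5]

theorem Pinch.lower [Finite ι] (h : Pinch ρ α δ U y) (hρ : Good ρ N)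
    (hl : MLimit ρ α δ U c y z ω A Y) {v : ℝ}
    (hv : v ∈ range ω ∪ {v | ∃ β, Th ρ α β ∧ v = A β / Y β}) {η : ℝ} (hη : 0 < η) :
    ∀ᶠ n in U, (v - η) * c n ≤ exp (dTh (y n).cls (z n).cls) := by
  rcases hv with ⟨a, rfl⟩ | ⟨β, hβ, rfl⟩
  · have hα := h.duals.multi.1 a
    have hb : ∀ n g, Simple ρ g →
        tl ((z n).1 g) ≤ exp (dTh (y n).cls (z n).cls) * tl ((y n).1 g) := fun n g hg =>
      len_le_exp_dTh hρ ⟨_, hα⟩ (y n).cls (z n).cls hg
    rcases le_or_gt (ω a) η with hle | hlt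
    · filter_upwards [hl.top.eventually_ge_atTop 0] with n hn
      exact (mul_nonpos_of_nonpos_of_nonneg (by linarith) hn).trans (exp_pos _).le
    obtain ⟨ε, hε, hs⟩ := hl.sys
    have hω : 0 < ω a := hη.trans hlt
    have htop : Tendsto (fun n => exp (dTh (y n).cls (z n).cls)) U atTop := by
      have h1 : Tendsto (fun n => tl ((y n).1 (α a))) U (𝓝[>] 0) :=
        tendsto_nhdsWithin_iff.2 ⟨h.node a, Eventually.of_forall fun n => MEst_pos (y n) hα.hyp⟩
      refine tendsto_atTop_mono (fun n => ?_)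
        ((tendsto_inv_nhdsGT_zero.comp h1).const_mul_atTop hε)
      show ε * (tl ((y n).1 (α a)))⁻¹ ≤ _
      rw [← div_eq_mul_inv, div_le_iff₀ (MEst_pos (y n) hα.hyp)]
      exact (hs n _ hα).trans (hb n _ hα)
    have hη' : 0 < η / (2 * ω a) := by positivity
    filter_upwards [h.nodeW_le hρ htop ⟨ε, hε, hs⟩ (Eventually.of_forall hb) a hη',
      (hl.node a).eventually (lt_mem_nhds (show ω a - η / 2 < ω a by linarith only [hη])),
      hl.top.eventually_gt_atTop 0] with n h1 h2 h3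
    rw [lt_div_iff₀ h3] at h2
    refine le_of_mul_le_mul_left (le_trans ?_ (h2.le.trans h1)) (by linarith only [hη'])
    rw [← mul_assoc]
    refine mul_le_mul_of_nonneg_right ?_ h3.le
    have h4 : η / (2 * ω a) * ω a = η / 2 := by field_simp
    have h5 := mul_pos hη' hη
    linarith only [h4, h5]
  · obtain ⟨d, hd, hphi⟩ := h.MEst_bddy.phi hρ h.duals.multi h.cover
    have hY : 0 < Y β := (mul_pos hd hβ.1.hyp).trans_le
      (ge_of_tendsto (hl.ylim β hβ) (hphi.mono fun n hn => hn β hβ))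
    have h1 := (hl.zlim β hβ).div (hl.ylim β hβ) hY.ne'
    filter_upwards [h1.eventually (lt_mem_nhds (show A β / Y β - η < A β / Y β by linarith)),
      hl.top.eventually_gt_atTop 0] with n h2 h3
    have h4 := MEst_pos (y n) hβ.1.hyp
    have h5 : tl ((z n).1 β) ≤ exp (dTh (y n).cls (z n).cls) * tl ((y n).1 β) :=
      len_le_exp_dTh hρ ⟨_, hβ.1⟩ (y n).cls (z n).cls hβ.1
    have h6 : A β / Y β - η < tl ((z n).1 β) / c n / tl ((y n).1 β) := h2
    rw [lt_div_iff₀ h4, lt_div_iff₀ h3] at h6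
    refine le_of_mul_le_mul_right ?_ h4
    linarith only [h5, h6]

theorem Pinch.me [Finite ι] (h : Pinch ρ α δ U y) (hρ : Good ρ N) (hs : ∃ g, Simple ρ g)
    (hl : MLimit ρ α δ U c y z ω A Y)
    (hF : IsLUB (range ω ∪ {v | ∃ β, Th ρ α β ∧ v = A β / Y β}) F) :
    Tendsto (fun n => exp (dTh (y n).cls (z n).cls) / c n) U (𝓝 F) := by
  refine tendsto_order.2 ⟨fun b hb => ?_, fun b hb => ?_⟩
  · obtain ⟨v, hv, h1, -⟩ := hF.exists_between hb
    filter_upwards [h.lower hρ hl hv (half_pos (sub_pos.2 h1)), hl.top.eventually_gt_atTop 0] with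
      n h2 h3
    rw [lt_div_iff₀ h3]
    refine lt_of_lt_of_le (mul_lt_mul_of_pos_right (by linarith only [h1]) h3) h2
  · filter_upwards [h.upper hρ hl (fun a => hF.1 (Or.inl ⟨a, rfl⟩))
      (fun β hβ => hF.1 (Or.inr ⟨β, hβ, rfl⟩)) (half_pos (sub_pos.2 hb)),
      hl.top.eventually_gt_atTop 0] with n h2 h3
    rw [div_lt_iff₀ h3]
    exact (exp_dTh_le hρ hs (X := (y n).cls) (Y := (z n).cls) h2).trans_lt
      (mul_lt_mul_of_pos_right (by linarith) h3)

end HRT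
end

-- merged part: Pool.Agent.Work.MP_35beee_gt.GNotIm
section
/-!
A filling family of simple closed curves; the length function of a measured lamination does not
dominate all length functions.

Plan. `exists_cross_simple`: by `Cover`; if `l` shares exactly one end with the axis of `β`, take
`g` crossing that axis and conjugate it by a high power of `β` or `β⁻¹` (`Hyp.tendsto_pow`: both
endpoints tend to the common end, from the two sides). `exists_fill`: as in `Good.exists_arr`, by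
compactness of the simple lines in the core that meet a ball: every window of length `D` on the
axis of a simple curve contains a crossing with a lift of a member of `F`; count over `k` periods
(`inter_eq_ncard`, `inter_pow`). Twisting: `exists_twist_teich` for the single curve `η` gives
`L z ≤ L y + t * ∑ i, ic (lam i) η` (`tendsto_inter`, `inter_comm`).
`not_dominated`: with `lam` from `exists_ml` (`Rep.cls ⟨ρ, _⟩` gives the bound) let `t → ∞` to get
`inter g η ≤ C * len x g * ∑ i, ic (lam i) η` for all simple `g`, `η`; take `η = β n i` and use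
`eventually_ic_le`, `exists_fill`. If `κ` is empty then `L = 0`.
-/

namespace HRT

open Set Filter Topology Real MeasureTheory

variable {Γ : Type*} [Group Γ] {ρ : Γ →* Isom} {N : ℝ → ℝ}

/-- Every simple closed curve is crossed by another one. -/
def HasDual (ρ : Γ →* Isom) : Prop :=
  ∀ s, Simple ρ s → ∃ g, Simple ρ g ∧ Cross (ax (ρ s)) (ax (ρ g))

theorem GNotIm_src (hd : HasDual ρ) {c : Γ} (hc : Simple ρ c) {l : Geo}
    (hl : l.src = (ax (ρ c)).src) : ∃ g, Simple ρ g ∧ Cross l (ax (ρ g)) := by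
  obtain ⟨g, hg, hx⟩ := hd c hc
  have h1 : Tendsto (fun n : ℕ => ρ c ^ n • l) atTop (𝓝 (ax (ρ c))) := by
    refine Geo.tendsto_iff.2 ⟨?_, hc.hyp.tendsto_pow (hl ▸ l.ne.symm)⟩
    refine tendsto_const_nhds.congr fun n => ?_
    have := congrArg Geo.src (hc.hyp.zpow_smul_ax n)
    rw [Geo.src_smul, zpow_natCast] at this
    rw [Geo.src_smul, hl, this]
  have h2 : Continuous fun m : Geo => (m, ax (ρ g)) := by fun_prop
  obtain ⟨n, hn⟩ := (h1.eventually ((isOpen_cross.preimage h2).mem_nhds hx)).exists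
  refine ⟨(c ^ n)⁻¹ * g * (c ^ n)⁻¹⁻¹, hg.conj _, ?_⟩
  rw [ax_conj' hg.hyp, ← cross_smul (ρ c ^ n), map_inv, map_pow, smul_inv_smul]
  exact hn

theorem GNotIm_end (hd : HasDual ρ) {c : Γ} (hc : Simple ρ c) {l : Geo}
    (hl : side (ax (ρ c)) l.src.1 = 0) : ∃ g, Simple ρ g ∧ Cross l (ax (ρ g)) := by
  rcases (side_eq_zero_iff _ _).1 hl with h | h
  · exact GNotIm_src hd hc h
  · refine GNotIm_src hd hc.inv ?_
    rw [GSys_ax_inv hc.hyp, Geo.src_rev, h]

theorem exists_cross_simple (hc : Cover ρ (Empty.elim : Empty → Γ)) (hd : HasDual ρ) {l : Geo}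
    (hl : SimpleLine ρ l) (h1 : ¬ IsCusp ρ l.src) (h2 : ¬ IsCusp ρ l.tgt) :
    ∃ g, Simple ρ g ∧ Cross l (ax (ρ g)) := by
  obtain ⟨b, b1, -, b3⟩ := (((hc l hl fun m hm => hm.elim fun i _ => i.elim).resolve_left
    fun hm => hm.elim fun i _ => i.elim).resolve_left h1).resolve_left h2
  rcases b3 with b3 | ⟨b3 | b3, -⟩
  · exact ⟨b, b1, b3⟩
  · exact GNotIm_end hd b1 b3
  · obtain ⟨g, hg, hx⟩ := GNotIm_end hd b1 (l := l.rev) b3
    exact ⟨g, hg, cross_rev_left.1 hx⟩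

theorem GNotIm_cover {K : Set Geo} (hK : IsCompact K)
    (h : ∀ l ∈ K, ∃ g, Simple ρ g ∧ Cross l (ax (ρ g))) :
    ∃ (T : Finset Γ) (M : ℝ), (∀ f ∈ T, Simple ρ f) ∧
      ∀ l ∈ K, ∃ f ∈ T, Cross l (ax (ρ f)) ∧ |xp l (ax (ρ f))| ≤ M := by
  classical
  refine hK.induction_on (p := fun S => ∃ (T : Finset Γ) (M : ℝ), (∀ f ∈ T, Simple ρ f) ∧
      ∀ l ∈ S, ∃ f ∈ T, Cross l (ax (ρ f)) ∧ |xp l (ax (ρ f))| ≤ M) ?_ ?_ ?_ ?_
  · exact ⟨∅, 0, by simp, by simp⟩
  · rintro S S' hS ⟨T, M, h1, h2⟩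
    exact ⟨T, M, h1, fun l hl => h2 l (hS hl)⟩
  · rintro S S' ⟨T, M, h1, h2⟩ ⟨T', M', h3, h4⟩
    refine ⟨T ∪ T', max M M', fun f hf => (Finset.mem_union.1 hf).elim (h1 f) (h3 f), ?_⟩
    rintro l (hl | hl)
    · obtain ⟨f, hf, h5, h6⟩ := h2 l hl
      exact ⟨f, Finset.mem_union_left _ hf, h5, h6.trans (le_max_left _ _)⟩
    · obtain ⟨f, hf, h5, h6⟩ := h4 l hl
      exact ⟨f, Finset.mem_union_right _ hf, h5, h6.trans (le_max_right _ _)⟩
  · intro l hl
    obtain ⟨g, h1, h3⟩ := h l hl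
    have hc : Continuous fun m : Geo => (m, ax (ρ g)) := by fun_prop
    have e1 : ∀ᶠ m in 𝓝 l, Cross m (ax (ρ g)) := (isOpen_cross.preimage hc).mem_nhds h3
    have e2 : ContinuousAt (fun m : Geo => |xp m (ax (ρ g))|) l :=
      (ContinuousAt.comp (f := fun m : Geo => (m, ax (ρ g))) (continuousAt_xp h3)
        hc.continuousAt).abs
    have e3 : ∀ᶠ m in 𝓝 l, |xp m (ax (ρ g))| < |xp l (ax (ρ g))| + 1 :=
      e2.eventually (gt_mem_nhds (lt_add_one _))
    refine ⟨_, mem_nhdsWithin_of_mem_nhds (e1.and e3), {g}, |xp l (ax (ρ g))| + 1, ?_, ?_⟩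
    · intro f hf
      rw [Finset.mem_singleton.1 hf]
      exact h1
    · exact fun m hm => ⟨g, Finset.mem_singleton_self g, hm.1, hm.2.le⟩

theorem GNotIm_window (hρ : Good ρ N) (hc : Cover ρ (Empty.elim : Empty → Γ)) (hd : HasDual ρ) :
    ∃ (F : Finset Γ) (D : ℝ), 0 < D ∧ (∀ f ∈ F, Simple ρ f) ∧ ∀ g, Simple ρ g → ∀ t : ℝ,
      ∃ f ∈ F, (GInter_set ρ (ax (ρ g)) f t (t + D)).Nonempty := by
  obtain ⟨R, hR⟩ := hρ.exists_core_simple
  obtain ⟨T, M, hT, hM⟩ := GNotIm_cover (ρ := ρ) ((isCompact_lines o (sinh R)).inter_right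
    (isClosed_simpleLine.inter (hρ.toDisc.isClosed_inCore R))) fun l hl =>
      exists_cross_simple hc hd hl.2.1 (hρ.toDisc.not_cusp_of_inCore hl.2.2).1
        (hρ.toDisc.not_cusp_of_inCore hl.2.2).2
  refine ⟨T, 2 * (|M| + |R| + 1), by positivity, hT, fun s hs t => ?_⟩
  have hl := hs.line
  have hl' := hR s hs
  generalize ax (ρ s) = l at hl hl' ⊢
  obtain ⟨g, hg⟩ := hl' (t + (|M| + |R| + 1))
  have h1 : dist o (pt ((ρ g)⁻¹ • l) (t + (|M| + |R| + 1) + sh (ρ g)⁻¹ l)) ≤ R := by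
    rw [← smul_pt, ← dist_smul (ρ g), smul_inv_smul]
    exact hg
  obtain ⟨f, hf, h2, h3⟩ := hM ((ρ g)⁻¹ • l)
    ⟨GArr_side_le h1, map_inv ρ g ▸ hl.smul g⁻¹, map_inv ρ g ▸ hl'.smul g⁻¹⟩
  have h4 := (abs_fer_sub_le ((ρ g)⁻¹ • l) o _).trans h1
  rw [GArr_fer_o, fer_pt, zero_sub, abs_neg] at h4
  have h6 : Cross l (ρ g • ax (ρ f)) := by
    rw [← cross_smul (ρ g)⁻¹, inv_smul_smul]
    exact h2
  refine ⟨f, hf, ρ g • ax (ρ f), ⟨g, rfl⟩, h6, ?_⟩
  have h7 := xp_smul (ρ g)⁻¹ h6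
  rw [inv_smul_smul] at h7
  have h8 := abs_le.1 (h3.trans (le_abs_self M))
  have h9 := abs_le.1 (h4.trans (le_abs_self R))
  constructor <;> linarith only [h7, h8, h9, h8.1, h8.2, h9.1, h9.2]

theorem GNotIm_count (hρ : Disc ρ) {F : Finset Γ} {D : ℝ} (hD : 0 < D) (hF : ∀ f ∈ F, Simple ρ f)
    {A : Geo} (h : ∀ t : ℝ, ∃ f ∈ F, (GInter_set ρ A f t (t + D)).Nonempty) (j : ℕ) :
    j ≤ ∑ f ∈ F, (GInter_set ρ A f 0 (j * D)).ncard := by
  induction j with
  | zero => exact Nat.zero_le _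
  | succ j ih =>
    have hsub : ∀ f, GInter_set ρ A f 0 (j * D) ⊆ GInter_set ρ A f 0 ((j + 1 : ℕ) * D) :=
      fun f l hl => ⟨hl.1, hl.2.1, hl.2.2.1, hl.2.2.2.trans_le (by push_cast; linarith only [hD])⟩
    obtain ⟨f, hf, l, h1, h2, h3, h4⟩ := h (j * D)
    refine Nat.succ_le_of_lt (ih.trans_lt (Finset.sum_lt_sum (fun f hf =>
      ncard_le_ncard (hsub f) (GInter_finite hρ A (hF f hf).hyp _ _)) ⟨f, hf, ?_⟩))
    refine ncard_lt_ncard ((ssubset_iff_of_subset (hsub f)).2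
      ⟨l, ⟨h1, h2, le_trans (by positivity) h3, h4.trans_le (by push_cast; linarith only [])⟩,
        fun hl => absurd hl.2.2.2 (not_lt.2 h3)⟩) (GInter_finite hρ A (hF f hf).hyp _ _)

theorem exists_fill (hρ : Good ρ N) (hc : Cover ρ (Empty.elim : Empty → Γ)) (hd : HasDual ρ) :
    ∃ (F : Finset Γ) (D : ℝ), 0 < D ∧ (∀ f ∈ F, Simple ρ f) ∧
      ∀ g, Simple ρ g → tl (ρ g) ≤ D * ∑ f ∈ F, (inter ρ f g : ℝ) := by
  obtain ⟨F, D, hD, hF, H⟩ := GNotIm_window hρ hc hd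
  refine ⟨F, 2 * D, by positivity, hF, fun g hg => ?_⟩
  have hcomm : ∀ f ∈ F, inter ρ f g = inter ρ g f := fun f hf =>
    hρ.toDisc.inter_comm (hF f hf).hyp (hF f hf).prim hg.hyp hg.prim
  have h1 : 1 ≤ ∑ f ∈ F, inter ρ f g := by
    obtain ⟨f, hf, l, ⟨k, rfl⟩, hx, -⟩ := H g hg 0
    refine le_trans (Nat.pos_of_ne_zero fun h0 => ?_)
      (Finset.single_le_sum (f := fun f => inter ρ f g) (fun _ _ => Nat.zero_le _) hf)
    rw [hcomm f hf, hρ.toDisc.inter_eq_zero_iff hg.hyp (hF f hf).hyp (hF f hf).prim] at h0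
    exact h0 k hx
  have h2 : ⌊tl (ρ g) / D⌋₊ ≤ ∑ f ∈ F, inter ρ f g := by
    refine (GNotIm_count hρ.toDisc hD hF (H g hg) _).trans (Finset.sum_le_sum fun f hf => ?_)
    rw [hcomm f hf, hρ.toDisc.inter_eq_ncard hg.hyp (hF f hf).hyp (hF f hf).prim 0]
    refine ncard_le_ncard (fun l hl => ⟨hl.1, hl.2.1, hl.2.2.1, hl.2.2.2.trans_le ?_⟩)
      (hρ.toDisc.finite_xset (hF f hf).hyp 0)
    rw [zero_add, ← le_div_iff₀ hD]
    exact Nat.floor_le (div_nonneg (tl_nonneg _) hD.le)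
  have h3 := (div_lt_iff₀ hD).1 (Nat.lt_floor_add_one (tl (ρ g) / D))
  rw [← Nat.cast_sum]
  have h4 : (1 : ℝ) ≤ (∑ f ∈ F, inter ρ f g : ℕ) := by exact_mod_cast h1
  have h5 : (⌊tl (ρ g) / D⌋₊ : ℝ) ≤ (∑ f ∈ F, inter ρ f g : ℕ) := by exact_mod_cast h2
  linarith only [h3, hD, h4, h5, mul_nonneg_of_nonpos_of_nonpos (le_of_lt (Mathlib.Tactic.Linarith.sub_neg_of_lt hD)) (Mathlib.Tactic.Linarith.sub_nonpos_of_le h4), mul_nonneg_of_nonpos_of_nonpos (le_of_lt (Mathlib.Tactic.Linarith.sub_neg_of_lt hD)) (Mathlib.Tactic.Linarith.sub_nonpos_of_le h5)]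

variable {I κ : Type} [Fintype κ] {U : Ultrafilter I} {β : I → κ → Γ} {w : I → κ → NNReal}

theorem GNotIm_slope {a b c d : ℝ} (h : ∀ t : ℝ, 0 ≤ t → t * a ≤ b + t * c + d) : a ≤ c := by
  by_contra! hlt
  have h0 : 0 < a - c := sub_pos.2 hlt
  have h1 := h ((|b + d| + 1) / (a - c)) (by positivity)
  have h2 := div_mul_cancel₀ (|b + d| + 1) h0.ne'
  linarith only [h1, h2, le_abs_self (b + d)]

theorem GNotIm_twist (hρ : Good ρ N) (hβ : ∀ n, Multi ρ (β n)) {L : Teich ρ → ℝ}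
    (hL : ∀ z, Tendsto (fun n => ∑ i, (w n i : ℝ) * len z (β n i)) U (𝓝 (L z)))
    {lam : κ → Measure Geo} (h1 : ∀ i, Cur ρ (lam i))
    (h2 : ∀ i, IsULim U (fun n => w n i • cnt ρ (β n i)) univ (lam i)) {η : Γ} (hη : Simple ρ η)
    {y z : Teich ρ} {t : ℝ} (hz : ∀ g, Hyp (ρ g) → len z g ≤ len y g + t * inter ρ g η) :
    L z ≤ L y + t * ∑ i, ic (lam i) (ρ η) := by
  refine le_of_tendsto_of_tendsto' (hL z) ((hL y).add ((tendsto_finsetSum _ fun i _ =>
    tendsto_inter hρ (fun n => (hβ n).1 i) (h1 i) (h2 i) hη.hyp).const_mul t)) fun n => ?_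
  rw [Finset.mul_sum, ← Finset.sum_add_distrib]
  refine Finset.sum_le_sum fun i _ => ?_
  have hs := (hβ n).1 i
  have := mul_le_mul_of_nonneg_left (hz _ hs.hyp) (w n i).coe_nonneg
  rw [hρ.toDisc.inter_comm hs.hyp hs.prim hη.hyp hη.prim] at this
  linarith

theorem not_dominated (hρ : Good ρ N) (hs : ∃ g, Simple ρ g)
    (hc : Cover ρ (Empty.elim : Empty → Γ)) (hd : HasDual ρ) (hβ : ∀ n, Multi ρ (β n))
    {L : Teich ρ → ℝ} (hL : ∀ z, Tendsto (fun n => ∑ i, (w n i : ℝ) * len z (β n i)) U (𝓝 (L z)))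
    (x : Teich ρ) (C : ℝ) : ¬ ∀ z g, Simple ρ g → len z g ≤ C * len x g * L z := by
  intro H
  let y : Teich ρ := Rep.cls ⟨ρ, _, IsMark.refl ρ⟩
  have hnn : ∀ z n i, 0 ≤ (w n i : ℝ) * len z (β n i) := fun z n i =>
    mul_nonneg (w n i).coe_nonneg (len_pos z ((hβ n).1 i).hyp).le
  obtain ⟨s, hs⟩ := hs
  have h0 := (len_pos x hs.hyp).trans_le (H x s hs)
  have hL0 : 0 ≤ L x :=
    ge_of_tendsto' (hL x) fun n => Finset.sum_nonneg fun i _ => hnn x n i
  have hC : 0 < C := by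
    by_contra! hC
    exact absurd h0 (not_lt.2 (mul_nonpos_of_nonpos_of_nonneg
      (mul_nonpos_of_nonpos_of_nonneg hC (len_pos x hs.hyp).le) hL0))
  rcases isEmpty_or_nonempty κ with hκ | ⟨⟨i₀⟩⟩
  · have := hL x
    simp only [Finset.univ_eq_empty, Finset.sum_empty] at this
    rw [tendsto_nhds_unique this tendsto_const_nhds, mul_zero] at h0
    exact lt_irrefl _ h0
  have hex := exists_ml (U := U) (w := w) hρ hβ fun i => ⟨L y + 1, by
    filter_upwards [(hL y).eventually_le_const (lt_add_one _)] with n hn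
    exact (Finset.single_le_sum (fun i _ => hnn y n i) (Finset.mem_univ i)).trans hn⟩
  obtain ⟨lam, hlam⟩ := hex
  have key : ∀ g η, Simple ρ g → Simple ρ η →
      (inter ρ g η : ℝ) ≤ C * len x g * ∑ i, ic (lam i) (ρ η) := by
    intro g η hg hη
    obtain ⟨E, -, hE⟩ := hρ.toDisc.exists_twist_teich (multi_single hη) y
    refine GNotIm_slope (b := C * len x g * L y) (d := E * len y g) fun t ht => ?_
    obtain ⟨z, hz⟩ := hE fun _ => t
    simp only [Finset.univ_unique, Finset.sum_singleton, abs_of_nonneg ht] at hz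
    have h1 := GNotIm_twist hρ hβ hL (fun i => (hlam i).1) (fun i => (hlam i).2.1) hη
      fun g hg => (hz g hg).1
    have h2 := mul_le_mul_of_nonneg_left h1 (mul_pos hC (len_pos x hg.hyp)).le
    linarith [(hz g hg.hyp).2, H z g hg]
  obtain ⟨F, D, hD, hF, hfill⟩ := exists_fill hρ hc hd
  obtain ⟨K, hK⟩ : ∃ K, K = D * ∑ f ∈ F, C * len x f := ⟨_, rfl⟩
  have hK0 : 0 ≤ K := hK ▸ mul_nonneg hD.le
    (Finset.sum_nonneg fun f hf => (mul_pos hC (len_pos x (hF f hf).hyp)).le)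
  have hν : Cur ρ (∑ i, lam i) := Cur.finsetSum _ fun i _ => (hlam i).1
  obtain ⟨n, hn⟩ := (eventually_ic_le (U := U) hρ hβ hν (ε := (K + 1)⁻¹) (by
    rw [Measure.finsetSum_apply]
    exact Finset.sum_eq_zero fun i _ => (hlam i).2.2) (by positivity)).exists
  have hη := (hβ n).1 i₀
  have h1 := hn i₀
  rw [ic_finsetSum _ fun i _ => (hlam i).1] at h1
  have h2 : tl (ρ (β n i₀)) ≤ K * ∑ i, ic (lam i) (ρ (β n i₀)) := by
    refine (hfill _ hη).trans ?_
    rw [hK, mul_assoc, Finset.sum_mul]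
    exact mul_le_mul_of_nonneg_left (Finset.sum_le_sum fun f hf => key f _ (hF f hf) hη) hD.le
  have h3 : 0 < tl (ρ (β n i₀)) := hη.hyp
  have h4 := h2.trans (mul_le_mul_of_nonneg_left h1 hK0)
  rw [← mul_assoc, le_mul_iff_one_le_left h3, ← div_eq_mul_inv, one_le_div (by positivity)] at h4
  linarith

end HRT
end

-- merged part: Pool.Agent.Work.MP_35beee_gt.PCover
section
/-!
Simple lines in the complement of a multicurve.

Plan. Extend the multicurve to a pants decomposition. If `l` crosses an object take it as `β`.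
Otherwise `line_end` gives an object `m` with a common end: a cusp, or a hyperbolic object; if `l`
is its axis up to orientation then `l` is a lift of `α` or `exists_dual` gives `β`.
-/

namespace HRT

open Set Filter Topology Real

variable {Γ : Type*} [Group Γ] {ρ : Γ →* Isom} {N : ℝ → ℝ}

theorem Good.hasDual (hρ : Good ρ N) : HasDual ρ := by
  intro s hs
  have hm : Multi ρ fun _ : Unit => s :=
    ⟨fun _ => hs, fun i j h => absurd (Subsingleton.elim i j) h⟩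
  obtain ⟨n, nx, E, h, hE⟩ := hρ.exists_pants hm
  obtain ⟨δ, h1, h2, -⟩ := h.exists_dual hρ (hE ()) hs.hyp
  exact ⟨δ, h1, h2⟩

theorem PCover_cusp {m : Γ} (hm : Par (ρ m)) {ξ : Circ} (h : B (qv (ρ m)) ξ.1 = 0) :
    IsCusp ρ ξ := by
  refine ⟨m, hm, ?_⟩
  rcases (hm.1.B_qv_eq_zero_iff ξ).1 h with h | h
  · rw [h, hm.lo_eq]
  · rw [h, hm.hi_eq]

theorem PCover_side {g : Isom} (hg : Hyp g) {v : V} (h : B (qv g) v = 0) : side (ax g) v = 0 := by
  rw [PObj_hyp hg] at h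
  exact (mul_eq_zero.1 h).resolve_left hg.qsh_pos.ne'

theorem Good.cover (hρ : Good ρ N) {ι : Type} [Finite ι] {α : ι → Γ} (hα : Multi ρ α) :
    Cover ρ α := by
  intro l hl _
  obtain ⟨n, nx, E, h, hE⟩ := hρ.exists_pants hα
  have hO := h.sys
  have key : ∀ m ∈ objs E, Hyp (ρ m) → Simple ρ m ∧ ∀ a, inter ρ m (α a) = 0 := by
    intro m hm hh
    refine ⟨hO.simple hρ.toDisc hm hh, fun a => ?_⟩
    refine (hρ.toDisc.inter_eq_zero_iff hh (hα.1 a).hyp (hα.1 a).prim).2 fun k => ?_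
    rw [← ax_conj' (hα.1 a).hyp]
    exact hO.nc m hm _ (hO.conj _ (hE a) k) hh ((hα.1 a).conj k).hyp
  by_cases hx : ∃ m ∈ objs E, Hyp (ρ m) ∧ Cross l (ax (ρ m))
  · obtain ⟨m, hm, hh, hc⟩ := hx
    exact Or.inr (Or.inr (Or.inr ⟨m, (key m hm hh).1, (key m hm hh).2, Or.inl hc⟩))
  obtain ⟨m, hm, he⟩ := h.line_end hρ.toDisc hl fun m hm hh hc => hx ⟨m, hm, hh, hc⟩
  rcases (hO.noFix hm).hyp_or_par with hh | hp
  swap
  · rcases he with he | he
    · exact Or.inr (Or.inl (PCover_cusp hp he))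
    · exact Or.inr (Or.inr (Or.inl (PCover_cusp hp he)))
  by_cases hax : l = ax (ρ m) ∨ l = (ax (ρ m)).rev
  · by_cases ha : ∃ a, α a ∈ cls ρ m
    · obtain ⟨a, ha⟩ := ha
      have h1 : m ∈ cls ρ (α a) := by
        rw [cls_eq ha]
        exact mem_cls_self m
      obtain ⟨g, hg⟩ := POs_ax (hα.1 a).hyp h1
      refine Or.inl ⟨a, g, ?_⟩
      rcases hax with rfl | rfl
      · exact hg
      · rcases hg with hg | hg
        · exact Or.inr (by rw [hg])
        · exact Or.inl (by rw [hg, Geo.rev_rev])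
    · obtain ⟨δ, h1, h2, h3⟩ := h.exists_dual hρ hm hh
      refine Or.inr (Or.inr (Or.inr ⟨δ, h1,
        fun a => h3 _ (hE a) (fun hc => ha ⟨a, hc⟩) (hα.1 a).hyp, Or.inl ?_⟩))
      rcases hax with rfl | rfl
      · exact h2
      · exact cross_rev_left.2 h2
  · exact Or.inr (Or.inr (Or.inr ⟨m, (key m hm hh).1, (key m hm hh).2,
      Or.inr ⟨he.imp (PCover_side hh) (PCover_side hh), not_or.1 hax⟩⟩))

end HRT
end

-- merged part: Pool.Agent.Work.MP_35beee_gt.MNot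
section
/-!
The explicit functions are not in the image of Teichmueller space.

Plan. Suppose `psi b x z = log (F z / F b)` for all `z`. There is `C` with
`F z ≤ C * ∑ i, w i z` for all `z`: if `w (inr j)` is not the zero function then it is positive
somewhere, say at `z₀`, all terms are nonnegative, so `η j β / y β ≤ F z₀ / w (inr j) z₀`. If `F z = 0`
for some `z` then `F b = 0`, because `w i b ≤ exp (dTh z b) * w i z` (closed condition,
`len_le_exp_dTh`). So `len z g ≤ exp (dTh x z) * len x g = C' * len x g * F z`. A point of a closure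
is the limit of an ultrafilter (`mem_closure_iff_ultrafilter`); choose the multicurve and the
weights for each point of the set; `not_dominated`.
-/

namespace HRT

open Set Filter Topology Real

variable {Γ : Type} [Group Γ] {ρ : Γ →* Isom} {N : ℝ → ℝ}

theorem MNot_wt (hρ : Good ρ N) (hs : ∃ g, Simple ρ g) {ι : Type} {w : ι → Teich ρ → ℝ}
    (hw : w ∈ WT ρ ι) (i : ι) (z u : Teich ρ) : 0 ≤ w i z ∧ w i u ≤ exp (dTh z u) * w i z := by
  have hc : ∀ a, Continuous fun v : ι → Teich ρ → ℝ => v i a := fun a =>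
    (continuous_apply a).comp (continuous_apply i)
  have hcl : IsClosed {v : ι → Teich ρ → ℝ | 0 ≤ v i z ∧ v i u ≤ exp (dTh z u) * v i z} :=
    (isClosed_le continuous_const (hc z)).inter (isClosed_le (hc u) (continuous_const.mul (hc z)))
  refine closure_minimal ?_ hcl hw
  rintro _ ⟨R, s, hR, h0, rfl⟩
  refine ⟨mul_nonneg (h0 i) (len_pos z (hR.1 i).hyp).le, ?_⟩
  have := mul_le_mul_of_nonneg_left (len_le_exp_dTh hρ hs z u (hR.1 i)) (h0 i)
  show s i * len u (R i) ≤ exp (dTh z u) * (s i * len z (R i))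
  linarith

theorem MNot_et {y : SC ρ → ENNReal} {κ : Type} {η : κ → SC ρ → ℝ} (hη : η ∈ ET y κ) (j : κ)
    (β : SC ρ) : 0 ≤ η j β := by
  have hcl : IsClosed {v : κ → SC ρ → ℝ | 0 ≤ v j β} :=
    isClosed_le continuous_const ((continuous_apply β).comp (continuous_apply j))
  refine closure_minimal ?_ hcl hη
  rintro _ ⟨q, s, -, -, h0, rfl⟩
  exact mul_nonneg (h0 j) (Nat.cast_nonneg _)

theorem MNot_ultra {ι : Type} [Fintype ι] {w : ι → Teich ρ → ℝ} (hw : w ∈ WT ρ ι) :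
    ∃ (U : Ultrafilter (ι → Teich ρ → ℝ)) (β : (ι → Teich ρ → ℝ) → ι → Γ)
      (s : (ι → Teich ρ → ℝ) → ι → NNReal), (∀ n, Multi ρ (β n)) ∧
        ∀ z, Tendsto (fun n => ∑ i, (s n i : ℝ) * len z (β n i)) U (𝓝 (∑ i, w i z)) := by
  obtain ⟨U, hU, hUw⟩ := mem_closure_iff_ultrafilter.1 hw
  obtain ⟨_, R₀, -, hR₀, -⟩ := Ultrafilter.nonempty_of_mem hU
  have hz : ∀ v : ι → Teich ρ → ℝ, ∃ (R : ι → Γ) (s : ι → NNReal), Multi ρ R ∧
      (v ∈ {w : ι → Teich ρ → ℝ | ∃ (R : ι → Γ) (s : ι → ℝ), Multi ρ R ∧ (∀ i, 0 ≤ s i) ∧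
        w = fun i z => s i * len z (R i)} → ∀ i z, v i z = s i * len z (R i)) := by
    intro v
    by_cases hv : v ∈ {w : ι → Teich ρ → ℝ | ∃ (R : ι → Γ) (s : ι → ℝ), Multi ρ R ∧
        (∀ i, 0 ≤ s i) ∧ w = fun i z => s i * len z (R i)}
    · obtain ⟨R, s, hR, h0, rfl⟩ := hv
      exact ⟨R, fun i => ⟨s i, h0 i⟩, hR, fun _ _ _ => rfl⟩
    · exact ⟨R₀, 0, hR₀, fun h' => absurd h' hv⟩
  choose β s hβ hs using hz
  refine ⟨U, β, s, hβ, fun z => tendsto_finsetSum _ fun i _ => ?_⟩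
  have h1 : Tendsto (fun v : ι → Teich ρ → ℝ => v i z) U (𝓝 (w i z)) :=
    (((continuous_apply z).comp (continuous_apply i)).tendsto w).mono_left hUw
  exact h1.congr' (mem_of_superset hU fun v hv => hs v hv i z)

section
variable {y : SC ρ → ENNReal} {m r : ℕ} {w : Fin m ⊕ Fin r → Teich ρ → ℝ}
  {η : Fin r → SC ρ → ℝ} {F : Teich ρ → ℝ}

theorem MNot_comp (h1 : ∀ j β, 0 ≤ η j β) (hF : ∀ z, IsLUB (vals y w η z) (F z)) {z u : Teich ρ}
    {e : ℝ} (he : 0 ≤ e) (h : ∀ i, w i u ≤ e * w i z) : F u ≤ e * F z := by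
  refine (hF u).2 ?_
  rintro v (⟨a, rfl⟩ | ⟨β, h2, h3, rfl⟩)
  · exact (h _).trans (mul_le_mul_of_nonneg_left ((hF z).1 (Or.inl ⟨a, rfl⟩)) he)
  · refine le_trans ?_ (mul_le_mul_of_nonneg_left ((hF z).1 (Or.inr ⟨β, h2, h3, rfl⟩)) he)
    rw [← mul_div_assoc, Finset.mul_sum]
    refine div_le_div_of_nonneg_right (Finset.sum_le_sum fun j _ => ?_) ENNReal.toReal_nonneg
    rw [← mul_assoc]
    exact mul_le_mul_of_nonneg_right (h _) (h1 j β)

theorem MNot_bound (h0 : ∀ i z, 0 ≤ w i z) (h1 : ∀ j β, 0 ≤ η j β)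
    (hF : ∀ z, IsLUB (vals y w η z) (F z)) : ∃ C : ℝ, ∀ z, F z ≤ C * ∑ i, w i z := by
  have hc : ∀ j, ∃ c : ℝ, 0 ≤ c ∧ ∀ z β, 0 < y β → y β < ⊤ →
      w (Sum.inr j) z * η j β / (y β).toReal ≤ c * w (Sum.inr j) z := by
    intro j
    by_cases hj : ∃ z₀, 0 < w (Sum.inr j) z₀
    · obtain ⟨z₀, hz₀⟩ := hj
      refine ⟨|F z₀| / w (Sum.inr j) z₀, div_nonneg (abs_nonneg _) hz₀.le, fun z β h2 h3 => ?_⟩
      have h4 : w (Sum.inr j) z₀ * η j β / (y β).toReal ≤ |F z₀| := by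
        refine le_trans ?_ (((hF z₀).1 (Or.inr ⟨β, h2, h3, rfl⟩)).trans (le_abs_self _))
        exact div_le_div_of_nonneg_right (Finset.single_le_sum
          (f := fun j => w (Sum.inr j) z₀ * η j β) (fun j _ => mul_nonneg (h0 _ _) (h1 _ _))
          (Finset.mem_univ j)) ENNReal.toReal_nonneg
      rw [mul_div_assoc] at h4 ⊢
      rw [mul_comm]
      refine mul_le_mul_of_nonneg_right ?_ (h0 _ _)
      rw [le_div_iff₀ hz₀, mul_comm]
      exact h4
    · refine ⟨0, le_rfl, fun z β _ _ => ?_⟩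
      have : w (Sum.inr j) z = 0 := le_antisymm (not_lt.1 fun h => hj ⟨z, h⟩) (h0 _ _)
      simp [this]
  choose c hc0 hc using hc
  have hS : 0 ≤ ∑ j, c j := Finset.sum_nonneg fun j _ => hc0 j
  refine ⟨1 + ∑ j, c j, fun z => (hF z).2 ?_⟩
  have hW : 0 ≤ ∑ i, w i z := Finset.sum_nonneg fun i _ => h0 i z
  have hi : ∀ i, w i z ≤ ∑ i, w i z := fun i =>
    Finset.single_le_sum (f := fun i => w i z) (fun i _ => h0 i z) (Finset.mem_univ i)
  rintro v (⟨a, rfl⟩ | ⟨β, h2, h3, rfl⟩)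
  · have := mul_nonneg hS hW
    have h5 := hi (Sum.inl a)
    show w (Sum.inl a) z ≤ _
    linarith
  · have h5 : (∑ j, w (Sum.inr j) z * η j β) / (y β).toReal ≤ (∑ j, c j) * ∑ i, w i z := by
      rw [Finset.sum_div, Finset.sum_mul]
      exact Finset.sum_le_sum fun j _ =>
        (hc j z β h2 h3).trans (mul_le_mul_of_nonneg_left (hi _) (hc0 j))
    linarith only [hW, h5]

end

theorem not_expl (hρ : Good ρ N) (hs : ∃ g, Simple ρ g) (hc : Cover ρ (Empty.elim : Empty → Γ))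
    (hd : HasDual ρ) (b x : Teich ρ) : ¬ Expl b (psi b x) := by
  rintro ⟨y, -, m, r, α, -, -, w, hw, η, hη, F, hF, hb, hh⟩
  have h1 := MNot_et hη
  obtain ⟨C, hC⟩ := MNot_bound (fun i z => (MNot_wt hρ hs hw i z z).1) h1 hF
  obtain ⟨U, β, s, hβ, hL⟩ := MNot_ultra hw
  refine not_dominated hρ hs hc hd hβ hL x (exp (dTh x b) / F b * C) fun z g hg => ?_
  have h2 : 0 < F z := by
    have := MNot_comp h1 hF (exp_pos (dTh z b)).le fun i => (MNot_wt hρ hs hw i z b).2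
    exact (mul_pos_iff_of_pos_left (exp_pos _)).1 (hb.trans_le this)
  have h3 : exp (dTh x z) = exp (dTh x b) / F b * F z := by
    have h4 : dTh x z = dTh x b + log (F z / F b) := by
      rw [← hh z, psi]
      ring
    rw [h4, exp_add, exp_log (div_pos h2 hb)]
    ring
  have h5 := len_le_exp_dTh hρ hs x z hg
  have h6 := mul_le_mul_of_nonneg_left (hC z)
    (mul_pos (div_pos (exp_pos (dTh x b)) hb) (len_pos x hg.hyp)).le
  rw [h3] at h5
  linarith only [h5, h6]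

end HRT
end

-- merged part: Pool.Agent.Work.MP_35beee_gt.MAug
section
/-!
Points of the augmented space, their nodes; invariance of the metric under mapping classes.

Plan. `dTh_act`: the sets of ratios agree (`IsMod.simple_iff`). `top_of_cross`: collar lemma
`inter_mul_colW_le`, `log_le_colW` along an ultrafilter that converges to `y`
(`mem_closure_iff_ultrafilter`). `exists_nodes`: among the multicurves `Sum.elim α α'` with
`y = 0` on all components take one with the largest number of components (`exists_multi_bound`);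
a curve with `y = 0` crosses none of them, so by maximality its axis is a lift (`multi_iff`,
`inter_eq_zero_iff`). `y` is invariant under conjugation and inversion (closed condition), and a
simple element whose axis is a lift is conjugate to a component or its inverse (`mem_lifts_iff`,
`eq_of_ax_eq`). `Pinch.exists_aug`: ultralimits in `ENNReal`; `Bdd.phi` for positivity.
`wt_le`: closed condition, `len_le_exp_dTh`.
-/

namespace HRT

open Set Filter Topology Real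

variable {Γ : Type} [Group Γ] {ρ : Γ →* Isom} {N : ℝ → ℝ}

theorem dTh_act (x z : Rep ρ) {φ : Γ ≃* Γ} (h : IsMod ρ φ) :
    dTh (x.act h).cls (z.act h).cls = dTh x.cls z.cls := by
  unfold dTh
  congr 2
  ext r
  constructor
  · rintro ⟨g, hg, rfl⟩
    exact ⟨φ g, (h.simple_iff g).2 hg, rfl⟩
  · rintro ⟨g, hg, rfl⟩
    obtain ⟨g, rfl⟩ := φ.surjective g
    exact ⟨g, (h.simple_iff g).1 hg, rfl⟩

/-- `ν` lists the nodes of `y`. -/
structure Nodes (ρ : Γ →* Isom) (y : SC ρ → ENNReal) {ι : Type} (ν : ι → Γ) : Prop where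
  multi : Multi ρ ν
  zero : ∀ a, y ⟨ν a, multi.1 a⟩ = 0
  fin : ∀ β : SC ρ, (∀ a, inter ρ β.1 (ν a) = 0) → y β < ⊤
  th : ∀ β : SC ρ, Th ρ ν β.1 ↔ 0 < y β ∧ y β < ⊤

theorem MAug_closed {y : SC ρ → ENNReal} (hy : y ∈ Aug ρ) {S : Set (SC ρ → ENNReal)}
    (hS : IsClosed S) (h : ∀ x : Rep ρ, (fun β : SC ρ => ENNReal.ofReal (tl (x.1 β.1))) ∈ S) :
    y ∈ S := by
  refine closure_minimal ?_ hS hy.1
  rintro _ ⟨x, rfl⟩
  obtain ⟨x, rfl⟩ := cls_surjective x
  exact h x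

theorem MAug_conj {y : SC ρ → ENNReal} (hy : y ∈ Aug ρ) {a c : SC ρ}
    (h : IsConj a.1 c.1 ∨ IsConj a.1⁻¹ c.1) : y c = y a :=
  MAug_closed hy (S := {v | v c = v a}) (isClosed_eq (continuous_apply c) (continuous_apply a))
    fun _ => congrArg ENNReal.ofReal (GSys_tl h)

theorem MAug_lift (hρ : Disc ρ) {ι : Type} {ν : ι → Γ} (hν : Multi ρ ν) {β : Γ} (hβ : Simple ρ β)
    (h : ax (ρ β) ∈ lifts ρ ν) : ∃ a, IsConj (ν a) β ∨ IsConj (ν a)⁻¹ β := by
  obtain ⟨a, d, h1, h2⟩ := (mem_lifts_iff (fun i => (hν.1 i).hyp)).1 h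
  have h3 : Simple ρ d := by
    rcases h1 with h1 | h1
    · obtain ⟨g, rfl⟩ := isConj_iff.1 h1
      exact (hν.1 a).conj g
    · obtain ⟨g, rfl⟩ := isConj_iff.1 h1
      exact (hν.1 a).inv.conj g
  exact ⟨a, hρ.eq_of_ax_eq h3.hyp h3.prim hβ.hyp hβ.prim h2 ▸ h1⟩

theorem MAug_inter {a c : Γ} (h : IsConj a c ∨ IsConj a⁻¹ c) (g : Γ) :
    inter ρ g c = inter ρ g a := by
  rcases h with h | h <;> obtain ⟨k, rfl⟩ := isConj_iff.1 h
  · exact inter_conj_right _ _ _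
  · rw [inter_conj_right, inter_inv_right]

theorem MAug_elim (hρ : Disc ρ) {ι κ : Type} {ν : ι → Γ} {q : κ → Γ} (hν : Multi ρ ν)
    (hq : Multi ρ q) (h : ∀ j, Th ρ ν (q j)) : Multi ρ (Sum.elim ν q) := by
  have h4 : ∀ a, ax (ρ (ν a)) ∈ lifts ρ ν := ax_mem_lifts
  rw [multi_iff hρ] at hq hν ⊢
  refine ⟨Sum.forall.2 ⟨hν.1, hq.1⟩, ?_⟩
  rintro (i | i) (j | j) hij g <;> simp only [Sum.elim_inl, Sum.elim_inr]
  · exact hν.2 i j (fun e => hij (congrArg _ e)) g
  · have : ρ g • ax (ρ (q j)) ∉ lifts ρ ν := fun e =>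
      (h j).2.2 (by simpa using smul_mem_lifts g⁻¹ e)
    refine ⟨(hρ.inter_eq_zero_iff (hν.1 i).hyp (hq.1 j).hyp (hq.1 j).prim).1 ?_ g,
      fun e => this (e ▸ h4 i), fun e => this (e ▸ rev_mem_lifts (h4 i))⟩
    rw [hρ.inter_comm (hν.1 i).hyp (hν.1 i).prim (hq.1 j).hyp (hq.1 j).prim]
    exact (h j).2.1 i
  · have := smul_mem_lifts g (h4 j)
    exact ⟨(hρ.inter_eq_zero_iff (hq.1 i).hyp (hν.1 j).hyp (hν.1 j).prim).1 ((h i).2.1 j) g,
      fun e => (h i).2.2 (e ▸ this),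
      fun e => (h i).2.2 (rev_mem_lifts (A := (ax (ρ (q i))).rev) (e ▸ this))⟩
  · exact hq.2 i j (fun e => hij (congrArg _ e)) g

theorem top_of_cross (hρ : Disc ρ) {y : SC ρ → ENNReal} (hy : y ∈ Aug ρ) {α γ : SC ρ}
    (h0 : y α = 0) (h : inter ρ γ.1 α.1 ≠ 0) : y γ = ⊤ := by
  refine ENNReal.eq_top_of_forall_nnreal_le fun M => ?_
  have h1 : exp (-(M : ℝ)) ≤ 1 := exp_le_one_iff.2 (neg_nonpos.2 M.2)
  have h2 := MAug_closed hy (S := {v | ENNReal.ofReal (exp (-(M : ℝ))) ≤ v α} ∪ {v | M ≤ v γ})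
    ((isClosed_le continuous_const (continuous_apply α)).union
      (isClosed_le continuous_const (continuous_apply γ))) fun x => by
    rcases le_total (exp (-(M : ℝ))) (tl (x.1 α.1)) with h2 | h2
    · exact Or.inl (ENNReal.ofReal_le_ofReal h2)
    have hm := x.2.choose_spec
    have h3 := (hm.disc hρ).inter_mul_colW_le (hm.hyp γ.2.hyp).1 ((hm.simple_iff _).2 α.2)
    have h4 : 0 < tl (x.1 α.1) := (hm.hyp α.2.hyp).1
    have h5 := (log_le_colW (exp_pos _) h1).trans (colW_anti h4 h2)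
    rw [one_div, ← exp_neg, neg_neg, log_exp] at h5
    rw [hm.inter_eq] at h3
    have h6 : (1 : ℝ) ≤ inter ρ γ.1 α.1 := by exact_mod_cast Nat.one_le_iff_ne_zero.2 h
    refine Or.inr (ENNReal.ofReal_coe_nnreal.ge.trans (ENNReal.ofReal_le_ofReal ?_))
    exact h5.trans ((le_mul_of_one_le_left (colW_pos h4).le h6).trans h3)
  refine h2.resolve_left fun h3 => ?_
  exact (ENNReal.ofReal_pos.2 (exp_pos _)).not_ge (le_of_le_of_eq h3 h0)

theorem MAug_nodes (hρ : Disc ρ) {y : SC ρ → ENNReal} (hy : y ∈ Aug ρ) {ι : Type} {ν : ι → Γ}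
    (hν : Multi ρ ν) (h0 : ∀ a, y ⟨ν a, hν.1 a⟩ = 0) (hm : ∀ β : SC ρ, Th ρ ν β.1 → y β ≠ 0) :
    Nodes ρ y ν := by
  have h1 : ∀ β : SC ρ, y β < ⊤ → ∀ a, inter ρ β.1 (ν a) = 0 := fun β h a =>
    not_not.1 fun h' => h.ne (top_of_cross hρ hy (h0 a) h')
  have h2 : ∀ β : SC ρ, (∀ a, inter ρ β.1 (ν a) = 0) → y β < ⊤ := fun β h => by
    refine lt_top_iff_ne_top.2 fun h' => ?_
    obtain ⟨c, h2, h3⟩ := hy.2 β h'
    obtain ⟨a, ha⟩ := MAug_lift hρ hν c.2
      (not_not.1 fun h4 => hm c ⟨c.2, h1 c (h2 ▸ ENNReal.zero_lt_top), h4⟩ h2)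
    exact h3 ((MAug_inter ha _).trans (h a))
  refine ⟨hν, h0, h2, fun β => ⟨fun h => ⟨pos_iff_ne_zero.2 (hm β h), h2 β h.2.1⟩,
    fun h => ⟨β.2, h1 β h.2, fun h3 => ?_⟩⟩⟩
  obtain ⟨a, ha⟩ := MAug_lift hρ hν β.2 h3
  exact h.1.ne' ((MAug_conj hy (a := ⟨ν a, hν.1 a⟩) ha).trans (h0 a))

theorem exists_nodes (hρ : Good ρ N) {y : SC ρ → ENNReal} (hy : y ∈ Aug ρ) {m : ℕ}
    {α : Fin m → SC ρ} (hα : Multi ρ fun a => (α a).1) (h0 : ∀ a, y (α a) = 0) :
    ∃ (m' : ℕ) (α' : Fin m' → Γ), Nodes ρ y (Sum.elim (fun a => (α a).1) α') := by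
  classical
  obtain ⟨ξ, hξ⟩ := hρ.exists_multi_bound
  let P : ℕ → Prop := fun k => ∃ α' : Fin k → SC ρ,
    Multi ρ (Sum.elim (fun a => (α a).1) fun i => (α' i).1) ∧ ∀ i, y (α' i) = 0
  have hP : P 0 := ⟨Fin.elim0, MAug_elim hρ.toDisc hα ⟨fun i => i.elim0, fun i => i.elim0⟩
    fun i => i.elim0, fun i => i.elim0⟩
  obtain ⟨α', h1, h2⟩ : P (Nat.findGreatest P ξ) := Nat.findGreatest_spec (Nat.zero_le ξ) hP
  have hz : ∀ a, y ⟨_, h1.1 a⟩ = 0 := Sum.forall.2 ⟨h0, h2⟩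
  refine ⟨_, _, MAug_nodes hρ.toDisc hy h1 hz fun β hβ h3 => ?_⟩
  have h4 := (MAug_elim hρ.toDisc h1 (multi_single β.2) fun _ => hβ).comp
    ((Equiv.sumCongr (Equiv.refl _) ((finSuccEquiv _).trans
      (Equiv.optionEquivSumPUnit _))).trans (Equiv.sumAssoc _ _ _).symm).injective
  have h5 : Multi ρ (Sum.elim (fun a => (α a).1)
      fun i => ((Fin.cons β α' : Fin (_ + 1) → SC ρ) i).1) := by
    convert h4 using 1
    funext i
    rcases i with i | i
    · rfl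
    · refine Fin.cases ?_ (fun i => ?_) i <;> simp
  refine Nat.findGreatest_is_greatest (P := P) (n := ξ) (Nat.lt_succ_self _) ?_
    ⟨Fin.cons β α', h5, fun i => Fin.cases h3 h2 i⟩
  have h6 := hξ _ _ h5
  rw [Fintype.card_sum, Fintype.card_fin, Fintype.card_fin] at h6
  omega

theorem Nodes.multi_elim (hρ : Disc ρ) {y : SC ρ → ENNReal} {ι κ : Type} {ν : ι → Γ}
    (h : Nodes ρ y ν) {q : κ → SC ρ} (hq : Multi ρ fun j => (q j).1)
    (h0 : ∀ j, 0 < y (q j) ∧ y (q j) < ⊤) : Multi ρ (Sum.elim ν fun j => (q j).1) := by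
  exact MAug_elim hρ h.multi hq fun j => (h.th (q j)).2 (h0 j)

theorem th_of_multi (hρ : Disc ρ) {ι κ : Type} {ν : ι → Γ} {q : κ → Γ}
    (h : Multi ρ (Sum.elim ν q)) (j : κ) : Th ρ ν (q j) := by
  rw [multi_iff hρ] at h
  have h1 := fun a => h.2 (Sum.inr j) (Sum.inl a) Sum.inr_ne_inl
  refine ⟨h.1 (Sum.inr j), fun a => (hρ.inter_eq_zero_iff (h.1 (Sum.inr j)).hyp
    (h.1 (Sum.inl a)).hyp (h.1 (Sum.inl a)).prim).2 fun g => (h1 a g).1, ?_⟩
  rintro ⟨a, g, e | e⟩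
  · exact (h1 a g).2.1 e.symm
  · exact (h1 a g).2.2 (congrArg Geo.rev e).symm

theorem Pinch.exists_aug {ι I : Type} [Finite ι] {α δ : ι → Γ} {U : Ultrafilter I}
    {x : I → Rep ρ} (h : Pinch ρ α δ U x) (hρ : Good ρ N) : ∃ y ∈ Aug ρ, Nodes ρ y α ∧
      ∀ β : SC ρ, y β < ⊤ → Tendsto (fun n => tl ((x n).1 β.1)) U (𝓝 (y β).toReal) := by
  have hα := h.duals.multi
  obtain ⟨y, -, hy⟩ := isCompact_univ.ultrafilter_le_nhds
    (U.map fun n (β : SC ρ) => ENNReal.ofReal (tl ((x n).1 β.1))) (by simp)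
  have h1 : ∀ β : SC ρ, Tendsto (fun n => ENNReal.ofReal (tl ((x n).1 β.1))) U (𝓝 (y β)) :=
    tendsto_pi_nhds.1 hy
  have h0 : ∀ a, y ⟨α a, hα.1 a⟩ = 0 := fun a =>
    tendsto_nhds_unique (h1 _) (by simpa using ENNReal.tendsto_ofReal (h.node a))
  have h2 : y ∈ Aug ρ := by
    refine ⟨mem_closure_of_tendsto hy (Eventually.of_forall fun n => ⟨(x n).cls, rfl⟩),
      fun γ hγ => ?_⟩
    by_contra h2
    obtain ⟨C, hC⟩ := h.bdd γ.1 γ.2 fun a => not_not.1 fun h3 => h2 ⟨⟨α a, hα.1 a⟩, h0 a, h3⟩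
    have := le_of_tendsto (h1 γ) (hC.mono fun n hn => ENNReal.ofReal_le_ofReal hn)
    exact ENNReal.ofReal_ne_top (top_le_iff.1 (hγ ▸ this))
  obtain ⟨d, hd, h3⟩ := Bdd.phi (σ := fun n => (x n).1) (k := fun n => (x n).2.choose) (U := U)
    ⟨fun n => (x n).2.choose_spec, Eventually.of_forall fun _ => le_rfl,
      by simpa only [mul_one] using h.bdd⟩ hρ hα h.cover
  refine ⟨y, h2, MAug_nodes hρ.toDisc h2 hα h0 fun β hβ => ?_, fun β hβ => ?_⟩
  · refine ((ENNReal.ofReal_pos.2 (mul_pos hd β.2.1)).trans_le ?_).ne'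
    exact ge_of_tendsto (h1 β) (h3.mono fun n hn => ENNReal.ofReal_le_ofReal (hn β.1 hβ))
  · refine ((ENNReal.tendsto_toReal hβ.ne).comp (h1 β)).congr fun n => ?_
    exact ENNReal.toReal_ofReal (len_pos (x n).cls β.2.hyp).le

theorem wt_nonneg {ι : Type} {w : ι → Teich ρ → ℝ} (hw : w ∈ WT ρ ι) (i : ι) (z : Teich ρ) :
    0 ≤ w i z := by
  refine closure_minimal (t := {v : ι → Teich ρ → ℝ | 0 ≤ v i z}) ?_
    (isClosed_le continuous_const ((continuous_apply z).comp (continuous_apply i))) hw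
  rintro _ ⟨R, s, hR, h0, rfl⟩
  exact mul_nonneg (h0 i) (len_pos z (hR.1 i).hyp).le

theorem wt_le (hρ : Good ρ N) {ι : Type} {w : ι → Teich ρ → ℝ} (hw : w ∈ WT ρ ι) (i : ι)
    (z z' : Teich ρ) : w i z' ≤ exp (dTh z z') * w i z := by
  obtain ⟨_, R, -, hR, -⟩ := closure_nonempty_iff.1 ⟨w, hw⟩
  exact (MNot_wt hρ ⟨_, hR.1 i⟩ hw i z z').2

theorem et_nonneg {y : SC ρ → ENNReal} {κ : Type} {η : κ → SC ρ → ℝ} (hη : η ∈ ET y κ) (j : κ)
    (β : SC ρ) : 0 ≤ η j β := by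
  exact MNot_et hη j β

theorem lub_pos (hρ : Good ρ N) {y : SC ρ → ENNReal} {m r : ℕ} {w : Fin m ⊕ Fin r → Teich ρ → ℝ}
    {η : Fin r → SC ρ → ℝ} (hw : w ∈ WT ρ (Fin m ⊕ Fin r)) (hη : η ∈ ET y (Fin r))
    {F : Teich ρ → ℝ} (hF : ∀ z, IsLUB (vals y w η z) (F z)) {b : Teich ρ} (hb : 0 < F b)
    (z : Teich ρ) : 0 < F z := by
  exact (mul_pos_iff_of_pos_left (exp_pos _)).1 (hb.trans_le
    (MNot_comp (MNot_et hη) hF (exp_pos (dTh z b)).le fun i => wt_le hρ hw i z b))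

end HRT
end

-- merged part: Pool.Agent.Work.MP_35beee_gt.TElemA
section
/-!
Auxiliary facts for the pentagon configuration: multicurves through intersection numbers, dual
curves, and the pair of pants determined by a simple pair.
-/

namespace HRT

open Set Filter Topology Real

variable {Γ : Type} [Group Γ] {ρ : Γ →* Isom} {N : ℝ → ℝ} {ι : Type}

theorem TElemA_symm {x c : Γ} (h : c ∈ cls ρ x) : x ∈ cls ρ c := by
  rw [cls_eq h]
  exact mem_cls_self x

theorem TElemA_left {a c : Γ} (h : c ∈ cls ρ a) (g : Γ) : inter ρ c g = inter ρ a g := by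
  rcases h with h | ⟨-, h⟩ <;> obtain ⟨k, rfl⟩ := isConj_iff.1 h
  · exact inter_conj_left _ _ _
  · rw [inter_conj_left, inter_inv_left]

theorem TElemA_right {a c : Γ} (h : c ∈ cls ρ a) (g : Γ) : inter ρ g c = inter ρ g a :=
  MAug_inter (h.imp_right fun h => h.2) g

theorem TElemA_multi (hρ : Disc ρ) {R : ι → Γ} : Multi ρ R ↔ (∀ i, Simple ρ (R i)) ∧
    ∀ i j, i ≠ j → inter ρ (R i) (R j) = 0 ∧ R i ∉ cls ρ (R j) := by
  refine and_congr_right fun hS => forall_congr' fun i => forall_congr' fun j =>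
    forall_congr' fun _ => ?_
  rw [hρ.inter_eq_zero_iff (hS i).hyp (hS j).hyp (hS j).prim]
  have e : ∀ g : Γ, Link (ρ (R i)) (ρ (g * R j * g⁻¹)) ↔
      Cross (ax (ρ (R i))) (ρ g • ax (ρ (R j))) := fun g => by
    rw [link_iff (hS i).hyp ((hS j).conj g).hyp, ax_conj' (hS j).hyp g]
  constructor
  · intro h
    refine ⟨fun g hc => (h g).1 ((e g).2 hc), ?_⟩
    rintro (hc | ⟨-, hc⟩)
    · obtain ⟨g, hg⟩ := isConj_iff.1 hc
      exact (h g).2.1 hg.symm
    · obtain ⟨g, hg⟩ := isConj_iff.1 hc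
      refine (h g).2.2 ?_
      rw [← hg]
      group
  · rintro ⟨h1, h2⟩ g
    refine ⟨fun hc => h1 g ((e g).1 hc), fun hg => h2 (Or.inl (isConj_iff.2 ⟨g, hg.symm⟩)),
      fun hg => h2 (Or.inr ⟨(hS j).hyp, isConj_iff.2 ⟨g, ?_⟩⟩)⟩
    rw [← inv_inv (R i), hg]
    group

theorem TElemA_cross (hρ : Disc ρ) {g x : Γ} (hg : Hyp (ρ g)) (hx : Simple ρ x)
    (hc : Cross (ax (ρ x)) (ax (ρ g))) : inter ρ g x ≠ 0 := fun h =>
  (hρ.inter_eq_zero_iff hg hx.hyp hx.prim).1 h 1 (by simpa using hc.symm)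

theorem TElemA_dual (hρ : Good ρ N) {D : Type} {nx : Equiv.Perm D} {E : D → Γ}
    (h : IsPants ρ nx E) [DecidableEq ι] {P : ι → Γ} (hP : Multi ρ P) (hE : ∀ l, P l ∈ objs E)
    (j : ι) : ∃ γ, Multi ρ (Function.update P j γ) ∧ inter ρ γ (P j) ≠ 0 ∧
      ∀ x ∈ objs E, x ∉ cls ρ (P j) → Hyp (ρ x) → inter ρ γ x = 0 := by
  have hd := hρ.toDisc
  obtain ⟨γ, h1, h2, h3⟩ := h.exists_dual hρ (hE j) (hP.1 j).hyp
  have h4 := TElemA_cross hd h1.hyp (hP.1 j) h2
  obtain ⟨p1, p2⟩ := (TElemA_multi hd).1 hP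
  have h5 : ∀ l, l ≠ j → inter ρ γ (P l) = 0 := fun l hl =>
    h3 _ (hE l) (p2 l j hl).2 (p1 l).hyp
  have h6 : ∀ l, l ≠ j → γ ∉ cls ρ (P l) := fun l hl hc =>
    h4 ((TElemA_left hc _).trans (p2 l j hl).1)
  refine ⟨γ, (TElemA_multi hd).2 ⟨fun l => ?_, fun l m hlm => ?_⟩, h4, h3⟩
  · rcases eq_or_ne l j with rfl | hl
    · rwa [Function.update_self]
    · rw [Function.update_of_ne hl]
      exact p1 l
  · rcases eq_or_ne l j with rfl | hl
    · rw [Function.update_self, Function.update_of_ne hlm.symm]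
      exact ⟨h5 m hlm.symm, h6 m hlm.symm⟩
    · rcases eq_or_ne m j with rfl | hm
      · rw [Function.update_self, Function.update_of_ne hl]
        refine ⟨?_, fun hc => h6 l hl (TElemA_symm hc)⟩
        rw [hd.inter_comm (p1 l).hyp (p1 l).prim h1.hyp h1.prim]
        exact h5 l hl
      · rw [Function.update_of_ne hl, Function.update_of_ne hm]
        exact p2 l m hlm

theorem TElemA_one {A X : Isom} (h : Face X A) : ccw (X • lo A) (X⁻¹ • lo A) (lo A) := by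
  have h1 : Ins X (X⁻¹ • lo A).1 := by
    rw [← PObj_one h.1, smul_inv_smul]
    exact h.ins_lo
  have h2 := PObj_three h.1 h1
  rw [smul_inv_smul] at h2
  exact h2.cyc.cyc

theorem TElemA_ord {A X Y : Isom} (h : Frame A X Y) : ccw (X • lo A) (X⁻¹ • lo A) (lo A) ∧
    ccw (X⁻¹ • lo A) (A • X • lo A) (lo A) ∧ Ins A (X⁻¹ • lo A).1 := by
  have nA := h.2.1.1
  refine ⟨TElemA_one h.2.1.symm, ?_, ?_⟩
  · have h1 := TElemA_one h.2.2.2
    have h2 : A⁻¹ • lo A = lo A := inv_smul_eq_iff.2 (POs_smul_lo nA).symm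
    rwa [h.eq_inv, inv_inv, mul_inv_rev, mul_smul, mul_smul, h2] at h1
  · have h1 := h.face_conj.1.ins_lo
    have h2 := nA.lo_conj X⁻¹
    rw [inv_inv] at h2
    rwa [h2] at h1

theorem TElemA_tr {u v w z : Circ} (h1 : ccw u v z) (h2 : ccw v w z) : ccw u w z :=
  (h1.cyc.cyc.trans h2.cyc.cyc).cyc

theorem TElemA_uniq {A X Y Y' : Isom} {k : ℤ} (h : Frame A X Y) (h' : Frame A (X * A ^ k) Y') :
    k = 0 := by
  have nA := h.2.1.1
  have fx : ∀ n : ℤ, A ^ n • lo A = lo A := fun n =>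
    MulAction.mem_stabilizer_iff.1 (Subgroup.zpow_mem _
      (MulAction.mem_stabilizer_iff.2 (POs_smul_lo nA)) n)
  obtain ⟨a1, a2, a3⟩ := TElemA_ord h
  obtain ⟨b1, b2, -⟩ := TElemA_ord h'
  rw [mul_inv_rev, mul_smul, mul_smul, fx, ← zpow_neg] at b1 b2
  have c := fun {m n : ℤ} (hmn : m < n) => nA.ccw_zpow a3 (PObj_lo nA) hmn
  generalize X • lo A = u at a1 a2 b1 b2
  generalize X⁻¹ • lo A = v at a1 a2 b1 b2 c
  rcases lt_trichotomy k 0 with hk | hk | hk
  · exfalso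
    have d1 := (ccw_smul_iff A).2 a1
    rw [POs_smul_lo nA] at d1
    have d2 : ccw (A • u) (A ^ (-k) • v) (lo A) := by
      rcases eq_or_lt_of_le (show (1 : ℤ) ≤ -k by omega) with e | e
      · rwa [← e, zpow_one]
      · have := c e
        rw [zpow_one] at this
        exact TElemA_tr d1 this
    exact d2.cyc.asymm b2
  · exact hk
  · exfalso
    have d1 := (ccw_smul_iff (A ^ (-1 : ℤ))).2 a2
    rw [fx, ← mul_smul (A ^ (-1 : ℤ)) A, zpow_neg_one, inv_mul_cancel, one_smul,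
      ← zpow_neg_one] at d1
    have d2 : ccw (A ^ (-k) • v) u (lo A) := by
      rcases eq_or_lt_of_le (show -k ≤ (-1 : ℤ) by omega) with e | e
      · rwa [e]
      · exact TElemA_tr (c e) d1
    exact d2.cyc.asymm b1

section

variable {D D' : Type} {nx : Equiv.Perm D} {nx' : Equiv.Perm D'} {E : D → Γ} {E' : D' → Γ}
  {a b q x : Γ}

theorem TElemA_nc (h : IsPants ρ nx E) (hm : MP nx E a x) : ¬ IsConj a x := by
  intro hc
  obtain ⟨d, g, rfl, rfl | rfl⟩ := h.PPants_nf hm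
  · exact h.nx_ne d (h.uniq _ _ ((POs_isConj g _).trans (hc.trans (POs_isConj g _).symm))).symm
  · have e := h.uniq _ _ ((POs_isConj g _).trans (hc.trans (POs_isConj g _).symm))
    have e2 := congrArg nx e
    rw [h.cube] at e2
    exact h.nx_ne d e2

theorem TElemA_third (h : IsPants ρ nx E) (hρ : Disc ρ) (hm : MP nx E a q) (hx : MP nx E a x) :
    IsConj q x ∨ IsConj q (a * x)⁻¹ := by
  have n1 := TElemA_nc h hm
  obtain ⟨w, -, u, v, h1, h2⟩ := (h.ft_of_mp hρ hx hm).exists_conj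
  have h3 : IsConj q u ∨ IsConj q v := by
    rcases h2 with ⟨-, e⟩ | ⟨e, -⟩
    · exact Or.inr (e ▸ (POs_isConj w v).symm)
    · exact Or.inl (e ▸ (POs_isConj w u).symm)
  rcases h1 with ⟨rfl, rfl⟩ | ⟨rfl, rfl⟩ | ⟨rfl, rfl⟩
  · exact Or.inl (h3.resolve_left fun e => n1 e.symm)
  · exact h3
  · exact Or.inr (h3.resolve_right fun e => n1 e.symm)

theorem TElemA_key (hρ : Disc ρ) (h : IsPants ρ nx E) (h' : IsPants ρ nx' E') (hm : MP nx E a q)
    (hq : q ∉ cls ρ a) (hb : b ∈ cls ρ a) (s : SPair ρ (objs E) a b)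
    (s' : SPair ρ (objs E') a b) : q ∈ objs E' := by
  rcases h.code hρ s with h1 | ⟨x, h1, e1⟩ <;> rcases h'.code hρ s' with h2 | ⟨y, h2, e2⟩
  · rcases TElemA_third h hρ hm h1 with h3 | h3
    · exact absurd (PDual_cls hb h3.symm) hq
    · exact PDual_objs (h'.fo hρ h2).2.2.1 h3.symm
  · exact absurd (e2 ▸ POs_isConj y a) (TElemA_nc h h1)
  · exact absurd (e1 ▸ POs_isConj x a) (TElemA_nc h' h2)
  · have f1 := h.fo hρ h1
    have f2 := h'.fo hρ h2
    obtain ⟨k, hk⟩ := h.sys.mem_zpowers f1.1 (g := x⁻¹ * y) (by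
      rw [mul_inv_rev, inv_inv, show x⁻¹ * y * a * (y⁻¹ * x) = x⁻¹ * (y * a * y⁻¹) * x by group,
        ← e2, e1]
      group)
    have e3 : y = x * a ^ k := by
      rw [show a ^ k = x⁻¹ * y from hk, mul_inv_cancel_left]
    have f3 := f2.2.2.2
    rw [e3, map_mul ρ x, map_zpow] at f3
    rw [TElemA_uniq f1.2.2.2 f3, zpow_zero, mul_one] at e3
    subst e3
    rcases TElemA_third h hρ hm h1 with h3 | h3
    · exact PDual_objs f2.2.1 h3.symm
    · exact PDual_objs f2.2.2.1 h3.symm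

theorem TElemA_sepa {O : Set Γ} {g : Γ} {p : ℕ} {m : ℤ → Γ} (h : XSeq ρ O g p m) {n : ℤ}
    (hx : Sepa ρ x (m n)⁻¹ (m (n + 1))) : Cross (ax (ρ x)) (ax (ρ g)) := by
  have ha : ¬ Ins (ρ (m n)⁻¹) (ax (ρ g)).src.1 := by
    rw [map_inv, (h.hyp n).ins_inv_iff]
    exact not_lt.2 (h.chain.src n).le
  have hb : ¬ Ins (ρ (m (n + 1))) (ax (ρ g)).tgt.1 := by
    rw [(h.hyp _).ins_iff]
    exact not_lt.2 (h.chain.tgt _).le
  have h1 := hx.2.1.symm.ins ha
  have h2 := hx.2.2.ins hb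
  rw [map_inv, hx.1.ins_inv_iff] at h2
  rw [hx.1.ins_iff] at h1
  exact mul_neg_of_neg_of_pos h1 h2

/-- A simple curve that crosses only the class of `a` in two decompositions. -/
theorem TElemA_main (hρ : Disc ρ) (h : IsPants ρ nx E) (h' : IsPants ρ nx' E') (hm : MP nx E a q)
    (ha : Hyp (ρ a)) (hq : q ∉ cls ρ a) (ha' : a ∈ objs E') {γ : Γ} (hγ : Simple ρ γ)
    (h0 : inter ρ γ a ≠ 0) (h1 : ∀ x ∈ objs E, x ∉ cls ρ a → Hyp (ρ x) → inter ρ γ x = 0)
    (h2 : ∀ x ∈ objs E', x ∉ cls ρ a → Hyp (ρ x) → inter ρ γ x = 0) : q ∈ objs E' := by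
  have haE := (h.fo hρ hm).1
  obtain ⟨p, m, hs⟩ := h.sys.exists_seq hρ hγ.hyp ⟨a, haE, ha, h0⟩
  have c1 : ∀ n, m n ∈ cls ρ a := fun n => by
    by_contra hc
    exact TElemA_cross hρ hγ.hyp (h.sys.simple hρ (hs.mem n) (hs.hyp n))
      (mul_neg_of_neg_of_pos (hs.chain.src n) (hs.chain.tgt n)) (h1 _ (hs.mem n) hc (hs.hyp n))
  have c2 : ∀ n, (m n)⁻¹ ∈ cls ρ a := fun n => POs_inv_mem ha (c1 n)
  have s1 := hs.spair h.sys hρ hγ
  have s2 : ∀ n, SPair ρ (objs E') (m n)⁻¹ (m (n + 1)) := fun n => by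
    refine ⟨⟨h'.sys.cls_subset ha' (c2 n), h'.sys.cls_subset ha' (c1 _), (s1 n).1.face,
      fun x hx hsep => ?_⟩, (s1 n).2⟩
    by_cases hc : x ∈ cls ρ a
    · exact (s1 n).1.2.2.2 x (h.sys.cls_subset haE hc) hsep
    · exact TElemA_cross hρ hγ.hyp (h'.sys.simple hρ hx hsep.1) (TElemA_sepa hs hsep)
        (h2 x hx hc hsep.1)
  have key : ∀ a' b, IsConj a a' → b ∈ cls ρ a → SPair ρ (objs E) a' b →
      SPair ρ (objs E') a' b → q ∈ objs E' := by
    intro a' b hc hb t1 t2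
    obtain ⟨g, rfl⟩ := isConj_iff.1 hc
    have e := cls_eq (cls_conj (mem_cls_self (ρ := ρ) a) g)
    refine PDual_objs (TElemA_key hρ h h' (hm.conj g) ?_ (e ▸ hb) t1 t2) (POs_isConj g q).symm
    rw [e]
    exact fun hc => hq (PDual_cls hc (POs_isConj g q).symm)
  rcases c1 (0 + 1) with hc | ⟨-, hc⟩
  · exact key _ _ hc (c2 0) ((s1 0).symm h.sys) ((s2 0).symm h'.sys)
  · have hc' := POs_inv hc
    rw [inv_inv] at hc'
    exact key _ _ hc' (c1 _) (s1 _) (s2 _)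

/-- Two different curves bound the same pair of pants. -/
theorem TElemA_pair (hρ : Good ρ N) (h : IsPants ρ nx E) (ha : a ∈ objs E) (hb : b ∈ objs E)
    (h1 : Hyp (ρ a)) (h2 : Hyp (ρ b)) (hab : b ∉ cls ρ a) :
    ∃ a q, MP nx E a q ∧ Hyp (ρ a) ∧ Hyp (ρ q) ∧ q ∉ cls ρ a := by
  classical
  by_contra hn
  have hn' : ∀ a q, MP nx E a q → Hyp (ρ a) → Hyp (ρ q) → q ∈ cls ρ a := fun a q m1 m2 m3 =>
    by_contra fun m4 => hn ⟨a, q, m1, m2, m3, m4⟩
  obtain ⟨gl, t, hg⟩ := h.exists_pg hρ.toDisc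
  have step : ∀ d, Hyp (ρ (E d)) → E d ∈ cls ρ a →
      ∀ e, InV nx d e → Hyp (ρ (E e)) → E e ∈ cls ρ a := by
    rintro d d1 d2 e (rfl | rfl | rfl) e1
    · exact d2
    · rw [← cls_eq d2]
      exact hn' _ _ ⟨d, 1, Or.inl ⟨by simp, by simp⟩⟩ d1 e1
    · rw [← cls_eq d2]
      exact hn' _ _ ⟨nx (nx d), 1, Or.inr ⟨by simp, by simp [h.cube]⟩⟩ d1 e1
  obtain ⟨d₀, hd₀⟩ := ha
  obtain ⟨d₁, hd₁⟩ := hb
  have all := (hg.triv hρ).conn (fun d => ∀ e, InV nx d e → Hyp (ρ (E e)) → E e ∈ cls ρ a) d₀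
    (step d₀ ((PDual_hyp hd₀).1 h1) (Or.inl hd₀.symm))
    (fun d hd e he => hd e (PDual_trans h.cube (Or.inr (Or.inl rfl)) he))
    (fun d hd => by
      by_cases hh : Hyp (ρ (E d))
      · have e1 := hd d (Or.inl rfl) hh
        have e2 : E (gl d) ∈ cls ρ a := by
          rw [← cls_eq e1, ← hg.cls_gl d]
          exact mem_cls_self _
        exact step _ (POs_hyp h1 e2) e2
      · rwa [(hg.par d hh).1])
  exact hab (PDual_cls (all d₁ d₁ (Or.inl rfl) ((PDual_hyp hd₁).1 h2)) hd₁)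

end

end HRT
end

-- merged part: Pool.Agent.Work.MP_35beee_gt.TElem
section
/-!
Linear operations that preserve the set of tuples of laminations.

Plan. `exists_pent`: two of the curves of a pants decomposition with at least two curves bound the
same pair of pants (connectedness, `PG.walk_ind` or `PG.triv`): there is an `MP` pair `a`, `q` of
hyperbolic objects with different classes. Let `γ₂` be a dual of `q` (`exists_dual`), extend the
multicurve with `q` replaced by `γ₂` to a pants decomposition `E'` (`Good.exists_pants`; all its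
objects are in `O' ∪ cls γ₂`, `O' = objs E \ cls q`, by `mem_of_simple` or `card_eq`), and let `γ₁` be
a dual of `a` in `E'`. Suppose `γ₁` does not cross `q`. Up to conjugation and inversion the axis
of `γ₁` crosses `a⁻¹` and next an object `b` of `O'` (`exists_seq`), and `a`, `b` is a simple pair
for both decompositions (`XSeq.spair`). `IsPants.code` for both. If `a`, `b` are not conjugate,
`(a * b)⁻¹` is an object of both and is conjugate to `q`. If `b = x * a * x⁻¹ = x' * a * x'⁻¹` then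
`x' = x * a ^ k`, and `k = 0` because for a frame `a`, `x`, `y` the object `x⁻¹ * a * x` lies between
`b` and `a * b * a⁻¹` (`Frame.face_conj`, `NoFix.ccw_zpow`); so `x` and `(a * x)⁻¹` are objects of
both, and one of them is conjugate to `q`. In both cases a conjugate of `q` is an object of `E'`,
but `q` crosses `γ₂`.
`wt_add`: the set of `w` with the property is closed, so take `w = s * len R`; by `Good.arrow` and
invariance of `WT` under mapping classes it is enough to treat one multicurve `Q` with index type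
`ι`: take `Q i = a`, `Q j = q` from `exists_pent` (its size is at least `card ι` by
`IsPants.card_eq`) and twist the multicurve with `γ₁`, `γ₂` in the places `i`, `j` about `a` and `q`
(`IsTw.abs_tl_sub_le`).
`wt_rank_one`: induction on the support of `u`; if `u k > 0` first replace `w k` by
`q = d * w k + c k * p`, then use the induction hypothesis on the other indices with
`c' i = c i * d / (d + c k * u k)`, then add `c i * u k / (d + c k * u k)` times `q` (for `d > 0`;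
`d = 0` by closedness). A suitable statement for the induction: for a finite set `S` of indices,
change only the `w i` with `i` in `S`, with `p = ∑ j ∈ S, u j * w j`.
-/

namespace HRT

open Set Filter Topology Real

variable {Γ : Type} [Group Γ] {ρ : Γ →* Isom} {N : ℝ → ℝ} {ι : Type}

theorem exists_pent (hρ : Good ρ N) {k : ℕ} {P : Fin k → Γ} (hP : Multi ρ P) (hm : IsMax ρ P)
    (hk : 2 ≤ k) : ∃ (i j : Fin k) (γ₁ γ₂ : Γ), i ≠ j ∧
      Multi ρ (Function.update (Function.update P i γ₁) j γ₂) ∧ inter ρ γ₁ (P i) ≠ 0 ∧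
        inter ρ γ₁ (P j) ≠ 0 ∧ inter ρ γ₂ (P i) = 0 ∧ inter ρ γ₂ (P j) ≠ 0 := by
  have hd := hρ.toDisc
  obtain ⟨n, nx, E, h, hO⟩ := hm
  obtain ⟨p1, p2⟩ := (TElemA_multi hd).1 hP
  have hE : ∀ l, P l ∈ objs E := fun l => hO ▸ Or.inl ⟨l, mem_cls_self _⟩
  obtain ⟨a, q, hm, ha, hq, haq⟩ := TElemA_pair hρ h (hE ⟨0, by omega⟩) (hE ⟨1, by omega⟩)
    (p1 _).hyp (p1 _).hyp (p2 _ _ (by simp)).2
  obtain ⟨i, hi⟩ := CTw2_mem (hO ▸ (h.fo hd hm).1) ha
  obtain ⟨j, hj⟩ := CTw2_mem (hO ▸ (h.fo hd hm).2.1) hq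
  have hij : i ≠ j := by
    rintro rfl
    exact haq (cls_eq hi ▸ hj)
  obtain ⟨γ₂, m2, c2, z2⟩ := TElemA_dual hρ h hP hE j
  obtain ⟨n', nx', E', h', hE'⟩ := hρ.exists_pants m2
  obtain ⟨γ₁, m1, c1, z1⟩ := TElemA_dual hρ h' m2 hE' i
  have s1 := m1.1 i
  have s2 := m2.1 j
  have e1 := hE' i
  have e2 := hE' j
  rw [Function.update_self] at s1 s2 e2
  rw [Function.update_of_ne hij] at c1 z1 e1
  rw [Function.update_comm hij.symm] at m1
  refine ⟨i, j, γ₁, γ₂, hij, m1, c1, fun h0 => c2 ?_, z2 _ (hE i) (p2 i j hij).2 (p1 i).hyp, c2⟩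
  have hq' : q ∈ objs E' := by
    refine TElemA_main hd h h' hm ha haq (h'.sys.cls_subset e1 hi) s1
      (TElemA_right hi γ₁ ▸ c1) (fun x hx hx' hh => ?_) (cls_eq hi ▸ z1)
    obtain ⟨l, hl⟩ := CTw2_mem (hO ▸ hx) hh
    rw [TElemA_right hl]
    rcases eq_or_ne l j with rfl | hlj
    · exact h0
    · have hli : l ≠ i := by
        rintro rfl
        exact hx' (cls_eq hi ▸ hl)
      have e3 := hE' l
      rw [Function.update_of_ne hlj] at e3
      exact z1 _ e3 (p2 l i hli).2 (p1 l).hyp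
  rw [← TElemA_right hj]
  exact PDM_inter_zero h'.sys hd e2 hq' s2.hyp hq

theorem exists_isMax (hρ : Good ρ N) [Finite ι] {R : ι → Γ} (hR : Multi ρ R) :
    ∃ (k : ℕ) (P : Fin k → Γ) (e : ι → Fin k), Multi ρ P ∧ IsMax ρ P ∧ Function.Injective e ∧
      ∀ i, P (e i) = R i := by
  have hd := hρ.toDisc
  obtain ⟨n, nx, E, h, hE⟩ := hρ.exists_pants hR
  obtain ⟨k, P, hP, hO⟩ := h.sys.exists_multi hd
  choose e he using fun i => CTw2_mem (hO ▸ hE i) (hR.1 i).hyp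
  have inj : Function.Injective e := fun i j hij => by
    by_contra hne
    refine (((TElemA_multi hd).1 hR).2 i j hne).2 ?_
    rw [cls_eq (he j), ← hij]
    exact he i
  have hc : ∀ l, Function.extend e R P l ∈ cls ρ (P l) := fun l => by
    by_cases hl : ∃ i, e i = l
    · obtain ⟨i, rfl⟩ := hl
      rw [inj.extend_apply]
      exact he i
    · rw [Function.extend_apply' _ _ _ hl]
      exact mem_cls_self _
  obtain ⟨p1, p2⟩ := (TElemA_multi hd).1 hP
  refine ⟨k, Function.extend e R P, e, (TElemA_multi hd).2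
    ⟨fun l => POs_simple (p1 l) (hc l), fun l m hlm => ⟨?_, fun hx => (p2 l m hlm).2 ?_⟩⟩,
    ⟨n, nx, E, h, ?_⟩, inj, fun i => inj.extend_apply _ _ i⟩
  · rw [TElemA_left (hc l), TElemA_right (hc m)]
    exact (p2 l m hlm).1
  · rw [← cls_eq (hc m), ← cls_eq hx]
    exact TElemA_symm (hc l)
  · rw [hO]
    simp only [Obj, cls_eq (hc _)]

theorem IsMax.card_le (hρ : Good ρ N) {k : ℕ} {P : Fin k → Γ} (hP : Multi ρ P) (hm : IsMax ρ P)
    [Fintype ι] {R : ι → Γ} (hR : Multi ρ R) : Fintype.card ι ≤ k := by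
  have hd := hρ.toDisc
  obtain ⟨n, nx, E, h, hO⟩ := hm
  obtain ⟨n', nx', E', h', hE'⟩ := hρ.exists_pants hR
  obtain ⟨gl, t, hg⟩ := h.exists_pg hd
  obtain ⟨gl', t', hg'⟩ := h'.exists_pg hd
  have hE : ∀ l, P l ∈ objs E := fun l => hO ▸ Or.inl ⟨l, mem_cls_self _⟩
  choose a ha using hE
  choose a' ha' using hE'
  obtain ⟨b1, b2⟩ := PDM_darts hd hg' hR ha'
  obtain ⟨T, w, b, h1, -⟩ := PDM_invol hg'.invol b1 b2
  have c1 := Nat.card_congr w
  have c2 := Nat.card_le_card_of_injective b h1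
  have c3 := h.card_eq h' hρ
  have c4 := PDM_fix hd hg hg'
  have c5 := Nat.card_le_card_of_surjective
    (Sum.elim Subtype.val (Sum.elim a fun l => gl (a l)) : {d // gl d = d} ⊕ Fin k ⊕ Fin k → Fin n)
    fun d => by
      by_cases h2 : gl d = d
      · exact ⟨Sum.inl ⟨d, h2⟩, rfl⟩
      · obtain ⟨l, hl⟩ := CTw2_mem (hO ▸ PPants_self E d) ((hg.hyp_iff hd d).2 h2)
        rw [cls_eq (Or.inl (ha l))] at hl
        rcases (hg.mem_cls_iff _ _).1 hl with rfl | rfl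
        · exact ⟨Sum.inr (Sum.inl l), rfl⟩
        · exact ⟨Sum.inr (Sum.inr l), rfl⟩
  rw [Nat.card_sum, Nat.card_sum] at c1 c5
  rw [Nat.card_eq_fintype_card (α := Fin k), Fintype.card_fin] at c5
  rw [Nat.card_eq_fintype_card] at c2
  omega

theorem TElem_gen {R : ι → Γ} (hR : Multi ρ R) {s : ι → ℝ} (hs : ∀ i, 0 ≤ s i) :
    (fun i (z : Teich ρ) => s i * len z (R i)) ∈ WT ρ ι := subset_closure ⟨R, s, hR, hs, rfl⟩

theorem TElem_closed {X : Type} [TopologicalSpace X] {S : Set X} (hS : IsClosed S)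
    {f : (ι → Teich ρ → ℝ) → X} (hf : Continuous f)
    (h : ∀ (R : ι → Γ) (s : ι → ℝ), Multi ρ R → (∀ i, 0 ≤ s i) →
      f (fun i z => s i * len z (R i)) ∈ S) {w : ι → Teich ρ → ℝ} (hw : w ∈ WT ρ ι) : f w ∈ S := by
  refine closure_minimal (t := f ⁻¹' S) ?_ (hS.preimage hf) hw
  rintro _ ⟨R, s, hR, hs, rfl⟩
  exact h R s hR hs

theorem wt_comp {κ : Type} {w : ι → Teich ρ → ℝ} (hw : w ∈ WT ρ ι) {e : κ → ι}
    (he : Function.Injective e) : w ∘ e ∈ WT ρ κ :=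
  TElem_closed (f := fun w => w ∘ e) isClosed_closure (continuous_pi fun j => continuous_apply (e j))
    (fun _ _ hR hs => TElem_gen (hR.comp he) fun j => hs (e j)) hw

theorem wt_smul {w : ι → Teich ρ → ℝ} (hw : w ∈ WT ρ ι) {c : ι → ℝ} (hc : ∀ i, 0 ≤ c i) :
    (fun i z => c i * w i z) ∈ WT ρ ι := by
  refine TElem_closed (f := fun w i z => c i * w i z) isClosed_closure (by fun_prop)
    (fun R s hR hs => ?_) hw
  simp only [← mul_assoc]
  exact TElem_gen hR fun i => mul_nonneg (hc i) (hs i)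

theorem wt_mem_ml {w : ι → Teich ρ → ℝ} (hw : w ∈ WT ρ ι) (i : ι) : w i ∈ ML ρ :=
  TElem_closed (f := fun w => w i) isClosed_closure (continuous_apply i)
    (fun R s hR hs => show _ ∈ ML ρ from subset_closure ⟨R i, s i, hR.1 i, hs i, rfl⟩) hw

theorem mem_ml_iff {w : Teich ρ → ℝ} : w ∈ ML ρ ↔ (fun _ : Unit => w) ∈ WT ρ Unit := by
  refine ⟨fun hw => ?_, fun hw => wt_mem_ml hw ()⟩
  refine closure_minimal (t := (fun w (_ : Unit) => w) ⁻¹' WT ρ Unit) ?_
    (isClosed_closure.preimage (continuous_pi fun _ => continuous_id)) hw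
  rintro _ ⟨γ, s, hγ, hs, rfl⟩
  exact TElem_gen (multi_single hγ) fun _ => hs

theorem TElem_approx {S : Set (ι → Teich ρ → ℝ)} {w : ι → Teich ρ → ℝ}
    (h : ∀ (Z : Finset (Rep ρ)) (ε : ℝ), 0 < ε →
      ∃ v ∈ S, ∀ i, ∀ z ∈ Z, |v i z.cls - w i z.cls| ≤ ε) : w ∈ closure S := by
  classical
  choose v h1 h2 using fun p : Finset (Rep ρ) × ℕ => h p.1 (1 / ((p.2 : ℝ) + 1)) (by positivity)
  refine mem_closure_of_tendsto (f := v) (b := atTop) ?_ (Eventually.of_forall h1)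
  refine tendsto_pi_nhds.2 fun i => tendsto_pi_nhds.2 fun z => Metric.tendsto_nhds.2 fun ε hε => ?_
  obtain ⟨x, rfl⟩ := cls_surjective z
  obtain ⟨n, hn⟩ := exists_nat_one_div_lt hε
  filter_upwards [eventually_ge_atTop (({x}, n) : Finset (Rep ρ) × ℕ)] with p hp
  rw [Real.dist_eq]
  refine (h2 p i x (hp.1 (Finset.mem_singleton_self x))).trans_lt (lt_of_le_of_lt ?_ hn)
  exact Nat.one_div_le_one_div hp.2

theorem TElem_tw (hρ : Disc ρ) [Fintype ι] {Q : ι → Γ} (hQ : Multi ρ Q) {c : ι → ℝ}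
    (hc : ∀ l, 0 ≤ c l) : ∃ φ : ℕ → Γ ≃* Γ, (∀ n, IsMod ρ (φ n)) ∧
      (∀ n g, Hyp (ρ g) → (∀ l, inter ρ g (Q l) = 0) → IsConj g (φ n g)) ∧
      ∀ (z : Rep ρ) (g : Γ), Hyp (ρ g) →
        Tendsto (fun n : ℕ => tl (z.1 (φ n g)) / n) atTop
          (𝓝 (∑ l, c l * tl (z.1 (Q l)) * inter ρ g (Q l))) := by
  choose φ hφ using fun n : ℕ => exists_isTw hρ hQ fun l => (⌊c l * n⌋₊ : ℤ)
  refine ⟨φ, fun n => (hφ n).isMod hρ hQ, fun n g hg h0 => (hφ n).isConj hρ hQ hg h0,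
    fun z g hg => ?_⟩
  obtain ⟨C, hC⟩ := IsTw.abs_tl_sub_le hρ hQ z hg
  have h1 : Tendsto (fun n : ℕ => ∑ l, (⌊c l * n⌋₊ : ℝ) / n * tl (z.1 (Q l)) * inter ρ g (Q l))
      atTop (𝓝 (∑ l, c l * tl (z.1 (Q l)) * inter ρ g (Q l))) :=
    tendsto_finsetSum _ fun l _ => (((tendsto_nat_floor_mul_div_atTop (hc l)).comp
      tendsto_natCast_atTop_atTop).mul_const _).mul_const _
  refine h1.congr_dist (squeeze_zero (fun _ => dist_nonneg) (fun n => ?_)
    (tendsto_const_div_atTop_nhds_zero_nat C))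
  have h2 := hC _ _ (hφ n)
  simp only [Int.cast_natCast, Nat.abs_cast] at h2
  have e : ∑ l, (⌊c l * n⌋₊ : ℝ) / n * tl (z.1 (Q l)) * inter ρ g (Q l) =
      (∑ l, (⌊c l * n⌋₊ : ℝ) * tl (z.1 (Q l)) * inter ρ g (Q l)) / n := by
    rw [Finset.sum_div]
    exact Finset.sum_congr rfl fun l _ => by ring
  rw [dist_comm, Real.dist_eq, e, ← sub_div, abs_div, Nat.abs_cast]
  exact div_le_div_of_nonneg_right h2 (Nat.cast_nonneg n)

theorem TElem_twist (hρ : Disc ρ) [Finite ι] [DecidableEq ι] {Q Q' : ι → Γ} (hQ : Multi ρ Q)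
    (hQ' : Multi ρ Q') {i j : ι} (hij : i ≠ j) (he : ∀ l, l ≠ i → l ≠ j → Q' l = Q l)
    (h1 : inter ρ (Q' i) (Q i) ≠ 0) (h2 : inter ρ (Q' i) (Q j) ≠ 0)
    (h3 : inter ρ (Q' j) (Q i) = 0) (h4 : inter ρ (Q' j) (Q j) ≠ 0) {s : ι → ℝ}
    (hs : ∀ l, 0 ≤ s l) {t : ℝ} (ht : 0 ≤ t) :
    Function.update (fun l (z : Teich ρ) => s l * len z (Q l)) i
      (fun z => s i * len z (Q i) + t * (s j * len z (Q j))) ∈ WT ρ ι := by
  have := Fintype.ofFinite ι
  rcases eq_or_lt_of_le (mul_nonneg ht (hs j)) with h0 | h0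
  · simp only [← mul_assoc, ← h0, zero_mul, add_zero]
    rw [Function.update_eq_self i fun l (z : Teich ρ) => s l * len z (Q l)]
    exact TElem_gen hQ hs
  have m1 : (0 : ℝ) < inter ρ (Q' i) (Q i) := by exact_mod_cast Nat.pos_of_ne_zero h1
  have m2 : (0 : ℝ) < inter ρ (Q' i) (Q j) := by exact_mod_cast Nat.pos_of_ne_zero h2
  have m4 : (0 : ℝ) < inter ρ (Q' j) (Q j) := by exact_mod_cast Nat.pos_of_ne_zero h4
  set α := s i / inter ρ (Q' i) (Q i) with hα
  set β := t * s j / inter ρ (Q' i) (Q j) with hβ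
  have α0 : 0 ≤ α := div_nonneg (hs i) m1.le
  have β0 : 0 < β := div_pos h0 m2
  obtain ⟨φ, f1, f2, f3⟩ := TElem_tw hρ hQ
    (c := fun l => (if l = i then α else 0) + if l = j then β else 0) fun l => by
      have := β0.le
      positivity
  simp only [add_mul, ite_mul, zero_mul, Finset.sum_add_distrib, Finset.sum_ite_eq',
    Finset.mem_univ, if_true] at f3
  let u : ℕ → ι → ℝ := fun n l =>
    if l = i then 1 / n else if l = j then s j / (β * inter ρ (Q' j) (Q j)) / n else s l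
  refine isClosed_closure.mem_of_tendsto (b := atTop)
    (f := fun n l (z : Teich ρ) => u n l * len z (φ n (Q' l))) ?_
    (Eventually.of_forall fun n => TElem_gen ((f1 n).multi hQ') fun l => ?_)
  · refine tendsto_pi_nhds.2 fun l => tendsto_pi_nhds.2 fun z => ?_
    obtain ⟨x, rfl⟩ := cls_surjective z
    rcases eq_or_ne l i with rfl | hi
    · simp only [u, if_true, Function.update_self, len_cls]
      convert f3 x _ (hQ'.1 l).hyp using 2
      · ring
      · rw [hα, hβ]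
        field_simp
    · rw [Function.update_of_ne hi]
      rcases eq_or_ne l j with rfl | hj
      · simp only [u, if_neg hi, if_true, len_cls]
        convert (f3 x _ (hQ'.1 l).hyp).const_mul (s l / (β * inter ρ (Q' l) (Q l))) using 2
        · ring
        · rw [h3, Nat.cast_zero, mul_zero, zero_add]
          field_simp
      · simp only [u, if_neg hi, if_neg hj, len_cls, he l hi hj]
        refine tendsto_const_nhds.congr fun n => ?_
        rw [POs_tl (f2 n _ (hQ.1 l).hyp fun m =>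
          CTw_zero hρ hQ (hQ.sys hρ) (hQ.1 l).hyp (CTw_ax' l) m)]
  · have := hs j
    have := hs l
    simp only [u]
    split_ifs <;> positivity

theorem wt_add (hρ : Good ρ N) [Finite ι] [DecidableEq ι] {w : ι → Teich ρ → ℝ}
    (hw : w ∈ WT ρ ι) {i j : ι} (hij : i ≠ j) {t : ℝ} (ht : 0 ≤ t) :
    Function.update w i (fun z => w i z + t * w j z) ∈ WT ρ ι := by
  have hf : Continuous fun w : ι → Teich ρ → ℝ =>
      Function.update w i fun z => w i z + t * w j z :=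
    continuous_id.update i (by fun_prop)
  refine TElem_closed isClosed_closure hf (fun R s hR hs => ?_) hw
  obtain ⟨k, P, e, hP, hm, he, -⟩ := exists_isMax hρ hR
  have hk : 2 ≤ k := by
    have h1 := he.ne hij
    have h2 := (e i).2
    have h3 := (e j).2
    rw [ne_eq, Fin.ext_iff] at h1
    omega
  obtain ⟨i₀, j₀, γ₁, γ₂, p0, p1, p2, p3, p4, p5⟩ := exists_pent hρ hP hm hk
  obtain ⟨σ, hσ⟩ := Equiv.Perm.exists_extending_pair (f := fun b : Bool => cond b (e i) (e j))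
    (g := fun b : Bool => cond b i₀ j₀)
    (by rintro (_ | _) (_ | _) h <;> first | rfl | exact absurd h (he.ne hij) |
      exact absurd h (he.ne hij).symm)
    (by rintro (_ | _) (_ | _) h <;> first | rfl | exact absurd h p0 | exact absurd h p0.symm)
  have e1 : σ (e i) = i₀ := hσ true
  have e2 : σ (e j) = j₀ := hσ false
  have inj : Function.Injective (σ ∘ e) := σ.injective.comp he
  have hQ := hP.comp inj
  have hQ' := p1.comp inj
  refine closure_minimal (t := (fun w : ι → Teich ρ → ℝ =>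
    Function.update w i fun z => w i z + t * w j z) ⁻¹' WT ρ ι) Subset.rfl
    (isClosed_closure.preimage hf) (TElem_approx fun Z ε hε => ?_)
  obtain ⟨φ, u, hφ, hu, h⟩ := hρ.arrow hQ hR s Z ε hs hε
  refine ⟨fun l z => u l * len z (φ ((P ∘ σ ∘ e) l)), ?_, h⟩
  refine TElem_twist hρ.toDisc (hφ.multi hQ) (hφ.multi hQ') hij (fun l hi hj => ?_) ?_ ?_ ?_ ?_
    hu ht
  · have a1 : σ (e l) ≠ i₀ := e1 ▸ inj.ne hi
    have a2 : σ (e l) ≠ j₀ := e2 ▸ inj.ne hj
    simp only [Function.comp_apply, Function.update_of_ne a1, Function.update_of_ne a2]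
  all_goals
    simp only [Function.comp_apply, hφ.inter_eq, e1, e2, Function.update_of_ne p0,
      Function.update_self]
    assumption

theorem TElem_row0 (hρ : Good ρ N) [Finite ι] [DecidableEq ι] {w : ι → Teich ρ → ℝ}
    (hw : w ∈ WT ρ ι) (i : ι) {u : ι → ℝ} (hu : ∀ j, 0 ≤ u j) (S : Finset ι) (hi : i ∉ S) :
    Function.update w i (fun z => w i z + ∑ j ∈ S, u j * w j z) ∈ WT ρ ι := by
  induction S using Finset.induction_on with
  | empty => simpa using hw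
  | insert j S hj ih =>
    rw [Finset.mem_insert, not_or] at hi
    have h := wt_add hρ (ih hi.2) hi.1 (hu j)
    rw [Function.update_idem, Function.update_self, Function.update_of_ne (Ne.symm hi.1)] at h
    convert h using 3 with z
    rw [Finset.sum_insert hj]
    ring

theorem TElem_row (hρ : Good ρ N) [Fintype ι] [DecidableEq ι] {w : ι → Teich ρ → ℝ}
    (hw : w ∈ WT ρ ι) (i : ι) {u : ι → ℝ} (hu : ∀ j, 0 ≤ u j) :
    Function.update w i (fun z => ∑ j, u j * w j z) ∈ WT ρ ι := by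
  have h := TElem_row0 hρ (wt_smul hw (c := fun l => if l = i then u i else 1) fun l => by
    have := hu i
    positivity) i hu (Finset.univ.erase i) (Finset.notMem_erase i _)
  convert h using 1
  funext l z
  rcases eq_or_ne l i with rfl | hl
  · simp only [Function.update_self, if_true]
    rw [← Finset.add_sum_erase _ _ (Finset.mem_univ l)]
    congr 1
    exact Finset.sum_congr rfl fun j hj => by rw [if_neg (Finset.ne_of_mem_erase hj), one_mul]
  · simp only [Function.update_of_ne hl, if_neg hl, one_mul]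

theorem wt_sum (hρ : Good ρ N) (hs : ∃ g, Simple ρ g) [Fintype ι] {w : ι → Teich ρ → ℝ}
    (hw : w ∈ WT ρ ι) {u : ι → ℝ} (hu : ∀ i, 0 ≤ u i) : (fun z => ∑ j, u j * w j z) ∈ ML ρ := by
  classical
  rcases isEmpty_or_nonempty ι with h | ⟨⟨i⟩⟩
  · obtain ⟨g, hg⟩ := hs
    exact subset_closure ⟨g, 0, hg, le_rfl, by simp⟩
  · have h := wt_mem_ml (TElem_row hρ hw i hu) i
    rwa [Function.update_self] at h

theorem TElem_step (hρ : Good ρ N) [Fintype ι] [DecidableEq ι] {w : ι → Teich ρ → ℝ}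
    {M : ι → ι → ℝ} (h0 : ∀ i j, 0 ≤ M i j) {S : Finset ι} {a : ι} (ha : ∀ j ∈ S, M a j = 0)
    (h : (fun i z => if i ∈ S then ∑ j, M i j * w j z else w i z) ∈ WT ρ ι) :
    (fun i z => if i ∈ insert a S then ∑ j, M i j * w j z else w i z) ∈ WT ρ ι := by
  convert TElem_row hρ h a (h0 a) using 1
  funext l z
  rcases eq_or_ne l a with rfl | hl
  · simp only [Function.update_self, Finset.mem_insert_self, if_true]
    refine Finset.sum_congr rfl fun j _ => ?_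
    split_ifs with hj
    · rw [ha j hj, zero_mul, zero_mul]
    · rfl
  · simp only [Function.update_of_ne hl, Finset.mem_insert, hl, false_or]

theorem TElem_col (hρ : Good ρ N) [Finite ι] [DecidableEq ι] {w : ι → Teich ρ → ℝ}
    (hw : w ∈ WT ρ ι) (k : ι) {u : ι → ℝ} (hu : ∀ j, 0 ≤ u j) (S : Finset ι) (hk : k ∉ S) :
    (fun i z => if i ∈ S then w i z + u i * w k z else w i z) ∈ WT ρ ι := by
  induction S using Finset.induction_on with
  | empty => simpa using hw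
  | insert a S ha ih =>
    rw [Finset.mem_insert, not_or] at hk
    convert wt_add hρ (ih hk.2) (Ne.symm hk.1) (hu a) using 1
    funext l z
    rcases eq_or_ne l a with rfl | hl
    · simp only [Function.update_self, Finset.mem_insert_self, if_true, if_neg ha, if_neg hk.2]
    · simp only [Function.update_of_ne hl, Finset.mem_insert, hl, false_or]

theorem TElem_rank (hρ : Good ρ N) [Finite ι] [DecidableEq ι] {d : ℝ} (hd : 0 < d) {u : ι → ℝ}
    (hu : ∀ i, 0 ≤ u i) (S : Finset ι) : ∀ w ∈ WT ρ ι, ∀ c : ι → ℝ, (∀ i, 0 ≤ c i) →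
      (fun i z => if i ∈ S then d * w i z + c i * ∑ j ∈ S, u j * w j z else w i z) ∈ WT ρ ι := by
  induction S using Finset.induction_on with
  | empty => exact fun w hw c _ => by simpa using hw
  | insert k S hk ih =>
    intro w hw c hc
    have hD : 0 < d + c k * u k := add_pos_of_pos_of_nonneg hd (mul_nonneg (hc k) (hu k))
    have h1 := TElem_row0 hρ (wt_smul hw (c := fun l => if l = k then d + c k * u k else 1)
      fun l => by positivity) k (u := fun j => c k * u j) (fun j => mul_nonneg (hc k) (hu j)) S hk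
    have h2 := ih _ h1 (fun i => c i * d / (d + c k * u k)) fun i => by
      have := hc i
      positivity
    have h3 := TElem_col hρ h2 k (u := fun i => c i * u k / (d + c k * u k))
      (fun i => div_nonneg (mul_nonneg (hc i) (hu k)) hD.le) S hk
    have n1 : ∀ j ∈ S, j ≠ k := fun j hj e => hk (e ▸ hj)
    convert h3 using 1
    funext l z
    have e1 : ∑ j ∈ S, c k * u j * ((if j = k then d + c k * u k else 1) * w j z) =
        c k * ∑ j ∈ S, u j * w j z := by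
      rw [Finset.mul_sum]
      exact Finset.sum_congr rfl fun j hj => by rw [if_neg (n1 j hj)]; ring
    have e2 : ∀ f : Teich ρ → ℝ, ∑ j ∈ S, u j * Function.update
        (fun i z => (if i = k then d + c k * u k else 1) * w i z) k f j z =
          ∑ j ∈ S, u j * w j z := fun f =>
      Finset.sum_congr rfl fun j hj => by
        rw [Function.update_of_ne (n1 j hj), if_neg (n1 j hj), one_mul]
    rw [Finset.sum_insert hk]
    simp only [if_neg hk, Function.update_self, if_true, e1, e2]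
    by_cases hl : l ∈ S
    · simp only [Finset.mem_insert, hl, or_true, if_true, Function.update_of_ne (n1 l hl),
        if_neg (n1 l hl), one_mul]
      have hD' := hD.ne'
      generalize ∑ j ∈ S, u j * w j z = p
      rw [div_mul_eq_mul_div, div_mul_eq_mul_div, add_assoc, ← add_div, add_right_inj,
        eq_div_iff hD']
      ring
    · rcases eq_or_ne l k with rfl | hlk
      · simp only [Finset.mem_insert_self, if_true, if_neg hl, Function.update_self, e1]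
        ring
      · simp only [Finset.mem_insert, hl, hlk, or_false, if_false, Function.update_of_ne hlk,
          one_mul]

theorem wt_rank_one (hρ : Good ρ N) [Fintype ι] {w : ι → Teich ρ → ℝ} (hw : w ∈ WT ρ ι) {d : ℝ}
    (hd : 0 ≤ d) {c u : ι → ℝ} (hc : ∀ i, 0 ≤ c i) (hu : ∀ i, 0 ≤ u i) :
    (fun i z => d * w i z + c i * ∑ j, u j * w j z) ∈ WT ρ ι := by
  classical
  have hf : Continuous fun (d : ℝ) (i : ι) (z : Teich ρ) =>
      d * w i z + c i * ∑ j, u j * w j z := by fun_prop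
  refine isClosed_closure.mem_of_tendsto (b := 𝓝[>] d)
    (hf.continuousAt.tendsto.mono_left nhdsWithin_le_nhds) ?_
  filter_upwards [self_mem_nhdsWithin] with e he
  have h := TElem_rank hρ (hd.trans_lt he) hu Finset.univ w hw c hc
  simpa only [Finset.mem_univ, if_true] using h

/-- Triangular matrices with nonnegative entries. -/
theorem wt_tri (hρ : Good ρ N) {k : ℕ} {w : Fin k → Teich ρ → ℝ} (hw : w ∈ WT ρ (Fin k))
    {M : Matrix (Fin k) (Fin k) ℝ} (h0 : ∀ i j, 0 ≤ M i j)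
    (hM : (∀ i j, i < j → M i j = 0) ∨ ∀ i j, j < i → M i j = 0) :
    (fun i z => ∑ j, M i j * w j z) ∈ WT ρ (Fin k) := by
  have h : ∀ S : Finset (Fin k),
      (fun i z => if i ∈ S then ∑ j, M i j * w j z else w i z) ∈ WT ρ (Fin k) := by
    intro S
    rcases hM with hM | hM
    · induction S using Finset.induction_on_min with
      | empty => simpa using hw
      | insert a S ha ih => exact TElem_step hρ h0 (fun j hj => hM a j (ha j hj)) ih
    · induction S using Finset.induction_on_max with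
      | empty => simpa using hw
      | insert a S ha ih => exact TElem_step hρ h0 (fun j hj => hM a j (ha j hj)) ih
  simpa only [Finset.mem_univ, if_true] using h Finset.univ

end HRT
end

-- merged part: Pool.Agent.Work.MP_35beee_gt.MLim
section
/-!
Compactness: markings with bounded lengths of simple curves converge.

Plan. `exists_lim_circ`: let `f ξ` be the limit along `U`. If `a ≠ b` and `f a = f b`, two of the
points `p`, `q`, `r` differ from `f a`, call them `x`, `y`; `a`, `b`, `x`, `y` are distinct. If `a`,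
`b` are separated by `x`, `y` the function `crs (h a) x (h b) y` tends to `-∞` (`crs_pos`); otherwise
`crs (h b) x y (h a)` (for the order `a`, `b`, `x`, `y`) tends to `+∞`. So `f` is injective, and
`det3 (f a) (f b) (f c) ≥ 0` in the limit, `ccw_total`. `exists_lim_hom`: `σ n g • p = h n (ρ g • p)`
and so on, `exists_bound_of_triple`, `isCompact_isom_ball`. `exists_lim_rep`: normalise by
`exists_isom_triple` (`GTh_conj`, `isMark_conj`, `cls_eq_iff`; `Bdd` for the normalised family with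
`c = 1`, `le_of_isCompact`, `isCompact_cbox`, `pull_box`), `surjective_of_equivariant`
(`continuous_tl`, `IsMark.par`), `exists_homeo_of_ccw`, `Rep.tendsto_iff`, `continuous_cls`.
-/

namespace HRT

open Set Filter Topology Real

variable {Γ : Type*} [Group Γ] {ρ : Γ →* Isom} {N : ℝ → ℝ} {I : Type} {U : Ultrafilter I}

theorem MLim_B {a b : I → Circ} {x y : Circ} (ha : Tendsto a U (𝓝 x)) (hb : Tendsto b U (𝓝 y)) :
    Tendsto (fun n => -B (a n).1 (b n).1) U (𝓝 (-B x.1 y.1)) :=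
  (((GCirc_val.tendsto x).comp ha).B' ((GCirc_val.tendsto y).comp hb)).neg

theorem MLim_not {a b : I → Circ} {x y z : Circ} (ha : Tendsto a U (𝓝 z)) (hb : Tendsto b U (𝓝 z))
    (hx : x ≠ z) (hy : z ≠ y) (hab : ∀ n, b n ≠ a n) {C : ℝ} :
    ¬ ∀ᶠ n in U, crs (b n) x y (a n) ≤ C := fun h => by
  have h1 := (MLim_B hb (tendsto_const_nhds (x := y))).log (neg_pos.2 (B_circ_neg hy)).ne'
  have h2 := (MLim_B (tendsto_const_nhds (x := x)) ha).log (neg_pos.2 (B_circ_neg hx)).ne'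
  have h3 := (((h1.add h2).sub_const (log (-B x.1 y.1))).sub_const (2 * C)).rexp
  have h4 := le_of_tendsto_of_tendsto h3 (MLim_B hb ha) (h.mono fun n hn => by
    refine (le_log_iff_exp_le (neg_pos.2 (B_circ_neg (hab n)))).1 ?_
    unfold crs at hn
    linarith only [hn])
  rw [z.2.1, neg_zero] at h4
  exact h4.not_gt (exp_pos _)

theorem exists_lim_circ {h : I → Circ ≃ₜ Circ} (hh : ∀ n, Ori (h n)) {p q r : Circ}
    (h0 : ccw p q r) (h1 : ∀ n, h n p = p ∧ h n q = q ∧ h n r = r)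
    (hb : ∀ a b c d, ccw a b c → ccw a c d →
      ∃ C, ∀ᶠ n in U, crs (h n a) (h n b) (h n c) (h n d) ≤ C) :
    ∃ f : Circ → Circ, (∀ ξ, Tendsto (fun n => h n ξ) U (𝓝 (f ξ))) ∧
      ∀ a b c, ccw a b c → ccw (f a) (f b) (f c) := by
  choose f hf using fun ξ => (isCompact_univ (X := Circ)).ultrafilter_le_nhds'
    (U.map fun n => h n ξ) univ_mem
  have hf' : ∀ ξ, Tendsto (fun n => h n ξ) U (𝓝 (f ξ)) := fun ξ => (hf ξ).2
  have key : ∀ a b x y, (∀ n, h n x = x ∧ h n y = y) → f a = f b → ccw (f a) x y → ccw a b x →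
      ccw a x y → False := fun a b x y hxy e h2 h3 h4 => by
    obtain ⟨C, hC⟩ := hb b x y a (h3.trans' h4) (h3.trans h4).cyc
    simp only [fun n => (hxy n).1, fun n => (hxy n).2] at hC
    exact MLim_not (hf' a) (e ▸ hf' b) h2.ne12.symm h2.ne13
      (fun n => (h n).injective.ne h3.ne12.symm) hC
  have hi : Function.Injective f := fun a b e => by
    by_contra hab
    obtain ⟨x, y, hxy, h2⟩ : ∃ x y, (∀ n, h n x = x ∧ h n y = y) ∧ ccw (f a) x y := by
      by_cases e1 : f a = p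
      · exact ⟨q, r, fun n => (h1 n).2, e1 ▸ h0⟩
      by_cases e2 : f a = q
      · exact ⟨r, p, fun n => ⟨(h1 n).2.2, (h1 n).1⟩, e2 ▸ h0.cyc⟩
      rcases ccw_total e1 h0.ne12 e2 with H | H
      · exact ⟨p, q, fun n => ⟨(h1 n).1, (h1 n).2.1⟩, H⟩
      · exact ⟨q, p, fun n => ⟨(h1 n).2.1, (h1 n).1⟩, H⟩
    have h3 : ∀ c, f c = f a → ccw c x y := fun c hc => by
      obtain ⟨n, hn⟩ := (eventually_ccw (hf' c) tendsto_const_nhds tendsto_const_nhds
        (hc ▸ h2)).exists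
      rw [← (hh n).ccw_iff, (hxy n).1, (hxy n).2]
      exact hn
    rcases ccw_total hab (h3 b e.symm).ne12 (h3 a rfl).ne12 with H | H
    · exact key a b x y hxy e h2 H (h3 a rfl)
    · exact key b a x y hxy e.symm (e ▸ h2) H.cyc.cyc (h3 b e.symm)
  refine ⟨f, hf', fun a b c H => (ccw_total (hi.ne H.ne12) (hi.ne H.ne23) (hi.ne H.ne13)).resolve_right
    fun H' => ?_⟩
  obtain ⟨n, hn⟩ := (eventually_ccw (hf' a) (hf' c) (hf' b) H').exists
  exact H.asymm (((hh n).ccw_iff _ _ _).1 hn)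

theorem exists_lim_hom {σ : I → Γ →* Isom} {h : I → Circ ≃ₜ Circ}
    (hm : ∀ n, IsMark ρ (σ n) (h n)) {p q r : Circ} (h0 : ccw p q r)
    (h1 : ∀ n, h n p = p ∧ h n q = q ∧ h n r = r) {f : Circ → Circ}
    (hf : ∀ ξ, Tendsto (fun n => h n ξ) U (𝓝 (f ξ))) (hi : Function.Injective f) :
    ∃ τ : Γ →* Isom, (∀ g, Tendsto (fun n => σ n g) U (𝓝 (τ g))) ∧
      ∀ g ξ, f (ρ g • ξ) = τ g • f ξ := by
  have key : ∀ g, ∃ A, Tendsto (fun n => σ n g) U (𝓝 A) := fun g => by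
    have t : ∀ x, (∀ n, h n x = x) → Tendsto (fun n => σ n g • x) U (𝓝 (f (ρ g • x))) :=
      fun x hx => (hf _).congr fun n => by rw [(hm n).2, hx n]
    have tp := t p fun n => (h1 n).1
    have tq := t q fun n => (h1 n).2.1
    have tr := t r fun n => (h1 n).2.2
    have H := (ccw_smul_iff (ρ g)).2 h0
    obtain ⟨δ, hδ, h2⟩ := exists_between (lt_min (lt_min (dist_pos.2 (hi.ne H.ne12))
      (dist_pos.2 (hi.ne H.ne23))) (dist_pos.2 (hi.ne H.ne13)))
    simp only [lt_min_iff] at h2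
    obtain ⟨R, hR⟩ := exists_bound_of_triple h0.ne12 h0.ne23 h0.ne13 hδ
    obtain ⟨A, -, hA⟩ := (isCompact_isom_ball o o R).ultrafilter_le_nhds' (U.map fun n => σ n g) (by
      rw [Ultrafilter.mem_map]
      filter_upwards [(tp.dist tq).eventually_const_le h2.1.1,
        (tq.dist tr).eventually_const_le h2.1.2, (tp.dist tr).eventually_const_le h2.2]
        with n a b c using hR _ a b c)
    exact ⟨A, hA⟩
  choose τ hτ using key
  refine ⟨MonoidHom.mk' τ fun a b => tendsto_nhds_unique (hτ (a * b)) ?_, hτ, fun g ξ =>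
    tendsto_nhds_unique (hf (ρ g • ξ)) ?_⟩
  · simpa only [map_mul] using (hτ a).mul (hτ b)
  · exact ((hτ g).smul (hf ξ)).congr fun n => ((hm n).2 g ξ).symm

theorem exists_lim_rep (hρ : Good ρ N) (hc : Cover ρ (Empty.elim : Empty → Γ)) (x : I → Rep ρ)
    (hx : ∀ β, Simple ρ β → ∃ C, ∀ᶠ n in U, tl ((x n).1 β) ≤ C) :
    ∃ y : Rep ρ, Tendsto (fun n => (x n).cls) U (𝓝 y.cls) := by
  obtain ⟨p, q, r, h0⟩ : ∃ p q r, ccw p q r := by
    obtain ⟨φ, -, -, -, h, -⟩ := exists_param (toCirc 0)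
    exact ⟨_, _, _, h 0 1 2 one_pos one_lt_two⟩
  choose A hA using fun n => exists_isom_triple ((x n).2.choose_spec.1 p q r h0) h0
  have hm : ∀ n, IsMark ρ (GTh_conj (A n) (x n)).1
      ((x n).2.choose.trans (Homeomorph.smul (A n))) := fun n =>
    (x n).2.choose_spec.trans (isMark_conj _ (A n))
  have hd : Bdd ρ (Empty.elim : Empty → Γ) U (fun _ => 1) _ _ :=
    ⟨hm, Eventually.of_forall fun _ => le_rfl, fun β hβ _ => (hx β hβ).imp fun C hC =>
      hC.mono fun n hn => by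
        rw [mul_one]
        exact (tl_conj (A n) _).trans_le hn⟩
  obtain ⟨f, hf, hf'⟩ := exists_lim_circ (U := U) (fun n => (hm n).ori) h0 hA fun a b c d h1 h2 => by
    obtain ⟨C, hC⟩ := hd.le_of_isCompact hρ.toDisc ⟨fun i => i.elim, fun i => i.elim⟩ hc
      (isCompact_cbox h1 h2) fun l _ ⟨i, _⟩ => i.elim
    refine ⟨max C 0, hC.mono fun n hn => ?_⟩
    rw [resc, inv_one, ENNReal.ofReal_one, one_smul] at hn
    have h3 := (MeasureTheory.measure_mono (s := box a b c d)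
      fun l hl => And.intro (ccw.asymm hl.1) (ccw.asymm hl.2)).trans hn
    rw [pull_box (hm n).ori h1 h2] at h3
    exact le_max_iff.2 (ENNReal.ofReal_le_ofReal_iff'.1 h3)
  have hi : Function.Injective f := fun a b e => by
    by_contra hab
    obtain ⟨φ, -, h1, h2, -⟩ := exists_param a
    obtain ⟨t, rfl⟩ : b ∈ range φ := h1 ▸ Ne.symm hab
    exact (hf' _ _ _ ((h2 t (t + 1)).2 (lt_add_one t))).ne12 e
  obtain ⟨τ, hτ, he⟩ := exists_lim_hom hm h0 hA hf hi
  obtain ⟨k, hk⟩ := exists_homeo_of_ccw (surjective_of_equivariant hf' he hρ fun u hu =>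
    tendsto_nhds_unique ((continuous_tl.tendsto _).comp (hτ u))
      (tendsto_const_nhds.congr fun n => ((hm n).par hu).1.2.symm)) hf'
  refine ⟨⟨τ, k, fun a b c => ?_, fun g ξ => ?_⟩, ((continuous_cls.tendsto _).comp
    ((Rep.tendsto_iff (s := fun n => GTh_conj (A n) (x n))).2 hτ)).congr fun n =>
      (cls_eq_iff.2 ⟨A n, fun _ => rfl⟩).symm⟩
  · simpa only [hk] using hf' a b c
  · simpa only [hk] using he g ξ

end HRT
end

-- merged part: Pool.Agent.Work.MP_35beee_gt.GDecomp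
section
/-!
Finite ergodic decomposition of a measured lamination.

Plan. `eq_smul_of_erg`: the Radon-Nikodym derivative is almost everywhere invariant (uniqueness of
`rnDeriv`, `Measure.rnDeriv` of the images under a measurable equivalence); its superlevel sets are
null or conull (`Cur.exists_inv`), so it is almost everywhere constant, and finite.
`exists_erg`: if `E j`, `j ∈ Fin n`, are disjoint invariant sets of positive measure then
`exists_LM` for the restrictions (with `σ = Empty`) and `exists_multi_bound` give `n ≤ ξ`; take a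
family with the largest `n`: its members cannot be split, and the complement of the union is null.
`exists_atoms`: among the multicurves all of whose axes are atoms in `Λ` take one with the largest
number of components; by `Cur.atom` and `multi_iff` every atom in `Λ` is a lift of it.
`exists_decomp`: `At = lifts ρ S` is countable and invariant; on the lifts of `S s` an invariant
measure is a multiple of the counting measure; off `At` use `exists_erg` and `eq_smul_of_erg` for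
the restrictions of `ν`.
-/

namespace HRT

open Set Filter Topology Real MeasureTheory

variable {Γ : Type*} [Group Γ] {ρ : Γ →* Isom} {N : ℝ → ℝ} {Λ : Set Geo} {Θ μ ν : Measure Geo}

theorem eq_smul_of_erg (hρ : Disc ρ) (hμ : Cur ρ μ) (hν : Cur ρ ν) (he : Erg ρ μ) (h : ν ≪ μ) :
    ∃ a : NNReal, ν = a • μ := by
  have := hρ.countable
  have := hμ.sigmaFinite
  have := hν.sigmaFinite
  have hf : Measurable (ν.rnDeriv μ) := Measure.measurable_rnDeriv ν μ
  have key : ∀ φ : Geo → Geo, MeasurableEmbedding φ → MeasurePreserving φ μ μ →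
      MeasurePreserving φ ν ν → ∀ U : Set ENNReal,
      φ ⁻¹' (ν.rnDeriv μ ⁻¹' U) =ᵐ[μ] ν.rnDeriv μ ⁻¹' U := by
    intro φ h1 h2 h3 U
    have h4 := h1.rnDeriv_map ν μ
    rw [h2.map_eq, h3.map_eq] at h4
    refine (h4.mono fun x hx => ?_).set_eq
    simp only [mem_preimage] at hx ⊢
    rw [hx]
  obtain ⟨c, hc⟩ : ∃ c, ν.rnDeriv μ =ᵐ[μ] Function.const Geo c := by
    refine Filter.exists_eventuallyEq_const_of_forall_separating MeasurableSet fun U hU => ?_
    obtain ⟨E, hE, hE'⟩ := hμ.exists_inv (hf hU)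
      (fun g => key _ (Homeomorph.smul (ρ g)).measurableEmbedding (hμ.smul g) (hν.smul g) U)
      (key _ (MeasurableEquiv.ofInvolutive Geo.rev Geo.rev_rev measurable_rev).measurableEmbedding
        hμ.rev hν.rev U)
    rcases he E hE with h1 | h1
    · rw [measure_congr hE'] at h1
      exact Or.inr (measure_eq_zero_iff_ae_notMem.1 h1)
    · rw [measure_congr hE'.compl] at h1
      exact Or.inl h1
  by_cases hμ0 : μ = 0
  · subst hμ0
    exact ⟨0, by rw [Measure.absolutelyContinuous_zero_iff.1 h, smul_zero]⟩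
  have : (ae μ).NeBot := ae_neBot.2 hμ0
  obtain ⟨x, h1, h2⟩ := ((Measure.rnDeriv_lt_top ν μ).and hc).exists
  rw [h2] at h1
  refine ⟨c.toNNReal, ?_⟩
  rw [ENNReal.smul_def, ENNReal.coe_toNNReal (a := c) h1.ne, ← withDensity_const,
    ← Measure.withDensity_rnDeriv_eq ν μ h]
  exact withDensity_congr_ae hc

theorem GDecomp_max (p : ℕ → Prop) (h0 : p 0) (ξ : ℕ) (h : ∀ n, p n → n ≤ ξ) :
    ∃ n, p n ∧ ¬ p (n + 1) := by
  by_contra hc
  have h1 : ∀ n, p n := fun n => by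
    induction n with
    | zero => exact h0
    | succ n ih =>
      by_contra hn
      exact hc ⟨n, ih, hn⟩
  have := h (ξ + 1) (h1 _)
  omega

theorem GDecomp_sing {E F : Set Geo} (hF : MeasurableSet F) (h : Disjoint E F) :
    Θ.restrict E ⟂ₘ Θ.restrict F := by
  refine ⟨F, hF, ?_, ?_⟩
  · rw [Measure.restrict_apply hF, h.symm.inter_eq, measure_empty]
  · rw [Measure.restrict_apply hF.compl, compl_inter_self, measure_empty]

theorem GDecomp_bound (hρ : Good ρ N) (hΛ : Lam ρ Λ) (hΘ : Cur ρ Θ) [NullSingletonClass Θ]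
    (h0 : Θ Λᶜ = 0) : ∃ ξ : ℕ, ∀ (n : ℕ) (E : Fin n → Set Geo), (∀ j, InvS ρ (E j) ∧ Θ (E j) ≠ 0) →
      (∀ i j, i ≠ j → Disjoint (E i) (E j)) → n ≤ ξ := by
  obtain ⟨ξ, hξ⟩ := hρ.exists_multi_bound
  refine ⟨ξ, fun n E h1 h2 => ?_⟩
  obtain ⟨g, hg, -⟩ := exists_LM (μ := fun j => Θ.restrict (E j)) hρ hΛ
    (fun j => hΘ.restrict (h1 j).1) (fun j => inferInstance)
    (fun j => le_antisymm ((Measure.restrict_le_self _).trans h0.le) bot_le)
    (fun j h => (h1 j).2 (Measure.restrict_eq_zero.1 h))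
    (fun i j hij => GDecomp_sing (h1 j).1.meas (h2 i j hij)) (σ := Empty) (S := Empty.elim)
    ⟨fun i => i.elim, fun i => i.elim⟩ (fun i => i.elim) ∅ (fun f hf => by simp at hf) one_pos
  simpa using hξ _ _ hg

theorem GDecomp_ext {n : ℕ} {E : Fin n → Set Geo} (h1 : ∀ j, InvS ρ (E j))
    (h2 : ∀ i j, i ≠ j → Disjoint (E i) (E j)) {G : Set Geo} (hG : InvS ρ G) (hG0 : Θ G ≠ 0)
    (h3 : ∀ j, Θ (E j ∩ Gᶜ) ≠ 0) : ∃ E' : Fin (n + 1) → Set Geo,
      (∀ j, InvS ρ (E' j) ∧ Θ (E' j) ≠ 0) ∧ ∀ i j, i ≠ j → Disjoint (E' i) (E' j) := by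
  refine ⟨Fin.cons G fun j => E j ∩ Gᶜ, fun j => ?_, fun i j => ?_⟩
  · refine Fin.cases ?_ (fun j => ?_) j
    · exact ⟨hG, hG0⟩
    · exact ⟨(h1 j).inter hG.compl, h3 j⟩
  · refine Fin.cases ?_ (fun i => ?_) i <;> refine Fin.cases ?_ (fun j => ?_) j
    · exact fun h => absurd rfl h
    · exact fun _ => disjoint_compl_right.mono_right inter_subset_right
    · exact fun _ => disjoint_compl_left.mono_left inter_subset_right
    · exact fun h => (h2 i j fun h' => h (by rw [h'])).mono inter_subset_left inter_subset_left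

theorem exists_erg (hρ : Good ρ N) (hΛ : Lam ρ Λ) (hΘ : Cur ρ Θ) [NullSingletonClass Θ]
    (h0 : Θ Λᶜ = 0) : ∃ (n : ℕ) (E : Fin n → Set Geo),
      (∀ j, InvS ρ (E j) ∧ Θ (E j) ≠ 0 ∧ Erg ρ (Θ.restrict (E j))) ∧
      (∀ i j, i ≠ j → Disjoint (E i) (E j)) ∧ Θ (⋃ j, E j)ᶜ = 0 := by
  obtain ⟨ξ, hξ⟩ := GDecomp_bound hρ hΛ hΘ h0
  obtain ⟨n, ⟨E, h1, h2⟩, hn⟩ := GDecomp_max (fun n => ∃ E : Fin n → Set Geo,
    (∀ j, InvS ρ (E j) ∧ Θ (E j) ≠ 0) ∧ ∀ i j, i ≠ j → Disjoint (E i) (E j))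
    ⟨Fin.elim0, fun i => i.elim0, fun i => i.elim0⟩ ξ fun n ⟨E, h1, h2⟩ => hξ n E h1 h2
  refine ⟨n, E, fun j => ⟨(h1 j).1, (h1 j).2, fun F hF => ?_⟩, h2, ?_⟩
  · by_contra hc
    rw [not_or, Measure.restrict_apply hF.meas, Measure.restrict_apply hF.meas.compl] at hc
    refine hn (GDecomp_ext (fun j => (h1 j).1) h2 (hF.inter (h1 j).1) hc.1 fun i h => ?_)
    by_cases hij : i = j
    · subst hij
      refine hc.2 (measure_mono_null ?_ h)
      exact fun l hl => ⟨hl.2, fun h' => hl.1 h'.1⟩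
    · refine (h1 i).2 (measure_mono_null ?_ h)
      exact fun l hl => ⟨hl, fun h' => disjoint_left.1 (h2 i j hij) hl h'.2⟩
  · by_contra hc
    refine hn (GDecomp_ext (fun j => (h1 j).1) h2 (InvS.iUnion fun j => (h1 j).1).compl hc
      fun i h => ?_)
    refine (h1 i).2 (measure_mono_null ?_ h)
    exact fun l hl => ⟨hl, fun h' => h' (mem_iUnion.2 ⟨i, hl⟩)⟩

theorem exists_atoms (hρ : Good ρ N) (hΛ : Lam ρ Λ) (hΘ : Cur ρ Θ) :
    ∃ (k : ℕ) (S : Fin k → Γ), Multi ρ S ∧ (∀ s, ax (ρ (S s)) ∈ Λ ∧ Θ {ax (ρ (S s))} ≠ 0) ∧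
      ∀ l ∈ Λ, Θ {l} ≠ 0 → l ∈ lifts ρ S := by
  obtain ⟨ξ, hξ⟩ := hρ.exists_multi_bound
  obtain ⟨k, ⟨S, h1, h2⟩, hk⟩ := GDecomp_max (fun k => ∃ S : Fin k → Γ, Multi ρ S ∧
    ∀ s, ax (ρ (S s)) ∈ Λ ∧ Θ {ax (ρ (S s))} ≠ 0)
    ⟨Fin.elim0, ⟨fun i => i.elim0, fun i => i.elim0⟩, fun i => i.elim0⟩ ξ
    fun k ⟨S, h1, _⟩ => by simpa using hξ _ S h1
  refine ⟨k, S, h1, h2, fun l hl hl0 => ?_⟩
  by_contra hc
  obtain ⟨s, hs, rfl⟩ := hΘ.atom hρ.toDisc hΛ hl hl0
  have h3 : ∀ i : Fin (k + 1), ax (ρ ((Fin.cons s S : Fin (k + 1) → Γ) i)) ∈ Λ ∧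
      Θ {ax (ρ ((Fin.cons s S : Fin (k + 1) → Γ) i))} ≠ 0 := fun i =>
    Fin.cases ⟨hl, hl0⟩ (fun i => h2 i) i
  have h4 : ∀ (g : Γ) (l : Geo), l ∈ lifts ρ S → ρ g • ax (ρ s) ≠ l := by
    intro g l h5 h6
    have := smul_mem_lifts g⁻¹ h5
    rw [← h6, map_inv, inv_smul_smul] at this
    exact hc this
  refine hk ⟨Fin.cons s S, (multi_iff hρ.toDisc).2 ⟨fun i => Fin.cases hs (fun i => h1.1 i) i,
    fun i j hij g => ⟨hΛ.nc _ (h3 i).1 _ (hΛ.smul g _ (h3 j).1), ?_⟩⟩, h3⟩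
  revert hij
  refine Fin.cases ?_ (fun i => ?_) i <;> refine Fin.cases ?_ (fun j => ?_) j
  · exact fun h => absurd rfl h
  · exact fun _ => ⟨fun h => hc ⟨j, g, Or.inl h.symm⟩,
      fun h => hc ⟨j, g, Or.inr (congrArg Geo.rev h).symm⟩⟩
  · exact fun _ => ⟨h4 g _ (ax_mem_lifts i), h4 g _ (rev_mem_lifts (ax_mem_lifts i))⟩
  · exact fun h => (((multi_iff hρ.toDisc).1 h1).2 i j (fun h' => h (by rw [h'])) g).2

theorem GDecomp_invS {ι : Type} [Finite ι] (hρ : Disc ρ) (S : ι → Γ) : InvS ρ (lifts ρ S) :=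
  ⟨(countable_lifts hρ).measurableSet, fun g _ hl => smul_mem_lifts g hl,
    fun _ hl => rev_mem_lifts hl⟩

theorem GDecomp_tsum (m : Measure Geo) {t : Set Geo} (ht : t.Countable) :
    m t = ∑' a : t, m {(a : Geo)} := by
  have := lintegral_countable (μ := m) (fun _ => 1) ht
  simpa using this

theorem GDecomp_smul (hν : Cur ρ ν) (g : Γ) (l : Geo) : ν {ρ g • l} = ν {l} := by
  rw [← (hν.smul g).measure_preimage (measurableSet_singleton _).nullMeasurableSet]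
  congr 1
  ext m
  simp

theorem GDecomp_rev (hν : Cur ρ ν) (l : Geo) : ν {l.rev} = ν {l} := by
  rw [← hν.rev.measure_preimage (measurableSet_singleton _).nullMeasurableSet]
  congr 1
  ext m
  exact ⟨fun h => GSys_rev_inj h, fun h => congrArg Geo.rev h⟩

theorem Cur.restrict_lifts (hρ : Disc ρ) (hν : Cur ρ ν) {s : Γ} (hs : Hyp (ρ s)) :
    ν.restrict (lifts ρ fun _ : Unit => s) = (ν {ax (ρ s)}).toNNReal • cnt ρ s := by
  have hc : (lifts ρ fun _ : Unit => s).Countable := countable_lifts hρ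
  have := hν.fin
  have h1 : ν {ax (ρ s)} ≠ ⊤ := isCompact_singleton.measure_lt_top.ne
  ext t ht
  rw [cnt, ← Measure.restrict_smul, Measure.restrict_apply ht, Measure.restrict_apply ht,
    GDecomp_tsum _ (hc.mono inter_subset_right), GDecomp_tsum _ (hc.mono inter_subset_right)]
  refine tsum_congr fun a => ?_
  rw [Measure.smul_apply, Measure.count_singleton, ENNReal.smul_def, ENNReal.coe_toNNReal h1,
    smul_eq_mul, mul_one]
  obtain ⟨a, -, u, g, rfl | rfl⟩ := a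
  · exact GDecomp_smul hν g _
  · exact (GDecomp_rev hν _).trans (GDecomp_smul hν g _)

/-- All currents dominated by a measured lamination are combinations of its finitely many
ergodic components. -/
theorem exists_decomp (hρ : Good ρ N) (hΛ : Lam ρ Λ) (hΘ : Cur ρ Θ) (h0 : Θ Λᶜ = 0) :
    ∃ (n k : ℕ) (μ : Fin n → Measure Geo) (S : Fin k → Γ),
      (∀ j, Cur ρ (μ j) ∧ NullSingletonClass (μ j) ∧ μ j Λᶜ = 0 ∧ μ j ≠ 0 ∧ Erg ρ (μ j)) ∧
      (∀ i j, i ≠ j → μ i ⟂ₘ μ j) ∧ Multi ρ S ∧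
      (∀ s, ax (ρ (S s)) ∈ Λ ∧ Θ {ax (ρ (S s))} ≠ 0) ∧
      ∀ ν, Cur ρ ν → ν ≪ Θ → ∃ a : Fin n → NNReal,
        ν = ∑ j, a j • μ j + ∑ s, (ν {ax (ρ (S s))}).toNNReal • cnt ρ (S s) := by
  obtain ⟨k, S, hS, hS1, hS2⟩ := exists_atoms hρ hΛ hΘ
  have hA := GDecomp_invS hρ.toDisc S
  have hΘ' := hΘ.restrict hA.compl
  have hn : NullSingletonClass (Θ.restrict (lifts ρ S)ᶜ) := ⟨fun l => by
    rw [Measure.restrict_apply (measurableSet_singleton l)]
    by_cases h1 : l ∈ lifts ρ S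
    · rw [singleton_inter_eq_empty.2 (not_not.2 h1), measure_empty]
    · refine measure_mono_null inter_subset_left ?_
      by_cases h2 : l ∈ Λ
      · by_contra h3
        exact h1 (hS2 l h2 h3)
      · exact measure_mono_null (singleton_subset_iff.2 h2) h0⟩
  have h0' : Θ.restrict (lifts ρ S)ᶜ Λᶜ = 0 :=
    le_antisymm ((Measure.restrict_le_self _).trans h0.le) bot_le
  obtain ⟨n, E, h1, h2, h3⟩ := exists_erg hρ hΛ hΘ' h0'
  refine ⟨n, k, fun j => (Θ.restrict (lifts ρ S)ᶜ).restrict (E j), S, fun j =>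
    ⟨hΘ'.restrict (h1 j).1, inferInstance,
      le_antisymm ((Measure.restrict_le_self _).trans h0'.le) bot_le,
      fun h => (h1 j).2.1 (Measure.restrict_eq_zero.1 h), (h1 j).2.2⟩,
    fun i j hij => GDecomp_sing (h1 j).1.meas (h2 i j hij), hS, hS1, fun ν hν hνΘ => ?_⟩
  have hν' := hν.restrict hA.compl
  have hac : ν.restrict (lifts ρ S)ᶜ ≪ Θ.restrict (lifts ρ S)ᶜ := hνΘ.restrict _
  choose a ha using fun j => eq_smul_of_erg hρ.toDisc (hΘ'.restrict (h1 j).1)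
    (hν'.restrict (h1 j).1) (h1 j).2.2 (hac.restrict _)
  refine ⟨a, ?_⟩
  have e1 : ν.restrict (lifts ρ S)ᶜ = ∑ j, a j • (Θ.restrict (lifts ρ S)ᶜ).restrict (E j) := by
    rw [← Measure.restrict_eq_self_of_ae_mem (μ := ν.restrict (lifts ρ S)ᶜ) (s := ⋃ j, E j)
      (hac h3), Measure.restrict_iUnion h2 fun j => (h1 j).1.meas, Measure.sum_fintype]
    exact Finset.sum_congr rfl fun j _ => ha j
  have e2 : lifts ρ S = ⋃ s, lifts ρ fun _ : Unit => S s := by
    ext l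
    rw [mem_iUnion]
    exact ⟨fun ⟨i, g, h⟩ => ⟨i, (), g, h⟩, fun ⟨i, _, g, h⟩ => ⟨i, g, h⟩⟩
  have e3 : ν.restrict (lifts ρ S) = ∑ s, (ν {ax (ρ (S s))}).toNNReal • cnt ρ (S s) := by
    rw [e2, Measure.restrict_iUnion (fun i j hij => disjoint_left.2 fun l hi hj =>
      hij (hS.label_unique hρ.toDisc hi hj)) fun s => (GDecomp_invS hρ.toDisc _).meas,
      Measure.sum_fintype]
    exact Finset.sum_congr rfl fun s _ => hν.restrict_lifts hρ.toDisc (hS.1 s).hyp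
  rw [← e1, ← e3, add_comm, Measure.restrict_add_restrict_compl hA.meas]

end HRT
end

-- merged part: Pool.Agent.Work.MP_35beee_gt.GLcur
section
/-!
The limit of the length functions of `z ∘ φ n`, for all `z` at once.

Plan. `deg_of`: `IsMark.tl_le` and `exists_sys` (for `b` and `z`, at the simple element `φ n β`,
`simple_comp`, `IsMark.simple_iff`). `exists_family`: choose the limits `ν z` by `exists_lim`; `Λ` is
the union of the lifts of `α` and of the closure of the union of the supports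
(`not_cross_of_lim`, `isOpen_cross`, `exists_core_simple`). The constants `R, w` of `exists_lim` may
be replaced by those of `exists_core_const` (a line of `Core ρ α R w` satisfies its hypotheses).
`atom_formula`: `tendsto_atom`, `IsMark.twist_le` (for `z`, at `φ n s` and `l.map (f n)`), and
`tl (z (φ n s)) / c n → ic (ν z) s = 0` (`Lam.ic_eq_zero`).
`absolutelyContinuous`: decompose `ν b + ν z` by `exists_decomp`. If the coefficient of `μ j` in
`ν b` vanishes, `exists_LM` (with the atoms and the nodes as `S`) gives simple curves `q` disjoint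
from `α` with `ic (ν b) q ≤ C ε ic (μ j) q`, while `a j * ic (μ j) q ≤ ic (ν z) q ≤ C' ic (ν b) q`;
so `a j = 0`. For atoms use `atom_formula`. `lcur`: decompose `ν b`; index the components by
`Fin n ⊕ Fin k ≃ Fin (n + k)`; `η j β = ic (μ j) β`, or `inter ρ β s` for an atom; `w j z` are the
coefficients of `ν z`. For `q j` given by `exists_LM` take `κ n j = 1 / (c n * ic (μ j) (q j))`; for an
atom `q = s`, `κ n = |twist (ax (ρ (φ n s))) (l.map (f n))| / (tl (ρ (φ n s)) * c n)` with `l` a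
fixed line crossing the axis of `s`. The atoms are not lifts of `α` (`IsULim.compl`).
-/

namespace HRT

open Set Filter Topology Real MeasureTheory

variable {Γ : Type*} [Group Γ] {ρ : Γ →* Isom} {N : ℝ → ℝ} {ι I : Type} {α : ι → Γ}
  {U : Ultrafilter I} {c : I → ℝ} {φ : I → Γ ≃* Γ} {f : I → Circ ≃ₜ Circ}

/-- The data: mapping classes `φ n`, scales `c n`, nodes `α`, a base structure `b`. -/
structure LData (ρ : Γ →* Isom) {ι I : Type} (α : ι → Γ) (U : Ultrafilter I) (c : I → ℝ)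
    (φ : I → Γ ≃* Γ) (f : I → Circ ≃ₜ Circ) (b : Rep ρ) : Prop where
  multi : Multi ρ α
  cover : Cover ρ α
  mark : ∀ n, IsMark ρ (ρ.comp (φ n).toMonoidHom) (f n)
  top : Tendsto c U atTop
  node : ∀ a, Tendsto (fun n => tl (b.1 (φ n (α a))) / c n) U (𝓝 0)
  bdd : ∀ β, Simple ρ β → (∀ a, inter ρ β (α a) = 0) →
    ∃ C, ∀ᶠ n in U, tl (b.1 (φ n β)) ≤ C * c n

/-- The limit currents. -/
structure LFam (ρ : Γ →* Isom) {ι I : Type} (α : ι → Γ) (U : Ultrafilter I) (c : I → ℝ)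
    (f : I → Circ ≃ₜ Circ) (ν : Rep ρ → Measure Geo) (Λ : Set Geo) : Prop where
  lam : Lam ρ Λ
  node : lifts ρ α ⊆ Λ
  cur : ∀ z, Cur ρ (ν z)
  car : ∀ z, ν z Λᶜ = 0
  lim : ∀ z, IsULim U (resc c fun n => (f n).trans z.2.choose) (lifts ρ α)ᶜ (ν z)
  core : ∃ R w : ℝ, 0 < w ∧ ∀ z, ν z (Core ρ α R w)ᶜ = 0

variable {b : Rep ρ} {ν : Rep ρ → Measure Geo} {Λ : Set Geo}

theorem GLcur_cmp (hρ : Good ρ N) (z z' : Rep ρ) :
    ∃ C : ℝ, 0 < C ∧ ∀ g, Simple ρ g → tl (z.1 g) ≤ C * tl (z'.1 g) := by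
  obtain ⟨C, h1, h2⟩ := z.2.choose_spec.tl_le hρ
  obtain ⟨C', h3, h4⟩ := z'.2.choose_spec.tl_le hρ
  exact ⟨C * C', mul_pos h1 h3, fun g hg => (h2 g hg).1.trans
    ((mul_le_mul_of_nonneg_left (h4 g hg).2 h1.le).trans_eq (mul_assoc _ _ _).symm)⟩

theorem GLcur_supp {μ : Measure Geo} {T : Geo → Geo} (hT : Continuous T)
    (h : MeasurePreserving T μ μ) {l : Geo} (hl : l ∈ μ.support) : T l ∈ μ.support :=
  (Measure.mem_support_iff_forall _).2 fun _ hO =>
    ((Measure.mem_support_iff_forall _).1 hl _ (hT.continuousAt.preimage_mem_nhds hO)).trans_le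
      ((Measure.le_map_apply hT.aemeasurable _).trans_eq (by rw [h.map_eq]))

theorem GLcur_inter {κ : Type} {R : κ → Γ} (hρ : Disc ρ) (h : Multi ρ R) (i j : κ) :
    inter ρ (R i) (R j) = 0 :=
  (hρ.inter_eq_zero_iff (h.1 i).hyp (h.1 j).hyp (h.1 j).prim).2 fun k => by
    simpa using GSys_nc hρ h i j 1 k

theorem GLcur_multi {κ : Type} {S : κ → Γ} (hρ : Disc ρ) (hΛ : Lam ρ Λ) (hS : Multi ρ S)
    (hα : Multi ρ α) (h1 : lifts ρ α ⊆ Λ) (h2 : ∀ s, ax (ρ (S s)) ∈ Λ)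
    (h3 : ∀ s, ax (ρ (S s)) ∉ lifts ρ α) : Multi ρ (Sum.elim S α) := by
  have h4 : ∀ a, ax (ρ (α a)) ∈ lifts ρ α := ax_mem_lifts
  rw [multi_iff hρ] at hS hα ⊢
  refine ⟨Sum.forall.2 ⟨hS.1, hα.1⟩, ?_⟩
  rintro (i | i) (j | j) hij g <;> simp only [Sum.elim_inl, Sum.elim_inr]
  · exact hS.2 i j (fun e => hij (congrArg _ e)) g
  · have := smul_mem_lifts g (h4 j)
    exact ⟨hΛ.nc _ (h2 i) _ (h1 this), fun e => h3 i (e ▸ this),
      fun e => h3 i (rev_mem_lifts (A := (ax (ρ (S i))).rev) (e ▸ this))⟩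
  · have : ρ g • ax (ρ (S j)) ∉ lifts ρ α := fun e => h3 j (by simpa using smul_mem_lifts g⁻¹ e)
    exact ⟨hΛ.nc _ (h1 (h4 i)) _ (hΛ.smul g _ (h2 j)), fun e => this (e ▸ h4 i),
      fun e => this (e ▸ rev_mem_lifts (h4 i))⟩
  · exact hα.2 i j (fun e => hij (congrArg _ e)) g

theorem GLcur_est {κ : Type} [Fintype κ] (a : κ → NNReal) {x : κ → ℝ} (hx : ∀ i, 0 ≤ x i) (j : κ)
    {δ : ℝ} (hδ : 0 ≤ δ) (h : ∀ i, i ≠ j → x i ≤ δ * x j) :
    a j * x j ≤ ∑ i, a i * x i ∧ ∑ i, a i * x i ≤ a j * x j + (∑ i, (a i : ℝ)) * δ * x j := by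
  classical
  refine ⟨Finset.single_le_sum (f := fun i => a i * x i) (fun i _ => mul_nonneg (a i).2 (hx i))
    (Finset.mem_univ j), ?_⟩
  rw [← Finset.add_sum_erase _ _ (Finset.mem_univ j), mul_assoc, Finset.sum_mul]
  exact add_le_add_right ((Finset.sum_le_sum fun i hi => mul_le_mul_of_nonneg_left
    (h i (Finset.ne_of_mem_erase hi)) (a i).2).trans (Finset.sum_le_sum_of_subset_of_nonneg
      (Finset.erase_subset _ _) fun i _ _ => mul_nonneg (a i).2 (mul_nonneg hδ (hx j)))) _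

/-- Decomposition of a current carried by `Λ`, with approximating multicurves. -/
theorem GLcur_dec [Finite ι] (hρ : Good ρ N) (hα : Multi ρ α) (hΛ : Lam ρ Λ) (h1 : lifts ρ α ⊆ Λ)
    {Θ : Measure Geo} (hΘ : Cur ρ Θ) (h0 : Θ Λᶜ = 0) (h2 : Θ (lifts ρ α) = 0) :
    ∃ (n k : ℕ) (μ : Fin n → Measure Geo) (S : Fin k → Γ),
      (∀ s, Simple ρ (S s) ∧ ax (ρ (S s)) ∈ Λ ∧ ax (ρ (S s)) ∉ lifts ρ α) ∧
      (∀ ν, Cur ρ ν → ν ≪ Θ → ∃ a : Fin n → NNReal,
        ν = ∑ j, a j • μ j + ∑ s, (ν {ax (ρ (S s))}).toNNReal • cnt ρ (S s) ∧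
        ∀ β, Hyp (ρ β) → ic ν (ρ β) =
          ∑ j, a j * ic (μ j) (ρ β) + ∑ s, ν.real {ax (ρ (S s))} * inter ρ β (S s)) ∧
      ∀ (F : Finset Γ) (ε : ℝ), (∀ β ∈ F, Simple ρ β) → 0 < ε → ∃ g : Fin n → Γ,
        Multi ρ (Sum.elim α (Sum.elim g S)) ∧ (∀ j, 0 < ic (μ j) (ρ (g j))) ∧
        (∀ i j, i ≠ j → ic (μ i) (ρ (g j)) ≤ ε * ic (μ j) (ρ (g j))) ∧
        ∀ j, ∃ w > 0, ∀ f ∈ F, |w * inter ρ f (g j) - ic (μ j) (ρ f)| ≤ ε := by
  obtain ⟨n, k, μ, S, h3, h4, h5, h6, h7⟩ := exists_decomp hρ hΛ hΘ h0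
  have h8 : ∀ s, ax (ρ (S s)) ∉ lifts ρ α := fun s e =>
    (h6 s).2 (measure_mono_null (singleton_subset_iff.2 e) h2)
  refine ⟨n, k, μ, S, fun s => ⟨h5.1 s, (h6 s).1, h8 s⟩, fun ν hν hΘ => ?_, fun F ε hF hε => ?_⟩
  · obtain ⟨a, ha⟩ := h7 ν hν hΘ
    refine ⟨a, ha, fun β hβ => (congrArg (ic · (ρ β)) ha).trans ?_⟩
    have h9 := fun j (_ : j ∈ Finset.univ) => (h3 j).1.nnreal_smul (a j)
    have h10 := fun s (_ : s ∈ Finset.univ) =>
      (hρ.toDisc.cur_cnt (h5.1 s).hyp).nnreal_smul (ν {ax (ρ (S s))}).toNNReal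
    simp only [ic_add (Cur.finsetSum _ h9) (Cur.finsetSum _ h10), ic_finsetSum _ h9,
      ic_finsetSum _ h10, ic_nnreal_smul, hρ.toDisc.ic_cnt (h5.1 _).hyp (h5.1 _).prim hβ]
    rfl
  · obtain ⟨g, h9, h10, h11, h12⟩ := exists_LM hρ hΛ (fun j => (h3 j).1) (fun j => (h3 j).2.1)
      (fun j => (h3 j).2.2.1) (fun j => (h3 j).2.2.2.1) h4
      (GLcur_multi hρ.toDisc hΛ h5 hα h1 (fun s => (h6 s).1) h8)
      (Sum.forall.2 ⟨fun s => (h6 s).1, fun a => h1 (ax_mem_lifts a)⟩) F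
      (fun f hf => ⟨(hF f hf).hyp, (hF f hf).prim⟩) hε
    refine ⟨g, ?_, h10, h11, fun j => h12 j (h3 j).2.2.2.2⟩
    convert h9.comp ((Equiv.sumComm _ _).trans (Equiv.sumAssoc _ _ _)).injective using 1
    funext i
    rcases i with i | i | i <;> rfl

namespace LData

theorem GLcur_simple (hd : LData ρ α U c φ f b) (n : I) {g : Γ} (hg : Simple ρ g) :
    Simple ρ (φ n g) := (simple_comp (φ n) g).1 (((hd.mark n).simple_iff g).2 hg)

theorem GLcur_le (hd : LData ρ α U c φ f b) (hρ : Good ρ N) (z : Rep ρ) : ∃ C : ℝ, 0 < C ∧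
    ∀ g, Simple ρ g → ∀ᶠ n in U, tl (z.1 (φ n g)) / c n ≤ C * (tl (b.1 (φ n g)) / c n) := by
  obtain ⟨C, h1, h2⟩ := GLcur_cmp hρ z b
  refine ⟨C, h1, fun g hg => (hd.top.eventually_ge_atTop 0).mono fun n hn => ?_⟩
  rw [← mul_div_assoc]
  exact div_le_div_of_nonneg_right (h2 _ (hd.GLcur_simple n hg)) hn

theorem deg_of (hd : LData ρ α U c φ f b) (hρ : Good ρ N) (z : Rep ρ) :
    Deg ρ α U c (fun n => z.1.comp (φ n).toMonoidHom) fun n => (f n).trans z.2.choose := by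
  obtain ⟨ε, h1, h2⟩ := z.2.choose_spec.exists_sys hρ
  obtain ⟨C, h3, h4⟩ := GLcur_cmp hρ z b
  obtain ⟨C', -, h5⟩ := hd.GLcur_le hρ z
  refine ⟨fun n => (hd.mark n).trans (z.2.choose_spec.comp _), hd.top,
    ⟨ε, h1, fun n g hg => h2 _ (hd.GLcur_simple n hg)⟩, fun a => squeeze_zero'
      ((hd.top.eventually_ge_atTop 0).mono fun n hn => div_nonneg (tl_nonneg _) hn)
      (h5 _ (hd.multi.1 a)) (by simpa using (hd.node a).const_mul C'), fun β hβ hi => ?_⟩
  obtain ⟨D, hD⟩ := hd.bdd β hβ hi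
  exact ⟨C * D, hD.mono fun n hn => (h4 _ (hd.GLcur_simple n hβ)).trans
    ((mul_le_mul_of_nonneg_left hn h3.le).trans_eq (mul_assoc _ _ _).symm)⟩

theorem exists_family [Finite ι] (hd : LData ρ α U c φ f b) (hρ : Good ρ N) :
    ∃ ν Λ, LFam ρ α U c f ν Λ := by
  choose ν h1 h2 h3 using fun z => (hd.deg_of hρ z).exists_lim hρ hd.multi hd.cover
  obtain ⟨R, w, hw, h4⟩ := exists_core_const hρ hd.multi
  obtain ⟨R', h5⟩ := hρ.exists_core_simple
  have h6 : ∀ z, ν z (Core ρ α R w)ᶜ = 0 := fun z => by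
    obtain ⟨R, w, hw, h⟩ := h3 z
    refine measure_mono_null (compl_subset_compl.2 fun l hl => ?_) h
    have := hρ.toDisc.not_cusp_of_inCore hl.2.1
    refine h4 l hl.1 this.1 this.2 fun m hm => ?_
    have h6 := (one_lt_sq_iff_one_lt_abs _).2 ((one_lt_cosh.2 hw.ne').trans_le (hl.2.2 m hm))
    rw [GNest_sq] at h6
    exact (div_pos_iff_of_pos_right (neg_pos.2 l.B_neg)).1 (by linarith only [h6])
  have h7 : ∀ z, (ν z).support ⊆ Core ρ α R w := fun z =>
    Measure.support_subset_of_isClosed (isClosed_core hρ.toDisc R w) (h6 z)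
  have h8 : closure (⋃ z, (ν z).support) ⊆ Core ρ α R w :=
    closure_minimal (iUnion_subset h7) (isClosed_core hρ.toDisc R w)
  have h9 : ∀ m ∈ lifts ρ α, ∀ l ∈ closure (⋃ z, (ν z).support), ¬ Cross m l := fun m hm l hl e =>
    ((one_le_cosh w).trans ((h8 hl).2.2 m hm)).not_gt ((cross_iff_abs_B _ _).1 e)
  have h10 : ∀ T : Geo → Geo, Continuous T → (∀ z, MeasurePreserving T (ν z) (ν z)) →
      ∀ l ∈ closure (⋃ z, (ν z).support), T l ∈ closure (⋃ z, (ν z).support) :=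
    fun T hT h l hl => map_mem_closure hT hl fun x hx =>
      mem_iUnion.2 ((mem_iUnion.1 hx).imp fun z => GLcur_supp hT (h z))
  have h11 : ∀ {R R' : ℝ} {l : Geo}, R ≤ R' → InCore ρ R l → InCore ρ R' l :=
    fun h h' t => (h' t).imp fun _ e => e.trans h
  refine ⟨ν, lifts ρ α ∪ closure (⋃ z, (ν z).support),
    ⟨(isClosed_lifts hρ.toDisc fun a => (hd.multi.1 a).hyp).union isClosed_closure,
      fun g l => Or.imp (smul_mem_lifts g)
        (h10 _ (continuous_const_smul _) (fun z => (h1 z).smul g) l),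
      fun l => Or.imp rev_mem_lifts (h10 _ Geo.continuous_rev (fun z => (h1 z).rev) l), ?_,
      max R R', ?_⟩, subset_union_left, h1, fun z => measure_mono_null (compl_subset_compl.2
        fun l hl => Or.inr (subset_closure (mem_iUnion.2 ⟨z, hl⟩))) Measure.measure_compl_support,
    h2, R, w, hw, h6⟩
  · rintro l (hl | hl) m (hm | hm)
    · exact GSys_nc' hρ.toDisc hd.multi hl hm
    · exact h9 l hl m hm
    · exact fun e => h9 m hm l hl e.symm
    have := mk_mem_prod hl hm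
    rw [← closure_prod_eq] at this
    refine fun e => closure_minimal ?_ isOpen_cross.isClosed_compl this e
    rintro ⟨l, m⟩ ⟨hl, hm⟩
    obtain ⟨z, hl⟩ := mem_iUnion.1 hl
    obtain ⟨z', hm⟩ := mem_iUnion.1 hm
    exact not_cross_of_lim hρ hd.multi hd.mark hd.top z.2.choose_spec z'.2.choose_spec (h2 z)
      (h2 z') hw hl hm (h7 z hl) (h7 z' hm) (h1 z').rev
  · rintro l (⟨a, g, rfl | rfl⟩ | hl)
    · exact h11 (le_max_right _ _) ((h5 _ (hd.multi.1 a)).smul g)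
    · exact h11 (le_max_right _ _) ((h5 _ (hd.multi.1 a)).smul g).rev
    · exact h11 (le_max_left _ _) (h8 hl).2.1

theorem tendsto_tl [Finite ι] (hd : LData ρ α U c φ f b) (hρ : Good ρ N)
    (hν : LFam ρ α U c f ν Λ) (z : Rep ρ) {β : Γ} (hβ : Simple ρ β)
    (hi : ∀ a, inter ρ β (α a) = 0) :
    Tendsto (fun n => tl (z.1 (φ n β)) / c n) U (𝓝 (ic (ν z) (ρ β))) := by
  obtain ⟨R, w, hw, h⟩ := hν.core
  exact (hd.deg_of hρ z).tendsto_tl hρ.toDisc hd.multi (hν.cur z) (hν.lim z) hw (h z) hβ hi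

theorem atom_formula [Finite ι] (hd : LData ρ α U c φ f b) (hρ : Good ρ N)
    (hν : LFam ρ α U c f ν Λ) (z : Rep ρ) {s : Γ} (hs : Simple ρ s) (hsΛ : ax (ρ s) ∈ Λ)
    (hsα : ax (ρ s) ∉ lifts ρ α) {l : Geo} (hl : Cross (ax (ρ s)) l) :
    Tendsto (fun n => |twist (ax (ρ (φ n s))) (l.map (f n))| / (tl (ρ (φ n s)) * c n) *
      tl (z.1 (φ n s))) U (𝓝 ((ν z).real {ax (ρ s)})) := by
  have h1 := hd.tendsto_tl hρ hν z hs fun a =>
    (hρ.toDisc.inter_eq_zero_iff hs.hyp (hd.multi.1 a).hyp (hd.multi.1 a).prim).2 fun k =>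
      hν.lam.nc _ hsΛ _ (hν.node (smul_mem_lifts k (ax_mem_lifts a)))
  rw [hν.lam.ic_eq_zero (hν.car z) hsΛ] at h1
  have h2 := (hd.deg_of hρ z).tendsto_atom hρ.toDisc hd.multi (hν.cur z) (hν.lim z) hs hsα h1 hl
  obtain ⟨C, -, h3⟩ := z.2.choose_spec.twist_le hρ
  refine h2.congr_dist (squeeze_zero (fun _ => dist_nonneg) (fun n => ?_)
    (by simpa using h1.abs.mul_const C))
  have h4 := hd.GLcur_simple n hs
  have h5 := h3 _ h4 (l.map (f n)) (by
    rw [show ax (ρ (φ n s)) = _ from ((hd.mark n).hyp hs.hyp).2]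
    exact ((hd.mark n).ori.cross _ _).2 hl)
  have h6 : 0 < tl (ρ (φ n s)) := h4.hyp
  have h7 : 0 < tl (z.1 (φ n s)) := (z.2.choose_spec.hyp h4.hyp).1
  refine le_trans (le_of_eq ?_) (mul_le_mul_of_nonneg_left ((abs_abs_sub_abs_le _ _).trans h5)
    (abs_nonneg _))
  rw [Real.dist_eq, ← abs_mul, abs_div, abs_div, abs_of_pos h6, abs_of_pos h7, Geo.map_trans]
  congr 1
  change |twist (ax (z.1 (φ n s))) _| / _ - _ = _
  by_cases e : c n = 0
  · simp [e]
  · field_simp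

theorem absolutelyContinuous [Finite ι] (hd : LData ρ α U c φ f b) (hρ : Good ρ N)
    (hν : LFam ρ α U c f ν Λ) (z : Rep ρ) : ν z ≪ ν b := by
  have h0 : ∀ z, ν z (lifts ρ α) = 0 := fun z => by simpa using (hν.lim z).compl
  obtain ⟨n, k, μ, S, h1, h2, h3⟩ := GLcur_dec hρ hd.multi hν.lam hν.node
    ((hν.cur b).add (hν.cur z)) (by simp [hν.car]) (by simp [h0])
  obtain ⟨a, h4, h5⟩ := h2 _ (hν.cur b) (Measure.absolutelyContinuous_of_le (Measure.le_add_right le_rfl))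
  obtain ⟨a', h6, h7⟩ := h2 _ (hν.cur z) (Measure.absolutelyContinuous_of_le (Measure.le_add_left le_rfl))
  obtain ⟨C, hC, h8⟩ := hd.GLcur_le hρ z
  have h9 : ∀ j, a j = 0 → a' j = 0 := fun j hj => by
    refine NNReal.coe_eq_zero.1 (le_antisymm (le_of_forall_pos_le_add fun ε hε => ?_) (a' j).2)
    have hA : 0 ≤ ∑ i, (a i : ℝ) := Finset.sum_nonneg fun i _ => (a i).2
    obtain ⟨g, h9, h10, h11, -⟩ := h3 ∅ (ε / (C * (∑ i, (a i : ℝ)) + 1)) (by simp) (by positivity)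
    have h12 : Simple ρ (g j) := h9.1 (.inr (.inl j))
    have h13 : ∀ i, inter ρ (g j) (α i) = 0 := fun i =>
      GLcur_inter hρ.toDisc h9 (.inr (.inl j)) (.inl i)
    have h14 : ∀ s, inter ρ (g j) (S s) = 0 := fun s =>
      GLcur_inter hρ.toDisc h9 (.inr (.inl j)) (.inr (.inr s))
    have h15 := le_of_tendsto_of_tendsto (hd.tendsto_tl hρ hν z h12 h13)
      ((hd.tendsto_tl hρ hν b h12 h13).const_mul C) (h8 _ h12)
    simp only [h5 _ h12.hyp, h7 _ h12.hyp, h14, Nat.cast_zero, mul_zero, Finset.sum_const_zero,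
      add_zero] at h15
    have est := fun a => GLcur_est a (fun i => ic_nonneg (μ i) (ρ (g j))) j (by positivity)
      fun i => h11 i j
    have h16 := ((est a').1.trans h15).trans (mul_le_mul_of_nonneg_left (est a).2 hC.le)
    rw [hj, NNReal.coe_zero, zero_mul, zero_add, ← mul_assoc, ← mul_assoc] at h16
    refine (le_of_mul_le_mul_right h16 (h10 j)).trans ?_
    rw [zero_add, ← mul_div_assoc, div_le_iff₀ (by positivity)]
    linarith only [hε]
  have h10 : ∀ s, (ν b {ax (ρ (S s))}).toNNReal = 0 → (ν z {ax (ρ (S s))}).toNNReal = 0 := by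
    intro s hs
    obtain ⟨g, -, -, hg⟩ := hρ.exists_hyp_cross (ax (ρ (S s)))
    obtain ⟨C, -, h8⟩ := GLcur_cmp hρ z b
    have := le_of_tendsto_of_tendsto (hd.atom_formula hρ hν z (h1 s).1 (h1 s).2.1 (h1 s).2.2 hg)
      ((hd.atom_formula hρ hν b (h1 s).1 (h1 s).2.1 (h1 s).2.2 hg).const_mul C)
      ((hd.top.eventually_ge_atTop 0).mono fun n hn => (mul_le_mul_of_nonneg_left
        (h8 _ (hd.GLcur_simple n (h1 s).1)) (div_nonneg (abs_nonneg _)
          (mul_nonneg (tl_nonneg _) hn))).trans_eq (mul_left_comm _ _ _))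
    rw [show (ν b).real _ = 0 from NNReal.coe_eq_zero.2 hs, mul_zero] at this
    exact NNReal.coe_eq_zero.1 (this.antisymm measureReal_nonneg)
  intro E hE
  rw [h4] at hE
  rw [h6]
  simp only [Measure.add_apply, Measure.finsetSum_apply, Measure.smul_apply, add_eq_zero,
    Finset.sum_eq_zero_iff, Finset.mem_univ, forall_const, smul_eq_zero] at hE ⊢
  exact ⟨fun j => (hE.1 j).imp_left (h9 j), fun s => (hE.2 s).imp_left (h10 s)⟩

/-- The limit of the length functions. -/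
theorem lcur [Finite ι] (hd : LData ρ α U c φ f b) (hρ : Good ρ N) :
    ∃ (r : ℕ) (η : Fin r → Γ → ℝ) (w : Fin r → Rep ρ → ℝ),
      (∀ (z : Rep ρ) (β : Γ), Simple ρ β → (∀ a, inter ρ β (α a) = 0) →
        Tendsto (fun n => tl (z.1 (φ n β)) / c n) U (𝓝 (∑ j, w j z * η j β))) ∧
      ∀ (F : Finset Γ) (Z : Finset (Rep ρ)) (ε : ℝ), (∀ β ∈ F, Simple ρ β) → 0 < ε →
        ∃ (q : Fin r → Γ) (s : Fin r → ℝ) (κ : I → Fin r → ℝ), (∀ j, 0 ≤ s j) ∧
          (∀ n j, 0 ≤ κ n j) ∧ Multi ρ (Sum.elim α q) ∧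
          (∀ j, ∀ β ∈ F, |s j * inter ρ β (q j) - η j β| ≤ ε) ∧
          ∀ᶠ n in U, ∀ j, ∀ z ∈ Z, |κ n j * tl (z.1 (φ n (q j))) - w j z| ≤ ε := by
  obtain ⟨ν, Λ, hν⟩ := hd.exists_family hρ
  obtain ⟨n, k, μ, S, h1, h2, h3⟩ := GLcur_dec hρ hd.multi hν.lam hν.node (hν.cur b) (hν.car b)
    (by simpa using (hν.lim b).compl)
  choose a _ h5 using fun z => h2 _ (hν.cur z) (hd.absolutelyContinuous hρ hν z)
  choose l _ _ hl using fun s => hρ.exists_hyp_cross (ax (ρ (S s)))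
  let e := (finSumFinEquiv (m := n) (n := k)).symm
  refine ⟨n + k, Sum.elim (fun j β => ic (μ j) (ρ β)) (fun s β => inter ρ β (S s)) ∘ e,
    Sum.elim (fun j z => a z j) (fun s z => (ν z).real {ax (ρ (S s))}) ∘ e,
    fun z β hβ hi => ?_, fun F Z ε hF hε => ?_⟩
  · convert hd.tendsto_tl hρ hν z hβ hi using 2
    rw [h5 z β hβ.hyp, ← e.symm.sum_comp, Fintype.sum_sum_type]
    simp
  have hA : ∀ z, 0 ≤ ∑ i, (a z i : ℝ) := fun z => Finset.sum_nonneg fun i _ => (a z i).2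
  have hM : 0 ≤ ∑ z ∈ Z, ∑ i, (a z i : ℝ) := Finset.sum_nonneg fun z _ => hA z
  obtain ⟨g, h6, h7, h8, h9⟩ := h3 F (ε / (∑ z ∈ Z, ∑ i, (a z i : ℝ) + 1)) hF (by positivity)
  choose w hw h9 using h9
  refine ⟨Sum.elim g S ∘ e, Sum.elim w (fun _ => 1) ∘ e, fun m => Sum.elim
    (fun j => |1 / (c m * ic (μ j) (ρ (g j)))|) (fun s => |(|twist (ax (ρ (φ m (S s))))
      ((ax (ρ (l s))).map (f m))| / (tl (ρ (φ m (S s))) * c m))|) ∘ e, fun j => ?_, fun m j => ?_,
    ?_, fun j β hβ => ?_, eventually_all.2 fun j => (eventually_all_finset Z).2 fun z hz => ?_⟩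
  rotate_left 2
  · convert h6.comp (Function.injective_id.sumMap e.injective) using 1
    funext i
    cases i <;> rfl
  all_goals
    simp only [Function.comp_apply]
    rcases e j with j | s
  · exact (h9 j β hβ).trans (div_le_self hε.le (by linarith))
  · simpa using hε.le
  · have h10 : Simple ρ (g j) := h6.1 (.inr (.inl j))
    have h11 := (hd.tendsto_tl hρ hν z h10 fun i =>
      GLcur_inter hρ.toDisc h6 (.inr (.inl j)) (.inl i)).div_const (ic (μ j) (ρ (g j)))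
    have h12 : ∀ s, inter ρ (g j) (S s) = 0 := fun s =>
      GLcur_inter hρ.toDisc h6 (.inr (.inl j)) (.inr (.inr s))
    simp only [h5 _ _ h10.hyp, h12, Nat.cast_zero, mul_zero, Finset.sum_const_zero, add_zero] at h11
    have h13 := GLcur_est (a z) (fun i => ic_nonneg (μ i) (ρ (g j))) j (by positivity)
      fun i => h8 i j
    have h14 := Finset.single_le_sum (fun z _ => hA z) hz
    refine (((h11.sub_const (a z j)).abs.eventually_le_const (u := ε) ?_).and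
      (hd.top.eventually_ge_atTop 0)).mono fun m hm => le_trans (le_of_eq ?_) hm.1
    · rw [abs_of_nonneg (sub_nonneg.2 ((le_div_iff₀ (h7 j)).2 h13.1)), sub_lt_iff_lt_add',
        div_lt_iff₀ (h7 j), add_mul]
      refine h13.2.trans_lt (add_lt_add_right (mul_lt_mul_of_pos_right ?_ (h7 j)) _)
      rw [← mul_div_assoc, div_lt_iff₀ (by positivity)]
      linarith only [hε, h14, mul_nonneg_of_nonpos_of_nonpos (le_of_lt (Mathlib.Tactic.Linarith.sub_neg_of_lt hε)) (Mathlib.Tactic.Linarith.sub_nonpos_of_le h14)]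
    · simp only [Sum.elim_inl]
      rw [abs_of_nonneg (div_nonneg zero_le_one (mul_nonneg hm.2 (h7 j).le)), div_div, one_div_mul_eq_div]
  · refine ((((hd.atom_formula hρ hν z (h1 s).1 (h1 s).2.1 (h1 s).2.2 (hl s)).sub_const
      ((ν z).real {ax (ρ (S s))})).abs.eventually_le_const (u := ε) (by simpa using hε)).and
      (hd.top.eventually_ge_atTop 0)).mono fun m hm => le_trans (le_of_eq ?_) hm.1
    simp only [Sum.elim_inr]
    rw [abs_of_nonneg (div_nonneg (abs_nonneg _) (mul_nonneg (tl_nonneg _) hm.2))]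
  · exact (hw j).le
  · exact zero_le_one
  · exact abs_nonneg _
  · exact abs_nonneg _

end LData

end HRT
end

-- merged part: Pool.Agent.Work.MP_35beee_gt.MFwd
section
/-!
Every horofunction has the explicit form.

Plan. Let `P`, `δ`, `φ n` come from `exists_dm`, `y n = (x n).act _`, `z n = z.act _`,
`c n = exp (dTh (x n) b)`; by `dTh_act` all distances can be computed with `y n`, `z n`.
`of_bdd`: `c n ≤ C`. Then `tl (y n (P i)) ≥ sys / C` (`IsMark.exists_sys`), so all `tl (y n β)` are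
bounded (`IsMax.tl_le`), and so are the `tl (b n β)`. By `exists_lim_rep` both families converge, to
`y'` and `b'`; by `tendsto_dTh`, `len_le_exp_dTh`,
`tl (x n β) = tl (y n ((φ n).symm β)) ≤ C' * tl (b n ((φ n).symm β)) = C' * tl (b β)`. So `x n`
converges (`exists_lim_rep`), and `continuous_psi_left` applies.
`of_top`: the nodes `α` are the `P i` with `tl (y n (P i)) → 0` (enumerate them by `Fin m`); the other
lengths have positive limits. `Pinch` holds by `IsMax.tl_le`, `Duals.comp`, `Good.cover`;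
`LData` holds because `tl (b n β) ≤ c n * tl (y n β)`; take `r`, `η`, `w` from `LData.lcur` (the
functions `w j` and the limits below are limits of weighted lengths, so they descend to
Teichmueller space; choose a marking for each point). For a node put
`s n a = nodeW (y n) (b n) (α a) (δ a) / (c n * tl (b n (α a)))`. Then `s n a * tl (b n (α a))` is
bounded (`nodeW_le`), so `s n a * tl (z n (α a))` has a limit `ω a z` (`IsMark.tl_le`), and
`nodeW (y n) (z n) (α a) (δ a) / c n` has the same limit (`IsMark.twist_le` for the markings `b`, `z`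
and the simple curve `φ n (α a)`). The tuple `ω`, `w` is in `WT` by the second part of `lcur` (the
multicurve is `φ n ∘ Sum.elim α q`), `η` is in `ET` (`th_of_multi`, `Nodes.th`). The values are
bounded by `Pinch.lower`; let `F z` be the supremum; `Pinch.me` gives `F z = exp (f z)`.
-/

namespace HRT

open Set Filter Topology Real

variable {Γ : Type} [Group Γ] {ρ : Γ →* Isom} {N : ℝ → ℝ} {U : Ultrafilter (Rep ρ)}
  {b : Rep ρ} {f : Teich ρ → ℝ}

theorem MFwd_lim {I : Type*} (U : Ultrafilter I) {g : I → ℝ} {a b : ℝ}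
    (h : ∀ᶠ n in U, g n ∈ Icc a b) : ∃ l, Tendsto g U (𝓝 l) := by
  obtain ⟨l, -, hl⟩ := isCompact_Icc.ultrafilter_le_nhds (U.map g) (le_principal_iff.2 h)
  exact ⟨l, hl⟩

theorem MFwd_closure {ι T : Type*} {S : Set (ι → T → ℝ)} {w : ι → T → ℝ}
    (h : ∀ (Z : Finset T) (ε : ℝ), 0 < ε → ∃ v ∈ S, ∀ i, ∀ z ∈ Z, |v i z - w i z| ≤ ε) :
    w ∈ closure S := by
  classical
  choose v hv hw using fun p : Finset T × ℕ => h p.1 (1 / ((p.2 : ℝ) + 1)) (by positivity)
  refine mem_closure_of_tendsto (b := atTop) (f := v) ?_ (Eventually.of_forall hv)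
  refine tendsto_pi_nhds.2 fun i => tendsto_pi_nhds.2 fun z => ?_
  rw [tendsto_iff_norm_sub_tendsto_zero]
  have h2 : Tendsto (Prod.snd : Finset T × ℕ → ℕ) atTop atTop := by
    rw [← prod_atTop_atTop_eq]
    exact tendsto_snd
  refine squeeze_zero' (Eventually.of_forall fun _ => norm_nonneg _) ?_
    (tendsto_one_div_add_atTop_nhds_zero_nat.comp h2)
  filter_upwards [eventually_ge_atTop (({z}, 0) : Finset T × ℕ)] with p hp
  exact hw p i z (hp.1 (Finset.mem_singleton_self z))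

theorem MFwd_bdd {I : Type} {U : Ultrafilter I} {y : I → Rep ρ} {k : ℕ} {P δ : Fin k → Γ} {L : ℝ}
    (hρ : Good ρ N) (hd : Duals ρ P δ) (hm : IsMax ρ P)
    (hL : ∀ᶠ n in U, ∀ i, tl ((y n).1 (P i)) ≤ L ∧ |tw (y n).1 (P i) (δ i)| ≤ L) {β : Γ}
    (hβ : Simple ρ β)
    (h : ∀ i, inter ρ β (P i) ≠ 0 → ∃ ε > 0, ∀ᶠ n in U, ε ≤ tl ((y n).1 (P i))) :
    ∃ C, ∀ᶠ n in U, tl ((y n).1 β) ≤ C := by
  have h1 : ∀ i, ∃ ε > 0, ∀ᶠ n in U, inter ρ β (P i) ≠ 0 → ε ≤ tl ((y n).1 (P i)) := by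
    intro i
    by_cases hi : inter ρ β (P i) = 0
    · exact ⟨1, one_pos, Eventually.of_forall fun n h0 => (h0 hi).elim⟩
    · obtain ⟨ε, h2, h3⟩ := h i hi
      exact ⟨ε, h2, h3.mono fun n hn _ => hn⟩
  choose e he h2 using h1
  obtain ⟨ε, h3, h4⟩ := GTwRep_w he
  obtain ⟨C, hC⟩ := hm.tl_le hd hρ hβ L h3
  refine ⟨C, ?_⟩
  filter_upwards [hL, eventually_all.2 h2] with n h5 h6
  exact hC _ (fun i => (h5 i).1) fun i hi => ⟨(h4 i).trans (h6 i hi), (h5 i).2⟩

theorem MFwd_cover (hρ : Good ρ N) : Cover ρ (Empty.elim : Empty → Γ) :=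
  hρ.cover ⟨fun i => i.elim, fun i => i.elim⟩

theorem MFwd_le (hρ : Good ρ N) (hs : ∃ g, Simple ρ g) (x z : Rep ρ) {g : Γ} (hg : Simple ρ g) :
    tl (z.1 g) ≤ exp (dTh x.cls z.cls) * tl (x.1 g) :=
  len_le_exp_dTh hρ hs x.cls z.cls hg

theorem MFwd_sys (hρ : Good ρ N) (z : Rep ρ) {I : Type} {φ : I → Γ ≃* Γ}
    (hφ : ∀ n, IsMod ρ (φ n)) :
    ∃ ε > 0, ∀ n g, Simple ρ g → ε ≤ tl ((z.act (hφ n)).1 g) := by
  obtain ⟨ε, h1, h2⟩ := z.2.choose_spec.exists_sys hρ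
  exact ⟨ε, h1, fun n g hg => h2 _ (((hφ n).simple_iff g).2 hg)⟩

theorem MFwd_tw (hρ : Good ρ N) (z z' : Rep ρ) : ∃ C : ℝ, 0 ≤ C ∧ ∀ s d, Simple ρ s → Simple ρ d →
    Cross (ax (ρ s)) (ax (ρ d)) →
      |tw z.1 s d / tl (z.1 s) - tw z'.1 s d / tl (z'.1 s)| ≤ C := by
  obtain ⟨C, h1, h2⟩ := z.2.choose_spec.twist_le hρ
  obtain ⟨C', h3, h4⟩ := z'.2.choose_spec.twist_le hρ
  refine ⟨C + C', add_nonneg h1 h3, fun s d hs hd hc => ?_⟩
  have h5 := h2 s hs _ hc
  have h6 := h4 s hs _ hc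
  rw [← (z.2.choose_spec.hyp hd.hyp).2] at h5
  rw [← (z'.2.choose_spec.hyp hd.hyp).2] at h6
  unfold tw
  rw [abs_le] at h5 h6 ⊢
  constructor <;> linarith only [h5, h6, h5.1, h5.2, h6.1, h6.2]

theorem MFwd_alg {t u v a a' C Λ : ℝ} (hu : 0 < u) (hv : 0 < v) (hΛ : 1 ≤ Λ)
    (h : |a / u - a' / v| ≤ C) :
    |max (u / t) (|a| / Λ) - max (v / t) (|a'| / Λ) / v * u| ≤ C * u := by
  have hΛ0 : 0 < Λ := by linarith
  have e1 : max (u / t) (|a| / Λ) = max (1 / t) (|a / u| / Λ) * u := by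
    rw [max_mul_of_nonneg _ _ hu.le, abs_div, abs_of_pos hu]
    congr 1 <;> field_simp
  have e2 : max (v / t) (|a'| / Λ) / v = max (1 / t) (|a' / v| / Λ) := by
    rw [div_eq_iff hv.ne', max_mul_of_nonneg _ _ hv.le, abs_div, abs_of_pos hv]
    congr 1 <;> field_simp
  rw [e1, e2, ← sub_mul, abs_mul, abs_of_pos hu]
  refine mul_le_mul_of_nonneg_right ?_ hu.le
  refine (abs_max_sub_max_le_max _ _ _ _).trans (max_le ?_ ?_)
  · rw [sub_self, abs_zero]
    exact (abs_nonneg _).trans h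
  · rw [← sub_div, abs_div, abs_of_pos hΛ0]
    exact (div_le_self (abs_nonneg _) hΛ).trans ((abs_abs_sub_abs_le_abs_sub _ _).trans h)

theorem MFwd_nodeW_nonneg (y z : Γ →* Isom) (a d : Γ) : 0 ≤ nodeW y z a d :=
  le_max_of_le_left (div_nonneg (tl_nonneg _) (tl_nonneg _))

theorem MFwd_node {ι I : Type} [Finite ι] {α δ : ι → Γ} {U : Ultrafilter I} {y : I → Rep ρ}
    {c : I → ℝ} {φ : I → Γ ≃* Γ} (hφ : ∀ n, IsMod ρ (φ n)) (hp : Pinch ρ α δ U y) (hρ : Good ρ N)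
    (hc : Tendsto c U atTop)
    (hb : ∀ᶠ n in U, ∀ g, Simple ρ g → tl ((b.act (hφ n)).1 g) ≤ c n * tl ((y n).1 g))
    (z : Rep ρ) (a : ι) : ∃ ω : ℝ,
      Tendsto (fun n => nodeW (y n).1 (z.act (hφ n)).1 (α a) (δ a) / c n) U (𝓝 ω) ∧
      Tendsto (fun n => nodeW (y n).1 (b.act (hφ n)).1 (α a) (δ a) /
        (c n * tl (b.1 (φ n (α a)))) * tl (z.1 (φ n (α a)))) U (𝓝 ω) := by
  obtain ⟨C, hC, h1⟩ := GLcur_cmp hρ z b
  obtain ⟨D, hD, h2⟩ := MFwd_tw hρ z b
  have hsa : ∀ n, Simple ρ (φ n (α a)) := fun n =>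
    ((hφ n).simple_iff _).2 (hp.duals.multi.1 a)
  have hsd : ∀ n, Simple ρ (φ n (δ a)) := fun n => ((hφ n).simple_iff _).2 (hp.duals.simple a)
  have hcr : ∀ n, Cross (ax (ρ (φ n (α a)))) (ax (ρ (φ n (δ a)))) := fun n =>
    (hp.duals.mark (hφ n).choose_spec).cross a
  have hpos : ∀ (x : Rep ρ) (n : I), 0 < tl (x.1 (φ n (α a))) := fun x n =>
    (x.2.choose_spec.hyp (hsa n).hyp).1
  have hc0 : ∀ᶠ n in U, 0 < c n := hc.eventually_gt_atTop 0
  have h3 := hp.nodeW_le (z := fun n => b.act (hφ n)) hρ hc (MFwd_sys hρ b hφ) hb a one_pos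
  obtain ⟨ω, hω⟩ := MFwd_lim U (g := fun n => nodeW (y n).1 (b.act (hφ n)).1 (α a) (δ a) /
      (c n * tl (b.1 (φ n (α a)))) * tl (z.1 (φ n (α a)))) (a := 0) (b := (1 + 1) * C) (by
    filter_upwards [hc0, h3] with n h4 h5
    have h6 := MFwd_nodeW_nonneg (y n).1 (b.act (hφ n)).1 (α a) (δ a)
    have h7 := hpos b n
    refine ⟨mul_nonneg (div_nonneg h6 (mul_pos h4 h7).le) (tl_nonneg _), ?_⟩
    rw [div_mul_eq_mul_div, div_le_iff₀ (mul_pos h4 h7)]
    calc _ ≤ ((1 + 1) * c n) * (C * tl (b.1 (φ n (α a)))) :=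
          mul_le_mul h5 (h1 _ (hsa n)) (tl_nonneg _) (by positivity)
      _ = _ := by ring)
  refine ⟨ω, ?_, hω⟩
  have h4 : Tendsto (fun n => D * (C * tl ((y n).1 (α a)))) U (𝓝 0) := by
    simpa using ((hp.node a).const_mul C).const_mul D
  have h5 : ∀ᶠ n in U, tl ((y n).1 (α a)) < exp (-1) :=
    (hp.node a).eventually_lt_const (exp_pos _)
  refine hω.congr_dist (squeeze_zero' (Eventually.of_forall fun _ => dist_nonneg) ?_ h4)
  filter_upwards [hc0, h5, hb] with n h6 h7 h8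
  have h9 : 0 < tl ((y n).1 (α a)) := ((y n).2.choose_spec.hyp (hp.duals.multi.1 a).hyp).1
  have h10 : 1 ≤ 2 * log (1 / tl ((y n).1 (α a))) := by
    have := log_lt_log h9 h7
    rw [log_exp] at this
    rw [one_div, log_inv]
    linarith only [this]
  have h11 := MFwd_alg (t := tl ((y n).1 (α a))) (hpos z n) (hpos b n) h10
    (h2 _ _ (hsa n) (hsd n) (hcr n))
  have h12 : tl (z.1 (φ n (α a))) ≤ C * (c n * tl ((y n).1 (α a))) :=
    (h1 _ (hsa n)).trans (mul_le_mul_of_nonneg_left (h8 _ (hp.duals.multi.1 a)) hC.le)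
  have e : ∀ p q u v : ℝ, dist (q / (c n * v) * u) (p / c n) = |p - q / v * u| / c n := by
    intro p q u v
    rw [Real.dist_eq, abs_sub_comm, ← abs_of_pos h6, ← abs_div, abs_of_pos h6, sub_div]
    congr 2
    ring
  rw [e, div_le_iff₀ h6]
  calc _ ≤ D * tl (z.1 (φ n (α a))) := h11
    _ ≤ D * (C * (c n * tl ((y n).1 (α a)))) := mul_le_mul_of_nonneg_left h12 hD
    _ = _ := by ring

theorem MFwd_pinch {I : Type} {U : Ultrafilter I} {y : I → Rep ρ} {k : ℕ} {P δ : Fin k → Γ} {L : ℝ}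
    (hρ : Good ρ N) (hd : Duals ρ P δ) (hm : IsMax ρ P)
    (hL : ∀ᶠ n in U, ∀ i, tl ((y n).1 (P i)) ≤ L ∧ |tw (y n).1 (P i) (δ i)| ≤ L) :
    ∃ (m : ℕ) (α δ' : Fin m → Γ), Pinch ρ α δ' U y := by
  classical
  have h1 : ∀ i, ∃ l, Tendsto (fun n => tl ((y n).1 (P i))) U (𝓝 l) := fun i =>
    MFwd_lim U (a := 0) (b := L) (hL.mono fun n hn => ⟨tl_nonneg _, (hn i).1⟩)
  choose l hl using h1
  let S : Finset (Fin k) := Finset.univ.filter fun i => l i = 0
  let e : Fin S.card → Fin k := fun a => S.orderEmbOfFin rfl a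
  have he : Function.Injective e := (S.orderEmbOfFin rfl).injective
  have h2 : ∀ a, l (e a) = 0 := fun a =>
    (Finset.mem_filter.1 (Finset.orderEmbOfFin_mem S rfl a)).2
  have h3 : ∀ i, l i = 0 → ∃ a, e a = i := by
    intro i hi
    have : i ∈ range (S.orderEmbOfFin rfl) := by
      rw [Finset.range_orderEmbOfFin]
      exact Finset.mem_filter.2 ⟨Finset.mem_univ _, hi⟩
    exact this
  refine ⟨S.card, P ∘ e, δ ∘ e, hd.comp he, hρ.cover (hd.multi.comp he), fun a => ?_,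
    fun β hβ h0 => MFwd_bdd hρ hd hm hL hβ fun i hi => ?_,
    fun a => ⟨L, hL.mono fun n hn => (hn (e a)).2⟩⟩
  · have := hl (e a)
    rwa [h2] at this
  · have h4 : l i ≠ 0 := by
      intro h
      obtain ⟨a, rfl⟩ := h3 i h
      exact hi (h0 a)
    have h5 : 0 < l i := lt_of_le_of_ne (ge_of_tendsto' (hl i) fun n => tl_nonneg _) h4.symm
    exact ⟨l i / 2, half_pos h5, ((hl i).eventually_const_lt (half_lt_self h5)).mono
      fun n hn => hn.le⟩

theorem MFwd_lub {ι I : Type} [Finite ι] {α δ : ι → Γ} {U : Ultrafilter I} {y z : I → Rep ρ}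
    {c : I → ℝ} {ω : ι → ℝ} {A Y : Γ → ℝ} (hp : Pinch ρ α δ U y) (hρ : Good ρ N)
    (hs : ∃ g, Simple ρ g) (hl : MLimit ρ α δ U c y z ω A Y) {F : ℝ}
    (hF : Tendsto (fun n => exp (dTh (y n).cls (z n).cls) / c n) U (𝓝 F)) :
    IsLUB (range ω ∪ {v | ∃ β, Th ρ α β ∧ v = A β / Y β}) F := by
  have h1 : (range ω ∪ {v | ∃ β, Th ρ α β ∧ v = A β / Y β}).Nonempty := by
    rcases isEmpty_or_nonempty ι with h | ⟨⟨a⟩⟩
    · obtain ⟨g, hg⟩ := hs
      refine ⟨_, Or.inr ⟨g, ⟨hg, fun a => h.elim a, ?_⟩, rfl⟩⟩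
      rintro ⟨a, -⟩
      exact h.elim a
    · exact ⟨_, Or.inl ⟨a, rfl⟩⟩
  have h2 : BddAbove (range ω ∪ {v | ∃ β, Th ρ α β ∧ v = A β / Y β}) := by
    refine ⟨F + 1, fun v hv => ?_⟩
    have h3 : v - 1 ≤ F := by
      refine ge_of_tendsto hF ?_
      filter_upwards [hp.lower hρ hl hv one_pos, hl.top.eventually_gt_atTop 0] with n h4 h5
      exact (le_div_iff₀ h5).2 h4
    linarith
  have h3 := isLUB_csSup h1 h2
  rwa [tendsto_nhds_unique (hp.me hρ hs hl h3) hF] at h3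

theorem fwd_of_bdd (hρ : Good ρ N) (hs : ∃ g, Simple ρ g)
    (hf : ∀ z, Tendsto (fun x : Rep ρ => psi b.cls x.cls z) U (𝓝 (f z))) {C : ℝ}
    (hC : ∀ᶠ x : Rep ρ in U, dTh x.cls b.cls ≤ C) : ∃ x, ∀ z, f z = psi b.cls x z := by
  obtain ⟨k, P, δ, L, φ, hd, hm, hφ, hL⟩ := hρ.exists_dm U fun x => x
  have h1 : ∀ᶠ n : Rep ρ in U, ∀ g, Simple ρ g →
      tl ((b.act (hφ n)).1 g) ≤ exp C * tl ((n.act (hφ n)).1 g) := by
    filter_upwards [hC] with n hn g hg
    refine (MFwd_le hρ hs (n.act (hφ n)) _ hg).trans (mul_le_mul_of_nonneg_right ?_ (tl_nonneg _))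
    rw [dTh_act]
    exact exp_le_exp.2 hn
  obtain ⟨ε, hε, h2⟩ := MFwd_sys hρ b hφ
  have h3 : ∀ β, Simple ρ β → ∃ D, ∀ᶠ n : Rep ρ in U, tl ((n.act (hφ n)).1 β) ≤ D := by
    intro β hβ
    refine MFwd_bdd (y := fun n : Rep ρ => n.act (hφ n)) hρ hd hm hL hβ fun i _ =>
      ⟨ε / exp C, div_pos hε (exp_pos _), h1.mono fun n hn => ?_⟩
    rw [div_le_iff₀' (exp_pos _)]
    exact (h2 n _ (hd.multi.1 i)).trans (hn _ (hd.multi.1 i))
  obtain ⟨y', hy⟩ := exists_lim_rep hρ (MFwd_cover hρ) (fun n : Rep ρ => n.act (hφ n)) h3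
  obtain ⟨b', hb⟩ := exists_lim_rep (U := U) hρ (MFwd_cover hρ) (fun n : Rep ρ => b.act (hφ n)) (by
    intro β hβ
    obtain ⟨D, hD⟩ := h3 β hβ
    refine ⟨exp C * D, ?_⟩
    filter_upwards [h1, hD] with n h4 h5
    exact (h4 β hβ).trans (mul_le_mul_of_nonneg_left h5 (exp_pos _).le))
  have h4 : ∀ᶠ n : Rep ρ in U, dTh b.cls n.cls ≤ 1 + dTh b'.cls y'.cls + 1 := by
    filter_upwards [((tendsto_dTh hρ hs b'.cls).1.comp hb).eventually_lt_const one_pos,
      ((tendsto_dTh hρ hs y'.cls).2.comp hy).eventually_lt_const one_pos] with n h5 h6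
    rw [← dTh_act b n (hφ n)]
    have h7 := dTh_triangle hρ hs (b.act (hφ n)).cls b'.cls (n.act (hφ n)).cls
    have h8 := dTh_triangle hρ hs b'.cls y'.cls (n.act (hφ n)).cls
    simp only [Function.comp_apply] at h5 h6
    linarith
  obtain ⟨x, hx⟩ := exists_lim_rep (U := U) hρ (MFwd_cover hρ) (fun n : Rep ρ => n) (by
    intro β hβ
    refine ⟨exp (1 + dTh b'.cls y'.cls + 1) * tl (b.1 β), h4.mono fun n hn => ?_⟩
    exact (MFwd_le hρ hs b n hβ).trans
      (mul_le_mul_of_nonneg_right (exp_le_exp.2 hn) (tl_nonneg _)))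
  exact ⟨x.cls, fun z => tendsto_nhds_unique (hf z)
    (((continuous_psi_left hρ hs b.cls z).tendsto _).comp hx)⟩

theorem fwd_of_top (hρ : Good ρ N) (hs : ∃ g, Simple ρ g)
    (hf : ∀ z, Tendsto (fun x : Rep ρ => psi b.cls x.cls z) U (𝓝 (f z)))
    (hC : Tendsto (fun x : Rep ρ => dTh x.cls b.cls) U atTop) : Expl b.cls f := by
  classical
  obtain ⟨k, P, δ₀, L, φ, hd, hm, hφ, hL⟩ := hρ.exists_dm U fun x => x
  obtain ⟨m, α, δ, hp⟩ := MFwd_pinch (y := fun n : Rep ρ => n.act (hφ n)) hρ hd hm hL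
  obtain ⟨c, hc⟩ : ∃ c : Rep ρ → ℝ, ∀ n, c n = exp (dTh n.cls b.cls) := ⟨_, fun _ => rfl⟩
  have hc0 : ∀ n, 0 < c n := fun n => by rw [hc]; exact exp_pos _
  have htop : Tendsto c U atTop := (tendsto_exp_atTop.comp hC).congr fun n => (hc n).symm
  have hb : ∀ n g, Simple ρ g → tl ((b.act (hφ n)).1 g) ≤ c n * tl ((n.act (hφ n)).1 g) := by
    intro n g hg
    rw [hc, ← dTh_act n b (hφ n)]
    exact MFwd_le hρ hs _ _ hg
  have hD : LData ρ α U c φ (fun n => (hφ n).choose) b := by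
    refine ⟨hp.duals.multi, hp.cover, fun n => (hφ n).choose_spec, htop, fun a => ?_,
      fun β hβ h0 => ?_⟩
    · refine squeeze_zero (fun n => div_nonneg (tl_nonneg _) (hc0 n).le) (fun n => ?_) (hp.node a)
      rw [div_le_iff₀' (hc0 n)]
      exact hb n _ (hp.duals.multi.1 a)
    · obtain ⟨C, h1⟩ := hp.bdd β hβ h0
      refine ⟨C, h1.mono fun n hn => (hb n β hβ).trans ?_⟩
      rw [mul_comm]
      exact mul_le_mul_of_nonneg_right hn (hc0 n).le
  obtain ⟨r, η, w, h1, h2⟩ := hD.lcur hρ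
  obtain ⟨y, hy, hn, hyl⟩ := hp.exists_aug hρ
  choose ω hω hω' using MFwd_node hφ hp hρ htop (Eventually.of_forall hb)
  choose o ho using (cls_surjective : Function.Surjective (Rep.cls : Rep ρ → Teich ρ))
  have hlen : ∀ X g, len X g = tl ((o X).1 g) := fun X g => by
    conv_lhs => rw [← ho X]
    rfl
  have hf0 : f b.cls = 0 := tendsto_nhds_unique (hf b.cls) (by simp [psi])
  refine ⟨y, hy, m, r, fun a => ⟨α a, hp.duals.multi.1 a⟩, hp.duals.multi, hn.zero,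
    Sum.elim (fun a X => ω (o X) a) fun j X => w j (o X), ?_, fun j β => η j β.1, ?_,
    fun X => exp (f X), fun X => ?_, exp_pos _, fun X => ?_⟩
  · refine MFwd_closure fun Z ε hε => ?_
    obtain ⟨q, s, κ, -, hκ, hq, -, h3⟩ := h2 ∅ (Z.image o) ε (by simp) hε
    have h4 : ∀ᶠ n in U, ∀ a, ∀ X ∈ Z,
        |nodeW (n.act (hφ n)).1 (b.act (hφ n)).1 (α a) (δ a) / (c n * tl (b.1 (φ n (α a)))) *
          tl ((o X).1 (φ n (α a))) - ω (o X) a| ≤ ε := by
      refine eventually_all.2 fun a => (eventually_all_finset Z).2 fun X _ => ?_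
      exact (Metric.tendsto_nhds.1 (hω' (o X) a) ε hε).mono fun n hn => hn.le
    obtain ⟨n, h5, h6⟩ := (h3.and h4).exists
    refine ⟨_, ⟨fun i => φ n (Sum.elim α q i), Sum.elim (fun a =>
      nodeW (n.act (hφ n)).1 (b.act (hφ n)).1 (α a) (δ a) / (c n * tl (b.1 (φ n (α a))))) (κ n),
      (hφ n).multi hq, ?_, rfl⟩, ?_⟩
    · rintro (a | j)
      · exact div_nonneg (MFwd_nodeW_nonneg _ _ _ _) (mul_nonneg (hc0 n).le (tl_nonneg _))
      · exact hκ n j
    · rintro (a | j) X hX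
      · simp only [hlen]
        exact h6 a X hX
      · simp only [hlen]
        exact h5 j _ (Finset.mem_image_of_mem o hX)
  · refine MFwd_closure fun S ε hε => ?_
    obtain ⟨q, s, κ, hs0, -, hq, h3, -⟩ := h2 (S.image Subtype.val) ∅ ε (by
      intro β hβ
      obtain ⟨γ, -, rfl⟩ := Finset.mem_image.1 hβ
      exact γ.2) hε
    have h4 := hq.comp Sum.inr_injective
    rw [Sum.elim_comp_inr] at h4
    refine ⟨_, ⟨fun j => ⟨q j, h4.1 j⟩, s, h4, fun j =>
      (hn.th ⟨q j, h4.1 j⟩).1 (th_of_multi hρ.toDisc hq j), hs0, rfl⟩, fun j β hβ => ?_⟩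
    exact h3 j _ (Finset.mem_image_of_mem _ hβ)
  · have hl : MLimit ρ α δ U c (fun n : Rep ρ => n.act (hφ n)) (fun n => (o X).act (hφ n))
        (ω (o X)) (fun β => ∑ j, w j (o X) * η j β)
        fun β => if h : Simple ρ β then (y ⟨β, h⟩).toReal else 0 := by
      refine ⟨htop, MFwd_sys hρ _ hφ, hω (o X), fun β hβ => h1 _ β hβ.1 hβ.2.1, fun β hβ => ?_⟩
      rw [dif_pos hβ.1]
      exact hyl ⟨β, hβ.1⟩ ((hn.th ⟨β, hβ.1⟩).1 hβ).2
    have h3 := MFwd_lub hp hρ hs hl (F := exp (f X)) (by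
      refine ((continuous_exp.tendsto _).comp (hf X)).congr fun n => ?_
      rw [dTh_act, ho, hc, ← exp_sub]
      rfl)
    have e : vals y (Sum.elim (fun a X => ω (o X) a) fun j X => w j (o X)) (fun j β => η j β.1) X =
        range (ω (o X)) ∪ {v | ∃ β, Th ρ α β ∧ v = (∑ j, w j (o X) * η j β) /
          if h : Simple ρ β then (y ⟨β, h⟩).toReal else 0} := by
      unfold vals
      congr 1
      ext v
      simp only [mem_ofPred_eq]
      constructor
      · rintro ⟨β, h4, h5, rfl⟩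
        refine ⟨β.1, (hn.th β).2 ⟨h4, h5⟩, ?_⟩
        rw [dif_pos β.2]
        rfl
      · rintro ⟨β, h4, rfl⟩
        have h5 := (hn.th ⟨β, h4.1⟩).1 h4
        refine ⟨⟨β, h4.1⟩, h5.1, h5.2, ?_⟩
        rw [dif_pos h4.1]
        rfl
    rw [e]
    exact h3
  · simp only [hf0, exp_zero, div_one, log_exp]

theorem expl_of_mem (hρ : Good ρ N) (hs : ∃ g, Simple ρ g) (b : Teich ρ) {f : C(Teich ρ, ℝ)}
    (hf : f ∈ horoBdry b) : Expl b f := by
  obtain ⟨U, hU⟩ := (mem_closure_horoImage hρ hs b f).1 hf.1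
  obtain ⟨b, rfl⟩ := cls_surjective b
  choose o ho using (cls_surjective : Function.Surjective (Rep.cls : Rep ρ → Teich ρ))
  have h1 : ∀ z, Tendsto (fun x : Rep ρ => psi b.cls x.cls z) (U.map o) (𝓝 (f z)) := by
    intro z
    rw [Ultrafilter.coe_map, tendsto_map'_iff]
    exact (hU z).congr fun x => by simp only [Function.comp_apply, ho]
  refine fwd_of_top hρ hs h1 (tendsto_atTop.2 fun C => ?_)
  by_contra h
  rw [← Ultrafilter.eventually_not] at h
  exact hf.2 (fwd_of_bdd hρ hs h1 (h.mono fun x hx => (not_le.1 hx).le))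

end HRT
end

-- merged part: Pool.Agent.Work.MP_35beee_gt.MBwd
section
/-!
Every explicit function is a horofunction.

Plan. `exists_near`: a neighbourhood of `y` in the product topology meets the range; then apply
`Duals.exists_norm`, which does not change the lengths of the curves off the nodes.
`exists_step`: choose in this order: `q`, `s` that approximate `η` on `S`; `A`, `s'` that approximate
`w` on `Z`; `φ₀`, `u` from `Good.arrow` for the multicurves `Sum.elim α q` (`Nodes.multi_elim`,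
`Multi.comp`) and `A`; then a very large `c`; `K a = ⌊2 * Λ a * c * u (inl a)⌋` with
`Λ a = log (1 / tl (x (α a))) > 0`, `M j = ⌊c * s j * u (inr j)⌋`; `T` with
`IsTw ρ (Sum.elim α q) (Sum.elim K M) T`, and `φ = T.trans φ₀`. Use `IsTw.abs_tl_sub_le`,
`IsTw.tw_comp`, `IsTw.tw_disj`, `IsTw.isConj` in the markings `z.act _`; the error terms do not
depend on `c`.
`mem_closure_of_expl`: index set `Finset Γ × Finset (Rep ρ) × ℕ` with an ultrafilter finer than
`atTop`; `Pinch`, `MLimit` for each `z`, `Pinch.me` (the extra nodes have weight zero, which does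
not change the supremum, `lub_pos`), `dTh_act` with `(x n).act (symm)`,
`mem_closure_of_tendsto_psi`.
-/

namespace HRT

open Set Filter Topology Real

variable {Γ : Type} [Group Γ] {ρ : Γ →* Isom} {N : ℝ → ℝ} {y : SC ρ → ENNReal}

theorem MBwd_conj (σ : Γ →* Isom) {g h : Γ} (H : IsConj g h) : tl (σ h) = tl (σ g) := by
  obtain ⟨c, rfl⟩ := isConj_iff.1 H
  rw [map_mul, map_mul, map_inv, tl_conj]

theorem MBwd_inter {κ : Type} {R : κ → Γ} (hρ : Disc ρ) (h : Multi ρ R) (i j : κ) :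
    inter ρ (R i) (R j) = 0 :=
  (hρ.inter_eq_zero_iff (h.1 i).hyp (h.1 j).hyp (h.1 j).prim).2 fun k => by
    simpa using GSys_nc hρ h i j 1 k

theorem MBwd_pos (x : Rep ρ) {g : Γ} (hg : Hyp (ρ g)) : 0 < tl (x.1 g) := len_pos x.cls hg

theorem MBwd_tri {a b c d e f : ℝ} (h1 : |a - b| ≤ d) (h2 : |b - c| ≤ e) (h : d + e ≤ f) :
    |a - c| ≤ f := (abs_sub_le a b c).trans (by linarith)

theorem exists_near (hρ : Good ρ N) (hy : y ∈ Aug ρ) {ι : Type} [Finite ι] {ν δ : ι → Γ}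
    (hν : Nodes ρ y ν) (hδ : Duals ρ ν δ) (S : Finset (SC ρ)) {ε : ℝ} (hε : 0 < ε) :
    ∃ x : Rep ρ, (∀ β ∈ S, y β < ⊤ → |tl (x.1 β.1) - (y β).toReal| ≤ ε) ∧
      ∀ a, tl (x.1 (ν a)) ≤ ε ∧ |tw x.1 (ν a) (δ a)| ≤ 4 * ε := by
  classical
  have := Fintype.ofFinite ι
  let T : Finset (SC ρ) := S ∪ Finset.univ.image fun a => (⟨ν a, hν.multi.1 a⟩ : SC ρ)
  have h1 : ∀ᶠ v in 𝓝 y, ∀ β ∈ T, y β < ⊤ → |(v β).toReal - (y β).toReal| ≤ ε := by
    refine (eventually_all_finset T).2 fun β _ => ?_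
    by_cases hβ : y β < ⊤
    · have h2 : Tendsto (fun v : SC ρ → ENNReal => (v β).toReal) (𝓝 y) (𝓝 (y β).toReal) :=
        (ENNReal.tendsto_toReal hβ.ne).comp ((continuous_apply β).tendsto y)
      filter_upwards [h2.eventually (Metric.closedBall_mem_nhds _ hε)] with v hv _
      exact hv
    · exact Eventually.of_forall fun _ h => absurd h hβ
  obtain ⟨_, hv, X, rfl⟩ := mem_closure_iff_nhds.1 hy.1 _ h1
  obtain ⟨x, rfl⟩ := cls_surjective X
  have hx : ∀ β ∈ T, y β < ⊤ → |tl (x.1 β.1) - (y β).toReal| ≤ ε := fun β hβ h => by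
    have h2 : |(ENNReal.ofReal (tl (x.1 β.1))).toReal - (y β).toReal| ≤ ε := hv β hβ h
    rwa [ENNReal.toReal_ofReal (tl_nonneg _)] at h2
  obtain ⟨φ, hφ, h2, h3⟩ := hδ.exists_norm hρ.toDisc x
  have h4 : ∀ β : SC ρ, y β < ⊤ → tl (x.1 (φ β.1)) = tl (x.1 β.1) := fun β h =>
    MBwd_conj x.1 (h2 _ β.2.hyp fun a => by
      by_contra hc
      exact h.ne (top_of_cross hρ.toDisc hy (hν.zero a) hc))
  have h5 : ∀ a, tl (x.1 (ν a)) ≤ ε := fun a => by
    have h6 := hx ⟨ν a, hν.multi.1 a⟩ (by simp [T]) (by rw [hν.zero]; exact ENNReal.zero_lt_top)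
    rw [hν.zero, ENNReal.toReal_zero, sub_zero] at h6
    exact (le_abs_self _).trans h6
  refine ⟨x.act hφ, fun β hβ h => ?_, fun a => ⟨?_, ?_⟩⟩
  · rw [Rep.act_apply, h4 β h]
    exact hx β (Finset.mem_union_left _ hβ) h
  · rw [Rep.act_apply, h4 ⟨ν a, hν.multi.1 a⟩ (by rw [hν.zero]; exact ENNReal.zero_lt_top)]
    exact h5 a
  · exact (h3 a).trans (by linarith [h5 a])

theorem MBwd_div {f : ℝ → ℝ} {L C : ℝ} (h : ∀ c, 0 ≤ c → |f c - c * L| ≤ C) :
    Tendsto (fun c => f c / c) atTop (𝓝 L) := by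
  have h1 : Tendsto (fun c : ℝ => C / c) atTop (𝓝 0) := tendsto_const_nhds.div_atTop tendsto_id
  rw [tendsto_iff_dist_tendsto_zero]
  refine squeeze_zero' (Eventually.of_forall fun _ => dist_nonneg) ?_ h1
  filter_upwards [eventually_gt_atTop 0] with c hc
  rw [Real.dist_eq, le_div_iff₀ hc, ← abs_of_pos hc, ← abs_mul, abs_of_pos hc, sub_mul,
    div_mul_cancel₀ _ hc.ne', mul_comm L]
  exact h c hc.le

theorem MBwd_floor {t : ℝ} (ht : 0 ≤ t) : |(|(⌊t⌋ : ℝ)|) - t| ≤ 1 := by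
  have h1 : (0 : ℝ) ≤ ⌊t⌋ := by exact_mod_cast Int.floor_nonneg.2 ht
  rw [abs_of_nonneg h1]
  exact abs_le.2 ⟨by linarith [Int.lt_floor_add_one t], by linarith [Int.floor_le t]⟩

theorem MBwd_prod {κ : Type} [Fintype κ] (w η : κ → ℝ) {ε : ℝ} (hε : 0 < ε) :
    ∀ᶠ d in 𝓝[>] (0 : ℝ), ∀ a b : κ → ℝ, (∀ j, |a j - w j| ≤ 2 * d) → (∀ j, |b j - η j| ≤ d) →
      |∑ j, a j * b j - ∑ j, w j * η j| ≤ ε := by
  have h1 : Continuous fun d : ℝ => ∑ j, (2 * d * (|η j| + d) + |w j| * d) := by fun_prop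
  have h2 : ∀ᶠ d in 𝓝 (0 : ℝ), ∑ j, (2 * d * (|η j| + d) + |w j| * d) < ε :=
    h1.continuousAt.eventually_lt continuousAt_const (by simpa using hε)
  filter_upwards [mem_nhdsWithin_of_mem_nhds h2] with d hd a b ha hb
  rw [← Finset.sum_sub_distrib]
  refine (Finset.abs_sum_le_sum_abs _ _).trans ((Finset.sum_le_sum fun j _ => ?_).trans hd.le)
  have e : a j * b j - w j * η j = (a j - w j) * b j + w j * (b j - η j) := by ring
  have h3 : |b j| ≤ |η j| + d := by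
    have := abs_sub_abs_le_abs_sub (b j) (η j)
    linarith [hb j]
  rw [e]
  refine (abs_add_le _ _).trans (add_le_add ?_ ?_)
  · rw [abs_mul]
    exact mul_le_mul (ha j) h3 (abs_nonneg _) ((abs_nonneg _).trans (ha j))
  · rw [abs_mul]
    exact mul_le_mul_of_nonneg_left (hb j) (abs_nonneg _)

theorem MBwd_et {r : ℕ} {η : Fin r → SC ρ → ℝ} (hη : η ∈ ET y (Fin r)) (S : Finset (SC ρ))
    {d : ℝ} (hd : 0 < d) : ∃ (q : Fin r → SC ρ) (s : Fin r → ℝ), Multi ρ (fun j => (q j).1) ∧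
      (∀ j, 0 < y (q j) ∧ y (q j) < ⊤) ∧ (∀ j, 0 ≤ s j) ∧
        ∀ j, ∀ β ∈ S, |s j * inter ρ β.1 (q j).1 - η j β| ≤ d := by
  have h1 : ∀ᶠ v in 𝓝 η, ∀ j, ∀ β ∈ S, |v j β - η j β| ≤ d :=
    eventually_all.2 fun j => (eventually_all_finset S).2 fun β _ => by
      have h2 : Continuous fun v : Fin r → SC ρ → ℝ => v j β := by fun_prop
      exact (h2.tendsto η).eventually (Metric.closedBall_mem_nhds (η j β) hd)
  obtain ⟨_, hv, q, s, h2, h3, h4, rfl⟩ := mem_closure_iff_nhds.1 hη _ h1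
  exact ⟨q, s, h2, h3, h4, hv⟩

theorem MBwd_wt {ι : Type} [Finite ι] {w : ι → Teich ρ → ℝ} (hw : w ∈ WT ρ ι)
    (Z : Finset (Rep ρ)) {d : ℝ} (hd : 0 < d) : ∃ (A : ι → Γ) (s : ι → ℝ), Multi ρ A ∧
      (∀ i, 0 ≤ s i) ∧ ∀ i, ∀ z ∈ Z, |s i * tl (z.1 (A i)) - w i z.cls| ≤ d := by
  have h1 : ∀ᶠ v in 𝓝 w, ∀ i, ∀ z ∈ Z, |v i z.cls - w i z.cls| ≤ d :=
    eventually_all.2 fun i => (eventually_all_finset Z).2 fun z _ => by
      have h2 : Continuous fun v : ι → Teich ρ → ℝ => v i z.cls := by fun_prop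
      exact (h2.tendsto w).eventually (Metric.closedBall_mem_nhds (w i z.cls) hd)
  obtain ⟨_, hv, A, s, h2, h3, rfl⟩ := mem_closure_iff_nhds.1 hw _ h1
  exact ⟨A, s, h2, h3, hv⟩

theorem MBwd_perm {ι κ μ : Type} {a : ι → Γ} {b : κ → Γ} {c : μ → Γ}
    (h : Multi ρ (Sum.elim (Sum.elim a b) c)) : Multi ρ (Sum.elim (Sum.elim a c) b) := by
  let e : (ι ⊕ μ) ⊕ κ → (ι ⊕ κ) ⊕ μ :=
    Sum.elim (Sum.elim (Sum.inl ∘ Sum.inl) Sum.inr) (Sum.inl ∘ Sum.inr)
  have he : Function.Injective e := by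
    rintro ((i | i) | i) ((j | j) | j) h <;> cases h <;> rfl
  have h3 : Sum.elim (Sum.elim a c) b = Sum.elim (Sum.elim a b) c ∘ e := by
    funext i
    rcases i with (i | i) | i <;> rfl
  exact h3 ▸ h.comp he

section twist

variable {ι : Type} [Fintype ι] {R : ι → Γ} {t : ι → ℝ} {T : ℝ → Γ ≃* Γ}
  (hρ : Disc ρ) (hR : Multi ρ R) (ht : ∀ i, 0 ≤ t i)
  (hT : ∀ c, IsTw ρ R (fun i => ⌊c * t i⌋) (T c)) (z : Rep ρ)
include hρ hR ht hT

theorem MBwd_len {g : Γ} (hg : Hyp (ρ g)) : Tendsto (fun c => tl (z.1 (T c g)) / c) atTop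
    (𝓝 (∑ i, t i * tl (z.1 (R i)) * inter ρ g (R i))) := by
  obtain ⟨C, hC⟩ := IsTw.abs_tl_sub_le hρ hR z hg
  refine MBwd_div (C := C + ∑ i, tl (z.1 (R i)) * inter ρ g (R i)) fun c hc => ?_
  refine (abs_sub_le _ _ _).trans (add_le_add (hC _ _ (hT c)) ?_)
  rw [Finset.mul_sum, ← Finset.sum_sub_distrib]
  refine (Finset.abs_sum_le_sum_abs _ _).trans (Finset.sum_le_sum fun i _ => ?_)
  have h0 : 0 ≤ tl (z.1 (R i)) * inter ρ g (R i) := mul_nonneg (tl_nonneg _) (Nat.cast_nonneg _)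
  have e : |((⌊c * t i⌋ : ℤ) : ℝ)| * tl (z.1 (R i)) * inter ρ g (R i) -
      c * (t i * tl (z.1 (R i)) * inter ρ g (R i)) =
      (|((⌊c * t i⌋ : ℤ) : ℝ)| - c * t i) * (tl (z.1 (R i)) * inter ρ g (R i)) := by ring
  rw [e, abs_mul, abs_of_nonneg h0]
  exact mul_le_of_le_one_left h0 (MBwd_floor (mul_nonneg hc (ht i)))

theorem MBwd_tw {d : Γ} (hd : Simple ρ d) {i : ι} (hc : Cross (ax (ρ (R i))) (ax (ρ d))) :
    Tendsto (fun c => |tw z.1 (T c (R i)) (T c d)| / c) atTop (𝓝 (t i * tl (z.1 (R i)))) := by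
  refine MBwd_div (C := |tw z.1 (R i) d| + 4 * tl (z.1 (R i))) fun c hc' => ?_
  have h1 := (hT c).tw_comp hρ hR z hd hc
  have h2 := MBwd_floor (mul_nonneg hc' (ht i))
  have h0 := tl_nonneg (z.1 (R i))
  generalize tw z.1 (T c (R i)) (T c d) = a at h1 ⊢
  generalize tw z.1 (R i) d = b at h1 ⊢
  generalize tl (z.1 (R i)) = l at h1 h0 ⊢
  generalize ((⌊c * t i⌋ : ℤ) : ℝ) = k at h1 h2
  have h3 : |(|a|) - (|k * l|)| ≤ |b| + 3 * l := by
    refine (abs_abs_sub_abs_le_abs_sub _ _).trans ?_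
    have e : a - k * l = b + (a - b - k * l) := by ring
    rw [e]
    exact (abs_add_le _ _).trans (by linarith)
  have h4 : |(|k * l|) - c * (t i * l)| ≤ l := by
    have e : |k * l| - c * (t i * l) = (|k| - c * t i) * l := by
      rw [abs_mul, abs_of_nonneg h0]
      ring
    rw [e, abs_mul, abs_of_nonneg h0]
    exact mul_le_of_le_one_left h0 h2
  exact MBwd_tri h3 h4 (by linarith)

omit ht in
theorem MBwd_tw0 {s d : Γ} (hs : Th ρ R s) (hd : Simple ρ d) (hc : Cross (ax (ρ s)) (ax (ρ d))) :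
    Tendsto (fun c => |tw z.1 (T c s) (T c d)| / c) atTop (𝓝 0) := by
  refine MBwd_div (C := |tw z.1 s d| + 3 * tl (z.1 s)) fun c _ => ?_
  have h1 := (hT c).tw_disj hρ hR z hs.1.hyp hd hs.2.1 hs.2.2 hc
  have h2 := abs_sub_abs_le_abs_sub (tw z.1 (T c s) (T c d)) (tw z.1 s d)
  rw [mul_zero, sub_zero, abs_abs]
  linarith

omit ht in
theorem MBwd_node (x : Rep ρ) {s d : Γ} (hs : Hyp (ρ s)) (h0 : ∀ i, inter ρ s (R i) = 0) {L : ℝ}
    (hL : 0 ≤ L) (hx : tl (x.1 s) < 1) (h : Tendsto (fun c => |tw z.1 (T c s) (T c d)| / c) atTop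
      (𝓝 (2 * log (1 / tl (x.1 s)) * L))) :
    Tendsto (fun c => nodeW x.1 (z.act ((hT c).isMod hρ hR)).1 s d / c) atTop (𝓝 L) := by
  have hp := MBwd_pos x hs
  have h1 : 0 < 2 * log (1 / tl (x.1 s)) :=
    mul_pos two_pos (log_pos (by rw [lt_div_iff₀ hp]; linarith))
  have h2 : Tendsto (fun c : ℝ => tl (z.1 s) / tl (x.1 s) / c) atTop (𝓝 0) :=
    tendsto_const_nhds.div_atTop tendsto_id
  have h3 := h2.max (h.div_const (2 * log (1 / tl (x.1 s))))
  rw [mul_div_cancel_left₀ _ h1.ne', max_eq_right hL] at h3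
  refine h3.congr' ?_
  filter_upwards [eventually_gt_atTop 0] with c hc
  rw [nodeW, ← max_div_div_right hc.le, Rep.act_apply,
    MBwd_conj z.1 ((hT c).isConj hρ hR hs h0), div_right_comm _ c]
  rfl

end twist

theorem exists_step (hρ : Good ρ N) {m m' r : ℕ} {α : Fin m → Γ} {α' : Fin m' → Γ}
    {δ : Fin m ⊕ Fin m' → Γ} (hν : Nodes ρ y (Sum.elim α α')) (hδ : Duals ρ (Sum.elim α α') δ)
    {w : Fin m ⊕ Fin r → Teich ρ → ℝ} {η : Fin r → SC ρ → ℝ} (hw : w ∈ WT ρ (Fin m ⊕ Fin r))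
    (hη : η ∈ ET y (Fin r)) (x : Rep ρ) (hx : ∀ a, tl (x.1 (Sum.elim α α' a)) < 1)
    (S : Finset (SC ρ)) (Z : Finset (Rep ρ)) {ε : ℝ} (hε : 0 < ε) (c₀ : ℝ) :
    ∃ (φ : Γ ≃* Γ) (hφ : IsMod ρ φ) (c : ℝ), c₀ ≤ c ∧ ∀ z ∈ Z,
      (∀ β ∈ S, Th ρ (Sum.elim α α') β.1 →
        |tl (z.1 (φ β.1)) / c - ∑ j, w (Sum.inr j) z.cls * η j β| ≤ ε) ∧
      (∀ a, |nodeW x.1 (z.act hφ).1 (α a) (δ (Sum.inl a)) / c - w (Sum.inl a) z.cls| ≤ ε) ∧
      ∀ a, |nodeW x.1 (z.act hφ).1 (α' a) (δ (Sum.inr a)) / c| ≤ ε := by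
  classical
  have hD := hρ.toDisc
  have h1 : ∀ᶠ d in 𝓝[>] (0 : ℝ), ∀ z ∈ Z, ∀ β ∈ S, ∀ a b : Fin r → ℝ,
      (∀ j, |a j - w (Sum.inr j) z.cls| ≤ 2 * d) → (∀ j, |b j - η j β| ≤ d) →
        |∑ j, a j * b j - ∑ j, w (Sum.inr j) z.cls * η j β| ≤ ε / 2 :=
    (eventually_all_finset Z).2 fun z _ => (eventually_all_finset S).2 fun β _ =>
      MBwd_prod _ _ (half_pos hε)
  have h2 : ∀ᶠ d in 𝓝[>] (0 : ℝ), d ∈ Ioo 0 (ε / 4) := Ioo_mem_nhdsGT (by linarith)
  obtain ⟨d, hd, hd0, hd1⟩ := (h1.and h2).exists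
  obtain ⟨q, s, q1, q2, s0, q3⟩ := MBwd_et hη S hd0
  obtain ⟨A, s', A1, s0', A2⟩ := MBwd_wt hw Z hd0
  have hM := hν.multi_elim hD q1 q2
  let R : Fin m ⊕ Fin r → Γ := Sum.elim α fun j => (q j).1
  have hM' : Multi ρ (Sum.elim R α') := MBwd_perm hM
  have hR : Multi ρ R := by simpa only [Sum.elim_comp_inl] using hM'.comp Sum.inl_injective
  obtain ⟨φ₀, u, hφ₀, u0, hu⟩ := hρ.arrow hR A1 s' Z d s0' hd0
  have hu' : ∀ i, ∀ z ∈ Z, |u i * tl ((z.act hφ₀).1 (R i)) - w i z.cls| ≤ 2 * d :=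
    fun i z hz => MBwd_tri (hu i z hz) (A2 i z hz) (by linarith only [])
  have hΛ : ∀ a, 0 ≤ 2 * log (1 / tl (x.1 (α a))) := fun a => by
    have hp : 0 < tl (x.1 (α a)) := MBwd_pos x (hR.1 (Sum.inl a)).hyp
    have h3 : tl (x.1 (α a)) < 1 := hx (Sum.inl a)
    exact mul_nonneg zero_le_two (log_nonneg ((le_div_iff₀ hp).2 (by linarith)))
  let t : Fin m ⊕ Fin r → ℝ := Sum.elim
    (fun a => 2 * log (1 / tl (x.1 (α a))) * u (Sum.inl a)) fun j => s j * u (Sum.inr j)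
  have ht : ∀ i, 0 ≤ t i := by
    rintro (a | j)
    · exact mul_nonneg (hΛ a) (u0 _)
    · exact mul_nonneg (s0 j) (u0 _)
  choose T hT using fun c : ℝ => exists_isTw hD hR fun i => ⌊c * t i⌋
  have key : ∀ᶠ c in atTop, ∀ z ∈ Z,
      (∀ β ∈ S, Th ρ (Sum.elim α α') β.1 →
        |tl ((z.act hφ₀).1 (T c β.1)) / c - ∑ j, w (Sum.inr j) z.cls * η j β| ≤ ε) ∧
      (∀ a, |nodeW x.1 ((z.act hφ₀).act ((hT c).isMod hD hR)).1 (α a) (δ (Sum.inl a)) / c -
        w (Sum.inl a) z.cls| ≤ ε) ∧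
      ∀ a, |nodeW x.1 ((z.act hφ₀).act ((hT c).isMod hD hR)).1 (α' a) (δ (Sum.inr a)) / c| ≤ ε := by
    rw [eventually_all_finset]
    intro z hz
    rw [eventually_and, eventually_and, eventually_all_finset, eventually_all, eventually_all]
    refine ⟨fun β hβ => ?_, fun a => ?_, fun a => ?_⟩
    · by_cases hth : Th ρ (Sum.elim α α') β.1
      swap
      · exact Eventually.of_forall fun _ h => absurd h hth
      have h3 := MBwd_len hD hR ht hT (z.act hφ₀) β.2.hyp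
      have h4 := hd z hz β hβ (fun j => u (Sum.inr j) * tl ((z.act hφ₀).1 (R (Sum.inr j))))
        (fun j => s j * inter ρ β.1 (q j).1) (fun j => hu' _ z hz) fun j => q3 j β hβ
      have e : ∑ i, t i * tl ((z.act hφ₀).1 (R i)) * inter ρ β.1 (R i) =
          ∑ j, u (Sum.inr j) * tl ((z.act hφ₀).1 (R (Sum.inr j))) *
            (s j * inter ρ β.1 (q j).1) := by
        have h5 : ∀ a, inter ρ β.1 (R (Sum.inl a)) = 0 := fun a => hth.2.1 (Sum.inl a)
        have h6 : ∀ j, inter ρ β.1 (R (Sum.inr j)) = inter ρ β.1 (q j).1 := fun _ => rfl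
        have h7 : ∀ j, t (Sum.inr j) = s j * u (Sum.inr j) := fun _ => rfl
        simp only [Fintype.sum_sum_type, h5, h6, h7, Nat.cast_zero, mul_zero,
          Finset.sum_const_zero, zero_add]
        exact Finset.sum_congr rfl fun j _ => by ring
      rw [e] at h3
      filter_upwards [h3.eventually (Metric.closedBall_mem_nhds _ (half_pos hε))] with c hc _
      rw [Real.dist_eq] at hc
      exact MBwd_tri hc h4 (by linarith only [])
    · have h3 := MBwd_tw hD hR ht hT (z.act hφ₀) (hδ.simple (Sum.inl a)) (i := Sum.inl a)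
        (hδ.cross (Sum.inl a))
      have h4 := MBwd_node hD hR hT (z.act hφ₀) x (s := α a) (d := δ (Sum.inl a))
        (hR.1 (Sum.inl a)).hyp (MBwd_inter hD hR (Sum.inl a))
        (mul_nonneg (u0 (Sum.inl a)) (tl_nonneg ((z.act hφ₀).1 (R (Sum.inl a)))))
        (hx (Sum.inl a)) (by rw [← mul_assoc]; exact h3)
      filter_upwards [h4.eventually (Metric.closedBall_mem_nhds _ (half_pos hε))] with c hc
      rw [Real.dist_eq] at hc
      exact MBwd_tri hc (hu' (Sum.inl a) z hz) (by linarith only [hd1])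
    · have h5 := th_of_multi hD hM' a
      have h3 := MBwd_tw0 hD hR hT (z.act hφ₀) h5 (hδ.simple (Sum.inr a)) (hδ.cross (Sum.inr a))
      have h4 := MBwd_node hD hR hT (z.act hφ₀) x (s := α' a) (d := δ (Sum.inr a))
        h5.1.hyp h5.2.1 le_rfl (hx (Sum.inr a)) (by rw [mul_zero]; exact h3)
      filter_upwards [h4.eventually (Metric.closedBall_mem_nhds _ hε)] with c hc
      rwa [Real.dist_eq, sub_zero] at hc
  obtain ⟨c, h3, h4⟩ := (key.and (eventually_ge_atTop c₀)).exists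
  exact ⟨(T c).trans φ₀, ((hT c).isMod hD hR).trans hφ₀, c, h4, h3⟩

theorem MBwd_near {I : Type} {U : Filter I} {e f : I → ℝ} {L : ℝ} (he : Tendsto e U (𝓝 0))
    (h : ∀ᶠ n in U, |f n - L| ≤ e n) : Tendsto f U (𝓝 L) := by
  rw [tendsto_iff_dist_tendsto_zero]
  exact squeeze_zero' (Eventually.of_forall fun _ => dist_nonneg) h he

theorem MBwd_lim (hρ : Good ρ N) (hs : ∃ g, Simple ρ g) (b : Teich ρ) {h : Teich ρ → ℝ}
    (hh : Expl b h) : ∃ (I : Type) (U : Ultrafilter I) (x : I → Teich ρ),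
      ∀ z, Tendsto (fun n => psi b (x n) z) U (𝓝 (h z)) := by
  classical
  obtain ⟨y, hy, m, r, α, hα, h0, w, hw, η, hη, F, hF, hb, hh⟩ := hh
  obtain ⟨m', α', hν⟩ := exists_nodes hρ hy hα h0
  obtain ⟨δ, hδ⟩ := hρ.exists_duals hν.multi
  let I := Finset (SC ρ) × Finset (Rep ρ) × ℕ
  let e : I → ℝ := fun n => 1 / ((n.2.2 : ℝ) + 2)
  have e0 : ∀ n, 0 < e n := fun n => by positivity
  have e1 : ∀ n, e n < 1 := fun n => by
    have : (0 : ℝ) ≤ n.2.2 := Nat.cast_nonneg _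
    exact (div_lt_one (by linarith)).2 (by linarith)
  choose x x1 x2 using fun n : I => exists_near hρ hy hν hδ n.1 (e0 n)
  choose φ hφ c hc H using fun n : I => exists_step hρ hν hδ hw hη (x n)
    (fun a => (x2 n a).1.trans_lt (e1 n)) n.1 n.2.1 (e0 n) n.2.2
  let U : Ultrafilter I := Ultrafilter.of atTop
  have hU : (U : Filter I) ≤ atTop := Ultrafilter.of_le _
  have tk : Tendsto (fun n : I => (n.2.2 : ℝ)) U atTop := tendsto_natCast_atTop_atTop.comp
    ((tendsto_atTop.2 fun k => (eventually_ge_atTop ((∅, ∅, k) : I)).mono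
      fun _ hn => hn.2.2).mono_left hU)
  have te : Tendsto e U (𝓝 0) := tendsto_const_nhds.div_atTop (tendsto_atTop_add_const_right _ _ tk)
  have tc : Tendsto c U atTop := tendsto_atTop_mono hc tk
  have mS : ∀ β, ∀ᶠ n : I in U, β ∈ n.1 := fun β =>
    hU ((eventually_ge_atTop (({β}, ∅, 0) : I)).mono fun _ hn => hn.1 (Finset.mem_singleton_self β))
  have mZ : ∀ z, ∀ᶠ n : I in U, z ∈ n.2.1 := fun z =>
    hU ((eventually_ge_atTop ((∅, {z}, 0) : I)).mono
      fun _ hn => hn.2.1 (Finset.mem_singleton_self z))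
  have ty : ∀ β : SC ρ, y β < ⊤ → Tendsto (fun n => tl ((x n).1 β.1)) U (𝓝 (y β).toReal) :=
    fun β hβ => MBwd_near te ((mS β).mono fun n hn => x1 n β hn hβ)
  have hP : Pinch ρ (Sum.elim (fun a => (α a).1) α') δ U x := by
    refine ⟨hδ, hρ.cover hν.multi, fun a => squeeze_zero (fun _ => tl_nonneg _)
      (fun n => (x2 n a).1) te, fun β hβ hi => ?_, fun a => ⟨4, Eventually.of_forall fun n => ?_⟩⟩
    · exact ⟨_, (ty ⟨β, hβ⟩ (hν.fin _ hi)).eventually (Iic_mem_nhds (lt_add_one _))⟩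
    · linarith [(x2 n a).2, e1 n]
  have main : ∀ z : Rep ρ, Tendsto
      (fun n => exp (dTh ((x n).act (hφ n).symm).cls z.cls) / c n) U (𝓝 (F z.cls)) := by
    intro z
    have hl : MLimit ρ (Sum.elim (fun a => (α a).1) α') δ U c x (fun n => z.act (hφ n))
        (Sum.elim (fun a => w (Sum.inl a) z.cls) fun _ => 0)
        (fun β => if hβ : Simple ρ β then ∑ j, w (Sum.inr j) z.cls * η j ⟨β, hβ⟩ else 0)
        fun β => if hβ : Simple ρ β then (y ⟨β, hβ⟩).toReal else 0 := by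
      refine ⟨tc, ?_, ?_, fun β hβ => ?_, fun β hβ => ?_⟩
      · obtain ⟨ε, h1, h2⟩ := z.2.choose_spec.exists_sys hρ
        exact ⟨ε, h1, fun n g hg => h2 _ (((hφ n).simple_iff g).2 hg)⟩
      · rintro (a | a)
        · exact MBwd_near te ((mZ z).mono fun n hn => (H n z hn).2.1 a)
        · exact MBwd_near te ((mZ z).mono fun n hn => by
            simpa only [Sum.elim_inr, sub_zero] using (H n z hn).2.2 a)
      · rw [dif_pos hβ.1]
        refine MBwd_near te ?_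
        filter_upwards [mZ z, mS ⟨β, hβ.1⟩] with n h1 h2
        rw [Rep.act_apply]
        exact (H n z h1).1 ⟨β, hβ.1⟩ h2 hβ
      · rw [dif_pos hβ.1]
        exact ty ⟨β, hβ.1⟩ ((hν.th ⟨β, hβ.1⟩).1 hβ).2
    have h1 := hP.me hρ hs hl (F := F z.cls) ⟨?_, fun v hv => (hF z.cls).2 ?_⟩
    · refine h1.congr fun n => ?_
      have e2 : ((x n).act (hφ n).symm).act (hφ n) = x n :=
        Subtype.ext (MonoidHom.ext fun g => congrArg (x n).1 ((φ n).symm_apply_apply g))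
      rw [← dTh_act ((x n).act (hφ n).symm) z (hφ n), e2]
    · rintro v (⟨a | a, rfl⟩ | ⟨β, hβ, rfl⟩)
      · exact (hF z.cls).1 (Or.inl ⟨a, rfl⟩)
      · exact (lub_pos hρ hw hη hF hb z.cls).le
      · have h2 := (hν.th ⟨β, hβ.1⟩).1 hβ
        refine (hF z.cls).1 (Or.inr ⟨⟨β, hβ.1⟩, h2.1, h2.2, ?_⟩)
        simp only [dif_pos hβ.1]
    · rintro v' (⟨a, rfl⟩ | ⟨β, h2, h3, rfl⟩)
      · exact hv (Or.inl ⟨Sum.inl a, rfl⟩)
      · refine hv (Or.inr ⟨β.1, (hν.th β).2 ⟨h2, h3⟩, ?_⟩)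
        simp only [dif_pos β.2]
  refine ⟨I, U, fun n => ((x n).act (hφ n).symm).cls, fun z => ?_⟩
  obtain ⟨z, rfl⟩ := cls_surjective z
  obtain ⟨b, rfl⟩ := cls_surjective b
  have h1 := ((main z).div (main b) hb.ne').log
    (div_pos (lub_pos hρ hw hη hF hb z.cls) hb).ne'
  rw [hh]
  refine h1.congr' ?_
  filter_upwards [tc.eventually_gt_atTop 0] with n hn
  rw [Pi.div_apply, div_div_div_cancel_right₀ hn.ne', ← exp_sub, log_exp, psi]

theorem mem_closure_of_expl (hρ : Good ρ N) (hs : ∃ g, Simple ρ g) (b : Teich ρ)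
    {f : C(Teich ρ, ℝ)} (hf : Expl b f) : f ∈ closure (horoImage b) := by
  obtain ⟨I, U, x, h⟩ := MBwd_lim hρ hs b hf
  exact mem_closure_of_tendsto_psi hρ hs b h

theorem exists_cont_of_expl (hρ : Good ρ N) (hs : ∃ g, Simple ρ g) (b : Teich ρ)
    {h : Teich ρ → ℝ} (hh : Expl b h) : Continuous h := by
  obtain ⟨I, U, x, H⟩ := MBwd_lim hρ hs b hh
  exact continuous_of_sub_le hρ hs fun z z' =>
    le_of_tendsto' ((H z).sub (H z')) fun n => psi_sub_le hρ hs b (x n) z z'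

theorem mem_of_expl (hρ : Good ρ N) (hs : ∃ g, Simple ρ g) (b : Teich ρ) {f : C(Teich ρ, ℝ)}
    (hf : Expl b f) : f ∈ horoBdry b := by
  refine ⟨mem_closure_of_expl hρ hs b hf, ?_⟩
  rintro ⟨x, hx⟩
  refine not_expl hρ hs (hρ.cover ⟨fun i => i.elim, fun i => i.elim⟩) hρ.hasDual b x ?_
  rwa [show psi b x = f from funext fun z => (hx z).symm]

end HRT
end

-- merged part: Pool.Agent.Work.MP_35beee_gt.TRep
section
/-!
A horofunction is the logarithm of the supremum of a compact convex set of laminations.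

Plan. `isCompact_ml`: closed subset of a product of compact intervals (`wt_le`, `mem_ml_iff`).
`exists_rep`: take the data `w₀`, `η`, `F` of `Expl` and put `w i = w₀ i / w₀ i b` (zero if
`w₀ i b = 0`, then `w₀ i = 0` by `wt_le`; `wt_smul`, `wt_comp` with `finSumFinEquiv`). Let `V` be the
set of the coefficient vectors `v` (the basis vectors for the nodes, the vectors `η j β / y β`), and
let `C` be the closed convex hull of the vectors `v i * w₀ i b / F b`, which lie in the unit cube.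
For the last part apply `wt_rank_one` to `w₀` with `d = 1 - t`, `c i = t * w₀ i b`, and use the same
`y`, `α`, `η`. The number of indices is bounded by `exists_multi_bound`.
`pml_subset`: `y` the length function of a point `x`, no node, `η` the intersection function of a
simple curve `q`; the supremum of `inter β q / len x β` is finite (`inter_mul_colW_le`) and
positive (`hasDual`). `isCompact_horoBdry`: if `f n → psi b x` take the limit `u` of the sums
`∑ i, w i` of `exists_rep` (`wt_sum`) along an ultrafilter (`isCompact_ml`); `not_dominated`.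
`eq_pml`: all index types have at most one element.
-/

namespace HRT

open Set Filter Topology Real

variable {Γ : Type} [Group Γ] {ρ : Γ →* Isom} {N : ℝ → ℝ}

theorem TRep_nonneg {w : Teich ρ → ℝ} (hw : w ∈ ML ρ) (z : Teich ρ) : 0 ≤ w z :=
  wt_nonneg (mem_ml_iff.1 hw) () z

theorem TRep_le (hρ : Good ρ N) {w : Teich ρ → ℝ} (hw : w ∈ ML ρ) (z z' : Teich ρ) :
    w z' ≤ exp (dTh z z') * w z :=
  wt_le hρ (mem_ml_iff.1 hw) () z z'

theorem continuous_of_ml (hρ : Good ρ N) (hs : ∃ g, Simple ρ g) {w : Teich ρ → ℝ}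
    (hw : w ∈ ML ρ) : Continuous w := by
  by_cases h : ∀ z, 0 < w z
  · have h1 : Continuous fun z => log (w z) := continuous_of_sub_le hρ hs fun z z' => by
      have h2 := log_le_log (h z) (TRep_le hρ hw z' z)
      rw [log_mul (exp_pos _).ne' (h z').ne', log_exp] at h2
      linarith
    exact (continuous_exp.comp h1).congr fun z => exp_log (h z)
  · obtain ⟨z₀, h0⟩ := not_forall.1 h
    refine (continuous_const (y := (0 : ℝ))).congr fun z => le_antisymm (TRep_nonneg hw z) ?_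
    exact (TRep_le hρ hw z₀ z).trans
      (mul_nonpos_of_nonneg_of_nonpos (exp_pos _).le (not_lt.1 h0))

theorem isCompact_ml (hρ : Good ρ N) (b : Teich ρ) (C : ℝ) : IsCompact {w ∈ ML ρ | w b ≤ C} := by
  refine (isCompact_univ_pi fun z => isCompact_Icc (a := 0)
    (b := exp (dTh b z) * C)).of_isClosed_subset
    (isClosed_closure.inter (isClosed_le (continuous_apply b) continuous_const)) fun w hw z _ => ?_
  exact ⟨TRep_nonneg hw.1 z,
    (TRep_le hρ hw.1 b z).trans (mul_le_mul_of_nonneg_left hw.2 (exp_pos _).le)⟩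

/-- The tuple `w` and the set `C` of coefficient vectors represent `f`. -/
structure IsRep {ρ : Γ →* Isom} (b : Teich ρ) (f : Teich ρ → ℝ) {k : ℕ} (w : Fin k → Teich ρ → ℝ)
    (C : Set (Fin k → ℝ)) : Prop where
  wt : w ∈ WT ρ (Fin k)
  one : ∀ i, w i b ≤ 1
  sub : C ⊆ Icc 0 1
  compact : IsCompact C
  convex : Convex ℝ C
  sup : ∀ z, IsGreatest ((fun c => ∑ i, c i * w i z) '' C) (exp (f z))

theorem TRep_sub {k : ℕ} {S : Set (Fin k → ℝ)} (h : S ⊆ Icc 0 1) :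
    closure (convexHull ℝ S) ⊆ Icc 0 1 :=
  closure_minimal (convexHull_min h (convex_Icc 0 1)) isClosed_Icc

theorem TRep_greatest {k : ℕ} {S : Set (Fin k → ℝ)} (h : S ⊆ Icc 0 1) (hne : S.Nonempty)
    (a : Fin k → ℝ) (s : ℝ) :
    IsGreatest ((fun c => ∑ i, c i * a i) '' closure (convexHull ℝ S)) s ↔
      IsLUB ((fun c => ∑ i, c i * a i) '' S) s := by
  have hc : Continuous fun c : Fin k → ℝ => ∑ i, c i * a i := by fun_prop
  have hs : S ⊆ closure (convexHull ℝ S) := (subset_convexHull ℝ S).trans subset_closure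
  have hub : upperBounds ((fun c => ∑ i, c i * a i) '' closure (convexHull ℝ S)) =
      upperBounds ((fun c => ∑ i, c i * a i) '' S) := by
    refine Subset.antisymm (upperBounds_mono_set (image_mono hs)) fun x hx => ?_
    have h1 : closure (convexHull ℝ S) ⊆ {c | ∑ i, c i * a i ≤ x} := by
      refine closure_minimal (convexHull_min (fun c hc => hx (mem_image_of_mem _ hc)) ?_)
        (isClosed_le hc continuous_const)
      refine convex_halfSpace_le ⟨fun c d => ?_, fun t c => ?_⟩ x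
      · simp only [Pi.add_apply, add_mul, Finset.sum_add_distrib]
      · simp only [Pi.smul_apply, smul_eq_mul, Finset.mul_sum, mul_assoc]
    rintro _ ⟨c, hc, rfl⟩
    exact h1 hc
  have hl : ∀ x, IsLUB ((fun c => ∑ i, c i * a i) '' closure (convexHull ℝ S)) x ↔
      IsLUB ((fun c => ∑ i, c i * a i) '' S) x := fun x => by
    rw [IsLUB, IsLUB, hub]
  refine ⟨fun h1 => (hl s).1 h1.isLUB, fun h1 => ?_⟩
  obtain ⟨x, hx⟩ := ((isCompact_Icc.of_isClosed_subset isClosed_closure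
    (TRep_sub h)).image hc).exists_isGreatest ((hne.mono hs).image _)
  rwa [((hl s).2 h1).unique hx.isLUB]

theorem TRep_vals (y : SC ρ → ENNReal) {r : ℕ} (η : Fin r → SC ρ → ℝ) (hη : η ∈ ET y (Fin r))
    (m : ℕ) : ∃ V : Set (Fin m ⊕ Fin r → ℝ), (∀ v ∈ V, ∀ i, 0 ≤ v i) ∧
      ∀ (w : Fin m ⊕ Fin r → Teich ρ → ℝ) (z : Teich ρ),
        vals y w η z = (fun v => ∑ i, v i * w i z) '' V := by
  refine ⟨range (fun a : Fin m => Pi.single (Sum.inl a) 1) ∪ {v | ∃ β, 0 < y β ∧ y β < ⊤ ∧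
    v = Sum.elim (0 : Fin m → ℝ) fun j => η j β / (y β).toReal}, ?_, fun w z => ?_⟩
  · rintro _ (⟨a, rfl⟩ | ⟨β, -, -, rfl⟩) i
    · simp only [Pi.single_apply]
      split_ifs
      exacts [zero_le_one, le_rfl]
    · cases i with
      | inl a => exact le_rfl
      | inr j => exact div_nonneg (et_nonneg hη j β) ENNReal.toReal_nonneg
  · have h1 : ∀ β, (∑ j, w (Sum.inr j) z * η j β) / (y β).toReal =
        ∑ i, Sum.elim (0 : Fin m → ℝ) (fun j => η j β / (y β).toReal) i * w i z := by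
      intro β
      rw [Fintype.sum_sum_type, Finset.sum_div]
      simp only [Sum.elim_inl, Sum.elim_inr, Pi.zero_apply, zero_mul, Finset.sum_const_zero,
        zero_add]
      exact Finset.sum_congr rfl fun j _ => by ring
    rw [vals, image_union, ← range_comp]
    congr 1
    · congr 1
      funext a
      simp [Pi.single_apply]
    · ext x
      constructor
      · rintro ⟨β, h2, h3, rfl⟩
        exact ⟨_, ⟨β, h2, h3, rfl⟩, (h1 β).symm⟩
      · rintro ⟨_, ⟨β, h2, h3, rfl⟩, rfl⟩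
        exact ⟨β, h2, h3, (h1 β).symm⟩

theorem exists_rep (hρ : Good ρ N) (hs : ∃ g, Simple ρ g) (b : Teich ρ) : ∃ ξ : ℕ,
    ∀ f : Teich ρ → ℝ, Expl b f → ∃ k ≤ ξ, ∃ (w : Fin k → Teich ρ → ℝ) (C : Set (Fin k → ℝ)),
      IsRep b f w C ∧ ∀ p ∈ C, 0 < ∑ i, p i * w i b → ∀ t ∈ Icc (0 : ℝ) 1, ∀ g : Teich ρ → ℝ,
        (∀ z, IsGreatest ((fun c => (1 - t) * ∑ i, c i * w i z + t * (∑ i, c i * w i b) *
          ((∑ i, p i * w i z) / ∑ i, p i * w i b)) '' C) (exp (g z))) → Expl b g := by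
  obtain ⟨ξ, hξ⟩ := hρ.exists_multi_bound
  refine ⟨ξ, ?_⟩
  rintro f ⟨y, hy, m, r, α, hα, hα0, w₀, hw, η, hη, F, hF, hb, hf⟩
  obtain ⟨V, hV0, hV⟩ := TRep_vals y η hη m
  let e : Fin (m + r) ≃ Fin m ⊕ Fin r := finSumFinEquiv.symm
  have hk : m + r ≤ ξ := by
    obtain ⟨_, R, -, hR, -⟩ := closure_nonempty_iff.1 ⟨w₀, hw⟩
    simpa using hξ _ R hR
  have h0 := wt_nonneg hw
  have hz : ∀ i z, w₀ i b * ((w₀ i b)⁻¹ * w₀ i z) = w₀ i z := by
    intro i z
    rcases (h0 i b).eq_or_lt with h | h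
    · have h1 := wt_le hρ hw i b z
      rw [← h, mul_zero] at h1
      rw [← h, zero_mul]
      exact le_antisymm (h0 i z) h1
    · rw [mul_inv_cancel_left₀ h.ne']
  let w : Fin (m + r) → Teich ρ → ℝ := fun i z => (w₀ (e i) b)⁻¹ * w₀ (e i) z
  let φ : (Fin m ⊕ Fin r → ℝ) → Fin (m + r) → ℝ := fun v i => v (e i) * w₀ (e i) b / F b
  have hφ : ∀ v z, ∑ i, φ v i * w i z = (F b)⁻¹ * ∑ i, v i * w₀ i z := by
    intro v z
    rw [← e.sum_comp, Finset.mul_sum]
    refine Finset.sum_congr rfl fun i _ => ?_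
    conv_rhs => rw [← hz (e i) z]
    simp only [φ, w]
    ring
  have hsub : φ '' V ⊆ Icc 0 1 := by
    rintro _ ⟨v, hv, rfl⟩
    refine ⟨fun i => div_nonneg (mul_nonneg (hV0 v hv _) (h0 _ _)) hb.le, fun i => ?_⟩
    refine (div_le_one hb).2 (le_trans ?_ ((hF b).1 (hV w₀ b ▸ mem_image_of_mem _ hv)))
    exact Finset.single_le_sum (f := fun i => v i * w₀ i b)
      (fun i _ => mul_nonneg (hV0 v hv _) (h0 _ _)) (Finset.mem_univ _)
  have hne : (φ '' V).Nonempty := by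
    have := (hF b).nonempty
    rw [hV] at this
    exact this.of_image.image φ
  have hsup : ∀ z, IsGreatest ((fun c => ∑ i, c i * w i z) '' closure (convexHull ℝ (φ '' V)))
      (exp (f z)) := by
    intro z
    rw [TRep_greatest hsub hne, image_image, hf, exp_log (div_pos (lub_pos hρ hw hη hF hb z) hb),
      div_eq_inv_mul]
    have h1 := (hF z).mul_left (inv_nonneg.2 hb.le)
    rw [hV, image_image] at h1
    simpa only [hφ] using h1
  have hC := TRep_sub hsub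
  refine ⟨m + r, hk, w, closure (convexHull ℝ (φ '' V)),
    ⟨wt_comp (wt_smul hw fun i => inv_nonneg.2 (h0 i b)) e.injective, fun i => ?_, hC,
      isCompact_Icc.of_isClosed_subset isClosed_closure hC, (convex_convexHull ℝ _).closure, hsup⟩,
    fun p hp hP t ht g hg => ?_⟩
  · exact inv_mul_le_one_of_le₀ le_rfl (h0 _ _)
  have hgb : g b = 0 := by
    have h1 := hg b
    have h2 := hsup b
    rw [hf, div_self hb.ne', log_one] at h2
    simp only [div_self hP.ne', mul_one, sub_mul, one_mul, sub_add_cancel] at h1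
    exact exp_injective (h1.unique h2)
  let u : Fin m ⊕ Fin r → ℝ := fun j => p (e.symm j) * (w₀ j b)⁻¹ / ∑ i, p i * w i b
  have hu : ∀ z, ∑ j, u j * w₀ j z = (∑ i, p i * w i z) / ∑ i, p i * w i b := by
    intro z
    rw [← e.sum_comp, Finset.sum_div]
    refine Finset.sum_congr rfl fun i _ => ?_
    simp only [u, w, Equiv.symm_apply_apply]
    ring
  refine ⟨y, hy, m, r, α, hα, hα0, _, wt_rank_one hρ hw (d := 1 - t) (sub_nonneg.2 ht.2)
    (c := fun i => t * w₀ i b) (u := u) (fun i => mul_nonneg ht.1 (h0 i b))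
    (fun j => div_nonneg (mul_nonneg ((hC hp).1 _) (inv_nonneg.2 (h0 j b))) hP.le), η, hη,
    fun z => F b * exp (g z), fun z => ?_, by positivity, fun z => ?_⟩
  · have h1 := hg z
    have h2 : ∀ c : Fin (m + r) → ℝ, (1 - t) * ∑ i, c i * w i z + t * (∑ i, c i * w i b) *
        ((∑ i, p i * w i z) / ∑ i, p i * w i b) = ∑ i, c i * ((1 - t) * w i z + t * w i b *
          ((∑ i, p i * w i z) / ∑ i, p i * w i b)) := by
      intro c
      generalize (∑ i, p i * w i z) / ∑ i, p i * w i b = Q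
      rw [Finset.mul_sum, Finset.mul_sum, Finset.sum_mul, ← Finset.sum_add_distrib]
      exact Finset.sum_congr rfl fun i _ => by ring
    have h3 := h1
    simp only [h2] at h3
    rw [TRep_greatest hsub hne] at h3
    simp only [← h2] at h3
    have h4 := h3.mul_left hb.le
    rw [image_image, image_image] at h4
    rw [hV]
    refine (congrArg (fun s => IsLUB (s '' V) _) (funext fun v => ?_)).mp h4
    rw [hφ, hφ, hu]
    generalize (∑ i, p i * w i z) / ∑ i, p i * w i b = Q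
    have h5 : ∑ i, v i * ((1 - t) * w₀ i z + t * w₀ i b * Q) =
        (1 - t) * ∑ i, v i * w₀ i z + t * (∑ i, v i * w₀ i b) * Q := by
      rw [Finset.mul_sum, Finset.mul_sum, Finset.sum_mul, ← Finset.sum_add_distrib]
      exact Finset.sum_congr rfl fun i _ => by ring
    rw [h5]
    field_simp
  · simp only
    rw [hgb, exp_zero, mul_one, mul_div_cancel_left₀ _ hb.ne', log_exp]

theorem pml_subset (hρ : Good ρ N) (hs : ∃ g, Simple ρ g) (b : Teich ρ) :
    PML b ⊆ horoBdry b := by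
  rintro f ⟨w, hw, hb, hf⟩
  refine mem_of_expl hρ hs b ?_
  obtain ⟨q, hq⟩ := hs
  let x : Teich ρ := Rep.cls ⟨ρ, _, IsMark.refl ρ⟩
  have hx : ∀ β : SC ρ, 0 < ENNReal.ofReal (len x β.1) := fun β =>
    ENNReal.ofReal_pos.2 (len_pos x β.2.hyp)
  have hc : 0 < colW (tl (ρ q)) := colW_pos hq.hyp
  have hbd : BddAbove (range fun β : SC ρ => (inter ρ β.1 q : ℝ) / tl (ρ β.1)) := by
    refine ⟨(colW (tl (ρ q)))⁻¹, ?_⟩
    rintro _ ⟨β, rfl⟩
    have h1 := hρ.toDisc.inter_mul_colW_le β.2.hyp hq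
    simp only
    rw [div_le_iff₀ β.2.hyp, ← div_eq_inv_mul, le_div_iff₀ hc]
    exact h1
  obtain ⟨g, hg, hcr⟩ := hρ.hasDual q hq
  have hK := isLUB_csSup ⟨_, mem_range_self (⟨g, hg⟩ : SC ρ)⟩ hbd
  have hpos : 0 < sSup (range fun β : SC ρ => (inter ρ β.1 q : ℝ) / tl (ρ β.1)) := by
    refine lt_of_lt_of_le ?_ (hK.1 ⟨⟨g, hg⟩, rfl⟩)
    refine div_pos (Nat.cast_pos.2 (Nat.pos_of_ne_zero fun h => ?_)) hg.hyp
    refine (hρ.toDisc.inter_eq_zero_iff hg.hyp hq.hyp hq.prim).1 h 1 ?_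
    rw [map_one, one_smul]
    exact hcr.symm
  refine ⟨fun β => ENNReal.ofReal (len x β.1), ⟨subset_closure ⟨x, rfl⟩,
    fun γ h => absurd h ENNReal.ofReal_ne_top⟩, 0, 1, Fin.elim0,
    ⟨fun i => i.elim0, fun i => i.elim0⟩, fun i => i.elim0, (fun _ : Unit => w) ∘ fun _ => (),
    wt_comp (mem_ml_iff.1 hw) ?_, fun _ β => 1 * inter ρ β.1 q,
    subset_closure ⟨fun _ => ⟨q, hq⟩, fun _ => 1,
      ⟨fun _ => hq, fun _ _ h => absurd (Subsingleton.elim _ _) h⟩,
      fun _ => ⟨hx _, ENNReal.ofReal_lt_top⟩, fun _ => zero_le_one, rfl⟩,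
    fun z => w z * sSup (range fun β : SC ρ => (inter ρ β.1 q : ℝ) / tl (ρ β.1)), fun z => ?_,
    mul_pos hb hpos, fun z => ?_⟩
  · rintro (i | i) (j | j) -
    exacts [i.elim0, i.elim0, j.elim0, congrArg _ (Subsingleton.elim _ _)]
  · refine (congrArg (fun s => IsLUB s _) (Eq.symm ?_)).mp (hK.mul_left (TRep_nonneg hw z))
    have h1 : ∀ β : SC ρ, (∑ _j : Fin 1, w z * (1 * (inter ρ β.1 q : ℝ))) /
        (ENNReal.ofReal (len x β.1)).toReal = w z * (inter ρ β.1 q / tl (ρ β.1)) := by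
      intro β
      rw [ENNReal.toReal_ofReal (len_pos x β.2.hyp).le, Fin.sum_univ_one, one_mul, mul_div_assoc]
      rfl
    ext v
    constructor
    · rintro (⟨a, -⟩ | ⟨β, -, -, rfl⟩)
      · exact a.elim0
      · exact ⟨_, ⟨β, rfl⟩, (h1 β).symm⟩
    · rintro ⟨_, ⟨β, rfl⟩, rfl⟩
      exact Or.inr ⟨β, hx β, ENNReal.ofReal_lt_top, (h1 β).symm⟩
  · rw [hf, mul_div_mul_right _ _ hpos.ne']

theorem isCompact_horoBdry (hρ : Good ρ N) (hs : ∃ g, Simple ρ g) (b : Teich ρ) :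
    IsCompact (horoBdry b) := by
  refine (isCompact_closure_horoImage hρ hs b).of_isClosed_subset
    (isClosed_of_closure_subset fun g hg => ⟨closure_minimal sdiff_subset isClosed_closure hg, ?_⟩)
    sdiff_subset
  rintro ⟨x, hx⟩
  obtain ⟨ξ, hξ⟩ := exists_rep hρ hs b
  have h1 : ∀ f ∈ horoBdry b, ∃ u ∈ {w ∈ ML ρ | w b ≤ ξ}, ∀ z, exp (f z) ≤ u z := by
    intro f hf
    obtain ⟨k, hk, w, C, h, -⟩ := hξ f (expl_of_mem hρ hs b hf)
    refine ⟨_, ⟨wt_sum hρ hs h.wt (u := fun _ => 1) fun _ => zero_le_one, ?_⟩, fun z => ?_⟩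
    · refine (Finset.sum_le_sum fun i _ => (one_mul _).trans_le (h.one i)).trans ?_
      simpa using hk
    · obtain ⟨c, hc, h2⟩ := (h.sup z).1
      rw [← h2]
      exact Finset.sum_le_sum fun i _ =>
        mul_le_mul_of_nonneg_right ((h.sub hc).2 i) (wt_nonneg h.wt i z)
  choose! u hu1 hu2 using h1
  obtain ⟨U, hU, hUg⟩ := mem_closure_iff_ultrafilter.1 hg
  obtain ⟨v, hv, hlim⟩ := (isCompact_ml hρ b ξ).ultrafilter_le_nhds (U.map u)
    (le_principal_iff.2 (mem_map.2 (mem_of_superset hU hu1)))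
  have h2 : ∀ z, exp (g z) ≤ v z := fun z =>
    le_of_tendsto_of_tendsto (b := U) (f := fun f : C(Teich ρ, ℝ) => exp (f z))
      (g := fun f => u f z)
      (((continuous_exp.comp (continuous_eval_const z)).tendsto g).mono_left hUg)
      (((continuous_apply z).tendsto v).comp hlim) (mem_of_superset hU fun f hf => hu2 f hf z)
  obtain ⟨U', β, s, hβ, hL⟩ := MNot_ultra (mem_ml_iff.1 hv.1)
  refine not_dominated hρ hs (MFwd_cover hρ) hρ.hasDual hβ hL x (exp (dTh x b)) fun z γ hγ => ?_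
  have h3 := len_le_exp_dTh hρ hs x z hγ
  have h4 : exp (dTh x z) = exp (dTh x b) * exp (g z) := by
    rw [← exp_add, hx, psi, add_sub_cancel]
  have h5 := mul_le_mul_of_nonneg_left (h2 z) (mul_pos (exp_pos (dTh x b)) (len_pos x hγ.hyp)).le
  rw [h4] at h3
  rw [Fintype.sum_unique]
  linarith

theorem eq_pml (hρ : Good ρ N) (hs : ∃ g, Simple ρ g) (b : Teich ρ)
    (h : ¬ ∃ R : Fin 2 → Γ, Multi ρ R) : horoBdry b = PML b := by
  refine Subset.antisymm (fun f hf => ?_) (pml_subset hρ hs b)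
  obtain ⟨ξ, hξ⟩ := exists_rep hρ hs b
  have he := expl_of_mem hρ hs b hf
  obtain ⟨k, -, w, C, hr, -⟩ := hξ f he
  have hb : f b = 0 := by
    obtain ⟨y, -, m, r, α, -, -, w₀, -, η, -, F, -, h1, h2⟩ := he
    rw [h2, div_self h1.ne', log_one]
  obtain ⟨p, hp, h1⟩ := (hr.sup b).1
  rw [hb, exp_zero] at h1
  obtain ⟨_, R, -, hR, -⟩ := closure_nonempty_iff.1 ⟨w, hr.wt⟩
  match k with
  | 0 => simp at h1
  | 1 =>
    simp only [Fin.sum_univ_one] at h1
    have h2 : 0 ≤ p 0 := (hr.sub hp).1 0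
    have h3 : p 0 ≤ 1 := (hr.sub hp).2 0
    have h4 := hr.one 0
    have h5 := wt_nonneg hr.wt 0
    have h6 : w 0 b = 1 := le_antisymm h4 (by linarith only [h1, h3, h5, h5 b, mul_nonneg_of_nonpos_of_nonpos (Mathlib.Tactic.Linarith.sub_nonpos_of_le h3) (Mathlib.Tactic.Linarith.sub_nonpos_of_le (h5 b))])
    have h7 : p 0 = 1 := by rwa [h6, mul_one] at h1
    refine ⟨w 0, wt_mem_ml hr.wt 0, by rw [h6]; exact one_pos, fun z => ?_⟩
    obtain ⟨c, hc, h8⟩ := (hr.sup z).1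
    have h9 := (hr.sup z).2 ⟨p, hp, rfl⟩
    simp only [Fin.sum_univ_one, h7, one_mul] at h8 h9
    have h10 : exp (f z) = w 0 z :=
      le_antisymm (h8 ▸ mul_le_of_le_one_left (h5 z) ((hr.sub hc).2 0)) h9
    rw [h6, div_one, ← h10, log_exp]
  | k + 2 => exact absurd ⟨_, hR.comp (Fin.castLE_injective (Nat.le_add_left 2 k))⟩ h

theorem separableSpace_teich (hρ : Disc ρ) : TopologicalSpace.SeparableSpace (Teich ρ) := by
  have := hρ.countable
  have h1 : IsInducing fun (x : Rep ρ) (g : Γ) => x.1 g := by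
    refine isInducing_iff_nhds.2 fun y => le_antisymm ?_ ?_
    · exact tendsto_comap_iff.2 (tendsto_pi_nhds.2 (Rep.tendsto_iff.1 tendsto_id))
    · exact Rep.tendsto_iff.2 (tendsto_pi_nhds.1 tendsto_comap)
  have : SecondCountableTopology (Matrix (Fin 3) (Fin 3) ℝ) :=
    inferInstanceAs (SecondCountableTopology (Fin 3 → Fin 3 → ℝ))
  have : SecondCountableTopology (Matrix.SpecialLinearGroup (Fin 3) ℝ) :=
    TopologicalSpace.Subtype.secondCountableTopology _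
  have : SecondCountableTopology Isom := TopologicalSpace.Subtype.secondCountableTopology _
  have := h1.secondCountableTopology
  exact cls_surjective.denseRange.separableSpace continuous_cls

theorem metrizable_horoBdry (hρ : Good ρ N) (hs : ∃ g, Simple ρ g) (b : Teich ρ) :
    TopologicalSpace.MetrizableSpace (horoBdry b) := by
  have := separableSpace_teich hρ.toDisc
  have : Nonempty (Teich ρ) := ⟨b⟩
  have := isCompact_iff_compactSpace.1 (isCompact_horoBdry hρ hs b)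
  have h1 : Continuous fun (f : horoBdry b) (n : ℕ) => f.1 (TopologicalSpace.denseSeq _ n) :=
    continuous_pi fun n => (continuous_eval_const _).comp continuous_subtype_val
  refine (h1.isClosedEmbedding fun f g h => Subtype.ext (ContinuousMap.ext (congrFun
    ((TopologicalSpace.denseRange_denseSeq _).equalizer f.1.continuous g.1.continuous
      h)))).isEmbedding.metrizableSpace

end HRT
end

-- merged part: Pool.Agent.Work.MP_35beee_gt.TComp
section
/-!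
The components of a measured lamination are separated by simple closed curves.

Plan. `exists_comp`: `exists_decomp`, index set `Fin n ⊕ Fin k ≃ Fin (n + k)` (`finSumFinEquiv`),
components `μ j` and `cnt ρ (S s)`. For `μ j` use `exists_LM` (`ic_cnt`; the curves do not cross
the `S s`, `multi_iff`, `inter_eq_zero_iff`). For `cnt ρ (S s)` use `exists_spike` for the sum of
the other components (`Multi.label_unique` shows that `ax (S s)` is not an atom of it), and the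
curve `S s` itself with weight one for `apx`. `coef_le`: for the curve `η` of `sep p`,
`a p * ic (ν p) η ≤ (b p + ε * ∑ b) * ic (ν p) η`. `eq_of_ic_eq`: `exists_comp` for the sum.
-/

namespace HRT

open Set Filter Topology Real MeasureTheory

variable {Γ : Type*} [Group Γ] {ρ : Γ →* Isom} {N : ℝ → ℝ} {Λ Λ' : Set Geo}
  {Θ μ μ' : Measure Geo}

/-- The intersection numbers of `μ` are limits of those of weighted simple curves. -/
def Apx (ρ : Γ →* Isom) (μ : Measure Geo) : Prop :=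
  ∀ F : Finset Γ, (∀ f ∈ F, Simple ρ f) → ∀ ε > 0, ∃ (g : Γ) (w : ℝ), Simple ρ g ∧ 0 ≤ w ∧
    ∀ f ∈ F, |w * inter ρ f g - ic μ (ρ f)| ≤ ε

/-- Currents that are separated by simple closed curves. -/
structure Comp (ρ : Γ →* Isom) {P : Type} (ν : P → Measure Geo) : Prop where
  cur : ∀ p, Cur ρ (ν p)
  sep : ∀ p, ∀ ε > 0, ∃ η, Simple ρ η ∧ 0 < ic (ν p) (ρ η) ∧
    ∀ q, q ≠ p → ic (ν q) (ρ η) ≤ ε * ic (ν p) (ρ η)
  apx : ∀ p, Apx ρ (ν p)

theorem TComp_equiv {P Q : Type} {ν : P → Measure Geo} (h : Comp ρ ν) (e : Q ≃ P) :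
    Comp ρ fun q => ν (e q) where
  cur q := h.cur _
  sep q ε hε := by
    obtain ⟨η, h1, h2, h3⟩ := h.sep (e q) ε hε
    exact ⟨η, h1, h2, fun r hr => h3 _ fun e' => hr (e.injective e')⟩
  apx q := h.apx _

theorem TComp_cnt {s : Γ} {E : Set Geo} (hE : MeasurableSet E)
    (h : ∀ l ∈ E, l ∉ lifts ρ fun _ : Unit => s) : cnt ρ s E = 0 := by
  have e : E ∩ (lifts ρ fun _ : Unit => s) = ∅ :=
    eq_empty_of_forall_notMem fun l hl => h l hl.1 hl.2
  rw [cnt, Measure.restrict_apply hE, e, measure_empty]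

theorem TComp_inter {κ : Type} {R : κ → Γ} (hρ : Disc ρ) (h : Multi ρ R) {i j : κ} (hij : i ≠ j) :
    inter ρ (R i) (R j) = 0 :=
  (hρ.inter_eq_zero_iff (h.1 i).hyp (h.1 j).hyp (h.1 j).prim).2 fun k =>
    (((multi_iff hρ).1 h).2 i j hij k).1

theorem exists_comp (hρ : Good ρ N) (hΛ : Lam ρ Λ) (hΘ : Cur ρ Θ) (h0 : Θ Λᶜ = 0) :
    ∃ (n : ℕ) (ν : Fin n → Measure Geo), Comp ρ ν ∧
      ∀ μ, Cur ρ μ → μ ≪ Θ → ∃ a : Fin n → NNReal, μ = ∑ p, a p • ν p := by
  classical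
  obtain ⟨n, k, μ, S, h3, h4, h5, h6, h7⟩ := exists_decomp hρ hΛ hΘ h0
  have hd := hρ.toDisc
  have hLM := fun (F : Finset Γ) (hF : ∀ f ∈ F, Hyp (ρ f) ∧ Prim f) (ε : ℝ) (hε : 0 < ε) =>
    exists_LM hρ hΛ (fun j => (h3 j).1) (fun j => (h3 j).2.1) (fun j => (h3 j).2.2.1)
      (fun j => (h3 j).2.2.2.1) h4 h5 (fun s => (h6 s).1) F hF hε
  have hcur : ∀ p, Cur ρ (Sum.elim μ (fun s => cnt ρ (S s)) p) :=
    Sum.forall.2 ⟨fun j => (h3 j).1, fun s => hd.cur_cnt (h5.1 s).hyp⟩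
  have hc : Comp ρ (Sum.elim μ fun s => cnt ρ (S s)) := by
    refine ⟨hcur, ?_, ?_⟩
    · rintro (j | s) ε hε
      · obtain ⟨g, g1, g2, g3, -⟩ := hLM ∅ (by simp) ε hε
        refine ⟨g j, g1.1 (Sum.inl j), g2 j, ?_⟩
        rintro (i | s) hi
        · exact g3 i j fun e => hi (congrArg _ e)
        · have e1 : ic (cnt ρ (S s)) (ρ (g j)) = inter ρ (g j) (S s) :=
            hd.ic_cnt (h5.1 s).hyp (h5.1 s).prim (g1.1 (Sum.inl j)).hyp
          have e2 : inter ρ (g j) (S s) = 0 := TComp_inter hd g1 hi.symm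
          rw [Sum.elim_inr, e1, e2, Nat.cast_zero]
          exact mul_nonneg hε.le (ic_nonneg _ _)
      · have hM := fun q (_ : q ∈ Finset.univ.erase (Sum.inr s : Fin n ⊕ Fin k)) => hcur q
        obtain ⟨d, d1, d2, d3⟩ := exists_spike hρ hΛ (Cur.finsetSum _ hM) (by
          rw [Measure.finsetSum_apply]
          refine Finset.sum_eq_zero ?_
          rintro (j | t) -
          · exact (h3 j).2.2.1
          · refine TComp_cnt hΛ.closed.measurableSet.compl ?_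
            rintro l hl ⟨_, g, rfl | rfl⟩
            · exact hl (hΛ.smul g _ (h6 t).1)
            · exact hl (hΛ.rev _ (hΛ.smul g _ (h6 t).1))) (h5.1 s) (h6 s).1 (by
          rw [Measure.finsetSum_apply]
          refine Finset.sum_eq_zero ?_
          rintro (j | t) ht
          · have := (h3 j).2.1
            exact measure_singleton (μ := μ j) _
          · refine TComp_cnt (measurableSet_singleton _) ?_
            rintro l rfl hl
            exact Finset.ne_of_mem_erase ht (congrArg _ (h5.label_unique hd hl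
              (ax_mem_lifts (h := fun _ : Unit => S s) ())))) hε
        have e1 : ic (cnt ρ (S s)) (ρ d) = inter ρ d (S s) :=
          hd.ic_cnt (h5.1 s).hyp (h5.1 s).prim d1.hyp
        have e2 : (1 : ℝ) ≤ inter ρ d (S s) := by exact_mod_cast Nat.one_le_iff_ne_zero.2 d2
        refine ⟨d, d1, by rw [Sum.elim_inr, e1]; linarith, fun q hq => ?_⟩
        rw [ic_finsetSum _ hM] at d3
        have e3 := Finset.single_le_sum (f := fun q => ic (Sum.elim μ (fun s => cnt ρ (S s)) q) (ρ d))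
          (fun q _ => ic_nonneg _ _) (Finset.mem_erase.2 ⟨hq, Finset.mem_univ q⟩)
        rw [Sum.elim_inr, e1]
        exact (e3.trans d3).trans (le_mul_of_one_le_right hε.le e2)
    · rintro (j | s) F hF ε hε
      · obtain ⟨g, g1, -, -, g4⟩ := hLM F (fun f hf => ⟨(hF f hf).hyp, (hF f hf).prim⟩) ε hε
        obtain ⟨w, w1, w2⟩ := g4 j (h3 j).2.2.2.2
        exact ⟨g j, w, g1.1 (Sum.inl j), w1.le, w2⟩
      · refine ⟨S s, 1, h5.1 s, zero_le_one, fun f hf => ?_⟩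
        rw [Sum.elim_inr, hd.ic_cnt (h5.1 s).hyp (h5.1 s).prim (hF f hf).hyp, one_mul, sub_self,
          abs_zero]
        exact hε.le
  refine ⟨n + k, _, TComp_equiv hc finSumFinEquiv.symm, fun ν hν hνΘ => ?_⟩
  obtain ⟨a, ha⟩ := h7 ν hν hνΘ
  refine ⟨fun p => Sum.elim a (fun s => (ν {ax (ρ (S s))}).toNNReal) (finSumFinEquiv.symm p),
    ha.trans ?_⟩
  rw [Equiv.sum_comp finSumFinEquiv.symm fun p => Sum.elim a (fun s =>
    (ν {ax (ρ (S s))}).toNNReal) p • Sum.elim μ (fun s => cnt ρ (S s)) p, Fintype.sum_sum_type]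
  rfl

theorem Comp.coef_le {P : Type} [Fintype P] {ν : P → Measure Geo} (h : Comp ρ ν)
    {a b : P → NNReal}
    (hab : ∀ η, Simple ρ η → ic (∑ p, a p • ν p) (ρ η) ≤ ic (∑ p, b p • ν p) (ρ η)) : a ≤ b := by
  classical
  intro p
  have hB : (0 : ℝ) ≤ ∑ q, (b q : ℝ) := Finset.sum_nonneg fun q _ => (b q).2
  refine NNReal.coe_le_coe.1 (le_of_forall_pos_le_add fun δ hδ => ?_)
  have hε : 0 < δ / (∑ q, (b q : ℝ) + 1) := div_pos hδ (by linarith)
  obtain ⟨η, h1, h2, h3⟩ := h.sep p _ hε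
  have h4 := hab η h1
  rw [ic_finsetSum _ fun q _ => (h.cur q).nnreal_smul _,
    ic_finsetSum _ fun q _ => (h.cur q).nnreal_smul _] at h4
  simp only [ic_nnreal_smul] at h4
  have h5 : (a p : ℝ) * ic (ν p) (ρ η) ≤ ∑ q, (a q : ℝ) * ic (ν q) (ρ η) :=
    Finset.single_le_sum (f := fun q => (a q : ℝ) * ic (ν q) (ρ η))
      (fun q _ => mul_nonneg (a q).2 (ic_nonneg _ _)) (Finset.mem_univ p)
  have h6 : ∑ q, (b q : ℝ) * ic (ν q) (ρ η) ≤ b p * ic (ν p) (ρ η) +
      (∑ q, (b q : ℝ)) * (δ / (∑ q, (b q : ℝ) + 1) * ic (ν p) (ρ η)) := by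
    rw [← Finset.add_sum_erase _ _ (Finset.mem_univ p), Finset.sum_mul]
    exact add_le_add_right ((Finset.sum_le_sum fun i hi => mul_le_mul_of_nonneg_left
      (h3 i (Finset.ne_of_mem_erase hi)) (b i).2).trans (Finset.sum_le_sum_of_subset_of_nonneg
        (Finset.erase_subset _ _) fun i _ _ => mul_nonneg (b i).2 (mul_nonneg hε.le h2.le))) _
  have h7 : (∑ q, (b q : ℝ)) * (δ / (∑ q, (b q : ℝ) + 1)) ≤ δ := by
    rw [← mul_div_assoc, div_le_iff₀ (by linarith only [hB]), mul_add, mul_comm]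
    linarith only [hδ]
  refine le_of_mul_le_mul_right (h5.trans (h4.trans (h6.trans ?_))) h2
  rw [add_mul, ← mul_assoc]
  exact add_le_add_right (mul_le_mul_of_nonneg_right h7 h2.le) _

theorem eq_of_ic_eq (hρ : Good ρ N) (hΛ : Lam ρ Λ) (hμ : Cur ρ μ) (hμ' : Cur ρ μ')
    (h0 : μ Λᶜ = 0) (h0' : μ' Λᶜ = 0) (h : ∀ η, Simple ρ η → ic μ (ρ η) = ic μ' (ρ η)) :
    μ = μ' := by
  obtain ⟨n, ν, h1, h2⟩ := exists_comp hρ hΛ (hμ.add hμ')
    (by rw [Measure.add_apply, h0, h0', add_zero])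
  obtain ⟨a, ha⟩ := h2 μ hμ (Measure.absolutelyContinuous_of_le (Measure.le_add_right le_rfl))
  obtain ⟨b, hb⟩ := h2 μ' hμ' (Measure.absolutelyContinuous_of_le (Measure.le_add_left le_rfl))
  have e : a = b := le_antisymm (h1.coef_le fun η hη => by rw [← ha, ← hb, h η hη])
    (h1.coef_le fun η hη => by rw [← ha, ← hb, h η hη])
  rw [ha, hb, e]

theorem TComp_supp {T : Geo → Geo} (hT : Continuous T) (h : MeasurePreserving T μ μ) {l : Geo}
    (hl : l ∈ μ.support) : T l ∈ μ.support :=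
  (Measure.mem_support_iff_forall _).2 fun _ hO =>
    ((Measure.mem_support_iff_forall _).1 hl _ (hT.continuousAt.preimage_mem_nhds hO)).trans_le
      ((Measure.le_map_apply hT.aemeasurable _).trans_eq (by rw [h.map_eq]))

theorem lam_support_union (hΛ : Lam ρ Λ) (hΛ' : Lam ρ Λ') (hμ : Cur ρ μ) (hμ' : Cur ρ μ')
    (h0 : μ Λᶜ = 0) (h0' : μ' Λ'ᶜ = 0)
    (hc : ∀ l ∈ μ.support, ∀ m ∈ μ'.support, ¬ Cross l m) : Lam ρ (μ.support ∪ μ'.support) := by
  have s1 : μ.support ⊆ Λ := Measure.support_subset_of_isClosed hΛ.closed h0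
  have s2 : μ'.support ⊆ Λ' := Measure.support_subset_of_isClosed hΛ'.closed h0'
  refine ⟨Measure.isClosed_support.union Measure.isClosed_support, fun g l hl => ?_,
    fun l hl => ?_, ?_, ?_⟩
  · exact hl.imp (TComp_supp (continuous_const_smul (ρ g)) (hμ.smul g))
      (TComp_supp (continuous_const_smul (ρ g)) (hμ'.smul g))
  · exact hl.imp (TComp_supp Geo.continuous_rev hμ.rev) (TComp_supp Geo.continuous_rev hμ'.rev)
  · rintro l (hl | hl) m (hm | hm)
    · exact hΛ.nc l (s1 hl) m (s1 hm)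
    · exact hc l hl m hm
    · exact fun h => hc m hm l hl h.symm
    · exact hΛ'.nc l (s2 hl) m (s2 hm)
  · obtain ⟨R, hR⟩ := hΛ.core
    obtain ⟨R', hR'⟩ := hΛ'.core
    refine ⟨max R R', ?_⟩
    rintro l (hl | hl) t
    · exact (hR l (s1 hl) t).imp fun g hg => hg.trans (le_max_left _ _)
    · exact (hR' l (s2 hl) t).imp fun g hg => hg.trans (le_max_right _ _)

theorem measure_compl_support_union (μ μ' : Measure Geo) :
    μ (μ.support ∪ μ'.support)ᶜ = 0 ∧ μ' (μ.support ∪ μ'.support)ᶜ = 0 :=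
  ⟨measure_mono_null (compl_subset_compl.2 subset_union_left) Measure.measure_compl_support,
    measure_mono_null (compl_subset_compl.2 subset_union_right) Measure.measure_compl_support⟩

theorem mem_support_sum {P : Type} [Fintype P] {ν : P → Measure Geo} {l : Geo}
    (h : l ∈ (∑ p, ν p).support) : ∃ p, l ∈ (ν p).support := by
  classical
  have key : ∀ s : Finset P, l ∈ (∑ p ∈ s, ν p).support → ∃ p, l ∈ (ν p).support := by
    intro s
    induction s using Finset.induction_on with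
    | empty => simp
    | insert p s hp ih =>
      rw [Finset.sum_insert hp, Measure.support_add]
      rintro (h | h)
      · exact ⟨p, h⟩
      · exact ih h
  exact key _ h

end HRT
end

-- merged part: Pool.Agent.Work.MP_35beee_gt.TTup
section
/-!
The currents of a tuple of laminations.

Plan. `exists_tup`: a point of a closure is the limit of an ultrafilter
(`mem_closure_iff_ultrafilter`); choose the multicurve `β n` and the weights `s n` for each point of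
the set; `exists_ml` (the bound comes from the point `Rep.cls ⟨ρ, _⟩`), `lam_ulimSet`,
`tendsto_inter`, `tendsto_tl_pairC`; `mem_closure_of_tendsto`. For `nc` take `η = β n i`:
`eventually_le_ic`, `eventually_ic_le` (after `mem_support_sum`).
`pair_of_apx`: index set `Finset Γ × ℕ` with an ultrafilter finer than `atTop` (use the simple
members of the finite set, and the members of the family of `exists_fill`, which bounds
`w * tl g`; `Good.cover`, `Good.hasDual`); `exists_ml` for one curve gives a current `μ'` with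
`ic μ' η = ic μ η` for simple `η`; `nc`, `lam_support_union` for `∑ i, lam i` and `μ'`,
`eq_of_ic_eq`; then `tendsto_tl_pairC`.
-/

namespace HRT

open Set Filter Topology Real MeasureTheory

variable {Γ : Type} [Group Γ] {ρ : Γ →* Isom} {N : ℝ → ℝ} {R : ℝ} {χ : Pt → ℝ} {ι : Type}
  [Fintype ι]

/-- The length of a current. -/
noncomputable def lenC (χ : Pt → ℝ) (μ : Measure Geo) (z : Teich ρ) : ℝ :=
  pairC χ (pull (cls_surjective z).choose.2.choose) μ

theorem lenC_sum (hχ : Bump ρ R χ) {P : Type} [Fintype P] {ν : P → Measure Geo}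
    (hν : ∀ p, Cur ρ (ν p)) (a : P → NNReal) (z : Teich ρ) :
    lenC χ (∑ p, a p • ν p) z = ∑ p, (a p : ℝ) * lenC χ (ν p) z := by
  unfold lenC
  rw [hχ.pairC_finsetSum (cls_surjective z).choose.2.choose_spec.cur_pull _
    fun p _ => (hν p).nnreal_smul (a p)]
  exact Finset.sum_congr rfl fun p _ => pairC_smul _ _ _ _

/-- Currents `lam i` on a lamination `Λ` with length functions `w i`. -/
structure Tup (ρ : Γ →* Isom) (χ : Pt → ℝ) {ι : Type} [Fintype ι] (w : ι → Teich ρ → ℝ)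
    (lam : ι → Measure Geo) (Λ : Set Geo) : Prop where
  isLam : Lam ρ Λ
  cur : ∀ i, Cur ρ (lam i)
  car : ∀ i, lam i Λᶜ = 0
  len : ∀ i, w i = lenC χ (lam i)
  pair : ∀ i, (w i, fun η : SC ρ => ic (lam i) (ρ η.1)) ∈ Pair ρ
  nc : ∀ μ ν, Cur ρ μ → Cur ρ ν → μ Λᶜ = 0 → (∀ η, Simple ρ η → ic ν (ρ η) ≤ ic μ (ρ η)) →
    ∀ l ∈ (∑ i, lam i).support, ∀ m ∈ ν.support, ¬ Cross l m

theorem TTup_len (hρ : Good ρ N) (hχ : Bump ρ R χ)
    (hR : ∀ g, Simple ρ g → InCore ρ R (ax (ρ g))) {I : Type} {U : Ultrafilter I} {s : I → Γ}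
    (hs : ∀ n, Simple ρ (s n)) {v : I → NNReal} {lam : Measure Geo}
    (h : IsULim U (fun n => v n • cnt ρ (s n)) univ lam) (z : Teich ρ) :
    Tendsto (fun n => (v n : ℝ) * len z (s n)) U (𝓝 (lenC χ lam z)) := by
  have h1 := tendsto_tl_pairC hρ hs h hχ hR (cls_surjective z).choose.2.choose_spec
  have e : ∀ g, len z g = tl ((cls_surjective z).choose.1 g) := fun g => by
    rw [← len_cls, (cls_surjective z).choose_spec]
  simpa only [e, lenC] using h1

theorem TTup_tup (hρ : Good ρ N) (hχ : Bump ρ R χ)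
    (hR : ∀ g, Simple ρ g → InCore ρ R (ax (ρ g))) {I : Type} (U : Ultrafilter I)
    {β : I → ι → Γ} {v : I → ι → NNReal} (hβ : ∀ n, Multi ρ (β n))
    (hv : ∀ i, ∃ C : ℝ, ∀ᶠ n in U, v n i * tl (ρ (β n i)) ≤ C) :
    ∃ lam Λ, Tup ρ χ (fun i => lenC χ (lam i)) lam Λ ∧
      ∀ i, IsULim U (fun n => v n i • cnt ρ (β n i)) univ (lam i) := by
  obtain ⟨lam, hlam⟩ := exists_ml (U := U) (w := v) hρ hβ hv
  refine ⟨lam, _, ⟨lam_ulimSet (U := U) hρ hβ, fun i => (hlam i).1, fun i => (hlam i).2.2,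
    fun _ => rfl, fun i => ?_, fun μ ν hμ hν h0 hle l hl m hm hc => ?_⟩, fun i => (hlam i).2.1⟩
  · refine mem_closure_of_tendsto (b := (U : Filter I)) (f := fun n =>
      (fun z => (v n i : ℝ) * len z (β n i), fun η : SC ρ => (v n i : ℝ) * inter ρ η.1 (β n i)))
      (Tendsto.prodMk_nhds (tendsto_pi_nhds.2 fun z => ?_) (tendsto_pi_nhds.2 fun η => ?_))
      (Eventually.of_forall fun n => ⟨β n i, v n i, (hβ n).1 i, (v n i).2, rfl⟩)
    · exact TTup_len hρ hχ hR (fun n => (hβ n).1 i) (hlam i).2.1 z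
    · exact tendsto_inter hρ (fun n => (hβ n).1 i) (hlam i).1 (hlam i).2.1 η.2.hyp
  · obtain ⟨i, hi⟩ := mem_support_sum hl
    obtain ⟨δ, hδ, h1⟩ := eventually_le_ic hρ (fun n => (hβ n).1 i) (hlam i).1 (hlam i).2.1 hν
      hi hm hc
    obtain ⟨C, hC⟩ := hv i
    have hε : 0 < δ / (|C| + 1) := by positivity
    obtain ⟨n, ⟨h2, h3⟩, h4⟩ := ((h1.and hC).and (eventually_ic_le hρ hβ hμ h0 hε)).exists
    have h5 := mul_le_mul_of_nonneg_left ((hle _ ((hβ n).1 i)).trans (h4 i)) (v n i).coe_nonneg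
    have h6 := mul_le_mul_of_nonneg_left (h3.trans (le_abs_self C)) hε.le
    have h7 : δ / (|C| + 1) * (|C| + 1) = δ := div_mul_cancel₀ _ (by positivity)
    linarith only [hε, h2, h5, h6, h7]

theorem exists_tup (hρ : Good ρ N) (hχ : Bump ρ R χ)
    (hR : ∀ g, Simple ρ g → InCore ρ R (ax (ρ g))) {w : ι → Teich ρ → ℝ} (hw : w ∈ WT ρ ι) :
    ∃ lam Λ, Tup ρ χ w lam Λ := by
  have hne := mem_closure_iff_comap_neBot.1 hw
  have hU := (tendsto_comap (f := Subtype.val) (x := 𝓝 w)).mono_left (@Ultrafilter.of_le _ _ hne)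
  generalize @Ultrafilter.of _ _ hne = U at hU
  choose β s hβ hs he using fun n : {w : ι → Teich ρ → ℝ | ∃ (R : ι → Γ) (s : ι → ℝ),
    Multi ρ R ∧ (∀ i, 0 ≤ s i) ∧ w = fun i z => s i * len z (R i)} => n.2
  have hT : ∀ i z, Tendsto (fun n => s n i * len z (β n i)) U (𝓝 (w i z)) := fun i z =>
    (tendsto_pi_nhds.1 (tendsto_pi_nhds.1 hU i) z).congr fun n => by rw [he n]
  obtain ⟨lam, Λ, h1, h2⟩ := TTup_tup hρ hχ hR U (v := fun n i => ⟨s n i, hs n i⟩) hβ fun i =>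
    ⟨_, (hT i (Rep.cls ⟨ρ, _, IsMark.refl ρ⟩)).eventually_le_const (lt_add_one _)⟩
  have e : w = fun i => lenC χ (lam i) := funext fun i => funext fun z =>
    tendsto_nhds_unique (hT i z) (TTup_len hρ hχ hR (fun n => (hβ n).1 i) (h2 i) z)
  exact ⟨lam, Λ, e ▸ h1⟩

theorem Tup.pair_of_apx {w : ι → Teich ρ → ℝ} {lam : ι → Measure Geo} {Λ : Set Geo}
    (h : Tup ρ χ w lam Λ) (hρ : Good ρ N) (hχ : Bump ρ R χ)
    (hR : ∀ g, Simple ρ g → InCore ρ R (ax (ρ g))) {μ : Measure Geo} (hμ : Cur ρ μ)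
    (hac : μ ≪ ∑ i, lam i) (ha : Apx ρ μ) :
    (lenC χ μ, fun η : SC ρ => ic μ (ρ η.1)) ∈ Pair ρ := by
  classical
  obtain ⟨F, D, hD, hF, hfill⟩ := exists_fill hρ
    (hρ.cover ⟨fun i => i.elim, fun i => i.elim⟩) hρ.hasDual
  choose g s hg hs he using fun n : Finset Γ × ℕ => ha (n.1.filter (Simple ρ))
    (fun f hf => (Finset.mem_filter.1 hf).2) (1 / ((n.2 : ℝ) + 1)) Nat.one_div_pos_of_nat
  obtain ⟨U, hU⟩ := Ultrafilter.exists_le (atTop : Filter (Finset Γ × ℕ))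
  have hT : ∀ f, Simple ρ f → Tendsto (fun n => s n * inter ρ f (g n)) U (𝓝 (ic μ (ρ f))) := by
    intro f hf
    refine Tendsto.mono_left (tendsto_iff_norm_sub_tendsto_zero.2 (squeeze_zero'
      (Eventually.of_forall fun _ => norm_nonneg _) ?_
      (tendsto_one_div_add_atTop_nhds_zero_nat.comp
        (prod_atTop_atTop_eq (α := Finset Γ) (β := ℕ) ▸ tendsto_snd)))) hU
    filter_upwards [eventually_ge_atTop (({f} : Finset Γ), 0)] with n hn
    exact he n f (Finset.mem_filter.2 ⟨hn.1 (Finset.mem_singleton_self f), hf⟩)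
  obtain ⟨lam', Λ', h1, h2⟩ := TTup_tup hρ hχ hR U (v := fun n _ => ⟨s n, hs n⟩)
    (fun n => multi_single (hg n)) fun _ => ⟨D * ∑ f ∈ F, ic μ (ρ f) + 1, by
      filter_upwards [((tendsto_finsetSum F fun f hf => hT f (hF f hf)).const_mul
        D).eventually_le_const (lt_add_one _)] with n hn
      refine (mul_le_mul_of_nonneg_left (hfill _ (hg n)) (hs n)).trans (le_of_eq_of_le ?_ hn)
      rw [← Finset.mul_sum]
      ring⟩
  have e : ∀ η, Simple ρ η → ic μ (ρ η) = ic (lam' ()) (ρ η) := fun η hη =>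
    tendsto_nhds_unique (hT η hη) (tendsto_inter hρ hg (h1.cur ()) (h2 ()) hη.hyp)
  have hS : Cur ρ (∑ i, lam i) := Cur.finsetSum _ fun i _ => h.cur i
  have h0 : (∑ i, lam i) Λᶜ = 0 := by
    rw [Measure.finsetSum_apply]
    exact Finset.sum_eq_zero fun i _ => h.car i
  have hL := lam_support_union h.isLam h1.isLam hS (h1.cur ()) h0 (h1.car ())
    (h.nc μ _ hμ (h1.cur ()) (hac h0) fun η hη => (e η hη).ge)
  obtain ⟨h3, h4⟩ := measure_compl_support_union (∑ i, lam i) (lam' ())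
  rw [eq_of_ic_eq hρ hL hμ (h1.cur ()) (hac h3) h4 e]
  exact h1.pair ()

end HRT
end

-- merged part: Pool.Agent.Work.MP_35beee_gt.TGoal
section
/-!
A lamination below the supremum of a compact convex family is below a member of the family.

Plan. `exists_coord`: `Tup` data `lam`, `Λ` for `w` and `lam'`, `Λ'` for `u` (`exists_bump`,
`exists_core_simple`). By `pair_le`, `ic (∑ lam') η ≤ ic (C • ∑ lam) η`; `Tup.nc`,
`lam_support_union`, `exists_comp` for the sum of all currents; coefficients `A i p` of `lam i`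
and `x j p` of `lam' j`; by `coef_le`, `x j p = 0` unless `0 < ∑ i, A i p`. Restrict to the subtype
of these `p`; there `ν p ≪ ∑ lam`, `pair_of_apx`, `lenC_sum`.
`exists_mem_le`: `K` is bounded, `wt_nonneg` is `pair_nonneg`; apply `exists_ge_of_pair` to the
image of `K` under the linear map `c ↦ fun p => ∑ i, c i * A i p`.
-/

namespace HRT

open Set Filter Topology Real MeasureTheory

variable {Γ : Type} [Group Γ] {ρ : Γ →* Isom} {N : ℝ → ℝ} {ι κ : Type} [Fintype ι] [Fintype κ]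
  {w : ι → Teich ρ → ℝ} {u : κ → Teich ρ → ℝ}

theorem TGoal_sum {α : Type} [Fintype α] (S : α → Prop) [DecidablePred S] {f : α → ℝ}
    (h : ∀ a, ¬ S a → f a = 0) : ∑ a, f a = ∑ a : Subtype S, f a := by
  rw [← Fintype.sum_subtype_add_sum_subtype S f,
    Finset.sum_eq_zero (fun (a : {a // ¬ S a}) _ => h a.1 a.2), add_zero]

theorem TGoal_comb {P : Type} [Fintype P] {ν : P → Measure Geo} {lam : ι → Measure Geo}
    {A : ι → P → NNReal} (h : ∀ i, lam i = ∑ p, A i p • ν p) :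
    ∑ i, lam i = ∑ p, (∑ i, A i p) • ν p := by
  simp only [h, Finset.sum_smul]
  exact Finset.sum_comm

theorem TGoal_ac (lam : ι → Measure Geo) (i : ι) : lam i ≪ ∑ i, lam i :=
  Measure.absolutelyContinuous_of_le
    (Finset.single_le_sum (fun _ _ => Measure.zero_le _) (Finset.mem_univ i))

/-- Common coordinates for a tuple and a dominated tuple. -/
theorem exists_coord (hρ : Good ρ N) (hw : w ∈ WT ρ ι) (hu : u ∈ WT ρ κ) {C : ℝ} (hC : 0 ≤ C)
    (h : ∀ z, ∑ j, u j z ≤ C * ∑ i, w i z) :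
    ∃ (P : Type) (_ : Fintype P) (L : P → Teich ρ → ℝ) (e : P → SC ρ → ℝ) (A : ι → P → ℝ)
      (x : κ → P → ℝ), (∀ p, (L p, e p) ∈ Pair ρ) ∧
        (∀ p, ∀ δ > 0, ∃ η, 0 < e p η ∧ ∀ q, q ≠ p → e q η ≤ δ * e p η) ∧
        (∀ i p, 0 ≤ A i p) ∧ (∀ j p, 0 ≤ x j p) ∧ (∀ i z, w i z = ∑ p, A i p * L p z) ∧
        ∀ j z, u j z = ∑ p, x j p * L p z := by
  classical
  obtain ⟨R, hR⟩ := hρ.exists_core_simple
  obtain ⟨χ, hχ⟩ := hρ.toDisc.exists_bump R
  obtain ⟨lam, Λ, T⟩ := exists_tup hρ hχ hR hw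
  obtain ⟨lam', Λ', T'⟩ := exists_tup hρ hχ hR hu
  lift C to NNReal using hC
  have cM : Cur ρ (∑ i, lam i) := Cur.finsetSum _ fun i _ => T.cur i
  have cM' : Cur ρ (∑ j, lam' j) := Cur.finsetSum _ fun j _ => T'.cur j
  have h0 : (∑ i, lam i) Λᶜ = 0 := by simp [T.car]
  have h0' : (∑ j, lam' j) Λ'ᶜ = 0 := by simp [T'.car]
  have hle : ∀ η, Simple ρ η → ic (∑ j, lam' j) (ρ η) ≤ ic (C • ∑ i, lam i) (ρ η) := by
    intro η hη
    rw [ic_nnreal_smul, ic_finsetSum _ fun i _ => T.cur i, ic_finsetSum _ fun j _ => T'.cur j]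
    exact pair_le hρ.toDisc T.pair T'.pair C.2 h ⟨η, hη⟩
  have hL := lam_support_union T.isLam T'.isLam cM cM' h0 h0'
    (T.nc _ _ (cM.nnreal_smul C) cM' (by simp [T.car]) hle)
  obtain ⟨n, ν, hν, dec⟩ := exists_comp hρ hL (cM.add cM') (by
    rw [Measure.add_apply, (measure_compl_support_union _ _).1,
      (measure_compl_support_union _ _).2, add_zero])
  choose A hA using fun i => dec _ (T.cur i)
    ((TGoal_ac lam i).trans (Measure.AbsolutelyContinuous.rfl.add_right _))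
  choose x hx using fun j => dec _ (T'.cur j)
    ((TGoal_ac lam' j).trans (Measure.AbsolutelyContinuous.rfl.add_right' _))
  have h1 : (fun p => ∑ j, x j p) ≤ fun p => C * ∑ i, A i p := hν.coef_le fun η hη => by
    simp only [mul_smul, ← Finset.smul_sum, ← TGoal_comb hA, ← TGoal_comb hx]
    exact hle η hη
  refine ⟨{p // ∑ i, A i p ≠ 0}, inferInstance, fun p => lenC χ (ν p),
    fun p η => ic (ν p) (ρ η.1), fun i p => A i p, fun j p => x j p, fun p => ?_,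
    fun p δ hδ => ?_, fun i p => (A i p).2, fun j p => (x j p).2, fun i z => ?_, fun j z => ?_⟩
  · refine T.pair_of_apx hρ hχ hR (hν.cur p) ?_ (hν.apx p)
    rw [TGoal_comb hA]
    exact (Measure.AbsolutelyContinuous.rfl.smul_right (ENNReal.coe_ne_zero.2 p.2)).trans
      (TGoal_ac (fun p => (∑ i, A i p) • ν p) p)
  · obtain ⟨η, h2, h3, h4⟩ := hν.sep p δ hδ
    exact ⟨⟨η, h2⟩, h3, fun q hq => h4 q fun e => hq (Subtype.ext e)⟩
  · rw [T.len, hA, lenC_sum hχ hν.cur]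
    refine TGoal_sum _ fun p hp => ?_
    rw [(Finset.sum_eq_zero_iff.1 (not_not.1 hp)) i (Finset.mem_univ i), NNReal.coe_zero, zero_mul]
  · rw [T'.len, hx, lenC_sum hχ hν.cur]
    refine TGoal_sum _ fun p hp => ?_
    have h2 : ∑ j, x j p ≤ C * ∑ i, A i p := h1 p
    rw [not_not.1 hp, mul_zero, nonpos_iff_eq_zero] at h2
    rw [(Finset.sum_eq_zero_iff.1 h2) j (Finset.mem_univ j), NNReal.coe_zero, zero_mul]

theorem exists_mem_le (hρ : Good ρ N) (hw : w ∈ WT ρ ι) (hu : u ∈ WT ρ κ) {K : Set (ι → ℝ)}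
    (hK : IsCompact K) (hc : Convex ℝ K) (h : ∀ z, ∃ c ∈ K, ∑ j, u j z ≤ ∑ i, c i * w i z) :
    ∃ c ∈ K, ∀ z, ∑ j, u j z ≤ ∑ i, c i * w i z := by
  have w0 : ∀ i z, 0 ≤ w i z := by
    obtain ⟨R, hR⟩ := hρ.exists_core_simple
    obtain ⟨χ, hχ⟩ := hρ.toDisc.exists_bump R
    obtain ⟨lam, Λ, T⟩ := exists_tup hρ hχ hR hw
    exact fun i => (pair_nonneg (T.pair i)).1
  obtain ⟨C, hC, h1⟩ := hK.isBounded.exists_pos_norm_le
  obtain ⟨P, _, L, e, A, x, h2, h3, -, -, h4, h5⟩ := exists_coord hρ hw hu hC.le fun z => by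
    obtain ⟨c, hcK, h2⟩ := h z
    rw [Finset.mul_sum]
    refine h2.trans (Finset.sum_le_sum fun i _ => mul_le_mul_of_nonneg_right ?_ (w0 i z))
    exact (le_abs_self _).trans ((norm_le_pi_norm c i).trans (h1 c hcK))
  have e1 : ∀ z, ∑ j, u j z = ∑ p, (∑ j, x j p) * L p z := fun z => by
    simp only [h5, Finset.sum_mul]
    exact Finset.sum_comm
  have e2 : ∀ (c : ι → ℝ) z, ∑ i, c i * w i z = ∑ p, (∑ i, c i * A i p) * L p z := fun c z => by
    simp only [h4, Finset.sum_mul, Finset.mul_sum, mul_assoc]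
    exact Finset.sum_comm
  obtain ⟨_, ⟨c, hcK, rfl⟩, h6⟩ := exists_ge_of_pair hρ.toDisc h2 h3
    (K := (fun (c : ι → ℝ) p => ∑ i, c i * A i p) '' K) (hK.image (by fun_prop))
    (hc.is_linear_image ⟨fun a b => by
      funext p
      simp [add_mul, Finset.sum_add_distrib], fun a b => by
      funext p
      simp [mul_assoc, Finset.mul_sum]⟩) (x := fun p => ∑ j, x j p) fun z => by
      obtain ⟨c, hcK, h6⟩ := h z
      exact ⟨_, ⟨c, hcK, rfl⟩, by rwa [← e1, ← e2]⟩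
  refine ⟨c, hcK, fun z => ?_⟩
  rw [e1, e2]
  exact Finset.sum_le_sum fun p _ => mul_le_mul_of_nonneg_right (h6 p) ((pair_nonneg (h2 p)).1 z)

end HRT
end

-- merged part: Pool.Agent.Work.MP_35beee_gt.TKey
section
/-!
A lamination below the supremum of a compact convex set of laminations is below one of them.
-/

namespace HRT

open Set Filter Topology Real

variable {Γ : Type} [Group Γ] {ρ : Γ →* Isom} {N : ℝ → ℝ}

theorem exists_ge_of_le_sup (hρ : Good ρ N) {ι : Type} [Fintype ι] {w : ι → Teich ρ → ℝ}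
    (hw : w ∈ WT ρ ι) {u : Teich ρ → ℝ} (hu : u ∈ ML ρ) {C : Set (ι → ℝ)} (hc : IsCompact C)
    (hv : Convex ℝ C) (_h0 : ∀ c ∈ C, 0 ≤ c) (h : ∀ z, ∃ c ∈ C, u z ≤ ∑ i, c i * w i z) :
    ∃ c ∈ C, ∀ z, u z ≤ ∑ i, c i * w i z := by
  have := exists_mem_le hρ hw (mem_ml_iff.1 hu) hc hv (by simpa using h)
  simpa using this

end HRT
end

-- merged part: Pool.Agent.Work.MP_35beee_gt.TBasis
section
/-!
The laminations below a lamination are combinations of its ergodic components.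
-/

namespace HRT

open Set Filter Topology Real MeasureTheory

variable {Γ : Type} [Group Γ] {ρ : Γ →* Isom} {N : ℝ → ℝ} {R : ℝ} {χ : Pt → ℝ}

theorem TBasis_decomp {Λ : Set Geo} {Θ : Measure Geo} (hρ : Good ρ N) (hΛ : Lam ρ Λ)
    (hΘ : Cur ρ Θ) (h0 : Θ Λᶜ = 0) :
    ∃ (n k : ℕ) (μ : Fin n → Measure Geo) (S : Fin k → Γ),
      (∀ j, Cur ρ (μ j) ∧ NullSingletonClass (μ j) ∧ μ j ≪ Θ ∧ μ j ≠ 0 ∧ Erg ρ (μ j)) ∧
      (∀ i j, i ≠ j → μ i ⟂ₘ μ j) ∧ Multi ρ S ∧
      (∀ s, ax (ρ (S s)) ∈ Λ ∧ Θ {ax (ρ (S s))} ≠ 0) ∧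
      ∀ ν, Cur ρ ν → ν ≪ Θ → ∃ a : Fin n → NNReal,
        ν = ∑ j, a j • μ j + ∑ s, (ν {ax (ρ (S s))}).toNNReal • cnt ρ (S s) := by
  obtain ⟨k, S, hS, hS1, hS2⟩ := exists_atoms hρ hΛ hΘ
  have hA := GDecomp_invS hρ.toDisc S
  have hΘ' := hΘ.restrict hA.compl
  have hn : NullSingletonClass (Θ.restrict (lifts ρ S)ᶜ) := ⟨fun l => by
    rw [Measure.restrict_apply (measurableSet_singleton l)]
    by_cases h1 : l ∈ lifts ρ S
    · rw [singleton_inter_eq_empty.2 (not_not.2 h1), measure_empty]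
    · refine measure_mono_null inter_subset_left ?_
      by_cases h2 : l ∈ Λ
      · by_contra h3
        exact h1 (hS2 l h2 h3)
      · exact measure_mono_null (singleton_subset_iff.2 h2) h0⟩
  have h0' : Θ.restrict (lifts ρ S)ᶜ Λᶜ = 0 :=
    le_antisymm ((Measure.restrict_le_self _).trans h0.le) bot_le
  obtain ⟨n, E, h1, h2, h3⟩ := exists_erg hρ hΛ hΘ' h0'
  refine ⟨n, k, fun j => (Θ.restrict (lifts ρ S)ᶜ).restrict (E j), S, fun j =>
    ⟨hΘ'.restrict (h1 j).1, inferInstance,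
      (Measure.restrict_le_self.trans Measure.restrict_le_self).absolutelyContinuous,
      fun h => (h1 j).2.1 (Measure.restrict_eq_zero.1 h), (h1 j).2.2⟩,
    fun i j hij => GDecomp_sing (h1 j).1.meas (h2 i j hij), hS, hS1, fun ν hν hνΘ => ?_⟩
  have hν' := hν.restrict hA.compl
  have hac : ν.restrict (lifts ρ S)ᶜ ≪ Θ.restrict (lifts ρ S)ᶜ := hνΘ.restrict _
  choose a ha using fun j => eq_smul_of_erg hρ.toDisc (hΘ'.restrict (h1 j).1)
    (hν'.restrict (h1 j).1) (h1 j).2.2 (hac.restrict _)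
  refine ⟨a, ?_⟩
  have e1 : ν.restrict (lifts ρ S)ᶜ = ∑ j, a j • (Θ.restrict (lifts ρ S)ᶜ).restrict (E j) := by
    rw [← Measure.restrict_eq_self_of_ae_mem (μ := ν.restrict (lifts ρ S)ᶜ) (s := ⋃ j, E j)
      (hac h3), Measure.restrict_iUnion h2 fun j => (h1 j).1.meas, Measure.sum_fintype]
    exact Finset.sum_congr rfl fun j _ => ha j
  have e2 : lifts ρ S = ⋃ s, lifts ρ fun _ : Unit => S s := by
    ext l
    rw [mem_iUnion]
    exact ⟨fun ⟨i, g, h⟩ => ⟨i, (), g, h⟩, fun ⟨i, _, g, h⟩ => ⟨i, g, h⟩⟩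
  have e3 : ν.restrict (lifts ρ S) = ∑ s, (ν {ax (ρ (S s))}).toNNReal • cnt ρ (S s) := by
    rw [e2, Measure.restrict_iUnion (fun i j hij => disjoint_left.2 fun l hi hj =>
      hij (hS.label_unique hρ.toDisc hi hj)) fun s => (GDecomp_invS hρ.toDisc _).meas,
      Measure.sum_fintype]
    exact Finset.sum_congr rfl fun s _ => hν.restrict_lifts hρ.toDisc (hS.1 s).hyp
  rw [← e1, ← e3, add_comm, Measure.restrict_add_restrict_compl hA.meas]

theorem TBasis_car {ι : Type} [Fintype ι] {lam : ι → Measure Geo} {Λ : Set Geo}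
    (h : ∀ i, lam i Λᶜ = 0) : (∑ i, lam i) Λᶜ = 0 := by
  rw [Measure.finsetSum_apply]
  exact Finset.sum_eq_zero fun i _ => h i

theorem TBasis_wt {ι P : Type} [Fintype ι] [Fintype P] {w : ι → Teich ρ → ℝ}
    {lam : ι → Measure Geo} {Λ : Set Geo} (h : Tup ρ χ w lam Λ) (hρ : Good ρ N)
    (hχ : Bump ρ R χ) (hR : ∀ g, Simple ρ g → InCore ρ R (ax (ρ g))) {ν : P → Measure Geo}
    (hν : ∀ p, Cur ρ (ν p)) (hac : ∀ p, ν p ≪ ∑ i, lam i)
    (ha : ∀ F : Finset Γ, (∀ f ∈ F, Simple ρ f) → ∀ ε > 0, ∃ (g : P → Γ) (c : P → ℝ),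
      Multi ρ g ∧ (∀ p, 0 ≤ c p) ∧ ∀ p, ∀ f ∈ F, |c p * inter ρ f (g p) - ic (ν p) (ρ f)| ≤ ε) :
    (fun p => lenC χ (ν p)) ∈ WT ρ P := by
  classical
  obtain ⟨F₀, D, hD, hF₀, hfill⟩ := exists_fill hρ
    (hρ.cover ⟨fun i => i.elim, fun i => i.elim⟩) hρ.hasDual
  have hG : ∀ n : Finset Γ × ℕ, ∀ f ∈ n.1.filter (Simple ρ) ∪ F₀, Simple ρ f := fun n f hf => by
    rcases Finset.mem_union.1 hf with h1 | h1
    · exact (Finset.mem_filter.1 h1).2
    · exact hF₀ f h1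
  choose g c hg hc hgc using fun n : Finset Γ × ℕ =>
    ha _ (hG n) (1 / ((n.2 : ℝ) + 1)) Nat.one_div_pos_of_nat
  set U : Ultrafilter (Finset Γ × ℕ) := Ultrafilter.of atTop with hU
  have hle : (U : Filter (Finset Γ × ℕ)) ≤ atTop := Ultrafilter.of_le _
  set v : Finset Γ × ℕ → P → NNReal := fun n p => ⟨c n p, hc n p⟩ with hv
  have hb : ∀ p, ∃ C : ℝ, ∀ᶠ n in U, v n p * tl (ρ (g n p)) ≤ C := fun p => by
    refine ⟨D * ∑ f ∈ F₀, (ic (ν p) (ρ f) + 1), Eventually.of_forall fun n => ?_⟩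
    have h1 := mul_le_mul_of_nonneg_left (hfill _ ((hg n).1 p)) (hc n p)
    refine h1.trans ?_
    rw [mul_left_comm, Finset.mul_sum]
    refine mul_le_mul_of_nonneg_left (Finset.sum_le_sum fun f hf => ?_) hD.le
    have h2 := (abs_le.1 (hgc n p f (Finset.mem_union_right _ hf))).2
    have h3 : 1 / ((n.2 : ℝ) + 1) ≤ 1 := by
      rw [div_le_one (by positivity)]
      linarith only [Nat.cast_nonneg (α := ℝ) n.2]
    linarith only [h2, h3]
  obtain ⟨lam', hl⟩ := exists_ml hρ hg hb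
  have hΛ' := lam_ulimSet (U := U) hρ hg
  have hic : ∀ p η, Simple ρ η → ic (ν p) (ρ η) = ic (lam' p) (ρ η) := fun p η hη => by
    refine tendsto_nhds_unique ?_
      (tendsto_inter hρ (fun n => (hg n).1 p) (hl p).1 (hl p).2.1 hη.hyp)
    refine Tendsto.mono_left ?_ hle
    rw [tendsto_iff_norm_sub_tendsto_zero]
    have h1 : Tendsto (fun n : Finset Γ × ℕ => 1 / ((n.2 : ℝ) + 1)) atTop (𝓝 0) :=
      tendsto_one_div_add_atTop_nhds_zero_nat.comp
        (by rw [← prod_atTop_atTop_eq]; exact tendsto_snd)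
    refine squeeze_zero' (Eventually.of_forall fun n => norm_nonneg _) ?_ h1
    filter_upwards [eventually_ge_atTop (({η}, 0) : Finset Γ × ℕ)] with n hn
    exact hgc n p η (Finset.mem_union_left _
      (Finset.mem_filter.2 ⟨hn.1 (Finset.mem_singleton_self η), hη⟩))
  have hΘ : Cur ρ (∑ i, lam i) := Cur.finsetSum _ fun i _ => h.cur i
  have h0 := TBasis_car h.car
  have he : ∀ p, ν p = lam' p := fun p => by
    have hnc := h.nc (ν p) (lam' p) (hν p) (hl p).1 (hac p h0) fun η hη => (hic p η hη).ge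
    have hL := lam_support_union h.isLam hΛ' hΘ (hl p).1 h0 (hl p).2.2 hnc
    have hm := measure_compl_support_union (∑ i, lam i) (lam' p)
    exact eq_of_ic_eq hρ hL (hν p) (hl p).1 (hac p hm.1) hm.2 (hic p)
  refine mem_closure_of_tendsto (b := (U : Filter (Finset Γ × ℕ)))
    (f := fun n p z => c n p * len z (g n p)) ?_
    (Eventually.of_forall fun n => ⟨g n, c n, hg n, hc n, rfl⟩)
  refine tendsto_pi_nhds.2 fun p => tendsto_pi_nhds.2 fun z => ?_
  have h1 := tendsto_tl_pairC hρ (fun n => (hg n).1 p) (hl p).2.1 hχ hR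
    (cls_surjective z).choose.2.choose_spec
  rw [he p]
  refine h1.congr fun n => ?_
  conv_rhs => rw [← (cls_surjective z).choose_spec, len_cls]
  rfl

theorem exists_basis (hρ : Good ρ N) {u : Teich ρ → ℝ} (hu : u ∈ ML ρ) :
    ∃ (k : ℕ) (μ : Fin k → Teich ρ → ℝ), μ ∈ WT ρ (Fin k) ∧ ∀ w ∈ ML ρ, w ≤ u →
      ∃ a : Fin k → ℝ, (∀ j, 0 ≤ a j) ∧ ∀ z, w z = ∑ j, a j * μ j z := by
  classical
  have hd := hρ.toDisc
  obtain ⟨R, hR⟩ := hρ.exists_core_simple
  obtain ⟨χ, hχ⟩ := hd.exists_bump R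
  obtain ⟨lam, Λ, h⟩ := exists_tup hρ hχ hR (mem_ml_iff.1 hu)
  have hΘ : Cur ρ (∑ i, lam i) := Cur.finsetSum _ fun i _ => h.cur i
  have h0 := TBasis_car h.car
  obtain ⟨n, k, μ, S, h1, h2, h3, h4, h5⟩ := TBasis_decomp hρ h.isLam hΘ h0
  set ν : Fin n ⊕ Fin k → Measure Geo := Sum.elim μ fun s => cnt ρ (S s) with hν
  have hcur : ∀ p, Cur ρ (ν p) := Sum.forall.2 ⟨fun j => (h1 j).1, fun s => hd.cur_cnt (h3.1 s).hyp⟩
  have hac : ∀ p, ν p ≪ ∑ i, lam i := by
    refine Sum.forall.2 ⟨fun j => (h1 j).2.2.1, fun s => ?_⟩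
    have e := hΘ.restrict_lifts hd (h3.1 s).hyp
    have hne : ((∑ i, lam i) {ax (ρ (S s))}).toNNReal ≠ 0 := by
      have := hΘ.fin
      exact ENNReal.toNNReal_ne_zero.2 ⟨(h4 s).2, isCompact_singleton.measure_lt_top.ne⟩
    refine Measure.AbsolutelyContinuous.trans ?_
      (Measure.restrict_le_self (s := lifts ρ fun _ : Unit => S s)).absolutelyContinuous
    rw [e]
    exact Measure.absolutelyContinuous_smul (ENNReal.coe_ne_zero.2 hne)
  have hw := TBasis_wt h hρ hχ hR hcur hac fun F hF ε hε => by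
    obtain ⟨g, g1, -, -, g2⟩ := exists_LM hρ h.isLam (fun j => (h1 j).1) (fun j => (h1 j).2.1)
      (fun j => (h1 j).2.2.1 h0) (fun j => (h1 j).2.2.2.1) h2 h3 (fun s => (h4 s).1) F
      (fun f hf => ⟨(hF f hf).hyp, (hF f hf).prim⟩) hε
    choose c hc hc' using fun j => g2 j (h1 j).2.2.2.2
    refine ⟨Sum.elim g S, Sum.elim c fun _ => 1, g1,
      Sum.forall.2 ⟨fun j => (hc j).le, fun _ => zero_le_one⟩,
      Sum.forall.2 ⟨hc', fun s f hf => ?_⟩⟩
    simp only [hν, Sum.elim_inr, one_mul]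
    rw [hd.ic_cnt (h3.1 s).hyp (h3.1 s).prim (hF f hf).hyp, sub_self, abs_zero]
    exact hε.le
  refine ⟨n + k, _, wt_comp hw finSumFinEquiv.symm.injective, fun w hw' hle => ?_⟩
  obtain ⟨lam', Λ', h'⟩ := exists_tup hρ hχ hR (mem_ml_iff.1 hw')
  have hi : ∀ η, Simple ρ η → ic (lam' ()) (ρ η) ≤ ic (∑ i, lam i) (ρ η) := fun η hη => by
    have := pair_le hd h.pair h'.pair zero_le_one (fun z => by simpa using hle z) ⟨η, hη⟩
    simpa using this
  have hnc := h.nc _ _ hΘ (h'.cur ()) h0 hi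
  have hL := lam_support_union h.isLam h'.isLam hΘ (h'.cur ()) h0 (h'.car ()) hnc
  have hm := measure_compl_support_union (∑ i, lam i) (lam' ())
  obtain ⟨m, θ, hθ, hθ'⟩ := exists_comp hρ hL (hΘ.add (h'.cur ()))
    (by rw [Measure.add_apply, hm.1, hm.2, add_zero])
  obtain ⟨a, ha⟩ := hθ' _ hΘ (Measure.le_add_right le_rfl).absolutelyContinuous
  obtain ⟨a', ha'⟩ := hθ' _ (h'.cur ()) (Measure.le_add_left le_rfl).absolutelyContinuous
  have haa : a' ≤ a := hθ.coef_le fun η hη => by rw [← ha, ← ha']; exact hi η hη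
  have hac' : lam' () ≪ ∑ i, lam i := by
    rw [ha, ha']
    refine LE.le.absolutelyContinuous (Finset.sum_le_sum fun p _ => ?_)
    refine Measure.le_iff'.2 fun s => ?_
    simp only [Measure.smul_apply, ENNReal.smul_def, smul_eq_mul]
    exact mul_le_mul_left (ENNReal.coe_le_coe.2 (haa p)) _
  obtain ⟨x, hx⟩ := h5 _ (h'.cur ()) hac'
  set y : Fin n ⊕ Fin k → NNReal := Sum.elim x fun s => (lam' () {ax (ρ (S s))}).toNNReal with hy
  have e : lam' () = ∑ p, y p • ν p := by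
    rw [Fintype.sum_sum_type]
    exact hx
  refine ⟨fun j => y (finSumFinEquiv.symm j), fun j => NNReal.coe_nonneg _, fun z => ?_⟩
  have e' : w = lenC χ (lam' ()) := h'.len ()
  rw [e', e, lenC_sum hχ hcur]
  exact (Equiv.sum_comp finSumFinEquiv.symm fun p => (y p : ℝ) * lenC χ (ν p) z).symm

end HRT
end

-- merged part: Pool.Agent.Work.MP_35beee_gt.TPinch
section
/-!
Pinching all curves of a pants decomposition.

Plan. `exists_noloop`: if the dart `u` is glued to a dart of its own vertex `{u, gl u, e}` then `e` is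
glued to another vertex (there are two vertices, `PG.triv`); the move that exchanges `u` with a
dart of that vertex reduces the number of loops (`PG.move`).
`pinch_one`: with `m = E d`, frames `m, a1, a2` and `m⁻¹, a3, a4` (conjugate by `t d`), so
`a1 * a2 * a3 * a4 = 1`, and `f = (a2 * a3)⁻¹` gives a pants decomposition with frames `f, a2, a3` and
`f⁻¹, a4, a1` (as in the proof of `PG.move`; `spair_across`, `SPair.exists_frame`; choose the
connecting element `1` for this edge). First twist along `m` until `f` is long (`exists_flow`).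
Then `PG.exists_glue` for the new decomposition with a twist `τ` along `f` only: `a2` is kept and
`a1` is conjugated by `trans (ax f) τ`, up to a common conjugation. Write
`qv a2 = β₂ • n + r₂ • pt s₂`, `qv a1 = β₁ • n + r₁ • pt s₁` in Fermi coordinates along `ax f`;
`r ^ 2 = β ^ 2 - qsh ^ 2`, `|β₂| = (qch a3 + qch f * qch a2) / qsh f` (`Frame.lift`), and the same for
`a1`. For `τ = s₂ - s₁`, `qch m = |β₁| * |β₂| + r₁ * r₂ - qch a1 * qch a2`, which tends to one as the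
length of `f` tends to infinity.
`exists_full_node`: a sequence of markings with all lengths tending to zero, `Duals.exists_norm`,
`Pinch` (a simple curve that crosses no `P i` is an object), `Pinch.exists_aug`.
`Duals.exists_len`: as `PG.exists_len`.
-/

namespace HRT

open Set Filter Topology Real

variable {Γ : Type} [Group Γ] {ρ : Γ →* Isom} {N : ℝ → ℝ} {D : Type} {nx gl : Equiv.Perm D}
  {E t : D → Γ}

theorem TPinch_inv [DecidableEq D] (nx : Equiv.Perm D) (x y a b : D) :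
    InV (Equiv.swap x y * nx * Equiv.swap x y) a b ↔
      InV nx (Equiv.swap x y a) (Equiv.swap x y b) := by
  simp only [InV, Equiv.Perm.mul_apply, Equiv.swap_apply_self, Equiv.swap_apply_eq_iff]

/-- A move that removes a loop. -/
theorem TPinch_loop [DecidableEq D] (h : PG ρ nx gl E t) (hρ : Good ρ N)
    (h2 : ∃ d d', ¬ InV nx d d') {u : D} (hu : gl u ≠ u) (hu' : InV nx u (gl u)) :
    ∃ nx' E' t', PG ρ nx' gl E' t' ∧ (∃ d d', ¬ InV nx' d d') ∧
      ∀ d, gl d ≠ d → InV nx' d (gl d) → d ≠ u ∧ InV nx d (gl d) := by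
  have hT := h.triv hρ
  have hc := h.cube
  have sy : ∀ {a b}, InV nx a b → InV nx b a := PDual_symm hc
  have tr : ∀ {a b c}, InV nx a b → InV nx b c → InV nx a c := PDual_trans hc
  obtain ⟨e, e1, e2, e3, e4⟩ := (PComb.vs_tri hT).third (d := u) hu' hu
  have e1 : InV nx u e := e1
  have e4 : ∀ x, InV nx u x → x = u ∨ x = gl u ∨ x = e := e4
  have g1 : ¬ InV nx u (gl e) := by
    intro k
    have k1 : ∀ d, InV nx u d := hT.conn _ u (Or.inl rfl)
      (fun d hd => tr hd (Or.inr (Or.inl rfl))) fun d hd => by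
        rcases e4 d hd with rfl | rfl | rfl
        · exact hu'
        · rw [h.invol]
          exact Or.inl rfl
        · exact k
    obtain ⟨d, d', hd⟩ := h2
    exact hd (tr (sy (k1 d)) (k1 d'))
  obtain ⟨y, y1, y2⟩ := (PComb.vs_tri hT).ex (gl e)
  have y1 : InV nx (gl e) y := y1
  have y3 : ¬ InV nx u y := fun k => g1 (tr k (sy y1))
  have y4 : ¬ InV nx u (gl y) := fun k => by
    rcases e4 _ k with k1 | k1 | k1
    · exact y3 (by rw [← h.invol y, k1]; exact hu')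
    · exact y3 (Or.inl (gl.injective k1))
    · exact y2 (by rw [← k1, h.invol])
  obtain ⟨E', t', hg, -⟩ := h.move hρ (d := e) (x := u) (y := y) (fun k => g1 (tr e1 k)) (sy e1)
    e2.symm y1 y2
  have n1 : ∀ {a}, InV nx u a → a ≠ y := fun k e => y3 (e ▸ k)
  have key : ∀ d, gl d ≠ d → InV nx (Equiv.swap u y d) (Equiv.swap u y (gl d)) →
      d ≠ u ∧ d ≠ y := by
    intro d hd k
    constructor
    · rintro rfl
      rw [Equiv.swap_apply_left, Equiv.swap_apply_of_ne_of_ne hd (n1 hu')] at k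
      exact y3 (tr hu' (sy k))
    · rintro rfl
      rw [Equiv.swap_apply_right,
        Equiv.swap_apply_of_ne_of_ne (fun e => y4 (Or.inl e)) hd] at k
      exact y4 k
  refine ⟨_, E', t', hg, ⟨e, gl e, ?_⟩, fun d hd k => ?_⟩
  · rw [TPinch_inv, Equiv.swap_apply_of_ne_of_ne e2 (n1 e1),
      Equiv.swap_apply_of_ne_of_ne (fun k => g1 (Or.inl k)) y2.symm]
    exact fun k => g1 (tr e1 k)
  · rw [TPinch_inv] at k
    have k1 := key d hd k
    have k2 := key (gl d) (by rw [h.invol]; exact hd.symm) (by rw [h.invol]; exact sy k)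
    rw [Equiv.swap_apply_of_ne_of_ne k1.1 k1.2, Equiv.swap_apply_of_ne_of_ne k2.1 k2.2] at k
    exact ⟨k1.1, k⟩

theorem PG.exists_noloop [DecidableEq D] (h : PG ρ nx gl E t) (hρ : Good ρ N)
    (h2 : ∃ d d', ¬ InV nx d d') : ∃ nx' E' t', PG ρ nx' gl E' t' ∧
      ∀ d, gl d ≠ d → ¬ InV nx' d (gl d) := by
  have := h.finite
  generalize hn : {d | gl d ≠ d ∧ InV nx d (gl d)}.ncard = n
  induction n using Nat.strong_induction_on generalizing nx E t with
  | _ n ih =>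
    by_cases h0 : ∃ u, gl u ≠ u ∧ InV nx u (gl u)
    · obtain ⟨u, h3, h4⟩ := h0
      obtain ⟨nx', E', t', h5, h6, h7⟩ := TPinch_loop h hρ h2 h3 h4
      refine ih _ (hn ▸ ncard_lt_ncard ⟨fun d hd => ⟨hd.1, (h7 d hd.1 hd.2).2⟩, fun k => ?_⟩
        (toFinite _)) h5 h6 rfl
      exact (h7 u h3 (k ⟨h3, h4⟩).2).1 rfl
    · exact ⟨nx, E, t, h, fun d h3 h4 => h0 ⟨d, h3, h4⟩⟩

/-- Twisting along all the curves of a system of objects. -/
theorem TPinch_glue {O : Set Γ} (hO : OSys ρ O) (hρ : Disc ρ) {f : Γ} (hf : f ∈ O)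
    (hh : Hyp (ρ f)) (τ : ℝ) : ∃ (σ : Γ →* Isom) (k : Circ ≃ₜ Circ), IsMark ρ σ k ∧
      (∀ a ∈ O, tl (σ a) = tl (ρ a)) ∧ (∀ a, Adj ρ O f a → σ a = ρ a) ∧
      ∀ a, Adj ρ O f⁻¹ a → σ a = trans (ax (ρ f)) τ * ρ a * (trans (ax (ρ f)) τ)⁻¹ := by
  have hL := hO.sys hρ
  have hw : Wt ρ (axes ρ O) fun _ => -τ := ⟨fun _ _ _ => rfl, fun _ _ => rfl⟩
  obtain ⟨p, hp⟩ := PCC_exists hO hρ hf
  obtain ⟨q, hq⟩ := PCC_exists hO hρ (hO.inv f hf hh)
  have off := PCC_off hO hρ hp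
  obtain ⟨F, hF⟩ := exists_qmap hL hw
  obtain ⟨k, -, hk⟩ := hF.exists_mark hL hw off
  have key : ∀ (a : Γ) (r : Pt), PCC_Top ρ O a r → qrep hL hw off a =
      qc (axes ρ O) (fun _ => -τ) p r * ρ a * (qc (axes ρ O) (fun _ => -τ) p r)⁻¹ := by
    intro a r hr
    have h1 := PCC_conj hO hr a
    rw [mul_inv_cancel_right] at h1
    rw [qrep_base hL hw off (PCC_off hO hρ hr), qrep_apply, qc_of_empty hL (PCC_empty hO hρ hr h1),
      one_mul]
  refine ⟨_, k, hk, fun a ha => ?_, fun a ha => ?_, fun a ha => ?_⟩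
  · obtain ⟨r, hr⟩ := PCC_exists hO hρ ha
    rw [key a r hr, tl_conj]
  · rw [key a p (PCC_adj hO hρ hp ha), qc_of_empty hL (PCC_empty hO hρ hp hp)]
    group
  · rw [key a q (PCC_adj hO hρ hq ha), qc_of_single hL (PCC_single hO hρ hh hp hq), neg_neg]

theorem TPinch_pt {l : Geo} {y : V} (h1 : Fut y) (h2 : B y y < 0) (h3 : side l y = 0) :
    ∃ r s : ℝ, r ^ 2 = -B y y ∧ y = r • (pt l s).1 := by
  have h0 : 0 < √(-B y y) := sqrt_pos.2 (neg_pos.2 h2)
  have h4 := toPt_val h2 h1.2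
  have h5 : side l (toPt y).1 = 0 := by
    rw [h4, side, B_smul_right, show B (nrm l) y = 0 from h3, mul_zero]
  refine ⟨√(-B y y), fer l (toPt y).1, sq_sqrt (neg_pos.2 h2).le, ?_⟩
  rw [eq_pt_of_side h5, h4, smul_smul, mul_inv_cancel₀ h0.ne', one_smul]

/-- The best twist. -/
theorem TPinch_best {f a b : Isom} (hf : Hyp f) (ha : Face a f⁻¹) (hb : Face b f) : ∃ τ : ℝ,
    2 * TT (trans (ax f) τ * a * (trans (ax f) τ)⁻¹) b ≤
      ((TT a f⁻¹ + TT b f) / qsh f) ^ 2 - qsh a ^ 2 - qsh b ^ 2 := by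
  obtain ⟨y, u, y1, y2, y3, -, y4⟩ := ha.PFace_split hf.inv
  obtain ⟨z, v, z1, z2, z3, -, z4⟩ := hb.PFace_split hf
  obtain ⟨y5, y6⟩ := PFace_split_facts ha.1 ha.2.1 y3 y4
  obtain ⟨z5, z6⟩ := PFace_split_facts hb.1 hb.2.1 z3 z4
  have hS := hf.qsh_pos
  rw [qsh_inv] at y5 y6
  rw [hf.noFix.qv_inv] at y3 y4
  have k : ∀ w, B w (qv f) = 0 → side (ax f) w = 0 := fun w hw => by
    rw [B_comm, PObj_hyp hf] at hw
    exact (mul_eq_zero.1 hw).resolve_left hS.ne'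
  obtain ⟨r, s, r1, r2⟩ := TPinch_pt y1 y2 (k y (by simpa using y3))
  obtain ⟨r', s', r3, r4⟩ := TPinch_pt z1 z2 (k z z3)
  refine ⟨s' - s, ?_⟩
  have e1 : lin (trans (ax f) (s' - s)) (qv f) = qv f := by
    rw [hf.qv_eq, lin_smul, ← nrm_smul, trans_smul]
  have e2 : lin (trans (ax f) (s' - s)) (pt (ax f) s).1 = (pt (ax f) s').1 := by
    rw [← smul_pt_val, smul_pt, trans_smul, sh_trans, add_sub_cancel]
  have e3 : B (pt (ax f) s').1 (qv f) = 0 := by
    rw [hf.qv_eq, B_smul_right, GFermi_pn, mul_zero]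
  have e4 : TT (trans (ax f) (s' - s) * a * (trans (ax f) (s' - s))⁻¹) b =
      r * r' + u * v * qsh f ^ 2 := by
    rw [TT, ha.1.qv_conj, y4, z4, lin_add, lin_smul, lin_neg, e1, r2, r4, lin_smul, e2]
    simp only [B_add_left, B_add_right, B_smul_left, B_smul_right, B_neg_left, e3,
      B_comm (qv f) (pt (ax f) s').1, (pt (ax f) s').2.1, hf.noFix.B_qv]
    ring
  have e5 : (TT a f⁻¹ + TT b f) / qsh f = -(u + v) * qsh f := by
    rw [y5, z5]
    field_simp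
    ring
  rw [e4, e5, y6, z6]
  linarith only [r1, r3, sq_nonneg (r - r'), sq_nonneg (r - r')]

theorem TPinch_num {c₁ c₂ c₃ c₄ C S T c : ℝ} (h1 : 1 ≤ c₁) (h2 : 1 ≤ c₂) (h3 : 1 ≤ c₃)
    (h4 : 1 ≤ c₄) (hS : 1 ≤ S) (hC : C ^ 2 = 1 + S ^ 2) (hC' : 1 ≤ C) (e : c = T - c₁ * c₂)
    (h : 2 * T ≤ ((c₄ + c₁ * C + (c₃ + c₂ * C)) / S) ^ 2 - (c₁ ^ 2 - 1) - (c₂ ^ 2 - 1)) :
    c ≤ 1 + 2 * (c₁ + c₂ + c₃ + c₄) ^ 2 / S := by
  have hS0 : 0 < S := by linarith only [hS]
  have k1 : C ≤ S + 1 := by (refine le_of_not_gt fun h_nl => ?_; linarith only [h_nl, hS, hC, hC', mul_nonneg_of_nonpos_of_nonpos (Mathlib.Tactic.Linarith.sub_nonpos_of_le hS) (le_of_lt (Mathlib.Tactic.Linarith.sub_neg_of_lt h_nl)), mul_nonneg_of_nonpos_of_nonpos (Mathlib.Tactic.Linarith.sub_nonpos_of_le hC') (le_of_lt (Mathlib.Tactic.Linarith.sub_neg_of_lt h_nl))])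
  obtain ⟨K, hK⟩ : ∃ K, K = c₁ + c₂ + c₃ + c₄ := ⟨_, rfl⟩
  rw [← hK]
  have k2 : (c₄ + c₁ * C + (c₃ + c₂ * C)) / S ≤ c₁ + c₂ + K / S := by
    rw [div_le_iff₀ hS0, add_mul, div_mul_cancel₀ _ hS0.ne', hK]
    linarith only [k1, h1, h2, mul_le_mul_of_nonneg_left k1 (show 0 ≤ c₁ + c₂ by linarith)]
  have k3 : 0 ≤ (c₄ + c₁ * C + (c₃ + c₂ * C)) / S := by positivity
  have k4 := pow_le_pow_left₀ k3 k2 2
  have k5 : 0 ≤ K / S := div_nonneg (by linarith only [h1, h2, h3, h4, hK]) hS0.le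
  have k6 : K / S ≤ K := div_le_self (by linarith only [h1, h2, h3, h4, hK]) hS
  have k7 : 2 * K ^ 2 / S = 2 * (K * (K / S)) := by ring
  have k8 : K / S * (K / S) ≤ K * (K / S) := mul_le_mul_of_nonneg_right k6 k5
  have k9 : (c₁ + c₂) * (K / S) ≤ K * (K / S) := mul_le_mul_of_nonneg_right (by linarith only [h3, h4, hK]) k5
  have k10 : 0 ≤ K * (K / S) := mul_nonneg (by linarith only [h1, h2, h3, h4, hK]) k5
  rw [k7, e]
  linarith only [h, k4, k8, k9, mul_self_nonneg ((1 : ℝ) * (K / S))]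

/-- The curve `m` is short after the best twist along a long curve `f`. -/
theorem TPinch_short {O : Set Γ} (hO : OSys ρ O) (hρ : Disc ρ) {m f a₁ a₂ a₃ a₄ : Γ}
    (hf : Hyp (ρ f)) (F0 : Frame (ρ m) (ρ a₁) (ρ a₂)) (F1 : FO ρ O a₂ a₃) (F2 : FO ρ O a₄ a₁)
    (e1 : f = (a₂ * a₃)⁻¹) (e2 : a₄ * a₁ = f) (hS : 1 ≤ qsh (ρ f)) :
    ∃ (σ : Γ →* Isom) (k : Circ ≃ₜ Circ), IsMark ρ σ k ∧ (∀ a ∈ O, tl (σ a) = tl (ρ a)) ∧
      qch (σ m) ≤ 1 + 2 * (qch (ρ a₁) + qch (ρ a₂) + qch (ρ a₃) + qch (ρ a₄)) ^ 2 / qsh (ρ f) := by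
  have G1 := F1.rot.rot
  rw [show (a₃ * (a₂ * a₃)⁻¹)⁻¹ = a₂ by group, ← e1] at G1
  have G2 := F2.rot
  rw [e2] at G2
  have A1 := G1.adj hO hρ
  have A2 := (G2.adj hO hρ).symm hO
  have T1 := F1.2.2.2.rot.rot.lift.1
  have T2 := F2.2.2.2.rot.lift.1
  rw [← e1, TT_comm] at T1
  rw [e2, map_inv, qch_inv] at T2
  obtain ⟨τ, hτ⟩ := TPinch_best hf (map_inv ρ f ▸ A2.face.symm) A1.face.symm
  obtain ⟨σ, k, hk, h1, h2, h3⟩ := TPinch_glue hO hρ G1.1 hf τ
  refine ⟨σ, k, hk, h1, ?_⟩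
  have T3 := (hk.frame F0).rot.lift.1
  rw [h2 _ A1, h3 _ A2, qch_conj] at T3
  refine TPinch_num (one_le_qch _) (one_le_qch _) (one_le_qch _) (one_le_qch _) hS (qch_sq _)
    (one_le_qch (ρ f)) T3 (hτ.trans (le_of_eq ?_))
  rw [T1, T2, qch_sq (ρ a₁), qch_sq (ρ a₂)]
  ring

/-- The curve that replaces the curve of an edge. -/
theorem TPinch_dual [DecidableEq D] (h : PG ρ nx gl E t) (hρ : Good ρ N) {d : D}
    (h1 : ¬ InV nx d (gl d)) : ∃ (O : Set Γ) (f a₁ a₂ a₃ a₄ : Γ), OSys ρ O ∧ Hyp (ρ f) ∧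
      inter ρ f (E d) ≠ 0 ∧ Frame (ρ (E d)) (ρ a₁) (ρ a₂) ∧ FO ρ O a₂ a₃ ∧ FO ρ O a₄ a₁ ∧
      f = (a₂ * a₃)⁻¹ ∧ a₄ * a₁ = f ∧ (∀ e, e ≠ d → e ≠ gl d → E e ∈ O) ∧
      a₁ ∈ objs E ∧ a₂ ∈ objs E ∧ a₃ ∈ objs E ∧ a₄ ∈ objs E := by
  have hd := hρ.toDisc
  have hO := h.sys
  have hP := h.toIsPants
  have hc := h.cube
  have hn := hP.nx_ne
  have hn2 : ∀ d, nx (nx d) ≠ d := fun d e => hn d (by have := hc d; rwa [e] at this)
  have dj : ∀ u v, InV nx d u → InV nx (gl d) v → u ≠ v := fun u v hu hv e =>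
    h1 (PDual_trans hc hu (PDual_symm hc (e ▸ hv)))
  have i0 : ∀ e, InV nx e e := fun e => Or.inl rfl
  have i1 : ∀ e, InV nx e (nx e) := fun e => Or.inr (Or.inl rfl)
  have i2 : ∀ e, InV nx e (nx (nx e)) := fun e => Or.inr (Or.inr rfl)
  have hm : Hyp (ρ (E d)) := (h.hyp_iff hd d).2 (dj _ _ (i0 _) (i0 _)).symm
  have mp : ∀ e g, MP nx E (g * E e * g⁻¹) (g * E (nx e) * g⁻¹) ∧
      MP nx E (g * E e * g⁻¹) (g * E (nx (nx e)) * g⁻¹) := fun e g =>
    ⟨⟨e, g, Or.inl ⟨rfl, rfl⟩⟩, ⟨nx (nx e), g, Or.inr ⟨rfl, by rw [hc]⟩⟩⟩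
  obtain ⟨m1, m2⟩ := mp d 1
  obtain ⟨m3, m4⟩ := mp (gl d) (t d)
  have p1 := hP.mul_eq hd d
  have p2 := hP.mul_eq hd (gl d)
  have e0 : t d * E (gl d) * (t d)⁻¹ = (E d)⁻¹ := by rw [h.hyp d hm]; group
  simp only [one_mul, inv_one, mul_one] at m1 m2
  rw [e0] at m3 m4
  have nc : ∀ e a, e ≠ d → e ≠ gl d → IsConj (E e) a → a ∉ cls ρ (E d) := fun e a k1 k2 k3 k4 =>
    ((h.mem_cls_iff d e).1 (PDual_cls k4 k3.symm)).elim k1 k2
  have S := hP.spair_across hρ hm m2 m3 (nc _ _ (hn2 d) (dj _ _ (i2 _) (i0 _)) (IsConj.refl _))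
    (nc _ _ (dj _ _ (i0 _) (i1 _)).symm (hn _) (POs_isConj _ _))
  obtain ⟨b3, f, F1, e | e, hO', -⟩ := S.exists_frame (hO.diff hm) hd
  swap
  · exact (dj _ _ (i2 _) (i1 _) (h.uniq _ _ ((e ▸ POs_isConj b3 _).trans
      (POs_isConj (t d) _).symm))).elim
  rw [e] at F1 hO'
  clear e
  rw [union_eq_left.2 ((hO.diff hm).cls_subset S.1.2.1)] at hO'
  have mf : f ∈ objs E \ cls ρ (E d) ∪ cls ρ f := Or.inr (mem_cls_self f)
  have nf : f ∉ objs E := fun k => ((PDual_fo hd F1 S.1.1.1 S.1.2.1.1 k).adj hO hd).2.2.2 _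
    (PPants_self E d) ⟨hm, (hP.adj hd m2).face.symm, (hP.adj hd m3).face⟩
  obtain ⟨hf, m', k1, k2⟩ := (PDual_mem hP hd hO' subset_union_left mf).resolve_left nf
  have F2 := hO.frame hd (hP.adj hd m4).2.1 (hP.adj hd m1).2.1
    (PAdj_tr hm (hP.adj hd m1).face.symm (hP.adj hd m4).face).symm
  have e1 : f = (E (nx (nx d)) * (t d * E (nx (gl d)) * (t d)⁻¹))⁻¹ :=
    hd.injective (by rw [F1.eq_inv, map_inv, map_mul ρ (E (nx (nx d)))])
  have ef : t d * E (nx (nx (gl d))) * (t d)⁻¹ * E (nx d) = f := by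
    have e2 : E (gl d) = (t d)⁻¹ * (E d)⁻¹ * t d := h.hyp d hm
    rw [e1, hP.PPants_third hd d, hP.PPants_third hd (gl d), e2]
    group
  have mem : ∀ e g, e ≠ d → e ≠ gl d → g * E e * g⁻¹ ∈ objs E \ cls ρ (E d) ∪ cls ρ f :=
    fun e g k3 k4 => Or.inl ⟨mem_objs E e g, nc _ _ k3 k4 (POs_isConj _ _)⟩
  have mem' : ∀ e, e ≠ d → e ≠ gl d → E e ∈ objs E \ cls ρ (E d) ∪ cls ρ f :=
    fun e k3 k4 => by simpa only [one_mul, inv_one, mul_one] using mem e 1 k3 k4
  refine ⟨_, f, _, _, _, _, hO', hf, ?_, h.frame d,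
    PDual_fo hd F1 (Or.inl S.1.1) (Or.inl S.1.2.1) mf,
    ⟨mem _ _ (dj _ _ (i0 _) (i2 _)).symm (hn2 _), mem' _ (hn _) (dj _ _ (i1 _) (i0 _)),
      ef.symm ▸ hO'.inv f mf hf, F2⟩, e1, ef, mem', PPants_self E _, PPants_self E _,
      mem_objs E _ _, mem_objs E _ _⟩
  obtain ⟨k, hk⟩ := PDual_cross hm k1 k2
  have sf := hO'.simple hd mf hf
  rw [hd.inter_comm hf sf.prim hm (hO.simple hd (PPants_self E d) hm).prim, Ne,
    hd.inter_eq_zero_iff hm hf sf.prim]
  exact fun H => H k hk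

theorem PG.pinch_one [DecidableEq D] (h : PG ρ nx gl E t) (hρ : Good ρ N) {d : D}
    (hd : ¬ InV nx d (gl d)) (x : Rep ρ) {ε : ℝ} (hε : 0 < ε) : ∃ y : Rep ρ, tl (y.1 (E d)) ≤ ε ∧
      ∀ e, e ≠ d → e ≠ gl d → tl (y.1 (E e)) = tl (x.1 (E e)) := by
  have hD := hρ.toDisc
  obtain ⟨O, f, a₁, a₂, a₃, a₄, hO, hf, hi, F0, F1, F2, e1, e2, hE, m1, m2, m3, m4⟩ :=
    TPinch_dual h hρ hd
  have hm : Hyp (ρ (E d)) := (h.hyp_iff hD d).2 fun e => hd (Or.inl e)
  obtain ⟨F, -, -, h1, -, h2⟩ :=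
    exists_flow hD (multi_single (h.sys.simple hD (PPants_self E d) hm)) x
  obtain ⟨C, hC⟩ := h2 f hf
  have h3 : ∀ s, ∀ a ∈ objs E, tl ((F s).1 a) = tl (x.1 a) := fun s a ha => by
    by_cases h3 : Hyp (ρ a)
    · exact h1 s a h3 fun _ => PDM_inter_zero h.sys hD ha (PPants_self E d) h3 hm
    · rw [PDM_tl_zero _ h3, PDM_tl_zero _ h3]
  obtain ⟨K, hK⟩ : ∃ K, K = 2 * (qch (x.1 a₁) + qch (x.1 a₂) + qch (x.1 a₃) + qch (x.1 a₄)) ^ 2 :=
    ⟨_, rfl⟩
  have hδ : 0 < cosh (ε / 2) - 1 := sub_pos.2 (one_lt_cosh.2 (half_pos hε).ne')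
  obtain ⟨S, hS1, hS2⟩ : ∃ S : ℝ, 1 ≤ S ∧ K / (cosh (ε / 2) - 1) ≤ S :=
    ⟨_, le_max_left _ _, le_max_right _ _⟩
  obtain ⟨z, hz1, hz2⟩ : ∃ z : Rep ρ, (∀ a ∈ objs E, tl (z.1 a) = tl (x.1 a)) ∧
      S ≤ qsh (z.1 f) := by
    refine ⟨F fun _ => 2 * S + C, h3 _, ?_⟩
    have h4 := hC fun _ => 2 * S + C
    rw [Fintype.sum_unique] at h4
    have h5 : (1 : ℝ) ≤ inter ρ f (E d) := by exact_mod_cast Nat.one_le_iff_ne_zero.2 hi
    have h6 := le_abs_self (2 * S + C)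
    have h7 := mul_le_mul_of_nonneg_left h5 (abs_nonneg (2 * S + C))
    refine le_trans (by linarith only [h4, h6, h7]) (self_le_sinh_iff.2 (by linarith only [hS1, h4, h6, h7]))
  obtain ⟨k, hk⟩ := z.2
  have fo : ∀ {a b}, FO ρ O a b → FO z.1 O a b := fun k1 =>
    ⟨k1.1, k1.2.1, k1.2.2.1, hk.frame k1.2.2.2⟩
  obtain ⟨σ, k', hk', h4, h5⟩ := TPinch_short (hk.osys hO) (hk.disc hD) (hk.hyp hf).1
    (hk.frame F0) (fo F1) (fo F2) e1 e2 (hS1.trans hz2)
  refine ⟨⟨σ, _, hk.trans hk'⟩, ?_, fun e k1 k2 =>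
    (h4 _ (hE e k1 k2)).trans (hz1 _ (PPants_self E e))⟩
  have h6 : ∀ a ∈ objs E, qch (z.1 a) = qch (x.1 a) := fun a ha => by rw [qch, qch, hz1 a ha]
  rw [h6 _ m1, h6 _ m2, h6 _ m3, h6 _ m4, ← hK] at h5
  have h7 : K / qsh (z.1 f) ≤ cosh (ε / 2) - 1 := by
    rw [div_le_iff₀ (by linarith only [hS1, hz2]), ← div_le_iff₀' hδ]
    exact hS2.trans hz2
  have h8 : cosh (tl (σ (E d)) / 2) ≤ cosh (ε / 2) := by
    change qch _ ≤ _
    linarith only [h5, h7]
  rw [cosh_le_cosh, abs_of_pos (half_pos hε)] at h8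
  change tl (σ (E d)) ≤ ε
  linarith only [h8, le_abs_self (tl (σ (E d)) / 2)]

theorem TPinch_two (h : PG ρ nx gl E t) (hρ : Good ρ N) {R : Fin 2 → Γ} (hR : Multi ρ R)
    (hE : ∀ i, R i ∈ objs E) : ∃ d d', ¬ InV nx d d' := by
  classical
  by_contra! H
  obtain ⟨a, ha⟩ := hE 0
  obtain ⟨b, hb⟩ := hE 1
  have h0 : Hyp (ρ (E a)) := (PDual_hyp ha).1 (hR.1 0).hyp
  have h1 : Hyp (ρ (E b)) := (PDual_hyp hb).1 (hR.1 1).hyp
  have n0 := (h.hyp_iff hρ.toDisc a).1 h0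
  have n1 := (h.hyp_iff hρ.toDisc b).1 h1
  have n2 : b ≠ a := by
    rintro rfl
    obtain ⟨g, hg⟩ := isConj_iff.1 (hb.symm.trans ha)
    exact (hR.2 0 1 (by decide) g).2.1 hg.symm
  have n3 : b ≠ gl a := by
    rintro rfl
    obtain ⟨g, hg⟩ := isConj_iff.1 (hb.symm.trans ((h.PPants_gl h0).symm.trans (POs_inv ha)))
    exact (hR.2 0 1 (by decide) g).2.2 hg.symm
  rcases (PComb.vs_tri (h.triv hρ)).full (H a (gl a)) (H a b) n0 n2 n3 (H a (gl b)) with e | e | e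
  · exact n3 (by rw [← e, h.invol])
  · exact n2 (gl.injective e)
  · exact n1 e

theorem TPinch_all [DecidableEq D] (h : PG ρ nx gl E t) (hρ : Good ρ N)
    (h1 : ∀ d, gl d ≠ d → ¬ InV nx d (gl d)) {ε : ℝ} (hε : 0 < ε) :
    ∃ x : Rep ρ, ∀ d, tl (x.1 (E d)) ≤ ε := by
  have := h.finite
  have := Fintype.ofFinite D
  have key : ∀ s : Finset D, ∃ x : Rep ρ, ∀ d ∈ s, tl (x.1 (E d)) ≤ ε := by
    intro s
    induction s using Finset.induction_on with
    | empty => exact ⟨⟨ρ, _, IsMark.refl ρ⟩, fun d hd => absurd hd (by simp)⟩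
    | insert d s _ ih =>
      obtain ⟨x, hx⟩ := ih
      by_cases hd : Hyp (ρ (E d))
      · obtain ⟨y, y1, y2⟩ := h.pinch_one hρ (h1 d ((h.hyp_iff hρ.toDisc d).1 hd)) x hε
        refine ⟨y, fun e he => ?_⟩
        by_cases e1 : e = d
        · exact e1 ▸ y1
        by_cases e2 : e = gl d
        · rw [e2, POs_tl (h.PPants_gl hd), map_inv, tl_inv]
          exact y1
        · rw [y2 e e1 e2]
          exact hx e ((Finset.mem_insert.1 he).resolve_left e1)
      · refine ⟨x, fun e he => ?_⟩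
        rcases Finset.mem_insert.1 he with rfl | he
        · rw [PDM_tl_zero x hd]
          exact hε.le
        · exact hx e he
  obtain ⟨x, hx⟩ := key Finset.univ
  exact ⟨x, fun d => hx d (Finset.mem_univ d)⟩

theorem exists_full_node (hρ : Good ρ N) (h2 : ∃ R : Fin 2 → Γ, Multi ρ R) :
    ∃ (k : ℕ) (P : Fin k → Γ), Multi ρ P ∧ IsMax ρ P ∧ ∃ y ∈ Aug ρ, Nodes ρ y P ∧
      ∀ β, ¬ (0 < y β ∧ y β < ⊤) := by
  have hD := hρ.toDisc
  obtain ⟨R, hR⟩ := h2
  obtain ⟨n, nx₀, E₀, h0, hE⟩ := hρ.exists_pants hR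
  obtain ⟨gl, t₀, hg⟩ := h0.exists_pg hD
  obtain ⟨nx, E, t, h, h1⟩ := hg.exists_noloop hρ (TPinch_two hg hρ hR hE)
  obtain ⟨k, P, hP, hO⟩ := h.sys.exists_multi hD
  obtain ⟨δ, hδ⟩ := hρ.exists_duals hP
  choose x hx using fun j : ℕ => TPinch_all h hρ h1 (Nat.one_div_pos_of_nat (n := j) (α := ℝ))
  choose φ hφ h3 h4 using fun j => hδ.exists_norm hD (x j)
  have h5 : ∀ j i, tl ((x j).1 (P i)) ≤ 1 / ((j : ℝ) + 1) := fun j i => by
    obtain ⟨d, hd⟩ : P i ∈ objs E := hO ▸ Or.inl ⟨i, mem_cls_self _⟩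
    rw [POs_tl hd]
    exact hx j d
  have h6 : ∀ j i, tl (((x j).act (hφ j)).1 (P i)) ≤ 1 / ((j : ℝ) + 1) := fun j i => by
    rw [Rep.act_apply, POs_tl (h3 j _ (hP.1 i).hyp fun l =>
      CTw_zero hD hP (hP.sys hD) (hP.1 i).hyp (CTw_ax' i) l)]
    exact h5 j i
  have h7 : ∀ j : ℕ, 1 / ((j : ℝ) + 1) ≤ 1 := fun j =>
    div_le_one_of_le₀ (le_add_of_nonneg_left j.cast_nonneg) (by positivity)
  have h8 : ∀ β, Simple ρ β → (∀ a, inter ρ β (P a) = 0) → β ∈ Obj ρ P := fun β hβ h0 => by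
    rw [← hO]
    refine h.toIsPants.mem_of_simple hD hβ fun m hm hh => GTwist2_nc hD hP hβ.hyp h0 _ ?_
    rw [← axes_obj hD hP, ← hO]
    exact ⟨m, hm, hh, rfl⟩
  have hp : Pinch ρ P δ (hyperfilter ℕ) fun j => (x j).act (hφ j) := by
    refine ⟨hδ, hρ.cover hP, fun a => ?_, fun β hβ h0 => ⟨1, Eventually.of_forall fun j => ?_⟩,
      fun a => ⟨4, Eventually.of_forall fun j => ?_⟩⟩
    · exact squeeze_zero (fun j => tl_nonneg _) (fun j => h6 j a)
        (tendsto_one_div_add_atTop_nhds_zero_nat.mono_left Nat.hyperfilter_le_atTop)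
    · obtain ⟨i, hi⟩ := CTw2_mem (h8 β hβ h0) hβ.hyp
      rw [tl_of_mem_cls hi]
      exact (h6 j i).trans (h7 j)
    · exact (h4 j a).trans (by linarith only [h5, h7, h5 j a, h7 j])
  obtain ⟨y, hy, hn, -⟩ := hp.exists_aug hρ
  refine ⟨k, P, hP, ⟨n, nx, E, h.toIsPants, hO⟩, y, hy, hn, fun β hβ => ?_⟩
  obtain ⟨k1, k2, k3⟩ := (hn.th β).2 hβ
  exact k3 (axes_obj hD hP ▸ ⟨β.1, h8 _ k1 k2, k1.hyp, rfl⟩)

theorem TPinch_step {ι : Type} {P δ : ι → Γ} (h : Duals ρ P δ) (hρ : Disc ρ) (x : Rep ρ) (i : ι)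
    {L : ℝ} (hx : tl (x.1 (P i)) ≤ L) : ∃ y : Rep ρ, tl (y.1 (P i)) = L ∧
      ∀ j, j ≠ i → tl (y.1 (P j)) = tl (x.1 (P j)) := by
  have hδ := h.simple i
  have hP := h.multi.1
  obtain ⟨F, hF, hF0, h1, -, h2⟩ := exists_flow hρ (multi_single hδ) x
  obtain ⟨C, hC⟩ := h2 _ (hP i).hyp
  have hi : (1 : ℝ) ≤ inter ρ (P i) (δ i) := by
    have : inter ρ (P i) (δ i) ≠ 0 := fun e =>
      (hρ.inter_eq_zero_iff (hP i).hyp hδ.hyp hδ.prim).1 e 1 (by simpa using h.cross i)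
    exact_mod_cast Nat.one_le_iff_ne_zero.2 this
  have hcont : Continuous fun s : ℝ => tl ((F fun _ => s).1 (P i)) :=
    (PCC_cont (P i)).comp (hF.comp (continuous_pi fun _ => continuous_id))
  have hm : L ∈ Icc (tl ((F fun _ => (0 : ℝ)).1 (P i))) (tl ((F fun _ => L + C).1 (P i))) := by
    refine ⟨?_, ?_⟩
    · rw [show (fun _ : Unit => (0 : ℝ)) = 0 from rfl, hF0]
      exact hx
    · have h3 := hC fun _ => L + C
      rw [Fintype.sum_unique] at h3
      have h4 := le_abs_self (L + C)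
      have h5 := mul_le_mul_of_nonneg_left hi (abs_nonneg (L + C))
      linarith
  obtain ⟨s, hs⟩ := intermediate_value_univ _ _ hcont hm
  refine ⟨F fun _ => s, hs, fun j hj => h1 _ _ (hP j).hyp fun _ => ?_⟩
  rw [hρ.inter_comm (hP j).hyp (hP j).prim hδ.hyp hδ.prim]
  exact h.disj i j hj

theorem Duals.exists_len {ι : Type} [Finite ι] {P δ : ι → Γ} (h : Duals ρ P δ) (hρ : Disc ρ)
    {L : ι → ℝ} (hL : ∀ i, tl (ρ (P i)) ≤ L i) : ∃ z : Teich ρ, ∀ i, len z (P i) = L i := by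
  classical
  have := Fintype.ofFinite ι
  have key : ∀ s : Finset ι, ∃ x : Rep ρ, ∀ i,
      tl (x.1 (P i)) ≤ L i ∧ (i ∈ s → tl (x.1 (P i)) = L i) := by
    intro s
    induction s using Finset.induction_on with
    | empty => exact ⟨⟨ρ, _, IsMark.refl ρ⟩, fun i => ⟨hL i, fun hi => absurd hi (by simp)⟩⟩
    | insert i s _ ih =>
      obtain ⟨x, hx⟩ := ih
      obtain ⟨y, y1, y2⟩ := TPinch_step h hρ x i (hx i).1
      refine ⟨y, fun j => ?_⟩
      by_cases e : j = i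
      · rw [e]
        exact ⟨y1.le, fun _ => y1⟩
      · rw [y2 j e]
        exact ⟨(hx j).1, fun hj => (hx j).2 ((Finset.mem_insert.1 hj).resolve_left e)⟩
  obtain ⟨x, hx⟩ := key Finset.univ
  exact ⟨x.cls, fun i => (hx i).2 (Finset.mem_univ i)⟩

/-- The maximum of a tuple of laminations gives an explicit function. -/
theorem expl_max (hρ : Good ρ N) (h2 : ∃ R : Fin 2 → Γ, Multi ρ R) (b : Teich ρ) {m : ℕ}
    {w : Fin m → Teich ρ → ℝ} (hw : w ∈ WT ρ (Fin m)) {F : Teich ρ → ℝ}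
    (hF : ∀ z, IsLUB (range fun a => w a z) (F z)) (hb : 0 < F b) :
    Expl b fun z => log (F z / F b) := by
  obtain ⟨k, P, hP, hm, y, hy, hn, h0⟩ := exists_full_node hρ h2
  obtain ⟨_, R, -, hR, -⟩ := closure_nonempty_iff.1 ⟨w, hw⟩
  have hk : m ≤ k := by simpa using IsMax.card_le hρ hP hm hR
  have he : Function.Injective (Sum.elim id Fin.elim0 : Fin m ⊕ Fin 0 → Fin m) := by
    rintro (a | a) (c | c) e
    · exact congrArg _ e
    · exact c.elim0
    · exact a.elim0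
    · exact a.elim0
  refine ⟨y, hy, m, 0, fun a => ⟨P (Fin.castLE hk a), hP.1 _⟩, hP.comp (Fin.castLE_injective hk),
    fun a => hn.zero _, _, wt_comp hw he, Fin.elim0, subset_closure ⟨Fin.elim0, Fin.elim0,
      ⟨fun i => i.elim0, fun i => i.elim0⟩, fun i => i.elim0, fun i => i.elim0,
        funext fun i => i.elim0⟩, F, fun z => ?_, hb, fun _ => rfl⟩
  convert hF z using 1
  exact union_eq_left.2 fun v ⟨β, k1, k2, _⟩ => (h0 β ⟨k1, k2⟩).elim

end HRT
end

-- merged part: Pool.Agent.Work.MP_35beee_gt.TCellA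
section
/-!
A family of matrices with a nonnegative triangular factorisation, and the maximum of their rows.
-/

namespace HRT

open Set Filter Topology

theorem TCell_ev {ι : Type} [Fintype ι] [DecidableEq ι] {M : Matrix ι ι ℝ}
    (hM : ∀ i j, j ≠ i → M j i < M i i) (i : ι) (w : ι → ℝ) : ∀ᶠ t : ℝ in atTop,
      ⨆ j, ∑ l, M j l * (w l + t * (Pi.single i 1 : ι → ℝ) l) = ∑ l, M i l * w l + t * M i i := by
  have e : ∀ (t : ℝ) j, ∑ l, M j l * (w l + t * (Pi.single i 1 : ι → ℝ) l) =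
      ∑ l, M j l * w l + t * M j i := fun t j => by
    simp [mul_add, Finset.sum_add_distrib, Pi.single_apply, mul_comm]
  have h : ∀ j, ∀ᶠ t : ℝ in atTop,
      ∑ l, M j l * w l + t * M j i ≤ ∑ l, M i l * w l + t * M i i := fun j => by
    rcases eq_or_ne j i with rfl | hj
    · exact Eventually.of_forall fun _ => le_rfl
    · filter_upwards [eventually_ge_atTop
        ((∑ l, M j l * w l - ∑ l, M i l * w l) / (M i i - M j i))] with t ht
      rw [div_le_iff₀ (sub_pos.2 (hM i j hj))] at ht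
      linarith
  have : Nonempty ι := ⟨i⟩
  filter_upwards [eventually_all.2 h] with t ht
  simp only [e]
  exact le_antisymm (ciSup_le ht)
    (le_ciSup (f := fun j => ∑ l, M j l * w l + t * M j i) (Finite.bddAbove_range _) i)

/-- The maximum of the rows on large vectors determines the matrix. -/
theorem TCell_det {ι : Type} [Fintype ι] [DecidableEq ι] {M M' : Matrix ι ι ℝ}
    (hM : ∀ i j, j ≠ i → M j i < M i i) (hM' : ∀ i j, j ≠ i → M' j i < M' i i) {a : ι → ℝ}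
    {c : ℝ} (h : ∀ v : ι → ℝ, (∀ i, a i ≤ v i) →
      ⨆ i, ∑ j, M i j * v j = c * ⨆ i, ∑ j, M' i j * v j) (i j : ι) : M i j = c * M' i j := by
  have h0 : ∀ i l, 0 ≤ (Pi.single i 1 : ι → ℝ) l := fun i l => by
    rw [Pi.single_apply]
    split_ifs <;> norm_num
  have h1 : ∀ w : ι → ℝ, (∀ i, a i ≤ w i) → ∑ l, M i l * w l = c * ∑ l, M' i l * w l := by
    intro w hw
    have h2 : ∀ᶠ t : ℝ in atTop,
        ∑ l, M i l * w l + t * M i i = c * (∑ l, M' i l * w l + t * M' i i) := by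
      filter_upwards [TCell_ev hM i w, TCell_ev hM' i w, eventually_ge_atTop 0] with t h3 h4 h5
      rw [← h3, ← h4]
      exact h _ fun l => (hw l).trans (le_add_of_nonneg_right (mul_nonneg h5 (h0 i l)))
    obtain ⟨t, ht⟩ := eventually_atTop.1 h2
    linear_combination (t + 1) * ht t le_rfl - t * ht (t + 1) (by linarith)
  have h3 := h1 a fun _ => le_rfl
  have h4 := h1 (fun l => a l + (Pi.single j 1 : ι → ℝ) l) fun l => le_add_of_nonneg_right (h0 j l)
  simp only [mul_add, Finset.sum_add_distrib, Pi.single_apply, mul_ite, mul_one, mul_zero,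
    Finset.sum_ite_eq', Finset.mem_univ, if_true] at h4
  linarith only [h3, h4]

/-- Uniqueness of the triangular factorisation. -/
theorem TCell_lu {k : ℕ} {L U L' U' : Matrix (Fin k) (Fin k) ℝ} (h : L * U = L' * U')
    (h1 : ∀ i j, i < j → L i j = 0) (h1' : ∀ i j, i < j → L' i j = 0)
    (h2 : ∀ i j, j < i → U i j = 0) (h2' : ∀ i j, j < i → U' i j = 0)
    (h3 : ∀ i, L i i = 1) (h3' : ∀ i, L' i i = 1) (h4 : ∀ i, U i i ≠ 0) : L = L' ∧ U = U' := by
  have key : ∀ i j, ∑ l, (L i l * U l j - L' i l * U' l j) = 0 := fun i j => by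
    rw [Finset.sum_sub_distrib, ← Matrix.mul_apply, ← Matrix.mul_apply, h, sub_self]
  have H : ∀ l : Fin k, (∀ j, U l j = U' l j) ∧ ∀ i, L i l = L' i l := by
    intro l
    induction l using WellFoundedLT.induction with
    | ind l ih =>
      have h5 : ∀ j, U l j = U' l j := fun j => by
        have h6 := key l j
        rw [Finset.sum_eq_single l, h3, h3', one_mul, one_mul] at h6
        · exact sub_eq_zero.1 h6
        · intro m _ hm
          rcases lt_or_gt_of_ne hm with hm | hm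
          · rw [(ih m hm).1, (ih m hm).2, sub_self]
          · rw [h1 _ _ hm, h1' _ _ hm, zero_mul, zero_mul, sub_self]
        · exact fun h => absurd (Finset.mem_univ _) h
      refine ⟨h5, fun i => ?_⟩
      have h6 := key i l
      rw [Finset.sum_eq_single l, ← h5] at h6
      · exact mul_right_cancel₀ (h4 l) (sub_eq_zero.1 h6)
      · intro m _ hm
        rcases lt_or_gt_of_ne hm with hm | hm
        · rw [(ih m hm).1, (ih m hm).2, sub_self]
        · rw [h2 _ _ hm, h2' _ _ hm, mul_zero, mul_zero, sub_self]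
      · exact fun h => absurd (Finset.mem_univ _) h
  exact ⟨Matrix.ext fun i j => (H j).2 i, Matrix.ext fun i j => (H i).1 j⟩

theorem TCell_param {k : ℕ} (o : Fin k) :
    ∃ y : (Fin (k ^ 2 - 1) → unitInterval) → Fin k → Fin k → ℝ,
      (∀ i j, Continuous fun x => y x i j) ∧ Function.Injective y ∧
        ∀ x, (∀ i j, 0 ≤ y x i j ∧ y x i j ≤ 1) ∧ y x o o = 0 := by
  have hc : Fintype.card {p : Fin k × Fin k // ¬ p = (o, o)} = k ^ 2 - 1 := by
    rw [Fintype.card_subtype_compl, Fintype.card_subtype_eq, Fintype.card_prod, Fintype.card_fin,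
      sq]
  let e := Fintype.equivFinOfCardEq hc
  refine ⟨fun x i j => if h : (i, j) = (o, o) then 0 else x (e ⟨(i, j), h⟩), fun i j => ?_,
    fun x x' h => funext fun n => ?_, fun x => ⟨fun i j => ?_, dif_pos rfl⟩⟩
  · dsimp only
    split_ifs
    · exact continuous_const
    · exact continuous_subtype_val.comp (continuous_apply _)
  · obtain ⟨⟨⟨i, j⟩, hp⟩, rfl⟩ := e.surjective n
    have h1 := congrFun (congrFun h i) j
    simp only [dif_neg hp] at h1
    exact Subtype.ext h1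
  · dsimp only
    split_ifs
    · exact ⟨le_rfl, zero_le_one⟩
    · exact (x _).2

/-- The lower triangular factor. -/
def TCellL {k : ℕ} (y : Fin k → Fin k → ℝ) : Matrix (Fin k) (Fin k) ℝ :=
  Matrix.of fun i j => if j < i then y i j else if i = j then 1 else 0

/-- The upper triangular factor. -/
def TCellU {k : ℕ} (y : Fin k → Fin k → ℝ) : Matrix (Fin k) (Fin k) ℝ :=
  Matrix.of fun i j => if i < j then y i j else if i = j then 1 + y i j else 0

section
variable {k : ℕ} {y y' : Fin k → Fin k → ℝ} {ε : ℝ}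

theorem TCellL_zero (i j : Fin k) (h : i < j) : TCellL y i j = 0 := by
  simp [TCellL, h.ne, h.le]

theorem TCellU_zero (i j : Fin k) (h : j < i) : TCellU y i j = 0 := by
  simp [TCellU, h.ne', h.le]

theorem TCellL_diag (i : Fin k) : TCellL y i i = 1 := by simp [TCellL]

theorem TCellU_diag (i : Fin k) : TCellU y i i = 1 + y i i := by simp [TCellU]

theorem TCellL_nonneg (h : ∀ i j, 0 ≤ y i j) (i j : Fin k) : 0 ≤ TCellL y i j := by
  rw [TCellL, Matrix.of_apply]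
  split_ifs
  exacts [h i j, zero_le_one, le_rfl]

theorem TCellU_nonneg (h : ∀ i j, 0 ≤ y i j) (i j : Fin k) : 0 ≤ TCellU y i j := by
  rw [TCellU, Matrix.of_apply]
  split_ifs
  exacts [h i j, add_nonneg zero_le_one (h i j), le_rfl]

theorem TCell_inj (h0 : ∀ i j, 0 ≤ y i j) (h : TCellL y * TCellU y = TCellL y' * TCellU y') :
    y = y' := by
  obtain ⟨h1, h2⟩ := TCell_lu h TCellL_zero TCellL_zero TCellU_zero TCellU_zero TCellL_diag
    TCellL_diag fun i => by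
      rw [TCellU_diag]
      linarith [h0 i i]
  funext i j
  rcases lt_trichotomy i j with hij | rfl | hij
  · simpa [TCellU, hij] using congrFun (congrFun h2 i) j
  · simpa [TCellU] using congrFun (congrFun h2 i) i
  · simpa [TCellL, hij] using congrFun (congrFun h1 i) j

theorem TCell_corner {o : Fin k} (ho : ∀ i, o ≤ i) (h : y o o = 0) :
    (TCellL y * TCellU y) o o = 1 := by
  rw [Matrix.mul_apply, Finset.sum_eq_single o, TCellL_diag, TCellU_diag, h, add_zero, one_mul]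
  · intro l _ hl
    rw [TCellL_zero _ _ (lt_of_le_of_ne (ho l) hl.symm), zero_mul]
  · exact fun h => absurd (Finset.mem_univ _) h

theorem TCell_dom (h0 : ∀ i j, 0 ≤ y i j) (h1 : ∀ i j, y i j ≤ ε) (h2 : ε ≤ 1)
    (h3 : k * (2 * ε) < 1) (i j : Fin k) (hj : j ≠ i) :
    (TCellL y * TCellU y) j i < (TCellL y * TCellU y) i i := by
  have hε : 0 ≤ ε := (h0 i i).trans (h1 i i)
  have a1 : ∀ l, TCellU y l i ≤ 2 := fun l => by
    rw [TCellU, Matrix.of_apply]
    split_ifs <;> linarith only [h2, h1, h1 l i]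
  have a2 : ∀ l, TCellL y j l * TCellU y l i ≤ 2 * ε := fun l => by
    rcases eq_or_ne j l with rfl | hl
    · rw [TCellL_diag, one_mul, TCellU, Matrix.of_apply, if_neg hj]
      split_ifs <;> linarith only [hε, h1, h1 j i]
    · rw [mul_comm]
      refine mul_le_mul (a1 l) ?_ (TCellL_nonneg h0 _ _) zero_le_two
      rw [TCellL, Matrix.of_apply, if_neg hl]
      split_ifs
      exacts [h1 j l, hε]
  have a3 : ∑ l, TCellL y j l * TCellU y l i ≤ k * (2 * ε) := by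
    simpa using Finset.sum_le_card_nsmul Finset.univ _ _ fun l _ => a2 l
  have a4 := Finset.single_le_sum (f := fun l => TCellL y i l * TCellU y l i)
    (fun l _ => mul_nonneg (TCellL_nonneg h0 _ _) (TCellU_nonneg h0 _ _)) (Finset.mem_univ i)
  rw [TCellL_diag, TCellU_diag] at a4
  rw [Matrix.mul_apply, Matrix.mul_apply]
  linarith [h0 i i]

end

theorem TCell_family {k : ℕ} (hk : 0 < k) :
    ∃ L U : (Fin (k ^ 2 - 1) → unitInterval) → Matrix (Fin k) (Fin k) ℝ,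
      (∀ i j, Continuous fun x => (L x * U x) i j) ∧ Function.Injective (fun x => L x * U x) ∧
        ∀ x, (∀ i j, 0 ≤ L x i j) ∧ (∀ i j, 0 ≤ U x i j) ∧ (∀ i j, i < j → L x i j = 0) ∧
          (∀ i j, j < i → U x i j = 0) ∧ (L x * U x) ⟨0, hk⟩ ⟨0, hk⟩ = 1 ∧
            ∀ i j, j ≠ i → (L x * U x) j i < (L x * U x) i i := by
  obtain ⟨y, h1, h2, h3⟩ := TCell_param (⟨0, hk⟩ : Fin k)
  have hk1 : (1 : ℝ) ≤ k := by exact_mod_cast hk
  have hε : (0 : ℝ) < 1 / (4 * k) := by positivity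
  have h0 : ∀ x i j, 0 ≤ 1 / (4 * (k : ℝ)) * y x i j := fun x i j =>
    mul_nonneg hε.le ((h3 x).1 i j).1
  refine ⟨fun x => TCellL fun i j => 1 / (4 * k) * y x i j,
    fun x => TCellU fun i j => 1 / (4 * k) * y x i j, fun i j => ?_, fun x x' h => h2 ?_,
    fun x => ⟨TCellL_nonneg (h0 x), TCellU_nonneg (h0 x), TCellL_zero, TCellU_zero,
      TCell_corner (fun i => Nat.zero_le _) (by rw [(h3 x).2, mul_zero]),
      TCell_dom (ε := 1 / (4 * k)) (h0 x)
        (fun i j => mul_le_of_le_one_right hε.le ((h3 x).1 i j).2) ?_ ?_⟩⟩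
  · simp only [Matrix.mul_apply, TCellL, TCellU, Matrix.of_apply]
    refine continuous_finsetSum _ fun l _ => Continuous.mul ?_ ?_
    · split_ifs
      exacts [continuous_const.mul (h1 _ _), continuous_const, continuous_const]
    · split_ifs
      exacts [continuous_const.mul (h1 _ _), continuous_const.add (continuous_const.mul (h1 _ _)),
        continuous_const]
  · have h4 := TCell_inj (h0 x) h
    funext i j
    exact mul_left_cancel₀ hε.ne' (congrFun (congrFun h4 i) j)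
  · rw [div_le_one (by positivity)]
    linarith only [hk1]
  · have : (k : ℝ) * (2 * (1 / (4 * k))) = 1 / 2 := by
      field_simp
      norm_num
    linarith only [this]

end HRT
end

-- merged part: Pool.Agent.Work.MP_35beee_gt.TCell
section
/-!
The boundary is larger than the space of projective laminations; a cell of large dimension.

Plan. `ne_pml`: `expl_max` for two disjoint curves `A`, `A'`. If the maximum of the two length
functions were a lamination then `exists_ge_of_le_sup` for the standard simplex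
contradicts `Duals.exists_len` (`Good.exists_duals`).
`exists_cell`: for `k = 1` one point. For `k ≥ 2` index the parameters by the pairs `(i, j)` other
than `(0, 0)`: `L` is lower triangular with ones on the diagonal and entries `ε x` below it, `U` is
upper triangular with diagonal entries `1 + ε x` (`U 0 0 = 1`) and entries `ε x` above it. For
`M = L * U` the tuple `M * len R` is in `WT` (`wt_tri` twice); send `x` to the normalised logarithm
of its maximum (`expl_max`, `mem_of_expl`, `exists_cont_of_expl`); continuity by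
`tendsto_iff_pointwise`. If `ε` is small, the row `i` gives the maximum at all length vectors whose
`i`-th entry is much larger than the others; all large vectors occur (`Duals.exists_len`); so the
function determines `M` up to a factor, which is one because `M 0 0 = 1`; the `L U` decomposition
is unique (`Matrix.BlockTriangular`).
-/

namespace HRT

open Set Filter Topology Real

variable {Γ : Type} [Group Γ] {ρ : Γ →* Isom} {N : ℝ → ℝ}

theorem TCell_wt {ι : Type} {R : ι → Γ} (hR : Multi ρ R) {c : ℝ} (hc : 0 ≤ c) :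
    (fun i z => c * len z (R i)) ∈ WT ρ ι :=
  subset_closure ⟨R, fun _ => c, hR, fun _ => hc, rfl⟩

theorem TCell_max (hρ : Good ρ N) (h2 : ∃ R : Fin 2 → Γ, Multi ρ R) (b : Teich ρ) {m : ℕ}
    [Nonempty (Fin m)] {w : Fin m → Teich ρ → ℝ} (hw : w ∈ WT ρ (Fin m)) (hb : 0 < ⨆ a, w a b) :
    ∃ f : horoBdry b, ∀ z, f.1 z = log ((⨆ a, w a z) / ⨆ a, w a b) := by
  have hs : ∃ g, Simple ρ g := h2.elim fun R hR => ⟨R 0, hR.1 0⟩
  have h := expl_max hρ h2 b hw (F := fun z => ⨆ a, w a z)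
    (fun z => isLUB_ciSup (Finite.bddAbove_range _)) hb
  exact ⟨⟨⟨_, exists_cont_of_expl hρ hs b h⟩, mem_of_expl hρ hs b h⟩, fun _ => rfl⟩

theorem TCell_log {a b c d : ℝ} (ha : 0 < a) (hb : 0 < b) (hc : 0 < c) (hd : 0 < d)
    (h : log (a / b) = log (c / d)) : a = b / d * c := by
  have h1 := log_injOn_pos (div_pos ha hb) (div_pos hc hd) h
  rw [div_eq_iff hb.ne'] at h1
  rw [h1]
  ring

theorem ne_pml (hρ : Good ρ N) (b : Teich ρ) (h : ∃ R : Fin 2 → Γ, Multi ρ R) :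
    horoBdry b ≠ PML b := by
  intro he
  obtain ⟨R, hR⟩ := id h
  obtain ⟨δ, hδ⟩ := hρ.exists_duals hR
  have h1 : ∀ (z : Teich ρ) i, 1 * len z (R i) ≤ ⨆ a, 1 * len z (R a) := fun z i =>
    le_ciSup (f := fun a => 1 * len z (R a)) (Finite.bddAbove_range _) i
  have h2 : ∀ z : Teich ρ, 0 < ⨆ a, 1 * len z (R a) := fun z =>
    (mul_pos one_pos (len_pos z (hR.1 0).hyp)).trans_le (h1 z 0)
  obtain ⟨⟨f, hf⟩, h3⟩ := TCell_max hρ h b (TCell_wt hR zero_le_one) (h2 b)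
  rw [he] at hf
  obtain ⟨u, hu, h4, h5⟩ := hf
  have h6 : ∀ z, 0 < u z := fun z =>
    pos_of_mul_pos_right (h4.trans_le (wt_le hρ (mem_ml_iff.1 hu) () z b)) (exp_pos _).le
  obtain ⟨κ, hκ, h7⟩ : ∃ κ > 0, ∀ z, u z = κ * ⨆ a, 1 * len z (R a) :=
    ⟨_, div_pos h4 (h2 b), fun z => TCell_log (h6 z) h4 (h2 z) (h2 b) ((h5 z).symm.trans (h3 z))⟩
  obtain ⟨c, hc, h8⟩ := exists_ge_of_le_sup hρ (TCell_wt hR hκ.le) hu
    (isCompact_stdSimplex ℝ (Fin 2)) (convex_stdSimplex ℝ (Fin 2)) (fun c hc => hc.1) fun z => by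
      obtain ⟨i, hi⟩ := exists_eq_ciSup_of_finite (f := fun a => 1 * len z (R a))
      refine ⟨_, single_mem_stdSimplex ℝ i, le_of_eq ?_⟩
      rw [h7, ← hi]
      simp [Pi.single_apply]
  have h9 : ∀ (z : Teich ρ) i, len z (R i) ≤ c 0 * len z (R 0) + c 1 * len z (R 1) := fun z i => by
    have a1 := h8 z
    have a2 := mul_le_mul_of_nonneg_left (h1 z i) hκ.le
    rw [h7, Fin.sum_univ_two] at a1
    exact le_of_mul_le_mul_left (by linarith) hκ
  have a0 := hc.2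
  rw [Fin.sum_univ_two] at a0
  have a1 := tl_nonneg (ρ (R 0))
  have a2 := tl_nonneg (ρ (R 1))
  obtain ⟨z, hz⟩ := hδ.exists_len hρ.toDisc
    (L := ![tl (ρ (R 0)) + tl (ρ (R 1)) + 1, tl (ρ (R 0)) + tl (ρ (R 1))])
    (Fin.forall_fin_two.2 ⟨by simp; linarith, by simp; linarith⟩)
  obtain ⟨z', hz'⟩ := hδ.exists_len hρ.toDisc
    (L := ![tl (ρ (R 0)) + tl (ρ (R 1)), tl (ρ (R 0)) + tl (ρ (R 1)) + 1])
    (Fin.forall_fin_two.2 ⟨by simp; linarith, by simp; linarith⟩)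
  have b1 := h9 z 0
  have b2 := h9 z' 1
  rw [hz, hz] at b1
  rw [hz', hz'] at b2
  simp only [Matrix.cons_val_zero, Matrix.cons_val_one] at b1 b2
  generalize tl (ρ (R 0)) + tl (ρ (R 1)) = s at b1 b2
  have b3 : c 0 * s + c 1 * s = s := by rw [← add_mul, a0, one_mul]
  linarith only [a0, b1, b2, b3]

theorem TCell_one (hρ : Good ρ N) (b : Teich ρ) {g : Γ} (hg : Simple ρ g) :
    (horoBdry b).Nonempty := by
  have h1 : Continuous fun z : Teich ρ => log (1 * len z g / (1 * len b g)) :=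
    ((continuous_const.mul (continuous_len g)).div_const _).log fun z =>
      (div_pos (mul_pos one_pos (len_pos z hg.hyp)) (mul_pos one_pos (len_pos b hg.hyp))).ne'
  exact ⟨⟨_, h1⟩, pml_subset hρ ⟨g, hg⟩ b ⟨fun z => 1 * len z g,
    subset_closure ⟨g, 1, hg, zero_le_one, rfl⟩, mul_pos one_pos (len_pos b hg.hyp),
    fun _ => rfl⟩⟩

theorem exists_cell (hρ : Good ρ N) (b : Teich ρ) {k : ℕ} (hk : 0 < k) {R : Fin k → Γ}
    (hR : Multi ρ R) : ∃ e : (Fin (k ^ 2 - 1) → unitInterval) → horoBdry b,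
      Continuous e ∧ Function.Injective e := by
  rcases Nat.lt_or_ge k 2 with h2 | h2
  · obtain rfl : k = 1 := by omega
    obtain ⟨f, hf⟩ := TCell_one hρ b (hR.1 0)
    have : IsEmpty (Fin (1 ^ 2 - 1)) := inferInstanceAs (IsEmpty (Fin 0))
    exact ⟨fun _ => ⟨f, hf⟩, continuous_const, Function.injective_of_subsingleton _⟩
  have : Nonempty (Fin k) := ⟨⟨0, hk⟩⟩
  have hs : ∃ g, Simple ρ g := ⟨_, hR.1 ⟨0, hk⟩⟩
  obtain ⟨δ, hδ⟩ := hρ.exists_duals hR
  obtain ⟨L, U, h3, h4, h5⟩ := TCell_family hk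
  have hw : ∀ x, (fun i z => ∑ j, (L x * U x) i j * len z (R j)) ∈ WT ρ (Fin k) := fun x => by
    obtain ⟨a1, a2, a3, a4, -⟩ := h5 x
    have h6 := wt_tri hρ (wt_tri hρ (TCell_wt hR zero_le_one) a2 (Or.inr a4)) a1 (Or.inl a3)
    convert h6 using 3 with i z
    simp only [Matrix.mul_apply, Finset.sum_mul, Finset.mul_sum, one_mul, mul_assoc]
    exact Finset.sum_comm
  have hp : ∀ x z, 0 < ⨆ i, ∑ j, (L x * U x) i j * len z (R j) := fun x z => by
    obtain ⟨a1, a2, -, -, a5, -⟩ := h5 x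
    refine lt_of_lt_of_le ?_ (le_ciSup (f := fun i => ∑ j, (L x * U x) i j * len z (R j))
      (Finite.bddAbove_range _) ⟨0, hk⟩)
    refine Finset.sum_pos' (fun j _ => mul_nonneg ?_ (len_pos z (hR.1 j).hyp).le)
      ⟨⟨0, hk⟩, Finset.mem_univ _, ?_⟩
    · rw [Matrix.mul_apply]
      exact Finset.sum_nonneg fun l _ => mul_nonneg (a1 _ _) (a2 _ _)
    · rw [a5, one_mul]
      exact len_pos z (hR.1 _).hyp
  choose e he using fun x =>
    TCell_max hρ ⟨_, hR.comp (Fin.castLE_injective h2)⟩ b (hw x) (hp x b)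
  refine ⟨e, continuous_induced_rng.2 (continuous_iff_continuousAt.2 fun x => ?_),
    fun x x' h => h4 ?_⟩
  · refine (tendsto_iff_pointwise hρ hs fun x => sub_le_of_mem_closure hρ hs b (e x).2.1).2
      fun z => ?_
    have hc : ∀ z : Teich ρ,
        Continuous fun x => ⨆ i, ∑ j, (L x * U x) i j * len z (R j) := fun z => by
      simp only [← Finset.sup'_univ_eq_ciSup]
      exact Continuous.finset_sup'_apply _ fun i _ =>
        continuous_finsetSum _ fun j _ => (h3 i j).mul continuous_const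
    simp only [Function.comp_apply, he]
    exact (((hc z).div (hc b) fun x => (hp x b).ne').log
      fun x => (div_pos (hp x z) (hp x b)).ne').tendsto x
  · have h6 := TCell_det (h5 x).2.2.2.2.2 (h5 x').2.2.2.2.2 (a := fun i => tl (ρ (R i)))
      (c := (⨆ i, ∑ j, (L x * U x) i j * len b (R j)) / ⨆ i, ∑ j, (L x' * U x') i j * len b (R j))
      fun v hv => by
        obtain ⟨z, hz⟩ := hδ.exists_len hρ.toDisc hv
        simp only [← hz]
        refine TCell_log (hp x z) (hp x b) (hp x' z) (hp x' b) ?_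
        rw [← he, ← he, h]
    have h7 := h6 ⟨0, hk⟩ ⟨0, hk⟩
    rw [(h5 x).2.2.2.2.1, (h5 x').2.2.2.2.1, mul_one] at h7
    rw [← h7] at h6
    exact Matrix.ext fun i j => (h6 i j).trans (one_mul _)

end HRT
end
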