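import Pool.Agent.Work.MP_35beee_gt.PFace
import Mathlib
import Pool.Agent.Work.MP_35beee_gt.GDyn

-- merged part: Pool.Agent.Work.MP_35beee_gt.PFrame
section
/-!
Frames: the three boundary elements of a pair of pants.

Plan. `Frame.lift`: the product of the positive lifts of `a` and `b` is a lift `(s, v)` of `c⁻¹`,
so `(qch c, qv c)` is `(s, -v)` or `(-s, v)`. In the first case let `w = cr (qv a) (qv b)`
(`B w w = T² - qsh² qsh² > 0`); take the future vector `p ≠ 0` orthogonal to `w` and to `qv a`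
(if `a` is parabolic `p = lo a`; if `a` is hyperbolic it is the point of `ax a` on the common
perpendicular, a multiple of `T • qv a + qsh a ^ 2 • qv b`): then `¬ Ins a p`, so `Ins b p` and
`Ins c p` (`Face.ins_fut`), but `B (qv c) p = -qch a * B (qv b) p > 0`.
`frame_of_face`: `sq_le_TT` twice gives `T ^ 2 ≥ sa² sb² + max sa² sb²`, with `T > 0` this gives
`qch a * qch b - T < 1` (as `(ca - cb)² ≤ max sa² sb²`, strictly unless both are parabolic), so
`≤ -1` because `a * b` has no fixed point; hence `qv c = ca • ub + cb • ua + w`. From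
`a b c = 1` with this sign, `TT b c = ca + cb cc` and so on. For `Face c a`: `face_iff_ends`, or:
`B (qv c) ξ` and `B (qv a) ξ` cannot both be `≥ 0` on a null future vector because
`T(c,a) > sc sa` makes the lines disjoint and `p` above (moved slightly inside `a`) is inside both.
`Frame.ord3`: `det3 ua ub uc = B w w > 0` and `det3_qv_pos`, `ord3_total`.
`Frame.exists_conj`: the Gram matrices of `(ua, ub, uc)` agree and both determinants are positive;
the linear map sending one basis to the other is an isometry (`exists_isom`; it preserves the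
future cone because it sends `cb • ua + ca • ub` to the analogous future vector).
`Frame.cross_of_arcs` (no simple line joins two arcs): let `x = l.src`, `y = l.tgt`. If `b • l`
does not cross `l` then `b • x` is not in the open arc from `x` to `y`, so `b⁻¹ • y` is before or
at `x` in the arc from `hi b` to `lo c`; `a = c⁻¹ b⁻¹` and `c⁻¹` moves the point `b⁻¹ • y` of the
inner side of `c` clockwise, so `y < a • y < x < a • x` on the inner side of `a`: crossing.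
`Frame.level_lt`: the line from `lo b` through `p` ends at a point `η` of the open arc from
`lo b` to `lo c`; since `p` is inside `b`, `η` is in the arc from `hi b` to `lo c`, inside `b`, `c`.
Use `qv a = cb • uc + cc • ub + cr ub uc` and `det3_qv_circ_pos` to see that
`B (qv a - qv b)` is negative at `η` and at `lo b`.
`area_tri_circ`: `Isom` is transitive on counterclockwise triples up to positive scaling (scale the
three null vectors so that all products are `-1`; Gram matrix argument as above).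
-/

namespace HRT

open Set Filter Topology Real

/-- Three elements with product one and pairwise disjoint gaps. -/
def Frame (a b c : Isom) : Prop := a * b * c = 1 ∧ Face a b ∧ Face b c ∧ Face c a

variable {a b c : Isom}

theorem Frame.rot (h : Frame a b c) : Frame b c a := by
  refine ⟨?_, h.2.2.1, h.2.2.2, h.2.1⟩
  have := h.1
  rwa [mul_assoc, mul_eq_one_comm] at this

theorem Frame.flip (h : Frame a b c) : Frame b a (b * c * b⁻¹) := by
  have h1 : a = (b * c)⁻¹ := eq_inv_of_mul_eq_one_left (by rw [← mul_assoc, h.1])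
  refine ⟨by rw [h1]; group, h.2.1.symm, ?_, ?_⟩
  · have h2 := (h.2.2.2.conj a⁻¹).symm
    have e1 : a⁻¹ * a * a⁻¹⁻¹ = a := by group
    have e2 : a⁻¹ * c * a⁻¹⁻¹ = b * c * b⁻¹ := by rw [h1]; group
    rwa [e1, e2] at h2
  · simpa using (h.2.2.1.conj b).symm

theorem Frame.conj (h : Frame a b c) (A : Isom) :
    Frame (A * a * A⁻¹) (A * b * A⁻¹) (A * c * A⁻¹) := by
  refine ⟨?_, h.2.1.conj A, h.2.2.1.conj A, h.2.2.2.conj A⟩
  have : A * a * A⁻¹ * (A * b * A⁻¹) * (A * c * A⁻¹) = A * (a * b * c) * A⁻¹ := by group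
  rw [this, h.1]
  group

theorem Frame.eq_inv (h : Frame a b c) : c = (a * b)⁻¹ := by
  exact eq_inv_of_mul_eq_one_right h.1

theorem Frame.lift (h : Frame a b c) : qch c = TT a b - qch a * qch b ∧
    qv c = qch a • qv b + qch b • qv a + cr (qv a) (qv b) := by
  have h1 := (h.2.1.1.isLift_qv.mul h.2.1.2.1.isLift_qv).inv
  rw [← h.eq_inv] at h1
  rcases h1.unique h.2.2.2.1.isLift_qv with ⟨-, h2⟩ | ⟨h2, h3⟩
  · obtain ⟨p, p1, p2, p3, p4⟩ := PFrame_vec h.2.1
    have h3 : B (qv c) p < 0 := h.2.2.2.ins_fut p1 fun k => k.ne p2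
    rw [h2, B_neg_left, B_add_left, B_add_left, B_smul_left, B_smul_left, p2, p4] at h3
    nlinarith [one_le_qch a]
  · refine ⟨?_, by rw [h3, neg_neg]⟩
    rw [h2, TT]
    ring

theorem PFrame_det_pos (h : Face a b) : 0 < TT a b ^ 2 - (qsh a * qsh b) ^ 2 := by
  linarith only [h, h.lt_TT, mul_nonneg (qsh_nonneg a) (qsh_nonneg b), mul_pos_of_neg_of_neg (Mathlib.Tactic.Linarith.sub_neg_of_lt (Face.lt_TT h)) (Mathlib.Tactic.Linarith.sub_neg_of_lt (Face.lt_TT h)), mul_nonneg_of_nonpos_of_nonpos (le_of_lt (Mathlib.Tactic.Linarith.sub_neg_of_lt (Face.lt_TT h))) (Mathlib.Tactic.Linarith.sub_nonpos_of_le (mul_nonneg (qsh_nonneg a) (qsh_nonneg b)))]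

theorem PFrame_det (h : Frame a b c) :
    det3 (qv a) (qv b) (qv c) = TT a b ^ 2 - (qsh a * qsh b) ^ 2 := by
  rw [h.lift.2, det3, B_add_right, B_add_right, B_smul_right, B_smul_right, B_cr_left, B_cr_right,
    B_cr_cr, h.2.1.1.B_qv, h.2.1.2.1.B_qv, TT, B_comm (qv b)]
  ring

theorem PFrame_T (h : Frame a b c) : B (qv a) (qv b) = -(qch c + qch a * qch b) := by
  rw [h.lift.1, TT]
  ring

theorem Frame.ord3 (h : Frame a b c) : Ord3 a b c := by
  refine (ord3_total h.2.1 h.2.2.1 h.2.2.2).resolve_right fun k => ?_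
  have h1 := det3_qv_pos h.2.2.2.symm h.2.2.1.symm h.2.1.symm k
  rw [det3_swap, PFrame_det h] at h1
  linarith [PFrame_det_pos h.2.1]

theorem PFrame_BB (ha : NoFix a) (hb : NoFix b) {t : ℝ}
    (h : B (qv a) (qv b) = -(t + qch a * qch b)) :
    B (qch b • qv a + qch a • qv b) (qch b • qv a + qch a • qv b) =
      -(qch a ^ 2 + qch b ^ 2 + 2 * (qch a * qch b * t)) := by
  simp only [B_add_left, B_add_right, B_smul_left, B_smul_right, ha.B_qv, hb.B_qv,
    B_comm (qv b) (qv a), h]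
  linear_combination (-qch b ^ 2) * qch_sq a - qch a ^ 2 * qch_sq b

theorem PFrame_cen (h : Frame a b c) :
    B (qch b • qv a + qch a • qv b) (qch b • qv a + qch a • qv b) < 0 ∧
      0 < (qch b • qv a + qch a • qv b) 2 := by
  have ca := one_le_qch a
  have cb := one_le_qch b
  have cc := one_le_qch c
  have h1 : B (qch b • qv a + qch a • qv b) (qch b • qv a + qch a • qv b) < 0 := by
    rw [PFrame_BB h.2.1.1 h.2.1.2.1 (PFrame_T h), neg_lt_zero]
    positivity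
  refine ⟨h1, (PFrame_fut h1.le (lo b).fut ?_).2⟩
  rw [B_add_left, B_smul_left, B_smul_left, h.2.1.2.1.B_qv_lo, mul_zero, add_zero]
  exact mul_neg_of_pos_of_neg (by positivity) h.2.1.ins_lo

theorem frame_of_face (h : Face a b) (h1 : Face a (b * a * b⁻¹)) (h2 : Face b (a * b * a⁻¹))
    (h3 : NoFix (a * b)) : Frame a b (a * b)⁻¹ := by
  have hT := h.lt_TT
  have h0 := mul_nonneg (qsh_nonneg a) (qsh_nonneg b)
  have s1 := sq_le_TT h.2.1 h1
  have s2 := sq_le_TT h.1 h2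
  rw [TT_comm b a] at s2
  have ca := one_le_qch a
  have cb := one_le_qch b
  have ea := qch_sq a
  have eb := qch_sq b
  have l1 := h.1.isLift_qv.mul h.2.1.isLift_qv
  have e : B (qv a) (qv b) = -TT a b := by simp [TT]
  have k1 : qch a * qch b - 1 < TT a b := by
    clear * - b a cb ea eb h0 hT s1 ca s2
    have key : ∀ x y s t T : ℝ, 1 ≤ y → y ≤ x → x ^ 2 = 1 + s ^ 2 → y ^ 2 = 1 + t ^ 2 → 0 < T →
        s ^ 2 + s ^ 2 * t ^ 2 ≤ T ^ 2 → x * y - 1 < T := by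
      intro x y s t T a1 a2 a3 a4 a5 a6
      rcases (a1.trans a2).eq_or_lt with a7 | a7
      · have : y = 1 := le_antisymm (a7 ▸ a2) a1
        rw [← a7, this]
        simpa using a5
      · refine lt_of_pow_lt_pow_left₀ 2 a5.le ?_
        have a8 : s ^ 2 + s ^ 2 * t ^ 2 = (x ^ 2 - 1) * y ^ 2 := by rw [a3, a4]; ring
        rw [a8] at a6
        linarith only [a6, a7, a1, a2, mul_nonneg (sub_nonneg.2 a1) (sub_nonneg.2 a2), mul_nonneg_of_nonpos_of_nonpos (Mathlib.Tactic.Linarith.sub_nonpos_of_le a1) (Mathlib.Tactic.Linarith.sub_nonpos_of_le a1)]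
    rcases le_total (qch b) (qch a) with k | k
    · exact key _ _ _ _ _ cb k ea eb (h0.trans_lt hT) s1
    · rw [mul_comm]
      exact key _ _ _ _ _ ca k eb ea (h0.trans_lt hT) s2
  have k2 : 1 ≤ -(qch a * qch b + B (qv a) (qv b)) := by
    by_contra! H
    obtain ⟨p, hp⟩ := l1.exists_fix (abs_lt.2 ⟨by linarith, by linarith⟩)
    exact h3 p hp
  obtain ⟨q1, q2⟩ := qv_eq l1.inv.neg k2
  rw [neg_neg] at q2
  set c := (a * b)⁻¹ with hc
  have hc' : NoFix c := h3.inv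
  have cc := one_le_qch c
  have ec := qch_sq c
  have t1 : B (qv a) (qv b) = -(qch c + qch a * qch b) := by rw [q1]; ring
  have t2 : B (qv b) (qv c) = -(qch a + qch b * qch c) := by
    rw [q2, B_add_right, B_add_right, B_smul_right, B_smul_right, B_comm _ (cr _ _), B_cr_right,
      h.2.1.B_qv, B_comm (qv b), t1]
    linear_combination (-qch a) * eb
  have t3 : B (qv c) (qv a) = -(qch b + qch c * qch a) := by
    rw [q2, B_add_left, B_add_left, B_smul_left, B_smul_left, B_cr_left,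
      h.1.B_qv, B_comm (qv b), t1]
    linear_combination (-qch b) * ea
  obtain ⟨p, p1, p2, p3, p4⟩ := PFrame_vec h
  have p5 : B (qv c) p < 0 := by
    clear * - c p a b q2 p2 p4 p3 ca
    rw [q2, B_add_left, B_add_left, B_smul_left, B_smul_left, p2, p4]
    linarith only [p3, ca, mul_nonneg_of_nonpos_of_nonpos (Mathlib.Tactic.Linarith.sub_nonpos_of_le ca) (le_of_lt (Mathlib.Tactic.Linarith.sub_neg_of_lt p3))]
  have P : 0 < qch a * qch b * qch c := by clear * - a b c ca cb cc; positivity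
  refine ⟨mul_inv_cancel _, h, PFrame_face h.2.1 hc' (x := qch c) (y := qch b) (by clear * - c cc a b h hc' p1; positivity)
    (by positivity) ?_ p1 ?_, PFrame_face hc' h.1 (x := qch a) (y := qch c) (by positivity)
    (by clear * - c cc p1; positivity) ?_ p1 ?_⟩
  · rw [PFrame_BB h.2.1 hc' t2]
    clear * - b c a eb ec P
    linarith only [eb, ec, P, sq_nonneg (qsh c), sq_nonneg (qsh b)]
  · rw [B_add_left, B_smul_left, B_smul_left]
    clear * - c b p a p3 p5 cb k2 q1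
    linarith only [p3, p5, cb, k2, q1, mul_nonneg_of_nonpos_of_nonpos (Mathlib.Tactic.Linarith.sub_nonpos_of_le cb) (le_of_lt (Mathlib.Tactic.Linarith.sub_neg_of_lt p5)), mul_nonneg_of_nonpos_of_nonpos (Mathlib.Tactic.Linarith.sub_nonpos_of_le k2) (le_of_lt (Mathlib.Tactic.Linarith.sub_neg_of_lt p3)), Mathlib.Tactic.Linarith.zero_mul_eq (sub_eq_zero_of_eq q1) (Mathlib.Tactic.Linarith.sub_neg_of_lt p3)]
  · rw [PFrame_BB hc' h.1 t3]
    clear * - c a b ea ec P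
    linarith only [ea, ec, P, sq_nonneg (qsh c), sq_nonneg (qsh a)]
  · rw [B_add_left, B_smul_left, B_smul_left, p2]
    clear * - a c p p5 ca
    nlinarith

theorem Frame.exists_conj {a' b' c' : Isom} (h : Frame a b c) (h' : Frame a' b' c')
    (ha : tl a = tl a') (hb : tl b = tl b') (hc : tl c = tl c') :
    ∃ A : Isom, A * a * A⁻¹ = a' ∧ A * b * A⁻¹ = b' ∧ A * c * A⁻¹ = c' := by
  have ca : qch a' = qch a := by rw [qch, qch, ha]
  have cb : qch b' = qch b := by rw [qch, qch, hb]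
  have cc : qch c' = qch c := by rw [qch, qch, hc]
  have sa : qsh a' = qsh a := by rw [qsh, qsh, ha]
  have sb : qsh b' = qsh b := by rw [qsh, qsh, hb]
  have sc : qsh c' = qsh c := by rw [qsh, qsh, hc]
  have t1 : B (qv a') (qv b') = B (qv a) (qv b) := by rw [PFrame_T h, PFrame_T h', ca, cb, cc]
  have z := (PFrame_cen h').2
  rw [ca, cb] at z
  obtain ⟨A, h1, h2, h3⟩ := PFrame_gram (u₁ := qv a) (u₂ := qv b) (u₃ := qv c) (v₁ := qv a')
    (v₂ := qv b') (v₃ := qv c') (by rw [PFrame_det h]; exact (PFrame_det_pos h.2.1).ne')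
    (by rw [PFrame_det h, PFrame_det h', TT, TT, t1, sa, sb])
    (by rw [h.2.1.1.B_qv, h'.2.1.1.B_qv, sa]) (by rw [h.2.2.1.1.B_qv, h'.2.2.1.1.B_qv, sb])
    (by rw [h.2.2.2.1.B_qv, h'.2.2.2.1.B_qv, sc]) t1
    (by rw [PFrame_T h.rot, PFrame_T h'.rot, ca, cb, cc])
    (by rw [B_comm, B_comm (qv a), PFrame_T h.rot.rot, PFrame_T h'.rot.rot, ca, cb, cc])
    (PFrame_cen h).1 (PFrame_cen h).2 z
  have key : ∀ {g g' : Isom}, NoFix g → NoFix g' → qch g' = qch g → lin A (qv g) = qv g' →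
      A * g * A⁻¹ = g' := fun k k' e e' => isom_ext fun v => by
    rw [(k.isLift_qv.conj A).2, k'.isLift_qv.2, e, e']
  exact ⟨A, key h.2.1.1 h'.2.1.1 ca h1, key h.2.2.1.1 h'.2.2.1.1 cb h2,
    key h.2.2.2.1 h'.2.2.2.1 cc h3⟩

/-- The translate `b⁻¹ a b = c a c⁻¹` lies between `b` and `c`. -/
theorem Frame.face_conj (h : Frame a b c) : Face a (b⁻¹ * a * b) ∧ Face b (b⁻¹ * a * b) ∧
    Face c (b⁻¹ * a * b) ∧ Ord3 b (b⁻¹ * a * b) c := by
  have e : b⁻¹ * a * b = c * a * c⁻¹ := by rw [h.eq_inv]; group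
  have f1 : Face (b⁻¹ * a * b) b := by simpa using h.2.1.conj b⁻¹
  have f2 : Face c (b⁻¹ * a * b) := by simpa [e] using h.2.2.2.conj c
  have f3 : Face a (b⁻¹ * a * b) := by
    refine PFrame_face h.2.1.1 f1.1 zero_le_one zero_le_one ?_ (lo b).fut ?_
    · have t := TT_conj_inv h.2.1.1 h.2.1.2.1
      have s : qsh (b⁻¹ * a * b) = qsh a := by simpa using qsh_conj b⁻¹ a
      have t' : B (qv a) (qv (b⁻¹ * a * b)) = -TT a (b⁻¹ * a * b) := by simp [TT]
      rw [one_smul, one_smul, B_add_left, B_add_right, B_add_right, h.2.1.1.B_qv, f1.1.B_qv,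
        B_comm (qv (b⁻¹ * a * b)), t', t, s]
      have ca := one_le_qch a
      have cb := one_le_qch b
      have cc := one_le_qch c
      have t2 : TT a b = qch c + qch a * qch b := by rw [h.lift.1]; ring
      have t3 : qsh a ^ 2 + qsh a ^ 2 * qsh b ^ 2 = (qch a * qch b) ^ 2 - qch b ^ 2 := by
        rw [mul_pow, qch_sq a, qch_sq b]; ring
      have t4 : 0 < qch a * qch b := by clear * - a b ca cb; positivity
      rw [t2]
      clear * - a c b cb cc t3 t4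
      linarith only [cb, cc, t3, t4, mul_nonneg_of_nonpos_of_nonpos (Mathlib.Tactic.Linarith.sub_nonpos_of_le cb) (Mathlib.Tactic.Linarith.sub_nonpos_of_le cb), mul_nonneg_of_nonpos_of_nonpos (Mathlib.Tactic.Linarith.sub_nonpos_of_le cc) (Mathlib.Tactic.Linarith.sub_nonpos_of_le cc), mul_nonneg_of_nonpos_of_nonpos (Mathlib.Tactic.Linarith.sub_nonpos_of_le cc) (le_of_lt (Mathlib.Tactic.Linarith.sub_neg_of_lt t4))]
    · rw [one_smul, one_smul, B_add_left]
      exact add_neg h.2.1.ins_lo f1.ins_lo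
  refine ⟨f3, f1.symm, f2, ?_⟩
  have o1 : Ord3 c a (b⁻¹ * a * b) := e ▸ h.2.2.2.ord3_conj
  have o2 : Ord3 b (b⁻¹ * a * b) a := by
    have := h.2.1.symm.ord3_conj.conj h.2.1.2.1 h.2.1.1 (h.2.1.1.conj b) b⁻¹
    simpa [mul_assoc] using this
  exact (ccw.cyc (ccw.cyc o2)).trans' (ccw.cyc o1)

/-- The three gaps and the three open arcs between them cover the circle. -/
theorem Frame.cases (h : Frame a b c) (ξ : Circ) : ¬ Ins a ξ.1 ∨ ¬ Ins b ξ.1 ∨ ¬ Ins c ξ.1 ∨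
    ccw (hi a) ξ (lo b) ∨ ccw (hi b) ξ (lo c) ∨ ccw (hi c) ξ (lo a) := by
  by_cases ha : Ins a ξ.1
  swap
  · exact Or.inl ha
  by_cases hb : Ins b ξ.1
  swap
  · exact Or.inr (Or.inl hb)
  by_cases hc : Ins c ξ.1
  swap
  · exact Or.inr (Or.inr (Or.inl hc))
  have ne : ∀ {g : Isom}, NoFix g → Ins g ξ.1 → ξ ≠ lo g := fun k k' e => PFrame_lo k (e ▸ k')
  have key : ∀ {g k : Isom}, Face g k → Ins g ξ.1 → ccw (lo g) ξ (lo k) → ccw (hi g) ξ (lo k) :=
    fun f i o => ((f.1.ccw_gap i f.ins_lo (PFrame_lo f.1) (PFrame_hi f.1)).1 o.cyc).cyc.cyc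
  exact Or.inr (Or.inr (Or.inr ((PFrame_split h.ord3 (ne h.2.1.1 ha) (ne h.2.2.1.1 hb)
    (ne h.2.2.2.1 hc)).imp (key h.2.1 ha) (Or.imp (key h.2.2.1 hb) (key h.2.2.2 hc)))))

theorem Frame.ins_of_arc (h : Frame a b c) {ξ : Circ} (hξ : ccw (hi a) ξ (lo b)) :
    Ins a ξ.1 ∧ Ins b ξ.1 ∧ Ins c ξ.1 := by
  refine ⟨PFrame_ins1 h.2.1.pos h.2.1.ins_lo hξ, PFrame_ins2 h.2.2.1.pos h.2.1.symm.ins_hi hξ, ?_⟩
  by_contra k
  exact ((ccw_gaps h.2.1 h.2.2.1 h.2.2.2 (PFrame_hi h.2.1.1) (PFrame_lo h.2.2.1.1) k).2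
    h.ord3).asymm hξ

theorem Frame.cross_of_arcs (h : Frame a b c) {l : Geo} (hx : ccw (hi b) l.src (lo c))
    (hy : ccw (hi a) l.tgt (lo b)) : Cross l (b • l) ∨ Cross l (a • l) := by
  have na := h.2.1.1
  have nb := h.2.2.1.1
  have nc := h.2.2.2.1
  obtain ⟨xb, xc, xa⟩ := h.rot.ins_of_arc hx
  obtain ⟨ya, yb, yc⟩ := h.ins_of_arc hy
  have inv : ∀ {g : Isom}, NoFix g → ∀ ξ : Circ, Ins g ξ.1 → Ins g (g⁻¹ • ξ).1 := fun k ξ i => by
    simpa using (k.ins_zpow_circ (-1) ξ).2 i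
  set x := l.src with hxd
  set y := l.tgt with hyd
  have o1 : ccw (hi b) (lo c) (hi a) :=
    (ccw_gaps h.2.2.1 h.2.2.2 h.2.1 (PFrame_hi nb) (PFrame_lo nc) (PFrame_hi na)).2 h.rot.ord3
  have o2 : ccw (hi a) (lo b) x :=
    ((nb.ccw_gap xb h.2.1.symm.ins_hi (PFrame_hi nb) (PFrame_lo nb)).1 (hx.trans o1).cyc).cyc
  rw [or_iff_not_imp_left]
  intro H
  have o3 : ccw y (b • y) x := (nb.ccw_smul yb (PFrame_lo nb)).trans (hy.trans' o2)
  have o4 : ¬ ccw (b⁻¹ • x) x (b⁻¹ • y) := fun k => H ((cross_iff_ccw _ _).2 (Or.inl ⟨by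
    simpa using (ccw_smul_iff b).2 k, o3⟩))
  set z := b⁻¹ • y with hzd
  have zb : Ins b z.1 := inv nb y yb
  have o5 : ccw (b⁻¹ • x) x (hi b) := by
    simpa using nb.ccw_smul (inv nb x xb) (PFrame_hi nb)
  have o6 : z = x ∨ ccw (hi b) z x := by
    rw [or_iff_not_imp_left]
    intro k
    refine (ccw_total (fun e : hi b = z => PFrame_hi nb (e ▸ zb)) k hx.ne12).resolve_right fun k' => ?_
    exact o4 (o5.cyc.cyc.trans' k')
  have o7 : ccw (hi b) z (lo c) := o6.elim (fun e => e ▸ hx) fun k => k.trans hx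
  have zc : Ins c z.1 := (h.rot.ins_of_arc o7).2.1
  have ea : a = c⁻¹ * b⁻¹ := by rw [h.eq_inv]; group
  have eb : b⁻¹ = c * a := by rw [h.eq_inv]; group
  have e1 : a • y = c⁻¹ • z := by rw [hzd, ← mul_smul, ← ea]
  have fa : a • hi a = hi a := (na.fix_iff _).2 (Or.inr rfl)
  have fb : b⁻¹ • lo b = lo b := by
    rw [inv_smul_eq_iff, eq_comm]
    exact (nb.fix_iff _).2 (Or.inl rfl)
  have fc : c⁻¹ • lo c = lo c := by
    rw [inv_smul_eq_iff, eq_comm]
    exact (nc.fix_iff _).2 (Or.inl rfl)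
  have o8 : ccw (c • hi a) z (lo b) := by
    have := (ccw_smul_iff b⁻¹).2 hy
    rwa [fb, ← hzd, eb, mul_smul, fa] at this
  have o9 : ccw z (lo c) (lo b) :=
    (nb.ccw_gap zb h.2.2.1.ins_lo (PFrame_hi nb) (PFrame_lo nb)).1 o7.cyc
  have o10 : ccw (hi a) (a • y) (lo c) := by
    have := (ccw_smul_iff c⁻¹).2 (o9.trans o8.cyc).cyc.cyc
    rwa [inv_smul_smul, fc, ← e1] at this
  have o11 : ccw (a • y) z (lo c) := by
    simpa [e1] using nc.ccw_smul (inv nc z zc) (PFrame_lo nc)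
  have o12 : ccw (lo c) (a • y) x := o6.elim (fun e => e ▸ o11.cyc.cyc) fun k =>
    o11.cyc.cyc.trans (k.trans' hx).cyc.cyc
  have o13 : ccw y (a • y) x :=
    (na.ccw_smul ya (PFrame_hi na)).cyc.cyc.trans' (o10.cyc.cyc.trans' o12)
  have o14 : ccw x (a • x) y := (na.ccw_smul xa (PFrame_hi na)).trans (hy.trans o2).cyc.cyc
  exact (cross_iff_ccw _ _).2 (Or.inl ⟨o14, o13⟩)

theorem Frame.level_lt (h : Frame a b c) {p : Pt} (hb : Ins b p.1)
    (hp : det3 (lo b).1 (lo c).1 p.1 < 0) : -B (qv b) p.1 < -B (qv a) p.1 := by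
  have nb := h.2.2.1.1
  obtain ⟨l, s, h1, h2⟩ := exists_line_pt_circ p (lo b)
  obtain ⟨α, β, hα, hβ, e⟩ : ∃ α β : ℝ, 0 < α ∧ 0 < β ∧ p.1 = α • l.src.1 + β • (lo b).1 := by
    have hκ : 0 < (√(-2 * B l.src.1 l.tgt.1))⁻¹ :=
      inv_pos.2 (Real.sqrt_pos.2 (by linarith [l.B_neg]))
    refine ⟨_, _, mul_pos hκ (exp_pos (-s)), mul_pos hκ (exp_pos s), ?_⟩
    rw [← h1, ← h2, mul_smul, mul_smul, ← smul_add]
    rfl
  generalize l.src = η at e
  have i1 : Ins b η.1 := by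
    rw [Ins, e, B_add_right, B_smul_right, B_smul_right, nb.B_qv_lo, mul_zero, add_zero] at hb
    exact neg_of_mul_neg_right hb hα.le
  have o1 : ccw (lo b) η (lo c) := by
    rw [e, det3, B_add_right, B_smul_right, B_smul_right, B_cr_left, mul_zero, add_zero] at hp
    rw [ccw_iff, det3_swap, neg_pos]
    exact neg_of_mul_neg_right hp hα.le
  have o2 := ((nb.ccw_gap i1 h.2.2.1.ins_lo (PFrame_lo nb) (PFrame_hi nb)).1 o1.cyc).cyc.cyc
  have i2 : Ins c η.1 := (h.rot.ins_of_arc o2).2.1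
  have d1 := det3_qv_circ_pos h.2.2.1.symm i2 i1 o1.cyc.cyc
  rw [det3, cr_anti, B_neg_left] at d1
  have d2 : B (qv a) η.1 < B (qv b) η.1 := by
    rw [h.rot.lift.2, B_add_left, B_add_left, B_smul_left, B_smul_left]
    linarith only [d1, i2, i1, one_le_qch b, one_le_qch c, show B (qv b) η.1 < 0 from i1,
      show B (qv c) η.1 < 0 from i2, mul_nonneg_of_nonpos_of_nonpos (Mathlib.Tactic.Linarith.sub_nonpos_of_le (one_le_qch b))   (le_of_lt     (Mathlib.Tactic.Linarith.sub_neg_of_lt       (have this := i2;       this))), mul_nonneg_of_nonpos_of_nonpos (Mathlib.Tactic.Linarith.sub_nonpos_of_le (one_le_qch c))   (le_of_lt     (Mathlib.Tactic.Linarith.sub_neg_of_lt       (have this := i1;       this)))]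
  rw [e, B_add_right, B_add_right, B_smul_right, B_smul_right, B_smul_right, B_smul_right,
    nb.B_qv_lo]
  linarith only [hα, d2, hβ, h, show B (qv a) (lo b).1 < 0 from h.2.1.ins_lo, mul_pos_of_neg_of_neg (Mathlib.Tactic.Linarith.sub_neg_of_lt hα) (Mathlib.Tactic.Linarith.sub_neg_of_lt d2), mul_pos_of_neg_of_neg (Mathlib.Tactic.Linarith.sub_neg_of_lt hβ)   (Mathlib.Tactic.Linarith.sub_neg_of_lt     (have this := Face.ins_lo h.right.left;     this))]

/-- The centre of a frame. -/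
noncomputable def cen (a b : Isom) : Pt := toPt (qch b • qv a + qch a • qv b)

theorem Frame.cen_conj (h : Frame a b c) (A : Isom) :
    cen (A * a * A⁻¹) (A * b * A⁻¹) = A • cen a b := by
  refine Subtype.ext ?_
  have h1 := PFrame_cen h
  have h2 := PFrame_cen (h.conj A)
  rw [cen, cen, toPt_val h2.1 h2.2, smul_pt_val, toPt_val h1.1 h1.2, lin_smul, qch_conj, qch_conj,
    h.2.1.1.qv_conj, h.2.1.2.1.qv_conj, ← lin_smul, ← lin_smul, ← lin_add, B_lin]

theorem Frame.cen_level (h : Frame a b c) :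
    (0 < -B (qv a) (cen a b).1 ∧ -B (qv a) (cen a b).1 ≤ 2 * (qch a * qch b * qch c) ^ 2) ∧
    (0 < -B (qv b) (cen a b).1 ∧ -B (qv b) (cen a b).1 ≤ 2 * (qch a * qch b * qch c) ^ 2) ∧
    (0 < -B (qv c) (cen a b).1 ∧ -B (qv c) (cen a b).1 ≤ 2 * (qch a * qch b * qch c) ^ 2) := by
  have h1 := PFrame_cen h
  have ca := one_le_qch a
  have cb := one_le_qch b
  have cc := one_le_qch c
  have ea := qch_sq a
  have eb := qch_sq b
  have t1 := PFrame_T h
  have t2 := PFrame_T h.rot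
  have t3 := PFrame_T h.rot.rot
  have ab : 1 ≤ qch a * qch b := one_le_mul_of_one_le_of_one_le ca cb
  have bc : 1 ≤ qch b * qch c := one_le_mul_of_one_le_of_one_le cb cc
  have ac : 1 ≤ qch a * qch c := one_le_mul_of_one_le_of_one_le ca cc
  have pa : qch a ≤ qch a * qch b * qch c := by clear * - a b c bc ca; linarith only [bc, ca, mul_nonneg_of_nonpos_of_nonpos (Mathlib.Tactic.Linarith.sub_nonpos_of_le ca) (Mathlib.Tactic.Linarith.sub_nonpos_of_le bc)]
  have pb : qch b ≤ qch a * qch b * qch c := by clear * - b a c ca cc bc cb; nlinarith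
  have pac : qch a * qch c ≤ qch a * qch b * qch c := by clear * - a c b cb ac; nlinarith
  have pbc : qch b * qch c ≤ qch a * qch b * qch c := by clear * - b c a ca bc; nlinarith
  have hD : 2 ≤ √(-B (qch b • qv a + qch a • qv b) (qch b • qv a + qch a • qv b)) := by
    clear * - b a c h t1 ca ea eb pa
    rw [PFrame_BB h.2.1.1 h.2.1.2.1 t1, neg_neg]
    exact Real.le_sqrt_of_sq_le (by linarith only [ca, ea, eb, pa, sq_nonneg (qsh b), sq_nonneg (qsh a)])
  have key : ∀ (u : V) (X : ℝ), -B u (qch b • qv a + qch a • qv b) = X → 0 < X →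
      X ≤ 4 * (qch a * qch b * qch c) ^ 2 →
      0 < -B u (cen a b).1 ∧ -B u (cen a b).1 ≤ 2 * (qch a * qch b * qch c) ^ 2 := by
    clear * - b a c h1 hD
    intro u X e x1 x2
    rw [cen, toPt_val h1.1 h1.2, B_smul_right, ← mul_neg, e]
    refine ⟨by positivity, ?_⟩
    rw [inv_mul_le_iff₀ (by positivity)]
    linarith only [x2, hD, sq_nonneg (qch a * qch b * qch c), mul_nonneg_of_nonpos_of_nonpos (Mathlib.Tactic.Linarith.sub_nonpos_of_le (sq_nonneg (qch a * qch b * qch c))) (Mathlib.Tactic.Linarith.sub_nonpos_of_le hD)]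
  generalize hP : qch a * qch b * qch c = P at pa pb pac pbc key
  have p1 : 1 ≤ P := ca.trans pa
  refine ⟨key _ (qch a * qch c + qch b) ?_ (by clear * - a c b ca cc cb P key; positivity) (by clear * - a c b P ea hP pb pac bc ca pa key; linarith only [ea, hP, pb, pac, bc, ca, pa, sq_nonneg (qsh a), mul_nonneg_of_nonpos_of_nonpos (Mathlib.Tactic.Linarith.sub_nonpos_of_le (sq_nonneg (qch a))) (Mathlib.Tactic.Linarith.sub_nonpos_of_le bc), mul_nonneg_of_nonpos_of_nonpos (Mathlib.Tactic.Linarith.sub_nonpos_of_le ca) (Mathlib.Tactic.Linarith.sub_nonpos_of_le ca), Mathlib.Tactic.Linarith.mul_zero_eq (Mathlib.Tactic.Linarith.sub_nonpos_of_le ca) (sub_eq_zero_of_eq hP), mul_nonneg_of_nonpos_of_nonpos (Mathlib.Tactic.Linarith.sub_nonpos_of_le ca) (Mathlib.Tactic.Linarith.sub_nonpos_of_le pa), mul_nonneg_of_nonpos_of_nonpos (Mathlib.Tactic.Linarith.sub_nonpos_of_le pa) (Mathlib.Tactic.Linarith.sub_nonpos_of_le pa)]),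
    key _ (qch b * qch c + qch a) ?_ (by clear * - b c a cb cc ca key; positivity) (by clear * - b c a P ea hP pbc bc ca pa key; linarith only [ea, hP, pbc, bc, ca, pa, sq_nonneg (qsh a), mul_nonneg_of_nonpos_of_nonpos (Mathlib.Tactic.Linarith.sub_nonpos_of_le (sq_nonneg (qch a))) (Mathlib.Tactic.Linarith.sub_nonpos_of_le bc), mul_nonneg_of_nonpos_of_nonpos (Mathlib.Tactic.Linarith.sub_nonpos_of_le ca) (Mathlib.Tactic.Linarith.sub_nonpos_of_le ca), Mathlib.Tactic.Linarith.mul_zero_eq (Mathlib.Tactic.Linarith.sub_nonpos_of_le ca) (sub_eq_zero_of_eq hP), mul_nonneg_of_nonpos_of_nonpos (Mathlib.Tactic.Linarith.sub_nonpos_of_le ca) (Mathlib.Tactic.Linarith.sub_nonpos_of_le pa), mul_nonneg_of_nonpos_of_nonpos (Mathlib.Tactic.Linarith.sub_nonpos_of_le pa) (Mathlib.Tactic.Linarith.sub_nonpos_of_le pa)]),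
    key _ (qch a ^ 2 + qch b ^ 2 + 2 * P) ?_ (by positivity) (by clear * - a b P c ea hP pb bc ac ca pa cb key; linarith only [ea, hP, pb, bc, ac, ca, pa, cb, sq_nonneg (qsh a), mul_nonneg_of_nonpos_of_nonpos (Mathlib.Tactic.Linarith.sub_nonpos_of_le (sq_nonneg (qch a))) (Mathlib.Tactic.Linarith.sub_nonpos_of_le bc), mul_nonneg_of_nonpos_of_nonpos (Mathlib.Tactic.Linarith.sub_nonpos_of_le (sq_nonneg (qch b))) (Mathlib.Tactic.Linarith.sub_nonpos_of_le ac), mul_nonneg_of_nonpos_of_nonpos (Mathlib.Tactic.Linarith.sub_nonpos_of_le ca) (Mathlib.Tactic.Linarith.sub_nonpos_of_le ca), Mathlib.Tactic.Linarith.mul_zero_eq (Mathlib.Tactic.Linarith.sub_nonpos_of_le ca) (sub_eq_zero_of_eq hP), mul_nonneg_of_nonpos_of_nonpos (Mathlib.Tactic.Linarith.sub_nonpos_of_le ca) (Mathlib.Tactic.Linarith.sub_nonpos_of_le pa), mul_nonneg_of_nonpos_of_nonpos (Mathlib.Tactic.Linarith.sub_nonpos_of_le ca) (Mathlib.Tactic.Linarith.sub_nonpos_of_le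 pb), Mathlib.Tactic.Linarith.mul_zero_eq (Mathlib.Tactic.Linarith.sub_nonpos_of_le cb) (sub_eq_zero_of_eq hP), mul_nonneg_of_nonpos_of_nonpos (Mathlib.Tactic.Linarith.sub_nonpos_of_le pa) (Mathlib.Tactic.Linarith.sub_nonpos_of_le pa), mul_nonneg_of_nonpos_of_nonpos (Mathlib.Tactic.Linarith.sub_nonpos_of_le pa) (Mathlib.Tactic.Linarith.sub_nonpos_of_le pb)])⟩
  · rw [B_add_right, B_smul_right, B_smul_right, h.2.1.1.B_qv, t1]
    linear_combination qch b * ea
  · rw [B_add_right, B_smul_right, B_smul_right, h.2.1.2.1.B_qv, B_comm, t1]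
    linear_combination qch a * eb
  · rw [B_add_right, B_smul_right, B_smul_right, t3, B_comm, t2, ← hP]
    ring

theorem Frame.cen_dist (h : Frame a b c) {S : ℝ} (ha : tl a ≤ S) (hb : tl b ≤ S) (hc : tl c ≤ S) :
    dist (cen a b) (a • cen a b) ≤ 6 * S + 6 ∧ dist (cen a b) (b • cen a b) ≤ 6 * S + 6 ∧
      dist (cen a b) (c • cen a b) ≤ 6 * S + 6 := by
  obtain ⟨⟨a1, a2⟩, ⟨b1, b2⟩, c1, c2⟩ := h.cen_level
  have hS : 0 ≤ S := (tl_nonneg a).trans ha
  have bd : ∀ g : Isom, tl g ≤ S → qch g ≤ exp (S / 2) := fun g hg => by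
    have h1 := tl_nonneg g
    have h2 : exp (-(tl g / 2)) ≤ exp (S / 2) := exp_le_exp.2 (by linarith only [hS, h1])
    have h3 : exp (tl g / 2) ≤ exp (S / 2) := exp_le_exp.2 (by linarith only [hg])
    rw [qch, cosh_eq]
    linarith only [h2, h3]
  have e1 : 1 ≤ exp (S / 2) := one_le_exp (by linarith)
  have hP : (qch a * qch b * qch c) ^ 2 ≤ exp (3 * S) := by
    clear * - S a b c bd ha hb hc
    have : exp (3 * S) = (exp (S / 2) * exp (S / 2) * exp (S / 2)) ^ 2 := by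
      rw [← exp_add, ← exp_add, ← exp_nat_mul]
      congr 1
      push_cast
      ring
    rw [this]
    have ca := one_le_qch a
    have cb := one_le_qch b
    have cc := one_le_qch c
    gcongr <;> exact bd _ (by assumption)
  have key : ∀ g : Isom, NoFix g → tl g ≤ S → 0 < -B (qv g) (cen a b).1 →
      -B (qv g) (cen a b).1 ≤ 2 * (qch a * qch b * qch c) ^ 2 →
      dist (cen a b) (g • cen a b) ≤ 6 * S + 6 := by
    clear * - S a b c bd hS hP
    intro g k1 k2 k3 k4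
    have h1 := k1.sinh_sq_dist (cen a b)
    have h2 : qsh g ≤ exp (3 * S) := by
      refine le_trans ?_ ((bd g k2).trans (exp_le_exp.2 (by linarith only [hS])))
      exact (sinh_lt_cosh _).le
    have h3 := qsh_nonneg g
    have e3 : 1 ≤ exp (3 * S) := one_le_exp (by linarith)
    have h4 : sinh (dist (cen a b) (g • cen a b) / 2) ≤ 3 * exp (3 * S) := by
      refine abs_le_of_sq_le_sq' ?_ (by positivity) |>.2
      rw [h1]
      linarith only [hP, e3, k4, h2, k3, h3, mul_nonneg_of_nonpos_of_nonpos (Mathlib.Tactic.Linarith.sub_nonpos_of_le (sq_nonneg (qch a * qch b * qch c))) (Mathlib.Tactic.Linarith.sub_nonpos_of_le hP), mul_nonneg_of_nonpos_of_nonpos (Mathlib.Tactic.Linarith.sub_nonpos_of_le (sq_nonneg (qch a * qch b * qch c))) (Mathlib.Tactic.Linarith.sub_nonpos_of_le k4), mul_nonneg_of_nonpos_of_nonpos (Mathlib.Tactic.Linarith.sub_nonpos_of_le (sq_nonneg (qch a * qch b * qch c))) (Mathlib.Tactic.Linarith.sub_nonpos_of_le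 h2), mul_nonneg_of_nonpos_of_nonpos (Mathlib.Tactic.Linarith.sub_nonpos_of_le (sq_nonneg (qch a * qch b * qch c))) (Mathlib.Tactic.Linarith.sub_nonpos_of_le e3), mul_nonneg_of_nonpos_of_nonpos (Mathlib.Tactic.Linarith.sub_nonpos_of_le hP) (Mathlib.Tactic.Linarith.sub_nonpos_of_le h2), mul_nonneg_of_nonpos_of_nonpos (Mathlib.Tactic.Linarith.sub_nonpos_of_le hP) (Mathlib.Tactic.Linarith.sub_nonpos_of_le e3), mul_nonneg_of_nonpos_of_nonpos (le_of_lt (Mathlib.Tactic.Linarith.sub_neg_of_lt k3)) (Mathlib.Tactic.Linarith.sub_nonpos_of_le k4), mul_nonneg_of_nonpos_of_nonpos (Mathlib.Tactic.Linarith.sub_nonpos_of_le h2) (Mathlib.Tactic.Linarith.sub_nonpos_of_le h3)]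
    have h5 : 3 * exp (3 * S) ≤ sinh (3 * S + 3) := by
      have h6 : exp (-(3 * S + 3)) ≤ 1 := exp_le_one_iff.2 (by linarith only [hS])
      have h7 : (8 : ℝ) ≤ exp 3 := by
        have := pow_le_pow_left₀ (by norm_num) (add_one_le_exp 1) 3
        rw [← exp_nat_mul] at this
        norm_num at this
        exact this
      rw [sinh_eq, exp_add]
      linarith only [e3, h6, h7, hP, mul_nonneg_of_nonpos_of_nonpos (Mathlib.Tactic.Linarith.sub_nonpos_of_le (sq_nonneg (qch a * qch b * qch c))) (Mathlib.Tactic.Linarith.sub_nonpos_of_le h7), mul_nonneg_of_nonpos_of_nonpos (Mathlib.Tactic.Linarith.sub_nonpos_of_le hP) (Mathlib.Tactic.Linarith.sub_nonpos_of_le h7)]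
    linarith only [h4, h5, sinh_le_sinh.1 (h4.trans h5)]
  exact ⟨key a h.2.1.1 ha a1 a2, key b h.2.2.1.1 hb b1 b2, key c h.2.2.2.1 hc c1 c2⟩

theorem mem_tri_iff {x y z : Circ} (h : ccw x y z) (p : Pt) : p ∈ tri x.1 y.1 z.1 ↔
    0 ≤ det3 x.1 y.1 p.1 ∧ 0 ≤ det3 y.1 z.1 p.1 ∧ 0 ≤ det3 z.1 x.1 p.1 := by
  have hd := (ccw_iff _ _ _).1 h
  constructor
  · rintro ⟨s, t, u, hs, ht, hu, e⟩
    have e2 : B (cr y.1 z.1) x.1 = det3 x.1 y.1 z.1 := (det3_cyc _ _ _).symm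
    have e3 : B (cr z.1 x.1) y.1 = det3 x.1 y.1 z.1 := det3_cyc _ _ _
    have e1 : B (cr x.1 y.1) z.1 = det3 x.1 y.1 z.1 := rfl
    generalize det3 x.1 y.1 z.1 = D at hd e1 e2 e3
    simp only [e, det3, B_add_right, B_smul_right, B_cr_left, B_cr_right, e1, e2, e3, mul_zero,
      add_zero, zero_add]
    exact ⟨by positivity, by positivity, by positivity⟩
  · rintro ⟨h1, h2, h3⟩
    refine ⟨(det3 x.1 y.1 z.1)⁻¹ * det3 y.1 z.1 p.1, (det3 x.1 y.1 z.1)⁻¹ * det3 z.1 x.1 p.1,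
      (det3 x.1 y.1 z.1)⁻¹ * det3 x.1 y.1 p.1, by positivity, by positivity, by positivity, ?_⟩
    simp only [mul_smul, ← smul_add]
    rw [← det3_cyc p.1, det3_cyc z.1, ← cramer3, smul_smul, inv_mul_cancel₀ hd.ne', one_smul]

/-- All ideal triangles have the same finite positive area and contain a ball of fixed radius. -/
theorem area_tri_circ : ∃ T : ENNReal, 0 < T ∧ T < ⊤ ∧ ∃ r > 0, ∀ x y z : Circ, ccw x y z →
    area (tri x.1 y.1 z.1) = T ∧ ∃ p : Pt, ∀ q : Pt, dist p q < r →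
      0 < det3 x.1 y.1 q.1 ∧ 0 < det3 y.1 z.1 q.1 ∧ 0 < det3 z.1 x.1 q.1 := by
  obtain ⟨φ, -, -, -, h0, -⟩ := exists_param (toCirc 0)
  have h1 := h0 0 1 2 (by norm_num) (by norm_num)
  generalize φ 0 = x₀ at h1
  generalize φ 1 = y₀ at h1
  generalize φ 2 = z₀ at h1
  have hd := (ccw_iff _ _ _).1 h1
  have b1 := B_circ_neg h1.ne12
  have b2 := B_circ_neg h1.ne23
  have b3 := B_circ_neg h1.ne13
  have v1 : B (x₀.1 + y₀.1 + z₀.1) (x₀.1 + y₀.1 + z₀.1) < 0 := by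
    simp only [B_add_left, B_add_right, x₀.2.1, y₀.2.1, z₀.2.1, B_comm y₀.1 x₀.1,
      B_comm z₀.1 x₀.1, B_comm z₀.1 y₀.1]
    linarith
  have v2 : 0 < (x₀.1 + y₀.1 + z₀.1) 2 := by
    simp only [Pi.add_apply, x₀.2.2, y₀.2.2, z₀.2.2]
    norm_num
  have hO : IsOpen {q : Pt | 0 < det3 x₀.1 y₀.1 q.1 ∧ 0 < det3 y₀.1 z₀.1 q.1 ∧
      0 < det3 z₀.1 x₀.1 q.1} := by
    have : ∀ u v : V, IsOpen {q : Pt | 0 < det3 u v q.1} := fun u v =>
      isOpen_lt continuous_const (continuous_const.B' continuous_subtype_val)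
    exact (this _ _).inter ((this _ _).inter (this _ _))
  obtain ⟨r, hr, hr'⟩ := Metric.isOpen_iff.1 hO (toPt (x₀.1 + y₀.1 + z₀.1)) (by
    have hκ := inv_pos.2 (Real.sqrt_pos.2 (neg_pos.2 v1))
    have e2 : B (cr y₀.1 z₀.1) x₀.1 = det3 x₀.1 y₀.1 z₀.1 := (det3_cyc _ _ _).symm
    have e3 : B (cr z₀.1 x₀.1) y₀.1 = det3 x₀.1 y₀.1 z₀.1 := det3_cyc _ _ _
    have e1 : B (cr x₀.1 y₀.1) z₀.1 = det3 x₀.1 y₀.1 z₀.1 := rfl
    rw [mem_ofPred_eq, toPt_val v1 v2]
    generalize (√(-B (x₀.1 + y₀.1 + z₀.1) (x₀.1 + y₀.1 + z₀.1)))⁻¹ = κ at hκ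
    generalize det3 x₀.1 y₀.1 z₀.1 = D at hd e1 e2 e3
    simp only [det3, B_add_right, B_smul_right, B_cr_left, B_cr_right, e1, e2, e3,
      add_zero, zero_add]
    exact ⟨by positivity, by positivity, by positivity⟩)
  generalize toPt (x₀.1 + y₀.1 + z₀.1) = p₀ at hr'
  obtain ⟨C, -, hC⟩ := exists_area_tri_le
  refine ⟨area (tri x₀.1 y₀.1 z₀.1), ?_, (hC _ _ _ x₀.fut y₀.fut z₀.fut).trans_lt
    ENNReal.ofReal_lt_top, r, hr, fun x y z h => ?_⟩
  · refine (area_ball_pos hr).trans_le ((gArea_ball p₀ r).symm.trans_le (area_mono fun q hq => ?_))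
    obtain ⟨a1, a2, a3⟩ := hr' hq
    exact (mem_tri_iff h1 q).2 ⟨a1.le, a2.le, a3.le⟩
  obtain ⟨A, rfl, rfl, rfl⟩ := PFrame_triple h1 h
  have k1 : ∀ (x y : Circ) (q : Pt), 0 ≤ det3 (A • x).1 (A • y).1 (A • q).1 ↔
      0 ≤ det3 x.1 y.1 q.1 := fun x y q => by
    obtain ⟨t, ht, e⟩ := PFrame_det_smul A x y q
    rw [e, mul_nonneg_iff_of_pos_left ht]
  have k2 : ∀ (x y : Circ) (q : Pt), 0 < det3 x.1 y.1 (A⁻¹ • q).1 →
      0 < det3 (A • x).1 (A • y).1 q.1 := fun x y q k => by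
    obtain ⟨t, ht, e⟩ := PFrame_det_smul A x y (A⁻¹ • q)
    rw [e, smul_inv_smul] at k
    exact pos_of_mul_pos_right k ht.le
  refine ⟨?_, A • p₀, fun q hq => ?_⟩
  · rw [← area_smul A (tri x₀.1 y₀.1 z₀.1)]
    congr 1
    ext q
    obtain ⟨q, rfl⟩ := MulAction.surjective A q
    rw [(MulAction.injective A).mem_set_image, mem_tri_iff h, mem_tri_iff h1, k1, k1, k1]
  · obtain ⟨a1, a2, a3⟩ := hr' (show A⁻¹ • q ∈ Metric.ball p₀ r by
      rwa [Metric.mem_ball', ← dist_smul A, smul_inv_smul])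
    exact ⟨k2 _ _ _ a1, k2 _ _ _ a2, k2 _ _ _ a3⟩

theorem area_line (l : Geo) : area {p : Pt | side l p.1 = 0} = 0 := by
  let f : V →ₗ[ℝ] ℝ := ⟨⟨B (nrm l), B_add_right _⟩, fun t v => B_smul_right t _ v⟩
  have h1 : LinearMap.ker f ≠ ⊤ := fun e => by
    have : nrm l ∈ LinearMap.ker f := e ▸ Submodule.mem_top
    exact one_ne_zero ((B_nrm_nrm l).symm.trans this)
  refine MeasureTheory.measure_mono_null ?_ (MeasureTheory.Measure.addHaar_submodule _ _ h1)
  rintro _ ⟨p, hp, t, -, rfl⟩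
  exact (LinearMap.ker f).smul_mem t hp

variable {Γ : Type*} [Group Γ] {ρ σ : Γ →* Isom} {f : Circ ≃ₜ Circ}

theorem IsMark.frame (hm : IsMark ρ σ f) {x y z : Γ} (h : Frame (ρ x) (ρ y) (ρ z)) :
    Frame (σ x) (σ y) (σ z) := by
  refine ⟨eq_of_smul_circ_eq fun ξ => ?_, hm.face h.2.1, hm.face h.2.2.1, hm.face h.2.2.2⟩
  obtain ⟨ξ, rfl⟩ := f.surjective ξ
  rw [← map_mul, ← map_mul, ← hm.2, map_mul, map_mul, h.1, one_smul, one_smul]

end HRT
end

-- merged part: Pool.Agent.Work.MP_35beee_gt.POs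
section
/-!
Systems of objects: the two orientations of the curves of a multicurve, and the cusps.

Plan. `lo_inj`: `stab` both ways gives `a = b ^ m`, `b = a ^ n`, so `m n = 1` (no torsion), and
`m = -1` is excluded by `lo a ≠ hi a` or by positivity. `ends_ne`: `ax_eq_of_share`,
`side_ne_zero_of_cusp`. `tri`: `nest_cases` for two hyperbolic objects with `face_iff_nest`; a cusp
is on one side of an axis. `face_conj`: apply `tri` to `a` and `b a b⁻¹`; equality gives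
`b ∈ zpowers a`, so `b` fixes `lo a`, which is inside `b`; if the gap of `b a b⁻¹` is inside the gap
of `a` (or conversely) then `b` (or `b⁻¹`) maps the closed arc into itself and has a fixed point
there (`exists_fixed_carc`), but the fixed points of `b` are inside `a`; `lo b` is inside both, so
the last case is impossible. `frame`: `frame_of_face`. `finite_TT`: `exists_close` gives a point `p`
moved at most `R` by `a` and `b`; it is `η`-thick for `η = η(R)`: if `k ≠ 1` moves `p` very little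
then so does `a k a⁻¹` (compactness of `{g | dist o (g • o) ≤ R}`, or an explicit bound), they
commute (`commute_of_small`), so `a` preserves the fixed point set of `k` and fixes its points
(`smul_ne_rev`); the same for `b`; then `a` and `b` have a common fixed point. Then
`exists_thick_bound` and `Disc.proper`. The pair `(a, b)` is conjugate to a pair in a finite set;
two conjugators that send `a` to the same element differ by a power of `a`.
`osys_obj`: `exists_cusp_gen`, `finite_cusps`, `smul_ax_iff`, `smul_ax_of_fix`, `multi_iff`.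
`exists_multi`: one representative for each class of hyperbolic objects up to inversion.
-/

set_option linter.unusedVariables false

namespace HRT

open Set Filter Topology Real

variable {Γ : Type*} [Group Γ] {ρ σ : Γ →* Isom} {N : ℝ → ℝ} {O : Set Γ} {a b : Γ}

/-- Positive generator of the stabiliser of a cusp. -/
def CuspGen (ρ : Γ →* Isom) (a : Γ) : Prop :=
  Par (ρ a) ∧ Pos (ρ a) ∧ ∀ g : Γ, ρ g • lo (ρ a) = lo (ρ a) → g ∈ Subgroup.zpowers a

/-- The conjugates of `x`, and of `x⁻¹` if `x` is hyperbolic. -/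
def cls (ρ : Γ →* Isom) (x : Γ) : Set Γ := {c | IsConj x c ∨ (Hyp (ρ x) ∧ IsConj x⁻¹ c)}

/-- A system of objects. -/
structure OSys (ρ : Γ →* Isom) (O : Set Γ) : Prop where
  pos : ∀ a ∈ O, Pos (ρ a)
  stab : ∀ a ∈ O, ∀ g : Γ, ρ g • lo (ρ a) = lo (ρ a) → g ∈ Subgroup.zpowers a
  conj : ∀ a ∈ O, ∀ g : Γ, g * a * g⁻¹ ∈ O
  inv : ∀ a ∈ O, Hyp (ρ a) → a⁻¹ ∈ O
  nc : ∀ a ∈ O, ∀ b ∈ O, Hyp (ρ a) → Hyp (ρ b) → ¬ Cross (ax (ρ a)) (ax (ρ b))
  cusp : ∀ a, CuspGen ρ a → a ∈ O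
  fin : ∃ s : Finset Γ, ∀ a ∈ O, ∃ f ∈ s, IsConj f a

/-- The objects of a multicurve. -/
def Obj (ρ : Γ →* Isom) {ι : Type} (R : ι → Γ) : Set Γ :=
  {a | (∃ i, a ∈ cls ρ (R i)) ∨ CuspGen ρ a}

/-- The axes of the hyperbolic objects. -/
def axes (ρ : Γ →* Isom) (O : Set Γ) : Set Geo := {l | ∃ a ∈ O, Hyp (ρ a) ∧ ax (ρ a) = l}

theorem POs_conj (ρ : Γ →* Isom) (g a : Γ) : ρ (g * a * g⁻¹) = ρ g * ρ a * (ρ g)⁻¹ := by
  rw [map_mul, map_mul, map_inv]

theorem POs_isConj (g a : Γ) : IsConj a (g * a * g⁻¹) := isConj_iff.mpr ⟨g, rfl⟩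

theorem POs_inv {x c : Γ} (h : IsConj x c) : IsConj x⁻¹ c⁻¹ := by
  obtain ⟨g, rfl⟩ := isConj_iff.mp h
  exact isConj_iff.mpr ⟨g, by group⟩

theorem POs_tl {x c : Γ} (h : IsConj x c) (σ : Γ →* Isom) : tl (σ c) = tl (σ x) := by
  obtain ⟨g, rfl⟩ := isConj_iff.mp h
  exact tl_conj' x g

theorem POs_hyp_inv (h : Hyp (ρ a)) : Hyp (ρ a⁻¹) := by
  rw [map_inv]
  exact h.inv

theorem POs_lo (h : NoFix (ρ a)) (g : Γ) : lo (ρ (g * a * g⁻¹)) = ρ g • lo (ρ a) := by
  rw [POs_conj, h.lo_conj]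

theorem POs_not_ins {g : Isom} (h : NoFix g) {v : V} (h1 : Ins g v) : ¬ Ins g⁻¹ v := by
  rw [Ins, h.qv_inv, B_neg_left]
  exact not_lt.mpr (neg_nonneg.mpr (le_of_lt h1))

theorem POs_not_ins_fix {g : Isom} (h : NoFix g) {ξ : Circ} (h1 : g • ξ = ξ) : ¬ Ins g ξ.1 := by
  rw [Ins, (h.B_qv_eq_zero_iff ξ).mpr ((h.fix_iff ξ).mp h1)]
  exact lt_irrefl 0

theorem POs_smul_lo {g : Isom} (h : NoFix g) : g • lo g = lo g := (h.fix_iff _).mpr (Or.inl rfl)

theorem POs_zpow (h : NoFix (ρ a)) {k : ℤ} (hk : a ^ k = a) : k = 1 := by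
  by_contra h1
  have h2 : k - 1 ≠ 0 := sub_ne_zero.mpr h1
  have h3 : ρ a ^ (k - 1) = 1 := by
    rw [← map_zpow, zpow_sub_one, hk, mul_inv_cancel, map_one]
  rcases h.hyp_or_par with h4 | h4
  · have h5 := h4.tl_zpow (k - 1)
    rw [h3, tl_eq_zero_of_fix (one_smul _ o)] at h5
    exact (mul_pos (abs_pos.mpr (Int.cast_ne_zero.mpr h2)) h4).ne h5
  · have h5 := (h4.zpow h2).1
    rw [h3] at h5
    exact h5.1 o (one_smul _ o)

theorem POs_lo_inj (pa : Pos (ρ a)) (pb : Pos (ρ b))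
    (sa : ∀ g : Γ, ρ g • lo (ρ a) = lo (ρ a) → g ∈ Subgroup.zpowers a)
    (sb : ∀ g : Γ, ρ g • lo (ρ b) = lo (ρ b) → g ∈ Subgroup.zpowers b)
    (h : lo (ρ a) = lo (ρ b)) : a = b := by
  obtain ⟨n, hn⟩ := Subgroup.mem_zpowers_iff.mp (sa b (by rw [h]; exact POs_smul_lo pb.1))
  obtain ⟨m, hm⟩ := Subgroup.mem_zpowers_iff.mp (sb a (by rw [← h]; exact POs_smul_lo pa.1))
  have h1 : n * m = 1 := POs_zpow pa.1 (by rw [zpow_mul, hn, hm])
  rcases Int.eq_one_or_neg_one_of_mul_eq_one h1 with h2 | h2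
  · rw [← hn, h2, zpow_one]
  · exfalso
    rw [h2, zpow_neg_one] at hn
    rw [← hn, map_inv] at h pb
    rcases pa.1.hyp_or_par with h4 | h4
    · exact h4.lo_ne_hi (h.trans pa.1.lo_inv)
    · exact h4.not_pos_inv pa pb

theorem POs_stab (hρ : Disc ρ) {x : Γ} (hx : Simple ρ x) (g : Γ)
    (h : ρ g • lo (ρ x) = lo (ρ x)) : g ∈ Subgroup.zpowers x := by
  rw [hx.hyp.lo_eq] at h
  exact (hρ.smul_ax_iff hx.hyp hx.prim g).mp (hρ.smul_ax_of_fix hx.hyp (Or.inr h))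

theorem mem_cls_self (x : Γ) : x ∈ cls ρ x := Or.inl (IsConj.refl x)

theorem cls_conj {x c : Γ} (h : c ∈ cls ρ x) (g : Γ) : g * c * g⁻¹ ∈ cls ρ x :=
  h.imp (fun h => h.trans (POs_isConj g c)) fun h => ⟨h.1, h.2.trans (POs_isConj g c)⟩

theorem cls_eq {x c : Γ} (h : c ∈ cls ρ x) : cls ρ c = cls ρ x := by
  ext y
  rcases h with h | ⟨hx, h⟩
  · have e : Hyp (ρ c) ↔ Hyp (ρ x) := by rw [Hyp, Hyp, POs_tl h]
    exact or_congr ⟨h.trans, h.symm.trans⟩
      (and_congr e ⟨(POs_inv h).trans, (POs_inv h).symm.trans⟩)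
  · have hc : Hyp (ρ c) := by
      rw [Hyp, POs_tl h]
      exact POs_hyp_inv hx
    have h' := POs_inv h
    rw [inv_inv] at h'
    constructor
    · rintro (h1 | ⟨-, h1⟩)
      · exact Or.inr ⟨hx, h.trans h1⟩
      · exact Or.inl (h'.trans h1)
    · rintro (h1 | ⟨-, h1⟩)
      · exact Or.inr ⟨hc, h'.symm.trans h1⟩
      · exact Or.inl (h.symm.trans h1)

theorem tl_of_mem_cls {x c : Γ} (h : c ∈ cls ρ x) (σ : Γ →* Isom) : tl (σ c) = tl (σ x) := by
  rcases h with h | ⟨-, h⟩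
  · exact POs_tl h σ
  · rw [POs_tl h, map_inv, tl_inv]

theorem POs_hyp {x c : Γ} (hx : Hyp (ρ x)) (h : c ∈ cls ρ x) : Hyp (ρ c) := by
  rw [Hyp, tl_of_mem_cls h]
  exact hx

theorem POs_inv_mem {x c : Γ} (hx : Hyp (ρ x)) (h : c ∈ cls ρ x) : c⁻¹ ∈ cls ρ x := by
  rw [← cls_eq h]
  exact Or.inr ⟨POs_hyp hx h, IsConj.refl _⟩

theorem POs_simple {x c : Γ} (hx : Simple ρ x) (h : c ∈ cls ρ x) : Simple ρ c := by
  rcases h with h | ⟨-, h⟩ <;> obtain ⟨g, rfl⟩ := isConj_iff.mp h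
  · exact hx.conj g
  · exact hx.inv.conj g

theorem POs_ax {x c : Γ} (hx : Hyp (ρ x)) (h : c ∈ cls ρ x) :
    ∃ g : Γ, ax (ρ c) = ρ g • ax (ρ x) ∨ ax (ρ c) = (ρ g • ax (ρ x)).rev := by
  rcases h with h | ⟨-, h⟩ <;> obtain ⟨g, rfl⟩ := isConj_iff.mp h
  · exact ⟨g, Or.inl (ax_conj' hx g)⟩
  · exact ⟨g, Or.inr (by rw [ax_conj' (POs_hyp_inv hx), map_inv, hx.ax_inv, Geo.smul_rev])⟩

theorem CuspGen.conj (h : CuspGen ρ a) (g : Γ) : CuspGen ρ (g * a * g⁻¹) := by
  refine ⟨?_, ?_, fun k hk => ?_⟩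
  · rw [POs_conj]
    exact (h.1.conj _).1
  · rw [POs_conj]
    exact h.2.1.conj _
  · rw [POs_lo h.1.1] at hk
    obtain ⟨n, hn⟩ := Subgroup.mem_zpowers_iff.mp (h.2.2 (g⁻¹ * k * g) (by
      rw [map_mul, map_mul, mul_smul, mul_smul, hk, map_inv, inv_smul_smul]))
    refine Subgroup.mem_zpowers_iff.mpr ⟨n, ?_⟩
    rw [conj_zpow, hn]
    group

theorem Disc.exists_cuspGen (hρ : Disc ρ) {ξ : Circ} (hξ : IsCusp ρ ξ) :
    ∃ a, CuspGen ρ a ∧ lo (ρ a) = ξ := by
  obtain ⟨u, hu, h1, h2⟩ := hρ.exists_cusp_gen hξ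
  rcases hu.pos_or with h | h
  · have e : lo (ρ u) = ξ := hu.lo_eq.trans h1
    exact ⟨u, ⟨hu, h, fun g hg => (h2 g).mp (by rwa [e] at hg)⟩, e⟩
  · have e : lo (ρ u⁻¹) = ξ := by rw [map_inv, hu.1.lo_inv, hu.hi_eq, h1]
    refine ⟨u⁻¹, ⟨?_, ?_, fun g hg => ?_⟩, e⟩
    · rw [map_inv]
      exact hu.inv.1
    · rwa [map_inv]
    · rw [Subgroup.zpowers_inv]
      exact (h2 g).mp (by rwa [e] at hg)

theorem Disc.not_isConj_inv (hρ : Disc ρ) (ha : a ≠ 1) : ¬ IsConj a a⁻¹ := by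
  intro h
  obtain ⟨g, hg⟩ := isConj_iff.mp h
  rcases hρ.hyp_or_par ha with h1 | h1
  · exact hρ.smul_ne_rev g (ax (ρ a)) (by rw [← ax_conj' h1, hg, map_inv, h1.ax_inv])
  · rcases h1.pos_or with h2 | h2
    · refine h1.not_pos_inv h2 ?_
      rw [← map_inv, ← hg, POs_conj]
      exact h2.conj _
    · refine h1.not_pos_inv ?_ h2
      have e : g⁻¹ * a⁻¹ * g⁻¹⁻¹ = a := by
        rw [← hg]
        group
      rw [← e, POs_conj, map_inv ρ a]
      exact h2.conj _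

theorem osys_obj (hρ : Good ρ N) {ι : Type} [Finite ι] {R : ι → Γ} (hR : Multi ρ R) :
    OSys ρ (Obj ρ R) := by
  classical
  have hd : Disc ρ := hρ.toDisc
  have hlift : ∀ a ∈ Obj ρ R, Hyp (ρ a) → ax (ρ a) ∈ lifts ρ R := by
    rintro a (⟨i, hi⟩ | ha) h
    · obtain ⟨g, hg⟩ := POs_ax (hR.1 i).hyp hi
      exact ⟨i, g, hg⟩
    · exact absurd ha.1 h.not_par
  refine ⟨?_, ?_, ?_, ?_, fun a ha b hb h1 h2 =>
    (hR.sys hd).nc _ (hlift a ha h1) _ (hlift b hb h2), fun a ha => Or.inr ha, ?_⟩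
  · rintro a (⟨i, hi⟩ | ha)
    · exact (POs_hyp (hR.1 i).hyp hi).pos
    · exact ha.2.1
  · rintro a (⟨i, hi⟩ | ha)
    · exact POs_stab hd (POs_simple (hR.1 i) hi)
    · exact ha.2.2
  · rintro a (⟨i, hi⟩ | ha) g
    · exact Or.inl ⟨i, cls_conj hi g⟩
    · exact Or.inr (ha.conj g)
  · rintro a (⟨i, hi⟩ | ha) h
    · exact Or.inl ⟨i, POs_inv_mem (hR.1 i).hyp hi⟩
    · exact absurd ha.1 h.not_par
  · obtain ⟨s, hs⟩ := hρ.finite_cusps
    have hT : {a | CuspGen ρ a ∧ lo (ρ a) ∈ s}.Finite :=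
      Set.Finite.of_injOn (f := fun a => lo (ρ a)) (t := s) (fun a ha => ha.2)
        (fun a ha b hb h => POs_lo_inj ha.1.2.1 hb.1.2.1 ha.1.2.2 hb.1.2.2 h) s.finite_toSet
    have hF := ((finite_range R).union (finite_range fun i => (R i)⁻¹)).union hT
    refine ⟨hF.toFinset, ?_⟩
    rintro a (⟨i, hi | ⟨-, hi⟩⟩ | ha)
    · exact ⟨_, hF.mem_toFinset.mpr (Or.inl (Or.inl ⟨i, rfl⟩)), hi⟩
    · exact ⟨_, hF.mem_toFinset.mpr (Or.inl (Or.inr ⟨i, rfl⟩)), hi⟩
    · obtain ⟨ζ, hζ, g, hg⟩ := hs (lo (ρ a)) ⟨a, ha.1, ha.1.lo_eq.symm⟩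
      refine ⟨g⁻¹ * a * g⁻¹⁻¹, hF.mem_toFinset.mpr (Or.inr ⟨ha.conj _, ?_⟩),
        (POs_isConj _ a).symm⟩
      rw [POs_lo ha.1.1, hg, map_inv, inv_smul_smul]
      exact hζ

theorem axes_obj (hρ : Disc ρ) {ι : Type} {R : ι → Γ} (hR : Multi ρ R) :
    axes ρ (Obj ρ R) = lifts ρ R := by
  ext l
  constructor
  · rintro ⟨a, ⟨i, hi⟩ | ha, h, rfl⟩
    · obtain ⟨g, hg⟩ := POs_ax (hR.1 i).hyp hi
      exact ⟨i, g, hg⟩
    · exact absurd ha.1 h.not_par
  · intro hl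
    obtain ⟨i, c, hc, rfl⟩ := (mem_lifts_iff fun i => (hR.1 i).hyp).mp hl
    have h1 : c ∈ cls ρ (R i) := hc.imp_right fun h => ⟨(hR.1 i).hyp, h⟩
    exact ⟨c, Or.inl ⟨i, h1⟩, POs_hyp (hR.1 i).hyp h1, rfl⟩

theorem POs_mark {f : Circ ≃ₜ Circ} (hm : IsMark ρ σ f) (h : NoFix (ρ a)) {g : Γ}
    (hg : σ g • lo (σ a) = lo (σ a)) : ρ g • lo (ρ a) = lo (ρ a) := by
  rw [hm.lo_eq h, ← hm.2] at hg
  exact f.injective hg

theorem IsMark.cuspGen {f : Circ ≃ₜ Circ} (hm : IsMark ρ σ f) (h : CuspGen ρ a) :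
    CuspGen σ a :=
  ⟨(hm.par h.1).1, hm.pos h.2.1, fun g hg => h.2.2 g (POs_mark hm h.1.1 hg)⟩

theorem IsMark.cls_eq {f : Circ ≃ₜ Circ} (hm : IsMark ρ σ f) (x : Γ) : cls σ x = cls ρ x := by
  rw [cls, cls, hm.hyp_iff]

theorem IsMark.obj_eq {f : Circ ≃ₜ Circ} (hm : IsMark ρ σ f) {ι : Type} (R : ι → Γ) :
    Obj σ R = Obj ρ R := by
  ext a
  simp only [Obj, mem_ofPred_eq, hm.cls_eq]
  exact or_congr Iff.rfl ⟨hm.symm.cuspGen, hm.cuspGen⟩

theorem IsMark.osys {f : Circ ≃ₜ Circ} (hm : IsMark ρ σ f) (h : OSys ρ O) : OSys σ O := by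
  refine ⟨fun a ha => hm.pos (h.pos a ha),
    fun a ha g hg => h.stab a ha g (POs_mark hm (h.pos a ha).1 hg), h.conj,
    fun a ha h1 => h.inv a ha ((hm.hyp_iff a).mp h1), fun a ha b hb h1 h2 => ?_,
    fun a ha => h.cusp a (hm.symm.cuspGen ha), h.fin⟩
  rw [hm.hyp_iff] at h1 h2
  rw [(hm.hyp h1).2, (hm.hyp h2).2, hm.ori.cross]
  exact h.nc a ha b hb h1 h2

namespace OSys

theorem noFix (hO : OSys ρ O) (ha : a ∈ O) : NoFix (ρ a) := (hO.pos a ha).1

theorem ne_one (hO : OSys ρ O) (ha : a ∈ O) : a ≠ 1 := by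
  rintro rfl
  exact hO.noFix ha o (by rw [map_one, one_smul])

theorem cuspGen (hO : OSys ρ O) (ha : a ∈ O) (hp : ¬ Hyp (ρ a)) : CuspGen ρ a :=
  ⟨(hO.noFix ha).hyp_or_par.resolve_left hp, hO.pos a ha, hO.stab a ha⟩

theorem simple (hO : OSys ρ O) (hρ : Disc ρ) (ha : a ∈ O) (h : Hyp (ρ a)) : Simple ρ a := by
  refine simple_iff.mpr ⟨h, fun δ n hn => ?_, fun g => ?_⟩
  · have h1 : δ * a * δ⁻¹ = a := by
      rw [← hn]
      group
    obtain ⟨m, hm⟩ := Subgroup.mem_zpowers_iff.mp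
      (hO.stab a ha δ (by rw [← POs_lo (hO.noFix ha), h1]))
    have h2 : m * n = 1 := POs_zpow (hO.noFix ha) (by rw [zpow_mul, hm, zpow_natCast, hn])
    have h3 := Int.eq_one_or_neg_one_of_mul_eq_one' h2
    omega
  · rw [← ax_conj' h]
    exact hO.nc a ha _ (hO.conj a ha g) h (POs_hyp h (Or.inl (POs_isConj g a)))

theorem cls_subset (hO : OSys ρ O) (ha : a ∈ O) : cls ρ a ⊆ O := by
  rintro c (h | ⟨h1, h⟩) <;> obtain ⟨g, rfl⟩ := isConj_iff.mp h
  · exact hO.conj a ha g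
  · exact hO.conj _ (hO.inv a ha h1) g

theorem mem_zpowers (hO : OSys ρ O) (ha : a ∈ O) {g : Γ} (h : g * a * g⁻¹ = a) :
    g ∈ Subgroup.zpowers a :=
  hO.stab a ha g (by rw [← POs_lo (hO.noFix ha), h])

theorem lo_inj (hO : OSys ρ O) (hρ : Disc ρ) (ha : a ∈ O) (hb : b ∈ O)
    (h : lo (ρ a) = lo (ρ b)) : a = b :=
  POs_lo_inj (hO.pos a ha) (hO.pos b hb) (hO.stab a ha) (hO.stab b hb) h

theorem POs_end (hO : OSys ρ O) (ha : a ∈ O) (pb : Pos (ρ b))
    (sb : ∀ g : Γ, ρ g • lo (ρ b) = lo (ρ b) → g ∈ Subgroup.zpowers b)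
    (h : B (qv (ρ a)) (lo (ρ b)).1 = 0) : b = a ∨ b = a⁻¹ := by
  have key : lo (ρ b) = lo (ρ a) → b = a := POs_lo_inj pb (hO.pos a ha) sb (hO.stab a ha)
  rcases ((hO.noFix ha).B_qv_eq_zero_iff _).mp h with h1 | h1
  · exact Or.inl (key h1)
  · rcases (hO.noFix ha).hyp_or_par with h4 | h4
    · have ha' := hO.inv a ha h4
      exact Or.inr (POs_lo_inj pb (hO.pos _ ha') sb (hO.stab _ ha')
        (by rw [h1, map_inv, (hO.noFix ha).lo_inv]))
    · exact Or.inl (key (by rw [h1, h4.hi_eq, h4.lo_eq]))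

theorem ends_ne (hO : OSys ρ O) (hρ : Disc ρ) (ha : a ∈ O) (hb : b ∈ O) (h1 : b ≠ a)
    (h2 : b ≠ a⁻¹) : B (qv (ρ a)) (lo (ρ b)).1 ≠ 0 ∧ B (qv (ρ a)) (hi (ρ b)).1 ≠ 0 := by
  have h3 : B (qv (ρ a)) (lo (ρ b)).1 ≠ 0 := fun h =>
    (hO.POs_end ha (hO.pos b hb) (hO.stab b hb) h).elim h1 h2
  refine ⟨h3, fun h => ?_⟩
  rcases (hO.noFix hb).hyp_or_par with h4 | h4
  · have hb' := hO.inv b hb h4
    rw [← (hO.noFix hb).lo_inv, ← map_inv] at h
    rcases hO.POs_end ha (hO.pos _ hb') (hO.stab _ hb') h with h5 | h5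
    · exact h2 (by rw [← h5, inv_inv])
    · exact h1 (inv_injective h5)
  · rw [h4.hi_eq, ← h4.lo_eq] at h
    exact h3 h

/-- A simple closed geodesic or cusp that shares an end with an object is that object. -/
theorem eq_of_end (hO : OSys ρ O) (hρ : Disc ρ) (ha : a ∈ O) {γ : Γ} (hγ : Simple ρ γ)
    (h : B (qv (ρ a)) (lo (ρ γ)).1 = 0 ∨ B (qv (ρ a)) (hi (ρ γ)).1 = 0) : γ = a ∨ γ = a⁻¹ := by
  rcases h with h | h
  · exact hO.POs_end ha hγ.hyp.pos (POs_stab hρ hγ) h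
  · rw [← hγ.hyp.noFix.lo_inv, ← map_inv] at h
    rcases hO.POs_end ha hγ.inv.hyp.pos (POs_stab hρ hγ.inv) h with h5 | h5
    · exact Or.inr (by rw [← h5, inv_inv])
    · exact Or.inl (inv_injective h5)

theorem POs_side (hO : OSys ρ O) (hρ : Disc ρ) (ha : a ∈ O) (hb : b ∈ O) (h1 : b ≠ a)
    (h2 : b ≠ a⁻¹) : (Ins (ρ a) (lo (ρ b)).1 ∧ Ins (ρ a) (hi (ρ b)).1) ∨
      (Hyp (ρ a) ∧ Ins (ρ a)⁻¹ (lo (ρ b)).1 ∧ Ins (ρ a)⁻¹ (hi (ρ b)).1) := by
  obtain ⟨e1, e2⟩ := hO.ends_ne hρ ha hb h1 h2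
  have na := hO.noFix ha
  rcases na.hyp_or_par with h3 | h3
  · rw [h3.qv_eq, B_smul_left] at e1 e2
    have f1 : side (ax (ρ a)) (lo (ρ b)).1 ≠ 0 := right_ne_zero_of_mul e1
    have f2 : side (ax (ρ a)) (hi (ρ b)).1 ≠ 0 := right_ne_zero_of_mul e2
    have h5 : 0 < side (ax (ρ a)) (hi (ρ b)).1 * side (ax (ρ a)) (lo (ρ b)).1 := by
      rcases (hO.noFix hb).hyp_or_par with h4 | h4
      · refine lt_of_le_of_ne ?_ (mul_ne_zero f2 f1).symm
        rw [h4.hi_eq, h4.lo_eq]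
        exact not_lt.mp (hO.nc a ha b hb h3 h4)
      · rw [h4.hi_eq, ← h4.lo_eq]
        exact mul_self_pos.mpr f1
    rw [h3.ins_iff, h3.ins_iff, h3.ins_inv_iff, h3.ins_inv_iff]
    rcases mul_pos_iff.mp h5 with h6 | h6
    · exact Or.inr ⟨h3, h6.2, h6.1⟩
    · exact Or.inl ⟨h6.2, h6.1⟩
  · refine Or.inl ⟨(h3.ins_circ (hO.pos a ha) _).mpr fun h => e1 ?_,
      (h3.ins_circ (hO.pos a ha) _).mpr fun h => e2 ?_⟩ <;> rw [h, na.B_qv_lo]

theorem tri (hO : OSys ρ O) (hρ : Disc ρ) (ha : a ∈ O) (hb : b ∈ O) :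
    a = b ∨ Face (ρ a) (ρ b) ∨ (Hyp (ρ b) ∧ (a = b⁻¹ ∨ Face (ρ a) (ρ b⁻¹))) ∨
      (Hyp (ρ a) ∧ Face (ρ a⁻¹) (ρ b)) ∨ (Hyp (ρ a) ∧ Hyp (ρ b) ∧ Face (ρ a⁻¹) (ρ b⁻¹)) := by
  by_cases h1 : a = b
  · exact Or.inl h1
  have na := hO.noFix ha
  have nb := hO.noFix hb
  have pa := hO.pos a ha
  have pb := hO.pos b hb
  by_cases h2 : a = b⁻¹
  · rcases nb.hyp_or_par with h4 | h4
    · exact Or.inr (Or.inr (Or.inl ⟨h4, Or.inl h2⟩))
    · rw [h2, map_inv] at pa
      exact absurd pa (h4.not_pos_inv pb)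
  rw [map_inv, map_inv]
  rcases hO.POs_side hρ ha hb (Ne.symm h1) (fun h => h2 (by rw [h, inv_inv])) with
    ⟨a1, a2⟩ | ⟨a0, a1, a2⟩ <;>
  rcases hO.POs_side hρ hb ha h1 h2 with ⟨b1, b2⟩ | ⟨b0, b1, b2⟩
  · exact Or.inr (Or.inl ((face_iff_ends pa pb).mpr ⟨a1, a2, b1, b2⟩))
  · refine Or.inr (Or.inr (Or.inl ⟨b0, Or.inr ((face_iff_ends pa b0.inv.pos).mpr ?_)⟩))
    rw [nb.lo_inv, nb.hi_inv]
    exact ⟨a2, a1, b1, b2⟩
  · refine Or.inr (Or.inr (Or.inr (Or.inl ⟨a0, (face_iff_ends a0.inv.pos pb).mpr ?_⟩)))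
    rw [na.lo_inv, na.hi_inv]
    exact ⟨a1, a2, b2, b1⟩
  · refine Or.inr (Or.inr (Or.inr (Or.inr ⟨a0, b0,
      (face_iff_ends a0.inv.pos b0.inv.pos).mpr ?_⟩)))
    rw [na.lo_inv, na.hi_inv, nb.lo_inv, nb.hi_inv]
    exact ⟨a2, a1, b2, b1⟩

theorem POs_fix {a b : Isom} (h : Face a b) (ha : Hyp a) (k : Isom)
    (hk : ∀ ξ : Circ, k • ξ = ξ → b • ξ = ξ)
    (hm : ∀ ξ : Circ, ¬ Ins a ξ.1 → ¬ Ins a (k • ξ).1) : False := by
  have e : ∀ ξ : Circ, ξ ∈ carc (lo a) (hi a) ↔ ¬ Ins a ξ.1 := fun ξ => by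
    rw [ha.ins_circ]
    exact not_congr ⟨ccw.cyc, fun h => h.cyc.cyc⟩
  obtain ⟨ξ, h1, h2⟩ := exists_fixed_carc ha.lo_ne_hi (continuous_const_smul k)
    fun ξ hξ => (e _).mpr (hm ξ ((e ξ).mp hξ))
  exact (e ξ).mp h1 (h.ins (POs_not_ins_fix h.2.1 (hk ξ h2)))

theorem face_conj (hO : OSys ρ O) (hρ : Disc ρ) (ha : a ∈ O) (hb : b ∈ O)
    (h : Face (ρ a) (ρ b)) : Face (ρ a) (ρ (b * a * b⁻¹)) := by
  have na := hO.noFix ha
  have nb := hO.noFix hb
  have nc := na.conj (ρ b)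
  rcases hO.tri hρ ha (hO.conj a ha b) with h1 | h1 | ⟨h0, h1 | h1⟩ | ⟨h0, h1⟩ | ⟨-, -, h1⟩
  · exact absurd h.symm.ins_lo (POs_not_ins_fix nb (by rw [← POs_lo na, ← h1]))
  · exact h1
  · refine absurd (POs_isConj b a) ?_
    rw [← inv_inv (b * a * b⁻¹), ← h1]
    exact hρ.not_isConj_inv (hO.ne_one ha)
  · have h2 : Hyp (ρ a) := by rwa [Hyp, tl_conj'] at h0
    rw [map_inv, POs_conj] at h1
    refine (POs_fix h h2 (ρ b)⁻¹ (fun ξ hξ => (inv_smul_eq_iff.mp hξ).symm) fun ξ hξ h3 => ?_).elim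
    have h4 := (na.ins_conj_circ (ρ b) _).mpr h3
    rw [smul_inv_smul] at h4
    exact POs_not_ins nc h4 (h1.symm.ins hξ)
  · rw [map_inv, POs_conj] at h1
    refine (POs_fix h h0 (ρ b) (fun ξ hξ => hξ) fun ξ hξ h3 => ?_).elim
    exact POs_not_ins na h3 (h1.ins fun h4 => hξ ((na.ins_conj_circ (ρ b) ξ).mp h4))
  · rw [map_inv, map_inv, POs_conj] at h1
    have h4 := (na.ins_conj_circ (ρ b) _).mpr h.ins_lo
    rw [POs_smul_lo nb] at h4
    exact absurd (h1.ins (POs_not_ins nc h4)) (POs_not_ins na h.ins_lo)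

theorem frame (hO : OSys ρ O) (hρ : Disc ρ) (ha : a ∈ O) (hb : b ∈ O) (h : Face (ρ a) (ρ b)) :
    Frame (ρ a) (ρ b) (ρ (a * b)⁻¹) := by
  have h1 := hO.face_conj hρ ha hb h
  have h2 := hO.face_conj hρ hb ha h.symm
  rw [POs_conj] at h1 h2
  have h3 : NoFix (ρ (a * b)) :=
    hρ.noFix fun h0 => h.ne_inv (by rw [eq_inv_of_mul_eq_one_left h0, map_inv])
  rw [map_mul] at h3
  rw [map_inv, map_mul]
  exact frame_of_face h h1 h2 h3

theorem le_TT (hO : OSys ρ O) (hρ : Disc ρ) (ha : a ∈ O) (hb : b ∈ O) (h : Face (ρ a) (ρ b)) :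
    qch (ρ a) * qch (ρ b) + 1 ≤ TT (ρ a) (ρ b) := by
  have h1 := (hO.frame hρ ha hb h).lift.1
  have h2 := one_le_qch (ρ (a * b)⁻¹)
  linarith only [h1, h2]

/-- Points deep in the cusp of `b` are inside every object that faces `b`. -/
theorem ins_of_level_lt (hO : OSys ρ O) (hρ : Disc ρ) (ha : a ∈ O) (hb : b ∈ O)
    (h : Face (ρ a) (ρ b)) (hp : Par (ρ b)) {p : Pt} (hl : -B (qv (ρ b)) p.1 < 1) :
    Ins (ρ a) p.1 := by
  by_contra h0
  have h1 := h.symm.TT_le_of_not_ins h0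
  have h2 := hO.le_TT hρ ha hb h
  have h3 : B (qv (ρ b)) p.1 < 0 := hp.ins_pt (hO.pos b hb) p
  rw [hp.qsh_eq.2, mul_one, TT_comm] at h2
  have h4 : √(qsh (ρ b) ^ 2 + B (qv (ρ b)) p.1 ^ 2) ≤ 1 := by
    rw [hp.qsh_eq.1, Real.sqrt_le_one]
    linarith only [hl, h3, mul_pos_of_neg_of_neg (Mathlib.Tactic.Linarith.sub_neg_of_lt hl) (Mathlib.Tactic.Linarith.sub_neg_of_lt h3)]
  have h5 := mul_le_of_le_one_right (qsh_nonneg (ρ a)) h4
  have h6 := qch_sq (ρ a)
  have h7 := one_le_qch (ρ a)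
  have h8 := qsh_nonneg (ρ a)
  linarith only [h1, h2, h5, h6, h7, h4, hl, h3, mul_nonneg_of_nonpos_of_nonpos (Mathlib.Tactic.Linarith.sub_nonpos_of_le (sq_nonneg (qsh (ρ a)))) (Mathlib.Tactic.Linarith.sub_nonpos_of_le h4), mul_pos_of_neg_of_neg (Mathlib.Tactic.Linarith.sub_neg_of_lt hl) (Mathlib.Tactic.Linarith.sub_neg_of_lt hl), mul_pos_of_neg_of_neg (Mathlib.Tactic.Linarith.sub_neg_of_lt hl) (Mathlib.Tactic.Linarith.sub_neg_of_lt h3), mul_nonneg_of_nonpos_of_nonpos (Mathlib.Tactic.Linarith.sub_nonpos_of_le h1) (Mathlib.Tactic.Linarith.sub_nonpos_of_le h1), mul_nonneg_of_nonpos_of_nonpos (Mathlib.Tactic.Linarith.sub_nonpos_of_le h1) (Mathlib.Tactic.Linarith.sub_nonpos_of_le h2), mul_nonneg_of_nonpos_of_nonpos (Mathlib.Tactic.Linarith.sub_nonpos_of_le h1) (Mathlib.Tactic.Linarith.sub_nonpos_of_le h5), mul_nonneg_of_nonpos_of_nonpos (Mathlib.Tactic.Linarith.sub_nonpos_of_le h1) (Mathlib.Tactic.Linarith.sub_nonpos_of_le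 h7), mul_nonneg_of_nonpos_of_nonpos (Mathlib.Tactic.Linarith.sub_nonpos_of_le h2) (Mathlib.Tactic.Linarith.sub_nonpos_of_le h2), mul_nonneg_of_nonpos_of_nonpos (Mathlib.Tactic.Linarith.sub_nonpos_of_le h2) (Mathlib.Tactic.Linarith.sub_nonpos_of_le h5), mul_nonneg_of_nonpos_of_nonpos (Mathlib.Tactic.Linarith.sub_nonpos_of_le h2) (Mathlib.Tactic.Linarith.sub_nonpos_of_le h7), mul_pos_of_neg_of_neg (Mathlib.Tactic.Linarith.sub_neg_of_lt h3) (Mathlib.Tactic.Linarith.sub_neg_of_lt h3), mul_nonneg_of_nonpos_of_nonpos (Mathlib.Tactic.Linarith.sub_nonpos_of_le h5) (Mathlib.Tactic.Linarith.sub_nonpos_of_le h7)]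

theorem POs_move {k : Isom} (hk : NoFix k) (p q : Pt) :
    sinh (dist q (k • q) / 2) ≤ (1 + 2 * cosh (dist p q)) * sinh (dist p (k • p) / 2) := by
  have h1 := det3_sq (qv k) p.1 q.1
  have e : B p.1 q.1 = -cosh (dist p q) := by rw [cosh_dist, neg_neg]
  rw [p.2.1, q.2.1, hk.B_qv, e] at h1
  have h2 := sq_nonneg (det3 (qv k) p.1 q.1)
  have hc := one_le_cosh (dist p q)
  have s1 : 0 ≤ sinh (dist p (k • p) / 2) := sinh_nonneg_iff.mpr (by positivity)
  refine le_of_sq_le_sq ?_ (by positivity)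
  rw [mul_pow, hk.sinh_sq_dist, hk.sinh_sq_dist]
  generalize cosh (dist p q) = c at *
  generalize B (qv k) p.1 = x at *
  generalize B (qv k) q.1 = y at *
  have hU := sq_nonneg (qsh k)
  generalize qsh k ^ 2 = U at *
  have h3 : (y - c * x) ^ 2 ≤ (U + x ^ 2) * (c ^ 2 - 1) := by nlinarith only [h1]
  have h4 : y ^ 2 ≤ 2 * (y - c * x) ^ 2 + 2 * (c * x) ^ 2 := by clear * - y c x; nlinarith [sq_nonneg (y - 2 * (c * x))]
  have h5 : 0 ≤ c * (U + x ^ 2) := by positivity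
  have h6 : 0 ≤ c ^ 2 * U := by positivity
  clear * - U y c x k p q h1 hU h4 h5 h6
  nlinarith only [h1, hU, h4, h5, h6, sq_nonneg x]

theorem POs_small (R : ℝ) : ∃ η > 0, ∀ (k : Isom) (p q : Pt), NoFix k → dist p q ≤ R →
    dist p (k • p) < η → dist q (k • q) ≤ marg := by
  have hK : 0 < 1 + 2 * cosh R := by positivity
  have hm : 0 < sinh (marg / 2) := sinh_pos_iff.mpr (half_pos marg_pos)
  refine ⟨2 * arsinh (sinh (marg / 2) / (1 + 2 * cosh R)),
    mul_pos two_pos (arsinh_pos_iff.mpr (div_pos hm hK)), fun k p q hk h1 h2 => ?_⟩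
  have h3 : sinh (dist p (k • p) / 2) ≤ sinh (marg / 2) / (1 + 2 * cosh R) := by
    rw [← sinh_arsinh (sinh (marg / 2) / (1 + 2 * cosh R))]
    exact sinh_le_sinh.mpr (by linarith only [h2])
  have h4 : cosh (dist p q) ≤ cosh R :=
    cosh_le_cosh.mpr (by rw [abs_of_nonneg dist_nonneg]; exact h1.trans (le_abs_self R))
  have s1 : 0 ≤ sinh (dist p (k • p) / 2) := sinh_nonneg_iff.mpr (by positivity)
  have h5 : sinh (dist q (k • q) / 2) ≤ sinh (marg / 2) := by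
    refine (POs_move hk p q).trans ((mul_le_mul (b := 1 + 2 * cosh R) (by linarith only [h4]) h3 s1
      hK.le).trans (le_of_eq ?_))
    field_simp
  linarith only [h5, sinh_le_sinh.mp h5]

theorem POs_comm (hρ : Disc ρ) {k : Γ} (hk : k ≠ 1) (h : Commute k (a * k * a⁻¹)) :
    ρ a • lo (ρ k) = lo (ρ k) := by
  have nk := hρ.noFix hk
  have h1 := h.map ρ
  rw [POs_conj] at h1
  rcases nk.hyp_or_par with h2 | h2
  · obtain ⟨-, h3⟩ := h2.of_commute (nk.conj _) h1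
    rw [h2.ax_conj] at h3
    rw [h2.lo_eq]
    exact congrArg Geo.tgt (h3.resolve_right (hρ.smul_ne_rev a _))
  · obtain ⟨-, h3⟩ := h2.of_commute (nk.conj _) h1
    rw [(h2.conj _).2] at h3
    rwa [h2.lo_eq]

theorem POs_thick (hρ : Disc ρ) (R : ℝ) : ∃ η > 0, ∀ (a b : Γ) (p : Pt), Face (ρ a) (ρ b) →
    dist p (ρ a • p) ≤ R → dist p (ρ b • p) ≤ R → Thick ρ η p := by
  obtain ⟨η, hη, h⟩ := POs_small R
  refine ⟨η, hη, fun a b p hf h1 h2 k hk => not_lt.mp fun h3 => ?_⟩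
  have key : ∀ a : Γ, dist p (ρ a • p) ≤ R → ρ a • lo (ρ k) = lo (ρ k) := by
    intro a ha
    refine POs_comm hρ hk (hρ.commute_of_small (p := p)
      (h _ p p (hρ.noFix hk) (by rw [dist_self]; exact dist_nonneg.trans ha) h3) ?_)
    have h4 := h _ p ((ρ a)⁻¹ • p) (hρ.noFix hk)
      (by rw [← dist_smul (ρ a), smul_inv_smul, dist_comm]; exact ha) h3
    rwa [← dist_smul (ρ a), smul_inv_smul, ← mul_smul, ← mul_smul, ← POs_conj] at h4
  exact POs_not_ins_fix hf.1 (key a h1) (hf.ins (POs_not_ins_fix hf.2.1 (key b h2)))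

theorem finite_TT (hO : OSys ρ O) (hρ : Good ρ N) (ha : a ∈ O) (C : ℝ) :
    ∃ s : Finset Γ, ∀ b ∈ O, Face (ρ a) (ρ b) → TT (ρ a) (ρ b) ≤ C →
      ∃ k : ℤ, a ^ k * b * (a ^ k)⁻¹ ∈ s := by
  classical
  have hd : Disc ρ := hρ.toDisc
  obtain ⟨R, hR⟩ := exists_close C
  obtain ⟨η, hη, h1⟩ := POs_thick hd R
  obtain ⟨R', h2⟩ := hρ.exists_thick_bound hη
  have hF := hd.proper o (2 * R' + R)
  have key : ∀ f : Γ, ∃ c : Γ, ∀ g : Γ, g⁻¹ * a * g = f → c⁻¹ * a * c = f := by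
    intro f
    by_cases h : ∃ g : Γ, g⁻¹ * a * g = f
    · exact ⟨h.choose, fun _ _ => h.choose_spec⟩
    · exact ⟨1, fun g hg => absurd ⟨g, hg⟩ h⟩
  choose c hc using key
  have hS := hF.image2 (fun f f' => c f * f' * (c f)⁻¹) hF
  refine ⟨hS.toFinset, fun b hb h hC => ?_⟩
  obtain ⟨p, p1, p2⟩ := hR _ _ h (hO.le_TT hd ha hb h) hC
  obtain ⟨g, hg⟩ := h2 p (h1 a b p h p1 p2)
  have e := hc _ g rfl
  obtain ⟨k, hk⟩ := Subgroup.mem_zpowers_iff.mp (hO.mem_zpowers ha (g := c (g⁻¹ * a * g) * g⁻¹) (by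
    calc c (g⁻¹ * a * g) * g⁻¹ * a * (c (g⁻¹ * a * g) * g⁻¹)⁻¹
        = c (g⁻¹ * a * g) * (g⁻¹ * a * g) * (c (g⁻¹ * a * g))⁻¹ := by group
      _ = c (g⁻¹ * a * g) * ((c (g⁻¹ * a * g))⁻¹ * a * c (g⁻¹ * a * g)) *
          (c (g⁻¹ * a * g))⁻¹ := by rw [e]
      _ = a := by group))
  refine ⟨k, hS.mem_toFinset.mpr ⟨_, gThick_move hg p1, _, gThick_move hg p2, ?_⟩⟩
  rw [hk]
  group

theorem finite_level (hO : OSys ρ O) (hρ : Disc ρ) (p : Pt) (C : ℝ) :
    {a ∈ O | |B (qv (ρ a)) p.1| ≤ C}.Finite := by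
  obtain ⟨s, hs⟩ := hO.fin
  refine (hρ.proper p (2 * arsinh (∑ f ∈ s, qsh (ρ f) + C))).subset fun a ⟨ha, h⟩ => ?_
  obtain ⟨f, hf, h1⟩ := hs a ha
  have h2 : qsh (ρ a) ≤ ∑ f ∈ s, qsh (ρ f) := by
    rw [qsh, POs_tl h1]
    exact Finset.single_le_sum (f := fun f => qsh (ρ f)) (fun f _ => qsh_nonneg _) hf
  have h3 := qsh_nonneg (ρ a)
  have h4 := abs_nonneg (B (qv (ρ a)) p.1)
  have h5 : sinh (dist p (ρ a • p) / 2) ≤ ∑ f ∈ s, qsh (ρ f) + C := by
    refine le_of_sq_le_sq ?_ (by linarith)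
    rw [(hO.noFix ha).sinh_sq_dist, ← sq_abs (B _ _)]
    linarith only [h3, h4, h, h2, mul_nonneg h3 h4, mul_nonneg_of_nonpos_of_nonpos (Mathlib.Tactic.Linarith.sub_nonpos_of_le h) (Mathlib.Tactic.Linarith.sub_nonpos_of_le h), mul_nonneg_of_nonpos_of_nonpos (Mathlib.Tactic.Linarith.sub_nonpos_of_le h) (Mathlib.Tactic.Linarith.sub_nonpos_of_le h2), mul_nonneg_of_nonpos_of_nonpos (Mathlib.Tactic.Linarith.sub_nonpos_of_le h) (Mathlib.Tactic.Linarith.sub_nonpos_of_le h3), mul_nonneg_of_nonpos_of_nonpos (Mathlib.Tactic.Linarith.sub_nonpos_of_le h) (Mathlib.Tactic.Linarith.sub_nonpos_of_le h4), mul_nonneg_of_nonpos_of_nonpos (Mathlib.Tactic.Linarith.sub_nonpos_of_le h2) (Mathlib.Tactic.Linarith.sub_nonpos_of_le h2), mul_nonneg_of_nonpos_of_nonpos (Mathlib.Tactic.Linarith.sub_nonpos_of_le h2) (Mathlib.Tactic.Linarith.sub_nonpos_of_le h3), mul_nonneg_of_nonpos_of_nonpos (Mathlib.Tactic.Linarith.sub_nonpos_of_le h2) (Mathlib.Tactic.Linarith.sub_nonpos_of_le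 h4)]
  rw [← sinh_arsinh (∑ f ∈ s, qsh (ρ f) + C), sinh_le_sinh] at h5
  show dist p (ρ a • p) ≤ _
  linarith only [h5]

theorem diff (hO : OSys ρ O) {x : Γ} (hx : Hyp (ρ x)) : OSys ρ (O \ cls ρ x) := by
  refine ⟨fun a ha => hO.pos a ha.1, fun a ha => hO.stab a ha.1,
    fun a ha g => ⟨hO.conj a ha.1 g, fun h => ha.2 ?_⟩,
    fun a ha h => ⟨hO.inv a ha.1 h, fun h => ha.2 ?_⟩, fun a ha b hb => hO.nc a ha.1 b hb.1,
    fun a ha => ⟨hO.cusp a ha, fun h => (POs_hyp hx h).not_par ha.1⟩,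
    hO.fin.imp fun s hs a ha => hs a ha.1⟩
  · have := cls_conj h g⁻¹
    rwa [show g⁻¹ * (g * a * g⁻¹) * g⁻¹⁻¹ = a by group] at this
  · have := POs_inv_mem hx h
    rwa [inv_inv] at this

theorem union (hO : OSys ρ O) (hρ : Disc ρ) {x : Γ} (hx : Simple ρ x)
    (hc : ∀ m ∈ O, Hyp (ρ m) → ¬ Cross (ax (ρ m)) (ax (ρ x))) : OSys ρ (O ∪ cls ρ x) := by
  classical
  have key : ∀ a ∈ O, Hyp (ρ a) → ∀ b ∈ cls ρ x, ¬ Cross (ax (ρ a)) (ax (ρ b)) := by
    intro a ha h b hb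
    have h1 : ∀ g : Γ, ¬ Cross (ax (ρ a)) (ρ g • ax (ρ x)) := fun g h2 => by
      refine hc _ (hO.conj a ha g⁻¹) (POs_hyp h (Or.inl (POs_isConj _ a))) ?_
      rwa [ax_conj' h, ← cross_smul (ρ g), map_inv, smul_inv_smul]
    obtain ⟨g, hg | hg⟩ := POs_ax hx.hyp hb
    · rw [hg]
      exact h1 g
    · rw [hg, cross_rev_right]
      exact h1 g
  refine ⟨?_, ?_, ?_, ?_, ?_, fun a ha => Or.inl (hO.cusp a ha), ?_⟩
  · rintro a (ha | ha)
    · exact hO.pos a ha
    · exact (POs_hyp hx.hyp ha).pos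
  · rintro a (ha | ha)
    · exact hO.stab a ha
    · exact POs_stab hρ (POs_simple hx ha)
  · rintro a (ha | ha) g
    · exact Or.inl (hO.conj a ha g)
    · exact Or.inr (cls_conj ha g)
  · rintro a (ha | ha) h
    · exact Or.inl (hO.inv a ha h)
    · exact Or.inr (POs_inv_mem hx.hyp ha)
  · rintro a (ha | ha) b (hb | hb) h1 h2
    · exact hO.nc a ha b hb h1 h2
    · exact key a ha h1 b hb
    · exact fun h => key b hb h2 a ha h.symm
    · obtain ⟨g, hg | hg⟩ := POs_ax hx.hyp ha <;> obtain ⟨k, hk | hk⟩ := POs_ax hx.hyp hb <;>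
        simpa only [hg, hk, cross_rev_left, cross_rev_right] using hx.line.not_cross g k
  · obtain ⟨s, hs⟩ := hO.fin
    refine ⟨insert x (insert x⁻¹ s), ?_⟩
    rintro a (ha | ha | ⟨-, ha⟩)
    · obtain ⟨f, hf, h⟩ := hs a ha
      exact ⟨f, Finset.mem_insert_of_mem (Finset.mem_insert_of_mem hf), h⟩
    · exact ⟨x, Finset.mem_insert_self _ _, ha⟩
    · exact ⟨x⁻¹, Finset.mem_insert_of_mem (Finset.mem_insert_self _ _), ha⟩

theorem POs_multi (hO : OSys ρ O) (hρ : Disc ρ) :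
    ∃ (k : ℕ) (R : Fin k → Γ), Multi ρ R ∧ O = Obj ρ R := by
  obtain ⟨s, hs⟩ := hO.fin
  have hT : {S : Set Γ | ∃ a ∈ O, Hyp (ρ a) ∧ cls ρ a = S}.Finite := by
    refine (s.finite_toSet.image (cls ρ)).subset ?_
    rintro _ ⟨a, ha, -, rfl⟩
    obtain ⟨f, hf, h⟩ := hs a ha
    exact ⟨f, hf, (cls_eq (Or.inl h)).symm⟩
  obtain ⟨k, F, hF, hr⟩ := hT.fin_param
  have h1 : ∀ i, ∃ a ∈ O, Hyp (ρ a) ∧ cls ρ a = F i := fun i => hr.subset ⟨i, rfl⟩
  choose R r1 r2 r3 using h1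
  refine ⟨k, R, (multi_iff hρ).mpr ⟨fun i => hO.simple hρ (r1 i) (r2 i), fun i j hij g => ?_⟩, ?_⟩
  · have c1 := hO.conj _ (r1 j) g
    have c2 : g * R j * g⁻¹ ∈ cls ρ (R j) := Or.inl (POs_isConj g _)
    have c3 := POs_hyp (r2 j) c2
    have key : ∀ x ∈ cls ρ (R i), ax (ρ (g * R j * g⁻¹)) ≠ ax (ρ x) := fun x hx h => by
      have h2 := hO.lo_inj hρ c1 (hO.cls_subset (r1 i) hx)
        (by rw [c3.lo_eq, (POs_hyp (r2 i) hx).lo_eq, h])
      exact hij (hF (by rw [← r3, ← r3, ← cls_eq hx, ← h2, cls_eq c2]))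
    rw [← ax_conj' (r2 j), ← (r2 i).ax_inv, ← map_inv ρ (R i)]
    exact ⟨hO.nc _ (r1 i) _ c1 (r2 i) c3, key _ (mem_cls_self _),
      key _ (POs_inv_mem (r2 i) (mem_cls_self _))⟩
  · ext a
    constructor
    · intro ha
      by_cases h : Hyp (ρ a)
      · obtain ⟨i, hi⟩ := hr.symm.subset ⟨a, ha, h, rfl⟩
        exact Or.inl ⟨i, by rw [r3, hi]; exact mem_cls_self a⟩
      · exact Or.inr (hO.cuspGen ha h)
    · rintro (⟨i, hi⟩ | ha)
      · exact hO.cls_subset (r1 i) hi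
      · exact hO.cusp a ha

theorem sys (hO : OSys ρ O) (hρ : Disc ρ) : Sys ρ (axes ρ O) := by
  obtain ⟨k, R, hR, rfl⟩ := hO.POs_multi hρ
  rw [axes_obj hρ hR]
  exact hR.sys hρ

theorem exists_multi (hO : OSys ρ O) (hρ : Disc ρ) :
    ∃ (k : ℕ) (R : Fin k → Γ), Multi ρ R ∧ O = Obj ρ R := hO.POs_multi hρ

end OSys

end HRT
end

-- merged part: Pool.Agent.Work.MP_35beee_gt.UTrop
section
/-!
Functions that are homogeneous functions of coordinates up to a bounded error, and traces of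
products of positive matrices.

Plan. All `Trop` lemmas: combine the witnesses in the obvious way (`φ + ψ`, `max φ ψ`, `φ ∘ L`, ...).
`MT.add`: `max (log F) (log G) ≤ log (F + G) ≤ max (log F) (log G) + log 2`. `Trop.cosh`:
`exp |f| / 2 ≤ cosh f ≤ exp |f|`. `Trop.sinh`: `(1 - exp (-2 ε)) / 2 * exp f ≤ sinh f ≤ exp f`.
`MT.trc`: by induction all four entries of a product of `p + 1` matrices are `MT`
(`List.range_succ`, `List.prod_append`, `Matrix.mul_apply`, `Fin.sum_univ_two`).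
`le_trc`: the diagonal entries of the product are at least `exp (± ∑ u / 2) * ∏ cosh`.
`trc_le`: every entry of `mat u d` is at most `exp (|u| / 2) * cosh (d / 2)`.
`trc_flip`: let `π n` be the swap of `Fin 2` if `σ n`, and the identity otherwise. Then
`mat (u n) (d n) a b ≤ K n * mat (u' n) (d' n) (π n a) (π (n + 1) b)`; by induction the entry
`a b` of the product of the first `n` matrices is at most `∏ K` times the entry `(π 0 a) (π n b)`
of the other product (reindex the sum over the middle index by `π n`).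
-/

namespace HRT

open Set Real

/-- Continuous and positively homogeneous of degree one. -/
def Hom1 {E : Type*} [NormedAddCommGroup E] [NormedSpace ℝ E] (φ : E → ℝ) : Prop :=
  Continuous φ ∧ ∀ s : ℝ, 0 ≤ s → ∀ v, φ (s • v) = s * φ v

/-- On `S` the function `f` is a homogeneous function of `c` up to a bounded error. -/
def Trop {X E : Type*} [NormedAddCommGroup E] [NormedSpace ℝ E] (S : Set X) (c : X → E)
    (f : X → ℝ) : Prop := ∃ φ : E → ℝ, Hom1 φ ∧ ∃ C : ℝ, ∀ x ∈ S, |f x - φ (c x)| ≤ C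

/-- The multiplicative version of `Trop`. -/
def MT {X E : Type*} [NormedAddCommGroup E] [NormedSpace ℝ E] (S : Set X) (c : X → E)
    (F : X → ℝ) : Prop := (∀ x ∈ S, 0 < F x) ∧ Trop S c fun x => log (F x)

variable {X E : Type*} [NormedAddCommGroup E] [NormedSpace ℝ E] {S : Set X} {c : X → E}
  {f g F G : X → ℝ}

theorem Trop.const (a : ℝ) : Trop S c fun _ => a := by
    exact ⟨fun _ => 0, ⟨continuous_const, fun _ _ _ => (mul_zero _).symm⟩, |a|,
      fun _ _ => by rw [sub_zero]⟩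

theorem Trop.lin (L : E →L[ℝ] ℝ) : Trop S c fun x => L (c x) := by
    exact ⟨L, ⟨L.continuous, fun s _ v => L.map_smul s v⟩, 0, fun _ _ => by simp⟩

theorem Trop.congr (hf : Trop S c f) {C : ℝ} (h : ∀ x ∈ S, |g x - f x| ≤ C) : Trop S c g := by
    obtain ⟨φ, hφ, C', h'⟩ := hf
    exact ⟨φ, hφ, C + C', fun x hx => (abs_sub_le _ _ _).trans (add_le_add (h x hx) (h' x hx))⟩

theorem Trop.add (hf : Trop S c f) (hg : Trop S c g) : Trop S c fun x => f x + g x := by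
    obtain ⟨φ, hφ, C, h⟩ := hf
    obtain ⟨ψ, hψ, C', h'⟩ := hg
    refine ⟨fun v => φ v + ψ v, ⟨hφ.1.add hψ.1, fun s hs v => ?_⟩, C + C', fun x hx => ?_⟩
    · simp only [hφ.2 s hs, hψ.2 s hs, mul_add]
    · rw [add_sub_add_comm]
      exact (abs_add_le _ _).trans (add_le_add (h x hx) (h' x hx))

theorem Trop.const_mul (hf : Trop S c f) (a : ℝ) : Trop S c fun x => a * f x := by
    obtain ⟨φ, hφ, C, h⟩ := hf
    refine ⟨fun v => a * φ v, ⟨continuous_const.mul hφ.1, fun s hs v => ?_⟩, |a| * C, fun x hx => ?_⟩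
    · simp only [hφ.2 s hs, mul_left_comm]
    · rw [← mul_sub, abs_mul]
      exact mul_le_mul_of_nonneg_left (h x hx) (abs_nonneg _)

theorem Trop.div_const (hf : Trop S c f) (a : ℝ) : Trop S c fun x => f x / a := by
    simpa only [div_eq_inv_mul] using hf.const_mul a⁻¹

theorem Trop.neg (hf : Trop S c f) : Trop S c fun x => -f x := by
    simpa only [neg_one_mul] using hf.const_mul (-1)

theorem Trop.sub (hf : Trop S c f) (hg : Trop S c g) : Trop S c fun x => f x - g x := by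
    simpa only [sub_eq_add_neg] using hf.add hg.neg

theorem Trop.max (hf : Trop S c f) (hg : Trop S c g) : Trop S c fun x => max (f x) (g x) := by
    obtain ⟨φ, hφ, C, h⟩ := hf
    obtain ⟨ψ, hψ, C', h'⟩ := hg
    refine ⟨fun v => Max.max (φ v) (ψ v), ⟨hφ.1.max hψ.1, fun s hs v => ?_⟩, Max.max C C',
      fun x hx => ?_⟩
    · simp only [hφ.2 s hs, hψ.2 s hs, mul_max_of_nonneg _ _ hs]
    · exact (abs_max_sub_max_le_max _ _ _ _).trans (max_le_max (h x hx) (h' x hx))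

theorem Trop.abs (hf : Trop S c f) : Trop S c fun x => |f x| := by
    simpa only [abs_eq_max_neg] using hf.max hf.neg

theorem Trop.sum {ι : Type*} (s : Finset ι) {f : ι → X → ℝ} (h : ∀ i ∈ s, Trop S c (f i)) :
    Trop S c fun x => ∑ i ∈ s, f i x := by
    classical
    induction s using Finset.induction_on with
    | empty => simpa using Trop.const 0
    | insert i s hi ih =>
      simp only [Finset.sum_insert hi]
      exact (h i (Finset.mem_insert_self _ _)).add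
        (ih fun j hj => h j (Finset.mem_insert_of_mem hj))

theorem Trop.comp {E' : Type*} [NormedAddCommGroup E'] [NormedSpace ℝ E'] (hf : Trop S c f)
    (L : E' →L[ℝ] E) {c' : X → E'} (hc : ∀ x, c x = L (c' x)) : Trop S c' f := by
    obtain ⟨φ, hφ, C, h⟩ := hf
    refine ⟨fun v => φ (L v), ⟨hφ.1.comp L.continuous, fun s hs v => ?_⟩, C, fun x hx => ?_⟩
    · simp only [map_smul, hφ.2 s hs]
    · simp only [← hc]
      exact h x hx

/-- Values at points with the same coordinates differ by a bounded amount. -/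
theorem Trop.exists_le (hf : Trop S c f) :
    ∃ C : ℝ, ∀ x ∈ S, ∀ y ∈ S, c x = c y → |f x - f y| ≤ C := by
    obtain ⟨φ, -, C, h⟩ := hf
    refine ⟨C + C, fun x hx y hy e => (abs_sub_le _ (φ (c x)) _).trans (add_le_add (h x hx) ?_)⟩
    rw [abs_sub_comm, e]
    exact h y hy

/-- The homogeneous witness is the limit along sequences. -/
theorem Hom1.tendsto {φ : E → ℝ} (hφ : Hom1 φ) {C : ℝ} (h : ∀ x ∈ S, |f x - φ (c x)| ≤ C)
    {x : ℕ → X} (hx : ∀ n, x n ∈ S) {v w : E} (hc : ∀ n, c (x n) = w + (n : ℝ) • v) :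
    Filter.Tendsto (fun n : ℕ => f (x n) / n) Filter.atTop (nhds (φ v)) := by
    have h0 : Filter.Tendsto (fun n : ℕ => (n : ℝ)⁻¹) Filter.atTop (nhds 0) :=
      tendsto_inv_atTop_nhds_zero_nat
    have h1 : Filter.Tendsto (fun n : ℕ => φ ((n : ℝ)⁻¹ • w + v)) Filter.atTop (nhds (φ v)) := by
      refine (hφ.1.tendsto v).comp ?_
      simpa using (h0.smul_const w).add_const v
    have h2 : Filter.Tendsto (fun n : ℕ => (f (x n) - φ (c (x n))) * (n : ℝ)⁻¹) Filter.atTop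
        (nhds 0) := by
      refine squeeze_zero_norm (fun n => ?_) (by simpa using h0.const_mul C)
      rw [norm_mul, norm_eq_abs, norm_of_nonneg (by positivity)]
      exact mul_le_mul_of_nonneg_right (h _ (hx n)) (by positivity)
    have h3 := h2.add h1
    rw [zero_add] at h3
    refine h3.congr' ((Filter.eventually_gt_atTop 0).mono fun n hn => ?_)
    have hn' : (n : ℝ) ≠ 0 := by positivity
    have e : (n : ℝ)⁻¹ • w + v = (n : ℝ)⁻¹ • c (x n) := by
      rw [hc, smul_add, smul_smul, inv_mul_cancel₀ hn', one_smul]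
    simp only [e, hφ.2 _ (inv_nonneg.2 (Nat.cast_nonneg n))]
    ring

theorem MT.const {a : ℝ} (ha : 0 < a) : MT S c fun _ => a := by
    exact ⟨fun _ _ => ha, Trop.const _⟩

theorem MT.congr (hF : MT S c F) (h : ∀ x ∈ S, G x = F x) : MT S c G := by
    exact ⟨fun x hx => h x hx ▸ hF.1 x hx, hF.2.congr (C := 0) fun x hx => by simp [h x hx]⟩

theorem MT.add (hF : MT S c F) (hG : MT S c G) : MT S c fun x => F x + G x := by
    refine ⟨fun x hx => add_pos (hF.1 x hx) (hG.1 x hx),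
      (hF.2.max hG.2).congr (C := log 2) fun x hx => ?_⟩
    have h1 := hF.1 x hx
    have h2 := hG.1 x hx
    have h3 : log (F x) ≤ log (F x + G x) := log_le_log h1 (by linarith)
    have h4 : log (G x) ≤ log (F x + G x) := log_le_log h2 (by linarith)
    rw [abs_of_nonneg (sub_nonneg.2 (max_le h3 h4)), sub_le_iff_le_add]
    rcases le_total (F x) (G x) with h | h
    · refine le_trans ?_ (add_le_add_right (le_max_right _ _) _)
      rw [← log_mul two_ne_zero h2.ne']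
      exact log_le_log (by linarith) (by linarith)
    · refine le_trans ?_ (add_le_add_right (le_max_left _ _) _)
      rw [← log_mul two_ne_zero h1.ne']
      exact log_le_log (by linarith) (by linarith)

theorem MT.mul (hF : MT S c F) (hG : MT S c G) : MT S c fun x => F x * G x := by
    exact ⟨fun x hx => mul_pos (hF.1 x hx) (hG.1 x hx), (hF.2.add hG.2).congr (C := 0) fun x hx => by
      simp [log_mul (hF.1 x hx).ne' (hG.1 x hx).ne']⟩

theorem MT.div (hF : MT S c F) (hG : MT S c G) : MT S c fun x => F x / G x := by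
    exact ⟨fun x hx => div_pos (hF.1 x hx) (hG.1 x hx), (hF.2.sub hG.2).congr (C := 0) fun x hx => by
      simp [log_div (hF.1 x hx).ne' (hG.1 x hx).ne']⟩

theorem MT.of_sq (hF : MT S c fun x => F x ^ 2) (h : ∀ x ∈ S, 0 ≤ F x) : MT S c F := by
    refine ⟨fun x hx => (h x hx).lt_of_ne fun e => ?_,
      (hF.2.div_const 2).congr (C := 0) fun x _ => by simp⟩
    simpa [← e] using hF.1 x hx

theorem MT.comp {E' : Type*} [NormedAddCommGroup E'] [NormedSpace ℝ E'] (hF : MT S c F)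
    (L : E' →L[ℝ] E) {c' : X → E'} (hc : ∀ x, c x = L (c' x)) : MT S c' F := by
    exact ⟨hF.1, hF.2.comp L hc⟩

theorem Trop.exp (hf : Trop S c f) : MT S c fun x => exp (f x) := by
    exact ⟨fun x _ => exp_pos _, hf.congr (C := 0) fun x _ => by simp⟩

theorem UTrop_log {y t a : ℝ} (ha : 0 < a) (h1 : a * exp t ≤ y) (h2 : y ≤ exp t) :
    |log y - t| ≤ -log a := by
  have h0 : 0 < a * exp t := by positivity
  have h3 := log_le_log h0 h1
  have h4 := log_le_log (h0.trans_le h1) h2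
  rw [log_mul ha.ne' (exp_pos _).ne', log_exp] at h3
  rw [log_exp] at h4
  rw [abs_of_nonpos (by linarith)]
  linarith

theorem Trop.cosh (hf : Trop S c f) : MT S c fun x => cosh (f x) := by
    refine ⟨fun x _ => cosh_pos _, hf.abs.congr (C := -log 2⁻¹) fun x _ => ?_⟩
    have h1 := exp_pos (-|f x|)
    have h2 : Real.exp (-|f x|) ≤ Real.exp |f x| := exp_le_exp.2 (by linarith only [abs_nonneg (f x)])
    beta_reduce
    refine UTrop_log (by norm_num) ?_ ?_ <;> rw [← cosh_abs, cosh_eq] <;> linarith only [h1, h2]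

theorem Trop.sinh (hf : Trop S c f) {ε : ℝ} (hε : 0 < ε) (h : ∀ x ∈ S, ε ≤ f x) :
    MT S c fun x => sinh (f x) := by
    refine ⟨fun x hx => sinh_pos_iff.2 (hε.trans_le (h x hx)),
      hf.congr (C := -log ((1 - Real.exp (-(2 * ε))) / 2)) fun x hx => ?_⟩
    have h0 : Real.exp (-(2 * ε)) < 1 := exp_lt_one_iff.2 (by linarith)
    have h1 := exp_pos (-f x)
    have h2 := exp_pos (f x)
    have h3 : Real.exp (-f x) ≤ Real.exp (-(2 * ε)) * Real.exp (f x) := by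
      rw [← exp_add]
      exact exp_le_exp.2 (by linarith [h x hx])
    beta_reduce
    refine UTrop_log (by linarith) ?_ ?_ <;> rw [sinh_eq] <;> linarith only [h3, h1, h2]

/-- The matrix of a translation by `u` along one axis after a translation by `d` along the other. -/
noncomputable def mat (u d : ℝ) : Matrix (Fin 2) (Fin 2) ℝ :=
  !![exp (u / 2) * cosh (d / 2), exp (u / 2) * sinh (d / 2);
    exp (-(u / 2)) * sinh (d / 2), exp (-(u / 2)) * cosh (d / 2)]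

/-- The trace of the product of the first `p` matrices. -/
noncomputable def trc (p : ℕ) (u d : ℕ → ℝ) : ℝ :=
  ((List.range p).map fun n => mat (u n) (d n)).prod.trace

/-- the product of the first `p` matrices -/
noncomputable def UTrop_P (u d : ℕ → ℝ) (p : ℕ) : Matrix (Fin 2) (Fin 2) ℝ :=
  ((List.range p).map fun n => mat (u n) (d n)).prod

theorem UTrop_zero (u d : ℕ → ℝ) : UTrop_P u d 0 = 1 := rfl

theorem UTrop_succ (u d : ℕ → ℝ) (p : ℕ) (a b : Fin 2) :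
    UTrop_P u d (p + 1) a b = ∑ k, UTrop_P u d p a k * mat (u p) (d p) k b := by
  rw [← Matrix.mul_apply]
  simp [UTrop_P, List.range_succ]

theorem UTrop_trc (u d : ℕ → ℝ) (p : ℕ) : trc p u d = ∑ a, UTrop_P u d p a a := rfl

/-- the sign of an index -/
def UTrop_sg (a : Fin 2) : ℝ := if a = 0 then 1 else -1

theorem UTrop_mat (u d : ℝ) (a b : Fin 2) : mat u d a b =
    exp (UTrop_sg a * u / 2) * if a = b then cosh (d / 2) else sinh (d / 2) := by
  fin_cases a <;> fin_cases b <;> simp [mat, UTrop_sg, neg_div]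

theorem UTrop_sg_le (a : Fin 2) (u : ℝ) : UTrop_sg a * u ≤ |u| := by
  unfold UTrop_sg
  split_ifs
  · rw [one_mul]; exact le_abs_self u
  · rw [neg_one_mul]; exact neg_le_abs u

theorem UTrop_ite {d : ℝ} (hd : 0 ≤ d) (q : Prop) [Decidable q] :
    0 ≤ sinh (d / 2) ∧ sinh (d / 2) ≤ (if q then cosh (d / 2) else sinh (d / 2)) ∧
      (if q then cosh (d / 2) else sinh (d / 2)) ≤ cosh (d / 2) := by
  have h := (sinh_lt_cosh (d / 2)).le
  refine ⟨sinh_nonneg_iff.2 (by positivity), ?_, ?_⟩ <;> split_ifs <;> simp [h]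

theorem UTrop_mat0 (u : ℝ) {d : ℝ} (hd : 0 ≤ d) (a b : Fin 2) : 0 ≤ mat u d a b := by
  rw [UTrop_mat]
  exact mul_nonneg (exp_pos _).le ((UTrop_ite hd (a = b)).1.trans (UTrop_ite hd _).2.1)

theorem UTrop_P0 (u : ℕ → ℝ) {d : ℕ → ℝ} (hd : ∀ n, 0 ≤ d n) (p : ℕ) (a b : Fin 2) :
    0 ≤ UTrop_P u d p a b := by
  induction p generalizing b with
  | zero => rw [UTrop_zero, Matrix.one_apply]; split_ifs <;> norm_num
  | succ p ih =>
    rw [UTrop_succ]
    exact Finset.sum_nonneg fun k _ => mul_nonneg (ih k) (UTrop_mat0 _ (hd p) _ _)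

theorem MT.trc (p : ℕ) {u d : ℕ → X → ℝ} (hu : ∀ n, Trop S c (u n))
    (h1 : ∀ n, MT S c fun x => cosh (d n x / 2)) (h2 : ∀ n, MT S c fun x => sinh (d n x / 2)) :
    MT S c fun x => trc p (fun n => u n x) fun n => d n x := by
    have hm : ∀ n a b, MT S c fun x => mat (u n x) (d n x) a b := by
      intro n a b
      simp only [UTrop_mat]
      refine (((hu n).const_mul _).div_const 2).exp.mul ?_
      split_ifs
      · exact h1 n
      · exact h2 n
    have hP : ∀ p a b, MT S c fun x => UTrop_P (fun n => u n x) (fun n => d n x) (p + 1) a b := by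
      intro p
      induction p with
      | zero =>
        intro a b
        simpa [UTrop_succ, UTrop_zero, Matrix.one_apply] using hm 0 a b
      | succ p ih =>
        intro a b
        simp only [UTrop_succ _ _ (p + 1), Fin.sum_univ_two]
        exact ((ih _ _).mul (hm _ _ _)).add ((ih _ _).mul (hm _ _ _))
    simp only [UTrop_trc, Fin.sum_univ_two]
    rcases p with _ | p
    · simpa [UTrop_zero] using MT.const (S := S) (c := c) (a := 1 + 1) (by norm_num)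
    · exact (hP p _ _).add (hP p _ _)

theorem le_trc (p : ℕ) (u : ℕ → ℝ) {d : ℕ → ℝ} (hd : ∀ n, 0 ≤ d n) :
    exp (|∑ n ∈ Finset.range p, u n| / 2) * ∏ n ∈ Finset.range p, cosh (d n / 2) ≤ trc p u d := by
    have h : ∀ a, exp (UTrop_sg a * (∑ n ∈ Finset.range p, u n) / 2) *
        ∏ n ∈ Finset.range p, cosh (d n / 2) ≤ UTrop_P u d p a a := by
      intro a
      induction p with
      | zero => simp [UTrop_zero]
      | succ p ih =>
        rw [UTrop_succ]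
        refine le_trans ?_ (Finset.single_le_sum
          (fun k _ => mul_nonneg (UTrop_P0 u hd p a k) (UTrop_mat0 _ (hd p) k a)) (Finset.mem_univ a))
        refine le_trans (le_of_eq ?_) (mul_le_mul_of_nonneg_right ih (UTrop_mat0 _ (hd p) a a))
        rw [UTrop_mat, if_pos rfl, Finset.sum_range_succ, Finset.prod_range_succ, mul_add, add_div,
          exp_add]
        ring
    have h0 := h 0
    have h1 := h 1
    have a0 := UTrop_P0 u hd p 0 0
    have a1 := UTrop_P0 u hd p 1 1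
    simp only [UTrop_sg, if_true, one_mul, one_ne_zero, if_false, neg_one_mul] at h0 h1
    rw [UTrop_trc, Fin.sum_univ_two]
    rcases abs_choice (∑ n ∈ Finset.range p, u n) with e | e <;> rw [e] <;> linarith only [a1, h0, a0, h1]

theorem trc_le (p : ℕ) (u : ℕ → ℝ) {d : ℕ → ℝ} (hd : ∀ n, 0 ≤ d n) : trc p u d ≤ 2 ^ (p + 1) *
    (exp ((∑ n ∈ Finset.range p, |u n|) / 2) * ∏ n ∈ Finset.range p, cosh (d n / 2)) := by
    have h : ∀ a b, UTrop_P u d p a b ≤ 2 ^ p * (exp ((∑ n ∈ Finset.range p, |u n|) / 2) *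
        ∏ n ∈ Finset.range p, cosh (d n / 2)) := by
      intro a
      induction p with
      | zero =>
        intro b
        rw [UTrop_zero, Matrix.one_apply]
        split_ifs <;> simp
      | succ p ih =>
        intro b
        have hm : ∀ k, mat (u p) (d p) k b ≤ exp (|u p| / 2) * cosh (d p / 2) := fun k => by
          rw [UTrop_mat]
          exact mul_le_mul (exp_le_exp.2 (by linarith only [UTrop_sg_le k (u p)])) (UTrop_ite (hd p) _).2.2
            ((UTrop_ite (hd p) (k = b)).1.trans (UTrop_ite (hd p) _).2.1) (exp_pos _).le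
        have h2 := fun k => mul_le_mul (ih k) (hm k) (UTrop_mat0 _ (hd p) k b)
          ((UTrop_P0 u hd p a k).trans (ih k))
        rw [UTrop_succ, Fin.sum_univ_two, Finset.sum_range_succ, Finset.prod_range_succ, add_div,
          exp_add]
        refine (add_le_add (h2 0) (h2 1)).trans (le_of_eq ?_)
        ring
    rw [UTrop_trc, Fin.sum_univ_two]
    refine (add_le_add (h 0 0) (h 1 1)).trans (le_of_eq ?_)
    ring

theorem trc_flip (p : ℕ) (u u' : ℕ → ℝ) {d d' δ : ℕ → ℝ} {σ : ℕ → Prop} [DecidablePred σ]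
    (hσ : σ p ↔ σ 0) (hd : ∀ n, 0 ≤ d n) (hd' : ∀ n, 0 ≤ d' n)
    (h1 : ∀ n < p, cosh (d n / 2) ≤ exp (δ n) * cosh (d' n / 2))
    (h2 : ∀ n < p, sinh (d n / 2) ≤ exp (δ n) * sinh (d' n / 2))
    (h3 : ∀ n < p, σ n ∨ σ (n + 1) → cosh (d n / 2) ≤ exp (δ n) * sinh (d' n / 2)) :
    trc p u d ≤ exp (∑ n ∈ Finset.range p,
      (|u n - (if σ n then -u' n else u' n)| / 2 + δ n)) * trc p u' d' := by
    obtain ⟨τ, hτ⟩ : ∃ τ : ℕ → Equiv.Perm (Fin 2), ∀ n, τ n = if σ n then Equiv.swap 0 1 else 1 :=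
      ⟨_, fun _ => rfl⟩
    have hm : ∀ n < p, ∀ a b, mat (u n) (d n) a b ≤
        exp (|u n - (if σ n then -u' n else u' n)| / 2 + δ n) *
          mat (u' n) (d' n) (τ n a) (τ (n + 1) b) := by
      intro n hn a b
      rw [UTrop_mat, UTrop_mat, exp_add, mul_mul_mul_comm, ← exp_add]
      refine mul_le_mul (exp_le_exp.2 ?_) ?_
        ((UTrop_ite (hd n) (a = b)).1.trans (UTrop_ite (hd n) _).2.1) (exp_pos _).le
      · have e : UTrop_sg (τ n a) * u' n = UTrop_sg a * if σ n then -u' n else u' n := by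
          rw [hτ]
          split_ifs
          · fin_cases a <;> simp [UTrop_sg]
          · rfl
        have := UTrop_sg_le a (u n - if σ n then -u' n else u' n)
        rw [e]
        linarith only [this]
      · by_cases hs : σ n ∨ σ (n + 1)
        · exact (UTrop_ite (hd n) _).2.2.trans ((h3 n hn hs).trans
            (mul_le_mul_of_nonneg_left (UTrop_ite (hd' n) _).2.1 (exp_pos _).le))
        · rw [not_or] at hs
          rw [hτ, hτ, if_neg hs.1, if_neg hs.2, Equiv.Perm.one_apply, Equiv.Perm.one_apply]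
          split_ifs
          · exact h1 n hn
          · exact h2 n hn
    have h : ∀ n ≤ p, ∀ a b, UTrop_P u d n a b ≤ exp (∑ k ∈ Finset.range n,
        (|u k - (if σ k then -u' k else u' k)| / 2 + δ k)) * UTrop_P u' d' n (τ 0 a) (τ n b) := by
      intro n
      induction n with
      | zero =>
        intro _ a b
        simp [UTrop_zero, Matrix.one_apply]
      | succ n ih =>
        intro hn a b
        rw [UTrop_succ, UTrop_succ, ← Equiv.sum_comp (τ n), ← Equiv.sum_comp (τ n).symm,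
          Finset.mul_sum, ← Equiv.sum_comp (τ n) fun k => _ * (UTrop_P u' d' n _ k * _)]
        refine Finset.sum_le_sum fun k _ => ?_
        rw [Equiv.apply_symm_apply, Finset.sum_range_succ, exp_add, mul_mul_mul_comm]
        exact mul_le_mul (ih (by omega) a k) (hm n hn k b) (UTrop_mat0 _ (hd n) _ _)
          (mul_nonneg (exp_pos _).le (UTrop_P0 u' hd' n _ _))
    have e : τ p = τ 0 := by simp only [hτ, hσ]
    rw [UTrop_trc, UTrop_trc, ← Equiv.sum_comp (τ 0) fun a => UTrop_P u' d' p a a, Finset.mul_sum]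
    refine Finset.sum_le_sum fun a _ => ?_
    have := h p le_rfl a a
    rwa [e] at this

theorem abs_sub_log {T r : ℝ} (hT : 0 ≤ T) (h : 2 * cosh (T / 2) = r) :
    |T - 2 * log r| ≤ 2 * log 2 := by
    have h1 := exp_pos (-(T / 2))
    have h2 : exp (-(T / 2)) ≤ exp (T / 2) := exp_le_exp.2 (by linarith only [hT])
    have h3 : |log (cosh (T / 2)) - T / 2| ≤ -log 2⁻¹ := by
      refine UTrop_log (by norm_num) ?_ ?_ <;> rw [cosh_eq] <;> linarith only [h1, h2]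
    have h4 : log (cosh (T / 2)) ≤ T / 2 := by
      rw [log_le_iff_le_exp (cosh_pos _), cosh_eq]
      linarith only [h2]
    rw [log_inv, neg_neg, abs_le] at h3
    rw [← h, log_mul two_ne_zero (cosh_pos _).ne', abs_le]
    have := log_pos one_lt_two
    constructor <;> linarith only [h4, h3, this, h3.1]

end HRT
end

-- merged part: Pool.Agent.Work.MP_35beee_gt.ULoc
section
/-!
Feet of perpendiculars and distances in a pair of pants.

Plan. Write `A`, `B`, `C` for `qch` and `A'`, `B'` for `qsh` of `a`, `b`, `c`, and `T = TT a b = C + A B`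
(`Frame.lift`). For `ξ` an end of the axis of `a`: `B (qv a) ξ = 0` and
`B (cr (qv a) v) ξ = ± A' * B v ξ`. `xp_eq_ft`: `side m ξ ^ 2` is a fixed multiple of
`B m.src ξ * B m.tgt ξ` for null `ξ` (`GNest_sq`). `Frame.ft_eq`: `Frame.lift`.
`pair`: `Face.TT_eq` gives `2 A' B' cosh (d / 2) ^ 2 = C + cosh ((tl a + tl b) / 2)` and
`2 A' B' sinh (d / 2) ^ 2 = C + cosh ((tl a - tl b) / 2)`; `cosh (x + y) ≤ exp (2 y) cosh (x - y)`.
`self`: `TT_conj` gives `A' ^ 2 cosh (d / 2) ^ 2 = (T - A' B') (T + A' B')` and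
`A' ^ 2 sinh (d / 2) ^ 2 = (T - A' B) (T + A' B)` with `T ∓ A' B = C + B exp (∓ tl a / 2)`; the
difference of the two is `A' ^ 2`, and `T - A' B ≥ 1`, `T + A' B ≥ A'`. The pair `a`, `b * a * b⁻¹`
is a face (`Frame.face_conj`, conjugate by `b`). `self_ft`: `qv (b * a * b⁻¹) = lin b (qv a)` is a
combination of `qv a`, `qv b`, `cr (qv a) (qv b)`; so `exp (2 * (ft a (b * a * b⁻¹) - ft a b))` is
`(C + B exp (-tl a / 2)) / (C + B exp (tl a / 2))` (or the inverse).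
-/

namespace HRT

open Set Real

/-- The position on the axis of `a` of the foot of the perpendicular from `b`. -/
noncomputable def ft (a b : Isom) : ℝ := fer (ax a) (qv b)

variable {a b c : Isom}

theorem ULoc_neg (ha : Hyp a) (h : Face a b ∨ Face a⁻¹ b) :
    NoFix b ∧ B (qv b) (ax a).src.1 < 0 ∧ B (qv b) (ax a).tgt.1 < 0 := by
  rw [← ha.lo_eq, ← ha.hi_eq]
  rcases h with h | h
  · exact ⟨h.2.1, h.symm.ins_hi, h.symm.ins_lo⟩
  · have h1 := h.symm.ins_lo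
    have h2 := h.symm.ins_hi
    rw [ha.noFix.lo_inv] at h1
    rw [ha.noFix.hi_inv] at h2
    exact ⟨h.2.1, h1, h2⟩

theorem xp_eq_ft (ha : Hyp a) (hb : Hyp b) (h : Face a b ∨ Face a⁻¹ b) :
    xp (ax a) (ax b) = ft a b := by
  obtain ⟨-, h1, h2⟩ := ULoc_neg ha h
  have hs := hb.qsh_pos
  rw [ft, fer]
  rw [PObj_hyp hb] at h1 h2 ⊢
  rw [PObj_hyp hb]
  have h3 : side (ax b) (ax a).src.1 ≠ 0 := right_ne_zero_of_mul h1.ne
  have h4 : side (ax b) (ax a).tgt.1 ≠ 0 := right_ne_zero_of_mul h2.ne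
  obtain ⟨x1, x2⟩ := GFermi_ne h3
  obtain ⟨y1, y2⟩ := GFermi_ne h4
  have e1 := GFermi_norm (ax b) (ax a).src.1
  have e2 := GFermi_norm (ax b) (ax a).tgt.1
  rw [(ax a).src.2.1] at e1
  rw [(ax a).tgt.2.1] at e2
  have e3 : (qsh b * side (ax b) (ax a).src.1 / (qsh b * side (ax b) (ax a).tgt.1)) ^ 2 =
      B (ax a).src.1 (ax b).src.1 / B (ax a).tgt.1 (ax b).src.1 *
        (B (ax a).src.1 (ax b).tgt.1 / B (ax a).tgt.1 (ax b).tgt.1) := by
    field_simp
    linear_combination (side (ax b) (ax a).tgt.1 ^ 2 / 2) * e1 -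
      (side (ax b) (ax a).src.1 ^ 2 / 2) * e2
  have e4 := congrArg log e3
  rw [log_pow, log_mul (div_ne_zero x1 y1) (div_ne_zero x2 y2)] at e4
  rw [xp, fer, fer, B_comm (ax b).src.1, B_comm (ax b).src.1, B_comm (ax b).tgt.1,
    B_comm (ax b).tgt.1]
  push_cast at e4
  linarith only [e4]

theorem ft_inv_left (ha : Hyp a) (b : Isom) : ft a⁻¹ b = -ft a b := by
  rw [ft, ft, ha.ax_inv, fer, fer, Geo.src_rev, Geo.tgt_rev,
    ← inv_div (B _ (ax a).src.1), log_inv, neg_div]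

theorem ft_inv_right (a : Isom) (hb : NoFix b) : ft a b⁻¹ = ft a b := by
  rw [ft, ft, hb.qv_inv, fer, fer, B_neg_left, B_neg_left, neg_div_neg_eq]

theorem ft_conj (ha : Hyp a) (h : Face a b ∨ Face a⁻¹ b) (A : Isom) :
    ft (A * a * A⁻¹) (A * b * A⁻¹) = ft a b + sh A (ax a) := by
  obtain ⟨hb, h1, h2⟩ := ULoc_neg ha h
  rw [ft, ft, ha.ax_conj, hb.qv_conj, GFermi_lin A _ h1.ne h2.ne]

theorem ULoc_ft (ha : Hyp a) (h : Face a b ∨ Face a⁻¹ b) {g : Isom} (hg : g • ax a = ax a) :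
    ft a (g * b * g⁻¹) = ft a b + sh g (ax a) := by
  rw [← ft_conj ha h, ft, ft, ha.ax_conj, hg]

theorem ft_trans (ha : Hyp a) (h : Face a b ∨ Face a⁻¹ b) (s : ℝ) :
    ft a (trans (ax a) s * b * (trans (ax a) s)⁻¹) = ft a b + s := by
  rw [ULoc_ft ha h (trans_smul _ s), sh_trans]

theorem ft_zpow (ha : Hyp a) (h : Face a b ∨ Face a⁻¹ b) (n : ℤ) :
    ft a (a ^ n * b * (a ^ n)⁻¹) = ft a b + n * tl a := by
  rw [ULoc_ft ha h (ha.zpow_smul_ax n), ha.sh_zpow]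

theorem ULoc_ends (ha : Hyp a) (v : V) : B (qv a) (ax a).src.1 = 0 ∧ B (qv a) (ax a).tgt.1 = 0 ∧
    B (cr (qv a) v) (ax a).src.1 = qsh a * B v (ax a).src.1 ∧
    B (cr (qv a) v) (ax a).tgt.1 = -(qsh a * B v (ax a).tgt.1) := by
  have h0 := (ax a).B_neg.ne
  have key : ∀ ξ, B (cr (qv a) v) ξ = qsh a * (-B (ax a).src.1 (ax a).tgt.1)⁻¹ *
      (B v (ax a).tgt.1 * B (ax a).src.1 ξ - B v (ax a).src.1 * B (ax a).tgt.1 ξ) := fun ξ => by
    rw [ha.qv_eq, nrm, smul_smul, GQuat_cr_smul, cr_cr, B_comm _ v, B_comm _ v]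
    simp only [B_smul_left, B_sub_left]
  refine ⟨by rw [PObj_hyp ha, side_src, mul_zero], by rw [PObj_hyp ha, side_tgt, mul_zero], ?_, ?_⟩
  · rw [key, (ax a).src.2.1, B_comm (ax a).tgt.1]
    field_simp
    ring
  · rw [key, (ax a).tgt.2.1]
    field_simp
    ring

theorem ULoc_ratio {l : Geo} {v w : V} {x y : ℝ} (hx : x ≠ 0) (hy : y ≠ 0) (h1 : B w l.src.1 ≠ 0)
    (h2 : B w l.tgt.1 ≠ 0) (e1 : B v l.src.1 = x * B w l.src.1)
    (e2 : B v l.tgt.1 = y * B w l.tgt.1) : fer l v - fer l w = log (x / y) / 2 := by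
  rw [fer, fer, e1, e2, mul_div_mul_comm, log_mul (div_ne_zero hx hy) (div_ne_zero h1 h2)]
  ring

theorem Frame.ft_eq (h : Frame a b c) (ha : Hyp a) : ft a c = ft a b + tl a / 2 := by
  obtain ⟨-, h1, h2⟩ := ULoc_neg ha (Or.inl h.2.1)
  obtain ⟨e1, e2, e3, e4⟩ := ULoc_ends ha (qv b)
  have e5 := ULoc_ratio (l := ax a) (v := qv c) (exp_pos (tl a / 2)).ne'
    (exp_pos (-(tl a / 2))).ne' h1.ne h2.ne
    (by rw [h.lift.2, ← cosh_add_sinh]; simp only [B_add_left, B_smul_left, e1, e3, qch, qsh]; ring)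
    (by rw [h.lift.2, ← cosh_sub_sinh]; simp only [B_add_left, B_smul_left, e2, e4, qch, qsh]; ring)
  rw [← exp_sub, log_exp] at e5
  rw [ft, ft]
  linarith only [e5]

/-- A family of frames whose lengths are tropical functions of the coordinates. -/
structure FrFam {X E : Type*} [NormedAddCommGroup E] [NormedSpace ℝ E] (S : Set X) (co : X → E)
    (a b c : X → Isom) : Prop where
  fr : ∀ x, Frame (a x) (b x) (c x)
  hyp : ∀ x, Hyp (a x)
  low : ∃ ε > 0, ∀ x ∈ S, ε ≤ tl (a x)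
  ta : Trop S co fun x => tl (a x)
  tb : Trop S co fun x => tl (b x)
  tc : Trop S co fun x => tl (c x)

variable {X E : Type*} [NormedAddCommGroup E] [NormedSpace ℝ E] {S : Set X} {co : X → E}

theorem ULoc_cosh (u : ℝ) {w : ℝ} (hw : 0 ≤ w) : cosh (u + w) ≤ exp w * cosh u := by
  have h : exp (-(u + w)) ≤ exp w * exp (-u) := by
    rw [← exp_add]
    exact exp_le_exp.2 (by linarith)
  rw [cosh_eq, cosh_eq, exp_add]
  linarith only [h]

theorem ULoc_T (h : Frame a b c) :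
    TT a b + qsh a * qsh b = qch c + cosh (tl a / 2 + tl b / 2) ∧
      TT a b - qsh a * qsh b = qch c + cosh (tl a / 2 - tl b / 2) ∧
      TT a b + qsh a * qch b = qch c + qch b * exp (tl a / 2) ∧
      TT a b - qsh a * qch b = qch c + qch b * exp (-(tl a / 2)) := by
  rw [h.lift.1, cosh_add, cosh_sub, ← cosh_add_sinh, ← cosh_sub_sinh]
  simp only [qch, qsh]
  refine ⟨?_, ?_, ?_, ?_⟩ <;> ring

theorem ULoc_half (d : ℝ) :
    cosh d = 2 * cosh (d / 2) ^ 2 - 1 ∧ cosh d = 2 * sinh (d / 2) ^ 2 + 1 := by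
  have h1 := cosh_two_mul (d / 2)
  have h2 := cosh_sq (d / 2)
  rw [mul_div_cancel₀ d two_ne_zero] at h1
  constructor <;> linarith only [h1, h2]

theorem ULoc_sinh (h : Face a b) (ha : Hyp a) (hb : Hyp b) : 0 ≤ sinh (ldist (ax a) (ax b) / 2) :=
  sinh_nonneg_iff.2 (div_nonneg (ldist_nonneg (h.not_cross ha hb)) zero_le_two)

theorem ULoc_pair (h : Frame a b c) (ha : Hyp a) (hb : Hyp b) :
    cosh (ldist (ax a) (ax b) / 2) ^ 2 =
        (qch c + cosh (tl a / 2 + tl b / 2)) / (2 * qsh a * qsh b) ∧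
      sinh (ldist (ax a) (ax b) / 2) ^ 2 =
        (qch c + cosh (tl a / 2 - tl b / 2)) / (2 * qsh a * qsh b) ∧
      0 ≤ sinh (ldist (ax a) (ax b) / 2) := by
  obtain ⟨e1, e2, -, -⟩ := ULoc_T h
  obtain ⟨e3, e4⟩ := ULoc_half (ldist (ax a) (ax b))
  have hp : 2 * qsh a * qsh b ≠ 0 := by have := ha.qsh_pos; have := hb.qsh_pos; positivity
  rw [h.2.1.TT_eq ha hb] at e1 e2
  refine ⟨eq_div_of_mul_eq hp ?_, eq_div_of_mul_eq hp ?_, ULoc_sinh h.2.1 ha hb⟩
  · linear_combination e1 - qsh a * qsh b * e3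
  · linear_combination e2 - qsh a * qsh b * e4

theorem ULoc_self (h : Frame a b c) (ha : Hyp a) :
    cosh (ldist (ax a) (ax (b * a * b⁻¹)) / 2) ^ 2 = (qch c + cosh (tl a / 2 - tl b / 2)) *
        (qch c + cosh (tl a / 2 + tl b / 2)) / (qsh a * qsh a) ∧
      sinh (ldist (ax a) (ax (b * a * b⁻¹)) / 2) ^ 2 = (qch c + qch b * exp (-(tl a / 2))) *
        (qch c + qch b * exp (tl a / 2)) / (qsh a * qsh a) ∧
      0 ≤ sinh (ldist (ax a) (ax (b * a * b⁻¹)) / 2) := by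
  obtain ⟨e1, e2, e3, e4⟩ := ULoc_T h
  obtain ⟨e5, e6⟩ := ULoc_half (ldist (ax a) (ax (b * a * b⁻¹)))
  have hf : Face a (b * a * b⁻¹) := by
    have := (h.face_conj.1.conj b).symm
    rwa [show b * (b⁻¹ * a * b) * b⁻¹ = a by group] at this
  have hp : qsh a * qsh a ≠ 0 := by have := ha.qsh_pos; positivity
  have e7 := TT_conj ha.noFix h.2.1.2.1
  have e8 := qch_sq b
  rw [hf.TT_eq ha (ha.conj b), qsh_conj] at e7
  rw [← e1, ← e2, ← e3, ← e4]
  refine ⟨eq_div_of_mul_eq hp ?_, eq_div_of_mul_eq hp ?_, ULoc_sinh hf ha (ha.conj b)⟩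
  · linear_combination (1 / 2) * e7 - (1 / 2) * qsh a ^ 2 * e5
  · linear_combination (1 / 2) * e7 - (1 / 2) * qsh a ^ 2 * e6 + qsh a ^ 2 * e8

theorem ULoc_self_ft (h : Frame a b c) (ha : Hyp a) : ft a (b * a * b⁻¹) - ft a b =
    log ((qch c + qch b * exp (-(tl a / 2))) / (qch c + qch b * exp (tl a / 2))) / 2 := by
  obtain ⟨hb, h1, h2⟩ := ULoc_neg ha (Or.inl h.2.1)
  obtain ⟨e1, e2, e3, e4⟩ := ULoc_ends ha (qv b)
  obtain ⟨-, -, e5, e6⟩ := ULoc_T h
  have hB := one_le_qch b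
  have hC := one_le_qch c
  have e7 : ∀ ξ, B (qv (b * a * b⁻¹)) ξ = (qch b ^ 2 + B (qv b) (qv b)) * B (qv a) ξ -
      2 * qch b * B (cr (qv a) (qv b)) ξ + 2 * TT a b * B (qv b) ξ := fun ξ => by
    rw [ha.noFix.qv_conj, hb.isLift_qv.2, qm, cr_anti, TT, B_comm (qv a) (qv b)]
    simp only [B_add_left, B_sub_left, B_smul_left, B_neg_left]
    ring
  rw [← mul_div_mul_left (qch c + _) _ (two_ne_zero (α := ℝ))]
  refine ULoc_ratio (by positivity) (by positivity) h1.ne h2.ne ?_ ?_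
  · rw [e7, e1, e3, ← e6]
    ring
  · rw [e7, e2, e4, ← e5]
    ring

theorem Frame.coth_pair (h : Frame a b c) (ha : Hyp a) (hb : Hyp b) :
    cosh (ldist (ax a) (ax b) / 2) ≤ exp (tl a) * sinh (ldist (ax a) (ax b) / 2) ∧
      cosh (ldist (ax a) (ax b) / 2) ≤ exp (tl b) * sinh (ldist (ax a) (ax b) / 2) := by
  obtain ⟨e1, e2, e3⟩ := ULoc_pair h ha hb
  have hC := one_le_qch c
  have hp : 0 < 2 * qsh a * qsh b := by have := ha.qsh_pos; have := hb.qsh_pos; positivity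
  have key : ∀ u w : ℝ, 0 ≤ w → cosh (tl a / 2 - tl b / 2) = cosh u →
      tl a / 2 + tl b / 2 = u + w → cosh (ldist (ax a) (ax b) / 2) ≤
        exp w * sinh (ldist (ax a) (ax b) / 2) := fun u w hw e4 e5 => by
    have h1 := one_le_exp hw
    have h2 := ULoc_cosh u hw
    have h3 := one_le_cosh u
    refine le_of_sq_le_sq ?_ (mul_nonneg (exp_pos w).le e3)
    rw [mul_pow, e1, e2, e4, e5, ← mul_div_assoc]
    refine div_le_div_of_nonneg_right ?_ hp.le
    have h4 : exp w ≤ exp w ^ 2 := by clear * - w h1; linarith only [h1, mul_nonneg_of_nonpos_of_nonpos (Mathlib.Tactic.Linarith.sub_nonpos_of_le h1) (Mathlib.Tactic.Linarith.sub_nonpos_of_le h1)]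
    clear * - c u w h1 h2 h4 hC h3
    linarith only [h1, h2, h4, hC, h3, mul_nonneg_of_nonpos_of_nonpos (Mathlib.Tactic.Linarith.sub_nonpos_of_le hC) (Mathlib.Tactic.Linarith.sub_nonpos_of_le h1), mul_nonneg_of_nonpos_of_nonpos (Mathlib.Tactic.Linarith.sub_nonpos_of_le hC) (Mathlib.Tactic.Linarith.sub_nonpos_of_le h4), mul_nonneg_of_nonpos_of_nonpos (Mathlib.Tactic.Linarith.sub_nonpos_of_le h3) (Mathlib.Tactic.Linarith.sub_nonpos_of_le h4)]
  exact ⟨key (tl b / 2 - tl a / 2) _ ha.le (by rw [← cosh_neg, neg_sub]) (by ring),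
    key _ _ hb.le rfl (by ring)⟩

theorem Frame.coth_self (h : Frame a b c) (ha : Hyp a) :
    cosh (ldist (ax a) (ax (b * a * b⁻¹)) / 2) ≤
      exp (tl a) * sinh (ldist (ax a) (ax (b * a * b⁻¹)) / 2) := by
  obtain ⟨-, e2, e3⟩ := ULoc_self h ha
  have hB := one_le_qch b
  have hC := one_le_qch c
  have hA := ha.qsh_pos
  have h1 : qsh a + 1 ≤ exp (tl a / 2) := by
    have := one_le_cosh (tl a / 2)
    rw [← cosh_add_sinh, qsh]
    linarith only [this]
  have h2 : exp (tl a / 2) ≤ exp (tl a) ^ 2 := by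
    rw [← exp_nat_mul]
    exact exp_le_exp.2 (by have : 0 < tl a := ha; push_cast; linarith only [this])
  have h3 : 1 ≤ qch c + qch b * exp (-(tl a / 2)) :=
    le_add_of_le_of_nonneg hC (by positivity)
  have h4 : qsh a ≤ qch c + qch b * exp (tl a / 2) := by linarith only [hB, hC, h1, hA, exp_pos (tl a / 2), mul_nonneg_of_nonpos_of_nonpos (Mathlib.Tactic.Linarith.sub_nonpos_of_le hB) (le_of_lt (Mathlib.Tactic.Linarith.sub_neg_of_lt hA)), mul_nonneg_of_nonpos_of_nonpos (Mathlib.Tactic.Linarith.sub_nonpos_of_le hB) (Mathlib.Tactic.Linarith.sub_nonpos_of_le h1)]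
  have h5 : 1 ≤ qsh a * sinh (ldist (ax a) (ax (b * a * b⁻¹)) / 2) ^ 2 := by
    rw [e2, ← mul_div_assoc, mul_div_mul_left _ _ hA.ne', one_le_div hA]
    clear * - a c b hB hC h1 hA h3 h4
    linarith only [hB, hC, h1, hA, h3, h4, mul_nonneg_of_nonpos_of_nonpos (Mathlib.Tactic.Linarith.sub_nonpos_of_le hB) (le_of_lt (Mathlib.Tactic.Linarith.sub_neg_of_lt hA)), mul_nonneg_of_nonpos_of_nonpos (Mathlib.Tactic.Linarith.sub_nonpos_of_le hB) (Mathlib.Tactic.Linarith.sub_nonpos_of_le h1), mul_nonneg_of_nonpos_of_nonpos (le_of_lt (Mathlib.Tactic.Linarith.sub_neg_of_lt hA)) (Mathlib.Tactic.Linarith.sub_nonpos_of_le h3), mul_nonneg_of_nonpos_of_nonpos (Mathlib.Tactic.Linarith.sub_nonpos_of_le h3) (Mathlib.Tactic.Linarith.sub_nonpos_of_le h4)]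
  refine le_of_sq_le_sq ?_ (mul_nonneg (exp_pos _).le e3)
  rw [cosh_sq, mul_pow]
  clear * - a b h5 h1 h2
  linarith only [h5, h1, h2, sq_nonneg (sinh (ldist (ax a) (ax (b * a * b⁻¹)) / 2)), mul_nonneg_of_nonpos_of_nonpos (Mathlib.Tactic.Linarith.sub_nonpos_of_le (sq_nonneg ((1 : ℝ) * sinh (ldist (ax a) (ax (b * a * b⁻¹)) / (2 : ℝ))))) (Mathlib.Tactic.Linarith.sub_nonpos_of_le h1), mul_nonneg_of_nonpos_of_nonpos (Mathlib.Tactic.Linarith.sub_nonpos_of_le (sq_nonneg ((1 : ℝ) * sinh (ldist (ax a) (ax (b * a * b⁻¹)) / (2 : ℝ))))) (Mathlib.Tactic.Linarith.sub_nonpos_of_le h2)]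

theorem Frame.abs_ft_self (h : Frame a b c) (ha : Hyp a) :
    |ft a (b * a * b⁻¹) - ft a b| ≤ tl a := by
  have hB := one_le_qch b
  have hC := one_le_qch c
  have hL : 0 < tl a := ha
  have h1 : exp (-(tl a / 2)) ≤ exp (tl a / 2) := exp_le_exp.2 (by linarith only [hL])
  have h2 : exp (-tl a) * exp (tl a / 2) = exp (-(tl a / 2)) := by
    rw [← exp_add]
    congr 1
    ring
  have h3 : exp (-tl a) ≤ 1 := exp_le_one_iff.2 (by linarith)
  have h4 : log ((qch c + qch b * exp (-(tl a / 2))) / (qch c + qch b * exp (tl a / 2))) ≤ 0 :=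
    log_nonpos (by positivity) ((div_le_one (by positivity)).2 (by linarith only [h1, hB, mul_nonneg_of_nonpos_of_nonpos (Mathlib.Tactic.Linarith.sub_nonpos_of_le hB) (Mathlib.Tactic.Linarith.sub_nonpos_of_le h1)]))
  have h5 : -tl a ≤
      log ((qch c + qch b * exp (-(tl a / 2))) / (qch c + qch b * exp (tl a / 2))) := by
    clear * - a c b hC hB h2 h3
    rw [le_log_iff_exp_le (by positivity), le_div_iff₀ (by positivity), ← h2]
    linarith only [h3, hC, mul_nonneg_of_nonpos_of_nonpos (Mathlib.Tactic.Linarith.sub_nonpos_of_le hC) (Mathlib.Tactic.Linarith.sub_nonpos_of_le h3)]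
  rw [ULoc_self_ft h ha, abs_le]
  constructor <;> linarith only [hL, h5, h4]

theorem FrFam.pair {a b c : X → Isom} (h : FrFam S co a b c) {ε : ℝ} (hε : 0 < ε)
    (hb : ∀ x ∈ S, ε ≤ tl (b x)) :
    (MT S co fun x => cosh (ldist (ax (a x)) (ax (b x)) / 2)) ∧
      MT S co fun x => sinh (ldist (ax (a x)) (ax (b x)) / 2) := by
  obtain ⟨δ, hδ, ha⟩ := h.low
  have hA := (h.ta.div_const 2).sinh (half_pos hδ) fun x hx => by linarith only [ha, hx, ha x hx]
  have hB := (h.tb.div_const 2).sinh (half_pos hε) fun x hx => by linarith [hb x hx]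
  have hC := (h.tc.div_const 2).cosh
  have hD := ((MT.const two_pos).mul hA).mul hB
  have e := fun x (hx : x ∈ S) => ULoc_pair (h.fr x) (h.hyp x) (hε.trans_le (hb x hx))
  exact ⟨(((hC.add ((h.ta.div_const 2).add (h.tb.div_const 2)).cosh).div hD).congr
      fun x hx => (e x hx).1).of_sq fun x _ => (cosh_pos _).le,
    (((hC.add ((h.ta.div_const 2).sub (h.tb.div_const 2)).cosh).div hD).congr
      fun x hx => (e x hx).2.1).of_sq fun x hx => (e x hx).2.2⟩

theorem FrFam.self {a b c : X → Isom} (h : FrFam S co a b c) :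
    (MT S co fun x => cosh (ldist (ax (a x)) (ax (b x * a x * (b x)⁻¹)) / 2)) ∧
      MT S co fun x => sinh (ldist (ax (a x)) (ax (b x * a x * (b x)⁻¹)) / 2) := by
  obtain ⟨δ, hδ, ha⟩ := h.low
  have hA := (h.ta.div_const 2).sinh (half_pos hδ) fun x hx => by linarith only [ha, hx, ha x hx]
  have hB := (h.tb.div_const 2).cosh
  have hC := (h.tc.div_const 2).cosh
  have e := fun x => ULoc_self (h.fr x) (h.hyp x)
  exact ⟨((((hC.add ((h.ta.div_const 2).sub (h.tb.div_const 2)).cosh).mul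
      (hC.add ((h.ta.div_const 2).add (h.tb.div_const 2)).cosh)).div (hA.mul hA)).congr
      fun x _ => (e x).1).of_sq fun x _ => (cosh_pos _).le,
    ((((hC.add (hB.mul (h.ta.div_const 2).neg.exp)).mul
      (hC.add (hB.mul (h.ta.div_const 2).exp))).div (hA.mul hA)).congr
      fun x _ => (e x).2.1).of_sq fun x _ => (e x).2.2⟩

theorem FrFam.self_ft {a b c : X → Isom} (h : FrFam S co a b c) :
    Trop S co fun x => ft (a x) (b x * a x * (b x)⁻¹) - ft (a x) (b x) := by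
  have hB := (h.tb.div_const 2).cosh
  have hC := (h.tc.div_const 2).cosh
  simp only [fun x => ULoc_self_ft (h.fr x) (h.hyp x)]
  exact ((hC.add (hB.mul (h.ta.div_const 2).neg.exp)).div
    (hC.add (hB.mul (h.ta.div_const 2).exp))).2.div_const 2

end HRT
end

-- merged part: Pool.Agent.Work.MP_35beee_gt.VAsym
section
/-!
Asymptotics of the trace formula when all twists are shifted by the same large amount.

Plan. `trc_poly`: put `q = exp (-τ)`; `mat (τ + h) d = exp (τ / 2) • (M₀ + q • M₁)` where `M₀` is the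
first row of `mat h d` and `M₁` the second row. By induction on `p` (`UTrop_succ`) the entries of the
product of the matrices `M₀ + q • M₁` for `q` in `[0, 1]` satisfy: entry `0 0` lies between
`a + a' * q` and `a + C * q` with `a = ∏ exp (h n / 2) * cosh (d n / 2)`, entry `0 1` lies between a
positive constant and a constant, entries `1 0` and `1 1` lie between `c * q` and `C * q`. For `p = 1`
compute directly: the trace is `a + a' * q` with `a * a' = cosh (d 0 / 2) ^ 2 > 1`.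
`trc_asym`: `Z = exp (L / 2 - p * τ / 2)` satisfies `Z + q ^ p / Z = W`; so `Z ≤ W ≤ a + C * q`;
from `L ≥ 0` one gets `q ^ p / Z ≤ Z`, so `Z ≥ a / 2`, then
`Z ≥ a - 2 * q / a`, and finally `Z ≥ a + a' * q - q ^ p / Z ≥ a + r * q` for small `q`. Take `log`.
`shift_le`, `shift_eq`: apply `trc_asym` to both sequences; the difference
`s * (L n / 2 - p * (τ + n * l) / 2) - (s * L n / 2 - p * (τ' + n * (s * l)) / 2)` does not depend on
`n`; let `n` tend to infinity.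
-/

namespace HRT

open Real

theorem VAsym_mat (h : ℝ) {d : ℝ} (hd : 0 < d) : ∃ A B A' B' : ℝ, 0 < A ∧ 0 < B ∧ 0 < A' ∧ 0 < B' ∧
    1 < A * A' ∧ ∀ τ : ℝ, mat (τ + h) d 0 0 = exp (τ / 2) * A ∧ mat (τ + h) d 0 1 = exp (τ / 2) * B ∧
      mat (τ + h) d 1 0 = exp (τ / 2) * (exp (-τ) * B') ∧
        mat (τ + h) d 1 1 = exp (τ / 2) * (exp (-τ) * A') := by
  have h1 : 0 < sinh (d / 2) := sinh_pos_iff.2 (half_pos hd)
  have h2 : 1 < cosh (d / 2) := one_lt_cosh.2 (half_pos hd).ne'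
  refine ⟨exp (h / 2) * cosh (d / 2), exp (h / 2) * sinh (d / 2), exp (-(h / 2)) * cosh (d / 2),
    exp (-(h / 2)) * sinh (d / 2), by positivity, by positivity, by positivity, by positivity,
    ?_, fun τ => ?_⟩
  · rw [mul_mul_mul_comm, ← exp_add, add_neg_cancel, exp_zero, one_mul]
    exact one_lt_mul_of_lt_of_le h2 h2.le
  · have e1 : exp ((τ + h) / 2) = exp (τ / 2) * exp (h / 2) := by rw [add_div, exp_add]
    have e2 : exp (-((τ + h) / 2)) = exp (τ / 2) * (exp (-τ) * exp (-(h / 2))) := by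
      rw [← exp_add, ← exp_add]
      congr 1
      ring
    simp only [mat, e1, e2, mul_assoc, Matrix.of_apply, Matrix.cons_val', Matrix.cons_val_zero,
      Matrix.cons_val_one, Matrix.cons_val_fin_one, and_self]

theorem VAsym_prod (h : ℕ → ℝ) {d : ℕ → ℝ} (hd : ∀ n, 0 < d n) (p : ℕ) :
    ∃ a c C : ℝ, 0 < a ∧ 0 < c ∧ ∀ τ : ℝ, 0 ≤ τ → ∃ x y z w : ℝ,
      (UTrop_P (fun n => τ + h n) d (p + 1) 0 0 = exp ((p + 1) * τ / 2) * (a + x * exp (-τ)) ∧
        UTrop_P (fun n => τ + h n) d (p + 1) 0 1 = exp ((p + 1) * τ / 2) * y ∧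
        UTrop_P (fun n => τ + h n) d (p + 1) 1 0 = exp ((p + 1) * τ / 2) * (z * exp (-τ)) ∧
        UTrop_P (fun n => τ + h n) d (p + 1) 1 1 = exp ((p + 1) * τ / 2) * (w * exp (-τ))) ∧
      (0 ≤ x ∧ 0 ≤ y ∧ c ≤ z ∧ c ≤ w) ∧ x + y + z + w ≤ C := by
  induction p with
  | zero =>
    obtain ⟨A, B, A', B', hA, hB, hA', hB', -, hm⟩ := VAsym_mat (h 0) (hd 0)
    refine ⟨A, min A' B', B + B' + A', hA, lt_min hA' hB', fun τ _ => ⟨0, B, B', A', ?_,
      ⟨le_rfl, hB.le, min_le_right _ _, min_le_left _ _⟩, by rw [zero_add]⟩⟩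
    obtain ⟨e1, e2, e3, e4⟩ := hm τ
    simp [UTrop_succ, UTrop_zero, Matrix.one_apply, e1, e2, e3, e4, mul_comm]
  | succ p ih =>
    obtain ⟨A, B, A', B', hA, hB, hA', hB', -, hm⟩ := VAsym_mat (h (p + 1)) (hd (p + 1))
    obtain ⟨a, c, C, ha, hc, ih⟩ := ih
    refine ⟨a * A, c * min A B, a * B + C * (A + B + A' + B'), mul_pos ha hA,
      mul_pos hc (lt_min hA hB), fun τ hτ => ?_⟩
    obtain ⟨x, y, z, w, ⟨f1, f2, f3, f4⟩, ⟨hx, hy, hz, hw⟩, hC⟩ := ih τ hτ
    obtain ⟨e1, e2, e3, e4⟩ := hm τ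
    have q0 := exp_pos (-τ)
    have q1 : exp (-τ) ≤ 1 := exp_le_one_iff.2 (neg_nonpos.2 hτ)
    have e : exp ((((p + 1 : ℕ) : ℝ) + 1) * τ / 2) = exp ((p + 1) * τ / 2) * exp (τ / 2) := by
      rw [← exp_add]
      congr 1
      push_cast
      ring
    have hz0 := hc.trans_le hz
    have hw0 := hc.trans_le hw
    refine ⟨x * A + y * B', (a + x * exp (-τ)) * B + y * exp (-τ) * A', z * A + w * exp (-τ) * B',
      z * B + w * exp (-τ) * A', ?_, ⟨by positivity, by positivity, ?_, ?_⟩, ?_⟩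
    · simp only [UTrop_succ _ _ (p + 1), Fin.sum_univ_two, e, e1, e2, e3, e4, f1, f2, f3, f4]
      refine ⟨?_, ?_, ?_, ?_⟩ <;> ring
    · exact (mul_le_mul hz (min_le_left _ _) (lt_min hA hB).le hz0.le).trans
        (le_add_of_nonneg_right (by positivity))
    · exact (mul_le_mul hz (min_le_right _ _) (lt_min hA hB).le hz0.le).trans
        (le_add_of_nonneg_right (by positivity))
    · generalize exp (-τ) = q at q0 q1
      calc _ ≤ x * A + y * B' + ((a + x * 1) * B + y * 1 * A') + (z * A + w * 1 * B') +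
            (z * B + w * 1 * A') := by clear * - x A y B' a q B A' z w q1 hx hB hy hA' hw0 hB'; gcongr
        _ ≤ a * B + (x + y + z + w) * (A + B + A' + B') := by
          have : 0 ≤ (x + z) * (A' + B') + (y + w) * (A + B) := by positivity
          linarith only [this]
        _ ≤ _ := by gcongr

theorem VAsym_small {p : ℕ} (hp : 0 < p) {a a' : ℝ} (ha : 0 < a) (ha' : 0 < a')
    (h1 : p = 1 → 1 < a * a') : ∃ b t : ℝ, b < a' ∧ 0 < t ∧ ∀ q Y Z : ℝ, 0 < q → q ≤ t → 0 < Y →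
      Y ≤ Z → a ≤ Z + Y → Y * Z = q ^ p → Y ≤ b * q := by
  have key : ∀ q Y Z : ℝ, 0 < Y → Y ≤ Z → a ≤ Z + Y → Y * Z = q → Y ≤ 2 / a * q := by
    intro q Y Z hY h2 h3 h4
    rw [div_mul_eq_mul_div, le_div_iff₀ ha, ← h4]
    linarith only [hY, h2, h3, mul_nonneg_of_nonpos_of_nonpos (le_of_lt (Mathlib.Tactic.Linarith.sub_neg_of_lt hY)) (Mathlib.Tactic.Linarith.sub_nonpos_of_le h2), mul_nonneg_of_nonpos_of_nonpos (le_of_lt (Mathlib.Tactic.Linarith.sub_neg_of_lt hY)) (Mathlib.Tactic.Linarith.sub_nonpos_of_le h3)]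
  rcases Nat.lt_or_ge 1 p with h | h
  · refine ⟨a' / 2, min 1 (a * a' / 4), half_lt_self ha', lt_min one_pos (by positivity),
      fun q Y Z hq ht hY h2 h3 h4 => (key _ Y Z hY h2 h3 h4).trans ?_⟩
    have h5 : q ^ p ≤ q ^ 2 := pow_le_pow_of_le_one hq.le (ht.trans (min_le_left _ _)) h
    have h6 : q * q ≤ a * a' / 4 * q :=
      mul_le_mul_of_nonneg_right (ht.trans (min_le_right _ _)) hq.le
    rw [div_mul_eq_mul_div, div_le_iff₀ ha]
    linarith only [h5, h6]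
  · obtain rfl : p = 1 := le_antisymm h hp
    have h5 := h1 rfl
    obtain ⟨b, hb1, hb2⟩ := exists_between ((inv_lt_iff_one_lt_mul₀' ha).2 h5)
    have hb0 := (inv_pos.2 ha).trans hb1
    have h6 : b⁻¹ < a := inv_lt_of_inv_lt₀ ha hb1
    refine ⟨b, (a - b⁻¹) / (2 / a), hb2, div_pos (sub_pos.2 h6) (by positivity),
      fun q Y Z hq ht hY h2 h3 h4 => ?_⟩
    rw [pow_one] at h4
    have h7 := key q Y Z hY h2 h3 h4
    rw [le_div_iff₀' (by positivity)] at ht
    have h8 : b⁻¹ ≤ Z := by linarith only [ht, h3, h7]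
    rw [← h4, mul_left_comm]
    exact le_mul_of_one_le_right hY.le ((inv_le_iff_one_le_mul₀' hb0).1 h8)

theorem trc_poly {p : ℕ} (hp : 0 < p) (h : ℕ → ℝ) {d : ℕ → ℝ} (hd : ∀ n, 0 < d n) :
    ∃ a a' C : ℝ, 0 < a ∧ 0 < a' ∧ (p = 1 → 1 < a * a') ∧ ∀ τ : ℝ, 0 ≤ τ →
      exp (p * τ / 2) * (a + a' * exp (-τ)) ≤ trc p (fun n => τ + h n) d ∧
        trc p (fun n => τ + h n) d ≤ exp (p * τ / 2) * (a + C * exp (-τ)) := by
    rcases Nat.lt_or_ge 1 p with h1 | h1
    · obtain ⟨p, rfl⟩ := Nat.exists_eq_add_one_of_ne_zero hp.ne'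
      obtain ⟨a, c, C, ha, hc, h2⟩ := VAsym_prod h hd p
      refine ⟨a, c, C, ha, hc, fun e => absurd e h1.ne', fun τ hτ => ?_⟩
      obtain ⟨x, y, z, w, ⟨f1, -, -, f4⟩, ⟨hx, hy, hz, hw⟩, hC⟩ := h2 τ hτ
      rw [UTrop_trc, Fin.sum_univ_two, f1, f4, ← mul_add, add_assoc, ← add_mul, Nat.cast_add,
        Nat.cast_one]
      constructor <;> gcongr <;> linarith only [hx, hw, hc, hC, hy, hz]
    · obtain rfl : p = 1 := le_antisymm h1 hp
      obtain ⟨A, B, A', B', hA, -, hA', -, h2, hm⟩ := VAsym_mat (h 0) (hd 0)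
      refine ⟨A, A', A', hA, hA', fun _ => h2, fun τ _ => ?_⟩
      obtain ⟨e1, -, -, e4⟩ := hm τ
      have e : trc 1 (fun n => τ + h n) d = exp ((1 : ℕ) * τ / 2) * (A + A' * exp (-τ)) := by
        simp [UTrop_trc, UTrop_succ, UTrop_zero, Matrix.one_apply, e1, e4, mul_add, mul_comm A']
      exact ⟨e.ge, e.le⟩

theorem trc_asym {p : ℕ} (hp : 0 < p) (h : ℕ → ℝ) {d : ℕ → ℝ} (hd : ∀ n, 0 < d n) :
    ∃ c r C T : ℝ, 0 < r ∧ ∀ τ L : ℝ, T ≤ τ → 0 ≤ L →
      2 * cosh (L / 2) = trc p (fun n => τ + h n) d →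
        r * exp (-τ) ≤ L / 2 - p * τ / 2 - c ∧ L / 2 - p * τ / 2 - c ≤ C * exp (-τ) := by
    obtain ⟨a, a', C, ha, ha', h1, h2⟩ := trc_poly hp h hd
    obtain ⟨b, t, hb, ht, h3⟩ := VAsym_small hp ha ha' h1
    have hb' := sub_pos.2 hb
    refine ⟨log a, (a' - b) / (a + (a' - b)), C / a, max 0 (-log t), by positivity,
      fun τ L hτ hL e => ?_⟩
    have hτ0 := (le_max_left _ _).trans hτ
    obtain ⟨h4, h5⟩ := h2 τ hτ0
    have q0 := exp_pos (-τ)
    have q1 : exp (-τ) ≤ 1 := exp_le_one_iff.2 (neg_nonpos.2 hτ0)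
    have q2 : exp (-τ) ≤ t := by
      rw [← le_log_iff_exp_le ht]
      linarith only [hτ, le_max_right 0 (-log t)]
    have e1 : 2 * cosh (L / 2) =
        exp (p * τ / 2) * (exp (L / 2 - p * τ / 2) + exp (-(L / 2) - p * τ / 2)) := by
      rw [mul_add, ← exp_add, ← exp_add, add_sub_cancel, add_sub_cancel, cosh_eq]
      ring
    rw [← e, e1, mul_le_mul_iff_right₀ (exp_pos _)] at h4 h5
    have hY := exp_pos (-(L / 2) - p * τ / 2)
    have h6 := h3 (exp (-τ)) _ (exp (L / 2 - p * τ / 2)) q0 q2 hY (exp_le_exp.2 (by linarith only [hL]))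
      ((le_add_of_nonneg_right (by positivity)).trans h4) (by
        rw [← exp_add, ← exp_nat_mul]
        congr 1
        ring)
    have e2 : exp (L / 2 - p * τ / 2) = a * exp (L / 2 - p * τ / 2 - log a) := by
      rw [exp_sub _ (log a), exp_log ha, mul_div_cancel₀ _ ha.ne']
    rw [e2] at h4 h5
    generalize L / 2 - p * τ / 2 - log a = u at h4 h5
    generalize exp (-τ) = q at *
    constructor
    · have h7 : a + (a' - b) * q ≤ a * exp u := by linarith only [h6, h4]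
      have h8 := mul_le_mul_of_nonneg_left (add_one_le_exp (-u)) (exp_pos u).le
      rw [← exp_add, add_neg_cancel, exp_zero] at h8
      have h9 : (a' - b) * q ≤ a' - b := mul_le_of_le_one_right hb'.le q1
      have h10 : 0 < (a' - b) * q := mul_pos hb' q0
      rw [div_mul_eq_mul_div, div_le_iff₀ (by positivity)]
      generalize (a' - b) * q = x at h7 h9 h10
      generalize a' - b = β at h9 hb'
      have h11 : 0 ≤ u := by
        rw [← one_le_exp_iff]
        exact le_of_mul_le_mul_left (by linarith only [h7, h10]) ha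
      by_contra h12
      have h13 : u * (a + x) < x :=
        (mul_le_mul_of_nonneg_left (by linarith only [h9]) h11).trans_lt (not_le.1 h12)
      have h14 : u < 1 := lt_of_mul_lt_mul_right (by linarith only [ha, h13] : u * (a + x) < 1 * (a + x))
        (by positivity)
      have h15 := mul_le_mul_of_nonneg_right h7 (sub_pos.2 h14).le
      have h16 := mul_le_mul_of_nonneg_left h8 ha.le
      linarith only [h13, h15, h16]
    · have h7 := mul_le_mul_of_nonneg_left (add_one_le_exp u) ha.le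
      rw [div_mul_eq_mul_div, le_div_iff₀ ha]
      linarith only [hY, h5, h7]

theorem VAsym_exp {l : ℝ} (hl : 0 < l) (τ : ℝ) :
    Filter.Tendsto (fun k : ℕ => τ + k * l) Filter.atTop Filter.atTop :=
  Filter.tendsto_atTop_add_const_left _ _ (tendsto_natCast_atTop_atTop.atTop_mul_const hl)

theorem VAsym_tend {l r C T τ : ℝ} (hl : 0 < l) (hr : 0 < r) {u : ℕ → ℝ}
    (h : ∀ k : ℕ, T ≤ τ + k * l → r * exp (-(τ + k * l)) ≤ u k ∧ u k ≤ C * exp (-(τ + k * l))) :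
    Filter.Tendsto u Filter.atTop (nhds 0) := by
  have h1 := (tendsto_exp_neg_atTop_nhds_zero.comp (VAsym_exp hl τ)).const_mul C
  rw [mul_zero] at h1
  have h2 := (VAsym_exp hl τ).eventually_ge_atTop T
  exact squeeze_zero' (h2.mono fun k hk => le_trans (by positivity) (h k hk).1)
    (h2.mono fun k hk => (h k hk).2) h1

theorem shift_le {p : ℕ} (hp : 0 < p) {h h' d d' : ℕ → ℝ} (hd : ∀ n, 0 < d n)
    (hd' : ∀ n, 0 < d' n) {l s τ τ' : ℝ} (hl : 0 < l) (hs : 0 < s) {L : ℕ → ℝ} (hL : ∀ n, 0 ≤ L n)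
    (e : ∀ k : ℕ, 2 * cosh (L k / 2) = trc p (fun n => τ + k * l + h n) d)
    (e' : ∀ k : ℕ, 2 * cosh (s * L k / 2) = trc p (fun n => τ' + k * (s * l) + h' n) d') :
    s ≤ 1 := by
    obtain ⟨c, r, C, T, hr, h1⟩ := trc_asym hp h hd
    obtain ⟨c', r', C', T', hr', h2⟩ := trc_asym hp h' hd'
    have hsl := mul_pos hs hl
    have h3 := fun (k : ℕ) hk => h1 (τ + k * l) (L k) hk (hL k) (e k)
    have h4 := fun (k : ℕ) hk => h2 (τ' + k * (s * l)) (s * L k) hk (mul_nonneg hs.le (hL k)) (e' k)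
    have h5 := ((VAsym_tend hl hr h3).const_mul s).sub (VAsym_tend hsl hr' h4)
    have h6 : ∀ k : ℕ, s * (L k / 2 - p * (τ + k * l) / 2 - c) -
        (s * L k / 2 - p * (τ' + k * (s * l)) / 2 - c') = p * τ' / 2 + c' - s * (p * τ / 2 + c) :=
      fun k => by ring
    simp only [h6, mul_zero, sub_zero, tendsto_const_nhds_iff] at h5
    by_contra h7
    have h8 := (tendsto_exp_neg_atTop_nhds_zero.comp
      (VAsym_exp (mul_pos (sub_pos.2 (not_le.1 h7)) hl) (τ' - τ))).const_mul C'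
    rw [mul_zero] at h8
    obtain ⟨k, k1, k2, k3⟩ := ((h8.eventually_lt_const (mul_pos hs hr)).and
      (((VAsym_exp hl τ).eventually_ge_atTop T).and
        ((VAsym_exp hsl τ').eventually_ge_atTop T'))).exists
    have h9 := mul_le_mul_of_nonneg_left (h3 k k2).1 hs.le
    have h10 := (h4 k k3).2
    have h11 := mul_lt_mul_of_pos_right k1 (exp_pos (-(τ + k * l)))
    rw [Function.comp_apply, mul_assoc, ← exp_add,
      show -(τ' - τ + k * ((s - 1) * l)) + -(τ + k * l) = -(τ' + k * (s * l)) by ring] at h11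
    linarith only [h5, h9, h10, h11, h6 k]

theorem shift_eq {p : ℕ} (hp : 0 < p) {h d : ℕ → ℝ} (hd : ∀ n, 0 < d n) {l τ τ' : ℝ} (hl : 0 < l)
    {L : ℕ → ℝ} (hL : ∀ n, 0 ≤ L n)
    (e : ∀ k : ℕ, 2 * cosh (L k / 2) = trc p (fun n => τ + k * l + h n) d)
    (e' : ∀ k : ℕ, 2 * cosh (L k / 2) = trc p (fun n => τ' + k * l + h n) d) : τ = τ' := by
    obtain ⟨c, r, C, T, hr, h1⟩ := trc_asym hp h hd
    have h2 := (VAsym_tend hl hr fun (k : ℕ) hk => h1 (τ + k * l) (L k) hk (hL k) (e k)).sub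
      (VAsym_tend hl hr fun (k : ℕ) hk => h1 (τ' + k * l) (L k) hk (hL k) (e' k))
    have h3 : ∀ k : ℕ, L k / 2 - p * (τ + k * l) / 2 - c - (L k / 2 - p * (τ' + k * l) / 2 - c) =
        p / 2 * (τ' - τ) := fun k => by ring
    simp only [h3, sub_zero, tendsto_const_nhds_iff] at h2
    exact (sub_eq_zero.1 ((mul_eq_zero.1 h2).resolve_left (by positivity))).symm

end HRT
end
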