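import Pool.Agent.Work.MP_35beee_gt.UTop
import Pool.Agent.Work.MP_35beee_gt.VAsym
import Pool.Agent.Work.MP_35beee_gt.TCell
import Pool.Agent.Work.MP_35beee_gt.ULimA

-- merged part: Pool.Agent.Work.MP_35beee_gt.UCo
section
/-!
The twist coordinate of a dart.

Plan. `face_t`: `t d * E (gl d) * (t d)⁻¹ = (E d)⁻¹`, conjugate the frame at `gl d`; `IsMark.face`.
`tauD_gl`: conjugate by `x (t d)` (`ft_conj`, `t_inv`, `ft_inv_left`).
`exists_tauD`: `Duals.exists_len`, lift by `cls_surjective`, then `PG.exists_glue` with the function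
`fun d => ∑ i, if d = a i ∨ d = gl (a i) then t i - tauD .. (a i) x else 0` (`PDM_darts`),
`ft_conj`, `ft_trans`. `exists_mod'`: repeat the proof of `PG.exists_mod`, choosing `A d` with
`y (A d) = M d₀ * (M d)⁻¹` (`PCC_range` for `g = 1`; `A (nx d) = A d` by injectivity of `y`).
`exists_twist_all`: `PG.twist` with `k d = n` if `gl d ≠ d` and `0` otherwise, `exists_mod'`,
`ft_conj`, `ft_zpow`.
-/

namespace HRT

open Set Real

variable {Γ : Type} [Group Γ] {ρ : Γ →* Isom} {N : ℝ → ℝ} {D : Type} {nx gl : Equiv.Perm D}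
  {E t E' t' : D → Γ}

/-- The signed distance along the axis of `E d` between two reference feet. -/
noncomputable def tauD (nx gl : Equiv.Perm D) (E t : D → Γ) (d : D) (x : Rep ρ) : ℝ :=
  ft (x.1 (E d)) (x.1 (t d * E (nx (gl d)) * (t d)⁻¹)) - ft (x.1 (E d)) (x.1 (E (nx d)))

theorem UCo_face (h : PG ρ nx gl E t) (d : D) (x : Rep ρ) :
    Face (x.1 (E d)) (x.1 (E (nx d))) := by
  obtain ⟨k, hk⟩ := x.2
  exact hk.face (h.frame d).2.1

theorem UCo_hyp {g : Γ} (hg : Hyp (ρ g)) (x : Rep ρ) : Hyp (x.1 g) := by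
  obtain ⟨k, hk⟩ := x.2
  exact (hk.hyp hg).1

theorem PG.face_t (h : PG ρ nx gl E t) {d : D} (hd : Hyp (ρ (E d))) (x : Rep ρ) :
    Face (x.1 (E d))⁻¹ (x.1 (t d * E (nx (gl d)) * (t d)⁻¹)) := by
  have f := (UCo_face h (gl d) x).conj (x.1 (t d))
  have e : x.1 (t d) * x.1 (E (gl d)) * (x.1 (t d))⁻¹ = (x.1 (E d))⁻¹ := by
    rw [h.hyp d hd, map_mul, map_mul, map_inv, map_inv]
    group
  rw [e] at f
  rwa [map_mul, map_mul, map_inv]

theorem PG.tauD_gl (h : PG ρ nx gl E t) {d : D} (hd : Hyp (ρ (E d))) (x : Rep ρ) :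
    tauD nx gl E t (gl d) x = tauD nx gl E t d x := by
  have ha := UCo_hyp hd x
  have e0 : x.1 (E (gl d)) = (x.1 (t d))⁻¹ * (x.1 (E d))⁻¹ * (x.1 (t d))⁻¹⁻¹ := by
    rw [h.hyp d hd, map_mul, map_mul, map_inv, map_inv, inv_inv]
  have e1 : x.1 (t (gl d) * E (nx (gl (gl d))) * (t (gl d))⁻¹) =
      (x.1 (t d))⁻¹ * x.1 (E (nx d)) * (x.1 (t d))⁻¹⁻¹ := by
    rw [h.invol, h.t_inv, map_mul, map_mul, map_inv, map_inv, map_inv]
  have e2 : x.1 (E (nx (gl d))) =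
      (x.1 (t d))⁻¹ * x.1 (t d * E (nx (gl d)) * (t d)⁻¹) * (x.1 (t d))⁻¹⁻¹ := by
    rw [map_mul, map_mul, map_inv]
    group
  have f1 : Face (x.1 (E d))⁻¹⁻¹ (x.1 (E (nx d))) := by
    rw [inv_inv]
    exact UCo_face h d x
  rw [tauD, tauD, e1, e0]
  conv_lhs => rw [e2]
  rw [ft_conj ha.inv (Or.inr f1), ft_conj ha.inv (Or.inl (h.face_t hd x)), ft_inv_left ha,
    ft_inv_left ha]
  ring

theorem UCo_tau (h : PG ρ nx gl E t) {d : D} (hd : Hyp (ρ (E d))) (x y : Rep ρ) (A : D → Isom)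
    (u : Isom) (h1 : ∀ d, A (nx d) = A d) (h2 : ∀ d, y.1 (E d) = A d * x.1 (E d) * (A d)⁻¹)
    (h3 : y.1 (t d) = A d * (u * x.1 (t d)) * (A (gl d))⁻¹) :
    tauD nx gl E t d y = ft (x.1 (E d)) (u * x.1 (t d * E (nx (gl d)) * (t d)⁻¹) * u⁻¹) -
      ft (x.1 (E d)) (x.1 (E (nx d))) := by
  have e : y.1 (t d * E (nx (gl d)) * (t d)⁻¹) =
      A d * (u * x.1 (t d * E (nx (gl d)) * (t d)⁻¹) * u⁻¹) * (A d)⁻¹ := by
    simp only [map_mul, map_inv]
    rw [h3, h2, h1]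
    group
  have f1 := (h.face_t hd y).conj (A d)⁻¹
  have e1 : (A d)⁻¹ * (y.1 (E d))⁻¹ * (A d)⁻¹⁻¹ = (x.1 (E d))⁻¹ := by
    rw [h2]
    group
  have e2 : (A d)⁻¹ * y.1 (t d * E (nx (gl d)) * (t d)⁻¹) * (A d)⁻¹⁻¹ =
      u * x.1 (t d * E (nx (gl d)) * (t d)⁻¹) * u⁻¹ := by
    rw [e]
    group
  rw [e1, e2] at f1
  rw [tauD, e, h2 d, h2 (nx d), h1, ft_conj (UCo_hyp hd x) (Or.inr f1),
    ft_conj (UCo_hyp hd x) (Or.inl (UCo_face h d x))]
  ring

theorem PG.exists_tauD (h : PG ρ nx gl E t) (hρ : Good ρ N) {ι : Type} [Finite ι] {P δ : ι → Γ}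
    (hd : Duals ρ P δ) {a : ι → D} (ha : ∀ i, IsConj (E (a i)) (P i)) (l s : ι → ℝ)
    (hl : ∀ i, tl (ρ (P i)) ≤ l i) :
    ∃ x : Rep ρ, lens P x = l ∧ ∀ i, tauD nx gl E t (a i) x = s i := by
  classical
  have := Fintype.ofFinite ι
  obtain ⟨z, hz⟩ := hd.exists_len hρ.toDisc hl
  obtain ⟨x, rfl⟩ := cls_surjective z
  obtain ⟨a1, a2⟩ := PDM_darts hρ.toDisc h hd.multi ha
  let τ : D → ℝ := fun d =>
    ∑ i, if d = a i ∨ d = gl (a i) then s i - tauD nx gl E t (a i) x else 0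
  have hτ : ∀ d, τ (gl d) = τ d := by
    intro d
    refine Finset.sum_congr rfl fun i _ => if_congr ?_ rfl rfl
    rw [gl.injective.eq_iff, or_comm]
    refine or_congr Iff.rfl ⟨fun e => ?_, fun e => ?_⟩
    · rw [← e, h.invol]
    · rw [e, h.invol]
  have hτa : ∀ j, τ (a j) = s j - tauD nx gl E t (a j) x := by
    intro j
    refine (Finset.sum_eq_single j (fun i _ hi => if_neg ?_) (by simp)).trans (if_pos (Or.inl rfl))
    rintro (e | e)
    · exact hi (a1 e).symm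
    · exact a2 j i e
  obtain ⟨y, A, h1, h2, h3⟩ := h.exists_glue hρ.toDisc x hτ
  refine ⟨y, funext fun i => ?_, fun i => ?_⟩
  · rw [← hz i, len_cls, lens, POs_tl (ha i), POs_tl (ha i), h2, tl_conj]
  · have hh : Hyp (ρ (E (a i))) := GInter_hyp_conj (hd.multi.1 i).hyp (ha i).symm
    rw [UCo_tau h hh x y A _ h1 h2 (h3 _ hh), ft_trans (UCo_hyp hh x) (Or.inr (h.face_t hh x)),
      hτa, tauD]
    ring

theorem PG.exists_mod' (h : PG ρ nx gl E t) (h' : PG ρ nx gl E' t') (hρ : Good ρ N) :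
    ∃ (φ : Γ ≃* Γ) (A : D → Γ), IsMod ρ φ ∧ (∀ d, A (nx d) = A d) ∧
      (∀ d, φ (E d) = A d * E' d * (A d)⁻¹) ∧ ∀ d, φ (t d) = A d * t' d * (A (gl d))⁻¹ := by
  obtain ⟨x, y, M, h1, h2, h3⟩ := PCC_match h h' hρ
  obtain ⟨d₀⟩ := h.ne
  obtain ⟨k, hk⟩ := x.2
  obtain ⟨k', hk'⟩ := y.2
  have hx := (hk.disc hρ.toDisc).injective
  have hy := (hk'.disc hρ.toDisc).injective
  have r1 := PCC_range h hρ h1 h2 h3 d₀
  have r2 := PCC_range (x := y.1) (y := x.1) (M := fun d => (M d)⁻¹) (E' := E) (t' := t) h' hρ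
    (fun d => by rw [h1]) (fun d => by rw [h2]; group) (fun d => by rw [h3]; group) d₀ d₀
  choose A hA using fun d => r1 d 1
  choose φ hφ using r1 d₀
  let φ' : Γ →* Γ := MonoidHom.mk' φ fun a b => hy (by rw [map_mul, hφ, hφ, hφ, map_mul]; group)
  have hb : Function.Bijective φ' := by
    refine ⟨fun a b e => hx ?_, fun g => ?_⟩
    · have e' : y.1 (φ a) = y.1 (φ b) := congrArg y.1 e
      rw [hφ, hφ] at e'
      exact mul_left_cancel (mul_right_cancel e')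
    · obtain ⟨a, ha⟩ := r2 g
      refine ⟨a, hy ?_⟩
      change y.1 (φ a) = _
      rw [hφ, ha]
      group
  refine ⟨MulEquiv.ofBijective φ' hb, A, ?_, fun d => hy ?_, fun d => hy ?_, fun d => hy ?_⟩
  · have e : (MulAut.conj (M d₀)).toMonoidHom.comp x.1 =
        y.1.comp (MulEquiv.ofBijective φ' hb).toMonoidHom := MonoidHom.ext fun g => (hφ g).symm
    have m1 := isMark_conj x.1 (M d₀)
    rw [e] at m1
    exact ⟨_, (hk.trans m1).trans (hk'.comp _).symm⟩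
  · rw [hA, hA, h1]
  · change y.1 (φ (E d)) = _
    rw [hφ, map_mul, map_mul, map_inv, hA, h2, map_one]
    group
  · change y.1 (φ (t d)) = _
    rw [hφ, map_mul, map_mul, map_inv, hA, hA, h3, map_one]
    group

theorem PG.exists_twist_all (h : PG ρ nx gl E t) (hρ : Good ρ N) (n : ℤ) :
    ∃ (φ : Γ ≃* Γ) (hφ : IsMod ρ φ), (∀ d, IsConj (E d) (φ (E d))) ∧
      ∀ (x : Rep ρ) (d : D), Hyp (ρ (E d)) →
        tauD nx gl E t d (x.act hφ) = tauD nx gl E t d x + n * tl (x.1 (E d)) := by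
  classical
  have h' := h.twist (k := fun d => if gl d = d then 0 else n)
    (fun d => if_congr (by rw [gl.injective.eq_iff]) rfl rfl) (fun d hd => if_pos hd)
  obtain ⟨φ, A, hφ, h1, h2, h3⟩ := h.exists_mod' h' hρ
  refine ⟨φ, hφ, fun d => ?_, fun x d hd => ?_⟩
  · rw [h2]
    exact POs_isConj _ _
  · rw [UCo_tau h hd x (x.act hφ) (fun d => x.1 (A d)) (x.1 (E d) ^ n) (fun d => by rw [h1])
      (fun d => by rw [Rep.act_apply, h2, map_mul, map_mul, map_inv])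
      (by
        rw [Rep.act_apply, h3, if_neg ((h.hyp_iff hρ.toDisc d).1 hd), map_mul, map_mul, map_mul,
          map_inv, map_zpow]),
      ft_zpow (UCo_hyp hd x) (Or.inr (h.face_t hd x)), tauD]
    ring

end HRT
end

-- merged part: Pool.Agent.Work.MP_35beee_gt.UForm
section
/-!
The trace formula for a simple closed curve in length and twist coordinates.

Plan. `trop_obj`: a member of `Obj ρ P` is parabolic (length zero) or lies in `cls ρ (P i)`.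
`frFam`: `IsPants.fo`, `IsMark.frame`. `off_ref`: `IsPants.code`; for `MP nx E a x` use `PPants_nf`
and `PPants_eq`: `x` is the conjugate by a power of `a` of `g * E (nx d) * g⁻¹` or of
`g * E (nx (nx d)) * g⁻¹`, so the feet differ by a fixed multiple of `tl a / 2` (`ft_zpow`,
`Frame.ft_eq`); for `b = x * a * x⁻¹` add `FrFam.self_ft`, `Frame.abs_ft_self`.
`dist_spair`: `IsPants.code`, `FrFam.pair`, `FrFam.self`, `Frame.coth_pair`, `Frame.coth_self`.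
`exists_form`: `OSys.exists_seq` gives `m`; `XSeq.chain_mark` and `Chain.trc_eq`; write
`m n = g n * E (e n) * (g n)⁻¹`, so `(m n)⁻¹ = (g n * t (e n)) * E (gl (e n)) * (g n * t (e n))⁻¹`; let
`j n` be the index with `m n ∈ cls ρ (P (j n))` (unique, as `P` is a multicurve), then
`e n = a (j n)` or `gl (a (j n))` (`PG.mem_cls_iff`, `tauD_gl`). Define `h n x` as the difference of
`xp (l n) (l (n + 1)) - xp (l n) (l (n - 1))` and `tauD .. (a (j n)) x`; by `xp_eq_ft`,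
`ft_inv_left`, `ft_inv_right`, `ft_conj` it is minus the sum of the two differences of `off_ref`
for the pairs `(m n)⁻¹, m (n + 1)` and `m n, (m (n - 1))⁻¹` (`XSeq.spair`, `SPair.symm`).
`exists_coord`: `exists_pg`, choose darts `a i`; if `g` crosses no `P i` use `mem_of_simple`.
-/

namespace HRT

open Set Real

variable {Γ : Type} [Group Γ] {ρ : Γ →* Isom} {N : ℝ → ℝ} {D : Type} {nx gl : Equiv.Perm D}
  {E t : D → Γ} {ι : Type} [Fintype ι] {P : ι → Γ}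

theorem UForm_hyp (x : Rep ρ) {a : Γ} (ha : Hyp (ρ a)) : Hyp (x.1 a) := by
  obtain ⟨f, hf⟩ := x.2
  exact (hf.hyp ha).1

theorem trop_obj {a : Γ} (ha : a ∈ Obj ρ P) :
    Trop (Long ρ P) (lens P) fun x : Rep ρ => tl (x.1 a) := by
  rcases ha with ⟨i, hi⟩ | hc
  · refine (Trop.lin (S := Long ρ P) (c := lens P)
      (ContinuousLinearMap.proj (R := ℝ) (φ := fun _ : ι => ℝ) i)).congr (C := 0) fun x _ => ?_
    rw [tl_of_mem_cls hi x.1]
    simp [lens]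
  · refine (Trop.const (S := Long ρ P) (c := lens P) 0).congr (C := 0) fun x _ => ?_
    rw [PDM_tl_zero x fun h => h.not_par hc.1]
    simp

theorem IsPants.frFam (h : IsPants ρ nx E) (hρ : Disc ρ) (hP : Multi ρ P) (hO : objs E = Obj ρ P)
    {a b : Γ} (hm : MP nx E a b) (ha : Hyp (ρ a)) :
    FrFam (Long ρ P) (lens P) (fun x : Rep ρ => x.1 a) (fun x => x.1 b)
      fun x => x.1 (a * b)⁻¹ := by
  obtain ⟨h1, h2, h3, h4⟩ := h.fo hρ hm
  rw [hO] at h1 h2 h3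
  refine ⟨fun x => ?_, fun x => UForm_hyp x ha, ?_, trop_obj h1, trop_obj h2, trop_obj h3⟩
  · obtain ⟨f, hf⟩ := x.2
    exact hf.frame h4
  · obtain ⟨i, hi⟩ := CTw2_mem h1 ha
    refine ⟨tl (ρ (P i)), (hP.1 i).hyp, fun x hx => ?_⟩
    rw [tl_of_mem_cls hi x.1]
    exact hx i

theorem UForm_mp (h : IsPants ρ nx E) {d : D} (hd : Hyp (ρ (E d))) {g y : Γ}
    (hm : MP nx E (g * E d * g⁻¹) y) : ∃ k : ℝ, ∀ x : Rep ρ, ft (x.1 (g * E d * g⁻¹)) (x.1 y) -
      ft (x.1 (g * E d * g⁻¹)) (x.1 (g * E (nx d) * g⁻¹)) = k * tl (x.1 (E d)) := by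
  obtain ⟨d', g', e, hy⟩ := h.PPants_nf hm
  obtain ⟨rfl, n, hn⟩ := h.PPants_eq e
  have hg : g' = (g * E d * g⁻¹) ^ n * g := by
    rw [conj_zpow, inv_mul_cancel_right]
    exact (mul_inv_cancel_left g g').symm.trans (congrArg (g * ·) hn.symm)
  have ha : Hyp (ρ (g * E d * g⁻¹)) := (PDual_hyp (POs_isConj g (E d))).2 hd
  have hF : ∀ x : Rep ρ, Frame (x.1 (g * E d * g⁻¹)) (x.1 (g * E (nx d) * g⁻¹))
      (x.1 (g * E (nx (nx d)) * g⁻¹)) := fun x => by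
    obtain ⟨f, hf⟩ := x.2
    simp only [POs_conj]
    exact ((h.mark hf).frame d).conj _
  have hz : ∀ (x : Rep ρ) (w : Γ), x.1 (g' * w * g'⁻¹) = x.1 (g * E d * g⁻¹) ^ n *
      x.1 (g * w * g⁻¹) * (x.1 (g * E d * g⁻¹) ^ n)⁻¹ := fun x w => by
    rw [← map_zpow, ← POs_conj, hg]
    congr 1
    group
  rcases hy with rfl | rfl
  · refine ⟨n, fun x => ?_⟩
    rw [hz, ft_zpow (UForm_hyp x ha) (Or.inl (hF x).2.1), POs_tl (POs_isConj g (E d)) x.1]
    ring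
  · refine ⟨n + 1 / 2, fun x => ?_⟩
    rw [hz, ft_zpow (UForm_hyp x ha) (Or.inl (hF x).2.2.2.symm), (hF x).ft_eq (UForm_hyp x ha),
      POs_tl (POs_isConj g (E d)) x.1]
    ring

theorem IsPants.off_ref (h : IsPants ρ nx E) (hρ : Disc ρ) (hP : Multi ρ P)
    (hO : objs E = Obj ρ P) {d : D} (hd : Hyp (ρ (E d))) (g : Γ) {b : Γ}
    (hb : SPair ρ (objs E) (g * E d * g⁻¹) b) :
    (Trop (Long ρ P) (lens P) fun x : Rep ρ => ft (x.1 (g * E d * g⁻¹)) (x.1 b) -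
      ft (x.1 (g * E d * g⁻¹)) (x.1 (g * E (nx d) * g⁻¹))) ∧
    ∃ C : ℝ, ∀ x : Rep ρ, |ft (x.1 (g * E d * g⁻¹)) (x.1 b) -
      ft (x.1 (g * E d * g⁻¹)) (x.1 (g * E (nx d) * g⁻¹))| ≤ C * tl (x.1 (E d)) := by
  have ha : Hyp (ρ (g * E d * g⁻¹)) := (PDual_hyp (POs_isConj g (E d))).2 hd
  have hE : Trop (Long ρ P) (lens P) fun x : Rep ρ => tl (x.1 (E d)) :=
    trop_obj (hO ▸ PPants_self E d)
  rcases h.code hρ hb with hm | ⟨y, hm, rfl⟩
  · obtain ⟨k, hk⟩ := UForm_mp h hd hm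
    refine ⟨(hE.const_mul k).congr (C := 0) fun x _ => by rw [hk x]; simp, |k|, fun x => ?_⟩
    rw [hk x, abs_mul, abs_of_nonneg (tl_nonneg _)]
  · obtain ⟨k, hk⟩ := UForm_mp h hd hm
    have F := h.frFam hρ hP hO hm ha
    have e : ∀ x : Rep ρ, ft (x.1 (g * E d * g⁻¹)) (x.1 (y * (g * E d * g⁻¹) * y⁻¹)) -
        ft (x.1 (g * E d * g⁻¹)) (x.1 (g * E (nx d) * g⁻¹)) =
        (ft (x.1 (g * E d * g⁻¹)) (x.1 y * x.1 (g * E d * g⁻¹) * (x.1 y)⁻¹) -
          ft (x.1 (g * E d * g⁻¹)) (x.1 y)) + k * tl (x.1 (E d)) := by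
      intro x
      rw [← hk x, POs_conj x.1 y]
      ring
    refine ⟨(F.self_ft.add (hE.const_mul k)).congr (C := 0) fun x _ => by rw [e x]; simp,
      1 + |k|, fun x => ?_⟩
    have h1 := (F.fr x).abs_ft_self (F.hyp x)
    rw [POs_tl (POs_isConj g (E d)) x.1] at h1
    rw [e x]
    refine (abs_add_le _ _).trans ?_
    rw [abs_mul, abs_of_nonneg (tl_nonneg _)]
    linarith

theorem IsPants.dist_spair (h : IsPants ρ nx E) (hρ : Disc ρ) (hP : Multi ρ P)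
    (hO : objs E = Obj ρ P) {a b : Γ} (ha : Hyp (ρ a)) (hb : Hyp (ρ b))
    (hs : SPair ρ (objs E) a b) :
    (MT (Long ρ P) (lens P) fun x : Rep ρ => cosh (ldist (ax (x.1 a)) (ax (x.1 b)) / 2)) ∧
    (MT (Long ρ P) (lens P) fun x : Rep ρ => sinh (ldist (ax (x.1 a)) (ax (x.1 b)) / 2)) ∧
    ∀ x : Rep ρ, cosh (ldist (ax (x.1 a)) (ax (x.1 b)) / 2) ≤
        exp (tl (x.1 a)) * sinh (ldist (ax (x.1 a)) (ax (x.1 b)) / 2) ∧
      cosh (ldist (ax (x.1 a)) (ax (x.1 b)) / 2) ≤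
        exp (tl (x.1 b)) * sinh (ldist (ax (x.1 a)) (ax (x.1 b)) / 2) := by
  rcases h.code hρ hs with hm | ⟨y, hm, rfl⟩
  · have F := h.frFam hρ hP hO hm ha
    obtain ⟨ε, hε, h1⟩ := (h.frFam hρ hP hO hm.symm hb).low
    exact ⟨(F.pair hε h1).1, (F.pair hε h1).2,
      fun x => (F.fr x).coth_pair (F.hyp x) (UForm_hyp x hb)⟩
  · have F := h.frFam hρ hP hO hm ha
    simp only [POs_conj, tl_conj]
    exact ⟨F.self.1, F.self.2,
      fun x => ⟨(F.fr x).coth_self (F.hyp x), (F.fr x).coth_self (F.hyp x)⟩⟩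

omit [Fintype ι] in
theorem UForm_uniq (hP : Multi ρ P) {c : Γ} {i j : ι} (hi : c ∈ cls ρ (P i))
    (hj : c ∈ cls ρ (P j)) : i = j := by
  by_contra hne
  have h1 : P i ∈ cls ρ (P j) := by
    rw [← cls_eq hj, cls_eq hi]
    exact mem_cls_self _
  rcases h1 with h1 | ⟨-, h1⟩
  · obtain ⟨k, hk⟩ := isConj_iff.1 h1
    exact (hP.2 i j hne k).2.1 hk.symm
  · obtain ⟨k, hk⟩ := isConj_iff.1 h1
    refine (hP.2 i j hne k).2.2 ?_
    rw [← hk]
    group

theorem UForm_off (h : PG ρ nx gl E t) (hρ : Disc ρ) (hP : Multi ρ P)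
    (hO : objs E = Obj ρ P) {a : ι → D} (ha : ∀ i, IsConj (E (a i)) (P i)) {g : Γ}
    (hg : Simple ρ g) {p : ℕ} {m : ℤ → Γ} (hs : XSeq ρ (objs E) g p m) {n : ℤ} {i : ι}
    (hi : m n ∈ cls ρ (P i)) :
    (Trop (Long ρ P) (lens P) fun x : Rep ρ => xp (ax (x.1 (m n))) (ax (x.1 (m (n + 1)))) -
      xp (ax (x.1 (m n))) (ax (x.1 (m (n - 1)))) - tauD nx gl E t (a i) x) ∧
    ∃ C : ℝ, ∀ x : Rep ρ, |xp (ax (x.1 (m n))) (ax (x.1 (m (n + 1)))) -
      xp (ax (x.1 (m n))) (ax (x.1 (m (n - 1)))) - tauD nx gl E t (a i) x| ≤ C * lens P x i := by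
  obtain ⟨e, he⟩ := hs.mem n
  have hE : Hyp (ρ (E e)) := (PDual_hyp he).1 (hs.hyp n)
  have c1 : E e ∈ cls ρ (P i) := by
    rw [← cls_eq hi, cls_eq (Or.inl he : m n ∈ cls ρ (E e))]
    exact mem_cls_self _
  have c2 : E (gl e) ∈ cls ρ (P i) := by
    rw [← cls_eq c1, ← h.cls_gl e]
    exact mem_cls_self _
  have hE' : Hyp (ρ (E (gl e))) := POs_hyp (hP.1 i).hyp c2
  have htau : ∀ x : Rep ρ, tauD nx gl E t (a i) x = tauD nx gl E t e x := fun x => by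
    have c3 : E e ∈ cls ρ (E (a i)) := by
      rw [← cls_eq (Or.inl (ha i) : P i ∈ cls ρ (E (a i)))]
      exact c1
    rcases (h.mem_cls_iff (a i) e).1 c3 with rfl | rfl
    · rfl
    · exact (h.tauD_gl ((PDual_hyp (ha i)).1 (hP.1 i).hyp) x).symm
  obtain ⟨k, hk⟩ := isConj_iff.1 he
  have hk' : k * t e * E (gl e) * (k * t e)⁻¹ = (m n)⁻¹ := by
    rw [h.hyp e hE, ← hk]
    group
  have s1 := hs.spair h.sys hρ hg n
  have s2 := (hs.spair h.sys hρ hg (n - 1)).symm h.sys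
  rw [sub_add_cancel] at s2
  have o1 := h.toIsPants.off_ref hρ hP hO hE' (k * t e) (hk'.symm ▸ s1)
  have o2 := h.toIsPants.off_ref hρ hP hO hE k (hk.symm ▸ s2)
  rw [hk'] at o1
  rw [hk] at o2
  have key : ∀ x : Rep ρ, xp (ax (x.1 (m n))) (ax (x.1 (m (n + 1)))) -
      xp (ax (x.1 (m n))) (ax (x.1 (m (n - 1)))) - tauD nx gl E t (a i) x =
      -(ft (x.1 (m n)⁻¹) (x.1 (m (n + 1))) -
        ft (x.1 (m n)⁻¹) (x.1 (k * t e * E (nx (gl e)) * (k * t e)⁻¹))) -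
      (ft (x.1 (m n)) (x.1 (m (n - 1))⁻¹) - ft (x.1 (m n)) (x.1 (k * E (nx e) * k⁻¹))) := by
    intro x
    obtain ⟨f, hf⟩ := x.2
    have hm := UForm_hyp x (hs.hyp n)
    have f1 := hf.face s1.1.face
    have f2 := hf.face s2.1.face
    rw [map_inv] at f1
    have x1 := xp_eq_ft hm (UForm_hyp x (hs.hyp (n + 1))) (Or.inr f1)
    have x2 := xp_eq_ft hm (UForm_hyp x (POs_hyp_inv (hs.hyp (n - 1)))) (Or.inl f2)
    rw [CSeq_inv (UForm_hyp x (hs.hyp (n - 1))), xp_rev_right] at x2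
    have x3 := ft_conj (UForm_hyp x hE) (Or.inr (h.face_t hE x)) (x.1 k)
    have x4 := ft_conj (UForm_hyp x hE) (Or.inl ((h.toIsPants.mark hf).frame e).2.1) (x.1 k)
    rw [← POs_conj, ← POs_conj, hk] at x3 x4
    have x5 : k * (t e * E (nx (gl e)) * (t e)⁻¹) * k⁻¹ =
        k * t e * E (nx (gl e)) * (k * t e)⁻¹ := by group
    rw [x5] at x3
    rw [htau x, tauD, x1, x2, map_inv x.1 (m n), ft_inv_left hm, ft_inv_left hm, x3, x4]
    ring
  obtain ⟨t1, C1, b1⟩ := o1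
  obtain ⟨t2, C2, b2⟩ := o2
  refine ⟨(t1.neg.sub t2).congr (C := 0) fun x _ => by rw [key x]; simp, C1 + C2, fun x => ?_⟩
  have b3 := b1 x
  have b4 := b2 x
  rw [tl_of_mem_cls c2 x.1] at b3
  rw [tl_of_mem_cls c1 x.1] at b4
  rw [key x]
  refine (abs_sub _ _).trans ?_
  rw [abs_neg, lens]
  linarith

theorem PG.exists_form (h : PG ρ nx gl E t) (hρ : Disc ρ) (hP : Multi ρ P)
    (hO : objs E = Obj ρ P) {a : ι → D} (ha : ∀ i, IsConj (E (a i)) (P i)) {g : Γ}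
    (hg : Simple ρ g) (hc : ∃ i, inter ρ g (P i) ≠ 0) :
    ∃ p j u d, Form ρ P (fun x i => tauD nx gl E t (a i) x) g p j u d := by
  obtain ⟨i0, hi0⟩ := hc
  obtain ⟨p, m, hs⟩ := h.sys.exists_seq hρ hg.hyp
    ⟨P i0, hO ▸ Or.inl ⟨i0, mem_cls_self _⟩, (hP.1 i0).hyp, hi0⟩
  choose J hJ using fun n : ℤ => CTw2_mem (hO ▸ hs.mem n) (hs.hyp n)
  have hd : ∀ (n : ℤ) (x : Rep ρ), ldist (ax (x.1 (m n)⁻¹)) (ax (x.1 (m (n + 1)))) =
      ldist (ax (x.1 (m n))) (ax (x.1 (m (n + 1)))) := fun n x => by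
    rw [map_inv, (UForm_hyp x (hs.hyp n)).ax_inv, ldist_rev_left]
  have hD := fun n : ℤ => h.toIsPants.dist_spair hρ hP hO (POs_hyp_inv (hs.hyp n))
    (hs.hyp (n + 1)) (hs.spair h.sys hρ hg n)
  simp only [hd] at hD
  have hU := fun n : ℤ => UForm_off h hρ hP hO ha hg hs (hJ n)
  refine ⟨p, fun n => J n, fun n x => xp (ax (x.1 (m n))) (ax (x.1 (m (n + 1)))) -
    xp (ax (x.1 (m n))) (ax (x.1 (m (n - 1)))) - tauD nx gl E t (a (J n)) x,
    fun n x => ldist (ax (x.1 (m n))) (ax (x.1 (m (n + 1)))), hs.chain.pos, ?_, fun n => ?_,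
    fun x => ?_, fun n => (hU n).1, fun n => (hU n).2, fun n x => ?_, fun n => (hD n).1,
    fun n => (hD n).2.1, fun n x => ?_⟩
  · have h1 := cls_conj (hJ 0) g
    rw [← hs.per 0, zero_add] at h1
    exact UForm_uniq hP (hJ p) h1
  · rw [Ne, hρ.inter_eq_zero_iff hg.hyp (hP.1 _).hyp (hP.1 _).prim]
    intro h0
    have h1 : Cross (ax (ρ g)) (ax (ρ (m n))) :=
      CSeq_cross (O := objs E) ⟨hs.mem n, hs.hyp n, hs.chain.src n, hs.chain.tgt n⟩
    obtain ⟨k, hk | hk⟩ := POs_ax (hP.1 _).hyp (hJ n)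
    · exact h0 k (hk ▸ h1)
    · rw [hk, cross_rev_right] at h1
      exact h0 k h1
  · obtain ⟨f, hf⟩ := x.2
    rw [(hs.chain_mark hf).trc_eq]
    congr 1
    funext n
    ring
  · obtain ⟨f, hf⟩ := x.2
    exact ldist_nonneg ((hf.osys h.sys).nc _ (hs.mem _) _ (hs.mem _) (UForm_hyp x (hs.hyp _))
      (UForm_hyp x (hs.hyp _)))
  · have h1 := (hD n).2.2 x
    rw [map_inv, tl_inv, tl_of_mem_cls (hJ n) x.1, tl_of_mem_cls (hJ (n + 1)) x.1] at h1
    simpa only [lens, Nat.cast_add, Nat.cast_one] using h1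

theorem IsMax.exists_coord (hm : IsMax ρ P) (hρ : Good ρ N) {δ : ι → Γ} (hd : Duals ρ P δ) :
    ∃ τ, Coord ρ P τ := by
  obtain ⟨n, nx, E, h, hO⟩ := hm
  obtain ⟨gl, t, hpg⟩ := h.exists_pg hρ.toDisc
  have hP := hd.multi
  have h0 : ∀ i, P i ∈ objs E := fun i => hO ▸ Or.inl ⟨i, mem_cls_self _⟩
  choose a ha using h0
  refine ⟨fun x i => tauD nx gl E t (a i) x, fun l s hl => ?_, fun k => ?_, fun g hg => ?_⟩
  · obtain ⟨x, h1, h2⟩ := hpg.exists_tauD hρ hd ha l s hl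
    exact ⟨x, h1, funext h2⟩
  · obtain ⟨φ, hφ, h1, h2⟩ := hpg.exists_twist_all hρ k
    refine ⟨φ, hφ, fun x => ⟨funext fun i => ?_, fun i => ?_⟩⟩
    · have h3 : IsConj (φ (E (a i))) (φ (P i)) := φ.toMonoidHom.map_isConj (ha i)
      exact POs_tl (((ha i).symm.trans (h1 (a i))).trans h3) x.1
    · rw [h2 x (a i) ((PDual_hyp (ha i)).1 (hP.1 i).hyp), ← POs_tl (ha i) x.1]
      rfl
  · by_cases hc : ∃ i, inter ρ g (P i) ≠ 0
    · exact Or.inr (hpg.exists_form hρ.toDisc hP hO ha hg hc)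
    · have hc' : ∀ i, inter ρ g (P i) = 0 := fun i => by
        by_contra h1
        exact hc ⟨i, h1⟩
      have h1 : g ∈ objs E := h.mem_of_simple hρ.toDisc hg fun m hm hh => by
        obtain ⟨i, hi⟩ := CTw2_mem (hO ▸ hm) hh
        have h2 := (hρ.toDisc.inter_eq_zero_iff hg.hyp (hP.1 i).hyp (hP.1 i).prim).1 (hc' i)
        obtain ⟨k, hk | hk⟩ := POs_ax (hP.1 i).hyp hi
        · rw [hk]
          exact h2 k
        · rw [hk, cross_rev_right]
          exact h2 k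
      obtain ⟨i, hi⟩ := CTw2_mem (hO ▸ h1) hg.hyp
      exact Or.inl ⟨hc', i, fun x => tl_of_mem_cls hi x.1⟩

end HRT
end

-- merged part: Pool.Agent.Work.MP_35beee_gt.ULim
section
/-!
Limits of rescaled length functions are intersection functions of measured laminations.

Plan. `pair_smul`: closure. `exists_pair_of_lam`: `TBasis_decomp` and `exists_LM` as in the proof of
`exists_basis` give multicurves `g n` and weights `c n` indexed by `Finset Γ × ℕ` (see `TBasis_wt`);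
`c n p * len z (g n p)` is bounded (`exists_fill`, `IsMark.tl_le`), so it has a limit `w p z` along
an ultrafilter finer than `atTop`; `w ∈ WT`, and `(w p, ic (ν p)) ∈ Pair ρ`. Let `L = ∑ a p * w p`
(`wt_sum`), `(L, e) ∈ Pair ρ` (`exists_tup`, field `pair`); `pair_le` in both directions gives
`e = ∑ a p * ic (ν p) = ic ν`. `exists_pair_of_lim`: `Deg0` with `α = Empty.elim`,
`Deg0.exists_lim`, `Deg0.tendsto_tl`; the support of `ν` is a lamination: it lies in the closed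
set `Core`, and two crossing lines in it contradict `exists_box_one` (`exists_box_of_cross`,
`IsULim.lower`, invariance under `Geo.rev`).
-/

namespace HRT

open Set Filter Topology Real MeasureTheory

variable {Γ : Type} [Group Γ] {ρ : Γ →* Isom} {N : ℝ → ℝ}

theorem pair_smul {x : (Teich ρ → ℝ) × (SC ρ → ℝ)} (hx : x ∈ Pair ρ) {s : ℝ} (hs : 0 ≤ s) :
    s • x ∈ Pair ρ := by
  refine closure_minimal (t := (fun x => s • x) ⁻¹' Pair ρ) ?_
    (isClosed_closure.preimage (continuous_const_smul s)) hx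
  rintro _ ⟨g, t, hg, ht, rfl⟩
  exact subset_closure ⟨g, s * t, hg, mul_nonneg hs ht,
    Prod.ext (funext fun z => (mul_assoc _ _ _).symm) (funext fun z => (mul_assoc _ _ _).symm)⟩

theorem ULim_wt {P : Type} [Fintype P] (hρ : Good ρ N) {e : P → SC ρ → ℝ}
    (ha : ∀ F : Finset (SC ρ), ∀ ε > 0, ∃ (g : P → Γ) (c : P → ℝ),
      Multi ρ g ∧ (∀ p, 0 ≤ c p) ∧ ∀ p, ∀ f ∈ F, |c p * inter ρ f.1 (g p) - e p f| ≤ ε) :
    ∃ w ∈ WT ρ P, ∀ p, (w p, e p) ∈ Pair ρ := by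
  classical
  obtain ⟨R, hR⟩ := hρ.exists_core_simple
  obtain ⟨χ, hχ⟩ := hρ.toDisc.exists_bump R
  obtain ⟨F, D, hD, hF, hfill⟩ := exists_fill hρ
    (hρ.cover ⟨fun i => i.elim, fun i => i.elim⟩) hρ.hasDual
  choose g c hg hc he using fun n : Finset (SC ρ) × ℕ =>
    ha n.1 (1 / ((n.2 : ℝ) + 1)) Nat.one_div_pos_of_nat
  obtain ⟨U, hU⟩ := Ultrafilter.exists_le (atTop : Filter (Finset (SC ρ) × ℕ))
  have hT : ∀ p f, Tendsto (fun n => c n p * inter ρ f.1 (g n p)) U (𝓝 (e p f)) := by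
    intro p f
    refine Tendsto.mono_left (tendsto_iff_norm_sub_tendsto_zero.2 (squeeze_zero'
      (Eventually.of_forall fun _ => norm_nonneg _) ?_
      (tendsto_one_div_add_atTop_nhds_zero_nat.comp
        (prod_atTop_atTop_eq (α := Finset (SC ρ)) (β := ℕ) ▸ tendsto_snd)))) hU
    filter_upwards [eventually_ge_atTop (({f} : Finset (SC ρ)), 0)] with n hn
    exact he n p f (hn.1 (Finset.mem_singleton_self f))
  obtain ⟨lam, Λ, h1, h2⟩ := TTup_tup hρ hχ hR U (v := fun n p => ⟨c n p, hc n p⟩) hg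
    fun p => ⟨D * ∑ f ∈ F.attach, e p ⟨f.1, hF _ f.2⟩ + 1, by
      filter_upwards [((tendsto_finsetSum F.attach fun f _ => hT p ⟨f.1, hF _ f.2⟩).const_mul
        D).eventually_le_const (lt_add_one _)] with n hn
      refine (mul_le_mul_of_nonneg_left (hfill _ ((hg n).1 p)) (hc n p)).trans
        (le_of_eq_of_le ?_ hn)
      rw [← Finset.mul_sum, ← F.sum_attach]
      ring⟩
  refine ⟨fun p => lenC χ (lam p), mem_closure_of_tendsto (b := (U : Filter (Finset (SC ρ) × ℕ)))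
    (f := fun n p z => c n p * len z (g n p)) (tendsto_pi_nhds.2 fun p => tendsto_pi_nhds.2 fun z =>
      TTup_len hρ hχ hR (fun n => (hg n).1 p) (h2 p) z)
    (Eventually.of_forall fun n => ⟨g n, c n, hg n, hc n, rfl⟩), fun p => ?_⟩
  rw [show e p = fun η : SC ρ => ic (lam p) (ρ η.1) from funext fun η => tendsto_nhds_unique
    (hT p η) (tendsto_inter hρ (fun n => (hg n).1 p) (h1.cur p) (h2 p) η.2.hyp)]
  exact h1.pair p

theorem ULim_sum {P : Type} [Fintype P] (hρ : Good ρ N) (hs : ∃ g, Simple ρ g)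
    {w : P → Teich ρ → ℝ} (hw : w ∈ WT ρ P) {e : P → SC ρ → ℝ} (h : ∀ p, (w p, e p) ∈ Pair ρ)
    {a : P → ℝ} (ha : ∀ p, 0 ≤ a p) : ∃ L, (L, fun η => ∑ p, a p * e p η) ∈ Pair ρ := by
  obtain ⟨R, hR⟩ := hρ.exists_core_simple
  obtain ⟨χ, hχ⟩ := hρ.toDisc.exists_bump R
  obtain ⟨lam, Λ, T⟩ := exists_tup hρ hχ hR (mem_ml_iff.1 (wt_sum hρ hs hw ha))
  have h1 : ∀ p, (a p • w p, a p • e p) ∈ Pair ρ := fun p => pair_smul (h p) (ha p)
  refine ⟨_, (funext fun η => le_antisymm ?_ ?_ : (fun η : SC ρ => ic (lam ()) (ρ η.1)) = _) ▸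
    T.pair ()⟩
  · simpa using pair_le hρ.toDisc h1 T.pair zero_le_one (fun z => by simp) η
  · simpa using pair_le hρ.toDisc T.pair h1 zero_le_one (fun z => by simp) η

theorem exists_pair_of_lam (hρ : Good ρ N) (hs : ∃ g, Simple ρ g) {Λ : Set Geo} (hΛ : Lam ρ Λ)
    {ν : Measure Geo} (hν : Cur ρ ν) (h0 : ν Λᶜ = 0) :
    ∃ L, (L, fun η : SC ρ => ic ν (ρ η.1)) ∈ Pair ρ := by
  classical
  have hd := hρ.toDisc
  obtain ⟨n, k, μ, S, h1, h2, h3, h4, h5⟩ := TBasis_decomp hρ hΛ hν h0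
  obtain ⟨x, hx⟩ := h5 ν hν Measure.AbsolutelyContinuous.rfl
  set θ : Fin n ⊕ Fin k → Measure Geo := Sum.elim μ fun s => cnt ρ (S s) with hθ
  have hcur : ∀ p, Cur ρ (θ p) :=
    Sum.forall.2 ⟨fun j => (h1 j).1, fun s => hd.cur_cnt (h3.1 s).hyp⟩
  obtain ⟨w, hw, hp⟩ := ULim_wt hρ (e := fun p η => ic (θ p) (ρ η.1)) fun F ε hε => by
    obtain ⟨g, g1, -, -, g2⟩ := exists_LM hρ hΛ (fun j => (h1 j).1) (fun j => (h1 j).2.1)
      (fun j => (h1 j).2.2.1 h0) (fun j => (h1 j).2.2.2.1) h2 h3 (fun s => (h4 s).1)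
      (F.image Subtype.val) (fun f hf => by
        obtain ⟨f, -, rfl⟩ := Finset.mem_image.1 hf
        exact ⟨f.2.hyp, f.2.prim⟩) hε
    choose c hc hc' using fun j => g2 j (h1 j).2.2.2.2
    refine ⟨Sum.elim g S, Sum.elim c fun _ => 1, g1,
      Sum.forall.2 ⟨fun j => (hc j).le, fun _ => zero_le_one⟩,
      Sum.forall.2 ⟨fun j f hf => hc' j _ (Finset.mem_image_of_mem _ hf), fun s f hf => ?_⟩⟩
    simp only [hθ, Sum.elim_inr, one_mul]
    rw [hd.ic_cnt (h3.1 s).hyp (h3.1 s).prim f.2.hyp, sub_self, abs_zero]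
    exact hε.le
  set y : Fin n ⊕ Fin k → NNReal := Sum.elim x fun s => (ν {ax (ρ (S s))}).toNNReal with hy
  have e : ν = ∑ p, y p • θ p := by
    rw [Fintype.sum_sum_type]
    exact hx
  obtain ⟨L, hL⟩ := ULim_sum hρ hs hw hp fun p => (y p).coe_nonneg
  refine ⟨L, ?_⟩
  rw [e]
  simpa only [ic_finsetSum _ fun p _ => (hcur p).nnreal_smul (y p), ic_nnreal_smul] using hL

theorem ULim_nc {I : Type} {U : Ultrafilter I} {c : I → ℝ} {σ : I → Γ →* Isom}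
    {k : I → Circ ≃ₜ Circ} (hd : Deg0 ρ (Empty.elim : Empty → Γ) U c σ k) {ν : Measure Geo}
    (hν : Cur ρ ν) (hl : IsULim U (resc c k) (lifts ρ (Empty.elim : Empty → Γ))ᶜ ν) {l m : Geo}
    (h1 : l ∈ ν.support) (h2 : m ∈ ν.support) : ¬ Cross l m := by
  intro hx
  obtain ⟨a, b, c', d, b1, b2, b3, b4⟩ := exists_box_of_cross hx
  obtain ⟨C, hC⟩ := exists_box_one
  have key : ∀ l ∈ ν.support, ∀ O, IsOpen O → l ∈ O →
      ¬ ∀ᶠ n in U, pull (k n) O ≤ ENNReal.ofReal C := fun l s1 O o1 o2 h => by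
    obtain ⟨δ, d1, d2⟩ := exists_between
      ((Measure.mem_support_iff_forall l).1 s1 _ (o1.mem_nhds o2))
    obtain ⟨n, a1, a2⟩ := ((hl.lower _ o1 (fun _ _ ⟨i, _⟩ => i.elim) _ d2).and
      ((GLimA_zero (hd.GLimA_le h) (hd.top.const_div_atTop C)).eventually_lt_const d1)).exists
    exact a1.not_gt a2
  rcases Ultrafilter.eventually_or.1 (Eventually.of_forall (f := U)
    fun n => hC (k n) (hd.mark n).ori a b c' d b1 b2) with h | h
  · exact key l h1 _ (isOpen_box _ _ _ _) b3 h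
  · exact b4.elim (fun e => key m h2 _ (isOpen_box _ _ _ _) e h) fun e =>
      key _ (TComp_supp Geo.continuous_rev hν.rev h2) _ (isOpen_box _ _ _ _) e h

theorem exists_pair_of_lim (hρ : Good ρ N) (hs : ∃ g, Simple ρ g) (x : ℕ → Rep ρ) {e : SC ρ → ℝ}
    (he : ∀ g : SC ρ, Tendsto (fun n : ℕ => tl ((x n).1 g.1) / n) atTop (𝓝 (e g))) :
    ∃ L, (L, e) ∈ Pair ρ := by
  choose k hk using fun n => (x n).2
  obtain ⟨U, hU⟩ := Ultrafilter.exists_le (atTop : Filter ℕ)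
  have hα : Multi ρ (Empty.elim : Empty → Γ) := ⟨fun i => i.elim, fun i => i.elim⟩
  have hd : Deg0 ρ (Empty.elim : Empty → Γ) U (fun n => n) (fun n => (x n).1) k := by
    refine ⟨hk, tendsto_natCast_atTop_atTop.mono_left hU, fun i => i.elim, fun β hβ _ =>
      ⟨e ⟨β, hβ⟩ + 1, Eventually.filter_mono hU ?_⟩⟩
    filter_upwards [(he ⟨β, hβ⟩).eventually_le_const (lt_add_one _), eventually_gt_atTop 0]
      with n h1 h2 using (div_le_iff₀ (Nat.cast_pos.2 h2)).1 h1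
  obtain ⟨ν, hν, hl, R, w, hw, h0⟩ := hd.exists_lim hρ hα (hρ.cover hα)
  have s1 : ν.support ⊆ Core ρ Empty.elim R w :=
    Measure.support_subset_of_isClosed (isClosed_core hρ.toDisc R w) h0
  obtain ⟨L, hL⟩ := exists_pair_of_lam hρ hs (Λ := ν.support) ⟨Measure.isClosed_support,
    fun g l => TComp_supp (continuous_const_smul (ρ g)) (hν.smul g),
    fun l => TComp_supp Geo.continuous_rev hν.rev, fun l h1 m h2 => ULim_nc hd hν hl h1 h2,
    R, fun l h => (s1 h).2.1⟩ hν Measure.measure_compl_support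
  exact ⟨L, (funext fun η => tendsto_nhds_unique (hd.tendsto_tl hρ.toDisc hα hν hl hw h0 η.2
    fun i => i.elim) ((he η).mono_left hU) : (fun η : SC ρ => ic ν (ρ η.1)) = e) ▸ hL⟩

end HRT
end

-- merged part: Pool.Agent.Work.MP_35beee_gt.UPair
section
/-!
Length functions and intersection functions of measured laminations determine each other;
projective laminations as a slice.

Plan. `fst_image_pair`: `exists_tup` (field `pair`) and continuity of `Prod.fst`. `pair_snd_eq`: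
`pair_le`. `pair_fst_eq`: `Tup` data `lam`, `lam'` for the two length functions; their
intersection functions agree by `pair_snd_eq`; `Tup.nc`, `lam_support_union`, `eq_of_ic_eq`, field
`len`. `exists_len_map`: choose; for continuity use ultrafilters: `L b ≤ C * ∑ f ∈ F, e f` on
`Pair ρ` (`exists_fill`, `IsMark.tl_le`, closure), `isCompact_ml`, closedness of `Pair ρ`,
`pair_fst_eq`. `ml_le`: `len_le_exp_dTh` and closure. `pml_homeo`: the map `f ↦ exp ∘ f` is a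
continuous bijection from `PML b`, which is closed in the compact set `horoBdry b`
(`pml_subset`, `isCompact_horoBdry`, `continuous_of_ml`); `Continuous.homeoOfEquivCompactToT2`.
-/

namespace HRT

open Set Filter Topology Real MeasureTheory

variable {Γ : Type} [Group Γ] {ρ : Γ →* Isom} {N : ℝ → ℝ}

theorem UPair_ml {x : (Teich ρ → ℝ) × (SC ρ → ℝ)} (hx : x ∈ Pair ρ) : x.1 ∈ ML ρ := by
  refine map_mem_closure continuous_fst hx ?_
  rintro _ ⟨g, s, hg, hs, rfl⟩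
  exact ⟨g, s, hg, hs, rfl⟩

theorem fst_image_pair (hρ : Good ρ N) : Prod.fst '' Pair ρ = ML ρ := by
  refine Subset.antisymm ?_ fun w hw => ?_
  · rintro _ ⟨x, hx, rfl⟩
    exact UPair_ml hx
  · obtain ⟨R, hR⟩ := hρ.exists_core_simple
    obtain ⟨χ, hχ⟩ := hρ.toDisc.exists_bump R
    obtain ⟨lam, Λ, T⟩ := exists_tup hρ hχ hR (mem_ml_iff.1 hw)
    exact ⟨_, T.pair (), rfl⟩

theorem pair_snd_eq (hρ : Disc ρ) {x y : (Teich ρ → ℝ) × (SC ρ → ℝ)} (hx : x ∈ Pair ρ)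
    (hy : y ∈ Pair ρ) (h : x.1 = y.1) : x.2 = y.2 := by
  have key : ∀ {x y : (Teich ρ → ℝ) × (SC ρ → ℝ)}, x ∈ Pair ρ → y ∈ Pair ρ → x.1 = y.1 →
      ∀ η, x.2 η ≤ y.2 η := fun {x y} hx hy h η => by
    simpa using pair_le hρ (P := Unit) (Q := Unit) (L := fun _ => y.1) (e := fun _ => y.2)
      (fun _ => hy) (L' := fun _ => x.1) (e' := fun _ => x.2) (fun _ => hx) zero_le_one
      (fun z => by simp [h]) η
  exact funext fun η => le_antisymm (key hx hy h η) (key hy hx h.symm η)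

theorem pair_fst_eq (hρ : Good ρ N) {x y : (Teich ρ → ℝ) × (SC ρ → ℝ)} (hx : x ∈ Pair ρ)
    (hy : y ∈ Pair ρ) (h : x.2 = y.2) : x.1 = y.1 := by
  obtain ⟨R, hR⟩ := hρ.exists_core_simple
  obtain ⟨χ, hχ⟩ := hρ.toDisc.exists_bump R
  obtain ⟨lam, Λ, T⟩ := exists_tup hρ hχ hR (mem_ml_iff.1 (UPair_ml hx))
  obtain ⟨lam', Λ', T'⟩ := exists_tup hρ hχ hR (mem_ml_iff.1 (UPair_ml hy))
  have h1 := pair_snd_eq hρ.toDisc hx (T.pair ()) rfl
  have h2 := pair_snd_eq hρ.toDisc hy (T'.pair ()) rfl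
  have h3 : ∀ η, Simple ρ η → ic (lam ()) (ρ η) = ic (lam' ()) (ρ η) := fun η hη =>
    congrFun (h1.symm.trans (h.trans h2)) ⟨η, hη⟩
  have h4 := T.nc _ _ (T.cur ()) (T'.cur ()) (T.car ()) fun η hη => (h3 η hη).ge
  rw [Fintype.sum_unique] at h4
  have hL := lam_support_union T.isLam T'.isLam (T.cur ()) (T'.cur ()) (T.car ()) (T'.car ()) h4
  have h5 := eq_of_ic_eq hρ hL (T.cur ()) (T'.cur ()) (measure_compl_support_union _ _).1
    (measure_compl_support_union _ _).2 h3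
  exact (T.len ()).trans ((congrArg (lenC χ) h5).trans (T'.len ()).symm)

theorem UPair_bound (hρ : Good ρ N) : ∃ (b : Teich ρ) (f : (SC ρ → ℝ) → ℝ), Continuous f ∧
    ∀ x ∈ Pair ρ, x.1 b ≤ f x.2 := by
  obtain ⟨F, D, -, hF, h⟩ :=
    exists_fill hρ (hρ.cover ⟨fun i => i.elim, fun i => i.elim⟩) hρ.hasDual
  refine ⟨Rep.cls ⟨ρ, _, IsMark.refl ρ⟩, fun e => D * ∑ f : F, e ⟨f.1, hF f.1 f.2⟩, by fun_prop,
    fun x hx => ?_⟩
  refine closure_minimal (t := {x : (Teich ρ → ℝ) × (SC ρ → ℝ) |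
    x.1 (Rep.cls ⟨ρ, _, IsMark.refl ρ⟩) ≤ D * ∑ f : F, x.2 ⟨f.1, hF f.1 f.2⟩}) ?_
    (isClosed_le (by fun_prop) (by fun_prop)) hx
  rintro _ ⟨g, s, hg, hs, rfl⟩
  have h1 := mul_le_mul_of_nonneg_left (h g hg) hs
  rw [← Finset.sum_coe_sort, mul_left_comm, Finset.mul_sum] at h1
  exact h1

theorem exists_len_map (hρ : Good ρ N) : ∃ Λ : (SC ρ → ℝ) → Teich ρ → ℝ,
    ContinuousOn Λ (Prod.snd '' Pair ρ) ∧ ∀ x ∈ Pair ρ, Λ x.2 = x.1 := by
  classical
  have h0 : ∀ e : SC ρ → ℝ, ∃ L : Teich ρ → ℝ, ∀ x ∈ Pair ρ, x.2 = e → L = x.1 := fun e => by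
    by_cases h : ∃ x ∈ Pair ρ, x.2 = e
    · obtain ⟨x, hx, rfl⟩ := h
      exact ⟨x.1, fun y hy h => pair_fst_eq hρ hx hy h.symm⟩
    · exact ⟨0, fun x hx h' => absurd ⟨x, hx, h'⟩ h⟩
  choose Λ hΛ using h0
  have h1 : ∀ x ∈ Pair ρ, Λ x.2 = x.1 := fun x hx => hΛ _ x hx rfl
  have h2 : ∀ e ∈ Prod.snd '' Pair ρ, (Λ e, e) ∈ Pair ρ := by
    rintro _ ⟨x, hx, rfl⟩
    rwa [h1 x hx]
  obtain ⟨b, f, hf, hb⟩ := UPair_bound hρ
  refine ⟨Λ, fun e he => (tendsto_iff_ultrafilter _ _ _).2 fun U hU => ?_, h1⟩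
  have h3 : ∀ᶠ e' in (U : Filter (SC ρ → ℝ)), (Λ e', e') ∈ Pair ρ :=
    hU (mem_of_superset self_mem_nhdsWithin h2)
  have h4 : (U : Filter (SC ρ → ℝ)) ≤ 𝓝 e := hU.trans nhdsWithin_le_nhds
  obtain ⟨L, -, hL⟩ := (isCompact_ml hρ b (f e + 1)).ultrafilter_le_nhds' (U.map Λ) (by
    rw [Ultrafilter.mem_map, ← Ultrafilter.mem_coe]
    filter_upwards [h3, ((hf.tendsto e).eventually
      (eventually_lt_nhds (lt_add_one _))).filter_mono h4] with e' h5 h6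
    exact ⟨UPair_ml h5, (hb _ h5).trans h6.le⟩)
  have h5 : (L, e) ∈ Pair ρ :=
    isClosed_closure.mem_of_tendsto (Tendsto.prodMk_nhds hL (tendsto_id'.2 h4)) h3
  rw [h1 _ h5]
  exact hL

theorem ml_le (hρ : Good ρ N) (hs : ∃ g, Simple ρ g) {w : Teich ρ → ℝ} (hw : w ∈ ML ρ)
    (y z : Teich ρ) : 0 ≤ w z ∧ w z ≤ exp (dTh y z) * w y :=
  ⟨TRep_nonneg hw z, TRep_le hρ hw y z⟩

theorem UPair_pos (hρ : Good ρ N) {w : Teich ρ → ℝ} (hw : w ∈ ML ρ) {b : Teich ρ} (hb : 0 < w b)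
    (z : Teich ρ) : 0 < w z :=
  (mul_pos_iff_of_pos_left (exp_pos _)).1 (hb.trans_le (TRep_le hρ hw z b))

theorem UPair_exp (hρ : Good ρ N) {b : Teich ρ} {f : C(Teich ρ, ℝ)} (hf : f ∈ PML b) :
    (fun z => exp (f z)) ∈ ML ρ ∧ exp (f b) = 1 := by
  obtain ⟨w, hw, hb, h⟩ := hf
  refine ⟨?_, by rw [h, div_self hb.ne', log_one, exp_zero]⟩
  have h1 := wt_mem_ml (wt_smul (mem_ml_iff.1 hw) (c := fun _ => (w b)⁻¹)
    fun _ => (inv_pos.2 hb).le) ()
  convert h1 using 2 with z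
  rw [h, exp_log (div_pos (UPair_pos hρ hw hb z) hb), div_eq_inv_mul]

theorem pml_homeo (hρ : Good ρ N) (hs : ∃ g, Simple ρ g) (b : Teich ρ) :
    Nonempty (PML b ≃ₜ {w // w ∈ ML ρ ∧ w b = 1}) := by
  have hp : ∀ (w : {w // w ∈ ML ρ ∧ w b = 1}) z, 0 < w.1 z := fun w =>
    UPair_pos hρ w.2.1 (w.2.2 ▸ one_pos)
  refine ⟨⟨⟨fun f => ⟨fun z => exp (f.1 z), UPair_exp hρ f.2⟩,
    fun w => ⟨⟨fun z => log (w.1 z), (continuous_of_ml hρ hs w.2.1).log fun z => (hp w z).ne'⟩,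
      w.1, w.2.1, hp w b, fun z => congrArg log ((div_one _).symm.trans (congrArg _ w.2.2.symm))⟩,
    fun f => Subtype.ext (ContinuousMap.ext fun z => log_exp _),
    fun w => Subtype.ext (funext fun z => exp_log (hp w z))⟩, ?_, ?_⟩⟩
  · exact Continuous.subtype_mk (continuous_pi fun z => continuous_exp.comp
      ((continuous_eval_const z).comp continuous_subtype_val)) _
  · refine Continuous.subtype_mk (continuous_iff_continuousAt.2 fun w => ?_) _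
    refine (tendsto_iff_pointwise hρ hs fun v z z' => ?_).2 fun z => ?_
    · have h2 := log_le_log (hp v z) (TRep_le hρ v.2.1 z' z)
      rw [log_mul (exp_pos _).ne' (hp v z').ne', log_exp] at h2
      exact sub_le_iff_le_add.2 h2
    · exact (((continuous_apply z).comp continuous_subtype_val).tendsto w).log (hp w z).ne'

end HRT
end

-- merged part: Pool.Agent.Work.MP_35beee_gt.USph
section
/-!
The space of projective measured laminations is a sphere.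
-/

namespace HRT

open Set Filter Topology Real

variable {Γ : Type} [Group Γ] {ρ : Γ →* Isom} {N : ℝ → ℝ} {ι : Type} [Fintype ι] {P : ι → Γ}
  {τ : Rep ρ → ι → ℝ} {Φ : (ι → ℝ × ℝ) → SC ρ → ℝ}

theorem USph_sub (hρ : Good ρ N) (hs : ∃ g, Simple ρ g) (hτ : Coord ρ P τ)
    (h1 : ∀ g, Hom1 fun v => Φ v g) (h2 : ∀ g : SC ρ, ∃ C : ℝ, ∀ x ∈ Long ρ P,
      |tl (x.1 g.1) - Φ (fun i => (lens P x i, τ x i)) g| ≤ C) {v : ι → ℝ × ℝ}
    (hv : v ∈ Half ι) : ∃ L, (L, Φ v) ∈ Pair ρ := by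
  choose x hx hx' using fun n : ℕ => hτ.ex (fun i => tl (ρ (P i)) + n * (v i).1)
    (fun i => n * (v i).2) fun i => le_add_of_nonneg_right (mul_nonneg n.cast_nonneg (hv i))
  refine exists_pair_of_lim hρ hs x fun g => ?_
  obtain ⟨C, hC⟩ := h2 g
  refine (h1 g).tendsto (c := fun x i => (lens P x i, τ x i)) hC
    (fun n i => by rw [hx]; exact le_add_of_nonneg_right (mul_nonneg n.cast_nonneg (hv i)))
    (w := fun i => (tl (ρ (P i)), 0)) fun n => ?_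
  funext i
  refine Prod.ext ?_ ?_ <;> simp [hx, hx']

theorem USph_curve (hρ : Disc ρ) (hP : Multi ρ P) (h1 : ∀ g, Hom1 fun v => Φ v g)
    (h2 : ∀ g : SC ρ, ∃ C : ℝ, ∀ x ∈ Long ρ P,
      |tl (x.1 g.1) - Φ (fun i => (lens P x i, τ x i)) g| ≤ C) (hc : IsClosed (Φ '' Half ι))
    {g : Γ} (hg : Simple ρ g) : (fun η : SC ρ => (inter ρ η.1 g : ℝ)) ∈ Φ '' Half ι := by
  obtain ⟨F, -, -, hF⟩ := exists_flow_exact hρ (R := fun _ : Unit => g)
    ⟨fun _ => hg, fun i j h => absurd (Subsingleton.elim i j) h⟩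
    (Rep.cls ⟨ρ, _, IsMark.refl ρ⟩)
  choose y hy using fun n : ℕ => cls_surjective (F fun _ => n)
  have hy' : ∀ (n : ℕ) (a : Γ), Hyp (ρ a) → |tl ((y n).1 a) - tl (ρ a)| ≤ n * inter ρ a g ∧
      (n : ℝ) * inter ρ a g ≤ tl ((y n).1 a) + tl (ρ a) := fun n a ha => by
    have := hF (fun _ => n) a ha
    rw [← hy] at this
    simp only [Finset.univ_unique, Finset.sum_singleton, Nat.abs_cast] at this
    exact ⟨this.1, (le_abs_self _).trans this.2⟩
  have hl : ∀ᶠ n : ℕ in atTop, y n ∈ Long ρ P := by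
    refine eventually_all.2 fun i => ?_
    filter_upwards [tendsto_natCast_atTop_atTop.eventually_ge_atTop (2 * tl (ρ (P i)))] with n hn
    obtain ⟨a1, a2⟩ := hy' n _ (hP.1 i).hyp
    change tl (ρ (P i)) ≤ tl ((y n).1 (P i))
    rcases Nat.eq_zero_or_pos (inter ρ (P i) g) with h | h
    · rw [h, Nat.cast_zero, mul_zero] at a1
      linarith [(abs_le.1 a1).1]
    · have : (n : ℝ) * 1 ≤ n * inter ρ (P i) g :=
        mul_le_mul_of_nonneg_left (Nat.one_le_cast.2 h) n.cast_nonneg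
      linarith
  refine hc.mem_of_tendsto (b := atTop)
    (f := fun n : ℕ => Φ ((n : ℝ)⁻¹ • fun i => (lens P (y n) i, τ (y n) i))) ?_
    (Eventually.of_forall fun n => mem_image_of_mem _ fun i =>
      mul_nonneg (inv_nonneg.2 n.cast_nonneg) (tl_nonneg _))
  refine tendsto_pi_nhds.2 fun η => ?_
  obtain ⟨C, hC⟩ := h2 η
  rw [tendsto_iff_norm_sub_tendsto_zero]
  refine squeeze_zero' (Eventually.of_forall fun n => norm_nonneg _) ?_
    (tendsto_const_div_atTop_nhds_zero_nat (C + tl (ρ η.1)))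
  filter_upwards [hl, eventually_gt_atTop 0] with n hn h0
  have h0' : (0 : ℝ) < n := Nat.cast_pos.2 h0
  have e := (h1 η).2 _ (inv_nonneg.2 h0'.le) fun i => (lens P (y n) i, τ (y n) i)
  dsimp only at e
  obtain ⟨a1, a2⟩ := hy' n _ η.2.hyp
  have a3 := abs_le.1 (hC _ hn)
  have a4 := abs_le.1 a1
  rw [e, Real.norm_eq_abs, le_div_iff₀ h0', ← abs_of_pos h0', ← abs_mul, abs_of_pos h0', sub_mul,
    mul_comm _ (n : ℝ), ← mul_assoc, mul_inv_cancel₀ h0'.ne', one_mul, abs_le]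
  constructor <;> linarith [tl_nonneg (ρ η.1)]

theorem pml_sphere (hρ : Good ρ N) (hs : ∃ g, Simple ρ g) (b : Teich ρ) {k : ℕ} {R : Fin k → Γ}
    (hR : Multi ρ R) (hm : ¬ ∃ Q : Fin (k + 1) → Γ, Multi ρ Q) :
    Nonempty (PML b ≃ₜ Metric.sphere (0 : EuclideanSpace ℝ (Fin (2 * k))) 1) := by
  have hd := hρ.toDisc
  obtain ⟨k', P, e, hP, hmax, he, -⟩ := exists_isMax hρ hR
  have hk : k' = k := by
    have h1 : k ≤ k' := by simpa using Fintype.card_le_of_injective e he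
    by_contra hne
    have h2 : k + 1 ≤ k' := by omega
    exact hm ⟨P ∘ Fin.castLE h2, hP.comp (Fin.castLE_injective h2)⟩
  subst hk
  obtain ⟨δ, hδ⟩ := hρ.exists_duals hP
  obtain ⟨τ, hτ⟩ := hmax.exists_coord hρ hδ
  obtain ⟨Φ, h1, h2, h3⟩ := hτ.exists_phi hd hδ
  obtain ⟨Λ, hΛ, hΛ'⟩ := exists_len_map hρ
  have hsm : ∀ s : ℝ, 0 ≤ s → ∀ v, Φ (s • v) = s • Φ v := fun s hs v =>
    funext fun g => (h1 g).2 s hs v
  have hH : ∀ s : ℝ, 0 ≤ s → ∀ v ∈ Half (Fin k'), s • v ∈ Half (Fin k') := fun s hs v hv i =>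
    mul_nonneg hs (hv i)
  have hz : Φ 0 = 0 := by simpa using hsm 0 le_rfl 0
  have h0 : ∀ v ∈ Half (Fin k'), Φ v = 0 → v = 0 := fun v hv h => by
    have := (h3 v hv 0 fun i => le_rfl).1 (h.trans hz.symm)
    funext i
    obtain ⟨a1, a2 | a2⟩ := this i
    · exact Prod.ext a1 a2
    · exact Prod.ext a1 (by simpa using a2.2)
  have hcl : IsClosed (Φ '' Half (Fin k')) := isClosed_image_cone
    (by
      rw [Half, ofPred_forall]
      exact isClosed_iInter fun i => isClosed_le continuous_const (by fun_prop)) hH h1 h0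
  have hL : ∀ v ∈ Half (Fin k'), (Λ (Φ v), Φ v) ∈ Pair ρ := fun v hv => by
    obtain ⟨L, hL⟩ := USph_sub hρ hs hτ h1 h2 hv
    rwa [show Λ (Φ v) = L from hΛ' _ hL]
  have hr : ∀ x ∈ Pair ρ, x.2 ∈ Φ '' Half (Fin k') := by
    refine closure_minimal (t := Prod.snd ⁻¹' (Φ '' Half (Fin k'))) ?_
      (hcl.preimage continuous_snd)
    rintro _ ⟨g, s, hg, hs, rfl⟩
    obtain ⟨v, hv, e⟩ := USph_curve hd hP h1 h2 hcl hg
    exact ⟨s • v, hH s hs v hv, by rw [hsm s hs, e]; rfl⟩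
  have hml : ∀ x ∈ Pair ρ, x.1 ∈ ML ρ := fun x hx => fst_image_pair hρ ▸ mem_image_of_mem _ hx
  have h00 : ((0, 0) : (Teich ρ → ℝ) × (SC ρ → ℝ)) ∈ Pair ρ := by
    have := pair_smul (hL 0 fun i => le_rfl) le_rfl
    rwa [zero_smul] at this
  have hpos : ∀ v ∈ Half (Fin k'), v ≠ 0 → 0 < Λ (Φ v) b := fun v hv hne => by
    have hw := hml _ (hL v hv)
    refine (ml_le hρ hs hw b b).1.lt_of_ne fun h => hne (h0 v hv ?_)
    refine pair_snd_eq hd (hL v hv) h00 (funext fun z => ?_)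
    obtain ⟨a1, a2⟩ := ml_le hρ hs hw b z
    dsimp only at h a1 a2 ⊢
    rw [← h, mul_zero] at a2
    exact le_antisymm a2 a1
  have hcont : Continuous fun v : {v // v ∈ Half (Fin k') ∧ v ≠ 0} => Λ (Φ v.1) :=
    hΛ.comp_continuous ((continuous_pi fun g => (h1 g).1).comp continuous_subtype_val)
      fun v => mem_image_of_mem Prod.snd (hL v.1 v.2.1)
  obtain ⟨e₁⟩ := pml_homeo hρ hs b
  obtain ⟨e₂⟩ := homeo_sphere (Y := {w // w ∈ ML ρ ∧ w b = 1})
    (G := fun v => ⟨(Λ (Φ v.1) b)⁻¹ • Λ (Φ v.1),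
      hml _ (pair_smul (hL v.1 v.2.1) (inv_nonneg.2 (hpos _ v.2.1 v.2.2).le)),
      inv_mul_cancel₀ (hpos _ v.2.1 v.2.2).ne'⟩)
    (Continuous.subtype_mk ((((continuous_apply b).comp hcont).inv₀
      fun v => (hpos _ v.2.1 v.2.2).ne').smul hcont) _)
    (by
      rintro ⟨w, hw, hb⟩
      obtain ⟨x, hx, rfl⟩ := fst_image_pair hρ ▸ hw
      obtain ⟨v, hv, e⟩ := hr x hx
      have e' : Λ (Φ v) = x.1 := by rw [e, hΛ' x hx]
      refine ⟨⟨v, hv, ?_⟩, Subtype.ext ?_⟩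
      · rintro rfl
        rw [← e', hz, hΛ' _ h00] at hb
        exact zero_ne_one hb
      · dsimp only
        rw [e', hb, inv_one, one_smul])
    (by
      rintro ⟨v, hv, hv'⟩ ⟨w, hw, hw'⟩
      have p1 := hpos v hv hv'
      have p2 := hpos w hw hw'
      simp only [Subtype.mk.injEq]
      constructor
      · intro h
        have p3 := div_pos p1 p2
        refine ⟨_, p3, (h3 v hv _ (hH _ p3.le w hw)).1 ?_⟩
        rw [hsm _ p3.le]
        refine pair_snd_eq hd (hL v hv) (pair_smul (hL w hw) p3.le) ?_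
        change Λ (Φ v) = (Λ (Φ v) b / Λ (Φ w) b) • Λ (Φ w)
        rw [div_eq_mul_inv, mul_smul, ← h, smul_smul, mul_inv_cancel₀ p1.ne', one_smul]
      · rintro ⟨s, hs, h⟩
        have e := (h3 v hv _ (hH _ hs.le w hw)).2 h
        have e' : Λ (Φ v) = s • Λ (Φ w) := by
          rw [e, hsm _ hs.le]
          exact hΛ' _ (pair_smul (hL w hw) hs.le)
        rw [e', Pi.smul_apply, smul_eq_mul, smul_smul, mul_inv, mul_comm s⁻¹, mul_assoc,
          inv_mul_cancel₀ hs.ne', mul_one])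
  exact ⟨e₁.trans e₂⟩

end HRT
end
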