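import Mathlib

/-!
Spheres and embeddings, for the statement of the main theorem.
-/

namespace HRT

/-- `X` is homeomorphic to the unit sphere of `ℝ^m` (a sphere of dimension `m - 1`). -/
def IsSphere {E : Type*} [TopologicalSpace E] (X : Set E) (m : ℕ) : Prop :=
  Nonempty (X ≃ₜ Metric.sphere (0 : EuclideanSpace ℝ (Fin m)) 1)

/-- The functions `ψ x` are continuous, and `x ↦ ψ x` is a topological embedding into the space of
continuous functions with the compact-open topology. -/
def Embeds {T : Type*} [TopologicalSpace T] (ψ : T → T → ℝ) : Prop :=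
  ∃ Ψ : T → C(T, ℝ), Topology.IsEmbedding Ψ ∧ ∀ x z, Ψ x z = ψ x z

end HRT
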