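import Pool.Agent.Work.MP_35beee_gt.USph
import Pool.Agent.Work.MP_35beee_gt.VAsym
import Pool.Agent.Work.MP_35beee_gt.TCell

-- merged part: Pool.Agent.Work.MP_35beee_gt.VForm
section
/-!
The offsets and distances in the trace formula depend only on the lengths of the pants curves.

Plan. `spair_dep`: `IsPants.code` gives `MP nx E a b` or `b = y * a * y⁻¹` with `MP nx E a y`; the
frames of `frFam` (field `fr`) in the markings `x`, `y` have equal lengths (members of `Obj ρ P` are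
parabolic or lie in `cls ρ (P i)`; `tl_of_mem_cls`), so `Frame.exists_conj` conjugates one to the other;
`ft_conj`, `UForm_mp`, invariance of `ldist` under isometries (`Hyp.ax_conj`, `nrm`, `B_lin`).
`exists_form_dep`: repeat the proofs of `UForm_off` (the identity `key`) and `PG.exists_form`;
positivity of the distances from the last part of `dist_spair` (`cosh ≤ exp * sinh` gives `0 < sinh`).
-/

namespace HRT

open Set Real

variable {Γ : Type} [Group Γ] {ρ : Γ →* Isom} {N : ℝ → ℝ} {D : Type} {nx gl : Equiv.Perm D}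
  {E t : D → Γ} {ι : Type} [Fintype ι] {P : ι → Γ}

omit [Fintype ι] in
theorem VForm_tl {a : Γ} (ha : a ∈ Obj ρ P) {x y : Rep ρ} (hl : lens P x = lens P y) :
    tl (x.1 a) = tl (y.1 a) := by
  rcases ha with ⟨i, hi⟩ | hc
  · rw [tl_of_mem_cls hi x.1, tl_of_mem_cls hi y.1]
    exact congrFun hl i
  · rw [PDM_tl_zero x fun h => h.not_par hc.1, PDM_tl_zero y fun h => h.not_par hc.1]

omit [Fintype ι] in
theorem VForm_conj (h : IsPants ρ nx E) (hρ : Disc ρ) (hO : objs E = Obj ρ P) {a b : Γ}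
    (hm : MP nx E a b) {x y : Rep ρ} (hl : lens P x = lens P y) : Face (x.1 a) (x.1 b) ∧
      ∃ A : Isom, A * x.1 a * A⁻¹ = y.1 a ∧ A * x.1 b * A⁻¹ = y.1 b := by
  obtain ⟨h1, h2, h3, h4⟩ := h.fo hρ hm
  rw [hO] at h1 h2 h3
  obtain ⟨f, hf⟩ := x.2
  obtain ⟨f', hf'⟩ := y.2
  obtain ⟨A, e1, e2, -⟩ := (hf.frame h4).exists_conj (hf'.frame h4) (VForm_tl h1 hl)
    (VForm_tl h2 hl) (VForm_tl h3 hl)
  exact ⟨(hf.frame h4).2.1, A, e1, e2⟩

theorem IsPants.spair_dep (h : IsPants ρ nx E) (hρ : Disc ρ) (hP : Multi ρ P)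
    (hO : objs E = Obj ρ P) {d : D} (hd : Hyp (ρ (E d))) (g : Γ) {b : Γ} (hb : Hyp (ρ b))
    (hs : SPair ρ (objs E) (g * E d * g⁻¹) b) {x y : Rep ρ} (hl : lens P x = lens P y) :
    ft (x.1 (g * E d * g⁻¹)) (x.1 b) - ft (x.1 (g * E d * g⁻¹)) (x.1 (g * E (nx d) * g⁻¹)) =
      ft (y.1 (g * E d * g⁻¹)) (y.1 b) - ft (y.1 (g * E d * g⁻¹)) (y.1 (g * E (nx d) * g⁻¹)) ∧
    ldist (ax (x.1 (g * E d * g⁻¹))) (ax (x.1 b)) =
      ldist (ax (y.1 (g * E d * g⁻¹))) (ax (y.1 b)) := by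
  have ha : Hyp (ρ (g * E d * g⁻¹)) := (PDual_hyp (POs_isConj g (E d))).2 hd
  have H : ∃ z, MP nx E (g * E d * g⁻¹) z ∧ ∀ A : Isom,
      A * x.1 (g * E d * g⁻¹) * A⁻¹ = y.1 (g * E d * g⁻¹) → A * x.1 z * A⁻¹ = y.1 z →
        A * x.1 b * A⁻¹ = y.1 b := by
    rcases h.code hρ hs with hm | ⟨z, hm, rfl⟩
    · exact ⟨b, hm, fun A _ e => e⟩
    · refine ⟨z, hm, fun A e1 e2 => ?_⟩
      rw [POs_conj x.1 z, POs_conj y.1 z, ← e1, ← e2]
      group
  obtain ⟨z, hm, H⟩ := H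
  obtain ⟨k, hk⟩ := UForm_mp h hd hm
  obtain ⟨f1, A, e1, e2⟩ := VForm_conj h hρ hO hm hl
  have e3 := H A e1 e2
  obtain ⟨f, hf⟩ := x.2
  have t1 := ft_conj (UForm_hyp x ha) (Or.inl f1) A
  have t2 := ft_conj (UForm_hyp x ha) (Or.inl (hf.face hs.1.face)) A
  rw [e1, e2] at t1
  rw [e1, e3] at t2
  have t3 : tl (x.1 (E d)) = tl (y.1 (E d)) := VForm_tl (hO ▸ PPants_self E d) hl
  have t4 := hk x
  have t5 := hk y
  rw [t3] at t4
  refine ⟨by linarith, ?_⟩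
  rw [← e1, ← e3, (UForm_hyp x ha).ax_conj, (UForm_hyp x hb).ax_conj, ldist_smul]

theorem VForm_off (h : PG ρ nx gl E t) (hρ : Disc ρ) (hP : Multi ρ P)
    (hO : objs E = Obj ρ P) {a : ι → D} (ha : ∀ i, IsConj (E (a i)) (P i)) {g : Γ}
    (hg : Simple ρ g) {p : ℕ} {m : ℤ → Γ} (hs : XSeq ρ (objs E) g p m) {n : ℤ} {i : ι}
    (hi : m n ∈ cls ρ (P i)) {x y : Rep ρ} (hl : lens P x = lens P y) :
    xp (ax (x.1 (m n))) (ax (x.1 (m (n + 1)))) -
      xp (ax (x.1 (m n))) (ax (x.1 (m (n - 1)))) - tauD nx gl E t (a i) x =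
    xp (ax (y.1 (m n))) (ax (y.1 (m (n + 1)))) -
      xp (ax (y.1 (m n))) (ax (y.1 (m (n - 1)))) - tauD nx gl E t (a i) y ∧
    ldist (ax (x.1 (m n)⁻¹)) (ax (x.1 (m (n + 1)))) =
      ldist (ax (y.1 (m n)⁻¹)) (ax (y.1 (m (n + 1)))) := by
  obtain ⟨e, he⟩ := hs.mem n
  have hE : Hyp (ρ (E e)) := (PDual_hyp he).1 (hs.hyp n)
  have c1 : E e ∈ cls ρ (P i) := by
    rw [← cls_eq hi, cls_eq (Or.inl he : m n ∈ cls ρ (E e))]
    exact mem_cls_self _
  have c2 : E (gl e) ∈ cls ρ (P i) := by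
    rw [← cls_eq c1, ← h.cls_gl e]
    exact mem_cls_self _
  have hE' : Hyp (ρ (E (gl e))) := POs_hyp (hP.1 i).hyp c2
  have htau : ∀ x : Rep ρ, tauD nx gl E t (a i) x = tauD nx gl E t e x := fun x => by
    have c3 : E e ∈ cls ρ (E (a i)) := by
      rw [← cls_eq (Or.inl (ha i) : P i ∈ cls ρ (E (a i)))]
      exact c1
    rcases (h.mem_cls_iff (a i) e).1 c3 with rfl | rfl
    · rfl
    · exact (h.tauD_gl ((PDual_hyp (ha i)).1 (hP.1 i).hyp) x).symm
  obtain ⟨k, hk⟩ := isConj_iff.1 he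
  have hk' : k * t e * E (gl e) * (k * t e)⁻¹ = (m n)⁻¹ := by
    rw [h.hyp e hE, ← hk]
    group
  have s1 := hs.spair h.sys hρ hg n
  have s2 := (hs.spair h.sys hρ hg (n - 1)).symm h.sys
  rw [sub_add_cancel] at s2
  have o1 := h.toIsPants.spair_dep hρ hP hO hE' (k * t e) (hs.hyp (n + 1)) (hk'.symm ▸ s1) hl
  have o2 := h.toIsPants.spair_dep hρ hP hO hE k (POs_hyp_inv (hs.hyp (n - 1))) (hk.symm ▸ s2) hl
  rw [hk'] at o1
  rw [hk] at o2
  have key : ∀ x : Rep ρ, xp (ax (x.1 (m n))) (ax (x.1 (m (n + 1)))) -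
      xp (ax (x.1 (m n))) (ax (x.1 (m (n - 1)))) - tauD nx gl E t (a i) x =
      -(ft (x.1 (m n)⁻¹) (x.1 (m (n + 1))) -
        ft (x.1 (m n)⁻¹) (x.1 (k * t e * E (nx (gl e)) * (k * t e)⁻¹))) -
      (ft (x.1 (m n)) (x.1 (m (n - 1))⁻¹) - ft (x.1 (m n)) (x.1 (k * E (nx e) * k⁻¹))) := by
    intro x
    obtain ⟨f, hf⟩ := x.2
    have hm := UForm_hyp x (hs.hyp n)
    have f1 := hf.face s1.1.face
    have f2 := hf.face s2.1.face
    rw [map_inv] at f1
    have x1 := xp_eq_ft hm (UForm_hyp x (hs.hyp (n + 1))) (Or.inr f1)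
    have x2 := xp_eq_ft hm (UForm_hyp x (POs_hyp_inv (hs.hyp (n - 1)))) (Or.inl f2)
    rw [CSeq_inv (UForm_hyp x (hs.hyp (n - 1))), xp_rev_right] at x2
    have x3 := ft_conj (UForm_hyp x hE) (Or.inr (h.face_t hE x)) (x.1 k)
    have x4 := ft_conj (UForm_hyp x hE) (Or.inl ((h.toIsPants.mark hf).frame e).2.1) (x.1 k)
    rw [← POs_conj, ← POs_conj, hk] at x3 x4
    have x5 : k * (t e * E (nx (gl e)) * (t e)⁻¹) * k⁻¹ =
        k * t e * E (nx (gl e)) * (k * t e)⁻¹ := by group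
    rw [x5] at x3
    rw [htau x, tauD, x1, x2, map_inv x.1 (m n), ft_inv_left hm, ft_inv_left hm, x3, x4]
    ring
  exact ⟨by rw [key x, key y, o1.1, o2.1], o1.2⟩

theorem PG.exists_form_dep (h : PG ρ nx gl E t) (hρ : Disc ρ) (hP : Multi ρ P)
    (hO : objs E = Obj ρ P) {a : ι → D} (ha : ∀ i, IsConj (E (a i)) (P i)) {g : Γ}
    (hg : Simple ρ g) (hc : ∃ i, inter ρ g (P i) ≠ 0) :
    ∃ (p : ℕ) (j : ℕ → ι) (u d : ℕ → Rep ρ → ℝ), 0 < p ∧ (∀ n, inter ρ g (P (j n)) ≠ 0) ∧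
      (∀ x : Rep ρ, 2 * cosh (tl (x.1 g) / 2) =
        trc p (fun n => tauD nx gl E t (a (j n)) x + u n x) fun n => d n x) ∧
      (∀ n x, 0 < d n x) ∧
      ∀ n x y, lens P x = lens P y → u n x = u n y ∧ d n x = d n y := by
  obtain ⟨i0, hi0⟩ := hc
  obtain ⟨p, m, hs⟩ := h.sys.exists_seq hρ hg.hyp
    ⟨P i0, hO ▸ Or.inl ⟨i0, mem_cls_self _⟩, (hP.1 i0).hyp, hi0⟩
  choose J hJ using fun n : ℤ => CTw2_mem (hO ▸ hs.mem n) (hs.hyp n)
  have hd : ∀ (n : ℤ) (x : Rep ρ), ldist (ax (x.1 (m n)⁻¹)) (ax (x.1 (m (n + 1)))) =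
      ldist (ax (x.1 (m n))) (ax (x.1 (m (n + 1)))) := fun n x => by
    rw [map_inv, (UForm_hyp x (hs.hyp n)).ax_inv, ldist_rev_left]
  have hD := fun n : ℤ => h.toIsPants.dist_spair hρ hP hO (POs_hyp_inv (hs.hyp n))
    (hs.hyp (n + 1)) (hs.spair h.sys hρ hg n)
  simp only [hd] at hD
  refine ⟨p, fun n => J n, fun n x => xp (ax (x.1 (m n))) (ax (x.1 (m (n + 1)))) -
    xp (ax (x.1 (m n))) (ax (x.1 (m (n - 1)))) - tauD nx gl E t (a (J n)) x,
    fun n x => ldist (ax (x.1 (m n))) (ax (x.1 (m (n + 1)))), hs.chain.pos, fun n => ?_,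
    fun x => ?_, fun n x => ?_, fun n x y hl => ?_⟩
  · rw [Ne, hρ.inter_eq_zero_iff hg.hyp (hP.1 _).hyp (hP.1 _).prim]
    intro h0
    have h1 : Cross (ax (ρ g)) (ax (ρ (m n))) :=
      CSeq_cross (O := objs E) ⟨hs.mem n, hs.hyp n, hs.chain.src n, hs.chain.tgt n⟩
    obtain ⟨k, hk | hk⟩ := POs_ax (hP.1 _).hyp (hJ n)
    · exact h0 k (hk ▸ h1)
    · rw [hk, cross_rev_right] at h1
      exact h0 k h1
  · obtain ⟨f, hf⟩ := x.2
    rw [(hs.chain_mark hf).trc_eq]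
    refine congrArg (fun u => trc p u _) (funext fun n => ?_)
    ring
  · have h1 := (cosh_pos _).trans_le ((hD n).2.2 x).1
    have h2 := sinh_pos_iff.1 ((mul_pos_iff_of_pos_left (exp_pos _)).1 h1)
    exact pos_of_mul_pos_right (a := 1 / 2) (by linarith) (by norm_num)
  · have h1 := VForm_off h hρ hP hO ha hg hs (hJ n) hl
    rw [hd, hd] at h1
    exact h1

end HRT
end

-- merged part: Pool.Agent.Work.MP_35beee_gt.VInj
section
/-!
Length and twist coordinates determine the point of Teichmueller space.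
-/

namespace HRT

open Set Real

variable {Γ : Type} [Group Γ] {ρ : Γ →* Isom} {N : ℝ → ℝ} {D : Type} {nx gl : Equiv.Perm D}
  {E t : D → Γ}

theorem PG.cls_eq_of_coord (h : PG ρ nx gl E t) (hρ : Good ρ N) {x y : Rep ρ}
    (hl : ∀ d, tl (x.1 (E d)) = tl (y.1 (E d)))
    (hτ : ∀ d, Hyp (ρ (E d)) → tauD nx gl E t d x = tauD nx gl E t d y) : x.cls = y.cls := by
  obtain ⟨k, hk⟩ := x.2
  obtain ⟨k', hk'⟩ := y.2
  choose A a1 a2 a3 using fun d => (hk.frame (h.frame d)).exists_conj (hk'.frame (h.frame d))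
    (hl _) (hl _) (hl _)
  have hA : ∀ d, A (nx d) = A d := fun d => by
    refine PCC_uniq (hk.frame (h.frame (nx d))) ((a1 _).trans (a2 d).symm)
      ((a2 _).trans (a3 d).symm) ((a3 _).trans ?_)
    rw [h.cube, a1]
  have ht : ∀ d, y.1 (t d) = A d * x.1 (t d) * (A (gl d))⁻¹ := by
    intro d
    by_cases hd : Hyp (ρ (E d))
    · obtain ⟨u, hu⟩ : ∃ u : Isom, u = (A d)⁻¹ * y.1 (t d) * A (gl d) * (x.1 (t d))⁻¹ := ⟨_, rfl⟩
      have hx := UCo_hyp hd x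
      have e0 : y.1 (t d) = A d * (u * x.1 (t d)) * (A (gl d))⁻¹ := by rw [hu]; group
      have e1 := a1 (gl d)
      rw [h.hyp d hd] at e1
      simp only [map_mul, map_inv] at e1
      have e2 : u * x.1 (E d) * u⁻¹ = x.1 (E d) := by
        calc u * x.1 (E d) * u⁻¹ = (A d)⁻¹ * (y.1 (t d) * (A (gl d) * ((x.1 (t d))⁻¹ *
              (x.1 (E d))⁻¹ * x.1 (t d)) * (A (gl d))⁻¹)⁻¹ * (y.1 (t d))⁻¹) * A d := by
              rw [hu]; group
          _ = (A d)⁻¹ * y.1 (E d) * A d := by rw [e1]; group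
          _ = x.1 (E d) := by rw [← a1 d]; group
      have e3 : u = trans (ax (x.1 (E d))) (sh u (ax (x.1 (E d)))) := by
        refine eq_trans_of_smul_eq ?_
        rw [← hx.ax_conj, e2]
      have e4 := UCo_tau h hd x y A u hA (fun d => (a1 d).symm) e0
      rw [e3, ft_trans hx (Or.inr (h.face_t hd x)), ← hτ d hd, tauD] at e4
      have e5 : sh u (ax (x.1 (E d))) = 0 := by linarith
      rw [e5, trans_zero] at e3
      rw [e0, e3, one_mul]
    · rw [(h.par d hd).1, (h.par d hd).2]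
      simp
  obtain ⟨d₀⟩ := h.ne
  refine cls_eq_iff.2 ⟨A d₀, fun g => ?_⟩
  refine h.walk_ind hρ (P := fun d g => y.1 g = A d₀ * x.1 g * (A d)⁻¹) (d₀ := d₀) (g₀ := 1)
    (by simp) ?_ ?_ ?_ ?_ d₀ g
  · intro d g e
    rw [hA, e]
  · intro d g e
    rw [map_mul, map_mul, e, ← a1]
    group
  · intro d g e
    rw [map_mul, map_mul, map_inv, map_inv, e, ← a1]
    group
  · intro d g e
    rw [map_mul, map_mul, e, ht]
    group

end HRT
end

-- merged part: Pool.Agent.Work.MP_35beee_gt.VEmb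
section
/-!
Lengths of simple closed curves up to a factor determine the point of Teichmueller space, and the
map `psi b` is a topological embedding.
-/

namespace HRT

open Set Real Filter Topology

variable {Γ : Type} [Group Γ] {ρ : Γ →* Isom} {N : ℝ → ℝ}

theorem VEmb_seq {D : Type} {nx gl : Equiv.Perm D} {E t : D → Γ} {ι : Type} [Fintype ι]
    {P δ : ι → Γ} (h : PG ρ nx gl E t) (hρ : Good ρ N) (hd : Duals ρ P δ)
    (hO : objs E = Obj ρ P) {a : ι → D} (ha : ∀ i, IsConj (E (a i)) (P i)) (i : ι) :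
    ∃ (p : ℕ) (g : ℕ → Γ) (u d : ℕ → Rep ρ → ℝ), 0 < p ∧ (∀ k, Simple ρ (g k)) ∧
      (∀ (x : Rep ρ) (k : ℕ), 2 * cosh (tl (x.1 (g k)) / 2) =
        trc p (fun n => tauD nx gl E t (a i) x + k * lens P x i + u n x) fun n => d n x) ∧
      (∀ n x, 0 < d n x) ∧ ∀ n x y, lens P x = lens P y → u n x = u n y ∧ d n x = d n y := by
  have hP := hd.multi
  have hc : inter ρ (δ i) (P i) ≠ 0 := fun h0 => by
    have := (hρ.toDisc.inter_eq_zero_iff (hd.simple i).hyp (hP.1 i).hyp (hP.1 i).prim).1 h0 1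
    rw [map_one, one_smul] at this
    exact this (hd.cross i).symm
  obtain ⟨p, j, u, d, hp, h1, h2, h3, h4⟩ :=
    h.exists_form_dep hρ.toDisc hP hO ha (hd.simple i) ⟨i, hc⟩
  have hj : ∀ n, j n = i := fun n => by
    by_contra hne
    exact h1 n (hd.disj i _ hne)
  choose φ hφ k1 k2 using fun k : ℕ => h.exists_twist_all hρ k
  refine ⟨p, fun k => φ k (δ i), u, d, hp, fun k => ((hφ k).simple_iff _).2 (hd.simple i),
    fun x k => ?_, h3, h4⟩
  have hl : lens P (x.act (hφ k)) = lens P x := funext fun i => by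
    have h5 : IsConj (φ k (E (a i))) (φ k (P i)) := (φ k).toMonoidHom.map_isConj (ha i)
    exact POs_tl (((ha i).symm.trans (k1 k (a i))).trans h5) x.1
  have e := h2 (x.act (hφ k))
  rw [Rep.act_apply] at e
  rw [e]
  congr 1
  · funext n
    rw [hj, (h4 n _ _ hl).1, k2 k x (a i) ((PDual_hyp (ha i)).1 (hP.1 i).hyp), ← POs_tl (ha i) x.1,
      Int.cast_natCast]
    rfl
  · funext n
    exact (h4 n _ _ hl).2

theorem eq_of_prop (hρ : Good ρ N) (hs : ∃ g, Simple ρ g) {x y : Teich ρ} {c : ℝ} (hc : 0 < c)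
    (H : ∀ g, Simple ρ g → len y g = c * len x g) : x = y := by
  obtain ⟨x, rfl⟩ := cls_surjective x
  obtain ⟨y, rfl⟩ := cls_surjective y
  simp only [len_cls] at H
  obtain ⟨γ, hγ⟩ := hs
  obtain ⟨k, P, e, hP, ⟨n, nx, E, h, hO⟩, -, -⟩ := exists_isMax hρ (R := fun _ : Unit => γ)
    ⟨fun _ => hγ, fun i j h => absurd (Subsingleton.elim i j) h⟩
  obtain ⟨δ, hd⟩ := hρ.exists_duals hP
  obtain ⟨gl, t, hpg⟩ := h.exists_pg hρ.toDisc
  have h0 : ∀ i, P i ∈ objs E := fun i => hO ▸ Or.inl ⟨i, mem_cls_self _⟩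
  choose a ha using h0
  have hpos : ∀ (z : Rep ρ) i, 0 < lens P z i := fun z i => UForm_hyp z (hP.1 i).hyp
  have key : ∀ (x y : Rep ρ) (c : ℝ), 0 < c → (∀ g, Simple ρ g → tl (y.1 g) = c * tl (x.1 g)) →
      c ≤ 1 := by
    intro x y c hc H
    obtain ⟨p, g, u, d, hp, h1, h2, h3, -⟩ := VEmb_seq hpg hρ hd hO ha (e ())
    refine shift_le hp (fun n => h3 n x) (fun n => h3 n y) (hpos x _) hc
      (L := fun k => tl (x.1 (g k))) (fun _ => tl_nonneg _) (h2 x)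
      (h' := fun n => u n y) (τ' := tauD nx gl E t (a (e ())) y) fun k => ?_
    rw [← H _ (h1 k), h2 y, lens, lens, H _ (hP.1 _)]
  have h1 : c = 1 := by
    refine le_antisymm (key x y c hc H) ((inv_le_one₀ hc).1 (key y x c⁻¹ (inv_pos.2 hc) ?_))
    intro g hg
    rw [H g hg, inv_mul_cancel_left₀ hc.ne']
  simp only [h1, one_mul] at H
  have hl : lens P x = lens P y := funext fun i => (H _ (hP.1 i)).symm
  have h2 : ∀ i, tauD nx gl E t (a i) x = tauD nx gl E t (a i) y := by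
    intro i
    obtain ⟨p, g, u, d, hp, h1, h2, h3, h4⟩ := VEmb_seq hpg hρ hd hO ha i
    refine shift_eq hp (fun n => h3 n x) (hpos x i) (L := fun k => tl (x.1 (g k)))
      (fun _ => tl_nonneg _) (h2 x) fun k => ?_
    rw [← H _ (h1 k), h2 y, hl]
    simp only [(h4 _ x y hl).1, (h4 _ x y hl).2]
  refine hpg.cls_eq_of_coord hρ (fun d => ?_) fun d hh => ?_
  · by_cases hh : Hyp (ρ (E d))
    · obtain ⟨i, hi⟩ := CTw2_mem (hO ▸ PPants_self E d) hh
      rw [tl_of_mem_cls hi, tl_of_mem_cls hi, H _ (hP.1 i)]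
    · obtain ⟨f, hf⟩ := x.2
      obtain ⟨f', hf'⟩ := y.2
      have h3 : ¬ 0 < tl (x.1 (E d)) := fun e => hh ((hf.hyp_iff _).1 e)
      have h4 : ¬ 0 < tl (y.1 (E d)) := fun e => hh ((hf'.hyp_iff _).1 e)
      linarith [tl_nonneg (x.1 (E d)), tl_nonneg (y.1 (E d)), not_lt.1 h3, not_lt.1 h4]
  · obtain ⟨i, hi⟩ := CTw2_mem (hO ▸ PPants_self E d) hh
    have c3 : E d ∈ cls ρ (E (a i)) := by
      rw [← cls_eq (Or.inl (ha i) : P i ∈ cls ρ (E (a i)))]
      exact hi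
    rcases (hpg.mem_cls_iff (a i) d).1 c3 with rfl | rfl
    · exact h2 i
    · have h5 := (PDual_hyp (ha i)).1 (hP.1 i).hyp
      rw [hpg.tauD_gl h5, hpg.tauD_gl h5, h2 i]

theorem psi_injective (hρ : Good ρ N) (hs : ∃ g, Simple ρ g) (b : Teich ρ) :
    Function.Injective (psi b) := by
  intro x y h
  have h1 := congrFun h x
  have h2 := congrFun h y
  simp only [psi, dTh_self hρ hs] at h1 h2
  refine eq_of_prop hρ hs (exp_pos (dTh x y)) fun g hg =>
    le_antisymm (len_le_exp_dTh hρ hs x y hg) ?_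
  have h3 := mul_le_mul_of_nonneg_left (len_le_exp_dTh hρ hs y x hg) (exp_pos (dTh x y)).le
  rwa [← mul_assoc, ← exp_add, show dTh x y + dTh y x = 0 by linarith, exp_zero, one_mul] at h3

theorem lim_of_bdd (hρ : Good ρ N) (hs : ∃ g, Simple ρ g) {U : Ultrafilter (Rep ρ)} {b : Rep ρ}
    {C : ℝ} (hC : ∀ᶠ x : Rep ρ in U, dTh x.cls b.cls ≤ C) :
    ∃ x : Rep ρ, Tendsto (fun n : Rep ρ => n.cls) U (𝓝 x.cls) := by
  obtain ⟨k, P, δ, L, φ, hd, hm, hφ, hL⟩ := hρ.exists_dm U fun x => x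
  have h1 : ∀ᶠ n : Rep ρ in U, ∀ g, Simple ρ g →
      tl ((b.act (hφ n)).1 g) ≤ exp C * tl ((n.act (hφ n)).1 g) := by
    filter_upwards [hC] with n hn g hg
    refine (MFwd_le hρ hs (n.act (hφ n)) _ hg).trans (mul_le_mul_of_nonneg_right ?_ (tl_nonneg _))
    rw [dTh_act]
    exact exp_le_exp.2 hn
  obtain ⟨ε, hε, h2⟩ := MFwd_sys hρ b hφ
  have h3 : ∀ β, Simple ρ β → ∃ D, ∀ᶠ n : Rep ρ in U, tl ((n.act (hφ n)).1 β) ≤ D := by
    intro β hβ
    refine MFwd_bdd (y := fun n : Rep ρ => n.act (hφ n)) hρ hd hm hL hβ fun i _ =>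
      ⟨ε / exp C, div_pos hε (exp_pos _), h1.mono fun n hn => ?_⟩
    rw [div_le_iff₀' (exp_pos _)]
    exact (h2 n _ (hd.multi.1 i)).trans (hn _ (hd.multi.1 i))
  obtain ⟨y', hy⟩ := exists_lim_rep hρ (MFwd_cover hρ) (fun n : Rep ρ => n.act (hφ n)) h3
  obtain ⟨b', hb⟩ := exists_lim_rep (U := U) hρ (MFwd_cover hρ) (fun n : Rep ρ => b.act (hφ n)) (by
    intro β hβ
    obtain ⟨D, hD⟩ := h3 β hβ
    refine ⟨exp C * D, ?_⟩
    filter_upwards [h1, hD] with n h4 h5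
    exact (h4 β hβ).trans (mul_le_mul_of_nonneg_left h5 (exp_pos _).le))
  have h4 : ∀ᶠ n : Rep ρ in U, dTh b.cls n.cls ≤ 1 + dTh b'.cls y'.cls + 1 := by
    filter_upwards [((tendsto_dTh hρ hs b'.cls).1.comp hb).eventually_lt_const one_pos,
      ((tendsto_dTh hρ hs y'.cls).2.comp hy).eventually_lt_const one_pos] with n h5 h6
    rw [← dTh_act b n (hφ n)]
    have h7 := dTh_triangle hρ hs (b.act (hφ n)).cls b'.cls (n.act (hφ n)).cls
    have h8 := dTh_triangle hρ hs b'.cls y'.cls (n.act (hφ n)).cls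
    simp only [Function.comp_apply] at h5 h6
    linarith
  exact exists_lim_rep (U := U) hρ (MFwd_cover hρ) (fun n : Rep ρ => n) (by
    intro β hβ
    refine ⟨exp (1 + dTh b'.cls y'.cls + 1) * tl (b.1 β), h4.mono fun n hn => ?_⟩
    exact (MFwd_le hρ hs b n hβ).trans
      (mul_le_mul_of_nonneg_right (exp_le_exp.2 hn) (tl_nonneg _)))

theorem exists_embedding (hρ : Good ρ N) (hs : ∃ g, Simple ρ g) (b : Teich ρ) :
    ∃ Ψ : Teich ρ → C(Teich ρ, ℝ), IsEmbedding Ψ ∧ ∀ x z, Ψ x z = psi b x z := by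
  let Ψ : Teich ρ → C(Teich ρ, ℝ) := fun x => ⟨psi b x, continuous_psi hρ hs b x⟩
  have hc : Continuous Ψ := continuous_iff_continuousAt.2 fun x =>
    (tendsto_iff_pointwise hρ hs (f := Ψ) (psi_sub_le hρ hs b)).2 fun z =>
      (continuous_psi_left hρ hs b z).tendsto x
  refine ⟨Ψ, ⟨isInducing_iff_nhds.2 fun x => le_antisymm (hc.tendsto x).le_comap ?_,
    fun x y h => psi_injective hρ hs b (congrArg DFunLike.coe h)⟩, fun _ _ => rfl⟩
  refine le_iff_ultrafilter.2 fun U hU => ?_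
  obtain ⟨b, rfl⟩ := cls_surjective b
  choose o ho using (cls_surjective : Function.Surjective (Rep.cls : Rep ρ → Teich ρ))
  have h0 : ∀ z, Tendsto (fun y => psi b.cls y z) U (𝓝 (Ψ x z)) := fun z =>
    ((continuous_eval_const z).tendsto (Ψ x)).comp (tendsto_comap.mono_left hU)
  have h1 : ∀ z, Tendsto (fun x : Rep ρ => psi b.cls x.cls z) (U.map o) (𝓝 (Ψ x z)) := by
    intro z
    rw [Ultrafilter.coe_map, tendsto_map'_iff]
    exact (h0 z).congr fun x => by simp only [Function.comp_apply, ho]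
  by_cases h : Tendsto (fun x : Rep ρ => dTh x.cls b.cls) (U.map o) atTop
  · exact absurd ⟨x, fun _ => rfl⟩ (mem_of_expl hρ hs _ (fwd_of_top hρ hs h1 h)).2
  rw [tendsto_atTop, not_forall] at h
  obtain ⟨C, h⟩ := h
  rw [← Ultrafilter.eventually_not] at h
  obtain ⟨y, hy⟩ := lim_of_bdd hρ hs (h.mono fun x hx => (not_le.1 hx).le)
  have h2 : Tendsto id U (𝓝 y.cls) := by
    rw [Ultrafilter.coe_map, tendsto_map'_iff] at hy
    exact hy.congr fun x => ho x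
  have h3 : x = y.cls := psi_injective hρ hs b.cls (funext fun z =>
    tendsto_nhds_unique (h0 z) (((continuous_psi_left hρ hs _ z).tendsto _).comp h2))
  rw [h3]
  exact h2

end HRT
end
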