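import Mathlib

/-!
Teichmueller space of the once-punctured torus, lengths of essential simple closed curves,
the Thurston metric, and the horofunctions of the reversed Thurston metric.
-/

namespace Pool.Agent.Work.MP_35beee_gt

/-- The fundamental group of the once-punctured torus: free on two generators. -/
abbrev F : Type := FreeGroup (Fin 2)

/-- The loop around the puncture: the commutator of the two generators. -/
def cusp : F :=
  FreeGroup.of 0 * FreeGroup.of 1 * (FreeGroup.of 0)⁻¹ * (FreeGroup.of 1)⁻¹

/-- Primitive elements (members of a two-element generating set, that is of a basis): these are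
the elements represented by essential simple closed curves. -/
def IsSimple (γ : F) : Prop := ∃ δ : F, Subgroup.closure ({γ, δ} : Set F) = ⊤

/-- The homology class (exponent sums) of an element, in `ℝ × ℝ`. -/
noncomputable def hom (γ : F) : ℝ × ℝ :=
  Multiplicative.toAdd
    (FreeGroup.lift (fun i : Fin 2 =>
      Multiplicative.ofAdd (if i = 0 then ((1, 0) : ℝ × ℝ) else (0, 1))) γ)

/-- Representations into `SL(2,ℝ)` in which the commutator has trace `-2`: the lifts of the
holonomies of complete finite-area hyperbolic structures. -/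
def IsRep (ρ : F → Matrix (Fin 2) (Fin 2) ℝ) : Prop :=
  (∀ γ δ, ρ (γ * δ) = ρ γ * ρ δ) ∧ (∀ γ, (ρ γ).det = 1) ∧ (ρ cusp).trace = -2

/-- The space of such representations. -/
def Rep : Type := {ρ : F → Matrix (Fin 2) (Fin 2) ℝ // IsRep ρ}

/-- Topology of pointwise convergence. -/
instance repTop : TopologicalSpace Rep := instTopologicalSpaceSubtype

/-- Two representations are conjugate in `PGL(2,ℝ)`. -/
def Conj (ρ σ : Rep) : Prop :=
  ∃ g : Matrix (Fin 2) (Fin 2) ℝ, g.det ≠ 0 ∧
    ∀ γ, σ.1 γ * g = g * ρ.1 γ ∨ σ.1 γ * g = -(g * ρ.1 γ)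

/-- Teichmueller space. -/
def Teich : Type := Quot Conj

/-- The quotient topology. -/
instance teichTop : TopologicalSpace Teich := instTopologicalSpaceQuot

theorem abs_trace_eq_of_conj {ρ σ : Rep} (h : Conj ρ σ) (γ : F) :
    |(ρ.1 γ).trace| = |(σ.1 γ).trace| := by
  obtain ⟨g, hg, h⟩ := h
  have hu : IsUnit g.det := isUnit_iff_ne_zero.2 hg
  have h1 : (g * ρ.1 γ * g⁻¹).trace = (ρ.1 γ).trace := by
    rw [Matrix.trace_mul_comm, ← Matrix.mul_assoc, Matrix.nonsing_inv_mul _ hu, Matrix.one_mul]
  rcases h γ with h | h
  · have : σ.1 γ = g * ρ.1 γ * g⁻¹ := by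
      rw [← h, Matrix.mul_assoc, Matrix.mul_nonsing_inv _ hu, Matrix.mul_one]
    rw [this, h1]
  · have : σ.1 γ = -(g * ρ.1 γ * g⁻¹) := by
      rw [← Matrix.neg_mul, ← h, Matrix.mul_assoc, Matrix.mul_nonsing_inv _ hu, Matrix.mul_one]
    rw [this, Matrix.trace_neg, abs_neg, h1]

/-- Hyperbolic length of the closed geodesic in the class of `γ`. -/
noncomputable def len (X : Teich) (γ : F) : ℝ :=
  2 * Real.arcosh
    (Quot.lift (fun ρ : Rep => |(ρ.1 γ).trace|) (fun _ _ h => abs_trace_eq_of_conj h γ) X / 2)

/-- The set of length ratios over essential simple closed curves. -/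
def ratios (X Y : Teich) : Set ℝ := {r | ∃ γ, IsSimple γ ∧ r = len Y γ / len X γ}

/-- The Thurston metric. -/
noncomputable def dTh (X Y : Teich) : ℝ := Real.log (sSup (ratios X Y))

/-- The function attached to `x` for the reversed Thurston metric, with basepoint `b`. -/
noncomputable def psi (b x z : Teich) : ℝ := dTh x z - dTh x b

/-- The functions `psi b x`, as a subset of the space of continuous functions. -/
def horoImage (b : Teich) : Set C(Teich, ℝ) := {f | ∃ x, ∀ z, f z = psi b x z}

/-- The horofunction boundary of the reversed Thurston metric (compact-open topology). -/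
def horoBdry (b : Teich) : Set C(Teich, ℝ) := closure (horoImage b) \ horoImage b

/-- `N X` is a continuous, absolutely homogeneous, positive extension to the plane of the lengths
on `X` of the essential simple closed curves (length of measured laminations). -/
def IsLengthExtension (N : Teich → ℝ × ℝ → ℝ) : Prop :=
  ∀ X, Continuous (N X) ∧ (∀ (c : ℝ) (v : ℝ × ℝ), N X (c • v) = |c| * N X v) ∧
    (∀ v, v ≠ 0 → 0 < N X v) ∧ ∀ γ, IsSimple γ → N X (hom γ) = len X γ

/-- Convergence to the projective class of `u` in Thurston's compactification: rescaled lengths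
of simple closed curves tend to the intersection numbers with `u`. -/
def ThurstonTendsto (X : ℕ → Teich) (u : ℝ × ℝ) : Prop :=
  ∃ c : ℕ → ℝ, (∀ n, 0 < c n) ∧ ∀ γ, IsSimple γ →
    Filter.Tendsto (fun n => len (X n) γ / c n) Filter.atTop
      (nhds |u.1 * (hom γ).2 - u.2 * (hom γ).1|)

end Pool.Agent.Work.MP_35beee_gt
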