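import Mathlib

/-!
Hyperboloid model of the hyperbolic plane, lattices, Teichmueller space of a lattice, lengths,
intersection numbers, the Thurston metric and the horofunctions of the reversed Thurston metric.
-/

namespace HRT

open Matrix

/-- Minkowski space. -/
abbrev V : Type := Fin 3 → ℝ

/-- The Lorentz form. -/
def B (u v : V) : ℝ := u 0 * v 0 + u 1 * v 1 - u 2 * v 2

/-- The hyperbolic plane (upper sheet of the hyperboloid). -/
def Pt : Type := {p : V // B p p = -1 ∧ 0 < p 2}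

/-- The circle at infinity. -/
def Circ : Type := {ξ : V // B ξ ξ = 0 ∧ ξ 2 = 1}

instance ptTop : TopologicalSpace Pt := instTopologicalSpaceSubtype

instance circTop : TopologicalSpace Circ := instTopologicalSpaceSubtype

/-- Hyperbolic distance. -/
noncomputable def hd (p q : Pt) : ℝ := Real.arcosh (-B p.1 q.1)

/-- The linear action of `SL(3,ℝ)`. -/
def slAct (g : SpecialLinearGroup (Fin 3) ℝ) (v : V) : V := (g : Matrix (Fin 3) (Fin 3) ℝ) *ᵥ v

theorem slAct_one (v : V) : slAct 1 v = v := by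
  simp [slAct]

theorem slAct_mul (g h : SpecialLinearGroup (Fin 3) ℝ) (v : V) :
    slAct (g * h) v = slAct g (slAct h v) := by
  unfold slAct
  rw [mulVec_mulVec]
  rfl

/-- Matrices of determinant one that preserve the form and the upper sheet. -/
def IsIsom (g : SpecialLinearGroup (Fin 3) ℝ) : Prop :=
  (∀ u v : V, B (slAct g u) (slAct g v) = B u v) ∧
    ∀ p : V, B p p = -1 → 0 < p 2 → 0 < slAct g p 2

theorem isIsom_one : IsIsom 1 :=
  ⟨fun u v => by rw [slAct_one, slAct_one], fun p _ hp => by rwa [slAct_one]⟩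

theorem isIsom_mul {g h : SpecialLinearGroup (Fin 3) ℝ} (hg : IsIsom g) (hh : IsIsom h) :
    IsIsom (g * h) := by
  refine ⟨fun u v => ?_, fun p hp h2 => ?_⟩
  · rw [slAct_mul, slAct_mul, hg.1, hh.1]
  · rw [slAct_mul]
    exact hg.2 _ (by rw [hh.1, hp]) (hh.2 p hp h2)

theorem isIsom_inv {g : SpecialLinearGroup (Fin 3) ℝ} (hg : IsIsom g) : IsIsom g⁻¹ := by
  have h0 : ∀ u : V, slAct g (slAct g⁻¹ u) = u := fun u => by
    rw [← slAct_mul, mul_inv_cancel, slAct_one]
  have h1 : ∀ u v : V, B (slAct g⁻¹ u) (slAct g⁻¹ v) = B u v := fun u v => by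
    rw [← hg.1, h0, h0]
  refine ⟨h1, fun p hp h2 => ?_⟩
  have hq := h0 p
  have hqq : B (slAct g⁻¹ p) (slAct g⁻¹ p) = -1 := by rw [h1, hp]
  generalize slAct g⁻¹ p = q at hq hqq ⊢
  have hne : q 2 ≠ 0 := by
    intro h0
    simp only [B, h0] at hqq
    nlinarith [mul_self_nonneg (q 0), mul_self_nonneg (q 1)]
  rcases lt_or_gt_of_ne hne with hlt | hgt
  · exfalso
    have h3 := hg.2 (-q) (by simpa [B] using hqq) (by simpa using hlt)
    have h4 : slAct g (-q) = -slAct g q := mulVec_neg _ _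
    rw [h4, hq] at h3
    simp only [Pi.neg_apply] at h3
    linarith
  · exact hgt

/-- The group `SO⁺(2,1)` of orientation preserving isometries, as a subgroup of `SL(3,ℝ)`. -/
def isomG : Subgroup (SpecialLinearGroup (Fin 3) ℝ) where
  carrier := {g | IsIsom g}
  one_mem' := isIsom_one
  mul_mem' := isIsom_mul
  inv_mem' := isIsom_inv

/-- The group of orientation preserving isometries of the hyperbolic plane. -/
abbrev Isom : Type := isomG

/-- The linear action on Minkowski space. -/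
def lin (g : Isom) (v : V) : V := slAct g.1 v

theorem lin_one (v : V) : lin 1 v = v := slAct_one v

theorem lin_mul (g h : Isom) (v : V) : lin (g * h) v = lin g (lin h v) := slAct_mul g.1 h.1 v

theorem lin_smul (g : Isom) (t : ℝ) (v : V) : lin g (t • v) = t • lin g v := by
  unfold lin slAct
  rw [mulVec_smul]

theorem B_lin (g : Isom) (u v : V) : B (lin g u) (lin g v) = B u v := g.2.1 u v

theorem lin_pt (g : Isom) (p : Pt) : B (lin g p.1) (lin g p.1) = -1 ∧ 0 < lin g p.1 2 :=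
  ⟨by rw [B_lin, p.2.1], g.2.2 p.1 p.2.1 p.2.2⟩

/-- The action on the plane. -/
instance actPt : MulAction Isom Pt where
  smul g p := ⟨lin g p.1, lin_pt g p⟩
  one_smul p := Subtype.ext (lin_one p.1)
  mul_smul g h p := Subtype.ext (lin_mul g h p.1)

theorem lin_circ_pos (g : Isom) (ξ : Circ) : 0 < lin g ξ.1 2 := by
  have he : B (![0, 0, 1] : V) ![0, 0, 1] = -1 := by simp [B]
  have hq := lin_pt g⁻¹ ⟨![0, 0, 1], he, by simp⟩
  set q : V := lin g⁻¹ ![0, 0, 1] with hqd
  have h1 : B (lin g ξ.1) ![0, 0, 1] = B ξ.1 q := by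
    rw [← B_lin g ξ.1 q, hqd, ← lin_mul, mul_inv_cancel, lin_one]
  obtain ⟨h2, h3⟩ := ξ.2
  obtain ⟨h4, h5⟩ := hq
  have h6 : B (lin g ξ.1) ![0, 0, 1] = -lin g ξ.1 2 := by simp [B]
  have h7 : B ξ.1 q < 0 := by
    simp only [B, h3] at h2 h4 ⊢
    have h8 : (ξ.1 0 * q 0 + ξ.1 1 * q 1) ^ 2 < q 2 ^ 2 := by
      nlinarith [sq_nonneg (ξ.1 0 * q 1 - ξ.1 1 * q 0)]
    have h9 := abs_lt_of_sq_lt_sq h8 h5.le
    linarith [le_abs_self (ξ.1 0 * q 0 + ξ.1 1 * q 1)]
  linarith

theorem lin_circ (g : Isom) (ξ : Circ) :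
    B ((lin g ξ.1 2)⁻¹ • lin g ξ.1) ((lin g ξ.1 2)⁻¹ • lin g ξ.1) = 0 ∧
      ((lin g ξ.1 2)⁻¹ • lin g ξ.1) 2 = 1 := by
  have h := lin_circ_pos g ξ
  have h2 : B (lin g ξ.1) (lin g ξ.1) = 0 := by rw [B_lin, ξ.2.1]
  refine ⟨?_, by simp [h.ne']⟩
  simp only [B, Pi.smul_apply, smul_eq_mul] at h2 ⊢
  linear_combination (lin g ξ.1 2)⁻¹ ^ 2 * h2

/-- The image of a boundary point. -/
noncomputable def bd (g : Isom) (ξ : Circ) : Circ := ⟨(lin g ξ.1 2)⁻¹ • lin g ξ.1, lin_circ g ξ⟩

theorem bd_one (ξ : Circ) : bd 1 ξ = ξ := Subtype.ext (by simp [bd, lin_one, ξ.2.2])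

theorem bd_mul (g h : Isom) (ξ : Circ) : bd (g * h) ξ = bd g (bd h ξ) := by
  apply Subtype.ext
  have h1 := lin_circ_pos h ξ
  simp only [bd, lin_mul, lin_smul, Pi.smul_apply, smul_eq_mul, smul_smul]
  congr 1
  field_simp

/-- The action on the circle at infinity. -/
noncomputable instance actCirc : MulAction Isom Circ where
  smul := bd
  one_smul := bd_one
  mul_smul := bd_mul

/-- Three boundary points in counterclockwise order. -/
def ccw (a b c : Circ) : Prop := 0 < (Matrix.of ![a.1, b.1, c.1]).det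

/-- Translation length. -/
noncomputable def tl (g : Isom) : ℝ := ⨅ p : Pt, hd p (g • p)

theorem tl_conj (A g : Isom) : tl (A * g * A⁻¹) = tl g := by
  unfold tl
  rw [← (MulAction.toPerm A).iInf_comp]
  congr 1
  funext p
  have : (A * g * A⁻¹) • ((MulAction.toPerm A) p) = A • (g • p) := by
    simp [mul_smul]
  rw [this]
  exact congrArg (fun t => Real.arcosh (-t)) (B_lin A p.1 (g • p).1)

/-- The axes of `g` and `h` cross: fixed points on the circle are linked. -/
def Link (g h : Isom) : Prop :=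
  ∃ a b c d : Circ, g • a = a ∧ g • b = b ∧ h • c = c ∧ h • d = d ∧ ccw a c b ∧ ccw b d a

/-- One third of the hyperbolic area: the volume of the cone over the set. -/
noncomputable def area (U : Set Pt) : ENNReal :=
  MeasureTheory.volume {v : V | ∃ p ∈ U, ∃ t ∈ Set.Ioo (0 : ℝ) 1, v = t • p.1}

variable {Γ : Type*} [Group Γ]

/-- The holonomy of a complete hyperbolic surface of finite area: a free and properly
discontinuous action with a fundamental set of finite area. -/
def Lattice (ρ : Γ →* Isom) : Prop :=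
  (∀ (γ : Γ) (p : Pt), ρ γ • p = p → γ = 1) ∧
    (∀ (p : Pt) (R : ℝ), {γ : Γ | hd p (ρ γ • p) ≤ R}.Finite) ∧
      ∃ F : Set Pt, area F < ⊤ ∧ ∀ p : Pt, ∃ γ : Γ, ρ γ • p ∈ F

/-- Elements represented by essential simple closed curves: hyperbolic, primitive, and no
translate of the axis crosses the axis. -/
def Simple (ρ : Γ →* Isom) (γ : Γ) : Prop :=
  0 < tl (ρ γ) ∧ (∀ (δ : Γ) (n : ℕ), δ ^ n = γ → n = 1) ∧
    ∀ g : Γ, ¬ Link (ρ γ) (ρ (g * γ * g⁻¹))

/-- Geometric intersection number: lifts of `δ` crossing the axis of `γ`, modulo `γ`. -/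
noncomputable def inter (ρ : Γ →* Isom) (γ δ : Γ) : ℕ :=
  Nat.card (Quot fun d d' : {d : Γ // IsConj δ d ∧ Link (ρ γ) (ρ d)} =>
    ∃ n : ℤ, d'.1 = γ ^ n * d.1 * (γ ^ n)⁻¹)

/-- `h` is an orientation preserving homeomorphism of the circle conjugating `ρ` to `σ`. -/
def IsMark (ρ σ : Γ →* Isom) (h : Circ ≃ₜ Circ) : Prop :=
  (∀ a b c, ccw a b c → ccw (h a) (h b) (h c)) ∧ ∀ (γ : Γ) (ξ : Circ), h (ρ γ • ξ) = σ γ • h ξ

/-- Holonomies of the marked hyperbolic structures on the surface of `ρ`. -/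
def Rep (ρ : Γ →* Isom) : Type _ := {σ : Γ →* Isom // ∃ h, IsMark ρ σ h}

/-- Topology of pointwise convergence. -/
instance repTop (ρ : Γ →* Isom) : TopologicalSpace (Rep ρ) :=
  TopologicalSpace.induced (fun σ γ v => lin (σ.1 γ) v : Rep ρ → Γ → V → V) inferInstance

/-- Teichmueller space: holonomies up to conjugation. -/
def Teich (ρ : Γ →* Isom) : Type _ :=
  Quot fun x y : Rep ρ => ∃ A : Isom, ∀ γ, y.1 γ = A * x.1 γ * A⁻¹

/-- The quotient topology. -/
instance teichTop (ρ : Γ →* Isom) : TopologicalSpace (Teich ρ) := instTopologicalSpaceQuot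

variable {ρ : Γ →* Isom}

theorem len_wd (γ : Γ) (x y : Rep ρ) (h : ∃ A : Isom, ∀ γ, y.1 γ = A * x.1 γ * A⁻¹) :
    tl (x.1 γ) = tl (y.1 γ) := by
  obtain ⟨A, hA⟩ := h
  rw [hA, tl_conj]

/-- Length of the closed geodesic in the class of `γ`. -/
noncomputable def len (X : Teich ρ) (γ : Γ) : ℝ :=
  Quot.lift (fun x : Rep ρ => tl (x.1 γ)) (len_wd γ) X

/-- The set of length ratios over essential simple closed curves. -/
def ratios (X Y : Teich ρ) : Set ℝ := {r | ∃ γ, Simple ρ γ ∧ r = len Y γ / len X γ}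

/-- The Thurston metric. -/
noncomputable def dTh (X Y : Teich ρ) : ℝ := Real.log (sSup (ratios X Y))

/-- The function attached to `x` for the reversed Thurston metric, with basepoint `b`. -/
noncomputable def psi (b x z : Teich ρ) : ℝ := dTh x z - dTh x b

/-- The functions `psi b x`, in the space of continuous functions. -/
def horoImage (b : Teich ρ) : Set C(Teich ρ, ℝ) := {f | ∃ x, ∀ z, f z = psi b x z}

/-- The horofunction boundary of the reversed Thurston metric (compact-open topology). -/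
def horoBdry (b : Teich ρ) : Set C(Teich ρ, ℝ) := closure (horoImage b) \ horoImage b

/-- A multicurve: pairwise disjoint, pairwise non-isotopic essential simple closed curves. -/
def Multi (ρ : Γ →* Isom) {ι : Type} (R : ι → Γ) : Prop :=
  (∀ i, Simple ρ (R i)) ∧ ∀ i j, i ≠ j → ∀ g : Γ, ¬ Link (ρ (R i)) (ρ (g * R j * g⁻¹)) ∧
    R i ≠ g * R j * g⁻¹ ∧ (R i)⁻¹ ≠ g * R j * g⁻¹

/-- The dual norm at `y` of the weighted multicurve with components `R i` and weights `v i`. -/
noncomputable def dualN (y : Teich ρ) {k : ℕ} (R : Fin k → Γ) (v : Fin k → ℝ) : ℝ :=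
  sSup {r | ∃ μ, Simple ρ μ ∧ r = (∑ i, v i * inter ρ μ (R i)) / len y μ}

/-- The horofunctions obtained by twisting `y` along a weighted multicurve. -/
def twistFns (b : Teich ρ) : Set C(Teich ρ, ℝ) :=
  {f | ∃ (k : ℕ) (y : Teich ρ) (R : Fin (k + 1) → Γ) (w : Fin (k + 1) → ℝ), Multi ρ R ∧
    (∀ i, 0 < w i) ∧ ∀ z, f z = Real.log (dualN y R fun i => w i * len z (R i)) -
      Real.log (dualN y R fun i => w i * len b (R i))}

end HRT
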