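import Pool.Agent.Work.MP_35beee_gt.GLcur

/-!
The convergence of the lengths is uniform from above.

Plan. `block`: for `T > 0`, `ε > 0`, eventually for all `A ∈ Core ρ α R w` and all `t`,
`resc c k n (xs A (Ico t (t+T))) ≤ ν (xs A (Ico t (t+T))) + C + ε`, with `C` independent of `T`.
Otherwise (ultrafilter) choose bad pairs `(A n, t n)`, translate `pt (A n) (t n)` to within `R` of
`o` (both currents are invariant) and let `(A, t)` be the limit (`isCompact_lines`, `isClosed_core`;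
the parameters of points near `o` stay bounded). The compact sets `K δ` of lines meeting the closed
`δ`-neighbourhood of the segment `pt A '' [t, t+T]` are disjoint from the lifts of `α` for small `δ`
and decrease to `K 0`. By reversal `2 * resc (xs (A n) ..) ≤ resc (K δ)` eventually, and
`ν (K 0) ≤ 2 ν (xs A (Ioo t (t+T))) + 2 C`; the open set `xs A (Ioo t (t+T))` is contained in the
lower limit of the sets `xs (A n) (Ico (t n) (t n + T))` (Fatou: `measure_liminf`-type lemma, or inner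
regularity by compact subsets). Here `C` bounds the mass of the lines through a point within
`R + 1` of the orbit (Cur.fin and invariance). Then cut `j` periods of the axis into blocks, use
`ic_pull`, `ic_pow`, divide by `j`. The axes of simple curves disjoint from `α` lie in a set
`Core ρ α R w` (`exists_core_const`, `side_ne_zero_of_cusp`, `ax_eq_of_share`).
-/

namespace HRT

open Set Filter Topology Real MeasureTheory

variable {Γ : Type*} [Group Γ] {ρ : Γ →* Isom} {N : ℝ → ℝ} {ι I : Type} {α : ι → Γ}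
  {U : Ultrafilter I} {c : I → ℝ}

theorem GLimC_side {X : Type*} [TopologicalSpace X] {f : X → Geo} {g : X → V} (hf : Continuous f)
    (hg : Continuous g) : Continuous fun x => side (f x) (g x) :=
  continuous_side.comp (hf.prodMk hg)

theorem GLimC_closed : IsClosed {x : (Geo × ℝ) × Geo × ℝ |
    side x.2.1 (pt x.1.1 (x.1.2 + x.2.2)).1 = 0 ∧ side x.1.1 x.2.1.src.1 ≤ 0 ∧
      0 ≤ side x.1.1 x.2.1.tgt.1} := by
  have h1 : Continuous fun x : (Geo × ℝ) × Geo × ℝ => (pt x.1.1 (x.1.2 + x.2.2)).1 :=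
    continuous_subtype_val.comp (continuous_pt.comp
      (continuous_fst.fst.prodMk (continuous_fst.snd.add continuous_snd.snd)))
  exact (isClosed_eq (continuous_side.comp (continuous_snd.fst.prodMk h1)) continuous_const).inter
    ((isClosed_le (continuous_side.comp (continuous_fst.fst.prodMk
      (GFermi_cs.comp continuous_snd.fst))) continuous_const).inter (isClosed_le continuous_const
        (continuous_side.comp (continuous_fst.fst.prodMk (GFermi_ct.comp continuous_snd.fst)))))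

theorem GLimC_tube (A : Geo) (t T : ℝ) : ∃ K, IsCompact K ∧
    K ⊆ xs A (Icc t (t + T)) ∪ {A, A.rev} ∧ ∀ O, IsOpen O → K ⊆ O →
      ∀ᶠ x : Geo × ℝ in 𝓝 (A, t), xs x.1 (Ico x.2 (x.2 + T)) ⊆ O := by
  have hb := isCompact_lines (pt A t) (sinh (1 + T))
  refine ⟨_, (((hb.prod (isCompact_Icc (a := 0) (b := T))).inter_right
    (GLimC_closed.preimage (Continuous.prodMk_right (A, t)))).image continuous_fst), ?_,
    fun O hO hK => ?_⟩
  · rintro _ ⟨⟨l, s⟩, ⟨⟨_, h2⟩, h3, h4, h5⟩, rfl⟩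
    by_cases e : l = A
    · exact .inr (.inl e)
    by_cases e' : l = A.rev
    · exact .inr (.inr e')
    have hc : Cross A l := cross_of_common (side_pt A (t + s)) h3 e e'
    refine .inl ⟨lt_of_le_of_ne h4 (GStrip_src hc),
      lt_of_le_of_ne h5 (right_ne_zero_of_mul hc.ne).symm, ?_⟩
    rw [← (side_pt_eq_zero_iff hc (t + s)).1 h3]
    exact ⟨le_add_of_nonneg_right h2.1, add_le_add_right h2.2 _⟩
  have h1 := ((hb.diff hO).prod (isCompact_Icc (a := 0) (b := T))).eventually_forall_of_forall_eventually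
    (x₀ := (A, t)) (P := fun x y => (x, y) ∉ _) fun y hy =>
      GLimC_closed.isOpen_compl.mem_nhds fun h => hy.1.2 (hK ⟨y, ⟨⟨hy.1.1, hy.2⟩, h⟩, rfl⟩)
  have h2 : ∀ᶠ x : Geo × ℝ in 𝓝 (A, t), dist (pt A t) (pt x.1 x.2) < 1 :=
    (continuous_const.dist continuous_pt).continuousAt.eventually_lt_const (by simp)
  filter_upwards [h1, h2] with x h3 h4 l hl
  by_contra h5
  have h6 := (side_pt_eq_zero_iff (xs_cross hl) _).2 rfl
  refine h3 (l, xp x.1 l - x.2) ⟨⟨?_, h5⟩, sub_nonneg.2 hl.2.2.1, by linarith [hl.2.2.2]⟩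
    ⟨by simpa using h6, hl.1.le, hl.2.1.le⟩
  have h7 := abs_arsinh_side_le l (pt A t) (pt x.1 (xp x.1 l))
  have h8 := dist_triangle (pt A t) (pt x.1 x.2) (pt x.1 (xp x.1 l))
  rw [dist_pt, abs_sub_comm, abs_of_nonneg (sub_nonneg.2 hl.2.2.1)] at h8
  rw [h6, arsinh_zero, sub_zero] at h7
  have h9 := sinh_le_sinh.2 (show |arsinh (side l (pt A t).1)| ≤ 1 + T by linarith [hl.2.2.2])
  rwa [← abs_sinh, sinh_arsinh] at h9

theorem GLimC_inner {A : Geo} {t T : ℝ} {K : Set Geo} (hK : IsCompact K)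
    (h : K ⊆ xs A (Ioo t (t + T))) :
    ∀ᶠ x : Geo × ℝ in 𝓝 (A, t), K ⊆ xs x.1 (Ico x.2 (x.2 + T)) := by
  refine hK.eventually_forall_of_forall_eventually (x₀ := (A, t))
    (P := fun x l => l ∈ xs x.1 (Ico x.2 (x.2 + T))) fun l hl => ?_
  obtain ⟨h1, h2, h3, h4⟩ := h hl
  have c1 : Continuous fun z : (Geo × ℝ) × Geo => side z.1.1 z.2.src.1 :=
    GLimC_side continuous_fst.fst (GFermi_cs.comp' continuous_snd)
  have c2 : Continuous fun z : (Geo × ℝ) × Geo => side z.1.1 z.2.tgt.1 :=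
    GLimC_side continuous_fst.fst (GFermi_ct.comp' continuous_snd)
  have c3 : ContinuousAt (fun z : (Geo × ℝ) × Geo => xp z.1.1 z.2 - z.1.2) ((A, t), l) :=
    (ContinuousAt.comp (f := fun z : (Geo × ℝ) × Geo => (z.1.1, z.2)) (x := ((A, t), l))
      (continuousAt_xp (xs_cross (h hl)))
      (continuous_fst.fst.prodMk continuous_snd).continuousAt).sub continuous_fst.snd.continuousAt
  filter_upwards [c1.continuousAt.eventually_lt_const h1, c2.continuousAt.eventually_const_lt h2,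
    c3.eventually_const_lt (sub_pos.2 h3), c3.eventually_lt_const (sub_lt_iff_lt_add'.2 h4)]
    with z a1 a2 a3 a4
  exact ⟨a1, a2, (sub_pos.1 a3).le, sub_lt_iff_lt_add'.1 a4⟩

theorem GLimC_near {ν : Measure Geo} (hν : Cur ρ ν) (R : ℝ) : ∃ C < ⊤, ∀ (p : Pt) (g : Γ),
    dist (ρ g • o) p ≤ R → ν {l | |arsinh (side l p.1)| < 1} ≤ C := by
  have := hν.fin
  have hK := isCompact_lines o (sinh (R + 1))
  refine ⟨_, hK.measure_lt_top (μ := ν), fun p g h => ?_⟩
  rw [← (hν.smul g⁻¹).measure_preimage hK.measurableSet.nullMeasurableSet]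
  refine measure_mono fun l hl => ?_
  have h1 := abs_arsinh_side_le l (ρ g • o) p
  have h2 : |arsinh (side l (ρ g • o).1)| ≤ R + 1 := by
    have := abs_sub_abs_le_abs_sub (arsinh (side l (ρ g • o).1)) (arsinh (side l p.1))
    linarith [show |arsinh (side l p.1)| < 1 from hl]
  have h3 := sinh_le_sinh.2 h2
  rw [← abs_sinh, sinh_arsinh, ← side_smul_pt (ρ g⁻¹), map_inv, inv_smul_smul, ← map_inv] at h3
  exact h3

theorem GLimC_smul {R w : ℝ} {A : Geo} (h : A ∈ Core ρ α R w) (g : Γ) :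
    ρ g • A ∈ Core ρ α R w := by
  refine ⟨h.1.smul g, h.2.1.smul g, fun m hm => ?_⟩
  have := h.2.2 _ (smul_mem_lifts g⁻¹ hm)
  rwa [nrm_smul, map_inv, B_comm, ← B_lin_left, B_comm, ← nrm_smul] at this

theorem GLimC_local [Finite ι] {M : I → Measure Geo} {ν : Measure Geo} (hρ : Disc ρ)
    (hα : Multi ρ α) (hν : Cur ρ ν) (hl : IsULim U M (lifts ρ α)ᶜ ν) {R w : ℝ} (hw : 0 < w)
    {C : ENNReal} (hC : C < ⊤) (h : ∀ (p : Pt) (g : Γ), dist (ρ g • o) p ≤ R →
      ν {l | |arsinh (side l p.1)| < 1} ≤ C) (T : ℝ) {A : Geo} (hA : A ∈ Core ρ α R w) (t : ℝ) :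
    ∀ᶠ z in U ×ˢ 𝓝 (A, t), M z.1 (xs z.2.1 (Ico z.2.2 (z.2.2 + T))) ≤
      ν (xs z.2.1 (Ico z.2.2 (z.2.2 + T))) + (C + C + 1) := by
  have := hν.fin
  have hW : IsOpen (lifts ρ α)ᶜ := (isClosed_lifts hρ fun a => (hα.1 a).hyp).isOpen_compl
  have ho : ∀ p : Pt, IsOpen {l : Geo | |arsinh (side l p.1)| < 1} := fun p =>
    isOpen_lt (continuous_arsinh.comp
      (continuous_side.comp (continuous_id.prodMk continuous_const))).abs continuous_const
  have hm : ∀ {l : Geo} {p : Pt}, side l p.1 = 0 → |arsinh (side l p.1)| < 1 := fun e => by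
    rw [e, arsinh_zero, abs_zero]
    exact one_pos
  obtain ⟨D, d1, d2, d3⟩ : ∃ D : Set Geo, IsOpen D ∧ ν D ≤ C + C ∧
      ∀ l, side l (pt A t).1 = 0 ∨ side l (pt A (t + T)).1 = 0 → l ∈ D := by
    obtain ⟨g, hg⟩ := hA.2.1 t
    obtain ⟨g', hg'⟩ := hA.2.1 (t + T)
    exact ⟨_, (ho (pt A t)).union (ho (pt A (t + T))),
      (measure_union_le _ _).trans (add_le_add (h _ g hg) (h _ g' hg')),
      fun l hl => hl.imp hm hm⟩
  obtain ⟨K, k1, k2, k3⟩ := GLimC_tube A t T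
  obtain ⟨K', a1, a2, a3⟩ := exists_compact_between k1
    ((d1.union (GLimB_open A (isOpen_Ioo (a := t) (b := t + T)))).inter hW) fun l hl => by
      rcases k2 hl with h1 | rfl | rfl
      · refine ⟨?_, fun e => (GLimB_core hw hA e).1 (xs_cross h1).symm⟩
        rcases h1.2.2.1.eq_or_lt with e | e
        · exact .inl (d3 l (.inl ((side_pt_eq_zero_iff (xs_cross h1) _).2 e)))
        rcases h1.2.2.2.eq_or_lt with e' | e'
        · exact .inl (d3 l (.inr ((side_pt_eq_zero_iff (xs_cross h1) _).2 e'.symm)))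
        · exact .inr ⟨h1.1, h1.2.1, e, e'⟩
      · exact ⟨.inl (d3 _ (.inl (side_pt _ _))), fun e => (GLimB_core hw hA e).2 rfl⟩
      · exact ⟨.inl (d3 _ (.inl (by simp))),
          fun e => (GLimB_core hw hA (rev_mem_lifts e)).2 rfl⟩
  have h1 : ν K' < ν (K' \ D) + (C + C + 1) := by
    refine ((measure_mono (subset_sdiff_union K' D)).trans (measure_union_le _ _)).trans_lt ?_
    exact ENNReal.add_lt_add_left (a1.diff d1).measure_lt_top.ne
      (d2.trans_lt (ENNReal.lt_add_right (ENNReal.add_lt_top.2 ⟨hC, hC⟩).ne one_ne_zero))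
  filter_upwards [(hl.upper K' a1 (a3.trans inter_subset_right) _ h1).prod_mk
    ((k3 _ isOpen_interior a2).and (GLimC_inner (a1.diff d1)
      fun l hl => (a3 hl.1).1.resolve_left hl.2))] with z hz
  exact ((measure_mono (hz.2.1.trans interior_subset)).trans hz.1.le).trans
    (add_le_add_left (measure_mono hz.2.2) _)

theorem GLimC_block [Finite ι] {M : I → Measure Geo} {ν : Measure Geo} (hρ : Disc ρ)
    (hα : Multi ρ α) (hM : ∀ n, Cur ρ (M n)) (hν : Cur ρ ν) (hl : IsULim U M (lifts ρ α)ᶜ ν)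
    (R : ℝ) {w : ℝ} (hw : 0 < w) : ∃ C : ℝ, 0 < C ∧ ∀ T : ℝ, ∀ᶠ n in U, ∀ A ∈ Core ρ α R w,
      ∀ t, M n (xs A (Ico t (t + T))) ≤ ν (xs A (Ico t (t + T))) + ENNReal.ofReal C := by
  obtain ⟨C, hC, h⟩ := GLimC_near hν R
  have h0 : C + C + 1 ≠ ⊤ := by simp [hC.ne]
  refine ⟨(C + C + 1).toReal, ENNReal.toReal_pos (by simp) h0, fun T => ?_⟩
  rw [ENNReal.ofReal_toReal h0]
  have hK := ((isCompact_lines o (sinh R)).inter_right (isClosed_core (α := α) hρ R w)).prod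
    (isCompact_Icc (a := -R) (b := R))
  have h1 := hK.mem_prod_nhdsSet_of_forall fun y hy => GLimC_local hρ hα hν hl hw hC h T hy.1.2 y.2
  obtain ⟨S, h2, S', h3, h4⟩ := mem_prod_iff.1 h1
  filter_upwards [h2] with n hn A hA t
  obtain ⟨g, hg⟩ := hA.2.1 t
  rw [← dist_smul (ρ g⁻¹), ← mul_smul, ← map_mul, inv_mul_cancel, map_one, one_smul, smul_pt] at hg
  have h5 : |t + sh (ρ g⁻¹) A| ≤ R := by
    have := abs_fer_sub_le (ρ g⁻¹ • A) o (pt (ρ g⁻¹ • A) (t + sh (ρ g⁻¹) A))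
    rw [GArr_fer_o, fer_pt, zero_sub, abs_neg] at this
    exact this.trans hg
  have h6 := h4 (mk_mem_prod hn (subset_of_mem_nhdsSet h3 (show (ρ g⁻¹ • A, t + sh (ρ g⁻¹) A) ∈ _
    from ⟨⟨GArr_side_le hg, GLimC_smul hA g⁻¹⟩, abs_le.1 h5⟩)))
  simp only [mem_ofPred_eq] at h6
  rw [(hM n).xs_smul _ _ measurableSet_Ico, hν.xs_smul _ _ measurableSet_Ico,
    preimage_add_const_Ico, add_sub_cancel_right, add_right_comm t, add_sub_cancel_right] at h6
  exact h6

theorem GLimC_sum {μ ν : Measure Geo} {A : Geo} {T : ℝ} (hT : 0 ≤ T) {C : ENNReal}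
    (h : ∀ t, μ (xs A (Ico t (t + T))) ≤ ν (xs A (Ico t (t + T))) + C) (m : ℕ) :
    μ (xs A (Ico 0 (m * T))) ≤ ν (xs A (Ico 0 (m * T))) + m * C := by
  induction m with
  | zero =>
    have : xs A (Ico 0 ((0 : ℕ) * T)) = ∅ :=
      eq_empty_of_forall_notMem fun l hl => by simpa using hl.2.2
    rw [this]
    simp
  | succ m ih =>
    have e : xs A (Ico 0 ((m + 1 : ℕ) * T)) =
        xs A (Ico 0 (m * T)) ∪ xs A (Ico (m * T) (m * T + T)) := by
      push_cast
      rw [add_mul, one_mul, ← Ico_union_Ico_eq_Ico (mul_nonneg m.cast_nonneg hT)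
        (le_add_of_nonneg_right hT)]
      ext l
      simp only [xs, mem_ofPred_eq, mem_union, and_or_left]
    have d : Disjoint (xs A (Ico 0 (m * T))) (xs A (Ico (m * T) (m * T + T))) :=
      Set.disjoint_left.2 fun l h1 h2 => h1.2.2.2.not_ge h2.2.2.1
    rw [e, measure_union d (measurableSet_xs _ measurableSet_Ico),
      measure_union d (measurableSet_xs _ measurableSet_Ico)]
    refine (add_le_add ih (h _)).trans_eq ?_
    push_cast
    ring

theorem GLimC_real {x y z b : ℝ} (h : ∀ j : ℕ, j * x ≤ j * (y + z) + b) : x ≤ y + z := by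
  by_contra h1
  obtain ⟨j, hj⟩ := exists_nat_gt (b / (x - (y + z)))
  rw [div_lt_iff₀ (sub_pos.2 (not_le.1 h1))] at hj
  linarith [h j]

theorem GLimC_ic {μ ν : Measure Geo} (hμ : Cur ρ μ) (hν : Cur ρ ν) {g : Γ} (hg : Hyp (ρ g))
    {T C : ℝ} (hT : 0 < T) (hC : 0 ≤ C) (h : ∀ t, μ (xs (ax (ρ g)) (Ico t (t + T))) ≤
      ν (xs (ax (ρ g)) (Ico t (t + T))) + ENNReal.ofReal C) :
    ic μ (ρ g) ≤ ic ν (ρ g) + C / T * tl (ρ g) := by
  have hL : 0 < tl (ρ g) := hg
  obtain ⟨i, hi⟩ := exists_nat_ge (T / tl (ρ g))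
  rw [div_le_iff₀ hL] at hi
  refine GLimC_real (b := i * ic ν (ρ g) + C) fun j => ?_
  have h0 : 0 ≤ j * tl (ρ g) / T := by positivity
  have h1 := (div_le_iff₀ hT).1 (Nat.le_ceil (j * tl (ρ g) / T))
  have h2 := (Nat.ceil_lt_add_one h0).le
  have h3 := mul_le_mul_of_nonneg_right h2 hT.le
  rw [add_mul, div_mul_cancel₀ _ hT.ne', one_mul] at h3
  have h4 := (measure_mono (xs_mono _ (Ico_subset_Ico_right
    (show 0 + j * tl (ρ g) ≤ _ by rwa [zero_add])))).trans ((GLimC_sum hT.le h _).trans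
      (add_le_add_left (measure_mono (xs_mono _ (Ico_subset_Ico_right
        (show _ ≤ 0 + (j + i : ℕ) * tl (ρ g) by push_cast; linarith)))) _))
  have h5 := ic_nonneg ν (ρ g)
  rw [GLimB_per hμ hg, GLimB_per hν hg, ← ENNReal.ofReal_natCast,
    ← ENNReal.ofReal_mul (Nat.cast_nonneg _), ← ENNReal.ofReal_add (by positivity) (by positivity),
    ENNReal.ofReal_le_ofReal_iff (by positivity)] at h4
  have h6 := mul_le_mul_of_nonneg_right h2 hC
  push_cast at h4
  have e : (j * tl (ρ g) / T + 1) * C = j * (C / T * tl (ρ g)) + C := by ring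
  linarith

theorem GLimC_mem (hρ : Disc ρ) (hα : Multi ρ α) {β : Γ} (hβ : Simple ρ β)
    (hi : ∀ a, inter ρ β (α a) = 0) (hA : ax (ρ β) ∉ lifts ρ α) {m : Geo} (hm : m ∈ lifts ρ α) :
    0 < side m (ax (ρ β)).src.1 * side m (ax (ρ β)).tgt.1 := by
  have hnc : ¬ Cross (ax (ρ β)) m := by
    obtain ⟨a, g, rfl | rfl⟩ := hm
    · exact (hρ.inter_eq_zero_iff hβ.hyp (hα.1 a).hyp (hα.1 a).prim).1 (hi a) g
    · rw [cross_rev_right]
      exact (hρ.inter_eq_zero_iff hβ.hyp (hα.1 a).hyp (hα.1 a).prim).1 (hi a) g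
  refine lt_of_le_of_ne (not_lt.1 fun e => hnc (Cross.symm e)) fun e => hA ?_
  obtain ⟨a, s, hs, -, rfl⟩ := GLimA_lift hα hm
  rcases hρ.ax_eq_of_share hs.hyp hβ.hyp (mul_eq_zero.1 e.symm) with e' | e'
  · exact e' ▸ hm
  · exact e' ▸ rev_mem_lifts hm

theorem Deg.eventually_tl_le [Finite ι] {σ : I → Γ →* Isom} {k : I → Circ ≃ₜ Circ}
    {ν : Measure Geo} (hd : Deg ρ α U c σ k) (hρ : Good ρ N) (hα : Multi ρ α) (hν : Cur ρ ν)
    (hl : IsULim U (resc c k) (lifts ρ α)ᶜ ν) {ε : ℝ} (hε : 0 < ε) :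
    ∀ᶠ n in U, ∀ β, Simple ρ β → (∀ a, inter ρ β (α a) = 0) → ax (ρ β) ∉ lifts ρ α →
      tl (σ n β) ≤ c n * (ic ν (ρ β) + ε * tl (ρ β)) := by
  obtain ⟨R, w, hw, h1⟩ := exists_core_const hρ hα
  have hM : ∀ n, Cur ρ (resc c k n) := fun n => (hd.mark n).cur_pull.nnreal_smul (c n)⁻¹.toNNReal
  obtain ⟨C, hC, h2⟩ := GLimC_block hρ.toDisc hα hM hν hl R hw
  filter_upwards [h2 (C / ε), hd.top.eventually_gt_atTop 0] with n h3 hn β hβ hi hA
  have h4 := GLimC_ic (hM n) hν hβ.hyp (div_pos hC hε) hC.le (h3 _ (h1 _ hβ.line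
    (fun h => hρ.toDisc.side_ne_zero_of_cusp hβ.hyp h (side_src _))
    (fun h => hρ.toDisc.side_ne_zero_of_cusp hβ.hyp h (side_tgt _))
    fun m hm => GLimC_mem hρ.toDisc hα hβ hi hA hm))
  have h5 : ic (resc c k n) (ρ β) = (c n)⁻¹ * tl (σ n β) := by
    rw [← (hd.mark n).ic_pull, ← Real.coe_toNNReal (c n)⁻¹ (inv_nonneg.2 hn.le), ← ic_nnreal_smul]
    rfl
  rwa [h5, div_div_cancel₀ hC.ne', inv_mul_le_iff₀ hn] at h4

theorem LData.eventually_tl_le [Finite ι] {φ : I → Γ ≃* Γ} {f : I → Circ ≃ₜ Circ} {b : Rep ρ}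
    (hd : LData ρ α U c φ f b) (hρ : Good ρ N) (z : Rep ρ) {a : Γ → ℝ}
    (ha : ∀ β, Simple ρ β → (∀ i, inter ρ β (α i) = 0) →
      Tendsto (fun n => tl (z.1 (φ n β)) / c n) U (𝓝 (a β))) {ε : ℝ} (hε : 0 < ε) :
    ∀ᶠ n in U, ∀ β, Simple ρ β → (∀ i, inter ρ β (α i) = 0) → ax (ρ β) ∉ lifts ρ α →
      tl (z.1 (φ n β)) ≤ c n * (a β + ε * tl (ρ β)) := by
  obtain ⟨ν, Λ, hν⟩ := hd.exists_family hρ
  filter_upwards [(hd.deg_of hρ z).eventually_tl_le hρ hd.multi (hν.cur z) (hν.lim z) hε]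
    with n hn β hβ hi hA
  rw [tendsto_nhds_unique (ha β hβ hi) (hd.tendsto_tl hρ hν z hβ hi)]
  exact hn β hβ hi hA

end HRT
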