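import Pool.Agent.Work.MP_35beee_gt.Sup

/-! The horofunction boundary. -/

namespace Pool.Agent.Work.MP_35beee_gt

open Real Filter Topology

/-- `psi` as a continuous map. -/
noncomputable def psiC (b : Teich) : C(Teich, C(Teich, ℝ)) :=
  ContinuousMap.curry ⟨fun p => psi b p.1 p.2, continuous_psi b⟩

theorem psiC_apply (b x z : Teich) : psiC b x z = psi b x z := rfl

theorem horoImage_eq (b : Teich) : horoImage b = Set.range (psiC b) := by
  ext f
  constructor
  · rintro ⟨x, h⟩; exact ⟨x, ContinuousMap.ext fun z => (h z).symm⟩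
  · rintro ⟨x, rfl⟩; exact ⟨x, fun z => rfl⟩

/-- Nonzero vectors. -/
abbrev Nz : Type := {v : ℝ × ℝ // v ≠ 0}

theorem continuous_h (b : Teich) :
    Continuous fun p : Nz × Teich => log (NX p.2 p.1 / NX b p.1) := by
  refine Continuous.log (Continuous.div (Continuous.NX' (by fun_prop) (by fun_prop))
    (Continuous.NX' (by fun_prop) (by fun_prop)) fun p => (NX_pos _ p.1.2).ne') fun p => ?_
  exact (div_pos (NX_pos _ p.1.2) (NX_pos _ p.1.2)).ne'

/-- The candidate horofunctions. -/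
noncomputable def hC (b : Teich) : C(Nz, C(Teich, ℝ)) :=
  ContinuousMap.curry ⟨fun p => log (NX p.2 p.1 / NX b p.1), continuous_h b⟩

theorem hC_apply (b : Teich) (v : Nz) (z : Teich) : hC b v z = log (NX z v / NX b v) := rfl

theorem exists_smul_of_wd {v w : ℝ × ℝ} (hw : w ≠ 0) (h : wd v w = 0) : ∃ s : ℝ, v = s • w := by
  have hq := wd_rot_pos hw
  have := wd_identity w (rot w) v
  have h2 : wd w v = 0 := by simp only [wd] at h ⊢; linarith
  rw [h2, zero_smul, add_zero] at this
  refine ⟨(wd w (rot w))⁻¹ * wd v (rot w), ?_⟩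
  rw [mul_smul, ← this, inv_smul_smul₀ hq.ne']

theorem hC_eq_iff (b : Teich) (v w : Nz) : hC b v = hC b w ↔ wd v.1 w.1 = 0 := by
  constructor
  · intro h
    by_contra h0
    have hp : 0 < |wd v.1 w.1| := abs_pos.2 h0
    set k := NX b w / NX b v with hk
    have hk0 : 0 < k := div_pos (NX_pos _ w.2) (NX_pos _ v.2)
    have e : ∀ z, NX z w = k * NX z v := by
      intro z
      have := congrArg (fun f : C(Teich, ℝ) => f z) h
      simp only [hC_apply] at this
      have := log_injOn_pos (div_pos (NX_pos _ v.2) (NX_pos _ v.2))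
        (div_pos (NX_pos _ w.2) (NX_pos _ w.2)) this
      have p1 := NX_pos b v.2
      have p2 := NX_pos b w.2
      rw [div_eq_div_iff p1.ne' p2.ne'] at this
      rw [hk]; field_simp; linarith
    set C := |wd (iv (1, 0)) w| + |wd v (iv (1, 0))| * k + (|wd (iv (0, 1)) w| +
      |wd v (iv (0, 1))| * k) with hCd
    have hC0 : 0 ≤ C := by positivity
    obtain ⟨z, hz⟩ := exists_small v.1 (ε := |wd v.1 w.1| * (2 * c0) / (C + 1))
      (by have := c0_pos; positivity)
    have a1 := NX_decomp z v w (iv (1, 0))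
    have a2 := NX_decomp z v w (iv (0, 1))
    have a3 := mul_le_mul_of_nonneg_left (c0_le_NX z) hp.le
    rw [e] at a1 a2
    rw [lt_div_iff₀ (by positivity)] at hz
    have a4 : C * NX z v = |wd (iv (1, 0)) w| * NX z v + |wd v (iv (1, 0))| * (k * NX z v) +
        (|wd (iv (0, 1)) w| * NX z v + |wd v (iv (0, 1))| * (k * NX z v)) := by rw [hCd]; ring
    nlinarith [NX_nonneg z v]
  · intro h
    obtain ⟨s, hs⟩ := exists_smul_of_wd w.2 h
    have hs0 : s ≠ 0 := by rintro rfl; exact v.2 (by simpa using hs)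
    ext z
    rw [hC_apply, hC_apply, hs, NX_smul, NX_smul, mul_div_mul_left _ _ (abs_pos.2 hs0).ne']

theorem psiC_ne (b x : Teich) (v : Nz) : psiC b x ≠ hC b v := by
  intro h
  set S := NX x (iv (1, 0)) + NX x (iv (0, 1)) with hS
  have hS0 : 0 < S := add_pos (NX_pos _ (iv_ne_zero IsB.std.prim_left))
    (NX_pos _ (iv_ne_zero IsB.std.prim_right))
  have hM := Er_pos x b
  have hv := NX_pos b v.2
  obtain ⟨z, hz⟩ := exists_small v.1 (ε := 2 * c0 / S / Er x b * NX b v)
    (by have := c0_pos; positivity)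
  have e := congrArg (fun f : C(Teich, ℝ) => f z) h
  simp only [hC_apply, psiC_apply, psi_eq] at e
  rw [← log_div (Er_pos _ _).ne' hM.ne'] at e
  have e2 := log_injOn_pos (div_pos (Er_pos _ _) hM) (div_pos (NX_pos _ v.2) hv) e
  rw [← div_lt_iff₀ hv, ← e2, div_lt_div_iff_of_pos_right hM, lt_div_iff₀ hS0] at hz
  have a1 := le_Er x z (iv (1, 0))
  have a2 := le_Er x z (iv (0, 1))
  have a3 := c0_le_NX z
  rw [hS] at hz
  linarith

theorem isCompact_unit (b : Teich) : IsCompact {v | NX b v = 1} := by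
  obtain ⟨c, hc, hl⟩ := (mm b).exists_lower
  refine Metric.isCompact_of_isClosed_isBounded (isClosed_eq (NX_cont b) continuous_const) ?_
  refine (Metric.isBounded_closedBall (x := (0 : ℝ × ℝ)) (r := 1 / c)).subset fun v hv => ?_
  have := hl v
  rw [mem_closedBall_zero_iff, le_div_iff₀ hc]
  have hv' : Nm (tX b) v = 1 := hv
  linarith

/-- The maximal direction as a nonzero vector. -/
noncomputable def vN (b x : Teich) : Nz := ⟨vm b x, ne_zero_of_NX (vm_b b x)⟩

theorem tendsto_psiC {ι : Type*} {l : Filter ι} {b : Teich} {x : ι → Teich} {v : Nz}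
    (hM : Tendsto (fun i => Er (x i) b) l atTop) (hv : Tendsto (fun i => vN b (x i)) l (𝓝 v)) :
    Tendsto (fun i => psiC b (x i)) l (𝓝 (hC b v)) := by
  have h1 := ((hC b).continuous.tendsto v).comp hv
  have h2 : Tendsto (fun i => psiC b (x i) - hC b (vN b (x i))) l (𝓝 0) := by
    rw [ContinuousMap.tendsto_iff_forall_isCompact_tendstoUniformlyOn]
    intro K hK
    obtain ⟨C, hC0, hest⟩ := exists_est b
    have hc : Continuous fun p : Nz × Teich => C / wd p.1.1 (rot p.1.1) *
        (NX b (rot p.1.1) + NX p.2 (rot p.1.1) / NX p.2 p.1.1) := by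
      have hr : Continuous fun p : Nz × Teich => rot p.1.1 := by unfold rot; fun_prop
      refine Continuous.mul (continuous_const.div (by unfold wd rot; fun_prop)
        fun p => (wd_rot_pos p.1.2).ne') (Continuous.add (Continuous.NX' continuous_const hr)
        (Continuous.div (Continuous.NX' continuous_snd hr)
          (Continuous.NX' continuous_snd (by fun_prop)) fun p => (NX_pos _ p.1.2).ne'))
    have hU : IsCompact {v : Nz | NX b v.1 = 1} := by
      rw [Subtype.isCompact_iff]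
      convert isCompact_unit b using 1
      ext v
      constructor
      · rintro ⟨w, hw, rfl⟩; exact hw
      · exact fun h => ⟨⟨v, ne_zero_of_NX h⟩, h, rfl⟩
    obtain ⟨B, hB⟩ := (hU.prod hK).bddAbove_image hc.continuousOn
    refine Metric.tendstoUniformlyOn_iff.2 fun ε hε => ?_
    have ht : Tendsto (fun i => B / Er (x i) b) l (𝓝 0) := hM.const_div_atTop B
    filter_upwards [ht.eventually_lt_const hε] with i hi z hz
    have a1 := hest (x i) z
    have a2 := hB ⟨(vN b (x i), z), ⟨vm_b b (x i), hz⟩, rfl⟩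
    simp only [ContinuousMap.zero_apply, ContinuousMap.sub_apply, dist_zero_left, Real.norm_eq_abs,
      psiC_apply, hC_apply, vN, vm_b, div_one] at a2 ⊢
    refine lt_of_le_of_lt (a1.trans ?_) hi
    exact div_le_div_of_nonneg_right a2 (Er_pos _ _).le
  simpa using h2.add h1

theorem dichotomy {ι : Type*} (U : Ultrafilter ι) (b : Teich) (x : ι → Teich) :
    (∃ y, Tendsto x U (𝓝 y)) ∨ (Tendsto (fun i => Er (x i) b) U atTop ∧
      ∃ v, Tendsto (fun i => vN b (x i)) U (𝓝 v)) := by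
  by_cases h : Tendsto (fun i => Er (x i) b) U atTop
  · right
    refine ⟨h, ?_⟩
    obtain ⟨v, hv, hle⟩ := (isCompact_unit b).ultrafilter_le_nhds (U.map fun i => vm b (x i))
      (by simp [vm_b])
    exact ⟨⟨v, ne_zero_of_NX hv⟩, tendsto_subtype_rng.2 hle⟩
  · left
    rw [tendsto_atTop] at h
    push Not at h
    obtain ⟨M, hM⟩ := h
    obtain ⟨K, hK, hK2⟩ := exists_compact b M
    obtain ⟨y, -, hle⟩ := hK.ultrafilter_le_nhds (U.map x) (by
      rw [Ultrafilter.coe_map, le_principal_iff, mem_map]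
      exact hM.mono fun i hi => hK2 _ hi.le)
    exact ⟨y, hle⟩

theorem horoBdry_eq (b : Teich) : horoBdry b = Set.range (hC b) := by
  ext f
  rw [horoBdry, horoImage_eq]
  constructor
  · rintro ⟨h1, h2⟩
    have : (comap (psiC b) (𝓝 f)).NeBot := by
      rw [mem_closure_iff_nhds] at h1
      exact comap_neBot fun t ht => let ⟨_, h3, y, h4⟩ := h1 t ht; ⟨y, h4 ▸ h3⟩
    let U := Ultrafilter.of (comap (psiC b) (𝓝 f))
    have hU : Tendsto (psiC b) U (𝓝 f) := tendsto_comap.mono_left (Ultrafilter.of_le _)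
    rcases dichotomy U b id with ⟨y, hy⟩ | ⟨hM, v, hv⟩
    · exact absurd ⟨y, tendsto_nhds_unique (((psiC b).continuous.tendsto y).comp hy) hU⟩ h2
    · exact ⟨v, tendsto_nhds_unique (tendsto_psiC hM hv) hU⟩
  · rintro ⟨v, rfl⟩
    refine ⟨?_, fun ⟨x, h⟩ => psiC_ne b x v h⟩
    choose z hz using fun n : ℕ => exists_small v.1 (ε := 1 / ((n : ℝ) + 1)) (by positivity)
    have h0 : Tendsto (fun n => NX (z n) v) atTop (𝓝 0) :=
      squeeze_zero (fun n => NX_nonneg _ _) (fun n => (hz n).le)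
        tendsto_one_div_add_atTop_nhds_zero_nat
    let U := Ultrafilter.of (atTop : Filter ℕ)
    have h1 := h0.mono_left (Ultrafilter.of_le (atTop : Filter ℕ))
    rcases dichotomy U b z with ⟨y, hy⟩ | ⟨hM, w, hw⟩
    · have := ((Continuous.NX' continuous_id (continuous_const (y := v.1))).tendsto y).comp hy
      exact absurd (tendsto_nhds_unique this h1) (NX_pos _ v.2).ne'
    · obtain ⟨C, -, hb⟩ := exists_wd_bound b
      have a1 : Tendsto (fun n => |wd v.1 (vN b (z n)).1|) U (𝓝 |wd v.1 w.1|) :=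
        ((by unfold wd; fun_prop : Continuous fun u : Nz => |wd v.1 u.1|).tendsto w).comp hw
      have a2 := le_of_tendsto_of_tendsto' a1 (h1.const_mul C) fun n => hb (z n) v
      rw [mul_zero, abs_nonpos_iff] at a2
      rw [(hC_eq_iff b v w).2 a2]
      exact mem_closure_of_tendsto (tendsto_psiC hM hw) (Eventually.of_forall fun n => ⟨_, rfl⟩)

theorem tendsto_ratio {ι : Type*} {l : Filter ι} {b : Teich} {x : ι → Teich} {v : Nz}
    (hM : Tendsto (fun i => Er (x i) b) l atTop) (hv : Tendsto (fun i => vN b (x i)) l (𝓝 v))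
    {w : ℝ × ℝ} (hw : wd v.1 w ≠ 0) (u : ℝ × ℝ) :
    Tendsto (fun i => NX (x i) u / NX (x i) w) l (𝓝 (|wd v.1 u| / |wd v.1 w|)) := by
  obtain ⟨C, hC0, hb⟩ := exists_wd_bound b
  have hw0 : w ≠ 0 := by rintro rfl; simp [wd] at hw
  have t : ∀ u, Tendsto (fun i => |wd (vm b (x i)) u|) l (𝓝 |wd v.1 u|) := fun u =>
    ((by unfold wd; fun_prop : Continuous fun a : Nz => |wd a.1 u|).tendsto v).comp hv
  have hp : 0 < |wd v.1 w| := abs_pos.2 hw
  have ev := (t w).eventually_const_lt hp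
  have t1 := (t u).div (t w) hp.ne'
  have t2 : Tendsto (fun i => |wd u w| * C * (Er (x i) b)⁻¹ / |wd (vm b (x i)) w| /
      |wd (vm b (x i)) w|) l (𝓝 (|wd u w| * C * 0 / |wd v.1 w| / |wd v.1 w|)) :=
    ((hM.inv_tendsto_atTop.const_mul _).div (t w) hp.ne').div (t w) hp.ne'
  simp only [mul_zero, zero_div] at t2
  refine (tendsto_iff_norm_sub_tendsto_zero.2 ?_ : Tendsto (fun i => NX (x i) u / NX (x i) w -
    |wd (vm b (x i)) u| / |wd (vm b (x i)) w|) l (𝓝 0)).add t1 |>.congr (by simp) |>.trans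
    (by simp)
  refine squeeze_zero' (Eventually.of_forall fun i => norm_nonneg _) ?_ t2
  filter_upwards [ev] with i hi
  have a1 := NX_decomp (x i) (vm b (x i)) w u
  have a2 := NX_decomp (x i) (vm b (x i)) u w
  have a3 := hb (x i) w
  have a4 : NX (x i) (vm b (x i)) = (Er (x i) b)⁻¹ := eq_inv_of_mul_eq_one_right (vm_x b (x i))
  have a5 := NX_pos (x i) hw0
  have a6 : 0 < (Er (x i) b)⁻¹ := inv_pos.2 (Er_pos _ _)
  rw [abs_wd_comm w u] at a2
  rw [abs_wd_comm] at a3
  rw [a4] at a1 a2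
  generalize (Er (x i) b)⁻¹ = m at *
  generalize |wd (vm b (x i)) w| = p at *
  generalize |wd (vm b (x i)) u| = q at *
  have a7 : |p * NX (x i) u - q * NX (x i) w| ≤ |wd u w| * m := abs_le.2 ⟨by linarith, by linarith⟩
  have e : NX (x i) u / NX (x i) w - q / p = (p * NX (x i) u - q * NX (x i) w) / (NX (x i) w * p) := by
    field_simp
  rw [sub_zero, Real.norm_eq_abs, e, abs_div, abs_of_pos (mul_pos a5 hi), div_div,
    div_le_div_iff₀ (mul_pos a5 hi) (mul_pos hi hi)]
  have a8 := mul_le_mul a7 a3 hi.le (by positivity)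
  nlinarith [mul_le_mul_of_nonneg_right a8 hi.le]

theorem exists_good (v w : Nz) : ∃ u, Prim u ∧ wd v.1 (iv u) ≠ 0 ∧ wd w.1 (iv u) ≠ 0 := by
  have hv : v.1.1 ≠ 0 ∨ v.1.2 ≠ 0 := by
    by_contra h; push Not at h; exact v.2 (Prod.ext h.1 h.2)
  have hw : w.1.1 ≠ 0 ∨ w.1.2 ≠ 0 := by
    by_contra h; push Not at h; exact w.2 (Prod.ext h.1 h.2)
  by_cases h1 : v.1.1 ≠ 0 ∧ w.1.1 ≠ 0
  · exact ⟨(0, 1), IsB.std.prim_right, by simp [wd, iv, h1]⟩
  by_cases h2 : v.1.2 ≠ 0 ∧ w.1.2 ≠ 0
  · exact ⟨(1, 0), IsB.std.prim_left, by simp [wd, iv, h2]⟩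
  refine ⟨(1, 1), by simpa using IsB.std.add_left.prim_left, ?_⟩
  by_cases h3 : v.1.1 = 0 <;> by_cases h4 : w.1.1 = 0 <;> by_cases h5 : v.1.2 = 0 <;>
    by_cases h6 : w.1.2 = 0 <;> simp_all [wd, iv]

theorem wd_smul_right (v : ℝ × ℝ) (c : ℝ) (u : ℝ × ℝ) : |wd v (c • u)| = |c| * |wd v u| := by
  rw [← abs_mul]; congr 1; simp [wd]; ring

theorem thurston (b : Teich) (X : ℕ → Teich) (v : Nz) :
    Tendsto (fun n => psiC b (X n)) atTop (𝓝 (hC b v)) ↔ ∃ c : ℕ → ℝ, (∀ n, 0 < c n) ∧
      ∀ γ, IsSimple γ → Tendsto (fun n => len (X n) γ / c n) atTop (𝓝 |wd v.1 (hom γ)|) := by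
  constructor
  · intro h
    have hq := wd_rot_pos v.2
    have hr : rot v.1 ≠ 0 := by intro e; rw [e] at hq; simp [wd] at hq
    refine ⟨fun n => NX (X n) (rot v.1) / wd v.1 (rot v.1), fun n => div_pos (NX_pos _ hr) hq,
      fun γ hγ => (tendsto_iff_ultrafilter _ _ _).2 fun U hU => ?_⟩
    have h' := h.mono_left hU
    rcases dichotomy U b X with ⟨y, hy⟩ | ⟨hM, w, hw⟩
    · exact absurd (tendsto_nhds_unique (((psiC b).continuous.tendsto y).comp hy) h')
        (psiC_ne b y v)
    · have e := (hC_eq_iff b w v).1 (tendsto_nhds_unique (tendsto_psiC hM hw) h')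
      obtain ⟨s, hs⟩ := exists_smul_of_wd v.2 e
      have hs0 : s ≠ 0 := by rintro rfl; exact w.2 (by simpa using hs)
      have e2 : ∀ u, |wd w.1 u| = |s| * |wd v.1 u| := fun u => by
        rw [abs_wd_comm, hs, wd_smul_right, abs_wd_comm]
      have := (tendsto_ratio hM hw (w := rot v.1) (by
        rw [← abs_pos, e2]; exact mul_pos (abs_pos.2 hs0) (abs_pos.2 hq.ne')) (hom γ)).mul_const
        (wd v.1 (rot v.1))
      rw [e2, e2, mul_div_mul_left _ _ (abs_pos.2 hs0).ne', abs_of_pos hq,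
        div_mul_cancel₀ _ hq.ne'] at this
      refine this.congr fun n => ?_
      rw [NX_hom _ hγ, div_div_eq_mul_div, div_mul_eq_mul_div]
  · rintro ⟨c, hc, h⟩
    have h1 : ∀ u, Prim u → Tendsto (fun n => NX (X n) (iv u) / c n) atTop (𝓝 |wd v.1 (iv u)|) := by
      intro u hu
      obtain ⟨γ, hγ, rfl⟩ := exists_simple hu
      simpa only [← hom_eq, NX_hom _ hγ] using h γ hγ
    have h2 : ∀ u0, Prim u0 → wd v.1 (iv u0) ≠ 0 → ∀ u, Prim u →
        Tendsto (fun n => NX (X n) (iv u) / NX (X n) (iv u0)) atTop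
          (𝓝 (|wd v.1 (iv u)| / |wd v.1 (iv u0)|)) := by
      intro u0 hu0 h0 u hu
      refine ((h1 u hu).div (h1 u0 hu0) (abs_pos.2 h0).ne').congr fun n => ?_
      exact div_div_div_cancel_right₀ (hc n).ne' _ _
    have hwc : ∀ a : ℝ × ℝ, Continuous fun u => |wd a u| := fun a => by unfold wd; fun_prop
    refine (tendsto_iff_ultrafilter _ _ _).2 fun U hU => ?_
    rcases dichotomy U b X with ⟨y, hy⟩ | ⟨hM, w, hw⟩
    · exfalso
      obtain ⟨u0, hu0, h0, -⟩ := exists_good v v
      have p0 := NX_pos y (iv_ne_zero hu0)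
      have t : ∀ u, Tendsto (fun n => NX (X n) u) U (𝓝 (NX y u)) := fun u =>
        ((Continuous.NX' continuous_id (continuous_const (y := u))).tendsto y).comp hy
      have := le_of_prim (f := fun u => NX y u / NX y (iv u0))
        (g := fun u => |wd v.1 u| / |wd v.1 (iv u0)|) ((NX_cont y).div_const _)
        ((hwc _).div_const _) (fun c u => by rw [NX_smul]; ring)
        (fun c u => by rw [wd_smul_right]; ring) (fun u hu => (tendsto_nhds_unique
          ((t _).div (t _) p0.ne') ((h2 u0 hu0 h0 u hu).mono_left hU)).le) v.1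
      have e : wd v.1 v.1 = 0 := by simp [wd]; ring
      simp only [e, abs_zero, zero_div] at this
      exact absurd this (not_le.2 (div_pos (NX_pos y v.2) p0))
    · obtain ⟨u0, hu0, h0, h0'⟩ := exists_good v w
      have := le_of_prim (f := fun u => |wd v.1 u| / |wd v.1 (iv u0)|)
        (g := fun u => |wd w.1 u| / |wd w.1 (iv u0)|) ((hwc _).div_const _)
        ((hwc _).div_const _) (fun c u => by rw [wd_smul_right]; ring)
        (fun c u => by rw [wd_smul_right]; ring) (fun u hu => (tendsto_nhds_unique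
          ((h2 u0 hu0 h0 u hu).mono_left hU) (tendsto_ratio hM hw h0' _)).le) w.1
      have e : wd w.1 w.1 = 0 := by simp [wd]; ring
      simp only [e, abs_zero, zero_div] at this
      rw [div_nonpos_iff] at this
      have e2 : wd v.1 w.1 = 0 := by
        rcases this with ⟨_, h⟩ | ⟨h, _⟩
        · exact absurd h (not_le.2 (abs_pos.2 h0))
        · exact abs_nonpos_iff.1 h
      rw [(hC_eq_iff b v w).2 e2]
      exact tendsto_psiC hM hw

/-- Unit vector of given angle. -/
noncomputable def cs (θ : ℝ) : Nz := ⟨(cos θ, sin θ), fun h => by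
  have h1 : cos θ = 0 := congrArg Prod.fst h
  have h2 : sin θ = 0 := congrArg Prod.snd h
  have := sin_sq_add_cos_sq θ
  simp [h1, h2] at this⟩

theorem continuous_cs : Continuous cs := Continuous.subtype_mk (by fun_prop) _

theorem wd_cs (θ φ : ℝ) : wd (cs θ).1 (cs φ).1 = sin (φ - θ) := by
  simp [wd, cs, sin_sub]; ring

theorem exists_cs (v : Nz) : ∃ θ, wd (cs θ).1 v.1 = 0 := by
  let z : ℂ := ⟨v.1.1, v.1.2⟩
  have hz : z ≠ 0 := fun h => v.2 (Prod.ext (congrArg Complex.re h) (congrArg Complex.im h))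
  refine ⟨z.arg, ?_⟩
  simp only [wd, cs, Complex.cos_arg hz, Complex.sin_arg, z]
  ring

theorem exists_homeo (b : Teich) : ∃ H : AddCircle π ≃ₜ horoBdry b,
    ∀ θ : ℝ, (H θ : C(Teich, ℝ)) = hC b (cs θ) := by
  have : Fact (0 < π) := ⟨pi_pos⟩
  have hp : Function.Periodic (fun θ => hC b (cs θ)) π := fun θ => by
    rw [hC_eq_iff, wd_cs]; simp
  have hmem : ∀ θ : AddCircle π, hp.lift θ ∈ horoBdry b := by
    intro θ
    induction θ using QuotientAddGroup.induction_on with
    | H θ => rw [horoBdry_eq]; exact ⟨cs θ, rfl⟩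
  let f : AddCircle π → horoBdry b := fun θ => ⟨hp.lift θ, hmem θ⟩
  have hf : Continuous f := Continuous.subtype_mk
    ((QuotientAddGroup.isQuotientMap_mk _).continuous_iff.2
      ((hC b).continuous.comp continuous_cs)) _
  have hb : Function.Bijective f := by
    constructor
    · intro θ φ h
      induction θ using QuotientAddGroup.induction_on with
      | H θ =>
      induction φ using QuotientAddGroup.induction_on with
      | H φ =>
      have h1 : hC b (cs θ) = hC b (cs φ) := congrArg Subtype.val h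
      rw [hC_eq_iff, wd_cs, sin_eq_zero_iff] at h1
      obtain ⟨n, hn⟩ := h1
      exact QuotientAddGroup.eq.2 ⟨n, by simp only [zsmul_eq_mul]; linarith⟩
    · rintro ⟨g, hg⟩
      have hg' := hg
      rw [horoBdry_eq] at hg'
      obtain ⟨v, rfl⟩ := hg'
      obtain ⟨θ, hθ⟩ := exists_cs v
      exact ⟨θ, Subtype.ext ((hC_eq_iff b _ _).2 hθ)⟩
  exact ⟨Continuous.homeoOfEquivCompactToT2 (f := Equiv.ofBijective f hb) hf, fun θ => rfl⟩

instance : LocallyCompactSpace Teich := by
  have hc : IsClosed {T : ℝ × ℝ × ℝ | Val T.1 T.2.1 T.2.2} := by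
    have : {T : ℝ × ℝ × ℝ | Val T.1 T.2.1 T.2.2} = Set.Ici ((2, 2, 2) : ℝ × ℝ × ℝ) ∩
        {T | T.1 ^ 2 + T.2.1 ^ 2 + T.2.2 ^ 2 = T.1 * T.2.1 * T.2.2} := by
      ext ⟨x, y, z⟩
      constructor
      · rintro ⟨a1, a2, a3, a4⟩
        exact ⟨⟨a1.le, a2.le, a3.le⟩, a4⟩
      · rintro ⟨⟨a1, a2, a3⟩, a4⟩
        simp only at a1 a2 a3
        exact val_of_pos (by linarith) (by linarith) (by linarith) a4
    rw [this]
    exact isClosed_Ici.inter (isClosed_eq (by fun_prop) (by fun_prop))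
  have : LocallyCompactSpace Mk := hc.locallyCompactSpace
  exact frH.isClosedEmbedding.locallyCompactSpace

end Pool.Agent.Work.MP_35beee_gt
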