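import Mathlib

/-! Markov maps on primitive integer vectors. -/

namespace Pool.Agent.Work.MP_35beee_gt

/-- Determinant of two integer vectors. -/
def dz (u v : ℤ × ℤ) : ℤ := u.1 * v.2 - u.2 * v.1

/-- Bases of the integer lattice. -/
def IsB (u v : ℤ × ℤ) : Prop := dz u v = 1 ∨ dz u v = -1

/-- Primitive vectors. -/
def Prim (u : ℤ × ℤ) : Prop := ∃ v, IsB u v

/-- Valid Markov triples. -/
def Val (x y z : ℝ) : Prop := 2 < x ∧ 2 < y ∧ 2 < z ∧ x ^ 2 + y ^ 2 + z ^ 2 = x * y * z

/-- Markov maps. -/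
structure IsMM (t : ℤ × ℤ → ℝ) : Prop where
  neg : ∀ v, t (-v) = t v
  val : ∀ e f, IsB e f → Val (t e) (t f) (t (e + f))
  rel : ∀ e f, IsB e f → t (e + f) + t (e - f) = t e * t f

theorem IsB.swap {u v : ℤ × ℤ} (h : IsB u v) : IsB v u := by
  unfold IsB dz at *; rcases h with h | h
  · right; linarith
  · left; linarith

theorem IsB.neg_left {u v : ℤ × ℤ} (h : IsB u v) : IsB (-u) v := by
  unfold IsB dz at *; simp only [Prod.fst_neg, Prod.snd_neg]; rcases h with h | h
  · right; linarith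
  · left; linarith

theorem IsB.neg_right {u v : ℤ × ℤ} (h : IsB u v) : IsB u (-v) := h.swap.neg_left.swap

theorem IsB.add_left {u v : ℤ × ℤ} (h : IsB u v) : IsB (u + v) v := by
  unfold IsB dz at *; simp only [Prod.fst_add, Prod.snd_add]; rcases h with h | h
  · left; linarith
  · right; linarith

theorem IsB.add_right {u v : ℤ × ℤ} (h : IsB u v) : IsB u (u + v) := by
  have := h.swap.add_left.swap
  rwa [add_comm] at this

theorem IsB.std : IsB (1, 0) (0, 1) := by left; simp [dz]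

theorem IsB.prim_left {u v : ℤ × ℤ} (h : IsB u v) : Prim u := ⟨v, h⟩
theorem IsB.prim_right {u v : ℤ × ℤ} (h : IsB u v) : Prim v := ⟨u, h.swap⟩
theorem Prim.neg {u : ℤ × ℤ} (h : Prim u) : Prim (-u) := let ⟨v, h⟩ := h; ⟨v, h.neg_left⟩

theorem prim_iff {u : ℤ × ℤ} : Prim u ↔ IsCoprime u.1 u.2 := by
  constructor
  · rintro ⟨v, h | h⟩
    · exact ⟨v.2, -v.1, by unfold dz at h; linarith⟩
    · exact ⟨-v.2, v.1, by unfold dz at h; linarith⟩
  · rintro ⟨a, b, h⟩
    exact ⟨(-b, a), Or.inl (by unfold dz; simp only; linarith)⟩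

theorem val_of_pos {x y z : ℝ} (hx : 0 < x) (hy : 0 < y) (hz : 0 < z)
    (h : x ^ 2 + y ^ 2 + z ^ 2 = x * y * z) : Val x y z := by
  refine ⟨?_, ?_, ?_, h⟩
  · by_contra hc
    push Not at hc
    nlinarith [mul_pos hy hz, sq_nonneg (y - z), mul_nonneg (sub_nonneg.2 hc) (mul_pos hy hz).le]
  · by_contra hc
    push Not at hc
    nlinarith [mul_pos hx hz, sq_nonneg (x - z), mul_nonneg (sub_nonneg.2 hc) (mul_pos hx hz).le]
  · by_contra hc
    push Not at hc
    nlinarith [mul_pos hx hy, sq_nonneg (x - y), mul_nonneg (sub_nonneg.2 hc) (mul_pos hx hy).le]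

theorem Val.flip {x y z : ℝ} (h : Val x y z) : Val x y (x * y - z) := by
  obtain ⟨hx, hy, hz, h⟩ := h
  refine val_of_pos (by linarith) (by linarith) ?_ (by linarith)
  by_contra hc
  push Not at hc
  nlinarith

theorem Val.swap12 {x y z : ℝ} (h : Val x y z) : Val y x z :=
  ⟨h.2.1, h.1, h.2.2.1, by linarith [h.2.2.2]⟩

theorem Val.swap23 {x y z : ℝ} (h : Val x y z) : Val x z y :=
  ⟨h.1, h.2.2.1, h.2.1, by linarith [h.2.2.2]⟩

/-- Stern-Brocot recursion for traces. -/
def W (p q : ℕ) (T : ℝ × ℝ × ℝ) : ℝ :=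
  if p = 0 then T.2.1 else if q = 0 then T.1 else
    if q ≤ p then W (p - q) q (T.1, T.2.2, T.1 * T.2.2 - T.2.1)
    else W p (q - p) (T.2.2, T.2.1, T.2.2 * T.2.1 - T.1)
termination_by p + q
decreasing_by all_goals omega

theorem W_zero_left (q : ℕ) (T : ℝ × ℝ × ℝ) : W 0 q T = T.2.1 := by rw [W]; simp

theorem W_zero_right {p : ℕ} (hp : p ≠ 0) (T : ℝ × ℝ × ℝ) : W p 0 T = T.1 := by
  rw [W]; simp [hp]

theorem W_L (s t : ℕ) (h : s ≠ 0 ∨ t ≠ 0) (T : ℝ × ℝ × ℝ) :
    W (s + t) t T = W s t (T.1, T.2.2, T.1 * T.2.2 - T.2.1) := by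
  by_cases ht : t = 0
  · subst ht
    have hs : s ≠ 0 := by omega
    rw [add_zero, W_zero_right hs, W_zero_right hs]
  · rw [W, if_neg (by omega), if_neg ht, if_pos (by omega), Nat.add_sub_cancel]

theorem W_R (s t : ℕ) (T : ℝ × ℝ × ℝ) :
    W s (s + t) T = W s t (T.2.2, T.2.1, T.2.2 * T.2.1 - T.1) := by
  by_cases hs : s = 0
  · subst hs
    rw [W_zero_left, W_zero_left]
  · by_cases ht : t = 0
    · subst ht
      have := W_L 0 s (Or.inr hs) T
      rw [zero_add] at this
      rw [add_zero, this, W_zero_left, W_zero_right hs]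
    · rw [W, if_neg hs, if_neg (by omega), if_neg (by omega), Nat.add_sub_cancel_left]

theorem continuous_W (p q : ℕ) : Continuous (W p q) := by
  induction h : p + q using Nat.strong_induction_on generalizing p q with
  | _ n ih =>
    by_cases hp : p = 0
    · subst hp
      have : W 0 q = fun T => T.2.1 := funext (W_zero_left q)
      rw [this]; fun_prop
    by_cases hq : q = 0
    · subst hq
      have : W p 0 = fun T => T.1 := funext (W_zero_right hp)
      rw [this]; fun_prop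
    by_cases hqp : q ≤ p
    · have : W p q = fun T => W (p - q) q (T.1, T.2.2, T.1 * T.2.2 - T.2.1) := by
        funext T; rw [W, if_neg hp, if_neg hq, if_pos hqp]
      rw [this]
      exact (ih _ (by omega) _ _ rfl).comp (by fun_prop)
    · have : W p q = fun T => W p (q - p) (T.2.2, T.2.1, T.2.2 * T.2.1 - T.1) := by
        funext T; rw [W, if_neg hp, if_neg hq, if_neg hqp]
      rw [this]
      exact (ih _ (by omega) _ _ rfl).comp (by fun_prop)

/-- The trace function of a triple. -/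
def tm (T : ℝ × ℝ × ℝ) (v : ℤ × ℤ) : ℝ :=
  if 0 ≤ v.1 * v.2 then W v.1.natAbs v.2.natAbs T
  else W v.1.natAbs v.2.natAbs (T.1, T.2.1, T.1 * T.2.1 - T.2.2)

theorem continuous_tm (v : ℤ × ℤ) : Continuous fun T => tm T v := by
  unfold tm
  split_ifs
  · exact continuous_W _ _
  · exact (continuous_W _ _).comp (by fun_prop)

theorem tm_neg (T : ℝ × ℝ × ℝ) (v : ℤ × ℤ) : tm T (-v) = tm T v := by
  simp [tm]

theorem tm_nat (T : ℝ × ℝ × ℝ) (a c : ℕ) : tm T ((a : ℤ), (c : ℤ)) = W a c T := by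
  rw [tm, if_pos (by positivity)]; simp

theorem tm_mirror (T : ℝ × ℝ × ℝ) (v : ℤ × ℤ) :
    tm T (-v.1, v.2) = tm (T.1, T.2.1, T.1 * T.2.1 - T.2.2) v := by
  obtain ⟨p, q⟩ := v
  obtain ⟨x, y, z⟩ := T
  simp only [tm, Int.natAbs_neg, neg_mul, sub_sub_cancel]
  rcases lt_trichotomy (p * q) 0 with h | h | h
  · rw [if_pos (by omega), if_neg (by omega)]
  · rw [if_pos (by omega), if_pos (by omega)]
    rcases mul_eq_zero.1 h with rfl | rfl
    · simp [W_zero_left]
    · by_cases hp : p = 0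
      · subst hp; simp [W_zero_left]
      · have : p.natAbs ≠ 0 := by omega
        simp [W_zero_right this]
  · rw [if_neg (by omega), if_pos (by omega)]

theorem tm_e1 (T : ℝ × ℝ × ℝ) : tm T (1, 0) = T.1 := by
  simpa [W_zero_right] using tm_nat T 1 0

theorem tm_e2 (T : ℝ × ℝ × ℝ) : tm T (0, 1) = T.2.1 := by
  simpa [W_zero_left] using tm_nat T 0 1

theorem tm_e3 (T : ℝ × ℝ × ℝ) : tm T (1, 1) = T.2.2 := by
  have := tm_nat T 1 1
  have h := W_L 0 1 (by simp) T
  simp only [Nat.cast_one, zero_add] at this h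
  rw [this, h, W_zero_left]

theorem SB_nat (T : ℝ × ℝ × ℝ) (hT : Val T.1 T.2.1 T.2.2) :
    ∀ (n a b c d : ℕ), a + b + c + d ≤ n → a * d = b * c + 1 →
      ∃ T' : ℝ × ℝ × ℝ, Val T'.1 T'.2.1 T'.2.2 ∧
        (∀ s t : ℕ, (s ≠ 0 ∨ t ≠ 0) → W (s * a + t * b) (s * c + t * d) T = W s t T') ∧
        T'.1 * T'.2.1 - T'.2.2 = tm T ((a : ℤ) - b, (c : ℤ) - d) := by
  intro n
  induction n with
  | zero =>
    intro a b c d hn h
    have : a = 0 := by omega
    subst this; omega
  | succ n ih =>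
    intro a b c d hn h
    by_cases h1 : b ≤ a ∧ d ≤ c
    · obtain ⟨a', rfl⟩ := Nat.exists_eq_add_of_le h1.1
      obtain ⟨c', rfl⟩ := Nat.exists_eq_add_of_le h1.2
      have hd : d ≠ 0 := by rintro rfl; simp at h
      obtain ⟨T', v, hW, _⟩ := ih a' b c' d (by omega) (by nlinarith)
      refine ⟨(T'.2.2, T'.2.1, T'.2.2 * T'.2.1 - T'.1), v.swap23.swap12.swap23.flip, ?_, ?_⟩
      · intro s t hst
        rw [← W_R, ← hW s (s + t) (by omega)]
        congr 1 <;> ring
      · have := hW 1 0 (by simp)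
        rw [W_zero_right one_ne_zero] at this
        simp only [sub_sub_cancel, Nat.cast_add, add_sub_cancel_left]
        rw [tm_nat, ← this]; simp
    · by_cases h2 : a ≤ b ∧ c ≤ d
      · obtain ⟨b', rfl⟩ := Nat.exists_eq_add_of_le h2.1
        obtain ⟨d', rfl⟩ := Nat.exists_eq_add_of_le h2.2
        have ha : a ≠ 0 := by rintro rfl; simp at h
        obtain ⟨T', v, hW, _⟩ := ih a b' c d' (by omega) (by nlinarith)
        refine ⟨(T'.1, T'.2.2, T'.1 * T'.2.2 - T'.2.1), v.swap23.flip, ?_, ?_⟩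
        · intro s t hst
          rw [← W_L s t hst, ← hW (s + t) t (by omega)]
          congr 1 <;> ring
        · have := hW 0 1 (by simp)
          rw [W_zero_left] at this
          simp only [sub_sub_cancel, Nat.cast_add]
          rw [← tm_neg]
          simp only [Prod.neg_mk, neg_sub, add_sub_cancel_left]
          rw [tm_nat, ← this]; simp
      · have h3 : b < a ∧ c < d := by
          by_contra h3
          have h4 : a < b ∧ d < c := by
            rcases lt_trichotomy a b with h5 | h5 | h5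
            · omega
            · subst h5; omega
            · omega
          nlinarith [h4.1, h4.2]
        have hb : b = 0 ∧ c = 0 := by
          constructor <;> nlinarith [h3.1, h3.2]
        obtain ⟨rfl, rfl⟩ := hb
        have had : a = 1 ∧ d = 1 := by
          have : a * d = 1 := by simpa using h
          exact ⟨Nat.eq_one_of_mul_eq_one_right this, Nat.eq_one_of_mul_eq_one_left this⟩
        obtain ⟨rfl, rfl⟩ := had
        refine ⟨T, hT, fun s t _ => by simp, ?_⟩
        have := tm_mirror T (1, 1)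
        rw [tm_e3] at this
        rw [← tm_neg]
        simpa using this.symm

/-- The relations at one basis. -/
def RelAt (t : ℤ × ℤ → ℝ) (e f : ℤ × ℤ) : Prop :=
  Val (t e) (t f) (t (e + f)) ∧ t (e + f) + t (e - f) = t e * t f

theorem RelAt.swap {t : ℤ × ℤ → ℝ} (hn : ∀ v, t (-v) = t v) {e f : ℤ × ℤ} (h : RelAt t e f) :
    RelAt t f e := by
  refine ⟨by rw [add_comm]; exact h.1.swap12, ?_⟩
  rw [add_comm f, ← hn (f - e), neg_sub, h.2, mul_comm]

theorem RelAt.neg_right {t : ℤ × ℤ → ℝ} (hn : ∀ v, t (-v) = t v) {e f : ℤ × ℤ}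
    (h : RelAt t e f) : RelAt t e (-f) := by
  constructor
  · rw [hn, ← sub_eq_add_neg, show t (e - f) = t e * t f - t (e + f) by linarith [h.2]]
    exact h.1.flip
  · rw [hn, ← sub_eq_add_neg, sub_neg_eq_add, ← h.2, add_comm]

theorem RelAt.neg_left {t : ℤ × ℤ → ℝ} (hn : ∀ v, t (-v) = t v) {e f : ℤ × ℤ}
    (h : RelAt t e f) : RelAt t (-e) f := ((h.swap hn).neg_right hn).swap hn

theorem relAt_Q1 (T : ℝ × ℝ × ℝ) (hT : Val T.1 T.2.1 T.2.2) (e f : ℤ × ℤ) (h : IsB e f)
    (h1 : 0 ≤ e.1) (h2 : 0 ≤ e.2) (h3 : 0 ≤ f.1) (h4 : 0 ≤ f.2) : RelAt (tm T) e f := by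
  wlog hd : dz e f = 1 generalizing e f
  · have hd' : dz f e = 1 := by
      rcases h with h | h
      · exact absurd h hd
      · unfold dz at *; linarith
    exact (this f e h.swap h3 h4 h1 h2 hd').swap (tm_neg T)
  obtain ⟨e1, e2⟩ := e
  obtain ⟨f1, f2⟩ := f
  lift e1 to ℕ using h1 with a
  lift e2 to ℕ using h2 with c
  lift f1 to ℕ using h3 with b
  lift f2 to ℕ using h4 with d
  have had : a * d = b * c + 1 := by
    unfold dz at hd; simp only at hd; zify; linarith
  obtain ⟨T', v, hW, hm⟩ := SB_nat T hT _ a b c d le_rfl had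
  have w1 := hW 1 0 (by simp)
  have w2 := hW 0 1 (by simp)
  have w3 := hW 1 1 (by simp)
  have w4 := W_L 0 1 (by simp) T'
  rw [W_zero_right one_ne_zero] at w1
  rw [W_zero_left] at w2 w4
  simp only [one_mul, zero_mul, add_zero, zero_add] at w1 w2 w3 w4
  have e3 : tm T (((a : ℤ), (c : ℤ)) + ((b : ℤ), (d : ℤ))) = T'.2.2 := by
    rw [← w4, ← w3, ← tm_nat]; simp
  unfold RelAt
  rw [e3, tm_nat, tm_nat, w1, w2, Prod.mk_sub_mk, ← hm]
  exact ⟨v, by ring⟩

theorem relAt_Q2 (T : ℝ × ℝ × ℝ) (hT : Val T.1 T.2.1 T.2.2) (e f : ℤ × ℤ) (h : IsB e f)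
    (h1 : e.1 ≤ 0) (h2 : 0 ≤ e.2) (h3 : f.1 ≤ 0) (h4 : 0 ≤ f.2) : RelAt (tm T) e f := by
  have := relAt_Q1 (T.1, T.2.1, T.1 * T.2.1 - T.2.2) hT.flip (-e.1, e.2) (-f.1, f.2)
    (by unfold IsB dz at *; simp only; rcases h with h | h
        · right; linarith
        · left; linarith) (by simpa) h2 (by simpa) h4
  unfold RelAt at this ⊢
  simp only [← tm_mirror, Prod.fst_add, Prod.snd_add, Prod.fst_sub, Prod.snd_sub, neg_neg,
    neg_add, neg_sub_neg, neg_sub] at this
  exact this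

theorem isMM_tm (T : ℝ × ℝ × ℝ) (hT : Val T.1 T.2.1 T.2.2) : IsMM (tm T) := by
  have key : ∀ e f, IsB e f → RelAt (tm T) e f := by
    intro e f h
    wlog h2 : 0 ≤ e.2 generalizing e
    · simpa using (this (-e) h.neg_left (by simp; omega)).neg_left (tm_neg T)
    wlog h4 : 0 ≤ f.2 generalizing f
    · simpa using (this (-f) h.neg_right (by simp; omega)).neg_right (tm_neg T)
    wlog h5 : f.1 ≤ e.1 generalizing e f
    · exact (this f h4 e h.swap h2 (by omega)).swap (tm_neg T)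
    by_cases h6 : 0 ≤ f.1
    · exact relAt_Q1 T hT e f h (by omega) h2 h6 h4
    by_cases h7 : e.1 ≤ 0
    · exact relAt_Q2 T hT e f h h7 h2 (by omega) h4
    by_cases h8 : e.2 = 0
    · simpa using (relAt_Q2 T hT (-e) f h.neg_left (by simp; omega) (by simp; omega) (by omega)
        h4).neg_left (tm_neg T)
    by_cases h9 : f.2 = 0
    · simpa using (relAt_Q1 T hT e (-f) h.neg_right (by omega) h2 (by simp; omega)
        (by simp; omega)).neg_right (tm_neg T)
    exfalso
    have a1 : 1 ≤ e.1 * f.2 := by nlinarith [show 1 ≤ e.1 by omega, show 1 ≤ f.2 by omega]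
    have a2 : e.2 * f.1 ≤ -1 := by nlinarith [show 1 ≤ e.2 by omega, show f.1 ≤ -1 by omega]
    unfold IsB dz at h
    omega
  exact ⟨tm_neg T, fun e f h => (key e f h).1, fun e f h => (key e f h).2⟩

theorem ind_quad (P : ℤ × ℤ → ℤ × ℤ → Prop) (hL : ∀ u v, P u v → P u (u + v))
    (hR : ∀ u v, P u v → P (u + v) v) :
    ∀ (n s t : ℕ) (e f : ℤ × ℤ), s + t ≤ n → IsCoprime (s : ℤ) t → P e f →
      ∃ u v, P u v ∧ (u = s • e + t • f ∨ v = s • e + t • f) := by
  intro n
  induction n with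
  | zero =>
    intro s t e f hn h _
    have hs : s = 0 := by omega
    have ht : t = 0 := by omega
    subst hs; subst ht
    exact absurd h (by simp [not_isCoprime_zero_zero])
  | succ n ih =>
    intro s t e f hn h hP
    by_cases hs : s = 0
    · subst hs
      have : t = 1 := by
        have := isCoprime_zero_left.1 (by simpa using h)
        rw [Int.isUnit_iff] at this
        omega
      subst this
      exact ⟨e, f, hP, Or.inr (by simp)⟩
    by_cases ht : t = 0
    · subst ht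
      have : s = 1 := by
        have := isCoprime_zero_right.1 (by simpa using h)
        rw [Int.isUnit_iff] at this
        omega
      subst this
      exact ⟨e, f, hP, Or.inl (by simp)⟩
    rcases le_total t s with hle | hle
    · obtain ⟨s', rfl⟩ := Nat.exists_eq_add_of_le hle
      obtain ⟨u, v, h1, h2⟩ := ih s' t e (e + f) (by omega) (by
        obtain ⟨a, b, hab⟩ := h
        exact ⟨a, a + b, by push_cast at hab; linarith⟩) (hL _ _ hP)
      refine ⟨u, v, h1, ?_⟩
      have : (t + s') • e + t • f = s' • e + t • (e + f) := by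
        rw [add_smul, smul_add]; abel
      rwa [this]
    · obtain ⟨t', rfl⟩ := Nat.exists_eq_add_of_le hle
      obtain ⟨u, v, h1, h2⟩ := ih s t' (e + f) f (by omega) (by
        obtain ⟨a, b, hab⟩ := h
        exact ⟨a + b, b, by push_cast at hab; linarith⟩) (hR _ _ hP)
      refine ⟨u, v, h1, ?_⟩
      have : s • e + (s + t') • f = s • (e + f) + t' • f := by
        rw [add_smul, smul_add]; abel
      rwa [this]

theorem ind_prim (P : ℤ × ℤ → ℤ × ℤ → Prop) (h1 : P (1, 0) (0, 1)) (h2 : P (-1, 0) (0, 1))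
    (hL : ∀ u v, P u v → P u (u + v)) (hR : ∀ u v, P u v → P (u + v) v)
    (w : ℤ × ℤ) (hw : Prim w) : ∃ u v, P u v ∧ (u = w ∨ v = w ∨ u = -w ∨ v = -w) := by
  wlog h : 0 ≤ w.2 generalizing w
  · obtain ⟨u, v, a, b⟩ := this (-w) hw.neg (by simp; omega)
    exact ⟨u, v, a, by simp only [neg_neg] at b; tauto⟩
  obtain ⟨p, q⟩ := w
  lift q to ℕ using h
  have hc := prim_iff.1 hw
  simp only at hc
  rcases le_total 0 p with hp | hp
  · lift p to ℕ using hp
    obtain ⟨u, v, a, b⟩ := ind_quad P hL hR _ p q _ _ le_rfl hc h1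
    refine ⟨u, v, a, ?_⟩
    simp only [Prod.smul_mk, nsmul_eq_mul, mul_one, mul_zero, Prod.mk_add_mk, add_zero,
      zero_add] at b
    tauto
  · obtain ⟨p', rfl⟩ := Int.exists_eq_neg_ofNat hp
    obtain ⟨u, v, a, b⟩ := ind_quad P hL hR _ p' q _ _ le_rfl (IsCoprime.neg_left_iff _ _ |>.1 hc) h2
    refine ⟨u, v, a, ?_⟩
    simp only [Prod.smul_mk, nsmul_eq_mul, mul_one, mul_zero, Prod.mk_add_mk, add_zero,
      zero_add, mul_neg] at b
    tauto

theorem IsMM.step_left {t : ℤ × ℤ → ℝ} (h : IsMM t) {u v : ℤ × ℤ} (hB : IsB u v) :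
    t (u + (u + v)) = t u * t (u + v) - t v := by
  have := h.rel _ _ hB.add_right
  rw [sub_add_cancel_left, h.neg] at this
  linarith

theorem IsMM.step_right {t : ℤ × ℤ → ℝ} (h : IsMM t) {u v : ℤ × ℤ} (hB : IsB u v) :
    t (u + v + v) = t (u + v) * t v - t u := by
  have := h.rel _ _ hB.add_left
  rw [add_sub_cancel_right] at this
  linarith

theorem IsMM.ext {t t' : ℤ × ℤ → ℝ} (h : IsMM t) (h' : IsMM t') (e1 : t (1, 0) = t' (1, 0))
    (e2 : t (0, 1) = t' (0, 1)) (e3 : t (1, 1) = t' (1, 1)) {w : ℤ × ℤ} (hw : Prim w) :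
    t w = t' w := by
  obtain ⟨u, v, ⟨_, a1, a2, _⟩, b⟩ := ind_prim
    (fun u v => IsB u v ∧ t u = t' u ∧ t v = t' v ∧ t (u + v) = t' (u + v))
    ⟨IsB.std, e1, e2, by simpa using e3⟩
    ⟨by simpa using IsB.std.neg_left, by
      have := h.neg (1, 0); have := h'.neg (1, 0); simp_all, e2, by
      have a1 := h.rel _ _ IsB.std.swap
      have a2 := h'.rel _ _ IsB.std.swap
      simp only [Prod.mk_add_mk, Prod.mk_sub_mk, zero_add, add_zero, zero_sub, sub_zero] at a1 a2 ⊢
      rw [e1, e2, e3] at a1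
      linarith⟩
    (fun u v ⟨a, b, c, d⟩ => ⟨a.add_right, b, d, by
      rw [h.step_left a, h'.step_left a, b, c, d]⟩)
    (fun u v ⟨a, b, c, d⟩ => ⟨a.add_left, d, c, by
      rw [h.step_right a, h'.step_right a, b, c, d]⟩) w hw
  rcases b with rfl | rfl | rfl | rfl
  · exact a1
  · exact a2
  · rwa [h.neg, h'.neg] at a1
  · rwa [h.neg, h'.neg] at a2

/-- The linear map with columns `e`, `f`. -/
def lin (e f w : ℤ × ℤ) : ℤ × ℤ := w.1 • e + w.2 • f

theorem dz_lin (e f u v : ℤ × ℤ) : dz (lin e f u) (lin e f v) = dz e f * dz u v := by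
  simp only [dz, lin, Prod.fst_add, Prod.snd_add, Prod.smul_fst, Prod.smul_snd, smul_eq_mul]
  ring

theorem IsB.lin {e f u v : ℤ × ℤ} (h : IsB e f) (h' : IsB u v) :
    IsB (lin e f u) (lin e f v) := by
  unfold IsB at *
  rw [dz_lin]
  rcases h with h | h <;> rcases h' with h' | h' <;> simp [h, h']

theorem IsMM.comp {t : ℤ × ℤ → ℝ} (h : IsMM t) {e f : ℤ × ℤ} (hB : IsB e f) :
    IsMM fun w => t (lin e f w) := by
  have a1 : ∀ u v, lin e f (u + v) = lin e f u + lin e f v := by
    intro u v; simp only [lin, Prod.fst_add, Prod.snd_add, add_smul]; abel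
  have a2 : ∀ u v, lin e f (u - v) = lin e f u - lin e f v := by
    intro u v; simp only [lin, Prod.fst_sub, Prod.snd_sub, sub_smul]; abel
  have a3 : ∀ u, lin e f (-u) = -lin e f u := by
    intro u; simp only [lin, Prod.fst_neg, Prod.snd_neg, neg_smul]; abel
  refine ⟨fun v => by rw [a3, h.neg], fun u v huv => ?_, fun u v huv => ?_⟩
  · rw [a1]; exact h.val _ _ (hB.lin huv)
  · rw [a1, a2]; exact h.rel _ _ (hB.lin huv)

theorem lin_e1 (e f : ℤ × ℤ) : lin e f (1, 0) = e := by simp [lin]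
theorem lin_e2 (e f : ℤ × ℤ) : lin e f (0, 1) = f := by simp [lin]

theorem exists_lin_inv {e f : ℤ × ℤ} (h : IsB e f) :
    ∃ e' f', IsB e' f' ∧ (∀ w, lin e f (lin e' f' w) = w) ∧ ∀ w, lin e' f' (lin e f w) = w := by
  obtain ⟨a, c⟩ := e
  obtain ⟨b, d⟩ := f
  rcases h with h | h
  · simp only [dz] at h
    refine ⟨(d, -c), (-b, a), Or.inl (by simp only [dz]; linarith), fun w => ?_, fun w => ?_⟩
    · ext <;> simp [lin]
      · linear_combination w.1 * h
      · linear_combination w.2 * h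
    · ext <;> simp [lin]
      · linear_combination w.1 * h
      · linear_combination w.2 * h
  · simp only [dz] at h
    refine ⟨(-d, c), (b, -a), Or.inr (by simp only [dz]; linarith), fun w => ?_, fun w => ?_⟩
    · ext <;> simp [lin]
      · linear_combination -w.1 * h
      · linear_combination -w.2 * h
    · ext <;> simp [lin]
      · linear_combination -w.1 * h
      · linear_combination -w.2 * h

end Pool.Agent.Work.MP_35beee_gt
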