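import Pool.Agent.Work.MP_35beee_gt.Defs

/-! Nielsen's theorem in rank two, as an induction principle for generating pairs. -/

namespace Pool.Agent.Work.MP_35beee_gt

open FreeGroup

section lcp
variable {β : Type} [DecidableEq β]

/-- Length of the longest common initial segment. -/
def lcp : List β → List β → ℕ
  | a :: l, b :: m => if a = b then lcp l m + 1 else 0
  | _, _ => 0

@[simp] theorem lcp_nil_left (m : List β) : lcp [] m = 0 := by cases m <;> rfl
@[simp] theorem lcp_nil_right (m : List β) : lcp m [] = 0 := by cases m <;> rfl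
theorem lcp_cons (a b : β) (l m : List β) :
    lcp (a :: l) (b :: m) = if a = b then lcp l m + 1 else 0 := rfl

theorem lcp_ultra : ∀ l m n : List β, min (lcp l m) (lcp m n) ≤ lcp l n
  | [], _, _ => by simp
  | _ :: _, [], _ => by simp
  | _ :: _, _ :: _, [] => by simp
  | a :: l, b :: m, c :: n => by
    have := lcp_ultra l m n
    rw [lcp_cons, lcp_cons, lcp_cons]
    by_cases h1 : a = b
    · by_cases h2 : b = c
      · subst h1; subst h2; simp only [if_true]; omega
      · simp [h2]
    · simp [h1]

theorem lcp_take : ∀ (l : List β) (k : ℕ), k ≤ l.length → lcp (l.take k) l = k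
  | _, 0, _ => by simp
  | [], k + 1, h => by simp at h
  | a :: l, k + 1, h => by
    rw [List.take_succ_cons, lcp_cons, if_pos rfl, lcp_take l k (by simpa using h)]

theorem lcp_getElem? : ∀ (l m : List β) (i : ℕ), i < lcp l m → l[i]? = m[i]?
  | [], _, _, h => by simp at h
  | _ :: _, [], _, h => by simp at h
  | a :: l, b :: m, i, h => by
    rw [lcp_cons] at h
    by_cases h1 : a = b
    · rw [if_pos h1] at h
      cases i with
      | zero => simp [h1]
      | succ i => simpa using lcp_getElem? l m i (by omega)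
    · rw [if_neg h1] at h; omega

end lcp

theorem norm_invRev_append : ∀ L M : List (Fin 2 × Bool), IsReduced L → IsReduced M →
    (FreeGroup.mk (invRev L ++ M)).norm + 2 * lcp L M = L.length + M.length
  | [], M, _, hM => by
    simp [FreeGroup.norm, hM.reduce_eq]
  | a :: L, [], hL, _ => by
    have : FreeGroup.mk (invRev (a :: L) ++ []) = (FreeGroup.mk (a :: L))⁻¹ := by
      rw [List.append_nil, inv_mk]
    rw [this, norm_inv_eq]
    simp only [FreeGroup.norm, toWord_mk, hL.reduce_eq]
    simp
  | a :: L, b :: M, hL, hM => by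
    by_cases h : a = b
    · subst h
      have h1 := norm_invRev_append L M (List.IsChain.tail hL) (List.IsChain.tail hM)
      have h2 : FreeGroup.mk (invRev (a :: L) ++ a :: M) = FreeGroup.mk (invRev L ++ M) := by
        have e1 : FreeGroup.mk (a :: L) = FreeGroup.mk [a] * FreeGroup.mk L := by
          rw [mul_mk]; rfl
        have e2 : FreeGroup.mk (a :: M) = FreeGroup.mk [a] * FreeGroup.mk M := by
          rw [mul_mk]; rfl
        rw [← mul_mk, ← mul_mk, ← inv_mk, ← inv_mk, e1, e2]
        group
      rw [h2, lcp_cons, if_pos rfl]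
      simp only [List.length_cons]
      omega
    · have hr : IsReduced (invRev (a :: L) ++ b :: M) := by
        have h1 : IsReduced (invRev (a :: L)) := by
          rw [isReduced_iff_reduce_eq, reduce_invRev, hL.reduce_eq]
        have h3 : invRev (a :: L) = invRev L ++ [(a.1, !a.2)] := by
          simp [invRev]
        have h4 : IsReduced ([(a.1, !a.2)] ++ b :: M) := by
          change IsReduced ((a.1, !a.2) :: b :: M)
          rw [isReduced_cons_cons]
          refine ⟨fun h5 => ?_, hM⟩
          by_contra h6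
          apply h
          obtain ⟨a1, a2⟩ := a
          obtain ⟨b1, b2⟩ := b
          simp only at h5 h6
          subst h5
          cases a2 <;> cases b2 <;> simp_all
        rw [h3] at h1 ⊢
        exact IsReduced.append_overlap h1 h4 (by simp)
      rw [lcp_cons, if_neg h]
      simp only [FreeGroup.norm, toWord_mk, hr.reduce_eq]
      simp [invRev]
      omega

/-- Gromov product at the identity. -/
def gp (x y : F) : ℕ := lcp x.toWord y.toWord

theorem norm_gp (x y : F) : (x⁻¹ * y).norm + 2 * gp x y = x.norm + y.norm := by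
  have := norm_invRev_append x.toWord y.toWord isReduced_toWord isReduced_toWord
  rw [← mul_mk, ← inv_mk, mk_toWord, mk_toWord] at this
  exact this

theorem gp_ultra (x y z : F) : min (gp x y) (gp y z) ≤ gp x z := lcp_ultra _ _ _

theorem gp_comm (x y : F) : gp x y = gp y x := by
  have h1 := norm_gp x y
  have h2 := norm_gp y x
  have h3 : (y⁻¹ * x).norm = (x⁻¹ * y).norm := by
    rw [← norm_inv_eq]; simp
  omega

theorem gp_le_left (x y : F) : gp x y ≤ x.norm := by
  have h1 := norm_gp x y
  have h2 := norm_mul_le x (x⁻¹ * y)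
  rw [mul_inv_cancel_left] at h2
  omega

theorem gp_self (x : F) : gp x x = x.norm := by
  have h1 := norm_gp x x
  simp at h1
  omega

theorem exists_initial (x : F) (k : ℕ) (hk : k ≤ x.norm) : ∃ p : F, p.norm = k ∧ gp p x = k := by
  have hr : IsReduced (x.toWord.take k) :=
    List.IsChain.take (isReduced_toWord (x := x)) k
  refine ⟨FreeGroup.mk (x.toWord.take k), ?_, ?_⟩
  · simp only [FreeGroup.norm, toWord_mk, hr.reduce_eq, List.length_take]
    exact min_eq_left hk
  · simp only [gp, toWord_mk, hr.reduce_eq]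
    exact lcp_take _ _ hk

theorem gp_inv_self (x : F) (hx : x ≠ 1) : 2 * gp x⁻¹ x < x.norm := by
  by_contra h
  push Not at h
  have hn : x.norm ≠ 0 := fun h0 => hx (norm_eq_zero.1 h0)
  set L := x.toWord with hL
  have hlen : L.length = x.norm := rfl
  have hred : IsReduced L := isReduced_toWord
  have key : ∀ i, i < gp x⁻¹ x → ∀ (h1 : i < L.length) (h2 : L.length - 1 - i < L.length),
      L[i] = (L[L.length - 1 - i].1, !L[L.length - 1 - i].2) := by
    intro i hi h1 h2
    have := lcp_getElem? _ _ i hi
    rw [toWord_inv, ← hL, invRev, List.getElem?_reverse (by simpa using h1)] at this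
    simp only [List.length_map, List.getElem?_map] at this
    rw [List.getElem?_eq_getElem h1, List.getElem?_eq_getElem h2] at this
    simpa using this.symm
  rcases Nat.even_or_odd' L.length with ⟨j, hj | hj⟩
  · have h1 := key (j - 1) (by omega) (by omega) (by omega)
    have h2 := List.isChain_iff_getElem.1 hred (j - 1) (by omega)
    have h3 : L.length - 1 - (j - 1) = j - 1 + 1 := by omega
    simp only [h3] at h1
    rw [h1] at h2
    simp at h2
  · have h1 := key j (by omega) (by omega) (by omega)
    have h3 : L.length - 1 - j = j := by omega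
    simp only [h3] at h1
    have := congrArg Prod.snd h1
    simp at this

/-- Reduced products of elements of a symmetric set, with given first factor. -/
inductive RW (S : Set F) : F → F → Prop
  | base (x : F) (hx : x ∈ S) : RW S x x
  | step (x y w : F) (hx : x ∈ S) (hxy : x⁻¹ ≠ y) (h : RW S y w) : RW S x (x * w)

theorem RW.mem {S : Set F} {x w : F} (h : RW S x w) : x ∈ S := by
  cases h <;> assumption

theorem RW.mul {S : Set F} {x w : F} (hx : x ∈ S) (h : w = 1 ∨ ∃ y, RW S y w) :
    x * w = 1 ∨ ∃ y, RW S y (x * w) := by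
  rcases h with rfl | ⟨y, h⟩
  · exact Or.inr ⟨x, by simpa using RW.base x hx⟩
  · by_cases hxy : x⁻¹ = y
    · cases h with
      | base _ => left; rw [← hxy]; simp
      | step _ y' w' _ _ h' => right; exact ⟨y', by rw [← hxy]; simpa using h'⟩
    · exact Or.inr ⟨x, RW.step x y w hx hxy h⟩

theorem RW.gp_lt {S : Set F} (hS : ∀ x ∈ S, x⁻¹ ∈ S) (h1 : ∀ x ∈ S, x ≠ 1)
    (H : ∀ y ∈ S, ∀ x ∈ S, ∀ x' ∈ S, x ≠ y → x' ≠ y⁻¹ → gp x y + gp x' y⁻¹ < y.norm)
    {y w : F} (h : RW S y w) :
    (∀ x ∈ S, x ≠ y → gp x y < gp w y) ∧ (w.norm = 1 → w = y) := by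
  induction h with
  | base y hy =>
    refine ⟨fun x hx hxy => ?_, fun _ => rfl⟩
    have hne : y ≠ y⁻¹ := by
      intro h
      have := gp_inv_self y (h1 y hy)
      rw [← h, gp_self] at this
      omega
    have := H y hy x hx y hy hxy hne
    rw [gp_self]; omega
  | step x y w hx hxy h ih =>
    have hy := h.mem
    have e1 := ih.1 x⁻¹ (hS x hx) hxy
    have u1 := gp_ultra x⁻¹ y w
    have u2 := gp_ultra x⁻¹ w y
    rw [gp_comm y w] at u1
    have e2 : gp x⁻¹ w = gp x⁻¹ y := by omega
    have n1 := norm_gp x⁻¹ w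
    have n2 := norm_gp x (x * w)
    rw [inv_inv, norm_inv_eq] at n1
    rw [inv_mul_cancel_left, gp_comm] at n2
    have hne : x⁻¹ ≠ x := by
      intro h
      have := gp_inv_self x (h1 x hx)
      rw [h, gp_self] at this
      omega
    refine ⟨fun x' hx' hxx => ?_, fun hn => ?_⟩
    · have := H x hx x' hx' y hy hxx (Ne.symm hxy)
      rw [gp_comm y] at this
      omega
    · have := H x hx x⁻¹ (hS x hx) y hy hne (Ne.symm hxy)
      rw [gp_comm y] at this
      have := gp_le_left w y
      omega

theorem not_comm : (FreeGroup.of 0 : F) * FreeGroup.of 1 ≠ FreeGroup.of 1 * FreeGroup.of 0 := by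
  decide

theorem ne_one_of_gen {u v : F} (h : Subgroup.closure ({u, v} : Set F) = ⊤) : v ≠ 1 := by
  rintro rfl
  have hle : Subgroup.closure ({u, 1} : Set F) ≤ Subgroup.zpowers u := by
    rw [Subgroup.closure_le]
    rintro x (rfl | rfl)
    · exact Subgroup.mem_zpowers _
    · exact Subgroup.one_mem _
  rw [h] at hle
  obtain ⟨m, hm⟩ := hle (Subgroup.mem_top (FreeGroup.of 0))
  obtain ⟨n, hn⟩ := hle (Subgroup.mem_top (FreeGroup.of 1))
  apply not_comm
  simp only at hm hn
  rw [← hm, ← hn, ← zpow_add, ← zpow_add, add_comm]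

theorem gen_of {u v u' v' : F} (h : Subgroup.closure ({u, v} : Set F) = ⊤)
    (hu : u ∈ Subgroup.closure ({u', v'} : Set F))
    (hv : v ∈ Subgroup.closure ({u', v'} : Set F)) :
    Subgroup.closure ({u', v'} : Set F) = ⊤ := by
  rw [eq_top_iff, ← h, Subgroup.closure_le]
  rintro x (rfl | rfl)
  · exact hu
  · exact hv

theorem mem_cl_left (u v : F) : u ∈ Subgroup.closure ({u, v} : Set F) :=
  Subgroup.subset_closure (by simp)
theorem mem_cl_right (u v : F) : v ∈ Subgroup.closure ({u, v} : Set F) :=
  Subgroup.subset_closure (by simp)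

theorem gen_swap {u v : F} (h : Subgroup.closure ({u, v} : Set F) = ⊤) :
    Subgroup.closure ({v, u} : Set F) = ⊤ := gen_of h (mem_cl_right _ _) (mem_cl_left _ _)

theorem gen_inv {u v : F} (h : Subgroup.closure ({u, v} : Set F) = ⊤) :
    Subgroup.closure ({u⁻¹, v} : Set F) = ⊤ :=
  gen_of h (by simpa using Subgroup.inv_mem _ (mem_cl_left u⁻¹ v)) (mem_cl_right _ _)

theorem gen_mul {u v : F} (h : Subgroup.closure ({u, v} : Set F) = ⊤) :
    Subgroup.closure ({u * v, v} : Set F) = ⊤ :=
  gen_of h (by
    simpa using Subgroup.mul_mem _ (mem_cl_left (u * v) v)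
      (Subgroup.inv_mem _ (mem_cl_right (u * v) v))) (mem_cl_right _ _)

theorem gen_conj {u v : F} (g : F) (h : Subgroup.closure ({u, v} : Set F) = ⊤) :
    Subgroup.closure ({g * u * g⁻¹, g * v * g⁻¹} : Set F) = ⊤ := by
  have := congrArg (Subgroup.map (MulAut.conj g).toMonoidHom) h
  rw [MonoidHom.map_closure, Subgroup.map_top_of_surjective _ (MulAut.conj g).surjective] at this
  simpa [Set.image_pair] using this

theorem gen_base : Subgroup.closure ({FreeGroup.of 0, FreeGroup.of 1} : Set F) = ⊤ := by
  rw [← FreeGroup.closure_range_of (Fin 2)]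
  congr 1
  ext x
  simp [Fin.exists_fin_two, eq_comm]

theorem pm_same {u x y : F} (hx : x = u ∨ x = u⁻¹) (hy : y = u ∨ y = u⁻¹) : x = y ∨ x = y⁻¹ := by
  rcases hx with rfl | rfl <;> rcases hy with rfl | rfl <;> simp

theorem pm_inv {u x : F} (hx : x = u ∨ x = u⁻¹) : x⁻¹ = u ∨ x⁻¹ = u⁻¹ := by
  rcases hx with rfl | rfl <;> simp

theorem gen_induction (P : F → F → Prop) (base : P (FreeGroup.of 0) (FreeGroup.of 1))
    (swap : ∀ u v, P u v → P v u) (inv : ∀ u v, P u v → P u⁻¹ v)
    (mul : ∀ u v, P u v → P (u * v) v)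
    (conj : ∀ u v g, P u v → P (g * u * g⁻¹) (g * v * g⁻¹)) :
    ∀ u v, Subgroup.closure ({u, v} : Set F) = ⊤ → P u v := by
  have inv2 : ∀ u v, P u v → P u v⁻¹ := fun u v h => swap _ _ (inv _ _ (swap _ _ h))
  -- invariance under all sign changes and swaps
  have main : ∀ n : ℕ, ∀ u v, u.norm + v.norm ≤ n →
      Subgroup.closure ({u, v} : Set F) = ⊤ → P u v := by
    intro n
    induction n with
    | zero =>
      intro u v hn h
      exact absurd (FreeGroup.norm_eq_zero.1 (by omega)) (ne_one_of_gen h)
    | succ n ih =>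
      -- first reduction
      have red1 : ∀ u v, u.norm + v.norm ≤ n + 1 → Subgroup.closure ({u, v} : Set F) = ⊤ →
          v.norm < 2 * gp v u → P u v := by
        intro u v hn h hlt
        have n1 := norm_gp v u
        have g1 : Subgroup.closure ({v⁻¹ * u, v} : Set F) = ⊤ := by
          have := gen_conj v⁻¹ (gen_swap (gen_inv (gen_swap (gen_mul (gen_swap (gen_inv
            (gen_swap h)))))))
          simpa [mul_assoc] using this
        have p1 := ih _ _ (by omega) g1
        have p2 := conj _ _ v (mul _ _ p1)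
        simpa [mul_assoc] using p2
      -- second reduction
      have red2 : ∀ x y, x.norm + y.norm ≤ n + 1 → Subgroup.closure ({x, y} : Set F) = ⊤ →
          2 * gp x y = y.norm → 2 * gp x⁻¹ y⁻¹ = y.norm → y.norm ≤ x.norm → P x y := by
        intro x y hn h e1 e2 hle
        have hy : y.norm ≠ 0 := fun h0 => ne_one_of_gen h (FreeGroup.norm_eq_zero.1 h0)
        obtain ⟨p, hp1, hp2⟩ := exists_initial y (gp x y) (by omega)
        have n1 := norm_gp p y
        have u1 := gp_ultra p y x
        rw [gp_comm y x] at u1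
        have l1 := gp_le_left p x
        have n2 := norm_gp p x
        have n3 := norm_gp (p⁻¹ * y)⁻¹ y⁻¹
        rw [inv_inv, mul_inv_cancel_right, norm_inv_eq, norm_inv_eq, norm_inv_eq] at n3
        have u2 := gp_ultra (p⁻¹ * y)⁻¹ y⁻¹ x⁻¹
        rw [gp_comm y⁻¹ x⁻¹] at u2
        have n4 := norm_gp x⁻¹ (x⁻¹ * p)
        have e3 : (x⁻¹ * p).norm = (p⁻¹ * x).norm := by rw [← norm_inv_eq]; simp
        rw [inv_inv, mul_inv_cancel_left, norm_inv_eq] at n4
        have u3 := gp_ultra (p⁻¹ * y)⁻¹ x⁻¹ (x⁻¹ * p)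
        have n5 := norm_gp (p⁻¹ * y)⁻¹ (x⁻¹ * p)
        rw [inv_inv, norm_inv_eq] at n5
        have n6 := norm_mul_le (p⁻¹ * y) p
        have g1 : Subgroup.closure ({p⁻¹ * y * (x⁻¹ * p), p⁻¹ * y * p} : Set F) = ⊤ := by
          have := gen_conj p⁻¹ (gen_swap (gen_inv (gen_swap (gen_inv (gen_mul (gen_swap (gen_inv
            (gen_swap h))))))))
          simpa [mul_assoc] using this
        have p1 := ih _ _ (by omega) g1
        have p2 := mul _ _ (inv _ _ (conj _ _ p p1))
        simpa [mul_assoc] using p2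
      intro u v hn h
      by_contra hP
      have hv1 := ne_one_of_gen h
      have hu1 := ne_one_of_gen (gen_swap h)
      -- all signed versions
      have sgn : ∀ x y, (x = u ∨ x = u⁻¹) → (y = v ∨ y = v⁻¹) →
          x.norm + y.norm ≤ n + 1 ∧ Subgroup.closure ({x, y} : Set F) = ⊤ ∧ ¬ P x y := by
        rintro x y (rfl | rfl) (rfl | rfl)
        · exact ⟨hn, h, hP⟩
        · exact ⟨by simpa using hn, gen_swap (gen_inv (gen_swap h)),
            fun h' => hP (by simpa using inv2 _ _ h')⟩
        · exact ⟨by simpa using hn, gen_inv h, fun h' => hP (by simpa using inv _ _ h')⟩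
        · exact ⟨by simpa using hn, gen_inv (gen_swap (gen_inv (gen_swap h))),
            fun h' => hP (by simpa using inv _ _ (inv2 _ _ h'))⟩
      have cross : ∀ x y, ((x = u ∨ x = u⁻¹) ∧ (y = v ∨ y = v⁻¹)) ∨
          ((y = u ∨ y = u⁻¹) ∧ (x = v ∨ x = v⁻¹)) →
          x.norm + y.norm ≤ n + 1 ∧ Subgroup.closure ({x, y} : Set F) = ⊤ ∧ ¬ P x y := by
        rintro x y (⟨h1, h2⟩ | ⟨h1, h2⟩)
        · exact sgn x y h1 h2
        · obtain ⟨a1, a2, a3⟩ := sgn y x h1 h2
          exact ⟨by omega, gen_swap a2, fun h' => a3 (swap _ _ h')⟩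
      let S : Set F := {x | x = u ∨ x = u⁻¹ ∨ x = v ∨ x = v⁻¹}
      have hS : ∀ x ∈ S, x⁻¹ ∈ S := by
        rintro x (rfl | rfl | rfl | rfl) <;> simp [S]
      have h1 : ∀ x ∈ S, x ≠ 1 := by
        rintro x (rfl | rfl | rfl | rfl) <;> simpa
      have dich : ∀ y ∈ S, ∀ x ∈ S, x ≠ y → x = y⁻¹ ∨
          (((x = u ∨ x = u⁻¹) ∧ (y = v ∨ y = v⁻¹)) ∨ ((y = u ∨ y = u⁻¹) ∧ (x = v ∨ x = v⁻¹))) := by
        intro y hy x hx hxy
        have hy' : (y = u ∨ y = u⁻¹) ∨ (y = v ∨ y = v⁻¹) := or_assoc.2 hy
        have hx' : (x = u ∨ x = u⁻¹) ∨ (x = v ∨ x = v⁻¹) := or_assoc.2 hx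
        rcases hy' with hy' | hy' <;> rcases hx' with hx' | hx'
        · exact Or.inl ((pm_same hx' hy').resolve_left hxy)
        · exact Or.inr (Or.inr ⟨hy', hx'⟩)
        · exact Or.inr (Or.inl ⟨hx', hy'⟩)
        · exact Or.inl ((pm_same hx' hy').resolve_left hxy)
      have N1 : ∀ x y, x.norm + y.norm ≤ n + 1 → Subgroup.closure ({x, y} : Set F) = ⊤ →
          ¬ P x y → 2 * gp x y ≤ y.norm ∧ 2 * gp x y ≤ x.norm := by
        intro x y a1 a2 a3
        constructor
        · by_contra hc
          exact a3 (red1 x y a1 a2 (by rw [gp_comm]; omega))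
        · by_contra hc
          exact a3 (swap _ _ (red1 y x (by omega) (gen_swap a2) (by omega)))
      have H : ∀ y ∈ S, ∀ x ∈ S, ∀ x' ∈ S, x ≠ y → x' ≠ y⁻¹ →
          gp x y + gp x' y⁻¹ < y.norm := by
        intro y hy x hx x' hx' hxy hxy'
        have s1 := gp_inv_self y (h1 y hy)
        have s2 := s1
        rw [gp_comm] at s2
        rcases dich y hy x hx hxy with rfl | d1
        · rcases dich y⁻¹ (hS y hy) x' hx' hxy' with h' | d2
          · rw [h', inv_inv]; omega
          · obtain ⟨a1, a2, a3⟩ := cross _ _ d2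
            have := (N1 _ _ a1 a2 a3).1
            rw [norm_inv_eq] at this
            omega
        · obtain ⟨a1, a2, a3⟩ := cross _ _ d1
          have b1 := N1 _ _ a1 a2 a3
          rcases dich y⁻¹ (hS y hy) x' hx' hxy' with h' | d2
          · rw [h', inv_inv]; omega
          · obtain ⟨c1, c2, c3⟩ := cross _ _ d2
            have b2 := (N1 _ _ c1 c2 c3).1
            rw [norm_inv_eq] at b2
            by_contra hc
            have e1 : 2 * gp x y = y.norm := by omega
            have e2 : 2 * gp x' y⁻¹ = y.norm := by omega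
            by_cases hxx : x' = x
            · rw [hxx] at e2
              have := gp_ultra y⁻¹ x y
              rw [gp_comm y⁻¹ x] at this
              omega
            · have hx2 : x' = x⁻¹ := by
                have hne : ∀ z : F, Subgroup.closure ({z, z} : Set F) ≠ ⊤ := by
                  intro z hz
                  have := gen_mul (gen_inv hz)
                  rw [inv_mul_cancel] at this
                  exact ne_one_of_gen (gen_swap this) rfl
                have hne2 : ∀ z, (z = u ∨ z = u⁻¹) → ¬ (z = v ∨ z = v⁻¹) :=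
                  fun z z1 z2 => hne z (sgn z z z1 z2).2.1
                rcases d1 with ⟨d1, d1'⟩ | ⟨d1, d1'⟩ <;> rcases d2 with ⟨d2, d2'⟩ | ⟨d2, d2'⟩
                · exact (pm_same d2 d1).resolve_left hxx
                · exact absurd (pm_inv d1') (hne2 _ d2)
                · exact absurd d2' (hne2 _ (pm_inv d1))
                · exact (pm_same d2' d1').resolve_left hxx
              rw [hx2] at e2
              exact a3 (red2 x y a1 a2 e1 e2 (by omega))
      have allw : ∀ w : F, w = 1 ∨ ∃ y, RW S y w := by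
        intro w
        have hw : w ∈ Subgroup.closure ({u, v} : Set F) := by rw [h]; trivial
        induction hw using Subgroup.closure_induction_left with
        | one => exact Or.inl rfl
        | mul_left x hx w _ ihw =>
          exact RW.mul (by rcases hx with rfl | rfl <;> simp [S]) ihw
        | inv_mul_cancel x hx w _ ihw =>
          exact RW.mul (by rcases hx with rfl | rfl <;> simp [S]) ihw
      have hgen : ∀ i : Fin 2, FreeGroup.of i ∈ S := by
        intro i
        rcases allw (FreeGroup.of i) with h0 | ⟨y, hy⟩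
        · exact absurd h0 (of_ne_one i)
        · rw [(RW.gp_lt hS h1 H hy).2 (norm_of i)]
          exact hy.mem
      have hab : (FreeGroup.of 0 : F) ≠ FreeGroup.of 1 := by decide
      have hab' : (FreeGroup.of 0 : F) ≠ (FreeGroup.of 1)⁻¹ := by decide
      rcases dich _ (hgen 1) _ (hgen 0) hab with h' | d
      · exact hab' h'
      · exact (cross _ _ d).2.2 base
  exact fun u v h => main _ u v le_rfl h

end Pool.Agent.Work.MP_35beee_gt
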