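import Pool.Agent.Work.MP_35beee_gt.Markov

/-! The norm on the plane attached to a Markov map. -/

namespace Pool.Agent.Work.MP_35beee_gt

open Real

/-- Length attached to a trace. -/
noncomputable def Lg (t : ℤ × ℤ → ℝ) (w : ℤ × ℤ) : ℝ := 2 * arcosh (t w / 2)

theorem le_arcosh_of_cosh_le {s r : ℝ} (h : 2 * cosh s ≤ r) : |2 * s| ≤ 2 * arcosh (r / 2) := by
  have h1 : arcosh (cosh |s|) ≤ arcosh (r / 2) := by
    rw [arcosh_le_arcosh (cosh_pos _) (by linarith [cosh_pos s]), cosh_abs]; linarith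
  rw [arcosh_cosh (abs_nonneg s)] at h1
  rw [abs_mul]; norm_num; exact h1

theorem IsMM.two_lt {t : ℤ × ℤ → ℝ} (h : IsMM t) {w : ℤ × ℤ} (hw : Prim w) : 2 < t w :=
  let ⟨v, hv⟩ := hw; (h.val w v hv).1

theorem IsMM.Lg_pos {t : ℤ × ℤ → ℝ} (h : IsMM t) {w : ℤ × ℤ} (hw : Prim w) : 0 < Lg t w := by
  have := arcosh_pos (x := t w / 2) (by linarith [h.two_lt hw])
  unfold Lg; linarith

theorem IsMM.Lg_le {t : ℤ × ℤ → ℝ} (h : IsMM t) {w : ℤ × ℤ} (hw : Prim w) {r : ℝ}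
    (hr : t w ≤ r) : Lg t w ≤ 2 * arcosh (r / 2) := by
  have := h.two_lt hw
  have := (arcosh_le_arcosh (x := t w / 2) (y := r / 2) (by linarith) (by linarith)).2
    (by linarith)
  unfold Lg; linarith

theorem IsMM.le_Lg {t : ℤ × ℤ → ℝ} (h : IsMM t) {w : ℤ × ℤ} (hw : Prim w) {r : ℝ} (h0 : 0 < r)
    (hr : r ≤ t w) : 2 * arcosh (r / 2) ≤ Lg t w := by
  have := h.two_lt hw
  have := (arcosh_le_arcosh (y := t w / 2) (x := r / 2) (by linarith) (by linarith)).2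
    (by linarith)
  unfold Lg; linarith

theorem IsMM.cosh_Lg {t : ℤ × ℤ → ℝ} (h : IsMM t) {w : ℤ × ℤ} (hw : Prim w) :
    2 * cosh (Lg t w / 2) = t w := by
  have := h.two_lt hw
  unfold Lg
  rw [mul_div_cancel_left₀ _ two_ne_zero, cosh_arcosh (by linarith)]; ring

theorem trace_mul_mul_left (U V : Matrix (Fin 2) (Fin 2) ℝ) (h : U.det = 1) :
    (U * (U * V)).trace = U.trace * (U * V).trace - V.trace := by
  rw [Matrix.det_fin_two] at h
  simp only [Matrix.trace_fin_two, Matrix.mul_apply, Fin.sum_univ_two]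
  linear_combination (-(V 0 0) - V 1 1) * h

theorem trace_mul_mul_right (U V : Matrix (Fin 2) (Fin 2) ℝ) (h : V.det = 1) :
    (U * V * V).trace = (U * V).trace * V.trace - U.trace := by
  rw [Matrix.det_fin_two] at h
  simp only [Matrix.trace_fin_two, Matrix.mul_apply, Fin.sum_univ_two]
  linear_combination (-(U 0 0) - U 1 1) * h

theorem IsMM.supp0 {t : ℤ × ℤ → ℝ} (h : IsMM t) : ∃ τ κ : ℝ, 0 < κ ∧ ∀ w, Prim w →
    |w.1 * Lg t (1, 0) + w.2 * τ| ≤ Lg t w ∧ |2 * κ * w.2| ≤ Lg t w := by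
  obtain ⟨hx, hy, hz, hm⟩ := h.val _ _ IsB.std
  have hr := h.rel _ _ IsB.std.swap
  simp only [Prod.mk_add_mk, Prod.mk_sub_mk, zero_add, add_zero, zero_sub, sub_zero] at hz hm hr
  set x := t (1, 0) with hxd
  set y := t (0, 1) with hyd
  set z := t (1, 1) with hzd
  set α := Lg t (1, 0) with hα
  have hα0 : 0 < α := h.Lg_pos IsB.std.prim_left
  set l := exp (α / 2) with hl
  set m := exp (-(α / 2)) with hmd
  have hlm : l * m = 1 := by rw [hl, hmd, ← exp_add]; simp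
  have hsum : l + m = x := by
    have := h.cosh_Lg IsB.std.prim_left
    rw [cosh_eq] at this; linarith
  have hl1 : 1 < l := one_lt_exp_iff.2 (by linarith)
  have hm0 : 0 < m := exp_pos _
  have hm1 : m < 1 := by nlinarith
  have hD : 0 < l - m := by linarith
  set b1 := (z - y * m) / (l - m) with hb1
  set b2 := (l * y - z) / (l - m) with hb2
  have s1 : b1 + b2 = y := by rw [hb1, hb2]; field_simp; ring
  have s2 : l * b1 + m * b2 = z := by rw [hb1, hb2]; field_simp; linear_combination 0 * hlm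
  have s3 : m * b1 + l * b2 = t (-1, 1) := by
    have : m * b1 + l * b2 = (l + m) * (b1 + b2) - (l * b1 + m * b2) := by ring
    rw [this, s1, s2, hsum]; linarith
  have s4 : b1 * b2 * (l - m) ^ 2 = x ^ 2 := by
    rw [hb1, hb2]; field_simp
    linear_combination (-1) * hm + (y * z) * hsum - y ^ 2 * hlm
  have s5 : (l - m) ^ 2 = x ^ 2 - 4 := by rw [← hsum]; linear_combination (-4) * hlm
  have s6 : 1 < b1 * b2 := by
    by_contra hc
    push Not at hc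
    nlinarith [sq_pos_of_pos hD]
  have p1 : 0 < b1 := by
    by_contra hc
    push Not at hc
    nlinarith
  have p2 : 0 < b2 := by
    by_contra hc
    push Not at hc
    nlinarith
  set c := √(b1 * b2 - 1) with hc
  have hc2 : c * c = b1 * b2 - 1 := mul_self_sqrt (by linarith)
  have hc0 : 0 ≤ c := sqrt_nonneg _
  let φ1 : ℤ × ℤ → ℝ := fun w => w.1 * (α / 2) + w.2 * log b1
  let φ2 : ℤ × ℤ → ℝ := fun w => -(w.1 * (α / 2)) + w.2 * log b2
  let G : Matrix (Fin 2) (Fin 2) ℝ → ℤ × ℤ → Prop := fun U u =>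
    U.det = 1 ∧ (∀ i j, 0 ≤ U i j) ∧ U.trace = t u ∧ 0 ≤ u.2 ∧ exp (φ1 u) ≤ U 0 0 ∧
      exp (φ2 u) ≤ U 1 1
  have Gmul : ∀ U V u v, G U u → G V v → (U * V).trace = t (u + v) → G (U * V) (u + v) := by
    rintro U V u v ⟨a1, a2, a3, a4, a5, a6⟩ ⟨c1, c2, c3, c4, c5, c6⟩ htr
    refine ⟨by rw [Matrix.det_mul, a1, c1, one_mul], fun i j => ?_, htr, by
      simp only [Prod.snd_add]; omega, ?_, ?_⟩
    · rw [Matrix.mul_apply]
      exact Finset.sum_nonneg fun k _ => mul_nonneg (a2 _ _) (c2 _ _)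
    · have : φ1 (u + v) = φ1 u + φ1 v := by simp only [φ1, Prod.fst_add, Prod.snd_add]; push_cast; ring
      rw [this, exp_add, Matrix.mul_apply, Fin.sum_univ_two]
      have := mul_le_mul a5 c5 (exp_pos _).le (a2 _ _)
      linarith [mul_nonneg (a2 0 1) (c2 1 0)]
    · have : φ2 (u + v) = φ2 u + φ2 v := by simp only [φ2, Prod.fst_add, Prod.snd_add]; push_cast; ring
      rw [this, exp_add, Matrix.mul_apply, Fin.sum_univ_two]
      have := mul_le_mul a6 c6 (exp_pos _).le (a2 _ _)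
      linarith [mul_nonneg (a2 1 0) (c2 0 1)]
  have GB : G !![b1, c; c, b2] (0, 1) := by
    refine ⟨by rw [Matrix.det_fin_two]; simp; linarith, fun i j => ?_, by simp [s1, hyd], by simp,
      by simp [φ1, exp_log p1], by simp [φ2, exp_log p2]⟩
    fin_cases i <;> fin_cases j <;> simp [p1.le, p2.le, hc0]
  have key : ∀ w, Prim w → ∃ w', (w' = w ∨ w' = -w) ∧ 0 ≤ w'.2 ∧
      exp (φ1 w') + exp (φ2 w') ≤ t w' := by
    intro w hw
    obtain ⟨u, v, ⟨_, U, V, gU, gV, _⟩, b⟩ := ind_prim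
      (fun u v => IsB u v ∧ ∃ U V, G U u ∧ G V v ∧ (U * V).trace = t (u + v))
      ⟨IsB.std, !![l, 0; 0, m], _, by
        refine ⟨by rw [Matrix.det_fin_two]; simp [hlm], fun i j => ?_, by simp [hsum, hxd], by simp,
          by simp [φ1, hl], by simp [φ2, hmd]⟩
        fin_cases i <;> fin_cases j <;> simp [hm0.le, (zero_lt_one.trans hl1).le], GB, by
        simp [Matrix.trace_fin_two, s2, hzd]⟩
      ⟨by simpa using IsB.std.neg_left, !![m, 0; 0, l], _, by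
        refine ⟨by rw [Matrix.det_fin_two]; simp [hlm, mul_comm], fun i j => ?_, by
          have := h.neg (1, 0)
          simp only [Prod.neg_mk, neg_zero] at this
          simp [this, ← hxd, ← hsum, add_comm], by simp,
          by simp [φ1, hmd], by simp [φ2, hl]⟩
        fin_cases i <;> fin_cases j <;> simp [hm0.le, (zero_lt_one.trans hl1).le], GB, by
        simp [Matrix.trace_fin_two, s3]⟩
      (fun u v ⟨a, U, V, gU, gV, e⟩ => ⟨a.add_right, U, U * V, gU, Gmul _ _ _ _ gU gV e, by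
        rw [trace_mul_mul_left _ _ gU.1, h.step_left a, e, gU.2.2.1, gV.2.2.1]⟩)
      (fun u v ⟨a, U, V, gU, gV, e⟩ => ⟨a.add_left, U * V, V, Gmul _ _ _ _ gU gV e, gV, by
        rw [trace_mul_mul_right _ _ gV.1, h.step_right a, e, gU.2.2.1, gV.2.2.1]⟩) w hw
    have fin : ∀ U u, G U u → 0 ≤ u.2 ∧ exp (φ1 u) + exp (φ2 u) ≤ t u := by
      rintro U u ⟨_, _, a3, a4, a5, a6⟩
      rw [Matrix.trace_fin_two] at a3
      exact ⟨a4, by linarith⟩
    rcases b with b | b | b | b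
    · exact ⟨u, Or.inl b, fin _ _ gU⟩
    · exact ⟨v, Or.inl b, fin _ _ gV⟩
    · exact ⟨u, Or.inr b, fin _ _ gU⟩
    · exact ⟨v, Or.inr b, fin _ _ gV⟩
  have hκ : 0 < (log b1 + log b2) / 2 := by
    rw [← log_mul p1.ne' p2.ne']
    linarith [log_pos s6]
  refine ⟨log b1 - log b2, (log b1 + log b2) / 2, hκ, fun w hw => ?_⟩
  obtain ⟨w', hw', q0, hle⟩ := key w hw
  set κ := (log b1 + log b2) / 2 with hκd
  set s := (w'.1 * α + w'.2 * (log b1 - log b2)) / 2 with hs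
  have q1 : (0 : ℝ) ≤ κ * w'.2 := mul_nonneg hκ.le (by exact_mod_cast q0)
  have e1 : exp (φ1 w') + exp (φ2 w') = exp (κ * w'.2) * (2 * cosh s) := by
    have a1 : φ1 w' = κ * w'.2 + s := by simp only [φ1, hs, hκd]; ring
    have a2 : φ2 w' = κ * w'.2 + -s := by simp only [φ2, hs, hκd]; ring
    rw [a1, a2, exp_add, exp_add, cosh_eq]; ring
  have i1 : 2 * cosh s ≤ t w' := by
    have := mul_le_mul_of_nonneg_right (one_le_exp q1) (cosh_pos s).le
    linarith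
  have i2 : 2 * cosh (κ * w'.2) ≤ t w' := by
    have a1 := one_le_cosh s
    have a2 : cosh (κ * w'.2) ≤ exp (κ * w'.2) := by
      rw [cosh_eq]
      have : exp (-(κ * w'.2)) ≤ exp (κ * w'.2) := exp_le_exp.2 (by linarith)
      linarith
    have := mul_le_mul_of_nonneg_left a1 (exp_pos (κ * w'.2)).le
    linarith
  have j1 := le_arcosh_of_cosh_le i1
  have j2 := le_arcosh_of_cosh_le i2
  rw [hs, mul_div_cancel₀ _ two_ne_zero] at j1
  rw [← mul_assoc] at j2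
  rcases hw' with rfl | rfl
  · exact ⟨j1, j2⟩
  · rw [h.neg] at j1 j2
    simp only [Prod.fst_neg, Prod.snd_neg, Int.cast_neg, neg_mul, mul_neg, abs_neg] at j1 j2
    rw [← neg_add, abs_neg] at j1
    exact ⟨j1, j2⟩

/-- Integer vectors as real vectors. -/
def iv (w : ℤ × ℤ) : ℝ × ℝ := ((w.1 : ℝ), (w.2 : ℝ))

/-- Admissible functionals. -/
def Adm (t : ℤ × ℤ → ℝ) : Set (ℝ × ℝ) :=
  {φ | ∀ w, Prim w → φ.1 * w.1 + φ.2 * w.2 ≤ Lg t w}

/-- The norm. -/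
noncomputable def Nm (t : ℤ × ℤ → ℝ) (u : ℝ × ℝ) : ℝ :=
  sSup ((fun φ : ℝ × ℝ => φ.1 * u.1 + φ.2 * u.2) '' Adm t)

section
variable {t : ℤ × ℤ → ℝ} (h : IsMM t)
include h

theorem IsMM.Lg_neg (w : ℤ × ℤ) : Lg t (-w) = Lg t w := by unfold Lg; rw [h.neg]

theorem IsMM.zero_adm : (0 : ℝ × ℝ) ∈ Adm t := fun w hw => by simpa using (h.Lg_pos hw).le

theorem IsMM.neg_adm {φ : ℝ × ℝ} (hφ : φ ∈ Adm t) : -φ ∈ Adm t := fun w hw => by
  have := hφ (-w) hw.neg
  rw [h.Lg_neg] at this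
  simpa using this

theorem IsMM.adm_le {φ : ℝ × ℝ} (hφ : φ ∈ Adm t) (u : ℝ × ℝ) :
    φ.1 * u.1 + φ.2 * u.2 ≤ |u.1| * Lg t (1, 0) + |u.2| * Lg t (0, 1) := by
  have a1 := hφ _ IsB.std.prim_left
  have a2 := hφ _ IsB.std.prim_right
  have a3 := h.neg_adm hφ _ IsB.std.prim_left
  have a4 := h.neg_adm hφ _ IsB.std.prim_right
  simp at a1 a2 a3 a4
  have b1 : |φ.1| ≤ Lg t (1, 0) := abs_le.2 ⟨by linarith, a1⟩
  have b2 : |φ.2| ≤ Lg t (0, 1) := abs_le.2 ⟨by linarith, a2⟩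
  have c1 : φ.1 * u.1 ≤ |u.1| * Lg t (1, 0) := by
    refine (le_abs_self _).trans ?_
    rw [abs_mul, mul_comm]; gcongr
  have c2 : φ.2 * u.2 ≤ |u.2| * Lg t (0, 1) := by
    refine (le_abs_self _).trans ?_
    rw [abs_mul, mul_comm]; gcongr
  linarith

theorem IsMM.le_Nm {φ : ℝ × ℝ} (hφ : φ ∈ Adm t) (u : ℝ × ℝ) :
    φ.1 * u.1 + φ.2 * u.2 ≤ Nm t u :=
  le_csSup ⟨_, by rintro _ ⟨φ, hφ, rfl⟩; exact h.adm_le hφ u⟩ ⟨φ, hφ, rfl⟩

theorem IsMM.Nm_le {u : ℝ × ℝ} {r : ℝ} (hr : ∀ φ ∈ Adm t, φ.1 * u.1 + φ.2 * u.2 ≤ r) :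
    Nm t u ≤ r :=
  csSup_le ⟨_, 0, h.zero_adm, rfl⟩ (by rintro _ ⟨φ, hφ, rfl⟩; exact hr φ hφ)

theorem IsMM.abs_le_Nm {φ : ℝ × ℝ} (hφ : φ ∈ Adm t) (u : ℝ × ℝ) :
    |φ.1 * u.1 + φ.2 * u.2| ≤ Nm t u := by
  have := h.le_Nm (h.neg_adm hφ) u
  simp only [Prod.fst_neg, Prod.snd_neg] at this
  exact abs_le.2 ⟨by linarith, h.le_Nm hφ u⟩

theorem IsMM.Nm_nonneg (u : ℝ × ℝ) : 0 ≤ Nm t u := by simpa using h.le_Nm h.zero_adm u

theorem IsMM.Nm_add (u v : ℝ × ℝ) : Nm t (u + v) ≤ Nm t u + Nm t v :=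
  h.Nm_le fun φ hφ => by
    have := h.le_Nm hφ u
    have := h.le_Nm hφ v
    simp only [Prod.fst_add, Prod.snd_add]; linarith

theorem IsMM.Nm_smul_le (c : ℝ) (u : ℝ × ℝ) : Nm t (c • u) ≤ |c| * Nm t u :=
  h.Nm_le fun φ hφ => by
    have := h.abs_le_Nm hφ u
    simp only [Prod.smul_fst, Prod.smul_snd, smul_eq_mul]
    calc φ.1 * (c * u.1) + φ.2 * (c * u.2) = c * (φ.1 * u.1 + φ.2 * u.2) := by ring
      _ ≤ |c * (φ.1 * u.1 + φ.2 * u.2)| := le_abs_self _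
      _ ≤ |c| * Nm t u := by rw [abs_mul]; gcongr

theorem IsMM.Nm_smul (c : ℝ) (u : ℝ × ℝ) : Nm t (c • u) = |c| * Nm t u := by
  refine le_antisymm (h.Nm_smul_le c u) ?_
  by_cases hc : c = 0
  · subst hc; simpa using h.Nm_nonneg 0
  have := h.Nm_smul_le c⁻¹ (c • u)
  rw [inv_smul_smul₀ hc, abs_inv] at this
  have hp : 0 < |c| := abs_pos.2 hc
  calc |c| * Nm t u ≤ |c| * (|c|⁻¹ * Nm t (c • u)) := by gcongr
    _ = Nm t (c • u) := by field_simp

theorem IsMM.Nm_neg (u : ℝ × ℝ) : Nm t (-u) = Nm t u := by simpa using h.Nm_smul (-1) u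

theorem IsMM.Nm_le_coord (u : ℝ × ℝ) :
    Nm t u ≤ ‖u‖ * (Lg t (1, 0) + Lg t (0, 1)) :=
  h.Nm_le fun φ hφ => by
    have a1 := h.adm_le hφ u
    have a2 : |u.1| ≤ ‖u‖ := norm_fst_le u
    have a3 : |u.2| ≤ ‖u‖ := norm_snd_le u
    have := h.Lg_pos IsB.std.prim_left
    have := h.Lg_pos IsB.std.prim_right
    nlinarith

theorem IsMM.Nm_sub (u v : ℝ × ℝ) :
    |Nm t u - Nm t v| ≤ ‖u - v‖ * (Lg t (1, 0) + Lg t (0, 1)) := by
  have a1 := h.Nm_add (u - v) v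
  have a2 := h.Nm_add (-(u - v)) u
  rw [h.Nm_neg] at a2
  have a3 := h.Nm_le_coord (u - v)
  simp only [sub_add_cancel, neg_sub] at a1 a2
  exact abs_le.2 ⟨by linarith, by linarith⟩

theorem IsMM.continuous_Nm : Continuous (Nm t) := by
  refine (LipschitzWith.of_dist_le' (K := Lg t (1, 0) + Lg t (0, 1)) fun u v => ?_).continuous
  rw [Real.dist_eq, dist_eq_norm, mul_comm]
  exact h.Nm_sub u v

theorem IsMM.Nm_iv {w : ℤ × ℤ} (hw : Prim w) : Nm t (iv w) = Lg t w := by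
  refine le_antisymm (h.Nm_le fun φ hφ => hφ w hw) ?_
  obtain ⟨f, hB⟩ := hw
  obtain ⟨e', f', hB', i1, i2⟩ := exists_lin_inv hB
  obtain ⟨τ, κ, -, hs⟩ := (h.comp hB).supp0
  have hL : ∀ v, Lg (fun v => t (lin w f v)) v = Lg t (lin w f v) := fun v => rfl
  simp only [hL, lin_e1] at hs
  have e : ∀ v : ℤ × ℤ, (e'.1 * Lg t w + e'.2 * τ) * v.1 + (f'.1 * Lg t w + f'.2 * τ) * v.2 =
      (lin e' f' v).1 * Lg t w + (lin e' f' v).2 * τ := by
    intro v; simp only [lin, Prod.fst_add, Prod.snd_add, Prod.smul_fst, Prod.smul_snd, smul_eq_mul]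
    push_cast; ring
  have hφ : ((e'.1 * Lg t w + e'.2 * τ, f'.1 * Lg t w + f'.2 * τ) : ℝ × ℝ) ∈ Adm t := by
    rintro v ⟨v', hv⟩
    have := (hs _ (hB'.lin hv).prim_left).1
    rw [i1] at this
    simp only [e]
    exact (le_abs_self _).trans this
  have := h.le_Nm hφ (iv w)
  simp only [iv, e] at this
  have e2 : lin e' f' w = (1, 0) := by
    have := i2 (1, 0)
    rwa [lin_e1] at this
  rw [e2] at this
  simpa [iv] using this

theorem IsMM.Nm_pos {u : ℝ × ℝ} (hu : u ≠ 0) : 0 < Nm t u := by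
  obtain ⟨τ, κ, hκ, hs⟩ := h.supp0
  have a1 : ((Lg t (1, 0), τ) : ℝ × ℝ) ∈ Adm t := fun w hw => by
    have := (le_abs_self _).trans (hs w hw).1
    simp only; linarith
  have a2 : ((0, 2 * κ) : ℝ × ℝ) ∈ Adm t := fun w hw => by
    have := (le_abs_self _).trans (hs w hw).2
    simp only; linarith
  by_contra hc
  have h0 : Nm t u = 0 := le_antisymm (not_lt.1 hc) (h.Nm_nonneg u)
  have b1 := h.abs_le_Nm a1 u
  have b2 := h.abs_le_Nm a2 u
  rw [h0, abs_nonpos_iff] at b1 b2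
  simp only [zero_mul, zero_add, mul_eq_zero, hκ.ne', two_ne_zero, false_or] at b1 b2
  rw [b2, mul_zero, add_zero, mul_eq_zero] at b1
  apply hu
  ext
  · exact b1.resolve_left (h.Lg_pos IsB.std.prim_left).ne'
  · exact b2

theorem IsMM.exists_lower : ∃ c : ℝ, 0 < c ∧ ∀ u, c * ‖u‖ ≤ Nm t u := by
  obtain ⟨v, hv, hmin⟩ := (isCompact_sphere (0 : ℝ × ℝ) 1).exists_isMinOn
    ⟨(1, 0), by simp [Prod.norm_def]⟩ h.continuous_Nm.continuousOn
  have hv1 : ‖v‖ = 1 := by simpa using hv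
  refine ⟨Nm t v, h.Nm_pos (by rintro rfl; simp at hv1), fun u => ?_⟩
  by_cases hu : u = 0
  · subst hu; simpa using h.Nm_nonneg 0
  have hp : 0 < ‖u‖ := norm_pos_iff.2 hu
  have : Nm t v ≤ Nm t (‖u‖⁻¹ • u) := hmin (by simp [norm_smul, hp.ne'])
  rw [h.Nm_smul, abs_inv, abs_norm] at this
  calc Nm t v * ‖u‖ ≤ ‖u‖⁻¹ * Nm t u * ‖u‖ := by gcongr
    _ = Nm t u := by field_simp

theorem IsMM.collar {e f : ℤ × ℤ} (hB : IsB e f) : 16 ≤ (t e ^ 2 - 4) * (t f ^ 2 - 4) := by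
  obtain ⟨_, _, _, hm⟩ := h.val e f hB
  nlinarith [sq_nonneg (t e * t f - 2 * t (e + f))]

end

/-- Determinant of two real vectors. -/
def wd (u v : ℝ × ℝ) : ℝ := u.1 * v.2 - u.2 * v.1

/-- A universal collar constant. -/
noncomputable def c0 : ℝ := arcosh (5 / 4)

theorem c0_pos : 0 < c0 := arcosh_pos (by norm_num)

theorem wd_iv (e f : ℤ × ℤ) : wd (iv e) (iv f) = dz e f := by simp [wd, iv, dz]

theorem wd_identity (a b c : ℝ × ℝ) : wd a b • c = wd c b • a + wd a c • b := by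
  ext <;> simp [wd] <;> ring

theorem IsB.abs_wd {e f : ℤ × ℤ} (h : IsB e f) : |wd (iv e) (iv f)| = 1 := by
  rw [wd_iv]; rcases h with h | h <;> simp [h]

theorem abs_wd_le (u v : ℝ × ℝ) : |wd u v| ≤ 2 * ‖u‖ * ‖v‖ := by
  have a1 : |u.1| ≤ ‖u‖ := norm_fst_le u
  have a2 : |u.2| ≤ ‖u‖ := norm_snd_le u
  have a3 : |v.1| ≤ ‖v‖ := norm_fst_le v
  have a4 : |v.2| ≤ ‖v‖ := norm_snd_le v
  have b1 : |u.1 * v.2| ≤ ‖u‖ * ‖v‖ := by rw [abs_mul]; gcongr
  have b2 : |u.2 * v.1| ≤ ‖u‖ * ‖v‖ := by rw [abs_mul]; gcongr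
  have := abs_sub (u.1 * v.2) (u.2 * v.1)
  unfold wd; linarith

section
variable {t : ℤ × ℤ → ℝ} (h : IsMM t)
include h

theorem IsMM.c0_le {e f : ℤ × ℤ} (hB : IsB e f) (hle : t e ≤ t f) : 2 * c0 ≤ Lg t f := by
  have a1 := h.collar hB
  have a2 := h.two_lt hB.prim_left
  have a3 : 5 / 2 ≤ t f := by
    by_contra hc
    push Not at hc
    have b1 : t e ^ 2 - 4 < 9 / 4 := by nlinarith
    have b2 : t f ^ 2 - 4 < 9 / 4 := by nlinarith
    have b3 : 0 < t e ^ 2 - 4 := by nlinarith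
    have b4 : 0 < t f ^ 2 - 4 := by nlinarith
    nlinarith
  have := h.le_Lg hB.prim_right (by norm_num) a3
  norm_num [c0] at this ⊢
  exact this

theorem IsMM.c0_le_add {e f : ℤ × ℤ} (hB : IsB e f) : 2 * c0 ≤ Lg t e + Lg t f := by
  rcases le_total (t e) (t f) with hle | hle
  · linarith [h.c0_le hB hle, h.Lg_pos hB.prim_left]
  · linarith [h.c0_le hB.swap hle, h.Lg_pos hB.prim_right]

theorem IsMM.le_of_small {e f : ℤ × ℤ} (hB : IsB e f) (hle : t e ≤ 5 / 2) : t e ≤ t f := by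
  have a1 := h.collar hB
  have a2 := h.two_lt hB.prim_left
  have a3 := h.two_lt hB.prim_right
  by_contra hc
  push Not at hc
  have b1 : t e ^ 2 - 4 ≤ 9 / 4 := by nlinarith
  have b2 : t f ^ 2 - 4 < 9 / 4 := by nlinarith
  have b3 : 0 < t e ^ 2 - 4 := by nlinarith
  have b4 : 0 < t f ^ 2 - 4 := by nlinarith
  nlinarith

theorem IsMM.Nm_basis {e f : ℤ × ℤ} (hB : IsB e f) (u : ℝ × ℝ) :
    Nm t u ≤ |wd u (iv f)| * Lg t e + |wd (iv e) u| * Lg t f := by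
  have a1 := h.Nm_smul (wd (iv e) (iv f)) u
  rw [hB.abs_wd, one_mul, wd_identity] at a1
  rw [← a1]
  refine (h.Nm_add _ _).trans ?_
  rw [h.Nm_smul, h.Nm_smul, h.Nm_iv hB.prim_left, h.Nm_iv hB.prim_right]

theorem IsMM.wd_le {e : ℤ × ℤ} (he : Prim e) (H : ∀ f, IsB e f → t e ≤ t f) (u : ℝ × ℝ) :
    c0 * |wd (iv e) u| ≤ Nm t u := by
  obtain ⟨f, hB⟩ := he
  set r := wd (iv e) u with hr
  set s := wd u (iv f) with hs
  by_cases h0 : r = 0
  · rw [h0]; simpa using h.Nm_nonneg u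
  set n := round (s / r) with hn
  have hB' : IsB e (f + n • e) := by
    unfold IsB dz at *
    simp only [Prod.fst_add, Prod.snd_add, Prod.smul_fst, Prod.smul_snd, smul_eq_mul]
    rcases hB with hB | hB
    · left; linear_combination hB
    · right; linear_combination hB
  have e1 : r • iv (f + n • e) = wd (iv e) (iv f) • u + (r * n - s) • iv e := by
    have hrs : r = wd (iv e) u ∧ s = wd u (iv f) := ⟨rfl, rfl⟩
    clear_value n r s
    rw [hrs.1, hrs.2]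
    ext <;> simp [iv, wd] <;> ring
  have a1 := h.Nm_smul r (iv (f + n • e))
  have a2 := h.Nm_add (wd (iv e) (iv f) • u) ((r * n - s) • iv e)
  rw [← e1, a1, h.Nm_smul, h.Nm_smul, hB.abs_wd, one_mul, h.Nm_iv hB.prim_left,
    h.Nm_iv hB'.prim_right] at a2
  have a3 : |r * n - s| ≤ |r| / 2 := by
    have : r * n - s = -(r * (s / r - n)) := by field_simp; ring
    rw [this, abs_neg, abs_mul]
    have := abs_sub_round (s / r)
    nlinarith [abs_nonneg r]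
  have a4 := h.c0_le hB' (H _ hB')
  have a5 : Lg t e ≤ Lg t (f + n • e) := h.Lg_le hB.prim_left (H _ hB')
  have a6 := h.Lg_pos hB.prim_left
  nlinarith [abs_nonneg r, abs_nonneg (r * n - s), mul_le_mul a3 a5 a6.le (by positivity),
    mul_le_mul_of_nonneg_left a4 (abs_nonneg r)]

theorem IsMM.wd_le_mul {e : ℤ × ℤ} (he : Prim e) (H : ∀ f, IsB e f → t e ≤ t f) (u v : ℝ × ℝ) :
    c0 * (|wd u v| * Lg t e) ≤ 2 * (Nm t u * Nm t v) := by
  have a1 := h.Nm_smul (wd u v) (iv e)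
  rw [wd_identity, h.Nm_iv he] at a1
  have a2 := h.Nm_add (wd (iv e) v • u) (wd u (iv e) • v)
  rw [a1, h.Nm_smul, h.Nm_smul] at a2
  have a3 := h.wd_le he H u
  have a4 := h.wd_le he H v
  have a5 : |wd u (iv e)| = |wd (iv e) u| := by
    rw [← abs_neg]; congr 1; simp [wd]; ring
  rw [a5] at a2
  nlinarith [mul_le_mul_of_nonneg_left a2 c0_pos.le, mul_le_mul_of_nonneg_right a3 (h.Nm_nonneg v),
    mul_le_mul_of_nonneg_right a4 (h.Nm_nonneg u)]

theorem IsMM.finite_le (R : ℝ) : {w | Prim w ∧ t w ≤ R}.Finite := by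
  obtain ⟨c, hc, hl⟩ := h.exists_lower
  obtain ⟨n, hn⟩ := exists_nat_ge (2 * arcosh (R / 2) / c)
  refine ((Set.finite_Icc (-(n : ℤ)) n).prod (Set.finite_Icc (-(n : ℤ)) n)).subset ?_
  rintro w ⟨hw, hR⟩
  have a1 := hl (iv w)
  rw [h.Nm_iv hw] at a1
  have a2 := h.Lg_le hw hR
  have a3 : ‖iv w‖ ≤ n := by
    refine le_trans ?_ hn
    rw [le_div_iff₀ hc]; linarith
  have a4 : |(w.1 : ℝ)| ≤ n := (norm_fst_le (iv w)).trans a3
  have a5 : |(w.2 : ℝ)| ≤ n := (norm_snd_le (iv w)).trans a3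
  have b4 : |w.1| ≤ (n : ℤ) := by exact_mod_cast a4
  have b5 : |w.2| ≤ (n : ℤ) := by exact_mod_cast a5
  exact ⟨abs_le.1 b4, abs_le.1 b5⟩

theorem IsMM.exists_min : ∃ e f, IsB e f ∧ (∀ f', IsB e f' → t e ≤ t f') ∧ t e ≤ 3 ∧
    t f ^ 2 * (t e - 2) ≤ 9 := by
  set R := t (1, 0) + t (0, 1) with hR
  have hfin : {p : (ℤ × ℤ) × (ℤ × ℤ) | IsB p.1 p.2 ∧ t p.1 + t p.2 ≤ R}.Finite := by
    refine ((h.finite_le R).prod (h.finite_le R)).subset ?_
    rintro ⟨e, f⟩ ⟨hB, hle⟩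
    have := h.two_lt hB.prim_left
    have := h.two_lt hB.prim_right
    exact ⟨⟨hB.prim_left, by simp only at *; linarith⟩, hB.prim_right, by simp only at *; linarith⟩
  obtain ⟨⟨e, f⟩, ⟨hB, hle⟩, hmin⟩ := Set.exists_min_image _ (fun p => t p.1 + t p.2) hfin
    ⟨((1, 0), (0, 1)), IsB.std, le_rfl⟩
  have hmin' : ∀ e' f', IsB e' f' → t e + t f ≤ t e' + t f' := by
    intro e' f' hB'
    by_cases hc : t e' + t f' ≤ R
    · exact hmin (e', f') ⟨hB', hc⟩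
    · simp only at hle; linarith
  clear hmin hle
  simp only at hB
  wlog hef : t e ≤ t f generalizing e f
  · exact this f e hB.swap (fun e' f' h' => by linarith [hmin' e' f' h']) (by linarith)
  have m1 := hmin' _ _ hB.add_right
  have m2 := hmin' _ _ hB.neg_right.add_right
  rw [← sub_eq_add_neg] at m2
  obtain ⟨v1, v2, v3, v4⟩ := h.val _ _ hB
  have r := h.rel _ _ hB
  have k : t f ^ 2 * (t e - 2) ≤ t e ^ 2 := by
    have : t (e - f) = t e * t f - t (e + f) := by linarith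
    rw [this] at m2
    nlinarith [mul_nonneg (sub_nonneg.2 (show t f ≤ t (e + f) by linarith))
      (sub_nonneg.2 (show t f ≤ t e * t f - t (e + f) by linarith))]
  have k3 : t e ≤ 3 := by
    by_contra hc
    push Not at hc
    nlinarith [mul_le_mul hef hef (by linarith) (by linarith)]
  exact ⟨e, f, hB, fun f' h' => by linarith [hmin' _ _ h'], k3, by nlinarith⟩

end

theorem dense_prim : Dense {u : ℝ × ℝ | ∃ (c : ℝ) (w : ℤ × ℤ), Prim w ∧ u = c • iv w} := by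
  have := DenseRange.prodMap (Rat.denseRange_cast (𝕜 := ℝ)) (Rat.denseRange_cast (𝕜 := ℝ))
  refine Dense.mono ?_ this
  rintro _ ⟨⟨p, q⟩, rfl⟩
  by_cases h0 : p.num * q.den = 0 ∧ q.num * p.den = 0
  · refine ⟨0, (1, 0), IsB.std.prim_left, ?_⟩
    have hp : p = 0 := by simpa using h0.1
    have hq : q = 0 := by simpa using h0.2
    simp [hp, hq]
  · have hg : 0 < Int.gcd (p.num * q.den) (q.num * p.den) := Int.gcd_pos_iff.2 (by tauto)
    obtain ⟨g, a, b, hg0, hab, ha, hb⟩ := Int.exists_gcd_one' hg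
    refine ⟨(g : ℝ) / (p.den * q.den), (a, b), prim_iff.2 (Int.isCoprime_iff_gcd_eq_one.2 hab), ?_⟩
    have ha' : (p.num : ℝ) * q.den = a * g := by exact_mod_cast ha
    have hb' : (q.num : ℝ) * p.den = b * g := by exact_mod_cast hb
    have dp : (p.den : ℝ) ≠ 0 := by positivity
    have dq : (q.den : ℝ) ≠ 0 := by positivity
    ext
    · simp only [Prod.map_fst, iv, Prod.smul_fst, smul_eq_mul, Rat.cast_def]
      field_simp; linarith
    · simp only [Prod.map_snd, iv, Prod.smul_snd, smul_eq_mul, Rat.cast_def]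
      field_simp; linarith

theorem le_of_prim {f g : ℝ × ℝ → ℝ} (hf : Continuous f) (hg : Continuous g)
    (hf' : ∀ c u, f (c • u) = |c| * f u) (hg' : ∀ c u, g (c • u) = |c| * g u)
    (h : ∀ w, Prim w → f (iv w) ≤ g (iv w)) (u : ℝ × ℝ) : f u ≤ g u := by
  refine (isClosed_le hf hg).closure_subset_iff.2 ?_ (dense_prim u)
  rintro _ ⟨c, w, hw, rfl⟩
  simp only [Set.mem_ofPred_eq, hf', hg']
  exact mul_le_mul_of_nonneg_left (h w hw) (abs_nonneg c)

end Pool.Agent.Work.MP_35beee_gt
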