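import Pool.Agent.Work.MP_35beee_gt.Horo

/-!
The horofunction boundary of the reversed Thurston metric for the once-punctured torus.
`N X` is the continuous homogeneous extension of the length function of `X` from simple closed
curves to measured laminations, identified with `ℝ × ℝ` modulo sign.
-/

namespace Pool.Agent.Work.MP_35beee_gt.PuncturedTorus

open Pool.Agent.Work.MP_35beee_gt Filter Topology

theorem result (b : Teich) :
    (∀ X Y, BddAbove (ratios X Y)) ∧ (∀ x, Continuous (psi b x)) ∧
    ∃ N : Teich → ℝ × ℝ → ℝ, IsLengthExtension N ∧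
      ∃ H : AddCircle Real.pi ≃ₜ horoBdry b,
        (∀ (θ : ℝ) (z : Teich), (H θ : C(Teich, ℝ)) z =
          Real.log (N z (Real.cos θ, Real.sin θ) / N b (Real.cos θ, Real.sin θ))) ∧
        ∀ (X : ℕ → Teich) (θ : ℝ),
          TendstoLocallyUniformly (fun n => psi b (X n)) (H θ : C(Teich, ℝ)) atTop ↔
            ThurstonTendsto X (Real.cos θ, Real.sin θ) := by
  obtain ⟨H, hH⟩ := exists_homeo b
  refine ⟨bdd_ratios, fun x => (psiC b x).continuous, NX,
    fun X => ⟨NX_cont X, NX_smul X, fun _ => NX_pos X, fun _ => NX_hom X⟩, H,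
    fun θ z => by rw [hH]; rfl, fun X θ => ?_⟩
  rw [hH]
  exact (ContinuousMap.tendsto_iff_tendstoLocallyUniformly
    (F := fun n => psiC b (X n))).symm.trans (thurston b X (cs θ))

end Pool.Agent.Work.MP_35beee_gt.PuncturedTorus
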