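import Pool.Agent.Work.MP_35beee_gt.Teich

/-! Length functions on Teichmueller space and the maximal ratio. -/

namespace Pool.Agent.Work.MP_35beee_gt

open Real Filter Topology

/-- The trace function of a point. -/
noncomputable def tX (X : Teich) : ℤ × ℤ → ℝ := tm (frT X).1

theorem mm (X : Teich) : IsMM (tX X) := (frT X).mm

/-- The length function of a point. -/
noncomputable def NX (X : Teich) (u : ℝ × ℝ) : ℝ := Nm (tX X) u

theorem NX_hom (X : Teich) {γ : F} (h : IsSimple γ) : NX X (hom γ) = len X γ := by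
  rw [hom_eq, len_eq X h]; exact (mm X).Nm_iv h.prim

theorem NX_pos (X : Teich) {u : ℝ × ℝ} (hu : u ≠ 0) : 0 < NX X u := (mm X).Nm_pos hu
theorem NX_nonneg (X : Teich) (u : ℝ × ℝ) : 0 ≤ NX X u := (mm X).Nm_nonneg u
theorem NX_smul (X : Teich) (c : ℝ) (u : ℝ × ℝ) : NX X (c • u) = |c| * NX X u := (mm X).Nm_smul c u
theorem NX_add (X : Teich) (u v : ℝ × ℝ) : NX X (u + v) ≤ NX X u + NX X v := (mm X).Nm_add u v
theorem NX_cont (X : Teich) : Continuous (NX X) := (mm X).continuous_Nm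
theorem NX_iv (X : Teich) {w : ℤ × ℤ} (hw : Prim w) : NX X (iv w) = Lg (tX X) w := (mm X).Nm_iv hw
theorem NX_zero (X : Teich) : NX X 0 = 0 := by simpa using NX_smul X 0 0

theorem continuous_Lg {w : ℤ × ℤ} (hw : Prim w) : Continuous fun X => Lg (tX X) w := by
  have h1 : Continuous fun X => tX X w :=
    (continuous_tm w).comp (continuous_subtype_val.comp continuous_frT)
  refine continuous_const.mul (continuousOn_arcosh.comp_continuous (h1.div_const 2) fun X => ?_)
  have := (mm X).two_lt hw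
  simp only [Set.mem_Ici]; linarith

theorem continuous_NX : Continuous fun p : Teich × (ℝ × ℝ) => NX p.1 p.2 := by
  let K : Teich → ℝ := fun X => Lg (tX X) (1, 0) + Lg (tX X) (0, 1)
  have hK : Continuous K := (continuous_Lg IsB.std.prim_left).add (continuous_Lg IsB.std.prim_right)
  have hK0 : ∀ X, 0 < K X := fun X =>
    add_pos ((mm X).Lg_pos IsB.std.prim_left) ((mm X).Lg_pos IsB.std.prim_right)
  refine continuous_iff_continuousAt.2 fun ⟨X, u⟩ => Metric.tendsto_nhds.2 fun ε hε => ?_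
  obtain ⟨_, hv, c, w, hw, rfl⟩ := Metric.dense_iff.1 dense_prim u (ε / (2 * K X))
    (by have := hK0 X; positivity)
  set v := c • iv w with hvd
  have hN : Continuous fun Y => NX Y v := by
    simp only [hvd, NX_smul, NX_iv _ hw]
    exact continuous_const.mul (continuous_Lg hw)
  have hG : Continuous fun p : Teich × (ℝ × ℝ) =>
      ‖p.2 - v‖ * K p.1 + |NX p.1 v - NX X v| + ‖v - u‖ * K X := by fun_prop
  have hlt : ‖u - v‖ * K X + |NX X v - NX X v| + ‖v - u‖ * K X < ε := by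
    rw [Metric.mem_ball, dist_eq_norm, lt_div_iff₀ (by have := hK0 X; positivity)] at hv
    rw [norm_sub_rev u v]; simp; linarith
  filter_upwards [(hG.tendsto (X, u)).eventually_lt_const hlt] with p hp
  have a1 := (mm p.1).Nm_sub p.2 v
  have a2 := (mm X).Nm_sub v u
  rw [Real.dist_eq]
  have := abs_sub_le (NX p.1 p.2) (NX p.1 v) (NX X u)
  have := abs_sub_le (NX p.1 v) (NX X v) (NX X u)
  simp only [NX, K] at *
  linarith

/-- The maximal ratio. -/
noncomputable def Er (x z : Teich) : ℝ := sSup (ratios x z)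

theorem iv_ne_zero {w : ℤ × ℤ} (hw : Prim w) : iv w ≠ 0 := by
  intro h
  obtain ⟨f, hf⟩ := hw
  have := hf.abs_wd
  rw [h] at this
  simp [wd] at this

theorem mem_ratios {x z : Teich} {r : ℝ} :
    r ∈ ratios x z ↔ ∃ w, Prim w ∧ r = NX z (iv w) / NX x (iv w) := by
  constructor
  · rintro ⟨γ, h, rfl⟩
    exact ⟨hz γ, h.prim, by rw [← hom_eq, NX_hom _ h, NX_hom _ h]⟩
  · rintro ⟨w, hw, rfl⟩
    obtain ⟨γ, h, rfl⟩ := exists_simple hw
    exact ⟨γ, h, by rw [← hom_eq, NX_hom _ h, NX_hom _ h]⟩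

theorem ratios_le {x z : Teich} {r : ℝ} (h : ∀ u, NX z u ≤ r * NX x u) : r ∈ upperBounds (ratios x z) := by
  intro s hs
  obtain ⟨w, hw, rfl⟩ := mem_ratios.1 hs
  rw [div_le_iff₀ (NX_pos _ (iv_ne_zero hw))]
  exact h _

theorem bdd_ratios (x z : Teich) : BddAbove (ratios x z) := by
  obtain ⟨c, hc, hl⟩ := (mm x).exists_lower
  refine ⟨(Lg (tX z) (1, 0) + Lg (tX z) (0, 1)) / c, ratios_le fun u => ?_⟩
  have a1 := (mm z).Nm_le_coord u
  have a2 := hl u
  have a3 := add_pos ((mm z).Lg_pos IsB.std.prim_left) ((mm z).Lg_pos IsB.std.prim_right)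
  rw [div_mul_eq_mul_div, le_div_iff₀ hc]
  unfold NX
  nlinarith

theorem ratios_nonempty (x z : Teich) : (ratios x z).Nonempty :=
  ⟨_, mem_ratios.2 ⟨_, IsB.std.prim_left, rfl⟩⟩

theorem Er_le {x z : Teich} {r : ℝ} (h : ∀ u, NX z u ≤ r * NX x u) : Er x z ≤ r :=
  csSup_le (ratios_nonempty x z) (ratios_le h)

theorem le_Er (x z : Teich) (u : ℝ × ℝ) : NX z u ≤ Er x z * NX x u := by
  refine le_of_prim (g := fun u => Er x z * NX x u) (NX_cont z) (continuous_const.mul (NX_cont x))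
    (NX_smul z) (fun c u => by rw [NX_smul]; ring) (fun w hw => ?_) u
  rw [← div_le_iff₀ (NX_pos _ (iv_ne_zero hw))]
  exact le_csSup (bdd_ratios x z) (mem_ratios.2 ⟨w, hw, rfl⟩)

theorem Er_pos (x z : Teich) : 0 < Er x z := by
  have h := iv_ne_zero IsB.std.prim_left
  exact (pos_iff_pos_of_mul_pos ((NX_pos z h).trans_le (le_Er x z _))).2 (NX_pos x h)

theorem sphere_ne_zero (u : Metric.sphere (0 : ℝ × ℝ) 1) : (u : ℝ × ℝ) ≠ 0 := by
  intro h
  have := u.2
  rw [h] at this
  simp at this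

instance : Nonempty (Metric.sphere (0 : ℝ × ℝ) 1) := ⟨⟨(1, 0), by simp [Prod.norm_def]⟩⟩

theorem le_of_sphere {x z : Teich} {r : ℝ}
    (h : ∀ u : Metric.sphere (0 : ℝ × ℝ) 1, NX z u / NX x u ≤ r) (u : ℝ × ℝ) :
    NX z u ≤ r * NX x u := by
  by_cases hu : u = 0
  · simp [hu, NX_zero]
  have hp : 0 < ‖u‖ := norm_pos_iff.2 hu
  have := h ⟨‖u‖⁻¹ • u, by simp [norm_smul, hp.ne']⟩
  simp only [NX_smul] at this
  rwa [mul_div_mul_left _ _ (by positivity), div_le_iff₀ (NX_pos _ hu)] at this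

theorem Continuous.NX' {α : Type*} [TopologicalSpace α] {f : α → Teich} {g : α → ℝ × ℝ}
    (hf : Continuous f) (hg : Continuous g) : Continuous fun a => NX (f a) (g a) := by
  have := continuous_NX.comp (hf.prodMk hg)
  simpa only [Function.comp_def] using this

theorem continuous_ratio : Continuous fun p : (Teich × Teich) × Metric.sphere (0 : ℝ × ℝ) 1 =>
    NX p.1.2 p.2 / NX p.1.1 p.2 := by
  refine Continuous.div (Continuous.NX' (by fun_prop) (by fun_prop))
    (Continuous.NX' (by fun_prop) (by fun_prop)) fun p => (NX_pos _ (sphere_ne_zero _)).ne'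

theorem exists_max (x z : Teich) : ∃ v : Metric.sphere (0 : ℝ × ℝ) 1,
    IsGreatest ((fun u : Metric.sphere (0 : ℝ × ℝ) 1 => NX z u / NX x u) '' Set.univ) (Er x z) ∧
    NX z v = Er x z * NX x v := by
  obtain ⟨v, -, hv⟩ := isCompact_univ.exists_isMaxOn Set.univ_nonempty
    (continuous_ratio.comp (Continuous.prodMk_right (x, z))).continuousOn
  have h1 : Er x z ≤ NX z v / NX x v := Er_le (le_of_sphere fun u => hv (Set.mem_univ u))
  have h2 : NX z v / NX x v ≤ Er x z := by
    rw [div_le_iff₀ (NX_pos _ (sphere_ne_zero _))]; exact le_Er x z v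
  have h3 := le_antisymm h1 h2
  refine ⟨v, ⟨⟨v, trivial, h3.symm⟩, ?_⟩, ?_⟩
  · rintro _ ⟨u, -, rfl⟩
    rw [h3]; exact hv (Set.mem_univ u)
  · rw [h3, div_mul_cancel₀ _ (NX_pos _ (sphere_ne_zero _)).ne']

theorem continuous_Er : Continuous fun p : Teich × Teich => Er p.1 p.2 := by
  have := isCompact_univ.continuous_sSup
    (f := fun (p : Teich × Teich) (u : Metric.sphere (0 : ℝ × ℝ) 1) => NX p.2 u / NX p.1 u)
    continuous_ratio
  refine this.congr fun p => ?_
  obtain ⟨_, h, _⟩ := exists_max p.1 p.2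
  exact h.csSup_eq

theorem psi_eq (b x z : Teich) : psi b x z = log (Er x z) - log (Er x b) := rfl

theorem continuous_psi (b : Teich) : Continuous fun p : Teich × Teich => psi b p.1 p.2 :=
  (continuous_Er.log fun _ => (Er_pos _ _).ne').sub
    ((continuous_Er.comp (continuous_fst.prodMk continuous_const)).log fun _ => (Er_pos _ _).ne')

theorem exists_vmax (b x : Teich) : ∃ v, NX b v = 1 ∧ Er x b * NX x v = 1 := by
  obtain ⟨v, -, h⟩ := exists_max x b
  have hp := NX_pos b (sphere_ne_zero v)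
  refine ⟨(NX b v)⁻¹ • (v : ℝ × ℝ), ?_, ?_⟩
  · rw [NX_smul, abs_of_pos (inv_pos.2 hp), inv_mul_cancel₀ hp.ne']
  · rw [NX_smul, abs_of_pos (inv_pos.2 hp), mul_left_comm, ← h, inv_mul_cancel₀ hp.ne']

/-- A direction of maximal ratio. -/
noncomputable def vm (b x : Teich) : ℝ × ℝ := (exists_vmax b x).choose

theorem vm_b (b x : Teich) : NX b (vm b x) = 1 := (exists_vmax b x).choose_spec.1
theorem vm_x (b x : Teich) : Er x b * NX x (vm b x) = 1 := (exists_vmax b x).choose_spec.2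

theorem ne_zero_of_NX {b : Teich} {v : ℝ × ℝ} (h : NX b v = 1) : v ≠ 0 := by
  rintro rfl; simp [NX_zero] at h

theorem one_le_norm_iv {w : ℤ × ℤ} (hw : Prim w) : 1 ≤ ‖iv w‖ := by
  have h := iv_ne_zero hw
  by_cases h1 : w.1 = 0
  · have h2 : w.2 ≠ 0 := fun h2 => h (by simp [iv, h1, h2])
    refine le_trans ?_ (norm_snd_le (iv w))
    simp only [iv, Real.norm_eq_abs]
    exact_mod_cast Int.one_le_abs h2
  · refine le_trans ?_ (norm_fst_le (iv w))
    simp only [iv, Real.norm_eq_abs]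
    exact_mod_cast Int.one_le_abs h1

theorem exists_wd_bound (b : Teich) : ∃ C : ℝ, 0 < C ∧ ∀ x u, |wd u (vm b x)| ≤ C * NX x u := by
  obtain ⟨c, hc, hl⟩ := (mm b).exists_lower
  refine ⟨2 / (c0 * c), by have := c0_pos; positivity, fun x u => ?_⟩
  obtain ⟨e, f, hB, H, -⟩ := (mm x).exists_min
  have a1 := (mm x).wd_le_mul hB.prim_left H u (vm b x)
  have a2 := le_Er x b (iv e)
  have a3 := hl (iv e)
  have a4 := one_le_norm_iv hB.prim_left
  have a5 := vm_x b x
  rw [NX_iv x hB.prim_left] at a2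
  have a6 : c ≤ Er x b * Lg (tX x) e := by unfold NX at a2; nlinarith
  have a7 := mul_le_mul_of_nonneg_left a1 (Er_pos x b).le
  have a8 := mul_le_mul_of_nonneg_left a6 (mul_nonneg c0_pos.le (abs_nonneg (wd u (vm b x))))
  rw [div_mul_eq_mul_div, le_div_iff₀ (mul_pos c0_pos hc)]
  unfold NX at *
  have a9 : Er x b * (2 * (Nm (tX x) u * Nm (tX x) (vm b x))) = 2 * Nm (tX x) u := by
    linear_combination (2 * Nm (tX x) u) * a5
  nlinarith

/-- Rotation by a quarter turn. -/
def rot (v : ℝ × ℝ) : ℝ × ℝ := (-v.2, v.1)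

theorem wd_rot_pos {v : ℝ × ℝ} (hv : v ≠ 0) : 0 < wd v (rot v) := by
  have : v.1 ≠ 0 ∨ v.2 ≠ 0 := by
    by_contra h; push Not at h; exact hv (Prod.ext h.1 h.2)
  simp only [wd, rot]
  rcases this with h | h
  · nlinarith [mul_self_pos.2 h, mul_self_nonneg v.2]
  · nlinarith [mul_self_pos.2 h, mul_self_nonneg v.1]

theorem abs_wd_comm (u v : ℝ × ℝ) : |wd u v| = |wd v u| := by
  rw [← abs_neg]; congr 1; simp [wd]; ring

theorem NX_decomp (z : Teich) (v w u : ℝ × ℝ) :
    |wd v w| * NX z u ≤ |wd u w| * NX z v + |wd v u| * NX z w := by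
  rw [← NX_smul, wd_identity, ← NX_smul, ← NX_smul]; exact NX_add _ _ _

theorem exists_est (b : Teich) : ∃ C : ℝ, 0 < C ∧ ∀ x z,
    |psi b x z - log (NX z (vm b x))| ≤ C / wd (vm b x) (rot (vm b x)) *
      (NX b (rot (vm b x)) + NX z (rot (vm b x)) / NX z (vm b x)) / Er x b := by
  obtain ⟨C, hC, hw⟩ := exists_wd_bound b
  refine ⟨C, hC, fun x z => ?_⟩
  have hv1 := vm_b b x
  have hv2 := vm_x b x
  have hw' := hw x
  generalize vm b x = v at *
  have hv := ne_zero_of_NX hv1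
  set r := rot v
  have hq : 0 < wd v r := wd_rot_pos hv
  set q := wd v r with hqd
  have hM := Er_pos x b
  have hz := NX_pos z hv
  set D := C / q * (NX b r * NX z v + NX z r) with hD
  have lower : Er x b * NX z v ≤ Er x z := by
    have := mul_le_mul_of_nonneg_left (le_Er x z v) hM.le
    calc _ ≤ _ := this
      _ = Er x z * (Er x b * NX x v) := by ring
      _ = _ := by rw [hv2, mul_one]
  have upper : Er x z ≤ Er x b * NX z v + D := by
    refine Er_le fun u => ?_
    have a1 := NX_decomp z v r u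
    have a2 := NX_decomp b u r v
    have a3 := le_Er x b u
    have a4 := hw' u
    rw [abs_of_pos hq] at a1 a2
    rw [hv1, mul_one] at a2
    rw [abs_wd_comm v u] at a1
    have b1 := mul_le_mul_of_nonneg_right a4 (NX_nonneg b r)
    have b2 := mul_le_mul_of_nonneg_right a4 (NX_nonneg z r)
    have b3 := mul_le_mul_of_nonneg_left a3 hq.le
    have b4 : |wd u r| ≤ q * (Er x b * NX x u) + C * NX x u * NX b r := by linarith
    have b5 := mul_le_mul_of_nonneg_right b4 hz.le
    apply le_of_mul_le_mul_left _ hq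
    have : q * ((Er x b * NX z v + D) * NX x u) = (q * (Er x b * NX x u) +
        C * NX x u * NX b r) * NX z v + C * NX x u * NX z r := by
      rw [hD]; field_simp; ring
    linarith
  have e1 : psi b x z - log (NX z v) = log (Er x z / (Er x b * NX z v)) := by
    rw [psi_eq, log_div (Er_pos _ _).ne' (by positivity), log_mul hM.ne' hz.ne']; ring
  have e2 : 1 ≤ Er x z / (Er x b * NX z v) := by rwa [one_le_div (by positivity)]
  rw [e1, abs_of_nonneg (log_nonneg e2)]
  refine (log_le_sub_one_of_pos (by linarith)).trans ?_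
  rw [sub_le_iff_le_add, div_le_iff₀ (by positivity)]
  refine upper.trans (le_of_eq ?_)
  rw [hD]; field_simp; ring

theorem exists_compact (b : Teich) (M : ℝ) :
    ∃ K : Set Teich, IsCompact K ∧ ∀ x, Er x b ≤ M → x ∈ K := by
  obtain ⟨c, hc, hl⟩ := (mm b).exists_lower
  wlog hM : 0 < M generalizing M
  · obtain ⟨K, h1, h2⟩ := this 1 one_pos
    exact ⟨K, h1, fun x hx => h2 x (by linarith)⟩
  set δ := 2 * cosh (c / M / 2) - 2 with hδ
  have hδ0 : 0 < δ := by
    have := one_lt_cosh.2 (show c / M / 2 ≠ 0 by positivity)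
    linarith
  set B := 2 * arcosh ((3 + 9 / δ) / 2) with hB
  set R := 2 * cosh (4 * (M * B / c) * B / 2) with hR
  refine ⟨frH ⁻¹' {T | T.1.1 ≤ R ∧ T.1.2.1 ≤ R ∧ T.1.2.2 ≤ R}, ?_, fun x hx => ?_⟩
  · rw [frH.isCompact_preimage, Subtype.isCompact_iff]
    have : Subtype.val '' {T : Mk | T.1.1 ≤ R ∧ T.1.2.1 ≤ R ∧ T.1.2.2 ≤ R} =
        Set.Icc ((2, 2, 2) : ℝ × ℝ × ℝ) (R, R, R) ∩
          {T | T.1 ^ 2 + T.2.1 ^ 2 + T.2.2 ^ 2 = T.1 * T.2.1 * T.2.2} := by
      ext ⟨x, y, z⟩
      constructor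
      · rintro ⟨⟨T, a1, a2, a3, a4⟩, ⟨b1, b2, b3⟩, rfl⟩
        exact ⟨⟨⟨a1.le, a2.le, a3.le⟩, b1, b2, b3⟩, a4⟩
      · rintro ⟨⟨⟨a1, a2, a3⟩, b⟩, a4⟩
        simp only at a1 a2 a3
        exact ⟨⟨(x, y, z), val_of_pos (by linarith) (by linarith) (by linarith) a4⟩, b, rfl⟩
    rw [this]
    exact isCompact_Icc.inter_right (isClosed_eq (by fun_prop) (by fun_prop))
  · obtain ⟨e, f, hb, -, h3, h9⟩ := (mm x).exists_min
    have nrm : ∀ w, Prim w → c * ‖iv w‖ ≤ M * Lg (tX x) w := by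
      intro w hw
      have a2 := le_Er x b (iv w)
      rw [NX_iv x hw] at a2
      have := mul_le_mul_of_nonneg_right hx ((mm x).Lg_pos hw).le
      exact (hl _).trans (a2.trans this)
    have a1 : c / M ≤ Lg (tX x) e := by
      rw [div_le_iff₀ hM]
      nlinarith [nrm e hb.prim_left, one_le_norm_iv hb.prim_left]
    have a2 : δ ≤ tX x e - 2 := by
      rw [← (mm x).cosh_Lg hb.prim_left]
      have : cosh (c / M / 2) ≤ cosh (Lg (tX x) e / 2) := by
        rw [cosh_le_cosh, abs_of_pos (by positivity),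
          abs_of_pos (by have := (mm x).Lg_pos hb.prim_left; positivity)]
        linarith
      linarith
    have a3 : tX x f ≤ 9 / δ := by
      have := (mm x).two_lt hb.prim_right
      rw [le_div_iff₀ hδ0]
      nlinarith [mul_le_mul_of_nonneg_left a2 (sq_nonneg (tX x f))]
    have hδ9 : 0 < 9 / δ := by positivity
    have b1 : Lg (tX x) e ≤ B := (mm x).Lg_le hb.prim_left (by linarith)
    have b2 : Lg (tX x) f ≤ B := (mm x).Lg_le hb.prim_right (by linarith)
    have c1 : ‖iv e‖ ≤ M * B / c := by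
      rw [le_div_iff₀ hc]; nlinarith [nrm e hb.prim_left]
    have c2 : ‖iv f‖ ≤ M * B / c := by
      rw [le_div_iff₀ hc]; nlinarith [nrm f hb.prim_right]
    have fin : ∀ w, Prim w → ‖iv w‖ ≤ 1 → tX x w ≤ R := by
      intro w hw h1
      have d1 := (mm x).Nm_basis hb (iv w)
      rw [(mm x).Nm_iv hw] at d1
      have d2 : |wd (iv w) (iv f)| ≤ 2 * (M * B / c) := by
        refine (abs_wd_le _ _).trans ?_
        nlinarith [norm_nonneg (iv f), norm_nonneg (iv w)]
      have d3 : |wd (iv e) (iv w)| ≤ 2 * (M * B / c) := by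
        refine (abs_wd_le _ _).trans ?_
        nlinarith [norm_nonneg (iv e), norm_nonneg (iv w)]
      have d4 := mul_le_mul d2 b1 ((mm x).Lg_pos hb.prim_left).le ((abs_nonneg _).trans d2)
      have d5 := mul_le_mul d3 b2 ((mm x).Lg_pos hb.prim_right).le ((abs_nonneg _).trans d2)
      have p := (mm x).Lg_pos hw
      rw [← (mm x).cosh_Lg hw]
      have : cosh (Lg (tX x) w / 2) ≤ cosh (4 * (M * B / c) * B / 2) := by
        rw [cosh_le_cosh, abs_of_pos (by positivity), abs_of_pos (by linarith)]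
        linarith
      linarith
    refine ⟨?_, ?_, ?_⟩
    · have := fin (1, 0) IsB.std.prim_left (by simp [iv, Prod.norm_def])
      rwa [tX, tm_e1] at this
    · have := fin (0, 1) IsB.std.prim_right (by simp [iv, Prod.norm_def])
      rwa [tX, tm_e2] at this
    · have := fin (1, 1) (by simpa using IsB.std.add_left.prim_left) (by simp [iv, Prod.norm_def])
      rwa [tX, tm_e3] at this

theorem exists_point {e f : ℤ × ℤ} (hB : IsB e f) {x y z : ℝ} (hv : Val x y z) :
    ∃ X : Teich, tX X e = x ∧ tX X f = y := by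
  obtain ⟨e', f', hB', -, i2⟩ := exists_lin_inv hB
  have h1 := (isMM_tm (x, y, z) hv).comp hB'
  let T : Mk := ⟨(tm (x, y, z) (lin e' f' (1, 0)), tm (x, y, z) (lin e' f' (0, 1)),
    tm (x, y, z) (lin e' f' (1, 1))), by simpa using h1.val _ _ IsB.std⟩
  have h2 : ∀ w, Prim w → tm T.1 w = tm (x, y, z) (lin e' f' w) := fun w hw =>
    T.mm.ext h1 (tm_e1 _) (tm_e2 _) (tm_e3 _) hw
  have h3 : frT (frH.symm T) = T := frH.apply_symm_apply T
  refine ⟨frH.symm T, ?_, ?_⟩
  · have := i2 (1, 0)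
    rw [lin_e1] at this
    rw [tX, h3, h2 _ hB.prim_left, this, tm_e1]
  · have := i2 (0, 1)
    rw [lin_e2] at this
    rw [tX, h3, h2 _ hB.prim_right, this, tm_e2]

theorem euclid (v : ℝ × ℝ) (k : ℕ) :
    ∃ e f, IsB e f ∧ |wd v (iv f)| ≤ ‖v‖ ∧ |wd (iv e) v| ≤ ‖v‖ * (1 / 2) ^ k := by
  induction k with
  | zero =>
    refine ⟨_, _, IsB.std, ?_, ?_⟩
    · simpa [wd, iv] using norm_fst_le v
    · simpa [wd, iv] using norm_snd_le v
  | succ k ih =>
    obtain ⟨e, f, hB, h1, h2⟩ := ih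
    by_cases h0 : wd (iv e) v = 0
    · exact ⟨e, f, hB, h1, by rw [h0, abs_zero]; positivity⟩
    set n := round (wd v (iv f) / wd (iv e) v) with hn
    refine ⟨f + n • e, e, ?_, ?_, ?_⟩
    · unfold IsB dz at *
      simp only [Prod.fst_add, Prod.snd_add, Prod.smul_fst, Prod.smul_snd, smul_eq_mul]
      rcases hB with hB | hB
      · right; linear_combination -hB
      · left; linear_combination -hB
    · rw [abs_wd_comm]
      refine h2.trans ?_
      have : (1 / 2 : ℝ) ^ k ≤ 1 := pow_le_one₀ (by norm_num) (by norm_num)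
      nlinarith [norm_nonneg v]
    · have e1 : wd (iv (f + n • e)) v =
          -(wd (iv e) v * (wd v (iv f) / wd (iv e) v - n)) := by
        field_simp
        simp [wd, iv]; ring
      rw [e1, abs_neg, abs_mul, pow_succ, ← mul_assoc]
      exact mul_le_mul h2 (abs_sub_round _) (abs_nonneg _) (by positivity)

theorem exists_small (v : ℝ × ℝ) {ε : ℝ} (hε : 0 < ε) : ∃ z, NX z v < ε := by
  set α := ε / (2 * (‖v‖ + 1)) with hα
  have hα0 : 0 < α := by positivity
  set x := 2 * cosh (α / 2) with hx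
  have hx2 : 2 < x := by
    have := one_lt_cosh.2 (show α / 2 ≠ 0 by positivity)
    linarith
  have hs : 0 < √(x - 2) := sqrt_pos.2 (by linarith)
  have hv : Val x (x / √(x - 2)) (x / √(x - 2)) := by
    refine val_of_pos (by linarith) (by positivity) (by positivity) ?_
    have := sq_sqrt (show 0 ≤ x - 2 by linarith)
    field_simp
    linear_combination this
  set β := 2 * arcosh (x / √(x - 2) / 2) with hβ
  have ht : Tendsto (fun k : ℕ => ‖v‖ * (1 / 2 : ℝ) ^ k * β) atTop (𝓝 (‖v‖ * 0 * β)) :=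
    ((tendsto_pow_atTop_nhds_zero_of_lt_one (by norm_num) (by norm_num)).const_mul _).mul_const _
  obtain ⟨k, hk⟩ := (ht.eventually_lt_const (show ‖v‖ * 0 * β < ε / 2 by simpa using hε)).exists
  obtain ⟨e, f, hB, h1, h2⟩ := euclid v k
  obtain ⟨z, z1, z2⟩ := exists_point hB hv
  refine ⟨z, ?_⟩
  have a1 := (mm z).Nm_basis hB v
  have a2 : Lg (tX z) e = α := by
    rw [Lg, z1, hx, mul_div_cancel_left₀ _ two_ne_zero, arcosh_cosh (by positivity)]; ring
  have a3 : Lg (tX z) f = β := by rw [Lg, z2]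
  have a4 := (mm z).Lg_pos hB.prim_right
  rw [a3] at a4
  rw [a2, a3] at a1
  have b1 := mul_le_mul_of_nonneg_right h1 hα0.le
  have b2 := mul_le_mul_of_nonneg_right h2 a4.le
  have b3 : ‖v‖ * α ≤ ε / 2 := by
    rw [hα, mul_div_assoc', div_le_div_iff₀ (by positivity) (by positivity)]
    nlinarith [norm_nonneg v]
  unfold NX
  linarith

theorem c0_le_NX (z : Teich) : 2 * c0 ≤ NX z (iv (1, 0)) + NX z (iv (0, 1)) := by
  rw [NX_iv _ IsB.std.prim_left, NX_iv _ IsB.std.prim_right]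
  exact (mm z).c0_le_add IsB.std

end Pool.Agent.Work.MP_35beee_gt
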