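import Pool.Agent.Work.MP_35beee_gt.PAdj
import Pool.Agent.Work.MP_35beee_gt.GLiou

/-!
The mass of the leaves that separate two objects.

Throughout `μ` is a current without atoms that is carried by a lamination `Λ`. Lines of `Λ` are
simple, do not end at cusps (`not_cusp_of_inCore`), and those with an end fixed by a nontrivial
element form a null set (`Cur.null_fix`).

Plan. `sepSet_lt_top`: the lines of `Λ` meet a compact segment, `isCompact_lines`.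
`gap_le`: if the source of a line lies in the half-open arc from `x` to `a • x` inside `a` and the target
in the gap of `a`, use `Cur.real_arc`. `third_le`: the inner side of `c` has the fundamental arc from
`lo a` to `c • lo a = lo (b⁻¹ * a * b)`, made of the gap of `a`, the arc between `a` and `b`, the gap
of `b` and the arc between `b` and `b⁻¹ * a * b` (`Frame.face_conj`). `conj_le`: the fundamental arc
from `lo a` to `x • lo a`. `sep_le_third`: one end of a separating line is in the arc between `a`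
and `b`, the other is in the gap of `c` by `Frame.cross_of_arcs`. `four`: the cyclic order
is `a`, `c`, `b`, `d`; for every line the indicator functions of unoriented separation satisfy the
inequality (check the positions of the two ends, `ccw_gaps`, `ccw_gaps_pt`); `μ` is invariant under
reversal.
-/

namespace HRT

open Set Filter Topology Real MeasureTheory

/-- Lines with the gap of `a` on the left and the gap of `b` on the right. -/
def sepSet (a b : Isom) : Set Geo :=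
  {l | 0 < side l (lo a).1 ∧ 0 < side l (hi a).1 ∧ side l (lo b).1 < 0 ∧ side l (hi b).1 < 0}

/-- The mass of the separating lines. -/
noncomputable def sepM (μ : Measure Geo) (a b : Isom) : ℝ := μ.real (sepSet a b)

variable {Γ : Type*} [Group Γ] {ρ : Γ →* Isom} {Λ : Set Geo} {μ : Measure Geo} {a b c d : Γ}

/-- A current without atoms on a lamination. -/
structure NCur (ρ : Γ →* Isom) (Λ : Set Geo) (μ : Measure Geo) : Prop where
  disc : Disc ρ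
  lam : Lam ρ Λ
  cur : Cur ρ μ
  null : NullSingletonClass μ
  car : μ Λᶜ = 0

theorem TSep_cont (v : V) : Continuous fun l : Geo => side l v :=
  continuous_nrm.B' continuous_const

theorem measurableSet_sepSet (a b : Isom) : MeasurableSet (sepSet a b) := by
  exact ((isOpen_lt continuous_const (TSep_cont _)).inter
    ((isOpen_lt continuous_const (TSep_cont _)).inter ((isOpen_lt (TSep_cont _)
      continuous_const).inter (isOpen_lt (TSep_cont _) continuous_const)))).measurableSet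

/-- A point on the side of the gap, for all lines that do not cross their translate. -/
theorem TSep_pt {a : Isom} (ha : Pos a) : ∃ p : Pt, ∀ l, 0 < side l (lo a).1 →
    0 < side l (hi a).1 → ¬ Cross l (a • l) → 0 < side l p.1 := by
  rcases ha.1.hyp_or_par with h | h
  · refine ⟨pt (ax a) 0, fun l h1 h2 _ => ?_⟩
    rw [h.lo_eq] at h1
    rw [h.hi_eq] at h2
    rw [side_pt_eq]
    exact mul_pos (inv_pos.2 (GFermi_pos _))
      (add_pos (mul_pos (exp_pos _) h2) (mul_pos (exp_pos _) h1))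
  obtain ⟨t, ht, e⟩ := PFace_par h ha
  obtain ⟨p, hp⟩ := ha.exists_level (t := 1 / 2) one_half_pos
  refine ⟨p, fun l h1 _ h3 => ?_⟩
  have h4 : B (qv a) (qv a) = 0 := by rw [ha.1.B_qv, h.qsh_eq.1]; ring
  have h5 : 0 < B (qv a) (nrm l) := by
    rw [e, B_smul_left, B_comm]
    exact mul_pos ht h1
  have h6 : B (nrm l) (nrm (a • l)) = 1 - 2 * B (qv a) (nrm l) ^ 2 := by
    rw [nrm_smul, ha.1.isLift_qv.2, h.qsh_eq.2, qm, B_sub_right, B_add_right, B_smul_right,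
      B_smul_right, B_smul_right, B_nrm_nrm, B_comm (nrm l) (cr _ _), B_cr_right, h4,
      B_comm (nrm l)]
    ring
  have h7 : 1 ≤ B (qv a) (nrm l) := by
    refine not_lt.1 fun h7 => h3 ?_
    rw [cross_iff_abs_B, h6, abs_lt]
    constructor <;> nlinarith
  have h8 := det3_sq (qv a) (nrm l) p.1
  rw [h4, B_nrm_nrm, p.2.1, show B (qv a) p.1 = -(1 / 2) by linarith] at h8
  by_contra h9
  have h10 : B (nrm l) p.1 ≤ 0 := not_lt.1 h9
  nlinarith [sq_nonneg (det3 (qv a) (nrm l) p.1), mul_nonneg h5.le (neg_nonneg.2 h10)]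

theorem TSep_two (h : Cur ρ μ) (p q : Pt) : μ {l | 0 ≤ side l p.1 ∧ side l q.1 ≤ 0} < ⊤ := by
  have := h.fin
  refine lt_of_le_of_lt (measure_mono ?_) (isCompact_lines p (sinh (dist p q))).measure_lt_top
  rintro l ⟨h1, h2⟩
  have h3 := (le_abs_self _).trans (abs_arsinh_side_le l p q)
  have h4 := arsinh_nonpos_iff.2 h2
  have h5 := sinh_le_sinh.2 (show arsinh (side l p.1) ≤ dist p q by linarith)
  rw [sinh_arsinh] at h5
  exact (abs_of_nonneg h1).trans_le h5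

/-- Only the leaves whose ends have trivial stabiliser matter. -/
theorem TSep_ae (h : NCur ρ Λ μ) {S T : Set Geo} (H : ∀ l ∈ S, l ∈ Λ →
    (∀ g : Γ, NoFix (ρ g) → ρ g • l.src ≠ l.src ∧ ρ g • l.tgt ≠ l.tgt) → l ∈ T) : μ S ≤ μ T := by
  have := h.null
  refine measure_mono_ae ?_
  filter_upwards [measure_eq_zero_iff_ae_notMem.1 h.car,
    measure_eq_zero_iff_ae_notMem.1 (h.cur.null_fix h.disc h.lam)] with l h1 h2 h3
  have h4 : l ∈ Λ := not_not.1 h1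
  refine H l h3 h4 fun g hg => ?_
  have h5 : g ≠ 1 := fun e => hg o (by rw [e, map_one, one_smul])
  exact ⟨fun e => h2 ⟨h4, g, h5, Or.inl e⟩, fun e => h2 ⟨h4, g, h5, Or.inr e⟩⟩

theorem sepSet_lt_top (h : NCur ρ Λ μ) (hab : Face (ρ a) (ρ b)) :
    μ (sepSet (ρ a) (ρ b)) < ⊤ := by
  obtain ⟨p, hp⟩ := TSep_pt hab.pos
  obtain ⟨q, hq⟩ := TSep_pt hab.symm.pos
  refine (TSep_ae h fun l hl h1 _ => ?_).trans_lt (TSep_two h.cur p q)
  have h2 := hq l.rev (by rw [side_rev]; linarith [hl.2.2.1]) (by rw [side_rev]; linarith [hl.2.2.2])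
    (h.lam.nc _ (h.lam.rev l h1) _ (h.lam.smul _ _ (h.lam.rev l h1)))
  rw [side_rev] at h2
  exact ⟨(hp l hl.1 hl.2.1 (h.lam.nc l h1 _ (h.lam.smul _ l h1))).le, by linarith⟩

theorem sepM_comm (h : Cur ρ μ) (a b : Isom) : sepM μ a b = sepM μ b a := by
  rw [sepM, sepM, ← h.rev.measureReal_preimage (measurableSet_sepSet b a).nullMeasurableSet]
  congr 1
  ext l
  simp only [sepSet, mem_preimage, mem_ofPred_eq, side_rev, neg_pos, neg_lt_zero]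
  tauto

theorem sepM_conj (h : Cur ρ μ) (ha : NoFix (ρ a)) (hb : NoFix (ρ b)) (g : Γ) :
    sepM μ (ρ (g * a * g⁻¹)) (ρ (g * b * g⁻¹)) = sepM μ (ρ a) (ρ b) := by
  rw [sepM, sepM, ← (h.smul g).measureReal_preimage (measurableSet_sepSet _ _).nullMeasurableSet]
  congr 1
  ext l
  simp only [sepSet, mem_preimage, mem_ofPred_eq, POs_conj, ha.lo_conj, ha.hi_conj, hb.lo_conj,
    hb.hi_conj, side_smul_circ_pos, side_smul_circ_neg]

theorem TSep_real (h : NCur ρ Λ μ) (hab : Face (ρ a) (ρ b)) :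
    μ (sepSet (ρ a) (ρ b)) = ENNReal.ofReal (sepM μ (ρ a) (ρ b)) :=
  (ofReal_measureReal (sepSet_lt_top h hab).ne).symm

theorem TSep_nonneg (μ : Measure Geo) (a b : Isom) : 0 ≤ sepM μ a b := measureReal_nonneg

theorem TSep_mem {a b : Isom} (ha : NoFix a) (hb : NoFix b) {l : Geo} (a1 : Ins a l.src.1)
    (a2 : Ins a l.tgt.1) (b1 : Ins b l.src.1) (b2 : Ins b l.tgt.1) (h1 : ccw (lo a) l.src l.tgt)
    (h2 : ccw l.src (lo b) l.tgt) : l ∈ sepSet a b :=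
  ⟨(side_pos_iff _ _).2 h1.cyc,
    (side_pos_iff _ _).2 ((ha.ccw_gap a1 a2 (PFrame_lo ha) (PFrame_hi ha)).1 h1.cyc),
    (side_neg_iff _ _).2 h2,
    (side_neg_iff _ _).2 ((hb.ccw_gap b2 b1 (PFrame_lo hb) (PFrame_hi hb)).1 h2.cyc.cyc).cyc⟩

theorem TSep_gap {c : Isom} (hc : NoFix c) {ξ η : Circ} (hη : Ins c η.1) (hξ : ¬ Ins c ξ.1) :
    ξ = lo c ∨ ξ ∈ arc (lo c) η := by
  refine or_iff_not_imp_left.2 fun h => ?_
  refine (ccw_total (Ne.symm h) (PObj_ne hη hξ).symm (PObj_ne hη (PFrame_lo hc)).symm).resolve_right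
    fun h1 => hξ (PFrame_ins2 ⟨hc, η, hη⟩ hη h1.cyc)

/-- Four points in cyclic order are not on alternating sides of a line. -/
theorem TSep_alt {x y z w : Circ} (h1 : ccw x y z) (h2 : ccw x z w) {l : Geo}
    (hx : 0 ≤ side l x.1) (hy : side l y.1 ≤ 0) (hz : 0 ≤ side l z.1) (hw : side l w.1 ≤ 0)
    (h : 0 < side l x.1 ∨ 0 < side l z.1) : False := by
  have h3 := (ccw_iff _ _ _).1 (h1.trans h2)
  have h4 := (ccw_iff _ _ _).1 (h1.trans' h2).cyc.cyc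
  rw [ccw_iff] at h1 h2
  have h5 := congrArg (B (nrm l)) (cramer3 x.1 y.1 z.1 w.1)
  rw [B_add_right, B_add_right, B_smul_right, B_smul_right, B_smul_right, B_smul_right,
    det3_swap x.1 z.1 w.1] at h5
  change _ * side l _ = _ * side l _ + _ * side l _ + _ * side l _ at h5
  have k1 := mul_nonneg h1.le (neg_nonneg.2 hw)
  have k2 := mul_nonneg h2.le (neg_nonneg.2 hy)
  have k3 := mul_nonneg h4.le hx
  have k4 := mul_nonneg h3.le hz
  rcases h with h | h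
  · linarith [mul_pos h4 h]
  · linarith [mul_pos h3 h]

theorem TSep_face {a b c : Isom} (h : Frame a b c) :
    Face a (b * a * b⁻¹) ∧ Face a (c * a * c⁻¹) := by
  have h1 := h.face_conj.1
  have h2 := (h1.conj b).symm
  refine ⟨by rwa [show b * (b⁻¹ * a * b) * b⁻¹ = a by group] at h2, ?_⟩
  rwa [h.eq_inv, show (a * b)⁻¹ * a * (a * b)⁻¹⁻¹ = b⁻¹ * a * b by group]

namespace NCur

theorem gap_le (h : NCur ρ Λ μ) (ha : NoFix (ρ a)) {x : Circ} (hx : Ins (ρ a) x.1) :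
    μ {l | (l.src = x ∨ l.src ∈ arc x (ρ a • x)) ∧ ¬ Ins (ρ a) l.tgt.1} ≤
      ENNReal.ofReal (ic μ (ρ a)) := by
  rcases ha.hyp_or_par with h1 | h1
  · rw [← h.cur.real_arc h1 ((h1.ins_iff _).1 hx)]
    refine TSep_ae h fun l hl _ h2 => ⟨hl.1, ?_⟩
    refine lt_of_le_of_ne (not_lt.1 fun k => hl.2 ((h1.ins_iff _).2 k)) fun k => (h2 a ha).2 ?_
    exact (h1.fix_iff _).2 ((side_eq_zero_iff _ _).1 k.symm)
  · refine (TSep_ae h (T := ∅) fun l hl _ h2 => (h2 a ha).2 ?_).trans (by simp)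
    exact (ha.fix_iff _).2 (Or.inl (not_not.1 fun k => hl.2 ((h1.ins_circ ⟨ha, x, hx⟩ _).2 k)))

/-- Lines between two gaps. -/
theorem TSep_gg (h : NCur ρ Λ μ) (h1 : Face (ρ a) (ρ c)) (h2 : Face (ρ c) (ρ a * ρ c * (ρ a)⁻¹)) :
    μ {l | ¬ Ins (ρ a) l.src.1 ∧ ¬ Ins (ρ c) l.tgt.1} ≤ ENNReal.ofReal (ic μ (ρ a)) := by
  refine le_trans ?_ ((h.cur.rev.measure_preimage_le _).trans (h.gap_le h1.1 h1.ins_lo))
  have h3 := h2.ins_lo
  rw [h2.1.lo_conj] at h3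
  exact measure_mono fun l hl => ⟨TSep_gap h2.1 h3 hl.2, hl.1⟩

theorem TSep_arc (h : NCur ρ Λ μ) (h1 : Face (ρ c) (ρ a)) {T : Set Geo} {x : ℝ} (hx : 0 ≤ x)
    (hT : μ T ≤ ENNReal.ofReal x) (H : ∀ l : Geo, ¬ Ins (ρ c) l.tgt.1 → l.src = lo (ρ a) ∨
      ccw (lo (ρ a)) l.src (lo (ρ c * ρ a * (ρ c)⁻¹)) → l ∈ T) : ic μ (ρ c) ≤ x := by
  by_cases hc : Hyp (ρ c)
  swap
  · rwa [GCurI_zero μ hc]
  rw [← ENNReal.ofReal_le_ofReal_iff hx, ← h.cur.real_arc hc ((hc.ins_iff _).1 h1.ins_lo)]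
  refine le_trans (measure_mono fun l hl => H l ?_ ?_) hT
  · rw [hc.ins_iff]
    exact hl.2.le.not_gt
  · rw [h1.2.1.lo_conj]
    exact hl.1

theorem TSep_conj (h : NCur ρ Λ μ) (h1 : Face (ρ a) (ρ c))
    (h2 : Face (ρ c) (ρ a * ρ c * (ρ a)⁻¹)) (h3 : Face (ρ a) (ρ c * ρ a * (ρ c)⁻¹)) :
    ic μ (ρ c) ≤ ic μ (ρ a) + sepM μ (ρ a) (ρ (c * a * c⁻¹)) := by
  have h4 := h1.conj (ρ c)
  rw [mul_inv_cancel_right] at h4
  refine h.TSep_arc h1.symm (T := {l | ¬ Ins (ρ a) l.src.1 ∧ ¬ Ins (ρ c) l.tgt.1} ∪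
    sepSet (ρ a) (ρ (c * a * c⁻¹))) (add_nonneg (ic_nonneg _ _) (TSep_nonneg _ _ _)) ?_
    fun l k1 k2 => ?_
  · rw [ENNReal.ofReal_add (ic_nonneg _ _) (TSep_nonneg _ _ _),
      ← TSep_real h (by rwa [POs_conj])]
    exact (measure_union_le _ _).trans (add_le_add_left (h.TSep_gg h1 h2) _)
  by_cases k3 : Ins (ρ a) l.src.1
  swap
  · exact Or.inl ⟨k3, k1⟩
  have k4 := k2.resolve_left fun e => PFrame_lo h1.1 (e ▸ k3)
  have k5 := h1.2.1.ccw_smul h1.symm.ins_lo k1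
  rw [← h1.1.lo_conj] at k5
  rw [POs_conj]
  exact Or.inr (TSep_mem h1.1 h4.1 k3 (h1.ins k1) (PFrame_ins2 h4.pos h3.symm.ins_lo k4)
    (h4.ins k1) (k4.trans k5) (k4.trans' k5))

theorem third_le (h : NCur ρ Λ μ) (hf : Frame (ρ a) (ρ b) (ρ c)) :
    ic μ (ρ c) ≤ ic μ (ρ a) + ic μ (ρ b) + 2 * sepM μ (ρ a) (ρ b) := by
  obtain ⟨-, f1, f2, f3⟩ := id hf
  have f4 := (TSep_face hf).2
  have f5 := f3.conj (ρ c)
  rw [mul_inv_cancel_right] at f5
  have e : ρ c * ρ a * (ρ c)⁻¹ = ρ (b⁻¹ * a * b⁻¹⁻¹) := by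
    rw [POs_conj, hf.eq_inv, map_inv]
    group
  have f6 : Face (ρ (b⁻¹ * b * b⁻¹⁻¹)) (ρ (b⁻¹ * a * b⁻¹⁻¹)) := by
    rw [POs_conj, POs_conj]
    exact f1.symm.conj _
  have r1 := TSep_real h f6
  rw [sepM_conj h.cur f2.1 f1.1, sepM_comm h.cur, ← e,
    show b⁻¹ * b * b⁻¹⁻¹ = b by group] at r1
  have n1 := ic_nonneg μ (ρ a)
  have n2 := ic_nonneg μ (ρ b)
  have n3 := TSep_nonneg μ (ρ a) (ρ b)
  refine h.TSep_arc f3 (T := {l | ¬ Ins (ρ a) l.src.1 ∧ ¬ Ins (ρ c) l.tgt.1} ∪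
    {l | ¬ Ins (ρ b) l.src.1 ∧ ¬ Ins (ρ c) l.tgt.1} ∪
      (sepSet (ρ a) (ρ b) ∪ sepSet (ρ b) (ρ c * ρ a * (ρ c)⁻¹))) (by positivity) ?_
    fun l k1 k2 => ?_
  · rw [two_mul, ENNReal.ofReal_add (by positivity) (by positivity), ENNReal.ofReal_add n1 n2,
      ENNReal.ofReal_add n3 n3]
    refine (measure_union_le _ _).trans (add_le_add ((measure_union_le _ _).trans (add_le_add
      (h.TSep_gg f3.symm (TSep_face hf.rot.rot).1) (h.TSep_gg f2 (TSep_face hf.rot.rot).2)))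
      ((measure_union_le _ _).trans ?_))
    rw [TSep_real h f1, r1]
  by_cases k3 : Ins (ρ a) l.src.1
  swap
  · exact Or.inl (Or.inl ⟨k3, k1⟩)
  by_cases k3' : Ins (ρ b) l.src.1
  swap
  · exact Or.inl (Or.inr ⟨k3', k1⟩)
  have k4 := k2.resolve_left fun e => PFrame_lo f1.1 (e ▸ k3)
  have k5 := f3.1.ccw_smul f3.ins_lo k1
  rw [← f1.1.lo_conj] at k5
  have k6 := (ccw_gaps f1 f2 f3 (PFrame_lo f1.1) (PFrame_lo f2.1) k1).2 hf.ord3
  rcases ccw_total k4.ne12 (PObj_ne k3' (PFrame_lo f2.1)) f1.lo_ne with k7 | k7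
  · exact Or.inr (Or.inl (TSep_mem f1.1 f2.1 k3 (f3.symm.ins k1) k3' (f2.ins k1) (k7.trans k6)
      (k7.trans' k6)))
  · exact Or.inr (Or.inr (TSep_mem f2.1 f5.2.1 k3' (f2.ins k1)
      (PFrame_ins2 f4.symm.pos f4.symm.ins_lo k4) (f5.symm.ins k1) (k7.trans' (k4.trans k5))
      (k4.trans' k5)))

theorem conj_le (h : NCur ρ Λ μ) {x y : Γ} (hf : Frame (ρ a) (ρ x) (ρ y)) :
    ic μ (ρ x) ≤ ic μ (ρ a) + sepM μ (ρ a) (ρ (x * a * x⁻¹)) ∧
      ic μ (ρ y) ≤ ic μ (ρ a) + sepM μ (ρ a) (ρ (x * a * x⁻¹)) := by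
  refine ⟨h.TSep_conj hf.2.1 (TSep_face hf.rot).2 (TSep_face hf).1, ?_⟩
  have h1 := h.TSep_conj hf.2.2.2.symm (TSep_face hf.rot.rot).1 (TSep_face hf).2
  have h2 : NoFix (ρ (y * a * y⁻¹)) := by
    rw [POs_conj]
    exact hf.2.1.1.conj _
  have e : y = (a * x)⁻¹ := h.disc.injective (by rw [hf.eq_inv, map_inv, map_mul])
  rwa [← sepM_conj h.cur hf.2.1.1 h2 x, sepM_comm h.cur,
    show x * (y * a * y⁻¹) * x⁻¹ = a by rw [e]; group] at h1

theorem sep_le_third (h : NCur ρ Λ μ) (hf : Frame (ρ a) (ρ b) (ρ c)) :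
    sepM μ (ρ a) (ρ b) ≤ ic μ (ρ c) := by
  obtain ⟨-, f1, f2, f3⟩ := id hf
  rw [← ENNReal.ofReal_le_ofReal_iff (ic_nonneg _ _), ← TSep_real h f1]
  refine (TSep_ae h fun l hl h1 _ => ?_).trans (h.gap_le f3.1 f3.ins_lo)
  obtain ⟨s1, s2, s3, s4⟩ := hl
  rw [side_pos_iff] at s1 s2
  rw [side_neg_iff] at s3 s4
  have nc : ∀ g : Γ, ¬ Cross l (ρ g • l) := fun g => h.lam.nc l h1 _ (h.lam.smul g l h1)
  have c1 : ccw (hi (ρ a)) l.src (lo (ρ b)) := (s3.trans s2).cyc.cyc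
  have c2 : ccw (hi (ρ b)) l.tgt (lo (ρ a)) := s4.trans' s1
  have i1 := hf.ins_of_arc c1
  have i2 : Ins (ρ a) l.tgt.1 := PFrame_ins2 f1.pos f1.ins_hi c2
  have i3 : Ins (ρ b) l.tgt.1 := PFrame_ins1 f2.pos f1.symm.ins_lo c2
  have k1 : ¬ Ins (ρ c) l.tgt.1 := by
    rcases hf.cases l.tgt with k | k | k | k | k | k
    · exact (k i2).elim
    · exact (k i3).elim
    · exact k
    · exact (s3.asymm (s2.cyc.cyc.trans' k)).elim
    · rcases hf.cross_of_arcs (l := l.rev) k c1 with k | k <;>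
        rw [Geo.smul_rev, cross_rev_left, cross_rev_right] at k <;> exact (nc _ k).elim
    · rcases hf.rot.rot.cross_of_arcs c1 k with k | k <;> exact (nc _ k).elim
  refine ⟨Or.inr ?_, k1⟩
  have k2 := f3.1.ccw_smul f3.ins_lo k1
  have k3 : ccw (lo (ρ a)) l.src (lo (ρ b)) := (s3.trans s1).cyc.cyc
  have k4 : ccw (lo (ρ a)) (lo (ρ b)) (ρ c • lo (ρ a)) := by
    have k5 := hf.face_conj.2.2.2
    have k6 := hf.ord3
    rw [← f1.1.lo_conj, hf.eq_inv, show (ρ a * ρ b)⁻¹ * ρ a * (ρ a * ρ b)⁻¹⁻¹ =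
      (ρ b)⁻¹ * ρ a * ρ b by group]
    exact ccw.trans' (ccw.cyc (ccw.cyc k6)) (ccw.cyc (ccw.cyc k5))
  exact k3.trans k4

theorem sep_le_add (h : NCur ρ Λ μ) {m : Γ} (hm : Sepa ρ m a b) (hΛ : ax (ρ m) ∈ Λ) :
    sepM μ (ρ a) (ρ b) ≤ sepM μ (ρ a) (ρ m) + sepM μ (ρ m⁻¹) (ρ b) := by
  obtain ⟨m1, m2, m3⟩ := hm
  have n1 := TSep_nonneg μ (ρ a) (ρ m)
  have n2 := TSep_nonneg μ (ρ m⁻¹) (ρ b)
  rw [← ENNReal.ofReal_le_ofReal_iff (add_nonneg n1 n2), ENNReal.ofReal_add n1 n2,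
    ← TSep_real h m2, ← TSep_real h m3, ← TSep_real h (PAdj_tr m1 m2 m3)]
  refine (TSep_ae h fun l hl h1 h2 => ?_).trans (measure_union_le _ _)
  have k0 : ∀ ξ : Circ, ρ m • ξ = ξ → side l ξ.1 ≠ 0 := fun ξ k1 k2 => by
    rcases (side_eq_zero_iff _ _).1 k2 with rfl | rfl
    · exact (h2 m m1.noFix).1 k1
    · exact (h2 m m1.noFix).2 k1
  have k1 := k0 _ ((m1.fix_iff _).2 (Or.inl rfl))
  have k2 := k0 _ ((m1.fix_iff _).2 (Or.inr rfl))
  have k3 := (not_lt.1 (h.lam.nc l h1 _ hΛ)).lt_of_ne (mul_ne_zero k1 k2).symm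
  rcases mul_pos_iff.1 k3 with k | k
  · refine Or.inr ⟨?_, ?_, hl.2.2⟩
    · rw [map_inv, m1.noFix.lo_inv, m1.hi_eq]
      exact k.1
    · rw [map_inv, m1.noFix.hi_inv, m1.lo_eq]
      exact k.2
  · exact Or.inl ⟨hl.1, hl.2.1, m1.lo_eq ▸ k.2, m1.hi_eq ▸ k.1⟩

theorem four (h : NCur ρ Λ μ) (hab : Face (ρ a) (ρ b)) (hac : Face (ρ a) (ρ c))
    (had : Face (ρ a) (ρ d)) (hbc : Face (ρ b) (ρ c)) (hbd : Face (ρ b) (ρ d))
    (hcd : Face (ρ c) (ρ d)) (hi : IL ρ a b c d) :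
    sepM μ (ρ a) (ρ c) + sepM μ (ρ b) (ρ d) ≤ sepM μ (ρ a) (ρ b) + sepM μ (ρ c) (ρ d) := by
  rw [sepM_comm h.cur (ρ b), sepM_comm h.cur (ρ c), sepM, sepM, sepM, sepM]
  have t1 := (sepSet_lt_top h hab).ne
  have t2 := (sepSet_lt_top h hcd.symm).ne
  rw [← measureReal_union_add_inter (measurableSet_sepSet _ _) (sepSet_lt_top h hac).ne
    (sepSet_lt_top h hbd.symm).ne, ← measureReal_union_add_inter (measurableSet_sepSet _ _) t1 t2]
  have o : ∀ {x y z w : Circ}, ¬ Ins (ρ a) x.1 → ¬ Ins (ρ c) y.1 → ¬ Ins (ρ b) z.1 →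
      ¬ Ins (ρ d) w.1 → ccw x y z ∧ ccw x z w := fun h1 h2 h3 h4 =>
    ⟨(ccw_gaps hac hbc.symm hab.symm h1 h2 h3).2 hi.1,
      ((ccw_gaps hbd had.symm hab h3 h4 h1).2 hi.2).cyc.cyc⟩
  have g1 : ∀ {g : Isom} (l : Geo), NoFix g → ¬ (0 < side l (lo g).1 ∧ 0 < side l (HRT.hi g).1) →
      ∃ ξ : Circ, ¬ Ins g ξ.1 ∧ side l ξ.1 ≤ 0 := fun l h1 h2 =>
    (not_and_or.1 h2).elim (fun k => ⟨_, PFrame_lo h1, not_lt.1 k⟩)
      fun k => ⟨_, PFrame_hi h1, not_lt.1 k⟩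
  have g2 : ∀ {g : Isom} (l : Geo), NoFix g → ¬ (side l (lo g).1 < 0 ∧ side l (HRT.hi g).1 < 0) →
      ∃ ξ : Circ, ¬ Ins g ξ.1 ∧ 0 ≤ side l ξ.1 := fun l h1 h2 =>
    (not_and_or.1 h2).elim (fun k => ⟨_, PFrame_lo h1, not_lt.1 k⟩)
      fun k => ⟨_, PFrame_hi h1, not_lt.1 k⟩
  refine add_le_add (measureReal_mono ?_ (measure_union_ne_top t1 t2))
    (measureReal_mono ?_ (measure_ne_top_of_subset inter_subset_left t1))
  · rintro l (⟨s1, s2, s3⟩ | ⟨s1, s2, s3⟩) <;> by_contra k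
    · obtain ⟨z, z1, z2⟩ := g2 l hbc.1 fun k1 => k (Or.inl ⟨s1, s2, k1⟩)
      obtain ⟨w, w1, w2⟩ := g1 l hcd.2.1 fun k1 => k (Or.inr ⟨k1.1, k1.2, s3⟩)
      obtain ⟨o1, o2⟩ := o (PFrame_lo hab.1) (PFrame_lo hcd.1) z1 w1
      exact TSep_alt o1 o2 s1.le s3.1.le z2 w2 (Or.inl s1)
    · obtain ⟨x, x1, x2⟩ := g1 l hab.1 fun k1 => k (Or.inl ⟨k1.1, k1.2, s3⟩)
      obtain ⟨y, y1, y2⟩ := g2 l hcd.1 fun k1 => k (Or.inr ⟨s1, s2, k1⟩)
      obtain ⟨o1, o2⟩ := o x1 y1 (PFrame_lo hbc.1) (PFrame_lo hcd.2.1)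
      exact TSep_alt (o1.trans' o2) (o1.trans o2).cyc y2 s3.1.le s1.le x2 (Or.inr s1)
  · rintro l ⟨⟨s1, s2, s3⟩, s4, s5, s6⟩
    exact ⟨⟨s1, s2, s6⟩, s4, s5, s3⟩

end NCur

end HRT
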