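import Pool.Agent.Work.MP_35beee_gt.TSep
import Pool.Agent.Work.MP_35beee_gt.PDual

/-!
Auxiliary facts for `TSpike`: short segments and deep points see little mass.
-/

namespace HRT

open Set Filter Topology Real MeasureTheory

variable {Γ : Type*} [Group Γ] {ρ : Γ →* Isom} {N : ℝ → ℝ} {Λ : Set Geo} {μ : Measure Geo}
  {O : Set Γ} {a : Γ}

theorem TSpike_cont (v : V) : Continuous fun l : Geo => side l v :=
  continuous_nrm.B' continuous_const

theorem TSpike_contp (u : V) (l : Geo) : Continuous fun s => B u (pt l s).1 :=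
  continuous_const.B'
    (GMet_cont_val.comp (continuous_pt.comp (continuous_const.prodMk continuous_id)))

/-- Lines that meet a closed ball. -/
def TSpikeN (p : Pt) (r : ℝ) : Set Geo := {l | |arsinh (side l p.1)| ≤ r}

/-- Lines that separate a point from the gap. -/
def TSpikeD (g : Isom) (p : Pt) : Set Geo :=
  {l | 0 < side l (lo g).1 ∧ 0 < side l (hi g).1 ∧ side l p.1 ≤ 0}

theorem TSpike_abs (y r : ℝ) : |arsinh y| ≤ r ↔ |y| ≤ sinh r := by
  rw [← sinh_le_sinh, ← abs_sinh, sinh_arsinh]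

theorem TSpikeN_meas (p : Pt) (r : ℝ) : MeasurableSet (TSpikeN p r) :=
  (isClosed_le (continuous_arsinh.comp (TSpike_cont _)).abs continuous_const).measurableSet

theorem TSpikeD_meas (g : Isom) (p : Pt) : MeasurableSet (TSpikeD g p) :=
  (isOpen_lt continuous_const (TSpike_cont _)).measurableSet.inter
    ((isOpen_lt continuous_const (TSpike_cont _)).measurableSet.inter
      (isClosed_le (TSpike_cont _) continuous_const).measurableSet)

theorem TSpikeN_fin (h : Cur ρ μ) (p : Pt) (r : ℝ) : μ (TSpikeN p r) ≠ ⊤ := by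
  have := h.fin
  have e : TSpikeN p r = {l | |side l p.1| ≤ sinh r} := Set.ext fun l => TSpike_abs _ _
  rw [e]
  exact (isCompact_lines p _).measure_lt_top.ne

theorem TSpikeN_sub {x p : Pt} {r s : ℝ} (h : dist x p + r ≤ s) : TSpikeN p r ⊆ TSpikeN x s := by
  intro l hl
  have h1 := abs_arsinh_side_le l x p
  have h2 : |arsinh (side l p.1)| ≤ r := hl
  have h3 := abs_sub_abs_le_abs_sub (arsinh (side l x.1)) (arsinh (side l p.1))
  show |arsinh (side l x.1)| ≤ s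
  linarith

theorem TSpikeN_of {l : Geo} {p q : Pt} (h : side l p.1 * side l q.1 ≤ 0) :
    l ∈ TSpikeN p (dist p q) := (TSpike_abs _ _).2 (GSrt_abs h)

theorem TSpike_le (h : NCur ρ Λ μ) (m : Geo) {E F : Set Geo}
    (H : ∀ l ∈ Λ, l ≠ m → l ≠ m.rev → l ∈ E → l ∈ F) : μ E ≤ μ F := by
  have := h.null
  have h1 : μ (Λᶜ ∪ ({m} ∪ {m.rev})) = 0 :=
    measure_union_null h.car (measure_union_null (measure_singleton _) (measure_singleton _))
  refine (measure_mono (t := F ∪ (Λᶜ ∪ ({m} ∪ {m.rev}))) fun l hl => ?_).trans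
    ((measure_union_le _ _).trans (by rw [h1, add_zero]))
  by_contra h2
  simp only [mem_union, mem_compl_iff, mem_singleton_iff, not_or, not_not] at h2
  exact h2.1 (H l h2.2.1 h2.2.2.1 h2.2.2.2 hl)

theorem TSpike_le' (h : NCur ρ Λ μ) {E F : Set Geo} (H : ∀ l ∈ Λ, l ∈ E → l ∈ F) : μ E ≤ μ F :=
  TSpike_le h (Classical.arbitrary Geo) fun l hl _ _ => H l hl

theorem TSpike_lim {s : ℕ → Set Geo} (h1 : ∀ n, MeasurableSet (s n)) (h2 : Antitone s)
    (h3 : μ (s 0) ≠ ⊤) (h4 : μ (⋂ n, s n) = 0) {η : ℝ} (hη : 0 < η) :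
    ∃ n, μ (s n) ≤ ENNReal.ofReal η := by
  have h5 := tendsto_measure_iInter_atTop (fun n => (h1 n).nullMeasurableSet) h2 ⟨0, h3⟩
  rw [h4] at h5
  exact ((h5.eventually (gt_mem_nhds (ENNReal.ofReal_pos.2 hη))).exists).imp fun _ h => h.le

theorem TSpike_zero (h : NCur ρ Λ μ) (x : Pt) : μ {l | side l x.1 = 0} = 0 := by
  refine le_antisymm (le_trans ?_ (measure_empty (μ := μ)).le) bot_le
  by_cases h1 : ∃ m ∈ Λ, side m x.1 = 0
  · obtain ⟨m, hm, h1⟩ := h1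
    exact TSpike_le h m fun l hl h2 h3 h4 => h.lam.nc m hm l hl (cross_of_common h1 h4 h2 h3)
  · exact TSpike_le' h fun l hl h2 => h1 ⟨l, hl, h2⟩

theorem TSpike_near (h : NCur ρ Λ μ) {η : ℝ} (hη : 0 < η) (x : Pt) :
    ∃ δ > 0, μ (TSpikeN x δ) ≤ ENNReal.ofReal η := by
  obtain ⟨n, hn⟩ := TSpike_lim (μ := μ) (s := fun n : ℕ => TSpikeN x (1 / (n + 1)))
    (fun n => TSpikeN_meas _ _)
    (fun i j hij => TSpikeN_sub (by
      rw [dist_self, zero_add]
      exact Nat.one_div_le_one_div hij))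
    (TSpikeN_fin h.cur _ _) (measure_mono_null (fun l hl => by
      by_contra h1
      obtain ⟨n, hn⟩ := exists_nat_one_div_lt (abs_pos.2 (arsinh_eq_zero_iff.not.2 h1))
      exact hn.not_ge (mem_iInter.1 hl n)) (TSpike_zero h x)) hη
  exact ⟨_, Nat.one_div_pos_of_nat, hn⟩

theorem TSpike_short (h : NCur ρ Λ μ) {η : ℝ} (hη : 0 < η) : ∃ r > 0, ∀ p q : Pt, dist p q < r →
    μ {l | side l p.1 * side l q.1 ≤ 0} ≤ ENNReal.ofReal η := by
  obtain ⟨R, hR⟩ := h.lam.core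
  obtain ⟨r, hr, H⟩ : ∃ r > 0, ∀ p ∈ Metric.closedBall o (R + 1),
      μ (TSpikeN p r) ≤ ENNReal.ofReal η := by
    refine (isCompact_closedBall o (R + 1)).induction_on
      (p := fun s => ∃ r > 0, ∀ p ∈ s, μ (TSpikeN p r) ≤ ENNReal.ofReal η)
      ⟨1, one_pos, fun _ h => h.elim⟩ (fun s t hst ⟨r, h1, h2⟩ => ⟨r, h1, fun p hp => h2 p (hst hp)⟩)
      (fun s t ⟨r, h1, h2⟩ ⟨r', h1', h2'⟩ => ⟨min r r', lt_min h1 h1', fun p hp => ?_⟩)
      fun x _ => ?_
    · rcases hp with hp | hp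
      · exact (measure_mono (TSpikeN_sub (by simp))).trans (h2 p hp)
      · exact (measure_mono (TSpikeN_sub (by simp))).trans (h2' p hp)
    · obtain ⟨δ, h1, h2⟩ := TSpike_near h hη x
      refine ⟨_, mem_nhdsWithin_of_mem_nhds (Metric.ball_mem_nhds x (half_pos h1)), δ / 2,
        half_pos h1, fun p hp => (measure_mono (TSpikeN_sub ?_)).trans h2⟩
      rw [Metric.mem_ball, dist_comm] at hp
      linarith
  refine ⟨min r 1, lt_min hr one_pos, fun p q hpq => ?_⟩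
  rw [lt_min_iff] at hpq
  by_cases h1 : ∃ l ∈ Λ, side l p.1 * side l q.1 ≤ 0
  · obtain ⟨l, hl, h1⟩ := h1
    obtain ⟨g, hg⟩ := hR l hl (fer l p.1)
    have h2 : |arsinh (side l p.1)| ≤ dist p q := TSpikeN_of h1
    rw [← dist_foot] at h2
    have h3 : (ρ g)⁻¹ • p ∈ Metric.closedBall o (R + 1) := by
      rw [Metric.mem_closedBall, ← dist_smul (ρ g), smul_inv_smul]
      linarith [dist_triangle_right p (ρ g • o) (pt l (fer l p.1))]
    refine le_trans (measure_mono fun m hm => TSpikeN_sub (x := p) (s := r)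
      (by rw [dist_self]; linarith) (TSpikeN_of hm)) (le_trans (le_of_eq ?_) (H _ h3))
    rw [← (h.cur.smul g).measure_preimage (TSpikeN_meas p r).nullMeasurableSet]
    congr 1
    ext m
    simp only [TSpikeN, mem_preimage, mem_ofPred_eq]
    rw [← side_smul_pt (ρ g) m, smul_inv_smul]
  · exact (TSpike_le' h (F := ∅) fun l hl h2 => h1 ⟨l, hl, h2⟩).trans (by simp)

theorem TSpike_root {A l : Geo} {s t : ℝ} (hst : s ≤ t) (h1 : 0 ≤ side l (pt A s).1)
    (h2 : side l (pt A t).1 ≤ 0) : ∃ u, s ≤ u ∧ u ≤ t ∧ side l (pt A u).1 = 0 := by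
  obtain ⟨u, hu, h3⟩ :=
    intermediate_value_Icc' hst (TSpike_contp (nrm l) A).continuousOn ⟨h2, h1⟩
  exact ⟨u, hu.1, hu.2, h3⟩

theorem TSpike_ev {A l : Geo} (h : 0 < side l A.src.1) :
    ∀ᶠ s in atBot, 0 < side l (pt A s).1 := by
  simpa only [fermi_zero, side] using (toB_fermi_atBot A 0).eventually_pos (n := nrm l) h

theorem TSpike_mono {A l : Geo} (h : 0 < side l A.src.1) {s t : ℝ} (hst : s ≤ t)
    (h1 : side l (pt A s).1 ≤ 0) : side l (pt A t).1 ≤ 0 := by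
  rw [side_pt_eq] at h1 ⊢
  have hk := inv_pos.2 (GFermi_pos A)
  have h2 := nonpos_of_mul_nonpos_right h1 hk
  have h3 : exp (-t) * side l A.src.1 ≤ exp (-s) * side l A.src.1 :=
    mul_le_mul_of_nonneg_right (exp_le_exp.2 (by linarith)) h.le
  have h4 : side l A.tgt.1 ≤ 0 := nonpos_of_mul_nonpos_right
    (by linarith [mul_pos (exp_pos (-s)) h]) (exp_pos s)
  have h5 : exp t * side l A.tgt.1 ≤ exp s * side l A.tgt.1 :=
    mul_le_mul_of_nonpos_right (exp_le_exp.2 hst) h4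
  exact mul_nonpos_of_nonneg_of_nonpos hk.le (by linarith)

theorem TSpike_val (u : V) (l : Geo) (t : ℝ) : B u (pt l t).1 =
    (√(-2 * B l.src.1 l.tgt.1))⁻¹ * (exp (-t) * B u l.src.1 + exp t * B u l.tgt.1) := by
  rw [GFermi_val]
  simp only [B_smul_right, B_add_right]

/-- A point on the left of all leaves that have the gap on their left. -/
theorem TSpike_deep (h : NCur ρ Λ μ) (ha : NoFix (ρ a)) {A : Geo} (hA : A.src = lo (ρ a)) :
    ∃ q : Pt, ∀ l ∈ Λ, 0 < side l (lo (ρ a)).1 → 0 < side l (hi (ρ a)).1 → 0 ≤ side l q.1 := by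
  rcases ha.hyp_or_par with h1 | h1
  · refine ⟨pt (ax (ρ a)) 0, fun l _ h2 h3 => ?_⟩
    rw [h1.lo_eq] at h2
    rw [h1.hi_eq] at h3
    rw [side_pt_eq]
    have := GFermi_pos (ax (ρ a))
    positivity
  · obtain ⟨η, hη, H⟩ := exists_cusp_const
    have h2 : Tendsto (fun s => |B (qv (ρ a)) (pt A s).1|) atBot (𝓝 0) := by
      simp only [TSpike_val, hA, ha.B_qv_lo, mul_zero, zero_add]
      simpa using ((tendsto_exp_atBot.mul_const (B (qv (ρ a)) A.tgt.1)).const_mul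
        (√(-2 * B (lo (ρ a)).1 A.tgt.1))⁻¹).abs
    obtain ⟨s₀, hs⟩ := eventually_atBot.1
      (h2.eventually (gt_mem_nhds (sinh_pos_iff.2 (half_pos hη))))
    refine ⟨pt A s₀, fun l hl h3 _ => by_contra fun h4 => ?_⟩
    obtain ⟨s₁, h5, h6⟩ := ((TSpike_ev (hA ▸ h3)).and (eventually_le_atBot s₀)).exists
    obtain ⟨u, -, h7, h8⟩ := TSpike_root h6 h5.le (not_le.1 h4).le
    refine h.lam.nc l hl _ (h.lam.smul a l hl) (H (ρ a) l (fer l (pt A u).1) h1
      (by rw [← h1.lo_eq]; exact h3.ne') ?_)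
    rw [eq_pt_of_side h8]
    have h9 := ha.sinh_sq_dist (pt A u)
    rw [h1.qsh_eq.1, zero_pow two_ne_zero, zero_add, sq_eq_sq_iff_abs_eq_abs,
      abs_of_nonneg (sinh_nonneg_iff.2 (by positivity))] at h9
    have h10 := hs u h7
    rw [← h9, sinh_lt_sinh] at h10
    linarith

theorem TSpike_start (h : NCur ρ Λ μ) (ha : NoFix (ρ a)) {A : Geo} (hA : A.src = lo (ρ a))
    {η : ℝ} (hη : 0 < η) : ∃ s, μ (TSpikeD (ρ a) (pt A s)) ≤ ENNReal.ofReal η := by
  obtain ⟨q, hq⟩ := TSpike_deep h ha hA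
  obtain ⟨n, hn⟩ := TSpike_lim (μ := μ) (s := fun n : ℕ => TSpikeD (ρ a) (pt A (-n)))
    (fun n => TSpikeD_meas _ _)
    (fun i j hij l hl => ⟨hl.1, hl.2.1, TSpike_mono (hA ▸ hl.1)
      (neg_le_neg (Nat.cast_le.2 hij)) hl.2.2⟩)
    (ne_top_of_le_ne_top (TSpikeN_fin h.cur _ _) (TSpike_le' h fun l hl h1 =>
      TSpikeN_of (mul_nonpos_of_nonpos_of_nonneg h1.2.2 (hq l hl h1.1 h1.2.1))))
    (measure_mono_null (t := ∅) (fun l hl => by
      obtain ⟨n, h1⟩ := ((tendsto_neg_atTop_atBot.comp tendsto_natCast_atTop_atTop).eventually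
        (TSpike_ev (A := A) (hA ▸ (mem_iInter.1 hl 0).1))).exists
      exact h1.not_ge (mem_iInter.1 hl n).2.2) measure_empty) hη
  exact ⟨_, hn⟩

theorem TSpike_ray {g : Isom} {m : Geo} (hm : Ins g m.tgt.1) (u₀ : ℝ) {P : Pt → Prop}
    (hP : ∀ u, u₀ ≤ u → P (pt m u)) : ∃ L : ℝ, ∀ t ≥ L, ∃ p : Pt, -B (qv g) p.1 = t ∧ P p := by
  have h1 : Tendsto (fun u => -B (qv g) (pt m u).1) atTop atTop := by
    simpa only [fermi_zero, B_comm (qv g)] using GBdry_negB (toB_fermi_atTop m 0)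
      (tendsto_const_nhds (x := qv g)) (by rw [B_comm]; exact hm)
  refine ⟨-B (qv g) (pt m u₀).1, fun t ht => ?_⟩
  obtain ⟨u, hu, h2⟩ := isPreconnected_Ici.intermediate_value_Ici (self_mem_Ici (a := u₀))
    (le_principal_iff.2 (Ici_mem_atTop u₀)) (TSpike_contp (qv g) m).neg.continuousOn h1 ht
  exact ⟨_, h2, hP u hu⟩

theorem TSpike_points (h : NCur ρ Λ μ) (ha : Pos (ρ a)) {η : ℝ} (hη : 0 < η) : ∃ L : ℝ,
    ∀ t ≥ L, ∃ p : Pt, -B (qv (ρ a)) p.1 = t ∧ μ (TSpikeD (ρ a) p) ≤ ENNReal.ofReal η := by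
  obtain ⟨na, ξ, hξ⟩ := ha
  have hne : lo (ρ a) ≠ ξ := fun e => PAdj_lo na (e ▸ hξ)
  obtain ⟨A, hA, hA'⟩ : ∃ A : Geo, A.src = lo (ρ a) ∧ A.tgt = ξ := ⟨Geo.mk' _ _ hne, rfl, rfl⟩
  obtain ⟨s₀, hs⟩ := TSpike_start h na hA (half_pos hη)
  obtain ⟨r, hr, H⟩ := TSpike_short h (half_pos hη)
  by_cases hS : {s | s₀ ≤ s ∧ ∃ l ∈ Λ, side l (pt A s).1 = 0}.Nonempty
  · have hb : BddBelow {s | s₀ ≤ s ∧ ∃ l ∈ Λ, side l (pt A s).1 = 0} := ⟨s₀, fun s h => h.1⟩
    obtain ⟨s, hsS, h1⟩ := exists_lt_of_csInf_lt hS (lt_add_of_pos_right _ hr)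
    have h2 := csInf_le hb hsS
    have h3 := le_csInf hS fun s h => h.1
    have h4 : ∀ u, s₀ ≤ u → ∀ l ∈ Λ, side l (pt A u).1 = 0 → sInf _ ≤ u :=
      fun u hu l hl e => csInf_le hb ⟨hu, l, hl, e⟩
    generalize sInf {s | s₀ ≤ s ∧ ∃ l ∈ Λ, side l (pt A s).1 = 0} = s₁ at h1 h2 h3 h4
    obtain ⟨-, m, hm, h5⟩ := hsS
    have h6 : ∀ u, μ (TSpikeD (ρ a) (pt m u)) ≤ ENNReal.ofReal η := by
      intro u
      refine (TSpike_le h m (F := TSpikeD (ρ a) (pt A s₀) ∪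
        {l | side l (pt A s₁).1 * side l (pt A s).1 ≤ 0}) fun l hl n1 n2 hD => ?_).trans
        ((measure_union_le _ _).trans ((add_le_add hs (H _ _ ?_)).trans ?_))
      · have h7 : side l (pt A s).1 ≤ 0 := by
          by_contra h7
          rcases hD.2.2.eq_or_lt with e | e
          · exact h.lam.nc m hm l hl (cross_of_common (side_pt m u) e n1 n2)
          · rw [← eq_pt_of_side h5] at h7
            exact h.lam.nc m hm l hl
              (cross_of_side_mul_neg (mul_neg_of_neg_of_pos e (not_le.1 h7)))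
        by_cases h8 : side l (pt A s₀).1 ≤ 0
        · exact Or.inl ⟨hD.1, hD.2.1, h8⟩
        · refine Or.inr (mul_nonpos_of_nonneg_of_nonpos (by_contra fun h9 => ?_) h7)
          obtain ⟨v, v1, v2, v3⟩ := TSpike_root h3 (not_le.1 h8).le (not_le.1 h9).le
          rw [le_antisymm v2 (h4 v v1 l hl v3)] at v3
          exact h9 v3.ge
      · rw [dist_pt, abs_sub_comm, abs_of_nonneg (by linarith)]
        linarith
      · rw [← ENNReal.ofReal_add (half_pos hη).le (half_pos hη).le, add_halves]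
    by_cases h7 : Ins (ρ a) m.tgt.1
    · exact TSpike_ray h7 0 fun u _ => h6 u
    · refine TSpike_ray (m := m.rev) (by_contra fun h8 => ?_) 0 fun u _ => pt_rev m u ▸ h6 _
      have h9 : B (qv (ρ a)) (pt A s).1 < 0 := by
        rw [TSpike_val, hA, na.B_qv_lo, mul_zero, zero_add, hA']
        exact mul_neg_of_pos_of_neg (inv_pos.2 (hA ▸ hA' ▸ GFermi_pos A))
          (mul_neg_of_pos_of_neg (exp_pos _) hξ)
      rw [← eq_pt_of_side h5, TSpike_val] at h9
      have h10 : 0 ≤ B (qv (ρ a)) m.tgt.1 := not_lt.1 h7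
      have h11 : 0 ≤ B (qv (ρ a)) m.src.1 := not_lt.1 h8
      exact h9.not_ge (by positivity)
  · refine TSpike_ray (m := A) (hA' ▸ hξ) s₀ fun u hu => (TSpike_le' h
      (F := TSpikeD (ρ a) (pt A s₀)) fun l hl hD =>
      ⟨hD.1, hD.2.1, by_contra fun h1 => ?_⟩).trans
        (hs.trans (ENNReal.ofReal_le_ofReal (by linarith)))
    obtain ⟨v, v1, -, v3⟩ := TSpike_root hu (not_le.1 h1).le hD.2.2
    exact hS ⟨v, v1, l, hl, v3⟩

end HRT
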