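import Pool.Agent.Work.MP_35beee_gt.TSep
import Pool.Agent.Work.MP_35beee_gt.PDual
import Pool.Agent.Work.MP_35beee_gt.TSpikeA

/-!
Pants decompositions and dual curves that have small intersection with a current without atoms.

Plan. `exists_short`: a line of `Λ` that meets a small ball forces the ball to be near the orbit
of `o` (`Lam.core`); compactness, and at most two lines of `Λ` pass through a point.
`exists_points`: let `D p` be the mass of the lines that separate `p` from the gap of `a`. Along the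
line from `lo a` to a point inside `a` the sets decrease to the empty set, so `D ≤ η` at some point
`r s₀`. If no line of `Λ` crosses at a parameter `s ≥ s₀` then `D` is constant; otherwise there is a
first crossing leaf (`Λ` is closed), `D` does not increase along the leaf, and one end of the leaf is
inside `a`, where the level tends to infinity; intermediate value theorem.
`exists_adj_small`: as `exists_adj_le` in `PBers`, with `r` from `exists_short`; a line that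
separates `a` from `m` separates `p` from one of the two gaps.
`exists_spair_small`: minimise `exp (λ * sepM) * TT` over adjacent pairs in `Q` (as in `exists_spair`), with
`ptolemy` and `four`; `TT ≥ 2` by `le_TT`, so for large `λ` the minimiser has small mass.
`exists_pants_small`: the induction of `exists_pants` (the aux lemmas of `PBers` can be used),
`third_le`, `conj_le`. `exists_spike`: the construction of `IsPants.exists_dual`, with
`sep_le_add`, `sep_le_third`, `third_le`, `conj_le`; `Lam.ic_eq_zero`.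
-/

namespace HRT

open Set Filter Topology Real MeasureTheory

variable {Γ : Type*} [Group Γ] {ρ : Γ →* Isom} {N : ℝ → ℝ} {Λ : Set Geo} {μ : Measure Geo}
  {O : Set Γ} {a : Γ}

theorem TSpike_sep (h : Cur ρ μ) (x y : Isom) (p q : Pt) : μ (sepSet x y) ≤
    μ (TSpikeD x p) + μ (TSpikeD y q) + μ {l | side l p.1 * side l q.1 ≤ 0} := by
  rw [← h.rev.measure_preimage (TSpikeD_meas y q).nullMeasurableSet]
  refine le_trans (measure_mono fun l hl => ?_)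
    ((measure_union_le _ _).trans (add_le_add_left (measure_union_le _ _) _))
  by_cases h1 : side l p.1 ≤ 0
  · exact Or.inl (Or.inl ⟨hl.1, hl.2.1, h1⟩)
  by_cases h2 : side l q.1 ≤ 0
  · exact Or.inr (mul_nonpos_of_nonneg_of_nonpos (not_le.1 h1).le h2)
  · refine Or.inl (Or.inr ?_)
    simp only [mem_preimage, TSpikeD, mem_ofPred_eq, side_rev]
    exact ⟨neg_pos.2 hl.2.2.1, neg_pos.2 hl.2.2.2, neg_nonpos.2 (not_le.1 h2).le⟩

theorem TSpikeD_inv (ha : NoFix (ρ a)) (p : Pt) : TSpikeD (ρ a⁻¹) p = TSpikeD (ρ a) p := by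
  ext l
  simp only [TSpikeD, mem_ofPred_eq, map_inv, ha.lo_inv, ha.hi_inv]
  exact and_left_comm

theorem TSpikeD_conj (h : Cur ρ μ) (ha : NoFix (ρ a)) (g : Γ) (p : Pt) :
    μ (TSpikeD (ρ (g * a * g⁻¹)) (ρ g • p)) = μ (TSpikeD (ρ a) p) := by
  rw [← (h.smul g).measure_preimage (TSpikeD_meas _ _).nullMeasurableSet]
  congr 1
  ext l
  simp only [mem_preimage, TSpikeD, mem_ofPred_eq, POs_conj, ha.lo_conj, ha.hi_conj,
    side_smul_circ_pos, side_smul_pt]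

theorem TSpike_sub {m c : Γ} (h : Sepa ρ m a c) : sepSet (ρ a) (ρ m) ⊆ sepSet (ρ a) (ρ c) := by
  rintro l ⟨h1, h2, h3, h4⟩
  obtain ⟨hm, f1, f2⟩ := h
  rw [hm.lo_eq] at h3
  rw [hm.hi_eq] at h4
  have key : ∀ ξ : Circ, side (ax (ρ m)) ξ.1 * B (nrm l.rev) (nrm (ax (ρ m))) ≤ -side l ξ.1 :=
    fun ξ => by
      rw [← side_rev]
      exact GNest_le (by rw [side_rev]; linarith) (by rw [side_rev]; linarith) ξ.fut
  have h5 : 0 < B (nrm l.rev) (nrm (ax (ρ m))) :=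
    pos_of_mul_neg_right ((key _).trans_lt (neg_neg_of_pos h1))
      ((hm.ins_iff _).1 f1.symm.ins_lo).le
  rw [map_inv] at f2
  exact ⟨h1, h2, neg_pos.1 ((mul_pos ((hm.ins_inv_iff _).1 f2.ins_lo) h5).trans_le (key _)),
    neg_pos.1 ((mul_pos ((hm.ins_inv_iff _).1 f2.ins_hi) h5).trans_le (key _))⟩

theorem TSpike_adj (hO : OSys ρ O) (hρ : Disc ρ) {c : Γ} (ha : a ∈ O) (hc : c ∈ O)
    (hf : Face (ρ a) (ρ c)) {η : ℝ} (hη : 0 ≤ η)
    (h : μ (sepSet (ρ a) (ρ c)) ≤ ENNReal.ofReal η) :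
    ∃ b, Adj ρ O a b ∧ sepM μ (ρ a) (ρ b) ≤ η := by
  obtain ⟨m, hm, h1⟩ := hO.exists_adj hρ ha hc hf
  refine ⟨m, hm, ENNReal.toReal_le_of_le_ofReal hη ?_⟩
  rcases h1 with rfl | h1
  · exact h
  · exact (measure_mono (TSpike_sub h1)).trans h

/-- Two close points, deep inside two different translates of an object. -/
theorem TSpike_close (hρ : Good ρ N) (hO : OSys ρ O) (ha : a ∈ O) {r L : ℝ} (hr0 : 0 < r)
    (hr : r ≤ 2 * arsinh 1) {P : Pt → Prop} (hP : ∀ t ≥ L, ∃ p : Pt, -B (qv (ρ a)) p.1 = t ∧ P p) :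
    ∃ (p q : Pt) (g : Γ), P p ∧ P q ∧ dist p (ρ g • q) < r ∧ a ≠ g * a * g⁻¹ ∧ Ins (ρ a) p.1 ∧
      Ins (ρ (g * a * g⁻¹)) p.1 := by
  obtain ⟨c, hc⟩ : ∃ c, c = cosh r := ⟨_, rfl⟩
  obtain ⟨Q, hQ⟩ : ∃ Q, Q = qsh (ρ a) := ⟨_, rfl⟩
  have c1 : 1 ≤ c := hc ▸ one_le_cosh r
  have Q0 : 0 ≤ Q := hQ ▸ qsh_nonneg _
  obtain ⟨t, ht⟩ : ∃ t : ℕ → ℝ, t = fun k => (Q * c + 1 + |L|) * (4 * c) ^ k := ⟨_, rfl⟩
  have Qc : Q ≤ Q * c := le_mul_of_one_le_right Q0 c1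
  have L0 := abs_nonneg L
  have L1 := le_abs_self L
  have t0 : ∀ k, Q * c + 1 + |L| ≤ t k := fun k => by
    rw [ht]
    exact le_mul_of_one_le_right (by linarith) (one_le_pow₀ (by linarith))
  have tm : ∀ {i j : ℕ}, i ≤ j → t i ≤ t j := fun hij => by
    rw [ht]
    exact mul_le_mul_of_nonneg_left (pow_le_pow_right₀ (by linarith) hij) (by linarith)
  have ts : ∀ {i j : ℕ}, i < j → 3 * c * t i < t j := fun {i j} hij => by
    have e : t (i + 1) = 4 * c * t i := by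
      rw [ht]
      ring
    have h1 := tm (Nat.succ_le_of_lt hij)
    have h2 : 0 < c * t i := mul_pos (by linarith) (by linarith [t0 i])
    rw [e] at h1
    linarith
  have na := hO.noFix ha
  choose p hp hp0 using fun k => hP (t k) (by linarith [t0 k])
  have hp' : ∀ k, |B (qv (ρ a)) (p k).1| = t k := fun k => by
    rw [← abs_neg, hp, abs_of_nonneg (by linarith [t0 k])]
  obtain ⟨i, -, j, -, g, hg, hlt⟩ := PBers_pack hρ hr0 p (fun i j e => by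
    have h1 : t i = t j := by rw [← hp, ← hp, e]
    have h2 : ∀ k, t k ≤ 3 * c * t k := fun k =>
      le_mul_of_one_le_left (by linarith [t0 k]) (by linarith)
    rcases lt_trichotomy i j with h | h | h
    · linarith [ts h, h2 i]
    · exact h
    · linarith [ts h, h2 j])
  have hcd : cosh (dist (p i) (ρ g • p j)) ≤ c := by
    rw [hc]
    exact cosh_le_cosh.2 (by rw [abs_of_nonneg dist_nonneg, abs_of_pos hr0]; exact hlt.le)
  have hcd' : cosh (dist (ρ g • p j) (p i)) ≤ c := by rwa [dist_comm]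
  have na' := hO.noFix (hO.conj a ha g)
  have hq : qsh (ρ (g * a * g⁻¹)) ≤ Q := by rw [POs_conj, qsh_conj, hQ]
  have lv : ∀ v : Pt, B (qv (ρ (g * a * g⁻¹))) (ρ g • v).1 = B (qv (ρ a)) v.1 := fun v => by
    rw [POs_conj, na.qv_conj, smul_pt_val, B_lin]
  refine ⟨p i, p j, g, hp0 i, hp0 j, hlt, fun e => ?_, ?_,
    PBers_ins na' hcd' hq (by rw [lv, hp]; linarith [t0 j])⟩
  · have l1 : |B (qv (ρ (g * a * g⁻¹))) (p i).1| ≤ 3 * c * t j :=
      PBers_lev na' hcd' (by linarith [t0 j]) (by rw [lv, hp'])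
    rw [← e] at l1 lv
    have l4 : |B (qv (ρ a)) (ρ g • p j).1| ≤ 3 * c * t i :=
      PBers_lev na hcd (by linarith [t0 i]) (hp' i).le
    rw [lv, hp'] at l4
    rw [hp'] at l1
    have hij : i = j := by
      rcases lt_trichotomy i j with h | h | h
      · linarith [ts h]
      · exact h
      · linarith [ts h]
    subst hij
    have hg1 : g ≠ 1 := hg.resolve_left fun h => h rfl
    obtain ⟨n, rfl⟩ := Subgroup.mem_zpowers_iff.1 (hO.mem_zpowers ha e.symm)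
    have h1 := PBers_zpow na (n := n) (fun h => hg1 (by rw [h, zpow_zero])) (p i)
    rw [map_zpow] at hlt
    have h2 : sinh (dist (p i) (ρ a • p i) / 2) < 1 := by
      rw [← sinh_arsinh 1]
      exact sinh_lt_sinh.2 (by linarith)
    have h3 : 0 ≤ sinh (dist (p i) (ρ a • p i) / 2) := sinh_nonneg_iff.2 (by positivity)
    have h4 := na.sinh_sq_dist (p i)
    rw [← sq_abs (B _ _), hp'] at h4
    have h5 : 1 ≤ t i := by linarith [t0 i]
    nlinarith [sq_nonneg (qsh (ρ a))]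
  · have := hp i
    unfold Ins
    linarith [t0 i]

/-- Minimising a function that decreases under the resolution of interlaced pairs. -/
theorem TSpike_min (hO : OSys ρ O) (hρ : Good ρ N) {Q : Set Γ}
    (h2 : ∀ x ∈ Q, ∀ y, Adj ρ O x y → y ∈ Q) {b : Γ} (ha : a ∈ Q) (h : Adj ρ O a b)
    {F : Γ → Γ → ℝ} (f1 : ∀ x y, Adj ρ O x y → TT (ρ x) (ρ y) ≤ F x y)
    (f2 : ∀ x y, Adj ρ O x y → ∀ g, F (g * x * g⁻¹) (g * y * g⁻¹) = F x y)
    (f3 : ∀ x y, F x y = F y x)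
    (f4 : ∀ x y c d, Adj ρ O x y → Adj ρ O x c → Adj ρ O x d → Adj ρ O y c → Adj ρ O y d →
      Adj ρ O c d → IL ρ x y c d → F x c * F y d < F x y * F c d) :
    ∃ x ∈ Q, ∃ y, SPair ρ O x y ∧ F x y ≤ F a b := by
  have hD := hρ.toDisc
  have hfin : {t | t ≤ F a b ∧ ∃ x ∈ Q, ∃ y, Adj ρ O x y ∧ F x y = t}.Finite := by
    obtain ⟨s, hs⟩ := hO.fin
    choose! G hG using fun f (hf : f ∈ O) => hO.finite_TT hρ hf (F a b)
    refine (s.finite_toSet.biUnion fun f _ => (G f).finite_toSet.image fun z => F f z).subset ?_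
    rintro _ ⟨ht, x, -, y, hxy, rfl⟩
    obtain ⟨f, hf, hc⟩ := hs x hxy.1
    obtain ⟨g, hg⟩ := isConj_iff.1 hc.symm
    have h3 := hxy.conj hO g
    have h4 := f2 x y hxy g
    rw [hg] at h3 h4
    obtain ⟨k, hk⟩ := hG f h3.1 _ h3.2.1 h3.face ((f1 _ _ h3).trans (h4 ▸ ht))
    refine mem_biUnion hf ⟨_, hk, ?_⟩
    have h5 := f2 f _ h3 (f ^ k)
    rw [show f ^ k * f * (f ^ k)⁻¹ = f by group] at h5
    exact h5.trans h4
  obtain ⟨_, ⟨ht, x, hx, y, hxy, rfl⟩, hmin⟩ := Set.exists_min_image _ id hfin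
    ⟨_, le_rfl, a, ha, b, h, rfl⟩
  have hm : ∀ x' ∈ Q, ∀ y', Adj ρ O x' y' → F x y ≤ F x' y' := by
    intro x' hx' y' h'
    rcases le_total (F x' y') (F a b) with hl | hl
    · exact hmin _ ⟨hl, x', hx', y', h', rfl⟩
    · exact ht.trans hl
  have key : ∀ c d, Adj ρ O c d → F c d = F x y → ¬ IL ρ x y c d := by
    intro c d hcd he hil
    have n1 : x ≠ c := fun e => ccw.ne12 hil.1 (by rw [e])
    have n2 : y ≠ c := fun e => ccw.ne23 hil.1 (by rw [e])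
    have n3 : y ≠ d := fun e => ccw.ne12 hil.2 (by rw [e])
    have n4 : x ≠ d := fun e => ccw.ne23 hil.2 (by rw [e])
    have a1 : Adj ρ O x c := by
      by_contra hn
      exact hO.not_IL hD hxy hcd n1 hn hil
    have a2 := (hxy.symm hO).trans hO hD a1 n2
    have a3 := a1.trans hO hD hcd n4
    have a4 := a2.trans hO hD hcd n3
    have hp := f4 x y c d hxy a1 a3 a2 a4 hcd hil
    have h0 : 0 ≤ F x y := hxy.face.PFace_TT_pos.le.trans (f1 _ _ hxy)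
    have b1 := hm x hx c a1
    have b2 := hm y (h2 x hx y hxy) d a4
    rw [he] at hp
    exact hp.not_ge (mul_le_mul b1 b2 h0 (h0.trans b1))
  refine ⟨x, hx, y, ⟨hxy, fun g => ⟨key _ _ (hxy.conj hO g) (f2 x y hxy g),
    key _ _ ((hxy.symm hO).conj hO g) ?_⟩⟩, ht⟩
  rw [f2 y x (hxy.symm hO) g, f3]

theorem TSpike_cls (h : Cur ρ μ) {x c : Γ} (hc : c ∈ cls ρ x) : ic μ (ρ c) = ic μ (ρ x) := by
  rcases hc with hc | ⟨-, hc⟩ <;> obtain ⟨g, rfl⟩ := isConj_iff.1 hc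
  · exact h.ic_conj x g
  · rw [h.ic_conj, h.ic_inv]

theorem TSpike_frame (h : NCur ρ Λ μ) {b x y : Γ} (f : Frame (ρ a) (ρ x) (ρ y))
    (hx : x = b ∨ b = x * a * x⁻¹) {δ η : ℝ} (ha : ic μ (ρ a) ≤ δ) (hb : ic μ (ρ b) ≤ δ)
    (hs : sepM μ (ρ a) (ρ b) ≤ η) : ic μ (ρ x) ≤ 2 * δ + 2 * η ∧ ic μ (ρ y) ≤ 2 * δ + 2 * η := by
  have h1 := ic_nonneg μ (ρ a)
  have h2 : 0 ≤ sepM μ (ρ a) (ρ b) := measureReal_nonneg
  rcases hx with rfl | rfl
  · constructor <;> linarith [h.third_le f]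
  · constructor <;> linarith [(h.conj_le f).1, (h.conj_le f).2]

namespace NCur

theorem exists_short (h : NCur ρ Λ μ) {η : ℝ} (hη : 0 < η) : ∃ r > 0, ∀ p q : Pt, dist p q < r →
    μ {l | side l p.1 * side l q.1 ≤ 0} ≤ ENNReal.ofReal η := by
  exact TSpike_short h hη

theorem exists_points (h : NCur ρ Λ μ) (ha : Pos (ρ a)) {η : ℝ} (hη : 0 < η) : ∃ L : ℝ,
    ∀ t ≥ L, ∃ p : Pt, -B (qv (ρ a)) p.1 = t ∧
      μ {l | 0 < side l (lo (ρ a)).1 ∧ 0 < side l (hi (ρ a)).1 ∧ side l p.1 ≤ 0} ≤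
        ENNReal.ofReal η := by
  exact TSpike_points h ha hη

theorem exists_adj_small (h : NCur ρ Λ μ) (hρ : Good ρ N) (hO : OSys ρ O) (ha : a ∈ O) {η : ℝ}
    (hη : 0 < η) : ∃ b, Adj ρ O a b ∧ sepM μ (ρ a) (ρ b) ≤ η := by
  have hd := hρ.toDisc
  have h3 : 0 < η / 3 := by linarith
  obtain ⟨r, hr, H⟩ := TSpike_short h h3
  obtain ⟨L, hL⟩ := TSpike_points h (hO.pos a ha) h3
  obtain ⟨p, q, g, hp, hq, h1, h2, i1, i2⟩ := TSpike_close hρ hO ha
    (lt_min hr (mul_pos two_pos (arsinh_pos_iff.2 one_pos))) (min_le_right _ _) hL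
  have na := hO.noFix ha
  have ha' := hO.conj a ha g
  have na' := hO.noFix ha'
  have key : ∀ x y : Isom, TSpikeD x p = TSpikeD (ρ a) p →
      TSpikeD y (ρ g • q) = TSpikeD (ρ (g * a * g⁻¹)) (ρ g • q) →
        μ (sepSet x y) ≤ ENNReal.ofReal η := by
    intro x y e1 e2
    refine (TSpike_sep h.cur x y p (ρ g • q)).trans ?_
    rw [e1, e2, TSpikeD_conj h.cur na]
    refine (add_le_add (add_le_add hp hq) (H _ _ (lt_min_iff.1 h1).1)).trans (le_of_eq ?_)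
    rw [← ENNReal.ofReal_add h3.le h3.le, ← ENNReal.ofReal_add (by linarith) h3.le]
    congr 1
    ring
  rcases hO.tri hd ha ha' with e | f | ⟨h0, e | f⟩ | ⟨h0, f⟩ | ⟨-, -, f⟩
  · exact absurd e h2
  · exact TSpike_adj hO hd ha ha' f hη.le (key _ _ rfl rfl)
  · refine absurd (POs_isConj g a) ?_
    rw [← inv_inv (g * a * g⁻¹), ← e]
    exact hd.not_isConj_inv (hO.ne_one ha)
  · exact TSpike_adj hO hd ha (hO.inv _ ha' h0) f hη.le (key _ _ rfl (TSpikeD_inv na' _))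
  · have f1 := f.symm.conj (ρ g⁻¹)
    have e : g⁻¹ * (g * a * g⁻¹) * g⁻¹⁻¹ = a := by group
    rw [← POs_conj, ← POs_conj, e] at f1
    refine TSpike_adj hO hd ha (hO.conj _ (hO.inv a ha h0) g⁻¹) f1 hη.le ?_
    have h4 := sepM_conj h.cur f.2.1 f.1 g⁻¹
    rw [e, sepM_comm h.cur (ρ (g * a * g⁻¹)), sepM, sepM, measureReal_def, measureReal_def,
      ENNReal.toReal_eq_toReal_iff' (sepSet_lt_top h.cur f1).ne (sepSet_lt_top h.cur f).ne] at h4
    exact h4 ▸ key _ _ (TSpikeD_inv na _) rfl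
  · exact absurd (f.ins_pt (PAdj_ni na' i2)) (PAdj_ni na i1)

theorem exists_spair_small (h : NCur ρ Λ μ) (hρ : Good ρ N) (hO : OSys ρ O) {Q : Set Γ}
    (h1 : ∀ x ∈ Q, ∀ g : Γ, g * x * g⁻¹ ∈ Q) (h2 : ∀ x ∈ Q, ∀ y, Adj ρ O x y → y ∈ Q)
    (ha : a ∈ Q) (ha' : a ∈ O) {η : ℝ} (hη : 0 < η) :
    ∃ x ∈ Q, ∃ y, SPair ρ O x y ∧ sepM μ (ρ x) (ρ y) ≤ η := by
  have _ := h1
  obtain ⟨b, hb, hs⟩ := h.exists_adj_small hρ hO ha' (half_pos hη)
  have hT := hb.face.PFace_TT_pos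
  obtain ⟨k, hk⟩ : ∃ k, k = 2 * TT (ρ a) (ρ b) / η := ⟨_, rfl⟩
  have k0 : 0 < k := hk ▸ by positivity
  obtain ⟨x, hx, y, h3, h4⟩ := TSpike_min hO hρ h2 ha hb
    (F := fun x y => exp (k * sepM μ (ρ x) (ρ y)) * TT (ρ x) (ρ y))
    (fun x y hxy => le_mul_of_one_le_left hxy.face.PFace_TT_pos.le
      (one_le_exp (mul_nonneg k0.le measureReal_nonneg)))
    (fun x y hxy g => by
      rw [sepM_conj h.cur hxy.face.1 hxy.face.2.1, PAdj_cj, PAdj_cj,
        TT_conj_conj hxy.face.1 hxy.face.2.1])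
    (fun x y => by rw [sepM_comm h.cur, TT_comm])
    (fun x y c d a0 a1 a3 a2 a4 a5 hil => by
      have p1 := (ptolemy a1.face a0.face a3.face a2.face.symm a5.face a4.face hil.1 hil.2).1
      have p2 := h.four a0.face a1.face a3.face a2.face a4.face a5.face hil
      rw [mul_mul_mul_comm, mul_mul_mul_comm (exp _) (TT (ρ x) (ρ y)), ← exp_add, ← exp_add,
        ← mul_add, ← mul_add]
      exact mul_lt_mul' (exp_le_exp.2 (mul_le_mul_of_nonneg_left p2 k0.le)) p1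
        (mul_pos a1.face.PFace_TT_pos a4.face.PFace_TT_pos).le (exp_pos _))
  refine ⟨x, hx, y, h3, le_of_mul_le_mul_left (exp_le_exp.1 ?_) k0⟩
  have h5 : 1 ≤ TT (ρ x) (ρ y) := by
    have := mul_pos (zero_lt_one.trans_le (one_le_qch (ρ x)))
      (zero_lt_one.trans_le (one_le_qch (ρ y)))
    linarith [hO.le_TT hρ.toDisc h3.1.1 h3.1.2.1 h3.1.face]
  have h6 : TT (ρ a) (ρ b) ≤ exp (k * (η / 2)) := by
    rw [show k * (η / 2) = TT (ρ a) (ρ b) by rw [hk]; field_simp]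
    linarith [add_one_le_exp (TT (ρ a) (ρ b))]
  calc exp (k * sepM μ (ρ x) (ρ y)) ≤ exp (k * sepM μ (ρ x) (ρ y)) * TT (ρ x) (ρ y) :=
        le_mul_of_one_le_right (exp_pos _).le h5
    _ ≤ exp (k * sepM μ (ρ a) (ρ b)) * TT (ρ a) (ρ b) := h4
    _ ≤ exp (k * (η / 2)) * exp (k * (η / 2)) :=
        mul_le_mul (exp_le_exp.2 (mul_le_mul_of_nonneg_left hs k0.le)) h6 hT.le (exp_pos _).le
    _ = exp (k * η) := by rw [← exp_add, ← mul_add, add_halves]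

theorem TSpike_step (h : NCur ρ Λ μ) (hρ : Good ρ N) (hO : OSys ρ O) {δ : ℝ} (hδ : 0 < δ)
    (hL : ∀ a ∈ O, ic μ (ρ a) ≤ δ) (ha' : a ∈ O) (ha : ¬ PBersFull ρ O a) :
    ∃ O', OSys ρ O' ∧ O ⊂ O' ∧ ∀ c ∈ O', ic μ (ρ c) ≤ 3 * δ := by
  have hd : Disc ρ := hρ.toDisc
  obtain ⟨u, hu, v, hs, h1⟩ := h.exists_spair_small hρ hO (Q := {c | ¬ PBersFull ρ O c})
    (fun x hx g k => hx (by simpa [mul_assoc] using k.conj hO g⁻¹))
    (fun x hx y hy k => hx (k.adj hO hρ (hy.symm hO))) ha ha' (half_pos hδ)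
  obtain ⟨x, y, f, h2, h3, h4⟩ := hs.exists_frame hO hd
  have hy : y = (u * x)⁻¹ := hd.injective (by rw [f.eq_inv, map_inv, map_mul])
  have hxy := TSpike_frame h f h2 (hL _ hs.1.1) (hL _ hs.1.2.1) h1
  refine ⟨_, h3, ⟨subset_union_left.trans subset_union_left, fun hsub => hu ⟨x, ?_, ?_⟩⟩, ?_⟩
  · rw [hy] at f
    exact ⟨hs.1.1, hsub (Or.inl (Or.inr (mem_cls_self x))), hsub (Or.inr (hy ▸ mem_cls_self y)), f⟩
  · rw [hy] at h4
    exact h4
  · rintro c ((hc | hc) | hc)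
    · linarith [hL c hc]
    · rw [TSpike_cls h.cur hc]
      linarith [hxy.1]
    · rw [TSpike_cls h.cur hc]
      linarith [hxy.2]

theorem TSpike_ind (h : NCur ρ Λ μ) (hρ : Good ρ N) {ξ : ℕ}
    (hξ : ∀ (ι : Type) [Fintype ι] (R : ι → Γ), Multi ρ R → Fintype.card ι ≤ ξ) (n : ℕ) :
    ∀ δ > 0, ∀ (k : ℕ) (R : Fin k → Γ), Multi ρ R → ξ < k + n → (Obj ρ R).Nonempty →
      (∀ a ∈ Obj ρ R, ic μ (ρ a) ≤ δ) →
        ∃ (m : ℕ) (nx : Equiv.Perm (Fin m)) (E : Fin m → Γ), IsPants ρ nx E ∧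
          Obj ρ R ⊆ objs E ∧ ∀ d, ic μ (ρ (E d)) ≤ 3 ^ n * δ := by
  induction n with
  | zero =>
    intro δ _ k R hR hk
    have := hξ (Fin k) R hR
    rw [Fintype.card_fin] at this
    omega
  | succ n ih =>
    intro δ hδ k R hR hk hne hL
    have hO := osys_obj hρ hR
    by_cases hf : ∀ a ∈ Obj ρ R, PBersFull ρ (Obj ρ R) a
    · obtain ⟨m, nx, E, h1, h2⟩ := PBers_all hO hρ hne hf
      exact ⟨m, nx, E, h1, h2.ge, fun d => (hL _ (h2 ▸ PPants_self E d)).trans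
        (le_mul_of_one_le_left hδ.le (one_le_pow₀ (by norm_num)))⟩
    · push Not at hf
      obtain ⟨a, ha, hf⟩ := hf
      obtain ⟨O', h1, h2, h3⟩ := h.TSpike_step hρ hO hδ hL ha hf
      obtain ⟨k', R', hR', rfl⟩ := h1.exists_multi hρ.toDisc
      have h4 := PBers_lt hR h2
      obtain ⟨m, nx, E, h5, h6, h7⟩ := ih (3 * δ) (by linarith) k' R' hR' (by omega)
        (hne.mono h2.1) h3
      exact ⟨m, nx, E, h5, h2.1.trans h6, fun d => (h7 d).trans_eq (by ring)⟩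

theorem exists_pants_small (h : NCur ρ Λ μ) (hρ : Good ρ N) (hO : OSys ρ O) (hne : O.Nonempty)
    (h0 : ∀ a ∈ O, ic μ (ρ a) = 0) {ε : ℝ} (hε : 0 < ε) :
    ∃ (n : ℕ) (nx : Equiv.Perm (Fin n)) (E : Fin n → Γ), IsPants ρ nx E ∧ O ⊆ objs E ∧
      ∀ d, ic μ (ρ (E d)) ≤ ε := by
  obtain ⟨ξ, hξ⟩ := hρ.exists_multi_bound
  obtain ⟨k, R, hR, rfl⟩ := hO.exists_multi hρ.toDisc
  obtain ⟨n, nx, E, h1, h2, h3⟩ := h.TSpike_ind hρ hξ (ξ + 1) (ε / 3 ^ (ξ + 1)) (by positivity)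
    k R hR (by omega) hne fun a ha => (h0 a ha).trans_le (by positivity)
  exact ⟨n, nx, E, h1, h2, fun d => (h3 d).trans_eq (by field_simp)⟩

theorem TSpike_dual (h : NCur ρ Λ μ) (hρ : Good ρ N) {D : Type} {nx : Equiv.Perm D} {E : D → Γ}
    (hP : IsPants ρ nx E) {ε : ℝ} (hE : ∀ a ∈ objs E, ic μ (ρ a) ≤ ε) {m : Γ} (hm : m ∈ objs E)
    (hh : Hyp (ρ m)) (hΛ : ax (ρ m) ∈ Λ) : ∃ δ, Simple ρ δ ∧ Cross (ax (ρ m)) (ax (ρ δ)) ∧
      (∀ a ∈ objs E, a ∉ cls ρ m → Hyp (ρ a) → inter ρ δ a = 0) ∧ ic μ (ρ δ) ≤ 6 * ε := by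
  have hd := hρ.toDisc
  have hO := hP.sys
  obtain ⟨a, ha, ha'⟩ := PDual_nb hP hd hm
  obtain ⟨b, hb, hb'⟩ := PDual_nb hP hd (hO.inv m hm hh)
  rw [cls_eq (POs_inv_mem hh (mem_cls_self m))] at hb'
  have S := hP.spair_across hρ hh ha hb ha' hb'
  obtain ⟨x, y, hf, hx, hO', -⟩ := S.exists_frame (hO.diff hh) hd
  have sp : Sepa ρ m a b := ⟨hh, (hP.adj hd ha).face.symm, (hP.adj hd hb).face⟩
  have e1 := h.sep_le_add sp hΛ
  have e2 := (h.sep_le_third (hP.fo hd ha).2.2.2).trans (hE _ (hP.fo hd ha).2.2.1)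
  have e3 := (h.sep_le_third (hP.fo hd hb).2.2.2).trans (hE _ (hP.fo hd hb).2.2.1)
  rw [sepM_comm h.cur] at e2
  have e4 := TSpike_frame h hf hx (hE _ S.1.1.1) (hE _ S.1.2.1.1) (e1.trans (add_le_add e2 e3))
  have hs : objs E \ cls ρ m ⊆ objs E \ cls ρ m ∪ cls ρ x ∪ cls ρ y :=
    subset_union_left.trans subset_union_left
  have mx : x ∈ objs E \ cls ρ m ∪ cls ρ x ∪ cls ρ y := Or.inl (Or.inr (mem_cls_self x))
  have my : y ∈ objs E \ cls ρ m ∪ cls ρ x ∪ cls ρ y := Or.inr (mem_cls_self y)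
  obtain ⟨z, hz, h0, h1, m', h2, h3⟩ : ∃ z ∈ objs E \ cls ρ m ∪ cls ρ x ∪ cls ρ y,
      ic μ (ρ z) ≤ 6 * ε ∧ Hyp (ρ z) ∧ ∃ m' ∈ cls ρ m, Cross (ax (ρ z)) (ax (ρ m')) := by
    refine (PDual_mem hP hd hO' hs mx).elim (fun k1 => ?_)
      fun k1 => ⟨x, mx, by linarith [e4.1], k1⟩
    refine (PDual_mem hP hd hO' hs my).elim (fun k2 => ?_)
      fun k2 => ⟨y, my, by linarith [e4.2], k2⟩
    have k3 := (PDual_fo hd hf S.1.1.1 k1 k2).adj hO hd
    have k4 : Adj ρ (objs E) a b := by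
      rcases hx with rfl | rfl
      · exact k3
      · have k5 := (k3.symm hO).conj hO x
        rw [mul_inv_cancel_right] at k5
        exact k3.trans hO hd k5 fun e => S.1.face.ne (congrArg ρ e)
    exact (k4.2.2.2 m hm sp).elim
  obtain ⟨k, hk⟩ := PDual_cross hh h2 h3
  have h4 := hO'.simple hd hz h1
  refine ⟨k * z * k⁻¹, h4.conj k, by rwa [ax_conj' h1], fun c hc hc' h5 => ?_,
    by rwa [h.cur.ic_conj]⟩
  rw [inter_conj_left, hd.inter_eq_zero_iff h1 h5 (hO.simple hd hc h5).prim]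
  intro j
  rw [← ax_conj' h5]
  exact hO'.nc _ hz _ (hO'.conj _ (hs ⟨hc, hc'⟩) j) h1 ((PDual_hyp (POs_isConj j c)).2 h5)

theorem exists_spike (h : NCur ρ Λ μ) (hρ : Good ρ N) {ι : Type} [Finite ι] {S : ι → Γ}
    (hS : Multi ρ S) (hSΛ : ∀ s, ax (ρ (S s)) ∈ Λ) {ε : ℝ} (hε : 0 < ε) :
    ∃ δ : ι → Γ, Duals ρ S δ ∧ ∀ s, ic μ (ρ (δ s)) ≤ ε := by
  rcases isEmpty_or_nonempty ι with hι | ⟨⟨i₀⟩⟩
  · exact ⟨S, ⟨hS, fun i => isEmptyElim i, fun i => isEmptyElim i, fun i => isEmptyElim i⟩,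
      fun i => isEmptyElim i⟩
  obtain ⟨n, nx, E, hP, hE, h1⟩ := h.exists_pants_small hρ (osys_obj hρ hS)
    ⟨S i₀, Or.inl ⟨i₀, mem_cls_self _⟩⟩ (by
      rintro a (⟨i, hi⟩ | ha)
      · rw [TSpike_cls h.cur hi, h.lam.ic_eq_zero h.car (hSΛ i)]
      · exact GCurI_zero μ fun h1 => h1.not_par ha.1) (ε := ε / 6) (by positivity)
  have h2 : ∀ i, S i ∈ objs E := fun i => hE (Or.inl ⟨i, mem_cls_self _⟩)
  choose δ h3 h4 h5 h6 using fun i => h.TSpike_dual hρ hP (ε := ε / 6) (by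
    rintro a ⟨d, hd⟩
    rw [TSpike_cls h.cur (Or.inl hd)]
    exact h1 d) (h2 i) (hS.1 i).hyp (hSΛ i)
  refine ⟨δ, ⟨hS, h3, h4, fun i j hij => h5 i _ (h2 j) ?_ (hS.1 j).hyp⟩,
    fun i => (h6 i).trans_eq (by ring)⟩
  rintro (h7 | ⟨-, h7⟩) <;> obtain ⟨g, hg⟩ := isConj_iff.1 h7.symm
  · exact (hS.2 i j hij.symm g).2.1 hg.symm
  · exact (hS.2 i j hij.symm g).2.2 hg.symm

end NCur

end HRT
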