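import Pool.Agent.Work.MP_35beee_gt.TDefs

/-!
Abbreviations for the statement of the main theorem.
-/

namespace HRT

open Set Filter Topology

/-- `K` is a compact convex set of functions whose pointwise maximum is `F`. -/
def Envelope {T : Type*} (K : Set (T → ℝ)) (F : T → ℝ) : Prop :=
  IsCompact K ∧ Convex ℝ K ∧ ∀ z, IsGreatest ((fun w => w z) '' K) (F z)

/-- Cluster points of selections of the sets `K n` lie in `L`, and every maximal element of `L` is
the limit of a selection. -/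
def SetLim {T : Type*} (K : ℕ → Set (T → ℝ)) (L : Set (T → ℝ)) : Prop :=
  (∀ v : ℕ → T → ℝ, (∀ n, v n ∈ K n) → ∀ w, MapClusterPt w atTop v → w ∈ L) ∧
    ∀ w, Maximal (· ∈ L) w → ∃ v : ℕ → T → ℝ, (∀ n, v n ∈ K n) ∧ Tendsto v atTop (𝓝 w)

/-- `A` is a strong deformation retract of `X`. -/
def Retracts {E : Type*} [TopologicalSpace E] (X A : Set E) : Prop :=
  A ⊆ X ∧ ∃ H : C(unitInterval × X, X), (∀ f, H (0, f) = f) ∧ (∀ f, (H (1, f)).1 ∈ A) ∧
    ∀ t f, f.1 ∈ A → H (t, f) = f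

/-- `X` contains an embedded cube of dimension `d`. -/
def HasCube {E : Type*} [TopologicalSpace E] (X : Set E) (d : ℕ) : Prop :=
  ∃ e : (Fin d → unitInterval) → X, Continuous e ∧ Function.Injective e

/-- `K` lies in the cone spanned by a tuple of disjoint measured laminations. -/
def InCone {Γ : Type*} [Group Γ] {ρ : Γ →* Isom} (K : Set (Teich ρ → ℝ)) : Prop :=
  ∃ (k : ℕ) (μ : Fin k → Teich ρ → ℝ), μ ∈ WT ρ (Fin k) ∧ ∀ w ∈ K,
    ∃ a : Fin k → ℝ, (∀ j, 0 ≤ a j) ∧ ∀ z, w z = ∑ j, a j * μ j z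

end HRT
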