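import Pool.Agent.Work.MP_35beee_gt.TCell

-- merged part: Pool.Agent.Work.MP_35beee_gt.THom
section
/-!
The boundary deformation retracts onto the projective laminations.

Plan. For `f` in the boundary let `𝒦 f` be the compact set of all `w ∈ ML ρ` with `w ≤ exp ∘ f`.
If `w`, `C` represent `f` and `K` is the set of the `∑ c i * w i`, `c ∈ C`, then `K ⊆ 𝒦 f` (`wt_sum`)
and every element of `𝒦 f` is below an element of `K` (`exists_ge_of_le_sup`). `exists_functional`: with a dense sequence `z n`,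
`G w = ∑' n, 2⁻¹ ^ n * g (w (z n) / exp (dTh b (z n)))`, `g x = x - x ^ 2 / 4` cut off outside `[0, 1]`.
`G` has a unique maximiser `p f` on `𝒦 f`, it lies in every representing `K`, and `p f b > 0`.
`limit_rep`: along an ultrafilter the set of limits of elements of `C n` represents the limit (the
number `k` of indices is constant along an ultrafilter).
So `p` is continuous, and so is `(t, f) ↦ max over 𝒦 f of (1 - t) * v z + t * v b * (p z / p b)`,
which is monotone in `v` and so is attained on every representing set. Its logarithm is in the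
boundary by `exists_rep` and `mem_of_expl`; `tendsto_iff_pointwise`, `sub_le_of_mem_closure`.
If `f = log (w / w b)` then the largest element of `𝒦 f` is `w / w b`.
-/

namespace HRT

open Set Filter Topology Real

variable {Γ : Type} [Group Γ] {ρ : Γ →* Isom} {N : ℝ → ℝ}

/-- The cut off concave function. -/
noncomputable def THomG (x : ℝ) : ℝ := max 0 (min x 1) - (max 0 (min x 1)) ^ 2 / 4

theorem THomG_cont : Continuous THomG := by
  unfold THomG
  fun_prop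

theorem THomG_abs (x : ℝ) : |THomG x| ≤ 1 := by
  unfold THomG
  have h1 : 0 ≤ max 0 (min x 1) := le_max_left _ _
  have h2 : max 0 (min x 1) ≤ 1 := max_le zero_le_one (min_le_right _ _)
  generalize max 0 (min x 1) = y at h1 h2
  rw [abs_le]
  constructor <;> nlinarith

theorem THomG_eq {x : ℝ} (h0 : 0 ≤ x) (h1 : x ≤ 1) : THomG x = x - x ^ 2 / 4 := by
  unfold THomG
  rw [min_eq_left h1, max_eq_right h0]

theorem THom_hs {ι : Type} {w : ι → Teich ρ → ℝ} (hw : w ∈ WT ρ ι) (i : ι) :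
    ∃ g, Simple ρ g := by
  obtain ⟨_, R, -, hR, -⟩ := closure_nonempty_iff.1 ⟨w, hw⟩
  exact ⟨R i, hR.1 i⟩

theorem THom_ml (hρ : Good ρ N) {w : Teich ρ → ℝ} (hw : w ∈ ML ρ) (z u : Teich ρ) :
    0 ≤ w z ∧ w u ≤ exp (dTh z u) * w z :=
  MNot_wt hρ (THom_hs (mem_ml_iff.1 hw) ()) (mem_ml_iff.1 hw) () z u

theorem THom_pos (hρ : Good ρ N) {w : Teich ρ → ℝ} (hw : w ∈ ML ρ) {b : Teich ρ} (h : 0 < w b)
    (z : Teich ρ) : 0 < w z :=
  (mul_pos_iff_of_pos_left (exp_pos _)).1 (h.trans_le (THom_ml hρ hw z b).2)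

theorem THom_ratio (hρ : Good ρ N) {w : Teich ρ → ℝ} (hw : w ∈ ML ρ) {b : Teich ρ} (h : w b ≤ 1)
    (z : Teich ρ) : 0 ≤ w z / exp (dTh b z) ∧ w z / exp (dTh b z) ≤ 1 := by
  refine ⟨div_nonneg (THom_ml hρ hw z z).1 (exp_pos _).le, (div_le_one (exp_pos _)).2 ?_⟩
  exact (THom_ml hρ hw b z).2.trans (mul_le_of_le_one_right (exp_pos _).le h)

theorem exists_functional (hρ : Good ρ N) (hs : ∃ g, Simple ρ g) (b : Teich ρ) :
    ∃ G : (Teich ρ → ℝ) → ℝ, Continuous G ∧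
      (∀ v ∈ ML ρ, ∀ w ∈ ML ρ, w b ≤ 1 → v ≤ w → v ≠ w → G v < G w) ∧
      ∀ v ∈ ML ρ, ∀ w ∈ ML ρ, v b ≤ 1 → w b ≤ 1 → v ≠ w →
        (G v + G w) / 2 < G ((1 / 2 : ℝ) • v + (1 / 2 : ℝ) • w) := by
  have := separableSpace_teich hρ.toDisc
  have : Nonempty (Teich ρ) := ⟨b⟩
  let z := TopologicalSpace.denseSeq (Teich ρ)
  let T : ℕ → (Teich ρ → ℝ) → ℝ := fun n w => (1 / 2) ^ n * THomG (w (z n) / exp (dTh b (z n)))
  have hb : ∀ n w, ‖T n w‖ ≤ (1 / 2) ^ n := fun n w => by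
    rw [Real.norm_eq_abs, abs_mul, abs_of_pos (by positivity)]
    exact mul_le_of_le_one_right (by positivity) (THomG_abs _)
  have hsum : ∀ w, Summable fun n => T n w := fun w =>
    Summable.of_norm_bounded summable_geometric_two fun n => hb n w
  have hne : ∀ v ∈ ML ρ, ∀ w ∈ ML ρ, v ≠ w → ∃ n,
      v (z n) / exp (dTh b (z n)) ≠ w (z n) / exp (dTh b (z n)) := by
    intro v hv w hw h
    by_contra hcon
    push Not at hcon
    refine h ((TopologicalSpace.denseRange_denseSeq (Teich ρ)).equalizer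
      (continuous_of_ml hρ hs hv) (continuous_of_ml hρ hs hw) (funext fun n => ?_))
    exact (div_left_inj' (exp_pos _).ne').1 (hcon n)
  refine ⟨fun w => ∑' n, T n w, continuous_tsum (fun n => ?_) summable_geometric_two hb,
    fun v hv w hw h1 h2 h3 => ?_, fun v hv w hw h1 h2 h3 => ?_⟩
  · exact continuous_const.mul (THomG_cont.comp ((continuous_apply (z n)).div_const _))
  · obtain ⟨n, hn⟩ := hne v hv w hw h3
    have key : ∀ m, T m w - T m v = (1 / 2) ^ m *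
        ((w (z m) / exp (dTh b (z m)) - v (z m) / exp (dTh b (z m))) *
          (1 - (w (z m) / exp (dTh b (z m)) + v (z m) / exp (dTh b (z m))) / 4)) := fun m => by
      have a1 := THom_ratio hρ hv ((h2 b).trans h1) (z m)
      have a2 := THom_ratio hρ hw h1 (z m)
      simp only [T, THomG_eq a1.1 a1.2, THomG_eq a2.1 a2.2]
      ring
    have hle : ∀ m, v (z m) / exp (dTh b (z m)) ≤ w (z m) / exp (dTh b (z m)) := fun m =>
      div_le_div_of_nonneg_right (h2 _) (exp_pos _).le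
    have hp : ∀ m, 0 < 1 - (w (z m) / exp (dTh b (z m)) + v (z m) / exp (dTh b (z m))) / 4 :=
      fun m => by
        linarith [(THom_ratio hρ hv ((h2 b).trans h1) (z m)).2, (THom_ratio hρ hw h1 (z m)).2]
    refine (hsum v).tsum_lt_tsum (i := n) (fun m => sub_nonneg.1 ?_) (sub_pos.1 ?_) (hsum w)
    · rw [key]
      exact mul_nonneg (by positivity) (mul_nonneg (sub_nonneg.2 (hle m)) (hp m).le)
    · rw [key]
      exact mul_pos (by positivity) (mul_pos (sub_pos.2 ((hle n).lt_of_ne hn)) (hp n))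
  · obtain ⟨n, hn⟩ := hne v hv w hw h3
    have key : ∀ m, T m ((1 / 2 : ℝ) • v + (1 / 2 : ℝ) • w) - (T m v + T m w) / 2 = (1 / 2) ^ m *
        ((v (z m) / exp (dTh b (z m)) - w (z m) / exp (dTh b (z m))) ^ 2 / 16) := fun m => by
      have a1 := THom_ratio hρ hv h1 (z m)
      have a2 := THom_ratio hρ hw h2 (z m)
      have e : ((1 / 2 : ℝ) • v + (1 / 2 : ℝ) • w) (z m) / exp (dTh b (z m)) =
          (v (z m) / exp (dTh b (z m)) + w (z m) / exp (dTh b (z m))) / 2 := by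
        simp only [Pi.add_apply, Pi.smul_apply, smul_eq_mul]
        ring
      simp only [T]
      rw [e, THomG_eq a1.1 a1.2, THomG_eq a2.1 a2.2, THomG_eq (by linarith) (by linarith)]
      ring
    show ((∑' n, T n v) + ∑' n, T n w) / 2 < _
    rw [← (hsum v).tsum_add (hsum w), ← tsum_div_const]
    refine (((hsum v).add (hsum w)).div_const 2).tsum_lt_tsum (i := n)
      (fun m => sub_nonneg.1 ?_) (sub_pos.1 ?_) (hsum _)
    · rw [key]
      positivity
    · rw [key]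
      have := sub_ne_zero.2 hn
      positivity

theorem THom_cube {I : Type*} (U : Ultrafilter I) {k : ℕ} {s : I → Fin k → ℝ}
    (h : ∀ n, s n ∈ Icc (0 : Fin k → ℝ) 1) : ∃ c, Tendsto s U (𝓝 c) := by
  obtain ⟨c, -, hc⟩ := (isCompact_Icc (a := (0 : Fin k → ℝ)) (b := 1)).ultrafilter_le_nhds
    (U.map s) (le_principal_iff.2 (mem_map.2 (univ_mem' h)))
  exact ⟨c, hc⟩

theorem THom_sum {I : Type*} {F : Filter I} {k : ℕ} {s : I → Fin k → ℝ} {c : Fin k → ℝ}
    {w : I → Fin k → Teich ρ → ℝ} {w' : Fin k → Teich ρ → ℝ} (hs : Tendsto s F (𝓝 c))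
    (hw : Tendsto w F (𝓝 w')) (z : Teich ρ) :
    Tendsto (fun n => ∑ i, s n i * w n i z) F (𝓝 (∑ i, c i * w' i z)) :=
  tendsto_finsetSum _ fun i _ => (tendsto_pi_nhds.1 hs i).mul
    (tendsto_pi_nhds.1 (tendsto_pi_nhds.1 hw i) z)

theorem limit_rep (hρ : Good ρ N) {b : Teich ρ} {I : Type*} (U : Ultrafilter I) {k : ℕ}
    {f : I → Teich ρ → ℝ} {w : I → Fin k → Teich ρ → ℝ} {C : I → Set (Fin k → ℝ)}
    (h : ∀ n, IsRep b (f n) (w n) (C n)) {g : Teich ρ → ℝ}
    (hg : ∀ z, Tendsto (fun n => f n z) U (𝓝 (g z))) : ∃ w', Tendsto w U (𝓝 w') ∧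
      IsRep b g w' {c | ∃ s : I → Fin k → ℝ, (∀ n, s n ∈ C n) ∧ Tendsto s U (𝓝 c)} := by
  have hlim : ∀ i z, ∃ l, Tendsto (fun n => w n i z) U (𝓝 l) := fun i z =>
    MFwd_lim U (a := 0) (b := exp (dTh b z)) (Eventually.of_forall fun n => by
      have h1 := THom_ml hρ (wt_mem_ml (h n).wt i)
      exact ⟨(h1 z z).1, (h1 b z).2.trans (mul_le_of_le_one_right (exp_pos _).le ((h n).one i))⟩)
  choose w' hw' using hlim
  have hw : Tendsto w U (𝓝 w') := tendsto_pi_nhds.2 fun i => tendsto_pi_nhds.2 (hw' i)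
  have hsub : {c | ∃ s : I → Fin k → ℝ, (∀ n, s n ∈ C n) ∧ Tendsto s U (𝓝 c)} ⊆ Icc 0 1 := by
    rintro c ⟨s, h1, h2⟩
    exact isClosed_Icc.mem_of_tendsto h2 (Eventually.of_forall fun n => (h n).sub (h1 n))
  refine ⟨w', hw, isClosed_closure.mem_of_tendsto hw (Eventually.of_forall fun n => (h n).wt),
    fun i => le_of_tendsto' (hw' i b) fun n => (h n).one i, hsub,
    isCompact_Icc.of_isClosed_subset (isClosed_of_closure_subset fun c hc => ?_) hsub, ?_,
    fun z => ⟨?_, ?_⟩⟩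
  · have hne : ∀ n, (C n).Nonempty := fun n => by
      obtain ⟨c, hc, -⟩ := ((h n).sup b).1
      exact ⟨c, hc⟩
    choose s hs1 hs2 using fun n => (h n).compact.exists_isMinOn (hne n)
      (f := fun x => dist x c) (continuous_id.dist continuous_const).continuousOn
    refine ⟨s, hs1, Metric.tendsto_nhds.2 fun ε hε => ?_⟩
    obtain ⟨c', ⟨s', h1, h2⟩, h3⟩ := Metric.mem_closure_iff.1 hc (ε / 2) (half_pos hε)
    filter_upwards [Metric.tendsto_nhds.1 h2 (ε / 2) (half_pos hε)] with n hn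
    have h4 : dist (s n) c ≤ dist (s' n) c := hs2 n (h1 n)
    have h5 := dist_triangle (s' n) c' c
    rw [dist_comm c' c] at h5
    linarith
  · rintro c ⟨s, h1, h2⟩ c' ⟨s', h1', h2'⟩ a a' ha ha' haa
    exact ⟨fun n => a • s n + a' • s' n, fun n => (h n).convex (h1 n) (h1' n) ha ha' haa,
      (h2.const_smul a).add (h2'.const_smul a')⟩
  · choose s hs1 hs2 using fun n => ((h n).sup z).1
    obtain ⟨c, hc⟩ := THom_cube U fun n => (h n).sub (hs1 n)
    refine ⟨c, ⟨s, hs1, hc⟩, tendsto_nhds_unique (THom_sum hc hw z) ?_⟩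
    exact ((continuous_exp.tendsto _).comp (hg z)).congr fun n => (hs2 n).symm
  · rintro _ ⟨c, ⟨s, h1, h2⟩, rfl⟩
    exact le_of_tendsto_of_tendsto' (THom_sum h2 hw z) ((continuous_exp.tendsto _).comp (hg z))
      fun n => ((h n).sup z).2 ⟨s n, h1 n, rfl⟩

/-- The laminations below the exponential of `f`. -/
def THomK (f : Teich ρ → ℝ) : Set (Teich ρ → ℝ) := {w | w ∈ ML ρ ∧ ∀ z, w z ≤ exp (f z)}

/-- The lamination with coefficient vector `c`. -/
def THomS {k : ℕ} (w : Fin k → Teich ρ → ℝ) (c : Fin k → ℝ) : Teich ρ → ℝ :=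
  fun z => ∑ i, c i * w i z

/-- The value of the homotopy at the lamination `v`. -/
noncomputable def THomV (b : Teich ρ) (t : ℝ) (p v : Teich ρ → ℝ) (z : Teich ρ) : ℝ :=
  (1 - t) * v z + t * v b * (p z / p b)

/-- The properties of the functional. -/
structure THomF (b : Teich ρ) (G : (Teich ρ → ℝ) → ℝ) : Prop where
  cont : Continuous G
  mono : ∀ v ∈ ML ρ, ∀ w ∈ ML ρ, w b ≤ 1 → v ≤ w → v ≠ w → G v < G w
  conc : ∀ v ∈ ML ρ, ∀ w ∈ ML ρ, v b ≤ 1 → w b ≤ 1 → v ≠ w →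
    (G v + G w) / 2 < G ((1 / 2 : ℝ) • v + (1 / 2 : ℝ) • w)

/-- `p` maximises `G`. -/
def THomM (G : (Teich ρ → ℝ) → ℝ) (f p : Teich ρ → ℝ) : Prop :=
  p ∈ THomK f ∧ ∀ v ∈ THomK f, G v ≤ G p

section

variable {b : Teich ρ} {f p v : Teich ρ → ℝ} {k : ℕ} {w : Fin k → Teich ρ → ℝ}
  {C : Set (Fin k → ℝ)} {G : (Teich ρ → ℝ) → ℝ}

theorem THomK_le (h0 : f b = 0) (hv : v ∈ THomK f) : v b ≤ 1 := by
  have := hv.2 b
  rwa [h0, exp_zero] at this

theorem THomK_compact (hρ : Good ρ N) (h0 : f b = 0) : IsCompact (THomK f) := by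
  refine (isCompact_ml hρ b 1).of_isClosed_subset ?_ fun v hv => ⟨hv.1, THomK_le h0 hv⟩
  refine isClosed_closure.inter ?_
  show IsClosed {w : Teich ρ → ℝ | ∀ z, w z ≤ exp (f z)}
  rw [ofPred_forall]
  exact isClosed_iInter fun z => isClosed_le (continuous_apply z) continuous_const

theorem IsRep.THom_mem (h : IsRep b f w C) (hρ : Good ρ N) (hs : ∃ g, Simple ρ g)
    {c : Fin k → ℝ} (hc : c ∈ C) : THomS w c ∈ THomK f :=
  ⟨wt_sum hρ hs h.wt (h.sub hc).1, fun z => (h.sup z).2 ⟨c, hc, rfl⟩⟩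

theorem IsRep.THom_ge (h : IsRep b f w C) (hρ : Good ρ N) (hv : v ∈ THomK f) :
    ∃ c ∈ C, v ≤ THomS w c :=
  exists_ge_of_le_sup hρ h.wt hv.1 h.compact h.convex (fun c hc => (h.sub hc).1) fun z => by
    obtain ⟨c, hc, e⟩ := (h.sup z).1
    exact ⟨c, hc, (hv.2 z).trans e.ge⟩

theorem IsRep.THom_att (h : IsRep b f w C) (hρ : Good ρ N) (hs : ∃ g, Simple ρ g) (z : Teich ρ) :
    ∃ v ∈ THomK f, v z = exp (f z) := by
  obtain ⟨c, hc, e⟩ := (h.sup z).1
  exact ⟨_, h.THom_mem hρ hs hc, e⟩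

theorem IsRep.THom_exists (h : IsRep b f w C) (hρ : Good ρ N) (hs : ∃ g, Simple ρ g)
    (h0 : f b = 0) (hG : THomF b G) : ∃ p, THomM G f p := by
  obtain ⟨v, hv, -⟩ := h.THom_att hρ hs b
  obtain ⟨p, h1, h2⟩ := (THomK_compact hρ h0).exists_isMaxOn ⟨v, hv⟩ hG.cont.continuousOn
  exact ⟨p, h1, h2⟩

theorem THomM.eq_of_le (hp : THomM G f p) (h0 : f b = 0) (hG : THomF b G) (hv : v ∈ THomK f)
    (h : p ≤ v) : p = v := by
  by_contra hne
  exact (hp.2 v hv).not_gt (hG.mono p hp.1.1 v hv.1 (THomK_le h0 hv) h hne)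

theorem IsRep.THom_max (h : IsRep b f w C) (hρ : Good ρ N) (hs : ∃ g, Simple ρ g)
    (h0 : f b = 0) (hG : THomF b G) (hp : THomM G f p) : ∃ c ∈ C, p = THomS w c := by
  obtain ⟨c, hc, hle⟩ := h.THom_ge hρ hp.1
  exact ⟨c, hc, hp.eq_of_le h0 hG (h.THom_mem hρ hs hc) hle⟩

theorem IsRep.THom_unique (h : IsRep b f w C) (hρ : Good ρ N) (hs : ∃ g, Simple ρ g)
    (h0 : f b = 0) (hG : THomF b G) (hp : THomM G f p) (hv : THomM G f v) : p = v := by
  obtain ⟨c, hc, rfl⟩ := h.THom_max hρ hs h0 hG hp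
  obtain ⟨c', hc', rfl⟩ := h.THom_max hρ hs h0 hG hv
  by_contra hne
  have h1 := hG.conc _ hp.1.1 _ hv.1.1 (THomK_le h0 hp.1) (THomK_le h0 hv.1) hne
  have h2 : (1 / 2 : ℝ) • THomS w c + (1 / 2 : ℝ) • THomS w c' =
      THomS w ((1 / 2 : ℝ) • c + (1 / 2 : ℝ) • c') := by
    funext z
    simp only [THomS, Pi.add_apply, Pi.smul_apply, smul_eq_mul, Finset.mul_sum,
      ← Finset.sum_add_distrib]
    exact Finset.sum_congr rfl fun i _ => by ring
  have h3 := h.THom_mem hρ hs (h.convex hc hc' (by norm_num : (0 : ℝ) ≤ 1 / 2)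
    (by norm_num : (0 : ℝ) ≤ 1 / 2) (by norm_num))
  rw [h2] at h1
  linarith [hp.2 _ h3, hv.2 _ h3]

theorem IsRep.THom_pos (h : IsRep b f w C) (hρ : Good ρ N) (hs : ∃ g, Simple ρ g)
    (h0 : f b = 0) (hG : THomF b G) (hp : THomM G f p) : 0 < p b := by
  refine (THom_ml hρ hp.1.1 b b).1.lt_of_ne fun e => ?_
  obtain ⟨v, hv, hvb⟩ := h.THom_att hρ hs b
  have h1 : p ≤ v := fun z => by
    have h2 := (THom_ml hρ hp.1.1 b z).2
    rw [← e, mul_zero] at h2
    exact h2.trans (THom_ml hρ hv.1 z z).1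
  have h2 := hp.eq_of_le h0 hG hv h1
  rw [h2, hvb] at e
  exact (exp_pos _).ne e

theorem THomV_mono {t : ℝ} (ht : t ∈ Icc (0 : ℝ) 1) {v' : Teich ρ → ℝ} (h : v ≤ v') {z : Teich ρ}
    (hz : 0 ≤ p z / p b) : THomV b t p v z ≤ THomV b t p v' z :=
  add_le_add (mul_le_mul_of_nonneg_left (h z) (sub_nonneg.2 ht.2))
    (mul_le_mul_of_nonneg_right (mul_le_mul_of_nonneg_left (h b) ht.1) hz)

theorem IsRep.THom_val (h : IsRep b f w C) (hρ : Good ρ N) (hs : ∃ g, Simple ρ g)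
    (h0 : f b = 0) (hp : p ∈ ML ρ) (hb : 0 < p b) {t : ℝ} (ht : t ∈ Icc (0 : ℝ) 1) :
    ∃ g : Teich ρ → ℝ, ∀ z, IsGreatest ((fun v => THomV b t p v z) '' THomK f) (exp (g z)) := by
  have key : ∀ z, ∃ r, IsGreatest ((fun v => THomV b t p v z) '' THomK f) (exp r) := fun z => by
    obtain ⟨v, hv, hvb⟩ := h.THom_att hρ hs b
    rw [h0, exp_zero] at hvb
    have hc : Continuous fun v : Teich ρ → ℝ => THomV b t p v z := by
      unfold THomV
      fun_prop
    obtain ⟨u, h1, h2⟩ := (THomK_compact hρ h0).exists_isMaxOn ⟨v, hv⟩ hc.continuousOn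
    have h3 : 0 < THomV b t p v z := by
      have a1 := HRT.THom_pos hρ hv.1 (by rw [hvb]; exact one_pos) z
      have a2 := div_pos (HRT.THom_pos hρ hp hb z) hb
      unfold THomV
      rw [hvb, mul_one]
      rcases eq_or_lt_of_le ht.1 with e | e
      · rw [← e]
        simpa using a1
      · exact add_pos_of_nonneg_of_pos (mul_nonneg (sub_nonneg.2 ht.2) a1.le) (mul_pos e a2)
    refine ⟨log (THomV b t p u z), ?_⟩
    rw [exp_log (h3.trans_le (h2 hv))]
    exact ⟨⟨u, h1, rfl⟩, by rintro _ ⟨x, hx, rfl⟩; exact h2 hx⟩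
  choose g hg using key
  exact ⟨g, hg⟩

theorem IsRep.THom_tr (h : IsRep b f w C) (hρ : Good ρ N) (hs : ∃ g, Simple ρ g)
    (hp : p ∈ ML ρ) {t : ℝ} (ht : t ∈ Icc (0 : ℝ) 1) {z : Teich ρ} {r : ℝ}
    (hr : IsGreatest ((fun v => THomV b t p v z) '' THomK f) r) :
    IsGreatest ((fun c => THomV b t p (THomS w c) z) '' C) r := by
  obtain ⟨⟨v, hv, rfl⟩, h2⟩ := hr
  obtain ⟨c, hc, hle⟩ := h.THom_ge hρ hv
  refine ⟨⟨c, hc, le_antisymm (h2 ⟨_, h.THom_mem hρ hs hc, rfl⟩) (THomV_mono ht hle ?_)⟩, ?_⟩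
  · exact div_nonneg (THom_ml hρ hp z z).1 (THom_ml hρ hp b b).1
  · rintro _ ⟨c', hc', rfl⟩
    exact h2 ⟨_, h.THom_mem hρ hs hc', rfl⟩

end

theorem THom_zero (hρ : Good ρ N) (hs : ∃ g, Simple ρ g) {b : Teich ρ} {f : C(Teich ρ, ℝ)}
    (hf : f ∈ horoBdry b) : f b = 0 := by
  obtain ⟨U, hU⟩ := (mem_closure_horoImage hρ hs b f).1 hf.1
  exact tendsto_nhds_unique (hU b) (tendsto_const_nhds.congr fun x => (sub_self _).symm)

/-- Convergence of the maximisers and of the values along an ultrafilter. -/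
theorem THom_conv (hρ : Good ρ N) (hs : ∃ g, Simple ρ g) {b : Teich ρ}
    {G : (Teich ρ → ℝ) → ℝ} (hG : THomF b G) {I : Type*} (U : Ultrafilter I) {k : ℕ}
    {f p g : I → Teich ρ → ℝ} {t : I → ℝ} {w : I → Fin k → Teich ρ → ℝ}
    {C : I → Set (Fin k → ℝ)} (h : ∀ n, IsRep b (f n) (w n) (C n)) (h0 : ∀ n, f n b = 0)
    (hp : ∀ n, THomM G (f n) (p n)) (ht : ∀ n, t n ∈ Icc (0 : ℝ) 1)
    (hg : ∀ n z, IsGreatest ((fun v => THomV b (t n) (p n) v z) '' THomK (f n)) (exp (g n z)))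
    {f' p' g' : Teich ρ → ℝ} {t' : ℝ} (h0' : f' b = 0) (hp' : THomM G f' p')
    (ht' : t' ∈ Icc (0 : ℝ) 1)
    (hg' : ∀ z, IsGreatest ((fun v => THomV b t' p' v z) '' THomK f') (exp (g' z)))
    (lf : ∀ z, Tendsto (fun n => f n z) U (𝓝 (f' z))) (lt : Tendsto t U (𝓝 t')) (z : Teich ρ) :
    Tendsto (fun n => g n z) U (𝓝 (g' z)) := by
  obtain ⟨w', hw, hr⟩ := limit_rep hρ U h lf
  have hS : ∀ {s : I → Fin k → ℝ} {c : Fin k → ℝ}, Tendsto s U (𝓝 c) →
      Tendsto (fun n => THomS (w n) (s n)) U (𝓝 (THomS w' c)) := fun hc =>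
    tendsto_pi_nhds.2 fun z => THom_sum hc hw z
  have lp : Tendsto p U (𝓝 p') := by
    choose s hs1 hs2 using fun n => (h n).THom_max hρ hs (h0 n) hG (hp n)
    obtain ⟨c, hc⟩ := THom_cube U fun n => (h n).sub (hs1 n)
    have h1 : Tendsto p U (𝓝 (THomS w' c)) := (hS hc).congr fun n => (hs2 n).symm
    have h2 : THomM G f' (THomS w' c) := by
      refine ⟨hr.THom_mem hρ hs ⟨s, hs1, hc⟩, fun v hv => (hp'.2 v hv).trans ?_⟩
      obtain ⟨c', ⟨s', h3, h4⟩, rfl⟩ := hr.THom_max hρ hs h0' hG hp'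
      exact le_of_tendsto_of_tendsto' ((hG.cont.tendsto _).comp (hS h4))
        ((hG.cont.tendsto _).comp h1) fun n => (hp n).2 _ ((h n).THom_mem hρ hs (h3 n))
    rwa [hr.THom_unique hρ hs h0' hG hp' h2]
  have hb := hr.THom_pos hρ hs h0' hG hp'
  have hV : ∀ {s : I → Fin k → ℝ} {c : Fin k → ℝ}, Tendsto s U (𝓝 c) →
      Tendsto (fun n => THomV b (t n) (p n) (THomS (w n) (s n)) z) U
        (𝓝 (THomV b t' p' (THomS w' c) z)) := fun hc =>
    ((lt.const_sub 1).mul (tendsto_pi_nhds.1 (hS hc) z)).add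
      ((lt.mul (tendsto_pi_nhds.1 (hS hc) b)).mul
        ((tendsto_pi_nhds.1 lp z).div (tendsto_pi_nhds.1 lp b) hb.ne'))
  have h1 := fun n => (h n).THom_tr hρ hs (hp n).1.1 (ht n) (hg n z)
  have h2 := hr.THom_tr hρ hs hp'.1.1 ht' (hg' z)
  choose s hs1 hs2 using fun n => (h1 n).1
  obtain ⟨c, hc⟩ := THom_cube U fun n => (h n).sub (hs1 n)
  have h3 : Tendsto (fun n => exp (g n z)) U (𝓝 (THomV b t' p' (THomS w' c) z)) :=
    (hV hc).congr hs2
  have h4 : THomV b t' p' (THomS w' c) z = exp (g' z) := by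
    refine le_antisymm (h2.2 ⟨c, ⟨s, hs1, hc⟩, rfl⟩) ?_
    obtain ⟨c', ⟨s', h5, h6⟩, e⟩ := h2.1
    rw [← e]
    exact le_of_tendsto_of_tendsto' (hV h6) h3 fun n => (h1 n).2 ⟨_, h5 n, rfl⟩
  rw [h4] at h3
  have h5 := h3.log (exp_pos _).ne'
  simpa only [log_exp] using h5

theorem exists_retraction (hρ : Good ρ N) (hs : ∃ g, Simple ρ g) (b : Teich ρ) :
    ∃ H : C(unitInterval × horoBdry b, horoBdry b), (∀ f, H (0, f) = f) ∧
      (∀ f, (H (1, f)).1 ∈ PML b) ∧ ∀ t f, f.1 ∈ PML b → H (t, f) = f := by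
  classical
  obtain ⟨G, g1, g2, g3⟩ := exists_functional hρ hs b
  have hG : THomF b G := ⟨g1, g2, g3⟩
  obtain ⟨ξ, hξ⟩ := exists_rep hρ hs b
  choose k hk w C hr hE using fun f : horoBdry b => hξ f.1 (expl_of_mem hρ hs b f.2)
  have h0 : ∀ f : horoBdry b, f.1 b = 0 := fun f => THom_zero hρ hs f.2
  choose p hp using fun f : horoBdry b => (hr f).THom_exists hρ hs (h0 f) hG
  have hb : ∀ f, 0 < p f b := fun f => (hr f).THom_pos hρ hs (h0 f) hG (hp f)
  choose g hg using fun x : unitInterval × horoBdry b =>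
    (hr x.2).THom_val hρ hs (h0 x.2) (hp x.2).1.1 (hb x.2) x.1.2
  have hx : ∀ x, Expl b (g x) := fun x => by
    obtain ⟨c, hc, e⟩ := (hr x.2).THom_max hρ hs (h0 x.2) hG (hp x.2)
    refine hE x.2 c hc ?_ x.1 x.1.2 (g x) fun z => ?_
    · have := hb x.2
      rwa [e] at this
    · have := (hr x.2).THom_tr hρ hs (hp x.2).1.1 x.1.2 (hg x z)
      rwa [e] at this
  let H : unitInterval × horoBdry b → horoBdry b := fun x =>
    ⟨⟨g x, exists_cont_of_expl hρ hs b (hx x)⟩, mem_of_expl hρ hs b (hx x)⟩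
  have hH : Continuous H := by
    refine continuous_iff_ultrafilter.2 fun x U hU => tendsto_subtype_rng.2 ?_
    refine (tendsto_iff_pointwise hρ hs fun n => sub_le_of_mem_closure hρ hs b (H n).2.1).2
      fun z => ?_
    obtain ⟨m, -, hm⟩ := (Ultrafilter.eventually_exists_mem_iff (f := U)
      (P := fun m n => ∃ (w : Fin m → Teich ρ → ℝ) (C : Set (Fin m → ℝ)), IsRep b n.2.1 w C)
      (finite_Iic ξ)).1 (Eventually.of_forall fun n => ⟨k n.2, hk n.2, w n.2, C n.2, hr n.2⟩)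
    obtain ⟨n₀, hn₀⟩ := hm.exists
    let r : unitInterval × horoBdry b → unitInterval × horoBdry b := fun n =>
      if ∃ (w : Fin m → Teich ρ → ℝ) (C : Set (Fin m → ℝ)), IsRep b n.2.1 w C then n else n₀
    have hr1 : ∀ n, ∃ (w : Fin m → Teich ρ → ℝ) (C : Set (Fin m → ℝ)), IsRep b (r n).2.1 w C :=
      fun n => by
        simp only [r]
        split_ifs with h
        exacts [h, hn₀]
    have hr2 : ∀ᶠ n in U, r n = n := hm.mono fun n hn => if_pos hn
    have hr3 : Tendsto r U (𝓝 x) := Tendsto.congr' (hr2.mono fun n hn => hn.symm) hU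
    choose w' C' hw' using hr1
    have key := THom_conv hρ hs hG U (f := fun n => (r n).2.1) (p := fun n => p (r n).2)
      (g := fun n => g (r n)) (t := fun n => (r n).1) hw' (fun n => h0 _) (fun n => hp _)
      (fun n => (r n).1.2) (fun n => hg _) (h0 x.2) (hp x.2) x.1.2 (hg x)
      (fun z => (((continuous_eval_const z).comp
        (continuous_subtype_val.comp continuous_snd)).tendsto x).comp hr3)
      (((continuous_subtype_val.comp continuous_fst).tendsto x).comp hr3) z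
    exact key.congr' (hr2.mono fun n hn => by simp only [hn]; rfl)
  refine ⟨⟨H, hH⟩, fun f => ?_, fun f => ⟨p f, (hp f).1.1, hb f, fun z => ?_⟩, fun t f hf => ?_⟩
  · refine Subtype.ext (ContinuousMap.ext fun z => exp_injective ((hg (0, f) z).unique ⟨?_, ?_⟩))
    · obtain ⟨v, hv, e⟩ := (hr f).THom_att hρ hs z
      exact ⟨v, hv, by simpa [THomV] using e⟩
    · rintro _ ⟨v, hv, rfl⟩
      simpa [THomV] using hv.2 z
  · have h1 := div_pos (THom_pos hρ (hp f).1.1 (hb f) z) (hb f)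
    refine exp_injective ((hg (1, f) z).unique ?_)
    rw [exp_log h1]
    constructor
    · obtain ⟨v, hv, e⟩ := (hr f).THom_att hρ hs b
      rw [h0 f, exp_zero] at e
      exact ⟨v, hv, by simp [THomV, e]⟩
    · rintro _ ⟨v, hv, rfl⟩
      simpa [THomV] using mul_le_of_le_one_left h1.le (THomK_le (h0 f) hv)
  · obtain ⟨u, hu, hub, e⟩ := hf
    have e' : ∀ z, exp (f.1 z) = (u b)⁻¹ * u z := fun z => by
      rw [e, exp_log (div_pos (THom_pos hρ hu hub z) hub), div_eq_inv_mul]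
    have h1 : (fun z => exp (f.1 z)) ∈ THomK f.1 := by
      refine ⟨?_, fun z => le_rfl⟩
      rw [funext e']
      exact wt_mem_ml (wt_smul (mem_ml_iff.1 hu) (c := fun _ => (u b)⁻¹)
        fun _ => inv_nonneg.2 hub.le) ()
    have h2 : p f = fun z => exp (f.1 z) := (hp f).eq_of_le (h0 f) hG h1 (hp f).1.2
    have h3 : ∀ z, THomV b t (p f) (fun z => exp (f.1 z)) z = exp (f.1 z) := fun z => by
      simp only [THomV, h2, h0 f, exp_zero]
      ring
    refine Subtype.ext (ContinuousMap.ext fun z => exp_injective ((hg (t, f) z).unique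
      ⟨⟨_, h1, h3 z⟩, ?_⟩))
    rintro _ ⟨v, hv, rfl⟩
    refine (THomV_mono t.2 (v' := fun z => exp (f.1 z)) hv.2 ?_).trans (h3 z).le
    exact div_nonneg (THom_pos hρ (hp f).1.1 (hb f) z).le (hb f).le

end HRT
end

-- merged part: Pool.Agent.Work.MP_35beee_gt.TTop
section
/-!
The topology of the boundary in terms of the sets of laminations below a horofunction.

Plan. `below_spec`: `exists_rep`, `isCompact_ml`, `wt_sum`; all elements are below `u = ∑ i, w i`,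
so `exists_basis` applies, and convex combinations are in `ML` by `wt_sum`.
`tendsto_iff_below`, forward: the first condition is closedness. If `w` is maximal in `below g`
and `U` is an ultrafilter finer than `atTop`, then `limit_rep` and `exists_ge_of_le_sup` give
`s n ∈ below (f n)` that converge along `U` to some `v ≥ w` in `below g`, so `v = w`. The compact set
of all `w ∈ ML ρ` with `w b ≤ 1` is metrisable (continuous functions, `separableSpace_teich`), so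
the distance from `w` to `below (f n)` tends to zero; choose nearest points. Backward: for each `z`
the value `exp (g z)` is attained at a maximal element (maximise `exists_functional` on the set of
elements above a given one), which gives the lower limit; compactness gives the upper limit;
`tendsto_iff_pointwise`, `sub_le_of_mem_closure`.
-/

namespace HRT

open Set Filter Topology Real

variable {Γ : Type} [Group Γ] {ρ : Γ →* Isom} {N : ℝ → ℝ}

theorem TTop_sub (hρ : Good ρ N) (hs : ∃ g, Simple ρ g) {b : Teich ρ} {f : C(Teich ρ, ℝ)}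
    (hf : f ∈ horoBdry b) : below f ⊆ {w ∈ ML ρ | w b ≤ 1} := by
  obtain ⟨W, h⟩ := (mem_closure_horoImage hρ hs b f).1 hf.1
  have h0 : f b = 0 :=
    tendsto_nhds_unique (h b) (tendsto_const_nhds.congr fun x => (sub_self _).symm)
  exact fun w hw => ⟨hw.1, (hw.2 b).trans_eq (by rw [h0, exp_zero])⟩

theorem TTop_mem (hρ : Good ρ N) (hs : ∃ g, Simple ρ g) {b : Teich ρ} {f : Teich ρ → ℝ} {k : ℕ}
    {w : Fin k → Teich ρ → ℝ} {C : Set (Fin k → ℝ)} (h : IsRep b f w C) {c : Fin k → ℝ}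
    (hc : c ∈ C) : (fun z => ∑ i, c i * w i z) ∈ below f :=
  ⟨wt_sum hρ hs h.wt (h.sub hc).1, fun z => (h.sup z).2 ⟨c, hc, rfl⟩⟩

theorem TTop_lim {I : Type*} {F : Filter I} [F.NeBot] {f v : I → Teich ρ → ℝ}
    {g w : Teich ρ → ℝ} (h : ∀ n, v n ∈ below (f n))
    (hf : ∀ z, Tendsto (fun n => f n z) F (𝓝 (g z))) (hv : Tendsto v F (𝓝 w)) : w ∈ below g :=
  ⟨isClosed_closure.mem_of_tendsto hv (.of_forall fun n => (h n).1), fun z =>
    le_of_tendsto_of_tendsto' (tendsto_pi_nhds.1 hv z) (hf z).rexp fun n => (h n).2 z⟩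

theorem TTop_ultra (hρ : Good ρ N) (hs : ∃ g, Simple ρ g) {b : Teich ρ} {f : ℕ → horoBdry b}
    {g u : Teich ρ → ℝ} (U : Ultrafilter ℕ) (hf : ∀ z, Tendsto (fun n => (f n).1 z) U (𝓝 (g z)))
    (hu : Maximal (· ∈ below g) u) :
    ∃ s : ℕ → Teich ρ → ℝ, (∀ᶠ n in U, s n ∈ below (f n).1) ∧ Tendsto s U (𝓝 u) := by
  classical
  obtain ⟨ξ, hξ⟩ := exists_rep hρ hs b
  obtain ⟨k, -, hk⟩ := (Ultrafilter.eventually_exists_mem_iff (f := U) (finite_Iic ξ)
    (P := fun k n => ∃ (w : Fin k → Teich ρ → ℝ) (C : Set (Fin k → ℝ)), IsRep b (f n).1 w C)).1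
    (.of_forall fun n => by
      obtain ⟨k, h1, w, C, h2, -⟩ := hξ _ (expl_of_mem hρ hs b (f n).2)
      exact ⟨k, h1, w, C, h2⟩)
  obtain ⟨n₀, h₀⟩ := hk.exists
  let m : ℕ → ℕ := fun n =>
    if ∃ (w : Fin k → Teich ρ → ℝ) (C : Set (Fin k → ℝ)), IsRep b (f n).1 w C then n else n₀
  have hm : ∀ᶠ n in U, m n = n := hk.mono fun n hn => if_pos hn
  choose w C hw using fun n => show ∃ (w : Fin k → Teich ρ → ℝ) (C : Set (Fin k → ℝ)),
      IsRep b (f (m n)).1 w C by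
    simp only [m]
    split_ifs with h
    exacts [h, h₀]
  obtain ⟨w', h1, h2⟩ := limit_rep hρ U hw (g := g) fun z =>
    (hf z).congr' (hm.mono fun n hn => by simp only [hn])
  obtain ⟨c, hc, h3⟩ := exists_ge_of_le_sup hρ h2.wt hu.1.1 h2.compact h2.convex
    (fun c hc => (h2.sub hc).1) fun z => (h2.sup z).1.imp fun c hc =>
      ⟨hc.1, (hu.1.2 z).trans hc.2.ge⟩
  rw [hu.eq_of_le (TTop_mem hρ hs h2 hc) h3]
  obtain ⟨s, h4, h5⟩ := hc
  refine ⟨fun n z => ∑ i, s n i * w n i z, hm.mono fun n hn => ?_,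
    tendsto_pi_nhds.2 fun z => tendsto_finsetSum _ fun i _ =>
      (tendsto_pi_nhds.1 h5 i).mul (tendsto_pi_nhds.1 (tendsto_pi_nhds.1 h1 i) z)⟩
  have h6 := TTop_mem hρ hs (hw n) (h4 n)
  rwa [hn] at h6

theorem below_spec (hρ : Good ρ N) (hs : ∃ g, Simple ρ g) (b : Teich ρ) {f : C(Teich ρ, ℝ)}
    (hf : f ∈ horoBdry b) : IsCompact (below f) ∧ Convex ℝ (below f) ∧
      (∀ z, IsGreatest ((fun w => w z) '' below f) (exp (f z))) ∧
      ∃ (k : ℕ) (μ : Fin k → Teich ρ → ℝ), μ ∈ WT ρ (Fin k) ∧ ∀ w ∈ below f,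
        ∃ a : Fin k → ℝ, (∀ j, 0 ≤ a j) ∧ ∀ z, w z = ∑ j, a j * μ j z := by
  obtain ⟨ξ, hξ⟩ := exists_rep hρ hs b
  obtain ⟨k, -, w, C, h, -⟩ := hξ _ (expl_of_mem hρ hs b hf)
  obtain ⟨k', μ, hμ, hb⟩ := exists_basis hρ (wt_sum hρ hs h.wt (u := 1) fun _ => zero_le_one)
  have h1 : ∀ v ∈ below f, ∃ a : Fin k' → ℝ, (∀ j, 0 ≤ a j) ∧ ∀ z, v z = ∑ j, a j * μ j z :=
    fun v hv => hb v hv.1 fun z => by
      obtain ⟨c, hc, e⟩ := (h.sup z).1
      exact (hv.2 z).trans (e.ge.trans (Finset.sum_le_sum fun i _ =>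
        mul_le_mul_of_nonneg_right ((h.sub hc).2 i) (wt_nonneg h.wt i z)))
  refine ⟨(isCompact_ml hρ b 1).of_isClosed_subset ?_ (TTop_sub hρ hs hf), ?_, fun z => ?_,
    k', μ, hμ, h1⟩
  · refine isClosed_iff_ultrafilter.2 fun v U hU hv => ?_
    exact ⟨isClosed_closure.mem_of_tendsto (f := id) hU (mem_of_superset hv fun v hv => hv.1),
      fun z => le_of_tendsto (tendsto_pi_nhds.1 (show Tendsto id U (𝓝 v) from hU) z)
        (mem_of_superset hv fun v hv => hv.2 z)⟩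
  · intro v hv v' hv' s t h0 h0' e
    obtain ⟨a, ha, e1⟩ := h1 v hv
    obtain ⟨a', ha', e2⟩ := h1 v' hv'
    refine ⟨?_, fun z => ?_⟩
    · convert wt_sum hρ hs hμ (u := fun j => s * a j + t * a' j) fun j =>
        add_nonneg (mul_nonneg h0 (ha j)) (mul_nonneg h0' (ha' j)) using 1
      funext z
      simp only [Pi.add_apply, Pi.smul_apply, smul_eq_mul, e1, e2, Finset.mul_sum, add_mul,
        mul_assoc, Finset.sum_add_distrib]
    · have h2 := add_le_add (mul_le_mul_of_nonneg_left (hv.2 z) h0)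
        (mul_le_mul_of_nonneg_left (hv'.2 z) h0')
      rwa [← add_mul, e, one_mul] at h2
  · obtain ⟨c, hc, e⟩ := (h.sup z).1
    exact ⟨⟨_, TTop_mem hρ hs h hc, e⟩, by rintro _ ⟨v, hv, rfl⟩; exact hv.2 z⟩

theorem tendsto_iff_below (hρ : Good ρ N) (hs : ∃ g, Simple ρ g) (b : Teich ρ)
    (f : ℕ → horoBdry b) (g : horoBdry b) : Tendsto f atTop (𝓝 g) ↔
      (∀ v : ℕ → Teich ρ → ℝ, (∀ n, v n ∈ below (f n).1) →
        ∀ w, MapClusterPt w atTop v → w ∈ below g.1) ∧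
      ∀ w, Maximal (· ∈ below g.1) w →
        ∃ v : ℕ → Teich ρ → ℝ, (∀ n, v n ∈ below (f n).1) ∧ Tendsto v atTop (𝓝 w) := by
  obtain ⟨G, hG, G1, G2⟩ := exists_functional hρ hs b
  have hK : ∀ (U : Ultrafilter ℕ) (v : ℕ → Teich ρ → ℝ), (∀ n, v n ∈ below (f n).1) →
      ∃ w ∈ {w ∈ ML ρ | w b ≤ 1}, Tendsto v U (𝓝 w) := fun U v hv =>
    (isCompact_ml hρ b 1).ultrafilter_le_nhds' (U.map v)
      (Ultrafilter.mem_map.2 (univ_mem' fun n => TTop_sub hρ hs (f n).2 (hv n)))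
  rw [tendsto_subtype_rng, tendsto_iff_pointwise hρ hs fun n =>
    sub_le_of_mem_closure hρ hs b (f n).2.1]
  refine ⟨fun h => ⟨fun v hv w hw => ?_, fun u hu => ?_⟩, fun h z => ?_⟩
  · obtain ⟨U, h1, h2⟩ := mapClusterPt_iff_ultrafilter.1 hw
    exact TTop_lim hv (fun z => (h z).mono_left h1) h2
  · let φ : (Teich ρ → ℝ) → ℝ := fun v =>
      G ((1 / 2 : ℝ) • v + (1 / 2 : ℝ) • u) - (G v + G u) / 2
    have hφ : Continuous φ := by fun_prop
    have h0 : φ u = 0 := by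
      simp only [φ, ← add_smul, add_halves, one_smul, add_self_div_two, sub_self]
    choose v h1 h2 using fun n => (below_spec hρ hs b (f n).2).1.exists_isMinOn
      ((below_spec hρ hs b (f n).2).2.2.1 b).nonempty.of_image hφ.continuousOn
    refine ⟨v, h1, (tendsto_iff_ultrafilter _ _ _).2 fun U hU => ?_⟩
    obtain ⟨w, h3, h4⟩ := hK U v h1
    obtain ⟨s, h5, h6⟩ := TTop_ultra hρ hs U (fun z => (h z).mono_left hU) hu
    have h7 : φ w ≤ φ u := le_of_tendsto_of_tendsto ((hφ.tendsto w).comp h4)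
      ((hφ.tendsto u).comp h6) (h5.mono fun n hn => h2 n hn)
    have h8 := TTop_sub hρ hs g.2 hu.1
    obtain rfl : w = u := by
      by_contra e
      exact absurd (h7.trans_eq h0) (not_le.2 (sub_pos.2 (G2 w h3.1 u h8.1 h3.2 h8.2 e)))
    exact h4
  · obtain ⟨c1, -, c2, -⟩ := below_spec hρ hs b g.2
    obtain ⟨u₀, h1, h2⟩ := (c2 z).1
    obtain ⟨u, ⟨h3, h4⟩, h5⟩ := (c1.inter_right (isClosed_Ici (a := u₀))).exists_isMaxOn
      ⟨u₀, h1, self_mem_Ici⟩ hG.continuousOn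
    obtain ⟨t, h6, h7⟩ := h.2 u ⟨h3, fun w hw e => by
      by_contra e'
      exact absurd (h5 ⟨hw, le_trans h4 e⟩) (not_le.2 (G1 u h3.1 w hw.1
        (TTop_sub hρ hs g.2 hw).2 e fun e'' => e' e''.ge))⟩
    choose v h8 h9 using fun n => ((below_spec hρ hs b (f n).2).2.2.1 z).1
    refine (tendsto_iff_ultrafilter _ _ _).2 fun U hU => ?_
    obtain ⟨w, -, h10⟩ := hK U v h8
    have h11 := tendsto_pi_nhds.1 h10 z
    have h12 : w z = exp (g.1 z) := le_antisymm
      ((h.1 v h8 w (mapClusterPt_iff_ultrafilter.2 ⟨U, hU, h10⟩)).2 z)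
      (h2.ge.trans ((h4 z).trans (le_of_tendsto_of_tendsto'
        (tendsto_pi_nhds.1 (h7.mono_left hU) z) h11 fun n => ((h6 n).2 z).trans (h9 n).ge)))
    have h13 := h11.log (h12.trans_ne (exp_ne_zero _))
    simp only [show ∀ n, v n z = _ from h9, h12, log_exp] at h13
    exact h13

end HRT
end
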