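import Pool.Agent.Work.MP_35beee_gt.Nielsen
import Pool.Agent.Work.MP_35beee_gt.Norm

/-! Fricke coordinates on Teichmueller space. -/

namespace Pool.Agent.Work.MP_35beee_gt

open Real

/-- Integral homology class. -/
noncomputable def hz (γ : F) : ℤ × ℤ :=
  Multiplicative.toAdd
    (FreeGroup.lift (fun i : Fin 2 =>
      Multiplicative.ofAdd (if i = 0 then ((1, 0) : ℤ × ℤ) else (0, 1))) γ)

theorem hz_mul (γ δ : F) : hz (γ * δ) = hz γ + hz δ := by simp [hz]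
theorem hz_inv (γ : F) : hz γ⁻¹ = -hz γ := by simp [hz]
theorem hz_a : hz (FreeGroup.of 0) = (1, 0) := by simp [hz]
theorem hz_b : hz (FreeGroup.of 1) = (0, 1) := by simp [hz]

theorem hom_eq (γ : F) : hom γ = iv (hz γ) := by
  induction γ using FreeGroup.induction_on with
  | C1 => simp [hom, hz, iv]; rfl
  | of i => fin_cases i <;> simp [hom, hz, iv]
  | inv_of i h => fin_cases i <;> simp [hom, hz, iv]
  | mul x y hx hy =>
    have : hom (x * y) = hom x + hom y := by simp [hom]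
    rw [this, hx, hy, hz_mul]
    simp [iv]

theorem exists_simple {w : ℤ × ℤ} (hw : Prim w) : ∃ γ, IsSimple γ ∧ hz γ = w := by
  obtain ⟨u, v, ⟨γ, δ, g, rfl, rfl⟩, b⟩ := ind_prim
    (fun u v => ∃ γ δ : F, Subgroup.closure ({γ, δ} : Set F) = ⊤ ∧ hz γ = u ∧ hz δ = v)
    ⟨_, _, gen_base, hz_a, hz_b⟩ ⟨_, _, gen_inv gen_base, by simp [hz_inv, hz_a], hz_b⟩
    (fun u v ⟨γ, δ, g, a, b⟩ => ⟨γ, δ * γ, gen_swap (gen_mul (gen_swap g)), a, by
      rw [hz_mul, a, b, add_comm]⟩)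
    (fun u v ⟨γ, δ, g, a, b⟩ => ⟨γ * δ, δ, gen_mul g, by rw [hz_mul, a, b], b⟩) w hw
  rcases b with b | b | b | b
  · exact ⟨γ, ⟨δ, g⟩, b⟩
  · exact ⟨δ, ⟨γ, gen_swap g⟩, b⟩
  · exact ⟨γ⁻¹, ⟨δ, gen_inv g⟩, by rw [hz_inv, b, neg_neg]⟩
  · exact ⟨δ⁻¹, ⟨γ, gen_inv (gen_swap g)⟩, by rw [hz_inv, b, neg_neg]⟩

theorem Rep.one (ρ : Rep) : ρ.1 1 = 1 := by
  have h1 := ρ.2.1 1 1
  have hu : IsUnit (ρ.1 1).det := by rw [ρ.2.2.1]; exact isUnit_one
  rw [mul_one] at h1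
  have := congrArg (fun M => M * (ρ.1 1)⁻¹) h1
  simp only [Matrix.mul_assoc, Matrix.mul_nonsing_inv _ hu, Matrix.mul_one] at this
  exact this.symm

theorem Rep.inv (ρ : Rep) (γ : F) : ρ.1 γ⁻¹ = (ρ.1 γ).adjugate := by
  have h1 : ρ.1 γ⁻¹ * ρ.1 γ = 1 := by rw [← ρ.2.1, inv_mul_cancel, Rep.one]
  have h2 := Matrix.mul_adjugate (ρ.1 γ)
  rw [ρ.2.2.1, one_smul] at h2
  calc ρ.1 γ⁻¹ = ρ.1 γ⁻¹ * (ρ.1 γ * (ρ.1 γ).adjugate) := by rw [h2, Matrix.mul_one]
    _ = _ := by rw [← Matrix.mul_assoc, h1, Matrix.one_mul]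

/-- Trace. -/
def Rep.tr (ρ : Rep) (γ : F) : ℝ := (ρ.1 γ).trace

theorem Rep.tr_inv (ρ : Rep) (γ : F) : ρ.tr γ⁻¹ = ρ.tr γ := by
  simp [Rep.tr, Rep.inv, Matrix.adjugate_fin_two, Matrix.trace_fin_two, add_comm]

theorem Rep.tr_comm (ρ : Rep) (γ δ : F) : ρ.tr (γ * δ) = ρ.tr (δ * γ) := by
  simp only [Rep.tr, ρ.2.1]; exact Matrix.trace_mul_comm _ _

theorem Rep.tr_conj (ρ : Rep) (g γ : F) : ρ.tr (g * γ * g⁻¹) = ρ.tr γ := by
  rw [ρ.tr_comm]; simp

theorem Rep.tr_inv_mul (ρ : Rep) (γ δ : F) :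
    ρ.tr (γ⁻¹ * δ) = ρ.tr γ * ρ.tr δ - ρ.tr (γ * δ) := by
  simp [Rep.tr, ρ.2.1, Rep.inv, Matrix.adjugate_fin_two, Matrix.trace_fin_two, Matrix.mul_apply,
    Fin.sum_univ_two, Matrix.vecMul, dotProduct]
  ring

theorem Rep.tr_mul_mul (ρ : Rep) (γ δ : F) :
    ρ.tr (γ * δ * δ) = ρ.tr (γ * δ) * ρ.tr δ - ρ.tr γ := by
  simp only [Rep.tr, ρ.2.1]
  exact trace_mul_mul_right _ _ (ρ.2.2.1 δ)

theorem fricke (A B : Matrix (Fin 2) (Fin 2) ℝ) (hA : A.det = 1) (hB : B.det = 1) :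
    (A * B * A.adjugate * B.adjugate).trace =
      A.trace ^ 2 + B.trace ^ 2 + (A * B).trace ^ 2 - A.trace * B.trace * (A * B).trace - 2 := by
  rw [Matrix.det_fin_two] at hA hB
  simp [Matrix.adjugate_fin_two, Matrix.trace_fin_two, Matrix.mul_apply, Fin.sum_univ_two]
  linear_combination ((B 0 0) ^ 2 + 2 * B 0 1 * B 1 0 + (B 1 1) ^ 2 - 2 +
    2 * (B 0 0 * B 1 1 - B 0 1 * B 1 0)) * hA +
    ((A 0 0 + A 1 1) ^ 2 - 2 * (A 0 0 * A 1 1 - A 0 1 * A 1 0) + 0) * hB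

theorem Rep.markov (ρ : Rep) :
    ρ.tr (.of 0) ^ 2 + ρ.tr (.of 1) ^ 2 + ρ.tr (.of 0 * .of 1) ^ 2 =
      ρ.tr (.of 0) * ρ.tr (.of 1) * ρ.tr (.of 0 * .of 1) := by
  have h := ρ.2.2.2
  unfold cusp at h
  rw [ρ.2.1, ρ.2.1, ρ.2.1, Rep.inv, Rep.inv, fricke _ _ (ρ.2.2.1 _) (ρ.2.2.1 _)] at h
  simp only [Rep.tr, ρ.2.1]
  linarith

theorem Rep.prod_pos (ρ : Rep) :
    0 < ρ.tr (.of 0) * ρ.tr (.of 1) * ρ.tr (.of 0 * .of 1) := by
  rw [← ρ.markov]
  by_contra hc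
  push Not at hc
  have s1 := sq_nonneg (ρ.tr (.of 0))
  have s2 := sq_nonneg (ρ.tr (.of 1))
  have s3 := sq_nonneg (ρ.tr (.of 0 * .of 1))
  have h1 : ρ.tr (.of 0) = 0 := pow_eq_zero_iff two_ne_zero |>.1 (by linarith)
  have h2 : ρ.tr (.of 1) = 0 := pow_eq_zero_iff two_ne_zero |>.1 (by linarith)
  have h3 : ρ.tr (.of 0 * .of 1) = 0 := pow_eq_zero_iff two_ne_zero |>.1 (by linarith)
  clear s1 s2 s3 hc
  have hA := ρ.2.2.1 (.of 0)
  have hB := ρ.2.2.1 (.of 1)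
  simp only [Rep.tr, ρ.2.1, Matrix.trace_fin_two, Matrix.mul_apply, Fin.sum_univ_two,
    Matrix.det_fin_two] at h1 h2 h3 hA hB
  generalize ρ.1 (.of 0) = A at *
  generalize ρ.1 (.of 1) = B at *
  have e1 : A 1 1 = -A 0 0 := by linarith
  have e2 : B 1 1 = -B 0 0 := by linarith
  rw [e1] at h3 hA
  rw [e2] at h3 hB
  have k1 : A 0 1 * A 1 0 = -(1 + A 0 0 ^ 2) := by linarith
  have k2 : B 0 1 * B 1 0 = -(1 + B 0 0 ^ 2) := by linarith
  have k3 : A 0 1 * B 1 0 + A 1 0 * B 0 1 = -2 * (A 0 0 * B 0 0) := by linarith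
  have k4 : (A 0 1 * B 1 0 - A 1 0 * B 0 1) ^ 2 =
      (A 0 1 * B 1 0 + A 1 0 * B 0 1) ^ 2 - 4 * (A 0 1 * A 1 0) * (B 0 1 * B 1 0) := by ring
  rw [k1, k2, k3] at k4
  nlinarith [sq_nonneg (A 0 1 * B 1 0 - A 1 0 * B 0 1), sq_nonneg (A 0 0), sq_nonneg (B 0 0)]

theorem Rep.val (ρ : Rep) : Val |ρ.tr (.of 0)| |ρ.tr (.of 1)| |ρ.tr (.of 0 * .of 1)| := by
  have h := ρ.prod_pos
  have h1 : ρ.tr (.of 0) ≠ 0 := by intro e; simp [e] at h
  have h2 : ρ.tr (.of 1) ≠ 0 := by intro e; simp [e] at h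
  have h3 : ρ.tr (.of 0 * .of 1) ≠ 0 := by intro e; simp [e] at h
  refine val_of_pos (abs_pos.2 h1) (abs_pos.2 h2) (abs_pos.2 h3) ?_
  rw [sq_abs, sq_abs, sq_abs, ← abs_mul, ← abs_mul, abs_of_pos h, ρ.markov]

theorem sign_lemma {X Y Z : ℝ} (h : 0 < X * Y * Z) (hv : |Z| < |X| * |Y|) :
    |X * Y - Z| = |X| * |Y| - |Z| ∧ 0 < X * Y * (X * Y - Z) := by
  rw [← abs_mul] at hv ⊢
  generalize X * Y = P at *
  rcases pos_and_pos_or_neg_and_neg_of_mul_pos h with ⟨a, b⟩ | ⟨a, b⟩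
  · rw [abs_of_pos a, abs_of_pos b] at *
    exact ⟨abs_of_pos (by linarith), mul_pos a (by linarith)⟩
  · rw [abs_of_neg a, abs_of_neg b] at *
    exact ⟨by rw [abs_of_neg (by linarith)]; ring, mul_pos_of_neg_of_neg a (by linarith)⟩

/-- The Fricke surface. -/
abbrev Mk : Type := {T : ℝ × ℝ × ℝ // Val T.1 T.2.1 T.2.2}

/-- Fricke coordinates of a representation. -/
noncomputable def fr (ρ : Rep) : Mk :=
  ⟨(|ρ.tr (.of 0)|, |ρ.tr (.of 1)|, |ρ.tr (.of 0 * .of 1)|), ρ.val⟩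

theorem Mk.mm (T : Mk) : IsMM (tm T.1) := isMM_tm T.1 T.2

theorem abs_tr_gen (ρ : Rep) (u v : F) (h : Subgroup.closure ({u, v} : Set F) = ⊤) :
    IsB (hz u) (hz v) ∧ |ρ.tr u| = tm (fr ρ).1 (hz u) ∧ |ρ.tr v| = tm (fr ρ).1 (hz v) ∧
      |ρ.tr (u * v)| = tm (fr ρ).1 (hz u + hz v) ∧ 0 < ρ.tr u * ρ.tr v * ρ.tr (u * v) := by
  have hm := (fr ρ).mm
  refine gen_induction (fun u v => IsB (hz u) (hz v) ∧ |ρ.tr u| = tm (fr ρ).1 (hz u) ∧
    |ρ.tr v| = tm (fr ρ).1 (hz v) ∧ |ρ.tr (u * v)| = tm (fr ρ).1 (hz u + hz v) ∧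
    0 < ρ.tr u * ρ.tr v * ρ.tr (u * v)) ?_ ?_ ?_ ?_ ?_ u v h
  · rw [hz_a, hz_b]
    refine ⟨IsB.std, by rw [tm_e1]; rfl, by rw [tm_e2]; rfl, ?_, ρ.prod_pos⟩
    simp only [Prod.mk_add_mk, add_zero, zero_add, tm_e3]; rfl
  · rintro u v ⟨a, b, c, d, e⟩
    exact ⟨a.swap, c, b, by rw [ρ.tr_comm, add_comm, d], by rw [ρ.tr_comm, mul_comm (ρ.tr v)]; exact e⟩
  · rintro u v ⟨a, b, c, d, e⟩
    have r := hm.rel _ _ a
    have p := hm.two_lt (a.neg_right.add_left.prim_left)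
    rw [← sub_eq_add_neg] at p
    obtain ⟨s1, s2⟩ := sign_lemma e (by rw [b, c, d]; linarith)
    rw [hz_inv, ρ.tr_inv, ρ.tr_inv_mul, hm.neg]
    refine ⟨a.neg_left, b, c, ?_, s2⟩
    rw [s1, b, c, d, ← hm.neg (-hz u + hz v), neg_add, neg_neg, ← sub_eq_add_neg]
    linarith
  · rintro u v ⟨a, b, c, d, e⟩
    have r := hm.step_right a
    have p := hm.two_lt (a.add_left.add_left.prim_left)
    obtain ⟨s1, s2⟩ := sign_lemma (X := ρ.tr (u * v)) (Y := ρ.tr v) (Z := ρ.tr u)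
      (by linarith) (by rw [b, c, d]; linarith)
    rw [hz_mul, ρ.tr_mul_mul]
    exact ⟨a.add_left, d, c, by rw [s1, b, c, d, r], s2⟩
  · rintro u v g ⟨a, b, c, d, e⟩
    have e1 : ∀ w, hz (g * w * g⁻¹) = hz w := fun w => by rw [hz_mul, hz_mul, hz_inv]; abel
    have e2 : g * u * g⁻¹ * (g * v * g⁻¹) = g * (u * v) * g⁻¹ := by group
    rw [e1, e1, e2, ρ.tr_conj, ρ.tr_conj, ρ.tr_conj]
    exact ⟨a, b, c, d, e⟩

theorem continuous_tr (γ : F) : Continuous fun ρ : Rep => ρ.tr γ :=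
  ((continuous_apply γ).comp continuous_subtype_val).matrix_trace

theorem continuous_fr : Continuous fr :=
  Continuous.subtype_mk (((continuous_tr _).abs).prodMk
    (((continuous_tr _).abs).prodMk (continuous_tr _).abs)) _

/-- Fricke coordinates on Teichmueller space. -/
noncomputable def frT : Teich → Mk :=
  Quot.lift fr fun _ _ h => Subtype.ext (by
    simp only [fr, Rep.tr, abs_trace_eq_of_conj h])

theorem continuous_frT : Continuous frT := continuous_quot_lift _ continuous_fr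

theorem IsSimple.prim {γ : F} (h : IsSimple γ) : Prim (hz γ) := by
  obtain ⟨δ, h⟩ := h
  refine ⟨hz δ, gen_induction (fun u v => IsB (hz u) (hz v)) ?_ ?_ ?_ ?_ ?_ γ δ h⟩
  · rw [hz_a, hz_b]; exact IsB.std
  · exact fun u v a => a.swap
  · exact fun u v a => by rw [hz_inv]; exact a.neg_left
  · exact fun u v a => by rw [hz_mul]; exact a.add_left
  · intro u v g a
    have e1 : ∀ w, hz (g * w * g⁻¹) = hz w := fun w => by rw [hz_mul, hz_mul, hz_inv]; abel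
    rwa [e1, e1]

theorem len_eq (X : Teich) {γ : F} (h : IsSimple γ) : len X γ = Lg (tm (frT X).1) (hz γ) := by
  obtain ⟨ρ⟩ := X
  obtain ⟨δ, h⟩ := h
  exact congrArg (fun r => 2 * arcosh (r / 2)) (abs_tr_gen ρ γ δ h).2.1

/-- The larger root. -/
noncomputable def zeta (z : ℝ) : ℝ := exp (arcosh (z / 2))

theorem zeta_pos (z : ℝ) : 0 < zeta z := exp_pos _

theorem zeta_add {z : ℝ} (hz : 2 < z) : zeta z + (zeta z)⁻¹ = z := by
  have := cosh_arcosh (x := z / 2) (by linarith)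
  rw [cosh_eq, exp_neg] at this
  unfold zeta; linarith

/-- Standard generators. -/
noncomputable def genM (T : Mk) (i : Fin 2) : Matrix.SpecialLinearGroup (Fin 2) ℝ :=
  if i = 0 then ⟨!![T.1.1, -1; 1, 0], by simp [Matrix.det_fin_two]⟩
  else ⟨!![0, zeta T.1.2.2; -(zeta T.1.2.2)⁻¹, T.1.2.1], by
    simp [Matrix.det_fin_two, (zeta_pos _).ne']⟩

theorem genM_tr3 (T : Mk) : ((genM T 0).1 * (genM T 1).1).trace = T.1.2.2 := by
  have := zeta_add T.2.2.2.1
  simp [genM, Matrix.trace_fin_two]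
  linarith

/-- A section of the Fricke coordinates. -/
noncomputable def sec (T : Mk) : Rep :=
  ⟨fun γ => (FreeGroup.lift (genM T) γ).1, fun γ δ => by simp, fun γ => (FreeGroup.lift (genM T) γ).2,
    by
      simp only [cusp, map_mul, map_inv, FreeGroup.lift_apply_of, Matrix.SpecialLinearGroup.coe_mul,
        Matrix.SpecialLinearGroup.coe_inv]
      rw [fricke _ _ (genM T 0).2 (genM T 1).2, genM_tr3]
      have := T.2.2.2.2
      simp [genM, Matrix.trace_fin_two]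
      linarith⟩

theorem sec_a (T : Mk) : (sec T).1 (.of 0) = !![T.1.1, -1; 1, 0] := by simp [sec, genM]
theorem sec_b (T : Mk) :
    (sec T).1 (.of 1) = !![0, zeta T.1.2.2; -(zeta T.1.2.2)⁻¹, T.1.2.1] := by simp [sec, genM]

theorem fr_sec (T : Mk) : fr (sec T) = T := by
  obtain ⟨h1, h2, h3, _⟩ := T.2
  have a3 : (sec T).tr (.of 0 * .of 1) = T.1.2.2 := by
    rw [← genM_tr3]; simp [Rep.tr, sec]
  have a1 : (sec T).tr (.of 0) = T.1.1 := by simp [Rep.tr, sec_a, Matrix.trace_fin_two]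
  have a2 : (sec T).tr (.of 1) = T.1.2.1 := by simp [Rep.tr, sec_b, Matrix.trace_fin_two]
  apply Subtype.ext
  simp only [fr, a1, a2, a3]
  rw [abs_of_pos (by linarith), abs_of_pos (by linarith), abs_of_pos (by linarith)]

theorem continuous_zeta : Continuous fun T : Mk => zeta T.1.2.2 := by
  refine continuous_exp.comp (continuousOn_arcosh.comp_continuous (by fun_prop) fun T => ?_)
  have := T.2.2.2.1
  simp only [Set.mem_Ici]; linarith

theorem continuous_sec : Continuous sec := by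
  refine Continuous.subtype_mk (continuous_pi fun γ => ?_) _
  change Continuous fun T => (sec T).1 γ
  have hof : ∀ i : Fin 2, Continuous fun T => (sec T).1 (.of i) := by
    intro i
    fin_cases i
    · simp only [Fin.zero_eta, sec_a]
      refine continuous_matrix fun i j => ?_
      fin_cases i <;> fin_cases j <;> simp <;> fun_prop
    · simp only [Fin.mk_one, sec_b]
      have := continuous_zeta
      have : Continuous fun T : Mk => (zeta T.1.2.2)⁻¹ :=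
        continuous_zeta.inv₀ fun T => (zeta_pos _).ne'
      refine continuous_matrix fun i j => ?_
      fin_cases i <;> fin_cases j <;> simp <;> fun_prop
  induction γ using FreeGroup.induction_on with
  | C1 => simp only [Rep.one]; exact continuous_const
  | of i => exact hof i
  | inv_of i h => simp only [Rep.inv]; exact h.matrix_adjugate
  | mul x y hx hy => simp only [(sec _).2.1]; exact hx.matrix_mul hy

theorem exists_conj (A B C : Matrix (Fin 2) (Fin 2) ℝ) (hA : A.det = 1) (hB : B.det = 1)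
    (hC : C.det = 1) (hC2 : C.trace = -2) (hCc : C * (B * A) = A * B) (ζ : ℝ) (hζ : ζ ≠ 0)
    (hz : (A * B).trace = ζ + ζ⁻¹) :
    ∃ P : Matrix (Fin 2) (Fin 2) ℝ, P.det ≠ 0 ∧ A * P = P * !![A.trace, -1; 1, 0] ∧
      B * P = P * !![0, ζ; -ζ⁻¹, B.trace] := by
  have hd : (A * B - ζ⁻¹ • (1 : Matrix (Fin 2) (Fin 2) ℝ)).det = 0 := by
    have h1 : (A * B).det = 1 := by rw [Matrix.det_mul, hA, hB, one_mul]
    generalize A * B = M at *
    rw [Matrix.det_fin_two] at h1 ⊢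
    rw [Matrix.trace_fin_two] at hz
    have : ζ * ζ⁻¹ = 1 := mul_inv_cancel₀ hζ
    simp
    linear_combination h1 - ζ⁻¹ * hz - this
  obtain ⟨w, hw, hw2⟩ := Matrix.exists_mulVec_eq_zero_iff.2 hd
  rw [Matrix.sub_mulVec, sub_eq_zero, Matrix.smul_mulVec, Matrix.one_mulVec] at hw2
  have hζ1 : ζ * ζ⁻¹ = 1 := mul_inv_cancel₀ hζ
  refine ⟨!![w 0, -ζ * (B.mulVec w) 0; w 1, -ζ * (B.mulVec w) 1], ?_, ?_, ?_⟩
  · intro h0
    have h1 : w 0 * (B.mulVec w) 1 = w 1 * (B.mulVec w) 0 := by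
      rw [Matrix.det_fin_two] at h0
      simp only [Matrix.of_apply, Matrix.cons_val', Matrix.cons_val_zero, Matrix.cons_val_one,
        Matrix.cons_val_fin_one] at h0
      apply mul_left_cancel₀ hζ
      linarith
    obtain ⟨μ, hμ⟩ : ∃ μ : ℝ, B.mulVec w = μ • w := by
      by_cases h2 : w 0 = 0
      · have h3 : w 1 ≠ 0 := by
          intro h3; apply hw; ext i; fin_cases i <;> simp [h2, h3]
        refine ⟨B.mulVec w 1 / w 1, ?_⟩
        ext i; fin_cases i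
        · simp only [Fin.zero_eta, Pi.smul_apply, h2, smul_eq_mul, mul_zero]
          rw [h2, zero_mul] at h1
          exact (mul_eq_zero.1 h1.symm).resolve_left h3
        · simp [h3]
      · refine ⟨B.mulVec w 0 / w 0, ?_⟩
        ext i; fin_cases i
        · simp [h2]
        · simp only [Fin.mk_one, Pi.smul_apply, smul_eq_mul]
          field_simp; linarith
    have e1 : μ • A.mulVec w = ζ⁻¹ • w := by
      rw [← hw2, ← Matrix.mulVec_mulVec, hμ, Matrix.mulVec_smul]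
    have hμ0 : μ ≠ 0 := by
      rintro rfl
      rw [zero_smul, eq_comm, smul_eq_zero] at e1
      exact e1.elim (inv_ne_zero hζ) hw
    have e2 : (B * A).mulVec w = ζ⁻¹ • w := by
      apply smul_right_injective _ hμ0
      simp only
      rw [← Matrix.mulVec_mulVec, ← Matrix.mulVec_smul, e1, Matrix.mulVec_smul, hμ, smul_comm]
    have e3 : (C - 1).mulVec w = 0 := by
      have : (C * (B * A)).mulVec w = (A * B).mulVec w := by rw [hCc]
      rw [← Matrix.mulVec_mulVec, e2, hw2, Matrix.mulVec_smul] at this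
      rw [Matrix.sub_mulVec, Matrix.one_mulVec, sub_eq_zero]
      exact smul_right_injective _ (inv_ne_zero hζ) this
    have e4 := Matrix.exists_mulVec_eq_zero_iff.1 ⟨w, hw, e3⟩
    rw [Matrix.det_fin_two] at e4 hC
    rw [Matrix.trace_fin_two] at hC2
    simp at e4
    linarith
  · have q0 := congrFun hw2 0
    have q1 := congrFun hw2 1
    rw [Matrix.det_fin_two] at hA
    simp [Matrix.mulVec, dotProduct, Matrix.mul_apply, Fin.sum_univ_two] at q0 q1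
    ext i j
    fin_cases i <;> fin_cases j <;>
      simp [Matrix.mulVec, dotProduct, Matrix.mul_apply, Fin.sum_univ_two, Matrix.trace_fin_two]
    · linear_combination (ζ * A 1 1) * q0 - (ζ * A 0 1) * q1 -
        ζ * (B 0 0 * w 0 + B 0 1 * w 1) * hA + (A 1 1 * w 0 - A 0 1 * w 1) * hζ1
    · linear_combination (-ζ) * q0 - w 0 * hζ1
    · linear_combination (ζ * A 0 0) * q1 - (ζ * A 1 0) * q0 -
        ζ * (B 1 0 * w 0 + B 1 1 * w 1) * hA + (A 0 0 * w 1 - A 1 0 * w 0) * hζ1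
    · linear_combination (-ζ) * q1 - w 1 * hζ1
  · rw [Matrix.det_fin_two] at hB
    ext i j
    fin_cases i <;> fin_cases j <;>
      simp [Matrix.mulVec, dotProduct, Matrix.mul_apply, Fin.sum_univ_two, Matrix.trace_fin_two]
    · linear_combination (-(B 0 0 * w 0 + B 0 1 * w 1)) * hζ1
    · linear_combination (ζ * w 0) * hB
    · linear_combination (-(B 1 0 * w 0 + B 1 1 * w 1)) * hζ1
    · linear_combination (ζ * w 1) * hB

theorem exists_sign (x : ℝ) : ∃ ε : ℝ, (ε = 1 ∨ ε = -1) ∧ ε * x = |x| := by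
  rcases le_total 0 x with h | h
  · exact ⟨1, Or.inl rfl, by rw [abs_of_nonneg h, one_mul]⟩
  · exact ⟨-1, Or.inr rfl, by rw [abs_of_nonpos h]; ring⟩

theorem conj_sec (ρ : Rep) : Conj (sec (fr ρ)) ρ := by
  obtain ⟨ε, hε, e1⟩ := exists_sign (ρ.tr (.of 0))
  obtain ⟨η, hη, e2⟩ := exists_sign (ρ.tr (.of 1))
  have hε2 : ε ^ 2 = 1 := by rcases hε with h | h <;> simp [h]
  have hη2 : η ^ 2 = 1 := by rcases hη with h | h <;> simp [h]
  obtain ⟨v1, v2, v3, -⟩ := ρ.val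
  have e3 : ε * η * ρ.tr (.of 0 * .of 1) = |ρ.tr (.of 0 * .of 1)| := by
    have p := ρ.prod_pos
    have q : 0 < ε * η * ρ.tr (.of 0 * .of 1) := by
      have : |ρ.tr (.of 0)| * |ρ.tr (.of 1)| * (ε * η * ρ.tr (.of 0 * .of 1)) =
          ρ.tr (.of 0) * ρ.tr (.of 1) * ρ.tr (.of 0 * .of 1) := by
        rw [← e1, ← e2]
        linear_combination (ρ.tr (.of 0) * ρ.tr (.of 1) * ρ.tr (.of 0 * .of 1)) *
          (η ^ 2 * hε2 + hη2)
      rw [← this] at p
      exact (pos_iff_pos_of_mul_pos p).1 (by positivity)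
    rw [← abs_of_pos q, abs_mul, abs_mul]
    rcases hε with h | h <;> rcases hη with h' | h' <;> simp [h, h']
  obtain ⟨P, hP, hA, hB⟩ := exists_conj (ε • ρ.1 (.of 0)) (η • ρ.1 (.of 1)) (ρ.1 cusp)
    (by simp [hε2, ρ.2.2.1]) (by simp [hη2, ρ.2.2.1]) (ρ.2.2.1 _) ρ.2.2.2
    (by
      simp only [Matrix.smul_mul, Matrix.mul_smul, ← ρ.2.1, smul_comm ε η]
      congr 3
      simp [cusp])
    (zeta |ρ.tr (.of 0 * .of 1)|) (zeta_pos _).ne'
    (by
      rw [zeta_add v3, ← e3]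
      simp only [Matrix.smul_mul, Matrix.mul_smul, ← ρ.2.1, Matrix.trace_smul, smul_eq_mul, Rep.tr]
      ring)
  have hA' : ε • (ρ.1 (.of 0) * P) = P * (sec (fr ρ)).1 (.of 0) := by
    rw [sec_a, ← Matrix.smul_mul, hA, Matrix.trace_smul, smul_eq_mul]
    exact congrArg (fun r => P * !![r, -1; 1, 0]) e1
  have hB' : η • (ρ.1 (.of 1) * P) = P * (sec (fr ρ)).1 (.of 1) := by
    rw [sec_b, ← Matrix.smul_mul, hB, Matrix.trace_smul, smul_eq_mul]
    exact congrArg (fun r => P * !![0, _; _, r]) e2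
  refine ⟨P, hP, fun γ => ?_⟩
  generalize sec (fr ρ) = σ at *
  have hof : ∀ i : Fin 2, ρ.1 (.of i) * P = P * σ.1 (.of i) ∨
      ρ.1 (.of i) * P = -(P * σ.1 (.of i)) := by
    intro i
    fin_cases i
    · rcases hε with rfl | rfl
      · left; simpa using hA'
      · right; simp only [Fin.zero_eta]; rw [← hA']; simp
    · rcases hη with rfl | rfl
      · left; simpa using hB'
      · right; simp only [Fin.mk_one]; rw [← hB']; simp
  induction γ using FreeGroup.induction_on with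
  | C1 => left; simp [Rep.one]
  | of i => exact hof i
  | inv_of i h =>
    have k1 : ρ.1 (FreeGroup.of i)⁻¹ * ρ.1 (.of i) = 1 := by rw [← ρ.2.1]; simp [Rep.one]
    have k2 : σ.1 (.of i) * σ.1 (FreeGroup.of i)⁻¹ = 1 := by rw [← σ.2.1]; simp [Rep.one]
    rcases h with h | h
    · left
      have := congrArg (fun M => ρ.1 (FreeGroup.of i)⁻¹ * M * σ.1 (FreeGroup.of i)⁻¹) h
      simp only [← Matrix.mul_assoc, k1, Matrix.one_mul] at this
      rw [this, Matrix.mul_assoc _ (σ.1 _), k2, Matrix.mul_one]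
    · right
      have := congrArg (fun M => ρ.1 (FreeGroup.of i)⁻¹ * M * σ.1 (FreeGroup.of i)⁻¹) h
      simp only [← Matrix.mul_assoc, k1, Matrix.one_mul, Matrix.mul_neg, Matrix.neg_mul] at this
      rw [this, Matrix.mul_assoc _ (σ.1 _), k2, Matrix.mul_one, neg_neg]
  | mul x y hx hy =>
    rw [ρ.2.1, σ.2.1, Matrix.mul_assoc]
    rcases hx with hx | hx <;> rcases hy with hy | hy <;>
      simp [hy, ← Matrix.mul_assoc, hx]

/-- Fricke coordinates are a homeomorphism. -/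
noncomputable def frH : Teich ≃ₜ Mk where
  toFun := frT
  invFun T := Quot.mk _ (sec T)
  left_inv := by rintro ⟨ρ⟩; exact Quot.sound (conj_sec ρ)
  right_inv T := fr_sec T
  continuous_toFun := continuous_frT
  continuous_invFun := continuous_quot_mk.comp continuous_sec

end Pool.Agent.Work.MP_35beee_gt
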