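import Pool.Agent.Work.MP_35beee_gt.SSpike
import Pool.Agent.Work.MP_35beee_gt.PChain
import Pool.Agent.Work.MP_35beee_gt.GDense2
import Mathlib
import Pool.Agent.Work.MP_35beee_gt.PFace
import Pool.Agent.Work.MP_35beee_gt.GTwRep
import Pool.Agent.Work.MP_35beee_gt.MDefs
import Pool.Agent.Work.MP_35beee_gt.VAsym
import Pool.Agent.Work.MP_35beee_gt.TStat
import Pool.Agent.Lib.BorsukUlam.Basic

-- merged part: Pool.Agent.Work.MP_35beee_gt.CTw
section
/-!
Mapping classes, and the effect of twisting on lengths.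

Plan. `IsTw.abs_tl_sub_le`: upper bound `IsTw.tl_le` in the marking `z`; lower bound: `sum_le_tl`
in the marking `z` for `φ g` with a constant width (`Sys.exists_wid`), `sum_srt`, `twist_comp`;
the twists of the lifts of `g` that cross the axis of `R i` are bounded (finitely many modulo
`R i`, `finite_xset`, `twist_smul`). `exists_flow`: `qrep` with the weights `Multi.exists_weight`
(choose the weight as a function of `t` that is continuous for each line: the label of a line is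
unique, `Multi.label_unique`), `IsQmap.exists_mark`, `continuous_qc`, `tl_qrep_of_not_cross`,
`tl_qrep_le`, `sum_srt`. For the lower bound apply `sum_le_tl` in the twisted marking. The widths
there must not depend on `t`: use `Multi.wid` (the lengths of the `R i` do not change), and
`IsQmap.twist_sys`.
-/

namespace HRT

open Set Filter Topology Real

variable {Γ : Type*} [Group Γ] {ρ : Γ →* Isom}

/-- Automorphisms induced by orientation preserving homeomorphisms. -/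
def IsMod (ρ : Γ →* Isom) (φ : Γ ≃* Γ) : Prop := ∃ f, IsMark ρ (ρ.comp φ.toMonoidHom) f

theorem IsMod.refl (ρ : Γ →* Isom) : IsMod ρ (MulEquiv.refl Γ) :=
  ⟨_, IsMark.refl ρ⟩

theorem IsMod.trans {φ ψ : Γ ≃* Γ} (h1 : IsMod ρ φ) (h2 : IsMod ρ ψ) : IsMod ρ (φ.trans ψ) := by
  obtain ⟨f, hf⟩ := h1
  obtain ⟨k, hk⟩ := h2
  exact ⟨_, hf.trans (hk.comp φ.toMonoidHom)⟩

theorem IsMod.symm {φ : Γ ≃* Γ} (h : IsMod ρ φ) : IsMod ρ φ.symm := by
  obtain ⟨f, hf⟩ := h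
  have e : (ρ.comp φ.toMonoidHom).comp φ.symm.toMonoidHom = ρ :=
    MonoidHom.ext fun g => congrArg ρ (φ.apply_symm_apply g)
  have h1 := (hf.comp φ.symm.toMonoidHom).symm
  rw [e] at h1
  exact ⟨_, h1⟩

theorem IsMod.of_mark {φ : Γ ≃* Γ} (h : IsMod ρ φ) {σ : Γ →* Isom} {f : Circ ≃ₜ Circ}
    (hm : IsMark ρ σ f) : IsMod σ φ := by
  obtain ⟨k, hk⟩ := h
  exact ⟨_, (hm.symm.trans hk).trans (hm.comp φ.toMonoidHom)⟩

theorem isMod_conj (ρ : Γ →* Isom) (g : Γ) : IsMod ρ (MulAut.conj g) := by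
  have e : ρ.comp (MulAut.conj g).toMonoidHom = (MulAut.conj (ρ g)).toMonoidHom.comp ρ :=
    MonoidHom.ext fun x => by simp
  exact ⟨_, e ▸ isMark_conj ρ (ρ g)⟩

theorem IsMod.simple_iff {φ : Γ ≃* Γ} (h : IsMod ρ φ) (g : Γ) : Simple ρ (φ g) ↔ Simple ρ g := by
  obtain ⟨f, hf⟩ := h
  rw [← simple_comp, hf.simple_iff]

theorem IsMod.hyp_iff {φ : Γ ≃* Γ} (h : IsMod ρ φ) (g : Γ) : Hyp (ρ (φ g)) ↔ Hyp (ρ g) := by
  obtain ⟨f, hf⟩ := h
  exact hf.hyp_iff g

theorem IsMod.inter_eq {φ : Γ ≃* Γ} (h : IsMod ρ φ) (g δ : Γ) :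
    inter ρ (φ g) (φ δ) = inter ρ g δ := by
  obtain ⟨f, hf⟩ := h
  rw [← inter_comp, hf.inter_eq]

theorem IsMod.multi {φ : Γ ≃* Γ} (h : IsMod ρ φ) {ι : Type} {R : ι → Γ} (hR : Multi ρ R) :
    Multi ρ fun i => φ (R i) := by
  obtain ⟨f, hf⟩ := h
  have h1 := (hf.multi_iff R).2 hR
  refine ⟨fun i => (simple_comp φ _).1 (h1.1 i), fun i j hij g => ?_⟩
  obtain ⟨g, rfl⟩ := φ.surjective g
  obtain ⟨h2, h3, h4⟩ := h1.2 i j hij g
  rw [← map_inv, ← map_mul, ← map_mul, ← map_inv]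
  exact ⟨h2, fun e => h3 (φ.injective e), fun e => h4 (φ.injective e)⟩

/-- The action of a mapping class on markings. -/
def Rep.act (x : Rep ρ) {φ : Γ ≃* Γ} (h : IsMod ρ φ) : Rep ρ :=
  ⟨x.1.comp φ.toMonoidHom, by
    obtain ⟨f, hf⟩ := h
    obtain ⟨k, hk⟩ := x.2
    exact ⟨f.trans k, hf.trans (hk.comp φ.toMonoidHom)⟩⟩

theorem Rep.act_apply (x : Rep ρ) {φ : Γ ≃* Γ} (h : IsMod ρ φ) (g : Γ) :
    (x.act h).1 g = x.1 (φ g) := rfl

variable {ι : Type} [Fintype ι] {R : ι → Γ}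

theorem IsTw.isMod {k : ι → ℤ} {φ : Γ ≃* Γ} (hφ : IsTw ρ R k φ) (hρ : Disc ρ) (hR : Multi ρ R) :
    IsMod ρ φ := hφ.exists_mark hρ hR

/-- The twists of the lifts of `g` across the axis of `s` are bounded. -/
theorem CTw_bdd (hρ : Disc ρ) {s g : Γ} (hs : Hyp (ρ s)) (hg : Hyp (ρ g)) :
    ∃ M : ℝ, ∀ c : Γ, Cross (ax (ρ s)) (ρ c • ax (ρ g)) →
      |twist (ax (ρ s)) (ρ c • ax (ρ g))| ≤ M := by
  obtain ⟨M, hM⟩ := ((hρ.finite_xset (g := s) hg 0).image fun l => |twist (ax (ρ s)) l|).bddAbove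
  refine ⟨M, fun c hc => ?_⟩
  obtain ⟨n, hn⟩ := GInter_exists_shift hs (xp (ax (ρ s)) (ρ c • ax (ρ g))) 0
  obtain ⟨h1, h2⟩ := GInter_cross_zpow hs n hc
  have e : ρ (s ^ n) • ax (ρ s) = ax (ρ s) := by rw [map_zpow, hs.zpow_smul_ax]
  rw [← twist_smul (ρ (s ^ n)) hc, e]
  exact hM ⟨_, ⟨⟨s ^ n * c, by rw [map_mul, mul_smul]⟩, h1, h2 ▸ hn⟩, rfl⟩

omit [Fintype ι] in
theorem CTw_ax (i : ι) : ax (ρ (R i)) ∈ lifts ρ fun _ : Unit => R i :=
  ⟨(), 1, Or.inl (by rw [map_one, one_smul])⟩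

omit [Fintype ι] in
theorem CTw_ax' (i : ι) : ax (ρ (R i)) ∈ lifts ρ R :=
  ⟨i, 1, Or.inl (by rw [map_one, one_smul])⟩

omit [Fintype ι] in
theorem CTw_zero (hρ : Disc ρ) (hR : Multi ρ R) (hL : Sys ρ (lifts ρ R)) {g : Γ} (hg : Hyp (ρ g))
    (hA : ax (ρ g) ∈ lifts ρ R) (i : ι) : inter ρ g (R i) = 0 :=
  (hρ.inter_eq_zero_iff hg (hR.1 i).hyp (hR.1 i).prim).2 fun c => hL.nc _ hA _ ⟨i, c, Or.inl rfl⟩

theorem CTw_upper (hρ : Disc ρ) (hR : Multi ρ R) {g : Γ} (hg : Hyp (ρ g)) {t : ι → ℝ}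
    {τ : Geo → ℝ} (hL : Sys ρ (lifts ρ R)) (hτ : Wt ρ (lifts ρ R) τ)
    (hw : ∀ (i : ι), ∀ l ∈ lifts ρ fun _ : Unit => R i, τ l = t i) {p : Pt}
    (hp : Off (lifts ρ R) p) :
    tl (qrep hL hτ hp g) ≤ tl (ρ g) + ∑ i, |t i| * inter ρ g (R i) := by
  by_cases hA : ax (ρ g) ∈ lifts ρ R
  · rw [tl_qrep_of_not_cross hL hτ hp hg (hL.nc _ hA)]
    exact le_add_of_nonneg_right (Finset.sum_nonneg fun i _ =>
      mul_nonneg (abs_nonneg _) (Nat.cast_nonneg _))
  · obtain ⟨u, hu⟩ := GTwist2_off hL hA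
    rw [tl_qrep_base hL hτ hp hu, ← hρ.sum_srt hR hg hu (W := fun l => |τ l|) fun i l hl => by
      rw [hw i l hl]]
    exact tl_qrep_le hL hτ hg hu

theorem CTw_lower (hρ : Disc ρ) (hR : Multi ρ R) {g : Γ} (hg : Hyp (ρ g)) :
    ∃ C : ℝ, 0 ≤ C ∧ ∀ (t : ι → ℝ) (τ : Geo → ℝ) (hL : Sys ρ (lifts ρ R))
      (hτ : Wt ρ (lifts ρ R) τ), (∀ (i : ι), ∀ l ∈ lifts ρ fun _ : Unit => R i, τ l = t i) →
      ∀ (p : Pt) (hp : Off (lifts ρ R) p),
        ∑ i, |t i| * (inter ρ g (R i) : ℝ) ≤ tl (qrep hL hτ hp g) + C := by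
  choose M hM using fun i => CTw_bdd hρ (hR.1 i).hyp hg
  obtain ⟨w, hw0, hw⟩ : ∃ w : ℝ, 0 < w ∧ ∀ i, w ≤ colW (tl (ρ (R i))) / 2 := by
    obtain ⟨w, h1, h2⟩ := Pi.exists_forall_pos_add_lt (x := fun _ : ι => (0 : ℝ))
      (y := fun i => colW (tl (ρ (R i))) / 2) fun i => half_pos (colW_pos (hR.1 i).hyp)
    exact ⟨w, h1, fun i => by linarith only [h2, h2 i]⟩
  set K := 4 + 2 * arcosh (cosh w / sinh w) with hK
  refine ⟨|∑ i, (M i + 2 * tl (ρ (R i)) + K) * (inter ρ g (R i) : ℝ)|, abs_nonneg _,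
    fun t τ hL hτ hwt p hp => ?_⟩
  obtain ⟨F, hF⟩ := exists_qmap hL hτ
  obtain ⟨f, hf, hm⟩ := hF.exists_mark hL hτ hp
  have hlen : ∀ i, tl (qrep hL hτ hp (R i)) = tl (ρ (R i)) := fun i =>
    tl_qrep_of_not_cross hL hτ hp (hR.1 i).hyp (hL.nc _ (CTw_ax' i))
  generalize qrep hL hτ hp = σ at hm hlen
  have hσ := hm.disc hρ
  have hRσ := (hm.multi_iff R).2 hR
  have hLσ := hRσ.sys hσ
  obtain ⟨hgσ, eg⟩ := hm.hyp hg
  by_cases hA : ax (σ g) ∈ lifts σ R
  · rw [Finset.sum_eq_zero fun i _ => by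
      rw [← hm.inter_eq, CTw_zero hσ hRσ hLσ hgσ hA i, Nat.cast_zero, mul_zero]]
    exact add_nonneg (tl_nonneg _) (abs_nonneg _)
  obtain ⟨u, hu⟩ := GTwist2_off hLσ hA
  obtain ⟨wd, hwd⟩ := hRσ.exists_weight hσ fun i => colW (tl (σ (R i))) / 2
  have hW := hRσ.wid hσ hwd hw0 fun i => by rw [hlen]; exact hw i
  obtain ⟨W, hW'⟩ := hRσ.exists_weight hσ fun i => |t i| - (M i + 2 * tl (ρ (R i)) + K)
  have h1 := sum_le_tl hLσ hW hgσ hu
  have h2 := hσ.sum_srt hRσ hgσ hu hW'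
  have h3 : ((srt (lifts σ R) (pt (ax (σ g)) u) (σ g • pt (ax (σ g)) u)).map W).sum ≤
      ((srt (lifts σ R) (pt (ax (σ g)) u) (σ g • pt (ax (σ g)) u)).map fun l =>
        2 * wd l + |twist l (ax (σ g))| - (4 + 2 * arcosh (cosh w / sinh w))).sum := by
    refine List.sum_le_sum fun l hl => ?_
    obtain ⟨hl1, hl2, -⟩ := GTwLen_mem hLσ hgσ hl
    have hc : Cross l (ax (σ g)) := mul_neg_of_neg_of_pos hl2.1 hl2.2
    have hwl := hW.le l hl1
    obtain ⟨i, c, hlc⟩ := hl1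
    rw [hW' i l ⟨(), c, hlc⟩]
    have key : ∀ m, m = σ c • ax (σ (R i)) → Cross m (ax (σ g)) →
        |t i| - (M i + 2 * tl (ρ (R i))) ≤ |twist m (ax (σ g))| := by
      rintro m rfl hc
      have e1 : ax (σ g) = σ c • (ρ c⁻¹ • ax (ρ g)).map f := by
        rw [hm.map_smul, ← eg, map_inv, smul_inv_smul]
      rw [e1, (hm.hyp (hR.1 i).hyp).2] at hc ⊢
      rw [cross_smul] at hc
      rw [twist_smul _ hc]
      rw [hm.ori.cross] at hc
      have h4 := hF.twist_sys hL hτ hp hf (hR.1 i).hyp (CTw_ax' i) hc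
      have h5 := hM i _ hc
      rw [hwt i _ (CTw_ax i)] at h4
      generalize twist ((ax (ρ (R i))).map f) ((ρ c⁻¹ • ax (ρ g)).map f) = a at h4
      generalize twist (ax (ρ (R i))) (ρ c⁻¹ • ax (ρ g)) = b at h4 h5
      have h6 : |t i| ≤ |a| + |b| + |a - b - t i| := by
        calc |t i| = |a - b - (a - b - t i)| := by congr 1; ring
          _ ≤ |a - b| + |a - b - t i| := abs_sub _ _
          _ ≤ _ := by linarith only [abs_sub a b]
      linarith only [h4, h5, h6]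
    rcases hlc with rfl | rfl
    · linarith only [hw0, hwl, key, hc, key _ rfl hc]
    · rw [cross_rev_left] at hc
      rw [twist_rev_left hc]
      linarith only [hw0, hwl, key, hc, key _ rfl hc]
  have h4 : ∑ i, (|t i| - (M i + 2 * tl (ρ (R i)) + K)) * (inter σ g (R i) : ℝ) =
      ∑ i, |t i| * (inter ρ g (R i) : ℝ) -
        ∑ i, (M i + 2 * tl (ρ (R i)) + K) * (inter ρ g (R i) : ℝ) := by
    rw [← Finset.sum_sub_distrib]
    exact Finset.sum_congr rfl fun i _ => by rw [hm.inter_eq, sub_mul]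
  linarith only [h1, h2, h3, h4, le_abs_self (∑ i, (M i + 2 * tl (ρ (R i)) + K) * (inter ρ g (R i) : ℝ))]

theorem IsTw.abs_tl_sub_le (hρ : Disc ρ) (hR : Multi ρ R) (z : Rep ρ) {g : Γ} (hg : Hyp (ρ g)) :
    ∃ C : ℝ, ∀ (k : ι → ℤ) (φ : Γ ≃* Γ), IsTw ρ R k φ →
      |tl (z.1 (φ g)) - ∑ i, |(k i : ℝ)| * tl (z.1 (R i)) * inter ρ g (R i)| ≤ C := by
  obtain ⟨σ, f, hm⟩ := z
  have hσ := hm.disc hρ
  have hRσ := (hm.multi_iff R).2 hR
  have hgσ := (hm.hyp hg).1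
  obtain ⟨C, hC0, hC⟩ := CTw_lower hσ hRσ hgσ
  refine ⟨C + tl (σ g), fun k φ hφ => ?_⟩
  have h1 := (hφ.of_mark hm).tl_le hσ hRσ hgσ
  obtain ⟨τ, hL, hτ, hw, h⟩ := GTwist2_data (hφ.of_mark hm) hσ hRσ
  obtain ⟨p, hp, -⟩ := hL.exists_off_near o one_pos
  obtain ⟨c, hc⟩ := h p hp
  have h2 := hC _ τ hL hτ hw p hp
  rw [← tl_conj (σ c), ← hc] at h2
  simp only [abs_mul, abs_of_nonneg (tl_nonneg _), hm.inter_eq] at h1 h2
  have h3 := tl_nonneg (σ g)
  exact abs_le.2 ⟨by linarith, by linarith⟩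

/-- The twist flow along a multicurve. -/
theorem exists_flow (hρ : Disc ρ) (hR : Multi ρ R) (x : Rep ρ) :
    ∃ F : (ι → ℝ) → Rep ρ, Continuous F ∧ F 0 = x ∧
      (∀ t g, Hyp (ρ g) → (∀ i, inter ρ g (R i) = 0) → tl ((F t).1 g) = tl (x.1 g)) ∧
      (∀ t g, Hyp (ρ g) → tl ((F t).1 g) ≤ tl (x.1 g) + ∑ i, |t i| * inter ρ g (R i)) ∧
      ∀ g, Hyp (ρ g) → ∃ C : ℝ, ∀ t, ∑ i, |t i| * (inter ρ g (R i) : ℝ) ≤ tl ((F t).1 g) + C := by
  classical
  obtain ⟨σ, f, hm⟩ := x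
  have hσ := hm.disc hρ
  have hRσ := (hm.multi_iff R).2 hR
  have hL := hRσ.sys hσ
  obtain ⟨p, hp, -⟩ := hL.exists_off_near o one_pos
  let T : (ι → ℝ) → Geo → ℝ := fun t l =>
    if H : ∃ i, l ∈ lifts σ fun _ : Unit => R i then t H.choose else 0
  have hT : ∀ t, ∀ (i : ι), ∀ l ∈ lifts σ fun _ : Unit => R i, T t l = t i := by
    intro t i l hl
    have H : ∃ i, l ∈ lifts σ fun _ : Unit => R i := ⟨i, hl⟩
    simp only [T]
    rw [dif_pos H, hRσ.label_unique hσ H.choose_spec hl]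
  have hTc : ∀ l, Continuous fun t => T t l := by
    intro l
    by_cases H : ∃ i, l ∈ lifts σ fun _ : Unit => R i
    · simp only [T, dif_pos H]
      exact continuous_apply _
    · simp only [T, dif_neg H]
      exact continuous_const
  have hτ : ∀ t, Wt σ (lifts σ R) (T t) := fun t => Multi.wt (hT t)
  have hmk : ∀ t, ∃ h, IsMark ρ (qrep hL (hτ t) hp) h := by
    intro t
    obtain ⟨F, hF⟩ := exists_qmap hL (hτ t)
    obtain ⟨k, -, hk⟩ := hF.exists_mark hL (hτ t) hp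
    exact ⟨_, hm.trans hk⟩
  refine ⟨fun t => ⟨qrep hL (hτ t) hp, hmk t⟩, ?_, ?_, fun t g hg h0 => ?_, fun t g hg => ?_,
    fun g hg => ?_⟩
  · refine continuous_induced_rng.2 (continuous_pi fun g => continuous_pi fun v => ?_)
    exact continuous_lin2.comp
      (((continuous_qc hTc p (σ g • p)).mul continuous_const).prodMk continuous_const)
  · refine Subtype.ext (MonoidHom.ext fun g => ?_)
    have e : ∀ l, T 0 l = 0 := fun l => by simp [T]
    show qc (lifts σ R) (T 0) p (σ g • p) * σ g = σ g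
    simp [qc, e, trans_zero]
  · exact tl_qrep_of_not_cross hL (hτ t) hp (hm.hyp hg).1
      (GTwist2_nc hσ hRσ (hm.hyp hg).1 fun i => by rw [hm.inter_eq, h0])
  · simpa only [hm.inter_eq] using CTw_upper hσ hRσ (hm.hyp hg).1 hL (hτ t) (hT t) hp
  · obtain ⟨C, -, hC⟩ := CTw_lower hσ hRσ (hm.hyp hg).1
    exact ⟨C, fun t => by simpa only [hm.inter_eq] using hC t _ hL (hτ t) (hT t) p hp⟩

end HRT
end

-- merged part: Pool.Agent.Work.MP_35beee_gt.PPants
section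
/-!
Pants decompositions. The darts `d : D` are the boundary components of the pairs of pants, `nx`
rotates the three darts of a pair of pants, `E d` is the boundary element. `PG` adds the gluing
involution `gl` and the connecting elements `t`.

Plan. `cover`: `exists_top`, `FO.cover`. `line_end`: if a point of `l` is on an axis then `l` is
that axis (`cross_of_common`); otherwise take the triangle of `cover` at a point `p` of `l` and
apply `Frame.cases` to both ends: an end in the interior of a gap forces both ends into that gap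
and `p` outside that object, but the triangle is inside; two different arcs contradict
`Frame.cross_of_arcs`; both ends in one arc contradict `mem_tri_iff`. `mem_of_simple`: `line_end`,
`OSys.eq_of_end`. `not_IL`: `OSys.not_IL`, or `FO.reach`, `mp_of_ft`, `ft_of_mp`, `FO.not_IL`.
`exists_pg`: choose `gl d` with `E (gl d)` conjugate to `(E d)⁻¹`; `gl d ≠ d` by `not_isConj_inv`;
choose `t` on one dart of each orbit of `gl`. `walk_ind`: let `Q c` say that `c = g * E d * g⁻¹` with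
`P d g` (then `P d g'` for all such `g'`, by `uniq` and `mem_zpowers`). `Q` passes to inverses
(`cross`), along `FT` (`FT.exists_conj`; note that `P d g` gives `P d' (g * w)` for `d'` in the orbit
of `nx` and `w` generated by the three entries), along `Adj` (`FO.reach`), and along `Face` by
induction on the number of separating objects (`finite_sep`, `exists_adj`); then `OSys.tri`.
-/

namespace HRT

open Set Filter Topology Real

variable {Γ : Type*} [Group Γ] {ρ σ : Γ →* Isom} {N : ℝ → ℝ} {D : Type} {nx gl : Equiv.Perm D}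
  {E t : D → Γ} {a b : Γ}

/-- The conjugates of the boundary elements. -/
def objs (E : D → Γ) : Set Γ := {a | ∃ d, IsConj (E d) a}

/-- A pants decomposition. -/
structure IsPants (ρ : Γ →* Isom) (nx : Equiv.Perm D) (E : D → Γ) : Prop where
  ne : Nonempty D
  sys : OSys ρ (objs E)
  frame : ∀ d, Frame (ρ (E d)) (ρ (E (nx d))) (ρ (E (nx (nx d))))
  cube : ∀ d, nx (nx (nx d)) = d
  uniq : ∀ d d', IsConj (E d) (E d') → d = d'

/-- Translates of two consecutive boundary elements, in either order. -/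
def MP (nx : Equiv.Perm D) (E : D → Γ) (a b : Γ) : Prop :=
  ∃ (d : D) (g : Γ), (a = g * E d * g⁻¹ ∧ b = g * E (nx d) * g⁻¹) ∨
    (b = g * E d * g⁻¹ ∧ a = g * E (nx d) * g⁻¹)

/-- A pants decomposition with its gluing data. -/
structure PG (ρ : Γ →* Isom) (nx gl : Equiv.Perm D) (E t : D → Γ) : Prop extends IsPants ρ nx E where
  invol : ∀ d, gl (gl d) = d
  t_inv : ∀ d, t (gl d) = (t d)⁻¹
  hyp : ∀ d, Hyp (ρ (E d)) → E (gl d) = (t d)⁻¹ * (E d)⁻¹ * t d
  par : ∀ d, ¬ Hyp (ρ (E d)) → gl d = d ∧ t d = 1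

theorem mem_objs (E : D → Γ) (d : D) (g : Γ) : g * E d * g⁻¹ ∈ objs E := by
  exact ⟨d, POs_isConj g (E d)⟩

theorem MP.symm (h : MP nx E a b) : MP nx E b a := by
  obtain ⟨d, g, h⟩ := h
  exact ⟨d, g, h.symm⟩

theorem MP.conj (h : MP nx E a b) (g : Γ) : MP nx E (g * a * g⁻¹) (g * b * g⁻¹) := by
  obtain ⟨d, k, ⟨rfl, rfl⟩ | ⟨rfl, rfl⟩⟩ := h
  · exact ⟨d, g * k, Or.inl ⟨by group, by group⟩⟩
  · exact ⟨d, g * k, Or.inr ⟨by group, by group⟩⟩

theorem PPants_self (E : D → Γ) (d : D) : E d ∈ objs E := ⟨d, IsConj.refl _⟩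

theorem PPants_osys {O : Set Γ} (h : OSys ρ O) (φ : Γ ≃* Γ) :
    OSys (ρ.comp φ.toMonoidHom) (φ ⁻¹' O) := by
  classical
  have hz : ∀ a g : Γ, φ g ∈ Subgroup.zpowers (φ a) ↔ g ∈ Subgroup.zpowers a := fun a g => by
    simp only [Subgroup.mem_zpowers_iff, ← map_zpow, φ.injective.eq_iff]
  refine ⟨fun a ha => h.pos _ ha, fun a ha g hg => (hz a g).1 (h.stab _ ha _ hg), fun a ha g => ?_,
    fun a ha hh => ?_, fun a ha b hb => h.nc _ ha _ hb, fun a ha => h.cusp _ ⟨ha.1, ha.2.1, ?_⟩, ?_⟩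
  · rw [mem_preimage, map_mul, map_mul, map_inv]
    exact h.conj _ ha _
  · rw [mem_preimage, map_inv]
    exact h.inv _ ha hh
  · intro g hg
    obtain ⟨g, rfl⟩ := φ.surjective g
    exact (hz a g).2 (ha.2.2 g hg)
  · obtain ⟨s, hs⟩ := h.fin
    refine ⟨s.image φ.symm, fun a ha => ?_⟩
    obtain ⟨f, h1, h2⟩ := hs _ ha
    refine ⟨_, Finset.mem_image_of_mem _ h1, ?_⟩
    simpa using φ.symm.toMonoidHom.map_isConj h2

theorem PPants_pt (u : V) (l : Geo) : ∃ k > 0, B u (pt l 0).1 = k * (B u l.src.1 + B u l.tgt.1) := by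
  refine ⟨_, inv_pos.2 (gcross_k_pos l), ?_⟩
  show B u ((√(-2 * B l.src.1 l.tgt.1))⁻¹ • (exp (-0) • l.src.1 + exp 0 • l.tgt.1)) = _
  simp only [B_smul_right, B_add_right, neg_zero, exp_zero, one_mul]

theorem PPants_gap {A : Isom} (hA : Pos A) {l : Geo} (h1 : B (qv A) l.src.1 ≠ 0)
    (h2 : B (qv A) l.tgt.1 ≠ 0) (hc : Hyp A → ¬ Cross l (ax A)) (hp : B (qv A) (pt l 0).1 ≤ 0) :
    Ins A l.src.1 ∧ Ins A l.tgt.1 := by
  rcases hA.1.hyp_or_par with h | h
  · obtain ⟨k, hk, e⟩ := PPants_pt (qv A) l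
    have h3 : B (qv A) l.src.1 + B (qv A) l.tgt.1 ≤ 0 := by
      rw [e] at hp
      exact nonpos_of_mul_nonpos_right hp hk
    have h4 : 0 ≤ B (qv A) l.src.1 * B (qv A) l.tgt.1 := by
      rw [PObj_hyp h, PObj_hyp h, mul_mul_mul_comm]
      exact mul_nonneg (mul_self_nonneg _) (not_lt.1 fun h5 => hc h (Cross.symm h5))
    rcases mul_pos_iff.1 (lt_of_le_of_ne h4 (mul_ne_zero h1 h2).symm) with h5 | h5
    · linarith [h5.1, h5.2]
    · exact h5
  · exact ⟨lt_of_le_of_ne ((h.pos_iff.1 hA).B_nonpos l.src.fut) h1,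
      lt_of_le_of_ne ((h.pos_iff.1 hA).B_nonpos l.tgt.fut) h2⟩

theorem PPants_tri {A B' C : Isom} (h : Frame A B' C) {p : Pt}
    (hp : p ∈ tri (lo A).1 (lo B').1 (lo C).1) :
    B (qv A) p.1 ≤ 0 ∧ B (qv B') p.1 ≤ 0 ∧ B (qv C) p.1 ≤ 0 := by
  obtain ⟨x, y, z, hx, hy, hz, e⟩ := hp
  obtain ⟨-, h1, h2, h3⟩ := h
  have key : ∀ u : V, B u (lo A).1 ≤ 0 → B u (lo B').1 ≤ 0 → B u (lo C).1 ≤ 0 → B u p.1 ≤ 0 :=
    fun u a1 a2 a3 => by
      rw [e, B_add_right, B_add_right, B_smul_right, B_smul_right, B_smul_right]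
      linarith [mul_nonpos_of_nonneg_of_nonpos hx a1, mul_nonpos_of_nonneg_of_nonpos hy a2,
        mul_nonpos_of_nonneg_of_nonpos hz a3]
  exact ⟨key _ h1.1.B_qv_lo.le (le_of_lt h1.ins_lo) (le_of_lt h3.symm.ins_lo),
    key _ (le_of_lt h1.symm.ins_lo) h2.1.B_qv_lo.le (le_of_lt h2.ins_lo),
    key _ (le_of_lt h3.ins_lo) (le_of_lt h2.symm.ins_lo) h3.1.B_qv_lo.le⟩

theorem PPants_arc {A B' C : Isom} (h : Frame A B' C) {l : Geo} (h1 : ccw (hi A) l.src (lo B'))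
    (h2 : ccw (hi A) l.tgt (lo B')) : det3 (lo A).1 (lo B').1 (pt l 0).1 < 0 := by
  have key : ∀ ξ : Circ, ccw (hi A) ξ (lo B') → B (cr (lo A).1 (lo B').1) ξ.1 < 0 := fun ξ hξ => by
    have a1 := (h.2.1.1.ccw_gap (h.ins_of_arc hξ).1 h.2.1.ins_lo (PFace_not_hi h.2.1.1)
      (PFace_not_lo h.2.1.1)).1 hξ.cyc
    have a2 := (ccw_iff _ _ _).1 a1.cyc.cyc
    rw [det3_swap] at a2
    exact neg_pos.1 a2
  obtain ⟨k, hk, e⟩ := PPants_pt (cr (lo A).1 (lo B').1) l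
  rw [det3, e]
  exact mul_neg_of_pos_of_neg hk (add_neg (key _ h1) (key _ h2))

namespace IsPants

theorem finite (h : IsPants ρ nx E) : Finite D := by
  obtain ⟨s, hs⟩ := h.sys.fin
  choose f hf hf' using fun d => hs _ (PPants_self E d)
  refine Finite.of_injective (fun d => (⟨f d, hf d⟩ : s)) fun d d' e => h.uniq d d' ?_
  have e' : f d = f d' := congrArg Subtype.val e
  exact (hf' d).symm.trans (e' ▸ hf' d')

theorem mark {f : Circ ≃ₜ Circ} (h : IsPants ρ nx E) (hm : IsMark ρ σ f) : IsPants σ nx E := by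
  exact ⟨h.ne, hm.osys h.sys, fun d => hm.frame (h.frame d), h.cube, h.uniq⟩

theorem comp (h : IsPants ρ nx E) (φ : Γ ≃* Γ) :
    IsPants (ρ.comp φ.toMonoidHom) nx fun d => φ.symm (E d) := by
  have e : ∀ x y, IsConj (φ.symm x) y ↔ IsConj x (φ y) := fun x y =>
    ⟨fun h => by simpa using φ.toMonoidHom.map_isConj h,
      fun h => by simpa using φ.symm.toMonoidHom.map_isConj h⟩
  have e' : (objs fun d => φ.symm (E d)) = φ ⁻¹' objs E :=
    Set.ext fun a => exists_congr fun d => e _ _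
  refine ⟨h.ne, e' ▸ PPants_osys h.sys φ, fun d => ?_, h.cube, fun d d' hd => h.uniq d d' ?_⟩
  · simpa using h.frame d
  · rwa [e, φ.apply_symm_apply] at hd

theorem reindex (h : IsPants ρ nx E) {D' : Type} (e : D' ≃ D) :
    IsPants ρ (e.trans (nx.trans e.symm)) (E ∘ e) := by
  have e' : objs (E ∘ e) = objs E :=
    Set.ext fun a => (e.surjective.exists (p := fun d => IsConj (E d) a)).symm
  refine ⟨h.ne.map e.symm, e' ▸ h.sys, fun d => ?_, fun d => ?_,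
    fun d d' hd => e.injective (h.uniq _ _ hd)⟩
  · simpa using h.frame (e d)
  · simp [h.cube]

theorem nx_ne (h : IsPants ρ nx E) (d : D) : nx d ≠ d := by
  intro e
  have h1 := (h.frame d).2.1.ne
  rw [e] at h1
  exact h1 rfl

theorem mul_eq (h : IsPants ρ nx E) (hρ : Disc ρ) (d : D) : E d * E (nx d) * E (nx (nx d)) = 1 := by
  apply hρ.injective
  rw [map_mul, map_mul, map_one]
  exact (h.frame d).1

theorem PPants_third (h : IsPants ρ nx E) (hρ : Disc ρ) (d : D) :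
    E (nx (nx d)) = (E d * E (nx d))⁻¹ := eq_inv_of_mul_eq_one_right (h.mul_eq hρ d)

theorem PPants_eq (h : IsPants ρ nx E) {d d' : D} {g g' : Γ}
    (e : g * E d * g⁻¹ = g' * E d' * g'⁻¹) : d = d' ∧ g⁻¹ * g' ∈ Subgroup.zpowers (E d) := by
  obtain rfl : d = d' := h.uniq d d' ((POs_isConj g _).trans (e ▸ (POs_isConj g' _).symm))
  refine ⟨rfl, h.sys.mem_zpowers (PPants_self E d) ?_⟩
  rw [show g⁻¹ * g' * E d * (g⁻¹ * g')⁻¹ = g⁻¹ * (g' * E d * g'⁻¹) * g by group, ← e]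
  group

theorem PPants_nf (h : IsPants ρ nx E) (hm : MP nx E a b) : ∃ (d : D) (g : Γ),
    a = g * E d * g⁻¹ ∧ (b = g * E (nx d) * g⁻¹ ∨ b = g * E (nx (nx d)) * g⁻¹) := by
  obtain ⟨d, g, ⟨h1, h2⟩ | ⟨h1, h2⟩⟩ := hm
  · exact ⟨d, g, h1, Or.inl h2⟩
  · exact ⟨nx d, g, h2, Or.inr (by rw [h.cube, h1])⟩

theorem exists_mp (h : IsPants ρ nx E) (ha : a ∈ objs E) : ∃ b, MP nx E a b := by
  obtain ⟨d, hd⟩ := ha
  obtain ⟨g, rfl⟩ := isConj_iff.1 hd
  exact ⟨_, d, g, Or.inl ⟨rfl, rfl⟩⟩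

theorem mp_rot (h : IsPants ρ nx E) (hρ : Disc ρ) (hm : MP nx E a b) : MP nx E b (a * b)⁻¹ := by
  obtain ⟨d, g, ⟨rfl, rfl⟩ | ⟨rfl, rfl⟩⟩ := hm
  · refine ⟨nx d, g, Or.inl ⟨rfl, ?_⟩⟩
    rw [h.PPants_third hρ]
    group
  · refine ⟨nx (nx d), g * (E d)⁻¹, Or.inr ⟨?_, ?_⟩⟩
    · rw [h.PPants_third hρ]
      group
    · rw [h.cube]
      group

theorem fo (h : IsPants ρ nx E) (hρ : Disc ρ) (hm : MP nx E a b) : FO ρ (objs E) a b := by
  have h0 : ∀ d, FO ρ (objs E) (E d) (E (nx d)) := fun d => by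
    refine ⟨PPants_self E _, PPants_self E _, ?_, ?_⟩ <;> rw [← h.PPants_third hρ]
    · exact PPants_self E _
    · exact h.frame d
  obtain ⟨d, g, ⟨rfl, rfl⟩ | ⟨rfl, rfl⟩⟩ := hm
  · exact (h0 d).conj h.sys g
  · exact ((h0 d).conj h.sys g).flip h.sys

theorem mp_of_ft (h : IsPants ρ nx E) (hρ : Disc ρ) (hm : MP nx E a b) {x y : Γ}
    (h1 : FT a b x y) : MP nx E x y := by
  induction h1 with
  | refl => exact hm
  | rot _ ih => exact h.mp_rot hρ ih
  | flip _ ih => exact ih.symm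

theorem PPants_ft (h : IsPants ρ nx E) (hρ : Disc ρ) {d : D} {g : Γ}
    (hm : MP nx E (g * E d * g⁻¹) b) :
    FT (g * E d * g⁻¹) (g * E (nx d) * g⁻¹) (g * E d * g⁻¹) b := by
  obtain ⟨d', g', e, hb⟩ := h.PPants_nf hm
  obtain ⟨rfl, hw⟩ := h.PPants_eq e
  have h1 := (FT.of_mem (a := E d) (b := E (nx d)) ((Subgroup.zpowers_le_of_mem
    (Subgroup.subset_closure (mem_insert _ _))) hw)).conj g
  have e1 : ∀ x, g * (g⁻¹ * g' * x * (g⁻¹ * g')⁻¹) * g⁻¹ = g' * x * g'⁻¹ := fun x => by group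
  rw [e1, e1] at h1
  rcases hb with rfl | rfl
  · rwa [← e] at h1
  · have h2 := h1.rot.rot.flip
    convert h2 using 1
    · rw [e]
      group
    · rw [h.PPants_third hρ]
      group

theorem ft_of_mp (h : IsPants ρ nx E) (hρ : Disc ρ) {x : Γ} (hm : MP nx E a b) (h1 : MP nx E a x) :
    FT a b a x := by
  obtain ⟨d, g, rfl, -⟩ := h.PPants_nf hm
  exact (h.PPants_ft hρ hm).symm.trans (h.PPants_ft hρ h1)

theorem adj (h : IsPants ρ nx E) (hρ : Disc ρ) (hm : MP nx E a b) : Adj ρ (objs E) a b := by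
  exact (h.fo hρ hm).adj h.sys hρ

theorem not_IL (h : IsPants ρ nx E) (hρ : Good ρ N) {c d : Γ} (h1 : MP nx E a b)
    (h2 : MP nx E c d) : ¬ IL ρ a b c d := by
  have hd := hρ.toDisc
  have f1 := h.fo hd h1
  by_cases hac : a = c
  · subst hac
    exact f1.not_IL h.sys (h.ft_of_mp hd h1 h2)
  · by_cases ha : Adj ρ (objs E) a c
    · obtain ⟨x, hx⟩ := f1.reach h.sys hρ ha
      exact f1.not_IL h.sys (hx.trans (h.ft_of_mp hd (h.mp_of_ft hd h1 hx) h2))
    · exact h.sys.not_IL hd (h.adj hd h1) (h.adj hd h2) hac ha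

theorem code (h : IsPants ρ nx E) (hρ : Disc ρ) (hs : SPair ρ (objs E) a b) :
    MP nx E a b ∨ ∃ x, MP nx E a x ∧ b = x * a * x⁻¹ := by
  obtain ⟨y, hy⟩ := h.exists_mp hs.1.1
  rcases (h.fo hρ hy).code h.sys hρ hs with h1 | ⟨x, h1, h2⟩
  · exact Or.inl (h.mp_of_ft hρ hy h1)
  · exact Or.inr ⟨x, h.mp_of_ft hρ hy h1, h2⟩

theorem cover (h : IsPants ρ nx E) (hρ : Disc ρ) {p : Pt}
    (hp : ∀ m ∈ objs E, B (qv (ρ m)) p.1 ≠ 0) :
    ∃ a b, MP nx E a b ∧ p ∈ tri (lo (ρ a)).1 (lo (ρ b)).1 (lo (ρ (a * b)⁻¹)).1 := by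
  obtain ⟨d⟩ := h.ne
  obtain ⟨a, ha, h1, h2⟩ := h.sys.exists_top hρ ⟨_, PPants_self E d⟩ hp
  have hn : ∀ c, ∃ n, c ∈ objs E → MP nx E c n := fun c => by
    by_cases hc : c ∈ objs E
    · exact (h.exists_mp hc).imp fun n hn _ => hn
    · exact ⟨1, fun h => absurd h hc⟩
  choose n hn using hn
  have hm : ∀ c, c = a ∨ Adj ρ (objs E) a c → MP nx E c (n c) := fun c hc =>
    hn c (hc.elim (fun e => e ▸ ha) fun e => e.2.1)
  obtain ⟨c, x, h3, h4, h5⟩ := FO.cover h.sys hρ ha h1 h2 fun c hc => h.fo hρ (hm c hc)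
  exact ⟨c, x, h.mp_of_ft hρ (hm c h3) h4, h5⟩

theorem line_end (h : IsPants ρ nx E) (hρ : Disc ρ) {l : Geo} (hl : SimpleLine ρ l)
    (hc : ∀ m ∈ objs E, Hyp (ρ m) → ¬ Cross l (ax (ρ m))) :
    ∃ m ∈ objs E, B (qv (ρ m)) l.src.1 = 0 ∨ B (qv (ρ m)) l.tgt.1 = 0 := by
  by_contra! H
  have hp : ∀ m ∈ objs E, B (qv (ρ m)) (pt l 0).1 ≠ 0 := fun m hm h0 => by
    rcases (h.sys.noFix hm).hyp_or_par with h1 | h1
    · have h2 := (H m hm).1
      rw [PObj_hyp h1] at h0 h2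
      refine hc m hm h1 (cross_of_common ((mul_eq_zero.1 h0).resolve_left h1.qsh_pos.ne')
        (side_pt l 0) (fun e => h2 ?_) fun e => h2 ?_).symm
      · rw [e, side_src, mul_zero]
      · rw [e, Geo.src_rev, side_tgt, mul_zero]
    · exact (h1.ins_pt (h.sys.pos m hm) _).ne h0
  obtain ⟨a, b, hm, ht⟩ := h.cover hρ hp
  obtain ⟨ha, hb, hc', hf⟩ := h.fo hρ hm
  obtain ⟨t1, t2, t3⟩ := PPants_tri hf ht
  obtain ⟨d1, d2, d3⟩ := (mem_tri_iff hf.ord3 _).1 ht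
  have i1 := PPants_gap (h.sys.pos _ ha) (H _ ha).1 (H _ ha).2 (hc _ ha) t1
  have i2 := PPants_gap (h.sys.pos _ hb) (H _ hb).1 (H _ hb).2 (hc _ hb) t2
  have i3 := PPants_gap (h.sys.pos _ hc') (H _ hc').1 (H _ hc').2 (hc _ hc') t3
  have s := (((hf.cases l.src).resolve_left (not_not.2 i1.1)).resolve_left
    (not_not.2 i2.1)).resolve_left (not_not.2 i3.1)
  have s' := (((hf.cases l.tgt).resolve_left (not_not.2 i1.2)).resolve_left
    (not_not.2 i2.2)).resolve_left (not_not.2 i3.2)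
  rcases s with s | s | s <;> rcases s' with s' | s' | s'
  · exact (PPants_arc hf s s').not_ge d1
  · exact (hf.cross_of_arcs (l := l.rev) s' s).elim (hl.rev _) (hl.rev _)
  · exact (hf.rot.rot.cross_of_arcs s s').elim (hl _) (hl _)
  · exact (hf.cross_of_arcs s s').elim (hl _) (hl _)
  · exact (PPants_arc hf.rot s s').not_ge d2
  · exact (hf.rot.cross_of_arcs (l := l.rev) s' s).elim (hl.rev _) (hl.rev _)
  · exact (hf.rot.rot.cross_of_arcs (l := l.rev) s' s).elim (hl.rev _) (hl.rev _)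
  · exact (hf.rot.cross_of_arcs s s').elim (hl _) (hl _)
  · exact (PPants_arc hf.rot.rot s s').not_ge d3

theorem mem_of_simple (h : IsPants ρ nx E) (hρ : Disc ρ) {γ : Γ} (hγ : Simple ρ γ)
    (hc : ∀ m ∈ objs E, Hyp (ρ m) → ¬ Cross (ax (ρ γ)) (ax (ρ m))) : γ ∈ objs E := by
  obtain ⟨m, hm, h1⟩ := h.line_end hρ hγ.line hc
  rw [← hγ.hyp.lo_eq, ← hγ.hyp.hi_eq] at h1
  rcases h.sys.eq_of_end hρ hm hγ h1.symm with rfl | rfl
  · exact hm
  · exact h.sys.inv m hm (by simpa using POs_hyp_inv hγ.hyp)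

theorem exists_pg (h : IsPants ρ nx E) (hρ : Disc ρ) : ∃ gl t, PG ρ nx gl E t := by
  have h1 : ∀ d, ∃ (d' : D) (t : Γ), (Hyp (ρ (E d)) → E d' = t⁻¹ * (E d)⁻¹ * t) ∧
      (¬ Hyp (ρ (E d)) → d' = d ∧ t = 1) := fun d => by
    by_cases hd : Hyp (ρ (E d))
    · obtain ⟨d', hd'⟩ := h.sys.inv _ (PPants_self E d) hd
      obtain ⟨c, hc⟩ := isConj_iff.1 hd'
      exact ⟨d', c, fun _ => by rw [← hc]; group, fun h => absurd hd h⟩
    · exact ⟨d, 1, fun h => absurd h hd, fun _ => ⟨rfl, rfl⟩⟩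
  choose γ τ h1 h2 using h1
  have h3 : ∀ d, Hyp (ρ (E d)) → Hyp (ρ (E (γ d))) := fun d hd => by
    have := tl_conj' (ρ := ρ) (E d)⁻¹ (τ d)⁻¹
    rw [inv_inv, ← h1 d hd] at this
    rw [Hyp, this]
    exact POs_hyp_inv hd
  have h4 : Function.Involutive γ := fun d => by
    by_cases hd : Hyp (ρ (E d))
    · refine (h.uniq _ _ (isConj_iff.2 ⟨(τ (γ d))⁻¹ * (τ d)⁻¹, ?_⟩)).symm
      rw [h1 _ (h3 d hd), h1 d hd]
      group
    · rw [(h2 d hd).1, (h2 d hd).1]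
  have h5 : ∀ d, γ d = d → τ d = 1 := fun d e => by
    refine (h2 d fun hd => hρ.not_isConj_inv (h.sys.ne_one (PPants_self E d))
      (isConj_iff.2 ⟨τ d, ?_⟩)).2
    have := h1 d hd
    rw [e] at this
    conv_lhs => rw [this]
    group
  obtain ⟨_, -⟩ := exists_wellFoundedLT D
  refine ⟨h4.toPerm γ, fun d => if d ≤ γ d then τ d else (τ (γ d))⁻¹, h, h4, fun d => ?_,
    fun d hd => ?_, fun d hd => ?_⟩
  · simp only [Function.Involutive.coe_toPerm, h4 d]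
    rcases lt_trichotomy d (γ d) with h6 | h6 | h6
    · rw [if_neg h6.not_ge, if_pos h6.le]
    · rw [if_pos h6.ge, if_pos h6.le, ← h6, h5 d h6.symm, inv_one]
    · rw [if_pos h6.le, if_neg h6.not_ge, inv_inv]
  · simp only [Function.Involutive.coe_toPerm]
    split_ifs
    · exact h1 d hd
    · have := h1 _ (h3 d hd)
      rw [h4 d] at this
      rw [this]
      group
  · simp only [Function.Involutive.coe_toPerm]
    rw [if_pos (h2 d hd).1.ge]
    exact h2 d hd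

end IsPants

namespace PG

theorem mark {f : Circ ≃ₜ Circ} (h : PG ρ nx gl E t) (hm : IsMark ρ σ f) : PG σ nx gl E t := by
  exact ⟨h.toIsPants.mark hm, h.invol, h.t_inv, fun d hd => h.hyp d ((hm.hyp_iff _).1 hd),
    fun d hd => h.par d (mt (hm.hyp_iff _).2 hd)⟩

theorem comp (h : PG ρ nx gl E t) (φ : Γ ≃* Γ) :
    PG (ρ.comp φ.toMonoidHom) nx gl (fun d => φ.symm (E d)) fun d => φ.symm (t d) := by
  refine ⟨h.toIsPants.comp φ, h.invol, fun d => by rw [h.t_inv, map_inv], fun d hd => ?_,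
    fun d hd => ?_⟩
  · rw [h.hyp d (by simpa using hd), map_mul, map_mul, map_inv, map_inv]
  · have := h.par d (by simpa using hd)
    exact ⟨this.1, by rw [this.2, map_one]⟩

theorem reindex (h : PG ρ nx gl E t) {D' : Type} (e : D' ≃ D) :
    PG ρ (e.trans (nx.trans e.symm)) (e.trans (gl.trans e.symm)) (E ∘ e) (t ∘ e) := by
  refine ⟨h.toIsPants.reindex e, fun d => by simp [h.invol], fun d => by simp [h.t_inv],
    fun d hd => by simpa using h.hyp (e d) hd, fun d hd => ?_⟩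
  have := h.par (e d) hd
  exact ⟨by simp [this.1], this.2⟩

theorem hyp_iff (h : PG ρ nx gl E t) (hρ : Disc ρ) (d : D) : Hyp (ρ (E d)) ↔ gl d ≠ d := by
  refine ⟨fun hd e => hρ.not_isConj_inv (h.sys.ne_one (PPants_self E d))
    (isConj_iff.2 ⟨t d, ?_⟩), fun hd => by_contra fun h1 => hd (h.par d h1).1⟩
  have := h.hyp d hd
  rw [e] at this
  conv_lhs => rw [this]
  group

theorem PPants_gl (h : PG ρ nx gl E t) {d : D} (hd : Hyp (ρ (E d))) : IsConj (E d)⁻¹ (E (gl d)) :=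
  isConj_iff.2 ⟨(t d)⁻¹, by rw [h.hyp d hd, inv_inv]⟩

theorem cls_gl (h : PG ρ nx gl E t) (d : D) : cls ρ (E (gl d)) = cls ρ (E d) := by
  by_cases hd : Hyp (ρ (E d))
  · exact cls_eq (Or.inr ⟨hd, h.PPants_gl hd⟩)
  · rw [(h.par d hd).1]

theorem mem_cls_iff (h : PG ρ nx gl E t) (d d' : D) : E d' ∈ cls ρ (E d) ↔ d' = d ∨ d' = gl d := by
  constructor
  · rintro (h1 | ⟨h1, h2⟩)
    · exact Or.inl (h.uniq _ _ h1).symm
    · exact Or.inr (h.uniq _ _ ((h.PPants_gl h1).symm.trans h2)).symm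
  · rintro (rfl | rfl)
    · exact mem_cls_self _
    · rw [← h.cls_gl d]
      exact mem_cls_self _

/-- Conjugating the pairs of pants separately. -/
theorem conj (h : PG ρ nx gl E t) {g : D → Γ} (hg : ∀ d, g (nx d) = g d) :
    PG ρ nx gl (fun d => g d * E d * (g d)⁻¹) fun d => g d * t d * (g (gl d))⁻¹ := by
  have e : (objs fun d => g d * E d * (g d)⁻¹) = objs E := Set.ext fun a => exists_congr fun d =>
    ⟨(POs_isConj (g d) (E d)).trans, (POs_isConj (g d) (E d)).symm.trans⟩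
  have hh : ∀ d, Hyp (ρ (g d * E d * (g d)⁻¹)) ↔ Hyp (ρ (E d)) := fun d => by
    rw [Hyp, Hyp, tl_conj']
  refine ⟨⟨h.ne, e ▸ h.sys, fun d => ?_, h.cube, fun d d' hd => h.uniq d d'
    ((POs_isConj _ _).trans (hd.trans (POs_isConj _ _).symm))⟩, h.invol, fun d => ?_,
    fun d hd => ?_, fun d hd => ?_⟩
  · simp only [hg, POs_conj]
    exact (h.frame d).conj _
  · rw [h.invol, h.t_inv]
    group
  · rw [h.hyp d ((hh d).1 hd)]
    group
  · obtain ⟨h1, h2⟩ := h.par d (mt (hh d).2 hd)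
    exact ⟨h1, by rw [h1, h2, mul_one, mul_inv_cancel]⟩

/-- Changing the connecting elements. -/
theorem twist (h : PG ρ nx gl E t) {k : D → ℤ} (hk : ∀ d, k (gl d) = k d)
    (h0 : ∀ d, gl d = d → k d = 0) : PG ρ nx gl E fun d => E d ^ k d * t d := by
  refine ⟨h.toIsPants, h.invol, fun d => ?_, fun d hd => ?_, fun d hd => ?_⟩
  · by_cases hd : Hyp (ρ (E d))
    · have e := conj_zpow (i := k d) (a := (t d)⁻¹) (b := (E d)⁻¹)
      rw [inv_inv] at e
      rw [hk, h.hyp d hd, h.t_inv, e]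
      group
    · obtain ⟨h1, h2⟩ := h.par d hd
      rw [h1, h2, h0 d h1, zpow_zero, mul_one, inv_one]
  · rw [h.hyp d hd]
    group
  · obtain ⟨h1, h2⟩ := h.par d hd
    exact ⟨h1, by rw [h2, h0 d h1, zpow_zero, mul_one]⟩

theorem walk_ind (h : PG ρ nx gl E t) (hρ : Good ρ N) {P : D → Γ → Prop} {d₀ : D} {g₀ : Γ}
    (h0 : P d₀ g₀) (rot : ∀ d g, P d g → P (nx d) g) (mul : ∀ d g, P d g → P d (g * E d))
    (div : ∀ d g, P d g → P d (g * (E d)⁻¹)) (cross : ∀ d g, P d g → P (gl d) (g * t d)) :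
    ∀ d g, P d g := by
  have hd := hρ.toDisc
  have hO := h.sys
  have zp : ∀ d g, P d g → ∀ n : ℤ, P d (g * E d ^ n) := fun d g hg n => by
    induction n using Int.induction_on with
    | zero => rwa [zpow_zero, mul_one]
    | succ n ih =>
      rw [zpow_add_one, ← mul_assoc]
      exact mul _ _ ih
    | pred n ih =>
      rw [zpow_sub_one, ← mul_assoc]
      exact div _ _ ih
  obtain ⟨Q, hQ⟩ : ∃ Q : Γ → Prop, ∀ c, Q c ↔ ∃ d g, c = g * E d * g⁻¹ ∧ P d g :=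
    ⟨_, fun _ => Iff.rfl⟩
  have all : ∀ d g, Q (g * E d * g⁻¹) → P d g := fun d g hq => by
    obtain ⟨d', g', e, hp⟩ := (hQ _).1 hq
    obtain ⟨rfl, n, hn⟩ := h.toIsPants.PPants_eq e.symm
    have := zp _ _ hp n
    rwa [show E d' ^ n = g'⁻¹ * g from hn, mul_inv_cancel_left] at this
  have qinv : ∀ c, Q c → Hyp (ρ c) → Q c⁻¹ := fun c hq hc => by
    obtain ⟨d, g, rfl, hp⟩ := (hQ _).1 hq
    refine (hQ _).2 ⟨_, _, ?_, cross d g hp⟩
    rw [Hyp, tl_conj'] at hc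
    rw [h.hyp d hc]
    group
  have qmp : ∀ a b, MP nx E a b → Q a → Q b := fun a b hm hq => by
    obtain ⟨d, g, rfl, rfl | rfl⟩ := h.toIsPants.PPants_nf hm
    · exact (hQ _).2 ⟨_, _, rfl, rot _ _ (all d g hq)⟩
    · exact (hQ _).2 ⟨_, _, rfl, rot _ _ (rot _ _ (all d g hq))⟩
  have qft : ∀ a b x y, MP nx E a b → Q a → FT a b x y → Q x := fun a b x y hm hq hf => by
    induction hf with
    | refl => exact hq
    | rot h1 ih => exact qmp _ _ (h.toIsPants.mp_of_ft hd hm h1) ih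
    | flip h1 ih => exact qmp _ _ (h.toIsPants.mp_of_ft hd hm h1) ih
  have qadj : ∀ a c, Q a → Adj ρ (objs E) a c → Q c := fun a c hq ha => by
    obtain ⟨b, hb⟩ := h.toIsPants.exists_mp ha.1
    obtain ⟨x, hx⟩ := (h.toIsPants.fo hd hb).reach hO hρ ha
    exact qft _ _ _ _ hb hq hx
  have qface : ∀ b ∈ objs E, ∀ (n : ℕ), ∀ a ∈ objs E, {m ∈ objs E | Sepa ρ m a b}.ncard = n →
      Q a → Face (ρ a) (ρ b) → Q b := fun b hb n => by
    induction n using Nat.strong_induction_on with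
    | _ n ih =>
      intro a ha hn hq hf
      obtain ⟨m, h1, rfl | h2⟩ := hO.exists_adj hd ha hb hf
      · exact qadj _ _ hq h1
      · refine ih _ ?_ m⁻¹ (hO.inv m h1.2.1 h2.1) rfl (qinv m (qadj _ _ hq h1) h2.1) h2.2.2
        rw [← hn]
        refine ncard_lt_ncard ⟨fun x hx => ⟨hx.1, hx.2.1, PAdj_tr h2.1 h2.2.1 hx.2.2.1, hx.2.2.2⟩,
          fun hs => PAdj_self (hs ⟨h1.2.1, h2⟩).2.2.1⟩ (hO.finite_sep hd ha hb)
  have q0 : Q (g₀ * E d₀ * g₀⁻¹) := (hQ _).2 ⟨_, _, rfl, h0⟩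
  have m0 := mem_objs E d₀ g₀
  generalize g₀ * E d₀ * g₀⁻¹ = a at q0 m0
  intro d g
  refine all d g ?_
  have m1 := mem_objs E d g
  generalize g * E d * g⁻¹ = b at m1
  have back : Hyp (ρ b) → Q b⁻¹ → Q b := fun h1 h2 => inv_inv b ▸ qinv _ h2 (POs_hyp_inv h1)
  rcases hO.tri hd m0 m1 with rfl | h1 | ⟨h1, rfl | h2⟩ | ⟨h1, h2⟩ | ⟨h1, h2, h3⟩
  · exact q0
  · exact qface b m1 _ a m0 rfl q0 h1
  · exact back h1 q0
  · exact back h1 (qface _ (hO.inv b m1 h1) _ a m0 rfl q0 h2)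
  · exact qface b m1 _ _ (hO.inv a m0 h1) rfl (qinv a q0 h1) h2
  · exact back h2 (qface _ (hO.inv b m1 h2) _ _ (hO.inv a m0 h1) rfl (qinv a q0 h1) h3)

end PG

end HRT
end

-- merged part: Pool.Agent.Work.MP_35beee_gt.PBers
section
/-!
Existence of pants decompositions with bounded lengths.

Plan. `exists_adj_le`: take points `p k` inside `a` with `-B (qv a) (p k) = exp k`,
`k = 0, ..., K`, `K > N r` (`Pos.exists_level`), with `r ≤ 1 / 2` small. They are not separated, so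
`dist (p k) (g • p k') < r` with `k ≠ k'` or `g ≠ 1`. An element of `zpowers a` keeps the level and
moves `p k` by a definite amount (`sinh_sq_dist` for the power; its level is at least that of `a`),
so `a' = g * a * g⁻¹ ≠ a`, and `p = p k` is inside `a` and `a'` with bounded levels. Apply
`OSys.tri` (`not_isConj_inv`; the case `Face a⁻¹ a'` is the case `Face a (a'')⁻¹` after
conjugation by `g⁻¹`), `exists_adj`, `TT_le`, `TT_le_of_not_ins`. If `m` separates `a` from `a'` and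
`p` is inside `m`, then the level of `m` at `p` is at most `qsh m ^ 2 / 2` times that of `a'`
(Fermi coordinates along `ax m`, `le_TT` for `m⁻¹`, `a'`).
`exists_pants`: call an object full if it is an entry of a frame of pairwise non-conjugate
objects (`FO`). Fullness passes to conjugates and to adjacent objects (`FO.reach`,
`FT.exists_conj`). If some object is not full, `exists_adj_le`, `exists_spair` (with `Q` the set of
objects that are not full) and `SPair.exists_frame` give a larger system with one or two new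
hyperbolic classes whose lengths are bounded (`Frame.lift`, `TT_conj`); induction on `ξ` minus the
number of classes (`exists_multi`). If all objects are full: being conjugate to an object that is
adjacent or equal is an equivalence relation on `O` with finitely many classes, each class is the
union of the three conjugacy classes of a frame; choose one frame for each class, take
`class × ZMod 3` as set of darts, `IsPants.reindex`.
`exists_start`: the cusps, if there is one (`osys_obj` for the empty multicurve). Otherwise take more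
than `N 1` points at mutual distance at least one: some `g ≠ 1` moves a point by a bounded amount.
An element of least translation length (`finite_spectrum`) is simple: if `k • ax g` crosses `ax g` at
`p = k • q`, some `k * g ^ n ≠ 1` moves a point by at most `tl g / 2`.
-/

namespace HRT

open Set Filter Topology Real

theorem PBers_gram {k : Isom} (hk : NoFix k) (p q : Pt) :
    (B (qv k) q.1 - cosh (dist p q) * B (qv k) p.1) ^ 2 ≤
      (qsh k ^ 2 + B (qv k) p.1 ^ 2) * (cosh (dist p q) ^ 2 - 1) := by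
  have h1 := det3_sq (qv k) p.1 q.1
  have e : B p.1 q.1 = -cosh (dist p q) := by rw [cosh_dist, neg_neg]
  rw [p.2.1, q.2.1, hk.B_qv, e] at h1
  have h2 := sq_nonneg (det3 (qv k) p.1 q.1)
  rw [h1] at h2
  linarith

/-- A point near a point that is deep inside `k` is inside `k`. -/
theorem PBers_ins {k : Isom} (hk : NoFix k) {p q : Pt} {c Q : ℝ} (hc : cosh (dist p q) ≤ c)
    (hQ : qsh k ≤ Q) (h : Q * c < -B (qv k) p.1) : Ins k q.1 := by
  have h1 := PBers_gram hk p q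
  have h2 := one_le_cosh (dist p q)
  have h3 := qsh_nonneg k
  by_contra h0
  have h4 : 0 ≤ B (qv k) q.1 := not_lt.1 h0
  generalize cosh (dist p q) = d at *
  generalize B (qv k) p.1 = x at *
  generalize B (qv k) q.1 = y at *
  generalize qsh k = s at *
  have h5 : s * d < -x := lt_of_le_of_lt (mul_le_mul hQ hc (by linarith) (by linarith)) h
  have h6 : 0 ≤ s * d := mul_nonneg h3 (by linarith)
  have h7 : (s * d) ^ 2 < x ^ 2 := by
    rw [← neg_sq x]
    exact pow_lt_pow_left₀ h5 h6 two_ne_zero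
  have h8 : 0 ≤ y * (d * -x) := mul_nonneg h4 (mul_nonneg (by linarith) (by linarith))
  linarith only [h1, h7, h8, sq_nonneg y, sq_nonneg s, sq_nonneg s, sq_nonneg y]

/-- Levels at nearby points are comparable. -/
theorem PBers_lev {k : Isom} (hk : NoFix k) {p q : Pt} {c t : ℝ} (hc : cosh (dist p q) ≤ c)
    (h1 : qsh k ≤ t) (h2 : |B (qv k) p.1| ≤ t) : |B (qv k) q.1| ≤ 3 * c * t := by
  have h3 := PBers_gram hk p q
  have h4 := one_le_cosh (dist p q)
  have h5 := qsh_nonneg k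
  have ht : 0 ≤ t := h5.trans h1
  have h6 : qsh k ^ 2 ≤ t ^ 2 := pow_le_pow_left₀ h5 h1 2
  have h7 : B (qv k) p.1 ^ 2 ≤ t ^ 2 := by
    rw [← sq_abs]
    exact pow_le_pow_left₀ (abs_nonneg _) h2 2
  have h8 : cosh (dist p q) ^ 2 ≤ c ^ 2 := pow_le_pow_left₀ (by linarith) hc 2
  have h9 : (qsh k ^ 2 + B (qv k) p.1 ^ 2) * (cosh (dist p q) ^ 2 - 1) ≤ (2 * t ^ 2) * c ^ 2 :=
    mul_le_mul (by linarith) (by linarith) (by linarith only [h4, mul_nonneg_of_nonpos_of_nonpos (Mathlib.Tactic.Linarith.sub_nonpos_of_le h4) (Mathlib.Tactic.Linarith.sub_nonpos_of_le h4)]) (by positivity)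
  have h10 : |B (qv k) q.1 - cosh (dist p q) * B (qv k) p.1| ≤ 2 * c * t := by
    refine abs_le_of_sq_le_sq ?_ (mul_nonneg (by linarith only [hc, h4]) ht)
    linarith only [h3, h9, sq_nonneg (c * t), sq_nonneg (c * t)]
  have h11 : |cosh (dist p q) * B (qv k) p.1| ≤ c * t := by
    rw [abs_mul, abs_of_nonneg (by linarith)]
    exact mul_le_mul hc h2 (abs_nonneg _) (by linarith)
  have h12 := abs_add_le (B (qv k) q.1 - cosh (dist p q) * B (qv k) p.1)
    (cosh (dist p q) * B (qv k) p.1)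
  rw [sub_add_cancel] at h12
  linarith

/-- Powers move points at least as far as the element. -/
theorem PBers_zpow {g : Isom} (hg : NoFix g) {n : ℤ} (hn : n ≠ 0) (p : Pt) :
    dist p (g • p) ≤ dist p (g ^ n • p) := by
  have h1 : (1 : ℝ) ≤ |(n : ℝ)| := by exact_mod_cast Int.one_le_abs hn
  rcases hg.hyp_or_par with h | h
  · have h2 : tl g ≤ tl (g ^ n) := by
      rw [h.tl_zpow]
      exact le_mul_of_one_le_left (tl_nonneg g) h1
    have h3 : Hyp (g ^ n) := lt_of_lt_of_le h h2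
    have h4 : side (ax (g ^ n)) p.1 ^ 2 = side (ax g) p.1 ^ 2 := by
      rcases (hyp_of_smul_eq (h.zpow_smul_ax n) (GAx_ne_one h3)).2 with e | e
      · rw [e]
      · rw [e, side_rev, neg_sq]
    have h5 : sinh (dist p (g • p) / 2) ≤ sinh (dist p (g ^ n • p) / 2) := by
      rw [h.sinh_dist, h3.sinh_dist, h4]
      exact mul_le_mul_of_nonneg_left (sinh_le_sinh.2 (by linarith only [h2])) (sqrt_nonneg _)
    linarith [sinh_le_sinh.1 h5]
  · obtain ⟨κ, hκ, h2⟩ := h.exists_kappa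
    refine gThick_le_of_cosh dist_nonneg ?_
    have h3 := h2 p 1
    rw [zpow_one] at h3
    rw [h3, h2]
    have h4 : (1 : ℝ) ≤ (n : ℝ) ^ 2 := by
      rw [← sq_abs]
      exact one_le_pow₀ h1
    have h5 := mul_le_mul_of_nonneg_right h4 (mul_nonneg hκ.le (sq_nonneg (B p.1 (pfix g).1)))
    push_cast
    linarith

theorem PBers_sqrt {s x Q T : ℝ} (hs : 0 ≤ s) (h1 : s ≤ Q) (h2 : |x| ≤ T) :
    √(s ^ 2 + x ^ 2) ≤ Q + T := by
  have h3 := abs_nonneg x
  rw [Real.sqrt_le_left (by linarith), ← sq_abs x]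
  linarith only [hs, h1, h2, h3, mul_nonneg_of_nonpos_of_nonpos (Mathlib.Tactic.Linarith.sub_nonpos_of_le hs) (Mathlib.Tactic.Linarith.sub_nonpos_of_le h1), mul_nonneg_of_nonpos_of_nonpos (Mathlib.Tactic.Linarith.sub_nonpos_of_le hs) (Mathlib.Tactic.Linarith.sub_nonpos_of_le h2), mul_nonneg_of_nonpos_of_nonpos (Mathlib.Tactic.Linarith.sub_nonpos_of_le hs) (Mathlib.Tactic.Linarith.sub_nonpos_of_le h3), mul_nonneg_of_nonpos_of_nonpos (Mathlib.Tactic.Linarith.sub_nonpos_of_le h1) (Mathlib.Tactic.Linarith.sub_nonpos_of_le h1), mul_nonneg_of_nonpos_of_nonpos (Mathlib.Tactic.Linarith.sub_nonpos_of_le h1) (Mathlib.Tactic.Linarith.sub_nonpos_of_le h2), mul_nonneg_of_nonpos_of_nonpos (Mathlib.Tactic.Linarith.sub_nonpos_of_le h1) (Mathlib.Tactic.Linarith.sub_nonpos_of_le h3), mul_nonneg_of_nonpos_of_nonpos (Mathlib.Tactic.Linarith.sub_nonpos_of_le h2) (Mathlib.Tactic.Linarith.sub_nonpos_of_le h2), mul_nonneg_of_nonpos_of_nonpos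 (Mathlib.Tactic.Linarith.sub_nonpos_of_le h2) (Mathlib.Tactic.Linarith.sub_nonpos_of_le h3)]

section
variable {Γ : Type*} [Group Γ] {ρ : Γ →* Isom} {N : ℝ → ℝ} {O : Set Γ}

/-- An adjacent object from a facing object with bounded level. -/
theorem PBers_adj (hO : OSys ρ O) (hρ : Disc ρ) {Q T : ℝ} (hQ : ∀ a ∈ O, qsh (ρ a) ≤ Q)
    {a c : Γ} (ha : a ∈ O) (hc : c ∈ O) (hf : Face (ρ a) (ρ c)) {p : Pt}
    (h1 : |B (qv (ρ a)) p.1| ≤ T) (h2 : -B (qv (ρ c)) p.1 ≤ T) :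
    ∃ b, Adj ρ O a b ∧
      TT (ρ a) (ρ b) ≤ T * (T * (1 + Q ^ 2)) + (Q + T) * (Q + T * (1 + Q ^ 2)) := by
  obtain ⟨m, hm, h3⟩ := hO.exists_adj hρ ha hc hf
  refine ⟨m, hm, ?_⟩
  have hT : 0 ≤ T := (abs_nonneg _).trans h1
  have qa := hQ a ha
  have qm := hQ m hm.2.1
  have sa := qsh_nonneg (ρ a)
  have sm := qsh_nonneg (ρ m)
  have hQ0 : 0 ≤ Q := sa.trans qa
  have r1 := PBers_sqrt sa qa h1
  by_cases hi : Ins (ρ m) p.1
  · have h4 : |B (qv (ρ m)) p.1| ≤ T * (1 + Q ^ 2) := by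
      rw [abs_of_neg hi]
      rcases h3 with rfl | h3
      · linarith only [h2, hT, mul_nonneg hT (sq_nonneg Q), sq_nonneg Q]
      · have f1 := h3.2.2.symm
        obtain ⟨y, τ, hy, hyy, hy0, hτ, hq⟩ := f1.PFace_split (POs_hyp_inv h3.1)
        have e1 := (PFace_split_facts f1.1 f1.2.1 hy0 hq).1
        have e2 := hO.le_TT hρ hc (hO.inv m hm.2.1 h3.1) f1
        have e3 := hy.B_nonpos p.fut
        rw [hq, B_add_left, B_smul_left, map_inv, h3.1.noFix.qv_inv, B_neg_left] at h2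
        rw [e1, map_inv, qsh_inv, qch_inv] at e2
        have e4 := one_le_qch (ρ c)
        have e5 := one_le_qch (ρ m)
        have e6 : 1 ≤ -τ * qsh (ρ m) ^ 2 := by linarith only [e2, e4, e5, mul_nonneg_of_nonpos_of_nonpos (Mathlib.Tactic.Linarith.sub_nonpos_of_le e4) (Mathlib.Tactic.Linarith.sub_nonpos_of_le e5)]
        have e7 : 0 < -B (qv (ρ m)) p.1 := neg_pos.2 hi
        have e8 : qsh (ρ m) ^ 2 ≤ Q ^ 2 := pow_le_pow_left₀ sm qm 2
        have e9 : -τ * -B (qv (ρ m)) p.1 ≤ T := by linarith only [h2, e3]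
        have e10 := mul_le_mul_of_nonneg_right e6 e7.le
        have e11 := mul_le_mul e9 e8 (sq_nonneg _) hT
        linarith only [hT, e10, e11]
    have r2 := PBers_sqrt sm qm h4
    have r3 := mul_le_mul r1 r2 (sqrt_nonneg _) (by linarith)
    have r4 := mul_le_mul h1 h4 (abs_nonneg _) hT
    rw [← abs_mul] at r4
    linarith only [r3, r4, hm, TT_le hm.face.1 hm.face.2.1 p, le_abs_self (B (qv (ρ a)) p.1 * B (qv (ρ m)) p.1)]
  · have r2 := mul_le_mul qm r1 (sqrt_nonneg _) hQ0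
    have r3 : 0 ≤ T * (1 + Q ^ 2) := by positivity
    have r4 := mul_nonneg hT r3
    have r5 := mul_nonneg (add_nonneg hQ0 hT) r3
    linarith only [r2, r4, r5, hm, hi, hm.face.TT_le_of_not_ins hi]

/-- More than `N r` points are not separated. -/
theorem PBers_pack (hρ : Good ρ N) {r : ℝ} (hr : 0 < r) (p : ℕ → Pt) (hp : Function.Injective p) :
    ∃ i ≤ ⌈N r⌉₊, ∃ j ≤ ⌈N r⌉₊, ∃ g : Γ, (i ≠ j ∨ g ≠ 1) ∧ dist (p i) (ρ g • p j) < r := by
  classical
  by_contra h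
  push Not at h
  have h1 := hρ.pack r hr ((Finset.range (⌈N r⌉₊ + 1)).image p) (by
    intro x hx y hy g hg
    obtain ⟨i, hi, rfl⟩ := Finset.mem_image.1 hx
    obtain ⟨j, hj, rfl⟩ := Finset.mem_image.1 hy
    refine h i (Nat.lt_succ_iff.1 (Finset.mem_range.1 hi)) j
      (Nat.lt_succ_iff.1 (Finset.mem_range.1 hj)) g ?_
    exact hg.imp_left fun h2 e => h2 (by rw [e]))
  rw [Finset.card_image_of_injective _ hp, Finset.card_range] at h1
  push_cast at h1
  linarith [Nat.le_ceil (N r)]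

end

theorem exists_adj_le (Γ : Type*) [Group Γ] (N : ℝ → ℝ) (L : ℝ) : ∃ C : ℝ,
    ∀ (ρ : Γ →* Isom) (O : Set Γ), Good ρ N → OSys ρ O → (∀ a ∈ O, tl (ρ a) ≤ L) →
      ∀ a ∈ O, ∃ b, Adj ρ O a b ∧ TT (ρ a) (ρ b) ≤ C := by
  obtain ⟨r, hr⟩ : ∃ r : ℝ, r = 2 * arsinh 1 := ⟨_, rfl⟩
  have hr0 : 0 < r := by
    rw [hr]
    exact mul_pos two_pos (arsinh_pos_iff.2 one_pos)
  obtain ⟨c, hc⟩ : ∃ c, c = cosh r := ⟨_, rfl⟩
  obtain ⟨Q, hQ⟩ : ∃ Q, Q = cosh (L / 2) := ⟨_, rfl⟩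
  have c1 : 1 ≤ c := hc ▸ one_le_cosh r
  have Q1 : 1 ≤ Q := hQ ▸ one_le_cosh _
  obtain ⟨t, ht⟩ : ∃ t : ℕ → ℝ, t = fun k => (Q * c + 1) * (4 * c) ^ k := ⟨_, rfl⟩
  have Qc : Q ≤ Q * c := le_mul_of_one_le_right (by linarith) c1
  have t0 : ∀ k, Q * c + 1 ≤ t k := fun k => by
    rw [ht]
    exact le_mul_of_one_le_right (by linarith) (one_le_pow₀ (by linarith))
  have tm : ∀ {i j : ℕ}, i ≤ j → t i ≤ t j := fun hij => by
    rw [ht]
    exact mul_le_mul_of_nonneg_left (pow_le_pow_right₀ (by linarith only [c1]) hij) (by linarith)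
  have ts : ∀ {i j : ℕ}, i < j → 3 * c * t i < t j := fun {i j} hij => by
    have e : t (i + 1) = 4 * c * t i := by
      rw [ht]
      ring
    have h1 := tm (Nat.succ_le_of_lt hij)
    have h2 : 0 < c * t i := mul_pos (by linarith) (by linarith [t0 i])
    rw [e] at h1
    linarith
  obtain ⟨T, hT⟩ : ∃ T, T = t (⌈N r⌉₊ + 1) := ⟨_, rfl⟩
  refine ⟨T * (T * (1 + Q ^ 2)) + (Q + T) * (Q + T * (1 + Q ^ 2)), fun ρ O hρ hO hL a ha => ?_⟩
  have hd : Disc ρ := hρ.toDisc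
  have hq : ∀ x ∈ O, qsh (ρ x) ≤ Q := fun x hx => by
    rw [hQ]
    exact (sinh_le_sinh.2 (by linarith [hL x hx])).trans (sinh_lt_cosh _).le
  have na := hO.noFix ha
  choose p hp using fun k => (hO.pos a ha).exists_level (t := t k) (by linarith [t0 k])
  have hp' : ∀ k, |B (qv (ρ a)) (p k).1| = t k := fun k => by
    rw [← abs_neg, hp, abs_of_nonneg (by linarith [t0 k])]
  obtain ⟨i, hi, j, hj, g, hg, hlt⟩ := PBers_pack hρ hr0 p (fun i j e => by
    have h1 : t i = t j := by rw [← hp, ← hp, e]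
    have h2 : ∀ k, t k ≤ 3 * c * t k := fun k =>
      le_mul_of_one_le_left (by linarith [t0 k]) (by linarith)
    rcases lt_trichotomy i j with h | h | h
    · linarith [ts h, h2 i]
    · exact h
    · linarith [ts h, h2 j])
  have hcd : cosh (dist (p i) (ρ g • p j)) ≤ c := by
    rw [hc]
    exact cosh_le_cosh.2 (by rw [abs_of_nonneg dist_nonneg, abs_of_pos hr0]; exact hlt.le)
  have hcd' : cosh (dist (ρ g • p j) (p i)) ≤ c := by rwa [dist_comm]
  have ha' := hO.conj a ha g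
  have na' := hO.noFix ha'
  have lv : ∀ v : Pt, B (qv (ρ (g * a * g⁻¹))) (ρ g • v).1 = B (qv (ρ a)) v.1 := fun v => by
    rw [POs_conj, na.qv_conj, smul_pt_val, B_lin]
  have l1 : |B (qv (ρ (g * a * g⁻¹))) (p i).1| ≤ 3 * c * t j :=
    PBers_lev na' hcd' (by linarith only [Qc, hq, ha', t0, hq _ ha', t0 j]) (by rw [lv, hp'])
  have l2 : |B (qv (ρ (g * a * g⁻¹))) (p i).1| ≤ T :=
    l1.trans (hT ▸ (ts (Nat.lt_succ_of_le hj)).le)
  have l3 : |B (qv (ρ a)) (p i).1| ≤ T := by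
    rw [hp', hT]
    exact tm (Nat.le_succ_of_le hi)
  have i1 : Ins (ρ a) (p i).1 := by
    have := hp i
    unfold Ins
    linarith only [Q1, Qc, this, t0, t0 i]
  have i2 : Ins (ρ (g * a * g⁻¹)) (p i).1 :=
    PBers_ins na' hcd' (hq _ ha') (by rw [lv, hp]; linarith only [t0, t0 j])
  have hT0 : 0 ≤ T := (abs_nonneg _).trans l3
  rcases hO.tri hd ha ha' with e | f | ⟨h0, e | f⟩ | ⟨h0, f⟩ | ⟨-, -, f⟩
  · exfalso
    rw [← e] at l1 lv
    have l4 : |B (qv (ρ a)) (ρ g • p j).1| ≤ 3 * c * t i :=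
      PBers_lev na hcd (by linarith only [Qc, hq, ha, t0, hq _ ha, t0 i]) (hp' i).le
    rw [lv, hp'] at l4
    rw [hp'] at l1
    have hij : i = j := by
      rcases lt_trichotomy i j with h | h | h
      · linarith [ts h]
      · exact h
      · linarith [ts h]
    subst hij
    have hg1 : g ≠ 1 := hg.resolve_left fun h => h rfl
    obtain ⟨n, rfl⟩ := Subgroup.mem_zpowers_iff.1 (hO.mem_zpowers ha e.symm)
    have h1 := PBers_zpow na (n := n) (fun h => hg1 (by rw [h, zpow_zero])) (p i)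
    rw [map_zpow] at hlt
    have h2 : sinh (dist (p i) (ρ a • p i) / 2) < 1 := by
      rw [← sinh_arsinh 1]
      exact sinh_lt_sinh.2 (by linarith only [hr, hlt, h1])
    have h3 : 0 ≤ sinh (dist (p i) (ρ a • p i) / 2) := sinh_nonneg_iff.2 (by positivity)
    have h4 := na.sinh_sq_dist (p i)
    rw [← sq_abs (B _ _), hp'] at h4
    have h5 : 1 ≤ t i := by linarith only [Q1, Qc, t0, t0 i]
    linarith only [h2, h4, h5, h3, sq_nonneg (qsh (ρ a)), sq_nonneg (qsh (ρ a)), mul_nonneg_of_nonpos_of_nonpos (le_of_lt (Mathlib.Tactic.Linarith.sub_neg_of_lt h2)) (Mathlib.Tactic.Linarith.sub_nonpos_of_le h3), mul_nonneg_of_nonpos_of_nonpos (Mathlib.Tactic.Linarith.sub_nonpos_of_le h5) (Mathlib.Tactic.Linarith.sub_nonpos_of_le h5)]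
  · exact PBers_adj hO hd hq ha ha' f l3 ((neg_le_abs _).trans l2)
  · refine absurd (POs_isConj g a) ?_
    rw [← inv_inv (g * a * g⁻¹), ← e]
    exact hd.not_isConj_inv (hO.ne_one ha)
  · refine PBers_adj hO hd hq ha (hO.inv _ ha' h0) f l3 ?_
    rw [map_inv, na'.qv_inv, B_neg_left, neg_neg]
    exact (le_of_lt i2).trans hT0
  · have f1 := f.symm.conj (ρ g⁻¹)
    rw [← POs_conj, ← POs_conj, show g⁻¹ * (g * a * g⁻¹) * g⁻¹⁻¹ = a by group] at f1
    refine PBers_adj hO hd hq ha (hO.conj _ (hO.inv a ha h0) g⁻¹) f1 (p := ρ g⁻¹ • p i) ?_ ?_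
    · rw [← lv, ← mul_smul, ← map_mul, mul_inv_cancel, map_one, one_smul]
      exact l2
    · rw [POs_conj, f.1.qv_conj, smul_pt_val, B_lin, map_inv, na.qv_inv, B_neg_left, neg_neg]
      exact (le_of_lt i1).trans hT0
  · exact absurd (f.ins_pt (PAdj_ni na' i2)) (PAdj_ni na i1)

/-- The three entries of a frame are pairwise not conjugate. -/
def PBersNC {Γ : Type*} [Group Γ] (a x : Γ) : Prop :=
  ¬ IsConj a x ∧ ¬ IsConj x (a * x)⁻¹ ∧ ¬ IsConj (a * x)⁻¹ a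

/-- Boundary components of a region that is a pair of pants. -/
def PBersFull {Γ : Type*} [Group Γ] (ρ : Γ →* Isom) (O : Set Γ) (a : Γ) : Prop :=
  ∃ x, FO ρ O a x ∧ PBersNC a x

/-- All translates of the boundary components of the region of `a`. -/
def PBersW {Γ : Type*} [Group Γ] (ρ : Γ →* Isom) (O : Set Γ) (a : Γ) : Set Γ :=
  {c | ∃ c', IsConj c c' ∧ (c' = a ∨ Adj ρ O a c')}

section
variable {Γ : Type*} [Group Γ] {ρ : Γ →* Isom} {N : ℝ → ℝ} {O : Set Γ} {a b c x y : Γ}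

theorem PBersNC.ft (h : PBersNC a b) (h1 : FT a b x y) : PBersNC x y := by
  induction h1 with
  | refl => exact h
  | @rot x y _ ih =>
    have e : (y * (x * y)⁻¹)⁻¹ = x := by group
    unfold PBersNC
    rw [e]
    exact ⟨ih.2.1, ih.2.2, ih.1⟩
  | @flip x y _ ih =>
    have e : IsConj (x * y)⁻¹ (y * x)⁻¹ := isConj_iff.2 ⟨y, by group⟩
    exact ⟨fun k => ih.1 k.symm, fun k => ih.2.2 (e.trans k.symm),
      fun k => ih.2.1 (e.trans k).symm⟩

theorem PBersNC.conj (h : PBersNC a b) (g : Γ) : PBersNC (g * a * g⁻¹) (g * b * g⁻¹) := by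
  have e : IsConj (a * b)⁻¹ (g * a * g⁻¹ * (g * b * g⁻¹))⁻¹ := isConj_iff.2 ⟨g, by group⟩
  have ea := POs_isConj g a
  have eb := POs_isConj g b
  exact ⟨fun k => h.1 (ea.trans (k.trans eb.symm)), fun k => h.2.1 (eb.trans (k.trans e.symm)),
    fun k => h.2.2 (e.trans (k.trans ea.symm))⟩

theorem PBersFull.conj (hO : OSys ρ O) (h : PBersFull ρ O a) (g : Γ) :
    PBersFull ρ O (g * a * g⁻¹) := by
  obtain ⟨x, h1, h2⟩ := h
  exact ⟨_, h1.conj hO g, h2.conj g⟩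

theorem PBersFull.adj (hO : OSys ρ O) (hρ : Good ρ N) (h : PBersFull ρ O a) (hc : Adj ρ O a c) :
    PBersFull ρ O c := by
  obtain ⟨x, h1, h2⟩ := h
  obtain ⟨y, hy⟩ := h1.reach hO hρ hc
  exact ⟨y, h1.ft hO hy, h2.ft hy⟩

theorem PBersW_conj (h : c ∈ PBersW ρ O a) (h1 : IsConj c b) : b ∈ PBersW ρ O a := by
  obtain ⟨c', h2, h3⟩ := h
  exact ⟨c', h1.symm.trans h2, h3⟩

theorem PBersW_self (a : Γ) : a ∈ PBersW ρ O a := ⟨a, IsConj.refl a, Or.inl rfl⟩

theorem PBersW_symm (hO : OSys ρ O) (h : c ∈ PBersW ρ O a) : a ∈ PBersW ρ O c := by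
  obtain ⟨c', h2, rfl | h3⟩ := h
  · exact ⟨c, h2.symm, Or.inl rfl⟩
  · obtain ⟨g, rfl⟩ := isConj_iff.1 h2.symm
    exact ⟨_, POs_isConj g a, Or.inr ((h3.symm hO).conj hO g)⟩

theorem PBersW_trans (hO : OSys ρ O) (hρ : Disc ρ) (h1 : b ∈ PBersW ρ O a)
    (h2 : c ∈ PBersW ρ O b) : c ∈ PBersW ρ O a := by
  obtain ⟨b', e1, h1⟩ := h1
  obtain ⟨c', e2, h2⟩ := h2
  obtain ⟨g, rfl⟩ := isConj_iff.1 e1
  refine ⟨g * c' * g⁻¹, e2.trans (POs_isConj g c'), ?_⟩
  rcases h2 with rfl | h2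
  · exact h1
  · have h3 := h2.conj hO g
    rcases h1 with h1 | h1
    · rw [h1] at h3
      exact Or.inr h3
    · by_cases e : g * c' * g⁻¹ = a
      · exact Or.inl e
      · exact Or.inr (h1.trans hO hρ h3 (Ne.symm e))

theorem PBersW_eq (hO : OSys ρ O) (hρ : Disc ρ) (h : b ∈ PBersW ρ O a) :
    PBersW ρ O b = PBersW ρ O a :=
  Subset.antisymm (fun _ k => PBersW_trans hO hρ h k)
    fun _ k => PBersW_trans hO hρ (PBersW_symm hO h) k

theorem PBersW_frame (hO : OSys ρ O) (hρ : Good ρ N) (h : FO ρ O a x) (hc : c ∈ PBersW ρ O a) :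
    IsConj a c ∨ IsConj x c ∨ IsConj (a * x)⁻¹ c := by
  obtain ⟨c', e, rfl | h1⟩ := hc
  · exact Or.inl e.symm
  · obtain ⟨y, hy⟩ := h.reach hO hρ h1
    obtain ⟨w, -, u, v, h2, h3⟩ := hy.exists_conj
    have h4 : IsConj u c ∨ IsConj v c := by
      rcases h3 with ⟨rfl, -⟩ | ⟨-, rfl⟩
      · exact Or.inl ((POs_isConj w u).trans e.symm)
      · exact Or.inr ((POs_isConj w v).trans e.symm)
    rcases h2 with ⟨rfl, rfl⟩ | ⟨rfl, rfl⟩ | ⟨rfl, rfl⟩ <;> tauto

/-- If all objects are full they are the objects of a pants decomposition. -/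
theorem PBers_all (hO : OSys ρ O) (hρ : Good ρ N) (hne : O.Nonempty)
    (hf : ∀ a ∈ O, PBersFull ρ O a) :
    ∃ (n : ℕ) (nx : Equiv.Perm (Fin n)) (E : Fin n → Γ), IsPants ρ nx E ∧ objs E = O := by
  have hd : Disc ρ := hρ.toDisc
  obtain ⟨s, hs⟩ := hO.fin
  have hT : (PBersW ρ O '' O).Finite := by
    refine (s.finite_toSet.image (PBersW ρ O)).subset ?_
    rintro _ ⟨a, ha, rfl⟩
    obtain ⟨f, h1, h2⟩ := hs a ha
    exact ⟨f, h1, (PBersW_eq hO hd (PBersW_conj (PBersW_self f) h2)).symm⟩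
  obtain ⟨k, F, hF, hr⟩ := hT.fin_param
  have h1 : ∀ i, ∃ a ∈ O, PBersW ρ O a = F i := fun i => hr.subset ⟨i, rfl⟩
  choose A a1 a2 using h1
  choose X x1 x2 using fun i => hf _ (a1 i)
  obtain ⟨E, hE⟩ : ∃ E : Fin k × Fin 3 → Γ, E = fun d => ![A d.1, X d.1, (A d.1 * X d.1)⁻¹] d.2 :=
    ⟨_, rfl⟩
  have E0 : ∀ i, E (i, 0) = A i := fun i => by rw [hE]; rfl
  have E1 : ∀ i, E (i, 1) = X i := fun i => by rw [hE]; rfl
  have E2 : ∀ i, E (i, 2) = (A i * X i)⁻¹ := fun i => by rw [hE]; rfl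
  have c3 : ∀ j : Fin 3, j = 0 ∨ j = 1 ∨ j = 2 := by decide
  have mO : ∀ d, E d ∈ O := by
    rintro ⟨i, j⟩
    rcases c3 j with rfl | rfl | rfl
    · exact E0 i ▸ (x1 i).1
    · exact E1 i ▸ (x1 i).2.1
    · exact E2 i ▸ (x1 i).2.2.1
  have mW : ∀ i j, E (i, j) ∈ PBersW ρ O (A i) := by
    intro i j
    rcases c3 j with rfl | rfl | rfl
    · exact E0 i ▸ PBersW_self _
    · exact E1 i ▸ ⟨_, IsConj.refl _, Or.inr ((x1 i).adj hO hd)⟩
    · exact E2 i ▸ PBersW_trans hO hd ⟨_, IsConj.refl _, Or.inr ((x1 i).adj hO hd)⟩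
        ⟨_, IsConj.refl _, Or.inr ((x1 i).rot.adj hO hd)⟩
  have hob : objs E = O := by
    ext c
    constructor
    · rintro ⟨d, h⟩
      obtain ⟨g, rfl⟩ := isConj_iff.1 h
      exact hO.conj _ (mO d) g
    · intro hc
      obtain ⟨i, hi⟩ := hr.symm.subset ⟨c, hc, rfl⟩
      have h2 : c ∈ PBersW ρ O (A i) := by
        rw [a2, hi]
        exact PBersW_self c
      rcases PBersW_frame hO hρ (x1 i) h2 with h | h | h
      · exact ⟨(i, 0), E0 i ▸ h⟩
      · exact ⟨(i, 1), E1 i ▸ h⟩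
      · exact ⟨(i, 2), E2 i ▸ h⟩
  obtain ⟨nx, hnx⟩ : ∃ nx : Equiv.Perm (Fin k × Fin 3), ∀ i j, nx (i, j) = (i, j + 1) :=
    ⟨Equiv.prodCongr (Equiv.refl _) (Equiv.addRight 1), fun _ _ => rfl⟩
  have n0 : ∀ i, nx (i, 0) = (i, 1) := fun i => hnx i 0
  have n1 : ∀ i, nx (i, 1) = (i, 2) := fun i => hnx i 1
  have n2 : ∀ i, nx (i, 2) = (i, 0) := fun i => hnx i 2
  have hP : IsPants ρ nx E := by
    refine ⟨?_, hob ▸ hO, ?_, ?_, ?_⟩
    · obtain ⟨a, ha⟩ := hne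
      obtain ⟨i, -⟩ := hr.symm.subset ⟨a, ha, rfl⟩
      exact ⟨(i, 0)⟩
    · rintro ⟨i, j⟩
      have f := (x1 i).2.2.2
      rcases c3 j with rfl | rfl | rfl
      · rw [n0, n1, E0, E1, E2]
        exact f
      · rw [n1, n2, E0, E1, E2]
        exact f.rot
      · rw [n2, n0, E0, E1, E2]
        exact f.rot.rot
    · rintro ⟨i, j⟩
      rcases c3 j with rfl | rfl | rfl <;> simp only [n0, n1, n2]
    · rintro ⟨i, j⟩ ⟨i', j'⟩ h
      have e : i = i' := hF (by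
        rw [← a2, ← a2, ← PBersW_eq hO hd (mW i' j'), PBersW_eq hO hd (PBersW_conj (mW i j) h)])
      subst e
      obtain ⟨y1, y2, y3⟩ := x2 i
      rcases c3 j with rfl | rfl | rfl <;> rcases c3 j' with rfl | rfl | rfl <;>
        simp only [E0, E1, E2] at h <;>
        first
        | rfl
        | exact absurd h y1
        | exact absurd h y2
        | exact absurd h y3
        | exact absurd h.symm y1
        | exact absurd h.symm y2
        | exact absurd h.symm y3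
  refine ⟨_, _, _, hP.reindex (Fintype.equivFin (Fin k × Fin 3)).symm, ?_⟩
  rw [← hob]
  ext c
  exact ⟨fun ⟨d, h⟩ => ⟨_, h⟩, fun ⟨d, h⟩ => ⟨Fintype.equivFin _ d, by simpa using h⟩⟩

theorem PBers_tl {g : Isom} {C : ℝ} (h : qch g ≤ C) : tl g ≤ 2 * C := by
  have h1 := GStab_le_cosh (tl g / 2) (by linarith only [tl_nonneg g])
  unfold qch at h
  linarith

/-- An object that is not full gives a larger system. -/
theorem PBers_step (hO : OSys ρ O) (hρ : Good ρ N) {L C : ℝ} (hL : ∀ a ∈ O, tl (ρ a) ≤ L)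
    (ha : ¬ PBersFull ρ O a) (hb : Adj ρ O a b) (hC : TT (ρ a) (ρ b) ≤ C) :
    ∃ O', OSys ρ O' ∧ O ⊂ O' ∧ ∀ c ∈ O', tl (ρ c) ≤ max L (2 * C) := by
  have hd : Disc ρ := hρ.toDisc
  obtain ⟨u, hu, v, hs, h1⟩ := hO.exists_spair hρ (Q := {c | ¬ PBersFull ρ O c})
    (fun x hx g k => hx (by simpa [mul_assoc] using k.conj hO g⁻¹))
    (fun x hx y hy k => hx (k.adj hO hρ (hy.symm hO))) ha hb
  obtain ⟨x, y, f, h2, h3, h4⟩ := hs.exists_frame hO hd
  have hy : y = (u * x)⁻¹ := hd.injective (by rw [f.eq_inv, map_inv, map_mul])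
  have hxy : tl (ρ x) ≤ max L (2 * C) ∧ tl (ρ y) ≤ max L (2 * C) := by
    have e1 := f.lift.1
    have cu := one_le_qch (ρ u)
    have cx := one_le_qch (ρ x)
    have cy := one_le_qch (ρ y)
    have cux : 1 ≤ qch (ρ u) * qch (ρ x) := one_le_mul_of_one_le_of_one_le cu cx
    rcases h2 with rfl | rfl
    · exact ⟨(hL _ hs.1.2.1).trans (le_max_left _ _),
        (PBers_tl (by linarith)).trans (le_max_right _ _)⟩
    · rw [POs_conj, TT_conj f.2.1.1 f.2.1.2.1] at h1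
      have e2 : TT (ρ u) (ρ x) = qch (ρ y) + qch (ρ u) * qch (ρ x) := by linarith
      have e3 : qsh (ρ u) ^ 2 = qch (ρ u) ^ 2 - 1 := by rw [qch_sq]; ring
      have e4 : qsh (ρ x) ^ 2 = qch (ρ x) ^ 2 - 1 := by rw [qch_sq]; ring
      rw [e2, e3, e4] at h1
      have e5 : 0 ≤ qch (ρ y) * (qch (ρ u) * qch (ρ x)) := by positivity
      have e6 : qch (ρ x) ≤ qch (ρ x) ^ 2 := by linarith only [e4, cx, sq_nonneg (qsh (ρ x)), mul_nonneg_of_nonpos_of_nonpos (Mathlib.Tactic.Linarith.sub_nonpos_of_le cx) (Mathlib.Tactic.Linarith.sub_nonpos_of_le cx)]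
      have e7 : qch (ρ y) ≤ qch (ρ y) ^ 2 := by linarith only [cy, mul_nonneg_of_nonpos_of_nonpos (Mathlib.Tactic.Linarith.sub_nonpos_of_le cy) (Mathlib.Tactic.Linarith.sub_nonpos_of_le cy)]
      have e8 : 1 ≤ qch (ρ u) ^ 2 := by linarith only [e3, sq_nonneg (qsh (ρ u))]
      have e9 : 2 * qch (ρ y) ^ 2 + 2 * qch (ρ x) ^ 2 ≤ C := by linarith only [hC, h1, e3, e5, sq_nonneg (qsh (ρ u))]
      exact ⟨(PBers_tl (by linarith only [hC, cy, h1, e3, e4, e5, e6, e7, sq_nonneg (qsh (ρ x)), sq_nonneg (qsh (ρ u))])).trans (le_max_right _ _),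
        (PBers_tl (by linarith only [hC, cy, h1, e3, e4, e5, e7, sq_nonneg (qsh (ρ x)), sq_nonneg (qsh (ρ u))])).trans (le_max_right _ _)⟩
  refine ⟨_, h3, ⟨subset_union_left.trans subset_union_left, fun hsub => hu ⟨x, ?_, ?_⟩⟩, ?_⟩
  · rw [hy] at f
    exact ⟨hs.1.1, hsub (Or.inl (Or.inr (mem_cls_self x))), hsub (Or.inr (hy ▸ mem_cls_self y)), f⟩
  · rw [hy] at h4
    exact h4
  · rintro c ((hc | hc) | hc)
    · exact (hL c hc).trans (le_max_left _ _)
    · rw [tl_of_mem_cls hc]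
      exact hxy.1
    · rw [tl_of_mem_cls hc]
      exact hxy.2

theorem PBers_lt {k k' : ℕ} {R : Fin k → Γ} {R' : Fin k' → Γ} (hR : Multi ρ R)
    (h : Obj ρ R ⊂ Obj ρ R') : k < k' := by
  have h1 : ∀ i, ∃ j, R i ∈ cls ρ (R' j) := fun i =>
    (h.1 (Or.inl ⟨i, mem_cls_self _⟩)).resolve_right fun c => (hR.1 i).hyp.not_par c.1
  choose φ hφ using h1
  have h2 : Function.Injective φ := fun i i' e => by
    by_contra hne
    have h3 : R i ∈ cls ρ (R i') := by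
      rw [cls_eq (hφ i'), ← e]
      exact hφ i
    rcases h3 with h3 | ⟨-, h3⟩
    · obtain ⟨g, hg⟩ := isConj_iff.1 h3
      exact (hR.2 i i' hne g).2.1 hg.symm
    · obtain ⟨g, hg⟩ := isConj_iff.1 h3
      exact (hR.2 i i' hne g).2.2 (by rw [← hg]; group)
  have h3 : ¬ Function.Surjective φ := fun hs => h.2 (by
    rintro c (⟨j, hj⟩ | hc)
    · obtain ⟨i, rfl⟩ := hs j
      exact Or.inl ⟨i, by rwa [cls_eq (hφ i)]⟩
    · exact Or.inr hc)
  simpa using Fintype.card_lt_of_injective_not_surjective φ h2 h3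

end

theorem PBers_ind (Γ : Type*) [Group Γ] (N : ℝ → ℝ) (ξ n : ℕ) : ∀ L : ℝ, ∃ L' : ℝ,
    ∀ (ρ : Γ →* Isom) (k : ℕ) (R : Fin k → Γ), Good ρ N →
      (∀ (ι : Type) [Fintype ι] (R : ι → Γ), Multi ρ R → Fintype.card ι ≤ ξ) → Multi ρ R →
        ξ < k + n → (Obj ρ R).Nonempty → (∀ a ∈ Obj ρ R, tl (ρ a) ≤ L) →
          ∃ (n : ℕ) (nx : Equiv.Perm (Fin n)) (E : Fin n → Γ), IsPants ρ nx E ∧
            Obj ρ R ⊆ objs E ∧ ∀ d, tl (ρ (E d)) ≤ L' := by
  induction n with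
  | zero =>
    refine fun L => ⟨0, fun ρ k R _ hξ hR hk _ _ => ?_⟩
    have := hξ (Fin k) R hR
    rw [Fintype.card_fin] at this
    omega
  | succ n ih =>
    intro L
    obtain ⟨C, hC⟩ := exists_adj_le Γ N L
    obtain ⟨L', hL'⟩ := ih (max L (2 * C))
    refine ⟨max L L', fun ρ k R hρ hξ hR hk hne hL => ?_⟩
    have hO := osys_obj hρ hR
    by_cases hf : ∀ a ∈ Obj ρ R, PBersFull ρ (Obj ρ R) a
    · obtain ⟨m, nx, E, h1, h2⟩ := PBers_all hO hρ hne hf
      exact ⟨m, nx, E, h1, h2.ge,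
        fun d => (hL _ (h2 ▸ PPants_self E d)).trans (le_max_left _ _)⟩
    · push Not at hf
      obtain ⟨a, ha, hf⟩ := hf
      obtain ⟨b, hb, hT⟩ := hC ρ _ hρ hO hL a ha
      obtain ⟨O', h1, h2, h3⟩ := PBers_step hO hρ hL hf hb hT
      obtain ⟨k', R', hR', rfl⟩ := h1.exists_multi hρ.toDisc
      have h4 := PBers_lt hR h2
      obtain ⟨m, nx, E, h5, h6, h7⟩ := hL' ρ k' R' hρ hξ hR' (by omega) (hne.mono h2.1) h3
      exact ⟨m, nx, E, h5, h2.1.trans h6, fun d => (h7 d).trans (le_max_right _ _)⟩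

theorem exists_pants (Γ : Type*) [Group Γ] (N : ℝ → ℝ) (L : ℝ) (ξ : ℕ) : ∃ L' : ℝ,
    ∀ (ρ : Γ →* Isom) (O : Set Γ), Good ρ N →
      (∀ (ι : Type) [Fintype ι] (R : ι → Γ), Multi ρ R → Fintype.card ι ≤ ξ) → OSys ρ O →
        O.Nonempty → (∀ a ∈ O, tl (ρ a) ≤ L) →
          ∃ (n : ℕ) (nx : Equiv.Perm (Fin n)) (E : Fin n → Γ), IsPants ρ nx E ∧ O ⊆ objs E ∧
            ∀ d, tl (ρ (E d)) ≤ L' := by
  obtain ⟨L', h⟩ := PBers_ind Γ N ξ (ξ + 1) L
  refine ⟨L', fun ρ O hρ hξ hO hne hL => ?_⟩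
  obtain ⟨k, R, hR, rfl⟩ := hO.exists_multi hρ.toDisc
  exact h ρ k R hρ hξ hR (by omega) hne hL

/-- Without cusps, an element of least translation length is simple. -/
theorem PBers_simple {Γ : Type*} [Group Γ] {ρ : Γ →* Isom} {f : Γ} (hf : Hyp (ρ f))
    (hm : ∀ g : Γ, g ≠ 1 → tl (ρ f) ≤ tl (ρ g)) : Simple ρ f := by
  have h0 : 0 < tl (ρ f) := hf
  refine simple_iff.2 ⟨hf, fun δ n hn => ?_, fun k hc => ?_⟩
  · have h1 : f ≠ 1 := fun e => GAx_ne_one hf (by rw [e, map_one])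
    have h2 : n ≠ 0 := fun e => h1 (by rw [← hn, e, pow_zero])
    have h3 : δ ≠ 1 := fun e => h1 (by rw [← hn, e, one_pow])
    have h4 : Hyp (ρ δ) := lt_of_lt_of_le h0 (hm δ h3)
    have h5 := (h4.pow h2).2.2
    rw [← map_pow, hn] at h5
    by_contra h6
    have h7 : (2 : ℝ) ≤ n := by exact_mod_cast (by omega : 2 ≤ n)
    have h8 := hm δ h3
    linarith only [h0, h5, h8, h7, mul_nonneg_of_nonpos_of_nonpos (Mathlib.Tactic.Linarith.sub_nonpos_of_le (Mathlib.Tactic.Linarith.natCast_nonneg ℝ n)) (Mathlib.Tactic.Linarith.sub_nonpos_of_le h8), mul_nonneg_of_nonpos_of_nonpos (le_of_lt (Mathlib.Tactic.Linarith.sub_neg_of_lt h0)) (Mathlib.Tactic.Linarith.sub_nonpos_of_le h7)]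
  · obtain ⟨s, hs⟩ : ∃ s, s = xp (ax (ρ f)) (ρ k • ax (ρ f)) := ⟨_, rfl⟩
    obtain ⟨s', hs'⟩ : ∃ s', s' = xp (ρ k • ax (ρ f)) (ax (ρ f)) - sh (ρ k) (ax (ρ f)) := ⟨_, rfl⟩
    have h1 : ρ k • pt (ax (ρ f)) s' = pt (ax (ρ f)) s := by
      rw [smul_pt, hs', sub_add_cancel, hs, pt_xp hc]
    obtain ⟨n, hn⟩ : ∃ n : ℤ, n = round ((s' - s) / tl (ρ f)) := ⟨_, rfl⟩
    have h2 : |s' - n * tl (ρ f) - s| ≤ tl (ρ f) / 2 := by
      have h3 := abs_sub_round ((s' - s) / tl (ρ f))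
      rw [← hn] at h3
      have e : s' - n * tl (ρ f) - s = ((s' - s) / tl (ρ f) - n) * tl (ρ f) := by
        field_simp
        ring
      rw [e, abs_mul, abs_of_pos h0]
      linarith only [h0, h3, mul_nonneg_of_nonpos_of_nonpos (le_of_lt (Mathlib.Tactic.Linarith.sub_neg_of_lt h0)) (Mathlib.Tactic.Linarith.sub_nonpos_of_le h3)]
    have h3 : k * f ^ n ≠ 1 := fun e => by
      have h4 : ρ k • ax (ρ f) = ax (ρ f) := by
        rw [eq_inv_of_mul_eq_one_left e, ← zpow_neg, map_zpow]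
        exact hf.zpow_smul_ax _
      rw [h4] at hc
      exact not_cross_self _ hc
    have h4 := (hm _ h3).trans (tl_le _ (pt (ax (ρ f)) (s' - n * tl (ρ f))))
    rw [map_mul, mul_smul, map_zpow, GStab_zpow_pt hf, sub_add_cancel, h1, dist_pt] at h4
    linarith

theorem exists_start (Γ : Type*) [Group Γ] (N : ℝ → ℝ) : ∃ L : ℝ, ∀ ρ : Γ →* Isom, Good ρ N →
    ∃ O : Set Γ, OSys ρ O ∧ O.Nonempty ∧ ∀ a ∈ O, tl (ρ a) ≤ L := by
  classical
  refine ⟨1 + ⌈N 1⌉₊, fun ρ hρ => ?_⟩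
  have hd : Disc ρ := hρ.toDisc
  have h0 : ∀ a, CuspGen ρ a → tl (ρ a) ≤ 1 + ⌈N 1⌉₊ := fun a ha => by
    rw [ha.1.2]
    positivity
  by_cases hc : ∃ a, CuspGen ρ a
  · obtain ⟨a, ha⟩ := hc
    refine ⟨Obj ρ (Empty.elim : Empty → Γ), osys_obj hρ ⟨fun i => i.elim, fun i => i.elim⟩,
      ⟨a, Or.inr ha⟩, ?_⟩
    rintro c (⟨i, -⟩ | h)
    · exact i.elim
    · exact h0 c h
  have hh : ∀ g : Γ, g ≠ 1 → Hyp (ρ g) := fun g hg => (hd.hyp_or_par hg).resolve_right fun h => by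
    obtain ⟨a, ha, -⟩ := hd.exists_cuspGen ⟨g, h, rfl⟩
    exact hc ⟨a, ha⟩
  obtain ⟨l⟩ : Nonempty Geo := inferInstance
  obtain ⟨i, hi, j, hj, g, hg, hlt⟩ := PBers_pack hρ one_pos (fun n => pt l n) (fun i j e => by
    have h1 := congrArg (fun p : Pt => fer l p.1) e
    simpa [fer_pt] using h1)
  have hg1 : g ≠ 1 := by
    rintro rfl
    rw [map_one, one_smul, dist_pt, ← Int.cast_natCast, ← Int.cast_natCast j, ← Int.cast_sub,
      ← Int.cast_abs] at hlt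
    have h1 : |(i : ℤ) - j| < 1 := by exact_mod_cast hlt
    have h2 := Int.abs_lt_one_iff.1 h1
    rcases hg with h | h
    · omega
    · exact h rfl
  have hg2 : tl (ρ g) ≤ 1 + ⌈N 1⌉₊ := by
    have h1 := dist_triangle (pt l j) (pt l i) (ρ g • pt l j)
    have h2 : (i : ℝ) ≤ ⌈N 1⌉₊ := by exact_mod_cast hi
    have h3 : (j : ℝ) ≤ ⌈N 1⌉₊ := by exact_mod_cast hj
    have h4 : |(j : ℝ) - i| ≤ ⌈N 1⌉₊ := by
      rw [abs_le]
      constructor <;> linarith only [h2, h3, Nat.cast_nonneg (α := ℝ) i, Nat.cast_nonneg (α := ℝ) j]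
    rw [dist_pt] at h1
    linarith only [hlt, h1, h4, tl_le (ρ g) (pt l j)]
  obtain ⟨s, hs⟩ := hρ.finite_spectrum (tl (ρ g))
  have key : ∀ x : Γ, x ≠ 1 → tl (ρ x) ≤ tl (ρ g) →
      ∃ f ∈ s.filter fun f => Hyp (ρ f), tl (ρ x) = tl (ρ f) := fun x hx h => by
    obtain ⟨f, h1, h2⟩ := hs x (hh x hx) h
    have h3 := POs_tl h2 ρ
    exact ⟨f, Finset.mem_filter.2 ⟨h1, by rw [Hyp, ← h3]; exact hh x hx⟩, h3⟩
  obtain ⟨f₀, h1, h2⟩ := key g hg1 le_rfl
  obtain ⟨f, h3, h4⟩ := Finset.exists_min_image _ (fun f => tl (ρ f)) ⟨f₀, h1⟩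
  have h5 : tl (ρ f) ≤ tl (ρ g) := h2 ▸ h4 f₀ h1
  have h6 : Simple ρ f := PBers_simple (Finset.mem_filter.1 h3).2 fun x hx => by
    rcases le_total (tl (ρ x)) (tl (ρ g)) with h | h
    · obtain ⟨f', h7, h8⟩ := key x hx h
      exact h8 ▸ h4 f' h7
    · exact h5.trans h
  refine ⟨Obj ρ fun _ : Unit => f, osys_obj hρ (multi_single h6),
    ⟨f, Or.inl ⟨(), mem_cls_self f⟩⟩, ?_⟩
  rintro c (⟨_, h⟩ | h)
  · rw [tl_of_mem_cls h]
    exact h5.trans hg2
  · exact h0 c h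

variable {Γ : Type*} [Group Γ] {ρ : Γ →* Isom} {N : ℝ → ℝ}

theorem Good.exists_pants (hρ : Good ρ N) {ι : Type} [Finite ι] {R : ι → Γ} (hR : Multi ρ R) :
    ∃ (n : ℕ) (nx : Equiv.Perm (Fin n)) (E : Fin n → Γ), IsPants ρ nx E ∧ ∀ i, R i ∈ objs E := by
  obtain ⟨O, hO, hne, h⟩ : ∃ O, OSys ρ O ∧ O.Nonempty ∧ ∀ i, R i ∈ O := by
    rcases isEmpty_or_nonempty ι with h | ⟨⟨i⟩⟩
    · obtain ⟨L, hL⟩ := exists_start Γ N
      obtain ⟨O, h1, h2, -⟩ := hL ρ hρ
      exact ⟨O, h1, h2, fun i => isEmptyElim i⟩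
    · exact ⟨_, osys_obj hρ hR, ⟨R i, Or.inl ⟨i, mem_cls_self _⟩⟩,
        fun i => Or.inl ⟨i, mem_cls_self _⟩⟩
  obtain ⟨s, hs⟩ := hO.fin
  obtain ⟨ξ, hξ⟩ := hρ.exists_multi_bound
  obtain ⟨L', hL'⟩ := HRT.exists_pants Γ N (∑ f ∈ s, tl (ρ f)) ξ
  obtain ⟨n, nx, E, h1, h2, -⟩ := hL' ρ O hρ hξ hO hne fun a ha => by
    obtain ⟨f, hf, h1⟩ := hs a ha
    rw [POs_tl h1]
    exact Finset.single_le_sum (f := fun f => tl (ρ f)) (fun f _ => tl_nonneg _) hf
  exact ⟨n, nx, E, h1, fun i => h2 (h i)⟩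

theorem Good.exists_bers (hρ : Good ρ N) {M : ℝ → ℝ} (hM : ∀ x : Rep ρ, Good x.1 M) : ∃ L : ℝ,
    ∀ x : Rep ρ, ∃ (n : ℕ) (nx : Equiv.Perm (Fin n)) (E : Fin n → Γ), IsPants ρ nx E ∧
      ∀ d, tl (x.1 (E d)) ≤ L := by
  obtain ⟨ξ, hξ⟩ := hρ.exists_multi_bound
  obtain ⟨L, hL⟩ := exists_start Γ M
  obtain ⟨L', hL'⟩ := HRT.exists_pants Γ M L ξ
  refine ⟨L', fun x => ?_⟩
  obtain ⟨f, hf⟩ := x.2
  obtain ⟨O, h1, h2, h3⟩ := hL x.1 (hM x)
  obtain ⟨n, nx, E, h4, -, h5⟩ := hL' x.1 O (hM x)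
    (fun ι _ R hR => hξ ι R ((hf.multi_iff R).1 hR)) h1 h2 h3
  exact ⟨n, nx, E, h4.mark hf.symm, h5⟩

end HRT
end

-- merged part: Pool.Agent.Work.MP_35beee_gt.PComb
section
/-!
Connected trivalent graphs with labelled half-edges are related by IH moves.

The half-edges (darts) are the elements of `D`, the involution `gl` pairs them (its fixed points are
legs), the vertices are the orbits of `nx`. A move exchanges two darts across an edge that is not
a loop.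

Proof. Only the partition into vertices matters. The statement is generalised to graphs that need
not be connected: for a set `C` of cut darts, two partitions with the same connected components
are related by moves across edges that are not cut. Induction on `C` (downwards): for an edge `e`
both graphs are moved so that they have the same components after cutting `e`. If the component of
`e` has two legs `u`, `v`, make `{e, u, v}` a vertex; otherwise make `e` non-separating. The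
induction hypothesis gives the exchange of two darts joined by a path that avoids them.
-/

namespace HRT

open Equiv

variable {D : Type} [DecidableEq D]

/-- `x` is at the vertex of `d`. -/
def InV (nx : Perm D) (d x : D) : Prop := x = d ∨ x = nx d ∨ x = nx (nx d)

/-- An IH move. -/
def Move (gl nx nx' : Perm D) : Prop :=
  ∃ d x y, ¬ InV nx d (gl d) ∧ InV nx d x ∧ x ≠ d ∧ InV nx (gl d) y ∧ y ≠ gl d ∧
    nx' = swap x y * nx * swap x y

/-- A connected trivalent graph. -/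
structure Triv (gl nx : Perm D) : Prop where
  cube : ∀ d, nx (nx (nx d)) = d
  ne : ∀ d, nx d ≠ d
  conn : ∀ (P : D → Prop) (d₀ : D), P d₀ → (∀ d, P d → P (nx d)) → (∀ d, P d → P (gl d)) → ∀ d, P d

namespace PComb

/-- `a` is a dart of an edge that is not cut. -/
def Act (gl : Perm D) (C : Set D) (a : D) : Prop := a ∉ C ∧ gl a ∉ C ∧ gl a ≠ a

/-- The connected components after cutting. -/
inductive Cn (gl : Perm D) (C : Set D) (r : Setoid D) (a : D) : D → Prop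
  | refl : Cn gl C r a a
  | vert {b c : D} : Cn gl C r a b → r b c → Cn gl C r a c
  | edge {b : D} : Cn gl C r a b → Act gl C b → Cn gl C r a (gl b)

/-- All classes have three elements. -/
def Tri (r : Setoid D) : Prop :=
  ∀ d, ∃ a b, a ≠ d ∧ b ≠ d ∧ a ≠ b ∧ ∀ x, r d x ↔ x = d ∨ x = a ∨ x = b

/-- A move on partitions. -/
def Mv (gl : Perm D) (C : Set D) (r r' : Setoid D) : Prop :=
  ∃ d x y, Act gl C d ∧ ¬ r d (gl d) ∧ r d x ∧ x ≠ d ∧ r (gl d) y ∧ y ≠ gl d ∧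
    r' = r.comap (swap x y)

/-- Sequences of moves. -/
abbrev Rch (gl : Perm D) (C : Set D) : Setoid D → Setoid D → Prop :=
  Relation.ReflTransGen (Mv gl C)

/-- The statement proved by induction. -/
def Goal (gl : Perm D) (C : Set D) : Prop :=
  ∀ r r', Tri r → Tri r' → (∀ a b, Cn gl C r a b ↔ Cn gl C r' a b) → Rch gl C r r'

variable {gl : Perm D} {C C' : Set D} {r r' : Setoid D} {a b c d e p u v x y : D}

theorem cm {σ : Perm D} {a' b' : D} (ha : σ a = a') (hb : σ b = b') :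
    r.comap σ a b ↔ r a' b' := by
  subst ha hb
  exact Iff.rfl

omit [DecidableEq D] in
theorem Act.opp (hg : ∀ d, gl (gl d) = d) (h : Act gl C a) : Act gl C (gl a) :=
  ⟨h.2.1, (hg a).symm ▸ h.1, (hg a).symm ▸ h.2.2.symm⟩

omit [DecidableEq D] in
theorem Act.mono (h : Act gl C' a) (hC : C ⊆ C') : Act gl C a :=
  ⟨mt (@hC _) h.1, mt (@hC _) h.2.1, h.2.2⟩

omit [DecidableEq D] in
theorem Act.ins (h : Act gl C a) (h1 : a ≠ p) (h2 : gl a ≠ p) : Act gl (insert p C) a :=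
  ⟨fun h' => h'.elim h1 h.1, fun h' => h'.elim h2 h.2.1, h.2.2⟩

omit [DecidableEq D] in
theorem Act.ne (h : Act gl C a) (h' : ¬ Act gl C b) : a ≠ b := fun e => h' (e ▸ h)

omit [DecidableEq D] in
theorem Act.lt (h : Act gl C a) : C < insert a C := Set.ssubset_insert h.1

omit [DecidableEq D] in
theorem not_act (h : a ∈ C) : ¬ Act gl C a := fun h' => h'.1 h

omit [DecidableEq D] in
theorem Cn.trans (h : Cn gl C r a b) (h' : Cn gl C r b c) : Cn gl C r a c := by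
  induction h' with
  | refl => exact h
  | vert _ h1 ih => exact ih.vert h1
  | edge _ h1 ih => exact ih.edge h1

omit [DecidableEq D] in
theorem Cn.of (h : r a b) : Cn gl C r a b := Cn.refl.vert h

omit [DecidableEq D] in
theorem Cn.back (hg : ∀ d, gl (gl d) = d) (h : Cn gl C r a (gl b)) (hb : Act gl C b) :
    Cn gl C r a b := hg b ▸ h.edge (hb.opp hg)

omit [DecidableEq D] in
theorem Cn.symm (hg : ∀ d, gl (gl d) = d) (h : Cn gl C r a b) : Cn gl C r b a := by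
  induction h with
  | refl => exact .refl
  | vert _ h1 ih => exact (Cn.of (r.symm h1)).trans ih
  | edge _ h1 ih => exact (Cn.refl.back hg h1).trans ih

omit [DecidableEq D] in
theorem Cn.imp (h : Cn gl C' r a b) (hC : ∀ a, Act gl C' a → Act gl C a) : Cn gl C r a b := by
  induction h with
  | refl => exact .refl
  | vert _ h1 ih => exact ih.vert h1
  | edge _ h1 ih => exact ih.edge (hC _ h1)

omit [DecidableEq D] in
theorem Cn.mono (h : Cn gl C' r a b) (hC : C ⊆ C') : Cn gl C r a b := h.imp fun _ h => h.mono hC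

omit [DecidableEq D] in
theorem Cn.unc (h : Cn gl (insert p C) r a b) : Cn gl C r a b := h.mono (Set.subset_insert _ _)

omit [DecidableEq D] in
theorem Cn.flip (hg : ∀ d, gl (gl d) = d) (h : Cn gl (insert (gl p) C) r a b) :
    Cn gl (insert p C) r a b :=
  h.imp fun a ha => (ha.mono (Set.subset_insert _ _)).ins
    (fun e => ha.2.1 (Or.inl (congrArg gl e))) fun e => ha.1 (Or.inl (by rw [← e, hg]))

omit [DecidableEq D] in
/-- A path either avoids the edge of `p` or reaches one of its ends. -/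
theorem Cn.cut (hg : ∀ d, gl (gl d) = d) (p : D) (h : Cn gl C r a b) :
    Cn gl (insert p C) r a b ∨ (Act gl C p ∧
      (Cn gl (insert p C) r a p ∨ Cn gl (insert p C) r a (gl p)) ∧
      (Cn gl (insert p C) r p b ∨ Cn gl (insert p C) r (gl p) b)) := by
  induction h with
  | refl => exact Or.inl .refl
  | vert _ h1 ih =>
    exact ih.imp (·.vert h1) fun h => ⟨h.1, h.2.1, h.2.2.imp (·.vert h1) (·.vert h1)⟩
  | @edge b _ h1 ih =>
    by_cases e1 : b = p
    · subst e1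
      exact Or.inr ⟨h1, ih.elim Or.inl (·.2.1), Or.inr .refl⟩
    by_cases e2 : gl b = p
    · subst e2
      exact Or.inr ⟨h1.opp hg, ih.elim (fun h => Or.inr ((hg b).symm ▸ h)) (·.2.1), Or.inl .refl⟩
    have h2 := h1.ins e1 e2
    exact ih.imp (·.edge h2) fun h => ⟨h.1, h.2.1, h.2.2.imp (·.edge h2) (·.edge h2)⟩

omit [DecidableEq D] in
theorem Cn.cut' (hg : ∀ d, gl (gl d) = d) (h : Cn gl C r a p) :
    Cn gl (insert p C) r a p ∨ Cn gl (insert p C) r a (gl p) :=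
  (h.cut hg p).elim Or.inl (·.2.1)

omit [DecidableEq D] in
theorem cut_iff (hg : ∀ d, gl (gl d) = d) : Cn gl (insert e C) r a b ↔
    Cn gl C r a b ∧ (Cn gl (insert e C) r e a ↔ Cn gl (insert e C) r e b) := by
  refine ⟨fun h => ⟨h.unc, (·.trans h), (·.trans (h.symm hg))⟩, fun ⟨h, h'⟩ => ?_⟩
  rcases h.cut hg e with h | ⟨-, h1 | h1, h2 | h2⟩
  · exact h
  · exact h1.trans h2
  · exact h1.trans (h'.1 (h1.symm hg))
  · exact ((h'.2 h2).symm hg).trans h2
  · exact h1.trans h2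

theorem Cn.swap (hg : ∀ d, gl (gl d) = d) (hx : ¬ Act gl C x) (hy : ¬ Act gl C y)
    (h : Cn gl C r a b) : Cn gl C (r.comap (swap x y)) (swap x y a) (swap x y b) := by
  induction h with
  | refl => exact .refl
  | vert _ h1 ih => exact ih.vert ((cm (swap_apply_self ..) (swap_apply_self ..)).2 h1)
  | edge _ h1 ih =>
    rw [swap_apply_of_ne_of_ne (h1.ne hx) (h1.ne hy)] at ih
    rw [swap_apply_of_ne_of_ne ((h1.opp hg).ne hx) ((h1.opp hg).ne hy)]
    exact ih.edge h1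

theorem Cn.unswap (hg : ∀ d, gl (gl d) = d) (hxy : Cn gl C r x y)
    (h : Cn gl C (r.comap (Equiv.swap x y)) a b) : Cn gl C r a b := by
  have k : ∀ t, Cn gl C r t (Equiv.swap x y t) := fun t => by
    rw [swap_apply_def]
    split_ifs with h1 h2
    · exact h1 ▸ hxy
    · exact h2 ▸ hxy.symm hg
    · exact .refl
  induction h with
  | refl => exact .refl
  | vert _ h1 ih => exact ((ih.trans (k _)).vert h1).trans ((k _).symm hg)
  | edge _ h1 ih => exact ih.edge h1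

theorem comap_swap : (r.comap (swap x y)).comap (swap x y) = r :=
  Setoid.ext fun _ _ => cm (swap_apply_self ..) (swap_apply_self ..)

omit [DecidableEq D] in
theorem Tri.comap (h : Tri r) (σ : Perm D) : Tri (r.comap σ) := fun d => by
  obtain ⟨a, b, h1, h2, h3, h4⟩ := h (σ d)
  refine ⟨σ.symm a, σ.symm b, mt σ.symm_apply_eq.1 h1, mt σ.symm_apply_eq.1 h2,
    σ.symm.injective.ne h3, fun x => (h4 (σ x)).trans ?_⟩
  rw [σ.apply_eq_iff_eq, σ.eq_symm_apply, σ.eq_symm_apply]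

omit [DecidableEq D] in
theorem Tri.third (h : Tri r) (hu : r d u) (hd : u ≠ d) :
    ∃ z, r d z ∧ z ≠ d ∧ z ≠ u ∧ ∀ x, r d x → x = d ∨ x = u ∨ x = z := by
  obtain ⟨a, b, h1, h2, h3, h4⟩ := h d
  rcases ((h4 u).1 hu).resolve_left hd with rfl | rfl
  · exact ⟨b, (h4 b).2 (by simp), h2, h3.symm, fun x hx => (h4 x).1 hx⟩
  · exact ⟨a, (h4 a).2 (by simp), h1, h3, fun x hx => ((h4 x).1 hx).imp_right Or.symm⟩

omit [DecidableEq D] in
theorem Tri.full (h : Tri r) (hu : r d u) (hv : r d v) (h1 : u ≠ d) (h2 : v ≠ d) (h3 : v ≠ u)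
    (hx : r d x) : x = d ∨ x = u ∨ x = v := by
  obtain ⟨z, -, -, -, hz⟩ := h.third hu h1
  exact (((hz v hv).resolve_left h2).resolve_left h3) ▸ hz x hx

omit [DecidableEq D] in
theorem Tri.ex (h : Tri r) (d : D) : ∃ a, r d a ∧ a ≠ d := by
  obtain ⟨a, b, h1, -, -, h4⟩ := h d
  exact ⟨a, (h4 a).2 (by simp), h1⟩

omit [DecidableEq D] in
theorem sep (h : ¬ r a b) (hx : r a x) (hy : r b y) : x ≠ y :=
  fun e => h (r.trans hx (r.symm (e ▸ hy)))

theorem Mv.symm (h : Mv gl C r r') : Mv gl C r' r := by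
  obtain ⟨d, x, y, h0, h1, h2, h3, h4, h5, rfl⟩ := h
  have e1 := swap_apply_of_ne_of_ne h3.symm (sep h1 (r.refl d) h4)
  have e2 := swap_apply_of_ne_of_ne (sep h1 h2 (r.refl _)).symm h5.symm
  exact ⟨d, y, x, h0, mt (cm e1 e2).1 h1, (cm e1 (swap_apply_right ..)).2 h2,
    (sep h1 (r.refl d) h4).symm, (cm e2 (swap_apply_left ..)).2 h4, sep h1 h2 (r.refl _),
    by rw [swap_comm y x, comap_swap]⟩

theorem Rch.symm (h : Rch gl C r r') : Rch gl C r' r := by
  induction h with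
  | refl => exact .refl
  | tail _ h1 ih => exact .head h1.symm ih

theorem Rch.tri (h : Rch gl C r r') (ht : Tri r) : Tri r' := by
  induction h with
  | refl => exact ht
  | tail _ h1 ih =>
    obtain ⟨d, x, y, -, -, -, -, -, -, rfl⟩ := h1
    exact ih.comap _

theorem Rch.cn (hg : ∀ d, gl (gl d) = d) (h : Rch gl C r r') (h' : Cn gl C r' a b) :
    Cn gl C r a b := by
  induction h with
  | refl => exact h'
  | tail _ h1 ih =>
    obtain ⟨d, x, y, h0, -, h2, -, h4, -, rfl⟩ := h1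
    exact ih (Cn.unswap hg (((Cn.of (Setoid.symm h2)).edge h0).vert h4) h')

theorem Rch.cn_iff (hg : ∀ d, gl (gl d) = d) (h : Rch gl C r r') :
    Cn gl C r a b ↔ Cn gl C r' a b := ⟨h.symm.cn hg, h.cn hg⟩

theorem Rch.lt (h : Rch gl C' r r') (hC : C < C') : Rch gl C r r' :=
  Relation.ReflTransGen.mono (fun _ _ ⟨d, x, y, h0, h⟩ => ⟨d, x, y, h0.mono hC.le, h⟩ :
    Mv gl C' ≤ Mv gl C) _ _ h

omit [DecidableEq D] in
/-- A component with a single leg contains an edge that does not separate. -/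
theorem cycle [Finite D] (hg : ∀ d, gl (gl d) = d) (ht : Tri r) (he : ¬ Act gl C e)
    (h : ∀ t, Cn gl C r e t → t = e ∨ Act gl C t) :
    ∃ f, Cn gl C r e f ∧ Act gl C f ∧ Cn gl (insert f C) r f (gl f) := by
  induction C using WellFoundedGT.induction generalizing e with
  | ind C ih =>
    obtain ⟨a, ha, hae⟩ := ht.ex e
    have h1 := (h a (.of ha)).resolve_left hae
    by_cases h2 : Cn gl (insert a C) r a (gl a)
    · exact ⟨a, .of ha, h1, h2⟩
    have h3 : Cn gl C r e (gl a) := (Cn.of ha).edge h1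
    obtain ⟨f, f1, f2, f3⟩ := ih (insert a C) h1.lt (e := gl a)
      (fun h => h.2.1 (Or.inl (hg a))) fun t h4 => or_iff_not_imp_left.2 fun h5 =>
        ((h t (h3.trans h4.unc)).resolve_left fun e => h2 (((e ▸ h4).vert ha).symm hg)).ins
          (fun e => h2 ((e ▸ h4).symm hg)) fun e => h5 (by rw [← e, hg])
    exact ⟨f, h3.trans f1.unc, f2.mono (Set.subset_insert _ _),
      f3.mono (Set.insert_subset_insert (Set.subset_insert _ _))⟩

/-- Exchange across the edge of `e`. -/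
theorem cross (ht : Tri r) (he : Act gl C e) (h : ¬ r e (gl e)) (hu : r e u) (hu' : u ≠ e)
    (hv : r (gl e) v) (hv' : v ≠ gl e) : ∃ r', Rch gl C r r' ∧ r' e u ∧ r' e v := by
  obtain ⟨z, h1, h2, h3, -⟩ := ht.third hu hu'
  have e1 := swap_apply_of_ne_of_ne h2.symm (sep h (r.refl e) hv)
  exact ⟨_, .single ⟨e, z, v, he, h, h1, h2, hv, hv', rfl⟩,
    (cm e1 (swap_apply_of_ne_of_ne h3.symm (sep h hu hv))).2 hu, (cm e1 (swap_apply_right ..)).2 h1⟩

/-- Reversal of the stem of two legs. -/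
theorem rev (hg : ∀ d, gl (gl d) = d) (ht : Tri r) (he : Act gl C e) (hu : ¬ Act gl C u)
    (hv : ¬ Act gl C v) (huv : v ≠ u) (h1 : r (gl e) u) (h2 : r (gl e) v) :
    ∃ r', Rch gl C r r' ∧ r' e u ∧ r' e v := by
  have n1 := ((he.opp hg).ne hu).symm
  have n2 := ((he.opp hg).ne hv).symm
  have h : ¬ r e (gl e) := fun h => by
    rcases ht.full h1 h2 n1 n2 huv (r.symm h) with h | h | h
    exacts [he.2.2 h.symm, he.ne hu h, he.ne hv h]
  obtain ⟨a, ha, hae⟩ := ht.ex e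
  have e1 := swap_apply_of_ne_of_ne hae.symm (he.ne hu)
  have e2 := swap_apply_of_ne_of_ne (sep h ha (r.refl _)).symm n1.symm
  obtain ⟨r', k1, k2⟩ := cross (ht.comap (swap a u)) he (mt (cm e1 e2).1 h)
    ((cm e1 (swap_apply_right ..)).2 ha) (he.ne hu).symm
    ((cm e2 (swap_apply_of_ne_of_ne (sep h ha h2).symm huv)).2 h2) n2
  exact ⟨r', .head ⟨e, a, u, he, h, ha, hae, h1, n1, rfl⟩ k1, k2⟩

section step

variable (hg : ∀ d, gl (gl d) = d) (ih : ∀ C', C < C' → Goal gl C') (ht : Tri r)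
include hg ih ht

theorem exch (hC : C < C') (hx : ¬ Act gl C' x) (hy : ¬ Act gl C' y) (h : Cn gl C' r x y) :
    Rch gl C r (r.comap (swap x y)) := by
  have h' := h.swap hg hx hy
  rw [swap_apply_left, swap_apply_right] at h'
  exact (ih C' hC _ _ ht (ht.comap _) fun a b =>
    ⟨fun k => Cn.unswap hg (h'.symm hg) (by rwa [comap_swap]), Cn.unswap hg h⟩).lt hC

/-- A leg is brought to the vertex of a leg. -/
theorem bring (hC : C < C') (he : ¬ Act gl C' e) (hu : ¬ Act gl C' u) (hue : u ≠ e)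
    (h : Cn gl C' r u e) : ∃ b, r e b ∧ b ≠ e ∧ Rch gl C r (r.comap (swap u b)) := by
  have key : ∀ b, r e b → b ≠ e → Cn gl (insert b C') r u b →
      ∃ b, r e b ∧ b ≠ e ∧ Rch gl C r (r.comap (swap u b)) := fun b h1 h2 h3 =>
    ⟨b, h1, h2, exch hg ih ht (hC.trans_le (Set.subset_insert _ _))
      (fun h => hu (h.mono (Set.subset_insert _ _))) (not_act (Or.inl rfl)) h3⟩
  obtain ⟨a, ha, hae⟩ := ht.ex e
  obtain ⟨b, hb, hbe, hba, -⟩ := ht.third ha hae
  have hab := r.trans (r.symm ha) hb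
  rcases (h.vert ha).cut hg a with h1 | ⟨h0, h1 | h1, -⟩
  · exact key a ha hae h1
  · exact key a ha hae h1
  rcases h1.cut hg b with h2 | ⟨h3, h2, -⟩
  · have h3 := h2.mono (Set.insert_subset_insert (Set.subset_insert a C'))
    by_cases h4 : gl a = b
    · exact key b hb hbe (h4 ▸ h3)
    · exact key b hb hbe ((h3.back hg (h0.ins hba.symm h4)).vert hab)
  · exact key a ha hae ((h2.elim (·.unc) (·.unc.back hg h3)).vert (r.symm hab))

theorem second (hC : C < C') (he : Act gl C e) (he' : ¬ Act gl C' (gl e)) (hv : ¬ Act gl C v)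
    (huv : v ≠ u) (h : ¬ r e (gl e)) (hu : r e u) (hu' : u ≠ e) (hc : Cn gl C' r v (gl e)) :
    ∃ r', Rch gl C r r' ∧ r' e u ∧ r' e v := by
  have n := (he.opp hg).ne hv
  obtain ⟨b, h1, h2, h3⟩ := bring hg ih ht hC he' (fun h => hv (h.mono hC.le)) n.symm hc
  have e1 := swap_apply_of_ne_of_ne (he.ne hv) (sep h (r.refl e) h1)
  have e2 := swap_apply_of_ne_of_ne n h2.symm
  obtain ⟨r', k1, k2⟩ := cross (ht.comap (swap v b)) he (mt (cm e1 e2).1 h)
    ((cm e1 (swap_apply_of_ne_of_ne huv.symm (sep h hu h1))).2 hu) hu'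
    ((cm e2 (swap_apply_left ..)).2 h1) n.symm
  exact ⟨r', h3.trans k1, k2⟩

theorem pair (he : Act gl C e) (hu : ¬ Act gl C u) (hv : ¬ Act gl C v) (huv : v ≠ u)
    (h1 : r e u) (h2 : Cn gl C r e v) : ∃ r', Rch gl C r r' ∧ r' e u ∧ r' e v := by
  have n := (he.ne hu).symm
  have n' := (he.opp hg).ne hu
  by_cases h : r e (gl e)
  · refine ⟨r, .refl, h1, ?_⟩
    clear hv huv
    induction h2 with
    | refl => exact r.refl e
    | vert _ k ih => exact r.trans ih k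
    | edge _ k ih =>
      rcases ht.full h1 h n he.2.2 n' ih with rfl | rfl | rfl
      exacts [h, absurd k hu, by rw [hg]]
  by_cases h3 : Cn gl (insert e C) r v (gl e)
  · exact second hg ih ht he.lt he (fun h => h.2.1 (Or.inl (hg e))) hv huv h h1 n h3
  obtain ⟨p, hp, hpe⟩ := ht.ex (gl e)
  have h4 : ¬ Cn gl (insert e C) r v p := fun k => h3 (k.vert (r.symm hp))
  have h5 := (((h2.symm hg).cut' hg).resolve_right h3 |>.cut hg p).resolve_right
    fun k => h4 (k.2.1.elim (·.unc) (·.unc.back hg k.1))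
  have e1 := swap_apply_of_ne_of_ne n.symm (sep h (r.refl e) hp)
  have e2 := swap_apply_of_ne_of_ne n' hpe.symm
  have h6 := (h5.swap hg (x := u) (y := p) (fun k => hu ((k.mono (Set.subset_insert _ _)).mono
    (Set.subset_insert _ _))) (not_act (Set.mem_insert _ _))).unc
  rw [e1, swap_apply_of_ne_of_ne huv fun k => h4 (k ▸ .refl)] at h6
  obtain ⟨r', k1, k2, k3⟩ := second hg ih (ht.comap (swap u p)) he.lt (he.opp hg)
    (by rw [hg]; exact not_act (Or.inl rfl)) hv huv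
    (by rw [hg]; exact fun k => h (r.symm ((cm e2 e1).1 k)))
    ((cm e2 (swap_apply_left ..)).2 hp) n'.symm (by rwa [hg])
  obtain ⟨r'', k4, k5⟩ := rev hg (k1.tri (ht.comap _)) he hu hv huv k2 k3
  exact ⟨r'', (k1.head ⟨e, u, p, he, h, h1, n, hp, hpe, rfl⟩).trans k4, k5⟩

/-- Two legs are brought to the vertex of `e`. -/
theorem legs (he : Act gl C e) (hu : ¬ Act gl C u) (hv : ¬ Act gl C v) (huv : v ≠ u)
    (h1 : Cn gl C r e u) (h2 : Cn gl C r e v) : ∃ r', Rch gl C r r' ∧ r' e u ∧ r' e v := by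
  have key : ∀ e, Act gl C e → Cn gl (insert e C) r u e → Cn gl C r e v →
      ∃ r', Rch gl C r r' ∧ r' e u ∧ r' e v := fun e he h1 h2 => by
    obtain ⟨b, k1, k2, k3⟩ := bring hg ih ht he.lt (not_act (Or.inl rfl))
      (fun h => hu (h.mono (Set.subset_insert _ _))) (he.ne hu).symm h1
    obtain ⟨r', k4, k5⟩ := pair hg ih (ht.comap (swap u b)) he hu hv huv
      ((cm (swap_apply_of_ne_of_ne (he.ne hu) k2.symm) (swap_apply_left ..)).2 k1)
      ((k3.cn_iff hg).1 h2)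
    exact ⟨r', k3.trans k4, k5⟩
  rcases (h1.symm hg).cut' hg with h | h
  · exact key e he h h2
  · obtain ⟨r', k1, k2, k3⟩ := key (gl e) (he.opp hg) (Cn.flip hg (by rwa [hg]))
      ((Cn.refl.back hg he).trans h2)
    obtain ⟨r'', k4, k5⟩ := rev hg (k1.tri ht) he hu hv huv k2 k3
    exact ⟨r'', k1.trans k4, k5⟩

/-- An edge with no leg on one side is made non-separating. -/
theorem nonsep [Finite D] (he : Act gl C e)
    (h : ∀ t, Cn gl (insert e C) r e t → t = e ∨ Act gl C t) :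
    ∃ r', Rch gl C r r' ∧ Cn gl (insert e C) r' e (gl e) := by
  by_cases h0 : Cn gl (insert e C) r e (gl e)
  · exact ⟨r, .refl, h0⟩
  obtain ⟨p, hp, hpe⟩ := ht.ex (gl e)
  have h1 : ¬ Cn gl (insert e C) r e p := fun k => h0 (k.vert (r.symm hp))
  obtain ⟨f, f1, f2, f3⟩ := cycle (C := insert p (insert e C)) hg ht (e := e)
    (not_act (Or.inr (Or.inl rfl))) fun t k => or_iff_not_imp_left.2 fun k' => by
      have k1 := ((h t k.unc).resolve_left k').ins k' fun e => h0 (by rw [← e, hg]; exact e ▸ k.unc)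
      exact k1.ins (fun e => h1 (e ▸ k.unc)) fun e => h1 (e ▸ k.unc.edge k1)
  have f4 := (f1.cut' hg).elim id (·.trans (f3.symm hg))
  have n1 : e ≠ f := fun e => f2.1 (Or.inr (Or.inl e.symm))
  have n2 : gl e ≠ f := fun e => f2.2.1 (Or.inr (Or.inl (by rw [← e, hg])))
  have n3 : e ≠ p := fun e => h1 (e ▸ .refl)
  have f5 : Act gl (insert e C) f := f2.mono (Set.subset_insert _ _)
  refine ⟨_, exch hg ih ht (C' := insert f (insert p C)) (x := f) (y := p)
    ((f5.mono (Set.subset_insert _ _)).lt.trans_le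
      (Set.insert_subset_insert (Set.subset_insert _ _)))
    (not_act (Or.inl rfl)) (not_act (Or.inr (Or.inl rfl)))
    ((((f4.symm hg).mono (Set.insert_subset_insert (Set.insert_subset_insert
      (Set.subset_insert _ _)))).edge ((he.ins n3 hpe.symm).ins n1 n2)).vert hp), ?_⟩
  have f6 := ((f4.trans f3).swap hg (x := f) (y := p) (not_act (Or.inl rfl))
    (not_act (Or.inr (Or.inl rfl)))).unc.unc
  rw [swap_apply_of_ne_of_ne n1 n3,
    swap_apply_of_ne_of_ne f2.2.2 fun e => f2.2.1 (Or.inl e)] at f6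
  exact (f6.back hg f5).vert
    ((cm (swap_apply_left ..) (swap_apply_of_ne_of_ne n2 hpe.symm)).2 (r.symm hp))

theorem nonsep' [Finite D] (he : Act gl C e) (h : ∀ u v, ¬ Act gl C u → ¬ Act gl C v →
    Cn gl C r e u → Cn gl C r e v → v = u) :
    ∃ r', Rch gl C r r' ∧ ∀ t, Cn gl (insert e C) r' e t ↔ Cn gl C r e t := by
  suffices ∃ r', Rch gl C r r' ∧ Cn gl (insert e C) r' e (gl e) by
    obtain ⟨r', k1, k2⟩ := this
    exact ⟨r', k1, fun t => ⟨fun k => k1.cn hg k.unc, fun k =>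
      (((k1.cn_iff hg).1 k).cut hg e).elim id fun k => k.2.2.elim id k2.trans⟩⟩
  by_cases h1 : ∀ t, Cn gl (insert e C) r e t → t = e ∨ Act gl C t
  · exact nonsep hg ih ht he h1
  by_cases h0 : Cn gl (insert e C) r e (gl e)
  · exact ⟨r, .refl, h0⟩
  obtain ⟨u, h1⟩ := not_forall.1 h1
  obtain ⟨h2, h3⟩ := Classical.not_imp.1 h1
  obtain ⟨r', k1, k2⟩ := nonsep hg ih ht (he.opp hg) fun t k => Or.inr (by_contra fun k' =>
    h0 (h2.trans (h u t (mt Or.inr h3) k' h2.unc ((Cn.refl.edge he).trans k.unc) ▸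
      (k.flip hg).symm hg)))
  exact ⟨r', k1, by simpa only [hg] using (k2.flip hg).symm hg⟩

end step

theorem goal [Finite D] (hg : ∀ d, gl (gl d) = d) (C : Set D) : Goal gl C := by
  induction C using WellFoundedGT.induction with
  | ind C ih =>
    intro r₁ r₂ t1 t2 h
    by_cases h0 : ∃ e, Act gl C e
    · obtain ⟨e, he⟩ := h0
      suffices ∃ s₁ s₂, Rch gl C r₁ s₁ ∧ Rch gl C r₂ s₂ ∧
          ∀ t, Cn gl (insert e C) s₁ e t ↔ Cn gl (insert e C) s₂ e t by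
        obtain ⟨s₁, s₂, k1, k2, k⟩ := this
        refine (k1.trans ((ih _ he.lt _ _ (k1.tri t1) (k2.tri t2) fun a b => ?_).lt he.lt)).trans
          k2.symm
        rw [cut_iff hg, cut_iff hg (r := s₂), ← k1.cn_iff hg, ← k2.cn_iff hg, h, k, k]
      by_cases h1 : ∀ u v, ¬ Act gl C u → ¬ Act gl C v → Cn gl C r₁ e u → Cn gl C r₁ e v → v = u
      · obtain ⟨s₁, k1, k2⟩ := nonsep' hg ih t1 he h1
        obtain ⟨s₂, k3, k4⟩ := nonsep' hg ih t2 he (by simpa only [h] using h1)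
        exact ⟨s₁, s₂, k1, k3, fun t => by rw [k2, k4, h]⟩
      simp only [not_forall] at h1
      obtain ⟨u, v, hu, hv, h1, h2, huv⟩ := h1
      have key : ∀ s, Tri s → s e u ∧ s e v → ∀ t,
          Cn gl (insert e C) s e t ↔ t = e ∨ t = u ∨ t = v := fun s ts ⟨k1, k2⟩ t => by
        have k := fun x => ts.full (x := x) k1 k2 (he.ne hu).symm (he.ne hv).symm huv
        refine ⟨fun k3 => k t ?_, ?_⟩
        · induction k3 with
          | refl => exact s.refl e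
          | vert _ k4 ih => exact s.trans ih k4
          | edge _ k4 ih =>
            have k5 := k4.mono (Set.subset_insert _ _)
            exact ((k _ ih).elim (fun e => k4.1 (Or.inl e)) (·.elim (k5.ne hu) (k5.ne hv))).elim
        · rintro (rfl | rfl | rfl)
          exacts [.refl, .of k1, .of k2]
      obtain ⟨s₁, k1, k2⟩ := legs hg ih t1 he hu hv huv h1 h2
      obtain ⟨s₂, k3, k4⟩ := legs hg ih t2 he hu hv huv ((h _ _).1 h1) ((h _ _).1 h2)
      exact ⟨s₁, s₂, k1, k3, fun t => by rw [key _ (k1.tri t1) k2, key _ (k3.tri t2) k4]⟩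
    · have key : ∀ (s : Setoid D) a b, Cn gl C s a b ↔ s a b := fun s a b => by
        refine ⟨fun k => ?_, .of⟩
        induction k with
        | refl => exact s.refl a
        | vert _ k ih => exact s.trans ih k
        | edge _ k => exact absurd ⟨_, k⟩ h0
      rw [show r₁ = r₂ from Setoid.ext fun a b => by rw [← key, h, key]]

/-- The partition into vertices. -/
def vs {nx : Perm D} (h : Triv gl nx) : Setoid D where
  r := InV nx
  iseqv := ⟨fun _ => Or.inl rfl, by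
    rintro a _ (rfl | rfl | rfl) <;> simp [InV, h.cube], by
    rintro a _ _ (rfl | rfl | rfl) (rfl | rfl | rfl) <;> simp [InV, h.cube]⟩

theorem vs_tri {nx : Perm D} (h : Triv gl nx) : Tri (vs h) := fun d =>
  ⟨nx d, nx (nx d), h.ne d, fun e => h.ne d (by rw [← e, h.cube, e]), (h.ne _).symm, fun _ => Iff.rfl⟩

theorem vs_cn {nx : Perm D} (h : Triv gl nx) (a b : D) : Cn gl ∅ (vs h) a b :=
  h.conn _ a .refl (fun _ k => k.vert (Or.inr (Or.inl rfl)))
    (fun d k => if e : gl d = d then e.symm ▸ k else k.edge ⟨id, id, e⟩) b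

theorem lift {nx : Perm D} (h : Rch gl C r r') (h0 : ∀ a b, InV nx a b ↔ r a b) :
    ∃ nx', Relation.ReflTransGen (Move gl) nx nx' ∧ ∀ a b, InV nx' a b ↔ r' a b := by
  induction h with
  | refl => exact ⟨nx, .refl, h0⟩
  | tail _ h1 ih =>
    obtain ⟨m, k1, k⟩ := ih
    obtain ⟨d, x, y, -, h1, h2, h3, h4, h5, rfl⟩ := h1
    refine ⟨_, k1.tail ⟨d, x, y, mt (k _ _).1 h1, (k _ _).2 h2, h3, (k _ _).2 h4, h5, rfl⟩,
      fun a b => Iff.trans ?_ (k _ _)⟩
    simp only [InV, Perm.mul_apply, swap_apply_self, swap_apply_eq_iff]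

end PComb

theorem exists_moves [Finite D] {gl nx₁ nx₂ : Perm D} (hgl : ∀ d, gl (gl d) = d)
    (h1 : Triv gl nx₁) (h2 : Triv gl nx₂) : ∃ nx', Relation.ReflTransGen (Move gl) nx₁ nx' ∧
      ∀ d, nx₂ d = nx' d ∨ nx₂ d = nx' (nx' d) := by
  obtain ⟨nx', k1, k⟩ := PComb.lift (PComb.goal hgl ∅ _ _ (PComb.vs_tri h1) (PComb.vs_tri h2)
    fun a b => iff_of_true (PComb.vs_cn h1 a b) (PComb.vs_cn h2 a b)) fun _ _ => Iff.rfl
  exact ⟨nx', k1, fun d => ((k d _).2 (Or.inr (Or.inl rfl))).resolve_left (h2.ne d)⟩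

end HRT
end

-- merged part: Pool.Agent.Work.MP_35beee_gt.PDual
section
/-!
Dual curves, flips and elementary moves of pants decompositions.

Plan. `spair_across`: an object outside the class of `m` that separates `a` from `b` lies on one
side of `m` and separates `a` from `m` or `m⁻¹` from `b`. Let `a'`, `b'`, `m'` be the translates by
`g`. If `m' = m` then `g` is a power of `m` and both objects move in the same direction
(`NoFix.ccw_zpow`), so there is no interlacing; `m' ≠ m⁻¹`. Otherwise `m'` lies on one side of `m`,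
say the side of `a`; let `m''` be `m'` or its inverse, facing `m`; one of `a'`, `b'` is an `MP`
neighbour of `m''` and the other is in the gap of `m''`; interlacing passes to the two `MP` pairs,
`IsPants.not_IL`. `exists_dual`: each of `m`, `m⁻¹` has an `MP` neighbour outside the class of `m`;
`SPair.exists_frame` for `objs E \ cls m` (`OSys.diff`); if neither `x` nor `y` crosses a conjugate of
`m` then both are objects (`mem_of_simple`, `cusp`), so `a` is adjacent to `b` (`FO.adj`,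
`Adj.trans`), but `m` separates them. `PG.flip`: on a reversed vertex use `Frame.flip`.
`PG.move`: by `flip` assume `x = nx d`, `y = nx (gl d)`. With `m = E d`, frames `m, a1, a2` and
`m⁻¹, a3, a4` (conjugate by `t d`), `a1 * a2 * a3 * a4 = 1`. The pairs `a2, a3` and `a4, a1` are simple
pairs of non-conjugate objects, so `f = (a2 * a3)⁻¹` gives frames `f, a2, a3` and `f⁻¹, a4, a1`, and
`f` crosses a conjugate of `m`. Then `IsPants.exists_pg` (its involution is `gl` by `uniq`), `flip`.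
-/

namespace HRT

open Set Filter Topology Real

variable {Γ : Type*} [Group Γ] {ρ σ : Γ →* Isom} {N : ℝ → ℝ} {D : Type} {nx gl : Equiv.Perm D}
  {E t : D → Γ}

theorem PDual_face (h : IsPants ρ nx E) (hρ : Good ρ N) {m a b m' a' b' : Γ}
    (ha : MP nx E m a) (hb : Face (ρ m⁻¹) (ρ b)) (ha' : MP nx E m' a') (hb' : Face (ρ m'⁻¹) (ρ b'))
    (hf : Face (ρ m) (ρ m')) (n1 : a ≠ m') (n2 : a' ≠ m) :
    ¬ IL ρ a b a' b' ∧ ¬ IL ρ a b b' a' := by
  have hd := hρ.toDisc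
  have A := h.adj hd ha
  have A' := h.adj hd ha'
  have i1 := A.face.ins_lo
  have i2 := A'.face.ins_lo
  have i3 := (PChain_side h.sys hd A.1 A' (Or.inl hf.ins_lo)).resolve_right n2
  have i4 := (PChain_side h.sys hd A'.1 A (Or.inl hf.symm.ins_lo)).resolve_right n1
  have g1 := PAdj_ni' hf.1 hb.ins_lo
  have g2 := PAdj_ni' hf.2.1 hb'.ins_lo
  constructor
  · rintro ⟨c1, c2⟩
    exact h.not_IL hρ ha.symm ha'.symm ⟨(hf.1.ccw_gap i1 i3 g1 (PAdj_lo hf.1)).1 c1,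
      (ccw_gaps_pt hf g1 g2 i1 i4).1 c2⟩
  · rintro ⟨c1, c2⟩
    exact h.not_IL hρ ha.symm ha' ⟨((ccw_gaps_pt hf.symm g2 g1 i4 i1).1 (ccw.cyc c1)).cyc.cyc,
      ((hf.1.ccw_gap i3 i1 g1 (PAdj_lo hf.1)).1 (ccw.cyc c2)).cyc.cyc⟩

theorem PDual_pow {m a b : Γ} (ha : Face (ρ m) (ρ a)) (hb : Face (ρ m⁻¹) (ρ b)) (k : ℤ) :
    ¬ IL ρ a b (m ^ k * a * (m ^ k)⁻¹) (m ^ k * b * (m ^ k)⁻¹) ∧
      ¬ IL ρ a b (m ^ k * b * (m ^ k)⁻¹) (m ^ k * a * (m ^ k)⁻¹) := by
  have i1 := ha.ins_lo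
  have i2 := hb.ins_lo
  have c1 := fun {i j : ℤ} (h : i < j) => ha.1.ccw_zpow i1 (PAdj_ni' ha.1 i2) h
  have c2 := fun {i j : ℤ} (h : i < j) => hb.1.ccw_zpow i2 (PAdj_ni ha.1 i1) h
  have e : ρ m ^ k = ρ m⁻¹ ^ (-k) := by rw [map_inv, inv_zpow', neg_neg]
  unfold IL Ord3
  rw [PChain_lo ha.2.1, PChain_lo hb.2.1]
  rcases lt_trichotomy k 0 with h | rfl | h
  · have d1 := c1 h
    have d2 := c2 (neg_pos.2 h)
    rw [zpow_zero, one_smul] at d1 d2
    rw [← e] at d2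
    exact ⟨fun t => d1.cyc.asymm t.1, fun t => d2.cyc.cyc.asymm t.1⟩
  · rw [zpow_zero, one_smul, one_smul]
    exact ⟨fun t => t.1.ne12 rfl, fun t => t.1.ne23 rfl⟩
  · have d1 := c1 h
    have d2 := c2 (neg_lt_zero.2 h)
    rw [zpow_zero, one_smul] at d1 d2
    rw [← e] at d2
    exact ⟨fun t => d2.cyc.asymm t.2, fun t => d1.cyc.cyc.asymm t.2⟩

theorem PDual_cls {x a b : Γ} (ha : a ∈ cls ρ x) (h : IsConj a b) : b ∈ cls ρ x := by
  obtain ⟨g, rfl⟩ := isConj_iff.1 h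
  exact cls_conj ha g

theorem PDual_objs {a b : Γ} (ha : a ∈ objs E) (h : IsConj a b) : b ∈ objs E :=
  ha.imp fun _ hd => hd.trans h

theorem PDual_hyp {a b : Γ} (h : IsConj a b) : Hyp (ρ b) ↔ Hyp (ρ a) := by
  rw [Hyp, Hyp, POs_tl h]

theorem IsPants.spair_across (h : IsPants ρ nx E) (hρ : Good ρ N) {m a b : Γ} (hm : Hyp (ρ m))
    (ha : MP nx E m a) (hb : MP nx E m⁻¹ b) (ha' : a ∉ cls ρ m) (hb' : b ∉ cls ρ m) :
    SPair ρ (objs E \ cls ρ m) a b := by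
  have hd := hρ.toDisc
  have hO := h.sys
  have A := h.adj hd ha
  have B := h.adj hd hb
  have c0 := mem_cls_self (ρ := ρ) m
  have c1 := POs_inv_mem hm c0
  refine ⟨⟨⟨A.2.1, ha'⟩, ⟨B.2.1, hb'⟩, PAdj_tr hm A.face.symm B.face, ?_⟩, fun g => ?_⟩
  · rintro n ⟨hn, hn'⟩ ⟨s0, s1, s2⟩
    rcases hO.tri hd A.1 hn with rfl | t | ⟨-, rfl | t⟩ | ⟨-, t⟩ | ⟨-, -, t⟩
    · exact hn' c0
    · exact PAdj_gap t (PAdj_ni' hm.noFix B.face.ins_lo) (PAdj_ni' s0.noFix s2.ins_lo)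
    · exact hn' (by rw [inv_inv] at c1; exact c1)
    · exact (A.symm hO).2.2.2 n hn ⟨s0, s1, t.symm⟩
    · exact B.2.2.2 n hn ⟨s0, t, s2⟩
    · exact PAdj_gap t (PAdj_ni hm.noFix A.face.ins_lo) (PAdj_ni s0.noFix s1.symm.ins_lo)
  have e : g * m⁻¹ * g⁻¹ = (g * m * g⁻¹)⁻¹ := by group
  have ma := ha.conj g
  have mb := e ▸ hb.conj g
  have A' := (h.adj hd ma).face
  have B' := (h.adj hd mb).face
  have c2 := cls_conj c0 g
  have c3 := POs_inv_mem hm c2
  have n1 : ∀ x ∈ cls ρ m, a ≠ x := fun x hx e => ha' (e ▸ hx)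
  have n2 : ∀ x ∈ cls ρ m, b ≠ x := fun x hx e => hb' (e ▸ hx)
  have n3 : ∀ x ∈ cls ρ m, g * a * g⁻¹ ≠ x := fun x hx e =>
    ha' (PDual_cls (e ▸ hx) (POs_isConj g a).symm)
  have n4 : ∀ x ∈ cls ρ m, g * b * g⁻¹ ≠ x := fun x hx e =>
    hb' (PDual_cls (e ▸ hx) (POs_isConj g b).symm)
  have A0 : Face (ρ m⁻¹⁻¹) (ρ a) := (inv_inv m).symm ▸ A.face
  have A1 : Face (ρ (g * m * g⁻¹)⁻¹⁻¹) (ρ (g * a * g⁻¹)) := (inv_inv (g * m * g⁻¹)).symm ▸ A'
  rcases hO.tri hd A.1 (hO.conj m A.1 g) with e1 | t | ⟨-, e1 | t⟩ | ⟨-, t⟩ | ⟨-, -, t⟩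
  · obtain ⟨k, rfl⟩ := hO.mem_zpowers A.1 e1.symm
    exact PDual_pow A.face B.face k
  · exact PDual_face h hρ ha B.face ma B' t (n1 _ c2) (n3 _ c0)
  · exact (hd.not_isConj_inv (hO.ne_one A.1) (isConj_iff.2 ⟨g, (inv_eq_iff_eq_inv.2 e1).symm⟩)).elim
  · exact (PDual_face h hρ ha B.face mb A1 t (n1 _ c3) (n4 _ c0)).symm
  · exact (PDual_face h hρ hb A0 ma B' t (n2 _ c2) (n3 _ c1)).symm.imp (mt IL.swap) (mt IL.swap)
  · exact (PDual_face h hρ hb A0 mb A1 t (n2 _ c3) (n4 _ c1)).imp (mt IL.swap) (mt IL.swap)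

theorem PDual_nb (h : IsPants ρ nx E) (hρ : Disc ρ) {m : Γ} (hm : m ∈ objs E) :
    ∃ a, MP nx E m a ∧ a ∉ cls ρ m := by
  obtain ⟨gl, t, hg⟩ := h.exists_pg hρ
  obtain ⟨d, hd⟩ := hm
  obtain ⟨g, rfl⟩ := isConj_iff.1 hd
  have key : ∀ e, e ≠ d → e ≠ gl d → g * E e * g⁻¹ ∉ cls ρ (g * E d * g⁻¹) := fun e h1 h2 h3 => by
    rw [cls_eq (cls_conj (mem_cls_self _) g)] at h3
    exact ((hg.mem_cls_iff d e).1 (PDual_cls h3 (POs_isConj g _).symm)).elim h1 h2
  by_cases h1 : nx d = gl d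
  · refine ⟨_, ⟨nx (nx d), g, Or.inr ⟨rfl, by rw [h.cube]⟩⟩, key _ (fun e => h.nx_ne d ?_) ?_⟩
    · have := h.cube d
      rwa [e] at this
    · rw [← h1]
      exact h.nx_ne _
  · exact ⟨_, ⟨d, g, Or.inl ⟨rfl, rfl⟩⟩, key _ (h.nx_ne d) h1⟩

theorem PDual_mem (h : IsPants ρ nx E) (hρ : Disc ρ) {m z : Γ} {O : Set Γ} (hO : OSys ρ O)
    (hs : objs E \ cls ρ m ⊆ O) (hz : z ∈ O) :
    z ∈ objs E ∨ Hyp (ρ z) ∧ ∃ m' ∈ cls ρ m, Cross (ax (ρ z)) (ax (ρ m')) := by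
  by_contra! H
  refine H.1 ?_
  by_cases h1 : Hyp (ρ z)
  · refine h.mem_of_simple hρ (hO.simple hρ hz h1) fun m' hm' h2 => ?_
    by_cases h3 : m' ∈ cls ρ m
    · exact H.2 h1 m' h3
    · exact hO.nc _ hz _ (hs ⟨hm', h3⟩) h1 h2
  · exact h.sys.cusp _ (hO.cuspGen hz h1)

theorem PDual_cross {m m' z : Γ} (hm : Hyp (ρ m)) (h : m' ∈ cls ρ m)
    (hc : Cross (ax (ρ z)) (ax (ρ m'))) : ∃ k : Γ, Cross (ax (ρ m)) (ρ k • ax (ρ z)) := by
  obtain ⟨g, hg⟩ := POs_ax hm h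
  have h1 : Cross (ax (ρ z)) (ρ g • ax (ρ m)) := by
    rcases hg with e | e <;> rw [e] at hc
    · exact hc
    · exact cross_rev_right.1 hc
  refine ⟨g⁻¹, (cross_smul (ρ g)).1 ?_⟩
  rw [map_inv, smul_inv_smul]
  exact h1.symm

theorem PDual_fo (hρ : Disc ρ) {O : Set Γ} {a x y : Γ} (h : Frame (ρ a) (ρ x) (ρ y)) (ha : a ∈ O)
    (hx : x ∈ O) (hy : y ∈ O) : FO ρ O a x := by
  obtain rfl : y = (a * x)⁻¹ := hρ.injective (by rw [h.eq_inv, map_inv, map_mul])
  exact ⟨ha, hx, hy, h⟩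

theorem IsPants.exists_dual (h : IsPants ρ nx E) (hρ : Good ρ N) {m : Γ} (hm : m ∈ objs E)
    (hh : Hyp (ρ m)) : ∃ δ, Simple ρ δ ∧ Cross (ax (ρ m)) (ax (ρ δ)) ∧
      ∀ a ∈ objs E, a ∉ cls ρ m → Hyp (ρ a) → inter ρ δ a = 0 := by
  have hd := hρ.toDisc
  have hO := h.sys
  obtain ⟨a, ha, ha'⟩ := PDual_nb h hd hm
  obtain ⟨b, hb, hb'⟩ := PDual_nb h hd (hO.inv m hm hh)
  rw [cls_eq (POs_inv_mem hh (mem_cls_self m))] at hb'
  have S := h.spair_across hρ hh ha hb ha' hb'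
  obtain ⟨x, y, hf, hx, hO', -⟩ := S.exists_frame (hO.diff hh) hd
  have hs : objs E \ cls ρ m ⊆ objs E \ cls ρ m ∪ cls ρ x ∪ cls ρ y :=
    subset_union_left.trans subset_union_left
  have mx : x ∈ objs E \ cls ρ m ∪ cls ρ x ∪ cls ρ y := Or.inl (Or.inr (mem_cls_self x))
  have my : y ∈ objs E \ cls ρ m ∪ cls ρ x ∪ cls ρ y := Or.inr (mem_cls_self y)
  obtain ⟨z, hz, h1, m', h2, h3⟩ : ∃ z ∈ objs E \ cls ρ m ∪ cls ρ x ∪ cls ρ y,
      Hyp (ρ z) ∧ ∃ m' ∈ cls ρ m, Cross (ax (ρ z)) (ax (ρ m')) := by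
    refine (PDual_mem h hd hO' hs mx).elim (fun k1 => ?_) fun k1 => ⟨x, mx, k1⟩
    refine (PDual_mem h hd hO' hs my).elim (fun k2 => ?_) fun k2 => ⟨y, my, k2⟩
    have k3 := (PDual_fo hd hf S.1.1.1 k1 k2).adj hO hd
    have k4 : Adj ρ (objs E) a b := by
      rcases hx with rfl | rfl
      · exact k3
      · have k5 := (k3.symm hO).conj hO x
        rw [mul_inv_cancel_right] at k5
        exact k3.trans hO hd k5 fun e => S.1.face.ne (congrArg ρ e)
    exact (k4.2.2.2 m hm ⟨hh, (h.adj hd ha).face.symm, (h.adj hd hb).face⟩).elim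
  obtain ⟨k, hk⟩ := PDual_cross hh h2 h3
  have h4 := hO'.simple hd hz h1
  refine ⟨k * z * k⁻¹, h4.conj k, by rwa [ax_conj' h1], fun c hc hc' h5 => ?_⟩
  rw [inter_conj_left, hd.inter_eq_zero_iff h1 h5 (hO.simple hd hc h5).prim]
  intro j
  rw [← ax_conj' h5]
  exact hO'.nc _ hz _ (hO'.conj _ (hs ⟨hc, hc'⟩) j) h1 ((PDual_hyp (POs_isConj j c)).2 h5)

/-- A multicurve with dual curves. -/
structure Duals (ρ : Γ →* Isom) {ι : Type} (P δ : ι → Γ) : Prop where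
  multi : Multi ρ P
  simple : ∀ i, Simple ρ (δ i)
  cross : ∀ i, Cross (ax (ρ (P i))) (ax (ρ (δ i)))
  disj : ∀ i j, j ≠ i → inter ρ (δ i) (P j) = 0

theorem Duals.comp {ι κ : Type} {P δ : ι → Γ} (h : Duals ρ P δ) {e : κ → ι}
    (he : Function.Injective e) : Duals ρ (P ∘ e) (δ ∘ e) := by
  exact ⟨h.multi.comp he, fun _ => h.simple _, fun _ => h.cross _,
    fun _ _ hij => h.disj _ _ (he.ne hij)⟩

theorem Duals.mark {ι : Type} {P δ : ι → Γ} (h : Duals ρ P δ) {f : Circ ≃ₜ Circ}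
    (hm : IsMark ρ σ f) : Duals σ P δ := by
  refine ⟨(hm.multi_iff P).2 h.multi, fun i => (hm.simple_iff _).2 (h.simple i), fun i => ?_,
    fun i j hij => (hm.inter_eq _ _).trans (h.disj i j hij)⟩
  rw [(hm.hyp (h.multi.1 i).hyp).2, (hm.hyp (h.simple i).hyp).2, hm.ori.cross]
  exact h.cross i

theorem Good.exists_duals (hρ : Good ρ N) {ι : Type} [Finite ι] {P : ι → Γ} (hP : Multi ρ P) :
    ∃ δ, Duals ρ P δ := by
  obtain ⟨n, nx, E, h, hE⟩ := hρ.exists_pants hP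
  choose δ h1 h2 h3 using fun i => h.exists_dual hρ (hE i) (hP.1 i).hyp
  refine ⟨δ, hP, h1, h2, fun i j hij => h3 i _ (hE j) ?_ (hP.1 j).hyp⟩
  rintro (h4 | ⟨-, h4⟩) <;> obtain ⟨g, hg⟩ := isConj_iff.1 h4.symm
  · exact (hP.2 i j hij.symm g).2.1 hg.symm
  · exact (hP.2 i j hij.symm g).2.2 hg.symm

theorem PG.triv [DecidableEq D] (h : PG ρ nx gl E t) (hρ : Good ρ N) : Triv gl nx := by
  exact ⟨h.cube, h.toIsPants.nx_ne, fun P d₀ h0 h1 h2 d => h.walk_ind hρ (P := fun d _ => P d)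
    (g₀ := 1) h0 (fun d _ => h1 d) (fun _ _ => id) (fun _ _ => id) (fun d _ => h2 d) d 1⟩

/-- A frame in given conjugacy classes. -/
def PDualTF (ρ : Γ →* Isom) (p q r : Γ) : Prop :=
  ∃ u v w, Frame (ρ u) (ρ v) (ρ w) ∧ IsConj p u ∧ IsConj q v ∧ IsConj r w

theorem PDualTF.rot {p q r : Γ} (h : PDualTF ρ p q r) : PDualTF ρ q r p := by
  obtain ⟨u, v, w, h, h1, h2, h3⟩ := h
  exact ⟨v, w, u, h.rot, h2, h3, h1⟩

theorem PDualTF.swap {p q r : Γ} (h : PDualTF ρ p q r) : PDualTF ρ p r q := by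
  obtain ⟨u, v, w, h, h1, h2, h3⟩ := h
  exact ⟨u, v * w * v⁻¹, v, PAdj_cj ρ v w ▸ h.flip.rot, h1, h3.trans (POs_isConj v w), h2⟩

theorem PDual_symm (hc : ∀ d, nx (nx (nx d)) = d) {d e : D} (h : InV nx d e) : InV nx e d := by
  rcases h with rfl | rfl | rfl
  · exact Or.inl rfl
  · exact Or.inr (Or.inr (hc d).symm)
  · exact Or.inr (Or.inl (hc d).symm)

theorem PDual_trans (hc : ∀ d, nx (nx (nx d)) = d) {d e f : D} (h : InV nx d e) (h' : InV nx e f) :
    InV nx d f := by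
  rcases h with rfl | rfl | rfl <;> rcases h' with rfl | rfl | rfl <;> simp [InV, hc]

theorem PDual_build [Nonempty D] (hρ : Disc ρ) (hc : ∀ d, nx (nx (nx d)) = d) (hn : ∀ d, nx d ≠ d)
    (hO : OSys ρ (objs E)) (hu : ∀ d d', IsConj (E d) (E d') → d = d')
    (hf : ∀ d, PDualTF ρ (E d) (E (nx d)) (E (nx (nx d))))
    (h1 : ∀ d, Hyp (ρ (E d)) → IsConj (E d)⁻¹ (E (gl d))) (h2 : ∀ d, ¬ Hyp (ρ (E d)) → gl d = d) :
    ∃ E' t', PG ρ nx gl E' t' ∧ ∀ d, IsConj (E d) (E' d) := by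
  classical
  let s : Setoid D := ⟨InV nx, fun _ => Or.inl rfl, PDual_symm hc, PDual_trans hc⟩
  obtain ⟨r, r1, r2⟩ : ∃ r : D → D, (∀ d, r (nx d) = r d) ∧ ∀ d, InV nx (r d) d :=
    ⟨fun d => (Quotient.mk s d).out, fun d => congrArg Quotient.out
      (Quotient.sound (s := s) (Or.inr (Or.inl rfl))).symm,
      fun d => Quotient.exact (s := s) (Quotient.out_eq _)⟩
  have r3 : ∀ d, r (r d) = r d := fun d => by
    rcases PDual_symm hc (r2 d) with e | e | e <;> conv_lhs => rw [e]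
    · rw [r1]
    · rw [r1, r1]
  have hn2 : ∀ d, nx (nx d) ≠ d := fun d e => hn d (by have := hc d; rwa [e] at this)
  choose u v w k0 k1 k2 k3 using hf
  let E' : D → Γ := fun d => if d = r d then u (r d) else if d = nx (r d) then v (r d) else w (r d)
  have e1 : ∀ d, E' (r d) = u (r d) := fun d => by simp only [E', r3, if_true]
  have e2 : ∀ d, E' (nx (r d)) = v (r d) := fun d => by simp only [E', r1, r3, hn, if_true, if_false]
  have e3 : ∀ d, E' (nx (nx (r d))) = w (r d) := fun d => by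
    simp only [E', r1, r3, hn, hn2, if_false]
  have c : ∀ d, IsConj (E d) (E' d) := fun d => by
    rcases r2 d with e | e | e <;> rw [e]
    · exact e1 d ▸ k1 _
    · exact e2 d ▸ k2 _
    · exact e3 d ▸ k3 _
  have eo : objs E' = objs E :=
    Set.ext fun a => exists_congr fun d => ⟨(c d).trans, (c d).symm.trans⟩
  have hP : IsPants ρ nx E' := by
    refine ⟨inferInstance, eo ▸ hO, fun d => ?_, hc,
      fun d d' h => hu _ _ ((c d).trans (h.trans (c d').symm))⟩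
    have := k0 (r d)
    rw [← e1, ← e2, ← e3] at this
    rcases r2 d with e | e | e <;> rw [e]
    · exact this
    · rw [hc]
      exact this.rot
    · rw [hc]
      exact this.rot.rot
  obtain ⟨gl', t', hg⟩ := hP.exists_pg hρ
  obtain rfl : gl' = gl := Equiv.ext fun d => by
    by_cases h : Hyp (ρ (E d))
    · exact hu _ _ ((c _).trans ((hg.PPants_gl ((PDual_hyp (c d)).2 h)).symm.trans
        ((POs_inv (c d)).symm.trans (h1 d h))))
    · rw [h2 d h, (hg.par d (mt (PDual_hyp (c d)).1 h)).1]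
  exact ⟨E', t', hg, c⟩

theorem PDual_tf (h : IsPants ρ nx E) (d : D) : PDualTF ρ (E d) (E (nx d)) (E (nx (nx d))) :=
  ⟨_, _, _, h.frame d, IsConj.refl _, IsConj.refl _, IsConj.refl _⟩

theorem PG.flip (h : PG ρ nx gl E t) (hρ : Disc ρ) {nx' : Equiv.Perm D}
    (hs : ∀ d, nx' d = nx d ∨ nx' d = nx (nx d)) :
    ∃ E' t', PG ρ nx' gl E' t' ∧ ∀ d, IsConj (E d) (E' d) := by
  have hc := h.cube
  have hn := h.toIsPants.nx_ne
  have hn2 : ∀ d, nx (nx d) ≠ d := fun d e => hn d (by have := hc d; rwa [e] at this)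
  have k1 : ∀ d, nx' d = nx d → nx' (nx d) = nx (nx d) := fun d e => by
    refine (hs _).resolve_right fun e1 => ?_
    rw [hc] at e1
    rcases hs (nx (nx d)) with e2 | e2 <;> rw [hc] at e2
    · exact hn _ (nx'.injective (e2.trans e1.symm))
    · exact hn2 _ (nx'.injective (e2.trans e.symm))
  have k2 : ∀ d, nx' d = nx (nx d) → nx' (nx (nx d)) = nx d := fun d e => by
    have := (hs (nx (nx d))).resolve_left fun e1 => by
      have e2 := k1 _ e1
      rw [hc, e] at e2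
      exact hn _ e2
    rwa [hc] at this
  have k3 : ∀ d, nx' d = nx (nx d) → nx' (nx d) = d := fun d e => by
    have := (hs (nx d)).resolve_left fun e1 => hn _ (nx'.injective (e1.trans e.symm))
    rwa [hc] at this
  have := h.ne
  refine PDual_build hρ (fun d => ?_) (fun d => ?_) h.sys h.uniq (fun d => ?_)
    (fun d => h.PPants_gl) fun d hd => (h.par d hd).1
  · rcases hs d with e | e
    · rw [e, k1 d e, k1 _ (k1 d e), hc]
    · rw [e, k2 d e, k3 d e]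
  · rcases hs d with e | e <;> rw [e]
    · exact hn d
    · exact hn2 d
  · rcases hs d with e | e
    · rw [e, k1 d e]
      exact PDual_tf h.toIsPants d
    · rw [e, k2 d e]
      exact (PDual_tf h.toIsPants d).swap

theorem PDual_pair (h : IsPants ρ nx E) (hρ : Disc ρ) {e x : D} (g : Γ) (h1 : InV nx e x)
    (h2 : x ≠ e) : ∃ (z : D) (a b : Γ), (x = nx e ∧ z = nx (nx e) ∨ x = nx (nx e) ∧ z = nx e) ∧
      MP nx E (g * E e * g⁻¹) a ∧ MP nx E (g * E e * g⁻¹) b ∧ g * E e * g⁻¹ * a * b = 1 ∧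
      IsConj (E x) a ∧ IsConj (E z) b := by
  have m1 : MP nx E (g * E e * g⁻¹) (g * E (nx e) * g⁻¹) := ⟨e, g, Or.inl ⟨rfl, rfl⟩⟩
  rcases h1.resolve_left h2 with rfl | rfl
  · refine ⟨_, _, _, Or.inl ⟨rfl, rfl⟩, m1, ⟨nx (nx e), g, Or.inr ⟨rfl, by rw [h.cube]⟩⟩, ?_,
      POs_isConj _ _, POs_isConj _ _⟩
    rw [h.PPants_third hρ]
    group
  · refine ⟨_, _, _, Or.inr ⟨rfl, rfl⟩, h.mp_rot hρ m1.symm, m1, by group,
      isConj_iff.2 ⟨g * E (nx e), ?_⟩, POs_isConj _ _⟩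
    rw [h.PPants_third hρ]
    group

theorem PG.move [DecidableEq D] (h : PG ρ nx gl E t) (hρ : Good ρ N) {d x y : D}
    (h1 : ¬ InV nx d (gl d)) (h2 : InV nx d x) (h3 : x ≠ d) (h4 : InV nx (gl d) y)
    (h5 : y ≠ gl d) : ∃ E' t', PG ρ (Equiv.swap x y * nx * Equiv.swap x y) gl E' t' ∧
      (∀ e, e ≠ d → e ≠ gl d → IsConj (E e) (E' e)) ∧ inter ρ (E d) (E' d) ≠ 0 := by
  have hd := hρ.toDisc
  have hO := h.sys
  have hP := h.toIsPants
  have hc := h.cube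
  have hn := hP.nx_ne
  have hn2 : ∀ d, nx (nx d) ≠ d := fun d e => hn d (by have := hc d; rwa [e] at this)
  have dj : ∀ u v, InV nx d u → InV nx (gl d) v → u ≠ v := fun u v hu hv e =>
    h1 (PDual_trans hc hu (PDual_symm hc (e ▸ hv)))
  have i0 : ∀ e, InV nx e e := fun e => Or.inl rfl
  have n0 : d ≠ gl d := dj _ _ (i0 _) (i0 _)
  have hm : Hyp (ρ (E d)) := (h.hyp_iff hd d).2 n0.symm
  obtain ⟨x', a1, a2, hx, m1, m2, p1, c1, c2⟩ := PDual_pair hP hd 1 h2 h3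
  obtain ⟨y', a3, a4, hy, m3, m4, p2, c3, c4⟩ := PDual_pair hP hd (t d) h4 h5
  rw [one_mul, inv_one, mul_one] at m1 m2 p1
  rw [show t d * E (gl d) * (t d)⁻¹ = (E d)⁻¹ by rw [h.hyp d hm]; group] at m3 m4 p2
  have h2' : InV nx d x' := hx.elim (fun e => Or.inr (Or.inr e.2)) fun e => Or.inr (Or.inl e.2)
  have h4' : InV nx (gl d) y' := hy.elim (fun e => Or.inr (Or.inr e.2)) fun e => Or.inr (Or.inl e.2)
  have h3' : x' ≠ d := hx.elim (fun e => e.2 ▸ hn2 d) fun e => e.2 ▸ hn d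
  have h5' : y' ≠ gl d := hy.elim (fun e => e.2 ▸ hn2 _) fun e => e.2 ▸ hn _
  have h6 : x' ≠ x := hx.elim (fun e => e.1 ▸ e.2 ▸ hn _) fun e => e.1 ▸ e.2 ▸ (hn _).symm
  have h7 : y' ≠ y := hy.elim (fun e => e.1 ▸ e.2 ▸ hn _) fun e => e.1 ▸ e.2 ▸ (hn _).symm
  have nc : ∀ e a, e ≠ d → e ≠ gl d → IsConj (E e) a → a ∉ cls ρ (E d) := fun e a k1 k2 k3 k4 =>
    ((h.mem_cls_iff d e).1 (PDual_cls k4 k3.symm)).elim k1 k2
  have S := hP.spair_across hρ hm m2 m3 (nc _ _ h3' (dj _ _ h2' (i0 _)) c2)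
    (nc _ _ (dj _ _ (i0 _) h4).symm h5 c3)
  obtain ⟨b3, f, F1, e | e, hO', -⟩ := S.exists_frame (hO.diff hm) hd
  swap
  · exact (dj _ _ h2' h4 (h.uniq _ _ (c2.trans ((e ▸ POs_isConj _ a2).trans c3.symm)))).elim
  rw [e] at F1 hO'
  clear e
  rw [union_eq_left.2 ((hO.diff hm).cls_subset S.1.2.1)] at hO'
  have mf : f ∈ objs E \ cls ρ (E d) ∪ cls ρ f := Or.inr (mem_cls_self f)
  have nf : f ∉ objs E := fun k => ((PDual_fo hd F1 S.1.1.1 S.1.2.1.1 k).adj hO hd).2.2.2 _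
    (PPants_self E d) ⟨hm, (hP.adj hd m2).face.symm, (hP.adj hd m3).face⟩
  obtain ⟨hf, m', k1, k2⟩ := (PDual_mem hP hd hO' subset_union_left mf).resolve_left nf
  have nf' : f⁻¹ ∉ objs E := fun k => nf (inv_inv f ▸ hO.inv _ k (POs_hyp_inv hf))
  have F2 := hO.frame hd (hP.adj hd m4).2.1 (hP.adj hd m1).2.1
    (PAdj_tr hm (hP.adj hd m1).face.symm (hP.adj hd m4).face).symm
  have ef : a4 * a1 = f := by
    have e1 : f = (a2 * a3)⁻¹ := hd.injective (by rw [F1.eq_inv, map_inv, map_mul])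
    rw [mul_assoc, inv_mul_eq_one] at p2
    rw [p2] at p1
    rw [e1, eq_inv_iff_mul_eq_one, show a4 * a1 * (a2 * a3) = a3⁻¹ * (a3 * a4 * a1 * a2) * a3 by group,
      p1]
    group
  rw [ef] at F2
  obtain ⟨C, C1, C2, C3⟩ : ∃ C : D → Γ, C d = f ∧ C (gl d) = f⁻¹ ∧
      ∀ e, e ≠ d → e ≠ gl d → C e = E e :=
    ⟨fun e => if e = d then f else if e = gl d then f⁻¹ else E e, if_pos rfl,
      by simp only [if_neg n0.symm, if_true], fun e k1 k2 => by simp only [if_neg k1, if_neg k2]⟩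
  have cs : ∀ e, e = d ∨ e = gl d ∨ e ≠ d ∧ e ≠ gl d := fun e => by tauto
  have eo : objs C = objs E \ cls ρ (E d) ∪ cls ρ f := by
    refine Set.ext fun a => ⟨?_, ?_⟩
    · rintro ⟨e, he⟩
      rcases cs e with rfl | rfl | ⟨k3, k4⟩
      · exact Or.inr (Or.inl (C1 ▸ he))
      · exact Or.inr (Or.inr ⟨hf, C2 ▸ he⟩)
      · rw [C3 e k3 k4] at he
        exact Or.inl ⟨⟨e, he⟩, nc _ _ k3 k4 he⟩
    · rintro (⟨⟨e, he⟩, k3⟩ | k3 | ⟨-, k3⟩)
      · have k4 := mt (fun k => PDual_cls ((h.mem_cls_iff d e).2 k) he) k3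
        exact ⟨e, (C3 e (fun k => k4 (Or.inl k)) fun k => k4 (Or.inr k)).symm ▸ he⟩
      · exact ⟨d, C1.symm ▸ k3⟩
      · exact ⟨gl d, C2.symm ▸ k3⟩
  have ni := hd.not_isConj_inv (hO'.ne_one mf)
  have s0 : ∀ e, (Equiv.swap x y * nx * Equiv.swap x y) (Equiv.swap x y e) =
      Equiv.swap x y (nx e) := fun e => by simp
  have T1 : PDualTF ρ (C d) (C x') (C y) := by
    rw [C1, C3 _ h3' (dj _ _ h2' (i0 _)), C3 _ (dj _ _ (i0 _) h4).symm h5]
    exact ⟨_, _, _, F1.rot.rot, IsConj.refl _, c2, c3⟩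
  have T2 : PDualTF ρ (C (gl d)) (C y') (C x) := by
    rw [C2, C3 _ (dj _ _ (i0 _) h4').symm h5', C3 _ h3 (dj _ _ h2 (i0 _))]
    exact ⟨_, _, _, F2.rot.rot, IsConj.refl _, c4, c1⟩
  obtain ⟨T, hT⟩ : ∃ T : D → Prop, ∀ e, T e ↔ PDualTF ρ (C (Equiv.swap x y e))
      (C (Equiv.swap x y (nx e))) (C (Equiv.swap x y (nx (nx e)))) := ⟨_, fun _ => Iff.rfl⟩
  have T3 : ∀ e, T e → T (nx e) := fun e k => by
    rw [hT] at k ⊢
    rw [hc]
    exact k.rot
  have T4 : ∀ e e', T e → InV nx e e' → T e' := by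
    rintro e _ k (rfl | rfl | rfl)
    exacts [k, T3 _ k, T3 _ (T3 _ k)]
  have T5 : T d := by
    rw [hT, Equiv.swap_apply_of_ne_of_ne h3.symm (dj _ _ (i0 _) h4)]
    have e1 := Equiv.swap_apply_of_ne_of_ne h6 (dj _ _ h2' h4)
    rcases hx with ⟨e2, e3⟩ | ⟨e2, e3⟩
    · rw [← e3, ← e2, e1, Equiv.swap_apply_left]
      exact T1.swap
    · rw [← e2, ← e3, e1, Equiv.swap_apply_left]
      exact T1
  have T6 : T (gl d) := by
    rw [hT, Equiv.swap_apply_of_ne_of_ne (dj _ _ h2 (i0 _)).symm h5.symm]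
    have e1 := Equiv.swap_apply_of_ne_of_ne (dj _ _ h2 h4').symm h7
    rcases hy with ⟨e2, e3⟩ | ⟨e2, e3⟩
    · rw [← e3, ← e2, e1, Equiv.swap_apply_right]
      exact T2.swap
    · rw [← e2, ← e3, e1, Equiv.swap_apply_right]
      exact T2
  have T7 : ∀ e, T e := fun e => by
    by_cases k3 : InV nx d e
    · exact T4 _ _ T5 k3
    by_cases k4 : InV nx (gl d) e
    · exact T4 _ _ T6 k4
    have k5 : ∀ e', InV nx e e' → C (Equiv.swap x y e') = E e' := fun e' k => by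
      have k6 := mt (fun k' => PDual_trans hc k' (PDual_symm hc k)) k3
      have k7 := mt (fun k' => PDual_trans hc k' (PDual_symm hc k)) k4
      rw [Equiv.swap_apply_of_ne_of_ne (fun e : e' = x => k6 (e ▸ h2))
        fun e : e' = y => k7 (e ▸ h4),
        C3 _ (fun e => k6 (Or.inl e)) fun e => k7 (Or.inl e)]
    rw [hT, k5 _ (i0 _), k5 _ (Or.inr (Or.inl rfl)), k5 _ (Or.inr (Or.inr rfl))]
    exact PDual_tf hP e
  have := h.ne
  obtain ⟨E', t', hg, hE⟩ := PDual_build (nx := Equiv.swap x y * nx * Equiv.swap x y) (gl := gl)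
    (E := C) hd ((Equiv.swap x y).surjective.forall.2 fun e => by rw [s0, s0, s0, hc])
    ((Equiv.swap x y).surjective.forall.2 fun e => by
      rw [s0]
      exact (Equiv.swap x y).injective.ne (hn e)) (eo ▸ hO')
    (fun e e' k => by
      rcases cs e with rfl | rfl | ⟨k3, k4⟩ <;> rcases cs e' with rfl | rfl | ⟨k5, k6⟩
      · rfl
      · rw [C1, C2] at k
        exact (ni k).elim
      · exact (nf ⟨e', C1 ▸ C3 _ k5 k6 ▸ k.symm⟩).elim
      · rw [C2, C1] at k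
        exact (ni k.symm).elim
      · rfl
      · exact (nf' ⟨e', C2 ▸ C3 _ k5 k6 ▸ k.symm⟩).elim
      · exact (nf ⟨e, C1 ▸ C3 _ k3 k4 ▸ k⟩).elim
      · exact (nf' ⟨e, C2 ▸ C3 _ k3 k4 ▸ k⟩).elim
      · exact h.uniq _ _ (C3 _ k3 k4 ▸ C3 _ k5 k6 ▸ k))
    ((Equiv.swap x y).surjective.forall.2 fun e => by
      rw [s0, s0]
      exact (hT e).1 (T7 e))
    (fun e k => by
      rcases cs e with rfl | rfl | ⟨k3, k4⟩
      · rw [C1, C2]
      · rw [h.invol, C1, C2, inv_inv]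
      · rw [C3 _ k3 k4] at k ⊢
        rw [C3 _ (fun e' => k4 (by rw [← e', h.invol])) (gl.injective.ne k3)]
        exact h.PPants_gl k)
    (fun e k => by
      rcases cs e with rfl | rfl | ⟨k3, k4⟩
      · exact (k (C1.symm ▸ hf)).elim
      · exact (k (C2.symm ▸ POs_hyp_inv hf)).elim
      · exact (h.par e (C3 _ k3 k4 ▸ k)).1)
  refine ⟨E', t', hg, fun e k3 k4 => C3 e k3 k4 ▸ hE e, ?_⟩
  obtain ⟨g, hg'⟩ := isConj_iff.1 (hE d)
  obtain ⟨k, hk⟩ := PDual_cross hm k1 k2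
  rw [← hg', inter_conj_right, C1, Ne, hd.inter_eq_zero_iff hm hf (hO'.simple hd mf hf).prim]
  exact fun H => H k hk

end HRT
end

-- merged part: Pool.Agent.Work.MP_35beee_gt.CChain
section
/-!
Translation length of an isometry in terms of a periodic chain of nested lines that cross its axis.

Plan. `tl_le`: the broken path through the feet of the common perpendiculars (`exists_perp`; the
foot on `l i` of the perpendicular to `m` has coordinate `xp (l i) m`) has length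
`∑ (|S i| + d i)` with `S i = xp (l i) (l (i + 1)) - xp (l i) (l (i - 1))`; the ends of the axis
project into the shadows of `l (i - 1)` and `l (i + 1)` (`fer_mem_uIcc_of_nest`), `abs_twist`.
`le_tl`: let `x i` be the crossing point on the axis. With `w = 1 / 2` the strips of width `w`
around the lines are disjoint; the time spent in the strip of `l i` is at least
`|twist| - C` (`exists_side_eq`, `time_in_strip`), the time between the strips of `l i` and
`l (i + 1)` is at least `d i - 1` (`abs_arsinh_side_le`, `ldist_le_arsinh`, `dist_foot`).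
-/

namespace HRT

open Set Filter Topology Real

/-- A periodic chain of nested lines across the axis of `g`. -/
structure Chain (g : Isom) (p : ℕ) (l : ℤ → Geo) : Prop where
  hyp : Hyp g
  pos : 0 < p
  per : ∀ i, l (i + p) = g • l i
  src : ∀ i, side (l i) (ax g).src.1 < 0
  tgt : ∀ i, 0 < side (l i) (ax g).tgt.1
  nest : ∀ i, Nest (l (i + 1)) (l i)
  far : ∀ i, 0 < side (l i) (l (i + 1)).src.1 * side (l i) (l (i + 1)).tgt.1

variable {g : Isom} {p : ℕ} {l : ℤ → Geo}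

theorem CChain_symm {l m : Geo} (h : 0 < side l m.src.1 * side l m.tgt.1) :
    0 < side m l.src.1 * side m l.tgt.1 := by
  have h1 := left_ne_zero_of_mul h.ne'
  have h2 := right_ne_zero_of_mul h.ne'
  rw [ne_eq, side_eq_zero_iff, not_or] at h1 h2
  refine lt_of_le_of_ne (not_lt.1 fun hc => h.asymm (Cross.symm hc)) fun e => ?_
  rw [eq_comm, mul_eq_zero, side_eq_zero_iff, side_eq_zero_iff] at e
  rcases e with (e | e) | e | e
  exacts [h1.1 e.symm, h2.1 e.symm, h1.2 e.symm, h2.2 e.symm]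

theorem CChain_perp {l m : Geo} (h : 0 < side l m.src.1 * side l m.tgt.1) :
    dist (pt l (xp l m)) (pt m (xp m l)) = ldist l m := by
  obtain ⟨t, h1, h2⟩ := GDist_min h
  have h' := CChain_symm h
  have hs := left_ne_zero_of_mul h.ne'
  have ht := right_ne_zero_of_mul h.ne'
  have hβ := l.B_neg.ne
  have e0 : ∀ x, exp (-x) * exp x = 1 := fun x => by rw [← exp_add, neg_add_cancel, exp_zero]
  have e1 : xp m l = t := by
    have a1 := gcross_exp m (left_ne_zero_of_mul h'.ne')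
    have a2 := gcross_exp m (right_ne_zero_of_mul h'.ne')
    have a3 := GDist_B l m.src.1 m.src.1
    have a4 := GDist_B l m.tgt.1 m.tgt.1
    rw [m.src.2.1, B_comm m.src.1 l.src.1, B_comm m.src.1 l.tgt.1] at a3
    rw [m.tgt.2.1, B_comm m.tgt.1 l.src.1, B_comm m.tgt.1 l.tgt.1] at a4
    field_simp at a3 a4
    have a5 : side l m.src.1 = exp t ^ 2 * side l m.tgt.1 := by
      linear_combination exp t * h1 - side l m.src.1 * e0 t
    have a6 : (exp (fer m l.src.1) * exp (fer m l.tgt.1)) ^ 2 = (exp t ^ 2) ^ 2 := by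
      refine mul_right_cancel₀ (mul_ne_zero hβ (pow_ne_zero 2 ht)) ?_
      rw [← a1, ← a2, a5] at a3
      linear_combination a3 - (exp (fer m l.src.1) * exp (fer m l.tgt.1)) ^ 2 * a4
    rw [sq_eq_sq₀ (by positivity) (by positivity), sq, ← exp_add, ← exp_add, exp_eq_exp] at a6
    rw [xp, a6, add_self_div_two]
  have e2 : fer l (pt m t).1 = xp l m := by
    obtain ⟨a1, a2⟩ := gcross_coord l hs
    obtain ⟨a3, a4⟩ := gcross_coord l ht
    rw [div_eq_iff hβ] at a1 a2 a3 a4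
    have a5 := congrArg abs h1
    rw [abs_mul, abs_mul, abs_of_pos (exp_pos _), abs_of_pos (exp_pos _)] at a5
    have a6 : B (pt m t).1 l.src.1 / B (pt m t).1 l.tgt.1 =
        exp (fer l m.src.1 + fer l m.tgt.1) := by
      rw [div_eq_iff (B_pt_circ_neg _ _).ne, GFermi_val, exp_add]
      simp only [B_smul_left, B_add_left, a1, a2, a3, a4]
      generalize (√(-2 * B m.src.1 m.tgt.1))⁻¹ = c
      generalize (√(-2 * B l.src.1 l.tgt.1))⁻¹ = k
      linear_combination c * k * B l.src.1 l.tgt.1 * ((exp (fer l m.src.1) - exp (fer l m.tgt.1)) *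
        a5 - exp (fer l m.tgt.1) * (exp (-t) * |side l m.src.1|) * e0 (fer l m.src.1) -
        exp (fer l m.src.1) * (exp t * |side l m.tgt.1|) * e0 (fer l m.tgt.1))
    rw [fer, a6, log_exp, xp]
  rw [e1, ← e2, dist_comm, dist_foot, h2]

theorem CChain_mid {l m : Geo} (h : Nest m l) (h1 : 0 < side l m.src.1 * side l m.tgt.1)
    {ξ : Circ} (hξ : 0 ≤ side m ξ.1) :
    |fer l ξ.1 - xp l m| ≤ |fer l m.src.1 - fer l m.tgt.1| / 2 := by
  have h2 := fer_mem_uIcc_of_nest h (left_ne_zero_of_mul h1.ne') (right_ne_zero_of_mul h1.ne')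
    ξ.fut hξ
  have h3 := le_abs_self (fer l m.src.1 - fer l m.tgt.1)
  have h4 := neg_abs_le (fer l m.src.1 - fer l m.tgt.1)
  rw [xp, abs_le]
  rcases mem_uIcc.1 h2 with ⟨a, b⟩ | ⟨a, b⟩ <;> constructor <;> linarith only [h4, a, b, h3]

theorem CChain_mid' {l m : Geo} (h : Nest l m) (h1 : 0 < side l m.src.1 * side l m.tgt.1)
    {ξ : Circ} (hξ : side m ξ.1 ≤ 0) (hξ' : side l ξ.1 ≠ 0) :
    |fer l ξ.1 - xp l m| ≤ |fer l m.src.1 - fer l m.tgt.1| / 2 := by
  have h2 := CChain_mid h.rev (by simpa [mul_comm] using h1) (ξ := ξ) (by simpa using hξ)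
  have e : ∀ {η : Circ}, side l η.1 ≠ 0 → fer l.rev η.1 = -fer l η.1 := fun hη =>
    fer_rev l (gcross_neg l hη).1 (gcross_neg l hη).2
  rw [xp, Geo.src_rev, Geo.tgt_rev, e hξ', e (left_ne_zero_of_mul h1.ne'),
    e (right_ne_zero_of_mul h1.ne'), neg_sub_neg, ← abs_neg] at h2
  refine le_of_eq_of_le (congrArg abs ?_) h2
  rw [xp]
  ring

theorem CChain_le {l m : Geo} (h : ¬ Cross l m) {p q : Pt} {w : ℝ} (hp : |side l p.1| ≤ sinh w)
    (hq : |side m q.1| ≤ sinh w) : ldist l m ≤ w + dist p q + w := by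
  have e : ∀ x, |x| ≤ sinh w → |arsinh x| ≤ w := fun x hx => by
    rwa [← sinh_le_sinh, ← abs_sinh, sinh_arsinh]
  refine (ldist_le h (side_pt l (fer l p.1)) (side_pt m (fer m q.1))).trans
    ((dist_triangle4 _ p q _).trans ?_)
  rw [dist_comm _ p, dist_foot, dist_foot]
  linarith [e _ hp, e _ hq]

theorem Chain.tl_le (h : Chain g p l) {σ : ℤ → ℝ}
    (h1 : ∀ i, |fer (l i) (l (i + 1)).src.1 - fer (l i) (l (i + 1)).tgt.1| ≤ σ i)
    (h2 : ∀ i, |fer (l i) (l (i - 1)).src.1 - fer (l i) (l (i - 1)).tgt.1| ≤ σ i) :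
    tl g ≤ ∑ i ∈ Finset.range p, (|twist (l i) (ax g)| + ldist (l i) (l (i + 1)) + σ i) := by
  have far' : ∀ i, 0 < side (l i) (l (i - 1)).src.1 * side (l i) (l (i - 1)).tgt.1 := fun i => by
    have := CChain_symm (h.far (i - 1))
    rwa [sub_add_cancel] at this
  have e : g • pt (l 0) (xp (l 0) (l (0 - 1))) = pt (l p) (xp (l p) (l (p - 1))) := by
    have e1 := h.per 0
    have e2 := h.per (0 - 1)
    rw [zero_add] at e1
    rw [show (0 : ℤ) - 1 + p = p - 1 by ring] at e2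
    rw [smul_pt, e1, e2, xp, xp, Geo.src_smul, Geo.tgt_smul,
      fer_smul_circ g _ (left_ne_zero_of_mul (far' 0).ne'),
      fer_smul_circ g _ (right_ne_zero_of_mul (far' 0).ne')]
    congr 1
    ring
  refine (HRT.tl_le g (pt (l 0) (xp (l 0) (l (0 - 1))))).trans ?_
  rw [e]
  refine (dist_le_range_sum_dist (fun i : ℕ => pt (l i) (xp (l i) (l (i - 1)))) p).trans
    (Finset.sum_le_sum fun i _ => ?_)
  rw [Nat.cast_succ, add_sub_cancel_right]
  generalize (i : ℤ) = j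
  have a1 := CChain_mid (h.nest j) (h.far j) (h.tgt (j + 1)).le
  have a2 := h.nest (j - 1)
  rw [sub_add_cancel] at a2
  have a3 := CChain_mid' a2 (far' j) (h.src (j - 1)).le (h.src j).ne
  have a4 := dist_triangle (pt (l j) (xp (l j) (l (j - 1)))) (pt (l j) (xp (l j) (l (j + 1))))
    (pt (l (j + 1)) (xp (l (j + 1)) (l j)))
  rw [CChain_perp (h.far j), dist_pt] at a4
  have a5 := abs_sub_le (xp (l j) (l (j - 1))) (fer (l j) (ax g).src.1) (xp (l j) (l (j + 1)))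
  have a6 := abs_sub_le (fer (l j) (ax g).src.1) (fer (l j) (ax g).tgt.1) (xp (l j) (l (j + 1)))
  rw [abs_sub_comm (xp _ _) (fer _ _)] at a5
  rw [abs_twist]
  linarith only [a1, a3, a4, a5, a6, h1, h2, h1 j, h2 j]

theorem exists_le_tl : ∃ κ : ℝ, 0 ≤ κ ∧ ∀ (g : Isom) (p : ℕ) (l : ℤ → Geo), Chain g p l →
    (∀ i, 1 ≤ ldist (l i) (l (i + 1))) →
      ∑ i ∈ Finset.range p, (|twist (l i) (ax g)| + ldist (l i) (l (i + 1)) - κ) ≤ tl g := by
  have hw : (0 : ℝ) < 1 / 4 := by norm_num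
  have hc : 0 ≤ arcosh (cosh (1 / 4) / sinh (1 / 4)) :=
    arcosh_nonneg ((one_le_div (sinh_pos_iff.2 hw)).2 (sinh_lt_cosh _).le)
  refine ⟨4 + 2 * arcosh (cosh (1 / 4) / sinh (1 / 4)), by positivity, fun g p l h hd => ?_⟩
  have hx : ∀ i, Cross (l i) (ax g) := fun i => mul_neg_of_neg_of_pos (h.src i) (h.tgt i)
  have e := Finset.sum_range_sub (fun i : ℕ => xp (ax g) (l i) - |twist (l i) (ax g)| / 2) p
  have e1 := h.per 0
  have e2 := xp_smul g (hx 0).symm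
  have e3 := twist_smul g (hx 0)
  rw [zero_add] at e1
  rw [h.hyp.smul_ax, ← e1] at e2 e3
  rw [e2, e3, h.hyp.sh_ax, Nat.cast_zero] at e
  refine le_of_le_of_eq (Finset.sum_le_sum fun i _ => ?_) (e.trans (by ring))
  rw [Nat.cast_succ]
  generalize (i : ℤ) = j
  have hn := (h.nest j).not_cross
  have a0 := (nest_iff_xp hn (h.tgt _) (h.src _) (h.tgt _) (h.src _)).1 (h.nest j)
  obtain ⟨u, u0, u1, -, u3⟩ := exists_side_eq (hx j) hw.le
  obtain ⟨v, v0, v1, v2, v3⟩ := exists_side_eq (hx (j + 1)) hw.le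
  have a1 := (time_in_strip (hx j) hw u0 u1).2
  have a2 := (time_in_strip (hx (j + 1)) hw v0 v1).2
  have a3 := CChain_le (fun h => hn h.symm) u1.le v2.le
  rw [dist_pt] at a3
  rcases le_or_gt (xp (ax g) (l j) + u) (xp (ax g) (l (j + 1)) - v) with a4 | a4
  · rw [abs_of_nonpos (sub_nonpos.2 a4)] at a3
    linarith only [a1, a2, a3]
  · have b1 := le_max_left (xp (ax g) (l j)) (xp (ax g) (l (j + 1)) - v)
    have b2 := le_max_right (xp (ax g) (l j)) (xp (ax g) (l (j + 1)) - v)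
    have b3 := max_le (le_add_of_nonneg_right u0) a4.le
    have b4 := max_le a0 (sub_le_self _ v0)
    generalize max (xp (ax g) (l j)) (xp (ax g) (l (j + 1)) - v) = t at b1 b2 b3 b4
    have a5 := CChain_le (fun h => hn h.symm)
      ((u3 t).1 (abs_le.2 ⟨by linarith only [u0, b1], by linarith only [b3]⟩))
      ((v3 t).1 (abs_le.2 ⟨by linarith only [b2], by linarith only [v0, b4]⟩))
    rw [dist_self] at a5
    linarith only [a5, hd, hd j]

end HRT
end

-- merged part: Pool.Agent.Work.MP_35beee_gt.CSeqA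
section
/-!
Auxiliary facts for `CSeq`: periodic enumeration of a discrete set, elementary estimates.
-/

namespace HRT

open Set Filter Topology Real

theorem CSeqA_int {f : ℤ → ℤ} (hf : StrictMono f) (hs : Function.Surjective f) (i : ℤ) :
    f i = i + f 0 := by
  have h1 : ∀ j, f (j + 1) = f j + 1 := by
    intro j
    have h2 : f j < f (j + 1) := hf (by omega)
    by_contra hne
    obtain ⟨k, hk⟩ := hs (f j + 1)
    have h3 : j < k := hf.lt_iff_lt.1 (by omega)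
    have h4 : k < j + 1 := hf.lt_iff_lt.1 (by omega)
    omega
  induction i using Int.induction_on with
  | zero => simp
  | succ n ih => rw [h1, ih]; ring
  | pred n ih =>
    have h2 := h1 (-(n : ℤ) - 1)
    rw [sub_add_cancel, ih] at h2
    omega

/-- Periodic enumeration. -/
theorem CSeqA_enum {X : Type*} [Nonempty X] (φ : X → ℝ) (hφ : Function.Injective φ)
    (hfin : ∀ s t, {x | φ x ∈ Ico s t}.Finite) (T : X ≃ X) {L : ℝ} (hL : 0 < L)
    (hT : ∀ x, φ (T x) = φ x + L) :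
    ∃ (p : ℕ) (m : ℤ → X), 0 < p ∧ Function.Surjective m ∧ StrictMono (fun i => φ (m i)) ∧
      ∀ i, m (i + p) = T (m i) := by
  classical
  let _ : LinearOrder X := LinearOrder.lift' φ hφ
  have hlt : ∀ x y : X, x < y ↔ φ x < φ y := fun _ _ => Iff.rfl
  have hle : ∀ x y : X, x ≤ y ↔ φ x ≤ φ y := fun _ _ => Iff.rfl
  let _ : LocallyFiniteOrder X := LocallyFiniteOrder.ofFiniteIcc fun a b =>
    (hfin (φ a) (φ b + 1)).subset fun x hx =>
      ⟨(hle _ _).1 hx.1, by linarith [(hle _ _).1 hx.2]⟩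
  have _ : NoMaxOrder X := ⟨fun x => ⟨T x, (hlt _ _).2 (by rw [hT]; linarith)⟩⟩
  have _ : NoMinOrder X := ⟨fun x => ⟨T.symm x, (hlt _ _).2 (by
    have := hT (T.symm x)
    rw [T.apply_symm_apply] at this
    linarith)⟩⟩
  let _ : SuccOrder X := LinearLocallyFiniteOrder.succOrder X
  let _ : PredOrder X := LinearLocallyFiniteOrder.predOrder X
  let e : X ≃o ℤ := orderIsoIntOfLinearSuccPredArch
  have hTm : StrictMono T := fun x y hxy => (hlt _ _).2 (by
    rw [hT, hT]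
    linarith [(hlt _ _).1 hxy])
  have hf : StrictMono fun i => e (T (e.symm i)) :=
    e.strictMono.comp (hTm.comp e.symm.strictMono)
  have hs : Function.Surjective fun i => e (T (e.symm i)) :=
    e.surjective.comp (T.surjective.comp e.symm.surjective)
  have h0 : 0 < e (T (e.symm 0)) := by
    have h1 : e.symm 0 < T (e.symm 0) := (hlt _ _).2 (by rw [hT]; linarith)
    have h2 := e.strictMono h1
    rwa [e.apply_symm_apply] at h2
  refine ⟨(e (T (e.symm 0))).toNat, e.symm, by omega, e.symm.surjective,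
    fun i j hij => (hlt _ _).1 (e.symm.strictMono hij), fun i => ?_⟩
  have h3 := CSeqA_int hf hs i
  rw [Int.toNat_of_nonneg h0.le, ← h3, e.symm_apply_apply]

theorem CSeqA_cosh_le {x : ℝ} (hx : 0 ≤ x) : cosh x ≤ exp x := by
  rw [cosh_eq]
  have : exp (-x) ≤ exp x := exp_le_exp.2 (by linarith)
  linarith

theorem CSeqA_le_cosh (x : ℝ) : exp x ≤ 2 * cosh x := by
  rw [cosh_eq]
  have := exp_pos (-x)
  linarith only [this]

/-- The constant. -/
noncomputable def CSeqA_C (ε : ℝ) : ℝ := log 256 + 2 * log (1 + 1 / sinh (ε / 2))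

theorem CSeqA_exp {ε : ℝ} (hε : 0 < ε) :
    exp (CSeqA_C ε) = 256 * (1 + 1 / sinh (ε / 2)) ^ 2 := by
  have h : 0 < sinh (ε / 2) := sinh_pos_iff.2 (by linarith only [hε])
  unfold CSeqA_C
  rw [exp_add, exp_log (by norm_num), two_mul, exp_add, exp_log (by positivity)]
  ring

theorem CSeqA_est1 {s t d R ε : ℝ} (hε : 0 < ε) (hs : ε ≤ s) (ht : ε ≤ t)
    (h : sinh (s / 2) * sinh (t / 2) * cosh d ≤
      8 * exp R * ((1 + sinh (s / 2)) * (1 + sinh (t / 2)))) : d ≤ R + CSeqA_C ε := by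
  have h0 : 0 < sinh (ε / 2) := sinh_pos_iff.2 (by linarith only [hε])
  have h1 : sinh (ε / 2) ≤ sinh (s / 2) := sinh_le_sinh.2 (by linarith only [hs])
  have h2 : sinh (ε / 2) ≤ sinh (t / 2) := sinh_le_sinh.2 (by linarith only [ht])
  rw [← exp_le_exp, exp_add, CSeqA_exp hε]
  have h3 := CSeqA_le_cosh d
  have hE := exp_pos R
  generalize sinh (ε / 2) = u at *
  generalize sinh (s / 2) = a at *
  generalize sinh (t / 2) = b at *
  have ha : 0 < a := by linarith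
  have hb : 0 < b := by linarith
  have h4 : 1 + a ≤ a * (1 + 1 / u) := by
    have : 1 ≤ a / u := (one_le_div h0).2 h1
    rw [mul_add, mul_one_div]
    linarith
  have h5 : 1 + b ≤ b * (1 + 1 / u) := by
    have : 1 ≤ b / u := (one_le_div h0).2 h2
    rw [mul_add, mul_one_div]
    linarith only [this]
  have hu : 0 < 1 + 1 / u := by positivity
  generalize 1 + 1 / u = w at *
  have h6 : (1 + a) * (1 + b) ≤ a * w * (b * w) :=
    mul_le_mul h4 h5 (by linarith) (by positivity)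
  have h7 : a * b * cosh d ≤ a * b * (8 * exp R * w ^ 2) := by
    calc a * b * cosh d ≤ 8 * exp R * ((1 + a) * (1 + b)) := h
      _ ≤ 8 * exp R * (a * w * (b * w)) := mul_le_mul_of_nonneg_left h6 (by positivity)
      _ = a * b * (8 * exp R * w ^ 2) := by ring
  have h8 : cosh d ≤ 8 * exp R * w ^ 2 := le_of_mul_le_mul_left h7 (by positivity)
  have h9 : 0 ≤ exp R * w ^ 2 := by positivity
  linarith

theorem CSeqA_est2 {s t d R : ℝ} (hs : 0 < s) (ht : 0 < t) (hs1 : s ≤ 1) (ht1 : t ≤ 1)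
    (hd : 0 ≤ d) (h0 : exp R ≤ 2 * (sinh (s / 2) * sinh (t / 2) * cosh d))
    (h : sinh (s / 2) * sinh (t / 2) * cosh d ≤
      8 * exp R * ((1 + sinh (s / 2)) * (1 + sinh (t / 2)))) :
    |d - (R + log (1 / s) + log (1 / t))| ≤ CSeqA_C 1 := by
  have hC : log 256 ≤ CSeqA_C 1 := by
    have h1 : 0 < sinh ((1 : ℝ) / 2) := sinh_pos_iff.2 (by norm_num)
    have h2 : 0 ≤ log (1 + 1 / sinh ((1 : ℝ) / 2)) :=
      log_nonneg (by linarith only [h1, one_div_pos.2 h1])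
    unfold CSeqA_C
    linarith only [h2]
  have a1 : s / 2 ≤ sinh (s / 2) := self_le_sinh_iff.2 (by linarith only [hs])
  have a2 : sinh (s / 2) ≤ s := GColl_sinh_half hs.le hs1
  have b1 : t / 2 ≤ sinh (t / 2) := self_le_sinh_iff.2 (by linarith only [ht])
  have b2 : sinh (t / 2) ≤ t := GColl_sinh_half ht.le ht1
  have c1 := CSeqA_cosh_le hd
  have c2 := CSeqA_le_cosh d
  have hE := exp_pos R
  have hD := exp_pos d
  have hc := cosh_pos d
  generalize sinh (s / 2) = a at *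
  generalize sinh (t / 2) = b at *
  have ha : 0 < a := by linarith only [hs, a1]
  have hb : 0 < b := by linarith only [ht, b1]
  have e1 : s * t ≤ 2 * a * (2 * b) := mul_le_mul (by linarith only [a1]) (by linarith only [b1]) ht.le (by positivity)
  have e2 : a * b ≤ s * t := mul_le_mul a2 b2 hb.le hs.le
  have e3 : (1 + a) * (1 + b) ≤ 2 * 2 :=
    mul_le_mul (by linarith only [hs1, a2]) (by linarith only [ht1, b2]) (by linarith only [hb]) (by norm_num)
  have u1 : s * t * exp d ≤ 256 * exp R := by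
    calc s * t * exp d ≤ 2 * a * (2 * b) * (2 * cosh d) :=
          mul_le_mul e1 c2 hD.le (by positivity)
      _ = 8 * (a * b * cosh d) := by ring
      _ ≤ 8 * (8 * exp R * ((1 + a) * (1 + b))) := by linarith only [h]
      _ ≤ 8 * (8 * exp R * (2 * 2)) := by gcongr
      _ = 256 * exp R := by ring
  have u2 : exp R ≤ 256 * (s * t * exp d) := by
    have : a * b * cosh d ≤ s * t * exp d := mul_le_mul e2 c1 hc.le (by positivity)
    have : 0 < s * t * exp d := by positivity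
    linarith
  have v1 := log_le_log (by positivity) u1
  have v2 := log_le_log hE u2
  rw [log_mul (by positivity) hD.ne', log_mul hs.ne' ht.ne', log_mul (by norm_num) hE.ne', log_exp,
    log_exp] at v1
  rw [log_mul (by norm_num) (by positivity), log_mul (by positivity) hD.ne', log_mul hs.ne' ht.ne',
    log_exp, log_exp] at v2
  rw [one_div, one_div, log_inv, log_inv, abs_le]
  constructor <;> linarith only [hC, v2, v1]

theorem CSeqA_one {a b x : ℝ} (ha : 0 ≤ a) (hb : 0 ≤ b) (hx : 0 ≤ x) :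
    exp x ≤ 2 * (cosh x + cosh a * cosh b) ∧
      cosh x + cosh a * cosh b ≤ 8 * exp x * ((1 + sinh a) * (1 + sinh b)) := by
  have h1 := CSeqA_le_cosh x
  have h2 := CSeqA_cosh_le hx
  have h3 : ∀ y : ℝ, 0 ≤ y → cosh y ≤ 1 + sinh y := fun y hy => by
    have := cosh_sub_sinh y
    have h4 : exp (-y) ≤ 1 := exp_le_one_iff.2 (by linarith)
    linarith
  have h5 : cosh a * cosh b ≤ (1 + sinh a) * (1 + sinh b) :=
    mul_le_mul (h3 a ha) (h3 b hb) (cosh_pos b).le (by linarith [sinh_nonneg_iff.2 ha])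
  have h6 : 1 * 1 ≤ cosh a * cosh b :=
    mul_le_mul (one_le_cosh a) (one_le_cosh b) zero_le_one (cosh_pos a).le
  have h7 : 1 ≤ exp x := one_le_exp hx
  refine ⟨by linarith, ?_⟩
  generalize (1 + sinh a) * (1 + sinh b) = P at *
  linarith only [h2, h7, h1, h6, h5, mul_nonneg_of_nonpos_of_nonpos (Mathlib.Tactic.Linarith.sub_nonpos_of_le h1) (Mathlib.Tactic.Linarith.sub_nonpos_of_le h6), mul_nonneg_of_nonpos_of_nonpos (Mathlib.Tactic.Linarith.sub_nonpos_of_le h1) (Mathlib.Tactic.Linarith.sub_nonpos_of_le h5), mul_nonneg_of_nonpos_of_nonpos (Mathlib.Tactic.Linarith.sub_nonpos_of_le h2) (Mathlib.Tactic.Linarith.sub_nonpos_of_le h6), mul_nonneg_of_nonpos_of_nonpos (Mathlib.Tactic.Linarith.sub_nonpos_of_le h2) (Mathlib.Tactic.Linarith.sub_nonpos_of_le h5), mul_nonneg_of_nonpos_of_nonpos (Mathlib.Tactic.Linarith.sub_nonpos_of_le h6) (Mathlib.Tactic.Linarith.sub_nonpos_of_le h7)]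

theorem CSeqA_two {a x y : ℝ} (ha : 0 ≤ a) (hx : 0 ≤ x) (hy : 0 ≤ y) {W : ℝ}
    (hW : W = 2 * (cosh (y / 2) + cosh a * cosh (x / 2)) ^ 2 - sinh a ^ 2 -
      2 * sinh a ^ 2 * sinh (x / 2) ^ 2) :
    exp (max x y) ≤ 2 * W ∧ W ≤ 8 * exp (max x y) * ((1 + sinh a) * (1 + sinh a)) := by
  have hM : 0 ≤ max x y / 2 := by linarith only [hx, le_max_left x y]
  have h1 := CSeqA_le_cosh (max x y / 2)
  have h2 := CSeqA_cosh_le hM
  have h3 : cosh a ≤ 1 + sinh a := by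
    have := cosh_sub_sinh a
    have h4 : exp (-a) ≤ 1 := exp_le_one_iff.2 (by linarith only [ha])
    linarith only [this, h4]
  have hE : exp (max x y) = exp (max x y / 2) ^ 2 := by
    rw [sq, ← exp_add, add_halves]
  have cx : cosh (x / 2) ≤ cosh (max x y / 2) := cosh_le_cosh.2 (by
    rw [abs_of_nonneg (by linarith only [hx]), abs_of_nonneg hM]
    linarith only [le_max_left x y])
  have cy : cosh (y / 2) ≤ cosh (max x y / 2) := cosh_le_cosh.2 (by
    rw [abs_of_nonneg (by linarith only [hy]), abs_of_nonneg hM]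
    linarith only [le_max_right x y])
  have cz : cosh (max x y / 2) = cosh (x / 2) ∨ cosh (max x y / 2) = cosh (y / 2) := by
    rcases max_choice x y with h | h <;> simp [h]
  have hW' : W = 2 * cosh (y / 2) ^ 2 + 2 * cosh (x / 2) ^ 2 +
      4 * cosh a * (cosh (x / 2) * cosh (y / 2)) + sinh a ^ 2 := by
    have e1 := cosh_sq a
    have e2 := cosh_sq (x / 2)
    rw [hW]
    linear_combination (2 * cosh (x / 2) ^ 2) * e1 + (2 * sinh a ^ 2) * e2
  have px := one_le_cosh (x / 2)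
  have py := one_le_cosh (y / 2)
  have pa := one_le_cosh a
  have ps := sinh_nonneg_iff.2 ha
  have pe := exp_pos (max x y / 2)
  rw [hE, hW']
  generalize exp (max x y / 2) = E at *
  generalize cosh (max x y / 2) = c at *
  generalize cosh (x / 2) = u at *
  generalize cosh (y / 2) = v at *
  generalize cosh a = k at *
  generalize sinh a = s at *
  have q1 : u ^ 2 ≤ E ^ 2 := pow_le_pow_left₀ (by linarith only [px]) (by linarith only [h2, cx]) 2
  have q2 : v ^ 2 ≤ E ^ 2 := pow_le_pow_left₀ (by linarith only [py]) (by linarith only [h2, cy]) 2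
  have q3 : u * v ≤ E ^ 2 := by
    rw [sq]
    exact mul_le_mul (by linarith only [h2, cx]) (by linarith only [h2, cy]) (by linarith only [py]) pe.le
  have q4 : E ^ 2 ≤ (2 * c) ^ 2 := pow_le_pow_left₀ pe.le h1 2
  have q5 : k * (u * v) ≤ (1 + s) * E ^ 2 :=
    mul_le_mul h3 q3 (by positivity) (by linarith only [ps])
  have q6 : 0 ≤ k * (u * v) := by positivity
  have q7 : 1 ≤ E ^ 2 := one_le_pow₀ (by linarith only [h2, px, cx])
  have q8 : s ^ 2 * 1 ≤ s ^ 2 * E ^ 2 := mul_le_mul_of_nonneg_left q7 (sq_nonneg s)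
  have q9 : 0 ≤ s * E ^ 2 := by positivity
  have q10 : 0 ≤ s ^ 2 * E ^ 2 := by positivity
  constructor
  · rcases cz with h | h <;> rw [h] at q4 <;> linarith only [q4, q6, sq_nonneg s, sq_nonneg u, sq_nonneg v, sq_nonneg v, sq_nonneg s, sq_nonneg u]
  · linarith only [q1, q2, q5, q8, q9, sq_nonneg s]

end HRT
end

-- merged part: Pool.Agent.Work.MP_35beee_gt.CSeq
section
/-!
The sequence of objects crossed by a closed geodesic; distances between consecutive objects.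

Plan. `exists_seq`: the objects `m` with the repelling point of `g` inside and the attracting point
in the gap are linearly ordered by `xp (ax g) (ax m)` (`nest_iff_xp`, `OSys.nc`, `ends_ne`,
`eq_of_ax_eq`), finitely many in each bounded interval (`finite_level`), and conjugation by `g`
shifts by `tl g`; enumerate those in `Ico 0 (tl g)` and extend periodically. A separating object
would be a member between two consecutive ones. If `g` is simple, an interlacing translate of a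
consecutive pair gives a translate of the axis that crosses the axis (`ccw_gaps`). The count is
`inter_eq_ncard` (each line occurs with exactly one orientation).
`exists_arc`: `SPair.exists_frame`, `IsMark.frame`, `Face.TT_eq`. If `x = b` take `r = 1 / 2` and
both curves equal to `y`: `TT a b = qch y + qch a * qch b` (`Frame.lift`). Otherwise `r = 1`,
`TT a b = 2 T ^ 2 - s ^ 2 - 2 s ^ 2 * qsh x ^ 2` with `T = qch y + qch a * qch x`, `s = qsh a`
(`TT_conj`), which lies between `2 * qch y ^ 2 + 2 * qch x ^ 2` and `2 T ^ 2`.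
-/

namespace HRT

open Set Filter Topology Real

variable {Γ : Type*} [Group Γ] {ρ σ : Γ →* Isom} {O : Set Γ} {g : Γ} {p : ℕ} {m : ℤ → Γ}

/-- The sequence of objects crossed by `g`. -/
structure XSeq (ρ : Γ →* Isom) (O : Set Γ) (g : Γ) (p : ℕ) (m : ℤ → Γ) : Prop where
  mem : ∀ i, m i ∈ O
  hyp : ∀ i, Hyp (ρ (m i))
  per : ∀ i, m (i + p) = g * m i * g⁻¹
  chain : Chain (ρ g) p fun i => ax (ρ (m i))
  adj : ∀ i, Adj ρ O (m i)⁻¹ (m (i + 1))
  count : ∀ x ∈ O, Hyp (ρ x) → {i : ℕ | i < p ∧ m i ∈ cls ρ x}.ncard = inter ρ g x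

/-- The objects that cross the line `A` from its left to its right. -/
def CSeqX (ρ : Γ →* Isom) (O : Set Γ) (A : Geo) : Set Γ :=
  {a | a ∈ O ∧ Hyp (ρ a) ∧ side (ax (ρ a)) A.src.1 < 0 ∧ 0 < side (ax (ρ a)) A.tgt.1}

section
variable {A : Geo} {a b : Γ}

theorem CSeq_inv (h : Hyp (ρ a)) : ax (ρ a⁻¹) = (ax (ρ a)).rev := by
  rw [map_inv, h.ax_inv]

theorem CSeq_cross (h : a ∈ CSeqX ρ O A) : Cross A (ax (ρ a)) :=
  Cross.symm (mul_neg_of_neg_of_pos h.2.2.1 h.2.2.2)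

theorem CSeq_nest (hO : OSys ρ O) (ha : a ∈ CSeqX ρ O A) (hb : b ∈ CSeqX ρ O A) :
    Nest (ax (ρ a)) (ax (ρ b)) ↔ xp A (ax (ρ b)) ≤ xp A (ax (ρ a)) :=
  nest_iff_xp (hO.nc a ha.1 b hb.1 ha.2.1 hb.2.1) ha.2.2.2 ha.2.2.1 hb.2.2.2 hb.2.2.1

theorem CSeq_inj (hO : OSys ρ O) (hρ : Disc ρ) (ha : a ∈ CSeqX ρ O A) (hb : b ∈ CSeqX ρ O A)
    (h : xp A (ax (ρ a)) = xp A (ax (ρ b))) : a = b :=
  hρ.eq_of_ax_eq ha.2.1 (hO.simple hρ ha.1 ha.2.1).prim hb.2.1 (hO.simple hρ hb.1 hb.2.1).prim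
    (((CSeq_nest hO ha hb).2 h.ge).antisymm ((CSeq_nest hO hb ha).2 h.le))

theorem CSeq_orient (hO : OSys ρ O) (ha : a ∈ O) (h : Hyp (ρ a)) (hc : Cross A (ax (ρ a))) :
    ∃ c ∈ CSeqX ρ O A, (c = a ∨ c = a⁻¹) ∧ xp A (ax (ρ c)) = xp A (ax (ρ a)) := by
  rcases mul_neg_iff.1 hc.symm with h1 | h1
  · refine ⟨a⁻¹, ⟨hO.inv a ha h, POs_hyp_inv h, ?_, ?_⟩, Or.inr rfl, ?_⟩
    · rw [CSeq_inv h, side_rev]
      linarith [h1.1]
    · rw [CSeq_inv h, side_rev]
      linarith [h1.2]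
    · rw [CSeq_inv h, xp_rev_right]
  · exact ⟨a, ⟨ha, h, h1.1, h1.2⟩, Or.inl rfl, rfl⟩

theorem CSeq_fin (hO : OSys ρ O) (hρ : Disc ρ) (A : Geo) (s t : ℝ) :
    {a ∈ CSeqX ρ O A | xp A (ax (ρ a)) ∈ Ico s t}.Finite := by
  refine (PAdj_fin hO hρ (pt A (s - 1)) (pt A t)).subset ?_
  rintro a ⟨ha, h1, h2⟩
  have hc := CSeq_cross ha
  refine ⟨ha.1, ha.2.1, ?_, ?_⟩
  · rw [ha.2.1.ins_iff]
    have h3 := (side_pt_mul_pos_iff hc (s - 1)).not.2 (by linarith)
    have h4 := (side_pt_eq_zero_iff hc (s - 1)).not.2 (by linarith)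
    by_contra h5
    exact h3 (mul_pos (lt_of_le_of_ne (not_lt.1 h5) (Ne.symm h4)) ha.2.2.2)
  · rw [ha.2.1.ins_iff]
    have h3 := (side_pt_mul_pos_iff hc t).2 h2
    exact not_lt.2 ((mul_pos_iff_of_pos_right ha.2.2.2).1 h3).le

theorem CSeq_conj (hO : OSys ρ O) (ha : a ∈ CSeqX ρ O A) {k : Γ} (hk : ρ k • A = A) :
    k * a * k⁻¹ ∈ CSeqX ρ O A ∧
      xp A (ax (ρ (k * a * k⁻¹))) = xp A (ax (ρ a)) + sh (ρ k) A := by
  have h1 : ρ k • A.src = A.src := by rw [← Geo.src_smul, hk]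
  have h2 : ρ k • A.tgt = A.tgt := by rw [← Geo.tgt_smul, hk]
  refine ⟨⟨hO.conj a ha.1 k, GInter_hyp_conj ha.2.1 (POs_isConj k a), ?_, ?_⟩, ?_⟩
  · rw [ax_conj' ha.2.1, ← h1, side_smul_circ_neg]
    exact ha.2.2.1
  · rw [ax_conj' ha.2.1, ← h2, side_smul_circ_pos]
    exact ha.2.2.2
  · rw [ax_conj' ha.2.1, ← xp_smul (ρ k) (CSeq_cross ha), hk]

theorem CSeq_ne (hO : OSys ρ O) (hρ : Disc ρ) (ha : a ∈ CSeqX ρ O A) (hb : b ∈ CSeqX ρ O A)
    (hne : b ≠ a) :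
    side (ax (ρ a)) (ax (ρ b)).src.1 ≠ 0 ∧ side (ax (ρ a)) (ax (ρ b)).tgt.1 ≠ 0 := by
  have h2 : b ≠ a⁻¹ := by
    rintro rfl
    have h3 := hb.2.2.2
    rw [CSeq_inv ha.2.1, side_rev] at h3
    linarith [ha.2.2.2]
  obtain ⟨h3, h4⟩ := hO.ends_ne hρ ha.1 hb.1 hne h2
  rw [PObj_hyp ha.2.1, hb.2.1.lo_eq] at h3
  rw [PObj_hyp ha.2.1, hb.2.1.hi_eq] at h4
  exact ⟨right_ne_zero_of_mul h4, right_ne_zero_of_mul h3⟩

theorem CSeq_face (ha : Hyp (ρ a)) (hb : Hyp (ρ b)) (h : Face (ρ a⁻¹) (ρ b)) :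
    Nest (ax (ρ b)) (ax (ρ a)) := by
  have h1 := ((face_iff_nest (POs_hyp_inv ha) hb).1 h).1
  rwa [CSeq_inv ha, Geo.rev_rev] at h1

theorem CSeq_adj (hO : OSys ρ O) (hρ : Disc ρ) (ha : a ∈ CSeqX ρ O A) (hb : b ∈ CSeqX ρ O A)
    (h : xp A (ax (ρ a)) < xp A (ax (ρ b)))
    (hc : ∀ c ∈ CSeqX ρ O A, xp A (ax (ρ a)) < xp A (ax (ρ c)) →
      xp A (ax (ρ b)) ≤ xp A (ax (ρ c))) : Adj ρ O a⁻¹ b := by
  have hne : b ≠ a := fun e => by rw [e] at h; exact lt_irrefl _ h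
  obtain ⟨h1, h2⟩ := CSeq_ne hO hρ ha hb hne
  refine ⟨hO.inv a ha.1 ha.2.1, hb.1, ?_, fun c hcO hs => ?_⟩
  · rw [face_iff_nest (POs_hyp_inv ha.2.1) hb.2.1, CSeq_inv ha.2.1, Geo.rev_rev, side_rev, side_rev]
    exact ⟨(CSeq_nest hO hb ha).2 h.le, neg_ne_zero.2 h1, neg_ne_zero.2 h2⟩
  · obtain ⟨hh, f1, f2⟩ := hs
    have n1 := CSeq_face ha.2.1 hh f1
    have n2 := CSeq_face hh hb.2.1 f2
    have hcX : c ∈ CSeqX ρ O A := by
      refine ⟨hcO, hh, ?_, (nest_iff_circ _ _).1 n2 _ hb.2.2.2⟩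
      have h3 := (nest_iff_circ _ _).1 n1.rev A.src (by rw [side_rev]; linarith [ha.2.2.1])
      rw [side_rev] at h3
      linarith
    rcases ((CSeq_nest hO hcX ha).1 n1).eq_or_lt with e | e
    · rw [← CSeq_inj hO hρ ha hcX e] at f1
      exact PAdj_self f1
    · rw [← CSeq_inj hO hρ hcX hb (le_antisymm ((CSeq_nest hO hb hcX).1 n2) (hc c hcX e))] at f2
      exact PAdj_self f2

theorem CSeq_count (hO : OSys ρ O) (hρ : Disc ρ) (hg : Hyp (ρ g)) {x : Γ} (hx : x ∈ O)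
    (h : Hyp (ρ x)) (t : ℝ) : inter ρ g x = ((fun a => xp (ax (ρ g)) (ax (ρ a))) ''
      {a ∈ CSeqX ρ O (ax (ρ g)) | a ∈ cls ρ x ∧
        xp (ax (ρ g)) (ax (ρ a)) ∈ Ico t (t + tl (ρ g))}).ncard := by
  have key : ∀ k : Γ, Cross (ax (ρ g)) (ρ k • ax (ρ x)) → ∃ c ∈ CSeqX ρ O (ax (ρ g)),
      c ∈ cls ρ x ∧ (ax (ρ c) = ρ k • ax (ρ x) ∨ ax (ρ c) = (ρ k • ax (ρ x)).rev) ∧
        xp (ax (ρ g)) (ax (ρ c)) = xp (ax (ρ g)) (ρ k • ax (ρ x)) := by
    intro k hk
    have h1 : Hyp (ρ (k * x * k⁻¹)) := GInter_hyp_conj h (POs_isConj k x)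
    have h2 : k * x * k⁻¹ ∈ cls ρ x := cls_conj (mem_cls_self x) k
    rw [← ax_conj' h] at hk ⊢
    obtain ⟨c, hc, e | e, h3⟩ := CSeq_orient hO (hO.conj x hx k) h1 hk
    · exact ⟨c, hc, e ▸ h2, Or.inl (by rw [e]), h3⟩
    · exact ⟨c, hc, e ▸ POs_inv_mem h h2, Or.inr (by rw [e, CSeq_inv h1]), h3⟩
  rw [hρ.inter_eq_ncard hg h (hO.simple hρ hx h).prim t,
    ← Set.InjOn.ncard_image (f := xp (ax (ρ g)))]
  · congr 1
    ext y
    constructor
    · rintro ⟨l, ⟨⟨k, rfl⟩, h1, h2⟩, rfl⟩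
      obtain ⟨c, hc, h3, -, h4⟩ := key k h1
      exact ⟨c, ⟨hc, h3, by rwa [h4]⟩, h4⟩
    · rintro ⟨c, ⟨hc, h1, h2⟩, rfl⟩
      have h3 := CSeq_cross hc
      obtain ⟨k, e | e⟩ := POs_ax h h1
      · exact ⟨_, ⟨⟨k, e⟩, h3, h2⟩, rfl⟩
      · rw [e, cross_rev_right] at h3
        rw [e, xp_rev_right] at h2
        exact ⟨_, ⟨⟨k, rfl⟩, h3, h2⟩, by simp only [e, xp_rev_right]⟩
  · rintro l ⟨⟨k, rfl⟩, h1, -⟩ l' ⟨⟨k', rfl⟩, h1', -⟩ e
    obtain ⟨c, hc, -, h3, h4⟩ := key k h1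
    obtain ⟨c', hc', -, h3', h4'⟩ := key k' h1'
    obtain rfl := CSeq_inj hO hρ hc hc' (by rw [h4, h4', e])
    rcases h3 with h3 | h3 <;> rcases h3' with h3' | h3'
    · rw [← h3, h3']
    · exact absurd (h3.symm.trans h3') (hρ.GInter_ne_rev _ k k')
    · exact absurd (h3'.symm.trans h3) (hρ.GInter_ne_rev _ k' k)
    · rw [← Geo.rev_rev (ρ k • ax (ρ x)), ← h3, h3', Geo.rev_rev]

theorem CSeq_IL {c d : Γ} (hO : OSys ρ O) (hρ : Disc ρ) (h1 : Adj ρ O a b) (h2 : Adj ρ O c d)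
    (h : IL ρ a b c d) {ξ ξ' η η' : Circ} (ha : ¬ Ins (ρ a) ξ.1) (hb : ¬ Ins (ρ b) ξ'.1)
    (hc : ¬ Ins (ρ c) η.1) (hd : ¬ Ins (ρ d) η'.1) : ccw ξ η ξ' ∧ ccw ξ' η' ξ := by
  have nac : a ≠ c := fun e => h.1.ne12 (by rw [e])
  have nbc : b ≠ c := fun e => h.1.ne23 (by rw [e])
  have nbd : b ≠ d := fun e => h.2.ne12 (by rw [e])
  have nad : a ≠ d := fun e => h.2.ne23 (by rw [e])
  have hac : Adj ρ O a c := by
    by_contra h3
    exact hO.not_IL hρ h1 h2 nac h3 h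
  have hbc := (h1.symm hO).trans hO hρ hac nbc
  have had := hac.trans hO hρ h2 nad
  have hbd := (h1.symm hO).trans hO hρ had nbd
  exact ⟨(ccw_gaps hac.face hbc.face.symm h1.face.symm ha hc hb).2 h.1,
    (ccw_gaps hbd.face had.face.symm h1.face hb hd ha).2 h.2⟩

theorem CSeq_far {l n : Geo} (h : 0 < side l n.src.1 * side l n.tgt.1) :
    0 < side n l.src.1 * side n l.tgt.1 := by
  have hc : ¬ Cross n l := fun hc => lt_asymm h hc.symm
  have h1 := GDist_sinh_sq hc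
  have h2 : 0 < sinh (ldist n l) := sinh_pos_iff.2 (by rw [ldist_comm]; exact GDist_pos h)
  have h3 := mul_pos (pow_pos h2 2) (neg_pos.2 l.B_neg)
  linarith

end

theorem OSys.exists_seq (hO : OSys ρ O) (hρ : Disc ρ) (hg : Hyp (ρ g))
    (hc : ∃ x ∈ O, Hyp (ρ x) ∧ inter ρ g x ≠ 0) : ∃ p m, XSeq ρ O g p m := by
  have hne : Nonempty (CSeqX ρ O (ax (ρ g))) := by
    obtain ⟨x, hx, h1, h2⟩ := hc
    rw [Ne, hρ.inter_eq_zero_iff hg h1 (hO.simple hρ hx h1).prim, not_forall] at h2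
    obtain ⟨k, hk⟩ := h2
    rw [not_not, ← ax_conj' h1] at hk
    obtain ⟨c, hc, -⟩ := CSeq_orient hO (hO.conj x hx k) (GInter_hyp_conj h1 (POs_isConj k x)) hk
    exact ⟨⟨c, hc⟩⟩
  have e1 : ρ g • ax (ρ g) = ax (ρ g) := hg.smul_ax
  have e2 : ρ g⁻¹ • ax (ρ g) = ax (ρ g) := by rw [map_inv, inv_smul_eq_iff, e1]
  let T : CSeqX ρ O (ax (ρ g)) ≃ CSeqX ρ O (ax (ρ g)) :=
    { toFun := fun a => ⟨g * a * g⁻¹, (CSeq_conj hO a.2 e1).1⟩
      invFun := fun a => ⟨g⁻¹ * a * g⁻¹⁻¹, (CSeq_conj hO a.2 e2).1⟩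
      left_inv := fun a => Subtype.ext (by simp [mul_assoc])
      right_inv := fun a => Subtype.ext (by simp [mul_assoc]) }
  have hT : ∀ a : CSeqX ρ O (ax (ρ g)), xp (ax (ρ g)) (ax (ρ (T a))) =
      xp (ax (ρ g)) (ax (ρ a)) + tl (ρ g) := fun a => by
    rw [← hg.sh_ax]
    exact (CSeq_conj hO a.2 e1).2
  obtain ⟨p, m, hp, hs, hm, hper⟩ := CSeqA_enum
    (fun a : CSeqX ρ O (ax (ρ g)) => xp (ax (ρ g)) (ax (ρ a)))
    (fun a b e => Subtype.ext (CSeq_inj hO hρ a.2 b.2 e))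
    (fun s t => ((CSeq_fin hO hρ (ax (ρ g)) s t).preimage Subtype.val_injective.injOn).subset
      fun a ha => ⟨a.2, ha⟩) T hg hT
  have hlt : ∀ i : ℤ, xp (ax (ρ g)) (ax (ρ (m i))) < xp (ax (ρ g)) (ax (ρ (m (i + 1)))) :=
    fun i => hm (by omega)
  have hn : ∀ i : ℤ, Nest (ax (ρ (m (i + 1)))) (ax (ρ (m i))) := fun i =>
    (CSeq_nest hO (m _).2 (m _).2).2 (hlt i).le
  have hp' : ∀ i : ℤ, (m (i + p) : Γ) = g * m i * g⁻¹ := fun i => by rw [hper]; rfl
  refine ⟨p, fun i => m i, fun i => (m i).2.1, fun i => (m i).2.2.1, hp',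
    ⟨hg, hp, fun i => ?_, fun i => (m i).2.2.2.1, fun i => (m i).2.2.2.2, hn, fun i => ?_⟩,
    fun i => CSeq_adj hO hρ (m _).2 (m _).2 (hlt i) fun c hc h1 => ?_, fun x hx h1 => ?_⟩
  · simp only [hp', ax_conj' (m i).2.2.1]
  · obtain ⟨h1, h2⟩ := CSeq_ne hO hρ (m i).2 (m (i + 1)).2 fun e => by
      have := hlt i
      rw [e] at this
      exact lt_irrefl _ this
    obtain ⟨h3, h4, -⟩ := (nest_iff_ends _ _).1 (hn i)
    exact mul_pos (lt_of_le_of_ne h3 h1.symm) (lt_of_le_of_ne h4 h2.symm)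
  · obtain ⟨j, hj⟩ := hs ⟨c, hc⟩
    obtain rfl : (m j : Γ) = c := by rw [hj]
    exact hm.monotone (show i + 1 ≤ j from hm.lt_iff_lt.1 h1)
  · rw [CSeq_count hO hρ hg hx h1 (xp (ax (ρ g)) (ax (ρ (m 0)))),
      ← Set.ncard_image_of_injective (f := fun i : ℕ => xp (ax (ρ g)) (ax (ρ (m i))))
        _ fun i j e => Int.natCast_inj.1 (hm.injective e)]
    have h2 := hT (m 0)
    rw [← hper, zero_add] at h2
    rw [← h2]
    congr 1
    ext y
    constructor
    · rintro ⟨i, ⟨h3, h4⟩, rfl⟩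
      exact ⟨m i, ⟨(m i).2, h4, hm.monotone (by omega), hm (by omega)⟩, rfl⟩
    · rintro ⟨c, ⟨hc, h3, h4, h5⟩, rfl⟩
      obtain ⟨j, hj⟩ := hs ⟨c, hc⟩
      obtain rfl : (m j : Γ) = c := by rw [hj]
      have h6 : 0 ≤ j := hm.le_iff_le.1 h4
      have h7 : j < p := hm.lt_iff_lt.1 h5
      obtain ⟨i, rfl⟩ := Int.eq_ofNat_of_zero_le h6
      exact ⟨i, ⟨by omega, h3⟩, rfl⟩

theorem XSeq.spair (h : XSeq ρ O g p m) (hO : OSys ρ O) (hρ : Disc ρ) (hg : Simple ρ g) (i : ℤ) :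
    SPair ρ O (m i)⁻¹ (m (i + 1)) := by
  have h1 := h.adj i
  have ha : ¬ Ins (ρ (m i)⁻¹) (ax (ρ g)).src.1 := by
    rw [map_inv, (h.hyp i).ins_inv_iff]
    exact not_lt.2 (h.chain.src i).le
  have hb : ¬ Ins (ρ (m (i + 1))) (ax (ρ g)).tgt.1 := by
    rw [(h.hyp _).ins_iff]
    exact not_lt.2 (h.chain.tgt _).le
  refine ⟨h1, fun k => ?_⟩
  have hc : ¬ Ins (ρ (k * (m i)⁻¹ * k⁻¹)) (ρ k • ax (ρ g)).src.1 := by
    rwa [POs_conj, Geo.src_smul, h1.face.1.ins_conj_circ]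
  have hd : ¬ Ins (ρ (k * m (i + 1) * k⁻¹)) (ρ k • ax (ρ g)).tgt.1 := by
    rwa [POs_conj, Geo.tgt_smul, h1.face.2.1.ins_conj_circ]
  have h2 := h1.conj hO k
  exact ⟨fun hI => hg.line k ((cross_iff_ccw _ _).2 (Or.inl (CSeq_IL hO hρ h1 h2 hI ha hb hc hd))),
    fun hI => hg.line k ((cross_iff_ccw _ _).2
      (Or.inr (CSeq_IL hO hρ h1 (h2.symm hO) hI ha hb hd hc)))⟩

theorem XSeq.chain_mark (h : XSeq ρ O g p m) {f : Circ ≃ₜ Circ} (hm : IsMark ρ σ f) :
    Chain (σ g) p fun i => ax (σ (m i)) := by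
  have hg := hm.hyp h.chain.hyp
  have e : ∀ i, ax (σ (m i)) = (ax (ρ (m i))).map f := fun i => (hm.hyp (h.hyp i)).2
  refine ⟨hg.1, h.chain.pos, fun i => ?_, fun i => ?_, fun i => ?_, fun i => ?_, fun i => ?_⟩
  · simp only [h.per, ax_conj' (hm.hyp (h.hyp i)).1]
  · rw [e, hg.2, Geo.src_map, hm.ori.side_neg]
    exact h.chain.src i
  · rw [e, hg.2, Geo.tgt_map, hm.ori.side_pos]
    exact h.chain.tgt i
  · rw [e, e, hm.ori.nest]
    exact h.chain.nest i
  · rw [e, e, Geo.src_map, Geo.tgt_map, mul_pos_iff, hm.ori.side_pos, hm.ori.side_pos,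
      hm.ori.side_neg, hm.ori.side_neg, ← mul_pos_iff]
    exact h.chain.far i

theorem XSeq.tl_le (h : XSeq ρ O g p m) (hO : OSys ρ O) (hρ : Disc ρ) {f : Circ ≃ₜ Circ}
    (hm : IsMark ρ σ f) : tl (σ g) ≤ ∑ i ∈ Finset.range p, (|twist (ax (σ (m i))) (ax (σ g))| +
      ldist (ax (σ (m i))) (ax (σ (m (i + 1)))) + tl (σ (m i))) := by
  have hc := h.chain_mark hm
  have hh : ∀ i, Hyp (σ (m i)) := fun i => (hm.hyp (h.hyp i)).1
  have hs : ∀ i, SimpleLine σ (ax (σ (m i))) := fun i =>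
    ((hm.osys hO).simple (hm.disc hρ) (h.mem i) (hh i)).line
  refine hc.tl_le (σ := fun i => tl (σ (m i))) (fun i => shadow_le (hh i) (hc.far i) (hs _ _))
    fun i => shadow_le (hh i) (CSeq_far ?_) (hs _ _)
  have h1 := hc.far (i - 1)
  rwa [sub_add_cancel] at h1

/-- A cusp, or a simple curve that crosses no object. -/
def Off2 (ρ : Γ →* Isom) (O : Set Γ) (x : Γ) : Prop :=
  Par (ρ x) ∨ (Simple ρ x ∧ ∀ a ∈ O, Hyp (ρ a) → inter ρ x a = 0)

theorem CSeq_off {O' : Set Γ} (hO : OSys ρ O') (hρ : Disc ρ) (hs : O ⊆ O') {x : Γ} (hx : x ∈ O') :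
    Off2 ρ O x := by
  rcases (hO.noFix hx).hyp_or_par with h | h
  · refine Or.inr ⟨hO.simple hρ hx h, fun a ha h1 => ?_⟩
    rw [hρ.inter_eq_zero_iff h h1 (hO.simple hρ (hs ha) h1).prim]
    intro k
    rw [← ax_conj' h1]
    exact hO.nc x hx _ (hO.conj a (hs ha) k) h (GInter_hyp_conj h1 (POs_isConj k a))
  · exact Or.inl h

theorem CSeq_arc {a b : Isom} (h : Face a b) (ha : Hyp a) (hb : Hyp b) {R : ℝ}
    (h1 : exp R ≤ 2 * TT a b ∧ TT a b ≤ 8 * exp R * ((1 + qsh a) * (1 + qsh b))) :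
    (∀ ε > 0, ε ≤ tl a → ε ≤ tl b → ldist (ax a) (ax b) ≤ R + CSeqA_C ε) ∧
      (tl a ≤ 1 → tl b ≤ 1 →
        |ldist (ax a) (ax b) - (R + log (1 / tl a) + log (1 / tl b))| ≤ CSeqA_C 1) := by
  rw [h.TT_eq ha hb] at h1
  exact ⟨fun ε h2 h3 h4 => CSeqA_est1 h2 h3 h4 h1.2, fun h2 h3 =>
    CSeqA_est2 ha hb h2 h3 (ldist_nonneg (h.not_cross ha hb)) h1.1 h1.2⟩

theorem exists_arc (Γ : Type*) [Group Γ] : ∃ C : ℝ → ℝ, ∀ (ρ : Γ →* Isom) (O : Set Γ) (a b : Γ),
    OSys ρ O → Disc ρ → SPair ρ O a b → Hyp (ρ a) → Hyp (ρ b) →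
      ∃ (x y : Γ) (r : ℝ), Off2 ρ O x ∧ Off2 ρ O y ∧ 0 ≤ r ∧ r ≤ 1 ∧
        ∀ (σ : Γ →* Isom) (f : Circ ≃ₜ Circ), IsMark ρ σ f →
          (∀ ε > 0, ε ≤ tl (σ a) → ε ≤ tl (σ b) →
            ldist (ax (σ a)) (ax (σ b)) ≤ r * max (tl (σ x)) (tl (σ y)) + C ε) ∧
          (tl (σ a) ≤ 1 → tl (σ b) ≤ 1 → |ldist (ax (σ a)) (ax (σ b)) -
            (r * max (tl (σ x)) (tl (σ y)) + log (1 / tl (σ a)) + log (1 / tl (σ b)))| ≤ C 1) := by
  refine ⟨CSeqA_C, fun ρ O a b hO hρ h ha hb => ?_⟩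
  obtain ⟨x, y, hf, hx, hO', -⟩ := h.exists_frame hO hρ
  have hs : O ⊆ O ∪ cls ρ x ∪ cls ρ y := fun c hc => Or.inl (Or.inl hc)
  have ox : Off2 ρ O x := CSeq_off hO' hρ hs (Or.inl (Or.inr (mem_cls_self x)))
  have oy : Off2 ρ O y := CSeq_off hO' hρ hs (Or.inr (mem_cls_self y))
  have h0 : ∀ k : Isom, 0 ≤ tl k / 2 := fun k => by linarith only [tl_nonneg k]
  rcases hx with rfl | rfl
  · refine ⟨y, y, 1 / 2, oy, oy, by norm_num, by norm_num, fun σ f hm =>
      CSeq_arc (hm.face h.1.face) (hm.hyp ha).1 (hm.hyp hb).1 ?_⟩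
    have h1 : TT (σ a) (σ x) = qch (σ y) + qch (σ a) * qch (σ x) := by
      linarith [(hm.frame hf).lift.1]
    rw [h1, max_self, show 1 / 2 * tl (σ y) = tl (σ y) / 2 by ring]
    exact CSeqA_one (h0 _) (h0 _) (h0 _)
  · refine ⟨x, y, 1, ox, oy, by norm_num, le_rfl, fun σ f hm =>
      CSeq_arc (hm.face h.1.face) (hm.hyp ha).1 (hm.hyp hb).1 ?_⟩
    have h2 := hm.frame hf
    have h1 : TT (σ a) (σ x) = qch (σ y) + qch (σ a) * qch (σ x) := by
      linarith [h2.lift.1]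
    rw [POs_conj, qsh_conj, one_mul]
    refine CSeqA_two (h0 _) (tl_nonneg _) (tl_nonneg _) ?_
    rw [TT_conj h2.2.1.1 h2.2.1.2.1, h1]
    rfl

end HRT
end

-- merged part: Pool.Agent.Work.MP_35beee_gt.CTw2
section
/-!
Twist parameters of dual curves; lengths bounded in terms of lengths and twists of a pants
decomposition.

Plan. `tw_comp`, `tw_disj`: `φ s = u * s * u⁻¹` (`IsTw.isConj`), so the twist is that of
`z u⁻¹ • ax (z (φ δ))` about `ax (z s)` (`twist_smul`); `twist_comp` or `twist_disj` in the marking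
`z` (`IsTw.of_mark`); two lifts of the simple curve `δ` do not cross, `twist_sub_le`.
`tw_le`: `IsMark.exists_twist_shift` for the two markings (`symm`, `trans`), applied to both lines.
`IsMax.tl_le`: if `β` crosses no `P i` it is an object (`mem_of_simple`). Otherwise `exists_seq`,
`XSeq.tl_le`; the curves of `exists_arc` are cusps or objects; `tw_le` with `ρ` as first marking
and the conjugate of `δ i` that crosses `m j` (`twist_smul`, `twist_rev_left`).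
`le_tl`: `sum_le_tl` with `Multi.wid` for the single curve `s`, `sum_srt`, `twist_sub_le`;
`arcosh (cosh w / sinh w) ≤ tl / 2 + C` for `w = colW tl / 2`.
-/

namespace HRT

open Set Filter Topology Real

variable {Γ : Type*} [Group Γ] {ρ : Γ →* Isom} {N : ℝ → ℝ} {ι : Type}

/-- The twist of the axis of `d` about the axis of `s`. -/
noncomputable def tw (σ : Γ →* Isom) (s d : Γ) : ℝ := twist (ax (σ s)) (ax (σ d))
/-- Two lifts of a simple curve have almost the same twist. -/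
theorem CTw2_lift {s d : Γ} (hs : Hyp (ρ s)) (hd : Simple ρ d) {c : Γ}
    (h1 : Cross (ax (ρ s)) (ρ c • ax (ρ d))) (h2 : Cross (ax (ρ s)) (ax (ρ d))) :
    |twist (ax (ρ s)) (ρ c • ax (ρ d)) - tw ρ s d| ≤ tl (ρ s) :=
  twist_sub_le hs h1 h2 fun n => by
    rw [← map_zpow]
    exact hd.line.not_cross _ _

theorem CTw2_move [Fintype ι] {R : ι → Γ} {k : ι → ℤ} {φ : Γ ≃* Γ} (hφ : IsTw ρ R k φ)
    (hρ : Disc ρ) (hR : Multi ρ R) {s d : Γ} (hs : Hyp (ρ s)) (hd : Hyp (ρ d))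
    (h0 : ∀ i, inter ρ s (R i) = 0) (hc : Cross (ax (ρ s)) (ax (ρ d))) :
    ∃ c : Γ, Cross (ax (ρ s)) (ρ c • ax (ρ (φ d))) ∧
      tw ρ (φ s) (φ d) = twist (ax (ρ s)) (ρ c • ax (ρ (φ d))) := by
  obtain ⟨f, hf⟩ := hφ.exists_mark hρ hR
  obtain ⟨u, hu⟩ := isConj_iff.1 (hφ.isConj hρ hR hs h0)
  have h1 : Cross (ax (ρ (φ s))) (ax (ρ (φ d))) := by
    have h2 := (hf.ori.cross _ _).2 hc
    rwa [← (hf.hyp hs).2, ← (hf.hyp hd).2] at h2
  have e : ax (ρ (φ d)) = ρ u • ρ u⁻¹ • ax (ρ (φ d)) := by rw [map_inv, smul_inv_smul]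
  rw [← hu, ax_conj' hs, e, cross_smul] at h1
  refine ⟨u⁻¹, h1, ?_⟩
  rw [← twist_smul (ρ u) h1, ← e, ← ax_conj' hs, hu, tw]

theorem CTw2_cross {σ : Γ →* Isom} {f : Circ ≃ₜ Circ} (hm : IsMark ρ σ f) {s d : Γ}
    (hs : Hyp (ρ s)) (hd : Hyp (ρ d)) (hc : Cross (ax (ρ s)) (ax (ρ d))) :
    Cross (ax (σ s)) (ax (σ d)) := by
  rwa [(hm.hyp hs).2, (hm.hyp hd).2, hm.ori.cross]


theorem IsTw.tw_comp [Fintype ι] {R : ι → Γ} {k : ι → ℤ} {φ : Γ ≃* Γ} (hφ : IsTw ρ R k φ)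
    (hρ : Disc ρ) (hR : Multi ρ R) (z : Rep ρ) {d : Γ} (hd : Simple ρ d) {i : ι}
    (hc : Cross (ax (ρ (R i))) (ax (ρ d))) :
    |tw z.1 (φ (R i)) (φ d) - tw z.1 (R i) d - k i * tl (z.1 (R i))| ≤ 3 * tl (z.1 (R i)) := by
  obtain ⟨σ, f, hm⟩ := z
  have hσ := hm.disc hρ
  have hRσ := (hm.multi_iff R).2 hR
  have hdσ := (hm.simple_iff d).2 hd
  have hs := (hRσ.1 i).hyp
  have hcσ := CTw2_cross hm (hR.1 i).hyp hd.hyp hc
  obtain ⟨c, h1, h2⟩ := CTw2_move (hφ.of_mark hm) hσ hRσ hs hdσ.hyp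
    (CTw_zero hσ hRσ (hRσ.sys hσ) hs (CTw_ax' i)) hcσ
  obtain ⟨c', h3, h4⟩ := (hφ.of_mark hm).twist_comp hσ hRσ hdσ.hyp i h1
  have h5 := CTw2_lift hs hdσ h3 hcσ
  rw [← h2, abs_le] at h4
  rw [abs_le] at h5 ⊢
  constructor <;> linarith only [hm, h4, h5, h4.1, h4.2, h5.1, h5.2]

theorem IsTw.tw_disj [Fintype ι] {R : ι → Γ} {k : ι → ℤ} {φ : Γ ≃* Γ} (hφ : IsTw ρ R k φ)
    (hρ : Disc ρ) (hR : Multi ρ R) (z : Rep ρ) {s d : Γ} (hs : Hyp (ρ s)) (hd : Simple ρ d)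
    (h0 : ∀ i, inter ρ s (R i) = 0) (h1 : ax (ρ s) ∉ lifts ρ R)
    (hc : Cross (ax (ρ s)) (ax (ρ d))) : |tw z.1 (φ s) (φ d) - tw z.1 s d| ≤ 3 * tl (z.1 s) := by
  obtain ⟨σ, f, hm⟩ := z
  have hσ := hm.disc hρ
  have hRσ := (hm.multi_iff R).2 hR
  have hdσ := (hm.simple_iff d).2 hd
  have hcσ := CTw2_cross hm hs hd.hyp hc
  obtain ⟨hsσ, es⟩ := hm.hyp hs
  have h0σ : ∀ i, inter σ s (R i) = 0 := fun i => by rw [hm.inter_eq, h0]
  obtain ⟨c, h2, h3⟩ := CTw2_move (hφ.of_mark hm) hσ hRσ hsσ hdσ.hyp h0σ hcσ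
  obtain ⟨c', h4, h5⟩ := (hφ.of_mark hm).twist_disj hσ hRσ hdσ.hyp hsσ h0σ
    (by rwa [es, hm.mem_lifts fun i => (hR.1 i).hyp]) h2
  have h6 := CTw2_lift hsσ hdσ h4 hcσ
  rw [← h3, abs_le] at h5
  rw [abs_le] at h6 ⊢
  constructor <;> linarith only [hm, h5, h6, h5.1, h5.2, h6.1, h6.2]

theorem Duals.exists_norm [Finite ι] {P δ : ι → Γ} (h : Duals ρ P δ) (hρ : Disc ρ) (z : Rep ρ) :
    ∃ φ : Γ ≃* Γ, IsMod ρ φ ∧
      (∀ g, Hyp (ρ g) → (∀ i, inter ρ g (P i) = 0) → IsConj g (φ g)) ∧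
      ∀ i, |tw z.1 (φ (P i)) (φ (δ i))| ≤ 4 * tl (z.1 (P i)) := by
  have := Fintype.ofFinite ι
  obtain ⟨f, hm⟩ := z.2
  choose k hk using fun i => GInter_exists_shift (hm.hyp (h.multi.1 i).hyp).1
    (tw z.1 (P i) (δ i)) 0
  obtain ⟨φ, hφ⟩ := exists_isTw hρ h.multi k
  refine ⟨φ, hφ.isMod hρ h.multi, fun g hg h0 => hφ.isConj hρ h.multi hg h0, fun i => ?_⟩
  have h1 := abs_le.1 (hφ.tw_comp hρ h.multi z (h.simple i) (h.cross i))
  have h2 := hk i
  have h3 := tl_nonneg (z.1 (P i))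
  exact abs_le.2 ⟨by linarith only [h1, h2, h1.1, h2.1], by linarith [h1.2, h2.2]⟩

theorem tw_le (y z : Rep ρ) {s d g : Γ} (hs : Hyp (ρ s)) (hd : Hyp (ρ d)) (hg : Hyp (ρ g))
    (h1 : Cross (ax (ρ s)) (ax (ρ d))) (h2 : Cross (ax (ρ s)) (ax (ρ g))) :
    |tw z.1 s g| ≤ |tw z.1 s d| +
      tl (z.1 s) * ((|tw y.1 s g| + |tw y.1 s d|) / tl (y.1 s) + 4) := by
  obtain ⟨σ, f, hm⟩ := y
  obtain ⟨σ', f', hm'⟩ := z
  have hk := hm.symm.trans hm'
  have hsσ := (hm.hyp hs).1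
  obtain ⟨t, ht⟩ := hk.exists_twist_shift hsσ
  have h3 := ht _ (CTw2_cross hm hs hd h1)
  have h4 := ht _ (CTw2_cross hm hs hg h2)
  rw [← (hk.hyp (hm.hyp hd).1).2] at h3
  rw [← (hk.hyp (hm.hyp hg).1).2] at h4
  have h5 : 0 < tl (σ s) := hsσ
  have h6 : 0 < tl (σ' s) := (hm'.hyp hs).1
  simp only [tw]
  generalize twist (ax (σ' s)) (ax (σ' g)) = a at *
  generalize twist (ax (σ' s)) (ax (σ' d)) = b at *
  generalize twist (ax (σ s)) (ax (σ g)) = c at *
  generalize twist (ax (σ s)) (ax (σ d)) = e at *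
  generalize tl (σ s) = p at *
  generalize tl (σ' s) = q at *
  have h7 : |a| / q ≤ |b| / q + ((|c| + |e|) / p + 4) := by
    rw [add_div, ← abs_of_pos h5, ← abs_of_pos h6, ← abs_div, ← abs_div, ← abs_div, ← abs_div]
    rw [abs_le] at h3 h4 ⊢
    constructor <;> linarith only [h4, h3, h3.1, h3.2, h4.1, h4.2, le_abs_self (b / q), neg_abs_le (b / q),
      le_abs_self (c / p), neg_abs_le (c / p), le_abs_self (e / p), neg_abs_le (e / p)]
  rwa [div_le_iff₀' h6, mul_add, mul_div_cancel₀ _ h6.ne'] at h7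

theorem tw_conj (σ : Γ →* Isom) {s d : Γ} (hs : Hyp (σ s)) (hd : Hyp (σ d))
    (h : Cross (ax (σ s)) (ax (σ d))) (u : Γ) :
    tw σ (u * s * u⁻¹) (u * d * u⁻¹) = tw σ s d ∧ tw σ s⁻¹ d = tw σ s d := by
  refine ⟨?_, ?_⟩
  · rw [tw, ax_conj' hs, ax_conj' hd, twist_smul _ h, tw]
  · rw [tw, GSys_ax_inv hs, twist_rev_left h, tw]

/-- The multicurve is a pants decomposition. -/
def IsMax (ρ : Γ →* Isom) (P : ι → Γ) : Prop :=
  ∃ (n : ℕ) (nx : Equiv.Perm (Fin n)) (E : Fin n → Γ), IsPants ρ nx E ∧ objs E = Obj ρ P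
theorem CTw2_mem {P : ι → Γ} {a : Γ} (ha : a ∈ Obj ρ P) (h : Hyp (ρ a)) :
    ∃ i, a ∈ cls ρ (P i) := ha.resolve_right fun hc => h.not_par hc.1

theorem CTw2_off {P : ι → Γ} (h : IsMax ρ P) (hρ : Disc ρ) {a : Γ} (ha : Off2 ρ (Obj ρ P) a)
    {L : ℝ} (x : Rep ρ) (hx : ∀ i, tl (x.1 (P i)) ≤ L) : tl (x.1 a) ≤ max L 0 := by
  obtain ⟨n, nx, E, hE, e⟩ := h
  rcases ha with ha | ⟨ha, h0⟩
  · obtain ⟨f, hm⟩ := x.2
    exact (hm.par ha).1.2.le.trans (le_max_right _ _)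
  · have h1 := hE.mem_of_simple hρ ha fun m hm hh => by
      simpa using (hρ.inter_eq_zero_iff ha.hyp hh (hE.sys.simple hρ hm hh).prim).1
        (h0 m (e ▸ hm) hh) 1
    obtain ⟨i, hi⟩ := CTw2_mem (e ▸ h1) ha.hyp
    rw [tl_of_mem_cls hi]
    exact (hx i).trans (le_max_left _ _)

theorem CTw2_obj {P δ : ι → Γ} (hd : Duals ρ P δ) (hρ : Disc ρ) {β a : Γ} (hβ : Hyp (ρ β))
    (ha : a ∈ Obj ρ P) (h : Hyp (ρ a)) (hc : Cross (ax (ρ a)) (ax (ρ β))) (L ε : ℝ) :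
    ∃ K : ℝ, ∀ x : Rep ρ, (∀ i, tl (x.1 (P i)) ≤ L) →
      (∀ i, inter ρ β (P i) ≠ 0 → ε ≤ tl (x.1 (P i)) ∧ |tw x.1 (P i) (δ i)| ≤ L) →
        ε ≤ tl (x.1 a) ∧ tl (x.1 a) ≤ L ∧ |tw x.1 a β| ≤ K := by
  obtain ⟨i, hi⟩ := CTw2_mem ha h
  have hP := hd.multi.1 i
  have hδ := (hd.simple i).hyp
  have h1 : inter ρ β (P i) ≠ 0 := fun h0 => by
    obtain ⟨g, hg⟩ := POs_ax hP.hyp hi
    refine (hρ.inter_eq_zero_iff hβ hP.hyp hP.prim).1 h0 g ?_
    rcases hg with hg | hg <;> simpa [hg] using hc.symm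
  obtain ⟨d, h2, h3, h4⟩ : ∃ d, Hyp (ρ d) ∧ Cross (ax (ρ a)) (ax (ρ d)) ∧
      ∀ x : Rep ρ, tw x.1 a d = tw x.1 (P i) (δ i) := by
    rcases hi with hi | ⟨-, hi⟩ <;> obtain ⟨u, rfl⟩ := isConj_iff.1 hi <;>
      refine ⟨u * δ i * u⁻¹, ((hd.simple i).conj u).hyp, ?_, fun ⟨σ, f, hm⟩ => ?_⟩
    · rw [ax_conj' hP.hyp, ax_conj' hδ, cross_smul]
      exact hd.cross i
    · exact (tw_conj σ (hm.hyp hP.hyp).1 (hm.hyp hδ).1
        (CTw2_cross hm hP.hyp hδ (hd.cross i)) u).1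
    · rw [ax_conj' hP.inv.hyp, ax_conj' hδ, cross_smul, GSys_ax_inv hP.hyp, cross_rev_left]
      exact hd.cross i
    · have h5 := CTw2_cross hm hP.hyp hδ (hd.cross i)
      refine (tw_conj σ (hm.hyp hP.inv.hyp).1 (hm.hyp hδ).1 ?_ u).1.trans
        (tw_conj σ (hm.hyp hP.hyp).1 (hm.hyp hδ).1 h5 u).2
      rwa [GSys_ax_inv (hm.hyp hP.hyp).1, cross_rev_left]
  refine ⟨L + L * ((|tw ρ a β| + |tw ρ a d|) / tl (ρ a) + 4), fun x h5 h6 => ?_⟩
  have h7 := tw_le ⟨ρ, _, IsMark.refl ρ⟩ x h h2 hβ h3 hc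
  rw [tl_of_mem_cls hi x.1] at h7 ⊢
  refine ⟨(h6 i h1).1, h5 i, h7.trans (add_le_add (h4 x ▸ (h6 i h1).2)
    (mul_le_mul_of_nonneg_right (h5 i) ?_))⟩
  have h8 := tl_nonneg (ρ a)
  positivity


theorem IsMax.tl_le [Finite ι] {P δ : ι → Γ} (h : IsMax ρ P) (hd : Duals ρ P δ) (hρ : Good ρ N)
    {β : Γ} (hβ : Simple ρ β) (L : ℝ) {ε : ℝ} (hε : 0 < ε) : ∃ C : ℝ, ∀ x : Rep ρ,
      (∀ i, tl (x.1 (P i)) ≤ L) →
        (∀ i, inter ρ β (P i) ≠ 0 → ε ≤ tl (x.1 (P i)) ∧ |tw x.1 (P i) (δ i)| ≤ L) →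
          tl (x.1 β) ≤ C := by
  have hD := hρ.toDisc
  by_cases hc : ∃ a ∈ Obj ρ P, Hyp (ρ a) ∧ inter ρ β a ≠ 0
  swap
  · exact ⟨max L 0, fun x hx _ => CTw2_off h hD (Or.inr ⟨hβ, fun a ha hh =>
      by_contra fun h0 => hc ⟨a, ha, hh, h0⟩⟩) x hx⟩
  have hO := osys_obj hρ hd.multi
  obtain ⟨p, m, hs⟩ := hO.exists_seq hD hβ.hyp hc
  obtain ⟨C, hC⟩ := exists_arc Γ
  choose K hK using fun j => CTw2_obj hd hD hβ.hyp (hs.mem j) (hs.hyp j)
    (mul_neg_of_neg_of_pos (hs.chain.src j) (hs.chain.tgt j)) L ε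
  refine ⟨∑ j ∈ Finset.range p, (K j + (max L 0 + C ε) + L), fun x h1 h2 => ?_⟩
  obtain ⟨f, hm⟩ := x.2
  refine (hs.tl_le hO hD hm).trans (Finset.sum_le_sum fun j _ => ?_)
  obtain ⟨h3, h4, h5⟩ := hK j x h1 h2
  obtain ⟨u, v, r, hu, hv, r0, r1, h6⟩ := hC ρ _ _ _ hO hD (hs.spair hO hD hβ j)
    (POs_hyp_inv (hs.hyp j)) (hs.hyp (j + 1))
  have h7 := (h6 _ f hm).1 ε hε (by rwa [map_inv, tl_inv]) (hK (j + 1) x h1 h2).1
  rw [GSys_ax_inv (hm.hyp (hs.hyp j)).1, ldist_rev_left] at h7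
  refine add_le_add (add_le_add h5 (h7.trans (add_le_add_left ?_ _))) h4
  exact (mul_le_of_le_one_left ((tl_nonneg _).trans (le_max_left _ _)) r1).trans
    (max_le (CTw2_off h hD hu x h1) (CTw2_off h hD hv x h1))
theorem CTw2_coth {T : ℝ} (hT : 0 < T) :
    arcosh (cosh (colW T / 2) / sinh (colW T / 2)) ≤ T / 2 + 2 := by
  have h1 : 0 < sinh (colW T / 2) := sinh_pos_iff.2 (half_pos (colW_pos hT))
  have h2 := cosh_pos (colW T / 2)
  have h3 : 0 < sinh (T / 2) := sinh_pos_iff.2 (half_pos hT)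
  have h4 : 2 * sinh (colW T / 2) * cosh (colW T / 2) * sinh (T / 2) = 1 := by
    rw [← sinh_two_mul, mul_div_cancel₀ _ two_ne_zero, colW, sinh_arsinh, one_div_mul_cancel h3.ne']
  have h5 := cosh_sq (colW T / 2)
  have h6 := sinh_lt_cosh (colW T / 2)
  rw [← arcosh_cosh (show 0 ≤ T / 2 + 2 by positivity),
    arcosh_le_arcosh (div_pos h2 h1) (cosh_pos _)]
  generalize sinh (colW T / 2) = a at *
  generalize cosh (colW T / 2) = c at *
  have h7 : c / a ≤ 2 * sinh (T / 2) + 1 := by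
    rw [div_le_iff₀ h1]
    refine le_of_mul_le_mul_right ?_ h2
    linarith only [h4, h5, h1, h6, mul_pos_of_neg_of_neg (Mathlib.Tactic.Linarith.sub_neg_of_lt h1) (Mathlib.Tactic.Linarith.sub_neg_of_lt h6)]
  refine h7.trans ?_
  have h8 := add_one_le_exp (2 : ℝ)
  have h9 := one_le_exp (half_pos hT).le
  have h10 := exp_pos (-(T / 2))
  have h11 := exp_pos (-(T / 2 + 2))
  have h12 : exp 2 = exp 1 * exp 1 := by rw [← exp_add, one_add_one_eq_two]
  have h13 := add_one_le_exp (1 : ℝ)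
  have h14 : 4 ≤ exp 2 := by linarith only [h12, h13, mul_nonneg_of_nonpos_of_nonpos (Mathlib.Tactic.Linarith.sub_nonpos_of_le h13) (Mathlib.Tactic.Linarith.sub_nonpos_of_le h13)]
  rw [sinh_eq, cosh_eq, exp_add]
  linarith only [h9, h10, h11, h14, h8, mul_nonneg_of_nonpos_of_nonpos (Mathlib.Tactic.Linarith.sub_nonpos_of_le h8) (Mathlib.Tactic.Linarith.sub_nonpos_of_le h9)]


theorem exists_le_tl_dual (hρ : Disc ρ) {ε : ℝ} (hε : 0 < ε) : ∃ C : ℝ, ∀ (z : Rep ρ) (s d : Γ),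
    Simple ρ s → Simple ρ d → Cross (ax (ρ s)) (ax (ρ d)) → ε ≤ tl (z.1 s) →
      (inter ρ d s : ℝ) * (|tw z.1 s d| - 2 * tl (z.1 s) - C) ≤ tl (z.1 d) := by
  refine ⟨8, fun ⟨σ, f, hm⟩ s d hs hd hc _ => ?_⟩
  have hσ := hm.disc hρ
  have hcσ := CTw2_cross hm hs.hyp hd.hyp hc
  rw [← hm.simple_iff] at hs hd
  have hR := multi_single hs
  have hL := hR.sys hσ
  obtain ⟨u, hu⟩ := GTwist2_off hL fun hA => hL.nc _ (CTw_ax' (R := fun _ => s) ()) _ hA hcσ
  have h1 := sum_le_tl hL (hR.wid (wd := fun _ => colW (tl (σ s)) / 2) hσ (fun _ _ _ => rfl)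
    (half_pos (colW_pos hs.hyp)) fun _ => le_rfl) hd.hyp hu
  have h2 := hσ.sum_srt hR hd.hyp hu (W := fun _ => |tw σ s d| - 2 * tl (σ s) - 8)
    (w := fun _ => |tw σ s d| - 2 * tl (σ s) - 8) fun _ _ _ => rfl
  rw [Fintype.sum_unique, hm.inter_eq] at h2
  refine ((mul_comm _ _).trans h2.symm).trans_le
    (le_trans (List.sum_le_sum fun l hl => ?_) h1)
  obtain ⟨⟨_, c, hlc⟩, hl2, -⟩ := GTwLen_mem hL hd.hyp hl
  have h3 := hl2.cross
  have key : Cross (σ c • ax (σ s)) (ax (σ d)) →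
      |tw σ s d| - tl (σ s) ≤ |twist (σ c • ax (σ s)) (ax (σ d))| := fun h4 => by
    have e : ax (σ d) = σ c • σ c⁻¹ • ax (σ d) := by rw [map_inv, smul_inv_smul]
    rw [e, cross_smul] at h4
    have h5 := CTw2_lift hs.hyp hd h4 hcσ
    rw [← twist_smul (σ c) h4, ← e] at h5
    linarith only [h5, abs_sub_abs_le_abs_sub (tw σ s d) (twist (σ c • ax (σ s)) (ax (σ d))),
      abs_sub_comm (tw σ s d) (twist (σ c • ax (σ s)) (ax (σ d)))]
  have h6 := CTw2_coth hs.hyp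
  have h7 := colW_pos hs.hyp
  rcases hlc with rfl | rfl
  · linarith only [h6, h7, key, h3, key h3]
  · rw [cross_rev_left] at h3
    rw [twist_rev_left h3]
    linarith only [h6, h7, key, h3, key h3]

end HRT
end

-- merged part: Pool.Agent.Work.MP_35beee_gt.CExact
section
/-!
Exact bounds for the length of a curve after twisting.

Plan. Fix a line `l₀` and the perpendicular line `m₀` through `pt l₀ 0`. A lift `c`, `u` is read as
the matrix with diagonal entries `c + x`, `c - x` and off-diagonal entries `y + z`, `y - z`, where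
`x`, `y`, `z` are the coordinates of `u` in the basis `nrm l₀`, `nrm m₀`, `pt l₀ 0` (up to signs);
`qm_qm` becomes matrix multiplication; `trans l₀ s` is diagonal with entries `exp (s / 2)`,
`exp (-s / 2)`, and `trans m₀ d`, `d ≥ 0`, has entries `cosh (d / 2) ≥ 1` and `sinh (d / 2) ≥ 0`.
`abs_sum_le_tl`: by induction the product has nonnegative entries and diagonal entries at least
`exp (S / 2)`, `exp (-S / 2)` with `S = ∑ s`. `tl_prod_le`: entrywise comparison gives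
`tl ≤ tl' + ∑ |s - s'| + 2 log 2`; apply this to powers (repeat the lists), or argue with a broken
path. For the list `srt L p (g • p) = [l 1, ..., l k]` along the axis of `g` (nested lines with no
common ends, `Sys.side_ne_zero`, `exists_perp`) let `F i` move `l₀` to `l i` and `pt l₀ 0` to the
foot of the perpendicular from the previous line. Then `(F i)⁻¹ * F (i + 1)` is
`trans l₀ (S i) * trans m₀ (± d i)` with a fixed sign, `F (k + 1) = g * F 1`, and the product of the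
`trans (l i) (-τ i)` with `g` is conjugate to the same product with `S i - τ i` in place of `S i`
(`trans_conj`, `trans_add`). `sum_srt` finishes the proof.
-/

namespace HRT

open Set Filter Topology Real

/-- The isometry `g` is given by the matrix with entries `a`, `b`, `c`, `d`. -/
def CExact_R (e f : V) (g : Isom) (a b c d : ℝ) : Prop :=
  IsLift g ((a + d) / 2) (((a - d) / 2) • e + ((b + c) / 2) • f + ((b - c) / 2) • cr e f)

theorem CExact_cr (e f k : V) (x y z x' y' z' : ℝ) :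
    cr (x • e + y • f + z • k) (x' • e + y' • f + z' • k) =
      (x * y' - y * x') • cr e f - (x * z' - z * x') • cr k e - (y * z' - z * y') • cr k f := by
  refine V_ext ?_ ?_ ?_ <;>
    simp only [cr_0, cr_1, cr_2, Pi.add_apply, Pi.sub_apply, Pi.smul_apply, smul_eq_mul] <;> ring

theorem CExact_R.mul {e f : V} (he : B e e = 1) (hf : B f f = 1) (h : B e f = 0) {g g' : Isom}
    {a b c d a' b' c' d' : ℝ} (h1 : CExact_R e f g a b c d) (h2 : CExact_R e f g' a' b' c' d') :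
    CExact_R e f (g * g') (a * a' + b * c') (a * b' + b * d') (c * a' + d * c')
      (c * b' + d * d') := by
  have h' : B f e = 0 := (B_comm f e).trans h
  have k1 : B e (cr e f) = 0 := (B_comm _ _).trans (B_cr_left e f)
  have k2 : B f (cr e f) = 0 := (B_comm _ _).trans (B_cr_right e f)
  have k3 : B (cr e f) (cr e f) = -1 := by
    rw [B_cr_cr, he, hf, h]
    ring
  have := IsLift.mul h1 h2
  rw [CExact_cr, cr_cr, cr_cr, he, hf, h, h'] at this
  simp only [B_add_left, B_add_right, B_smul_left, B_smul_right, he, hf, h, h', k1, k2, k3,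
    B_cr_left, B_cr_right] at this
  unfold CExact_R
  convert this using 1
  · ring
  · module

/-- Two isometries with comparable nonnegative matrices. -/
def CExact_T (e f : V) (g g' : Isom) (S δ : ℝ) : Prop :=
  ∃ a b c d a' b' c' d' S' : ℝ, CExact_R e f g a b c d ∧ CExact_R e f g' a' b' c' d' ∧
    exp S ≤ a ∧ 0 ≤ b ∧ 0 ≤ c ∧ exp (-S) ≤ d ∧ exp S' ≤ a' ∧ 0 ≤ b' ∧ 0 ≤ c' ∧ exp (-S') ≤ d' ∧
    a ≤ exp δ * a' ∧ b ≤ exp δ * b' ∧ c ≤ exp δ * c' ∧ d ≤ exp δ * d'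

theorem CExact_T.one (e f : V) : CExact_T e f 1 1 0 0 := by
  have h : CExact_R e f 1 1 0 0 1 := by
    unfold CExact_R
    convert isLift_one using 1
    · norm_num
    · simp
  exact ⟨1, 0, 0, 1, 1, 0, 0, 1, 0, h, h, by simp⟩

theorem CExact_aux {E E' x y z w x' y' z' w' : ℝ} (hx : 0 ≤ x) (hy : 0 ≤ y) (hz : 0 ≤ z)
    (hw : 0 ≤ w) (h1 : x ≤ E * x') (h2 : y ≤ E' * y') (h3 : z ≤ E * z') (h4 : w ≤ E' * w') :
    x * y + z * w ≤ E * E' * (x' * y' + z' * w') := by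
  have k1 := mul_le_mul h1 h2 hy (hx.trans h1)
  have k2 := mul_le_mul h3 h4 hw (hz.trans h3)
  linarith

theorem CExact_T.mul {e f : V} (he : B e e = 1) (hf : B f f = 1) (h : B e f = 0)
    {g g' k k' : Isom} {S δ U ε : ℝ} (h1 : CExact_T e f g g' S δ) (h2 : CExact_T e f k k' U ε) :
    CExact_T e f (g * k) (g' * k') (S + U) (δ + ε) := by
  obtain ⟨a, b, c, d, a', b', c', d', S', r, r', pa, pb, pc, pd, pa', pb', pc', pd', la, lb, lc,
    ld⟩ := h1
  obtain ⟨x, y, z, w, x', y', z', w', U', s, s', px, py, pz, pw, px', py', pz', pw', lx, ly, lz,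
    lw⟩ := h2
  have qa := (exp_pos _).le.trans pa
  have qd := (exp_pos _).le.trans pd
  have qa' := (exp_pos _).le.trans pa'
  have qd' := (exp_pos _).le.trans pd'
  have qx := (exp_pos _).le.trans px
  have qw := (exp_pos _).le.trans pw
  have qx' := (exp_pos _).le.trans px'
  have qw' := (exp_pos _).le.trans pw'
  refine ⟨_, _, _, _, _, _, _, _, S' + U', r.mul he hf h s, r'.mul he hf h s', ?_, by positivity,
    by positivity, ?_, ?_, by positivity, by positivity, ?_, ?_, ?_, ?_, ?_⟩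
  · rw [exp_add]
    exact le_add_of_le_of_nonneg (mul_le_mul pa px (exp_pos _).le qa) (by positivity)
  · rw [neg_add, exp_add]
    exact le_add_of_nonneg_of_le (by positivity) (mul_le_mul pd pw (exp_pos _).le qd)
  · rw [exp_add]
    exact le_add_of_le_of_nonneg (mul_le_mul pa' px' (exp_pos _).le qa') (by positivity)
  · rw [neg_add, exp_add]
    exact le_add_of_nonneg_of_le (by positivity) (mul_le_mul pd' pw' (exp_pos _).le qd')
  all_goals rw [exp_add]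
  exacts [CExact_aux qa qx pb pz la lx lb lz, CExact_aux qa py pb qw la ly lb lw,
    CExact_aux pc qx qd pz lc lx ld lz, CExact_aux pc py qd qw lc ly ld lw]

theorem CExact_gen {l₀ m₀ : Geo} (h : B (nrm l₀) (nrm m₀) = 0) (s d : ℝ) :
    CExact_R (nrm l₀) (nrm m₀) (trans l₀ s * trans m₀ d) (exp (s / 2) * cosh (d / 2))
      (exp (s / 2) * sinh (d / 2)) (exp (-(s / 2)) * sinh (d / 2))
      (exp (-(s / 2)) * cosh (d / 2)) := by
  have h1 : CExact_R (nrm l₀) (nrm m₀) (trans l₀ s) (exp (s / 2)) 0 0 (exp (-(s / 2))) := by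
    unfold CExact_R
    convert trans_isLift l₀ s using 1
    · rw [cosh_eq]
    · simp [sinh_eq]
  have h2 : CExact_R (nrm l₀) (nrm m₀) (trans m₀ d) (cosh (d / 2)) (sinh (d / 2)) (sinh (d / 2))
      (cosh (d / 2)) := by
    unfold CExact_R
    convert trans_isLift m₀ d using 1
    · ring
    · simp
  simpa using h1.mul (B_nrm_nrm _) (B_nrm_nrm _) h h2

theorem CExact_gen' {l₀ m₀ : Geo} (h : B (nrm l₀) (nrm m₀) = 0) (s s' : ℝ) {d : ℝ} (hd : 0 ≤ d) :
    CExact_T (nrm l₀) (nrm m₀) (trans l₀ s * trans m₀ d) (trans l₀ s' * trans m₀ d) (s / 2)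
      (|s - s'| / 2) := by
  have h1 := one_le_cosh (d / 2)
  have h2 : 0 ≤ sinh (d / 2) := sinh_nonneg_iff.2 (by linarith only [hd])
  have h3 : exp (s / 2) ≤ exp (|s - s'| / 2) * exp (s' / 2) := by
    rw [← exp_add, exp_le_exp]
    linarith only [le_abs_self (s - s')]
  have h4 : exp (-(s / 2)) ≤ exp (|s - s'| / 2) * exp (-(s' / 2)) := by
    rw [← exp_add, exp_le_exp]
    linarith only [neg_abs_le (s - s')]
  refine ⟨_, _, _, _, _, _, _, _, s' / 2, CExact_gen h s d, CExact_gen h s' d,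
    le_mul_of_one_le_right (exp_pos _).le h1, by positivity, by positivity,
    le_mul_of_one_le_right (exp_pos _).le h1, le_mul_of_one_le_right (exp_pos _).le h1,
    by positivity, by positivity, le_mul_of_one_le_right (exp_pos _).le h1, ?_, ?_, ?_, ?_⟩ <;>
    rw [← mul_assoc]
  exacts [mul_le_mul_of_nonneg_right h3 (cosh_pos _).le, mul_le_mul_of_nonneg_right h3 h2,
    mul_le_mul_of_nonneg_right h4 h2, mul_le_mul_of_nonneg_right h4 (cosh_pos _).le]

theorem CExact_cosh {e f : V} {g : Isom} {a b c d S : ℝ} (h : CExact_R e f g a b c d)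
    (ha : exp S ≤ a) (hd : exp (-S) ≤ d) : cosh (tl g / 2) = (a + d) / 2 ∧ |S| ≤ tl g / 2 := by
  have h1 : cosh S ≤ (a + d) / 2 := by
    rw [cosh_eq]
    linarith only [ha, hd]
  have h2 := (one_le_cosh S).trans h1
  have h3 := IsLift.cosh_tl h (h2.trans (le_abs_self _))
  rw [abs_of_nonneg (zero_le_one.trans h2)] at h3
  refine ⟨h3, ?_⟩
  rw [← h3, cosh_le_cosh] at h1
  rwa [abs_of_nonneg (by linarith only [tl_nonneg g] : 0 ≤ tl g / 2)] at h1

theorem CExact_T.weak {e f : V} {g g' : Isom} {S δ : ℝ} (h : CExact_T e f g g' S δ) :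
    |S| ≤ tl g / 2 ∧ tl g / 2 ≤ tl g' / 2 + δ + log 2 := by
  obtain ⟨a, b, c, d, a', b', c', d', S', r, r', pa, -, -, pd, pa', -, -, pd', la, -, -, ld⟩ := h
  obtain ⟨h1, h2⟩ := CExact_cosh r pa pd
  obtain ⟨h3, -⟩ := CExact_cosh r' pa' pd'
  refine ⟨h2, ?_⟩
  rw [← exp_le_exp, exp_add, exp_add, exp_log two_pos]
  have h4 : exp (tl g / 2) ≤ a + d := by
    rw [cosh_eq] at h1
    linarith only [h1, exp_pos (-(tl g / 2))]
  have h5 : a' + d' ≤ 2 * exp (tl g' / 2) := by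
    rw [cosh_eq] at h3
    have : exp (-(tl g' / 2)) ≤ exp (tl g' / 2) := exp_le_exp.2 (by linarith only [tl_nonneg g'])
    linarith only [h3, this]
  have h6 := mul_le_mul_of_nonneg_left h5 (exp_pos δ).le
  linarith only [la, ld, h4, h6]

theorem CExact_pow (g : Isom) (n : ℕ) : tl (g ^ (n + 1)) = (n + 1 : ℕ) * tl g := by
  by_cases h : Hyp g
  · exact (h.pow n.succ_ne_zero).2.2
  · have h0 : ∀ k : Isom, ¬ Hyp k → tl k = 0 := fun k hk => le_antisymm (not_lt.1 hk) (tl_nonneg k)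
    rw [h0 g h, h0 _ fun h' => h (hyp_of_pow h'), mul_zero]

theorem CExact_T.le {e f : V} (he : B e e = 1) (hf : B f f = 1) (h : B e f = 0) {g g' : Isom}
    {S δ : ℝ} (h1 : CExact_T e f g g' S δ) : tl g / 2 ≤ tl g' / 2 + δ := by
  have h2 : ∀ n : ℕ, CExact_T e f (g ^ n) (g' ^ n) (n * S) (n * δ) := fun n => by
    induction n with
    | zero => simpa using CExact_T.one e f
    | succ n ih =>
      rw [pow_succ, pow_succ, Nat.cast_succ, add_one_mul, add_one_mul]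
      exact ih.mul he hf h h1
  by_contra hc
  have h3 : 0 < tl g / 2 - (tl g' / 2 + δ) := sub_pos.2 (not_le.1 hc)
  obtain ⟨n, hn⟩ := exists_nat_gt (log 2 / (tl g / 2 - (tl g' / 2 + δ)))
  rw [div_lt_iff₀ h3] at hn
  have h4 := (h2 (n + 1)).weak.2
  rw [CExact_pow, CExact_pow, Nat.cast_succ] at h4
  linarith only [hc, hn, h4]

theorem CExact_list {l₀ m₀ : Geo} (h : B (nrm l₀) (nrm m₀) = 0) {α : Type} (a b d : α → ℝ)
    (s : List α) (hs : ∀ x ∈ s, 0 ≤ d x) :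
    CExact_T (nrm l₀) (nrm m₀) (s.map fun x => trans l₀ (a x) * trans m₀ (d x)).prod
      (s.map fun x => trans l₀ (b x) * trans m₀ (d x)).prod ((s.map a).sum / 2)
      ((s.map fun x => |a x - b x|).sum / 2) := by
  induction s with
  | nil => simpa using CExact_T.one _ _
  | cons x s ih =>
    simp only [List.map_cons, List.prod_cons, List.sum_cons, add_div]
    exact (CExact_gen' h _ _ (hs x List.mem_cons_self)).mul (B_nrm_nrm _) (B_nrm_nrm _) h
      (ih fun y hy => hs y (List.mem_cons_of_mem _ hy))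

theorem CExact_abs {l₀ m₀ : Geo} (h : B (nrm l₀) (nrm m₀) = 0) {α : Type} (a d : α → ℝ)
    (s : List α) (hs : ∀ x ∈ s, 0 ≤ d x) :
    |(s.map a).sum| ≤ tl (s.map fun x => trans l₀ (a x) * trans m₀ (d x)).prod := by
  have := (CExact_list h a a d s hs).weak.1
  rw [abs_div, abs_two] at this
  linarith only [this]

theorem CExact_le {l₀ m₀ : Geo} (h : B (nrm l₀) (nrm m₀) = 0) {α : Type} (a b d : α → ℝ)
    (s : List α) (hs : ∀ x ∈ s, 0 ≤ d x) :
    tl (s.map fun x => trans l₀ (a x) * trans m₀ (d x)).prod ≤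
      tl (s.map fun x => trans l₀ (b x) * trans m₀ (d x)).prod +
        (s.map fun x => |a x - b x|).sum := by
  have := (CExact_list h a b d s hs).le (B_nrm_nrm _) (B_nrm_nrm _) h
  linarith only [this]

theorem abs_sum_le_tl {l₀ m₀ : Geo} (h : B (nrm l₀) (nrm m₀) = 0) (s : List (ℝ × ℝ))
    (hs : ∀ x ∈ s, 0 ≤ x.2) :
    |(s.map Prod.fst).sum| ≤ tl (s.map fun x => trans l₀ x.1 * trans m₀ x.2).prod := by
  have := CExact_abs h (α := ℝ × ℝ) Prod.fst Prod.snd s hs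
  exact this

theorem tl_prod_le {l₀ m₀ : Geo} (h : B (nrm l₀) (nrm m₀) = 0) (s : List (ℝ × ℝ × ℝ))
    (hs : ∀ x ∈ s, 0 ≤ x.2.2) :
    tl (s.map fun x => trans l₀ x.1 * trans m₀ x.2.2).prod ≤
      tl (s.map fun x => trans l₀ x.2.1 * trans m₀ x.2.2).prod +
        (s.map fun x => |x.1 - x.2.1|).sum := by
  have := CExact_le h (fun x : ℝ × ℝ × ℝ => x.1) (fun x => x.2.1) (fun x => x.2.2) s hs
  exact this

theorem CExact_step {l₀ m₀ l : Geo} (h1 : nrm l₀ = ![1, 0, 0]) (h2 : nrm m₀ = ![0, 1, 0])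
    (hn : Nest l l₀) (he : 0 < side l₀ l.src.1 * side l₀ l.tgt.1) :
    ∃ S d : ℝ, 0 ≤ d ∧ (trans l₀ S * trans m₀ d) • l₀ = l := by
  obtain ⟨e1, e2, e3, e4, e5⟩ := (nest_iff_ends l l₀).1 hn
  have k1 := GNest_pos_of_ends e1 e2 e3 e4 e5
  have k2 := GNest_sq l l₀
  have k3 : 0 < side l₀ l.src.1 * side l₀ l.tgt.1 / (-B l.src.1 l.tgt.1) :=
    div_pos he (neg_pos.2 l.B_neg)
  have k4 : B (nrm l₀) (nrm l) = nrm l 0 := by simp [h1, B]
  rw [k4] at k1 k2
  have k5 : 1 < nrm l 0 := by (refine lt_of_not_ge fun h_nl => ?_; linarith only [h_nl, k2, k3, k1, mul_nonneg_of_nonpos_of_nonpos (le_of_lt (Mathlib.Tactic.Linarith.sub_neg_of_lt k1)) (Mathlib.Tactic.Linarith.sub_nonpos_of_le h_nl)])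
  have k6 : 0 ≤ nrm l 2 := by
    by_contra hc
    have : 0 < side l o.1 := by
      rw [side, B_comm, B_o]
      linarith only [hc]
    have := hn o this
    rw [side, B_comm, B_o, h1] at this
    simp at this
  have k7 := B_nrm_nrm l
  rw [B] at k7
  obtain ⟨d, hd, hc⟩ : ∃ d, 0 < d ∧ cosh d = nrm l 0 := ⟨_, arcosh_pos k5, cosh_arcosh k5.le⟩
  have hs := sinh_pos_iff.2 hd
  obtain ⟨S, hS⟩ : ∃ S, sinh S * sinh d = -nrm l 1 :=
    ⟨arsinh (-nrm l 1 / sinh d), by rw [sinh_arsinh, div_mul_cancel₀ _ hs.ne']⟩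
  have hC : cosh S * sinh d = nrm l 2 := by
    rw [← sq_eq_sq₀ (mul_pos (cosh_pos S) hs).le k6, mul_pow, cosh_sq, add_mul, ← mul_pow, hS,
      sinh_sq, hc]
    linarith only [k7]
  refine ⟨S, d, hd.le, nrm_injective ?_⟩
  rw [nrm_smul, lin_mul, (trans_isLift _ _).2, (trans_isLift _ _).2]
  have c1 := cosh_two_mul (d / 2)
  have c2 := sinh_two_mul (d / 2)
  have c3 := cosh_two_mul (S / 2)
  have c4 := sinh_two_mul (S / 2)
  have c5 := cosh_sq (S / 2)
  rw [mul_div_cancel₀ _ two_ne_zero] at c1 c2 c3 c4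
  rw [c1] at hc
  rw [c2, c4] at hS
  rw [c2, c3] at hC
  have a0 : nrm l₀ 0 = 1 := congrFun h1 0
  have a1 : nrm l₀ 1 = 0 := congrFun h1 1
  have a2 : nrm l₀ 2 = 0 := congrFun h1 2
  have b0 : nrm m₀ 0 = 0 := congrFun h2 0
  have b1 : nrm m₀ 1 = 1 := congrFun h2 1
  have b2 : nrm m₀ 2 = 0 := congrFun h2 2
  refine V_ext ?_ ?_ ?_ <;>
    simp only [qm, B, cr_0, cr_1, cr_2, Pi.add_apply, Pi.sub_apply, Pi.smul_apply, smul_eq_mul,
      a0, a1, a2, b0, b1, b2]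
  · rw [← hc]
    linear_combination (cosh (d / 2) ^ 2 + sinh (d / 2) ^ 2) * c5
  · linear_combination (-1) * hS
  · linear_combination hC

theorem CExact_nf {l₀ m₀ : Geo} (h1 : nrm l₀ = ![1, 0, 0]) (h2 : nrm m₀ = ![0, 1, 0]) (G : Isom)
    (τ : Geo → ℝ) (s : List Geo) : ∀ (F : Isom) (t : List Geo), s ++ [G • l₀] = F • l₀ :: t →
      ((s ++ [G • l₀]).Pairwise fun l m => Nest m l ∧ 0 < side l m.src.1 * side l m.tgt.1) →
      ∃ q : List (ℝ × ℝ × ℝ), (∀ x ∈ q, 0 ≤ x.2.2) ∧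
        (s.map fun l => trans l (-τ l)).prod * G =
          F * (q.map fun x => trans l₀ x.1 * trans m₀ x.2.2).prod ∧
        G = F * (q.map fun x => trans l₀ x.2.1 * trans m₀ x.2.2).prod ∧
        (q.map fun x => |x.1 - x.2.1|).sum = (s.map fun l => |τ l|).sum ∧
        (q.map fun x => x.2.1).sum - (q.map fun x => x.1).sum = (s.map τ).sum := by
  induction s with
  | nil =>
    intro F t e _
    have e1 : (F⁻¹ * G) • l₀ = l₀ := by
      rw [mul_smul, (List.cons.inj e).1, inv_smul_smul]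
    have e2 : G = F * trans l₀ (sh (F⁻¹ * G) l₀) := by
      rw [← eq_trans_of_smul_eq e1, mul_inv_cancel_left]
    exact ⟨[(sh (F⁻¹ * G) l₀, sh (F⁻¹ * G) l₀, 0)], by simp, by simpa [trans_zero] using e2,
      by simpa [trans_zero] using e2, by simp, by simp⟩
  | cons l s ih =>
    intro F t e hp
    obtain rfl : l = F • l₀ := (List.cons.inj e).1
    obtain ⟨l', t', e'⟩ := List.exists_cons_of_ne_nil (l := s ++ [G • l₀]) (by simp)
    rw [List.cons_append, List.pairwise_cons] at hp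
    obtain ⟨n1, n2⟩ := hp.1 l' (e' ▸ List.mem_cons_self)
    obtain ⟨l', rfl⟩ : ∃ m, l' = F • m := ⟨F⁻¹ • l', (smul_inv_smul _ _).symm⟩
    rw [Geo.src_smul, Geo.tgt_smul, GLine_circ, GLine_circ, mul_mul_mul_comm] at n2
    obtain ⟨S, d, hd, rfl⟩ := CExact_step h1 h2 ((nest_smul F).1 n1) ((mul_pos_iff_of_pos_left
      (mul_pos (inv_pos.2 (lin_circ_pos _ _)) (inv_pos.2 (lin_circ_pos _ _)))).1 n2)
    obtain ⟨q, q1, q2, q3, q4, q5⟩ := ih (F * (trans l₀ S * trans m₀ d)) t' (by rw [e', mul_smul F])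
      hp.2
    refine ⟨(S - τ (F • l₀), S, d) :: q, ?_, ?_, ?_, ?_, ?_⟩
    · intro x hx
      rcases List.mem_cons.1 hx with rfl | hx
      exacts [hd, q1 x hx]
    · rw [List.map_cons, List.prod_cons, mul_assoc, q2, List.map_cons, List.prod_cons, trans_conj,
        sub_eq_neg_add, trans_add]
      group
    · rw [List.map_cons, List.prod_cons, ← mul_assoc]
      exact q3
    · simp [q4]
    · simp only [List.map_cons, List.sum_cons]
      linarith only [q5]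

variable {Γ : Type*} [Group Γ] {ρ : Γ →* Isom} {ι : Type} [Fintype ι] {R : ι → Γ}

theorem CExact_srt {L : Set Geo} {τ : Geo → ℝ} (hL : Sys ρ L) (hτ : Wt ρ L τ) {g : Γ}
    (hg : Hyp (ρ g)) {t : ℝ} (ht : Off L (pt (ax (ρ g)) t)) :
    |tl (qrep hL hτ ht g) - tl (ρ g)| ≤
      ((srt L (pt (ax (ρ g)) t) (ρ g • pt (ax (ρ g)) t)).map fun l => |τ l|).sum ∧
    |((srt L (pt (ax (ρ g)) t) (ρ g • pt (ax (ρ g)) t)).map τ).sum| ≤
      tl (qrep hL hτ ht g) + tl (ρ g) := by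
  have hm := fun l => GTwLen_mem hL hg (t := t) (l := l)
  have hp := hL.pairwise_srt (pt (ax (ρ g)) t) (ρ g • pt (ax (ρ g)) t)
  rw [qrep_apply, qc]
  generalize srt L (pt (ax (ρ g)) t) (ρ g • pt (ax (ρ g)) t) = s at hm hp
  cases s with
  | nil => simpa using tl_nonneg (ρ g)
  | cons l s =>
    obtain ⟨l₀, h1⟩ := exists_nrm_eq (n := ![1, 0, 0]) (by simp [B])
    obtain ⟨m₀, h2⟩ := exists_nrm_eq (n := ![0, 1, 0]) (by simp [B])
    have h : B (nrm l₀) (nrm m₀) = 0 := by simp [h1, h2, B]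
    obtain ⟨F, rfl, -⟩ := exists_isom_line l₀ l 0 0
    have key : ∀ a ∈ L, ∀ b ∈ L, Nest b a → b ≠ a →
        Nest b a ∧ 0 < side a b.src.1 * side a b.tgt.1 := fun a ha b hb hn hne =>
      ⟨hn, hL.side_ne_zero ha hb hne ((nest_iff_ends b a).1 hn).2.2.2.2⟩
    obtain ⟨a1, a2, a3, -⟩ := hm _ List.mem_cons_self
    obtain ⟨c1, c2⟩ := GTwLen_shift hg a2
    have c3 := hL.smul g _ a1
    obtain ⟨q, q1, q2, q3, q4, q5⟩ := CExact_nf h1 h2 (ρ g * F) τ (F • l₀ :: s) F _ rfl (by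
      rw [List.pairwise_append, mul_smul]
      refine ⟨hp.imp_of_mem fun {a b} ha hb hab => key a (hm a ha).1 b (hm b hb).1 hab.1 hab.2,
        List.pairwise_singleton _ _, fun a ha b hb => ?_⟩
      obtain rfl := List.mem_singleton.1 hb
      obtain ⟨b1, b2, -, b4⟩ := hm a ha
      exact key a b1 _ c3 ((nest_iff_xp (hL.nc _ c3 _ b1) c1.2 c1.1 b2.2 b2.1).2 (by linarith))
        fun e => by rw [e] at c2; linarith only [a3, c2, b4])
    rw [← mul_assoc, ← eq_mul_inv_iff_mul_eq] at q2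
    rw [← eq_mul_inv_iff_mul_eq] at q3
    have k1 := CExact_le h (fun x : ℝ × ℝ × ℝ => x.1) (fun x => x.2.1) (fun x => x.2.2) q q1
    have k2 := CExact_le h (fun x : ℝ × ℝ × ℝ => x.2.1) (fun x => x.1) (fun x => x.2.2) q q1
    have k3 := CExact_abs h (fun x : ℝ × ℝ × ℝ => x.1) (fun x => x.2.2) q q1
    have k4 := CExact_abs h (fun x : ℝ × ℝ × ℝ => x.2.1) (fun x => x.2.2) q q1
    simp only [abs_sub_comm (Prod.fst (Prod.snd _))] at k2
    rw [q2, tl_conj, ← q4, ← q5, congrArg tl q3, tl_conj]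
    exact ⟨abs_le.2 ⟨by linarith only [k2], by linarith⟩, (abs_sub _ _).trans (by linarith)⟩

theorem CExact_main (hρ : Disc ρ) (hR : Multi ρ R) {g : Γ} (hg : Hyp (ρ g)) {t : ι → ℝ}
    {τ : Geo → ℝ} (hL : Sys ρ (lifts ρ R)) (hτ : Wt ρ (lifts ρ R) τ)
    (hw : ∀ (i : ι), ∀ l ∈ lifts ρ fun _ : Unit => R i, τ l = t i) {p : Pt}
    (hp : Off (lifts ρ R) p) :
    |tl (qrep hL hτ hp g) - tl (ρ g)| ≤ ∑ i, |t i| * (inter ρ g (R i) : ℝ) ∧
      |∑ i, t i * (inter ρ g (R i) : ℝ)| ≤ tl (qrep hL hτ hp g) + tl (ρ g) := by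
  by_cases hA : ax (ρ g) ∈ lifts ρ R
  · rw [tl_qrep_of_not_cross hL hτ hp hg (hL.nc _ hA)]
    simpa [CTw_zero hρ hR hL hg hA] using tl_nonneg (ρ g)
  · obtain ⟨u, hu⟩ := GTwist2_off hL hA
    rw [tl_qrep_base hL hτ hp hu, ← hρ.sum_srt hR hg hu hw,
      ← hρ.sum_srt hR hg hu (W := fun l => |τ l|) fun i l hl => by rw [hw i l hl]]
    exact CExact_srt hL hτ hg hu

/-- The twist flow with exact bounds. -/
theorem exists_flow_exact (hρ : Disc ρ) (hR : Multi ρ R) (x : Teich ρ) :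
    ∃ F : (ι → ℝ) → Teich ρ, Continuous F ∧ F 0 = x ∧ ∀ t g, Hyp (ρ g) →
      |len (F t) g - len x g| ≤ ∑ i, |t i| * (inter ρ g (R i) : ℝ) ∧
        |∑ i, t i * (inter ρ g (R i) : ℝ)| ≤ len (F t) g + len x g := by
  classical
  obtain ⟨⟨σ, f, hm⟩, rfl⟩ := cls_surjective x
  have hσ := hm.disc hρ
  have hRσ := (hm.multi_iff R).2 hR
  have hL := hRσ.sys hσ
  obtain ⟨p, hp, -⟩ := hL.exists_off_near o one_pos
  let T : (ι → ℝ) → Geo → ℝ := fun t l =>
    if H : ∃ i, l ∈ lifts σ fun _ : Unit => R i then t H.choose else 0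
  have hT : ∀ t, ∀ (i : ι), ∀ l ∈ lifts σ fun _ : Unit => R i, T t l = t i := by
    intro t i l hl
    have H : ∃ i, l ∈ lifts σ fun _ : Unit => R i := ⟨i, hl⟩
    simp only [T]
    rw [dif_pos H, hRσ.label_unique hσ H.choose_spec hl]
  have hTc : ∀ l, Continuous fun t => T t l := by
    intro l
    by_cases H : ∃ i, l ∈ lifts σ fun _ : Unit => R i
    · simp only [T, dif_pos H]
      exact continuous_apply _
    · simp only [T, dif_neg H]
      exact continuous_const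
  have hτ : ∀ t, Wt σ (lifts σ R) (T t) := fun t => Multi.wt (hT t)
  have hmk : ∀ t, ∃ h, IsMark ρ (qrep hL (hτ t) hp) h := by
    intro t
    obtain ⟨F, hF⟩ := exists_qmap hL (hτ t)
    obtain ⟨k, -, hk⟩ := hF.exists_mark hL (hτ t) hp
    exact ⟨_, hm.trans hk⟩
  refine ⟨fun t => Rep.cls ⟨qrep hL (hτ t) hp, hmk t⟩, continuous_cls.comp ?_,
    congrArg Rep.cls ?_, fun t g hg => ?_⟩
  · refine continuous_induced_rng.2 (continuous_pi fun g => continuous_pi fun v => ?_)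
    exact continuous_lin2.comp
      (((continuous_qc hTc p (σ g • p)).mul continuous_const).prodMk continuous_const)
  · refine Subtype.ext (MonoidHom.ext fun g => ?_)
    have e : ∀ l, T 0 l = 0 := fun l => by simp [T]
    show qc (lifts σ R) (T 0) p (σ g • p) * σ g = σ g
    simp [qc, e, trans_zero]
  · simpa only [hm.inter_eq, len_cls] using
      CExact_main hσ hRσ (hm.hyp hg).1 hL (hτ t) (hT t) hp

end HRT
end

-- merged part: Pool.Agent.Work.MP_35beee_gt.TPair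
section
/-!
Length functions together with intersection functions; all directions occur.

Plan. `exists_flow_pair`: `exists_flow_exact` for the single curve `η` (`multi_single`,
`inter_comm`); the inequalities are closed conditions. `pair_le`: let `t → ∞`.
`exists_dir`: choose `η p` with `e q (η p) ≤ δ * e p (η p)`, a base point `y`, a large `τ`; twist one
after the other along `η p` by `τ * a p / e p (η p)`. Induction on a finite set `S`: there is `z`
with `|L q z - τ * a q| ≤ E` for `q ∈ S` and `L q z ≤ E` for `q ∉ S`, where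
`E = M + card S * τ * δ * ∑ a` and `M = ∑ q, L q y`.
`exists_ge_of_dir`: separate `x` from the closed convex set `{k - r | k ∈ K, 0 ≤ r}`
(`geometric_hahn_banach_point_closed`, `IsClosed.vadd_left_of_isCompact` or sequences); the
functional is nonnegative. `exists_ge_of_pair`: by `exists_dir` and compactness of `K` the hypothesis
of `exists_ge_of_dir` holds.
-/

namespace HRT

open Set Filter Topology Real

variable {Γ : Type*} [Group Γ] {ρ : Γ →* Isom}

/-- Limits of the length function and the intersection function of a weighted simple curve. -/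
def Pair (ρ : Γ →* Isom) : Set ((Teich ρ → ℝ) × (SC ρ → ℝ)) :=
  closure {x | ∃ (g : Γ) (s : ℝ), Simple ρ g ∧ 0 ≤ s ∧
    x = (fun z => s * len z g, fun η => s * inter ρ η.1 g)}

theorem TPair_len (z : Teich ρ) (g : Γ) : 0 ≤ len z g := by
  induction z using Quot.ind with
  | mk x => exact tl_nonneg _

theorem TPair_ne (ρ : Γ →* Isom) : Nonempty (Teich ρ) := ⟨Quot.mk _ ⟨ρ, _, IsMark.refl ρ⟩⟩

theorem pair_nonneg {x : (Teich ρ → ℝ) × (SC ρ → ℝ)} (hx : x ∈ Pair ρ) :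
    (∀ z, 0 ≤ x.1 z) ∧ ∀ η, 0 ≤ x.2 η := by
  refine closure_minimal (t := {x : (Teich ρ → ℝ) × (SC ρ → ℝ) |
    (∀ z, 0 ≤ x.1 z) ∧ ∀ η, 0 ≤ x.2 η}) ?_ ?_ hx
  · rintro _ ⟨g, s, -, hs, rfl⟩
    exact ⟨fun z => mul_nonneg hs (TPair_len z g), fun η => mul_nonneg hs (Nat.cast_nonneg _)⟩
  · simp only [ofPred_and, ofPred_forall]
    exact (isClosed_iInter fun z => isClosed_le continuous_const (by fun_prop)).inter
      (isClosed_iInter fun η => isClosed_le continuous_const (by fun_prop))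

theorem exists_flow_pair (hρ : Disc ρ) (y : Teich ρ) (η : SC ρ) {t : ℝ} (ht : 0 ≤ t) :
    ∃ z : Teich ρ, ∀ x ∈ Pair ρ, |x.1 z - x.1 y| ≤ t * x.2 η ∧ t * x.2 η ≤ x.1 z + x.1 y := by
  obtain ⟨F, -, -, hF⟩ := exists_flow_exact hρ (multi_single η.2) y
  refine ⟨F fun _ => t, fun x hx => closure_minimal (t := {x : (Teich ρ → ℝ) × (SC ρ → ℝ) |
    |x.1 (F fun _ => t) - x.1 y| ≤ t * x.2 η ∧ t * x.2 η ≤ x.1 (F fun _ => t) + x.1 y}) ?_ ?_ hx⟩
  · rintro _ ⟨g, s, hg, hs, rfl⟩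
    obtain ⟨h1, h2⟩ := hF (fun _ => t) g hg.hyp
    rw [Fintype.sum_unique, hρ.inter_comm hg.hyp hg.prim η.2.hyp η.2.prim] at h1 h2
    rw [abs_of_nonneg ht] at h1
    constructor
    · change |s * _ - s * _| ≤ t * (s * _)
      rw [← mul_sub, abs_mul, abs_of_nonneg hs, mul_left_comm]
      exact mul_le_mul_of_nonneg_left h1 hs
    · change t * (s * _) ≤ s * _ + s * _
      rw [← mul_add, mul_left_comm]
      exact mul_le_mul_of_nonneg_left ((le_abs_self _).trans h2) hs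
  · rw [ofPred_and]
    refine IsClosed.inter (isClosed_le ?_ ?_) (isClosed_le ?_ ?_) <;> fun_prop

variable {P Q : Type} [Fintype P] [Fintype Q]

/-- Domination of length functions implies domination of intersection functions. -/
theorem pair_le (hρ : Disc ρ) {L : P → Teich ρ → ℝ} {e : P → SC ρ → ℝ}
    (h : ∀ p, (L p, e p) ∈ Pair ρ) {L' : Q → Teich ρ → ℝ} {e' : Q → SC ρ → ℝ}
    (h' : ∀ q, (L' q, e' q) ∈ Pair ρ) {C : ℝ} (hC : 0 ≤ C)
    (hle : ∀ z, ∑ q, L' q z ≤ C * ∑ p, L p z) (η : SC ρ) : ∑ q, e' q η ≤ C * ∑ p, e p η := by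
  obtain ⟨y⟩ := TPair_ne ρ
  have key : ∀ t : ℝ, 0 ≤ t → t * (∑ q, e' q η - C * ∑ p, e p η) ≤
      C * ∑ p, L p y + ∑ q, L' q y := fun t ht => by
    obtain ⟨z, hz⟩ := exists_flow_pair hρ y η ht
    have h1 : t * ∑ q, e' q η ≤ ∑ q, L' q z + ∑ q, L' q y := by
      rw [Finset.mul_sum, ← Finset.sum_add_distrib]
      exact Finset.sum_le_sum fun q _ => (hz _ (h' q)).2
    have h2 : ∑ p, L p z ≤ ∑ p, L p y + t * ∑ p, e p η := by
      rw [Finset.mul_sum, ← Finset.sum_add_distrib]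
      exact Finset.sum_le_sum fun p _ => sub_le_iff_le_add'.1 (abs_le.1 (hz _ (h p)).1).2
    have h3 := mul_le_mul_of_nonneg_left h2 hC
    have h4 := hle z
    linarith
  by_contra hn
  have h1 := sub_pos.2 (not_le.1 hn)
  have h2 := key ((|C * ∑ p, L p y + ∑ q, L' q y| + 1) / _) (div_nonneg (by positivity) h1.le)
  rw [div_mul_cancel₀ _ h1.ne'] at h2
  linarith [le_abs_self (C * ∑ p, L p y + ∑ q, L' q y)]

theorem exists_dir (hρ : Disc ρ) {L : P → Teich ρ → ℝ} {e : P → SC ρ → ℝ}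
    (h : ∀ p, (L p, e p) ∈ Pair ρ)
    (hs : ∀ p, ∀ δ > 0, ∃ η, 0 < e p η ∧ ∀ q, q ≠ p → e q η ≤ δ * e p η) {a : P → ℝ}
    (ha : ∀ p, 0 ≤ a p) {ε : ℝ} (hε : 0 < ε) :
    ∃ (z : Teich ρ) (τ : ℝ), 0 < τ ∧ ∀ p, |L p z / τ - a p| ≤ ε := by
  classical
  obtain ⟨y⟩ := TPair_ne ρ
  have hL : ∀ p z, 0 ≤ L p z := fun p => (pair_nonneg (h p)).1
  have hM : 0 ≤ ∑ q, L q y := Finset.sum_nonneg fun q _ => hL q y
  have hA : 0 ≤ ∑ q, a q := Finset.sum_nonneg fun q _ => ha q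
  obtain ⟨δ, hδ, hδ'⟩ : ∃ δ > 0, δ * ∑ q, a q ≤ ε / 2 := by
    refine ⟨ε / 2 / (∑ q, a q + 1), by positivity, ?_⟩
    rw [div_mul_eq_mul_div, div_le_iff₀ (by positivity)]
    exact mul_le_mul_of_nonneg_left (by linarith) (by positivity)
  obtain ⟨τ, hτ, hτ'⟩ : ∃ τ > 0, ∑ q, L q y ≤ τ * (ε / 2) := by
    refine ⟨(∑ q, L q y + 1) / (ε / 2), by positivity, ?_⟩
    rw [div_mul_cancel₀ _ (half_pos hε).ne']
    linarith only []
  have key : ∀ S : Finset P, ∃ z, ∀ q,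
      |L q z - if q ∈ S then τ * a q else 0| ≤ ∑ q, L q y + τ * δ * ∑ p ∈ S, a p := by
    intro S
    induction S using Finset.induction_on with
    | empty =>
      refine ⟨y, fun q => ?_⟩
      rw [if_neg (Finset.notMem_empty q), sub_zero, Finset.sum_empty, mul_zero, add_zero,
        abs_of_nonneg (hL q y)]
      exact Finset.single_le_sum (fun q _ => hL q y) (Finset.mem_univ q)
    | insert p S hp ih =>
      obtain ⟨z, hz⟩ := ih
      obtain ⟨η, h1, h2⟩ := hs p δ hδ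
      have h3 : 0 ≤ τ * a p / e p η := div_nonneg (mul_nonneg hτ.le (ha p)) h1.le
      obtain ⟨z', hz'⟩ := exists_flow_pair hρ z η h3
      have h4 : 0 ≤ τ * δ * a p := mul_nonneg (mul_pos hτ hδ).le (ha p)
      refine ⟨z', fun q => ?_⟩
      rw [Finset.sum_insert hp, mul_add]
      obtain ⟨h5, h6⟩ := hz' _ (h q)
      have h7 := hz q
      by_cases hq : q = p
      · subst hq
        rw [if_neg hp, sub_zero, abs_of_nonneg (hL q z)] at h7
        rw [if_pos (Finset.mem_insert_self _ _)]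
        simp only [div_mul_cancel₀ _ h1.ne'] at h5 h6
        have h8 := (abs_le.1 h5).2
        exact abs_le.2 ⟨by linarith only [h7, h4, h6], by linarith only [h7, h4, h8]⟩
      · have h8 : τ * a p / e p η * e q η ≤ τ * δ * a p :=
          (mul_le_mul_of_nonneg_left (h2 q hq) h3).trans_eq (by field_simp)
        simp only [Finset.mem_insert, hq, false_or]
        have h9 := abs_sub_le (L q z') (L q z) (if q ∈ S then τ * a q else 0)
        have h10 : |L q z' - L q z| ≤ τ * δ * a p := h5.trans h8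
        linarith only [h5, h7, h8, h9]
  obtain ⟨z, hz⟩ := key Finset.univ
  refine ⟨z, τ, hτ, fun p => ?_⟩
  have h1 := hz p
  rw [if_pos (Finset.mem_univ p), mul_assoc] at h1
  have h2 : L p z / τ - a p = (L p z - τ * a p) / τ := by field_simp
  rw [h2, abs_div, abs_of_pos hτ, div_le_iff₀' hτ]
  linarith only [hτ', h1, hδ', hτ, mul_le_mul_of_nonneg_left hδ' hτ.le]

theorem exists_ge_of_dir {K : Set (P → ℝ)} (hK : IsCompact K) (hc : Convex ℝ K) {x : P → ℝ}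
    (h : ∀ a : P → ℝ, (∀ p, 0 ≤ a p) → ∃ k ∈ K, ∑ p, x p * a p ≤ ∑ p, k p * a p) :
    ∃ k ∈ K, x ≤ k := by
  classical
  by_contra hn
  have hx : x ∉ image2 (· + ·) K (Iic 0) := by
    rintro ⟨k, hk, r, hr, rfl⟩
    exact hn ⟨k, hk, add_le_of_nonpos_right hr⟩
  obtain ⟨f, u, h1, h2⟩ := geometric_hahn_banach_closed_point (s := image2 (· + ·) K (Iic 0))
    (hc.add (convex_Iic 0)) (isClosed_Iic.add_left_of_isCompact hK) hx
  have h3 : ∀ v : P → ℝ, f v = ∑ p, v p * f fun j => if p = j then 1 else 0 := fun v =>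
    LinearMap.pi_apply_eq_sum_univ (f : (P → ℝ) →ₗ[ℝ] ℝ) v
  obtain ⟨k₀, hk₀, -⟩ := h 0 fun _ => le_rfl
  obtain ⟨k, hk, h4⟩ := h (fun p => f fun j => if p = j then 1 else 0) fun p => by
    by_contra h5
    rw [not_le] at h5
    have h6 := h1 (k₀ + ((|u - f k₀| + 1) / f fun j => if p = j then 1 else 0) •
      fun j => if p = j then 1 else 0) ⟨k₀, hk₀, _, fun j => mul_nonpos_of_nonpos_of_nonneg
        (div_nonpos_of_nonneg_of_nonpos (by positivity) h5.le) (by split_ifs <;> norm_num), rfl⟩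
    rw [map_add, map_smul, smul_eq_mul, div_mul_cancel₀ _ h5.ne] at h6
    linarith [le_abs_self (u - f k₀)]
  rw [← h3, ← h3] at h4
  have h5 := h1 k ⟨k, hk, 0, self_mem_Iic, add_zero k⟩
  linarith

theorem exists_ge_of_pair (hρ : Disc ρ) {L : P → Teich ρ → ℝ} {e : P → SC ρ → ℝ}
    (h : ∀ p, (L p, e p) ∈ Pair ρ)
    (hs : ∀ p, ∀ δ > 0, ∃ η, 0 < e p η ∧ ∀ q, q ≠ p → e q η ≤ δ * e p η) {K : Set (P → ℝ)}
    (hK : IsCompact K) (hc : Convex ℝ K) {x : P → ℝ}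
    (hx : ∀ z, ∃ k ∈ K, ∑ p, x p * L p z ≤ ∑ p, k p * L p z) : ∃ k ∈ K, x ≤ k := by
  refine exists_ge_of_dir hK hc fun a ha => ?_
  by_contra hn
  have h1 : ∀ᶠ b in 𝓝 a, ∀ k ∈ K, ∑ p, k p * b p < ∑ p, x p * b p := by
    refine hK.eventually_forall_of_forall_eventually fun k hk => ?_
    exact ContinuousAt.eventually_lt (f := fun w : (P → ℝ) × (P → ℝ) => ∑ p, w.2 p * w.1 p)
      (g := fun w : (P → ℝ) × (P → ℝ) => ∑ p, x p * w.1 p) (by fun_prop) (by fun_prop)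
      (not_le.1 fun h2 => hn ⟨k, hk, h2⟩)
  obtain ⟨ε, hε, h2⟩ := Metric.eventually_nhds_iff.1 h1
  obtain ⟨z, τ, hτ, h3⟩ := exists_dir hρ h hs ha (half_pos hε)
  obtain ⟨k, hk, h4⟩ := hx z
  have h5 := h2 (y := fun p => L p z / τ) (((dist_pi_le_iff (half_pos hε).le).2 h3).trans_lt
    (half_lt_self hε)) k hk
  simp only [← mul_div_assoc, ← Finset.sum_div] at h5
  exact absurd (div_le_div_of_nonneg_right h4 hτ.le) (not_le.2 h5)

end HRT
end

-- merged part: Pool.Agent.Work.MP_35beee_gt.UDef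
section
/-!
Length and twist coordinates: the interface.
-/

namespace HRT

open Set Real

variable {Γ : Type*} [Group Γ]

/-- The lengths of the curves `P i`. -/
noncomputable def lens {ρ : Γ →* Isom} {ι : Type} (P : ι → Γ) (x : Rep ρ) : ι → ℝ :=
  fun i => tl (x.1 (P i))

/-- The structures in which the curves `P i` are at least as long as for `ρ`. -/
def Long (ρ : Γ →* Isom) {ι : Type} (P : ι → Γ) : Set (Rep ρ) :=
  {x | ∀ i, tl (ρ (P i)) ≤ lens P x i}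

/-- The trace formula for the curve `g`, which crosses `P (j 0)`, ..., `P (j (p - 1))`. -/
structure Form (ρ : Γ →* Isom) {ι : Type} [Fintype ι] (P : ι → Γ) (τ : Rep ρ → ι → ℝ) (g : Γ)
    (p : ℕ) (j : ℕ → ι) (h d : ℕ → Rep ρ → ℝ) : Prop where
  pos : 0 < p
  per : j p = j 0
  cross : ∀ n, inter ρ g (P (j n)) ≠ 0
  eq : ∀ x : Rep ρ, 2 * cosh (tl (x.1 g) / 2) =
    trc p (fun n => τ x (j n) + h n x) fun n => d n x
  off : ∀ n, Trop (Long ρ P) (lens P) (h n)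
  off_le : ∀ n, ∃ C : ℝ, ∀ x, |h n x| ≤ C * lens P x (j n)
  nonneg : ∀ n x, 0 ≤ d n x
  ch : ∀ n, MT (Long ρ P) (lens P) fun x => cosh (d n x / 2)
  sh : ∀ n, MT (Long ρ P) (lens P) fun x => sinh (d n x / 2)
  coth : ∀ n x, cosh (d n x / 2) ≤ exp (lens P x (j n)) * sinh (d n x / 2) ∧
    cosh (d n x / 2) ≤ exp (lens P x (j (n + 1))) * sinh (d n x / 2)

/-- Twist coordinates `τ` for the pants decomposition `P`. -/
structure Coord (ρ : Γ →* Isom) {ι : Type} [Fintype ι] (P : ι → Γ) (τ : Rep ρ → ι → ℝ) :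
    Prop where
  ex : ∀ l t : ι → ℝ, (∀ i, tl (ρ (P i)) ≤ l i) → ∃ x : Rep ρ, lens P x = l ∧ τ x = t
  tw : ∀ n : ℤ, ∃ (φ : Γ ≃* Γ) (hφ : IsMod ρ φ), ∀ x : Rep ρ,
    lens P (x.act hφ) = lens P x ∧ ∀ i, τ (x.act hφ) i = τ x i + n * lens P x i
  form : ∀ g, Simple ρ g →
    ((∀ i, inter ρ g (P i) = 0) ∧ ∃ i, ∀ x : Rep ρ, tl (x.1 g) = lens P x i) ∨
      ∃ p j h d, Form ρ P τ g p j h d

/-- The product of half planes. -/
def Half (ι : Type) : Set (ι → ℝ × ℝ) := {v | ∀ i, 0 ≤ (v i).1}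

/-- The gluing of the boundary of each half plane. -/
def Glue {ι : Type} (v w : ι → ℝ × ℝ) : Prop :=
  ∀ i, (v i).1 = (w i).1 ∧ ((v i).2 = (w i).2 ∨ ((v i).1 = 0 ∧ (v i).2 = -(w i).2))

end HRT
end

-- merged part: Pool.Agent.Work.MP_35beee_gt.UChain
section
/-!
The trace formula for a chain of lines.

Plan. Let `l₀`, `m₀` be the lines with normals `![1, 0, 0]`, `![0, 1, 0]` (as in `CExact`). Strengthen
`CExact_step`: there `S = xp l₀ l`, `d = ldist l₀ l`, `pt l₀ 0 = o`, and the isometry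
`trans l₀ S * trans m₀ d` maps `o` to the foot `pt l (xp l l₀)` (`CChain_perp`, or compute; the
foot is the only point of `l` at distance `ldist` from `l₀`). Let `F n` map `l₀` to `l n` and `o` to
`pt (l n) (xp (l n) (l (n - 1)))` (`exists_isom_line`; an isometry is determined by these data,
`eq_trans_of_smul_eq`, `trans_zero`). Then `F (n + 1) = F n * (trans l₀ (u n) * trans m₀ (d n))`
and `F p = g * F 0`. `CExact_gen`, `CExact_R.mul` and induction give the matrix of the product,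
`CExact_cosh` (or `IsLift.cosh_tl`) and `tl_conj` finish the proof.
-/

namespace HRT

open Set Real

theorem UChain_far (g : Isom) {l m : Geo}
    (h : 0 < side (g • l) (g • m).src.1 * side (g • l) (g • m).tgt.1) :
    0 < side l m.src.1 * side l m.tgt.1 := by
  rw [Geo.src_smul, Geo.tgt_smul, GLine_circ, GLine_circ, mul_mul_mul_comm] at h
  exact (mul_pos_iff_of_pos_left
    (mul_pos (inv_pos.2 (lin_circ_pos _ _)) (inv_pos.2 (lin_circ_pos _ _)))).1 h

theorem UChain_xp (g : Isom) {l m : Geo}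
    (h : 0 < side (g • l) (g • m).src.1 * side (g • l) (g • m).tgt.1) :
    xp (g • l) (g • m) = xp l m + sh g l := by
  have h1 := UChain_far g h
  rw [xp, xp, Geo.src_smul, Geo.tgt_smul, fer_smul_circ g l (left_ne_zero_of_mul h1.ne'),
    fer_smul_circ g l (right_ne_zero_of_mul h1.ne')]
  ring

theorem UChain_sh (g h : Isom) (l : Geo) : sh (g * h) l = sh h l + sh g (h • l) := by
  rw [sh, mul_smul, mul_smul, fer_smul_pt]
  rfl

theorem UChain_uniq {F G : Isom} {l : Geo} (h1 : G • l = F • l) (h2 : sh G l = sh F l) :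
    G = F := by
  have h3 : (F⁻¹ * G) • l = l := by rw [mul_smul, h1, inv_smul_smul]
  have h4 := eq_trans_of_smul_eq h3
  rw [UChain_sh, h1, GTrans_sh_inv, h2, add_neg_cancel, trans_zero, inv_mul_eq_one] at h4
  exact h4.symm

theorem UChain_zero {l₀ m₀ : Geo} (h1 : nrm l₀ = ![1, 0, 0]) (h2 : nrm m₀ = ![0, 1, 0]) (d : ℝ) :
    xp l₀ (trans m₀ d • l₀) = 0 ∧ B (nrm l₀) (nrm (trans m₀ d • l₀)) = cosh d := by
  have s0 : l₀.src.1 0 = 0 := by simpa [side, h1, B] using side_src l₀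
  have t0 : l₀.tgt.1 0 = 0 := by simpa [side, h1, B] using side_tgt l₀
  have s2 : l₀.src.1 2 = 1 := l₀.src.2.2
  have t2 : l₀.tgt.1 2 = 1 := l₀.tgt.2.2
  have s1 := l₀.src.2.1
  have t1 := l₀.tgt.2.1
  rw [B, s0, s2] at s1
  rw [B, t0, t2] at t1
  have e : l₀.tgt.1 1 = -l₀.src.1 1 := by
    refine (mul_self_eq_mul_self_iff.1 (by linarith only [s1, t1])).resolve_left fun e => l₀.ne ?_
    exact Subtype.ext (V_ext (s0.trans t0.symm) e.symm (s2.trans t2.symm))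
  have b0 : nrm m₀ 0 = 0 := congrFun h2 0
  have b1 : nrm m₀ 1 = 1 := congrFun h2 1
  have b2 : nrm m₀ 2 = 0 := congrFun h2 2
  constructor
  · have k1 : B (lin (trans m₀ d) l₀.tgt.1) l₀.tgt.1 = B (lin (trans m₀ d) l₀.src.1) l₀.src.1 := by
      rw [(trans_isLift _ _).2, (trans_isLift _ _).2]
      simp only [qm, B, cr_0, cr_1, cr_2, Pi.add_apply, Pi.sub_apply, Pi.smul_apply, smul_eq_mul,
        s0, s2, t0, t2, e, b0, b1, b2]
      ring
    have k2 : B (lin (trans m₀ d) l₀.tgt.1) l₀.src.1 = B (lin (trans m₀ d) l₀.src.1) l₀.tgt.1 := by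
      rw [(trans_isLift _ _).2, (trans_isLift _ _).2]
      simp only [qm, B, cr_0, cr_1, cr_2, Pi.add_apply, Pi.sub_apply, Pi.smul_apply, smul_eq_mul,
        s0, s2, t0, t2, e, b0, b1, b2]
      ring
    rw [xp, Geo.src_smul, Geo.tgt_smul, smul_circ_val, smul_circ_val,
      fer_smul _ (inv_pos.2 (lin_circ_pos _ _)).ne', fer_smul _ (inv_pos.2 (lin_circ_pos _ _)).ne',
      fer, fer, k1, k2, ← inv_div (B _ l₀.src.1) (B _ l₀.tgt.1), log_inv]
    ring
  · have a0 : nrm l₀ 0 = 1 := congrFun h1 0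
    have a1 : nrm l₀ 1 = 0 := congrFun h1 1
    have a2 : nrm l₀ 2 = 0 := congrFun h1 2
    have c1 := cosh_two_mul (d / 2)
    rw [mul_div_cancel₀ _ two_ne_zero] at c1
    rw [nrm_smul, (trans_isLift _ _).2, c1]
    simp only [qm, B, cr_0, cr_1, cr_2, Pi.add_apply, Pi.sub_apply, Pi.smul_apply, smul_eq_mul,
      a0, a1, a2, b0, b1, b2]
    ring

theorem UChain_step {l₀ m₀ l : Geo} (h1 : nrm l₀ = ![1, 0, 0]) (h2 : nrm m₀ = ![0, 1, 0])
    (hn : Nest l l₀) (he : 0 < side l₀ l.src.1 * side l₀ l.tgt.1) :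
    (trans l₀ (xp l₀ l) * trans m₀ (ldist l₀ l)) • l₀ = l ∧
      sh (trans l₀ (xp l₀ l) * trans m₀ (ldist l₀ l)) l₀ = xp l l₀ := by
  obtain ⟨S, d, hd, e⟩ := CExact_step h1 h2 hn he
  have e1 : trans l₀ S • trans m₀ d • l₀ = l := by rw [← mul_smul, e]
  have k1 : xp l₀ l = S := by
    have := UChain_xp (trans l₀ S) (l := l₀) (m := trans m₀ d • l₀) (by rwa [e1, trans_smul])
    rwa [e1, trans_smul, (UChain_zero h1 h2 d).1, sh_trans, zero_add] at this
  have k2 : ldist l₀ l = d := by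
    have := ldist_smul (trans l₀ S) l₀ (trans m₀ d • l₀)
    rw [e1, trans_smul] at this
    rw [this, ldist, (UChain_zero h1 h2 d).2, abs_of_pos (cosh_pos d), arcosh_cosh hd]
  rw [k1, k2]
  refine ⟨e, ?_⟩
  have e2 : (trans l₀ S * trans m₀ d) • trans m₀ (-d) • l₀ = l₀ := by
    rw [mul_smul, ← mul_smul (trans m₀ d), ← trans_add, add_neg_cancel, trans_zero, one_smul,
      trans_smul]
  have := UChain_xp (trans l₀ S * trans m₀ d) (l := l₀) (m := trans m₀ (-d) • l₀)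
    (by rw [e, e2]; exact CChain_symm he)
  rw [e, e2, (UChain_zero h1 h2 (-d)).1, zero_add] at this
  exact this.symm

theorem UChain_mat {l₀ m₀ : Geo} (h : B (nrm l₀) (nrm m₀) = 0) (u d : ℕ → ℝ) (s : List ℕ) :
    CExact_R (nrm l₀) (nrm m₀) (s.map fun n => trans l₀ (u n) * trans m₀ (d n)).prod
      ((s.map fun n => mat (u n) (d n)).prod 0 0) ((s.map fun n => mat (u n) (d n)).prod 0 1)
      ((s.map fun n => mat (u n) (d n)).prod 1 0) ((s.map fun n => mat (u n) (d n)).prod 1 1) := by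
  induction s with
  | nil =>
    unfold CExact_R
    rw [List.map_nil, List.map_nil, List.prod_nil, List.prod_nil]
    convert isLift_one using 1
    · simp
    · simp
  | cons n s ih =>
    simp only [List.map_cons, List.prod_cons, Matrix.mul_apply, Fin.sum_univ_two]
    exact (CExact_gen h (u n) (d n)).mul (B_nrm_nrm _) (B_nrm_nrm _) h ih

theorem UChain_ind {g : Isom} {p : ℕ} {l : ℤ → Geo} (h : Chain g p l) {l₀ m₀ : Geo}
    (h1 : nrm l₀ = ![1, 0, 0]) (h2 : nrm m₀ = ![0, 1, 0]) {G : Isom} {n : ℤ} (e1 : G • l₀ = l n)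
    (e2 : sh G l₀ = xp (l n) (l (n - 1))) :
    (G * (trans l₀ (xp (l n) (l (n + 1)) - xp (l n) (l (n - 1))) *
      trans m₀ (ldist (l n) (l (n + 1))))) • l₀ = l (n + 1) ∧
    sh (G * (trans l₀ (xp (l n) (l (n + 1)) - xp (l n) (l (n - 1))) *
      trans m₀ (ldist (l n) (l (n + 1))))) l₀ = xp (l (n + 1)) (l n) := by
  have k1 := h.nest n
  have k2 := h.far n
  rw [← e2]
  obtain ⟨l', e3⟩ : ∃ m, l (n + 1) = G • m := ⟨G⁻¹ • l (n + 1), (smul_inv_smul _ _).symm⟩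
  rw [e3, ← e1] at k1 k2 ⊢
  obtain ⟨k3, k4⟩ := UChain_step h1 h2 ((nest_smul G).1 k1) (UChain_far G k2)
  rw [UChain_xp G k2, UChain_xp G (CChain_symm k2), add_sub_cancel_right, ldist_smul, mul_smul, k3,
    UChain_sh, k3, k4]
  exact ⟨rfl, rfl⟩

theorem Chain.trc_eq {g : Isom} {p : ℕ} {l : ℤ → Geo} (h : Chain g p l) :
    2 * cosh (tl g / 2) = trc p (fun n => xp (l n) (l (n + 1)) - xp (l n) (l (n - 1)))
      fun n => ldist (l n) (l (n + 1)) := by
  obtain ⟨l₀, h1⟩ := exists_nrm_eq (n := ![1, 0, 0]) (by simp [B])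
  obtain ⟨m₀, h2⟩ := exists_nrm_eq (n := ![0, 1, 0]) (by simp [B])
  have h3 : B (nrm l₀) (nrm m₀) = 0 := by simp [h1, h2, B]
  obtain ⟨F, f1, f2⟩ := exists_isom_line l₀ (l 0) 0 (xp (l 0) (l (0 - 1)))
  have f3 : sh F l₀ = xp (l 0) (l (0 - 1)) := by rw [sh, f1, f2, fer_pt]
  have hd : ∀ n : ℕ, 0 ≤ ldist (l n) (l (n + 1)) := fun n => (GDist_pos (h.far n)).le
  have key := le_trc p (fun n => xp (l n) (l (n + 1)) - xp (l n) (l (n - 1))) hd
  have k0 := UChain_mat h3 (fun n => xp (l n) (l (n + 1)) - xp (l n) (l (n - 1)))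
    (fun n => ldist (l n) (l (n + 1))) (List.range p)
  have k1 : ∀ n : ℕ, (F * ((List.range n).map fun n : ℕ =>
      trans l₀ (xp (l n) (l (n + 1)) - xp (l n) (l (n - 1))) *
        trans m₀ (ldist (l n) (l (n + 1)))).prod) • l₀ = l n ∧
      sh (F * ((List.range n).map fun n : ℕ =>
        trans l₀ (xp (l n) (l (n + 1)) - xp (l n) (l (n - 1))) *
          trans m₀ (ldist (l n) (l (n + 1)))).prod) l₀ = xp (l n) (l (n - 1)) := fun n => by
    induction n with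
    | zero => simpa using ⟨f1, by simpa using f3⟩
    | succ n ih =>
      rw [List.range_succ, List.map_append, List.prod_append, ← mul_assoc, Nat.cast_succ,
        add_sub_cancel_right, List.map_singleton, List.prod_singleton]
      exact UChain_ind h h1 h2 ih.1 ih.2
  obtain ⟨k2, k3⟩ := k1 p
  have p1 : l p = g • l 0 := by rw [← h.per, zero_add]
  have p2 : l (p - 1) = g • l (0 - 1) := by
    rw [← h.per, zero_sub, neg_add_eq_sub]
  have k4 := UChain_uniq (F := g * F) (k2.trans (by rw [mul_smul, f1, p1])) (k3.trans (by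
    have := CChain_symm (h.far (p - 1))
    rw [sub_add_cancel, p1, p2] at this
    rw [UChain_sh, f1, f3, p1, p2, UChain_xp g this]))
  rw [← mul_inv_eq_iff_eq_mul] at k4
  have k5 := congrArg tl k4
  rw [tl_conj] at k5
  have k6 := IsLift.cosh_tl k0 ((IsLift.hyp_iff k0).1 (by
    have := h.hyp
    rwa [Hyp, ← k5] at this)).le
  have k7 := le_trans (mul_pos (exp_pos _) (Finset.prod_pos fun n _ => cosh_pos _)).le key
  rw [trc, Matrix.trace_fin_two] at k7 ⊢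
  rw [← k5, k6, abs_of_nonneg (by linarith only [k7])]
  ring

end HRT
end

-- merged part: Pool.Agent.Work.MP_35beee_gt.UPhi
section
/-!
The tropical limit of the length functions.

Plan. Put `co x = fun i => (lens P x i, τ x i)`. `Coord.trop`: in the first case of `form` use
`Trop.lin`; otherwise `MT.trc` (`Trop.lin`, `Trop.comp`, `MT.comp`) and `abs_sub_log`. Let `Φ v g` be
the witness. For `v ∈ Half ι` take `x n` with `lens P (x n) i = tl (ρ (P i)) + n * (v i).1` and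
`τ (x n) i = n * (v i).2` (`ex`); `Hom1.tendsto` gives `tl (x n g) / n → Φ v g`; in particular
`Φ v (P i) = (v i).1`. If `Glue v w`, the two sequences have the same `lens`; apply `trc_flip` with
`σ n := (v (j n)).2 ≠ (w (j n)).2` (then `(v (j n)).1 = 0`, the length of `P (j n)` is constant;
`off_le`, `coth`, `Trop.exists_le`): the lengths of `g` differ by a bounded amount. Conversely let
`Φ v = Φ w`. The dual curve `δ i` crosses only `P i` (so `j n = i`; `inter_eq_zero_iff`,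
`inter_comm`, `cross_comm`). Let `Dx = ∑ 2 * log (cosh (d n x / 2))`, tropical in `lens`. By `le_trc`
and `trc_le`, `|∑ u n| + Dx - C ≤ tl ≤ ∑ |u n| + Dx + C`. If `(v i).1 = 0` this gives
`Φ v (δ i) = p * |(v i).2| + ψ (fun i => (v i).1)`. If `(v i).1 > 0` take `K` large, `φ` from `tw K` and
the curve `φ (δ i)` (`IsMod.simple_iff`, `Rep.act_apply`): at the points `(x n).act` all `u n` are
eventually nonnegative, so `Φ v (φ (δ i)) = p * ((v i).2 + K * (v i).1) + ψ' (fun i => (v i).1)`.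
-/

namespace HRT

open Set Filter Topology Real

variable {Γ : Type} [Group Γ] {ρ : Γ →* Isom} {ι : Type} [Fintype ι] {P δ : ι → Γ}
  {τ : Rep ρ → ι → ℝ}

/-- The first coordinates. -/
noncomputable def UPhi_fst (ι : Type) [Fintype ι] : (ι → ℝ × ℝ) →L[ℝ] (ι → ℝ) :=
  ContinuousLinearMap.pi fun i => (ContinuousLinearMap.fst ℝ ℝ ℝ).comp (ContinuousLinearMap.proj i)

theorem Coord.trop (h : Coord ρ P τ) {g : Γ} (hg : Simple ρ g) :
    Trop (Long ρ P) (fun x i => (lens P x i, τ x i)) fun x : Rep ρ => tl (x.1 g) := by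
  rcases h.form g hg with ⟨-, i, hi⟩ | ⟨p, j, o, d, F⟩
  · refine (Trop.lin ((ContinuousLinearMap.fst ℝ ℝ ℝ).comp
      (ContinuousLinearMap.proj (R := ℝ) (φ := fun _ : ι => ℝ × ℝ) i))).congr (C := 0)
      fun x _ => ?_
    rw [hi x]
    simp
  · have hc : ∀ x : Rep ρ, lens P x = UPhi_fst ι fun i => (lens P x i, τ x i) := fun _ => rfl
    have h1 := MT.trc (S := Long ρ P) (c := fun x i => (lens P x i, τ x i)) p
      (u := fun n x => τ x (j n) + o n x) (d := d)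
      (fun n => (Trop.lin ((ContinuousLinearMap.snd ℝ ℝ ℝ).comp
        (ContinuousLinearMap.proj (R := ℝ) (φ := fun _ : ι => ℝ × ℝ) (j n)))).add
          ((F.off n).comp _ hc))
      (fun n => (F.ch n).comp _ hc) fun n => (F.sh n).comp _ hc
    exact (h1.2.const_mul 2).congr fun x _ => abs_sub_log (tl_nonneg _) (F.eq x)

theorem UPhi_lim {a b : ℕ → ℝ} {A A' c B : ℝ} (ha : Tendsto (fun n : ℕ => a n / n) atTop (𝓝 A))
    (hb : Tendsto (fun n : ℕ => b n / n) atTop (𝓝 A')) (h : ∀ n : ℕ, c * n - B ≤ a n - b n) :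
    c ≤ A - A' := by
  have h1 : Tendsto (fun n : ℕ => c - B / n) atTop (𝓝 (c - 0)) :=
    tendsto_const_nhds.sub (tendsto_const_div_atTop_nhds_zero_nat B)
  rw [sub_zero] at h1
  refine le_of_tendsto_of_tendsto h1 (ha.sub hb) ((eventually_gt_atTop 0).mono fun n hn => ?_)
  have hn' : (0 : ℝ) < n := Nat.cast_pos.2 hn
  change c - B / n ≤ a n / n - b n / n
  rw [← sub_div, le_div_iff₀ hn', sub_mul, div_mul_cancel₀ _ hn'.ne']
  exact h n

theorem UPhi_le_exp {a b C D : ℝ} (ha : 0 < a) (hb : 0 < b) (h : |log a - log b| ≤ C)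
    (hD : C ≤ D) : a ≤ exp D * b := by
  rw [← exp_log ha, ← exp_log hb, ← exp_add]
  exact exp_le_exp.2 (by linarith [(abs_le.1 h).2])

variable {g : Γ} {p : ℕ} {j : ℕ → ι} {o d : ℕ → Rep ρ → ℝ}

theorem UPhi_two (F : Form ρ P τ g p j o d) : ∃ B : ℝ, ∀ x ∈ Long ρ P, ∀ y ∈ Long ρ P,
    lens P x = lens P y → |∑ m ∈ Finset.range p, (τ x (j m) + o m x)| -
      ∑ m ∈ Finset.range p, |τ y (j m) + o m y| - B ≤ tl (x.1 g) - tl (y.1 g) := by
  choose C hC using fun m => (F.ch m).2.exists_le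
  refine ⟨2 * ∑ m ∈ Finset.range p, C m + 2 * ((p + 1 : ℕ) * log 2) + 4 * log 2,
    fun x hx y hy e => ?_⟩
  have e1 := abs_le.1 (abs_sub_log (tl_nonneg _) (F.eq x))
  have e2 := abs_le.1 (abs_sub_log (tl_nonneg _) (F.eq y))
  have pp : ∀ z : Rep ρ, 0 < ∏ m ∈ Finset.range p, cosh (d m z / 2) := fun z =>
    Finset.prod_pos fun _ _ => cosh_pos _
  have lp : ∀ z : Rep ρ, log (∏ m ∈ Finset.range p, cosh (d m z / 2)) =
      ∑ m ∈ Finset.range p, log (cosh (d m z / 2)) := fun z =>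
    log_prod fun _ _ => (cosh_pos _).ne'
  have l1 := log_le_log (mul_pos (exp_pos _) (pp x))
    (le_trc p (fun m => τ x (j m) + o m x) fun m => F.nonneg m x)
  have l2 := log_le_log (by rw [← F.eq y]; exact mul_pos two_pos (cosh_pos _))
    (trc_le p (fun m => τ y (j m) + o m y) fun m => F.nonneg m y)
  rw [log_mul (exp_pos _).ne' (pp x).ne', log_exp, lp] at l1
  rw [log_mul (pow_pos two_pos _).ne' (mul_pos (exp_pos _) (pp y)).ne',
    log_mul (exp_pos _).ne' (pp y).ne', log_exp, lp, log_pow] at l2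
  have l3 : ∑ m ∈ Finset.range p, log (cosh (d m y / 2)) ≤
      ∑ m ∈ Finset.range p, log (cosh (d m x / 2)) + ∑ m ∈ Finset.range p, C m := by
    rw [← Finset.sum_add_distrib]
    exact Finset.sum_le_sum fun m _ => by linarith only [hC, hx, hy, e, (abs_le.1 (hC m x hx y hy e)).1]
  linarith only [e1, e2, l1, l2, l3, e1.1, e2.2]

theorem UPhi_flip (F : Form ρ P τ g p j o d) (σ : ι → Prop) : ∃ B : ℝ, ∀ x ∈ Long ρ P,
    ∀ y ∈ Long ρ P, lens P x = lens P y → (∀ i, ¬ σ i → τ x i = τ y i) →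
      (∀ i, σ i → τ x i = -τ y i ∧ lens P y i = tl (ρ (P i))) →
        0 - B ≤ tl (y.1 g) - tl (x.1 g) := by
  classical
  choose C1 hC1 using fun m => (F.ch m).2.exists_le
  choose C2 hC2 using fun m => (F.sh m).2.exists_le
  choose C3 hC3 using fun m => (F.off m).exists_le
  choose C4 hC4 using F.off_le
  set e : ℕ → ℝ := fun m => |C1 m| + |C2 m| + tl (ρ (P (j m))) + tl (ρ (P (j (m + 1)))) with he
  refine ⟨2 * ∑ m ∈ Finset.range p, ((|C3 m| + 2 * |C4 m * tl (ρ (P (j m)))|) / 2 + e m) +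
    4 * log 2, fun x hx y hy h0 h1 h2 => ?_⟩
  have e1 := abs_le.1 (abs_sub_log (tl_nonneg _) (F.eq x))
  have e2 := abs_le.1 (abs_sub_log (tl_nonneg _) (F.eq y))
  have n1 := fun m => tl_nonneg (ρ (P (j m)))
  have k := trc_flip p (fun m => τ x (j m) + o m x) (fun m => τ y (j m) + o m y)
    (d := fun m => d m x) (d' := fun m => d m y) (δ := e) (σ := fun m => σ (j m))
    (by rw [F.per]) (fun m => F.nonneg m x) (fun m => F.nonneg m y)
    (fun m _ => UPhi_le_exp (cosh_pos _) (cosh_pos _) (hC1 m x hx y hy h0) (by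
      simp only [he]
      linarith only [n1, le_abs_self (C1 m), abs_nonneg (C2 m), n1 m, n1 (m + 1)]))
    (fun m _ => UPhi_le_exp ((F.sh m).1 x hx) ((F.sh m).1 y hy) (hC2 m x hx y hy h0) (by
      simp only [he]
      linarith [le_abs_self (C2 m), abs_nonneg (C1 m), n1 m, n1 (m + 1)]))
    (fun m _ hm => by
      have a1 := UPhi_le_exp (cosh_pos _) (cosh_pos _) (hC1 m x hx y hy h0) (le_abs_self _)
      have a2 : cosh (d m y / 2) ≤
          exp (tl (ρ (P (j m))) + tl (ρ (P (j (m + 1))))) * sinh (d m y / 2) := by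
        have a3 := ((F.sh m).1 y hy).le
        rcases hm with hm | hm
        · refine (F.coth m y).1.trans (mul_le_mul_of_nonneg_right (exp_le_exp.2 ?_) a3)
          rw [(h2 _ hm).2]
          linarith only [n1, n1 (m + 1)]
        · refine (F.coth m y).2.trans (mul_le_mul_of_nonneg_right (exp_le_exp.2 ?_) a3)
          rw [(h2 _ hm).2]
          linarith [n1 m]
      refine a1.trans ((mul_le_mul_of_nonneg_left a2 (exp_pos _).le).trans ?_)
      rw [← mul_assoc, ← exp_add]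
      refine mul_le_mul_of_nonneg_right (exp_le_exp.2 ?_) ((F.sh m).1 y hy).le
      simp only [he]
      linarith only [abs_nonneg (C2 m)])
  have px : 0 < trc p (fun m => τ x (j m) + o m x) fun m => d m x := by
    rw [← F.eq x]; exact mul_pos two_pos (cosh_pos _)
  have py : 0 < trc p (fun m => τ y (j m) + o m y) fun m => d m y := by
    rw [← F.eq y]; exact mul_pos two_pos (cosh_pos _)
  have l1 := log_le_log px k
  rw [log_mul (exp_pos _).ne' py.ne', log_exp] at l1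
  have l2 : ∑ m ∈ Finset.range p, (|τ x (j m) + o m x -
      (if σ (j m) then -(τ y (j m) + o m y) else τ y (j m) + o m y)| / 2 + e m) ≤
      ∑ m ∈ Finset.range p, ((|C3 m| + 2 * |C4 m * tl (ρ (P (j m)))|) / 2 + e m) := by
    refine Finset.sum_le_sum fun m _ => add_le_add_left (div_le_div_of_nonneg_right ?_ two_pos.le) _
    split_ifs with hm
    · have a1 := abs_le.1 (hC4 m x)
      have a2 := abs_le.1 (hC4 m y)
      rw [h0, (h2 _ hm).2] at a1
      rw [(h2 _ hm).2] at a2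
      rw [(h2 _ hm).1, abs_le]
      have a3 := le_abs_self (C4 m * tl (ρ (P (j m))))
      have a4 := abs_nonneg (C3 m)
      constructor <;> linarith only [a1, a2, a3, a4, a1.1, a1.2, a2.1, a2.2]
    · have a1 := abs_le.1 (hC3 m x hx y hy h0)
      rw [h1 _ hm, abs_le]
      have a3 := abs_nonneg (C4 m * tl (ρ (P (j m))))
      have a4 := le_abs_self (C3 m)
      constructor <;> linarith only [a1, a3, a4, a1.1, a1.2]
  linarith only [e1, e2, l1, l2, e1.2, e2.1]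

/-- The sequence of structures that goes to infinity in the direction `v`. -/
structure UPhi_Seq (P : ι → Γ) (τ : Rep ρ → ι → ℝ) (v : ι → ℝ × ℝ) (x : ℕ → Rep ρ) : Prop where
  long : ∀ n, x n ∈ Long ρ P
  len : ∀ n i, lens P (x n) i = tl (ρ (P i)) + n * (v i).1
  tw : ∀ n i, τ (x n) i = n * (v i).2

theorem UPhi_seq (h : Coord ρ P τ) {v : ι → ℝ × ℝ} (hv : v ∈ Half ι) :
    ∃ x, UPhi_Seq P τ v x := by
  have h0 : ∀ (n : ℕ) i, tl (ρ (P i)) ≤ tl (ρ (P i)) + n * (v i).1 := fun n i =>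
    le_add_of_nonneg_right (mul_nonneg n.cast_nonneg (hv i))
  choose x h1 h2 using fun n : ℕ =>
    h.ex (fun i => tl (ρ (P i)) + n * (v i).1) (fun i => n * (v i).2) (h0 n)
  exact ⟨x, fun n i => by rw [h1]; exact h0 n i, fun n i => by rw [h1], fun n i => by rw [h2]⟩

variable {v w : ι → ℝ × ℝ} {x y : ℕ → Rep ρ}

theorem UPhi_Seq.tendsto (hx : UPhi_Seq P τ v x) {f : Rep ρ → ℝ} {φ : (ι → ℝ × ℝ) → ℝ}
    (hφ : Hom1 φ) {C : ℝ} (h : ∀ z ∈ Long ρ P, |f z - φ fun i => (lens P z i, τ z i)| ≤ C) :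
    Tendsto (fun n : ℕ => f (x n) / n) atTop (𝓝 (φ v)) :=
  hφ.tendsto (c := fun z i => (lens P z i, τ z i)) h hx.long (w := fun i => (tl (ρ (P i)), 0))
    fun n => funext fun i => Prod.ext (by simp [hx.len]) (by simp [hx.tw])

omit [Fintype ι] in
theorem UPhi_Seq.lens_eq (hx : UPhi_Seq P τ v x) (hy : UPhi_Seq P τ w y)
    (e : ∀ i, (v i).1 = (w i).1) (n : ℕ) : lens P (x n) = lens P (y n) :=
  funext fun i => by rw [hx.len, hy.len, e]

omit [Fintype ι] in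
theorem UPhi_Seq.tendsto_len (hx : UPhi_Seq P τ v x) (i : ι) :
    Tendsto (fun n : ℕ => tl ((x n).1 (P i)) / n) atTop (𝓝 (v i).1) := by
  have h1 : Tendsto (fun n : ℕ => tl (ρ (P i)) / n + (v i).1) atTop (𝓝 (0 + (v i).1)) :=
    (tendsto_const_div_atTop_nhds_zero_nat _).add tendsto_const_nhds
  rw [zero_add] at h1
  refine h1.congr' ((eventually_gt_atTop 0).mono fun n hn => ?_)
  have hn' : (n : ℝ) ≠ 0 := Nat.cast_ne_zero.2 hn.ne'
  have h2 : tl ((x n).1 (P i)) = tl (ρ (P i)) + n * (v i).1 := hx.len n i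
  change _ = tl ((x n).1 (P i)) / n
  rw [h2, add_div, mul_div_cancel_left₀ _ hn']

omit [Fintype ι] in
theorem UPhi_glue_symm (h : Glue v w) : Glue w v := fun i =>
  ⟨(h i).1.symm, (h i).2.imp Eq.symm fun t => ⟨(h i).1 ▸ t.1, by rw [t.2, neg_neg]⟩⟩

theorem UPhi_glue (h : Coord ρ P τ) (hg : Simple ρ g) (hx : UPhi_Seq P τ v x)
    (hy : UPhi_Seq P τ w y) (hG : Glue v w) :
    ∃ B : ℝ, ∀ n : ℕ, 0 * (n : ℝ) - B ≤ tl ((y n).1 g) - tl ((x n).1 g) := by
  have e := hx.lens_eq hy fun i => (hG i).1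
  rcases h.form g hg with ⟨-, i, hi⟩ | ⟨p, j, o, d, F⟩
  · exact ⟨0, fun n => by rw [hi, hi, e]; simp⟩
  · obtain ⟨B, hB⟩ := UPhi_flip F fun i => (v i).2 ≠ (w i).2
    refine ⟨B, fun n => ?_⟩
    rw [zero_mul]
    refine hB _ (hx.long n) _ (hy.long n) (e n) (fun i hi => ?_) fun i hi => ?_
    · rw [hx.tw, hy.tw, not_not.1 hi]
    · obtain ⟨a1, a2⟩ := (hG i).2.resolve_left hi
      rw [hx.tw, hy.tw, hy.len, ← (hG i).1, a1, a2]
      constructor <;> ring

theorem UPhi_dual (h : Coord ρ P τ) (hρ : Disc ρ) (hd : Duals ρ P δ) (i : ι) :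
    ∃ p o d, Form ρ P τ (δ i) p (fun _ => i) o d := by
  rcases h.form _ (hd.simple i) with ⟨h0, -⟩ | ⟨p, j, o, d, F⟩
  · have h1 := (hρ.inter_eq_zero_iff (hd.simple i).hyp (hd.multi.1 i).hyp
      (hd.multi.1 i).prim).1 (h0 i) 1
    rw [map_one, one_smul] at h1
    exact (h1 (hd.cross i).symm).elim
  · obtain rfl : j = fun _ => i := funext fun m => by_contra fun t => F.cross m (hd.disj i _ t)
    exact ⟨p, o, d, F⟩

theorem UPhi_zero {i : ι} (F : Form ρ P τ g p (fun _ => i) o d) (hx : UPhi_Seq P τ v x)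
    (hy : UPhi_Seq P τ w y) (e : ∀ i, (v i).1 = (w i).1) (h0 : (v i).1 = 0) :
    ∃ B : ℝ, ∀ n : ℕ, p * (|(v i).2| - |(w i).2|) * (n : ℝ) - B ≤
      tl ((x n).1 g) - tl ((y n).1 g) := by
  obtain ⟨B, hB⟩ := UPhi_two F
  choose C hC using F.off_le
  refine ⟨B + 2 * ∑ m ∈ Finset.range p, C m * tl (ρ (P i)), fun n => ?_⟩
  have h1 := hB _ (hx.long n) _ (hy.long n) (hx.lens_eq hy e n)
  have a1 : ∀ m, |o m (x n)| ≤ C m * tl (ρ (P i)) := fun m => by
    simpa [hx.len, h0] using hC m (x n)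
  have a2 : ∀ m, |o m (y n)| ≤ C m * tl (ρ (P i)) := fun m => by
    simpa [hy.len, ← e, h0] using hC m (y n)
  have a3 : ∑ m ∈ Finset.range p, |τ (y n) i + o m (y n)| ≤
      p * (n * |(w i).2|) + ∑ m ∈ Finset.range p, C m * tl (ρ (P i)) := by
    calc _ ≤ ∑ m ∈ Finset.range p, (n * |(w i).2| + C m * tl (ρ (P i))) :=
          Finset.sum_le_sum fun m _ => (abs_add_le _ _).trans (add_le_add
            (by rw [hy.tw, abs_mul, Nat.abs_cast]) (a2 m))
      _ = _ := by rw [Finset.sum_add_distrib, Finset.sum_const, Finset.card_range, nsmul_eq_mul]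
  have a4 : p * (n * |(v i).2|) ≤ |∑ m ∈ Finset.range p, (τ (x n) i + o m (x n))| +
      ∑ m ∈ Finset.range p, C m * tl (ρ (P i)) := by
    have a5 : |∑ m ∈ Finset.range p, o m (x n)| ≤ ∑ m ∈ Finset.range p, C m * tl (ρ (P i)) :=
      (Finset.abs_sum_le_sum_abs _ _).trans (Finset.sum_le_sum fun m _ => a1 m)
    rw [Finset.sum_add_distrib, Finset.sum_const, Finset.card_range, nsmul_eq_mul, hx.tw]
    have a6 := abs_sub (p * (n * (v i).2) + ∑ m ∈ Finset.range p, o m (x n))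
      (∑ m ∈ Finset.range p, o m (x n))
    rw [add_sub_cancel_right, abs_mul, abs_mul, Nat.abs_cast, Nat.abs_cast] at a6
    linarith
  linarith

theorem UPhi_pos {i : ι} (F : Form ρ P τ g p (fun _ => i) o d) (h : Coord ρ P τ)
    (hx : UPhi_Seq P τ v x) (hy : UPhi_Seq P τ w y) (e : ∀ i, (v i).1 = (w i).1)
    (h0 : 0 < (w i).1) : ∃ (φ : Γ ≃* Γ) (_ : IsMod ρ φ) (B : ℝ), ∀ n : ℕ,
      p * ((v i).2 - (w i).2) * (n : ℝ) - B ≤ tl ((x n).1 (φ g)) - tl ((y n).1 (φ g)) := by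
  obtain ⟨B, hB⟩ := UPhi_two F
  choose C hC using F.off_le
  choose C' hC' using fun m => (F.off m).exists_le
  obtain ⟨K, hK⟩ := exists_int_gt (∑ m ∈ Finset.range p, |C m| + |(w i).2| / (w i).1)
  obtain ⟨φ, hφ, ht⟩ := h.tw K
  refine ⟨φ, hφ, B + ∑ m ∈ Finset.range p, C' m, fun n => ?_⟩
  have lx : (x n).act hφ ∈ Long ρ P := fun k => by rw [(ht _).1]; exact hx.long n k
  have ly : (y n).act hφ ∈ Long ρ P := fun k => by rw [(ht _).1]; exact hy.long n k
  have e1 : lens P ((x n).act hφ) = lens P ((y n).act hφ) := by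
    rw [(ht _).1, (ht _).1, hx.lens_eq hy e n]
  have h1 := hB _ lx _ ly e1
  rw [Rep.act_apply, Rep.act_apply] at h1
  have a1 : ∑ m ∈ Finset.range p, |τ ((y n).act hφ) i + o m ((y n).act hφ)| =
      ∑ m ∈ Finset.range p, (τ ((y n).act hφ) i + o m ((y n).act hφ)) := by
    refine Finset.sum_congr rfl fun m hm => abs_of_nonneg ?_
    have b1 := (abs_le.1 (hC m ((y n).act hφ))).1
    have b2 : |C m| ≤ ∑ m ∈ Finset.range p, |C m| :=
      Finset.single_le_sum (f := fun m => |C m|) (fun _ _ => abs_nonneg _) hm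
    have b3 : |(w i).2| / (w i).1 ≤ K - C m := by linarith only [hK, b2, le_abs_self (C m)]
    have b4 : 0 ≤ K - C m := (div_nonneg (abs_nonneg _) h0.le).trans b3
    rw [div_le_iff₀ h0] at b3
    rw [(ht _).1, hy.len] at b1
    rw [(ht _).2, hy.tw, hy.len]
    have b5 := mul_nonneg b4 (tl_nonneg (ρ (P i)))
    have b6 := mul_le_mul_of_nonneg_left ((neg_le_abs (w i).2).trans b3) (n.cast_nonneg (α := ℝ))
    linarith only [hφ, b1, b5, b6]
  have a2 := le_abs_self (∑ m ∈ Finset.range p, (τ ((x n).act hφ) i + o m ((x n).act hφ)))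
  have a3 : ∑ m ∈ Finset.range p, o m ((y n).act hφ) ≤
      ∑ m ∈ Finset.range p, o m ((x n).act hφ) + ∑ m ∈ Finset.range p, C' m := by
    rw [← Finset.sum_add_distrib]
    exact Finset.sum_le_sum fun m _ => by linarith [(abs_le.1 (hC' m _ lx _ ly e1)).1]
  rw [a1] at h1
  have a4 : ∀ z : Rep ρ, ∑ m ∈ Finset.range p, (τ z i + o m z) =
      p * τ z i + ∑ m ∈ Finset.range p, o m z := fun z => by
    rw [Finset.sum_add_distrib, Finset.sum_const, Finset.card_range, nsmul_eq_mul]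
  rw [a4] at a2
  rw [a4, a4, (ht _).2, (ht _).2, hx.tw, hy.tw, hx.lens_eq hy e n] at h1
  rw [(ht _).2, hx.tw, hx.lens_eq hy e n] at a2
  linarith only [hφ, h1, a2, a3]

theorem Coord.exists_phi (h : Coord ρ P τ) (hρ : Disc ρ) (hd : Duals ρ P δ) :
    ∃ Φ : (ι → ℝ × ℝ) → SC ρ → ℝ, (∀ g, Hom1 fun v => Φ v g) ∧
      (∀ g : SC ρ, ∃ C : ℝ, ∀ x ∈ Long ρ P,
        |tl (x.1 g.1) - Φ (fun i => (lens P x i, τ x i)) g| ≤ C) ∧
      ∀ v ∈ Half ι, ∀ w ∈ Half ι, Φ v = Φ w ↔ Glue v w := by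
  choose φ hφ C hC using fun g : SC ρ => h.trop g.2
  refine ⟨fun v g => φ g v, hφ, fun g => ⟨C g, hC g⟩, ?_⟩
  have T : ∀ {v x}, UPhi_Seq P τ v x → ∀ g : SC ρ,
      Tendsto (fun n : ℕ => tl ((x n).1 g.1) / n) atTop (𝓝 (φ g v)) := fun hx g =>
    hx.tendsto (f := fun z => tl (z.1 g.1)) (hφ g) (hC g)
  have k1 : ∀ v ∈ Half ι, ∀ w ∈ Half ι, Glue v w → ∀ g, φ g v ≤ φ g w := fun v hv w hw hG g => by
    obtain ⟨x, hx⟩ := UPhi_seq h hv
    obtain ⟨y, hy⟩ := UPhi_seq h hw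
    obtain ⟨B, hB⟩ := UPhi_glue h g.2 hx hy hG
    exact sub_nonneg.1 (UPhi_lim (T hy g) (T hx g) hB)
  have k2 : ∀ v ∈ Half ι, ∀ i, φ ⟨P i, hd.multi.1 i⟩ v = (v i).1 := fun v hv i => by
    obtain ⟨x, hx⟩ := UPhi_seq h hv
    exact tendsto_nhds_unique (T hx ⟨P i, hd.multi.1 i⟩) (hx.tendsto_len i)
  have k3 : ∀ v ∈ Half ι, ∀ w ∈ Half ι, (∀ g, φ g v = φ g w) → ∀ i, (v i).1 = (w i).1 :=
    fun v hv w hw e i => by rw [← k2 v hv, ← k2 w hw, e]
  have k4 : ∀ v ∈ Half ι, ∀ w ∈ Half ι, (∀ g, φ g v = φ g w) → ∀ i,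
      ((v i).1 = 0 → |(v i).2| ≤ |(w i).2|) ∧ (0 < (w i).1 → (v i).2 ≤ (w i).2) :=
    fun v hv w hw e i => by
    obtain ⟨x, hx⟩ := UPhi_seq h hv
    obtain ⟨y, hy⟩ := UPhi_seq h hw
    obtain ⟨p, o, d, F⟩ := UPhi_dual h hρ hd i
    have hp : (0 : ℝ) < p := Nat.cast_pos.2 F.pos
    constructor
    · intro h0
      obtain ⟨B, hB⟩ := UPhi_zero F hx hy (k3 v hv w hw e) h0
      have a1 := UPhi_lim (T hx ⟨δ i, hd.simple i⟩) (T hy ⟨δ i, hd.simple i⟩) hB
      rw [e, sub_self] at a1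
      exact sub_nonpos.1 (nonpos_of_mul_nonpos_right a1 hp)
    · intro h0
      obtain ⟨ψ, hψ, B, hB⟩ := UPhi_pos F h hx hy (k3 v hv w hw e) h0
      have hs := (hψ.simple_iff _).2 (hd.simple i)
      have a1 := UPhi_lim (T hx ⟨ψ (δ i), hs⟩) (T hy ⟨ψ (δ i), hs⟩) hB
      rw [e, sub_self] at a1
      exact sub_nonpos.1 (nonpos_of_mul_nonpos_right a1 hp)
  refine fun v hv w hw => ⟨fun e i => ?_, fun hG => funext fun g =>
    le_antisymm (k1 v hv w hw hG g) (k1 w hw v hv (UPhi_glue_symm hG) g)⟩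
  have e1 : ∀ g, φ g v = φ g w := fun g => congrFun e g
  have e2 : ∀ g, φ g w = φ g v := fun g => (e1 g).symm
  have e3 := k3 v hv w hw e1 i
  refine ⟨e3, ?_⟩
  rcases (hv i).eq_or_lt with h0 | h0
  · exact (abs_eq_abs.1 (le_antisymm ((k4 v hv w hw e1 i).1 h0.symm)
      ((k4 w hw v hv e2 i).1 (e3 ▸ h0.symm)))).imp_right fun t => ⟨h0.symm, t⟩
  · exact Or.inl (le_antisymm ((k4 v hv w hw e1 i).2 (e3 ▸ h0)) ((k4 w hw v hv e2 i).2 h0))

end HRT
end

-- merged part: Pool.Agent.Work.MP_35beee_gt.UTop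
section
/-!
Topological lemmas: cones, spheres, retracts.

Plan. `isClosed_image_cone`: the compact set `H ∩ sphere` is covered by the open sets
`{v | Φ v g ≠ 0}`; a finite subcover gives `c * ‖v‖ ≤ ∑ g ∈ F, |Φ v g|` on `H`; so along an
ultrafilter on `H` with convergent image the points stay bounded.
`homeo_sphere`: `q v i = ((v i).1 - |(v i).2|, max (-(v i).1) (min (v i).1 (v i).2))` is continuous,
homogeneous, maps `Half` onto the whole space, and `q v = q w ↔ Glue v w` on `Half` (the inverse: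
first coordinate `max x 0 + |y|`, second `± (max (-x) 0 + |y|)` with the sign of `y`). Compose with a
continuous linear equivalence onto `EuclideanSpace ℝ (Fin (2 * k))`
(`ContinuousLinearEquiv.ofFinrankEq`). The set `X` of `v ∈ Half` with `‖q v‖ = 1` is compact, and it
maps onto the sphere and onto `Y` with the same fibres; two quotient maps
(`IsClosedMap.isQuotientMap`, `Topology.IsQuotientMap.homeomorph` or `IsQuotientMap.lift`).
`not_contractible_sphere`: from a homotopy `H` from the identity to a constant on the sphere of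
`ℝ^m` build the odd map `(x, s) ↦ ± H (|s|, ± x / ‖x‖)` on the `l¹` sphere of `ℝ^(m + 1)` (for
continuity at `x = 0` use `‖x‖ • H (|s|, x / ‖x‖) + |s| • ...`, or reparametrise so that `H` is
constant for `s ≥ 1 / 2`), against `borsuk_ulam_l1`. `eq_of_sphere`: if `x₀ ∈ X \ A`, the inclusion
of `A` factors through the sphere minus a point, which is contractible (`stereographic'`), so the
identity of `A`, which is the inclusion followed by the retraction, is homotopic to a constant.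
If `A` is empty then so is `X`.
-/

namespace HRT

open Set Filter Topology

theorem isClosed_image_cone {E I : Type*} [NormedAddCommGroup E] [NormedSpace ℝ E]
    [FiniteDimensional ℝ E] {H : Set E} (hH : IsClosed H)
    (hc : ∀ s : ℝ, 0 ≤ s → ∀ v ∈ H, s • v ∈ H) {Φ : E → I → ℝ} (hΦ : ∀ g, Hom1 fun v => Φ v g)
    (h0 : ∀ v ∈ H, Φ v = 0 → v = 0) : IsClosed (Φ '' H) := by
  classical
  have hK : IsCompact (Metric.sphere (0 : E) 1 ∩ H) := by
    have := FiniteDimensional.proper_real E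
    exact (isCompact_sphere 0 1).inter_right hH
  obtain ⟨F, hF⟩ := hK.elim_finite_subcover (fun g => {v | Φ v g ≠ 0})
    (fun g => isOpen_ne_fun (hΦ g).1 continuous_const) fun v hv => by
      have h1 : Φ v ≠ 0 := fun e => by simpa [h0 v hv.2 e] using hv.1
      exact mem_iUnion.2 (Function.ne_iff.1 h1)
  have hψ : Continuous fun v => ∑ g ∈ F, |Φ v g| :=
    continuous_finsetSum _ fun g _ => (hΦ g).1.abs
  obtain ⟨c, hc0, hc1⟩ := hK.exists_forall_le' hψ.continuousOn (a := 0) fun v hv => by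
    obtain ⟨g, hg, h1⟩ := mem_iUnion₂.1 (hF hv)
    exact (abs_pos.2 h1).trans_le
      (Finset.single_le_sum (f := fun g => |Φ v g|) (fun _ _ => abs_nonneg _) hg)
  have hb : ∀ v ∈ H, c * ‖v‖ ≤ ∑ g ∈ F, |Φ v g| := fun v hv => by
    by_cases h : v = 0
    · rw [h, norm_zero, mul_zero]
      positivity
    · have h1 : 0 < ‖v‖ := norm_pos_iff.2 h
      have h2 := hc1 (‖v‖⁻¹ • v) ⟨mem_sphere_zero_iff_norm.2 (norm_smul_inv_norm h),
        hc _ (inv_pos.2 h1).le v hv⟩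
      simp only [fun g => (hΦ g).2 _ (inv_pos.2 h1).le v, abs_mul, abs_inv, abs_norm,
        ← Finset.mul_sum] at h2
      rwa [← div_eq_inv_mul, le_div_iff₀ h1] at h2
  refine isClosed_of_closure_subset fun y hy => ?_
  have hU : IsOpen {z : I → ℝ | ∑ g ∈ F, |z g| < ∑ g ∈ F, |y g| + 1} :=
    isOpen_lt (by fun_prop) continuous_const
  have h1 := hU.inter_closure (t := Φ '' H) (a := y) ⟨lt_add_one (∑ g ∈ F, |y g|), hy⟩
  have h2 : IsCompact (Φ '' (Metric.closedBall 0 ((∑ g ∈ F, |y g| + 1) / c) ∩ H)) := by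
    have := FiniteDimensional.proper_real E
    exact ((isCompact_closedBall 0 _).inter_right hH).image (continuous_pi fun g => (hΦ g).1)
  refine image_mono inter_subset_right (closure_minimal ?_ h2.isClosed h1)
  rintro _ ⟨h3, v, hv, rfl⟩
  refine ⟨v, ⟨mem_closedBall_zero_iff.2 ?_, hv⟩, rfl⟩
  rw [le_div_iff₀ hc0, mul_comm]
  exact (hb v hv).trans (le_of_lt h3)

theorem UTop_lift {X Y Z : Type*} [TopologicalSpace X] [TopologicalSpace Y] [TopologicalSpace Z]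
    [CompactSpace X] [T2Space Y] {f : X → Y} {g : X → Z} (hf : Continuous f) (hg : Continuous g)
    (hs : Function.Surjective f) (h : ∀ a b, f a = f b → g a = g b) :
    ∃ φ : Y → Z, Continuous φ ∧ ∀ a, φ (f a) = g a := by
  have e : ∀ a, g (Function.surjInv hs (f a)) = g a := fun a => h _ _ (Function.surjInv_eq hs _)
  refine ⟨fun y => g (Function.surjInv hs y), ?_, e⟩
  rw [(hf.isClosedMap.isQuotientMap hf hs).continuous_iff]
  exact hg.congr fun a => (e a).symm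

theorem UTop_homeo {X Y Z : Type*} [TopologicalSpace X] [TopologicalSpace Y] [TopologicalSpace Z]
    [CompactSpace X] [T2Space Y] [T2Space Z] {f : X → Y} {g : X → Z} (hf : Continuous f)
    (hg : Continuous g) (hs : Function.Surjective f) (hs' : Function.Surjective g)
    (h : ∀ a b, f a = f b ↔ g a = g b) : Nonempty (Y ≃ₜ Z) := by
  obtain ⟨φ, h1, h2⟩ := UTop_lift hf hg hs fun a b => (h a b).1
  have : CompactSpace Y := hs.compactSpace hf
  have hb : Function.Bijective φ := by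
    refine ⟨fun y y' e => ?_, fun z => ?_⟩
    · obtain ⟨a, rfl⟩ := hs y
      obtain ⟨b, rfl⟩ := hs y'
      rw [h2, h2] at e
      exact (h a b).2 e
    · obtain ⟨a, rfl⟩ := hs' z
      exact ⟨f a, h2 a⟩
  exact ⟨Continuous.homeoOfEquivCompactToT2 (f := Equiv.ofBijective φ hb) h1⟩

/-- Squaring in each half plane. -/
noncomputable def UTop_q {k : ℕ} (v : Fin k → ℝ × ℝ) : Fin k → ℂ :=
  fun i => (((v i).1 : ℂ) + (v i).2 * Complex.I) ^ 2

theorem UTop_q_cont {k : ℕ} : Continuous (UTop_q (k := k)) := by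
  unfold UTop_q
  fun_prop

theorem UTop_q_smul {k : ℕ} (s : ℝ) (v : Fin k → ℝ × ℝ) : UTop_q (s • v) = s ^ 2 • UTop_q v := by
  funext i
  simp only [UTop_q, Pi.smul_apply, Prod.smul_fst, Prod.smul_snd, smul_eq_mul, Complex.real_smul]
  push_cast
  ring

theorem UTop_q_eq {k : ℕ} {v w : Fin k → ℝ × ℝ} (hv : v ∈ Half (Fin k)) (hw : w ∈ Half (Fin k)) :
    UTop_q v = UTop_q w ↔ Glue v w := by
  rw [funext_iff]
  refine forall_congr' fun i => ?_
  have h1 := hv i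
  have h2 := hw i
  simp only [UTop_q, sq_eq_sq_iff_eq_or_eq_neg, Complex.ext_iff, Complex.add_re, Complex.ofReal_re,
    Complex.mul_re, Complex.I_re, mul_zero, Complex.ofReal_im, Complex.I_im, mul_one, sub_self,
    add_zero, Complex.add_im, Complex.mul_im, zero_add, Complex.neg_re, Complex.neg_im]
  constructor
  · rintro (⟨a, b⟩ | ⟨a, b⟩)
    · exact ⟨a, .inl b⟩
    · exact ⟨by linarith only [h1, a, h2], .inr ⟨by linarith, b⟩⟩
  · rintro ⟨a, b | ⟨b, c⟩⟩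
    · exact .inl ⟨a, b⟩
    · exact .inr ⟨by linarith, c⟩

theorem UTop_q_surj {k : ℕ} (z : Fin k → ℂ) : ∃ v ∈ Half (Fin k), UTop_q v = z := by
  have key : ∀ a : ℂ, ∃ b : ℂ, 0 ≤ b.re ∧ b ^ 2 = a := fun a => by
    obtain ⟨b, hb⟩ := IsAlgClosed.exists_pow_nat_eq a two_pos
    rcases le_total 0 b.re with h | h
    · exact ⟨b, h, hb⟩
    · exact ⟨-b, by simpa using h, by rw [neg_sq, hb]⟩
  choose b h1 h2 using key
  exact ⟨fun i => ((b (z i)).re, (b (z i)).im), fun i => h1 _, funext fun i => by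
    simp only [UTop_q, Complex.re_add_im, h2]⟩

theorem UTop_q_ne {k : ℕ} {v : Fin k → ℝ × ℝ} (h : v ≠ 0) : UTop_q v ≠ 0 := fun e => h (by
  funext i
  have h1 : ((v i).1 : ℂ) + (v i).2 * Complex.I = 0 := pow_eq_zero_iff two_ne_zero |>.1 (congrFun e i)
  have h2 := congrArg Complex.re h1
  have h3 := congrArg Complex.im h1
  exact Prod.ext (by simpa using h2) (by simpa using h3))

theorem UTop_half_smul {k : ℕ} {v : Fin k → ℝ × ℝ} (hv : v ∈ Half (Fin k)) {s : ℝ} (hs : 0 ≤ s) :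
    s • v ∈ Half (Fin k) := fun i => mul_nonneg hs (hv i)

theorem UTop_surj {k : ℕ} {Y : Type*} {G : {v // v ∈ Half (Fin k) ∧ v ≠ 0} → Y}
    (hs : Function.Surjective G) (hf : ∀ v w, G v = G w ↔ ∃ s : ℝ, 0 < s ∧ Glue v.1 (s • w.1))
    (y : Y) : ∃ v, ‖v.1‖ = 1 ∧ G v = y := by
  obtain ⟨w, rfl⟩ := hs y
  have h : 0 < ‖w.1‖⁻¹ := inv_pos.2 (norm_pos_iff.2 w.2.2)
  exact ⟨⟨‖w.1‖⁻¹ • w.1, UTop_half_smul w.2.1 h.le, smul_ne_zero h.ne' w.2.2⟩,
    norm_smul_inv_norm w.2.2, (hf _ _).2 ⟨_, h, fun i => ⟨rfl, .inl rfl⟩⟩⟩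

theorem homeo_sphere {k : ℕ} {Y : Type*} [TopologicalSpace Y] [T2Space Y]
    {G : {v // v ∈ Half (Fin k) ∧ v ≠ 0} → Y} (hG : Continuous G) (hs : Function.Surjective G)
    (hf : ∀ v w, G v = G w ↔ ∃ s : ℝ, 0 < s ∧ Glue v.1 (s • w.1)) :
    Nonempty (Y ≃ₜ Metric.sphere (0 : EuclideanSpace ℝ (Fin (2 * k))) 1) := by
  let L : (Fin k → ℂ) ≃L[ℝ] EuclideanSpace ℝ (Fin (2 * k)) :=
    ContinuousLinearEquiv.ofFinrankEq (by simp [Module.finrank_pi_fintype, mul_comm])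
  have hne : ∀ v : {v // v ∈ Half (Fin k) ∧ v ≠ 0}, L (UTop_q v.1) ≠ 0 := fun v =>
    L.map_ne_zero_iff.2 (UTop_q_ne v.2.2)
  let N : {v // v ∈ Half (Fin k) ∧ v ≠ 0} → Metric.sphere (0 : EuclideanSpace ℝ (Fin (2 * k))) 1 :=
    fun v => ⟨‖L (UTop_q v.1)‖⁻¹ • L (UTop_q v.1),
      mem_sphere_zero_iff_norm.2 (norm_smul_inv_norm (hne v))⟩
  have hc : Continuous fun v : {v // v ∈ Half (Fin k) ∧ v ≠ 0} => L (UTop_q v.1) :=
    L.continuous.comp (UTop_q_cont.comp continuous_subtype_val)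
  have hN : Continuous N :=
    ((hc.norm.inv₀ fun v => norm_ne_zero_iff.2 (hne v)).smul hc).subtype_mk _
  have hNs : Function.Surjective N := fun z => by
    obtain ⟨v, hv, e⟩ := UTop_q_surj (L.symm z.1)
    have e' : L (UTop_q v) = z.1 := by rw [e, L.apply_symm_apply]
    refine ⟨⟨v, hv, fun h => ?_⟩, Subtype.ext ?_⟩
    · have h1 := UTop_q_smul 0 v
      rw [zero_smul, ← h, zero_pow two_ne_zero, zero_smul] at h1
      rw [h1, map_zero] at e'
      exact ne_zero_of_mem_unit_sphere z e'.symm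
    · simp only [N, e', norm_eq_of_mem_sphere, inv_one, one_smul]
  have hNf : ∀ v w, N v = N w ↔ ∃ s : ℝ, 0 < s ∧ Glue v.1 (s • w.1) := fun v w => by
    rw [Subtype.ext_iff]
    simp only [N]
    rw [← sameRay_iff_inv_norm_smul_eq_of_ne (hne v) (hne w), SameRay.sameRay_comm,
      ← exists_pos_left_iff_sameRay (hne w) (hne v)]
    constructor
    · rintro ⟨r, hr, e⟩
      have hs : 0 < √r := Real.sqrt_pos.2 hr
      refine ⟨√r, hs, (UTop_q_eq v.2.1 (UTop_half_smul w.2.1 hs.le)).1 (L.injective ?_)⟩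
      rw [UTop_q_smul, Real.sq_sqrt hr.le, map_smul, e]
    · rintro ⟨s, hs, e⟩
      refine ⟨s ^ 2, pow_pos hs 2, ?_⟩
      rw [(UTop_q_eq v.2.1 (UTop_half_smul w.2.1 hs.le)).2 e, UTop_q_smul, map_smul]
  have hK : IsCompact (Metric.sphere (0 : Fin k → ℝ × ℝ) 1 ∩ Half (Fin k)) := by
    refine (isCompact_sphere 0 1).inter_right ?_
    rw [Half, ofPred_forall]
    exact isClosed_iInter fun i => isClosed_le continuous_const (by fun_prop)
  have := isCompact_iff_compactSpace.1 hK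
  let j : ↥(Metric.sphere (0 : Fin k → ℝ × ℝ) 1 ∩ Half (Fin k)) →
      {v // v ∈ Half (Fin k) ∧ v ≠ 0} := fun v =>
    ⟨v.1, v.2.2, ne_zero_of_mem_unit_sphere ⟨v.1, v.2.1⟩⟩
  have hj : Continuous j := continuous_subtype_val.subtype_mk _
  refine UTop_homeo (hG.comp hj) (hN.comp hj) (fun y => ?_) (fun y => ?_) fun a b =>
    (hf _ _).trans (hNf _ _).symm
  · obtain ⟨v, h1, h2⟩ := UTop_surj hs hf y
    exact ⟨⟨v.1, mem_sphere_zero_iff_norm.2 h1, v.2.1⟩, h2⟩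
  · obtain ⟨v, h1, h2⟩ := UTop_surj hNs hNf y
    exact ⟨⟨v.1, mem_sphere_zero_iff_norm.2 h1, v.2.1⟩, h2⟩

theorem UTop_retr {E : Type*} [NormedAddCommGroup E] [NormedSpace ℝ E] [ProperSpace E]
    [ContractibleSpace (Metric.sphere (0 : E) 1)] :
    ∃ r : E → E, ContinuousOn r (Metric.closedBall 0 1) ∧ (∀ x, ‖x‖ ≤ 1 → ‖r x‖ = 1) ∧
      ∀ x, ‖x‖ = 1 → r x = x := by
  classical
  obtain ⟨c, ⟨H⟩⟩ := id_nullhomotopic (Metric.sphere (0 : E) 1)
  have hn : ∀ (t : unitInterval) (u : Metric.sphere (0 : E) 1), ‖(1 - t.1) • u.1‖ = 1 - t.1 :=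
    fun t u => by
      rw [norm_smul, norm_eq_of_mem_sphere, mul_one, Real.norm_of_nonneg (sub_nonneg.2 t.2.2)]
  let p : unitInterval × Metric.sphere (0 : E) 1 → Metric.closedBall (0 : E) 1 := fun a =>
    ⟨(1 - a.1.1) • a.2.1, mem_closedBall_zero_iff.2 (by rw [hn]; linarith [a.1.2.1])⟩
  have hp : Continuous p := by
    refine Continuous.subtype_mk ?_ _
    fun_prop
  have hs : Function.Surjective p := by
    rintro ⟨x, hx⟩
    have h1 := mem_closedBall_zero_iff.1 hx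
    by_cases h0 : x = 0
    · exact ⟨(1, c), Subtype.ext (by simp [p, h0])⟩
    · refine ⟨(⟨1 - ‖x‖, by linarith, by linarith [norm_nonneg x]⟩,
        ⟨‖x‖⁻¹ • x, mem_sphere_zero_iff_norm.2 (norm_smul_inv_norm h0)⟩), Subtype.ext ?_⟩
      simp only [p, sub_sub_cancel]
      exact smul_inv_smul₀ (norm_ne_zero_iff.2 h0) x
  obtain ⟨φ, h1, h2⟩ := UTop_lift hp H.continuous hs (by
    rintro ⟨t, u⟩ ⟨t', u'⟩ e
    have e1 : (1 - t.1) • u.1 = (1 - t'.1) • u'.1 := congrArg Subtype.val e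
    have e2 := congrArg norm e1
    rw [hn, hn] at e2
    obtain rfl : t = t' := Subtype.ext (by linarith only [e2])
    by_cases ht : t = 1
    · rw [ht, H.apply_one, H.apply_one]
      rfl
    · have h3 : 1 - t.1 ≠ 0 := fun h => ht (Subtype.ext (by simp only [Icc.coe_one]; linarith only [h]))
      rw [Subtype.ext (smul_right_injective E h3 e1 : u.1 = u'.1)])
  refine ⟨fun x => if h : x ∈ Metric.closedBall (0 : E) 1 then φ ⟨x, h⟩ else 0, ?_,
    fun x hx => ?_, fun x hx => ?_⟩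
  · rw [continuousOn_iff_continuous_domRestrict]
    exact (continuous_subtype_val.comp h1).congr fun x => by
      simp only [domRestrict_apply, dif_pos x.2, Function.comp_apply]
  · simp only [dif_pos (mem_closedBall_zero_iff.2 hx)]
    exact norm_eq_of_mem_sphere _
  · simp only [dif_pos (mem_closedBall_zero_iff.2 hx.le)]
    have h3 := h2 (0, ⟨x, mem_sphere_zero_iff_norm.2 hx⟩)
    rw [H.apply_zero] at h3
    have h4 : p (0, ⟨x, mem_sphere_zero_iff_norm.2 hx⟩) =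
        ⟨x, mem_closedBall_zero_iff.2 hx.le⟩ := Subtype.ext (by simp [p])
    rw [← h4, h3]
    rfl

theorem UTop_b (m : ℕ) : ∃ b : (Fin (m + 1) → ℝ) → EuclideanSpace ℝ (Fin m),
    ContinuousOn b {x | ∑ i, |x i| = 1} ∧ (∀ y, b (-y) = -b y) ∧ (∀ y, ‖b y‖ ≤ 1) ∧
      ∀ y, ∑ i, |y i| = 1 → y 0 = 0 → ‖b y‖ = 1 := by
  obtain ⟨a, ha, han, ha0⟩ : ∃ a : (Fin (m + 1) → ℝ) → EuclideanSpace ℝ (Fin m), Continuous a ∧
      (∀ y, a (-y) = -a y) ∧ ∀ y, a y = 0 → ∀ i : Fin m, y i.succ = 0 :=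
    ⟨fun y => WithLp.toLp 2 fun i => y i.succ, by fun_prop, fun y => rfl,
      fun y h i => congrFun (congrArg WithLp.ofLp h) i⟩
  have hd : ∀ y : Fin (m + 1) → ℝ, ∑ i, |y i| = 1 → 0 < ‖a y‖ + |y 0| := fun y hy => by
    by_contra hn
    have k1 : ‖a y‖ = 0 := by linarith only [hn, norm_nonneg (a y), abs_nonneg (y 0)]
    have k2 : |y 0| = 0 := by linarith [norm_nonneg (a y), abs_nonneg (y 0)]
    simp [Fin.sum_univ_succ, k2, ha0 y (norm_eq_zero.1 k1)] at hy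
  have hbe : ∀ y : Fin (m + 1) → ℝ, ‖(‖a y‖ + |y 0|)⁻¹ • a y‖ = ‖a y‖ / (‖a y‖ + |y 0|) :=
    fun y => by
      rw [norm_smul, norm_inv, div_eq_inv_mul, Real.norm_of_nonneg (by positivity)]
  have hc : Continuous fun y : Fin (m + 1) → ℝ => ‖a y‖ + |y 0| :=
    ha.norm.add (continuous_apply 0).abs
  refine ⟨fun y => (‖a y‖ + |y 0|)⁻¹ • a y,
    (hc.continuousOn.inv₀ fun y hy => (hd y hy).ne').smul ha.continuousOn, fun y => ?_,
    fun y => ?_, fun y hy h0 => ?_⟩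
  · simp only [han, norm_neg, Pi.neg_apply, abs_neg, smul_neg]
  · rw [hbe]
    exact div_le_one_of_le₀ (le_add_of_nonneg_right (abs_nonneg _)) (by positivity)
  · have := hd y hy
    rw [hbe]
    rw [h0, abs_zero, add_zero] at this ⊢
    exact div_self this.ne'

theorem not_contractible_sphere (m : ℕ) :
    ¬ ContractibleSpace (Metric.sphere (0 : EuclideanSpace ℝ (Fin m)) 1) := by
  intro hC
  obtain ⟨r, h1, h2, h3⟩ := UTop_retr (E := EuclideanSpace ℝ (Fin m))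
  obtain ⟨b, hb, hbn, hb1, hb2⟩ := UTop_b m
  have c1 : ContinuousOn (fun y => r (b y)) {x | ∑ i, |x i| = 1} :=
    h1.comp hb fun y _ => mem_closedBall_zero_iff.2 (hb1 y)
  have c2 : ContinuousOn (fun y => r (-b y)) {x | ∑ i, |x i| = 1} :=
    h1.comp hb.neg fun y _ => mem_closedBall_zero_iff.2 (by rw [norm_neg]; exact hb1 y)
  have c0 : Continuous fun y : Fin (m + 1) → ℝ => Real.exp (y 0) := by fun_prop
  have c0' : Continuous fun y : Fin (m + 1) → ℝ => Real.exp (-y 0) := by fun_prop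
  have c3 : ContinuousOn (fun y => Real.exp (y 0) • r (b y) - Real.exp (-y 0) • r (-b y))
      {x | ∑ i, |x i| = 1} := (c0.continuousOn.smul c1).sub (c0'.continuousOn.smul c2)
  have c4 : Continuous fun z : EuclideanSpace ℝ (Fin m) => z.ofLp := PiLp.continuous_ofLp 2 _
  obtain ⟨y, hy, e⟩ := Pool.Agent.Lib.BorsukUlam.borsuk_ulam_l1 m
    (fun y => WithLp.ofLp (Real.exp (y 0) • r (b y) - Real.exp (-y 0) • r (-b y)))
    (c4.comp_continuousOn' c3) (fun y _ => by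
      rw [hbn, neg_neg, Pi.neg_apply, neg_neg, WithLp.ofLp_sub, WithLp.ofLp_sub, neg_sub])
  have e1 : Real.exp (y 0) • r (b y) = Real.exp (-y 0) • r (-b y) :=
    sub_eq_zero.1 ((WithLp.ofLp_eq_zero 2).1 e)
  have e2 := congrArg norm e1
  rw [norm_smul, norm_smul, h2 _ (hb1 y), h2 _ (by rw [norm_neg]; exact hb1 y), mul_one, mul_one,
    Real.norm_of_nonneg (Real.exp_pos _).le, Real.norm_of_nonneg (Real.exp_pos _).le,
    Real.exp_eq_exp] at e2
  have e3 : y 0 = 0 := by linarith only [e2]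
  have e4 := hb2 y hy e3
  rw [e3, neg_zero, Real.exp_zero, one_smul, one_smul, h3 _ e4,
    h3 _ (by rw [norm_neg]; exact e4), eq_neg_iff_add_eq_zero, ← two_smul ℝ,
    smul_eq_zero_iff_right two_ne_zero] at e1
  simp [e1] at e4

theorem eq_of_sphere {E : Type*} [TopologicalSpace E] {X A : Set E} (h : Retracts X A) {m n : ℕ}
    (hA : Nonempty (A ≃ₜ Metric.sphere (0 : EuclideanSpace ℝ (Fin m)) 1))
    (hX : Nonempty (X ≃ₜ Metric.sphere (0 : EuclideanSpace ℝ (Fin n)) 1)) : X = A := by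
  obtain ⟨hAX, H, -, h1, h2⟩ := h
  obtain ⟨eA⟩ := hA
  obtain ⟨eX⟩ := hX
  refine Subset.antisymm (fun x hx => ?_) hAX
  by_contra hn
  let S := stereographic (norm_eq_of_mem_sphere (eX ⟨x, hx⟩))
  have hm : ∀ a : A, eX (inclusion hAX a) ∈ S.source := fun a e =>
    hn (mem_of_eq_of_mem (congrArg Subtype.val (eX.injective e)).symm a.2)
  let j : C(A, _) := ⟨fun a => S (eX (inclusion hAX a)),
    S.continuousOn.comp_continuous (eX.continuous.comp (continuous_inclusion hAX)) hm⟩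
  have hS : Continuous S.symm := continuousOn_univ.1 S.continuousOn_symm
  let k : C(_, A) := ⟨fun w => ⟨(H (1, eX.symm (S.symm w))).1, h1 _⟩, by fun_prop⟩
  have e : ContinuousMap.id A = (k.comp (ContinuousMap.id _)).comp j := by
    ext a
    change a.1 = (H (1, eX.symm (S.symm (S (eX (inclusion hAX a)))))).1
    rw [S.left_inv (hm a), eX.symm_apply_apply, h2 _ _ a.2]
  have : ContractibleSpace A := (contractible_iff_id_nullhomotopic A).2
    (e ▸ ((id_nullhomotopic _).comp_right k).comp_left j)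
  exact not_contractible_sphere m eA.symm.contractibleSpace

end HRT
end
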